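import Pool.Agent.Strip051.PB.CornU

/-! # Charts at the aligned corners for small `x`

The leaf tests with `esn x / x = 1 / 2 - 3 / 4 * x / (1 + c1 x)` in a form without a division by
`x`. -/

namespace Pool.Agent.Strip051.PB

attribute [local irreducible] padd psub pneg pmul psq pinv psqrt psqrtg pabs pps pmax pmin pphi plam
  pcase phf pnat prat pscale pnorm pdc pnc pone ppos pnn Enc pbad pzero

/-- `esn x / x` without a division by `x` -/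
noncomputable def psT (X : ℕ) : ℕ := psub (phn 1) (pmn (p34 X) (pinv (padd pone (c1T X))))

/-- `esn x / (1 - x)` -/
noncomputable def qsT (X : ℕ) : ℕ := pmn (pmn X (psT X)) (pinv (psub pone X))

theorem esn_div {x : ℝ} (h0 : 0 < x) (h1 : x < 1) :
    1 / 2 - 3 / 4 * x * (1 + c1n x)⁻¹ = esn x / x := by
  have hg : c1n x ^ 2 = 1 - 3 / 4 * x ^ 2 := Real.sq_sqrt (by nlinarith)
  have hg0 : 0 ≤ c1n x := Real.sqrt_nonneg _
  have h2 : 1 + c1n x ≠ 0 := by linarith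
  unfold esn
  field_simp
  nlinarith

theorem enc_psT {E : Pt} {X : ℕ} {x : ℝ} (hX : Enc E X x) (h0 : 0 < x) (h1 : x < 1) :
    Enc E (psT X) (esn x / x) := by
  rw [← esn_div h0 h1]
  refine enc_cast (enc_sub (enc_phn E 1) (enc_mn (enc_p34 hX)
    (enc_inv (enc_add (enc_one E) (enc_c1T hX))))) ?_
  push_cast
  ring

theorem enc_qsT {E : Pt} {X : ℕ} {x : ℝ} (hX : Enc E X x) (h0 : 0 < x) (h1 : x < 1) :
    Enc E (qsT X) (esn x / (1 - x)) := by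
  refine enc_cast (enc_mn (enc_mn hX (enc_psT hX h0 h1)) (enc_inv (enc_sub (enc_one E) hX))) ?_
  have : x ≠ 0 := h0.ne'
  field_simp

/-- the test with all rates -/
noncomputable def ratTS (far : Bool) (N0 : ℕ) (P : Cp) (h R A X C1 C3 Y1 Y2 Y3 c0 z1 z3 r1 r2 r3
    l1 l2 l3 : ℕ) : Bool :=
  frc (comT P.cn A (padd (bmT P.t1 P.h1 c0) (pmn R r1))
      (padd (sl P.fam (bmT P.tn P.hn c0) (bmT P.tt P.ht c0)) (pmn R r2))
      (padd (sl P.fam (bmT P.tt P.ht c0) (bmT P.tn P.hn c0)) (pmn R r3))) fun om =>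
  frc (psub r3 (padd r1 r2)) fun d =>
  frc (phf (padd (psub (psub (padd (bmT P.t1 P.h1 C3) z1)
      (sl P.fam (bmT P.tt P.ht C1) (bmT P.tn P.hn C1))) (pnat P.m1 z3))
      (pmn R (psub (pmn z1 C3) (pmn z3 C1))))) fun E0 =>
  frc (psT X) fun p => frc (qsT X) fun q =>
  finT (sgnT X R A p q om d) far N0 h X Y1 Y2 Y3 E0 l1 l2 l3

theorem ratTS_sound {E : Pt} {far : Bool} {N0 : ℕ} {P : Cp} (hP : P.Ok)
    {h R A X C1 C3 Y1 Y2 Y3 C0 Z1 Z3 K1 K2 K3 L1 L2 L3 : ℕ}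
    {ρ a x c0 z1 z3 r1 r2 r3 l1 l2 l3 X12 X13 y y' v1 v2 v3 w1 w2 w3 : ℝ} (B : CRng ρ a x)
    (hR : Enc E R ρ) (hA : Enc E A a) (hX : Enc E X x)
    (hC1 : Enc E C1 (cd1 P.cn a)) (hC3 : Enc E C3 (cd3 P.cn a))
    (hY1 : Enc E Y1 y) (hY2 : Enc E Y2 y') (hY3 : Enc E Y3 (y + y')) (hC0 : Enc E C0 c0)
    (hz1 : Enc E Z1 z1) (hz3 : Enc E Z3 z3) (hr1 : Enc E K1 r1) (hr2 : Enc E K2 r2)
    (hr3 : Enc E K3 r3) (hl1 : Enc E L1 l1) (hl2 : Enc E L2 l2) (hl3 : Enc E L3 l3)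
    (hy : y = P.m1 + ρ * cd1 P.cn a) (hy' : y' = cond P.fam (P.mn : ℝ) P.mt + ρ * cd2 P.cn a)
    (hX12 : X12 = P.b1 + ρ * z1) (hX13 : X13 = cond P.fam P.bt P.bn + ρ * z3)
    (hv1 : v1 = c0 * P.b1 + ρ * r1) (hv2 : v2 = c0 * cond P.fam P.bn P.bt + ρ * r2)
    (hv3 : v3 = c0 * cond P.fam P.bt P.bn + ρ * r3)
    (hw1 : w1 = ρ * l1) (hw2 : w2 = ρ * l2) (hw3 : w3 = ρ * l3)
    (ht : ratTS far N0 P h R A X C1 C3 Y1 Y2 Y3 C0 Z1 Z3 K1 K2 K3 L1 L2 L3 = true) :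
    ∃ g, 0 ≤ slc P.cn (levR far N0 x y y' (exn' X12 X13 y (y + y')) w1 w2 w3) (ken x) x
      (ρ * cd1 P.cn a) (ρ * cd2 P.cn a) (ρ * cd3 P.cn a) v1 v2 v3 g := by
  obtain ⟨b2, hb2⟩ : ∃ b2, b2 = cond P.fam P.bn P.bt := ⟨_, rfl⟩
  obtain ⟨b3, hb3⟩ : ∃ b3, b3 = cond P.fam P.bt P.bn := ⟨_, rfl⟩
  obtain ⟨m2, hm2⟩ : ∃ m2 : ℝ, m2 = cond P.fam (P.mn : ℝ) P.mt := ⟨_, rfl⟩
  have e3 : P.b1 + b2 = b3 := by
    have := hP.b
    rw [hb2, hb3]
    cases hf : P.fam <;> rw [hf] at this <;> exact this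
  have em : (P.m1 : ℝ) + m2 = 1 := by
    have h1 := hP.m
    have h2 := hP.m3
    rw [hm2]
    cases hf : P.fam <;> rw [hf] at h1 h2 <;> simp only [cond_true, cond_false] at * <;> linarith
  have det : P.b1 - b3 * P.m1 = 1 := by rw [hb3]; exact hP.det
  rw [← hb2] at hv2
  rw [← hb3] at hv3 hX13
  rw [← hm2] at hy'
  have k2 : Enc E (sl P.fam (bmT P.tn P.hn C0) (bmT P.tt P.ht C0)) (b2 * c0) := by
    have := enc_sl P.fam (enc_bmT P.tn P.hn hC0) (enc_bmT P.tt P.ht hC0)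
    refine enc_cast this ?_
    rw [hb2]
    cases P.fam <;> rfl
  have k3 : Enc E (sl P.fam (bmT P.tt P.ht C0) (bmT P.tn P.hn C0)) (b3 * c0) := by
    have := enc_sl P.fam (enc_bmT P.tt P.ht hC0) (enc_bmT P.tn P.hn hC0)
    refine enc_cast this ?_
    rw [hb3]
    cases P.fam <;> rfl
  have kc : Enc E (sl P.fam (bmT P.tt P.ht C1) (bmT P.tn P.hn C1)) (b3 * cd1 P.cn a) := by
    have := enc_sl P.fam (enc_bmT P.tt P.ht hC1) (enc_bmT P.tn P.hn hC1)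
    refine enc_cast this ?_
    rw [hb3]
    cases P.fam <;> rfl
  obtain ⟨D, hD⟩ : ∃ D : Crn, D = ⟨P.cn, P.m1, m2, P.b1, b2, ρ, a, z1, z3, r1, r2, r3, l1, l2,
    l3⟩ := ⟨_, rfl⟩
  have x1' : (1 : ℝ) - x ≠ 0 := by linarith [B.x1]
  have base : D.Base (ken x) x (esn x / x) (esn x / (1 - x)) := by
    subst hD
    exact ⟨hP.six, B.ρ0, B.ρx, B.ρx', B.x0, B.a0, B.a1, ken_nonneg B.x0.le B.x1.le,
      ken_p B.x0 B.x1, ken_q B.x0 B.x1, by
        show P.b1 * (P.m1 + m2) - (P.b1 + b2) * P.m1 = 1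
        rw [em, e3]
        linarith⟩
  unfold ratTS at ht
  simp only [frc_eq] at ht
  have hp : Enc E (psT X) (esn x / x) := enc_psT hX B.x0 B.x1
  have hq : Enc E (qsT X) (esn x / (1 - x)) := enc_qsT hX B.x0 B.x1
  have hom : Enc E (comT P.cn A (padd (bmT P.t1 P.h1 C0) (pmn R K1))
      (padd (sl P.fam (bmT P.tn P.hn C0) (bmT P.tt P.ht C0)) (pmn R K2))
      (padd (sl P.fam (bmT P.tt P.ht C0) (bmT P.tn P.hn C0)) (pmn R K3)))
      (comg P.cn a (c0 * P.b1 + ρ * r1) (c0 * b2 + ρ * r2) (c0 * (P.b1 + b2) + ρ * r3)) := by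
    refine enc_comT P.cn hA ?_ ?_ ?_
    · refine enc_cast (enc_add (enc_bmT P.t1 P.h1 hC0) (enc_mn hR hr1)) ?_
      unfold Cp.b1
      ring
    · exact enc_cast (enc_add k2 (enc_mn hR hr2)) (by ring)
    · exact enc_cast (enc_add k3 (enc_mn hR hr3)) (by rw [e3]; ring)
  have hdd : Enc E (psub K3 (padd K1 K2)) (-(r1 + r2 - r3)) :=
    enc_cast (enc_sub hr3 (enc_add hr1 hr2)) (by ring)
  have he : Enc E (phf (padd (psub (psub (padd (bmT P.t1 P.h1 C3) Z1)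
      (sl P.fam (bmT P.tt P.ht C1) (bmT P.tn P.hn C1))) (pnat P.m1 Z3))
      (pmn R (psub (pmn Z1 C3) (pmn Z3 C1))))) D.e0 := by
    refine enc_cast (enc_half (enc_add (enc_sub (enc_sub (enc_add (enc_bmT P.t1 P.h1 hC3) hz1)
      kc) (enc_nat P.m1 hz3)) (enc_mn hR (enc_sub (enc_mn hz1 hC3) (enc_mn hz3 hC1))))) ?_
    subst hD
    unfold Crn.e0
    simp only
    rw [em, e3]
    unfold Cp.b1
    ring
  have cone : ∀ {e : ℝ} {L k : ℕ}, Enc E L e → sgnT X R A (psT X)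
      (qsT X) (comT P.cn A (padd (bmT P.t1 P.h1 C0) (pmn R K1))
      (padd (sl P.fam (bmT P.tn P.hn C0) (bmT P.tt P.ht C0)) (pmn R K2))
      (padd (sl P.fam (bmT P.tt P.ht C0) (bmT P.tn P.hn C0)) (pmn R K3)))
      (psub K3 (padd K1 K2)) k L = true → D.Ok c0 x (esn x / x) (esn x / (1 - x)) e := by
    intro e L k hL hk
    unfold Crn.Ok
    subst hD
    exact sgnT_sound hX hR hA hp hq hom hdd hL hk
  have hS := enc_sub (enc_add hl1 hl2) hl3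
  have g1 : y - P.m1 = ρ * cd1 P.cn a := by rw [hy]; ring
  have g2 : y' - m2 = ρ * cd2 P.cn a := by rw [hy']; ring
  have g3 : y + y' - (P.m1 + m2) = ρ * cd3 P.cn a := by
    rw [hy, hy', ← cd_add hP.six]; ring
  cases far
  · -- near
    unfold levR
    simp only [cond_false]
    unfold finT at ht
    obtain ⟨t1, t2⟩ := band_true ht
    have hM := enc_muT N0 hX
    have hF := enc_sub he (enc_mn hM (enc_half (enc_sub (enc_mn hY1 hl2) (enc_mn hY2 hl1))))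
    have hG := enc_mn hM (enc_mn (enc_sub (enc_add (enc_phn E N0) (enc_half hX)) (enc_half hY3))
      hS)
    have o1 := cone (enc_add hF hG) t1
    have o2 := cone (enc_sub hF hG) t2
    have eA : D.e0 + D.LA N0 0 x = D.e0 - mun N0 x * ((y * l2 - y' * l1) / 2) +
        mun N0 x * (((N0 : ℝ) / 2 + x / 2 - (y + y') / 2) * (l1 + l2 - l3)) := by
      have a1 : D.y = y := by subst hD; unfold Crn.y; rw [hy]
      have a2 : D.y' = y' := by subst hD; unfold Crn.y'; rw [hy']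
      unfold Crn.LA
      rw [a1, a2]
      subst hD
      simp only
      ring
    have eB : D.e0 + D.LB N0 0 x = D.e0 - mun N0 x * ((y * l2 - y' * l1) / 2) -
        mun N0 x * (((N0 : ℝ) / 2 + x / 2 - (y + y') / 2) * (l1 + l2 - l3)) := by
      have a1 : D.y = y := by subst hD; unfold Crn.y; rw [hy]
      have a2 : D.y' = y' := by subst hD; unfold Crn.y'; rw [hy']
      unfold Crn.LB
      rw [a1, a2]
      subst hD
      simp only
      ring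
    rw [← eA] at o1
    rw [← eB] at o2
    have := Crn.rowN (D := D) (N0 := N0) (lv := 0) (c0 := c0) (X12 := X12) (X13 := X13)
      (y := y) (y' := y') (R1 := v1) (R2 := v2) (R3 := v3) (x1 := w1) (x2 := w2) (x3 := w3) base
      (by subst hD; rw [hy]; rfl) (by subst hD; rw [hy']; rfl) (by subst hD; exact hX12)
      (by subst hD; rw [hX13, ← e3]) (by subst hD; exact hv1) (by subst hD; exact hv2)
      (by subst hD; rw [hv3, ← e3]) (by subst hD; exact hw1) (by subst hD; exact hw2)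
      (by subst hD; exact hw3) o1 o2
    subst hD
    simp only at this
    rw [g1, g2, g3] at this
    exact this
  · unfold levR
    simp only [cond_true]
    unfold finT at ht
    obtain ⟨t1, t2⟩ := band_true ht
    have o1 := cone (enc_add he (enc_half hS)) t1
    have o2 := cone (enc_sub he (enc_half hS)) t2
    have := Crn.rowF (D := D) (c0 := c0) (X12 := X12) (X13 := X13)
      (y := y) (y' := y') (R1 := v1) (R2 := v2) (R3 := v3) (x1 := w1) (x2 := w2) (x3 := w3) base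
      (by subst hD; rw [hy]; rfl) (by subst hD; rw [hy']; rfl) (by subst hD; exact hX12)
      (by subst hD; rw [hX13, ← e3]) (by subst hD; exact hv1) (by subst hD; exact hv2)
      (by subst hD; rw [hv3, ← e3]) (by subst hD; exact hw1) (by subst hD; exact hw2)
      (by subst hD; exact hw3) (by subst hD; exact o1) (by subst hD; exact o2)
    subst hD
    simp only at this
    rw [g1, g2, g3] at this
    exact this

/-- the test after the choice of the segment -/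
noncomputable def corKS (far : Bool) (N0 : ℕ) (C0 : Fn1) (P : Cp) (G1 G2 : Gn)
    (h R A X C1 C2 C3 Y1 Yn Yt z1 zn zt az : ℕ) (gK gL ξ κ l : ℕ) : Bool :=
  frc (psub az (pmn (sl P.fam C3 C2) ξ)) fun dz =>
  frc (sg P.tt (padd (pmn (sl P.fam C3 C2) κ) (pmn gK dz))) fun rt =>
  frc (sg P.tt (padd (pmn (sl P.fam C3 C2) l) (pmn gL dz))) fun lt =>
  frc (sg P.t1 (pmn C1 (G1.kT Y1 (pnc P.m1) X))) fun r1 =>
  frc (sg P.tn (pmn (sl P.fam C2 C3) (G2.kT Yn (pnc P.mn) X))) fun rn =>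
  frc (sg P.t1 (pmn C1 (G1.lT Y1 (pnc P.m1) X))) fun l1 =>
  frc (sg P.tn (pmn (sl P.fam C2 C3) (G2.lT Yn (pnc P.mn) X))) fun ln =>
  ratTS far N0 P h R A X C1 C3 Y1 (sl P.fam Yn Yt) (sl P.fam Yt Yn) (C0.t X) z1
    (sl P.fam zt zn) r1 (sl P.fam rn rt) (sl P.fam rt rn) l1 (sl P.fam ln lt) (sl P.fam lt ln)

/-- **The test of a leaf.** -/
noncomputable def corTS (far : Bool) (N0 : ℕ) (C0 : Fn1) (P : Cp) (G1 G2 Ga Gb : Gn)
    (lo up : Bool) (h R A X : ℕ) : Bool :=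
  frc (cdT1 P.cn A) fun C1 => frc (cdT2 P.cn A) fun C2 => frc (cdT3 P.cn A) fun C3 =>
  frc (padd (pnc P.m1) (pmn R C1)) fun Y1 =>
  frc (padd (pnc P.mn) (pmn R (sl P.fam C2 C3))) fun Yn =>
  frc (padd (pnc P.mt) (pmn R (sl P.fam C3 C2))) fun Yt =>
  frc (sg P.t1 (pmn C1 (G1.xT Y1 (pnc P.m1)))) fun z1 =>
  frc (sg P.tn (pmn (sl P.fam C2 C3) (G2.xT Yn (pnc P.mn)))) fun zn =>
  frc (th P.fam z1 zn) fun zt => frc (sg P.tt zt) fun az =>
  frc (padd (phn P.ht) (pmn R az)) fun Z => band (ppos Z)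
  (ch3 (Nat.land h 3)
    (segT lo up Ga Gb Yt (pnc P.mt) X Z
      (corKS far N0 C0 P G1 G2 h R A X C1 C2 C3 Y1 Yn Yt z1 zn zt az))
    (band lo (ppos (psub (pmn (sl P.fam C3 C2) (Ga.xT Yt (pnc P.mt))) az)))
    (band up (ppos (psub az (pmn (sl P.fam C3 C2) (Gb.xT Yt (pnc P.mt)))))))

theorem corTS_sound {E : Pt} {far : Bool} {N0 : ℕ} {C0 : Fn1} {P : Cp} (hP : P.Ok)
    {G1 G2 Ga Gb : Gn} {lo up : Bool} {h R A X : ℕ} {ρ a x : ℝ} (B : CRng ρ a x) (hρ : 0 < ρ)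
    (hR : Enc E R ρ) (hA : Enc E A a) (hX : Enc E X x)
    (h1 : G1.At P.m1 ((P.h1 : ℝ) / 2) (C0.v x) x) (h2 : G2.At P.mn ((P.hn : ℝ) / 2) (C0.v x) x)
    (ha : lo = true → Ga.At P.mt ((P.ht : ℝ) / 2) (C0.v x) x)
    (hb : up = true → Gb.At P.mt ((P.ht : ℝ) / 2) (C0.v x) x)
    (ht : corTS far N0 C0 P G1 G2 Ga Gb lo up h R A X = true) :
    P.Stm G1 G2 Ga Gb ρ a x far N0 lo up := by
  unfold corTS at ht
  simp only [frc_eq] at ht
  obtain ⟨tz, ht⟩ := band_true ht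
  have C1 := enc_cdT1 P.cn hA
  have C2 := enc_cdT2 P.cn hA
  have C3 := enc_cdT3 P.cn hA
  have Cn : Enc E (sl P.fam (cdT2 P.cn A) (cdT3 P.cn A)) (cond P.fam (cd2 P.cn a) (cd3 P.cn a)) :=
    enc_sl _ C2 C3
  have Ct : Enc E (sl P.fam (cdT3 P.cn A) (cdT2 P.cn A)) (cond P.fam (cd3 P.cn a) (cd2 P.cn a)) :=
    enc_sl _ C3 C2
  have Y1 : Enc E (padd (pnc P.m1) (pmn R (cdT1 P.cn A))) (P.y1 ρ a) :=
    enc_add (enc_pnc E _) (enc_mn hR C1)
  have Yn : Enc E (padd (pnc P.mn) (pmn R (sl P.fam (cdT2 P.cn A) (cdT3 P.cn A)))) (P.yn ρ a) :=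
    enc_add (enc_pnc E _) (enc_mn hR Cn)
  have Yt : Enc E (padd (pnc P.mt) (pmn R (sl P.fam (cdT3 P.cn A) (cdT2 P.cn A)))) (P.yt ρ a) :=
    enc_add (enc_pnc E _) (enc_mn hR Ct)
  obtain ⟨cn, hcn⟩ : ∃ z, z = cond P.fam (cd2 P.cn a) (cd3 P.cn a) := ⟨_, rfl⟩
  obtain ⟨ct, hct⟩ : ∃ z, z = cond P.fam (cd3 P.cn a) (cd2 P.cn a) := ⟨_, rfl⟩
  rw [← hcn] at Cn
  rw [← hct] at Ct
  have d1 : P.y1 ρ a - P.m1 = ρ * cd1 P.cn a := by unfold Cp.y1; ring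
  have dn : P.yn ρ a - P.mn = ρ * cn := by unfold Cp.yn; rw [hcn]; ring
  have dt : P.yt ρ a - P.mt = ρ * ct := by unfold Cp.yt; rw [hct]; ring
  obtain ⟨⟨x1, x11, x12⟩, ⟨k1, k11, k12⟩, ⟨l1, l11, l12⟩⟩ := G1.slopes Y1 (enc_pnc E P.m1) hX
  obtain ⟨⟨xn, xn1, xn2⟩, ⟨kn, kn1, kn2⟩, ⟨ln, ln1, ln2⟩⟩ := G2.slopes Yn (enc_pnc E P.mn) hX
  obtain ⟨⟨xa, xa1, xa2⟩, -, -⟩ := Ga.slopes Yt (enc_pnc E P.mt) hX
  obtain ⟨⟨xb, xb1, xb2⟩, -, -⟩ := Gb.slopes Yt (enc_pnc E P.mt) hX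
  rw [d1] at x12 k12 l12
  rw [dn] at xn2 kn2 ln2
  rw [dt] at xa2 xb2
  have z1 := enc_sg P.t1 (enc_mn C1 x11)
  have zn := enc_sg P.tn (enc_mn Cn xn1)
  obtain ⟨Z1, hZ1⟩ : ∃ z, z = sgr P.t1 (cd1 P.cn a * x1) := ⟨_, rfl⟩
  obtain ⟨Zn, hZn⟩ : ∃ z, z = sgr P.tn (cn * xn) := ⟨_, rfl⟩
  rw [← hZ1] at z1
  rw [← hZn] at zn
  obtain ⟨Zt, hZt⟩ : ∃ z, z = cond P.fam (Z1 + Zn) (Zn - Z1) := ⟨_, rfl⟩
  have zt : Enc E (th P.fam (sg P.t1 (pmn (cdT1 P.cn A)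
      (G1.xT (padd (pnc P.m1) (pmn R (cdT1 P.cn A))) (pnc P.m1))))
      (sg P.tn (pmn (sl P.fam (cdT2 P.cn A) (cdT3 P.cn A))
        (G2.xT (padd (pnc P.mn) (pmn R (sl P.fam (cdT2 P.cn A) (cdT3 P.cn A)))) (pnc P.mn)))))
      Zt := by
    rw [hZt]
    exact enc_th _ z1 zn
  have az := enc_sg P.tt zt
  have hX1 : P.X1 G1 ρ a = P.b1 + ρ * Z1 := by
    unfold Cp.X1 Cp.b1
    rw [hZ1, ← sgr_mul, ← sgr_add]
    congr 1
    have := h1.X
    linarith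
  have hXn : P.Xn G2 ρ a = P.bn + ρ * Zn := by
    unfold Cp.Xn Cp.bn
    rw [hZn, ← sgr_mul, ← sgr_add]
    congr 1
    have := h2.X
    linarith
  have hXt : P.Xt G1 G2 ρ a = P.bt + ρ * Zt := by
    unfold Cp.Xt
    rw [hX1, hXn, hZt]
    have := hP.b
    cases hf : P.fam
    · rw [hf] at this
      simp only [cond_false] at this ⊢
      linear_combination -this
    · rw [hf] at this
      simp only [cond_true] at this ⊢
      linear_combination this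
  have hZ : P.Z G1 G2 ρ a = (P.ht : ℝ) / 2 + ρ * sgr P.tt Zt := by
    unfold Cp.Z
    rw [hXt, sgr_add, sgr_mul]
    unfold Cp.bt
    rw [sgr_sgr]
  have eZ := enc_add (enc_phn E P.ht) (enc_mn hR az)
  rw [← hZ] at eZ
  refine ⟨ppos_sound eZ tz, ?_⟩
  rcases ch3_true ht with ht | ht | ht
  · right; right
    have hs := segT_sound (B := (P.ht : ℝ) / 2) (c0 := C0.v x) Yt (enc_pnc E P.mt) hX eZ ha hb ht
    refine ⟨hs.1, hs.2.1, fun i1 i2 T TL hT hTL => ?_⟩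
    obtain ⟨gK, gL, ξ, κ, l, GK, GM, XI, KA, LA, e1, e2, e3, e4, e5, hk, eT, eTL⟩ :=
      hs.2.2 i1 i2 T TL hT hTL
    unfold corKS at hk
    simp only [frc_eq] at hk
    rw [dt] at eT eTL
    have dz := enc_sub az (enc_mn Ct e3)
    have rt := enc_sg P.tt (enc_add (enc_mn Ct e4) (enc_mn e1 dz))
    have lt := enc_sg P.tt (enc_add (enc_mn Ct e5) (enc_mn e2 dz))
    have r1 := enc_sg P.t1 (enc_mn C1 k11)
    have rn := enc_sg P.tn (enc_mn Cn kn1)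
    have q1 := enc_sg P.t1 (enc_mn C1 l11)
    have qn := enc_sg P.tn (enc_mn Cn ln1)
    have y3 : Enc E (sl P.fam (padd (pnc P.mt) (pmn R (sl P.fam (cdT3 P.cn A) (cdT2 P.cn A))))
        (padd (pnc P.mn) (pmn R (sl P.fam (cdT2 P.cn A) (cdT3 P.cn A)))))
        (P.y1 ρ a + cond P.fam (P.yn ρ a) (P.yt ρ a)) := by
      refine enc_cast (enc_sl _ Yt Yn) ?_
      have := cd_add hP.six a
      have hm := hP.m
      unfold Cp.yt Cp.yn Cp.y1
      cases hf : P.fam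
      · rw [hf] at hm
        simp only [cond_false] at hm ⊢
        rw [← this]
        linear_combination -hm
      · rw [hf] at hm
        simp only [cond_true] at hm ⊢
        rw [← this]
        linear_combination -hm
    have z3 : Enc E (sl P.fam (th P.fam (sg P.t1 (pmn (cdT1 P.cn A)
        (G1.xT (padd (pnc P.m1) (pmn R (cdT1 P.cn A))) (pnc P.m1))))
        (sg P.tn (pmn (sl P.fam (cdT2 P.cn A) (cdT3 P.cn A))
          (G2.xT (padd (pnc P.mn) (pmn R (sl P.fam (cdT2 P.cn A) (cdT3 P.cn A)))) (pnc P.mn)))))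
        (sg P.tn (pmn (sl P.fam (cdT2 P.cn A) (cdT3 P.cn A))
          (G2.xT (padd (pnc P.mn) (pmn R (sl P.fam (cdT2 P.cn A) (cdT3 P.cn A)))) (pnc P.mn)))))
        (cond P.fam Zt Zn) := enc_sl _ zt zn
    have vt : sgr P.tt T = C0.v x * P.bt + ρ * sgr P.tt (ct * κ + gK * (sgr P.tt Zt - ct * ξ)) := by
      unfold Cp.bt
      rw [← sgr_mul, ← sgr_mul, ← sgr_add, eT]
      congr 1
      rw [hZ]
      ring
    have wt : sgr P.tt TL = ρ * sgr P.tt (ct * l + gL * (sgr P.tt Zt - ct * ξ)) := by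
      rw [← sgr_mul, eTL]
      congr 1
      rw [hZ]
      ring
    have v1 : sgr P.t1 (G1.kv (P.y1 ρ a) x) = C0.v x * P.b1 + ρ * sgr P.t1 (cd1 P.cn a * k1) := by
      unfold Cp.b1
      rw [← sgr_mul, ← sgr_mul, ← sgr_add]
      congr 1
      have := h1.K
      linarith
    have vn : sgr P.tn (G2.kv (P.yn ρ a) x) = C0.v x * P.bn + ρ * sgr P.tn (cn * kn) := by
      unfold Cp.bn
      rw [← sgr_mul, ← sgr_mul, ← sgr_add]
      congr 1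
      have := h2.K
      linarith
    have w1 : sgr P.t1 (G1.lv (P.y1 ρ a) x) = ρ * sgr P.t1 (cd1 P.cn a * l1) := by
      rw [← sgr_mul]
      congr 1
      have := h1.L
      linarith
    have wn : sgr P.tn (G2.lv (P.yn ρ a) x) = ρ * sgr P.tn (cn * ln) := by
      rw [← sgr_mul]
      congr 1
      have := h2.L
      linarith
    unfold Cp.Concl
    refine ratTS_sound hP B hR hA hX C1 C3 Y1 (enc_sl _ Yn Yt) y3 (C0.enc hX) z1 z3 r1
      (enc_sl _ rn rt) (enc_sl _ rt rn) q1 (enc_sl _ qn lt) (enc_sl _ lt qn) rfl ?_ hX1 ?_ v1 ?_ ?_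
      w1 ?_ ?_ hk
    · unfold Cp.yn Cp.yt
      cases P.fam <;> rfl
    · cases hf : P.fam <;> simp only [cond_false, cond_true]
      · exact hXn
      · exact hXt
    · cases hf : P.fam <;> simp only [cond_false, cond_true]
      · exact vt
      · exact vn
    · cases hf : P.fam <;> simp only [cond_false, cond_true]
      · exact vn
      · exact vt
    · cases hf : P.fam <;> simp only [cond_false, cond_true]
      · exact wt
      · exact wn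
    · cases hf : P.fam <;> simp only [cond_false, cond_true]
      · exact wn
      · exact wt
  · left
    obtain ⟨i1, i2⟩ := band_true ht
    refine ⟨i1, ?_⟩
    have := ppos_sound (enc_sub (enc_mn Ct xa1) az) i2
    have e := (ha i1).X
    rw [hZ]
    nlinarith [mul_pos hρ this]
  · right; left
    obtain ⟨i1, i2⟩ := band_true ht
    refine ⟨i1, ?_⟩
    have := ppos_sound (enc_sub az (enc_mn Ct xb1)) i2
    have e := (hb i1).X
    rw [hZ]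
    nlinarith [mul_pos hρ this]

/-- the test with all rates -/
noncomputable def tgtFS (c : Con) (fam : Bool) (h R A X U V D E R1 rn rt ln lt : ℕ) : Bool :=
  frc (psub (sl fam rt rn) (sl fam rn rt)) fun d =>
  frc (omxT c (psub (pmn D R1) (pmn U (sl fam rn rt))) U V d) fun om =>
  frc (phf (psub (sl fam ln lt) (sl fam lt ln))) fun G =>
  frc (psT X) fun p => frc (qsT X) fun q =>
  band (sgnT X R A p q om d (Nat.shiftRight h 2) (padd E G))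
    (sgnT X R A p q om d (Nat.shiftRight h 6) (psub E G))

/-- the test after the choice of the segment -/
noncomputable def tgtKS (P : Cp) (T : Tp) (G1 G2 GT : Gn)
    (h R A X C1 C2 Y1 Yn Yt z1 zn Z gK gL : ℕ) : Bool :=
  frc (padd (sg P.t1 (phn P.h1)) (pmn R z1)) fun Xm =>
  frc (padd (sg P.tn (phn P.hn)) (pmn R zn)) fun Xn =>
  frc (padd (bmT T.sa T.ah Y1) (gmT T.th Xm)) fun Y0 =>
  frc (padd Xn (psub (bmT T.sa T.ah Xm) (gmT T.th (p34 Y1)))) fun Xb =>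
  frc (phf (padd (psub (pmn Xm Yn) (pmn Xn Y1)) pone)) fun g => band (ppos g)
  (frc (pinv g) fun ig =>
  frc (sg (T.ns P.fam) (pscale 1 3 (pmn Xb ig))) fun D =>
  frc (sg (T.ns P.fam) (pscale 1 6 (pmn (padd (pmn Xm Xb) (p34 (pmn Y1 (padd Yn Y0)))) ig)))
    fun E =>
  frc (th P.fam Y1 Y0) fun Yt0 =>
  frc (sg T.un (pinv (padd Z (GT.xV Yt)))) fun iz =>
  frc (sg P.tn (G2.kD Yn Y0 D X)) fun rn =>
  frc (sg P.tn (G2.lD Yn Y0 D X)) fun ln =>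
  frc (sg P.tt (padd (GT.kD Yt Yt0 D X) (pmn gK iz))) fun rt =>
  frc (sg P.tt (padd (GT.lD Yt Yt0 D X) (pmn gL iz))) fun lt =>
  tgtFS P.cn P.fam h R A X (pmn R C1) (pmn R C2) D E (sg P.t1 (G1.kV Y1 X)) rn rt ln lt)

/-- **The test of a leaf next to the tight triangles.** -/
noncomputable def corGS (P : Cp) (T : Tp) (G1 G2 Ga Gb GT : Gn) (lo up : Bool) (h R A X : ℕ) :
    Bool :=
  frc (cdT1 P.cn A) fun C1 => frc (cdT2 P.cn A) fun C2 => frc (cdT3 P.cn A) fun C3 =>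
  frc (padd (pnc P.m1) (pmn R C1)) fun Y1 =>
  frc (padd (pnc P.mn) (pmn R (sl P.fam C2 C3))) fun Yn =>
  frc (padd (pnc P.mt) (pmn R (sl P.fam C3 C2))) fun Yt =>
  frc (sg P.t1 (pmn C1 (G1.xT Y1 (pnc P.m1)))) fun z1 =>
  frc (sg P.tn (pmn (sl P.fam C2 C3) (G2.xT Yn (pnc P.mn)))) fun zn =>
  frc (padd (phn P.ht) (pmn R (sg P.tt (th P.fam z1 zn)))) fun Z => band (ppos Z)
  (segU lo up Ga Gb Yt (pnc P.mt) X Z
    (tgtKS P T G1 G2 GT h R A X C1 C2 Y1 Yn Yt z1 zn Z))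

theorem tgtFS_sound {E : Pt} {c : Con} (hc : isSix c) {fam : Bool} {h R A X U V D EE R1 rn rt ln lt : ℕ}
    {ρ a x : ℝ} (B : CRng ρ a x) (hρ : 0 < ρ) (hR : Enc E R ρ) (hA : Enc E A a) (hX : Enc E X x)
    {ex u v w D' E' K1 K2 K3 K20 v0 N l1 l2 l3 xn xt yn yt : ℝ}
    (hU : Enc E U u) (hV : Enc E V v) (hD : Enc E D D') (hE : Enc E EE E') (hR1 : Enc E R1 K1)
    (hrn : Enc E rn xn) (hrt : Enc E rt xt) (hln : Enc E ln yn) (hlt : Enc E lt yt)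
    (hu : u = ρ * cd1 c a) (hv : v = ρ * cd2 c a) (hw : w = ρ * cd3 c a) (hN : 0 ≤ N)
    (he : ex = N * E') (hv0 : v = v0 + N * D') (h2 : K2 = K20 + N * cond fam xn xt)
    (h3 : K3 = K1 + K2 + N * (cond fam xt xn - cond fam xn xt)) (hid : v0 * K1 = u * K20)
    (hl : l1 + l2 - l3 = N * (cond fam yn yt - cond fam yt yn))
    (ht : tgtFS c fam h R A X U V D EE R1 rn rt ln lt = true) :
    ∃ g, 0 ≤ slc c (levF ex l1 l2 l3) (ken x) x u v w K1 K2 K3 g := by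
  unfold tgtFS at ht
  simp only [frc_eq] at ht
  obtain ⟨t1, t2⟩ := band_true ht
  have hp : Enc E (psT X) (esn x / x) := enc_psT hX B.x0 B.x1
  have hq : Enc E (qsT X) (esn x / (1 - x)) := enc_qsT hX B.x0 B.x1
  have hd := enc_sub (enc_sl fam hrt hrn) (enc_sl fam hrn hrt)
  have hom := enc_omxT c (enc_sub (enc_mn hD hR1) (enc_mn hU (enc_sl fam hrn hrt))) hU hV hd
  have hG := enc_half (enc_sub (enc_sl fam hln hlt) (enc_sl fam hlt hln))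
  refine tgt_rowF hc hρ B.ρx B.ρx' B.x0 B.a0 B.a1 (ken_nonneg B.x0.le B.x1.le)
    (ken_p B.x0 B.x1) (ken_q B.x0 B.x1) hu hv hw hN he hv0 h2 h3 hid
    (G := (cond fam yn yt - cond fam yt yn) / 2) (by rw [hl]; ring)
    (sgnT_tst hX hR hA hp hq hom hd (enc_add hE hG) t1)
    (sgnT_tst hX hR hA hp hq hom hd (enc_sub hE hG) t2)

theorem corGS_sound {E : Pt} {P : Cp} (hP : P.Ok) {T : Tp} (hT : T.Ok P.fam) {N0 : ℕ} {c0 : ℝ}
    {G1 G2 Ga Gb GT : Gn} {lo up : Bool} {h R A X : ℕ} {ρ a x : ℝ} (B : CRng ρ a x) (hρ : 0 < ρ)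
    (hR : Enc E R ρ) (hA : Enc E A a) (hX : Enc E X x)
    (h1 : G1.At P.m1 ((P.h1 : ℝ) / 2) c0 x) (h2 : G2.At P.mn ((P.hn : ℝ) / 2) c0 x)
    (ha : lo = true → Ga.At P.mt ((P.ht : ℝ) / 2) c0 x)
    (hb : up = true → Gb.At P.mt ((P.ht : ℝ) / 2) c0 x) (hGT : GT = cond T.un Ga Gb)
    (H : TgH P T G1 G2 GT ρ a x)
    (ht : corGS P T G1 G2 Ga Gb GT lo up h R A X = true) :
    P.Stm G1 G2 Ga Gb ρ a x true N0 lo up := by
  unfold corGS at ht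
  simp only [frc_eq] at ht
  obtain ⟨tz, ht⟩ := band_true ht
  have C1 := enc_cdT1 P.cn hA
  have C2 := enc_cdT2 P.cn hA
  have C3 := enc_cdT3 P.cn hA
  have Cn : Enc E (sl P.fam (cdT2 P.cn A) (cdT3 P.cn A)) (cond P.fam (cd2 P.cn a) (cd3 P.cn a)) :=
    enc_sl _ C2 C3
  have Ct : Enc E (sl P.fam (cdT3 P.cn A) (cdT2 P.cn A)) (cond P.fam (cd3 P.cn a) (cd2 P.cn a)) :=
    enc_sl _ C3 C2
  have Y1 : Enc E (padd (pnc P.m1) (pmn R (cdT1 P.cn A))) (P.y1 ρ a) :=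
    enc_add (enc_pnc E _) (enc_mn hR C1)
  have Yn : Enc E (padd (pnc P.mn) (pmn R (sl P.fam (cdT2 P.cn A) (cdT3 P.cn A)))) (P.yn ρ a) :=
    enc_add (enc_pnc E _) (enc_mn hR Cn)
  have Yt : Enc E (padd (pnc P.mt) (pmn R (sl P.fam (cdT3 P.cn A) (cdT2 P.cn A)))) (P.yt ρ a) :=
    enc_add (enc_pnc E _) (enc_mn hR Ct)
  have yte := Cp.yt_eq hP ρ a
  obtain ⟨cn, hcn⟩ : ∃ z, z = cond P.fam (cd2 P.cn a) (cd3 P.cn a) := ⟨_, rfl⟩
  rw [← hcn] at Cn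
  have d1 : P.y1 ρ a - P.m1 = ρ * cd1 P.cn a := by unfold Cp.y1; ring
  have dn : P.yn ρ a - P.mn = ρ * cn := by unfold Cp.yn; rw [hcn]; ring
  obtain ⟨⟨x1, x11, x12⟩, -, -⟩ := G1.slopes Y1 (enc_pnc E P.m1) hX
  obtain ⟨⟨xn, xn1, xn2⟩, -, -⟩ := G2.slopes Yn (enc_pnc E P.mn) hX
  rw [d1] at x12
  rw [dn] at xn2
  have z1 := enc_sg P.t1 (enc_mn C1 x11)
  have zn := enc_sg P.tn (enc_mn Cn xn1)
  obtain ⟨Z1, hZ1⟩ : ∃ z, z = sgr P.t1 (cd1 P.cn a * x1) := ⟨_, rfl⟩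
  obtain ⟨Zn, hZn⟩ : ∃ z, z = sgr P.tn (cn * xn) := ⟨_, rfl⟩
  rw [← hZ1] at z1
  rw [← hZn] at zn
  have az := enc_sg P.tt (enc_th P.fam z1 zn)
  have hX1 : P.X1 G1 ρ a = P.b1 + ρ * Z1 := by
    unfold Cp.X1 Cp.b1
    rw [hZ1, ← sgr_mul, ← sgr_add]
    congr 1
    have := h1.X
    linarith
  have hXn : P.Xn G2 ρ a = P.bn + ρ * Zn := by
    unfold Cp.Xn Cp.bn
    rw [hZn, ← sgr_mul, ← sgr_add]
    congr 1
    have := h2.X
    linarith
  have hXt : P.Xt G1 G2 ρ a = P.bt + ρ * cond P.fam (Z1 + Zn) (Zn - Z1) := by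
    unfold Cp.Xt
    rw [hX1, hXn]
    have := hP.b
    cases hf : P.fam
    · rw [hf] at this
      simp only [cond_false] at this ⊢
      linear_combination -this
    · rw [hf] at this
      simp only [cond_true] at this ⊢
      linear_combination this
  have hZ : P.Z G1 G2 ρ a = (P.ht : ℝ) / 2 + ρ * sgr P.tt (cond P.fam (Z1 + Zn) (Zn - Z1)) := by
    unfold Cp.Z
    rw [hXt, sgr_add, sgr_mul]
    unfold Cp.bt
    rw [sgr_sgr]
  have eZ := enc_add (enc_phn E P.ht) (enc_mn hR az)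
  rw [← hZ] at eZ
  have zpos := ppos_sound eZ tz
  refine ⟨zpos, ?_⟩
  right; right
  have hs := segU_sound (B := (P.ht : ℝ) / 2) (c0 := c0) Yt (enc_pnc E P.mt) hX eZ ha hb ht
  refine ⟨hs.1, hs.2.1, fun i1 i2 T' TL hT' hTL => ?_⟩
  obtain ⟨gK, gL, GK, GM, e1, e2, hk, fa, fb, ga, gb⟩ := hs.2.2 i1 i2 T' TL hT' hTL
  unfold tgtKS at hk
  simp only [frc_eq] at hk
  obtain ⟨tg, hk⟩ := band_true hk
  have eXm : Enc E (padd (sg P.t1 (phn P.h1)) (pmn R (sg P.t1 (pmn (cdT1 P.cn A)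
      (G1.xT (padd (pnc P.m1) (pmn R (cdT1 P.cn A))) (pnc P.m1)))))) (P.X1 G1 ρ a) := by
    rw [hX1]
    exact enc_add (enc_sg P.t1 (enc_phn E P.h1)) (enc_mn hR z1)
  have eXn : Enc E (padd (sg P.tn (phn P.hn)) (pmn R (sg P.tn
      (pmn (sl P.fam (cdT2 P.cn A) (cdT3 P.cn A)) (G2.xT (padd (pnc P.mn)
        (pmn R (sl P.fam (cdT2 P.cn A) (cdT3 P.cn A)))) (pnc P.mn)))))) (P.Xn G2 ρ a) := by
    rw [hXn]
    exact enc_add (enc_sg P.tn (enc_phn E P.hn)) (enc_mn hR zn)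
  -- the geometry
  obtain ⟨Xm, hXm⟩ : ∃ z, z = P.X1 G1 ρ a := ⟨_, rfl⟩
  obtain ⟨Xv, hXv⟩ : ∃ z, z = P.Xn G2 ρ a := ⟨_, rfl⟩
  obtain ⟨ym, hym⟩ : ∃ z, z = P.y1 ρ a := ⟨_, rfl⟩
  obtain ⟨yv, hyv⟩ : ∃ z, z = P.yn ρ a := ⟨_, rfl⟩
  obtain ⟨Y0, hY0⟩ : ∃ z, z = T.α * ym + T.γ * Xm := ⟨_, rfl⟩
  obtain ⟨X0, hX0⟩ : ∃ z, z = T.α * Xm - T.γ * (3 / 4 * ym) := ⟨_, rfl⟩
  obtain ⟨g, hg⟩ : ∃ z, z = (Xm * yv - Xv * ym + 1) / 2 := ⟨_, rfl⟩
  obtain ⟨N, hN⟩ : ∃ z, z = sgr T.un (P.Z G1 G2 ρ a ^ 2 + 3 / 4 * P.yt ρ a ^ 2 - T.rU) := ⟨_, rfl⟩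
  rw [← hXm] at eXm
  rw [← hXv] at eXn
  rw [← hym] at Y1
  rw [← hyv] at Yn
  have eY0 := enc_add (enc_bmT T.sa T.ah Y1) (enc_gmT T eXm)
  have eg := enc_half (enc_add (enc_sub (enc_mn eXm Yn) (enc_mn eXn Y1)) (enc_one E))
  have eX0 := enc_sub (enc_bmT T.sa T.ah eXm) (enc_gmT T (enc_p34 Y1))
  have g0 := ppos_sound eg tg
  rw [show sgr T.sa ((T.ah : ℝ) / 2) = T.α from rfl] at eY0 eX0
  rw [← hY0] at eY0
  rw [← hX0] at eX0
  rw [← hg] at eg g0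
  have qm : Xm ^ 2 + 3 / 4 * ym ^ 2 = T.rm := by
    rw [hXm, hym]
    unfold Cp.X1
    rw [sgr_sq]
    exact H.qm
  have qn : Xv ^ 2 + 3 / 4 * yv ^ 2 = T.rn := by
    rw [hXv, hyv]
    unfold Cp.Xn
    rw [sgr_sq]
    exact H.qn
  have hz2 : P.Z G1 G2 ρ a ^ 2 = (cond P.fam (Xm + Xv) (Xv - Xm)) ^ 2 := by
    unfold Cp.Z
    rw [sgr_sq, hXm, hXv]
    rfl
  rw [← hym, ← hyv] at yte
  obtain ⟨gD, gE⟩ := tgt_geo hT qm qn hX0 hY0 hz2 yte hN hg g0.ne'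
  have eig := enc_inv eg
  have eXb := enc_add eXn eX0
  have eD : Enc E _ (sgr (T.ns P.fam) (1 / 3 * ((Xv + X0) * g⁻¹))) :=
    enc_sg (T.ns P.fam) (enc_cast (enc_scale 1 3 (enc_mn eXb eig))
      (show ((1 : ℕ) : ℝ) / (3 : ℕ) * ((Xv + X0) * g⁻¹) = 1 / 3 * ((Xv + X0) * g⁻¹) by
        push_cast; ring))
  have eE : Enc E _ (sgr (T.ns P.fam)
      (1 / 6 * ((Xm * (Xv + X0) + 3 / 4 * (ym * (yv + Y0))) * g⁻¹))) :=
    enc_sg (T.ns P.fam) (enc_cast (enc_scale 1 6 (enc_mn (enc_add (enc_mn eXm eXb)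
      (enc_p34 (enc_mn Y1 (enc_add Yn eY0)))) eig))
      (show ((1 : ℕ) : ℝ) / (6 : ℕ) * ((Xm * (Xv + X0) + 3 / 4 * (ym * (yv + Y0))) * g⁻¹) =
        1 / 6 * ((Xm * (Xv + X0) + 3 / 4 * (ym * (yv + Y0))) * g⁻¹) by push_cast; ring))
  obtain ⟨D, hD⟩ : ∃ z, z = sgr (T.ns P.fam) (1 / 3 * ((Xv + X0) * g⁻¹)) := ⟨_, rfl⟩
  obtain ⟨E', hE'⟩ : ∃ z, z = sgr (T.ns P.fam)
    (1 / 6 * ((Xm * (Xv + X0) + 3 / 4 * (ym * (yv + Y0))) * g⁻¹)) := ⟨_, rfl⟩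
  rw [← hD] at eD gD
  rw [← hE'] at eE gE
  -- the third side
  have eYt0 := enc_th P.fam Y1 eY0
  obtain ⟨yt, hyt⟩ : ∃ z, z = P.yt ρ a := ⟨_, rfl⟩
  obtain ⟨Z, hZZ⟩ : ∃ z, z = P.Z G1 G2 ρ a := ⟨_, rfl⟩
  obtain ⟨Yt0, hYt0⟩ : ∃ z, z = cond P.fam (ym + Y0) (Y0 - ym) := ⟨_, rfl⟩
  rw [← hYt0] at eYt0
  rw [← hyt] at Yt yte hN i1 i2 fa fb ga gb
  rw [← hZZ] at eZ zpos hN i1 i2 fa fb ga gb
  have dYt : yt - Yt0 = N * D := by
    rw [yte, hYt0]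
    cases P.fam
    · simp only [cond_false]
      linarith
    · simp only [cond_true]
      linarith
  have HY0 : T.Y0 P G1 ρ a = Y0 := by rw [hY0, hXm, hym]; rfl
  have HYt : T.Yt P G1 ρ a = Yt0 := by
    unfold Tp.Yt
    rw [HY0, hYt0, hym]
  have Hqt := H.qt
  have Hpos := H.pos
  have Hid1 := H.id1
  have Hidk := H.idk
  have Hidl := H.idl
  rw [← hyt] at Hqt Hpos
  rw [HY0, ← hym] at Hid1 Hidk Hidl
  rw [HYt] at Hidk Hidl
  obtain ⟨zdiff, N0'⟩ := tgt_z Hqt Hpos zpos hN (by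
    cases hu : T.un
    · rw [hu] at hGT
      simp only [cond_false] at hGT
      rw [hGT]
      exact i2
    · rw [hu] at hGT
      simp only [cond_true] at hGT
      rw [hGT]
      exact i1)
  have fT : T' = GT.kv yt x + gK * (Z - GT.xv yt) := by
    rw [hGT]
    cases T.un
    · exact fb
    · exact fa
  have gT : TL = GT.lv yt x + gL * (Z - GT.xv yt) := by
    rw [hGT]
    cases T.un
    · exact gb
    · exact ga
  obtain ⟨⟨kn, kn1, kn2⟩, ⟨ln, ln1, ln2⟩⟩ := G2.dslopes Yn eY0 eD hX gD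
  obtain ⟨⟨kt, kt1, kt2⟩, ⟨lt, lt1, lt2⟩⟩ := GT.dslopes Yt eYt0 eD hX dYt
  have exT : Enc E (GT.xV (padd (pnc P.mt) (pmn R (sl P.fam (cdT3 P.cn A) (cdT2 P.cn A)))))
      (GT.xv yt) := GT.nd.X.enc (enc_cA _ Yt)
  have eiz := enc_sg T.un (enc_inv (enc_add eZ exT))
  have eR1 : Enc E (sg P.t1 (G1.kV (padd (pnc P.m1) (pmn R (cdT1 P.cn A))) X))
      (sgr P.t1 (G1.kv ym x)) := enc_sg P.t1 (G1.nd.K.enc (enc_cA _ Y1) hX)
  obtain ⟨iz, hiz⟩ : ∃ z, z = sgr T.un (Z + GT.xv yt)⁻¹ := ⟨_, rfl⟩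
  rw [← hiz] at eiz zdiff
  have ert := enc_sg P.tt (enc_add kt1 (enc_mn e1 eiz))
  have elt := enc_sg P.tt (enc_add lt1 (enc_mn e2 eiz))
  have vn : sgr P.tn (G2.kv yv x) = sgr P.tn (G2.kv Y0 x) + N * sgr P.tn kn := by
    rw [← sgr_mul, ← sgr_add]
    congr 1
    linarith
  have wn : sgr P.tn (G2.lv yv x) = sgr P.tn (G2.lv Y0 x) + N * sgr P.tn ln := by
    rw [← sgr_mul, ← sgr_add]
    congr 1
    linarith
  have vt : sgr P.tt T' = sgr P.tt (GT.kv Yt0 x) + N * sgr P.tt (kt + gK * iz) := by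
    rw [← sgr_mul, ← sgr_add, fT, zdiff]
    congr 1
    linear_combination kt2
  have wt : sgr P.tt TL = sgr P.tt (GT.lv Yt0 x) + N * sgr P.tt (lt + gL * iz) := by
    rw [← sgr_mul, ← sgr_add, gT, zdiff]
    congr 1
    linear_combination lt2
  -- the conclusion
  unfold Cp.Concl
  unfold levR
  simp only [cond_true]
  have hu : ρ * cd1 P.cn a = ym - P.m1 := by rw [hym, d1]
  have hmm := hP.m
  have exe : exn' (P.X1 G1 ρ a) (cond P.fam (P.Xt G1 G2 ρ a) (P.Xn G2 ρ a)) (P.y1 ρ a)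
      (P.y1 ρ a + cond P.fam (P.yn ρ a) (P.yt ρ a)) = N * E' := by
    rw [← gE]
    unfold exn' Cp.Xt
    rw [← hXm, ← hXv, ← hym, ← hyv, ← hyt, yte]
    cases P.fam
    · simp only [cond_false]
      ring
    · simp only [cond_true]
      ring
  rw [exe]
  rw [← hym, ← hyv]
  obtain ⟨v0, hv0⟩ : ∃ v0, v0 = ρ * cd2 P.cn a - N * D := ⟨_, rfl⟩
  have hv : cond P.fam (yv - P.mn) (yt - P.mt) = ρ * cd2 P.cn a := by
    rw [hyv, hyt]
    unfold Cp.yn Cp.yt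
    cases P.fam
    · simp only [cond_false]
      ring
    · simp only [cond_true]
      ring
  have vv : ρ * cd2 P.cn a = v0 + N * D := by rw [hv0]; ring
  have U1 := enc_mn hR C1
  have V1 := enc_mn hR C2
  have ern := enc_sg P.tn kn1
  have eln := enc_sg P.tn ln1
  refine tgtFS_sound hP.six (fam := P.fam) (K20 := cond P.fam (sgr P.tn (G2.kv Y0 x))
    (sgr P.tt (GT.kv Yt0 x))) (v0 := v0) B hρ hR hA hX U1 V1 eD eE eR1 ern ert eln elt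
    rfl rfl rfl N0' rfl vv ?_ ?_ ?_ ?_ hk
  · cases hf : P.fam
    · simp only [cond_false]
      exact vt
    · simp only [cond_true]
      exact vn
  · cases hf : P.fam
    · rw [hf] at Hidk
      simp only [cond_false] at Hidk ⊢
      rw [vt, vn, Hidk]
      ring
    · rw [hf] at Hidk
      simp only [cond_true] at Hidk ⊢
      rw [vt, vn, Hidk]
      ring
  · rw [hv0, ← hv, hu]
    cases hf : P.fam
    · rw [hf] at Hidk hYt0 hmm
      simp only [cond_false] at Hidk hYt0 hmm ⊢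
      rw [Hidk]
      have e : yt - N * D = Y0 - ym := by rw [← dYt, hYt0]; ring
      linear_combination Hid1 + sgr P.t1 (G1.kv ym x) * e - sgr P.t1 (G1.kv ym x) * hmm
    · simp only [cond_true]
      have e : yv - N * D = Y0 := by rw [← gD]; ring
      linear_combination Hid1 + sgr P.t1 (G1.kv ym x) * e
  · cases hf : P.fam
    · rw [hf] at Hidl
      simp only [cond_false] at Hidl ⊢
      rw [wt, wn, Hidl]
      ring
    · rw [hf] at Hidl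
      simp only [cond_true] at Hidl ⊢
      rw [wt, wn, Hidl]
      ring

/-- the test of a leaf, next to a tight triangle or not -/
noncomputable def corXS (N0 : ℕ) (C0 : Fn1) (P : Cp) (T : Tp) (G1 G2 Ga Gb GT : Gn)
    (lo up : Bool) (h R A X : ℕ) : Bool :=
  Bool.rec (motive := fun _ => Bool) (corTS true N0 C0 P G1 G2 Ga Gb lo up h R A X)
    (corGS P T G1 G2 Ga Gb GT lo up h R A X) (Nat.beq (Nat.land h 3) 3)

end Pool.Agent.Strip051.PB
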