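import Pool.Agent.Strip051.PB.CornA
import Pool.Agent.Strip051.PB.CornSm

/-! # Charts at the aligned corners with leaves that are closed by other alternatives -/

namespace Pool.Agent.Strip051.PB

attribute [local irreducible] padd psub pneg pmul psq pinv psqrt psqrtg pabs pps pmax pmin pphi plam
  pcase phf pnat prat pscale pnorm pdc pnc pone ppos pnn Enc pbad pzero

open Pool.Agent.StripNear Pool.Agent.StripSquare Pool.Agent.Strip051.Sweep
open Pool.Agent.Strip051.LC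

/-! ### The test -/

/-- The heights satisfy one of the lists of conditions. -/
def InK (L : List (List Cc)) (x y y' : ℝ) : Prop := ∃ l ∈ L, ∀ c ∈ l, ∀ X Y, c.P x y y' X Y

/-- all conditions of a list hold and are conditions on the heights -/
noncomputable def skAll (l : List Cc) (x y z : ℕ) : Bool :=
  List.rec (motive := fun _ => Bool) true
    (fun c _ ih => band (band (Nat.ble c.k 2) (c.t x y z 0 0)) ih) l

/-- the list with the number `i` -/
noncomputable def skNth (L : List (List Cc)) (i x y z : ℕ) : Bool :=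
  List.rec (motive := fun _ => ℕ → Bool) (fun _ => false)
    (fun l _ ih i => Nat.rec (motive := fun _ => Bool) (skAll l x y z) (fun i _ => ih i) i) L i

theorem Cc.t_height {E : Pt} {c : Cc} {X Y Z : ℕ} {x y z : ℝ} (hx : Enc E X x) (hy : Enc E Y y)
    (hz : Enc E Z z) (h2 : c.k ≤ 2) (h : c.t X Y Z 0 0 = true) (u v : ℝ) : c.P x y z u v := by
  unfold Cc.t at h
  unfold Cc.P
  match hk : c.k with
  | 0 => rw [hk] at h; exact Cc.tY_sound hx hy h
  | 1 => rw [hk] at h; exact Cc.tY_sound hx hz h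
  | 2 => rw [hk] at h; exact Cc.tY_sound hx (enc_add hy hz) h
  | n + 3 => omega

theorem skAll_sound {E : Pt} {X Y Z : ℕ} {x y z : ℝ} (hx : Enc E X x) (hy : Enc E Y y)
    (hz : Enc E Z z) (l : List Cc) (h : skAll l X Y Z = true) :
    ∀ c ∈ l, ∀ u v, c.P x y z u v := by
  induction l with
  | nil => intro c hc; exact absurd hc List.not_mem_nil
  | cons d l ih =>
    obtain ⟨h1, h2⟩ := band_true (show band (band (Nat.ble d.k 2) (d.t X Y Z 0 0))
      (skAll l X Y Z) = true from h)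
    obtain ⟨h0, h1⟩ := band_true h1
    intro c hc
    rcases List.mem_cons.1 hc with rfl | hc
    · exact Cc.t_height hx hy hz (Nat.le_of_ble_eq_true h0) h1
    · exact ih h2 c hc

theorem skNth_sound {E : Pt} {X Y Z : ℕ} {x y z : ℝ} (hx : Enc E X x) (hy : Enc E Y y)
    (hz : Enc E Z z) (L : List (List Cc)) : ∀ i, skNth L i X Y Z = true → InK L x y z := by
  induction L with
  | nil => intro i h; exact absurd (show false = true from h) (by decide)
  | cons l L ih =>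
    intro i h
    cases i with
    | zero => exact ⟨l, List.mem_cons_self, skAll_sound hx hy hz l h⟩
    | succ i =>
      obtain ⟨m, hm, hm'⟩ := ih i h
      exact ⟨m, List.mem_cons_of_mem _ hm, hm'⟩

/-- the test of a leaf that is closed by the list `(h - 1024) / 2048` -/
noncomputable def skT (L : List (List Cc)) (P : Cp) (h R A X : ℕ) : Bool :=
  frc (padd (pnc P.m1) (pmn R (cdT1 P.cn A))) fun Y1 =>
  frc (padd (pnc (sl P.fam P.mn P.mt)) (pmn R (cdT2 P.cn A))) fun Y2 =>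
  skNth L (Nat.shiftRight h 11) X Y1 Y2

theorem sl_tr (a b : ℕ) : sl true a b = a := rfl

theorem sl_fa (a b : ℕ) : sl false a b = b := rfl

theorem pnc_sl (t : Bool) (a b : ℕ) : pnc (sl t a b) = sl t (pnc a) (pnc b) := by
  cases t
  · rw [sl_fa, sl_fa]
  · rw [sl_tr, sl_tr]

theorem skT_sound {E : Pt} {L : List (List Cc)} {P : Cp} {h R A X : ℕ} {ρ a x : ℝ}
    (hR : Enc E R ρ) (hA : Enc E A a) (hX : Enc E X x) (ht : skT L P h R A X = true) :
    InK L x (P.m1 + ρ * cd1 P.cn a) (cond P.fam (P.mn : ℝ) P.mt + ρ * cd2 P.cn a) := by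
  unfold skT at ht
  simp only [frc_eq] at ht
  have Y1 := enc_add (enc_pnc E P.m1) (enc_mn hR (enc_cdT1 P.cn hA))
  have Y2 := enc_add (enc_sl P.fam (enc_pnc E P.mn) (enc_pnc E P.mt))
    (enc_mn hR (enc_cdT2 P.cn hA))
  rw [pnc_sl] at ht
  exact skNth_sound hX Y1 Y2 L _ ht

/-- the test of a leaf with lists -/
noncomputable def corTK (L : List (List Cc)) (far : Bool) (N0 : ℕ) (C0 : Fn1) (P : Cp)
    (G1 G2 Ga Gb : Gn) (lo up : Bool) (h R A X : ℕ) : Bool :=
  Bool.rec (motive := fun _ => Bool) (corTS far N0 C0 P G1 G2 Ga Gb lo up h R A X)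
    (skT L P h R A X) (Nat.beq (Nat.land h 1024) 1024)

/-- the test of a leaf with lists, next to a tight triangle or not -/
noncomputable def corXK (L : List (List Cc)) (N0 : ℕ) (C0 : Fn1) (P : Cp) (T : Tp)
    (G1 G2 Ga Gb GT : Gn) (lo up : Bool) (h R A X : ℕ) : Bool :=
  Bool.rec (motive := fun _ => Bool) (corXS N0 C0 P T G1 G2 Ga Gb GT lo up h R A X)
    (skT L P h R A X) (Nat.beq (Nat.land h 1024) 1024)

theorem corTK_cert {L : List (List Cc)} {far : Bool} {N0 : ℕ} {C0 : Fn1} {P : Cp} (hP : P.Ok)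
    {G1 G2 Ga Gb : Gn} {lo up : Bool} {Wr Px Wx : ℕ} {ρ a x : ℝ} (B : CRng ρ a x) (hρ : 0 < ρ)
    (h1 : G1.At P.m1 ((P.h1 : ℝ) / 2) (C0.v x) x) (h2 : G2.At P.mn ((P.hn : ℝ) / 2) (C0.v x) x)
    (ha : lo = true → Ga.At P.mt ((P.ht : ℝ) / 2) (C0.v x) x)
    (hb : up = true → Gb.At P.mt ((P.ht : ℝ) / 2) (C0.v x) x)
    (hr : ρ ≤ (Wr : ℝ) / S) (hx : (Px : ℝ) / S ≤ x) (hx' : x ≤ ((Px : ℝ) + Wx) / S)
    (ht : ∃ t, chk3 (onCell 0 Wr 0 1073741824 Px Wx
      (corTK L far N0 C0 P G1 G2 Ga Gb lo up)) t 1 1 1 = true) :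
    InK L x (P.m1 + ρ * cd1 P.cn a) (cond P.fam (P.mn : ℝ) P.mt + ρ * cd2 P.cn a) ∨
    P.Stm G1 G2 Ga Gb ρ a x far N0 lo up := by
  have key := onCell_sound (Q := fun r b z => CRng r b z → 0 < r →
    G1.At P.m1 ((P.h1 : ℝ) / 2) (C0.v z) z → G2.At P.mn ((P.hn : ℝ) / 2) (C0.v z) z →
    (lo = true → Ga.At P.mt ((P.ht : ℝ) / 2) (C0.v z) z) →
    (up = true → Gb.At P.mt ((P.ht : ℝ) / 2) (C0.v z) z) →
    (InK L z (P.m1 + r * cd1 P.cn b) (cond P.fam (P.mn : ℝ) P.mt + r * cd2 P.cn b) ∨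
    P.Stm G1 G2 Ga Gb r b z far N0 lo up)) (f := corTK L far N0 C0 P G1 G2 Ga Gb lo up)
    (fun hR hA hX ht B hρ h1 h2 ha hb => by
      unfold corTK at ht
      rcases brec ht with ht | ht
      · exact Or.inr (corTS_sound hP B hρ hR hA hX h1 h2 ha hb ht)
      · exact Or.inl (skT_sound hR hA hX ht)) ht
    (p := ρ) (q := a) (x := x) (by simpa using B.ρ0) (by simpa using hr) (by simpa using B.a0)
    (by
      have : ((0 : ℕ) : ℝ) + ((1073741824 : ℕ) : ℝ) = (S : ℝ) := by unfold S; push_cast; ring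
      rw [this, div_self (by exact_mod_cast hS.ne')]
      exact B.a1) hx hx'
  exact key B hρ h1 h2 ha hb

theorem corXK_cert {L : List (List Cc)} {N0 : ℕ} {C0 : Fn1} {P : Cp} (hP : P.Ok) {T : Tp}
    (hT : T.Ok P.fam)
    {G1 G2 Ga Gb GT : Gn} {lo up : Bool} {Wr Px Wx : ℕ} {ρ a x : ℝ} (B : CRng ρ a x) (hρ : 0 < ρ)
    (h1 : G1.At P.m1 ((P.h1 : ℝ) / 2) (C0.v x) x) (h2 : G2.At P.mn ((P.hn : ℝ) / 2) (C0.v x) x)
    (ha : lo = true → Ga.At P.mt ((P.ht : ℝ) / 2) (C0.v x) x)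
    (hb : up = true → Gb.At P.mt ((P.ht : ℝ) / 2) (C0.v x) x) (hGT : GT = cond T.un Ga Gb)
    (H : TgH P T G1 G2 GT ρ a x)
    (hr : ρ ≤ (Wr : ℝ) / S) (hx : (Px : ℝ) / S ≤ x) (hx' : x ≤ ((Px : ℝ) + Wx) / S)
    (ht : ∃ t, chk3 (onCell 0 Wr 0 1073741824 Px Wx
      (corXK L N0 C0 P T G1 G2 Ga Gb GT lo up)) t 1 1 1 = true) :
    InK L x (P.m1 + ρ * cd1 P.cn a) (cond P.fam (P.mn : ℝ) P.mt + ρ * cd2 P.cn a) ∨
    P.Stm G1 G2 Ga Gb ρ a x true N0 lo up := by
  have key := onCell_sound (Q := fun r b z => CRng r b z → 0 < r →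
    G1.At P.m1 ((P.h1 : ℝ) / 2) (C0.v z) z → G2.At P.mn ((P.hn : ℝ) / 2) (C0.v z) z →
    (lo = true → Ga.At P.mt ((P.ht : ℝ) / 2) (C0.v z) z) →
    (up = true → Gb.At P.mt ((P.ht : ℝ) / 2) (C0.v z) z) → TgH P T G1 G2 GT r b z →
    (InK L z (P.m1 + r * cd1 P.cn b) (cond P.fam (P.mn : ℝ) P.mt + r * cd2 P.cn b) ∨
    P.Stm G1 G2 Ga Gb r b z true N0 lo up)) (f := corXK L N0 C0 P T G1 G2 Ga Gb GT lo up)
    (fun hR hA hX ht B hρ h1 h2 ha hb H => by
      unfold corXK at ht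
      rcases brec ht with ht | ht
      · unfold corXS at ht
        rcases brec ht with ht | ht
        · exact Or.inr (corTS_sound hP B hρ hR hA hX h1 h2 ha hb ht)
        · exact Or.inr (corGS_sound hP hT B hρ hR hA hX h1 h2 ha hb hGT H ht)
      · exact Or.inl (skT_sound hR hA hX ht)) ht
    (p := ρ) (q := a) (x := x) (by simpa using B.ρ0) (by simpa using hr) (by simpa using B.a0)
    (by
      have : ((0 : ℕ) : ℝ) + ((1073741824 : ℕ) : ℝ) = (S : ℝ) := by unfold S; push_cast; ring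
      rw [this, div_self (by exact_mod_cast hS.ne')]
      exact B.a1) hx hx'
  exact key B hρ h1 h2 ha hb H

variable {n : ℕ} {P : Pos n} {RK RL : Fin (n + 1) → ℕ → ℝ → ℝ → ℝ}
  {Gt : Fin (n + 1) → ℕ → Gn} {pc : ℕ → Piece} {x : ℝ}

/-- one certificate for each segment -/
theorem allK_of {far : Bool} {N0 : ℕ} {C : Cp} {G1 G2 : Gn}
    {qt lo hi : ℕ} {ρ a : ℝ} {I : Prop}
    (h : ∀ i : Fin n, lo ≤ i.val + 1 → i.val ≤ hi → I ∨
      C.Stm G1 G2 (Gt i.castSucc qt) (Gt i.succ qt) ρ a x far N0 (decide (lo ≤ i.val))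
        (decide (i.val + 1 ≤ hi))) : I ∨ AllS Gt far N0 C G1 G2 qt lo hi ρ a x := by
  by_cases hI : I
  · exact Or.inl hI
  · exact Or.inr fun i h1 h2 => (h i h1 h2).resolve_left hI

/-! ### The neighbourhood of a corner -/

/-- The certified data of a corner for a subfamily; the points of the lists `K` need no certificate. -/
structure CornK (P : Pos n) (RK RL : Fin (n + 1) → ℕ → ℝ → ℝ → ℝ)
    (pc : ℕ → Piece) (Gt : Fin (n + 1) → ℕ → Gn) (far : Bool) (N0 : ℕ) (C0 : Fn1) (C : Cp)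
    (qa qb qc : ℕ) (j k : Fin (n + 1)) (lo hi : ℕ) (δ x : ℝ) (K : List (List Cc)) :
    Prop where
  ok : C.Ok
  con : con qa qb qc = some C.cn
  qa2 : qa ≤ 2
  qb2 : qb ≤ 2
  qc2 : qc ≤ 2
  m1 : (C.m1 : ℝ) = jq qa
  m2 : cond C.fam (C.mn : ℝ) C.mt = jq qb
  m3 : cond C.fam (C.mt : ℝ) C.mn = jq qc
  side : SideOk P RK RL pc x
  gn : GnOk P RK RL Gt x
  x0 : 0 < x
  x1 : x < 1
  δx : δ ≤ x
  δx' : x ≤ 1 - δ
  δ8 : δ ≤ 1 / 8
  lh : lo ≤ hi
  hn : hi ≤ n
  at1 : (Gt j qa).At C.m1 ((C.h1 : ℝ) / 2) (C0.v x) x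
  at2 : (Gt k (cond C.fam qb qc)).At C.mn ((C.hn : ℝ) / 2) (C0.v x) x
  att : (Gt ⟨lo, by omega⟩ (cond C.fam qc qb)).At C.mt ((C.ht : ℝ) / 2) (C0.v x) x
  stm : ∀ ρ a, CRng ρ a x → 0 < ρ → ρ ≤ δ →
    InK K x (C.m1 + ρ * cd1 C.cn a) (cond C.fam (C.mn : ℝ) C.mt + ρ * cd2 C.cn a) ∨
    AllS Gt far N0 C (Gt j qa) (Gt k (cond C.fam qb qc)) (cond C.fam qc qb) lo hi ρ a x


/-- the certified data from the parts -/
theorem cornK_of {far : Bool} {N0 : ℕ} {C0 : Fn1} {C : Cp} {qa qb qc : ℕ} {j k : Fin (n + 1)}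
    {lo hi W : ℕ} (K : List (List Cc))
    (Q : CpQ C qa qb qc) (side : SideOk P RK RL pc x) (gn : GnOk P RK RL Gt x)
    (X : XR W x) (lh : lo ≤ hi) (hn : hi ≤ n) {l : Fin (n + 1)} (hl : l.val = lo)
    (at1 : (Gt j qa).At C.m1 ((C.h1 : ℝ) / 2) (C0.v x) x)
    (at2 : (Gt k (cond C.fam qb qc)).At C.mn ((C.hn : ℝ) / 2) (C0.v x) x)
    (att : (Gt l (cond C.fam qc qb)).At C.mt ((C.ht : ℝ) / 2) (C0.v x) x)
    (stm : ∀ ρ a, CRng ρ a x → 0 < ρ → ρ ≤ (W : ℝ) / S → ∀ i : Fin n, lo ≤ i.val + 1 →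
      i.val ≤ hi →
      InK K x (C.m1 + ρ * cd1 C.cn a) (cond C.fam (C.mn : ℝ) C.mt + ρ * cd2 C.cn a) ∨
      C.Stm (Gt j qa) (Gt k (cond C.fam qb qc)) (Gt i.castSucc (cond C.fam qc qb))
        (Gt i.succ (cond C.fam qc qb)) ρ a x far N0 (decide (lo ≤ i.val))
        (decide (i.val + 1 ≤ hi))) :
    CornK P RK RL pc Gt far N0 C0 C qa qb qc j k lo hi ((W : ℝ) / 1073741824) x K where
  ok := Q.ok
  con := Q.con
  qa2 := Q.qa2
  qb2 := Q.qb2
  qc2 := Q.qc2
  m1 := Q.m1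
  m2 := Q.m2
  m3 := Q.m3
  side := side
  gn := gn
  x0 := lt_of_lt_of_le X.p0 X.a
  x1 := by linarith [X.b, X.p0]
  δx := X.a
  δx' := X.b
  δ8 := by
    have : (W : ℝ) ≤ 134217728 := by exact_mod_cast X.c
    rw [div_le_iff₀ (by norm_num)]
    linarith
  lh := lh
  hn := hn
  at1 := at1
  at2 := at2
  att := by
    have e : (⟨lo, by omega⟩ : Fin (n + 1)) = l := Fin.ext hl.symm
    rw [e]
    exact att
  stm := fun ρ a B h0 h1 => allK_of (stm ρ a B h0 (by
    have e : (S : ℝ) = 1073741824 := by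
      unfold S
      push_cast
      ring
    rw [e]
    exact h1))

section

variable {far : Bool} {N0 : ℕ} {C0 : Fn1} {C : Cp} {qa qb qc : ℕ} {j k : Fin (n + 1)}
  {lo hi : ℕ} {δ : ℝ} {K : List (List Cc)}

theorem CornK.pt (H : CornK P RK RL pc Gt far N0 C0 C qa qb qc j k lo hi δ x K) {y y' : ℝ}
    (nk : ¬ InK K x y y')
    (q1 : InQ qa y) (q2 : InQ qb y') (q3 : InQ qc (y + y'))
    (o1 : OnC j qa y) (o2 : OnC k (cond C.fam qb qc) (cond C.fam y' (y + y')))
    (len1 : 1 ≤ qqn (cond C.fam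
      (sgr C.t1 (crv P j qa y) + sgr C.tn (crv P k (cond C.fam qb qc) (cond C.fam y' (y + y'))))
      (sgr C.tn (crv P k (cond C.fam qb qc) (cond C.fam y' (y + y'))) - sgr C.t1 (crv P j qa y)))
      (cond C.fam (y + y') y'))
    (len3 : qqn (cond C.fam
      (sgr C.t1 (crv P j qa y) + sgr C.tn (crv P k (cond C.fam qb qc) (cond C.fam y' (y + y'))))
      (sgr C.tn (crv P k (cond C.fam qb qc) (cond C.fam y' (y + y'))) - sgr C.t1 (crv P j qa y)))
      (cond C.fam (y + y') y') ≤ 3)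
    (d1 : |y - jq qa| ≤ δ) (d2 : |y' - jq qb| ≤ δ) (d3 : |y + y' - jq qc| ≤ δ) :
    ∀ X1 Xn Xt KT LT : ℝ, X1 = sgr C.t1 (crv P j qa y) →
      Xn = sgr C.tn (crv P k (cond C.fam qb qc) (cond C.fam y' (y + y'))) →
      Xt = cond C.fam (X1 + Xn) (Xn - X1) →
      KT = thd P RK (cond C.fam qc qb) Xt (cond C.fam (y + y') y') x →
      LT = thd P RL (cond C.fam qc qb) Xt (cond C.fam (y + y') y') x →
      ∃ g, 0 ≤ slc C.cn (levR far N0 x y y' (exn' X1 (cond C.fam Xt Xn) y (y + y'))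
        (sgr C.t1 (RL j qa y x))
        (cond C.fam (sgr C.tn (RL k (cond C.fam qb qc) (cond C.fam y' (y + y')) x)) LT)
        (cond C.fam LT (sgr C.tn (RL k (cond C.fam qb qc) (cond C.fam y' (y + y')) x))))
        (ken x) x (y - jq qa) (y' - jq qb) (y + y' - jq qc)
        (sgr C.t1 (RK j qa y x))
        (cond C.fam (sgr C.tn (RK k (cond C.fam qb qc) (cond C.fam y' (y + y')) x)) KT)
        (cond C.fam KT (sgr C.tn (RK k (cond C.fam qb qc) (cond C.fam y' (y + y')) x)))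
        g := by
  intro X1 Xn Xt KT LT hX1 hXn hXt hKT hLT
  rw [← hXn, ← hX1, ← hXt] at len1 len3
  have six := H.ok.six
  have hadd : (jq qa : ℝ) + jq qb = jq qc := by
    have := H.ok.m
    rw [← H.m1, ← H.m2, ← H.m3]
    cases hf : C.fam <;> rw [hf] at this <;> exact this
  obtain ⟨ρ, a, ρ0, a0, a1, e1, e2, er⟩ := Con.polar six (con_sgs H.con q1 q2 q3)
  have e3 : y + y' - jq qc = ρ * cd3 C.cn a := by
    rw [← cd_add six, mul_add, ← e1, ← e2, ← hadd]
    ring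
  have hρδ : ρ ≤ δ := by
    rcases er with er | er | er
    · rw [er]; exact d1
    · rw [er]; exact d2
    · rw [er, show y - jq qa + (y' - jq qb) = y + y' - jq qc by rw [← hadd]; ring]; exact d3
  have R : CRng ρ a x := ⟨ρ0, hρδ.trans H.δx, by linarith [H.δx'], H.x0, H.x1, a0, a1⟩
  -- the names of the sides
  obtain ⟨qn, hqn⟩ : ∃ z, z = cond C.fam qb qc := ⟨_, rfl⟩
  obtain ⟨qt, hqt⟩ : ∃ z, z = cond C.fam qc qb := ⟨_, rfl⟩
  obtain ⟨yn, hyn⟩ : ∃ z, z = cond C.fam y' (y + y') := ⟨_, rfl⟩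
  obtain ⟨yt, hyt⟩ : ∃ z, z = cond C.fam (y + y') y' := ⟨_, rfl⟩
  have at2 := H.at2
  have att := H.att
  have stm := H.stm
  rw [← hqn] at at2 stm o2 hXn
  rw [← hqt] at att stm hKT hLT
  rw [← hyn] at o2 hXn
  rw [← hyt] at hKT hLT len1 len3
  rw [← hqn, ← hyn]
  have qn2 : qn ≤ 2 := by
    rw [hqn]
    cases C.fam
    · exact H.qc2
    · exact H.qb2
  have qt2 : qt ≤ 2 := by
    rw [hqt]
    cases C.fam
    · exact H.qb2
    · exact H.qc2
  have qty : InQ qt yt := by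
    rw [hqt, hyt]
    cases C.fam
    · exact q2
    · exact q3
  have dyt : |yt - C.mt| ≤ δ := by
    have h2 := H.m2
    have h3 := H.m3
    rw [hyt]
    cases hf : C.fam
    · rw [hf] at h2
      simp only [cond_false] at h2 ⊢
      rw [h2]
      exact d2
    · rw [hf] at h3
      simp only [cond_true] at h3 ⊢
      rw [h3]
      exact d3
  have hmt : (C.mt : ℝ) ≤ 1 := by
    have h2 := H.m2
    have h3 := H.m3
    have k1 : (jq qb : ℝ) ≤ 1 := by
      have := H.qb2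
      interval_cases qb <;> norm_num [jq]
    have k2 : (jq qc : ℝ) ≤ 1 := by
      have := H.qc2
      interval_cases qc <;> norm_num [jq]
    cases hf : C.fam
    · rw [hf] at h2
      simp only [cond_false] at h2
      linarith
    · rw [hf] at h3
      simp only [cond_true] at h3
      linarith
  have ont : ∀ i : Fin (n + 1), OnC i qt yt := fun i => ⟨qty, fun _ => by
    have hp := h0_pos
    have hh := h0_sq
    have h1 := (abs_le.1 dyt).2
    have h2 := H.δ8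
    have : yt ≤ 9 / 8 := by linarith
    nlinarith⟩
  have pK := H.side.pinK
  have pL := H.side.pinL
  have d1' : |y - jq qa| ≤ 1 / 8 := d1.trans H.δ8
  have dn' : |yn - jq qn| ≤ 1 / 8 := by
    rw [hyn, hqn]
    cases C.fam
    · exact d3.trans H.δ8
    · exact d2.trans H.δ8
  have dt' : |yt - jq qt| ≤ 1 / 8 := by
    rw [hyt, hqt]
    cases C.fam
    · exact d2.trans H.δ8
    · exact d3.trans H.δ8
  have g1x := H.gn.xv H.qa2 o1 d1'
  have g2x := H.gn.xv qn2 o2 dn'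
  have g1k := H.gn.kv H.qa2 o1 d1'
  have g2k := H.gn.kv qn2 o2 dn'
  have g1l := H.gn.lv H.qa2 o1 d1'
  have g2l := H.gn.lv qn2 o2 dn'
  have gtx := fun i => H.gn.xv qt2 (ont i) dt'
  have gtk := fun i => H.gn.kv qt2 (ont i) dt'
  have gtl := fun i => H.gn.lv qt2 (ont i) dt'
  rcases ρ0.eq_or_lt with h0 | h0
  · -- exactly aligned heights
    rw [← h0, zero_mul] at e1 e2 e3
    have ny : y = C.m1 := by rw [H.m1]; linarith
    have nyn : yn = C.mn := by
      have h2 := H.m2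
      have h3 := H.m3
      rw [hyn]
      cases hf : C.fam
      · rw [hf] at h3
        simp only [cond_false] at h3 ⊢
        linarith
      · rw [hf] at h2
        simp only [cond_true] at h2 ⊢
        linarith
    have nyt : yt = C.mt := by
      have h2 := H.m2
      have h3 := H.m3
      rw [hyt]
      cases hf : C.fam
      · rw [hf] at h2
        simp only [cond_false] at h2 ⊢
        linarith
      · rw [hf] at h3
        simp only [cond_true] at h3 ⊢
        linarith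
    have at1 := H.at1
    rw [← ny] at at1
    rw [← nyn] at at2
    rw [← nyt] at att
    rw [e1, e2, e3, ← g1k, ← g2k, ← g1l, ← g2l, at1.K, at2.K, at1.L, at2.L]
    have vX1 : X1 = C.b1 := by rw [hX1, ← g1x, at1.X]; rfl
    have vXn : Xn = C.bn := by rw [hXn, ← g2x, at2.X]; rfl
    have vXt : Xt = C.bt := by
      rw [hXt, vX1, vXn]
      have := H.ok.b
      cases hf : C.fam
      · rw [hf] at this
        simp only [cond_false] at this ⊢
        linarith
      · rw [hf] at this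
        exact this
    have st : sgr C.tt Xt = crv P ⟨lo, by have := H.lh; have := H.hn; omega⟩ qt yt := by
      rw [vXt, ← gtx, att.X]
      unfold Cp.bt
      rw [sgr_sgr]
    have hKT' : sgr C.tt KT = C0.v x * ((C.ht : ℝ) / 2) := by
      rw [hKT, third_at pK qty len1 len3 C.tt _ st, ← gtk, att.K]
    have hLT' : sgr C.tt LT = 0 := by
      rw [hLT, third_at pL qty len1 len3 C.tt _ st, ← gtl, att.L]
    have vK : KT = C0.v x * C.bt := by
      unfold Cp.bt
      rw [← sgr_mul, ← hKT', sgr_sgr]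
    have vL : LT = 0 := by
      have := congrArg (sgr C.tt) hLT'
      rw [sgr_sgr] at this
      rw [this]
      cases C.tt
      · show -(0 : ℝ) = 0
        ring
      · rfl
    have z0 : ∀ t : Bool, sgr t (0 : ℝ) = 0 := fun t => by
      cases t
      · show -(0 : ℝ) = 0
        ring
      · rfl
    have ve : exn' X1 (cond C.fam Xt Xn) y (y + y') = 0 := by
      have h1 := H.ok.det
      have h2 := H.ok.m3
      have h3 := H.m3
      have h4 : y + y' = 1 := by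
        rw [h2] at h3
        linarith
      unfold exn'
      rw [vXt, vXn, vX1, h4, ny]
      linarith
    rw [vL, z0, z0, ve]
    have c0 : cond C.fam (0 : ℝ) 0 = 0 := by cases C.fam <;> rfl
    rw [c0, levR_zero]
    have b := H.ok.b
    refine cone_zero six H.x0 H.x1.le (ken_nonneg H.x0.le H.x1.le) le_rfl ?_
    rw [vK, sgr_mul, sgr_mul]
    show C0.v x * C.b1 + cond C.fam (C0.v x * C.bn) (C0.v x * C.bt) =
      cond C.fam (C0.v x * C.bt) (C0.v x * C.bn)
    cases hf : C.fam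
    · rw [hf] at b
      simp only [cond_false] at b ⊢
      rw [← b]
      ring
    · rw [hf] at b
      simp only [cond_true] at b ⊢
      rw [← b]
      ring
  · have k1 : y = C.y1 ρ a := by
      unfold Cp.y1
      rw [H.m1, ← e1]
      ring
    have kn : yn = C.yn ρ a := by
      have h2 := H.m2
      have h3 := H.m3
      unfold Cp.yn
      rw [hyn]
      cases hf : C.fam
      · rw [hf] at h3
        simp only [cond_false] at h3 ⊢
        rw [h3, ← e3]
        ring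
      · rw [hf] at h2
        simp only [cond_true] at h2 ⊢
        rw [h2, ← e2]
        ring
    have kt : yt = C.yt ρ a := by
      have h2 := H.m2
      have h3 := H.m3
      unfold Cp.yt
      rw [hyt]
      cases hf : C.fam
      · rw [hf] at h2
        simp only [cond_false] at h2 ⊢
        rw [h2, ← e2]
        ring
      · rw [hf] at h3
        simp only [cond_true] at h3 ⊢
        rw [h3, ← e3]
        ring
    have v1 : X1 = C.X1 (Gt j qa) ρ a := by
      unfold Cp.X1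
      rw [hX1, ← k1, g1x]
    have vn : Xn = C.Xn (Gt k qn) ρ a := by
      unfold Cp.Xn
      rw [hXn, ← kn, g2x]
    have vt : Xt = C.Xt (Gt j qa) (Gt k qn) ρ a := by
      unfold Cp.Xt
      rw [← v1, ← vn]
      exact hXt
    have nk' : ¬ InK K x (C.m1 + ρ * cd1 C.cn a) (cond C.fam (C.mn : ℝ) C.mt + ρ * cd2 C.cn a) := by
      rw [H.m1, H.m2, ← e1, ← e2]
      have f1 : jq qa + (y - jq qa) = y := by ring
      have f2 : jq qb + (y' - jq qb) = y' := by ring
      rw [f1, f2]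
      exact nk
    have key := ((stm ρ a R h0 hρδ).resolve_left nk').concl H.lh H.hn qty kt vt len1 len3 pK pL
      gtx gtk gtl
    unfold Cp.Concl at key
    rw [← k1, ← kn, ← kt, ← v1, ← vn, ← vt, g1k, g2k, g1l, g2l, sgr_sgr, sgr_sgr, ← hKT, ← hLT]
      at key
    have w2 : cond C.fam yn yt = y' := by
      rw [hyn, hyt]
      cases C.fam <;> rfl
    rw [w2, ← e1, ← e2, ← e3] at key
    exact key

/-- **Family `A`** near a corner. -/
theorem CornK.famA (H : CornK P RK RL pc Gt far N0 C0 C qa qb qc j k lo hi δ x K)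
    (hf : C.fam = true) {y y' : ℝ} (F : FactsA P qa qb qc j k (sgb C.t1) (sgb C.tn) y y')
    (nk : ¬ InK K x y y') (d1 : |y - jq qa| ≤ δ) (d2 : |y' - jq qb| ≤ δ) (d3 : |y + y' - jq qc| ≤ δ) :
    ∃ g, 0 ≤ slt C.cn qa qb qc (levR far N0 x y y' (exA P qa qb j k (sgb C.t1) (sgb C.tn) y y')
      (vlA P RL (fun q => (pc q).L.v) qa qb qc j k (sgb C.t1) (sgb C.tn) x y y').1
      (vlA P RL (fun q => (pc q).L.v) qa qb qc j k (sgb C.t1) (sgb C.tn) x y y').2.1
      (vlA P RL (fun q => (pc q).L.v) qa qb qc j k (sgb C.t1) (sgb C.tn) x y y').2.2)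
      (ken x) x y y'
      (vlA P RK (fun q => (pc q).K.v) qa qb qc j k (sgb C.t1) (sgb C.tn) x y y') g := by
  have key := H.pt nk F.q1 F.q2 F.q3 F.on1
  rw [hf] at key
  simp only [cond_true, sgr_eq] at key
  have k := key F.on2 F.len1 F.len3 d1 d2 d3 _ _ _ _ _ rfl rfl rfl rfl rfl
  rw [H.side.thK _ _ _ F.q3 F.len1 F.len3, H.side.thL _ _ _ F.q3 F.len1 F.len3] at k
  exact k

/-- **Family `B`** near a corner. -/
theorem CornK.famB (H : CornK P RK RL pc Gt far N0 C0 C qa qb qc j k lo hi δ x K)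
    (hf : C.fam = false) {y y' : ℝ} (F : FactsB P qa qb qc j k (sgb C.t1) (sgb C.tn) y y')
    (nk : ¬ InK K x y y') (d1 : |y - jq qa| ≤ δ) (d2 : |y' - jq qb| ≤ δ) (d3 : |y + y' - jq qc| ≤ δ) :
    ∃ g, 0 ≤ slt C.cn qa qb qc (levR far N0 x y y' (exB P qa qc j k (sgb C.t1) (sgb C.tn) y y')
      (vlB P RL (fun q => (pc q).L.v) qa qb qc j k (sgb C.t1) (sgb C.tn) x y y').1
      (vlB P RL (fun q => (pc q).L.v) qa qb qc j k (sgb C.t1) (sgb C.tn) x y y').2.1
      (vlB P RL (fun q => (pc q).L.v) qa qb qc j k (sgb C.t1) (sgb C.tn) x y y').2.2)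
      (ken x) x y y'
      (vlB P RK (fun q => (pc q).K.v) qa qb qc j k (sgb C.t1) (sgb C.tn) x y y') g := by
  have key := H.pt nk F.q1 F.q2 F.q3 F.on1
  rw [hf] at key
  simp only [cond_false, sgr_eq] at key
  have k := key F.on3 F.len1 F.len3 d1 d2 d3 _ _ _ _ _ rfl rfl rfl rfl rfl
  rw [H.side.thK _ _ _ F.q2 F.len1 F.len3, H.side.thL _ _ _ F.q2 F.len1 F.len3] at k
  exact k

/-! ### The four statements -/

variable {κ : ℝ} {d : ℕ}

theorem CornK.VF_A (H : CornK P RK RL pc Gt true N0 C0 C qa qb qc j k lo hi δ x K)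
    (hf : C.fam = true) (hκ : κ * h0 = ken x) (hd : (d : ℝ) / 1073741824 ≤ δ) {y y' : ℝ}
    (F : FactsA P qa qb qc j k (sgb C.t1) (sgb C.tn) y y')
    (nk : ¬ InK K x y y') {X Y : ℝ} (hc : ∀ c ∈ cube C d, c.P x y y' X Y) :
    VF κ x y y' (exA P qa qb j k (sgb C.t1) (sgb C.tn) y y')
      (vlA P RL (fun q => (pc q).L.v) qa qb qc j k (sgb C.t1) (sgb C.tn) x y y')
      (vlA P RK (fun q => (pc q).K.v) qa qb qc j k (sgb C.t1) (sgb C.tn) x y y') := by
  obtain ⟨k1, k2, k3⟩ := cube_P hc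
  rw [H.m1] at k1
  rw [H.m2] at k2
  rw [H.m3] at k3
  refine F.ngv H.con ?_
  rw [hκ]
  exact H.famA hf F nk (by linarith) (by linarith) (by linarith)

theorem CornK.VF_B (H : CornK P RK RL pc Gt true N0 C0 C qa qb qc j k lo hi δ x K)
    (hf : C.fam = false) (hκ : κ * h0 = ken x) (hd : (d : ℝ) / 1073741824 ≤ δ) {y y' : ℝ}
    (F : FactsB P qa qb qc j k (sgb C.t1) (sgb C.tn) y y')
    (nk : ¬ InK K x y y') {X Y : ℝ} (hc : ∀ c ∈ cube C d, c.P x y y' X Y) :
    VF κ x y y' (exB P qa qc j k (sgb C.t1) (sgb C.tn) y y')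
      (vlB P RL (fun q => (pc q).L.v) qa qb qc j k (sgb C.t1) (sgb C.tn) x y y')
      (vlB P RK (fun q => (pc q).K.v) qa qb qc j k (sgb C.t1) (sgb C.tn) x y y') := by
  obtain ⟨k1, k2, k3⟩ := cube_P hc
  rw [H.m1] at k1
  rw [H.m2] at k2
  rw [H.m3] at k3
  refine F.ngv H.con ?_
  rw [hκ]
  exact H.famB hf F nk (by linarith) (by linarith) (by linarith)

theorem CornK.VN_A (H : CornK P RK RL pc Gt false N0 C0 C qa qb qc j k lo hi δ x K)
    (hf : C.fam = true) (hκ : κ * h0 = ken x) (hd : (d : ℝ) / 1073741824 ≤ δ) {y y' : ℝ}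
    (F : FactsA P qa qb qc j k (sgb C.t1) (sgb C.tn) y y')
    (nk : ¬ InK K x y y') {X Y : ℝ} (hc : ∀ c ∈ cube C d, c.P x y y' X Y) :
    VN N0 κ x y y' (exA P qa qb j k (sgb C.t1) (sgb C.tn) y y')
      (vlA P RL (fun q => (pc q).L.v) qa qb qc j k (sgb C.t1) (sgb C.tn) x y y')
      (vlA P RK (fun q => (pc q).K.v) qa qb qc j k (sgb C.t1) (sgb C.tn) x y y') := by
  obtain ⟨k1, k2, k3⟩ := cube_P hc
  rw [H.m1] at k1
  rw [H.m2] at k2
  rw [H.m3] at k3
  refine F.ngv H.con ?_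
  rw [hκ]
  exact H.famA hf F nk (by linarith) (by linarith) (by linarith)

theorem CornK.VN_B (H : CornK P RK RL pc Gt false N0 C0 C qa qb qc j k lo hi δ x K)
    (hf : C.fam = false) (hκ : κ * h0 = ken x) (hd : (d : ℝ) / 1073741824 ≤ δ) {y y' : ℝ}
    (F : FactsB P qa qb qc j k (sgb C.t1) (sgb C.tn) y y')
    (nk : ¬ InK K x y y') {X Y : ℝ} (hc : ∀ c ∈ cube C d, c.P x y y' X Y) :
    VN N0 κ x y y' (exB P qa qc j k (sgb C.t1) (sgb C.tn) y y')
      (vlB P RL (fun q => (pc q).L.v) qa qb qc j k (sgb C.t1) (sgb C.tn) x y y')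
      (vlB P RK (fun q => (pc q).K.v) qa qb qc j k (sgb C.t1) (sgb C.tn) x y y') := by
  obtain ⟨k1, k2, k3⟩ := cube_P hc
  rw [H.m1] at k1
  rw [H.m2] at k2
  rw [H.m3] at k3
  refine F.ngv H.con ?_
  rw [hκ]
  exact H.famB hf F nk (by linarith) (by linarith) (by linarith)

/-! ### The alternatives -/

theorem CornK.altFA (H : CornK P RK RL pc Gt true N0 C0 C qa qb qc j k lo hi δ x K)
    (hf : C.fam = true) (hκ : κ * h0 = ken x) (hd : (d : ℝ) / 1073741824 ≤ δ)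
    (hK : ∀ l ∈ K, AltA (VF κ) P RK RL pc l qa qb qc j k (sgb C.t1) (sgb C.tn) x) :
    AltA (VF κ) P RK RL pc (cube C d) qa qb qc j k (sgb C.t1) (sgb C.tn) x := by
  intro y y' F hc
  by_cases nk : InK K x y y'
  · obtain ⟨l, hl, hl'⟩ := nk
    exact hK l hl _ _ F fun c h => hl' c h _ _
  · exact H.VF_A hf hκ hd F nk hc

theorem CornK.altFB (H : CornK P RK RL pc Gt true N0 C0 C qa qb qc j k lo hi δ x K)
    (hf : C.fam = false) (hκ : κ * h0 = ken x) (hd : (d : ℝ) / 1073741824 ≤ δ)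
    (hK : ∀ l ∈ K, AltB (VF κ) P RK RL pc l qa qb qc j k (sgb C.t1) (sgb C.tn) x) :
    AltB (VF κ) P RK RL pc (cube C d) qa qb qc j k (sgb C.t1) (sgb C.tn) x := by
  intro y y' F hc
  by_cases nk : InK K x y y'
  · obtain ⟨l, hl, hl'⟩ := nk
    exact hK l hl _ _ F fun c h => hl' c h _ _
  · exact H.VF_B hf hκ hd F nk hc

theorem CornK.altNA (H : CornK P RK RL pc Gt false N0 C0 C qa qb qc j k lo hi δ x K)
    (hf : C.fam = true) (hκ : κ * h0 = ken x) (hd : (d : ℝ) / 1073741824 ≤ δ)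
    (hK : ∀ l ∈ K, AltA (VN N0 κ) P RK RL pc l qa qb qc j k (sgb C.t1) (sgb C.tn) x) :
    AltA (VN N0 κ) P RK RL pc (cube C d) qa qb qc j k (sgb C.t1) (sgb C.tn) x := by
  intro y y' F hc
  by_cases nk : InK K x y y'
  · obtain ⟨l, hl, hl'⟩ := nk
    exact hK l hl _ _ F fun c h => hl' c h _ _
  · exact H.VN_A hf hκ hd F nk hc

theorem CornK.altNB (H : CornK P RK RL pc Gt false N0 C0 C qa qb qc j k lo hi δ x K)
    (hf : C.fam = false) (hκ : κ * h0 = ken x) (hd : (d : ℝ) / 1073741824 ≤ δ)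
    (hK : ∀ l ∈ K, AltB (VN N0 κ) P RK RL pc l qa qb qc j k (sgb C.t1) (sgb C.tn) x) :
    AltB (VN N0 κ) P RK RL pc (cube C d) qa qb qc j k (sgb C.t1) (sgb C.tn) x := by
  intro y y' F hc
  by_cases nk : InK K x y y'
  · obtain ⟨l, hl, hl'⟩ := nk
    exact hK l hl _ _ F fun c h => hl' c h _ _
  · exact H.VN_B hf hκ hd F nk hc

end

end Pool.Agent.Strip051.PB
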