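import Pool.Agent.Strip051.PB.TgtP

/-! # Aligned corners: the constants of all corners and of the tight triangles (generated) -/

set_option linter.all false

namespace Pool.Agent.Strip051.PB

attribute [local irreducible] padd psub pneg pmul psq pinv psqrt psqrtg pabs pps pmax pmin pphi plam
  pcase phf pnat prat pscale pnorm pdc pnc pone ppos pnn Enc pbad pzero

def cA011E : Cp := ⟨true, true, false, true, 2, 1, 1, 0, 1, 1, .pnn⟩
theorem cA011E_ok : cA011E.Ok := by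
  constructor <;> first | exact trivial | (simp only [cA011E, Cp.b1, Cp.bn, Cp.bt, sgr, cond_true, cond_false]; norm_num)
def cA011L : Cp := ⟨true, true, true, true, 2, 1, 3, 0, 1, 1, .pnn⟩
theorem cA011L_ok : cA011L.Ok := by
  constructor <;> first | exact trivial | (simp only [cA011L, Cp.b1, Cp.bn, Cp.bt, sgr, cond_true, cond_false]; norm_num)
def cA011R : Cp := ⟨true, true, false, false, 2, 3, 1, 0, 1, 1, .pnn⟩
theorem cA011R_ok : cA011R.Ok := by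
  constructor <;> first | exact trivial | (simp only [cA011R, Cp.b1, Cp.bn, Cp.bt, sgr, cond_true, cond_false]; norm_num)
def cA012E : Cp := ⟨true, true, false, true, 2, 1, 1, 0, 1, 1, .pnp⟩
theorem cA012E_ok : cA012E.Ok := by
  constructor <;> first | exact trivial | (simp only [cA012E, Cp.b1, Cp.bn, Cp.bt, sgr, cond_true, cond_false]; norm_num)
def cA012L : Cp := ⟨true, true, true, true, 2, 1, 3, 0, 1, 1, .pnp⟩
theorem cA012L_ok : cA012L.Ok := by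
  constructor <;> first | exact trivial | (simp only [cA012L, Cp.b1, Cp.bn, Cp.bt, sgr, cond_true, cond_false]; norm_num)
def cA012R : Cp := ⟨true, true, false, false, 2, 3, 1, 0, 1, 1, .pnp⟩
theorem cA012R_ok : cA012R.Ok := by
  constructor <;> first | exact trivial | (simp only [cA012R, Cp.b1, Cp.bn, Cp.bt, sgr, cond_true, cond_false]; norm_num)
def cA022E : Cp := ⟨true, true, false, true, 2, 1, 1, 0, 1, 1, .pp⟩
theorem cA022E_ok : cA022E.Ok := by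
  constructor <;> first | exact trivial | (simp only [cA022E, Cp.b1, Cp.bn, Cp.bt, sgr, cond_true, cond_false]; norm_num)
def cA022L : Cp := ⟨true, true, true, true, 2, 1, 3, 0, 1, 1, .pp⟩
theorem cA022L_ok : cA022L.Ok := by
  constructor <;> first | exact trivial | (simp only [cA022L, Cp.b1, Cp.bn, Cp.bt, sgr, cond_true, cond_false]; norm_num)
def cA022R : Cp := ⟨true, true, false, false, 2, 3, 1, 0, 1, 1, .pp⟩
theorem cA022R_ok : cA022R.Ok := by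
  constructor <;> first | exact trivial | (simp only [cA022R, Cp.b1, Cp.bn, Cp.bt, sgr, cond_true, cond_false]; norm_num)
def cA101E : Cp := ⟨true, true, false, false, 1, 2, 1, 1, 0, 1, .npn⟩
theorem cA101E_ok : cA101E.Ok := by
  constructor <;> first | exact trivial | (simp only [cA101E, Cp.b1, Cp.bn, Cp.bt, sgr, cond_true, cond_false]; norm_num)
def cA101L : Cp := ⟨true, true, false, true, 3, 2, 1, 1, 0, 1, .npn⟩
theorem cA101L_ok : cA101L.Ok := by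
  constructor <;> first | exact trivial | (simp only [cA101L, Cp.b1, Cp.bn, Cp.bt, sgr, cond_true, cond_false]; norm_num)
def cA101R : Cp := ⟨true, false, false, false, 1, 2, 3, 1, 0, 1, .npn⟩
theorem cA101R_ok : cA101R.Ok := by
  constructor <;> first | exact trivial | (simp only [cA101R, Cp.b1, Cp.bn, Cp.bt, sgr, cond_true, cond_false]; norm_num)
def cA102E : Cp := ⟨true, true, false, false, 1, 2, 1, 1, 0, 1, .npp⟩
theorem cA102E_ok : cA102E.Ok := by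
  constructor <;> first | exact trivial | (simp only [cA102E, Cp.b1, Cp.bn, Cp.bt, sgr, cond_true, cond_false]; norm_num)
def cA102L : Cp := ⟨true, true, false, true, 3, 2, 1, 1, 0, 1, .npp⟩
theorem cA102L_ok : cA102L.Ok := by
  constructor <;> first | exact trivial | (simp only [cA102L, Cp.b1, Cp.bn, Cp.bt, sgr, cond_true, cond_false]; norm_num)
def cA102R : Cp := ⟨true, false, false, false, 1, 2, 3, 1, 0, 1, .npp⟩
theorem cA102R_ok : cA102R.Ok := by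
  constructor <;> first | exact trivial | (simp only [cA102R, Cp.b1, Cp.bn, Cp.bt, sgr, cond_true, cond_false]; norm_num)
def cA202E : Cp := ⟨true, true, false, false, 1, 2, 1, 1, 0, 1, .pp⟩
theorem cA202E_ok : cA202E.Ok := by
  constructor <;> first | exact trivial | (simp only [cA202E, Cp.b1, Cp.bn, Cp.bt, sgr, cond_true, cond_false]; norm_num)
def cA202L : Cp := ⟨true, true, false, true, 3, 2, 1, 1, 0, 1, .pp⟩
theorem cA202L_ok : cA202L.Ok := by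
  constructor <;> first | exact trivial | (simp only [cA202L, Cp.b1, Cp.bn, Cp.bt, sgr, cond_true, cond_false]; norm_num)
def cA202R : Cp := ⟨true, false, false, false, 1, 2, 3, 1, 0, 1, .pp⟩
theorem cA202R_ok : cA202R.Ok := by
  constructor <;> first | exact trivial | (simp only [cA202R, Cp.b1, Cp.bn, Cp.bt, sgr, cond_true, cond_false]; norm_num)
def cB011E : Cp := ⟨false, true, true, false, 2, 1, 1, 0, 1, 1, .pnn⟩
theorem cB011E_ok : cB011E.Ok := by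
  constructor <;> first | exact trivial | (simp only [cB011E, Cp.b1, Cp.bn, Cp.bt, sgr, cond_true, cond_false]; norm_num)
def cB011L : Cp := ⟨false, true, true, true, 2, 3, 1, 0, 1, 1, .pnn⟩
theorem cB011L_ok : cB011L.Ok := by
  constructor <;> first | exact trivial | (simp only [cB011L, Cp.b1, Cp.bn, Cp.bt, sgr, cond_true, cond_false]; norm_num)
def cB011R : Cp := ⟨false, true, false, false, 2, 1, 3, 0, 1, 1, .pnn⟩
theorem cB011R_ok : cB011R.Ok := by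
  constructor <;> first | exact trivial | (simp only [cB011R, Cp.b1, Cp.bn, Cp.bt, sgr, cond_true, cond_false]; norm_num)
def cB012E : Cp := ⟨false, true, true, false, 2, 1, 1, 0, 1, 1, .pnp⟩
theorem cB012E_ok : cB012E.Ok := by
  constructor <;> first | exact trivial | (simp only [cB012E, Cp.b1, Cp.bn, Cp.bt, sgr, cond_true, cond_false]; norm_num)
def cB012L : Cp := ⟨false, true, true, true, 2, 3, 1, 0, 1, 1, .pnp⟩
theorem cB012L_ok : cB012L.Ok := by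
  constructor <;> first | exact trivial | (simp only [cB012L, Cp.b1, Cp.bn, Cp.bt, sgr, cond_true, cond_false]; norm_num)
def cB012R : Cp := ⟨false, true, false, false, 2, 1, 3, 0, 1, 1, .pnp⟩
theorem cB012R_ok : cB012R.Ok := by
  constructor <;> first | exact trivial | (simp only [cB012R, Cp.b1, Cp.bn, Cp.bt, sgr, cond_true, cond_false]; norm_num)
def cB022E : Cp := ⟨false, true, true, false, 2, 1, 1, 0, 1, 1, .pp⟩
theorem cB022E_ok : cB022E.Ok := by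
  constructor <;> first | exact trivial | (simp only [cB022E, Cp.b1, Cp.bn, Cp.bt, sgr, cond_true, cond_false]; norm_num)
def cB022L : Cp := ⟨false, true, true, true, 2, 3, 1, 0, 1, 1, .pp⟩
theorem cB022L_ok : cB022L.Ok := by
  constructor <;> first | exact trivial | (simp only [cB022L, Cp.b1, Cp.bn, Cp.bt, sgr, cond_true, cond_false]; norm_num)
def cB022R : Cp := ⟨false, true, false, false, 2, 1, 3, 0, 1, 1, .pp⟩
theorem cB022R_ok : cB022R.Ok := by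
  constructor <;> first | exact trivial | (simp only [cB022R, Cp.b1, Cp.bn, Cp.bt, sgr, cond_true, cond_false]; norm_num)
def cB101E : Cp := ⟨false, true, false, false, 1, 1, 2, 1, 1, 0, .npn⟩
theorem cB101E_ok : cB101E.Ok := by
  constructor <;> first | exact trivial | (simp only [cB101E, Cp.b1, Cp.bn, Cp.bt, sgr, cond_true, cond_false]; norm_num)
def cB101L : Cp := ⟨false, true, true, false, 3, 1, 2, 1, 1, 0, .npn⟩
theorem cB101L_ok : cB101L.Ok := by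
  constructor <;> first | exact trivial | (simp only [cB101L, Cp.b1, Cp.bn, Cp.bt, sgr, cond_true, cond_false]; norm_num)
def cB101R : Cp := ⟨false, false, false, false, 1, 3, 2, 1, 1, 0, .npn⟩
theorem cB101R_ok : cB101R.Ok := by
  constructor <;> first | exact trivial | (simp only [cB101R, Cp.b1, Cp.bn, Cp.bt, sgr, cond_true, cond_false]; norm_num)
def cB102E : Cp := ⟨false, true, false, false, 1, 1, 2, 1, 1, 0, .npp⟩
theorem cB102E_ok : cB102E.Ok := by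
  constructor <;> first | exact trivial | (simp only [cB102E, Cp.b1, Cp.bn, Cp.bt, sgr, cond_true, cond_false]; norm_num)
def cB102L : Cp := ⟨false, true, true, false, 3, 1, 2, 1, 1, 0, .npp⟩
theorem cB102L_ok : cB102L.Ok := by
  constructor <;> first | exact trivial | (simp only [cB102L, Cp.b1, Cp.bn, Cp.bt, sgr, cond_true, cond_false]; norm_num)
def cB102R : Cp := ⟨false, false, false, false, 1, 3, 2, 1, 1, 0, .npp⟩
theorem cB102R_ok : cB102R.Ok := by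
  constructor <;> first | exact trivial | (simp only [cB102R, Cp.b1, Cp.bn, Cp.bt, sgr, cond_true, cond_false]; norm_num)
def cB202E : Cp := ⟨false, true, false, false, 1, 1, 2, 1, 1, 0, .pp⟩
theorem cB202E_ok : cB202E.Ok := by
  constructor <;> first | exact trivial | (simp only [cB202E, Cp.b1, Cp.bn, Cp.bt, sgr, cond_true, cond_false]; norm_num)
def cB202L : Cp := ⟨false, true, true, false, 3, 1, 2, 1, 1, 0, .pp⟩
theorem cB202L_ok : cB202L.Ok := by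
  constructor <;> first | exact trivial | (simp only [cB202L, Cp.b1, Cp.bn, Cp.bt, sgr, cond_true, cond_false]; norm_num)
def cB202R : Cp := ⟨false, false, false, false, 1, 3, 2, 1, 1, 0, .pp⟩
theorem cB202R_ok : cB202R.Ok := by
  constructor <;> first | exact trivial | (simp only [cB202R, Cp.b1, Cp.bn, Cp.bt, sgr, cond_true, cond_false]; norm_num)
def tA011R : Tp := ⟨false, 3, false, true, 1, 3⟩
theorem tA011R_ok : tA011R.Ok cA011R.fam := by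
  constructor <;> (simp only [tA011R, cA011R, Tp.α, Tp.γ, Tp.rU, sgr, cond_true, cond_false]; norm_num)
theorem tgh_A011R {G1 G2 GT : Gn} {ρ a x c0 : ℝ} {KC : ℝ → ℝ} {TX : ℝ → ℝ → ℝ}
    (hodd : ∀ z, KC (-z) = -KC z) (g1 : GP G1 false 0 KC TX x) (g2 : GP G2 true 1 KC TX x)
    (gt : GP GT false 1 KC TX x) (h1 : G1.At cA011R.m1 ((cA011R.h1 : ℝ) / 2) c0 x)
    (h2 : G2.At cA011R.mn ((cA011R.hn : ℝ) / 2) c0 x)
    (ht : GT.At cA011R.mt ((cA011R.ht : ℝ) / 2) c0 x) (B : CRng ρ a x) (hρ : ρ ≤ 1 / 16) :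
    TgH cA011R tA011R G1 G2 GT ρ a x := by
  have a0 := B.ρ0
  have a1 := mul_nonneg B.ρ0 B.a0
  have a2 : ρ * a ≤ ρ := by nlinarith [B.ρ0, B.a1]
  obtain ⟨y1, ey1⟩ : ∃ z, z = cA011R.y1 ρ a := ⟨_, rfl⟩
  obtain ⟨yn, eyn⟩ : ∃ z, z = cA011R.yn ρ a := ⟨_, rfl⟩
  obtain ⟨yt, eyt⟩ : ∃ z, z = cA011R.yt ρ a := ⟨_, rfl⟩
  have b1 : 0 ≤ y1 ∧ y1 ≤ 1 / 16 := by
    rw [ey1]
    constructor <;> (simp only [cA011R, tA011R, Cp.y1, Cp.yn, Cp.yt, cd1, cd2, cd3, jq, cond_true, cond_false]; push_cast; nlinarith)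
  have bn : 0 ≤ yn ∧ yn ≤ 9 / 8 := by
    rw [eyn]
    constructor <;> (simp only [cA011R, tA011R, Cp.y1, Cp.yn, Cp.yt, cd1, cd2, cd3, jq, cond_true, cond_false]; push_cast; nlinarith)
  have bt : 0 ≤ yt ∧ yt ≤ 9 / 8 := by
    rw [eyt]
    constructor <;> (simp only [cA011R, tA011R, Cp.y1, Cp.yn, Cp.yt, cd1, cd2, cd3, jq, cond_true, cond_false]; push_cast; nlinarith)
  have b1' : 0 ≤ y1 ∧ y1 ≤ 9 / 8 := ⟨by linarith [b1.1], by linarith [b1.2]⟩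
  obtain ⟨s1, p1⟩ := g1.sq b1'.1 b1'.2
  have hX : cA011R.X1 G1 ρ a = G1.xv y1 := by rw [ey1]; rfl
  refine TgH_of cA011R_ok hodd g1 g2 gt h1 h2 ht (by norm_num [tA011R, r2]) (by norm_num [tA011R, r2])
    (by norm_num [tA011R, Tp.rU, r2]) (by rw [← ey1]; exact b1') (by rw [← eyn]; exact bn)
    (by rw [← eyt]; exact bt) (by norm_num [cA011R, jq]) (by norm_num [cA011R, jq])
    (by norm_num [cA011R, jq]) (β := (-(3 / 2))) (by norm_num [cA011R, tA011R, Tp.α, sgr, cond_true, cond_false])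
    (by norm_num [cA011R, tA011R, Tp.α, Tp.γ, Cp.b1, sgr, cond_true, cond_false])
    (by
      have := cfg5
      simpa only [cA011R, tA011R, Tp.γ, cond_true, cond_false] using this) ?_
  intro hne
  rw [← ey1] at hne
  rw [hX, ← ey1]
  have hp : 0 < y1 := lt_of_le_of_ne b1.1 (fun h => hne (by rw [← h]; norm_num [cA011R]))
  refine ⟨⟨by linarith, by linarith⟩, pne0 hp b1.2 s1, ?_⟩
  have := tri5 hp b1.2 p1 s1
  simpa only [cA011R, tA011R, Tp.γ, cond_true, cond_false] using this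

def tA012E : Tp := ⟨false, 1, false, true, 1, 1⟩
theorem tA012E_ok : tA012E.Ok cA012E.fam := by
  constructor <;> (simp only [tA012E, cA012E, Tp.α, Tp.γ, Tp.rU, sgr, cond_true, cond_false]; norm_num)
theorem tgh_A012E {G1 G2 GT : Gn} {ρ a x c0 : ℝ} {KC : ℝ → ℝ} {TX : ℝ → ℝ → ℝ}
    (hodd : ∀ z, KC (-z) = -KC z) (g1 : GP G1 false 0 KC TX x) (g2 : GP G2 false 1 KC TX x)
    (gt : GP GT false 2 KC TX x) (h1 : G1.At cA012E.m1 ((cA012E.h1 : ℝ) / 2) c0 x)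
    (h2 : G2.At cA012E.mn ((cA012E.hn : ℝ) / 2) c0 x)
    (ht : GT.At cA012E.mt ((cA012E.ht : ℝ) / 2) c0 x) (B : CRng ρ a x) (hρ : ρ ≤ 1 / 16) :
    TgH cA012E tA012E G1 G2 GT ρ a x := by
  have a0 := B.ρ0
  have a1 := mul_nonneg B.ρ0 B.a0
  have a2 : ρ * a ≤ ρ := by nlinarith [B.ρ0, B.a1]
  obtain ⟨y1, ey1⟩ : ∃ z, z = cA012E.y1 ρ a := ⟨_, rfl⟩
  obtain ⟨yn, eyn⟩ : ∃ z, z = cA012E.yn ρ a := ⟨_, rfl⟩
  obtain ⟨yt, eyt⟩ : ∃ z, z = cA012E.yt ρ a := ⟨_, rfl⟩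
  have b1 : 0 ≤ y1 ∧ y1 ≤ 1 / 16 := by
    rw [ey1]
    constructor <;> (simp only [cA012E, tA012E, Cp.y1, Cp.yn, Cp.yt, cd1, cd2, cd3, jq, cond_true, cond_false]; push_cast; nlinarith)
  have bn : 0 ≤ yn ∧ yn ≤ 9 / 8 := by
    rw [eyn]
    constructor <;> (simp only [cA012E, tA012E, Cp.y1, Cp.yn, Cp.yt, cd1, cd2, cd3, jq, cond_true, cond_false]; push_cast; nlinarith)
  have bt : 0 ≤ yt ∧ yt ≤ 9 / 8 := by
    rw [eyt]
    constructor <;> (simp only [cA012E, tA012E, Cp.y1, Cp.yn, Cp.yt, cd1, cd2, cd3, jq, cond_true, cond_false]; push_cast; nlinarith)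
  have b1' : 0 ≤ y1 ∧ y1 ≤ 9 / 8 := ⟨by linarith [b1.1], by linarith [b1.2]⟩
  obtain ⟨s1, p1⟩ := g1.sq b1'.1 b1'.2
  have hX : cA012E.X1 G1 ρ a = G1.xv y1 := by rw [ey1]; rfl
  refine TgH_of cA012E_ok hodd g1 g2 gt h1 h2 ht (by norm_num [tA012E, r2]) (by norm_num [tA012E, r2])
    (by norm_num [tA012E, Tp.rU, r2]) (by rw [← ey1]; exact b1') (by rw [← eyn]; exact bn)
    (by rw [← eyt]; exact bt) (by norm_num [cA012E, jq]) (by norm_num [cA012E, jq])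
    (by norm_num [cA012E, jq]) (β := (-(1 / 2))) (by norm_num [cA012E, tA012E, Tp.α, sgr, cond_true, cond_false])
    (by norm_num [cA012E, tA012E, Tp.α, Tp.γ, Cp.b1, sgr, cond_true, cond_false])
    (by
      have := cfg1
      simpa only [cA012E, tA012E, Tp.γ, cond_true, cond_false] using this) ?_
  intro hne
  rw [← ey1] at hne
  rw [hX, ← ey1]
  have hp : 0 < y1 := lt_of_le_of_ne b1.1 (fun h => hne (by rw [← h]; norm_num [cA012E]))
  refine ⟨⟨by linarith, by linarith⟩, pne0 hp b1.2 s1, ?_⟩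
  have := tri1 hp b1.2 p1 s1
  simpa only [cA012E, tA012E, Tp.γ, cond_true, cond_false] using this

def tA022L : Tp := ⟨true, 1, false, false, 1, 1⟩
theorem tA022L_ok : tA022L.Ok cA022L.fam := by
  constructor <;> (simp only [tA022L, cA022L, Tp.α, Tp.γ, Tp.rU, sgr, cond_true, cond_false]; norm_num)
theorem tgh_A022L {G1 G2 GT : Gn} {ρ a x c0 : ℝ} {KC : ℝ → ℝ} {TX : ℝ → ℝ → ℝ}
    (hodd : ∀ z, KC (-z) = -KC z) (g1 : GP G1 false 0 KC TX x) (g2 : GP G2 false 2 KC TX x)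
    (gt : GP GT true 2 KC TX x) (h1 : G1.At cA022L.m1 ((cA022L.h1 : ℝ) / 2) c0 x)
    (h2 : G2.At cA022L.mn ((cA022L.hn : ℝ) / 2) c0 x)
    (ht : GT.At cA022L.mt ((cA022L.ht : ℝ) / 2) c0 x) (B : CRng ρ a x) (hρ : ρ ≤ 1 / 16) :
    TgH cA022L tA022L G1 G2 GT ρ a x := by
  have a0 := B.ρ0
  have a1 := mul_nonneg B.ρ0 B.a0
  have a2 : ρ * a ≤ ρ := by nlinarith [B.ρ0, B.a1]
  obtain ⟨y1, ey1⟩ : ∃ z, z = cA022L.y1 ρ a := ⟨_, rfl⟩
  obtain ⟨yn, eyn⟩ : ∃ z, z = cA022L.yn ρ a := ⟨_, rfl⟩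
  obtain ⟨yt, eyt⟩ : ∃ z, z = cA022L.yt ρ a := ⟨_, rfl⟩
  have b1 : 0 ≤ y1 ∧ y1 ≤ 1 / 16 := by
    rw [ey1]
    constructor <;> (simp only [cA022L, tA022L, Cp.y1, Cp.yn, Cp.yt, cd1, cd2, cd3, jq, cond_true, cond_false]; push_cast; nlinarith)
  have bn : 0 ≤ yn ∧ yn ≤ 9 / 8 := by
    rw [eyn]
    constructor <;> (simp only [cA022L, tA022L, Cp.y1, Cp.yn, Cp.yt, cd1, cd2, cd3, jq, cond_true, cond_false]; push_cast; nlinarith)
  have bt : 0 ≤ yt ∧ yt ≤ 9 / 8 := by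
    rw [eyt]
    constructor <;> (simp only [cA022L, tA022L, Cp.y1, Cp.yn, Cp.yt, cd1, cd2, cd3, jq, cond_true, cond_false]; push_cast; nlinarith)
  have b1' : 0 ≤ y1 ∧ y1 ≤ 9 / 8 := ⟨by linarith [b1.1], by linarith [b1.2]⟩
  obtain ⟨s1, p1⟩ := g1.sq b1'.1 b1'.2
  have hX : cA022L.X1 G1 ρ a = G1.xv y1 := by rw [ey1]; rfl
  refine TgH_of cA022L_ok hodd g1 g2 gt h1 h2 ht (by norm_num [tA022L, r2]) (by norm_num [tA022L, r2])
    (by norm_num [tA022L, Tp.rU, r2]) (by rw [← ey1]; exact b1') (by rw [← eyn]; exact bn)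
    (by rw [← eyt]; exact bt) (by norm_num [cA022L, jq]) (by norm_num [cA022L, jq])
    (by norm_num [cA022L, jq]) (β := (1 / 2)) (by norm_num [cA022L, tA022L, Tp.α, sgr, cond_true, cond_false])
    (by norm_num [cA022L, tA022L, Tp.α, Tp.γ, Cp.b1, sgr, cond_true, cond_false])
    (by
      have := cfg3
      simpa only [cA022L, tA022L, Tp.γ, cond_true, cond_false] using this) ?_
  intro hne
  rw [← ey1] at hne
  rw [hX, ← ey1]
  have hp : 0 < y1 := lt_of_le_of_ne b1.1 (fun h => hne (by rw [← h]; norm_num [cA022L]))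
  refine ⟨⟨by linarith, by linarith⟩, pne0 hp b1.2 s1, ?_⟩
  have := tri3 hp b1.2 p1 s1
  simpa only [cA022L, tA022L, Tp.γ, cond_true, cond_false] using this

def tA101L : Tp := ⟨false, 1, true, true, 3, 1⟩
theorem tA101L_ok : tA101L.Ok cA101L.fam := by
  constructor <;> (simp only [tA101L, cA101L, Tp.α, Tp.γ, Tp.rU, sgr, cond_true, cond_false]; norm_num)
theorem tgh_A101L {G1 G2 GT : Gn} {ρ a x c0 : ℝ} {KC : ℝ → ℝ} {TX : ℝ → ℝ → ℝ}
    (hodd : ∀ z, KC (-z) = -KC z) (g1 : GP G1 true 1 KC TX x) (g2 : GP G2 false 0 KC TX x)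
    (gt : GP GT false 1 KC TX x) (h1 : G1.At cA101L.m1 ((cA101L.h1 : ℝ) / 2) c0 x)
    (h2 : G2.At cA101L.mn ((cA101L.hn : ℝ) / 2) c0 x)
    (ht : GT.At cA101L.mt ((cA101L.ht : ℝ) / 2) c0 x) (B : CRng ρ a x) (hρ : ρ ≤ 1 / 16) :
    TgH cA101L tA101L G1 G2 GT ρ a x := by
  have a0 := B.ρ0
  have a1 := mul_nonneg B.ρ0 B.a0
  have a2 : ρ * a ≤ ρ := by nlinarith [B.ρ0, B.a1]
  obtain ⟨y1, ey1⟩ : ∃ z, z = cA101L.y1 ρ a := ⟨_, rfl⟩
  obtain ⟨yn, eyn⟩ : ∃ z, z = cA101L.yn ρ a := ⟨_, rfl⟩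
  obtain ⟨yt, eyt⟩ : ∃ z, z = cA101L.yt ρ a := ⟨_, rfl⟩
  have b1 : 15 / 16 ≤ y1 ∧ y1 ≤ 1 := by
    rw [ey1]
    constructor <;> (simp only [cA101L, tA101L, Cp.y1, Cp.yn, Cp.yt, cd1, cd2, cd3, jq, cond_true, cond_false]; push_cast; nlinarith)
  have bn : 0 ≤ yn ∧ yn ≤ 9 / 8 := by
    rw [eyn]
    constructor <;> (simp only [cA101L, tA101L, Cp.y1, Cp.yn, Cp.yt, cd1, cd2, cd3, jq, cond_true, cond_false]; push_cast; nlinarith)
  have bt : 0 ≤ yt ∧ yt ≤ 9 / 8 := by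
    rw [eyt]
    constructor <;> (simp only [cA101L, tA101L, Cp.y1, Cp.yn, Cp.yt, cd1, cd2, cd3, jq, cond_true, cond_false]; push_cast; nlinarith)
  have b1' : 0 ≤ y1 ∧ y1 ≤ 9 / 8 := ⟨by linarith [b1.1], by linarith [b1.2]⟩
  obtain ⟨s1, p1⟩ := g1.sq b1'.1 b1'.2
  have hX : cA101L.X1 G1 ρ a = G1.xv y1 := by rw [ey1]; rfl
  refine TgH_of cA101L_ok hodd g1 g2 gt h1 h2 ht (by norm_num [tA101L, r2]) (by norm_num [tA101L, r2])
    (by norm_num [tA101L, Tp.rU, r2]) (by rw [← ey1]; exact b1') (by rw [← eyn]; exact bn)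
    (by rw [← eyt]; exact bt) (by norm_num [cA101L, jq]) (by norm_num [cA101L, jq])
    (by norm_num [cA101L, jq]) (β := (-(1 / 2))) (by norm_num [cA101L, tA101L, Tp.α, sgr, cond_true, cond_false])
    (by norm_num [cA101L, tA101L, Tp.α, Tp.γ, Cp.b1, sgr, cond_true, cond_false])
    (by
      have := cfg6
      simpa only [cA101L, tA101L, Tp.γ, cond_true, cond_false] using this) ?_
  intro hne
  rw [← ey1] at hne
  rw [hX, ← ey1]
  have hp : y1 < 1 := lt_of_le_of_ne b1.2 (fun h => hne (by rw [h]; norm_num [cA101L]))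
  refine ⟨⟨by linarith, by linarith⟩, pne3 hp b1.1 s1, ?_⟩
  have := tri6 hp b1.1 p1 s1
  simpa only [cA101L, tA101L, Tp.γ, cond_true, cond_false] using this

def tA102E : Tp := ⟨false, 1, false, true, 1, 1⟩
theorem tA102E_ok : tA102E.Ok cA102E.fam := by
  constructor <;> (simp only [tA102E, cA102E, Tp.α, Tp.γ, Tp.rU, sgr, cond_true, cond_false]; norm_num)
theorem tgh_A102E {G1 G2 GT : Gn} {ρ a x c0 : ℝ} {KC : ℝ → ℝ} {TX : ℝ → ℝ → ℝ}
    (hodd : ∀ z, KC (-z) = -KC z) (g1 : GP G1 false 1 KC TX x) (g2 : GP G2 false 0 KC TX x)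
    (gt : GP GT false 2 KC TX x) (h1 : G1.At cA102E.m1 ((cA102E.h1 : ℝ) / 2) c0 x)
    (h2 : G2.At cA102E.mn ((cA102E.hn : ℝ) / 2) c0 x)
    (ht : GT.At cA102E.mt ((cA102E.ht : ℝ) / 2) c0 x) (B : CRng ρ a x) (hρ : ρ ≤ 1 / 16) :
    TgH cA102E tA102E G1 G2 GT ρ a x := by
  have a0 := B.ρ0
  have a1 := mul_nonneg B.ρ0 B.a0
  have a2 : ρ * a ≤ ρ := by nlinarith [B.ρ0, B.a1]
  obtain ⟨y1, ey1⟩ : ∃ z, z = cA102E.y1 ρ a := ⟨_, rfl⟩
  obtain ⟨yn, eyn⟩ : ∃ z, z = cA102E.yn ρ a := ⟨_, rfl⟩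
  obtain ⟨yt, eyt⟩ : ∃ z, z = cA102E.yt ρ a := ⟨_, rfl⟩
  have b1 : 15 / 16 ≤ y1 ∧ y1 ≤ 1 := by
    rw [ey1]
    constructor <;> (simp only [cA102E, tA102E, Cp.y1, Cp.yn, Cp.yt, cd1, cd2, cd3, jq, cond_true, cond_false]; push_cast; nlinarith)
  have bn : 0 ≤ yn ∧ yn ≤ 9 / 8 := by
    rw [eyn]
    constructor <;> (simp only [cA102E, tA102E, Cp.y1, Cp.yn, Cp.yt, cd1, cd2, cd3, jq, cond_true, cond_false]; push_cast; nlinarith)
  have bt : 0 ≤ yt ∧ yt ≤ 9 / 8 := by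
    rw [eyt]
    constructor <;> (simp only [cA102E, tA102E, Cp.y1, Cp.yn, Cp.yt, cd1, cd2, cd3, jq, cond_true, cond_false]; push_cast; nlinarith)
  have b1' : 0 ≤ y1 ∧ y1 ≤ 9 / 8 := ⟨by linarith [b1.1], by linarith [b1.2]⟩
  obtain ⟨s1, p1⟩ := g1.sq b1'.1 b1'.2
  have hX : cA102E.X1 G1 ρ a = G1.xv y1 := by rw [ey1]; rfl
  refine TgH_of cA102E_ok hodd g1 g2 gt h1 h2 ht (by norm_num [tA102E, r2]) (by norm_num [tA102E, r2])
    (by norm_num [tA102E, Tp.rU, r2]) (by rw [← ey1]; exact b1') (by rw [← eyn]; exact bn)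
    (by rw [← eyt]; exact bt) (by norm_num [cA102E, jq]) (by norm_num [cA102E, jq])
    (by norm_num [cA102E, jq]) (β := (-(1 / 2))) (by norm_num [cA102E, tA102E, Tp.α, sgr, cond_true, cond_false])
    (by norm_num [cA102E, tA102E, Tp.α, Tp.γ, Cp.b1, sgr, cond_true, cond_false])
    (by
      have := cfg2
      simpa only [cA102E, tA102E, Tp.γ, cond_true, cond_false] using this) ?_
  intro hne
  rw [← ey1] at hne
  rw [hX, ← ey1]
  have hp : y1 < 1 := lt_of_le_of_ne b1.2 (fun h => hne (by rw [h]; norm_num [cA102E]))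
  refine ⟨⟨by linarith, by linarith⟩, pne1 hp b1.1 s1, ?_⟩
  have := tri2 hp b1.1 p1 s1
  simpa only [cA102E, tA102E, Tp.γ, cond_true, cond_false] using this

def tA202R : Tp := ⟨true, 1, false, false, 1, 1⟩
theorem tA202R_ok : tA202R.Ok cA202R.fam := by
  constructor <;> (simp only [tA202R, cA202R, Tp.α, Tp.γ, Tp.rU, sgr, cond_true, cond_false]; norm_num)
theorem tgh_A202R {G1 G2 GT : Gn} {ρ a x c0 : ℝ} {KC : ℝ → ℝ} {TX : ℝ → ℝ → ℝ}
    (hodd : ∀ z, KC (-z) = -KC z) (g1 : GP G1 false 2 KC TX x) (g2 : GP G2 false 0 KC TX x)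
    (gt : GP GT true 2 KC TX x) (h1 : G1.At cA202R.m1 ((cA202R.h1 : ℝ) / 2) c0 x)
    (h2 : G2.At cA202R.mn ((cA202R.hn : ℝ) / 2) c0 x)
    (ht : GT.At cA202R.mt ((cA202R.ht : ℝ) / 2) c0 x) (B : CRng ρ a x) (hρ : ρ ≤ 1 / 16) :
    TgH cA202R tA202R G1 G2 GT ρ a x := by
  have a0 := B.ρ0
  have a1 := mul_nonneg B.ρ0 B.a0
  have a2 : ρ * a ≤ ρ := by nlinarith [B.ρ0, B.a1]
  obtain ⟨y1, ey1⟩ : ∃ z, z = cA202R.y1 ρ a := ⟨_, rfl⟩
  obtain ⟨yn, eyn⟩ : ∃ z, z = cA202R.yn ρ a := ⟨_, rfl⟩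
  obtain ⟨yt, eyt⟩ : ∃ z, z = cA202R.yt ρ a := ⟨_, rfl⟩
  have b1 : 1 ≤ y1 ∧ y1 ≤ 17 / 16 := by
    rw [ey1]
    constructor <;> (simp only [cA202R, tA202R, Cp.y1, Cp.yn, Cp.yt, cd1, cd2, cd3, jq, cond_true, cond_false]; push_cast; nlinarith)
  have bn : 0 ≤ yn ∧ yn ≤ 9 / 8 := by
    rw [eyn]
    constructor <;> (simp only [cA202R, tA202R, Cp.y1, Cp.yn, Cp.yt, cd1, cd2, cd3, jq, cond_true, cond_false]; push_cast; nlinarith)
  have bt : 0 ≤ yt ∧ yt ≤ 9 / 8 := by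
    rw [eyt]
    constructor <;> (simp only [cA202R, tA202R, Cp.y1, Cp.yn, Cp.yt, cd1, cd2, cd3, jq, cond_true, cond_false]; push_cast; nlinarith)
  have b1' : 0 ≤ y1 ∧ y1 ≤ 9 / 8 := ⟨by linarith [b1.1], by linarith [b1.2]⟩
  obtain ⟨s1, p1⟩ := g1.sq b1'.1 b1'.2
  have hX : cA202R.X1 G1 ρ a = -G1.xv y1 := by rw [ey1]; rfl
  refine TgH_of cA202R_ok hodd g1 g2 gt h1 h2 ht (by norm_num [tA202R, r2]) (by norm_num [tA202R, r2])
    (by norm_num [tA202R, Tp.rU, r2]) (by rw [← ey1]; exact b1') (by rw [← eyn]; exact bn)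
    (by rw [← eyt]; exact bt) (by norm_num [cA202R, jq]) (by norm_num [cA202R, jq])
    (by norm_num [cA202R, jq]) (β := (1 / 2)) (by norm_num [cA202R, tA202R, Tp.α, sgr, cond_true, cond_false])
    (by norm_num [cA202R, tA202R, Tp.α, Tp.γ, Cp.b1, sgr, cond_true, cond_false])
    (by
      have := cfg4
      simpa only [cA202R, tA202R, Tp.γ, cond_true, cond_false] using this) ?_
  intro hne
  rw [← ey1] at hne
  rw [hX, ← ey1]
  have hp : y1 ≠ 1 := fun h => hne (by rw [h]; norm_num [cA202R])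
  refine ⟨⟨by linarith, by linarith⟩, pne2 hp, ?_⟩
  have := tri4 b1.1 b1.2 (X := -G1.xv y1) (by linarith) (by rw [neg_sq]; exact s1)
  simpa only [cA202R, tA202R, Tp.γ, cond_true, cond_false] using this

def tB011R : Tp := ⟨false, 1, false, false, 1, 1⟩
theorem tB011R_ok : tB011R.Ok cB011R.fam := by
  constructor <;> (simp only [tB011R, cB011R, Tp.α, Tp.γ, Tp.rU, sgr, cond_true, cond_false]; norm_num)
theorem tgh_B011R {G1 G2 GT : Gn} {ρ a x c0 : ℝ} {KC : ℝ → ℝ} {TX : ℝ → ℝ → ℝ}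
    (hodd : ∀ z, KC (-z) = -KC z) (g1 : GP G1 false 0 KC TX x) (g2 : GP G2 false 1 KC TX x)
    (gt : GP GT true 1 KC TX x) (h1 : G1.At cB011R.m1 ((cB011R.h1 : ℝ) / 2) c0 x)
    (h2 : G2.At cB011R.mn ((cB011R.hn : ℝ) / 2) c0 x)
    (ht : GT.At cB011R.mt ((cB011R.ht : ℝ) / 2) c0 x) (B : CRng ρ a x) (hρ : ρ ≤ 1 / 16) :
    TgH cB011R tB011R G1 G2 GT ρ a x := by
  have a0 := B.ρ0
  have a1 := mul_nonneg B.ρ0 B.a0
  have a2 : ρ * a ≤ ρ := by nlinarith [B.ρ0, B.a1]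
  obtain ⟨y1, ey1⟩ : ∃ z, z = cB011R.y1 ρ a := ⟨_, rfl⟩
  obtain ⟨yn, eyn⟩ : ∃ z, z = cB011R.yn ρ a := ⟨_, rfl⟩
  obtain ⟨yt, eyt⟩ : ∃ z, z = cB011R.yt ρ a := ⟨_, rfl⟩
  have b1 : 0 ≤ y1 ∧ y1 ≤ 1 / 16 := by
    rw [ey1]
    constructor <;> (simp only [cB011R, tB011R, Cp.y1, Cp.yn, Cp.yt, cd1, cd2, cd3, jq, cond_true, cond_false]; push_cast; nlinarith)
  have bn : 0 ≤ yn ∧ yn ≤ 9 / 8 := by
    rw [eyn]
    constructor <;> (simp only [cB011R, tB011R, Cp.y1, Cp.yn, Cp.yt, cd1, cd2, cd3, jq, cond_true, cond_false]; push_cast; nlinarith)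
  have bt : 0 ≤ yt ∧ yt ≤ 9 / 8 := by
    rw [eyt]
    constructor <;> (simp only [cB011R, tB011R, Cp.y1, Cp.yn, Cp.yt, cd1, cd2, cd3, jq, cond_true, cond_false]; push_cast; nlinarith)
  have b1' : 0 ≤ y1 ∧ y1 ≤ 9 / 8 := ⟨by linarith [b1.1], by linarith [b1.2]⟩
  obtain ⟨s1, p1⟩ := g1.sq b1'.1 b1'.2
  have hX : cB011R.X1 G1 ρ a = G1.xv y1 := by rw [ey1]; rfl
  refine TgH_of cB011R_ok hodd g1 g2 gt h1 h2 ht (by norm_num [tB011R, r2]) (by norm_num [tB011R, r2])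
    (by norm_num [tB011R, Tp.rU, r2]) (by rw [← ey1]; exact b1') (by rw [← eyn]; exact bn)
    (by rw [← eyt]; exact bt) (by norm_num [cB011R, jq]) (by norm_num [cB011R, jq])
    (by norm_num [cB011R, jq]) (β := (-(3 / 2))) (by norm_num [cB011R, tB011R, Tp.α, sgr, cond_true, cond_false])
    (by norm_num [cB011R, tB011R, Tp.α, Tp.γ, Cp.b1, sgr, cond_true, cond_false])
    (by
      have := cfg5
      simpa only [cB011R, tB011R, Tp.γ, cond_true, cond_false] using this) ?_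
  intro hne
  rw [← ey1] at hne
  rw [hX, ← ey1]
  have hp : 0 < y1 := lt_of_le_of_ne b1.1 (fun h => hne (by rw [← h]; norm_num [cB011R]))
  refine ⟨⟨by linarith, by linarith⟩, pne0 hp b1.2 s1, ?_⟩
  have := tri5 hp b1.2 p1 s1
  simpa only [cB011R, tB011R, Tp.γ, cond_true, cond_false] using this

def tB012E : Tp := ⟨true, 1, false, true, 1, 1⟩
theorem tB012E_ok : tB012E.Ok cB012E.fam := by
  constructor <;> (simp only [tB012E, cB012E, Tp.α, Tp.γ, Tp.rU, sgr, cond_true, cond_false]; norm_num)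
theorem tgh_B012E {G1 G2 GT : Gn} {ρ a x c0 : ℝ} {KC : ℝ → ℝ} {TX : ℝ → ℝ → ℝ}
    (hodd : ∀ z, KC (-z) = -KC z) (g1 : GP G1 false 0 KC TX x) (g2 : GP G2 false 2 KC TX x)
    (gt : GP GT false 1 KC TX x) (h1 : G1.At cB012E.m1 ((cB012E.h1 : ℝ) / 2) c0 x)
    (h2 : G2.At cB012E.mn ((cB012E.hn : ℝ) / 2) c0 x)
    (ht : GT.At cB012E.mt ((cB012E.ht : ℝ) / 2) c0 x) (B : CRng ρ a x) (hρ : ρ ≤ 1 / 16) :
    TgH cB012E tB012E G1 G2 GT ρ a x := by
  have a0 := B.ρ0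
  have a1 := mul_nonneg B.ρ0 B.a0
  have a2 : ρ * a ≤ ρ := by nlinarith [B.ρ0, B.a1]
  obtain ⟨y1, ey1⟩ : ∃ z, z = cB012E.y1 ρ a := ⟨_, rfl⟩
  obtain ⟨yn, eyn⟩ : ∃ z, z = cB012E.yn ρ a := ⟨_, rfl⟩
  obtain ⟨yt, eyt⟩ : ∃ z, z = cB012E.yt ρ a := ⟨_, rfl⟩
  have b1 : 0 ≤ y1 ∧ y1 ≤ 1 / 16 := by
    rw [ey1]
    constructor <;> (simp only [cB012E, tB012E, Cp.y1, Cp.yn, Cp.yt, cd1, cd2, cd3, jq, cond_true, cond_false]; push_cast; nlinarith)
  have bn : 0 ≤ yn ∧ yn ≤ 9 / 8 := by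
    rw [eyn]
    constructor <;> (simp only [cB012E, tB012E, Cp.y1, Cp.yn, Cp.yt, cd1, cd2, cd3, jq, cond_true, cond_false]; push_cast; nlinarith)
  have bt : 0 ≤ yt ∧ yt ≤ 9 / 8 := by
    rw [eyt]
    constructor <;> (simp only [cB012E, tB012E, Cp.y1, Cp.yn, Cp.yt, cd1, cd2, cd3, jq, cond_true, cond_false]; push_cast; nlinarith)
  have b1' : 0 ≤ y1 ∧ y1 ≤ 9 / 8 := ⟨by linarith [b1.1], by linarith [b1.2]⟩
  obtain ⟨s1, p1⟩ := g1.sq b1'.1 b1'.2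
  have hX : cB012E.X1 G1 ρ a = G1.xv y1 := by rw [ey1]; rfl
  refine TgH_of cB012E_ok hodd g1 g2 gt h1 h2 ht (by norm_num [tB012E, r2]) (by norm_num [tB012E, r2])
    (by norm_num [tB012E, Tp.rU, r2]) (by rw [← ey1]; exact b1') (by rw [← eyn]; exact bn)
    (by rw [← eyt]; exact bt) (by norm_num [cB012E, jq]) (by norm_num [cB012E, jq])
    (by norm_num [cB012E, jq]) (β := (-(1 / 2))) (by norm_num [cB012E, tB012E, Tp.α, sgr, cond_true, cond_false])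
    (by norm_num [cB012E, tB012E, Tp.α, Tp.γ, Cp.b1, sgr, cond_true, cond_false])
    (by
      have := cfg1
      simpa only [cB012E, tB012E, Tp.γ, cond_true, cond_false] using this) ?_
  intro hne
  rw [← ey1] at hne
  rw [hX, ← ey1]
  have hp : 0 < y1 := lt_of_le_of_ne b1.1 (fun h => hne (by rw [← h]; norm_num [cB012E]))
  refine ⟨⟨by linarith, by linarith⟩, pne0 hp b1.2 s1, ?_⟩
  have := tri1 hp b1.2 p1 s1
  simpa only [cB012E, tB012E, Tp.γ, cond_true, cond_false] using this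

def tB022L : Tp := ⟨true, 3, false, true, 1, 3⟩
theorem tB022L_ok : tB022L.Ok cB022L.fam := by
  constructor <;> (simp only [tB022L, cB022L, Tp.α, Tp.γ, Tp.rU, sgr, cond_true, cond_false]; norm_num)
theorem tgh_B022L {G1 G2 GT : Gn} {ρ a x c0 : ℝ} {KC : ℝ → ℝ} {TX : ℝ → ℝ → ℝ}
    (hodd : ∀ z, KC (-z) = -KC z) (g1 : GP G1 false 0 KC TX x) (g2 : GP G2 true 2 KC TX x)
    (gt : GP GT false 2 KC TX x) (h1 : G1.At cB022L.m1 ((cB022L.h1 : ℝ) / 2) c0 x)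
    (h2 : G2.At cB022L.mn ((cB022L.hn : ℝ) / 2) c0 x)
    (ht : GT.At cB022L.mt ((cB022L.ht : ℝ) / 2) c0 x) (B : CRng ρ a x) (hρ : ρ ≤ 1 / 16) :
    TgH cB022L tB022L G1 G2 GT ρ a x := by
  have a0 := B.ρ0
  have a1 := mul_nonneg B.ρ0 B.a0
  have a2 : ρ * a ≤ ρ := by nlinarith [B.ρ0, B.a1]
  obtain ⟨y1, ey1⟩ : ∃ z, z = cB022L.y1 ρ a := ⟨_, rfl⟩
  obtain ⟨yn, eyn⟩ : ∃ z, z = cB022L.yn ρ a := ⟨_, rfl⟩
  obtain ⟨yt, eyt⟩ : ∃ z, z = cB022L.yt ρ a := ⟨_, rfl⟩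
  have b1 : 0 ≤ y1 ∧ y1 ≤ 1 / 16 := by
    rw [ey1]
    constructor <;> (simp only [cB022L, tB022L, Cp.y1, Cp.yn, Cp.yt, cd1, cd2, cd3, jq, cond_true, cond_false]; push_cast; nlinarith)
  have bn : 0 ≤ yn ∧ yn ≤ 9 / 8 := by
    rw [eyn]
    constructor <;> (simp only [cB022L, tB022L, Cp.y1, Cp.yn, Cp.yt, cd1, cd2, cd3, jq, cond_true, cond_false]; push_cast; nlinarith)
  have bt : 0 ≤ yt ∧ yt ≤ 9 / 8 := by
    rw [eyt]
    constructor <;> (simp only [cB022L, tB022L, Cp.y1, Cp.yn, Cp.yt, cd1, cd2, cd3, jq, cond_true, cond_false]; push_cast; nlinarith)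
  have b1' : 0 ≤ y1 ∧ y1 ≤ 9 / 8 := ⟨by linarith [b1.1], by linarith [b1.2]⟩
  obtain ⟨s1, p1⟩ := g1.sq b1'.1 b1'.2
  have hX : cB022L.X1 G1 ρ a = G1.xv y1 := by rw [ey1]; rfl
  refine TgH_of cB022L_ok hodd g1 g2 gt h1 h2 ht (by norm_num [tB022L, r2]) (by norm_num [tB022L, r2])
    (by norm_num [tB022L, Tp.rU, r2]) (by rw [← ey1]; exact b1') (by rw [← eyn]; exact bn)
    (by rw [← eyt]; exact bt) (by norm_num [cB022L, jq]) (by norm_num [cB022L, jq])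
    (by norm_num [cB022L, jq]) (β := (1 / 2)) (by norm_num [cB022L, tB022L, Tp.α, sgr, cond_true, cond_false])
    (by norm_num [cB022L, tB022L, Tp.α, Tp.γ, Cp.b1, sgr, cond_true, cond_false])
    (by
      have := cfg3
      simpa only [cB022L, tB022L, Tp.γ, cond_true, cond_false] using this) ?_
  intro hne
  rw [← ey1] at hne
  rw [hX, ← ey1]
  have hp : 0 < y1 := lt_of_le_of_ne b1.1 (fun h => hne (by rw [← h]; norm_num [cB022L]))
  refine ⟨⟨by linarith, by linarith⟩, pne0 hp b1.2 s1, ?_⟩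
  have := tri3 hp b1.2 p1 s1
  simpa only [cB022L, tB022L, Tp.γ, cond_true, cond_false] using this

def tB101L : Tp := ⟨true, 1, true, true, 3, 1⟩
theorem tB101L_ok : tB101L.Ok cB101L.fam := by
  constructor <;> (simp only [tB101L, cB101L, Tp.α, Tp.γ, Tp.rU, sgr, cond_true, cond_false]; norm_num)
theorem tgh_B101L {G1 G2 GT : Gn} {ρ a x c0 : ℝ} {KC : ℝ → ℝ} {TX : ℝ → ℝ → ℝ}
    (hodd : ∀ z, KC (-z) = -KC z) (g1 : GP G1 true 1 KC TX x) (g2 : GP G2 false 1 KC TX x)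
    (gt : GP GT false 0 KC TX x) (h1 : G1.At cB101L.m1 ((cB101L.h1 : ℝ) / 2) c0 x)
    (h2 : G2.At cB101L.mn ((cB101L.hn : ℝ) / 2) c0 x)
    (ht : GT.At cB101L.mt ((cB101L.ht : ℝ) / 2) c0 x) (B : CRng ρ a x) (hρ : ρ ≤ 1 / 16) :
    TgH cB101L tB101L G1 G2 GT ρ a x := by
  have a0 := B.ρ0
  have a1 := mul_nonneg B.ρ0 B.a0
  have a2 : ρ * a ≤ ρ := by nlinarith [B.ρ0, B.a1]
  obtain ⟨y1, ey1⟩ : ∃ z, z = cB101L.y1 ρ a := ⟨_, rfl⟩
  obtain ⟨yn, eyn⟩ : ∃ z, z = cB101L.yn ρ a := ⟨_, rfl⟩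
  obtain ⟨yt, eyt⟩ : ∃ z, z = cB101L.yt ρ a := ⟨_, rfl⟩
  have b1 : 15 / 16 ≤ y1 ∧ y1 ≤ 1 := by
    rw [ey1]
    constructor <;> (simp only [cB101L, tB101L, Cp.y1, Cp.yn, Cp.yt, cd1, cd2, cd3, jq, cond_true, cond_false]; push_cast; nlinarith)
  have bn : 0 ≤ yn ∧ yn ≤ 9 / 8 := by
    rw [eyn]
    constructor <;> (simp only [cB101L, tB101L, Cp.y1, Cp.yn, Cp.yt, cd1, cd2, cd3, jq, cond_true, cond_false]; push_cast; nlinarith)
  have bt : 0 ≤ yt ∧ yt ≤ 9 / 8 := by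
    rw [eyt]
    constructor <;> (simp only [cB101L, tB101L, Cp.y1, Cp.yn, Cp.yt, cd1, cd2, cd3, jq, cond_true, cond_false]; push_cast; nlinarith)
  have b1' : 0 ≤ y1 ∧ y1 ≤ 9 / 8 := ⟨by linarith [b1.1], by linarith [b1.2]⟩
  obtain ⟨s1, p1⟩ := g1.sq b1'.1 b1'.2
  have hX : cB101L.X1 G1 ρ a = G1.xv y1 := by rw [ey1]; rfl
  refine TgH_of cB101L_ok hodd g1 g2 gt h1 h2 ht (by norm_num [tB101L, r2]) (by norm_num [tB101L, r2])
    (by norm_num [tB101L, Tp.rU, r2]) (by rw [← ey1]; exact b1') (by rw [← eyn]; exact bn)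
    (by rw [← eyt]; exact bt) (by norm_num [cB101L, jq]) (by norm_num [cB101L, jq])
    (by norm_num [cB101L, jq]) (β := (-(1 / 2))) (by norm_num [cB101L, tB101L, Tp.α, sgr, cond_true, cond_false])
    (by norm_num [cB101L, tB101L, Tp.α, Tp.γ, Cp.b1, sgr, cond_true, cond_false])
    (by
      have := cfg6
      simpa only [cB101L, tB101L, Tp.γ, cond_true, cond_false] using this) ?_
  intro hne
  rw [← ey1] at hne
  rw [hX, ← ey1]
  have hp : y1 < 1 := lt_of_le_of_ne b1.2 (fun h => hne (by rw [h]; norm_num [cB101L]))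
  refine ⟨⟨by linarith, by linarith⟩, pne3 hp b1.1 s1, ?_⟩
  have := tri6 hp b1.1 p1 s1
  simpa only [cB101L, tB101L, Tp.γ, cond_true, cond_false] using this

def tB102E : Tp := ⟨true, 1, false, true, 1, 1⟩
theorem tB102E_ok : tB102E.Ok cB102E.fam := by
  constructor <;> (simp only [tB102E, cB102E, Tp.α, Tp.γ, Tp.rU, sgr, cond_true, cond_false]; norm_num)
theorem tgh_B102E {G1 G2 GT : Gn} {ρ a x c0 : ℝ} {KC : ℝ → ℝ} {TX : ℝ → ℝ → ℝ}
    (hodd : ∀ z, KC (-z) = -KC z) (g1 : GP G1 false 1 KC TX x) (g2 : GP G2 false 2 KC TX x)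
    (gt : GP GT false 0 KC TX x) (h1 : G1.At cB102E.m1 ((cB102E.h1 : ℝ) / 2) c0 x)
    (h2 : G2.At cB102E.mn ((cB102E.hn : ℝ) / 2) c0 x)
    (ht : GT.At cB102E.mt ((cB102E.ht : ℝ) / 2) c0 x) (B : CRng ρ a x) (hρ : ρ ≤ 1 / 16) :
    TgH cB102E tB102E G1 G2 GT ρ a x := by
  have a0 := B.ρ0
  have a1 := mul_nonneg B.ρ0 B.a0
  have a2 : ρ * a ≤ ρ := by nlinarith [B.ρ0, B.a1]
  obtain ⟨y1, ey1⟩ : ∃ z, z = cB102E.y1 ρ a := ⟨_, rfl⟩
  obtain ⟨yn, eyn⟩ : ∃ z, z = cB102E.yn ρ a := ⟨_, rfl⟩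
  obtain ⟨yt, eyt⟩ : ∃ z, z = cB102E.yt ρ a := ⟨_, rfl⟩
  have b1 : 15 / 16 ≤ y1 ∧ y1 ≤ 1 := by
    rw [ey1]
    constructor <;> (simp only [cB102E, tB102E, Cp.y1, Cp.yn, Cp.yt, cd1, cd2, cd3, jq, cond_true, cond_false]; push_cast; nlinarith)
  have bn : 0 ≤ yn ∧ yn ≤ 9 / 8 := by
    rw [eyn]
    constructor <;> (simp only [cB102E, tB102E, Cp.y1, Cp.yn, Cp.yt, cd1, cd2, cd3, jq, cond_true, cond_false]; push_cast; nlinarith)
  have bt : 0 ≤ yt ∧ yt ≤ 9 / 8 := by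
    rw [eyt]
    constructor <;> (simp only [cB102E, tB102E, Cp.y1, Cp.yn, Cp.yt, cd1, cd2, cd3, jq, cond_true, cond_false]; push_cast; nlinarith)
  have b1' : 0 ≤ y1 ∧ y1 ≤ 9 / 8 := ⟨by linarith [b1.1], by linarith [b1.2]⟩
  obtain ⟨s1, p1⟩ := g1.sq b1'.1 b1'.2
  have hX : cB102E.X1 G1 ρ a = G1.xv y1 := by rw [ey1]; rfl
  refine TgH_of cB102E_ok hodd g1 g2 gt h1 h2 ht (by norm_num [tB102E, r2]) (by norm_num [tB102E, r2])
    (by norm_num [tB102E, Tp.rU, r2]) (by rw [← ey1]; exact b1') (by rw [← eyn]; exact bn)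
    (by rw [← eyt]; exact bt) (by norm_num [cB102E, jq]) (by norm_num [cB102E, jq])
    (by norm_num [cB102E, jq]) (β := (-(1 / 2))) (by norm_num [cB102E, tB102E, Tp.α, sgr, cond_true, cond_false])
    (by norm_num [cB102E, tB102E, Tp.α, Tp.γ, Cp.b1, sgr, cond_true, cond_false])
    (by
      have := cfg2
      simpa only [cB102E, tB102E, Tp.γ, cond_true, cond_false] using this) ?_
  intro hne
  rw [← ey1] at hne
  rw [hX, ← ey1]
  have hp : y1 < 1 := lt_of_le_of_ne b1.2 (fun h => hne (by rw [h]; norm_num [cB102E]))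
  refine ⟨⟨by linarith, by linarith⟩, pne1 hp b1.1 s1, ?_⟩
  have := tri2 hp b1.1 p1 s1
  simpa only [cB102E, tB102E, Tp.γ, cond_true, cond_false] using this

def tB202R : Tp := ⟨true, 3, false, true, 1, 3⟩
theorem tB202R_ok : tB202R.Ok cB202R.fam := by
  constructor <;> (simp only [tB202R, cB202R, Tp.α, Tp.γ, Tp.rU, sgr, cond_true, cond_false]; norm_num)
theorem tgh_B202R {G1 G2 GT : Gn} {ρ a x c0 : ℝ} {KC : ℝ → ℝ} {TX : ℝ → ℝ → ℝ}
    (hodd : ∀ z, KC (-z) = -KC z) (g1 : GP G1 false 2 KC TX x) (g2 : GP G2 true 2 KC TX x)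
    (gt : GP GT false 0 KC TX x) (h1 : G1.At cB202R.m1 ((cB202R.h1 : ℝ) / 2) c0 x)
    (h2 : G2.At cB202R.mn ((cB202R.hn : ℝ) / 2) c0 x)
    (ht : GT.At cB202R.mt ((cB202R.ht : ℝ) / 2) c0 x) (B : CRng ρ a x) (hρ : ρ ≤ 1 / 16) :
    TgH cB202R tB202R G1 G2 GT ρ a x := by
  have a0 := B.ρ0
  have a1 := mul_nonneg B.ρ0 B.a0
  have a2 : ρ * a ≤ ρ := by nlinarith [B.ρ0, B.a1]
  obtain ⟨y1, ey1⟩ : ∃ z, z = cB202R.y1 ρ a := ⟨_, rfl⟩
  obtain ⟨yn, eyn⟩ : ∃ z, z = cB202R.yn ρ a := ⟨_, rfl⟩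
  obtain ⟨yt, eyt⟩ : ∃ z, z = cB202R.yt ρ a := ⟨_, rfl⟩
  have b1 : 1 ≤ y1 ∧ y1 ≤ 17 / 16 := by
    rw [ey1]
    constructor <;> (simp only [cB202R, tB202R, Cp.y1, Cp.yn, Cp.yt, cd1, cd2, cd3, jq, cond_true, cond_false]; push_cast; nlinarith)
  have bn : 0 ≤ yn ∧ yn ≤ 9 / 8 := by
    rw [eyn]
    constructor <;> (simp only [cB202R, tB202R, Cp.y1, Cp.yn, Cp.yt, cd1, cd2, cd3, jq, cond_true, cond_false]; push_cast; nlinarith)
  have bt : 0 ≤ yt ∧ yt ≤ 9 / 8 := by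
    rw [eyt]
    constructor <;> (simp only [cB202R, tB202R, Cp.y1, Cp.yn, Cp.yt, cd1, cd2, cd3, jq, cond_true, cond_false]; push_cast; nlinarith)
  have b1' : 0 ≤ y1 ∧ y1 ≤ 9 / 8 := ⟨by linarith [b1.1], by linarith [b1.2]⟩
  obtain ⟨s1, p1⟩ := g1.sq b1'.1 b1'.2
  have hX : cB202R.X1 G1 ρ a = -G1.xv y1 := by rw [ey1]; rfl
  refine TgH_of cB202R_ok hodd g1 g2 gt h1 h2 ht (by norm_num [tB202R, r2]) (by norm_num [tB202R, r2])
    (by norm_num [tB202R, Tp.rU, r2]) (by rw [← ey1]; exact b1') (by rw [← eyn]; exact bn)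
    (by rw [← eyt]; exact bt) (by norm_num [cB202R, jq]) (by norm_num [cB202R, jq])
    (by norm_num [cB202R, jq]) (β := (1 / 2)) (by norm_num [cB202R, tB202R, Tp.α, sgr, cond_true, cond_false])
    (by norm_num [cB202R, tB202R, Tp.α, Tp.γ, Cp.b1, sgr, cond_true, cond_false])
    (by
      have := cfg4
      simpa only [cB202R, tB202R, Tp.γ, cond_true, cond_false] using this) ?_
  intro hne
  rw [← ey1] at hne
  rw [hX, ← ey1]
  have hp : y1 ≠ 1 := fun h => hne (by rw [h]; norm_num [cB202R])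
  refine ⟨⟨by linarith, by linarith⟩, pne2 hp, ?_⟩
  have := tri4 b1.1 b1.2 (X := -G1.xv y1) (by linarith) (by rw [neg_sq]; exact s1)
  simpa only [cB202R, tB202R, Tp.γ, cond_true, cond_false] using this

end Pool.Agent.Strip051.PB
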