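import Pool.Agent.Strip051.PB.MolS

/-! # The third side when the curve through the tight point is a node -/

namespace Pool.Agent.Strip051.PB.Mol

/-- no further curve to the right of `W` -/
theorem rw0 {f : ℝ → ℝ} {x1 v1 W w X : ℝ} (h : LinB f W x1 w v1) (hX : W ≤ X)
    (t : 0 < x1 - X) : f X = w + (v1 - w) * (x1 - W)⁻¹ * (X - W) :=
  seg_r h hX (by linarith)

/-- one further curve to the right of `W` -/
theorem rw1 {f : ℝ → ℝ} {x1 x2 v1 v2 W w X : ℝ} (h : LinB f W x1 w v1) (h' : LinB f x1 x2 v1 v2)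
    (b : 0 < x1 - W) (hX : W ≤ X) (t : 0 < x2 - X) :
    f X = w + ((v1 - w) * (x1 - W)⁻¹ + ((v2 - v1) * (x2 - x1)⁻¹ - (v1 - w) * (x1 - W)⁻¹) *
      hng (X - W) (x1 - W)) * (X - W) := by
  have e := hng_eq (D := X - W) (d := x1 - W) b
  have hb : x1 - W ≠ 0 := b.ne'
  rcases le_total X x1 with g | g
  · rw [max_eq_right (by linarith)] at e
    rw [seg_r h hX g]
    linear_combination (-((v2 - v1) * (x2 - x1)⁻¹ - (v1 - w) * (x1 - W)⁻¹)) * e
  · rw [max_eq_left (by linarith)] at e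
    have k : v1 = w + (v1 - w) * (x1 - W)⁻¹ * (x1 - W) := by
      field_simp
      ring
    rw [seg_r h' g (by linarith)]
    linear_combination (-((v2 - v1) * (x2 - x1)⁻¹ - (v1 - w) * (x1 - W)⁻¹)) * e + k

/-- two further curves to the right of `W` -/
theorem rw2 {f : ℝ → ℝ} {x1 x2 x3 v1 v2 v3 W w X : ℝ} (h : LinB f W x1 w v1)
    (h' : LinB f x1 x2 v1 v2) (h'' : LinB f x2 x3 v2 v3)
    (b : 0 < x1 - W) (c : 0 < x2 - x1) (hX : W ≤ X) (t : 0 < x3 - X) :
    f X = w + ((v1 - w) * (x1 - W)⁻¹ + ((v2 - v1) * (x2 - x1)⁻¹ - (v1 - w) * (x1 - W)⁻¹) *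
      hng (X - W) (x1 - W) + ((v3 - v2) * (x3 - x2)⁻¹ - (v2 - v1) * (x2 - x1)⁻¹) *
      hng (X - W) (x2 - W)) * (X - W) := by
  have e := hng_eq (D := X - W) (d := x2 - W) (by linarith)
  have hb : x1 - W ≠ 0 := b.ne'
  have hc : x2 - x1 ≠ 0 := c.ne'
  rcases lt_or_ge X x2 with g | g
  · rw [max_eq_right (by linarith)] at e
    rw [rw1 h h' b hX (by linarith)]
    linear_combination (-((v3 - v2) * (x3 - x2)⁻¹ - (v2 - v1) * (x2 - x1)⁻¹)) * e
  · have e1 := hng_eq (D := X - W) (d := x1 - W) b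
    rw [max_eq_left (by linarith)] at e e1
    have k : v1 = w + (v1 - w) * (x1 - W)⁻¹ * (x1 - W) := by
      field_simp
      ring
    have k2 : v2 = v1 + (v2 - v1) * (x2 - x1)⁻¹ * (x2 - x1) := by
      field_simp
      ring
    rw [seg_r h'' g (by linarith)]
    linear_combination (-((v3 - v2) * (x3 - x2)⁻¹ - (v2 - v1) * (x2 - x1)⁻¹)) * e -
      ((v2 - v1) * (x2 - x1)⁻¹ - (v1 - w) * (x1 - W)⁻¹) * e1 + k + k2

/-- no further curve to the left of `W` -/
theorem lw0 {f : ℝ → ℝ} {xB vB W w X : ℝ} (h : LinB f xB W vB w) (c : 0 < W - xB) (hX : X ≤ W)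
    (t : 0 < X - xB) : f X = w + (w - vB) * (W - xB)⁻¹ * (X - W) :=
  seg_l h c (by linarith) hX

/-- one further curve to the left of `W` -/
theorem lw1 {f : ℝ → ℝ} {xC xB vC vB W w X : ℝ} (h : LinB f xB W vB w)
    (h' : LinB f xC xB vC vB) (c : 0 < W - xB) (d : 0 < xB - xC) (hX : X ≤ W)
    (t : 0 < X - xC) :
    f X = w + ((w - vB) * (W - xB)⁻¹ + ((vB - vC) * (xB - xC)⁻¹ - (w - vB) * (W - xB)⁻¹) *
      hng (W - X) (W - xB)) * (X - W) := by
  have e := hng_eq (D := W - X) (d := W - xB) c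
  have hc : W - xB ≠ 0 := c.ne'
  rcases le_total xB X with g | g
  · rw [max_eq_right (by linarith)] at e
    rw [seg_l h c g hX]
    linear_combination ((vB - vC) * (xB - xC)⁻¹ - (w - vB) * (W - xB)⁻¹) * e
  · rw [max_eq_left (by linarith)] at e
    have k : w = vB + (w - vB) * (W - xB)⁻¹ * (W - xB) := by
      field_simp
      ring
    rw [seg_l h' d (by linarith) g]
    linear_combination ((vB - vC) * (xB - xC)⁻¹ - (w - vB) * (W - xB)⁻¹) * e - k

/-- two further curves to the left of `W` -/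
theorem lw2 {f : ℝ → ℝ} {xD xC xB vD vC vB W w X : ℝ} (h : LinB f xB W vB w)
    (h' : LinB f xC xB vC vB) (h'' : LinB f xD xC vD vC) (c : 0 < W - xB) (d : 0 < xB - xC)
    (d' : 0 < xC - xD) (hX : X ≤ W) (t : 0 < X - xD) :
    f X = w + ((w - vB) * (W - xB)⁻¹ + ((vB - vC) * (xB - xC)⁻¹ - (w - vB) * (W - xB)⁻¹) *
      hng (W - X) (W - xB) + ((vC - vD) * (xC - xD)⁻¹ - (vB - vC) * (xB - xC)⁻¹) *
      hng (W - X) (W - xC)) * (X - W) := by
  have e := hng_eq (D := W - X) (d := W - xC) (by linarith)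
  have hc : W - xB ≠ 0 := c.ne'
  have hd : xB - xC ≠ 0 := d.ne'
  rcases lt_or_ge xC X with g | g
  · rw [max_eq_right (by linarith)] at e
    rw [lw1 h h' c d hX (by linarith)]
    linear_combination ((vC - vD) * (xC - xD)⁻¹ - (vB - vC) * (xB - xC)⁻¹) * e
  · have e1 := hng_eq (D := W - X) (d := W - xB) c
    rw [max_eq_left (by linarith)] at e e1
    have k : w = vB + (w - vB) * (W - xB)⁻¹ * (W - xB) := by
      field_simp
      ring
    have k2 : vB = vC + (vB - vC) * (xB - xC)⁻¹ * (xB - xC) := by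
      field_simp
      ring
    rw [seg_l h'' d' (by linarith) g]
    linear_combination ((vC - vD) * (xC - xD)⁻¹ - (vB - vC) * (xB - xC)⁻¹) * e +
      ((vB - vC) * (xB - xC)⁻¹ - (w - vB) * (W - xB)⁻¹) * e1 - k - k2

end Pool.Agent.Strip051.PB.Mol
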