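import Pool.Agent.Strip051.PB.Cuts

/-! # Rows for small `x`

The same tests as in `Row`, with the factor of the kernel in a form which does not divide by `x`
(`kenS`): the remainder of the enclosure of `ken` on a cell of relative width `r` is of order
`r ^ 2`, the one of `kenS` is of the order of the square of the width. -/

namespace Pool.Agent.Strip051.PB

attribute [local irreducible] padd psub pneg pmul psq pinv psqrt psqrtg pabs pps pmax pmin pphi plam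
  pcase phf pnat prat pscale pnorm pdc pnc pone ppos pnn Enc

/-- `ken` without division by `x` -/
noncomputable def kenS (x : ℝ) : ℝ := 2 * ((1 / 2 - 3 / 4 * x / (1 + c1n x)) / (1 - x))

theorem kenS_eq {x : ℝ} (h0x : 0 < x) (h1x : x < 1) : kenS x = ken x := by
  have hg : c1n x ^ 2 = 1 - 3 / 4 * x ^ 2 := Real.sq_sqrt (by nlinarith)
  have hg0 : 0 ≤ c1n x := Real.sqrt_nonneg _
  have h2 : 1 + c1n x ≠ 0 := by linarith
  have h3 : 1 - x ≠ 0 := by linarith
  have h4 : x ≠ 0 := h0x.ne'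
  unfold kenS ken esn
  field_simp
  nlinarith

/-- half of `kenS` -/
noncomputable def khS (X : ℕ) : ℕ :=
  pnorm (pmul (pnorm (psub (phn 1) (pmul (psub X (phf (phf X))) (pinv (padd pone (c1T X))))))
    (pinv (psub pone X)))

theorem enc_khS {E : Pt} {X : ℕ} {x : ℝ} (h : Enc E X x) : Enc E (khS X) (kenS x / 2) := by
  refine enc_cast (enc_norm (enc_mul (enc_norm (enc_sub (enc_phn E 1) (enc_mul
    (enc_sub h (enc_half (enc_half h))) (enc_inv (enc_add (enc_one E) (enc_c1T h))))))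
    (enc_inv (enc_sub (enc_one E) h)))) ?_
  unfold kenS
  push_cast
  ring

/-- the subtracted part of the slack -/
noncomputable def phiK (fam s1 s2 : Bool) (cn : Con) (a b c : ℕ) (n1 n2 : Node) (pc : Piece)
    (p q g x y z t X Y : ℕ) : ℕ :=
  (fun K1 K2 K3 u v w => rowPhi cn (khS x) x u (pneg u) v (pneg v) w (pneg w)
    (sg s1 K1) (sg (!s1) K1) (sl fam (sg s2 K2) K3) (sl fam (sg (!s2) K2) (pneg K3))
    (sl fam K3 (sg s2 K2)) (sl fam (pneg K3) (sg (!s2) K2)) (pga g))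
    (n1.K.t p x) (n2.K.t q x) (pnorm (pc.K.t X Y x)) (dj (jq a) y) (dj (jq b) z) (dj (jq c) t)

/-- test at the far vertex -/
noncomputable def kFK (fam s1 s2 : Bool) (cn : Con) (a b c : ℕ) (n1 n2 : Node) (pc : Piece)
    (p q : ℕ) (g x y z t X Y ex : ℕ) : Bool :=
  (fun L1 L2 L3 => tF (psub ex (phiK fam s1 s2 cn a b c n1 n2 pc p q g x y z t X Y)) L1
    (sl fam L2 L3) (sl fam L3 L2)) (sg s1 (n1.L.t p x)) (sg s2 (n2.L.t q x)) (pc.L.t X Y x)

/-- test at the near vertex -/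
noncomputable def kNK (N0 : ℕ) (fam s1 s2 : Bool) (cn : Con) (a b c : ℕ) (n1 n2 : Node)
    (pc : Piece) (p q : ℕ) (g x y z t X Y ex : ℕ) : Bool :=
  (fun L1 L2 L3 => tN (phn N0) (muT N0 x) x y z t
    (psub ex (phiK fam s1 s2 cn a b c n1 n2 pc p q g x y z t X Y)) L1 (sl fam L2 L3) (sl fam L3 L2))
    (sg s1 (n1.L.t p x)) (sg s2 (n2.L.t q x)) (pc.L.t X Y x)

/-- test function of a subfamily, far vertex -/
noncomputable def rowFK (co : ℕ) (fam s1 s2 : Bool) (cn : Con) (a b c : ℕ) (Q : Qs) (n1 n2 : Node)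
    (pc : Piece) (cut : Cut) (xt : Ext) (h u v x : ℕ) : Bool :=
  crds co fam n1 n2 Q (leaf fam s1 s2 n1 n2 cut xt (kFK fam s1 s2 cn a b c n1 n2 pc) h x) u v

/-- test function of a subfamily, near vertex -/
noncomputable def rowNK (N0 co : ℕ) (fam s1 s2 : Bool) (cn : Con) (a b c : ℕ) (Q : Qs)
    (n1 n2 : Node) (pc : Piece) (cut : Cut) (xt : Ext) (h u v x : ℕ) : Bool :=
  crds co fam n1 n2 Q (leaf fam s1 s2 n1 n2 cut xt (kNK N0 fam s1 s2 cn a b c n1 n2 pc) h x) u v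

/-- The slack at the far vertex for the level `γ` with the factor `k` of the kernel. -/
noncomputable def Val.farK (k : ℝ) (V : Val) (cn : Con) (a b c : ℕ) (γ : ℝ) : ℝ :=
  slc cn (levF V.ex V.l1 V.l2 V.l3) k V.x (V.y - jq a) (V.z - jq b) (V.y + V.z - jq c)
    V.R1 V.R2 V.R3 γ

/-- The slack at the near vertex for the level `γ` with the factor `k` of the kernel. -/
noncomputable def Val.nearK (k : ℝ) (V : Val) (N0 : ℕ) (cn : Con) (a b c : ℕ) (γ : ℝ) : ℝ :=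
  slc cn (levN N0 0 V.x V.y V.z V.ex V.l1 V.l2 V.l3) k V.x (V.y - jq a) (V.z - jq b)
    (V.y + V.z - jq c) V.R1 V.R2 V.R3 γ

theorem Val.farK_eq (V : Val) (cn : Con) (a b c : ℕ) (γ : ℝ) :
    V.farK (ken V.x) cn a b c γ = V.far cn a b c γ := rfl

theorem Val.nearK_eq (V : Val) (N0 : ℕ) (cn : Con) (a b c : ℕ) (γ : ℝ) :
    V.nearK (ken V.x) N0 cn a b c γ = V.near N0 cn a b c γ := rfl

section

variable {E : Pt} {N0 : ℕ} {fam s1 s2 : Bool} {a b c : ℕ} {cn : Con} {n1 n2 : Node} {pc : Piece}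
  {P Q X : ℕ} {p q x : ℝ}

theorem enc_phiK (hc : con a b c = some cn)
    (hp : Enc E P p) (hq : Enc E Q q) (hx : Enc E X x) (g : ℕ) {A Z T U Y : ℕ}
    (hA : Enc E A (valR fam s1 s2 n1 n2 pc p q x).y)
    (hZ : Enc E Z (valR fam s1 s2 n1 n2 pc p q x).z)
    (hT : Enc E T ((valR fam s1 s2 n1 n2 pc p q x).y + (valR fam s1 s2 n1 n2 pc p q x).z))
    (hU : Enc E U (valR fam s1 s2 n1 n2 pc p q x).X)
    (hY : Enc E Y (valR fam s1 s2 n1 n2 pc p q x).Y) (ex : ℝ) :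
    Enc E (phiK fam s1 s2 cn a b c n1 n2 pc P Q g X A Z T U Y)
      (ex - slc cn ex (kenS x) x ((valR fam s1 s2 n1 n2 pc p q x).y - jq a)
        ((valR fam s1 s2 n1 n2 pc p q x).z - jq b)
        ((valR fam s1 s2 n1 n2 pc p q x).y + (valR fam s1 s2 n1 n2 pc p q x).z - jq c)
        (valR fam s1 s2 n1 n2 pc p q x).R1 (valR fam s1 s2 n1 n2 pc p q x).R2
        (valR fam s1 s2 n1 n2 pc p q x).R3 (gar g)) := by
  have k1 := n1.K.enc hp hx
  have k2 := n2.K.enc hq hx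
  have k3 := enc_norm (pc.K.enc hU hY hx)
  have hu := enc_dj (jq a) hA
  have hv := enc_dj (jq b) hZ
  have hw := enc_dj (jq c) hT
  unfold phiK
  refine enc_rowPhi cn (enc_khS hx) hx hu (enc_neg hu) hv (enc_neg hv) hw (enc_neg hw)
    ?_ ?_ ?_ ?_ ?_ ?_ (enc_pga E g) (con_ok hc _ _) ex
  · cases fam <;> exact enc_sg s1 k1
  · cases fam <;> exact enc_sgn s1 k1
  · cases fam <;> exact enc_sl _ (enc_sg s2 k2) k3
  · cases fam <;> exact enc_sl _ (enc_sgn s2 k2) (enc_neg k3)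
  · cases fam <;> exact enc_sl _ k3 (enc_sg s2 k2)
  · cases fam <;> exact enc_sl _ (enc_neg k3) (enc_sgn s2 k2)

theorem kFK_sound (hc : con a b c = some cn)
    (hp : Enc E P p) (hq : Enc E Q q) (hx : Enc E X x) (g : ℕ) {A Z T U Y F : ℕ} {ex : ℝ}
    (hA : Enc E A (valR fam s1 s2 n1 n2 pc p q x).y)
    (hZ : Enc E Z (valR fam s1 s2 n1 n2 pc p q x).z)
    (hT : Enc E T ((valR fam s1 s2 n1 n2 pc p q x).y + (valR fam s1 s2 n1 n2 pc p q x).z))
    (hU : Enc E U (valR fam s1 s2 n1 n2 pc p q x).X)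
    (hY : Enc E Y (valR fam s1 s2 n1 n2 pc p q x).Y)
    (hF : Enc E F ex) (he : ex ≤ (valR fam s1 s2 n1 n2 pc p q x).ex)
    (h : kFK fam s1 s2 cn a b c n1 n2 pc P Q g X A Z T U Y F = true) :
    0 < (valR fam s1 s2 n1 n2 pc p q x).farK (kenS x) cn a b c (gar g) := by
  have hP := enc_phiK hc hp hq hx g hA hZ hT hU hY (valR fam s1 s2 n1 n2 pc p q x).ex
  obtain ⟨e1, e2, e3⟩ := enc_lev hp hq hx hU hY
  have := tF_sound (enc_sub hF hP) e1 e2 e3 h
  unfold Val.farK levF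
  rw [sub_eq_add_neg (valR fam s1 s2 n1 n2 pc p q x).ex, slc_add, valR_x]
  linarith

theorem kNK_sound (hc : con a b c = some cn)
    (hp : Enc E P p) (hq : Enc E Q q) (hx : Enc E X x) (g : ℕ) {A Z T U Y F : ℕ} {ex : ℝ}
    (hA : Enc E A (valR fam s1 s2 n1 n2 pc p q x).y)
    (hZ : Enc E Z (valR fam s1 s2 n1 n2 pc p q x).z)
    (hT : Enc E T ((valR fam s1 s2 n1 n2 pc p q x).y + (valR fam s1 s2 n1 n2 pc p q x).z))
    (hU : Enc E U (valR fam s1 s2 n1 n2 pc p q x).X)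
    (hY : Enc E Y (valR fam s1 s2 n1 n2 pc p q x).Y)
    (hF : Enc E F ex) (he : ex ≤ (valR fam s1 s2 n1 n2 pc p q x).ex)
    (h : kNK N0 fam s1 s2 cn a b c n1 n2 pc P Q g X A Z T U Y F = true) :
    0 < (valR fam s1 s2 n1 n2 pc p q x).nearK (kenS x) N0 cn a b c (gar g) := by
  have hP := enc_phiK hc hp hq hx g hA hZ hT hU hY (valR fam s1 s2 n1 n2 pc p q x).ex
  obtain ⟨e1, e2, e3⟩ := enc_lev hp hq hx hU hY
  have := tN_sound (enc_muT N0 hx) hx hA hZ hT (enc_sub hF hP) e1 e2 e3 h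
  unfold Val.nearK levN
  rw [slc_add, valR_x]
  linarith

end

section

variable {fam s1 s2 : Bool} {a b c N0 : ℕ} {cn : Con} {n1 n2 : Node} {pc : Piece} {cut : Cut}
  {xt : Ext} {P1 W1 P2 W2 P3 W3 : ℕ}

theorem snd_kFK (hc : con a b c = some cn) : Snd fam s1 s2 n1 n2 pc
    (kFK fam s1 s2 cn a b c n1 n2 pc)
    (fun p q x => ∃ g, 0 < (valR fam s1 s2 n1 n2 pc p q x).farK (kenS x) cn a b c g) :=
  fun h1 h2 h3 g _ _ _ _ _ _ _ hA hZ hT hU hY hF he hk =>
    ⟨_, kFK_sound hc h1 h2 h3 g hA hZ hT hU hY hF he hk⟩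

theorem snd_kNK (hc : con a b c = some cn) : Snd fam s1 s2 n1 n2 pc
    (kNK N0 fam s1 s2 cn a b c n1 n2 pc)
    (fun p q x => ∃ g, 0 < (valR fam s1 s2 n1 n2 pc p q x).nearK (kenS x) N0 cn a b c g) :=
  fun h1 h2 h3 g _ _ _ _ _ _ _ hA hZ hT hU hY hF he hk =>
    ⟨_, kNK_sound hc h1 h2 h3 g hA hZ hT hU hY hF he hk⟩

/-- the range of `x` lies in the open unit interval -/
theorem rng_unit {x : ℝ} (h0 : Nat.ble 1 P3 = true)
    (h1 : Nat.ble (Nat.add (Nat.add P3 W3) 1) 1073741824 = true) (hx : Rng P3 W3 x) :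
    0 < x ∧ x < 1 := by
  have g0 : 1 ≤ P3 := Nat.le_of_ble_eq_true h0
  have g1 : P3 + W3 + 1 ≤ 1073741824 := Nat.le_of_ble_eq_true h1
  have k0 : (1 : ℝ) ≤ P3 := by exact_mod_cast g0
  have k1 : (P3 : ℝ) + W3 + 1 ≤ 1073741824 := by exact_mod_cast g1
  obtain ⟨a, b⟩ := hx
  unfold S at a b
  push_cast at a b
  constructor
  · exact lt_of_lt_of_le (by positivity) a
  · refine lt_of_le_of_lt b ?_
    rw [div_lt_one (by norm_num)]
    linarith

theorem certK_far (h0 : Nat.ble 1 P3 = true)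
    (h1 : Nat.ble (Nat.add (Nat.add P3 W3) 1) 1073741824 = true)
    (h : Cert P1 W1 P2 W2 P3 W3 fun p q x =>
      (valR fam s1 s2 n1 n2 pc p q x).alt (cond fam c b) cut ∨ xt.P p q x ∨
        ∃ g, 0 < (valR fam s1 s2 n1 n2 pc p q x).farK (kenS x) cn a b c g) :
    CertF P1 W1 P2 W2 P3 W3 fam s1 s2 cn a b c n1 n2 pc cut xt := by
  intro p q x hp hq hx
  obtain ⟨g0, g1⟩ := rng_unit h0 h1 hx
  rcases h hp hq hx with h | h | ⟨g, h⟩
  · exact Or.inl h
  · exact Or.inr (Or.inl h)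
  · refine Or.inr (Or.inr ⟨g, ?_⟩)
    rw [kenS_eq g0 g1] at h
    rw [← Val.farK_eq, valR_x]
    exact h

theorem certK_near (h0 : Nat.ble 1 P3 = true)
    (h1 : Nat.ble (Nat.add (Nat.add P3 W3) 1) 1073741824 = true)
    (h : Cert P1 W1 P2 W2 P3 W3 fun p q x =>
      (valR fam s1 s2 n1 n2 pc p q x).alt (cond fam c b) cut ∨ xt.P p q x ∨
        ∃ g, 0 < (valR fam s1 s2 n1 n2 pc p q x).nearK (kenS x) N0 cn a b c g) :
    CertN P1 W1 P2 W2 P3 W3 N0 fam s1 s2 cn a b c n1 n2 pc cut xt := by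
  intro p q x hp hq hx
  obtain ⟨g0, g1⟩ := rng_unit h0 h1 hx
  rcases h hp hq hx with h | h | ⟨g, h⟩
  · exact Or.inl h
  · exact Or.inr (Or.inl h)
  · refine Or.inr (Or.inr ⟨g, ?_⟩)
    rw [kenS_eq g0 g1] at h
    rw [← Val.nearK_eq, valR_x]
    exact h

/-- **A row at the far vertex** from its certificate, coordinates of both nodes. -/
theorem certFK0 (h0 : Nat.ble 1 P3 = true)
    (h1 : Nat.ble (Nat.add (Nat.add P3 W3) 1) 1073741824 = true)
    (hc : con a b c = some cn) (ht : ∃ t, chk3 (onCell P1 W1 P2 W2 P3 W3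
      (rowFK 0 fam s1 s2 cn a b c
        (qsf P1 W1 P2 W2 (cond fam c b)) n1 n2 pc cut xt)) t 1 1 1 = true) :
    CertF P1 W1 P2 W2 P3 W3 fam s1 s2 cn a b c n1 n2 pc cut xt :=
  certK_far h0 h1 (crd0_sound (snd_kFK hc) ht)

/-- **A row at the far vertex** from its certificate, first node and third height. -/
theorem certFK1 (h0 : Nat.ble 1 P3 = true)
    (h1 : Nat.ble (Nat.add (Nat.add P3 W3) 1) 1073741824 = true)
    (hc : con a b c = some cn) (hid : ∀ q, n2.Y.v q = q)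
    (ht : ∃ t, chk3 (onCell P1 W1 (Nat.mul (cond fam c b) 536870912) 536870912 P3 W3
      (rowFK 1 fam s1 s2 cn a b c
        (qsf P1 W1 P2 W2 (cond fam c b)) n1 n2 pc cut xt)) t 1 1 1 = true) :
    CertF P1 W1 P2 W2 P3 W3 fam s1 s2 cn a b c n1 n2 pc cut xt :=
  certK_far h0 h1 (crd1_sound (snd_kFK hc) hid ht)

/-- **A row at the far vertex** from its certificate, third height and second node. -/
theorem certFK2 (h0 : Nat.ble 1 P3 = true)
    (h1 : Nat.ble (Nat.add (Nat.add P3 W3) 1) 1073741824 = true)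
    (hc : con a b c = some cn) (hid : ∀ p, n1.Y.v p = p)
    (ht : ∃ t, chk3 (onCell (Nat.mul (cond fam c b) 536870912) 536870912 P2 W2 P3 W3
      (rowFK 2 fam s1 s2 cn a b c
        (qsf P1 W1 P2 W2 (cond fam c b)) n1 n2 pc cut xt)) t 1 1 1 = true) :
    CertF P1 W1 P2 W2 P3 W3 fam s1 s2 cn a b c n1 n2 pc cut xt :=
  certK_far h0 h1 (crd2_sound (snd_kFK hc) hid ht)

/-- **A row at the near vertex** from its certificate, coordinates of both nodes. -/
theorem certNK0 (h0 : Nat.ble 1 P3 = true)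
    (h1 : Nat.ble (Nat.add (Nat.add P3 W3) 1) 1073741824 = true)
    (hc : con a b c = some cn) (ht : ∃ t, chk3 (onCell P1 W1 P2 W2 P3 W3
      (rowNK N0 0 fam s1 s2 cn a b c
        (qsf P1 W1 P2 W2 (cond fam c b)) n1 n2 pc cut xt)) t 1 1 1 = true) :
    CertN P1 W1 P2 W2 P3 W3 N0 fam s1 s2 cn a b c n1 n2 pc cut xt :=
  certK_near h0 h1 (crd0_sound (snd_kNK hc) ht)

/-- **A row at the near vertex** from its certificate, first node and third height. -/
theorem certNK1 (h0 : Nat.ble 1 P3 = true)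
    (h1 : Nat.ble (Nat.add (Nat.add P3 W3) 1) 1073741824 = true)
    (hc : con a b c = some cn) (hid : ∀ q, n2.Y.v q = q)
    (ht : ∃ t, chk3 (onCell P1 W1 (Nat.mul (cond fam c b) 536870912) 536870912 P3 W3
      (rowNK N0 1 fam s1 s2 cn a b c
        (qsf P1 W1 P2 W2 (cond fam c b)) n1 n2 pc cut xt)) t 1 1 1 = true) :
    CertN P1 W1 P2 W2 P3 W3 N0 fam s1 s2 cn a b c n1 n2 pc cut xt :=
  certK_near h0 h1 (crd1_sound (snd_kNK hc) hid ht)

/-- **A row at the near vertex** from its certificate, third height and second node. -/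
theorem certNK2 (h0 : Nat.ble 1 P3 = true)
    (h1 : Nat.ble (Nat.add (Nat.add P3 W3) 1) 1073741824 = true)
    (hc : con a b c = some cn) (hid : ∀ p, n1.Y.v p = p)
    (ht : ∃ t, chk3 (onCell (Nat.mul (cond fam c b) 536870912) 536870912 P2 W2 P3 W3
      (rowNK N0 2 fam s1 s2 cn a b c
        (qsf P1 W1 P2 W2 (cond fam c b)) n1 n2 pc cut xt)) t 1 1 1 = true) :
    CertN P1 W1 P2 W2 P3 W3 N0 fam s1 s2 cn a b c n1 n2 pc cut xt :=
  certK_near h0 h1 (crd2_sound (snd_kNK hc) hid ht)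

end

end Pool.Agent.Strip051.PB
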