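import Pool.Agent.Strip051.PB.RowS

/-! # Exclusion alternatives as data

An alternative is a conjunction of conditions: a height lies within `d` of `n`, `n + x` or `n - x`,
or the square of the length of the third side is less or greater than `d`. -/

namespace Pool.Agent.Strip051.PB

attribute [local irreducible] padd psub pneg pmul psq pinv psqrt psqrtg pabs pps pmax pmin pphi plam
  pcase phf pnat prat pscale pnorm pdc pnc pone ppos pnn Enc

/-- A condition; `k = 0, 1, 2`: the height of the side bottom-middle, middle-top, bottom-top is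
within `d / 2 ^ 30` of `n` (`s = 0`), `n + x` (`s = 1`), `n - x` (`s = 2`); `k = 3`, `4`: the square
of the third side is less, greater than `d / 2 ^ 30`. -/
structure Cc where
  (k n s d : ℕ)

/-- shifted integer -/
noncomputable def Cc.cen (c : Cc) (x : ℝ) : ℝ :=
  match c.s with
  | 0 => c.n
  | 1 => c.n + x
  | _ => c.n - x

/-- The condition on `x`, the heights `y`, `z` and the third side `X`, `Y`. -/
def Cc.P (c : Cc) (x y z X Y : ℝ) : Prop :=
  match c.k with
  | 0 => |y - c.cen x| < (c.d : ℝ) / 1073741824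
  | 1 => |z - c.cen x| < (c.d : ℝ) / 1073741824
  | 2 => |y + z - c.cen x| < (c.d : ℝ) / 1073741824
  | 3 => qqn X Y < (c.d : ℝ) / 1073741824
  | _ => (c.d : ℝ) / 1073741824 < qqn X Y

/-- shifted integer -/
noncomputable def Cc.cenT (c : Cc) (x : ℕ) : ℕ :=
  Nat.rec (motive := fun _ => ℕ) (pnc c.n)
    (fun s _ => Nat.rec (motive := fun _ => ℕ) (padd (pnc c.n) x)
      (fun _ _ => psub (pnc c.n) x) s) c.s

/-- test of a condition on a height -/
noncomputable def Cc.tY (c : Cc) (x y : ℕ) : Bool := ppos (psub (pdc c.d 0) (pabs (psub y (c.cenT x))))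

/-- test of a condition -/
noncomputable def Cc.t (c : Cc) (x y z X Y : ℕ) : Bool :=
  Nat.rec (motive := fun _ => Bool) (c.tY x y)
    (fun k _ => Nat.rec (motive := fun _ => Bool) (c.tY x z)
      (fun k _ => Nat.rec (motive := fun _ => Bool) (c.tY x (padd y z))
        (fun k _ => Nat.rec (motive := fun _ => Bool) (ppos (psub (pdc c.d 0) (qqT X Y)))
          (fun _ _ => ppos (psub (qqT X Y) (pdc c.d 0))) k) k) k) c.k

section

variable {E : Pt} {c : Cc} {X Y Z U V : ℕ} {x y z u v : ℝ}

theorem Cc.enc_cen (hx : Enc E X x) : Enc E (c.cenT X) (c.cen x) := by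
  unfold Cc.cenT Cc.cen
  match c.s with
  | 0 => exact enc_pnc E c.n
  | 1 => exact enc_add (enc_pnc E c.n) hx
  | n + 2 => exact enc_sub (enc_pnc E c.n) hx

theorem Cc.enc_d (E : Pt) (d : ℕ) : Enc E (pdc d 0) ((d : ℝ) / 1073741824) := by
  refine enc_cast (enc_dc E d 0) ?_
  unfold S
  push_cast
  ring

theorem Cc.tY_sound (hx : Enc E X x) (hy : Enc E Y y) (h : c.tY X Y = true) :
    |y - c.cen x| < (c.d : ℝ) / 1073741824 := by
  have := ppos_sound (enc_sub (Cc.enc_d E c.d) (enc_abs (enc_sub hy (Cc.enc_cen hx)))) h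
  linarith

theorem Cc.t_sound (hx : Enc E X x) (hy : Enc E Y y) (hz : Enc E Z z) (hu : Enc E U u)
    (hv : Enc E V v) (h : c.t X Y Z U V = true) : c.P x y z u v := by
  unfold Cc.t at h
  unfold Cc.P
  match hk : c.k with
  | 0 => rw [hk] at h; exact Cc.tY_sound hx hy h
  | 1 => rw [hk] at h; exact Cc.tY_sound hx hz h
  | 2 => rw [hk] at h; exact Cc.tY_sound hx (enc_add hy hz) h
  | 3 =>
    rw [hk] at h
    have := ppos_sound (enc_sub (Cc.enc_d E c.d) (enc_qqT hu hv)) h
    show qqn u v < _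
    linarith
  | n + 4 =>
    rw [hk] at h
    have := ppos_sound (enc_sub (enc_qqT hu hv) (Cc.enc_d E c.d)) h
    show _ < qqn u v
    linarith

end

/-- all conditions hold -/
noncomputable def ccAll (l : List Cc) (x y z X Y : ℕ) : Bool :=
  List.rec (motive := fun _ => Bool) true (fun c _ ih => band (c.t x y z X Y) ih) l

theorem ccAll_sound {E : Pt} {X Y Z U V : ℕ} {x y z u v : ℝ} (hx : Enc E X x) (hy : Enc E Y y)
    (hz : Enc E Z z) (hu : Enc E U u) (hv : Enc E V v) (l : List Cc)
    (h : ccAll l X Y Z U V = true) : ∀ c ∈ l, c.P x y z u v := by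
  induction l with
  | nil => intro c hc; exact absurd hc List.not_mem_nil
  | cons d l ih =>
    obtain ⟨h1, h2⟩ := band_true (show band (d.t X Y Z U V) (ccAll l X Y Z U V) = true from h)
    intro c hc
    rcases List.mem_cons.1 hc with rfl | hc
    · exact Cc.t_sound hx hy hz hu hv h1
    · exact ih h2 c hc

/-- the alternative with the number `i` -/
noncomputable def ccNth (L : List (List Cc)) (i x y z X Y : ℕ) : Bool :=
  List.rec (motive := fun _ => ℕ → Bool) (fun _ => false)
    (fun l _ ih i => Nat.rec (motive := fun _ => Bool) (ccAll l x y z X Y) (fun i _ => ih i) i) L i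

theorem ccNth_sound {E : Pt} {X Y Z U V : ℕ} {x y z u v : ℝ} (hx : Enc E X x) (hy : Enc E Y y)
    (hz : Enc E Z z) (hu : Enc E U u) (hv : Enc E V v) (L : List (List Cc)) :
    ∀ i, ccNth L i X Y Z U V = true → ∃ l ∈ L, ∀ c ∈ l, c.P x y z u v := by
  induction L with
  | nil => intro i h; exact absurd (show false = true from h) (by decide)
  | cons l L ih =>
    intro i h
    match i, h with
    | 0, h =>
      exact ⟨l, List.mem_cons_self, ccAll_sound hx hy hz hu hv l h⟩
    | i + 1, h =>
      obtain ⟨l', h1, h2⟩ := ih i h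
      exact ⟨l', List.mem_cons_of_mem _ h1, h2⟩

/-- The alternatives of a list. -/
noncomputable def Cut.of (L : List (List Cc)) : Cut where
  t := ccNth L
  P x y z X Y := ∃ l ∈ L, ∀ c ∈ l, c.P x y z X Y
  snd hx hy hz hu hv h := ccNth_sound hx hy hz hu hv L _ h

/-- no alternative -/
noncomputable def Cut.none : Cut := Cut.of []

theorem Cut.none_P {x y z X Y : ℝ} : ¬ Cut.none.P x y z X Y := by
  rintro ⟨l, h, -⟩
  exact absurd h List.not_mem_nil

/-- the identity -/
noncomputable def idf : Fn1 := ⟨fun A => A, fun a => a, fun h => h⟩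

/-! ### Assembly of chunks -/

section

variable {f : Nat → Nat → Nat → Nat → Bool} {x y z : Nat}

theorem ex3_a (h : ∃ t, chk3 f t (Nat.mul 2 x) y z = true)
    (h' : ∃ t, chk3 f t (Nat.add (Nat.mul 2 x) 1) y z = true) : ∃ t, chk3 f t x y z = true := by
  obtain ⟨s, hs⟩ := h
  obtain ⟨t, ht⟩ := h'
  exact ⟨T.a s t, chk3_a hs ht⟩

theorem ex3_b (h : ∃ t, chk3 f t x (Nat.mul 2 y) z = true)
    (h' : ∃ t, chk3 f t x (Nat.add (Nat.mul 2 y) 1) z = true) : ∃ t, chk3 f t x y z = true := by
  obtain ⟨s, hs⟩ := h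
  obtain ⟨t, ht⟩ := h'
  exact ⟨T.b s t, chk3_b hs ht⟩

theorem ex3_c (h : ∃ t, chk3 f t x y (Nat.mul 2 z) = true)
    (h' : ∃ t, chk3 f t x y (Nat.add (Nat.mul 2 z) 1) = true) : ∃ t, chk3 f t x y z = true := by
  obtain ⟨s, hs⟩ := h
  obtain ⟨t, ht⟩ := h'
  exact ⟨T.c s t, chk3_c hs ht⟩

end

end Pool.Agent.Strip051.PB
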