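import Pool.Agent.Strip051.PB.Bridge
import Pool.Agent.Strip051.PB.Cuts

/-! # The alternatives of a list of exclusions

The excluded region of a triple is a list of conjunctions; the statement is proved for each entry of
the list and the proofs are chained. -/

namespace Pool.Agent.Strip051.PB

open Pool.Agent.StripNear Pool.Agent.StripSquare Pool.Agent.Strip051.Sweep
open Pool.Agent.Strip051.LC

variable {n : ℕ}

/-- The statement holds where all conditions of the list hold, family `A`. -/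
def AltA (V : ℝ → ℝ → ℝ → ℝ → ℝ × ℝ × ℝ → ℝ × ℝ × ℝ → Prop) (P : Pos n)
    (RK RL : Fin (n + 1) → ℕ → ℝ → ℝ → ℝ) (pc : ℕ → Piece) (l : List Cc)
    (a b c : ℕ) (j k : Fin (n + 1)) (σ σ' x : ℝ) : Prop :=
  ∀ y y', FactsA P a b c j k σ σ' y y' →
    (∀ d ∈ l, d.P x y y' (σ * crv P j a y + σ' * crv P k b y') (y + y')) →
    StA V P RK RL pc a b c j k σ σ' x y y'

/-- The statement holds where all conditions of the list hold, family `B`. -/
def AltB (V : ℝ → ℝ → ℝ → ℝ → ℝ × ℝ × ℝ → ℝ × ℝ × ℝ → Prop) (P : Pos n)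
    (RK RL : Fin (n + 1) → ℕ → ℝ → ℝ → ℝ) (pc : ℕ → Piece) (l : List Cc)
    (a b c : ℕ) (j k : Fin (n + 1)) (σ σ' x : ℝ) : Prop :=
  ∀ y y', FactsB P a b c j k σ σ' y y' →
    (∀ d ∈ l, d.P x y y' (σ' * crv P k c (y + y') - σ * crv P j a y) y') →
    StB V P RK RL pc a b c j k σ σ' x y y'

section

variable {V : ℝ → ℝ → ℝ → ℝ → ℝ × ℝ × ℝ → ℝ × ℝ × ℝ → Prop} {P : Pos n}
  {RK RL : Fin (n + 1) → ℕ → ℝ → ℝ → ℝ} {pc : ℕ → Piece} {l l' : List Cc} {L : List (List Cc)}
  {a b c : ℕ} {j k : Fin (n + 1)} {σ σ' x : ℝ}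

theorem AltA.sub (h : ∀ d ∈ l, d ∈ l') (H : AltA V P RK RL pc l a b c j k σ σ' x) :
    AltA V P RK RL pc l' a b c j k σ σ' x :=
  fun y y' F hd => H y y' F fun d hl => hd d (h d hl)

theorem AltB.sub (h : ∀ d ∈ l, d ∈ l') (H : AltB V P RK RL pc l a b c j k σ σ' x) :
    AltB V P RK RL pc l' a b c j k σ σ' x :=
  fun y y' F hd => H y y' F fun d hl => hd d (h d hl)

theorem cutA_nil : CutA V P RK RL pc (Cut.of []) a b c j k σ σ' x := by
  rintro y y' F ⟨l, h, -⟩
  exact absurd h List.not_mem_nil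

theorem cutB_nil : CutB V P RK RL pc (Cut.of []) a b c j k σ σ' x := by
  rintro y y' F ⟨l, h, -⟩
  exact absurd h List.not_mem_nil

theorem cutA_cons (h : AltA V P RK RL pc l a b c j k σ σ' x)
    (H : CutA V P RK RL pc (Cut.of L) a b c j k σ σ' x) :
    CutA V P RK RL pc (Cut.of (l :: L)) a b c j k σ σ' x := by
  rintro y y' F ⟨m, hm, hc⟩
  rcases List.mem_cons.1 hm with rfl | hm
  · exact h y y' F hc
  · exact H y y' F ⟨m, hm, hc⟩

theorem cutB_cons (h : AltB V P RK RL pc l a b c j k σ σ' x)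
    (H : CutB V P RK RL pc (Cut.of L) a b c j k σ σ' x) :
    CutB V P RK RL pc (Cut.of (l :: L)) a b c j k σ σ' x := by
  rintro y y' F ⟨m, hm, hc⟩
  rcases List.mem_cons.1 hm with rfl | hm
  · exact h y y' F hc
  · exact H y y' F ⟨m, hm, hc⟩

end

end Pool.Agent.Strip051.PB
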