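import Pool.Agent.Strip051.PB.FactC
import Pool.Agent.Strip051.LC.Exact.Tent

/-! # Facts for both vertices: density with two tents, the row of the height one -/

namespace Pool.Agent.Strip051.PB

open Pool.Agent.StripNear Pool.Agent.StripSquare Pool.Agent.Strip051.Sweep
open Pool.Agent.Strip051.LC

section

variable {n : ℕ} {P : Pos n} {RK RL RC : Fin (n + 1) → ℕ → ℝ → ℝ → ℝ} {j : Fin (n + 1)}
  {q W W' : ℕ} {crd : Fin (n + 1) → ℕ → ℝ → ℝ}

theorem atC_main {nd : Node} {nc : Fn2} {fK fL fC : Fin (n + 1) → ℕ → Fn2} {x y : ℝ}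
    (hY : ∀ y, OnC j q y → nd.Y.v (crd j q y) = y)
    (hX : ∀ y, OnC j q y → nd.X.v (crd j q y) = crv P j q y)
    (hK : nd.K = fK j q) (hL : nd.L = fL j q) (hC : nc = fC j q) (hy : OnC j q y) :
    AtC P (tbF fK crd) (tbF fL crd) (tbF fC crd) nd nc j q y (crd j q y) x :=
  ⟨at_main hY hX hK hL hy, by rw [tbF_on hy, hC]⟩

/-- A node in the coordinate of the tables. -/
theorem covC_main {nd : Node} {nc : Fn2} {fK fL fC : Fin (n + 1) → ℕ → Fn2} {x : ℝ}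
    (hY : ∀ y, OnC j q y → nd.Y.v (crd j q y) = y)
    (hX : ∀ y, OnC j q y → nd.X.v (crd j q y) = crv P j q y)
    (hK : nd.K = fK j q) (hL : nd.L = fL j q) (hC : nc = fC j q) (b : BoxC crd j q W W') :
    CovC P (tbF fK crd) (tbF fL crd) (tbF fC crd) nd nc j q W W' (fun _ => True) x := by
  intro y hy _
  exact ⟨_, atC_main hY hX hK hL hC hy, b y hy⟩

/-- A variant of a node. -/
theorem covC_var {nd : Node} {nc : Fn2} {x lo hi : ℝ}
    {V : ℝ → Prop} (p : ℝ → ℝ)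
    (hA : ∀ y, OnC j q y → V y → AtC P RK RL RC nd nc j q y (p y) x)
    (hb : ∀ y, OnC j q y → V y → lo ≤ p y ∧ p y ≤ hi) (h1 : (W : ℝ) ≤ lo * 1073741824)
    (h2 : hi * 1073741824 ≤ (W : ℝ) + W') : CovC P RK RL RC nd nc j q W W' V x :=
  fun y hy hv => ⟨_, hA y hy hv, inRt_of (hb y hy hv) h1 h2⟩

end

/-! ### A factor of the third kernel -/

theorem seg1_smul (E x0 x1 v0 v1 X : ℝ) :
    seg1 x0 x1 (E * v0) (E * v1) X = E * seg1 x0 x1 v0 v1 X := by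
  unfold seg1
  ring

theorem itp1_smul (E : ℝ) : ∀ (l : List (ℝ × ℝ)) (x0 v0 X : ℝ),
    itp1 x0 (E * v0) (l.map fun p => (p.1, E * p.2)) X = E * itp1 x0 v0 l X
  | [], _, _, _ => rfl
  | [p], x0, v0, X => seg1_smul E x0 p.1 v0 p.2 X
  | p :: q :: l, x0, v0, X => by
    have ih := itp1_smul E (q :: l) p.1 p.2 X
    simp only [List.map_cons, itp1] at ih ⊢
    split_ifs
    · exact seg1_smul E x0 p.1 v0 p.2 X
    · exact ih

theorem oddx_smul (E : ℝ) {f g : ℝ → ℝ} (h : ∀ X, g X = E * f X) (X : ℝ) :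
    oddx g X = E * oddx f X := by
  unfold oddx
  split_ifs
  · rw [h]
    ring
  · exact h X

section

variable {n : ℕ} {P : Pos n} {crd : Fin (n + 1) → ℕ → ℝ → ℝ} {RK RL : Fin (n + 1) → ℕ → ℝ → ℝ → ℝ}
  {fn : Fin (n + 1) → ℕ → Fn2} {pd : ℕ → Fn3} {F : Fn1} {x : ℝ}

theorem thd_smul {R R' : Fin (n + 1) → ℕ → ℝ → ℝ → ℝ} {E : ℝ} {q : ℕ} {X y : ℝ}
    (h : ∀ j, R' j q y x = E * R j q y x) : thd P R' q X y x = E * thd P R q X y x := by
  unfold thd
  refine oddx_smul E (fun X => ?_) X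
  have e : (List.ofFn fun i : Fin n => (crv P i.succ q y, R' i.succ q y x)) =
      (List.ofFn fun i : Fin n => (crv P i.succ q y, R i.succ q y x)).map
        fun p => (p.1, E * p.2) := by
    rw [List.map_ofFn]
    congr 1
    funext i
    simp only [Function.comp_apply, h]
  rw [e, h 0, itp1_smul]

/-- The table with a factor. -/
noncomputable abbrev scT (F : Fn1) (fn : Fin (n + 1) → ℕ → Fn2) (j : Fin (n + 1)) (q : ℕ) : Fn2 :=
  Fn2.sc F (fn j q)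

/-- The third sides with a factor. -/
noncomputable abbrev scP (F : Fn1) (pd : ℕ → Fn3) (q : ℕ) : Fn3 := Fn3.sc F (pd q)

theorem tbF_sc (j : Fin (n + 1)) (q : ℕ) (y x : ℝ) :
    tbF (scT F fn) crd j q y x = F.v x * tbF fn crd j q y x := by
  unfold tbF
  split_ifs
  · rw [mul_zero]
  · rfl

theorem pins_sc (h : Pins P (tbF fn crd) x) : Pins P (tbF (scT F fn) crd) x := by
  have h' := h.smul (F.v x)
  have e : ∀ j q y, tbF (scT F fn) crd j q y x = smT (F.v x) (tbF fn crd) j q y x :=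
    fun j q y => tbF_sc j q y x
  exact ⟨fun q y h1 h2 => (e _ _ _).trans (h'.one q y h1 h2),
    fun j hj => by rw [e, e]; exact h'.zero j hj, fun j hj => by rw [e, e]; exact h'.mid j hj,
    fun j => (e _ _ _).trans (h'.top j), by
      obtain ⟨C, hC⟩ := h'.bdd
      exact ⟨C, fun j q y hq => by rw [e]; exact hC j q y hq⟩⟩

theorem ThrOk.sc (h : ThrOk P (tbF fn crd) pd x) : ThrOk P (tbF (scT F fn) crd) (scP F pd) x where
  pin := pins_sc h.pin
  th q X y hq h1 h3 := by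
    rw [thd_smul (E := F.v x) (R := tbF fn crd) (fun j => tbF_sc j q y x), h.th q X y hq h1 h3]
    rfl

variable {nd : Node} {c : Fn2} {j : Fin (n + 1)} {q W W' : ℕ} {y p : ℝ} {V : ℝ → Prop}

theorem AtC.sc (h : AtC P RK RL (tbF fn crd) nd c j q y p x) :
    AtC P RK RL (tbF (scT F fn) crd) nd (Fn2.sc F c) j q y p x :=
  ⟨h.toAt, by rw [tbF_sc, ← h.C]; rfl⟩

theorem CovC.sc (h : CovC P RK RL (tbF fn crd) nd c j q W W' V x) :
    CovC P RK RL (tbF (scT F fn) crd) nd (Fn2.sc F c) j q W W' V x := by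
  intro y hy hv
  obtain ⟨p, h1, h2⟩ := h y hy hv
  exact ⟨p, h1.sc, h2⟩

end

/-- `0 ≤ e x ≤ 31 / 200` -/
theorem esn_rng {x : ℝ} (h0x : 0 ≤ x) (h1x : x ≤ 1) : 0 ≤ esn x ∧ esn x ≤ 31 / 200 := by
  have h1 : 3 / 4 * x ^ 2 ≤ 1 := by nlinarith
  have h2 : c1n x ^ 2 = 1 - 3 / 4 * x ^ 2 := c1n_sq h1
  have h3 : 0 ≤ c1n x := Real.sqrt_nonneg _
  unfold esn
  constructor
  · by_contra h
    rw [not_le] at h
    have h4 : c1n x < 1 - x / 2 := by linarith
    nlinarith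
  · have h5 : (x / 2 + c1n x) ^ 2 ≤ 4 / 3 := by nlinarith [sq_nonneg (x - 2 / 3 * c1n x)]
    nlinarith

theorem tnt_osc' {x th : ℝ} (h0t : 0 < th) (ht1 : th ≤ 1) (hx0 : 0 < x) (hx1 : x < 1) (a b : ℝ) :
    |∫ u in a..b, tnt (h0 * x) th u| ≤ h0 * (th / 4) := by
  have hp := h0_pos
  have := tnt_osc h0t ht1 (mul_pos hp hx0) (by nlinarith : h0 * x < h0) a b
  calc _ ≤ th * h0 / 4 := this
    _ = _ := by ring

theorem tnt_den {x th : ℝ} (h0t : 0 < th) (ht1 : th ≤ 1) (hx0 : 0 < x) (hx1 : x < 1) :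
    DenOk (tnt (h0 * x) th) (h0 * x) := by
  have hp := h0_pos
  exact tnt_denOk h0t ht1 (mul_pos hp hx0) (by nlinarith : h0 * x < h0)

/-- `0 ≤ c + μ (v - h o (2 |h⁻¹ w|))` -/
theorem oneE_of {c v w o x : ℝ} {N0 : ℕ} (hN : 1 ≤ N0) (hc : 0 ≤ c)
    (h : 0 ≤ v - 2 * o * |w| + N0 * c) :
    0 ≤ c + mun N0 x * (v - h0 * o * (2 * |h0⁻¹ * w|)) := by
  have hp := h0_pos
  have e : v - h0 * o * (2 * |h0⁻¹ * w|) = v - 2 * o * |w| := by
    rw [abs_mul, abs_of_pos (inv_pos.2 hp)]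
    field_simp
  rw [e]
  exact one_of hN hc h

/-- The bound for the third kernel from two rational bounds. -/
theorem sub_abs {v w o B : ℝ} (ho : 0 ≤ o) (hw : |w| ≤ B) {c : ℝ} (h : 0 ≤ v - 2 * o * B + c) :
    0 ≤ v - 2 * o * |w| + c := by
  nlinarith

/-- the test `0 < F` -/
noncomputable def posR (F : Fn1) (_ _ _ C : ℕ) : Bool := ppos (F.t C)

theorem pos_sound {F : Fn1} {P3 W3 : ℕ}
    (ht : ∃ t, chk3 (onCell 0 0 0 0 P3 W3 (posR F)) t 1 1 1 = true) {x : ℝ}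
    (hx : (P3 : ℝ) / S ≤ x) (hx' : x ≤ ((P3 : ℝ) + W3) / S) : 0 < F.v x := by
  have key := onCell_sound (Q := fun _ _ x => 0 < F.v x) ?_ ht (p := 0) (by norm_num)
    (by norm_num) (q := 0) (by norm_num) (by norm_num) hx hx'
  · exact key
  · intro E h A B C p q x _ _ h3 hl
    exact ppos_sound (F.enc h3) hl

end Pool.Agent.Strip051.PB
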