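import Pool.Agent.Strip051.PB.CGood
import Pool.Agent.Strip051.PB.FactE

/-! # The costs of a table from the certificates and the facts of the table -/

namespace Pool.Agent.Strip051.PB

open Pool.Agent.StripNear Pool.Agent.StripSquare Pool.Agent.Strip051.Sweep
open Pool.Agent.Strip051.LC
open Pool.Agent.Strip051.LC.Box (Aff affv mnv cbv)

/-- The certificate of a cell. -/
def CertC (P1 W1 P3 W3 : ℕ) (m0 m1 : CN) (Y w1 w2 w3 : Fn1) (a : ℕ) (C : List (List Aff)) : Prop :=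
  ∃ t, chk3 (onCell P1 W1 0 0 P3 W3 (crow m0 m1 Y w1 w2 w3 a C)) t 1 1 1 = true

/-! ### The ranges of the coordinates -/

theorem rng_0 {y : ℝ} (h : InQ 0 y) : Rng 0 536870912 y :=
  inRt_of (lo := 0) (hi := 1 / 2) ⟨h.1, h.2.le⟩ (by norm_num) (by norm_num)

theorem rng_1 {y : ℝ} (h : InQ 1 y) : Rng 536870912 536870912 y :=
  inRt_of (lo := 1 / 2) (hi := 1) ⟨h.1, h.2.le⟩ (by norm_num) (by norm_num)

theorem rng_2a {y : ℝ} (h : InQ 2 y) : Rng 0 536870912 (c1n y) :=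
  inRt_of (lo := 0) (hi := 1 / 2) (c1n_half h.1) (by norm_num) (by norm_num)

theorem rng_2b {y : ℝ} (h : InQ 2 y) (h1 : 1 ≤ h0 * y) : Rng 1239849684 370763052 y :=
  inRt_of (lo := 11547 / 10000) (hi := 3 / 2) ⟨(lt_off h1).le, h.2.le⟩ (by norm_num) (by norm_num)

theorem rng_3 {y : ℝ} (h : InQ 3 y) : Rng 0 1230186008 (c3n y) :=
  inRt_of (lo := 0) (hi := 11457 / 10000) (c3n_box h.1) (by norm_num) (by norm_num)

theorem off_3 {y : ℝ} (h : InQ 3 y) : 1 ≤ h0 * y := by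
  have h1 := h0_sq
  have h2 := h0_pos
  have h3 := h.1
  nlinarith

theorem on_lo {y : ℝ} (h : y ≤ 1) : h0 * y < 1 := by
  have h1 := h0_lt_one
  have h2 := h0_pos
  nlinarith

theorem on_0 {y : ℝ} (h : InQ 0 y) : h0 * y < 1 := on_lo (by linarith [h.2])

theorem on_1 {y : ℝ} (h : InQ 1 y) : h0 * y < 1 := on_lo h.2.le

section

variable {n : ℕ} {P : Pos n} {RK RL RC : Fin (n + 1) → ℕ → ℝ → ℝ → ℝ} {nd : Node}
  {j : Fin (n + 1)} {q : ℕ} {y p x w u : ℝ}

/-! ### The points of the curves -/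

theorem At.atN (h : At P RK RL nd j q y p x) :
    AtN (crv P) RK RL zrT (zrF.v x) 0 (CN.nd nd zrG) j q y p x :=
  ⟨h.X, h.K, h.L, by show (0 : ℝ) * 0 = 0 * 0; ring⟩

theorem At.atNc (h : At P RK RL nd j q y y x) {G : Fn1} (hG : G.v p = y) :
    AtN (crv P) RK RL zrT (zrF.v x) 0 (CN.ndc nd zrG G) j q y p x := by
  refine ⟨?_, ?_, ?_, by show (0 : ℝ) * 0 = 0 * 0; ring⟩
  · show nd.X.v (G.v p) = _
    rw [hG]
    exact h.X
  · show nd.K.v (G.v p) x = _
    rw [hG]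
    exact h.K
  · show nd.L.v (G.v p) x = _
    rw [hG]
    exact h.L

/-- with the third kernel -/
theorem AtC.atN {c : Fn2} {e : Fn1} (h : AtC P RK RL RC nd (Fn2.sc e c) j q y p x)
    (hw : w = u * e.v x) : AtN (crv P) RK RL RC w u (CN.nd nd c) j q y p x := by
  refine ⟨h.X, h.K, h.L, ?_⟩
  have e1 : e.v x * c.v p x = RC j q y x := h.C
  show w * c.v p x = _
  rw [← e1, hw]
  ring

theorem AtC.atNc {c : Fn2} {e : Fn1} (h : AtC P RK RL RC nd (Fn2.sc e c) j q y y x) {G : Fn1}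
    (hG : G.v p = y) (hw : w = u * e.v x) :
    AtN (crv P) RK RL RC w u (CN.ndc nd c G) j q y p x := by
  have e1 : e.v x * c.v y x = RC j q y x := h.C
  refine ⟨?_, ?_, ?_, ?_⟩
  · show nd.X.v (G.v p) = _
    rw [hG]
    exact h.X
  · show nd.K.v (G.v p) x = _
    rw [hG]
    exact h.K
  · show nd.L.v (G.v p) x = _
    rw [hG]
    exact h.L
  · show w * c.v (G.v p) x = _
    rw [hG, ← e1, hw]
    ring

/-- beyond the unit circle -/
theorem atN_off (hK : Pins P RK x) (hL : Pins P RL x) (hC : Pins P RC x ∨ RC = zrT)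
    (hq : InQ q y) (h : 1 ≤ h0 * y) : AtN (crv P) RK RL RC w u CN.zr 0 q y p x := by
  have hp := h0_pos
  have hX : crv P 0 q y = 0 := by
    rw [← linkX P 0 q y hq]
    show P.cv 0 (h0 * y) = 0
    unfold Pos.cv
    rw [P.zero, gam_zero]
    unfold c1
    exact Real.sqrt_eq_zero_of_nonpos (by nlinarith)
  refine ⟨?_, ?_, ?_, ?_⟩
  · rw [hX]
    rfl
  · rw [hK.one q y hq h]
    rfl
  · rw [hL.one q y hq h]
    rfl
  · rcases hC with hC | rfl
    · rw [hC.one q y hq h]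
      show w * 0 = u * 0
      ring
    · show w * 0 = u * 0
      ring

/-! ### The cells -/

variable {Xc : Fin (n + 1) → ℕ → ℝ → ℝ} {P1 W1 P3 W3 : ℕ} {m0 m1 : CN} {Y w1 w2 w3 : Fn1}
  {a : ℕ} {C : List (List Aff)} {V : ℝ → Prop} {c : ℝ → ℝ} {i : Fin n} {u1 u2 u3 : ℝ}

/-- The costs in a segment at the heights with the property `V`. -/
def SegV (V : ℝ → Prop) (Xc : Fin (n + 1) → ℕ → ℝ → ℝ) (RK RL RC : Fin (n + 1) → ℕ → ℝ → ℝ → ℝ)
    (w1 w2 w3 : ℝ) (C : List (List Aff)) (a : ℕ) (i : Fin n) (x : ℝ) : Prop :=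
  ∀ y, InQ a y → V y → ∀ l, 0 ≤ l → l ≤ 1 →
    ccl (w1 * faR a y * RK i.castSucc a y x) (w1 * faR a y * RK i.succ a y x)
      (w2 * RL i.castSucc a y x) (w2 * RL i.succ a y x) (w3 * RC i.castSucc a y x)
      (w3 * RC i.succ a y x) l ≤
      cbv C ((1 - l) * Xc i.castSucc a y + l * Xc i.succ a y) (h0 * y)

theorem SegV.all (h : SegV (fun _ => True) Xc RK RL RC u1 u2 u3 C a i x) :
    SegR Xc RK RL RC u1 u2 u3 C a i x :=
  fun y hq => h y hq trivial

theorem SegV.join (h : SegV (fun y => h0 * y < 1) Xc RK RL RC u1 u2 u3 C a i x)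
    (h' : SegV (fun y => 1 ≤ h0 * y) Xc RK RL RC u1 u2 u3 C a i x) :
    SegR Xc RK RL RC u1 u2 u3 C a i x :=
  fun y hq => (lt_or_ge (h0 * y) 1).elim (h y hq) (h' y hq)

theorem CertC.seg (ht : CertC P1 W1 P3 W3 m0 m1 Y w1 w2 w3 a C) (hx : Rng P3 W3 x)
    (hp : ∀ y, InQ a y → V y → Rng P1 W1 (c y)) (hY : ∀ y, InQ a y → V y → Y.v (c y) = y)
    (e1 : w1.v x = u1) (e2 : w2.v x = u2)
    (A0 : ∀ y, InQ a y → V y → AtN Xc RK RL RC (w3.v x) u3 m0 i.castSucc a y (c y) x)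
    (A1 : ∀ y, InQ a y → V y → AtN Xc RK RL RC (w3.v x) u3 m1 i.succ a y (c y) x) :
    SegV V Xc RK RL RC u1 u2 u3 C a i x := by
  subst e1
  subst e2
  exact fun y hq hv => (crow_cert ht (hp y hq hv) hx).seg hq (hY y hq hv) (A0 y hq hv)
    (A1 y hq hv)

theorem CertC.uni {U : List (List Aff)} (ht : CertC P1 W1 P3 W3 m0 m1 Y w1 w2 w3 a U)
    (hx : Rng P3 W3 x) (hp : ∀ y, InQ a y → h0 * y < 1 → Rng P1 W1 (c y))
    (hY : ∀ y, InQ a y → h0 * y < 1 → Y.v (c y) = y) (e1 : w1.v x = u1) (e2 : w2.v x = u2)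
    (A0 : ∀ y, InQ a y → h0 * y < 1 → AtN Xc RK RL RC (w3.v x) u3 m0 0 a y (c y) x) :
    UniR Xc RK RL RC u1 u2 u3 U a x := by
  subst e1
  subst e2
  exact fun y hq hv => (crow_cert ht (hp y hq hv) hx).uni hq (hY y hq hv) (A0 y hq hv)

end

/-! ### The interval and the value of the costs at the top -/

theorem _root_.Pool.Agent.Strip051.LC.rng_pos {P3 : ℕ} {x : ℝ} (h : 0 < P3) (hx : (P3 : ℝ) / S ≤ x) : 0 < x := by
  have h1 : (0 : ℝ) < P3 := by exact_mod_cast h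
  have h2 : (0 : ℝ) < S := by unfold S; norm_num
  have h3 : 0 < (P3 : ℝ) / S := by positivity
  linarith

theorem _root_.Pool.Agent.Strip051.LC.rng_lt {P3 W3 : ℕ} {x : ℝ} (h : P3 + W3 < 1073741824) (hx : x ≤ ((P3 : ℝ) + W3) / S) :
    x < 1 := by
  have h1 : ((P3 : ℝ) + W3) < 1073741824 := by exact_mod_cast h
  have h3 : ((P3 : ℝ) + W3) / S < 1 := by
    rw [S_num, div_lt_one (by norm_num)]
    exact h1
  linarith

/-- The costs `U` are not negative at `X = 0`, `T = 1`. -/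
def okU (U : List (List Aff)) : Bool :=
  U.any fun F => !F.isEmpty && F.all fun f => decide (0 ≤ f.b + f.c)

theorem okU_sound {U : List (List Aff)} (h : okU U = true) : 0 ≤ cbv U 0 1 := by
  unfold okU at h
  simp only [List.any_eq_true, Bool.and_eq_true, List.all_eq_true, decide_eq_true_eq,
    Bool.not_eq_true', List.isEmpty_eq_false_iff] at h
  obtain ⟨F, hF, hne, hf⟩ := h
  refine le_trans ?_ (LC.Box.le_cbv hF 0 1)
  refine LC.Box.le_mnv hne fun f hf' => ?_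
  have h1 : (0 : ℝ) ≤ f.b + f.c := by exact_mod_cast hf f hf'
  unfold affv
  linarith

/-! ### The third kernel -/

section

variable {n : ℕ} {P : Pos n} {RC : Fin (n + 1) → ℕ → ℝ → ℝ → ℝ} {x : ℝ}

theorem Pins.linkV_h0 (h : Pins P RC x) :
    LinkV P.cur x (fun T i => h0 * tbl (smT h0⁻¹ RC) x T i) RC := by
  have e : (fun (T : ℝ) (i : Fin (n + 1)) => h0 * tbl (smT h0⁻¹ RC) x T i) = tbl RC x := by
    funext T i
    rw [tbl_smul, ← mul_assoc, mul_inv_cancel₀ h0_pos.ne', one_mul]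
  rw [e]
  exact h.linkV

end

end Pool.Agent.Strip051.PB
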