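import Pool.Agent.Strip051.PB.CTab
import Pool.Agent.Strip051.LC.Box.All

/-! # The exact count from the rows of the costs -/

namespace Pool.Agent.Strip051.PB

open Pool.Agent.StripNear Pool.Agent.StripSquare Pool.Agent.Strip051.Sweep
open Pool.Agent.Strip051.LC
open Pool.Agent.Strip051.LC.Box (Aff cbv Certs)

/-! ### The wall constants -/

theorem we_le_wn {s : ℝ} (h0' : 0 ≤ s) (h1 : s < h0) : we s ≤ we s + mu 3 s * wq s := by
  have hg := g_gt_half h0' h1
  have hg1 : g s ≤ 1 := by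
    unfold g
    rw [Real.sqrt_le_one]
    nlinarith
  have h2 : 0 ≤ mu 3 s := by
    unfold mu
    positivity
  have h3 : 0 ≤ wq s := by
    unfold wq
    nlinarith
  nlinarith [mul_nonneg h2 h3]

section

variable {x : ℝ}

/-- tilts up to `1 / 2` -/
theorem wn_I1_16_1_2 (h1 : 0 ≤ x) (h2 : x ≤ 1 / 2) :
    4096 * (we (h0 * x) + mu 3 (h0 * x) * wq (h0 * x)) ≤ (690 : ℤ) := by
  have := wn_tan (x := x) (c := 9014 / 10000) (m := 48028 / 10000) h1 (by linarith) (by norm_num)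
    (by norm_num)
  norm_num at this ⊢
  nlinarith

/-- tilts in `[1 / 2, 8 / 11]`, all tilts -/
theorem wn_all (h1 : 0 ≤ x) (h2 : x < 1) :
    4096 * (we (h0 * x) + mu 3 (h0 * x) * wq (h0 * x)) ≤ (724 : ℤ) := by
  have hp := h0_pos
  have := wn_le (s := h0 * x) (by positivity) (by nlinarith)
  push_cast
  exact this

/-- tilts in `[8 / 11, .7625]` -/
theorem wn_I72727_7625 (h1 : 8 / 11 ≤ x) (h2 : x ≤ 61 / 80) :
    4096 * (we (h0 * x) + mu 3 (h0 * x) * wq (h0 * x)) ≤ (688 : ℤ) := by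
  have := wn_tan (x := x) (c := 7767 / 10000) (m := 45534 / 10000) (by linarith) (by linarith)
    (by norm_num) (by norm_num)
  norm_num at this ⊢
  nlinarith

/-- tilts in `[.7625, .8]` -/
theorem wn_I7625_8000 (h1 : 61 / 80 ≤ x) (h2 : x ≤ 4 / 5) :
    4096 * (we (h0 * x) + mu 3 (h0 * x) * wq (h0 * x)) ≤ (657 : ℤ) := by
  have := wn_tan (x := x) (c := 751 / 1000) (m := 4502 / 1000) (by linarith) (by linarith)
    (by norm_num) (by norm_num)
  norm_num at this ⊢
  nlinarith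

/-- tilts in `[.8, .86]` -/
theorem wn_I8000_8600 (h1 : 4 / 5 ≤ x) (h2 : x ≤ 43 / 50) :
    4096 * (we (h0 * x) + mu 3 (h0 * x) * wq (h0 * x)) ≤ (612 : ℤ) := by
  have := wn_tan (x := x) (c := 7211 / 10000) (m := 44422 / 10000) (by linarith) (by linarith)
    (by norm_num) (by norm_num)
  norm_num at this ⊢
  nlinarith

/-- tilts in `[.86, .9]` -/
theorem wn_I8600_9000 (h1 : 43 / 50 ≤ x) (h2 : x ≤ 9 / 10) :
    4096 * (we (h0 * x) + mu 3 (h0 * x) * wq (h0 * x)) ≤ (506 : ℤ) := by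
  have := wn_tan (x := x) (c := 6673 / 10000) (m := 43346 / 10000) (by linarith) (by linarith)
    (by norm_num) (by norm_num)
  norm_num at this ⊢
  nlinarith

/-- tilts in `[.9, 12 / 13]` -/
theorem wn_I9000_9231 (h1 : 9 / 10 ≤ x) (h2 : x < 1) :
    4096 * (we (h0 * x) + mu 3 (h0 * x) * wq (h0 * x)) ≤ (407 : ℤ) := by
  have := wn_tan (x := x) (c := 6265 / 10000) (m := 4253 / 1000) (by linarith) (by linarith)
    (by norm_num) (by norm_num)
  norm_num at this ⊢
  nlinarith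

/-- the far wall constant below a tangent, `c` near `g` -/
theorem we_tan' {c : ℝ} {e : ℤ} (h1 : 0 ≤ x) (h2 : x < 1) (hc : 0 < c)
    (h : 4096 * (x / 2 + (1 - 3 / 4 * x ^ 2 + c ^ 2) / (2 * c) - 1) ≤ e) :
    4096 * we (h0 * x) ≤ e :=
  (mul_le_mul_of_nonneg_left (we_tan h1 h2 hc) (by norm_num)).trans h

/-- the near wall constant below a tangent, `c` near `g`, `m` near `3 + 2 g` -/
theorem wn_tan' {c m : ℝ} {e : ℤ} (h1 : 0 ≤ x) (h2 : x < 1) (hc : 0 < c) (hm : 0 < m)
    (h : 4096 * (x / 2 + 2 - 10 * (2 * m - 3 - (1 - 3 / 4 * x ^ 2 + c ^ 2) / c) / m ^ 2) ≤ e) :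
    4096 * (we (h0 * x) + mu 3 (h0 * x) * wq (h0 * x)) ≤ e :=
  (mul_le_mul_of_nonneg_left (wn_tan h1 h2 hc hm) (by norm_num)).trans h

end

/-! ### The exact count -/

section

variable {m : ℕ} {ι : Type} {K : Cur m ι} {vA vB vX vC : ℝ → ι → ℝ} {κ s a o E : ℝ}
  {C U R : List (List Aff)} {e : ℤ}

/-- **The exact count from two kernels**, a cost for each vertex. -/
theorem goodS2 {CF UF RF CN' UN RN : List (List Aff)} {eF eN : ℤ} (cF : Certs CF UF RF eF)
    (cN : Certs CN' UN RN eN) (hF : 4096 * we s ≤ eF) (hN : 4096 * (we s + mu 3 s * wq s) ≤ eN)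
    (h : CertS K vA vB vX 3 a κ s)
    (ct : CostTab (tab K.nodes vA vB vX) 3 κ s (cbv CF) (cbv UF) (cbv CN') (cbv UN))
    (rows : RowOK ((tab K.nodes vA vB vX).flat 3 κ s) 3 s) : Good s :=
  fun _ hn => h.fixSm.count le_rfl (cF.costOK hF) (cN.costOK hN) ct rows hn

/-- **The exact count from three kernels**, a cost for each vertex. -/
theorem goodE2 {f : ℝ → ℝ} {CF UF RF CN' UN RN : List (List Aff)} {eF eN : ℤ}
    (cF : Certs CF UF RF eF) (cN : Certs CN' UN RN eN) (hF : 4096 * we s ≤ eF)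
    (hN : 4096 * (we s + mu 3 s * wq s) ≤ eN)
    (h : CertE K vA vX vC f 3 a κ s E o)
    (ct : CostTab3 (tab K.nodes vA (fun T i => E * vA T i) vX) (ker K.nodes vC fun _ _ => 0) o 3 κ
      s (cbv CF) (cbv UF) (cbv CN') (cbv UN))
    (rows : RowOK ((tab K.nodes vA (fun T i => E * vA T i) vX).flat3
      (ker K.nodes vC fun _ _ => 0) f 3 κ s) 3 s) : Good s :=
  fun _ hn => h.fixDir.count le_rfl (fun y t _ _ => h.osc _ _) (cF.costOK hF) (cN.costOK hN) ct
    rows hn

/-- **The exact count from two kernels**, one cost for both vertices. -/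
theorem goodS (cert : Certs C U R e) (he : 4096 * (we s + mu 3 s * wq s) ≤ e)
    (h : CertS K vA vB vX 3 a κ s)
    (ct : CostTab (tab K.nodes vA vB vX) 3 κ s (cbv C) (cbv U) (cbv C) (cbv U))
    (rows : RowOK ((tab K.nodes vA vB vX).flat 3 κ s) 3 s) : Good s :=
  goodS2 cert cert ((mul_le_mul_of_nonneg_left (we_le_wn h.s0 h.s1) (by norm_num)).trans he) he h ct
    rows

/-- **The exact count from three kernels**, one cost for both vertices. -/
theorem goodE {f : ℝ → ℝ} (cert : Certs C U R e) (he : 4096 * (we s + mu 3 s * wq s) ≤ e)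
    (h : CertE K vA vX vC f 3 a κ s E o)
    (ct : CostTab3 (tab K.nodes vA (fun T i => E * vA T i) vX) (ker K.nodes vC fun _ _ => 0) o 3 κ
      s (cbv C) (cbv U) (cbv C) (cbv U))
    (rows : RowOK ((tab K.nodes vA (fun T i => E * vA T i) vX).flat3
      (ker K.nodes vC fun _ _ => 0) f 3 κ s) 3 s) : Good s :=
  goodE2 cert cert ((mul_le_mul_of_nonneg_left (we_le_wn h.s0 h.s1) (by norm_num)).trans he) he h ct
    rows

end

end Pool.Agent.Strip051.PB
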