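import Pool.Agent.Strip051.PB.Table

/-! # The third side from its segments -/

namespace Pool.Agent.Strip051.PB

open Pool.Agent.StripNear Pool.Agent.StripSquare Pool.Agent.Strip051.Sweep
open Pool.Agent.Strip051.LC

/-- `s` is the value at `X` of the line through `(x0, v0)` and `(x1, v1)`. -/
def Lin (x0 x1 v0 v1 X s : ℝ) : Prop := s = v0 + (v1 - v0) * ((X - x0) / (x1 - x0))

section

variable {x0 x1 v0 v1 X s B b0 W w : ℝ}

theorem lin_seg (h0 : x0 ≤ X) (h1 : X ≤ x1) :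
    Lin x0 x1 v0 v1 X (v0 + lam (X - x0) (x1 - x0) * (v1 - v0)) := seg1_eq h0 h1

theorem lin_segB (h0 : x0 ≤ X) (h1 : X ≤ x1) (hv : v1 = x1 * B) :
    Lin x0 x1 v0 v1 X (X * B + (1 - lam (X - x0) (x1 - x0)) * (v0 - x0 * B)) := by
  subst hv
  exact seg2_eq h0 h1

theorem lin_b0 (h0 : x0 ≤ X) (h1 : X ≤ x1) (hv0 : v0 = x0 * b0) (hv : v1 = x1 * B) :
    Lin x0 x1 v0 v1 X (X * B + (1 - lam (X - x0) (x1 - x0)) * x0 * (b0 - B)) := by
  have := lin_segB (v0 := v0) h0 h1 hv
  subst hv0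
  unfold Lin at *
  rw [← this]
  ring

theorem lin_zero (h0 : x0 ≤ X) (h1 : X ≤ x1) (hx : x0 = 0) (hv0 : v0 = 0) (hv : v1 = x1 * B) :
    Lin x0 x1 v0 v1 X (X * B) := by
  subst hx hv0 hv
  unfold Lin
  rcases (h0.trans h1).eq_or_lt with h | h
  · have e : X = 0 := le_antisymm (h1.trans h.ge) h0
    rw [e, ← h]
    ring
  · field_simp
    ring

theorem lin_W (h0 : x0 ≤ X) (h1 : X ≤ x1) (hv : v1 = v0 + (w - v0) * (x1 - x0) * (W - x0)⁻¹) :
    Lin x0 x1 v0 v1 X (v0 + (X - x0) * (w - v0) * (W - x0)⁻¹) := by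
  subst hv
  unfold Lin
  rcases (h0.trans h1).eq_or_lt with h | h
  · have e : X = x0 := le_antisymm (h1.trans h.ge) h0
    rw [e]
    ring
  · have : x1 - x0 ≠ 0 := by linarith
    field_simp
    ring

theorem Lin.of_eq {s' : ℝ} (h : Lin x0 x1 v0 v1 X s) (e : s' = s) : Lin x0 x1 v0 v1 X s' := by
  rw [e]
  exact h

end

/-- The nested choice of the segments: the right end of the segment and the value. -/
noncomputable def nst : List (ℝ × ℝ) → ℝ → ℝ
  | [], _ => 0
  | [p], _ => p.2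
  | p :: q :: l, X => if X - p.1 ≤ 0 then p.2 else nst (q :: l) X

theorem nst_eq {f : ℝ} {X : ℝ} : ∀ (l : List (ℝ × ℝ)) (x0 : ℝ), l ≠ [] →
    List.IsChain (fun p q : ℝ × ℝ => p.1 ≤ X → X ≤ q.1 → q.2 = f) ((x0, 0) :: l) → x0 ≤ X →
    (∀ p ∈ l.getLast?, X ≤ p.1) → nst l X = f
  | [], _, h, _, _, _ => absurd rfl h
  | [p], x0, _, hc, h0, h1 => by
    simp only [nst]
    have h2 : X ≤ p.1 := h1 p (by simp)
    rw [List.isChain_cons_cons] at hc
    exact hc.1 h0 h2
  | p :: q :: l, x0, _, hc, h0, h1 => by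
    simp only [nst]
    rw [List.isChain_cons_cons] at hc
    split_ifs with h
    · exact hc.1 h0 (by linarith)
    · refine nst_eq (q :: l) p.1 (by simp) ?_ (by linarith) (by simpa using h1)
      have h2 := hc.2
      rw [List.isChain_cons_cons] at h2 ⊢
      exact h2

section

variable {n : ℕ} {P : Pos n} {R : Fin (n + 1) → ℕ → ℝ → ℝ → ℝ} {x : ℝ}

/-- **The third side** from the values on its segments. -/
theorem Pins.third_eq (h : Pins P R x) {q : ℕ} {y : ℝ} (hq : InQ q y) {Sg : ℝ → Fin n → ℝ}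
    (hS : ∀ (i : Fin n) (X : ℝ), crv P i.castSucc q y ≤ X → X ≤ crv P i.succ q y → 0 ≤ X →
      1 ≤ qqn X y → qqn X y ≤ 3 →
      Lin (crv P i.castSucc q y) (crv P i.succ q y) (R i.castSucc q y x) (R i.succ q y x) X
        (Sg X i)) {X : ℝ} (h1 : 1 ≤ qqn X y) (h3 : qqn X y ≤ 3) :
    thd P R q X y x =
      oddx (fun X => nst (List.ofFn fun i : Fin n => (crv P i.succ q y, Sg X i)) X) X := by
  have hp := h0_pos
  have hT : 0 ≤ h0 * y := mul_nonneg hp.le hq.nonneg
  have hn : n ≠ 0 := fun h => by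
    subst h
    exact P.last_ne rfl
  rw [← h.link.third q X y hq h1 h3]
  have e := qqn_eq X y
  refine (oddx_ker (K := P.cur) (T := h0 * y) ?_ (by rwa [e]) (by rwa [e])).symm
  intro Z hZ k1 k3
  have hT3 : (h0 * y) ^ 2 ≤ 3 := by nlinarith [sq_nonneg Z]
  obtain ⟨g1, g2⟩ := range_ker hT hZ k1 k3
  have e0 : crv P 0 q y = c1 (h0 * y) := by rw [← linkX P 0 q y hq]; exact P.cv_zero _
  have el : crv P (Fin.last n) q y = c3 (h0 * y) := by
    rw [← linkX P (Fin.last n) q y hq]; exact P.cv_last _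
  refine nst_eq (f := ker P.cur.nodes (tbl R x) (fun _ _ => 0) Z (h0 * y)) _
    (crv P 0 q y) ?_ ?_ (by rwa [e0]) ?_
  · intro hh
    have := congrArg List.length hh
    rw [List.length_ofFn] at this
    exact hn this
  · have key : ∀ (i : Fin n), crv P i.castSucc q y ≤ Z → Z ≤ crv P i.succ q y →
        Sg Z i = ker P.cur.nodes (tbl R x) (fun _ _ => 0) Z (h0 * y) := by
      intro i a1 a2
      have m := hS i Z a1 a2 hZ (by rwa [← qqn_eq]) (by rwa [← qqn_eq])
      have m2 := Pos.ker_seg h.adm i hT hT3 (X := Z) (by rwa [← linkX P _ q y hq] at a1)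
        (by rwa [← linkX P _ q y hq] at a2)
      unfold Lin at m
      rw [m]
      rw [tbl_eq hq, tbl_eq hq] at m2
      have c1' : P.cv i.castSucc (h0 * y) = crv P i.castSucc q y := linkX P _ q y hq
      have c2' : P.cv i.succ (h0 * y) = crv P i.succ q y := linkX P _ q y hq
      rw [c1', c2'] at m2
      exact m2.symm
    have e' : (crv P 0 q y, (0 : ℝ)) :: (List.ofFn fun i : Fin n => (crv P i.succ q y, Sg Z i)) =
        List.ofFn (Fin.cons (crv P 0 q y, (0 : ℝ)) fun i : Fin n => (crv P i.succ q y, Sg Z i)) := by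
      rw [List.ofFn_succ]
      simp
    rw [e', List.isChain_ofFn]
    intro i hi a1 a2
    have hi' : i < n := by omega
    have s2 : (⟨i + 1, hi⟩ : Fin (n + 1)) = (⟨i, hi'⟩ : Fin n).succ := rfl
    rw [s2, Fin.cons_succ] at a2 ⊢
    refine key ⟨i, hi'⟩ ?_ a2
    rcases Nat.eq_zero_or_pos i with hz | hz
    · subst hz
      exact a1
    · obtain ⟨m, rfl⟩ := Nat.exists_eq_succ_of_ne_zero hz.ne'
      have s1 : (⟨m.succ, by omega⟩ : Fin (n + 1)) = (⟨m, by omega⟩ : Fin n).succ := rfl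
      rw [s1, Fin.cons_succ] at a1
      exact a1
  · intro p hp'
    have e3 := last_ofFn (p := p) (Fin.cons (α := fun _ => ℝ × ℝ) ((0 : ℝ), (0 : ℝ))
      fun i : Fin n => (crv P i.succ q y, Sg Z i)) hn (by simpa using hp')
    rw [e3]
    obtain ⟨m, rfl⟩ := Nat.exists_eq_succ_of_ne_zero hn
    have : (Fin.last (m + 1)) = (Fin.last m).succ := rfl
    rw [this, Fin.cons_succ]
    simp only
    rw [← this, el]
    exact g2

end

end Pool.Agent.Strip051.PB
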