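import Pool.Agent.Strip051.PB.Rows
import Pool.Agent.Strip051.PB.Seg

/-! # Values of the base functions -/

namespace Pool.Agent.Strip051.PB

open Pool.Agent.StripNear Pool.Agent.StripSquare Pool.Agent.Strip051.Sweep
open Pool.Agent.Strip051.LC

theorem c1n_zero : c1n 0 = 1 := by
  unfold c1n
  rw [show (1 : ℝ) - 3 / 4 * 0 ^ 2 = 1 ^ 2 by norm_num, Real.sqrt_sq (by norm_num)]

theorem c1n_one : c1n 1 = 1 / 2 := by
  unfold c1n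
  rw [show (1 : ℝ) - 3 / 4 * 1 ^ 2 = (1 / 2) ^ 2 by norm_num, Real.sqrt_sq (by norm_num)]

theorem c3n_one : c3n 1 = 3 / 2 := by
  unfold c3n
  rw [show (3 : ℝ) - 3 / 4 * 1 ^ 2 = (3 / 2) ^ 2 by norm_num, Real.sqrt_sq (by norm_num)]

theorem c3n_two : c3n 2 = 0 := by
  unfold c3n
  rw [show (3 : ℝ) - 3 / 4 * 2 ^ 2 = 0 by norm_num, Real.sqrt_zero]

theorem swn_zero : swn 0 = 1 / 2 := by
  unfold swn
  rw [show (1 : ℝ) - 3 / 4 * (0 - 1) ^ 2 = (1 / 2) ^ 2 by norm_num, Real.sqrt_sq (by norm_num)]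

theorem swn_one : swn 1 = 1 := by
  unfold swn
  rw [show (1 : ℝ) - 3 / 4 * (1 - 1) ^ 2 = 1 ^ 2 by norm_num, Real.sqrt_sq (by norm_num)]

theorem swn_two : swn 2 = 1 / 2 := by
  unfold swn
  rw [show (1 : ℝ) - 3 / 4 * (2 - 1) ^ 2 = (1 / 2) ^ 2 by norm_num, Real.sqrt_sq (by norm_num)]

theorem c1n_sq {y : ℝ} (h : 3 / 4 * y ^ 2 ≤ 1) : c1n y ^ 2 = 1 - 3 / 4 * y ^ 2 :=
  Real.sq_sqrt (by linarith)

theorem c3n_sq {y : ℝ} (h : 3 / 4 * y ^ 2 ≤ 3) : c3n y ^ 2 = 3 - 3 / 4 * y ^ 2 :=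
  Real.sq_sqrt (by linarith)

theorem c1n_nn (y : ℝ) : 0 ≤ c1n y := Real.sqrt_nonneg _
theorem c3n_nn (y : ℝ) : 0 ≤ c3n y := Real.sqrt_nonneg _
theorem swn_nn (y : ℝ) : 0 ≤ swn y := Real.sqrt_nonneg _

theorem on_sq {y : ℝ} (h0y : 0 ≤ y) (h : h0 * y < 1) : 3 / 4 * y ^ 2 < 1 := by
  have hp := h0_pos
  have h2 : (h0 * y) ^ 2 < 1 := by
    rw [sq_lt_one_iff₀ (mul_nonneg hp.le h0y)]
    exact h
  rwa [mul_pow, h0_sq] at h2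

theorem off_sq {y : ℝ} (h : 1 ≤ h0 * y) : 1 ≤ 3 / 4 * y ^ 2 := by
  have h2 : 1 ≤ (h0 * y) ^ 2 := by nlinarith
  rwa [mul_pow, h0_sq] at h2

theorem c1n_off {y : ℝ} (h : 1 ≤ h0 * y) : c1n y = 0 :=
  Real.sqrt_eq_zero_of_nonpos (by linarith [off_sq h])

/-- The height from the abscissa on the unit circle. -/
theorem ya_eq {y : ℝ} (h0y : 0 ≤ y) (h : h0 * y < 1) : √(4 / 3 * (1 - c1n y ^ 2)) = y := by
  rw [c1n_sq (on_sq h0y h).le, show (4 : ℝ) / 3 * (1 - (1 - 3 / 4 * y ^ 2)) = y ^ 2 by ring,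
    Real.sqrt_sq h0y]

/-- The height from the abscissa on the circle of radius `√3`. -/
theorem yc_eq {y : ℝ} (h0y : 0 ≤ y) (h : y ≤ 2) : √(4 / 3 * (3 - c3n y ^ 2)) = y := by
  rw [c3n_sq (by nlinarith), show (4 : ℝ) / 3 * (3 - (3 - 3 / 4 * y ^ 2)) = y ^ 2 by ring,
    Real.sqrt_sq h0y]

theorem not_off {y : ℝ} {n : ℕ} {j : Fin (n + 1)} (h : ¬(j = 0 ∧ 1 ≤ h0 * y)) :
    j = 0 → h0 * y < 1 := fun hj => not_le.1 fun h' => h ⟨hj, h'⟩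

end Pool.Agent.Strip051.PB
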