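import Pool.Agent.Strip051.PB.TgtP

/-! # Closed forms of kernel and level on the circles of radius one and root three

The tables define kernel and level of the first and of the last curve by these formulas near the
lattice heights. -/

namespace Pool.Agent.Strip051.PB

open Pool.Agent.StripNear Pool.Agent.Strip051.LC

section

variable {KC : ℝ → ℝ} {TX : ℝ → ℝ → ℝ} {kv lv : ℝ → ℝ}

theorem c1n_of {X y : ℝ} (hX : 0 ≤ X) (h : X ^ 2 + 3 / 4 * y ^ 2 = 1) : c1n y = X := by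
  unfold c1n
  rw [show 1 - 3 / 4 * y ^ 2 = X ^ 2 by linarith]
  exact Real.sqrt_sq hX

theorem c3n_of {X y : ℝ} (hX : 0 ≤ X) (h : X ^ 2 + 3 / 4 * y ^ 2 = 3) : c3n y = X := by
  unfold c3n
  rw [show 3 - 3 / 4 * y ^ 2 = X ^ 2 by linarith]
  exact Real.sqrt_sq hX

theorem inv_key {A B C d : ℝ} (hd : d ≠ 0) (h : A * B = C * d) : A * d⁻¹ * B = C := by
  field_simp
  linarith

/-- first curve, first quarter -/
theorem prof_u0
    (hk : ∀ y, kv y = (c1n y - 3 / 2 * y) * (1 + c1n y) * (1 + c1n y - 3 / 2 * y)⁻¹ +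
      y * KC (3 / 4 * y - c1n y / 2))
    (hl : ∀ y, lv y = TX (3 / 4 * y - c1n y / 2) (c1n y)) : Prof false 0 KC TX kv lv := by
  refine ⟨fun X y hq _ hX hr => ?_, fun X y hq _ hX hr => ?_⟩
  · have hr' : X ^ 2 + 3 / 4 * y ^ 2 = 1 := hr
    obtain ⟨h1, h2⟩ : 0 ≤ y ∧ y < 1 / 2 := hq
    rw [hk, c1n_of hX hr']
    show _ * (X + y / 2 - 1) = (y - ((0 : ℕ) : ℝ)) *
      (X / 2 - 3 / 4 * y + KC (-(X / 2 - 3 / 4 * y)) * (X + y / 2 - 1))
    have hd : 1 + X - 3 / 2 * y ≠ 0 := by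
      have : 0 < 1 + X - 3 / 2 * y := by linarith
      exact this.ne'
    rw [show -(X / 2 - 3 / 4 * y) = 3 / 4 * y - X / 2 by ring]
    have key : (X - 3 / 2 * y) * (1 + X) * (1 + X - 3 / 2 * y)⁻¹ * (X + y / 2 - 1) =
        y * (X / 2 - 3 / 4 * y) := by
      refine inv_key hd ?_
      linear_combination (X - 3 / 2 * y) * hr'
    push_cast
    linear_combination key
  · have hr' : X ^ 2 + 3 / 4 * y ^ 2 = 1 := hr
    rw [hl, c1n_of hX hr']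
    show _ = 1 * TX (-(X / 2 - 3 / 4 * y)) (3 / 4 * (X + y / 2) + (X / 2 - 3 / 4 * y) / 2) +
      0 * _
    rw [show -(X / 2 - 3 / 4 * y) = 3 / 4 * y - X / 2 by ring,
      show 3 / 4 * (X + y / 2) + (X / 2 - 3 / 4 * y) / 2 = X by ring]
    ring

/-- first curve, second quarter -/
theorem prof_u1
    (hk : ∀ y, kv y = (1 + 2 * c1n y) * (3 / 2 * y - c1n y) * (2 * (1 + 3 / 2 * y - c1n y))⁻¹ +
      (y - 1) * KC (3 / 4 * y - c1n y / 2))
    (hl : ∀ y, lv y = TX (3 / 4 * y - c1n y / 2) (c1n y)) : Prof false 1 KC TX kv lv := by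
  refine ⟨fun X y hq _ hX hr => ?_, fun X y hq _ hX hr => ?_⟩
  · have hr' : X ^ 2 + 3 / 4 * y ^ 2 = 1 := hr
    obtain ⟨h1, h2⟩ : 1 / 2 ≤ y ∧ y < 1 := hq
    rw [hk, c1n_of hX hr']
    show _ * (X + y / 2 - 1) = (y - ((1 : ℕ) : ℝ)) *
      (X / 2 - 3 / 4 * y + KC (-(X / 2 - 3 / 4 * y)) * (X + y / 2 - 1))
    have hX1 : X ≤ 1 := by nlinarith
    have hd : 2 * (1 + 3 / 2 * y - X) ≠ 0 := by
      have : 0 < 2 * (1 + 3 / 2 * y - X) := by linarith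
      exact this.ne'
    rw [show -(X / 2 - 3 / 4 * y) = 3 / 4 * y - X / 2 by ring]
    have key : (1 + 2 * X) * (3 / 2 * y - X) * (2 * (1 + 3 / 2 * y - X))⁻¹ * (X + y / 2 - 1) =
        (y - 1) * (X / 2 - 3 / 4 * y) := by
      refine inv_key hd ?_
      linear_combination (2 * (3 / 2 * y - X)) * hr'
    push_cast
    linear_combination key
  · have hr' : X ^ 2 + 3 / 4 * y ^ 2 = 1 := hr
    rw [hl, c1n_of hX hr']
    show _ = 1 * TX (-(X / 2 - 3 / 4 * y)) (3 / 4 * (X + y / 2) + (X / 2 - 3 / 4 * y) / 2) +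
      0 * _
    rw [show -(X / 2 - 3 / 4 * y) = 3 / 4 * y - X / 2 by ring,
      show 3 / 4 * (X + y / 2) + (X / 2 - 3 / 4 * y) / 2 = X by ring]
    ring

/-- first curve, third quarter -/
theorem prof_u2 (hk : ∀ y, 0 ≤ y → h0 * y < 1 → kv y = c1n y + (y - 1) * KC (-c1n y))
    (hl : ∀ y, 0 ≤ y → h0 * y < 1 → lv y = TX (-c1n y) (3 / 4 * y + c1n y / 2) -
      TX (c1n y) (3 / 4 * y - c1n y / 2)) : Prof false 2 KC TX kv lv := by
  have on : ∀ y : ℝ, y ≤ 9 / 8 → h0 * y < 1 := fun y h => by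
    have hp := h0_pos
    have hh := h0_sq
    nlinarith
  refine ⟨fun X y hq h9 hX hr => ?_, fun X y hq h9 hX hr => ?_⟩
  · have hr' : X ^ 2 + 3 / 4 * y ^ 2 = 1 := hr
    obtain ⟨h1, h2⟩ : 1 ≤ y ∧ y < 3 / 2 := hq
    rw [hk y (by linarith) (on y (h9.resolve_right (by decide))), c1n_of hX hr']
    show _ * (y - 1) = (y - ((1 : ℕ) : ℝ)) * (X + KC (-X) * (y - 1))
    push_cast
    ring
  · have hr' : X ^ 2 + 3 / 4 * y ^ 2 = 1 := hr
    obtain ⟨h1, h2⟩ : 1 ≤ y ∧ y < 3 / 2 := hq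
    rw [hl y (by linarith) (on y (h9.resolve_right (by decide))), c1n_of hX hr']
    show _ = 1 * TX (-X) (3 / 4 * y + X / 2) + -1 * TX X (3 / 4 * y - X / 2)
    ring

/-- last curve, second quarter -/
theorem prof_t1
    (hk : ∀ y, kv y = y * (c3n y + 3 / 2) * (1 + y)⁻¹ + (y - 1) * KC (y / 2))
    (hl : ∀ y, lv y = TX (y / 2) (c3n y / 2 - y / 4) + TX (-(y / 2)) (c3n y / 2 + y / 4)) :
    Prof true 1 KC TX kv lv := by
  refine ⟨fun X y hq _ hX hr => ?_, fun X y hq _ hX hr => ?_⟩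
  · have hr' : X ^ 2 + 3 / 4 * y ^ 2 = 3 := hr
    obtain ⟨h1, h2⟩ : 1 / 2 ≤ y ∧ y < 1 := hq
    rw [hk, c3n_of hX hr']
    show _ * (2 / 3 * X - 1) = (y - ((1 : ℕ) : ℝ)) *
      (-(y / 2) + KC (- -(y / 2)) * (2 / 3 * X - 1))
    rw [neg_neg]
    have hd : 1 + y ≠ 0 := by
      have : 0 < 1 + y := by linarith
      exact this.ne'
    have key : y * (X + 3 / 2) * (1 + y)⁻¹ * (2 / 3 * X - 1) = (y - 1) * -(y / 2) := by
      refine inv_key hd ?_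
      linear_combination (2 / 3 * y) * hr'
    push_cast
    linear_combination key
  · have hr' : X ^ 2 + 3 / 4 * y ^ 2 = 3 := hr
    rw [hl, c3n_of hX hr']
    show _ = 1 * TX (- -(y / 2)) (3 / 4 * (2 / 3 * X) + -(y / 2) / 2) +
      1 * TX (-(y / 2)) (3 / 4 * (2 / 3 * X) - -(y / 2) / 2)
    rw [neg_neg, show 3 / 4 * (2 / 3 * X) + -(y / 2) / 2 = X / 2 - y / 4 by ring,
      show 3 / 4 * (2 / 3 * X) - -(y / 2) / 2 = X / 2 + y / 4 by ring]
    ring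

/-- last curve, third quarter -/
theorem prof_t2
    (hk : ∀ y, kv y = (2 * c3n y - y) * (c3n y + 3 - 3 / 2 * y) * (4 * (2 - y))⁻¹ +
      (y - 1) * KC (y / 4 - c3n y / 2))
    (hl : ∀ y, lv y = 2 * TX (y / 4 - c3n y / 2) (c3n y / 4 + 3 / 8 * y + (c3n y / 2 - y / 4) / 2) -
      TX (c3n y / 2 - y / 4) (c3n y / 4 + 3 / 8 * y - (c3n y / 2 - y / 4) / 2)) :
    Prof true 2 KC TX kv lv := by
  refine ⟨fun X y hq _ hX hr => ?_, fun X y hq _ hX hr => ?_⟩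
  · have hr' : X ^ 2 + 3 / 4 * y ^ 2 = 3 := hr
    obtain ⟨h1, h2⟩ : 1 ≤ y ∧ y < 3 / 2 := hq
    rw [hk, c3n_of hX hr']
    show _ * (X / 3 + y / 2 - 1) = (y - ((1 : ℕ) : ℝ)) *
      (X / 2 - y / 4 + KC (-(X / 2 - y / 4)) * (X / 3 + y / 2 - 1))
    have hd : 4 * (2 - y) ≠ 0 := by
      have : 0 < 4 * (2 - y) := by linarith
      exact this.ne'
    rw [show -(X / 2 - y / 4) = y / 4 - X / 2 by ring]
    have key : (2 * X - y) * (X + 3 - 3 / 2 * y) * (4 * (2 - y))⁻¹ * (X / 3 + y / 2 - 1) =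
        (y - 1) * (X / 2 - y / 4) := by
      refine inv_key hd ?_
      linear_combination (1 / 3 * (2 * X - y)) * hr'
    push_cast
    linear_combination key
  · have hr' : X ^ 2 + 3 / 4 * y ^ 2 = 3 := hr
    rw [hl, c3n_of hX hr']
    show _ = 2 * TX (-(X / 2 - y / 4)) (3 / 4 * (X / 3 + y / 2) + (X / 2 - y / 4) / 2) +
      -1 * TX (X / 2 - y / 4) (3 / 4 * (X / 3 + y / 2) - (X / 2 - y / 4) / 2)
    rw [show -(X / 2 - y / 4) = y / 4 - X / 2 by ring,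
      show 3 / 4 * (X / 3 + y / 2) + (X / 2 - y / 4) / 2 =
        X / 4 + 3 / 8 * y + (X / 2 - y / 4) / 2 by ring,
      show 3 / 4 * (X / 3 + y / 2) - (X / 2 - y / 4) / 2 =
        X / 4 + 3 / 8 * y - (X / 2 - y / 4) / 2 by ring]
    ring

end

/-- the values at a corner -/
theorem Gn.At.of {G : Gn} {m b c0 p x : ℝ} (hp : cR G.cc m = p)
    (h : G.nd.X.v p = b ∧ G.nd.K.v p x = c0 * b ∧ G.nd.L.v p x = 0) : G.At m b c0 x := by
  obtain ⟨h1, h2, h3⟩ := h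
  refine ⟨?_, ?_, ?_⟩
  · unfold Gn.xv
    rw [hp, h1]
  · unfold Gn.kv
    rw [hp, h2]
  · unfold Gn.lv
    rw [hp, h3]

end Pool.Agent.Strip051.PB
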