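import Pool.Agent.Strip051.PB.Corns

/-! # Aligned corners: the quarters of the corners (generated) -/

set_option linter.all false

namespace Pool.Agent.Strip051.PB

/-- The corner `C` belongs to the quarters `qa`, `qb`, `qc`. -/
structure CpQ (C : Cp) (qa qb qc : ℕ) : Prop where
  ok : C.Ok
  con : con qa qb qc = some C.cn
  qa2 : qa ≤ 2
  qb2 : qb ≤ 2
  qc2 : qc ≤ 2
  m1 : (C.m1 : ℝ) = jq qa
  m2 : cond C.fam (C.mn : ℝ) C.mt = jq qb
  m3 : cond C.fam (C.mt : ℝ) C.mn = jq qc

theorem cA011E_q : CpQ cA011E 0 1 1 := by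
  refine ⟨cA011E_ok, rfl, by norm_num, by norm_num, by norm_num, ?_, ?_, ?_⟩ <;>
    (simp only [cA011E, jq, cond_true, cond_false]; try norm_num)

theorem cA011L_q : CpQ cA011L 0 1 1 := by
  refine ⟨cA011L_ok, rfl, by norm_num, by norm_num, by norm_num, ?_, ?_, ?_⟩ <;>
    (simp only [cA011L, jq, cond_true, cond_false]; try norm_num)

theorem cA011R_q : CpQ cA011R 0 1 1 := by
  refine ⟨cA011R_ok, rfl, by norm_num, by norm_num, by norm_num, ?_, ?_, ?_⟩ <;>
    (simp only [cA011R, jq, cond_true, cond_false]; try norm_num)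

theorem cA012E_q : CpQ cA012E 0 1 2 := by
  refine ⟨cA012E_ok, rfl, by norm_num, by norm_num, by norm_num, ?_, ?_, ?_⟩ <;>
    (simp only [cA012E, jq, cond_true, cond_false]; try norm_num)

theorem cA012L_q : CpQ cA012L 0 1 2 := by
  refine ⟨cA012L_ok, rfl, by norm_num, by norm_num, by norm_num, ?_, ?_, ?_⟩ <;>
    (simp only [cA012L, jq, cond_true, cond_false]; try norm_num)

theorem cA012R_q : CpQ cA012R 0 1 2 := by
  refine ⟨cA012R_ok, rfl, by norm_num, by norm_num, by norm_num, ?_, ?_, ?_⟩ <;>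
    (simp only [cA012R, jq, cond_true, cond_false]; try norm_num)

theorem cA022E_q : CpQ cA022E 0 2 2 := by
  refine ⟨cA022E_ok, rfl, by norm_num, by norm_num, by norm_num, ?_, ?_, ?_⟩ <;>
    (simp only [cA022E, jq, cond_true, cond_false]; try norm_num)

theorem cA022L_q : CpQ cA022L 0 2 2 := by
  refine ⟨cA022L_ok, rfl, by norm_num, by norm_num, by norm_num, ?_, ?_, ?_⟩ <;>
    (simp only [cA022L, jq, cond_true, cond_false]; try norm_num)

theorem cA022R_q : CpQ cA022R 0 2 2 := by
  refine ⟨cA022R_ok, rfl, by norm_num, by norm_num, by norm_num, ?_, ?_, ?_⟩ <;>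
    (simp only [cA022R, jq, cond_true, cond_false]; try norm_num)

theorem cA101E_q : CpQ cA101E 1 0 1 := by
  refine ⟨cA101E_ok, rfl, by norm_num, by norm_num, by norm_num, ?_, ?_, ?_⟩ <;>
    (simp only [cA101E, jq, cond_true, cond_false]; try norm_num)

theorem cA101L_q : CpQ cA101L 1 0 1 := by
  refine ⟨cA101L_ok, rfl, by norm_num, by norm_num, by norm_num, ?_, ?_, ?_⟩ <;>
    (simp only [cA101L, jq, cond_true, cond_false]; try norm_num)

theorem cA101R_q : CpQ cA101R 1 0 1 := by
  refine ⟨cA101R_ok, rfl, by norm_num, by norm_num, by norm_num, ?_, ?_, ?_⟩ <;>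
    (simp only [cA101R, jq, cond_true, cond_false]; try norm_num)

theorem cA102E_q : CpQ cA102E 1 0 2 := by
  refine ⟨cA102E_ok, rfl, by norm_num, by norm_num, by norm_num, ?_, ?_, ?_⟩ <;>
    (simp only [cA102E, jq, cond_true, cond_false]; try norm_num)

theorem cA102L_q : CpQ cA102L 1 0 2 := by
  refine ⟨cA102L_ok, rfl, by norm_num, by norm_num, by norm_num, ?_, ?_, ?_⟩ <;>
    (simp only [cA102L, jq, cond_true, cond_false]; try norm_num)

theorem cA102R_q : CpQ cA102R 1 0 2 := by
  refine ⟨cA102R_ok, rfl, by norm_num, by norm_num, by norm_num, ?_, ?_, ?_⟩ <;>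
    (simp only [cA102R, jq, cond_true, cond_false]; try norm_num)

theorem cA202E_q : CpQ cA202E 2 0 2 := by
  refine ⟨cA202E_ok, rfl, by norm_num, by norm_num, by norm_num, ?_, ?_, ?_⟩ <;>
    (simp only [cA202E, jq, cond_true, cond_false]; try norm_num)

theorem cA202L_q : CpQ cA202L 2 0 2 := by
  refine ⟨cA202L_ok, rfl, by norm_num, by norm_num, by norm_num, ?_, ?_, ?_⟩ <;>
    (simp only [cA202L, jq, cond_true, cond_false]; try norm_num)

theorem cA202R_q : CpQ cA202R 2 0 2 := by
  refine ⟨cA202R_ok, rfl, by norm_num, by norm_num, by norm_num, ?_, ?_, ?_⟩ <;>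
    (simp only [cA202R, jq, cond_true, cond_false]; try norm_num)

theorem cB011E_q : CpQ cB011E 0 1 1 := by
  refine ⟨cB011E_ok, rfl, by norm_num, by norm_num, by norm_num, ?_, ?_, ?_⟩ <;>
    (simp only [cB011E, jq, cond_true, cond_false]; try norm_num)

theorem cB011L_q : CpQ cB011L 0 1 1 := by
  refine ⟨cB011L_ok, rfl, by norm_num, by norm_num, by norm_num, ?_, ?_, ?_⟩ <;>
    (simp only [cB011L, jq, cond_true, cond_false]; try norm_num)

theorem cB011R_q : CpQ cB011R 0 1 1 := by
  refine ⟨cB011R_ok, rfl, by norm_num, by norm_num, by norm_num, ?_, ?_, ?_⟩ <;>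
    (simp only [cB011R, jq, cond_true, cond_false]; try norm_num)

theorem cB012E_q : CpQ cB012E 0 1 2 := by
  refine ⟨cB012E_ok, rfl, by norm_num, by norm_num, by norm_num, ?_, ?_, ?_⟩ <;>
    (simp only [cB012E, jq, cond_true, cond_false]; try norm_num)

theorem cB012L_q : CpQ cB012L 0 1 2 := by
  refine ⟨cB012L_ok, rfl, by norm_num, by norm_num, by norm_num, ?_, ?_, ?_⟩ <;>
    (simp only [cB012L, jq, cond_true, cond_false]; try norm_num)

theorem cB012R_q : CpQ cB012R 0 1 2 := by
  refine ⟨cB012R_ok, rfl, by norm_num, by norm_num, by norm_num, ?_, ?_, ?_⟩ <;>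
    (simp only [cB012R, jq, cond_true, cond_false]; try norm_num)

theorem cB022E_q : CpQ cB022E 0 2 2 := by
  refine ⟨cB022E_ok, rfl, by norm_num, by norm_num, by norm_num, ?_, ?_, ?_⟩ <;>
    (simp only [cB022E, jq, cond_true, cond_false]; try norm_num)

theorem cB022L_q : CpQ cB022L 0 2 2 := by
  refine ⟨cB022L_ok, rfl, by norm_num, by norm_num, by norm_num, ?_, ?_, ?_⟩ <;>
    (simp only [cB022L, jq, cond_true, cond_false]; try norm_num)

theorem cB022R_q : CpQ cB022R 0 2 2 := by
  refine ⟨cB022R_ok, rfl, by norm_num, by norm_num, by norm_num, ?_, ?_, ?_⟩ <;>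
    (simp only [cB022R, jq, cond_true, cond_false]; try norm_num)

theorem cB101E_q : CpQ cB101E 1 0 1 := by
  refine ⟨cB101E_ok, rfl, by norm_num, by norm_num, by norm_num, ?_, ?_, ?_⟩ <;>
    (simp only [cB101E, jq, cond_true, cond_false]; try norm_num)

theorem cB101L_q : CpQ cB101L 1 0 1 := by
  refine ⟨cB101L_ok, rfl, by norm_num, by norm_num, by norm_num, ?_, ?_, ?_⟩ <;>
    (simp only [cB101L, jq, cond_true, cond_false]; try norm_num)

theorem cB101R_q : CpQ cB101R 1 0 1 := by
  refine ⟨cB101R_ok, rfl, by norm_num, by norm_num, by norm_num, ?_, ?_, ?_⟩ <;>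
    (simp only [cB101R, jq, cond_true, cond_false]; try norm_num)

theorem cB102E_q : CpQ cB102E 1 0 2 := by
  refine ⟨cB102E_ok, rfl, by norm_num, by norm_num, by norm_num, ?_, ?_, ?_⟩ <;>
    (simp only [cB102E, jq, cond_true, cond_false]; try norm_num)

theorem cB102L_q : CpQ cB102L 1 0 2 := by
  refine ⟨cB102L_ok, rfl, by norm_num, by norm_num, by norm_num, ?_, ?_, ?_⟩ <;>
    (simp only [cB102L, jq, cond_true, cond_false]; try norm_num)

theorem cB102R_q : CpQ cB102R 1 0 2 := by
  refine ⟨cB102R_ok, rfl, by norm_num, by norm_num, by norm_num, ?_, ?_, ?_⟩ <;>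
    (simp only [cB102R, jq, cond_true, cond_false]; try norm_num)

theorem cB202E_q : CpQ cB202E 2 0 2 := by
  refine ⟨cB202E_ok, rfl, by norm_num, by norm_num, by norm_num, ?_, ?_, ?_⟩ <;>
    (simp only [cB202E, jq, cond_true, cond_false]; try norm_num)

theorem cB202L_q : CpQ cB202L 2 0 2 := by
  refine ⟨cB202L_ok, rfl, by norm_num, by norm_num, by norm_num, ?_, ?_, ?_⟩ <;>
    (simp only [cB202L, jq, cond_true, cond_false]; try norm_num)

theorem cB202R_q : CpQ cB202R 2 0 2 := by
  refine ⟨cB202R_ok, rfl, by norm_num, by norm_num, by norm_num, ?_, ?_, ?_⟩ <;>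
    (simp only [cB202R, jq, cond_true, cond_false]; try norm_num)

end Pool.Agent.Strip051.PB
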