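import Pool.Agent.Strip051.PB.CornR
import Pool.Agent.Strip051.PB.CornQ
import Pool.Agent.Strip051.PB.ProfF

/-! # Charts at the aligned corners: assembly for a subfamily -/

namespace Pool.Agent.Strip051.PB

attribute [local irreducible] padd psub pneg pmul psq pinv psqrt psqrtg pabs pps pmax pmin pphi plam
  pcase phf pnat prat pscale pnorm pdc pnc pone ppos pnn Enc pbad pzero

open Pool.Agent.StripNear Pool.Agent.StripSquare Pool.Agent.Strip051.Sweep
open Pool.Agent.Strip051.LC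

variable {n : ℕ} {P : Pos n} {RK RL : Fin (n + 1) → ℕ → ℝ → ℝ → ℝ}
  {Gt : Fin (n + 1) → ℕ → Gn} {pc : ℕ → Piece} {x κ : ℝ}
  {far : Bool} {N0 : ℕ} {C0 : Fn1} {C : Cp} {qa qb qc : ℕ} {j k : Fin (n + 1)} {lo hi W : ℕ}

/-- The range of `x` for a cube of half width `W / 2 ^ 30`. -/
structure XR (W : ℕ) (x : ℝ) : Prop where
  a : (W : ℝ) / 1073741824 ≤ x
  b : x ≤ 1 - (W : ℝ) / 1073741824
  c : W ≤ 134217728
  p : 0 < W

theorem XR.of {P3 W3 : ℕ} (hx : (P3 : ℝ) / S ≤ x) (hx' : x ≤ ((P3 : ℝ) + W3) / S) (h1 : W ≤ P3)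
    (h2 : P3 + W3 + W ≤ 1073741824) (h3 : W ≤ 134217728) (h4 : 0 < W) : XR W x := by
  have e : (S : ℝ) = 1073741824 := by
    unfold S
    push_cast
    ring
  rw [e] at hx hx'
  have k1 : (W : ℝ) ≤ P3 := by exact_mod_cast h1
  have k2 : (P3 : ℝ) + W3 + W ≤ 1073741824 := by exact_mod_cast h2
  refine ⟨?_, ?_, h3, h4⟩
  · have : (W : ℝ) / 1073741824 ≤ (P3 : ℝ) / 1073741824 := by
      apply div_le_div_of_nonneg_right k1
      norm_num
    linarith
  · have : ((P3 : ℝ) + W3) / 1073741824 ≤ (1073741824 - W) / 1073741824 := by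
      apply div_le_div_of_nonneg_right (by linarith)
      norm_num
    have e2 : (1073741824 - (W : ℝ)) / 1073741824 = 1 - (W : ℝ) / 1073741824 := by
      field_simp
    linarith

theorem XR.p0 (h : XR W x) : 0 < (W : ℝ) / 1073741824 := by
  have : (0 : ℝ) < W := by exact_mod_cast h.p
  positivity

/-- the certified data from the parts -/
theorem cornS_of (Q : CpQ C qa qb qc) (side : SideOk P RK RL pc x) (gn : GnOk P RK RL Gt x)
    (X : XR W x) (lh : lo ≤ hi) (hn : hi ≤ n) {l : Fin (n + 1)} (hl : l.val = lo)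
    (at1 : (Gt j qa).At C.m1 ((C.h1 : ℝ) / 2) (C0.v x) x)
    (at2 : (Gt k (cond C.fam qb qc)).At C.mn ((C.hn : ℝ) / 2) (C0.v x) x)
    (att : (Gt l (cond C.fam qc qb)).At C.mt ((C.ht : ℝ) / 2) (C0.v x) x)
    (stm : ∀ ρ a, CRng ρ a x → 0 < ρ → ρ ≤ (W : ℝ) / S →
      AllS Gt far N0 C (Gt j qa) (Gt k (cond C.fam qb qc)) (cond C.fam qc qb) lo hi ρ a x) :
    CornS P RK RL pc Gt far N0 C0 C qa qb qc j k lo hi ((W : ℝ) / 1073741824) x where
  ok := Q.ok
  con := Q.con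
  qa2 := Q.qa2
  qb2 := Q.qb2
  qc2 := Q.qc2
  m1 := Q.m1
  m2 := Q.m2
  m3 := Q.m3
  side := side
  gn := gn
  x0 := lt_of_lt_of_le X.p0 X.a
  x1 := by linarith [X.b, X.p0]
  δx := X.a
  δx' := X.b
  δ8 := by
    have : (W : ℝ) ≤ 134217728 := by exact_mod_cast X.c
    rw [div_le_iff₀ (by norm_num)]
    linarith
  lh := lh
  hn := hn
  at1 := at1
  at2 := at2
  att := by
    have e : (⟨lo, by omega⟩ : Fin (n + 1)) = l := Fin.ext hl.symm
    rw [e]
    exact att
  stm := fun ρ a B h0 h1 => stm ρ a B h0 (by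
    have e : (S : ℝ) = 1073741824 := by
      unfold S
      push_cast
      ring
    rw [e]
    exact h1)

/-- the half width as a bound for the tight triangles -/
theorem le_sixteenth {ρ : ℝ} (h : ρ ≤ (W : ℝ) / S) (hW : W ≤ 67108864) : ρ ≤ 1 / 16 := by
  have e : (S : ℝ) = 1073741824 := by
    unfold S
    push_cast
    ring
  have : (W : ℝ) ≤ 67108864 := by exact_mod_cast hW
  rw [e] at h
  have k : (W : ℝ) / 1073741824 ≤ 1 / 16 := by
    rw [div_le_iff₀ (by norm_num)]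
    linarith
  linarith

theorem XR.x0 (h : XR W x) : 0 < x := lt_of_lt_of_le h.p0 h.a

end Pool.Agent.Strip051.PB
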