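import Pool.Agent.Strip051.PB.Pair

/-! # The slope of the square root which vanishes on the negative half line -/

namespace Pool.Agent.Strip051.PB

section

variable {E : Pt} {N : ℝ} {A B D : ℕ} {a b : ℝ}

/-- the square root, both arguments positive or both not positive -/
theorem pr_sqrtgz (h : Pr E N A B D a b) :
    Pr E N (psqrtg A) (psqrtg B) (pch A B pzero
      (pmul (pnorm D) (pinv (padd (psqrtg A) (psqrtg B))))) (√a) (√b) := by
  obtain ⟨d, k, e⟩ := h.d
  refine ⟨enc_sqrtg h.l, enc_sqrtg h.r, ?_⟩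
  unfold pch
  rcases hb : band (pnp A) (pnp B) with _ | _
  · refine pg_slope ⟨d * (√a + √b)⁻¹,
      enc_mul (enc_norm k) (enc_inv (enc_add (enc_sqrtg h.l) (enc_sqrtg h.r))), fun ht => ?_⟩
      (fun hN => by rw [h.eq0 hN])
    obtain ⟨t1, t2⟩ := band_true ht
    exact sqrt_slope (ppos_sound h.l t1) (ppos_sound h.r t2) e
  · obtain ⟨t1, t2⟩ := band_true hb
    refine ⟨0, enc_zero E, ?_⟩
    rw [Real.sqrt_eq_zero_of_nonpos (pnp_sound h.l t1),
      Real.sqrt_eq_zero_of_nonpos (pnp_sound h.r t2)]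
    ring

end

end Pool.Agent.Strip051.PB
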