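import Pool.Agent.Strip051.PB.C12A
import Pool.Agent.Strip051.PB.CornA
import Pool.Agent.Strip051.PB.PairZ

/-! # The corner `(1, 1, 2)`: the germs at the top -/

namespace Pool.Agent.Strip051.PB

open Pool.Agent.StripNear Pool.Agent.StripSquare Pool.Agent.Strip051.Sweep
open Pool.Agent.Strip051.LC

/-- the zero function -/
noncomputable def zf : Fn1 := ⟨fun _ => pzero, fun _ => 0, fun _ => enc_zero _⟩

/-- the zero function of two variables -/
noncomputable def zf2 : Fn2 := ⟨fun _ _ => pzero, fun _ _ => 0, fun _ _ => enc_zero _⟩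

/-- the germ of the unit circle in the quarter `3` -/
noncomputable def gz : Gn where
  nd := ⟨idf, zf, zf2, zf2⟩
  X := ⟨fun _ _ _ => pzero, fun _ => pr_const (enc_zero _)⟩
  K := ⟨fun _ _ _ _ => pzero, fun _ _ => pr_const (enc_zero _)⟩
  L := ⟨fun _ _ _ _ => pzero, fun _ _ => pr_const (enc_zero _)⟩
  cc := false

section

variable {n : ℕ} {P : Pos n} {RK RL : Fin (n + 1) → ℕ → ℝ → ℝ → ℝ}
  {Gt : Fin (n + 1) → ℕ → Gn} {KA : ℕ} {x c0 : ℝ}

theorem Gn.At.n1 {G : Gn} (h : G.At ((1 : ℕ) : ℝ) (((1 : ℕ) : ℝ) / 2) c0 x) :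
    G.At 1 (1 / 2) c0 x := by
  rw [Nat.cast_one] at h
  exact h

theorem gz_at3 (l : Bool) : gz.At3 l c0 x := ⟨rfl, by
  show (0 : ℝ) = c0 * 0
  ring, rfl⟩

theorem crv_two (j : Fin (n + 1)) : crv P j 3 2 = 0 := by
  have h1 : c1n 2 = 0 := by
    unfold c1n
    exact Real.sqrt_eq_zero_of_nonpos (by norm_num)
  have h2 : swn 2 = 1 / 2 := by
    unfold swn
    rw [show (1 : ℝ) - 3 / 4 * (2 - 1) ^ 2 = (1 / 2) ^ 2 by norm_num, Real.sqrt_sq (by norm_num)]
  have h3 : c3n 2 = 0 := by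
    unfold c3n
    exact Real.sqrt_eq_zero_of_nonpos (by norm_num)
  have hw : Wn (decide (2 ≤ 3)) 2 = 0 := by
    unfold Wn
    show swn 2 + -(1 / 2) = 0
    rw [h2]
    norm_num
  unfold crv gamn
  rw [h1, h3, hw]
  split_ifs <;> ring

theorem crv0_top {y : ℝ} (hq : InQ 3 y) : crv P 0 3 y = 0 := by
  obtain ⟨h1, h2⟩ := hq
  rw [crv0q]
  unfold c1n
  exact Real.sqrt_eq_zero_of_nonpos (by nlinarith)

theorem InQ.two : InQ 3 2 := ⟨by norm_num, le_rfl⟩

/-- the values at the top from the facts about a node -/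
theorem at3_of {G : Gn} {j : Fin (n + 1)} {l : Bool} (hc : G.cc = false)
    (h : At P RK RL G.nd j 3 2 (c3r l 2) x) (hK : RK j 3 2 x = 0) (hL : RL j 3 2 x = 0) :
    G.At3 l c0 x := by
  have e : c3r l 2 = cond l 2 0 := by
    cases l
    · show c3n 2 = 0
      unfold c3n
      exact Real.sqrt_eq_zero_of_nonpos (by norm_num)
    · rfl
  rw [e] at h
  have ec : cR G.cc (cond l 2 0) = cond l 2 0 := by rw [hc]; rfl
  refine ⟨?_, ?_, ?_⟩
  · show G.nd.X.v (cR G.cc (cond l 2 0)) = 0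
    rw [ec, h.X, crv_two]
  · show G.nd.K.v (cR G.cc (cond l 2 0)) x = c0 * 0
    rw [ec, h.K, hK]
    ring
  · show G.nd.L.v (cR G.cc (cond l 2 0)) x = 0
    rw [ec, h.L, hL]

/-- the nodes of the quarter `3` from the facts -/
theorem Gn3.of (hK : Pins P RK x) (hL : Pins P RL x) (hc : ∀ j, (Gt j 3).cc = false)
    (hz : (Gt 0 3).nd = gz.nd)
    (h : ∀ (j : Fin (n + 1)) (y : ℝ), j ≠ 0 → OnC j 3 y →
      At P RK RL (Gt j 3).nd j 3 y (c3r (decide (j.val ≤ KA)) y) x) : Gn3 P RK RL Gt KA x := by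
  have ec : ∀ (j : Fin (n + 1)) (z : ℝ), cR (Gt j 3).cc z = z := fun j z => by
    rw [hc]
    rfl
  have e1 : ∀ y : ℝ, InQ 3 y → 1 ≤ h0 * y := fun y hy => by
    have hp := h0_pos
    have hh := h0_sq
    have h1 := hy.1
    by_contra hh'
    push Not at hh'
    have : (h0 * y) ^ 2 < 1 := by
      rw [sq_lt_one_iff₀ (mul_nonneg hp.le hy.nonneg)]
      exact hh'
    rw [mul_pow, hh] at this
    nlinarith
  refine ⟨?_, ?_, ?_⟩
  · intro j y hq
    show (Gt j 3).nd.X.v (cR (Gt j 3).cc _) = _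
    rw [ec]
    by_cases hj : j = 0
    · subst hj
      rw [hz, crv0_top hq]
      rfl
    · exact (h j y hj ⟨hq, fun h => absurd h hj⟩).X
  · intro j y hq
    show (Gt j 3).nd.K.v (cR (Gt j 3).cc _) x = _
    rw [ec]
    by_cases hj : j = 0
    · subst hj
      rw [hz, hK.one 3 y hq (e1 y hq)]
      rfl
    · exact (h j y hj ⟨hq, fun h => absurd h hj⟩).K
  · intro j y hq
    show (Gt j 3).nd.L.v (cR (Gt j 3).cc _) x = _
    rw [ec]
    by_cases hj : j = 0
    · subst hj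
      rw [hz, hL.one 3 y hq (e1 y hq)]
      rfl
    · exact (h j y hj ⟨hq, fun h => absurd h hj⟩).L

/-- the range of the dimensions -/
theorem div_S_le {D k : ℕ} (h : D * k ≤ 1073741824) (hk : 0 < k) : (D : ℝ) / S ≤ 1 / k := by
  rw [S_one, div_le_div_iff₀ (by norm_num) (by exact_mod_cast hk)]
  have : (D : ℝ) * k ≤ 1073741824 := by exact_mod_cast h
  linarith

end

end Pool.Agent.Strip051.PB
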