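import Pool.Agent.Strip051.PB.CRow
import Pool.Agent.Strip051.LC.Exact.Assemble

/-! # The costs of a table from the rows -/

namespace Pool.Agent.Strip051.PB

open Pool.Agent.StripNear Pool.Agent.StripSquare Pool.Agent.Strip051.Sweep
open Pool.Agent.Strip051.LC
open Pool.Agent.Strip051.LC.Box (Aff affv mnv cbv le_mnv le_cbv mnv_le)

/-! ### The weights -/

section

attribute [local irreducible] padd psub pneg pmul psq pinv psqrt psqrtg pabs pps pmax pmin pphi plam
  pcase phf pnat prat pscale pnorm pdc pnc pone ppos pnn Enc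

/-- the constant of the wall -/
noncomputable def esF : Fn1 where
  t X := pnorm (padd (padd (phf X) (c1T X)) (pneg pone))
  v := esn
  enc h := enc_cast (enc_norm (enc_add (enc_add (enc_half h) (enc_c1T h)) (enc_neg (enc_one _))))
    (by unfold esn; ring)

/-- one half -/
noncomputable def hfF : Fn1 where
  t _ := phn 1
  v _ := 1 / 2
  enc _ := enc_cast (enc_phn _ 1) (by norm_num)

/-- the weight of the level at the near vertex -/
noncomputable def muF (N0 : ℕ) : Fn1 where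
  t X := pnorm (pmul (muT N0 X) (pnorm (phf (padd (pnc N0) X))))
  v x := mun N0 x * ((N0 + x) / 2)
  enc h := enc_norm (enc_mul (enc_muT N0 h) (enc_norm (enc_half (enc_add (enc_pnc _ N0) h))))

/-- zero -/
noncomputable def zrF : Fn1 where
  t _ := pzero
  v _ := 0
  enc _ := enc_zero _

/-- zero -/
noncomputable def zrG : Fn2 where
  t _ _ := pzero
  v _ _ := 0
  enc _ _ := enc_zero _

/-- the product -/
noncomputable def mlF (F G : Fn1) : Fn1 where
  t X := pnorm (pmul (F.t X) (pnorm (G.t X)))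
  v x := F.v x * G.v x
  enc h := enc_norm (enc_mul (F.enc h) (enc_norm (G.enc h)))

/-- composition -/
noncomputable def Fn1.cmp (F G : Fn1) : Fn1 where
  t X := F.t (G.t X)
  v x := F.v (G.v x)
  enc h := F.enc (G.enc h)

/-- composition in the first argument -/
noncomputable def Fn2.cmp (F : Fn2) (G : Fn1) : Fn2 where
  t X Y := F.t (G.t X) Y
  v x y := F.v (G.v x) y
  enc h h' := F.enc (G.enc h) h'

end

/-- the values at a node -/
noncomputable def CN.nd (m : Node) (c : Fn2) : CN := ⟨m.X, m.K, m.L, c⟩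

/-- the values at a node, the coordinate of the node is a function of the coordinate -/
noncomputable def CN.ndc (m : Node) (c : Fn2) (G : Fn1) : CN :=
  ⟨m.X.cmp G, m.K.cmp G, m.L.cmp G, c.cmp G⟩

/-- the values zero -/
noncomputable def CN.zr : CN := ⟨zrF, zrG, zrG, zrG⟩

/-! ### From the rows to the costs -/

section

variable {n : ℕ} {ι : Type}

/-- The node functions describe the point of the curve `j`; `w` and `u` are the weights of the third
kernel in the certificate and in the cost. -/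
structure AtN (Xc : Fin (n + 1) → ℕ → ℝ → ℝ) (RK RL RC : Fin (n + 1) → ℕ → ℝ → ℝ → ℝ) (w u : ℝ)
    (m : CN) (j : Fin (n + 1)) (q : ℕ) (y p x : ℝ) : Prop where
  X : m.X.v p = Xc j q y
  K : m.K.v p x = RK j q y x
  L : m.L.v p x = RL j q y x
  C : w * m.C.v p x = u * RC j q y x

/-- The costs in a segment and a quarter. -/
def SegR (Xc : Fin (n + 1) → ℕ → ℝ → ℝ) (RK RL RC : Fin (n + 1) → ℕ → ℝ → ℝ → ℝ)
    (w1 w2 w3 : ℝ) (C : List (List Aff)) (a : ℕ) (i : Fin n) (x : ℝ) : Prop :=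
  ∀ y, InQ a y → ∀ l, 0 ≤ l → l ≤ 1 →
    ccl (w1 * faR a y * RK i.castSucc a y x) (w1 * faR a y * RK i.succ a y x)
      (w2 * RL i.castSucc a y x) (w2 * RL i.succ a y x) (w3 * RC i.castSucc a y x)
      (w3 * RC i.succ a y x) l ≤
      cbv C ((1 - l) * Xc i.castSucc a y + l * Xc i.succ a y) (h0 * y)

/-- The costs of the unit edges in a quarter. -/
def UniR (Xc : Fin (n + 1) → ℕ → ℝ → ℝ) (RK RL RC : Fin (n + 1) → ℕ → ℝ → ℝ → ℝ)
    (w1 w2 w3 : ℝ) (U : List (List Aff)) (a : ℕ) (x : ℝ) : Prop :=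
  ∀ y, InQ a y → h0 * y < 1 →
    |w1 * faR a y * RK 0 a y x| + |w2 * RL 0 a y x| + |w3 * RC 0 a y x| ≤
      cbv U (Xc 0 a y) (h0 * y)

variable {Xc : Fin (n + 1) → ℕ → ℝ → ℝ} {RK RL RC : Fin (n + 1) → ℕ → ℝ → ℝ → ℝ} {m0 m1 : CN}
  {Y w1 w2 w3 : Fn1} {a : ℕ} {C : List (List Aff)} {p x y : ℝ}

theorem InQ.nn {q : ℕ} {y : ℝ} (h : InQ q y) : 0 ≤ y := h.nonneg

/-- A segment at one height from a certificate. -/
theorem CR.seg (h : CR m0 m1 Y w1 w2 w3 a C p x) (hq : InQ a y) (hY : Y.v p = y) {i : Fin n}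
    {u : ℝ} (A0 : AtN Xc RK RL RC (w3.v x) u m0 i.castSucc a y p x)
    (A1 : AtN Xc RK RL RC (w3.v x) u m1 i.succ a y p x) :
    ∀ l, 0 ≤ l → l ≤ 1 →
      ccl (w1.v x * faR a y * RK i.castSucc a y x) (w1.v x * faR a y * RK i.succ a y x)
        (w2.v x * RL i.castSucc a y x) (w2.v x * RL i.succ a y x) (u * RC i.castSucc a y x)
        (u * RC i.succ a y x) l ≤
        cbv C ((1 - l) * Xc i.castSucc a y + l * Xc i.succ a y) (h0 * y) := by
  intro l l0 l1
  have := h (by rw [hY]; exact hq.nn) l l0 l1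
  unfold cvR CV.cst CV.X at this
  simp only at this
  rw [hY, A0.X, A1.X, A0.K, A1.K, A0.L, A1.L, A0.C, A1.C] at this
  exact this

/-- A unit edge from a certificate. -/
theorem CR.uni (h : CR m0 m1 Y w1 w2 w3 a C p x) (hq : InQ a y) (hY : Y.v p = y) {u : ℝ}
    (A0 : AtN Xc RK RL RC (w3.v x) u m0 0 a y p x) :
    |w1.v x * faR a y * RK 0 a y x| + |w2.v x * RL 0 a y x| + |u * RC 0 a y x| ≤
      cbv C (Xc 0 a y) (h0 * y) := by
  have := h (by rw [hY]; exact hq.nn) 0 le_rfl zero_le_one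
  unfold cvR CV.cst CV.X ccl at this
  simp only at this
  rw [hY, A0.X, A0.K, A0.L, A0.C] at this
  simpa using this

/-- The tables of a system of curves in the quarters. -/
structure LinkV (K : Cur n ι) (x : ℝ) (v : ℝ → ι → ℝ) (R : Fin (n + 1) → ℕ → ℝ → ℝ → ℝ) : Prop where
  adm : K.adm v
  val : ∀ j q y, InQ q y → v (h0 * y) (K.tg j) = R j q y x

theorem Pins.linkV {P : Pos n} {R : Fin (n + 1) → ℕ → ℝ → ℝ → ℝ} (h : Pins P R x) :
    LinkV P.cur x (tbl R x) R := ⟨h.adm, fun _ _ _ hq => tbl_eq hq⟩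

variable {K : Cur n ι} {vK vL vC : ℝ → ι → ℝ} {u1 u2 u3 : ℝ}

theorem exists_y {t X : ℝ} (ht : 0 ≤ t) (h3 : X ^ 2 + t ^ 2 ≤ 3) :
    ∃ y a, t = h0 * y ∧ InQ a y := by
  have hp := h0_pos
  have hs := h0_sq
  have ht3 : t ^ 2 ≤ 3 := by nlinarith [sq_nonneg X]
  refine ⟨t / h0, qr (t / h0), by field_simp, inQ_qr (div_nonneg ht hp.le) ?_⟩
  rw [div_le_iff₀ hp]
  nlinarith

theorem faR_dst {a : ℕ} {y : ℝ} (h : InQ a y) : 1 - dst (h0 * y) / h0 = faR a y := by
  have hp := h0_pos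
  rw [faR_eq h]
  unfold dst
  rw [jn_q h, show h0 * y - (jq a : ℝ) * h0 = h0 * (y - jq a) by ring, abs_mul, abs_of_pos hp,
    mul_div_cancel_left₀ _ hp.ne']

theorem faR_nonneg {a : ℕ} {y : ℝ} (h : InQ a y) : 0 ≤ faR a y := by
  match a, h with
  | 0, ⟨h1, h2⟩ =>
    show 0 ≤ 1 - y
    linarith
  | 1, ⟨h1, h2⟩ =>
    show 0 ≤ y
    linarith
  | 2, ⟨h1, h2⟩ =>
    show 0 ≤ 2 - y
    linarith
  | 3, ⟨h1, h2⟩ =>
    show 0 ≤ y - 1
    linarith
  | _ + 4, h => exact h.elim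

/-- **The cost of a short edge** from the rows. -/
theorem cost_seg (LX : LinkX K Xc) (LK : LinkV K x vK RK) (LL : LinkV K x vL RL)
    (LC : LinkV K x vC RC) (n1 : 0 ≤ u1) (n2 : 0 ≤ u2) (n3 : 0 ≤ u3)
    (h : ∀ a, a < 4 → ∀ i, SegR Xc RK RL RC u1 u2 u3 C a i x) {X t : ℝ} (hX : 0 ≤ X) (ht : 0 ≤ t)
    (h1 : 1 ≤ X ^ 2 + t ^ 2) (h3 : X ^ 2 + t ^ 2 ≤ 3) :
    u1 * (1 - dst t / h0) * |ker K.nodes vK (fun _ _ => 0) X t| +
      u2 * |ker K.nodes vL (fun _ _ => 0) X t| + u3 * |ker K.nodes vC (fun _ _ => 0) X t| ≤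
      cbv C X t := by
  have ht3 : t ^ 2 ≤ 3 := by nlinarith [sq_nonneg X]
  obtain ⟨g1, g2⟩ := range_ker ht hX h1 h3
  obtain ⟨y, a, rfl, hq⟩ := exists_y ht h3
  obtain ⟨i, i1, i2⟩ := K.cover X _ ht ht3 g1 g2
  rw [faR_dst hq, K.seg vK LK.adm i X _ ht ht3 i1 i2, K.seg vL LL.adm i X _ ht ht3 i1 i2,
    K.seg vC LC.adm i X _ ht ht3 i1 i2, LK.val _ a y hq, LK.val _ a y hq, LL.val _ a y hq,
    LL.val _ a y hq, LC.val _ a y hq, LC.val _ a y hq]
  obtain ⟨l, hl⟩ : ∃ l, l = (X - K.cv i.castSucc (h0 * y)) /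
    (K.cv i.succ (h0 * y) - K.cv i.castSucc (h0 * y)) := ⟨_, rfl⟩
  have l0 : 0 ≤ l := by rw [hl]; exact div_nonneg (by linarith) (by linarith)
  have l1 : l ≤ 1 := by rw [hl]; exact div_le_one_of_le₀ (by linarith) (by linarith)
  have eX : X = (1 - l) * K.cv i.castSucc (h0 * y) + l * K.cv i.succ (h0 * y) := by
    rcases (i1.trans i2).eq_or_lt with h9 | h9
    · have : X = K.cv i.castSucc (h0 * y) := le_antisymm (by rw [h9]; exact i2) i1
      rw [← h9, this]
      ring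
    · have h10 : K.cv i.succ (h0 * y) - K.cv i.castSucc (h0 * y) ≠ 0 := by linarith
      rw [hl]
      field_simp
      ring
  have key := h a hq.lt_four i y hq l l0 l1
  rw [LX i.castSucc a y hq, LX i.succ a y hq] at eX
  rw [← hl]
  rw [← eX] at key
  refine le_trans (le_of_eq ?_) key
  have hf := faR_nonneg hq
  have e : ∀ (w a b : ℝ), 0 ≤ w → w * |a + (b - a) * l| = |(1 - l) * (w * a) + l * (w * b)| := by
    intro w a b hw
    rw [show (1 - l) * (w * a) + l * (w * b) = w * (a + (b - a) * l) by ring, abs_mul,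
      abs_of_nonneg hw]
  unfold ccl
  rw [e _ _ _ (mul_nonneg n1 hf), e _ _ _ n2, e _ _ _ n3]

/-- **The cost of a unit edge** from the rows. -/
theorem cost_uni (LX : LinkX K Xc) (LK : LinkV K x vK RK) (LL : LinkV K x vL RL)
    (LC : LinkV K x vC RC) (first : First K) (n1 : 0 ≤ u1) (n2 : 0 ≤ u2) (n3 : 0 ≤ u3)
    {U : List (List Aff)} (h : ∀ a, a < 3 → UniR Xc RK RL RC u1 u2 u3 U a x)
    (hU : 0 ≤ cbv U 0 1) {X t : ℝ} (hX : 0 ≤ X) (ht : 0 ≤ t) (h1 : X ^ 2 + t ^ 2 = 1) :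
    u1 * (1 - dst t / h0) * |ker K.nodes vK (fun _ _ => 0) X t| +
      u2 * |ker K.nodes vL (fun _ _ => 0) X t| + u3 * |ker K.nodes vC (fun _ _ => 0) X t| ≤
      cbv U X t := by
  have hp := h0_pos
  have hs := h0_sq
  have hT1 : t ≤ 1 := by nlinarith
  rcases hT1.lt_or_eq with hlt | heq
  · have e1 : c1 t = X := by
      have h2 := c1_sq ht hT1
      have h3 := c1_nonneg t
      nlinarith
    obtain ⟨y, a, rfl, hq⟩ := exists_y (X := X) ht (by linarith)
    obtain ⟨d1, d2⟩ := first _ ht hlt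
    have kA := K.val vK LK.adm 0 _ ht d1
    have kB := K.val vL LL.adm 0 _ ht d1
    have kC := K.val vC LC.adm 0 _ ht d1
    rw [d2, e1] at kA kB kC
    rw [kA, kB, kC, faR_dst hq, LK.val _ a y hq, LL.val _ a y hq, LC.val _ a y hq]
    have ha : a < 3 := by
      by_contra hc
      have h4 := hq.lt_four
      have : a = 3 := by omega
      subst this
      have h5 : 3 / 2 ≤ y := hq.1
      nlinarith
    have key := h a ha y hq hlt
    have e0 : Xc 0 a y = X := by
      rw [← LX 0 a y hq, d2, e1]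
    rw [e0] at key
    have hf := faR_nonneg hq
    rw [abs_mul (u1 * faR a y), abs_mul u2, abs_mul u3, abs_of_nonneg (mul_nonneg n1 hf),
      abs_of_nonneg n2, abs_of_nonneg n3] at key
    exact key
  · have hX0 : X = 0 := by
      rw [heq] at h1
      nlinarith
    have z : ∀ v : ℝ → ι → ℝ, ker K.nodes v (fun _ _ => 0) 0 t = 0 := by
      intro v
      have := ker_odd (v := v) (B := fun _ _ => 0) K.isNodes (fun _ => rfl) 0 t
      rw [neg_zero] at this
      linarith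
    rw [hX0, z, z, z, heq]
    simpa using hU

end

/-! ### The structures of the costs -/

theorem esn_eq_amp {κ x : ℝ} (x0 : 0 < x) (x1 : x < 1) (hκ : κ * h0 = ken x) :
    LC.amp κ (h0 * x) = esn x := by
  have hp := h0_pos
  have hx : 1 - x ≠ 0 := by linarith
  have e : LC.amp κ (h0 * x) = κ * h0 * (x * (1 - x)) / 2 := by
    unfold LC.amp
    field_simp
  rw [e, hκ]
  unfold ken
  field_simp

theorem esn_pos2 {x : ℝ} (x0 : 0 < x) (x1 : x < 1) : 0 ≤ esn x := by
  unfold esn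
  have h : 1 - x / 2 ≤ c1n x := by
    unfold c1n
    refine Real.le_sqrt_of_sq_le ?_
    nlinarith
  linarith

section

variable {n : ℕ} {ι : Type} {K : Cur n ι} {Xc : Fin (n + 1) → ℕ → ℝ → ℝ}
  {RA RB RL RC Z : Fin (n + 1) → ℕ → ℝ → ℝ → ℝ} {vA vB vL vC : ℝ → ι → ℝ} {x κ : ℝ} {N0 : ℕ}
  {CF UF CN' UN : List (List Aff)}

theorem mu_pos2 (N0 : ℕ) (x : ℝ) : 0 ≤ mun N0 x := by
  unfold mun c1n
  positivity

/-- the tables zero -/
noncomputable def zrT {α : Type} : α → ℕ → ℝ → ℝ → ℝ := fun _ _ _ _ => 0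

/-- **The costs of two kernels.** -/
theorem costTab_rows (LX : LinkX K Xc) (LA : LinkV K x vA RA) (LB : LinkV K x vB RB)
    (LL : LinkV K x vL RL) (first : First K) (x0 : 0 < x) (x1 : x < 1) (hκ : κ * h0 = ken x)
    (sF : ∀ a, a < 4 → ∀ i, SegR Xc RA RL zrT (esn x) (1 / 2) 0 CF a i x)
    (sN : ∀ a, a < 4 → ∀ i, SegR Xc RB RL zrT (esn x) (mun N0 x * ((N0 + x) / 2)) 0 CN' a i x)
    (uF : ∀ a, a < 3 → UniR Xc RA RL zrT (esn x) (1 / 2) 0 UF a x)
    (uN : ∀ a, a < 3 → UniR Xc RB RL zrT (esn x) (mun N0 x * ((N0 + x) / 2)) 0 UN a x)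
    (oF : 0 ≤ cbv UF 0 1) (oN : 0 ≤ cbv UN 0 1) :
    CostTab (tab K.nodes vA vB vL) N0 κ (h0 * x) (cbv CF) (cbv UF) (cbv CN') (cbv UN) := by
  have hp := h0_pos
  have hm := mu_pos2 N0 x
  have he := esn_pos2 x0 x1
  have hn : (0 : ℝ) ≤ N0 := Nat.cast_nonneg N0
  have hw : 0 ≤ mun N0 x * ((N0 + x) / 2) := by positivity
  have ew : mu N0 (h0 * x) * (N0 + h0 * x / h0) / 2 = mun N0 x * ((N0 + x) / 2) := by
    rw [mu_n, mul_div_cancel_left₀ _ hp.ne']
    ring
  have sF' : ∀ a, a < 4 → ∀ i, SegR Xc RA RL RL (esn x) (1 / 2) 0 CF a i x := by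
    intro a ha i y hq l l0 l1
    have := sF a ha i y hq l l0 l1
    unfold zrT at this
    simpa using this
  have sN' : ∀ a, a < 4 → ∀ i,
      SegR Xc RB RL RL (esn x) (mun N0 x * ((N0 + x) / 2)) 0 CN' a i x := by
    intro a ha i y hq l l0 l1
    have := sN a ha i y hq l l0 l1
    unfold zrT at this
    simpa using this
  have uF' : ∀ a, a < 3 → UniR Xc RA RL RL (esn x) (1 / 2) 0 UF a x := by
    intro a ha y hq hy
    have := uF a ha y hq hy
    unfold zrT at this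
    simpa using this
  have uN' : ∀ a, a < 3 → UniR Xc RB RL RL (esn x) (mun N0 x * ((N0 + x) / 2)) 0 UN a x := by
    intro a ha y hq hy
    have := uN a ha y hq hy
    unfold zrT at this
    simpa using this
  refine ⟨fun X t hX ht h1 h3 => ?_, fun X t hX ht h1 h3 => ?_, fun X t hX ht h1 => ?_,
    fun X t hX ht h1 => ?_⟩
  · have := cost_seg LX LA LL LL he (by norm_num) le_rfl sF' hX ht h1 h3
    unfold Tab.costF tab
    rw [esn_eq_amp x0 x1 hκ]
    simp only
    linarith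
  · have := cost_seg LX LB LL LL he hw le_rfl sN' hX ht h1 h3
    unfold Tab.costN tab
    rw [esn_eq_amp x0 x1 hκ, ew]
    simp only
    linarith
  · have := cost_uni LX LA LL LL first he (by norm_num) le_rfl uF' oF hX ht h1
    unfold Tab.costF tab
    rw [esn_eq_amp x0 x1 hκ]
    simp only
    linarith
  · have := cost_uni LX LB LL LL first he hw le_rfl uN' oN hX ht h1
    unfold Tab.costN tab
    rw [esn_eq_amp x0 x1 hκ, ew]
    simp only
    linarith

/-- **The costs of three kernels**: the kernel at the near vertex is `E` times the kernel at the far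
vertex, `o` bounds the integrals of the density of the third kernel and `o = h0 * o'`. -/
theorem costTab3_rows {E o o' : ℝ} (LX : LinkX K Xc) (LA : LinkV K x vA RA)
    (LL : LinkV K x vL RL) (LC : LinkV K x (fun T i => h0 * vC T i) RC) (first : First K)
    (x0 : 0 < x) (x1 : x < 1) (hκ : κ * h0 = ken x) (hE : 0 ≤ E) (ho : o = h0 * o') (ho' : 0 ≤ o')
    (sF : ∀ a, a < 4 → ∀ i, SegR Xc RA RL zrT (esn x) (1 / 2) 0 CF a i x)
    (sN : ∀ a, a < 4 → ∀ i, SegR Xc RA RL RC (esn x * E) (mun N0 x * ((N0 + x) / 2))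
      (mun N0 x * o') CN' a i x)
    (uF : ∀ a, a < 3 → UniR Xc RA RL zrT (esn x) (1 / 2) 0 UF a x)
    (uN : ∀ a, a < 3 → UniR Xc RA RL RC (esn x * E) (mun N0 x * ((N0 + x) / 2))
      (mun N0 x * o') UN a x)
    (oF : 0 ≤ cbv UF 0 1) (oN : 0 ≤ cbv UN 0 1) :
    CostTab3 (tab K.nodes vA (fun T i => E * vA T i) vL) (ker K.nodes vC fun _ _ => 0) o N0 κ
      (h0 * x) (cbv CF) (cbv UF) (cbv CN') (cbv UN) := by
  have hp := h0_pos
  have hm := mu_pos2 N0 x
  have he := esn_pos2 x0 x1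
  have hn : (0 : ℝ) ≤ N0 := Nat.cast_nonneg N0
  have hw : 0 ≤ mun N0 x * ((N0 + x) / 2) := by positivity
  have ew : mu N0 (h0 * x) * (N0 + h0 * x / h0) / 2 = mun N0 x * ((N0 + x) / 2) := by
    rw [mu_n, mul_div_cancel_left₀ _ hp.ne']
    ring
  have sF' : ∀ a, a < 4 → ∀ i, SegR Xc RA RL RL (esn x) (1 / 2) 0 CF a i x := by
    intro a ha i y hq l l0 l1
    have := sF a ha i y hq l l0 l1
    unfold zrT at this
    simpa using this
  have uF' : ∀ a, a < 3 → UniR Xc RA RL RL (esn x) (1 / 2) 0 UF a x := by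
    intro a ha y hq hy
    have := uF a ha y hq hy
    unfold zrT at this
    simpa using this
  have k1 : ∀ X t, ker K.nodes (fun T i => E * vA T i) (fun _ _ => 0) X t =
      E * ker K.nodes vA (fun _ _ => 0) X t := fun X t => ker_smul E vA X t
  have k2 : ∀ X t, ker K.nodes (fun T i => h0 * vC T i) (fun _ _ => 0) X t =
      h0 * ker K.nodes vC (fun _ _ => 0) X t := fun X t => ker_smul h0 vC X t
  have fin : ∀ (A D L F V : ℝ), A = esn x * E * F * |D| + mun N0 x * ((N0 + x) / 2) * |L| +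
      mun N0 x * o' * |h0 * V| → esn x * F * |E * D| + mun N0 x * ((N0 + x) / 2) * |L| +
      mun N0 x * (|V| * o) = A := by
    intro A D L F V hA
    rw [hA, abs_mul, abs_mul, abs_of_nonneg hE, abs_of_pos hp, ho]
    ring
  refine ⟨fun X t hX ht h1 h3 => ?_, fun X t hX ht h1 h3 => ?_, fun X t hX ht h1 => ?_,
    fun X t hX ht h1 => ?_⟩
  · have := cost_seg LX LA LL LL he (by norm_num) le_rfl sF' hX ht h1 h3
    unfold Tab.costF tab
    rw [esn_eq_amp x0 x1 hκ]
    simp only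
    linarith
  · have := cost_seg LX LA LL LC (mul_nonneg he hE) hw (mul_nonneg hm ho') sN hX ht h1 h3
    rw [k2] at this
    unfold Tab.costN tab
    rw [esn_eq_amp x0 x1 hκ, ew, mu_n]
    simp only
    rw [k1, fin _ _ _ _ _ rfl]
    exact this
  · have := cost_uni LX LA LL LL first he (by norm_num) le_rfl uF' oF hX ht h1
    unfold Tab.costF tab
    rw [esn_eq_amp x0 x1 hκ]
    simp only
    linarith
  · have := cost_uni LX LA LL LC first (mul_nonneg he hE) hw (mul_nonneg hm ho') uN oN hX ht h1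
    rw [k2] at this
    unfold Tab.costN tab
    rw [esn_eq_amp x0 x1 hκ, ew, mu_n]
    simp only
    rw [k1, fin _ _ _ _ _ rfl]
    exact this

end

end Pool.Agent.Strip051.PB
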