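import Pool.Agent.Strip051.PB.FlFin
import Pool.Agent.Strip051.PB.CTab

/-! # The exact count for a table

From the rows (`RowsS`, `RowsE`), the inequalities at the floor and the costs. -/

namespace Pool.Agent.Strip051.PB

open Pool.Agent.StripNear Pool.Agent.StripSquare Pool.Agent.Strip051 Pool.Agent.Strip051.Sweep
open Pool.Agent.Strip051.LC Pool.Agent.Strip051.LC.Exact
open Pool.Agent.Strip051.LC.Box (Aff cbv)

section

variable {n : ℕ} {P : Pos n} {RA RB RL RC : Fin (n + 1) → ℕ → ℝ → ℝ → ℝ} {x lv E o th : ℝ}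
  {CF UF RF CN' UN RN : List (List Aff)}

theorem mu_nn (x : ℝ) : 0 ≤ mu 3 (h0 * x) := by
  rw [mu_n]
  unfold mun
  have : 0 ≤ c1n x := Real.sqrt_nonneg _
  positivity

theorem kE_eq (x0 : 0 < x) (x1 : x < 1) : ken x / h0 = kE (h0 * x) := (kE_ken x0 x1).symm

/-- **The exact count from two kernels**, rows at the floor given. -/
theorem RowsS.goodR (h : RowsS P RA RB RL 3 lv (ken x / h0) x)
    (rows : RowOK ((tab P.cur.nodes (tbl RA x) (tbl RB x) (tbl RL x)).flat 3 (ken x / h0)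
      (h0 * x)) 3 (h0 * x))
    (ct : CostTab (tab P.cur.nodes (tbl RA x) (tbl RB x) (tbl RL x)) 3 (ken x / h0) (h0 * x)
      (cbv CF) (cbv UF) (cbv CN') (cbv UN))
    (okF : CostOK (cbv CF) (cbv UF) (cbv RF) (we (h0 * x)))
    (okN : CostOK (cbv CN') (cbv UN) (cbv RN) (we (h0 * x) + mu 3 (h0 * x) * wq (h0 * x))) :
    Good (h0 * x) :=
  fun _ hn => h.certS.fixSm.count le_rfl okF okN ct rows hn

/-- **The exact count from two kernels**, no window. -/
theorem RowsS.good (h : RowsS P RA RB RL 3 lv (ken x / h0) x) (x0 : 0 < x)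
    (WF : WallN P x 0 (fun _ => 0) (tbl RA x) (tbl RL x) fun _ _ => 0)
    (WN : WallN P x (mu 3 (h0 * x)) (fun _ => 0) (tbl RB x) (tbl RL x) fun _ _ => 0)
    (ct : CostTab (tab P.cur.nodes (tbl RA x) (tbl RB x) (tbl RL x)) 3 (ken x / h0) (h0 * x)
      (cbv CF) (cbv UF) (cbv CN') (cbv UN))
    (okF : CostOK (cbv CF) (cbv UF) (cbv RF) (we (h0 * x)))
    (okN : CostOK (cbv CN') (cbv UN) (cbv RN) (we (h0 * x) + mu 3 (h0 * x) * wq (h0 * x))) :
    Good (h0 * x) :=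
  h.goodR (certS_wall h.certS (kE_eq x0 h.x1)
    (FV.two x0 h.x1 le_rfl h.pinA.link h.pinL.link).par WF
    (FV.two x0 h.x1 (mu_nn x) h.pinB.link h.pinL.link).par WN) ct okF okN

variable {f : ℝ → ℝ} {vC : ℝ → Fin (n + 1) → ℝ}

/-- **The exact count from three kernels**, rows at the floor given. -/
theorem RowsE.goodR (h : RowsE P RA RL RC f 3 lv (ken x / h0) x E o)
    (rows : RowOK ((tab P.cur.nodes (tbl RA x) (fun T i => E * tbl RA x T i) (tbl RL x)).flat3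
      (ker P.cur.nodes (tbl RC x) fun _ _ => 0) f 3 (ken x / h0) (h0 * x)) 3 (h0 * x))
    (ct : CostTab3 (tab P.cur.nodes (tbl RA x) (fun T i => E * tbl RA x T i) (tbl RL x))
      (ker P.cur.nodes (tbl RC x) fun _ _ => 0) o 3 (ken x / h0) (h0 * x)
      (cbv CF) (cbv UF) (cbv CN') (cbv UN))
    (okF : CostOK (cbv CF) (cbv UF) (cbv RF) (we (h0 * x)))
    (okN : CostOK (cbv CN') (cbv UN) (cbv RN) (we (h0 * x) + mu 3 (h0 * x) * wq (h0 * x))) :
    Good (h0 * x) :=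
  fun _ hn => h.certE.fixDir.count le_rfl (fun _ _ _ _ => h.osc _ _) okF okN ct rows hn

/-- **The exact count from three kernels**, no window. -/
theorem RowsE.good (h : RowsE P RA RL (smT h0⁻¹ RC) (tnt (h0 * x) th) 3 lv (ken x / h0) x E o)
    (x0 : 0 < x) (t0 : 0 < th) (t1 : th ≤ 1)
    (WF : WallN P x 0 (fun _ => 0) (tbl RA x) (tbl RL x) fun _ _ => 0)
    (WN : WallN P x (mu 3 (h0 * x)) (tnt (h0 * x) th) (fun T i => E * tbl RA x T i) (tbl RL x)
      (tbl (smT h0⁻¹ RC) x))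
    {TC : ℕ → ℝ → ℝ → ℝ → ℝ}
    (lC : Link P.cur x (tbl (smT h0⁻¹ RC) x) (smT h0⁻¹ RC) fun q X y x => h0⁻¹ * TC q X y x)
    (ct : CostTab3 (tab P.cur.nodes (tbl RA x) (fun T i => E * tbl RA x T i) (tbl RL x))
      (ker P.cur.nodes (tbl (smT h0⁻¹ RC) x) fun _ _ => 0) o 3 (ken x / h0) (h0 * x)
      (cbv CF) (cbv UF) (cbv CN') (cbv UN))
    (okF : CostOK (cbv CF) (cbv UF) (cbv RF) (we (h0 * x)))
    (okN : CostOK (cbv CN') (cbv UN) (cbv RN) (we (h0 * x) + mu 3 (h0 * x) * wq (h0 * x))) :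
    Good (h0 * x) :=
  h.goodR (certE_wall h.certE (kE_eq x0 h.x1)
    (FV.two x0 h.x1 le_rfl h.pinA.link h.pinL.link).par WF
    (FV.three (E := E) x0 h.x1 (mu_nn x) t0 t1 h.pinA h.pinA.link h.pinL.link lC).par WN) ct okF okN

end

end Pool.Agent.Strip051.PB
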