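import Pool.Agent.Strip051.PB.MoR4

/-! # The tight charts: further shapes, statements for a table (generated) -/

set_option linter.unusedVariables false

namespace Pool.Agent.Strip051.PB.Mol

open Pool.Agent.StripNear Pool.Agent.StripSquare Pool.Agent.Strip051.Sweep
open Pool.Agent.Strip051.LC Pool.Agent.Strip051.LC.MolN
open Pool.Agent.Strip051.LC.Line (tau)

theorem farT3 {n : ℕ} {P : Pos n} {RK RL : Fin (n + 1) → ℕ → ℝ → ℝ → ℝ} {pc : ℕ → Piece}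
    {T : MolT} {a b' c : ℕ} {k : Fin (n + 1)} {u b x κ : ℝ} {y' : ℝ} {sk cx : List Fn3} 
    (D : DomB u b x) (hb : 0 ≤ b) (hκ : κ * h0 = ken x) (hy' : y' = 1 + b - (x + u))
    (hd : T.kc.v (psn (x + u - b)) x = T.kc.v (psn (x + u)) x + b * (fd1B T.dq true).v u b x)
    (hit : ((T.b true).at_ u b x).it * (x + u - b) = -1)
    (t1 : tau (h0 * (x + u)) = h0 * (x + u)) (t3 : tau (h0 * y') = h0 * (-(x + u - b)))
    (hx : T.st.xs.v u b x = 1 / 2 + b * T.st.ws.v u b x) (hn : T.st.ws = fnB) 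
    (zK : ∀ X Y, T.sK.v X Y x = 0) (zX : ∀ X Y, T.sX.v X Y x = 0) (zD : ∀ X Y, T.sD.v X Y x = 0)
    (hX : crv P k b' y' = c1n (x + u - b) + 1 / 2)
    (K : (kq0Bp (T.b true) sk cx).P u b x) (hs : ∀ G ∈ sk, G.v u b x ≤ 0)
    (K1 : RK 0 a (x + u) x = (c1n (x + u) * cG (x + u) + T.kc.v (psn (x + u)) x) * (x + u))
    (K2 : RK k b' y' x = ((c1n (x + u - b) + 1 / 2) * cG (x + u - b) + T.kc.v (psn (x + u - b)) x) * (x + u - b))
    (K3 : (∀ G ∈ cx, 0 < G.v u b x) → (pc c).K.v (-T.st.xs.v u b x) (1 + b) x = -(1 / 2 + b * T.st.rs.v u b x))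
    (L1 : RL 0 a (x + u) x = cQ x (x + u) (T.kc.v (psn (x + u)) x))
    (L2 : RL k b' y' x = cQ x (x + u - b) (T.kc.v (psn (x + u - b)) x))
    (L3 : (∀ G ∈ cx, 0 < G.v u b x) → (pc c).L.v (-T.st.xs.v u b x) (1 + b) x = -(b * T.st.xk.v u b x)) :
    StA (VF κ) P RK RL pc a b' c 0 k 1 (-1) x (x + u) y' := by
  obtain ⟨hc, hP, hQ, tN, tM, tG⟩ := rq0Bp K hs
  have hcz := fnB_e D
  have e : x + u + y' = 1 + b := by rw [hy']; ring
  unfold StA VF exA vlA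
  simp only [one_mul, neg_one_mul, crv_zero]
  rw [e, hX]
  have e3 : c1n (x + u) + -(c1n (x + u - b) + 1 / 2) = -T.st.xs.v u b x := by
    rw [hx, hn]
    linear_combination -hcz
  rw [e3]
  have ha : AbsB ((T.b true).at_ u b x) u b x (c1n (x + u)) (-T.st.xs.v u b x) := ⟨by show _ = _ + b * (0 : ℝ); ring, by
    show _ = -(1 / 2 + b * T.st.ws.v u b x)
    rw [hx]⟩
  have hk : KerJB ((T.b true).at_ u b x) u b x ((c1n (x + u)) - (-T.st.xs.v u b x)) ((c1n (x + u) * cG (x + u) + T.kc.v (psn (x + u)) x) * (x + u), -(((c1n (x + u - b) + 1 / 2) * cG (x + u - b) + T.kc.v (psn (x + u - b)) x) * (x + u - b)), -(1 / 2 + b * T.st.rs.v u b x)) := ⟨by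
    show (c1n (x + u) * cG (x + u) + T.kc.v (psn (x + u)) x) * (x + u) = ((c1n (x + u) * cG (x + u) + T.kc.v (psn (x + u)) x) * (x + u)) + b * (0 : ℝ)
    ring, by
    show -(1 / 2 + b * T.st.rs.v u b x) = -(1 / 2 + b * T.st.rs.v u b x)
    rfl, by
    show -(((c1n (x + u - b) + 1 / 2) * cG (x + u - b) + T.kc.v (psn (x + u - b)) x) * (x + u - b)) = ((c1n (x + u - b) + 1 / 2) * cG (x + u - b) + (T.kc.v (psn (x + u)) x + b * (fd1B T.dq true).v u b x)) * (-(x + u - b)) - T.sK.v _ _ x * _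
    rw [zK, zero_mul, sub_zero, ← hd]
    ring⟩
  have hl : LevB ((T.b true).at_ u b x) u b x ((c1n (x + u)) - (-T.st.xs.v u b x)) (cQ x (x + u) (T.kc.v (psn (x + u)) x), -(cQ x (x + u - b) (T.kc.v (psn (x + u - b)) x)), -(b * T.st.xk.v u b x)) := ⟨by
    show cQ x (x + u) (T.kc.v (psn (x + u)) x) = cQ x (x + u) (T.kc.v (psn (x + u)) x) + b * (0 : ℝ)
    ring, by
    show -(cQ x (x + u - b) (T.kc.v (psn (x + u - b)) x)) = -(cQ x (x + u - b) (T.kc.v (psn (x + u)) x + b * (fd1B T.dq true).v u b x) + T.sX.v _ _ x * _)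
    rw [zX, zero_mul, add_zero, ← hd], by
    show -(b * T.st.xk.v u b x) = -(b * T.st.xk.v u b x)
    rfl⟩
  have key := gin0Bp D hb hκ rfl hy' hit ha hk hl t1 t3 hP hQ tN tM tG
  rw [K1, K2, (K3 hc), L1, L2, (L3 hc)]
  rw [e] at key
  exact key

theorem nearT3 {n : ℕ} {P : Pos n} {RK RL : Fin (n + 1) → ℕ → ℝ → ℝ → ℝ} {pc : ℕ → Piece}
    {T : MolT} {a b' c : ℕ} {k : Fin (n + 1)} {u b x κ : ℝ} {y' : ℝ} {sk cx : List Fn3} 
    (D : DomB u b x) (hb : 0 ≤ b) (hκ : κ * h0 = ken x) (hy' : y' = 1 + b - (x + u))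
    (hd : T.kc.v (psn (x + u - b)) x = T.kc.v (psn (x + u)) x + b * (fd1B T.dq true).v u b x)
    (hit : ((T.b true).at_ u b x).it * (x + u - b) = -1)
    (t1 : tau (h0 * (x + u)) = h0 * (x + u)) (t3 : tau (h0 * y') = h0 * (-(x + u - b)))
    (hx : T.st.xs.v u b x = 1 / 2 + b * T.st.ws.v u b x) (hn : T.st.ws = fnB) 
    (zK : ∀ X Y, T.sK.v X Y x = 0) (zX : ∀ X Y, T.sX.v X Y x = 0) (zD : ∀ X Y, T.sD.v X Y x = 0)
    (hX : crv P k b' y' = c1n (x + u - b) + 1 / 2)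
    (K : (kq1Bp (T.b true) sk cx).P u b x) (hs : ∀ G ∈ sk, G.v u b x ≤ 0)
    (hdy : |T.kc.v (psn (x + u)) x| ≤ 1 / 2) {sB sD wB wD tB tD : ℝ}
    (K1 : RK 0 a (x + u) x = (1 + mun 3 x * cR x) * sB + mun 3 x * sD)
    (K2 : RK k b' y' x = (1 + mun 3 x * cR x) * wB + mun 3 x * wD)
    (K3 : (∀ G ∈ cx, 0 < G.v u b x) → (pc c).K.v (-T.st.xs.v u b x) (1 + b) x = -((1 + mun 3 x * cR x) * tB + mun 3 x * tD))
    (hsB : sB = (c1n (x + u) * cG (x + u) + T.kc.v (psn (x + u)) x) * (x + u))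
    (hsD : sD = (cP (x + u) - (cR (x + u) + 2 * c1n (x + u)) * T.kc.v (psn (x + u)) x) * (x + u))
    (hwB : wB = ((c1n (x + u - b) + 1 / 2) * cG (x + u - b) + T.kc.v (psn (x + u - b)) x) * (x + u - b))
    (hwD : wD = (cP (x + u - b) + 1 / 2 * cD (x + u - b) - (cR (x + u - b) + 2 * c1n (x + u - b) + 1) * T.kc.v (psn (x + u - b)) x) * (x + u - b))
    (htB : (∀ G ∈ cx, 0 < G.v u b x) → tB = 1 / 2 + b * T.st.rs.v u b x)
    (htD : (∀ G ∈ cx, 0 < G.v u b x) → tD = b * T.st.k2.v u b x)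
    (L1 : RL 0 a (x + u) x = cQ x (x + u) (T.kc.v (psn (x + u)) x))
    (L2 : RL k b' y' x = cQ x (x + u - b) (T.kc.v (psn (x + u - b)) x))
    (L3 : (∀ G ∈ cx, 0 < G.v u b x) → (pc c).L.v (-T.st.xs.v u b x) (1 + b) x = -(b * T.st.xk.v u b x)) :
    StA (VN 3 κ) P RK RL pc a b' c 0 k 1 (-1) x (x + u) y' := by
  obtain ⟨hc, hP, hQ, tN, tM, tG⟩ := rq1Bp K hs
  have hcz := fnB_e D
  have e : x + u + y' = 1 + b := by rw [hy']; ring
  unfold StA VN exA vlA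
  simp only [one_mul, neg_one_mul, crv_zero]
  rw [e, hX]
  have e3 : c1n (x + u) + -(c1n (x + u - b) + 1 / 2) = -T.st.xs.v u b x := by
    rw [hx, hn]
    linear_combination -hcz
  rw [e3]
  have ha : AbsB ((T.b true).at_ u b x) u b x (c1n (x + u)) (-T.st.xs.v u b x) := ⟨by show _ = _ + b * (0 : ℝ); ring, by
    show _ = -(1 / 2 + b * T.st.ws.v u b x)
    rw [hx]⟩
  have hk : KerJB ((T.b true).at_ u b x) u b x ((c1n (x + u)) - (-T.st.xs.v u b x)) (sB, -(wB), -(tB)) := ⟨by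
    show sB = ((c1n (x + u) * cG (x + u) + T.kc.v (psn (x + u)) x) * (x + u)) + b * (0 : ℝ)
    rw [hsB]
    ring, by
    show -(tB) = -(1 / 2 + b * T.st.rs.v u b x)
    rw [htB hc], by
    show -(wB) = ((c1n (x + u - b) + 1 / 2) * cG (x + u - b) + (T.kc.v (psn (x + u)) x + b * (fd1B T.dq true).v u b x)) * (-(x + u - b)) - T.sK.v _ _ x * _
    rw [zK, zero_mul, sub_zero, ← hd, hwB]
    ring⟩
  have hkd : DerJB ((T.b true).at_ u b x) u b x ((c1n (x + u)) - (-T.st.xs.v u b x)) (sD, -(wD), -(tD)) := ⟨by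
    show sD = ((cP (x + u) - (cR (x + u) + 2 * c1n (x + u)) * T.kc.v (psn (x + u)) x) * (x + u)) + b * (0 : ℝ)
    rw [hsD]
    ring, by
    show -(tD) = -(b * T.st.k2.v u b x)
    rw [htD hc], by
    show -(wD) = (cP (x + u - b) + 1 / 2 * cD (x + u - b) - (cR (x + u - b) + 2 * c1n (x + u - b) + 1) * (T.kc.v (psn (x + u)) x + b * (fd1B T.dq true).v u b x)) * (-(x + u - b)) - T.sD.v _ _ x * _
    rw [zD, zero_mul, sub_zero, ← hd, hwD]
    ring⟩
  have hl : LevB ((T.b true).at_ u b x) u b x ((c1n (x + u)) - (-T.st.xs.v u b x)) (cQ x (x + u) (T.kc.v (psn (x + u)) x), -(cQ x (x + u - b) (T.kc.v (psn (x + u - b)) x)), -(b * T.st.xk.v u b x)) := ⟨by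
    show cQ x (x + u) (T.kc.v (psn (x + u)) x) = cQ x (x + u) (T.kc.v (psn (x + u)) x) + b * (0 : ℝ)
    ring, by
    show -(cQ x (x + u - b) (T.kc.v (psn (x + u - b)) x)) = -(cQ x (x + u - b) (T.kc.v (psn (x + u)) x + b * (fd1B T.dq true).v u b x) + T.sX.v _ _ x * _)
    rw [zX, zero_mul, add_zero, ← hd], by
    show -(b * T.st.xk.v u b x) = -(b * T.st.xk.v u b x)
    rfl⟩
  have key := gin1Bp D hb hκ rfl hy' hit ha hk hkd hdy rfl hl t1 t3 hP hQ tN tM tG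
  rw [K1, K2, (K3 hc), L1, L2, (L3 hc)]
  rw [e] at key
  have mm : ∀ A B C D : ℝ, A * -B + C * -D = -(A * B + C * D) := fun A B C D => by ring
  simp only [mm] at key
  exact key

theorem farT4 {n : ℕ} {P : Pos n} {RK RL : Fin (n + 1) → ℕ → ℝ → ℝ → ℝ} {pc : ℕ → Piece}
    {T : MolT} {a b' c : ℕ} {k : Fin (n + 1)} {u b x κ : ℝ}  {sk cx : List Fn3} 
    (D : DomA u b x) (hb : 0 ≤ b) (hκ : κ * h0 = ken x) 
    (hd : T.kc.v (psn (x + u + b)) x = T.kc.v (psn (x + u)) x + b * (fd1A T.dq true).v u b x)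
    (hit : ((T.a true).at_ u b x).it * (x + u + b) = 1)
    (t1 : tau (h0 * (x + u)) = h0 * (x + u)) (t3 : tau (h0 * (x + u) + h0 * (1 + b)) = h0 * (x + u + b))
    (hx : T.st.xs.v u b x = 1 / 2 + b * T.st.ws.v u b x) (hn : T.st.ws = fnA) 
    (zK : ∀ X Y, T.sK.v X Y x = 0) (zX : ∀ X Y, T.sX.v X Y x = 0) (zD : ∀ X Y, T.sD.v X Y x = 0)
    (hX : crv P k c (x + u + (1 + b)) = c1n (x + u + b) - 1 / 2)
    (K : (kq0Ap (T.a true) sk cx).P u b x) (hs : ∀ G ∈ sk, G.v u b x ≤ 0)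
    (K1 : RK 0 a (x + u) x = (c1n (x + u) * cG (x + u) + T.kc.v (psn (x + u)) x) * (x + u))
    (K2 : RK k c (x + u + (1 + b)) x = ((c1n (x + u + b) - 1 / 2) * cG (x + u + b) + T.kc.v (psn (x + u + b)) x) * (x + u + b))
    (K3 : (∀ G ∈ cx, 0 < G.v u b x) → (pc b').K.v (-T.st.xs.v u b x) (1 + b) x = -(1 / 2 + b * T.st.rs.v u b x))
    (L1 : RL 0 a (x + u) x = cQ x (x + u) (T.kc.v (psn (x + u)) x))
    (L2 : RL k c (x + u + (1 + b)) x = cQ x (x + u + b) (T.kc.v (psn (x + u + b)) x))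
    (L3 : (∀ G ∈ cx, 0 < G.v u b x) → (pc b').L.v (-T.st.xs.v u b x) (1 + b) x = -(b * T.st.xk.v u b x)) :
    StB (VF κ) P RK RL pc a b' c 0 k 1 1 x (x + u) (1 + b) := by
  obtain ⟨hc, hP, hQ, tN, tM, tG⟩ := rq0Ap K hs
  have hcz := fnA_e D
  unfold StB VF exB vlB
  simp only [one_mul, neg_one_mul, crv_zero]
  rw [hX]
  have e3 : c1n (x + u + b) - 1 / 2 - c1n (x + u) = -T.st.xs.v u b x := by
    rw [hx, hn]
    linear_combination hcz
  rw [e3]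
  have ha : AbsA ((T.a true).at_ u b x) u b x (c1n (x + u)) (c1n (x + u + b) - 1 / 2) := ⟨by show _ = _ + b * (0 : ℝ); ring, by
    show _ = c1n (x + u) - (1 / 2 + b * T.st.ws.v u b x)
    rw [hn]
    linear_combination hcz⟩
  have hk : KerJA ((T.a true).at_ u b x) u b x (c1n (x + u + b) - 1 / 2) ((c1n (x + u) * cG (x + u) + T.kc.v (psn (x + u)) x) * (x + u), -(1 / 2 + b * T.st.rs.v u b x), ((c1n (x + u + b) - 1 / 2) * cG (x + u + b) + T.kc.v (psn (x + u + b)) x) * (x + u + b)) := ⟨by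
    show (c1n (x + u) * cG (x + u) + T.kc.v (psn (x + u)) x) * (x + u) = ((c1n (x + u) * cG (x + u) + T.kc.v (psn (x + u)) x) * (x + u)) + b * (0 : ℝ)
    ring, by
    show -(1 / 2 + b * T.st.rs.v u b x) = -(1 / 2 + b * T.st.rs.v u b x)
    rfl, by
    show ((c1n (x + u + b) - 1 / 2) * cG (x + u + b) + T.kc.v (psn (x + u + b)) x) * (x + u + b) = ((c1n (x + u + b) - 1 / 2) * cG (x + u + b) + (T.kc.v (psn (x + u)) x + b * (fd1A T.dq true).v u b x)) * (x + u + b) + T.sK.v _ _ x * _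
    rw [zK, zero_mul, add_zero, ← hd]⟩
  have hl : LevA ((T.a true).at_ u b x) u b x (c1n (x + u + b) - 1 / 2) (cQ x (x + u) (T.kc.v (psn (x + u)) x), -(b * T.st.xk.v u b x), cQ x (x + u + b) (T.kc.v (psn (x + u + b)) x)) := ⟨by
    show cQ x (x + u) (T.kc.v (psn (x + u)) x) = cQ x (x + u) (T.kc.v (psn (x + u)) x) + b * (0 : ℝ)
    ring, by
    show -(b * T.st.xk.v u b x) = -(b * T.st.xk.v u b x)
    rfl, by
    show cQ x (x + u + b) (T.kc.v (psn (x + u + b)) x) = cQ x (x + u + b) (T.kc.v (psn (x + u)) x + b * (fd1A T.dq true).v u b x) + T.sX.v _ _ x * _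
    rw [zX, zero_mul, add_zero, ← hd]⟩
  have key := gin0Ap D hb hκ rfl rfl hit ha hk hl t1 t3 hP hQ tN tM tG
  rw [K1, K2, (K3 hc), L1, L2, (L3 hc)]
  exact key

theorem nearT4 {n : ℕ} {P : Pos n} {RK RL : Fin (n + 1) → ℕ → ℝ → ℝ → ℝ} {pc : ℕ → Piece}
    {T : MolT} {a b' c : ℕ} {k : Fin (n + 1)} {u b x κ : ℝ}  {sk cx : List Fn3} 
    (D : DomA u b x) (hb : 0 ≤ b) (hκ : κ * h0 = ken x) 
    (hd : T.kc.v (psn (x + u + b)) x = T.kc.v (psn (x + u)) x + b * (fd1A T.dq true).v u b x)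
    (hit : ((T.a true).at_ u b x).it * (x + u + b) = 1)
    (t1 : tau (h0 * (x + u)) = h0 * (x + u)) (t3 : tau (h0 * (x + u) + h0 * (1 + b)) = h0 * (x + u + b))
    (hx : T.st.xs.v u b x = 1 / 2 + b * T.st.ws.v u b x) (hn : T.st.ws = fnA) 
    (zK : ∀ X Y, T.sK.v X Y x = 0) (zX : ∀ X Y, T.sX.v X Y x = 0) (zD : ∀ X Y, T.sD.v X Y x = 0)
    (hX : crv P k c (x + u + (1 + b)) = c1n (x + u + b) - 1 / 2)
    (K : (kq1Ap (T.a true) sk cx).P u b x) (hs : ∀ G ∈ sk, G.v u b x ≤ 0)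
    (hdy : |T.kc.v (psn (x + u)) x| ≤ 1 / 2) {sB sD wB wD tB tD : ℝ}
    (K1 : RK 0 a (x + u) x = (1 + mun 3 x * cR x) * sB + mun 3 x * sD)
    (K2 : RK k c (x + u + (1 + b)) x = (1 + mun 3 x * cR x) * wB + mun 3 x * wD)
    (K3 : (∀ G ∈ cx, 0 < G.v u b x) → (pc b').K.v (-T.st.xs.v u b x) (1 + b) x = -((1 + mun 3 x * cR x) * tB + mun 3 x * tD))
    (hsB : sB = (c1n (x + u) * cG (x + u) + T.kc.v (psn (x + u)) x) * (x + u))
    (hsD : sD = (cP (x + u) - (cR (x + u) + 2 * c1n (x + u)) * T.kc.v (psn (x + u)) x) * (x + u))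
    (hwB : wB = ((c1n (x + u + b) - 1 / 2) * cG (x + u + b) + T.kc.v (psn (x + u + b)) x) * (x + u + b))
    (hwD : wD = (cP (x + u + b) - 1 / 2 * cD (x + u + b) - (cR (x + u + b) + 2 * c1n (x + u + b) - 1) * T.kc.v (psn (x + u + b)) x) * (x + u + b))
    (htB : (∀ G ∈ cx, 0 < G.v u b x) → tB = 1 / 2 + b * T.st.rs.v u b x)
    (htD : (∀ G ∈ cx, 0 < G.v u b x) → tD = b * T.st.k2.v u b x)
    (L1 : RL 0 a (x + u) x = cQ x (x + u) (T.kc.v (psn (x + u)) x))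
    (L2 : RL k c (x + u + (1 + b)) x = cQ x (x + u + b) (T.kc.v (psn (x + u + b)) x))
    (L3 : (∀ G ∈ cx, 0 < G.v u b x) → (pc b').L.v (-T.st.xs.v u b x) (1 + b) x = -(b * T.st.xk.v u b x)) :
    StB (VN 3 κ) P RK RL pc a b' c 0 k 1 1 x (x + u) (1 + b) := by
  obtain ⟨hc, hP, hQ, tN, tM, tG⟩ := rq1Ap K hs
  have hcz := fnA_e D
  unfold StB VN exB vlB
  simp only [one_mul, neg_one_mul, crv_zero]
  rw [hX]
  have e3 : c1n (x + u + b) - 1 / 2 - c1n (x + u) = -T.st.xs.v u b x := by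
    rw [hx, hn]
    linear_combination hcz
  rw [e3]
  have ha : AbsA ((T.a true).at_ u b x) u b x (c1n (x + u)) (c1n (x + u + b) - 1 / 2) := ⟨by show _ = _ + b * (0 : ℝ); ring, by
    show _ = c1n (x + u) - (1 / 2 + b * T.st.ws.v u b x)
    rw [hn]
    linear_combination hcz⟩
  have hk : KerJA ((T.a true).at_ u b x) u b x (c1n (x + u + b) - 1 / 2) (sB, -(tB), wB) := ⟨by
    show sB = ((c1n (x + u) * cG (x + u) + T.kc.v (psn (x + u)) x) * (x + u)) + b * (0 : ℝ)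
    rw [hsB]
    ring, by
    show -(tB) = -(1 / 2 + b * T.st.rs.v u b x)
    rw [htB hc], by
    show wB = ((c1n (x + u + b) - 1 / 2) * cG (x + u + b) + (T.kc.v (psn (x + u)) x + b * (fd1A T.dq true).v u b x)) * (x + u + b) + T.sK.v _ _ x * _
    rw [zK, zero_mul, add_zero, ← hd]
    exact hwB⟩
  have hkd : DerJA ((T.a true).at_ u b x) u b x (c1n (x + u + b) - 1 / 2) (sD, -(tD), wD) := ⟨by
    show sD = ((cP (x + u) - (cR (x + u) + 2 * c1n (x + u)) * T.kc.v (psn (x + u)) x) * (x + u)) + b * (0 : ℝ)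
    rw [hsD]
    ring, by
    show -(tD) = -(b * T.st.k2.v u b x)
    rw [htD hc], by
    show wD = (cP (x + u + b) - 1 / 2 * cD (x + u + b) - (cR (x + u + b) + 2 * c1n (x + u + b) - 1) * (T.kc.v (psn (x + u)) x + b * (fd1A T.dq true).v u b x)) * (x + u + b) + T.sD.v _ _ x * _
    rw [zD, zero_mul, add_zero, ← hd]
    exact hwD⟩
  have hl : LevA ((T.a true).at_ u b x) u b x (c1n (x + u + b) - 1 / 2) (cQ x (x + u) (T.kc.v (psn (x + u)) x), -(b * T.st.xk.v u b x), cQ x (x + u + b) (T.kc.v (psn (x + u + b)) x)) := ⟨by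
    show cQ x (x + u) (T.kc.v (psn (x + u)) x) = cQ x (x + u) (T.kc.v (psn (x + u)) x) + b * (0 : ℝ)
    ring, by
    show -(b * T.st.xk.v u b x) = -(b * T.st.xk.v u b x)
    rfl, by
    show cQ x (x + u + b) (T.kc.v (psn (x + u + b)) x) = cQ x (x + u + b) (T.kc.v (psn (x + u)) x + b * (fd1A T.dq true).v u b x) + T.sX.v _ _ x * _
    rw [zX, zero_mul, add_zero, ← hd]⟩
  have key := gin1Ap D hb hκ rfl rfl hit ha hk hkd hdy rfl hl t1 t3 hP hQ tN tM tG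
  rw [K1, K2, (K3 hc), L1, L2, (L3 hc)]
  have mm : ∀ A B C D : ℝ, A * -B + C * -D = -(A * B + C * D) := fun A B C D => by ring
  simp only [mm] at key
  exact key

theorem farT5 {n : ℕ} {P : Pos n} {RK RL : Fin (n + 1) → ℕ → ℝ → ℝ → ℝ} {pc : ℕ → Piece}
    {T : MolT} {a b' c : ℕ} {k : Fin (n + 1)} {u b x κ : ℝ} {j : Fin (n + 1)} {sk cx : List Fn3} {gK gX gD : Fn3} 
    (D : DomA u b x) (hb : b < 0) (hκ : κ * h0 = ken x) 
    (hd : T.kc.v (psn (x + u + b)) x = T.kc.v (psn (x + u)) x + b * (fd1A T.dq false).v u b x)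
    (hit : ((shF (T.a false) (fp1 true T.st.ws fnA) gK gX gD).at_ u b x).it * (x + u + b) = 1)
    (t1 : tau (h0 * (x + u)) = h0 * (x + u)) (t3 : tau (h0 * (x + u) + h0 * (1 + b)) = h0 * (x + u + b))
    (hx : T.st.xs.v u b x = 1 / 2 + b * T.st.ws.v u b x) 
    (zK : ∀ X Y, T.sK.v X Y x = 0) (zX : ∀ X Y, T.sX.v X Y x = 0) (zD : ∀ X Y, T.sD.v X Y x = 0)
    (hX : crv P k c (1 + b + (x + u)) = c1n (x + u + b) - 1 / 2) (hXj : crv P j a (1 + b) = T.st.xs.v u b x)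
    (K : (kq0Am (shF (T.a false) (fp1 true T.st.ws fnA) gK gX gD) sk cx).P u b x) (hs : ∀ G ∈ sk, G.v u b x ≤ 0)
    (K1 : (∀ G ∈ cx, 0 < G.v u b x) → (pc b').K.v (-(c1n (x + u) + b * (fp1 true T.st.ws fnA).v u b x)) (x + u) x = -((c1n (x + u) * cG (x + u) + T.kc.v (psn (x + u)) x) * (x + u) + b * (f1s (fp1 true T.st.ws fnA) gK).v u b x))
    (K2 : RK k c (1 + b + (x + u)) x = ((c1n (x + u + b) - 1 / 2) * cG (x + u + b) + T.kc.v (psn (x + u + b)) x) * (x + u + b))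
    (K3 : RK j a (1 + b) x = 1 / 2 + b * T.st.rs.v u b x)
    (L1 : (∀ G ∈ cx, 0 < G.v u b x) → (pc b').L.v (-(c1n (x + u) + b * (fp1 true T.st.ws fnA).v u b x)) (x + u) x = -(cQ x (x + u) (T.kc.v (psn (x + u)) x) + b * (f1s (fp1 true T.st.ws fnA) gX).v u b x))
    (L2 : RL k c (1 + b + (x + u)) x = cQ x (x + u + b) (T.kc.v (psn (x + u + b)) x))
    (L3 : RL j a (1 + b) x = b * T.st.xk.v u b x) :
    StB (VF κ) P RK RL pc a b' c j k 1 (-1) x (1 + b) (x + u) := by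
  obtain ⟨hc, hP, hQ, tN, tM, tG⟩ := rq0Am K hs
  have hcz := fnA_e D
  unfold StB VF exB vlB
  simp only [one_mul, neg_one_mul]
  rw [hX, hXj]
  have e3 : -(c1n (x + u + b) - 1 / 2) - T.st.xs.v u b x = -(c1n (x + u) + b * (fp1 true T.st.ws fnA).v u b x) := by
    rw [hx]
    show _ = -(c1n (x + u) + b * (T.st.ws.v u b x - fnA.v u b x))
    linear_combination -hcz
  rw [e3]
  refine NGV.mirror ?_
  have ha : AbsA ((shF (T.a false) (fp1 true T.st.ws fnA) gK gX gD).at_ u b x) u b x (T.st.xs.v u b x + (c1n (x + u + b) - 1 / 2)) (c1n (x + u + b) - 1 / 2) := ⟨by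
    show _ = c1n (x + u) + b * (T.st.ws.v u b x - fnA.v u b x)
    rw [hx]
    linear_combination hcz, by
    show _ = _ - (1 / 2 + b * T.st.ws.v u b x)
    rw [hx]
    ring⟩
  have hk : KerJA ((shF (T.a false) (fp1 true T.st.ws fnA) gK gX gD).at_ u b x) u b x (c1n (x + u + b) - 1 / 2) ((c1n (x + u) * cG (x + u) + T.kc.v (psn (x + u)) x) * (x + u) + b * (f1s (fp1 true T.st.ws fnA) gK).v u b x, -(1 / 2 + b * T.st.rs.v u b x), ((c1n (x + u + b) - 1 / 2) * cG (x + u + b) + T.kc.v (psn (x + u + b)) x) * (x + u + b)) := ⟨by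
    show (c1n (x + u) * cG (x + u) + T.kc.v (psn (x + u)) x) * (x + u) + b * (f1s (fp1 true T.st.ws fnA) gK).v u b x = ((c1n (x + u) * cG (x + u) + T.kc.v (psn (x + u)) x) * (x + u)) + b * (f1s (fp1 true T.st.ws fnA) gK).v u b x
    rfl, by
    show -(1 / 2 + b * T.st.rs.v u b x) = -(1 / 2 + b * T.st.rs.v u b x)
    rfl, by
    show ((c1n (x + u + b) - 1 / 2) * cG (x + u + b) + T.kc.v (psn (x + u + b)) x) * (x + u + b) = ((c1n (x + u + b) - 1 / 2) * cG (x + u + b) + (T.kc.v (psn (x + u)) x + b * (fd1A T.dq false).v u b x)) * (x + u + b) + T.sK.v _ _ x * _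
    rw [zK, zero_mul, add_zero, ← hd]⟩
  have hl : LevA ((shF (T.a false) (fp1 true T.st.ws fnA) gK gX gD).at_ u b x) u b x (c1n (x + u + b) - 1 / 2) (cQ x (x + u) (T.kc.v (psn (x + u)) x) + b * (f1s (fp1 true T.st.ws fnA) gX).v u b x, -(b * T.st.xk.v u b x), cQ x (x + u + b) (T.kc.v (psn (x + u + b)) x)) := ⟨by
    show cQ x (x + u) (T.kc.v (psn (x + u)) x) + b * (f1s (fp1 true T.st.ws fnA) gX).v u b x = cQ x (x + u) (T.kc.v (psn (x + u)) x) + b * (f1s (fp1 true T.st.ws fnA) gX).v u b x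
    rfl, by
    show -(b * T.st.xk.v u b x) = -(b * T.st.xk.v u b x)
    rfl, by
    show cQ x (x + u + b) (T.kc.v (psn (x + u + b)) x) = cQ x (x + u + b) (T.kc.v (psn (x + u)) x + b * (fd1A T.dq false).v u b x) + T.sX.v _ _ x * _
    rw [zX, zero_mul, add_zero, ← hd]⟩
  have key := gin0Am D hb hκ rfl rfl hit ha hk hl t1 t3 hP hQ tN tM tG
  rw [(K1 hc), K2, K3, (L1 hc), L2, L3]
  have ex := exn'_mirror (T.st.xs.v u b x) (-(c1n (x + u + b) - 1 / 2)) (1 + b) (x + u)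
  rw [sub_neg_eq_add, neg_neg] at ex
  rw [ex] at key
  unfold lvF at key ⊢
  rw [← levF_mirror]
  simp only [neg_neg] at key ⊢
  exact key

theorem nearT5 {n : ℕ} {P : Pos n} {RK RL : Fin (n + 1) → ℕ → ℝ → ℝ → ℝ} {pc : ℕ → Piece}
    {T : MolT} {a b' c : ℕ} {k : Fin (n + 1)} {u b x κ : ℝ} {j : Fin (n + 1)} {sk cx : List Fn3} {gK gX gD : Fn3} 
    (D : DomA u b x) (hb : b < 0) (hκ : κ * h0 = ken x) 
    (hd : T.kc.v (psn (x + u + b)) x = T.kc.v (psn (x + u)) x + b * (fd1A T.dq false).v u b x)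
    (hit : ((shF (T.a false) (fp1 true T.st.ws fnA) gK gX gD).at_ u b x).it * (x + u + b) = 1)
    (t1 : tau (h0 * (x + u)) = h0 * (x + u)) (t3 : tau (h0 * (x + u) + h0 * (1 + b)) = h0 * (x + u + b))
    (hx : T.st.xs.v u b x = 1 / 2 + b * T.st.ws.v u b x) 
    (zK : ∀ X Y, T.sK.v X Y x = 0) (zX : ∀ X Y, T.sX.v X Y x = 0) (zD : ∀ X Y, T.sD.v X Y x = 0)
    (hX : crv P k c (1 + b + (x + u)) = c1n (x + u + b) - 1 / 2) (hXj : crv P j a (1 + b) = T.st.xs.v u b x)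
    (K : (kq1Am (shF (T.a false) (fp1 true T.st.ws fnA) gK gX gD) sk cx).P u b x) (hs : ∀ G ∈ sk, G.v u b x ≤ 0)
    (hdy : |T.kc.v (psn (x + u)) x| ≤ 1 / 2) {sB sD wB wD tB tD : ℝ}
    (K1 : (∀ G ∈ cx, 0 < G.v u b x) → (pc b').K.v (-(c1n (x + u) + b * (fp1 true T.st.ws fnA).v u b x)) (x + u) x = -((1 + mun 3 x * cR x) * sB + mun 3 x * sD))
    (K2 : RK k c (1 + b + (x + u)) x = (1 + mun 3 x * cR x) * wB + mun 3 x * wD)
    (K3 : RK j a (1 + b) x = (1 + mun 3 x * cR x) * tB + mun 3 x * tD)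
    (hsB : (∀ G ∈ cx, 0 < G.v u b x) → sB = (c1n (x + u) * cG (x + u) + T.kc.v (psn (x + u)) x) * (x + u) + b * (f1s (fp1 true T.st.ws fnA) gK).v u b x)
    (hsD : (∀ G ∈ cx, 0 < G.v u b x) → sD = (cP (x + u) - (cR (x + u) + 2 * c1n (x + u)) * T.kc.v (psn (x + u)) x) * (x + u) + b * (f1s (fp1 true T.st.ws fnA) gD).v u b x)
    (hwB : wB = ((c1n (x + u + b) - 1 / 2) * cG (x + u + b) + T.kc.v (psn (x + u + b)) x) * (x + u + b))
    (hwD : wD = (cP (x + u + b) - 1 / 2 * cD (x + u + b) - (cR (x + u + b) + 2 * c1n (x + u + b) - 1) * T.kc.v (psn (x + u + b)) x) * (x + u + b))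
    (htB : tB = 1 / 2 + b * T.st.rs.v u b x)
    (htD : tD = b * T.st.k2.v u b x)
    (L1 : (∀ G ∈ cx, 0 < G.v u b x) → (pc b').L.v (-(c1n (x + u) + b * (fp1 true T.st.ws fnA).v u b x)) (x + u) x = -(cQ x (x + u) (T.kc.v (psn (x + u)) x) + b * (f1s (fp1 true T.st.ws fnA) gX).v u b x))
    (L2 : RL k c (1 + b + (x + u)) x = cQ x (x + u + b) (T.kc.v (psn (x + u + b)) x))
    (L3 : RL j a (1 + b) x = b * T.st.xk.v u b x) :
    StB (VN 3 κ) P RK RL pc a b' c j k 1 (-1) x (1 + b) (x + u) := by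
  obtain ⟨hc, hP, hQ, tN, tM, tG⟩ := rq1Am K hs
  have hcz := fnA_e D
  unfold StB VN exB vlB
  simp only [one_mul, neg_one_mul]
  rw [hX, hXj]
  have e3 : -(c1n (x + u + b) - 1 / 2) - T.st.xs.v u b x = -(c1n (x + u) + b * (fp1 true T.st.ws fnA).v u b x) := by
    rw [hx]
    show _ = -(c1n (x + u) + b * (T.st.ws.v u b x - fnA.v u b x))
    linear_combination -hcz
  rw [e3]
  refine NGV.mirror ?_
  have ha : AbsA ((shF (T.a false) (fp1 true T.st.ws fnA) gK gX gD).at_ u b x) u b x (T.st.xs.v u b x + (c1n (x + u + b) - 1 / 2)) (c1n (x + u + b) - 1 / 2) := ⟨by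
    show _ = c1n (x + u) + b * (T.st.ws.v u b x - fnA.v u b x)
    rw [hx]
    linear_combination hcz, by
    show _ = _ - (1 / 2 + b * T.st.ws.v u b x)
    rw [hx]
    ring⟩
  have hk : KerJA ((shF (T.a false) (fp1 true T.st.ws fnA) gK gX gD).at_ u b x) u b x (c1n (x + u + b) - 1 / 2) (sB, -(tB), wB) := ⟨by
    show sB = ((c1n (x + u) * cG (x + u) + T.kc.v (psn (x + u)) x) * (x + u)) + b * (f1s (fp1 true T.st.ws fnA) gK).v u b x
    rw [hsB hc], by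
    show -(tB) = -(1 / 2 + b * T.st.rs.v u b x)
    rw [htB], by
    show wB = ((c1n (x + u + b) - 1 / 2) * cG (x + u + b) + (T.kc.v (psn (x + u)) x + b * (fd1A T.dq false).v u b x)) * (x + u + b) + T.sK.v _ _ x * _
    rw [zK, zero_mul, add_zero, ← hd]
    exact hwB⟩
  have hkd : DerJA ((shF (T.a false) (fp1 true T.st.ws fnA) gK gX gD).at_ u b x) u b x (c1n (x + u + b) - 1 / 2) (sD, -(tD), wD) := ⟨by
    show sD = ((cP (x + u) - (cR (x + u) + 2 * c1n (x + u)) * T.kc.v (psn (x + u)) x) * (x + u)) + b * (f1s (fp1 true T.st.ws fnA) gD).v u b x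
    rw [hsD hc], by
    show -(tD) = -(b * T.st.k2.v u b x)
    rw [htD], by
    show wD = (cP (x + u + b) - 1 / 2 * cD (x + u + b) - (cR (x + u + b) + 2 * c1n (x + u + b) - 1) * (T.kc.v (psn (x + u)) x + b * (fd1A T.dq false).v u b x)) * (x + u + b) + T.sD.v _ _ x * _
    rw [zD, zero_mul, add_zero, ← hd]
    exact hwD⟩
  have hl : LevA ((shF (T.a false) (fp1 true T.st.ws fnA) gK gX gD).at_ u b x) u b x (c1n (x + u + b) - 1 / 2) (cQ x (x + u) (T.kc.v (psn (x + u)) x) + b * (f1s (fp1 true T.st.ws fnA) gX).v u b x, -(b * T.st.xk.v u b x), cQ x (x + u + b) (T.kc.v (psn (x + u + b)) x)) := ⟨by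
    show cQ x (x + u) (T.kc.v (psn (x + u)) x) + b * (f1s (fp1 true T.st.ws fnA) gX).v u b x = cQ x (x + u) (T.kc.v (psn (x + u)) x) + b * (f1s (fp1 true T.st.ws fnA) gX).v u b x
    rfl, by
    show -(b * T.st.xk.v u b x) = -(b * T.st.xk.v u b x)
    rfl, by
    show cQ x (x + u + b) (T.kc.v (psn (x + u + b)) x) = cQ x (x + u + b) (T.kc.v (psn (x + u)) x + b * (fd1A T.dq false).v u b x) + T.sX.v _ _ x * _
    rw [zX, zero_mul, add_zero, ← hd]⟩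
  have key := gin1Am D hb hκ rfl rfl hit ha hk hkd hdy rfl hl t1 t3 hP hQ tN tM tG
  rw [(K1 hc), K2, K3, (L1 hc), L2, L3]
  have ex := exn'_mirror (T.st.xs.v u b x) (-(c1n (x + u + b) - 1 / 2)) (1 + b) (x + u)
  rw [sub_neg_eq_add, neg_neg] at ex
  rw [ex] at key
  unfold lvN at key ⊢
  rw [← levN_mirror]
  simp only [neg_neg] at key ⊢
  have mm : ∀ A B C D : ℝ, A * -B + C * -D = -(A * B + C * D) := fun A B C D => by ring
  simp only [mm] at key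
  exact key

theorem farT7 {n : ℕ} {P : Pos n} {RK RL : Fin (n + 1) → ℕ → ℝ → ℝ → ℝ} {pc : ℕ → Piece}
    {T : MolT} {a b' c : ℕ} {k : Fin (n + 1)} {u b x κ : ℝ} {y' : ℝ} {j : Fin (n + 1)} {sk cx : List Fn3} {gK gX gD : Fn3} 
    (D : DomB u b x) (hb : 0 ≤ b) (hκ : κ * h0 = ken x) (hy' : y' = 1 + b - (x + u))
    (hd : T.kc.v (psn (x + u - b)) x = T.kc.v (psn (x + u)) x + b * (fd1B T.dq true).v u b x)
    (hit : ((shF (T.b true) (fp1 false T.st.ws fnB) gK gX gD).at_ u b x).it * (x + u - b) = -1)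
    (t1 : tau (h0 * (x + u)) = h0 * (x + u)) (t3 : tau (h0 * y') = h0 * (-(x + u - b)))
    (hx : T.st.xs.v u b x = 1 / 2 + b * T.st.ws.v u b x) 
    (zK : ∀ X Y, T.sK.v X Y x = 0) (zX : ∀ X Y, T.sX.v X Y x = 0) (zD : ∀ X Y, T.sD.v X Y x = 0)
    (hX : crv P j a y' = c1n (x + u - b) + 1 / 2) (hXk : crv P k c (1 + b) = T.st.xs.v u b x)
    (K : (kq0Bp (shF (T.b true) (fp1 false T.st.ws fnB) gK gX gD) sk cx).P u b x) (hs : ∀ G ∈ sk, G.v u b x ≤ 0)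
    (K1 : (∀ G ∈ cx, 0 < G.v u b x) → (pc b').K.v (-(c1n (x + u) + b * (fp1 false T.st.ws fnB).v u b x)) (x + u) x = -((c1n (x + u) * cG (x + u) + T.kc.v (psn (x + u)) x) * (x + u) + b * (f1s (fp1 false T.st.ws fnB) gK).v u b x))
    (K2 : RK j a y' x = ((c1n (x + u - b) + 1 / 2) * cG (x + u - b) + T.kc.v (psn (x + u - b)) x) * (x + u - b))
    (K3 : RK k c (1 + b) x = 1 / 2 + b * T.st.rs.v u b x)
    (L1 : (∀ G ∈ cx, 0 < G.v u b x) → (pc b').L.v (-(c1n (x + u) + b * (fp1 false T.st.ws fnB).v u b x)) (x + u) x = -(cQ x (x + u) (T.kc.v (psn (x + u)) x) + b * (f1s (fp1 false T.st.ws fnB) gX).v u b x))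
    (L2 : RL j a y' x = cQ x (x + u - b) (T.kc.v (psn (x + u - b)) x))
    (L3 : RL k c (1 + b) x = b * T.st.xk.v u b x) :
    StB (VF κ) P RK RL pc a b' c j k 1 1 x y' (x + u) := by
  obtain ⟨hc, hP, hQ, tN, tM, tG⟩ := rq0Bp K hs
  have hcz := fnB_e D
  have e : y' + (x + u) = 1 + b := by rw [hy']; ring
  unfold StB VF exB vlB
  simp only [one_mul, neg_one_mul]
  rw [e, hX, hXk]
  have e3 : T.st.xs.v u b x - (c1n (x + u - b) + 1 / 2) = -(c1n (x + u) + b * (fp1 false T.st.ws fnB).v u b x) := by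
    rw [hx]
    show _ = -(c1n (x + u) + b * (fnB.v u b x - T.st.ws.v u b x))
    linear_combination -hcz
  rw [e3]
  refine NGV.mirror ?_
  have ha : AbsB ((shF (T.b true) (fp1 false T.st.ws fnB) gK gX gD).at_ u b x) u b x ((c1n (x + u - b) + 1 / 2) - T.st.xs.v u b x) (-T.st.xs.v u b x) := ⟨by
    show _ = c1n (x + u) + b * (fnB.v u b x - T.st.ws.v u b x)
    rw [hx]
    linear_combination hcz, by
    show _ = -(1 / 2 + b * T.st.ws.v u b x)
    rw [hx]⟩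
  have hk : KerJB ((shF (T.b true) (fp1 false T.st.ws fnB) gK gX gD).at_ u b x) u b x (((c1n (x + u - b) + 1 / 2) - T.st.xs.v u b x) - (-T.st.xs.v u b x)) ((c1n (x + u) * cG (x + u) + T.kc.v (psn (x + u)) x) * (x + u) + b * (f1s (fp1 false T.st.ws fnB) gK).v u b x, -(((c1n (x + u - b) + 1 / 2) * cG (x + u - b) + T.kc.v (psn (x + u - b)) x) * (x + u - b)), -(1 / 2 + b * T.st.rs.v u b x)) := ⟨by
    show (c1n (x + u) * cG (x + u) + T.kc.v (psn (x + u)) x) * (x + u) + b * (f1s (fp1 false T.st.ws fnB) gK).v u b x = ((c1n (x + u) * cG (x + u) + T.kc.v (psn (x + u)) x) * (x + u)) + b * (f1s (fp1 false T.st.ws fnB) gK).v u b x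
    rfl, by
    show -(1 / 2 + b * T.st.rs.v u b x) = -(1 / 2 + b * T.st.rs.v u b x)
    rfl, by
    show -(((c1n (x + u - b) + 1 / 2) * cG (x + u - b) + T.kc.v (psn (x + u - b)) x) * (x + u - b)) = ((c1n (x + u - b) + 1 / 2) * cG (x + u - b) + (T.kc.v (psn (x + u)) x + b * (fd1B T.dq true).v u b x)) * (-(x + u - b)) - T.sK.v _ _ x * _
    rw [zK, zero_mul, sub_zero, ← hd]
    ring⟩
  have hl : LevB ((shF (T.b true) (fp1 false T.st.ws fnB) gK gX gD).at_ u b x) u b x (((c1n (x + u - b) + 1 / 2) - T.st.xs.v u b x) - (-T.st.xs.v u b x)) (cQ x (x + u) (T.kc.v (psn (x + u)) x) + b * (f1s (fp1 false T.st.ws fnB) gX).v u b x, -(cQ x (x + u - b) (T.kc.v (psn (x + u - b)) x)), -(b * T.st.xk.v u b x)) := ⟨by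
    show cQ x (x + u) (T.kc.v (psn (x + u)) x) + b * (f1s (fp1 false T.st.ws fnB) gX).v u b x = cQ x (x + u) (T.kc.v (psn (x + u)) x) + b * (f1s (fp1 false T.st.ws fnB) gX).v u b x
    rfl, by
    show -(cQ x (x + u - b) (T.kc.v (psn (x + u - b)) x)) = -(cQ x (x + u - b) (T.kc.v (psn (x + u)) x + b * (fd1B T.dq true).v u b x) + T.sX.v _ _ x * _)
    rw [zX, zero_mul, add_zero, ← hd], by
    show -(b * T.st.xk.v u b x) = -(b * T.st.xk.v u b x)
    rfl⟩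
  have key := gin0Bp D hb hκ rfl hy' hit ha hk hl t1 t3 hP hQ tN tM tG
  rw [(K1 hc), K2, K3, (L1 hc), L2, L3]
  rw [show x + u + y' = 1 + b by rw [hy']; ring] at key
  have ex := exn'_mirror (c1n (x + u - b) + 1 / 2) (T.st.xs.v u b x) y' (x + u)
  rw [e, show x + u + y' = 1 + b by rw [hy']; ring] at ex
  rw [ex] at key
  unfold lvF at key ⊢
  rw [← levF_mirror]
  simp only [neg_neg] at key ⊢
  exact key

theorem nearT7 {n : ℕ} {P : Pos n} {RK RL : Fin (n + 1) → ℕ → ℝ → ℝ → ℝ} {pc : ℕ → Piece}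
    {T : MolT} {a b' c : ℕ} {k : Fin (n + 1)} {u b x κ : ℝ} {y' : ℝ} {j : Fin (n + 1)} {sk cx : List Fn3} {gK gX gD : Fn3} 
    (D : DomB u b x) (hb : 0 ≤ b) (hκ : κ * h0 = ken x) (hy' : y' = 1 + b - (x + u))
    (hd : T.kc.v (psn (x + u - b)) x = T.kc.v (psn (x + u)) x + b * (fd1B T.dq true).v u b x)
    (hit : ((shF (T.b true) (fp1 false T.st.ws fnB) gK gX gD).at_ u b x).it * (x + u - b) = -1)
    (t1 : tau (h0 * (x + u)) = h0 * (x + u)) (t3 : tau (h0 * y') = h0 * (-(x + u - b)))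
    (hx : T.st.xs.v u b x = 1 / 2 + b * T.st.ws.v u b x) 
    (zK : ∀ X Y, T.sK.v X Y x = 0) (zX : ∀ X Y, T.sX.v X Y x = 0) (zD : ∀ X Y, T.sD.v X Y x = 0)
    (hX : crv P j a y' = c1n (x + u - b) + 1 / 2) (hXk : crv P k c (1 + b) = T.st.xs.v u b x)
    (K : (kq1Bp (shF (T.b true) (fp1 false T.st.ws fnB) gK gX gD) sk cx).P u b x) (hs : ∀ G ∈ sk, G.v u b x ≤ 0)
    (hdy : |T.kc.v (psn (x + u)) x| ≤ 1 / 2) {sB sD wB wD tB tD : ℝ}
    (K1 : (∀ G ∈ cx, 0 < G.v u b x) → (pc b').K.v (-(c1n (x + u) + b * (fp1 false T.st.ws fnB).v u b x)) (x + u) x = -((1 + mun 3 x * cR x) * sB + mun 3 x * sD))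
    (K2 : RK j a y' x = (1 + mun 3 x * cR x) * wB + mun 3 x * wD)
    (K3 : RK k c (1 + b) x = (1 + mun 3 x * cR x) * tB + mun 3 x * tD)
    (hsB : (∀ G ∈ cx, 0 < G.v u b x) → sB = (c1n (x + u) * cG (x + u) + T.kc.v (psn (x + u)) x) * (x + u) + b * (f1s (fp1 false T.st.ws fnB) gK).v u b x)
    (hsD : (∀ G ∈ cx, 0 < G.v u b x) → sD = (cP (x + u) - (cR (x + u) + 2 * c1n (x + u)) * T.kc.v (psn (x + u)) x) * (x + u) + b * (f1s (fp1 false T.st.ws fnB) gD).v u b x)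
    (hwB : wB = ((c1n (x + u - b) + 1 / 2) * cG (x + u - b) + T.kc.v (psn (x + u - b)) x) * (x + u - b))
    (hwD : wD = (cP (x + u - b) + 1 / 2 * cD (x + u - b) - (cR (x + u - b) + 2 * c1n (x + u - b) + 1) * T.kc.v (psn (x + u - b)) x) * (x + u - b))
    (htB : tB = 1 / 2 + b * T.st.rs.v u b x)
    (htD : tD = b * T.st.k2.v u b x)
    (L1 : (∀ G ∈ cx, 0 < G.v u b x) → (pc b').L.v (-(c1n (x + u) + b * (fp1 false T.st.ws fnB).v u b x)) (x + u) x = -(cQ x (x + u) (T.kc.v (psn (x + u)) x) + b * (f1s (fp1 false T.st.ws fnB) gX).v u b x))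
    (L2 : RL j a y' x = cQ x (x + u - b) (T.kc.v (psn (x + u - b)) x))
    (L3 : RL k c (1 + b) x = b * T.st.xk.v u b x) :
    StB (VN 3 κ) P RK RL pc a b' c j k 1 1 x y' (x + u) := by
  obtain ⟨hc, hP, hQ, tN, tM, tG⟩ := rq1Bp K hs
  have hcz := fnB_e D
  have e : y' + (x + u) = 1 + b := by rw [hy']; ring
  unfold StB VN exB vlB
  simp only [one_mul, neg_one_mul]
  rw [e, hX, hXk]
  have e3 : T.st.xs.v u b x - (c1n (x + u - b) + 1 / 2) = -(c1n (x + u) + b * (fp1 false T.st.ws fnB).v u b x) := by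
    rw [hx]
    show _ = -(c1n (x + u) + b * (fnB.v u b x - T.st.ws.v u b x))
    linear_combination -hcz
  rw [e3]
  refine NGV.mirror ?_
  have ha : AbsB ((shF (T.b true) (fp1 false T.st.ws fnB) gK gX gD).at_ u b x) u b x ((c1n (x + u - b) + 1 / 2) - T.st.xs.v u b x) (-T.st.xs.v u b x) := ⟨by
    show _ = c1n (x + u) + b * (fnB.v u b x - T.st.ws.v u b x)
    rw [hx]
    linear_combination hcz, by
    show _ = -(1 / 2 + b * T.st.ws.v u b x)
    rw [hx]⟩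
  have hk : KerJB ((shF (T.b true) (fp1 false T.st.ws fnB) gK gX gD).at_ u b x) u b x (((c1n (x + u - b) + 1 / 2) - T.st.xs.v u b x) - (-T.st.xs.v u b x)) (sB, -(wB), -(tB)) := ⟨by
    show sB = ((c1n (x + u) * cG (x + u) + T.kc.v (psn (x + u)) x) * (x + u)) + b * (f1s (fp1 false T.st.ws fnB) gK).v u b x
    rw [hsB hc], by
    show -(tB) = -(1 / 2 + b * T.st.rs.v u b x)
    rw [htB], by
    show -(wB) = ((c1n (x + u - b) + 1 / 2) * cG (x + u - b) + (T.kc.v (psn (x + u)) x + b * (fd1B T.dq true).v u b x)) * (-(x + u - b)) - T.sK.v _ _ x * _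
    rw [zK, zero_mul, sub_zero, ← hd, hwB]
    ring⟩
  have hkd : DerJB ((shF (T.b true) (fp1 false T.st.ws fnB) gK gX gD).at_ u b x) u b x (((c1n (x + u - b) + 1 / 2) - T.st.xs.v u b x) - (-T.st.xs.v u b x)) (sD, -(wD), -(tD)) := ⟨by
    show sD = ((cP (x + u) - (cR (x + u) + 2 * c1n (x + u)) * T.kc.v (psn (x + u)) x) * (x + u)) + b * (f1s (fp1 false T.st.ws fnB) gD).v u b x
    rw [hsD hc], by
    show -(tD) = -(b * T.st.k2.v u b x)
    rw [htD], by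
    show -(wD) = (cP (x + u - b) + 1 / 2 * cD (x + u - b) - (cR (x + u - b) + 2 * c1n (x + u - b) + 1) * (T.kc.v (psn (x + u)) x + b * (fd1B T.dq true).v u b x)) * (-(x + u - b)) - T.sD.v _ _ x * _
    rw [zD, zero_mul, sub_zero, ← hd, hwD]
    ring⟩
  have hl : LevB ((shF (T.b true) (fp1 false T.st.ws fnB) gK gX gD).at_ u b x) u b x (((c1n (x + u - b) + 1 / 2) - T.st.xs.v u b x) - (-T.st.xs.v u b x)) (cQ x (x + u) (T.kc.v (psn (x + u)) x) + b * (f1s (fp1 false T.st.ws fnB) gX).v u b x, -(cQ x (x + u - b) (T.kc.v (psn (x + u - b)) x)), -(b * T.st.xk.v u b x)) := ⟨by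
    show cQ x (x + u) (T.kc.v (psn (x + u)) x) + b * (f1s (fp1 false T.st.ws fnB) gX).v u b x = cQ x (x + u) (T.kc.v (psn (x + u)) x) + b * (f1s (fp1 false T.st.ws fnB) gX).v u b x
    rfl, by
    show -(cQ x (x + u - b) (T.kc.v (psn (x + u - b)) x)) = -(cQ x (x + u - b) (T.kc.v (psn (x + u)) x + b * (fd1B T.dq true).v u b x) + T.sX.v _ _ x * _)
    rw [zX, zero_mul, add_zero, ← hd], by
    show -(b * T.st.xk.v u b x) = -(b * T.st.xk.v u b x)
    rfl⟩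
  have key := gin1Bp D hb hκ rfl hy' hit ha hk hkd hdy rfl hl t1 t3 hP hQ tN tM tG
  rw [(K1 hc), K2, K3, (L1 hc), L2, L3]
  rw [show x + u + y' = 1 + b by rw [hy']; ring] at key
  have ex := exn'_mirror (c1n (x + u - b) + 1 / 2) (T.st.xs.v u b x) y' (x + u)
  rw [e, show x + u + y' = 1 + b by rw [hy']; ring] at ex
  rw [ex] at key
  unfold lvN at key ⊢
  rw [← levN_mirror]
  simp only [neg_neg] at key ⊢
  have mm : ∀ A B C D : ℝ, A * -B + C * -D = -(A * B + C * D) := fun A B C D => by ring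
  simp only [mm] at key
  exact key

end Pool.Agent.Strip051.PB.Mol
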