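import Pool.Agent.Strip051.PB.WinG

/-! # Closed forms of the kernels of the unit curve in the window, short arcs

As in `PB/WinF`: the real values are the expressions of the tables, the packed functions evaluate
closed forms without cancellation for small `s`. -/

namespace Pool.Agent.Strip051.PB

section

attribute [local irreducible] padd psub pneg pmul psq pinv psqrt psqrtg pnat pscaleT pnorm
  phf pone ppos pnc Enc pbad pwT

variable {E : Pt} {O S G Z : ℕ} {w s c e q : ℝ}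

/-- `s` times the closed form of the second function -/
noncomputable def pwS (S G : ℕ) : ℕ := pmul (pnorm S) (pnorm (pwT S G))

theorem enc_wS (_ : Enc E O w) (hS : Enc E S s) (hG : Enc E G c) (hZ : Enc E Z e)
    (hw : w = (((3 : ℕ) : ℝ) / ((4 : ℕ) : ℝ) * s ^ 2 * c⁻¹ *
      (((4 : ℕ) : ℝ) * c - ((3 : ℕ) : ℝ)) * e -
      q * (s / 2 - ((3 : ℕ) : ℝ) / ((4 : ℕ) : ℝ) * s ^ 2 * c⁻¹)) * (((2 : ℕ) : ℝ) * e * e)⁻¹)
    (hc : c = √(((1 : ℕ) : ℝ) - ((3 : ℕ) : ℝ) / ((4 : ℕ) : ℝ) * s ^ 2))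
    (he : e = s / 2 + c - ((1 : ℕ) : ℝ))
    (hq : q = (((1 : ℕ) : ℝ) - c) * (((2 : ℕ) : ℝ) * c - ((1 : ℕ) : ℝ))) :
    Enc E (pwS S G) w := by
  refine enc_cast (enc_mul (enc_norm hS)
    (enc_norm (enc_wT (enc_pbad E _) hS hG hZ rfl hc he hq))) ?_
  rw [hw]
  push_cast
  ring

/-- `(2 c - 3 s) D / (8 c (1 - s))` -/
noncomputable def pwR (S G : ℕ) : ℕ :=
  pgd (ppos S) (pgd (ppos (psub pone S)) (pmul (pnorm (pmul
    (pnorm (psub (pnat 2 G) (pnat 3 S))) (pwD S G)))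
    (pinv (pnorm (pnat 8 (pmul (pnorm G) (pnorm (psub pone S))))))))

theorem enc_wR (_ : Enc E O w) (hS : Enc E S s) (hG : Enc E G c) (_ : Enc E Z e)
    (hw : w = (s / 2 - ((3 : ℕ) : ℝ) / ((4 : ℕ) : ℝ) * s ^ 2 * c⁻¹) * (((2 : ℕ) : ℝ) * e)⁻¹)
    (hc : c = √(((1 : ℕ) : ℝ) - ((3 : ℕ) : ℝ) / ((4 : ℕ) : ℝ) * s ^ 2))
    (he : e = s / 2 + c - ((1 : ℕ) : ℝ)) : Enc E (pwR S G) w := by
  refine enc_gd fun g0 => enc_gd fun g1 => ?_
  have h0 := ppos_sound hS g0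
  have h1' := ppos_sound (enc_sub (enc_one E) hS) g1
  have h1 : s < 1 := by linarith
  refine enc_cast (enc_mul (enc_norm (enc_mul (enc_norm (enc_sub (enc_nat 2 hG) (enc_nat 3 hS)))
    (enc_wD hS hG))) (enc_inv (enc_norm (enc_nat 8 (enc_mul (enc_norm hG)
      (enc_norm (enc_sub (enc_one E) hS))))))) ?_
  obtain ⟨c0, c2, he', hD⟩ := wE_mul hc he h0 h1
  have hs : 0 < s * (1 - s) := mul_pos h0 (by linarith)
  have e0 : e ≠ 0 := by
    intro h'
    rw [h', zero_mul] at hD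
    exact hs.ne hD
  have c1 : c ≠ 0 := c0.ne'
  have s1 : 1 - s ≠ 0 := by
    have : 0 < 1 - s := by linarith
    exact this.ne'
  rw [hw]
  push_cast
  have l1 : s / 2 - 3 / 4 * s ^ 2 * c⁻¹ = s * (2 * c - 3 * s) * (4 * c)⁻¹ := by
    field_simp
    ring
  have l2 : (2 * e)⁻¹ = (c + 1 - s / 2) * (2 * (s * (1 - s)))⁻¹ := by
    rw [← hD]
    have d0 : c + 1 - s / 2 ≠ 0 := by
      intro h'
      rw [h', mul_zero] at hD
      exact hs.ne hD
    rw [← mul_assoc, mul_inv (2 * e), mul_comm ((2 * e)⁻¹), mul_inv_cancel_left₀ d0]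
  rw [l1, l2]
  have s0 : s ≠ 0 := h0.ne'
  field_simp
  ring

end

end Pool.Agent.Strip051.PB
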