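import Pool.Agent.Strip051.PB.PairT
import Pool.Agent.Strip051.PB.WinS

/-! # Pairs of values with a multiple of their difference: closed forms for short arcs

The values are the closed forms of `PB/WinS`, the slopes are those of the original expressions. -/

namespace Pool.Agent.Strip051.PB

section

attribute [local irreducible] padd psub pneg pmul psq pinv psqrt psqrtg pnat pscaleT pnorm
  phf pone ppos pnc Enc pbad pwT pwS pwR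

variable {E : Pt} {M : ℝ}
variable {O S G Z O' S' G' Z' DO DS DG DZ : ℕ} {w s c e q w' s' c' e' q' : ℝ}

theorem pr_wS (hO : Pr E M O O' DO w w') (hS : Pr E M S S' DS s s') (hG : Pr E M G G' DG c c')
    (hZ : Pr E M Z Z' DZ e e')
    (hw : w = (((3 : ℕ) : ℝ) / ((4 : ℕ) : ℝ) * s ^ 2 * c⁻¹ *
      (((4 : ℕ) : ℝ) * c - ((3 : ℕ) : ℝ)) * e -
      q * (s / 2 - ((3 : ℕ) : ℝ) / ((4 : ℕ) : ℝ) * s ^ 2 * c⁻¹)) * (((2 : ℕ) : ℝ) * e * e)⁻¹)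
    (hc : c = √(((1 : ℕ) : ℝ) - ((3 : ℕ) : ℝ) / ((4 : ℕ) : ℝ) * s ^ 2))
    (he : e = s / 2 + c - ((1 : ℕ) : ℝ))
    (hq : q = (((1 : ℕ) : ℝ) - c) * (((2 : ℕ) : ℝ) * c - ((1 : ℕ) : ℝ)))
    (hw' : w' = (((3 : ℕ) : ℝ) / ((4 : ℕ) : ℝ) * s' ^ 2 * c'⁻¹ *
      (((4 : ℕ) : ℝ) * c' - ((3 : ℕ) : ℝ)) * e' -
      q' * (s' / 2 - ((3 : ℕ) : ℝ) / ((4 : ℕ) : ℝ) * s' ^ 2 * c'⁻¹)) *
      (((2 : ℕ) : ℝ) * e' * e')⁻¹)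
    (hc' : c' = √(((1 : ℕ) : ℝ) - ((3 : ℕ) : ℝ) / ((4 : ℕ) : ℝ) * s' ^ 2))
    (he' : e' = s' / 2 + c' - ((1 : ℕ) : ℝ))
    (hq' : q' = (((1 : ℕ) : ℝ) - c') * (((2 : ℕ) : ℝ) * c' - ((1 : ℕ) : ℝ))) :
    Pr E M (pwS S G) (pwS S' G') DO w w' :=
  ⟨enc_wS hO.l hS.l hG.l hZ.l hw hc he hq, enc_wS hO.r hS.r hG.r hZ.r hw' hc' he' hq', hO.d⟩

theorem pr_wR (hO : Pr E M O O' DO w w') (hS : Pr E M S S' DS s s') (hG : Pr E M G G' DG c c')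
    (hZ : Pr E M Z Z' DZ e e')
    (hw : w = (s / 2 - ((3 : ℕ) : ℝ) / ((4 : ℕ) : ℝ) * s ^ 2 * c⁻¹) * (((2 : ℕ) : ℝ) * e)⁻¹)
    (hc : c = √(((1 : ℕ) : ℝ) - ((3 : ℕ) : ℝ) / ((4 : ℕ) : ℝ) * s ^ 2))
    (he : e = s / 2 + c - ((1 : ℕ) : ℝ))
    (hw' : w' = (s' / 2 - ((3 : ℕ) : ℝ) / ((4 : ℕ) : ℝ) * s' ^ 2 * c'⁻¹) *
      (((2 : ℕ) : ℝ) * e')⁻¹)
    (hc' : c' = √(((1 : ℕ) : ℝ) - ((3 : ℕ) : ℝ) / ((4 : ℕ) : ℝ) * s' ^ 2))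
    (he' : e' = s' / 2 + c' - ((1 : ℕ) : ℝ)) :
    Pr E M (pwR S G) (pwR S' G') DO w w' :=
  ⟨enc_wR hO.l hS.l hG.l hZ.l hw hc he, enc_wR hO.r hS.r hG.r hZ.r hw' hc' he', hO.d⟩

end

end Pool.Agent.Strip051.PB
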