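import Pool.Agent.Strip051.PB.WinF

/-! # Re-associated products and values anchored at the end of the window

The real values are the expressions of the tables, only the packed evaluation is finer. -/

namespace Pool.Agent.Strip051.PB

section

attribute [local irreducible] padd psub pneg pmul psq pinv psqrt psqrtg pnat pscaleT pnorm
  phf pone ppos pnc Enc pbad

variable {E : Pt} {O L A B X W C U V : ℕ} {w l a b x y c u v : ℝ}

/-- `(l a) b` -/
noncomputable def pmA (L A B : ℕ) : ℕ := pmul (pnorm (pmul (pnorm L) (pnorm A))) (pnorm B)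

theorem enc_mA (_ : Enc E O w) (hL : Enc E L l) (hA : Enc E A a) (hB : Enc E B b)
    (hw : w = l * (a * b)) : Enc E (pmA L A B) w :=
  enc_cast (enc_mul (enc_norm (enc_mul (enc_norm hL) (enc_norm hA))) (enc_norm hB))
    (by rw [hw, mul_assoc])

/-- `u + (x - y) / (y - c) * (u - v)` -/
noncomputable def pwL (X W C U V : ℕ) : ℕ :=
  pgd (ppos (psub W C)) (padd U (pmul (pnorm (pmul (pnorm (psub X W)) (pinv (psub W C))))
    (pnorm (psub U V))))

theorem enc_wL (_ : Enc E O w) (hX : Enc E X x) (hW : Enc E W y) (hC : Enc E C c) (hU : Enc E U u)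
    (hV : Enc E V v) (hw : w = v + (x - c) * (y - c)⁻¹ * (u - v)) : Enc E (pwL X W C U V) w := by
  refine enc_gd fun g => ?_
  have h0 := ppos_sound (enc_sub hW hC) g
  refine enc_cast (enc_add hU (enc_mul (enc_norm (enc_mul (enc_norm (enc_sub hX hW))
    (enc_inv (enc_sub hW hC)))) (enc_norm (enc_sub hU hV)))) ?_
  have h1 : y - c ≠ 0 := h0.ne'
  have h2 : (x - c) * (y - c)⁻¹ = 1 + (x - y) * (y - c)⁻¹ := by
    have : x - c = (y - c) + (x - y) := by ring
    rw [this, add_mul, mul_inv_cancel₀ h1]
  rw [hw, h2]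
  ring

end

end Pool.Agent.Strip051.PB
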