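import Pool.Agent.Strip051.PB.PairT
import Pool.Agent.Strip051.PB.WinG

/-! # Pairs of values: re-associated products and values anchored at the end of the window

The values are those of `PB/WinG`, the slopes are those of the original expressions. -/

namespace Pool.Agent.Strip051.PB

section

attribute [local irreducible] padd psub pneg pmul psq pinv psqrt psqrtg pnat pscaleT pnorm
  phf pone ppos pnc Enc pbad pmA pwL

variable {E : Pt} {M : ℝ} {O L A B X W C U V O' L' A' B' X' W' C' U' V' : ℕ}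
  {DO DL DA DB DX DW DC DU DV : ℕ} {w l a b x y c u v w' l' a' b' x' y' c' u' v' : ℝ}

theorem pr_mA (hO : Pr E M O O' DO w w') (hL : Pr E M L L' DL l l') (hA : Pr E M A A' DA a a')
    (hB : Pr E M B B' DB b b') (hw : w = l * (a * b)) (hw' : w' = l' * (a' * b')) :
    Pr E M (pmA L A B) (pmA L' A' B') DO w w' :=
  ⟨enc_mA hO.l hL.l hA.l hB.l hw, enc_mA hO.r hL.r hA.r hB.r hw', hO.d⟩

theorem pr_wL (hO : Pr E M O O' DO w w') (hX : Pr E M X X' DX x x') (hW : Pr E M W W' DW y y')
    (hC : Pr E M C C' DC c c') (hU : Pr E M U U' DU u u') (hV : Pr E M V V' DV v v')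
    (hw : w = v + (x - c) * (y - c)⁻¹ * (u - v))
    (hw' : w' = v' + (x' - c') * (y' - c')⁻¹ * (u' - v')) :
    Pr E M (pwL X W C U V) (pwL X' W' C' U' V') DO w w' :=
  ⟨enc_wL hO.l hX.l hW.l hC.l hU.l hV.l hw, enc_wL hO.r hX.r hW.r hC.r hU.r hV.r hw', hO.d⟩

end

end Pool.Agent.Strip051.PB
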