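import Pool.Agent.Strip051.PB.MolN

/-! # The tight charts: rows of curves given in the coordinate of the unit circle -/

namespace Pool.Agent.Strip051.PB.Mol

open Pool.Agent.StripNear Pool.Agent.StripSquare Pool.Agent.Strip051.Sweep
open Pool.Agent.Strip051.LC Pool.Agent.Strip051.PB

/-- the slope of a function of the coordinate of the unit circle above height one -/
noncomputable def rwC (E : Fn2) : Fn2 where
  t B C := pnorm (pmul (fW1.t B B C) (E.t (fW.t B B C) C))
  v b x := w1n b * E.v (c1n (1 + b)) x
  enc h1 h2 := enc_norm (enc_mul (fW1.enc h1 h1 h2) (E.enc (fW.enc h1 h1 h2) h2))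

/-- a sum -/
noncomputable def ad2 (F G : Fn2) : Fn2 where
  t B C := pnorm (padd (F.t B C) (G.t B C))
  v b x := F.v b x + G.v b x
  enc h1 h2 := enc_norm (enc_add (F.enc h1 h2) (G.enc h1 h2))

end Pool.Agent.Strip051.PB.Mol
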