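import Pool.Agent.Strip051.PB.BridgeE
import Pool.Agent.Strip051.PB.Cuts

/-! # The alternatives of a list of exclusions, both vertices -/

namespace Pool.Agent.Strip051.PB

open Pool.Agent.StripNear Pool.Agent.StripSquare Pool.Agent.Strip051.Sweep
open Pool.Agent.Strip051.LC

variable {n : ℕ}

/-- The statement holds where all conditions of the list hold, family `A`. -/
def AltEA (N0 : ℕ) (κ E o : ℝ) (f : ℝ → ℝ) (P : Pos n)
    (RK RL RC : Fin (n + 1) → ℕ → ℝ → ℝ → ℝ) (pc : ℕ → Piece) (pd : ℕ → Fn3) (l : List Cc)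
    (a b c : ℕ) (j k : Fin (n + 1)) (σ σ' x : ℝ) : Prop :=
  ∀ y y', FactsA P a b c j k σ σ' y y' →
    (∀ d ∈ l, d.P x y y' (σ * crv P j a y + σ' * crv P k b y') (y + y')) →
    StEA N0 κ E o f P RK RL RC pc pd a b c j k σ σ' x y y'

/-- The statement holds where all conditions of the list hold, family `B`. -/
def AltEB (N0 : ℕ) (κ E o : ℝ) (f : ℝ → ℝ) (P : Pos n)
    (RK RL RC : Fin (n + 1) → ℕ → ℝ → ℝ → ℝ) (pc : ℕ → Piece) (pd : ℕ → Fn3) (l : List Cc)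
    (a b c : ℕ) (j k : Fin (n + 1)) (σ σ' x : ℝ) : Prop :=
  ∀ y y', FactsB P a b c j k σ σ' y y' →
    (∀ d ∈ l, d.P x y y' (σ' * crv P k c (y + y') - σ * crv P j a y) y') →
    StEB N0 κ E o f P RK RL RC pc pd a b c j k σ σ' x y y'

section

variable {N0 : ℕ} {κ E o : ℝ} {f : ℝ → ℝ} {P : Pos n} {RK RL RC : Fin (n + 1) → ℕ → ℝ → ℝ → ℝ}
  {pc : ℕ → Piece} {pd : ℕ → Fn3} {l l' : List Cc} {L : List (List Cc)}
  {a b c : ℕ} {j k : Fin (n + 1)} {σ σ' x : ℝ}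

theorem AltEA.sub (h : ∀ d ∈ l, d ∈ l')
    (H : AltEA N0 κ E o f P RK RL RC pc pd l a b c j k σ σ' x) :
    AltEA N0 κ E o f P RK RL RC pc pd l' a b c j k σ σ' x :=
  fun y y' F hd => H y y' F fun d hl => hd d (h d hl)

theorem AltEB.sub (h : ∀ d ∈ l, d ∈ l')
    (H : AltEB N0 κ E o f P RK RL RC pc pd l a b c j k σ σ' x) :
    AltEB N0 κ E o f P RK RL RC pc pd l' a b c j k σ σ' x :=
  fun y y' F hd => H y y' F fun d hl => hd d (h d hl)

theorem cutEA_nil : CutEA N0 κ E o f P RK RL RC pc pd (Cut.of []) a b c j k σ σ' x := by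
  rintro y y' F ⟨l, h, -⟩
  exact absurd h List.not_mem_nil

theorem cutEB_nil : CutEB N0 κ E o f P RK RL RC pc pd (Cut.of []) a b c j k σ σ' x := by
  rintro y y' F ⟨l, h, -⟩
  exact absurd h List.not_mem_nil

theorem cutEA_cons (h : AltEA N0 κ E o f P RK RL RC pc pd l a b c j k σ σ' x)
    (H : CutEA N0 κ E o f P RK RL RC pc pd (Cut.of L) a b c j k σ σ' x) :
    CutEA N0 κ E o f P RK RL RC pc pd (Cut.of (l :: L)) a b c j k σ σ' x := by
  rintro y y' F ⟨m, hm, hc⟩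
  rcases List.mem_cons.1 hm with rfl | hm
  · exact h y y' F hc
  · exact H y y' F ⟨m, hm, hc⟩

theorem cutEB_cons (h : AltEB N0 κ E o f P RK RL RC pc pd l a b c j k σ σ' x)
    (H : CutEB N0 κ E o f P RK RL RC pc pd (Cut.of L) a b c j k σ σ' x) :
    CutEB N0 κ E o f P RK RL RC pc pd (Cut.of (l :: L)) a b c j k σ σ' x := by
  rintro y y' F ⟨m, hm, hc⟩
  rcases List.mem_cons.1 hm with rfl | hm
  · exact h y y' F hc
  · exact H y y' F ⟨m, hm, hc⟩

end

end Pool.Agent.Strip051.PB
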