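import Pool.Agent.Strip051.PB.CornR
import Pool.Agent.Strip051.PB.AltE

/-! # Charts at the aligned corners, both vertices: the leaf of the near part

The statement at both vertices follows from the one at the far vertex and the one for the level
`(near level - bound for the third kernel) / factor of the kernel`. The third kernel vanishes at the
lattice points, its rates are the slopes `L` of nodes which have it in the place of the level. -/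

namespace Pool.Agent.Strip051.PB

open Pool.Agent.StripNear Pool.Agent.Strip051.LC

attribute [local irreducible] padd psub pneg pmul psq pinv psqrt psqrtg pabs pps pmax pmin pphi plam
  pcase phf pnat prat pscale pnorm pdc pnc pone ppos pnn Enc pbad pzero

theorem wdR_comm (a b c : ℝ) : wdR a b c = wdR a c b := by
  unfold wdR
  rw [abs_sub_comm c b]
  exact max_left_comm _ _ _

theorem wdR_smul {k : ℝ} (hk : 0 ≤ k) (a b c : ℝ) :
    wdR (k * a) (k * b) (k * c) = k * wdR a b c := widn_smul hk a b c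

theorem wdR_zero : wdR 0 0 0 = 0 := by simp [wdR]

namespace Crn

/-- **The near row of both vertices** near a corner. -/
theorem rowW {D : Crn} {N0 : ℕ} {lv k x p q c0 X12 X13 y y' R1 R2 R3 x1 x2 x3 en mw MW : ℝ}
    (B : D.Base k x p q) (hen : 0 < en)
    (hy : y = D.y) (hy' : y' = D.y') (hX12 : X12 = D.b1 + D.ρ * D.z1)
    (hX13 : X13 = D.b1 + D.b2 + D.ρ * D.z3) (hR1 : R1 = c0 * D.b1 + D.ρ * D.r1)
    (hR2 : R2 = c0 * D.b2 + D.ρ * D.r2) (hR3 : R3 = c0 * (D.b1 + D.b2) + D.ρ * D.r3)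
    (hx1 : x1 = D.ρ * D.l1) (hx2 : x2 = D.ρ * D.l2) (hx3 : x3 = D.ρ * D.l3)
    (hMW : MW = D.ρ * mw)
    (HA : D.Ok c0 x p q ((D.e0 + D.LA N0 lv x - mw) * en⁻¹))
    (HB : D.Ok c0 x p q ((D.e0 + D.LB N0 lv x - mw) * en⁻¹)) :
    ∃ g, 0 ≤ slc D.c ((levN N0 lv x y y' (exn' X12 X13 y (y + y')) x1 x2 x3 - MW) / en) k x
      (y - D.m1) (y' - D.m2) (y + y' - (D.m1 + D.m2)) R1 R2 R3 g := by
  have eA : mun N0 x * levn N0 lv x y y' x1 x2 x3 = D.ρ * D.LA N0 lv x := by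
    unfold levn LA
    rw [hx1, hx2, hx3, hy, hy']
    ring
  have eB : mun N0 x * levm N0 lv x y y' x1 x2 x3 = D.ρ * D.LB N0 lv x := by
    unfold levm LB
    rw [hx1, hx2, hx3, hy, hy']
    ring
  have hc := cd_add B.six D.a
  have he : exn' X12 X13 y (y + y') = D.ρ * D.e0 := by
    have h := B.det
    rw [hX12, hX13, hy, hy']
    unfold exn' e0 Crn.y Crn.y'
    rw [← hc]
    linear_combination (1 / 2 : ℝ) * h
  rcases le_total (levn N0 lv x y y' x1 x2 x3) (levm N0 lv x y y' x1 x2 x3) with h | h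
  · refine row (e := (D.e0 + D.LA N0 lv x - mw) * en⁻¹) B hy hy' hX12 hX13 hR1 hR2 hR3 ?_ HA
    unfold levN
    rw [min_eq_left h, eA, hMW, he, div_eq_mul_inv]
    exact le_of_eq (by ring)
  · refine row (e := (D.e0 + D.LB N0 lv x - mw) * en⁻¹) B hy hy' hX12 hX13 hR1 hR2 hR3 ?_ HB
    unfold levN
    rw [min_eq_right h, eB, hMW, he, div_eq_mul_inv]
    exact le_of_eq (by ring)

end Crn

/-! ### The final tests -/

/-- both signs of the defect, the level is changed by the bound for the third kernel and divided by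
the factor of the kernel -/
noncomputable def sgnW (x R A p q om d MW iE : ℕ) (h e : ℕ) : Bool :=
  frc (pmn (psub e MW) iE) fun e => sgnT x R A p q om d h e

/-- the test with all rates -/
noncomputable def ratW (N0 : ℕ) (P : Cp) (h R A X C1 C3 Y1 Y2 Y3 c0 z1 z3 r1 r2 r3
    l1 l2 l3 MW iE : ℕ) : Bool :=
  frc (comT P.cn A (padd (bmT P.t1 P.h1 c0) (pmn R r1))
      (padd (sl P.fam (bmT P.tn P.hn c0) (bmT P.tt P.ht c0)) (pmn R r2))
      (padd (sl P.fam (bmT P.tt P.ht c0) (bmT P.tn P.hn c0)) (pmn R r3))) fun om =>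
  frc (psub r3 (padd r1 r2)) fun d =>
  frc (phf (padd (psub (psub (padd (bmT P.t1 P.h1 C3) z1)
      (sl P.fam (bmT P.tt P.ht C1) (bmT P.tn P.hn C1))) (pnat P.m1 z3))
      (pmn R (psub (pmn z1 C3) (pmn z3 C1))))) fun E0 =>
  frc (pmn (esT X) (pinv X)) fun p => frc (pmn (esT X) (pinv (psub pone X))) fun q =>
  finT (sgnW X R A p q om d MW iE) false N0 h X Y1 Y2 Y3 E0 l1 l2 l3

theorem ratW_sound {E : Pt} {N0 : ℕ} {P : Cp} (hP : P.Ok)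
    {h R A X C1 C3 Y1 Y2 Y3 C0 Z1 Z3 K1 K2 K3 L1 L2 L3 MW IE : ℕ}
    {ρ a x c0 z1 z3 r1 r2 r3 l1 l2 l3 X12 X13 y y' v1 v2 v3 w1 w2 w3 en mw : ℝ} (B : CRng ρ a x)
    (hen : 0 < en) (hMW : Enc E MW mw) (hIE : Enc E IE en⁻¹)
    (hR : Enc E R ρ) (hA : Enc E A a) (hX : Enc E X x)
    (hC1 : Enc E C1 (cd1 P.cn a)) (hC3 : Enc E C3 (cd3 P.cn a))
    (hY1 : Enc E Y1 y) (hY2 : Enc E Y2 y') (hY3 : Enc E Y3 (y + y')) (hC0 : Enc E C0 c0)
    (hz1 : Enc E Z1 z1) (hz3 : Enc E Z3 z3) (hr1 : Enc E K1 r1) (hr2 : Enc E K2 r2)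
    (hr3 : Enc E K3 r3) (hl1 : Enc E L1 l1) (hl2 : Enc E L2 l2) (hl3 : Enc E L3 l3)
    (hy : y = P.m1 + ρ * cd1 P.cn a) (hy' : y' = cond P.fam (P.mn : ℝ) P.mt + ρ * cd2 P.cn a)
    (hX12 : X12 = P.b1 + ρ * z1) (hX13 : X13 = cond P.fam P.bt P.bn + ρ * z3)
    (hv1 : v1 = c0 * P.b1 + ρ * r1) (hv2 : v2 = c0 * cond P.fam P.bn P.bt + ρ * r2)
    (hv3 : v3 = c0 * cond P.fam P.bt P.bn + ρ * r3)
    (hw1 : w1 = ρ * l1) (hw2 : w2 = ρ * l2) (hw3 : w3 = ρ * l3)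
    (ht : ratW N0 P h R A X C1 C3 Y1 Y2 Y3 C0 Z1 Z3 K1 K2 K3 L1 L2 L3 MW IE = true) :
    ∃ g, 0 ≤ slc P.cn ((levN N0 0 x y y' (exn' X12 X13 y (y + y')) w1 w2 w3 - ρ * mw) / en)
      (ken x) x
      (ρ * cd1 P.cn a) (ρ * cd2 P.cn a) (ρ * cd3 P.cn a) v1 v2 v3 g := by
  obtain ⟨b2, hb2⟩ : ∃ b2, b2 = cond P.fam P.bn P.bt := ⟨_, rfl⟩
  obtain ⟨b3, hb3⟩ : ∃ b3, b3 = cond P.fam P.bt P.bn := ⟨_, rfl⟩
  obtain ⟨m2, hm2⟩ : ∃ m2 : ℝ, m2 = cond P.fam (P.mn : ℝ) P.mt := ⟨_, rfl⟩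
  have e3 : P.b1 + b2 = b3 := by
    have := hP.b
    rw [hb2, hb3]
    cases hf : P.fam <;> rw [hf] at this <;> exact this
  have em : (P.m1 : ℝ) + m2 = 1 := by
    have h1 := hP.m
    have h2 := hP.m3
    rw [hm2]
    cases hf : P.fam <;> rw [hf] at h1 h2 <;> simp only [cond_true, cond_false] at * <;> linarith
  have det : P.b1 - b3 * P.m1 = 1 := by rw [hb3]; exact hP.det
  rw [← hb2] at hv2
  rw [← hb3] at hv3 hX13
  rw [← hm2] at hy'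
  have k2 : Enc E (sl P.fam (bmT P.tn P.hn C0) (bmT P.tt P.ht C0)) (b2 * c0) := by
    have := enc_sl P.fam (enc_bmT P.tn P.hn hC0) (enc_bmT P.tt P.ht hC0)
    refine enc_cast this ?_
    rw [hb2]
    cases P.fam <;> rfl
  have k3 : Enc E (sl P.fam (bmT P.tt P.ht C0) (bmT P.tn P.hn C0)) (b3 * c0) := by
    have := enc_sl P.fam (enc_bmT P.tt P.ht hC0) (enc_bmT P.tn P.hn hC0)
    refine enc_cast this ?_
    rw [hb3]
    cases P.fam <;> rfl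
  have kc : Enc E (sl P.fam (bmT P.tt P.ht C1) (bmT P.tn P.hn C1)) (b3 * cd1 P.cn a) := by
    have := enc_sl P.fam (enc_bmT P.tt P.ht hC1) (enc_bmT P.tn P.hn hC1)
    refine enc_cast this ?_
    rw [hb3]
    cases P.fam <;> rfl
  obtain ⟨D, hD⟩ : ∃ D : Crn, D = ⟨P.cn, P.m1, m2, P.b1, b2, ρ, a, z1, z3, r1, r2, r3, l1, l2,
    l3⟩ := ⟨_, rfl⟩
  have x1' : (1 : ℝ) - x ≠ 0 := by linarith [B.x1]
  have base : D.Base (ken x) x (esn x / x) (esn x / (1 - x)) := by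
    subst hD
    exact ⟨hP.six, B.ρ0, B.ρx, B.ρx', B.x0, B.a0, B.a1, ken_nonneg B.x0.le B.x1.le,
      ken_p B.x0 B.x1, ken_q B.x0 B.x1, by
        show P.b1 * (P.m1 + m2) - (P.b1 + b2) * P.m1 = 1
        rw [em, e3]
        linarith⟩
  unfold ratW at ht
  simp only [frc_eq] at ht
  have hp : Enc E (pmn (esT X) (pinv X)) (esn x / x) := by
    rw [div_eq_mul_inv]
    exact enc_mn (enc_esT hX) (enc_inv hX)
  have hq : Enc E (pmn (esT X) (pinv (psub pone X))) (esn x / (1 - x)) := by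
    rw [div_eq_mul_inv]
    exact enc_mn (enc_esT hX) (enc_inv (enc_sub (enc_one E) hX))
  have hom : Enc E (comT P.cn A (padd (bmT P.t1 P.h1 C0) (pmn R K1))
      (padd (sl P.fam (bmT P.tn P.hn C0) (bmT P.tt P.ht C0)) (pmn R K2))
      (padd (sl P.fam (bmT P.tt P.ht C0) (bmT P.tn P.hn C0)) (pmn R K3)))
      (comg P.cn a (c0 * P.b1 + ρ * r1) (c0 * b2 + ρ * r2) (c0 * (P.b1 + b2) + ρ * r3)) := by
    refine enc_comT P.cn hA ?_ ?_ ?_
    · refine enc_cast (enc_add (enc_bmT P.t1 P.h1 hC0) (enc_mn hR hr1)) ?_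
      unfold Cp.b1
      ring
    · exact enc_cast (enc_add k2 (enc_mn hR hr2)) (by ring)
    · exact enc_cast (enc_add k3 (enc_mn hR hr3)) (by rw [e3]; ring)
  have hdd : Enc E (psub K3 (padd K1 K2)) (-(r1 + r2 - r3)) :=
    enc_cast (enc_sub hr3 (enc_add hr1 hr2)) (by ring)
  have he : Enc E (phf (padd (psub (psub (padd (bmT P.t1 P.h1 C3) Z1)
      (sl P.fam (bmT P.tt P.ht C1) (bmT P.tn P.hn C1))) (pnat P.m1 Z3))
      (pmn R (psub (pmn Z1 C3) (pmn Z3 C1))))) D.e0 := by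
    refine enc_cast (enc_half (enc_add (enc_sub (enc_sub (enc_add (enc_bmT P.t1 P.h1 hC3) hz1)
      kc) (enc_nat P.m1 hz3)) (enc_mn hR (enc_sub (enc_mn hz1 hC3) (enc_mn hz3 hC1))))) ?_
    subst hD
    unfold Crn.e0
    simp only
    rw [em, e3]
    unfold Cp.b1
    ring
  have cone : ∀ {e : ℝ} {L k : ℕ}, Enc E L e → sgnW X R A (pmn (esT X) (pinv X))
      (pmn (esT X) (pinv (psub pone X))) (comT P.cn A (padd (bmT P.t1 P.h1 C0) (pmn R K1))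
      (padd (sl P.fam (bmT P.tn P.hn C0) (bmT P.tt P.ht C0)) (pmn R K2))
      (padd (sl P.fam (bmT P.tt P.ht C0) (bmT P.tn P.hn C0)) (pmn R K3)))
      (psub K3 (padd K1 K2)) MW IE k L = true →
      D.Ok c0 x (esn x / x) (esn x / (1 - x)) ((e - mw) * en⁻¹) := by
    intro e L k hL hk
    unfold Crn.Ok
    unfold sgnW at hk
    simp only [frc_eq] at hk
    subst hD
    exact sgnT_sound hX hR hA hp hq hom hdd (enc_mn (enc_sub hL hMW) hIE) hk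
  have hS := enc_sub (enc_add hl1 hl2) hl3
  have g1 : y - P.m1 = ρ * cd1 P.cn a := by rw [hy]; ring
  have g2 : y' - m2 = ρ * cd2 P.cn a := by rw [hy']; ring
  have g3 : y + y' - (P.m1 + m2) = ρ * cd3 P.cn a := by
    rw [hy, hy', ← cd_add hP.six]; ring
  unfold finT at ht
  obtain ⟨t1, t2⟩ := band_true ht
  have hM := enc_muT N0 hX
  have hF := enc_sub he (enc_mn hM (enc_half (enc_sub (enc_mn hY1 hl2) (enc_mn hY2 hl1))))
  have hG := enc_mn hM (enc_mn (enc_sub (enc_add (enc_phn E N0) (enc_half hX)) (enc_half hY3))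
    hS)
  have o1 := cone (enc_add hF hG) t1
  have o2 := cone (enc_sub hF hG) t2
  have eA : D.e0 + D.LA N0 0 x = D.e0 - mun N0 x * ((y * l2 - y' * l1) / 2) +
      mun N0 x * (((N0 : ℝ) / 2 + x / 2 - (y + y') / 2) * (l1 + l2 - l3)) := by
    have a1 : D.y = y := by subst hD; unfold Crn.y; rw [hy]
    have a2 : D.y' = y' := by subst hD; unfold Crn.y'; rw [hy']
    unfold Crn.LA
    rw [a1, a2]
    subst hD
    simp only
    ring
  have eB : D.e0 + D.LB N0 0 x = D.e0 - mun N0 x * ((y * l2 - y' * l1) / 2) -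
      mun N0 x * (((N0 : ℝ) / 2 + x / 2 - (y + y') / 2) * (l1 + l2 - l3)) := by
    have a1 : D.y = y := by subst hD; unfold Crn.y; rw [hy]
    have a2 : D.y' = y' := by subst hD; unfold Crn.y'; rw [hy']
    unfold Crn.LB
    rw [a1, a2]
    subst hD
    simp only
    ring
  rw [← eA] at o1
  rw [← eB] at o2
  have := Crn.rowW (D := D) (N0 := N0) (lv := 0) (en := en) (mw := mw) (c0 := c0) (X12 := X12) (X13 := X13)
    (y := y) (y' := y') (R1 := v1) (R2 := v2) (R3 := v3) (x1 := w1) (x2 := w2) (x3 := w3) base hen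
    (by subst hD; rw [hy]; rfl) (by subst hD; rw [hy']; rfl) (by subst hD; exact hX12)
    (by subst hD; rw [hX13, ← e3]) (by subst hD; exact hv1) (by subst hD; exact hv2)
    (by subst hD; rw [hv3, ← e3]) (by subst hD; exact hw1) (by subst hD; exact hw2)
    (by subst hD; exact hw3) (MW := ρ * mw) (by subst hD; rfl) o1 o2
  subst hD
  simp only at this
  rw [g1, g2, g3] at this
  exact this

/-! ### The third kernel -/

/-- the zero function -/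
noncomputable def fz2 : Fn2 := ⟨fun _ _ => pzero, fun _ _ => 0, fun _ _ => enc_zero _⟩

noncomputable def fz2_s : Sl2 fz2 := ⟨fun _ _ _ _ => pzero, fun _ _ => pr_const (enc_zero _)⟩

/-- A function with its slopes. -/
structure CnW where
  f : Fn2
  s : Sl2 f

/-- The node with the function in the place of the kernel. -/
noncomputable def Gn.c (G : Gn) (D : CnW) : Gn :=
  ⟨⟨G.nd.Y, G.nd.X, D.f, fz2⟩, G.X, D.s, fz2_s, G.cc⟩

/-- the near level of both vertices -/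
noncomputable def levW (N0 : ℕ) (E mo x y y' ex l1 l2 l3 c1 c2 c3 : ℝ) : ℝ :=
  (levN N0 0 x y y' ex l1 l2 l3 - mo * wdR c1 c2 c3) / E

theorem lin_zz {a b z : ℝ} : Lin a b 0 0 z 0 := by
  unfold Lin
  ring

/-! ### The leaf -/

/-- the test after the choice of the segment -/
noncomputable def corKW (N0 : ℕ) (C0 En mo : Fn1) (P : Cp) (G1 G2 : Gn) (D1 D2 : CnW)
    (h R A X C1 C2 C3 Y1 Yn Yt z1 zn zt az : ℕ) (gK gL ξ κ l gC ξ' c : ℕ) : Bool :=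
  frc (psub az (pmn (sl P.fam C3 C2) ξ)) fun dz =>
  frc (sg P.tt (padd (pmn (sl P.fam C3 C2) κ) (pmn gK dz))) fun rt =>
  frc (sg P.tt (padd (pmn (sl P.fam C3 C2) l) (pmn gL dz))) fun lt =>
  frc (sg P.tt (padd (pmn (sl P.fam C3 C2) c) (pmn gC (psub az (pmn (sl P.fam C3 C2) ξ'))))) fun et =>
  frc (sg P.t1 (pmn C1 (G1.kT Y1 (pnc P.m1) X))) fun r1 =>
  frc (sg P.tn (pmn (sl P.fam C2 C3) (G2.kT Yn (pnc P.mn) X))) fun rn =>
  frc (sg P.t1 (pmn C1 (G1.lT Y1 (pnc P.m1) X))) fun l1 =>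
  frc (sg P.tn (pmn (sl P.fam C2 C3) (G2.lT Yn (pnc P.mn) X))) fun ln =>
  frc (sg P.t1 (pmn C1 ((G1.c D1).kT Y1 (pnc P.m1) X))) fun e1 =>
  frc (sg P.tn (pmn (sl P.fam C2 C3) ((G2.c D2).kT Yn (pnc P.mn) X))) fun en =>
  ratW N0 P h R A X C1 C3 Y1 (sl P.fam Yn Yt) (sl P.fam Yt Yn) (C0.t X) z1
    (sl P.fam zt zn) r1 (sl P.fam rn rt) (sl P.fam rt rn) l1 (sl P.fam ln lt) (sl P.fam lt ln)
    (pmn (mo.t X) (wdT e1 en et)) (pinv (En.t X))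

/-- **The test of a leaf.** -/
noncomputable def corW (N0 : ℕ) (C0 En mo : Fn1) (P : Cp) (G1 G2 Ga Gb : Gn)
    (D1 D2 Da Db : CnW) (lo up : Bool) (h R A X : ℕ) : Bool :=
  frc (cdT1 P.cn A) fun C1 => frc (cdT2 P.cn A) fun C2 => frc (cdT3 P.cn A) fun C3 =>
  frc (padd (pnc P.m1) (pmn R C1)) fun Y1 =>
  frc (padd (pnc P.mn) (pmn R (sl P.fam C2 C3))) fun Yn =>
  frc (padd (pnc P.mt) (pmn R (sl P.fam C3 C2))) fun Yt =>
  frc (sg P.t1 (pmn C1 (G1.xT Y1 (pnc P.m1)))) fun z1 =>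
  frc (sg P.tn (pmn (sl P.fam C2 C3) (G2.xT Yn (pnc P.mn)))) fun zn =>
  frc (th P.fam z1 zn) fun zt => frc (sg P.tt zt) fun az =>
  frc (padd (phn P.ht) (pmn R az)) fun Z => band (ppos Z)
  (ch3 (Nat.land h 3)
    (segT lo up Ga Gb Yt (pnc P.mt) X Z fun gK gL ξ κ l =>
      segT lo up (Ga.c Da) (Gb.c Db) Yt (pnc P.mt) X Z fun gC _ ξ' c _ =>
        corKW N0 C0 En mo P G1 G2 D1 D2 h R A X C1 C2 C3 Y1 Yn Yt z1 zn zt az gK gL ξ κ l gC ξ' c)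
    (band lo (ppos (psub (pmn (sl P.fam C3 C2) (Ga.xT Yt (pnc P.mt))) az)))
    (band up (ppos (psub az (pmn (sl P.fam C3 C2) (Gb.xT Yt (pnc P.mt)))))))

namespace Cp

variable (P : Cp) (G1 G2 Ga Gb : Gn) (D1 D2 Da Db : CnW) (ρ a x : ℝ)

/-- the statement of a row, `T`, `TL` and `TC` the values on the third side -/
def ConclW (N0 : ℕ) (E mo : ℝ) (T TL TC : ℝ) : Prop :=
  ∃ g, 0 ≤ slc P.cn (levW N0 E mo x (P.y1 ρ a) (cond P.fam (P.yn ρ a) (P.yt ρ a))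
    (exn' (P.X1 G1 ρ a) (cond P.fam (P.Xt G1 G2 ρ a) (P.Xn G2 ρ a)) (P.y1 ρ a)
      (P.y1 ρ a + cond P.fam (P.yn ρ a) (P.yt ρ a)))
    (sgr P.t1 (G1.lv (P.y1 ρ a) x))
    (cond P.fam (sgr P.tn (G2.lv (P.yn ρ a) x)) (sgr P.tt TL))
    (cond P.fam (sgr P.tt TL) (sgr P.tn (G2.lv (P.yn ρ a) x)))
    (sgr P.t1 ((G1.c D1).kv (P.y1 ρ a) x)) (sgr P.tn ((G2.c D2).kv (P.yn ρ a) x))
    (sgr P.tt TC)) (ken x) x
    (ρ * cd1 P.cn a) (ρ * cd2 P.cn a) (ρ * cd3 P.cn a)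
    (sgr P.t1 (G1.kv (P.y1 ρ a) x))
    (cond P.fam (sgr P.tn (G2.kv (P.yn ρ a) x)) (sgr P.tt T))
    (cond P.fam (sgr P.tt T) (sgr P.tn (G2.kv (P.yn ρ a) x))) g

/-- **The statement of a leaf.** -/
def StmW (N0 : ℕ) (E mo : ℝ) (lo up : Bool) : Prop :=
  0 < P.Z G1 G2 ρ a ∧
  ((lo = true ∧ P.Z G1 G2 ρ a < Ga.xv (P.yt ρ a)) ∨
    (up = true ∧ Gb.xv (P.yt ρ a) < P.Z G1 G2 ρ a) ∨
    ((lo = false → Ga.xv (P.yt ρ a) < P.Z G1 G2 ρ a) ∧
      (up = false → P.Z G1 G2 ρ a < Gb.xv (P.yt ρ a)) ∧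
      (Ga.xv (P.yt ρ a) ≤ P.Z G1 G2 ρ a → P.Z G1 G2 ρ a ≤ Gb.xv (P.yt ρ a) → ∀ T TL TC,
        Lin (Ga.xv (P.yt ρ a)) (Gb.xv (P.yt ρ a)) (Ga.kv (P.yt ρ a) x) (Gb.kv (P.yt ρ a) x)
          (P.Z G1 G2 ρ a) T →
        Lin (Ga.xv (P.yt ρ a)) (Gb.xv (P.yt ρ a)) (Ga.lv (P.yt ρ a) x) (Gb.lv (P.yt ρ a) x)
          (P.Z G1 G2 ρ a) TL →
        Lin (Ga.xv (P.yt ρ a)) (Gb.xv (P.yt ρ a)) ((Ga.c Da).kv (P.yt ρ a) x)
          ((Gb.c Db).kv (P.yt ρ a) x) (P.Z G1 G2 ρ a) TC →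
        P.ConclW G1 G2 D1 D2 ρ a x N0 E mo T TL TC)))

end Cp

theorem corW_sound {E : Pt} {N0 : ℕ} {C0 En mo : Fn1} {P : Cp} (hP : P.Ok)
    {G1 G2 Ga Gb : Gn} {D1 D2 Da Db : CnW} {lo up : Bool} {h R A X : ℕ} {ρ a x : ℝ} (B : CRng ρ a x) (hρ : 0 < ρ)
    (hR : Enc E R ρ) (hA : Enc E A a) (hX : Enc E X x) (hen : 0 < En.v x)
    (h1 : G1.At P.m1 ((P.h1 : ℝ) / 2) (C0.v x) x) (h2 : G2.At P.mn ((P.hn : ℝ) / 2) (C0.v x) x)
    (ha : lo = true → Ga.At P.mt ((P.ht : ℝ) / 2) (C0.v x) x)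
    (hb : up = true → Gb.At P.mt ((P.ht : ℝ) / 2) (C0.v x) x)
    (z1 : (G1.c D1).At P.m1 ((P.h1 : ℝ) / 2) 0 x) (z2 : (G2.c D2).At P.mn ((P.hn : ℝ) / 2) 0 x)
    (za : lo = true → (Ga.c Da).At P.mt ((P.ht : ℝ) / 2) 0 x)
    (zb : up = true → (Gb.c Db).At P.mt ((P.ht : ℝ) / 2) 0 x)
    (ht : corW N0 C0 En mo P G1 G2 Ga Gb D1 D2 Da Db lo up h R A X = true) :
    P.StmW G1 G2 Ga Gb D1 D2 Da Db ρ a x N0 (En.v x) (mo.v x) lo up := by
  obtain ⟨⟨c1, c2⟩, ca, cb, -⟩ : ((G1.c D1).At P.m1 ((P.h1 : ℝ) / 2) 0 x ∧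
    (G2.c D2).At P.mn ((P.hn : ℝ) / 2) 0 x) ∧
    (lo = true → (Ga.c Da).At P.mt ((P.ht : ℝ) / 2) 0 x) ∧
    (up = true → (Gb.c Db).At P.mt ((P.ht : ℝ) / 2) 0 x) ∧ True := ⟨⟨z1, z2⟩, za, zb, trivial⟩
  clear z1 z2 za zb
  unfold corW at ht
  simp only [frc_eq] at ht
  obtain ⟨tz, ht⟩ := band_true ht
  have C1 := enc_cdT1 P.cn hA
  have C2 := enc_cdT2 P.cn hA
  have C3 := enc_cdT3 P.cn hA
  have CnW : Enc E (sl P.fam (cdT2 P.cn A) (cdT3 P.cn A)) (cond P.fam (cd2 P.cn a) (cd3 P.cn a)) :=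
    enc_sl _ C2 C3
  have Ct : Enc E (sl P.fam (cdT3 P.cn A) (cdT2 P.cn A)) (cond P.fam (cd3 P.cn a) (cd2 P.cn a)) :=
    enc_sl _ C3 C2
  have Y1 : Enc E (padd (pnc P.m1) (pmn R (cdT1 P.cn A))) (P.y1 ρ a) :=
    enc_add (enc_pnc E _) (enc_mn hR C1)
  have Yn : Enc E (padd (pnc P.mn) (pmn R (sl P.fam (cdT2 P.cn A) (cdT3 P.cn A)))) (P.yn ρ a) :=
    enc_add (enc_pnc E _) (enc_mn hR CnW)
  have Yt : Enc E (padd (pnc P.mt) (pmn R (sl P.fam (cdT3 P.cn A) (cdT2 P.cn A)))) (P.yt ρ a) :=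
    enc_add (enc_pnc E _) (enc_mn hR Ct)
  obtain ⟨cn, hcn⟩ : ∃ z, z = cond P.fam (cd2 P.cn a) (cd3 P.cn a) := ⟨_, rfl⟩
  obtain ⟨ct, hct⟩ : ∃ z, z = cond P.fam (cd3 P.cn a) (cd2 P.cn a) := ⟨_, rfl⟩
  rw [← hcn] at CnW
  rw [← hct] at Ct
  have d1 : P.y1 ρ a - P.m1 = ρ * cd1 P.cn a := by unfold Cp.y1; ring
  have dn : P.yn ρ a - P.mn = ρ * cn := by unfold Cp.yn; rw [hcn]; ring
  have dt : P.yt ρ a - P.mt = ρ * ct := by unfold Cp.yt; rw [hct]; ring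
  obtain ⟨⟨x1, x11, x12⟩, ⟨k1, k11, k12⟩, ⟨l1, l11, l12⟩⟩ := G1.slopes Y1 (enc_pnc E P.m1) hX
  obtain ⟨⟨xn, xn1, xn2⟩, ⟨kn, kn1, kn2⟩, ⟨ln, ln1, ln2⟩⟩ := G2.slopes Yn (enc_pnc E P.mn) hX
  obtain ⟨-, ⟨f1, f11, f12⟩, -⟩ := (G1.c D1).slopes Y1 (enc_pnc E P.m1) hX
  obtain ⟨-, ⟨fn, fn1, fn2⟩, -⟩ := (G2.c D2).slopes Yn (enc_pnc E P.mn) hX
  obtain ⟨⟨xa, xa1, xa2⟩, -, -⟩ := Ga.slopes Yt (enc_pnc E P.mt) hX
  obtain ⟨⟨xb, xb1, xb2⟩, -, -⟩ := Gb.slopes Yt (enc_pnc E P.mt) hX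
  rw [d1] at x12 k12 l12 f12
  rw [dn] at xn2 kn2 ln2 fn2
  rw [dt] at xa2 xb2
  have z1 := enc_sg P.t1 (enc_mn C1 x11)
  have zn := enc_sg P.tn (enc_mn CnW xn1)
  obtain ⟨Z1, hZ1⟩ : ∃ z, z = sgr P.t1 (cd1 P.cn a * x1) := ⟨_, rfl⟩
  obtain ⟨Zn, hZn⟩ : ∃ z, z = sgr P.tn (cn * xn) := ⟨_, rfl⟩
  rw [← hZ1] at z1
  rw [← hZn] at zn
  obtain ⟨Zt, hZt⟩ : ∃ z, z = cond P.fam (Z1 + Zn) (Zn - Z1) := ⟨_, rfl⟩
  have zt : Enc E (th P.fam (sg P.t1 (pmn (cdT1 P.cn A)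
      (G1.xT (padd (pnc P.m1) (pmn R (cdT1 P.cn A))) (pnc P.m1))))
      (sg P.tn (pmn (sl P.fam (cdT2 P.cn A) (cdT3 P.cn A))
        (G2.xT (padd (pnc P.mn) (pmn R (sl P.fam (cdT2 P.cn A) (cdT3 P.cn A)))) (pnc P.mn)))))
      Zt := by
    rw [hZt]
    exact enc_th _ z1 zn
  have az := enc_sg P.tt zt
  have hX1 : P.X1 G1 ρ a = P.b1 + ρ * Z1 := by
    unfold Cp.X1 Cp.b1
    rw [hZ1, ← sgr_mul, ← sgr_add]
    congr 1
    have := h1.X
    linarith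
  have hXn : P.Xn G2 ρ a = P.bn + ρ * Zn := by
    unfold Cp.Xn Cp.bn
    rw [hZn, ← sgr_mul, ← sgr_add]
    congr 1
    have := h2.X
    linarith
  have hXt : P.Xt G1 G2 ρ a = P.bt + ρ * Zt := by
    unfold Cp.Xt
    rw [hX1, hXn, hZt]
    have := hP.b
    cases hf : P.fam
    · rw [hf] at this
      simp only [cond_false] at this ⊢
      linear_combination -this
    · rw [hf] at this
      simp only [cond_true] at this ⊢
      linear_combination this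
  have hZ : P.Z G1 G2 ρ a = (P.ht : ℝ) / 2 + ρ * sgr P.tt Zt := by
    unfold Cp.Z
    rw [hXt, sgr_add, sgr_mul]
    unfold Cp.bt
    rw [sgr_sgr]
  have eZ := enc_add (enc_phn E P.ht) (enc_mn hR az)
  rw [← hZ] at eZ
  refine ⟨ppos_sound eZ tz, ?_⟩
  rcases ch3_true ht with ht | ht | ht
  · right; right
    have hs := segT_sound (B := (P.ht : ℝ) / 2) (c0 := C0.v x) Yt (enc_pnc E P.mt) hX eZ ha hb ht
    refine ⟨hs.1, hs.2.1, fun i1 i2 T TL TC hT hTL hTC => ?_⟩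
    obtain ⟨gK, gL, ξ, κ, l, GK, GM, XI, KA, LA, e1, e2, e3, e4, e5, hk, eT, eTL⟩ :=
      hs.2.2 i1 i2 T TL hT hTL
    have hs' := segT_sound (B := (P.ht : ℝ) / 2) (c0 := 0) Yt (enc_pnc E P.mt) hX eZ ca cb hk
    obtain ⟨gC, gz, ξ', κ', l', GC, GZ, XI', KA', LA', e6, -, e8, e9, -, hk, eTC, -⟩ :=
      hs'.2.2 i1 i2 TC 0 hTC lin_zz
    unfold corKW at hk
    simp only [frc_eq] at hk
    rw [dt] at eT eTL eTC
    have dz := enc_sub az (enc_mn Ct e3)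
    have rt := enc_sg P.tt (enc_add (enc_mn Ct e4) (enc_mn e1 dz))
    have lt := enc_sg P.tt (enc_add (enc_mn Ct e5) (enc_mn e2 dz))
    have r1 := enc_sg P.t1 (enc_mn C1 k11)
    have rn := enc_sg P.tn (enc_mn CnW kn1)
    have q1 := enc_sg P.t1 (enc_mn C1 l11)
    have qn := enc_sg P.tn (enc_mn CnW ln1)
    have dz' := enc_sub az (enc_mn Ct e8)
    have et := enc_sg P.tt (enc_add (enc_mn Ct e9) (enc_mn e6 dz'))
    have g1 := enc_sg P.t1 (enc_mn C1 f11)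
    have gn := enc_sg P.tn (enc_mn CnW fn1)
    have y3 : Enc E (sl P.fam (padd (pnc P.mt) (pmn R (sl P.fam (cdT3 P.cn A) (cdT2 P.cn A))))
        (padd (pnc P.mn) (pmn R (sl P.fam (cdT2 P.cn A) (cdT3 P.cn A)))))
        (P.y1 ρ a + cond P.fam (P.yn ρ a) (P.yt ρ a)) := by
      refine enc_cast (enc_sl _ Yt Yn) ?_
      have := cd_add hP.six a
      have hm := hP.m
      unfold Cp.yt Cp.yn Cp.y1
      cases hf : P.fam
      · rw [hf] at hm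
        simp only [cond_false] at hm ⊢
        rw [← this]
        linear_combination -hm
      · rw [hf] at hm
        simp only [cond_true] at hm ⊢
        rw [← this]
        linear_combination -hm
    have z3 : Enc E (sl P.fam (th P.fam (sg P.t1 (pmn (cdT1 P.cn A)
        (G1.xT (padd (pnc P.m1) (pmn R (cdT1 P.cn A))) (pnc P.m1))))
        (sg P.tn (pmn (sl P.fam (cdT2 P.cn A) (cdT3 P.cn A))
          (G2.xT (padd (pnc P.mn) (pmn R (sl P.fam (cdT2 P.cn A) (cdT3 P.cn A)))) (pnc P.mn)))))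
        (sg P.tn (pmn (sl P.fam (cdT2 P.cn A) (cdT3 P.cn A))
          (G2.xT (padd (pnc P.mn) (pmn R (sl P.fam (cdT2 P.cn A) (cdT3 P.cn A)))) (pnc P.mn)))))
        (cond P.fam Zt Zn) := enc_sl _ zt zn
    have vt : sgr P.tt T = C0.v x * P.bt + ρ * sgr P.tt (ct * κ + gK * (sgr P.tt Zt - ct * ξ)) := by
      unfold Cp.bt
      rw [← sgr_mul, ← sgr_mul, ← sgr_add, eT]
      congr 1
      rw [hZ]
      ring
    have wt : sgr P.tt TL = ρ * sgr P.tt (ct * l + gL * (sgr P.tt Zt - ct * ξ)) := by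
      rw [← sgr_mul, eTL]
      congr 1
      rw [hZ]
      ring
    have v1 : sgr P.t1 (G1.kv (P.y1 ρ a) x) = C0.v x * P.b1 + ρ * sgr P.t1 (cd1 P.cn a * k1) := by
      unfold Cp.b1
      rw [← sgr_mul, ← sgr_mul, ← sgr_add]
      congr 1
      have := h1.K
      linarith
    have vn : sgr P.tn (G2.kv (P.yn ρ a) x) = C0.v x * P.bn + ρ * sgr P.tn (cn * kn) := by
      unfold Cp.bn
      rw [← sgr_mul, ← sgr_mul, ← sgr_add]
      congr 1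
      have := h2.K
      linarith
    have w1 : sgr P.t1 (G1.lv (P.y1 ρ a) x) = ρ * sgr P.t1 (cd1 P.cn a * l1) := by
      rw [← sgr_mul]
      congr 1
      have := h1.L
      linarith
    have wn : sgr P.tn (G2.lv (P.yn ρ a) x) = ρ * sgr P.tn (cn * ln) := by
      rw [← sgr_mul]
      congr 1
      have := h2.L
      linarith
    have u1 : sgr P.t1 ((G1.c D1).kv (P.y1 ρ a) x) = ρ * sgr P.t1 (cd1 P.cn a * f1) := by
      rw [← sgr_mul]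
      congr 1
      have := c1.K
      linarith
    have un : sgr P.tn ((G2.c D2).kv (P.yn ρ a) x) = ρ * sgr P.tn (cn * fn) := by
      rw [← sgr_mul]
      congr 1
      have := c2.K
      linarith
    have ut : sgr P.tt TC = ρ * sgr P.tt (ct * κ' + gC * (sgr P.tt Zt - ct * ξ')) := by
      rw [← sgr_mul, eTC]
      congr 1
      rw [hZ]
      ring
    unfold Cp.ConclW levW
    rw [u1, un, ut, wdR_smul B.ρ0]
    have fin := ratW_sound (N0 := N0) (mw := mo.v x * wdR (sgr P.t1 (cd1 P.cn a * f1))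
      (sgr P.tn (cn * fn)) (sgr P.tt (ct * κ' + gC * (sgr P.tt Zt - ct * ξ')))) hP B hen
      (enc_mn (mo.enc hX) (enc_wdT g1 gn et)) (enc_inv (En.enc hX)) hR hA hX C1 C3 Y1
      (enc_sl _ Yn Yt) y3 (C0.enc hX) z1 z3 r1
      (enc_sl _ rn rt) (enc_sl _ rt rn) q1 (enc_sl _ qn lt) (enc_sl _ lt qn)
      (X12 := P.X1 G1 ρ a) (X13 := cond P.fam (P.Xt G1 G2 ρ a) (P.Xn G2 ρ a))
      (y := P.y1 ρ a) (y' := cond P.fam (P.yn ρ a) (P.yt ρ a))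
      (v1 := sgr P.t1 (G1.kv (P.y1 ρ a) x))
      (v2 := cond P.fam (sgr P.tn (G2.kv (P.yn ρ a) x)) (sgr P.tt T))
      (v3 := cond P.fam (sgr P.tt T) (sgr P.tn (G2.kv (P.yn ρ a) x)))
      (w1 := sgr P.t1 (G1.lv (P.y1 ρ a) x))
      (w2 := cond P.fam (sgr P.tn (G2.lv (P.yn ρ a) x)) (sgr P.tt TL))
      (w3 := cond P.fam (sgr P.tt TL) (sgr P.tn (G2.lv (P.yn ρ a) x))) rfl ?_ hX1 ?_ v1 ?_ ?_
      w1 ?_ ?_ hk
    · obtain ⟨g, hg⟩ := fin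
      refine ⟨g, ?_⟩
      rw [show mo.v x * (ρ * wdR (sgr P.t1 (cd1 P.cn a * f1)) (sgr P.tn (cn * fn))
        (sgr P.tt (ct * κ' + gC * (sgr P.tt Zt - ct * ξ')))) = ρ * (mo.v x *
        wdR (sgr P.t1 (cd1 P.cn a * f1)) (sgr P.tn (cn * fn))
        (sgr P.tt (ct * κ' + gC * (sgr P.tt Zt - ct * ξ')))) by ring]
      exact hg
    · unfold Cp.yn Cp.yt
      cases P.fam <;> rfl
    · cases hf : P.fam <;> simp only [cond_false, cond_true]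
      · exact hXn
      · exact hXt
    · cases hf : P.fam <;> simp only [cond_false, cond_true]
      · exact vt
      · exact vn
    · cases hf : P.fam <;> simp only [cond_false, cond_true]
      · exact vn
      · exact vt
    · cases hf : P.fam <;> simp only [cond_false, cond_true]
      · exact wt
      · exact wn
    · cases hf : P.fam <;> simp only [cond_false, cond_true]
      · exact wn
      · exact wt
  · left
    obtain ⟨i1, i2⟩ := band_true ht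
    refine ⟨i1, ?_⟩
    have := ppos_sound (enc_sub (enc_mn Ct xa1) az) i2
    have e := (ha i1).X
    rw [hZ]
    nlinarith [mul_pos hρ this]
  · right; left
    obtain ⟨i1, i2⟩ := band_true ht
    refine ⟨i1, ?_⟩
    have := ppos_sound (enc_sub az (enc_mn Ct xb1)) i2
    have e := (hb i1).X
    rw [hZ]
    nlinarith [mul_pos hρ this]

/-- **From the certificate of a chart to its statement.** -/
theorem corW_cert {N0 : ℕ} {C0 En mo : Fn1} {P : Cp} (hP : P.Ok)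
    {G1 G2 Ga Gb : Gn} {D1 D2 Da Db : CnW} {lo up : Bool} {Wr Px Wx : ℕ} {ρ a x : ℝ} (B : CRng ρ a x) (hρ : 0 < ρ) (hen : 0 < En.v x)
    (h1 : G1.At P.m1 ((P.h1 : ℝ) / 2) (C0.v x) x) (h2 : G2.At P.mn ((P.hn : ℝ) / 2) (C0.v x) x)
    (ha : lo = true → Ga.At P.mt ((P.ht : ℝ) / 2) (C0.v x) x)
    (hb : up = true → Gb.At P.mt ((P.ht : ℝ) / 2) (C0.v x) x)
    (z1 : (G1.c D1).At P.m1 ((P.h1 : ℝ) / 2) 0 x) (z2 : (G2.c D2).At P.mn ((P.hn : ℝ) / 2) 0 x)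
    (za : lo = true → (Ga.c Da).At P.mt ((P.ht : ℝ) / 2) 0 x)
    (zb : up = true → (Gb.c Db).At P.mt ((P.ht : ℝ) / 2) 0 x)
    (hr : ρ ≤ (Wr : ℝ) / S) (hx : (Px : ℝ) / S ≤ x) (hx' : x ≤ ((Px : ℝ) + Wx) / S)
    (ht : ∃ t, chk3 (onCell 0 Wr 0 1073741824 Px Wx
      (corW N0 C0 En mo P G1 G2 Ga Gb D1 D2 Da Db lo up)) t 1 1 1 = true) :
    P.StmW G1 G2 Ga Gb D1 D2 Da Db ρ a x N0 (En.v x) (mo.v x) lo up := by
  have key := onCell_sound (Q := fun r b z => CRng r b z → 0 < r → 0 < En.v z →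
    G1.At P.m1 ((P.h1 : ℝ) / 2) (C0.v z) z → G2.At P.mn ((P.hn : ℝ) / 2) (C0.v z) z →
    (lo = true → Ga.At P.mt ((P.ht : ℝ) / 2) (C0.v z) z) →
    (up = true → Gb.At P.mt ((P.ht : ℝ) / 2) (C0.v z) z) →
    (G1.c D1).At P.m1 ((P.h1 : ℝ) / 2) 0 z → (G2.c D2).At P.mn ((P.hn : ℝ) / 2) 0 z →
    (lo = true → (Ga.c Da).At P.mt ((P.ht : ℝ) / 2) 0 z) →
    (up = true → (Gb.c Db).At P.mt ((P.ht : ℝ) / 2) 0 z) →
    P.StmW G1 G2 Ga Gb D1 D2 Da Db r b z N0 (En.v z) (mo.v z) lo up) (f := corW N0 C0 En mo P G1 G2 Ga Gb D1 D2 Da Db lo up)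
    (fun hR hA hX ht B hρ he h1 h2 ha hb z1 z2 za zb =>
      corW_sound hP B hρ hR hA hX he h1 h2 ha hb z1 z2 za zb ht) ht
    (p := ρ) (q := a) (x := x) (by simpa using B.ρ0) (by simpa using hr) (by simpa using B.a0)
    (by
      have : ((0 : ℕ) : ℝ) + ((1073741824 : ℕ) : ℝ) = (S : ℝ) := by unfold S; push_cast; ring
      rw [this, div_self (by exact_mod_cast hS.ne')]
      exact B.a1) hx hx'
  exact key B hρ hen h1 h2 ha hb z1 z2 za zb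

end Pool.Agent.Strip051.PB
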