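import Pool.Agent.Strip051.PB.StripE
import Pool.Agent.Strip051.PB.Alt
import Pool.Agent.Strip051.PB.RowK

/-! # Unit strips: constants, alternatives from certificates -/

namespace Pool.Agent.Strip051.PB

open Pool.Agent.StripNear Pool.Agent.StripSquare Pool.Agent.Strip051.Sweep
open Pool.Agent.Strip051.LC

attribute [local irreducible] padd psub pneg pmul psq pinv psqrt psqrtg pabs pps pmax pmin pphi plam
  pcase phf pnat prat pscale pnorm pdc pnc pone ppos pnn Enc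

/-- a rational constant -/
noncomputable def Cn.rt (a b : ℕ) : Cn := ⟨prat a b, (a : ℝ) / b, fun E => enc_rat E a b⟩

/-- minus a constant -/
noncomputable def Cn.ng (c : Cn) : Cn := ⟨pneg c.t, -c.v, fun E => enc_neg (c.enc E)⟩

theorem Cn.rt_v (a b : ℕ) : (Cn.rt a b).v = (a : ℝ) / b := rfl

theorem Cn.ng_v (c : Cn) : c.ng.v = -c.v := rfl

/-! ### Facts about the tight curves, in the form of the tables -/

theorem bnd_px {t : Ty} {q : ℕ} {X y : ℝ} (h1 : t.inq q) (h2 : InQ q y) (h3 : qqn X y = t.nq)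
    (h4 : t ≠ .u2 → X = t.sx * |X|) : |t.px X y| ≤ 1 / 2 := by
  have e := Ty.py_sg (y := y) h4
  have hl : qqn |X| y = t.nq := by
    rw [← h3]
    unfold qqn
    rw [sq_abs]
  refine (unit_cT (Ty.p_unit h3) ?_).1
  rw [e]
  exact Ty.py_ge h1 h2 (abs_nonneg X) hl

theorem bnd_O {n : ℕ} {q : ℕ} {y : ℝ} (hy : OnC (0 : Fin (n + 1)) q y) :
    |(tyO q).px (c1n y) y| ≤ 1 / 2 := by
  have h2 := on_sq hy.1.nonneg (hy.2 rfl)
  refine bnd_px ?_ hy.1 ?_ ?_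
  · rcases onC_q hy with rfl | rfl | rfl
    · exact Or.inl rfl
    · exact Or.inr rfl
    · rfl
  · unfold qqn
    rw [c1n_sq h2.le]
    rcases onC_q hy with rfl | rfl | rfl <;> simp only [tyO, Ty.nq] <;> ring
  · intro _
    rw [abs_of_nonneg (c1n_nn y)]
    rcases onC_q hy with rfl | rfl | rfl <;> simp only [tyO, Ty.sx] <;> ring

theorem bnd_N {q : ℕ} {y : ℝ} (hy : InQ q y) : |(tyN q).px (c3n y) y| ≤ 1 / 2 := by
  have e := c3n_pos hy.nonneg hy.le_two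
  refine bnd_px ?_ hy ?_ ?_
  · match q, hy with
    | 0, _ => exact Or.inl rfl
    | 1, _ => exact Or.inr rfl
    | 2, _ => exact Or.inl rfl
    | 3, _ => exact Or.inr rfl
  · unfold qqn
    rw [e]
    match q, hy with
    | 0, _ => simp only [tyN, Ty.nq]; ring
    | 1, _ => simp only [tyN, Ty.nq]; ring
    | 2, _ => simp only [tyN, Ty.nq]; ring
    | 3, _ => simp only [tyN, Ty.nq]; ring
  · intro _
    rw [abs_of_nonneg (c3n_nn y)]
    match q, hy with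
    | 0, _ => simp only [tyN, Ty.sx]; ring
    | 1, _ => simp only [tyN, Ty.sx]; ring
    | 2, _ => simp only [tyN, Ty.sx]; ring
    | 3, _ => simp only [tyN, Ty.sx]; ring

theorem TightL.congr {t : Ty} {tx tx' : ℝ → ℝ → ℝ} {X y l : ℝ} (hp : |t.px X y| ≤ 1 / 2)
    (h : ∀ p c, |p| ≤ 1 / 2 → tx p c = tx' p c) (H : TightL t tx X y l) : TightL t tx' X y l := by
  unfold TightL at H ⊢
  rw [H, h _ _ hp, h _ _ (by rwa [abs_neg])]

section

variable {m : ℕ} {kc : ℝ → ℝ} {tx tx' : ℝ → ℝ → ℝ} {R : ℕ → ℝ → ℝ}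

theorem K0_of
    (h0 : ∀ y, OnC (0 : Fin (m + 1)) 0 y → R 0 y =
      (c1n y - 3 / 2 * y) * (1 + c1n y) * (1 + c1n y - 3 / 2 * y)⁻¹ +
        y * kc (3 / 4 * y - 1 / 2 * c1n y))
    (h1 : ∀ y, OnC (0 : Fin (m + 1)) 1 y → R 1 y =
      (1 + 2 * c1n y) * (3 / 2 * y - c1n y) * (1 + 3 / 2 * y - c1n y)⁻¹ / 2 +
        (y - 1) * kc (3 / 4 * y - 1 / 2 * c1n y))
    (h2 : ∀ y, OnC (0 : Fin (m + 1)) 2 y → R 2 y = c1n y + (y - 1) * kc (-c1n y)) (q : ℕ) (y : ℝ)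
    (hy : OnC (0 : Fin (m + 1)) q y) : TightK (tyO q) q kc (c1n y) y (R q y) := by
  have e : -(c1n y / 2 - 3 / 4 * y) = 3 / 4 * y - 1 / 2 * c1n y := by ring
  unfold TightK
  rw [abs_of_nonneg (c1n_nn y)]
  rcases onC_q hy with rfl | rfl | rfl
  · rw [h0 y hy]
    simp only [tyO, Gt, Ty.px, jq, e]
    push_cast
    ring
  · rw [h1 y hy]
    simp only [tyO, Gt, Ty.px, jq, e]
    push_cast
    ring
  · rw [h2 y hy]
    simp only [tyO, Gt, Ty.px, jq]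
    push_cast
    ring

theorem L0_of (hT : ∀ p c, |p| ≤ 1 / 2 → tx p c = tx' p c)
    (h0 : ∀ y, OnC (0 : Fin (m + 1)) 0 y → R 0 y = tx (3 / 4 * y - 1 / 2 * c1n y) (c1n y))
    (h1 : ∀ y, OnC (0 : Fin (m + 1)) 1 y → R 1 y = tx (3 / 4 * y - 1 / 2 * c1n y) (c1n y))
    (h2 : ∀ y, OnC (0 : Fin (m + 1)) 2 y → R 2 y = tx (-c1n y) (3 / 4 * y + 1 / 2 * c1n y) -
      tx (c1n y) (3 / 4 * y - 1 / 2 * c1n y)) (q : ℕ) (y : ℝ)
    (hy : OnC (0 : Fin (m + 1)) q y) : TightL (tyO q) tx' (c1n y) y (R q y) := by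
  refine TightL.congr (bnd_O hy) hT ?_
  have e : -(c1n y / 2 - 3 / 4 * y) = 3 / 4 * y - 1 / 2 * c1n y := by ring
  have e2 : 3 / 4 * (c1n y + y / 2) + (c1n y / 2 - 3 / 4 * y) / 2 = c1n y := by ring
  have e3 : 3 / 4 * y + c1n y / 2 = 3 / 4 * y + 1 / 2 * c1n y := by ring
  have e4 : 3 / 4 * y - c1n y / 2 = 3 / 4 * y - 1 / 2 * c1n y := by ring
  unfold TightL
  rcases onC_q hy with rfl | rfl | rfl
  · rw [h0 y hy]
    simp only [tyO, Ty.px, Ty.py, Ty.la, Ty.lb, e, e2]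
    ring
  · rw [h1 y hy]
    simp only [tyO, Ty.px, Ty.py, Ty.la, Ty.lb, e, e2]
    ring
  · rw [h2 y hy]
    simp only [tyO, Ty.px, Ty.py, Ty.la, Ty.lb, e3, e4]
    ring

theorem Kn_of
    (h0 : ∀ y, InQ 0 y → R 0 y = y * kc (1 / 2 * y) -
      y ^ 2 * (c3n y + 3 / 2) * ((1 - y) * (1 + y))⁻¹)
    (h1 : ∀ y, InQ 1 y → R 1 y = y * (c3n y + 3 / 2) * (1 + y)⁻¹ + (y - 1) * kc (1 / 2 * y))
    (h2 : ∀ y, InQ 2 y → R 2 y = (2 * c3n y - y) * (c3n y + 3 - 3 / 2 * y) * (2 - y)⁻¹ / 4 +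
      (y - 1) * kc (1 / 4 * y - 1 / 2 * c3n y))
    (h3 : ∀ y, InQ 3 y → R 3 y = (y - 2) * kc (1 / 4 * y - 1 / 2 * c3n y) -
      (2 * c3n y - y) * (c3n y + 3 - 3 / 2 * y) * (y - 1)⁻¹ / 4) (q : ℕ) (y : ℝ)
    (hy : InQ q y) : TightK (tyN q) q kc (c3n y) y (R q y) := by
  have e : -(-(y / 2)) = 1 / 2 * y := by ring
  have e' : -(c3n y / 2 - y / 4) = 1 / 4 * y - 1 / 2 * c3n y := by ring
  unfold TightK
  rw [abs_of_nonneg (c3n_nn y)]
  match q, hy with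
  | 0, hy =>
    rw [h0 y hy]
    simp only [tyN, Gt, Ty.px, jq, e]
    push_cast
    ring
  | 1, hy =>
    rw [h1 y hy]
    simp only [tyN, Gt, Ty.px, jq, e]
    push_cast
    ring
  | 2, hy =>
    rw [h2 y hy]
    simp only [tyN, Gt, Ty.px, jq, e']
    push_cast
    ring
  | 3, hy =>
    rw [h3 y hy]
    simp only [tyN, Gt, Ty.px, jq, e']
    push_cast
    ring

theorem Ln_of (hT : ∀ p c, |p| ≤ 1 / 2 → tx p c = tx' p c)
    (h0 : ∀ y, InQ 0 y → R 0 y = tx (1 / 2 * y) (1 / 2 * c3n y - 1 / 4 * y) +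
      tx (-(1 / 2 * y)) (1 / 2 * c3n y + 1 / 4 * y))
    (h1 : ∀ y, InQ 1 y → R 1 y = tx (1 / 2 * y) (1 / 2 * c3n y - 1 / 4 * y) +
      tx (-(1 / 2 * y)) (1 / 2 * c3n y + 1 / 4 * y))
    (h2 : ∀ y, InQ 2 y → R 2 y =
      2 * tx (1 / 4 * y - 1 / 2 * c3n y) (1 / 2 * c3n y + 1 / 4 * y) -
        tx (1 / 2 * c3n y - 1 / 4 * y) (1 / 2 * y))
    (h3 : ∀ y, InQ 3 y → R 3 y =
      2 * tx (1 / 4 * y - 1 / 2 * c3n y) (1 / 2 * c3n y + 1 / 4 * y) -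
        tx (1 / 2 * c3n y - 1 / 4 * y) (1 / 2 * y)) (q : ℕ) (y : ℝ)
    (hy : InQ q y) : TightL (tyN q) tx' (c3n y) y (R q y) := by
  refine TightL.congr (bnd_N hy) hT ?_
  have e1 : -(-(y / 2)) = 1 / 2 * y := by ring
  have e2 : 3 / 4 * (2 / 3 * c3n y) + -(y / 2) / 2 = 1 / 2 * c3n y - 1 / 4 * y := by ring
  have e3 : -(y / 2) = -(1 / 2 * y) := by ring
  have e4 : 3 / 4 * (2 / 3 * c3n y) - -(y / 2) / 2 = 1 / 2 * c3n y + 1 / 4 * y := by ring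
  have f1 : -(c3n y / 2 - y / 4) = 1 / 4 * y - 1 / 2 * c3n y := by ring
  have f2 : 3 / 4 * (c3n y / 3 + y / 2) + (c3n y / 2 - y / 4) / 2 =
    1 / 2 * c3n y + 1 / 4 * y := by ring
  have f3 : c3n y / 2 - y / 4 = 1 / 2 * c3n y - 1 / 4 * y := by ring
  have f4 : 3 / 4 * (c3n y / 3 + y / 2) - (c3n y / 2 - y / 4) / 2 = 1 / 2 * y := by ring
  unfold TightL
  match q, hy with
  | 0, hy =>
    rw [h0 y hy]
    simp only [tyN, Ty.px, Ty.py, Ty.la, Ty.lb]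
    rw [e1, e2, e4, e3]
    ring
  | 1, hy =>
    rw [h1 y hy]
    simp only [tyN, Ty.px, Ty.py, Ty.la, Ty.lb]
    rw [e1, e2, e4, e3]
    ring
  | 2, hy =>
    rw [h2 y hy]
    simp only [tyN, Ty.px, Ty.py, Ty.la, Ty.lb]
    rw [f1, f2, f4, f3]
    ring
  | 3, hy =>
    rw [h3 y hy]
    simp only [tyN, Ty.px, Ty.py, Ty.la, Ty.lb]
    rw [f1, f2, f4, f3]
    ring

end

/-- a difference quotient -/
theorem quo_mul {B Z d r : ℝ} (hd : 0 < d) (h : B * d + Z = r) : (B + Z * d⁻¹) * d = r := by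
  have := inv_mul_cancel₀ hd.ne'
  linear_combination h + Z * this

theorem quo_mul' {Z d : ℝ} (hd : 0 < d) : Z * d⁻¹ * d = Z := inv_mul_cancel_right₀ hd.ne' Z

/-- half of the factor of the kernel, form of `Row` -/
noncomputable def Kh.T : Kh := ⟨khT, ken, fun h => enc_khT h⟩

/-- half of the factor of the kernel, form of `RowK` -/
noncomputable def Kh.S : Kh := ⟨khS, kenS, fun h => enc_khS h⟩

/-! ### Trees -/

section

variable {kf : ℝ → ℝ → ℝ} {k0 : Cn} {l0 r0 : DT} {p x0 c0 v a0 b0 : ℝ}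

theorem DT.kv_le (h : p ≤ k0.v) : (DT.node k0 l0 r0).kv p x0 = l0.kv p x0 := if_pos h

theorem DT.kv_gt (h : k0.v < p) : (DT.node k0 l0 r0).kv p x0 = r0.kv p x0 := if_neg (not_le.2 h)

theorem DT.val_le (h : p ≤ k0.v) : (DT.node k0 l0 r0).val kf p c0 x0 = l0.val kf p c0 x0 := if_pos h

theorem DT.val_gt (h : k0.v < p) : (DT.node k0 l0 r0).val kf p c0 x0 = r0.val kf p c0 x0 :=
  if_neg (not_le.2 h)

theorem DT.kOk_node (hk : k0.v = v) (h1 : l0.kv v x0 = a0) (h2 : r0.kv v x0 = b0) (h : a0 = b0)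
    (hl : l0.KOk x0) (hr : r0.KOk x0) : (DT.node k0 l0 r0).KOk x0 := by
  subst hk
  exact ⟨h1.trans (h.trans h2.symm), hl, hr⟩

theorem DT.ok_node (hk : k0.v = v) (hv : |v| ≤ 1 / 2) (hc : cT v = c0)
    (h1 : l0.val kf v c0 x0 = a0) (h2 : r0.val kf v c0 x0 = b0) (h : a0 = b0)
    (hl : l0.Ok kf x0) (hr : r0.Ok kf x0) : (DT.node k0 l0 r0).Ok kf x0 := by
  subst hk
  subst hc
  exact ⟨hv, h1.trans (h.trans h2.symm), hl, hr⟩

end

/-! ### Certificates -/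

variable {n : ℕ} {P : Pos n} {RK RL : Fin (n + 1) → ℕ → ℝ → ℝ → ℝ} {pc : ℕ → Piece}
  {j k : Fin (n + 1)} {a b c : ℕ} {s1 s2 : Bool} {x κ : ℝ} {cn : Con} {n1 n2 : Node}
  {P1 W1 P2 W2 P3 W3 : ℕ} {xt : Ext} {L : List (List Cc)} {m : ℕ}

/-- one of the two conditions on the third side -/
noncomputable def cc3 (b : Bool) (m : ℕ) : Cc := ⟨cond b 3 4, 0, 0, m⟩

theorem cc3_not {x y z X Y : ℝ} (b : Bool) (h : (cc3 b m).P x y z X Y)
    (h' : (cc3 (!b) m).P x y z X Y) : False := by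
  cases b
  · exact absurd (show qqn X Y < (m : ℝ) / 1073741824 from h') (not_lt.2 (le_of_lt
      (show (m : ℝ) / 1073741824 < qqn X Y from h)))
  · exact absurd (show qqn X Y < (m : ℝ) / 1073741824 from h) (not_lt.2 (le_of_lt
      (show (m : ℝ) / 1073741824 < qqn X Y from h')))

/-- **A strip as an alternative**, family `A`: the certificate has the other condition on the third
side and the other alternatives as exits. -/
theorem strip_altA (w : Bool) (hc : con a b c = some cn) (hκ : κ * h0 = ken x)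
    (b1 : Cov P RK RL n1 j a P1 W1 (fun _ => True) x)
    (b2 : Cov P RK RL n2 k b P2 W2 (fun _ => True) x)
    (x1 : (P3 : ℝ) / S ≤ x) (x2 : x ≤ ((P3 : ℝ) + W3) / S)
    (ht : CertF P1 W1 P2 W2 P3 W3 true s1 s2 cn a b c n1 n2 (pc c)
      (Cut.of ([cc3 (!w) m] :: L)) xt)
    (H : CutA (VF κ) P RK RL pc (Cut.of L) a b c j k (sgb s1) (sgb s2) x)
    (hxt : ExtA (VF κ) P RK RL pc xt n1 n2 a b c j k (sgb s1) (sgb s2) x) :
    AltA (VF κ) P RK RL pc [cc3 w m] a b c j k (sgb s1) (sgb s2) x := by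
  intro y y' F h
  obtain ⟨p, A1, g1, g2⟩ := b1 y F.on1 trivial
  obtain ⟨p', A2, g3, g4⟩ := b2 y' F.on2 trivial
  refine FarR.stA A1 A2 F hc hκ (ht ⟨g1, g2⟩ ⟨g3, g4⟩ ⟨x1, x2⟩) ?_ (hxt y y' p p' F A1 A2)
  rintro ⟨l, hl, hP⟩
  rcases List.mem_cons.1 hl with rfl | hl
  · exact (cc3_not w (h _ List.mem_cons_self) (hP _ List.mem_cons_self)).elim
  · exact H y y' F ⟨l, hl, hP⟩

/-- **A strip as an alternative**, family `B`. -/
theorem strip_altB (w : Bool) (hc : con a b c = some cn) (hκ : κ * h0 = ken x)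
    (b1 : Cov P RK RL n1 j a P1 W1 (fun _ => True) x)
    (b2 : Cov P RK RL n2 k c P2 W2 (fun _ => True) x)
    (x1 : (P3 : ℝ) / S ≤ x) (x2 : x ≤ ((P3 : ℝ) + W3) / S)
    (ht : CertF P1 W1 P2 W2 P3 W3 false s1 s2 cn a b c n1 n2 (pc b)
      (Cut.of ([cc3 (!w) m] :: L)) xt)
    (H : CutB (VF κ) P RK RL pc (Cut.of L) a b c j k (sgb s1) (sgb s2) x)
    (hxt : ExtB (VF κ) P RK RL pc xt n1 n2 a b c j k (sgb s1) (sgb s2) x) :
    AltB (VF κ) P RK RL pc [cc3 w m] a b c j k (sgb s1) (sgb s2) x := by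
  intro y y' F h
  obtain ⟨p, A1, g1, g2⟩ := b1 y F.on1 trivial
  obtain ⟨p', A2, g3, g4⟩ := b2 (y + y') F.on3 trivial
  refine FarR.stB A1 A2 F hc hκ (ht ⟨g1, g2⟩ ⟨g3, g4⟩ ⟨x1, x2⟩) ?_ (hxt y y' p p' F A1 A2)
  rintro ⟨l, hl, hP⟩
  rcases List.mem_cons.1 hl with rfl | hl
  · exact (cc3_not w (h _ List.mem_cons_self) (hP _ List.mem_cons_self)).elim
  · exact H y y' F ⟨l, hl, hP⟩

end Pool.Agent.Strip051.PB
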