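import Pool.Agent.Strip051.PB.GlueD2

/-! # The constants of the leaves of type D on an interval, from the end points -/

namespace Pool.Agent.Strip051.PB

theorem DPn.ok {P : DPn} (h1 : 0 < P.t1) (h2 : 0 < P.t2) (h3 : 0 < P.q2)
    (h4 : 16 * P.t1 ≤ 7 * P.t2) (h5 : (P.q1 + P.q2) * P.t1 = P.q2 * P.t2) : DParOk P.r where
  t0 := by
    show 0 < (P.t1 : ℝ) / P.t2
    have : (0 : ℝ) < P.t1 := by exact_mod_cast h1
    have : (0 : ℝ) < P.t2 := by exact_mod_cast h2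
    positivity
  t1 := by
    show (P.t1 : ℝ) / P.t2 ≤ 7 / 16
    have h : (0 : ℝ) < P.t2 := by exact_mod_cast h2
    rw [div_le_div_iff₀ h (by norm_num)]
    have : (16 : ℝ) * P.t1 ≤ 7 * P.t2 := by exact_mod_cast h4
    linarith
  q := by
    show (P.q1 : ℝ) / P.q2 = 1 / ((P.t1 : ℝ) / P.t2) - 1
    have g1 : (P.t1 : ℝ) ≠ 0 := by exact_mod_cast h1.ne'
    have g2 : (P.t2 : ℝ) ≠ 0 := by exact_mod_cast h2.ne'
    have g3 : (P.q2 : ℝ) ≠ 0 := by exact_mod_cast h3.ne'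
    have g5 : ((P.q1 : ℝ) + P.q2) * P.t1 = P.q2 * P.t2 := by exact_mod_cast h5
    field_simp
    linarith

variable {th K l A x xa xb K1 K2 : ℝ}

theorem DC2.intv (t0 : 0 < th) (t1 : th ≤ 1) (x0 : 1 / 2 ≤ xa) (x1 : xb ≤ 49 / 50) (a0 : 0 ≤ A)
    (ax : A ≤ xa) (l0 : 0 < l) (lx : l ^ 2 ≤ 1 - xb) (k1 : (1 - th) * (1 + 1 / l) ≤ K)
    (k2 : (1 - th) * (1 - xb + A) ≤ K * (1 - xb) * (1 - 1 / 8 / xa))
    (k3 : (1 - th) * (1 - xb + A) * (1 / 8) ≤ K * (1 - xb) * (1 - xb))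
    (k4 : th * xb ≤ 16 / 5 * (K * (1 - xb))) (h : xa ≤ x) (h' : x ≤ xb) : DC2 th K l A x := by
  have u0 : 0 ≤ 1 - th := by linarith
  have qb : 0 < 1 - xb := by linarith
  have q0 : 0 < 1 - x := by linarith
  have xp : 0 < xa := by linarith
  have K0 : 0 ≤ K := le_trans (mul_nonneg u0 (by positivity)) k1
  have e1 : (1 - th) * (1 - x + A) * (1 - xb) ≤ (1 - th) * (1 - xb + A) * (1 - x) := by
    rw [mul_assoc, mul_assoc]
    refine mul_le_mul_of_nonneg_left ?_ u0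
    nlinarith [mul_nonneg a0 (by linarith : 0 ≤ xb - x)]
  have e2 : 1 / 8 / x ≤ 1 / 8 / xa := div_le_div_of_nonneg_left (by norm_num) xp h
  refine ⟨t0, t1, by linarith, by linarith, a0, by linarith, l0, by linarith, k1, ?_, ?_, ?_⟩
  · have e3 : (1 - th) * (1 - x + A) * (1 - xb) ≤ K * (1 - x) * (1 - 1 / 8 / xa) * (1 - xb) := by
      refine e1.trans ?_
      have := mul_le_mul_of_nonneg_right k2 q0.le
      linarith
    refine (le_of_mul_le_mul_right e3 qb).trans ?_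
    exact mul_le_mul_of_nonneg_left (by linarith) (mul_nonneg K0 q0.le)
  · have e3 : (1 - th) * (1 - x + A) * (1 / 8) * (1 - xb) ≤
        K * (1 - x) * (1 - xb) * (1 - xb) := by
      have i1 := mul_le_mul_of_nonneg_right k3 q0.le
      have i2 := mul_le_mul_of_nonneg_right e1 (by norm_num : (0 : ℝ) ≤ 1 / 8)
      linarith
    refine (le_of_mul_le_mul_right e3 qb).trans ?_
    exact mul_le_mul_of_nonneg_left (by linarith) (mul_nonneg K0 q0.le)
  · have i1 : th * x ≤ th * xb := mul_le_mul_of_nonneg_left h' t0.le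
    have i2 : K * (1 - xb) ≤ K * (1 - x) := mul_le_mul_of_nonneg_left (by linarith) K0
    linarith

/-- `M` bounds `L x`. -/
theorem DN.intv {M : ℝ} (t0 : 0 < th) (t1 : th ≤ 1) (x0 : 1 / 2 ≤ xa) (x1 : xb < 1) (a0 : 0 ≤ A)
    (ax : 1 - xa + A ≤ xa ∨ A ≤ 3 / 16) (A0 : (1 - th) * (4 * th * xa + (1 - xa)) ≤ 4 * th * M)
    (B0 : (1 - th) * (4 * th * xb + (1 - xb)) ≤ 4 * th * M)
    (A1 : (1 - th) * (th * xa + (1 - xa)) ≤ 2 * th * M) (l0 : 0 ≤ l) (lx : 1 ≤ l ^ 2 * xa)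
    (k1 : M / 2 * (1 + l) ≤ K1) (k2 : M / 2 ≤ K2) (h : xa ≤ x) (h' : x ≤ xb) :
    DN th (M / x) l K1 K2 A x := by
  have u0 : 0 ≤ 1 - th := by linarith
  have x0' : 0 < x := by linarith
  have hM : M / x * x = M := div_mul_cancel₀ M x0'.ne'
  have e0 : (1 - th) * (4 * th * x + (1 - x)) ≤ 4 * th * M := by
    rcases le_total 0 (4 * th - 1) with hs | hs
    · refine le_trans (mul_le_mul_of_nonneg_left ?_ u0) B0
      nlinarith [mul_le_mul_of_nonneg_left h' hs]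
    · refine le_trans (mul_le_mul_of_nonneg_left ?_ u0) A0
      nlinarith [mul_le_mul_of_nonpos_left h hs]
  have e1 : (1 - th) * (th * x + (1 - x)) ≤ 2 * th * M := by
    refine le_trans (mul_le_mul_of_nonneg_left ?_ u0) A1
    nlinarith [mul_le_mul_of_nonneg_left h u0]
  refine ⟨t0, t1, by linarith, by linarith, a0, ?_, ?_, ?_, l0, ?_, ?_, ?_⟩
  · exact ax.imp (fun e => by linarith) id
  · calc (1 - th) * (4 * th * x + (1 - x)) ≤ 4 * th * (M / x * x) := by rw [hM]; exact e0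
      _ = _ := by ring
  · calc (1 - th) * (th * x + (1 - x)) ≤ 2 * th * (M / x * x) := by rw [hM]; exact e1
      _ = _ := by ring
  · have := mul_le_mul_of_nonneg_left h (sq_nonneg l)
    linarith
  · rw [hM]
    exact k1
  · rw [hM]
    exact k2

end Pool.Agent.Strip051.PB
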