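import Pool.Agent.Strip051.PB.BothN
import Pool.Agent.Strip051.LC.Exact.MolU2

/-! # Rows of the near vertex next to the tight triangles

The third kernel is coupled with the kernel; the difference of the two densities is estimated on the
short edge and on the steep edge. Normalised coordinates, four kinds of triangles. -/

namespace Pool.Agent.Strip051.PB

open Pool.Agent.StripNear Pool.Agent.StripSquare Pool.Agent.Strip051.Sweep
open Pool.Agent.Strip051.LC
open Pool.Agent.Strip051.LC.Line (tau jn D D_refl)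

/-- The steep edge is middle-top, bottom-middle or (twice) bottom-top; the short edge is
bottom-middle, middle-top, bottom-middle, middle-top. -/
inductive DK where
  | A1
  | A2
  | B1
  | B2

/-- The distance of the height of the steep edge from one. -/
def DK.b (k : DK) (y z : ℝ) : ℝ :=
  match k with
  | .A1 => z - 1
  | .A2 => y - 1
  | .B1 => y + z - 1
  | .B2 => y + z - 1

/-- The distance of the height of the short edge from the rest. -/
def DK.al (k : DK) (x y z : ℝ) : ℝ :=
  match k with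
  | .A1 => y - x
  | .A2 => z - x
  | .B1 => y - x
  | .B2 => z - x

/-- The difference of the third kernels which meets the short edge. -/
def DK.d (k : DK) (c : ℝ × ℝ × ℝ) : ℝ :=
  match k with
  | .A1 => c.1 - c.2.2
  | .A2 => c.2.2 - c.2.1
  | .B1 => c.2.1 - c.1
  | .B2 => c.2.1 - c.1

/-- The difference of the third kernels which meets the steep edge. -/
def DK.gp (k : DK) (c : ℝ × ℝ × ℝ) : ℝ :=
  match k with
  | .A1 => |c.2.1 - c.2.2|
  | .A2 => |c.1 - c.2.2|
  | .B1 => |c.2.1 - c.2.2|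
  | .B2 => |c.1 - c.2.2|

/-- The correction on the steep edge. -/
def DK.nu (k : DK) (v : ℝ) (r : ℝ × ℝ × ℝ) : ℝ × ℝ × ℝ :=
  match k with
  | .A1 => (r.1, r.2.1 + v, r.2.2)
  | .A2 => (r.1 - v, r.2.1, r.2.2)
  | .B1 => (r.1, r.2.1, r.2.2 + v)
  | .B2 => (r.1, r.2.1, r.2.2 - v)

/-- The coupled kernels; `u`, `v`, `w` are the signed distances of the heights from integers. -/
def ckr (E m : ℝ) (r c : ℝ × ℝ × ℝ) (u v w : ℝ) : ℝ × ℝ × ℝ :=
  (E * r.1 + m * (c.1 * u), E * r.2.1 + m * (c.2.1 * v), E * r.2.2 + m * (c.2.2 * w))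

/-- The constants of a table: `K (1 - x)` is the constant of the short edge. -/
structure DC (th K l x : ℝ) : Prop where
  t0 : 0 < th
  t1 : th ≤ 1
  x0 : 1 / 2 ≤ x
  x1 : x < 1
  l0 : 0 < l
  lx : l ^ 2 ≤ 1 - x
  k1 : (1 - th) * (1 + 1 / l) ≤ K
  k2 : (1 - th) * (1 - x + 1 / 8) ≤ K * (1 - x) * (1 - 1 / 8 / x)
  k3 : (1 - th) * (1 - x + 1 / 8) * (1 / 8) ≤ K * (1 - x) * (1 - x)

/-- A gain on the short edge. -/
inductive Gain (th K x al g : ℝ) : Prop
  | neg (h : g ≤ -((1 / th - 1) * (al ^ 2 / x)))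
  | zero (h : g ≤ 0) (h0 : 0 ≤ al)
  | pos (ρ : ℝ) (h0 : 0 ≤ ρ) (h1 : ρ ≤ 1 / 2) (h2 : 0 ≤ ρ - ρ ^ 2 - th / 4)
      (h : g ≤ (ρ - ρ ^ 2 - th / 4) * (1 - x)) (h3 : ρ * (1 - x) ≤ al)
      (h4 : al ≤ (1 - ρ) * (1 - x))
      (h5 : (ρ - ρ ^ 2 - th / 4) * x ≤ 4 / 5 * (K * ((1 - ρ) * (1 - x) - al)))

section

variable {th K l x al g b : ℝ}

theorem Gain.short (C : DC th K l x) (h : Gain th K x al g) (ha : -(1 / 8) ≤ al)
    (ha' : al ≤ 1 - x) (hb : |b| ≤ 1 / 8) (z : ℝ) :
    h0 * g - h0 * (K * (1 - x)) * (∫ u in (0 : ℝ)..1, (1 - Dh (h0 * x) (z + u * (h0 * b)))) ≤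
      ∫ v in (z - h0 * (x + al))..z, gd (h0 * x) th v := by
  have hp := h0_pos
  obtain ⟨t0, t1, x0, x1, l0, lx, k1, k2, k3⟩ := C
  have xp : 0 < x := by linarith
  have s0 : 0 < h0 * x := by positivity
  have s1 : h0 * x < h0 := by nlinarith
  have s2 : h0 / 2 ≤ h0 * x := by nlinarith
  have r1 : h0 - h0 * x = h0 * (1 - x) := by ring
  have hB : |h0 * b| ≤ h0 / 8 := by
    rw [abs_mul, abs_of_pos hp]
    nlinarith
  have hB2 : h0 / 8 ≤ h0 * x / 2 := by nlinarith
  have hl : l ^ 2 * h0 ≤ h0 - h0 * x := by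
    rw [r1]
    nlinarith
  have et : h0 * (x + al) = h0 * x + h0 * al := by ring
  have c1 : (1 - th) * ((h0 - h0 * x) * (1 + 1 / l)) ≤ h0 * (K * (1 - x)) := by
    rw [r1]
    have := mul_le_mul_of_nonneg_left k1 (mul_nonneg hp.le (by linarith : 0 ≤ 1 - x))
    linarith
  have q : h0 / 8 / (h0 * x) = 1 / 8 / x := by
    field_simp
  have base : ∀ {g' : ℝ}, g' ≤ -((1 / th - 1) * (al ^ 2 / x)) →
      h0 * g' - h0 * (K * (1 - x)) * (∫ u in (0 : ℝ)..1, (1 - Dh (h0 * x) (z + u * (h0 * b)))) ≤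
      ∫ v in (z - h0 * (x + al))..z, gd (h0 * x) th v := by
    intro g' hg'
    have := gd_short2 (s := h0 * x) (th := th) (t := h0 * (x + al)) (α := h0 * al) (β := h0 * b)
      (b := z) (A := h0 / 8) (B := h0 / 8) (C := h0 * (K * (1 - x))) (l := l) s0 s1 s2 t0 t1 et
      (by rw [r1]; exact mul_le_mul_of_nonneg_left ha' hp.le) (by nlinarith) (by nlinarith) hB hB2
      l0 hl c1
      (by
        rw [r1, q]
        have := mul_le_mul_of_nonneg_left k2 hp.le
        linarith)
      (by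
        rw [r1]
        have := mul_le_mul_of_nonneg_left k3 (mul_nonneg hp.le hp.le)
        linarith)
    refine le_trans ?_ this
    have e : (h0 * al) ^ 2 / (h0 * x) = h0 * (al ^ 2 / x) := by
      field_simp
    rw [e]
    have := mul_le_mul_of_nonneg_left hg' hp.le
    linarith
  have base3 : ∀ {g' ρ : ℝ}, 0 ≤ ρ → ρ ≤ 1 / 2 → 0 ≤ g' → g' ≤ (1 - th) / 8 →
      h0 * g' ≤ (∫ v in (-(h0 * (ρ * (1 - x))))..(0 : ℝ), gd (h0 * x) th v) →
      ρ * (1 - x) ≤ al → al ≤ (1 - ρ) * (1 - x) →
      g' * x ≤ 4 / 5 * (K * (1 - x) * ((1 - ρ) * (1 - x) - al)) →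
      h0 * g' - h0 * (K * (1 - x)) * (∫ u in (0 : ℝ)..1, (1 - Dh (h0 * x) (z + u * (h0 * b)))) ≤
      ∫ v in (z - h0 * (x + al))..z, gd (h0 * x) th v := by
    intro g' ρ p0 p1 g0 g1 g2 p2 p3 p4
    exact gd_short3 (s := h0 * x) (th := th) (t := h0 * (x + al)) (α := h0 * al) (β := h0 * b)
      (b := z) (a := h0 * (ρ * (1 - x))) (g := h0 * g') (B := h0 / 8) (C := h0 * (K * (1 - x)))
      (l := l) s0 s1 s2 t0 t1 et (mul_nonneg hp.le (mul_nonneg p0 (by linarith))) (mul_le_mul_of_nonneg_left p2 hp.le) (by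
        have := mul_le_mul_of_nonneg_left p3 hp.le
        linarith) (mul_nonneg hp.le g0) g2 hB hB2 l0 hl c1
      (by
        rw [r1, q]
        have := mul_le_mul_of_nonneg_left k2 hp.le
        have := mul_le_mul_of_nonneg_left g1 hp.le
        linarith)
      (by
        rw [r1]
        have i1 := mul_le_mul_of_nonneg_left k3 (mul_nonneg hp.le hp.le)
        have i2 := mul_le_mul_of_nonneg_left g1 (mul_nonneg hp.le hp.le)
        linarith)
      (by
        have := mul_le_mul_of_nonneg_left p4 (mul_nonneg hp.le hp.le)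
        linarith)
  rcases h with h | ⟨h, h'⟩ | ⟨ρ, p0, p1, p2, h, p3, p4, p5⟩
  · exact base h
  · refine le_trans ?_ (base3 (g' := 0) (ρ := 0) le_rfl (by norm_num) le_rfl (by linarith)
      (by simp) (by linarith) (by linarith) ?_)
    · have := mul_le_mul_of_nonneg_left h hp.le
      linarith
    · have hK : 0 ≤ K := le_trans (mul_nonneg (by linarith) (by positivity)) k1
      have : 0 ≤ K * (1 - x) * ((1 - 0) * (1 - x) - al) :=
        mul_nonneg (mul_nonneg hK (by linarith)) (by linarith)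
      linarith
  · have hg1 : (ρ - ρ ^ 2 - th / 4) * (1 - x) ≤ (1 - th) / 8 := by
      have i1 : ρ - ρ ^ 2 - th / 4 ≤ (1 - th) / 4 := by nlinarith [sq_nonneg (ρ - 1 / 2)]
      nlinarith
    refine le_trans ?_ (base3 (g' := (ρ - ρ ^ 2 - th / 4) * (1 - x)) p0 p1
      (mul_nonneg p2 (by linarith)) hg1 ?_ p3 p4 ?_)
    · have := mul_le_mul_of_nonneg_left h hp.le
      linarith
    · have := gain_low (s := h0 * x) (th := th) s0 s1 t0 t1 (a := h0 * (ρ * (1 - x)))
        (mul_nonneg hp.le (mul_nonneg p0 (by linarith)))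
        (by
          rw [r1]
          have := mul_le_mul_of_nonneg_right p1 (mul_nonneg hp.le (by linarith : 0 ≤ 1 - x))
          linarith)
      refine le_trans (le_of_eq ?_) this
      rw [r1]
      have : (1 : ℝ) - x ≠ 0 := by linarith
      field_simp
    · have := mul_le_mul_of_nonneg_right p5 (by linarith : 0 ≤ 1 - x)
      linarith

end

section

variable {a b c N0 : ℕ} {cn : Con} {k : DK} {th K l x y y' κ lv E o e g cst : ℝ}
  {r lt C : ℝ × ℝ × ℝ}

theorem cpl_n (h1 : InQ a y) (h2 : InQ b y') (h3 : InQ c (y + y')) (E m : ℝ)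
    (r C : ℝ × ℝ × ℝ) :
    cpl E m r (h0⁻¹ * C.1, h0⁻¹ * C.2.1, h0⁻¹ * C.2.2) (h0 * y) (h0 * y') =
      ckr E m r C (y - jq a) (y' - jq b) (y + y' - jq c) := by
  have hne := h0_pos.ne'
  unfold cpl ckr
  rw [tau_q h1, tau_q h2, ← mul_add, tau_q h3]
  refine Prod.ext ?_ (Prod.ext ?_ ?_) <;> simp only <;> field_simp

theorem esn_ken (hκ : κ * h0 = ken x) (x0 : 0 < x) (x1 : x < 1) :
    κ * (h0 * x * (h0 - h0 * x)) = 2 * h0 * esn x := by
  have e : κ * (h0 * x * (h0 - h0 * x)) = h0 * (κ * h0) * (x * (1 - x)) := by ring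
  rw [e, hκ]
  unfold ken
  have : (1 : ℝ) - x ≠ 0 := by linarith
  field_simp

/-- **The row next to the tight triangles.** The far vertex by the ordinary slack, the near vertex
by the slack with the coupled kernels. -/
theorem bothD (hC : DC th K l x) (hκ : κ * h0 = ken x) (he : 0 < esn x) (hμ : 0 ≤ mun N0 x)
    (h1 : InQ a y) (h2 : InQ b y') (h3 : InQ c (y + y')) (hc : con a b c = some cn)
    (hb : |k.b y y'| ≤ 1 / 8) (ha : -(1 / 8) ≤ k.al x y y') (ha' : k.al x y y' ≤ 1 - x)
    (hd : 0 ≤ k.d C) (hg : Gain th K x (k.al x y y') g)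
    (hcst : mun N0 x * ((1 / th - 1) * (k.gp C * |k.b y y'|) + k.d C * (K * (1 - x))) ≤ cst)
    (far : ∃ γ, 0 ≤ lvF e lt + slt cn a b c 0 (κ * h0) x y y' r γ)
    (near : ∃ γ, 0 ≤ lvN N0 lv x y y' e lt + mun N0 x * (k.d C * g) - cst +
      slt cn a b c 0 (κ * h0) x y y' (k.nu (cst / esn x)
        (ckr E (mun N0 x / esn x) r C (y - jq a) (y' - jq b) (y + y' - jq c))) γ) :
    Both N0 lv κ E o (tnt (h0 * x) th) x y y' e r lt
      (h0⁻¹ * C.1, h0⁻¹ * C.2.1, h0⁻¹ * C.2.2) := by
  have hp := h0_pos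
  have hne := hp.ne'
  obtain ⟨t0, t1, x0, x1, l0, lx, k1, k2, k3⟩ := id hC
  have xp : 0 < x := by linarith
  have s0 : 0 < h0 * x := by positivity
  have s1 : h0 * x < h0 := by nlinarith
  have y0 := h1.nonneg
  have y0' := h2.nonneg
  have y2 := h3.le_two
  have hκ0 : 0 ≤ κ := by
    have : 0 ≤ κ * h0 := by
      rw [hκ]
      unfold ken
      have : 0 < 1 - x := by linarith
      positivity
    exact nonneg_of_mul_nonneg_left this hp
  have hes := esn_ken hκ xp x1
  have Ht : 0 ≤ h0 * y := mul_nonneg hp.le y0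
  have Ht' : 0 ≤ h0 * y' := mul_nonneg hp.le y0'
  have HT : h0 * y + h0 * y' ≤ 2 * h0 := by nlinarith
  right
  constructor
  · intro z
    obtain ⟨γ, hγ⟩ := far
    rw [← slt_add] at hγ
    exact (ngv_of hc h1 h2 h3 hγ).dir hκ0 s0.le s1 Ht Ht' HT z
  · intro z
    obtain ⟨γ, hγ⟩ := near
    rw [← slt_add] at hγ
    have N := ngv_of hc h1 h2 h3 hγ
    have hm : ∀ v, tnt (h0 * x) th (h0 * x - v) = -tnt (h0 * x) th v :=
      (tnt_denOk t0 t1 s0 s1).mir
    have S := fun z => hg.short hC ha ha' hb z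
    have e5 : esn x * (cst / esn x) = cst := by field_simp
    have aT : ∀ u : ℝ, |u| ≤ 1 / 8 → |h0 * u| < h0 / 2 := by
      intro u hu
      rw [abs_mul, abs_of_pos hp]
      nlinarith
    cases k with
    | A1 =>
      simp only [DK.b, DK.al, DK.d, DK.gp, DK.nu] at *
      refine near_dirA2 (η := -(mun N0 x * ((C.1 - C.2.2) * g))) (ν := cst / esn x)
        (β := h0 * (y' - 1)) (g := h0 * g) (C := h0 * (K * (1 - x))) s0 s1 t0 t1 hκ0 hes he hμ
        (by ring) (aT _ hb) Ht HT ?_ ?_ ?_ ?_ ?_ z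
      · exact mul_le_mul_of_nonneg_left (by linarith) (inv_nonneg.2 hp.le)
      · intro z
        have := S z
        rw [show h0 * (x + (y - x)) = h0 * y by ring] at this
        exact this
      · refine le_of_eq ?_
        simp only
        field_simp
      · rw [e5]
        refine le_trans (le_of_eq ?_) hcst
        simp only
        rw [← mul_sub, ← mul_sub, abs_mul, abs_mul, abs_of_pos hp, abs_of_pos (inv_pos.2 hp)]
        field_simp
      · rw [cpl_n h1 h2 h3, e5]
        refine cast (congrArg (fun u => NGV κ (h0 * x) u (h0 * y) (h0 * y') _) ?_) N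
        ring
    | A2 =>
      simp only [DK.b, DK.al, DK.d, DK.gp, DK.nu] at *
      have key := near_dirA2 (κ := κ) (s := h0 * x) (th := th) (e := esn x) (E := E)
        (μ := mun N0 x) (X := lvN N0 lv x y y' e lt) (t := h0 * y') (t' := h0 * y)
        (r := (-r.2.1, -r.1, -r.2.2))
        (c := (-(h0⁻¹ * C.2.1), -(h0⁻¹ * C.1), -(h0⁻¹ * C.2.2)))
        (η := -(mun N0 x * ((C.2.2 - C.2.1) * g))) (ν := cst / esn x)
        (β := h0 * (y - 1)) (g := h0 * g) (C := h0 * (K * (1 - x))) s0 s1 t0 t1 hκ0 hes he hμ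
        (by ring) (aT _ hb) Ht' (by linarith) ?_ ?_ ?_ ?_ ?_
        (h0 * x - (z + (h0 * y + h0 * y')))
      · have m1 := kf_mirror (κ := κ) s0.le s1 r.1 r.2.1 r.2.2 (h0 * y) (h0 * y') z
        have m2 := pf_mirror hm (h0⁻¹ * C.1) (h0⁻¹ * C.2.1) (h0⁻¹ * C.2.2) (h0 * y) (h0 * y') z
        rw [m1, m2] at key
        exact key
      · simp only
        have := mul_le_mul_of_nonneg_left (by linarith : C.2.1 ≤ C.2.2) (inv_nonneg.2 hp.le)
        linarith
      · intro z
        have := S z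
        rw [show h0 * (x + (y' - x)) = h0 * y' by ring] at this
        exact this
      · refine le_of_eq ?_
        simp only
        field_simp
        ring
      · rw [e5]
        refine le_trans (le_of_eq ?_) hcst
        simp only
        rw [show -(h0⁻¹ * C.1) - -(h0⁻¹ * C.2.2) = -(h0⁻¹ * (C.1 - C.2.2)) by ring, abs_neg,
          abs_mul, abs_mul, abs_of_pos hp, abs_of_pos (inv_pos.2 hp)]
        field_simp
        ring
      · refine NGV.mirror ?_
        have ec := cpl_n h1 h2 h3 E (mun N0 x / esn x) r C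
        unfold cpl at ec ⊢
        simp only at ec ⊢
        unfold ckr at ec N
        rw [Prod.ext_iff, Prod.ext_iff] at ec
        obtain ⟨i1, i2, i3⟩ := ec
        simp only at i1 i2 i3 N
        rw [← i1, ← i2, ← i3] at N
        rw [e5]
        refine cast (congrArg₂ (fun u v => NGV κ (h0 * x) u (h0 * y) (h0 * y') v) ?_ ?_) N
        · ring
        · refine Prod.ext ?_ (Prod.ext ?_ ?_)
          · simp only
            ring
          · simp only
            ring
          · simp only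
            rw [add_comm (h0 * y') (h0 * y)]
            ring
    | B1 =>
      simp only [DK.b, DK.al, DK.d, DK.gp, DK.nu] at *
      refine near_dirB2 (η := -(mun N0 x * ((C.2.1 - C.1) * g))) (ν := cst / esn x)
        (β := h0 * (y + y' - 1)) (g := h0 * g) (C := h0 * (K * (1 - x))) s0 s1 t0 t1 hκ0 hes he hμ
        (by ring) (aT _ hb) Ht Ht' ?_ ?_ ?_ ?_ ?_ z
      · exact mul_le_mul_of_nonneg_left (by linarith) (inv_nonneg.2 hp.le)
      · intro z
        have := hg.short (b := -(y + y' - 1)) hC ha ha' (by rw [abs_neg]; exact hb) z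
        rw [show h0 * (x + (y - x)) = h0 * y by ring,
          show h0 * -(y + y' - 1) = -(h0 * (y + y' - 1)) by ring] at this
        exact this
      · refine le_of_eq ?_
        simp only
        field_simp
      · rw [e5]
        refine le_trans (le_of_eq ?_) hcst
        simp only
        rw [← mul_sub, ← mul_sub, abs_mul, abs_mul, abs_of_pos hp, abs_of_pos (inv_pos.2 hp)]
        field_simp
      · rw [cpl_n h1 h2 h3, e5]
        refine cast (congrArg (fun u => NGV κ (h0 * x) u (h0 * y) (h0 * y') _) ?_) N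
        ring
    | B2 =>
      simp only [DK.b, DK.al, DK.d, DK.gp, DK.nu] at *
      have key := near_dirB2 (κ := κ) (s := h0 * x) (th := th) (e := esn x) (E := E)
        (μ := mun N0 x) (X := lvN N0 lv x y y' e lt) (t := h0 * y') (t' := h0 * y)
        (r := (-r.2.1, -r.1, -r.2.2))
        (c := (-(h0⁻¹ * C.2.1), -(h0⁻¹ * C.1), -(h0⁻¹ * C.2.2)))
        (η := -(mun N0 x * ((C.2.1 - C.1) * g))) (ν := cst / esn x)
        (β := h0 * (y + y' - 1)) (g := h0 * g) (C := h0 * (K * (1 - x))) s0 s1 t0 t1 hκ0 hes he hμ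
        (by ring) (aT _ hb) Ht' Ht ?_ ?_ ?_ ?_ ?_
        (h0 * x - (z + (h0 * y + h0 * y')))
      · have m1 := kf_mirror (κ := κ) s0.le s1 r.1 r.2.1 r.2.2 (h0 * y) (h0 * y') z
        have m2 := pf_mirror hm (h0⁻¹ * C.1) (h0⁻¹ * C.2.1) (h0⁻¹ * C.2.2) (h0 * y) (h0 * y') z
        rw [m1, m2] at key
        exact key
      · simp only
        have := mul_le_mul_of_nonneg_left (by linarith : C.1 ≤ C.2.1) (inv_nonneg.2 hp.le)
        linarith
      · intro z
        have := hg.short (b := -(y + y' - 1)) hC ha ha' (by rw [abs_neg]; exact hb) z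
        rw [show h0 * (x + (y' - x)) = h0 * y' by ring,
          show h0 * -(y + y' - 1) = -(h0 * (y + y' - 1)) by ring] at this
        exact this
      · refine le_of_eq ?_
        simp only
        field_simp
        ring
      · rw [e5]
        refine le_trans (le_of_eq ?_) hcst
        simp only
        rw [show -(h0⁻¹ * C.1) - -(h0⁻¹ * C.2.2) = -(h0⁻¹ * (C.1 - C.2.2)) by ring, abs_neg,
          abs_mul, abs_mul, abs_of_pos hp, abs_of_pos (inv_pos.2 hp)]
        field_simp
        ring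
      · refine NGV.mirror ?_
        have ec := cpl_n h1 h2 h3 E (mun N0 x / esn x) r C
        unfold cpl at ec ⊢
        simp only at ec ⊢
        unfold ckr at ec N
        rw [Prod.ext_iff, Prod.ext_iff] at ec
        obtain ⟨i1, i2, i3⟩ := ec
        simp only at i1 i2 i3 N
        rw [← i1, ← i2, ← i3] at N
        rw [e5]
        refine cast (congrArg₂ (fun u v => NGV κ (h0 * x) u (h0 * y) (h0 * y') v) ?_ ?_) N
        · ring
        · refine Prod.ext ?_ (Prod.ext ?_ ?_)
          · simp only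
            ring
          · simp only
            ring
          · simp only
            rw [add_comm (h0 * y') (h0 * y)]
            ring

end

end Pool.Agent.Strip051.PB
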