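import Pool.Agent.Strip051.PB.MolQ
import Pool.Agent.Strip051.LC.Exact.MolU
import Pool.Agent.Strip051.PB.RowD

/-! # The tight triangles: the charts of the near vertex through the coupled values (generated) -/

set_option linter.unusedVariables false

namespace Pool.Agent.Strip051.PB.Mol

open Pool.Agent.StripNear Pool.Agent.StripSquare Pool.Agent.Strip051.Sweep
open Pool.Agent.Strip051.LC Pool.Agent.Strip051.LC.MolN
open Pool.Agent.Strip051.LC.Line (tau jn)

/-- The values of the third kernel, family `A`. -/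
structure ThrA (T : MolP) (u b x X : ℝ) (c : ℝ × ℝ × ℝ) : Prop where
  r1 : c.1 = h0⁻¹ * (esn x * (cP (x + u) - (cR (x + u) + 2 * c1n (x + u)) * T.dy + b * T.m1))
  r2 : c.2.1 = -(h0⁻¹ * (esn x * T.k2))
  r3 : c.2.2 = h0⁻¹ * (esn x * (cP (x + u + b) - 1 / 2 * cD (x + u + b) -
    (cR (x + u + b) + 2 * c1n (x + u + b) - 1) * (T.dy + b * T.d1) +
    T.it * T.sD * (X - (c1n (x + u + b) - 1 / 2))))

/-- The values of the third kernel, family `B`. -/
structure ThrB (T : MolP) (u b x X : ℝ) (c : ℝ × ℝ × ℝ) : Prop where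
  r1 : c.1 = h0⁻¹ * (esn x * (cP (x + u) - (cR (x + u) + 2 * c1n (x + u)) * T.dy + b * T.m1))
  r2 : c.2.1 = h0⁻¹ * (esn x * (cP (x + u - b) + 1 / 2 * cD (x + u - b) -
    (cR (x + u - b) + 2 * c1n (x + u - b) + 1) * (T.dy + b * T.d1) -
    T.it * T.sD * (X - (c1n (x + u - b) + 1 / 2))))
  r3 : c.2.2 = -(h0⁻¹ * (esn x * T.k2))

/-- The statement of `near_dirA` with the constant `C`. -/
def NdA (th s C : ℝ) : Prop := ∀ (κ e E μ X η ν α β t t' : ℝ) (r c : ℝ × ℝ × ℝ), 0 ≤ κ →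
  κ * (s * (h0 - s)) = 2 * h0 * e → 0 < e → 0 ≤ μ → t = s + α → t' = h0 + β →
  α ≤ h0 - s → -(h0 / 8) ≤ α → |β| ≤ h0 / 8 → 0 ≤ t → t + t' ≤ 2 * h0 → c.2.2 ≤ c.1 →
  μ * (c.1 - c.2.2) * ((1 / th - 1) * (α ^ 2 / s)) ≤ η →
  μ * (|c.2.1 - c.2.2| * ((1 / th - 1) * |β|) + (c.1 - c.2.2) * C) ≤ e * ν →
  NGV κ s (X - η - e * ν) t t' ((cpl E (μ / e) r c t t').1,
    (cpl E (μ / e) r c t t').2.1 + ν, (cpl E (μ / e) r c t t').2.2) →
  ∀ z, 0 ≤ X + E * kf κ s r t t' z + μ * pf (tnt s th) c t t' z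

/-- The statement of `near_dirB` with the constant `C`. -/
def NdB (th s C : ℝ) : Prop := ∀ (κ e E μ X η ν α β t t' : ℝ) (r c : ℝ × ℝ × ℝ), 0 ≤ κ →
  κ * (s * (h0 - s)) = 2 * h0 * e → 0 < e → 0 ≤ μ → t = s + α → t + t' = h0 + β →
  α ≤ h0 - s → -(h0 / 8) ≤ α → |β| ≤ h0 / 8 → 0 ≤ t → 0 ≤ t' → c.1 ≤ c.2.1 →
  μ * (c.2.1 - c.1) * ((1 / th - 1) * (α ^ 2 / s)) ≤ η →
  μ * (|c.2.1 - c.2.2| * ((1 / th - 1) * |β|) + (c.2.1 - c.1) * C) ≤ e * ν →
  NGV κ s (X - η - e * ν) t t' ((cpl E (μ / e) r c t t').1,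
    (cpl E (μ / e) r c t t').2.1, (cpl E (μ / e) r c t t').2.2 + ν) →
  ∀ z, 0 ≤ X + E * kf κ s r t t' z + μ * pf (tnt s th) c t t' z

theorem ndA {th K l x : ℝ} (C : DC th K l x) : NdA th (h0 * x) (h0 * (K * (1 - x))) := by
  intro κ e E μ X η ν α β t t' r c hκ he he0 hμ et et' hα hα' hβ h0t hT hδ hη hν h
  have hp := h0_pos
  obtain ⟨t0, t1, x0, x1, -⟩ := id C
  have xp : 0 < x := by linarith
  have ea : h0 * (α / h0) = α := by field_simp
  have eb : h0 * (β / h0) = β := by field_simp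
  have a1 : -(1 / 8) ≤ α / h0 := by
    rw [le_div_iff₀ hp]
    linarith
  have a2 : α / h0 ≤ 1 - x := by
    rw [div_le_iff₀ hp]
    linarith
  have b1 : |β / h0| ≤ 1 / 8 := by
    rw [abs_div, abs_of_pos hp, div_le_iff₀ hp]
    linarith
  refine near_dirA2 (g := h0 * -((1 / th - 1) * ((α / h0) ^ 2 / x))) (by positivity)
    (by nlinarith) t0 t1 hκ he he0 hμ et' (by linarith) h0t hT hδ ?_ ?_ hν h
  · intro b
    have k := Gain.short C (Gain.neg le_rfl) a1 a2 b1 b
    rw [eb, mul_add h0 x, ea, ← et] at k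
    exact k
  · refine le_trans (le_of_eq ?_) hη
    have : α ^ 2 / (h0 * x) = h0 * ((α / h0) ^ 2 / x) := by field_simp
    rw [this]
    ring

theorem ndB {th K l x : ℝ} (C : DC th K l x) : NdB th (h0 * x) (h0 * (K * (1 - x))) := by
  intro κ e E μ X η ν α β t t' r c hκ he he0 hμ et et' hα hα' hβ h0t hT hδ hη hν h
  have hp := h0_pos
  obtain ⟨t0, t1, x0, x1, -⟩ := id C
  have xp : 0 < x := by linarith
  have ea : h0 * (α / h0) = α := by field_simp
  have eb : h0 * (-β / h0) = -β := by field_simp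
  have a1 : -(1 / 8) ≤ α / h0 := by
    rw [le_div_iff₀ hp]
    linarith
  have a2 : α / h0 ≤ 1 - x := by
    rw [div_le_iff₀ hp]
    linarith
  have b1 : |-β / h0| ≤ 1 / 8 := by
    rw [abs_div, abs_neg, abs_of_pos hp, div_le_iff₀ hp]
    linarith
  refine near_dirB2 (g := h0 * -((1 / th - 1) * ((α / h0) ^ 2 / x))) (by positivity)
    (by nlinarith) t0 t1 hκ he he0 hμ et' (by linarith) h0t hT hδ ?_ ?_ hν h
  · intro b
    have k := Gain.short C (Gain.neg le_rfl) a1 a2 b1 b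
    rw [eb, mul_add h0 x, ea, ← et] at k
    exact k
  · refine le_trans (le_of_eq ?_) hη
    have : α ^ 2 / (h0 * x) = h0 * ((α / h0) ^ 2 / x) := by field_simp
    rw [this]
    ring

theorem esn_pos' {x : ℝ} (h0' : 0 < x) (h1 : x < 1) : 0 < esn x := by
  have := cn_e h0' h1
  unfold esn c1n
  linarith

theorem mun_pos' {x : ℝ} : 0 ≤ mun 3 x := by
  unfold mun c1n
  positivity

theorem thrA {T : MolP} {u b x X12 X13 : ℝ} {c : ℝ × ℝ × ℝ} (h : DomA u b x)
    (a : AbsA T u b x X12 X13) (k : ThrA T u b x X13 c) :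
    c.1 = h0⁻¹ * (esn x * (n716 T u b x)) ∧ c.2.1 = -(h0⁻¹ * (esn x * T.k2)) ∧ c.2.2 = h0⁻¹ * (esn x * (n721 T u b x)) := by
  have e := x1A h a
  obtain ⟨k1, k2, k3⟩ := k
  have g1 : c.1 = h0⁻¹ * (esn x * (n716 T u b x)) := by
    rw [k1, Kp1_eqA]
  have g3 : c.2.2 = h0⁻¹ * (esn x * (n721 T u b x)) := by
    rw [k3, e]
    simp only [n721, n718]
    rw [KpW_eqA]
    all_goals ring
  exact ⟨g1, k2, g3⟩

theorem thrB {T : MolP} {u b x X12 X13 : ℝ} {c : ℝ × ℝ × ℝ} (h : DomB u b x)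
    (a : AbsB T u b x X12 X13) (k : ThrB T u b x (X12 - X13) c) :
    c.1 = h0⁻¹ * (esn x * (n716 T u b x)) ∧ c.2.1 = h0⁻¹ * (esn x * (n1035 T u b x)) ∧ c.2.2 = -(h0⁻¹ * (esn x * T.k2)) := by
  have e := x1B h a
  obtain ⟨k1, k2, k3⟩ := k
  have g1 : c.1 = h0⁻¹ * (esn x * (n716 T u b x)) := by
    rw [k1, Kp1_eqA]
  have g3 : c.2.1 = h0⁻¹ * (esn x * (n1035 T u b x)) := by
    rw [k2, e]
    simp only [n1035, n1030]
    rw [KpW_eqB]
    all_goals ring
  exact ⟨g1, g3, k3⟩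

theorem fin2Ap {T : MolP} {th u b x κ τ1 τ3 y y' X12 X13 : ℝ} {r c l : ℝ × ℝ × ℝ}
    (h : DomA u b x) (hb : 0 ≤ b) (hκ : κ * h0 = ken x) (hy : y = x + u) (hy' : y' = 1 + b)
    (hi : T.it * τ3 = 1) (ha : AbsA T u b x X12 X13) (hk : KerA T u b x τ1 τ3 X13 r)
    (hc : ThrA T u b x X13 c) (hl : LevA T u b x X13 l) (t1 : tau (h0 * y) = h0 * τ1)
    (t3 : tau (h0 * y + h0 * y') = h0 * τ3) (hk1 : T.k1 = 1 / th - 1) (hN : NdA th (h0 * x) (h0 * (T.k52 * x)))
    (hu : u ≤ 1 - x) (hu0 : -(1 / 8) ≤ u) (hA1 : 0 < n1281 T u b x) (hA2 : 0 < n1283 T u b x) (hD : 0 < n1187 T u b x) (hr : 0 < n1215 T u b x)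
    (hP : 0 < n1219 T u b x) (hQ : 0 < n1241 T u b x)
    (tN : 0 < -(n1288 T u b x) ∨ 0 < n1260 T u b x ∨ 0 < n1292 T u b x)
    (tM : 0 < n1288 T u b x ∨ 0 < n1279 T u b x ∨ 0 < n1296 T u b x) (z : ℝ) :
    0 ≤ lvN 3 0 x y y' (exn' X12 X13 y (y + y')) l +
      (1 + mun 3 x * cR x) * kf κ (h0 * x) r (h0 * y) (h0 * y') z +
      mun 3 x * pf (tnt (h0 * x) th) c (h0 * y) (h0 * y') z := by
  have hp := h0_pos
  have hn : h0 ≠ 0 := hp.ne'
  have xp := h.x0
  have xn : x ≠ 0 := xp.ne'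
  have ep := esn_pos' h.x0 h.x1
  have en : esn x ≠ 0 := ep.ne'
  have mp := mun_pos' (x := x)
  obtain ⟨c1, c2, c3⟩ := thrA h ha hc
  have ee : exn' X12 X13 y (y + y') = n160 T u b x + b * (1 / 2 * (n12 T u b x + (T.p1) * (n16 T u b x) + (T.ws) * (n3 T u b x))) := by
    rw [hy, hy']
    exact exq (Xs := 0) rfl ha.h12 ha.h13
  have hke := hk_e T (u := u) (b := b) h.x0 h.x1 hκ
  have he' : n15 T u b x = esn x := by
    rw [e_eq]
    rfl
  have hfa := fac_eqA T (u := u) (b := b) (x := x)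
  have hmu := mu_eqA T (u := u) (b := b) (x := x)
  have hkp : 0 ≤ κ := by
    rw [he'] at hke
    by_contra hneg
    push Not at hneg
    have h1 : 0 < h0 * (x * (1 - x)) := mul_pos hp (mul_pos xp (by linarith [h.x1]))
    have h2 : κ * (h0 * (x * (1 - x))) < 0 := mul_neg_of_neg_of_pos hneg h1
    have h3 : κ * (h0 * (x * (1 - x))) = 2 * esn x := by rw [← hke]; ring
    linarith
  have hK := ker0A h hi ha hk
  have hdv : n1187 T u b x = (n716 T u b x) - (n721 T u b x) := by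
    simp only [n1187]
  have tS : tau (h0 * y') = h0 * b := by
    unfold tau jn
    have hb0 := h.b0
    have hb1 := h.b1
    have eS : h0 * y' = h0 + h0 * b := by
      rw [hy']
      ring
    have q1 := mul_le_mul_of_nonneg_left hb0 hp.le
    have q2 := mul_le_mul_of_nonneg_left hb1 hp.le
    rw [eS, if_neg (by linarith), if_pos (by linarith)]
    push_cast
    ring
  have hcpl : cpl (1 + mun 3 x * cR x) (mun 3 x / esn x) r c (h0 * y) (h0 * y') = ((n730 T u b x) * τ1, -(n748 T u b x), (n739 T u b x) * τ3) := by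
    unfold cpl
    rw [t1, t3, tS, c1, c2, c3, hK, ← hfa, ← hmu]
    ext
    · simp only [n730, n727, n724]
      field_simp
      all_goals ring
    · simp only [n748, n746, n744, n741]
      field_simp
      all_goals ring
    · simp only [n739, n736, n733]
      field_simp
      all_goals ring
  have hh : h0 * y' = h0 + h0 * b := by
    rw [hy']
    ring
  have hlev := ev1Ap h hb ha hl hy hy' ee
  have hη : mun 3 x * (c.1 - c.2.2) * ((1 / th - 1) * ((h0 * u) ^ 2 / (h0 * x))) ≤ u ^ 2 * (esn x * mun 3 x * T.k1 * x⁻¹ * (n1187 T u b x)) := by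
    rw [c1, c3, hdv, hk1]
    apply le_of_eq
    field_simp
    all_goals ring
  have hab : |c.2.1 - c.2.2| = h0⁻¹ * (esn x * (n1189 T u b x)) := by
    rw [c2, c3]
    have : -(h0⁻¹ * (esn x * T.k2)) - h0⁻¹ * (esn x * (n721 T u b x)) = h0⁻¹ * (esn x * (-(T.k2 + n721 T u b x))) := by ring
    rw [this, abs_mul, abs_mul, abs_of_pos (inv_pos.2 hp), abs_of_pos ep, abs_neg]
    simp only [n1189]
  have hν : mun 3 x * (|c.2.1 - c.2.2| * ((1 / th - 1) * |h0 * b|) +
      (c.1 - c.2.2) * (h0 * (T.k52 * x))) ≤ esn x * (mun 3 x * (n1187 T u b x) * T.k52 * x + mun 3 x * (n1189 T u b x) * T.k1 * |b|) := by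
    rw [hab, c1, c3, abs_mul, abs_of_pos hp, hdv, hk1]
    apply le_of_eq
    field_simp
    all_goals ring
  have jd : n1187 T u b x = (n1185 T u b x) + b * (n1186 T u b x) := by
    rw [hdv]
    have j1 := J87 T (u := u) (b := b) (x := x)
    have j3 := J83 T (u := u) (b := b) (x := x) h
    simp only [n1186, n1185, n719, n711, n706, n704, n703, n699, n696, n690, n685, n683, n677, n675, n669, n102, n52, n51, n12, n3] at j1 j3 ⊢
    linear_combination j1 - j3
  have hEE : (n1209 T u b x) + b * (n1212 T u b x) = ((n654 T u b x) + b * (n656 T u b x)) - u ^ 2 * (esn x * mun 3 x * T.k1 * x⁻¹ * (n1187 T u b x)) -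
      esn x * (mun 3 x * (n1187 T u b x) * T.k52 * x + mun 3 x * (n1189 T u b x) * T.k1 * |b|) := by
    rw [← he', ← hmu, jd, abs_of_nonneg hb]
    simp only [n1212, n1209, n1206, n1204, n1203, n1202, n1198, n1197, n1195, n1192, n298]
    ring
  have hrv : -(n1217 T u b x) = -(n748 T u b x) + (mun 3 x * (n1187 T u b x) * T.k52 * x + mun 3 x * (n1189 T u b x) * T.k1 * |b|) := by
    rw [← hmu, jd, abs_of_nonneg hb]
    simp only [n1217, n1214, n1198, n1197, n1195, n1192]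
    ring
  have k := ch2Ap T h hb hke hA1.le hA2.le hr.le hP hQ (by simpa using tN) (by simpa using tM)
    (by rw [y_eq, ← hy]; exact t1) (by rw [y_eq, ← hy, ← hh]; exact t3)
  rw [y_eq, hEE, hrv, ← hy, ← hh] at k
  refine hN κ (esn x) (1 + mun 3 x * cR x) (mun 3 x) _ _ _ (h0 * u) (h0 * b) (h0 * y) (h0 * y') r c hkp
    ?_ ep mp ?_ ?_ ?_ ?_ ?_ ?_ ?_ ?_ hη hν ?_ z
  · rw [he'] at hke
    have : κ * (h0 * x * (h0 - h0 * x)) = h0 * (κ * h0 * (x * (1 - x))) := by ring
    rw [this, hke]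
    ring
  · rw [hy]
    ring
  · rw [hh]
  · have := mul_le_mul_of_nonneg_left hu hp.le
    linarith
  · have := mul_le_mul_of_nonneg_left hu0 hp.le
    linarith
  · rw [abs_mul, abs_of_pos hp]
    have : |b| ≤ 1 / 8 := abs_le.2 ⟨by linarith [h.b0], h.b1⟩
    have := mul_le_mul_of_nonneg_left this hp.le
    linarith
  · rw [hy]
    exact mul_nonneg hp.le h.y0.le
  · rw [hy, hh]
    have := mul_pos hp (sub_pos.2 h.p1)
    linarith
  · rw [c1, c3]
    have h1 : (n721 T u b x) < (n716 T u b x) := by linarith [hdv]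
    have h2 : esn x * (n721 T u b x) ≤ esn x * (n716 T u b x) := mul_le_mul_of_nonneg_left h1.le ep.le
    exact mul_le_mul_of_nonneg_left h2 (inv_pos.2 hp).le
  · rw [hcpl, hlev]
    exact k

theorem fin2Am {T : MolP} {th u b x κ τ1 τ3 y y' X12 X13 : ℝ} {r c l : ℝ × ℝ × ℝ}
    (h : DomA u b x) (hb : b < 0) (hκ : κ * h0 = ken x) (hy : y = x + u) (hy' : y' = 1 + b)
    (hi : T.it * τ3 = 1) (ha : AbsA T u b x X12 X13) (hk : KerA T u b x τ1 τ3 X13 r)
    (hc : ThrA T u b x X13 c) (hl : LevA T u b x X13 l) (t1 : tau (h0 * y) = h0 * τ1)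
    (t3 : tau (h0 * y + h0 * y') = h0 * τ3) (hk1 : T.k1 = 1 / th - 1) (hN : NdA th (h0 * x) (h0 * (T.k52 * x)))
    (hu : u ≤ 1 - x) (hu0 : -(1 / 8) ≤ u) (hA1 : 0 < n1281 T u b x) (hA2 : 0 < n1283 T u b x) (hD : 0 < n1187 T u b x) (hr : 0 < n1215 T u b x)
    (hP : 0 < n1307 T u b x) (hQ : 0 < n1326 T u b x)
    (tN : 0 < -(n1367 T u b x) ∨ 0 < -(n1346 T u b x) ∨ 0 < n1371 T u b x)
    (tM : 0 < n1367 T u b x ∨ 0 < -(n1362 T u b x) ∨ 0 < n1373 T u b x) (z : ℝ) :
    0 ≤ lvN 3 0 x y y' (exn' X12 X13 y (y + y')) l +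
      (1 + mun 3 x * cR x) * kf κ (h0 * x) r (h0 * y) (h0 * y') z +
      mun 3 x * pf (tnt (h0 * x) th) c (h0 * y) (h0 * y') z := by
  have hp := h0_pos
  have hn : h0 ≠ 0 := hp.ne'
  have xp := h.x0
  have xn : x ≠ 0 := xp.ne'
  have ep := esn_pos' h.x0 h.x1
  have en : esn x ≠ 0 := ep.ne'
  have mp := mun_pos' (x := x)
  obtain ⟨c1, c2, c3⟩ := thrA h ha hc
  have ee : exn' X12 X13 y (y + y') = n160 T u b x + b * (1 / 2 * (n12 T u b x + (T.p1) * (n16 T u b x) + (T.ws) * (n3 T u b x))) := by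
    rw [hy, hy']
    exact exq (Xs := 0) rfl ha.h12 ha.h13
  have hke := hk_e T (u := u) (b := b) h.x0 h.x1 hκ
  have he' : n15 T u b x = esn x := by
    rw [e_eq]
    rfl
  have hfa := fac_eqA T (u := u) (b := b) (x := x)
  have hmu := mu_eqA T (u := u) (b := b) (x := x)
  have hkp : 0 ≤ κ := by
    rw [he'] at hke
    by_contra hneg
    push Not at hneg
    have h1 : 0 < h0 * (x * (1 - x)) := mul_pos hp (mul_pos xp (by linarith [h.x1]))
    have h2 : κ * (h0 * (x * (1 - x))) < 0 := mul_neg_of_neg_of_pos hneg h1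
    have h3 : κ * (h0 * (x * (1 - x))) = 2 * esn x := by rw [← hke]; ring
    linarith
  have hK := ker0A h hi ha hk
  have hdv : n1187 T u b x = (n716 T u b x) - (n721 T u b x) := by
    simp only [n1187]
  have tS : tau (h0 * y') = h0 * b := by
    unfold tau jn
    have hb0 := h.b0
    have hb1 := h.b1
    have eS : h0 * y' = h0 + h0 * b := by
      rw [hy']
      ring
    have q1 := mul_le_mul_of_nonneg_left hb0 hp.le
    have q2 := mul_le_mul_of_nonneg_left hb1 hp.le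
    rw [eS, if_neg (by linarith), if_pos (by linarith)]
    push_cast
    ring
  have hcpl : cpl (1 + mun 3 x * cR x) (mun 3 x / esn x) r c (h0 * y) (h0 * y') = ((n730 T u b x) * τ1, -(n748 T u b x), (n739 T u b x) * τ3) := by
    unfold cpl
    rw [t1, t3, tS, c1, c2, c3, hK, ← hfa, ← hmu]
    ext
    · simp only [n730, n727, n724]
      field_simp
      all_goals ring
    · simp only [n748, n746, n744, n741]
      field_simp
      all_goals ring
    · simp only [n739, n736, n733]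
      field_simp
      all_goals ring
  have hh : h0 * y' = h0 + h0 * b := by
    rw [hy']
    ring
  have hlev := ev1Am h hb ha hl hy hy' ee
  have hη : mun 3 x * (c.1 - c.2.2) * ((1 / th - 1) * ((h0 * u) ^ 2 / (h0 * x))) ≤ u ^ 2 * (esn x * mun 3 x * T.k1 * x⁻¹ * (n1187 T u b x)) := by
    rw [c1, c3, hdv, hk1]
    apply le_of_eq
    field_simp
    all_goals ring
  have hab : |c.2.1 - c.2.2| = h0⁻¹ * (esn x * (n1189 T u b x)) := by
    rw [c2, c3]
    have : -(h0⁻¹ * (esn x * T.k2)) - h0⁻¹ * (esn x * (n721 T u b x)) = h0⁻¹ * (esn x * (-(T.k2 + n721 T u b x))) := by ring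
    rw [this, abs_mul, abs_mul, abs_of_pos (inv_pos.2 hp), abs_of_pos ep, abs_neg]
    simp only [n1189]
  have hν : mun 3 x * (|c.2.1 - c.2.2| * ((1 / th - 1) * |h0 * b|) +
      (c.1 - c.2.2) * (h0 * (T.k52 * x))) ≤ esn x * (mun 3 x * (n1187 T u b x) * T.k52 * x + mun 3 x * (n1189 T u b x) * T.k1 * |b|) := by
    rw [hab, c1, c3, abs_mul, abs_of_pos hp, hdv, hk1]
    apply le_of_eq
    field_simp
    all_goals ring
  have jd : n1187 T u b x = (n1185 T u b x) + b * (n1186 T u b x) := by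
    rw [hdv]
    have j1 := J87 T (u := u) (b := b) (x := x)
    have j3 := J83 T (u := u) (b := b) (x := x) h
    simp only [n1186, n1185, n719, n711, n706, n704, n703, n699, n696, n690, n685, n683, n677, n675, n669, n102, n52, n51, n12, n3] at j1 j3 ⊢
    linear_combination j1 - j3
  have hEE : (n1209 T u b x) + b * (n1301 T u b x) = ((n654 T u b x) + b * (n877 T u b x)) - u ^ 2 * (esn x * mun 3 x * T.k1 * x⁻¹ * (n1187 T u b x)) -
      esn x * (mun 3 x * (n1187 T u b x) * T.k52 * x + mun 3 x * (n1189 T u b x) * T.k1 * |b|) := by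
    rw [← he', ← hmu, jd, abs_of_neg hb]
    simp only [n1301, n1298, n1209, n1206, n1204, n1203, n1202, n1197, n1195, n1192, n298]
    ring
  have hrv : -(n1305 T u b x) = -(n748 T u b x) + (mun 3 x * (n1187 T u b x) * T.k52 * x + mun 3 x * (n1189 T u b x) * T.k1 * |b|) := by
    rw [← hmu, jd, abs_of_neg hb]
    simp only [n1305, n1303, n1298, n1197, n1195, n1192]
    ring
  have k := ch2Am T h hb hke hA1.le hA2.le hr.le hP hQ (by simpa using tN) (by simpa using tM)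
    (by rw [y_eq, ← hy]; exact t1) (by rw [y_eq, ← hy, ← hh]; exact t3)
  rw [y_eq, hEE, hrv, ← hy, ← hh] at k
  refine hN κ (esn x) (1 + mun 3 x * cR x) (mun 3 x) _ _ _ (h0 * u) (h0 * b) (h0 * y) (h0 * y') r c hkp
    ?_ ep mp ?_ ?_ ?_ ?_ ?_ ?_ ?_ ?_ hη hν ?_ z
  · rw [he'] at hke
    have : κ * (h0 * x * (h0 - h0 * x)) = h0 * (κ * h0 * (x * (1 - x))) := by ring
    rw [this, hke]
    ring
  · rw [hy]
    ring
  · rw [hh]
  · have := mul_le_mul_of_nonneg_left hu hp.le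
    linarith
  · have := mul_le_mul_of_nonneg_left hu0 hp.le
    linarith
  · rw [abs_mul, abs_of_pos hp]
    have : |b| ≤ 1 / 8 := abs_le.2 ⟨by linarith [h.b0], h.b1⟩
    have := mul_le_mul_of_nonneg_left this hp.le
    linarith
  · rw [hy]
    exact mul_nonneg hp.le h.y0.le
  · rw [hy, hh]
    have := mul_pos hp (sub_pos.2 h.p1)
    linarith
  · rw [c1, c3]
    have h1 : (n721 T u b x) < (n716 T u b x) := by linarith [hdv]
    have h2 : esn x * (n721 T u b x) ≤ esn x * (n716 T u b x) := mul_le_mul_of_nonneg_left h1.le ep.le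
    exact mul_le_mul_of_nonneg_left h2 (inv_pos.2 hp).le
  · rw [hcpl, hlev]
    exact k

theorem fin2Bp {T : MolP} {th u b x κ τ1 τ3 y y' X12 X13 : ℝ} {r c l : ℝ × ℝ × ℝ}
    (h : DomB u b x) (hb : 0 ≤ b) (hκ : κ * h0 = ken x) (hy : y = x + u) (hy' : y' = 1 + b - (x + u))
    (hi : T.it * τ3 = 1) (ha : AbsB T u b x X12 X13) (hk : KerB T u b x τ1 τ3 (X12 - X13) r)
    (hc : ThrB T u b x (X12 - X13) c) (hl : LevB T u b x (X12 - X13) l) (t1 : tau (h0 * y) = h0 * τ1)
    (t3 : tau (h0 * y') = h0 * τ3) (hk1 : T.k1 = 1 / th - 1) (hN : NdB th (h0 * x) (h0 * (T.k52 * x)))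
    (hu : u ≤ 1 - x) (hu0 : -(1 / 8) ≤ u) (hA1 : 0 < n1281 T u b x) (hA2 : 0 < n1283 T u b x) (hD : 0 < n1375 T u b x) (hr : 0 < n1215 T u b x)
    (hP : 0 < n1394 T u b x) (hQ : 0 < n1414 T u b x)
    (tN : 0 < -(n1459 T u b x) ∨ 0 < n1436 T u b x ∨ 0 < n1461 T u b x)
    (tM : 0 < n1459 T u b x ∨ 0 < n1454 T u b x ∨ 0 < n1463 T u b x) (z : ℝ) :
    0 ≤ lvN 3 0 x y y' (exn' X12 X13 y (y + y')) l +
      (1 + mun 3 x * cR x) * kf κ (h0 * x) r (h0 * y) (h0 * y') z +
      mun 3 x * pf (tnt (h0 * x) th) c (h0 * y) (h0 * y') z := by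
  have hp := h0_pos
  have hn : h0 ≠ 0 := hp.ne'
  have xp := h.x0
  have xn : x ≠ 0 := xp.ne'
  have ep := esn_pos' h.x0 h.x1
  have en : esn x ≠ 0 := ep.ne'
  have mp := mun_pos' (x := x)
  obtain ⟨c1, c2, c3⟩ := thrB h ha hc
  have ee : exn' X12 X13 y (y + y') = n160 T u b x + b * (1 / 2 * (n12 T u b x + (T.p1) * (n16 T u b x) + (T.ws) * (n3 T u b x))) := by
    rw [hy, hy']
    exact exqB (by ring) ha.h12 ha.h13
  have hke := hk_e T (u := u) (b := b) h.x0 h.x1 hκ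
  have he' : n15 T u b x = esn x := by
    rw [e_eq]
    rfl
  have hfa := fac_eqA T (u := u) (b := b) (x := x)
  have hmu := mu_eqA T (u := u) (b := b) (x := x)
  have hkp : 0 ≤ κ := by
    rw [he'] at hke
    by_contra hneg
    push Not at hneg
    have h1 : 0 < h0 * (x * (1 - x)) := mul_pos hp (mul_pos xp (by linarith [h.x1]))
    have h2 : κ * (h0 * (x * (1 - x))) < 0 := mul_neg_of_neg_of_pos hneg h1
    have h3 : κ * (h0 * (x * (1 - x))) = 2 * esn x := by rw [← hke]; ring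
    linarith
  have hK := ker0B h hi ha hk
  have hdv : n1375 T u b x = (n1035 T u b x) - (n716 T u b x) := by
    simp only [n1375]
  have tS : tau (h0 * y + h0 * y') = h0 * b := by
    unfold tau jn
    have hb0 := h.b0
    have hb1 := h.b1
    have eS : h0 * y + h0 * y' = h0 + h0 * b := by
      rw [hy, hy']
      ring
    have q1 := mul_le_mul_of_nonneg_left hb0 hp.le
    have q2 := mul_le_mul_of_nonneg_left hb1 hp.le
    rw [eS, if_neg (by linarith), if_pos (by linarith)]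
    push_cast
    ring
  have hcpl : cpl (1 + mun 3 x * cR x) (mun 3 x / esn x) r c (h0 * y) (h0 * y') = ((n730 T u b x) * τ1, (n1044 T u b x) * τ3, -(n748 T u b x)) := by
    unfold cpl
    rw [t1, t3, tS, c1, c2, c3, hK, ← hfa, ← hmu]
    ext
    · simp only [n730, n727, n724]
      field_simp
      all_goals ring
    · simp only [n1044, n1041, n1038]
      field_simp
      all_goals ring
    · simp only [n748, n746, n744, n741]
      field_simp
      all_goals ring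
  have hh : h0 * y' = h0 + h0 * b - h0 * (x + u) := by
    rw [hy']
    ring
  have hlev := ev1Bp h hb ha hl hy hy' ee
  have hη : mun 3 x * (c.2.1 - c.1) * ((1 / th - 1) * ((h0 * u) ^ 2 / (h0 * x))) ≤ u ^ 2 * (esn x * mun 3 x * T.k1 * x⁻¹ * (n1375 T u b x)) := by
    rw [c1, c2, hdv, hk1]
    apply le_of_eq
    field_simp
    all_goals ring
  have hab : |c.2.1 - c.2.2| = h0⁻¹ * (esn x * (n1377 T u b x)) := by
    rw [c2, c3]
    have : h0⁻¹ * (esn x * (n1035 T u b x)) - -(h0⁻¹ * (esn x * T.k2)) = h0⁻¹ * (esn x * (T.k2 + n1035 T u b x)) := by ring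
    rw [this, abs_mul, abs_mul, abs_of_pos (inv_pos.2 hp), abs_of_pos ep]
    simp only [n1377]
  have hν : mun 3 x * (|c.2.1 - c.2.2| * ((1 / th - 1) * |h0 * b|) +
      (c.2.1 - c.1) * (h0 * (T.k52 * x))) ≤ esn x * (mun 3 x * (n1375 T u b x) * T.k52 * x + mun 3 x * (n1377 T u b x) * T.k1 * |b|) := by
    rw [hab, c1, c2, abs_mul, abs_of_pos hp, hdv, hk1]
    apply le_of_eq
    field_simp
    all_goals ring
  have jd : n1375 T u b x = (n1185 T u b x) + b * (n1374 T u b x) := by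
    rw [hdv]
    have j1 := J87 T (u := u) (b := b) (x := x)
    have j3 := J127 T (u := u) (b := b) (x := x) h
    simp only [n1374, n1185, n1032, n1026, n1021, n1019, n1014, n703, n699, n690, n685, n683, n677, n675, n669, n102, n52, n51, n12, n3] at j1 j3 ⊢
    linear_combination j3 - j1
  have hEE : (n1209 T u b x) + b * (n1388 T u b x) = ((n654 T u b x) + b * (n990 T u b x)) - u ^ 2 * (esn x * mun 3 x * T.k1 * x⁻¹ * (n1375 T u b x)) -
      esn x * (mun 3 x * (n1375 T u b x) * T.k52 * x + mun 3 x * (n1377 T u b x) * T.k1 * |b|) := by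
    rw [← he', ← hmu, jd, abs_of_nonneg hb]
    simp only [n1388, n1385, n1383, n1382, n1380, n1209, n1204, n1203, n1202, n1192, n298]
    ring
  have hrv : -(n1392 T u b x) = -(n748 T u b x) + (mun 3 x * (n1375 T u b x) * T.k52 * x + mun 3 x * (n1377 T u b x) * T.k1 * |b|) := by
    rw [← hmu, jd, abs_of_nonneg hb]
    simp only [n1392, n1390, n1383, n1382, n1380, n1192]
    ring
  have k := ch2Bp T h hb hke hA1.le hA2.le hr.le hP hQ (by simpa using tN) (by simpa using tM)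
    (by rw [y_eq, ← hy]; exact t1) (by rw [y_eq, ← hh]; exact t3)
  rw [y_eq, hEE, hrv, ← hh, ← hy] at k
  refine hN κ (esn x) (1 + mun 3 x * cR x) (mun 3 x) _ _ _ (h0 * u) (h0 * b) (h0 * y) (h0 * y') r c hkp
    ?_ ep mp ?_ ?_ ?_ ?_ ?_ ?_ ?_ ?_ hη hν ?_ z
  · rw [he'] at hke
    have : κ * (h0 * x * (h0 - h0 * x)) = h0 * (κ * h0 * (x * (1 - x))) := by ring
    rw [this, hke]
    ring
  · rw [hy]
    ring
  · rw [hy, hy']
    ring
  · have := mul_le_mul_of_nonneg_left hu hp.le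
    linarith
  · have := mul_le_mul_of_nonneg_left hu0 hp.le
    linarith
  · rw [abs_mul, abs_of_pos hp]
    have : |b| ≤ 1 / 8 := abs_le.2 ⟨by linarith [h.b0], h.b1⟩
    have := mul_le_mul_of_nonneg_left this hp.le
    linarith
  · rw [hy]
    exact mul_nonneg hp.le h.y0.le
  · rw [hy']
    have := h.p1
    have := h.y1
    have := h.b0
    apply mul_nonneg hp.le
    linarith [h.p1, h.p0, h.y1, h.b0, h.b1]
  · rw [c1, c2]
    have h1 : (n716 T u b x) < (n1035 T u b x) := by linarith [hdv]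
    have h2 : esn x * (n716 T u b x) ≤ esn x * (n1035 T u b x) := mul_le_mul_of_nonneg_left h1.le ep.le
    exact mul_le_mul_of_nonneg_left h2 (inv_pos.2 hp).le
  · rw [hcpl, hlev]
    exact k

theorem fin2Bm {T : MolP} {th u b x κ τ1 τ3 y y' X12 X13 : ℝ} {r c l : ℝ × ℝ × ℝ}
    (h : DomB u b x) (hb : b < 0) (hκ : κ * h0 = ken x) (hy : y = x + u) (hy' : y' = 1 + b - (x + u))
    (hi : T.it * τ3 = 1) (ha : AbsB T u b x X12 X13) (hk : KerB T u b x τ1 τ3 (X12 - X13) r)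
    (hc : ThrB T u b x (X12 - X13) c) (hl : LevB T u b x (X12 - X13) l) (t1 : tau (h0 * y) = h0 * τ1)
    (t3 : tau (h0 * y') = h0 * τ3) (hk1 : T.k1 = 1 / th - 1) (hN : NdB th (h0 * x) (h0 * (T.k52 * x)))
    (hu : u ≤ 1 - x) (hu0 : -(1 / 8) ≤ u) (hA1 : 0 < n1281 T u b x) (hA2 : 0 < n1283 T u b x) (hD : 0 < n1375 T u b x) (hr : 0 < n1215 T u b x)
    (hP : 0 < n1474 T u b x) (hQ : 0 < n1491 T u b x)
    (tN : 0 < -(n1534 T u b x) ∨ 0 < -(n1513 T u b x) ∨ 0 < n1538 T u b x)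
    (tM : 0 < n1534 T u b x ∨ 0 < -(n1529 T u b x) ∨ 0 < n1540 T u b x) (z : ℝ) :
    0 ≤ lvN 3 0 x y y' (exn' X12 X13 y (y + y')) l +
      (1 + mun 3 x * cR x) * kf κ (h0 * x) r (h0 * y) (h0 * y') z +
      mun 3 x * pf (tnt (h0 * x) th) c (h0 * y) (h0 * y') z := by
  have hp := h0_pos
  have hn : h0 ≠ 0 := hp.ne'
  have xp := h.x0
  have xn : x ≠ 0 := xp.ne'
  have ep := esn_pos' h.x0 h.x1
  have en : esn x ≠ 0 := ep.ne'
  have mp := mun_pos' (x := x)
  obtain ⟨c1, c2, c3⟩ := thrB h ha hc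
  have ee : exn' X12 X13 y (y + y') = n160 T u b x + b * (1 / 2 * (n12 T u b x + (T.p1) * (n16 T u b x) + (T.ws) * (n3 T u b x))) := by
    rw [hy, hy']
    exact exqB (by ring) ha.h12 ha.h13
  have hke := hk_e T (u := u) (b := b) h.x0 h.x1 hκ
  have he' : n15 T u b x = esn x := by
    rw [e_eq]
    rfl
  have hfa := fac_eqA T (u := u) (b := b) (x := x)
  have hmu := mu_eqA T (u := u) (b := b) (x := x)
  have hkp : 0 ≤ κ := by
    rw [he'] at hke
    by_contra hneg
    push Not at hneg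
    have h1 : 0 < h0 * (x * (1 - x)) := mul_pos hp (mul_pos xp (by linarith [h.x1]))
    have h2 : κ * (h0 * (x * (1 - x))) < 0 := mul_neg_of_neg_of_pos hneg h1
    have h3 : κ * (h0 * (x * (1 - x))) = 2 * esn x := by rw [← hke]; ring
    linarith
  have hK := ker0B h hi ha hk
  have hdv : n1375 T u b x = (n1035 T u b x) - (n716 T u b x) := by
    simp only [n1375]
  have tS : tau (h0 * y + h0 * y') = h0 * b := by
    unfold tau jn
    have hb0 := h.b0
    have hb1 := h.b1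
    have eS : h0 * y + h0 * y' = h0 + h0 * b := by
      rw [hy, hy']
      ring
    have q1 := mul_le_mul_of_nonneg_left hb0 hp.le
    have q2 := mul_le_mul_of_nonneg_left hb1 hp.le
    rw [eS, if_neg (by linarith), if_pos (by linarith)]
    push_cast
    ring
  have hcpl : cpl (1 + mun 3 x * cR x) (mun 3 x / esn x) r c (h0 * y) (h0 * y') = ((n730 T u b x) * τ1, (n1044 T u b x) * τ3, -(n748 T u b x)) := by
    unfold cpl
    rw [t1, t3, tS, c1, c2, c3, hK, ← hfa, ← hmu]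
    ext
    · simp only [n730, n727, n724]
      field_simp
      all_goals ring
    · simp only [n1044, n1041, n1038]
      field_simp
      all_goals ring
    · simp only [n748, n746, n744, n741]
      field_simp
      all_goals ring
  have hh : h0 * y' = h0 + h0 * b - h0 * (x + u) := by
    rw [hy']
    ring
  have hlev := ev1Bm h hb ha hl hy hy' ee
  have hη : mun 3 x * (c.2.1 - c.1) * ((1 / th - 1) * ((h0 * u) ^ 2 / (h0 * x))) ≤ u ^ 2 * (esn x * mun 3 x * T.k1 * x⁻¹ * (n1375 T u b x)) := by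
    rw [c1, c2, hdv, hk1]
    apply le_of_eq
    field_simp
    all_goals ring
  have hab : |c.2.1 - c.2.2| = h0⁻¹ * (esn x * (n1377 T u b x)) := by
    rw [c2, c3]
    have : h0⁻¹ * (esn x * (n1035 T u b x)) - -(h0⁻¹ * (esn x * T.k2)) = h0⁻¹ * (esn x * (T.k2 + n1035 T u b x)) := by ring
    rw [this, abs_mul, abs_mul, abs_of_pos (inv_pos.2 hp), abs_of_pos ep]
    simp only [n1377]
  have hν : mun 3 x * (|c.2.1 - c.2.2| * ((1 / th - 1) * |h0 * b|) +
      (c.2.1 - c.1) * (h0 * (T.k52 * x))) ≤ esn x * (mun 3 x * (n1375 T u b x) * T.k52 * x + mun 3 x * (n1377 T u b x) * T.k1 * |b|) := by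
    rw [hab, c1, c2, abs_mul, abs_of_pos hp, hdv, hk1]
    apply le_of_eq
    field_simp
    all_goals ring
  have jd : n1375 T u b x = (n1185 T u b x) + b * (n1374 T u b x) := by
    rw [hdv]
    have j1 := J87 T (u := u) (b := b) (x := x)
    have j3 := J127 T (u := u) (b := b) (x := x) h
    simp only [n1374, n1185, n1032, n1026, n1021, n1019, n1014, n703, n699, n690, n685, n683, n677, n675, n669, n102, n52, n51, n12, n3] at j1 j3 ⊢
    linear_combination j3 - j1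
  have hEE : (n1209 T u b x) + b * (n1468 T u b x) = ((n654 T u b x) + b * (n1122 T u b x)) - u ^ 2 * (esn x * mun 3 x * T.k1 * x⁻¹ * (n1375 T u b x)) -
      esn x * (mun 3 x * (n1375 T u b x) * T.k52 * x + mun 3 x * (n1377 T u b x) * T.k1 * |b|) := by
    rw [← he', ← hmu, jd, abs_of_neg hb]
    simp only [n1468, n1465, n1385, n1382, n1380, n1209, n1204, n1203, n1202, n1192, n298]
    ring
  have hrv : -(n1472 T u b x) = -(n748 T u b x) + (mun 3 x * (n1375 T u b x) * T.k52 * x + mun 3 x * (n1377 T u b x) * T.k1 * |b|) := by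
    rw [← hmu, jd, abs_of_neg hb]
    simp only [n1472, n1470, n1465, n1382, n1380, n1192]
    ring
  have k := ch2Bm T h hb hke hA1.le hA2.le hr.le hP hQ (by simpa using tN) (by simpa using tM)
    (by rw [y_eq, ← hy]; exact t1) (by rw [y_eq, ← hh]; exact t3)
  rw [y_eq, hEE, hrv, ← hh, ← hy] at k
  refine hN κ (esn x) (1 + mun 3 x * cR x) (mun 3 x) _ _ _ (h0 * u) (h0 * b) (h0 * y) (h0 * y') r c hkp
    ?_ ep mp ?_ ?_ ?_ ?_ ?_ ?_ ?_ ?_ hη hν ?_ z
  · rw [he'] at hke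
    have : κ * (h0 * x * (h0 - h0 * x)) = h0 * (κ * h0 * (x * (1 - x))) := by ring
    rw [this, hke]
    ring
  · rw [hy]
    ring
  · rw [hy, hy']
    ring
  · have := mul_le_mul_of_nonneg_left hu hp.le
    linarith
  · have := mul_le_mul_of_nonneg_left hu0 hp.le
    linarith
  · rw [abs_mul, abs_of_pos hp]
    have : |b| ≤ 1 / 8 := abs_le.2 ⟨by linarith [h.b0], h.b1⟩
    have := mul_le_mul_of_nonneg_left this hp.le
    linarith
  · rw [hy]
    exact mul_nonneg hp.le h.y0.le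
  · rw [hy']
    have := h.p1
    have := h.y1
    have := h.b0
    apply mul_nonneg hp.le
    linarith [h.p1, h.p0, h.y1, h.b0, h.b1]
  · rw [c1, c2]
    have h1 : (n716 T u b x) < (n1035 T u b x) := by linarith [hdv]
    have h2 : esn x * (n716 T u b x) ≤ esn x * (n1035 T u b x) := mul_le_mul_of_nonneg_left h1.le ep.le
    exact mul_le_mul_of_nonneg_left h2 (inv_pos.2 hp).le
  · rw [hcpl, hlev]
    exact k

end Pool.Agent.Strip051.PB.Mol
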