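import Pool.Agent.Strip051.PB.Rows
import Pool.Agent.Strip051.PB.Cuts

/-! # From the certificates of the rows to the triples of quarters

The tables are given by functions `fn j q` of a coordinate `crd j q y` of the point at the height
`y` on the curve `j` in the quarter `q` (`tbF`). A certificate refers to nodes; `At` says that a
node at a coordinate describes the point of a curve at a height, `Cov` that this is possible for
all heights with a property. `pc q` is the third side. -/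

namespace Pool.Agent.Strip051.PB

open Pool.Agent.StripNear Pool.Agent.StripSquare Pool.Agent.Strip051.Sweep
open Pool.Agent.Strip051.LC

/-- the sign as a number -/
noncomputable def sgb (b : Bool) : ℝ := cond b 1 (-1)

theorem sgr_eq (b : Bool) (x : ℝ) : sgr b x = sgb b * x := by
  cases b
  · show -x = -1 * x
    ring
  · show x = 1 * x
    ring

theorem sgb_or (b : Bool) : sgb b = 1 ∨ sgb b = -1 := by
  cases b
  · exact Or.inr rfl
  · exact Or.inl rfl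

theorem sgb_true : sgb true = 1 := rfl
theorem sgb_false : sgb false = -1 := rfl

section

variable {n : ℕ}

/-- The heights of the curve `j` in the quarter `q`. -/
def OnC (j : Fin (n + 1)) (q : ℕ) (y : ℝ) : Prop := InQ q y ∧ (j = 0 → h0 * y < 1)

open Classical in
/-- The table with the functions `fn` at the nodes. -/
noncomputable def tbF (fn : Fin (n + 1) → ℕ → Fn2) (crd : Fin (n + 1) → ℕ → ℝ → ℝ)
    (j : Fin (n + 1)) (q : ℕ) (y x : ℝ) : ℝ :=
  if j = 0 ∧ 1 ≤ h0 * y then 0 else (fn j q).v (crd j q y) x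

/-- The node `nd` at the coordinate `p` describes the point of the curve `j` at the height `y`. -/
structure At (P : Pos n) (RK RL : Fin (n + 1) → ℕ → ℝ → ℝ → ℝ) (nd : Node) (j : Fin (n + 1))
    (q : ℕ) (y p x : ℝ) : Prop where
  Y : nd.Y.v p = y
  X : nd.X.v p = crv P j q y
  K : nd.K.v p x = RK j q y x
  L : nd.L.v p x = RL j q y x

/-- `p` is in the root interval -/
def InRt (W W' : ℕ) (p : ℝ) : Prop := (W : ℝ) / S ≤ p ∧ p ≤ ((W : ℝ) + W') / S

/-- The node describes the points of the curve at all heights with the property `V`, with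
coordinates in the root interval. -/
def Cov (P : Pos n) (RK RL : Fin (n + 1) → ℕ → ℝ → ℝ → ℝ) (nd : Node) (j : Fin (n + 1))
    (q W W' : ℕ) (V : ℝ → Prop) (x : ℝ) : Prop :=
  ∀ y, OnC j q y → V y → ∃ p, At P RK RL nd j q y p x ∧ InRt W W' p

theorem Link.congr {ι : Type} {K : Cur n ι} {x : ℝ} {v : ℝ → ι → ℝ}
    {R : Fin (n + 1) → ℕ → ℝ → ℝ → ℝ} {T T' : ℕ → ℝ → ℝ → ℝ → ℝ} (L : Link K x v R T)
    (h : ∀ q X y, InQ q y → 1 ≤ qqn X y → qqn X y ≤ 3 → T q X y x = T' q X y x) :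
    Link K x v R T' :=
  ⟨L.adm, L.node, fun q X y hq h1 h3 => (L.third q X y hq h1 h3).trans (h q X y hq h1 h3)⟩

variable {P : Pos n} {crd : Fin (n + 1) → ℕ → ℝ → ℝ} {RK RL : Fin (n + 1) → ℕ → ℝ → ℝ → ℝ}
  {j k : Fin (n + 1)} {a b c : ℕ} {s1 s2 : Bool} {x y y' p p' κ : ℝ} {cn : Con} {pc : ℕ → Piece}
  {n1 n2 : Node}

theorem tbF_on {fn : Fin (n + 1) → ℕ → Fn2} (h : OnC j a y) :
    tbF fn crd j a y x = (fn j a).v (crd j a y) x := by
  unfold tbF
  rw [if_neg]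
  rintro ⟨h1, h2⟩
  exact absurd (h.2 h1) (not_lt.2 h2)

theorem tbF_off {fn : Fin (n + 1) → ℕ → Fn2} (h : 1 ≤ h0 * y) : tbF fn crd 0 a y x = 0 :=
  if_pos ⟨rfl, h⟩

theorem onC_zero (j : Fin (n + 1)) : OnC j 0 0 := by
  have := h0_pos
  exact ⟨⟨le_rfl, by norm_num⟩, fun _ => by rw [mul_zero]; norm_num⟩

theorem onC_one (j : Fin (n + 1)) : OnC j 2 1 := by
  have := h0_lt_one
  exact ⟨⟨le_rfl, by norm_num⟩, fun _ => by rwa [mul_one]⟩

theorem onC_two {j : Fin (n + 1)} (hj : j ≠ 0) : OnC j 3 2 :=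
  ⟨⟨by norm_num, le_rfl⟩, fun h => absurd h hj⟩

theorem off_two : 1 ≤ h0 * 2 := by
  have h1 := h0_sq
  have h2 := h0_pos
  nlinarith

/-- The conditions on a table from the values at the heights `0`, `1`, `2` and a bound. -/
theorem pins_of {fn : Fin (n + 1) → ℕ → Fn2}
    (zero : ∀ j, P.ρ j ≤ 1 → (fn j 0).v (crd j 0 0) x = (fn 0 0).v (crd 0 0 0) x)
    (mid : ∀ j, P.ρ j ≤ 1 → (fn j 2).v (crd j 2 1) x = (fn 0 2).v (crd 0 2 1) x)
    (top : ∀ j, j ≠ 0 → (fn j 3).v (crd j 3 2) x = 0)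
    (bdd : ∃ C, ∀ j q y, OnC j q y → |(fn j q).v (crd j q y) x| ≤ C) :
    Pins P (tbF fn crd) x where
  one q y _ h := tbF_off h
  zero j hj := by
    rw [tbF_on (onC_zero j), tbF_on (onC_zero 0)]
    exact zero j hj
  mid j hj := by
    rw [tbF_on (onC_one j), tbF_on (onC_one 0)]
    exact mid j hj
  top j := by
    by_cases h : j = 0
    · subst h
      exact tbF_off off_two
    · rw [tbF_on (onC_two h)]
      exact top j h
  bdd := by
    obtain ⟨C, hC⟩ := bdd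
    refine ⟨max C 0, fun j q y hq => ?_⟩
    by_cases h : j = 0 ∧ 1 ≤ h0 * y
    · have e : tbF fn crd j q y x = 0 := if_pos h
      rw [e, abs_zero]
      exact le_max_right _ _
    · have hon : OnC j q y := ⟨hq, fun hj => not_le.1 fun h' => h ⟨hj, h'⟩⟩
      rw [tbF_on hon]
      exact (hC j q y hon).trans (le_max_left _ _)

theorem FactsA.on1 {σ σ' : ℝ} (F : FactsA P a b c j k σ σ' y y') : OnC j a y := ⟨F.q1, F.j0⟩
theorem FactsA.on2 {σ σ' : ℝ} (F : FactsA P a b c j k σ σ' y y') : OnC k b y' := ⟨F.q2, F.k0⟩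
theorem FactsB.on1 {σ σ' : ℝ} (F : FactsB P a b c j k σ σ' y y') : OnC j a y := ⟨F.q1, F.j0⟩
theorem FactsB.on3 {σ σ' : ℝ} (F : FactsB P a b c j k σ σ' y y') : OnC k c (y + y') :=
  ⟨F.q3, F.k0⟩

theorem InQ.lo {q : ℕ} {y : ℝ} (h : InQ q y) : (q : ℝ) / 2 ≤ y := by
  match q, h with
  | 0, ⟨h1, h2⟩ => norm_num; exact h1
  | 1, ⟨h1, h2⟩ => norm_num; linarith
  | 2, ⟨h1, h2⟩ => norm_num; exact h1
  | 3, ⟨h1, h2⟩ => norm_num; linarith
  | _ + 4, h => exact h.elim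

theorem InQ.hi {q : ℕ} {y : ℝ} (h : InQ q y) : y ≤ ((q : ℝ) + 1) / 2 := by
  match q, h with
  | 0, ⟨h1, h2⟩ => norm_num; linarith
  | 1, ⟨h1, h2⟩ => norm_num; linarith
  | 2, ⟨h1, h2⟩ => norm_num; linarith
  | 3, ⟨h1, h2⟩ => norm_num; linarith
  | _ + 4, h => exact h.elim

/-- The values of the family `A`. -/
theorem valR_A (A1 : At P RK RL n1 j a y p x) (A2 : At P RK RL n2 k b y' p' x) :
    valR true s1 s2 n1 n2 (pc c) p p' x =
      ⟨x, y, y', sgb s1 * crv P j a y + sgb s2 * crv P k b y', y + y',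
        exA P a b j k (sgb s1) (sgb s2) y y',
        (vlA P RK (fun q => (pc q).K.v) a b c j k (sgb s1) (sgb s2) x y y').1,
        (vlA P RK (fun q => (pc q).K.v) a b c j k (sgb s1) (sgb s2) x y y').2.1,
        (vlA P RK (fun q => (pc q).K.v) a b c j k (sgb s1) (sgb s2) x y y').2.2,
        (vlA P RL (fun q => (pc q).L.v) a b c j k (sgb s1) (sgb s2) x y y').1,
        (vlA P RL (fun q => (pc q).L.v) a b c j k (sgb s1) (sgb s2) x y y').2.1,
        (vlA P RL (fun q => (pc q).L.v) a b c j k (sgb s1) (sgb s2) x y y').2.2⟩ := by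
  unfold valR vlA exA exn'
  simp only [A1.Y, A2.Y, A1.X, A2.X, A1.K, A2.K, A1.L, A2.L, sgr_eq]
  congr 1
  ring

/-- The values of the family `B`. -/
theorem valR_B (A1 : At P RK RL n1 j a y p x) (A2 : At P RK RL n2 k c (y + y') p' x) :
    valR false s1 s2 n1 n2 (pc b) p p' x =
      ⟨x, y, y', sgb s2 * crv P k c (y + y') - sgb s1 * crv P j a y, y',
        exB P a c j k (sgb s1) (sgb s2) y y',
        (vlB P RK (fun q => (pc q).K.v) a b c j k (sgb s1) (sgb s2) x y y').1,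
        (vlB P RK (fun q => (pc q).K.v) a b c j k (sgb s1) (sgb s2) x y y').2.1,
        (vlB P RK (fun q => (pc q).K.v) a b c j k (sgb s1) (sgb s2) x y y').2.2,
        (vlB P RL (fun q => (pc q).L.v) a b c j k (sgb s1) (sgb s2) x y y').1,
        (vlB P RL (fun q => (pc q).L.v) a b c j k (sgb s1) (sgb s2) x y y').2.1,
        (vlB P RL (fun q => (pc q).L.v) a b c j k (sgb s1) (sgb s2) x y y').2.2⟩ := by
  unfold valR vlB exB exn'
  simp only [A1.Y, A2.Y, A1.X, A2.X, A1.K, A2.K, A1.L, A2.L, sgr_eq, add_sub_cancel_left]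

theorem FactsA.notOut {σ σ' : ℝ} (F : FactsA P a b c j k σ σ' y y') {V : Val}
    (hX : V.X = σ * crv P j a y + σ' * crv P k b y') (hY : V.Y = y + y')
    (hE : V.ex = exA P a b j k σ σ' y y') : ¬ V.out c := by
  have e1 := F.q3.lo
  have e2 := F.q3.hi
  have e3 := F.len1
  have e4 := F.len3
  have e5 := F.exc
  unfold exA at hE
  rintro (h | h | h | h | h)
  · rw [hY] at h
    linarith
  · rw [hY] at h
    linarith
  · rw [hX, hY] at h
    linarith
  · rw [hX, hY] at h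
    linarith
  · rw [hE] at h
    linarith

theorem FactsB.notOut {σ σ' : ℝ} (F : FactsB P a b c j k σ σ' y y') {V : Val}
    (hX : V.X = σ' * crv P k c (y + y') - σ * crv P j a y) (hY : V.Y = y')
    (hE : V.ex = exB P a c j k σ σ' y y') : ¬ V.out b := by
  have e1 := F.q2.lo
  have e2 := F.q2.hi
  have e3 := F.len1
  have e4 := F.len3
  have e5 := F.exc
  unfold exB at hE
  rintro (h | h | h | h | h)
  · rw [hY] at h
    linarith
  · rw [hY] at h
    linarith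
  · rw [hX, hY] at h
    linarith
  · rw [hX, hY] at h
    linarith
  · rw [hE] at h
    linarith

/-- the statement at the far vertex -/
def VF (κ x y y' e : ℝ) (l r : ℝ × ℝ × ℝ) : Prop := NGV κ (h0 * x) (lvF e l) (h0 * y) (h0 * y') r

/-- the statement at the near vertex -/
def VN (N0 : ℕ) (κ x y y' e : ℝ) (l r : ℝ × ℝ × ℝ) : Prop :=
  NGV κ (h0 * x) (lvN N0 0 x y y' e l) (h0 * y) (h0 * y') r

/-- the statement `V` for the triangle of the family `A` -/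
def StA (V : ℝ → ℝ → ℝ → ℝ → ℝ × ℝ × ℝ → ℝ × ℝ × ℝ → Prop) (P : Pos n)
    (RK RL : Fin (n + 1) → ℕ → ℝ → ℝ → ℝ) (pc : ℕ → Piece) (a b c : ℕ) (j k : Fin (n + 1))
    (σ σ' x y y' : ℝ) : Prop :=
  V x y y' (exA P a b j k σ σ' y y') (vlA P RL (fun q => (pc q).L.v) a b c j k σ σ' x y y')
    (vlA P RK (fun q => (pc q).K.v) a b c j k σ σ' x y y')

/-- the statement `V` for the triangle of the family `B` -/
def StB (V : ℝ → ℝ → ℝ → ℝ → ℝ × ℝ × ℝ → ℝ × ℝ × ℝ → Prop) (P : Pos n)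
    (RK RL : Fin (n + 1) → ℕ → ℝ → ℝ → ℝ) (pc : ℕ → Piece) (a b c : ℕ) (j k : Fin (n + 1))
    (σ σ' x y y' : ℝ) : Prop :=
  V x y y' (exB P a c j k σ σ' y y') (vlB P RL (fun q => (pc q).L.v) a b c j k σ σ' x y y')
    (vlB P RK (fun q => (pc q).K.v) a b c j k σ σ' x y y')

/-- A point of the family `A` at the far vertex. -/
theorem FarR.stA (A1 : At P RK RL n1 j a y p x) (A2 : At P RK RL n2 k b y' p' x)
    (F : FactsA P a b c j k (sgb s1) (sgb s2) y y') (hc : con a b c = some cn)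
    (hκ : κ * h0 = ken x) {cut : Cut} {xt : Ext}
    (h : FarR true s1 s2 cn a b c n1 n2 (pc c) cut xt p p' x)
    (hcut : cut.P x y y' (sgb s1 * crv P j a y + sgb s2 * crv P k b y') (y + y') →
      StA (VF κ) P RK RL pc a b c j k (sgb s1) (sgb s2) x y y')
    (hxt : xt.P p p' x → StA (VF κ) P RK RL pc a b c j k (sgb s1) (sgb s2) x y y') :
    StA (VF κ) P RK RL pc a b c j k (sgb s1) (sgb s2) x y y' := by
  unfold FarR at h
  rw [valR_A A1 A2] at h
  rcases h with (h | h) | h | ⟨g, h⟩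
  · exact absurd h (F.notOut rfl rfl rfl)
  · exact hcut h
  · exact hxt h
  · refine F.ngv hc ⟨g, ?_⟩
    rw [hκ]
    exact h.le

/-- A point of the family `B` at the far vertex. -/
theorem FarR.stB (A1 : At P RK RL n1 j a y p x) (A2 : At P RK RL n2 k c (y + y') p' x)
    (F : FactsB P a b c j k (sgb s1) (sgb s2) y y') (hc : con a b c = some cn)
    (hκ : κ * h0 = ken x) {cut : Cut} {xt : Ext}
    (h : FarR false s1 s2 cn a b c n1 n2 (pc b) cut xt p p' x)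
    (hcut : cut.P x y y' (sgb s2 * crv P k c (y + y') - sgb s1 * crv P j a y) y' →
      StB (VF κ) P RK RL pc a b c j k (sgb s1) (sgb s2) x y y')
    (hxt : xt.P p p' x → StB (VF κ) P RK RL pc a b c j k (sgb s1) (sgb s2) x y y') :
    StB (VF κ) P RK RL pc a b c j k (sgb s1) (sgb s2) x y y' := by
  unfold FarR at h
  rw [valR_B A1 A2] at h
  rcases h with (h | h) | h | ⟨g, h⟩
  · exact absurd h (F.notOut rfl rfl rfl)
  · exact hcut h
  · exact hxt h
  · refine F.ngv hc ⟨g, ?_⟩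
    rw [hκ]
    exact h.le

/-- A point of the family `A` at the near vertex. -/
theorem NearR.stA {N0 : ℕ} (A1 : At P RK RL n1 j a y p x) (A2 : At P RK RL n2 k b y' p' x)
    (F : FactsA P a b c j k (sgb s1) (sgb s2) y y') (hc : con a b c = some cn)
    (hκ : κ * h0 = ken x) {cut : Cut} {xt : Ext}
    (h : NearR N0 true s1 s2 cn a b c n1 n2 (pc c) cut xt p p' x)
    (hcut : cut.P x y y' (sgb s1 * crv P j a y + sgb s2 * crv P k b y') (y + y') →
      StA (VN N0 κ) P RK RL pc a b c j k (sgb s1) (sgb s2) x y y')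
    (hxt : xt.P p p' x → StA (VN N0 κ) P RK RL pc a b c j k (sgb s1) (sgb s2) x y y') :
    StA (VN N0 κ) P RK RL pc a b c j k (sgb s1) (sgb s2) x y y' := by
  unfold NearR at h
  rw [valR_A A1 A2] at h
  rcases h with (h | h) | h | ⟨g, h⟩
  · exact absurd h (F.notOut rfl rfl rfl)
  · exact hcut h
  · exact hxt h
  · refine F.ngv hc ⟨g, ?_⟩
    rw [hκ]
    exact h.le

/-- A point of the family `B` at the near vertex. -/
theorem NearR.stB {N0 : ℕ} (A1 : At P RK RL n1 j a y p x) (A2 : At P RK RL n2 k c (y + y') p' x)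
    (F : FactsB P a b c j k (sgb s1) (sgb s2) y y') (hc : con a b c = some cn)
    (hκ : κ * h0 = ken x) {cut : Cut} {xt : Ext}
    (h : NearR N0 false s1 s2 cn a b c n1 n2 (pc b) cut xt p p' x)
    (hcut : cut.P x y y' (sgb s2 * crv P k c (y + y') - sgb s1 * crv P j a y) y' →
      StB (VN N0 κ) P RK RL pc a b c j k (sgb s1) (sgb s2) x y y')
    (hxt : xt.P p p' x → StB (VN N0 κ) P RK RL pc a b c j k (sgb s1) (sgb s2) x y y') :
    StB (VN N0 κ) P RK RL pc a b c j k (sgb s1) (sgb s2) x y y' := by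
  unfold NearR at h
  rw [valR_B A1 A2] at h
  rcases h with (h | h) | h | ⟨g, h⟩
  · exact absurd h (F.notOut rfl rfl rfl)
  · exact hcut h
  · exact hxt h
  · refine F.ngv hc ⟨g, ?_⟩
    rw [hκ]
    exact h.le

/-! ### The data of an interval -/

variable (P RK RL pc) in
/-- The third sides describe the tables at `x`. -/
structure SideOk (x : ℝ) : Prop where
  pinK : Pins P RK x
  pinL : Pins P RL x
  thK : ∀ q X y, InQ q y → 1 ≤ qqn X y → qqn X y ≤ 3 → thd P RK q X y x = (pc q).K.v X y x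
  thL : ∀ q X y, InQ q y → 1 ≤ qqn X y → qqn X y ≤ 3 → thd P RL q X y x = (pc q).L.v X y x

theorem SideOk.linkK (h : SideOk P RK RL pc x) :
    Link P.cur x (tbl RK x) RK (fun q => (pc q).K.v) := h.pinK.link.congr h.thK

theorem SideOk.linkL (h : SideOk P RK RL pc x) :
    Link P.cur x (tbl RL x) RL (fun q => (pc q).L.v) := h.pinL.link.congr h.thL

/-- the alternative of a chart: the statement holds in the cut region, family `A` -/
def CutA (V : ℝ → ℝ → ℝ → ℝ → ℝ × ℝ × ℝ → ℝ × ℝ × ℝ → Prop) (P : Pos n)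
    (RK RL : Fin (n + 1) → ℕ → ℝ → ℝ → ℝ) (pc : ℕ → Piece) (cut : Cut)
    (a b c : ℕ) (j k : Fin (n + 1)) (σ σ' x : ℝ) : Prop :=
  ∀ y y', FactsA P a b c j k σ σ' y y' →
    cut.P x y y' (σ * crv P j a y + σ' * crv P k b y') (y + y') →
    StA V P RK RL pc a b c j k σ σ' x y y'

/-- the alternative of a chart: the statement holds in the cut region, family `B` -/
def CutB (V : ℝ → ℝ → ℝ → ℝ → ℝ × ℝ × ℝ → ℝ × ℝ × ℝ → Prop) (P : Pos n)
    (RK RL : Fin (n + 1) → ℕ → ℝ → ℝ → ℝ) (pc : ℕ → Piece) (cut : Cut)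
    (a b c : ℕ) (j k : Fin (n + 1)) (σ σ' x : ℝ) : Prop :=
  ∀ y y', FactsB P a b c j k σ σ' y y' →
    cut.P x y y' (σ' * crv P k c (y + y') - σ * crv P j a y) y' →
    StB V P RK RL pc a b c j k σ σ' x y y'

/-- The further alternative `xt` implies the statement, family `A`. -/
def ExtA (V : ℝ → ℝ → ℝ → ℝ → ℝ × ℝ × ℝ → ℝ × ℝ × ℝ → Prop) (P : Pos n)
    (RK RL : Fin (n + 1) → ℕ → ℝ → ℝ → ℝ) (pc : ℕ → Piece) (xt : Ext) (n1 n2 : Node)
    (a b c : ℕ) (j k : Fin (n + 1)) (σ σ' x : ℝ) : Prop :=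
  ∀ y y' p p', FactsA P a b c j k σ σ' y y' → At P RK RL n1 j a y p x →
    At P RK RL n2 k b y' p' x → xt.P p p' x → StA V P RK RL pc a b c j k σ σ' x y y'

/-- The further alternative `xt` implies the statement, family `B`. -/
def ExtB (V : ℝ → ℝ → ℝ → ℝ → ℝ × ℝ × ℝ → ℝ × ℝ × ℝ → Prop) (P : Pos n)
    (RK RL : Fin (n + 1) → ℕ → ℝ → ℝ → ℝ) (pc : ℕ → Piece) (xt : Ext) (n1 n2 : Node)
    (a b c : ℕ) (j k : Fin (n + 1)) (σ σ' x : ℝ) : Prop :=
  ∀ y y' p p', FactsB P a b c j k σ σ' y y' → At P RK RL n1 j a y p x →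
    At P RK RL n2 k c (y + y') p' x → xt.P p p' x → StB V P RK RL pc a b c j k σ σ' x y y'

variable {V : ℝ → ℝ → ℝ → ℝ → ℝ × ℝ × ℝ → ℝ × ℝ × ℝ → Prop} {σ σ' : ℝ}

theorem noCut_A : CutA V P RK RL pc Cut.none a b c j k σ σ' x :=
  fun _ _ _ h => (Cut.none_P h).elim

theorem noCut_B : CutB V P RK RL pc Cut.none a b c j k σ σ' x :=
  fun _ _ _ h => (Cut.none_P h).elim

theorem noExt_A : ExtA V P RK RL pc Ext.none n1 n2 a b c j k σ σ' x :=
  fun _ _ _ _ _ _ _ h => h.elim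

theorem noExt_B : ExtB V P RK RL pc Ext.none n1 n2 a b c j k σ σ' x :=
  fun _ _ _ _ _ _ _ h => h.elim

variable {P1 W1 P2 W2 P3 W3 N0 : ℕ} {cut : Cut} {xt : Ext} {V1 V2 : ℝ → Prop}

/-- **Family `A`, far vertex**: from the certificate. -/
theorem farA_cert (hc : con a b c = some cn) (hκ : κ * h0 = ken x)
    (b1 : Cov P RK RL n1 j a P1 W1 V1 x) (b2 : Cov P RK RL n2 k b P2 W2 V2 x)
    (x1 : (P3 : ℝ) / S ≤ x) (x2 : x ≤ ((P3 : ℝ) + W3) / S)
    (ht : CertF P1 W1 P2 W2 P3 W3 true s1 s2 cn a b c n1 n2 (pc c) cut xt)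
    (hcut : CutA (VF κ) P RK RL pc cut a b c j k (sgb s1) (sgb s2) x)
    (hxt : ExtA (VF κ) P RK RL pc xt n1 n2 a b c j k (sgb s1) (sgb s2) x)
    (F : FactsA P a b c j k (sgb s1) (sgb s2) y y') (v1 : V1 y) (v2 : V2 y') :
    StA (VF κ) P RK RL pc a b c j k (sgb s1) (sgb s2) x y y' := by
  obtain ⟨p, A1, g1, g2⟩ := b1 y F.on1 v1
  obtain ⟨p', A2, g3, g4⟩ := b2 y' F.on2 v2
  exact FarR.stA A1 A2 F hc hκ (ht ⟨g1, g2⟩ ⟨g3, g4⟩ ⟨x1, x2⟩) (hcut y y' F)
    (hxt y y' p p' F A1 A2)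

/-- **Family `B`, far vertex**: from the certificate. -/
theorem farB_cert (hc : con a b c = some cn) (hκ : κ * h0 = ken x)
    (b1 : Cov P RK RL n1 j a P1 W1 V1 x) (b2 : Cov P RK RL n2 k c P2 W2 V2 x)
    (x1 : (P3 : ℝ) / S ≤ x) (x2 : x ≤ ((P3 : ℝ) + W3) / S)
    (ht : CertF P1 W1 P2 W2 P3 W3 false s1 s2 cn a b c n1 n2 (pc b) cut xt)
    (hcut : CutB (VF κ) P RK RL pc cut a b c j k (sgb s1) (sgb s2) x)
    (hxt : ExtB (VF κ) P RK RL pc xt n1 n2 a b c j k (sgb s1) (sgb s2) x)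
    (F : FactsB P a b c j k (sgb s1) (sgb s2) y y') (v1 : V1 y) (v2 : V2 (y + y')) :
    StB (VF κ) P RK RL pc a b c j k (sgb s1) (sgb s2) x y y' := by
  obtain ⟨p, A1, g1, g2⟩ := b1 y F.on1 v1
  obtain ⟨p', A2, g3, g4⟩ := b2 (y + y') F.on3 v2
  exact FarR.stB A1 A2 F hc hκ (ht ⟨g1, g2⟩ ⟨g3, g4⟩ ⟨x1, x2⟩) (hcut y y' F)
    (hxt y y' p p' F A1 A2)

/-- **Family `A`, near vertex**: from the certificate. -/
theorem nearA_cert (hc : con a b c = some cn) (hκ : κ * h0 = ken x)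
    (b1 : Cov P RK RL n1 j a P1 W1 V1 x) (b2 : Cov P RK RL n2 k b P2 W2 V2 x)
    (x1 : (P3 : ℝ) / S ≤ x) (x2 : x ≤ ((P3 : ℝ) + W3) / S)
    (ht : CertN P1 W1 P2 W2 P3 W3 N0 true s1 s2 cn a b c n1 n2 (pc c) cut xt)
    (hcut : CutA (VN N0 κ) P RK RL pc cut a b c j k (sgb s1) (sgb s2) x)
    (hxt : ExtA (VN N0 κ) P RK RL pc xt n1 n2 a b c j k (sgb s1) (sgb s2) x)
    (F : FactsA P a b c j k (sgb s1) (sgb s2) y y') (v1 : V1 y) (v2 : V2 y') :
    StA (VN N0 κ) P RK RL pc a b c j k (sgb s1) (sgb s2) x y y' := by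
  obtain ⟨p, A1, g1, g2⟩ := b1 y F.on1 v1
  obtain ⟨p', A2, g3, g4⟩ := b2 y' F.on2 v2
  exact NearR.stA A1 A2 F hc hκ (ht ⟨g1, g2⟩ ⟨g3, g4⟩ ⟨x1, x2⟩) (hcut y y' F)
    (hxt y y' p p' F A1 A2)

/-- **Family `B`, near vertex**: from the certificate. -/
theorem nearB_cert (hc : con a b c = some cn) (hκ : κ * h0 = ken x)
    (b1 : Cov P RK RL n1 j a P1 W1 V1 x) (b2 : Cov P RK RL n2 k c P2 W2 V2 x)
    (x1 : (P3 : ℝ) / S ≤ x) (x2 : x ≤ ((P3 : ℝ) + W3) / S)
    (ht : CertN P1 W1 P2 W2 P3 W3 N0 false s1 s2 cn a b c n1 n2 (pc b) cut xt)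
    (hcut : CutB (VN N0 κ) P RK RL pc cut a b c j k (sgb s1) (sgb s2) x)
    (hxt : ExtB (VN N0 κ) P RK RL pc xt n1 n2 a b c j k (sgb s1) (sgb s2) x)
    (F : FactsB P a b c j k (sgb s1) (sgb s2) y y') (v1 : V1 y) (v2 : V2 (y + y')) :
    StB (VN N0 κ) P RK RL pc a b c j k (sgb s1) (sgb s2) x y y' := by
  obtain ⟨p, A1, g1, g2⟩ := b1 y F.on1 v1
  obtain ⟨p', A2, g3, g4⟩ := b2 (y + y') F.on3 v2
  exact NearR.stB A1 A2 F hc hκ (ht ⟨g1, g2⟩ ⟨g3, g4⟩ ⟨x1, x2⟩) (hcut y y' F)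
    (hxt y y' p p' F A1 A2)

theorem SideOk.farA (h : SideOk P RK RL pc x) (hσ : σ = 1 ∨ σ = -1) (hσ' : σ' = 1 ∨ σ' = -1)
    (H : ∀ y y', FactsA P a b c j k σ σ' y y' →
      StA (VF κ) P RK RL pc a b c j k σ σ' x y y') :
    TriA P.cur (farS κ (h0 * x) (tbl RK x) (tbl RL x)) a b c j k σ σ' :=
  triA_far h.linkK h.linkL hσ hσ' H

theorem SideOk.farB (h : SideOk P RK RL pc x) (hσ : σ = 1 ∨ σ = -1) (hσ' : σ' = 1 ∨ σ' = -1)
    (H : ∀ y y', FactsB P a b c j k σ σ' y y' →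
      StB (VF κ) P RK RL pc a b c j k σ σ' x y y') :
    TriB P.cur (farS κ (h0 * x) (tbl RK x) (tbl RL x)) a b c j k σ σ' :=
  triB_far h.linkK h.linkL hσ hσ' H

theorem SideOk.nearA (h : SideOk P RK RL pc x) (hσ : σ = 1 ∨ σ = -1) (hσ' : σ' = 1 ∨ σ' = -1)
    (H : ∀ y y', FactsA P a b c j k σ σ' y y' →
      StA (VN N0 κ) P RK RL pc a b c j k σ σ' x y y') :
    TriA P.cur (nearL (h0 * 0) N0 κ (h0 * x) (tbl RK x) (tbl RL x)) a b c j k σ σ' :=
  triA_near h.linkK h.linkL hσ hσ' H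

theorem SideOk.nearB (h : SideOk P RK RL pc x) (hσ : σ = 1 ∨ σ = -1) (hσ' : σ' = 1 ∨ σ' = -1)
    (H : ∀ y y', FactsB P a b c j k σ σ' y y' →
      StB (VN N0 κ) P RK RL pc a b c j k σ σ' x y y') :
    TriB P.cur (nearL (h0 * 0) N0 κ (h0 * x) (tbl RK x) (tbl RL x)) a b c j k σ σ' :=
  triB_near h.linkK h.linkL hσ hσ' H

end

end Pool.Agent.Strip051.PB
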