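import Pool.Agent.Strip051.PB.PosV
import Pool.Agent.Strip051.PB.Bridge

/-! # The certificate in the direct form from the triples of quarters

The statements of the rows are the direct ones (for all phases `z`) and are only needed at heights
where both curves are nodes. -/

namespace Pool.Agent.Strip051.PB

open Pool.Agent.StripNear Pool.Agent.StripSquare Pool.Agent.Strip051.Sweep
open Pool.Agent.Strip051.LC

/-- the direct statement at the far vertex -/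
def VFD (κ x y y' e : ℝ) (l r : ℝ × ℝ × ℝ) : Prop :=
  ∀ z, 0 ≤ lvF e l + kf κ (h0 * x) r (h0 * y) (h0 * y') z

/-- the direct statement at the near vertex -/
def VND (N0 : ℕ) (κ x y y' e : ℝ) (l r : ℝ × ℝ × ℝ) : Prop :=
  ∀ z, 0 ≤ lvN N0 0 x y y' e l + kf κ (h0 * x) r (h0 * y) (h0 * y') z

section

variable {κ x y y' e : ℝ} {l r : ℝ × ℝ × ℝ} {N0 : ℕ}

theorem VF.dir (h : VF κ x y y' e l r) (hκ : 0 ≤ κ) (h0x : 0 ≤ x) (h1x : x < 1) (y0 : 0 ≤ y)
    (y0' : 0 ≤ y') (y2 : y + y' ≤ 2) : VFD κ x y y' e l r := by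
  have hp := h0_pos
  intro z
  exact NGV.dir h hκ (mul_nonneg hp.le h0x) (by nlinarith) (mul_nonneg hp.le y0)
    (mul_nonneg hp.le y0') (by nlinarith) z

theorem VN.dir (h : VN N0 κ x y y' e l r) (hκ : 0 ≤ κ) (h0x : 0 ≤ x) (h1x : x < 1) (y0 : 0 ≤ y)
    (y0' : 0 ≤ y') (y2 : y + y' ≤ 2) : VND N0 κ x y y' e l r := by
  have hp := h0_pos
  intro z
  exact NGV.dir h hκ (mul_nonneg hp.le h0x) (by nlinarith) (mul_nonneg hp.le y0)
    (mul_nonneg hp.le y0') (by nlinarith) z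

end

section

variable {n : ℕ} {D : PV n} {a b c : ℕ} {j k : Fin (n + 1)} {σ σ' y y' : ℝ}

theorem InA.factsV (H : InA D.cur a b c j k σ σ' y y') :
    FactsA D.P a b c j k σ σ' y y' ∧ D.r j y ∧ D.r k y' := by
  have d1 := D.dm_iff.1 H.d1
  have d2 := D.dm_iff.1 H.d2
  have H' : InA D.P.cur a b c j k σ σ' y y' :=
    ⟨H.q1, H.q2, H.q3, H.y0, H.y0', d1.1, d2.1, H.ho, H.h1, H.h3⟩
  exact ⟨H'.facts, d1.2, d2.2⟩

theorem InB.factsV (H : InB D.cur a b c j k σ σ' y y') :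
    FactsB D.P a b c j k σ σ' y y' ∧ D.r j y ∧ D.r k (y + y') := by
  have d1 := D.dm_iff.1 H.d1
  have d3 := D.dm_iff.1 H.d3
  have H' : InB D.P.cur a b c j k σ σ' y y' :=
    ⟨H.q1, H.q2, H.q3, H.y0, H.y0', d1.1, d3.1, H.ho, H.h1, H.h3⟩
  exact ⟨H'.facts, d1.2, d3.2⟩

variable {x κ lv : ℝ} {N0 : ℕ} {RA RB RL : Fin (n + 1) → ℕ → ℝ → ℝ → ℝ}
  {TA TB TL : ℕ → ℝ → ℝ → ℝ → ℝ}

/-! ### The rows -/

theorem triA_farD (LA : Link D.cur x (tbl RA x) RA TA) (LL : Link D.cur x (tbl RL x) RL TL)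
    (hσ : σ = 1 ∨ σ = -1) (hσ' : σ' = 1 ∨ σ' = -1)
    (h : ∀ y y', FactsA D.P a b c j k σ σ' y y' → D.r j y → D.r k y' →
      VFD κ x y y' (exA D.P a b j k σ σ' y y') (vlA D.P RL TL a b c j k σ σ' x y y')
        (vlA D.P RA TA a b c j k σ σ' x y y')) :
    TriA D.cur (farD κ (h0 * x) (tbl RA x) (tbl RL x)) a b c j k σ σ' := by
  intro y y' H z
  have e1 := D.linkX j a y H.q1
  have e2 := D.linkX k b y' H.q2
  obtain ⟨F, r1, r2⟩ := H.factsV
  rw [valK_useA LA D.linkX hσ hσ' H, valK_useA LL D.linkX hσ hσ' H, exn_n, levF_n, e1, e2]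
  exact h y y' F r1 r2 z

theorem triB_farD (LA : Link D.cur x (tbl RA x) RA TA) (LL : Link D.cur x (tbl RL x) RL TL)
    (hσ : σ = 1 ∨ σ = -1) (hσ' : σ' = 1 ∨ σ' = -1)
    (h : ∀ y y', FactsB D.P a b c j k σ σ' y y' → D.r j y → D.r k (y + y') →
      VFD κ x y y' (exB D.P a c j k σ σ' y y') (vlB D.P RL TL a b c j k σ σ' x y y')
        (vlB D.P RA TA a b c j k σ σ' x y y')) :
    TriB D.cur (farD κ (h0 * x) (tbl RA x) (tbl RL x)) a b c j k σ σ' := by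
  intro y y' H z
  have e1 := D.linkX j a y H.q1
  have e2 := D.linkX k c (y + y') H.q3
  obtain ⟨F, r1, r2⟩ := H.factsV
  rw [valK_useB LA D.linkX hσ hσ' H, valK_useB LL D.linkX hσ hσ' H, exn_n, levF_n, e1, e2]
  exact h y y' F r1 r2 z

theorem triA_nearD (LB : Link D.cur x (tbl RB x) RB TB) (LL : Link D.cur x (tbl RL x) RL TL)
    (hσ : σ = 1 ∨ σ = -1) (hσ' : σ' = 1 ∨ σ' = -1)
    (h : ∀ y y', FactsA D.P a b c j k σ σ' y y' → D.r j y → D.r k y' →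
      VND N0 κ x y y' (exA D.P a b j k σ σ' y y') (vlA D.P RL TL a b c j k σ σ' x y y')
        (vlA D.P RB TB a b c j k σ σ' x y y')) :
    TriA D.cur (nearT (h0 * 0) N0 κ (h0 * x) (tbl RB x) (tbl RL x)) a b c j k σ σ' := by
  intro y y' H z
  have e1 := D.linkX j a y H.q1
  have e2 := D.linkX k b y' H.q2
  obtain ⟨F, r1, r2⟩ := H.factsV
  rw [valK_useA LB D.linkX hσ hσ' H, valK_useA LL D.linkX hσ hσ' H, exn_n, e1, e2]
  simp only
  rw [levN_n]
  exact h y y' F r1 r2 z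

theorem triB_nearD (LB : Link D.cur x (tbl RB x) RB TB) (LL : Link D.cur x (tbl RL x) RL TL)
    (hσ : σ = 1 ∨ σ = -1) (hσ' : σ' = 1 ∨ σ' = -1)
    (h : ∀ y y', FactsB D.P a b c j k σ σ' y y' → D.r j y → D.r k (y + y') →
      VND N0 κ x y y' (exB D.P a c j k σ σ' y y') (vlB D.P RL TL a b c j k σ σ' x y y')
        (vlB D.P RB TB a b c j k σ σ' x y y')) :
    TriB D.cur (nearT (h0 * 0) N0 κ (h0 * x) (tbl RB x) (tbl RL x)) a b c j k σ σ' := by
  intro y y' H z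
  have e1 := D.linkX j a y H.q1
  have e2 := D.linkX k c (y + y') H.q3
  obtain ⟨F, r1, r2⟩ := H.factsV
  rw [valK_useB LB D.linkX hσ hσ' H, valK_useB LL D.linkX hσ hσ' H, exn_n, e1, e2]
  simp only
  rw [levN_n]
  exact h y y' F r1 r2 z

/-! ### Empty triples -/

section

variable {V : ℝ → ℝ → ℝ → ℝ → ((ℝ → Fin (n + 1) → ℝ) → ℝ × ℝ × ℝ) → Prop}

theorem triVA_j0 : TriA D.cur V 3 b c 0 k σ σ' := by
  intro y y' H
  exfalso
  have h1 := y_lt (H.factsV.1.j0 rfl)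
  have h2 := H.q1.1
  linarith

theorem triVA_k0 : TriA D.cur V a 3 c j 0 σ σ' := by
  intro y y' H
  exfalso
  have h1 := y_lt (H.factsV.1.k0 rfl)
  have h2 := H.q2.1
  linarith

theorem triVB_j0 : TriB D.cur V 3 b c 0 k σ σ' := by
  intro y y' H
  exfalso
  have h1 := y_lt (H.factsV.1.j0 rfl)
  have h2 := H.q1.1
  linarith

theorem triVB_k0 : TriB D.cur V a b 3 j 0 σ σ' := by
  intro y y' H
  exfalso
  have h1 := y_lt (H.factsV.1.k0 rfl)
  have h2 := H.q3.1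
  linarith

/-- The curve `j` is not a node in the quarter `a`. -/
theorem triVA_j (h : ∀ y, InQ a y → ¬D.r j y) : TriA D.cur V a b c j k σ σ' :=
  fun y _ H => absurd H.factsV.2.1 (h y H.q1)

/-- The curve `k` is not a node in the quarter `b`. -/
theorem triVA_k (h : ∀ y, InQ b y → ¬D.r k y) : TriA D.cur V a b c j k σ σ' :=
  fun _ y' H => absurd H.factsV.2.2 (h y' H.q2)

theorem triVB_j (h : ∀ y, InQ a y → ¬D.r j y) : TriB D.cur V a b c j k σ σ' :=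
  fun y _ H => absurd H.factsV.2.1 (h y H.q1)

/-- The curve `k` is not a node in the quarter `c`. -/
theorem triVB_k (h : ∀ y, InQ c y → ¬D.r k y) : TriB D.cur V a b c j k σ σ' :=
  fun y y' H => absurd H.factsV.2.2 (h (y + y') H.q3)

end

/-! ### The properties depend only on the values -/

theorem congr_farD {ι : Type} {K : Cur n ι} {κ s : ℝ} {vA vX : ℝ → ι → ℝ} (hA : K.adm vA)
    (hX : K.adm vX) : K.Congr (farD κ s vA vX) := by
  intro X12 X13 t t' w w' h hw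
  unfold farD at *
  rwa [← h vA hA, ← h vX hX]

theorem congr_nearT {ι : Type} {K : Cur n ι} {a κ s : ℝ} {N0 : ℕ} {vB vX : ℝ → ι → ℝ}
    (hB : K.adm vB) (hX : K.adm vX) : K.Congr (nearT a N0 κ s vB vX) := by
  intro X12 X13 t t' w w' h hw
  unfold nearT at *
  rwa [← h vB hB, ← h vX hX]

/-! ### The single point of the triple `2, 2, 3` -/

theorem valK_223V {R : Fin (n + 1) → ℕ → ℝ → ℝ → ℝ} (h : PinsV D R x) {j : Fin (n + 1)}
    (hd : D.cur.dm j h0) :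
    D.cur.valK (D.cur.cv j h0) 0 h0 h0 (tbl R x) = (R j 2 1 x, -R j 2 1 x, 0) := by
  have hp := h0_pos
  have q2 : InQ 2 (1 : ℝ) := ⟨le_rfl, by norm_num⟩
  have e : tbl R x h0 j = R j 2 1 x := by
    have := tbl_eq (R := R) (x := x) (i := j) q2
    rwa [mul_one] at this
  have k1 := D.cur.ker_cv h.adm (σ := 1) (Or.inl rfl) hp.le hd
  rw [one_mul, one_mul] at k1
  have k3 : ker D.cur.nodes (tbl R x) (fun _ _ => 0) 0 (h0 + h0) = 0 := PosQ.ker_at_zero _ _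
  unfold Cur.valK
  rw [k3, zero_sub, D.cur.ker_neg, k1]
  have e' : tbl R x h0 (D.cur.tg j) = R j 2 1 x := e
  rw [e']

theorem crv_oneV (j : Fin (n + 1)) : D.cur.cv j h0 = crv D.P j 2 1 := by
  have q2 : InQ 2 (1 : ℝ) := ⟨le_rfl, by norm_num⟩
  have := D.linkX j 2 1 q2
  rwa [mul_one] at this

theorem ngv_dir_223 {κ s ex R : ℝ} (h : 0 ≤ ex) (hκ : 0 ≤ κ) (h0s : 0 ≤ s) (h1s : s < h0)
    (z : ℝ) : 0 ≤ ex + kf κ s (R, -R, 0) h0 h0 z := by
  have hp := h0_pos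
  exact NGV.dir (ngv_223 h) hκ h0s h1s hp.le hp.le (by linarith) z

theorem at223_farD (hκ : 0 ≤ κ) (h0x : 0 ≤ x) (h1x : x < 1) (hA : PinsV D RA x)
    (hL : PinsV D RL x) : At223 D.cur (farD κ (h0 * x) (tbl RA x) (tbl RL x)) := by
  have hp := h0_pos
  intro j hj z
  rw [valK_223V hA hj, valK_223V hL hj, exn_223, crv_oneV]
  refine ngv_dir_223 ?_ hκ (mul_nonneg hp.le h0x) (by nlinarith) z
  have h := crv_one_ge (P := D.P) j
  have e : farXV (RL j 2 1 x, -RL j 2 1 x, 0) = 0 := by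
    unfold farXV
    ring
  rw [e, abs_zero]
  linarith

theorem at223_nearT (a : ℝ) (hκ : 0 ≤ κ) (h0x : 0 ≤ x) (h1x : x < 1) (hB : PinsV D RB x)
    (hL : PinsV D RL x) (h : ∀ j, 0 ≤ crv D.P j 2 1 - 1 / 2 + mun N0 x * RL j 2 1 x) :
    At223 D.cur (nearT a N0 κ (h0 * x) (tbl RB x) (tbl RL x)) := by
  have hp := h0_pos
  intro j hj z
  rw [valK_223V hB hj, valK_223V hL hj, exn_223, crv_oneV]
  refine ngv_dir_223 ?_ hκ (mul_nonneg hp.le h0x) (by nlinarith) z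
  simp only
  rw [lev_223, mu_n]
  exact h j

/-! ### The certificate -/

/-- The facts about the tables by quarters, direct form. -/
structure RowsV (D : PV n) (RA RB RL : Fin (n + 1) → ℕ → ℝ → ℝ → ℝ) (N0 : ℕ) (κ x : ℝ) :
    Prop where
  two : 2 ≤ N0
  κ0 : 0 ≤ κ
  x0 : 0 ≤ x
  x1 : x < 1
  pinA : PinsV D RA x
  pinB : PinsV D RB x
  pinL : PinsV D RL x
  one : ∀ j, 0 ≤ crv D.P j 2 1 - 1 / 2 + mun N0 x * RL j 2 1 x
  farA : ∀ j k, j ≤ k → AllTA D.cur (farD κ (h0 * x) (tbl RA x) (tbl RL x)) j k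
  farB : ∀ j k, AllTB D.cur (farD κ (h0 * x) (tbl RA x) (tbl RL x)) j k
  nearA : ∀ j k, j ≤ k → AllTA D.cur (nearT (h0 * 0) N0 κ (h0 * x) (tbl RB x) (tbl RL x)) j k
  nearB : ∀ j k, AllTB D.cur (nearT (h0 * 0) N0 κ (h0 * x) (tbl RB x) (tbl RL x)) j k

theorem RowsV.bdd (h : RowsV D RA RB RL N0 κ x) :
    ∃ C, ∀ T i, 0 ≤ T → T ^ 2 ≤ 3 →
      |tbl RA x T i| ≤ C ∧ |tbl RB x T i| ≤ C ∧ |tbl RL x T i| ≤ C := by
  obtain ⟨CA, hA⟩ := h.pinA.pins.abs
  obtain ⟨CB, hB⟩ := h.pinB.pins.abs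
  obtain ⟨CL, hL⟩ := h.pinL.pins.abs
  refine ⟨max CA (max CB CL), fun T i h1 h2 => ⟨?_, ?_, ?_⟩⟩
  · exact (hA T i h1 h2).trans (le_max_left _ _)
  · exact (hB T i h1 h2).trans ((le_max_left _ _).trans (le_max_right _ _))
  · exact (hL T i h1 h2).trans ((le_max_right _ _).trans (le_max_right _ _))

/-- **The certificate** from the rows. -/
theorem RowsV.certT (h : RowsV D RA RB RL N0 κ x) :
    CertT D.cur (tbl RA x) (tbl RB x) (tbl RL x) N0 (h0 * 0) κ (h0 * x) := by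
  have hp := h0_pos
  exact {
    two := h.two
    a0 := by rw [mul_zero]
    κ0 := h.κ0
    s0 := mul_nonneg hp.le h.x0
    s1 := by nlinarith [h.x1]
    admA := h.pinA.adm
    admB := h.pinB.adm
    admX := h.pinL.adm
    adm0 := by
      have h0 : D.Q.Adm (tbl RA x) := h.pinA.adm
      have h1 := h0.smul 0
      simp only [zero_mul] at h1
      exact h1
    bdd := h.bdd
    farA := fun j k hjk => (h.farA j k hjk).all (congr_farD h.pinA.adm h.pinL.adm)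
      (at223_farD h.κ0 h.x0 h.x1 h.pinA h.pinL)
    farB := fun j k => (h.farB j k).all (congr_farD h.pinA.adm h.pinL.adm)
      (at223_farD h.κ0 h.x0 h.x1 h.pinA h.pinL)
    nearA := fun j k hjk => (h.nearA j k hjk).all (congr_nearT h.pinB.adm h.pinL.adm)
      (at223_nearT _ h.κ0 h.x0 h.x1 h.pinB h.pinL h.one)
    nearB := fun j k => (h.nearB j k).all (congr_nearT h.pinB.adm h.pinL.adm)
      (at223_nearT _ h.κ0 h.x0 h.x1 h.pinB h.pinL h.one) }

end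

end Pool.Agent.Strip051.PB
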