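import Pool.Agent.Strip051.PB.StripC
import Pool.Agent.Strip051.PB.AltE
import Pool.Agent.Strip051.PB.CertV
import Pool.Agent.Strip051.PB.FactE

/-! # Strips of the tables with one kernel for both vertices

In a unit strip the slack at the far vertex vanishes on the tight triangles, so the far vertex gets
the strip tests; the near vertex gets a certificate of its own. -/

namespace Pool.Agent.Strip051.PB

open Pool.Agent.StripNear Pool.Agent.StripSquare Pool.Agent.Strip051.Sweep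
open Pool.Agent.Strip051.LC

attribute [local irreducible] padd psub pneg pmul psq pinv psqrt psqrtg pabs pps pmax pmin pphi plam
  pcase phf pnat prat pscale pnorm pdc pnc pone ppos pnn Enc

/-! ### The near vertex alone -/

/-- test at the near vertex; `En` is the factor of the kernel, `mo` the factor of the largest
difference of the third kernels `C1`, `C2`, `C3` -/
noncomputable def kNE (N0 : ℕ) (En mo : Fn1) (C1 C2 : Fn2) (C3 : Fn3) (fam s1 s2 : Bool) (cn : Con)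
    (a b c : ℕ) (n1 n2 : Node) (pc : Piece) (p q : ℕ) (g x y z t X Y ex : ℕ) : Bool :=
  (fun L1 L2 L3 D1 D2 D3 => tN (phn N0) (muT N0 x) x y z t
    (psub (psub ex (pmul (En.t x) (pnorm (phiR fam s1 s2 cn a b c n1 n2 pc p q g x y z t X Y))))
      (pmul (mo.t x) (pnorm (wdT D1 (sl fam D2 D3) (sl fam D3 D2)))))
    L1 (sl fam L2 L3) (sl fam L3 L2))
    (sg s1 (n1.L.t p x)) (sg s2 (n2.L.t q x)) (pc.L.t X Y x)
    (sg s1 (C1.t p x)) (sg s2 (C2.t q x)) (C3.t X Y x)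

/-- test function of a subfamily, near vertex of a table with one kernel for both vertices -/
noncomputable def rowNE (N0 : ℕ) (En mo : Fn1) (C1 C2 : Fn2) (C3 : Fn3) (co : ℕ)
    (fam s1 s2 : Bool) (cn : Con) (a b c : ℕ) (Q : Qs) (n1 n2 : Node) (pc : Piece) (cut : Cut)
    (xt : Ext) (h u v x : ℕ) : Bool :=
  crds co fam n1 n2 Q
    (leaf fam s1 s2 n1 n2 cut xt (kNE N0 En mo C1 C2 C3 fam s1 s2 cn a b c n1 n2 pc) h x) u v

/-- The inequality at the near vertex. -/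
def NeG (N0 : ℕ) (En mo : Fn1) (C1 C2 : Fn2) (C3 : Fn3) (fam s1 s2 : Bool) (cn : Con)
    (a b c : ℕ) (n1 n2 : Node) (pc : Piece) (p q x : ℝ) : Prop :=
  ∃ g, En.v x * (valR fam s1 s2 n1 n2 pc p q x).phi cn a b c g <
    levN N0 0 x (valR fam s1 s2 n1 n2 pc p q x).y (valR fam s1 s2 n1 n2 pc p q x).z
      (valR fam s1 s2 n1 n2 pc p q x).ex (valR fam s1 s2 n1 n2 pc p q x).l1
      (valR fam s1 s2 n1 n2 pc p q x).l2 (valR fam s1 s2 n1 n2 pc p q x).l3 -
    mo.v x * wdR (valC fam s1 s2 C1 C2 C3 n1 n2 pc p q x).1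
      (valC fam s1 s2 C1 C2 C3 n1 n2 pc p q x).2.1
      (valC fam s1 s2 C1 C2 C3 n1 n2 pc p q x).2.2

/-- The statement of a row for the near vertex alone. -/
def NeR (N0 : ℕ) (En mo : Fn1) (C1 C2 : Fn2) (C3 : Fn3) (fam s1 s2 : Bool) (cn : Con)
    (a b c : ℕ) (n1 n2 : Node) (pc : Piece) (cut : Cut) (xt : Ext) (p q x : ℝ) : Prop :=
  (valR fam s1 s2 n1 n2 pc p q x).alt (cond fam c b) cut ∨ xt.P p q x ∨
    NeG N0 En mo C1 C2 C3 fam s1 s2 cn a b c n1 n2 pc p q x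

theorem kNE_sound {E : Pt} {N0 : ℕ} {En mo : Fn1} {C1 C2 : Fn2} {C3 : Fn3} {fam s1 s2 : Bool}
    {a b c : ℕ} {cn : Con} (hc : con a b c = some cn) {n1 n2 : Node} {pc : Piece} {P Q X : ℕ}
    {p q x : ℝ} (hp : Enc E P p) (hq : Enc E Q q) (hx : Enc E X x) (g : ℕ) {A Z T U Y F : ℕ}
    {ex : ℝ} (hA : Enc E A (valR fam s1 s2 n1 n2 pc p q x).y)
    (hZ : Enc E Z (valR fam s1 s2 n1 n2 pc p q x).z)
    (hT : Enc E T ((valR fam s1 s2 n1 n2 pc p q x).y + (valR fam s1 s2 n1 n2 pc p q x).z))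
    (hU : Enc E U (valR fam s1 s2 n1 n2 pc p q x).X)
    (hY : Enc E Y (valR fam s1 s2 n1 n2 pc p q x).Y)
    (hF : Enc E F ex) (he : ex ≤ (valR fam s1 s2 n1 n2 pc p q x).ex)
    (h : kNE N0 En mo C1 C2 C3 fam s1 s2 cn a b c n1 n2 pc P Q g X A Z T U Y F = true) :
    NeG N0 En mo C1 C2 C3 fam s1 s2 cn a b c n1 n2 pc p q x := by
  have hP := enc_phiR hc hp hq hx g hA hZ hT hU hY (valR fam s1 s2 n1 n2 pc p q x).ex
  obtain ⟨e1, e2, e3⟩ := enc_lev hp hq hx hU hY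
  obtain ⟨d1, d2, d3⟩ := enc_valC (C1 := C1) (C2 := C2) (C3 := C3) hp hq hx hU hY
  have k2 := tN_sound (enc_muT N0 hx) hx hA hZ hT
    (enc_sub (enc_sub hF (enc_mul (En.enc hx) (enc_norm hP))) (enc_mul (mo.enc hx) (enc_norm (enc_wdT d1 d2 d3))))
    e1 e2 e3 h
  refine ⟨gar g, ?_⟩
  unfold Val.phi levN
  rw [valR_x]
  linarith

/-- The certificate of a row for the near vertex alone. -/
abbrev CertNE (P1 W1 P2 W2 P3 W3 N0 : ℕ) (En mo : Fn1) (C1 C2 : Fn2) (C3 : Fn3)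
    (fam s1 s2 : Bool) (cn : Con) (a b c : ℕ) (n1 n2 : Node) (pc : Piece) (cut : Cut) (xt : Ext) :
    Prop :=
  Cert P1 W1 P2 W2 P3 W3 (NeR N0 En mo C1 C2 C3 fam s1 s2 cn a b c n1 n2 pc cut xt)

section

variable {fam s1 s2 : Bool} {a b c N0 : ℕ} {En mo : Fn1} {C1 C2 : Fn2} {C3 : Fn3} {cn : Con}
  {n1 n2 : Node} {pc : Piece} {cut : Cut} {xt : Ext} {P1 W1 P2 W2 P3 W3 : ℕ}

theorem snd_kNE (hc : con a b c = some cn) : Snd fam s1 s2 n1 n2 pc
    (kNE N0 En mo C1 C2 C3 fam s1 s2 cn a b c n1 n2 pc)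
    (NeG N0 En mo C1 C2 C3 fam s1 s2 cn a b c n1 n2 pc) :=
  fun h1 h2 h3 g _ _ _ _ _ _ _ hA hZ hT hU hY hF he hk =>
    kNE_sound hc h1 h2 h3 g hA hZ hT hU hY hF he hk

/-- **A row for the near vertex alone** from its certificate, coordinates of both nodes. -/
theorem certNE0 (hc : con a b c = some cn) (ht : ∃ t, chk3 (onCell P1 W1 P2 W2 P3 W3
      (rowNE N0 En mo C1 C2 C3 0 fam s1 s2 cn a b c
        (qsf P1 W1 P2 W2 (cond fam c b)) n1 n2 pc cut xt)) t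
      1 1 1 = true) :
    CertNE P1 W1 P2 W2 P3 W3 N0 En mo C1 C2 C3 fam s1 s2 cn a b c n1 n2 pc cut xt :=
  crd0_sound (snd_kNE hc) ht

/-- **A row for the near vertex alone** from its certificate, first node and third height. -/
theorem certNE1 (hc : con a b c = some cn) (hid : ∀ q, n2.Y.v q = q)
    (ht : ∃ t, chk3 (onCell P1 W1 (Nat.mul (cond fam c b) 536870912) 536870912 P3 W3
      (rowNE N0 En mo C1 C2 C3 1 fam s1 s2 cn a b c
        (qsf P1 W1 P2 W2 (cond fam c b)) n1 n2 pc cut xt)) t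
      1 1 1 = true) :
    CertNE P1 W1 P2 W2 P3 W3 N0 En mo C1 C2 C3 fam s1 s2 cn a b c n1 n2 pc cut xt :=
  crd1_sound (snd_kNE hc) hid ht

/-- **A row for the near vertex alone** from its certificate, third height and second node. -/
theorem certNE2 (hc : con a b c = some cn) (hid : ∀ p, n1.Y.v p = p)
    (ht : ∃ t, chk3 (onCell (Nat.mul (cond fam c b) 536870912) 536870912 P2 W2 P3 W3
      (rowNE N0 En mo C1 C2 C3 2 fam s1 s2 cn a b c
        (qsf P1 W1 P2 W2 (cond fam c b)) n1 n2 pc cut xt)) t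
      1 1 1 = true) :
    CertNE P1 W1 P2 W2 P3 W3 N0 En mo C1 C2 C3 fam s1 s2 cn a b c n1 n2 pc cut xt :=
  crd2_sound (snd_kNE hc) hid ht

end

/-! ### The direct statement at the near vertex -/

section

variable {κ x y y' e E o g : ℝ} {N0 a b c : ℕ} {cn : Con} {f : ℝ → ℝ} {r l d : ℝ × ℝ × ℝ}

theorem mun_nnE (N0 : ℕ) (x : ℝ) : 0 ≤ mun N0 x := by
  unfold mun c1n
  positivity

/-- From the values of the slack with the level of the near vertex to the direct statement. -/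
theorem ne_dir (hκ0 : 0 ≤ κ) (h0x : 0 ≤ x) (h1x : x < 1) (y0 : 0 ≤ y) (y0' : 0 ≤ y')
    (y2 : y + y' ≤ 2) (hE : 0 < E) (hf : Continuous f)
    (hosc : ∀ u v, |∫ t in u..v, f t| ≤ h0 * o)
    (hngv : ∀ lev, 0 ≤ slt cn a b c lev (κ * h0) x y y' r g →
      NGV κ (h0 * x) lev (h0 * y) (h0 * y') r)
    (h : 0 ≤ lvN N0 0 x y y' e l - mun N0 x * (o * widn d.1 d.2.1 d.2.2) +
      E * slt cn a b c 0 (κ * h0) x y y' r g) (z : ℝ) :
    0 ≤ lvN N0 0 x y y' e l + E * kf κ (h0 * x) r (h0 * y) (h0 * y') z +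
      mun N0 x * pf f (dimC d) (h0 * y) (h0 * y') z := by
  have hp := h0_pos
  have hne : h0 ≠ 0 := hp.ne'
  have hμ := mun_nnE N0 x
  have e1 : h0 * o * wid (dimC d) = o * widn d.1 d.2.1 d.2.2 := by
    have e2 : wid (dimC d) = widn (h0⁻¹ * d.1) (h0⁻¹ * d.2.1) (h0⁻¹ * d.2.2) := rfl
    rw [e2, widn_smul (inv_nonneg.2 hp.le)]
    field_simp
  obtain ⟨lev, hlev⟩ : ∃ lev, lev =
      (lvN N0 0 x y y' e l - mun N0 x * (o * widn d.1 d.2.1 d.2.2)) / E := ⟨_, rfl⟩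
  have hl : E * lev = lvN N0 0 x y y' e l - mun N0 x * (o * widn d.1 d.2.1 d.2.2) := by
    rw [hlev, mul_div_cancel₀ _ hE.ne']
  have h1 : 0 ≤ slt cn a b c lev (κ * h0) x y y' r g := by
    rw [slt_add]
    have h2 : 0 ≤ E * (lev + slt cn a b c 0 (κ * h0) x y y' r g) := by
      rw [mul_add, hl]
      exact h
    exact nonneg_of_mul_nonneg_right h2 hE
  have h3 := NGV.dir (hngv lev h1) hκ0 (mul_nonneg hp.le h0x) (by nlinarith)
    (mul_nonneg hp.le y0) (mul_nonneg hp.le y0') (by nlinarith) z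
  have h4 := mul_nonneg hE.le h3
  rw [mul_add, hl] at h4
  have h5 := pf_abs hf hosc (dimC d) (h0 * y) (h0 * y') z
  rw [e1] at h5
  have h6 := mul_le_mul_of_nonneg_left (abs_le.1 h5).1 hμ
  linarith

end

/-! ### The far vertex, direct statement -/

section

variable {n : ℕ} {P : Pos n} {RK RL RC : Fin (n + 1) → ℕ → ℝ → ℝ → ℝ} {pc : ℕ → Piece}
  {pd : ℕ → Fn3} {j k : Fin (n + 1)} {a b c N0 : ℕ} {s1 s2 : Bool} {σ σ' x κ o E : ℝ} {cn : Con}
  {n1 n2 : Node} {f : ℝ → ℝ} {P1 W1 P2 W2 P3 W3 : ℕ} {xt : Ext} {L : List (List Cc)} {m : ℕ}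
  {cut : Cut}

/-- The cover without the third table. -/
theorem CovC.cov {nd : Node} {c1 : Fn2} {q W W' : ℕ} {V : ℝ → Prop}
    (h : CovC P RK RL RC nd c1 j q W W' V x) : Cov P RK RL nd j q W W' V x := by
  intro y hy hv
  obtain ⟨p, h1, h2⟩ := h y hy hv
  exact ⟨p, h1.toAt, h2⟩

/-- The far half of the statement for both vertices. -/
theorem Both.far {lv y y' e : ℝ} {r l c : ℝ × ℝ × ℝ} (hκ0 : 0 ≤ κ) (h0x : 0 ≤ x) (h1x : x < 1)
    (y0 : 0 ≤ y) (y0' : 0 ≤ y') (y2 : y + y' ≤ 2)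
    (h : Both N0 lv κ E o f x y y' e r l c) : VFD κ x y y' e l r := by
  have hp := h0_pos
  intro z
  rcases h with h | ⟨h, -⟩
  · have h1 := NGV.dir h hκ0 (mul_nonneg hp.le h0x) (by nlinarith) (mul_nonneg hp.le y0)
      (mul_nonneg hp.le y0') (by nlinarith) z
    have h2 := lvE_far (N0 := N0) (lv := lv) (E := E) (o := o) (x := x) (y := y) (y' := y') e l c
    linarith
  · exact h z

theorem CutEA.dir (hκ0 : 0 ≤ κ) (h0x : 0 ≤ x) (h1x : x < 1)
    (H : CutEA N0 κ E o f P RK RL RC pc pd cut a b c j k σ σ' x) :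
    CutA (VFD κ) P RK RL pc cut a b c j k σ σ' x := fun y y' F h =>
  Both.far hκ0 h0x h1x F.q1.nonneg F.q2.nonneg F.q3.le_two (H y y' F h)

theorem CutEB.dir (hκ0 : 0 ≤ κ) (h0x : 0 ≤ x) (h1x : x < 1)
    (H : CutEB N0 κ E o f P RK RL RC pc pd cut a b c j k σ σ' x) :
    CutB (VFD κ) P RK RL pc cut a b c j k σ σ' x := fun y y' F h =>
  Both.far hκ0 h0x h1x F.q1.nonneg F.q2.nonneg F.q3.le_two (H y y' F h)

/-- **A strip as an alternative at the far vertex**, direct statement, family `A`. -/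
theorem strip_altAD (w : Bool) (hc : con a b c = some cn) (hκ : κ * h0 = ken x) (hκ0 : 0 ≤ κ)
    (h0x : 0 ≤ x) (h1x : x < 1)
    (b1 : Cov P RK RL n1 j a P1 W1 (fun _ => True) x)
    (b2 : Cov P RK RL n2 k b P2 W2 (fun _ => True) x)
    (x1 : (P3 : ℝ) / S ≤ x) (x2 : x ≤ ((P3 : ℝ) + W3) / S)
    (ht : CertF P1 W1 P2 W2 P3 W3 true s1 s2 cn a b c n1 n2 (pc c)
      (Cut.of ([cc3 (!w) m] :: L)) xt)
    (H : CutA (VFD κ) P RK RL pc (Cut.of L) a b c j k (sgb s1) (sgb s2) x)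
    (hxt : ExtA (VF κ) P RK RL pc xt n1 n2 a b c j k (sgb s1) (sgb s2) x) :
    AltA (VFD κ) P RK RL pc [cc3 w m] a b c j k (sgb s1) (sgb s2) x := by
  intro y y' F h
  by_cases hL : (Cut.of L).P x y y' (sgb s1 * crv P j a y + sgb s2 * crv P k b y') (y + y')
  · exact H y y' F hL
  have hcut : ¬ (Cut.of ([cc3 (!w) m] :: L)).P x y y'
      (sgb s1 * crv P j a y + sgb s2 * crv P k b y') (y + y') := by
    rintro ⟨l, hl, hP⟩
    rcases List.mem_cons.1 hl with rfl | hl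
    · exact (cc3_not w (h _ List.mem_cons_self) (hP _ List.mem_cons_self)).elim
    · exact hL ⟨l, hl, hP⟩
  obtain ⟨p, A1, g1, g2⟩ := b1 y F.on1 trivial
  obtain ⟨p', A2, g3, g4⟩ := b2 y' F.on2 trivial
  have hfar : StA (VF κ) P RK RL pc a b c j k (sgb s1) (sgb s2) x y y' :=
    FarR.stA A1 A2 F hc hκ (ht ⟨g1, g2⟩ ⟨g3, g4⟩ ⟨x1, x2⟩) (fun h' => absurd h' hcut)
      (hxt y y' p p' F A1 A2)
  exact VF.dir hfar hκ0 h0x h1x F.q1.nonneg F.q2.nonneg F.q3.le_two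

/-- **A strip as an alternative at the far vertex**, direct statement, family `B`. -/
theorem strip_altBD (w : Bool) (hc : con a b c = some cn) (hκ : κ * h0 = ken x) (hκ0 : 0 ≤ κ)
    (h0x : 0 ≤ x) (h1x : x < 1)
    (b1 : Cov P RK RL n1 j a P1 W1 (fun _ => True) x)
    (b2 : Cov P RK RL n2 k c P2 W2 (fun _ => True) x)
    (x1 : (P3 : ℝ) / S ≤ x) (x2 : x ≤ ((P3 : ℝ) + W3) / S)
    (ht : CertF P1 W1 P2 W2 P3 W3 false s1 s2 cn a b c n1 n2 (pc b)
      (Cut.of ([cc3 (!w) m] :: L)) xt)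
    (H : CutB (VFD κ) P RK RL pc (Cut.of L) a b c j k (sgb s1) (sgb s2) x)
    (hxt : ExtB (VF κ) P RK RL pc xt n1 n2 a b c j k (sgb s1) (sgb s2) x) :
    AltB (VFD κ) P RK RL pc [cc3 w m] a b c j k (sgb s1) (sgb s2) x := by
  intro y y' F h
  by_cases hL : (Cut.of L).P x y y' (sgb s2 * crv P k c (y + y') - sgb s1 * crv P j a y) y'
  · exact H y y' F hL
  have hcut : ¬ (Cut.of ([cc3 (!w) m] :: L)).P x y y'
      (sgb s2 * crv P k c (y + y') - sgb s1 * crv P j a y) y' := by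
    rintro ⟨l, hl, hP⟩
    rcases List.mem_cons.1 hl with rfl | hl
    · exact (cc3_not w (h _ List.mem_cons_self) (hP _ List.mem_cons_self)).elim
    · exact hL ⟨l, hl, hP⟩
  obtain ⟨p, A1, g1, g2⟩ := b1 y F.on1 trivial
  obtain ⟨p', A2, g3, g4⟩ := b2 (y + y') F.on3 trivial
  have hfar : StB (VF κ) P RK RL pc a b c j k (sgb s1) (sgb s2) x y y' :=
    FarR.stB A1 A2 F hc hκ (ht ⟨g1, g2⟩ ⟨g3, g4⟩ ⟨x1, x2⟩) (fun h' => absurd h' hcut)
      (hxt y y' p p' F A1 A2)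
  exact VF.dir hfar hκ0 h0x h1x F.q1.nonneg F.q2.nonneg F.q3.le_two

end

/-! ### The strips as alternatives for both vertices -/

section

variable {n : ℕ} {P : Pos n} {RK RL RC : Fin (n + 1) → ℕ → ℝ → ℝ → ℝ} {pc : ℕ → Piece}
  {pd : ℕ → Fn3} {j k : Fin (n + 1)} {a b c N0 : ℕ} {s1 s2 : Bool} {x κ o : ℝ} {cn : Con}
  {m1 m2 : Node} {c1 c2 : Fn2} {En mo ef : Fn1} {f : ℝ → ℝ}
  {Q1 V1 Q2 V2 Q3 V3 : ℕ} {xn : Ext} {L : List (List Cc)} {m : ℕ}

/-- **A strip as an alternative for both vertices**, family `A`: the alternative at the far vertex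
and a certificate for the near vertex. -/
theorem strip_altEA (w : Bool) (hc : con a b c = some cn) (hκ : κ * h0 = ken x) (hκ0 : 0 ≤ κ)
    (h0x : 0 ≤ x) (h1x : x < 1) (hE : 0 < En.v x) (hef : 0 ≤ ef.v x)
    (ho : mo.v x = mun N0 x * (ef.v x * o)) (hf : Continuous f)
    (hosc : ∀ u v, |∫ t in u..v, f t| ≤ h0 * o)
    (d1 : CovC P RK RL RC m1 (Fn2.sc ef c1) j a Q1 V1 (fun _ => True) x)
    (d2 : CovC P RK RL RC m2 (Fn2.sc ef c2) k b Q2 V2 (fun _ => True) x)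
    (x3 : (Q3 : ℝ) / S ≤ x) (x4 : x ≤ ((Q3 : ℝ) + V3) / S)
    (hN : CertNE Q1 V1 Q2 V2 Q3 V3 N0 En mo c1 c2 (pd c) true s1 s2 cn a b c m1 m2 (pc c)
      (Cut.of ([cc3 (!w) m] :: L)) xn)
    (hxn : ExtEA N0 κ (En.v x) o f P RK RL RC pc (fun q => Fn3.sc ef (pd q)) xn m1 m2
      (Fn2.sc ef c1) (Fn2.sc ef c2) a b c j k (sgb s1) (sgb s2) x)
    (hF : AltA (VFD κ) P RK RL pc [cc3 w m] a b c j k (sgb s1) (sgb s2) x)
    (H : CutEA N0 κ (En.v x) o f P RK RL RC pc (fun q => Fn3.sc ef (pd q)) (Cut.of L)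
      a b c j k (sgb s1) (sgb s2) x) :
    AltEA N0 κ (En.v x) o f P RK RL RC pc (fun q => Fn3.sc ef (pd q)) [cc3 w m]
      a b c j k (sgb s1) (sgb s2) x := by
  intro y y' F h
  by_cases hL : (Cut.of L).P x y y' (sgb s1 * crv P j a y + sgb s2 * crv P k b y') (y + y')
  · exact H y y' F hL
  have hcut : ¬ (Cut.of ([cc3 (!w) m] :: L)).P x y y'
      (sgb s1 * crv P j a y + sgb s2 * crv P k b y') (y + y') := by
    rintro ⟨l, hl, hP⟩
    rcases List.mem_cons.1 hl with rfl | hl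
    · exact (cc3_not w (h _ List.mem_cons_self) (hP _ List.mem_cons_self)).elim
    · exact hL ⟨l, hl, hP⟩
  obtain ⟨q, B1, g5, g6⟩ := d1 y F.on1 trivial
  obtain ⟨q', B2, g7, g8⟩ := d2 y' F.on2 trivial
  have y0 := F.q1.nonneg
  have y0' := F.q2.nonneg
  have y2 := F.q3.le_two
  have hdir := hF y y' F h
  have hn := hN ⟨g5, g6⟩ ⟨g7, g8⟩ ⟨x3, x4⟩
  unfold NeR NeG at hn
  rw [valR_A B1.toAt B2.toAt, ho] at hn
  have hv := valC_A (s1 := s1) (s2 := s2) (pd := pd) (c := c) (pc := pc) B1 B2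
  rcases hn with (hn | hn) | hn | ⟨g, h2⟩
  · exact absurd hn (F.notOut rfl rfl rfl)
  · exact absurd hn hcut
  · exact hxn y y' q q' F B1 B2 hn
  · refine Or.inr ⟨hdir, ?_⟩
    refine ne_dir (g := g) (cn := cn) (a := a) (b := b) (c := c) hκ0 h0x h1x y0 y0' y2 hE hf hosc
      (fun lev hl => F.ngv hc ⟨g, hl⟩) ?_
    have e := slt_add cn a b c (exA P a b j k (sgb s1) (sgb s2) y y') (ken x) x y y'
      (vlA P RK (fun q => (pc q).K.v) a b c j k (sgb s1) (sgb s2) x y y') g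
    have h2' : En.v x * (exA P a b j k (sgb s1) (sgb s2) y y' - slt cn a b c
        (exA P a b j k (sgb s1) (sgb s2) y y') (ken x) x y y'
        (vlA P RK (fun q => (pc q).K.v) a b c j k (sgb s1) (sgb s2) x y y') g) <
        lvN N0 0 x y y' (exA P a b j k (sgb s1) (sgb s2) y y')
          (vlA P RL (fun q => (pc q).L.v) a b c j k (sgb s1) (sgb s2) x y y') -
        mun N0 x * (ef.v x * o) * widn
          (valC true s1 s2 c1 c2 (pd c) m1 m2 (pc c) q q' x).1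
          (valC true s1 s2 c1 c2 (pd c) m1 m2 (pc c) q q' x).2.1
          (valC true s1 s2 c1 c2 (pd c) m1 m2 (pc c) q q' x).2.2 := h2
    have ew : widn (smV (ef.v x) (valC true s1 s2 c1 c2 (pd c) m1 m2 (pc c) q q' x)).1
        (smV (ef.v x) (valC true s1 s2 c1 c2 (pd c) m1 m2 (pc c) q q' x)).2.1
        (smV (ef.v x) (valC true s1 s2 c1 c2 (pd c) m1 m2 (pc c) q q' x)).2.2 =
        ef.v x * widn (valC true s1 s2 c1 c2 (pd c) m1 m2 (pc c) q q' x).1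
          (valC true s1 s2 c1 c2 (pd c) m1 m2 (pc c) q q' x).2.1
          (valC true s1 s2 c1 c2 (pd c) m1 m2 (pc c) q q' x).2.2 := widn_smul hef _ _ _
    rw [← hv] at ew
    rw [hκ, ew]
    have e3 : exA P a b j k (sgb s1) (sgb s2) y y' - slt cn a b c
        (exA P a b j k (sgb s1) (sgb s2) y y') (ken x) x y y'
        (vlA P RK (fun q => (pc q).K.v) a b c j k (sgb s1) (sgb s2) x y y') g =
        -(slt cn a b c 0 (ken x) x y y'
        (vlA P RK (fun q => (pc q).K.v) a b c j k (sgb s1) (sgb s2) x y y') g) := by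
      linarith
    rw [e3] at h2'
    linarith

/-- **A strip as an alternative for both vertices**, family `B`. -/
theorem strip_altEB (w : Bool) (hc : con a b c = some cn) (hκ : κ * h0 = ken x) (hκ0 : 0 ≤ κ)
    (h0x : 0 ≤ x) (h1x : x < 1) (hE : 0 < En.v x) (hef : 0 ≤ ef.v x)
    (ho : mo.v x = mun N0 x * (ef.v x * o)) (hf : Continuous f)
    (hosc : ∀ u v, |∫ t in u..v, f t| ≤ h0 * o)
    (d1 : CovC P RK RL RC m1 (Fn2.sc ef c1) j a Q1 V1 (fun _ => True) x)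
    (d2 : CovC P RK RL RC m2 (Fn2.sc ef c2) k c Q2 V2 (fun _ => True) x)
    (x3 : (Q3 : ℝ) / S ≤ x) (x4 : x ≤ ((Q3 : ℝ) + V3) / S)
    (hN : CertNE Q1 V1 Q2 V2 Q3 V3 N0 En mo c1 c2 (pd b) false s1 s2 cn a b c m1 m2 (pc b)
      (Cut.of ([cc3 (!w) m] :: L)) xn)
    (hxn : ExtEB N0 κ (En.v x) o f P RK RL RC pc (fun q => Fn3.sc ef (pd q)) xn m1 m2
      (Fn2.sc ef c1) (Fn2.sc ef c2) a b c j k (sgb s1) (sgb s2) x)
    (hF : AltB (VFD κ) P RK RL pc [cc3 w m] a b c j k (sgb s1) (sgb s2) x)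
    (H : CutEB N0 κ (En.v x) o f P RK RL RC pc (fun q => Fn3.sc ef (pd q)) (Cut.of L)
      a b c j k (sgb s1) (sgb s2) x) :
    AltEB N0 κ (En.v x) o f P RK RL RC pc (fun q => Fn3.sc ef (pd q)) [cc3 w m]
      a b c j k (sgb s1) (sgb s2) x := by
  intro y y' F h
  by_cases hL : (Cut.of L).P x y y' (sgb s2 * crv P k c (y + y') - sgb s1 * crv P j a y) y'
  · exact H y y' F hL
  have hcut : ¬ (Cut.of ([cc3 (!w) m] :: L)).P x y y'
      (sgb s2 * crv P k c (y + y') - sgb s1 * crv P j a y) y' := by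
    rintro ⟨l, hl, hP⟩
    rcases List.mem_cons.1 hl with rfl | hl
    · exact (cc3_not w (h _ List.mem_cons_self) (hP _ List.mem_cons_self)).elim
    · exact hL ⟨l, hl, hP⟩
  obtain ⟨q, B1, g5, g6⟩ := d1 y F.on1 trivial
  obtain ⟨q', B2, g7, g8⟩ := d2 (y + y') F.on3 trivial
  have y0 := F.q1.nonneg
  have y0' := F.q2.nonneg
  have y2 := F.q3.le_two
  have hdir := hF y y' F h
  have hn := hN ⟨g5, g6⟩ ⟨g7, g8⟩ ⟨x3, x4⟩
  unfold NeR NeG at hn
  rw [valR_B B1.toAt B2.toAt, ho] at hn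
  have hv := valC_B (s1 := s1) (s2 := s2) (pd := pd) (b := b) (pc := pc) B1 B2
  rcases hn with (hn | hn) | hn | ⟨g, h2⟩
  · exact absurd hn (F.notOut rfl rfl rfl)
  · exact absurd hn hcut
  · exact hxn y y' q q' F B1 B2 hn
  · refine Or.inr ⟨hdir, ?_⟩
    refine ne_dir (g := g) (cn := cn) (a := a) (b := b) (c := c) hκ0 h0x h1x y0 y0' y2 hE hf hosc
      (fun lev hl => F.ngv hc ⟨g, hl⟩) ?_
    have e := slt_add cn a b c (exB P a c j k (sgb s1) (sgb s2) y y') (ken x) x y y'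
      (vlB P RK (fun q => (pc q).K.v) a b c j k (sgb s1) (sgb s2) x y y') g
    have h2' : En.v x * (exB P a c j k (sgb s1) (sgb s2) y y' - slt cn a b c
        (exB P a c j k (sgb s1) (sgb s2) y y') (ken x) x y y'
        (vlB P RK (fun q => (pc q).K.v) a b c j k (sgb s1) (sgb s2) x y y') g) <
        lvN N0 0 x y y' (exB P a c j k (sgb s1) (sgb s2) y y')
          (vlB P RL (fun q => (pc q).L.v) a b c j k (sgb s1) (sgb s2) x y y') -
        mun N0 x * (ef.v x * o) * widn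
          (valC false s1 s2 c1 c2 (pd b) m1 m2 (pc b) q q' x).1
          (valC false s1 s2 c1 c2 (pd b) m1 m2 (pc b) q q' x).2.1
          (valC false s1 s2 c1 c2 (pd b) m1 m2 (pc b) q q' x).2.2 := h2
    have ew : widn (smV (ef.v x) (valC false s1 s2 c1 c2 (pd b) m1 m2 (pc b) q q' x)).1
        (smV (ef.v x) (valC false s1 s2 c1 c2 (pd b) m1 m2 (pc b) q q' x)).2.1
        (smV (ef.v x) (valC false s1 s2 c1 c2 (pd b) m1 m2 (pc b) q q' x)).2.2 =
        ef.v x * widn (valC false s1 s2 c1 c2 (pd b) m1 m2 (pc b) q q' x).1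
          (valC false s1 s2 c1 c2 (pd b) m1 m2 (pc b) q q' x).2.1
          (valC false s1 s2 c1 c2 (pd b) m1 m2 (pc b) q q' x).2.2 := widn_smul hef _ _ _
    rw [← hv] at ew
    rw [hκ, ew]
    have e3 : exB P a c j k (sgb s1) (sgb s2) y y' - slt cn a b c
        (exB P a c j k (sgb s1) (sgb s2) y y') (ken x) x y y'
        (vlB P RK (fun q => (pc q).K.v) a b c j k (sgb s1) (sgb s2) x y y') g =
        -(slt cn a b c 0 (ken x) x y y'
        (vlB P RK (fun q => (pc q).K.v) a b c j k (sgb s1) (sgb s2) x y y') g) := by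
      linarith
    rw [e3] at h2'
    linarith

end

end Pool.Agent.Strip051.PB
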