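import Pool.Agent.Strip051.PB.ExtD

/-! # Leaves of type D, both signs

Second version of the leaves of type D: the difference of the third kernels which meets the short
edge may have either sign, the threshold `th` and the range of the short edge are parameters. -/

namespace Pool.Agent.Strip051.PB

attribute [local irreducible] padd psub pneg pmul psq pinv psqrt psqrtg pabs pps pmax pmin pphi plam
  pcase phf pnat prat pscale pnorm pdc pnc pone pzero ppos pnn Enc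

/-! ### Real side -/

/-- The constants: `q = 1 / th - 1`, the threshold `th`, the constant `K` of the short edge for a
nonnegative difference, `K1` and `K2` for a nonpositive one (any slant, nonpositive slant), the
range `A` below the rest. -/
structure DPar where
  q : ℝ
  th : ℝ
  K : ℝ
  K1 : ℝ
  K2 : ℝ
  A : ℝ

/-- the effective slant -/
noncomputable def beR (i : ℕ) (V : Val) : ℝ :=
  kr4 i (dbR i V) (dbR i V) (-dbR i V) (-dbR i V)

/-- the gain of the interior kind `m / 16` without the factor -/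
noncomputable def vpR (m n : ℕ) (P : DPar) (o : ℝ) : ℝ :=
  ((m * n : ℕ) : ℝ) / (256 : ℕ) * o - P.th / 4 * o

/-- condition of the gain `m / 16`, `n = 16 - m` -/
def Gc2 (m n : ℕ) (P : DPar) (x al : ℝ) : Prop :=
  (m : ℝ) / (16 : ℕ) * (1 - x) ≤ al ∧ al ≤ (n : ℝ) / (16 : ℕ) * (1 - x) ∧
    vpR m n P x ≤ ((4 : ℕ) : ℝ) / (5 : ℕ) * (P.K * ((n : ℝ) / (16 : ℕ) * (1 - x) - al))

/-- value of a gain -/
noncomputable def gv2R (j : ℕ) (P : DPar) (x al : ℝ) : ℝ :=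
  match j with
  | 0 => -(P.q * (al ^ 2 * x⁻¹))
  | 1 => 0
  | 2 => P.q * (al ^ 2 * (1 - x)⁻¹)
  | 3 => vpR 2 14 P (1 - x)
  | 4 => vpR 3 13 P (1 - x)
  | 5 => vpR 4 12 P (1 - x)
  | 6 => vpR 6 10 P (1 - x)
  | _ => vpR 8 8 P (1 - x)

/-- condition of a gain -/
def Gain2R (j : ℕ) (P : DPar) (x al : ℝ) : Prop :=
  match j with
  | 0 => True
  | 1 => 0 ≤ al
  | 2 => 0 ≤ al ∧ al ≤ P.th / 2 * (1 - x)
  | 3 => Gc2 2 14 P x al
  | 4 => Gc2 3 13 P x al
  | 5 => Gc2 4 12 P x al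
  | 6 => Gc2 6 10 P x al
  | _ => Gc2 8 8 P x al

/-- value of a loss -/
noncomputable def lv2R (j : ℕ) (P : DPar) (x al : ℝ) : ℝ :=
  match j with
  | 0 => P.q * (al ^ 2 * (1 - x)⁻¹)
  | 1 => 0
  | 2 => al - al ^ 2 * (1 - x)⁻¹ - P.th / 4 * (1 - x)
  | _ => vpR 8 8 P (1 - x)

/-- condition of a loss -/
def Loss2R (j : ℕ) (P : DPar) (x al : ℝ) : Prop :=
  match j with
  | 0 => True
  | 1 => al ≤ 0
  | 2 => P.th / 2 * (1 - x) ≤ al ∧ al ≤ (1 - x) / 2
  | _ => True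

/-- the constant for a nonpositive difference -/
noncomputable def kv2R (s : ℕ) (P : DPar) : ℝ :=
  match s with
  | 0 => P.K1
  | _ => P.K2

/-- its condition -/
def Kc2R (s : ℕ) (be : ℝ) : Prop :=
  match s with
  | 0 => True
  | _ => be ≤ 0

/-- the correction of the kernel on the steep edge; `t` is the part of the short edge -/
noncomputable def nu2R (i : ℕ) (P : DPar) (M : ℝ) (V : Val) (c1 c2 c3 t : ℝ) : ℝ :=
  M * (P.q * (dgR i c1 c2 c3 * |dbR i V|) + t)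

/-- the near inequality of type D with the correction `ν` and the gain `g` -/
def DSl (i N0 : ℕ) (En : ℝ) (V : Val) (c1 c2 c3 : ℝ) (cn : Con) (a b c : ℕ) (g ν γ : ℝ) : Prop :=
  0 < slc cn (levN N0 0 V.x V.y V.z (V.ex + mun N0 V.x * (esn V.x * (ddR i c1 c2 c3 * g)) -
        esn V.x * ν) V.l1 V.l2 V.l3) (ken V.x) V.x (V.y - jq a)
      (V.z - jq b) (V.y + V.z - jq c)
      (kdR En (mun N0 V.x) (V.y - jq a) c1 V.R1 (kr4 i 0 (-ν) 0 0))
      (kdR En (mun N0 V.x) (V.z - jq b) c2 V.R2 (kr4 i ν 0 0 0))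
      (kdR En (mun N0 V.x) (V.y + V.z - jq c) c3 V.R3 (kr4 i 0 0 ν (-ν))) γ

/-- the inequality for a nonnegative difference -/
def DRowP (i N0 : ℕ) (P : DPar) (En : ℝ) (V : Val) (c1 c2 c3 : ℝ) (cn : Con) (a b c : ℕ) : Prop :=
  ∃ j γ, Gain2R j P V.x (daR i V) ∧ DSl i N0 En V c1 c2 c3 cn a b c (gv2R j P V.x (daR i V))
    (nu2R i P (mun N0 V.x) V c1 c2 c3 (ddR i c1 c2 c3 * (P.K * (1 - V.x)))) γ

/-- the inequality for a nonpositive difference -/
def DRowM (i N0 : ℕ) (P : DPar) (En : ℝ) (V : Val) (c1 c2 c3 : ℝ) (cn : Con) (a b c : ℕ) : Prop :=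
  |dbR i V| ≤ 1 - V.x ∧ ∃ j s γ, Loss2R j P V.x (daR i V) ∧ Kc2R s (beR i V) ∧
    DSl i N0 En V c1 c2 c3 cn a b c (lv2R j P V.x (daR i V))
      (nu2R i P (mun N0 V.x) V c1 c2 c3 (-ddR i c1 c2 c3 * kv2R s P)) γ

/-- The inequalities of type D, both signs: kind `i`, far level `γ`. -/
def DRow2 (i N0 : ℕ) (P : DPar) (En : ℝ) (V : Val) (c1 c2 c3 : ℝ) (cn : Con) (a b c : ℕ)
    (γ : ℝ) : Prop :=
  |dbR i V| ≤ 1 / 8 ∧ -P.A ≤ daR i V ∧ daR i V ≤ 1 - V.x ∧ 0 < V.far cn a b c γ ∧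
    ((0 ≤ ddR i c1 c2 c3 ∧ DRowP i N0 P En V c1 c2 c3 cn a b c) ∨
      (ddR i c1 c2 c3 ≤ 0 ∧ DRowM i N0 P En V c1 c2 c3 cn a b c))

/-! ### Packed side -/

/-- The constants as fractions. -/
structure DPn where
  q1 : ℕ
  q2 : ℕ
  t1 : ℕ
  t2 : ℕ
  k1 : ℕ
  k2 : ℕ
  u1 : ℕ
  u2 : ℕ
  v1 : ℕ
  v2 : ℕ
  a1 : ℕ
  a2 : ℕ

/-- the constants -/
noncomputable def DPn.r (P : DPn) : DPar :=
  ⟨(P.q1 : ℝ) / P.q2, (P.t1 : ℝ) / P.t2, (P.k1 : ℝ) / P.k2, (P.u1 : ℝ) / P.u2, (P.v1 : ℝ) / P.v2,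
    (P.a1 : ℝ) / P.a2⟩

/-- `vpR` -/
noncomputable def vpT (m n : ℕ) (P : DPn) (o : ℕ) : ℕ :=
  psub (pscale (Nat.mul m n) 256 o) (pscale P.t1 (Nat.mul 4 P.t2) o)

/-- test of `Gc2` -/
noncomputable def gc2T (m n : ℕ) (P : DPn) (k x al om : ℕ) : Bool :=
  band (pnn (psub al (pscale m 16 om))) (band (pnn (psub (pscale n 16 om) al))
    (pnn (psub (pscale 4 5 (pmul k (pnorm (psub (pscale n 16 om) al)))) (vpT m n P x))))

/-- value of a gain -/
noncomputable def gv2T (j : ℕ) (P : DPn) (x al om : ℕ) : ℕ :=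
  Nat.rec (motive := fun _ => ℕ) (pneg (pscale P.q1 P.q2 (pmul (psq al) (pinv x))))
    (fun j _ => Nat.rec (motive := fun _ => ℕ) pzero
    (fun j _ => Nat.rec (motive := fun _ => ℕ) (pscale P.q1 P.q2 (pmul (psq al) (pinv om)))
    (fun j _ => pk5 j (vpT 2 14 P om) (vpT 3 13 P om) (vpT 4 12 P om) (vpT 6 10 P om)
      (vpT 8 8 P om)) j) j) j

/-- test of a gain -/
noncomputable def g2T (j : ℕ) (P : DPn) (k x al om : ℕ) : Bool :=
  Nat.rec (motive := fun _ => Bool) true (fun j _ => Nat.rec (motive := fun _ => Bool) (pnn al)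
    (fun j _ => Nat.rec (motive := fun _ => Bool)
      (band (pnn al) (pnn (psub (pscale P.t1 (Nat.mul 2 P.t2) om) al)))
    (fun j _ => Nat.rec (motive := fun _ => Bool) (gc2T 2 14 P k x al om)
    (fun j _ => Nat.rec (motive := fun _ => Bool) (gc2T 3 13 P k x al om)
    (fun j _ => Nat.rec (motive := fun _ => Bool) (gc2T 4 12 P k x al om)
    (fun j _ => Nat.rec (motive := fun _ => Bool) (gc2T 6 10 P k x al om)
    (fun _ _ => gc2T 8 8 P k x al om) j) j) j) j) j) j) j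

/-- value of a loss -/
noncomputable def lv2T (j : ℕ) (P : DPn) (al om : ℕ) : ℕ :=
  pk4 j (pscale P.q1 P.q2 (pmul (psq al) (pinv om))) pzero
    (psub (psub al (pmul (psq al) (pinv om))) (pscale P.t1 (Nat.mul 4 P.t2) om)) (vpT 8 8 P om)

/-- test of a loss -/
noncomputable def l2T (j : ℕ) (P : DPn) (al om : ℕ) : Bool :=
  Nat.rec (motive := fun _ => Bool) true (fun j _ => Nat.rec (motive := fun _ => Bool)
    (pnn (pneg al)) (fun j _ => Nat.rec (motive := fun _ => Bool)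
      (band (pnn (psub al (pscale P.t1 (Nat.mul 2 P.t2) om))) (pnn (psub (phf om) al)))
    (fun _ _ => true) j) j) j

/-- the constant for a nonpositive difference -/
noncomputable def kv2T (s : ℕ) (P : DPn) : ℕ :=
  Nat.rec (motive := fun _ => ℕ) (prat P.u1 P.u2) (fun _ _ => prat P.v1 P.v2) s

/-- its test -/
noncomputable def kc2T (s be : ℕ) : Bool :=
  Nat.rec (motive := fun _ => Bool) true (fun _ _ => pnn (pneg be)) s

/-- the correction of the kernel on the steep edge -/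
noncomputable def nu2T (P : DPn) (M G b t : ℕ) : ℕ := pnorm (pmul M
  (pnorm (padd (pscale P.q1 P.q2 (pmul (pnorm (pabs G)) (pnorm (pabs b)))) t)))

/-- the tests for a nonnegative difference, `w ν gv` the near test -/
noncomputable def nP (j : ℕ) (P : DPn) (w : ℕ → ℕ → Bool) (M G b al d om x : ℕ) : Bool :=
  (fun k => band (g2T j P k x al om)
    (w (nu2T P M G b (pmul d (pmul k om))) (pnorm (gv2T j P x al om)))) (prat P.k1 P.k2)

/-- the tests for a nonpositive difference -/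
noncomputable def nM (i j s : ℕ) (P : DPn) (w : ℕ → ℕ → Bool) (M G b al d om : ℕ) : Bool :=
  band (pnn (psub om (pabs b))) (band (l2T j P al om) (band (kc2T s (pk4 i b b (pneg b) (pneg b)))
    (w (nu2T P M G b (pmul (pneg d) (kv2T s P))) (pnorm (lv2T j P al om)))))

/-- side conditions of type D -/
noncomputable def s2D (P : DPn) (b al om : ℕ) : Bool :=
  band (pnn (psub (pdc 134217728 0) (pabs b))) (band (pnn (padd al (prat P.a1 P.a2)))
    (pnn (psub om al)))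

/-- the tests by the mode -/
noncomputable def m2D (m : ℕ) (tp tm : Bool) (d : ℕ) : Bool :=
  Nat.rec (motive := fun _ => Bool) (band (pnn d) tp) (fun m _ => Nat.rec
    (motive := fun _ => Bool) (band (pnn (pneg d)) tm) (fun _ _ => band tp tm) m) m

/-- all tests of type D but the far test; `r` is `i + 4 j + 32 jl + 128 s + 256 m`, `g1`, `g2` the
levels -/
noncomputable def n2D (r N0 : ℕ) (P : DPn) (cn : Con) (En x y z t u v w C1 C2 C3 R1 R2 R3 g1 g2 ex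
    l1 l2 l3 : ℕ) : Bool :=
  (fun i => (fun b al d G om M e => band (s2D P b al om)
    (m2D (Nat.land (Nat.shiftRight r 8) 3)
      (nP (Nat.land (Nat.shiftRight r 2) 7) P
        (fun nu gv => tD i N0 cn En M nu e d gv x y z t u v w C1 C2 C3 R1 R2 R3 g1 ex l1 l2 l3)
        M G b al d om x)
      (nM i (Nat.land (Nat.shiftRight r 5) 3) (Nat.land (Nat.shiftRight r 7) 1) P
        (fun nu gv => tD i N0 cn En M nu e d gv x y z t u v w C1 C2 C3 R1 R2 R3 g2 ex l1 l2 l3)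
        M G b al d om) d))
    (pnorm (pk4 i (psub z pone) (psub y pone) (psub t pone) (psub t pone)))
    (pnorm (pk4 i (psub y x) (psub z x) (psub y x) (psub z x)))
    (pnorm (pk4 i (psub C1 C3) (psub C3 C2) (psub C2 C1) (psub C2 C1)))
    (pk4 i (psub C2 C3) (psub C1 C3) (psub C2 C3) (psub C1 C3))
    (pnorm (psub pone x)) (muT N0 x)
    (pnorm (padd (padd (phf x) (c1T x)) (pneg pone)))) (Nat.land r 3)

/-- the tests of type D; the payload `r` is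
`i + 4 j + 32 jl + 128 s + 256 m + 1024 (γ + 2 ^ 22 γ₁ + 2 ^ 44 γ₂)` -/
noncomputable def k2D (N0 : ℕ) (P : DPn) (En : Fn1) (C1 C2 : Fn2) (C3 : Fn3) (fam s1 s2 : Bool)
    (cn : Con) (a b c : ℕ) (n1 n2 : Node) (pc : Piece) (p q : ℕ) (r x y z t X Y ex : ℕ) : Bool :=
  band (kF fam s1 s2 cn a b c n1 n2 pc p q (Nat.land (Nat.shiftRight r 10) 4194303) x y z t X Y ex)
    ((fun L1 L2 L3 D1 D2 D3 K1 K2 K3 => n2D (Nat.land r 1023) N0 P cn (En.t x) x y z t
      (dj (jq a) y) (dj (jq b) z) (dj (jq c) t)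
      D1 (sl fam D2 D3) (sl fam D3 D2) K1 (sl fam K2 K3) (sl fam K3 K2)
      (Nat.land (Nat.shiftRight r 32) 4194303) (Nat.land (Nat.shiftRight r 54) 4194303) ex
      L1 (sl fam L2 L3) (sl fam L3 L2))
      (sg s1 (n1.L.t p x)) (sg s2 (n2.L.t q x)) (pc.L.t X Y x)
      (sg s1 (C1.t p x)) (sg s2 (C2.t q x)) (C3.t X Y x)
      (sg s1 (n1.K.t p x)) (sg s2 (n2.K.t q x)) (pnorm (pc.K.t X Y x)))

/-- the leaf of type D from the coordinates; the payload carries in addition the multiplier -/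
noncomputable def d2T (m : ℕ) (fam s1 s2 : Bool) (n1 n2 : Node)
    (k : ℕ → ℕ → ℕ → ℕ → ℕ → ℕ → ℕ → ℕ → ℕ → ℕ → Bool) (r p q x : ℕ) : Bool :=
  (fun A B => frc (pnorm (th fam A B)) fun Y => (fun U V => frc (pnorm (th fam U V)) fun X =>
    k p q (Nat.land r 75557863725914323419135) x A (sl fam B Y) (sl fam Y B) X Y
      (padd (psub (phf (psub (pmul U B) (pmul V A))) (phn 1))
        (pmul (pdc (Nat.mul (Nat.shiftRight r 79) 1048576) 0)
          (pk5 (Nat.land (Nat.shiftRight r 76) 7) (psub (phn m) Y) (psub Y (phn (Nat.add m 1)))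
            (psub pone (qqT X Y)) (psub (qqT X Y) (pnc 3)) (psub (pmul V A) (pmul U B))))))
    (sg s1 (n1.X.t p)) (sg s2 (n2.X.t q))) (n1.Y.t p) (n2.Y.t q)

/-! ### Soundness -/

section

variable {E : Pt}

theorem enc_vpT {O : ℕ} {o : ℝ} (m n : ℕ) (P : DPn) (hO : Enc E O o) :
    Enc E (vpT m n P O) (vpR m n P.r o) :=
  enc_cast (enc_sub (enc_scale (Nat.mul m n) 256 hO) (enc_scale P.t1 (Nat.mul 4 P.t2) hO)) (by
    show ((m * n : ℕ) : ℝ) / (256 : ℕ) * o - (P.t1 : ℝ) / ((4 * P.t2 : ℕ) : ℝ) * o = _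
    unfold vpR DPn.r
    push_cast
    rw [div_div, mul_comm (4 : ℝ)])

theorem gc2T_sound {m n K X A O : ℕ} {P : DPn} {x al : ℝ} (hK : Enc E K P.r.K) (hX : Enc E X x)
    (hA : Enc E A al) (hO : Enc E O (1 - x)) (h : gc2T m n P K X A O = true) :
    Gc2 m n P.r x al := by
  obtain ⟨h1, h'⟩ := band_true h
  obtain ⟨h2, h3⟩ := band_true h'
  have g1 := pnn_sound (enc_sub hA (enc_scale m 16 hO)) h1
  have g2 := pnn_sound (enc_sub (enc_scale n 16 hO) hA) h2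
  have g3 := pnn_sound (enc_sub (enc_scale 4 5 (enc_mul hK (enc_norm
    (enc_sub (enc_scale n 16 hO) hA)))) (enc_vpT m n P hX)) h3
  exact ⟨sub_nonneg.1 g1, sub_nonneg.1 g2, sub_nonneg.1 g3⟩

theorem enc_gv2T {X A O : ℕ} {x al : ℝ} (P : DPn) (hX : Enc E X x) (hA : Enc E A al)
    (hO : Enc E O (1 - x)) (j : ℕ) : Enc E (gv2T j P X A O) (gv2R j P.r x al) := by
  have h0 := enc_neg (enc_scale P.q1 P.q2 (enc_mul (enc_sq hA) (enc_inv hX)))
  have h2 := enc_scale P.q1 P.q2 (enc_mul (enc_sq hA) (enc_inv hO))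
  unfold gv2T pk5 gv2R
  match j with
  | 0 => exact h0
  | 1 => exact enc_zero E
  | 2 => exact h2
  | 3 => exact enc_vpT 2 14 P hO
  | 4 => exact enc_vpT 3 13 P hO
  | 5 => exact enc_vpT 4 12 P hO
  | 6 => exact enc_vpT 6 10 P hO
  | n + 7 => exact enc_vpT 8 8 P hO

theorem enc_half_th {O : ℕ} {o : ℝ} (P : DPn) (hO : Enc E O o) :
    Enc E (pscale P.t1 (Nat.mul 2 P.t2) O) (P.r.th / 2 * o) :=
  enc_cast (enc_scale P.t1 (Nat.mul 2 P.t2) hO) (by
    show (P.t1 : ℝ) / ((2 * P.t2 : ℕ) : ℝ) * o = _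
    unfold DPn.r
    push_cast
    rw [div_div, mul_comm (2 : ℝ)])

theorem g2T_sound {K X A O : ℕ} {P : DPn} {x al : ℝ} (hK : Enc E K P.r.K) (hX : Enc E X x)
    (hA : Enc E A al) (hO : Enc E O (1 - x)) (j : ℕ) (h : g2T j P K X A O = true) :
    Gain2R j P.r x al := by
  unfold Gain2R
  match j, h with
  | 0, _ => trivial
  | 1, h => exact pnn_sound hA h
  | 2, h =>
    obtain ⟨h1, h2⟩ := band_true (show band _ _ = true from h)
    exact ⟨pnn_sound hA h1, sub_nonneg.1 (pnn_sound (enc_sub (enc_half_th P hO) hA) h2)⟩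
  | 3, h => exact gc2T_sound hK hX hA hO h
  | 4, h => exact gc2T_sound hK hX hA hO h
  | 5, h => exact gc2T_sound hK hX hA hO h
  | 6, h => exact gc2T_sound hK hX hA hO h
  | n + 7, h => exact gc2T_sound hK hX hA hO h

theorem enc_lv2T {A O : ℕ} {x al : ℝ} (P : DPn) (hA : Enc E A al)
    (hO : Enc E O (1 - x)) (j : ℕ) : Enc E (lv2T j P A O) (lv2R j P.r x al) := by
  have h0 := enc_scale P.q1 P.q2 (enc_mul (enc_sq hA) (enc_inv hO))
  have h2 : Enc E (psub (psub A (pmul (psq A) (pinv O))) (pscale P.t1 (Nat.mul 4 P.t2) O))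
      (al - al ^ 2 * (1 - x)⁻¹ - P.r.th / 4 * (1 - x)) :=
    enc_cast (enc_sub (enc_sub hA (enc_mul (enc_sq hA) (enc_inv hO)))
      (enc_scale P.t1 (Nat.mul 4 P.t2) hO)) (by
      show al - al ^ 2 * (1 - x)⁻¹ - (P.t1 : ℝ) / ((4 * P.t2 : ℕ) : ℝ) * (1 - x) = _
      unfold DPn.r
      push_cast
      rw [div_div, mul_comm (4 : ℝ)])
  unfold lv2T pk4 lv2R
  match j with
  | 0 => exact h0
  | 1 => exact enc_zero E
  | 2 => exact h2
  | n + 3 => exact enc_vpT 8 8 P hO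

theorem l2T_sound {A O : ℕ} {P : DPn} {x al : ℝ}
    (hA : Enc E A al) (hO : Enc E O (1 - x)) (j : ℕ) (h : l2T j P A O = true) :
    Loss2R j P.r x al := by
  unfold Loss2R
  match j, h with
  | 0, _ => trivial
  | 1, h => exact neg_nonneg.1 (pnn_sound (enc_neg hA) h)
  | 2, h =>
    obtain ⟨h1, h2⟩ := band_true (show band _ _ = true from h)
    exact ⟨sub_nonneg.1 (pnn_sound (enc_sub hA (enc_half_th P hO)) h1),
      sub_nonneg.1 (pnn_sound (enc_sub (enc_half hO) hA) h2)⟩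
  | n + 3, _ => trivial

theorem enc_kv2T (P : DPn) (s : ℕ) : Enc E (kv2T s P) (kv2R s P.r) := by
  unfold kv2T kv2R DPn.r
  match s with
  | 0 => exact enc_rat E P.u1 P.u2
  | n + 1 => exact enc_rat E P.v1 P.v2

theorem kc2T_sound {B : ℕ} {be : ℝ} (hB : Enc E B be) (s : ℕ) (h : kc2T s B = true) :
    Kc2R s be := by
  unfold Kc2R
  match s, h with
  | 0, _ => trivial
  | n + 1, h => exact neg_nonneg.1 (pnn_sound (enc_neg hB) h)

theorem enc_nu2T {M G B T : ℕ} {m g b t : ℝ} (P : DPn) (hM : Enc E M m) (hG : Enc E G g)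
    (hB : Enc E B b) (hT : Enc E T t) :
    Enc E (nu2T P M G B T) (m * (P.r.q * (|g| * |b|) + t)) :=
  enc_norm (enc_mul hM (enc_norm (enc_add (enc_scale P.q1 P.q2 (enc_mul (enc_norm (enc_abs hG))
    (enc_norm (enc_abs hB)))) hT)))

theorem s2D_sound {P : DPn} {B A O : ℕ} {b al o : ℝ} (hB : Enc E B b) (hA : Enc E A al)
    (hO : Enc E O o) (h : s2D P B A O = true) : |b| ≤ 1 / 8 ∧ -P.r.A ≤ al ∧ al ≤ o := by
  obtain ⟨s1, s'⟩ := band_true (show band _ _ = true from h)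
  obtain ⟨s2, s3⟩ := band_true s'
  have he8 : Enc E (pdc 134217728 0) (1 / 8) := enc_cast (enc_dc E 134217728 0) (by
    unfold S
    norm_num)
  have t1 := pnn_sound (enc_sub he8 (enc_abs hB)) s1
  have t2 : (0 : ℝ) ≤ al + P.r.A := pnn_sound (enc_add hA (enc_rat E P.a1 P.a2)) s2
  have t3 := pnn_sound (enc_sub hO hA) s3
  exact ⟨by linarith, by linarith, by linarith⟩

/-- the near test proves the near inequality -/
theorem t2D_sound {i N0 : ℕ} {a b c : ℕ} {cn : Con} (hc : con a b c = some cn) {W : Val}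
    {EN M NU EE D GV X Y Z T U V Q A1 A2 A3 Q1 Q2 Q3 F L1 L2 L3 : ℕ} {nu En c1 c2 c3 gv ex : ℝ}
    (hE : Enc E EN En) (hM : Enc E M (mun N0 W.x)) (hC : Enc E NU nu) (hI : Enc E EE (esn W.x))
    (hD : Enc E D (ddR i c1 c2 c3)) (hG : Enc E GV gv)
    (hX : Enc E X W.x) (hY : Enc E Y W.y) (hZ : Enc E Z W.z)
    (hT : Enc E T (W.y + W.z)) (hU : Enc E U (W.y - jq a)) (hV : Enc E V (W.z - jq b))
    (hQ : Enc E Q (W.y + W.z - jq c)) (h1 : Enc E A1 c1) (h2 : Enc E A2 c2) (h3 : Enc E A3 c3)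
    (k1 : Enc E Q1 W.R1) (k2 : Enc E Q2 W.R2) (k3 : Enc E Q3 W.R3) (g : ℕ) (hF : Enc E F ex)
    (he : ex ≤ W.ex) (m1 : Enc E L1 W.l1) (m2 : Enc E L2 W.l2) (m3 : Enc E L3 W.l3)
    (h : tD i N0 cn EN M NU EE D GV X Y Z T U V Q A1 A2 A3 Q1 Q2 Q3 g F L1 L2 L3 = true) :
    DSl i N0 En W c1 c2 c3 cn a b c gv nu (gar g) := by
  have t6 := tD_sound (i := i) hc hE hM hC hI hD hG hX hY hZ hT hU hV hQ h1 h2 h3 k1 k2 k3 g hF
    m1 m2 m3 h
  unfold DSl
  unfold levN at t6 ⊢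
  rw [slc_add, sub_eq_add_neg, add_assoc, slc_add] at t6 ⊢
  refine lt_of_lt_of_le t6 ?_
  gcongr
  exact slc_le cn he _ _ _ _ _ _ _ _ _

theorem nP_sound {i j N0 : ℕ} {P : DPn} {w : ℕ → ℕ → Bool} {M G B A D O X γ : ℕ} {W : Val}
    {En c1 c2 c3 : ℝ} {cn : Con} {a b c : ℕ}
    (hM : Enc E M (mun N0 W.x)) (hG : Enc E G (kr4 i (c2 - c3) (c1 - c3) (c2 - c3) (c1 - c3)))
    (hB : Enc E B (dbR i W)) (hA : Enc E A (daR i W)) (hD : Enc E D (ddR i c1 c2 c3))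
    (hO : Enc E O (1 - W.x)) (hX : Enc E X W.x)
    (hw : ∀ {NU GV : ℕ} {nu gv : ℝ}, Enc E NU nu → Enc E GV gv → w NU GV = true →
      DSl i N0 En W c1 c2 c3 cn a b c gv nu (gar γ))
    (h : nP j P w M G B A D O X = true) : DRowP i N0 P.r En W c1 c2 c3 cn a b c := by
  obtain ⟨h1, h2⟩ := band_true (show band _ _ = true from h)
  have hK : Enc E (prat P.k1 P.k2) P.r.K := enc_rat E P.k1 P.k2
  exact ⟨j, gar γ, g2T_sound hK hX hA hO j h1,
    hw (enc_nu2T P hM hG hB (enc_mul hD (enc_mul hK hO))) (enc_norm (enc_gv2T P hX hA hO j)) h2⟩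

theorem nM_sound {i j s N0 : ℕ} {P : DPn} {w : ℕ → ℕ → Bool} {M G B A D O γ : ℕ} {W : Val}
    {En c1 c2 c3 : ℝ} {cn : Con} {a b c : ℕ}
    (hM : Enc E M (mun N0 W.x)) (hG : Enc E G (kr4 i (c2 - c3) (c1 - c3) (c2 - c3) (c1 - c3)))
    (hB : Enc E B (dbR i W)) (hA : Enc E A (daR i W)) (hD : Enc E D (ddR i c1 c2 c3))
    (hO : Enc E O (1 - W.x))
    (hw : ∀ {NU GV : ℕ} {nu gv : ℝ}, Enc E NU nu → Enc E GV gv → w NU GV = true →
      DSl i N0 En W c1 c2 c3 cn a b c gv nu (gar γ))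
    (h : nM i j s P w M G B A D O = true) : DRowM i N0 P.r En W c1 c2 c3 cn a b c := by
  obtain ⟨h1, h'⟩ := band_true (show band _ _ = true from h)
  obtain ⟨h2, h''⟩ := band_true h'
  obtain ⟨h3, h4⟩ := band_true h''
  have t1 := pnn_sound (enc_sub hO (enc_abs hB)) h1
  exact ⟨by linarith, j, s, gar γ, l2T_sound hA hO j h2,
    kc2T_sound (enc_pk4 hB hB (enc_neg hB) (enc_neg hB) i) s h3,
    hw (enc_nu2T P hM hG hB (enc_mul (enc_neg hD) (enc_kv2T P s))) (enc_norm (enc_lv2T P hA hO j))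
      h4⟩

theorem m2D_sound {m : ℕ} {tp tm : Bool} {D : ℕ} {d : ℝ} {p q : Prop} (hD : Enc E D d)
    (hp : tp = true → p) (hq : tm = true → q) (h : m2D m tp tm D = true) :
    (0 ≤ d ∧ p) ∨ (d ≤ 0 ∧ q) := by
  match m, h with
  | 0, h =>
    obtain ⟨h1, h2⟩ := band_true (show band _ _ = true from h)
    exact Or.inl ⟨pnn_sound hD h1, hp h2⟩
  | 1, h =>
    obtain ⟨h1, h2⟩ := band_true (show band _ _ = true from h)
    exact Or.inr ⟨neg_nonneg.1 (pnn_sound (enc_neg hD) h1), hq h2⟩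
  | n + 2, h =>
    obtain ⟨h1, h2⟩ := band_true (show band _ _ = true from h)
    rcases le_total 0 d with hd | hd
    · exact Or.inl ⟨hd, hp h1⟩
    · exact Or.inr ⟨hd, hq h2⟩

theorem n2D_sound {r N0 : ℕ} {P : DPn} {a b c : ℕ} {cn : Con} (hc : con a b c = some cn) {W : Val}
    {EN X Y Z T U V Q A1 A2 A3 Q1 Q2 Q3 F L1 L2 L3 : ℕ} {En c1 c2 c3 ex : ℝ}
    (hE : Enc E EN En) (hX : Enc E X W.x) (hY : Enc E Y W.y) (hZ : Enc E Z W.z)
    (hT : Enc E T (W.y + W.z)) (hU : Enc E U (W.y - jq a)) (hV : Enc E V (W.z - jq b))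
    (hQ : Enc E Q (W.y + W.z - jq c)) (h1 : Enc E A1 c1) (h2 : Enc E A2 c2) (h3 : Enc E A3 c3)
    (k1 : Enc E Q1 W.R1) (k2 : Enc E Q2 W.R2) (k3 : Enc E Q3 W.R3) (g1 g2 : ℕ) (hF : Enc E F ex)
    (he : ex ≤ W.ex) (m1 : Enc E L1 W.l1) (m2 : Enc E L2 W.l2) (m3 : Enc E L3 W.l3)
    (h : n2D r N0 P cn EN X Y Z T U V Q A1 A2 A3 Q1 Q2 Q3 g1 g2 F L1 L2 L3 = true) :
    ∃ i, |dbR i W| ≤ 1 / 8 ∧ -P.r.A ≤ daR i W ∧ daR i W ≤ 1 - W.x ∧
    ((0 ≤ ddR i c1 c2 c3 ∧ DRowP i N0 P.r En W c1 c2 c3 cn a b c) ∨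
      (ddR i c1 c2 c3 ≤ 0 ∧ DRowM i N0 P.r En W c1 c2 c3 cn a b c)) := by
  have o := enc_one E
  unfold n2D at h
  generalize Nat.land r 3 = i at h
  have hb : Enc E (pnorm (pk4 i (psub Z pone) (psub Y pone) (psub T pone) (psub T pone)))
      (dbR i W) := enc_norm (enc_pk4 (enc_sub hZ o) (enc_sub hY o) (enc_sub hT o) (enc_sub hT o) i)
  have ha : Enc E (pnorm (pk4 i (psub Y X) (psub Z X) (psub Y X) (psub Z X))) (daR i W) :=
    enc_norm (enc_pk4 (enc_sub hY hX) (enc_sub hZ hX) (enc_sub hY hX) (enc_sub hZ hX) i)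
  have hd : Enc E (pnorm (pk4 i (psub A1 A3) (psub A3 A2) (psub A2 A1) (psub A2 A1)))
      (ddR i c1 c2 c3) :=
    enc_norm (enc_pk4 (enc_sub h1 h3) (enc_sub h3 h2) (enc_sub h2 h1) (enc_sub h2 h1) i)
  have hG : Enc E (pk4 i (psub A2 A3) (psub A1 A3) (psub A2 A3) (psub A1 A3))
      (kr4 i (c2 - c3) (c1 - c3) (c2 - c3) (c1 - c3)) :=
    enc_pk4 (enc_sub h2 h3) (enc_sub h1 h3) (enc_sub h2 h3) (enc_sub h1 h3) i
  have ho : Enc E (pnorm (psub pone X)) (1 - W.x) := enc_norm (enc_sub o hX)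
  have hM := enc_muT N0 hX
  have hI : Enc E (pnorm (padd (padd (phf X) (c1T X)) (pneg pone))) (esn W.x) :=
    enc_cast (enc_norm (enc_add (enc_add (enc_half hX) (enc_c1T hX)) (enc_neg o))) (by
      unfold esn
      ring)
  obtain ⟨t1, t2⟩ := band_true (show band _ _ = true from h)
  obtain ⟨s1, s2, s3⟩ := s2D_sound hb ha ho t1
  exact ⟨i, s1, s2, s3, m2D_sound hd
    (nP_sound hM hG hb ha hd ho hX (γ := g1) fun hn hg hw => t2D_sound hc hE hM hn hI hd hg hX hY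
      hZ hT hU hV hQ h1 h2 h3 k1 k2 k3 g1 hF he m1 m2 m3 hw)
    (nM_sound hM hG hb ha hd ho (γ := g2) fun hn hg hw => t2D_sound hc hE hM hn hI hd hg hX hY
      hZ hT hU hV hQ h1 h2 h3 k1 k2 k3 g2 hF he m1 m2 m3 hw) t2⟩

theorem k2D_sound {N0 : ℕ} {P : DPn} {En : Fn1} {C1 C2 : Fn2} {C3 : Fn3} {fam s1 s2 : Bool}
    {a b c : ℕ} {cn : Con} (hc : con a b c = some cn) {n1 n2 : Node} {pc : Piece} {P' Q X : ℕ}
    {p q x : ℝ} (hp : Enc E P' p) (hq : Enc E Q q) (hx : Enc E X x) (r : ℕ) {A Z T U Y F : ℕ}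
    {ex : ℝ} (hA : Enc E A (valR fam s1 s2 n1 n2 pc p q x).y)
    (hZ : Enc E Z (valR fam s1 s2 n1 n2 pc p q x).z)
    (hT : Enc E T ((valR fam s1 s2 n1 n2 pc p q x).y + (valR fam s1 s2 n1 n2 pc p q x).z))
    (hU : Enc E U (valR fam s1 s2 n1 n2 pc p q x).X)
    (hY : Enc E Y (valR fam s1 s2 n1 n2 pc p q x).Y)
    (hF : Enc E F ex) (he : ex ≤ (valR fam s1 s2 n1 n2 pc p q x).ex)
    (h : k2D N0 P En C1 C2 C3 fam s1 s2 cn a b c n1 n2 pc P' Q r X A Z T U Y F = true) :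
    ∃ i γ, DRow2 i N0 P.r (En.v x) (valR fam s1 s2 n1 n2 pc p q x)
      (valC fam s1 s2 C1 C2 C3 n1 n2 pc p q x).1 (valC fam s1 s2 C1 C2 C3 n1 n2 pc p q x).2.1
      (valC fam s1 s2 C1 C2 C3 n1 n2 pc p q x).2.2 cn a b c γ := by
  obtain ⟨e1, e2, e3⟩ := enc_lev hp hq hx hU hY
  obtain ⟨d1, d2, d3⟩ := enc_valC (C1 := C1) (C2 := C2) (C3 := C3) hp hq hx hU hY
  have k1' := n1.K.enc hp hx
  have k2' := n2.K.enc hq hx
  have k3' := enc_norm (pc.K.enc hU hY hx)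
  have hu := enc_dj (jq a) hA
  have hv := enc_dj (jq b) hZ
  have hw := enc_dj (jq c) hT
  have hx' : Enc E X (valR fam s1 s2 n1 n2 pc p q x).x := by
    rw [valR_x]
    exact hx
  obtain ⟨g1, g2⟩ := band_true h
  have f1 := kF_sound hc hp hq hx _ hA hZ hT hU hY hF he g1
  have r1 : Enc E (sg s1 (n1.K.t P' X)) (valR fam s1 s2 n1 n2 pc p q x).R1 := by
    cases fam <;> exact enc_sg s1 k1'
  have r2 : Enc E (sl fam (sg s2 (n2.K.t Q X)) (pnorm (pc.K.t U Y X)))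
      (valR fam s1 s2 n1 n2 pc p q x).R2 := by
    cases fam <;> exact enc_sl _ (enc_sg s2 k2') k3'
  have r3 : Enc E (sl fam (pnorm (pc.K.t U Y X)) (sg s2 (n2.K.t Q X)))
      (valR fam s1 s2 n1 n2 pc p q x).R3 := by
    cases fam <;> exact enc_sl _ k3' (enc_sg s2 k2')
  obtain ⟨i, f2⟩ := n2D_sound hc (En.enc hx) hx' hA hZ hT hu hv hw d1 d2 d3 r1 r2 r3 _ _ hF he
    e1 e2 e3 g2
  exact ⟨i, _, f2.1, f2.2.1, f2.2.2.1, f1, f2.2.2.2⟩

/-- The statement of a leaf of type D: the triangle does not belong to the subfamily or the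
inequalities of type D hold for some kind and level. -/
def DAlt2 (N0 : ℕ) (P : DPn) (En : Fn1) (C1 C2 : Fn2) (C3 : Fn3) (fam s1 s2 : Bool) (cn : Con)
    (a b c : ℕ) (n1 n2 : Node) (pc : Piece) (p q x : ℝ) : Prop :=
  (valR fam s1 s2 n1 n2 pc p q x).out (cond fam c b) ∨
    ∃ i γ, DRow2 i N0 P.r (En.v x) (valR fam s1 s2 n1 n2 pc p q x)
      (valC fam s1 s2 C1 C2 C3 n1 n2 pc p q x).1 (valC fam s1 s2 C1 C2 C3 n1 n2 pc p q x).2.1
      (valC fam s1 s2 C1 C2 C3 n1 n2 pc p q x).2.2 cn a b c γ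

theorem d2T_sound {N0 : ℕ} {P : DPn} {En : Fn1} {C1 C2 : Fn2} {C3 : Fn3} {fam s1 s2 : Bool}
    {a b c : ℕ} {cn : Con} (hc : con a b c = some cn) {n1 n2 : Node} {pc : Piece} {P' Q X : ℕ}
    {p q x : ℝ} (hp : Enc E P' p) (hq : Enc E Q q) (hx : Enc E X x) (r : ℕ)
    (h : d2T (cond fam c b) fam s1 s2 n1 n2
      (k2D N0 P En C1 C2 C3 fam s1 s2 cn a b c n1 n2 pc) r P' Q X = true) :
    DAlt2 N0 P En C1 C2 C3 fam s1 s2 cn a b c n1 n2 pc p q x := by
  have hA := n1.Y.enc hp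
  have hB := n2.Y.enc hq
  have hU := enc_sg s1 (n1.X.enc hp)
  have hV := enc_sg s2 (n2.X.enc hq)
  have gex := valR_ex fam s1 s2 n1 n2 pc p q x
  have gy := valR_y fam s1 s2 n1 n2 pc p q x
  have hY : Enc E (pnorm (th fam (n1.Y.t P') (n2.Y.t Q)))
      (valR fam s1 s2 n1 n2 pc p q x).Y := by
    cases fam
    · exact enc_norm (enc_sub hB hA)
    · exact enc_norm (enc_add hA hB)
  have kz : Enc E (sl fam (n2.Y.t Q) (pnorm (th fam (n1.Y.t P') (n2.Y.t Q))))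
      (valR fam s1 s2 n1 n2 pc p q x).z := by
    cases fam <;> exact enc_sl _ hB hY
  have kt : Enc E (sl fam (pnorm (th fam (n1.Y.t P') (n2.Y.t Q))) (n2.Y.t Q))
      ((valR fam s1 s2 n1 n2 pc p q x).y + (valR fam s1 s2 n1 n2 pc p q x).z) := by
    cases fam
    · exact enc_cast (enc_sl false hY hB) (by
        show n2.Y.v q = n1.Y.v p + (n2.Y.v q - n1.Y.v p)
        ring)
    · exact enc_sl true hY hB
  have kX : Enc E (pnorm (th fam (sg s1 (n1.X.t P')) (sg s2 (n2.X.t Q))))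
      (valR fam s1 s2 n1 n2 pc p q x).X := by
    cases fam
    · exact enc_norm (enc_sub hV hU)
    · exact enc_norm (enc_add hU hV)
  unfold DAlt2
  unfold d2T at h
  simp only [frc_eq] at h
  generalize Nat.mul (Nat.shiftRight r 79) 1048576 = l at h
  generalize Nat.land (Nat.shiftRight r 76) 7 = i at h
  generalize Nat.land r 75557863725914323419135 = r' at h
  set W := valR fam s1 s2 n1 n2 pc p q x with hVal
  have kex : Enc E (psub (phf (psub (pmul (sg s1 (n1.X.t P')) (n2.Y.t Q))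
      (pmul (sg s2 (n2.X.t Q)) (n1.Y.t P')))) (phn 1)) W.ex := by
    rw [gex]
    refine enc_cast (enc_sub (enc_half (enc_sub (enc_mul hU hB) (enc_mul hV hA)))
      (enc_phn E 1)) ?_
    push_cast
    ring
  by_cases ho : W.out (cond fam c b)
  · exact Or.inl ho
  · refine Or.inr ?_
    obtain ⟨o1, o2, o3, o4, o5⟩ := Val.not_out ho
    have b1 := enc_sub (enc_phn E (cond fam c b)) hY
    have b2 := enc_sub hY (enc_phn E (Nat.add (cond fam c b) 1))
    have b3 := enc_sub (enc_one E) (enc_qqT kX hY)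
    have b4 := enc_sub (enc_qqT kX hY) (enc_pnc E 3)
    have b5 := enc_sub (enc_mul hV hA) (enc_mul hU hB)
    have a1 : ((Nat.add (cond fam c b) 1 : ℕ) : ℝ) = ((cond fam c b : ℕ) : ℝ) + 1 := by
      show (((cond fam c b : ℕ) + 1 : ℕ) : ℝ) = _
      push_cast
      ring
    obtain ⟨v, hv, hv'⟩ := enc_pk5 b1 b2 b3 b4 b5 (by linarith) (by rw [a1]; linarith)
      (by linarith) (by push_cast; linarith) (by rw [gex] at o5; linarith)
      i
    have hl' := enc_mul (enc_dc E l 0) hv'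
    have hn : (0 : ℝ) ≤ ((l : ℝ) - ((0 : ℕ) : ℝ)) / S := by
      push_cast
      rw [sub_zero]
      positivity
    exact k2D_sound hc hp hq hx _ (gy ▸ hA) kz kt kX hY (enc_add kex hl')
      (by nlinarith [mul_nonneg hn (neg_nonneg.2 hv)]) h

end

/-- **Leaves of type D, both signs,** as a further alternative. -/
noncomputable def extD2 (N0 : ℕ) (P : DPn) (En : Fn1) (C1 C2 : Fn2) (C3 : Fn3) (fam s1 s2 : Bool)
    (cn : Con) (a b c : ℕ) (hc : con a b c = some cn) (n1 n2 : Node) (pc : Piece) : Ext where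
  t r p q x := d2T (cond fam c b) fam s1 s2 n1 n2
    (k2D N0 P En C1 C2 C3 fam s1 s2 cn a b c n1 n2 pc) r p q x
  P p q x := DAlt2 N0 P En C1 C2 C3 fam s1 s2 cn a b c n1 n2 pc p q x
  snd hp hq hx h := d2T_sound hc hp hq hx _ h

end Pool.Agent.Strip051.PB
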