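import Pool.Agent.Strip051.PB.Fam

/-! # Real functions in the quarters and the properties of the families -/

namespace Pool.Agent.Strip051.PB

open Pool.Agent.StripNear Pool.Agent.StripSquare Pool.Agent.Strip051.Sweep
open Pool.Agent.Strip051.LC

section

variable {n : ℕ} {ι : Type}

/-- The functions `X` describe the curves in the quarters. -/
def LinkX (K : Cur n ι) (X : Fin (n + 1) → ℕ → ℝ → ℝ) : Prop :=
  ∀ j q y, InQ q y → K.cv j (h0 * y) = X j q y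

/-- The functions `R` describe the table at the nodes and `P` its kernel in the quarters. -/
structure Link (K : Cur n ι) (x : ℝ) (v : ℝ → ι → ℝ) (R : Fin (n + 1) → ℕ → ℝ → ℝ → ℝ)
    (P : ℕ → ℝ → ℝ → ℝ → ℝ) : Prop where
  adm : K.adm v
  node : ∀ j q y, InQ q y → K.dm j (h0 * y) → v (h0 * y) (K.tg j) = R j q y x
  third : ∀ q X y, InQ q y → 1 ≤ qqn X y → qqn X y ≤ 3 →
    ker K.nodes v (fun _ _ => 0) X (h0 * y) = P q X y x

variable {K : Cur n ι} {x : ℝ} {v : ℝ → ι → ℝ} {R : Fin (n + 1) → ℕ → ℝ → ℝ → ℝ}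
  {P : ℕ → ℝ → ℝ → ℝ → ℝ} {X : Fin (n + 1) → ℕ → ℝ → ℝ}

theorem valK_useA (L : Link K x v R P) (LX : LinkX K X) {a b c : ℕ} {j k : Fin (n + 1)}
    {σ σ' y y' : ℝ} (hσ : σ = 1 ∨ σ = -1) (hσ' : σ' = 1 ∨ σ' = -1)
    (H : InA K a b c j k σ σ' y y') :
    K.valK (σ * K.cv j (h0 * y)) (σ * K.cv j (h0 * y) + σ' * K.cv k (h0 * y')) (h0 * y)
      (h0 * y') v = (σ * R j a y x, σ' * R k b y' x,
        P c (σ * X j a y + σ' * X k b y') (y + y') x) := by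
  have hp := h0_pos
  have T1 : 0 ≤ h0 * y := mul_nonneg hp.le H.y0
  have T2 : 0 ≤ h0 * y' := mul_nonneg hp.le H.y0'
  have e : h0 * y + h0 * y' = h0 * (y + y') := by ring
  unfold Cur.valK
  rw [K.ker_cv L.adm hσ T1 H.d1, add_sub_cancel_left, K.ker_cv L.adm hσ' T2 H.d2, e,
    L.third c _ _ H.q3 H.h1 H.h3, L.node j a y H.q1 H.d1, L.node k b y' H.q2 H.d2,
    LX j a y H.q1, LX k b y' H.q2]

theorem valK_useB (L : Link K x v R P) (LX : LinkX K X) {a b c : ℕ} {j k : Fin (n + 1)}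
    {σ σ' y y' : ℝ} (hσ : σ = 1 ∨ σ = -1) (hσ' : σ' = 1 ∨ σ' = -1)
    (H : InB K a b c j k σ σ' y y') :
    K.valK (σ * K.cv j (h0 * y)) (σ' * K.cv k (h0 * (y + y'))) (h0 * y)
      (h0 * y') v = (σ * R j a y x, P b (σ' * X k c (y + y') - σ * X j a y) y' x,
        σ' * R k c (y + y') x) := by
  have hp := h0_pos
  have T1 : 0 ≤ h0 * y := mul_nonneg hp.le H.y0
  have T3 : 0 ≤ h0 * (y + y') := mul_nonneg hp.le (add_nonneg H.y0 H.y0')
  have e : h0 * y + h0 * y' = h0 * (y + y') := by ring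
  unfold Cur.valK
  rw [K.ker_cv L.adm hσ T1 H.d1, e, K.ker_cv L.adm hσ' T3 H.d3,
    L.third b _ _ H.q2 H.h1 H.h3, L.node j a y H.q1 H.d1, L.node k c (y + y') H.q3 H.d3,
    LX j a y H.q1, LX k c (y + y') H.q3]

theorem exn_n (X12 X13 y y' : ℝ) : exn X12 X13 (h0 * y) (h0 * y') = exn' X12 X13 y (y + y') := by
  have hne : h0 ≠ 0 := h0_pos.ne'
  unfold exn exn'
  field_simp

theorem levF_n (e x1 x2 x3 : ℝ) : e - |farXV (x1, x2, x3)| = levF e x1 x2 x3 := by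
  unfold farXV levF
  rw [abs_mul, abs_of_pos (by norm_num : (0 : ℝ) < 1 / 2)]
  simp only
  ring

theorem mu_n (N0 : ℕ) (x : ℝ) : mu N0 (h0 * x) = mun N0 x := by
  unfold mu mun g c1n
  rw [mul_pow, h0_sq]

theorem levn_n (N0 : ℕ) (lv x y y' x1 x2 x3 : ℝ) :
    levXV N0 (h0 * x) (h0 * lv) (h0 * y) (h0 * y') (x1, x2, x3) =
      mun N0 x * levn N0 lv x y y' x1 x2 x3 := by
  have hne : h0 ≠ 0 := h0_pos.ne'
  unfold levXV levn
  rw [mu_n]
  field_simp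

theorem levm_n (N0 : ℕ) (lv x y y' x1 x2 x3 : ℝ) :
    levXV N0 (h0 * x) (h0 * lv) (h0 * y') (h0 * y) (-x2, -x1, -x3) =
      mun N0 x * levm N0 lv x y y' x1 x2 x3 := by
  have hne : h0 ≠ 0 := h0_pos.ne'
  unfold levXV levm
  rw [mu_n]
  field_simp
  ring

theorem mun_nonneg (N0 : ℕ) (x : ℝ) : 0 ≤ mun N0 x := by
  unfold mun c1n
  positivity

theorem levN_n (N0 : ℕ) (lv x y y' e x1 x2 x3 : ℝ) :
    e + min (levXV N0 (h0 * x) (h0 * lv) (h0 * y) (h0 * y') (x1, x2, x3))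
      (levXV N0 (h0 * x) (h0 * lv) (h0 * y') (h0 * y) (-x2, -x1, -x3)) =
      levN N0 lv x y y' e x1 x2 x3 := by
  unfold levN
  rw [levn_n, levm_n, mul_min_of_nonneg _ _ (mun_nonneg N0 x)]

end

end Pool.Agent.Strip051.PB
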