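import Pool.Agent.Strip051.PB.CornW
import Pool.Agent.Strip051.PB.CornA

/-! # Charts at the aligned corners, both vertices -/

namespace Pool.Agent.Strip051.PB

open Pool.Agent.StripNear Pool.Agent.StripSquare Pool.Agent.Strip051.Sweep
open Pool.Agent.Strip051.LC

attribute [local irreducible] padd psub pneg pmul psq pinv psqrt psqrtg pabs pps pmax pmin pphi plam
  pcase phf pnat prat pscale pnorm pdc pnc pone ppos pnn Enc pbad pzero

section

variable {n : ℕ}

/-- The slopes of the third kernel near the lattice heights. -/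
structure GcOk (RC : Fin (n + 1) → ℕ → ℝ → ℝ → ℝ) (Gt : Fin (n + 1) → ℕ → Gn)
    (Dt : Fin (n + 1) → ℕ → CnW) (x : ℝ) : Prop where
  kv : ∀ {j : Fin (n + 1)} {q : ℕ} {y : ℝ}, q ≤ 2 → OnC j q y → |y - jq q| ≤ 1 / 8 →
    ((Gt j q).c (Dt j q)).kv y x = RC j q y x

variable {P : Pos n} {RK RL RC : Fin (n + 1) → ℕ → ℝ → ℝ → ℝ}
  {Gt : Fin (n + 1) → ℕ → Gn} {Dt : Fin (n + 1) → ℕ → CnW} {pc : ℕ → Piece} {x : ℝ}

/-! ### All segments -/

/-- The curves `lo, .., hi` pass through the corner; all charts are certified. -/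
def AllW (Gt : Fin (n + 1) → ℕ → Gn) (Dt : Fin (n + 1) → ℕ → CnW) (N0 : ℕ) (En mo : ℝ) (C : Cp)
    (G1 G2 : Gn) (D1 D2 : CnW) (qt lo hi : ℕ) (ρ a x : ℝ) : Prop :=
  ∀ i : Fin n, lo ≤ i.val + 1 → i.val ≤ hi →
    C.StmW G1 G2 (Gt i.castSucc qt) (Gt i.succ qt) D1 D2 (Dt i.castSucc qt) (Dt i.succ qt) ρ a x N0
      En mo (decide (lo ≤ i.val)) (decide (i.val + 1 ≤ hi))

theorem AllW.concl {N0 : ℕ} {En mo : ℝ} {C : Cp} {G1 G2 : Gn} {D1 D2 : CnW} {qt lo hi : ℕ}
    {ρ a : ℝ} (h : AllW Gt Dt N0 En mo C G1 G2 D1 D2 qt lo hi ρ a x) (hlh : lo ≤ hi) (hn : hi ≤ n)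
    {y X : ℝ} (hq : InQ qt y) (hy : y = C.yt ρ a) (hX : X = C.Xt G1 G2 ρ a)
    (h1 : 1 ≤ qqn X y) (h3 : qqn X y ≤ 3)
    (pK : Pins P RK x) (pL : Pins P RL x) (pC : Pins P RC x)
    (gx : ∀ i, (Gt i qt).xv y = crv P i qt y) (gk : ∀ i, (Gt i qt).kv y x = RK i qt y x)
    (gl : ∀ i, (Gt i qt).lv y x = RL i qt y x)
    (gc : ∀ i, ((Gt i qt).c (Dt i qt)).kv y x = RC i qt y x) :
    C.ConclW G1 G2 D1 D2 ρ a x N0 En mo (sgr C.tt (thd P RK qt X y x))
      (sgr C.tt (thd P RL qt X y x)) (sgr C.tt (thd P RC qt X y x)) := by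
  -- the sign
  have n0 : 0 < n := by
    rcases Nat.eq_zero_or_pos n with h0 | h0
    · subst h0
      exact absurd rfl P.last_ne
    · exact h0
  have pos : 0 < C.Z G1 G2 ρ a := by
    by_cases hh : lo < n
    · exact (h ⟨lo, hh⟩ (by simp) hlh).1
    · have e1 : lo = n := by omega
      exact (h ⟨n - 1, by omega⟩ (by simp; omega) (by simp; omega)).1
  have eZ : sgr C.tt X = C.Z G1 G2 ρ a := by rw [hX]; rfl
  obtain ⟨s, s1, s2⟩ := third_seg (P := P) hq h1 h3 C.tt (by rw [eZ]; exact pos.le)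
  have main : ∀ i : Fin n, i = s → lo ≤ i.val + 1 → i.val ≤ hi →
      C.ConclW G1 G2 D1 D2 ρ a x N0 En mo (sgr C.tt (thd P RK qt X y x))
        (sgr C.tt (thd P RL qt X y x)) (sgr C.tt (thd P RC qt X y x)) := by
    intro i hi1 hi2 hi3
    subst hi1
    obtain ⟨-, k⟩ := h i hi2 hi3
    rw [← hy, gx, gx, gk, gk, gl, gl, gc, gc, ← eZ] at k
    rcases k with ⟨-, k⟩ | ⟨-, k⟩ | ⟨-, -, k⟩
    · exact absurd s1 (not_le.2 k)
    · exact absurd s2 (not_le.2 k)
    · exact k s1 s2 _ _ _ (third_lin pK hq h1 h3 C.tt i s1 s2)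
        (third_lin pL hq h1 h3 C.tt i s1 s2) (third_lin pC hq h1 h3 C.tt i s1 s2)
  by_cases g1 : lo ≤ s.val + 1
  · by_cases g2 : s.val ≤ hi
    · exact main s rfl g1 g2
    · -- the third side is above the curve `hi + 1`
      exfalso
      push Not at g2
      have hn' : hi < n := lt_trans g2 s.isLt
      obtain ⟨-, k⟩ := h ⟨hi, hn'⟩ (by simp; omega) le_rfl
      rw [← hy, gx, gx, gk, gk, gl, gl, gc, gc, ← eZ] at k
      have m1 : crv P (⟨hi, hn'⟩ : Fin n).succ qt y ≤ crv P s.castSucc qt y := by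
        refine crv_mono hq ?_
        rw [Fin.le_def]
        simp only [Fin.val_succ, Fin.val_castSucc]
        omega
      have m2 : crv P (⟨hi, hn'⟩ : Fin n).castSucc qt y ≤ crv P (⟨hi, hn'⟩ : Fin n).succ qt y :=
        crv_mono hq (by rw [Fin.le_def]; simp)
      rcases k with ⟨-, k⟩ | ⟨k, -⟩ | ⟨-, k, -⟩
      · linarith
      · simp at k
      · have := k (by simp)
        linarith
  · exfalso
    push Not at g1
    have hlo : 0 < lo := by omega
    have hn' : lo - 1 < n := by omega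
    obtain ⟨-, k⟩ := h ⟨lo - 1, hn'⟩ (by simp; omega) (by simp; omega)
    rw [← hy, gx, gx, gk, gk, gl, gl, gc, gc, ← eZ] at k
    have m1 : crv P s.succ qt y ≤ crv P (⟨lo - 1, hn'⟩ : Fin n).castSucc qt y := by
      refine crv_mono hq ?_
      rw [Fin.le_def]
      simp only [Fin.val_succ, Fin.val_castSucc]
      omega
    have m2 : crv P (⟨lo - 1, hn'⟩ : Fin n).castSucc qt y ≤
        crv P (⟨lo - 1, hn'⟩ : Fin n).succ qt y := crv_mono hq (by rw [Fin.le_def]; simp)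
    rcases k with ⟨k, -⟩ | ⟨-, k⟩ | ⟨k, -⟩
    · simp at k
      omega
    · linarith
    · have := k (by simp; omega)
      linarith

/-! ### The neighbourhood of a corner -/

/-- The certified data of a corner for a subfamily. -/
structure CornW (P : Pos n) (RK RL RC : Fin (n + 1) → ℕ → ℝ → ℝ → ℝ)
    (pc : ℕ → Piece) (Gt : Fin (n + 1) → ℕ → Gn) (Dt : Fin (n + 1) → ℕ → CnW) (N0 : ℕ)
    (C0 : Fn1) (En mo : ℝ) (C : Cp) (qa qb qc : ℕ) (j k : Fin (n + 1)) (lo hi : ℕ) (δ x : ℝ) : Prop where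
  ok : C.Ok
  con : con qa qb qc = some C.cn
  qa2 : qa ≤ 2
  qb2 : qb ≤ 2
  qc2 : qc ≤ 2
  m1 : (C.m1 : ℝ) = jq qa
  m2 : cond C.fam (C.mn : ℝ) C.mt = jq qb
  m3 : cond C.fam (C.mt : ℝ) C.mn = jq qc
  side : SideOk P RK RL pc x
  gn : GnOk P RK RL Gt x
  pinC : Pins P RC x
  gc : GcOk RC Gt Dt x
  x0 : 0 < x
  x1 : x < 1
  δx : δ ≤ x
  δx' : x ≤ 1 - δ
  δ8 : δ ≤ 1 / 8
  lh : lo ≤ hi
  hn : hi ≤ n
  at1 : (Gt j qa).At C.m1 ((C.h1 : ℝ) / 2) (C0.v x) x
  at2 : (Gt k (cond C.fam qb qc)).At C.mn ((C.hn : ℝ) / 2) (C0.v x) x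
  att : (Gt ⟨lo, by omega⟩ (cond C.fam qc qb)).At C.mt ((C.ht : ℝ) / 2) (C0.v x) x
  ct1 : ((Gt j qa).c (Dt j qa)).At C.m1 ((C.h1 : ℝ) / 2) 0 x
  ct2 : ((Gt k (cond C.fam qb qc)).c (Dt k (cond C.fam qb qc))).At C.mn ((C.hn : ℝ) / 2) 0 x
  ctt : ((Gt ⟨lo, by omega⟩ (cond C.fam qc qb)).c (Dt ⟨lo, by omega⟩ (cond C.fam qc qb))).At C.mt
    ((C.ht : ℝ) / 2) 0 x
  stm : ∀ ρ a, CRng ρ a x → 0 < ρ → ρ ≤ δ →
    AllW Gt Dt N0 En mo C (Gt j qa) (Gt k (cond C.fam qb qc)) (Dt j qa)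
      (Dt k (cond C.fam qb qc)) (cond C.fam qc qb) lo hi ρ a x

theorem levW_zero (N0 : ℕ) (En mo x y y' : ℝ) : levW N0 En mo x y y' 0 0 0 0 0 0 0 = 0 := by
  simp [levW, levN, levn, levm, wdR_zero]

section

variable {N0 : ℕ} {C0 : Fn1} {En mo : ℝ} {C : Cp} {qa qb qc : ℕ} {j k : Fin (n + 1)}
  {lo hi : ℕ} {δ : ℝ}

theorem CornW.pt (H : CornW P RK RL RC pc Gt Dt N0 C0 En mo C qa qb qc j k lo hi δ x) {y y' : ℝ}
    (q1 : InQ qa y) (q2 : InQ qb y') (q3 : InQ qc (y + y'))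
    (o1 : OnC j qa y) (o2 : OnC k (cond C.fam qb qc) (cond C.fam y' (y + y')))
    (len1 : 1 ≤ qqn (cond C.fam
      (sgr C.t1 (crv P j qa y) + sgr C.tn (crv P k (cond C.fam qb qc) (cond C.fam y' (y + y'))))
      (sgr C.tn (crv P k (cond C.fam qb qc) (cond C.fam y' (y + y'))) - sgr C.t1 (crv P j qa y)))
      (cond C.fam (y + y') y'))
    (len3 : qqn (cond C.fam
      (sgr C.t1 (crv P j qa y) + sgr C.tn (crv P k (cond C.fam qb qc) (cond C.fam y' (y + y'))))
      (sgr C.tn (crv P k (cond C.fam qb qc) (cond C.fam y' (y + y'))) - sgr C.t1 (crv P j qa y)))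
      (cond C.fam (y + y') y') ≤ 3)
    (d1 : |y - jq qa| ≤ δ) (d2 : |y' - jq qb| ≤ δ) (d3 : |y + y' - jq qc| ≤ δ) :
    ∀ X1 Xn Xt KT LT CT : ℝ, X1 = sgr C.t1 (crv P j qa y) →
      Xn = sgr C.tn (crv P k (cond C.fam qb qc) (cond C.fam y' (y + y'))) →
      Xt = cond C.fam (X1 + Xn) (Xn - X1) →
      KT = thd P RK (cond C.fam qc qb) Xt (cond C.fam (y + y') y') x →
      LT = thd P RL (cond C.fam qc qb) Xt (cond C.fam (y + y') y') x →
      CT = thd P RC (cond C.fam qc qb) Xt (cond C.fam (y + y') y') x →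
      ∃ g, 0 ≤ slc C.cn (levW N0 En mo x y y' (exn' X1 (cond C.fam Xt Xn) y (y + y'))
        (sgr C.t1 (RL j qa y x))
        (cond C.fam (sgr C.tn (RL k (cond C.fam qb qc) (cond C.fam y' (y + y')) x)) LT)
        (cond C.fam LT (sgr C.tn (RL k (cond C.fam qb qc) (cond C.fam y' (y + y')) x)))
        (sgr C.t1 (RC j qa y x)) (sgr C.tn (RC k (cond C.fam qb qc) (cond C.fam y' (y + y')) x))
        CT)
        (ken x) x (y - jq qa) (y' - jq qb) (y + y' - jq qc)
        (sgr C.t1 (RK j qa y x))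
        (cond C.fam (sgr C.tn (RK k (cond C.fam qb qc) (cond C.fam y' (y + y')) x)) KT)
        (cond C.fam KT (sgr C.tn (RK k (cond C.fam qb qc) (cond C.fam y' (y + y')) x)))
        g := by
  intro X1 Xn Xt KT LT CT hX1 hXn hXt hKT hLT hCT
  rw [← hXn, ← hX1, ← hXt] at len1 len3
  have six := H.ok.six
  have hadd : (jq qa : ℝ) + jq qb = jq qc := by
    have := H.ok.m
    rw [← H.m1, ← H.m2, ← H.m3]
    cases hf : C.fam <;> rw [hf] at this <;> exact this
  obtain ⟨ρ, a, ρ0, a0, a1, e1, e2, er⟩ := Con.polar six (con_sgs H.con q1 q2 q3)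
  have e3 : y + y' - jq qc = ρ * cd3 C.cn a := by
    rw [← cd_add six, mul_add, ← e1, ← e2, ← hadd]
    ring
  have hρδ : ρ ≤ δ := by
    rcases er with er | er | er
    · rw [er]; exact d1
    · rw [er]; exact d2
    · rw [er, show y - jq qa + (y' - jq qb) = y + y' - jq qc by rw [← hadd]; ring]; exact d3
  have R : CRng ρ a x := ⟨ρ0, hρδ.trans H.δx, by linarith [H.δx'], H.x0, H.x1, a0, a1⟩
  -- the names of the sides
  obtain ⟨qn, hqn⟩ : ∃ z, z = cond C.fam qb qc := ⟨_, rfl⟩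
  obtain ⟨qt, hqt⟩ : ∃ z, z = cond C.fam qc qb := ⟨_, rfl⟩
  obtain ⟨yn, hyn⟩ : ∃ z, z = cond C.fam y' (y + y') := ⟨_, rfl⟩
  obtain ⟨yt, hyt⟩ : ∃ z, z = cond C.fam (y + y') y' := ⟨_, rfl⟩
  have at2 := H.at2
  have att := H.att
  have stm := H.stm
  have ct2 := H.ct2
  have ctt := H.ctt
  rw [← hqn] at at2 ct2 stm o2 hXn
  rw [← hqt] at att ctt stm hKT hLT hCT
  rw [← hyn] at o2 hXn
  rw [← hyt] at hKT hLT hCT len1 len3
  rw [← hqn, ← hyn]
  have qn2 : qn ≤ 2 := by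
    rw [hqn]
    cases C.fam
    · exact H.qc2
    · exact H.qb2
  have qt2 : qt ≤ 2 := by
    rw [hqt]
    cases C.fam
    · exact H.qb2
    · exact H.qc2
  have qty : InQ qt yt := by
    rw [hqt, hyt]
    cases C.fam
    · exact q2
    · exact q3
  have dyt : |yt - C.mt| ≤ δ := by
    have h2 := H.m2
    have h3 := H.m3
    rw [hyt]
    cases hf : C.fam
    · rw [hf] at h2
      simp only [cond_false] at h2 ⊢
      rw [h2]
      exact d2
    · rw [hf] at h3
      simp only [cond_true] at h3 ⊢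
      rw [h3]
      exact d3
  have hmt : (C.mt : ℝ) ≤ 1 := by
    have h2 := H.m2
    have h3 := H.m3
    have k1 : (jq qb : ℝ) ≤ 1 := by
      have := H.qb2
      interval_cases qb <;> norm_num [jq]
    have k2 : (jq qc : ℝ) ≤ 1 := by
      have := H.qc2
      interval_cases qc <;> norm_num [jq]
    cases hf : C.fam
    · rw [hf] at h2
      simp only [cond_false] at h2
      linarith
    · rw [hf] at h3
      simp only [cond_true] at h3
      linarith
  have ont : ∀ i : Fin (n + 1), OnC i qt yt := fun i => ⟨qty, fun _ => by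
    have hp := h0_pos
    have hh := h0_sq
    have h1 := (abs_le.1 dyt).2
    have h2 := H.δ8
    have : yt ≤ 9 / 8 := by linarith
    nlinarith⟩
  have pK := H.side.pinK
  have pL := H.side.pinL
  have pC := H.pinC
  have d1' : |y - jq qa| ≤ 1 / 8 := d1.trans H.δ8
  have dn' : |yn - jq qn| ≤ 1 / 8 := by
    rw [hyn, hqn]
    cases C.fam
    · exact d3.trans H.δ8
    · exact d2.trans H.δ8
  have dt' : |yt - jq qt| ≤ 1 / 8 := by
    rw [hyt, hqt]
    cases C.fam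
    · exact d2.trans H.δ8
    · exact d3.trans H.δ8
  have g1x := H.gn.xv H.qa2 o1 d1'
  have g2x := H.gn.xv qn2 o2 dn'
  have g1k := H.gn.kv H.qa2 o1 d1'
  have g2k := H.gn.kv qn2 o2 dn'
  have g1l := H.gn.lv H.qa2 o1 d1'
  have g2l := H.gn.lv qn2 o2 dn'
  have gtx := fun i => H.gn.xv qt2 (ont i) dt'
  have gtk := fun i => H.gn.kv qt2 (ont i) dt'
  have gtl := fun i => H.gn.lv qt2 (ont i) dt'
  have g1c := H.gc.kv H.qa2 o1 d1'
  have g2c := H.gc.kv qn2 o2 dn'
  have gtc := fun i => H.gc.kv qt2 (ont i) dt'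
  rcases ρ0.eq_or_lt with h0 | h0
  · -- exactly aligned heights
    rw [← h0, zero_mul] at e1 e2 e3
    have ny : y = C.m1 := by rw [H.m1]; linarith
    have nyn : yn = C.mn := by
      have h2 := H.m2
      have h3 := H.m3
      rw [hyn]
      cases hf : C.fam
      · rw [hf] at h3
        simp only [cond_false] at h3 ⊢
        linarith
      · rw [hf] at h2
        simp only [cond_true] at h2 ⊢
        linarith
    have nyt : yt = C.mt := by
      have h2 := H.m2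
      have h3 := H.m3
      rw [hyt]
      cases hf : C.fam
      · rw [hf] at h2
        simp only [cond_false] at h2 ⊢
        linarith
      · rw [hf] at h3
        simp only [cond_true] at h3 ⊢
        linarith
    have at1 := H.at1
    have ct1 := H.ct1
    rw [← ny] at at1 ct1
    rw [← nyn] at at2 ct2
    rw [← nyt] at att ctt
    rw [e1, e2, e3, ← g1k, ← g2k, ← g1l, ← g2l, ← g1c, ← g2c, at1.K, at2.K, at1.L, at2.L, ct1.K,
      ct2.K, zero_mul, zero_mul]
    have vX1 : X1 = C.b1 := by rw [hX1, ← g1x, at1.X]; rfl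
    have vXn : Xn = C.bn := by rw [hXn, ← g2x, at2.X]; rfl
    have vXt : Xt = C.bt := by
      rw [hXt, vX1, vXn]
      have := H.ok.b
      cases hf : C.fam
      · rw [hf] at this
        simp only [cond_false] at this ⊢
        linarith
      · rw [hf] at this
        exact this
    have st : sgr C.tt Xt = crv P ⟨lo, by have := H.lh; have := H.hn; omega⟩ qt yt := by
      rw [vXt, ← gtx, att.X]
      unfold Cp.bt
      rw [sgr_sgr]
    have hKT' : sgr C.tt KT = C0.v x * ((C.ht : ℝ) / 2) := by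
      rw [hKT, third_at pK qty len1 len3 C.tt _ st, ← gtk, att.K]
    have hLT' : sgr C.tt LT = 0 := by
      rw [hLT, third_at pL qty len1 len3 C.tt _ st, ← gtl, att.L]
    have vK : KT = C0.v x * C.bt := by
      unfold Cp.bt
      rw [← sgr_mul, ← hKT', sgr_sgr]
    have vL : LT = 0 := by
      have := congrArg (sgr C.tt) hLT'
      rw [sgr_sgr] at this
      rw [this]
      cases C.tt
      · show -(0 : ℝ) = 0
        ring
      · rfl
    have hCT' : sgr C.tt CT = 0 := by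
      rw [hCT, third_at pC qty len1 len3 C.tt _ st, ← gtc, ctt.K, zero_mul]
    have vC : CT = 0 := by
      have := congrArg (sgr C.tt) hCT'
      rw [sgr_sgr] at this
      rw [this]
      cases C.tt
      · show -(0 : ℝ) = 0
        ring
      · rfl
    have z0 : ∀ t : Bool, sgr t (0 : ℝ) = 0 := fun t => by
      cases t
      · show -(0 : ℝ) = 0
        ring
      · rfl
    have ve : exn' X1 (cond C.fam Xt Xn) y (y + y') = 0 := by
      have h1 := H.ok.det
      have h2 := H.ok.m3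
      have h3 := H.m3
      have h4 : y + y' = 1 := by
        rw [h2] at h3
        linarith
      unfold exn'
      rw [vXt, vXn, vX1, h4, ny]
      linarith
    rw [vL, vC, z0, z0, ve]
    have c0 : cond C.fam (0 : ℝ) 0 = 0 := by cases C.fam <;> rfl
    rw [c0, levW_zero]
    have b := H.ok.b
    refine cone_zero six H.x0 H.x1.le (ken_nonneg H.x0.le H.x1.le) le_rfl ?_
    rw [vK, sgr_mul, sgr_mul]
    show C0.v x * C.b1 + cond C.fam (C0.v x * C.bn) (C0.v x * C.bt) =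
      cond C.fam (C0.v x * C.bt) (C0.v x * C.bn)
    cases hf : C.fam
    · rw [hf] at b
      simp only [cond_false] at b ⊢
      rw [← b]
      ring
    · rw [hf] at b
      simp only [cond_true] at b ⊢
      rw [← b]
      ring
  · have k1 : y = C.y1 ρ a := by
      unfold Cp.y1
      rw [H.m1, ← e1]
      ring
    have kn : yn = C.yn ρ a := by
      have h2 := H.m2
      have h3 := H.m3
      unfold Cp.yn
      rw [hyn]
      cases hf : C.fam
      · rw [hf] at h3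
        simp only [cond_false] at h3 ⊢
        rw [h3, ← e3]
        ring
      · rw [hf] at h2
        simp only [cond_true] at h2 ⊢
        rw [h2, ← e2]
        ring
    have kt : yt = C.yt ρ a := by
      have h2 := H.m2
      have h3 := H.m3
      unfold Cp.yt
      rw [hyt]
      cases hf : C.fam
      · rw [hf] at h2
        simp only [cond_false] at h2 ⊢
        rw [h2, ← e2]
        ring
      · rw [hf] at h3
        simp only [cond_true] at h3 ⊢
        rw [h3, ← e3]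
        ring
    have v1 : X1 = C.X1 (Gt j qa) ρ a := by
      unfold Cp.X1
      rw [hX1, ← k1, g1x]
    have vn : Xn = C.Xn (Gt k qn) ρ a := by
      unfold Cp.Xn
      rw [hXn, ← kn, g2x]
    have vt : Xt = C.Xt (Gt j qa) (Gt k qn) ρ a := by
      unfold Cp.Xt
      rw [← v1, ← vn]
      exact hXt
    have key := (stm ρ a R h0 hρδ).concl H.lh H.hn qty kt vt len1 len3 pK pL pC gtx gtk gtl gtc
    unfold Cp.ConclW at key
    rw [← k1, ← kn, ← kt, ← v1, ← vn, ← vt, g1k, g2k, g1l, g2l, g1c, g2c, sgr_sgr, sgr_sgr,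
      sgr_sgr, ← hKT, ← hLT, ← hCT] at key
    have w2 : cond C.fam yn yt = y' := by
      rw [hyn, hyt]
      cases C.fam <;> rfl
    rw [w2, ← e1, ← e2, ← e3] at key
    exact key


variable {pd : ℕ → Fn3}

/-- **Family `A`** near a corner, the near part of both vertices. -/
theorem CornW.famA (H : CornW P RK RL RC pc Gt Dt N0 C0 En mo C qa qb qc j k lo hi δ x)
    (hC : ∀ q X y, InQ q y → 1 ≤ qqn X y → qqn X y ≤ 3 → thd P RC q X y x = (pd q).v X y x)
    (hf : C.fam = true) {y y' : ℝ} (F : FactsA P qa qb qc j k (sgb C.t1) (sgb C.tn) y y')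
    (d1 : |y - jq qa| ≤ δ) (d2 : |y' - jq qb| ≤ δ) (d3 : |y + y' - jq qc| ≤ δ) :
    ∃ g, 0 ≤ slt C.cn qa qb qc (levW N0 En mo x y y' (exA P qa qb j k (sgb C.t1) (sgb C.tn) y y')
      (vlA P RL (fun q => (pc q).L.v) qa qb qc j k (sgb C.t1) (sgb C.tn) x y y').1
      (vlA P RL (fun q => (pc q).L.v) qa qb qc j k (sgb C.t1) (sgb C.tn) x y y').2.1
      (vlA P RL (fun q => (pc q).L.v) qa qb qc j k (sgb C.t1) (sgb C.tn) x y y').2.2
      (vlA P RC (fun q => (pd q).v) qa qb qc j k (sgb C.t1) (sgb C.tn) x y y').1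
      (vlA P RC (fun q => (pd q).v) qa qb qc j k (sgb C.t1) (sgb C.tn) x y y').2.1
      (vlA P RC (fun q => (pd q).v) qa qb qc j k (sgb C.t1) (sgb C.tn) x y y').2.2)
      (ken x) x y y'
      (vlA P RK (fun q => (pc q).K.v) qa qb qc j k (sgb C.t1) (sgb C.tn) x y y') g := by
  have key := H.pt F.q1 F.q2 F.q3 F.on1
  rw [hf] at key
  simp only [cond_true, sgr_eq] at key
  have k := key F.on2 F.len1 F.len3 d1 d2 d3 _ _ _ _ _ _ rfl rfl rfl rfl rfl rfl
  rw [H.side.thK _ _ _ F.q3 F.len1 F.len3, H.side.thL _ _ _ F.q3 F.len1 F.len3,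
    hC _ _ _ F.q3 F.len1 F.len3] at k
  exact k

/-- **Family `B`** near a corner, the near part of both vertices. -/
theorem CornW.famB (H : CornW P RK RL RC pc Gt Dt N0 C0 En mo C qa qb qc j k lo hi δ x)
    (hC : ∀ q X y, InQ q y → 1 ≤ qqn X y → qqn X y ≤ 3 → thd P RC q X y x = (pd q).v X y x)
    (hf : C.fam = false) {y y' : ℝ} (F : FactsB P qa qb qc j k (sgb C.t1) (sgb C.tn) y y')
    (d1 : |y - jq qa| ≤ δ) (d2 : |y' - jq qb| ≤ δ) (d3 : |y + y' - jq qc| ≤ δ) :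
    ∃ g, 0 ≤ slt C.cn qa qb qc (levW N0 En mo x y y' (exB P qa qc j k (sgb C.t1) (sgb C.tn) y y')
      (vlB P RL (fun q => (pc q).L.v) qa qb qc j k (sgb C.t1) (sgb C.tn) x y y').1
      (vlB P RL (fun q => (pc q).L.v) qa qb qc j k (sgb C.t1) (sgb C.tn) x y y').2.1
      (vlB P RL (fun q => (pc q).L.v) qa qb qc j k (sgb C.t1) (sgb C.tn) x y y').2.2
      (vlB P RC (fun q => (pd q).v) qa qb qc j k (sgb C.t1) (sgb C.tn) x y y').1
      (vlB P RC (fun q => (pd q).v) qa qb qc j k (sgb C.t1) (sgb C.tn) x y y').2.1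
      (vlB P RC (fun q => (pd q).v) qa qb qc j k (sgb C.t1) (sgb C.tn) x y y').2.2)
      (ken x) x y y'
      (vlB P RK (fun q => (pc q).K.v) qa qb qc j k (sgb C.t1) (sgb C.tn) x y y') g := by
  have key := H.pt F.q1 F.q2 F.q3 F.on1
  rw [hf] at key
  simp only [cond_false, sgr_eq] at key
  have k := key F.on3 F.len1 F.len3 d1 d2 d3 _ _ _ _ _ _ rfl rfl rfl rfl rfl rfl
  unfold levW at k
  rw [H.side.thK _ _ _ F.q2 F.len1 F.len3, H.side.thL _ _ _ F.q2 F.len1 F.len3,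
    hC _ _ _ F.q2 F.len1 F.len3, wdR_comm] at k
  exact k

/-! ### Both vertices -/

theorem slt_min {cn : Con} {a b c : ℕ} {e1 e2 kE y y' : ℝ} {r : ℝ × ℝ × ℝ}
    (h1 : ∃ g, 0 ≤ slt cn a b c e1 kE x y y' r g) (h2 : ∃ g, 0 ≤ slt cn a b c e2 kE x y y' r g) :
    ∃ g, 0 ≤ slt cn a b c (min e1 e2) kE x y y' r g := by
  rcases min_choice e1 e2 with h | h <;> rw [h]
  · exact h1
  · exact h2

theorem lvE_dim (N0 : ℕ) (E o x y y' e : ℝ) (l d : ℝ × ℝ × ℝ) :
    lvE N0 0 E (h0 * o) x y y' e l (dimC d) =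
      min (lvF e l) ((lvN N0 0 x y y' e l - mun N0 x * (o * widn d.1 d.2.1 d.2.2)) / E) := by
  have hp := h0_pos
  have hne : h0 ≠ 0 := hp.ne'
  have e1 : h0 * o * widn (h0⁻¹ * d.1) (h0⁻¹ * d.2.1) (h0⁻¹ * d.2.2) =
      o * widn d.1 d.2.1 d.2.2 := by
    rw [widn_smul (inv_nonneg.2 hp.le)]
    field_simp
  unfold lvE dimC
  simp only
  rw [e1]

variable {RU : Fin (n + 1) → ℕ → ℝ → ℝ → ℝ} {Ef : Fn1} {κ o : ℝ} {f : ℝ → ℝ} {a b c : ℕ}
  {σ σ' y y' : ℝ} {cn : Con}

theorem stEA_of (F : FactsA P a b c j k σ σ' y y') (hc : con a b c = some cn)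
    (hκ : κ * h0 = ken x) (hRC : ∀ j q y, RC j q y x = Ef.v x * RU j q y x)
    (hef : 0 ≤ Ef.v x) (ho : mo = mun N0 x * (Ef.v x * o))
    (h1 : ∃ g, 0 ≤ slt cn a b c (lvF (exA P a b j k σ σ' y y')
      (vlA P RL (fun q => (pc q).L.v) a b c j k σ σ' x y y')) (ken x) x y y'
      (vlA P RK (fun q => (pc q).K.v) a b c j k σ σ' x y y') g)
    (h2 : ∃ g, 0 ≤ slt cn a b c (levW N0 En mo x y y' (exA P a b j k σ σ' y y')
      (vlA P RL (fun q => (pc q).L.v) a b c j k σ σ' x y y').1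
      (vlA P RL (fun q => (pc q).L.v) a b c j k σ σ' x y y').2.1
      (vlA P RL (fun q => (pc q).L.v) a b c j k σ σ' x y y').2.2
      (vlA P RU (fun q => (pd q).v) a b c j k σ σ' x y y').1
      (vlA P RU (fun q => (pd q).v) a b c j k σ σ' x y y').2.1
      (vlA P RU (fun q => (pd q).v) a b c j k σ σ' x y y').2.2) (ken x) x y y'
      (vlA P RK (fun q => (pc q).K.v) a b c j k σ σ' x y y') g) :
    StEA N0 κ En o f P RK RL RC pc (fun q => Fn3.sc Ef (pd q)) a b c j k σ σ' x y y' := by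
  refine Or.inl (F.ngv hc ?_)
  rw [lvE_dim, hκ]
  refine slt_min h1 ?_
  have e : (lvN N0 0 x y y' (exA P a b j k σ σ' y y')
      (vlA P RL (fun q => (pc q).L.v) a b c j k σ σ' x y y') - mun N0 x * (o * widn
      (vlA P RC (fun q => (Fn3.sc Ef (pd q)).v) a b c j k σ σ' x y y').1
      (vlA P RC (fun q => (Fn3.sc Ef (pd q)).v) a b c j k σ σ' x y y').2.1
      (vlA P RC (fun q => (Fn3.sc Ef (pd q)).v) a b c j k σ σ' x y y').2.2)) / En =
      levW N0 En mo x y y' (exA P a b j k σ σ' y y')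
      (vlA P RL (fun q => (pc q).L.v) a b c j k σ σ' x y y').1
      (vlA P RL (fun q => (pc q).L.v) a b c j k σ σ' x y y').2.1
      (vlA P RL (fun q => (pc q).L.v) a b c j k σ σ' x y y').2.2
      (vlA P RU (fun q => (pd q).v) a b c j k σ σ' x y y').1
      (vlA P RU (fun q => (pd q).v) a b c j k σ σ' x y y').2.1
      (vlA P RU (fun q => (pd q).v) a b c j k σ σ' x y y').2.2 := by
    unfold levW vlA lvN
    simp only [hRC, Fn3.sc]
    rw [show σ * (Ef.v x * RU j a y x) = Ef.v x * (σ * RU j a y x) by ring,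
      show σ' * (Ef.v x * RU k b y' x) = Ef.v x * (σ' * RU k b y' x) by ring,
      widn_smul hef, ho]
    show (_ - mun N0 x * (o * (Ef.v x * widn _ _ _))) / En =
      (_ - mun N0 x * (Ef.v x * o) * widn _ _ _) / En
    ring
  rw [e]
  exact h2

theorem stEB_of (F : FactsB P a b c j k σ σ' y y') (hc : con a b c = some cn)
    (hκ : κ * h0 = ken x) (hRC : ∀ j q y, RC j q y x = Ef.v x * RU j q y x)
    (hef : 0 ≤ Ef.v x) (ho : mo = mun N0 x * (Ef.v x * o))
    (h1 : ∃ g, 0 ≤ slt cn a b c (lvF (exB P a c j k σ σ' y y')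
      (vlB P RL (fun q => (pc q).L.v) a b c j k σ σ' x y y')) (ken x) x y y'
      (vlB P RK (fun q => (pc q).K.v) a b c j k σ σ' x y y') g)
    (h2 : ∃ g, 0 ≤ slt cn a b c (levW N0 En mo x y y' (exB P a c j k σ σ' y y')
      (vlB P RL (fun q => (pc q).L.v) a b c j k σ σ' x y y').1
      (vlB P RL (fun q => (pc q).L.v) a b c j k σ σ' x y y').2.1
      (vlB P RL (fun q => (pc q).L.v) a b c j k σ σ' x y y').2.2
      (vlB P RU (fun q => (pd q).v) a b c j k σ σ' x y y').1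
      (vlB P RU (fun q => (pd q).v) a b c j k σ σ' x y y').2.1
      (vlB P RU (fun q => (pd q).v) a b c j k σ σ' x y y').2.2) (ken x) x y y'
      (vlB P RK (fun q => (pc q).K.v) a b c j k σ σ' x y y') g) :
    StEB N0 κ En o f P RK RL RC pc (fun q => Fn3.sc Ef (pd q)) a b c j k σ σ' x y y' := by
  refine Or.inl (F.ngv hc ?_)
  rw [lvE_dim, hκ]
  refine slt_min h1 ?_
  have e : (lvN N0 0 x y y' (exB P a c j k σ σ' y y')
      (vlB P RL (fun q => (pc q).L.v) a b c j k σ σ' x y y') - mun N0 x * (o * widn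
      (vlB P RC (fun q => (Fn3.sc Ef (pd q)).v) a b c j k σ σ' x y y').1
      (vlB P RC (fun q => (Fn3.sc Ef (pd q)).v) a b c j k σ σ' x y y').2.1
      (vlB P RC (fun q => (Fn3.sc Ef (pd q)).v) a b c j k σ σ' x y y').2.2)) / En =
      levW N0 En mo x y y' (exB P a c j k σ σ' y y')
      (vlB P RL (fun q => (pc q).L.v) a b c j k σ σ' x y y').1
      (vlB P RL (fun q => (pc q).L.v) a b c j k σ σ' x y y').2.1
      (vlB P RL (fun q => (pc q).L.v) a b c j k σ σ' x y y').2.2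
      (vlB P RU (fun q => (pd q).v) a b c j k σ σ' x y y').1
      (vlB P RU (fun q => (pd q).v) a b c j k σ σ' x y y').2.1
      (vlB P RU (fun q => (pd q).v) a b c j k σ σ' x y y').2.2 := by
    unfold levW vlB lvN
    simp only [hRC, Fn3.sc]
    rw [show σ * (Ef.v x * RU j a y x) = Ef.v x * (σ * RU j a y x) by ring,
      show σ' * (Ef.v x * RU k c (y + y') x) = Ef.v x * (σ' * RU k c (y + y') x) by ring,
      widn_smul hef, ho]
    show (_ - mun N0 x * (o * (Ef.v x * widn _ _ _))) / En =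
      (_ - mun N0 x * (Ef.v x * o) * widn _ _ _) / En
    ring
  rw [e]
  exact h2

/-! ### The alternatives -/

variable {d : ℕ} {C1 : Fn1} {δ' : ℝ} {lo' hi' : ℕ}

theorem CornW.altA (H : CornW P RK RL RU pc Gt Dt N0 C0 En mo C qa qb qc j k lo hi δ x)
    (HF : CornS P RK RL pc Gt true N0 C1 C qa qb qc j k lo' hi' δ' x)
    (hC : ∀ q X y, InQ q y → 1 ≤ qqn X y → qqn X y ≤ 3 → thd P RU q X y x = (pd q).v X y x)
    (hf : C.fam = true) (hκ : κ * h0 = ken x) (hRC : ∀ j q y, RC j q y x = Ef.v x * RU j q y x)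
    (hef : 0 ≤ Ef.v x) (ho : mo = mun N0 x * (Ef.v x * o))
    (hd : (d : ℝ) / 1073741824 ≤ δ) (hd' : (d : ℝ) / 1073741824 ≤ δ') :
    AltEA N0 κ En o f P RK RL RC pc (fun q => Fn3.sc Ef (pd q)) (cube C d) qa qb qc j k
      (sgb C.t1) (sgb C.tn) x := by
  intro y y' F hc
  obtain ⟨k1, k2, k3⟩ := cube_P hc
  rw [H.m1] at k1
  rw [H.m2] at k2
  rw [H.m3] at k3
  exact stEA_of F H.con hκ hRC hef ho (HF.famA hf F (by linarith) (by linarith) (by linarith))
    (H.famA hC hf F (by linarith) (by linarith) (by linarith))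

theorem CornW.altB (H : CornW P RK RL RU pc Gt Dt N0 C0 En mo C qa qb qc j k lo hi δ x)
    (HF : CornS P RK RL pc Gt true N0 C1 C qa qb qc j k lo' hi' δ' x)
    (hC : ∀ q X y, InQ q y → 1 ≤ qqn X y → qqn X y ≤ 3 → thd P RU q X y x = (pd q).v X y x)
    (hf : C.fam = false) (hκ : κ * h0 = ken x)
    (hRC : ∀ j q y, RC j q y x = Ef.v x * RU j q y x)
    (hef : 0 ≤ Ef.v x) (ho : mo = mun N0 x * (Ef.v x * o))
    (hd : (d : ℝ) / 1073741824 ≤ δ) (hd' : (d : ℝ) / 1073741824 ≤ δ') :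
    AltEB N0 κ En o f P RK RL RC pc (fun q => Fn3.sc Ef (pd q)) (cube C d) qa qb qc j k
      (sgb C.t1) (sgb C.tn) x := by
  intro y y' F hc
  obtain ⟨k1, k2, k3⟩ := cube_P hc
  rw [H.m1] at k1
  rw [H.m2] at k2
  rw [H.m3] at k3
  exact stEB_of F H.con hκ hRC hef ho (HF.famB hf F (by linarith) (by linarith) (by linarith))
    (H.famB hC hf F (by linarith) (by linarith) (by linarith))

end

variable {N0 : ℕ} {C0 En mo : Fn1} {C : Cp} {qa qb qc : ℕ} {j k : Fin (n + 1)}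
  {lo hi W : ℕ}

/-- the certified data from the parts -/
theorem cornW_of (Q : CpQ C qa qb qc) (side : SideOk P RK RL pc x) (gn : GnOk P RK RL Gt x)
    (pinC : Pins P RC x) (gc : GcOk RC Gt Dt x)
    (X : XR W x) (lh : lo ≤ hi) (hn : hi ≤ n) {l : Fin (n + 1)} (hl : l.val = lo)
    (at1 : (Gt j qa).At C.m1 ((C.h1 : ℝ) / 2) (C0.v x) x)
    (at2 : (Gt k (cond C.fam qb qc)).At C.mn ((C.hn : ℝ) / 2) (C0.v x) x)
    (att : (Gt l (cond C.fam qc qb)).At C.mt ((C.ht : ℝ) / 2) (C0.v x) x)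
    (ct1 : ((Gt j qa).c (Dt j qa)).At C.m1 ((C.h1 : ℝ) / 2) 0 x)
    (ct2 : ((Gt k (cond C.fam qb qc)).c (Dt k (cond C.fam qb qc))).At C.mn ((C.hn : ℝ) / 2) 0 x)
    (ctt : ((Gt l (cond C.fam qc qb)).c (Dt l (cond C.fam qc qb))).At C.mt ((C.ht : ℝ) / 2) 0 x)
    (stm : ∀ ρ a, CRng ρ a x → 0 < ρ → ρ ≤ (W : ℝ) / S →
      AllW Gt Dt N0 (En.v x) (mo.v x) C (Gt j qa) (Gt k (cond C.fam qb qc)) (Dt j qa)
        (Dt k (cond C.fam qb qc)) (cond C.fam qc qb) lo hi ρ a x) :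
    CornW P RK RL RC pc Gt Dt N0 C0 (En.v x) (mo.v x) C qa qb qc j k lo hi
      ((W : ℝ) / 1073741824) x where
  ok := Q.ok
  con := Q.con
  qa2 := Q.qa2
  qb2 := Q.qb2
  qc2 := Q.qc2
  m1 := Q.m1
  m2 := Q.m2
  m3 := Q.m3
  side := side
  gn := gn
  pinC := pinC
  gc := gc
  x0 := lt_of_lt_of_le X.p0 X.a
  x1 := by linarith [X.b, X.p0]
  δx := X.a
  δx' := X.b
  δ8 := by
    have : (W : ℝ) ≤ 134217728 := by exact_mod_cast X.c
    rw [div_le_iff₀ (by norm_num)]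
    linarith
  lh := lh
  hn := hn
  at1 := at1
  at2 := at2
  att := by
    have e : (⟨lo, by omega⟩ : Fin (n + 1)) = l := Fin.ext hl.symm
    rw [e]
    exact att
  ct1 := ct1
  ct2 := ct2
  ctt := by
    have e : (⟨lo, by omega⟩ : Fin (n + 1)) = l := Fin.ext hl.symm
    rw [e]
    exact ctt
  stm := fun ρ a B h0 h1 => stm ρ a B h0 (by
    have e : (S : ℝ) = 1073741824 := by
      unfold S
      push_cast
      ring
    rw [e]
    exact h1)

end

end Pool.Agent.Strip051.PB
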