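import Pool.Agent.Strip051.PB.C12V
import Pool.Agent.Strip051.PB.C12G

/-! # Products with a factor which vanishes at the base, germs of the third kernel at the top -/

set_option exponentiation.threshold 3000
set_option maxRecDepth 20000

namespace Pool.Agent.Strip051.PB

open Pool.Agent.StripNear Pool.Agent.StripSquare Pool.Agent.Strip051.Sweep
open Pool.Agent.Strip051.LC

theorem pnc2_eq : pnc 2 = 2 ^ 31 + 2 ^ 1152 * (2 ^ 192 * 2 ^ 31 + 2 ^ 480 * 3) := by
  unfold pnc pnat pone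
  decide

/-- the packed number two has no remainder -/
theorem enc_two {E : Pt} {M : ℕ} {v : ℝ} (h : Enc E M v) (ht : Nat.beq M (pnc 2) = true) :
    v = 2 := by
  have hM : M = 2 ^ 31 + 2 ^ 1152 * (2 ^ 192 * 2 ^ 31 + 2 ^ 480 * 3) :=
    (Nat.eq_of_beq_eq_true ht).trans pnc2_eq
  obtain ⟨c0, c1, c2, c3, V, R, q, a, m, r, H⟩ := h (by rw [hM]; norm_num)
  have dec := H.dec
  have hV := H.hV
  have hR := H.hR
  have hq := H.hq
  have ha := H.ha
  rw [hM] at dec
  have m1 : m < 2 ^ 30 := by omega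
  have r1 : R < 2 ^ 96 := by omega
  have q1 : q < 2 ^ 96 := by omega
  have a1 : a < 2 ^ 288 := by omega
  have v1 : V < 2 ^ 1152 := by omega
  have v2 : V = 2 ^ 31 := by omega
  have r2 : R = 0 := by omega
  have q2 : q = 0 := by omega
  have a2 : a = 2 ^ 31 := by omega
  have err := H.err
  have rR := H.rR
  have eq := H.eq
  have ea := H.ea
  have cong := H.cong
  rw [r2] at rR
  rw [q2] at eq
  rw [a2] at ea
  have r0 : r ≤ 0 := by simpa using rR
  have rr : 0 ≤ r := (abs_nonneg _).trans err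
  have z1 := abs_nonneg (c1 : ℝ)
  have z2 := abs_nonneg (c2 : ℝ)
  have z3 := abs_nonneg (c3 : ℝ)
  simp only [CharP.cast_eq_zero, Nat.cast_ofNat, Nat.cast_pow] at eq ea
  have k1 : (c1 : ℝ) = 0 := abs_eq_zero.1 (by linarith)
  have k2 : (c2 : ℝ) = 0 := abs_eq_zero.1 (by linarith)
  have k3 : (c3 : ℝ) = 0 := abs_eq_zero.1 (by linarith)
  have k0 : |(c0 : ℝ)| ≤ 2 ^ 31 := by linarith
  have j1 : c1 = 0 := by exact_mod_cast k1
  have j2 : c2 = 0 := by exact_mod_cast k2
  have j3 : c3 = 0 := by exact_mod_cast k3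
  have j0 : |c0| ≤ 2 ^ 31 := by exact_mod_cast k0
  rw [v2, j1, j2, j3] at cong
  obtain ⟨t, ht'⟩ := cong
  unfold pk at ht'
  rw [abs_le] at j0
  have t0 : t = 0 := by omega
  have j4 : c0 = 2 ^ 31 := by
    rw [t0] at ht'
    push_cast at ht'
    omega
  have e0 := abs_nonpos_iff.1 (err.trans r0)
  rw [k1, k2, k3, j4, S_real] at e0
  push_cast at e0
  linarith

section

variable {E : Pt} {N : ℝ} {A B D A' B' D' : ℕ} {a b a' b' : ℝ}

/-- a product, the first factor vanishes at the base -/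
theorem pr_mulz {t : Bool} (hz : t = true → b = 0) (h : Pr E N A B D a b)
    (h' : Pr E N A' B' D' a' b') :
    Pr E N (pmul A A') (pmul B B') (pg t (pmul D A')) (a * a') (b * b') := by
  obtain ⟨d, k, e⟩ := h.d
  refine ⟨enc_mul h.l h'.l, enc_mul h.r h'.r, pg_slope ⟨d * a', enc_mul k h'.l, fun ht => ?_⟩
    (fun hN => by rw [h.eq0 hN, h'.eq0 hN])⟩
  have hb := hz ht
  subst hb
  linear_combination a' * e

end

section

variable {n : ℕ} {P : Pos n} {RK RL RC : Fin (n + 1) → ℕ → ℝ → ℝ → ℝ}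
  {Gt : Fin (n + 1) → ℕ → Gn} {Dt : Fin (n + 1) → ℕ → CnW} {KA : ℕ} {x : ℝ}

/-- the values of the third kernel at the top -/
theorem at3c_of {G : Gn} {D : CnW} {j : Fin (n + 1)} {l : Bool} (hc : G.cc = false)
    (h : G.nd.X.v (c3r l 2) = crv P j 3 2) (hC : (G.c D).kv (c3r l 2) x = RC j 3 2 x)
    (h0 : RC j 3 2 x = 0) : (G.c D).At3 l 0 x := by
  have e : c3r l 2 = cond l 2 0 := by
    cases l
    · show c3n 2 = 0
      unfold c3n
      exact Real.sqrt_eq_zero_of_nonpos (by norm_num)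
    · rfl
  rw [e] at h hC
  have ec : cR G.cc (cond l 2 0) = cond l 2 0 := by rw [hc]; rfl
  refine ⟨?_, ?_, ?_⟩
  · show G.nd.X.v (cR G.cc (cond l 2 0)) = 0
    rw [ec, h, crv_two]
  · rw [hC, h0]
    ring
  · rfl

/-- the third kernel in the quarter `3` from the facts -/
theorem Gc3.of (hC : Pins P RC x) (hz : ∀ y, ((Gt 0 3).c (Dt 0 3)).kv y x = 0)
    (h : ∀ (j : Fin (n + 1)) (y : ℝ), j ≠ 0 → OnC j 3 y →
      ((Gt j 3).c (Dt j 3)).kv (c3r (decide (j.val ≤ KA)) y) x = RC j 3 y x) :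
    Gc3 RC Gt Dt KA x := by
  refine ⟨fun {j y} hq => ?_⟩
  by_cases hj : j = 0
  · subst hj
    rw [hz]
    have e1 : 1 ≤ h0 * y := by
      have hp := h0_pos
      have hh := h0_sq
      have h1 := hq.1
      by_contra hh'
      push Not at hh'
      have : (h0 * y) ^ 2 < 1 := by
        rw [sq_lt_one_iff₀ (mul_nonneg hp.le hq.nonneg)]
        exact hh'
      rw [mul_pow, hh] at this
      nlinarith
    exact (hC.one 3 y hq e1).symm
  · exact h j y hj ⟨hq, fun h => absurd h hj⟩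

end

end Pool.Agent.Strip051.PB
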