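import Pool.Agent.Strip051.PB.DgC

/-! # The corner `(1, 1, 2)`: points, tests and segments, the top-middle side on a left curve -/

set_option linter.unusedSimpArgs false

namespace Pool.Agent.Strip051.PB.Dg

open Pool.Agent.Strip051.PB
open Pool.Agent.StripNear Pool.Agent.StripSquare Pool.Agent.Strip051.Sweep
open Pool.Agent.Strip051.LC

attribute [local irreducible] padd psub pneg pmul psq pinv psqrt psqrtg pabs pps pmax pmin pphi plam
  pcase phf pnat prat pscale pnorm pdc pnc pone ppos pnn Enc pbad pzero phull pnp pflat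

section

variable {n : ℕ} {P : Pos n} {RK RL : Fin (n + 1) → ℕ → ℝ → ℝ → ℝ} {pc : ℕ → Piece} {p : Pm}
  {T : Th} {far : Bool} {N0 D D3 W1 W2 P3 W3 : ℕ} {x κ y y' t b Tv TL : ℝ} {i : Fin n}
  {m : Fin (n + 1)} {A B : Sd} {N : NdP} {C : CvP}

/-- A left curve in the quarter `3`. -/
structure NlOk (P : Pos n) (RK RL : Fin (n + 1) → ℕ → ℝ → ℝ → ℝ) (N : NdP) (j : Fin (n + 1))
    (D3 : ℕ) (x : ℝ) : Prop where
  hj : P.ρ j ≤ 1
  sc : ∀ u, N.sc.v u = P.ρ j * u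
  K : ∀ {Y : ℝ}, InQ 3 Y → |Y - 2| < (D3 : ℝ) / S →
    RK j 3 Y x = crv P j 3 Y * (N.Bv.v x - (2 - Y) * N.Bm.v x)
  L : ∀ {Y : ℝ}, InQ 3 Y → |Y - 2| < (D3 : ℝ) / S →
    RL j 3 Y x = crv P j 3 Y * (N.Xv.v x - (2 - Y) * N.Xm.v x)

theorem NlOk.sd {j : Fin (n + 1)} (H : NlOk P RK RL N j D3 x) : SdOk P RK RL p (dgSL p N) j D3 x :=
  sdL H.hj H.sc H.K H.L

/-- the slopes of the third side -/
structure GrOk (T : Th) (A B : Sd) : Prop where
  r : ∀ t x, T.gr.v t x = (B.r.v t x - A.r.v t x) * (B.ch.v t - A.ch.v t)⁻¹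
  l : ∀ t x, T.gl.v t x = (B.l.v t x - A.l.v t x) * (B.ch.v t - A.ch.v t)⁻¹

theorem grLo (A B : Sd) : GrOk (thLo A B) A B := ⟨fun _ _ => rfl, fun _ _ => rfl⟩

theorem grUp (A B : Sd) : GrOk (thUp A B) A B := ⟨fun _ _ => rfl, fun _ _ => rfl⟩

theorem lin_gr {X0 X1 K0 K1 X V c a0 a1 r0 r1 : ℝ} (t0 : 0 < t) (e0 : X0 = t * a0)
    (e1 : X1 = t * a1) (k0 : K0 = t * (a0 * c + t * r0)) (k1 : K1 = t * (a1 * c + t * r1))
    (c1 : X0 ≤ X) (c2 : X ≤ X1) (l : Lin X0 X1 K0 K1 X V) :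
    V = K0 + (c + t * ((r1 - r0) * (a1 - a0)⁻¹)) * (X - X0) := by
  unfold Lin at l
  rw [l]
  rcases eq_or_ne a1 a0 with h | h
  · have e : X = X0 := le_antisymm (c2.trans (by rw [e0, e1, h])) c1
    rw [e]
    ring
  · have h' : a1 - a0 ≠ 0 := sub_ne_zero.2 h
    have hi : (a1 - a0) * (a1 - a0)⁻¹ = 1 := mul_inv_cancel₀ h'
    have ht : t * t⁻¹ = 1 := mul_inv_cancel₀ t0.ne'
    have e : (X - X0) / (X1 - X0) = (X - X0) * (t⁻¹ * (a1 - a0)⁻¹) := by
      rw [div_eq_mul_inv, ← mul_inv]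
      congr 2
      rw [e0, e1]
      ring
    rw [e, k0, k1]
    linear_combination (X - X0) * c * hi + (X - X0) * ((a1 - a0) * c + t * (r1 - r0)) *
      (a1 - a0)⁻¹ * ht

/-- the eight inequalities, type `C` -/
def IneqC (far : Bool) (p : Pm) (N : NdP) (T : Th) (C : CvP) (t b x : ℝ) : Prop :=
  ∀ lv sg bd, 0 ≤ dgtg.v t * (CwF far lv sg bd p N T C).v t b x +
    b * (CvF far lv sg bd p N T C).v t b x

/-- the point of a segment -/
structure PcOk (P : Pos n) (RK RL : Fin (n + 1) → ℕ → ℝ → ℝ → ℝ) (far : Bool) (N0 : ℕ) (p : Pm)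
    (D D3 : ℕ) (x y y' t b : ℝ) : Prop where
  t0 : 0 < t
  tt : t = c3n (y + y')
  tb : t * b = y' - 1
  f : p.Fit far N0 x
  T : TabOk RK RL p D x
  x0 : 0 < x
  x1 : x < 1
  q1 : InQ 1 y
  q2 : InQ 2 y'
  q3 : InQ 3 (y + y')
  i1 : |y - 1| < (D : ℝ) / S
  i2 : |y' - 1| < (D : ℝ) / S
  i3 : |y + y' - 2| < (D3 : ℝ) / S
  hD : (D : ℝ) / S ≤ 1 / 16

theorem Ce_v : dgCe.v t b = dgCP.v t b / 2 + 3 / 4 := by
  simp only [dgCe]
  push_cast
  ring

theorem Ch_v : dgCh.v t b = dgCs.v t b * dgCe.v t b := rfl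

/-- the coordinates of the point -/
theorem PcOk.co (h : PcOk P RK RL far N0 p D D3 x y y' t b) :
    dgCv.v t b = y' - 1 ∧ dgw.v t = 2 - (y + y') ∧ dgCs.v t b = 1 - y ∧
      c1n y = 1 / 2 + dgCs.v t b * dgCP.v t b ∧
      dgCh.v t b = 1 / 2 - (3 / 4 * y - c1n y / 2) ∧ 1 - dgCh.v t b ≠ 0 := by
  have y1 := h.q1.1
  have y2 := h.q1.2
  have i1 := (abs_lt.1 h.i1).1
  have hD := h.hD
  have e1 : dgCv.v t b = y' - 1 := h.tb
  have hw := gv_w (Y := y + y') (by linarith [h.q3.1]) (tsq (by linarith [h.q3.1]) h.q3.2 h.tt)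
  have e2 : dgw.v t = 2 - (y + y') := by rw [dgw_v, hw]
  have e3 : dgCs.v t b = 1 - y := by
    have : dgCs.v t b = dgw.v t + dgCv.v t b := rfl
    rw [this, e1, e2]
    ring
  have e4 : c1n y = 1 / 2 + dgCs.v t b * dgCP.v t b := by
    have hx := dgxw_v (w := 1 - y) (by linarith) (by linarith)
    have : swn (2 - (1 - y)) = c1n y := by
      unfold swn c1n
      ring_nf
    rw [this] at hx
    have e : dgCP.v t b = dgxw.v (dgCs.v t b) := rfl
    rw [e, e3]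
    linarith
  have e5 : dgCh.v t b = 1 / 2 - (3 / 4 * y - c1n y / 2) := by
    rw [Ch_v, Ce_v, e4, e3]
    ring
  refine ⟨e1, e2, e3, e4, e5, ?_⟩
  have hc : c1n y ≤ 1 := by
    unfold c1n
    rw [Real.sqrt_le_one]
    nlinarith [sq_nonneg y]
  rw [e5]
  intro h0
  linarith

theorem PcOk.R1 (h : PcOk P RK RL far N0 p D D3 x y y' t b) :
    RK 0 1 y x = p.c0.v x / 2 + dgCs.v t b * (dgCr1 p).v t b x := by
  obtain ⟨e1, e2, e3, e4, e5, e6⟩ := h.co
  have k := h.T.k1 h.q1 h.i1 e5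
  have e : (dgCr1 p).v t b x = p.c0.v x * (((dgCP.v t b - dgCe.v t b) / 2 - dgCh.v t b *
    dgCP.v t b) * (1 - dgCh.v t b)⁻¹) - (p.k12.v x + p.j12.v x * dgCh.v t b +
      (dgCh.v t b ^ 2 * p.c12.v x + (pfn p.l12).v (dgCh.v t b) x)) := by
    simp only [dgCr1]
    push_cast
    ring
  have hi : (1 - dgCh.v t b)⁻¹ * (1 - dgCh.v t b) = 1 := inv_mul_cancel₀ e6
  have hh := Ch_v (t := t) (b := b)
  have key : (1 / 2 + c1n y) * (1 / 2 - dgCh.v t b) / (1 - dgCh.v t b) =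
      1 / 2 + dgCs.v t b * (((dgCP.v t b - dgCe.v t b) / 2 - dgCh.v t b *
        dgCP.v t b) * (1 - dgCh.v t b)⁻¹) := by
    rw [div_eq_iff e6, e4]
    linear_combination -(dgCs.v t b * ((dgCP.v t b - dgCe.v t b) / 2 - dgCh.v t b *
        dgCP.v t b)) * hi - 1 / 2 * hh
  rw [k, key, e, e3]
  ring

theorem PcOk.L1 (h : PcOk P RK RL far N0 p D D3 x y y' t b) :
    RL 0 1 y x = dgCs.v t b * (dgCl1 p).v t b x := by
  obtain ⟨e1, e2, e3, e4, e5, e6⟩ := h.co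
  have k := h.T.l1 h.q1 h.i1 e5
  have e : (dgCl1 p).v t b x = -(p.mb.v x * dgCe.v t b + (dgCe.v t b * (dgCh.v t b *
    p.cb.v x) + (sfn p.lb).v (dgCh.v t b) (dgCs.v t b) x)) := rfl
  have hs := sfn_v p.lb (h := dgCh.v t b) (t := dgCs.v t b) (x := x) (fun h0 => by
    rw [Ch_v, h0, zero_mul])
  have hh := Ch_v (t := t) (b := b)
  rw [k, e, ← hs]
  linear_combination -(p.mb.v x + p.cb.v x * dgCh.v t b) * hh

/-- the abscissa of the third side -/
theorem PcOk.X (h : PcOk P RK RL far N0 p D D3 x y y' t b) (hC : CvOk P RK RL p C m D x) :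
    c1n y - crv P m 2 y' = t * (dgCz3 C).v t b ∧
      c1n y - crv P m 2 y' = dgw.v t * dgCP.v t b + dgCv.v t b * (dgCz C).v t b := by
  obtain ⟨e1, e2, e3, e4, e5, e6⟩ := h.co
  have v0 : 0 ≤ dgCv.v t b := by rw [e1]; linarith [h.q2.1]
  have v1 : dgCv.v t b < (D : ℝ) / S := by rw [e1]; exact (abs_lt.1 h.i2).2
  obtain ⟨m1, m2, m3⟩ := hC v0 v1
  rw [show 1 + dgCv.v t b = y' by rw [e1]; ring] at m1
  have hz : (dgCz C).v t b = dgCP.v t b + C.xs.v (dgCv.v t b) := rfl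
  have hz3 : (dgCz3 C).v t b = dgtg.v t * dgCP.v t b + b * (dgCz C).v t b := rfl
  have hs : dgCs.v t b = dgw.v t + dgCv.v t b := rfl
  have hw : dgw.v t = t * dgtg.v t := rfl
  have hv : dgCv.v t b = t * b := rfl
  have key : c1n y - crv P m 2 y' = dgw.v t * dgCP.v t b + dgCv.v t b * (dgCz C).v t b := by
    rw [m1, e4, hs, hz]
    ring
  refine ⟨?_, key⟩
  rw [key, hz3, hw, hv]
  ring

theorem PcOk.tC (h : PcOk P RK RL far N0 p D D3 x y y' t b) (hC : CvOk P RK RL p C m D x)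
    (hN : NlOk P RK RL N i.castSucc D3 x) (hB : SdOk P RK RL p B i.succ D3 x)
    (hG : GrOk T (dgSL p N) B)
    (c1 : crv P i.castSucc 3 (y + y') ≤ c1n y - crv P m 2 y')
    (c2 : c1n y - crv P m 2 y' ≤ crv P i.succ 3 (y + y'))
    (l1 : Lin (crv P i.castSucc 3 (y + y')) (crv P i.succ 3 (y + y'))
      (RK i.castSucc 3 (y + y') x) (RK i.succ 3 (y + y') x) (c1n y - crv P m 2 y') Tv)
    (l2 : Lin (crv P i.castSucc 3 (y + y')) (crv P i.succ 3 (y + y'))
      (RL i.castSucc 3 (y + y') x) (RL i.succ 3 (y + y') x) (c1n y - crv P m 2 y') TL)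
    (H : IneqC far p N T C t b x) :
    Con12 far N0 .npn y y' x (c1n y) (c1n y - crv P m 2 y') (RK 0 1 y x) (-RK m 2 y' x) Tv
      (RL 0 1 y x) (-RL m 2 y' x) TL := by
  obtain ⟨e1, e2, e3, e4, e5, e6⟩ := h.co
  obtain ⟨X1, X2⟩ := h.X hC
  have R1' := h.R1
  have L1' := h.L1
  obtain ⟨t0, tt, tb, f, TT, x0, x1, q1, q2, q3, i1, i2, i3, hD⟩ := id h
  have v0 : 0 ≤ dgCv.v t b := by rw [e1]; linarith [q2.1]
  have v1 : dgCv.v t b < (D : ℝ) / S := by rw [e1]; exact (abs_lt.1 i2).2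
  obtain ⟨m1, m2, m3⟩ := hC v0 v1
  rw [show 1 + dgCv.v t b = y' by rw [e1]; ring] at m1 m2 m3
  obtain ⟨a1, a2, a3⟩ := hN.sd (p := p) q3 i3 tt t0
  obtain ⟨b1, b2, b3⟩ := hB q3 i3 tt t0
  have r1 := lin_gr t0 a1 b1 a2 b2 c1 c2 l1
  have r2 := lin_gr t0 a1 b1 a3 b3 c1 c2 l2
  rw [← hG.r] at r1
  rw [← hG.l] at r2
  -- the curve on the left
  have hlo : crv P i.castSucc 3 (y + y') = dgw.v t * (dgClo N).v t := by
    have hx := dgxw_v (w := 2 - (y + y')) (by linarith [q3.2]) (by linarith [q3.1])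
    rw [show 2 - (2 - (y + y')) = y + y' by ring] at hx
    have e : (dgClo N).v t = N.sc.v (dgxw.v (dgw.v t)) := rfl
    rw [crv3_left hN.hj q3, hx, e, hN.sc, e2]
    ring
  have kK := hN.K q3 i3
  have kL := hN.L q3 i3
  have eLB : (dgLB N).v t x = N.Bv.v x - dgw.v t * N.Bm.v x := rfl
  have eLX : (dgLX N).v t x = N.Xv.v x - dgw.v t * N.Xm.v x := rfl
  rw [← e2, ← eLB] at kK
  rw [← e2, ← eLX] at kL
  obtain ⟨E, hE⟩ : ∃ E, E = dtC far N0 p N T C t b x := ⟨_, rfl⟩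
  have O : E.Ok (ken E.x) := by
    have hk : 0 ≤ esn x := by
      have hc : 1 - x / 2 ≤ c1n x := by
        unfold c1n
        apply Real.le_sqrt_of_sq_le
        nlinarith
      unfold esn
      linarith
    have h1x : 0 < 1 - x := by linarith
    rw [hE]
    refine ⟨v0, ?_, x0.le, x1.le, ?_, ?_, ?_, ?_⟩
    · show 0 ≤ dgw.v t
      rw [e2]
      linarith [q3.2]
    · show dgCv.v t b + dgw.v t ≤ 1
      rw [e1, e2]
      linarith [q1.1]
    · show 0 ≤ ken x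
      unfold ken
      positivity
    · show ken x * (1 - x) = 2 * dgp.v x
      rw [dgp_v]
      unfold ken
      field_simp
    · show ken x * x = 2 * dgq1.v x
      rw [dgq1_v]
      unfold ken
      field_simp
  have hs : dgCs.v t b = dgw.v t + dgCv.v t b := rfl
  have es : E.s = dgCs.v t b := by rw [hE]; rfl
  have ey : E.y = y := by
    have : E.y = 1 - E.s := rfl
    rw [this, es, e3]
    ring
  have ey' : E.y' = y' := by
    rw [hE]
    show 1 + dgCv.v t b = y'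
    rw [e1]
    ring
  have R1 : E.R1 = RK 0 1 y x := by
    rw [R1', hE]
    show p.c0.v x / 2 + (dgw.v t + dgCv.v t b) * (dgCr1 p).v t b x = _
    rw [hs]
  have L1 : E.L1 = RL 0 1 y x := by
    rw [L1', hE]
    show (dgw.v t + dgCv.v t b) * (dgCl1 p).v t b x = _
    rw [hs]
  have R2 : E.R2 = -RK m 2 y' x := by
    rw [m2, hE]
    have e : (dgCK p C).v t b x = C.Bs.v (dgCv.v t b) x / 2 - C.xs.v (dgCv.v t b) *
      (p.c0.v x + dgCv.v t b * C.Bs.v (dgCv.v t b) x) := rfl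
    show -(p.c0.v x / 2 + dgCv.v t b * (dgCK p C).v t b x) = _
    rw [e]
    ring
  have L2 : E.L2 = -RL m 2 y' x := by
    rw [m3, hE]
    have e : (dgCL C).v t b x = -((1 / 2 - dgCv.v t b * C.xs.v (dgCv.v t b)) *
      C.sX.v (dgCv.v t b) x) := by
      simp only [dgCL, dgCX2, dgCx]
      push_cast
      ring
    show dgCv.v t b * (dgCL C).v t b x = _
    rw [e]
    ring
  have eGr : (dgCGr p T).v t x = p.c0.v x / 2 + t * T.gr.v t x := rfl
  have eGl : (dgCGl p T).v t x = (dga3c p).v x + t * T.gl.v t x := rfl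
  rw [← eGr, X2, hlo] at r1
  rw [← eGl, X2, hlo] at r2
  rw [hlo] at kK kL
  have R3 : E.R3 = Tv := by
    rw [r1, kK, hE]
    have u1 : (dgCrw p N T).v t b x = (dgClo N).v t * (dgLB N).v t x +
      (dgCP.v t b - (dgClo N).v t) * (dgCGr p T).v t x := rfl
    have u2 : (dgCrv p T C).v t b x = (dgCz C).v t b * (dgCGr p T).v t x := rfl
    show dgw.v t * (dgCrw p N T).v t b x + dgCv.v t b * (dgCrv p T C).v t b x = _
    rw [u1, u2]
    ring
  have L3 : E.L3 = TL := by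
    rw [r2, kL, hE]
    have u1 : (dgClw p N T).v t b x = (dgClo N).v t * (dgLX N).v t x +
      (dgCP.v t b - (dgClo N).v t) * (dgCGl p T).v t x := rfl
    have u2 : (dgClv p T C).v t b x = (dgCz C).v t b * (dgCGl p T).v t x := rfl
    show dgw.v t * (dgClw p N T).v t b x + dgCv.v t b * (dgClv p T C).v t b x = _
    rw [u1, u2]
    ring
  have hex : E.ex = exn' (c1n y) (c1n y - crv P m 2 y') y (y + y') := by
    have u1 : dgCew.v t b = ((1 + dgCv.v t b) * dgCP.v t b - 1 / 2) / 2 := by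
      simp only [dgCew]
      push_cast
      ring
    have u2 : (dgCev C).v t b = ((1 + dgCv.v t b) * dgCP.v t b - (1 - dgCs.v t b) *
      C.xs.v (dgCv.v t b)) / 2 := by
      simp only [dgCev, dgCx]
      push_cast
      ring
    have hz : (dgCz C).v t b = dgCP.v t b + C.xs.v (dgCv.v t b) := rfl
    have u3 : E.ex = dgw.v t * dgCew.v t b + dgCv.v t b * (dgCev C).v t b := by
      rw [hE]
      rfl
    have u4 : y + y' = 2 - dgw.v t := by rw [e2]; ring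
    have u5 : y = 1 - dgCs.v t b := by rw [e3]; ring
    rw [u3, u1, u2]
    unfold exn'
    rw [X2, u4, hz, e4]
    rw [hs] at u5 ⊢
    rw [u5]
    ring
  have HF : ∀ lv sg bd, 0 ≤ E.F lv sg bd := by
    intro lv sg bd
    have h1 := H lv sg bd
    rw [CwF_v f, CvF_v f rfl, ← hE] at h1
    have h2 := mul_nonneg t0.le h1
    refine h2.trans (le_of_eq ?_)
    have u1 : E.w = t * dgtg.v t := by rw [hE]; rfl
    have u2 : E.v = t * b := by rw [hE]; rfl
    have u3 : E.F lv sg bd = E.w * E.Fw lv sg bd + E.v * E.Fv lv sg bd := rfl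
    rw [u3, u1, u2]
    ring
  have k := DtC.con O (X12 := c1n y) (X13 := c1n y - crv P m 2 y') (by rw [ey, ey']; exact hex) HF
  rw [R1, R2, R3, L1, L2, L3, ey, ey'] at k
  have u1 : E.far = far := by rw [hE]; rfl
  have u2 : E.N0 = N0 := by rw [hE]; rfl
  have u3 : E.x = x := by rw [hE]; rfl
  rw [u1, u2, u3] at k
  exact k

/-! ### The test -/

/-- the test function, type `C` -/
noncomputable def fdC (far : Bool) (p : Pm) (N : NdP) (T : Th) (C : CvP) (Sb : Sd)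
    (h A B C' : ℕ) : Bool :=
  tst [ppos ((dgCxB Sb C).t A B), ppos ((dgCxA (dgSL p N) C).t A B), ppos ((dgCxs p).t A B)]
    (fun lv sg bd d => op3 d (band (ppos ((CwF far lv sg bd p N T C).t A B C'))
      (ppos ((CvF far lv sg bd p N T C).t A B C')))
      (ppos ((CsF far lv sg bd p N T C).t A B C')) false) h

theorem fdC_sound {E : Pt} {A' B' C' h : ℕ} (hA : Enc E A' t) (hB : Enc E B' b)
    (hC : Enc E C' x) (ht : fdC far p N T C B h A' B' C' = true) (b0 : 0 ≤ b)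
    (g0 : 0 ≤ dgtg.v t) (c1 : (dgSL p N).ch.v t ≤ (dgCz3 C).v t b)
    (c2 : (dgCz3 C).v t b ≤ B.ch.v t) (hs : p.sv.v (dgCs.v t b) ≤ 0) :
    IneqC far p N T C t b x := by
  unfold fdC at ht
  rcases tst_true ht with h1 | h1
  · exfalso
    simp only [List.mem_cons, List.not_mem_nil, or_false] at h1
    rcases h1 with h1 | h1 | h1
    · have := ppos_sound ((dgCxB B C).enc hA hB) h1.symm
      have e : (dgCxB B C).v t b = (dgCz3 C).v t b - B.ch.v t := rfl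
      rw [e] at this
      linarith
    · have := ppos_sound ((dgCxA (dgSL p N) C).enc hA hB) h1.symm
      have e : (dgCxA (dgSL p N) C).v t b = (dgSL p N).ch.v t - (dgCz3 C).v t b := rfl
      rw [e] at this
      linarith
    · have := ppos_sound ((dgCxs p).enc hA hB) h1.symm
      have e : (dgCxs p).v t b = p.sv.v (dgCs.v t b) := rfl
      rw [e] at this
      linarith
  · intro lv sg bd
    obtain ⟨d, hd⟩ := h1 lv sg bd
    rcases op3_true hd with k | k | k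
    · obtain ⟨k1, k2⟩ := band_true k
      have m1 := (ppos_sound ((CwF far lv sg bd p N T C).enc hA hB hC) k1).le
      have m2 := (ppos_sound ((CvF far lv sg bd p N T C).enc hA hB hC) k2).le
      exact add_nonneg (mul_nonneg g0 m1) (mul_nonneg b0 m2)
    · have m := ppos_sound ((CsF far lv sg bd p N T C).enc hA hB hC) k
      rw [CsF_v] at m
      exact m.le
    · exact absurd k (by simp)

/-- The certificate of a segment, type `C`. -/
structure CtC (P : Pos n) (RK RL : Fin (n + 1) → ℕ → ℝ → ℝ → ℝ) (far : Bool) (p : Pm) (N : NdP)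
    (T : Th) (C : CvP) (B : Sd) (m : Fin (n + 1)) (i : Fin n) (D D3 W1 W2 P3 W3 : ℕ) (x : ℝ) :
    Prop where
  nl : NlOk P RK RL N i.castSucc D3 x
  sb : SdOk P RK RL p B i.succ D3 x
  gr : GrOk T (dgSL p N) B
  cv : CvOk P RK RL p C m D x
  ρm : P.ρ m ≤ 1
  sv : ∀ u, p.sv.v u = u - (D : ℝ) / S
  w1 : 3 * D3 * 1073741824 ≤ W1 ^ 2
  w2 : 1073741824 ≤ W2
  hx : (P3 : ℝ) / S ≤ x
  hx' : x ≤ ((P3 : ℝ) + W3) / S
  ct : ∃ t, chk3 (onCell 0 W1 0 W2 P3 W3 (fdC far p N T C B)) t 1 1 1 = true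

/-- **Type `C`.** -/
theorem sgC1 (H : Bs P RK RL pc far N0 p D D3 x)
    (K : CtC P RK RL far p N T C B m i D D3 W1 W2 P3 W3 x) :
    Sg12A P RK RL far N0 .npn 1 2 0 m true i D D3 x := by
  intro y y' F hi c1 c2
  have len1 := F.len1
  have len3 := F.len3
  have eX : 1 * crv P 0 1 y + -1 * crv P m 2 y' = crv P 0 1 y - crv P m 2 y' := by ring
  rw [eX] at len1 len3
  have tK := third_lin H.side.pinK F.q3 len1 len3 true i c1 c2
  have tL := third_lin H.side.pinL F.q3 len1 len3 true i c1 c2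
  simp only [sgr, cond_true] at c1 c2 tK tL
  have h4 := h4_123 H.hD K.ρm F hi
  have h4' : y' - 1 ≤ 3 / 4 * c3n (y + y') := h4
  rw [crv0q] at c1 c2 tK tL
  rw [crv0q]
  have t0 : 0 < c3n (y + y') := by
    have h1 := half_lt_c1 (y := y) (by linarith [F.q1.1]) F.q1.2
    have h2 := crv2_le_half K.ρm (P.nonneg _) F.q2
    have h3 := c2.trans (crv_le F.q3 _)
    linarith
  obtain ⟨i1, i2, i3⟩ := hi
  have h : PcOk P RK RL far N0 p D D3 x y y' (c3n (y + y')) ((y' - 1) / c3n (y + y')) :=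
    ⟨t0, rfl, mul_div_cancel₀ _ t0.ne', H.f, H.T, H.x0, H.x1, F.q1, F.q2, F.q3, i1, i2, i3, H.hD⟩
  have b0 : 0 ≤ (y' - 1) / c3n (y + y') := div_nonneg (by linarith [F.q2.1]) t0.le
  have b1 : (y' - 1) / c3n (y + y') ≤ 1 := by
    rw [div_le_one t0]
    linarith
  obtain ⟨X1, X2⟩ := h.X K.cv
  obtain ⟨a1, -, -⟩ := K.nl.sd (p := p) F.q3 i3 rfl t0
  obtain ⟨d1, -, -⟩ := K.sb F.q3 i3 rfl t0
  obtain ⟨-, e2, e3, -, -, -⟩ := h.co
  have key := cert12 (Q := fun t b x => 0 ≤ b → 0 ≤ dgtg.v t →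
    (dgSL p N).ch.v t ≤ (dgCz3 C).v t b → (dgCz3 C).v t b ≤ B.ch.v t →
    p.sv.v (dgCs.v t b) ≤ 0 → IneqC far p N T C t b x)
    (f := fdC far p N T C B)
    (fun hA hB hC h b0 g0 c1 c2 hs => fdC_sound hA hB hC h b0 g0 c1 c2 hs)
    K.ct t0.le (range_t F.q3 i3 K.w1) b0 (range_1 b1 K.w2) K.hx K.hx'
  have HI := key b0 (by
    rw [dgtg_v]
    exact mul_nonneg t0.le gv_pos.le) (by
    have c1' := c1
    rw [X1, a1] at c1'
    exact le_of_mul_le_mul_left c1' t0) (by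
    have c2' := c2
    rw [X1, d1] at c2'
    exact le_of_mul_le_mul_left c2' t0) (by
    rw [K.sv, e3]
    have := (abs_lt.1 i1).1
    linarith)
  exact h.tC K.cv K.nl K.sb K.gr c1 c2 tK tL HI

end

end Pool.Agent.Strip051.PB.Dg
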