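import Pool.Agent.Strip051.PB.DgH
import Pool.Agent.Strip051.PB.DgD

/-! # The segments at the corner `(1, 1, 2)` with a third kernel -/

namespace Pool.Agent.Strip051.PB.Dg

open Pool.Agent.Strip051.PB
open Pool.Agent.StripNear Pool.Agent.StripSquare Pool.Agent.Strip051.Sweep
open Pool.Agent.Strip051.LC

section

variable {n : ℕ} {P : Pos n} {RK RL RU RC : Fin (n + 1) → ℕ → ℝ → ℝ → ℝ} {pc : ℕ → Piece} {p : Pm}
  {q : Pu} {T : Th} {V : Tu} {far tt : Bool} {N0 D D3 W1 W2 P3 W3 : ℕ} {x κ y y' t b e mo : ℝ}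
  {i : Fin n} {j k m : Fin (n + 1)} {A B : Sd} {G H' : Su} {M : NdU} {C : CvP} {K : Fn2}

/-- The facts about a table at `x`, second vertex. -/
structure BsW (P : Pos n) (RK RL RU : Fin (n + 1) → ℕ → ℝ → ℝ → ℝ) (pc : ℕ → Piece) (N0 : ℕ)
    (p : Pm) (q : Pu) (e mo : ℝ) (D D3 : ℕ) (x : ℝ) : Prop where
  side : SideOk P RK RL pc x
  pinC : Pins P RU x
  f : p.Fit false N0 x
  T : TabOk (scK e RK) RL p D x
  U : TabU RU q D x
  e0 : 0 < e
  hm : q.mo.v x = mo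
  m0 : 0 ≤ mo
  x0 : 0 < x
  x1 : x < 1
  hD : (D : ℝ) / S ≤ 1 / 16
  hD3 : (D3 : ℝ) / S ≤ 1 / 64

theorem BsW.pt (H : BsW P RK RL RU pc N0 p q e mo D D3 x) (q1 : InQ 1 y) (q2 : InQ 2 y')
    (q3 : InQ 3 (y + y')) (hi : In12 D D3 y y') (t0 : 0 < c3n (y + y')) :
    PtOk P (scK e RK) RL false N0 p D D3 x y y' (c3n (y + y'))
      ((c1n y - c1n y') / c3n (y + y')) := by
  obtain ⟨i1, i2, i3⟩ := hi
  have a2 := (abs_lt.1 i2).2
  have hD := H.hD
  have hD3 := H.hD3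
  have b2 := q2.1
  exact ⟨geoOk q1.1 q1.2.le b2 (by nlinarith) t0 (c3n_small hD3 q3 i3) rfl q3.2, H.f, H.T, H.x0,
    H.x1, q1, q2, q3, i1, i2, i3, by linarith, by linarith⟩

theorem BsW.mn (H : BsW P RK RL RU pc N0 p q e mo D D3 x) : 0 ≤ q.mo.v x := by
  rw [H.hm]
  exact H.m0

theorem rangeBW (hD : (D : ℝ) / S ≤ 1 / 16) (hD3 : (D3 : ℝ) / S ≤ 1 / 64)
    (h : PtOk P RK RL far N0 p D D3 x y y' (c3n (y + y')) b)
    (hv : y' - 1 ≤ 2 / 3 * c3n (y + y')) : b ≤ 5 / 2 := by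
  obtain ⟨g, -, -, x0, x1, q1, q2, q3, i1, i2, i3, -, -⟩ := id h
  have t0 := g.t0
  have a2 := (abs_lt.1 i2).2
  have a3 := (abs_lt.1 i3).1
  have ht2 := tsq (by linarith [q3.1]) q3.2 (rfl : c3n (y + y') = c3n (y + y'))
  have k1 := c1_tan (y := y) (by linarith [q1.1]) q1.2.le
  have k2 := c1_tan2 (v := y' - 1) (by linarith [q2.1]) (by linarith)
  rw [show 1 + (y' - 1) = y' by ring] at k2
  have e := g.tb
  have t1 := g.t1
  obtain ⟨t, ht⟩ : ∃ t, t = c3n (y + y') := ⟨_, rfl⟩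
  rw [← ht] at t0 ht2 e t1 hv
  have y3 := q3.2
  have hw : 2 - (y + y') ≤ t / 11 := by
    have e1 : t ^ 2 = 3 / 4 * (2 - (y + y')) * (2 + (y + y')) := by rw [ht2]; ring
    have e2 : 0 ≤ 2 - (y + y') := by linarith
    have e3 : (2 - (y + y')) * (11 / 4) ≤ t ^ 2 := by nlinarith
    nlinarith
  by_contra hc
  push Not at hc
  have : t * (5 / 2) < t * b := mul_lt_mul_of_pos_left hc t0
  linarith

/-! ### First vertex -/

/-- The certificate of a segment, type `A`, first vertex. -/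
structure CtAx (P : Pos n) (RK RL : Fin (n + 1) → ℕ → ℝ → ℝ → ℝ) (tt : Bool) (p : Pm)
    (A B : Sd) (T : Th) (i : Fin n) (D D3 W1 W2 P3 W3 : ℕ) (x : ℝ) : Prop where
  sa : SdOk P RK RL p A i.castSucc D3 x
  sb : SdOk P RK RL p B i.succ D3 x
  th : ThOk P RK RL p T i D3 x
  bt : Bt tt true p T B x
  sv : ∀ u, p.sv.v u = u - (D : ℝ) / S
  w1 : 3 * D3 * 1073741824 ≤ W1 ^ 2
  w2 : 1073741824 ≤ W2
  hx : (P3 : ℝ) / S ≤ x
  hx' : x ≤ ((P3 : ℝ) + W3) / S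
  ct : ∃ t, chk3 (onCell 0 W1 0 W2 P3 W3 (fdAx tt p A B T)) t 1 1 1 = true

theorem CtAx.ineq (C : CtAx P RK RL tt p A B T i D D3 W1 W2 P3 W3 x)
    (h : PtOk P RK RL true N0 p D D3 x y y' (c3n (y + y')) b)
    (c1 : crv P i.castSucc 3 (y + y') ≤ c3n (y + y') * b)
    (c2 : c3n (y + y') * b ≤ crv P i.succ 3 (y + y')) :
    IneqAD N0 p T (c3n (y + y')) b x := by
  obtain ⟨g, f, -, x0, x1, q1, q2, q3, i1, i2, i3, -, -⟩ := id h
  have t0 := g.t0
  obtain ⟨a1, -, -⟩ := C.sa q3 i3 rfl t0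
  obtain ⟨b1, -, -⟩ := C.sb q3 i3 rfl t0
  have hb : b ≤ 1 := by
    have := c2.trans (crv_le q3 _)
    by_contra hc
    push Not at hc
    nlinarith
  rw [a1] at c1
  rw [b1] at c2
  have d1 := le_of_mul_le_mul_left c1 t0
  have d2 := le_of_mul_le_mul_left c2 t0
  have es := g.ey
  have hss := dgs_v (c3n (y + y')) b
  have D1 := (abs_lt.1 i1).1
  have key := cert12 (Q := fun t b x => p.Fit true N0 x → 0 ≤ t → b ≤ 1 → 0 ≤ dgvt.v t b →
    A.ch.v t ≤ b → b ≤ B.ch.v t → p.sv.v (dgs.v t b) ≤ 0 → TgOk tt true p T B t b x →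
    IneqAD N0 p T t b x)
    (f := fdAx tt p A B T)
    (fun hA hB hC h f t0 b1 v0 c1 c2 hs G => fdAx_sound hA hB hC h f t0 b1 v0 c1 c2 hs G)
    C.ct t0.le (range_t q3 i3 C.w1) g.b0 (range_1 hb C.w2) C.hx C.hx'
  refine key f t0.le hb (g.v0 q2.1) d1 d2 ?_ (C.bt.ok g)
  rw [C.sv, hss]
  linarith

/-- **Type `A`**, first vertex. -/
theorem sgA1x (H : Bs P RK RL pc true N0 p D D3 x)
    (C : CtAx P RK RL tt p A B T i D D3 W1 W2 P3 W3 x) :
    Sg12A P RK RL true N0 .npn 1 2 0 0 true i D D3 x := by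
  intro y y' F hi c1 c2
  have len1 := F.len1
  have len3 := F.len3
  have eX : 1 * crv P 0 1 y + -1 * crv P 0 2 y' = crv P 0 1 y - crv P 0 2 y' := by ring
  rw [eX] at len1 len3
  have tK := third_lin H.side.pinK F.q3 len1 len3 true i c1 c2
  have tL := third_lin H.side.pinL F.q3 len1 len3 true i c1 c2
  simp only [sgr, cond_true] at c1 c2 tK tL
  rw [crv0q, crv0q] at c1 c2 tK tL
  rw [crv0q, crv0q]
  have t0 : 0 < c3n (y + y') := by
    have h1 := half_lt_c1 (y := y) (by linarith [F.q1.1]) F.q1.2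
    have h2 := c1_le_half F.q2.1
    have h3 := c2.trans (crv_le F.q3 _)
    linarith
  have h := H.pt F.q1 F.q2 F.q3 hi t0
  have e := h.g.tb
  rw [e] at c1 c2 tK tL ⊢
  exact (h.tAD C.th c1 c2 tK tL (C.ineq h c1 c2)).1

theorem sgA2x (H : Bs P RK RL pc true N0 p D D3 x)
    (C : CtAx P RK RL tt p A B T i D D3 W1 W2 P3 W3 x) :
    Sg12A P RK RL true N0 .pnn 2 1 0 0 false i D D3 x := by
  intro y y' F hi c1 c2
  have len1 := F.len1
  have len3 := F.len3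
  have eX : 1 * crv P 0 2 y + -1 * crv P 0 1 y' = crv P 0 2 y - crv P 0 1 y' := by ring
  rw [eX] at len1 len3
  have tK := third_lin H.side.pinK F.q3 len1 len3 false i c1 c2
  have tL := third_lin H.side.pinL F.q3 len1 len3 false i c1 c2
  simp only [sgr, cond_false] at c1 c2 tK tL
  rw [crv0q, crv0q] at c1 c2 tK tL
  rw [crv0q, crv0q]
  have q3 : InQ 3 (y' + y) := by rw [add_comm]; exact F.q3
  have hi' : In12 D D3 y' y := ⟨hi.2.1, hi.1, by rw [add_comm]; exact hi.2.2⟩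
  rw [add_comm y y'] at c1 c2 tK tL ⊢
  have t0 : 0 < c3n (y' + y) := by
    have h1 := half_lt_c1 (y := y') (by linarith [F.q2.1]) F.q2.2
    have h2 := c1_le_half F.q1.1
    have h3 := c2.trans (crv_le q3 _)
    linarith
  have h := H.pt F.q2 F.q1 q3 hi' t0
  have e := h.g.tb
  have e' : c1n y - c1n y' = -(c3n (y' + y) * ((c1n y' - c1n y) / c3n (y' + y))) := by linarith
  rw [e'] at c1 c2 tK tL ⊢
  rw [neg_neg] at c1 c2 tK tL
  have k := (h.tAD C.th c1 c2 tK tL (C.ineq h c1 c2)).2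
  rw [neg_neg, neg_neg] at k
  exact k

/-! ### Second vertex -/

/-- The certificate of a segment, type `A`, second vertex. -/
structure CtAW (P : Pos n) (RK RL RU : Fin (n + 1) → ℕ → ℝ → ℝ → ℝ) (e : ℝ) (p : Pm) (q : Pu)
    (A B : Sd) (T : Th) (V : Tu) (i : Fin n) (D D3 W1 W2 P3 W3 : ℕ) (x : ℝ) : Prop where
  sa : SdOk P (scK e RK) RL p A i.castSucc D3 x
  sb : SdOk P (scK e RK) RL p B i.succ D3 x
  th : ThOk P (scK e RK) RL p T i D3 x
  tu : TuOk P RU q V i D3 x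
  sv : ∀ u, p.sv.v u = u - (D : ℝ) / S
  w1 : 3 * D3 * 1073741824 ≤ W1 ^ 2
  w2 : 1073741824 ≤ W2
  hx : (P3 : ℝ) / S ≤ x
  hx' : x ≤ ((P3 : ℝ) + W3) / S
  ct : ∃ t, chk3 (onCell 0 W1 0 W2 P3 W3 (fdAW p q A B T V)) t 1 1 1 = true

theorem CtAW.ineq (C : CtAW P RK RL RU e p q A B T V i D D3 W1 W2 P3 W3 x)
    (m0 : 0 ≤ q.mo.v x) (h : PtOk P (scK e RK) RL false N0 p D D3 x y y' (c3n (y + y')) b)
    (c1 : crv P i.castSucc 3 (y + y') ≤ c3n (y + y') * b)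
    (c2 : c3n (y + y') * b ≤ crv P i.succ 3 (y + y')) :
    IneqAW p q T V (c3n (y + y')) b x := by
  obtain ⟨g, f, -, x0, x1, q1, q2, q3, i1, i2, i3, -, -⟩ := id h
  have t0 := g.t0
  obtain ⟨a1, -, -⟩ := C.sa q3 i3 rfl t0
  obtain ⟨b1, -, -⟩ := C.sb q3 i3 rfl t0
  have hb : b ≤ 1 := by
    have := c2.trans (crv_le q3 _)
    by_contra hc
    push Not at hc
    nlinarith
  rw [a1] at c1
  rw [b1] at c2
  have d1 := le_of_mul_le_mul_left c1 t0
  have d2 := le_of_mul_le_mul_left c2 t0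
  have es := g.ey
  have hss := dgs_v (c3n (y + y')) b
  have D1 := (abs_lt.1 i1).1
  have key := cert12 (Q := fun t b x => 0 ≤ q.mo.v x → 0 ≤ t → 0 ≤ b → 0 ≤ dgvt.v t b →
    A.ch.v t ≤ b → b ≤ B.ch.v t → p.sv.v (dgs.v t b) ≤ 0 → IneqAW p q T V t b x)
    (f := fdAW p q A B T V)
    (fun hA hB hC h m0 t0 b0 v0 c1 c2 hs => fdAW_sound hA hB hC h m0 t0 b0 v0 c1 c2 hs)
    C.ct t0.le (range_t q3 i3 C.w1) g.b0 (range_1 hb C.w2) C.hx C.hx'
  refine key m0 t0.le g.b0 (g.v0 q2.1) d1 d2 ?_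
  rw [C.sv, hss]
  linarith

/-- **Type `A`**, second vertex. -/
theorem sgA1W (H : BsW P RK RL RU pc N0 p q e mo D D3 x)
    (C : CtAW P RK RL RU e p q A B T V i D D3 W1 W2 P3 W3 x) :
    Sg12AW P RK RL RU N0 e mo .npn 1 2 0 0 true i D D3 x := by
  intro y y' F hi c1 c2
  have len1 := F.len1
  have len3 := F.len3
  have eX : 1 * crv P 0 1 y + -1 * crv P 0 2 y' = crv P 0 1 y - crv P 0 2 y' := by ring
  rw [eX] at len1 len3
  have tK := third_lin H.side.pinK F.q3 len1 len3 true i c1 c2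
  have tL := third_lin H.side.pinL F.q3 len1 len3 true i c1 c2
  have tC := third_lin H.pinC F.q3 len1 len3 true i c1 c2
  simp only [sgr, cond_true] at c1 c2 tK tL tC
  rw [crv0q, crv0q] at c1 c2 tK tL tC
  rw [crv0q, crv0q]
  have t0 : 0 < c3n (y + y') := by
    have h1 := half_lt_c1 (y := y) (by linarith [F.q1.1]) F.q1.2
    have h2 := c1_le_half F.q2.1
    have h3 := c2.trans (crv_le F.q3 _)
    linarith
  have h := H.pt F.q1 F.q2 F.q3 hi t0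
  have e := h.g.tb
  rw [e] at c1 c2 tK tL tC ⊢
  exact (h.tAW H.e0 C.th C.tu H.U H.hm c1 c2 tK tL tC (C.ineq (H.mn) h c1 c2)).1

theorem sgA2W (H : BsW P RK RL RU pc N0 p q e mo D D3 x)
    (C : CtAW P RK RL RU e p q A B T V i D D3 W1 W2 P3 W3 x) :
    Sg12AW P RK RL RU N0 e mo .pnn 2 1 0 0 false i D D3 x := by
  intro y y' F hi c1 c2
  have len1 := F.len1
  have len3 := F.len3
  have eX : 1 * crv P 0 2 y + -1 * crv P 0 1 y' = crv P 0 2 y - crv P 0 1 y' := by ring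
  rw [eX] at len1 len3
  have tK := third_lin H.side.pinK F.q3 len1 len3 false i c1 c2
  have tL := third_lin H.side.pinL F.q3 len1 len3 false i c1 c2
  have tC := third_lin H.pinC F.q3 len1 len3 false i c1 c2
  simp only [sgr, cond_false] at c1 c2 tK tL tC
  rw [crv0q, crv0q] at c1 c2 tK tL tC
  rw [crv0q, crv0q]
  have q3 : InQ 3 (y' + y) := by rw [add_comm]; exact F.q3
  have hi' : In12 D D3 y' y := ⟨hi.2.1, hi.1, by rw [add_comm]; exact hi.2.2⟩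
  rw [add_comm y y'] at c1 c2 tK tL tC ⊢
  have t0 : 0 < c3n (y' + y) := by
    have h1 := half_lt_c1 (y := y') (by linarith [F.q2.1]) F.q2.2
    have h2 := c1_le_half F.q1.1
    have h3 := c2.trans (crv_le q3 _)
    linarith
  have h := H.pt F.q2 F.q1 q3 hi' t0
  have e := h.g.tb
  have e' : c1n y - c1n y' = -(c3n (y' + y) * ((c1n y' - c1n y) / c3n (y' + y))) := by linarith
  rw [e'] at c1 c2 tK tL tC ⊢
  rw [neg_neg] at c1 c2 tK tL tC
  have k := (h.tAW H.e0 C.th C.tu H.U H.hm c1 c2 tK tL tC (C.ineq (H.mn) h c1 c2)).2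
  rw [neg_neg, neg_neg, neg_neg] at k
  exact k

/-- The certificate of a node, type `B`, second vertex. -/
structure CtBW (P : Pos n) (RK RL RU : Fin (n + 1) → ℕ → ℝ → ℝ → ℝ) (e : ℝ) (p : Pm) (q : Pu)
    (A : Sd) (G : Su) (k : Fin (n + 1)) (i : Fin n) (D D3 W1 W2 P3 W3 : ℕ) (x : ℝ) : Prop where
  sa : SdOk P (scK e RK) RL p A k D3 x
  su : SuOk RU q A G k D3 x
  cv : CvOk P (scK e RK) RL p p.cv i.succ D x
  cu : CvU RU p.cv q.sD i.succ D x
  i0 : i.castSucc = 0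
  ρ1 : P.ρ i.succ ≤ 1
  sv : ∀ u, p.sv.v u = u - (D : ℝ) / S
  w1 : 3 * D3 * 1073741824 ≤ W1 ^ 2
  w2 : 2684354560 ≤ W2
  hx : (P3 : ℝ) / S ≤ x
  hx' : x ≤ ((P3 : ℝ) + W3) / S
  ct : ∃ t, chk3 (onCell 0 W1 0 W2 P3 W3 (fdBW p q A G)) t 1 1 1 = true

theorem CtBW.ineq (H : BsW P RK RL RU pc N0 p q e mo D D3 x)
    (C : CtBW P RK RL RU e p q A G k i D D3 W1 W2 P3 W3 x)
    (h : PtOk P (scK e RK) RL false N0 p D D3 x y y' (c3n (y + y')) b)
    (hv : y' - 1 ≤ 2 / 3 * c3n (y + y'))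
    (c1 : crv P 0 2 y' ≤ c1n y - crv P k 3 (y + y'))
    (c2 : c1n y - crv P k 3 (y + y') ≤ crv P i.succ 2 y') :
    IneqBW p q A G (c3n (y + y')) b x := by
  have hb := rangeBW H.hD H.hD3 h hv
  obtain ⟨g, -, -, x0, x1, q1, q2, q3, i1, i2, i3, -, -⟩ := id h
  have t0 := g.t0
  obtain ⟨a1, -, -⟩ := C.sa q3 i3 rfl t0
  have e := g.tb
  have ev := g.ey'
  have es := g.ey
  have v0 := g.v0 q2.1
  have hvv := dgv_v (c3n (y + y')) b
  have hss := dgs_v (c3n (y + y')) b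
  have D2 := (abs_lt.1 i2).2
  have D1 := (abs_lt.1 i1).1
  have hD := H.hD
  have hv1 : dgv.v (c3n (y + y')) b = y' - 1 := by
    rw [hvv]
    linarith
  have key := cert12 (Q := fun t b x => 0 ≤ q.mo.v x → 0 ≤ t → 0 ≤ b → 0 ≤ dgvt.v t b → A.ch.v t ≤ b →
    dgvt.v t b ≤ 2 / 3 → b - A.ch.v t ≤ dgvt.v t b * (dgxi.v (dgv.v t b) -
      p.cv.xs.v (dgv.v t b)) → p.sv.v (dgv.v t b) ≤ 0 → p.sv.v (dgs.v t b) ≤ 0 →
    IneqBW p q A G t b x)
    (f := fdBW p q A G)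
    (fun hA hB hC h m0 t0 b0 v0 c1 v1 c2 hv hs => fdBW_sound hA hB hC h m0 t0 b0 v0 c1 v1 c2 hv hs)
    C.ct t0.le (range_t q3 i3 C.w1) g.b0 (range_5 hb C.w2) C.hx C.hx'
  obtain ⟨m1, -, -⟩ := C.cv (v := y' - 1) (by linarith [q2.1]) D2
  have m4 := dgxi_v (v := y' - 1) (by linarith [q2.1]) (by linarith)
  rw [show 1 + (y' - 1) = y' by ring] at m1 m4
  refine key (H.mn) t0.le g.b0 v0 ?_ ?_ ?_ ?_ ?_
  · rw [crv0q, a1] at c1
    refine le_of_mul_le_mul_left ?_ t0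
    linarith
  · refine le_of_mul_le_mul_left ?_ t0
    linarith
  · rw [a1, m1] at c2
    refine le_of_mul_le_mul_left ?_ t0
    rw [hv1]
    have e5 : c3n (y + y') * dgvt.v (c3n (y + y')) b = y' - 1 := by linarith
    linear_combination c2 - e - m4 + (dgxi.v (y' - 1) - p.cv.xs.v (y' - 1)) * 0 * e5 -
      (dgxi.v (y' - 1) - p.cv.xs.v (y' - 1)) * e5
  · rw [C.sv, hv1]
    linarith
  · rw [C.sv, hss]
    linarith

/-- **Type `B`**, second vertex. -/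
theorem sgB1W (H : BsW P RK RL RU pc N0 p q e mo D D3 x)
    (C : CtBW P RK RL RU e p q A G k i D D3 W1 W2 P3 W3 x) :
    Sg12BlW P RK RL RU N0 e mo .npn 1 2 0 k true i D D3 x := by
  intro y y' F hi hv c1 c2
  have len1 := F.len1
  have len3 := F.len3
  have eX : sgb true * crv P k 3 (y + y') - 1 * crv P 0 1 y =
      crv P k 3 (y + y') - crv P 0 1 y := by
    show 1 * crv P k 3 (y + y') - 1 * crv P 0 1 y = _
    ring
  rw [eX] at len1 len3
  simp only [sgr, cond_true] at c1 c2 ⊢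
  have en : crv P 0 1 y - crv P k 3 (y + y') = sgr false (crv P k 3 (y + y') - crv P 0 1 y) := by
    show _ = -(_ - _)
    ring
  have c1' := c1
  have c2' := c2
  rw [en] at c1' c2'
  have tK := third_lin H.side.pinK F.q2 len1 len3 false i c1' c2'
  have tL := third_lin H.side.pinL F.q2 len1 len3 false i c1' c2'
  have tC := third_lin H.pinC F.q2 len1 len3 false i c1' c2'
  rw [← en] at tK tL tC
  rw [C.i0] at c1 tK tL tC
  rw [crv0q (q := 1)] at tK tL tC c2 c1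
  rw [crv0q (q := 1)]
  have hv' : y' - 1 ≤ 2 / 3 * c3n (y + y') := hv
  have t0 : 0 < c3n (y + y') := by
    have h1 := half_lt_c1 (y := y) (by linarith [F.q1.1]) F.q1.2
    have h2 := crv2_le_half C.ρ1 (P.nonneg _) F.q2
    have h3 : crv P k 3 (y + y') ≤ c3n (y + y') := crv_le F.q3 _
    linarith
  have h := H.pt F.q1 F.q2 F.q3 hi t0
  have k := h.tBW (j := i.succ) H.e0 C.sa C.su C.cv C.cu H.U H.hm c1 c2 tK tL tC (C.ineq H h hv' c1 c2)
  have e4 : ∀ z : ℝ, -sgr false z = z := fun z => by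
    show - -z = z
    ring
  rw [e4, e4, e4] at k
  exact k

/-- The certificate of a node, type `P`, second vertex. -/
structure CtPW (P : Pos n) (RK RL RU : Fin (n + 1) → ℕ → ℝ → ℝ → ℝ) (e : ℝ) (p : Pm) (q : Pu)
    (A : Sd) (G : Su) (k : Fin (n + 1)) (i : Fin n) (D D3 W1 W2 P3 W3 : ℕ) (x : ℝ) : Prop where
  sa : SdOk P (scK e RK) RL p A k D3 x
  su : SuOk RU q A G k D3 x
  cv : P1Ok P (scK e RK) RL p i.succ D x
  cu : P1U RU q i.succ D x
  i0 : i.castSucc = 0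
  sv : ∀ u, p.sv.v u = u - (D : ℝ) / S
  w1 : 3 * D3 * 1073741824 ≤ W1 ^ 2
  w2 : 1073741824 ≤ W2
  hx : (P3 : ℝ) / S ≤ x
  hx' : x ≤ ((P3 : ℝ) + W3) / S
  ct : ∃ t, chk3 (onCell 0 W1 0 W2 P3 W3 (fdPW p q A G)) t 1 1 1 = true

theorem CtPW.ineq (C : CtPW P RK RL RU e p q A G k i D D3 W1 W2 P3 W3 x) (m0 : 0 ≤ q.mo.v x)
    (h : PtOk P (scK e RK) RL false N0 p D D3 x y y' (c3n (y + y')) b)
    (c1 : c1n y ≤ c1n y' + crv P k 3 (y + y'))
    (c2 : c1n y' + crv P k 3 (y + y') ≤ crv P i.succ 1 y) :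
    IneqPW p q A G (c3n (y + y')) b x := by
  obtain ⟨g, -, -, x0, x1, q1, q2, q3, i1, i2, i3, -, -⟩ := id h
  have t0 := g.t0
  obtain ⟨a1, -, -⟩ := C.sa q3 i3 rfl t0
  have e := g.tb
  have es := g.ey
  have v0 := g.v0 q2.1
  have hss := dgs_v (c3n (y + y')) b
  have D1 := (abs_lt.1 i1).1
  have hk : crv P k 3 (y + y') ≤ c3n (y + y') := crv_le q3 _
  rw [a1] at hk
  have hch : A.ch.v (c3n (y + y')) ≤ 1 := by
    by_contra hc
    push Not at hc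
    nlinarith
  have hb1 : b ≤ A.ch.v (c3n (y + y')) := by
    refine le_of_mul_le_mul_left ?_ t0
    rw [a1] at c1
    linarith
  have ey1 : dgy1.v (c3n (y + y')) b = y := by
    have : dgy1.v (c3n (y + y')) b = 1 - dgs.v (c3n (y + y')) b := by
      simp only [dgy1]
      push_cast
      ring
    rw [this, hss]
    linarith
  have key := cert12 (Q := fun t b x => 0 ≤ q.mo.v x → 0 ≤ t → 0 ≤ b → 0 ≤ dgvt.v t b → b ≤ A.ch.v t →
    p.sv.v (dgs.v t b) ≤ 0 → t * (A.ch.v t - b) ≤ p.x11.v (dgy1.v t b) - p.x01.v (dgy1.v t b) →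
    IneqPW p q A G t b x)
    (f := fdPW p q A G)
    (fun hA hB hC h m0 t0 b0 v0 c1 hs c2 => fdPW_sound hA hB hC h m0 t0 b0 v0 c1 hs c2)
    C.ct t0.le (range_t q3 i3 C.w1) g.b0 (range_1 (hb1.trans hch) C.w2) C.hx C.hx'
  refine key m0 t0.le g.b0 v0 hb1 ?_ ?_
  · rw [C.sv, hss]
    linarith
  · rw [ey1, ← C.cv.x1 q1 i1, ← C.cv.x0 q1 i1]
    rw [a1] at c2
    rw [mul_sub]
    linarith

/-- **Type `P`**, second vertex. -/
theorem sgP1W (H : BsW P RK RL RU pc N0 p q e mo D D3 x)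
    (C : CtPW P RK RL RU e p q A G k i D D3 W1 W2 P3 W3 x) :
    Sg12BW P RK RL RU N0 e mo .pnn 2 1 0 k false i D D3 x := by
  intro y y' F hi c1 c2
  have len1 := F.len1
  have len3 := F.len3
  have eX : sgb false * crv P k 3 (y + y') - 1 * crv P 0 2 y =
      sgr false (crv P k 3 (y + y')) - crv P 0 2 y := by
    show -1 * crv P k 3 (y + y') - 1 * crv P 0 2 y = -crv P k 3 (y + y') - _
    ring
  rw [eX] at len1 len3
  have en : crv P 0 2 y - sgr false (crv P k 3 (y + y')) =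
      sgr false (sgr false (crv P k 3 (y + y')) - crv P 0 2 y) := by
    show _ = -(_ - _)
    ring
  have c1' := c1
  have c2' := c2
  rw [en] at c1' c2'
  have tK := third_lin H.side.pinK F.q2 len1 len3 false i c1' c2'
  have tL := third_lin H.side.pinL F.q2 len1 len3 false i c1' c2'
  have tC := third_lin H.pinC F.q2 len1 len3 false i c1' c2'
  rw [← en] at tK tL tC
  rw [C.i0] at c1 tK tL tC
  have ez : crv P 0 2 y - sgr false (crv P k 3 (y + y')) = c1n y + crv P k 3 (y + y') := by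
    rw [crv0q]
    show _ - -_ = _
    ring
  rw [ez] at c1 c2 tK tL tC
  have q3 : InQ 3 (y' + y) := by rw [add_comm]; exact F.q3
  have hi' : In12 D D3 y' y := ⟨hi.2.1, hi.1, by rw [add_comm]; exact hi.2.2⟩
  rw [add_comm y y'] at c1 c2 tK tL tC ⊢
  have hk : crv P k 3 (y' + y) ≤ c3n (y' + y) := crv_le q3 _
  rw [crv0q] at c1
  have t0 : 0 < c3n (y' + y) := by
    have h1 := half_lt_c1 (y := y') (by linarith [F.q2.1]) F.q2.2
    have h2 := c1_le_half F.q1.1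
    linarith
  have h := H.pt F.q2 F.q1 q3 hi' t0
  have k := h.tPW (j := i.succ) (k := k) H.e0 C.sa C.su C.cv C.cu H.U H.hm tK tL tC (C.ineq (H.mn) h c1 c2)
  have e4 : ∀ z : ℝ, -sgr false z = z := fun z => by
    show - -z = z
    ring
  rw [e4, e4, e4] at k
  rw [crv0q] at k ⊢
  exact k

/-! ### Type `C` -/

/-- The certificate of a segment, type `C`, first vertex. -/
structure CtU (P : Pos n) (RK RL : Fin (n + 1) → ℕ → ℝ → ℝ → ℝ) (p : Pm) (M : NdU)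
    (T : Th) (C : CvP) (B : Sd) (m : Fin (n + 1)) (i : Fin n) (D D3 W1 W2 P3 W3 : ℕ) (x : ℝ) :
    Prop where
  nl : NuL P RK RL M i.castSucc D3 x
  sb : SdOk P RK RL p B i.succ D3 x
  gr : GrOk T (ndUL p M) B
  cv : CvOk P RK RL p C m D x
  ρm : P.ρ m ≤ 1
  sv : ∀ u, p.sv.v u = u - (D : ℝ) / S
  w1 : 3 * D3 * 1073741824 ≤ W1 ^ 2
  w2 : 1073741824 ≤ W2
  hx : (P3 : ℝ) / S ≤ x
  hx' : x ≤ ((P3 : ℝ) + W3) / S
  ct : ∃ t, chk3 (onCell 0 W1 0 W2 P3 W3 (fdU p M T C B)) t 1 1 1 = true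

/-- **Type `C`**, first vertex. -/
theorem sgU1 (H : Bs P RK RL pc true N0 p D D3 x)
    (K : CtU P RK RL p M T C B m i D D3 W1 W2 P3 W3 x) :
    Sg12A P RK RL true N0 .npn 1 2 0 m true i D D3 x := by
  intro y y' F hi c1 c2
  have len1 := F.len1
  have len3 := F.len3
  have eX : 1 * crv P 0 1 y + -1 * crv P m 2 y' = crv P 0 1 y - crv P m 2 y' := by ring
  rw [eX] at len1 len3
  have tK := third_lin H.side.pinK F.q3 len1 len3 true i c1 c2
  have tL := third_lin H.side.pinL F.q3 len1 len3 true i c1 c2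
  simp only [sgr, cond_true] at c1 c2 tK tL
  have h4 := h4_123 H.hD K.ρm F hi
  have h4' : y' - 1 ≤ 3 / 4 * c3n (y + y') := h4
  rw [crv0q] at c1 c2 tK tL
  rw [crv0q]
  have t0 : 0 < c3n (y + y') := by
    have h1 := half_lt_c1 (y := y) (by linarith [F.q1.1]) F.q1.2
    have h2 := crv2_le_half K.ρm (P.nonneg _) F.q2
    have h3 := c2.trans (crv_le F.q3 _)
    linarith
  obtain ⟨i1, i2, i3⟩ := hi
  have h : PcOk P RK RL true N0 p D D3 x y y' (c3n (y + y')) ((y' - 1) / c3n (y + y')) :=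
    ⟨t0, rfl, mul_div_cancel₀ _ t0.ne', H.f, H.T, H.x0, H.x1, F.q1, F.q2, F.q3, i1, i2, i3, H.hD⟩
  have b0 : 0 ≤ (y' - 1) / c3n (y + y') := div_nonneg (by linarith [F.q2.1]) t0.le
  have b1 : (y' - 1) / c3n (y + y') ≤ 1 := by
    rw [div_le_one t0]
    linarith
  obtain ⟨X1, X2⟩ := h.X K.cv
  obtain ⟨a1, -, -⟩ := K.nl.sd (p := p) F.q3 i3 rfl t0
  obtain ⟨d1, -, -⟩ := K.sb F.q3 i3 rfl t0
  obtain ⟨-, e2, e3, -, -, -⟩ := h.co
  have key := cert12 (Q := fun t b x => 0 ≤ b → 0 ≤ dgtg.v t →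
    (ndUL p M).ch.v t ≤ (dgCz3 C).v t b → (dgCz3 C).v t b ≤ B.ch.v t →
    p.sv.v (dgCs.v t b) ≤ 0 → IneqU true p M T C t b x)
    (f := fdU p M T C B)
    (fun hA hB hC h b0 g0 c1 c2 hs => fdU_sound hA hB hC h b0 g0 c1 c2 hs)
    K.ct t0.le (range_t F.q3 i3 K.w1) b0 (range_1 b1 K.w2) K.hx K.hx'
  have HI := key b0 (by
    rw [dgtg_v]
    exact mul_nonneg t0.le gv_pos.le) (by
    have c1' := c1
    rw [X1, a1] at c1'
    exact le_of_mul_le_mul_left c1' t0) (by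
    have c2' := c2
    rw [X1, d1] at c2'
    exact le_of_mul_le_mul_left c2' t0) (by
    rw [K.sv, e3]
    have := (abs_lt.1 i1).1
    linarith)
  exact h.tU K.cv K.nl K.sb K.gr c1 c2 tK tL HI

/-- The certificate of a segment, type `C`, second vertex. -/
structure CtCW (P : Pos n) (RK RL RU : Fin (n + 1) → ℕ → ℝ → ℝ → ℝ) (e : ℝ) (p : Pm) (q : Pu)
    (M : NdU) (T : Th) (V : Tu) (C : CvP) (L : Fn2) (B : Sd) (H' : Su) (m : Fin (n + 1))
    (i : Fin n) (D D3 W1 W2 P3 W3 : ℕ) (x : ℝ) : Prop where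
  nl : NuL P (scK e RK) RL M i.castSucc D3 x
  nc : NuLC P RU M i.castSucc D3 x
  sb : SdOk P (scK e RK) RL p B i.succ D3 x
  sh : SuOk RU q B H' i.succ D3 x
  gr : GrOk T (ndUL p M) B
  gu : GuOk V (ndUL p M) B (suL q M) H'
  cv : CvOk P (scK e RK) RL p C m D x
  cu : CvU RU C L m D x
  ρm : P.ρ m ≤ 1
  sv : ∀ u, p.sv.v u = u - (D : ℝ) / S
  w1 : 3 * D3 * 1073741824 ≤ W1 ^ 2
  w2 : 1073741824 ≤ W2
  hx : (P3 : ℝ) / S ≤ x
  hx' : x ≤ ((P3 : ℝ) + W3) / S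
  ct : ∃ t, chk3 (onCell 0 W1 0 W2 P3 W3 (fdCW p q M T V C L B)) t 1 1 1 = true

/-- **Type `C`**, second vertex. -/
theorem sgC1W {L : Fn2} (H : BsW P RK RL RU pc N0 p q e mo D D3 x)
    (K : CtCW P RK RL RU e p q M T V C L B H' m i D D3 W1 W2 P3 W3 x) :
    Sg12AW P RK RL RU N0 e mo .npn 1 2 0 m true i D D3 x := by
  intro y y' F hi c1 c2
  have len1 := F.len1
  have len3 := F.len3
  have eX : 1 * crv P 0 1 y + -1 * crv P m 2 y' = crv P 0 1 y - crv P m 2 y' := by ring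
  rw [eX] at len1 len3
  have tK := third_lin H.side.pinK F.q3 len1 len3 true i c1 c2
  have tL := third_lin H.side.pinL F.q3 len1 len3 true i c1 c2
  have tC := third_lin H.pinC F.q3 len1 len3 true i c1 c2
  simp only [sgr, cond_true] at c1 c2 tK tL tC
  have h4 := h4_123 H.hD K.ρm F hi
  have h4' : y' - 1 ≤ 3 / 4 * c3n (y + y') := h4
  rw [crv0q] at c1 c2 tK tL tC
  rw [crv0q]
  have t0 : 0 < c3n (y + y') := by
    have h1 := half_lt_c1 (y := y) (by linarith [F.q1.1]) F.q1.2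
    have h2 := crv2_le_half K.ρm (P.nonneg _) F.q2
    have h3 := c2.trans (crv_le F.q3 _)
    linarith
  obtain ⟨i1, i2, i3⟩ := hi
  have h : PcOk P (scK e RK) RL false N0 p D D3 x y y' (c3n (y + y')) ((y' - 1) / c3n (y + y')) :=
    ⟨t0, rfl, mul_div_cancel₀ _ t0.ne', H.f, H.T, H.x0, H.x1, F.q1, F.q2, F.q3, i1, i2, i3, H.hD⟩
  have b0 : 0 ≤ (y' - 1) / c3n (y + y') := div_nonneg (by linarith [F.q2.1]) t0.le
  have b1 : (y' - 1) / c3n (y + y') ≤ 1 := by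
    rw [div_le_one t0]
    linarith
  obtain ⟨X1, X2⟩ := h.X K.cv
  obtain ⟨a1, -, -⟩ := K.nl.sd (p := p) F.q3 i3 rfl t0
  obtain ⟨d1, -, -⟩ := K.sb F.q3 i3 rfl t0
  obtain ⟨-, e2, e3, -, -, -⟩ := h.co
  have key := cert12 (Q := fun t b x => 0 ≤ q.mo.v x → 0 ≤ b → 0 ≤ dgtg.v t →
    (ndUL p M).ch.v t ≤ (dgCz3 C).v t b → (dgCz3 C).v t b ≤ B.ch.v t →
    p.sv.v (dgCs.v t b) ≤ 0 → IneqCW p q M T V C L t b x)
    (f := fdCW p q M T V C L B)
    (fun hA hB hC h m0 b0 g0 c1 c2 hs => fdCW_sound hA hB hC h m0 b0 g0 c1 c2 hs)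
    K.ct t0.le (range_t F.q3 i3 K.w1) b0 (range_1 b1 K.w2) K.hx K.hx'
  have HI := key (H.mn) b0 (by
    rw [dgtg_v]
    exact mul_nonneg t0.le gv_pos.le) (by
    have c1' := c1
    rw [X1, a1] at c1'
    exact le_of_mul_le_mul_left c1' t0) (by
    have c2' := c2
    rw [X1, d1] at c2'
    exact le_of_mul_le_mul_left c2' t0) (by
    rw [K.sv, e3]
    have := (abs_lt.1 i1).1
    linarith)
  exact h.tCW H.e0 K.cv K.cu K.nl K.nc K.sb K.sh K.gr K.gu H.U H.hm c1 c2 tK tL tC HI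

theorem guLo (A B : Sd) (G H : Su) : GuOk (tuLo A B G H) A B G H := fun _ _ => rfl

theorem guUp (A B : Sd) (G H : Su) : GuOk (tuUp A B G H) A B G H := fun _ _ => rfl

/-! ### The statement at both vertices -/

theorem Sg12BlW.ve {pd : ℕ → Fn3} {Ef : Fn1} {o : ℝ} {f : ℝ → ℝ} {cn : Con} {qa qb N : ℕ}
    {sn : Bool} {En : ℝ} (h : con qa qb 3 = some cn)
    (hq : qa = 1 ∨ qa = 2) (hq' : qb = 1 ∨ qb = 2)
    (side : SideOk P RK RL pc x) (hκ : κ * h0 = ken x) (T : ThrD P RC RU pd Ef N0 mo o x)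
    (H : Sg12BlW P RK RL RU N0 En mo cn qa qb j k sn i D D3 x)
    (HF : Sg12Bl P RK RL true N cn qa qb j k sn i D D3 x) :
    SgBl (VEB N0 κ En o f P RK RL RC pc (fun q => Fn3.sc Ef (pd q)) qa qb j k sn) P RK RL pc
      cn qa qb j k sn i D D3 x :=
  fun y y' F hi hv c1 c2 => stEB_of F h hκ T.sc T.ef T.mo
    (slt_B h hq hq' side (HF y y' F hi hv c1 c2) F)
    (sltW_B h hq hq' side T.th (H y y' F hi hv c1 c2) F)

end

end Pool.Agent.Strip051.PB.Dg
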