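import Pool.Agent.Strip051.PB.Alt
import Pool.Agent.Strip051.PB.AltE

/-! # The alternatives are monotone in the exclusions

A statement which holds on a box holds on a smaller one. -/

namespace Pool.Agent.Strip051.PB

open Pool.Agent.StripNear Pool.Agent.StripSquare Pool.Agent.Strip051.Sweep
open Pool.Agent.Strip051.LC

/-- The condition `c` implies the condition `c'`. -/
def Cc.imp (c c' : Cc) : Bool :=
  c.k == c'.k && c.n == c'.n && c.s == c'.s &&
    (if c.k ≤ 3 then decide (c.d ≤ c'.d) else decide (c'.d ≤ c.d))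

theorem Cc.imp_sound {c c' : Cc} (h : c.imp c' = true) {x y z X Y : ℝ} (H : c.P x y z X Y) :
    c'.P x y z X Y := by
  obtain ⟨k, n, s, d⟩ := c
  obtain ⟨k', n', s', d'⟩ := c'
  simp only [Cc.imp, Bool.and_eq_true, beq_iff_eq] at h
  obtain ⟨⟨⟨rfl, rfl⟩, rfl⟩, h⟩ := h
  have m : ∀ {p q : ℕ}, p ≤ q → (p : ℝ) / 1073741824 ≤ (q : ℝ) / 1073741824 := fun hpq =>
    div_le_div_of_nonneg_right (Nat.cast_le.2 hpq) (by norm_num)
  unfold Cc.P Cc.cen at *
  match k with
  | 0 =>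
    simp only [Nat.zero_le, if_true, decide_eq_true_eq] at h
    exact lt_of_lt_of_le H (m h)
  | 1 =>
    simp only [Nat.reduceLeDiff, if_true, decide_eq_true_eq] at h
    exact lt_of_lt_of_le H (m h)
  | 2 =>
    simp only [Nat.reduceLeDiff, if_true, decide_eq_true_eq] at h
    exact lt_of_lt_of_le H (m h)
  | 3 =>
    simp only [le_refl, if_true, decide_eq_true_eq] at h
    exact lt_of_lt_of_le H (m h)
  | k + 4 =>
    have h4 : ¬ (k + 4 ≤ 3) := by omega
    simp only [h4, if_false, decide_eq_true_eq] at h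
    exact lt_of_le_of_lt (m h) H

/-- Each condition of `l'` follows from one of `l`. -/
def Cc.imps (l l' : List Cc) : Bool := l'.all fun c' => l.any fun c => c.imp c'

theorem Cc.imps_sound {l l' : List Cc} (h : Cc.imps l l' = true) {x y z X Y : ℝ}
    (H : ∀ d ∈ l, d.P x y z X Y) : ∀ d ∈ l', d.P x y z X Y := by
  intro d hd
  obtain ⟨c, hc, hi⟩ := List.any_eq_true.1 (List.all_eq_true.1 h d hd)
  exact Cc.imp_sound hi (H c hc)

section

variable {n : ℕ} {V : ℝ → ℝ → ℝ → ℝ → ℝ × ℝ × ℝ → ℝ × ℝ × ℝ → Prop} {P : Pos n}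
  {RK RL RC : Fin (n + 1) → ℕ → ℝ → ℝ → ℝ} {pc : ℕ → Piece} {pd : ℕ → Fn3} {l l' : List Cc}
  {a b c : ℕ} {j k : Fin (n + 1)} {σ σ' x : ℝ} {N0 : ℕ} {κ E o : ℝ} {f : ℝ → ℝ}

theorem AltA.mono (h : Cc.imps l l' = true) (H : AltA V P RK RL pc l' a b c j k σ σ' x) :
    AltA V P RK RL pc l a b c j k σ σ' x :=
  fun y y' F hd => H y y' F (Cc.imps_sound h hd)

theorem AltB.mono (h : Cc.imps l l' = true) (H : AltB V P RK RL pc l' a b c j k σ σ' x) :
    AltB V P RK RL pc l a b c j k σ σ' x :=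
  fun y y' F hd => H y y' F (Cc.imps_sound h hd)

theorem AltEA.mono (h : Cc.imps l l' = true)
    (H : AltEA N0 κ E o f P RK RL RC pc pd l' a b c j k σ σ' x) :
    AltEA N0 κ E o f P RK RL RC pc pd l a b c j k σ σ' x :=
  fun y y' F hd => H y y' F (Cc.imps_sound h hd)

theorem AltEB.mono (h : Cc.imps l l' = true)
    (H : AltEB N0 κ E o f P RK RL RC pc pd l' a b c j k σ σ' x) :
    AltEB N0 κ E o f P RK RL RC pc pd l a b c j k σ σ' x :=
  fun y y' F hd => H y y' F (Cc.imps_sound h hd)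

end

end Pool.Agent.Strip051.PB
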