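import Pool.Agent.Strip051.PB.MolX
import Pool.Agent.Strip051.LC.Exact.MolN9

/-! # The near charts with the weaker bound of the correction -/

set_option linter.unusedVariables false

namespace Pool.Agent.Strip051.PB.Mol

open Pool.Agent.StripNear Pool.Agent.StripSquare Pool.Agent.Strip051.Sweep
open Pool.Agent.Strip051.LC Pool.Agent.Strip051.LC.MolN
open Pool.Agent.Strip051.LC.Line (tau)

theorem fin1Ap' {T : MolP} {u b x κ τ1 τ3 y y' X12 X13 : ℝ} {r rB rD l : ℝ × ℝ × ℝ}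
    (h : DomA u b x) (hb : 0 ≤ b) (hκ : κ * h0 = ken x) (hy : y = x + u) (hy' : y' = 1 + b)
    (hi : T.it * τ3 = 1) (ha : AbsA T u b x X12 X13) (hk : KerA T u b x τ1 τ3 X13 rB)
    (hd : DerA T u b x τ1 τ3 X13 rD) (hdy : DyOk x (n3 T u b x) T.dy)
    (hr : r = ((1 + mun 3 x * cR x) * rB.1 + mun 3 x * rD.1,
      (1 + mun 3 x * cR x) * rB.2.1 + mun 3 x * rD.2.1,
      (1 + mun 3 x * cR x) * rB.2.2 + mun 3 x * rD.2.2))
    (hl : LevA T u b x X13 l) (t1 : tau (h0 * y) = h0 * τ1) (t3 : tau (h0 * y + h0 * y') = h0 * τ3)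
    (hP : 0 < n752 T u b x) (hQ : 0 < n779 T u b x)
    (tN : 0 < -(n866 T u b x) ∨ 0 < n798 T u b x ∨ 0 < n870 T u b x)
    (tM : 0 < n866 T u b x ∨ 0 < n817 T u b x ∨ 0 < n874 T u b x) :
    NGV κ (h0 * x) (lvN 3 0 x y y' (exn' X12 X13 y (y + y')) l) (h0 * y) (h0 * y') r := by
  have ee : exn' X12 X13 y (y + y') = n160 T u b x + b * (1 / 2 * (n12 T u b x + (T.p1) * (n16 T u b x) + (T.ws) * (n3 T u b x))) := by
    rw [hy, hy']
    exact exq (Xs := 0) rfl ha.h12 ha.h13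
  rw [ev1Ap h hb ha hl hy hy' ee, ker1A h hi ha hk hd hr]
  have hh : h0 * y' = h0 + h0 * b := by
    rw [hy']
    ring
  rw [hh] at t3 ⊢
  rw [hy] at t1 t3 ⊢
  have k := ch1Ap' T h hb (hk_e T h.x0 h.x1 hκ) hdy hP hQ (by simpa using tN) (by simpa using tM)
    (by rw [y_eq]; exact t1) (by rw [y_eq]; exact t3)
  rw [y_eq] at k
  exact k

theorem fin1Am' {T : MolP} {u b x κ τ1 τ3 y y' X12 X13 : ℝ} {r rB rD l : ℝ × ℝ × ℝ}
    (h : DomA u b x) (hb : b < 0) (hκ : κ * h0 = ken x) (hy : y = x + u) (hy' : y' = 1 + b)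
    (hi : T.it * τ3 = 1) (ha : AbsA T u b x X12 X13) (hk : KerA T u b x τ1 τ3 X13 rB)
    (hd : DerA T u b x τ1 τ3 X13 rD) (hdy : DyOk x (n3 T u b x) T.dy)
    (hr : r = ((1 + mun 3 x * cR x) * rB.1 + mun 3 x * rD.1,
      (1 + mun 3 x * cR x) * rB.2.1 + mun 3 x * rD.2.1,
      (1 + mun 3 x * cR x) * rB.2.2 + mun 3 x * rD.2.2))
    (hl : LevA T u b x X13 l) (t1 : tau (h0 * y) = h0 * τ1) (t3 : tau (h0 * y + h0 * y') = h0 * τ3)
    (hP : 0 < n752 T u b x) (hQ : 0 < n893 T u b x)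
    (tN : 0 < -(n933 T u b x) ∨ 0 < -(n913 T u b x) ∨ 0 < n937 T u b x)
    (tM : 0 < n933 T u b x ∨ 0 < -(n929 T u b x) ∨ 0 < n939 T u b x) :
    NGV κ (h0 * x) (lvN 3 0 x y y' (exn' X12 X13 y (y + y')) l) (h0 * y) (h0 * y') r := by
  have ee : exn' X12 X13 y (y + y') = n160 T u b x + b * (1 / 2 * (n12 T u b x + (T.p1) * (n16 T u b x) + (T.ws) * (n3 T u b x))) := by
    rw [hy, hy']
    exact exq (Xs := 0) rfl ha.h12 ha.h13
  rw [ev1Am h hb ha hl hy hy' ee, ker1A h hi ha hk hd hr]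
  have hh : h0 * y' = h0 + h0 * b := by
    rw [hy']
    ring
  rw [hh] at t3 ⊢
  rw [hy] at t1 t3 ⊢
  have k := ch1Am' T h hb (hk_e T h.x0 h.x1 hκ) hdy hP hQ (by simpa using tN) (by simpa using tM)
    (by rw [y_eq]; exact t1) (by rw [y_eq]; exact t3)
  rw [y_eq] at k
  exact k

theorem fin1Bp' {T : MolP} {u b x κ τ1 τ3 y y' X12 X13 : ℝ} {r rB rD l : ℝ × ℝ × ℝ}
    (h : DomB u b x) (hb : 0 ≤ b) (hκ : κ * h0 = ken x) (hy : y = x + u) (hy' : y' = 1 + b - (x + u))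
    (hi : T.it * τ3 = 1) (ha : AbsB T u b x X12 X13) (hk : KerB T u b x τ1 τ3 (X12 - X13) rB)
    (hd : DerB T u b x τ1 τ3 (X12 - X13) rD) (hdy : DyOk x (n3 T u b x) T.dy)
    (hr : r = ((1 + mun 3 x * cR x) * rB.1 + mun 3 x * rD.1,
      (1 + mun 3 x * cR x) * rB.2.1 + mun 3 x * rD.2.1,
      (1 + mun 3 x * cR x) * rB.2.2 + mun 3 x * rD.2.2))
    (hl : LevB T u b x (X12 - X13) l) (t1 : tau (h0 * y) = h0 * τ1) (t3 : tau (h0 * y') = h0 * τ3)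
    (hP : 0 < n1047 T u b x) (hQ : 0 < n1070 T u b x)
    (tN : 0 < -(n1115 T u b x) ∨ 0 < n1092 T u b x ∨ 0 < n1117 T u b x)
    (tM : 0 < n1115 T u b x ∨ 0 < n1110 T u b x ∨ 0 < n1119 T u b x) :
    NGV κ (h0 * x) (lvN 3 0 x y y' (exn' X12 X13 y (y + y')) l) (h0 * y) (h0 * y') r := by
  have ee : exn' X12 X13 y (y + y') = n160 T u b x + b * (1 / 2 * (n12 T u b x + (T.p1) * (n16 T u b x) + (T.ws) * (n3 T u b x))) := by
    rw [hy, hy']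
    exact exqB (by ring) ha.h12 ha.h13
  rw [ev1Bp h hb ha hl hy hy' ee, ker1B h hi ha hk hd hr]
  have hh : h0 * y' = h0 + h0 * b - h0 * (x + u) := by
    rw [hy']
    ring
  rw [hh] at t3 ⊢
  rw [hy] at t1 ⊢
  have k := ch1Bp' T h hb (hk_e T h.x0 h.x1 hκ) hdy hP hQ (by simpa using tN) (by simpa using tM)
    (by rw [y_eq]; exact t1) (by rw [y_eq]; exact t3)
  rw [y_eq] at k
  exact k

theorem fin1Bm' {T : MolP} {u b x κ τ1 τ3 y y' X12 X13 : ℝ} {r rB rD l : ℝ × ℝ × ℝ}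
    (h : DomB u b x) (hb : b < 0) (hκ : κ * h0 = ken x) (hy : y = x + u) (hy' : y' = 1 + b - (x + u))
    (hi : T.it * τ3 = 1) (ha : AbsB T u b x X12 X13) (hk : KerB T u b x τ1 τ3 (X12 - X13) rB)
    (hd : DerB T u b x τ1 τ3 (X12 - X13) rD) (hdy : DyOk x (n3 T u b x) T.dy)
    (hr : r = ((1 + mun 3 x * cR x) * rB.1 + mun 3 x * rD.1,
      (1 + mun 3 x * cR x) * rB.2.1 + mun 3 x * rD.2.1,
      (1 + mun 3 x * cR x) * rB.2.2 + mun 3 x * rD.2.2))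
    (hl : LevB T u b x (X12 - X13) l) (t1 : tau (h0 * y) = h0 * τ1) (t3 : tau (h0 * y') = h0 * τ3)
    (hP : 0 < n1047 T u b x) (hQ : 0 < n1134 T u b x)
    (tN : 0 < -(n1176 T u b x) ∨ 0 < -(n1156 T u b x) ∨ 0 < n1180 T u b x)
    (tM : 0 < n1176 T u b x ∨ 0 < -(n1172 T u b x) ∨ 0 < n1182 T u b x) :
    NGV κ (h0 * x) (lvN 3 0 x y y' (exn' X12 X13 y (y + y')) l) (h0 * y) (h0 * y') r := by
  have ee : exn' X12 X13 y (y + y') = n160 T u b x + b * (1 / 2 * (n12 T u b x + (T.p1) * (n16 T u b x) + (T.ws) * (n3 T u b x))) := by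
    rw [hy, hy']
    exact exqB (by ring) ha.h12 ha.h13
  rw [ev1Bm h hb ha hl hy hy' ee, ker1B h hi ha hk hd hr]
  have hh : h0 * y' = h0 + h0 * b - h0 * (x + u) := by
    rw [hy']
    ring
  rw [hh] at t3 ⊢
  rw [hy] at t1 ⊢
  have k := ch1Bm' T h hb (hk_e T h.x0 h.x1 hκ) hdy hP hQ (by simpa using tN) (by simpa using tM)
    (by rw [y_eq]; exact t1) (by rw [y_eq]; exact t3)
  rw [y_eq] at k
  exact k

theorem nearAp' {n : ℕ} {P : Pos n} {RK RL : Fin (n + 1) → ℕ → ℝ → ℝ → ℝ} {pc : ℕ → Piece}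
    {T : MolT} {a c : ℕ} {k : Fin (n + 1)} {u b x κ τ1 τ3 : ℝ} {sk cx : List Fn3}
    (D : DomA u b x) (hb : 0 ≤ b) (hκ : κ * h0 = ken x)
    (hd : T.kc.v (psn (x + u + b)) x = T.kc.v (psn (x + u)) x + b * (fd1A T.dq true).v u b x)
    (hit : ((T.a true).at_ u b x).it * τ3 = 1)
    (t1 : tau (h0 * (x + u)) = h0 * τ1) (t3 : tau (h0 * (x + u) + h0 * (1 + b)) = h0 * τ3)
    (hx : T.st.xs.v u b x = 1 / 2 + b * T.st.ws.v u b x)
    (hX : crv P k 2 (1 + b) = T.st.xs.v u b x)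
    (K : (k1Ap (T.a true) sk cx).P u b x) (hs : ∀ G ∈ sk, G.v u b x ≤ 0)
    (hdy : DyOk x (x + u) (T.kc.v (psn (x + u)) x)) {kw dw fB fD : ℝ}
    (K1 : RK 0 a (x + u) x = (1 + mun 3 x * cR x) * ((c1n (x + u) * cG (x + u) + T.kc.v (psn (x + u)) x) * τ1) +
      mun 3 x * ((cP (x + u) - (cR (x + u) + 2 * c1n (x + u)) * T.kc.v (psn (x + u)) x) * τ1))
    (K2 : RK k 2 (1 + b) x = (1 + mun 3 x * cR x) * kw + mun 3 x * dw)
    (hkw : kw = 1 / 2 + b * T.st.rs.v u b x) (hdw : dw = b * T.st.k2.v u b x)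
    (K3 : (∀ G ∈ cx, 0 < G.v u b x) → (pc c).K.v (c1n (x + u) - T.st.xs.v u b x) (x + u + (1 + b)) x = (1 + mun 3 x * cR x) * fB + mun 3 x * fD)
    (hfB : (∀ G ∈ cx, 0 < G.v u b x) → fB = ((c1n (x + u + b) - 1 / 2) * cG (x + u + b) + T.kc.v (psn (x + u + b)) x) * τ3 + T.sK.v (c1n (x + u) - T.st.xs.v u b x) (1 + (x + u + b)) x * (c1n (x + u) - T.st.xs.v u b x - (c1n (x + u + b) - 1 / 2)))
    (hfD : (∀ G ∈ cx, 0 < G.v u b x) → fD = (cP (x + u + b) - 1 / 2 * cD (x + u + b) - (cR (x + u + b) + 2 * c1n (x + u + b) - 1) * T.kc.v (psn (x + u + b)) x) * τ3 + T.sD.v (c1n (x + u) - T.st.xs.v u b x) (1 + (x + u + b)) x * (c1n (x + u) - T.st.xs.v u b x - (c1n (x + u + b) - 1 / 2)))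
    (L1 : RL 0 a (x + u) x = cQ x (x + u) (T.kc.v (psn (x + u)) x))
    (L2 : RL k 2 (1 + b) x = b * T.st.xk.v u b x)
    (L3 : (∀ G ∈ cx, 0 < G.v u b x) → (pc c).L.v (c1n (x + u) - T.st.xs.v u b x) (x + u + (1 + b)) x = cQ x (x + u + b) (T.kc.v (psn (x + u + b)) x) + T.sX.v (c1n (x + u) - T.st.xs.v u b x) (1 + (x + u + b)) x * (c1n (x + u) - T.st.xs.v u b x - (c1n (x + u + b) - 1 / 2))) :
    StA (VN 3 κ) P RK RL pc a 2 c 0 k 1 (-1) x (x + u) (1 + b) := by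
  obtain ⟨hc, hP, hQ, tN, tM⟩ := r1Ap K hs
  unfold StA VN exA vlA
  simp only [crv_zero, one_mul, neg_one_mul, ← sub_eq_add_neg]
  rw [hX]
  refine fin1Ap' (rB := ((c1n (x + u) * cG (x + u) + T.kc.v (psn (x + u)) x) * τ1, -kw, fB))
    (rD := ((cP (x + u) - (cR (x + u) + 2 * c1n (x + u)) * T.kc.v (psn (x + u)) x) * τ1, -dw, fD))
    D hb hκ rfl rfl hit (absTA hx) ?_ ?_ hdy ?_ ?_ t1 t3 hP hQ tN tM
  · exact kerTA hd rfl (congrArg (fun t => -t) hkw) (hfB hc)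
  · exact derTA hd rfl (congrArg (fun t => -t) hdw) (hfD hc)
  · rw [K1, K2, K3 hc]
    simp only [mul_neg]
    refine Prod.ext ?_ (Prod.ext ?_ ?_) <;> simp only <;> ring
  · exact levTA hd L1 (congrArg (fun t => -t) L2) (L3 hc)

theorem nearAm' {n : ℕ} {P : Pos n} {RK RL : Fin (n + 1) → ℕ → ℝ → ℝ → ℝ} {pc : ℕ → Piece}
    {T : MolT} {a c : ℕ} {k : Fin (n + 1)} {u b x κ τ1 τ3 : ℝ} {sk cx : List Fn3}
    (D : DomA u b x) (hb : b < 0) (hκ : κ * h0 = ken x)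
    (hd : T.kc.v (psn (x + u + b)) x = T.kc.v (psn (x + u)) x + b * (fd1A T.dq false).v u b x)
    (hit : ((T.a false).at_ u b x).it * τ3 = 1)
    (t1 : tau (h0 * (x + u)) = h0 * τ1) (t3 : tau (h0 * (x + u) + h0 * (1 + b)) = h0 * τ3)
    (hx : T.st.xs.v u b x = 1 / 2 + b * T.st.ws.v u b x)
    (hX : crv P k 1 (1 + b) = T.st.xs.v u b x)
    (K : (k1Am (T.a false) sk cx).P u b x) (hs : ∀ G ∈ sk, G.v u b x ≤ 0)
    (hdy : DyOk x (x + u) (T.kc.v (psn (x + u)) x)) {kw dw fB fD : ℝ}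
    (K1 : RK 0 a (x + u) x = (1 + mun 3 x * cR x) * ((c1n (x + u) * cG (x + u) + T.kc.v (psn (x + u)) x) * τ1) +
      mun 3 x * ((cP (x + u) - (cR (x + u) + 2 * c1n (x + u)) * T.kc.v (psn (x + u)) x) * τ1))
    (K2 : RK k 1 (1 + b) x = (1 + mun 3 x * cR x) * kw + mun 3 x * dw)
    (hkw : kw = 1 / 2 + b * T.st.rs.v u b x) (hdw : dw = b * T.st.k2.v u b x)
    (K3 : (∀ G ∈ cx, 0 < G.v u b x) → (pc c).K.v (c1n (x + u) - T.st.xs.v u b x) (x + u + (1 + b)) x = (1 + mun 3 x * cR x) * fB + mun 3 x * fD)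
    (hfB : (∀ G ∈ cx, 0 < G.v u b x) → fB = ((c1n (x + u + b) - 1 / 2) * cG (x + u + b) + T.kc.v (psn (x + u + b)) x) * τ3 + T.sK.v (c1n (x + u) - T.st.xs.v u b x) (1 + (x + u + b)) x * (c1n (x + u) - T.st.xs.v u b x - (c1n (x + u + b) - 1 / 2)))
    (hfD : (∀ G ∈ cx, 0 < G.v u b x) → fD = (cP (x + u + b) - 1 / 2 * cD (x + u + b) - (cR (x + u + b) + 2 * c1n (x + u + b) - 1) * T.kc.v (psn (x + u + b)) x) * τ3 + T.sD.v (c1n (x + u) - T.st.xs.v u b x) (1 + (x + u + b)) x * (c1n (x + u) - T.st.xs.v u b x - (c1n (x + u + b) - 1 / 2)))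
    (L1 : RL 0 a (x + u) x = cQ x (x + u) (T.kc.v (psn (x + u)) x))
    (L2 : RL k 1 (1 + b) x = b * T.st.xk.v u b x)
    (L3 : (∀ G ∈ cx, 0 < G.v u b x) → (pc c).L.v (c1n (x + u) - T.st.xs.v u b x) (x + u + (1 + b)) x = cQ x (x + u + b) (T.kc.v (psn (x + u + b)) x) + T.sX.v (c1n (x + u) - T.st.xs.v u b x) (1 + (x + u + b)) x * (c1n (x + u) - T.st.xs.v u b x - (c1n (x + u + b) - 1 / 2))) :
    StA (VN 3 κ) P RK RL pc a 1 c 0 k 1 (-1) x (x + u) (1 + b) := by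
  obtain ⟨hc, hP, hQ, tN, tM⟩ := r1Am K hs
  unfold StA VN exA vlA
  simp only [crv_zero, one_mul, neg_one_mul, ← sub_eq_add_neg]
  rw [hX]
  refine fin1Am' (rB := ((c1n (x + u) * cG (x + u) + T.kc.v (psn (x + u)) x) * τ1, -kw, fB))
    (rD := ((cP (x + u) - (cR (x + u) + 2 * c1n (x + u)) * T.kc.v (psn (x + u)) x) * τ1, -dw, fD))
    D hb hκ rfl rfl hit (absTA hx) ?_ ?_ hdy ?_ ?_ t1 t3 hP hQ tN tM
  · exact kerTA hd rfl (congrArg (fun t => -t) hkw) (hfB hc)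
  · exact derTA hd rfl (congrArg (fun t => -t) hdw) (hfD hc)
  · rw [K1, K2, K3 hc]
    simp only [mul_neg]
    refine Prod.ext ?_ (Prod.ext ?_ ?_) <;> simp only <;> ring
  · exact levTA hd L1 (congrArg (fun t => -t) L2) (L3 hc)

theorem nearBp' {n : ℕ} {P : Pos n} {RK RL : Fin (n + 1) → ℕ → ℝ → ℝ → ℝ} {pc : ℕ → Piece}
    {T : MolT} {a c : ℕ} {k : Fin (n + 1)} {u b x κ τ1 τ3 : ℝ} {y' : ℝ} {sk cx : List Fn3}
    (D : DomB u b x) (hb : 0 ≤ b) (hκ : κ * h0 = ken x)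
    (hy' : y' = 1 + b - (x + u))
    (hd : T.kc.v (psn (x + u - b)) x = T.kc.v (psn (x + u)) x + b * (fd1B T.dq true).v u b x)
    (hit : ((T.b true).at_ u b x).it * τ3 = 1)
    (t1 : tau (h0 * (x + u)) = h0 * τ1) (t3 : tau (h0 * y') = h0 * τ3)
    (hx : T.st.xs.v u b x = 1 / 2 + b * T.st.ws.v u b x)
    (hX : crv P k 2 (1 + b) = T.st.xs.v u b x)
    (K : (k1Bp (T.b true) sk cx).P u b x) (hs : ∀ G ∈ sk, G.v u b x ≤ 0)
    (hdy : DyOk x (x + u) (T.kc.v (psn (x + u)) x)) {kw dw fB fD : ℝ}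
    (K1 : RK 0 a (x + u) x = (1 + mun 3 x * cR x) * ((c1n (x + u) * cG (x + u) + T.kc.v (psn (x + u)) x) * τ1) +
      mun 3 x * ((cP (x + u) - (cR (x + u) + 2 * c1n (x + u)) * T.kc.v (psn (x + u)) x) * τ1))
    (K2 : RK k 2 (1 + b) x = (1 + mun 3 x * cR x) * kw + mun 3 x * dw)
    (hkw : kw = 1 / 2 + b * T.st.rs.v u b x) (hdw : dw = b * T.st.k2.v u b x)
    (K3 : (∀ G ∈ cx, 0 < G.v u b x) → (pc c).K.v (-T.st.xs.v u b x - c1n (x + u)) y' x = (1 + mun 3 x * cR x) * fB + mun 3 x * fD)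
    (hfB : (∀ G ∈ cx, 0 < G.v u b x) → fB = ((c1n (x + u - b) + 1 / 2) * cG (x + u - b) + T.kc.v (psn (x + u - b)) x) * τ3 - T.sK.v (c1n (x + u) + T.st.xs.v u b x) (1 - (x + u - b)) x * (c1n (x + u) + T.st.xs.v u b x - (c1n (x + u - b) + 1 / 2)))
    (hfD : (∀ G ∈ cx, 0 < G.v u b x) → fD = (cP (x + u - b) + 1 / 2 * cD (x + u - b) - (cR (x + u - b) + 2 * c1n (x + u - b) + 1) * T.kc.v (psn (x + u - b)) x) * τ3 - T.sD.v (c1n (x + u) + T.st.xs.v u b x) (1 - (x + u - b)) x * (c1n (x + u) + T.st.xs.v u b x - (c1n (x + u - b) + 1 / 2)))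
    (L1 : RL 0 a (x + u) x = cQ x (x + u) (T.kc.v (psn (x + u)) x))
    (L2 : RL k 2 (1 + b) x = b * T.st.xk.v u b x)
    (L3 : (∀ G ∈ cx, 0 < G.v u b x) → (pc c).L.v (-T.st.xs.v u b x - c1n (x + u)) y' x = -(cQ x (x + u - b) (T.kc.v (psn (x + u - b)) x) + T.sX.v (c1n (x + u) + T.st.xs.v u b x) (1 - (x + u - b)) x * (c1n (x + u) + T.st.xs.v u b x - (c1n (x + u - b) + 1 / 2)))) :
    StB (VN 3 κ) P RK RL pc a c 2 0 k 1 (-1) x (x + u) y' := by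
  obtain ⟨hc, hP, hQ, tN, tM⟩ := r1Bp K hs
  have e : x + u + y' = 1 + b := by rw [hy']; ring
  unfold StB VN exB vlB
  simp only [crv_zero, one_mul, neg_one_mul, ← sub_eq_add_neg]
  refine fin1Bp' (rB := ((c1n (x + u) * cG (x + u) + T.kc.v (psn (x + u)) x) * τ1, fB, -kw))
    (rD := ((cP (x + u) - (cR (x + u) + 2 * c1n (x + u)) * T.kc.v (psn (x + u)) x) * τ1, fD, -dw))
    D hb hκ rfl hy' hit ?_ ?_ ?_ hdy ?_ ?_ t1 t3 hP hQ tN tM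
  · rw [e, hX]
    exact absTB hx
  · rw [e, hX, sub_neg_eq_add]
    exact kerTB hd rfl (congrArg (fun t => -t) hkw) (hfB hc)
  · rw [e, hX, sub_neg_eq_add]
    exact derTB hd rfl (congrArg (fun t => -t) hdw) (hfD hc)
  · rw [e, hX]
    rw [K1, K2, K3 hc]
    simp only [mul_neg]
    refine Prod.ext ?_ (Prod.ext ?_ ?_) <;> simp only <;> ring
  · rw [e, hX, sub_neg_eq_add]
    exact levTB hd L1 (congrArg (fun t => -t) L2) (L3 hc)

theorem nearBm' {n : ℕ} {P : Pos n} {RK RL : Fin (n + 1) → ℕ → ℝ → ℝ → ℝ} {pc : ℕ → Piece}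
    {T : MolT} {a c : ℕ} {k : Fin (n + 1)} {u b x κ τ1 τ3 : ℝ} {y' : ℝ} {sk cx : List Fn3}
    (D : DomB u b x) (hb : b < 0) (hκ : κ * h0 = ken x)
    (hy' : y' = 1 + b - (x + u))
    (hd : T.kc.v (psn (x + u - b)) x = T.kc.v (psn (x + u)) x + b * (fd1B T.dq false).v u b x)
    (hit : ((T.b false).at_ u b x).it * τ3 = 1)
    (t1 : tau (h0 * (x + u)) = h0 * τ1) (t3 : tau (h0 * y') = h0 * τ3)
    (hx : T.st.xs.v u b x = 1 / 2 + b * T.st.ws.v u b x)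
    (hX : crv P k 1 (1 + b) = T.st.xs.v u b x)
    (K : (k1Bm (T.b false) sk cx).P u b x) (hs : ∀ G ∈ sk, G.v u b x ≤ 0)
    (hdy : DyOk x (x + u) (T.kc.v (psn (x + u)) x)) {kw dw fB fD : ℝ}
    (K1 : RK 0 a (x + u) x = (1 + mun 3 x * cR x) * ((c1n (x + u) * cG (x + u) + T.kc.v (psn (x + u)) x) * τ1) +
      mun 3 x * ((cP (x + u) - (cR (x + u) + 2 * c1n (x + u)) * T.kc.v (psn (x + u)) x) * τ1))
    (K2 : RK k 1 (1 + b) x = (1 + mun 3 x * cR x) * kw + mun 3 x * dw)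
    (hkw : kw = 1 / 2 + b * T.st.rs.v u b x) (hdw : dw = b * T.st.k2.v u b x)
    (K3 : (∀ G ∈ cx, 0 < G.v u b x) → (pc c).K.v (-T.st.xs.v u b x - c1n (x + u)) y' x = (1 + mun 3 x * cR x) * fB + mun 3 x * fD)
    (hfB : (∀ G ∈ cx, 0 < G.v u b x) → fB = ((c1n (x + u - b) + 1 / 2) * cG (x + u - b) + T.kc.v (psn (x + u - b)) x) * τ3 - T.sK.v (c1n (x + u) + T.st.xs.v u b x) (1 - (x + u - b)) x * (c1n (x + u) + T.st.xs.v u b x - (c1n (x + u - b) + 1 / 2)))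
    (hfD : (∀ G ∈ cx, 0 < G.v u b x) → fD = (cP (x + u - b) + 1 / 2 * cD (x + u - b) - (cR (x + u - b) + 2 * c1n (x + u - b) + 1) * T.kc.v (psn (x + u - b)) x) * τ3 - T.sD.v (c1n (x + u) + T.st.xs.v u b x) (1 - (x + u - b)) x * (c1n (x + u) + T.st.xs.v u b x - (c1n (x + u - b) + 1 / 2)))
    (L1 : RL 0 a (x + u) x = cQ x (x + u) (T.kc.v (psn (x + u)) x))
    (L2 : RL k 1 (1 + b) x = b * T.st.xk.v u b x)
    (L3 : (∀ G ∈ cx, 0 < G.v u b x) → (pc c).L.v (-T.st.xs.v u b x - c1n (x + u)) y' x = -(cQ x (x + u - b) (T.kc.v (psn (x + u - b)) x) + T.sX.v (c1n (x + u) + T.st.xs.v u b x) (1 - (x + u - b)) x * (c1n (x + u) + T.st.xs.v u b x - (c1n (x + u - b) + 1 / 2)))) :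
    StB (VN 3 κ) P RK RL pc a c 1 0 k 1 (-1) x (x + u) y' := by
  obtain ⟨hc, hP, hQ, tN, tM⟩ := r1Bm K hs
  have e : x + u + y' = 1 + b := by rw [hy']; ring
  unfold StB VN exB vlB
  simp only [crv_zero, one_mul, neg_one_mul, ← sub_eq_add_neg]
  refine fin1Bm' (rB := ((c1n (x + u) * cG (x + u) + T.kc.v (psn (x + u)) x) * τ1, fB, -kw))
    (rD := ((cP (x + u) - (cR (x + u) + 2 * c1n (x + u)) * T.kc.v (psn (x + u)) x) * τ1, fD, -dw))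
    D hb hκ rfl hy' hit ?_ ?_ ?_ hdy ?_ ?_ t1 t3 hP hQ tN tM
  · rw [e, hX]
    exact absTB hx
  · rw [e, hX, sub_neg_eq_add]
    exact kerTB hd rfl (congrArg (fun t => -t) hkw) (hfB hc)
  · rw [e, hX, sub_neg_eq_add]
    exact derTB hd rfl (congrArg (fun t => -t) hdw) (hfD hc)
  · rw [e, hX]
    rw [K1, K2, K3 hc]
    simp only [mul_neg]
    refine Prod.ext ?_ (Prod.ext ?_ ?_) <;> simp only <;> ring
  · rw [e, hX, sub_neg_eq_add]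
    exact levTB hd L1 (congrArg (fun t => -t) L2) (L3 hc)

end Pool.Agent.Strip051.PB.Mol
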