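import Pool.Agent.Strip051.PB.DgJ

/-! # The corner `(1, 1, 2)`: the exact flux without division, type `A`, first vertex -/

set_option linter.unusedVariables false
set_option linter.unusedSimpArgs false

namespace Pool.Agent.Strip051.PB.Dg

open Pool.Agent.Strip051.PB
open Pool.Agent.StripNear Pool.Agent.StripSquare Pool.Agent.Strip051.Sweep
open Pool.Agent.Strip051.LC

attribute [local irreducible] padd psub pneg pmul psq pinv psqrt psqrtg pabs pps pmax pmin pphi plam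
  pcase phf pnat prat pscale pnorm pdc pnc pone ppos pnn Enc pbad pzero phull pnp pflat

noncomputable def dgQyAp_8 (p : Pm) (T : Th) : Fn3 := ⟨_, _, fun h1 h2 h3 => (enc_mul (enc_norm (enc_sub (enc_pnc _ 1) (dgrr.enc h1 h2))) (enc_norm ((dgd1 p T).enc h1 h2 h3)))⟩
noncomputable def dgQyAp (p : Pm) (T : Th) : Fn3 := ⟨_, _, fun h1 h2 h3 => (enc_sub (enc_add (dgE2.enc h1 h2) (enc_half ((dgl1 p T).enc h1 h2 h3))) (enc_mul (dgq1.enc h3) (enc_norm (enc_add (enc_sub (enc_mul (enc_norm (enc_sub (enc_pnc _ 1) h3)) (enc_norm ((dgQyAp_8 p T).enc h1 h2 h3))) ((dgom p T).enc h1 h2 h3)) (enc_mul (enc_norm (enc_mul (enc_norm (enc_mul h3 (dgrr.enc h1 h2))) (enc_norm (enc_mul (enc_norm ((dgQyAp_8 p T).enc h1 h2 h3)) (enc_norm ((dgom p T).enc h1 h2 h3)))))) (enc_inv (enc_sub (enc_mul (enc_norm ((dgQyAp_8 p T).enc h1 h2 h3)) (dgv.enc h1 h2)) ((dgom p T).enc h1 h2 h3))))))))⟩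
noncomputable def dgQyAm_9 (p : Pm) (T : Th) : Fn3 := ⟨_, _, fun h1 h2 h3 => (enc_mul (enc_norm (enc_sub (enc_pnc _ 1) (dgrr.enc h1 h2))) (enc_norm ((dgd1 p T).enc h1 h2 h3)))⟩
noncomputable def dgQyAm (p : Pm) (T : Th) : Fn3 := ⟨_, _, fun h1 h2 h3 => (enc_sub (enc_add (dgE2.enc h1 h2) (enc_half ((dgl1 p T).enc h1 h2 h3))) (enc_mul (dgq1.enc h3) (enc_norm (enc_sub (enc_sub (enc_neg (enc_mul (enc_norm (enc_sub (enc_pnc _ 1) h3)) (enc_norm ((dgQyAm_9 p T).enc h1 h2 h3)))) ((dgom p T).enc h1 h2 h3)) (enc_mul (enc_norm (enc_mul (enc_norm (enc_mul h3 (dgrr.enc h1 h2))) (enc_norm (enc_mul (enc_norm ((dgQyAm_9 p T).enc h1 h2 h3)) (enc_norm ((dgom p T).enc h1 h2 h3)))))) (enc_inv (enc_sub (enc_neg (enc_mul (enc_norm ((dgQyAm_9 p T).enc h1 h2 h3)) (dgw.enc h1))) ((dgom p T).enc h1 h2 h3))))))))⟩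
noncomputable def dgQyBp_8 (p : Pm) (T : Th) : Fn3 := ⟨_, _, fun h1 h2 h3 => (enc_mul (enc_norm (enc_sub (enc_pnc _ 1) (dgrr.enc h1 h2))) (enc_norm ((dgd1 p T).enc h1 h2 h3)))⟩
noncomputable def dgQyBp (p : Pm) (T : Th) : Fn3 := ⟨_, _, fun h1 h2 h3 => (enc_sub (enc_sub (dgE2.enc h1 h2) (enc_half ((dgl1 p T).enc h1 h2 h3))) (enc_mul (dgq1.enc h3) (enc_norm (enc_add (enc_sub (enc_mul (enc_norm (enc_sub (enc_pnc _ 1) h3)) (enc_norm ((dgQyBp_8 p T).enc h1 h2 h3))) ((dgom p T).enc h1 h2 h3)) (enc_mul (enc_norm (enc_mul (enc_norm (enc_mul h3 (dgrr.enc h1 h2))) (enc_norm (enc_mul (enc_norm ((dgQyBp_8 p T).enc h1 h2 h3)) (enc_norm ((dgom p T).enc h1 h2 h3)))))) (enc_inv (enc_sub (enc_mul (enc_norm ((dgQyBp_8 p T).enc h1 h2 h3)) (dgv.enc h1 h2)) ((dgom p T).enc h1 h2 h3))))))))⟩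
noncomputable def dgQyBm_9 (p : Pm) (T : Th) : Fn3 := ⟨_, _, fun h1 h2 h3 => (enc_mul (enc_norm (enc_sub (enc_pnc _ 1) (dgrr.enc h1 h2))) (enc_norm ((dgd1 p T).enc h1 h2 h3)))⟩
noncomputable def dgQyBm (p : Pm) (T : Th) : Fn3 := ⟨_, _, fun h1 h2 h3 => (enc_sub (enc_sub (dgE2.enc h1 h2) (enc_half ((dgl1 p T).enc h1 h2 h3))) (enc_mul (dgq1.enc h3) (enc_norm (enc_sub (enc_sub (enc_neg (enc_mul (enc_norm (enc_sub (enc_pnc _ 1) h3)) (enc_norm ((dgQyBm_9 p T).enc h1 h2 h3)))) ((dgom p T).enc h1 h2 h3)) (enc_mul (enc_norm (enc_mul (enc_norm (enc_mul h3 (dgrr.enc h1 h2))) (enc_norm (enc_mul (enc_norm ((dgQyBm_9 p T).enc h1 h2 h3)) (enc_norm ((dgom p T).enc h1 h2 h3)))))) (enc_inv (enc_sub (enc_neg (enc_mul (enc_norm ((dgQyBm_9 p T).enc h1 h2 h3)) (dgw.enc h1))) ((dgom p T).enc h1 h2 h3))))))))⟩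

/-- the second inequality with the exact flux -/
noncomputable def QyF (lv sg : Bool) (p : Pm) (T : Th) : Fn3 :=
  match lv, sg with
  | true, true => dgQyAp p T
  | true, false => dgQyAm p T
  | false, true => dgQyBp p T
  | false, false => dgQyBm p T

/-- the test function, type `A`, first vertex -/
noncomputable def fdAy (tt : Bool) (p : Pm) (Sa Sb : Sd) (T : Th) (h A B C : ℕ) : Bool :=
  tst [ppos (dgxn.t A B), ppos ((dgxA Sa).t A B), ppos ((dgxB Sb).t A B), ppos ((dgxs p).t A B)]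
    (fun lv sg bd d => op4 d (ppos ((a1F true lv sg bd p T).t A B C))
      (cond bd false (ppos ((QyF lv sg p T).t A B C)))
      (cond tt (ppos ((QtF lv sg bd p T).t A B C (ts1 p A B C) (ts2 p A B C) (ts3 p A B C)
        (ts4 p A B C))) false)
      (cond bd false (cond tt (ppos ((QxF lv sg p T).t A B C (ts1 p A B C) (ts2 p A B C)
        (ts3 p A B C) (ts4 p A B C))) false))) h

section

variable {p : Pm} {T : Th} {A B : Sd} {t b x : ℝ} {E : Pt} {A' B' C' N0 : ℕ}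

theorem exF_direct (hf : p.Fit true N0 x) (lv sg : Bool)
    (k : 0 < (QyF lv sg p T).v t b x) : (datA true N0 p T t b x).ExF lv sg := by
  obtain ⟨E, hE⟩ : ∃ E, E = datA true N0 p T t b x := ⟨_, rfl⟩
  rw [← hE]
  obtain ⟨c, hc⟩ : ∃ c, c = t ^ 2 := ⟨_, rfl⟩
  have c0 : 0 ≤ c := by
    rw [hc]
    exact sq_nonneg t
  have hd0 : E.d0 = 0 := by
    rw [hE]
    show (p.k12.v x - p.k23.v x) / 3 = 0
    rw [hf.far rfl]
    ring
  have hd1 : E.d1 = (dgd1 p T).v t b x := by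
    rw [hE]
    rfl
  have hdl : E.dl = 0 := by rw [hE]; rfl
  have ht : E.t = t := by rw [hE]; rfl
  have eD : E.R3 - E.R1 - E.R2 = c * (dgd1 p T).v t b x := by
    have : E.R3 - E.R1 - E.R2 = E.t * (E.b * E.d0) + E.t ^ 2 * E.d1 + E.t * E.dl * E.dd := by
      unfold Dat.R1 Dat.R2 Dat.R3 Dat.d0 Dat.d1 Dat.dd Dat.r2
      ring
    rw [this, hd0, hd1, hdl, ht, hc]
    ring
  have eO : E.OM = c * (dgom p T).v t b x := by
    have e1 : E.OM = E.t ^ 2 * E.om1 + E.t * E.dl * E.omd := by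
      unfold Dat.OM Dat.om1 Dat.omd Dat.R2 Dat.R3
      ring
    have e2 : E.om1 = (dgom p T).v t b x := by
      rw [hE]
      simp only [datA, dat, Dat.om1, Dat.r2, dgom, dgom_12]
      push_cast
      ring
    rw [e1, e2, hdl, ht, hc]
    ring
  have er : E.rs = dgrr.v t b := by
    rw [hE]
    simp only [datA, dat, Dat.rs, dgrr, dgv, dgw, dgtg]
    ring
  have el : E.la sg = cond sg (dgv.v t b) (dgw.v t) := by
    rw [hE]
    cases sg
    · simp only [datA, dat, Dat.la, dgw, dgtg, cond_false]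
      ring
    · simp only [datA, dat, Dat.la, dgv, cond_true]
  have eS : E.dS sg = c * Dat.sn sg ((dgd1 p T).v t b x) := by
    unfold Dat.dS
    rw [eD]
    cases sg
    · simp only [Dat.sn, cond_false]
      ring
    · simp only [Dat.sn, cond_true]
  have ee : E.ex + lvl E.far E.N0 E.x E.y E.y' E.L1 E.L2 E.L3 lv =
      c * (dgE2.v t b + Dat.sn lv ((dgl1 p T).v t b x / 2)) := by
    rw [Dat.lvl_eq lv (by rw [hE]; exact st_vt t b)]
    have e1 : E.ex = E.t * (E.t * E.E2) + E.t * E.dl * E.ee := rfl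
    have e2 : E.LK0 = 0 := by rw [hE]; rfl
    have e3 : E.LK1 lv = Dat.sn lv (E.l1 / 2) := by rw [hE]; rfl
    have e4 : E.l1 = (dgl1 p T).v t b x := by
      rw [hE]
      rfl
    have e5 : E.E2 = dgE2.v t b := by rw [hE]; rfl
    rw [e1, e2, e3, e4, e5, hdl, ht, hc]
    cases lv
    · simp only [Dat.sn, cond_false]
      ring
    · simp only [Dat.sn, cond_true]
      ring
  have eq' : E.q = dgq1.v x := by rw [hE]; rfl
  have ex' : E.x = x := by rw [hE]; rfl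
  unfold Dat.ExF
  rw [ee, eS, eO, er, el, eq', ex']
  obtain ⟨o, ho⟩ : ∃ o, o = (dgom p T).v t b x := ⟨_, rfl⟩
  obtain ⟨d, hd⟩ : ∃ d, d = (1 - dgrr.v t b) * Dat.sn sg ((dgd1 p T).v t b x) := ⟨_, rfl⟩
  obtain ⟨l, hl⟩ : ∃ l, l = cond sg (dgv.v t b) (dgw.v t) := ⟨_, rfl⟩
  have kk : (QyF lv sg p T).v t b x = dgE2.v t b +
      Dat.sn lv ((dgl1 p T).v t b x / 2) - dgq1.v x * ((1 - x) * d - o +
        x * dgrr.v t b * (d * o) * (d * l - o)⁻¹) := by
    rw [ho, hd, hl]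
    cases lv <;> cases sg <;>
      simp only [QyF, dgQyAp_8, dgQyAp, dgQyAm_9, dgQyAm, dgQyBp_8, dgQyBp, dgQyBm_9, dgQyBm,
        Dat.sn, cond_true, cond_false] <;> push_cast <;> ring
  rw [kk] at k
  rw [← ho, ← hl]
  have a1 : (1 - dgrr.v t b) * (c * Dat.sn sg ((dgd1 p T).v t b x)) = c * d := by
    rw [hd]
    ring
  rw [a1]
  have a2 : x * dgrr.v t b * (c * d) * (c * o) / (c * d * l - c * o) =
      c * (x * dgrr.v t b * (d * o) * (d * l - o)⁻¹) := by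
    rcases c0.eq_or_lt with h | h
    · rw [← h]
      simp
    · rw [show c * d * l - c * o = c * (d * l - o) by ring, div_eq_mul_inv, mul_inv]
      have : c * c⁻¹ = 1 := mul_inv_cancel₀ h.ne'
      linear_combination x * dgrr.v t b * d * c * o * (d * l - o)⁻¹ * this
  rw [a2]
  have k2 := mul_nonneg c0 k.le
  linarith

theorem fdAy_sound {tt : Bool} {h : ℕ} (hA : Enc E A' t) (hB : Enc E B' b)
    (hC : Enc E C' x) (ht : fdAy tt p A B T h A' B' C' = true) (hf : p.Fit true N0 x)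
    (t0 : 0 ≤ t) (b1 : b ≤ 1) (v0 : 0 ≤ dgvt.v t b) (c1 : A.ch.v t ≤ b) (c2 : b ≤ B.ch.v t)
    (hs : p.sv.v (dgs.v t b) ≤ 0)
    (G : TgOk tt true p T B t b x) : IneqAD N0 p T t b x := by
  unfold fdAy at ht
  rcases tst_true ht with h1 | h1
  · exfalso
    simp only [List.mem_cons, List.not_mem_nil, or_false] at h1
    rcases h1 with h1 | h1 | h1 | h1
    · have := ppos_sound (dgxn.enc hA hB) h1.symm
      rw [dgxn_v] at this
      linarith
    · have := ppos_sound ((dgxA A).enc hA hB) h1.symm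
      rw [dgxA_v] at this
      linarith
    · have := ppos_sound ((dgxB B).enc hA hB) h1.symm
      rw [dgxB_v] at this
      linarith
    · have := ppos_sound ((dgxs p).enc hA hB) h1.symm
      rw [dgxs_v] at this
      linarith
  · intro lv sg bd
    obtain ⟨d, hd⟩ := h1 lv sg bd
    rcases op4_true hd with k | k | k | k
    · left
      have m2 := (ppos_sound ((a1F true lv sg bd p T).enc hA hB hC) k).le
      exact mul_nonneg t0 m2
    · cases bd
      · rw [cond_false] at k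
        right
        have m := ppos_sound ((QyF lv sg p T).enc hA hB hC) k
        exact ⟨rfl, exF_direct (N0 := N0) hf lv sg m⟩
      · exact absurd k (by simp)
    · cases tt
      · exact absurd k (by simp)
      · left
        obtain ⟨-, g2, g3, g4, g5, g6, g7, g8, g9⟩ := G rfl
        obtain ⟨sa, mp, cp, cm, s1, s2, s3, s4, V⟩ := ts_enc g2 g7 g8 hA hB hC
        have m := ppos_sound ((QtF lv sg bd p T).enc hA hB hC s1 s2 s3 s4) k
        rw [a1_tight g2 g3 g4 g5 g6 g7 V]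
        exact mul_nonneg t0 (mul_nonneg (by linarith) m.le)
    · cases bd
      · rw [cond_false] at k
        cases tt
        · exact absurd k (by simp)
        · right
          obtain ⟨-, g2, g3, g4, g5, g6, g7, g8, g9⟩ := G rfl
          obtain ⟨sa, mp, cp, cm, s1, s2, s3, s4, V⟩ := ts_enc g2 g7 g8 hA hB hC
          have m := ppos_sound ((QxF lv sg p T).enc hA hB hC s1 s2 s3 s4) k
          exact ⟨rfl, exF_tight g2 g3 g4 g5 g6 g7 V hf b1 lv sg m⟩
      · exact absurd k (by simp)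

end

section

variable {n : ℕ} {P : Pos n} {RK RL RU RC : Fin (n + 1) → ℕ → ℝ → ℝ → ℝ} {pc : ℕ → Piece} {p : Pm}
  {q : Pu} {T : Th} {V : Tu} {far tt : Bool} {N0 D D3 W1 W2 P3 W3 : ℕ} {x κ y y' t b e mo : ℝ}
  {i : Fin n} {j k m : Fin (n + 1)} {A B : Sd} {G H' : Su} {M : NdU} {C : CvP} {K : Fn2}

/-- The certificate of a segment, type `A`, first vertex. -/
structure CtAy (P : Pos n) (RK RL : Fin (n + 1) → ℕ → ℝ → ℝ → ℝ) (tt : Bool) (p : Pm)
    (A B : Sd) (T : Th) (i : Fin n) (D D3 W1 W2 P3 W3 : ℕ) (x : ℝ) : Prop where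
  sa : SdOk P RK RL p A i.castSucc D3 x
  sb : SdOk P RK RL p B i.succ D3 x
  th : ThOk P RK RL p T i D3 x
  bt : Bt tt true p T B x
  sv : ∀ u, p.sv.v u = u - (D : ℝ) / S
  w1 : 3 * D3 * 1073741824 ≤ W1 ^ 2
  w2 : 1073741824 ≤ W2
  hx : (P3 : ℝ) / S ≤ x
  hx' : x ≤ ((P3 : ℝ) + W3) / S
  ct : ∃ t, chk3 (onCell 0 W1 0 W2 P3 W3 (fdAy tt p A B T)) t 1 1 1 = true

theorem CtAy.ineq (C : CtAy P RK RL tt p A B T i D D3 W1 W2 P3 W3 x)
    (h : PtOk P RK RL true N0 p D D3 x y y' (c3n (y + y')) b)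
    (c1 : crv P i.castSucc 3 (y + y') ≤ c3n (y + y') * b)
    (c2 : c3n (y + y') * b ≤ crv P i.succ 3 (y + y')) :
    IneqAD N0 p T (c3n (y + y')) b x := by
  obtain ⟨g, f, -, x0, x1, q1, q2, q3, i1, i2, i3, -, -⟩ := id h
  have t0 := g.t0
  obtain ⟨a1, -, -⟩ := C.sa q3 i3 rfl t0
  obtain ⟨b1, -, -⟩ := C.sb q3 i3 rfl t0
  have hb : b ≤ 1 := by
    have := c2.trans (crv_le q3 _)
    by_contra hc
    push Not at hc
    nlinarith
  rw [a1] at c1
  rw [b1] at c2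
  have d1 := le_of_mul_le_mul_left c1 t0
  have d2 := le_of_mul_le_mul_left c2 t0
  have es := g.ey
  have hss := dgs_v (c3n (y + y')) b
  have D1 := (abs_lt.1 i1).1
  have key := cert12 (Q := fun t b x => p.Fit true N0 x → 0 ≤ t → b ≤ 1 → 0 ≤ dgvt.v t b →
    A.ch.v t ≤ b → b ≤ B.ch.v t → p.sv.v (dgs.v t b) ≤ 0 → TgOk tt true p T B t b x →
    IneqAD N0 p T t b x)
    (f := fdAy tt p A B T)
    (fun hA hB hC h f t0 b1 v0 c1 c2 hs G => fdAy_sound hA hB hC h f t0 b1 v0 c1 c2 hs G)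
    C.ct t0.le (range_t q3 i3 C.w1) g.b0 (range_1 hb C.w2) C.hx C.hx'
  refine key f t0.le hb (g.v0 q2.1) d1 d2 ?_ (C.bt.ok g)
  rw [C.sv, hss]
  linarith

/-- **Type `A`**, first vertex. -/
theorem sgA1y (H : Bs P RK RL pc true N0 p D D3 x)
    (C : CtAy P RK RL tt p A B T i D D3 W1 W2 P3 W3 x) :
    Sg12A P RK RL true N0 .npn 1 2 0 0 true i D D3 x := by
  intro y y' F hi c1 c2
  have len1 := F.len1
  have len3 := F.len3
  have eX : 1 * crv P 0 1 y + -1 * crv P 0 2 y' = crv P 0 1 y - crv P 0 2 y' := by ring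
  rw [eX] at len1 len3
  have tK := third_lin H.side.pinK F.q3 len1 len3 true i c1 c2
  have tL := third_lin H.side.pinL F.q3 len1 len3 true i c1 c2
  simp only [sgr, cond_true] at c1 c2 tK tL
  rw [crv0q, crv0q] at c1 c2 tK tL
  rw [crv0q, crv0q]
  have t0 : 0 < c3n (y + y') := by
    have h1 := half_lt_c1 (y := y) (by linarith [F.q1.1]) F.q1.2
    have h2 := c1_le_half F.q2.1
    have h3 := c2.trans (crv_le F.q3 _)
    linarith
  have h := H.pt F.q1 F.q2 F.q3 hi t0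
  have e := h.g.tb
  rw [e] at c1 c2 tK tL ⊢
  exact (h.tAD C.th c1 c2 tK tL (C.ineq h c1 c2)).1

theorem sgA2y (H : Bs P RK RL pc true N0 p D D3 x)
    (C : CtAy P RK RL tt p A B T i D D3 W1 W2 P3 W3 x) :
    Sg12A P RK RL true N0 .pnn 2 1 0 0 false i D D3 x := by
  intro y y' F hi c1 c2
  have len1 := F.len1
  have len3 := F.len3
  have eX : 1 * crv P 0 2 y + -1 * crv P 0 1 y' = crv P 0 2 y - crv P 0 1 y' := by ring
  rw [eX] at len1 len3
  have tK := third_lin H.side.pinK F.q3 len1 len3 false i c1 c2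
  have tL := third_lin H.side.pinL F.q3 len1 len3 false i c1 c2
  simp only [sgr, cond_false] at c1 c2 tK tL
  rw [crv0q, crv0q] at c1 c2 tK tL
  rw [crv0q, crv0q]
  have q3 : InQ 3 (y' + y) := by rw [add_comm]; exact F.q3
  have hi' : In12 D D3 y' y := ⟨hi.2.1, hi.1, by rw [add_comm]; exact hi.2.2⟩
  rw [add_comm y y'] at c1 c2 tK tL ⊢
  have t0 : 0 < c3n (y' + y) := by
    have h1 := half_lt_c1 (y := y') (by linarith [F.q2.1]) F.q2.2
    have h2 := c1_le_half F.q1.1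
    have h3 := c2.trans (crv_le q3 _)
    linarith
  have h := H.pt F.q2 F.q1 q3 hi' t0
  have e := h.g.tb
  have e' : c1n y - c1n y' = -(c3n (y' + y) * ((c1n y' - c1n y) / c3n (y' + y))) := by linarith
  rw [e'] at c1 c2 tK tL ⊢
  rw [neg_neg] at c1 c2 tK tL
  have k := (h.tAD C.th c1 c2 tK tL (C.ineq h c1 c2)).2
  rw [neg_neg, neg_neg] at k
  exact k

end

end Pool.Agent.Strip051.PB.Dg
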