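import Pool.Agent.Strip051.PB.Fn
import Pool.Agent.Strip051.PB.PkT

/-! # Closed forms of the kernels of the unit curve in the window

The real values are the expressions of the tables; the packed functions evaluate closed forms
without cancellation, guarded by `0 < s < 1`. -/

namespace Pool.Agent.Strip051.PB

/-- a guarded value -/
noncomputable def pgd (b : Bool) (X : ℕ) : ℕ := Bool.rec pbad X b

theorem enc_gd {E : Pt} {b : Bool} {X : ℕ} {v : ℝ} (h : b = true → Enc E X v) :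
    Enc E (pgd b X) v := by
  cases b with
  | false => exact enc_pbad E v
  | true => exact h rfl

section

attribute [local irreducible] padd psub pneg pmul psq pinv psqrt psqrtg pnat pscaleT pnorm
  phf pone ppos pnc Enc pbad

variable {E : Pt} {O S G T N K Y Z : ℕ} {w s c τ n k e q y : ℝ}

/-- `D = c + 1 - s / 2` -/
noncomputable def pwD (S G : ℕ) : ℕ := pnorm (psub (padd G pone) (phf S))

theorem enc_wD (hS : Enc E S s) (hG : Enc E G c) : Enc E (pwD S G) (c + 1 - s / 2) :=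
  enc_norm (enc_sub (enc_add hG (enc_one E)) (enc_half hS))

/-- `n D / s` -/
noncomputable def pwQ (S G N : ℕ) : ℕ := pmul (pnorm (pmul (pnorm N) (pwD S G))) (pinv S)

theorem enc_wQ (hS : Enc E S s) (hG : Enc E G c) (hN : Enc E N n) :
    Enc E (pwQ S G N) (n * (c + 1 - s / 2) * s⁻¹) :=
  enc_mul (enc_norm (enc_mul (enc_norm hN) (enc_wD hS hG))) (enc_inv hS)

theorem wE_mul (hc : c = √(((1 : ℕ) : ℝ) - ((3 : ℕ) : ℝ) / ((4 : ℕ) : ℝ) * s ^ 2))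
    (he : e = s / 2 + c - ((1 : ℕ) : ℝ)) (h0 : 0 < s) (h1 : s < 1) :
    0 < c ∧ c ^ 2 = 1 - 3 / 4 * s ^ 2 ∧ e = s / 2 + c - 1 ∧ e * (c + 1 - s / 2) = s * (1 - s) := by
  have hp : 0 < 1 - 3 / 4 * s ^ 2 := by nlinarith
  have hc' : c = √(1 - 3 / 4 * s ^ 2) := by rw [hc]; norm_num
  have c0 : 0 < c := by rw [hc']; exact Real.sqrt_pos.2 hp
  have c2 : c ^ 2 = 1 - 3 / 4 * s ^ 2 := by rw [hc']; exact Real.sq_sqrt hp.le
  have he' : e = s / 2 + c - 1 := by rw [he]; norm_num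
  refine ⟨c0, c2, he', ?_⟩
  rw [he']
  linear_combination c2

theorem wB_key (hc : c = √(((1 : ℕ) : ℝ) - ((3 : ℕ) : ℝ) / ((4 : ℕ) : ℝ) * s ^ 2))
    (he : e = s / 2 + c - ((1 : ℕ) : ℝ)) (h0 : 0 < s) (h1 : s < 1) :
    (1 - s) * (n * e⁻¹) = n * (c + 1 - s / 2) * s⁻¹ := by
  obtain ⟨c0, -, -, h⟩ := wE_mul hc he h0 h1
  have hs : s * (1 - s) ≠ 0 := (mul_pos h0 (by linarith)).ne'
  have e0 : e ≠ 0 := by
    intro h'
    rw [h', zero_mul] at h
    exact hs h.symm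
  have h2 : 1 - s ≠ 0 := by
    have : 0 < 1 - s := by linarith
    exact this.ne'
  have k : e⁻¹ = (c + 1 - s / 2) * (s * (1 - s))⁻¹ := by
    rw [eq_mul_inv_iff_mul_eq₀ hs, ← h, inv_mul_cancel_left₀ e0]
  rw [k, mul_inv]
  field_simp

/-- `τ (n / e - k)` for `τ = 1 - s` -/
noncomputable def pwB0 (S G T N K : ℕ) : ℕ :=
  pgd (ppos S) (pgd (ppos (psub pone S)) (psub (pwQ S G N) (pmul (pnorm T) (pnorm K))))

theorem enc_wB0 (_ : Enc E O w) (hS : Enc E S s) (hG : Enc E G c) (_ : Enc E Z e) (hT : Enc E T τ)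
    (hN : Enc E N n) (hK : Enc E K k) (hw : w = τ * (n * e⁻¹ - k))
    (hc : c = √(((1 : ℕ) : ℝ) - ((3 : ℕ) : ℝ) / ((4 : ℕ) : ℝ) * s ^ 2))
    (he : e = s / 2 + c - ((1 : ℕ) : ℝ)) (hs : s = ((1 : ℕ) : ℝ) - τ) : Enc E (pwB0 S G T N K) w := by
  have ht : τ = 1 - s := by rw [hs]; push_cast; ring
  refine enc_gd fun g0 => enc_gd fun g1 => ?_
  have h0 := ppos_sound hS g0
  have h1 := ppos_sound (enc_sub (enc_one E) hS) g1
  refine enc_cast (enc_sub (enc_wQ hS hG hN) (enc_mul (enc_norm hT) (enc_norm hK))) ?_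
  rw [hw, ht, ← wB_key (n := n) hc he h0 (by linarith)]
  ring

/-- `τ (n / e + k)` for `τ = - (1 - s)` -/
noncomputable def pwB3 (S G T N K : ℕ) : ℕ :=
  pgd (ppos S) (pgd (ppos (psub pone S)) (psub (pmul (pnorm T) (pnorm K)) (pwQ S G N)))

theorem enc_wB3 (_ : Enc E O w) (hS : Enc E S s) (hG : Enc E G c) (_ : Enc E Z e) (hT : Enc E T τ)
    (hN : Enc E N n) (hK : Enc E K k) (_ : Enc E Y y) (hw : w = τ * (n * e⁻¹ + k))
    (hc : c = √(((1 : ℕ) : ℝ) - ((3 : ℕ) : ℝ) / ((4 : ℕ) : ℝ) * s ^ 2))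
    (he : e = s / 2 + c - ((1 : ℕ) : ℝ)) (hs : s = y - ((1 : ℕ) : ℝ))
    (ht' : τ = y - ((2 : ℕ) : ℝ)) : Enc E (pwB3 S G T N K) w := by
  have ht : τ = -(1 - s) := by rw [hs, ht']; push_cast; ring
  refine enc_gd fun g0 => enc_gd fun g1 => ?_
  have h0 := ppos_sound hS g0
  have h1 := ppos_sound (enc_sub (enc_one E) hS) g1
  refine enc_cast (enc_sub (enc_mul (enc_norm hT) (enc_norm hK)) (enc_wQ hS hG hN)) ?_
  rw [hw, ht, ← wB_key (n := n) hc he h0 (by linarith)]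
  ring

/-- the closed form of the second function -/
noncomputable def pwT (S G : ℕ) : ℕ :=
  pgd (ppos S) (pgd (ppos (psub pone S)) (pmul (pnorm (pmul (pnorm (pscaleT 9 32 (pwD S G)))
    (pnorm (padd (pmul (pnorm (pnat 2 G)) (pnorm (padd pone (pnat 2 S)))) (padd (pnc 2) (pnat 3 S))))))
    (pinv (pnorm (pmul (pnorm (pmul (pnorm G) (pnorm (padd (pnat 2 G) pone))))
      (pnorm (padd G pone)))))))

theorem enc_wT (_ : Enc E O w) (hS : Enc E S s) (hG : Enc E G c) (_ : Enc E Z e)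
    (hw : w = (((3 : ℕ) : ℝ) / ((4 : ℕ) : ℝ) * (s * c⁻¹) * (((4 : ℕ) : ℝ) * c - ((3 : ℕ) : ℝ)) * e -
      q * (((1 : ℕ) : ℝ) / ((2 : ℕ) : ℝ) - ((3 : ℕ) : ℝ) / ((4 : ℕ) : ℝ) * (s * c⁻¹))) *
      (((2 : ℕ) : ℝ) * e * e)⁻¹)
    (hc : c = √(((1 : ℕ) : ℝ) - ((3 : ℕ) : ℝ) / ((4 : ℕ) : ℝ) * s ^ 2))
    (he : e = s / 2 + c - ((1 : ℕ) : ℝ))
    (hq : q = (((1 : ℕ) : ℝ) - c) * (((2 : ℕ) : ℝ) * c - ((1 : ℕ) : ℝ))) :
    Enc E (pwT S G) w := by
  refine enc_gd fun g0 => enc_gd fun g1 => ?_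
  have h0 := ppos_sound hS g0
  have h1' := ppos_sound (enc_sub (enc_one E) hS) g1
  have h1 : s < 1 := by linarith
  refine enc_cast (enc_mul (enc_norm (enc_mul (enc_norm (enc_scaleT 9 32 (enc_wD hS hG)))
    (enc_norm (enc_add (enc_mul (enc_norm (enc_nat 2 hG)) (enc_norm (enc_add (enc_one E) (enc_nat 2 hS))))
      (enc_add (enc_pnc E 2) (enc_nat 3 hS))))))
    (enc_inv (enc_norm (enc_mul (enc_norm (enc_mul (enc_norm hG) (enc_norm (enc_add (enc_nat 2 hG)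
      (enc_one E))))) (enc_norm (enc_add hG (enc_one E))))))) ?_
  obtain ⟨c0, c2, he', hD⟩ := wE_mul hc he h0 h1
  have hs : 0 < s * (1 - s) := mul_pos h0 (by linarith)
  have e0 : e ≠ 0 := by
    intro h'
    rw [h', zero_mul] at hD
    exact hs.ne hD
  have hq' : q = (1 - c) * (2 * c - 1) := by rw [hq]; norm_num
  rw [hw, hq']
  push_cast
  have c1 : c ≠ 0 := c0.ne'
  have c3 : 2 * c + 1 ≠ 0 := by positivity
  have c4 : c + 1 ≠ 0 := by positivity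
  have key : (3 / 4 * s * (4 * c - 3) * e - (1 - c) * (2 * c - 1) * (c / 2 - 3 / 4 * s)) *
      (2 * c + 1) * (c + 1) = 9 / 16 * e * (e * (c + 1 - s / 2)) * (2 * c * (1 + 2 * s) + (2 + 3 * s)) := by
    rw [hD, he']
    linear_combination (2 * c ^ 3 + 3 * c ^ 2 * s + 3 / 2 * c * s ^ 2 - 3 / 2 * c * s - 1 / 2 * c +
      9 / 8 * s ^ 2 - 21 / 8 * s) * c2
  have l1 : (3 / 4 * (s * c⁻¹) * (4 * c - 3) * e - (1 - c) * (2 * c - 1) * (1 / 2 - 3 / 4 * (s * c⁻¹))) =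
      (3 / 4 * s * (4 * c - 3) * e - (1 - c) * (2 * c - 1) * (c / 2 - 3 / 4 * s)) * c⁻¹ := by
    field_simp
  rw [l1, eq_comm, ← sub_eq_zero]
  have k2 : (3 / 4 * s * (4 * c - 3) * e - (1 - c) * (2 * c - 1) * (c / 2 - 3 / 4 * s)) =
      9 / 16 * e * (e * (c + 1 - s / 2)) * (2 * c * (1 + 2 * s) + (2 + 3 * s)) *
        ((2 * c + 1) * (c + 1))⁻¹ := by
    rw [← key]
    field_simp
  rw [k2]
  field_simp
  ring

end

end Pool.Agent.Strip051.PB
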