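import Pool.Agent.Strip051.PB.MolU
import Pool.Agent.Strip051.PB.Alt

/-! # The tight charts as alternatives of a cut -/

namespace Pool.Agent.Strip051.PB.Mol

open Pool.Agent.StripNear Pool.Agent.StripSquare Pool.Agent.Strip051.Sweep
open Pool.Agent.Strip051.LC Pool.Agent.Strip051.PB

variable {n : ℕ} {V : ℝ → ℝ → ℝ → ℝ → ℝ × ℝ × ℝ → ℝ × ℝ × ℝ → Prop} {P : Pos n}
  {RK RL : Fin (n + 1) → ℕ → ℝ → ℝ → ℝ} {pc : ℕ → Piece} {a b c : ℕ} {j k : Fin (n + 1)}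
  {σ σ' x : ℝ} {u v w : ℕ}

theorem altA_s (H : ∀ y y', FactsA P a b c j k σ σ' y y' → |y - x| < (u : ℝ) / 1073741824 →
    |y' - 1| < (v : ℝ) / 1073741824 → |y + y' - (1 + x)| < (w : ℝ) / 1073741824 →
    StA V P RK RL pc a b c j k σ σ' x y y') :
    AltA V P RK RL pc [⟨0, 0, 1, u⟩, ⟨1, 1, 0, v⟩, ⟨2, 1, 1, w⟩] a b c j k σ σ' x := by
  intro y y' F h
  have h1 := h ⟨0, 0, 1, u⟩ (by simp)
  have h2 := h ⟨1, 1, 0, v⟩ (by simp)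
  have h3 := h ⟨2, 1, 1, w⟩ (by simp)
  simp only [Cc.P, Cc.cen, Nat.cast_zero, Nat.cast_one, zero_add] at h1 h2 h3
  exact H y y' F h1 h2 h3

theorem altA_m (H : ∀ y y', FactsA P a b c j k σ σ' y y' → |y - 1| < (v : ℝ) / 1073741824 →
    |y' - x| < (u : ℝ) / 1073741824 → |y + y' - (1 + x)| < (w : ℝ) / 1073741824 →
    StA V P RK RL pc a b c j k σ σ' x y y') :
    AltA V P RK RL pc [⟨0, 1, 0, v⟩, ⟨1, 0, 1, u⟩, ⟨2, 1, 1, w⟩] a b c j k σ σ' x := by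
  intro y y' F h
  have h1 := h ⟨0, 1, 0, v⟩ (by simp)
  have h2 := h ⟨1, 0, 1, u⟩ (by simp)
  have h3 := h ⟨2, 1, 1, w⟩ (by simp)
  simp only [Cc.P, Cc.cen, Nat.cast_zero, Nat.cast_one, zero_add] at h1 h2 h3
  exact H y y' F h1 h2 h3

theorem altB_s (H : ∀ y y', FactsB P a b c j k σ σ' y y' → |y - x| < (u : ℝ) / 1073741824 →
    |y' - (1 - x)| < (w : ℝ) / 1073741824 → |y + y' - 1| < (v : ℝ) / 1073741824 →
    StB V P RK RL pc a b c j k σ σ' x y y') :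
    AltB V P RK RL pc [⟨0, 0, 1, u⟩, ⟨1, 1, 2, w⟩, ⟨2, 1, 0, v⟩] a b c j k σ σ' x := by
  intro y y' F h
  have h1 := h ⟨0, 0, 1, u⟩ (by simp)
  have h2 := h ⟨1, 1, 2, w⟩ (by simp)
  have h3 := h ⟨2, 1, 0, v⟩ (by simp)
  simp only [Cc.P, Cc.cen, Nat.cast_zero, Nat.cast_one, zero_add] at h1 h2 h3
  exact H y y' F h1 h2 h3

end Pool.Agent.Strip051.PB.Mol
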