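import Pool.Agent.Strip051.PB.MoR6
import Pool.Agent.Strip051.PB.MolV

/-! # The tight charts of the tables with `x ≤ 1 / 8`

The window of the exact formulas as further conditions of the cuts, the third side next to the two
outer curves, the empty halves of the further shapes, and the shape with the steep edge first at
height one. -/

set_option linter.unusedVariables false

namespace Pool.Agent.Strip051.PB.Mol

open Pool.Agent.StripNear Pool.Agent.StripSquare Pool.Agent.Strip051.Sweep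
open Pool.Agent.Strip051.LC Pool.Agent.Strip051.LC.MolN
open Pool.Agent.Strip051.LC.Line (tau)

/-! ### The third side, last curve included -/

theorem rz0 {f : ℝ → ℝ} {x1 v1 W w X : ℝ} (h : LinB f W x1 w v1) (hX : W ≤ X)
    (t : X ≤ x1) : f X = w + (v1 - w) * (x1 - W)⁻¹ * (X - W) :=
  seg_r h hX t

theorem rz1 {f : ℝ → ℝ} {x1 x2 v1 v2 W w X : ℝ} (h : LinB f W x1 w v1) (h' : LinB f x1 x2 v1 v2)
    (b : 0 < x1 - W) (hX : W ≤ X) (t : X ≤ x2) :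
    f X = w + ((v1 - w) * (x1 - W)⁻¹ + ((v2 - v1) * (x2 - x1)⁻¹ - (v1 - w) * (x1 - W)⁻¹) *
      hng (X - W) (x1 - W)) * (X - W) := by
  have e := hng_eq (D := X - W) (d := x1 - W) b
  have hb : x1 - W ≠ 0 := b.ne'
  rcases le_total X x1 with g | g
  · rw [max_eq_right (by linarith)] at e
    rw [seg_r h hX g]
    linear_combination (-((v2 - v1) * (x2 - x1)⁻¹ - (v1 - w) * (x1 - W)⁻¹)) * e
  · rw [max_eq_left (by linarith)] at e
    have k : v1 = w + (v1 - w) * (x1 - W)⁻¹ * (x1 - W) := by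
      field_simp
      ring
    rw [seg_r h' g t]
    linear_combination (-((v2 - v1) * (x2 - x1)⁻¹ - (v1 - w) * (x1 - W)⁻¹)) * e + k

theorem lz0 {f : ℝ → ℝ} {xB vB W w X : ℝ} (h : LinB f xB W vB w) (c : 0 < W - xB) (hX : X ≤ W)
    (t : xB ≤ X) : f X = w + (w - vB) * (W - xB)⁻¹ * (X - W) :=
  seg_l h c t hX

theorem lz1 {f : ℝ → ℝ} {xC xB vC vB W w X : ℝ} (h : LinB f xB W vB w)
    (h' : LinB f xC xB vC vB) (c : 0 < W - xB) (d : 0 < xB - xC) (hX : X ≤ W)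
    (t : xC ≤ X) :
    f X = w + ((w - vB) * (W - xB)⁻¹ + ((vB - vC) * (xB - xC)⁻¹ - (w - vB) * (W - xB)⁻¹) *
      hng (W - X) (W - xB)) * (X - W) := by
  have e := hng_eq (D := W - X) (d := W - xB) c
  have hc : W - xB ≠ 0 := c.ne'
  rcases le_total xB X with g | g
  · rw [max_eq_right (by linarith)] at e
    rw [seg_l h c g hX]
    linear_combination ((vB - vC) * (xB - xC)⁻¹ - (w - vB) * (W - xB)⁻¹) * e
  · rw [max_eq_left (by linarith)] at e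
    have k : w = vB + (w - vB) * (W - xB)⁻¹ * (W - xB) := by
      field_simp
      ring
    rw [seg_l h' d t g]
    linear_combination ((vB - vC) * (xB - xC)⁻¹ - (w - vB) * (W - xB)⁻¹) * e - k

/-- a point not further than `√3` is left of the outer curve -/
theorem c3_ge {X H : ℝ} (h : qqn X H ≤ 3) : X ≤ c3n H := by
  unfold qqn at h
  unfold c3n
  exact Real.le_sqrt_of_sq_le (by linarith)

/-- a point of distance at least one, to the right, is right of the unit circle -/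
theorem c1_le {X H : ℝ} (h : 1 ≤ qqn X H) (h0 : 0 ≤ X) : c1n H ≤ X := by
  unfold qqn at h
  unfold c1n
  exact Real.sqrt_le_iff.2 ⟨h0, by linarith⟩

/-- the unit circle is the first curve -/
theorem crv_low {n : ℕ} {P : Pos n} (i : Fin (n + 1)) {q : ℕ} {y : ℝ} (hq : InQ q y) :
    c1n y ≤ crv P i q y := by
  have hp := h0_pos
  have y0 := hq.nonneg
  have y2 := hq.le_two
  have hT0 : 0 ≤ h0 * y := mul_nonneg hp.le y0
  have hs : (h0 * y) ^ 2 = 3 / 4 * y ^ 2 := by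
    rw [mul_pow, h0_sq]
  have hT3 : (h0 * y) ^ 2 ≤ 3 := by
    rw [hs]
    nlinarith
  have l0 := P.low i hT0 hT3
  rwa [show P.cv i (h0 * y) = crv P i q y from linkX P _ q y hq, c1_n] at l0

theorem linB_left {f : ℝ → ℝ} {x0 x1 v0 v1 : ℝ} (h : LinB f x0 x1 v0 v1) (h01 : x0 ≤ x1) :
    f x0 = v0 := by
  rw [seg_r h le_rfl h01]
  ring

theorem qqn_c1 {y : ℝ} (h : y ^ 2 ≤ 4 / 3) : qqn (c1n y) y = 1 := by
  have := c1n_sq' h
  unfold qqn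
  linarith

/-- the third side at height one next to the short side -/
theorem qqn_w3 {y : ℝ} (h0 : 0 ≤ y) (h1 : y ≤ 1 / 2) : qqn (c1n y - 1 / 2) (1 + y) ≤ 3 := by
  have k := c1n_sq' (y := y) (by nlinarith)
  have k1 : c1n y ≤ 1 := by nlinarith [c1n_nn y, sq_nonneg y]
  have k2 := c1n_nn y
  unfold qqn
  nlinarith

/-- the excluded parts of a chart: the deviation and the outer curve -/
theorem skPMx {A : Bool} {v : ℕ} {F : Fn3} {u b x : ℝ} (h : |cond A (u + b) (u - b)| ≤ v / S)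
    (hF : F.v u b x ≤ 0) : ∀ G ∈ [skP A v, skM A v, F], G.v u b x ≤ 0 := by
  intro G hG
  simp only [List.mem_cons, List.not_mem_nil, or_false] at hG
  rcases hG with rfl | rfl | rfl
  · exact skPM h _ (by simp)
  · exact skPM h _ (by simp)
  · exact hF

/-! ### The conditions of the cuts -/

section

variable {x y y' X Y : ℝ} {u v w p q : ℕ}

theorem winA (h : ∀ d ∈ ([⟨0, 0, 1, u⟩, ⟨1, 1, 0, v⟩, ⟨2, 1, 1, w⟩, ⟨0, 0, 0, p⟩, ⟨0, 1, 0, q⟩, ⟨2, 1, 0, p⟩,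
      ⟨2, 2, 0, q⟩] : List Cc), d.P x y y' X Y) :
    |y - x| < (u : ℝ) / 1073741824 ∧ |y' - 1| < (v : ℝ) / 1073741824 ∧
      |y + y' - (1 + x)| < (w : ℝ) / 1073741824 ∧
      (1 - (q : ℝ) / 1073741824 < y ∧ y < (p : ℝ) / 1073741824) ∧
      (2 - (q : ℝ) / 1073741824 < y + y' ∧ y + y' < 1 + (p : ℝ) / 1073741824) := by
  have h1 := h ⟨0, 0, 1, u⟩ (by simp)
  have h2 := h ⟨1, 1, 0, v⟩ (by simp)
  have h3 := h ⟨2, 1, 1, w⟩ (by simp)
  have h4 := h ⟨0, 0, 0, p⟩ (by simp)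
  have h5 := h ⟨0, 1, 0, q⟩ (by simp)
  have h6 := h ⟨2, 1, 0, p⟩ (by simp)
  have h7 := h ⟨2, 2, 0, q⟩ (by simp)
  simp only [Cc.P, Cc.cen, Nat.cast_zero, Nat.cast_one, zero_add, sub_zero, Nat.cast_ofNat] at h1 h2 h3 h4 h5 h6 h7
  have k4 := (abs_lt.1 h4).2
  have k5 := (abs_lt.1 h5).1
  have k6 := (abs_lt.1 h6).2
  have k7 := (abs_lt.1 h7).1
  exact ⟨h1, h2, h3, ⟨by linarith, k4⟩, ⟨by linarith, by linarith⟩⟩

theorem winM (h : ∀ d ∈ ([⟨0, 1, 0, v⟩, ⟨1, 0, 1, u⟩, ⟨2, 1, 1, w⟩, ⟨1, 0, 0, p⟩, ⟨1, 1, 0, q⟩, ⟨2, 1, 0, p⟩,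
      ⟨2, 2, 0, q⟩] : List Cc), d.P x y y' X Y) :
    |y - 1| < (v : ℝ) / 1073741824 ∧ |y' - x| < (u : ℝ) / 1073741824 ∧
      |y + y' - (1 + x)| < (w : ℝ) / 1073741824 ∧
      (1 - (q : ℝ) / 1073741824 < y' ∧ y' < (p : ℝ) / 1073741824) ∧
      (2 - (q : ℝ) / 1073741824 < y + y' ∧ y + y' < 1 + (p : ℝ) / 1073741824) := by
  have h1 := h ⟨0, 1, 0, v⟩ (by simp)
  have h2 := h ⟨1, 0, 1, u⟩ (by simp)
  have h3 := h ⟨2, 1, 1, w⟩ (by simp)
  have h4 := h ⟨1, 0, 0, p⟩ (by simp)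
  have h5 := h ⟨1, 1, 0, q⟩ (by simp)
  have h6 := h ⟨2, 1, 0, p⟩ (by simp)
  have h7 := h ⟨2, 2, 0, q⟩ (by simp)
  simp only [Cc.P, Cc.cen, Nat.cast_zero, Nat.cast_one, zero_add, sub_zero, Nat.cast_ofNat] at h1 h2 h3 h4 h5 h6 h7
  have k4 := (abs_lt.1 h4).2
  have k5 := (abs_lt.1 h5).1
  have k6 := (abs_lt.1 h6).2
  have k7 := (abs_lt.1 h7).1
  exact ⟨h1, h2, h3, ⟨by linarith, k4⟩, ⟨by linarith, by linarith⟩⟩

theorem winB (h : ∀ d ∈ ([⟨0, 0, 1, u⟩, ⟨1, 1, 2, w⟩, ⟨2, 1, 0, v⟩, ⟨0, 0, 0, p⟩, ⟨0, 1, 0, q⟩, ⟨1, 0, 0, q⟩,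
      ⟨1, 1, 0, p⟩] : List Cc), d.P x y y' X Y) :
    |y - x| < (u : ℝ) / 1073741824 ∧ |y' - (1 - x)| < (w : ℝ) / 1073741824 ∧
      |y + y' - 1| < (v : ℝ) / 1073741824 ∧
      (1 - (q : ℝ) / 1073741824 < y ∧ y < (p : ℝ) / 1073741824) ∧
      (y' < (q : ℝ) / 1073741824 ∧ 1 - (p : ℝ) / 1073741824 < y') := by
  have h1 := h ⟨0, 0, 1, u⟩ (by simp)
  have h2 := h ⟨1, 1, 2, w⟩ (by simp)
  have h3 := h ⟨2, 1, 0, v⟩ (by simp)
  have h4 := h ⟨0, 0, 0, p⟩ (by simp)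
  have h5 := h ⟨0, 1, 0, q⟩ (by simp)
  have h6 := h ⟨1, 0, 0, q⟩ (by simp)
  have h7 := h ⟨1, 1, 0, p⟩ (by simp)
  simp only [Cc.P, Cc.cen, Nat.cast_zero, Nat.cast_one, zero_add, sub_zero] at h1 h2 h3 h4 h5 h6 h7
  have k4 := (abs_lt.1 h4).2
  have k5 := (abs_lt.1 h5).1
  have k6 := (abs_lt.1 h6).2
  have k7 := (abs_lt.1 h7).1
  exact ⟨h1, h2, h3, ⟨by linarith, k4⟩, ⟨k6, by linarith⟩⟩

theorem winC (h : ∀ d ∈ ([⟨0, 1, 2, w⟩, ⟨1, 0, 1, u⟩, ⟨2, 1, 0, v⟩, ⟨0, 0, 0, q⟩, ⟨0, 1, 0, p⟩, ⟨1, 0, 0, p⟩,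
      ⟨1, 1, 0, q⟩] : List Cc), d.P x y y' X Y) :
    |y - (1 - x)| < (w : ℝ) / 1073741824 ∧ |y' - x| < (u : ℝ) / 1073741824 ∧
      |y + y' - 1| < (v : ℝ) / 1073741824 ∧
      (1 - (q : ℝ) / 1073741824 < y' ∧ y' < (p : ℝ) / 1073741824) ∧
      (y < (q : ℝ) / 1073741824 ∧ 1 - (p : ℝ) / 1073741824 < y) := by
  have h1 := h ⟨0, 1, 2, w⟩ (by simp)
  have h2 := h ⟨1, 0, 1, u⟩ (by simp)
  have h3 := h ⟨2, 1, 0, v⟩ (by simp)
  have h4 := h ⟨0, 0, 0, q⟩ (by simp)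
  have h5 := h ⟨0, 1, 0, p⟩ (by simp)
  have h6 := h ⟨1, 0, 0, p⟩ (by simp)
  have h7 := h ⟨1, 1, 0, q⟩ (by simp)
  simp only [Cc.P, Cc.cen, Nat.cast_zero, Nat.cast_one, zero_add, sub_zero] at h1 h2 h3 h4 h5 h6 h7
  have k4 := (abs_lt.1 h4).2
  have k5 := (abs_lt.1 h5).1
  have k6 := (abs_lt.1 h6).2
  have k7 := (abs_lt.1 h7).1
  exact ⟨h1, h2, h3, ⟨by linarith, k6⟩, ⟨k4, by linarith⟩⟩

end

/-! ### The empty halves -/

/-- two vertical steps next to a unit side -/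
theorem vac_t {y z b : ℝ} (h0 : 0 ≤ y) (h1 : y ≤ z) (h2 : z ≤ 1) (hb : b < 0) (hb' : -1 ≤ b)
    (h : 1 ≤ qqn (c1n y - (c1n z + 1 / 2)) (1 + b)) : False := by
  have k1 := c1n_le' h0 h1
  have k2 := c1n_le' (y := z) (z := 1) (by linarith) h2
  have k3 : c1n y ≤ 1 := by
    have := c1n_sq' (y := y) (by nlinarith)
    nlinarith [c1n_nn y, sq_nonneg y]
  rw [c1n_one] at k2
  unfold qqn at h
  nlinarith

theorem vac_u {y z b : ℝ} (h0 : 0 ≤ z) (h1 : z ≤ y) (h2 : y ≤ 1) (hb : b < 0) (hb' : -1 ≤ b)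
    (h : 1 ≤ qqn (c1n z - 1 / 2 - c1n y) (1 + b)) : False := by
  have k1 := c1n_le' h0 h1
  have k2 := c1n_le' (y := y) (z := 1) (by linarith) h2
  have k3 : c1n z ≤ 1 := by
    have := c1n_sq' (y := z) (by nlinarith)
    nlinarith [c1n_nn z, sq_nonneg z]
  rw [c1n_one] at k2
  unfold qqn at h
  nlinarith

/-- the short side would be shorter than one -/
theorem vac_s {y z X : ℝ} (h0 : 0 ≤ y) (h1 : y < z) (h2 : z ≤ 1) (hX : 0 ≤ X) (hX' : X ≤ c1n z)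
    (h : 1 ≤ qqn (-X) y) : False := by
  have k1 : c1n z < c1n y := c1n_lt (y := y) (z := z) h0 h1 (by nlinarith)
  have k2 := c1n_sq' (y := y) (by nlinarith)
  unfold qqn at h
  nlinarith

/-! ### The steep edge first, at height one -/

theorem far5z {n : ℕ} {P : Pos n} {RK RL : Fin (n + 1) → ℕ → ℝ → ℝ → ℝ} {pc : ℕ → Piece}
    {M : MolF} {a b' c : ℕ} {j k : Fin (n + 1)} {u x κ kc : ℝ} {sk cx : List Fn3}
    (D : DomA u 0 x) (hκ : κ * h0 = ken x)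
    (hit : (M.at_ u 0 x).it * (x + u + 0) = 1) (hdy0 : (M.at_ u 0 x).dy = kc)
    (t1 : tau (h0 * (x + u)) = h0 * (x + u))
    (t3 : tau (h0 * (x + u) + h0 * (1 + 0)) = h0 * (x + u + 0))
    (hX : crv P k c (1 + (x + u)) = c1n (x + u) - 1 / 2) (hXj : crv P j a 1 = 1 / 2)
    (K : (kq0Ap M sk cx).P u 0 x) (hs : ∀ G ∈ sk, G.v u 0 x ≤ 0)
    (K1 : (pc b').K.v (-c1n (x + u)) (x + u) x = -((c1n (x + u) * cG (x + u) + kc) * (x + u)))
    (K2 : RK k c (1 + (x + u)) x = ((c1n (x + u) - 1 / 2) * cG (x + u) + kc) * (x + u))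
    (K3 : RK j a 1 x = 1 / 2)
    (L1 : (pc b').L.v (-c1n (x + u)) (x + u) x = -cQ x (x + u) kc)
    (L2 : RL k c (1 + (x + u)) x = cQ x (x + u) kc)
    (L3 : RL j a 1 x = 0) :
    StB (VF κ) P RK RL pc a b' c j k 1 (-1) x 1 (x + u) := by
  obtain ⟨hc, hP, hQ, tN, tM, tG⟩ := rq0Ap K hs
  unfold StB VF exB vlB
  simp only [one_mul, neg_one_mul]
  rw [hX, hXj]
  have e3 : -(c1n (x + u) - 1 / 2) - 1 / 2 = -c1n (x + u) := by ring
  rw [e3]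
  refine NGV.mirror ?_
  have ha : AbsA (M.at_ u 0 x) u 0 x (1 / 2 + (c1n (x + u) - 1 / 2)) (c1n (x + u) - 1 / 2) :=
    ⟨by ring, by ring⟩
  have hk : KerJA (M.at_ u 0 x) u 0 x (c1n (x + u) - 1 / 2)
      ((c1n (x + u) * cG (x + u) + kc) * (x + u), -(1 / 2), ((c1n (x + u) - 1 / 2) * cG (x + u) + kc) * (x + u)) := ⟨by
    rw [hdy0]
    ring, by
    show -(1 / 2 : ℝ) = _
    ring, by
    rw [hdy0]
    simp only [add_zero]
    ring⟩
  have hl : LevA (M.at_ u 0 x) u 0 x (c1n (x + u) - 1 / 2) (cQ x (x + u) kc, -0, cQ x (x + u) kc) := ⟨by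
    rw [hdy0]
    ring, by
    show -(0 : ℝ) = _
    ring, by
    rw [hdy0]
    simp only [add_zero, zero_mul]
    ring⟩
  have key := gin0Ap D le_rfl hκ rfl rfl hit ha hk hl t1 t3 hP hQ tN tM tG
  rw [K1, K2, K3, L1, L2, L3]
  have ex := exn'_mirror (1 / 2) (-(c1n (x + u) - 1 / 2)) (1 + 0) (x + u)
  rw [sub_neg_eq_add, neg_neg] at ex
  rw [ex] at key
  unfold lvF at key ⊢
  rw [← levF_mirror]
  simp only [neg_neg, add_zero] at key ⊢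
  exact key

theorem near5z {n : ℕ} {P : Pos n} {RK RL : Fin (n + 1) → ℕ → ℝ → ℝ → ℝ} {pc : ℕ → Piece}
    {M : MolF} {a b' c : ℕ} {j k : Fin (n + 1)} {u x κ kc : ℝ} {sk cx : List Fn3}
    (D : DomA u 0 x) (hκ : κ * h0 = ken x)
    (hit : (M.at_ u 0 x).it * (x + u + 0) = 1) (hdy0 : (M.at_ u 0 x).dy = kc)
    (t1 : tau (h0 * (x + u)) = h0 * (x + u))
    (t3 : tau (h0 * (x + u) + h0 * (1 + 0)) = h0 * (x + u + 0))
    (hX : crv P k c (1 + (x + u)) = c1n (x + u) - 1 / 2) (hXj : crv P j a 1 = 1 / 2)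
    (K : (kq1Ap M sk cx).P u 0 x) (hs : ∀ G ∈ sk, G.v u 0 x ≤ 0) (hdy : |kc| ≤ 1 / 2)
    {sB sD wB wD tB tD : ℝ}
    (K1 : (pc b').K.v (-c1n (x + u)) (x + u) x = -((1 + mun 3 x * cR x) * sB + mun 3 x * sD))
    (K2 : RK k c (1 + (x + u)) x = (1 + mun 3 x * cR x) * wB + mun 3 x * wD)
    (K3 : RK j a 1 x = (1 + mun 3 x * cR x) * tB + mun 3 x * tD)
    (hsB : sB = (c1n (x + u) * cG (x + u) + kc) * (x + u))
    (hsD : sD = (cP (x + u) - (cR (x + u) + 2 * c1n (x + u)) * kc) * (x + u))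
    (hwB : wB = ((c1n (x + u) - 1 / 2) * cG (x + u) + kc) * (x + u))
    (hwD : wD = (cP (x + u) - 1 / 2 * cD (x + u) - (cR (x + u) + 2 * c1n (x + u) - 1) * kc) * (x + u))
    (htB : tB = 1 / 2) (htD : tD = 0)
    (L1 : (pc b').L.v (-c1n (x + u)) (x + u) x = -cQ x (x + u) kc)
    (L2 : RL k c (1 + (x + u)) x = cQ x (x + u) kc)
    (L3 : RL j a 1 x = 0) :
    StB (VN 3 κ) P RK RL pc a b' c j k 1 (-1) x 1 (x + u) := by
  obtain ⟨hc, hP, hQ, tN, tM, tG⟩ := rq1Ap K hs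
  unfold StB VN exB vlB
  simp only [one_mul, neg_one_mul]
  rw [hX, hXj]
  have e3 : -(c1n (x + u) - 1 / 2) - 1 / 2 = -c1n (x + u) := by ring
  rw [e3]
  refine NGV.mirror ?_
  have ha : AbsA (M.at_ u 0 x) u 0 x (1 / 2 + (c1n (x + u) - 1 / 2)) (c1n (x + u) - 1 / 2) :=
    ⟨by ring, by ring⟩
  have hk : KerJA (M.at_ u 0 x) u 0 x (c1n (x + u) - 1 / 2) (sB, -tB, wB) := ⟨by
    rw [hdy0]
    show sB = _
    rw [hsB]
    ring, by
    show -tB = _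
    rw [htB]
    ring, by
    rw [hdy0]
    simp only [add_zero]
    rw [hwB]
    ring⟩
  have hkd : DerJA (M.at_ u 0 x) u 0 x (c1n (x + u) - 1 / 2) (sD, -tD, wD) := ⟨by
    rw [hdy0]
    show sD = _
    rw [hsD]
    ring, by
    show -tD = _
    rw [htD]
    ring, by
    rw [hdy0]
    simp only [add_zero]
    rw [hwD]
    ring⟩
  have hl : LevA (M.at_ u 0 x) u 0 x (c1n (x + u) - 1 / 2) (cQ x (x + u) kc, -0, cQ x (x + u) kc) := ⟨by
    rw [hdy0]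
    ring, by
    show -(0 : ℝ) = _
    ring, by
    rw [hdy0]
    simp only [add_zero, zero_mul]
    ring⟩
  have key := gin1Ap D le_rfl hκ rfl rfl hit ha hk hkd (by rw [hdy0]; exact hdy) rfl hl t1 t3 hP hQ tN tM tG
  rw [K1, K2, K3, L1, L2, L3]
  have ex := exn'_mirror (1 / 2) (-(c1n (x + u) - 1 / 2)) (1 + 0) (x + u)
  rw [sub_neg_eq_add, neg_neg] at ex
  rw [ex] at key
  unfold lvN at key ⊢
  rw [← levN_mirror]
  simp only [neg_neg, add_zero] at key ⊢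
  have mm : ∀ A B C D : ℝ, A * -B + C * -D = -(A * B + C * D) := fun A B C D => by ring
  simp only [mm] at key
  exact key

end Pool.Agent.Strip051.PB.Mol
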