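import Pool.Agent.Strip051.PB.ExtD3
import Pool.Agent.Strip051.PB.GlueD2I

/-! # Leaves of type D with the finer evaluation: from the certificate to both vertices -/

namespace Pool.Agent.Strip051.PB

open Pool.Agent.StripNear Pool.Agent.StripSquare Pool.Agent.Strip051.Sweep
open Pool.Agent.Strip051.LC

section

variable {n : ℕ} {P : Pos n} {RK RL RC : Fin (n + 1) → ℕ → ℝ → ℝ → ℝ} {j k : Fin (n + 1)}
  {a b c : ℕ} {s1 s2 : Bool} {x κ o L l l' : ℝ} {cn : Con} {pc : ℕ → Piece} {pd : ℕ → Fn3}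
  {N0 : ℕ} {En ef : Fn1} {n1 n2 : Node} {c1 c2 : Fn2} {D : DPn}

/-- **The leaves of type D, finer evaluation, family `A`**. -/
theorem extD3_EA (hD : DParOk D.r) (hC : DC2 D.r.th D.r.K l D.r.A x)
    (hN : DN D.r.th L l' D.r.K1 D.r.K2 D.r.A x) (hκ : κ * h0 = ken x) (he : 0 < esn x)
    (hμ : 0 ≤ mun N0 x) (hef : ef.v x = esn x) (hc : con a b c = some cn) :
    ExtEA N0 κ (En.v x) o (tnt (h0 * x) D.r.th) P RK RL RC pc (fun q => Fn3.sc ef (pd q))
      (extD3 N0 D En c1 c2 (pd c) true s1 s2 cn a b c hc n1 n2 (pc c)) n1 n2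
      (Fn2.sc ef c1) (Fn2.sc ef c2) a b c j k (sgb s1) (sgb s2) x :=
  fun y y' p p' F A1 A2 h => extD2_EA hD hC hN hκ he hμ hef hc y y' p p' F A1 A2 h

/-- **The leaves of type D, finer evaluation, family `B`**. -/
theorem extD3_EB (hD : DParOk D.r) (hC : DC2 D.r.th D.r.K l D.r.A x)
    (hN : DN D.r.th L l' D.r.K1 D.r.K2 D.r.A x) (hκ : κ * h0 = ken x) (he : 0 < esn x)
    (hμ : 0 ≤ mun N0 x) (hef : ef.v x = esn x) (hc : con a b c = some cn) :
    ExtEB N0 κ (En.v x) o (tnt (h0 * x) D.r.th) P RK RL RC pc (fun q => Fn3.sc ef (pd q))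
      (extD3 N0 D En c1 c2 (pd b) false s1 s2 cn a b c hc n1 n2 (pc b)) n1 n2
      (Fn2.sc ef c1) (Fn2.sc ef c2) a b c j k (sgb s1) (sgb s2) x :=
  fun y y' p p' F A1 A2 h => extD2_EB hD hC hN hκ he hμ hef hc y y' p p' F A1 A2 h

end

end Pool.Agent.Strip051.PB
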