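import Pool.Agent.Strip051.PB.Slk

/-! # The slack, finer evaluation

The mean of two potentials is evaluated in closed form (one of the three kernels cancels), and
`phi` of two numbers of different signs is this mean plus a small term. The real values are those of
`Slk`. -/

namespace Pool.Agent.Strip051.PB

open Pool.Agent.Strip051.LC.Line (phi phi_smul)

/-- `phi` for nonnegative first argument, `W` encloses the mean -/
noncomputable def pphAM (X Y W : ℕ) : ℕ :=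
  pphq3 W (pps (pneg Y)) (padd X (pps (pneg Y))) (pphC X Y)

theorem enc_phAM {E : Pt} {X Y W : ℕ} {v w : ℝ} (hX : Enc E X v) (hY : Enc E Y w)
    (hW : Enc E W ((v + w) / 2))
    (hlX : X < 2 ^ 1662) (hlY : Y < 2 ^ 1662) (hv : 0 ≤ v) : Enc E (pphAM X Y W) (phi v w) := by
  have e : phi v w = (v + w) / 2 + (max (-w) 0) ^ 2 * (v + max (-w) 0)⁻¹ / 2 := by
    rw [phi_a hv]; ring
  have hC := enc_phC hX hY hlX hlY
  rw [e] at hC ⊢
  exact enc_phq3 hW (enc_pos (enc_neg hY)) (enc_add hX (enc_pos (enc_neg hY))) hC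

theorem enc_phBM {E : Pt} {X Y W : ℕ} {v w : ℝ} (hX : Enc E X v) (hY : Enc E Y w)
    (hW : Enc E W ((v + w) / 2))
    (hlX : X < 2 ^ 1662) (hlY : Y < 2 ^ 1662) (hw : 0 ≤ w) : Enc E (pphAM Y X W) (phi v w) := by
  rw [LC.Line.phi_comm]
  exact enc_phAM hY hX (enc_cast hW (by ring)) hlY hlX hw

/-- the function `phi` from the arguments, their mean and bounds of the arguments -/
noncomputable def pphiM2 (X Y W lX uX lY uY : ℕ) : ℕ :=
  Bool.rec pbad (Bool.rec pbad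
    (Bool.rec
      (Bool.rec
        (Bool.rec
          (Bool.rec (pphC X Y) (pphAM Y X W) (Nat.ble lY 0))
          (Bool.rec (pphAM X Y W) W (Nat.ble lY 0))
          (Nat.ble lX 0))
        (Bool.rec (pphB Y X) (Bool.rec (pphB Y X) (pphAM X Y W) (Nat.ble lY uX)) (Nat.ble lX 0))
        (Nat.ble uY 0))
      (Bool.rec
        (Bool.rec (pphB X Y) (Bool.rec (pphB X Y) (pphAM Y X W) (Nat.ble lX uY)) (Nat.ble lY 0))
        pzero (Nat.ble uY 0))
      (Nat.ble uX 0))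
    (Nat.ble Y 0x3fffffffffffffffffffffffffffffffffffffffffffffffffffffffffffffffffffffffffffffffffffffffffffffffffffffffffffffffffffffffffffffffffffffffffffffffffffffffffffffffffffffffffffffffffffffffffffffffffffffffffffffffffffffffffffffffffffffffffffffffffffffffffffffffffffffffffffffffffffffffffffffffffffffffffffffffffffffffffffffffffffffffffffffffffffffffffffffffffffffffffffffffffffffffffffffffffffffffffffffffffffffffffffffff)) (Nat.ble X 0x3fffffffffffffffffffffffffffffffffffffffffffffffffffffffffffffffffffffffffffffffffffffffffffffffffffffffffffffffffffffffffffffffffffffffffffffffffffffffffffffffffffffffffffffffffffffffffffffffffffffffffffffffffffffffffffffffffffffffffffffffffffffffffffffffffffffffffffffffffffffffffffffffffffffffffffffffffffffffffffffffffffffffffffffffffffffffffffffffffffffffffffffffffffffffffffffffffffffffffffffffffffffffffffffff)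

/-- the function `phi` with an enclosure of the mean of the arguments -/
noncomputable def pphiM (X Y W : ℕ) : ℕ := pphiM2 X Y W (plo X) (pup X) (plo Y) (pup Y)

theorem enc_phiM2 {E : Pt} {X Y W lX uX lY uY : ℕ} {v w : ℝ} (hX : Enc E X v) (hY : Enc E Y w)
    (hW : Enc E W ((v + w) / 2))
    (h1 : X < 2 ^ 1662 → lX = 0 → 0 ≤ v) (h2 : X < 2 ^ 1662 → uX = 0 → v ≤ 0)
    (h3 : Y < 2 ^ 1662 → lY = 0 → 0 ≤ w) (h4 : Y < 2 ^ 1662 → uY = 0 → w ≤ 0) :
    Enc E (pphiM2 X Y W lX uX lY uY) (phi v w) := by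
  unfold pphiM2
  refine enc_ite (fun hbX => enc_ite (fun hbY => ?_) fun _ => enc_pbad E _) fun _ => enc_pbad E _
  have hlX := lim1 hbX
  have hlY := lim1 hbY
  have hB2 : uY = 0 → Enc E (pphB Y X) (phi v w) := fun k => by
    rw [LC.Line.phi_comm]
    exact enc_phB hY hX hlY hlX (h4 hlY k)
  refine enc_ite (fun k1 => enc_ite (fun k2 => ?_) (fun _ => enc_ite (fun k3 => enc_ite
      (fun _ => ?_) fun _ => ?_) fun _ => ?_)) (fun _ => enc_ite (fun k2 => enc_ite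
      (fun k3 => enc_ite (fun _ => ?_) fun _ => ?_) fun _ => ?_)
    (fun _ => enc_ite (fun k3 => enc_ite (fun k4 => ?_) (fun _ => ?_))
      (fun _ => enc_ite (fun k4 => ?_) (fun _ => ?_))))
  · rw [LC.Line.phi_nonpos_nonpos (h2 hlX (ble_zero k1)) (h4 hlY (ble_zero k2))]
    exact enc_zero E
  · exact enc_phBM hX hY hW hlX hlY (h3 hlY (ble_zero k3))
  · exact enc_phB hX hY hlX hlY (h2 hlX (ble_zero k1))
  · exact enc_phB hX hY hlX hlY (h2 hlX (ble_zero k1))
  · exact enc_phAM hX hY hW hlX hlY (h1 hlX (ble_zero k3))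
  · exact hB2 (ble_zero k2)
  · exact hB2 (ble_zero k2)
  · rw [LC.Line.phi_nonneg_nonneg (h1 hlX (ble_zero k3)) (h3 hlY (ble_zero k4))]
    exact hW
  · exact enc_phAM hX hY hW hlX hlY (h1 hlX (ble_zero k3))
  · exact enc_phBM hX hY hW hlX hlY (h3 hlY (ble_zero k4))
  · exact enc_phC hX hY hlX hlY

theorem enc_phiM {E : Pt} {X Y W : ℕ} {v w : ℝ} (hX : Enc E X v) (hY : Enc E Y w)
    (hW : Enc E W ((v + w) / 2)) : Enc E (pphiM X Y W) (phi v w) :=
  enc_phiM2 hX hY hW (fun hl h => plo_zero hX hl h) (fun hl h => pup_zero hX hl h)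
    (fun hl h => plo_zero hY hl h) (fun hl h => pup_zero hY hl h)

attribute [local irreducible] padd psub pneg pmul psq pinv psqrt psqrtg pabs pps pmax pmin pphi plam
  pcase phf pnat prat pscale pnorm pdc pnc pone ppos pnn Enc pphiM

/-- the sum of the mean positive parts, everything doubled; `T` are the means of the potentials,
`g'` is the negative of `g` -/
noncomputable def phsT (x l1 l2 l3 V1 V2 V3 T12 T23 T31 g g' : ℕ) : ℕ :=
  (fun a b c => padd (padd (padd (pmul l1 (pnorm (pphiM a b (padd T12 g'))))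
    (pmul l2 (pnorm (pphiM b c (padd T23 g'))))) (pmul l3 (pnorm (pphiM c a (padd T31 g')))))
    (pmul g x)) (pnorm (padd V1 g')) (pnorm (padd V2 g')) (pnorm (padd V3 g'))

/-- the subtracted part, long arc present -/
noncomputable def fNT (kh x l1 l2 A1 A2 A3 g : ℕ) : ℕ :=
  (fun s => (fun l3 => (fun p1 p2 p3 m => pmul kh (pnorm (phsT x l1 l2 l3
      (psub (padd p1 (pmul A2 (pnorm (psub l3 l1)))) p3)
      (padd (psub p2 p1) (pmul p3 (pnorm (padd (padd m m) (pneg pone)))))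
      (psub p3 (padd p2 (pmul A1 (pnorm (psub l3 l2)))))
      (psub (pmul A2 l3) (pmul p3 (pnorm (psub pone m))))
      (psub (pmul p3 m) (pmul A1 l3))
      (psub (pmul A1 l2) (pmul A2 l1)) g (pneg g))))
    (pmul A1 (pnorm (psub pone l1))) (pmul A2 (pnorm (psub pone l2))) (pnorm (pmul A3 l3))
    (plam l1 s))
  (pnorm (psub pone s))) (padd l1 l2)

/-- the subtracted part, three short arcs -/
noncomputable def fWT (kh x l1 l2 l3 A1 A2 A3 g : ℕ) : ℕ :=
  (fun p1 p2 p3 => pmul kh (pnorm (phsT x l1 l2 l3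
    (psub p1 (padd p3 (pmul A2 (pnorm (psub l1 l3)))))
    (psub p2 (padd p1 (pmul A3 (pnorm (psub l2 l1)))))
    (psub p3 (padd p2 (pmul A1 (pnorm (psub l3 l2)))))
    (psub (pmul A2 l3) (pmul A3 l2)) (psub (pmul A3 l1) (pmul A1 l3))
    (psub (pmul A1 l2) (pmul A2 l1)) g (pneg g))))
  (pmul A1 (pnorm (psub pone l1))) (pmul A2 (pnorm (psub pone l2)))
  (pmul A3 (pnorm (psub pone l3)))

/-- the subtracted part; primed arguments are the negatives -/
noncomputable def rowPhiT (c : Con) (kh x u u' v v' w w' R1 R1' R2 R2' R3 R3' g : ℕ) : ℕ :=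
  Con.rec (motive := fun _ => ℕ) (fNT kh x u v R1' R2' R3' g) (fNT kh x v' u' R2' R1' R3' g)
    (fNT kh x w v' R3 R2' R1 g) (fNT kh x w' u R3 R1' R2 g) (fNT kh x u' w R1' R3 R2 g)
    (fNT kh x v w' R2' R3 R1 g) (fWT kh x u v w' R1' R2' R3 g) (fWT kh x w v' u' R3 R2' R1' g) c

/-! ### Soundness -/

section

variable {E : Pt} {kh x l1 l2 l3 A1 A2 A3 g : ℕ} {k' x' a1 a2 a3 b1 b2 b3 γ : ℝ}

theorem enc_phsT {V1 V2 V3 T12 T23 T31 : ℕ} {w1 w2 w3 : ℝ} (hx : Enc E x x') (h1 : Enc E l1 a1)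
    (h2 : Enc E l2 a2) (h3 : Enc E l3 a3) (g1 : Enc E V1 (2 * w1)) (g2 : Enc E V2 (2 * w2))
    (g3 : Enc E V3 (2 * w3)) (t12 : Enc E T12 (w1 + w2)) (t23 : Enc E T23 (w2 + w3))
    (t31 : Enc E T31 (w3 + w1)) (hg : Enc E g (2 * γ)) :
    Enc E (phsT x l1 l2 l3 V1 V2 V3 T12 T23 T31 g (pneg g)) (2 * (a1 * phi (w1 - γ) (w2 - γ) +
      a2 * phi (w2 - γ) (w3 - γ) + a3 * phi (w3 - γ) (w1 - γ) + γ * x')) := by
  have n := enc_neg hg
  have k1 := enc_norm (enc_add g1 n)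
  have k2 := enc_norm (enc_add g2 n)
  have k3 := enc_norm (enc_add g3 n)
  have m12 := enc_cast (enc_add t12 n)
    (show _ = (2 * w1 + -(2 * γ) + (2 * w2 + -(2 * γ))) / 2 by ring)
  have m23 := enc_cast (enc_add t23 n)
    (show _ = (2 * w2 + -(2 * γ) + (2 * w3 + -(2 * γ))) / 2 by ring)
  have m31 := enc_cast (enc_add t31 n)
    (show _ = (2 * w3 + -(2 * γ) + (2 * w1 + -(2 * γ))) / 2 by ring)
  refine enc_cast (enc_add (enc_add (enc_add (enc_mul h1 (enc_norm (enc_phiM k1 k2 m12)))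
    (enc_mul h2 (enc_norm (enc_phiM k2 k3 m23)))) (enc_mul h3 (enc_norm (enc_phiM k3 k1 m31))))
    (enc_mul hg hx)) ?_
  have e : ∀ a b : ℝ, 2 * a + -(2 * b) = 2 * (a - b) := fun a b => by ring
  rw [e, e, e, phi_smul (by norm_num), phi_smul (by norm_num), phi_smul (by norm_num)]
  ring

theorem enc_fNT (hk : Enc E kh (k' / 2)) (hx : Enc E x x') (h1 : Enc E l1 a1) (h2 : Enc E l2 a2)
    (g1 : Enc E A1 b1) (g2 : Enc E A2 b2) (g3 : Enc E A3 b3) (hg : Enc E g (2 * γ)) (ex : ℝ) :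
    Enc E (fNT kh x l1 l2 A1 A2 A3 g) (ex - slN ex k' x' a1 a2 b1 b2 b3 γ) := by
  have hs := enc_add h1 h2
  have h3 := enc_cast (enc_norm (enc_sub (enc_one E) hs)) (show _ = 1 - a1 - a2 by ring)
  have q1 := enc_mul g1 (enc_norm (enc_sub (enc_one E) h1))
  have q2 := enc_mul g2 (enc_norm (enc_sub (enc_one E) h2))
  have q3 := enc_norm (enc_mul g3 h3)
  have hl : Enc E (plam l1 (padd l1 l2)) (lam a1 (a1 + a2)) := enc_lam h1 hs
  have v1 := enc_cast (enc_sub (enc_add q1 (enc_mul g2 (enc_norm (enc_sub h3 h1)))) q3)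
    (show _ = 2 * pn1 a1 a2 b1 b2 b3 by unfold pn1; ring)
  have v2 := enc_cast (enc_add (enc_sub q2 q1) (enc_mul q3 (enc_norm (enc_add (enc_add hl hl)
    (enc_neg (enc_one E)))))) (show _ = 2 * pn2 a1 a2 b1 b2 b3 by unfold pn2; ring)
  have v3 := enc_cast (enc_sub q3 (enc_add q2 (enc_mul g1 (enc_norm (enc_sub h3 h2)))))
    (show _ = 2 * pn3 a1 a2 b1 b2 b3 by unfold pn3; ring)
  have t12 := enc_cast (enc_sub (enc_mul g2 h3) (enc_mul q3 (enc_norm (enc_sub (enc_one E) hl))))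
    (show _ = pn1 a1 a2 b1 b2 b3 + pn2 a1 a2 b1 b2 b3 by unfold pn1 pn2; ring)
  have t23 := enc_cast (enc_sub (enc_mul q3 hl) (enc_mul g1 h3))
    (show _ = pn2 a1 a2 b1 b2 b3 + pn3 a1 a2 b1 b2 b3 by unfold pn2 pn3; ring)
  have t31 := enc_cast (enc_sub (enc_mul g1 h2) (enc_mul g2 h1))
    (show _ = pn3 a1 a2 b1 b2 b3 + pn1 a1 a2 b1 b2 b3 by unfold pn3 pn1; ring)
  refine enc_cast (enc_mul hk (enc_norm (enc_phsT hx h1 h2 h3 v1 v2 v3 t12 t23 t31 hg))) ?_
  unfold slN stn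
  ring

theorem enc_fWT (hk : Enc E kh (k' / 2)) (hx : Enc E x x') (h1 : Enc E l1 a1) (h2 : Enc E l2 a2)
    (h3 : Enc E l3 a3) (g1 : Enc E A1 b1) (g2 : Enc E A2 b2) (g3 : Enc E A3 b3)
    (hg : Enc E g (2 * γ)) (hs : a1 + a2 + a3 = 1) (ex : ℝ) :
    Enc E (fWT kh x l1 l2 l3 A1 A2 A3 g) (ex - slW ex k' x' a1 a2 a3 b1 b2 b3 γ) := by
  have q1 := enc_mul g1 (enc_norm (enc_sub (enc_one E) h1))
  have q2 := enc_mul g2 (enc_norm (enc_sub (enc_one E) h2))
  have q3 := enc_mul g3 (enc_norm (enc_sub (enc_one E) h3))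
  obtain rfl : a2 = 1 - a1 - a3 := by linarith
  have v1 := enc_cast (enc_sub q1 (enc_add q3 (enc_mul g2 (enc_norm (enc_sub h1 h3)))))
    (show _ = 2 * pon b1 b2 b3 a1 (1 - a1 - a3) a3 by unfold pon; ring)
  have v2 := enc_cast (enc_sub q2 (enc_add q1 (enc_mul g3 (enc_norm (enc_sub h2 h1)))))
    (show _ = 2 * pon b2 b3 b1 (1 - a1 - a3) a3 a1 by unfold pon; ring)
  have v3 := enc_cast (enc_sub q3 (enc_add q2 (enc_mul g1 (enc_norm (enc_sub h3 h2)))))
    (show _ = 2 * pon b3 b1 b2 a3 a1 (1 - a1 - a3) by unfold pon; ring)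
  have t12 := enc_cast (enc_sub (enc_mul g2 h3) (enc_mul g3 h2))
    (show _ = pon b1 b2 b3 a1 (1 - a1 - a3) a3 + pon b2 b3 b1 (1 - a1 - a3) a3 a1 by
      unfold pon; ring)
  have t23 := enc_cast (enc_sub (enc_mul g3 h1) (enc_mul g1 h3))
    (show _ = pon b2 b3 b1 (1 - a1 - a3) a3 a1 + pon b3 b1 b2 a3 a1 (1 - a1 - a3) by
      unfold pon; ring)
  have t31 := enc_cast (enc_sub (enc_mul g1 h2) (enc_mul g2 h1))
    (show _ = pon b3 b1 b2 a3 a1 (1 - a1 - a3) + pon b1 b2 b3 a1 (1 - a1 - a3) a3 by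
      unfold pon; ring)
  refine enc_cast (enc_mul hk (enc_norm (enc_phsT hx h1 h2 h3 v1 v2 v3 t12 t23 t31 hg))) ?_
  unfold slW stn
  ring

end

theorem enc_rowPhiT {E : Pt} (c : Con) {kh x U U' V V' W W' P P' Q Q' R R' g : ℕ}
    {k' x' u v w r1 r2 r3 γ : ℝ} (hk : Enc E kh (k' / 2)) (hx : Enc E x x') (hu : Enc E U u)
    (hu' : Enc E U' (-u)) (hv : Enc E V v) (hv' : Enc E V' (-v)) (hw : Enc E W w)
    (hw' : Enc E W' (-w)) (h1 : Enc E P r1) (h1' : Enc E P' (-r1)) (h2 : Enc E Q r2)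
    (h2' : Enc E Q' (-r2)) (h3 : Enc E R r3) (h3' : Enc E R' (-r3)) (hg : Enc E g (2 * γ))
    (hc : c.ok u v w) (ex : ℝ) :
    Enc E (rowPhiT c kh x U U' V V' W W' P P' Q Q' R R' g)
      (ex - slc c ex k' x' u v w r1 r2 r3 γ) := by
  cases c
  · exact enc_fNT hk hx hu hv h1' h2' h3' hg ex
  · exact enc_fNT hk hx hv' hu' h2' h1' h3' hg ex
  · exact enc_fNT hk hx hw hv' h3 h2' h1 hg ex
  · exact enc_fNT hk hx hw' hu h3 h1' h2 hg ex
  · exact enc_fNT hk hx hu' hw h1' h3 h2 hg ex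
  · exact enc_fNT hk hx hv hw' h2' h3 h1 hg ex
  · exact enc_fWT hk hx hu hv hw' h1' h2' h3 hg (by have : u + v - w = 1 := hc; linarith) ex
  · exact enc_fWT hk hx hw hv' hu' h3 h2' h1' hg (by have : w - v - u = 1 := hc; linarith) ex

end Pool.Agent.Strip051.PB
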