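import Pool.Agent.Strip051.PB.ExtD2
import Pool.Agent.Strip051.PB.SlkT

/-! # Leaves of type D, both signs, finer evaluation

The same statement `DAlt2` as the leaves of `ExtD2`; the tests evaluate the potentials as in
`SlkT`. -/

namespace Pool.Agent.Strip051.PB

attribute [local irreducible] padd psub pneg pmul psq pinv psqrt psqrtg pabs pps pmax pmin pphi plam
  pcase phf pnat prat pscale pnorm pdc pnc pone pzero ppos pnn Enc rowPhiT

/-- the subtracted part of the slack -/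
noncomputable def phiRT (fam s1 s2 : Bool) (cn : Con) (a b c : ℕ) (n1 n2 : Node) (pc : Piece)
    (p q g x y z t X Y : ℕ) : ℕ :=
  (fun K1 K2 K3 u v w => rowPhiT cn (khT x) x u (pneg u) v (pneg v) w (pneg w)
    (sg s1 K1) (sg (!s1) K1) (sl fam (sg s2 K2) K3) (sl fam (sg (!s2) K2) (pneg K3))
    (sl fam K3 (sg s2 K2)) (sl fam (pneg K3) (sg (!s2) K2)) (pga g))
    (n1.K.t p x) (n2.K.t q x) (pnorm (pc.K.t X Y x)) (dj (jq a) y) (dj (jq b) z) (dj (jq c) t)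

/-- test at the far vertex -/
noncomputable def kFT (fam s1 s2 : Bool) (cn : Con) (a b c : ℕ) (n1 n2 : Node) (pc : Piece)
    (p q : ℕ) (g x y z t X Y ex : ℕ) : Bool :=
  (fun L1 L2 L3 => tF (psub ex (phiRT fam s1 s2 cn a b c n1 n2 pc p q g x y z t X Y)) L1
    (sl fam L2 L3) (sl fam L3 L2)) (sg s1 (n1.L.t p x)) (sg s2 (n2.L.t q x)) (pc.L.t X Y x)

/-- the subtracted part at the near vertex -/
noncomputable def phiDT (i : ℕ) (cn : Con) (En M nu x u v w C1 C2 C3 R1 R2 R3 g : ℕ) : ℕ :=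
  (fun r1 r2 r3 => rowPhiT cn (khT x) x u (pneg u) v (pneg v) w (pneg w)
    r1 (pneg r1) r2 (pneg r2) r3 (pneg r3) (pga g))
    (kdT En M u C1 R1 (pk4 i pzero (pneg nu) pzero pzero))
    (kdT En M v C2 R2 (pk4 i nu pzero pzero pzero))
    (kdT En M w C3 R3 (pk4 i pzero pzero nu (pneg nu)))

/-- the near test from the correction, `e = esn x`, the difference `d` and the gain `gv` -/
noncomputable def tDT (i N0 : ℕ) (cn : Con) (En M nu e d gv x y z t u v w C1 C2 C3 R1 R2 R3 g ex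
    l1 l2 l3 : ℕ) : Bool :=
  tN (phn N0) M x y z t (psub (psub (padd ex (pmul M (pmul e (pnorm (pmul d gv))))) (pmul e nu))
    (phiDT i cn En M nu x u v w C1 C2 C3 R1 R2 R3 g)) l1 l2 l3

/-- all tests of type D but the far test; `r` is `i + 4 j + 32 jl + 128 s + 256 m`, `g1`, `g2` the
levels -/
noncomputable def n3D (r N0 : ℕ) (P : DPn) (cn : Con) (En x y z t u v w C1 C2 C3 R1 R2 R3 g1 g2 ex
    l1 l2 l3 : ℕ) : Bool :=
  (fun i => (fun b al d G om M e => band (s2D P b al om)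
    (m2D (Nat.land (Nat.shiftRight r 8) 3)
      (nP (Nat.land (Nat.shiftRight r 2) 7) P
        (fun nu gv => tDT i N0 cn En M nu e d gv x y z t u v w C1 C2 C3 R1 R2 R3 g1 ex l1 l2 l3)
        M G b al d om x)
      (nM i (Nat.land (Nat.shiftRight r 5) 3) (Nat.land (Nat.shiftRight r 7) 1) P
        (fun nu gv => tDT i N0 cn En M nu e d gv x y z t u v w C1 C2 C3 R1 R2 R3 g2 ex l1 l2 l3)
        M G b al d om) d))
    (pnorm (pk4 i (psub z pone) (psub y pone) (psub t pone) (psub t pone)))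
    (pnorm (pk4 i (psub y x) (psub z x) (psub y x) (psub z x)))
    (pnorm (pk4 i (psub C1 C3) (psub C3 C2) (psub C2 C1) (psub C2 C1)))
    (pk4 i (psub C2 C3) (psub C1 C3) (psub C2 C3) (psub C1 C3))
    (pnorm (psub pone x)) (muT N0 x)
    (pnorm (padd (padd (phf x) (c1T x)) (pneg pone)))) (Nat.land r 3)

/-- the tests of type D; the payload `r` is
`i + 4 j + 32 jl + 128 s + 256 m + 1024 (γ + 2 ^ 22 γ₁ + 2 ^ 44 γ₂)` -/
noncomputable def k3D (N0 : ℕ) (P : DPn) (En : Fn1) (C1 C2 : Fn2) (C3 : Fn3) (fam s1 s2 : Bool)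
    (cn : Con) (a b c : ℕ) (n1 n2 : Node) (pc : Piece) (p q : ℕ) (r x y z t X Y ex : ℕ) : Bool :=
  band (kFT fam s1 s2 cn a b c n1 n2 pc p q (Nat.land (Nat.shiftRight r 10) 4194303) x y z t X Y ex)
    ((fun L1 L2 L3 D1 D2 D3 K1 K2 K3 => n3D (Nat.land r 1023) N0 P cn (En.t x) x y z t
      (dj (jq a) y) (dj (jq b) z) (dj (jq c) t)
      D1 (sl fam D2 D3) (sl fam D3 D2) K1 (sl fam K2 K3) (sl fam K3 K2)
      (Nat.land (Nat.shiftRight r 32) 4194303) (Nat.land (Nat.shiftRight r 54) 4194303) ex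
      L1 (sl fam L2 L3) (sl fam L3 L2))
      (sg s1 (n1.L.t p x)) (sg s2 (n2.L.t q x)) (pc.L.t X Y x)
      (sg s1 (C1.t p x)) (sg s2 (C2.t q x)) (C3.t X Y x)
      (sg s1 (n1.K.t p x)) (sg s2 (n2.K.t q x)) (pnorm (pc.K.t X Y x)))

/-! ### Soundness -/

section

variable {E : Pt}

theorem enc_phiRT {E : Pt} {fam s1 s2 : Bool} {a b c : ℕ} {cn : Con} (hc : con a b c = some cn)
    {n1 n2 : Node} {pc : Piece} {P Q X : ℕ} {p q x : ℝ}
    (hp : Enc E P p) (hq : Enc E Q q) (hx : Enc E X x) (g : ℕ) {A Z T U Y : ℕ}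
    (hA : Enc E A (valR fam s1 s2 n1 n2 pc p q x).y)
    (hZ : Enc E Z (valR fam s1 s2 n1 n2 pc p q x).z)
    (hT : Enc E T ((valR fam s1 s2 n1 n2 pc p q x).y + (valR fam s1 s2 n1 n2 pc p q x).z))
    (hU : Enc E U (valR fam s1 s2 n1 n2 pc p q x).X)
    (hY : Enc E Y (valR fam s1 s2 n1 n2 pc p q x).Y) (ex : ℝ) :
    Enc E (phiRT fam s1 s2 cn a b c n1 n2 pc P Q g X A Z T U Y)
      (ex - slc cn ex (ken x) x ((valR fam s1 s2 n1 n2 pc p q x).y - jq a)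
        ((valR fam s1 s2 n1 n2 pc p q x).z - jq b)
        ((valR fam s1 s2 n1 n2 pc p q x).y + (valR fam s1 s2 n1 n2 pc p q x).z - jq c)
        (valR fam s1 s2 n1 n2 pc p q x).R1 (valR fam s1 s2 n1 n2 pc p q x).R2
        (valR fam s1 s2 n1 n2 pc p q x).R3 (gar g)) := by
  have k1 := n1.K.enc hp hx
  have k2 := n2.K.enc hq hx
  have k3 := enc_norm (pc.K.enc hU hY hx)
  have hu := enc_dj (jq a) hA
  have hv := enc_dj (jq b) hZ
  have hw := enc_dj (jq c) hT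
  unfold phiRT
  refine enc_rowPhiT cn (enc_khT hx) hx hu (enc_neg hu) hv (enc_neg hv) hw (enc_neg hw)
    ?_ ?_ ?_ ?_ ?_ ?_ (enc_pga E g) (con_ok hc _ _) ex
  · cases fam <;> exact enc_sg s1 k1
  · cases fam <;> exact enc_sgn s1 k1
  · cases fam <;> exact enc_sl _ (enc_sg s2 k2) k3
  · cases fam <;> exact enc_sl _ (enc_sgn s2 k2) (enc_neg k3)
  · cases fam <;> exact enc_sl _ k3 (enc_sg s2 k2)
  · cases fam <;> exact enc_sl _ (enc_neg k3) (enc_sgn s2 k2)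

theorem kFT_sound {E : Pt} {fam s1 s2 : Bool} {a b c : ℕ} {cn : Con} (hc : con a b c = some cn)
    {n1 n2 : Node} {pc : Piece} {P Q X : ℕ} {p q x : ℝ}
    (hp : Enc E P p) (hq : Enc E Q q) (hx : Enc E X x) (g : ℕ) {A Z T U Y F : ℕ} {ex : ℝ}
    (hA : Enc E A (valR fam s1 s2 n1 n2 pc p q x).y)
    (hZ : Enc E Z (valR fam s1 s2 n1 n2 pc p q x).z)
    (hT : Enc E T ((valR fam s1 s2 n1 n2 pc p q x).y + (valR fam s1 s2 n1 n2 pc p q x).z))
    (hU : Enc E U (valR fam s1 s2 n1 n2 pc p q x).X)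
    (hY : Enc E Y (valR fam s1 s2 n1 n2 pc p q x).Y)
    (hF : Enc E F ex) (he : ex ≤ (valR fam s1 s2 n1 n2 pc p q x).ex)
    (h : kFT fam s1 s2 cn a b c n1 n2 pc P Q g X A Z T U Y F = true) :
    0 < (valR fam s1 s2 n1 n2 pc p q x).far cn a b c (gar g) := by
  have hP := enc_phiRT hc hp hq hx g hA hZ hT hU hY (valR fam s1 s2 n1 n2 pc p q x).ex
  obtain ⟨e1, e2, e3⟩ := enc_lev hp hq hx hU hY
  have := tF_sound (enc_sub hF hP) e1 e2 e3 h
  unfold Val.far levF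
  rw [sub_eq_add_neg (valR fam s1 s2 n1 n2 pc p q x).ex, slc_add, valR_x]
  linarith

theorem enc_phiDT {i : ℕ} {a b c : ℕ} {cn : Con} (hc : con a b c = some cn)
    {EN ME NU X U V W A1 A2 A3 Q1 Q2 Q3 : ℕ} {En M nu x y z c1 c2 c3 r1 r2 r3 : ℝ}
    (hE : Enc E EN En) (hM : Enc E ME M) (hN : Enc E NU nu) (hX : Enc E X x)
    (hU : Enc E U (y - jq a)) (hV : Enc E V (z - jq b)) (hW : Enc E W (y + z - jq c))
    (h1 : Enc E A1 c1) (h2 : Enc E A2 c2) (h3 : Enc E A3 c3)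
    (k1 : Enc E Q1 r1) (k2 : Enc E Q2 r2) (k3 : Enc E Q3 r3) (g : ℕ) (ex : ℝ) :
    Enc E (phiDT i cn EN ME NU X U V W A1 A2 A3 Q1 Q2 Q3 g)
      (ex - slc cn ex (ken x) x (y - jq a) (z - jq b) (y + z - jq c)
        (kdR En M (y - jq a) c1 r1 (kr4 i 0 (-nu) 0 0))
        (kdR En M (z - jq b) c2 r2 (kr4 i nu 0 0 0))
        (kdR En M (y + z - jq c) c3 r3 (kr4 i 0 0 nu (-nu))) (gar g)) := by
  have z0 := enc_zero E
  have e1 := enc_kdT hE hM hU h1 k1 (enc_pk4 z0 (enc_neg hN) z0 z0 i)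
  have e2 := enc_kdT hE hM hV h2 k2 (enc_pk4 hN z0 z0 z0 i)
  have e3 := enc_kdT hE hM hW h3 k3 (enc_pk4 z0 z0 hN (enc_neg hN) i)
  exact enc_rowPhiT cn (enc_khT hX) hX hU (enc_neg hU) hV (enc_neg hV) hW (enc_neg hW)
    e1 (enc_neg e1) e2 (enc_neg e2) e3 (enc_neg e3) (enc_pga E g) (con_ok hc _ _) ex

theorem tDT_sound {i N0 : ℕ} {a b c : ℕ} {cn : Con} (hc : con a b c = some cn)
    {EN M NU EE D GV X Y Z T U V W A1 A2 A3 Q1 Q2 Q3 F L1 L2 L3 : ℕ}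
    {En nu e d gv x y z c1 c2 c3 r1 r2 r3 ex l1 l2 l3 : ℝ}
    (hE : Enc E EN En) (hM : Enc E M (mun N0 x)) (hC : Enc E NU nu) (hI : Enc E EE e)
    (hD : Enc E D d) (hG : Enc E GV gv) (hX : Enc E X x) (hY : Enc E Y y) (hZ : Enc E Z z)
    (hT : Enc E T (y + z)) (hU : Enc E U (y - jq a)) (hV : Enc E V (z - jq b))
    (hW : Enc E W (y + z - jq c)) (h1 : Enc E A1 c1) (h2 : Enc E A2 c2) (h3 : Enc E A3 c3)
    (k1 : Enc E Q1 r1) (k2 : Enc E Q2 r2) (k3 : Enc E Q3 r3) (g : ℕ) (hF : Enc E F ex)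
    (m1 : Enc E L1 l1) (m2 : Enc E L2 l2) (m3 : Enc E L3 l3)
    (h : tDT i N0 cn EN M NU EE D GV X Y Z T U V W A1 A2 A3 Q1 Q2 Q3 g F L1 L2 L3 = true) :
    0 < slc cn (levN N0 0 x y z (ex + mun N0 x * (e * (d * gv)) - e * nu) l1 l2 l3) (ken x) x
      (y - jq a) (z - jq b) (y + z - jq c)
      (kdR En (mun N0 x) (y - jq a) c1 r1 (kr4 i 0 (-nu) 0 0))
      (kdR En (mun N0 x) (z - jq b) c2 r2 (kr4 i nu 0 0 0))
      (kdR En (mun N0 x) (y + z - jq c) c3 r3 (kr4 i 0 0 nu (-nu))) (gar g) := by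
  have hP := enc_phiDT (i := i) hc hE hM hC hX hU hV hW
    h1 h2 h3 k1 k2 k3 g (ex + mun N0 x * (e * (d * gv)) - e * nu)
  have := tN_sound hM hX hY hZ hT (enc_sub (enc_sub (enc_add hF (enc_mul hM (enc_mul hI
    (enc_norm (enc_mul hD hG))))) (enc_mul hI hC)) hP) m1 m2 m3 h
  unfold levN
  rw [slc_add]
  linarith

/-- the near test proves the near inequality -/
theorem t3D_sound {i N0 : ℕ} {a b c : ℕ} {cn : Con} (hc : con a b c = some cn) {W : Val}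
    {EN M NU EE D GV X Y Z T U V Q A1 A2 A3 Q1 Q2 Q3 F L1 L2 L3 : ℕ} {nu En c1 c2 c3 gv ex : ℝ}
    (hE : Enc E EN En) (hM : Enc E M (mun N0 W.x)) (hC : Enc E NU nu) (hI : Enc E EE (esn W.x))
    (hD : Enc E D (ddR i c1 c2 c3)) (hG : Enc E GV gv)
    (hX : Enc E X W.x) (hY : Enc E Y W.y) (hZ : Enc E Z W.z)
    (hT : Enc E T (W.y + W.z)) (hU : Enc E U (W.y - jq a)) (hV : Enc E V (W.z - jq b))
    (hQ : Enc E Q (W.y + W.z - jq c)) (h1 : Enc E A1 c1) (h2 : Enc E A2 c2) (h3 : Enc E A3 c3)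
    (k1 : Enc E Q1 W.R1) (k2 : Enc E Q2 W.R2) (k3 : Enc E Q3 W.R3) (g : ℕ) (hF : Enc E F ex)
    (he : ex ≤ W.ex) (m1 : Enc E L1 W.l1) (m2 : Enc E L2 W.l2) (m3 : Enc E L3 W.l3)
    (h : tDT i N0 cn EN M NU EE D GV X Y Z T U V Q A1 A2 A3 Q1 Q2 Q3 g F L1 L2 L3 = true) :
    DSl i N0 En W c1 c2 c3 cn a b c gv nu (gar g) := by
  have t6 := tDT_sound (i := i) hc hE hM hC hI hD hG hX hY hZ hT hU hV hQ h1 h2 h3 k1 k2 k3 g hF
    m1 m2 m3 h
  unfold DSl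
  unfold levN at t6 ⊢
  rw [slc_add, sub_eq_add_neg, add_assoc, slc_add] at t6 ⊢
  refine lt_of_lt_of_le t6 ?_
  gcongr
  exact slc_le cn he _ _ _ _ _ _ _ _ _

theorem n3D_sound {r N0 : ℕ} {P : DPn} {a b c : ℕ} {cn : Con} (hc : con a b c = some cn) {W : Val}
    {EN X Y Z T U V Q A1 A2 A3 Q1 Q2 Q3 F L1 L2 L3 : ℕ} {En c1 c2 c3 ex : ℝ}
    (hE : Enc E EN En) (hX : Enc E X W.x) (hY : Enc E Y W.y) (hZ : Enc E Z W.z)
    (hT : Enc E T (W.y + W.z)) (hU : Enc E U (W.y - jq a)) (hV : Enc E V (W.z - jq b))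
    (hQ : Enc E Q (W.y + W.z - jq c)) (h1 : Enc E A1 c1) (h2 : Enc E A2 c2) (h3 : Enc E A3 c3)
    (k1 : Enc E Q1 W.R1) (k2 : Enc E Q2 W.R2) (k3 : Enc E Q3 W.R3) (g1 g2 : ℕ) (hF : Enc E F ex)
    (he : ex ≤ W.ex) (m1 : Enc E L1 W.l1) (m2 : Enc E L2 W.l2) (m3 : Enc E L3 W.l3)
    (h : n3D r N0 P cn EN X Y Z T U V Q A1 A2 A3 Q1 Q2 Q3 g1 g2 F L1 L2 L3 = true) :
    ∃ i, |dbR i W| ≤ 1 / 8 ∧ -P.r.A ≤ daR i W ∧ daR i W ≤ 1 - W.x ∧
    ((0 ≤ ddR i c1 c2 c3 ∧ DRowP i N0 P.r En W c1 c2 c3 cn a b c) ∨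
      (ddR i c1 c2 c3 ≤ 0 ∧ DRowM i N0 P.r En W c1 c2 c3 cn a b c)) := by
  have o := enc_one E
  unfold n3D at h
  generalize Nat.land r 3 = i at h
  have hb : Enc E (pnorm (pk4 i (psub Z pone) (psub Y pone) (psub T pone) (psub T pone)))
      (dbR i W) := enc_norm (enc_pk4 (enc_sub hZ o) (enc_sub hY o) (enc_sub hT o) (enc_sub hT o) i)
  have ha : Enc E (pnorm (pk4 i (psub Y X) (psub Z X) (psub Y X) (psub Z X))) (daR i W) :=
    enc_norm (enc_pk4 (enc_sub hY hX) (enc_sub hZ hX) (enc_sub hY hX) (enc_sub hZ hX) i)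
  have hd : Enc E (pnorm (pk4 i (psub A1 A3) (psub A3 A2) (psub A2 A1) (psub A2 A1)))
      (ddR i c1 c2 c3) :=
    enc_norm (enc_pk4 (enc_sub h1 h3) (enc_sub h3 h2) (enc_sub h2 h1) (enc_sub h2 h1) i)
  have hG : Enc E (pk4 i (psub A2 A3) (psub A1 A3) (psub A2 A3) (psub A1 A3))
      (kr4 i (c2 - c3) (c1 - c3) (c2 - c3) (c1 - c3)) :=
    enc_pk4 (enc_sub h2 h3) (enc_sub h1 h3) (enc_sub h2 h3) (enc_sub h1 h3) i
  have ho : Enc E (pnorm (psub pone X)) (1 - W.x) := enc_norm (enc_sub o hX)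
  have hM := enc_muT N0 hX
  have hI : Enc E (pnorm (padd (padd (phf X) (c1T X)) (pneg pone))) (esn W.x) :=
    enc_cast (enc_norm (enc_add (enc_add (enc_half hX) (enc_c1T hX)) (enc_neg o))) (by
      unfold esn
      ring)
  obtain ⟨t1, t2⟩ := band_true (show band _ _ = true from h)
  obtain ⟨s1, s2, s3⟩ := s2D_sound hb ha ho t1
  exact ⟨i, s1, s2, s3, m2D_sound hd
    (nP_sound hM hG hb ha hd ho hX (γ := g1) fun hn hg hw => t3D_sound hc hE hM hn hI hd hg hX hY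
      hZ hT hU hV hQ h1 h2 h3 k1 k2 k3 g1 hF he m1 m2 m3 hw)
    (nM_sound hM hG hb ha hd ho (γ := g2) fun hn hg hw => t3D_sound hc hE hM hn hI hd hg hX hY
      hZ hT hU hV hQ h1 h2 h3 k1 k2 k3 g2 hF he m1 m2 m3 hw) t2⟩

theorem k3D_sound {N0 : ℕ} {P : DPn} {En : Fn1} {C1 C2 : Fn2} {C3 : Fn3} {fam s1 s2 : Bool}
    {a b c : ℕ} {cn : Con} (hc : con a b c = some cn) {n1 n2 : Node} {pc : Piece} {P' Q X : ℕ}
    {p q x : ℝ} (hp : Enc E P' p) (hq : Enc E Q q) (hx : Enc E X x) (r : ℕ) {A Z T U Y F : ℕ}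
    {ex : ℝ} (hA : Enc E A (valR fam s1 s2 n1 n2 pc p q x).y)
    (hZ : Enc E Z (valR fam s1 s2 n1 n2 pc p q x).z)
    (hT : Enc E T ((valR fam s1 s2 n1 n2 pc p q x).y + (valR fam s1 s2 n1 n2 pc p q x).z))
    (hU : Enc E U (valR fam s1 s2 n1 n2 pc p q x).X)
    (hY : Enc E Y (valR fam s1 s2 n1 n2 pc p q x).Y)
    (hF : Enc E F ex) (he : ex ≤ (valR fam s1 s2 n1 n2 pc p q x).ex)
    (h : k3D N0 P En C1 C2 C3 fam s1 s2 cn a b c n1 n2 pc P' Q r X A Z T U Y F = true) :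
    ∃ i γ, DRow2 i N0 P.r (En.v x) (valR fam s1 s2 n1 n2 pc p q x)
      (valC fam s1 s2 C1 C2 C3 n1 n2 pc p q x).1 (valC fam s1 s2 C1 C2 C3 n1 n2 pc p q x).2.1
      (valC fam s1 s2 C1 C2 C3 n1 n2 pc p q x).2.2 cn a b c γ := by
  obtain ⟨e1, e2, e3⟩ := enc_lev hp hq hx hU hY
  obtain ⟨d1, d2, d3⟩ := enc_valC (C1 := C1) (C2 := C2) (C3 := C3) hp hq hx hU hY
  have k1' := n1.K.enc hp hx
  have k2' := n2.K.enc hq hx
  have k3' := enc_norm (pc.K.enc hU hY hx)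
  have hu := enc_dj (jq a) hA
  have hv := enc_dj (jq b) hZ
  have hw := enc_dj (jq c) hT
  have hx' : Enc E X (valR fam s1 s2 n1 n2 pc p q x).x := by
    rw [valR_x]
    exact hx
  obtain ⟨g1, g2⟩ := band_true h
  have f1 := kFT_sound hc hp hq hx _ hA hZ hT hU hY hF he g1
  have r1 : Enc E (sg s1 (n1.K.t P' X)) (valR fam s1 s2 n1 n2 pc p q x).R1 := by
    cases fam <;> exact enc_sg s1 k1'
  have r2 : Enc E (sl fam (sg s2 (n2.K.t Q X)) (pnorm (pc.K.t U Y X)))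
      (valR fam s1 s2 n1 n2 pc p q x).R2 := by
    cases fam <;> exact enc_sl _ (enc_sg s2 k2') k3'
  have r3 : Enc E (sl fam (pnorm (pc.K.t U Y X)) (sg s2 (n2.K.t Q X)))
      (valR fam s1 s2 n1 n2 pc p q x).R3 := by
    cases fam <;> exact enc_sl _ k3' (enc_sg s2 k2')
  obtain ⟨i, f2⟩ := n3D_sound hc (En.enc hx) hx' hA hZ hT hu hv hw d1 d2 d3 r1 r2 r3 _ _ hF he
    e1 e2 e3 g2
  exact ⟨i, _, f2.1, f2.2.1, f2.2.2.1, f1, f2.2.2.2⟩

theorem d3T_sound {N0 : ℕ} {P : DPn} {En : Fn1} {C1 C2 : Fn2} {C3 : Fn3} {fam s1 s2 : Bool}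
    {a b c : ℕ} {cn : Con} (hc : con a b c = some cn) {n1 n2 : Node} {pc : Piece} {P' Q X : ℕ}
    {p q x : ℝ} (hp : Enc E P' p) (hq : Enc E Q q) (hx : Enc E X x) (r : ℕ)
    (h : d2T (cond fam c b) fam s1 s2 n1 n2
      (k3D N0 P En C1 C2 C3 fam s1 s2 cn a b c n1 n2 pc) r P' Q X = true) :
    DAlt2 N0 P En C1 C2 C3 fam s1 s2 cn a b c n1 n2 pc p q x := by
  have hA := n1.Y.enc hp
  have hB := n2.Y.enc hq
  have hU := enc_sg s1 (n1.X.enc hp)
  have hV := enc_sg s2 (n2.X.enc hq)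
  have gex := valR_ex fam s1 s2 n1 n2 pc p q x
  have gy := valR_y fam s1 s2 n1 n2 pc p q x
  have hY : Enc E (pnorm (th fam (n1.Y.t P') (n2.Y.t Q)))
      (valR fam s1 s2 n1 n2 pc p q x).Y := by
    cases fam
    · exact enc_norm (enc_sub hB hA)
    · exact enc_norm (enc_add hA hB)
  have kz : Enc E (sl fam (n2.Y.t Q) (pnorm (th fam (n1.Y.t P') (n2.Y.t Q))))
      (valR fam s1 s2 n1 n2 pc p q x).z := by
    cases fam <;> exact enc_sl _ hB hY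
  have kt : Enc E (sl fam (pnorm (th fam (n1.Y.t P') (n2.Y.t Q))) (n2.Y.t Q))
      ((valR fam s1 s2 n1 n2 pc p q x).y + (valR fam s1 s2 n1 n2 pc p q x).z) := by
    cases fam
    · exact enc_cast (enc_sl false hY hB) (by
        show n2.Y.v q = n1.Y.v p + (n2.Y.v q - n1.Y.v p)
        ring)
    · exact enc_sl true hY hB
  have kX : Enc E (pnorm (th fam (sg s1 (n1.X.t P')) (sg s2 (n2.X.t Q))))
      (valR fam s1 s2 n1 n2 pc p q x).X := by
    cases fam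
    · exact enc_norm (enc_sub hV hU)
    · exact enc_norm (enc_add hU hV)
  unfold DAlt2
  unfold d2T at h
  simp only [frc_eq] at h
  generalize Nat.mul (Nat.shiftRight r 79) 1048576 = l at h
  generalize Nat.land (Nat.shiftRight r 76) 7 = i at h
  generalize Nat.land r 75557863725914323419135 = r' at h
  set W := valR fam s1 s2 n1 n2 pc p q x with hVal
  have kex : Enc E (psub (phf (psub (pmul (sg s1 (n1.X.t P')) (n2.Y.t Q))
      (pmul (sg s2 (n2.X.t Q)) (n1.Y.t P')))) (phn 1)) W.ex := by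
    rw [gex]
    refine enc_cast (enc_sub (enc_half (enc_sub (enc_mul hU hB) (enc_mul hV hA)))
      (enc_phn E 1)) ?_
    push_cast
    ring
  by_cases ho : W.out (cond fam c b)
  · exact Or.inl ho
  · refine Or.inr ?_
    obtain ⟨o1, o2, o3, o4, o5⟩ := Val.not_out ho
    have b1 := enc_sub (enc_phn E (cond fam c b)) hY
    have b2 := enc_sub hY (enc_phn E (Nat.add (cond fam c b) 1))
    have b3 := enc_sub (enc_one E) (enc_qqT kX hY)
    have b4 := enc_sub (enc_qqT kX hY) (enc_pnc E 3)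
    have b5 := enc_sub (enc_mul hV hA) (enc_mul hU hB)
    have a1 : ((Nat.add (cond fam c b) 1 : ℕ) : ℝ) = ((cond fam c b : ℕ) : ℝ) + 1 := by
      show (((cond fam c b : ℕ) + 1 : ℕ) : ℝ) = _
      push_cast
      ring
    obtain ⟨v, hv, hv'⟩ := enc_pk5 b1 b2 b3 b4 b5 (by linarith) (by rw [a1]; linarith)
      (by linarith) (by push_cast; linarith) (by rw [gex] at o5; linarith)
      i
    have hl' := enc_mul (enc_dc E l 0) hv'
    have hn : (0 : ℝ) ≤ ((l : ℝ) - ((0 : ℕ) : ℝ)) / S := by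
      push_cast
      rw [sub_zero]
      positivity
    exact k3D_sound hc hp hq hx _ (gy ▸ hA) kz kt kX hY (enc_add kex hl')
      (by nlinarith [mul_nonneg hn (neg_nonneg.2 hv)]) h

end

/-- **Leaves of type D, both signs,** as a further alternative. -/
noncomputable def extD3 (N0 : ℕ) (P : DPn) (En : Fn1) (C1 C2 : Fn2) (C3 : Fn3) (fam s1 s2 : Bool)
    (cn : Con) (a b c : ℕ) (hc : con a b c = some cn) (n1 n2 : Node) (pc : Piece) : Ext where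
  t r p q x := d2T (cond fam c b) fam s1 s2 n1 n2
    (k3D N0 P En C1 C2 C3 fam s1 s2 cn a b c n1 n2 pc) r p q x
  P p q x := DAlt2 N0 P En C1 C2 C3 fam s1 s2 cn a b c n1 n2 pc p q x
  snd hp hq hx h := d3T_sound hc hp hq hx _ h

end Pool.Agent.Strip051.PB
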