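import Pool.Agent.Strip051.PB.Pair
import Pool.Agent.Strip051.PB.WinF

/-! # Pairs of values with a multiple of their difference: finer scaling and the closed forms

The values are the closed forms of `PB/WinF`, the slopes are those of the original expressions. -/

namespace Pool.Agent.Strip051.PB

section

attribute [local irreducible] padd psub pneg pmul psq pinv psqrt psqrtg pnat pscaleT pnorm
  phf pone ppos pnc Enc pbad pwT pwB0 pwB3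

variable {E : Pt} {M : ℝ} {A B D : ℕ} {a b : ℝ}

theorem pr_scaleT (n m : ℕ) (h : Pr E M A B D a b) :
    Pr E M (pscaleT n m A) (pscaleT n m B) (pscaleT n m D) ((n : ℝ) / m * a) ((n : ℝ) / m * b) := by
  obtain ⟨d, k, e⟩ := h.d
  exact ⟨enc_scaleT n m h.l, enc_scaleT n m h.r, (n : ℝ) / m * d, enc_scaleT n m k,
    by linear_combination (n : ℝ) / m * e⟩

variable {O S G T N K Y Z O' S' G' T' N' K' Y' Z' DO DS DG DT DN DK DY DZ : ℕ}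
  {w s c τ n k e q y w' s' c' τ' n' k' e' q' y' : ℝ}

theorem pr_wB0 (hO : Pr E M O O' DO w w') (hS : Pr E M S S' DS s s') (hG : Pr E M G G' DG c c')
    (hZ : Pr E M Z Z' DZ e e') (hT : Pr E M T T' DT τ τ') (hN : Pr E M N N' DN n n')
    (hK : Pr E M K K' DK k k') (hw : w = τ * (n * e⁻¹ - k))
    (hc : c = √(((1 : ℕ) : ℝ) - ((3 : ℕ) : ℝ) / ((4 : ℕ) : ℝ) * s ^ 2))
    (he : e = s / 2 + c - ((1 : ℕ) : ℝ)) (hs : s = ((1 : ℕ) : ℝ) - τ)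
    (hw' : w' = τ' * (n' * e'⁻¹ - k'))
    (hc' : c' = √(((1 : ℕ) : ℝ) - ((3 : ℕ) : ℝ) / ((4 : ℕ) : ℝ) * s' ^ 2))
    (he' : e' = s' / 2 + c' - ((1 : ℕ) : ℝ)) (hs' : s' = ((1 : ℕ) : ℝ) - τ') :
    Pr E M (pwB0 S G T N K) (pwB0 S' G' T' N' K') DO w w' :=
  ⟨enc_wB0 hO.l hS.l hG.l hZ.l hT.l hN.l hK.l hw hc he hs,
    enc_wB0 hO.r hS.r hG.r hZ.r hT.r hN.r hK.r hw' hc' he' hs', hO.d⟩

theorem pr_wB3 (hO : Pr E M O O' DO w w') (hS : Pr E M S S' DS s s') (hG : Pr E M G G' DG c c')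
    (hZ : Pr E M Z Z' DZ e e') (hT : Pr E M T T' DT τ τ') (hN : Pr E M N N' DN n n')
    (hK : Pr E M K K' DK k k') (hY : Pr E M Y Y' DY y y') (hw : w = τ * (n * e⁻¹ + k))
    (hc : c = √(((1 : ℕ) : ℝ) - ((3 : ℕ) : ℝ) / ((4 : ℕ) : ℝ) * s ^ 2))
    (he : e = s / 2 + c - ((1 : ℕ) : ℝ)) (hs : s = y - ((1 : ℕ) : ℝ))
    (ht : τ = y - ((2 : ℕ) : ℝ)) (hw' : w' = τ' * (n' * e'⁻¹ + k'))
    (hc' : c' = √(((1 : ℕ) : ℝ) - ((3 : ℕ) : ℝ) / ((4 : ℕ) : ℝ) * s' ^ 2))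
    (he' : e' = s' / 2 + c' - ((1 : ℕ) : ℝ)) (hs' : s' = y' - ((1 : ℕ) : ℝ))
    (ht' : τ' = y' - ((2 : ℕ) : ℝ)) :
    Pr E M (pwB3 S G T N K) (pwB3 S' G' T' N' K') DO w w' :=
  ⟨enc_wB3 hO.l hS.l hG.l hZ.l hT.l hN.l hK.l hY.l hw hc he hs ht,
    enc_wB3 hO.r hS.r hG.r hZ.r hT.r hN.r hK.r hY.r hw' hc' he' hs' ht', hO.d⟩

theorem pr_wT (hO : Pr E M O O' DO w w') (hS : Pr E M S S' DS s s') (hG : Pr E M G G' DG c c')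
    (hZ : Pr E M Z Z' DZ e e')
    (hw : w = (((3 : ℕ) : ℝ) / ((4 : ℕ) : ℝ) * (s * c⁻¹) * (((4 : ℕ) : ℝ) * c - ((3 : ℕ) : ℝ)) * e -
      q * (((1 : ℕ) : ℝ) / ((2 : ℕ) : ℝ) - ((3 : ℕ) : ℝ) / ((4 : ℕ) : ℝ) * (s * c⁻¹))) *
      (((2 : ℕ) : ℝ) * e * e)⁻¹)
    (hc : c = √(((1 : ℕ) : ℝ) - ((3 : ℕ) : ℝ) / ((4 : ℕ) : ℝ) * s ^ 2))
    (he : e = s / 2 + c - ((1 : ℕ) : ℝ))
    (hq : q = (((1 : ℕ) : ℝ) - c) * (((2 : ℕ) : ℝ) * c - ((1 : ℕ) : ℝ)))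
    (hw' : w' = (((3 : ℕ) : ℝ) / ((4 : ℕ) : ℝ) * (s' * c'⁻¹) *
      (((4 : ℕ) : ℝ) * c' - ((3 : ℕ) : ℝ)) * e' -
      q' * (((1 : ℕ) : ℝ) / ((2 : ℕ) : ℝ) - ((3 : ℕ) : ℝ) / ((4 : ℕ) : ℝ) * (s' * c'⁻¹))) *
      (((2 : ℕ) : ℝ) * e' * e')⁻¹)
    (hc' : c' = √(((1 : ℕ) : ℝ) - ((3 : ℕ) : ℝ) / ((4 : ℕ) : ℝ) * s' ^ 2))
    (he' : e' = s' / 2 + c' - ((1 : ℕ) : ℝ))
    (hq' : q' = (((1 : ℕ) : ℝ) - c') * (((2 : ℕ) : ℝ) * c' - ((1 : ℕ) : ℝ))) :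
    Pr E M (pwT S G) (pwT S' G') DO w w' :=
  ⟨enc_wT hO.l hS.l hG.l hZ.l hw hc he hq, enc_wT hO.r hS.r hG.r hZ.r hw' hc' he' hq', hO.d⟩

end

end Pool.Agent.Strip051.PB
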