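import Pool.Agent.Strip051.PB.MolL

/-! # The tight charts: quadratic pieces, exclusions, certificates -/

namespace Pool.Agent.Strip051.PB.Mol

open Pool.Agent.StripNear Pool.Agent.StripSquare Pool.Agent.Strip051.Sweep
open Pool.Agent.Strip051.LC Pool.Agent.Strip051.LC.MolN

attribute [local irreducible] padd psub pneg pmul psq pinv psqrt psqrtg pabs pps pmax pmin pphi plam
  pcase phf pnat prat pscale pnorm pdc pnc pone ppos pnn Enc pzero

/-! ### Quadratic pieces of the correction -/

/-- the difference quotient of a quadratic polynomial -/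
noncomputable def dqQ (s e : Fn1) : Fn3 where
  t L H C := pnorm (padd (s.t C) (pmul (e.t C) (pnorm (padd L H))))
  v l h x := s.v x + e.v x * (l + h)
  enc h1 h2 h3 := enc_norm (enc_add (s.enc h3) (enc_mul (e.enc h3) (enc_norm (enc_add h1 h2))))

/-- a further knot `k`, where the slope changes by `d` and the curvature by `2 e` -/
noncomputable def dqK2 (D : Fn3) (d e : Fn1) (s : Bool) (p q : ℕ) : Fn3 where
  t L H C := pnorm (padd (D.t L H C) (pmul (pnorm (padd (d.t C) (pmul (e.t C) (pnorm (padd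
    (pps (psub H (sgt' s p q))) (pps (psub L (sgt' s p q)))))))) (lmt H L (sgt' s p q))))
  v l h x := D.v l h x + (d.v x + e.v x * (max (h - sgv s p q) 0 + max (l - sgv s p q) 0)) *
    lmv h l (sgv s p q)
  enc h1 h2 h3 := enc_norm (enc_add (D.enc h1 h2 h3) (enc_mul (enc_norm (enc_add (d.enc h3)
    (enc_mul (e.enc h3) (enc_norm (enc_add (enc_pos (enc_sub h2 (enc_sgt' _ s p q)))
      (enc_pos (enc_sub h1 (enc_sgt' _ s p q)))))))) (enc_lmt h2 h1 (enc_sgt' _ s p q))))

theorem dqQ_ok {f : ℝ → ℝ} {s e : Fn1} {A x lo hi : ℝ}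
    (h : ∀ p, lo ≤ p → p ≤ hi → f p = A + s.v x * p + e.v x * p ^ 2) :
    DqF f (fun p p' => (dqQ s e).v p p' x) lo hi := by
  intro p p' h1 h2 h3
  rw [h p h1 (by linarith), h p' (by linarith) h3]
  show _ = (p' - p) * (s.v x + e.v x * (p + p'))
  ring

theorem dqK2_ok {f g : ℝ → ℝ} {D : Fn3} {d e : Fn1} {s : Bool} {m q : ℕ} {x lo hi : ℝ}
    (H : DqF g (fun p p' => D.v p p' x) lo hi)
    (h : ∀ p, lo ≤ p → p ≤ hi → f p = g p + d.v x * max (p - sgv s m q) 0 +
      e.v x * max (p - sgv s m q) 0 ^ 2) :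
    DqF f (fun p p' => (dqK2 D d e s m q).v p p' x) lo hi := by
  intro p p' h1 h2 h3
  have k := H p p' h1 h2 h3
  have l := lmv_dq (k := sgv s m q) h2
  rw [h p h1 (by linarith), h p' (by linarith) h3]
  show _ = (p' - p) * (D.v p p' x + (d.v x + e.v x * (max (p' - sgv s m q) 0 +
    max (p - sgv s m q) 0)) * lmv p' p (sgv s m q))
  linear_combination k + (d.v x + e.v x * (max (p' - sgv s m q) 0 +
    max (p - sgv s m q) 0)) * l

/-- a table of the third kernel without the factor of the phase variable -/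
noncomputable def tmF (f : Fn2) (j : ℕ) : Fn2 where
  t Y C := pnorm (pmul (f.t Y C) (dj j Y))
  v y x := f.v y x * (y - j)
  enc h1 h2 := enc_norm (enc_mul (f.enc h1 h2) (enc_dj j h1))

/-- zero -/
noncomputable def zF1 : Fn1 := ⟨fun _ => pzero, fun _ => 0, fun _ => enc_zero _⟩

noncomputable def zF2 : Fn2 := ⟨fun _ _ => pzero, fun _ _ => 0, fun _ _ => enc_zero _⟩

/-! ### Exclusions -/

/-- the deviation of the third side -/
noncomputable def dvF (A : Bool) : Fn3 where
  t a b _ := pnorm (Bool.rec (motive := fun _ => ℕ) (psub a b) (padd a b) A)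
  v a b _ := cond A (a + b) (a - b)
  enc h1 h2 _ := by
    cases A
    · exact enc_norm (enc_sub h1 h2)
    · exact enc_norm (enc_add h1 h2)

/-- the deviation of the third side is greater than `v / S` -/
noncomputable def skP (A : Bool) (v : ℕ) : Fn3 where
  t a b c := psub ((dvF A).t a b c) (pdc v 0)
  v a b c := (dvF A).v a b c - v / S
  enc h1 h2 h3 := encc (enc_sub ((dvF A).enc h1 h2 h3) (enc_dc _ v 0)) (by push_cast; ring)

/-- the deviation of the third side is less than `- v / S` -/
noncomputable def skM (A : Bool) (v : ℕ) : Fn3 where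
  t a b c := psub (pneg ((dvF A).t a b c)) (pdc v 0)
  v a b c := -(dvF A).v a b c - v / S
  enc h1 h2 h3 := encc (enc_sub (enc_neg ((dvF A).enc h1 h2 h3)) (enc_dc _ v 0)) (by push_cast; ring)

/-- the third side lies in the other quarter, family `A` -/
noncomputable def skQA (hi : Bool) : Fn3 where
  t a b c := Bool.rec (motive := fun _ => ℕ) (psub (fYA.t a b c) (prat 1 2))
    (psub (prat 1 2) (fYA.t a b c)) hi
  v a b c := cond hi (1 / 2 - (c + a + b)) (c + a + b - 1 / 2)
  enc h1 h2 h3 := by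
    cases hi
    · exact encc (enc_sub (fYA.enc h1 h2 h3) (enc_rat _ 1 2)) (by simp only [fYA, cond_false]; norm_num)
    · exact encc (enc_sub (enc_rat _ 1 2) (fYA.enc h1 h2 h3)) (by simp only [fYA, cond_true]; norm_num)

/-- the third side lies in the other quarter, family `B` -/
noncomputable def skQB (hi : Bool) : Fn3 where
  t a b c := Bool.rec (motive := fun _ => ℕ) (psub (fYB.t a b c) (prat 1 2))
    (psub (prat 1 2) (fYB.t a b c)) hi
  v a b c := cond hi (1 / 2 - (c + a - b)) (c + a - b - 1 / 2)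
  enc h1 h2 h3 := by
    cases hi
    · exact encc (enc_sub (fYB.enc h1 h2 h3) (enc_rat _ 1 2)) (by simp only [fYB, cond_false]; norm_num)
    · exact encc (enc_sub (enc_rat _ 1 2) (fYB.enc h1 h2 h3)) (by simp only [fYB, cond_true]; norm_num)

theorem skPM {A : Bool} {v : ℕ} {u b x : ℝ} (h : |cond A (u + b) (u - b)| ≤ v / S) :
    ∀ G ∈ [skP A v, skM A v], G.v u b x ≤ 0 := by
  have h' := abs_le.1 h
  intro G hG
  simp only [List.mem_cons, List.not_mem_nil, or_false] at hG
  rcases hG with rfl | rfl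
  · show cond A (u + b) (u - b) - v / S ≤ 0
    linarith [h'.2]
  · show -cond A (u + b) (u - b) - v / S ≤ 0
    linarith [h'.1]

theorem skPMA {v : ℕ} {hi : Bool} {u b x : ℝ} (h : |u + b| ≤ v / S)
    (q : cond hi (1 / 2 ≤ x + u + b) (x + u + b ≤ 1 / 2)) :
    ∀ G ∈ [skP true v, skM true v, skQA hi], G.v u b x ≤ 0 := by
  intro G hG
  simp only [List.mem_cons, List.not_mem_nil, or_false] at hG
  rcases hG with rfl | rfl | rfl
  · exact skPM (A := true) h _ (by simp)
  · exact skPM (A := true) h _ (by simp)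
  · cases hi
    · exact sub_nonpos.2 (by simpa using q)
    · exact sub_nonpos.2 (by simpa using q)

theorem skPMB {v : ℕ} {hi : Bool} {u b x : ℝ} (h : |u - b| ≤ v / S)
    (q : cond hi (1 / 2 ≤ x + u - b) (x + u - b ≤ 1 / 2)) :
    ∀ G ∈ [skP false v, skM false v, skQB hi], G.v u b x ≤ 0 := by
  intro G hG
  simp only [List.mem_cons, List.not_mem_nil, or_false] at hG
  rcases hG with rfl | rfl | rfl
  · exact skPM (A := false) h _ (by simp)
  · exact skPM (A := false) h _ (by simp)
  · cases hi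
    · exact sub_nonpos.2 (by simpa using q)
    · exact sub_nonpos.2 (by simpa using q)

/-! ### Certificates -/

/-- **From the certificate of a chart.** -/
theorem Cht.cert {K : Cht} {ng : Bool} {r W1 W2 P3 W3 : ℕ}
    (ht : ∃ t, chk3 (onCell 0 W1 0 W2 P3 W3 (K.row ng r)) t 1 1 1 = true) {u b x : ℝ}
    (h1 : -(r / S : ℝ) ≤ u) (h2 : u + r / S ≤ (W1 : ℝ) / S) (h3 : 0 ≤ cond ng (-b) b)
    (h4 : cond ng (-b) b ≤ (W2 : ℝ) / S) (h5 : (P3 : ℝ) / S ≤ x) (h6 : x ≤ ((P3 : ℝ) + W3) / S) :
    K.P u b x := by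
  have key := onCell_sound (Q := fun p q x => K.P (p - r / S) (cond ng (-q) q) x)
    (fun e1 e2 e3 hh => K.row_sound e1 e2 e3 hh) ht (p := u + r / S) (q := cond ng (-b) b)
    (by simp only [Nat.cast_zero, zero_div]; linarith) (by simpa using h2)
    (by simpa using h3) (by simpa using h4) h5 h6
  simp only [add_sub_cancel_right] at key
  cases ng
  · exact key
  · simpa using key

end Pool.Agent.Strip051.PB.Mol
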