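import Pool.Agent.Strip051.PB.MolX2
import Pool.Agent.Strip051.PB.MolK

/-! # Exclusion of the heights outside of the window -/

namespace Pool.Agent.Strip051.PB.Mol

open Pool.Agent.Strip051.Sweep Pool.Agent.Strip051.PB

/-- the value is greater than `n / S` (`hi = true`), less than `n / S` (`hi = false`) -/
noncomputable def skW (F : Fn3) (hi : Bool) (n : ℕ) : Fn3 where
  t a b c := Bool.rec (motive := fun _ => ℕ) (psub (pdc n 0) (F.t a b c))
    (psub (F.t a b c) (pdc n 0)) hi
  v a b c := cond hi (F.v a b c - n / S) (n / S - F.v a b c)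
  enc h1 h2 h3 := by
    cases hi
    · exact encc (enc_sub (enc_dc _ n 0) (F.enc h1 h2 h3)) (by push_cast; simp)
    · exact encc (enc_sub (F.enc h1 h2 h3) (enc_dc _ n 0)) (by push_cast; simp)

theorem skWA {v m n : ℕ} {u b x : ℝ} (h : |u + b| ≤ v / S) (y1 : (m : ℝ) / S ≤ x + u)
    (y2 : x + u ≤ (n : ℝ) / S) (z1 : (m : ℝ) / S ≤ x + u + b) (z2 : x + u + b ≤ (n : ℝ) / S) :
    ∀ G ∈ [skP true v, skM true v, skW fY true n, skW fY false m, skW fYA true n,
      skW fYA false m], G.v u b x ≤ 0 := by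
  intro G hG
  simp only [List.mem_cons, List.not_mem_nil, or_false] at hG
  rcases hG with rfl | rfl | rfl | rfl | rfl | rfl
  · exact skPM (A := true) h _ (by simp)
  · exact skPM (A := true) h _ (by simp)
  · exact sub_nonpos.2 y2
  · exact sub_nonpos.2 y1
  · exact sub_nonpos.2 z2
  · exact sub_nonpos.2 z1

theorem skWB {v m n : ℕ} {u b x : ℝ} (h : |u - b| ≤ v / S) (y1 : (m : ℝ) / S ≤ x + u)
    (y2 : x + u ≤ (n : ℝ) / S) (z1 : (m : ℝ) / S ≤ x + u - b) (z2 : x + u - b ≤ (n : ℝ) / S) :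
    ∀ G ∈ [skP false v, skM false v, skW fY true n, skW fY false m, skW fYB true n,
      skW fYB false m], G.v u b x ≤ 0 := by
  intro G hG
  simp only [List.mem_cons, List.not_mem_nil, or_false] at hG
  rcases hG with rfl | rfl | rfl | rfl | rfl | rfl
  · exact skPM (A := false) h _ (by simp)
  · exact skPM (A := false) h _ (by simp)
  · exact sub_nonpos.2 y2
  · exact sub_nonpos.2 y1
  · exact sub_nonpos.2 z2
  · exact sub_nonpos.2 z1

end Pool.Agent.Strip051.PB.Mol
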