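import Pool.Agent.Strip051.PB.RowD
import Pool.Agent.Strip051.LC.Exact.MolU4

/-! # Rows of the near vertex next to the tight triangles, both signs

As in `RowD`, for both signs of the difference of the third kernels on the short edge and for a
general range of the short edge. -/

namespace Pool.Agent.Strip051.PB

open Pool.Agent.StripNear Pool.Agent.StripSquare Pool.Agent.Strip051.Sweep
open Pool.Agent.Strip051.LC
open Pool.Agent.Strip051.LC.Line (tau jn D D_refl)

/-- The signed distance of the steep edge, seen from its upper end. -/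
def DK.be (k : DK) (y z : ℝ) : ℝ :=
  match k with
  | .A1 => z - 1
  | .A2 => y - 1
  | .B1 => -(y + z - 1)
  | .B2 => -(y + z - 1)

/-- The constants for a nonnegative difference; `A` is the range of the short edge. -/
structure DC2 (th K l A x : ℝ) : Prop where
  t0 : 0 < th
  t1 : th ≤ 1
  x0 : 1 / 2 ≤ x
  x1 : x ≤ 49 / 50
  a0 : 0 ≤ A
  ax : A ≤ x
  l0 : 0 < l
  lx : l ^ 2 ≤ 1 - x
  k1 : (1 - th) * (1 + 1 / l) ≤ K
  k2 : (1 - th) * (1 - x + A) ≤ K * (1 - x) * (1 - 1 / 8 / x)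
  k3 : (1 - th) * (1 - x + A) * (1 / 8) ≤ K * (1 - x) * (1 - x)
  k4 : th * x ≤ 16 / 5 * (K * (1 - x))

/-- The constants for a nonpositive difference: `K1` for all triangles, `K2` for those whose steep
edge is shifted down. -/
structure DN (th L l K1 K2 A x : ℝ) : Prop where
  t0 : 0 < th
  t1 : th ≤ 1
  x0 : 1 / 2 ≤ x
  x1 : x < 1
  a0 : 0 ≤ A
  ax : 1 - x + A ≤ x ∨ A ≤ 3 / 16
  L0 : (1 - th) * (4 * th * x + (1 - x)) ≤ 4 * th * x * L
  L1 : (1 - th) * (th * x + (1 - x)) ≤ 2 * th * x * L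
  l0 : 0 ≤ l
  lx : 1 ≤ l ^ 2 * x
  k1 : L * x / 2 * (1 + l) ≤ K1
  k2 : L * x / 2 ≤ K2

/-- A gain on the short edge. -/
inductive Gain2 (th K x al g : ℝ) : Prop
  | neg (h : g ≤ -((1 / th - 1) * (al ^ 2 / x)))
  | zero (h : g ≤ 0) (h0 : 0 ≤ al)
  | sq (h : g ≤ (1 / th - 1) * (al ^ 2 / (1 - x))) (h0 : 0 ≤ al) (h1 : al ≤ th / 2 * (1 - x))
  | pos (ρ : ℝ) (h0 : 0 ≤ ρ) (h1 : ρ ≤ 1 / 2) (h2 : 0 ≤ ρ - ρ ^ 2 - th / 4)
      (h : g ≤ (ρ - ρ ^ 2 - th / 4) * (1 - x)) (h3 : ρ * (1 - x) ≤ al)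
      (h4 : al ≤ (1 - ρ) * (1 - x))
      (h5 : (ρ - ρ ^ 2 - th / 4) * x ≤ 4 / 5 * (K * ((1 - ρ) * (1 - x) - al)))

/-- A loss on the short edge. -/
inductive Loss (th x al g : ℝ) : Prop
  | neg (h : 0 ≤ g) (h0 : al ≤ 0)
  | sq (h : (1 / th - 1) * (al ^ 2 / (1 - x)) ≤ g) (h0 : 0 ≤ al)
  | mid (h : al - al ^ 2 / (1 - x) - th / 4 * (1 - x) ≤ g) (h0 : th / 2 * (1 - x) ≤ al)
      (h1 : al ≤ (1 - x) / 2)
  | top (h : (1 - th) / 4 * (1 - x) ≤ g)

section

variable {th K l A x al g b : ℝ}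

theorem DC2.big (C : DC2 th K l A x) : 5 / 4 * (1 - th) ≤ K * (1 - 1 / 8 / x) ∧
    5 / 32 * (1 - th) ≤ K * (1 - x) := by
  obtain ⟨t0, t1, x0, x1, a0, ax, l0, lx, k1, k2, k3, k4⟩ := C
  have t2 : 0 ≤ 1 - th := by linarith
  have l1 : l ≤ 1 := by nlinarith
  have i1 : 1 ≤ 1 / l := by
    rw [le_div_iff₀ l0]
    linarith
  have hK : (1 - th) * 2 ≤ K :=
    le_trans (mul_le_mul_of_nonneg_left (by linarith) t2) k1
  have i2 : 1 / 8 / x ≤ 1 / 4 := by
    rw [div_le_iff₀ (by linarith)]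
    linarith
  constructor
  · have : K * (3 / 4) ≤ K * (1 - 1 / 8 / x) :=
      mul_le_mul_of_nonneg_left (by linarith) (by nlinarith)
    nlinarith
  · have q0 : 0 ≤ 1 - x := by linarith
    have i3 : 7 / 50 ≤ (1 - x) * (1 / l) := by
      have e : (1 - x) * (1 / l) * l = 1 - x := by field_simp
      have p : 0 ≤ (1 - x) * (1 / l) := by positivity
      by_contra hc
      push Not at hc
      have : (1 - x) * (1 / l) * l < 7 / 50 * l := mul_lt_mul_of_pos_right hc l0
      nlinarith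
    have i4 := mul_le_mul_of_nonneg_right k1 q0
    have i5 : (1 - th) * (5 / 32) ≤ (1 - th) * (1 + 1 / l) * (1 - x) := by
      rw [mul_assoc]
      exact mul_le_mul_of_nonneg_left (by nlinarith) t2
    linarith

theorem Gain2.short (C : DC2 th K l A x) (h : Gain2 th K x al g) (ha : -A ≤ al)
    (ha' : al ≤ 1 - x) (hb : |b| ≤ 1 / 8) (z : ℝ) :
    h0 * g - h0 * (K * (1 - x)) * (∫ u in (0 : ℝ)..1, (1 - Dh (h0 * x) (z + u * (h0 * b)))) ≤
      ∫ v in (z - h0 * (x + al))..z, gd (h0 * x) th v := by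
  have hp := h0_pos
  obtain ⟨b1, b2⟩ := C.big
  obtain ⟨t0, t1, x0, x1, a0, ax, l0, lx, k1, k2, k3, k4⟩ := C
  have xp : 0 < x := by linarith
  have q0 : 0 < 1 - x := by linarith
  have t2 : 0 ≤ 1 - th := by linarith
  have s0 : 0 < h0 * x := by positivity
  have s1 : h0 * x < h0 := by nlinarith
  have s2 : h0 / 2 ≤ h0 * x := by nlinarith
  have r1 : h0 - h0 * x = h0 * (1 - x) := by ring
  have hB : |h0 * b| ≤ h0 / 8 := by
    rw [abs_mul, abs_of_pos hp]
    nlinarith
  have hB2 : h0 / 8 ≤ h0 * x / 2 := by nlinarith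
  have hl : l ^ 2 * h0 ≤ h0 - h0 * x := by
    rw [r1]
    nlinarith
  have et : h0 * (x + al) = h0 * x + h0 * al := by ring
  have c1 : (1 - th) * ((h0 - h0 * x) * (1 + 1 / l)) ≤ h0 * (K * (1 - x)) := by
    rw [r1]
    have := mul_le_mul_of_nonneg_left k1 (mul_nonneg hp.le q0.le)
    linarith
  have q : h0 / 8 / (h0 * x) = 1 / 8 / x := by
    field_simp
  have hA1 : -(h0 * A) ≤ h0 * al := by
    have := mul_le_mul_of_nonneg_left ha hp.le
    linarith
  have hA2 : h0 * A ≤ h0 * x := mul_le_mul_of_nonneg_left ax hp.le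
  have base : ∀ {g' : ℝ}, g' ≤ -((1 / th - 1) * (al ^ 2 / x)) →
      h0 * g' - h0 * (K * (1 - x)) * (∫ u in (0 : ℝ)..1, (1 - Dh (h0 * x) (z + u * (h0 * b)))) ≤
      ∫ v in (z - h0 * (x + al))..z, gd (h0 * x) th v := by
    intro g' hg'
    have := gd_short2 (s := h0 * x) (th := th) (t := h0 * (x + al)) (α := h0 * al) (β := h0 * b)
      (b := z) (A := h0 * A) (B := h0 / 8) (C := h0 * (K * (1 - x))) (l := l) s0 s1 s2 t0 t1 et
      (by rw [r1]; exact mul_le_mul_of_nonneg_left ha' hp.le) hA1 hA2 hB hB2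
      l0 hl c1
      (by
        rw [r1, q]
        have := mul_le_mul_of_nonneg_left k2 hp.le
        linarith)
      (by
        rw [r1]
        have := mul_le_mul_of_nonneg_left k3 (mul_nonneg hp.le hp.le)
        linarith)
    refine le_trans ?_ this
    have e : (h0 * al) ^ 2 / (h0 * x) = h0 * (al ^ 2 / x) := by
      field_simp
    rw [e]
    have := mul_le_mul_of_nonneg_left hg' hp.le
    linarith
  have base3 : ∀ {g' a' : ℝ}, 0 ≤ a' → 0 ≤ g' → g' ≤ (1 - th) / 4 * (1 - x) →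
      h0 * g' ≤ (∫ v in (-(h0 * a'))..(0 : ℝ), gd (h0 * x) th v) →
      a' ≤ al → al ≤ 1 - x - a' →
      g' * x ≤ 4 / 5 * (K * (1 - x) * (1 - x - a' - al)) →
      h0 * g' - h0 * (K * (1 - x)) * (∫ u in (0 : ℝ)..1, (1 - Dh (h0 * x) (z + u * (h0 * b)))) ≤
      ∫ v in (z - h0 * (x + al))..z, gd (h0 * x) th v := by
    intro g' a' p0 g0 g1 g2 p2 p3 p4
    have g3 : (1 - th) * (1 - x) + g' ≤ 5 / 4 * (1 - th) * (1 - x) := by linarith
    exact gd_short3 (s := h0 * x) (th := th) (t := h0 * (x + al)) (α := h0 * al) (β := h0 * b)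
      (b := z) (a := h0 * a') (g := h0 * g') (B := h0 / 8) (C := h0 * (K * (1 - x)))
      (l := l) s0 s1 s2 t0 t1 et (mul_nonneg hp.le p0) (mul_le_mul_of_nonneg_left p2 hp.le) (by
        have := mul_le_mul_of_nonneg_left p3 hp.le
        linarith) (mul_nonneg hp.le g0) g2 hB hB2 l0 hl c1
      (by
        rw [r1, q]
        have i1 := mul_le_mul_of_nonneg_right b1 q0.le
        have i2 := mul_le_mul_of_nonneg_left (le_trans g3 i1) hp.le
        linarith)
      (by
        rw [r1]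
        have i1 := mul_le_mul_of_nonneg_right b2 q0.le
        have i2 := mul_le_mul_of_nonneg_left g3 (mul_nonneg hp.le hp.le)
        have i3 := mul_le_mul_of_nonneg_left i1 (mul_nonneg hp.le hp.le)
        linarith)
      (by
        have := mul_le_mul_of_nonneg_left p4 (mul_nonneg hp.le hp.le)
        linarith)
  have hK : 0 ≤ K := le_trans (mul_nonneg t2 (by positivity)) k1
  rcases h with h | ⟨h, h'⟩ | ⟨h, h1, h2⟩ | ⟨ρ, p0, p1, p2, h, p3, p4, p5⟩
  · exact base h
  · refine le_trans ?_ (base3 (g' := 0) (a' := 0) le_rfl le_rfl (mul_nonneg (by linarith) q0.le)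
      (by simp) (by linarith) (by linarith) ?_)
    · have := mul_le_mul_of_nonneg_left h hp.le
      linarith
    · have : 0 ≤ K * (1 - x) * (1 - x - 0 - al) :=
        mul_nonneg (mul_nonneg hK q0.le) (by linarith)
      linarith
  · have u1 : th * (1 - x) ≤ 1 - x := by
      have := mul_le_mul_of_nonneg_right t1 q0.le
      linarith
    have hg0 : 0 ≤ (1 / th - 1) * (al ^ 2 / (1 - x)) := by
      have : 0 ≤ 1 / th - 1 := by
        rw [sub_nonneg, le_div_iff₀ t0]
        linarith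
      positivity
    have hg1 : (1 / th - 1) * (al ^ 2 / (1 - x)) ≤ (1 - th) * th / 4 * (1 - x) := by
      have e : (1 - th) * th / 4 * (1 - x) = (1 / th - 1) * ((th / 2 * (1 - x)) ^ 2 / (1 - x)) := by
        field_simp
        ring
      rw [e]
      have : 0 ≤ 1 / th - 1 := by
        rw [sub_nonneg, le_div_iff₀ t0]
        linarith
      refine mul_le_mul_of_nonneg_left ?_ this
      refine div_le_div_of_nonneg_right ?_ q0.le
      exact pow_le_pow_left₀ h1 h2 2
    refine le_trans ?_ (base3 (g' := (1 / th - 1) * (al ^ 2 / (1 - x))) (a' := al) h1 hg0 ?_ ?_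
      le_rfl (by linarith) ?_)
    · have := mul_le_mul_of_nonneg_left h hp.le
      linarith
    · refine hg1.trans ?_
      have : (1 - th) * (th * (1 - x)) ≤ (1 - th) * (1 - x) := mul_le_mul_of_nonneg_left u1 t2
      linarith
    · have := gain_sq (s := h0 * x) (th := th) s0 s1 t0 t1 (a := h0 * al) (mul_nonneg hp.le h1)
        (by
          rw [r1]
          have := mul_le_mul_of_nonneg_left h2 hp.le
          linarith)
      refine le_trans (le_of_eq ?_) this
      rw [r1]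
      field_simp
    · have i1 := mul_le_mul_of_nonneg_right hg1 xp.le
      have i2 := mul_le_mul_of_nonneg_left k4 (mul_nonneg t2 q0.le)
      have i3 : K * (1 - x) * ((1 - th) * (1 - x)) ≤ K * (1 - x) * (1 - x - al - al) :=
        mul_le_mul_of_nonneg_left (by linarith) (mul_nonneg hK q0.le)
      linarith
  · have u2 : ρ * (1 - x) ≤ 1 / 2 * (1 - x) := mul_le_mul_of_nonneg_right p1 q0.le
    have hg1 : (ρ - ρ ^ 2 - th / 4) * (1 - x) ≤ (1 - th) / 4 * (1 - x) := by
      have i1 : ρ - ρ ^ 2 - th / 4 ≤ (1 - th) / 4 := by nlinarith [sq_nonneg (ρ - 1 / 2)]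
      exact mul_le_mul_of_nonneg_right i1 q0.le
    refine le_trans ?_ (base3 (g' := (ρ - ρ ^ 2 - th / 4) * (1 - x)) (a' := ρ * (1 - x))
      (mul_nonneg p0 q0.le) (mul_nonneg p2 q0.le) hg1 ?_ p3 (by linarith) ?_)
    · have := mul_le_mul_of_nonneg_left h hp.le
      linarith
    · have := gain_low (s := h0 * x) (th := th) s0 s1 t0 t1 (a := h0 * (ρ * (1 - x)))
        (mul_nonneg hp.le (mul_nonneg p0 q0.le))
        (by
          rw [r1]
          have := mul_le_mul_of_nonneg_left u2 hp.le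
          linarith)
      refine le_trans (le_of_eq ?_) this
      rw [r1]
      have : (1 : ℝ) - x ≠ 0 := by linarith
      field_simp
    · have := mul_le_mul_of_nonneg_right p5 q0.le
      linarith

theorem Loss.bd (t0 : 0 < th) (t1 : th ≤ 1) (x0 : 0 < x) (x1 : x < 1) (h : Loss th x al g)
    (ha' : al ≤ 1 - x) : 0 ≤ g ∧ ∀ a, 0 ≤ a → a ≤ al →
      ∫ v in (-(h0 * a))..(0 : ℝ), gd (h0 * x) th v ≤ h0 * g := by
  have hp := h0_pos
  have q0 : 0 < 1 - x := by linarith
  have t2 : 0 ≤ 1 - th := by linarith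
  have s0 : 0 < h0 * x := by positivity
  have s1 : h0 * x < h0 := by nlinarith
  have r1 : h0 - h0 * x = h0 * (1 - x) := by ring
  have c0 : 0 ≤ 1 / th - 1 := by
    rw [sub_nonneg, le_div_iff₀ t0]
    linarith
  have c1 : 1 - th ≤ 1 / th - 1 := by
    have : (1 - th) ^ 2 / th = 1 / th - 1 - (1 - th) := by
      field_simp
    have : 0 ≤ (1 - th) ^ 2 / th := by positivity
    linarith
  have U : ∀ a, 0 ≤ a → (a ≤ (1 - x) / 2 →
      ∫ v in (-(h0 * a))..(0 : ℝ), gd (h0 * x) th v ≤ h0 * ((1 / th - 1) * (a ^ 2 / (1 - x)))) ∧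
      (th / 2 * (1 - x) ≤ a → a ≤ (1 - x) / 2 →
      ∫ v in (-(h0 * a))..(0 : ℝ), gd (h0 * x) th v ≤
        h0 * (a - a ^ 2 / (1 - x) - th / 4 * (1 - x))) ∧
      (a ≤ 1 - x → ∫ v in (-(h0 * a))..(0 : ℝ), gd (h0 * x) th v ≤
        h0 * ((1 - th) / 4 * (1 - x))) := by
    intro a ha
    obtain ⟨u1, u2, u3⟩ := upB (s := h0 * x) (th := th) s0 s1 t0 t1 (mul_nonneg hp.le ha)
    rw [r1] at u1 u2 u3
    have e1 : (h0 * a) ^ 2 / (h0 * (1 - x)) = h0 * (a ^ 2 / (1 - x)) := by
      field_simp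
    rw [e1] at u1 u2
    refine ⟨fun h => (u1 ?_).trans (le_of_eq ?_), fun h h' => (u2 ?_ ?_).trans (le_of_eq ?_),
      fun h => (u3 ?_).trans (le_of_eq ?_)⟩
    · have := mul_le_mul_of_nonneg_left h hp.le
      linarith
    · ring
    · have := mul_le_mul_of_nonneg_left h hp.le
      linarith
    · have := mul_le_mul_of_nonneg_left h' hp.le
      linarith
    · ring
    · exact mul_le_mul_of_nonneg_left h hp.le
    · ring
  have top : (1 - th) / 4 * (1 - x) ≤ g → ∀ a, 0 ≤ a → a ≤ al →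
      ∫ v in (-(h0 * a))..(0 : ℝ), gd (h0 * x) th v ≤ h0 * g := fun h a ha h' =>
    ((U a ha).2.2 (by linarith)).trans (mul_le_mul_of_nonneg_left h hp.le)
  have T0 : 0 ≤ (1 - th) / 4 * (1 - x) := by positivity
  rcases h with ⟨h, h'⟩ | ⟨h, h1⟩ | ⟨h, h1, h2⟩ | h
  · refine ⟨h, fun a ha ha2 => ?_⟩
    have : a = 0 := by linarith
    rw [this, mul_zero, neg_zero, intervalIntegral.integral_same]
    exact mul_nonneg hp.le h
  · refine ⟨le_trans (by positivity) h, fun a ha ha2 => ?_⟩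
    rcases le_total a ((1 - x) / 2) with h3 | h3
    · refine ((U a ha).1 h3).trans (mul_le_mul_of_nonneg_left (le_trans ?_ h) hp.le)
      refine mul_le_mul_of_nonneg_left ?_ c0
      exact div_le_div_of_nonneg_right (pow_le_pow_left₀ ha ha2 2) q0.le
    · refine ((U a ha).2.2 (by linarith)).trans (mul_le_mul_of_nonneg_left (le_trans ?_ h) hp.le)
      have e : (1 - x) / 4 = ((1 - x) / 2) ^ 2 / (1 - x) := by
        field_simp
        ring
      calc (1 - th) / 4 * (1 - x) = (1 - th) * ((1 - x) / 4) := by ring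
        _ ≤ (1 / th - 1) * ((1 - x) / 4) := mul_le_mul_of_nonneg_right c1 (by linarith)
        _ = (1 / th - 1) * (((1 - x) / 2) ^ 2 / (1 - x)) := by rw [e]
        _ ≤ (1 / th - 1) * (al ^ 2 / (1 - x)) := by
          refine mul_le_mul_of_nonneg_left ?_ c0
          exact div_le_div_of_nonneg_right (pow_le_pow_left₀ (by linarith) (by linarith) 2) q0.le
  · have inc : ∀ a c : ℝ, a ≤ c → c ≤ (1 - x) / 2 →
        a - a ^ 2 / (1 - x) ≤ c - c ^ 2 / (1 - x) := by
      intro a c hac hc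
      have e : c - c ^ 2 / (1 - x) - (a - a ^ 2 / (1 - x)) =
          (c - a) * (1 - x - c - a) / (1 - x) := by
        field_simp
        ring
      have : 0 ≤ (c - a) * (1 - x - c - a) / (1 - x) :=
        div_nonneg (mul_nonneg (by linarith) (by linarith)) q0.le
      linarith
    have k0 := inc _ _ h1 h2
    have e0 : th / 2 * (1 - x) - (th / 2 * (1 - x)) ^ 2 / (1 - x) - th / 4 * (1 - x) =
        (1 / th - 1) * ((th / 2 * (1 - x)) ^ 2 / (1 - x)) := by
      field_simp
      ring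
    have k1 : 0 ≤ (1 / th - 1) * ((th / 2 * (1 - x)) ^ 2 / (1 - x)) := by positivity
    refine ⟨by linarith, fun a ha ha2 => ?_⟩
    rcases le_total a (th / 2 * (1 - x)) with h3 | h3
    · refine ((U a ha).1 (by linarith)).trans (mul_le_mul_of_nonneg_left ?_ hp.le)
      have : (1 / th - 1) * (a ^ 2 / (1 - x)) ≤
          (1 / th - 1) * ((th / 2 * (1 - x)) ^ 2 / (1 - x)) := by
        refine mul_le_mul_of_nonneg_left ?_ c0
        exact div_le_div_of_nonneg_right (pow_le_pow_left₀ ha h3 2) q0.le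
      linarith
    · refine ((U a ha).2.1 h3 (by linarith)).trans (mul_le_mul_of_nonneg_left ?_ hp.le)
      have := inc a al ha2 h2
      linarith
  · exact ⟨by linarith, top h⟩

theorem Loss.short {L K1 K2 : ℝ} (C : DN th L l K1 K2 A x) (h : Loss th x al g) (ha : -A ≤ al)
    (ha' : al ≤ 1 - x) (hb : |b| ≤ 1 / 8) (hb' : |b| ≤ 1 - x) (hK : K1 ≤ K ∨ (b ≤ 0 ∧ K2 ≤ K))
    (z : ℝ) : ∫ v in (z - h0 * (x + al))..z, gd (h0 * x) th v ≤
      h0 * g + h0 * K * (∫ u in (0 : ℝ)..1, (1 - Dh (h0 * x) (z + u * (h0 * b)))) := by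
  have hp := h0_pos
  obtain ⟨t0, t1, x0, x1, a0, ax, L0, L1, l0, lx, k1, k2⟩ := C
  have xp : 0 < x := by linarith
  have q0 : 0 < 1 - x := by linarith
  have s0 : 0 < h0 * x := by positivity
  have s1 : h0 * x < h0 := by nlinarith
  have s2 : h0 / 2 ≤ h0 * x := by nlinarith
  have r1 : h0 - h0 * x = h0 * (1 - x) := by ring
  have et : h0 * (x + al) = h0 * x + h0 * al := by ring
  obtain ⟨g0, gb⟩ := h.bd t0 t1 xp x1 ha'
  have Lp : 0 ≤ L * x / 2 := by
    have u1 : 0 ≤ (1 - th) * (4 * th * x + (1 - x)) :=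
      mul_nonneg (by linarith) (by positivity)
    have u2 : 0 ≤ 4 * th * x * L := le_trans u1 L0
    have : 0 ≤ L := by
      by_contra hc
      push Not at hc
      have : 4 * th * x * L < 0 := mul_neg_of_pos_of_neg (by positivity) hc
      linarith
    positivity
  have hK2 : L * x / 2 ≤ K := by
    rcases hK with h1 | ⟨_, h1⟩
    · have : L * x / 2 * 1 ≤ L * x / 2 * (1 + l) := mul_le_mul_of_nonneg_left (by linarith) Lp
      linarith
    · linarith
  refine gd_up2 (s := h0 * x) (th := th) (t := h0 * (x + al)) (α := h0 * al) (β := h0 * b)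
    (b := z) (G := h0 * g) (C := h0 * K) (L := L) (l := l) s0 s1 s2 t0 t1 et
    (by rw [r1]; exact mul_le_mul_of_nonneg_left ha' hp.le) ?_ ?_ ?_ ?_ ?_ ?_
    (mul_nonneg hp.le g0) ?_ l0 ?_ ?_ ?_
  · rcases ax with ax | ax
    · left
      have := mul_le_mul_of_nonneg_left (by linarith : 1 - x - al ≤ x) hp.le
      linarith
    · right
      have := mul_le_mul_of_nonneg_left (by linarith : -(3 / 16) ≤ al) hp.le
      linarith
  · rw [abs_mul, abs_of_pos hp, r1]
    exact mul_le_mul_of_nonneg_left hb' hp.le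
  · rw [abs_mul, abs_of_pos hp]
    have := mul_le_mul_of_nonneg_left (by linarith : |b| ≤ x / 2) hp.le
    linarith
  · rw [abs_mul, abs_of_pos hp]
    have := mul_le_mul_of_nonneg_left hb hp.le
    linarith
  · have := mul_le_mul_of_nonneg_left L0 hp.le
    linarith
  · have := mul_le_mul_of_nonneg_left L1 hp.le
    linarith
  · intro a ha ha2
    obtain ⟨a', rfl⟩ : ∃ a', a = h0 * a' := ⟨a / h0, by field_simp⟩
    exact gb a' (nonneg_of_mul_nonneg_right ha hp) (le_of_mul_le_mul_left ha2 hp)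
  · have := mul_le_mul_of_nonneg_left lx hp.le
    linarith
  · have := mul_le_mul_of_nonneg_left hK2 hp.le
    linarith
  · intro hbp
    have hbp' : 0 < b := pos_of_mul_pos_right hbp hp.le
    rcases hK with h1 | ⟨h1, _⟩
    · have := mul_le_mul_of_nonneg_left (le_trans k1 h1) hp.le
      linarith
    · linarith

end

section

variable {a b c N0 : ℕ} {cn : Con} {k : DK} {th K K' l A x y y' κ lv E o e g cst : ℝ}
  {r lt C : ℝ × ℝ × ℝ}

/-- The near vertex, nonnegative difference, with an arbitrary bound of the short edge. -/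
theorem nearP (t0 : 0 < th) (t1 : th ≤ 1) (xp : 0 < x) (x1 : x < 1) (hκ : κ * h0 = ken x)
    (he : 0 < esn x) (hμ : 0 ≤ mun N0 x)
    (h1 : InQ a y) (h2 : InQ b y') (h3 : InQ c (y + y')) (hc : con a b c = some cn)
    (hb : |k.b y y'| ≤ 1 / 8) (hd : 0 ≤ k.d C) (S : ∀ z, h0 * g - h0 * K *
        (∫ u in (0 : ℝ)..1, (1 - Dh (h0 * x) (z + u * (h0 * k.be y y')))) ≤
      ∫ v in (z - h0 * (x + k.al x y y'))..z, gd (h0 * x) th v)
    (hcst : mun N0 x * ((1 / th - 1) * (k.gp C * |k.b y y'|) + k.d C * K) ≤ cst)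
    (near : ∃ γ, 0 ≤ lvN N0 lv x y y' e lt + mun N0 x * (k.d C * g) - cst +
      slt cn a b c 0 (κ * h0) x y y' (k.nu (cst / esn x)
        (ckr E (mun N0 x / esn x) r C (y - jq a) (y' - jq b) (y + y' - jq c))) γ) (z : ℝ) :
    0 ≤ lvN N0 lv x y y' e lt + E * kf κ (h0 * x) r (h0 * y) (h0 * y') z +
      mun N0 x * pf (tnt (h0 * x) th) (h0⁻¹ * C.1, h0⁻¹ * C.2.1, h0⁻¹ * C.2.2)
        (h0 * y) (h0 * y') z := by
  have hp := h0_pos
  have hne := hp.ne'
  have s0 : 0 < h0 * x := by positivity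
  have s1 : h0 * x < h0 := by nlinarith
  have y0 := h1.nonneg
  have y0' := h2.nonneg
  have y2 := h3.le_two
  have hκ0 : 0 ≤ κ := by
    have : 0 ≤ κ * h0 := by
      rw [hκ]
      unfold ken
      have : 0 < 1 - x := by linarith
      positivity
    exact nonneg_of_mul_nonneg_left this hp
  have hes := esn_ken hκ xp x1
  have Ht : 0 ≤ h0 * y := mul_nonneg hp.le y0
  have Ht' : 0 ≤ h0 * y' := mul_nonneg hp.le y0'
  have HT : h0 * y + h0 * y' ≤ 2 * h0 := by nlinarith
  obtain ⟨γ, hγ⟩ := near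
  rw [← slt_add] at hγ
  have N := ngv_of hc h1 h2 h3 hγ
  have hm : ∀ v, tnt (h0 * x) th (h0 * x - v) = -tnt (h0 * x) th v :=
    (tnt_denOk t0 t1 s0 s1).mir
  have e5 : esn x * (cst / esn x) = cst := by field_simp
  have aT : ∀ u : ℝ, |u| ≤ 1 / 8 → |h0 * u| < h0 / 2 := by
    intro u hu
    rw [abs_mul, abs_of_pos hp]
    nlinarith
  cases k with
  | A1 =>
    simp only [DK.b, DK.be, DK.al, DK.d, DK.gp, DK.nu] at *
    refine near_dirA2 (η := -(mun N0 x * ((C.1 - C.2.2) * g))) (ν := cst / esn x)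
      (β := h0 * (y' - 1)) (g := h0 * g) (C := h0 * K) s0 s1 t0 t1 hκ0 hes he hμ
      (by ring) (aT _ hb) Ht HT ?_ ?_ ?_ ?_ ?_ z
    · exact mul_le_mul_of_nonneg_left (by linarith) (inv_nonneg.2 hp.le)
    · intro z
      have := S z
      rw [show h0 * (x + (y - x)) = h0 * y by ring] at this
      exact this
    · refine le_of_eq ?_
      simp only
      field_simp
    · rw [e5]
      refine le_trans (le_of_eq ?_) hcst
      simp only
      rw [← mul_sub, ← mul_sub, abs_mul, abs_mul, abs_of_pos hp, abs_of_pos (inv_pos.2 hp)]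
      field_simp
    · rw [cpl_n h1 h2 h3, e5]
      refine cast (congrArg (fun u => NGV κ (h0 * x) u (h0 * y) (h0 * y') _) ?_) N
      ring
  | A2 =>
    simp only [DK.b, DK.be, DK.al, DK.d, DK.gp, DK.nu] at *
    have key := near_dirA2 (κ := κ) (s := h0 * x) (th := th) (e := esn x) (E := E)
      (μ := mun N0 x) (X := lvN N0 lv x y y' e lt) (t := h0 * y') (t' := h0 * y)
      (r := (-r.2.1, -r.1, -r.2.2))
      (c := (-(h0⁻¹ * C.2.1), -(h0⁻¹ * C.1), -(h0⁻¹ * C.2.2)))
      (η := -(mun N0 x * ((C.2.2 - C.2.1) * g))) (ν := cst / esn x)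
      (β := h0 * (y - 1)) (g := h0 * g) (C := h0 * K) s0 s1 t0 t1 hκ0 hes he hμ
      (by ring) (aT _ hb) Ht' (by linarith) ?_ ?_ ?_ ?_ ?_
      (h0 * x - (z + (h0 * y + h0 * y')))
    · have m1 := kf_mirror (κ := κ) s0.le s1 r.1 r.2.1 r.2.2 (h0 * y) (h0 * y') z
      have m2 := pf_mirror hm (h0⁻¹ * C.1) (h0⁻¹ * C.2.1) (h0⁻¹ * C.2.2) (h0 * y) (h0 * y') z
      rw [m1, m2] at key
      exact key
    · simp only
      have := mul_le_mul_of_nonneg_left (by linarith : C.2.1 ≤ C.2.2) (inv_nonneg.2 hp.le)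
      linarith
    · intro z
      have := S z
      rw [show h0 * (x + (y' - x)) = h0 * y' by ring] at this
      exact this
    · refine le_of_eq ?_
      simp only
      field_simp
      ring
    · rw [e5]
      refine le_trans (le_of_eq ?_) hcst
      simp only
      rw [show -(h0⁻¹ * C.1) - -(h0⁻¹ * C.2.2) = -(h0⁻¹ * (C.1 - C.2.2)) by ring, abs_neg,
        abs_mul, abs_mul, abs_of_pos hp, abs_of_pos (inv_pos.2 hp)]
      field_simp
      ring
    · refine NGV.mirror ?_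
      have ec := cpl_n h1 h2 h3 E (mun N0 x / esn x) r C
      unfold cpl at ec ⊢
      simp only at ec ⊢
      unfold ckr at ec N
      rw [Prod.ext_iff, Prod.ext_iff] at ec
      obtain ⟨i1, i2, i3⟩ := ec
      simp only at i1 i2 i3 N
      rw [← i1, ← i2, ← i3] at N
      rw [e5]
      refine cast (congrArg₂ (fun u v => NGV κ (h0 * x) u (h0 * y) (h0 * y') v) ?_ ?_) N
      · ring
      · refine Prod.ext ?_ (Prod.ext ?_ ?_)
        · simp only
          ring
        · simp only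
          ring
        · simp only
          rw [add_comm (h0 * y') (h0 * y)]
          ring
  | B1 =>
    simp only [DK.b, DK.be, DK.al, DK.d, DK.gp, DK.nu] at *
    refine near_dirB2 (η := -(mun N0 x * ((C.2.1 - C.1) * g))) (ν := cst / esn x)
      (β := h0 * (y + y' - 1)) (g := h0 * g) (C := h0 * K) s0 s1 t0 t1 hκ0 hes he hμ
      (by ring) (aT _ hb) Ht Ht' ?_ ?_ ?_ ?_ ?_ z
    · exact mul_le_mul_of_nonneg_left (by linarith) (inv_nonneg.2 hp.le)
    · intro z
      have := S z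
      rw [show h0 * (x + (y - x)) = h0 * y by ring,
        show h0 * -(y + y' - 1) = -(h0 * (y + y' - 1)) by ring] at this
      exact this
    · refine le_of_eq ?_
      simp only
      field_simp
    · rw [e5]
      refine le_trans (le_of_eq ?_) hcst
      simp only
      rw [← mul_sub, ← mul_sub, abs_mul, abs_mul, abs_of_pos hp, abs_of_pos (inv_pos.2 hp)]
      field_simp
    · rw [cpl_n h1 h2 h3, e5]
      refine cast (congrArg (fun u => NGV κ (h0 * x) u (h0 * y) (h0 * y') _) ?_) N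
      ring
  | B2 =>
    simp only [DK.b, DK.be, DK.al, DK.d, DK.gp, DK.nu] at *
    have key := near_dirB2 (κ := κ) (s := h0 * x) (th := th) (e := esn x) (E := E)
      (μ := mun N0 x) (X := lvN N0 lv x y y' e lt) (t := h0 * y') (t' := h0 * y)
      (r := (-r.2.1, -r.1, -r.2.2))
      (c := (-(h0⁻¹ * C.2.1), -(h0⁻¹ * C.1), -(h0⁻¹ * C.2.2)))
      (η := -(mun N0 x * ((C.2.1 - C.1) * g))) (ν := cst / esn x)
      (β := h0 * (y + y' - 1)) (g := h0 * g) (C := h0 * K) s0 s1 t0 t1 hκ0 hes he hμ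
      (by ring) (aT _ hb) Ht' Ht ?_ ?_ ?_ ?_ ?_
      (h0 * x - (z + (h0 * y + h0 * y')))
    · have m1 := kf_mirror (κ := κ) s0.le s1 r.1 r.2.1 r.2.2 (h0 * y) (h0 * y') z
      have m2 := pf_mirror hm (h0⁻¹ * C.1) (h0⁻¹ * C.2.1) (h0⁻¹ * C.2.2) (h0 * y) (h0 * y') z
      rw [m1, m2] at key
      exact key
    · simp only
      have := mul_le_mul_of_nonneg_left (by linarith : C.1 ≤ C.2.1) (inv_nonneg.2 hp.le)
      linarith
    · intro z
      have := S z
      rw [show h0 * (x + (y' - x)) = h0 * y' by ring,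
        show h0 * -(y + y' - 1) = -(h0 * (y + y' - 1)) by ring] at this
      exact this
    · refine le_of_eq ?_
      simp only
      field_simp
      ring
    · rw [e5]
      refine le_trans (le_of_eq ?_) hcst
      simp only
      rw [show -(h0⁻¹ * C.1) - -(h0⁻¹ * C.2.2) = -(h0⁻¹ * (C.1 - C.2.2)) by ring, abs_neg,
        abs_mul, abs_mul, abs_of_pos hp, abs_of_pos (inv_pos.2 hp)]
      field_simp
      ring
    · refine NGV.mirror ?_
      have ec := cpl_n h1 h2 h3 E (mun N0 x / esn x) r C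
      unfold cpl at ec ⊢
      simp only at ec ⊢
      unfold ckr at ec N
      rw [Prod.ext_iff, Prod.ext_iff] at ec
      obtain ⟨i1, i2, i3⟩ := ec
      simp only at i1 i2 i3 N
      rw [← i1, ← i2, ← i3] at N
      rw [e5]
      refine cast (congrArg₂ (fun u v => NGV κ (h0 * x) u (h0 * y) (h0 * y') v) ?_ ?_) N
      · ring
      · refine Prod.ext ?_ (Prod.ext ?_ ?_)
        · simp only
          ring
        · simp only
          ring
        · simp only
          rw [add_comm (h0 * y') (h0 * y)]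
          ring

/-- The near vertex, nonpositive difference, with an arbitrary bound of the short edge. -/
theorem nearM (t0 : 0 < th) (t1 : th ≤ 1) (xp : 0 < x) (x1 : x < 1) (hκ : κ * h0 = ken x)
    (he : 0 < esn x) (hμ : 0 ≤ mun N0 x)
    (h1 : InQ a y) (h2 : InQ b y') (h3 : InQ c (y + y')) (hc : con a b c = some cn)
    (hb : |k.b y y'| ≤ 1 / 8) (hd : k.d C ≤ 0) (S : ∀ z, ∫ v in (z - h0 * (x + k.al x y y'))..z, gd (h0 * x) th v ≤
      h0 * g + h0 * K * (∫ u in (0 : ℝ)..1, (1 - Dh (h0 * x) (z + u * (h0 * k.be y y')))))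
    (hcst : mun N0 x * ((1 / th - 1) * (k.gp C * |k.b y y'|) + -k.d C * K) ≤ cst)
    (near : ∃ γ, 0 ≤ lvN N0 lv x y y' e lt + mun N0 x * (k.d C * g) - cst +
      slt cn a b c 0 (κ * h0) x y y' (k.nu (cst / esn x)
        (ckr E (mun N0 x / esn x) r C (y - jq a) (y' - jq b) (y + y' - jq c))) γ) (z : ℝ) :
    0 ≤ lvN N0 lv x y y' e lt + E * kf κ (h0 * x) r (h0 * y) (h0 * y') z +
      mun N0 x * pf (tnt (h0 * x) th) (h0⁻¹ * C.1, h0⁻¹ * C.2.1, h0⁻¹ * C.2.2)
        (h0 * y) (h0 * y') z := by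
  have hp := h0_pos
  have hne := hp.ne'
  have s0 : 0 < h0 * x := by positivity
  have s1 : h0 * x < h0 := by nlinarith
  have y0 := h1.nonneg
  have y0' := h2.nonneg
  have y2 := h3.le_two
  have hκ0 : 0 ≤ κ := by
    have : 0 ≤ κ * h0 := by
      rw [hκ]
      unfold ken
      have : 0 < 1 - x := by linarith
      positivity
    exact nonneg_of_mul_nonneg_left this hp
  have hes := esn_ken hκ xp x1
  have Ht : 0 ≤ h0 * y := mul_nonneg hp.le y0
  have Ht' : 0 ≤ h0 * y' := mul_nonneg hp.le y0'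
  have HT : h0 * y + h0 * y' ≤ 2 * h0 := by nlinarith
  obtain ⟨γ, hγ⟩ := near
  rw [← slt_add] at hγ
  have N := ngv_of hc h1 h2 h3 hγ
  have hm : ∀ v, tnt (h0 * x) th (h0 * x - v) = -tnt (h0 * x) th v :=
    (tnt_denOk t0 t1 s0 s1).mir
  have e5 : esn x * (cst / esn x) = cst := by field_simp
  have aT : ∀ u : ℝ, |u| ≤ 1 / 8 → |h0 * u| < h0 / 2 := by
    intro u hu
    rw [abs_mul, abs_of_pos hp]
    nlinarith
  cases k with
  | A1 =>
    simp only [DK.b, DK.be, DK.al, DK.d, DK.gp, DK.nu] at *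
    refine near_dirA3 (η := -(mun N0 x * ((C.1 - C.2.2) * g))) (ν := cst / esn x)
      (β := h0 * (y' - 1)) (g := h0 * g) (C := h0 * K) s0 s1 t0 t1 hκ0 hes he hμ
      (by ring) (aT _ hb) Ht HT ?_ ?_ ?_ ?_ ?_ z
    · exact mul_le_mul_of_nonneg_left (by linarith) (inv_nonneg.2 hp.le)
    · intro z
      have := S z
      rw [show h0 * (x + (y - x)) = h0 * y by ring] at this
      exact this
    · refine le_of_eq ?_
      simp only
      field_simp
      ring
    · rw [e5]
      refine le_trans (le_of_eq ?_) hcst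
      simp only
      rw [← mul_sub, ← mul_sub, abs_mul, abs_mul, abs_of_pos hp, abs_of_pos (inv_pos.2 hp)]
      field_simp
      ring
    · rw [cpl_n h1 h2 h3, e5]
      refine cast (congrArg (fun u => NGV κ (h0 * x) u (h0 * y) (h0 * y') _) ?_) N
      ring
  | A2 =>
    simp only [DK.b, DK.be, DK.al, DK.d, DK.gp, DK.nu] at *
    have key := near_dirA3 (κ := κ) (s := h0 * x) (th := th) (e := esn x) (E := E)
      (μ := mun N0 x) (X := lvN N0 lv x y y' e lt) (t := h0 * y') (t' := h0 * y)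
      (r := (-r.2.1, -r.1, -r.2.2))
      (c := (-(h0⁻¹ * C.2.1), -(h0⁻¹ * C.1), -(h0⁻¹ * C.2.2)))
      (η := -(mun N0 x * ((C.2.2 - C.2.1) * g))) (ν := cst / esn x)
      (β := h0 * (y - 1)) (g := h0 * g) (C := h0 * K) s0 s1 t0 t1 hκ0 hes he hμ
      (by ring) (aT _ hb) Ht' (by linarith) ?_ ?_ ?_ ?_ ?_
      (h0 * x - (z + (h0 * y + h0 * y')))
    · have m1 := kf_mirror (κ := κ) s0.le s1 r.1 r.2.1 r.2.2 (h0 * y) (h0 * y') z
      have m2 := pf_mirror hm (h0⁻¹ * C.1) (h0⁻¹ * C.2.1) (h0⁻¹ * C.2.2) (h0 * y) (h0 * y') z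
      rw [m1, m2] at key
      exact key
    · simp only
      have := mul_le_mul_of_nonneg_left (by linarith : C.2.2 ≤ C.2.1) (inv_nonneg.2 hp.le)
      linarith
    · intro z
      have := S z
      rw [show h0 * (x + (y' - x)) = h0 * y' by ring] at this
      exact this
    · refine le_of_eq ?_
      simp only
      field_simp
      ring
    · rw [e5]
      refine le_trans (le_of_eq ?_) hcst
      simp only
      rw [show -(h0⁻¹ * C.1) - -(h0⁻¹ * C.2.2) = -(h0⁻¹ * (C.1 - C.2.2)) by ring, abs_neg,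
        abs_mul, abs_mul, abs_of_pos hp, abs_of_pos (inv_pos.2 hp)]
      field_simp
      ring
    · refine NGV.mirror ?_
      have ec := cpl_n h1 h2 h3 E (mun N0 x / esn x) r C
      unfold cpl at ec ⊢
      simp only at ec ⊢
      unfold ckr at ec N
      rw [Prod.ext_iff, Prod.ext_iff] at ec
      obtain ⟨i1, i2, i3⟩ := ec
      simp only at i1 i2 i3 N
      rw [← i1, ← i2, ← i3] at N
      rw [e5]
      refine cast (congrArg₂ (fun u v => NGV κ (h0 * x) u (h0 * y) (h0 * y') v) ?_ ?_) N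
      · ring
      · refine Prod.ext ?_ (Prod.ext ?_ ?_)
        · simp only
          ring
        · simp only
          ring
        · simp only
          rw [add_comm (h0 * y') (h0 * y)]
          ring
  | B1 =>
    simp only [DK.b, DK.be, DK.al, DK.d, DK.gp, DK.nu] at *
    refine near_dirB3 (η := -(mun N0 x * ((C.2.1 - C.1) * g))) (ν := cst / esn x)
      (β := h0 * (y + y' - 1)) (g := h0 * g) (C := h0 * K) s0 s1 t0 t1 hκ0 hes he hμ
      (by ring) (aT _ hb) Ht Ht' ?_ ?_ ?_ ?_ ?_ z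
    · exact mul_le_mul_of_nonneg_left (by linarith) (inv_nonneg.2 hp.le)
    · intro z
      have := S z
      rw [show h0 * (x + (y - x)) = h0 * y by ring,
        show h0 * -(y + y' - 1) = -(h0 * (y + y' - 1)) by ring] at this
      exact this
    · refine le_of_eq ?_
      simp only
      field_simp
      ring
    · rw [e5]
      refine le_trans (le_of_eq ?_) hcst
      simp only
      rw [← mul_sub, ← mul_sub, abs_mul, abs_mul, abs_of_pos hp, abs_of_pos (inv_pos.2 hp)]
      field_simp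
      ring
    · rw [cpl_n h1 h2 h3, e5]
      refine cast (congrArg (fun u => NGV κ (h0 * x) u (h0 * y) (h0 * y') _) ?_) N
      ring
  | B2 =>
    simp only [DK.b, DK.be, DK.al, DK.d, DK.gp, DK.nu] at *
    have key := near_dirB3 (κ := κ) (s := h0 * x) (th := th) (e := esn x) (E := E)
      (μ := mun N0 x) (X := lvN N0 lv x y y' e lt) (t := h0 * y') (t' := h0 * y)
      (r := (-r.2.1, -r.1, -r.2.2))
      (c := (-(h0⁻¹ * C.2.1), -(h0⁻¹ * C.1), -(h0⁻¹ * C.2.2)))
      (η := -(mun N0 x * ((C.2.1 - C.1) * g))) (ν := cst / esn x)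
      (β := h0 * (y + y' - 1)) (g := h0 * g) (C := h0 * K) s0 s1 t0 t1 hκ0 hes he hμ
      (by ring) (aT _ hb) Ht' Ht ?_ ?_ ?_ ?_ ?_
      (h0 * x - (z + (h0 * y + h0 * y')))
    · have m1 := kf_mirror (κ := κ) s0.le s1 r.1 r.2.1 r.2.2 (h0 * y) (h0 * y') z
      have m2 := pf_mirror hm (h0⁻¹ * C.1) (h0⁻¹ * C.2.1) (h0⁻¹ * C.2.2) (h0 * y) (h0 * y') z
      rw [m1, m2] at key
      exact key
    · simp only
      have := mul_le_mul_of_nonneg_left (by linarith : C.2.1 ≤ C.1) (inv_nonneg.2 hp.le)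
      linarith
    · intro z
      have := S z
      rw [show h0 * (x + (y' - x)) = h0 * y' by ring,
        show h0 * -(y + y' - 1) = -(h0 * (y + y' - 1)) by ring] at this
      exact this
    · refine le_of_eq ?_
      simp only
      field_simp
      ring
    · rw [e5]
      refine le_trans (le_of_eq ?_) hcst
      simp only
      rw [show -(h0⁻¹ * C.1) - -(h0⁻¹ * C.2.2) = -(h0⁻¹ * (C.1 - C.2.2)) by ring, abs_neg,
        abs_mul, abs_mul, abs_of_pos hp, abs_of_pos (inv_pos.2 hp)]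
      field_simp
      ring
    · refine NGV.mirror ?_
      have ec := cpl_n h1 h2 h3 E (mun N0 x / esn x) r C
      unfold cpl at ec ⊢
      simp only at ec ⊢
      unfold ckr at ec N
      rw [Prod.ext_iff, Prod.ext_iff] at ec
      obtain ⟨i1, i2, i3⟩ := ec
      simp only at i1 i2 i3 N
      rw [← i1, ← i2, ← i3] at N
      rw [e5]
      refine cast (congrArg₂ (fun u v => NGV κ (h0 * x) u (h0 * y) (h0 * y') v) ?_ ?_) N
      · ring
      · refine Prod.ext ?_ (Prod.ext ?_ ?_)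
        · simp only
          ring
        · simp only
          ring
        · simp only
          rw [add_comm (h0 * y') (h0 * y)]
          ring

/-- The condition at the near vertex for a nonnegative difference. -/
def RowP (cn : Con) (a b c N0 : ℕ) (k : DK) (th K κ lv E x y y' e : ℝ) (r lt C : ℝ × ℝ × ℝ) :
    Prop :=
  ∃ g cst γ, Gain2 th K x (k.al x y y') g ∧
    mun N0 x * ((1 / th - 1) * (k.gp C * |k.b y y'|) + k.d C * (K * (1 - x))) ≤ cst ∧
    0 ≤ lvN N0 lv x y y' e lt + mun N0 x * (k.d C * g) - cst +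
      slt cn a b c 0 (κ * h0) x y y' (k.nu (cst / esn x)
        (ckr E (mun N0 x / esn x) r C (y - jq a) (y' - jq b) (y + y' - jq c))) γ

/-- The condition at the near vertex for a nonpositive difference. -/
def RowM (cn : Con) (a b c N0 : ℕ) (k : DK) (th K1 K2 κ lv E x y y' e : ℝ)
    (r lt C : ℝ × ℝ × ℝ) : Prop :=
  ∃ g K cst γ, Loss th x (k.al x y y') g ∧ (K1 ≤ K ∨ (k.be y y' ≤ 0 ∧ K2 ≤ K)) ∧
    mun N0 x * ((1 / th - 1) * (k.gp C * |k.b y y'|) + -k.d C * K) ≤ cst ∧
    0 ≤ lvN N0 lv x y y' e lt + mun N0 x * (k.d C * g) - cst +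
      slt cn a b c 0 (κ * h0) x y y' (k.nu (cst / esn x)
        (ckr E (mun N0 x / esn x) r C (y - jq a) (y' - jq b) (y + y' - jq c))) γ

theorem DK.be_abs (k : DK) (y z : ℝ) : |k.be y z| = |k.b y z| := by
  cases k <;> simp only [DK.be, DK.b, abs_neg]

/-- **The row next to the tight triangles, both signs.** -/
theorem bothD2 {L l' K1 K2 : ℝ} (hC : DC2 th K l A x) (hκ : κ * h0 = ken x) (he : 0 < esn x)
    (hμ : 0 ≤ mun N0 x)
    (h1 : InQ a y) (h2 : InQ b y') (h3 : InQ c (y + y')) (hc : con a b c = some cn)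
    (hb : |k.b y y'| ≤ 1 / 8) (ha : -A ≤ k.al x y y') (ha' : k.al x y y' ≤ 1 - x)
    (far : ∃ γ, 0 ≤ lvF e lt + slt cn a b c 0 (κ * h0) x y y' r γ)
    (pos : 0 ≤ k.d C → RowP cn a b c N0 k th K κ lv E x y y' e r lt C)
    (neg : k.d C ≤ 0 → DN th L l' K1 K2 A x ∧ |k.b y y'| ≤ 1 - x ∧
      RowM cn a b c N0 k th K1 K2 κ lv E x y y' e r lt C) :
    Both N0 lv κ E o (tnt (h0 * x) th) x y y' e r lt
      (h0⁻¹ * C.1, h0⁻¹ * C.2.1, h0⁻¹ * C.2.2) := by
  have hp := h0_pos
  obtain ⟨t0, t1, x0, x1, a0, ax, l0, lx, k1, k2, k3, k4⟩ := id hC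
  have xp : 0 < x := by linarith
  have xl : x < 1 := by linarith
  have s0 : 0 < h0 * x := by positivity
  have s1 : h0 * x < h0 := by nlinarith
  have y0 := h1.nonneg
  have y0' := h2.nonneg
  have y2 := h3.le_two
  have hκ0 : 0 ≤ κ := by
    have : 0 ≤ κ * h0 := by
      rw [hκ]
      unfold ken
      have : 0 < 1 - x := by linarith
      positivity
    exact nonneg_of_mul_nonneg_left this hp
  have Ht : 0 ≤ h0 * y := mul_nonneg hp.le y0
  have Ht' : 0 ≤ h0 * y' := mul_nonneg hp.le y0'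
  have HT : h0 * y + h0 * y' ≤ 2 * h0 := by nlinarith
  right
  constructor
  · intro z
    obtain ⟨γ, hγ⟩ := far
    rw [← slt_add] at hγ
    exact (ngv_of hc h1 h2 h3 hγ).dir hκ0 s0.le s1 Ht Ht' HT z
  · rcases le_total 0 (k.d C) with hd | hd
    · obtain ⟨g, cst, γ, hg, hcst, hn⟩ := pos hd
      exact nearP (K := K * (1 - x)) t0 t1 xp xl hκ he hμ h1 h2 h3 hc hb hd
        (fun z => hg.short hC ha ha' (by rw [DK.be_abs]; exact hb) z) hcst ⟨γ, hn⟩
    · obtain ⟨hN, hb', g, K', cst, γ, hg, hK, hcst, hn⟩ := neg hd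
      exact nearM (K := K') t0 t1 xp xl hκ he hμ h1 h2 h3 hc hb hd
        (fun z => hg.short hN ha ha' (by rw [DK.be_abs]; exact hb) (by rw [DK.be_abs]; exact hb')
          hK z) hcst ⟨γ, hn⟩

end

end Pool.Agent.Strip051.PB
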