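import Pool.Agent.Strip051.PB.MolY
import Pool.Agent.Strip051.PB.MolRx

/-! # The tight charts: both vertices, general range of the short edge (generated) -/

set_option linter.unusedVariables false

namespace Pool.Agent.Strip051.PB.Mol.Ra

open Pool.Agent.StripNear Pool.Agent.StripSquare Pool.Agent.Strip051.Sweep
open Pool.Agent.Strip051.LC Pool.Agent.Strip051.LC.MolN Pool.Agent.Strip051.PB
open Pool.Agent.Strip051.LC.Line (tau)

theorem bothAp {n : ℕ} {P : Pos n} {RK RL RC : Fin (n + 1) → ℕ → ℝ → ℝ → ℝ} {pc : ℕ → Piece}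
    {pd : ℕ → Fn3} {T : MolT} {a c : ℕ} {k : Fin (n + 1)} {u b x κ τ1 τ3 th K l A : ℝ} {sk cx sk2 cx2 : List Fn3}
    (D : DomA u b x) (hb : 0 ≤ b) (hκ : κ * h0 = ken x)
    (hd : T.kc.v (psn (x + u + b)) x = T.kc.v (psn (x + u)) x + b * (fd1A T.dq true).v u b x)
    (hit : ((T.a true).at_ u b x).it * τ3 = 1)
    (t1 : tau (h0 * (x + u)) = h0 * τ1) (t3 : tau (h0 * (x + u) + h0 * (1 + b)) = h0 * τ3)
    (hx : T.st.xs.v u b x = 1 / 2 + b * T.st.ws.v u b x)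
    (hX : crv P k 2 (1 + b) = T.st.xs.v u b x)
    (G : DC2 th K l A x) (hu : u ≤ 1 - x) (hu0 : -A ≤ u)
    (hk1 : (T.k1p : ℝ) / T.k1q = 1 / th - 1) (hk2 : (T.k2p : ℝ) / T.k2q = K)
    (F0 : (k0Ap (T.a true) sk cx).P u b x) (hs : ∀ G ∈ sk, G.v u b x ≤ 0)
    (F2 : (k2Ap (T.a true) sk2 cx2).P u b x) (hs2 : ∀ G ∈ sk2, G.v u b x ≤ 0)
    (K1 : RK 0 a (x + u) x = (c1n (x + u) * cG (x + u) + T.kc.v (psn (x + u)) x) * τ1)
    (K2 : RK k 2 (1 + b) x = 1 / 2 + b * T.st.rs.v u b x)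
    (K3 : (∀ G ∈ cx, 0 < G.v u b x) → (pc c).K.v (c1n (x + u) - T.st.xs.v u b x) (x + u + (1 + b)) x = ((c1n (x + u + b) - 1 / 2) * cG (x + u + b) + T.kc.v (psn (x + u + b)) x) * τ3 + T.sK.v (c1n (x + u) - T.st.xs.v u b x) (1 + (x + u + b)) x * (c1n (x + u) - T.st.xs.v u b x - (c1n (x + u + b) - 1 / 2)))
    (L1 : RL 0 a (x + u) x = cQ x (x + u) (T.kc.v (psn (x + u)) x))
    (L2 : RL k 2 (1 + b) x = b * T.st.xk.v u b x)
    (L3 : (∀ G ∈ cx, 0 < G.v u b x) → (pc c).L.v (c1n (x + u) - T.st.xs.v u b x) (x + u + (1 + b)) x = cQ x (x + u + b) (T.kc.v (psn (x + u + b)) x) + T.sX.v (c1n (x + u) - T.st.xs.v u b x) (1 + (x + u + b)) x * (c1n (x + u) - T.st.xs.v u b x - (c1n (x + u + b) - 1 / 2)))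
    (C1 : RC 0 a (x + u) x = esn x * (cP (x + u) - (cR (x + u) + 2 * c1n (x + u)) * T.kc.v (psn (x + u)) x))
    (C2 : RC k 2 (1 + b) x = esn x * T.st.k2.v u b x)
    (C3 : (∀ G ∈ cx2, 0 < G.v u b x) → (pd c).v (c1n (x + u) - T.st.xs.v u b x) (x + u + (1 + b)) x = esn x * (cP (x + u + b) - 1 / 2 * cD (x + u + b) - (cR (x + u + b) + 2 * c1n (x + u + b) - 1) * T.kc.v (psn (x + u + b)) x + ((T.a true).at_ u b x).it * T.sD.v (c1n (x + u) - T.st.xs.v u b x) (1 + (x + u + b)) x * (c1n (x + u) - T.st.xs.v u b x - (c1n (x + u + b) - 1 / 2)))) :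
    DirE th κ x (x + u) (1 + b) (exA P a 2 0 k 1 (-1) (x + u) (1 + b)) (vlA P RK (fun q => (pc q).K.v) a 2 c 0 k 1 (-1) x (x + u) (1 + b))
      (vlA P RL (fun q => (pc q).L.v) a 2 c 0 k 1 (-1) x (x + u) (1 + b)) (dimC (vlA P RC (fun q => (pd q).v) a 2 c 0 k 1 (-1) x (x + u) (1 + b))) := by
  have far := farAp (P := P) D hb hκ hd hit t1 t3 hx hX F0 hs K1 K2 K3 L1 L2 L3
  obtain ⟨hc, -⟩ := r0Ap F0 hs
  obtain ⟨hc2, hP, hQ, hA1, hA2, hDD, hr, tN, tM⟩ := r2Ap F2 hs2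
  have hp := h0_pos
  have y0 := D.y0
  have y1 := D.y1
  have p0 := D.p0
  have p1 := D.p1
  have b0 := D.b0
  have b1 := D.b1
  refine ⟨fun z => ?_, fun z => ?_⟩
  · refine NGV.dir far (kap_nn hκ D.x0 D.x1) (mul_nonneg hp.le D.x0.le) (by nlinarith [D.x1]) ?_ ?_ ?_ z
    · exact mul_nonneg hp.le y0.le
    · exact mul_nonneg hp.le (by linarith)
    · rw [← mul_add]
      nlinarith

  · have hN := ndA G
    rw [← k52_eq hk2 D.x0 u b] at hN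
    unfold exA vlA dimC
    simp only [crv_zero, one_mul, neg_one_mul, ← sub_eq_add_neg]
    rw [hX]
    refine fin2Ap D hb hκ rfl rfl hit (absTA hx) ?_ ?_ ?_ t1 t3 hk1 hN hu hu0
      hA1 hA2 hDD hr hP hQ tN tM z
    · exact kerTA hd K1 (congrArg (fun t => -t) K2) (K3 hc)
    · refine ⟨?_, ?_, ?_⟩
      · show h0⁻¹ * RC 0 a (x + u) x = h0⁻¹ * (esn x * (cP (x + u) - (cR (x + u) + 2 * c1n (x + u)) * T.kc.v (psn (x + u)) x + b * (0 : ℝ)))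
        rw [C1]
        ring
      · show h0⁻¹ * -RC k 2 (1 + b) x = -(h0⁻¹ * (esn x * T.st.k2.v u b x))
        rw [C2]
        ring
      · show h0⁻¹ * _ = h0⁻¹ * _
        rw [C3 hc2, hd]
        rfl
    · exact levTA hd L1 (congrArg (fun t => -t) L2) (L3 hc)

theorem bothAm {n : ℕ} {P : Pos n} {RK RL RC : Fin (n + 1) → ℕ → ℝ → ℝ → ℝ} {pc : ℕ → Piece}
    {pd : ℕ → Fn3} {T : MolT} {a c : ℕ} {k : Fin (n + 1)} {u b x κ τ1 τ3 th K l A : ℝ} {sk cx sk2 cx2 : List Fn3}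
    (D : DomA u b x) (hb : b < 0) (hκ : κ * h0 = ken x)
    (hd : T.kc.v (psn (x + u + b)) x = T.kc.v (psn (x + u)) x + b * (fd1A T.dq false).v u b x)
    (hit : ((T.a false).at_ u b x).it * τ3 = 1)
    (t1 : tau (h0 * (x + u)) = h0 * τ1) (t3 : tau (h0 * (x + u) + h0 * (1 + b)) = h0 * τ3)
    (hx : T.st.xs.v u b x = 1 / 2 + b * T.st.ws.v u b x)
    (hX : crv P k 1 (1 + b) = T.st.xs.v u b x)
    (G : DC2 th K l A x) (hu : u ≤ 1 - x) (hu0 : -A ≤ u)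
    (hk1 : (T.k1p : ℝ) / T.k1q = 1 / th - 1) (hk2 : (T.k2p : ℝ) / T.k2q = K)
    (F0 : (k0Am (T.a false) sk cx).P u b x) (hs : ∀ G ∈ sk, G.v u b x ≤ 0)
    (F2 : (k2Am (T.a false) sk2 cx2).P u b x) (hs2 : ∀ G ∈ sk2, G.v u b x ≤ 0)
    (K1 : RK 0 a (x + u) x = (c1n (x + u) * cG (x + u) + T.kc.v (psn (x + u)) x) * τ1)
    (K2 : RK k 1 (1 + b) x = 1 / 2 + b * T.st.rs.v u b x)
    (K3 : (∀ G ∈ cx, 0 < G.v u b x) → (pc c).K.v (c1n (x + u) - T.st.xs.v u b x) (x + u + (1 + b)) x = ((c1n (x + u + b) - 1 / 2) * cG (x + u + b) + T.kc.v (psn (x + u + b)) x) * τ3 + T.sK.v (c1n (x + u) - T.st.xs.v u b x) (1 + (x + u + b)) x * (c1n (x + u) - T.st.xs.v u b x - (c1n (x + u + b) - 1 / 2)))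
    (L1 : RL 0 a (x + u) x = cQ x (x + u) (T.kc.v (psn (x + u)) x))
    (L2 : RL k 1 (1 + b) x = b * T.st.xk.v u b x)
    (L3 : (∀ G ∈ cx, 0 < G.v u b x) → (pc c).L.v (c1n (x + u) - T.st.xs.v u b x) (x + u + (1 + b)) x = cQ x (x + u + b) (T.kc.v (psn (x + u + b)) x) + T.sX.v (c1n (x + u) - T.st.xs.v u b x) (1 + (x + u + b)) x * (c1n (x + u) - T.st.xs.v u b x - (c1n (x + u + b) - 1 / 2)))
    (C1 : RC 0 a (x + u) x = esn x * (cP (x + u) - (cR (x + u) + 2 * c1n (x + u)) * T.kc.v (psn (x + u)) x))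
    (C2 : RC k 1 (1 + b) x = esn x * T.st.k2.v u b x)
    (C3 : (∀ G ∈ cx2, 0 < G.v u b x) → (pd c).v (c1n (x + u) - T.st.xs.v u b x) (x + u + (1 + b)) x = esn x * (cP (x + u + b) - 1 / 2 * cD (x + u + b) - (cR (x + u + b) + 2 * c1n (x + u + b) - 1) * T.kc.v (psn (x + u + b)) x + ((T.a false).at_ u b x).it * T.sD.v (c1n (x + u) - T.st.xs.v u b x) (1 + (x + u + b)) x * (c1n (x + u) - T.st.xs.v u b x - (c1n (x + u + b) - 1 / 2)))) :
    DirE th κ x (x + u) (1 + b) (exA P a 1 0 k 1 (-1) (x + u) (1 + b)) (vlA P RK (fun q => (pc q).K.v) a 1 c 0 k 1 (-1) x (x + u) (1 + b))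
      (vlA P RL (fun q => (pc q).L.v) a 1 c 0 k 1 (-1) x (x + u) (1 + b)) (dimC (vlA P RC (fun q => (pd q).v) a 1 c 0 k 1 (-1) x (x + u) (1 + b))) := by
  have far := farAm (P := P) D hb hκ hd hit t1 t3 hx hX F0 hs K1 K2 K3 L1 L2 L3
  obtain ⟨hc, -⟩ := r0Am F0 hs
  obtain ⟨hc2, hP, hQ, hA1, hA2, hDD, hr, tN, tM⟩ := r2Am F2 hs2
  have hp := h0_pos
  have y0 := D.y0
  have y1 := D.y1
  have p0 := D.p0
  have p1 := D.p1
  have b0 := D.b0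
  have b1 := D.b1
  refine ⟨fun z => ?_, fun z => ?_⟩
  · refine NGV.dir far (kap_nn hκ D.x0 D.x1) (mul_nonneg hp.le D.x0.le) (by nlinarith [D.x1]) ?_ ?_ ?_ z
    · exact mul_nonneg hp.le y0.le
    · exact mul_nonneg hp.le (by linarith)
    · rw [← mul_add]
      nlinarith

  · have hN := ndA G
    rw [← k52_eq hk2 D.x0 u b] at hN
    unfold exA vlA dimC
    simp only [crv_zero, one_mul, neg_one_mul, ← sub_eq_add_neg]
    rw [hX]
    refine fin2Am D hb hκ rfl rfl hit (absTA hx) ?_ ?_ ?_ t1 t3 hk1 hN hu hu0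
      hA1 hA2 hDD hr hP hQ tN tM z
    · exact kerTA hd K1 (congrArg (fun t => -t) K2) (K3 hc)
    · refine ⟨?_, ?_, ?_⟩
      · show h0⁻¹ * RC 0 a (x + u) x = h0⁻¹ * (esn x * (cP (x + u) - (cR (x + u) + 2 * c1n (x + u)) * T.kc.v (psn (x + u)) x + b * (0 : ℝ)))
        rw [C1]
        ring
      · show h0⁻¹ * -RC k 1 (1 + b) x = -(h0⁻¹ * (esn x * T.st.k2.v u b x))
        rw [C2]
        ring
      · show h0⁻¹ * _ = h0⁻¹ * _
        rw [C3 hc2, hd]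
        rfl
    · exact levTA hd L1 (congrArg (fun t => -t) L2) (L3 hc)

theorem bothBp {n : ℕ} {P : Pos n} {RK RL RC : Fin (n + 1) → ℕ → ℝ → ℝ → ℝ} {pc : ℕ → Piece}
    {pd : ℕ → Fn3} {T : MolT} {a c : ℕ} {k : Fin (n + 1)} {u b x κ τ1 τ3 th K l A : ℝ} {y' : ℝ} {sk cx sk2 cx2 : List Fn3}
    (D : DomB u b x) (hb : 0 ≤ b) (hκ : κ * h0 = ken x)
    (hy' : y' = 1 + b - (x + u))
    (hd : T.kc.v (psn (x + u - b)) x = T.kc.v (psn (x + u)) x + b * (fd1B T.dq true).v u b x)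
    (hit : ((T.b true).at_ u b x).it * τ3 = 1)
    (t1 : tau (h0 * (x + u)) = h0 * τ1) (t3 : tau (h0 * y') = h0 * τ3)
    (hx : T.st.xs.v u b x = 1 / 2 + b * T.st.ws.v u b x)
    (hX : crv P k 2 (1 + b) = T.st.xs.v u b x)
    (G : DC2 th K l A x) (hu : u ≤ 1 - x) (hu0 : -A ≤ u)
    (hk1 : (T.k1p : ℝ) / T.k1q = 1 / th - 1) (hk2 : (T.k2p : ℝ) / T.k2q = K)
    (F0 : (k0Bp (T.b true) sk cx).P u b x) (hs : ∀ G ∈ sk, G.v u b x ≤ 0)
    (F2 : (k2Bp (T.b true) sk2 cx2).P u b x) (hs2 : ∀ G ∈ sk2, G.v u b x ≤ 0)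
    (K1 : RK 0 a (x + u) x = (c1n (x + u) * cG (x + u) + T.kc.v (psn (x + u)) x) * τ1)
    (K2 : RK k 2 (1 + b) x = 1 / 2 + b * T.st.rs.v u b x)
    (K3 : (∀ G ∈ cx, 0 < G.v u b x) → (pc c).K.v (-T.st.xs.v u b x - c1n (x + u)) y' x = ((c1n (x + u - b) + 1 / 2) * cG (x + u - b) + T.kc.v (psn (x + u - b)) x) * τ3 - T.sK.v (c1n (x + u) + T.st.xs.v u b x) (1 - (x + u - b)) x * (c1n (x + u) + T.st.xs.v u b x - (c1n (x + u - b) + 1 / 2)))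
    (L1 : RL 0 a (x + u) x = cQ x (x + u) (T.kc.v (psn (x + u)) x))
    (L2 : RL k 2 (1 + b) x = b * T.st.xk.v u b x)
    (L3 : (∀ G ∈ cx, 0 < G.v u b x) → (pc c).L.v (-T.st.xs.v u b x - c1n (x + u)) y' x = -(cQ x (x + u - b) (T.kc.v (psn (x + u - b)) x) + T.sX.v (c1n (x + u) + T.st.xs.v u b x) (1 - (x + u - b)) x * (c1n (x + u) + T.st.xs.v u b x - (c1n (x + u - b) + 1 / 2))))
    (C1 : RC 0 a (x + u) x = esn x * (cP (x + u) - (cR (x + u) + 2 * c1n (x + u)) * T.kc.v (psn (x + u)) x))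
    (C2 : RC k 2 (1 + b) x = esn x * T.st.k2.v u b x)
    (C3 : (∀ G ∈ cx2, 0 < G.v u b x) → (pd c).v (-T.st.xs.v u b x - c1n (x + u)) y' x = esn x * (cP (x + u - b) + 1 / 2 * cD (x + u - b) - (cR (x + u - b) + 2 * c1n (x + u - b) + 1) * T.kc.v (psn (x + u - b)) x - ((T.b true).at_ u b x).it * T.sD.v (c1n (x + u) + T.st.xs.v u b x) (1 - (x + u - b)) x * (c1n (x + u) + T.st.xs.v u b x - (c1n (x + u - b) + 1 / 2)))) :
    DirE th κ x (x + u) y' (exB P a 2 0 k 1 (-1) (x + u) y') (vlB P RK (fun q => (pc q).K.v) a c 2 0 k 1 (-1) x (x + u) y')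
      (vlB P RL (fun q => (pc q).L.v) a c 2 0 k 1 (-1) x (x + u) y') (dimC (vlB P RC (fun q => (pd q).v) a c 2 0 k 1 (-1) x (x + u) y')) := by
  have far := farBp (P := P) D hb hκ hy' hd hit t1 t3 hx hX F0 hs K1 K2 K3 L1 L2 L3
  obtain ⟨hc, -⟩ := r0Bp F0 hs
  obtain ⟨hc2, hP, hQ, hA1, hA2, hDD, hr, tN, tM⟩ := r2Bp F2 hs2
  have hp := h0_pos
  have y0 := D.y0
  have y1 := D.y1
  have p0 := D.p0
  have p1 := D.p1
  have b0 := D.b0
  have b1 := D.b1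
  refine ⟨fun z => ?_, fun z => ?_⟩
  · refine NGV.dir far (kap_nn hκ D.x0 D.x1) (mul_nonneg hp.le D.x0.le) (by nlinarith [D.x1]) ?_ ?_ ?_ z
    · exact mul_nonneg hp.le y0.le
    · exact mul_nonneg hp.le (by rw [hy']; linarith)
    · rw [← mul_add]
      nlinarith

  · have hN := ndB G
    rw [← k52_eq hk2 D.x0 u b] at hN
    have e : x + u + y' = 1 + b := by rw [hy']; ring
    unfold exB vlB dimC
    simp only [crv_zero, one_mul, neg_one_mul, ← sub_eq_add_neg]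
    refine fin2Bp D hb hκ rfl hy' hit ?_ ?_ ?_ ?_ t1 t3 hk1 hN hu hu0
      hA1 hA2 hDD hr hP hQ tN tM z
    · rw [e, hX]
      exact absTB hx
    · rw [e, hX, sub_neg_eq_add]
      exact kerTB hd K1 (congrArg (fun t => -t) K2) (K3 hc)
    · rw [e, hX, sub_neg_eq_add]
      refine ⟨?_, ?_, ?_⟩
      · show h0⁻¹ * RC 0 a (x + u) x = h0⁻¹ * (esn x * (cP (x + u) - (cR (x + u) + 2 * c1n (x + u)) * T.kc.v (psn (x + u)) x + b * (0 : ℝ)))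
        rw [C1]
        ring
      · show h0⁻¹ * _ = h0⁻¹ * _
        rw [C3 hc2, hd]
        rfl
      · show h0⁻¹ * -RC k 2 (1 + b) x = -(h0⁻¹ * (esn x * T.st.k2.v u b x))
        rw [C2]
        ring
    · rw [e, hX, sub_neg_eq_add]
      exact levTB hd L1 (congrArg (fun t => -t) L2) (L3 hc)

theorem bothBm {n : ℕ} {P : Pos n} {RK RL RC : Fin (n + 1) → ℕ → ℝ → ℝ → ℝ} {pc : ℕ → Piece}
    {pd : ℕ → Fn3} {T : MolT} {a c : ℕ} {k : Fin (n + 1)} {u b x κ τ1 τ3 th K l A : ℝ} {y' : ℝ} {sk cx sk2 cx2 : List Fn3}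
    (D : DomB u b x) (hb : b < 0) (hκ : κ * h0 = ken x)
    (hy' : y' = 1 + b - (x + u))
    (hd : T.kc.v (psn (x + u - b)) x = T.kc.v (psn (x + u)) x + b * (fd1B T.dq false).v u b x)
    (hit : ((T.b false).at_ u b x).it * τ3 = 1)
    (t1 : tau (h0 * (x + u)) = h0 * τ1) (t3 : tau (h0 * y') = h0 * τ3)
    (hx : T.st.xs.v u b x = 1 / 2 + b * T.st.ws.v u b x)
    (hX : crv P k 1 (1 + b) = T.st.xs.v u b x)
    (G : DC2 th K l A x) (hu : u ≤ 1 - x) (hu0 : -A ≤ u)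
    (hk1 : (T.k1p : ℝ) / T.k1q = 1 / th - 1) (hk2 : (T.k2p : ℝ) / T.k2q = K)
    (F0 : (k0Bm (T.b false) sk cx).P u b x) (hs : ∀ G ∈ sk, G.v u b x ≤ 0)
    (F2 : (k2Bm (T.b false) sk2 cx2).P u b x) (hs2 : ∀ G ∈ sk2, G.v u b x ≤ 0)
    (K1 : RK 0 a (x + u) x = (c1n (x + u) * cG (x + u) + T.kc.v (psn (x + u)) x) * τ1)
    (K2 : RK k 1 (1 + b) x = 1 / 2 + b * T.st.rs.v u b x)
    (K3 : (∀ G ∈ cx, 0 < G.v u b x) → (pc c).K.v (-T.st.xs.v u b x - c1n (x + u)) y' x = ((c1n (x + u - b) + 1 / 2) * cG (x + u - b) + T.kc.v (psn (x + u - b)) x) * τ3 - T.sK.v (c1n (x + u) + T.st.xs.v u b x) (1 - (x + u - b)) x * (c1n (x + u) + T.st.xs.v u b x - (c1n (x + u - b) + 1 / 2)))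
    (L1 : RL 0 a (x + u) x = cQ x (x + u) (T.kc.v (psn (x + u)) x))
    (L2 : RL k 1 (1 + b) x = b * T.st.xk.v u b x)
    (L3 : (∀ G ∈ cx, 0 < G.v u b x) → (pc c).L.v (-T.st.xs.v u b x - c1n (x + u)) y' x = -(cQ x (x + u - b) (T.kc.v (psn (x + u - b)) x) + T.sX.v (c1n (x + u) + T.st.xs.v u b x) (1 - (x + u - b)) x * (c1n (x + u) + T.st.xs.v u b x - (c1n (x + u - b) + 1 / 2))))
    (C1 : RC 0 a (x + u) x = esn x * (cP (x + u) - (cR (x + u) + 2 * c1n (x + u)) * T.kc.v (psn (x + u)) x))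
    (C2 : RC k 1 (1 + b) x = esn x * T.st.k2.v u b x)
    (C3 : (∀ G ∈ cx2, 0 < G.v u b x) → (pd c).v (-T.st.xs.v u b x - c1n (x + u)) y' x = esn x * (cP (x + u - b) + 1 / 2 * cD (x + u - b) - (cR (x + u - b) + 2 * c1n (x + u - b) + 1) * T.kc.v (psn (x + u - b)) x - ((T.b false).at_ u b x).it * T.sD.v (c1n (x + u) + T.st.xs.v u b x) (1 - (x + u - b)) x * (c1n (x + u) + T.st.xs.v u b x - (c1n (x + u - b) + 1 / 2)))) :
    DirE th κ x (x + u) y' (exB P a 1 0 k 1 (-1) (x + u) y') (vlB P RK (fun q => (pc q).K.v) a c 1 0 k 1 (-1) x (x + u) y')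
      (vlB P RL (fun q => (pc q).L.v) a c 1 0 k 1 (-1) x (x + u) y') (dimC (vlB P RC (fun q => (pd q).v) a c 1 0 k 1 (-1) x (x + u) y')) := by
  have far := farBm (P := P) D hb hκ hy' hd hit t1 t3 hx hX F0 hs K1 K2 K3 L1 L2 L3
  obtain ⟨hc, -⟩ := r0Bm F0 hs
  obtain ⟨hc2, hP, hQ, hA1, hA2, hDD, hr, tN, tM⟩ := r2Bm F2 hs2
  have hp := h0_pos
  have y0 := D.y0
  have y1 := D.y1
  have p0 := D.p0
  have p1 := D.p1
  have b0 := D.b0
  have b1 := D.b1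
  refine ⟨fun z => ?_, fun z => ?_⟩
  · refine NGV.dir far (kap_nn hκ D.x0 D.x1) (mul_nonneg hp.le D.x0.le) (by nlinarith [D.x1]) ?_ ?_ ?_ z
    · exact mul_nonneg hp.le y0.le
    · exact mul_nonneg hp.le (by rw [hy']; linarith)
    · rw [← mul_add]
      nlinarith

  · have hN := ndB G
    rw [← k52_eq hk2 D.x0 u b] at hN
    have e : x + u + y' = 1 + b := by rw [hy']; ring
    unfold exB vlB dimC
    simp only [crv_zero, one_mul, neg_one_mul, ← sub_eq_add_neg]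
    refine fin2Bm D hb hκ rfl hy' hit ?_ ?_ ?_ ?_ t1 t3 hk1 hN hu hu0
      hA1 hA2 hDD hr hP hQ tN tM z
    · rw [e, hX]
      exact absTB hx
    · rw [e, hX, sub_neg_eq_add]
      exact kerTB hd K1 (congrArg (fun t => -t) K2) (K3 hc)
    · rw [e, hX, sub_neg_eq_add]
      refine ⟨?_, ?_, ?_⟩
      · show h0⁻¹ * RC 0 a (x + u) x = h0⁻¹ * (esn x * (cP (x + u) - (cR (x + u) + 2 * c1n (x + u)) * T.kc.v (psn (x + u)) x + b * (0 : ℝ)))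
        rw [C1]
        ring
      · show h0⁻¹ * _ = h0⁻¹ * _
        rw [C3 hc2, hd]
        rfl
      · show h0⁻¹ * -RC k 1 (1 + b) x = -(h0⁻¹ * (esn x * T.st.k2.v u b x))
        rw [C2]
        ring
    · rw [e, hX, sub_neg_eq_add]
      exact levTB hd L1 (congrArg (fun t => -t) L2) (L3 hc)

end Pool.Agent.Strip051.PB.Mol.Ra
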