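import Pool.Agent.Strip051.PB.Alt
import Pool.Agent.Strip051.PB.AltE

/-! # Alternatives with a condition which contradicts the quarters of the heights -/

namespace Pool.Agent.Strip051.PB

open Pool.Agent.StripNear Pool.Agent.StripSquare Pool.Agent.Strip051.Sweep
open Pool.Agent.Strip051.LC

theorem inQ_lo {q : ℕ} {y : ℝ} (h : InQ q y) : (q : ℝ) / 2 ≤ y := by
  match q, h with
  | 0, h => have := h.1; push_cast; linarith
  | 1, h => have := h.1; push_cast; linarith
  | 2, h => have := h.1; push_cast; linarith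
  | 3, h => have := h.1; push_cast; linarith

theorem inQ_hi {q : ℕ} {y : ℝ} (h : InQ q y) : y ≤ ((q : ℝ) + 1) / 2 := by
  match q, h with
  | 0, h => have := h.2; push_cast; linarith
  | 1, h => have := h.2; push_cast; linarith
  | 2, h => have := h.2; push_cast; linarith
  | 3, h => have := h.2; push_cast; linarith

/-- No height of the quarter `q` is closer to `n` than `d / 2 ^ 30`. -/
def farQ (q n d : ℕ) : Bool :=
  decide (2 * (n * 1073741824) + 2 * d ≤ q * 1073741824) ||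
    decide ((q + 1) * 1073741824 + 2 * d ≤ 2 * (n * 1073741824))

theorem farQ_sound {q n d : ℕ} (h : farQ q n d = true) {y : ℝ} (hy : InQ q y)
    (H : |y - (n : ℝ)| < (d : ℝ) / 1073741824) : False := by
  have lo := inQ_lo hy
  have hi := inQ_hi hy
  obtain ⟨h1, h2⟩ := abs_lt.1 H
  have e : (d : ℝ) / 1073741824 * 1073741824 = d := by field_simp
  simp only [farQ, Bool.or_eq_true, decide_eq_true_eq] at h
  rcases h with h | h
  · have h' : (2 * ((n : ℝ) * 1073741824) + 2 * d) ≤ q * 1073741824 := by exact_mod_cast h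
    nlinarith
  · have h' : (((q : ℝ) + 1) * 1073741824 + 2 * d) ≤ 2 * ((n : ℝ) * 1073741824) := by
      exact_mod_cast h
    nlinarith

/-- The condition fails on the quarters `a`, `b`, `c`. -/
def Cc.no (a b c : ℕ) (d : Cc) : Bool :=
  d.s == 0 && ((d.k == 0 && farQ a d.n d.d) || (d.k == 1 && farQ b d.n d.d) ||
    (d.k == 2 && farQ c d.n d.d))

theorem Cc.no_sound {a b c : ℕ} {d : Cc} (h : d.no a b c = true) {x y z X Y : ℝ}
    (h1 : InQ a y) (h2 : InQ b z) (h3 : InQ c (y + z)) (H : d.P x y z X Y) : False := by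
  obtain ⟨k, n, s, e⟩ := d
  simp only [Cc.no, Bool.and_eq_true, Bool.or_eq_true, beq_iff_eq] at h
  obtain ⟨rfl, h⟩ := h
  unfold Cc.P Cc.cen at H
  rcases h with (⟨rfl, h⟩ | ⟨rfl, h⟩) | ⟨rfl, h⟩
  · exact farQ_sound h h1 H
  · exact farQ_sound h h2 H
  · exact farQ_sound h h3 H

/-- A condition of the list fails on the quarters. -/
def Cc.nos (a b c : ℕ) (l : List Cc) : Bool := l.any fun d => d.no a b c

theorem Cc.nos_sound {a b c : ℕ} {l : List Cc} (h : Cc.nos a b c l = true) {x y z X Y : ℝ}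
    (h1 : InQ a y) (h2 : InQ b z) (h3 : InQ c (y + z)) (H : ∀ d ∈ l, d.P x y z X Y) : False := by
  obtain ⟨d, hd, hi⟩ := List.any_eq_true.1 h
  exact Cc.no_sound hi h1 h2 h3 (H d hd)

section

variable {n : ℕ} {V : ℝ → ℝ → ℝ → ℝ → ℝ × ℝ × ℝ → ℝ × ℝ × ℝ → Prop} {P : Pos n}
  {RK RL RC : Fin (n + 1) → ℕ → ℝ → ℝ → ℝ} {pc : ℕ → Piece} {pd : ℕ → Fn3} {l : List Cc}
  {a b c : ℕ} {j k : Fin (n + 1)} {σ σ' x : ℝ} {N0 : ℕ} {κ E o : ℝ} {f : ℝ → ℝ}

theorem AltA.void (h : Cc.nos a b c l = true) : AltA V P RK RL pc l a b c j k σ σ' x :=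
  fun _ _ F hd => (Cc.nos_sound h F.q1 F.q2 F.q3 hd).elim

theorem AltB.void (h : Cc.nos a b c l = true) : AltB V P RK RL pc l a b c j k σ σ' x :=
  fun _ _ F hd => (Cc.nos_sound h F.q1 F.q2 F.q3 hd).elim

theorem AltEA.void (h : Cc.nos a b c l = true) :
    AltEA N0 κ E o f P RK RL RC pc pd l a b c j k σ σ' x :=
  fun _ _ F hd => (Cc.nos_sound h F.q1 F.q2 F.q3 hd).elim

theorem AltEB.void (h : Cc.nos a b c l = true) :
    AltEB N0 κ E o f P RK RL RC pc pd l a b c j k σ σ' x :=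
  fun _ _ F hd => (Cc.nos_sound h F.q1 F.q2 F.q3 hd).elim

end

end Pool.Agent.Strip051.PB
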