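import Pool.Agent.Strip051.PB.StripYM

/-! # The reflection in the heights, for constant positions -/

namespace Pool.Agent.Strip051.PB

open Pool.Agent.StripNear Pool.Agent.StripSquare Pool.Agent.Strip051.Sweep
open Pool.Agent.Strip051.LC

section

variable {n : ℕ} {P : Pos n} {RK RL : Fin (n + 1) → ℕ → ℝ → ℝ → ℝ} {pc : ℕ → Piece}
  {x : ℝ} {a b c : ℕ} {j k : Fin (n + 1)} {σ σ' : ℝ} {s1 s2 : Bool}
  {V : ℝ → ℝ → ℝ → ℝ → ℝ × ℝ × ℝ → ℝ × ℝ × ℝ → Prop}

theorem StA_mirrorP {y y' : ℝ} (hV : MirV V x) (hs : SideOk P RK RL pc x)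
    (F : FactsA P a b c j k σ σ' y y')
    (hX : σ * crv P j a y + σ' * crv P k b y' ≠ 0)
    (h : StA V P RK RL pc a b c j k σ σ' x y y') :
    StA V P RK RL pc b a c k j (-σ') (-σ) x y' y := by
  have e : -σ' * crv P k b y' + -σ * crv P j a y =
      -(σ * crv P j a y + σ' * crv P k b y') := by ring
  have q : ∀ X Y : ℝ, qqn (-X) Y = qqn X Y := fun X Y => by unfold qqn; ring
  have tK : (pc c).K.v (-(σ * crv P j a y + σ' * crv P k b y')) (y + y') x =
      -(pc c).K.v (σ * crv P j a y + σ' * crv P k b y') (y + y') x := by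
    rw [← hs.thK c _ _ F.q3 F.len1 F.len3,
      ← hs.thK c _ _ F.q3 (by rw [q]; exact F.len1) (by rw [q]; exact F.len3)]
    exact oddx_negY hX
  have tL : (pc c).L.v (-(σ * crv P j a y + σ' * crv P k b y')) (y + y') x =
      -(pc c).L.v (σ * crv P j a y + σ' * crv P k b y') (y + y') x := by
    rw [← hs.thL c _ _ F.q3 F.len1 F.len3,
      ← hs.thL c _ _ F.q3 (by rw [q]; exact F.len1) (by rw [q]; exact F.len3)]
    exact oddx_negY hX
  have ex : exA P b a k j (-σ') (-σ) y' y = exA P a b j k σ σ' y y' := by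
    unfold exA exn'
    ring
  unfold StA vlA at h ⊢
  have := hV _ _ _ _ _ _ _ _ _ h
  beta_reduce at this ⊢
  rw [e, add_comm y' y, tK, tL, ex, neg_mul, neg_mul, neg_mul, neg_mul]
  exact this

/-- **The reflection**: an alternative of the family `A`. -/
theorem AltA.mirror {l l' : List Cc} (hV : MirV V x) (hs : SideOk P RK RL pc x)
    (hl : ∀ y y' X Y, (∀ d ∈ l', d.P x y' y (-X) Y) → ∀ d ∈ l, d.P x y y' X Y)
    (hX : ∀ y y', FactsA P a b c j k (sgb s1) (sgb s2) y y' →
      sgb s1 * crv P j a y + sgb s2 * crv P k b y' ≠ 0)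
    (h : AltA V P RK RL pc l a b c j k (sgb s1) (sgb s2) x) :
    AltA V P RK RL pc l' b a c k j (sgb (!s2)) (sgb (!s1)) x := by
  have sn : ∀ s : Bool, sgb (!s) = -sgb s := fun s => by cases s <;> simp [sgb]
  rw [sn, sn]
  intro y' y F hc
  have F' := F.mirror
  refine StA_mirrorP hV hs F' (hX _ _ F') (h y y' F' (hl _ _ _ _ ?_))
  have e : -sgb s2 * crv P k b y' + -sgb s1 * crv P j a y =
      -(sgb s1 * crv P j a y + sgb s2 * crv P k b y') := by ring
  rw [e, add_comm y' y] at hc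
  exact hc

/-- **The reflection**: the cut regions of the family `A`. -/
theorem CutA.mirror {L L' : List (List Cc)} (hV : MirV V x) (hs : SideOk P RK RL pc x)
    (hl : ∀ y y' X Y, (Cut.of L').P x y' y (-X) Y → (Cut.of L).P x y y' X Y)
    (hX : ∀ y y', FactsA P a b c j k (sgb s1) (sgb s2) y y' →
      sgb s1 * crv P j a y + sgb s2 * crv P k b y' ≠ 0)
    (h : CutA V P RK RL pc (Cut.of L) a b c j k (sgb s1) (sgb s2) x) :
    CutA V P RK RL pc (Cut.of L') b a c k j (sgb (!s2)) (sgb (!s1)) x := by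
  have sn : ∀ s : Bool, sgb (!s) = -sgb s := fun s => by cases s <;> simp [sgb]
  rw [sn, sn]
  intro y' y F hc
  have F' := F.mirror
  refine StA_mirrorP hV hs F' (hX _ _ F') (h y y' F' (hl _ _ _ _ ?_))
  have e : -sgb s2 * crv P k b y' + -sgb s1 * crv P j a y =
      -(sgb s1 * crv P j a y + sgb s2 * crv P k b y') := by ring
  rw [e, add_comm y' y] at hc
  exact hc

end

end Pool.Agent.Strip051.PB
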