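import Pool.Agent.Strip051.PB.DgK

/-! # The corner `(1, 1, 2)`: the exact flux, types `B` and `P`, first vertex -/

set_option linter.unusedVariables false
set_option linter.unusedSimpArgs false

namespace Pool.Agent.Strip051.PB.Dg

open Pool.Agent.Strip051.PB
open Pool.Agent.StripNear Pool.Agent.StripSquare Pool.Agent.Strip051.Sweep
open Pool.Agent.Strip051.LC

attribute [local irreducible] padd psub pneg pmul psq pinv psqrt psqrtg pabs pps pmax pmin pphi plam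
  pcase phf pnat prat pscale pnorm pdc pnc pone ppos pnn Enc pbad pzero phull pnp pflat

noncomputable def dgzoB (p : Pm) (A : Sd) (T : Th) : Fn3 := ⟨_, _, fun h1 h2 h3 => (enc_add (enc_mul h1 (enc_norm ((dgom p T).enc h1 h2 h3))) (enc_mul ((dgdB A).enc h1 h2) (enc_norm ((dgomd p).enc h1 h2 h3))))⟩
noncomputable def dgzdB (p : Pm) (A : Sd) (T : Th) : Fn3 := ⟨_, _, fun h1 h2 h3 => (enc_add (enc_mul h1 (enc_norm ((dgd1 p T).enc h1 h2 h3))) (enc_mul ((dgdB A).enc h1 h2) (enc_norm ((dgdd p).enc h1 h2 h3))))⟩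
noncomputable def dgzlB (p : Pm) (A : Sd) (T : Th) : Fn3 := ⟨_, _, fun h1 h2 h3 => (enc_half (enc_add (enc_mul h1 (enc_norm ((dgl1 p T).enc h1 h2 h3))) (enc_mul ((dgdB A).enc h1 h2) (enc_norm ((dgld p).enc h1 h2 h3)))))⟩
noncomputable def dgzeB (A : Sd) : Fn2 := ⟨_, _, fun h1 h2 => (enc_norm (enc_add (enc_mul h1 (dgE2.enc h1 h2)) (enc_mul ((dgdB A).enc h1 h2) (enc_half (dgy1.enc h1 h2)))))⟩
noncomputable def dgQzBAp_8 (p : Pm) (A : Sd) (T : Th) : Fn3 := ⟨_, _, fun h1 h2 h3 => (enc_mul (enc_norm (enc_sub (enc_pnc _ 1) (dgrr.enc h1 h2))) (enc_norm ((dgzdB p A T).enc h1 h2 h3)))⟩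
noncomputable def dgQzBAp (p : Pm) (A : Sd) (T : Th) : Fn3 := ⟨_, _, fun h1 h2 h3 => (enc_sub (enc_add ((dgzeB A).enc h1 h2) ((dgzlB p A T).enc h1 h2 h3)) (enc_mul (dgq1.enc h3) (enc_norm (enc_add (enc_sub (enc_mul (enc_norm (enc_sub (enc_pnc _ 1) h3)) (enc_norm ((dgQzBAp_8 p A T).enc h1 h2 h3))) ((dgzoB p A T).enc h1 h2 h3)) (enc_mul (enc_norm (enc_mul (enc_norm (enc_mul h3 (dgrr.enc h1 h2))) (enc_norm (enc_mul (enc_norm ((dgQzBAp_8 p A T).enc h1 h2 h3)) (enc_norm ((dgzoB p A T).enc h1 h2 h3)))))) (enc_inv (enc_sub (enc_mul (enc_norm ((dgQzBAp_8 p A T).enc h1 h2 h3)) (dgv.enc h1 h2)) ((dgzoB p A T).enc h1 h2 h3))))))))⟩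
noncomputable def dgQzBAm_9 (p : Pm) (A : Sd) (T : Th) : Fn3 := ⟨_, _, fun h1 h2 h3 => (enc_mul (enc_norm (enc_sub (enc_pnc _ 1) (dgrr.enc h1 h2))) (enc_norm ((dgzdB p A T).enc h1 h2 h3)))⟩
noncomputable def dgQzBAm (p : Pm) (A : Sd) (T : Th) : Fn3 := ⟨_, _, fun h1 h2 h3 => (enc_sub (enc_add ((dgzeB A).enc h1 h2) ((dgzlB p A T).enc h1 h2 h3)) (enc_mul (dgq1.enc h3) (enc_norm (enc_sub (enc_sub (enc_neg (enc_mul (enc_norm (enc_sub (enc_pnc _ 1) h3)) (enc_norm ((dgQzBAm_9 p A T).enc h1 h2 h3)))) ((dgzoB p A T).enc h1 h2 h3)) (enc_mul (enc_norm (enc_mul (enc_norm (enc_mul h3 (dgrr.enc h1 h2))) (enc_norm (enc_mul (enc_norm ((dgQzBAm_9 p A T).enc h1 h2 h3)) (enc_norm ((dgzoB p A T).enc h1 h2 h3)))))) (enc_inv (enc_sub (enc_neg (enc_mul (enc_norm ((dgQzBAm_9 p A T).enc h1 h2 h3)) (dgw.enc h1))) ((dgzoB p A T).enc h1 h2 h3))))))))⟩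
noncomputable def dgQzBBp_8 (p : Pm) (A : Sd) (T : Th) : Fn3 := ⟨_, _, fun h1 h2 h3 => (enc_mul (enc_norm (enc_sub (enc_pnc _ 1) (dgrr.enc h1 h2))) (enc_norm ((dgzdB p A T).enc h1 h2 h3)))⟩
noncomputable def dgQzBBp (p : Pm) (A : Sd) (T : Th) : Fn3 := ⟨_, _, fun h1 h2 h3 => (enc_sub (enc_sub ((dgzeB A).enc h1 h2) ((dgzlB p A T).enc h1 h2 h3)) (enc_mul (dgq1.enc h3) (enc_norm (enc_add (enc_sub (enc_mul (enc_norm (enc_sub (enc_pnc _ 1) h3)) (enc_norm ((dgQzBBp_8 p A T).enc h1 h2 h3))) ((dgzoB p A T).enc h1 h2 h3)) (enc_mul (enc_norm (enc_mul (enc_norm (enc_mul h3 (dgrr.enc h1 h2))) (enc_norm (enc_mul (enc_norm ((dgQzBBp_8 p A T).enc h1 h2 h3)) (enc_norm ((dgzoB p A T).enc h1 h2 h3)))))) (enc_inv (enc_sub (enc_mul (enc_norm ((dgQzBBp_8 p A T).enc h1 h2 h3)) (dgv.enc h1 h2)) ((dgzoB p A T).enc h1 h2 h3))))))))⟩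
noncomputable def dgQzBBm_9 (p : Pm) (A : Sd) (T : Th) : Fn3 := ⟨_, _, fun h1 h2 h3 => (enc_mul (enc_norm (enc_sub (enc_pnc _ 1) (dgrr.enc h1 h2))) (enc_norm ((dgzdB p A T).enc h1 h2 h3)))⟩
noncomputable def dgQzBBm (p : Pm) (A : Sd) (T : Th) : Fn3 := ⟨_, _, fun h1 h2 h3 => (enc_sub (enc_sub ((dgzeB A).enc h1 h2) ((dgzlB p A T).enc h1 h2 h3)) (enc_mul (dgq1.enc h3) (enc_norm (enc_sub (enc_sub (enc_neg (enc_mul (enc_norm (enc_sub (enc_pnc _ 1) h3)) (enc_norm ((dgQzBBm_9 p A T).enc h1 h2 h3)))) ((dgzoB p A T).enc h1 h2 h3)) (enc_mul (enc_norm (enc_mul (enc_norm (enc_mul h3 (dgrr.enc h1 h2))) (enc_norm (enc_mul (enc_norm ((dgQzBBm_9 p A T).enc h1 h2 h3)) (enc_norm ((dgzoB p A T).enc h1 h2 h3)))))) (enc_inv (enc_sub (enc_neg (enc_mul (enc_norm ((dgQzBBm_9 p A T).enc h1 h2 h3)) (dgw.enc h1))) ((dgzoB p A T).enc h1 h2 h3))))))))⟩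
noncomputable def dgzoP (p : Pm) (A : Sd) (T : Th) : Fn3 := ⟨_, _, fun h1 h2 h3 => (enc_add (enc_mul h1 (enc_norm ((dgom p T).enc h1 h2 h3))) (enc_mul ((dgdPp A).enc h1 h2) (enc_norm ((dgomP p).enc h1 h2 h3))))⟩
noncomputable def dgzdP (p : Pm) (A : Sd) (T : Th) : Fn3 := ⟨_, _, fun h1 h2 h3 => (enc_add (enc_mul h1 (enc_norm ((dgd1 p T).enc h1 h2 h3))) (enc_mul ((dgdPp A).enc h1 h2) (enc_norm ((dgdP p).enc h1 h2 h3))))⟩
noncomputable def dgzlP (p : Pm) (A : Sd) (T : Th) : Fn3 := ⟨_, _, fun h1 h2 h3 => (enc_half (enc_add (enc_mul h1 (enc_norm ((dgl1 p T).enc h1 h2 h3))) (enc_mul ((dgdPp A).enc h1 h2) (enc_norm ((dglP p).enc h1 h2 h3)))))⟩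
noncomputable def dgzeP (A : Sd) : Fn2 := ⟨_, _, fun h1 h2 => (enc_norm (enc_add (enc_mul h1 (dgE2.enc h1 h2)) (enc_mul ((dgdPp A).enc h1 h2) (enc_half (dgy2.enc h1 h2)))))⟩
noncomputable def dgQzPAp_8 (p : Pm) (A : Sd) (T : Th) : Fn3 := ⟨_, _, fun h1 h2 h3 => (enc_mul (enc_norm (enc_sub (enc_pnc _ 1) (dgrr.enc h1 h2))) (enc_norm ((dgzdP p A T).enc h1 h2 h3)))⟩
noncomputable def dgQzPAp (p : Pm) (A : Sd) (T : Th) : Fn3 := ⟨_, _, fun h1 h2 h3 => (enc_sub (enc_add ((dgzeP A).enc h1 h2) ((dgzlP p A T).enc h1 h2 h3)) (enc_mul (dgq1.enc h3) (enc_norm (enc_add (enc_sub (enc_mul (enc_norm (enc_sub (enc_pnc _ 1) h3)) (enc_norm ((dgQzPAp_8 p A T).enc h1 h2 h3))) ((dgzoP p A T).enc h1 h2 h3)) (enc_mul (enc_norm (enc_mul (enc_norm (enc_mul h3 (dgrr.enc h1 h2))) (enc_norm (enc_mul (enc_norm ((dgQzPAp_8 p A T).enc h1 h2 h3)) (enc_norm ((dgzoP p A T).enc h1 h2 h3)))))) (enc_inv (enc_sub (enc_mul (enc_norm ((dgQzPAp_8 p A T).enc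 h1 h2 h3)) (dgv.enc h1 h2)) ((dgzoP p A T).enc h1 h2 h3))))))))⟩
noncomputable def dgQzPAm_9 (p : Pm) (A : Sd) (T : Th) : Fn3 := ⟨_, _, fun h1 h2 h3 => (enc_mul (enc_norm (enc_sub (enc_pnc _ 1) (dgrr.enc h1 h2))) (enc_norm ((dgzdP p A T).enc h1 h2 h3)))⟩
noncomputable def dgQzPAm (p : Pm) (A : Sd) (T : Th) : Fn3 := ⟨_, _, fun h1 h2 h3 => (enc_sub (enc_add ((dgzeP A).enc h1 h2) ((dgzlP p A T).enc h1 h2 h3)) (enc_mul (dgq1.enc h3) (enc_norm (enc_sub (enc_sub (enc_neg (enc_mul (enc_norm (enc_sub (enc_pnc _ 1) h3)) (enc_norm ((dgQzPAm_9 p A T).enc h1 h2 h3)))) ((dgzoP p A T).enc h1 h2 h3)) (enc_mul (enc_norm (enc_mul (enc_norm (enc_mul h3 (dgrr.enc h1 h2))) (enc_norm (enc_mul (enc_norm ((dgQzPAm_9 p A T).enc h1 h2 h3)) (enc_norm ((dgzoP p A T).enc h1 h2 h3)))))) (enc_inv (enc_sub (enc_neg (enc_mul (enc_norm ((dgQzPAm_9 p A T).enc h1 h2 h3)) (dgw.enc h1))) ((dgzoP p A T).enc h1 h2 h3))))))))⟩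
noncomputable def dgQzPBp_8 (p : Pm) (A : Sd) (T : Th) : Fn3 := ⟨_, _, fun h1 h2 h3 => (enc_mul (enc_norm (enc_sub (enc_pnc _ 1) (dgrr.enc h1 h2))) (enc_norm ((dgzdP p A T).enc h1 h2 h3)))⟩
noncomputable def dgQzPBp (p : Pm) (A : Sd) (T : Th) : Fn3 := ⟨_, _, fun h1 h2 h3 => (enc_sub (enc_sub ((dgzeP A).enc h1 h2) ((dgzlP p A T).enc h1 h2 h3)) (enc_mul (dgq1.enc h3) (enc_norm (enc_add (enc_sub (enc_mul (enc_norm (enc_sub (enc_pnc _ 1) h3)) (enc_norm ((dgQzPBp_8 p A T).enc h1 h2 h3))) ((dgzoP p A T).enc h1 h2 h3)) (enc_mul (enc_norm (enc_mul (enc_norm (enc_mul h3 (dgrr.enc h1 h2))) (enc_norm (enc_mul (enc_norm ((dgQzPBp_8 p A T).enc h1 h2 h3)) (enc_norm ((dgzoP p A T).enc h1 h2 h3)))))) (enc_inv (enc_sub (enc_mul (enc_norm ((dgQzPBp_8 p A T).enc h1 h2 h3)) (dgv.enc h1 h2)) ((dgzoP p A T).enc h1 h2 h3))))))))⟩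
noncomputable def dgQzPBm_9 (p : Pm) (A : Sd) (T : Th) : Fn3 := ⟨_, _, fun h1 h2 h3 => (enc_mul (enc_norm (enc_sub (enc_pnc _ 1) (dgrr.enc h1 h2))) (enc_norm ((dgzdP p A T).enc h1 h2 h3)))⟩
noncomputable def dgQzPBm (p : Pm) (A : Sd) (T : Th) : Fn3 := ⟨_, _, fun h1 h2 h3 => (enc_sub (enc_sub ((dgzeP A).enc h1 h2) ((dgzlP p A T).enc h1 h2 h3)) (enc_mul (dgq1.enc h3) (enc_norm (enc_sub (enc_sub (enc_neg (enc_mul (enc_norm (enc_sub (enc_pnc _ 1) h3)) (enc_norm ((dgQzPBm_9 p A T).enc h1 h2 h3)))) ((dgzoP p A T).enc h1 h2 h3)) (enc_mul (enc_norm (enc_mul (enc_norm (enc_mul h3 (dgrr.enc h1 h2))) (enc_norm (enc_mul (enc_norm ((dgQzPBm_9 p A T).enc h1 h2 h3)) (enc_norm ((dgzoP p A T).enc h1 h2 h3)))))) (enc_inv (enc_sub (enc_neg (enc_mul (enc_norm ((dgQzPBm_9 p A T).enc h1 h2 h3)) (dgw.enc h1))) ((dgzoP p A T).enc h1 h2 h3))))))))⟩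

/-- the second inequality with the exact flux, type `B` -/
noncomputable def QzBF (lv sg : Bool) (p : Pm) (A : Sd) (T : Th) : Fn3 :=
  match lv, sg with
  | true, true => dgQzBAp p A T
  | true, false => dgQzBAm p A T
  | false, true => dgQzBBp p A T
  | false, false => dgQzBBm p A T

/-- the second inequality with the exact flux, type `P` -/
noncomputable def QzPF (lv sg : Bool) (p : Pm) (A : Sd) (T : Th) : Fn3 :=
  match lv, sg with
  | true, true => dgQzPAp p A T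
  | true, false => dgQzPAm p A T
  | false, true => dgQzPBp p A T
  | false, false => dgQzPBm p A T

/-- the test function, type `B` -/
noncomputable def fdBy (tt : Bool) (p : Pm) (Sa : Sd) (h A B C : ℕ) : Bool :=
  tst [ppos (dgxn.t A B), ppos ((dgxA Sa).t A B), ppos (dgx3.t A B), ppos ((dgxK p Sa).t A B),
      ppos ((dgxv p).t A B), ppos ((dgxs p).t A B)]
    (fun lv sg bd d => op4 d (band (tz true sg bd p C) (band
      (ppos ((a1F true lv sg bd p (thN Sa)).t A B C)) (pnn ((QBF true lv sg bd p).t A B C))))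
      (ppos ((SBF true lv sg bd p Sa (thN Sa)).t A B C))
      (cond tt (ppos ((TBF lv sg bd p (thN Sa)).t A B C (ts1 p A B C) (ts2 p A B C) (ts3 p A B C)
        (ts4 p A B C))) false)
      (cond bd false (ppos ((QzBF lv sg p Sa (thN Sa)).t A B C)))) h

/-- the test function, type `P` -/
noncomputable def fdPy (tt : Bool) (p : Pm) (Sa : Sd) (h A B C : ℕ) : Bool :=
  tst [ppos (dgxn.t A B), ppos ((dgxP Sa).t A B), ppos ((dgxs p).t A B), ppos ((dgxX p Sa).t A B)]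
    (fun lv sg bd d => op4 d (band (tz true sg bd p C) (band
      (ppos ((a1F true lv sg bd p (thN Sa)).t A B C)) (pnn ((QPF true lv sg bd p).t A B C))))
      (ppos ((SPF true lv sg bd p Sa (thN Sa)).t A B C))
      (cond tt (ppos ((TPF lv sg bd p (thN Sa)).t A B C (ts1 p A B C) (ts2 p A B C) (ts3 p A B C)
        (ts4 p A B C))) false)
      (cond bd false (ppos ((QzPF lv sg p Sa (thN Sa)).t A B C)))) h


/-- a sufficient condition for the second inequality with the exact flux -/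
theorem Dat.exF_of {E : Dat} (hf : E.far = true) (h0 : E.d0 = 0) (t0 : 0 ≤ E.t)
    (hst : E.st - E.vt = E.t * E.g) {lv sg : Bool} {o d e : ℝ}
    (ho : o = E.t * E.om1 + E.dl * E.omd)
    (hd : d = (1 - E.rs) * Dat.sn sg (E.t * E.d1 + E.dl * E.dd))
    (he : e = E.t * E.E2 + E.dl * E.ee + Dat.sn lv ((E.t * E.l1 + E.dl * E.ld) / 2))
    (k : 0 < e - E.q * ((1 - E.x) * d - o + E.x * E.rs * (d * o) * (d * E.la sg - o)⁻¹)) :
    E.ExF lv sg := by
  have eD : E.R3 - E.R1 - E.R2 = E.t * (E.t * E.d1 + E.dl * E.dd) := by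
    have : E.R3 - E.R1 - E.R2 = E.t * (E.b * E.d0) + E.t ^ 2 * E.d1 + E.t * E.dl * E.dd := by
      unfold Dat.R1 Dat.R2 Dat.R3 Dat.d0 Dat.d1 Dat.dd Dat.r2
      ring
    rw [this, h0]
    ring
  have eO : E.OM = E.t * o := by
    rw [ho]
    unfold Dat.OM Dat.om1 Dat.omd Dat.R2 Dat.R3
    ring
  have eS : (1 - E.rs) * E.dS sg = E.t * d := by
    rw [hd]
    unfold Dat.dS
    rw [eD]
    cases sg
    · simp only [Dat.sn, cond_false]
      ring
    · simp only [Dat.sn, cond_true]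
      ring
  have ee : E.ex + lvl E.far E.N0 E.x E.y E.y' E.L1 E.L2 E.L3 lv = E.t * e := by
    rw [Dat.lvl_eq lv hst, he]
    have e2 : E.LK0 = 0 := by
      unfold Dat.LK0
      rw [hf]
      rfl
    have e3 : E.LK1 lv = Dat.sn lv (E.l1 / 2) := by
      unfold Dat.LK1
      rw [hf]
      rfl
    have e4 : E.LKd lv = Dat.sn lv (E.ld / 2) := by
      unfold Dat.LKd
      rw [hf]
      rfl
    rw [e2, e3, e4]
    unfold Dat.ex
    cases lv
    · simp only [Dat.sn, cond_false]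
      ring
    · simp only [Dat.sn, cond_true]
      ring
  unfold Dat.ExF
  rw [ee, eS, eO]
  have a2 : E.x * E.rs * (E.t * d) * (E.t * o) / (E.t * d * E.la sg - E.t * o) =
      E.t * (E.x * E.rs * (d * o) * (d * E.la sg - o)⁻¹) := by
    rcases t0.eq_or_lt with h | h
    · rw [← h]
      simp
    · rw [show E.t * d * E.la sg - E.t * o = E.t * (d * E.la sg - o) by ring, div_eq_mul_inv,
        mul_inv]
      have : E.t * E.t⁻¹ = 1 := mul_inv_cancel₀ h.ne'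
      linear_combination E.x * E.rs * d * E.t * o * (d * E.la sg - o)⁻¹ * this
  rw [a2]
  have k2 := mul_nonneg t0 k.le
  linarith

section

variable {p : Pm} {T : Th} {A : Sd} {t b x : ℝ} {E : Pt} {A' B' C' N0 : ℕ}

theorem exF_zB (hf : p.Fit true N0 x) (t0 : 0 ≤ t) (lv sg : Bool)
    (k : 0 < (QzBF lv sg p A T).v t b x) :
    (datB true N0 p T t b x (b - A.ch.v t)).ExF lv sg := by
  obtain ⟨E, hE⟩ : ∃ E, E = datB true N0 p T t b x (b - A.ch.v t) := ⟨_, rfl⟩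
  rw [← hE]
  have h0 : E.d0 = 0 := by
    rw [hE]
    show (p.k12.v x - p.k23.v x) / 3 = 0
    rw [hf.far rfl]
    ring
  have e1 : E.omd = (dgomd p).v t b x := by
    rw [hE]
    simp only [datB, dat, Dat.omd, dgomd, dgtg]
    ring
  have e2 : E.dd = (dgdd p).v t b x := by
    rw [hE]
    simp only [datB, dat, Dat.dd, dgdd]
    ring
  have e3 : E.ld = (dgld p).v t b x := by
    rw [hE]
    simp only [datB, dat, Dat.ld, dgld]
    ring
  have e4 : E.ee = dgy1.v t b / 2 := by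
    rw [hE]
    simp only [datB, dat, dgy1, dgs]
    push_cast
    ring
  have e5 : E.om1 = (dgom p T).v t b x := by
    rw [hE]
    simp only [datB, dat, Dat.om1, Dat.r2, dgom, dgom_12]
    push_cast
    ring
  have e6 : E.d1 = (dgd1 p T).v t b x := by
    rw [hE]
    rfl
  have e7 : E.l1 = (dgl1 p T).v t b x := by
    rw [hE]
    rfl
  have e8 : E.E2 = dgE2.v t b := by rw [hE]; rfl
  have et : E.t = t := by rw [hE]; rfl
  have edl : E.dl = b - A.ch.v t := by rw [hE]; rfl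
  have eq' : E.q = dgq1.v x := by rw [hE]; rfl
  have ex' : E.x = x := by rw [hE]; rfl
  have er : E.rs = dgrr.v t b := by
    rw [hE]
    simp only [datB, dat, Dat.rs, dgrr, dgv, dgw, dgtg]
    ring
  have el : E.la sg = cond sg (dgv.v t b) (dgw.v t) := by
    rw [hE]
    cases sg
    · simp only [datB, dat, Dat.la, dgw, dgtg, cond_false]
      ring
    · simp only [datB, dat, Dat.la, dgv, cond_true]
  have ho : (dgzoB p A T).v t b x = E.t * E.om1 + E.dl * E.omd := by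
    rw [et, e5, edl, e1]
    simp only [dgzoB, dgdB]
  have hd : (dgzdB p A T).v t b x = E.t * E.d1 + E.dl * E.dd := by
    rw [et, e6, edl, e2]
    simp only [dgzdB, dgdB]
  have hl : (dgzlB p A T).v t b x = (E.t * E.l1 + E.dl * E.ld) / 2 := by
    rw [et, e7, edl, e3]
    simp only [dgzlB, dgdB]
  have he : (dgzeB A).v t b = E.t * E.E2 + E.dl * E.ee := by
    rw [et, e8, edl, e4]
    simp only [dgzeB, dgdB]
  refine Dat.exF_of (o := (dgzoB p A T).v t b x)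
    (d := (1 - dgrr.v t b) * Dat.sn sg ((dgzdB p A T).v t b x))
    (e := (dgzeB A).v t b + Dat.sn lv ((dgzlB p A T).v t b x)) (by rw [hE]; rfl) h0
    (by rw [et]; exact t0) (by rw [hE]; exact st_vt t b) ho (by rw [er, hd]) (by rw [he, hl]) ?_
  rw [er, el, eq', ex']
  obtain ⟨o, ho'⟩ : ∃ o, o = (dgzoB p A T).v t b x := ⟨_, rfl⟩
  obtain ⟨d, hd'⟩ : ∃ d, d = (1 - dgrr.v t b) * Dat.sn sg ((dgzdB p A T).v t b x) := ⟨_, rfl⟩
  obtain ⟨l, hl'⟩ : ∃ l, l = cond sg (dgv.v t b) (dgw.v t) := ⟨_, rfl⟩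
  have kk : (QzBF lv sg p A T).v t b x = (dgzeB A).v t b + Dat.sn lv ((dgzlB p A T).v t b x) -
      dgq1.v x * ((1 - x) * d - o + x * dgrr.v t b * (d * o) * (d * l - o)⁻¹) := by
    rw [ho', hd', hl']
    cases lv <;> cases sg <;>
      simp only [QzBF, dgQzBAp_8, dgQzBAp, dgQzBAm_9, dgQzBAm, dgQzBBp_8, dgQzBBp, dgQzBBm_9, dgQzBBm, Dat.sn, cond_true, cond_false] <;> push_cast <;> ring
  rw [kk] at k
  rw [← ho', ← hd', ← hl']
  exact k

theorem exF_zP (hf : p.Fit true N0 x) (t0 : 0 ≤ t) (lv sg : Bool)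
    (k : 0 < (QzPF lv sg p A T).v t b x) :
    (datP true N0 p T t b x (A.ch.v t - b)).ExF lv sg := by
  obtain ⟨E, hE⟩ : ∃ E, E = datP true N0 p T t b x (A.ch.v t - b) := ⟨_, rfl⟩
  rw [← hE]
  have h0 : E.d0 = 0 := by
    rw [hE]
    show (p.k12.v x - p.k23.v x) / 3 = 0
    rw [hf.far rfl]
    ring
  have e1 : E.omd = (dgomP p).v t b x := by
    rw [hE]
    simp only [datP, dat, Dat.omd, dgomP]
    ring
  have e2 : E.dd = (dgdP p).v t b x := by
    rw [hE]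
    simp only [datP, dat, Dat.dd, dgdP]
    ring
  have e3 : E.ld = (dglP p).v t b x := by
    rw [hE]
    simp only [datP, dat, Dat.ld, dglP]
    ring
  have e4 : E.ee = dgy2.v t b / 2 := by
    rw [hE]
    simp only [datP, dat, dgy2, dgv]
    push_cast
    ring
  have e5 : E.om1 = (dgom p T).v t b x := by
    rw [hE]
    simp only [datP, dat, Dat.om1, Dat.r2, dgom, dgom_12]
    push_cast
    ring
  have e6 : E.d1 = (dgd1 p T).v t b x := by
    rw [hE]
    rfl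
  have e7 : E.l1 = (dgl1 p T).v t b x := by
    rw [hE]
    rfl
  have e8 : E.E2 = dgE2.v t b := by rw [hE]; rfl
  have et : E.t = t := by rw [hE]; rfl
  have edl : E.dl = A.ch.v t - b := by rw [hE]; rfl
  have eq' : E.q = dgq1.v x := by rw [hE]; rfl
  have ex' : E.x = x := by rw [hE]; rfl
  have er : E.rs = dgrr.v t b := by
    rw [hE]
    simp only [datP, dat, Dat.rs, dgrr, dgv, dgw, dgtg]
    ring
  have el : E.la sg = cond sg (dgv.v t b) (dgw.v t) := by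
    rw [hE]
    cases sg
    · simp only [datP, dat, Dat.la, dgw, dgtg, cond_false]
      ring
    · simp only [datP, dat, Dat.la, dgv, cond_true]
  have ho : (dgzoP p A T).v t b x = E.t * E.om1 + E.dl * E.omd := by
    rw [et, e5, edl, e1]
    simp only [dgzoP, dgdPp]
  have hd : (dgzdP p A T).v t b x = E.t * E.d1 + E.dl * E.dd := by
    rw [et, e6, edl, e2]
    simp only [dgzdP, dgdPp]
  have hl : (dgzlP p A T).v t b x = (E.t * E.l1 + E.dl * E.ld) / 2 := by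
    rw [et, e7, edl, e3]
    simp only [dgzlP, dgdPp]
  have he : (dgzeP A).v t b = E.t * E.E2 + E.dl * E.ee := by
    rw [et, e8, edl, e4]
    simp only [dgzeP, dgdPp]
  refine Dat.exF_of (o := (dgzoP p A T).v t b x)
    (d := (1 - dgrr.v t b) * Dat.sn sg ((dgzdP p A T).v t b x))
    (e := (dgzeP A).v t b + Dat.sn lv ((dgzlP p A T).v t b x)) (by rw [hE]; rfl) h0
    (by rw [et]; exact t0) (by rw [hE]; exact st_vt t b) ho (by rw [er, hd]) (by rw [he, hl]) ?_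
  rw [er, el, eq', ex']
  obtain ⟨o, ho'⟩ : ∃ o, o = (dgzoP p A T).v t b x := ⟨_, rfl⟩
  obtain ⟨d, hd'⟩ : ∃ d, d = (1 - dgrr.v t b) * Dat.sn sg ((dgzdP p A T).v t b x) := ⟨_, rfl⟩
  obtain ⟨l, hl'⟩ : ∃ l, l = cond sg (dgv.v t b) (dgw.v t) := ⟨_, rfl⟩
  have kk : (QzPF lv sg p A T).v t b x = (dgzeP A).v t b + Dat.sn lv ((dgzlP p A T).v t b x) -
      dgq1.v x * ((1 - x) * d - o + x * dgrr.v t b * (d * o) * (d * l - o)⁻¹) := by
    rw [ho', hd', hl']
    cases lv <;> cases sg <;>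
      simp only [QzPF, dgQzPAp_8, dgQzPAp, dgQzPAm_9, dgQzPAm, dgQzPBp_8, dgQzPBp, dgQzPBm_9, dgQzPBm, Dat.sn, cond_true, cond_false] <;> push_cast <;> ring
  rw [kk] at k
  rw [← ho', ← hd', ← hl']
  exact k

/-- the inequalities, type `B`, first vertex, the exact flux is allowed -/
def IneqBD (N0 : ℕ) (p : Pm) (A : Sd) (t b x : ℝ) : Prop :=
  ∀ lv sg bd, 0 ≤ b * cond true 0 ((a0F sg bd p).v x) +
    t * (a1F true lv sg bd p (thN A)).v t b x + (b - A.ch.v t) * (QBF true lv sg bd p).v t b x ∨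
    (bd = false ∧ (datB true N0 p (thN A) t b x (b - A.ch.v t)).ExF lv sg)

/-- the inequalities, type `P`, first vertex, the exact flux is allowed -/
def IneqPD (N0 : ℕ) (p : Pm) (A : Sd) (t b x : ℝ) : Prop :=
  ∀ lv sg bd, 0 ≤ b * cond true 0 ((a0F sg bd p).v x) +
    t * (a1F true lv sg bd p (thN A)).v t b x + (A.ch.v t - b) * (QPF true lv sg bd p).v t b x ∨
    (bd = false ∧ (datP true N0 p (thN A) t b x (A.ch.v t - b)).ExF lv sg)

theorem fdBy_sound {tt : Bool} {Sa : Sd} {h : ℕ} (hA : Enc E A' t) (hB : Enc E B' b)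
    (hC : Enc E C' x) (hf : p.Fit true N0 x) (ht : fdBy tt p Sa h A' B' C' = true) (t0 : 0 ≤ t) (b0 : 0 ≤ b)
    (v0 : 0 ≤ dgvt.v t b) (c1 : Sa.ch.v t ≤ b) (v1 : dgvt.v t b ≤ 2 / 3)
    (c2 : b - Sa.ch.v t ≤ dgvt.v t b * (dgxi.v (dgv.v t b) - p.cv.xs.v (dgv.v t b)))
    (hv : p.sv.v (dgv.v t b) ≤ 0) (hs : p.sv.v (dgs.v t b) ≤ 0)
    (G : TgOk tt true p (thN Sa) Sa t b x) : IneqBD N0 p Sa t b x := by
  unfold fdBy at ht
  rcases tst_true ht with h1 | h1
  · exfalso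
    simp only [List.mem_cons, List.not_mem_nil, or_false] at h1
    rcases h1 with h1 | h1 | h1 | h1 | h1 | h1
    · have := ppos_sound (dgxn.enc hA hB) h1.symm
      rw [dgxn_v] at this
      linarith
    · have := ppos_sound ((dgxA Sa).enc hA hB) h1.symm
      rw [dgxA_v] at this
      linarith
    · have := ppos_sound (dgx3.enc hA hB) h1.symm
      rw [dgx3_v] at this
      linarith
    · have := ppos_sound ((dgxK p Sa).enc hA hB) h1.symm
      rw [dgxK_v] at this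
      linarith
    · have := ppos_sound ((dgxv p).enc hA hB) h1.symm
      rw [dgxv_v] at this
      linarith
    · have := ppos_sound ((dgxs p).enc hA hB) h1.symm
      rw [dgxs_v] at this
      linarith
  · intro lv sg bd
    obtain ⟨d, hd⟩ := h1 lv sg bd
    rcases op4_true hd with k | k | k | k
    · left
      obtain ⟨k1, k2⟩ := band_true k
      obtain ⟨k2, k3⟩ := band_true k2
      have m1 := tz_sound k1 hC
      have m2 := (ppos_sound ((a1F true lv sg bd p (thN Sa)).enc hA hB hC) k2).le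
      have m3 := pnn_sound ((QBF true lv sg bd p).enc hA hB hC) k3
      exact add_nonneg (add_nonneg (mul_nonneg b0 m1) (mul_nonneg t0 m2))
        (mul_nonneg (by linarith) m3)
    · left
      have m := ppos_sound ((SBF true lv sg bd p Sa (thN Sa)).enc hA hB hC) k
      rw [SBF_v] at m
      exact m.le
    · cases tt
      · exact absurd k (by simp)
      · left
        obtain ⟨-, g2, g3, g4, g5, g6, g7, g8, g9⟩ := G rfl
        obtain ⟨sa, mp, cp, cm, s1, s2, s3, s4, V⟩ := ts_enc g2 g7 g8 hA hB hC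
        have m := ppos_sound ((TBF lv sg bd p (thN Sa)).enc hA hB hC s1 s2 s3 s4) k
        rw [TBF_v] at m
        rw [a1_tight g2 g3 g4 g5 g6 g7 V, cond_true, mul_zero, zero_add, g9]
        rw [g9] at c1
        have := mul_nonneg (by linarith : (0 : ℝ) ≤ b - 1) m.le
        linarith
    · cases bd
      · rw [cond_false] at k
        right
        have m := ppos_sound ((QzBF lv sg p Sa (thN Sa)).enc hA hB hC) k
        exact ⟨rfl, exF_zB (N0 := N0) hf t0 lv sg m⟩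
      · exact absurd k (by simp)

theorem fdPy_sound {tt : Bool} {Sa : Sd} {h : ℕ} (hA : Enc E A' t) (hB : Enc E B' b)
    (hC : Enc E C' x) (hf : p.Fit true N0 x) (ht : fdPy tt p Sa h A' B' C' = true) (t0 : 0 ≤ t) (b0 : 0 ≤ b)
    (v0 : 0 ≤ dgvt.v t b) (c1 : b ≤ Sa.ch.v t) (hs : p.sv.v (dgs.v t b) ≤ 0)
    (c2 : t * (Sa.ch.v t - b) ≤ p.x11.v (dgy1.v t b) - p.x01.v (dgy1.v t b))
    (G : TgOk tt true p (thN Sa) Sa t b x) : IneqPD N0 p Sa t b x := by
  unfold fdPy at ht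
  rcases tst_true ht with h1 | h1
  · exfalso
    simp only [List.mem_cons, List.not_mem_nil, or_false] at h1
    rcases h1 with h1 | h1 | h1 | h1
    · have := ppos_sound (dgxn.enc hA hB) h1.symm
      rw [dgxn_v] at this
      linarith
    · have := ppos_sound ((dgxP Sa).enc hA hB) h1.symm
      rw [dgxP_v] at this
      linarith
    · have := ppos_sound ((dgxs p).enc hA hB) h1.symm
      rw [dgxs_v] at this
      linarith
    · have := ppos_sound ((dgxX p Sa).enc hA hB) h1.symm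
      rw [dgxX_v] at this
      linarith
  · intro lv sg bd
    obtain ⟨d, hd⟩ := h1 lv sg bd
    rcases op4_true hd with k | k | k | k
    · left
      obtain ⟨k1, k2⟩ := band_true k
      obtain ⟨k2, k3⟩ := band_true k2
      have m1 := tz_sound k1 hC
      have m2 := (ppos_sound ((a1F true lv sg bd p (thN Sa)).enc hA hB hC) k2).le
      have m3 := pnn_sound ((QPF true lv sg bd p).enc hA hB hC) k3
      exact add_nonneg (add_nonneg (mul_nonneg b0 m1) (mul_nonneg t0 m2))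
        (mul_nonneg (by linarith) m3)
    · left
      have m := ppos_sound ((SPF true lv sg bd p Sa (thN Sa)).enc hA hB hC) k
      rw [SPF_v] at m
      exact m.le
    · cases tt
      · exact absurd k (by simp)
      · left
        obtain ⟨-, g2, g3, g4, g5, g6, g7, g8, g9⟩ := G rfl
        obtain ⟨sa, mp, cp, cm, s1, s2, s3, s4, V⟩ := ts_enc g2 g7 g8 hA hB hC
        have m := ppos_sound ((TPF lv sg bd p (thN Sa)).enc hA hB hC s1 s2 s3 s4) k
        rw [TPF_v] at m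
        rw [a1_tight g2 g3 g4 g5 g6 g7 V, cond_true, mul_zero, zero_add, g9]
        rw [g9] at c1
        have := mul_nonneg (by linarith : (0 : ℝ) ≤ 1 - b) m.le
        linarith
    · cases bd
      · rw [cond_false] at k
        right
        have m := ppos_sound ((QzPF lv sg p Sa (thN Sa)).enc hA hB hC) k
        exact ⟨rfl, exF_zP (N0 := N0) hf t0 lv sg m⟩
      · exact absurd k (by simp)

end

section

variable {n : ℕ} {P : Pos n} {RK RL RU RC : Fin (n + 1) → ℕ → ℝ → ℝ → ℝ} {pc : ℕ → Piece} {p : Pm}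
  {q : Pu} {T : Th} {V : Tu} {tt : Bool} {N0 D D3 W1 W2 P3 W3 : ℕ}
  {x κ y y' t b e mo Tv TL : ℝ}
  {i : Fin n} {j k m : Fin (n + 1)} {A B : Sd} {G H' : Su} {M : NdU} {C : CvP} {K : Fn2}

theorem PtOk.tBD (h : PtOk P RK RL true N0 p D D3 x y y' t b) {j k : Fin (n + 1)}
    (hA : SdOk P RK RL p A k D3 x) (hC : CvOk P RK RL p p.cv j D x)
    (c1 : crv P 0 2 y' ≤ c1n y - crv P k 3 (y + y'))
    (c2 : c1n y - crv P k 3 (y + y') ≤ crv P j 2 y')
    (l1 : Lin (crv P 0 2 y') (crv P j 2 y') (RK 0 2 y' x) (RK j 2 y' x)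
      (c1n y - crv P k 3 (y + y')) Tv)
    (l2 : Lin (crv P 0 2 y') (crv P j 2 y') (RL 0 2 y' x) (RL j 2 y' x)
      (c1n y - crv P k 3 (y + y')) TL)
    (H : IneqBD N0 p A t b x) :
    Con12 true N0 .npn y y' x (c1n y) (crv P k 3 (y + y')) (RK 0 1 y x) (-Tv)
      (RK k 3 (y + y') x) (RL 0 1 y x) (-TL) (RL k 3 (y + y') x) := by
  obtain ⟨g, f, TT, x0, x1, q1, q2, q3, i1, i2, i3, hD, hD3⟩ := id h
  obtain ⟨a1, a2, a3⟩ := hA q3 i3 g.tt g.t0
  have hv : dgv.v t b = t * dgvt.v t b := dgv_v t b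
  have ev : y' = 1 + dgv.v t b := by rw [hv]; exact g.ey'
  have v0 : 0 ≤ dgv.v t b := by linarith [q2.1]
  have v1 : dgv.v t b < (D : ℝ) / S := by
    have := (abs_lt.1 i2).2
    linarith
  obtain ⟨k1, k2⟩ := TT.q2 v0 v1 hD
  obtain ⟨m1, m2, m3⟩ := hC v0 v1
  have m4 := dgxi_v v0 (by linarith)
  rw [← ev] at k1 k2 m1 m2 m3 m4
  have m2' : RK j 2 y' x = p.c0.v x / 2 + dgv.v t b * (dgK2c p).v (dgv.v t b) x := by
    have e : (dgK2c p).v (dgv.v t b) x = p.cv.Bs.v (dgv.v t b) x / 2 -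
      p.cv.xs.v (dgv.v t b) * (p.c0.v x + dgv.v t b * p.cv.Bs.v (dgv.v t b) x) := by
      simp only [dgK2c]
    rw [m2, e]
    ring
  have m3' : RL j 2 y' x = dgv.v t b * (dgL2c p).v (dgv.v t b) x := by
    have e : (dgL2c p).v (dgv.v t b) x = (1 / 2 - dgv.v t b * p.cv.xs.v (dgv.v t b)) *
      p.cv.sX.v (dgv.v t b) x := by
      simp only [dgL2c]
      push_cast
      ring
    rw [m3, e]
    ring
  have r1 := slope_aux k1 m2' (crv0q.trans m4) m1 c1 c2 l1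
  have r2 := slope_aux (c := 0) (by rw [zero_add]; exact k2) (by rw [zero_add]; exact m3')
    (crv0q.trans m4) m1 c1 c2 l2
  have hZ : c1n y - crv P k 3 (y + y') - crv P 0 2 y' = t * (b - A.ch.v t) := by
    rw [a1, crv0q]
    have := g.tb
    linear_combination this
  rw [hZ] at r1 r2
  have eG : (dgG p).v t b x = ((dgK2c p).v (dgv.v t b) x - (dgK0c p).v (dgv.v t b) x) *
    (dgxi.v (dgv.v t b) - p.cv.xs.v (dgv.v t b))⁻¹ := rfl
  have eg : (dggL p).v t b x = ((dgL2c p).v (dgv.v t b) x - (dgL0c p).v (dgv.v t b) x) *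
    (dgxi.v (dgv.v t b) - p.cv.xs.v (dgv.v t b))⁻¹ := rfl
  rw [← eG] at r1
  rw [← eg] at r2
  obtain ⟨dl, hdl⟩ : ∃ dl, dl = b - A.ch.v t := ⟨_, rfl⟩
  rw [← hdl] at r1 r2
  have O : (datB true N0 p (thN A) t b x dl).Ok (ken (datB true N0 p (thN A) t b x dl).x) :=
    PtOk.ok (T := thN A) (dl := dl) h
  have ey : (datB true N0 p (thN A) t b x dl).y = y := g.ey.symm
  have ey' : (datB true N0 p (thN A) t b x dl).y' = y' := g.ey'.symm
  have R2' := g.R2 TT q2 i2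
  have L2' := g.L2 TT q2 i2
  have R1 : (datB true N0 p (thN A) t b x dl).R1 = RK 0 1 y x := by
    rw [g.R1 TT q1 i1]
    simp only [datB, dat, Dat.R1]
    ring
  have R2 : (datB true N0 p (thN A) t b x dl).R2 = -Tv := by
    rw [r1]
    simp only [datB, dat, Dat.R2, Dat.r2]
    linear_combination -R2'
  have eR : (thN A).r.v t b x = A.r.v t x := rfl
  have eL : (thN A).l.v t b x = A.l.v t x := rfl
  have hb : b = dl + A.ch.v t := by linarith
  have R3 : (datB true N0 p (thN A) t b x dl).R3 = RK k 3 (y + y') x := by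
    rw [a2]
    simp only [datB, dat, Dat.R3, eR]
    linear_combination t * (p.c0.v x / 2) * hb
  have L1 : (datB true N0 p (thN A) t b x dl).L1 = RL 0 1 y x := by
    rw [g.L1 TT q1 i1]
    simp only [datB, dat, Dat.L1, Dat.a1c]
    ring
  have L2 : (datB true N0 p (thN A) t b x dl).L2 = -TL := by
    rw [r2]
    simp only [datB, dat, Dat.L2, Dat.a2c]
    linear_combination -L2'
  have L3 : (datB true N0 p (thN A) t b x dl).L3 = RL k 3 (y + y') x := by
    rw [a3]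
    simp only [datB, dat, Dat.L3, Dat.a3c, eL, dga3c]
    push_cast
    linear_combination t * (-(p.mb.v x * 2 + p.ma.v x) / 2) * hb
  have hex : (datB true N0 p (thN A) t b x dl).ex =
      exn' (c1n y) (crv P k 3 (y + y')) y (y + y') := by
    unfold exn'
    have e := g.ex
    have ey2 := g.ey
    rw [a1]
    simp only [datB, dat, Dat.ex]
    linear_combination -e - (t * y / 2) * hb - t * dl / 2 * ey2
  have hr : 0 < (datB true N0 p (thN A) t b x dl).t ^ 2 * (datB true N0 p (thN A) t b x dl).g := by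
    show 0 < t ^ 2 * dgg.v t
    rw [dgg_v]
    have := g.t0
    have := gv_pos (t := t)
    positivity
  have HF : ∀ lv sg bd, 0 ≤ (datB true N0 p (thN A) t b x dl).F lv sg bd ∨
      (bd = false ∧ (datB true N0 p (thN A) t b x dl).ExF lv sg) := by
    intro lv sg bd
    rcases H lv sg bd with h1 | h1
    · left
      have e0 := a0F_v f (thN A) t b dl 0 ((dgG p).v t b x) (-(p.c0.v x / 2)) 0 ((dggL p).v t b x)
        (-(dga3c p).v x) ((1 - t * dgst.v t b) / 2) sg bd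
      have e1 := a1F_v f (thN A) t b dl 0 ((dgG p).v t b x) (-(p.c0.v x / 2)) 0
        ((dggL p).v t b x) (-(dga3c p).v x) ((1 - t * dgst.v t b) / 2) lv sg bd
      have e2 := QBF_v f (thN A) t b dl lv sg bd
      unfold Dat.F
      rw [← e2]
      change (datB true N0 p (thN A) t b x dl).a0 sg bd = _ at e0
      change _ = (datB true N0 p (thN A) t b x dl).a1 lv sg bd at e1
      rw [e0, ← e1]
      refine h1.trans (le_of_eq ?_)
      rw [← hdl]
      rfl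
    · right
      rw [hdl]
      exact h1
  have k := Dat.conD O hr (X12 := c1n y) (X13 := crv P k 3 (y + y')) (by rw [ey, ey']; exact hex) HF
  rw [R1, R2, R3, L1, L2, L3, ey, ey'] at k
  exact k

theorem PtOk.tPD (h : PtOk P RK RL true N0 p D D3 x y y' t b) {j k : Fin (n + 1)}
    (hA : SdOk P RK RL p A k D3 x) (hC : P1Ok P RK RL p j D x)
    (l1 : Lin (crv P 0 1 y) (crv P j 1 y) (RK 0 1 y x) (RK j 1 y x)
      (c1n y' + crv P k 3 (y + y')) Tv)
    (l2 : Lin (crv P 0 1 y) (crv P j 1 y) (RL 0 1 y x) (RL j 1 y x)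
      (c1n y' + crv P k 3 (y + y')) TL)
    (H : IneqPD N0 p A t b x) :
    Con12 true N0 .pnn y' y x (c1n y') (-crv P k 3 (y + y')) (RK 0 2 y' x) (-Tv)
      (-RK k 3 (y + y') x) (RL 0 2 y' x) (-TL) (-RL k 3 (y + y') x) := by
  obtain ⟨g, f, TT, x0, x1, q1, q2, q3, i1, i2, i3, hD, hD3⟩ := id h
  obtain ⟨a1, a2, a3⟩ := hA q3 i3 g.tt g.t0
  have ey1 : dgy1.v t b = y := by
    rw [g.ey]
    simp only [dgy1, dgs]
    push_cast
    ring
  have eG : (dgG1 p).v t b x = (p.K11.v (dgy1.v t b) x - p.K01.v (dgy1.v t b) x) *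
    (p.x11.v (dgy1.v t b) - p.x01.v (dgy1.v t b))⁻¹ := rfl
  have eg : (dggL1 p).v t b x = (p.L11.v (dgy1.v t b) x - p.L01.v (dgy1.v t b) x) *
    (p.x11.v (dgy1.v t b) - p.x01.v (dgy1.v t b))⁻¹ := rfl
  rw [ey1, ← hC.k1 q1 i1, ← hC.k0 q1 i1, ← hC.x1 q1 i1, ← hC.x0 q1 i1] at eG
  rw [ey1, ← hC.l1 q1 i1, ← hC.l0 q1 i1, ← hC.x1 q1 i1, ← hC.x0 q1 i1] at eg
  have hZ : c1n y' + crv P k 3 (y + y') - crv P 0 1 y = t * (A.ch.v t - b) := by
    rw [a1, crv0q]
    have := g.tb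
    linear_combination -this
  unfold Lin at l1 l2
  rw [hZ, div_eq_mul_inv, crv0q] at l1 l2
  have r1 : Tv = RK 0 1 y x + (dgG1 p).v t b x * (t * (A.ch.v t - b)) := by
    rw [l1, eG]
    ring
  have r2 : TL = RL 0 1 y x + (dggL1 p).v t b x * (t * (A.ch.v t - b)) := by
    rw [l2, eg]
    ring
  obtain ⟨dl, hdl⟩ : ∃ dl, dl = A.ch.v t - b := ⟨_, rfl⟩
  rw [← hdl] at r1 r2
  have O : (datP true N0 p (thN A) t b x dl).Ok (ken (datP true N0 p (thN A) t b x dl).x) :=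
    PtOk.ok (T := thN A) (dl := dl) h
  have ey : (datP true N0 p (thN A) t b x dl).y = y := g.ey.symm
  have ey' : (datP true N0 p (thN A) t b x dl).y' = y' := g.ey'.symm
  have R1' := g.R1 TT q1 i1
  have L1' := g.L1 TT q1 i1
  have R1 : (datP true N0 p (thN A) t b x dl).R1 = Tv := by
    rw [r1]
    simp only [datP, dat, Dat.R1]
    linear_combination -R1'
  have R2 : (datP true N0 p (thN A) t b x dl).R2 = -RK 0 2 y' x := by
    rw [g.R2 TT q2 i2]
    simp only [datP, dat, Dat.R2, Dat.r2]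
    ring
  have eR : (thN A).r.v t b x = A.r.v t x := rfl
  have eL : (thN A).l.v t b x = A.l.v t x := rfl
  have hb : A.ch.v t = dl + b := by linarith
  have R3 : (datP true N0 p (thN A) t b x dl).R3 = RK k 3 (y + y') x := by
    rw [a2]
    simp only [datP, dat, Dat.R3, eR]
    linear_combination -t * (p.c0.v x / 2) * hb
  have L1 : (datP true N0 p (thN A) t b x dl).L1 = TL := by
    rw [r2]
    simp only [datP, dat, Dat.L1, Dat.a1c]
    linear_combination -L1'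
  have L2 : (datP true N0 p (thN A) t b x dl).L2 = -RL 0 2 y' x := by
    rw [g.L2 TT q2 i2]
    simp only [datP, dat, Dat.L2, Dat.a2c]
    ring
  have L3 : (datP true N0 p (thN A) t b x dl).L3 = RL k 3 (y + y') x := by
    rw [a3]
    simp only [datP, dat, Dat.L3, Dat.a3c, eL, dga3c]
    push_cast
    linear_combination -t * (-(p.mb.v x * 2 + p.ma.v x) / 2) * hb
  have hex : (datP true N0 p (thN A) t b x dl).ex =
      exn' (c1n y') (-crv P k 3 (y + y')) y' (y' + y) := by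
    unfold exn'
    have e := g.ex
    have ey2 := g.ey'
    have e3 := g.tb
    rw [a1]
    simp only [datP, dat, Dat.ex]
    linear_combination -e - (t * y' / 2) * hb - t * dl / 2 * ey2 + (y + y') / 2 * e3
  have hr : 0 < (datP true N0 p (thN A) t b x dl).t ^ 2 * (datP true N0 p (thN A) t b x dl).g := by
    show 0 < t ^ 2 * dgg.v t
    rw [dgg_v]
    have := g.t0
    have := gv_pos (t := t)
    positivity
  have HF : ∀ lv sg bd, 0 ≤ (datP true N0 p (thN A) t b x dl).F lv sg bd ∨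
      (bd = false ∧ (datP true N0 p (thN A) t b x dl).ExF lv sg) := by
    intro lv sg bd
    rcases H lv sg bd with h1 | h1
    · left
      have e0 := a0F_v f (thN A) t b dl ((dgG1 p).v t b x) 0 (p.c0.v x / 2) ((dggL1 p).v t b x) 0
        ((dga3c p).v x) ((1 + t * dgvt.v t b) / 2) sg bd
      have e1 := a1F_v f (thN A) t b dl ((dgG1 p).v t b x) 0 (p.c0.v x / 2)
        ((dggL1 p).v t b x) 0 ((dga3c p).v x) ((1 + t * dgvt.v t b) / 2) lv sg bd
      have e2 := QPF_v f (thN A) t b dl lv sg bd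
      unfold Dat.F
      rw [← e2]
      change (datP true N0 p (thN A) t b x dl).a0 sg bd = _ at e0
      change _ = (datP true N0 p (thN A) t b x dl).a1 lv sg bd at e1
      rw [e0, ← e1]
      refine h1.trans (le_of_eq ?_)
      rw [← hdl]
      rfl
    · right
      rw [hdl]
      exact h1
  have k := Dat.conD' O hr (X12 := c1n y') (X13 := -crv P k 3 (y + y'))
    (by rw [ey, ey']; exact hex) HF
  rw [R1, R2, R3, L1, L2, L3, ey, ey', neg_neg, neg_neg] at k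
  exact k

/-- The certificate of a node, type `B`. -/
structure CtBy (P : Pos n) (RK RL : Fin (n + 1) → ℕ → ℝ → ℝ → ℝ) (tt : Bool) (p : Pm) (A : Sd)
    (k : Fin (n + 1)) (i : Fin n) (D D3 W1 W2 P3 W3 : ℕ) (x : ℝ) : Prop where
  sa : SdOk P RK RL p A k D3 x
  cv : CvOk P RK RL p p.cv i.succ D x
  bt : Bt tt true p (thN A) A x
  i0 : i.castSucc = 0
  ρ1 : P.ρ i.succ ≤ 1
  sv : ∀ u, p.sv.v u = u - (D : ℝ) / S
  w1 : 3 * D3 * 1073741824 ≤ W1 ^ 2
  w2 : 2684354560 ≤ W2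
  hx : (P3 : ℝ) / S ≤ x
  hx' : x ≤ ((P3 : ℝ) + W3) / S
  ct : ∃ t, chk3 (onCell 0 W1 0 W2 P3 W3 (fdBy tt p A)) t 1 1 1 = true

theorem CtBy.ineq (H : Bs P RK RL pc true N0 p D D3 x)
    (C : CtBy P RK RL tt p A k i D D3 W1 W2 P3 W3 x)
    (h : PtOk P RK RL true N0 p D D3 x y y' (c3n (y + y')) b)
    (hv : y' - 1 ≤ 2 / 3 * c3n (y + y'))
    (c1 : crv P 0 2 y' ≤ c1n y - crv P k 3 (y + y'))
    (c2 : c1n y - crv P k 3 (y + y') ≤ crv P i.succ 2 y') :
    IneqBD N0 p A (c3n (y + y')) b x := by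
  have hb := rangeB H h hv
  obtain ⟨g, f, -, x0, x1, q1, q2, q3, i1, i2, i3, -, -⟩ := id h
  have t0 := g.t0
  obtain ⟨a1, -, -⟩ := C.sa q3 i3 rfl t0
  have e := g.tb
  have ev := g.ey'
  have es := g.ey
  have v0 := g.v0 q2.1
  have hvv := dgv_v (c3n (y + y')) b
  have hss := dgs_v (c3n (y + y')) b
  have D2 := (abs_lt.1 i2).2
  have D1 := (abs_lt.1 i1).1
  have hD := H.hD
  have hv1 : dgv.v (c3n (y + y')) b = y' - 1 := by
    rw [hvv]
    linarith
  have key := cert12 (Q := fun t b x => p.Fit true N0 x → 0 ≤ t → 0 ≤ b → 0 ≤ dgvt.v t b → A.ch.v t ≤ b →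
    dgvt.v t b ≤ 2 / 3 → b - A.ch.v t ≤ dgvt.v t b * (dgxi.v (dgv.v t b) -
      p.cv.xs.v (dgv.v t b)) → p.sv.v (dgv.v t b) ≤ 0 → p.sv.v (dgs.v t b) ≤ 0 →
    TgOk tt true p (thN A) A t b x → IneqBD N0 p A t b x)
    (f := fdBy tt p A)
    (fun hA hB hC h hf t0 b0 v0 c1 v1 c2 hv hs G => fdBy_sound hA hB hC hf h t0 b0 v0 c1 v1 c2 hv hs G)
    C.ct t0.le (range_t q3 i3 C.w1) g.b0 (range_5 hb C.w2) C.hx C.hx'
  obtain ⟨m1, -, -⟩ := C.cv (v := y' - 1) (by linarith [q2.1]) D2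
  have m4 := dgxi_v (v := y' - 1) (by linarith [q2.1]) (by linarith)
  rw [show 1 + (y' - 1) = y' by ring] at m1 m4
  refine key f t0.le g.b0 v0 ?_ ?_ ?_ ?_ ?_ (C.bt.ok g)
  · rw [crv0q, a1] at c1
    refine le_of_mul_le_mul_left ?_ t0
    linarith
  · refine le_of_mul_le_mul_left ?_ t0
    linarith
  · rw [a1, m1] at c2
    refine le_of_mul_le_mul_left ?_ t0
    rw [hv1]
    have e5 : c3n (y + y') * dgvt.v (c3n (y + y')) b = y' - 1 := by linarith
    linear_combination c2 - e - m4 + (dgxi.v (y' - 1) - p.cv.xs.v (y' - 1)) * 0 * e5 -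
      (dgxi.v (y' - 1) - p.cv.xs.v (y' - 1)) * e5
  · rw [C.sv, hv1]
    linarith
  · rw [C.sv, hss]
    linarith

/-- **Type `B`.** -/
theorem sgB1y (H : Bs P RK RL pc true N0 p D D3 x)
    (C : CtBy P RK RL tt p A k i D D3 W1 W2 P3 W3 x) :
    Sg12Bl P RK RL true N0 .npn 1 2 0 k true i D D3 x := by
  intro y y' F hi hv c1 c2
  have len1 := F.len1
  have len3 := F.len3
  have eX : sgb true * crv P k 3 (y + y') - 1 * crv P 0 1 y =
      crv P k 3 (y + y') - crv P 0 1 y := by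
    show 1 * crv P k 3 (y + y') - 1 * crv P 0 1 y = _
    ring
  rw [eX] at len1 len3
  simp only [sgr, cond_true] at c1 c2 ⊢
  have en : crv P 0 1 y - crv P k 3 (y + y') = sgr false (crv P k 3 (y + y') - crv P 0 1 y) := by
    show _ = -(_ - _)
    ring
  have c1' := c1
  have c2' := c2
  rw [en] at c1' c2'
  have tK := third_lin H.side.pinK F.q2 len1 len3 false i c1' c2'
  have tL := third_lin H.side.pinL F.q2 len1 len3 false i c1' c2'
  rw [← en] at tK tL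
  rw [C.i0] at c1 tK tL
  rw [crv0q (q := 1)] at tK tL c2 c1
  rw [crv0q (q := 1)]
  have hv' : y' - 1 ≤ 2 / 3 * c3n (y + y') := hv
  have t0 : 0 < c3n (y + y') := by
    have h1 := half_lt_c1 (y := y) (by linarith [F.q1.1]) F.q1.2
    have h2 := crv2_le_half C.ρ1 (P.nonneg _) F.q2
    have h3 : crv P k 3 (y + y') ≤ c3n (y + y') := crv_le F.q3 _
    linarith
  have h := H.pt F.q1 F.q2 F.q3 hi t0
  have k := h.tBD (j := i.succ) C.sa C.cv c1 c2 tK tL (C.ineq H h hv' c1 c2)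
  have e4 : ∀ z : ℝ, -sgr false z = z := fun z => by
    show - -z = z
    ring
  rw [e4, e4] at k
  exact k

/-- The certificate of a node, type `P`. -/
structure CtPy (P : Pos n) (RK RL : Fin (n + 1) → ℕ → ℝ → ℝ → ℝ) (tt : Bool) (p : Pm) (A : Sd)
    (k : Fin (n + 1)) (i : Fin n) (D D3 W1 W2 P3 W3 : ℕ) (x : ℝ) : Prop where
  sa : SdOk P RK RL p A k D3 x
  cv : P1Ok P RK RL p i.succ D x
  bt : Bt tt true p (thN A) A x
  i0 : i.castSucc = 0
  sv : ∀ u, p.sv.v u = u - (D : ℝ) / S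
  w1 : 3 * D3 * 1073741824 ≤ W1 ^ 2
  w2 : 1073741824 ≤ W2
  hx : (P3 : ℝ) / S ≤ x
  hx' : x ≤ ((P3 : ℝ) + W3) / S
  ct : ∃ t, chk3 (onCell 0 W1 0 W2 P3 W3 (fdPy tt p A)) t 1 1 1 = true

theorem CtPy.ineq (C : CtPy P RK RL tt p A k i D D3 W1 W2 P3 W3 x)
    (h : PtOk P RK RL true N0 p D D3 x y y' (c3n (y + y')) b)
    (c1 : c1n y ≤ c1n y' + crv P k 3 (y + y'))
    (c2 : c1n y' + crv P k 3 (y + y') ≤ crv P i.succ 1 y) :
    IneqPD N0 p A (c3n (y + y')) b x := by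
  obtain ⟨g, f, -, x0, x1, q1, q2, q3, i1, i2, i3, -, -⟩ := id h
  have t0 := g.t0
  obtain ⟨a1, -, -⟩ := C.sa q3 i3 rfl t0
  have e := g.tb
  have es := g.ey
  have v0 := g.v0 q2.1
  have hss := dgs_v (c3n (y + y')) b
  have D1 := (abs_lt.1 i1).1
  have hk : crv P k 3 (y + y') ≤ c3n (y + y') := crv_le q3 _
  rw [a1] at hk
  have hch : A.ch.v (c3n (y + y')) ≤ 1 := by
    by_contra hc
    push Not at hc
    nlinarith
  have hb1 : b ≤ A.ch.v (c3n (y + y')) := by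
    refine le_of_mul_le_mul_left ?_ t0
    rw [a1] at c1
    linarith
  have ey1 : dgy1.v (c3n (y + y')) b = y := by
    have : dgy1.v (c3n (y + y')) b = 1 - dgs.v (c3n (y + y')) b := by
      simp only [dgy1]
      push_cast
      ring
    rw [this, hss]
    linarith
  have key := cert12 (Q := fun t b x => p.Fit true N0 x → 0 ≤ t → 0 ≤ b → 0 ≤ dgvt.v t b → b ≤ A.ch.v t →
    p.sv.v (dgs.v t b) ≤ 0 → t * (A.ch.v t - b) ≤ p.x11.v (dgy1.v t b) - p.x01.v (dgy1.v t b) →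
    TgOk tt true p (thN A) A t b x → IneqPD N0 p A t b x)
    (f := fdPy tt p A)
    (fun hA hB hC h hf t0 b0 v0 c1 hs c2 G => fdPy_sound hA hB hC hf h t0 b0 v0 c1 hs c2 G)
    C.ct t0.le (range_t q3 i3 C.w1) g.b0 (range_1 (hb1.trans hch) C.w2) C.hx C.hx'
  refine key f t0.le g.b0 v0 hb1 ?_ ?_ (C.bt.ok g)
  · rw [C.sv, hss]
    linarith
  · rw [ey1, ← C.cv.x1 q1 i1, ← C.cv.x0 q1 i1]
    rw [a1] at c2
    rw [mul_sub]
    linarith

/-- **Type `P`.** -/
theorem sgP1y (H : Bs P RK RL pc true N0 p D D3 x)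
    (C : CtPy P RK RL tt p A k i D D3 W1 W2 P3 W3 x) :
    Sg12B P RK RL true N0 .pnn 2 1 0 k false i D D3 x := by
  intro y y' F hi c1 c2
  have len1 := F.len1
  have len3 := F.len3
  have eX : sgb false * crv P k 3 (y + y') - 1 * crv P 0 2 y =
      sgr false (crv P k 3 (y + y')) - crv P 0 2 y := by
    show -1 * crv P k 3 (y + y') - 1 * crv P 0 2 y = -crv P k 3 (y + y') - _
    ring
  rw [eX] at len1 len3
  have en : crv P 0 2 y - sgr false (crv P k 3 (y + y')) =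
      sgr false (sgr false (crv P k 3 (y + y')) - crv P 0 2 y) := by
    show _ = -(_ - _)
    ring
  have c1' := c1
  have c2' := c2
  rw [en] at c1' c2'
  have tK := third_lin H.side.pinK F.q2 len1 len3 false i c1' c2'
  have tL := third_lin H.side.pinL F.q2 len1 len3 false i c1' c2'
  rw [← en] at tK tL
  rw [C.i0] at c1 tK tL
  have ez : crv P 0 2 y - sgr false (crv P k 3 (y + y')) = c1n y + crv P k 3 (y + y') := by
    rw [crv0q]
    show _ - -_ = _
    ring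
  rw [ez] at c1 c2 tK tL
  have q3 : InQ 3 (y' + y) := by rw [add_comm]; exact F.q3
  have hi' : In12 D D3 y' y := ⟨hi.2.1, hi.1, by rw [add_comm]; exact hi.2.2⟩
  rw [add_comm y y'] at c1 c2 tK tL ⊢
  have hk : crv P k 3 (y' + y) ≤ c3n (y' + y) := crv_le q3 _
  rw [crv0q] at c1
  have t0 : 0 < c3n (y' + y) := by
    have h1 := half_lt_c1 (y := y') (by linarith [F.q2.1]) F.q2.2
    have h2 := c1_le_half F.q1.1
    linarith
  have h := H.pt F.q2 F.q1 q3 hi' t0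
  have k := h.tPD (j := i.succ) (k := k) C.sa C.cv tK tL (C.ineq h c1 c2)
  have e4 : ∀ z : ℝ, -sgr false z = z := fun z => by
    show - -z = z
    ring
  rw [e4, e4] at k
  rw [crv0q] at k ⊢
  exact k

end

end Pool.Agent.Strip051.PB.Dg
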