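import Pool.Agent.Strip051.PB.FactC

/-! # Boundedness tests with a larger constant -/

namespace Pool.Agent.Strip051.PB

/-- the test `|F| < 256` -/
noncomputable def bndM (F : Fn2) (_ A _ C : ℕ) : Bool :=
  band (ppos (psub (pnat 256 pone) (F.t A C))) (ppos (padd (F.t A C) (pnat 256 pone)))

theorem bndM_sound {F : Fn2} {P1 W1 P3 W3 : ℕ}
    (ht : ∃ t, chk3 (onCell P1 W1 0 0 P3 W3 (bndM F)) t 1 1 1 = true) {p x : ℝ}
    (hp : (P1 : ℝ) / S ≤ p) (hp' : p ≤ ((P1 : ℝ) + W1) / S)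
    (hx : (P3 : ℝ) / S ≤ x) (hx' : x ≤ ((P3 : ℝ) + W3) / S) : |F.v p x| ≤ 256 := by
  have key := onCell_sound (Q := fun p _ x => |F.v p x| ≤ 256) ?_ ht hp hp' (q := 0)
    (by norm_num) (by norm_num) hx hx'
  · exact key
  · intro E h A B C p q x h1 _ h3 hl
    obtain ⟨k1, k2⟩ := band_true hl
    have e := F.enc h1 h3
    have c := enc_nat 256 (enc_one E)
    have g1 := ppos_sound (enc_sub c e) k1
    have g2 := ppos_sound (enc_add e c) k2
    push_cast at g1 g2
    rw [abs_le]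
    constructor <;> linarith

end Pool.Agent.Strip051.PB
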