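import Pool.Agent.Strip051.PB.StripYX

/-! # The reflection in the heights -/

namespace Pool.Agent.Strip051.PB

open Pool.Agent.StripNear Pool.Agent.StripSquare Pool.Agent.Strip051.Sweep
open Pool.Agent.Strip051.LC
open Pool.Agent.Strip051.LC.Line (D mn jn tau mn_symm mn_shift mn_mirror D_refl D_add_nat)

/-- The flux of the reflected triangle. -/
theorem kf_mirror {κ s : ℝ} (hs0 : 0 ≤ s) (hs1 : s < h0) (r1 r2 r3 t t' z : ℝ) :
    kf κ s (-r2, -r1, -r3) t' t z = kf κ s (r1, r2, r3) t t' (s - z - t - t') := by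
  have hm : ∀ z, D s κ (s - z) = -D s κ z := fun z => D_refl κ hs0 hs1 z
  have sh : ∀ (n : ℕ) a b, mn (D s κ) (a + n * h0) (b + n * h0) = mn (D s κ) a b :=
    fun n a b => mn_shift (fun z => D_add_nat s κ z n) a b
  have key : ∀ c T, mn (D s κ) (s - (c + T)) (s - (c + T) + tau T) =
      -mn (D s κ) c (c + tau T) := by
    intro c T
    have e : s - (c + T) + tau T = s - (c + jn T * h0) := by
      unfold tau
      ring
    have e2 : c + T = c + tau T + jn T * h0 := by
      unfold tau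
      ring
    rw [e, e2, mn_mirror hm, sh, mn_symm]
  unfold kf
  simp only
  have e1 : s - z - t - t' = s - ((z + t') + t) := by ring
  have e2 : s - z - t - t' + t = s - (z + t') := by ring
  have e3 : s - z - t - t' = s - (z + (t + t')) := by ring
  have k1 := key (z + t') t
  have k2 := key z t'
  have k3 := key z (t + t')
  rw [← e1] at k1
  rw [← e2] at k2
  rw [← e3] at k3
  rw [k1, k2, k3, add_comm t' t]
  ring

theorem oddx_negY {f : ℝ → ℝ} {X : ℝ} (h : X ≠ 0) : oddx f (-X) = -oddx f X := by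
  unfold oddx
  rcases lt_or_gt_of_ne h with h' | h'
  · rw [if_neg (by linarith), if_pos h'.le, neg_neg]
  · rw [if_pos (by linarith), if_neg (by linarith), neg_neg]

/-- The statement `V` is invariant under the reflection. -/
def MirV (V : ℝ → ℝ → ℝ → ℝ → ℝ × ℝ × ℝ → ℝ × ℝ × ℝ → Prop) (x : ℝ) : Prop :=
  ∀ y y' e l1 l2 l3 r1 r2 r3, V x y y' e (l1, l2, l3) (r1, r2, r3) →
    V x y' y e (-l2, -l1, -l3) (-r2, -r1, -r3)

theorem mirVF {κ x : ℝ} (h0x : 0 ≤ x) (h1x : x < 1) : MirV (VFD κ) x := by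
  intro y y' e l1 l2 l3 r1 r2 r3 h z
  have hp := h0_pos
  have := h (h0 * x - z - h0 * y - h0 * y')
  rw [kf_mirror (mul_nonneg hp.le h0x) (by nlinarith)]
  have e1 : lvF e (-l2, -l1, -l3) = lvF e (l1, l2, l3) := by
    unfold lvF levF
    simp only
    rw [show -l2 + -l1 - -l3 = -(l1 + l2 - l3) by ring, abs_neg]
  rw [e1]
  exact this

theorem mirVN {κ x : ℝ} {N0 : ℕ} (h0x : 0 ≤ x) (h1x : x < 1) : MirV (VND N0 κ) x := by
  intro y y' e l1 l2 l3 r1 r2 r3 h z
  have hp := h0_pos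
  have := h (h0 * x - z - h0 * y - h0 * y')
  rw [kf_mirror (mul_nonneg hp.le h0x) (by nlinarith)]
  have e1 : lvN N0 0 x y' y e (-l2, -l1, -l3) = lvN N0 0 x y y' e (l1, l2, l3) := by
    unfold lvN levN
    simp only
    have a1 : levn N0 0 x y' y (-l2) (-l1) (-l3) = levm N0 0 x y y' l1 l2 l3 := by
      unfold levn levm
      ring
    have a2 : levm N0 0 x y' y (-l2) (-l1) (-l3) = levn N0 0 x y y' l1 l2 l3 := by
      unfold levn levm
      ring
    rw [a1, a2, min_comm]
  rw [e1]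
  exact this

section

variable {n : ℕ} {D : PV n} {RK RL : Fin (n + 1) → ℕ → ℝ → ℝ → ℝ} {pc : ℕ → Piece}
  {x : ℝ} {a b c : ℕ} {j k : Fin (n + 1)} {σ σ' : ℝ} {s1 s2 : Bool}
  {V : ℝ → ℝ → ℝ → ℝ → ℝ × ℝ × ℝ → ℝ × ℝ × ℝ → Prop}

theorem FactsA.mirror {P : Pos n} {y y' : ℝ} (h : FactsA P b a c k j (-σ') (-σ) y' y) :
    FactsA P a b c j k σ σ' y y' := by
  have e : -σ' * crv P k b y' + -σ * crv P j a y = -(σ * crv P j a y + σ' * crv P k b y') := by
    ring
  have q : ∀ X Y : ℝ, qqn (-X) Y = qqn X Y := fun X Y => by unfold qqn; ring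
  refine ⟨h.q2, h.q1, ?_, ?_, ?_, ?_, h.k0, h.j0⟩
  · have := h.q3
    rwa [add_comm] at this
  · have := h.len1
    rwa [e, q, add_comm y' y] at this
  · have := h.len3
    rwa [e, q, add_comm y' y] at this
  · have := h.exc
    unfold exn' at this ⊢
    linarith

theorem StA_mirror {y y' : ℝ} (hV : MirV V x) (hs : SideV D RK RL pc x)
    (F : FactsA D.P a b c j k σ σ' y y')
    (hX : σ * crv D.P j a y + σ' * crv D.P k b y' ≠ 0)
    (h : StA V D.P RK RL pc a b c j k σ σ' x y y') :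
    StA V D.P RK RL pc b a c k j (-σ') (-σ) x y' y := by
  have e : -σ' * crv D.P k b y' + -σ * crv D.P j a y =
      -(σ * crv D.P j a y + σ' * crv D.P k b y') := by ring
  have q : ∀ X Y : ℝ, qqn (-X) Y = qqn X Y := fun X Y => by unfold qqn; ring
  have tK : (pc c).K.v (-(σ * crv D.P j a y + σ' * crv D.P k b y')) (y + y') x =
      -(pc c).K.v (σ * crv D.P j a y + σ' * crv D.P k b y') (y + y') x := by
    rw [← hs.thK c _ _ F.q3 F.len1 F.len3,
      ← hs.thK c _ _ F.q3 (by rw [q]; exact F.len1) (by rw [q]; exact F.len3)]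
    exact oddx_negY hX
  have tL : (pc c).L.v (-(σ * crv D.P j a y + σ' * crv D.P k b y')) (y + y') x =
      -(pc c).L.v (σ * crv D.P j a y + σ' * crv D.P k b y') (y + y') x := by
    rw [← hs.thL c _ _ F.q3 F.len1 F.len3,
      ← hs.thL c _ _ F.q3 (by rw [q]; exact F.len1) (by rw [q]; exact F.len3)]
    exact oddx_negY hX
  have ex : exA D.P b a k j (-σ') (-σ) y' y = exA D.P a b j k σ σ' y y' := by
    unfold exA exn'
    ring
  unfold StA vlA at h ⊢
  have := hV _ _ _ _ _ _ _ _ _ h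
  beta_reduce at this ⊢
  rw [e, add_comm y' y, tK, tL, ex, neg_mul, neg_mul, neg_mul, neg_mul]
  exact this

/-- **The reflection**: an alternative of the family `A`. -/
theorem AltVA.mirror {l l' : List Cc} (hV : MirV V x) (hs : SideV D RK RL pc x)
    (hl : ∀ y y' X Y, (∀ d ∈ l', d.P x y' y (-X) Y) → ∀ d ∈ l, d.P x y y' X Y)
    (hX : ∀ y y', FactsA D.P a b c j k (sgb s1) (sgb s2) y y' →
      sgb s1 * crv D.P j a y + sgb s2 * crv D.P k b y' ≠ 0)
    (h : AltVA V D RK RL pc l a b c j k (sgb s1) (sgb s2) x) :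
    AltVA V D RK RL pc l' b a c k j (sgb (!s2)) (sgb (!s1)) x := by
  have sn : ∀ s : Bool, sgb (!s) = -sgb s := fun s => by cases s <;> simp [sgb]
  rw [sn, sn]
  intro y' y F r1 r2 hc
  have F' := F.mirror
  refine StA_mirror hV hs F' (hX _ _ F') (h y y' F' r2 r1 (hl _ _ _ _ ?_))
  have e : -sgb s2 * crv D.P k b y' + -sgb s1 * crv D.P j a y =
      -(sgb s1 * crv D.P j a y + sgb s2 * crv D.P k b y') := by ring
  rw [e, add_comm y' y] at hc
  exact hc

/-- **The reflection**: the cut regions of the family `A`. -/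
theorem CutVA.mirror {L L' : List (List Cc)} (hV : MirV V x) (hs : SideV D RK RL pc x)
    (hl : ∀ y y' X Y, (Cut.of L').P x y' y (-X) Y → (Cut.of L).P x y y' X Y)
    (hX : ∀ y y', FactsA D.P a b c j k (sgb s1) (sgb s2) y y' →
      sgb s1 * crv D.P j a y + sgb s2 * crv D.P k b y' ≠ 0)
    (h : CutVA V D RK RL pc (Cut.of L) a b c j k (sgb s1) (sgb s2) x) :
    CutVA V D RK RL pc (Cut.of L') b a c k j (sgb (!s2)) (sgb (!s1)) x := by
  have sn : ∀ s : Bool, sgb (!s) = -sgb s := fun s => by cases s <;> simp [sgb]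
  rw [sn, sn]
  intro y' y F r1 r2 hc
  have F' := F.mirror
  refine StA_mirror hV hs F' (hX _ _ F') (h y y' F' r2 r1 (hl _ _ _ _ ?_))
  have e : -sgb s2 * crv D.P k b y' + -sgb s1 * crv D.P j a y =
      -(sgb s1 * crv D.P j a y + sgb s2 * crv D.P k b y') := by ring
  rw [e, add_comm y' y] at hc
  exact hc

end

end Pool.Agent.Strip051.PB
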