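import Pool.Agent.Strip051.PB.RowX
import Pool.Agent.Strip051.PB.CertV
import Pool.Agent.Strip051.PB.Alt

/-! # From the certificates of the rows near `x = 1` to the triples of quarters

The statements are the direct ones; the rows are needed only at heights where both curves are
nodes (`D.r`). -/

namespace Pool.Agent.Strip051.PB

open Pool.Agent.StripNear Pool.Agent.StripSquare Pool.Agent.Strip051.Sweep
open Pool.Agent.Strip051.LC

section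

variable {n : ℕ}

/-- The node `nd` at the coordinate `p` describes the point of the curve `j` at the height `y`. -/
structure AtX (P : Pos n) (RK RL : Fin (n + 1) → ℕ → ℝ → ℝ → ℝ) (nd : NodeX) (j : Fin (n + 1))
    (q : ℕ) (y p x : ℝ) : Prop where
  Y : nd.Y.v p = y
  X : nd.X.v p x = crv P j q y
  K : nd.K.v p x = RK j q y x
  L : nd.L.v p x = RL j q y x

/-- The node describes the points of the curve at all heights with the property `V`, with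
coordinates in the root interval. -/
def CovX (P : Pos n) (RK RL : Fin (n + 1) → ℕ → ℝ → ℝ → ℝ) (nd : NodeX) (j : Fin (n + 1))
    (q W W' : ℕ) (V : ℝ → Prop) (x : ℝ) : Prop :=
  ∀ y, OnC j q y → V y → ∃ p, AtX P RK RL nd j q y p x ∧ InRt W W' p

variable {D : PV n} {P : Pos n} {RK RL : Fin (n + 1) → ℕ → ℝ → ℝ → ℝ}
  {j k : Fin (n + 1)} {a b c : ℕ} {s1 s2 : Bool} {x y y' p p' κ : ℝ} {cn : Con} {pc : ℕ → Piece}
  {n1 n2 : NodeX}

/-- The values of the family `A`. -/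
theorem valX_A (A1 : AtX P RK RL n1 j a y p x) (A2 : AtX P RK RL n2 k b y' p' x) :
    valX true s1 s2 n1 n2 (pc c) p p' x =
      ⟨x, y, y', sgb s1 * crv P j a y + sgb s2 * crv P k b y', y + y',
        exA P a b j k (sgb s1) (sgb s2) y y',
        (vlA P RK (fun q => (pc q).K.v) a b c j k (sgb s1) (sgb s2) x y y').1,
        (vlA P RK (fun q => (pc q).K.v) a b c j k (sgb s1) (sgb s2) x y y').2.1,
        (vlA P RK (fun q => (pc q).K.v) a b c j k (sgb s1) (sgb s2) x y y').2.2,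
        (vlA P RL (fun q => (pc q).L.v) a b c j k (sgb s1) (sgb s2) x y y').1,
        (vlA P RL (fun q => (pc q).L.v) a b c j k (sgb s1) (sgb s2) x y y').2.1,
        (vlA P RL (fun q => (pc q).L.v) a b c j k (sgb s1) (sgb s2) x y y').2.2⟩ := by
  unfold valX vlA exA exn'
  simp only [A1.Y, A2.Y, A1.X, A2.X, A1.K, A2.K, A1.L, A2.L, sgr_eq]
  congr 1
  ring

/-- The values of the family `B`. -/
theorem valX_B (A1 : AtX P RK RL n1 j a y p x) (A2 : AtX P RK RL n2 k c (y + y') p' x) :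
    valX false s1 s2 n1 n2 (pc b) p p' x =
      ⟨x, y, y', sgb s2 * crv P k c (y + y') - sgb s1 * crv P j a y, y',
        exB P a c j k (sgb s1) (sgb s2) y y',
        (vlB P RK (fun q => (pc q).K.v) a b c j k (sgb s1) (sgb s2) x y y').1,
        (vlB P RK (fun q => (pc q).K.v) a b c j k (sgb s1) (sgb s2) x y y').2.1,
        (vlB P RK (fun q => (pc q).K.v) a b c j k (sgb s1) (sgb s2) x y y').2.2,
        (vlB P RL (fun q => (pc q).L.v) a b c j k (sgb s1) (sgb s2) x y y').1,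
        (vlB P RL (fun q => (pc q).L.v) a b c j k (sgb s1) (sgb s2) x y y').2.1,
        (vlB P RL (fun q => (pc q).L.v) a b c j k (sgb s1) (sgb s2) x y y').2.2⟩ := by
  unfold valX vlB exB exn'
  simp only [A1.Y, A2.Y, A1.X, A2.X, A1.K, A2.K, A1.L, A2.L, sgr_eq, add_sub_cancel_left]

/-! ### The data of an interval -/

variable (D RK RL pc) in
/-- The third sides describe the tables at `x`. -/
structure SideV (x : ℝ) : Prop where
  pinK : PinsV D RK x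
  pinL : PinsV D RL x
  thK : ∀ q X y, InQ q y → 1 ≤ qqn X y → qqn X y ≤ 3 → thd D.P RK q X y x = (pc q).K.v X y x
  thL : ∀ q X y, InQ q y → 1 ≤ qqn X y → qqn X y ≤ 3 → thd D.P RL q X y x = (pc q).L.v X y x

theorem SideV.linkK (h : SideV D RK RL pc x) :
    Link D.cur x (tbl RK x) RK (fun q => (pc q).K.v) := h.pinK.link.congr h.thK

theorem SideV.linkL (h : SideV D RK RL pc x) :
    Link D.cur x (tbl RL x) RL (fun q => (pc q).L.v) := h.pinL.link.congr h.thL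

/-- the statement holds in the cut region, family `A` -/
def CutVA (V : ℝ → ℝ → ℝ → ℝ → ℝ × ℝ × ℝ → ℝ × ℝ × ℝ → Prop) (D : PV n)
    (RK RL : Fin (n + 1) → ℕ → ℝ → ℝ → ℝ) (pc : ℕ → Piece) (cut : Cut)
    (a b c : ℕ) (j k : Fin (n + 1)) (σ σ' x : ℝ) : Prop :=
  ∀ y y', FactsA D.P a b c j k σ σ' y y' → D.r j y → D.r k y' →
    cut.P x y y' (σ * crv D.P j a y + σ' * crv D.P k b y') (y + y') →
    StA V D.P RK RL pc a b c j k σ σ' x y y'

/-- the statement holds in the cut region, family `B` -/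
def CutVB (V : ℝ → ℝ → ℝ → ℝ → ℝ × ℝ × ℝ → ℝ × ℝ × ℝ → Prop) (D : PV n)
    (RK RL : Fin (n + 1) → ℕ → ℝ → ℝ → ℝ) (pc : ℕ → Piece) (cut : Cut)
    (a b c : ℕ) (j k : Fin (n + 1)) (σ σ' x : ℝ) : Prop :=
  ∀ y y', FactsB D.P a b c j k σ σ' y y' → D.r j y → D.r k (y + y') →
    cut.P x y y' (σ' * crv D.P k c (y + y') - σ * crv D.P j a y) y' →
    StB V D.P RK RL pc a b c j k σ σ' x y y'

/-- The statement holds where all conditions of the list hold, family `A`. -/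
def AltVA (V : ℝ → ℝ → ℝ → ℝ → ℝ × ℝ × ℝ → ℝ × ℝ × ℝ → Prop) (D : PV n)
    (RK RL : Fin (n + 1) → ℕ → ℝ → ℝ → ℝ) (pc : ℕ → Piece) (l : List Cc)
    (a b c : ℕ) (j k : Fin (n + 1)) (σ σ' x : ℝ) : Prop :=
  ∀ y y', FactsA D.P a b c j k σ σ' y y' → D.r j y → D.r k y' →
    (∀ d ∈ l, d.P x y y' (σ * crv D.P j a y + σ' * crv D.P k b y') (y + y')) →
    StA V D.P RK RL pc a b c j k σ σ' x y y'

/-- The statement holds where all conditions of the list hold, family `B`. -/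
def AltVB (V : ℝ → ℝ → ℝ → ℝ → ℝ × ℝ × ℝ → ℝ × ℝ × ℝ → Prop) (D : PV n)
    (RK RL : Fin (n + 1) → ℕ → ℝ → ℝ → ℝ) (pc : ℕ → Piece) (l : List Cc)
    (a b c : ℕ) (j k : Fin (n + 1)) (σ σ' x : ℝ) : Prop :=
  ∀ y y', FactsB D.P a b c j k σ σ' y y' → D.r j y → D.r k (y + y') →
    (∀ d ∈ l, d.P x y y' (σ' * crv D.P k c (y + y') - σ * crv D.P j a y) y') →
    StB V D.P RK RL pc a b c j k σ σ' x y y'

/-- The further alternative `xt` implies the statement, family `A`. -/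
def ExtVA (V : ℝ → ℝ → ℝ → ℝ → ℝ × ℝ × ℝ → ℝ × ℝ × ℝ → Prop) (D : PV n)
    (RK RL : Fin (n + 1) → ℕ → ℝ → ℝ → ℝ) (pc : ℕ → Piece) (xt : Ext) (n1 n2 : NodeX)
    (a b c : ℕ) (j k : Fin (n + 1)) (σ σ' x : ℝ) : Prop :=
  ∀ y y' p p', FactsA D.P a b c j k σ σ' y y' → D.r j y → D.r k y' →
    AtX D.P RK RL n1 j a y p x → AtX D.P RK RL n2 k b y' p' x → xt.P p p' x →
    StA V D.P RK RL pc a b c j k σ σ' x y y'

/-- The further alternative `xt` implies the statement, family `B`. -/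
def ExtVB (V : ℝ → ℝ → ℝ → ℝ → ℝ × ℝ × ℝ → ℝ × ℝ × ℝ → Prop) (D : PV n)
    (RK RL : Fin (n + 1) → ℕ → ℝ → ℝ → ℝ) (pc : ℕ → Piece) (xt : Ext) (n1 n2 : NodeX)
    (a b c : ℕ) (j k : Fin (n + 1)) (σ σ' x : ℝ) : Prop :=
  ∀ y y' p p', FactsB D.P a b c j k σ σ' y y' → D.r j y → D.r k (y + y') →
    AtX D.P RK RL n1 j a y p x → AtX D.P RK RL n2 k c (y + y') p' x → xt.P p p' x →
    StB V D.P RK RL pc a b c j k σ σ' x y y'

variable {V V' : ℝ → ℝ → ℝ → ℝ → ℝ × ℝ × ℝ → ℝ × ℝ × ℝ → Prop} {σ σ' : ℝ} {l l' : List Cc}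
  {L : List (List Cc)} {cut : Cut} {xt : Ext}

theorem noCut_VA : CutVA V D RK RL pc Cut.none a b c j k σ σ' x :=
  fun _ _ _ _ _ h => (Cut.none_P h).elim

theorem noCut_VB : CutVB V D RK RL pc Cut.none a b c j k σ σ' x :=
  fun _ _ _ _ _ h => (Cut.none_P h).elim

theorem noExt_VA : ExtVA V D RK RL pc Ext.none n1 n2 a b c j k σ σ' x :=
  fun _ _ _ _ _ _ _ _ _ h => h.elim

theorem noExt_VB : ExtVB V D RK RL pc Ext.none n1 n2 a b c j k σ σ' x :=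
  fun _ _ _ _ _ _ _ _ _ h => h.elim

theorem AltVA.sub (h : ∀ d ∈ l, d ∈ l') (H : AltVA V D RK RL pc l a b c j k σ σ' x) :
    AltVA V D RK RL pc l' a b c j k σ σ' x :=
  fun y y' F r1 r2 hd => H y y' F r1 r2 fun d hl => hd d (h d hl)

theorem AltVB.sub (h : ∀ d ∈ l, d ∈ l') (H : AltVB V D RK RL pc l a b c j k σ σ' x) :
    AltVB V D RK RL pc l' a b c j k σ σ' x :=
  fun y y' F r1 r2 hd => H y y' F r1 r2 fun d hl => hd d (h d hl)

theorem cutVA_nil : CutVA V D RK RL pc (Cut.of []) a b c j k σ σ' x := by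
  rintro y y' F r1 r2 ⟨l, h, -⟩
  exact absurd h List.not_mem_nil

theorem cutVB_nil : CutVB V D RK RL pc (Cut.of []) a b c j k σ σ' x := by
  rintro y y' F r1 r2 ⟨l, h, -⟩
  exact absurd h List.not_mem_nil

theorem cutVA_cons (h : AltVA V D RK RL pc l a b c j k σ σ' x)
    (H : CutVA V D RK RL pc (Cut.of L) a b c j k σ σ' x) :
    CutVA V D RK RL pc (Cut.of (l :: L)) a b c j k σ σ' x := by
  rintro y y' F r1 r2 ⟨m, hm, hc⟩
  rcases List.mem_cons.1 hm with rfl | hm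
  · exact h y y' F r1 r2 hc
  · exact H y y' F r1 r2 ⟨m, hm, hc⟩

theorem cutVB_cons (h : AltVB V D RK RL pc l a b c j k σ σ' x)
    (H : CutVB V D RK RL pc (Cut.of L) a b c j k σ σ' x) :
    CutVB V D RK RL pc (Cut.of (l :: L)) a b c j k σ σ' x := by
  rintro y y' F r1 r2 ⟨m, hm, hc⟩
  rcases List.mem_cons.1 hm with rfl | hm
  · exact h y y' F r1 r2 hc
  · exact H y y' F r1 r2 ⟨m, hm, hc⟩

/-- The modulus form implies the direct form. -/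
theorem AltA.farV (hκ : 0 ≤ κ) (h0x : 0 ≤ x) (h1x : x < 1)
    (H : AltA (VF κ) D.P RK RL pc l a b c j k σ σ' x) :
    AltVA (VFD κ) D RK RL pc l a b c j k σ σ' x :=
  fun y y' F _ _ hd => VF.dir (H y y' F hd) hκ h0x h1x F.y0 F.y0' F.y2

theorem AltB.farV (hκ : 0 ≤ κ) (h0x : 0 ≤ x) (h1x : x < 1)
    (H : AltB (VF κ) D.P RK RL pc l a b c j k σ σ' x) :
    AltVB (VFD κ) D RK RL pc l a b c j k σ σ' x :=
  fun y y' F _ _ hd => VF.dir (H y y' F hd) hκ h0x h1x F.y0 F.y0' F.y2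

theorem AltA.nearV {N0 : ℕ} (hκ : 0 ≤ κ) (h0x : 0 ≤ x) (h1x : x < 1)
    (H : AltA (VN N0 κ) D.P RK RL pc l a b c j k σ σ' x) :
    AltVA (VND N0 κ) D RK RL pc l a b c j k σ σ' x :=
  fun y y' F _ _ hd => VN.dir (H y y' F hd) hκ h0x h1x F.y0 F.y0' F.y2

theorem AltB.nearV {N0 : ℕ} (hκ : 0 ≤ κ) (h0x : 0 ≤ x) (h1x : x < 1)
    (H : AltB (VN N0 κ) D.P RK RL pc l a b c j k σ σ' x) :
    AltVB (VND N0 κ) D RK RL pc l a b c j k σ σ' x :=
  fun y y' F _ _ hd => VN.dir (H y y' F hd) hκ h0x h1x F.y0 F.y0' F.y2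

/-! ### The points of a row -/

variable {P1 W1 P2 W2 P3 W3 N0 : ℕ} {V1 V2 : ℝ → Prop}

/-- **Family `A`, far vertex**: from the certificate. -/
theorem farXA_cert (hc : con a b c = some cn) (hκ : κ * h0 = kenE x) (κ0 : 0 ≤ κ) (h0x : 0 ≤ x)
    (h1x : x < 1) (b1 : CovX D.P RK RL n1 j a P1 W1 V1 x) (b2 : CovX D.P RK RL n2 k b P2 W2 V2 x)
    (x1 : (P3 : ℝ) / S ≤ x) (x2 : x ≤ ((P3 : ℝ) + W3) / S)
    (ht : CertFX P1 W1 P2 W2 P3 W3 true s1 s2 cn a b c n1 n2 (pc c) cut xt)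
    (hcut : CutVA (VFD κ) D RK RL pc cut a b c j k (sgb s1) (sgb s2) x)
    (hxt : ExtVA (VFD κ) D RK RL pc xt n1 n2 a b c j k (sgb s1) (sgb s2) x)
    (F : FactsA D.P a b c j k (sgb s1) (sgb s2) y y') (r1 : D.r j y) (r2 : D.r k y')
    (v1 : V1 y) (v2 : V2 y') :
    StA (VFD κ) D.P RK RL pc a b c j k (sgb s1) (sgb s2) x y y' := by
  obtain ⟨p, A1, g1, g2⟩ := b1 y F.on1 v1
  obtain ⟨p', A2, g3, g4⟩ := b2 y' F.on2 v2
  have h := ht ⟨g1, g2⟩ ⟨g3, g4⟩ ⟨x1, x2⟩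
  unfold FarX at h
  rw [valX_A A1 A2] at h
  rcases h with (h | h) | h | ⟨g, h⟩
  · exact absurd h (F.notOut rfl rfl rfl)
  · exact hcut y y' F r1 r2 h
  · exact hxt y y' p p' F r1 r2 A1 A2 h
  · refine VF.dir (F.ngv hc ⟨g, ?_⟩) κ0 h0x h1x F.y0 F.y0' F.y2
    rw [hκ]
    exact h.le

/-- **Family `B`, far vertex**: from the certificate. -/
theorem farXB_cert (hc : con a b c = some cn) (hκ : κ * h0 = kenE x) (κ0 : 0 ≤ κ) (h0x : 0 ≤ x)
    (h1x : x < 1) (b1 : CovX D.P RK RL n1 j a P1 W1 V1 x) (b2 : CovX D.P RK RL n2 k c P2 W2 V2 x)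
    (x1 : (P3 : ℝ) / S ≤ x) (x2 : x ≤ ((P3 : ℝ) + W3) / S)
    (ht : CertFX P1 W1 P2 W2 P3 W3 false s1 s2 cn a b c n1 n2 (pc b) cut xt)
    (hcut : CutVB (VFD κ) D RK RL pc cut a b c j k (sgb s1) (sgb s2) x)
    (hxt : ExtVB (VFD κ) D RK RL pc xt n1 n2 a b c j k (sgb s1) (sgb s2) x)
    (F : FactsB D.P a b c j k (sgb s1) (sgb s2) y y') (r1 : D.r j y) (r2 : D.r k (y + y'))
    (v1 : V1 y) (v2 : V2 (y + y')) :
    StB (VFD κ) D.P RK RL pc a b c j k (sgb s1) (sgb s2) x y y' := by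
  obtain ⟨p, A1, g1, g2⟩ := b1 y F.on1 v1
  obtain ⟨p', A2, g3, g4⟩ := b2 (y + y') F.on3 v2
  have h := ht ⟨g1, g2⟩ ⟨g3, g4⟩ ⟨x1, x2⟩
  unfold FarX at h
  rw [valX_B A1 A2] at h
  rcases h with (h | h) | h | ⟨g, h⟩
  · exact absurd h (F.notOut rfl rfl rfl)
  · exact hcut y y' F r1 r2 h
  · exact hxt y y' p p' F r1 r2 A1 A2 h
  · refine VF.dir (F.ngv hc ⟨g, ?_⟩) κ0 h0x h1x F.y0 F.y0' F.y2
    rw [hκ]
    exact h.le

/-- **Family `A`, near vertex**: from the certificate. -/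
theorem nearXA_cert (hc : con a b c = some cn) (hκ : κ * h0 = kenE x) (κ0 : 0 ≤ κ) (h0x : 0 ≤ x)
    (h1x : x < 1) (b1 : CovX D.P RK RL n1 j a P1 W1 V1 x) (b2 : CovX D.P RK RL n2 k b P2 W2 V2 x)
    (x1 : (P3 : ℝ) / S ≤ x) (x2 : x ≤ ((P3 : ℝ) + W3) / S)
    (ht : CertNX P1 W1 P2 W2 P3 W3 N0 true s1 s2 cn a b c n1 n2 (pc c) cut xt)
    (hcut : CutVA (VND N0 κ) D RK RL pc cut a b c j k (sgb s1) (sgb s2) x)
    (hxt : ExtVA (VND N0 κ) D RK RL pc xt n1 n2 a b c j k (sgb s1) (sgb s2) x)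
    (F : FactsA D.P a b c j k (sgb s1) (sgb s2) y y') (r1 : D.r j y) (r2 : D.r k y')
    (v1 : V1 y) (v2 : V2 y') :
    StA (VND N0 κ) D.P RK RL pc a b c j k (sgb s1) (sgb s2) x y y' := by
  obtain ⟨p, A1, g1, g2⟩ := b1 y F.on1 v1
  obtain ⟨p', A2, g3, g4⟩ := b2 y' F.on2 v2
  have h := ht ⟨g1, g2⟩ ⟨g3, g4⟩ ⟨x1, x2⟩
  unfold NearX at h
  rw [valX_A A1 A2] at h
  rcases h with (h | h) | h | ⟨g, h⟩
  · exact absurd h (F.notOut rfl rfl rfl)
  · exact hcut y y' F r1 r2 h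
  · exact hxt y y' p p' F r1 r2 A1 A2 h
  · refine VN.dir (F.ngv hc ⟨g, ?_⟩) κ0 h0x h1x F.y0 F.y0' F.y2
    rw [hκ]
    exact h.le

/-- **Family `B`, near vertex**: from the certificate. -/
theorem nearXB_cert (hc : con a b c = some cn) (hκ : κ * h0 = kenE x) (κ0 : 0 ≤ κ) (h0x : 0 ≤ x)
    (h1x : x < 1) (b1 : CovX D.P RK RL n1 j a P1 W1 V1 x) (b2 : CovX D.P RK RL n2 k c P2 W2 V2 x)
    (x1 : (P3 : ℝ) / S ≤ x) (x2 : x ≤ ((P3 : ℝ) + W3) / S)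
    (ht : CertNX P1 W1 P2 W2 P3 W3 N0 false s1 s2 cn a b c n1 n2 (pc b) cut xt)
    (hcut : CutVB (VND N0 κ) D RK RL pc cut a b c j k (sgb s1) (sgb s2) x)
    (hxt : ExtVB (VND N0 κ) D RK RL pc xt n1 n2 a b c j k (sgb s1) (sgb s2) x)
    (F : FactsB D.P a b c j k (sgb s1) (sgb s2) y y') (r1 : D.r j y) (r2 : D.r k (y + y'))
    (v1 : V1 y) (v2 : V2 (y + y')) :
    StB (VND N0 κ) D.P RK RL pc a b c j k (sgb s1) (sgb s2) x y y' := by
  obtain ⟨p, A1, g1, g2⟩ := b1 y F.on1 v1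
  obtain ⟨p', A2, g3, g4⟩ := b2 (y + y') F.on3 v2
  have h := ht ⟨g1, g2⟩ ⟨g3, g4⟩ ⟨x1, x2⟩
  unfold NearX at h
  rw [valX_B A1 A2] at h
  rcases h with (h | h) | h | ⟨g, h⟩
  · exact absurd h (F.notOut rfl rfl rfl)
  · exact hcut y y' F r1 r2 h
  · exact hxt y y' p p' F r1 r2 A1 A2 h
  · refine VN.dir (F.ngv hc ⟨g, ?_⟩) κ0 h0x h1x F.y0 F.y0' F.y2
    rw [hκ]
    exact h.le

theorem SideV.farA (h : SideV D RK RL pc x) (hσ : σ = 1 ∨ σ = -1) (hσ' : σ' = 1 ∨ σ' = -1)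
    (H : ∀ y y', FactsA D.P a b c j k σ σ' y y' → D.r j y → D.r k y' →
      StA (VFD κ) D.P RK RL pc a b c j k σ σ' x y y') :
    TriA D.cur (farD κ (h0 * x) (tbl RK x) (tbl RL x)) a b c j k σ σ' :=
  triA_farD h.linkK h.linkL hσ hσ' H

theorem SideV.farB (h : SideV D RK RL pc x) (hσ : σ = 1 ∨ σ = -1) (hσ' : σ' = 1 ∨ σ' = -1)
    (H : ∀ y y', FactsB D.P a b c j k σ σ' y y' → D.r j y → D.r k (y + y') →
      StB (VFD κ) D.P RK RL pc a b c j k σ σ' x y y') :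
    TriB D.cur (farD κ (h0 * x) (tbl RK x) (tbl RL x)) a b c j k σ σ' :=
  triB_farD h.linkK h.linkL hσ hσ' H

theorem SideV.nearA (h : SideV D RK RL pc x) (hσ : σ = 1 ∨ σ = -1) (hσ' : σ' = 1 ∨ σ' = -1)
    (H : ∀ y y', FactsA D.P a b c j k σ σ' y y' → D.r j y → D.r k y' →
      StA (VND N0 κ) D.P RK RL pc a b c j k σ σ' x y y') :
    TriA D.cur (nearT (h0 * 0) N0 κ (h0 * x) (tbl RK x) (tbl RL x)) a b c j k σ σ' :=
  triA_nearD h.linkK h.linkL hσ hσ' H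

theorem SideV.nearB (h : SideV D RK RL pc x) (hσ : σ = 1 ∨ σ = -1) (hσ' : σ' = 1 ∨ σ' = -1)
    (H : ∀ y y', FactsB D.P a b c j k σ σ' y y' → D.r j y → D.r k (y + y') →
      StB (VND N0 κ) D.P RK RL pc a b c j k σ σ' x y y') :
    TriB D.cur (nearT (h0 * 0) N0 κ (h0 * x) (tbl RK x) (tbl RL x)) a b c j k σ σ' :=
  triB_nearD h.linkK h.linkL hσ hσ' H

end

end Pool.Agent.Strip051.PB
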