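import Pool.Agent.Strip051.PB.CFact
import Pool.Agent.Strip051.PB.BridgeX

/-! # The costs of a table near `x = 1`

The same tests as in `CRow`, two kernels, the abscissa of a node may depend on `x`. -/

namespace Pool.Agent.Strip051.PB

open Pool.Agent.StripNear Pool.Agent.StripSquare Pool.Agent.Strip051.Sweep
open Pool.Agent.Strip051.LC
open Pool.Agent.Strip051.LC.Box (Aff affv mnv cbv)

/-- The values on a curve as functions of the coordinate of a cell and of `x`. -/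
structure CX where
  X : Fn2
  K : Fn2
  L : Fn2

/-- the test of a cell -/
noncomputable def crowX (m0 m1 : CX) (Y w1 w2 : Fn1) (a : ℕ) (C : List (List Aff))
    (h p _q x : ℕ) : Bool :=
  frc (Y.t p) fun T => frc (pnorm (pmul (w1.t x) (faT a T))) fun G => frc (w2.t x) fun H =>
    frc (m0.X.t p x) fun X0 => frc (m1.X.t p x) fun X1 =>
      frc (pnorm (pmul G (pnorm (m0.K.t p x)))) fun A0 =>
        frc (pnorm (pmul G (pnorm (m1.K.t p x)))) fun A1 =>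
          frc (pnorm (pmul H (pnorm (m0.L.t p x)))) fun B0 =>
            frc (pnorm (pmul H (pnorm (m1.L.t p x)))) fun B1 =>
              cleaf C h X0 X1 T A0 A1 B0 B1 pzero pzero

/-- The values of a cell at the coordinate `p`. -/
noncomputable def cvX (m0 m1 : CX) (Y w1 w2 : Fn1) (a : ℕ) (p x : ℝ) : CV :=
  ⟨m0.X.v p x, m1.X.v p x, w1.v x * faR a (Y.v p) * m0.K.v p x,
    w1.v x * faR a (Y.v p) * m1.K.v p x, w2.v x * m0.L.v p x, w2.v x * m1.L.v p x, 0, 0⟩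

/-- What a certificate gives. -/
def CRX (m0 m1 : CX) (Y w1 w2 : Fn1) (a : ℕ) (C : List (List Aff)) (p x : ℝ) : Prop :=
  0 ≤ Y.v p → ∀ l, 0 ≤ l → l ≤ 1 → (cvX m0 m1 Y w1 w2 a p x).cst l ≤
    cbv C ((cvX m0 m1 Y w1 w2 a p x).X l) (h0 * Y.v p)

section

attribute [local irreducible] padd psub pneg pmul psq pinv psqrt psqrtg pabs pps pmax pmin pphi plam
  pcase phf pnat prat pscale pnorm pdc pnc pone ppos pnn Enc

theorem crowX_sound {E : Pt} {m0 m1 : CX} {Y w1 w2 : Fn1} {a : ℕ} {C : List (List Aff)}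
    {h A B D : ℕ} {p x : ℝ} (hp : Enc E A p) (hx : Enc E D x) (hy : 0 ≤ Y.v p)
    (hh : crowX m0 m1 Y w1 w2 a C h A B D = true) {l : ℝ} (h0' : 0 ≤ l) (h1' : l ≤ 1) :
    (cvX m0 m1 Y w1 w2 a p x).cst l ≤ cbv C ((cvX m0 m1 Y w1 w2 a p x).X l) (h0 * Y.v p) := by
  simp only [crowX, frc_eq] at hh
  have hT := Y.enc hp
  have hG := enc_norm (enc_mul (w1.enc hx) (enc_faT a hT))
  refine cleaf_sound (V := cvX m0 m1 Y w1 w2 a p x) ⟨m0.X.enc hp hx, m1.X.enc hp hx,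
    enc_norm (enc_mul hG (enc_norm (m0.K.enc hp hx))),
    enc_norm (enc_mul hG (enc_norm (m1.K.enc hp hx))),
    enc_norm (enc_mul (w2.enc hx) (enc_norm (m0.L.enc hp hx))),
    enc_norm (enc_mul (w2.enc hx) (enc_norm (m1.L.enc hp hx))),
    enc_zero _, enc_zero _⟩ hy hT hh h0' h1'

/-- **From the certificate of a cell.** -/
theorem crowX_cert {m0 m1 : CX} {Y w1 w2 : Fn1} {a : ℕ} {C : List (List Aff)}
    {P1 W1 P3 W3 : ℕ} (ht : ∃ t, chk3 (onCell P1 W1 0 0 P3 W3 (crowX m0 m1 Y w1 w2 a C))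
      t 1 1 1 = true) {p x : ℝ} (hp : Rng P1 W1 p) (hx : Rng P3 W3 x) :
    CRX m0 m1 Y w1 w2 a C p x := by
  refine onCell_sound (Q := fun p _ x => CRX m0 m1 Y w1 w2 a C p x) ?_ ht hp.1 hp.2
    (q := 0) (by simp) (by simp) hx.1 hx.2
  intro E h A B D p q x h1 _ h3 hh hy l k0 k1
  exact crowX_sound h1 h3 hy hh k0 k1

end

/-- the values at a node -/
noncomputable def CX.nd (m : NodeX) : CX := ⟨m.X, m.K, m.L⟩

/-- the values at a node, the coordinate of the node is a function of the coordinate -/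
noncomputable def CX.ndc (m : NodeX) (G : Fn1) : CX := ⟨m.X.cmp G, m.K.cmp G, m.L.cmp G⟩

/-- the values zero -/
noncomputable def CX.zr : CX := ⟨zrG, zrG, zrG⟩

/-- The certificate of a cell. -/
def CertX (P1 W1 P3 W3 : ℕ) (m0 m1 : CX) (Y w1 w2 : Fn1) (a : ℕ) (C : List (List Aff)) : Prop :=
  ∃ t, chk3 (onCell P1 W1 0 0 P3 W3 (crowX m0 m1 Y w1 w2 a C)) t 1 1 1 = true

section

variable {n : ℕ} {P : Pos n} {D : PV n} {Xc : Fin (n + 1) → ℕ → ℝ → ℝ}
  {RK RL : Fin (n + 1) → ℕ → ℝ → ℝ → ℝ} {nd : NodeX} {m m0 m1 : CX} {Y w1 w2 : Fn1}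
  {j : Fin (n + 1)} {a q : ℕ} {C U : List (List Aff)} {y p x u1 u2 : ℝ}

/-- The functions describe the point of the curve `j`. -/
structure AtM (Xc : Fin (n + 1) → ℕ → ℝ → ℝ) (RK RL : Fin (n + 1) → ℕ → ℝ → ℝ → ℝ) (m : CX)
    (j : Fin (n + 1)) (q : ℕ) (y p x : ℝ) : Prop where
  X : m.X.v p x = Xc j q y
  K : m.K.v p x = RK j q y x
  L : m.L.v p x = RL j q y x

theorem AtX.atM (h : AtX P RK RL nd j q y p x) : AtM (crv P) RK RL (CX.nd nd) j q y p x :=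
  ⟨h.X, h.K, h.L⟩

theorem AtX.atMc (h : AtX P RK RL nd j q y y x) {G : Fn1} (hG : G.v p = y) :
    AtM (crv P) RK RL (CX.ndc nd G) j q y p x := by
  refine ⟨?_, ?_, ?_⟩
  · show nd.X.v (G.v p) x = _
    rw [hG]
    exact h.X
  · show nd.K.v (G.v p) x = _
    rw [hG]
    exact h.K
  · show nd.L.v (G.v p) x = _
    rw [hG]
    exact h.L

/-- beyond the unit circle -/
theorem atM_off (hK : Pins P RK x) (hL : Pins P RL x) (hq : InQ q y) (h : 1 ≤ h0 * y) :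
    AtM (crv P) RK RL CX.zr 0 q y p x := by
  have e := atN_off (w := 0) (u := 0) (p := p) hK hL (Or.inr (rfl : (zrT : Fin (n + 1) → ℕ → ℝ →
    ℝ → ℝ) = zrT)) hq h
  exact ⟨e.X, e.K, e.L⟩

theorem CertX.seg {V : ℝ → Prop} {c : ℝ → ℝ} {i : Fin n} {P1 W1 P3 W3 : ℕ}
    (ht : CertX P1 W1 P3 W3 m0 m1 Y w1 w2 a C) (hx : Rng P3 W3 x)
    (hp : ∀ y, InQ a y → V y → Rng P1 W1 (c y)) (hY : ∀ y, InQ a y → V y → Y.v (c y) = y)
    (e1 : w1.v x = u1) (e2 : w2.v x = u2)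
    (A0 : ∀ y, InQ a y → V y → AtM Xc RK RL m0 i.castSucc a y (c y) x)
    (A1 : ∀ y, InQ a y → V y → AtM Xc RK RL m1 i.succ a y (c y) x) :
    SegV V Xc RK RL zrT u1 u2 0 C a i x := by
  subst e1
  subst e2
  intro y hq hv l l0 l1
  have h1 := A0 y hq hv
  have h2 := A1 y hq hv
  have := crowX_cert ht (hp y hq hv) hx (by rw [hY y hq hv]; exact hq.nn) l l0 l1
  unfold cvX CV.cst CV.X at this
  simp only at this
  rw [hY y hq hv, h1.X, h2.X, h1.K, h2.K, h1.L, h2.L] at this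
  unfold zrT
  simpa using this

theorem CertX.uni {c : ℝ → ℝ} {P1 W1 P3 W3 : ℕ}
    (ht : CertX P1 W1 P3 W3 m0 m1 Y w1 w2 a U) (hx : Rng P3 W3 x)
    (hp : ∀ y, InQ a y → h0 * y < 1 → Rng P1 W1 (c y))
    (hY : ∀ y, InQ a y → h0 * y < 1 → Y.v (c y) = y) (e1 : w1.v x = u1) (e2 : w2.v x = u2)
    (A0 : ∀ y, InQ a y → h0 * y < 1 → AtM Xc RK RL m0 0 a y (c y) x) :
    UniR Xc RK RL zrT u1 u2 0 U a x := by
  subst e1
  subst e2
  intro y hq hv
  have h1 := A0 y hq hv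
  have := crowX_cert ht (hp y hq hv) hx (by rw [hY y hq hv]; exact hq.nn) 0 le_rfl zero_le_one
  unfold cvX CV.cst CV.X ccl at this
  simp only at this
  rw [hY y hq hv, h1.X, h1.K, h1.L] at this
  unfold zrT
  simpa using this

theorem PinsV.linkV {R : Fin (n + 1) → ℕ → ℝ → ℝ → ℝ} (h : PinsV D R x) :
    LinkV D.cur x (tbl R x) R := ⟨h.adm, fun _ _ _ hq => tbl_eq hq⟩

end

end Pool.Agent.Strip051.PB
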