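import Pool.Agent.Strip051.PB.CGood
import Pool.Agent.Strip051.LC.Exact.CertT

/-! # The exact count from a certificate in the direct form -/

namespace Pool.Agent.Strip051.LC

open Pool.Agent.StripNear Pool.Agent.StripSquare Pool.Agent.Strip051.Sweep

/-- The costs for two kernels, with the third kernel zero. -/
theorem CostTab.three {T : Tab} {N0 : ℕ} {κ s : ℝ} {cF uF cN uN : ℝ → ℝ → ℝ}
    (h : CostTab T N0 κ s cF uF cN uN) (C : ℝ → ℝ → ℝ) : CostTab3 T C 0 N0 κ s cF uF cN uN where
  cF := h.cF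
  cN X t a b c d := by
    rw [mul_zero, mul_zero, add_zero]
    exact h.cN X t a b c d
  uF := h.uF
  uN X t a b c := by
    rw [mul_zero, mul_zero, add_zero]
    exact h.uN X t a b c

end Pool.Agent.Strip051.LC

namespace Pool.Agent.Strip051.PB

open Pool.Agent.StripNear Pool.Agent.StripSquare Pool.Agent.Strip051.Sweep
open Pool.Agent.Strip051.LC
open Pool.Agent.Strip051.LC.Box (Aff cbv Certs)

/-- **The exact count from two kernels in the direct form**, a cost for each vertex. -/
theorem goodT2 {m : ℕ} {ι : Type} {K : Cur m ι} {vA vB vX : ℝ → ι → ℝ} {κ s a : ℝ}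
    {CF UF RF CN' UN RN : List (List Aff)} {eF eN : ℤ} (cF : Certs CF UF RF eF)
    (cN : Certs CN' UN RN eN) (hF : 4096 * we s ≤ eF) (hN : 4096 * (we s + mu 3 s * wq s) ≤ eN)
    (h : CertT K vA vB vX 3 a κ s)
    (ct : CostTab (tab K.nodes vA vB vX) 3 κ s (cbv CF) (cbv UF) (cbv CN') (cbv UN))
    (rows : RowOK ((tab K.nodes vA vB vX).flat3 (ker K.nodes (fun _ _ => 0) fun _ _ => 0)
      (fun _ => 0) 3 κ s) 3 s) : Good s :=
  fun _ hn => h.certD.fixDir.count le_rfl (K := 0) (fun y t _ _ => by simp) (cF.costOK hF)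
    (cN.costOK hN) (ct.three _) rows hn

end Pool.Agent.Strip051.PB
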