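import Pool.Agent.Strip051.PB.RowS

/-! # Rows near `x = 1`

The same tests with two changes: the abscissa of a node may depend on `x`, and the factor of the
kernel is written in a form which is regular at `x = 1` (`kenE`). -/

namespace Pool.Agent.Strip051.PB

attribute [local irreducible] padd psub pneg pmul psq pinv psqrt psqrtg pabs pps pmax pmin pphi plam
  pcase phf pnat prat pscale pnorm pdc pnc pone ppos pnn Enc

open Pool.Agent.Strip051.LC.Line (phi)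

/-- A node curve in a quarter: height, abscissa, kernel value and level value as functions of a
coordinate on the curve (the last three also of `x`). -/
structure NodeX where
  Y : Fn1
  X : Fn2
  K : Fn2
  L : Fn2

/-- `ken` in a form which is regular at `1` -/
noncomputable def kenE (x : ℝ) : ℝ := 2 * ((3 / 4 * (1 + x) / (c1n x + 1 / 2) - 1 / 2) / x)

theorem kenE_eq {x : ℝ} (h0x : 0 < x) (h1x : x < 1) : kenE x = ken x := by
  have hg : c1n x ^ 2 = 1 - 3 / 4 * x ^ 2 := Real.sq_sqrt (by nlinarith)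
  have hg0 : 0 ≤ c1n x := Real.sqrt_nonneg _
  have h2 : c1n x + 1 / 2 ≠ 0 := by linarith
  have h3 : 1 - x ≠ 0 := by linarith
  have h4 : x ≠ 0 := h0x.ne'
  unfold kenE ken esn
  field_simp
  nlinarith

/-- three quarters of a number -/
noncomputable def t34X (X : ℕ) : ℕ := psub X (phf (phf X))

/-- half of `kenE` -/
noncomputable def khX (X : ℕ) : ℕ :=
  pnorm (pmul (pnorm (psub (pmul (t34X (padd pone X)) (pinv (padd (c1T X) (phn 1)))) (phn 1)))
    (pinv X))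

theorem enc_khX {E : Pt} {X : ℕ} {x : ℝ} (h : Enc E X x) : Enc E (khX X) (kenE x / 2) := by
  have h1 := enc_add (enc_one E) h
  refine enc_cast (enc_norm (enc_mul (enc_norm (enc_sub (enc_mul
    (enc_sub h1 (enc_half (enc_half h1))) (enc_inv (enc_add (enc_c1T h) (enc_phn E 1))))
    (enc_phn E 1))) (enc_inv h))) ?_
  unfold kenE
  push_cast
  ring

/-- The values in a subfamily at the coordinates `p`, `q` of the nodes. -/
noncomputable def valX (fam s1 s2 : Bool) (n1 n2 : NodeX) (pc : Piece) (p q x : ℝ) : Val :=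
  match fam with
  | true => ⟨x, n1.Y.v p, n2.Y.v q, sgr s1 (n1.X.v p x) + sgr s2 (n2.X.v q x), n1.Y.v p + n2.Y.v q,
      (sgr s1 (n1.X.v p x) * n2.Y.v q - sgr s2 (n2.X.v q x) * n1.Y.v p) / 2 - 1 / 2,
      sgr s1 (n1.K.v p x), sgr s2 (n2.K.v q x),
      pc.K.v (sgr s1 (n1.X.v p x) + sgr s2 (n2.X.v q x)) (n1.Y.v p + n2.Y.v q) x,
      sgr s1 (n1.L.v p x), sgr s2 (n2.L.v q x),
      pc.L.v (sgr s1 (n1.X.v p x) + sgr s2 (n2.X.v q x)) (n1.Y.v p + n2.Y.v q) x⟩
  | false => ⟨x, n1.Y.v p, n2.Y.v q - n1.Y.v p, sgr s2 (n2.X.v q x) - sgr s1 (n1.X.v p x),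
      n2.Y.v q - n1.Y.v p,
      (sgr s1 (n1.X.v p x) * n2.Y.v q - sgr s2 (n2.X.v q x) * n1.Y.v p) / 2 - 1 / 2,
      sgr s1 (n1.K.v p x),
      pc.K.v (sgr s2 (n2.X.v q x) - sgr s1 (n1.X.v p x)) (n2.Y.v q - n1.Y.v p) x,
      sgr s2 (n2.K.v q x), sgr s1 (n1.L.v p x),
      pc.L.v (sgr s2 (n2.X.v q x) - sgr s1 (n1.X.v p x)) (n2.Y.v q - n1.Y.v p) x,
      sgr s2 (n2.L.v q x)⟩


/-- The slack at the far vertex for the level `γ`, quarters `a`, `b`, `c` of the heights. -/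
noncomputable def Val.farX (V : Val) (cn : Con) (a b c : ℕ) (γ : ℝ) : ℝ :=
  slc cn (levF V.ex V.l1 V.l2 V.l3) (kenE V.x) V.x (V.y - jq a) (V.z - jq b) (V.y + V.z - jq c)
    V.R1 V.R2 V.R3 γ

/-- The slack at the near vertex for the level `γ`. -/
noncomputable def Val.nearX (V : Val) (N0 : ℕ) (cn : Con) (a b c : ℕ) (γ : ℝ) : ℝ :=
  slc cn (levN N0 0 V.x V.y V.z V.ex V.l1 V.l2 V.l3) (kenE V.x) V.x (V.y - jq a) (V.z - jq b)
    (V.y + V.z - jq c) V.R1 V.R2 V.R3 γ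


/-- the test of a leafX from the packed coordinates `p`, `q` and heights `A`, `B` of the nodes and
the height `Y` of the third side; `T` is the height which is not covered by the cell and `m0`, `m1`
are the ends of its range; `k` gets `p`, `q`, the level, `x`, `y`, `z`, the total height, `X`, `Y`,
the excess -/
noncomputable def leafX (fam s1 s2 : Bool) (n1 n2 : NodeX) (cut : Cut) (xt : Ext)
    (k : ℕ → ℕ → ℕ → ℕ → ℕ → ℕ → ℕ → ℕ → ℕ → ℕ → Bool)
    (h x m0 m1 p q A B Y T : ℕ) : Bool :=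
  (fun U V => frc (pnorm (th fam U V)) fun X =>
    disp h (fun g => k p q g x A (sl fam B Y) (sl fam Y B) X Y
        (psub (phf (psub (pmul U B) (pmul V A))) (phn 1)))
      (ppos (psub (pdc m0 0) T)) (ppos (psub T (pdc m1 0))) (ppos (psub pone (qqT X Y)))
      (ppos (psub (qqT X Y) (pnc 3))) (ppos (psub (pmul V A) (pmul U B)))
      (fun i => cut.t i x A (sl fam B Y) X Y)
      (lagr (fun g e => k p q g x A (sl fam B Y) (sl fam Y B) X Y e)
        (psub (phf (psub (pmul U B) (pmul V A))) (phn 1)) (psub (pdc m0 0) T)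
        (psub T (pdc m1 0)) (psub pone (qqT X Y)) (psub (qqT X Y) (pnc 3))
        (psub (pmul V A) (pmul U B)) (fun i => xt.t i p q x)))
    (sg s1 (n1.X.t p x)) (sg s2 (n2.X.t q x))


/-- the test of a leafX in one of three systems of coordinates: both nodes (`0`), first node and third
height (`1`), third height and second node (`2`) -/
noncomputable def crdsX (co : ℕ) (fam : Bool) (n1 n2 : NodeX) (Q : Qs)
    (f : ℕ → ℕ → ℕ → ℕ → ℕ → ℕ → ℕ → ℕ → Bool) (u v : ℕ) : Bool :=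
  Nat.rec (motive := fun _ => Bool)
    ((fun A B => frc (pnorm (th fam A B)) fun Y => f Q.m Q.m' u v A B Y Y) (n1.Y.t u) (n2.Y.t v))
    (fun i _ => Nat.rec (motive := fun _ => Bool)
      ((fun A => frc (pnorm (bk1 fam A v)) fun B => f Q.b Q.b' u B A B v B) (n1.Y.t u))
      (fun _ _ => (fun B => frc (pnorm (bk2 fam B u)) fun A => f Q.a Q.a' A v A B u A) (n2.Y.t v)) i) co


/-- the subtracted part of the slack -/
noncomputable def phiX (fam s1 s2 : Bool) (cn : Con) (a b c : ℕ) (n1 n2 : NodeX) (pc : Piece)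
    (p q g x y z t X Y : ℕ) : ℕ :=
  (fun K1 K2 K3 u v w => rowPhi cn (khX x) x u (pneg u) v (pneg v) w (pneg w)
    (sg s1 K1) (sg (!s1) K1) (sl fam (sg s2 K2) K3) (sl fam (sg (!s2) K2) (pneg K3))
    (sl fam K3 (sg s2 K2)) (sl fam (pneg K3) (sg (!s2) K2)) (pga g))
    (n1.K.t p x) (n2.K.t q x) (pnorm (pc.K.t X Y x)) (dj (jq a) y) (dj (jq b) z) (dj (jq c) t)


/-- test at the far vertex -/
noncomputable def kFX (fam s1 s2 : Bool) (cn : Con) (a b c : ℕ) (n1 n2 : NodeX) (pc : Piece)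
    (p q : ℕ) (g x y z t X Y ex : ℕ) : Bool :=
  (fun L1 L2 L3 => tF (psub ex (phiX fam s1 s2 cn a b c n1 n2 pc p q g x y z t X Y)) L1
    (sl fam L2 L3) (sl fam L3 L2)) (sg s1 (n1.L.t p x)) (sg s2 (n2.L.t q x)) (pc.L.t X Y x)

/-- test at the near vertex -/
noncomputable def kNX (N0 : ℕ) (fam s1 s2 : Bool) (cn : Con) (a b c : ℕ) (n1 n2 : NodeX)
    (pc : Piece) (p q : ℕ) (g x y z t X Y ex : ℕ) : Bool :=
  (fun L1 L2 L3 => tN (phn N0) (muT N0 x) x y z t
    (psub ex (phiX fam s1 s2 cn a b c n1 n2 pc p q g x y z t X Y)) L1 (sl fam L2 L3) (sl fam L3 L2))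
    (sg s1 (n1.L.t p x)) (sg s2 (n2.L.t q x)) (pc.L.t X Y x)


/-- test function of a subfamily, far vertex -/
noncomputable def rowFX (co : ℕ) (fam s1 s2 : Bool) (cn : Con) (a b c : ℕ) (Q : Qs) (n1 n2 : NodeX)
    (pc : Piece) (cut : Cut) (xt : Ext) (h u v x : ℕ) : Bool :=
  crdsX co fam n1 n2 Q (leafX fam s1 s2 n1 n2 cut xt (kFX fam s1 s2 cn a b c n1 n2 pc) h x) u v

/-- test function of a subfamily, near vertex -/
noncomputable def rowNX (N0 co : ℕ) (fam s1 s2 : Bool) (cn : Con) (a b c : ℕ) (Q : Qs)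
    (n1 n2 : NodeX) (pc : Piece) (cut : Cut) (xt : Ext) (h u v x : ℕ) : Bool :=
  crdsX co fam n1 n2 Q (leafX fam s1 s2 n1 n2 cut xt (kNX N0 fam s1 s2 cn a b c n1 n2 pc) h x) u v


theorem valX_x (fam s1 s2 : Bool) (n1 n2 : NodeX) (pc : Piece) (p q x : ℝ) :
    (valX fam s1 s2 n1 n2 pc p q x).x = x := by cases fam <;> rfl

theorem valX_y (fam s1 s2 : Bool) (n1 n2 : NodeX) (pc : Piece) (p q x : ℝ) :
    (valX fam s1 s2 n1 n2 pc p q x).y = n1.Y.v p := by cases fam <;> rfl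

theorem valX_Y (fam s1 s2 : Bool) (n1 n2 : NodeX) (pc : Piece) (p q x : ℝ) :
    (valX fam s1 s2 n1 n2 pc p q x).Y = thr fam (n1.Y.v p) (n2.Y.v q) := by cases fam <;> rfl

theorem valX_ex (fam s1 s2 : Bool) (n1 n2 : NodeX) (pc : Piece) (p q x : ℝ) :
    (valX fam s1 s2 n1 n2 pc p q x).ex =
      (sgr s1 (n1.X.v p x) * n2.Y.v q - sgr s2 (n2.X.v q x) * n1.Y.v p) / 2 - 1 / 2 := by
  cases fam <;> rfl

theorem leafX_sound {E : Pt} {fam s1 s2 : Bool} {m m0 m1 : ℕ} {n1 n2 : NodeX} {pc : Piece} {cut : Cut}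
    {xt : Ext}
    {k : ℕ → ℕ → ℕ → ℕ → ℕ → ℕ → ℕ → ℕ → ℕ → ℕ → Bool} {h P Q X A B Y T : ℕ} {p q x τ : ℝ}
    {R : Prop}
    (hp : Enc E P p) (hq : Enc E Q q) (hx : Enc E X x) (hA : Enc E A (n1.Y.v p))
    (hB : Enc E B (n2.Y.v q)) (hY : Enc E Y (thr fam (n1.Y.v p) (n2.Y.v q))) (hT : Enc E T τ)
    (hk : ∀ g A Z T U Y F (ex : ℝ), Enc E A (valX fam s1 s2 n1 n2 pc p q x).y →
      Enc E Z (valX fam s1 s2 n1 n2 pc p q x).z →
      Enc E T ((valX fam s1 s2 n1 n2 pc p q x).y + (valX fam s1 s2 n1 n2 pc p q x).z) →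
      Enc E U (valX fam s1 s2 n1 n2 pc p q x).X → Enc E Y (valX fam s1 s2 n1 n2 pc p q x).Y →
      Enc E F ex → ex ≤ (valX fam s1 s2 n1 n2 pc p q x).ex → k P Q g X A Z T U Y F = true → R)
    (hl : leafX fam s1 s2 n1 n2 cut xt k h X m0 m1 P Q A B Y T = true) :
    (valX fam s1 s2 n1 n2 pc p q x).altT m m0 m1 τ cut ∨ xt.P p q x ∨ R := by
  have hU := enc_sg s1 (n1.X.enc hp hx)
  have hV := enc_sg s2 (n2.X.enc hq hx)
  have gex := valX_ex fam s1 s2 n1 n2 pc p q x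
  have gx := valX_x fam s1 s2 n1 n2 pc p q x
  have gy := valX_y fam s1 s2 n1 n2 pc p q x
  rw [← valX_Y fam s1 s2 n1 n2 pc p q x] at hY
  have kz : Enc E (sl fam B Y) (valX fam s1 s2 n1 n2 pc p q x).z := by
    cases fam
    · exact hY
    · exact hB
  have kt : Enc E (sl fam Y B)
      ((valX fam s1 s2 n1 n2 pc p q x).y + (valX fam s1 s2 n1 n2 pc p q x).z) := by
    cases fam
    · exact enc_cast hB (by
        show n2.Y.v q = n1.Y.v p + (n2.Y.v q - n1.Y.v p)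
        ring)
    · exact hY
  have kX : Enc E (pnorm (th fam (sg s1 (n1.X.t P X)) (sg s2 (n2.X.t Q X))))
      (valX fam s1 s2 n1 n2 pc p q x).X := by
    cases fam
    · exact enc_norm (enc_sub hV hU)
    · exact enc_norm (enc_add hU hV)
  set V := valX fam s1 s2 n1 n2 pc p q x with hVal
  have kex : Enc E (psub (phf (psub (pmul (sg s1 (n1.X.t P X)) B)
      (pmul (sg s2 (n2.X.t Q X)) A))) (phn 1)) V.ex := by
    rw [gex]
    refine enc_cast (enc_sub (enc_half (enc_sub (enc_mul hU hB) (enc_mul hV hA)))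
      (enc_phn E 1)) ?_
    push_cast
    ring
  rw [← gy] at hA
  unfold leafX at hl
  simp only [frc_eq] at hl
  rcases disp_true hl with h1 | h1 | h1 | h1 | h1 | h1 | h1 | h1
  · exact Or.inr (Or.inr (hk _ _ _ _ _ _ _ _ hA kz kt kX hY kex le_rfl h1))
  · refine Or.inl (Or.inl (Or.inr (Or.inl ?_)))
    have := ppos_sound (enc_sub (enc_pdc0 E m0) hT) h1
    linarith
  · refine Or.inl (Or.inl (Or.inr (Or.inr ?_)))
    have := ppos_sound (enc_sub hT (enc_pdc0 E m1)) h1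
    linarith
  · refine Or.inl (Or.inl (Or.inl (Or.inr (Or.inr (Or.inl ?_)))))
    have := ppos_sound (enc_sub (enc_one E) (enc_qqT kX hY)) h1
    linarith
  · refine Or.inl (Or.inl (Or.inl (Or.inr (Or.inr (Or.inr (Or.inl ?_))))))
    have := ppos_sound (enc_sub (enc_qqT kX hY) (enc_pnc E 3)) h1
    push_cast at this
    linarith
  · refine Or.inl (Or.inl (Or.inl (Or.inr (Or.inr (Or.inr (Or.inr ?_))))))
    have := ppos_sound (enc_sub (enc_mul hV (gy ▸ hA)) (enc_mul hU hB)) h1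
    rw [gex]
    linarith
  · refine Or.inl (Or.inr ?_)
    rw [gx]
    exact cut.snd hx hA kz kX hY h1
  · by_cases ho : V.outT m m0 m1 τ
    · exact Or.inl (Or.inl ho)
    · unfold Val.outT at ho
      push Not at ho
      obtain ⟨ho, t1, t2⟩ := ho
      obtain ⟨-, -, o3, o4, o5⟩ := Val.not_out ho
      rcases lagr_true h1 with ⟨g, l, i, h2⟩ | ⟨i, h2⟩
      · have b1 := enc_sub (enc_pdc0 E m0) hT
        have b2 := enc_sub hT (enc_pdc0 E m1)
        have b3 := enc_sub (enc_one E) (enc_qqT kX hY)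
        have b4 := enc_sub (enc_qqT kX hY) (enc_pnc E 3)
        have b5 := enc_sub (enc_mul hV (gy ▸ hA)) (enc_mul hU hB)
        obtain ⟨v, hv, hv'⟩ := enc_pk5 b1 b2 b3 b4 b5 (by linarith) (by linarith)
          (by linarith) (by push_cast; linarith) (by rw [gex] at o5; linarith) i
        have hl' := enc_mul (enc_dc E l 0) hv'
        have hn : (0 : ℝ) ≤ ((l : ℝ) - ((0 : ℕ) : ℝ)) / S := by
          push_cast
          rw [sub_zero]
          positivity
        exact Or.inr (Or.inr (hk _ _ _ _ _ _ _ _ hA kz kt kX hY (enc_add kex hl')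
          (by nlinarith [mul_nonneg hn (neg_nonneg.2 hv)]) h2))
      · exact Or.inr (Or.inl (xt.snd hp hq hx h2))

theorem enc_phiX {E : Pt} {fam s1 s2 : Bool} {a b c : ℕ} {cn : Con} (hc : con a b c = some cn)
    {n1 n2 : NodeX} {pc : Piece} {P Q X : ℕ} {p q x : ℝ}
    (hp : Enc E P p) (hq : Enc E Q q) (hx : Enc E X x) (g : ℕ) {A Z T U Y : ℕ}
    (hA : Enc E A (valX fam s1 s2 n1 n2 pc p q x).y)
    (hZ : Enc E Z (valX fam s1 s2 n1 n2 pc p q x).z)
    (hT : Enc E T ((valX fam s1 s2 n1 n2 pc p q x).y + (valX fam s1 s2 n1 n2 pc p q x).z))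
    (hU : Enc E U (valX fam s1 s2 n1 n2 pc p q x).X)
    (hY : Enc E Y (valX fam s1 s2 n1 n2 pc p q x).Y) (ex : ℝ) :
    Enc E (phiX fam s1 s2 cn a b c n1 n2 pc P Q g X A Z T U Y)
      (ex - slc cn ex (kenE x) x ((valX fam s1 s2 n1 n2 pc p q x).y - jq a)
        ((valX fam s1 s2 n1 n2 pc p q x).z - jq b)
        ((valX fam s1 s2 n1 n2 pc p q x).y + (valX fam s1 s2 n1 n2 pc p q x).z - jq c)
        (valX fam s1 s2 n1 n2 pc p q x).R1 (valX fam s1 s2 n1 n2 pc p q x).R2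
        (valX fam s1 s2 n1 n2 pc p q x).R3 (gar g)) := by
  have k1 := n1.K.enc hp hx
  have k2 := n2.K.enc hq hx
  have k3 := enc_norm (pc.K.enc hU hY hx)
  have hu := enc_dj (jq a) hA
  have hv := enc_dj (jq b) hZ
  have hw := enc_dj (jq c) hT
  unfold phiX
  refine enc_rowPhi cn (enc_khX hx) hx hu (enc_neg hu) hv (enc_neg hv) hw (enc_neg hw)
    ?_ ?_ ?_ ?_ ?_ ?_ (enc_pga E g) (con_ok hc _ _) ex
  · cases fam <;> exact enc_sg s1 k1
  · cases fam <;> exact enc_sgn s1 k1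
  · cases fam <;> exact enc_sl _ (enc_sg s2 k2) k3
  · cases fam <;> exact enc_sl _ (enc_sgn s2 k2) (enc_neg k3)
  · cases fam <;> exact enc_sl _ k3 (enc_sg s2 k2)
  · cases fam <;> exact enc_sl _ (enc_neg k3) (enc_sgn s2 k2)


theorem enc_levX {E : Pt} {fam s1 s2 : Bool} {n1 n2 : NodeX} {pc : Piece} {P Q X U Y : ℕ}
    {p q x : ℝ} (hp : Enc E P p) (hq : Enc E Q q) (hx : Enc E X x)
    (hU : Enc E U (valX fam s1 s2 n1 n2 pc p q x).X)
    (hY : Enc E Y (valX fam s1 s2 n1 n2 pc p q x).Y) :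
    Enc E (sg s1 (n1.L.t P X)) (valX fam s1 s2 n1 n2 pc p q x).l1 ∧
      Enc E (sl fam (sg s2 (n2.L.t Q X)) (pc.L.t U Y X)) (valX fam s1 s2 n1 n2 pc p q x).l2 ∧
      Enc E (sl fam (pc.L.t U Y X) (sg s2 (n2.L.t Q X))) (valX fam s1 s2 n1 n2 pc p q x).l3 := by
  have k1 := enc_sg s1 (n1.L.enc hp hx)
  have k2 := enc_sg s2 (n2.L.enc hq hx)
  have k3 := pc.L.enc hU hY hx
  cases fam <;> exact ⟨k1, enc_sl _ k2 k3, enc_sl _ k3 k2⟩

/-- The statement of a row at the far vertex. -/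
def FarX (fam s1 s2 : Bool) (cn : Con) (a b c : ℕ) (n1 n2 : NodeX) (pc : Piece) (cut : Cut)
    (xt : Ext) (p q x : ℝ) : Prop :=
  (valX fam s1 s2 n1 n2 pc p q x).alt (cond fam c b) cut ∨ xt.P p q x ∨
    ∃ g, 0 < (valX fam s1 s2 n1 n2 pc p q x).farX cn a b c g

/-- The statement of a row at the near vertex. -/
def NearX (N0 : ℕ) (fam s1 s2 : Bool) (cn : Con) (a b c : ℕ) (n1 n2 : NodeX) (pc : Piece)
    (cut : Cut) (xt : Ext) (p q x : ℝ) : Prop :=
  (valX fam s1 s2 n1 n2 pc p q x).alt (cond fam c b) cut ∨ xt.P p q x ∨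
    ∃ g, 0 < (valX fam s1 s2 n1 n2 pc p q x).nearX N0 cn a b c g

theorem kFX_sound {E : Pt} {fam s1 s2 : Bool} {a b c : ℕ} {cn : Con} (hc : con a b c = some cn)
    {n1 n2 : NodeX} {pc : Piece} {P Q X : ℕ} {p q x : ℝ}
    (hp : Enc E P p) (hq : Enc E Q q) (hx : Enc E X x) (g : ℕ) {A Z T U Y F : ℕ} {ex : ℝ}
    (hA : Enc E A (valX fam s1 s2 n1 n2 pc p q x).y)
    (hZ : Enc E Z (valX fam s1 s2 n1 n2 pc p q x).z)
    (hT : Enc E T ((valX fam s1 s2 n1 n2 pc p q x).y + (valX fam s1 s2 n1 n2 pc p q x).z))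
    (hU : Enc E U (valX fam s1 s2 n1 n2 pc p q x).X)
    (hY : Enc E Y (valX fam s1 s2 n1 n2 pc p q x).Y)
    (hF : Enc E F ex) (he : ex ≤ (valX fam s1 s2 n1 n2 pc p q x).ex)
    (h : kFX fam s1 s2 cn a b c n1 n2 pc P Q g X A Z T U Y F = true) :
    0 < (valX fam s1 s2 n1 n2 pc p q x).farX cn a b c (gar g) := by
  have hP := enc_phiX hc hp hq hx g hA hZ hT hU hY (valX fam s1 s2 n1 n2 pc p q x).ex
  obtain ⟨e1, e2, e3⟩ := enc_levX hp hq hx hU hY
  have := tF_sound (enc_sub hF hP) e1 e2 e3 h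
  unfold Val.farX levF
  rw [sub_eq_add_neg (valX fam s1 s2 n1 n2 pc p q x).ex, slc_add, valX_x]
  linarith

theorem kNX_sound {E : Pt} {N0 : ℕ} {fam s1 s2 : Bool} {a b c : ℕ} {cn : Con}
    (hc : con a b c = some cn) {n1 n2 : NodeX} {pc : Piece} {P Q X : ℕ} {p q x : ℝ}
    (hp : Enc E P p) (hq : Enc E Q q) (hx : Enc E X x) (g : ℕ) {A Z T U Y F : ℕ} {ex : ℝ}
    (hA : Enc E A (valX fam s1 s2 n1 n2 pc p q x).y)
    (hZ : Enc E Z (valX fam s1 s2 n1 n2 pc p q x).z)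
    (hT : Enc E T ((valX fam s1 s2 n1 n2 pc p q x).y + (valX fam s1 s2 n1 n2 pc p q x).z))
    (hU : Enc E U (valX fam s1 s2 n1 n2 pc p q x).X)
    (hY : Enc E Y (valX fam s1 s2 n1 n2 pc p q x).Y)
    (hF : Enc E F ex) (he : ex ≤ (valX fam s1 s2 n1 n2 pc p q x).ex)
    (h : kNX N0 fam s1 s2 cn a b c n1 n2 pc P Q g X A Z T U Y F = true) :
    0 < (valX fam s1 s2 n1 n2 pc p q x).nearX N0 cn a b c (gar g) := by
  have hP := enc_phiX hc hp hq hx g hA hZ hT hU hY (valX fam s1 s2 n1 n2 pc p q x).ex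
  obtain ⟨e1, e2, e3⟩ := enc_levX hp hq hx hU hY
  have := tN_sound (enc_muT N0 hx) hx hA hZ hT (enc_sub hF hP) e1 e2 e3 h
  unfold Val.nearX levN
  rw [slc_add, valX_x]
  linarith


section

variable {fam s1 s2 : Bool} {a b c : ℕ} {n1 n2 : NodeX} {pc : Piece} {cut : Cut} {xt : Ext}
  {P1 W1 P2 W2 P3 W3 : ℕ} {R : ℝ → ℝ → ℝ → Prop}
  {k : ℕ → ℕ → ℕ → ℕ → ℕ → ℕ → ℕ → ℕ → ℕ → ℕ → Bool}


/-- what the test `k` of a leafX has to give -/
def SndX (fam s1 s2 : Bool) (n1 n2 : NodeX) (pc : Piece)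
    (k : ℕ → ℕ → ℕ → ℕ → ℕ → ℕ → ℕ → ℕ → ℕ → ℕ → Bool) (R : ℝ → ℝ → ℝ → Prop) : Prop :=
  ∀ {E : Pt} {P Q X : ℕ} {p q x : ℝ}, Enc E P p → Enc E Q q → Enc E X x →
    ∀ g A Z T U Y F (ex : ℝ), Enc E A (valX fam s1 s2 n1 n2 pc p q x).y →
      Enc E Z (valX fam s1 s2 n1 n2 pc p q x).z →
      Enc E T ((valX fam s1 s2 n1 n2 pc p q x).y + (valX fam s1 s2 n1 n2 pc p q x).z) →
      Enc E U (valX fam s1 s2 n1 n2 pc p q x).X → Enc E Y (valX fam s1 s2 n1 n2 pc p q x).Y →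
      Enc E F ex → ex ≤ (valX fam s1 s2 n1 n2 pc p q x).ex → k P Q g X A Z T U Y F = true → R p q x


/-- Certificates in the coordinates of both nodes. -/
theorem crdX0_sound (hk : SndX fam s1 s2 n1 n2 pc k R)
    (ht : ∃ t, chk3 (onCell P1 W1 P2 W2 P3 W3 fun h u v x => crdsX 0 fam n1 n2
      (qsf P1 W1 P2 W2 (cond fam c b)) (leafX fam s1 s2 n1 n2 cut xt k h x) u v) t 1 1 1 = true) :
    Cert P1 W1 P2 W2 P3 W3 fun p q x =>
      (valX fam s1 s2 n1 n2 pc p q x).alt (cond fam c b) cut ∨ xt.P p q x ∨ R p q x := by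
  intro p q x hp hq hx
  refine onCell_sound (Q := fun p q x => (valX fam s1 s2 n1 n2 pc p q x).alt (cond fam c b) cut ∨
    xt.P p q x ∨ R p q x) ?_ ht hp.1 hp.2 hq.1 hq.2 hx.1 hx.2
  intro E h A B C p q x h1 h2 h3 hl
  have hA := n1.Y.enc h1
  have hB := n2.Y.enc h2
  have hY : Enc E (pnorm (th fam (n1.Y.t A) (n2.Y.t B))) (thr fam (n1.Y.v p) (n2.Y.v q)) := by
    cases fam
    · exact enc_norm (enc_sub hB hA)
    · exact enc_norm (enc_add hA hB)
  have hl' : leafX fam s1 s2 n1 n2 cut xt k h C (Nat.mul (cond fam c b) 536870912)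
      (Nat.mul (Nat.add (cond fam c b) 1) 536870912) A B (n1.Y.t A) (n2.Y.t B)
      (pnorm (th fam (n1.Y.t A) (n2.Y.t B))) (pnorm (th fam (n1.Y.t A) (n2.Y.t B))) = true := by
    have e : (frc (pnorm (th fam (n1.Y.t A) (n2.Y.t B))) fun Y => leafX fam s1 s2 n1 n2 cut xt k h C
      (Nat.mul (cond fam c b) 536870912) (Nat.mul (Nat.add (cond fam c b) 1) 536870912)
      A B (n1.Y.t A) (n2.Y.t B) Y Y) = true := hl
    rwa [frc_eq] at e
  rcases leafX_sound (m := cond fam c b) h1 h2 h3 hA hB hY hY (hk h1 h2 h3) hl' with h | h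
  · refine Or.inl ?_
    rcases h with (h | h | h) | h
    · exact Or.inl h
    · exact Or.inl (Or.inl (by rw [valX_Y, ← mulS]; exact h))
    · exact Or.inl (Or.inr (Or.inl (by rw [valX_Y, ← mulS1]; exact h)))
    · exact Or.inr h
  · exact Or.inr h

/-- Certificates in the coordinate of the first node and the third height. -/
theorem crdX1_sound (hk : SndX fam s1 s2 n1 n2 pc k R) (hid : ∀ q, n2.Y.v q = q)
    (ht : ∃ t, chk3 (onCell P1 W1 (Nat.mul (cond fam c b) 536870912) 536870912 P3 W3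
      fun h u v x => crdsX 1 fam n1 n2 (qsf P1 W1 P2 W2 (cond fam c b))
      (leafX fam s1 s2 n1 n2 cut xt k h x) u v) t 1 1 1 = true) :
    Cert P1 W1 P2 W2 P3 W3 fun p q x =>
      (valX fam s1 s2 n1 n2 pc p q x).alt (cond fam c b) cut ∨ xt.P p q x ∨ R p q x := by
  intro p q x hp hq hx
  by_cases ho : (valX fam s1 s2 n1 n2 pc p q x).out (cond fam c b)
  · exact Or.inl (Or.inl ho)
  obtain ⟨o1, o2, -, -, -⟩ := Val.not_out ho
  rw [valX_Y, hid] at o1 o2
  have key := onCell_sound (Q := fun u v x => ∀ q, thr fam (n1.Y.v u) q = v →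
    (valX fam s1 s2 n1 n2 pc u q x).altT (cond fam c b) P2 (Nat.add P2 W2) q cut ∨
      xt.P u q x ∨ R u q x) ?_ ht hp.1 hp.2 (q := thr fam (n1.Y.v p) q)
      (by rw [mulS]; linarith) (by rw [mulSw]; linarith) hx.1 hx.2
  · rcases key q rfl with h | h
    · refine Or.inl ?_
      rcases h with (h | h | h) | h
      · exact Or.inl h
      · exact absurd hq.1 (not_le.2 h)
      · exact absurd hq.2 (not_le.2 (by rw [← addS]; exact h))
      · exact Or.inr h
    · exact Or.inr h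
  · intro E h A Y C p v x h1 h2 h3 hl q hv
    subst hv
    have hA := n1.Y.enc h1
    have hB : Enc E (pnorm (bk1 fam (n1.Y.t A) Y)) q := by
      refine enc_norm (enc_cast ?_ (bk1_thr fam (n1.Y.v p) q))
      cases fam
      · exact enc_add h2 hA
      · exact enc_sub h2 hA
    have hl' : leafX fam s1 s2 n1 n2 cut xt k h C P2 (Nat.add P2 W2) A
        (pnorm (bk1 fam (n1.Y.t A) Y)) (n1.Y.t A) (pnorm (bk1 fam (n1.Y.t A) Y)) Y
        (pnorm (bk1 fam (n1.Y.t A) Y)) = true := by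
      have e : (frc (pnorm (bk1 fam (n1.Y.t A) Y)) fun B => leafX fam s1 s2 n1 n2 cut xt k h C
        P2 (Nat.add P2 W2) A B (n1.Y.t A) B Y B) = true := hl
      rwa [frc_eq] at e
    exact leafX_sound (m := cond fam c b) h1 hB h3 hA (by rw [hid]; exact hB)
      (by rw [hid]; exact h2) hB (hk h1 hB h3) hl'

/-- Certificates in the third height and the coordinate of the second node. -/
theorem crdX2_sound (hk : SndX fam s1 s2 n1 n2 pc k R) (hid : ∀ p, n1.Y.v p = p)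
    (ht : ∃ t, chk3 (onCell (Nat.mul (cond fam c b) 536870912) 536870912 P2 W2 P3 W3
      fun h u v x => crdsX 2 fam n1 n2 (qsf P1 W1 P2 W2 (cond fam c b))
      (leafX fam s1 s2 n1 n2 cut xt k h x) u v) t 1 1 1 = true) :
    Cert P1 W1 P2 W2 P3 W3 fun p q x =>
      (valX fam s1 s2 n1 n2 pc p q x).alt (cond fam c b) cut ∨ xt.P p q x ∨ R p q x := by
  intro p q x hp hq hx
  by_cases ho : (valX fam s1 s2 n1 n2 pc p q x).out (cond fam c b)
  · exact Or.inl (Or.inl ho)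
  obtain ⟨o1, o2, -, -, -⟩ := Val.not_out ho
  rw [valX_Y, hid] at o1 o2
  have key := onCell_sound (Q := fun u v x => ∀ p, thr fam p (n2.Y.v v) = u →
    (valX fam s1 s2 n1 n2 pc p v x).altT (cond fam c b) P1 (Nat.add P1 W1) p cut ∨
      xt.P p v x ∨ R p v x) ?_ ht (p := thr fam p (n2.Y.v q)) (by rw [mulS]; linarith)
      (by rw [mulSw]; linarith) hq.1 hq.2 hx.1 hx.2
  · rcases key p rfl with h | h
    · refine Or.inl ?_
      rcases h with (h | h | h) | h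
      · exact Or.inl h
      · exact absurd hp.1 (not_le.2 h)
      · exact absurd hp.2 (not_le.2 (by rw [← addS]; exact h))
      · exact Or.inr h
    · exact Or.inr h
  · intro E h Y B C v q x h1 h2 h3 hl p hv
    subst hv
    have hB := n2.Y.enc h2
    have hA : Enc E (pnorm (bk2 fam (n2.Y.t B) Y)) p := by
      refine enc_norm (enc_cast ?_ (bk2_thr fam p (n2.Y.v q)))
      cases fam
      · exact enc_sub hB h1
      · exact enc_sub h1 hB
    have hl' : leafX fam s1 s2 n1 n2 cut xt k h C P1 (Nat.add P1 W1)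
        (pnorm (bk2 fam (n2.Y.t B) Y)) B (pnorm (bk2 fam (n2.Y.t B) Y)) (n2.Y.t B) Y
        (pnorm (bk2 fam (n2.Y.t B) Y)) = true := by
      have e : (frc (pnorm (bk2 fam (n2.Y.t B) Y)) fun A => leafX fam s1 s2 n1 n2 cut xt k h C
        P1 (Nat.add P1 W1) A B A (n2.Y.t B) Y A) = true := hl
      rwa [frc_eq] at e
    exact leafX_sound (m := cond fam c b) hA h2 h3 (by rw [hid]; exact hA) hB
      (by rw [hid]; exact h1) hA (hk hA h2 h3) hl'

end

/-- The certificate of a row at the far vertex. -/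
abbrev CertFX (P1 W1 P2 W2 P3 W3 : ℕ) (fam s1 s2 : Bool) (cn : Con) (a b c : ℕ) (n1 n2 : NodeX)
    (pc : Piece) (cut : Cut) (xt : Ext) : Prop :=
  Cert P1 W1 P2 W2 P3 W3 (FarX fam s1 s2 cn a b c n1 n2 pc cut xt)

/-- The certificate of a row at the near vertex. -/
abbrev CertNX (P1 W1 P2 W2 P3 W3 N0 : ℕ) (fam s1 s2 : Bool) (cn : Con) (a b c : ℕ) (n1 n2 : NodeX)
    (pc : Piece) (cut : Cut) (xt : Ext) : Prop :=
  Cert P1 W1 P2 W2 P3 W3 (NearX N0 fam s1 s2 cn a b c n1 n2 pc cut xt)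

section

variable {fam s1 s2 : Bool} {a b c N0 : ℕ} {cn : Con} {n1 n2 : NodeX} {pc : Piece} {cut : Cut}
  {xt : Ext} {P1 W1 P2 W2 P3 W3 : ℕ}

theorem snd_kFX (hc : con a b c = some cn) : SndX fam s1 s2 n1 n2 pc
    (kFX fam s1 s2 cn a b c n1 n2 pc)
    (fun p q x => ∃ g, 0 < (valX fam s1 s2 n1 n2 pc p q x).farX cn a b c g) :=
  fun h1 h2 h3 g _ _ _ _ _ _ _ hA hZ hT hU hY hF he hk =>
    ⟨_, kFX_sound hc h1 h2 h3 g hA hZ hT hU hY hF he hk⟩

theorem snd_kNX (hc : con a b c = some cn) : SndX fam s1 s2 n1 n2 pc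
    (kNX N0 fam s1 s2 cn a b c n1 n2 pc)
    (fun p q x => ∃ g, 0 < (valX fam s1 s2 n1 n2 pc p q x).nearX N0 cn a b c g) :=
  fun h1 h2 h3 g _ _ _ _ _ _ _ hA hZ hT hU hY hF he hk =>
    ⟨_, kNX_sound hc h1 h2 h3 g hA hZ hT hU hY hF he hk⟩

/-- **A row at the far vertex** from its certificate, coordinates of both nodes. -/
theorem certFX0 (hc : con a b c = some cn) (ht : ∃ t, chk3 (onCell P1 W1 P2 W2 P3 W3
      (rowFX 0 fam s1 s2 cn a b c
        (qsf P1 W1 P2 W2 (cond fam c b)) n1 n2 pc cut xt)) t 1 1 1 = true) :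
    CertFX P1 W1 P2 W2 P3 W3 fam s1 s2 cn a b c n1 n2 pc cut xt := crdX0_sound (snd_kFX hc) ht

/-- **A row at the far vertex** from its certificate, first node and third height. -/
theorem certFX1 (hc : con a b c = some cn) (hid : ∀ q, n2.Y.v q = q)
    (ht : ∃ t, chk3 (onCell P1 W1 (Nat.mul (cond fam c b) 536870912) 536870912 P3 W3
      (rowFX 1 fam s1 s2 cn a b c
        (qsf P1 W1 P2 W2 (cond fam c b)) n1 n2 pc cut xt)) t 1 1 1 = true) :
    CertFX P1 W1 P2 W2 P3 W3 fam s1 s2 cn a b c n1 n2 pc cut xt :=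
  crdX1_sound (snd_kFX hc) hid ht

/-- **A row at the far vertex** from its certificate, third height and second node. -/
theorem certFX2 (hc : con a b c = some cn) (hid : ∀ p, n1.Y.v p = p)
    (ht : ∃ t, chk3 (onCell (Nat.mul (cond fam c b) 536870912) 536870912 P2 W2 P3 W3
      (rowFX 2 fam s1 s2 cn a b c
        (qsf P1 W1 P2 W2 (cond fam c b)) n1 n2 pc cut xt)) t 1 1 1 = true) :
    CertFX P1 W1 P2 W2 P3 W3 fam s1 s2 cn a b c n1 n2 pc cut xt :=
  crdX2_sound (snd_kFX hc) hid ht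

/-- **A row at the near vertex** from its certificate, coordinates of both nodes. -/
theorem certNX0 (hc : con a b c = some cn) (ht : ∃ t, chk3 (onCell P1 W1 P2 W2 P3 W3
      (rowNX N0 0 fam s1 s2 cn a b c
        (qsf P1 W1 P2 W2 (cond fam c b)) n1 n2 pc cut xt)) t 1 1 1 = true) :
    CertNX P1 W1 P2 W2 P3 W3 N0 fam s1 s2 cn a b c n1 n2 pc cut xt := crdX0_sound (snd_kNX hc) ht

/-- **A row at the near vertex** from its certificate, first node and third height. -/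
theorem certNX1 (hc : con a b c = some cn) (hid : ∀ q, n2.Y.v q = q)
    (ht : ∃ t, chk3 (onCell P1 W1 (Nat.mul (cond fam c b) 536870912) 536870912 P3 W3
      (rowNX N0 1 fam s1 s2 cn a b c
        (qsf P1 W1 P2 W2 (cond fam c b)) n1 n2 pc cut xt)) t 1 1 1 = true) :
    CertNX P1 W1 P2 W2 P3 W3 N0 fam s1 s2 cn a b c n1 n2 pc cut xt :=
  crdX1_sound (snd_kNX hc) hid ht

/-- **A row at the near vertex** from its certificate, third height and second node. -/
theorem certNX2 (hc : con a b c = some cn) (hid : ∀ p, n1.Y.v p = p)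
    (ht : ∃ t, chk3 (onCell (Nat.mul (cond fam c b) 536870912) 536870912 P2 W2 P3 W3
      (rowNX N0 2 fam s1 s2 cn a b c
        (qsf P1 W1 P2 W2 (cond fam c b)) n1 n2 pc cut xt)) t 1 1 1 = true) :
    CertNX P1 W1 P2 W2 P3 W3 N0 fam s1 s2 cn a b c n1 n2 pc cut xt :=
  crdX2_sound (snd_kNX hc) hid ht

end


end Pool.Agent.Strip051.PB
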