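import Pool.Agent.Strip051.PB.ThirdN

/-! # The third side for seven to ten segments -/

namespace Pool.Agent.Strip051.PB

open Pool.Agent.StripNear Pool.Agent.StripSquare Pool.Agent.Strip051.Sweep
open Pool.Agent.Strip051.LC

theorem third7 {P : Pos 7} {R : Fin 8 → ℕ → ℝ → ℝ → ℝ} {x : ℝ} (h : Pins P R x) {q : ℕ}
    {y : ℝ} (hq : InQ q y) {x0 x1 x2 x3 x4 x5 x6 x7 v0 v1 v2 v3 v4 v5 v6 v7 : ℝ} {S0 S1 S2 S3 S4 S5 S6 F : ℝ → ℝ}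
    (e0 : crv P 0 q y = x0) (e1 : crv P 1 q y = x1) (e2 : crv P 2 q y = x2) (e3 : crv P 3 q y = x3) (e4 : crv P 4 q y = x4) (e5 : crv P 5 q y = x5) (e6 : crv P 6 q y = x6) (e7 : crv P 7 q y = x7)
    (w0 : R 0 q y x = v0) (w1 : R 1 q y x = v1) (w2 : R 2 q y x = v2) (w3 : R 3 q y x = v3) (w4 : R 4 q y x = v4) (w5 : R 5 q y x = v5) (w6 : R 6 q y x = v6) (w7 : R 7 q y x = v7)
    (hF : ∀ X, F X = if X - x1 ≤ 0 then S0 X else if X - x2 ≤ 0 then S1 X else if X - x3 ≤ 0 then S2 X else if X - x4 ≤ 0 then S3 X else if X - x5 ≤ 0 then S4 X else if X - x6 ≤ 0 then S5 X else S6 X)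
    (h0 : ∀ X, x0 ≤ X → X ≤ x1 → Lin x0 x1 v0 v1 X (S0 X))
    (h1 : ∀ X, x1 ≤ X → X ≤ x2 → Lin x1 x2 v1 v2 X (S1 X))
    (h2 : ∀ X, x2 ≤ X → X ≤ x3 → Lin x2 x3 v2 v3 X (S2 X))
    (h3 : ∀ X, x3 ≤ X → X ≤ x4 → Lin x3 x4 v3 v4 X (S3 X))
    (h4 : ∀ X, x4 ≤ X → X ≤ x5 → Lin x4 x5 v4 v5 X (S4 X))
    (h5 : ∀ X, x5 ≤ X → X ≤ x6 → Lin x5 x6 v5 v6 X (S5 X))
    (h6 : ∀ X, x6 ≤ X → X ≤ x7 → Lin x6 x7 v6 v7 X (S6 X))
    {X : ℝ} (k1 : 1 ≤ qqn X y) (k3 : qqn X y ≤ 3) :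
    thd P R q X y x = if X ≤ 0 then -F (-X) else F X := by
  have key := h.third_eq hq (Sg := fun X => ![S0 X, S1 X, S2 X, S3 X, S4 X, S5 X, S6 X]) ?_ k1 k3
  · rw [key]
    have e : ∀ X, nst (List.ofFn fun i : Fin 7 => (crv P i.succ q y, (![S0 X, S1 X, S2 X, S3 X, S4 X, S5 X, S6 X] : Fin 7 → ℝ) i)) X =
        F X := by
      intro X
      rw [hF]
      have l : (List.ofFn fun i : Fin 7 => (crv P i.succ q y, (![S0 X, S1 X, S2 X, S3 X, S4 X, S5 X, S6 X] : Fin 7 → ℝ) i)) =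
          [(x1, S0 X), (x2, S1 X), (x3, S2 X), (x4, S3 X), (x5, S4 X), (x6, S5 X), (x7, S6 X)] := by
        rw [← e1, ← e2, ← e3, ← e4, ← e5, ← e6, ← e7]
        rfl
      rw [l]
      rfl
    unfold oddx
    simp only [e]
  · intro i X g1 g2 _ _ _
    fin_cases i
    · have a1 : x0 ≤ X := e0 ▸ g1
      have a2 : X ≤ x1 := e1 ▸ g2
      have := h0 X a1 a2
      rw [← e0, ← e1, ← w0, ← w1] at this
      exact this
    · have a1 : x1 ≤ X := e1 ▸ g1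
      have a2 : X ≤ x2 := e2 ▸ g2
      have := h1 X a1 a2
      rw [← e1, ← e2, ← w1, ← w2] at this
      exact this
    · have a1 : x2 ≤ X := e2 ▸ g1
      have a2 : X ≤ x3 := e3 ▸ g2
      have := h2 X a1 a2
      rw [← e2, ← e3, ← w2, ← w3] at this
      exact this
    · have a1 : x3 ≤ X := e3 ▸ g1
      have a2 : X ≤ x4 := e4 ▸ g2
      have := h3 X a1 a2
      rw [← e3, ← e4, ← w3, ← w4] at this
      exact this
    · have a1 : x4 ≤ X := e4 ▸ g1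
      have a2 : X ≤ x5 := e5 ▸ g2
      have := h4 X a1 a2
      rw [← e4, ← e5, ← w4, ← w5] at this
      exact this
    · have a1 : x5 ≤ X := e5 ▸ g1
      have a2 : X ≤ x6 := e6 ▸ g2
      have := h5 X a1 a2
      rw [← e5, ← e6, ← w5, ← w6] at this
      exact this
    · have a1 : x6 ≤ X := e6 ▸ g1
      have a2 : X ≤ x7 := e7 ▸ g2
      have := h6 X a1 a2
      rw [← e6, ← e7, ← w6, ← w7] at this
      exact this

theorem third8 {P : Pos 8} {R : Fin 9 → ℕ → ℝ → ℝ → ℝ} {x : ℝ} (h : Pins P R x) {q : ℕ}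
    {y : ℝ} (hq : InQ q y) {x0 x1 x2 x3 x4 x5 x6 x7 x8 v0 v1 v2 v3 v4 v5 v6 v7 v8 : ℝ} {S0 S1 S2 S3 S4 S5 S6 S7 F : ℝ → ℝ}
    (e0 : crv P 0 q y = x0) (e1 : crv P 1 q y = x1) (e2 : crv P 2 q y = x2) (e3 : crv P 3 q y = x3) (e4 : crv P 4 q y = x4) (e5 : crv P 5 q y = x5) (e6 : crv P 6 q y = x6) (e7 : crv P 7 q y = x7) (e8 : crv P 8 q y = x8)
    (w0 : R 0 q y x = v0) (w1 : R 1 q y x = v1) (w2 : R 2 q y x = v2) (w3 : R 3 q y x = v3) (w4 : R 4 q y x = v4) (w5 : R 5 q y x = v5) (w6 : R 6 q y x = v6) (w7 : R 7 q y x = v7) (w8 : R 8 q y x = v8)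
    (hF : ∀ X, F X = if X - x1 ≤ 0 then S0 X else if X - x2 ≤ 0 then S1 X else if X - x3 ≤ 0 then S2 X else if X - x4 ≤ 0 then S3 X else if X - x5 ≤ 0 then S4 X else if X - x6 ≤ 0 then S5 X else if X - x7 ≤ 0 then S6 X else S7 X)
    (h0 : ∀ X, x0 ≤ X → X ≤ x1 → Lin x0 x1 v0 v1 X (S0 X))
    (h1 : ∀ X, x1 ≤ X → X ≤ x2 → Lin x1 x2 v1 v2 X (S1 X))
    (h2 : ∀ X, x2 ≤ X → X ≤ x3 → Lin x2 x3 v2 v3 X (S2 X))
    (h3 : ∀ X, x3 ≤ X → X ≤ x4 → Lin x3 x4 v3 v4 X (S3 X))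
    (h4 : ∀ X, x4 ≤ X → X ≤ x5 → Lin x4 x5 v4 v5 X (S4 X))
    (h5 : ∀ X, x5 ≤ X → X ≤ x6 → Lin x5 x6 v5 v6 X (S5 X))
    (h6 : ∀ X, x6 ≤ X → X ≤ x7 → Lin x6 x7 v6 v7 X (S6 X))
    (h7 : ∀ X, x7 ≤ X → X ≤ x8 → Lin x7 x8 v7 v8 X (S7 X))
    {X : ℝ} (k1 : 1 ≤ qqn X y) (k3 : qqn X y ≤ 3) :
    thd P R q X y x = if X ≤ 0 then -F (-X) else F X := by
  have key := h.third_eq hq (Sg := fun X => ![S0 X, S1 X, S2 X, S3 X, S4 X, S5 X, S6 X, S7 X]) ?_ k1 k3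
  · rw [key]
    have e : ∀ X, nst (List.ofFn fun i : Fin 8 => (crv P i.succ q y, (![S0 X, S1 X, S2 X, S3 X, S4 X, S5 X, S6 X, S7 X] : Fin 8 → ℝ) i)) X =
        F X := by
      intro X
      rw [hF]
      have l : (List.ofFn fun i : Fin 8 => (crv P i.succ q y, (![S0 X, S1 X, S2 X, S3 X, S4 X, S5 X, S6 X, S7 X] : Fin 8 → ℝ) i)) =
          [(x1, S0 X), (x2, S1 X), (x3, S2 X), (x4, S3 X), (x5, S4 X), (x6, S5 X), (x7, S6 X), (x8, S7 X)] := by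
        rw [← e1, ← e2, ← e3, ← e4, ← e5, ← e6, ← e7, ← e8]
        rfl
      rw [l]
      rfl
    unfold oddx
    simp only [e]
  · intro i X g1 g2 _ _ _
    fin_cases i
    · have a1 : x0 ≤ X := e0 ▸ g1
      have a2 : X ≤ x1 := e1 ▸ g2
      have := h0 X a1 a2
      rw [← e0, ← e1, ← w0, ← w1] at this
      exact this
    · have a1 : x1 ≤ X := e1 ▸ g1
      have a2 : X ≤ x2 := e2 ▸ g2
      have := h1 X a1 a2
      rw [← e1, ← e2, ← w1, ← w2] at this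
      exact this
    · have a1 : x2 ≤ X := e2 ▸ g1
      have a2 : X ≤ x3 := e3 ▸ g2
      have := h2 X a1 a2
      rw [← e2, ← e3, ← w2, ← w3] at this
      exact this
    · have a1 : x3 ≤ X := e3 ▸ g1
      have a2 : X ≤ x4 := e4 ▸ g2
      have := h3 X a1 a2
      rw [← e3, ← e4, ← w3, ← w4] at this
      exact this
    · have a1 : x4 ≤ X := e4 ▸ g1
      have a2 : X ≤ x5 := e5 ▸ g2
      have := h4 X a1 a2
      rw [← e4, ← e5, ← w4, ← w5] at this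
      exact this
    · have a1 : x5 ≤ X := e5 ▸ g1
      have a2 : X ≤ x6 := e6 ▸ g2
      have := h5 X a1 a2
      rw [← e5, ← e6, ← w5, ← w6] at this
      exact this
    · have a1 : x6 ≤ X := e6 ▸ g1
      have a2 : X ≤ x7 := e7 ▸ g2
      have := h6 X a1 a2
      rw [← e6, ← e7, ← w6, ← w7] at this
      exact this
    · have a1 : x7 ≤ X := e7 ▸ g1
      have a2 : X ≤ x8 := e8 ▸ g2
      have := h7 X a1 a2
      rw [← e7, ← e8, ← w7, ← w8] at this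
      exact this

theorem third9 {P : Pos 9} {R : Fin 10 → ℕ → ℝ → ℝ → ℝ} {x : ℝ} (h : Pins P R x) {q : ℕ}
    {y : ℝ} (hq : InQ q y) {x0 x1 x2 x3 x4 x5 x6 x7 x8 x9 v0 v1 v2 v3 v4 v5 v6 v7 v8 v9 : ℝ} {S0 S1 S2 S3 S4 S5 S6 S7 S8 F : ℝ → ℝ}
    (e0 : crv P 0 q y = x0) (e1 : crv P 1 q y = x1) (e2 : crv P 2 q y = x2) (e3 : crv P 3 q y = x3) (e4 : crv P 4 q y = x4) (e5 : crv P 5 q y = x5) (e6 : crv P 6 q y = x6) (e7 : crv P 7 q y = x7) (e8 : crv P 8 q y = x8) (e9 : crv P 9 q y = x9)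
    (w0 : R 0 q y x = v0) (w1 : R 1 q y x = v1) (w2 : R 2 q y x = v2) (w3 : R 3 q y x = v3) (w4 : R 4 q y x = v4) (w5 : R 5 q y x = v5) (w6 : R 6 q y x = v6) (w7 : R 7 q y x = v7) (w8 : R 8 q y x = v8) (w9 : R 9 q y x = v9)
    (hF : ∀ X, F X = if X - x1 ≤ 0 then S0 X else if X - x2 ≤ 0 then S1 X else if X - x3 ≤ 0 then S2 X else if X - x4 ≤ 0 then S3 X else if X - x5 ≤ 0 then S4 X else if X - x6 ≤ 0 then S5 X else if X - x7 ≤ 0 then S6 X else if X - x8 ≤ 0 then S7 X else S8 X)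
    (h0 : ∀ X, x0 ≤ X → X ≤ x1 → Lin x0 x1 v0 v1 X (S0 X))
    (h1 : ∀ X, x1 ≤ X → X ≤ x2 → Lin x1 x2 v1 v2 X (S1 X))
    (h2 : ∀ X, x2 ≤ X → X ≤ x3 → Lin x2 x3 v2 v3 X (S2 X))
    (h3 : ∀ X, x3 ≤ X → X ≤ x4 → Lin x3 x4 v3 v4 X (S3 X))
    (h4 : ∀ X, x4 ≤ X → X ≤ x5 → Lin x4 x5 v4 v5 X (S4 X))
    (h5 : ∀ X, x5 ≤ X → X ≤ x6 → Lin x5 x6 v5 v6 X (S5 X))
    (h6 : ∀ X, x6 ≤ X → X ≤ x7 → Lin x6 x7 v6 v7 X (S6 X))
    (h7 : ∀ X, x7 ≤ X → X ≤ x8 → Lin x7 x8 v7 v8 X (S7 X))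
    (h8 : ∀ X, x8 ≤ X → X ≤ x9 → Lin x8 x9 v8 v9 X (S8 X))
    {X : ℝ} (k1 : 1 ≤ qqn X y) (k3 : qqn X y ≤ 3) :
    thd P R q X y x = if X ≤ 0 then -F (-X) else F X := by
  have key := h.third_eq hq (Sg := fun X => ![S0 X, S1 X, S2 X, S3 X, S4 X, S5 X, S6 X, S7 X, S8 X]) ?_ k1 k3
  · rw [key]
    have e : ∀ X, nst (List.ofFn fun i : Fin 9 => (crv P i.succ q y, (![S0 X, S1 X, S2 X, S3 X, S4 X, S5 X, S6 X, S7 X, S8 X] : Fin 9 → ℝ) i)) X =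
        F X := by
      intro X
      rw [hF]
      have l : (List.ofFn fun i : Fin 9 => (crv P i.succ q y, (![S0 X, S1 X, S2 X, S3 X, S4 X, S5 X, S6 X, S7 X, S8 X] : Fin 9 → ℝ) i)) =
          [(x1, S0 X), (x2, S1 X), (x3, S2 X), (x4, S3 X), (x5, S4 X), (x6, S5 X), (x7, S6 X), (x8, S7 X), (x9, S8 X)] := by
        rw [← e1, ← e2, ← e3, ← e4, ← e5, ← e6, ← e7, ← e8, ← e9]
        rfl
      rw [l]
      rfl
    unfold oddx
    simp only [e]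
  · intro i X g1 g2 _ _ _
    fin_cases i
    · have a1 : x0 ≤ X := e0 ▸ g1
      have a2 : X ≤ x1 := e1 ▸ g2
      have := h0 X a1 a2
      rw [← e0, ← e1, ← w0, ← w1] at this
      exact this
    · have a1 : x1 ≤ X := e1 ▸ g1
      have a2 : X ≤ x2 := e2 ▸ g2
      have := h1 X a1 a2
      rw [← e1, ← e2, ← w1, ← w2] at this
      exact this
    · have a1 : x2 ≤ X := e2 ▸ g1
      have a2 : X ≤ x3 := e3 ▸ g2
      have := h2 X a1 a2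
      rw [← e2, ← e3, ← w2, ← w3] at this
      exact this
    · have a1 : x3 ≤ X := e3 ▸ g1
      have a2 : X ≤ x4 := e4 ▸ g2
      have := h3 X a1 a2
      rw [← e3, ← e4, ← w3, ← w4] at this
      exact this
    · have a1 : x4 ≤ X := e4 ▸ g1
      have a2 : X ≤ x5 := e5 ▸ g2
      have := h4 X a1 a2
      rw [← e4, ← e5, ← w4, ← w5] at this
      exact this
    · have a1 : x5 ≤ X := e5 ▸ g1
      have a2 : X ≤ x6 := e6 ▸ g2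
      have := h5 X a1 a2
      rw [← e5, ← e6, ← w5, ← w6] at this
      exact this
    · have a1 : x6 ≤ X := e6 ▸ g1
      have a2 : X ≤ x7 := e7 ▸ g2
      have := h6 X a1 a2
      rw [← e6, ← e7, ← w6, ← w7] at this
      exact this
    · have a1 : x7 ≤ X := e7 ▸ g1
      have a2 : X ≤ x8 := e8 ▸ g2
      have := h7 X a1 a2
      rw [← e7, ← e8, ← w7, ← w8] at this
      exact this
    · have a1 : x8 ≤ X := e8 ▸ g1
      have a2 : X ≤ x9 := e9 ▸ g2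
      have := h8 X a1 a2
      rw [← e8, ← e9, ← w8, ← w9] at this
      exact this

theorem third10 {P : Pos 10} {R : Fin 11 → ℕ → ℝ → ℝ → ℝ} {x : ℝ} (h : Pins P R x) {q : ℕ}
    {y : ℝ} (hq : InQ q y) {x0 x1 x2 x3 x4 x5 x6 x7 x8 x9 x10 v0 v1 v2 v3 v4 v5 v6 v7 v8 v9 v10 : ℝ} {S0 S1 S2 S3 S4 S5 S6 S7 S8 S9 F : ℝ → ℝ}
    (e0 : crv P 0 q y = x0) (e1 : crv P 1 q y = x1) (e2 : crv P 2 q y = x2) (e3 : crv P 3 q y = x3) (e4 : crv P 4 q y = x4) (e5 : crv P 5 q y = x5) (e6 : crv P 6 q y = x6) (e7 : crv P 7 q y = x7) (e8 : crv P 8 q y = x8) (e9 : crv P 9 q y = x9) (e10 : crv P 10 q y = x10)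
    (w0 : R 0 q y x = v0) (w1 : R 1 q y x = v1) (w2 : R 2 q y x = v2) (w3 : R 3 q y x = v3) (w4 : R 4 q y x = v4) (w5 : R 5 q y x = v5) (w6 : R 6 q y x = v6) (w7 : R 7 q y x = v7) (w8 : R 8 q y x = v8) (w9 : R 9 q y x = v9) (w10 : R 10 q y x = v10)
    (hF : ∀ X, F X = if X - x1 ≤ 0 then S0 X else if X - x2 ≤ 0 then S1 X else if X - x3 ≤ 0 then S2 X else if X - x4 ≤ 0 then S3 X else if X - x5 ≤ 0 then S4 X else if X - x6 ≤ 0 then S5 X else if X - x7 ≤ 0 then S6 X else if X - x8 ≤ 0 then S7 X else if X - x9 ≤ 0 then S8 X else S9 X)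
    (h0 : ∀ X, x0 ≤ X → X ≤ x1 → Lin x0 x1 v0 v1 X (S0 X))
    (h1 : ∀ X, x1 ≤ X → X ≤ x2 → Lin x1 x2 v1 v2 X (S1 X))
    (h2 : ∀ X, x2 ≤ X → X ≤ x3 → Lin x2 x3 v2 v3 X (S2 X))
    (h3 : ∀ X, x3 ≤ X → X ≤ x4 → Lin x3 x4 v3 v4 X (S3 X))
    (h4 : ∀ X, x4 ≤ X → X ≤ x5 → Lin x4 x5 v4 v5 X (S4 X))
    (h5 : ∀ X, x5 ≤ X → X ≤ x6 → Lin x5 x6 v5 v6 X (S5 X))
    (h6 : ∀ X, x6 ≤ X → X ≤ x7 → Lin x6 x7 v6 v7 X (S6 X))
    (h7 : ∀ X, x7 ≤ X → X ≤ x8 → Lin x7 x8 v7 v8 X (S7 X))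
    (h8 : ∀ X, x8 ≤ X → X ≤ x9 → Lin x8 x9 v8 v9 X (S8 X))
    (h9 : ∀ X, x9 ≤ X → X ≤ x10 → Lin x9 x10 v9 v10 X (S9 X))
    {X : ℝ} (k1 : 1 ≤ qqn X y) (k3 : qqn X y ≤ 3) :
    thd P R q X y x = if X ≤ 0 then -F (-X) else F X := by
  have key := h.third_eq hq (Sg := fun X => ![S0 X, S1 X, S2 X, S3 X, S4 X, S5 X, S6 X, S7 X, S8 X, S9 X]) ?_ k1 k3
  · rw [key]
    have e : ∀ X, nst (List.ofFn fun i : Fin 10 => (crv P i.succ q y, (![S0 X, S1 X, S2 X, S3 X, S4 X, S5 X, S6 X, S7 X, S8 X, S9 X] : Fin 10 → ℝ) i)) X =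
        F X := by
      intro X
      rw [hF]
      have l : (List.ofFn fun i : Fin 10 => (crv P i.succ q y, (![S0 X, S1 X, S2 X, S3 X, S4 X, S5 X, S6 X, S7 X, S8 X, S9 X] : Fin 10 → ℝ) i)) =
          [(x1, S0 X), (x2, S1 X), (x3, S2 X), (x4, S3 X), (x5, S4 X), (x6, S5 X), (x7, S6 X), (x8, S7 X), (x9, S8 X), (x10, S9 X)] := by
        rw [← e1, ← e2, ← e3, ← e4, ← e5, ← e6, ← e7, ← e8, ← e9, ← e10]
        rfl
      rw [l]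
      rfl
    unfold oddx
    simp only [e]
  · intro i X g1 g2 _ _ _
    fin_cases i
    · have a1 : x0 ≤ X := e0 ▸ g1
      have a2 : X ≤ x1 := e1 ▸ g2
      have := h0 X a1 a2
      rw [← e0, ← e1, ← w0, ← w1] at this
      exact this
    · have a1 : x1 ≤ X := e1 ▸ g1
      have a2 : X ≤ x2 := e2 ▸ g2
      have := h1 X a1 a2
      rw [← e1, ← e2, ← w1, ← w2] at this
      exact this
    · have a1 : x2 ≤ X := e2 ▸ g1
      have a2 : X ≤ x3 := e3 ▸ g2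
      have := h2 X a1 a2
      rw [← e2, ← e3, ← w2, ← w3] at this
      exact this
    · have a1 : x3 ≤ X := e3 ▸ g1
      have a2 : X ≤ x4 := e4 ▸ g2
      have := h3 X a1 a2
      rw [← e3, ← e4, ← w3, ← w4] at this
      exact this
    · have a1 : x4 ≤ X := e4 ▸ g1
      have a2 : X ≤ x5 := e5 ▸ g2
      have := h4 X a1 a2
      rw [← e4, ← e5, ← w4, ← w5] at this
      exact this
    · have a1 : x5 ≤ X := e5 ▸ g1
      have a2 : X ≤ x6 := e6 ▸ g2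
      have := h5 X a1 a2
      rw [← e5, ← e6, ← w5, ← w6] at this
      exact this
    · have a1 : x6 ≤ X := e6 ▸ g1
      have a2 : X ≤ x7 := e7 ▸ g2
      have := h6 X a1 a2
      rw [← e6, ← e7, ← w6, ← w7] at this
      exact this
    · have a1 : x7 ≤ X := e7 ▸ g1
      have a2 : X ≤ x8 := e8 ▸ g2
      have := h7 X a1 a2
      rw [← e7, ← e8, ← w7, ← w8] at this
      exact this
    · have a1 : x8 ≤ X := e8 ▸ g1
      have a2 : X ≤ x9 := e9 ▸ g2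
      have := h8 X a1 a2
      rw [← e8, ← e9, ← w8, ← w9] at this
      exact this
    · have a1 : x9 ≤ X := e9 ▸ g1
      have a2 : X ≤ x10 := e10 ▸ g2
      have := h9 X a1 a2
      rw [← e9, ← e10, ← w9, ← w10] at this
      exact this

end Pool.Agent.Strip051.PB
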