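import Pool.Agent.Strip051.PB.FxWin

/-! # The rows at the floor near the full period: the final form -/

namespace Pool.Agent.Strip051.LC.E1

open Pool.Agent.StripNear Pool.Agent.StripSquare Pool.Agent.Strip051 Pool.Agent.Strip051.Sweep
open Pool.Agent.Strip051.LC

section

variable {T : Tab} {C : ℝ → ℝ → ℝ} {f : ℝ → ℝ} {Nd : ℝ → ℝ → Prop} {N0 : ℕ}
  {a κ s τ η D0 UM : ℝ} {al be al' be' : ℝ → ℝ}

/-- **The rows with three kernels and the window of variable size.** -/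
theorem rowWin3 (h : FixDir T C f Nd N0 a κ s) (hN3 : 3 ≤ N0) (hτ : 0 ≤ τ) (t1 : τ ≤ 1 / 50)
    (hη : η ≤ 1 / 50) (hD0 : 1 ≤ D0) (hU : 2 + 29 / 10 * τ ≤ D0 ^ 2 + 2 * D0 * UM)
    (hF : WinA (U0 T C f κ s) τ η D0 UM al be) (hN : WinA (UN T C f N0 κ s) τ η D0 UM al' be') :
    RowOK (T.flat3 C f N0 κ s) N0 s := by
  refine Or.inr (starSmall_of_win h.okD hτ t1 hη hD0 hU
    (hF.winV (edgeU0 h.ok h.oddC h.pieces).comm (fun p q k => WF_far3 k) ?_)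
    (hN.winV (edgeUN h.ok h.oddC h.pieces).comm (fun p q k => WF_near3 h.s0 h.s1 k) ?_))
  · intro p q r _ _ _ k0 k1 k2 k3 k4 k5 k6 _ _ _
    exact h.tri0 p q r k0 k1 k2 k3 k4 k5 k6
  · intro p q r hp hq hr k0 k1 k2 k3 k4 k5 k6 l1 l2 l3
    exact h.triN hN3 p q r hp hq hr k0 k1 k2 k3 k4 k5 k6 l1 l2 l3

end

end Pool.Agent.Strip051.LC.E1

namespace Pool.Agent.Strip051.PB

open Pool.Agent.StripNear Pool.Agent.StripSquare Pool.Agent.Strip051.Sweep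
open Pool.Agent.Strip051.LC Pool.Agent.Strip051.LC.Exact

section

variable {n : ℕ} {D : PV n} {x : ℝ} {vA vB vX : ℝ → Fin (n + 1) → ℝ} {N0 : ℕ}
  {a κ t0 g0 D0 UM : ℝ} {al be al' be' : ℝ → ℝ} {RA RB RL : Fin (n + 1) → ℕ → ℝ → ℝ → ℝ}
  {TA TB TL TL' : ℕ → ℝ → ℝ → ℝ → ℝ}

theorem mun_nn (x : ℝ) (N : ℕ) : 0 ≤ mun N x := by
  unfold mun
  have : 0 ≤ c1n x := Real.sqrt_nonneg _
  positivity

theorem par2_far (x0 : 0 < x) (x1 : x < 1) : Par2 x 0 := ⟨x0, x1, kE_nn x0 x1, le_rfl⟩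

theorem par2_near (x0 : 0 < x) (x1 : x < 1) (N : ℕ) : Par2 x (mun N x) :=
  ⟨x0, x1, kE_nn x0 x1, mun_nn x N⟩

/-- **Two kernels in the direct form, the window of variable size.** -/
theorem certT_winE (h : CertT D.cur vA vB vX N0 a κ (h0 * x)) (hκ : κ = kE (h0 * x))
    (hN : 3 ≤ N0) (x0 : 0 < x) (x1 : x < 1) (lA : Link D.cur x vA RA TA)
    (lB : Link D.cur x vB RB TB) (lL : Link D.cur x vX RL TL) (lL' : Link D.cur x vX RL TL')
    (WF : EdgeU (UD D x 0 vA vX) (NodeAt D.cur.nodes) →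
      WinE D x 0 vA vX RA RL TA TL t0 g0 D0 UM al be)
    (WN : EdgeU (UD D x (mun N0 x) vB vX) (NodeAt D.cur.nodes) →
      WinE D x (mun N0 x) vB vX RB RL TB TL' t0 g0 D0 UM al' be')
    (t00 : 0 ≤ t0) (t01 : t0 ≤ 1 / 100) (hg0 : 0 ≤ g0) (g01 : g0 ≤ 1 / 100) (D1 : 1 ≤ D0)
    (hUM : 0 ≤ UM) (hU : 2 + 29 / 10 * (h0 * t0) ≤ D0 ^ 2 + 2 * D0 * UM) :
    RowOK ((tab D.cur.nodes vA vB vX).flat3 (ker D.cur.nodes (fun _ _ => 0) fun _ _ => 0)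
      (fun _ => 0) N0 κ (h0 * x)) N0 (h0 * x) := by
  subst hκ
  have hp := h0_pos
  have hlt := h0_lt_one
  have e : (ker D.cur.nodes (fun _ _ => (0 : ℝ)) fun _ _ => 0) = fun _ _ => 0 := by
    funext X T
    exact ker_zero_val D.cur.isNodes X T
  have h2 := h.certD.fixDir
  rw [e] at h2 ⊢
  have eF : U0 (tab D.cur.nodes vA vB vX) (fun _ _ => 0) (fun _ => 0) (kE (h0 * x)) (h0 * x) =
      UD D x 0 vA vX := U0_eq _ _ _ _
  have eN : UN (tab D.cur.nodes vA vB vX) (fun _ _ => 0) (fun _ => 0) N0 (kE (h0 * x)) (h0 * x) =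
      UD D x (mun N0 x) vB vX := by
    rw [UN_eq, mu_n]
    rfl
  have hEF := edgeU0 (κ := kE (h0 * x)) (s := h0 * x) (f := fun _ => 0) h2.ok h2.oddC h2.pieces
  have hEN := edgeUN (κ := kE (h0 * x)) (s := h0 * x) (f := fun _ => 0) (N0 := N0) h2.ok h2.oddC
    h2.pieces
  rw [eF] at hEF
  rw [eN] at hEN
  have kF := WinE.winA (par2_far x0 x1) hEF lA lL (WF hEF) t00 t01 hg0 D1 hUM
  have kN := WinE.winA (par2_near x0 x1 N0) hEN lB lL' (WN hEN) t00 t01 hg0 D1 hUM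
  rw [← eF] at kF
  rw [← eN] at kN
  exact E1.rowWin3 h2 hN (mul_nonneg hp.le t00) (by nlinarith) (by nlinarith) D1 hU kF kN

end

end Pool.Agent.Strip051.PB
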