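import Pool.Agent.Strip051.PB.FxLib

/-! # The slack and the growth at the floor near the full period in regular form -/

namespace Pool.Agent.Strip051.PB.Fx

open Pool.Agent.Strip051.PB Pool.Agent.Strip051.LC
open Pool.Agent.Strip051.LC.Floor (G En Qn fS G_nonneg G_sq)

theorem c1n_G' (y : ℝ) : c1n y = G y := rfl

/-- The tangent at the full period, a chord. -/
noncomputable def cpR (x : ℝ) : ℝ := 3 / 4 * (1 + x) / (G x + 1 / 2)

/-- The amplitude divided by `1 - x`. -/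
noncomputable def ehR (x : ℝ) : ℝ := cpR x - 1 / 2

/-- The shift of the level. -/
noncomputable def lamR (x : ℝ) : ℝ := 2 * (1 - G x)

section

variable {x μ y X A L m t : ℝ} {q : ℕ}

theorem g_cp (h0 : 0 ≤ x) (h1 : x ≤ 1) : G x - 1 / 2 = (1 - x) * cpR x := by
  have g0 := G_nonneg x
  have g2 := G_sq (y := x) (by nlinarith)
  have h : G x + 1 / 2 ≠ 0 := by linarith
  unfold cpR
  field_simp
  nlinarith

theorem En_e (h0 : 0 ≤ x) (h1 : x ≤ 1) : En x = (1 - x) * ehR x := by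
  have := g_cp h0 h1
  unfold En ehR
  linarith

theorem Qn_e (h0 : 0 ≤ x) (h1 : x ≤ 1) : Qn x = (1 - x) * (lamR x * cpR x) := by
  have := g_cp h0 h1
  unfold Qn lamR
  have e : 2 * G x - 1 = 2 * ((1 - x) * cpR x) := by linarith
  rw [e]
  ring

theorem ehR_pos (h0 : 0 < x) (h1 : x < 1) : 0 < ehR x := by
  have g0 := G_nonneg x
  have g2 := G_sq (y := x) (by nlinarith)
  have h : 0 < G x + 1 / 2 := by linarith
  have g1 : G x ≤ 1 := by nlinarith
  unfold ehR cpR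
  rw [sub_pos, lt_div_iff₀ h]
  nlinarith

/-- The slack with the mean `m`. -/
noncomputable def usE (x μ y X A L m : ℝ) : ℝ :=
  (X * (1 + y) - 1) / 2 - (1 / 2 - μ * G x - μ * ((y - x) / 2)) * L -
    (1 - x) * (X * (ehR x + μ * (lamR x * cpR x)) + ehR x * (A * m))

/-- A lower bound of the slack if the mean is between `-1` and `1`. -/
noncomputable def ubE (x μ y X A L : ℝ) : ℝ :=
  (X * (1 + y) - 1) / 2 - (1 / 2 - μ * G x - μ * ((y - x) / 2)) * L -
    (1 - x) * (X * (ehR x + μ * (lamR x * cpR x)) + ehR x * |A|)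

/-- A lower bound of the growth. -/
noncomputable def glE (x μ X A L : ℝ) : ℝ :=
  X + μ * L - 2 * (ehR x * ((1 - x) * (max A 0 * x⁻¹) + max (-A) 0))

/-- An upper bound of the growth. -/
noncomputable def guE (x μ X A L t : ℝ) : ℝ :=
  X + μ * L + 2 * ((1 - x) * (ehR x * (max A 0 * t⁻¹ + max (-A) 0 * x⁻¹)))

/-- An upper bound of the growth. -/
noncomputable def gbE (x μ X A L : ℝ) : ℝ :=
  X + μ * L + 2 * (ehR x * (max A 0 + (1 - x) * (max (-A) 0 * x⁻¹)))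

theorem us2_e (h0 : 0 ≤ x) (h1 : x ≤ 1) : us2 x μ q y X A L = usE x μ y X A L (mnQ q x y) := by
  unfold us2 fS usE
  rw [En_e h0 h1, Qn_e h0 h1]
  ring

theorem mn_even {v : ℝ} (hv : v ≤ x) : mnE x v = (v - x) * x⁻¹ := by
  unfold mnE wgE
  rw [if_pos (by linarith)]

theorem mnQ_zero (hv : y ≤ x) (h0 : x ≠ 0) : mnQ 0 x y = y * x⁻¹ - 1 := by
  show mnE x y = _
  rw [mn_even hv]
  field_simp

theorem mnQ_two (hv : y - 1 ≤ x) (h0 : x ≠ 0) : mnQ 2 x y = (y - 1) * x⁻¹ - 1 := by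
  show mnE x (y - 1) = _
  rw [mn_even hv]
  field_simp

theorem mnO_lt {v : ℝ} (hv : v < x) : mnO x v = (x - v) * (v * (x * (1 - v))⁻¹) := by
  unfold mnO wgO
  rw [if_neg (by linarith)]

theorem mnQ_one (hv : y < x) : mnQ 1 x y = (x - y) * (y * (x * (1 - y))⁻¹) := mnO_lt hv

theorem mnQ_three (hv : y - 1 < x) :
    mnQ 3 x y = (x - (y - 1)) * ((y - 1) * (x * (1 - (y - 1)))⁻¹) := mnO_lt hv

theorem mnQ_abs (h0 : 0 < x) (h1 : x < 1) (hy : 0 ≤ y) (hy1 : y ≤ 1) : |mnQ 1 x y| ≤ 1 := by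
  show |mnO x y| ≤ 1
  unfold mnO wgO
  split_ifs with h
  · rw [← div_eq_mul_inv, abs_div, abs_of_pos (by linarith : 0 < 1 - x), div_le_one (by linarith),
      abs_of_nonpos (by linarith)]
    linarith
  · push Not at h
    have h2 : 0 < x * (1 - y) := mul_pos h0 (by linarith)
    have e : (x - y) * (y * (x * (1 - y))⁻¹) = (x - y) * y / (x * (1 - y)) := by
      rw [div_eq_mul_inv]
      ring
    rw [e, abs_div, abs_of_pos h2, div_le_one h2, abs_of_nonneg (mul_nonneg h.le hy)]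
    nlinarith [sq_nonneg (x - y)]

theorem ub_le (h0 : 0 < x) (h1 : x < 1) (hm : |m| ≤ 1) :
    ubE x μ y X A L ≤ usE x μ y X A L m := by
  have he := (ehR_pos h0 h1).le
  have k : A * m ≤ |A| := by
    calc A * m ≤ |A * m| := le_abs_self _
      _ = |A| * |m| := abs_mul _ _
      _ ≤ |A| * 1 := mul_le_mul_of_nonneg_left hm (abs_nonneg _)
      _ = |A| := mul_one _
  have k2 : (1 - x) * (ehR x * (A * m)) ≤ (1 - x) * (ehR x * |A|) :=
    mul_le_mul_of_nonneg_left (mul_le_mul_of_nonneg_left k he) (by linarith)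
  unfold ubE usE
  nlinarith

theorem gl2_ge (h0 : 0 < x) (h1 : x < 1) : glE x μ X A L ≤ gl2 x μ q y X A L := by
  have he := (ehR_pos h0 h1).le
  have a0 : (0 : ℝ) ≤ max A 0 := le_max_right _ _
  have b0 : (0 : ℝ) ≤ max (-A) 0 := le_max_right _ _
  have k1 : (max x (taq q y))⁻¹ ≤ x⁻¹ := inv_anti₀ h0 (le_max_left _ _)
  have h2 : 0 < 1 - x := by linarith
  have k2 : (max (1 - x) (taq q y))⁻¹ ≤ (1 - x)⁻¹ := inv_anti₀ h2 (le_max_left _ _)
  have k3 : max (-A) 0 * (max (1 - x) (taq q y))⁻¹ ≤ max (-A) 0 * (1 - x)⁻¹ :=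
    mul_le_mul_of_nonneg_left k2 b0
  have k4 : max A 0 * (max x (taq q y))⁻¹ ≤ max A 0 * x⁻¹ := mul_le_mul_of_nonneg_left k1 a0
  have k5 : ehR x * ((1 - x) * (max A 0 * (max x (taq q y))⁻¹ +
      max (-A) 0 * (max (1 - x) (taq q y))⁻¹)) ≤
      ehR x * ((1 - x) * (max A 0 * x⁻¹ + max (-A) 0 * (1 - x)⁻¹)) :=
    mul_le_mul_of_nonneg_left (mul_le_mul_of_nonneg_left (by linarith) h2.le) he
  have e : (1 - x) * (max A 0 * x⁻¹ + max (-A) 0 * (1 - x)⁻¹) =
      (1 - x) * (max A 0 * x⁻¹) + max (-A) 0 := by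
    field_simp
  rw [e] at k5
  unfold gl2 grL glE
  rw [En_e h0.le h1.le]
  simp only [abs_zero, mul_zero, sub_zero]
  nlinarith

theorem gu2_le (h0 : 0 < x) (h1 : x < 1) (ht : 0 < t) (h : t ≤ taq q y) :
    gu2 x μ q y X A L ≤ guE x μ X A L t := by
  have he := (ehR_pos h0 h1).le
  have a0 : (0 : ℝ) ≤ max A 0 := le_max_right _ _
  have b0 : (0 : ℝ) ≤ max (-A) 0 := le_max_right _ _
  have k1 : (max x (taq q y))⁻¹ ≤ x⁻¹ := inv_anti₀ h0 (le_max_left _ _)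
  have h2 : 0 < 1 - x := by linarith
  have k2 : (max (1 - x) (taq q y))⁻¹ ≤ t⁻¹ := inv_anti₀ ht (h.trans (le_max_right _ _))
  have k3 : max (-A) 0 * (max x (taq q y))⁻¹ ≤ max (-A) 0 * x⁻¹ :=
    mul_le_mul_of_nonneg_left k1 b0
  have k4 : max A 0 * (max (1 - x) (taq q y))⁻¹ ≤ max A 0 * t⁻¹ :=
    mul_le_mul_of_nonneg_left k2 a0
  have k5 : (1 - x) * (ehR x * (max A 0 * (max (1 - x) (taq q y))⁻¹ +
      max (-A) 0 * (max x (taq q y))⁻¹)) ≤
      (1 - x) * (ehR x * (max A 0 * t⁻¹ + max (-A) 0 * x⁻¹)) :=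
    mul_le_mul_of_nonneg_left (mul_le_mul_of_nonneg_left (by linarith) he) h2.le
  unfold gu2 grU guE
  rw [En_e h0.le h1.le]
  simp only [abs_zero, mul_zero, add_zero]
  nlinarith

theorem gu2_le' (h0 : 0 < x) (h1 : x < 1) : gu2 x μ q y X A L ≤ gbE x μ X A L := by
  have he := (ehR_pos h0 h1).le
  have a0 : (0 : ℝ) ≤ max A 0 := le_max_right _ _
  have b0 : (0 : ℝ) ≤ max (-A) 0 := le_max_right _ _
  have k1 : (max x (taq q y))⁻¹ ≤ x⁻¹ := inv_anti₀ h0 (le_max_left _ _)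
  have h2 : 0 < 1 - x := by linarith
  have k2 : (max (1 - x) (taq q y))⁻¹ ≤ (1 - x)⁻¹ := inv_anti₀ h2 (le_max_left _ _)
  have k3 : max (-A) 0 * (max x (taq q y))⁻¹ ≤ max (-A) 0 * x⁻¹ :=
    mul_le_mul_of_nonneg_left k1 b0
  have k4 : max A 0 * (max (1 - x) (taq q y))⁻¹ ≤ max A 0 * (1 - x)⁻¹ :=
    mul_le_mul_of_nonneg_left k2 a0
  have k5 : ehR x * ((1 - x) * (max A 0 * (max (1 - x) (taq q y))⁻¹ +
      max (-A) 0 * (max x (taq q y))⁻¹)) ≤
      ehR x * ((1 - x) * (max A 0 * (1 - x)⁻¹ + max (-A) 0 * x⁻¹)) :=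
    mul_le_mul_of_nonneg_left (mul_le_mul_of_nonneg_left (by linarith) h2.le) he
  have e : (1 - x) * (max A 0 * (1 - x)⁻¹ + max (-A) 0 * x⁻¹) =
      max A 0 + (1 - x) * (max (-A) 0 * x⁻¹) := by
    field_simp
  rw [e] at k5
  unfold gu2 grU gbE
  rw [En_e h0.le h1.le]
  simp only [abs_zero, mul_zero, add_zero]
  nlinarith

end

/-! ### Inequalities -/

theorem hi_real {u g u' g' K m a a1 a2 : ℝ} (hK : 0 ≤ K) (hu : u' ≤ u) (hg : g' ≤ g)
    (h : 0 < u' + K * min g' 0 - max (a1 * m) (a2 * m)) (h1 : a ≤ a1) (h2 : a2 ≤ a) :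
    0 ≤ u + K * min g 0 - a * m := by
  have k1 : min g' 0 ≤ min g 0 := min_le_min_right 0 hg
  have k2 : K * min g' 0 ≤ K * min g 0 := mul_le_mul_of_nonneg_left k1 hK
  have k3 : a * m ≤ max (a1 * m) (a2 * m) := by
    rcases le_total 0 m with hm | hm
    · exact (mul_le_mul_of_nonneg_right h1 hm).trans (le_max_left _ _)
    · exact (mul_le_mul_of_nonpos_right h2 hm).trans (le_max_right _ _)
  linarith

theorem far_real {u g u' g' K m b b1 : ℝ} (hK : 0 ≤ K) (hu : u' ≤ u) (hg : g' ≤ g) (hm : 0 ≤ m)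
    (h : 0 < u' + K * min g' 0 - b1 * m - 1 / 2) (hb : b ≤ b1) :
    1 / 2 ≤ u + K * min g 0 - b * m := by
  have k1 : min g' 0 ≤ min g 0 := min_le_min_right 0 hg
  have k2 : K * min g' 0 ≤ K * min g 0 := mul_le_mul_of_nonneg_left k1 hK
  have k3 : b * m ≤ b1 * m := mul_le_mul_of_nonneg_right hb hm
  linarith

theorem near_real {u g g' K b X : ℝ} (hK : 0 ≤ K) (hg : g ≤ g')
    (h : 0 < b * X - u - 1 / 2 - K * max g' 0) : u + 1 / 2 + K * max g 0 ≤ b * X := by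
  have k2 : K * max g 0 ≤ K * max g' 0 :=
    mul_le_mul_of_nonneg_left (max_le_max_right 0 hg) hK
  linarith

/-- Monotone from `lo` on. -/
def MonoFrom (lo : ℝ) (f : ℝ → ℝ) : Prop := ∀ a b, lo ≤ a → a ≤ b → f a ≤ f b

theorem MonoFrom.ite {lo k : ℝ} {f g : ℝ → ℝ} (hf : ∀ a b, lo ≤ a → a ≤ b → b ≤ k → f a ≤ f b)
    (hg : MonoFrom k g) (hk : f k ≤ g k) : MonoFrom lo fun t => if t - k ≤ 0 then f t else g t := by
  intro a b ha hab
  show (if a - k ≤ 0 then f a else g a) ≤ if b - k ≤ 0 then f b else g b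
  split_ifs with h1 h2
  · exact hf a b ha hab (by linarith)
  · push Not at h2
    exact (hf a k ha (by linarith) le_rfl).trans (hk.trans (hg k b le_rfl (by linarith)))
  · exfalso
    linarith
  · push Not at h1
    exact hg a b (by linarith) hab

theorem MonoFrom.const (lo c : ℝ) : MonoFrom lo fun _ => c := fun _ _ _ _ => le_rfl

end Pool.Agent.Strip051.PB.Fx
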