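import Pool.Agent.Strip051.PB.AltM
import Pool.Agent.Strip051.PB.BridgeX

/-! # The alternatives of the virtual class are monotone in the exclusions -/

namespace Pool.Agent.Strip051.PB

open Pool.Agent.StripNear Pool.Agent.StripSquare Pool.Agent.Strip051.Sweep
open Pool.Agent.Strip051.LC

variable {n : ℕ} {V : ℝ → ℝ → ℝ → ℝ → ℝ × ℝ × ℝ → ℝ × ℝ × ℝ → Prop} {D : PV n}
  {RK RL : Fin (n + 1) → ℕ → ℝ → ℝ → ℝ} {pc : ℕ → Piece} {l l' : List Cc}
  {a b c : ℕ} {j k : Fin (n + 1)} {σ σ' x : ℝ}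

theorem AltVA.mono (h : Cc.imps l l' = true) (H : AltVA V D RK RL pc l' a b c j k σ σ' x) :
    AltVA V D RK RL pc l a b c j k σ σ' x :=
  fun y y' F r1 r2 hd => H y y' F r1 r2 (Cc.imps_sound h hd)

theorem AltVB.mono (h : Cc.imps l l' = true) (H : AltVB V D RK RL pc l' a b c j k σ σ' x) :
    AltVB V D RK RL pc l a b c j k σ σ' x :=
  fun y y' F r1 r2 hd => H y y' F r1 r2 (Cc.imps_sound h hd)

end Pool.Agent.Strip051.PB
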