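import Pool.Agent.Strip051.PB.Rows

/-! # Both vertices, the third kernel in normalised coordinates

The table of the third kernel is `C / h0` with a table `C` without dimension. -/

namespace Pool.Agent.Strip051.PB

open Pool.Agent.StripNear Pool.Agent.StripSquare Pool.Agent.Strip051.Sweep
open Pool.Agent.Strip051.LC

theorem widn_smul {k : ℝ} (hk : 0 ≤ k) (a b c : ℝ) :
    widn (k * a) (k * b) (k * c) = k * widn a b c := by
  unfold widn
  rw [← mul_sub, ← mul_sub, ← mul_sub, abs_mul, abs_mul, abs_mul, abs_of_nonneg hk,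
    ← mul_max_of_nonneg _ _ hk, ← mul_max_of_nonneg _ _ hk]

theorem slc_add' (c : Con) (ex d k x u v w r1 r2 r3 g : ℝ) :
    slc c (ex + d) k x u v w r1 r2 r3 g = slc c ex k x u v w r1 r2 r3 g + d := by
  cases c <;> simp only [slc, slN, slW, stn] <;> ring

theorem slt_add (cn : Con) (a b c : ℕ) (e kE x y y' : ℝ) (r : ℝ × ℝ × ℝ) (g : ℝ) :
    slt cn a b c e kE x y y' r g = e + slt cn a b c 0 kE x y y' r g := by
  unfold slt
  have := slc_add' cn 0 e kE x (y - jq a) (y' - jq b) (y + y' - jq c) r.1 r.2.1 r.2.2 g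
  rw [zero_add] at this
  rw [this]
  ring

section

variable {n : ℕ} {P : Pos n} {R : Fin (n + 1) → ℕ → ℝ → ℝ → ℝ} {x : ℝ}

/-- The multiple of a table. -/
noncomputable def smT (E : ℝ) (R : Fin (n + 1) → ℕ → ℝ → ℝ → ℝ) (j : Fin (n + 1)) (q : ℕ)
    (y x : ℝ) : ℝ := E * R j q y x

theorem Pins.smul (h : Pins P R x) (E : ℝ) : Pins P (smT E R) x where
  one q y h1 h2 := by
    unfold smT
    rw [h.one q y h1 h2, mul_zero]
  zero j hj := by
    unfold smT
    rw [h.zero j hj]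
  mid j hj := by
    unfold smT
    rw [h.mid j hj]
  top j := by
    unfold smT
    rw [h.top j, mul_zero]
  bdd := by
    obtain ⟨C, hC⟩ := h.bdd
    refine ⟨|E| * C, fun j q y hq => ?_⟩
    unfold smT
    rw [abs_mul]
    exact mul_le_mul_of_nonneg_left (hC j q y hq) (abs_nonneg _)

theorem tbl_smul (E x T : ℝ) (i : Fin (n + 1)) : tbl (smT E R) x T i = E * tbl R x T i := by
  unfold tbl smT
  split_ifs
  · rfl
  · rw [mul_zero]

theorem Pins.link_smul (h : Pins P R x) (E : ℝ) {T : ℕ → ℝ → ℝ → ℝ → ℝ}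
    (L : Link P.cur x (tbl R x) R T) :
    Link P.cur x (tbl (smT E R) x) (smT E R) (fun q X y x => E * T q X y x) where
  adm := (h.smul E).adm
  node j q y hq _ := tbl_eq hq
  third q X y hq h1 h3 := by
    have e : tbl (smT E R) x = fun T i => E * tbl R x T i := by
      funext T i
      exact tbl_smul E x T i
    rw [e, ker_smul, L.third q X y hq h1 h3]

theorem vlA_smul (E : ℝ) {T : ℕ → ℝ → ℝ → ℝ → ℝ} (a b c : ℕ) (j k : Fin (n + 1))
    (σ σ' y y' : ℝ) : vlA P (smT E R) (fun q X y x => E * T q X y x) a b c j k σ σ' x y y' =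
      (E * (vlA P R T a b c j k σ σ' x y y').1, E * (vlA P R T a b c j k σ σ' x y y').2.1,
        E * (vlA P R T a b c j k σ σ' x y y').2.2) := by
  unfold vlA smT
  simp only [Prod.mk.injEq, and_true]
  constructor <;> ring

theorem vlB_smul (E : ℝ) {T : ℕ → ℝ → ℝ → ℝ → ℝ} (a b c : ℕ) (j k : Fin (n + 1))
    (σ σ' y y' : ℝ) : vlB P (smT E R) (fun q X y x => E * T q X y x) a b c j k σ σ' x y y' =
      (E * (vlB P R T a b c j k σ σ' x y y').1, E * (vlB P R T a b c j k σ σ' x y y').2.1,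
        E * (vlB P R T a b c j k σ σ' x y y').2.2) := by
  unfold vlB smT
  simp only [Prod.mk.injEq, true_and]
  constructor <;> ring

variable {a b c : ℕ} {j k : Fin (n + 1)} {σ σ' y y' κ lv E o e : ℝ} {N0 : ℕ} {f : ℝ → ℝ}
  {r l d : ℝ × ℝ × ℝ}

/-- The row for both vertices: the two inequalities for one level. -/
def RowBoth (N0 : ℕ) (lv E o : ℝ) (cn : Con) (a b c : ℕ) (kE x y y' e : ℝ) (r l d : ℝ × ℝ × ℝ) :
    Prop :=
  ∃ g, 0 ≤ lvF e l + slt cn a b c 0 kE x y y' r g ∧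
    0 ≤ lvN N0 lv x y y' e l - mun N0 x * (o * widn d.1 d.2.1 d.2.2) +
      E * slt cn a b c 0 kE x y y' r g

theorem RowBoth.lvE {cn : Con} {kE : ℝ} (hE : 0 < E)
    (h : RowBoth N0 lv E o cn a b c kE x y y' e r l d) :
    ∃ g, 0 ≤ slt cn a b c
      (PB.lvE N0 lv E (h0 * o) x y y' e l (h0⁻¹ * d.1, h0⁻¹ * d.2.1, h0⁻¹ * d.2.2)) kE x y y' r
        g := by
  obtain ⟨g, h1, h2⟩ := h
  refine ⟨g, ?_⟩
  have hp := h0_pos
  have hne : h0 ≠ 0 := hp.ne'
  rw [slt_add]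
  have e1 : h0 * o * widn (h0⁻¹ * d.1) (h0⁻¹ * d.2.1) (h0⁻¹ * d.2.2) =
      o * widn d.1 d.2.1 d.2.2 := by
    rw [widn_smul (inv_nonneg.2 hp.le)]
    field_simp
  unfold PB.lvE
  simp only
  rw [e1]
  set Z := slt cn a b c 0 kE x y y' r g
  have h3 : -Z ≤ (lvN N0 lv x y y' e l - mun N0 x * (o * widn d.1 d.2.1 d.2.2)) / E := by
    rw [le_div_iff₀ hE]
    linarith
  have h4 : -Z ≤ lvF e l := by linarith
  have := le_min h4 h3
  linarith

theorem RowBoth.bothA {cn : Con} (F : FactsA P a b c j k σ σ' y y') (hc : con a b c = some cn)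
    (hE : 0 < E) (h : RowBoth N0 lv E o cn a b c (κ * h0) x y y' e r l d) :
    Both N0 lv κ E (h0 * o) f x y y' e r l (h0⁻¹ * d.1, h0⁻¹ * d.2.1, h0⁻¹ * d.2.2) :=
  Or.inl (F.ngv hc (h.lvE hE))

theorem RowBoth.bothB {cn : Con} (F : FactsB P a b c j k σ σ' y y') (hc : con a b c = some cn)
    (hE : 0 < E) (h : RowBoth N0 lv E o cn a b c (κ * h0) x y y' e r l d) :
    Both N0 lv κ E (h0 * o) f x y y' e r l (h0⁻¹ * d.1, h0⁻¹ * d.2.1, h0⁻¹ * d.2.2) :=
  Or.inl (F.ngv hc (h.lvE hE))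

end

end Pool.Agent.Strip051.PB
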