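import Pool.Agent.Strip051.PB.FlWin
import Pool.Agent.Strip051.PB.Cuts

/-! # The rows at the floor in the packed arithmetic -/

namespace Pool.Agent.Strip051.PB

open Pool.Agent.Strip051.LC.Floor (G En Qn fS)

/-! ### Packed functions

With `z = true` the third kernel is not used. -/

/-- weight of the mean, even quarter -/
noncomputable def wgET (x v : ℕ) : ℕ :=
  pcase (psub v x) (pinv x) (pmul (pnorm (psub pone v)) (pinv (pmul v (pnorm (psub pone x)))))

/-- weight of the mean, odd quarter -/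
noncomputable def wgOT (x v : ℕ) : ℕ :=
  pcase (psub x v) (pinv (psub pone x)) (pmul v (pinv (pmul x (pnorm (psub pone v)))))

/-- the height modulo one -/
noncomputable def vqT (q y : ℕ) : ℕ :=
  Nat.rec (motive := fun _ => ℕ) y
    (fun q _ => Nat.rec (motive := fun _ => ℕ) y (fun _ _ => pnorm (psub y pone)) q) q

/-- the mean of the density -/
noncomputable def mnT (q x v : ℕ) : ℕ :=
  sl (od q) (pmul (pnorm (psub x v)) (pnorm (wgOT x v))) (pmul (pnorm (psub v x)) (pnorm (wgET x v)))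

/-- the distance to the nearest integer -/
noncomputable def taT (q v : ℕ) : ℕ := sl (od q) (psub pone v) v

/-- the amplitude -/
noncomputable def enT (x : ℕ) : ℕ := pnorm (psub (padd (phf x) (c1T x)) pone)

/-- `Qn` -/
noncomputable def qnT (x : ℕ) : ℕ :=
  pnorm ((fun c => pmul (pnorm (psub pone c)) (pnorm (psub (padd c c) pone))) (c1T x))

/-- `fS` -/
noncomputable def fsT (M x y X A L m : ℕ) : ℕ :=
  psub (psub (psub (pmul X (pnorm (padd (psub (psub (phn 1) (enT x)) (pmul M (qnT x))) (phf y))))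
    (pmul (pnorm (pmul (enT x) A)) (pnorm m)))
    (pmul (pnorm (psub (psub (phn 1) (pmul M (c1T x))) (phf (pmul M (pnorm (psub y x))))))
      (pnorm L))) (phn 1)

/-- one tent: `m` the distance to the end, cut off, `w` the width of the interval -/
noncomputable def jgT (a b m w : ℕ) : ℕ :=
  psub (pnorm m) (pmul (psq (pnorm m)) (pscale b a (pinv w)))

/-- `jx`, `th = a / b` -/
noncomputable def jxT (a b x v : ℕ) : ℕ :=
  pcase (psub v x)
    (pneg (jgT a b (pmin (pmin v (psub x v)) (pscale a (Nat.mul 2 b) x)) x))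
    (jgT a b (pmin (pmin (psub v x) (psub pone v)) (pscale a (Nat.mul 2 b) (pnorm (psub pone x))))
      (psub pone x))

/-- `usX`, `th = a / b` -/
noncomputable def usT (z : Bool) (q a b M x y X A L C : ℕ) : ℕ :=
  (fun v => (fun f => sl z f (psub f (pmul M (pnorm (pmul (pnorm C) (pnorm (jxT a b x v)))))))
    (fsT M x y X A L (mnT q x v))) (vqT q y)

/-- the variation of the mean, `a` and `b` are the two widths -/
noncomputable def vrT (x A a b : ℕ) : ℕ :=
  pmul (pnorm (padd (enT x) (enT x))) (pnorm (padd (pmul (pnorm (pps A)) (pinv a))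
    (pmul (pnorm (pps (pneg A))) (pinv b))))

/-- `L - 2 |C|` -/
noncomputable def lcT (z : Bool) (L C : ℕ) : ℕ :=
  sl z L ((fun c => psub L (padd c c)) (pabs C))

/-- `L + 2 |C|` -/
noncomputable def luT (z : Bool) (L C : ℕ) : ℕ :=
  sl z L ((fun c => padd L (padd c c)) (pabs C))

/-- `grL` -/
noncomputable def grT (z : Bool) (q M x y X A L C : ℕ) : ℕ :=
  (fun t => psub (padd X (pmul M (pnorm (lcT z L C))))
    (vrT x A (pmax x t) (pmax (psub pone x) t))) (taT q (vqT q y))

/-- `grU` -/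
noncomputable def guT (z : Bool) (q M x y X A L C : ℕ) : ℕ :=
  (fun t => padd (padd X (pmul M (pnorm (luT z L C))))
    (vrT x A (pmax (psub pone x) t) (pmax x t))) (taT q (vqT q y))

/-- the third kernel, `0` if it is not used -/
noncomputable def cz (z : Bool) (C : ℝ) : ℝ := cond z 0 C

/-! ### Soundness -/

section

variable {E : Pt} {X Y V A L C M XX : ℕ} {x y v a l c μ X' : ℝ} {z : Bool} (q : ℕ)

theorem enc_1sub (hx : Enc E X x) : Enc E (pnorm (psub pone X)) (1 - x) :=
  enc_norm (enc_sub (enc_one E) hx)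

theorem enc_wgET (hx : Enc E X x) (hv : Enc E V v) : Enc E (wgET X V) (wgE x v) :=
  enc_case (enc_sub hv hx) (enc_inv hx) (enc_mul (enc_1sub hv) (enc_inv (enc_mul hv (enc_1sub hx))))

theorem enc_wgOT (hx : Enc E X x) (hv : Enc E V v) : Enc E (wgOT X V) (wgO x v) :=
  enc_case (enc_sub hx hv) (enc_inv (enc_sub (enc_one E) hx))
    (enc_mul hv (enc_inv (enc_mul hx (enc_1sub hv))))

theorem enc_vqT (hy : Enc E Y y) : Enc E (vqT q Y) (vq q y) := by
  match q with
  | 0 => exact hy
  | 1 => exact hy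
  | _ + 2 => exact enc_norm (enc_sub hy (enc_one E))

theorem enc_mnT (hx : Enc E X x) (hy : Enc E Y y) : Enc E (mnT q X (vqT q Y)) (mnQ q x y) :=
  enc_sl _ (enc_mul (enc_norm (enc_sub hx (enc_vqT q hy))) (enc_norm (enc_wgOT hx (enc_vqT q hy))))
    (enc_mul (enc_norm (enc_sub (enc_vqT q hy) hx)) (enc_norm (enc_wgET hx (enc_vqT q hy))))

theorem enc_taT (hy : Enc E Y y) : Enc E (taT q (vqT q Y)) (taq q y) :=
  enc_sl _ (enc_sub (enc_one E) (enc_vqT q hy)) (enc_vqT q hy)

theorem enc_G (hx : Enc E X x) : Enc E (c1T X) (G x) := enc_c1T hx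

theorem enc_enT (hx : Enc E X x) : Enc E (enT X) (En x) := by
  refine enc_cast (enc_norm (enc_sub (enc_add (enc_half hx) (enc_G hx)) (enc_one E))) ?_
  unfold En
  ring

theorem enc_qnT (hx : Enc E X x) : Enc E (qnT X) (Qn x) := by
  refine enc_cast (enc_norm (enc_mul (enc_1sub (enc_G hx))
    (enc_norm (enc_sub (enc_add (enc_G hx) (enc_G hx)) (enc_one E))))) ?_
  unfold Qn
  ring

theorem enc_half1 (E : Pt) : Enc E (phn 1) (1 / 2 : ℝ) := by
  refine enc_cast (enc_phn E 1) ?_
  norm_num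

theorem enc_fsT {m : ℕ} {m' : ℝ} (hM : Enc E M μ) (hx : Enc E X x) (hy : Enc E Y y)
    (hX : Enc E XX X') (hA : Enc E A a) (hL : Enc E L l) (hm : Enc E m m') :
    Enc E (fsT M X Y XX A L m) (fS x μ y X' (En x * a) l m') := by
  refine enc_cast (enc_sub (enc_sub (enc_sub (enc_mul hX (enc_norm (enc_add (enc_sub (enc_sub
    (enc_half1 E) (enc_enT hx)) (enc_mul hM (enc_qnT hx))) (enc_half hy))))
    (enc_mul (enc_norm (enc_mul (enc_enT hx) hA)) (enc_norm hm)))
    (enc_mul (enc_norm (enc_sub (enc_sub (enc_half1 E) (enc_mul hM (enc_G hx)))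
      (enc_half (enc_mul hM (enc_norm (enc_sub hy hx)))))) (enc_norm hL))) (enc_half1 E)) ?_
  unfold fS
  ring

theorem enc_jgT (a b : ℕ) {m : ℕ} {m' : ℝ} (hm : Enc E m m') (hx : Enc E X x) :
    Enc E (jgT a b m X) (m' - m' ^ 2 * (((a : ℝ) / b)⁻¹ * x⁻¹)) := by
  refine enc_cast (enc_sub (enc_norm hm) (enc_mul (enc_sq (enc_norm hm))
    (enc_scale b a (enc_inv hx)))) ?_
  rw [inv_div]

theorem enc_th2 (a b : ℕ) {Z : ℕ} {z : ℝ} (hz : Enc E Z z) :
    Enc E (pscale a (Nat.mul 2 b) Z) ((a : ℝ) / b / 2 * z) := by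
  refine enc_cast (enc_scale a (Nat.mul 2 b) hz) ?_
  have e2 : ((Nat.mul 2 b : ℕ) : ℝ) = 2 * b := by
    have : Nat.mul 2 b = 2 * b := rfl
    rw [this]
    push_cast
    ring
  rw [e2, div_div, mul_comm (b : ℝ) 2]

theorem enc_jxT (a b : ℕ) (hx : Enc E X x) (hv : Enc E V v) :
    Enc E (jxT a b X V) (jx ((a : ℝ) / b) x v) :=
  enc_case (enc_sub hv hx)
    (enc_neg (enc_jgT a b (enc_min (enc_min hv (enc_sub hx hv)) (enc_th2 a b hx)) hx))
    (enc_jgT a b (enc_min (enc_min (enc_sub hv hx) (enc_sub (enc_one E) hv))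
      (enc_th2 a b (enc_1sub hx))) (enc_sub (enc_one E) hx))

theorem enc_usT (a' b' : ℕ) (hM : Enc E M μ) (hx : Enc E X x) (hy : Enc E Y y)
    (hX : Enc E XX X') (hA : Enc E A a) (hL : Enc E L l) (hC : Enc E C c) :
    Enc E (usT z q a' b' M X Y XX A L C) (usX ((a' : ℝ) / b') x μ q y X' a l (cz z c)) := by
  have f := enc_fsT hM hx hy hX hA hL (enc_mnT q hx hy)
  refine enc_cast (enc_sl z f (enc_sub f (enc_mul hM (enc_norm (enc_mul (enc_norm hC)
    (enc_norm (enc_jxT a' b' hx (enc_vqT q hy)))))))) ?_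
  cases z
  · rfl
  · unfold usX cz
    rw [cond_true, cond_true, zero_mul, mul_zero, sub_zero]

theorem enc_vrT {w1 w2 : ℕ} {w1' w2' : ℝ} (hx : Enc E X x) (hA : Enc E A a) (h1 : Enc E w1 w1')
    (h2 : Enc E w2 w2') : Enc E (vrT X A w1 w2)
      (2 * En x * (max a 0 * w1'⁻¹ + max (-a) 0 * w2'⁻¹)) := by
  refine enc_cast (enc_mul (enc_norm (enc_add (enc_enT hx) (enc_enT hx))) (enc_norm
    (enc_add (enc_mul (enc_norm (enc_pos hA)) (enc_inv h1))
      (enc_mul (enc_norm (enc_pos (enc_neg hA))) (enc_inv h2))))) ?_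
  ring

theorem enc_lcT (hL : Enc E L l) (hC : Enc E C c) : Enc E (lcT z L C) (l - 2 * |cz z c|) := by
  refine enc_cast (enc_sl z hL (enc_sub hL (enc_add (enc_abs hC) (enc_abs hC)))) ?_
  cases z
  · show l - (|c| + |c|) = l - 2 * |c|
    ring
  · unfold cz
    rw [cond_true, cond_true, abs_zero]
    ring

theorem enc_luT (hL : Enc E L l) (hC : Enc E C c) : Enc E (luT z L C) (l + 2 * |cz z c|) := by
  refine enc_cast (enc_sl z hL (enc_add hL (enc_add (enc_abs hC) (enc_abs hC)))) ?_
  cases z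
  · show l + (|c| + |c|) = l + 2 * |c|
    ring
  · unfold cz
    rw [cond_true, cond_true, abs_zero]
    ring

theorem enc_grT (hM : Enc E M μ) (hx : Enc E X x) (hy : Enc E Y y)
    (hX : Enc E XX X') (hA : Enc E A a) (hL : Enc E L l) (hC : Enc E C c) :
    Enc E (grT z q M X Y XX A L C) (grL x μ q y X' a l (cz z c)) :=
  enc_sub (enc_add hX (enc_mul hM (enc_norm (enc_lcT hL hC))))
    (enc_vrT hx hA (enc_max hx (enc_taT q hy)) (enc_max (enc_sub (enc_one E) hx) (enc_taT q hy)))

theorem enc_guT (hM : Enc E M μ) (hx : Enc E X x) (hy : Enc E Y y)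
    (hX : Enc E XX X') (hA : Enc E A a) (hL : Enc E L l) (hC : Enc E C c) :
    Enc E (guT z q M X Y XX A L C) (grU x μ q y X' a l (cz z c)) :=
  enc_add (enc_add hX (enc_mul hM (enc_norm (enc_luT hL hC))))
    (enc_vrT hx hA (enc_max (enc_sub (enc_one E) hx) (enc_taT q hy)) (enc_max hx (enc_taT q hy)))

end

/-! ### Tests -/

/-- A test of a pair at the floor: arguments `x`, `y`, abscissa, kernel, level, third kernel. -/
structure FTst where
  t : ℕ → ℕ → ℕ → ℕ → ℕ → ℕ → Bool
  P : ℝ → ℝ → ℝ → ℝ → ℝ → ℝ → Prop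
  snd : ∀ {E : Pt} {X Y XX A L C : ℕ} {x y X' a l c : ℝ}, Enc E X x → Enc E Y y → Enc E XX X' →
    Enc E A a → Enc E L l → Enc E C c → t X Y XX A L C = true → P x y X' a l c

section

variable (z : Bool) (q : ℕ) (M : Fn1) (oa ob : ℕ)

/-- the test for `WallP` -/
noncomputable def ftWall : FTst where
  t x y X A L C := (fun m => (fun u => band (ppos u) (band (ppos (padd X (pmul m (pnorm L))))
    (ppos (padd u (grT z q m x y X A L C))))) (usT z q oa ob m x y X A L C)) (M.t x)
  P x y X A L C := WallP ((oa : ℝ) / ob) x (M.v x) q y X A L (cz z C)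
  snd := by
    intro E X Y XX A L C x y X' a l c hx hy hX hA hL hC h
    obtain ⟨h1, h2⟩ := band_true h
    obtain ⟨h2, h3⟩ := band_true h2
    have u := enc_usT (z := z) q oa ob (M.enc hx) hx hy hX hA hL hC
    exact ⟨(ppos_sound (enc_add hX (enc_mul (M.enc hx) (enc_norm hL))) h2).le,
      (ppos_sound u h1).le,
      Or.inl (ppos_sound (enc_add u (enc_grT q (M.enc hx) hx hy hX hA hL hC)) h3).le⟩

theorem flbor_true {p a : Bool} (h : Bool.rec (motive := fun _ => Bool) a true p = true) :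
    p = true ∨ a = true := by
  cases p
  · exact Or.inr h
  · exact Or.inl rfl

/-- the test for `WallP` with a dip of the relative length `ca / cb` -/
noncomputable def ftWallC (ca cb : ℕ) : FTst where
  t x y X A L C := (fun m => (fun p => (fun g => (fun u => band (ppos u) (band (ppos p)
    (Bool.rec (motive := fun _ => Bool) (band (ppos (padd u (pscale ca cb g)))
      (ppos (psub (padd u p) (pscale (Nat.sub cb ca) cb (guT z q m x y X A L C))))) true
        (ppos (padd u g))))) (usT z q oa ob m x y X A L C)) (grT z q m x y X A L C))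
          (padd X (pmul m (pnorm L)))) (M.t x)
  P x y X A L C := ca ≤ cb → 0 < cb → WallP ((oa : ℝ) / ob) x (M.v x) q y X A L (cz z C)
  snd := by
    intro E X Y XX A L C x y X' a l c hx hy hX hA hL hC h hcb hz
    obtain ⟨h1, h2⟩ := band_true h
    obtain ⟨h2, h3⟩ := band_true h2
    have u := enc_usT (z := z) q oa ob (M.enc hx) hx hy hX hA hL hC
    have g := enc_grT (z := z) q (M.enc hx) hx hy hX hA hL hC
    have gu := enc_guT (z := z) q (M.enc hx) hx hy hX hA hL hC
    have p := enc_add hX (enc_mul (M.enc hx) (enc_norm hL))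
    refine ⟨(ppos_sound p h2).le, (ppos_sound u h1).le, ?_⟩
    rcases flbor_true h3 with h3 | h3
    · exact Or.inl (ppos_sound (enc_add u g) h3).le
    · obtain ⟨h4, h5⟩ := band_true h3
      have k4 := ppos_sound (enc_add u (enc_scale ca cb g)) h4
      have k5 := ppos_sound (enc_sub (enc_add u p) (enc_scale (Nat.sub cb ca) cb gu)) h5
      have e : ((Nat.sub cb ca : ℕ) : ℝ) = cb - ca := by
        have : Nat.sub cb ca = cb - ca := rfl
        rw [this, Nat.cast_sub hcb]
      rw [e] at k5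
      have hc' : (ca : ℝ) ≤ cb := by exact_mod_cast hcb
      have hz' : (0 : ℝ) < cb := by exact_mod_cast hz
      refine Or.inr ⟨(ca : ℝ) / cb, by positivity, (div_le_one hz').2 hc', k4.le, ?_⟩
      have e2 : (1 : ℝ) - ca / cb = (cb - ca) / cb := by
        field_simp
      rw [e2]
      linarith

/-- the test for the growth alone -/
noncomputable def ftMono : FTst where
  t x y X A L C := ppos (grT z q (M.t x) x y X A L C)
  P x y X A L C := 0 ≤ grL x (M.v x) q y X A L (cz z C)
  snd := by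
    intro E X Y XX A L C x y X' a l c hx hy hX hA hL hC h
    exact (ppos_sound (enc_grT q (M.enc hx) hx hy hX hA hL hC) h).le

/-- the test for `FlatP` -/
noncomputable def ftFlat : FTst where
  t x y X A L C := (fun m => (fun g => band (ppos g)
    (ppos (padd (usT z q oa ob m x y X A L C) (pscale 17 500 g))))
      (grT z q m x y X A L C)) (M.t x)
  P x y X A L C := FlatP ((oa : ℝ) / ob) x (M.v x) q y X A L (cz z C)
  snd := by
    intro E X Y XX A L C x y X' a l c hx hy hX hA hL hC h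
    obtain ⟨h1, h2⟩ := band_true h
    have g := enc_grT (z := z) q (M.enc hx) hx hy hX hA hL hC
    have k := ppos_sound (enc_add (enc_usT q oa ob (M.enc hx) hx hy hX hA hL hC)
      (enc_scale 17 500 g)) h2
    push_cast at k
    exact ⟨(ppos_sound g h1).le, k.le⟩

/-- the test for `HighP` with `a = aa / 1000`, `D = dd / 1000` -/
noncomputable def ftHigh (aa dd : ℕ) : FTst where
  t x y X A L C := (fun m => ppos (psub (padd (usT z q oa ob m x y X A L C)
    (pscale 7 100 (pmin (grT z q m x y X A L C) (pdc 0 0))))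
      (pscale aa 1000 (psub X (prat dd 2000))))) (M.t x)
  P x y X A L C :=
    HighP ((oa : ℝ) / ob) x (M.v x) q y X A L (cz z C) ((aa : ℝ) / 1000) ((dd : ℝ) / 1000)
  snd := by
    intro E X Y XX A L C x y X' a l c hx hy hX hA hL hC h
    have g := enc_grT (z := z) q (M.enc hx) hx hy hX hA hL hC
    have zz := enc_cast (enc_dc E 0 0) (b := 0) (by norm_num)
    have k := ppos_sound (enc_sub (enc_add (enc_usT q oa ob (M.enc hx) hx hy hX hA hL hC)
      (enc_scale 7 100 (enc_min g zz))) (enc_scale aa 1000 (enc_sub hX (enc_rat E dd 2000)))) h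
    push_cast at k
    unfold HighP
    refine k.le.trans (le_of_eq ?_)
    ring

/-- the test for `FarP` with `b = bb / 1000`, `D = dd / 1000` -/
noncomputable def ftFar (bb dd : ℕ) : FTst where
  t x y X A L C := (fun m => ppos (psub (psub (padd (usT z q oa ob m x y X A L C)
    (pscale 7 100 (pmin (grT z q m x y X A L C) (pdc 0 0))))
      (pscale bb 1000 (psub X (prat dd 1000)))) (phn 1))) (M.t x)
  P x y X A L C :=
    FarP ((oa : ℝ) / ob) x (M.v x) q y X A L (cz z C) ((bb : ℝ) / 1000) ((dd : ℝ) / 1000)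
  snd := by
    intro E X Y XX A L C x y X' a l c hx hy hX hA hL hC h
    have g := enc_grT (z := z) q (M.enc hx) hx hy hX hA hL hC
    have zz := enc_cast (enc_dc E 0 0) (b := 0) (by norm_num)
    have k := ppos_sound (enc_sub (enc_sub (enc_add (enc_usT q oa ob (M.enc hx) hx hy hX
      hA hL hC) (enc_scale 7 100 (enc_min g zz)))
        (enc_scale bb 1000 (enc_sub hX (enc_rat E dd 1000)))) (enc_half1 E)) h
    push_cast at k
    unfold FarP
    linarith

/-- the test for `NearP` with `b = bb / 1000` -/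
noncomputable def ftNear (bb : ℕ) : FTst where
  t x y X A L C := (fun m => ppos (psub (psub (psub (pscale bb 1000 X)
    (usT z q oa ob m x y X A L C)) (phn 1)) (pscale 7 100 (pps (guT z q m x y X A L C))))) (M.t x)
  P x y X A L C := NearP ((oa : ℝ) / ob) x (M.v x) q y X A L (cz z C) ((bb : ℝ) / 1000)
  snd := by
    intro E X Y XX A L C x y X' a l c hx hy hX hA hL hC h
    have g := enc_guT (z := z) q (M.enc hx) hx hy hX hA hL hC
    have k := ppos_sound (enc_sub (enc_sub (enc_sub (enc_scale bb 1000 hX)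
      (enc_usT q oa ob (M.enc hx) hx hy hX hA hL hC)) (enc_half1 E))
        (enc_scale 7 100 (enc_pos g))) h
    push_cast at k
    unfold NearP
    linarith

end

/-! ### Exclusions -/

/-- An exclusion; `k = 0`: `y` is less than `c / 2 ^ 30`, `1`: greater, `2`: the abscissa is less,
`3`: greater, `4`: the abscissa is less than `1 - G y`, `5`: `y < x`, `6`: `x < y`, `7`: `y` is
within `c / 2 ^ 30` of `x`, `8`: it is not. -/
structure Fx where
  (k c : ℕ)

/-- The exclusion as a property of `x`, `y` and the abscissa. -/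
def Fx.P (e : Fx) (x y X : ℝ) : Prop :=
  match e.k with
  | 0 => y < (e.c : ℝ) / 1073741824
  | 1 => (e.c : ℝ) / 1073741824 < y
  | 2 => X < (e.c : ℝ) / 1073741824
  | 3 => (e.c : ℝ) / 1073741824 < X
  | 4 => X < 1 - G y
  | 5 => y < x
  | 6 => x < y
  | 7 => |y - x| < (e.c : ℝ) / 1073741824
  | _ => (e.c : ℝ) / 1073741824 < |y - x|

/-- test of an exclusion -/
noncomputable def Fx.t (e : Fx) (x y X : ℕ) : Bool :=
  Nat.rec (motive := fun _ => Bool) (ppos (psub (pdc e.c 0) y)) (fun k _ =>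
  Nat.rec (motive := fun _ => Bool) (ppos (psub y (pdc e.c 0))) (fun k _ =>
  Nat.rec (motive := fun _ => Bool) (ppos (psub (pdc e.c 0) X)) (fun k _ =>
  Nat.rec (motive := fun _ => Bool) (ppos (psub X (pdc e.c 0))) (fun k _ =>
  Nat.rec (motive := fun _ => Bool) (ppos (psub (psub pone (c1T y)) X)) (fun k _ =>
  Nat.rec (motive := fun _ => Bool) (ppos (psub x y)) (fun k _ =>
  Nat.rec (motive := fun _ => Bool) (ppos (psub y x)) (fun k _ =>
  Nat.rec (motive := fun _ => Bool) (ppos (psub (pdc e.c 0) (pabs (psub y x)))) (fun _ _ =>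
    ppos (psub (pabs (psub y x)) (pdc e.c 0))) k) k) k) k) k) k) k) e.k

theorem Fx.t_sound {E : Pt} {e : Fx} {X Y XX : ℕ} {x y X' : ℝ} (hx : Enc E X x) (hy : Enc E Y y)
    (hX : Enc E XX X') (h : e.t X Y XX = true) : e.P x y X' := by
  have hd := Cc.enc_d E e.c
  unfold Fx.t at h
  unfold Fx.P
  match hk : e.k with
  | 0 =>
    rw [hk] at h
    have := ppos_sound (enc_sub hd hy) h
    show y < _
    linarith
  | 1 =>
    rw [hk] at h
    have := ppos_sound (enc_sub hy hd) h
    show _ < y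
    linarith
  | 2 =>
    rw [hk] at h
    have := ppos_sound (enc_sub hd hX) h
    show X' < _
    linarith
  | 3 =>
    rw [hk] at h
    have := ppos_sound (enc_sub hX hd) h
    show _ < X'
    linarith
  | 4 =>
    rw [hk] at h
    have := ppos_sound (enc_sub (enc_sub (enc_one E) (enc_G hy)) hX) h
    show X' < 1 - G y
    linarith
  | 5 =>
    rw [hk] at h
    have := ppos_sound (enc_sub hx hy) h
    show y < x
    linarith
  | 6 =>
    rw [hk] at h
    have := ppos_sound (enc_sub hy hx) h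
    show x < y
    linarith
  | 7 =>
    rw [hk] at h
    have := ppos_sound (enc_sub hd (enc_abs (enc_sub hy hx))) h
    show |y - x| < _
    linarith
  | n + 8 =>
    rw [hk] at h
    have := ppos_sound (enc_sub (enc_abs (enc_sub hy hx)) hd) h
    show _ < |y - x|
    linarith

/-- the exclusion with the number `i` -/
noncomputable def fxNth (L : List Fx) (i x y X : ℕ) : Bool :=
  List.rec (motive := fun _ => ℕ → Bool) (fun _ => false)
    (fun e _ ih i => Nat.rec (motive := fun _ => Bool) (e.t x y X) (fun i _ => ih i) i) L i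

theorem fxNth_sound {E : Pt} {X Y XX : ℕ} {x y X' : ℝ} (hx : Enc E X x) (hy : Enc E Y y)
    (hX : Enc E XX X') (L : List Fx) :
    ∀ i, fxNth L i X Y XX = true → ∃ e ∈ L, e.P x y X' := by
  induction L with
  | nil => intro i h; exact absurd (show false = true from h) (by decide)
  | cons e L ih =>
    intro i h
    match i, h with
    | 0, h => exact ⟨e, List.mem_cons_self, Fx.t_sound hx hy hX h⟩
    | i + 1, h =>
      obtain ⟨e', h1, h2⟩ := ih i h
      exact ⟨e', List.mem_cons_of_mem _ h1, h2⟩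

/-! ### Rows -/

/-- A statement about all coordinates and all `x` in given ranges. -/
def Cert2 (P1 W1 P3 W3 : ℕ) (Q : ℝ → ℝ → Prop) : Prop :=
  ∀ p x : ℝ, Rng P1 W1 p → Rng P3 W3 x → Q p x

/-- a leaf: the test of the pair or an exclusion -/
noncomputable def flf (T : FTst) (L : List Fx) (h x y X A B C : ℕ) : Bool :=
  Bool.rec (motive := fun _ => Bool) (fxNth L (Nat.shiftRight h 1) x y X) (T.t x y X A B C)
    (Nat.beq (Nat.land h 1) 0)

theorem flf_sound {E : Pt} {T : FTst} {L : List Fx} {h X Y XX A B C : ℕ} {x y X' a b c : ℝ}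
    (hx : Enc E X x) (hy : Enc E Y y) (hX : Enc E XX X') (hA : Enc E A a) (hB : Enc E B b)
    (hC : Enc E C c) (hl : flf T L h X Y XX A B C = true) :
    (∃ e ∈ L, e.P x y X') ∨ T.P x y X' a b c := by
  unfold flf at hl
  rcases brec hl with h1 | h1
  · exact Or.inl (fxNth_sound hx hy hX L _ h1)
  · exact Or.inr (T.snd hx hy hX hA hB hC h1)

/-- row of a node, `c` is the third kernel; the second coordinate is not used -/
noncomputable def rowNd (T : FTst) (L : List Fx) (n : Node) (c : Fn2) (h p _q x : ℕ) : Bool :=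
  flf T L h x (n.Y.t p) (n.X.t p) (n.K.t p x) (n.L.t p x) (c.t p x)

/-- row of the point with the height `Y` and the abscissa `X` -/
noncomputable def rowSd (T : FTst) (L : List Fx) (Y X : Fn1) (pc : Piece) (c : Fn3)
    (h p _q x : ℕ) : Bool :=
  flf T L h x (Y.t p) (X.t p) (pc.K.t (X.t p) (Y.t p) x) (pc.L.t (X.t p) (Y.t p) x)
    (c.t (X.t p) (Y.t p) x)

/-- The statement of the row of a node. -/
abbrev CertNd (P1 W1 P3 W3 : ℕ) (T : FTst) (L : List Fx) (n : Node) (c : Fn2) : Prop :=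
  Cert2 P1 W1 P3 W3 fun p x => (∃ e ∈ L, e.P x (n.Y.v p) (n.X.v p)) ∨
    T.P x (n.Y.v p) (n.X.v p) (n.K.v p x) (n.L.v p x) (c.v p x)

/-- The statement of the row of a third side. -/
abbrev CertSd (P1 W1 P3 W3 : ℕ) (T : FTst) (L : List Fx) (Y X : Fn1) (pc : Piece) (c : Fn3) :
    Prop :=
  Cert2 P1 W1 P3 W3 fun p x => (∃ e ∈ L, e.P x (Y.v p) (X.v p)) ∨
    T.P x (Y.v p) (X.v p) (pc.K.v (X.v p) (Y.v p) x) (pc.L.v (X.v p) (Y.v p) x)
      (c.v (X.v p) (Y.v p) x)

section

variable {T : FTst} {L : List Fx} {P1 W1 P3 W3 : ℕ}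

theorem cert2 {f : ℕ → ℕ → ℕ → ℕ → Bool} {Q : ℝ → ℝ → Prop}
    (hf : ∀ {E : Pt} {h A B C : ℕ} {p x : ℝ}, Enc E A p → Enc E C x → f h A B C = true → Q p x)
    (ht : ∃ t, chk3 (onCell P1 W1 0 0 P3 W3 f) t 1 1 1 = true) : Cert2 P1 W1 P3 W3 Q := by
  intro p x hp hx
  exact onCell_sound (Q := fun p _ x => Q p x) (fun h1 _ h3 hl => hf h1 h3 hl) ht hp.1 hp.2
    (q := 0) (by norm_num) (by norm_num) hx.1 hx.2

theorem certNd {n : Node} {c : Fn2}
    (ht : ∃ t, chk3 (onCell P1 W1 0 0 P3 W3 (rowNd T L n c)) t 1 1 1 = true) :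
    CertNd P1 W1 P3 W3 T L n c :=
  cert2 (fun h1 h3 hl =>
    flf_sound h3 (n.Y.enc h1) (n.X.enc h1) (n.K.enc h1 h3) (n.L.enc h1 h3) (c.enc h1 h3) hl) ht

theorem certSd {Y X : Fn1} {pc : Piece} {c : Fn3}
    (ht : ∃ t, chk3 (onCell P1 W1 0 0 P3 W3 (rowSd T L Y X pc c)) t 1 1 1 = true) :
    CertSd P1 W1 P3 W3 T L Y X pc c :=
  cert2 (fun h1 h3 hl => flf_sound h3 (Y.enc h1) (X.enc h1) (pc.K.enc (X.enc h1) (Y.enc h1) h3)
    (pc.L.enc (X.enc h1) (Y.enc h1) h3) (c.enc (X.enc h1) (Y.enc h1) h3) hl) ht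

end

end Pool.Agent.Strip051.PB
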