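import Pool.Agent.Strip051.PB.Pair
import Pool.Agent.Strip051.PB.FlRow

/-! # Slopes with normalised factors -/

namespace Pool.Agent.Strip051.PB

open Pool.Agent.Strip051.LC.Floor (En)

/-- a factor which depends only on `x` -/
noncomputable def Fn2.sc (F : Fn1) (K : Fn2) : Fn2 where
  t p x := pmul (F.t x) (pnorm (K.t p x))
  v p x := F.v x * K.v p x
  enc h1 h2 := enc_mul (F.enc h2) (enc_norm (K.enc h1 h2))

/-- a factor which depends only on `x` -/
noncomputable def Fn3.sc (F : Fn1) (K : Fn3) : Fn3 where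
  t X y x := pmul (F.t x) (pnorm (K.t X y x))
  v X y x := F.v x * K.v X y x
  enc h1 h2 h3 := enc_mul (F.enc h3) (enc_norm (K.enc h1 h2 h3))

/-- the slope of a product with a factor which depends only on `x` -/
noncomputable def Sl2.sc (F : Fn1) {K : Fn2} (s : Sl2 K) : Sl2 (Fn2.sc F K) where
  s A B D C := pmul (F.t C) (pnorm (s.s A B D C))
  snd h hc := pr_cmul (F.enc hc) (pr_norm (s.snd h hc))

/-- the amplitude -/
noncomputable def enF : Fn1 := ⟨enT, En, fun h => enc_enT h⟩

end Pool.Agent.Strip051.PB
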