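import Pool.Agent.Strip051.PB.Bridge
import Pool.Agent.Strip051.PB.BothN
import Pool.Agent.Strip051.PB.FlSl

/-! # From the certificates of the rows for both vertices to the triples of quarters

`nc` are the values of the third kernel at a node, `pd q` on the third side, both without
dimension: the table of the third kernel is `h0⁻¹` times the table `RC`. The certificates refer to
the third kernel divided by a factor `ef`. -/

namespace Pool.Agent.Strip051.PB

open Pool.Agent.StripNear Pool.Agent.StripSquare Pool.Agent.Strip051.Sweep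
open Pool.Agent.Strip051.LC

section

variable {n : ℕ}

/-- The node with the third kernel `nc` at the coordinate `p` describes the point of the curve. -/
structure AtC (P : Pos n) (RK RL RC : Fin (n + 1) → ℕ → ℝ → ℝ → ℝ) (nd : Node) (nc : Fn2)
    (j : Fin (n + 1)) (q : ℕ) (y p x : ℝ) : Prop extends At P RK RL nd j q y p x where
  C : nc.v p x = RC j q y x

/-- As `Cov`, with the third kernel. -/
def CovC (P : Pos n) (RK RL RC : Fin (n + 1) → ℕ → ℝ → ℝ → ℝ) (nd : Node) (nc : Fn2)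
    (j : Fin (n + 1)) (q W W' : ℕ) (V : ℝ → Prop) (x : ℝ) : Prop :=
  ∀ y, OnC j q y → V y → ∃ p, AtC P RK RL RC nd nc j q y p x ∧ InRt W W' p

variable {P : Pos n} {RK RL RC : Fin (n + 1) → ℕ → ℝ → ℝ → ℝ} {j k : Fin (n + 1)} {a b c : ℕ}
  {s1 s2 : Bool} {x y y' p p' κ o : ℝ} {cn : Con} {pc : ℕ → Piece} {pd : ℕ → Fn3} {f : ℝ → ℝ}
  {N0 : ℕ} {En mo ef : Fn1} {cut : Cut} {xt : Ext} {n1 n2 : Node} {c1 c2 : Fn2} {σ σ' : ℝ}

/-- a multiple of three values -/
noncomputable def smV (e : ℝ) (d : ℝ × ℝ × ℝ) : ℝ × ℝ × ℝ := (e * d.1, e * d.2.1, e * d.2.2)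

theorem sgb_smul (s : Bool) (e v : ℝ) : sgb s * (e * v) = e * (sgb s * v) := by ring

theorem valC_A (A1 : AtC P RK RL RC n1 (Fn2.sc ef c1) j a y p x)
    (A2 : AtC P RK RL RC n2 (Fn2.sc ef c2) k b y' p' x) :
    vlA P RC (fun q => (Fn3.sc ef (pd q)).v) a b c j k (sgb s1) (sgb s2) x y y' =
      smV (ef.v x) (valC true s1 s2 c1 c2 (pd c) n1 n2 (pc c) p p' x) := by
  have e1 : ef.v x * c1.v p x = RC j a y x := A1.C
  have e2 : ef.v x * c2.v p' x = RC k b y' x := A2.C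
  unfold valC smV
  rw [valR_A A1.toAt A2.toAt]
  unfold vlA
  simp only [sgr_eq, ← e1, ← e2, cond_true, sgb_smul, Fn3.sc]

theorem valC_B (A1 : AtC P RK RL RC n1 (Fn2.sc ef c1) j a y p x)
    (A2 : AtC P RK RL RC n2 (Fn2.sc ef c2) k c (y + y') p' x) :
    vlB P RC (fun q => (Fn3.sc ef (pd q)).v) a b c j k (sgb s1) (sgb s2) x y y' =
      smV (ef.v x) (valC false s1 s2 c1 c2 (pd b) n1 n2 (pc b) p p' x) := by
  have e1 : ef.v x * c1.v p x = RC j a y x := A1.C
  have e2 : ef.v x * c2.v p' x = RC k c (y + y') x := A2.C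
  unfold valC smV
  rw [valR_B A1.toAt A2.toAt]
  unfold vlB
  simp only [sgr_eq, ← e1, ← e2, cond_false, sgb_smul, Fn3.sc]

/-- The values of the third kernel with dimension. -/
noncomputable def dimC (d : ℝ × ℝ × ℝ) : ℝ × ℝ × ℝ := (h0⁻¹ * d.1, h0⁻¹ * d.2.1, h0⁻¹ * d.2.2)

/-- the statement at both vertices for the triangle of the family `A` -/
def StEA (N0 : ℕ) (κ E o : ℝ) (f : ℝ → ℝ) (P : Pos n)
    (RK RL RC : Fin (n + 1) → ℕ → ℝ → ℝ → ℝ) (pc : ℕ → Piece) (pd : ℕ → Fn3)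
    (a b c : ℕ) (j k : Fin (n + 1)) (σ σ' x y y' : ℝ) : Prop :=
  Both N0 0 κ E (h0 * o) f x y y' (exA P a b j k σ σ' y y')
    (vlA P RK (fun q => (pc q).K.v) a b c j k σ σ' x y y')
    (vlA P RL (fun q => (pc q).L.v) a b c j k σ σ' x y y')
    (dimC (vlA P RC (fun q => (pd q).v) a b c j k σ σ' x y y'))

/-- the statement at both vertices for the triangle of the family `B` -/
def StEB (N0 : ℕ) (κ E o : ℝ) (f : ℝ → ℝ) (P : Pos n)
    (RK RL RC : Fin (n + 1) → ℕ → ℝ → ℝ → ℝ) (pc : ℕ → Piece) (pd : ℕ → Fn3)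
    (a b c : ℕ) (j k : Fin (n + 1)) (σ σ' x y y' : ℝ) : Prop :=
  Both N0 0 κ E (h0 * o) f x y y' (exB P a c j k σ σ' y y')
    (vlB P RK (fun q => (pc q).K.v) a b c j k σ σ' x y y')
    (vlB P RL (fun q => (pc q).L.v) a b c j k σ σ' x y y')
    (dimC (vlB P RC (fun q => (pd q).v) a b c j k σ σ' x y y'))

/-- the alternative of a chart, family `A`, both vertices -/
def CutEA (N0 : ℕ) (κ E o : ℝ) (f : ℝ → ℝ) (P : Pos n)
    (RK RL RC : Fin (n + 1) → ℕ → ℝ → ℝ → ℝ) (pc : ℕ → Piece) (pd : ℕ → Fn3) (cut : Cut)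
    (a b c : ℕ) (j k : Fin (n + 1)) (σ σ' x : ℝ) : Prop :=
  ∀ y y', FactsA P a b c j k σ σ' y y' →
    cut.P x y y' (σ * crv P j a y + σ' * crv P k b y') (y + y') →
    StEA N0 κ E o f P RK RL RC pc pd a b c j k σ σ' x y y'

/-- the alternative of a chart, family `B`, both vertices -/
def CutEB (N0 : ℕ) (κ E o : ℝ) (f : ℝ → ℝ) (P : Pos n)
    (RK RL RC : Fin (n + 1) → ℕ → ℝ → ℝ → ℝ) (pc : ℕ → Piece) (pd : ℕ → Fn3) (cut : Cut)
    (a b c : ℕ) (j k : Fin (n + 1)) (σ σ' x : ℝ) : Prop :=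
  ∀ y y', FactsB P a b c j k σ σ' y y' →
    cut.P x y y' (σ' * crv P k c (y + y') - σ * crv P j a y) y' →
    StEB N0 κ E o f P RK RL RC pc pd a b c j k σ σ' x y y'

/-- The further alternative `xt` implies the statement, family `A`, both vertices. -/
def ExtEA (N0 : ℕ) (κ E o : ℝ) (f : ℝ → ℝ) (P : Pos n)
    (RK RL RC : Fin (n + 1) → ℕ → ℝ → ℝ → ℝ) (pc : ℕ → Piece) (pd : ℕ → Fn3) (xt : Ext)
    (n1 n2 : Node) (c1 c2 : Fn2) (a b c : ℕ) (j k : Fin (n + 1)) (σ σ' x : ℝ) : Prop :=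
  ∀ y y' p p', FactsA P a b c j k σ σ' y y' → AtC P RK RL RC n1 c1 j a y p x →
    AtC P RK RL RC n2 c2 k b y' p' x → xt.P p p' x →
    StEA N0 κ E o f P RK RL RC pc pd a b c j k σ σ' x y y'

/-- The further alternative `xt` implies the statement, family `B`, both vertices. -/
def ExtEB (N0 : ℕ) (κ E o : ℝ) (f : ℝ → ℝ) (P : Pos n)
    (RK RL RC : Fin (n + 1) → ℕ → ℝ → ℝ → ℝ) (pc : ℕ → Piece) (pd : ℕ → Fn3) (xt : Ext)
    (n1 n2 : Node) (c1 c2 : Fn2) (a b c : ℕ) (j k : Fin (n + 1)) (σ σ' x : ℝ) : Prop :=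
  ∀ y y' p p', FactsB P a b c j k σ σ' y y' → AtC P RK RL RC n1 c1 j a y p x →
    AtC P RK RL RC n2 c2 k c (y + y') p' x → xt.P p p' x →
    StEB N0 κ E o f P RK RL RC pc pd a b c j k σ σ' x y y'

theorem noCut_EA {E : ℝ} :
    CutEA N0 κ E o f P RK RL RC pc pd Cut.none a b c j k σ σ' x :=
  fun _ _ _ h => (Cut.none_P h).elim

theorem noCut_EB {E : ℝ} :
    CutEB N0 κ E o f P RK RL RC pc pd Cut.none a b c j k σ σ' x :=
  fun _ _ _ h => (Cut.none_P h).elim

theorem noExt_EA {E : ℝ} :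
    ExtEA N0 κ E o f P RK RL RC pc pd Ext.none n1 n2 c1 c2 a b c j k σ σ' x :=
  fun _ _ _ _ _ _ _ h => h.elim

theorem noExt_EB {E : ℝ} :
    ExtEB N0 κ E o f P RK RL RC pc pd Ext.none n1 n2 c1 c2 a b c j k σ σ' x :=
  fun _ _ _ _ _ _ _ h => h.elim

theorem BothR.stEA (A1 : AtC P RK RL RC n1 (Fn2.sc ef c1) j a y p x)
    (A2 : AtC P RK RL RC n2 (Fn2.sc ef c2) k b y' p' x)
    (F : FactsA P a b c j k (sgb s1) (sgb s2) y y')
    (hc : con a b c = some cn) (hκ : κ * h0 = ken x) (hE : 0 < En.v x) (hef : 0 ≤ ef.v x)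
    (ho : mo.v x = mun N0 x * (ef.v x * o))
    (h : BothR N0 En mo c1 c2 (pd c) true s1 s2 cn a b c n1 n2 (pc c) cut xt p p' x)
    (hcut : cut.P x y y' (sgb s1 * crv P j a y + sgb s2 * crv P k b y') (y + y') →
      StEA N0 κ (En.v x) o f P RK RL RC pc (fun q => Fn3.sc ef (pd q)) a b c j k (sgb s1) (sgb s2) x y y')
    (hxt : xt.P p p' x →
      StEA N0 κ (En.v x) o f P RK RL RC pc (fun q => Fn3.sc ef (pd q)) a b c j k (sgb s1) (sgb s2) x y y') :
    StEA N0 κ (En.v x) o f P RK RL RC pc (fun q => Fn3.sc ef (pd q)) a b c j k (sgb s1) (sgb s2) x y y' := by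
  unfold BothR at h
  rw [valR_A A1.toAt A2.toAt, ho] at h
  have hv := valC_A (s1 := s1) (s2 := s2) (pd := pd) (c := c) (pc := pc) A1 A2
  rcases h with (h | h) | h | ⟨g, h1, h2⟩
  · exact absurd h (F.notOut rfl rfl rfl)
  · exact hcut h
  · exact hxt h
  · refine RowBoth.bothA F hc hE ⟨g, ?_, ?_⟩
    · have e := slt_add cn a b c (exA P a b j k (sgb s1) (sgb s2) y y') (ken x) x y y'
        (vlA P RK (fun q => (pc q).K.v) a b c j k (sgb s1) (sgb s2) x y y') g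
      have h1' : exA P a b j k (sgb s1) (sgb s2) y y' - slt cn a b c
          (exA P a b j k (sgb s1) (sgb s2) y y') (ken x) x y y'
          (vlA P RK (fun q => (pc q).K.v) a b c j k (sgb s1) (sgb s2) x y y') g <
          lvF (exA P a b j k (sgb s1) (sgb s2) y y')
            (vlA P RL (fun q => (pc q).L.v) a b c j k (sgb s1) (sgb s2) x y y') := h1
      rw [hκ]
      linarith
    · have e := slt_add cn a b c (exA P a b j k (sgb s1) (sgb s2) y y') (ken x) x y y'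
        (vlA P RK (fun q => (pc q).K.v) a b c j k (sgb s1) (sgb s2) x y y') g
      have h2' : En.v x * (exA P a b j k (sgb s1) (sgb s2) y y' - slt cn a b c
          (exA P a b j k (sgb s1) (sgb s2) y y') (ken x) x y y'
          (vlA P RK (fun q => (pc q).K.v) a b c j k (sgb s1) (sgb s2) x y y') g) <
          lvN N0 0 x y y' (exA P a b j k (sgb s1) (sgb s2) y y')
            (vlA P RL (fun q => (pc q).L.v) a b c j k (sgb s1) (sgb s2) x y y') -
          mun N0 x * (ef.v x * o) * widn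
            (valC true s1 s2 c1 c2 (pd c) n1 n2 (pc c) p p' x).1
            (valC true s1 s2 c1 c2 (pd c) n1 n2 (pc c) p p' x).2.1
            (valC true s1 s2 c1 c2 (pd c) n1 n2 (pc c) p p' x).2.2 := h2
      have ew : widn (smV (ef.v x) (valC true s1 s2 c1 c2 (pd c) n1 n2 (pc c) p p' x)).1
          (smV (ef.v x) (valC true s1 s2 c1 c2 (pd c) n1 n2 (pc c) p p' x)).2.1
          (smV (ef.v x) (valC true s1 s2 c1 c2 (pd c) n1 n2 (pc c) p p' x)).2.2 =
          ef.v x * widn (valC true s1 s2 c1 c2 (pd c) n1 n2 (pc c) p p' x).1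
            (valC true s1 s2 c1 c2 (pd c) n1 n2 (pc c) p p' x).2.1
            (valC true s1 s2 c1 c2 (pd c) n1 n2 (pc c) p p' x).2.2 := widn_smul hef _ _ _
      rw [← hv] at ew
      rw [hκ, ew]
      have e3 : exA P a b j k (sgb s1) (sgb s2) y y' - slt cn a b c
          (exA P a b j k (sgb s1) (sgb s2) y y') (ken x) x y y'
          (vlA P RK (fun q => (pc q).K.v) a b c j k (sgb s1) (sgb s2) x y y') g =
          -(slt cn a b c 0 (ken x) x y y'
          (vlA P RK (fun q => (pc q).K.v) a b c j k (sgb s1) (sgb s2) x y y') g) := by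
        linarith
      rw [e3] at h2'
      linarith

theorem BothR.stEB (A1 : AtC P RK RL RC n1 (Fn2.sc ef c1) j a y p x)
    (A2 : AtC P RK RL RC n2 (Fn2.sc ef c2) k c (y + y') p' x)
    (F : FactsB P a b c j k (sgb s1) (sgb s2) y y')
    (hc : con a b c = some cn) (hκ : κ * h0 = ken x) (hE : 0 < En.v x) (hef : 0 ≤ ef.v x)
    (ho : mo.v x = mun N0 x * (ef.v x * o))
    (h : BothR N0 En mo c1 c2 (pd b) false s1 s2 cn a b c n1 n2 (pc b) cut xt p p' x)
    (hcut : cut.P x y y' (sgb s2 * crv P k c (y + y') - sgb s1 * crv P j a y) y' →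
      StEB N0 κ (En.v x) o f P RK RL RC pc (fun q => Fn3.sc ef (pd q)) a b c j k (sgb s1) (sgb s2) x y y')
    (hxt : xt.P p p' x →
      StEB N0 κ (En.v x) o f P RK RL RC pc (fun q => Fn3.sc ef (pd q)) a b c j k (sgb s1) (sgb s2) x y y') :
    StEB N0 κ (En.v x) o f P RK RL RC pc (fun q => Fn3.sc ef (pd q)) a b c j k (sgb s1) (sgb s2) x y y' := by
  unfold BothR at h
  rw [valR_B A1.toAt A2.toAt, ho] at h
  have hv := valC_B (s1 := s1) (s2 := s2) (pd := pd) (b := b) (pc := pc) A1 A2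
  rcases h with (h | h) | h | ⟨g, h1, h2⟩
  · exact absurd h (F.notOut rfl rfl rfl)
  · exact hcut h
  · exact hxt h
  · refine RowBoth.bothB F hc hE ⟨g, ?_, ?_⟩
    · have e := slt_add cn a b c (exB P a c j k (sgb s1) (sgb s2) y y') (ken x) x y y'
        (vlB P RK (fun q => (pc q).K.v) a b c j k (sgb s1) (sgb s2) x y y') g
      have h1' : exB P a c j k (sgb s1) (sgb s2) y y' - slt cn a b c
          (exB P a c j k (sgb s1) (sgb s2) y y') (ken x) x y y'
          (vlB P RK (fun q => (pc q).K.v) a b c j k (sgb s1) (sgb s2) x y y') g <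
          lvF (exB P a c j k (sgb s1) (sgb s2) y y')
            (vlB P RL (fun q => (pc q).L.v) a b c j k (sgb s1) (sgb s2) x y y') := h1
      rw [hκ]
      linarith
    · have e := slt_add cn a b c (exB P a c j k (sgb s1) (sgb s2) y y') (ken x) x y y'
        (vlB P RK (fun q => (pc q).K.v) a b c j k (sgb s1) (sgb s2) x y y') g
      have h2' : En.v x * (exB P a c j k (sgb s1) (sgb s2) y y' - slt cn a b c
          (exB P a c j k (sgb s1) (sgb s2) y y') (ken x) x y y'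
          (vlB P RK (fun q => (pc q).K.v) a b c j k (sgb s1) (sgb s2) x y y') g) <
          lvN N0 0 x y y' (exB P a c j k (sgb s1) (sgb s2) y y')
            (vlB P RL (fun q => (pc q).L.v) a b c j k (sgb s1) (sgb s2) x y y') -
          mun N0 x * (ef.v x * o) * widn
            (valC false s1 s2 c1 c2 (pd b) n1 n2 (pc b) p p' x).1
            (valC false s1 s2 c1 c2 (pd b) n1 n2 (pc b) p p' x).2.1
            (valC false s1 s2 c1 c2 (pd b) n1 n2 (pc b) p p' x).2.2 := h2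
      have ew : widn (smV (ef.v x) (valC false s1 s2 c1 c2 (pd b) n1 n2 (pc b) p p' x)).1
          (smV (ef.v x) (valC false s1 s2 c1 c2 (pd b) n1 n2 (pc b) p p' x)).2.1
          (smV (ef.v x) (valC false s1 s2 c1 c2 (pd b) n1 n2 (pc b) p p' x)).2.2 =
          ef.v x * widn (valC false s1 s2 c1 c2 (pd b) n1 n2 (pc b) p p' x).1
            (valC false s1 s2 c1 c2 (pd b) n1 n2 (pc b) p p' x).2.1
            (valC false s1 s2 c1 c2 (pd b) n1 n2 (pc b) p p' x).2.2 := widn_smul hef _ _ _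
      rw [← hv] at ew
      rw [hκ, ew]
      have e3 : exB P a c j k (sgb s1) (sgb s2) y y' - slt cn a b c
          (exB P a c j k (sgb s1) (sgb s2) y y') (ken x) x y y'
          (vlB P RK (fun q => (pc q).K.v) a b c j k (sgb s1) (sgb s2) x y y') g =
          -(slt cn a b c 0 (ken x) x y y'
          (vlB P RK (fun q => (pc q).K.v) a b c j k (sgb s1) (sgb s2) x y y') g) := by
        linarith
      rw [e3] at h2'
      linarith

variable (P RC pd) in
/-- The third kernel at `x`. -/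
structure ThrOk (x : ℝ) : Prop where
  pin : Pins P RC x
  th : ∀ q X y, InQ q y → 1 ≤ qqn X y → qqn X y ≤ 3 → thd P RC q X y x = (pd q).v X y x

theorem ThrOk.link (h : ThrOk P RC pd x) : Link P.cur x (tbl (smT h0⁻¹ RC) x)
    (smT h0⁻¹ RC) (fun q X y x => h0⁻¹ * (pd q).v X y x) :=
  h.pin.link_smul _ (h.pin.link.congr h.th)

variable {P1 W1 P2 W2 P3 W3 : ℕ} {V1 V2 : ℝ → Prop}

/-- **Family `A`, both vertices**: from the certificate. -/
theorem bothA_cert (hc : con a b c = some cn) (hκ : κ * h0 = ken x) (hE : 0 < En.v x)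
    (hef : 0 ≤ ef.v x) (ho : mo.v x = mun N0 x * (ef.v x * o))
    (b1 : CovC P RK RL RC n1 (Fn2.sc ef c1) j a P1 W1 V1 x)
    (b2 : CovC P RK RL RC n2 (Fn2.sc ef c2) k b P2 W2 V2 x)
    (x1 : (P3 : ℝ) / S ≤ x) (x2 : x ≤ ((P3 : ℝ) + W3) / S)
    (ht : CertB P1 W1 P2 W2 P3 W3 N0 En mo c1 c2 (pd c) true s1 s2 cn a b c n1 n2 (pc c) cut xt)
    (hcut : CutEA N0 κ (En.v x) o f P RK RL RC pc (fun q => Fn3.sc ef (pd q)) cut a b c j k (sgb s1) (sgb s2) x)
    (hxt : ExtEA N0 κ (En.v x) o f P RK RL RC pc (fun q => Fn3.sc ef (pd q)) xt n1 n2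
      (Fn2.sc ef c1) (Fn2.sc ef c2) a b c j k
      (sgb s1) (sgb s2) x)
    (F : FactsA P a b c j k (sgb s1) (sgb s2) y y') (v1 : V1 y) (v2 : V2 y') :
    StEA N0 κ (En.v x) o f P RK RL RC pc (fun q => Fn3.sc ef (pd q)) a b c j k (sgb s1) (sgb s2) x y y' := by
  obtain ⟨p, A1, g1, g2⟩ := b1 y F.on1 v1
  obtain ⟨p', A2, g3, g4⟩ := b2 y' F.on2 v2
  exact BothR.stEA A1 A2 F hc hκ hE hef ho (ht ⟨g1, g2⟩ ⟨g3, g4⟩ ⟨x1, x2⟩) (hcut y y' F)
    (hxt y y' p p' F A1 A2)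

/-- **Family `B`, both vertices**: from the certificate. -/
theorem bothB_cert (hc : con a b c = some cn) (hκ : κ * h0 = ken x) (hE : 0 < En.v x)
    (hef : 0 ≤ ef.v x) (ho : mo.v x = mun N0 x * (ef.v x * o))
    (b1 : CovC P RK RL RC n1 (Fn2.sc ef c1) j a P1 W1 V1 x)
    (b2 : CovC P RK RL RC n2 (Fn2.sc ef c2) k c P2 W2 V2 x)
    (x1 : (P3 : ℝ) / S ≤ x) (x2 : x ≤ ((P3 : ℝ) + W3) / S)
    (ht : CertB P1 W1 P2 W2 P3 W3 N0 En mo c1 c2 (pd b) false s1 s2 cn a b c n1 n2 (pc b) cut xt)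
    (hcut : CutEB N0 κ (En.v x) o f P RK RL RC pc (fun q => Fn3.sc ef (pd q)) cut a b c j k (sgb s1) (sgb s2) x)
    (hxt : ExtEB N0 κ (En.v x) o f P RK RL RC pc (fun q => Fn3.sc ef (pd q)) xt n1 n2
      (Fn2.sc ef c1) (Fn2.sc ef c2) a b c j k
      (sgb s1) (sgb s2) x)
    (F : FactsB P a b c j k (sgb s1) (sgb s2) y y') (v1 : V1 y) (v2 : V2 (y + y')) :
    StEB N0 κ (En.v x) o f P RK RL RC pc (fun q => Fn3.sc ef (pd q)) a b c j k (sgb s1) (sgb s2) x y y' := by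
  obtain ⟨p, A1, g1, g2⟩ := b1 y F.on1 v1
  obtain ⟨p', A2, g3, g4⟩ := b2 (y + y') F.on3 v2
  exact BothR.stEB A1 A2 F hc hκ hE hef ho (ht ⟨g1, g2⟩ ⟨g3, g4⟩ ⟨x1, x2⟩) (hcut y y' F)
    (hxt y y' p p' F A1 A2)

theorem SideOk.bothA (h : SideOk P RK RL pc x) (hC : ThrOk P RC pd x) (hE : 0 < En.v x)
    (hσ : σ = 1 ∨ σ = -1) (hσ' : σ' = 1 ∨ σ' = -1)
    (H : ∀ y y', FactsA P a b c j k σ σ' y y' →
      StEA N0 κ (En.v x) o f P RK RL RC pc pd a b c j k σ σ' x y y') :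
    TriA P.cur (VE (h0 * 0) N0 κ (h0 * x) (En.v x) (h0 * o) f (tbl RK x)
      (tbl RL x) (tbl (smT h0⁻¹ RC) x)) a b c j k σ σ' := by
  refine triA_both hE h.linkK h.linkL hC.link hσ hσ' ?_
  intro y y' F
  rw [vlA_smul]
  exact H y y' F

theorem SideOk.bothB (h : SideOk P RK RL pc x) (hC : ThrOk P RC pd x) (hE : 0 < En.v x)
    (hσ : σ = 1 ∨ σ = -1) (hσ' : σ' = 1 ∨ σ' = -1)
    (H : ∀ y y', FactsB P a b c j k σ σ' y y' →
      StEB N0 κ (En.v x) o f P RK RL RC pc pd a b c j k σ σ' x y y') :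
    TriB P.cur (VE (h0 * 0) N0 κ (h0 * x) (En.v x) (h0 * o) f (tbl RK x)
      (tbl RL x) (tbl (smT h0⁻¹ RC) x)) a b c j k σ σ' := by
  refine triB_both hE h.linkK h.linkL hC.link hσ hσ' ?_
  intro y y' F
  rw [vlB_smul]
  exact H y y' F

end

end Pool.Agent.Strip051.PB
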