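import Pool.Agent.Strip051.PB.C12R

/-! # The corner `(1, 1, 2)`: from the segments to the alternatives -/

namespace Pool.Agent.Strip051.PB

open Pool.Agent.StripNear Pool.Agent.StripSquare Pool.Agent.Strip051.Sweep
open Pool.Agent.Strip051.LC

section

variable {n : ℕ} {P : Pos n} {RK RL : Fin (n + 1) → ℕ → ℝ → ℝ → ℝ} {pc : ℕ → Piece}
  {x κ : ℝ} {far : Bool} {N0 : ℕ} {cn : Con} {qa qb : ℕ} {j k : Fin (n + 1)} {sn : Bool}
  {D D3 : ℕ} {y y' Y : ℝ}

/-! ### The curves near the corner -/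

theorem swn_sq' {Y : ℝ} (h : 3 / 4 * (Y - 1) ^ 2 ≤ 1) : swn Y ^ 2 = 1 - 3 / 4 * (Y - 1) ^ 2 :=
  Real.sq_sqrt (by linarith)

theorem W_le_crv {m : Fin (n + 1)} (h : 1 ≤ P.ρ m) (hq : InQ 3 Y) : swn Y - 1 / 2 ≤ crv P m 3 Y := by
  obtain ⟨h1, h2⟩ := hq
  have hs := swn_sq' (Y := Y) (by nlinarith)
  have hc : c3n Y ^ 2 = 3 - 3 / 4 * Y ^ 2 := c3n_sq (by nlinarith)
  have c0 := c3n_nn Y
  have s0 : 0 ≤ swn Y := Real.sqrt_nonneg _
  have key : swn Y - 1 / 2 ≤ c3n Y := by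
    have : swn Y ≤ c3n Y + 1 / 2 := by
      apply abs_le_of_sq_le_sq' (a := swn Y) (b := c3n Y + 1 / 2) _ (by linarith) |>.2
      nlinarith
    linarith
  unfold crv gamn
  have hw : Wn (decide (2 ≤ 3)) Y = swn Y - 1 / 2 := by
    unfold Wn
    show swn Y + -(1 / 2) = _
    ring
  rw [hw]
  split_ifs with h3
  · have : P.ρ m = 1 := le_antisymm h3 h
    rw [this]
    linarith
  · nlinarith

theorem crv_le_W {m : Fin (n + 1)} (h : P.ρ m ≤ 1) (hq : InQ 3 Y) :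
    crv P m 3 Y ≤ swn Y - 1 / 2 := by
  obtain ⟨h1, h2⟩ := hq
  have hs := swn_sq' (Y := Y) (by nlinarith)
  have s0 : 0 ≤ swn Y := Real.sqrt_nonneg _
  have hc : c1n Y = 0 := by
    unfold c1n
    exact Real.sqrt_eq_zero_of_nonpos (by nlinarith)
  have key : 1 / 2 ≤ swn Y := by
    apply abs_le_of_sq_le_sq' (a := 1 / 2) (b := swn Y) _ s0 |>.2
    nlinarith
  unfold crv gamn
  have hw : Wn (decide (2 ≤ 3)) Y = swn Y - 1 / 2 := by
    unfold Wn
    show swn Y + -(1 / 2) = _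
    ring
  rw [hw, if_pos h, hc]
  nlinarith

theorem c1n_sq' {y : ℝ} (h : 3 / 4 * y ^ 2 ≤ 1) : c1n y ^ 2 = 1 - 3 / 4 * y ^ 2 :=
  Real.sq_sqrt (by linarith)

/-- `c1n y ≤ swn (y + y')` if both heights are at most one -/
theorem c1_le_sw (h0 : 0 ≤ y) (h1 : y' ≤ 1) (h2 : 1 ≤ y + y') : c1n y ≤ swn (y + y') := by
  unfold c1n swn
  exact Real.sqrt_le_sqrt (by nlinarith)

theorem sw_le_c1 (h0 : 0 ≤ y) (h1 : 1 ≤ y') : swn (y + y') ≤ c1n y := by
  unfold c1n swn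
  exact Real.sqrt_le_sqrt (by nlinarith)

theorem half_le_c1 (h0 : 0 ≤ y) (h1 : y ≤ 1) : 1 / 2 ≤ c1n y := by
  have hs := c1n_sq' (y := y) (by nlinarith)
  apply abs_le_of_sq_le_sq' (a := 1 / 2) (b := c1n y) _ (Real.sqrt_nonneg _) |>.2
  nlinarith

theorem c1_le_half (h1 : 1 ≤ y) : c1n y ≤ 1 / 2 := by
  unfold c1n
  rw [show (1 : ℝ) / 2 = √((1 / 2) ^ 2) by rw [Real.sqrt_sq (by norm_num)]]
  exact Real.sqrt_le_sqrt (by nlinarith)

/-- the curves left of the steep one are left of `1 / 2` above the height one -/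
theorem crv2_le_half {m : Fin (n + 1)} (h : P.ρ m ≤ 1) (h0 : 0 ≤ P.ρ m) (hq : InQ 2 y) :
    crv P m 2 y ≤ 1 / 2 := by
  obtain ⟨h1, h2⟩ := hq
  have hc := c1_le_half h1
  have hs : swn y ≤ 1 := by
    unfold swn
    rw [show (1 : ℝ) = √1 by simp]
    exact Real.sqrt_le_sqrt (by nlinarith [sq_nonneg (y - 1)])
  unfold crv gamn
  have hw : Wn (decide (2 ≤ 2)) y = swn y - 1 / 2 := by
    unfold Wn
    show swn y + -(1 / 2) = _
    ring
  rw [hw, if_pos h]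
  nlinarith

theorem crv0q {q : ℕ} : crv P 0 q y = c1n y := by
  unfold crv gamn
  rw [P.zero, if_pos zero_le_one]
  ring

theorem crv_nn {q : ℕ} (hq : InQ q y) (j : Fin (n + 1)) : 0 ≤ crv P j q y := by
  have k : crv P 0 q y ≤ crv P j q y := crv_mono hq (Fin.zero_le _)
  rw [crv0q] at k
  exact (Real.sqrt_nonneg _).trans k

theorem crv_last {q : ℕ} : crv P (Fin.last n) q y = c3n y := by
  unfold crv gamn
  rw [P.last, if_neg (by norm_num)]
  ring

theorem crv_le {q : ℕ} (hq : InQ q y) (j : Fin (n + 1)) : crv P j q y ≤ c3n y := by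
  rw [← crv_last (P := P) (q := q)]
  exact crv_mono hq (Fin.le_last _)

/-! ### The place of the third side, family `A` -/

theorem abs_nn (h0 : 0 ≤ y) (h1 : y ≤ 1) (h0' : 0 ≤ y') (h1' : y' ≤ 1) (hs : 1 ≤ y + y')
    (tt : Bool) : sgr tt (c1n y - c1n y') ≤ swn (y + y') - 1 / 2 := by
  have a1 := half_le_c1 h0 h1
  have a2 := half_le_c1 h0' h1'
  have b1 := c1_le_sw h0 h1' hs
  have b2 := c1_le_sw (y := y') (y' := y) h0' h1 (by linarith)
  rw [add_comm y' y] at b2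
  cases tt
  · show -(c1n y - c1n y') ≤ _
    linarith
  · show c1n y - c1n y' ≤ _
    linarith

/-- the third side lies on a segment left of the curve `m` -/
theorem seg_lt {q : ℕ} {y X : ℝ} (hq : InQ q y) (h1 : 1 ≤ qqn X y) (h3 : qqn X y ≤ 3)
    (t : Bool) (h : 0 ≤ sgr t X) {m : Fin (n + 1)} (hm : m ≠ 0) (hX : sgr t X ≤ crv P m q y) :
    ∃ i : Fin n, i.val < m.val ∧ crv P i.castSucc q y ≤ sgr t X ∧ sgr t X ≤ crv P i.succ q y := by
  obtain ⟨i, c1, c2⟩ := third_seg (P := P) hq h1 h3 t h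
  by_cases hi : i.val < m.val
  · exact ⟨i, hi, c1, c2⟩
  · push Not at hi
    have hm0 : 0 < m.val := Nat.pos_of_ne_zero fun h => hm (Fin.ext h)
    have k1 : crv P m q y ≤ crv P i.castSucc q y :=
      crv_mono hq (by rw [Fin.le_def]; simpa using hi)
    have hn : m.val - 1 < n := by omega
    have e : (⟨m.val - 1, hn⟩ : Fin n).succ = m := Fin.ext (by
      rw [Fin.val_succ]
      exact Nat.succ_pred_eq_of_pos hm0)
    have k2 : crv P (⟨m.val - 1, hn⟩ : Fin n).castSucc q y ≤ crv P m q y :=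
      crv_mono hq (by rw [Fin.le_def]; simp)
    exact ⟨⟨m.val - 1, hn⟩, Nat.sub_lt hm0 one_pos, by linarith, by rw [e]; exact hX⟩

/-- the third side lies on a segment right of the curve `m` -/
theorem seg_ge {q : ℕ} {y X : ℝ} (hq : InQ q y) (h1 : 1 ≤ qqn X y) (h3 : qqn X y ≤ 3)
    (t : Bool) (h : 0 ≤ sgr t X) {m : Fin n} (hX : crv P m.castSucc q y ≤ sgr t X) :
    ∃ i : Fin n, m.val ≤ i.val ∧ crv P i.castSucc q y ≤ sgr t X ∧
      sgr t X ≤ crv P i.succ q y := by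
  obtain ⟨i, c1, c2⟩ := third_seg (P := P) hq h1 h3 t h
  by_cases hi : m.val ≤ i.val
  · exact ⟨i, hi, c1, c2⟩
  · push Not at hi
    have k1 : crv P i.succ q y ≤ crv P m.castSucc q y :=
      crv_mono hq (by rw [Fin.le_def]; simp; omega)
    have k2 : crv P m.castSucc q y ≤ crv P m.succ q y :=
      crv_mono hq (by rw [Fin.le_def]; simp)
    exact ⟨m, le_rfl, hX, by linarith⟩

/-- the steep side against the height in the strip of the third chart -/
theorem c1_sub_half {u : ℝ} (h0 : 0 ≤ u) (h1 : u ≤ 1 / 16) : 4 / 3 * u ≤ c1n (1 - u) - 1 / 2 := by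
  have hs := c1n_sq' (y := 1 - u) (by nlinarith)
  have : 1 / 2 + 4 / 3 * u ≤ c1n (1 - u) := by
    apply abs_le_of_sq_le_sq' (a := 1 / 2 + 4 / 3 * u) (b := c1n (1 - u)) _
      (Real.sqrt_nonneg _) |>.2
    nlinarith
  linarith

theorem le_c3n_of {X Y : ℝ} (h : qqn X Y ≤ 3) : X ≤ c3n Y := by
  unfold qqn at h
  unfold c3n
  exact Real.le_sqrt_of_sq_le (by nlinarith)

/-! ### The alternatives, family `A` -/

/-- the cube around `(1, 1, 2)` -/
def cube12 (D D3 : ℕ) : List Cc := [⟨0, 1, 0, D⟩, ⟨1, 1, 0, D⟩, ⟨2, 2, 0, D3⟩]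

theorem cube12_P {X : ℝ} (h : ∀ c ∈ cube12 D D3, c.P x y y' X Y) : In12 D D3 y y' := by
  have e : (S : ℝ) = 1073741824 := S_one
  have h1 := h ⟨0, 1, 0, D⟩ (by simp [cube12])
  have h2 := h ⟨1, 1, 0, D⟩ (by simp [cube12])
  have h3 := h ⟨2, 2, 0, D3⟩ (by simp [cube12])
  refine ⟨?_, ?_, ?_⟩
  · rw [e]
    simpa [Cc.P, Cc.cen] using h1
  · rw [e]
    simpa [Cc.P, Cc.cen] using h2
  · rw [e]
    simpa [Cc.P, Cc.cen] using h3

/-- the segment of a point determines the statement, family `A` -/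
theorem Sg12A.slt (h : con qa qb 3 = some cn) (hq : qa = 1 ∨ qa = 2) (hq' : qb = 1 ∨ qb = 2)
    (side : SideOk P RK RL pc x) {tt : Bool} {i : Fin n}
    (H : Sg12A P RK RL far N0 cn qa qb j k tt i D D3 x)
    (F : FactsA P qa qb 3 j k 1 (-1) y y') (hi : In12 D D3 y y')
    (c1 : crv P i.castSucc 3 (y + y') ≤ sgr tt (crv P j qa y - crv P k qb y'))
    (c2 : sgr tt (crv P j qa y - crv P k qb y') ≤ crv P i.succ 3 (y + y')) :
    ∃ g, 0 ≤ slt cn qa qb 3 (levR far N0 x y y' (exA P qa qb j k 1 (-1) y y')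
      (vlA P RL (fun q => (pc q).L.v) qa qb 3 j k 1 (-1) x y y').1
      (vlA P RL (fun q => (pc q).L.v) qa qb 3 j k 1 (-1) x y y').2.1
      (vlA P RL (fun q => (pc q).L.v) qa qb 3 j k 1 (-1) x y y').2.2)
      (ken x) x y y'
      (vlA P RK (fun q => (pc q).K.v) qa qb 3 j k 1 (-1) x y y') g := by
  have k1 := (H y y' F hi c1 c2).slt h hq hq'
  have len1 := F.len1
  have len3 := F.len3
  have eX : crv P j qa y - crv P k qb y' = 1 * crv P j qa y + -1 * crv P k qb y' := by ring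
  rw [eX, side.thK _ _ _ F.q3 len1 len3, side.thL _ _ _ F.q3 len1 len3] at k1
  unfold vlA exA
  simp only [one_mul, neg_mul] at k1 ⊢
  exact k1

/-- the conclusion of a point determines the statement, family `B` -/
theorem slt_B (h : con qa qb 3 = some cn) (hq : qa = 1 ∨ qa = 2) (hq' : qb = 1 ∨ qb = 2)
    (side : SideOk P RK RL pc x)
    (H : Con12 far N0 cn y y' x (crv P j qa y) (sgr sn (crv P k 3 (y + y'))) (RK j qa y x)
      (thd P RK qb (sgr sn (crv P k 3 (y + y')) - crv P j qa y) y' x)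
      (sgr sn (RK k 3 (y + y') x)) (RL j qa y x)
      (thd P RL qb (sgr sn (crv P k 3 (y + y')) - crv P j qa y) y' x)
      (sgr sn (RL k 3 (y + y') x)))
    (F : FactsB P qa qb 3 j k 1 (sgb sn) y y') :
    ∃ g, 0 ≤ slt cn qa qb 3 (levR far N0 x y y' (exB P qa 3 j k 1 (sgb sn) y y')
      (vlB P RL (fun q => (pc q).L.v) qa qb 3 j k 1 (sgb sn) x y y').1
      (vlB P RL (fun q => (pc q).L.v) qa qb 3 j k 1 (sgb sn) x y y').2.1
      (vlB P RL (fun q => (pc q).L.v) qa qb 3 j k 1 (sgb sn) x y y').2.2)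
      (ken x) x y y'
      (vlB P RK (fun q => (pc q).K.v) qa qb 3 j k 1 (sgb sn) x y y') g := by
  have k1 := H.slt h hq hq'
  have len1 := F.len1
  have len3 := F.len3
  have eX : sgr sn (crv P k 3 (y + y')) - crv P j qa y =
      sgb sn * crv P k 3 (y + y') - 1 * crv P j qa y := by
    rw [← sgr_eq]
    ring
  rw [eX, side.thK _ _ _ F.q2 len1 len3, side.thL _ _ _ F.q2 len1 len3] at k1
  unfold vlB exB
  simp only [sgr_eq, one_mul] at k1 ⊢
  exact k1

/-- the segment of a point determines the statement, family `B` -/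
theorem Sg12B.slt (h : con qa qb 3 = some cn) (hq : qa = 1 ∨ qa = 2) (hq' : qb = 1 ∨ qb = 2)
    (side : SideOk P RK RL pc x) {i : Fin n}
    (H : Sg12B P RK RL far N0 cn qa qb j k sn i D D3 x)
    (F : FactsB P qa qb 3 j k 1 (sgb sn) y y') (hi : In12 D D3 y y')
    (c1 : crv P i.castSucc qb y' ≤ crv P j qa y - sgr sn (crv P k 3 (y + y')))
    (c2 : crv P j qa y - sgr sn (crv P k 3 (y + y')) ≤ crv P i.succ qb y') :
    ∃ g, 0 ≤ slt cn qa qb 3 (levR far N0 x y y' (exB P qa 3 j k 1 (sgb sn) y y')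
      (vlB P RL (fun q => (pc q).L.v) qa qb 3 j k 1 (sgb sn) x y y').1
      (vlB P RL (fun q => (pc q).L.v) qa qb 3 j k 1 (sgb sn) x y y').2.1
      (vlB P RL (fun q => (pc q).L.v) qa qb 3 j k 1 (sgb sn) x y y').2.2)
      (ken x) x y y'
      (vlB P RK (fun q => (pc q).K.v) qa qb 3 j k 1 (sgb sn) x y y') g :=
  slt_B h hq hq' side (H y y' F hi c1 c2) F

/-! ### The statements -/

/-- The statement at the corner `(1, 1, 2)` if the third side lies on the segment `i`,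
family `A`. -/
def SgA (V : ℝ → ℝ → ℝ → ℝ → ℝ × ℝ × ℝ → ℝ × ℝ × ℝ → Prop) (P : Pos n)
    (RK RL : Fin (n + 1) → ℕ → ℝ → ℝ → ℝ) (pc : ℕ → Piece) (qa qb : ℕ) (j k : Fin (n + 1))
    (tt : Bool) (i : Fin n) (D D3 : ℕ) (x : ℝ) : Prop :=
  ∀ y y', FactsA P qa qb 3 j k 1 (-1) y y' → In12 D D3 y y' →
    crv P i.castSucc 3 (y + y') ≤ sgr tt (crv P j qa y - crv P k qb y') →
    sgr tt (crv P j qa y - crv P k qb y') ≤ crv P i.succ 3 (y + y') →
    StA V P RK RL pc qa qb 3 j k 1 (-1) x y y'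

/-- The same for the family `B`; `sn` is the sign of the side bottom-top. -/
def SgB (V : ℝ → ℝ → ℝ → ℝ → ℝ × ℝ × ℝ → ℝ × ℝ × ℝ → Prop) (P : Pos n)
    (RK RL : Fin (n + 1) → ℕ → ℝ → ℝ → ℝ) (pc : ℕ → Piece) (qa qb : ℕ) (j k : Fin (n + 1))
    (sn : Bool) (i : Fin n) (D D3 : ℕ) (x : ℝ) : Prop :=
  ∀ y y', FactsB P qa qb 3 j k 1 (sgb sn) y y' → In12 D D3 y y' →
    crv P i.castSucc qb y' ≤ crv P j qa y - sgr sn (crv P k 3 (y + y')) →
    crv P j qa y - sgr sn (crv P k 3 (y + y')) ≤ crv P i.succ qb y' →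
    StB V P RK RL pc qa qb 3 j k 1 (sgb sn) x y y'

/-- The part of the segment where the height above one is at most two thirds of the coordinate. -/
def SgBl (V : ℝ → ℝ → ℝ → ℝ → ℝ × ℝ × ℝ → ℝ × ℝ × ℝ → Prop) (P : Pos n)
    (RK RL : Fin (n + 1) → ℕ → ℝ → ℝ → ℝ) (pc : ℕ → Piece) (cn : Con) (qa qb : ℕ)
    (j k : Fin (n + 1)) (sn : Bool) (i : Fin n) (D D3 : ℕ) (x : ℝ) : Prop :=
  ∀ y y', FactsB P qa qb 3 j k 1 (sgb sn) y y' → In12 D D3 y y' →
    vv12 cn y y' ≤ 2 / 3 * c3n (y + y') →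
    crv P i.castSucc qb y' ≤ crv P j qa y - sgr sn (crv P k 3 (y + y')) →
    crv P j qa y - sgr sn (crv P k 3 (y + y')) ≤ crv P i.succ qb y' →
    StB V P RK RL pc qa qb 3 j k 1 (sgb sn) x y y'

variable {V : ℝ → ℝ → ℝ → ℝ → ℝ × ℝ × ℝ → ℝ × ℝ × ℝ → Prop}

theorem Sg12A.vf (h : con qa qb 3 = some cn) (hq : qa = 1 ∨ qa = 2) (hq' : qb = 1 ∨ qb = 2)
    (side : SideOk P RK RL pc x) (hκ : κ * h0 = ken x) {tt : Bool} {i : Fin n}
    (H : Sg12A P RK RL true N0 cn qa qb j k tt i D D3 x) :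
    SgA (VF κ) P RK RL pc qa qb j k tt i D D3 x := by
  intro y y' F hi c1 c2
  refine F.ngv h ?_
  rw [hκ]
  exact H.slt h hq hq' side F hi c1 c2

theorem Sg12A.vn (h : con qa qb 3 = some cn) (hq : qa = 1 ∨ qa = 2) (hq' : qb = 1 ∨ qb = 2)
    (side : SideOk P RK RL pc x) (hκ : κ * h0 = ken x) {tt : Bool} {i : Fin n}
    (H : Sg12A P RK RL false N0 cn qa qb j k tt i D D3 x) :
    SgA (VN N0 κ) P RK RL pc qa qb j k tt i D D3 x := by
  intro y y' F hi c1 c2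
  refine F.ngv h ?_
  rw [hκ]
  exact H.slt h hq hq' side F hi c1 c2

theorem Sg12B.vf (h : con qa qb 3 = some cn) (hq : qa = 1 ∨ qa = 2) (hq' : qb = 1 ∨ qb = 2)
    (side : SideOk P RK RL pc x) (hκ : κ * h0 = ken x) {i : Fin n}
    (H : Sg12B P RK RL true N0 cn qa qb j k sn i D D3 x) :
    SgB (VF κ) P RK RL pc qa qb j k sn i D D3 x := by
  intro y y' F hi c1 c2
  refine F.ngv h ?_
  rw [hκ]
  exact H.slt h hq hq' side F hi c1 c2

theorem Sg12B.vn (h : con qa qb 3 = some cn) (hq : qa = 1 ∨ qa = 2) (hq' : qb = 1 ∨ qb = 2)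
    (side : SideOk P RK RL pc x) (hκ : κ * h0 = ken x) {i : Fin n}
    (H : Sg12B P RK RL false N0 cn qa qb j k sn i D D3 x) :
    SgB (VN N0 κ) P RK RL pc qa qb j k sn i D D3 x := by
  intro y y' F hi c1 c2
  refine F.ngv h ?_
  rw [hκ]
  exact H.slt h hq hq' side F hi c1 c2

/-- the upper part as a statement about a smaller set -/
theorem Sg12Bu.vf (h : con qa qb 3 = some cn) (hq : qa = 1 ∨ qa = 2) (hq' : qb = 1 ∨ qb = 2)
    (side : SideOk P RK RL pc x) (hκ : κ * h0 = ken x) {i : Fin n}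
    (H : Sg12Bu P RK RL true N0 cn qa qb j k sn i D D3 x)
    (H' : SgBl (VF κ) P RK RL pc cn qa qb j k sn i D D3 x) :
    SgB (VF κ) P RK RL pc qa qb j k sn i D D3 x := by
  intro y y' F hi c1 c2
  rcases le_total (2 / 3 * c3n (y + y')) (vv12 cn y y') with hv | hv
  · refine F.ngv h ?_
    rw [hκ]
    exact slt_B h hq hq' side (H y y' F hi hv c1 c2) F
  · exact H' y y' F hi hv c1 c2

theorem Sg12Bu.vn (h : con qa qb 3 = some cn) (hq : qa = 1 ∨ qa = 2) (hq' : qb = 1 ∨ qb = 2)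
    (side : SideOk P RK RL pc x) (hκ : κ * h0 = ken x) {i : Fin n}
    (H : Sg12Bu P RK RL false N0 cn qa qb j k sn i D D3 x)
    (H' : SgBl (VN N0 κ) P RK RL pc cn qa qb j k sn i D D3 x) :
    SgB (VN N0 κ) P RK RL pc qa qb j k sn i D D3 x := by
  intro y y' F hi c1 c2
  rcases le_total (2 / 3 * c3n (y + y')) (vv12 cn y y') with hv | hv
  · refine F.ngv h ?_
    rw [hκ]
    exact slt_B h hq hq' side (H y y' F hi hv c1 c2) F
  · exact H' y y' F hi hv c1 c2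

theorem altA12 (H : ∀ y y', FactsA P qa qb 3 j k 1 (-1) y y' → In12 D D3 y y' →
      ∃ (tt : Bool) (i : Fin n), SgA V P RK RL pc qa qb j k tt i D D3 x ∧
        crv P i.castSucc 3 (y + y') ≤ sgr tt (crv P j qa y - crv P k qb y') ∧
        sgr tt (crv P j qa y - crv P k qb y') ≤ crv P i.succ 3 (y + y')) :
    AltA V P RK RL pc (cube12 D D3) qa qb 3 j k (sgb true) (sgb false) x := by
  intro y y' F hc
  obtain ⟨tt, i, h1, c1, c2⟩ := H y y' F (cube12_P hc)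
  exact h1 y y' F (cube12_P hc) c1 c2

theorem altB12 (H : ∀ y y', FactsB P qa qb 3 j k 1 (sgb sn) y y' → In12 D D3 y y' →
      ∃ i : Fin n, SgB V P RK RL pc qa qb j k sn i D D3 x ∧
        crv P i.castSucc qb y' ≤ crv P j qa y - sgr sn (crv P k 3 (y + y')) ∧
        crv P j qa y - sgr sn (crv P k 3 (y + y')) ≤ crv P i.succ qb y') :
    AltB V P RK RL pc (cube12 D D3) qa qb 3 j k (sgb true) (sgb sn) x := by
  intro y y' F hc
  obtain ⟨i, h1, c1, c2⟩ := H y y' F (cube12_P hc)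
  exact h1 y y' F (cube12_P hc) c1 c2

/-- the coordinate is small in the cube -/
theorem c3n_small (hD3 : (D3 : ℝ) / S ≤ 1 / 64) (q3 : InQ 3 Y) (h : |Y - 2| < (D3 : ℝ) / S) :
    c3n Y ≤ 1 / 4 := by
  have a3 := abs_lt.1 h
  have y2 := q3.2
  have hs : c3n Y ^ 2 = 3 - 3 / 4 * Y ^ 2 := c3n_sq (by nlinarith)
  apply abs_le_of_sq_le_sq' (a := c3n Y) (b := 1 / 4) _ (by norm_num) |>.2
  nlinarith

/-- **The third side would be inside the unit circle**: node 13 on the positive side, node 12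
above the height one. -/
theorem vac213 (hD3 : (D3 : ℝ) / S ≤ 1 / 64) (hj : P.ρ j ≤ 1)
    (F : FactsB P 2 1 3 j k 1 (sgb true) y y') (hi : In12 D D3 y y') : False := by
  have len1 := F.len1
  have eX : sgb true * crv P k 3 (y + y') - 1 * crv P j 2 y =
      crv P k 3 (y + y') - crv P j 2 y := by
    show 1 * crv P k 3 (y + y') - 1 * crv P j 2 y = _
    ring
  rw [eX] at len1
  have k1 := crv2_le_half hj (P.nonneg j) F.q1
  have k2 : 0 ≤ crv P k 3 (y + y') := crv_nn F.q3 _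
  have k3 := c3n_small hD3 F.q3 hi.2.2
  have k4 : crv P k 3 (y + y') ≤ c3n (y + y') := crv_le F.q3 _
  have k5 : 0 ≤ crv P j 2 y := crv_nn F.q1 _
  obtain ⟨b1, b2⟩ := F.q2
  unfold qqn at len1
  have : (crv P k 3 (y + y') - crv P j 2 y) ^ 2 ≤ (1 / 2) ^ 2 := by
    rw [sq_le_sq, abs_of_pos (by norm_num : (0 : ℝ) < 1 / 2)]
    exact abs_le.2 ⟨by linarith, by linarith⟩
  nlinarith

theorem altB12_vac (hD3 : (D3 : ℝ) / S ≤ 1 / 64) (hj : P.ρ j ≤ 1) :
    AltB V P RK RL pc (cube12 D D3) 2 1 3 j k (sgb true) (sgb true) x :=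
  fun _ _ F hc => (vac213 hD3 hj F (cube12_P hc)).elim

/-! ### All segments -/

theorem loc113 {m : Fin (n + 1)} (hm : 1 ≤ P.ρ m)
    (H : ∀ (tt : Bool) (i : Fin n), i.val < m.val →
      SgA V P RK RL pc 1 1 0 0 tt i D D3 x) :
    ∀ y y', FactsA P 1 1 3 0 0 1 (-1) y y' → In12 D D3 y y' →
      ∃ (tt : Bool) (i : Fin n), SgA V P RK RL pc 1 1 0 0 tt i D D3 x ∧
        crv P i.castSucc 3 (y + y') ≤ sgr tt (crv P 0 1 y - crv P 0 1 y') ∧
        sgr tt (crv P 0 1 y - crv P 0 1 y') ≤ crv P i.succ 3 (y + y') := by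
  intro y y' F hi
  have len1 := F.len1
  have len3 := F.len3
  have eX : 1 * crv P 0 1 y + -1 * crv P 0 1 y' = crv P 0 1 y - crv P 0 1 y' := by ring
  rw [eX] at len1 len3
  have m0 : m ≠ 0 := fun h => by
    rw [h, P.zero] at hm
    linarith
  obtain ⟨a1, a2⟩ := F.q1
  obtain ⟨b1, b2⟩ := F.q2
  obtain ⟨tt, ht⟩ : ∃ tt, 0 ≤ sgr tt (crv P 0 1 y - crv P 0 1 y') := by
    rcases le_total 0 (crv P 0 1 y - crv P 0 1 y') with h | h
    · exact ⟨true, h⟩
    · exact ⟨false, by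
        show 0 ≤ -(crv P 0 1 y - crv P 0 1 y')
        linarith⟩
  have hX : sgr tt (crv P 0 1 y - crv P 0 1 y') ≤ crv P m 3 (y + y') := by
    rw [crv0q, crv0q]
    exact (abs_nn (by linarith) a2.le (by linarith) b2.le (by linarith) tt).trans
      (W_le_crv hm F.q3)
  obtain ⟨i, h1, c1, c2⟩ := seg_lt F.q3 len1 len3 tt ht m0 hX
  exact ⟨tt, i, H tt i h1, c1, c2⟩

theorem ge123 (F : FactsA P 1 2 3 0 k 1 (-1) y y') (hk : P.ρ k ≤ 1) :
    swn (y + y') - 1 / 2 ≤ crv P 0 1 y - crv P k 2 y' ∧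
      c1n y - 1 / 2 ≤ crv P 0 1 y - crv P k 2 y' := by
  obtain ⟨a1, a2⟩ := F.q1
  have hb := F.q2.1
  have k1 := crv2_le_half hk (P.nonneg k) F.q2
  have k2 := sw_le_c1 (y := y) (y' := y') (by linarith) hb
  rw [crv0q]
  constructor <;> linarith

theorem ge213 (F : FactsA P 2 1 3 j 0 1 (-1) y y') (hj : P.ρ j ≤ 1) :
    swn (y + y') - 1 / 2 ≤ -(crv P j 2 y - crv P 0 1 y') ∧
      c1n y' - 1 / 2 ≤ -(crv P j 2 y - crv P 0 1 y') := by
  have ha := F.q1.1
  obtain ⟨b1, b2⟩ := F.q2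
  have k1 := crv2_le_half hj (P.nonneg j) F.q1
  have k2 := sw_le_c1 (y := y') (y' := y) (by linarith) ha
  rw [add_comm y' y] at k2
  rw [crv0q]
  constructor <;> linarith

theorem loc123 {m : Fin n} (hm : P.ρ m.castSucc ≤ 1) (hk : P.ρ k ≤ 1)
    (H : ∀ i : Fin n, m.val ≤ i.val → SgA V P RK RL pc 1 2 0 k true i D D3 x) :
    ∀ y y', FactsA P 1 2 3 0 k 1 (-1) y y' → In12 D D3 y y' →
      ∃ (tt : Bool) (i : Fin n), SgA V P RK RL pc 1 2 0 k tt i D D3 x ∧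
        crv P i.castSucc 3 (y + y') ≤ sgr tt (crv P 0 1 y - crv P k 2 y') ∧
        sgr tt (crv P 0 1 y - crv P k 2 y') ≤ crv P i.succ 3 (y + y') := by
  intro y y' F hi
  have len1 := F.len1
  have len3 := F.len3
  have eX : 1 * crv P 0 1 y + -1 * crv P k 2 y' = crv P 0 1 y - crv P k 2 y' := by ring
  rw [eX] at len1 len3
  have hX := (ge123 F hk).1
  have hW := crv_le_W hm F.q3
  have h0 : 0 ≤ crv P m.castSucc 3 (y + y') := crv_nn F.q3 _
  obtain ⟨i, h1, c1, c2⟩ := seg_ge F.q3 len1 len3 true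
    (by show 0 ≤ crv P 0 1 y - crv P k 2 y'; linarith) (m := m)
    (by show _ ≤ crv P 0 1 y - crv P k 2 y'; linarith)
  exact ⟨true, i, H i h1, c1, c2⟩

theorem loc213 {m : Fin n} (hm : P.ρ m.castSucc ≤ 1) (hj : P.ρ j ≤ 1)
    (H : ∀ i : Fin n, m.val ≤ i.val → SgA V P RK RL pc 2 1 j 0 false i D D3 x) :
    ∀ y y', FactsA P 2 1 3 j 0 1 (-1) y y' → In12 D D3 y y' →
      ∃ (tt : Bool) (i : Fin n), SgA V P RK RL pc 2 1 j 0 tt i D D3 x ∧
        crv P i.castSucc 3 (y + y') ≤ sgr tt (crv P j 2 y - crv P 0 1 y') ∧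
        sgr tt (crv P j 2 y - crv P 0 1 y') ≤ crv P i.succ 3 (y + y') := by
  intro y y' F hi
  have len1 := F.len1
  have len3 := F.len3
  have eX : 1 * crv P j 2 y + -1 * crv P 0 1 y' = crv P j 2 y - crv P 0 1 y' := by ring
  rw [eX] at len1 len3
  have hX := (ge213 F hj).1
  have hW := crv_le_W hm F.q3
  have h0 : 0 ≤ crv P m.castSucc 3 (y + y') := crv_nn F.q3 _
  obtain ⟨i, h1, c1, c2⟩ := seg_ge F.q3 len1 len3 false
    (by show 0 ≤ -(crv P j 2 y - crv P 0 1 y'); linarith) (m := m)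
    (by show _ ≤ -(crv P j 2 y - crv P 0 1 y'); linarith)
  exact ⟨false, i, H i h1, c1, c2⟩

/-- the height above one is small against the third side -/
theorem h4_123 (hD : (D : ℝ) / S ≤ 1 / 16) (hk : P.ρ k ≤ 1) {y y' : ℝ}
    (F : FactsA P 1 2 3 0 k 1 (-1) y y') (hi : In12 D D3 y y') :
    cond (decide ((.npn : Con) = .npn)) (y' - 1) (y - 1) ≤ 3 / 4 * c3n (y + y') := by
  have h1 := (ge123 F hk).2
  have len3 := F.len3
  have eX : 1 * crv P 0 1 y + -1 * crv P k 2 y' = crv P 0 1 y - crv P k 2 y' := by ring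
  rw [eX] at len3
  have h2 := le_c3n_of len3
  have a1 := F.q3.2
  have a2 := F.q2.1
  have a3 := abs_lt.1 hi.1
  have h3 := c1_sub_half (u := 1 - y) (by linarith) (by linarith)
  have e : 1 - (1 - y) = y := by ring
  rw [e] at h3
  show y' - 1 ≤ _
  linarith

theorem h4_213 (hD : (D : ℝ) / S ≤ 1 / 16) (hj : P.ρ j ≤ 1) {y y' : ℝ}
    (F : FactsA P 2 1 3 j 0 1 (-1) y y') (hi : In12 D D3 y y') :
    cond (decide ((.pnn : Con) = .npn)) (y' - 1) (y - 1) ≤ 3 / 4 * c3n (y + y') := by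
  have h1 := (ge213 F hj).2
  have len3 := F.len3
  have eX : 1 * crv P j 2 y + -1 * crv P 0 1 y' = crv P j 2 y - crv P 0 1 y' := by ring
  rw [eX] at len3
  have h2 := le_c3n_of (X := -(crv P j 2 y - crv P 0 1 y')) (Y := y + y') (by
    unfold qqn at len3 ⊢
    nlinarith)
  have a1 := F.q3.2
  have a2 := F.q1.1
  have a3 := abs_lt.1 hi.2.1
  have h3 := c1_sub_half (u := 1 - y') (by linarith) (by linarith)
  have e : 1 - (1 - y') = y' := by ring
  rw [e] at h3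
  show y - 1 ≤ _
  linarith

/-- **The segments of the third side**, family `B`. -/
theorem locB12 (hD : (D : ℝ) / S ≤ 1 / 16) (hD3 : (D3 : ℝ) / S ≤ 1 / 64)
    (hq : qa = 1 ∨ qa = 2) {m : Fin (n + 1)}
    (H : ∀ i : Fin n, i.val < m.val → SgB V P RK RL pc qa qb j k sn i D D3 x)
    (E : Ex12B P qa qb j k sn m D D3) :
    ∀ y y', FactsB P qa qb 3 j k 1 (sgb sn) y y' → In12 D D3 y y' →
      ∃ i : Fin n, SgB V P RK RL pc qa qb j k sn i D D3 x ∧
        crv P i.castSucc qb y' ≤ crv P j qa y - sgr sn (crv P k 3 (y + y')) ∧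
        crv P j qa y - sgr sn (crv P k 3 (y + y')) ≤ crv P i.succ qb y' := by
  intro y y' F hi
  have hE := E y y' F hi
  have len1 := F.len1
  have len3 := F.len3
  have eX : sgb sn * crv P k 3 (y + y') - 1 * crv P j qa y =
      sgr sn (crv P k 3 (y + y')) - crv P j qa y := by
    rw [← sgr_eq]
    ring
  rw [eX] at len1 len3
  have en : crv P j qa y - sgr sn (crv P k 3 (y + y')) =
      sgr false (sgr sn (crv P k 3 (y + y')) - crv P j qa y) := by
    show _ = -(_ - _)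
    ring
  -- the third side is negative
  have y2 := F.q3.2
  have a1 := abs_lt.1 hi.1
  have a3 := abs_lt.1 hi.2.2
  have ya : 1 / 2 ≤ y ∧ y ≤ 17 / 16 := by
    rcases hq with rfl | rfl
    · obtain ⟨b1, b2⟩ := F.q1
      exact ⟨b1, by linarith⟩
    · obtain ⟨b1, b2⟩ := F.q1
      exact ⟨by linarith, by linarith⟩
  have hc1 : 3 / 8 ≤ crv P j qa y := by
    have k1 : crv P 0 qa y ≤ crv P j qa y := crv_mono F.q1 (Fin.zero_le _)
    rw [crv0q] at k1
    have hs := c1n_sq' (y := y) (by nlinarith)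
    have : 3 / 8 ≤ c1n y := by
      apply abs_le_of_sq_le_sq' (a := 3 / 8) (b := c1n y) _ (Real.sqrt_nonneg _) |>.2
      nlinarith
    linarith
  have hc3 : sgr sn (crv P k 3 (y + y')) ≤ 1 / 4 := by
    have k1 : crv P k 3 (y + y') ≤ c3n (y + y') := crv_le F.q3 _
    have k2 : 0 ≤ crv P k 3 (y + y') := crv_nn F.q3 _
    have hs : c3n (y + y') ^ 2 = 3 - 3 / 4 * (y + y') ^ 2 := c3n_sq (by nlinarith)
    have k3 : c3n (y + y') ≤ 1 / 4 := by
      apply abs_le_of_sq_le_sq' (a := c3n (y + y')) (b := 1 / 4) _ (by norm_num) |>.2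
      nlinarith
    cases sn
    · show -crv P k 3 (y + y') ≤ _
      linarith
    · show crv P k 3 (y + y') ≤ _
      linarith
  have hZ : 0 ≤ sgr false (sgr sn (crv P k 3 (y + y')) - crv P j qa y) := by
    rw [← en]
    linarith
  obtain ⟨i, c1, c2⟩ := third_seg (P := P) F.q2 len1 len3 false hZ
  rw [← en] at c1 c2
  refine ⟨i, H i ?_, c1, c2⟩
  by_contra hi'
  push Not at hi'
  have k1 : crv P m qb y' ≤ crv P i.castSucc qb y' :=
    crv_mono F.q2 (by rw [Fin.le_def]; simpa using hi')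
  linarith

end

end Pool.Agent.Strip051.PB
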