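import Pool.Agent.Strip051.PB.C12M
import Pool.Agent.Strip051.PB.Base

/-! # Charts at the corner `(1, 1, 2)`: the five charts -/

namespace Pool.Agent.Strip051.PB

attribute [local irreducible] padd psub pneg pmul psq pinv psqrt psqrtg pabs pps pmax pmin pphi plam
  pcase phf pnat prat pscale pnorm pdc pnc pone ppos pnn Enc pbad pzero

/-! ### The quotient of the distance from the top and the coordinate -/

/-- `(2 - y) / c3n y` as a function of `c3n y` -/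
noncomputable def wtr (t : ℝ) : ℝ := t * (2 / 3 * (1 + √(1 - 1 / 3 * t ^ 2))⁻¹)

theorem wtr_eq {y : ℝ} (h0 : 0 ≤ y) (h2 : y ≤ 2) : 2 - y = c3n y * wtr (c3n y) := by
  have hs : c3n y ^ 2 = 3 - 3 / 4 * y ^ 2 := c3n_sq (by nlinarith)
  have e : √(1 - 1 / 3 * c3n y ^ 2) = y / 2 := by
    rw [hs, show 1 - 1 / 3 * (3 - 3 / 4 * y ^ 2) = (y / 2) ^ 2 by ring]
    exact Real.sqrt_sq (by linarith)
  unfold wtr
  rw [e]
  have h3 : 1 + y / 2 ≠ 0 := by positivity
  have h4 : (2 : ℝ) + y ≠ 0 := by positivity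
  field_simp
  rw [hs]
  ring

theorem wtr_nn {t : ℝ} (h : 0 ≤ t) : 0 ≤ wtr t := by
  unfold wtr
  positivity

/-- the quotient, packed -/
noncomputable def wtT (T : ℕ) : ℕ :=
  pmn T (pscale 2 3 (pinv (padd pone (psqrt (psub pone (pscale 1 3 (psq T)))))))

theorem enc_wtT {E : Pt} {T : ℕ} {t : ℝ} (h : Enc E T t) : Enc E (wtT T) (wtr t) := by
  have h1 := enc_one E
  refine enc_cast (enc_mn h (enc_scale 2 3 (enc_inv (enc_add h1 (enc_sqrt (enc_sub h1
    (enc_scale 1 3 (enc_sq h)))))))) ?_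
  unfold wtr
  push_cast
  ring

/-! ### The charts -/

/-- selection by the cell -/
def cs12 (cn : Con) (p q : ℝ) : ℝ :=
  match cn with
  | .npn => p
  | _ => q

/-- selection by the cell, packed -/
noncomputable def cs12T (cn : Con) (P Q : ℕ) : ℕ :=
  Con.rec (motive := fun _ => ℕ) Q Q Q Q Q P Q Q cn

theorem enc_cs12 {E : Pt} (cn : Con) {P Q : ℕ} {p q : ℝ} (h : Enc E P p) (h' : Enc E Q q) :
    Enc E (cs12T cn P Q) (cs12 cn p q) := by
  cases cn
  · exact h'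
  · exact h'
  · exact h'
  · exact h'
  · exact h'
  · exact h
  · exact h'
  · exact h'

/-- The parameters of a point in the coordinates `u`, `v` of a chart: `0`: scale and share, regular
nodes; `1`: coordinate and share, scale `2 - y`; `2`: coordinate and share, scale is the coordinate;
`3`: scale `t + v`; `4`: scale `t`. -/
def Rel12 (kd : ℕ) (cn : Con) (u v s a b t τ w : ℝ) : Prop :=
  match kd with
  | 0 => s = u ∧ a = v ∧ b = 1 - v
  | 1 => t = u ∧ w = wtr u ∧ s = u * w ∧ a = v ∧ b = 1 - v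
  | 2 => t = u ∧ w = wtr u ∧ s = u ∧ τ = 1 ∧ a = v * w ∧ b = (1 - v) * w
  | 3 => s = u ∧ τ = 1 - v ∧ t = u * τ ∧ w = wtr t ∧ a = cs12 cn v (τ * w) ∧
      b = cs12 cn (τ * w) v
  | _ => s = u ∧ τ = 1 ∧ t = u ∧ w = wtr u ∧ a = cs12 cn v w ∧ b = cs12 cn w v

/-- the packed parameters -/
noncomputable def ch12 (kd : ℕ) (cn : Con) (U V : ℕ) (k : ℕ → ℕ → ℕ → ℕ → ℕ → ℕ → Bool) : Bool :=
  Nat.rec (motive := fun _ => Bool) (frc (psub pone V) fun V' => k U V V' pbad pbad pbad)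
    (fun i _ => Nat.rec (motive := fun _ => Bool)
      (frc (psub pone V) fun V' => frc (wtT U) fun W => frc (pmn U W) fun S => k S V V' U pbad W)
      (fun i _ => Nat.rec (motive := fun _ => Bool)
        (frc (wtT U) fun W => frc (pmn V W) fun A => frc (pmn (psub pone V) W) fun B =>
          k U A B U pone W)
        (fun i _ => Nat.rec (motive := fun _ => Bool)
          (frc (psub pone V) fun V' => frc (pmn U V') fun T => frc (wtT T) fun W =>
            frc (pmn V' W) fun O => k U (cs12T cn V O) (cs12T cn O V) T V' W)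
          (fun _ _ => frc (wtT U) fun W => k U (cs12T cn V W) (cs12T cn W V) U pone W) i) i) i) kd

theorem ch12_sound {kd : ℕ} {cn : Con} {u v s a b t τ w : ℝ}
    {k : ℕ → ℕ → ℕ → ℕ → ℕ → ℕ → Bool} (R : Rel12 kd cn u v s a b t τ w) {E : Pt} {U V : ℕ}
    (hU : Enc E U u) (hV : Enc E V v) (h : ch12 kd cn U V k = true) :
    ∃ S A B T V' W, Enc E S s ∧ Enc E A a ∧ Enc E B b ∧ Enc E T t ∧ Enc E V' τ ∧ Enc E W w ∧
      k S A B T V' W = true := by
  have h1 := enc_one E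
  match kd, R, h with
  | 0, R, h =>
    obtain ⟨rfl, rfl, rfl⟩ := R
    change (frc (psub pone V) fun V' => k U V V' pbad pbad pbad) = true at h
    rw [frc_eq] at h
    exact ⟨_, _, _, _, _, _, hU, hV, enc_sub h1 hV, enc_pbad E _, enc_pbad E _, enc_pbad E _, h⟩
  | 1, R, h =>
    obtain ⟨rfl, rfl, rfl, rfl, rfl⟩ := R
    change (frc (psub pone V) fun V' => frc (wtT U) fun W => frc (pmn U W) fun S =>
      k S V V' U pbad W) = true at h
    simp only [frc_eq] at h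
    exact ⟨_, _, _, _, _, _, enc_mn hU (enc_wtT hU), hV, enc_sub h1 hV, hU, enc_pbad E _,
      enc_wtT hU, h⟩
  | 2, R, h =>
    obtain ⟨rfl, rfl, rfl, rfl, rfl, rfl⟩ := R
    change (frc (wtT U) fun W => frc (pmn V W) fun A => frc (pmn (psub pone V) W) fun B =>
      k U A B U pone W) = true at h
    simp only [frc_eq] at h
    exact ⟨_, _, _, _, _, _, hU, enc_mn hV (enc_wtT hU), enc_mn (enc_sub h1 hV) (enc_wtT hU), hU,
      h1, enc_wtT hU, h⟩
  | 3, R, h =>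
    obtain ⟨rfl, rfl, rfl, rfl, rfl, rfl⟩ := R
    change (frc (psub pone V) fun V' => frc (pmn U V') fun T => frc (wtT T) fun W =>
      frc (pmn V' W) fun O => k U (cs12T cn V O) (cs12T cn O V) T V' W) = true at h
    simp only [frc_eq] at h
    have hV' := enc_sub h1 hV
    have hT := enc_mn hU hV'
    have hO := enc_mn hV' (enc_wtT hT)
    exact ⟨_, _, _, _, _, _, hU, enc_cs12 cn hV hO, enc_cs12 cn hO hV, hT, hV', enc_wtT hT, h⟩
  | (n + 4), R, h =>
    obtain ⟨rfl, rfl, rfl, rfl, rfl, rfl⟩ := R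
    change (frc (wtT U) fun W => k U (cs12T cn V W) (cs12T cn W V) U pone W) = true at h
    rw [frc_eq] at h
    have hW := enc_wtT hU
    exact ⟨_, _, _, _, _, _, hU, enc_cs12 cn hV hW, enc_cs12 cn hW hV, hU, h1, hW, h⟩

/-! ### From certificates to statements -/

/-- the test function, family `A` -/
noncomputable def fA12 (kd : ℕ) (far : Bool) (N0 : ℕ) (C0 : Fn1) (cn : Con) (tt la lb : Bool)
    (G1 G2 Ga Gb : Gn) (D D3 : ℕ) (h U V X : ℕ) : Bool :=
  ch12 kd cn U V fun S A B T V W => cA12 far N0 C0 cn tt la lb G1 G2 Ga Gb D D3 h S A B T V W X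

/-- the test function, family `B` -/
noncomputable def fB12 (kd : ℕ) (far : Bool) (N0 : ℕ) (C0 : Fn1) (cn : Con) (tn l2 lo up : Bool)
    (G1 G2 Ga Gb : Gn) (D D3 : ℕ) (h U V X : ℕ) : Bool :=
  ch12 kd cn U V fun S A B T V W => cB12 far N0 C0 cn tn l2 lo up G1 G2 Ga Gb D D3 h S A B T V W X

section

variable {kd : ℕ} {far : Bool} {N0 : ℕ} {C0 : Fn1} {cn : Con} {tt la lb tn l2 lo up : Bool}
  {G1 G2 Ga Gb : Gn} {D D3 Wu Wv Px Wx : ℕ} {y y' u v s a b t τ w x : ℝ}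

theorem cert12 {f : ℕ → ℕ → ℕ → ℕ → Bool} {Q : ℝ → ℝ → ℝ → Prop}
    (hf : ∀ {E : Pt} {h A B C : ℕ} {p q x : ℝ}, Enc E A p → Enc E B q → Enc E C x →
      f h A B C = true → Q p q x)
    (ht : ∃ t, chk3 (onCell 0 Wu 0 Wv Px Wx f) t 1 1 1 = true)
    (hu : 0 ≤ u) (hu' : u ≤ (Wu : ℝ) / S) (hv : 0 ≤ v) (hv' : v ≤ (Wv : ℝ) / S)
    (hx : (Px : ℝ) / S ≤ x) (hx' : x ≤ ((Px : ℝ) + Wx) / S) : Q u v x :=
  onCell_sound hf ht (by simpa using hu) (by simpa using hu') (by simpa using hv)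
    (by simpa using hv') hx hx'

/-- **From the certificate of a chart to the statement**, family `A`. -/
theorem st12A_cert (hc : isC12 cn) (hab : lb = true → la = true)
    (P : P12 cn y y' s a b t τ w) (R : Rel12 kd cn u v s a b t τ w) (x0 : 0 < x) (x1 : x < 1)
    (h1 : G1.At 1 (1 / 2) (C0.v x) x) (h2 : G2.At 1 (1 / 2) (C0.v x) x)
    (ha : Ga.At3 la (C0.v x) x) (hb : Gb.At3 lb (C0.v x) x)
    (ht : ∃ t, chk3 (onCell 0 Wu 0 Wv Px Wx
      (fA12 kd far N0 C0 cn tt la lb G1 G2 Ga Gb D D3)) t 1 1 1 = true)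
    (hu : 0 ≤ u) (hu' : u ≤ (Wu : ℝ) / S) (hv : 0 ≤ v) (hv' : v ≤ (Wv : ℝ) / S)
    (hx : (Px : ℝ) / S ≤ x) (hx' : x ≤ ((Px : ℝ) + Wx) / S) :
    St12A far N0 cn y y' x G1 G2 Ga Gb D D3 tt la lb := by
  have key := cert12 (Q := fun u v x => 0 < x → x < 1 → Rel12 kd cn u v s a b t τ w →
    G1.At 1 (1 / 2) (C0.v x) x → G2.At 1 (1 / 2) (C0.v x) x → Ga.At3 la (C0.v x) x →
    Gb.At3 lb (C0.v x) x → St12A far N0 cn y y' x G1 G2 Ga Gb D D3 tt la lb)
    (f := fA12 kd far N0 C0 cn tt la lb G1 G2 Ga Gb D D3) (fun hA hB hC h x0 x1 R h1 h2 ha hb => by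
      unfold fA12 at h
      obtain ⟨S', A, B, T, V', W, k1, k2, k3, k4, k5, k6, k⟩ := ch12_sound R hA hB h
      exact cA12_sound hc hab P x0 x1 k1 k2 k3 k4 k5 k6 hC h1 h2 ha hb k) ht hu hu' hv hv' hx hx'
  exact key x0 x1 R h1 h2 ha hb

/-- **From the certificate of a chart to the statement**, family `B`. -/
theorem st12B_cert (hc : isC12 cn)
    (P : P12 cn y y' s a b t τ w) (R : Rel12 kd cn u v s a b t τ w) (x0 : 0 < x) (x1 : x < 1)
    (h1 : G1.At 1 (1 / 2) (C0.v x) x) (h2 : G2.At3 l2 (C0.v x) x)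
    (ha : lo = true → Ga.At 1 (1 / 2) (C0.v x) x)
    (hb : lo = true → up = true → Gb.At 1 (1 / 2) (C0.v x) x)
    (ht : ∃ t, chk3 (onCell 0 Wu 0 Wv Px Wx
      (fB12 kd far N0 C0 cn tn l2 lo up G1 G2 Ga Gb D D3)) t 1 1 1 = true)
    (hu : 0 ≤ u) (hu' : u ≤ (Wu : ℝ) / S) (hv : 0 ≤ v) (hv' : v ≤ (Wv : ℝ) / S)
    (hx : (Px : ℝ) / S ≤ x) (hx' : x ≤ ((Px : ℝ) + Wx) / S) :
    St12B far N0 cn y y' x G1 G2 Ga Gb D D3 tn l2 := by
  have key := cert12 (Q := fun u v x => 0 < x → x < 1 → Rel12 kd cn u v s a b t τ w →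
    G1.At 1 (1 / 2) (C0.v x) x → G2.At3 l2 (C0.v x) x →
    (lo = true → Ga.At 1 (1 / 2) (C0.v x) x) →
    (lo = true → up = true → Gb.At 1 (1 / 2) (C0.v x) x) →
    St12B far N0 cn y y' x G1 G2 Ga Gb D D3 tn l2)
    (f := fB12 kd far N0 C0 cn tn l2 lo up G1 G2 Ga Gb D D3)
    (fun hA hB hC h x0 x1 R h1 h2 ha hb => by
      unfold fB12 at h
      obtain ⟨S', A, B, T, V', W, k1, k2, k3, k4, k5, k6, k⟩ := ch12_sound R hA hB h
      exact cB12_sound hc P x0 x1 k1 k2 k3 k4 k5 hC h1 h2 ha hb k) ht hu hu' hv hv' hx hx'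
  exact key x0 x1 R h1 h2 ha hb

end

end Pool.Agent.Strip051.PB
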