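import Pool.Agent.Strip051.PB.C12T

/-! # Charts at the corner `(1, 1, 2)`: the leaf

In the quarter `3` the curves left of the steep one are regular in the height, the other curves in
the coordinate `c3n`. -/

namespace Pool.Agent.Strip051.PB

attribute [local irreducible] padd psub pneg pmul psq pinv psqrt psqrtg pabs pps pmax pmin pphi plam
  pcase phf pnat prat pscale pnorm pdc pnc pone ppos pnn Enc pbad pzero

/-- the coordinate in the quarter `3`, `l`: left of the steep curve -/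
noncomputable def c3r (l : Bool) (y : ℝ) : ℝ := cond l y (c3n y)

/-- The values at the top. -/
def Gn.At3 (G : Gn) (l : Bool) (c0 x : ℝ) : Prop := G.At (cond l 2 0) 0 c0 x

/-- both curves regular in the height, `M` is the base and `U` is the rate of the height -/
noncomputable def sgLL (Ga Gb : Gn) (Y M U x : ℕ) (k : ℕ → ℕ → ℕ → ℕ → ℕ → Bool) : Bool :=
  frc (Ga.xT Y M) fun xa => frc (Ga.kT Y M x) fun ka => frc (Ga.lT Y M x) fun a =>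
  frc (psub (Gb.xT Y M) xa) fun D => band (ppos (pabs D)) (frc (pinvs D) fun I =>
    k (pmn (psub (Gb.kT Y M x) ka) I) (pmn (psub (Gb.lT Y M x) a) I)
      (pmn U xa) (pmn U ka) (pmn U a))

/-- both curves right of the steep curve, `V` is the rate of the coordinate -/
noncomputable def sgRR (Ga Gb : Gn) (T V x : ℕ) (k : ℕ → ℕ → ℕ → ℕ → ℕ → Bool) : Bool :=
  frc (Ga.xT T pzero) fun xa => frc (Ga.kT T pzero x) fun ka => frc (Ga.lT T pzero x) fun a =>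
  frc (psub (Gb.xT T pzero) xa) fun D => band (ppos (pabs D)) (frc (pinvs D) fun I =>
    k (pmn (psub (Gb.kT T pzero x) ka) I) (pmn (psub (Gb.lT T pzero x) a) I)
      (pmn V xa) (pmn V ka) (pmn V a))

/-- the steep curve between the curves, `W` is the quotient of `2 - y` and the coordinate -/
noncomputable def sgLR (Ga Gb : Gn) (Y T W U x : ℕ) (k : ℕ → ℕ → ℕ → ℕ → ℕ → Bool) : Bool :=
  frc (Ga.xT Y (pnc 2)) fun xa => frc (Ga.kT Y (pnc 2) x) fun ka => frc (Ga.lT Y (pnc 2) x) fun a =>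
  frc (padd (Gb.xT T pzero) (pmn W xa)) fun D => band (ppos (pabs D)) (frc (pinvs D) fun I =>
    k (pmn (padd (Gb.kT T pzero x) (pmn W ka)) I) (pmn (padd (Gb.lT T pzero x) (pmn W a)) I)
      (pmn U xa) (pmn U ka) (pmn U a))

/-- The slopes of the kernel and of the level on the segment and the rates of the lower curve; `la`,
`lb`: the curves are left of the steep one. -/
noncomputable def seg3T (la lb : Bool) (Ga Gb : Gn) (Y T W U V x : ℕ)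
    (k : ℕ → ℕ → ℕ → ℕ → ℕ → Bool) : Bool :=
  Bool.rec (motive := fun _ => Bool) (sgRR Ga Gb T V x k)
    (Bool.rec (motive := fun _ => Bool) (sgLR Ga Gb Y T W U x k) (sgLL Ga Gb Y (pnc 2) U x k) lb) la

theorem lin3 {u ξ0 ξ1 κ0 κ1 Z T : ℝ} (h : Lin (u * ξ0) (u * ξ1) (u * κ0) (u * κ1) Z T)
    (h0 : u * ξ0 ≤ Z) (h1 : Z ≤ u * ξ1) (hd : ξ1 - ξ0 ≠ 0) :
    T = u * κ0 + (κ1 - κ0) * (ξ1 - ξ0)⁻¹ * (Z - u * ξ0) := by
  have := lin_both (B := 0) (c := 0) (u := u) (ξ0 := ξ0) (ξ1 := ξ1) (κ0 := κ0) (κ1 := κ1)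
    (by simpa using h) (by simpa using h0) (by simpa using h1) hd
  simpa using this

/-- The conclusion of the segment tests. -/
def SgC (E : Pt) (k : ℕ → ℕ → ℕ → ℕ → ℕ → Bool) (s Z T' TL : ℝ) : Prop :=
  ∃ (gK gL ξ κ l : ℝ) (GK GM XI KA LA : ℕ), Enc E GK gK ∧ Enc E GM gL ∧ Enc E XI ξ ∧
    Enc E KA κ ∧ Enc E LA l ∧ k GK GM XI KA LA = true ∧
    T' = s * κ + gK * (Z - s * ξ) ∧ TL = s * l + gL * (Z - s * ξ)

section

variable {E : Pt} {Ga Gb : Gn} {Y T W U V X : ℕ} {y s u v w x c0 Z T' TL : ℝ}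
  {k : ℕ → ℕ → ℕ → ℕ → ℕ → Bool}

theorem Gn.slopesL (G : Gn) (hY : Enc E Y y) (hx : Enc E X x) (h : G.At3 true c0 x) :
    (∃ ξ, Enc E (G.xT Y (pnc 2)) ξ ∧ G.xv y = (y - 2) * ξ) ∧
    (∃ κ, Enc E (G.kT Y (pnc 2) X) κ ∧ G.kv y x = (y - 2) * κ) ∧
    (∃ τ, Enc E (G.lT Y (pnc 2) X) τ ∧ G.lv y x = (y - 2) * τ) := by
  obtain ⟨h1, h2, h3⟩ := h
  have e2 : Enc E (pnc 2) 2 := enc_cast (enc_pnc E 2) (by norm_num)
  obtain ⟨⟨a, a1, a2⟩, ⟨b, b1, b2⟩, ⟨c, c1, c2⟩⟩ := G.slopes hY e2 hx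
  simp only [cond_true] at h1 h2 h3
  rw [h1] at a2
  rw [h2] at b2
  rw [h3] at c2
  exact ⟨⟨a, a1, by linarith⟩, ⟨b, b1, by linarith⟩, ⟨c, c1, by linarith⟩⟩

theorem Gn.slopesR (G : Gn) {t : ℝ} (hT : Enc E T t) (hx : Enc E X x) (h : G.At3 false c0 x) :
    (∃ ξ, Enc E (G.xT T pzero) ξ ∧ G.xv t = t * ξ) ∧
    (∃ κ, Enc E (G.kT T pzero X) κ ∧ G.kv t x = t * κ) ∧
    (∃ τ, Enc E (G.lT T pzero X) τ ∧ G.lv t x = t * τ) := by
  obtain ⟨h1, h2, h3⟩ := h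
  obtain ⟨⟨a, a1, a2⟩, ⟨b, b1, b2⟩, ⟨c, c1, c2⟩⟩ := G.slopes hT (enc_zero E) hx
  simp only [cond_false] at h1 h2 h3
  rw [h1] at a2
  rw [h2] at b2
  rw [h3] at c2
  exact ⟨⟨a, a1, by linarith⟩, ⟨b, b1, by linarith⟩, ⟨c, c1, by linarith⟩⟩

theorem sgLL_sound {M : ℕ} {m b : ℝ} (hY : Enc E Y y) (hM : Enc E M m) (hU : Enc E U u)
    (hx : Enc E X x) (eu : y - m = s * u) (ha : Ga.At m b c0 x) (hb : Gb.At m b c0 x)
    (h : sgLL Ga Gb Y M U X k = true) (i1 : Ga.xv y ≤ Z) (i2 : Z ≤ Gb.xv y)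
    (hT' : Lin (Ga.xv y) (Gb.xv y) (Ga.kv y x) (Gb.kv y x) Z T')
    (hTL : Lin (Ga.xv y) (Gb.xv y) (Ga.lv y x) (Gb.lv y x) Z TL) :
    SgC E k s (Z - b) (T' - c0 * b) TL := by
  obtain ⟨⟨xa, xa1, xa2⟩, ⟨ka, ka1, ka2⟩, ⟨a, a1, a2⟩⟩ := Ga.slopes hY hM hx
  obtain ⟨⟨xb, xb1, xb2⟩, ⟨kb, kb1, kb2⟩, ⟨b', b1, b2⟩⟩ := Gb.slopes hY hM hx
  obtain ⟨c1, c2, c3⟩ := ha
  obtain ⟨d1, d2, d3⟩ := hb
  have k1 : Ga.xv y = b + (y - m) * xa := by linarith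
  have k2 : Gb.xv y = b + (y - m) * xb := by linarith
  have k3 : Ga.kv y x = c0 * b + (y - m) * ka := by linarith
  have k4 : Gb.kv y x = c0 * b + (y - m) * kb := by linarith
  have k5 : Ga.lv y x = 0 + (y - m) * a := by linarith
  have k6 : Gb.lv y x = 0 + (y - m) * b' := by linarith
  rw [k1, k2, k3, k4] at hT'
  rw [k1, k2, k5, k6] at hTL
  rw [k1] at i1
  rw [k2] at i2
  unfold sgLL at h
  simp only [frc_eq] at h
  obtain ⟨t1, h⟩ := band_true h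
  have e1 := abs_pos.1 (ppos_sound (enc_abs (enc_sub xb1 xa1)) t1)
  refine ⟨_, _, _, _, _, _, _, _, _, _, enc_mn (enc_sub kb1 ka1) (enc_invs (enc_sub xb1 xa1)),
    enc_mn (enc_sub b1 a1) (enc_invs (enc_sub xb1 xa1)), enc_mn hU xa1, enc_mn hU ka1,
    enc_mn hU a1, h, ?_, ?_⟩
  · rw [lin_both hT' i1 i2 e1, eu]
    ring
  · rw [lin_both hTL i1 i2 e1, eu]
    ring

theorem sgRR_sound {t : ℝ} (hT : Enc E T t) (hV : Enc E V v) (hx : Enc E X x) (ev : t = s * v)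
    (ha : Ga.At3 false c0 x) (hb : Gb.At3 false c0 x) (h : sgRR Ga Gb T V X k = true)
    (i1 : Ga.xv t ≤ Z) (i2 : Z ≤ Gb.xv t)
    (hT' : Lin (Ga.xv t) (Gb.xv t) (Ga.kv t x) (Gb.kv t x) Z T')
    (hTL : Lin (Ga.xv t) (Gb.xv t) (Ga.lv t x) (Gb.lv t x) Z TL) : SgC E k s Z T' TL := by
  obtain ⟨⟨xa, xa1, xa2⟩, ⟨ka, ka1, ka2⟩, ⟨a, a1, a2⟩⟩ := Ga.slopesR hT hx ha
  obtain ⟨⟨xb, xb1, xb2⟩, ⟨kb, kb1, kb2⟩, ⟨b, b1, b2⟩⟩ := Gb.slopesR hT hx hb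
  rw [xa2, xb2, ka2, kb2] at hT'
  rw [xa2, xb2, a2, b2] at hTL
  rw [xa2] at i1
  rw [xb2] at i2
  unfold sgRR at h
  simp only [frc_eq] at h
  obtain ⟨t1, h⟩ := band_true h
  have e1 := abs_pos.1 (ppos_sound (enc_abs (enc_sub xb1 xa1)) t1)
  refine ⟨_, _, _, _, _, _, _, _, _, _, enc_mn (enc_sub kb1 ka1) (enc_invs (enc_sub xb1 xa1)),
    enc_mn (enc_sub b1 a1) (enc_invs (enc_sub xb1 xa1)), enc_mn hV xa1, enc_mn hV ka1,
    enc_mn hV a1, h, ?_, ?_⟩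
  · rw [lin3 hT' i1 i2 e1, ev]
    ring
  · rw [lin3 hTL i1 i2 e1, ev]
    ring

theorem sgLR_sound {t : ℝ} (hY : Enc E Y y) (hT : Enc E T t) (hW : Enc E W w) (hU : Enc E U u)
    (hx : Enc E X x) (ew : 2 - y = t * w) (eu : y - 2 = s * u)
    (ha : Ga.At3 true c0 x) (hb : Gb.At3 false c0 x) (h : sgLR Ga Gb Y T W U X k = true)
    (i1 : Ga.xv y ≤ Z) (i2 : Z ≤ Gb.xv t)
    (hT' : Lin (Ga.xv y) (Gb.xv t) (Ga.kv y x) (Gb.kv t x) Z T')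
    (hTL : Lin (Ga.xv y) (Gb.xv t) (Ga.lv y x) (Gb.lv t x) Z TL) : SgC E k s Z T' TL := by
  obtain ⟨⟨xa, xa1, xa2⟩, ⟨ka, ka1, ka2⟩, ⟨a, a1, a2⟩⟩ := Ga.slopesL hY hx ha
  obtain ⟨⟨xb, xb1, xb2⟩, ⟨kb, kb1, kb2⟩, ⟨b, b1, b2⟩⟩ := Gb.slopesR hT hx hb
  have g : ∀ z : ℝ, (y - 2) * z = t * (-(w * z)) := fun z => by linear_combination -z * ew
  have g' : ∀ z : ℝ, t * (-(w * z)) = s * (u * z) := fun z => by rw [← g, eu]; ring
  rw [xa2, xb2, ka2, kb2, g, g] at hT'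
  rw [xa2, xb2, a2, b2, g, g] at hTL
  rw [xa2, g] at i1
  rw [xb2] at i2
  unfold sgLR at h
  simp only [frc_eq] at h
  obtain ⟨t1, h⟩ := band_true h
  have hD := enc_add xb1 (enc_mn hW xa1)
  have e1 := abs_pos.1 (ppos_sound (enc_abs hD) t1)
  have e2 : xb - -(w * xa) ≠ 0 := by
    intro h0
    apply e1
    linarith
  have e3 : xb - -(w * xa) = xb + w * xa := by ring
  refine ⟨_, _, _, _, _, _, _, _, _, _, enc_mn (enc_add kb1 (enc_mn hW ka1)) (enc_invs hD),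
    enc_mn (enc_add b1 (enc_mn hW a1)) (enc_invs hD), enc_mn hU xa1, enc_mn hU ka1,
    enc_mn hU a1, h, ?_, ?_⟩
  · rw [lin3 hT' i1 i2 e2, e3, g', g']
    ring
  · rw [lin3 hTL i1 i2 e2, e3, g', g']
    ring

theorem seg3T_sound {la lb : Bool} (hab : lb = true → la = true)
    (hY : Enc E Y y) (hT : Enc E T (c3n y)) (hW : Enc E W w) (hU : Enc E U u) (hV : Enc E V v)
    (hx : Enc E X x) (ew : 2 - y = c3n y * w) (eu : y - 2 = s * u) (ev : c3n y = s * v)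
    (ha : Ga.At3 la c0 x) (hb : Gb.At3 lb c0 x)
    (h : seg3T la lb Ga Gb Y T W U V X k = true)
    (i1 : Ga.xv (c3r la y) ≤ Z) (i2 : Z ≤ Gb.xv (c3r lb y))
    (hT' : Lin (Ga.xv (c3r la y)) (Gb.xv (c3r lb y)) (Ga.kv (c3r la y) x) (Gb.kv (c3r lb y) x) Z T')
    (hTL : Lin (Ga.xv (c3r la y)) (Gb.xv (c3r lb y)) (Ga.lv (c3r la y) x) (Gb.lv (c3r lb y) x)
      Z TL) : SgC E k s Z T' TL := by
  cases la <;> cases lb
  · exact sgRR_sound hT hV hx ev ha hb h i1 i2 hT' hTL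
  · exact absurd (hab rfl) (by simp)
  · exact sgLR_sound hY hT hW hU hx ew eu ha hb h i1 i2 hT' hTL
  · have := sgLL_sound hY (enc_cast (enc_pnc E 2) (by norm_num)) hU hx eu ha hb h i1 i2 hT' hTL
    simpa using this

/-! ### The third side near the height `1` -/

/-- only the lower curve passes -/
noncomputable def sgLO (Ga Gb : Gn) (Y M U x : ℕ) (k : ℕ → ℕ → ℕ → ℕ → ℕ → Bool) : Bool :=
  frc (Ga.xV Y) fun xa => frc (Gb.xV Y) fun xb => frc (pinv (psub xb xa)) fun I =>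
    k (pmn (psub (Gb.kV Y x) (Ga.kV Y x)) I) (pmn (psub (Gb.lV Y x) (Ga.lV Y x)) I)
      (pmn U (Ga.xT Y M)) (pmn U (Ga.kT Y M x)) (pmn U (Ga.lT Y M x))

/-- no curve passes; `C` is half of the factor of the kernel, `Z` the abscissa -/
noncomputable def sgNO (Ga Gb : Gn) (S Y Z C x : ℕ) (k : ℕ → ℕ → ℕ → ℕ → ℕ → Bool) : Bool :=
  frc (Ga.xV Y) fun xa => frc (Gb.xV Y) fun xb => frc (pinv (psub xb xa)) fun I =>
  frc (pinv S) fun J => frc (pmn (psub Z xa) I) fun f =>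
    k pzero pzero pzero
      (pmn (psub (padd (Ga.kV Y x) (pmn (psub (Gb.kV Y x) (Ga.kV Y x)) f)) C) J)
      (pmn (padd (Ga.lV Y x) (pmn (psub (Gb.lV Y x) (Ga.lV Y x)) f)) J)

/-- the third side near the height `1`; `lo`, `up`: the lower, the upper curve passes -/
noncomputable def segBT (lo up : Bool) (Ga Gb : Gn) (S Y M U Z C x : ℕ)
    (k : ℕ → ℕ → ℕ → ℕ → ℕ → Bool) : Bool :=
  Bool.rec (motive := fun _ => Bool) (sgNO Ga Gb S Y Z C x k)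
    (Bool.rec (motive := fun _ => Bool) (sgLO Ga Gb Y M U x k) (sgLL Ga Gb Y M U x k) up) lo

theorem Gn.values (G : Gn) (hY : Enc E Y y) (hx : Enc E X x) :
    Enc E (G.xV Y) (G.xv y) ∧ Enc E (G.kV Y X) (G.kv y x) ∧ Enc E (G.lV Y X) (G.lv y x) :=
  ⟨G.nd.X.enc (enc_cA _ hY), G.nd.K.enc (enc_cA _ hY) hx, G.nd.L.enc (enc_cA _ hY) hx⟩

theorem sgLO_sound {M : ℕ} {m b : ℝ} (hY : Enc E Y y) (hM : Enc E M m) (hU : Enc E U u)
    (hx : Enc E X x) (eu : y - m = s * u) (ha : Ga.At m b c0 x)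
    (h : sgLO Ga Gb Y M U X k = true)
    (hT' : Lin (Ga.xv y) (Gb.xv y) (Ga.kv y x) (Gb.kv y x) Z T')
    (hTL : Lin (Ga.xv y) (Gb.xv y) (Ga.lv y x) (Gb.lv y x) Z TL) :
    SgC E k s (Z - b) (T' - c0 * b) TL := by
  obtain ⟨⟨xa, xa1, xa2⟩, ⟨ka, ka1, ka2⟩, ⟨a, a1, a2⟩⟩ := Ga.slopes hY hM hx
  obtain ⟨vx, vk, vl⟩ := Ga.values hY hx
  obtain ⟨wx, wk, wl⟩ := Gb.values hY hx
  obtain ⟨c1, c2, c3⟩ := ha
  unfold sgLO at h
  simp only [frc_eq] at h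
  have hI := enc_inv (enc_sub wx vx)
  refine ⟨_, _, _, _, _, _, _, _, _, _, enc_mn (enc_sub wk vk) hI, enc_mn (enc_sub wl vl) hI,
    enc_mn hU xa1, enc_mn hU ka1, enc_mn hU a1, h, ?_, ?_⟩
  · rw [lin_lo hT']
    have e1 : Ga.xv y = b + (y - m) * xa := by linarith
    have e2 : Ga.kv y x = c0 * b + (y - m) * ka := by linarith
    obtain ⟨g, hg⟩ : ∃ g, g = (Gb.kv y x - Ga.kv y x) * (Gb.xv y - Ga.xv y)⁻¹ := ⟨_, rfl⟩
    rw [← hg, e1, e2, eu]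
    ring
  · rw [lin_lo hTL]
    have e1 : Ga.xv y = b + (y - m) * xa := by linarith
    have e2 : Ga.lv y x = (y - m) * a := by linarith
    obtain ⟨g, hg⟩ : ∃ g, g = (Gb.lv y x - Ga.lv y x) * (Gb.xv y - Ga.xv y)⁻¹ := ⟨_, rfl⟩
    rw [← hg, e1, e2, eu]
    ring

theorem sgNO_sound {S' Z' C : ℕ} {b c : ℝ} (hs : 0 < s) (hS : Enc E S' s) (hY : Enc E Y y)
    (hZ : Enc E Z' Z) (hC : Enc E C c) (hx : Enc E X x)
    (h : sgNO Ga Gb S' Y Z' C X k = true)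
    (hT' : Lin (Ga.xv y) (Gb.xv y) (Ga.kv y x) (Gb.kv y x) Z T')
    (hTL : Lin (Ga.xv y) (Gb.xv y) (Ga.lv y x) (Gb.lv y x) Z TL) :
    SgC E k s (Z - b) (T' - c) TL := by
  obtain ⟨vx, vk, vl⟩ := Ga.values hY hx
  obtain ⟨wx, wk, wl⟩ := Gb.values hY hx
  unfold sgNO at h
  simp only [frc_eq] at h
  have hI := enc_inv (enc_sub wx vx)
  have hJ := enc_inv hS
  have hf := enc_mn (enc_sub hZ vx) hI
  have h0 := enc_zero E
  refine ⟨0, 0, 0, _, _, _, _, _, _, _, h0, h0, h0,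
    enc_mn (enc_sub (enc_add vk (enc_mn (enc_sub wk vk) hf)) hC) hJ,
    enc_mn (enc_add vl (enc_mn (enc_sub wl vl) hf)) hJ, h, ?_, ?_⟩
  · rw [lin_lo hT']
    field_simp
    ring
  · rw [lin_lo hTL]
    field_simp
    ring

theorem segBT_sound {lo up : Bool} {S' M Z' C : ℕ} {m b : ℝ} (hs : 0 < s) (hS : Enc E S' s)
    (hY : Enc E Y y) (hM : Enc E M m) (hU : Enc E U u) (hZ : Enc E Z' Z)
    (hC : Enc E C (c0 * b)) (hx : Enc E X x) (eu : y - m = s * u)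
    (ha : lo = true → Ga.At m b c0 x) (hb : lo = true → up = true → Gb.At m b c0 x)
    (h : segBT lo up Ga Gb S' Y M U Z' C X k = true) (i1 : Ga.xv y ≤ Z) (i2 : Z ≤ Gb.xv y)
    (hT' : Lin (Ga.xv y) (Gb.xv y) (Ga.kv y x) (Gb.kv y x) Z T')
    (hTL : Lin (Ga.xv y) (Gb.xv y) (Ga.lv y x) (Gb.lv y x) Z TL) :
    SgC E k s (Z - b) (T' - c0 * b) TL := by
  cases lo
  · exact sgNO_sound hs hS hY hZ hC hx h hT' hTL
  · cases up
    · exact sgLO_sound hY hM hU hx eu (ha rfl) h hT' hTL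
    · exact sgLL_sound hY hM hU hx eu (ha rfl) (hb rfl rfl) h i1 i2 hT' hTL

end

end Pool.Agent.Strip051.PB
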