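import Pool.Agent.Strip051.PB.C12L

/-! # Charts at the corner `(1, 1, 2)`: the test of a leaf -/

namespace Pool.Agent.Strip051.PB

attribute [local irreducible] padd psub pneg pmul psq pinv psqrt psqrtg pabs pps pmax pmin pphi plam
  pcase phf pnat prat pscale pnorm pdc pnc pone ppos pnn Enc pbad pzero

theorem sl_t (X Y : ℕ) : sl true X Y = X := rfl
theorem sl_f (X Y : ℕ) : sl false X Y = Y := rfl
theorem band_tt : band true true = true := rfl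
theorem band_tf : band true false = false := rfl
theorem band_f (b : Bool) : band false b = false := rfl

/-! ### The rates of a node in the quarter `3` -/

noncomputable def g3X (l : Bool) (G : Gn) (Y T U V : ℕ) : ℕ :=
  Bool.rec (motive := fun _ => ℕ) (pmn V (G.xT T pzero)) (pmn U (G.xT Y (pnc 2))) l
noncomputable def g3K (l : Bool) (G : Gn) (Y T U V x : ℕ) : ℕ :=
  Bool.rec (motive := fun _ => ℕ) (pmn V (G.kT T pzero x)) (pmn U (G.kT Y (pnc 2) x)) l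
noncomputable def g3L (l : Bool) (G : Gn) (Y T U V x : ℕ) : ℕ :=
  Bool.rec (motive := fun _ => ℕ) (pmn V (G.lT T pzero x)) (pmn U (G.lT Y (pnc 2) x)) l

theorem g3_sound {E : Pt} (l : Bool) (G : Gn) {Y T U V X : ℕ} {y u v s x c0 : ℝ} (hY : Enc E Y y)
    (hT : Enc E T (c3n y)) (hU : Enc E U u) (hV : Enc E V v) (hx : Enc E X x)
    (eu : y - 2 = s * u) (ev : c3n y = s * v) (h : G.At3 l c0 x) :
    (∃ ξ, Enc E (g3X l G Y T U V) ξ ∧ G.xv (c3r l y) = s * ξ) ∧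
    (∃ κ, Enc E (g3K l G Y T U V X) κ ∧ G.kv (c3r l y) x = s * κ) ∧
    (∃ τ, Enc E (g3L l G Y T U V X) τ ∧ G.lv (c3r l y) x = s * τ) := by
  cases l
  · obtain ⟨⟨a, a1, a2⟩, ⟨b, b1, b2⟩, ⟨c, c1, c2⟩⟩ := G.slopesR hT hx h
    refine ⟨⟨v * a, enc_mn hV a1, ?_⟩, ⟨v * b, enc_mn hV b1, ?_⟩, ⟨v * c, enc_mn hV c1, ?_⟩⟩
    · show G.xv (c3n y) = _
      rw [a2, ev]; ring
    · show G.kv (c3n y) x = _
      rw [b2, ev]; ring
    · show G.lv (c3n y) x = _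
      rw [c2, ev]; ring
  · obtain ⟨⟨a, a1, a2⟩, ⟨b, b1, b2⟩, ⟨c, c1, c2⟩⟩ := G.slopesL hY hx h
    refine ⟨⟨u * a, enc_mn hU a1, ?_⟩, ⟨u * b, enc_mn hU b1, ?_⟩, ⟨u * c, enc_mn hU c1, ?_⟩⟩
    · show G.xv y = _
      rw [a2, eu]; ring
    · show G.kv y x = _
      rw [b2, eu]; ring
    · show G.lv y x = _
      rw [c2, eu]; ring

/-! ### Points -/

/-- The parameters of a point near the corner. -/
structure P12 (cn : Con) (y y' s a b t τ w : ℝ) : Prop where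
  s0 : 0 < s
  a0 : 0 ≤ a
  b0 : 0 ≤ b
  ab : s * (a + b) ≤ 1
  e1 : y = 1 + s * tc1 cn a b
  e2 : y' = 1 + s * tc2 cn a b
  ht : t = c3n (y + y')
  hτ : t = s * τ
  hw : 2 - (y + y') = t * w

/-- The point lies in the cube. -/
def In12 (D D3 : ℕ) (y y' : ℝ) : Prop :=
  |y - 1| < (D : ℝ) / S ∧ |y' - 1| < (D : ℝ) / S ∧ |y + y' - 2| < (D3 : ℝ) / S

/-- disjunction -/
noncomputable def bor (p q : Bool) : Bool := Bool.rec (motive := fun _ => Bool) q true p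

theorem bor_true {p q : Bool} (h : bor p q = true) : p = true ∨ q = true := by
  cases p
  · exact Or.inr h
  · exact Or.inl rfl

/-- the point is outside of the cube -/
noncomputable def out12 (D D3 S C1 C2 C3 : ℕ) : Bool :=
  bor (pnn (psub (pneg (pmn S C1)) (pdc D 0))) (bor (pnn (psub (pneg (pmn S C2)) (pdc D 0)))
    (pnn (psub (pneg (pmn S C3)) (pdc D3 0))))

theorem out12_sound {E : Pt} {D D3 S' C1 C2 C3 : ℕ} {s c1 c2 c3 y y' : ℝ} (hS : Enc E S' s)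
    (h1 : Enc E C1 c1) (h2 : Enc E C2 c2) (h3 : Enc E C3 c3) (e1 : y - 1 = s * c1)
    (e2 : y' - 1 = s * c2) (e3 : y + y' - 2 = s * c3) (hi : In12 D D3 y y')
    (h : out12 D D3 S' C1 C2 C3 = true) : False := by
  obtain ⟨i1, i2, i3⟩ := hi
  rcases bor_true h with h | h
  · have := pnn_sound (enc_sub (enc_neg (enc_mn hS h1)) (enc_pdc0 E D)) h
    rw [e1] at i1
    have := neg_abs_le (s * c1)
    linarith
  · rcases bor_true h with h | h
    · have := pnn_sound (enc_sub (enc_neg (enc_mn hS h2)) (enc_pdc0 E D)) h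
      rw [e2] at i2
      have := neg_abs_le (s * c2)
      linarith
    · have := pnn_sound (enc_sub (enc_neg (enc_mn hS h3)) (enc_pdc0 E D3)) h
      rw [e3] at i3
      have := neg_abs_le (s * c3)
      linarith

/-! ### The statements -/

section

variable (far : Bool) (N0 : ℕ) (cn : Con) (y y' x : ℝ)

/-- The row for given abscissas and values. -/
def Con12 (X12 X13 v1 v2 v3 w1 w2 w3 : ℝ) : Prop :=
  ∃ g, 0 ≤ slc cn (levR far N0 x y y' (exn' X12 X13 y (y + y')) w1 w2 w3) (ken x) x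
    (y - 1) (y' - 1) (y + y' - 2) v1 v2 v3 g

variable (G1 G2 Ga Gb : Gn) (D D3 : ℕ)

/-- The statement of a leaf, family `A`. -/
def St12A (tt la lb : Bool) : Prop :=
  In12 D D3 y y' →
  Ga.xv (c3r la (y + y')) ≤ sgr tt (G1.xv y - G2.xv y') →
  sgr tt (G1.xv y - G2.xv y') ≤ Gb.xv (c3r lb (y + y')) → ∀ T TL,
  Lin (Ga.xv (c3r la (y + y'))) (Gb.xv (c3r lb (y + y'))) (Ga.kv (c3r la (y + y')) x)
    (Gb.kv (c3r lb (y + y')) x) (sgr tt (G1.xv y - G2.xv y')) T →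
  Lin (Ga.xv (c3r la (y + y'))) (Gb.xv (c3r lb (y + y'))) (Ga.lv (c3r la (y + y')) x)
    (Gb.lv (c3r lb (y + y')) x) (sgr tt (G1.xv y - G2.xv y')) TL →
  Con12 far N0 cn y y' x (G1.xv y) (G1.xv y - G2.xv y') (G1.kv y x) (-G2.kv y' x) (sgr tt T)
    (G1.lv y x) (-G2.lv y' x) (sgr tt TL)

/-- The statement of a leaf, family `B`. -/
def St12B (tn l2 : Bool) : Prop :=
  In12 D D3 y y' →
  Ga.xv y' ≤ G1.xv y - sgr tn (G2.xv (c3r l2 (y + y'))) →
  G1.xv y - sgr tn (G2.xv (c3r l2 (y + y'))) ≤ Gb.xv y' → ∀ T TL,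
  Lin (Ga.xv y') (Gb.xv y') (Ga.kv y' x) (Gb.kv y' x)
    (G1.xv y - sgr tn (G2.xv (c3r l2 (y + y')))) T →
  Lin (Ga.xv y') (Gb.xv y') (Ga.lv y' x) (Gb.lv y' x)
    (G1.xv y - sgr tn (G2.xv (c3r l2 (y + y')))) TL →
  Con12 far N0 cn y y' x (G1.xv y) (sgr tn (G2.xv (c3r l2 (y + y')))) (G1.kv y x) (-T)
    (sgr tn (G2.kv (c3r l2 (y + y')) x)) (G1.lv y x) (-TL) (sgr tn (G2.lv (c3r l2 (y + y')) x))

end

/-! ### The leaves -/

/-- the test after the choice of the segment, family `A` -/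
noncomputable def kA12 (far : Bool) (N0 : ℕ) (C0 : Fn1) (cn : Con) (tt : Bool) (G1 G2 : Gn)
    (h S A B X C1 C2 C3 Y1 Y2 Y3 z1 z3 az : ℕ) (gK gL ξ κ l : ℕ) : Bool :=
  frc (psub az ξ) fun dz =>
  frc (sg tt (padd κ (pmn gK dz))) fun r3 => frc (sg tt (padd l (pmn gL dz))) fun l3 =>
  frc (pmn C1 (G1.kT Y1 pone X)) fun r1 => frc (pneg (pmn C2 (G2.kT Y2 pone X))) fun r2 =>
  frc (pmn C1 (G1.lT Y1 pone X)) fun l1 => frc (pneg (pmn C2 (G2.lT Y2 pone X))) fun l2 =>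
  r12T far N0 cn h S A B X C1 C3 Y1 Y2 Y3 (C0.t X) z1 z3 r1 r2 r3 l1 l2 l3

/-- **The test of a leaf**, family `A`. -/
noncomputable def cA12 (far : Bool) (N0 : ℕ) (C0 : Fn1) (cn : Con) (tt la lb : Bool)
    (G1 G2 Ga Gb : Gn) (D D3 : ℕ) (h S A B T V W X : ℕ) : Bool :=
  frc (tcT1 cn A B) fun C1 => frc (tcT2 cn A B) fun C2 => frc (tcT3 cn A B) fun C3 =>
  frc (padd pone (pmn S C1)) fun Y1 => frc (padd pone (pmn S C2)) fun Y2 =>
  frc (padd (pnc 2) (pmn S C3)) fun Y3 => frc (pmn C1 (G1.xT Y1 pone)) fun z1 =>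
  frc (psub z1 (pmn C2 (G2.xT Y2 pone))) fun z3 => frc (sg tt z3) fun az =>
  ch4 (Nat.land h 3)
    (seg3T la lb Ga Gb Y3 T W C3 V X (kA12 far N0 C0 cn tt G1 G2 h S A B X C1 C2 C3 Y1 Y2 Y3 z1 z3
      az))
    (ppos (psub (g3X la Ga Y3 T C3 V) az))
    (ppos (psub az (g3X lb Gb Y3 T C3 V)))
    (out12 D D3 S C1 C2 C3)

/-- the test after the choice of the segment, family `B` -/
noncomputable def kB12 (far : Bool) (N0 : ℕ) (C0 : Fn1) (cn : Con) (tn l2 : Bool) (G1 G2 : Gn)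
    (h S A B T V X C1 C3 Y1 Y2 Y3 z1 z3 az : ℕ) (gK gL ξ κ l : ℕ) : Bool :=
  frc (psub az ξ) fun dz =>
  frc (pneg (padd κ (pmn gK dz))) fun r2 => frc (pneg (padd l (pmn gL dz))) fun m2 =>
  frc (pmn C1 (G1.kT Y1 pone X)) fun r1 => frc (sg tn (g3K l2 G2 Y3 T C3 V X)) fun r3 =>
  frc (pmn C1 (G1.lT Y1 pone X)) fun m1 => frc (sg tn (g3L l2 G2 Y3 T C3 V X)) fun m3 =>
  r12T far N0 cn h S A B X C1 C3 Y1 Y2 Y3 (C0.t X) z1 z3 r1 r2 r3 m1 m2 m3

/-- **The test of a leaf**, family `B`. -/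
noncomputable def cB12 (far : Bool) (N0 : ℕ) (C0 : Fn1) (cn : Con) (tn l2 lo up : Bool)
    (G1 G2 Ga Gb : Gn) (D D3 : ℕ) (h S A B T V _W X : ℕ) : Bool :=
  frc (tcT1 cn A B) fun C1 => frc (tcT2 cn A B) fun C2 => frc (tcT3 cn A B) fun C3 =>
  frc (padd pone (pmn S C1)) fun Y1 => frc (padd pone (pmn S C2)) fun Y2 =>
  frc (padd (pnc 2) (pmn S C3)) fun Y3 => frc (pmn C1 (G1.xT Y1 pone)) fun z1 =>
  frc (sg tn (g3X l2 G2 Y3 T C3 V)) fun z3 => frc (psub z1 z3) fun az =>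
  frc (padd (phf pone) (pmn S az)) fun Z =>
  ch4 (Nat.land h 3)
    (segBT lo up Ga Gb S Y2 pone C2 Z (phf (C0.t X)) X (kB12 far N0 C0 cn tn l2 G1 G2 h S A B T V X
      C1 C3 Y1 Y2 Y3 z1 z3 az))
    (ppos (sl lo (psub (pmn C2 (Ga.xT Y2 pone)) az) (psub (Ga.xV Y2) Z)))
    (ppos (sl (band lo up) (psub az (pmn C2 (Gb.xT Y2 pone))) (psub Z (Gb.xV Y2))))
    (out12 D D3 S C1 C2 C3)

theorem P12.enc {E : Pt} {cn : Con} (hc : isC12 cn) {y y' s a b t τ w : ℝ}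
    (P : P12 cn y y' s a b t τ w) {S' A B : ℕ} (hS : Enc E S' s) (hA : Enc E A a)
    (hB : Enc E B b) :
    Enc E (padd pone (pmn S' (tcT1 cn A B))) y ∧ Enc E (padd pone (pmn S' (tcT2 cn A B))) y' ∧
    Enc E (padd (pnc 2) (pmn S' (tcT3 cn A B))) (y + y') ∧ y + y' - 2 = s * tc3 cn a b := by
  have e3 : y + y' - 2 = s * tc3 cn a b := by
    rw [P.e1, P.e2, ← tc_add hc]
    ring
  refine ⟨?_, ?_, ?_, e3⟩
  · rw [P.e1]
    exact enc_add (enc_one E) (enc_mn hS (enc_tcT1 cn hA hB))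
  · rw [P.e2]
    exact enc_add (enc_one E) (enc_mn hS (enc_tcT2 cn hA hB))
  · refine enc_cast (enc_add (enc_pnc E 2) (enc_mn hS (enc_tcT3 cn hA hB))) ?_
    push_cast
    linarith

theorem cA12_sound {E : Pt} {far : Bool} {N0 : ℕ} {C0 : Fn1} {cn : Con} (hc : isC12 cn)
    {tt la lb : Bool} (hab : lb = true → la = true) {G1 G2 Ga Gb : Gn} {D D3 h S' A B T V W X : ℕ}
    {y y' s a b t τ w x : ℝ} (P : P12 cn y y' s a b t τ w) (x0 : 0 < x) (x1 : x < 1)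
    (hS : Enc E S' s) (hA : Enc E A a) (hB : Enc E B b) (hT : Enc E T t) (hV : Enc E V τ)
    (hW : Enc E W w) (hX : Enc E X x)
    (h1 : G1.At 1 (1 / 2) (C0.v x) x) (h2 : G2.At 1 (1 / 2) (C0.v x) x)
    (ha : Ga.At3 la (C0.v x) x) (hb : Gb.At3 lb (C0.v x) x)
    (ht : cA12 far N0 C0 cn tt la lb G1 G2 Ga Gb D D3 h S' A B T V W X = true) :
    St12A far N0 cn y y' x G1 G2 Ga Gb D D3 tt la lb := by
  intro hin i1 i2 T' TL hT' hTL
  have hC1 := enc_tcT1 cn hA hB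
  have hC2 := enc_tcT2 cn hA hB
  have hC3 := enc_tcT3 cn hA hB
  obtain ⟨hY1, hY2, hY3, e3⟩ := P.enc hc hS hA hB
  have e1 : y - 1 = s * tc1 cn a b := by rw [P.e1]; ring
  have e2 : y' - 1 = s * tc2 cn a b := by rw [P.e2]; ring
  have hT2 : Enc E T (c3n (y + y')) := enc_cast hT P.ht
  have ev : c3n (y + y') = s * τ := by rw [← P.ht]; exact P.hτ
  have ew : 2 - (y + y') = c3n (y + y') * w := by rw [← P.ht]; exact P.hw
  obtain ⟨⟨ξ1, a1, a2⟩, ⟨κ1, b1, b2⟩, ⟨τ1, d1, d2⟩⟩ := G1.slopes hY1 (enc_one E) hX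
  obtain ⟨⟨ξ2, a3, a4⟩, ⟨κ2, b3, b4⟩, ⟨τ2, d3, d4⟩⟩ := G2.slopes hY2 (enc_one E) hX
  obtain ⟨⟨ξa, f1, f2⟩, -, -⟩ := g3_sound la Ga hY3 hT2 hC3 hV hX e3 ev ha
  obtain ⟨⟨ξb, f3, f4⟩, -, -⟩ := g3_sound lb Gb hY3 hT2 hC3 hV hX e3 ev hb
  rw [e1] at a2 b2 d2
  rw [e2] at a4 b4 d4
  have z1 := enc_mn hC1 a1
  have z3 := enc_sub z1 (enc_mn hC2 a3)
  have az := enc_sg tt z3
  have hX12 : G1.xv y = 1 / 2 + s * (tc1 cn a b * ξ1) := by have := h1.X; linarith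
  have hX13 : G1.xv y - G2.xv y' = s * (tc1 cn a b * ξ1 - tc2 cn a b * ξ2) := by
    have := h2.X
    have h4 : G2.xv y' = 1 / 2 + s * (tc2 cn a b * ξ2) := by linarith
    rw [hX12, h4]
    ring
  have hZ : sgr tt (G1.xv y - G2.xv y') = s * sgr tt (tc1 cn a b * ξ1 - tc2 cn a b * ξ2) := by
    rw [hX13, sgr_mul]
  unfold cA12 at ht
  simp only [frc_eq] at ht
  rcases ch4_true ht with ht | ht | ht | ht
  · obtain ⟨gK, gL, ξ, κ, l, GK, GM, XI, KA, LA, k1, k2, k3, k4, k5, hk, eT, eL⟩ :=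
      seg3T_sound hab hY3 hT2 hW hC3 hV hX ew e3 ev ha hb ht i1 i2 hT' hTL
    unfold kA12 at hk
    simp only [frc_eq] at hk
    have dz := enc_sub az k3
    have r3 := enc_sg tt (enc_add k4 (enc_mn k1 dz))
    have l3 := enc_sg tt (enc_add k5 (enc_mn k2 dz))
    have r1 := enc_mn hC1 b1
    have r2 := enc_neg (enc_mn hC2 b3)
    have l1 := enc_mn hC1 d1
    have l2 := enc_neg (enc_mn hC2 d3)
    unfold Con12
    rw [e1, e2, e3]
    refine r12T_sound hc P.s0.le P.a0 P.b0 P.ab x0 x1 hS hA hB hX hC1 hC3 hY1 hY2 hY3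
      (C0.enc hX) z1 z3 r1 r2 r3 l1 l2 l3 P.e1 P.e2 hX12 hX13 ?_ ?_ ?_ ?_ ?_ ?_ hk
    · have := h1.K
      linarith
    · have := h2.K
      linarith
    · rw [eT, ← sgr_mul]
      congr 1
      rw [hZ]
      ring
    · have := h1.L
      linarith
    · have := h2.L
      linarith
    · rw [eL, ← sgr_mul]
      congr 1
      rw [hZ]
      ring
  · exfalso
    have := ppos_sound (enc_sub f1 az) ht
    rw [hZ, f2] at i1
    nlinarith [mul_pos P.s0 this]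
  · exfalso
    have := ppos_sound (enc_sub az f3) ht
    rw [hZ, f4] at i2
    nlinarith [mul_pos P.s0 this]
  · exact (out12_sound hS hC1 hC2 hC3 e1 e2 e3 hin ht).elim

theorem cB12_sound {E : Pt} {far : Bool} {N0 : ℕ} {C0 : Fn1} {cn : Con} (hc : isC12 cn)
    {tn l2 lo up : Bool} {G1 G2 Ga Gb : Gn} {D D3 h S' A B T V W X : ℕ}
    {y y' s a b t τ w x : ℝ} (P : P12 cn y y' s a b t τ w) (x0 : 0 < x) (x1 : x < 1)
    (hS : Enc E S' s) (hA : Enc E A a) (hB : Enc E B b) (hT : Enc E T t) (hV : Enc E V τ)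
    (hX : Enc E X x) (h1 : G1.At 1 (1 / 2) (C0.v x) x) (h2 : G2.At3 l2 (C0.v x) x)
    (ha : lo = true → Ga.At 1 (1 / 2) (C0.v x) x)
    (hb : lo = true → up = true → Gb.At 1 (1 / 2) (C0.v x) x)
    (ht : cB12 far N0 C0 cn tn l2 lo up G1 G2 Ga Gb D D3 h S' A B T V W X = true) :
    St12B far N0 cn y y' x G1 G2 Ga Gb D D3 tn l2 := by
  intro hin i1 i2 T' TL hT' hTL
  have hC1 := enc_tcT1 cn hA hB
  have hC2 := enc_tcT2 cn hA hB
  have hC3 := enc_tcT3 cn hA hB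
  obtain ⟨hY1, hY2, hY3, e3⟩ := P.enc hc hS hA hB
  have e1 : y - 1 = s * tc1 cn a b := by rw [P.e1]; ring
  have e2 : y' - 1 = s * tc2 cn a b := by rw [P.e2]; ring
  have hT2 : Enc E T (c3n (y + y')) := enc_cast hT P.ht
  have ev : c3n (y + y') = s * τ := by rw [← P.ht]; exact P.hτ
  obtain ⟨⟨ξ1, a1, a2⟩, ⟨κ1, b1, b2⟩, ⟨τ1, d1, d2⟩⟩ := G1.slopes hY1 (enc_one E) hX
  obtain ⟨⟨ξ3, f1, f2⟩, ⟨κ3, f3, f4⟩, ⟨τ3, f5, f6⟩⟩ :=
    g3_sound l2 G2 hY3 hT2 hC3 hV hX e3 ev h2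
  rw [e1] at a2 b2 d2
  have z1 := enc_mn hC1 a1
  have z3 := enc_sg tn f1
  have az := enc_sub z1 z3
  have hh := enc_half (enc_one E)
  have hX12 : G1.xv y = 1 / 2 + s * (tc1 cn a b * ξ1) := by have := h1.X; linarith
  have hX13 : sgr tn (G2.xv (c3r l2 (y + y'))) = s * sgr tn ξ3 := by rw [f2, sgr_mul]
  have hZ : G1.xv y - sgr tn (G2.xv (c3r l2 (y + y'))) =
      1 / 2 + s * (tc1 cn a b * ξ1 - sgr tn ξ3) := by
    rw [hX12, hX13]
    ring
  have eZ := enc_add hh (enc_mn hS az)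
  rw [← hZ] at eZ
  unfold cB12 at ht
  simp only [frc_eq] at ht
  rcases ch4_true ht with ht | ht | ht | ht
  · have hC : Enc E (phf (C0.t X)) (C0.v x * (1 / 2)) :=
      enc_cast (enc_half (C0.enc hX)) (by ring)
    obtain ⟨gK, gL, ξ, κ, l, GK, GM, XI, KA, LA, k1, k2, k3, k4, k5, hk, eT, eL⟩ :=
      segBT_sound P.s0 hS hY2 (enc_one E) hC2 eZ hC hX e2 ha hb ht i1 i2 hT' hTL
    unfold kB12 at hk
    simp only [frc_eq] at hk
    have dz := enc_sub az k3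
    have r2 := enc_neg (enc_add k4 (enc_mn k1 dz))
    have m2 := enc_neg (enc_add k5 (enc_mn k2 dz))
    have r1 := enc_mn hC1 b1
    have r3 := enc_sg tn f3
    have m1 := enc_mn hC1 d1
    have m3 := enc_sg tn f5
    unfold Con12
    rw [e1, e2, e3]
    refine r12T_sound hc P.s0.le P.a0 P.b0 P.ab x0 x1 hS hA hB hX hC1 hC3 hY1 hY2 hY3
      (C0.enc hX) z1 z3 r1 r2 r3 m1 m2 m3 P.e1 P.e2 hX12 hX13 ?_ ?_ ?_ ?_ ?_ ?_ hk
    · have := h1.K
      linarith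
    · have : T' = C0.v x * (1 / 2) + (s * κ + gK * (1 / 2 +
        s * (tc1 cn a b * ξ1 - sgr tn ξ3) - 1 / 2 - s * ξ)) := by rw [← hZ, ← eT]; ring
      rw [this]
      ring
    · rw [f4, sgr_mul]
    · have := h1.L
      linarith
    · rw [eL, hZ]
      ring
    · rw [f6, sgr_mul]
  · exfalso
    cases lo
    · rw [sl_f] at ht
      obtain ⟨vx, -, -⟩ := Ga.values hY2 hX
      have := ppos_sound (enc_sub vx eZ) ht
      linarith
    · rw [sl_t] at ht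
      obtain ⟨⟨ξa, g1, g2⟩, -, -⟩ := Ga.slopes hY2 (enc_one E) hX
      have := ppos_sound (enc_sub (enc_mn hC2 g1) az) ht
      have h4 := (ha rfl).X
      rw [e2] at g2
      rw [hZ] at i1
      nlinarith [mul_pos P.s0 this]
  · exfalso
    cases lo
    · rw [band_f, sl_f] at ht
      obtain ⟨vx, -, -⟩ := Gb.values hY2 hX
      have := ppos_sound (enc_sub eZ vx) ht
      linarith
    · cases up
      · rw [band_tf, sl_f] at ht
        obtain ⟨vx, -, -⟩ := Gb.values hY2 hX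
        have := ppos_sound (enc_sub eZ vx) ht
        linarith
      · rw [band_tt, sl_t] at ht
        obtain ⟨⟨ξb, g1, g2⟩, -, -⟩ := Gb.slopes hY2 (enc_one E) hX
        have := ppos_sound (enc_sub az (enc_mn hC2 g1)) ht
        have h4 := (hb rfl rfl).X
        rw [e2] at g2
        rw [hZ] at i2
        nlinarith [mul_pos P.s0 this]
  · exact (out12_sound hS hC1 hC2 hC3 e1 e2 e3 hin ht).elim

end Pool.Agent.Strip051.PB
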