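import Pool.Agent.Strip051.PB.CornL
import Pool.Agent.Strip051.PB.Alt

/-! # Charts at the aligned corners: from the certificates to the families -/

namespace Pool.Agent.Strip051.PB

attribute [local irreducible] padd psub pneg pmul psq pinv psqrt psqrtg pabs pps pmax pmin pphi plam
  pcase phf pnat prat pscale pnorm pdc pnc pone ppos pnn Enc pbad pzero

open Pool.Agent.StripNear Pool.Agent.StripSquare Pool.Agent.Strip051.Sweep
open Pool.Agent.Strip051.LC

/-! ### Polar coordinates in a cell -/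

/-- The signs of the heights in a cell. -/
def Con.sgs (c : Con) (u v : ℝ) : Prop :=
  match c with
  | .pp => 0 ≤ u ∧ 0 ≤ v
  | .nn => u ≤ 0 ∧ v ≤ 0
  | .pnp => 0 ≤ u ∧ v ≤ 0 ∧ 0 ≤ u + v
  | .pnn => 0 ≤ u ∧ v ≤ 0 ∧ u + v ≤ 0
  | .npp => u ≤ 0 ∧ 0 ≤ v ∧ 0 ≤ u + v
  | .npn => u ≤ 0 ∧ 0 ≤ v ∧ u + v ≤ 0
  | _ => True

theorem share {s t : ℝ} (hs : 0 ≤ s) (ht : 0 ≤ t) :
    ∃ a, 0 ≤ a ∧ a ≤ 1 ∧ s = (s + t) * a ∧ t = (s + t) * (1 - a) := by
  rcases (add_nonneg hs ht).eq_or_lt with h | h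
  · refine ⟨0, le_rfl, zero_le_one, ?_, ?_⟩ <;> nlinarith
  · refine ⟨s / (s + t), div_nonneg hs h.le, (div_le_one h).2 (by linarith), ?_, ?_⟩ <;>
      field_simp
    ring

theorem Con.polar {c : Con} (hc : isSix c) {u v : ℝ} (h : c.sgs u v) :
    ∃ ρ a, 0 ≤ ρ ∧ 0 ≤ a ∧ a ≤ 1 ∧ u = ρ * cd1 c a ∧ v = ρ * cd2 c a ∧
      (ρ = |u| ∨ ρ = |v| ∨ ρ = |u + v|) := by
  cases c
  · obtain ⟨h1, h2⟩ := h
    obtain ⟨a, a0, a1, e1, e2⟩ := share h1 h2
    exact ⟨u + v, a, by linarith, a0, a1, e1, e2, Or.inr (Or.inr (abs_of_nonneg (by linarith)).symm)⟩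
  · obtain ⟨h1, h2⟩ := h
    obtain ⟨a, a0, a1, e1, e2⟩ := share (neg_nonneg.2 h2) (neg_nonneg.2 h1)
    refine ⟨-v + -u, a, by linarith, a0, a1, ?_, ?_, Or.inr (Or.inr ?_)⟩
    · show u = (-v + -u) * -(1 - a)
      linarith
    · show v = (-v + -u) * -a
      linarith
    · rw [abs_of_nonpos (by linarith)]
      ring
  · obtain ⟨h1, h2, h3⟩ := h
    obtain ⟨a, a0, a1, e1, e2⟩ := share h3 (neg_nonneg.2 h2)
    have e : u + v + -v = u := by ring
    rw [e] at e1 e2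
    refine ⟨u, a, h1, a0, a1, (mul_one u).symm, ?_, Or.inl (abs_of_nonneg h1).symm⟩
    show v = u * -(1 - a)
    linarith
  · obtain ⟨h1, h2, h3⟩ := h
    obtain ⟨a, a0, a1, e1, e2⟩ := share (neg_nonneg.2 h3) h1
    have e : -(u + v) + u = -v := by ring
    rw [e] at e1 e2
    refine ⟨-v, a, by linarith, a0, a1, e2, ?_, Or.inr (Or.inl (abs_of_nonpos h2).symm)⟩
    show v = -v * -1
    ring
  · obtain ⟨h1, h2, h3⟩ := h
    obtain ⟨a, a0, a1, e1, e2⟩ := share (neg_nonneg.2 h1) h3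
    have e : -u + (u + v) = v := by ring
    rw [e] at e1 e2
    refine ⟨v, a, h2, a0, a1, ?_, (mul_one v).symm, Or.inr (Or.inl (abs_of_nonneg h2).symm)⟩
    show u = v * -a
    linarith
  · obtain ⟨h1, h2, h3⟩ := h
    obtain ⟨a, a0, a1, e1, e2⟩ := share h2 (neg_nonneg.2 h3)
    have e : v + -(u + v) = -u := by ring
    rw [e] at e1 e2
    refine ⟨-u, a, by linarith, a0, a1, ?_, e1, Or.inl (abs_of_nonpos h1).symm⟩
    show u = -u * -1
    ring
  · exact hc.elim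
  · exact hc.elim

theorem con_sgs {a b c : ℕ} {cn : Con} (h : con a b c = some cn) {y y' : ℝ} (h1 : InQ a y)
    (h2 : InQ b y') (h3 : InQ c (y + y')) : cn.sgs (y - jq a) (y' - jq b) := by
  unfold con at h
  split at h
  all_goals first
    | (obtain rfl := Option.some.inj h; exact trivial)
    | (obtain rfl := Option.some.inj h
       obtain ⟨a1, a2⟩ := h1
       obtain ⟨b1, b2⟩ := h2
       obtain ⟨c1, c2⟩ := h3
       simp only [Con.sgs, jq]
       push_cast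
       refine ⟨?_, ?_, ?_⟩ <;> linarith)
    | (obtain rfl := Option.some.inj h
       obtain ⟨a1, a2⟩ := h1
       obtain ⟨b1, b2⟩ := h2
       obtain ⟨c1, c2⟩ := h3
       simp only [Con.sgs, jq]
       push_cast
       refine ⟨?_, ?_⟩ <;> linarith)
    | exact absurd h (by simp)

/-! ### The companions of the nodes -/

section

variable {n : ℕ}

/-- The nodes of the quarters `0`, `1`, `2` near the lattice heights with their slopes. -/
structure GnOk (P : Pos n) (RK RL : Fin (n + 1) → ℕ → ℝ → ℝ → ℝ) (Gt : Fin (n + 1) → ℕ → Gn)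
    (x : ℝ) : Prop where
  xv : ∀ {j : Fin (n + 1)} {q : ℕ} {y : ℝ}, q ≤ 2 → OnC j q y → |y - jq q| ≤ 1 / 8 →
    (Gt j q).xv y = crv P j q y
  kv : ∀ {j : Fin (n + 1)} {q : ℕ} {y : ℝ}, q ≤ 2 → OnC j q y → |y - jq q| ≤ 1 / 8 →
    (Gt j q).kv y x = RK j q y x
  lv : ∀ {j : Fin (n + 1)} {q : ℕ} {y : ℝ}, q ≤ 2 → OnC j q y → |y - jq q| ≤ 1 / 8 →
    (Gt j q).lv y x = RL j q y x

variable {P : Pos n} {RK RL : Fin (n + 1) → ℕ → ℝ → ℝ → ℝ}
  {Gt : Fin (n + 1) → ℕ → Gn} {pc : ℕ → Piece} {x : ℝ}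

theorem GnOk.of (h : ∀ (j : Fin (n + 1)) (q : ℕ) (y : ℝ), q ≤ 2 → OnC j q y →
    |y - jq q| ≤ 1 / 8 → At P RK RL (Gt j q).nd j q y (cR (Gt j q).cc y) x) :
    GnOk P RK RL Gt x where
  xv {j q y} hq ho hy := (h j q y hq ho hy).X
  kv {j q y} hq ho hy := (h j q y hq ho hy).K
  lv {j q y} hq ho hy := (h j q y hq ho hy).L

/-! ### The third side -/

theorem sgr_or (t : Bool) : ∃ σ : ℝ, (σ = 1 ∨ σ = -1) ∧ (∀ z, sgr t z = σ * z) ∧ sgb t = σ := by
  cases t
  · exact ⟨-1, Or.inr rfl, fun z => by show -z = -1 * z; ring, rfl⟩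
  · exact ⟨1, Or.inl rfl, fun z => by show z = 1 * z; ring, rfl⟩

theorem third_lin {R : Fin (n + 1) → ℕ → ℝ → ℝ → ℝ} (h : Pins P R x) {q : ℕ} {y X : ℝ}
    (hq : InQ q y) (h1 : 1 ≤ qqn X y) (h3 : qqn X y ≤ 3) (t : Bool) (i : Fin n)
    (c1 : crv P i.castSucc q y ≤ sgr t X) (c2 : sgr t X ≤ crv P i.succ q y) :
    Lin (crv P i.castSucc q y) (crv P i.succ q y) (R i.castSucc q y x) (R i.succ q y x)
      (sgr t X) (sgr t (thd P R q X y x)) := by
  have hp := h0_pos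
  have hT : 0 ≤ h0 * y := mul_nonneg hp.le hq.nonneg
  have e := qqn_eq X y
  have hT3 : (h0 * y) ^ 2 ≤ 3 := by nlinarith [sq_nonneg X]
  obtain ⟨σ, hσ, hs, -⟩ := sgr_or t
  rw [← h.link.third q X y hq h1 h3, hs, hs]
  rw [hs] at c1 c2
  have k1 := linkX P i.castSucc q y hq
  have k2 := linkX P i.succ q y hq
  have key := P.cur.ker_lin h.adm hσ (i := i) (X := X) hT hT3 (by rwa [k1]) (by rwa [k2])
  rw [key]
  unfold Cur.lin
  rw [k1, k2]
  unfold Lin
  have u1 : tbl R x (h0 * y) (P.cur.tg i.castSucc) = R i.castSucc q y x := tbl_eq hq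
  have u2 : tbl R x (h0 * y) (P.cur.tg i.succ) = R i.succ q y x := tbl_eq hq
  rw [u1, u2]
  rcases hσ with rfl | rfl <;> ring

theorem third_at {R : Fin (n + 1) → ℕ → ℝ → ℝ → ℝ} (h : Pins P R x) {q : ℕ} {y X : ℝ}
    (hq : InQ q y) (h1 : 1 ≤ qqn X y) (h3 : qqn X y ≤ 3) (t : Bool) (i : Fin (n + 1))
    (c1 : sgr t X = crv P i q y) : sgr t (thd P R q X y x) = R i q y x := by
  have hp := h0_pos
  have hT : 0 ≤ h0 * y := mul_nonneg hp.le hq.nonneg
  have e := qqn_eq X y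
  have hT3 : (h0 * y) ^ 2 ≤ 3 := by nlinarith [sq_nonneg X]
  rw [← h.link.third q X y hq h1 h3]
  have k1 := linkX P i q y hq
  have key := Pos.ker_cv h.adm i hT hT3
  have u1 : tbl R x (h0 * y) i = R i q y x := tbl_eq hq
  have k2 : P.cv i (h0 * y) = crv P i q y := k1
  rw [u1, k2, ← c1] at key
  cases t
  · have k3 := P.cur.ker_neg (tbl R x) X (h0 * y)
    rw [show sgr false X = -X from rfl] at key
    rw [← show P.cur.nodes = P.nodes from rfl] at key
    rw [k3] at key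
    exact key
  · exact key

/-- a segment which contains a number -/
theorem third_seg {q : ℕ} {y X : ℝ} (hq : InQ q y) (h1 : 1 ≤ qqn X y) (h3 : qqn X y ≤ 3)
    (t : Bool) (h : 0 ≤ sgr t X) :
    ∃ i : Fin n, crv P i.castSucc q y ≤ sgr t X ∧ sgr t X ≤ crv P i.succ q y := by
  have hp := h0_pos
  have hT : 0 ≤ h0 * y := mul_nonneg hp.le hq.nonneg
  have e := qqn_eq X y
  have k : ∀ j, P.cur.cv j (h0 * y) = crv P j q y := fun j => linkX P j q y hq
  cases t
  · have h' : X ≤ 0 := by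
      have : (0 : ℝ) ≤ -X := h
      linarith
    obtain ⟨i, a1, a2⟩ := P.cur.seg_neg (X := X) hT h' (by rwa [e]) (by rwa [e])
    rw [k] at a1 a2
    exact ⟨i, by show _ ≤ -X; linarith, by show -X ≤ _; linarith⟩
  · obtain ⟨i, a1, a2⟩ := P.cur.seg_pos (X := X) hT h (by rwa [e]) (by rwa [e])
    rw [k] at a1 a2
    exact ⟨i, by show _ ≤ X; linarith, by show X ≤ _; linarith⟩

theorem crv_mono {q : ℕ} {y : ℝ} (hq : InQ q y) {i j : Fin (n + 1)} (h : i ≤ j) :
    crv P i q y ≤ crv P j q y := by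
  have hp := h0_pos
  have hh := h0_sq
  have hT : 0 ≤ h0 * y := mul_nonneg hp.le hq.nonneg
  have h3 : (h0 * y) ^ 2 ≤ 3 := by
    rw [mul_pow, hh]
    nlinarith [hq.le_two, hq.nonneg]
  have := P.cv_mono hT h3 h
  rwa [show P.cv i (h0 * y) = crv P i q y from linkX P i q y hq,
    show P.cv j (h0 * y) = crv P j q y from linkX P j q y hq] at this

/-! ### All segments -/

/-- The curves `lo, .., hi` pass through the corner; all charts are certified. -/
def AllS (Gt : Fin (n + 1) → ℕ → Gn) (far : Bool) (N0 : ℕ) (C : Cp) (G1 G2 : Gn) (qt lo hi : ℕ)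
    (ρ a x : ℝ) : Prop :=
  ∀ i : Fin n, lo ≤ i.val + 1 → i.val ≤ hi →
    C.Stm G1 G2 (Gt i.castSucc qt) (Gt i.succ qt) ρ a x far N0 (decide (lo ≤ i.val))
      (decide (i.val + 1 ≤ hi))

theorem AllS.concl {far : Bool} {N0 : ℕ} {C : Cp} {G1 G2 : Gn} {qt lo hi : ℕ} {ρ a : ℝ}
    (h : AllS Gt far N0 C G1 G2 qt lo hi ρ a x) (hlh : lo ≤ hi) (hn : hi ≤ n)
    {y X : ℝ} (hq : InQ qt y) (hy : y = C.yt ρ a) (hX : X = C.Xt G1 G2 ρ a)
    (h1 : 1 ≤ qqn X y) (h3 : qqn X y ≤ 3)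
    (pK : Pins P RK x) (pL : Pins P RL x)
    (gx : ∀ i, (Gt i qt).xv y = crv P i qt y) (gk : ∀ i, (Gt i qt).kv y x = RK i qt y x)
    (gl : ∀ i, (Gt i qt).lv y x = RL i qt y x) :
    C.Concl G1 G2 ρ a x far N0 (sgr C.tt (thd P RK qt X y x)) (sgr C.tt (thd P RL qt X y x)) := by
  -- the sign
  have n0 : 0 < n := by
    rcases Nat.eq_zero_or_pos n with h0 | h0
    · subst h0
      exact absurd rfl P.last_ne
    · exact h0
  have pos : 0 < C.Z G1 G2 ρ a := by
    by_cases hh : lo < n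
    · exact (h ⟨lo, hh⟩ (by simp) hlh).1
    · have e1 : lo = n := by omega
      exact (h ⟨n - 1, by omega⟩ (by simp; omega) (by simp; omega)).1
  have eZ : sgr C.tt X = C.Z G1 G2 ρ a := by rw [hX]; rfl
  obtain ⟨s, s1, s2⟩ := third_seg (P := P) hq h1 h3 C.tt (by rw [eZ]; exact pos.le)
  have main : ∀ i : Fin n, i = s → lo ≤ i.val + 1 → i.val ≤ hi →
      C.Concl G1 G2 ρ a x far N0 (sgr C.tt (thd P RK qt X y x)) (sgr C.tt (thd P RL qt X y x)) := by
    intro i hi1 hi2 hi3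
    subst hi1
    obtain ⟨-, k⟩ := h i hi2 hi3
    rw [← hy, gx, gx, gk, gk, gl, gl, ← eZ] at k
    rcases k with ⟨-, k⟩ | ⟨-, k⟩ | ⟨-, -, k⟩
    · exact absurd s1 (not_le.2 k)
    · exact absurd s2 (not_le.2 k)
    · exact k s1 s2 _ _ (third_lin pK hq h1 h3 C.tt i s1 s2) (third_lin pL hq h1 h3 C.tt i s1 s2)
  by_cases g1 : lo ≤ s.val + 1
  · by_cases g2 : s.val ≤ hi
    · exact main s rfl g1 g2
    · -- the third side is above the curve `hi + 1`
      exfalso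
      push Not at g2
      have hn' : hi < n := lt_trans g2 s.isLt
      obtain ⟨-, k⟩ := h ⟨hi, hn'⟩ (by simp; omega) le_rfl
      rw [← hy, gx, gx, gk, gk, gl, gl, ← eZ] at k
      have m1 : crv P (⟨hi, hn'⟩ : Fin n).succ qt y ≤ crv P s.castSucc qt y := by
        refine crv_mono hq ?_
        rw [Fin.le_def]
        simp only [Fin.val_succ, Fin.val_castSucc]
        omega
      have m2 : crv P (⟨hi, hn'⟩ : Fin n).castSucc qt y ≤ crv P (⟨hi, hn'⟩ : Fin n).succ qt y :=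
        crv_mono hq (by rw [Fin.le_def]; simp)
      rcases k with ⟨-, k⟩ | ⟨k, -⟩ | ⟨-, k, -⟩
      · linarith
      · simp at k
      · have := k (by simp)
        linarith
  · exfalso
    push Not at g1
    have hlo : 0 < lo := by omega
    have hn' : lo - 1 < n := by omega
    obtain ⟨-, k⟩ := h ⟨lo - 1, hn'⟩ (by simp; omega) (by simp; omega)
    rw [← hy, gx, gx, gk, gk, gl, gl, ← eZ] at k
    have m1 : crv P s.succ qt y ≤ crv P (⟨lo - 1, hn'⟩ : Fin n).castSucc qt y := by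
      refine crv_mono hq ?_
      rw [Fin.le_def]
      simp only [Fin.val_succ, Fin.val_castSucc]
      omega
    have m2 : crv P (⟨lo - 1, hn'⟩ : Fin n).castSucc qt y ≤
        crv P (⟨lo - 1, hn'⟩ : Fin n).succ qt y := crv_mono hq (by rw [Fin.le_def]; simp)
    rcases k with ⟨k, -⟩ | ⟨-, k⟩ | ⟨k, -⟩
    · simp at k
      omega
    · linarith
    · have := k (by simp; omega)
      linarith

/-! ### The neighbourhood of a corner -/

/-- The certified data of a corner for a subfamily. -/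
structure CornS (P : Pos n) (RK RL : Fin (n + 1) → ℕ → ℝ → ℝ → ℝ)
    (pc : ℕ → Piece) (Gt : Fin (n + 1) → ℕ → Gn) (far : Bool) (N0 : ℕ) (C0 : Fn1) (C : Cp)
    (qa qb qc : ℕ) (j k : Fin (n + 1)) (lo hi : ℕ) (δ x : ℝ) : Prop where
  ok : C.Ok
  con : con qa qb qc = some C.cn
  qa2 : qa ≤ 2
  qb2 : qb ≤ 2
  qc2 : qc ≤ 2
  m1 : (C.m1 : ℝ) = jq qa
  m2 : cond C.fam (C.mn : ℝ) C.mt = jq qb
  m3 : cond C.fam (C.mt : ℝ) C.mn = jq qc
  side : SideOk P RK RL pc x
  gn : GnOk P RK RL Gt x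
  x0 : 0 < x
  x1 : x < 1
  δx : δ ≤ x
  δx' : x ≤ 1 - δ
  δ8 : δ ≤ 1 / 8
  lh : lo ≤ hi
  hn : hi ≤ n
  at1 : (Gt j qa).At C.m1 ((C.h1 : ℝ) / 2) (C0.v x) x
  at2 : (Gt k (cond C.fam qb qc)).At C.mn ((C.hn : ℝ) / 2) (C0.v x) x
  att : (Gt ⟨lo, by omega⟩ (cond C.fam qc qb)).At C.mt ((C.ht : ℝ) / 2) (C0.v x) x
  stm : ∀ ρ a, CRng ρ a x → 0 < ρ → ρ ≤ δ →
    AllS Gt far N0 C (Gt j qa) (Gt k (cond C.fam qb qc)) (cond C.fam qc qb) lo hi ρ a x

theorem levR_zero (far : Bool) (N0 : ℕ) (x y y' : ℝ) : levR far N0 x y y' 0 0 0 0 = 0 := by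
  cases far
  · simp [levR, levN, levn, levm]
  · simp [levR, levF]

section

variable {far : Bool} {N0 : ℕ} {C0 : Fn1} {C : Cp} {qa qb qc : ℕ} {j k : Fin (n + 1)}
  {lo hi : ℕ} {δ : ℝ}

theorem CornS.pt (H : CornS P RK RL pc Gt far N0 C0 C qa qb qc j k lo hi δ x) {y y' : ℝ}
    (q1 : InQ qa y) (q2 : InQ qb y') (q3 : InQ qc (y + y'))
    (o1 : OnC j qa y) (o2 : OnC k (cond C.fam qb qc) (cond C.fam y' (y + y')))
    (len1 : 1 ≤ qqn (cond C.fam
      (sgr C.t1 (crv P j qa y) + sgr C.tn (crv P k (cond C.fam qb qc) (cond C.fam y' (y + y'))))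
      (sgr C.tn (crv P k (cond C.fam qb qc) (cond C.fam y' (y + y'))) - sgr C.t1 (crv P j qa y)))
      (cond C.fam (y + y') y'))
    (len3 : qqn (cond C.fam
      (sgr C.t1 (crv P j qa y) + sgr C.tn (crv P k (cond C.fam qb qc) (cond C.fam y' (y + y'))))
      (sgr C.tn (crv P k (cond C.fam qb qc) (cond C.fam y' (y + y'))) - sgr C.t1 (crv P j qa y)))
      (cond C.fam (y + y') y') ≤ 3)
    (d1 : |y - jq qa| ≤ δ) (d2 : |y' - jq qb| ≤ δ) (d3 : |y + y' - jq qc| ≤ δ) :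
    ∀ X1 Xn Xt KT LT : ℝ, X1 = sgr C.t1 (crv P j qa y) →
      Xn = sgr C.tn (crv P k (cond C.fam qb qc) (cond C.fam y' (y + y'))) →
      Xt = cond C.fam (X1 + Xn) (Xn - X1) →
      KT = thd P RK (cond C.fam qc qb) Xt (cond C.fam (y + y') y') x →
      LT = thd P RL (cond C.fam qc qb) Xt (cond C.fam (y + y') y') x →
      ∃ g, 0 ≤ slc C.cn (levR far N0 x y y' (exn' X1 (cond C.fam Xt Xn) y (y + y'))
        (sgr C.t1 (RL j qa y x))
        (cond C.fam (sgr C.tn (RL k (cond C.fam qb qc) (cond C.fam y' (y + y')) x)) LT)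
        (cond C.fam LT (sgr C.tn (RL k (cond C.fam qb qc) (cond C.fam y' (y + y')) x))))
        (ken x) x (y - jq qa) (y' - jq qb) (y + y' - jq qc)
        (sgr C.t1 (RK j qa y x))
        (cond C.fam (sgr C.tn (RK k (cond C.fam qb qc) (cond C.fam y' (y + y')) x)) KT)
        (cond C.fam KT (sgr C.tn (RK k (cond C.fam qb qc) (cond C.fam y' (y + y')) x)))
        g := by
  intro X1 Xn Xt KT LT hX1 hXn hXt hKT hLT
  rw [← hXn, ← hX1, ← hXt] at len1 len3
  have six := H.ok.six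
  have hadd : (jq qa : ℝ) + jq qb = jq qc := by
    have := H.ok.m
    rw [← H.m1, ← H.m2, ← H.m3]
    cases hf : C.fam <;> rw [hf] at this <;> exact this
  obtain ⟨ρ, a, ρ0, a0, a1, e1, e2, er⟩ := Con.polar six (con_sgs H.con q1 q2 q3)
  have e3 : y + y' - jq qc = ρ * cd3 C.cn a := by
    rw [← cd_add six, mul_add, ← e1, ← e2, ← hadd]
    ring
  have hρδ : ρ ≤ δ := by
    rcases er with er | er | er
    · rw [er]; exact d1
    · rw [er]; exact d2
    · rw [er, show y - jq qa + (y' - jq qb) = y + y' - jq qc by rw [← hadd]; ring]; exact d3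
  have R : CRng ρ a x := ⟨ρ0, hρδ.trans H.δx, by linarith [H.δx'], H.x0, H.x1, a0, a1⟩
  -- the names of the sides
  obtain ⟨qn, hqn⟩ : ∃ z, z = cond C.fam qb qc := ⟨_, rfl⟩
  obtain ⟨qt, hqt⟩ : ∃ z, z = cond C.fam qc qb := ⟨_, rfl⟩
  obtain ⟨yn, hyn⟩ : ∃ z, z = cond C.fam y' (y + y') := ⟨_, rfl⟩
  obtain ⟨yt, hyt⟩ : ∃ z, z = cond C.fam (y + y') y' := ⟨_, rfl⟩
  have at2 := H.at2
  have att := H.att
  have stm := H.stm
  rw [← hqn] at at2 stm o2 hXn
  rw [← hqt] at att stm hKT hLT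
  rw [← hyn] at o2 hXn
  rw [← hyt] at hKT hLT len1 len3
  rw [← hqn, ← hyn]
  have qn2 : qn ≤ 2 := by
    rw [hqn]
    cases C.fam
    · exact H.qc2
    · exact H.qb2
  have qt2 : qt ≤ 2 := by
    rw [hqt]
    cases C.fam
    · exact H.qb2
    · exact H.qc2
  have qty : InQ qt yt := by
    rw [hqt, hyt]
    cases C.fam
    · exact q2
    · exact q3
  have dyt : |yt - C.mt| ≤ δ := by
    have h2 := H.m2
    have h3 := H.m3
    rw [hyt]
    cases hf : C.fam
    · rw [hf] at h2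
      simp only [cond_false] at h2 ⊢
      rw [h2]
      exact d2
    · rw [hf] at h3
      simp only [cond_true] at h3 ⊢
      rw [h3]
      exact d3
  have hmt : (C.mt : ℝ) ≤ 1 := by
    have h2 := H.m2
    have h3 := H.m3
    have k1 : (jq qb : ℝ) ≤ 1 := by
      have := H.qb2
      interval_cases qb <;> norm_num [jq]
    have k2 : (jq qc : ℝ) ≤ 1 := by
      have := H.qc2
      interval_cases qc <;> norm_num [jq]
    cases hf : C.fam
    · rw [hf] at h2
      simp only [cond_false] at h2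
      linarith
    · rw [hf] at h3
      simp only [cond_true] at h3
      linarith
  have ont : ∀ i : Fin (n + 1), OnC i qt yt := fun i => ⟨qty, fun _ => by
    have hp := h0_pos
    have hh := h0_sq
    have h1 := (abs_le.1 dyt).2
    have h2 := H.δ8
    have : yt ≤ 9 / 8 := by linarith
    nlinarith⟩
  have pK := H.side.pinK
  have pL := H.side.pinL
  have d1' : |y - jq qa| ≤ 1 / 8 := d1.trans H.δ8
  have dn' : |yn - jq qn| ≤ 1 / 8 := by
    rw [hyn, hqn]
    cases C.fam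
    · exact d3.trans H.δ8
    · exact d2.trans H.δ8
  have dt' : |yt - jq qt| ≤ 1 / 8 := by
    rw [hyt, hqt]
    cases C.fam
    · exact d2.trans H.δ8
    · exact d3.trans H.δ8
  have g1x := H.gn.xv H.qa2 o1 d1'
  have g2x := H.gn.xv qn2 o2 dn'
  have g1k := H.gn.kv H.qa2 o1 d1'
  have g2k := H.gn.kv qn2 o2 dn'
  have g1l := H.gn.lv H.qa2 o1 d1'
  have g2l := H.gn.lv qn2 o2 dn'
  have gtx := fun i => H.gn.xv qt2 (ont i) dt'
  have gtk := fun i => H.gn.kv qt2 (ont i) dt'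
  have gtl := fun i => H.gn.lv qt2 (ont i) dt'
  rcases ρ0.eq_or_lt with h0 | h0
  · -- exactly aligned heights
    rw [← h0, zero_mul] at e1 e2 e3
    have ny : y = C.m1 := by rw [H.m1]; linarith
    have nyn : yn = C.mn := by
      have h2 := H.m2
      have h3 := H.m3
      rw [hyn]
      cases hf : C.fam
      · rw [hf] at h3
        simp only [cond_false] at h3 ⊢
        linarith
      · rw [hf] at h2
        simp only [cond_true] at h2 ⊢
        linarith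
    have nyt : yt = C.mt := by
      have h2 := H.m2
      have h3 := H.m3
      rw [hyt]
      cases hf : C.fam
      · rw [hf] at h2
        simp only [cond_false] at h2 ⊢
        linarith
      · rw [hf] at h3
        simp only [cond_true] at h3 ⊢
        linarith
    have at1 := H.at1
    rw [← ny] at at1
    rw [← nyn] at at2
    rw [← nyt] at att
    rw [e1, e2, e3, ← g1k, ← g2k, ← g1l, ← g2l, at1.K, at2.K, at1.L, at2.L]
    have vX1 : X1 = C.b1 := by rw [hX1, ← g1x, at1.X]; rfl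
    have vXn : Xn = C.bn := by rw [hXn, ← g2x, at2.X]; rfl
    have vXt : Xt = C.bt := by
      rw [hXt, vX1, vXn]
      have := H.ok.b
      cases hf : C.fam
      · rw [hf] at this
        simp only [cond_false] at this ⊢
        linarith
      · rw [hf] at this
        exact this
    have st : sgr C.tt Xt = crv P ⟨lo, by have := H.lh; have := H.hn; omega⟩ qt yt := by
      rw [vXt, ← gtx, att.X]
      unfold Cp.bt
      rw [sgr_sgr]
    have hKT' : sgr C.tt KT = C0.v x * ((C.ht : ℝ) / 2) := by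
      rw [hKT, third_at pK qty len1 len3 C.tt _ st, ← gtk, att.K]
    have hLT' : sgr C.tt LT = 0 := by
      rw [hLT, third_at pL qty len1 len3 C.tt _ st, ← gtl, att.L]
    have vK : KT = C0.v x * C.bt := by
      unfold Cp.bt
      rw [← sgr_mul, ← hKT', sgr_sgr]
    have vL : LT = 0 := by
      have := congrArg (sgr C.tt) hLT'
      rw [sgr_sgr] at this
      rw [this]
      cases C.tt
      · show -(0 : ℝ) = 0
        ring
      · rfl
    have z0 : ∀ t : Bool, sgr t (0 : ℝ) = 0 := fun t => by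
      cases t
      · show -(0 : ℝ) = 0
        ring
      · rfl
    have ve : exn' X1 (cond C.fam Xt Xn) y (y + y') = 0 := by
      have h1 := H.ok.det
      have h2 := H.ok.m3
      have h3 := H.m3
      have h4 : y + y' = 1 := by
        rw [h2] at h3
        linarith
      unfold exn'
      rw [vXt, vXn, vX1, h4, ny]
      linarith
    rw [vL, z0, z0, ve]
    have c0 : cond C.fam (0 : ℝ) 0 = 0 := by cases C.fam <;> rfl
    rw [c0, levR_zero]
    have b := H.ok.b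
    refine cone_zero six H.x0 H.x1.le (ken_nonneg H.x0.le H.x1.le) le_rfl ?_
    rw [vK, sgr_mul, sgr_mul]
    show C0.v x * C.b1 + cond C.fam (C0.v x * C.bn) (C0.v x * C.bt) =
      cond C.fam (C0.v x * C.bt) (C0.v x * C.bn)
    cases hf : C.fam
    · rw [hf] at b
      simp only [cond_false] at b ⊢
      rw [← b]
      ring
    · rw [hf] at b
      simp only [cond_true] at b ⊢
      rw [← b]
      ring
  · have k1 : y = C.y1 ρ a := by
      unfold Cp.y1
      rw [H.m1, ← e1]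
      ring
    have kn : yn = C.yn ρ a := by
      have h2 := H.m2
      have h3 := H.m3
      unfold Cp.yn
      rw [hyn]
      cases hf : C.fam
      · rw [hf] at h3
        simp only [cond_false] at h3 ⊢
        rw [h3, ← e3]
        ring
      · rw [hf] at h2
        simp only [cond_true] at h2 ⊢
        rw [h2, ← e2]
        ring
    have kt : yt = C.yt ρ a := by
      have h2 := H.m2
      have h3 := H.m3
      unfold Cp.yt
      rw [hyt]
      cases hf : C.fam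
      · rw [hf] at h2
        simp only [cond_false] at h2 ⊢
        rw [h2, ← e2]
        ring
      · rw [hf] at h3
        simp only [cond_true] at h3 ⊢
        rw [h3, ← e3]
        ring
    have v1 : X1 = C.X1 (Gt j qa) ρ a := by
      unfold Cp.X1
      rw [hX1, ← k1, g1x]
    have vn : Xn = C.Xn (Gt k qn) ρ a := by
      unfold Cp.Xn
      rw [hXn, ← kn, g2x]
    have vt : Xt = C.Xt (Gt j qa) (Gt k qn) ρ a := by
      unfold Cp.Xt
      rw [← v1, ← vn]
      exact hXt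
    have key := (stm ρ a R h0 hρδ).concl H.lh H.hn qty kt vt len1 len3 pK pL gtx gtk gtl
    unfold Cp.Concl at key
    rw [← k1, ← kn, ← kt, ← v1, ← vn, ← vt, g1k, g2k, g1l, g2l, sgr_sgr, sgr_sgr, ← hKT, ← hLT]
      at key
    have w2 : cond C.fam yn yt = y' := by
      rw [hyn, hyt]
      cases C.fam <;> rfl
    rw [w2, ← e1, ← e2, ← e3] at key
    exact key

/-- the cube around a corner -/
def cube (C : Cp) (d : ℕ) : List Cc :=
  [⟨0, C.m1, 0, d⟩, ⟨1, cond C.fam C.mn C.mt, 0, d⟩, ⟨2, cond C.fam C.mt C.mn, 0, d⟩]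

theorem cube_P {d : ℕ} {y y' X Y : ℝ} (h : ∀ c ∈ cube C d, c.P x y y' X Y) :
    |y - C.m1| < (d : ℝ) / 1073741824 ∧
    |y' - cond C.fam (C.mn : ℝ) C.mt| < (d : ℝ) / 1073741824 ∧
    |y + y' - cond C.fam (C.mt : ℝ) C.mn| < (d : ℝ) / 1073741824 := by
  have e : ∀ b : Bool, ∀ p q : ℕ, ((cond b p q : ℕ) : ℝ) = cond b (p : ℝ) q := fun b p q => by
    cases b <;> rfl
  refine ⟨?_, ?_, ?_⟩
  · exact h ⟨0, C.m1, 0, d⟩ (by simp [cube])
  · have := h ⟨1, cond C.fam C.mn C.mt, 0, d⟩ (by simp [cube])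
    rw [← e]
    exact this
  · have := h ⟨2, cond C.fam C.mt C.mn, 0, d⟩ (by simp [cube])
    rw [← e]
    exact this

/-- **Family `A`** near a corner. -/
theorem CornS.famA (H : CornS P RK RL pc Gt far N0 C0 C qa qb qc j k lo hi δ x)
    (hf : C.fam = true) {y y' : ℝ} (F : FactsA P qa qb qc j k (sgb C.t1) (sgb C.tn) y y')
    (d1 : |y - jq qa| ≤ δ) (d2 : |y' - jq qb| ≤ δ) (d3 : |y + y' - jq qc| ≤ δ) :
    ∃ g, 0 ≤ slt C.cn qa qb qc (levR far N0 x y y' (exA P qa qb j k (sgb C.t1) (sgb C.tn) y y')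
      (vlA P RL (fun q => (pc q).L.v) qa qb qc j k (sgb C.t1) (sgb C.tn) x y y').1
      (vlA P RL (fun q => (pc q).L.v) qa qb qc j k (sgb C.t1) (sgb C.tn) x y y').2.1
      (vlA P RL (fun q => (pc q).L.v) qa qb qc j k (sgb C.t1) (sgb C.tn) x y y').2.2)
      (ken x) x y y'
      (vlA P RK (fun q => (pc q).K.v) qa qb qc j k (sgb C.t1) (sgb C.tn) x y y') g := by
  have key := H.pt F.q1 F.q2 F.q3 F.on1
  rw [hf] at key
  simp only [cond_true, sgr_eq] at key
  have k := key F.on2 F.len1 F.len3 d1 d2 d3 _ _ _ _ _ rfl rfl rfl rfl rfl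
  rw [H.side.thK _ _ _ F.q3 F.len1 F.len3, H.side.thL _ _ _ F.q3 F.len1 F.len3] at k
  exact k

/-- **Family `B`** near a corner. -/
theorem CornS.famB (H : CornS P RK RL pc Gt far N0 C0 C qa qb qc j k lo hi δ x)
    (hf : C.fam = false) {y y' : ℝ} (F : FactsB P qa qb qc j k (sgb C.t1) (sgb C.tn) y y')
    (d1 : |y - jq qa| ≤ δ) (d2 : |y' - jq qb| ≤ δ) (d3 : |y + y' - jq qc| ≤ δ) :
    ∃ g, 0 ≤ slt C.cn qa qb qc (levR far N0 x y y' (exB P qa qc j k (sgb C.t1) (sgb C.tn) y y')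
      (vlB P RL (fun q => (pc q).L.v) qa qb qc j k (sgb C.t1) (sgb C.tn) x y y').1
      (vlB P RL (fun q => (pc q).L.v) qa qb qc j k (sgb C.t1) (sgb C.tn) x y y').2.1
      (vlB P RL (fun q => (pc q).L.v) qa qb qc j k (sgb C.t1) (sgb C.tn) x y y').2.2)
      (ken x) x y y'
      (vlB P RK (fun q => (pc q).K.v) qa qb qc j k (sgb C.t1) (sgb C.tn) x y y') g := by
  have key := H.pt F.q1 F.q2 F.q3 F.on1
  rw [hf] at key
  simp only [cond_false, sgr_eq] at key
  have k := key F.on3 F.len1 F.len3 d1 d2 d3 _ _ _ _ _ rfl rfl rfl rfl rfl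
  rw [H.side.thK _ _ _ F.q2 F.len1 F.len3, H.side.thL _ _ _ F.q2 F.len1 F.len3] at k
  exact k

/-! ### The four statements -/

variable {κ : ℝ} {d : ℕ}

theorem CornS.VF_A (H : CornS P RK RL pc Gt true N0 C0 C qa qb qc j k lo hi δ x)
    (hf : C.fam = true) (hκ : κ * h0 = ken x) (hd : (d : ℝ) / 1073741824 ≤ δ) {y y' : ℝ}
    (F : FactsA P qa qb qc j k (sgb C.t1) (sgb C.tn) y y') {X Y : ℝ}
    (hc : ∀ c ∈ cube C d, c.P x y y' X Y) :
    VF κ x y y' (exA P qa qb j k (sgb C.t1) (sgb C.tn) y y')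
      (vlA P RL (fun q => (pc q).L.v) qa qb qc j k (sgb C.t1) (sgb C.tn) x y y')
      (vlA P RK (fun q => (pc q).K.v) qa qb qc j k (sgb C.t1) (sgb C.tn) x y y') := by
  obtain ⟨k1, k2, k3⟩ := cube_P hc
  rw [H.m1] at k1
  rw [H.m2] at k2
  rw [H.m3] at k3
  refine F.ngv H.con ?_
  rw [hκ]
  exact H.famA hf F (by linarith) (by linarith) (by linarith)

theorem CornS.VF_B (H : CornS P RK RL pc Gt true N0 C0 C qa qb qc j k lo hi δ x)
    (hf : C.fam = false) (hκ : κ * h0 = ken x) (hd : (d : ℝ) / 1073741824 ≤ δ) {y y' : ℝ}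
    (F : FactsB P qa qb qc j k (sgb C.t1) (sgb C.tn) y y') {X Y : ℝ}
    (hc : ∀ c ∈ cube C d, c.P x y y' X Y) :
    VF κ x y y' (exB P qa qc j k (sgb C.t1) (sgb C.tn) y y')
      (vlB P RL (fun q => (pc q).L.v) qa qb qc j k (sgb C.t1) (sgb C.tn) x y y')
      (vlB P RK (fun q => (pc q).K.v) qa qb qc j k (sgb C.t1) (sgb C.tn) x y y') := by
  obtain ⟨k1, k2, k3⟩ := cube_P hc
  rw [H.m1] at k1
  rw [H.m2] at k2
  rw [H.m3] at k3
  refine F.ngv H.con ?_
  rw [hκ]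
  exact H.famB hf F (by linarith) (by linarith) (by linarith)

theorem CornS.VN_A (H : CornS P RK RL pc Gt false N0 C0 C qa qb qc j k lo hi δ x)
    (hf : C.fam = true) (hκ : κ * h0 = ken x) (hd : (d : ℝ) / 1073741824 ≤ δ) {y y' : ℝ}
    (F : FactsA P qa qb qc j k (sgb C.t1) (sgb C.tn) y y') {X Y : ℝ}
    (hc : ∀ c ∈ cube C d, c.P x y y' X Y) :
    VN N0 κ x y y' (exA P qa qb j k (sgb C.t1) (sgb C.tn) y y')
      (vlA P RL (fun q => (pc q).L.v) qa qb qc j k (sgb C.t1) (sgb C.tn) x y y')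
      (vlA P RK (fun q => (pc q).K.v) qa qb qc j k (sgb C.t1) (sgb C.tn) x y y') := by
  obtain ⟨k1, k2, k3⟩ := cube_P hc
  rw [H.m1] at k1
  rw [H.m2] at k2
  rw [H.m3] at k3
  refine F.ngv H.con ?_
  rw [hκ]
  exact H.famA hf F (by linarith) (by linarith) (by linarith)

theorem CornS.VN_B (H : CornS P RK RL pc Gt false N0 C0 C qa qb qc j k lo hi δ x)
    (hf : C.fam = false) (hκ : κ * h0 = ken x) (hd : (d : ℝ) / 1073741824 ≤ δ) {y y' : ℝ}
    (F : FactsB P qa qb qc j k (sgb C.t1) (sgb C.tn) y y') {X Y : ℝ}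
    (hc : ∀ c ∈ cube C d, c.P x y y' X Y) :
    VN N0 κ x y y' (exB P qa qc j k (sgb C.t1) (sgb C.tn) y y')
      (vlB P RL (fun q => (pc q).L.v) qa qb qc j k (sgb C.t1) (sgb C.tn) x y y')
      (vlB P RK (fun q => (pc q).K.v) qa qb qc j k (sgb C.t1) (sgb C.tn) x y y') := by
  obtain ⟨k1, k2, k3⟩ := cube_P hc
  rw [H.m1] at k1
  rw [H.m2] at k2
  rw [H.m3] at k3
  refine F.ngv H.con ?_
  rw [hκ]
  exact H.famB hf F (by linarith) (by linarith) (by linarith)

/-! ### The alternatives -/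

theorem CornS.altFA (H : CornS P RK RL pc Gt true N0 C0 C qa qb qc j k lo hi δ x)
    (hf : C.fam = true) (hκ : κ * h0 = ken x) (hd : (d : ℝ) / 1073741824 ≤ δ) :
    AltA (VF κ) P RK RL pc (cube C d) qa qb qc j k (sgb C.t1) (sgb C.tn) x :=
  fun _ _ F hc => H.VF_A hf hκ hd F hc

theorem CornS.altFB (H : CornS P RK RL pc Gt true N0 C0 C qa qb qc j k lo hi δ x)
    (hf : C.fam = false) (hκ : κ * h0 = ken x) (hd : (d : ℝ) / 1073741824 ≤ δ) :
    AltB (VF κ) P RK RL pc (cube C d) qa qb qc j k (sgb C.t1) (sgb C.tn) x :=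
  fun _ _ F hc => H.VF_B hf hκ hd F hc

theorem CornS.altNA (H : CornS P RK RL pc Gt false N0 C0 C qa qb qc j k lo hi δ x)
    (hf : C.fam = true) (hκ : κ * h0 = ken x) (hd : (d : ℝ) / 1073741824 ≤ δ) :
    AltA (VN N0 κ) P RK RL pc (cube C d) qa qb qc j k (sgb C.t1) (sgb C.tn) x :=
  fun _ _ F hc => H.VN_A hf hκ hd F hc

theorem CornS.altNB (H : CornS P RK RL pc Gt false N0 C0 C qa qb qc j k lo hi δ x)
    (hf : C.fam = false) (hκ : κ * h0 = ken x) (hd : (d : ℝ) / 1073741824 ≤ δ) :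
    AltB (VN N0 κ) P RK RL pc (cube C d) qa qb qc j k (sgb C.t1) (sgb C.tn) x :=
  fun _ _ F hc => H.VN_B hf hκ hd F hc

end

end

end Pool.Agent.Strip051.PB
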