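import Pool.Agent.Strip051.PB.C12C
import Pool.Agent.Strip051.PB.CornR

/-! # Charts at the corner `(1, 1, 2)`: from the charts to the segments -/

namespace Pool.Agent.Strip051.PB

attribute [local irreducible] padd psub pneg pmul psq pinv psqrt psqrtg pabs pps pmax pmin pphi plam
  pcase phf pnat prat pscale pnorm pdc pnc pone ppos pnn Enc pbad pzero

open Pool.Agent.StripNear Pool.Agent.StripSquare Pool.Agent.Strip051.Sweep
open Pool.Agent.Strip051.LC

/-! ### Coverage by the charts -/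

/-- The signs of the heights in the cell. -/
def Cell12 (cn : Con) (y y' : ℝ) : Prop :=
  match cn with
  | .nn => y ≤ 1 ∧ y' ≤ 1 ∧ 1 ≤ y + y'
  | .npn => 0 ≤ y ∧ 1 ≤ y' ∧ y + y' ≤ 2
  | .pnn => 1 ≤ y ∧ 0 ≤ y' ∧ y + y' ≤ 2
  | _ => False

/-- The root intervals of a chart cover the cube. -/
def Rng12 (kd : ℕ) (cn : Con) (D D3 Wu Wv : ℕ) : Prop :=
  match kd with
  | 0 => cond (decide (cn = .nn)) D3 D ≤ Wu ∧ 1073741824 ≤ Wv
  | 1 => 3 * D3 * 1073741824 ≤ Wu ^ 2 ∧ 1073741824 ≤ Wv ∧ cn = .nn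
  | 2 => 3 * D3 * 1073741824 ≤ Wu ^ 2 ∧ 1073741824 ≤ Wv ∧ cn = .nn
  | 3 => (∃ T, 3 * D3 * 1073741824 ≤ T ^ 2 ∧ T + D ≤ Wu) ∧ 1073741824 ≤ Wv ∧ cn ≠ .nn
  | _ => 3 * D3 * 1073741824 ≤ Wu ^ 2 ∧ 805306368 ≤ Wv ∧ cn ≠ .nn

theorem S_one : (S : ℝ) = 1073741824 := by
  unfold S
  push_cast
  ring

theorem c3n_le_of {D3 T : ℕ} {Y : ℝ} (h0 : 0 ≤ Y) (h2 : Y ≤ 2) (h : |Y - 2| < (D3 : ℝ) / S)
    (hT : 3 * D3 * 1073741824 ≤ T ^ 2) : c3n Y ≤ (T : ℝ) / S := by
  rw [S_one] at *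
  have hs : c3n Y ^ 2 = 3 - 3 / 4 * Y ^ 2 := c3n_sq (by nlinarith)
  have h1 : 2 - Y < (D3 : ℝ) / 1073741824 := by
    rw [abs_sub_comm] at h
    exact lt_of_le_of_lt (le_abs_self _) h
  have hT' : (3 : ℝ) * D3 * 1073741824 ≤ (T : ℝ) ^ 2 := by exact_mod_cast hT
  have h3 : c3n Y ^ 2 ≤ ((T : ℝ) / 1073741824) ^ 2 := by
    have e1 : c3n Y ^ 2 ≤ 3 * (2 - Y) := by nlinarith
    have e2 : 3 * ((D3 : ℝ) / 1073741824) ≤ ((T : ℝ) / 1073741824) ^ 2 := by
      rw [div_pow, ← mul_div_assoc, div_le_div_iff₀ (by norm_num) (by norm_num)]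
      nlinarith
    linarith
  exact abs_le_of_sq_le_sq' h3 (by positivity) |>.2

/-- the two short arcs -/
structure Arc12 (cn : Con) (D D3 : ℕ) (y y' A B : ℝ) : Prop where
  A0 : 0 ≤ A
  B0 : 0 ≤ B
  e1 : y = 1 + tc1 cn A B
  e2 : y' = 1 + tc2 cn A B
  sum : A + B < (cond (decide (cn = .nn)) D3 D : ℕ) / (S : ℝ)
  pos : 0 < A + B
  one : A + B ≤ 1
  top : cn = .nn → A + B = 2 - (y + y')
  rest : cn ≠ .nn → cs12 cn B A = 2 - (y + y') ∧
    cs12 cn A B = cond (decide (cn = .npn)) (y' - 1) (y - 1) ∧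
    cs12 cn A B < (D : ℝ) / S ∧ 0 ≤ cs12 cn A B

theorem arc12 {cn : Con} {D D3 : ℕ} {y y' : ℝ} (hc : Cell12 cn y y') (hi : In12 D D3 y y')
    (hne : ¬(y = 1 ∧ y' = 1)) : ∃ A B, Arc12 cn D D3 y y' A B := by
  obtain ⟨i1, i2, i3⟩ := hi
  have j1 := neg_abs_le (y - 1)
  have j2 := neg_abs_le (y' - 1)
  have j3 := neg_abs_le (y + y' - 2)
  have k1 := le_abs_self (y - 1)
  have k2 := le_abs_self (y' - 1)
  cases cn <;> simp only [Cell12] at hc
  · obtain ⟨c1, c2, c3⟩ := hc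
    refine ⟨1 - y', 1 - y, by linarith, by linarith, by simp only [tc1]; ring,
      by simp only [tc2]; ring, ?_, ?_, by linarith, fun _ => by ring,
      fun h => absurd rfl h⟩
    · show 1 - y' + (1 - y) < (D3 : ℝ) / S
      linarith
    · rcases (show 0 ≤ 1 - y' + (1 - y) by linarith).eq_or_lt with h | h
      · exact absurd ⟨by linarith, by linarith⟩ hne
      · exact h
  · obtain ⟨c1, c2, c3⟩ := hc
    refine ⟨2 - (y + y'), y - 1, by linarith, by linarith, by simp only [tc1]; ring,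
      by simp only [tc2]; ring, ?_, ?_, by linarith, fun h => (by simp at h),
      fun h => ⟨rfl, rfl, ?_, ?_⟩⟩
    · show 2 - (y + y') + (y - 1) < (D : ℝ) / S
      linarith
    · rcases (show 0 ≤ 2 - (y + y') + (y - 1) by linarith).eq_or_lt with h | h
      · exact absurd ⟨by linarith, by linarith⟩ hne
      · exact h
    · show y - 1 < (D : ℝ) / S
      linarith
    · show 0 ≤ y - 1
      linarith
  · obtain ⟨c1, c2, c3⟩ := hc
    refine ⟨y' - 1, 2 - (y + y'), by linarith, by linarith, by simp only [tc1]; ring,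
      by simp only [tc2]; ring, ?_, ?_, by linarith, fun h => (by simp at h),
      fun h => ⟨rfl, rfl, ?_, ?_⟩⟩
    · show y' - 1 + (2 - (y + y')) < (D : ℝ) / S
      linarith
    · rcases (show 0 ≤ y' - 1 + (2 - (y + y')) by linarith).eq_or_lt with h | h
      · exact absurd ⟨by linarith, by linarith⟩ hne
      · exact h
    · show y' - 1 < (D : ℝ) / S
      linarith
    · show 0 ≤ y' - 1
      linarith

theorem tc_div (cn : Con) {A B s : ℝ} :
    tc1 cn (A / s) (B / s) = tc1 cn A B / s ∧ tc2 cn (A / s) (B / s) = tc2 cn A B / s := by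
  cases cn <;> simp only [tc1, tc2, zero_div, and_self, true_and, and_true] <;>
    first | (constructor <;> ring) | ring

theorem Arc12.p12 {cn : Con} {D D3 : ℕ} {y y' A B s t : ℝ} (H : Arc12 cn D D3 y y' A B)
    (hs : 0 < s) (ht : t = c3n (y + y')) (hw : 2 - (y + y') = t * wtr t) :
    P12 cn y y' s (A / s) (B / s) t (t / s) (wtr t) := by
  obtain ⟨d1, d2⟩ := tc_div cn (A := A) (B := B) (s := s)
  refine ⟨hs, div_nonneg H.A0 hs.le, div_nonneg H.B0 hs.le, ?_, ?_, ?_, ht, ?_, hw⟩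
  · rw [← add_div, mul_div_cancel₀ _ hs.ne']
    exact H.one
  · rw [d1, mul_div_cancel₀ _ hs.ne']
    exact H.e1
  · rw [d2, mul_div_cancel₀ _ hs.ne']
    exact H.e2
  · rw [mul_div_cancel₀ _ hs.ne']

/-- **The charts cover the cube**; in the last chart the geometry bounds the height. -/
theorem cov12 {kd : ℕ} {cn : Con} {D D3 Wu Wv : ℕ} {y y' : ℝ} (hR : Rng12 kd cn D D3 Wu Wv)
    (hc : Cell12 cn y y') (hi : In12 D D3 y y') (hne : ¬(y = 1 ∧ y' = 1))
    (h4 : 4 ≤ kd → cond (decide (cn = .npn)) (y' - 1) (y - 1) ≤ 3 / 4 * c3n (y + y')) :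
    ∃ u v s a b t τ w, P12 cn y y' s a b t τ w ∧ Rel12 kd cn u v s a b t τ w ∧ 0 ≤ u ∧
      u ≤ (Wu : ℝ) / S ∧ 0 ≤ v ∧ v ≤ (Wv : ℝ) / S := by
  obtain ⟨A, B, H⟩ := arc12 hc hi hne
  have y0 : 0 ≤ y + y' := by
    cases cn <;> simp only [Cell12] at hc <;> linarith [hc.1, hc.2.1, hc.2.2]
  have y2 : y + y' ≤ 2 := by
    cases cn <;> simp only [Cell12] at hc <;> linarith [hc.1, hc.2.1, hc.2.2]
  obtain ⟨t, ht⟩ : ∃ t, t = c3n (y + y') := ⟨_, rfl⟩
  have t0 : 0 ≤ t := by rw [ht]; exact c3n_nn _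
  have hw := wtr_eq y0 y2
  rw [← ht] at hw
  have tT : ∀ {T : ℕ}, 3 * D3 * 1073741824 ≤ T ^ 2 → t ≤ (T : ℝ) / S := fun h => by
    rw [ht]
    exact c3n_le_of y0 y2 hi.2.2 h
  have one : ∀ {v : ℝ}, v ≤ 1 → 1073741824 ≤ Wv → v ≤ (Wv : ℝ) / S := fun h hW => by
    have : (1073741824 : ℝ) ≤ Wv := by exact_mod_cast hW
    rw [S_one, le_div_iff₀ (by norm_num)]
    linarith
  have s0 := H.pos
  have eA : A / (A + B) ≤ 1 := by
    rw [div_le_one s0]
    linarith [H.B0]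
  have eA0 : 0 ≤ A / (A + B) := div_nonneg H.A0 s0.le
  have eB : B / (A + B) = 1 - A / (A + B) := by
    field_simp
    ring
  -- the coordinate is positive if the height is below the top
  have tp : 0 < 2 - (y + y') → 0 < t := fun h => by
    rcases t0.eq_or_lt with h0 | h0
    · rw [← h0, zero_mul] at hw
      linarith
    · exact h0
  match kd, hR, h4 with
  | 0, hR, _ =>
    obtain ⟨hU, hV⟩ := hR
    refine ⟨A + B, A / (A + B), A + B, A / (A + B), B / (A + B), t, t / (A + B), wtr t,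
      H.p12 s0 ht hw, ⟨rfl, rfl, eB⟩, s0.le, ?_, eA0, one eA hV⟩
    have h1 : ((cond (decide (cn = .nn)) D3 D : ℕ) : ℝ) ≤ Wu := by exact_mod_cast hU
    have h2 := H.sum
    have h3 : ((cond (decide (cn = .nn)) D3 D : ℕ) : ℝ) / (S : ℝ) ≤ (Wu : ℝ) / S :=
      div_le_div_of_nonneg_right h1 (by rw [S_one]; norm_num)
    linarith
  | 1, hR, _ =>
    obtain ⟨hU, hV, hn⟩ := hR
    have hs := H.top hn
    have t1 := tp (by linarith)
    refine ⟨t, A / (A + B), A + B, A / (A + B), B / (A + B), t, t / (A + B), wtr t,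
      H.p12 s0 ht hw, ⟨rfl, rfl, by rw [hs, hw], rfl, eB⟩, t0, tT hU, eA0, one eA hV⟩
  | 2, hR, _ =>
    obtain ⟨hU, hV, hn⟩ := hR
    have hs := H.top hn
    have t1 := tp (by linarith)
    have ew : wtr t = (A + B) / t := by
      rw [hs, hw]
      field_simp
    refine ⟨t, A / (A + B), t, A / t, B / t, t, t / t, wtr t,
      H.p12 t1 ht hw, ⟨rfl, rfl, rfl, div_self t1.ne', ?_, ?_⟩, t0, tT hU, eA0, one eA hV⟩
    · rw [ew]
      field_simp
    · rw [ew, ← eB]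
      field_simp
  | 3, hR, _ =>
    obtain ⟨⟨T, hT, hU⟩, hV, hn⟩ := hR
    obtain ⟨r1, r2, r3, r4⟩ := H.rest hn
    have sp : 0 < t + cs12 cn A B := by
      rcases t0.eq_or_lt with h0 | h0
      · rw [← h0, zero_mul] at hw
        have : cs12 cn A B + cs12 cn B A = A + B := by
          cases cn <;> simp only [cs12] <;> ring
        linarith
      · linarith
    obtain ⟨s, hs⟩ : ∃ s, s = t + cs12 cn A B := ⟨_, rfl⟩
    rw [← hs] at sp
    have e1 : t / s = 1 - cs12 cn A B / s := by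
      field_simp
      linarith
    have e2 : t / s * wtr t = cs12 cn B A / s := by
      rw [r1, hw]
      ring
    refine ⟨s, cs12 cn A B / s, s, A / s, B / s, t, t / s, wtr t, H.p12 sp ht hw,
      ⟨rfl, e1, ?_, rfl, ?_, ?_⟩, sp.le, ?_, div_nonneg r4 sp.le, one ?_ hV⟩
    · rw [mul_div_cancel₀ _ sp.ne']
    · rw [e2]
      cases cn <;> simp only [cs12]
    · rw [e2]
      cases cn <;> simp only [cs12]
    · have h1 := tT hT
      have h2 : (T : ℝ) + D ≤ Wu := by exact_mod_cast hU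
      have h3 : ((T : ℝ) + D) / (S : ℝ) ≤ (Wu : ℝ) / S :=
        div_le_div_of_nonneg_right h2 (by rw [S_one]; norm_num)
      rw [add_div] at h3
      linarith
    · rw [div_le_one sp]
      linarith
  | (m + 4), hR, h4 =>
    obtain ⟨hU, hV, hn⟩ := hR
    obtain ⟨r1, r2, r3, r4⟩ := H.rest hn
    have h5 := h4 (by omega)
    rw [← r2, ← ht] at h5
    have t1 : 0 < t := by
      rcases t0.eq_or_lt with h0 | h0
      · rw [← h0, zero_mul] at hw
        rw [← h0, mul_zero] at h5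
        have : cs12 cn A B + cs12 cn B A = A + B := by
          cases cn <;> simp only [cs12] <;> ring
        linarith
      · exact h0
    have ew : wtr t = cs12 cn B A / t := by
      rw [r1, hw]
      field_simp
    refine ⟨t, cs12 cn A B / t, t, A / t, B / t, t, t / t, wtr t, H.p12 t1 ht hw,
      ⟨rfl, div_self t1.ne', rfl, rfl, ?_, ?_⟩, t0, tT hU, div_nonneg r4 t0, ?_⟩
    · rw [ew]
      cases cn <;> simp only [cs12]
    · rw [ew]
      cases cn <;> simp only [cs12]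
    · have h6 : (805306368 : ℝ) ≤ Wv := by exact_mod_cast hV
      rw [S_one, div_le_div_iff₀ t1 (by norm_num)]
      nlinarith

/-! ### The segments -/

section

variable {n : ℕ}

/-- The nodes of the quarter `3` with their slopes; `KA` is the last curve left of the steep one. -/
structure Gn3 (P : Pos n) (RK RL : Fin (n + 1) → ℕ → ℝ → ℝ → ℝ) (Gt : Fin (n + 1) → ℕ → Gn)
    (KA : ℕ) (x : ℝ) : Prop where
  xv : ∀ {j : Fin (n + 1)} {y : ℝ}, InQ 3 y →
    (Gt j 3).xv (c3r (decide (j.val ≤ KA)) y) = crv P j 3 y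
  kv : ∀ {j : Fin (n + 1)} {y : ℝ}, InQ 3 y →
    (Gt j 3).kv (c3r (decide (j.val ≤ KA)) y) x = RK j 3 y x
  lv : ∀ {j : Fin (n + 1)} {y : ℝ}, InQ 3 y →
    (Gt j 3).lv (c3r (decide (j.val ≤ KA)) y) x = RL j 3 y x

/-- The row at the corner `(1, 1, 2)` if the third side lies on the segment `i`, family `A`. -/
def Sg12A (P : Pos n) (RK RL : Fin (n + 1) → ℕ → ℝ → ℝ → ℝ) (far : Bool) (N0 : ℕ) (cn : Con)
    (qa qb : ℕ) (j k : Fin (n + 1)) (tt : Bool) (i : Fin n) (D D3 : ℕ) (x : ℝ) : Prop :=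
  ∀ y y', FactsA P qa qb 3 j k 1 (-1) y y' → In12 D D3 y y' →
    crv P i.castSucc 3 (y + y') ≤ sgr tt (crv P j qa y - crv P k qb y') →
    sgr tt (crv P j qa y - crv P k qb y') ≤ crv P i.succ 3 (y + y') →
    Con12 far N0 cn y y' x (crv P j qa y) (crv P j qa y - crv P k qb y') (RK j qa y x)
      (-RK k qb y' x) (thd P RK 3 (crv P j qa y - crv P k qb y') (y + y') x) (RL j qa y x)
      (-RL k qb y' x) (thd P RL 3 (crv P j qa y - crv P k qb y') (y + y') x)

/-- The row at the corner `(1, 1, 2)` if the third side lies on the segment `i`, family `B`; `sn`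
is the sign of the side bottom-top. -/
def Sg12B (P : Pos n) (RK RL : Fin (n + 1) → ℕ → ℝ → ℝ → ℝ) (far : Bool) (N0 : ℕ) (cn : Con)
    (qa qb : ℕ) (j k : Fin (n + 1)) (sn : Bool) (i : Fin n) (D D3 : ℕ) (x : ℝ) : Prop :=
  ∀ y y', FactsB P qa qb 3 j k 1 (sgb sn) y y' → In12 D D3 y y' →
    crv P i.castSucc qb y' ≤ crv P j qa y - sgr sn (crv P k 3 (y + y')) →
    crv P j qa y - sgr sn (crv P k 3 (y + y')) ≤ crv P i.succ qb y' →
    Con12 far N0 cn y y' x (crv P j qa y) (sgr sn (crv P k 3 (y + y'))) (RK j qa y x)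
      (thd P RK qb (sgr sn (crv P k 3 (y + y')) - crv P j qa y) y' x)
      (sgr sn (RK k 3 (y + y') x)) (RL j qa y x)
      (thd P RL qb (sgr sn (crv P k 3 (y + y')) - crv P j qa y) y' x)
      (sgr sn (RL k 3 (y + y') x))

/-- The third side does not reach the curve `i`, family `B`. -/
def Ex12B (P : Pos n) (qa qb : ℕ) (j k : Fin (n + 1)) (sn : Bool) (i : Fin (n + 1)) (D D3 : ℕ) :
    Prop :=
  ∀ y y', FactsB P qa qb 3 j k 1 (sgb sn) y y' → In12 D D3 y y' →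
    crv P j qa y - sgr sn (crv P k 3 (y + y')) < crv P i qb y'

variable {P : Pos n} {RK RL : Fin (n + 1) → ℕ → ℝ → ℝ → ℝ} {Gt : Fin (n + 1) → ℕ → Gn}
  {pc : ℕ → Piece} {KA : ℕ} {x : ℝ} {far : Bool} {N0 : ℕ} {C0 : Fn1} {cn : Con} {qa qb : ℕ}
  {j k : Fin (n + 1)} {tt sn : Bool} {i : Fin n} {D D3 Wu Wv Px Wx kd : ℕ}

/-- the cell of a triple of quarters -/
theorem cell12 {y y' : ℝ} (h : con qa qb 3 = some cn) (hc : isC12 cn) (q1 : InQ qa y)
    (q2 : InQ qb y') (q3 : InQ 3 (y + y')) (hq : qa = 1 ∨ qa = 2) (hq' : qb = 1 ∨ qb = 2) :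
    Cell12 cn y y' := by
  have h3 := q3.le_two
  obtain ⟨c1, c2⟩ := q3
  rcases hq with rfl | rfl <;> rcases hq' with rfl | rfl
  · obtain ⟨a1, a2⟩ := q1
    obtain ⟨b1, b2⟩ := q2
    have : cn = .nn := by
      have := Option.some.inj h
      exact this.symm
    subst this
    exact ⟨a2.le, b2.le, by linarith⟩
  · obtain ⟨a1, a2⟩ := q1
    obtain ⟨b1, b2⟩ := q2
    have : cn = .npn := by
      have := Option.some.inj h
      exact this.symm
    subst this
    exact ⟨by linarith, b1, h3⟩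
  · obtain ⟨a1, a2⟩ := q1
    obtain ⟨b1, b2⟩ := q2
    have : cn = .pnn := by
      have := Option.some.inj h
      exact this.symm
    subst this
    exact ⟨a1, by linarith, h3⟩
  · exact absurd h (by simp [con])

theorem ne12 {y y' : ℝ} (h : con qa qb 3 = some cn) (q1 : InQ qa y)
    (q2 : InQ qb y') (hq : qa = 1 ∨ qa = 2) (hq' : qb = 1 ∨ qb = 2) : ¬(y = 1 ∧ y' = 1) := by
  rintro ⟨e1, e2⟩
  rcases hq with rfl | rfl
  · exact absurd q1.2 (by linarith)
  · rcases hq' with rfl | rfl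
    · exact absurd q2.2 (by linarith)
    · exact absurd h (by simp [con])

theorem Con12.slt (h : con qa qb 3 = some cn) (hq : qa = 1 ∨ qa = 2) (hq' : qb = 1 ∨ qb = 2)
    {y y' X12 X13 v1 v2 v3 w1 w2 w3 : ℝ}
    (H : Con12 far N0 cn y y' x X12 X13 v1 v2 v3 w1 w2 w3) :
    ∃ g, 0 ≤ slt cn qa qb 3 (levR far N0 x y y' (exn' X12 X13 y (y + y')) w1 w2 w3) (ken x) x y y'
      (v1, v2, v3) g := by
  have e1 : (jq qa : ℝ) = 1 := by rcases hq with rfl | rfl <;> simp [jq]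
  have e2 : (jq qb : ℝ) = 1 := by rcases hq' with rfl | rfl <;> simp [jq]
  have e3 : (jq 3 : ℝ) = 2 := by simp [jq]
  unfold PB.slt
  rw [e1, e2, e3]
  exact H

/-- **A segment from the certificate of a chart**, family `A`. -/
theorem sg12A_of (h : con qa qb 3 = some cn) (hc : isC12 cn) (hq : qa = 1 ∨ qa = 2)
    (hq' : qb = 1 ∨ qb = 2) (side : SideOk P RK RL pc x) (gn : GnOk P RK RL Gt x)
    (g3 : Gn3 P RK RL Gt KA x) (x0 : 0 < x) (x1 : x < 1) (hD : (D : ℝ) / S ≤ 1 / 8)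
    (h1 : (Gt j qa).At 1 (1 / 2) (C0.v x) x) (h2 : (Gt k qb).At 1 (1 / 2) (C0.v x) x)
    (ha : (Gt i.castSucc 3).At3 (decide (i.val ≤ KA)) (C0.v x) x)
    (hb : (Gt i.succ 3).At3 (decide (i.val + 1 ≤ KA)) (C0.v x) x)
    (ht : ∃ t, chk3 (onCell 0 Wu 0 Wv Px Wx (fA12 kd far N0 C0 cn tt (decide (i.val ≤ KA))
      (decide (i.val + 1 ≤ KA)) (Gt j qa) (Gt k qb) (Gt i.castSucc 3) (Gt i.succ 3) D D3))
      t 1 1 1 = true)
    (hR : Rng12 kd cn D D3 Wu Wv) (hx : (Px : ℝ) / S ≤ x) (hx' : x ≤ ((Px : ℝ) + Wx) / S)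
    (h4 : 4 ≤ kd → ∀ y y', FactsA P qa qb 3 j k 1 (-1) y y' → In12 D D3 y y' →
      cond (decide (cn = .npn)) (y' - 1) (y - 1) ≤ 3 / 4 * c3n (y + y')) :
    Sg12A P RK RL far N0 cn qa qb j k tt i D D3 x := by
  intro y y' F hi c1 c2
  have hne := ne12 h F.q1 F.q2 hq hq'
  obtain ⟨u, v, s, a, b, t, τ, w, P', R, u0, uu, v0, vv⟩ := cov12 hR
    (cell12 h hc F.q1 F.q2 F.q3 hq hq') hi hne (fun h => h4 h y y' F hi)
  have key := st12A_cert hc (fun h => by
    have := of_decide_eq_true h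
    exact decide_eq_true (by omega)) P' R x0 x1 h1 h2 ha hb ht u0 uu v0 vv hx hx'
  have q12 : qa ≤ 2 := by rcases hq with rfl | rfl <;> norm_num
  have q22 : qb ≤ 2 := by rcases hq' with rfl | rfl <;> norm_num
  have e1 : (jq qa : ℝ) = 1 := by rcases hq with rfl | rfl <;> simp [jq]
  have e2 : (jq qb : ℝ) = 1 := by rcases hq' with rfl | rfl <;> simp [jq]
  have d1 : |y - jq qa| ≤ 1 / 8 := by rw [e1]; exact (hi.1.le).trans hD
  have d2 : |y' - jq qb| ≤ 1 / 8 := by rw [e2]; exact (hi.2.1.le).trans hD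
  have on1 := F.on1
  have on2 := F.on2
  have gx1 := gn.xv q12 on1 d1
  have gx2 := gn.xv q22 on2 d2
  have gk1 := gn.kv q12 on1 d1
  have gk2 := gn.kv q22 on2 d2
  have gl1 := gn.lv q12 on1 d1
  have gl2 := gn.lv q22 on2 d2
  have xa := g3.xv (j := i.castSucc) F.q3
  have xb := g3.xv (j := i.succ) F.q3
  have ka := g3.kv (j := i.castSucc) F.q3
  have kb := g3.kv (j := i.succ) F.q3
  have la := g3.lv (j := i.castSucc) F.q3
  have lb := g3.lv (j := i.succ) F.q3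
  simp only [Fin.val_castSucc, Fin.val_succ] at xa xb ka kb la lb
  unfold St12A at key
  rw [gx1, gx2, gk1, gk2, gl1, gl2, xa, xb, ka, kb, la, lb] at key
  have len1 := F.len1
  have len3 := F.len3
  have eX : 1 * crv P j qa y + -1 * crv P k qb y' = crv P j qa y - crv P k qb y' := by ring
  rw [eX] at len1 len3
  have k3 := key hi c1 c2 _ _ (third_lin side.pinK F.q3 len1 len3 tt i c1 c2)
    (third_lin side.pinL F.q3 len1 len3 tt i c1 c2)
  rw [sgr_sgr, sgr_sgr] at k3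
  exact k3

theorem con12B_of (hq : qa = 1 ∨ qa = 2)
    (hq' : qb = 1 ∨ qb = 2) (side : SideOk P RK RL pc x)
    (gn : GnOk P RK RL Gt x) (g3 : Gn3 P RK RL Gt KA x)
    (hD : (D : ℝ) / S ≤ 1 / 8) {y y' : ℝ}
    (key : St12B far N0 cn y y' x (Gt j qa) (Gt k 3) (Gt i.castSucc qb) (Gt i.succ qb) D D3 sn
      (decide (k.val ≤ KA))) (F : FactsB P qa qb 3 j k 1 (sgb sn) y y') (hi : In12 D D3 y y')
    (c1 : crv P i.castSucc qb y' ≤ crv P j qa y - sgr sn (crv P k 3 (y + y')))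
    (c2 : crv P j qa y - sgr sn (crv P k 3 (y + y')) ≤ crv P i.succ qb y') :
    Con12 far N0 cn y y' x (crv P j qa y) (sgr sn (crv P k 3 (y + y'))) (RK j qa y x)
      (thd P RK qb (sgr sn (crv P k 3 (y + y')) - crv P j qa y) y' x)
      (sgr sn (RK k 3 (y + y') x)) (RL j qa y x)
      (thd P RL qb (sgr sn (crv P k 3 (y + y')) - crv P j qa y) y' x)
      (sgr sn (RL k 3 (y + y') x)) := by
  have q12 : qa ≤ 2 := by rcases hq with rfl | rfl <;> norm_num
  have q22 : qb ≤ 2 := by rcases hq' with rfl | rfl <;> norm_num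
  have e1 : (jq qa : ℝ) = 1 := by rcases hq with rfl | rfl <;> simp [jq]
  have e2 : (jq qb : ℝ) = 1 := by rcases hq' with rfl | rfl <;> simp [jq]
  have d1 : |y - jq qa| ≤ 1 / 8 := by rw [e1]; exact (hi.1.le).trans hD
  have d2 : |y' - jq qb| ≤ 1 / 8 := by rw [e2]; exact (hi.2.1.le).trans hD
  have on1 := F.on1
  have ont : ∀ i : Fin (n + 1), OnC i qb y' := fun i => ⟨F.q2, fun _ => by
    have hp := h0_pos
    have hh := h0_sq
    rw [e2] at d2
    have h1 := (abs_le.1 d2).2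
    have : y' ≤ 9 / 8 := by linarith
    have := F.y0'
    nlinarith⟩
  have gx1 := gn.xv q12 on1 d1
  have gk1 := gn.kv q12 on1 d1
  have gl1 := gn.lv q12 on1 d1
  have xa := gn.xv (j := i.castSucc) q22 (ont _) d2
  have xb := gn.xv (j := i.succ) q22 (ont _) d2
  have ka := gn.kv (j := i.castSucc) q22 (ont _) d2
  have kb := gn.kv (j := i.succ) q22 (ont _) d2
  have la := gn.lv (j := i.castSucc) q22 (ont _) d2
  have lb := gn.lv (j := i.succ) q22 (ont _) d2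
  have x3 := g3.xv (j := k) F.q3
  have k3 := g3.kv (j := k) F.q3
  have l3 := g3.lv (j := k) F.q3
  unfold St12B at key
  rw [gx1, gk1, gl1, xa, xb, ka, kb, la, lb, x3, k3, l3] at key
  have len1 := F.len1
  have len3 := F.len3
  have eX : sgb sn * crv P k 3 (y + y') - 1 * crv P j qa y =
      sgr sn (crv P k 3 (y + y')) - crv P j qa y := by
    rw [← sgr_eq]
    ring
  rw [eX] at len1 len3
  have en : crv P j qa y - sgr sn (crv P k 3 (y + y')) =
      sgr false (sgr sn (crv P k 3 (y + y')) - crv P j qa y) := by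
    show _ = -(_ - _)
    ring
  have c1' := c1
  have c2' := c2
  rw [en] at c1' c2'
  have t1 := third_lin side.pinK F.q2 len1 len3 false i c1' c2'
  have t2 := third_lin side.pinL F.q2 len1 len3 false i c1' c2'
  rw [← en] at t1 t2
  have k4 := key hi c1 c2 _ _ t1 t2
  have e4 : ∀ z : ℝ, -sgr false z = z := fun z => by
    show - -z = z
    ring
  rw [e4, e4] at k4
  exact k4

/-- **A segment from the certificate of a chart**, family `B`. -/
theorem sg12B_of (h : con qa qb 3 = some cn) (hc : isC12 cn) (hq : qa = 1 ∨ qa = 2)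
    (hq' : qb = 1 ∨ qb = 2) {lo up : Bool} (side : SideOk P RK RL pc x)
    (gn : GnOk P RK RL Gt x) (g3 : Gn3 P RK RL Gt KA x) (x0 : 0 < x) (x1 : x < 1)
    (hD : (D : ℝ) / S ≤ 1 / 8)
    (h1 : (Gt j qa).At 1 (1 / 2) (C0.v x) x)
    (h2 : (Gt k 3).At3 (decide (k.val ≤ KA)) (C0.v x) x)
    (ha : lo = true → (Gt i.castSucc qb).At 1 (1 / 2) (C0.v x) x)
    (hb : lo = true → up = true → (Gt i.succ qb).At 1 (1 / 2) (C0.v x) x)
    (ht : ∃ t, chk3 (onCell 0 Wu 0 Wv Px Wx (fB12 kd far N0 C0 cn sn (decide (k.val ≤ KA))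
      lo up (Gt j qa) (Gt k 3) (Gt i.castSucc qb) (Gt i.succ qb) D D3)) t 1 1 1 = true)
    (hR : Rng12 kd cn D D3 Wu Wv) (hk : kd ≤ 3) (hx : (Px : ℝ) / S ≤ x)
    (hx' : x ≤ ((Px : ℝ) + Wx) / S) :
    Sg12B P RK RL far N0 cn qa qb j k sn i D D3 x := by
  intro y y' F hi c1 c2
  have hne := ne12 h F.q1 F.q2 hq hq'
  obtain ⟨u, v, s, a, b, t, τ, w, P', R, u0, uu, v0, vv⟩ := cov12 hR
    (cell12 h hc F.q1 F.q2 F.q3 hq hq') hi hne (fun h => absurd h (by omega))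
  exact con12B_of hq hq' side gn g3 hD
    (st12B_cert hc P' R x0 x1 h1 h2 ha hb ht u0 uu v0 vv hx hx') F hi c1 c2

/-- the height above one -/
noncomputable def vv12 (cn : Con) (y y' : ℝ) : ℝ := cond (decide (cn = .npn)) (y' - 1) (y - 1)

/-- the part of a segment where the height above one is at least two thirds of the coordinate -/
def Sg12Bu (P : Pos n) (RK RL : Fin (n + 1) → ℕ → ℝ → ℝ → ℝ) (far : Bool) (N0 : ℕ) (cn : Con)
    (qa qb : ℕ) (j k : Fin (n + 1)) (sn : Bool) (i : Fin n) (D D3 : ℕ) (x : ℝ) : Prop :=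
  ∀ y y', FactsB P qa qb 3 j k 1 (sgb sn) y y' → In12 D D3 y y' →
    2 / 3 * c3n (y + y') ≤ vv12 cn y y' →
    crv P i.castSucc qb y' ≤ crv P j qa y - sgr sn (crv P k 3 (y + y')) →
    crv P j qa y - sgr sn (crv P k 3 (y + y')) ≤ crv P i.succ qb y' →
    Con12 far N0 cn y y' x (crv P j qa y) (sgr sn (crv P k 3 (y + y'))) (RK j qa y x)
      (thd P RK qb (sgr sn (crv P k 3 (y + y')) - crv P j qa y) y' x)
      (sgr sn (RK k 3 (y + y') x)) (RL j qa y x)
      (thd P RL qb (sgr sn (crv P k 3 (y + y')) - crv P j qa y) y' x)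
      (sgr sn (RL k 3 (y + y') x))

/-- the part of a segment where the height above one is at most two thirds of the coordinate -/
def Sg12Bl (P : Pos n) (RK RL : Fin (n + 1) → ℕ → ℝ → ℝ → ℝ) (far : Bool) (N0 : ℕ) (cn : Con)
    (qa qb : ℕ) (j k : Fin (n + 1)) (sn : Bool) (i : Fin n) (D D3 : ℕ) (x : ℝ) : Prop :=
  ∀ y y', FactsB P qa qb 3 j k 1 (sgb sn) y y' → In12 D D3 y y' →
    vv12 cn y y' ≤ 2 / 3 * c3n (y + y') →
    crv P i.castSucc qb y' ≤ crv P j qa y - sgr sn (crv P k 3 (y + y')) →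
    crv P j qa y - sgr sn (crv P k 3 (y + y')) ≤ crv P i.succ qb y' →
    Con12 far N0 cn y y' x (crv P j qa y) (sgr sn (crv P k 3 (y + y'))) (RK j qa y x)
      (thd P RK qb (sgr sn (crv P k 3 (y + y')) - crv P j qa y) y' x)
      (sgr sn (RK k 3 (y + y') x)) (RL j qa y x)
      (thd P RL qb (sgr sn (crv P k 3 (y + y')) - crv P j qa y) y' x)
      (sgr sn (RL k 3 (y + y') x))

theorem Sg12Bu.join (h1 : Sg12Bu P RK RL far N0 cn qa qb j k sn i D D3 x)
    (h2 : Sg12Bl P RK RL far N0 cn qa qb j k sn i D D3 x) :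
    Sg12B P RK RL far N0 cn qa qb j k sn i D D3 x := by
  intro y y' F hi
  rcases le_total (2 / 3 * c3n (y + y')) (vv12 cn y y') with h | h
  · exact h1 y y' F hi h
  · exact h2 y y' F hi h

/-- the test function of the upper part -/
noncomputable def fB12u (far : Bool) (N0 : ℕ) (C0 : Fn1) (cn : Con) (tn l2 lo up : Bool)
    (G1 G2 Ga Gb : Gn) (D D3 : ℕ) (h U V X : ℕ) : Bool :=
  bor (ppos (psub (pnc 2) (pnat 5 V))) (fB12 3 far N0 C0 cn tn l2 lo up G1 G2 Ga Gb D D3 h U V X)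

/-- **The upper part of a segment from the certificate of a chart**, family `B`. -/
theorem sg12Bu_of (h : con qa qb 3 = some cn) (hc : isC12 cn) (hq : qa = 1 ∨ qa = 2)
    (hq' : qb = 1 ∨ qb = 2) {lo up : Bool} (side : SideOk P RK RL pc x)
    (gn : GnOk P RK RL Gt x) (g3 : Gn3 P RK RL Gt KA x) (x0 : 0 < x) (x1 : x < 1)
    (hD : (D : ℝ) / S ≤ 1 / 8)
    (h1 : (Gt j qa).At 1 (1 / 2) (C0.v x) x)
    (h2 : (Gt k 3).At3 (decide (k.val ≤ KA)) (C0.v x) x)
    (ha : lo = true → (Gt i.castSucc qb).At 1 (1 / 2) (C0.v x) x)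
    (hb : lo = true → up = true → (Gt i.succ qb).At 1 (1 / 2) (C0.v x) x)
    (ht : ∃ t, chk3 (onCell 0 Wu 0 Wv Px Wx (fB12u far N0 C0 cn sn (decide (k.val ≤ KA))
      lo up (Gt j qa) (Gt k 3) (Gt i.castSucc qb) (Gt i.succ qb) D D3)) t 1 1 1 = true)
    (hR : Rng12 3 cn D D3 Wu Wv) (hx : (Px : ℝ) / S ≤ x)
    (hx' : x ≤ ((Px : ℝ) + Wx) / S) :
    Sg12Bu P RK RL far N0 cn qa qb j k sn i D D3 x := by
  intro y y' F hi hv c1 c2
  have hne := ne12 h F.q1 F.q2 hq hq'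
  obtain ⟨u, v, s, a, b, t, τ, w, P', R, u0, uu, v0, vv⟩ := cov12 hR
    (cell12 h hc F.q1 F.q2 F.q3 hq hq') hi hne (fun h => absurd h (by omega))
  have hv5 : 2 ≤ 5 * v := by
    obtain ⟨r1, r2, r3, r4, r5, r6⟩ := R
    have s0 := P'.s0
    have ht : c3n (y + y') = s * (1 - v) := by rw [← P'.ht, P'.hτ, r2]
    have hvv : vv12 cn y y' = s * v := by
      have hn : cn ≠ .nn := hR.2.2
      unfold vv12
      cases cn
      · exact hc.elim
      · exact absurd rfl hn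
      · exact hc.elim
      · show y - 1 = _
        have e1 := P'.e1
        simp only [tc1] at e1
        simp only [cs12] at r6
        rw [e1, r6]
        ring
      · exact hc.elim
      · show y' - 1 = _
        have e2 := P'.e2
        simp only [tc2] at e2
        simp only [cs12] at r5
        rw [e2, r5]
        ring
      · exact hc.elim
      · exact hc.elim
    rw [ht, hvv] at hv
    by_contra hh
    push Not at hh
    nlinarith
  refine con12B_of hq hq' side gn g3 hD ?_ F hi c1 c2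
  have key := cert12 (Q := fun u v x => 2 ≤ 5 * v → 0 < x → x < 1 →
    Rel12 3 cn u v s a b t τ w →
    (Gt j qa).At 1 (1 / 2) (C0.v x) x → (Gt k 3).At3 (decide (k.val ≤ KA)) (C0.v x) x →
    (lo = true → (Gt i.castSucc qb).At 1 (1 / 2) (C0.v x) x) →
    (lo = true → up = true → (Gt i.succ qb).At 1 (1 / 2) (C0.v x) x) →
    St12B far N0 cn y y' x (Gt j qa) (Gt k 3) (Gt i.castSucc qb) (Gt i.succ qb) D D3 sn
      (decide (k.val ≤ KA)))
    (f := fB12u far N0 C0 cn sn (decide (k.val ≤ KA)) lo up (Gt j qa) (Gt k 3)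
      (Gt i.castSucc qb) (Gt i.succ qb) D D3)
    (fun {E} {h'} {A} {B} {C} {p} {q} {x'} hA hB hC h v5 x0 x1 R h1 h2 ha hb => by
      unfold fB12u at h
      rcases bor_true h with h | h
      · have := ppos_sound (enc_sub (enc_pnc E 2) (enc_nat 5 hB)) h
        push_cast at this
        linarith
      · unfold fB12 at h
        obtain ⟨S', A, B, T, V', W, k1, k2, k3, k4, k5, k6, k⟩ := ch12_sound R hA hB h
        exact cB12_sound hc P' x0 x1 k1 k2 k3 k4 k5 hC h1 h2 ha hb k) ht u0 uu v0 vv hx hx'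
  exact key hv5 x0 x1 R h1 h2 ha hb

/-- The test that the third side does not reach a curve. -/
noncomputable def eB12 (cn : Con) (tn l2 : Bool) (G1 G2 Ga : Gn) (D D3 S A B T V : ℕ) : Bool :=
  frc (tcT1 cn A B) fun C1 => frc (tcT2 cn A B) fun C2 => frc (tcT3 cn A B) fun C3 =>
  frc (padd pone (pmn S C1)) fun Y1 => frc (padd pone (pmn S C2)) fun Y2 =>
  frc (padd (pnc 2) (pmn S C3)) fun Y3 => frc (pmn C1 (G1.xT Y1 pone)) fun z1 =>
  frc (sg tn (g3X l2 G2 Y3 T C3 V)) fun z3 => frc (psub z1 z3) fun az =>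
  frc (padd (phf pone) (pmn S az)) fun Z =>
  bor (ppos (psub (Ga.xV Y2) Z)) (out12 D D3 S C1 C2 C3)

/-- the test function -/
noncomputable def xB12 (kd : ℕ) (cn : Con) (tn l2 : Bool) (G1 G2 Ga : Gn) (D D3 : ℕ)
    (_h U V _X : ℕ) : Bool :=
  ch12 kd cn U V fun S A B T V _W => eB12 cn tn l2 G1 G2 Ga D D3 S A B T V

theorem eB12_sound {E : Pt} (hc : isC12 cn) {tn l2 : Bool} {G1 G2 Ga : Gn}
    {S' A B T V X : ℕ} {y y' s a b t τ w : ℝ} (P' : P12 cn y y' s a b t τ w)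
    (hS : Enc E S' s) (hA : Enc E A a) (hB : Enc E B b) (hT : Enc E T t) (hV : Enc E V τ)
    (hX : Enc E X x) (h1 : G1.At 1 (1 / 2) (C0.v x) x) (h2 : G2.At3 l2 (C0.v x) x)
    (ht : eB12 cn tn l2 G1 G2 Ga D D3 S' A B T V = true) (hin : In12 D D3 y y') :
    G1.xv y - sgr tn (G2.xv (c3r l2 (y + y'))) < Ga.xv y' := by
  have hC1 := enc_tcT1 cn hA hB
  have hC2 := enc_tcT2 cn hA hB
  have hC3 := enc_tcT3 cn hA hB
  obtain ⟨hY1, hY2, hY3, e3⟩ := P'.enc hc hS hA hB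
  have e1 : y - 1 = s * tc1 cn a b := by rw [P'.e1]; ring
  have e2 : y' - 1 = s * tc2 cn a b := by rw [P'.e2]; ring
  have hT2 : Enc E T (c3n (y + y')) := enc_cast hT P'.ht
  have ev : c3n (y + y') = s * τ := by rw [← P'.ht]; exact P'.hτ
  obtain ⟨⟨ξ1, a1, a2⟩, -, -⟩ := G1.slopes hY1 (enc_one E) hX
  obtain ⟨⟨ξ3, f1, f2⟩, -, -⟩ := g3_sound l2 G2 hY3 hT2 hC3 hV hX e3 ev h2
  rw [e1] at a2
  have z1 := enc_mn hC1 a1
  have z3 := enc_sg tn f1
  have az := enc_sub z1 z3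
  have hX12 : G1.xv y = 1 / 2 + s * (tc1 cn a b * ξ1) := by have := h1.X; linarith
  have hX13 : sgr tn (G2.xv (c3r l2 (y + y'))) = s * sgr tn ξ3 := by rw [f2, sgr_mul]
  have hZ : G1.xv y - sgr tn (G2.xv (c3r l2 (y + y'))) =
      1 / 2 + s * (tc1 cn a b * ξ1 - sgr tn ξ3) := by
    rw [hX12, hX13]
    ring
  have eZ := enc_add (enc_half (enc_one E)) (enc_mn hS az)
  rw [← hZ] at eZ
  unfold eB12 at ht
  simp only [frc_eq] at ht
  rcases bor_true ht with ht | ht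
  · obtain ⟨vx, -, -⟩ := Ga.values hY2 hX
    have := ppos_sound (enc_sub vx eZ) ht
    linarith
  · exact (out12_sound hS hC1 hC2 hC3 e1 e2 e3 hin ht).elim

/-- **The third side does not reach a curve.** -/
theorem ex12B_of (h : con qa qb 3 = some cn) (hc : isC12 cn) (hq : qa = 1 ∨ qa = 2)
    (hq' : qb = 1 ∨ qb = 2) {i : Fin (n + 1)}
    (gn : GnOk P RK RL Gt x) (g3 : Gn3 P RK RL Gt KA x)
    (hD : (D : ℝ) / S ≤ 1 / 8)
    (h1 : (Gt j qa).At 1 (1 / 2) (C0.v x) x)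
    (h2 : (Gt k 3).At3 (decide (k.val ≤ KA)) (C0.v x) x)
    (ht : ∃ t, chk3 (onCell 0 Wu 0 Wv Px Wx (xB12 kd cn sn (decide (k.val ≤ KA))
      (Gt j qa) (Gt k 3) (Gt i qb) D D3)) t 1 1 1 = true)
    (hR : Rng12 kd cn D D3 Wu Wv) (hk : kd ≤ 3) (hx : (Px : ℝ) / S ≤ x)
    (hx' : x ≤ ((Px : ℝ) + Wx) / S) :
    Ex12B P qa qb j k sn i D D3 := by
  intro y y' F hi
  have hne := ne12 h F.q1 F.q2 hq hq'
  obtain ⟨u, v, s, a, b, t, τ, w, P', R, u0, uu, v0, vv⟩ := cov12 hR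
    (cell12 h hc F.q1 F.q2 F.q3 hq hq') hi hne (fun h => absurd h (by omega))
  have key := cert12 (Q := fun u v x => Rel12 kd cn u v s a b t τ w →
    (Gt j qa).At 1 (1 / 2) (C0.v x) x → (Gt k 3).At3 (decide (k.val ≤ KA)) (C0.v x) x →
    (Gt j qa).xv y - sgr sn ((Gt k 3).xv (c3r (decide (k.val ≤ KA)) (y + y'))) < (Gt i qb).xv y')
    (f := xB12 kd cn sn (decide (k.val ≤ KA)) (Gt j qa) (Gt k 3) (Gt i qb) D D3)
    (fun hA hB hC h R h1 h2 => by
      unfold xB12 at h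
      obtain ⟨S', A, B, T, V', W, k1, k2, k3, k4, k5, k6, k⟩ := ch12_sound R hA hB h
      exact eB12_sound hc P' k1 k2 k3 k4 k5 hC h1 h2 k hi) ht u0 uu v0 vv hx hx' R h1 h2
  have q12 : qa ≤ 2 := by rcases hq with rfl | rfl <;> norm_num
  have q22 : qb ≤ 2 := by rcases hq' with rfl | rfl <;> norm_num
  have e1 : (jq qa : ℝ) = 1 := by rcases hq with rfl | rfl <;> simp [jq]
  have e2 : (jq qb : ℝ) = 1 := by rcases hq' with rfl | rfl <;> simp [jq]
  have d1 : |y - jq qa| ≤ 1 / 8 := by rw [e1]; exact (hi.1.le).trans hD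
  have d2 : |y' - jq qb| ≤ 1 / 8 := by rw [e2]; exact (hi.2.1.le).trans hD
  have ont : OnC i qb y' := ⟨F.q2, fun _ => by
    have hp := h0_pos
    have hh := h0_sq
    rw [e2] at d2
    have h1 := (abs_le.1 d2).2
    have : y' ≤ 9 / 8 := by linarith
    have := F.y0'
    nlinarith⟩
  rw [gn.xv q12 F.on1 d1, gn.xv q22 ont d2, g3.xv (j := k) F.q3] at key
  exact key

end

end Pool.Agent.Strip051.PB
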