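import Pool.Agent.Strip051.PB.Real

/-! # The slack from four linear inequalities

With the level `W1 - x D` (or `W3 - x D`) and the crude bound for the two short arcs the slack is
nonnegative if four inequalities hold which are linear in the values on the sides. -/

namespace Pool.Agent.Strip051.PB

open Pool.Agent.Strip051.LC
open Pool.Agent.Strip051.LC.Line (phi phi_comm phi_le_half phi_neg_pos)

/-- The two inequalities for a defect `d ≥ 0`: `l` is the short arc next to the positive end, `r`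
the sum of the short arcs, `p = k (1 - x) / 2`, `q = k x / 2`. -/
def LinC (x l r p q om d e : ℝ) : Prop :=
  p * (om + (1 - r) * d * (x * (1 + r) - l)) ≤ e ∧
    q * (-om + (1 - r) * d * (1 - x * (1 + r) + l)) ≤ e

/-- The mean of the positive part between two values of opposite sign. -/
theorem lin_opp {t q : ℝ} (ht : 0 ≤ t) (ht1 : t ≤ 1) (hq : 0 ≤ q) :
    Line.phi (t * q) (-((1 - t) * q)) = t ^ 2 * q / 2 := by
  have h1 : -((1 - t) * q) ≤ 0 := by nlinarith
  have h2 : 0 ≤ t * q := by positivity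
  rw [phi_comm, phi_neg_pos h1 h2]
  rcases hq.eq_or_lt with h | h
  · rw [← h]
    simp
  · have : 2 * (t * q - -((1 - t) * q)) = 2 * q := by ring
    rw [this]
    field_simp

/-- The flux for the level `(-om + D) / 2 - x D`. -/
theorem lin_aux {k x l l' p q om d e V : ℝ} (hx : 0 ≤ x) (hx1 : x ≤ 1) (hl : 0 ≤ l)
    (hl' : 0 ≤ l') (h12 : l + l' ≤ 1) (hd : 0 ≤ d) (hk : 0 ≤ k) (hp : k * (1 - x) = 2 * p)
    (hq : k * x = 2 * q) (hV : (l + l') * V = om - (1 - (l + l')) * d * (l - (l + l') * x))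
    (H : LinC x l (l + l') p q om d e) :
    k * (l * Line.phi (x * ((1 - (l + l')) * d)) V +
      l' * Line.phi V (-((1 - x) * ((1 - (l + l')) * d))) +
      (1 - (l + l')) * (x ^ 2 * ((1 - (l + l')) * d) / 2) +
      ((-om + (1 - (l + l')) * d) / 2 - x * ((1 - (l + l')) * d)) * x) ≤ e := by
  obtain ⟨H1, H2⟩ := H
  obtain ⟨D, hD⟩ : ∃ D, D = (1 - (l + l')) * d := ⟨_, rfl⟩
  rw [← hD] at H1 H2 hV ⊢
  have hD0 : 0 ≤ D := by
    rw [hD]
    exact mul_nonneg (by linarith) hd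
  have f12 := phi_le_half (x * D) V
  have f23 := phi_le_half V (-((1 - x) * D))
  have i1 : max (x * D) 0 = x * D := max_eq_left (by positivity)
  have i3 : max (-((1 - x) * D)) 0 = 0 := max_eq_right (by
    have := mul_nonneg (by linarith : 0 ≤ 1 - x) hD0
    linarith)
  rw [i1] at f12
  rw [i3] at f23
  have j1 := mul_le_mul_of_nonneg_left f12 hl
  have j2 := mul_le_mul_of_nonneg_left f23 hl'
  refine (mul_le_mul_of_nonneg_left (add_le_add_left (add_le_add_left (add_le_add j1 j2) _) _)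
    hk).trans ?_
  rcases le_total 0 V with h | h
  · rw [max_eq_left h]
    have e1 : k * (l * ((x * D + V) / 2) + l' * ((V + 0) / 2) +
        (1 - (l + l')) * (x ^ 2 * D / 2) + ((-om + D) / 2 - x * D) * x) =
        k * ((l + l') * V + l * x * D + (1 - (l + l')) * x ^ 2 * D - om * x + D * x -
          2 * x ^ 2 * D) / 2 := by ring
    rw [e1, hV]
    have e2 : k * (om - D * (l - (l + l') * x) + l * x * D + (1 - (l + l')) * x ^ 2 * D - om * x +
        D * x - 2 * x ^ 2 * D) / 2 = k * (1 - x) * (om + D * (x * (1 + (l + l')) - l)) / 2 := by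
      ring
    rw [e2, hp]
    linarith
  · rw [max_eq_right h]
    have e1 : k * (l * ((x * D + 0) / 2) + l' * ((0 + 0) / 2) +
        (1 - (l + l')) * (x ^ 2 * D / 2) + ((-om + D) / 2 - x * D) * x) =
        k * x * (-om + D * (1 - x * (1 + (l + l')) + l)) / 2 := by ring
    rw [e1, hq]
    linarith

/-- **The slack from four linear inequalities.** -/
theorem lin_slN {ex k x l1 l2 A1 A2 A3 p q : ℝ} (hx : 0 ≤ x) (hx1 : x ≤ 1) (h1 : 0 ≤ l1)
    (h2 : 0 ≤ l2) (h12 : l1 + l2 ≤ 1) (hk : 0 ≤ k) (hp : k * (1 - x) = 2 * p)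
    (hq : k * x = 2 * q)
    (H : 0 ≤ A1 + A2 - A3 →
      LinC x l1 (l1 + l2) p q (l1 * A2 - l2 * A1) (A1 + A2 - A3) ex)
    (H' : A1 + A2 - A3 ≤ 0 →
      LinC x l2 (l1 + l2) p q (l1 * A2 - l2 * A1) (-(A1 + A2 - A3)) ex) :
    ∃ g, 0 ≤ slN ex k x l1 l2 A1 A2 A3 g := by
  obtain ⟨om, hom⟩ : ∃ om, om = l1 * A2 - l2 * A1 := ⟨_, rfl⟩
  obtain ⟨d, hd⟩ : ∃ d, d = A1 + A2 - A3 := ⟨_, rfl⟩
  rw [← hom, ← hd] at H H'
  have hA3 : A3 = A1 + A2 - d := by linarith
  have w1 : pn1 l1 l2 A1 A2 A3 = (-om + (1 - (l1 + l2)) * d) / 2 := by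
    unfold pn1
    rw [hA3, hom]
    ring
  have w3 : pn3 l1 l2 A1 A2 A3 = (-om - (1 - (l1 + l2)) * d) / 2 := by
    unfold pn3
    rw [hA3, hom]
    ring
  obtain ⟨W2, hW2⟩ : ∃ W2, W2 = pn2 l1 l2 A1 A2 A3 := ⟨_, rfl⟩
  have w2 : (l1 + l2) * W2 = om * (1 - (l1 + l2) / 2) - (1 - (l1 + l2)) * d * (l1 - l2) / 2 := by
    rcases (add_nonneg h1 h2).eq_or_lt with h | h
    · have z1 : l1 = 0 := by linarith
      have z2 : l2 = 0 := by linarith
      rw [hom, z1, z2]
      ring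
    · have hl : lam l1 (l1 + l2) = l1 / (l1 + l2) := by
        unfold lam
        rw [← div_eq_mul_inv, max_eq_left (div_nonneg h1 h.le),
          min_eq_left ((div_le_one h).2 (by linarith))]
      rw [hW2]
      unfold pn2
      rw [hl, hA3, hom]
      field_simp
      ring
  have e3 : 1 - l1 - l2 = 1 - (l1 + l2) := by ring
  unfold slN stn
  rw [w1, w3, e3, ← hW2]
  have hkk := hk
  rcases le_total 0 d with hs | hs
  · refine ⟨(-om + (1 - (l1 + l2)) * d) / 2 - x * ((1 - (l1 + l2)) * d), ?_⟩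
    have hV : (l1 + l2) * (W2 - ((-om + (1 - (l1 + l2)) * d) / 2 - x * ((1 - (l1 + l2)) * d))) =
        om - (1 - (l1 + l2)) * d * (l1 - (l1 + l2) * x) := by
      rw [mul_sub, w2]
      ring
    have hF := lin_aux hx hx1 h1 h2 h12 hs hk hp hq hV (H hs)
    have g1 : (-om + (1 - (l1 + l2)) * d) / 2 -
        ((-om + (1 - (l1 + l2)) * d) / 2 - x * ((1 - (l1 + l2)) * d)) =
        x * ((1 - (l1 + l2)) * d) := by ring
    have g3 : (-om - (1 - (l1 + l2)) * d) / 2 -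
        ((-om + (1 - (l1 + l2)) * d) / 2 - x * ((1 - (l1 + l2)) * d)) =
        -((1 - x) * ((1 - (l1 + l2)) * d)) := by ring
    rw [g1, g3, phi_comm (-((1 - x) * ((1 - (l1 + l2)) * d))),
      lin_opp hx hx1 (mul_nonneg (by linarith) hs)]
    linarith
  · have hs' : 0 ≤ -d := by linarith
    refine ⟨(-om + (1 - (l1 + l2)) * -d) / 2 - x * ((1 - (l1 + l2)) * -d), ?_⟩
    have hV : (l2 + l1) * (W2 - ((-om + (1 - (l1 + l2)) * -d) / 2 -
        x * ((1 - (l1 + l2)) * -d))) =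
        om - (1 - (l2 + l1)) * -d * (l2 - (l2 + l1) * x) := by
      rw [mul_sub, add_comm l2 l1, w2]
      ring
    have H2 := H' hs
    rw [add_comm l1 l2] at H2
    have hF := lin_aux hx hx1 h2 h1 (by linarith) hs' hk hp hq hV H2
    rw [add_comm l2 l1] at hF
    have g3 : (-om - (1 - (l1 + l2)) * d) / 2 -
        ((-om + (1 - (l1 + l2)) * -d) / 2 - x * ((1 - (l1 + l2)) * -d)) =
        x * ((1 - (l1 + l2)) * -d) := by ring
    have g1 : (-om + (1 - (l1 + l2)) * d) / 2 -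
        ((-om + (1 - (l1 + l2)) * -d) / 2 - x * ((1 - (l1 + l2)) * -d)) =
        -((1 - x) * ((1 - (l1 + l2)) * -d)) := by ring
    rw [g1, g3, lin_opp hx hx1 (mul_nonneg (by linarith) hs')]
    obtain ⟨G, hG⟩ : ∃ G, G = (-om + (1 - (l1 + l2)) * -d) / 2 - x * ((1 - (l1 + l2)) * -d) :=
      ⟨_, rfl⟩
    rw [← hG] at hF ⊢
    rw [phi_comm (-((1 - x) * ((1 - (l1 + l2)) * -d))) (W2 - G),
      phi_comm (W2 - G) (x * ((1 - (l1 + l2)) * -d))]
    linarith

/-! ### The six cells with two short arcs -/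

/-- The first short arc. -/
def la1 : Con → ℝ → ℝ → ℝ → ℝ
  | .pp, u, _, _ => u
  | .nn, _, v, _ => -v
  | .pnp, _, _, w => w
  | .pnn, _, _, w => -w
  | .npp, u, _, _ => -u
  | .npn, _, v, _ => v
  | _, _, _, _ => 0

/-- The second short arc. -/
def la2 : Con → ℝ → ℝ → ℝ → ℝ
  | .pp, _, v, _ => v
  | .nn, u, _, _ => -u
  | .pnp, _, v, _ => -v
  | .pnn, u, _, _ => u
  | .npp, _, _, w => w
  | .npn, _, _, w => -w
  | _, _, _, _ => 0

/-- The moment of the values on the two short arcs. -/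
def lom : Con → ℝ → ℝ → ℝ → ℝ → ℝ → ℝ → ℝ
  | .pp, u, v, _, R1, R2, _ => v * R1 - u * R2
  | .nn, u, v, _, R1, R2, _ => v * R1 - u * R2
  | .pnp, _, v, w, _, R2, R3 => v * R3 - w * R2
  | .pnn, u, _, w, R1, _, R3 => w * R1 - u * R3
  | .npp, u, _, w, R1, _, R3 => w * R1 - u * R3
  | .npn, _, v, w, _, R2, R3 => v * R3 - w * R2
  | _, _, _, _, _, _, _ => 0

/-- **The slack in a cell from four linear inequalities.** -/
theorem lin_slc {c : Con} (hcu : c ≠ .up) (hcd : c ≠ .dn) {ex k x u v w R1 R2 R3 p q : ℝ}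
    (hx : 0 ≤ x) (hx1 : x ≤ 1) (h1 : 0 ≤ la1 c u v w) (h2 : 0 ≤ la2 c u v w)
    (h12 : la1 c u v w + la2 c u v w ≤ 1) (hk : 0 ≤ k) (hp : k * (1 - x) = 2 * p)
    (hq : k * x = 2 * q)
    (H : 0 ≤ R3 - R1 - R2 → LinC x (la1 c u v w) (la1 c u v w + la2 c u v w) p q
      (lom c u v w R1 R2 R3) (R3 - R1 - R2) ex)
    (H' : R3 - R1 - R2 ≤ 0 → LinC x (la2 c u v w) (la1 c u v w + la2 c u v w) p q
      (lom c u v w R1 R2 R3) (-(R3 - R1 - R2)) ex) :
    ∃ g, 0 ≤ slc c ex k x u v w R1 R2 R3 g := by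
  have main : ∀ l1 l2 A1 A2 A3 : ℝ, la1 c u v w = l1 → la2 c u v w = l2 →
      A1 + A2 - A3 = R3 - R1 - R2 → l1 * A2 - l2 * A1 = lom c u v w R1 R2 R3 →
      ∃ g, 0 ≤ slN ex k x l1 l2 A1 A2 A3 g := by
    intro l1 l2 A1 A2 A3 e1 e2 e3 e4
    rw [e1, e2, ← e3, ← e4] at H H'
    rw [e1] at h1 h12
    rw [e2] at h2 h12
    exact lin_slN hx hx1 h1 h2 h12 hk hp hq H H'
  cases c
  · exact main u v (-R1) (-R2) (-R3) rfl rfl (by ring) (by simp only [lom]; ring)
  · exact main (-v) (-u) (-R2) (-R1) (-R3) rfl rfl (by ring) (by simp only [lom]; ring)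
  · exact main w (-v) R3 (-R2) R1 rfl rfl (by ring) (by simp only [lom]; ring)
  · exact main (-w) u R3 (-R1) R2 rfl rfl (by ring) (by simp only [lom]; ring)
  · exact main (-u) w (-R1) R3 R2 rfl rfl (by ring) (by simp only [lom]; ring)
  · exact main v (-w) (-R2) R3 R1 rfl rfl (by ring) (by simp only [lom]; ring)
  · exact absurd rfl hcu
  · exact absurd rfl hcd

end Pool.Agent.Strip051.PB
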