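import Pool.Agent.Strip051.PB.CornL
import Pool.Agent.Strip051.PB.Lin

/-! # Charts at the corner `(1, 1, 2)`: the test with all rates

The heights are `1 + s c1`, `1 + s c2`, `2 + s c3`, the two short arcs are `s a` and `s b`; the
slack is bounded by four linear inequalities. -/

namespace Pool.Agent.Strip051.PB

attribute [local irreducible] padd psub pneg pmul psq pinv psqrt psqrtg pabs pps pmax pmin pphi plam
  pcase phf pnat prat pscale pnorm pdc pnc pone ppos pnn Enc pbad pzero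

/-! ### Directions -/

/-- The cells at the corner `(1, 1, 2)`. -/
def isC12 : Con → Prop
  | .nn => True
  | .npn => True
  | .pnn => True
  | _ => False

/-- direction of the height bottom-middle -/
def tc1 : Con → ℝ → ℝ → ℝ
  | .nn, _, b => -b
  | .npn, a, b => -(a + b)
  | .pnn, _, b => b
  | _, _, _ => 0

/-- direction of the height middle-top -/
def tc2 : Con → ℝ → ℝ → ℝ
  | .nn, a, _ => -a
  | .npn, a, _ => a
  | .pnn, a, b => -(a + b)
  | _, _, _ => 0

/-- direction of the height bottom-top -/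
def tc3 : Con → ℝ → ℝ → ℝ
  | .nn, a, b => -(a + b)
  | .npn, _, b => -b
  | .pnn, a, _ => -a
  | _, _, _ => 0

/-- the moment -/
def tom : Con → ℝ → ℝ → ℝ → ℝ → ℝ → ℝ
  | .nn, a, b, R1, R2, _ => b * R2 - a * R1
  | .npn, a, b, _, R2, R3 => a * R3 + b * R2
  | .pnn, a, b, R1, _, R3 => -(a * R1 + b * R3)
  | _, _, _, _, _, _ => 0

theorem tc_add {c : Con} (hc : isC12 c) (a b : ℝ) : tc1 c a b + tc2 c a b = tc3 c a b := by
  cases c <;> simp only [isC12] at hc <;> simp only [tc1, tc2, tc3] <;> ring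

/-- direction of the height bottom-middle, packed -/
noncomputable def tcT1 (c : Con) (A B : ℕ) : ℕ :=
  Con.rec (motive := fun _ => ℕ) (pnc 0) (pneg B) (pnc 0) B (pnc 0) (pneg (padd A B)) (pnc 0)
    (pnc 0) c

/-- direction of the height middle-top, packed -/
noncomputable def tcT2 (c : Con) (A B : ℕ) : ℕ :=
  Con.rec (motive := fun _ => ℕ) (pnc 0) (pneg A) (pnc 0) (pneg (padd A B)) (pnc 0) A (pnc 0)
    (pnc 0) c

/-- direction of the height bottom-top, packed -/
noncomputable def tcT3 (c : Con) (A B : ℕ) : ℕ :=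
  Con.rec (motive := fun _ => ℕ) (pnc 0) (pneg (padd A B)) (pnc 0) (pneg A) (pnc 0) (pneg B)
    (pnc 0) (pnc 0) c

/-- the moment, packed -/
noncomputable def tomT (c : Con) (A B R1 R2 R3 : ℕ) : ℕ :=
  Con.rec (motive := fun _ => ℕ) (pnc 0) (psub (pmn B R2) (pmn A R1)) (pnc 0)
    (pneg (padd (pmn A R1) (pmn B R3))) (pnc 0) (padd (pmn A R3) (pmn B R2)) (pnc 0) (pnc 0) c

section

variable {E : Pt} {A B R1 R2 R3 : ℕ} {a b r1 r2 r3 : ℝ}

theorem enc_tcT1 (c : Con) (h : Enc E A a) (h' : Enc E B b) : Enc E (tcT1 c A B) (tc1 c a b) := by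
  cases c
  · exact enc_pnc0' E
  · exact enc_neg h'
  · exact enc_pnc0' E
  · exact h'
  · exact enc_pnc0' E
  · exact enc_neg (enc_add h h')
  · exact enc_pnc0' E
  · exact enc_pnc0' E

theorem enc_tcT2 (c : Con) (h : Enc E A a) (h' : Enc E B b) : Enc E (tcT2 c A B) (tc2 c a b) := by
  cases c
  · exact enc_pnc0' E
  · exact enc_neg h
  · exact enc_pnc0' E
  · exact enc_neg (enc_add h h')
  · exact enc_pnc0' E
  · exact h
  · exact enc_pnc0' E
  · exact enc_pnc0' E

theorem enc_tcT3 (c : Con) (h : Enc E A a) (h' : Enc E B b) : Enc E (tcT3 c A B) (tc3 c a b) := by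
  cases c
  · exact enc_pnc0' E
  · exact enc_neg (enc_add h h')
  · exact enc_pnc0' E
  · exact enc_neg h
  · exact enc_pnc0' E
  · exact enc_neg h'
  · exact enc_pnc0' E
  · exact enc_pnc0' E

theorem enc_tomT (c : Con) (h : Enc E A a) (h' : Enc E B b) (h1 : Enc E R1 r1) (h2 : Enc E R2 r2)
    (h3 : Enc E R3 r3) : Enc E (tomT c A B R1 R2 R3) (tom c a b r1 r2 r3) := by
  cases c
  · exact enc_pnc0' E
  · exact enc_sub (enc_mn h' h2) (enc_mn h h1)
  · exact enc_pnc0' E
  · exact enc_neg (enc_add (enc_mn h h1) (enc_mn h' h3))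
  · exact enc_pnc0' E
  · exact enc_add (enc_mn h h3) (enc_mn h' h2)
  · exact enc_pnc0' E
  · exact enc_pnc0' E

end

/-! ### The linear test -/

/-- the two inequalities or the sign of the defect -/
noncomputable def linT (X S L RR p q om d e k : ℕ) : Bool :=
  Bool.rec (motive := fun _ => Bool) (ppos (pneg d))
    ((fun D w => band (pnn (psub e (pmn p (padd om (pmn D w)))))
      (pnn (psub e (pmn q (psub (pmn D (psub pone w)) om)))))
      (pmn (psub pone RR) d) (psub (padd X (pmn X RR)) (pmn S L))) (Nat.beq k 0)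

theorem linT_sound {E : Pt} {X S L RR P Q O D e' k : ℕ} {x s l p q om d e rr : ℝ}
    (hx : Enc E X x) (hs : Enc E S s) (hl : Enc E L l) (hr : Enc E RR rr) (hp : Enc E P p)
    (hq : Enc E Q q) (ho : Enc E O om) (hd : Enc E D d) (he : Enc E e' e)
    (h : linT X S L RR P Q O D e' k = true) :
    d < 0 ∨ (p * (om + (1 - rr) * d * (x * (1 + rr) - s * l)) ≤ e ∧
      q * (-om + (1 - rr) * d * (1 - x * (1 + rr) + s * l)) ≤ e) := by
  have k1 := enc_one E
  unfold linT at h
  rcases brec h with h | h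
  · left
    have := ppos_sound (enc_neg hd) h
    linarith
  · right
    obtain ⟨h1, h2⟩ := band_true h
    have hD := enc_mn (enc_sub k1 hr) hd
    have hw := enc_sub (enc_add hx (enc_mn hx hr)) (enc_mn hs hl)
    have e1 := pnn_sound (enc_sub he (enc_mn hp (enc_add ho (enc_mn hD hw)))) h1
    have e2 := pnn_sound (enc_sub he (enc_mn hq (enc_sub (enc_mn hD (enc_sub k1 hw)) ho))) h2
    constructor
    · have : x * (1 + rr) - s * l = x + x * rr - s * l := by ring
      rw [this]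
      linarith
    · have : -om + (1 - rr) * d * (1 - x * (1 + rr) + s * l) =
        (1 - rr) * d * (1 - (x + x * rr - s * l)) - om := by ring
      rw [this]
      linarith

/-- both signs of the defect for the excess `e` -/
noncomputable def lsgT (X S A B RR p q om d : ℕ) (h e : ℕ) : Bool :=
  band (linT X S A RR p q om d e (Nat.land h 3))
    (linT X S B RR p q om (pneg d) e (Nat.land (Nat.shiftRight h 2) 3))

/-- The two linear conditions. -/
def LinOk (x s a b p q om d e : ℝ) : Prop :=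
  (d < 0 ∨ (p * (om + (1 - s * (a + b)) * d * (x * (1 + s * (a + b)) - s * a)) ≤ e ∧
    q * (-om + (1 - s * (a + b)) * d * (1 - x * (1 + s * (a + b)) + s * a)) ≤ e)) ∧
  (-d < 0 ∨ (p * (om + (1 - s * (a + b)) * -d * (x * (1 + s * (a + b)) - s * b)) ≤ e ∧
    q * (-om + (1 - s * (a + b)) * -d * (1 - x * (1 + s * (a + b)) + s * b)) ≤ e))

theorem lsgT_sound {E : Pt} {X S A B RR P Q O D e' h : ℕ} {x s a b p q om d e : ℝ}
    (hx : Enc E X x) (hs : Enc E S s) (ha : Enc E A a) (hb : Enc E B b)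
    (hr : Enc E RR (s * (a + b))) (hp : Enc E P p)
    (hq : Enc E Q q) (ho : Enc E O om) (hd : Enc E D d) (he : Enc E e' e)
    (ht : lsgT X S A B RR P Q O D h e' = true) : LinOk x s a b p q om d e := by
  obtain ⟨h1, h2⟩ := band_true ht
  exact ⟨linT_sound hx hs ha hr hp hq ho hd he h1,
    linT_sound hx hs hb hr hp hq ho (enc_neg hd) he h2⟩

/-- the conditions scaled back to the triangle -/
theorem LinOk.row {c : Con} (hc : isC12 c) {x s a b p q c0 r1 r2 r3 e : ℝ}
    (h : LinOk x s a b p q (tom c a b (c0 / 2 + s * r1) (-(c0 / 2) + s * r2) (s * r3))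
      (r3 - (r1 + r2)) e) (hx : 0 ≤ x) (hx1 : x ≤ 1) (hs : 0 ≤ s) (ha : 0 ≤ a) (hb : 0 ≤ b)
    (hab : s * (a + b) ≤ 1) {k : ℝ} (hk : 0 ≤ k) (hp : k * (1 - x) = 2 * p)
    (hq : k * x = 2 * q) :
    ∃ g, 0 ≤ slc c (s * e) k x (s * tc1 c a b) (s * tc2 c a b) (s * tc3 c a b)
      (c0 / 2 + s * r1) (-(c0 / 2) + s * r2) (s * r3) g := by
  obtain ⟨H1, H2⟩ := h
  have l1 : la1 c (s * tc1 c a b) (s * tc2 c a b) (s * tc3 c a b) = s * a := by
    cases c <;> simp only [isC12] at hc <;> simp only [la1, tc2, tc3] <;> ring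
  have l2 : la2 c (s * tc1 c a b) (s * tc2 c a b) (s * tc3 c a b) = s * b := by
    cases c <;> simp only [isC12] at hc <;> simp only [la2, tc1, tc3] <;> ring
  have l3 : lom c (s * tc1 c a b) (s * tc2 c a b) (s * tc3 c a b) (c0 / 2 + s * r1)
      (-(c0 / 2) + s * r2) (s * r3) =
      s * tom c a b (c0 / 2 + s * r1) (-(c0 / 2) + s * r2) (s * r3) := by
    cases c <;> simp only [isC12] at hc <;> simp only [lom, tom, tc1, tc2, tc3] <;> ring
  have l4 : s * r3 - (c0 / 2 + s * r1) - (-(c0 / 2) + s * r2) = s * (r3 - (r1 + r2)) := by ring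
  have hu : c ≠ .up := by rintro rfl; exact hc
  have hd : c ≠ .dn := by rintro rfl; exact hc
  obtain ⟨om, hom⟩ : ∃ om, om = tom c a b (c0 / 2 + s * r1) (-(c0 / 2) + s * r2) (s * r3) :=
    ⟨_, rfl⟩
  obtain ⟨d, hdd⟩ : ∃ d, d = r3 - (r1 + r2) := ⟨_, rfl⟩
  rw [← hom, ← hdd] at H1 H2
  refine lin_slc hu hd hx hx1 (by rw [l1]; positivity) (by rw [l2]; positivity)
    (by rw [l1, l2]; linarith) hk hp hq ?_ ?_
  · intro h0
    rw [l4, ← hdd] at h0
    rw [l1, l2, l3, l4, ← hom, ← hdd, show s * a + s * b = s * (a + b) by ring]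
    have key : ∀ X Y : ℝ, (s = 0 ∨ X ≤ Y) → s * X ≤ s * Y := fun X Y h => by
      rcases h with h | h
      · rw [h]; simp
      · exact mul_le_mul_of_nonneg_left h hs
    have hz : s = 0 ∨ (p * (om + (1 - s * (a + b)) * d * (x * (1 + s * (a + b)) - s * a)) ≤ e ∧
        q * (-om + (1 - s * (a + b)) * d * (1 - x * (1 + s * (a + b)) + s * a)) ≤ e) := by
      rcases H1 with h | h
      · left
        by_contra hne
        have : 0 < s := lt_of_le_of_ne hs (Ne.symm hne)
        nlinarith [mul_neg_of_pos_of_neg this h]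
      · exact Or.inr h
    constructor
    · have := key _ _ (hz.imp id And.left)
      linarith [this, show p * (s * om + (1 - s * (a + b)) * (s * d) *
        (x * (1 + s * (a + b)) - s * a)) = s * (p * (om + (1 - s * (a + b)) * d *
        (x * (1 + s * (a + b)) - s * a))) by ring]
    · have := key _ _ (hz.imp id And.right)
      linarith [this, show q * (-(s * om) + (1 - s * (a + b)) * (s * d) *
        (1 - x * (1 + s * (a + b)) + s * a)) = s * (q * (-om + (1 - s * (a + b)) * d *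
        (1 - x * (1 + s * (a + b)) + s * a))) by ring]
  · intro h0
    rw [l4, ← hdd] at h0
    rw [l1, l2, l3, l4, ← hom, ← hdd, show s * a + s * b = s * (a + b) by ring]
    have key : ∀ X Y : ℝ, (s = 0 ∨ X ≤ Y) → s * X ≤ s * Y := fun X Y h => by
      rcases h with h | h
      · rw [h]; simp
      · exact mul_le_mul_of_nonneg_left h hs
    have hz : s = 0 ∨ (p * (om + (1 - s * (a + b)) * -d * (x * (1 + s * (a + b)) - s * b)) ≤ e ∧
        q * (-om + (1 - s * (a + b)) * -d * (1 - x * (1 + s * (a + b)) + s * b)) ≤ e) := by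
      rcases H2 with h | h
      · left
        by_contra hne
        have : 0 < s := lt_of_le_of_ne hs (Ne.symm hne)
        nlinarith [mul_neg_of_pos_of_neg this h]
      · exact Or.inr h
    constructor
    · have := key _ _ (hz.imp id And.left)
      linarith [this, show p * (s * om + (1 - s * (a + b)) * (-(s * d)) *
        (x * (1 + s * (a + b)) - s * b)) = s * (p * (om + (1 - s * (a + b)) * -d *
        (x * (1 + s * (a + b)) - s * b))) by ring]
    · have := key _ _ (hz.imp id And.right)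
      linarith [this, show q * (-(s * om) + (1 - s * (a + b)) * (-(s * d)) *
        (1 - x * (1 + s * (a + b)) + s * b)) = s * (q * (-om + (1 - s * (a + b)) * -d *
        (1 - x * (1 + s * (a + b)) + s * b))) by ring]

/-! ### The final test -/

/-- the test with all rates -/
noncomputable def r12T (far : Bool) (N0 : ℕ) (c : Con) (h S A B X C1 C3 Y1 Y2 Y3 c0 z1 z3 r1 r2 r3
    l1 l2 l3 : ℕ) : Bool :=
  frc (tomT c A B (padd (phf c0) (pmn S r1)) (psub (pmn S r2) (phf c0)) (pmn S r3)) fun om =>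
  frc (psub r3 (padd r1 r2)) fun d =>
  frc (phf (padd (psub (padd (phf C3) (padd z1 z1)) z3)
      (pmn S (psub (pmn z1 C3) (pmn z3 C1))))) fun E0 =>
  frc (pmn S (padd A B)) fun RR =>
  frc (pmn (esT X) (pinv X)) fun p => frc (pmn (esT X) (pinv (psub pone X))) fun q =>
  finT (lsgT X S A B RR p q om d) far N0 h X Y1 Y2 Y3 E0 l1 l2 l3

theorem r12T_sound {E : Pt} {far : Bool} {N0 : ℕ} {c : Con} (hc : isC12 c)
    {h S' A B X C1 C3 Y1 Y2 Y3 C0 Z1 Z3 K1 K2 K3 L1 L2 L3 : ℕ}
    {s a b x c0 z1 z3 r1 r2 r3 l1 l2 l3 X12 X13 y y' v1 v2 v3 w1 w2 w3 : ℝ}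
    (hs0 : 0 ≤ s) (ha0 : 0 ≤ a) (hb0 : 0 ≤ b) (hab : s * (a + b) ≤ 1) (x0 : 0 < x) (x1 : x < 1)
    (hS : Enc E S' s) (hA : Enc E A a) (hB : Enc E B b) (hX : Enc E X x)
    (hC1 : Enc E C1 (tc1 c a b)) (hC3 : Enc E C3 (tc3 c a b))
    (hY1 : Enc E Y1 y) (hY2 : Enc E Y2 y') (hY3 : Enc E Y3 (y + y')) (hC0 : Enc E C0 c0)
    (hz1 : Enc E Z1 z1) (hz3 : Enc E Z3 z3) (hr1 : Enc E K1 r1) (hr2 : Enc E K2 r2)
    (hr3 : Enc E K3 r3) (hl1 : Enc E L1 l1) (hl2 : Enc E L2 l2) (hl3 : Enc E L3 l3)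
    (hy : y = 1 + s * tc1 c a b) (hy' : y' = 1 + s * tc2 c a b)
    (hX12 : X12 = 1 / 2 + s * z1) (hX13 : X13 = s * z3)
    (hv1 : v1 = c0 / 2 + s * r1) (hv2 : v2 = -(c0 / 2) + s * r2)
    (hv3 : v3 = s * r3) (hw1 : w1 = s * l1) (hw2 : w2 = s * l2) (hw3 : w3 = s * l3)
    (ht : r12T far N0 c h S' A B X C1 C3 Y1 Y2 Y3 C0 Z1 Z3 K1 K2 K3 L1 L2 L3 = true) :
    ∃ g, 0 ≤ slc c (levR far N0 x y y' (exn' X12 X13 y (y + y')) w1 w2 w3) (ken x) x
      (s * tc1 c a b) (s * tc2 c a b) (s * tc3 c a b) v1 v2 v3 g := by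
  unfold r12T at ht
  simp only [frc_eq] at ht
  have x1' : (1 : ℝ) - x ≠ 0 := by linarith
  have hp : Enc E (pmn (esT X) (pinv X)) (esn x / x) := by
    rw [div_eq_mul_inv]
    exact enc_mn (enc_esT hX) (enc_inv hX)
  have hq : Enc E (pmn (esT X) (pinv (psub pone X))) (esn x / (1 - x)) := by
    rw [div_eq_mul_inv]
    exact enc_mn (enc_esT hX) (enc_inv (enc_sub (enc_one E) hX))
  have hh := enc_half hC0
  have hom : Enc E (tomT c A B (padd (phf C0) (pmn S' K1)) (psub (pmn S' K2) (phf C0))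
      (pmn S' K3)) (tom c a b (c0 / 2 + s * r1) (-(c0 / 2) + s * r2) (s * r3)) :=
    enc_tomT c hA hB (enc_add hh (enc_mn hS hr1))
      (enc_cast (enc_sub (enc_mn hS hr2) hh) (by ring)) (enc_mn hS hr3)
  have hd : Enc E (psub K3 (padd K1 K2)) (r3 - (r1 + r2)) := enc_sub hr3 (enc_add hr1 hr2)
  obtain ⟨e0, he0⟩ : ∃ e0, e0 = (tc3 c a b / 2 + (z1 + z1) - z3 +
    s * (z1 * tc3 c a b - z3 * tc1 c a b)) / 2 := ⟨_, rfl⟩
  have he : Enc E (phf (padd (psub (padd (phf C3) (padd Z1 Z1)) Z3)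
      (pmn S' (psub (pmn Z1 C3) (pmn Z3 C1))))) e0 := by
    rw [he0]
    exact enc_half (enc_add (enc_sub (enc_add (enc_half hC3) (enc_add hz1 hz1)) hz3)
      (enc_mn hS (enc_sub (enc_mn hz1 hC3) (enc_mn hz3 hC1))))
  have hrr : Enc E (pmn S' (padd A B)) (s * (a + b)) := enc_mn hS (enc_add hA hB)
  have y3 : y + y' = 2 + s * tc3 c a b := by
    rw [hy, hy', ← tc_add hc]
    ring
  have hex : exn' X12 X13 y (y + y') = s * e0 := by
    unfold exn'
    rw [hX12, hX13, y3, hy, he0]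
    ring
  have fin : ∀ e : ℝ, LinOk x s a b (esn x / x) (esn x / (1 - x))
      (tom c a b (c0 / 2 + s * r1) (-(c0 / 2) + s * r2) (s * r3)) (r3 - (r1 + r2)) e →
      levR far N0 x y y' (exn' X12 X13 y (y + y')) w1 w2 w3 = s * e →
      ∃ g, 0 ≤ slc c (levR far N0 x y y' (exn' X12 X13 y (y + y')) w1 w2 w3) (ken x) x
        (s * tc1 c a b) (s * tc2 c a b) (s * tc3 c a b) v1 v2 v3 g := by
    intro e hok hlev
    rw [hlev, hv1, hv2, hv3]
    exact hok.row hc x0.le x1.le hs0 ha0 hb0 hab (ken_nonneg x0.le x1.le) (ken_p x0 x1)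
      (ken_q x0 x1)
  have cone : ∀ {e : ℝ} {L k : ℕ}, Enc E L e → lsgT X S' A B (pmn S' (padd A B))
      (pmn (esT X) (pinv X)) (pmn (esT X) (pinv (psub pone X)))
      (tomT c A B (padd (phf C0) (pmn S' K1)) (psub (pmn S' K2) (phf C0)) (pmn S' K3))
      (psub K3 (padd K1 K2)) k L = true → LinOk x s a b (esn x / x) (esn x / (1 - x))
      (tom c a b (c0 / 2 + s * r1) (-(c0 / 2) + s * r2) (s * r3)) (r3 - (r1 + r2)) e :=
    fun hL hk => lsgT_sound hX hS hA hB hrr hp hq hom hd hL hk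
  have hSl := enc_sub (enc_add hl1 hl2) hl3
  cases far
  · unfold finT at ht
    obtain ⟨t1, t2⟩ := band_true ht
    have hM := enc_muT N0 hX
    have hF := enc_sub he (enc_mn hM (enc_half (enc_sub (enc_mn hY1 hl2) (enc_mn hY2 hl1))))
    have hG := enc_mn hM (enc_mn (enc_sub (enc_add (enc_phn E N0) (enc_half hX)) (enc_half hY3))
      hSl)
    have o1 := cone (enc_add hF hG) t1
    have o2 := cone (enc_sub hF hG) t2
    have eA : mun N0 x * levn N0 0 x y y' w1 w2 w3 = s * (-(mun N0 x * ((y * l2 - y' * l1) / 2)) +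
        mun N0 x * (((N0 : ℝ) / 2 + x / 2 - (y + y') / 2) * (l1 + l2 - l3))) := by
      unfold levn
      rw [hw1, hw2, hw3]
      ring
    have eB : mun N0 x * levm N0 0 x y y' w1 w2 w3 = s * (-(mun N0 x * ((y * l2 - y' * l1) / 2)) -
        mun N0 x * (((N0 : ℝ) / 2 + x / 2 - (y + y') / 2) * (l1 + l2 - l3))) := by
      unfold levm
      rw [hw1, hw2, hw3]
      ring
    rcases le_total (levn N0 0 x y y' w1 w2 w3) (levm N0 0 x y y' w1 w2 w3) with h | h
    · refine fin _ o1 ?_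
      unfold levR
      simp only [cond_false]
      unfold levN
      rw [min_eq_left h, eA, hex]
      ring
    · refine fin _ o2 ?_
      unfold levR
      simp only [cond_false]
      unfold levN
      rw [min_eq_right h, eB, hex]
      ring
  · unfold finT at ht
    obtain ⟨t1, t2⟩ := band_true ht
    have o1 := cone (enc_add he (enc_half hSl)) t1
    have o2 := cone (enc_sub he (enc_half hSl)) t2
    have e : w1 + w2 - w3 = s * (l1 + l2 - l3) := by
      rw [hw1, hw2, hw3]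
      ring
    rcases le_total 0 (l1 + l2 - l3) with h | h
    · refine fin _ o2 ?_
      unfold levR
      simp only [cond_true]
      unfold levF
      rw [e, abs_of_nonneg (mul_nonneg hs0 h), hex]
      ring
    · refine fin _ o1 ?_
      unfold levR
      simp only [cond_true]
      unfold levF
      rw [e, abs_of_nonpos (mul_nonpos_of_nonneg_of_nonpos hs0 h), hex]
      ring

end Pool.Agent.Strip051.PB
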