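import Pool.Agent.Strip051.PB.C12W
import Pool.Agent.Strip051.PB.C12A
import Pool.Agent.Strip051.PB.CornV

/-! # The corner (1, 1, 2), both vertices: certificates and segments of the near part -/

namespace Pool.Agent.Strip051.PB

open Pool.Agent.StripNear Pool.Agent.StripSquare Pool.Agent.Strip051.Sweep
open Pool.Agent.Strip051.LC

attribute [local irreducible] padd psub pneg pmul psq pinv psqrt psqrtg pabs pps pmax pmin pphi plam
  pcase phf pnat prat pscale pnorm pdc pnc pone ppos pnn Enc pbad pzero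

/-! ### The certificates -/

/-- the test function, family `A` -/
noncomputable def fA12W (kd : ℕ) (N0 : ℕ) (C0 En mo : Fn1) (cn : Con) (tt la lb : Bool)
    (G1 G2 Ga Gb : Gn) (D1 D2 Da Db : CnW) (D D3 : ℕ) (h U V X : ℕ) : Bool :=
  ch12 kd cn U V fun S A B T V W =>
    cA12W N0 C0 En mo cn tt la lb G1 G2 Ga Gb D1 D2 Da Db D D3 h S A B T V W X

/-- the test function, family `B` -/
noncomputable def fB12W (kd : ℕ) (N0 : ℕ) (C0 En mo : Fn1) (cn : Con) (tn l2 lo up : Bool)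
    (G1 G2 Ga Gb : Gn) (D1 D2 Da Db : CnW) (D D3 : ℕ) (h U V X : ℕ) : Bool :=
  ch12 kd cn U V fun S A B T V W =>
    cB12W N0 C0 En mo cn tn l2 lo up G1 G2 Ga Gb D1 D2 Da Db D D3 h S A B T V W X

section

variable {kd : ℕ} {N0 : ℕ} {C0 En mo : Fn1} {cn : Con} {tt la lb tn l2 lo up : Bool}
  {G1 G2 Ga Gb : Gn} {D1 D2 Da Db : CnW} {D D3 Wu Wv Px Wx : ℕ} {y y' u v s a b t τ w x : ℝ}

/-- **From the certificate of a chart to the statement**, family `A`. -/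
theorem st12AW_cert (hc : isC12 cn) (hab : lb = true → la = true)
    (P : P12 cn y y' s a b t τ w) (R : Rel12 kd cn u v s a b t τ w) (x0 : 0 < x) (x1 : x < 1)
    (h1 : G1.At 1 (1 / 2) (C0.v x) x) (h2 : G2.At 1 (1 / 2) (C0.v x) x)
    (ha : Ga.At3 la (C0.v x) x) (hb : Gb.At3 lb (C0.v x) x)
    (g1 : (G1.c D1).At 1 (1 / 2) 0 x) (g2 : (G2.c D2).At 1 (1 / 2) 0 x)
    (ga : (Ga.c Da).At3 la 0 x) (gb : (Gb.c Db).At3 lb 0 x)
    (ht : ∃ t, chk3 (onCell 0 Wu 0 Wv Px Wx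
      (fA12W kd N0 C0 En mo cn tt la lb G1 G2 Ga Gb D1 D2 Da Db D D3)) t 1 1 1 = true)
    (hu : 0 ≤ u) (hu' : u ≤ (Wu : ℝ) / S) (hv : 0 ≤ v) (hv' : v ≤ (Wv : ℝ) / S)
    (hx : (Px : ℝ) / S ≤ x) (hx' : x ≤ ((Px : ℝ) + Wx) / S) :
    St12AW N0 (En.v x) (mo.v x) cn y y' x G1 G2 Ga Gb D1 D2 Da Db D D3 tt la lb := by
  have key := cert12 (Q := fun u v x => 0 < x → x < 1 → Rel12 kd cn u v s a b t τ w →
    G1.At 1 (1 / 2) (C0.v x) x → G2.At 1 (1 / 2) (C0.v x) x → Ga.At3 la (C0.v x) x →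
    Gb.At3 lb (C0.v x) x → (G1.c D1).At 1 (1 / 2) 0 x → (G2.c D2).At 1 (1 / 2) 0 x →
    (Ga.c Da).At3 la 0 x → (Gb.c Db).At3 lb 0 x → St12AW N0 (En.v x) (mo.v x) cn y y' x G1 G2 Ga Gb D1 D2 Da Db D D3 tt la lb)
    (f := fA12W kd N0 C0 En mo cn tt la lb G1 G2 Ga Gb D1 D2 Da Db D D3) (fun hA hB hC h x0 x1 R h1 h2 ha hb g1 g2 ga gb => by
      unfold fA12W at h
      obtain ⟨S', A, B, T, V', W, k1, k2, k3, k4, k5, k6, k⟩ := ch12_sound R hA hB h
      exact cA12W_sound hc hab P x0 x1 k1 k2 k3 k4 k5 k6 hC h1 h2 ha hb g1 g2 ga gb k) ht hu hu' hv hv' hx hx'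
  exact key x0 x1 R h1 h2 ha hb g1 g2 ga gb

/-- **From the certificate of a chart to the statement**, family `B`. -/
theorem st12BW_cert (hc : isC12 cn)
    (P : P12 cn y y' s a b t τ w) (R : Rel12 kd cn u v s a b t τ w) (x0 : 0 < x) (x1 : x < 1)
    (h1 : G1.At 1 (1 / 2) (C0.v x) x) (h2 : G2.At3 l2 (C0.v x) x)
    (ha : lo = true → Ga.At 1 (1 / 2) (C0.v x) x)
    (hb : lo = true → up = true → Gb.At 1 (1 / 2) (C0.v x) x)
    (g1 : (G1.c D1).At 1 (1 / 2) 0 x) (g2 : (G2.c D2).At3 l2 0 x)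
    (ga : lo = true → (Ga.c Da).At 1 (1 / 2) 0 x)
    (gb : lo = true → up = true → (Gb.c Db).At 1 (1 / 2) 0 x)
    (ht : ∃ t, chk3 (onCell 0 Wu 0 Wv Px Wx
      (fB12W kd N0 C0 En mo cn tn l2 lo up G1 G2 Ga Gb D1 D2 Da Db D D3)) t 1 1 1 = true)
    (hu : 0 ≤ u) (hu' : u ≤ (Wu : ℝ) / S) (hv : 0 ≤ v) (hv' : v ≤ (Wv : ℝ) / S)
    (hx : (Px : ℝ) / S ≤ x) (hx' : x ≤ ((Px : ℝ) + Wx) / S) :
    St12BW N0 (En.v x) (mo.v x) cn y y' x G1 G2 Ga Gb D1 D2 Da Db D D3 tn l2 := by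
  have key := cert12 (Q := fun u v x => 0 < x → x < 1 → Rel12 kd cn u v s a b t τ w →
    G1.At 1 (1 / 2) (C0.v x) x → G2.At3 l2 (C0.v x) x →
    (lo = true → Ga.At 1 (1 / 2) (C0.v x) x) →
    (lo = true → up = true → Gb.At 1 (1 / 2) (C0.v x) x) →
    (G1.c D1).At 1 (1 / 2) 0 x → (G2.c D2).At3 l2 0 x →
    (lo = true → (Ga.c Da).At 1 (1 / 2) 0 x) →
    (lo = true → up = true → (Gb.c Db).At 1 (1 / 2) 0 x) →
    St12BW N0 (En.v x) (mo.v x) cn y y' x G1 G2 Ga Gb D1 D2 Da Db D D3 tn l2)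
    (f := fB12W kd N0 C0 En mo cn tn l2 lo up G1 G2 Ga Gb D1 D2 Da Db D D3)
    (fun hA hB hC h x0 x1 R h1 h2 ha hb g1 g2 ga gb => by
      unfold fB12W at h
      obtain ⟨S', A, B, T, V', W, k1, k2, k3, k4, k5, k6, k⟩ := ch12_sound R hA hB h
      exact cB12W_sound hc P x0 x1 k1 k2 k3 k4 k5 hC h1 h2 ha hb g1 g2 ga gb k) ht hu hu' hv hv' hx hx'
  exact key x0 x1 R h1 h2 ha hb g1 g2 ga gb

end

/-! ### The segments -/

section

variable {n : ℕ}

/-- The slopes of the third kernel in the quarter `3`. -/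
structure Gc3 (RC : Fin (n + 1) → ℕ → ℝ → ℝ → ℝ) (Gt : Fin (n + 1) → ℕ → Gn)
    (Dt : Fin (n + 1) → ℕ → CnW) (KA : ℕ) (x : ℝ) : Prop where
  kv : ∀ {j : Fin (n + 1)} {y : ℝ}, InQ 3 y →
    ((Gt j 3).c (Dt j 3)).kv (c3r (decide (j.val ≤ KA)) y) x = RC j 3 y x

/-- The row at the corner `(1, 1, 2)` if the third side lies on the segment `i`, family `A`. -/
def Sg12AW (P : Pos n) (RK RL RC : Fin (n + 1) → ℕ → ℝ → ℝ → ℝ) (N0 : ℕ) (En mo : ℝ) (cn : Con)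
    (qa qb : ℕ) (j k : Fin (n + 1)) (tt : Bool) (i : Fin n) (D D3 : ℕ) (x : ℝ) : Prop :=
  ∀ y y', FactsA P qa qb 3 j k 1 (-1) y y' → In12 D D3 y y' →
    crv P i.castSucc 3 (y + y') ≤ sgr tt (crv P j qa y - crv P k qb y') →
    sgr tt (crv P j qa y - crv P k qb y') ≤ crv P i.succ 3 (y + y') →
    Con12W N0 En mo cn y y' x (crv P j qa y) (crv P j qa y - crv P k qb y') (RK j qa y x)
      (-RK k qb y' x) (thd P RK 3 (crv P j qa y - crv P k qb y') (y + y') x) (RL j qa y x)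
      (-RL k qb y' x) (thd P RL 3 (crv P j qa y - crv P k qb y') (y + y') x) (RC j qa y x)
      (-RC k qb y' x) (thd P RC 3 (crv P j qa y - crv P k qb y') (y + y') x)

/-- The row at the corner `(1, 1, 2)` if the third side lies on the segment `i`, family `B`; `sn`
is the sign of the side bottom-top. -/
def Sg12BW (P : Pos n) (RK RL RC : Fin (n + 1) → ℕ → ℝ → ℝ → ℝ) (N0 : ℕ) (En mo : ℝ) (cn : Con)
    (qa qb : ℕ) (j k : Fin (n + 1)) (sn : Bool) (i : Fin n) (D D3 : ℕ) (x : ℝ) : Prop :=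
  ∀ y y', FactsB P qa qb 3 j k 1 (sgb sn) y y' → In12 D D3 y y' →
    crv P i.castSucc qb y' ≤ crv P j qa y - sgr sn (crv P k 3 (y + y')) →
    crv P j qa y - sgr sn (crv P k 3 (y + y')) ≤ crv P i.succ qb y' →
    Con12W N0 En mo cn y y' x (crv P j qa y) (sgr sn (crv P k 3 (y + y'))) (RK j qa y x)
      (thd P RK qb (sgr sn (crv P k 3 (y + y')) - crv P j qa y) y' x)
      (sgr sn (RK k 3 (y + y') x)) (RL j qa y x)
      (thd P RL qb (sgr sn (crv P k 3 (y + y')) - crv P j qa y) y' x)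
      (sgr sn (RL k 3 (y + y') x)) (RC j qa y x)
      (thd P RC qb (sgr sn (crv P k 3 (y + y')) - crv P j qa y) y' x)
      (sgr sn (RC k 3 (y + y') x))

variable {P : Pos n} {RK RL RC : Fin (n + 1) → ℕ → ℝ → ℝ → ℝ} {Gt : Fin (n + 1) → ℕ → Gn}
  {Dt : Fin (n + 1) → ℕ → CnW}
  {pc : ℕ → Piece} {KA : ℕ} {x : ℝ} {N0 : ℕ} {En mo : ℝ} {cn : Con} {qa qb : ℕ}
  {j k : Fin (n + 1)} {tt sn : Bool} {i : Fin n} {D D3 Wu Wv Px Wx kd : ℕ}

theorem Con12W.slt (h : con qa qb 3 = some cn) (hq : qa = 1 ∨ qa = 2) (hq' : qb = 1 ∨ qb = 2)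
    {y y' X12 X13 v1 v2 v3 w1 w2 w3 c1 c2 c3 : ℝ}
    (H : Con12W N0 En mo cn y y' x X12 X13 v1 v2 v3 w1 w2 w3 c1 c2 c3) :
    ∃ g, 0 ≤ slt cn qa qb 3 (levW N0 En mo x y y' (exn' X12 X13 y (y + y')) w1 w2 w3 c1 c2 c3)
      (ken x) x y y'
      (v1, v2, v3) g := by
  have e1 : (jq qa : ℝ) = 1 := by rcases hq with rfl | rfl <;> simp [jq]
  have e2 : (jq qb : ℝ) = 1 := by rcases hq' with rfl | rfl <;> simp [jq]
  have e3 : (jq 3 : ℝ) = 2 := by simp [jq]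
  unfold PB.slt
  rw [e1, e2, e3]
  exact H

/-- **A segment from the certificate of a chart**, family `A`. -/
theorem sg12AW_of {C0 En mo : Fn1} (h : con qa qb 3 = some cn) (hc : isC12 cn) (hq : qa = 1 ∨ qa = 2)
    (hq' : qb = 1 ∨ qb = 2) (side : SideOk P RK RL pc x) (gn : GnOk P RK RL Gt x)
    (pC : Pins P RC x) (gc : GcOk RC Gt Dt x) (g3c : Gc3 RC Gt Dt KA x) (g3 : Gn3 P RK RL Gt KA x) (x0 : 0 < x) (x1 : x < 1) (hD : (D : ℝ) / S ≤ 1 / 8)
    (h1 : (Gt j qa).At 1 (1 / 2) (C0.v x) x) (h2 : (Gt k qb).At 1 (1 / 2) (C0.v x) x)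
    (ha : (Gt i.castSucc 3).At3 (decide (i.val ≤ KA)) (C0.v x) x)
    (hb : (Gt i.succ 3).At3 (decide (i.val + 1 ≤ KA)) (C0.v x) x)
    (z1 : ((Gt j qa).c (Dt j qa)).At 1 (1 / 2) 0 x) (z2 : ((Gt k qb).c (Dt k qb)).At 1 (1 / 2) 0 x)
    (za : ((Gt i.castSucc 3).c (Dt i.castSucc 3)).At3 (decide (i.val ≤ KA)) 0 x)
    (zb : ((Gt i.succ 3).c (Dt i.succ 3)).At3 (decide (i.val + 1 ≤ KA)) 0 x)
    (ht : ∃ t, chk3 (onCell 0 Wu 0 Wv Px Wx (fA12W kd N0 C0 En mo cn tt (decide (i.val ≤ KA))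
      (decide (i.val + 1 ≤ KA)) (Gt j qa) (Gt k qb) (Gt i.castSucc 3) (Gt i.succ 3) (Dt j qa)
      (Dt k qb) (Dt i.castSucc 3) (Dt i.succ 3) D D3)) t 1 1 1 = true)
    (hR : Rng12 kd cn D D3 Wu Wv) (hx : (Px : ℝ) / S ≤ x) (hx' : x ≤ ((Px : ℝ) + Wx) / S)
    (h4 : 4 ≤ kd → ∀ y y', FactsA P qa qb 3 j k 1 (-1) y y' → In12 D D3 y y' →
      cond (decide (cn = .npn)) (y' - 1) (y - 1) ≤ 3 / 4 * c3n (y + y')) :
    Sg12AW P RK RL RC N0 (En.v x) (mo.v x) cn qa qb j k tt i D D3 x := by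
  intro y y' F hi c1 c2
  have hne := ne12 h F.q1 F.q2 hq hq'
  obtain ⟨u, v, s, a, b, t, τ, w, P', R, u0, uu, v0, vv⟩ := cov12 hR
    (cell12 h hc F.q1 F.q2 F.q3 hq hq') hi hne (fun h => h4 h y y' F hi)
  have key := st12AW_cert hc (fun h => by
    have := of_decide_eq_true h
    exact decide_eq_true (by omega)) P' R x0 x1 h1 h2 ha hb z1 z2 za zb ht u0 uu v0 vv hx hx'
  have q12 : qa ≤ 2 := by rcases hq with rfl | rfl <;> norm_num
  have q22 : qb ≤ 2 := by rcases hq' with rfl | rfl <;> norm_num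
  have e1 : (jq qa : ℝ) = 1 := by rcases hq with rfl | rfl <;> simp [jq]
  have e2 : (jq qb : ℝ) = 1 := by rcases hq' with rfl | rfl <;> simp [jq]
  have d1 : |y - jq qa| ≤ 1 / 8 := by rw [e1]; exact (hi.1.le).trans hD
  have d2 : |y' - jq qb| ≤ 1 / 8 := by rw [e2]; exact (hi.2.1.le).trans hD
  have on1 := F.on1
  have on2 := F.on2
  have gx1 := gn.xv q12 on1 d1
  have gx2 := gn.xv q22 on2 d2
  have gk1 := gn.kv q12 on1 d1
  have gk2 := gn.kv q22 on2 d2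
  have gl1 := gn.lv q12 on1 d1
  have gl2 := gn.lv q22 on2 d2
  have gc1 := gc.kv q12 on1 d1
  have gc2 := gc.kv q22 on2 d2
  have cva := g3c.kv (j := i.castSucc) F.q3
  have cvb := g3c.kv (j := i.succ) F.q3
  have xa := g3.xv (j := i.castSucc) F.q3
  have xb := g3.xv (j := i.succ) F.q3
  have ka := g3.kv (j := i.castSucc) F.q3
  have kb := g3.kv (j := i.succ) F.q3
  have la := g3.lv (j := i.castSucc) F.q3
  have lb := g3.lv (j := i.succ) F.q3
  simp only [Fin.val_castSucc, Fin.val_succ] at xa xb ka kb la lb cva cvb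
  unfold St12AW at key
  rw [gx1, gx2, gk1, gk2, gl1, gl2, gc1, gc2, xa, xb, ka, kb, la, lb, cva, cvb] at key
  have len1 := F.len1
  have len3 := F.len3
  have eX : 1 * crv P j qa y + -1 * crv P k qb y' = crv P j qa y - crv P k qb y' := by ring
  rw [eX] at len1 len3
  have k3 := key hi c1 c2 _ _ _ (third_lin side.pinK F.q3 len1 len3 tt i c1 c2)
    (third_lin side.pinL F.q3 len1 len3 tt i c1 c2) (third_lin pC F.q3 len1 len3 tt i c1 c2)
  rw [sgr_sgr, sgr_sgr, sgr_sgr] at k3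
  exact k3

theorem con12BW_of (hq : qa = 1 ∨ qa = 2)
    (hq' : qb = 1 ∨ qb = 2) (side : SideOk P RK RL pc x)
    (gn : GnOk P RK RL Gt x) (pC : Pins P RC x) (gc : GcOk RC Gt Dt x) (g3c : Gc3 RC Gt Dt KA x)
    (g3 : Gn3 P RK RL Gt KA x)
    (hD : (D : ℝ) / S ≤ 1 / 8) {y y' : ℝ}
    (key : St12BW N0 En mo cn y y' x (Gt j qa) (Gt k 3) (Gt i.castSucc qb) (Gt i.succ qb)
      (Dt j qa) (Dt k 3) (Dt i.castSucc qb) (Dt i.succ qb) D D3 sn (decide (k.val ≤ KA))) (F : FactsB P qa qb 3 j k 1 (sgb sn) y y') (hi : In12 D D3 y y')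
    (c1 : crv P i.castSucc qb y' ≤ crv P j qa y - sgr sn (crv P k 3 (y + y')))
    (c2 : crv P j qa y - sgr sn (crv P k 3 (y + y')) ≤ crv P i.succ qb y') :
    Con12W N0 En mo cn y y' x (crv P j qa y) (sgr sn (crv P k 3 (y + y'))) (RK j qa y x)
      (thd P RK qb (sgr sn (crv P k 3 (y + y')) - crv P j qa y) y' x)
      (sgr sn (RK k 3 (y + y') x)) (RL j qa y x)
      (thd P RL qb (sgr sn (crv P k 3 (y + y')) - crv P j qa y) y' x)
      (sgr sn (RL k 3 (y + y') x)) (RC j qa y x)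
      (thd P RC qb (sgr sn (crv P k 3 (y + y')) - crv P j qa y) y' x)
      (sgr sn (RC k 3 (y + y') x)) := by
  have q12 : qa ≤ 2 := by rcases hq with rfl | rfl <;> norm_num
  have q22 : qb ≤ 2 := by rcases hq' with rfl | rfl <;> norm_num
  have e1 : (jq qa : ℝ) = 1 := by rcases hq with rfl | rfl <;> simp [jq]
  have e2 : (jq qb : ℝ) = 1 := by rcases hq' with rfl | rfl <;> simp [jq]
  have d1 : |y - jq qa| ≤ 1 / 8 := by rw [e1]; exact (hi.1.le).trans hD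
  have d2 : |y' - jq qb| ≤ 1 / 8 := by rw [e2]; exact (hi.2.1.le).trans hD
  have on1 := F.on1
  have ont : ∀ i : Fin (n + 1), OnC i qb y' := fun i => ⟨F.q2, fun _ => by
    have hp := h0_pos
    have hh := h0_sq
    rw [e2] at d2
    have h1 := (abs_le.1 d2).2
    have : y' ≤ 9 / 8 := by linarith
    have := F.y0'
    nlinarith⟩
  have gx1 := gn.xv q12 on1 d1
  have gk1 := gn.kv q12 on1 d1
  have gl1 := gn.lv q12 on1 d1
  have xa := gn.xv (j := i.castSucc) q22 (ont _) d2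
  have xb := gn.xv (j := i.succ) q22 (ont _) d2
  have ka := gn.kv (j := i.castSucc) q22 (ont _) d2
  have kb := gn.kv (j := i.succ) q22 (ont _) d2
  have la := gn.lv (j := i.castSucc) q22 (ont _) d2
  have lb := gn.lv (j := i.succ) q22 (ont _) d2
  have x3 := g3.xv (j := k) F.q3
  have k3 := g3.kv (j := k) F.q3
  have l3 := g3.lv (j := k) F.q3
  have gc1 := gc.kv q12 on1 d1
  have cva := gc.kv (j := i.castSucc) q22 (ont _) d2
  have cvb := gc.kv (j := i.succ) q22 (ont _) d2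
  have cv3 := g3c.kv (j := k) F.q3
  unfold St12BW at key
  rw [gx1, gk1, gl1, gc1, xa, xb, ka, kb, la, lb, cva, cvb, x3, k3, l3, cv3] at key
  have len1 := F.len1
  have len3 := F.len3
  have eX : sgb sn * crv P k 3 (y + y') - 1 * crv P j qa y =
      sgr sn (crv P k 3 (y + y')) - crv P j qa y := by
    rw [← sgr_eq]
    ring
  rw [eX] at len1 len3
  have en : crv P j qa y - sgr sn (crv P k 3 (y + y')) =
      sgr false (sgr sn (crv P k 3 (y + y')) - crv P j qa y) := by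
    show _ = -(_ - _)
    ring
  have c1' := c1
  have c2' := c2
  rw [en] at c1' c2'
  have t1 := third_lin side.pinK F.q2 len1 len3 false i c1' c2'
  have t2 := third_lin side.pinL F.q2 len1 len3 false i c1' c2'
  have t3 := third_lin pC F.q2 len1 len3 false i c1' c2'
  rw [← en] at t1 t2 t3
  have k4 := key hi c1 c2 _ _ _ t1 t2 t3
  have e4 : ∀ z : ℝ, -sgr false z = z := fun z => by
    show - -z = z
    ring
  rw [e4, e4, e4] at k4
  exact k4

/-- **A segment from the certificate of a chart**, family `B`. -/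
theorem sg12BW_of {C0 En mo : Fn1} (h : con qa qb 3 = some cn) (hc : isC12 cn) (hq : qa = 1 ∨ qa = 2)
    (hq' : qb = 1 ∨ qb = 2) {lo up : Bool} (side : SideOk P RK RL pc x)
    (gn : GnOk P RK RL Gt x) (pC : Pins P RC x) (gc : GcOk RC Gt Dt x) (g3c : Gc3 RC Gt Dt KA x)
    (g3 : Gn3 P RK RL Gt KA x) (x0 : 0 < x) (x1 : x < 1)
    (hD : (D : ℝ) / S ≤ 1 / 8)
    (h1 : (Gt j qa).At 1 (1 / 2) (C0.v x) x)
    (h2 : (Gt k 3).At3 (decide (k.val ≤ KA)) (C0.v x) x)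
    (ha : lo = true → (Gt i.castSucc qb).At 1 (1 / 2) (C0.v x) x)
    (hb : lo = true → up = true → (Gt i.succ qb).At 1 (1 / 2) (C0.v x) x)
    (z1 : ((Gt j qa).c (Dt j qa)).At 1 (1 / 2) 0 x)
    (z2 : ((Gt k 3).c (Dt k 3)).At3 (decide (k.val ≤ KA)) 0 x)
    (za : lo = true → ((Gt i.castSucc qb).c (Dt i.castSucc qb)).At 1 (1 / 2) 0 x)
    (zb : lo = true → up = true → ((Gt i.succ qb).c (Dt i.succ qb)).At 1 (1 / 2) 0 x)
    (ht : ∃ t, chk3 (onCell 0 Wu 0 Wv Px Wx (fB12W kd N0 C0 En mo cn sn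
      (decide (k.val ≤ KA)) lo up (Gt j qa) (Gt k 3) (Gt i.castSucc qb) (Gt i.succ qb) (Dt j qa)
      (Dt k 3) (Dt i.castSucc qb) (Dt i.succ qb) D D3)) t 1 1 1 = true)
    (hR : Rng12 kd cn D D3 Wu Wv) (hk : kd ≤ 3) (hx : (Px : ℝ) / S ≤ x)
    (hx' : x ≤ ((Px : ℝ) + Wx) / S) :
    Sg12BW P RK RL RC N0 (En.v x) (mo.v x) cn qa qb j k sn i D D3 x := by
  intro y y' F hi c1 c2
  have hne := ne12 h F.q1 F.q2 hq hq'
  obtain ⟨u, v, s, a, b, t, τ, w, P', R, u0, uu, v0, vv⟩ := cov12 hR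
    (cell12 h hc F.q1 F.q2 F.q3 hq hq') hi hne (fun h => absurd h (by omega))
  exact con12BW_of hq hq' side gn pC gc g3c g3 hD
    (st12BW_cert hc P' R x0 x1 h1 h2 ha hb z1 z2 za zb ht u0 uu v0 vv hx hx') F hi c1 c2

/-- the part of a segment where the height above one is at least two thirds of the coordinate -/
def Sg12BuW (P : Pos n) (RK RL RC : Fin (n + 1) → ℕ → ℝ → ℝ → ℝ) (N0 : ℕ) (En mo : ℝ) (cn : Con)
    (qa qb : ℕ) (j k : Fin (n + 1)) (sn : Bool) (i : Fin n) (D D3 : ℕ) (x : ℝ) : Prop :=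
  ∀ y y', FactsB P qa qb 3 j k 1 (sgb sn) y y' → In12 D D3 y y' →
    2 / 3 * c3n (y + y') ≤ vv12 cn y y' →
    crv P i.castSucc qb y' ≤ crv P j qa y - sgr sn (crv P k 3 (y + y')) →
    crv P j qa y - sgr sn (crv P k 3 (y + y')) ≤ crv P i.succ qb y' →
    Con12W N0 En mo cn y y' x (crv P j qa y) (sgr sn (crv P k 3 (y + y'))) (RK j qa y x)
      (thd P RK qb (sgr sn (crv P k 3 (y + y')) - crv P j qa y) y' x)
      (sgr sn (RK k 3 (y + y') x)) (RL j qa y x)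
      (thd P RL qb (sgr sn (crv P k 3 (y + y')) - crv P j qa y) y' x)
      (sgr sn (RL k 3 (y + y') x)) (RC j qa y x)
      (thd P RC qb (sgr sn (crv P k 3 (y + y')) - crv P j qa y) y' x)
      (sgr sn (RC k 3 (y + y') x))

/-- the part of a segment where the height above one is at most two thirds of the coordinate -/
def Sg12BlW (P : Pos n) (RK RL RC : Fin (n + 1) → ℕ → ℝ → ℝ → ℝ) (N0 : ℕ) (En mo : ℝ) (cn : Con)
    (qa qb : ℕ) (j k : Fin (n + 1)) (sn : Bool) (i : Fin n) (D D3 : ℕ) (x : ℝ) : Prop :=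
  ∀ y y', FactsB P qa qb 3 j k 1 (sgb sn) y y' → In12 D D3 y y' →
    vv12 cn y y' ≤ 2 / 3 * c3n (y + y') →
    crv P i.castSucc qb y' ≤ crv P j qa y - sgr sn (crv P k 3 (y + y')) →
    crv P j qa y - sgr sn (crv P k 3 (y + y')) ≤ crv P i.succ qb y' →
    Con12W N0 En mo cn y y' x (crv P j qa y) (sgr sn (crv P k 3 (y + y'))) (RK j qa y x)
      (thd P RK qb (sgr sn (crv P k 3 (y + y')) - crv P j qa y) y' x)
      (sgr sn (RK k 3 (y + y') x)) (RL j qa y x)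
      (thd P RL qb (sgr sn (crv P k 3 (y + y')) - crv P j qa y) y' x)
      (sgr sn (RL k 3 (y + y') x)) (RC j qa y x)
      (thd P RC qb (sgr sn (crv P k 3 (y + y')) - crv P j qa y) y' x)
      (sgr sn (RC k 3 (y + y') x))

theorem Sg12BuW.join (h1 : Sg12BuW P RK RL RC N0 En mo cn qa qb j k sn i D D3 x)
    (h2 : Sg12BlW P RK RL RC N0 En mo cn qa qb j k sn i D D3 x) :
    Sg12BW P RK RL RC N0 En mo cn qa qb j k sn i D D3 x := by
  intro y y' F hi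
  rcases le_total (2 / 3 * c3n (y + y')) (vv12 cn y y') with h | h
  · exact h1 y y' F hi h
  · exact h2 y y' F hi h

/-- the test function of the upper part -/
noncomputable def fB12uW (N0 : ℕ) (C0 En mo : Fn1) (cn : Con) (tn l2 lo up : Bool)
    (G1 G2 Ga Gb : Gn) (D1 D2 Da Db : CnW) (D D3 : ℕ) (h U V X : ℕ) : Bool :=
  bor (ppos (psub (pnc 2) (pnat 5 V)))
    (fB12W 3 N0 C0 En mo cn tn l2 lo up G1 G2 Ga Gb D1 D2 Da Db D D3 h U V X)

/-- **The upper part of a segment from the certificate of a chart**, family `B`. -/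
theorem sg12BuW_of {C0 En mo : Fn1} (h : con qa qb 3 = some cn) (hc : isC12 cn) (hq : qa = 1 ∨ qa = 2)
    (hq' : qb = 1 ∨ qb = 2) {lo up : Bool} (side : SideOk P RK RL pc x)
    (gn : GnOk P RK RL Gt x) (pC : Pins P RC x) (gc : GcOk RC Gt Dt x) (g3c : Gc3 RC Gt Dt KA x)
    (g3 : Gn3 P RK RL Gt KA x) (x0 : 0 < x) (x1 : x < 1)
    (hD : (D : ℝ) / S ≤ 1 / 8)
    (h1 : (Gt j qa).At 1 (1 / 2) (C0.v x) x)
    (h2 : (Gt k 3).At3 (decide (k.val ≤ KA)) (C0.v x) x)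
    (ha : lo = true → (Gt i.castSucc qb).At 1 (1 / 2) (C0.v x) x)
    (hb : lo = true → up = true → (Gt i.succ qb).At 1 (1 / 2) (C0.v x) x)
    (z1 : ((Gt j qa).c (Dt j qa)).At 1 (1 / 2) 0 x)
    (z2 : ((Gt k 3).c (Dt k 3)).At3 (decide (k.val ≤ KA)) 0 x)
    (za : lo = true → ((Gt i.castSucc qb).c (Dt i.castSucc qb)).At 1 (1 / 2) 0 x)
    (zb : lo = true → up = true → ((Gt i.succ qb).c (Dt i.succ qb)).At 1 (1 / 2) 0 x)
    (ht : ∃ t, chk3 (onCell 0 Wu 0 Wv Px Wx (fB12uW N0 C0 En mo cn sn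
      (decide (k.val ≤ KA)) lo up (Gt j qa) (Gt k 3) (Gt i.castSucc qb) (Gt i.succ qb) (Dt j qa)
      (Dt k 3) (Dt i.castSucc qb) (Dt i.succ qb) D D3)) t 1 1 1 = true)
    (hR : Rng12 3 cn D D3 Wu Wv) (hx : (Px : ℝ) / S ≤ x)
    (hx' : x ≤ ((Px : ℝ) + Wx) / S) :
    Sg12BuW P RK RL RC N0 (En.v x) (mo.v x) cn qa qb j k sn i D D3 x := by
  intro y y' F hi hv c1 c2
  have hne := ne12 h F.q1 F.q2 hq hq'
  obtain ⟨u, v, s, a, b, t, τ, w, P', R, u0, uu, v0, vv⟩ := cov12 hR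
    (cell12 h hc F.q1 F.q2 F.q3 hq hq') hi hne (fun h => absurd h (by omega))
  have hv5 : 2 ≤ 5 * v := by
    obtain ⟨r1, r2, r3, r4, r5, r6⟩ := R
    have s0 := P'.s0
    have ht : c3n (y + y') = s * (1 - v) := by rw [← P'.ht, P'.hτ, r2]
    have hvv : vv12 cn y y' = s * v := by
      have hn : cn ≠ .nn := hR.2.2
      unfold vv12
      cases cn
      · exact hc.elim
      · exact absurd rfl hn
      · exact hc.elim
      · show y - 1 = _
        have e1 := P'.e1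
        simp only [tc1] at e1
        simp only [cs12] at r6
        rw [e1, r6]
        ring
      · exact hc.elim
      · show y' - 1 = _
        have e2 := P'.e2
        simp only [tc2] at e2
        simp only [cs12] at r5
        rw [e2, r5]
        ring
      · exact hc.elim
      · exact hc.elim
    rw [ht, hvv] at hv
    by_contra hh
    push Not at hh
    nlinarith
  refine con12BW_of hq hq' side gn pC gc g3c g3 hD ?_ F hi c1 c2
  have key := cert12 (Q := fun u v x => 2 ≤ 5 * v → 0 < x → x < 1 →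
    Rel12 3 cn u v s a b t τ w →
    (Gt j qa).At 1 (1 / 2) (C0.v x) x → (Gt k 3).At3 (decide (k.val ≤ KA)) (C0.v x) x →
    (lo = true → (Gt i.castSucc qb).At 1 (1 / 2) (C0.v x) x) →
    (lo = true → up = true → (Gt i.succ qb).At 1 (1 / 2) (C0.v x) x) →
    ((Gt j qa).c (Dt j qa)).At 1 (1 / 2) 0 x →
    ((Gt k 3).c (Dt k 3)).At3 (decide (k.val ≤ KA)) 0 x →
    (lo = true → ((Gt i.castSucc qb).c (Dt i.castSucc qb)).At 1 (1 / 2) 0 x) →
    (lo = true → up = true → ((Gt i.succ qb).c (Dt i.succ qb)).At 1 (1 / 2) 0 x) →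
    St12BW N0 (En.v x) (mo.v x) cn y y' x (Gt j qa) (Gt k 3) (Gt i.castSucc qb) (Gt i.succ qb)
      (Dt j qa) (Dt k 3) (Dt i.castSucc qb) (Dt i.succ qb) D D3 sn (decide (k.val ≤ KA)))
    (f := fB12uW N0 C0 En mo cn sn (decide (k.val ≤ KA)) lo up (Gt j qa) (Gt k 3)
      (Gt i.castSucc qb) (Gt i.succ qb) (Dt j qa) (Dt k 3) (Dt i.castSucc qb) (Dt i.succ qb)
      D D3)
    (fun {E} {h'} {A} {B} {C} {p} {q} {x'} hA hB hC h v5 x0 x1 R h1 h2 ha hb z1 z2 za zb => by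
      unfold fB12uW at h
      rcases bor_true h with h | h
      · have := ppos_sound (enc_sub (enc_pnc E 2) (enc_nat 5 hB)) h
        push_cast at this
        linarith
      · unfold fB12W at h
        obtain ⟨S', A, B, T, V', W, k1, k2, k3, k4, k5, k6, k⟩ := ch12_sound R hA hB h
        exact cB12W_sound hc P' x0 x1 k1 k2 k3 k4 k5 hC h1 h2 ha hb z1 z2 za zb k) ht u0 uu v0 vv hx hx'
  exact key hv5 x0 x1 R h1 h2 ha hb z1 z2 za zb


/-! ### The statements at both vertices -/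

variable {RU : Fin (n + 1) → ℕ → ℝ → ℝ → ℝ} {pd : ℕ → Fn3} {Ef : Fn1} {κ o : ℝ} {f : ℝ → ℝ}
  {y y' : ℝ}

theorem Sg12AW.slt (h : con qa qb 3 = some cn) (hq : qa = 1 ∨ qa = 2) (hq' : qb = 1 ∨ qb = 2)
    (side : SideOk P RK RL pc x)
    (hC : ∀ q X y, InQ q y → 1 ≤ qqn X y → qqn X y ≤ 3 → thd P RU q X y x = (pd q).v X y x)
    (H : Sg12AW P RK RL RU N0 En mo cn qa qb j k tt i D D3 x)
    (F : FactsA P qa qb 3 j k 1 (-1) y y') (hi : In12 D D3 y y')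
    (c1 : crv P i.castSucc 3 (y + y') ≤ sgr tt (crv P j qa y - crv P k qb y'))
    (c2 : sgr tt (crv P j qa y - crv P k qb y') ≤ crv P i.succ 3 (y + y')) :
    ∃ g, 0 ≤ slt cn qa qb 3 (levW N0 En mo x y y' (exA P qa qb j k 1 (-1) y y')
      (vlA P RL (fun q => (pc q).L.v) qa qb 3 j k 1 (-1) x y y').1
      (vlA P RL (fun q => (pc q).L.v) qa qb 3 j k 1 (-1) x y y').2.1
      (vlA P RL (fun q => (pc q).L.v) qa qb 3 j k 1 (-1) x y y').2.2
      (vlA P RU (fun q => (pd q).v) qa qb 3 j k 1 (-1) x y y').1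
      (vlA P RU (fun q => (pd q).v) qa qb 3 j k 1 (-1) x y y').2.1
      (vlA P RU (fun q => (pd q).v) qa qb 3 j k 1 (-1) x y y').2.2)
      (ken x) x y y'
      (vlA P RK (fun q => (pc q).K.v) qa qb 3 j k 1 (-1) x y y') g := by
  have k1 := (H y y' F hi c1 c2).slt h hq hq'
  have len1 := F.len1
  have len3 := F.len3
  have eX : crv P j qa y - crv P k qb y' = 1 * crv P j qa y + -1 * crv P k qb y' := by ring
  rw [eX, side.thK _ _ _ F.q3 len1 len3, side.thL _ _ _ F.q3 len1 len3,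
    hC _ _ _ F.q3 len1 len3] at k1
  unfold vlA exA
  simp only [one_mul, neg_mul] at k1 ⊢
  exact k1

/-- the conclusion of a point determines the statement, family `B` -/
theorem sltW_B (h : con qa qb 3 = some cn) (hq : qa = 1 ∨ qa = 2) (hq' : qb = 1 ∨ qb = 2)
    (side : SideOk P RK RL pc x)
    (hC : ∀ q X y, InQ q y → 1 ≤ qqn X y → qqn X y ≤ 3 → thd P RU q X y x = (pd q).v X y x)
    (H : Con12W N0 En mo cn y y' x (crv P j qa y) (sgr sn (crv P k 3 (y + y'))) (RK j qa y x)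
      (thd P RK qb (sgr sn (crv P k 3 (y + y')) - crv P j qa y) y' x)
      (sgr sn (RK k 3 (y + y') x)) (RL j qa y x)
      (thd P RL qb (sgr sn (crv P k 3 (y + y')) - crv P j qa y) y' x)
      (sgr sn (RL k 3 (y + y') x)) (RU j qa y x)
      (thd P RU qb (sgr sn (crv P k 3 (y + y')) - crv P j qa y) y' x)
      (sgr sn (RU k 3 (y + y') x)))
    (F : FactsB P qa qb 3 j k 1 (sgb sn) y y') :
    ∃ g, 0 ≤ slt cn qa qb 3 (levW N0 En mo x y y' (exB P qa 3 j k 1 (sgb sn) y y')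
      (vlB P RL (fun q => (pc q).L.v) qa qb 3 j k 1 (sgb sn) x y y').1
      (vlB P RL (fun q => (pc q).L.v) qa qb 3 j k 1 (sgb sn) x y y').2.1
      (vlB P RL (fun q => (pc q).L.v) qa qb 3 j k 1 (sgb sn) x y y').2.2
      (vlB P RU (fun q => (pd q).v) qa qb 3 j k 1 (sgb sn) x y y').1
      (vlB P RU (fun q => (pd q).v) qa qb 3 j k 1 (sgb sn) x y y').2.1
      (vlB P RU (fun q => (pd q).v) qa qb 3 j k 1 (sgb sn) x y y').2.2)
      (ken x) x y y'
      (vlB P RK (fun q => (pc q).K.v) qa qb 3 j k 1 (sgb sn) x y y') g := by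
  have k1 := H.slt h hq hq'
  have len1 := F.len1
  have len3 := F.len3
  have eX : sgr sn (crv P k 3 (y + y')) - crv P j qa y =
      sgb sn * crv P k 3 (y + y') - 1 * crv P j qa y := by
    rw [← sgr_eq]
    ring
  rw [eX, side.thK _ _ _ F.q2 len1 len3, side.thL _ _ _ F.q2 len1 len3,
    hC _ _ _ F.q2 len1 len3] at k1
  unfold vlB exB
  simp only [sgr_eq, one_mul] at k1 ⊢
  exact k1

/-- The statement at both vertices as a predicate for the segments, family `A`. -/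
def VEA (N0 : ℕ) (κ E o : ℝ) (f : ℝ → ℝ) (P : Pos n)
    (RK RL RC : Fin (n + 1) → ℕ → ℝ → ℝ → ℝ) (pc : ℕ → Piece) (pd : ℕ → Fn3)
    (qa qb : ℕ) (j k : Fin (n + 1)) (x y y' _e : ℝ) (_l _r : ℝ × ℝ × ℝ) : Prop :=
  StEA N0 κ E o f P RK RL RC pc pd qa qb 3 j k 1 (-1) x y y'

/-- The statement at both vertices as a predicate for the segments, family `B`. -/
def VEB (N0 : ℕ) (κ E o : ℝ) (f : ℝ → ℝ) (P : Pos n)
    (RK RL RC : Fin (n + 1) → ℕ → ℝ → ℝ → ℝ) (pc : ℕ → Piece) (pd : ℕ → Fn3)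
    (qa qb : ℕ) (j k : Fin (n + 1)) (sn : Bool) (x y y' _e : ℝ) (_l _r : ℝ × ℝ × ℝ) : Prop :=
  StEB N0 κ E o f P RK RL RC pc pd qa qb 3 j k 1 (sgb sn) x y y'

/-- The data of the third kernel: `RC` is `Ef` times `RU`. -/
structure ThrD (P : Pos n) (RC RU : Fin (n + 1) → ℕ → ℝ → ℝ → ℝ) (pd : ℕ → Fn3) (Ef : Fn1)
    (N0 : ℕ) (mo o x : ℝ) : Prop where
  th : ∀ q X y, InQ q y → 1 ≤ qqn X y → qqn X y ≤ 3 → thd P RU q X y x = (pd q).v X y x
  sc : ∀ j q y, RC j q y x = Ef.v x * RU j q y x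
  ef : 0 ≤ Ef.v x
  mo : mo = mun N0 x * (Ef.v x * o)

theorem Sg12AW.ve {N : ℕ} (h : con qa qb 3 = some cn) (hq : qa = 1 ∨ qa = 2)
    (hq' : qb = 1 ∨ qb = 2)
    (side : SideOk P RK RL pc x) (hκ : κ * h0 = ken x) (T : ThrD P RC RU pd Ef N0 mo o x)
    (H : Sg12AW P RK RL RU N0 En mo cn qa qb j k tt i D D3 x)
    (HF : Sg12A P RK RL true N cn qa qb j k tt i D D3 x) :
    SgA (VEA N0 κ En o f P RK RL RC pc (fun q => Fn3.sc Ef (pd q)) qa qb j k) P RK RL pc qa qb j k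
      tt i D D3 x :=
  fun _ _ F hi c1 c2 => stEA_of F h hκ T.sc T.ef T.mo (HF.slt h hq hq' side F hi c1 c2)
    (H.slt h hq hq' side T.th F hi c1 c2)

theorem Sg12BW.ve {N : ℕ} (h : con qa qb 3 = some cn) (hq : qa = 1 ∨ qa = 2)
    (hq' : qb = 1 ∨ qb = 2)
    (side : SideOk P RK RL pc x) (hκ : κ * h0 = ken x) (T : ThrD P RC RU pd Ef N0 mo o x)
    (H : Sg12BW P RK RL RU N0 En mo cn qa qb j k sn i D D3 x)
    (HF : Sg12B P RK RL true N cn qa qb j k sn i D D3 x) :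
    SgB (VEB N0 κ En o f P RK RL RC pc (fun q => Fn3.sc Ef (pd q)) qa qb j k sn) P RK RL pc qa qb
      j k sn i D D3 x :=
  fun y y' F hi c1 c2 => stEB_of F h hκ T.sc T.ef T.mo (HF.slt h hq hq' side F hi c1 c2)
    (sltW_B h hq hq' side T.th (H y y' F hi c1 c2) F)

/-- the upper part as a statement about a smaller set -/
theorem Sg12BuW.ve {N : ℕ} (h : con qa qb 3 = some cn) (hq : qa = 1 ∨ qa = 2)
    (hq' : qb = 1 ∨ qb = 2)
    (side : SideOk P RK RL pc x) (hκ : κ * h0 = ken x) (T : ThrD P RC RU pd Ef N0 mo o x)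
    (H : Sg12BuW P RK RL RU N0 En mo cn qa qb j k sn i D D3 x)
    (HF : Sg12Bu P RK RL true N cn qa qb j k sn i D D3 x)
    (H' : SgBl (VEB N0 κ En o f P RK RL RC pc (fun q => Fn3.sc Ef (pd q)) qa qb j k sn) P RK RL pc
      cn qa qb j k sn i D D3 x) :
    SgB (VEB N0 κ En o f P RK RL RC pc (fun q => Fn3.sc Ef (pd q)) qa qb j k sn) P RK RL pc qa qb
      j k sn i D D3 x := by
  intro y y' F hi c1 c2
  rcases le_total (2 / 3 * c3n (y + y')) (vv12 cn y y') with hv | hv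
  · exact stEB_of F h hκ T.sc T.ef T.mo (slt_B h hq hq' side (HF y y' F hi hv c1 c2) F)
      (sltW_B h hq hq' side T.th (H y y' F hi hv c1 c2) F)
  · exact H' y y' F hi hv c1 c2

theorem altEA12 (H : AltA (VEA N0 κ En o f P RK RL RC pc pd qa qb j k) P RK RL pc (cube12 D D3)
      qa qb 3 j k (sgb true) (sgb false) x) :
    AltEA N0 κ En o f P RK RL RC pc pd (cube12 D D3) qa qb 3 j k (sgb true) (sgb false) x :=
  fun y y' F hc => H y y' F hc

theorem altEB12 (H : AltB (VEB N0 κ En o f P RK RL RC pc pd qa qb j k sn) P RK RL pc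
      (cube12 D D3) qa qb 3 j k (sgb true) (sgb sn) x) :
    AltEB N0 κ En o f P RK RL RC pc pd (cube12 D D3) qa qb 3 j k (sgb true) (sgb sn) x :=
  fun y y' F hc => H y y' F hc

end

end Pool.Agent.Strip051.PB
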