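import Pool.Agent.Strip051.PB.CornW
import Pool.Agent.Strip051.PB.C12C

/-! # The corner (1, 1, 2), both vertices: the leaf of the near part -/

namespace Pool.Agent.Strip051.PB

open Pool.Agent.StripNear Pool.Agent.Strip051.LC

attribute [local irreducible] padd psub pneg pmul psq pinv psqrt psqrtg pabs pps pmax pmin pphi plam
  pcase phf pnat prat pscale pnorm pdc pnc pone ppos pnn Enc pbad pzero

/-! ### The final test -/

/-- both signs of the defect for the changed level -/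
noncomputable def lsgW (X S A B RR p q om d MW iE : ℕ) (h e : ℕ) : Bool :=
  frc (pmn (psub e MW) iE) fun e => lsgT X S A B RR p q om d h e

/-- the test with all rates -/
noncomputable def r12W (N0 : ℕ) (c : Con) (h S A B X C1 C3 Y1 Y2 Y3 c0 z1 z3 r1 r2 r3
    l1 l2 l3 MW iE : ℕ) : Bool :=
  frc (tomT c A B (padd (phf c0) (pmn S r1)) (psub (pmn S r2) (phf c0)) (pmn S r3)) fun om =>
  frc (psub r3 (padd r1 r2)) fun d =>
  frc (phf (padd (psub (padd (phf C3) (padd z1 z1)) z3)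
      (pmn S (psub (pmn z1 C3) (pmn z3 C1))))) fun E0 =>
  frc (pmn S (padd A B)) fun RR =>
  frc (pmn (esT X) (pinv X)) fun p => frc (pmn (esT X) (pinv (psub pone X))) fun q =>
  finT (lsgW X S A B RR p q om d MW iE) false N0 h X Y1 Y2 Y3 E0 l1 l2 l3

theorem r12W_sound {E : Pt} {N0 : ℕ} {c : Con} (hc : isC12 c)
    {h S' A B X C1 C3 Y1 Y2 Y3 C0 Z1 Z3 K1 K2 K3 L1 L2 L3 MW IE : ℕ}
    {s a b x c0 z1 z3 r1 r2 r3 l1 l2 l3 X12 X13 y y' v1 v2 v3 w1 w2 w3 en mw : ℝ}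
    (hMW : Enc E MW mw) (hIE : Enc E IE en⁻¹)
    (hs0 : 0 ≤ s) (ha0 : 0 ≤ a) (hb0 : 0 ≤ b) (hab : s * (a + b) ≤ 1) (x0 : 0 < x) (x1 : x < 1)
    (hS : Enc E S' s) (hA : Enc E A a) (hB : Enc E B b) (hX : Enc E X x)
    (hC1 : Enc E C1 (tc1 c a b)) (hC3 : Enc E C3 (tc3 c a b))
    (hY1 : Enc E Y1 y) (hY2 : Enc E Y2 y') (hY3 : Enc E Y3 (y + y')) (hC0 : Enc E C0 c0)
    (hz1 : Enc E Z1 z1) (hz3 : Enc E Z3 z3) (hr1 : Enc E K1 r1) (hr2 : Enc E K2 r2)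
    (hr3 : Enc E K3 r3) (hl1 : Enc E L1 l1) (hl2 : Enc E L2 l2) (hl3 : Enc E L3 l3)
    (hy : y = 1 + s * tc1 c a b) (hy' : y' = 1 + s * tc2 c a b)
    (hX12 : X12 = 1 / 2 + s * z1) (hX13 : X13 = s * z3)
    (hv1 : v1 = c0 / 2 + s * r1) (hv2 : v2 = -(c0 / 2) + s * r2)
    (hv3 : v3 = s * r3) (hw1 : w1 = s * l1) (hw2 : w2 = s * l2) (hw3 : w3 = s * l3)
    (ht : r12W N0 c h S' A B X C1 C3 Y1 Y2 Y3 C0 Z1 Z3 K1 K2 K3 L1 L2 L3 MW IE = true) :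
    ∃ g, 0 ≤ slc c ((levN N0 0 x y y' (exn' X12 X13 y (y + y')) w1 w2 w3 - s * mw) / en) (ken x) x
      (s * tc1 c a b) (s * tc2 c a b) (s * tc3 c a b) v1 v2 v3 g := by
  unfold r12W at ht
  simp only [frc_eq] at ht
  have x1' : (1 : ℝ) - x ≠ 0 := by linarith
  have hp : Enc E (pmn (esT X) (pinv X)) (esn x / x) := by
    rw [div_eq_mul_inv]
    exact enc_mn (enc_esT hX) (enc_inv hX)
  have hq : Enc E (pmn (esT X) (pinv (psub pone X))) (esn x / (1 - x)) := by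
    rw [div_eq_mul_inv]
    exact enc_mn (enc_esT hX) (enc_inv (enc_sub (enc_one E) hX))
  have hh := enc_half hC0
  have hom : Enc E (tomT c A B (padd (phf C0) (pmn S' K1)) (psub (pmn S' K2) (phf C0))
      (pmn S' K3)) (tom c a b (c0 / 2 + s * r1) (-(c0 / 2) + s * r2) (s * r3)) :=
    enc_tomT c hA hB (enc_add hh (enc_mn hS hr1))
      (enc_cast (enc_sub (enc_mn hS hr2) hh) (by ring)) (enc_mn hS hr3)
  have hd : Enc E (psub K3 (padd K1 K2)) (r3 - (r1 + r2)) := enc_sub hr3 (enc_add hr1 hr2)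
  obtain ⟨e0, he0⟩ : ∃ e0, e0 = (tc3 c a b / 2 + (z1 + z1) - z3 +
    s * (z1 * tc3 c a b - z3 * tc1 c a b)) / 2 := ⟨_, rfl⟩
  have he : Enc E (phf (padd (psub (padd (phf C3) (padd Z1 Z1)) Z3)
      (pmn S' (psub (pmn Z1 C3) (pmn Z3 C1))))) e0 := by
    rw [he0]
    exact enc_half (enc_add (enc_sub (enc_add (enc_half hC3) (enc_add hz1 hz1)) hz3)
      (enc_mn hS (enc_sub (enc_mn hz1 hC3) (enc_mn hz3 hC1))))
  have hrr : Enc E (pmn S' (padd A B)) (s * (a + b)) := enc_mn hS (enc_add hA hB)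
  have y3 : y + y' = 2 + s * tc3 c a b := by
    rw [hy, hy', ← tc_add hc]
    ring
  have hex : exn' X12 X13 y (y + y') = s * e0 := by
    unfold exn'
    rw [hX12, hX13, y3, hy, he0]
    ring
  have fin : ∀ e : ℝ, LinOk x s a b (esn x / x) (esn x / (1 - x))
      (tom c a b (c0 / 2 + s * r1) (-(c0 / 2) + s * r2) (s * r3)) (r3 - (r1 + r2)) e →
      (levN N0 0 x y y' (exn' X12 X13 y (y + y')) w1 w2 w3 - s * mw) / en = s * e →
      ∃ g, 0 ≤ slc c ((levN N0 0 x y y' (exn' X12 X13 y (y + y')) w1 w2 w3 - s * mw) / en) (ken x) x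
        (s * tc1 c a b) (s * tc2 c a b) (s * tc3 c a b) v1 v2 v3 g := by
    intro e hok hlev
    rw [hlev, hv1, hv2, hv3]
    exact hok.row hc x0.le x1.le hs0 ha0 hb0 hab (ken_nonneg x0.le x1.le) (ken_p x0 x1)
      (ken_q x0 x1)
  have cone : ∀ {e : ℝ} {L k : ℕ}, Enc E L e → lsgW X S' A B (pmn S' (padd A B))
      (pmn (esT X) (pinv X)) (pmn (esT X) (pinv (psub pone X)))
      (tomT c A B (padd (phf C0) (pmn S' K1)) (psub (pmn S' K2) (phf C0)) (pmn S' K3))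
      (psub K3 (padd K1 K2)) MW IE k L = true → LinOk x s a b (esn x / x) (esn x / (1 - x))
      (tom c a b (c0 / 2 + s * r1) (-(c0 / 2) + s * r2) (s * r3)) (r3 - (r1 + r2))
      ((e - mw) * en⁻¹) := by
    intro e L k hL hk
    unfold lsgW at hk
    simp only [frc_eq] at hk
    exact lsgT_sound hX hS hA hB hrr hp hq hom hd (enc_mn (enc_sub hL hMW) hIE) hk
  have hSl := enc_sub (enc_add hl1 hl2) hl3
  unfold finT at ht
  obtain ⟨t1, t2⟩ := band_true ht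
  have hM := enc_muT N0 hX
  have hF := enc_sub he (enc_mn hM (enc_half (enc_sub (enc_mn hY1 hl2) (enc_mn hY2 hl1))))
  have hG := enc_mn hM (enc_mn (enc_sub (enc_add (enc_phn E N0) (enc_half hX)) (enc_half hY3))
    hSl)
  have o1 := cone (enc_add hF hG) t1
  have o2 := cone (enc_sub hF hG) t2
  have eA : mun N0 x * levn N0 0 x y y' w1 w2 w3 = s * (-(mun N0 x * ((y * l2 - y' * l1) / 2)) +
      mun N0 x * (((N0 : ℝ) / 2 + x / 2 - (y + y') / 2) * (l1 + l2 - l3))) := by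
    unfold levn
    rw [hw1, hw2, hw3]
    ring
  have eB : mun N0 x * levm N0 0 x y y' w1 w2 w3 = s * (-(mun N0 x * ((y * l2 - y' * l1) / 2)) -
      mun N0 x * (((N0 : ℝ) / 2 + x / 2 - (y + y') / 2) * (l1 + l2 - l3))) := by
    unfold levm
    rw [hw1, hw2, hw3]
    ring
  rcases le_total (levn N0 0 x y y' w1 w2 w3) (levm N0 0 x y y' w1 w2 w3) with h | h
  · refine fin _ o1 ?_
    unfold levN
    rw [min_eq_left h, eA, hex, div_eq_mul_inv]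
    ring
  · refine fin _ o2 ?_
    unfold levN
    rw [min_eq_right h, eB, hex, div_eq_mul_inv]
    ring

/-! ### The statements -/

section

variable (N0 : ℕ) (En mo : ℝ) (cn : Con) (y y' x : ℝ)

/-- The row for given abscissas and values. -/
def Con12W (X12 X13 v1 v2 v3 w1 w2 w3 c1 c2 c3 : ℝ) : Prop :=
  ∃ g, 0 ≤ slc cn (levW N0 En mo x y y' (exn' X12 X13 y (y + y')) w1 w2 w3 c1 c2 c3) (ken x) x
    (y - 1) (y' - 1) (y + y' - 2) v1 v2 v3 g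

variable (G1 G2 Ga Gb : Gn) (D1 D2 Da Db : CnW) (D D3 : ℕ)

/-- The statement of a leaf, family `A`. -/
def St12AW (tt la lb : Bool) : Prop :=
  In12 D D3 y y' →
  Ga.xv (c3r la (y + y')) ≤ sgr tt (G1.xv y - G2.xv y') →
  sgr tt (G1.xv y - G2.xv y') ≤ Gb.xv (c3r lb (y + y')) → ∀ T TL TC,
  Lin (Ga.xv (c3r la (y + y'))) (Gb.xv (c3r lb (y + y'))) (Ga.kv (c3r la (y + y')) x)
    (Gb.kv (c3r lb (y + y')) x) (sgr tt (G1.xv y - G2.xv y')) T →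
  Lin (Ga.xv (c3r la (y + y'))) (Gb.xv (c3r lb (y + y'))) (Ga.lv (c3r la (y + y')) x)
    (Gb.lv (c3r lb (y + y')) x) (sgr tt (G1.xv y - G2.xv y')) TL →
  Lin (Ga.xv (c3r la (y + y'))) (Gb.xv (c3r lb (y + y'))) ((Ga.c Da).kv (c3r la (y + y')) x)
    ((Gb.c Db).kv (c3r lb (y + y')) x) (sgr tt (G1.xv y - G2.xv y')) TC →
  Con12W N0 En mo cn y y' x (G1.xv y) (G1.xv y - G2.xv y') (G1.kv y x) (-G2.kv y' x) (sgr tt T)
    (G1.lv y x) (-G2.lv y' x) (sgr tt TL) ((G1.c D1).kv y x) (-(G2.c D2).kv y' x) (sgr tt TC)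

/-- The statement of a leaf, family `B`. -/
def St12BW (tn l2 : Bool) : Prop :=
  In12 D D3 y y' →
  Ga.xv y' ≤ G1.xv y - sgr tn (G2.xv (c3r l2 (y + y'))) →
  G1.xv y - sgr tn (G2.xv (c3r l2 (y + y'))) ≤ Gb.xv y' → ∀ T TL TC,
  Lin (Ga.xv y') (Gb.xv y') (Ga.kv y' x) (Gb.kv y' x)
    (G1.xv y - sgr tn (G2.xv (c3r l2 (y + y')))) T →
  Lin (Ga.xv y') (Gb.xv y') (Ga.lv y' x) (Gb.lv y' x)
    (G1.xv y - sgr tn (G2.xv (c3r l2 (y + y')))) TL →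
  Lin (Ga.xv y') (Gb.xv y') ((Ga.c Da).kv y' x) ((Gb.c Db).kv y' x)
    (G1.xv y - sgr tn (G2.xv (c3r l2 (y + y')))) TC →
  Con12W N0 En mo cn y y' x (G1.xv y) (sgr tn (G2.xv (c3r l2 (y + y')))) (G1.kv y x) (-T)
    (sgr tn (G2.kv (c3r l2 (y + y')) x)) (G1.lv y x) (-TL) (sgr tn (G2.lv (c3r l2 (y + y')) x))
    ((G1.c D1).kv y x) (-TC) (sgr tn ((G2.c D2).kv (c3r l2 (y + y')) x))

end

/-! ### The leaves -/

/-- the test after the choice of the segment, family `A` -/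
noncomputable def kA12W (N0 : ℕ) (C0 En mo : Fn1) (cn : Con) (tt : Bool) (G1 G2 : Gn)
    (D1 D2 : CnW) (h S A B X C1 C2 C3 Y1 Y2 Y3 z1 z3 az : ℕ) (gK gL ξ κ l gC ξ' c : ℕ) : Bool :=
  frc (psub az ξ) fun dz =>
  frc (sg tt (padd c (pmn gC (psub az ξ')))) fun e3 =>
  frc (pmn C1 ((G1.c D1).kT Y1 pone X)) fun e1 =>
  frc (pneg (pmn C2 ((G2.c D2).kT Y2 pone X))) fun e2 =>
  frc (sg tt (padd κ (pmn gK dz))) fun r3 => frc (sg tt (padd l (pmn gL dz))) fun l3 =>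
  frc (pmn C1 (G1.kT Y1 pone X)) fun r1 => frc (pneg (pmn C2 (G2.kT Y2 pone X))) fun r2 =>
  frc (pmn C1 (G1.lT Y1 pone X)) fun l1 => frc (pneg (pmn C2 (G2.lT Y2 pone X))) fun l2 =>
  r12W N0 cn h S A B X C1 C3 Y1 Y2 Y3 (C0.t X) z1 z3 r1 r2 r3 l1 l2 l3
    (pmn (mo.t X) (wdT e1 e2 e3)) (pinv (En.t X))

/-- **The test of a leaf**, family `A`. -/
noncomputable def cA12W (N0 : ℕ) (C0 En mo : Fn1) (cn : Con) (tt la lb : Bool)
    (G1 G2 Ga Gb : Gn) (D1 D2 Da Db : CnW) (D D3 : ℕ) (h S A B T V W X : ℕ) : Bool :=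
  frc (tcT1 cn A B) fun C1 => frc (tcT2 cn A B) fun C2 => frc (tcT3 cn A B) fun C3 =>
  frc (padd pone (pmn S C1)) fun Y1 => frc (padd pone (pmn S C2)) fun Y2 =>
  frc (padd (pnc 2) (pmn S C3)) fun Y3 => frc (pmn C1 (G1.xT Y1 pone)) fun z1 =>
  frc (psub z1 (pmn C2 (G2.xT Y2 pone))) fun z3 => frc (sg tt z3) fun az =>
  ch4 (Nat.land h 3)
    (seg3T la lb Ga Gb Y3 T W C3 V X fun gK gL ξ κ l =>
      seg3T la lb (Ga.c Da) (Gb.c Db) Y3 T W C3 V X fun gC _ ξ' c _ =>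
        kA12W N0 C0 En mo cn tt G1 G2 D1 D2 h S A B X C1 C2 C3 Y1 Y2 Y3 z1 z3 az
          gK gL ξ κ l gC ξ' c)
    (ppos (psub (g3X la Ga Y3 T C3 V) az))
    (ppos (psub az (g3X lb Gb Y3 T C3 V)))
    (out12 D D3 S C1 C2 C3)

/-- the test after the choice of the segment, family `B` -/
noncomputable def kB12W (N0 : ℕ) (C0 En mo : Fn1) (cn : Con) (tn l2 : Bool) (G1 G2 : Gn)
    (D1 D2 : CnW) (h S A B T V X C1 C3 Y1 Y2 Y3 z1 z3 az : ℕ) (gK gL ξ κ l gC ξ' c : ℕ) : Bool :=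
  frc (psub az ξ) fun dz =>
  frc (pneg (padd c (pmn gC (psub az ξ')))) fun e2 =>
  frc (pmn C1 ((G1.c D1).kT Y1 pone X)) fun e1 =>
  frc (sg tn (g3K l2 (G2.c D2) Y3 T C3 V X)) fun e3 =>
  frc (pneg (padd κ (pmn gK dz))) fun r2 => frc (pneg (padd l (pmn gL dz))) fun m2 =>
  frc (pmn C1 (G1.kT Y1 pone X)) fun r1 => frc (sg tn (g3K l2 G2 Y3 T C3 V X)) fun r3 =>
  frc (pmn C1 (G1.lT Y1 pone X)) fun m1 => frc (sg tn (g3L l2 G2 Y3 T C3 V X)) fun m3 =>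
  r12W N0 cn h S A B X C1 C3 Y1 Y2 Y3 (C0.t X) z1 z3 r1 r2 r3 m1 m2 m3
    (pmn (mo.t X) (wdT e1 e2 e3)) (pinv (En.t X))

/-- **The test of a leaf**, family `B`. -/
noncomputable def cB12W (N0 : ℕ) (C0 En mo : Fn1) (cn : Con) (tn l2 lo up : Bool)
    (G1 G2 Ga Gb : Gn) (D1 D2 Da Db : CnW) (D D3 : ℕ) (h S A B T V _W X : ℕ) : Bool :=
  frc (tcT1 cn A B) fun C1 => frc (tcT2 cn A B) fun C2 => frc (tcT3 cn A B) fun C3 =>
  frc (padd pone (pmn S C1)) fun Y1 => frc (padd pone (pmn S C2)) fun Y2 =>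
  frc (padd (pnc 2) (pmn S C3)) fun Y3 => frc (pmn C1 (G1.xT Y1 pone)) fun z1 =>
  frc (sg tn (g3X l2 G2 Y3 T C3 V)) fun z3 => frc (psub z1 z3) fun az =>
  frc (padd (phf pone) (pmn S az)) fun Z =>
  ch4 (Nat.land h 3)
    (segBT lo up Ga Gb S Y2 pone C2 Z (phf (C0.t X)) X fun gK gL ξ κ l =>
      segBT lo up (Ga.c Da) (Gb.c Db) S Y2 pone C2 Z pzero X fun gC _ ξ' c _ =>
        kB12W N0 C0 En mo cn tn l2 G1 G2 D1 D2 h S A B T V X C1 C3 Y1 Y2 Y3 z1 z3 az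
          gK gL ξ κ l gC ξ' c)
    (ppos (sl lo (psub (pmn C2 (Ga.xT Y2 pone)) az) (psub (Ga.xV Y2) Z)))
    (ppos (sl (band lo up) (psub az (pmn C2 (Gb.xT Y2 pone))) (psub Z (Gb.xV Y2))))
    (out12 D D3 S C1 C2 C3)

theorem cA12W_sound {E : Pt} {N0 : ℕ} {C0 En mo : Fn1} {cn : Con} (hc : isC12 cn)
    {tt la lb : Bool} (hab : lb = true → la = true) {G1 G2 Ga Gb : Gn} {D1 D2 Da Db : CnW}
    {D D3 h S' A B T V W X : ℕ}
    {y y' s a b t τ w x : ℝ} (P : P12 cn y y' s a b t τ w) (x0 : 0 < x) (x1 : x < 1)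
    (hS : Enc E S' s) (hA : Enc E A a) (hB : Enc E B b) (hT : Enc E T t) (hV : Enc E V τ)
    (hW : Enc E W w) (hX : Enc E X x)
    (h1 : G1.At 1 (1 / 2) (C0.v x) x) (h2 : G2.At 1 (1 / 2) (C0.v x) x)
    (ha : Ga.At3 la (C0.v x) x) (hb : Gb.At3 lb (C0.v x) x)
    (g1 : (G1.c D1).At 1 (1 / 2) 0 x) (g2 : (G2.c D2).At 1 (1 / 2) 0 x)
    (ga : (Ga.c Da).At3 la 0 x) (gb : (Gb.c Db).At3 lb 0 x)
    (ht : cA12W N0 C0 En mo cn tt la lb G1 G2 Ga Gb D1 D2 Da Db D D3 h S' A B T V W X = true) :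
    St12AW N0 (En.v x) (mo.v x) cn y y' x G1 G2 Ga Gb D1 D2 Da Db D D3 tt la lb := by
  intro hin i1 i2 T' TL TC hT' hTL hTC
  have hC1 := enc_tcT1 cn hA hB
  have hC2 := enc_tcT2 cn hA hB
  have hC3 := enc_tcT3 cn hA hB
  obtain ⟨hY1, hY2, hY3, e3⟩ := P.enc hc hS hA hB
  have e1 : y - 1 = s * tc1 cn a b := by rw [P.e1]; ring
  have e2 : y' - 1 = s * tc2 cn a b := by rw [P.e2]; ring
  have hT2 : Enc E T (c3n (y + y')) := enc_cast hT P.ht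
  have ev : c3n (y + y') = s * τ := by rw [← P.ht]; exact P.hτ
  have ew : 2 - (y + y') = c3n (y + y') * w := by rw [← P.ht]; exact P.hw
  obtain ⟨⟨ξ1, a1, a2⟩, ⟨κ1, b1, b2⟩, ⟨τ1, d1, d2⟩⟩ := G1.slopes hY1 (enc_one E) hX
  obtain ⟨⟨ξ2, a3, a4⟩, ⟨κ2, b3, b4⟩, ⟨τ2, d3, d4⟩⟩ := G2.slopes hY2 (enc_one E) hX
  obtain ⟨⟨ξa, f1, f2⟩, -, -⟩ := g3_sound la Ga hY3 hT2 hC3 hV hX e3 ev ha
  obtain ⟨⟨ξb, f3, f4⟩, -, -⟩ := g3_sound lb Gb hY3 hT2 hC3 hV hX e3 ev hb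
  rw [e1] at a2 b2 d2
  rw [e2] at a4 b4 d4
  have z1 := enc_mn hC1 a1
  have z3 := enc_sub z1 (enc_mn hC2 a3)
  have az := enc_sg tt z3
  have hX12 : G1.xv y = 1 / 2 + s * (tc1 cn a b * ξ1) := by have := h1.X; linarith
  have hX13 : G1.xv y - G2.xv y' = s * (tc1 cn a b * ξ1 - tc2 cn a b * ξ2) := by
    have := h2.X
    have h4 : G2.xv y' = 1 / 2 + s * (tc2 cn a b * ξ2) := by linarith
    rw [hX12, h4]
    ring
  have hZ : sgr tt (G1.xv y - G2.xv y') = s * sgr tt (tc1 cn a b * ξ1 - tc2 cn a b * ξ2) := by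
    rw [hX13, sgr_mul]
  unfold cA12W at ht
  simp only [frc_eq] at ht
  rcases ch4_true ht with ht | ht | ht | ht
  · obtain ⟨gK, gL, ξ, κ, l, GK, GM, XI, KA, LA, k1, k2, k3, k4, k5, hk, eT, eL⟩ :=
      seg3T_sound hab hY3 hT2 hW hC3 hV hX ew e3 ev ha hb ht i1 i2 hT' hTL
    obtain ⟨gC, gz, ξ', κ', l', GC, GZ, XI', KA', LA', k6, -, k8, k9, -, hk, eTC, -⟩ :=
      seg3T_sound hab hY3 hT2 hW hC3 hV hX ew e3 ev ga gb hk i1 i2 hTC lin_zz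
    obtain ⟨-, ⟨η1, p1, p2⟩, -⟩ := (G1.c D1).slopes hY1 (enc_one E) hX
    obtain ⟨-, ⟨η2, p3, p4⟩, -⟩ := (G2.c D2).slopes hY2 (enc_one E) hX
    rw [e1] at p2
    rw [e2] at p4
    unfold kA12W at hk
    simp only [frc_eq] at hk
    have dz := enc_sub az k3
    have r3 := enc_sg tt (enc_add k4 (enc_mn k1 dz))
    have l3 := enc_sg tt (enc_add k5 (enc_mn k2 dz))
    have r1 := enc_mn hC1 b1
    have r2 := enc_neg (enc_mn hC2 b3)
    have l1 := enc_mn hC1 d1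
    have l2 := enc_neg (enc_mn hC2 d3)
    have q3 := enc_sg tt (enc_add k9 (enc_mn k6 (enc_sub az k8)))
    have q1 := enc_mn hC1 p1
    have q2 := enc_neg (enc_mn hC2 p3)
    have u1 : (G1.c D1).kv y x = s * (tc1 cn a b * η1) := by
      have := g1.K
      linarith
    have u2 : -(G2.c D2).kv y' x = s * -(tc2 cn a b * η2) := by
      have := g2.K
      linarith
    have u3 : sgr tt TC = s * sgr tt (κ' + gC * (sgr tt (tc1 cn a b * ξ1 - tc2 cn a b * ξ2) - ξ')) := by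
      rw [eTC, ← sgr_mul]
      congr 1
      rw [hZ]
      ring
    unfold Con12W levW
    rw [e1, e2, e3, u1, u2, u3, wdR_smul P.s0.le,
      show mo.v x * (s * wdR (tc1 cn a b * η1) (-(tc2 cn a b * η2))
        (sgr tt (κ' + gC * (sgr tt (tc1 cn a b * ξ1 - tc2 cn a b * ξ2) - ξ')))) = s * (mo.v x *
        wdR (tc1 cn a b * η1) (-(tc2 cn a b * η2))
        (sgr tt (κ' + gC * (sgr tt (tc1 cn a b * ξ1 - tc2 cn a b * ξ2) - ξ')))) by ring]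
    refine r12W_sound hc (enc_mn (mo.enc hX) (enc_wdT q1 q2 q3)) (enc_inv (En.enc hX)) P.s0.le P.a0 P.b0 P.ab x0 x1 hS hA hB hX hC1 hC3 hY1 hY2 hY3
      (C0.enc hX) z1 z3 r1 r2 r3 l1 l2 l3 P.e1 P.e2 hX12 hX13 ?_ ?_ ?_ ?_ ?_ ?_ hk
    · have := h1.K
      linarith
    · have := h2.K
      linarith
    · rw [eT, ← sgr_mul]
      congr 1
      rw [hZ]
      ring
    · have := h1.L
      linarith
    · have := h2.L
      linarith
    · rw [eL, ← sgr_mul]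
      congr 1
      rw [hZ]
      ring
  · exfalso
    have := ppos_sound (enc_sub f1 az) ht
    rw [hZ, f2] at i1
    nlinarith [mul_pos P.s0 this]
  · exfalso
    have := ppos_sound (enc_sub az f3) ht
    rw [hZ, f4] at i2
    nlinarith [mul_pos P.s0 this]
  · exact (out12_sound hS hC1 hC2 hC3 e1 e2 e3 hin ht).elim

theorem cB12W_sound {E : Pt} {N0 : ℕ} {C0 En mo : Fn1} {cn : Con} (hc : isC12 cn)
    {tn l2 lo up : Bool} {G1 G2 Ga Gb : Gn} {D1 D2 Da Db : CnW} {D D3 h S' A B T V W X : ℕ}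
    {y y' s a b t τ w x : ℝ} (P : P12 cn y y' s a b t τ w) (x0 : 0 < x) (x1 : x < 1)
    (hS : Enc E S' s) (hA : Enc E A a) (hB : Enc E B b) (hT : Enc E T t) (hV : Enc E V τ)
    (hX : Enc E X x) (h1 : G1.At 1 (1 / 2) (C0.v x) x) (h2 : G2.At3 l2 (C0.v x) x)
    (ha : lo = true → Ga.At 1 (1 / 2) (C0.v x) x)
    (hb : lo = true → up = true → Gb.At 1 (1 / 2) (C0.v x) x)
    (g1 : (G1.c D1).At 1 (1 / 2) 0 x) (g2 : (G2.c D2).At3 l2 0 x)
    (ga : lo = true → (Ga.c Da).At 1 (1 / 2) 0 x)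
    (gb : lo = true → up = true → (Gb.c Db).At 1 (1 / 2) 0 x)
    (ht : cB12W N0 C0 En mo cn tn l2 lo up G1 G2 Ga Gb D1 D2 Da Db D D3 h S' A B T V W X = true) :
    St12BW N0 (En.v x) (mo.v x) cn y y' x G1 G2 Ga Gb D1 D2 Da Db D D3 tn l2 := by
  intro hin i1 i2 T' TL TC hT' hTL hTC
  have hC1 := enc_tcT1 cn hA hB
  have hC2 := enc_tcT2 cn hA hB
  have hC3 := enc_tcT3 cn hA hB
  obtain ⟨hY1, hY2, hY3, e3⟩ := P.enc hc hS hA hB
  have e1 : y - 1 = s * tc1 cn a b := by rw [P.e1]; ring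
  have e2 : y' - 1 = s * tc2 cn a b := by rw [P.e2]; ring
  have hT2 : Enc E T (c3n (y + y')) := enc_cast hT P.ht
  have ev : c3n (y + y') = s * τ := by rw [← P.ht]; exact P.hτ
  obtain ⟨⟨ξ1, a1, a2⟩, ⟨κ1, b1, b2⟩, ⟨τ1, d1, d2⟩⟩ := G1.slopes hY1 (enc_one E) hX
  obtain ⟨⟨ξ3, f1, f2⟩, ⟨κ3, f3, f4⟩, ⟨τ3, f5, f6⟩⟩ :=
    g3_sound l2 G2 hY3 hT2 hC3 hV hX e3 ev h2
  rw [e1] at a2 b2 d2
  have z1 := enc_mn hC1 a1
  have z3 := enc_sg tn f1
  have az := enc_sub z1 z3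
  have hh := enc_half (enc_one E)
  have hX12 : G1.xv y = 1 / 2 + s * (tc1 cn a b * ξ1) := by have := h1.X; linarith
  have hX13 : sgr tn (G2.xv (c3r l2 (y + y'))) = s * sgr tn ξ3 := by rw [f2, sgr_mul]
  have hZ : G1.xv y - sgr tn (G2.xv (c3r l2 (y + y'))) =
      1 / 2 + s * (tc1 cn a b * ξ1 - sgr tn ξ3) := by
    rw [hX12, hX13]
    ring
  have eZ := enc_add hh (enc_mn hS az)
  rw [← hZ] at eZ
  unfold cB12W at ht
  simp only [frc_eq] at ht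
  rcases ch4_true ht with ht | ht | ht | ht
  · have hC : Enc E (phf (C0.t X)) (C0.v x * (1 / 2)) :=
      enc_cast (enc_half (C0.enc hX)) (by ring)
    obtain ⟨gK, gL, ξ, κ, l, GK, GM, XI, KA, LA, k1, k2, k3, k4, k5, hk, eT, eL⟩ :=
      segBT_sound P.s0 hS hY2 (enc_one E) hC2 eZ hC hX e2 ha hb ht i1 i2 hT' hTL
    obtain ⟨gC, gz, ξ', κ', l', GC, GZ, XI', KA', LA', k6, -, k8, k9, -, hk, eTC, -⟩ :=
      segBT_sound P.s0 hS hY2 (enc_one E) hC2 eZ (enc_cast (enc_zero E) (by ring)) hX e2 ga gb hk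
        i1 i2 hTC lin_zz
    obtain ⟨-, ⟨η1, p1, p2⟩, -⟩ := (G1.c D1).slopes hY1 (enc_one E) hX
    obtain ⟨-, ⟨η3, p3, p4⟩, -⟩ := g3_sound l2 (G2.c D2) hY3 hT2 hC3 hV hX e3 ev g2
    rw [e1] at p2
    unfold kB12W at hk
    simp only [frc_eq] at hk
    have dz := enc_sub az k3
    have r2 := enc_neg (enc_add k4 (enc_mn k1 dz))
    have m2 := enc_neg (enc_add k5 (enc_mn k2 dz))
    have r1 := enc_mn hC1 b1
    have r3 := enc_sg tn f3
    have m1 := enc_mn hC1 d1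
    have m3 := enc_sg tn f5
    have q2 := enc_neg (enc_add k9 (enc_mn k6 (enc_sub az k8)))
    have q1 := enc_mn hC1 p1
    have q3 := enc_sg tn p3
    have u1 : (G1.c D1).kv y x = s * (tc1 cn a b * η1) := by
      have := g1.K
      linarith
    have u2 : -TC = s * -(κ' + gC * ((tc1 cn a b * ξ1 - sgr tn ξ3) - ξ')) := by
      have : TC = 0 * (1 / 2) + (s * κ' + gC * (1 / 2 +
        s * (tc1 cn a b * ξ1 - sgr tn ξ3) - 1 / 2 - s * ξ')) := by rw [← hZ, ← eTC]; ring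
      rw [this]
      ring
    have u3 : sgr tn ((G2.c D2).kv (c3r l2 (y + y')) x) = s * sgr tn η3 := by rw [p4, sgr_mul]
    unfold Con12W levW
    rw [e1, e2, e3, u1, u2, u3, wdR_smul P.s0.le,
      show mo.v x * (s * wdR (tc1 cn a b * η1) (-(κ' + gC * ((tc1 cn a b * ξ1 - sgr tn ξ3) - ξ')))
        (sgr tn η3)) = s * (mo.v x *
        wdR (tc1 cn a b * η1) (-(κ' + gC * ((tc1 cn a b * ξ1 - sgr tn ξ3) - ξ')))
        (sgr tn η3)) by ring]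
    refine r12W_sound hc (enc_mn (mo.enc hX) (enc_wdT q1 q2 q3)) (enc_inv (En.enc hX)) P.s0.le P.a0 P.b0 P.ab x0 x1 hS hA hB hX hC1 hC3 hY1 hY2 hY3
      (C0.enc hX) z1 z3 r1 r2 r3 m1 m2 m3 P.e1 P.e2 hX12 hX13 ?_ ?_ ?_ ?_ ?_ ?_ hk
    · have := h1.K
      linarith
    · have : T' = C0.v x * (1 / 2) + (s * κ + gK * (1 / 2 +
        s * (tc1 cn a b * ξ1 - sgr tn ξ3) - 1 / 2 - s * ξ)) := by rw [← hZ, ← eT]; ring
      rw [this]
      ring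
    · rw [f4, sgr_mul]
    · have := h1.L
      linarith
    · rw [eL, hZ]
      ring
    · rw [f6, sgr_mul]
  · exfalso
    cases lo
    · rw [sl_f] at ht
      obtain ⟨vx, -, -⟩ := Ga.values hY2 hX
      have := ppos_sound (enc_sub vx eZ) ht
      linarith
    · rw [sl_t] at ht
      obtain ⟨⟨ξa, g1, g2⟩, -, -⟩ := Ga.slopes hY2 (enc_one E) hX
      have := ppos_sound (enc_sub (enc_mn hC2 g1) az) ht
      have h4 := (ha rfl).X
      rw [e2] at g2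
      rw [hZ] at i1
      nlinarith [mul_pos P.s0 this]
  · exfalso
    cases lo
    · rw [band_f, sl_f] at ht
      obtain ⟨vx, -, -⟩ := Gb.values hY2 hX
      have := ppos_sound (enc_sub eZ vx) ht
      linarith
    · cases up
      · rw [band_tf, sl_f] at ht
        obtain ⟨vx, -, -⟩ := Gb.values hY2 hX
        have := ppos_sound (enc_sub eZ vx) ht
        linarith
      · rw [band_tt, sl_t] at ht
        obtain ⟨⟨ξb, g1, g2⟩, -, -⟩ := Gb.slopes hY2 (enc_one E) hX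
        have := ppos_sound (enc_sub az (enc_mn hC2 g1)) ht
        have h4 := (hb rfl rfl).X
        rw [e2] at g2
        rw [hZ] at i2
        nlinarith [mul_pos P.s0 this]
  · exact (out12_sound hS hC1 hC2 hC3 e1 e2 e3 hin ht).elim

end Pool.Agent.Strip051.PB
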