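import Pool.Agent.Strip051.PB.Base
import Pool.Agent.Strip051.PB.Cuts
import Pool.Agent.Strip051.LC.Exact.CostNode

/-! # Rows for the costs of the edges

Between two adjacent node curves the kernels are linear in the abscissa, so the cost of an edge is a
convex function of the position `l` in the segment, while the pieces of the cost functions `cbv C`
are concave. A leaf gives a chain of positions `0 = l_0 < l_1 < ... = 1` in sixteenths and for each
part of the segment a piece which bounds the cost at both ends. -/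

namespace Pool.Agent.Strip051.PB

open Pool.Agent.StripNear Pool.Agent.StripSquare Pool.Agent.Strip051.Sweep
open Pool.Agent.Strip051.LC
open Pool.Agent.Strip051.LC.Box (Aff affv mnv cbv le_mnv le_cbv mnv_le)

/-! ### Real side -/

/-- The cost at the position `l` in a segment, from the weighted values at its ends. -/
noncomputable def ccl (a0 a1 b0 b1 c0 c1 l : ℝ) : ℝ :=
  |(1 - l) * a0 + l * a1| + |(1 - l) * b0 + l * b1| + |(1 - l) * c0 + l * c1|

theorem ccl_cvx (a0 a1 b0 b1 c0 c1 : ℝ) {u v t : ℝ} (t0 : 0 ≤ t) (t1 : t ≤ 1) :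
    ccl a0 a1 b0 b1 c0 c1 ((1 - t) * u + t * v) ≤
      (1 - t) * ccl a0 a1 b0 b1 c0 c1 u + t * ccl a0 a1 b0 b1 c0 c1 v := by
  have key : ∀ a a' : ℝ, |(1 - ((1 - t) * u + t * v)) * a + ((1 - t) * u + t * v) * a'| ≤
      (1 - t) * |(1 - u) * a + u * a'| + t * |(1 - v) * a + v * a'| := by
    intro a a'
    rw [show (1 - ((1 - t) * u + t * v)) * a + ((1 - t) * u + t * v) * a' =
      (1 - t) * ((1 - u) * a + u * a') + t * ((1 - v) * a + v * a') by ring]
    refine (abs_add_le _ _).trans ?_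
    rw [abs_mul, abs_mul, abs_of_nonneg t0, abs_of_nonneg (show 0 ≤ 1 - t by linarith)]
  have h1 := key a0 a1
  have h2 := key b0 b1
  have h3 := key c0 c1
  unfold ccl
  linarith

/-- The values of a cell: positions, weighted values, height. -/
structure CV where
  (x0 x1 a0 a1 b0 b1 c0 c1 : ℝ)

/-- The cost at the position `l`. -/
noncomputable def CV.cst (V : CV) (l : ℝ) : ℝ := ccl V.a0 V.a1 V.b0 V.b1 V.c0 V.c1 l

/-- The abscissa at the position `l`. -/
noncomputable def CV.X (V : CV) (l : ℝ) : ℝ := (1 - l) * V.x0 + l * V.x1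

/-- Between two positions at which the same piece bounds the cost. -/
theorem CV.between (V : CV) {C : List (List Aff)} {F : List Aff} (hF : F ∈ C) (hne : F ≠ [])
    {T u v l : ℝ} (h1 : V.cst u ≤ mnv F (V.X u) T) (h2 : V.cst v ≤ mnv F (V.X v) T) (hu : u ≤ l)
    (hv : l ≤ v) : V.cst l ≤ cbv C (V.X l) T := by
  rcases (hu.trans hv).eq_or_lt with h | h
  · have : l = u := le_antisymm (by rw [h]; exact hv) hu
    rw [this]
    exact h1.trans (le_cbv hF _ _)
  · have hd : 0 < v - u := by linarith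
    obtain ⟨t, ht⟩ : ∃ t, t = (l - u) / (v - u) := ⟨_, rfl⟩
    have t0 : 0 ≤ t := by rw [ht]; exact div_nonneg (by linarith) hd.le
    have t1 : t ≤ 1 := by rw [ht]; exact div_le_one_of_le₀ (by linarith) hd.le
    have e : l = (1 - t) * u + t * v := by
      have : t * (v - u) = l - u := by rw [ht]; field_simp
      linarith
    have eX : V.X l = (1 - t) * V.X u + t * V.X v := by
      rw [e]
      unfold CV.X
      ring
    have k1 : V.cst l ≤ (1 - t) * V.cst u + t * V.cst v := by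
      rw [e]
      exact ccl_cvx _ _ _ _ _ _ t0 t1
    have k2 := mul_le_mul_of_nonneg_left h1 (show 0 ≤ 1 - t by linarith)
    have k3 := mul_le_mul_of_nonneg_left h2 t0
    have k4 := mnv_concave hne (X0 := V.X u) (X1 := V.X v) (T := T) t0 t1
    have k5 := le_cbv hF (V.X l) T
    rw [eX] at k5 ⊢
    linarith

/-- the factor `1 - |y - jq a|` in the quarter `a` -/
noncomputable def faR (a : ℕ) (y : ℝ) : ℝ :=
  match a with
  | 0 => 1 - y
  | 1 => y
  | 2 => 2 - y
  | _ => y - 1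

theorem faR_eq {a : ℕ} {y : ℝ} (h : InQ a y) : faR a y = 1 - |y - jq a| := by
  match a, h with
  | 0, ⟨h1, h2⟩ =>
    show 1 - y = 1 - |y - ((0 : ℕ) : ℝ)|
    rw [Nat.cast_zero, sub_zero, abs_of_nonneg h1]
  | 1, ⟨h1, h2⟩ =>
    show y = 1 - |y - ((1 : ℕ) : ℝ)|
    rw [Nat.cast_one, abs_of_nonpos (by linarith)]
    ring
  | 2, ⟨h1, h2⟩ =>
    show 2 - y = 1 - |y - ((1 : ℕ) : ℝ)|
    rw [Nat.cast_one, abs_of_nonneg (by linarith)]
    ring
  | 3, ⟨h1, h2⟩ =>
    show y - 1 = 1 - |y - ((2 : ℕ) : ℝ)|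
    push_cast
    rw [abs_of_nonpos (by linarith)]
    ring
  | _ + 4, h => exact h.elim

/-! ### Packed side -/

/-- the factor `1 - |y - jq a|` -/
noncomputable def faT (a Y : ℕ) : ℕ :=
  Nat.rec (motive := fun _ => ℕ) (psub pone Y) (fun a _ => Nat.rec (motive := fun _ => ℕ) Y
    (fun a _ => Nat.rec (motive := fun _ => ℕ) (psub (pnc 2) Y) (fun _ _ => psub Y pone) a) a) a

/-- product with an integer; `X'` is used for negative integers -/
noncomputable def pzm (z : ℤ) (X X' : ℕ) : ℕ :=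
  Int.rec (motive := fun _ => ℕ) (fun n => pnat n X) (fun n => pneg (pnat (Nat.succ n) X')) z

/-- both signs -/
noncomputable def s2 (B A : ℕ) (k : ℕ → Bool) : Bool := band (k (psub B A)) (k (padd B A))

/-- all signs -/
noncomputable def s8 (B A1 A2 A3 : ℕ) : Bool := s2 B A1 fun B => s2 B A2 fun B => s2 B A3 ppos

/-- sixteen times the value at the position `a / 16` -/
noncomputable def mix (a X0 X1 : ℕ) : ℕ := padd (pnat (Nat.sub 16 a) X0) (pnat a X1)

/-- sixteen times `4096` times the value of an affine function -/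
noncomputable def affT (f : Aff) (X T T' : ℕ) : ℕ :=
  padd (padd (pzm f.a X X) (pzm f.b T T')) (pzm f.c (pnc 16) (pnc 16))

/-- all affine functions of a piece bound the cost at one position -/
noncomputable def okF (F : List Aff) (X T T' A1 A2 A3 : ℕ) : Bool :=
  List.rec (motive := fun _ => Bool) true (fun f _ ih => band (s8 (affT f X T T') A1 A2 A3) ih) F

/-- the piece with the number `k` -/
noncomputable def nthF (C : List (List Aff)) (k : ℕ) : List Aff :=
  List.rec (motive := fun _ => ℕ → List Aff) (fun _ => [])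
    (fun F _ ih k => Nat.rec (motive := fun _ => List Aff) F (fun k _ => ih k) k) C k

/-- the list is not empty -/
noncomputable def nen (F : List Aff) : Bool :=
  List.rec (motive := fun _ => Bool) false (fun _ _ _ => true) F

/-- the piece `F` bounds the cost at the position `a / 16` -/
noncomputable def okE (F : List Aff) (X0 X1 T T' A0 A1 B0 B1 C0 C1 a : ℕ) : Bool :=
  okF F (mix a X0 X1) T T' (pnat 4096 (mix a A0 A1)) (pnat 4096 (mix a B0 B1))
    (pnat 4096 (mix a C0 C1))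

/-- the chain of positions: from `a` on -/
noncomputable def chn (C : List (List Aff)) (k : List Aff → ℕ → Bool) (n : ℕ) : ℕ → ℕ → Bool :=
  Nat.rec (motive := fun _ => ℕ → ℕ → Bool) (fun _ _ => false)
    (fun _ ih a h => (fun b F => band (band (nen F) (Nat.ble b 16)) (band (k F a) (band (k F b)
      (Bool.rec (ih b (Nat.shiftRight h 9)) true (Nat.beq b 16)))))
      (Nat.land h 31) (nthF C (Nat.land (Nat.shiftRight h 5) 15))) n

/-- the test of a leaf from the values at the ends of the segment -/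
noncomputable def cleaf (C : List (List Aff)) (h X0 X1 T A0 A1 B0 B1 C0 C1 : ℕ) : Bool :=
  chn C (fun F a => okE F X0 X1 (pnat 16 (pmul (pdc 929887696 0) T))
    (pnat 16 (pmul (pdc 929887697 0) T)) A0 A1 B0 B1 C0 C1 a) 16 0 h

/-- The values on a curve as functions of the coordinate of a cell. -/
structure CN where
  X : Fn1
  K : Fn2
  L : Fn2
  C : Fn2

/-- the test of a cell -/
noncomputable def crow (m0 m1 : CN) (Y w1 w2 w3 : Fn1) (a : ℕ) (C : List (List Aff))
    (h p _q x : ℕ) : Bool :=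
  frc (Y.t p) fun T => frc (pnorm (pmul (w1.t x) (faT a T))) fun G => frc (w2.t x) fun H =>
    frc (w3.t x) fun J => frc (m0.X.t p) fun X0 => frc (m1.X.t p) fun X1 =>
      frc (pnorm (pmul G (pnorm (m0.K.t p x)))) fun A0 =>
        frc (pnorm (pmul G (pnorm (m1.K.t p x)))) fun A1 =>
          frc (pnorm (pmul H (pnorm (m0.L.t p x)))) fun B0 =>
            frc (pnorm (pmul H (pnorm (m1.L.t p x)))) fun B1 =>
              frc (pnorm (pmul J (pnorm (m0.C.t p x)))) fun C0 =>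
                frc (pnorm (pmul J (pnorm (m1.C.t p x)))) fun C1 =>
                  cleaf C h X0 X1 T A0 A1 B0 B1 C0 C1

/-! ### Soundness -/

section

attribute [local irreducible] padd psub pneg pmul psq pinv psqrt psqrtg pabs pps pmax pmin pphi plam
  pcase phf pnat prat pscale pnorm pdc pnc pone ppos pnn Enc

variable {E : Pt}

theorem enc_faT (a : ℕ) {Y : ℕ} {y : ℝ} (h : Enc E Y y) : Enc E (faT a Y) (faR a y) := by
  match a with
  | 0 => exact enc_sub (enc_one E) h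
  | 1 => exact h
  | 2 => exact enc_cast (enc_sub (enc_pnc E 2) h) (by simp [faR])
  | _ + 3 => exact enc_sub h (enc_one E)

theorem s8_sound {B A1 A2 A3 : ℕ} {b a1 a2 a3 : ℝ} (hB : Enc E B b) (h1 : Enc E A1 a1)
    (h2 : Enc E A2 a2) (h3 : Enc E A3 a3) (h : s8 B A1 A2 A3 = true) :
    |a1| + |a2| + |a3| < b := by
  have k2 : ∀ {k : ℕ → Bool} {B A : ℕ}, s2 B A k = true → k (psub B A) = true ∧
      k (padd B A) = true := fun h => band_true h
  obtain ⟨g1, g2⟩ := k2 h
  obtain ⟨g11, g12⟩ := k2 g1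
  obtain ⟨g21, g22⟩ := k2 g2
  obtain ⟨g111, g112⟩ := k2 g11
  obtain ⟨g121, g122⟩ := k2 g12
  obtain ⟨g211, g212⟩ := k2 g21
  obtain ⟨g221, g222⟩ := k2 g22
  have e1 := ppos_sound (enc_sub (enc_sub (enc_sub hB h1) h2) h3) g111
  have e2 := ppos_sound (enc_add (enc_sub (enc_sub hB h1) h2) h3) g112
  have e3 := ppos_sound (enc_sub (enc_add (enc_sub hB h1) h2) h3) g121
  have e4 := ppos_sound (enc_add (enc_add (enc_sub hB h1) h2) h3) g122
  have e5 := ppos_sound (enc_sub (enc_sub (enc_add hB h1) h2) h3) g211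
  have e6 := ppos_sound (enc_add (enc_sub (enc_add hB h1) h2) h3) g212
  have e7 := ppos_sound (enc_sub (enc_add (enc_add hB h1) h2) h3) g221
  have e8 := ppos_sound (enc_add (enc_add (enc_add hB h1) h2) h3) g222
  rcases abs_cases a1 with ⟨q1, _⟩ | ⟨q1, _⟩ <;> rcases abs_cases a2 with ⟨q2, _⟩ | ⟨q2, _⟩ <;>
    rcases abs_cases a3 with ⟨q3, _⟩ | ⟨q3, _⟩ <;> rw [q1, q2, q3] <;> linarith

theorem enc_mix {a X0 X1 : ℕ} {x0 x1 : ℝ} (ha : a ≤ 16) (h0 : Enc E X0 x0) (h1 : Enc E X1 x1) :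
    Enc E (mix a X0 X1) (16 * ((1 - (a : ℝ) / 16) * x0 + (a : ℝ) / 16 * x1)) := by
  refine enc_cast (enc_add (enc_nat _ h0) (enc_nat _ h1)) ?_
  have : ((Nat.sub 16 a : ℕ) : ℝ) = 16 - a := by
    have : Nat.sub 16 a = 16 - a := rfl
    rw [this, Nat.cast_sub ha]
    norm_num
  rw [this]
  ring

/-- a product with an integer, from bounds -/
theorem enc_pzm (z : ℤ) {X X' : ℕ} {v v' w : ℝ} (h : Enc E X v) (h' : Enc E X' v') (hv : v ≤ w)
    (hv' : w ≤ v') : ∃ u, Enc E (pzm z X X') u ∧ u ≤ z * w := by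
  cases z with
  | ofNat n =>
    refine ⟨n * v, enc_nat n h, ?_⟩
    have : ((Int.ofNat n : ℤ) : ℝ) = n := by simp
    rw [this]
    exact mul_le_mul_of_nonneg_left hv (Nat.cast_nonneg n)
  | negSucc n =>
    refine ⟨-((n.succ : ℕ) * v'), enc_neg (enc_nat n.succ h'), ?_⟩
    rw [Int.cast_negSucc]
    push_cast
    have := mul_le_mul_of_nonneg_left hv' (show (0 : ℝ) ≤ n + 1 by positivity)
    linarith

theorem enc_affT (f : Aff) {X T T' : ℕ} {x t t' τ : ℝ} (hX : Enc E X (16 * x))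
    (hT : Enc E T (16 * t)) (hT' : Enc E T' (16 * t')) (ht : t ≤ τ) (ht' : τ ≤ t') :
    ∃ u, Enc E (affT f X T T') u ∧ u ≤ 65536 * affv f x τ := by
  obtain ⟨u1, e1, g1⟩ := enc_pzm f.a hX hX le_rfl le_rfl
  obtain ⟨u2, e2, g2⟩ := enc_pzm f.b hT hT' (w := 16 * τ) (by linarith) (by linarith)
  obtain ⟨u3, e3, g3⟩ := enc_pzm f.c (enc_pnc E 16) (enc_pnc E 16) le_rfl le_rfl
  refine ⟨u1 + u2 + u3, enc_add (enc_add e1 e2) e3, ?_⟩
  unfold affv
  push_cast at g3
  linarith

theorem okF_sound {F : List Aff} (hF : F ≠ []) {X T T' A1 A2 A3 : ℕ} {x t t' τ a1 a2 a3 : ℝ}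
    (hX : Enc E X (16 * x)) (hT : Enc E T (16 * t)) (hT' : Enc E T' (16 * t')) (ht : t ≤ τ)
    (ht' : τ ≤ t') (h1 : Enc E A1 a1) (h2 : Enc E A2 a2) (h3 : Enc E A3 a3)
    (h : okF F X T T' A1 A2 A3 = true) : |a1| + |a2| + |a3| ≤ 65536 * mnv F x τ := by
  have key : ∀ f ∈ F, |a1| + |a2| + |a3| ≤ 65536 * affv f x τ := by
    clear hF
    induction F with
    | nil => intro f hf; exact absurd hf List.not_mem_nil
    | cons g F ih =>
      obtain ⟨k1, k2⟩ := band_true (show band (s8 (affT g X T T') A1 A2 A3)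
        (okF F X T T' A1 A2 A3) = true from h)
      intro f hf
      rcases List.mem_cons.1 hf with rfl | hf
      · obtain ⟨u, e, hu⟩ := enc_affT f hX hT hT' ht ht'
        linarith [s8_sound e h1 h2 h3 k1]
      · exact ih k2 f hf
  have := le_mnv hF (z := (|a1| + |a2| + |a3|) / 65536) fun f hf => by
    have := key f hf
    rw [div_le_iff₀ (by norm_num)]
    linarith
  rw [div_le_iff₀ (by norm_num)] at this
  linarith

/-- The packed values of a cell. -/
structure EncV (E : Pt) (V : CV) (X0 X1 A0 A1 B0 B1 C0 C1 : ℕ) : Prop where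
  x0 : Enc E X0 V.x0
  x1 : Enc E X1 V.x1
  a0 : Enc E A0 V.a0
  a1 : Enc E A1 V.a1
  b0 : Enc E B0 V.b0
  b1 : Enc E B1 V.b1
  c0 : Enc E C0 V.c0
  c1 : Enc E C1 V.c1

theorem okE_sound {V : CV} {X0 X1 A0 A1 B0 B1 C0 C1 T T' a : ℕ}
    (hV : EncV E V X0 X1 A0 A1 B0 B1 C0 C1) {F : List Aff} (hF : F ≠ []) {t t' τ : ℝ}
    (hT : Enc E T (16 * t)) (hT' : Enc E T' (16 * t')) (ht : t ≤ τ) (ht' : τ ≤ t') (ha : a ≤ 16)
    (h : okE F X0 X1 T T' A0 A1 B0 B1 C0 C1 a = true) :
    V.cst ((a : ℝ) / 16) ≤ mnv F (V.X ((a : ℝ) / 16)) τ := by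
  have := okF_sound hF (enc_mix ha hV.x0 hV.x1) hT hT' ht ht'
    (enc_nat 4096 (enc_mix ha hV.a0 hV.a1)) (enc_nat 4096 (enc_mix ha hV.b0 hV.b1))
    (enc_nat 4096 (enc_mix ha hV.c0 hV.c1)) h
  have e : ∀ v : ℝ, |((4096 : ℕ) : ℝ) * (16 * v)| = 65536 * |v| := by
    intro v
    rw [abs_mul, abs_mul]
    norm_num
    ring
  rw [e, e, e] at this
  unfold CV.cst ccl CV.X
  linarith

theorem nthF_mem {C : List (List Aff)} : ∀ {k : ℕ}, nthF C k ≠ [] → nthF C k ∈ C := by
  induction C with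
  | nil => intro k h; exact absurd rfl h
  | cons F C ih =>
    intro k h
    match k with
    | 0 => exact List.mem_cons_self
    | k + 1 => exact List.mem_cons_of_mem _ (ih (k := k) h)

theorem nen_ne {F : List Aff} (h : nen F = true) : F ≠ [] := by
  rintro rfl
  exact absurd (show false = true from h) (by decide)

theorem chn_sound {C : List (List Aff)} {k : List Aff → ℕ → Bool} {V : CV} {τ : ℝ}
    (hk : ∀ F a, F ≠ [] → a ≤ 16 → k F a = true →
      V.cst ((a : ℝ) / 16) ≤ mnv F (V.X ((a : ℝ) / 16)) τ) (n : ℕ) :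
    ∀ a h, a ≤ 16 → chn C k n a h = true → ∀ l, (a : ℝ) / 16 ≤ l → l ≤ 1 →
      V.cst l ≤ cbv C (V.X l) τ := by
  induction n with
  | zero => intro a h _ hh; exact absurd (show false = true from hh) (by decide)
  | succ n ih =>
    intro a h ha hh l h0 h1
    obtain ⟨b, hb⟩ : ∃ b, b = Nat.land h 31 := ⟨_, rfl⟩
    obtain ⟨F, hF⟩ : ∃ F, F = nthF C (Nat.land (Nat.shiftRight h 5) 15) := ⟨_, rfl⟩
    have hh' : band (band (nen F) (Nat.ble b 16)) (band (k F a) (band (k F b)
        (Bool.rec (chn C k n b (Nat.shiftRight h 9)) true (Nat.beq b 16)))) = true := by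
      rw [hb, hF]
      exact hh
    obtain ⟨g1, g2⟩ := band_true hh'
    obtain ⟨g3, g4⟩ := band_true g1
    obtain ⟨g5, g6⟩ := band_true g2
    obtain ⟨g7, g8⟩ := band_true g6
    have hne := nen_ne g3
    have hb16 : b ≤ 16 := Nat.le_of_ble_eq_true g4
    have hmem : F ∈ C := by
      rw [hF] at hne ⊢
      exact nthF_mem hne
    have e1 := hk F a hne ha g5
    have e2 := hk F b hne hb16 g7
    rcases le_or_gt l ((b : ℝ) / 16) with hl | hl
    · exact V.between hmem hne e1 e2 h0 hl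
    · have hbne : Nat.beq b 16 = false := by
        by_contra hc
        rw [Bool.not_eq_false] at hc
        have : b = 16 := Nat.eq_of_beq_eq_true hc
        rw [this] at hl
        norm_num at hl
        linarith
      rw [hbne] at g8
      exact ih b _ hb16 g8 l hl.le h1

/-- Bounds for the height. -/
theorem h0_lo : (929887696 : ℝ) / S ≤ h0 := by
  have h1 := h0_sq
  have h2 := h0_pos
  rw [div_le_iff₀ (by unfold S; norm_num)]
  unfold S
  push_cast
  nlinarith

theorem h0_hi : h0 ≤ (929887697 : ℝ) / S := by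
  have h1 := h0_sq
  have h2 := h0_pos
  rw [le_div_iff₀ (by unfold S; norm_num)]
  unfold S
  push_cast
  nlinarith

theorem cleaf_sound {V : CV} {X0 X1 A0 A1 B0 B1 C0 C1 T h : ℕ}
    (hV : EncV E V X0 X1 A0 A1 B0 B1 C0 C1) {y : ℝ} (hy : 0 ≤ y) (hT : Enc E T y)
    {C : List (List Aff)} (hh : cleaf C h X0 X1 T A0 A1 B0 B1 C0 C1 = true) {l : ℝ} (h0' : 0 ≤ l)
    (h1' : l ≤ 1) : V.cst l ≤ cbv C (V.X l) (h0 * y) := by
  have t1 : Enc E (pnat 16 (pmul (pdc 929887696 0) T)) (16 * ((929887696 : ℝ) / S * y)) := by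
    refine enc_cast (enc_nat 16 (enc_mul (enc_dc E _ _) hT)) ?_
    push_cast
    ring
  have t2 : Enc E (pnat 16 (pmul (pdc 929887697 0) T)) (16 * ((929887697 : ℝ) / S * y)) := by
    refine enc_cast (enc_nat 16 (enc_mul (enc_dc E _ _) hT)) ?_
    push_cast
    ring
  refine chn_sound (V := V) (τ := h0 * y) ?_ 16 0 h (by norm_num) hh l (by simpa using h0') h1'
  intro F a hne ha hk
  exact okE_sound hV hne t1 t2 (mul_le_mul_of_nonneg_right h0_lo hy)
    (mul_le_mul_of_nonneg_right h0_hi hy) ha hk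

/-- The values of a cell at the coordinate `p`. -/
noncomputable def cvR (m0 m1 : CN) (Y w1 w2 w3 : Fn1) (a : ℕ) (p x : ℝ) : CV :=
  ⟨m0.X.v p, m1.X.v p, w1.v x * faR a (Y.v p) * m0.K.v p x, w1.v x * faR a (Y.v p) * m1.K.v p x,
    w2.v x * m0.L.v p x, w2.v x * m1.L.v p x, w3.v x * m0.C.v p x, w3.v x * m1.C.v p x⟩

theorem crow_sound {m0 m1 : CN} {Y w1 w2 w3 : Fn1} {a : ℕ} {C : List (List Aff)}
    {h A B D : ℕ} {p x : ℝ} (hp : Enc E A p) (hx : Enc E D x) (hy : 0 ≤ Y.v p)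
    (hh : crow m0 m1 Y w1 w2 w3 a C h A B D = true) {l : ℝ} (h0' : 0 ≤ l) (h1' : l ≤ 1) :
    (cvR m0 m1 Y w1 w2 w3 a p x).cst l ≤ cbv C ((cvR m0 m1 Y w1 w2 w3 a p x).X l)
      (h0 * Y.v p) := by
  simp only [crow, frc_eq] at hh
  have hT := Y.enc hp
  have hG := enc_norm (enc_mul (w1.enc hx) (enc_faT a hT))
  refine cleaf_sound (V := cvR m0 m1 Y w1 w2 w3 a p x) ⟨m0.X.enc hp, m1.X.enc hp,
    enc_norm (enc_mul hG (enc_norm (m0.K.enc hp hx))),
    enc_norm (enc_mul hG (enc_norm (m1.K.enc hp hx))),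
    enc_norm (enc_mul (w2.enc hx) (enc_norm (m0.L.enc hp hx))),
    enc_norm (enc_mul (w2.enc hx) (enc_norm (m1.L.enc hp hx))),
    enc_norm (enc_mul (w3.enc hx) (enc_norm (m0.C.enc hp hx))),
    enc_norm (enc_mul (w3.enc hx) (enc_norm (m1.C.enc hp hx)))⟩ hy hT hh h0' h1'

/-- What a certificate gives. -/
def CR (m0 m1 : CN) (Y w1 w2 w3 : Fn1) (a : ℕ) (C : List (List Aff)) (p x : ℝ) : Prop :=
  0 ≤ Y.v p → ∀ l, 0 ≤ l → l ≤ 1 → (cvR m0 m1 Y w1 w2 w3 a p x).cst l ≤
    cbv C ((cvR m0 m1 Y w1 w2 w3 a p x).X l) (h0 * Y.v p)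

/-- **From the certificate of a cell.** -/
theorem crow_cert {m0 m1 : CN} {Y w1 w2 w3 : Fn1} {a : ℕ} {C : List (List Aff)}
    {P1 W1 P3 W3 : ℕ} (ht : ∃ t, chk3 (onCell P1 W1 0 0 P3 W3 (crow m0 m1 Y w1 w2 w3 a C))
      t 1 1 1 = true) {p x : ℝ} (hp : Rng P1 W1 p) (hx : Rng P3 W3 x) :
    CR m0 m1 Y w1 w2 w3 a C p x := by
  refine onCell_sound (Q := fun p _ x => CR m0 m1 Y w1 w2 w3 a C p x) ?_ ht hp.1 hp.2
    (q := 0) (by simp) (by simp) hx.1 hx.2
  intro E h A B D p q x h1 _ h3 hh hy l k0 k1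
  exact crow_sound h1 h3 hy hh k0 k1

end

end Pool.Agent.Strip051.PB
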