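import Pool.Agent.Strip051.PB.Table
import Pool.Agent.Strip051.LC.Exact.CertX
import Pool.Agent.Strip051.LC.Exact.SmallX
import Pool.Agent.Strip051.LC.Exact.Dir2

/-! # The certificates from the triples of quarters -/

namespace Pool.Agent.Strip051.PB

open Pool.Agent.StripNear Pool.Agent.StripSquare Pool.Agent.Strip051.Sweep
open Pool.Agent.Strip051.LC
open Pool.Agent.Strip051.LC.Line (A1u)

/-! ### The single point of the triple `2, 2, 3` -/

theorem ngv_223 {κ s ex R : ℝ} (h : 0 ≤ ex) : NGV κ s ex h0 h0 (R, -R, 0) := by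
  have hp := h0_pos
  have q2 : InQ 2 (1 : ℝ) := ⟨le_rfl, by norm_num⟩
  have q3 : InQ 3 (2 : ℝ) := ⟨by norm_num, le_rfl⟩
  have e2 : h0 + h0 = h0 * 2 := by ring
  have e1 : h0 = h0 * 1 := by ring
  have j1 : Line.jn h0 = 1 := by
    rw [e1, jn_q q2]
    rfl
  have j2 : Line.jn (h0 + h0) = 2 := by
    rw [e2, jn_q q3]
    rfl
  have t1 : Line.tau h0 = 0 := by
    rw [e1, tau_q q2]
    norm_num [jq]
  refine .pp (by rw [j1, j2]) (by rw [t1]) (by rw [t1]) ?_
  rw [t1]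
  have := moN_of (κ := κ) (x := s / h0) (ex := ex) (l1 := 0) (l2 := 0) (A1 := -R) (A2 := R)
    (A3 := 0) (g := 0) le_rfl le_rfl (by
      unfold slN stn pn1 pn3
      simp only [sub_zero, zero_mul, mul_one, mul_zero, zero_add, add_zero, one_mul,
        neg_add_cancel, zero_div, neg_neg]
      unfold Line.phi
      simpa using h)
  rw [mul_zero, mul_div_cancel₀ s hp.ne'] at this
  simpa using this

section

variable {n : ℕ} {P : Pos n} {x : ℝ} {R RA RB RL RC : Fin (n + 1) → ℕ → ℝ → ℝ → ℝ}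

theorem valK_223 (h : Pins P R x) {j : Fin (n + 1)} (hd : P.cur.dm j h0) :
    P.cur.valK (P.cur.cv j h0) 0 h0 h0 (tbl R x) = (R j 2 1 x, -R j 2 1 x, 0) := by
  have hp := h0_pos
  have q2 : InQ 2 (1 : ℝ) := ⟨le_rfl, by norm_num⟩
  have e : tbl R x h0 j = R j 2 1 x := by
    have := tbl_eq (R := R) (x := x) (i := j) q2
    rwa [mul_one] at this
  have k1 := P.cur.ker_cv h.adm (σ := 1) (Or.inl rfl) hp.le hd
  rw [one_mul, one_mul] at k1
  have k3 : ker P.cur.nodes (tbl R x) (fun _ _ => 0) 0 (h0 + h0) = 0 := Pos.ker_at_zero _ _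
  unfold Cur.valK
  rw [k3, zero_sub, P.cur.ker_neg, k1]
  have e' : tbl R x h0 (P.cur.tg j) = R j 2 1 x := e
  rw [e']

theorem crv_one (j : Fin (n + 1)) : P.cur.cv j h0 = crv P j 2 1 := by
  have q2 : InQ 2 (1 : ℝ) := ⟨le_rfl, by norm_num⟩
  have := linkX P j 2 1 q2
  rwa [mul_one] at this

theorem crv_one_ge (j : Fin (n + 1)) : 1 / 2 ≤ crv P j 2 1 := by
  have hp := h0_pos
  have hq := h0_sq
  rw [← crv_one]
  refine le_trans ?_ (P.cur.low j h0 hp.le (by linarith))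
  unfold c1
  apply Real.le_sqrt_of_sq_le
  linarith

theorem exn_223 (X : ℝ) : exn X 0 h0 h0 = X - 1 / 2 := by
  have hp := h0_pos
  unfold exn
  field_simp
  ring

theorem at223_far (κ : ℝ) (s : ℝ) (hA : Pins P RA x) (hL : Pins P RL x) :
    At223 P.cur (farS κ s (tbl RA x) (tbl RL x)) := by
  intro j hj
  unfold farS
  rw [valK_223 hA hj, valK_223 hL hj, exn_223, crv_one]
  refine ngv_223 ?_
  have h := crv_one_ge (P := P) j
  have e : farXV (RL j 2 1 x, -RL j 2 1 x, 0) = 0 := by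
    unfold farXV
    ring
  rw [e, abs_zero]
  linarith

theorem lev_223 (N0 : ℕ) (a s L : ℝ) :
    min (levXV N0 s a h0 h0 (L, -L, 0)) (levXV N0 s a h0 h0 (-(-L), -L, -0)) = mu N0 s * L := by
  have hne : h0 ≠ 0 := h0_pos.ne'
  have e1 : levXV N0 s a h0 h0 (L, -L, 0) = mu N0 s * L := by
    unfold levXV
    field_simp
    ring
  have e2 : levXV N0 s a h0 h0 (-(-L), -L, -0) = mu N0 s * L := by
    unfold levXV
    field_simp
    ring
  rw [e1, e2, min_self]

theorem at223_near {N0 : ℕ} (κ : ℝ) (a : ℝ) (hB : Pins P RB x) (hL : Pins P RL x)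
    (h : ∀ j, 0 ≤ crv P j 2 1 - 1 / 2 + mun N0 x * RL j 2 1 x) :
    At223 P.cur (nearL a N0 κ (h0 * x) (tbl RB x) (tbl RL x)) := by
  intro j hj
  unfold nearL
  rw [valK_223 hB hj, valK_223 hL hj, exn_223, crv_one]
  refine ngv_223 ?_
  simp only
  rw [lev_223, mu_n]
  exact h j

theorem wid_223 (c : ℝ) : wid (c, -c, 0) = 2 * |c| := by
  unfold wid
  simp only [sub_neg_eq_add, sub_zero]
  rw [abs_neg, ← two_mul, abs_mul, abs_of_pos (by norm_num : (0 : ℝ) < 2), max_self,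
    max_eq_left]
  linarith [abs_nonneg c]

/-- The property of the families for `1 / 2 ≤ x`. -/
def VE {ι : Type} (a : ℝ) (N0 : ℕ) (κ s E o : ℝ) (f : ℝ → ℝ) (vA vX vC : ℝ → ι → ℝ)
    (X12 X13 t t' : ℝ) (w : (ℝ → ι → ℝ) → ℝ × ℝ × ℝ) : Prop :=
  bothV a N0 κ s E o vA vX vC X12 X13 t t' w ∨
    (farD κ s vA vX X12 X13 t t' w ∧ nearE a N0 κ s E f vA vX vC X12 X13 t t' w)

theorem at223_both {N0 : ℕ} (κ a E o : ℝ) (f : ℝ → ℝ) (hA : Pins P RA x) (hL : Pins P RL x)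
    (hC : Pins P RC x)
    (h : ∀ j, 0 ≤ crv P j 2 1 - 1 / 2 + mun N0 x * (RL j 2 1 x - o * (2 * |RC j 2 1 x|))) :
    At223 P.cur (VE a N0 κ (h0 * x) E o f (tbl RA x) (tbl RL x) (tbl RC x)) := by
  intro j hj
  left
  refine ⟨0, ?_, ?_, ?_⟩
  · rw [valK_223 hA hj]
    exact ngv_223 le_rfl
  · rw [valK_223 hL hj, exn_223, crv_one]
    have h := crv_one_ge (P := P) j
    have e : farXV (RL j 2 1 x, -RL j 2 1 x, 0) = 0 := by
      unfold farXV
      ring
    rw [e, abs_zero]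
    linarith
  · rw [valK_223 hL hj, valK_223 hC hj, exn_223, crv_one, wid_223]
    simp only
    rw [lev_223, mu_n]
    have := h j
    linarith

/-! ### The properties depend only on the values -/

theorem congr_far {ι : Type} {K : Cur n ι} {κ s : ℝ} {vA vX : ℝ → ι → ℝ} (hA : K.adm vA)
    (hX : K.adm vX) : K.Congr (farS κ s vA vX) := by
  intro X12 X13 t t' w w' h hw
  unfold farS at *
  rwa [← h vA hA, ← h vX hX]

theorem congr_near {ι : Type} {K : Cur n ι} {a κ s : ℝ} {N0 : ℕ} {vB vX : ℝ → ι → ℝ}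
    (hB : K.adm vB) (hX : K.adm vX) : K.Congr (nearL a N0 κ s vB vX) := by
  intro X12 X13 t t' w w' h hw
  unfold nearL at *
  rwa [← h vB hB, ← h vX hX]

theorem congr_both {ι : Type} {K : Cur n ι} {a κ s E o : ℝ} {f : ℝ → ℝ} {N0 : ℕ}
    {vA vX vC : ℝ → ι → ℝ} (hA : K.adm vA) (hX : K.adm vX) (hC : K.adm vC) :
    K.Congr (VE a N0 κ s E o f vA vX vC) := by
  intro X12 X13 t t' w w' h hw
  unfold VE bothV farD nearE at *
  rwa [← h vA hA, ← h vX hX, ← h vC hC]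

/-! ### The certificates -/

/-- The facts about the tables by quarters for `x ≤ 1 / 2`. -/
structure RowsS (P : Pos n) (RA RB RL : Fin (n + 1) → ℕ → ℝ → ℝ → ℝ) (N0 : ℕ) (lv κ x : ℝ) :
    Prop where
  two : 2 ≤ N0
  lv0 : 0 ≤ lv
  κ0 : 0 ≤ κ
  x0 : 0 ≤ x
  x1 : x < 1
  pinA : Pins P RA x
  pinB : Pins P RB x
  pinL : Pins P RL x
  one : ∀ j, 0 ≤ crv P j 2 1 - 1 / 2 + mun N0 x * RL j 2 1 x
  farA : ∀ j k, j ≤ k → AllTA P.cur (farS κ (h0 * x) (tbl RA x) (tbl RL x)) j k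
  farB : ∀ j k, AllTB P.cur (farS κ (h0 * x) (tbl RA x) (tbl RL x)) j k
  nearA : ∀ j k, j ≤ k → AllTA P.cur (nearL (h0 * lv) N0 κ (h0 * x) (tbl RB x) (tbl RL x)) j k
  nearB : ∀ j k, AllTB P.cur (nearL (h0 * lv) N0 κ (h0 * x) (tbl RB x) (tbl RL x)) j k

section

variable {N0 : ℕ} {lv κ : ℝ}

theorem RowsS.bdd (h : RowsS P RA RB RL N0 lv κ x) :
    ∃ C, ∀ T i, 0 ≤ T → T ^ 2 ≤ 3 →
      |tbl RA x T i| ≤ C ∧ |tbl RB x T i| ≤ C ∧ |tbl RL x T i| ≤ C := by
  obtain ⟨CA, hA⟩ := h.pinA.abs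
  obtain ⟨CB, hB⟩ := h.pinB.abs
  obtain ⟨CL, hL⟩ := h.pinL.abs
  refine ⟨max CA (max CB CL), fun T i h1 h2 => ⟨?_, ?_, ?_⟩⟩
  · exact (hA T i h1 h2).trans (le_max_left _ _)
  · exact (hB T i h1 h2).trans ((le_max_left _ _).trans (le_max_right _ _))
  · exact (hL T i h1 h2).trans ((le_max_right _ _).trans (le_max_right _ _))

theorem RowsS.certS (h : RowsS P RA RB RL N0 lv κ x) :
    CertS P.cur (tbl RA x) (tbl RB x) (tbl RL x) N0 (h0 * lv) κ (h0 * x) := by
  have hp := h0_pos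
  exact {
    two := h.two
    a0 := mul_nonneg hp.le h.lv0
    κ0 := h.κ0
    s0 := mul_nonneg hp.le h.x0
    s1 := by nlinarith [h.x1]
    admA := h.pinA.adm
    admB := h.pinB.adm
    admX := h.pinL.adm
    bdd := h.bdd
    farA := fun j k hjk => (h.farA j k hjk).all (congr_far h.pinA.adm h.pinL.adm)
      (at223_far _ _ h.pinA h.pinL)
    farB := fun j k => (h.farB j k).all (congr_far h.pinA.adm h.pinL.adm)
      (at223_far _ _ h.pinA h.pinL)
    nearA := fun j k hjk => (h.nearA j k hjk).all (congr_near h.pinB.adm h.pinL.adm)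
      (at223_near _ _ h.pinB h.pinL h.one)
    nearB := fun j k => (h.nearB j k).all (congr_near h.pinB.adm h.pinL.adm)
      (at223_near _ _ h.pinB h.pinL h.one) }

/-- The certificate with the closed form on the unit circle. -/
theorem RowsS.certX (h : RowsS P RA RB RL N0 lv κ x) {c : ℝ} (c0 : 0 ≤ c) (hx : 0 < x)
    (unit : ∀ q y, InQ q y → h0 * y < 1 → RA 0 q y x = c * A1u (h0 * y))
    (amp : c * κ * (h0 * x * (h0 - h0 * x)) ≤ 2 * h0 * we (h0 * x)) :
    CertX P.cur (tbl RA x) (tbl RB x) (tbl RL x) N0 (h0 * lv) κ (h0 * x) c := by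
  have hp := h0_pos
  have k := h.certS
  exact {
    two := k.two
    a0 := k.a0
    κ0 := k.κ0
    c0 := c0
    s0 := mul_pos hp hx
    s1 := k.s1
    first := fun T h1 h2 => ⟨P.dm_zero h1 h2, P.cv_zero T⟩
    admA := k.admA
    admB := k.admB
    admX := k.admX
    bdd := k.bdd
    unit := by
      intro T h1 h2
      have hq := h0_sq
      have y0 : 0 ≤ T / h0 := div_nonneg h1 hp.le
      have y2 : T / h0 ≤ 2 := by
        rw [div_le_iff₀ hp]
        nlinarith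
      have e : h0 * (T / h0) = T := mul_div_cancel₀ T hp.ne'
      have k1 := unit _ _ (inQ_qr y0 y2) (by rwa [e])
      have k2 := tbl_eq (R := RA) (x := x) (i := (0 : Fin (n + 1))) (inQ_qr y0 y2)
      rw [e] at k1 k2
      exact k2.trans k1
    amp := amp
    farA := k.farA
    farB := k.farB
    nearA := k.nearA
    nearB := k.nearB }

end

/-- The facts about the tables by quarters for `1 / 2 ≤ x`. -/
structure RowsE (P : Pos n) (RA RL RC : Fin (n + 1) → ℕ → ℝ → ℝ → ℝ) (f : ℝ → ℝ) (N0 : ℕ)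
    (lv κ x E o : ℝ) : Prop where
  two : 2 ≤ N0
  lv0 : 0 ≤ lv
  κ0 : 0 ≤ κ
  E0 : 0 ≤ E
  x0 : 0 ≤ x
  x1 : x < 1
  pinA : Pins P RA x
  pinL : Pins P RL x
  pinC : Pins P RC x
  den : DenOk f (h0 * x)
  osc : ∀ a b, |∫ x in a..b, f x| ≤ o
  one : ∀ j, 0 ≤ crv P j 2 1 - 1 / 2 + mun N0 x * (RL j 2 1 x - o * (2 * |RC j 2 1 x|))
  famA : ∀ j k, j ≤ k → AllTA P.cur
    (VE (h0 * lv) N0 κ (h0 * x) E o f (tbl RA x) (tbl RL x) (tbl RC x)) j k
  famB : ∀ j k, AllTB P.cur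
    (VE (h0 * lv) N0 κ (h0 * x) E o f (tbl RA x) (tbl RL x) (tbl RC x)) j k

theorem RowsE.certE {N0 : ℕ} {lv κ E o : ℝ} {f : ℝ → ℝ}
    (h : RowsE P RA RL RC f N0 lv κ x E o) :
    CertE P.cur (tbl RA x) (tbl RL x) (tbl RC x) f N0 (h0 * lv) κ (h0 * x) E o := by
  have hp := h0_pos
  exact {
    two := h.two
    a0 := mul_nonneg hp.le h.lv0
    κ0 := h.κ0
    E0 := h.E0
    s0 := mul_nonneg hp.le h.x0
    s1 := by nlinarith [h.x1]
    admA := h.pinA.adm
    admX := h.pinL.adm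
    admC := h.pinC.adm
    den := h.den
    osc := h.osc
    bdd := by
      obtain ⟨CA, hA⟩ := h.pinA.abs
      obtain ⟨CB, hB⟩ := h.pinL.abs
      obtain ⟨CL, hL⟩ := h.pinC.abs
      refine ⟨max CA (max CB CL), fun T i h1 h2 => ⟨?_, ?_, ?_⟩⟩
      · exact (hA T i h1 h2).trans (le_max_left _ _)
      · exact (hB T i h1 h2).trans ((le_max_left _ _).trans (le_max_right _ _))
      · exact (hL T i h1 h2).trans ((le_max_right _ _).trans (le_max_right _ _))
    famA := fun j k hjk => (h.famA j k hjk).all (congr_both h.pinA.adm h.pinL.adm h.pinC.adm)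
      (at223_both _ _ _ _ _ h.pinA h.pinL h.pinC h.one)
    famB := fun j k => (h.famB j k).all (congr_both h.pinA.adm h.pinL.adm h.pinC.adm)
      (at223_both _ _ _ _ _ h.pinA h.pinL h.pinC h.one) }

end

end Pool.Agent.Strip051.PB
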