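import Pool.Agent.Strip051.PB.Ngv

/-! # The slack near an aligned corner

The two short arcs are `ρ a` and `ρ (1 - a)`, the excess and the defect `A1 + A2 - A3` are
multiples of `ρ`. After the division by `ρ` the slack is positive if one of three alternatives
holds. -/

namespace Pool.Agent.Strip051.PB

open Pool.Agent.Strip051.LC
open Pool.Agent.Strip051.LC.Line (phi phi_comm phi_le_half phi_neg_pos phi_pos_neg
  phi_nonneg_nonneg phi_nonpos_nonpos)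

/-- The mean of the positive part between two values of opposite sign. -/
theorem cone_opp {t q : ℝ} (ht : 0 ≤ t) (ht1 : t ≤ 1) (hq : 0 ≤ q) :
    Line.phi (-((1 - t) * q)) (t * q) = t ^ 2 * q / 2 := by
  have h1 : -((1 - t) * q) ≤ 0 := by nlinarith
  have h2 : 0 ≤ t * q := by positivity
  rw [phi_neg_pos h1 h2]
  rcases hq.eq_or_lt with h | h
  · rw [← h]
    simp
  · have : 2 * (t * q - -((1 - t) * q)) = 2 * q := by ring
    rw [this]
    field_simp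

theorem cone_sq {V P : ℝ} (h : V + P ≠ 0) :
    V ^ 2 / (2 * (V + P)) = (V - P + P ^ 2 * (V + P)⁻¹) / 2 := by
  field_simp
  ring

/-- The three alternatives for a defect `d ≥ 0`: `p = e_s / x`, `q = e_s / (1 - x)`. -/
def OneC (x ρ α β p q om d e : ℝ) : Prop :=
  (p * (om + (1 - ρ) * d * (x - ρ * (α - x))) ≤ e ∧
    q * (-om + (1 - ρ) * d * (1 - x + ρ * (α - x))) ≤ e) ∨
  (0 < om - ρ * d * (α - x + ρ * β) ∧
    p * (om + d * (x - ρ) + (ρ * d) ^ 2 * β * (1 - x) * (om + ρ * β * (1 - ρ) * d)⁻¹) ≤ e) ∨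
  (0 < ρ * d * (α * (1 - ρ) - x) - om ∧
    q * (-om + d * (1 - x - ρ) + (ρ * d) ^ 2 * α * x * (ρ * α * (1 - ρ) * d - om)⁻¹) ≤ e)

/-- The function which has to be small, for the parameter `t` of the level. -/
noncomputable def coneF (x ρ α β om d t : ℝ) : ℝ :=
  ρ * α * Line.phi (t * (ρ * ((1 - ρ) * d))) (om - (α - t) * (ρ * ((1 - ρ) * d))) +
    ρ * β * Line.phi (om - (α - t) * (ρ * ((1 - ρ) * d))) (-((1 - t) * (ρ * ((1 - ρ) * d)))) +
    (1 - ρ) * (t ^ 2 * (ρ * ((1 - ρ) * d)) / 2) +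
    (ρ * (-om + (1 - ρ) * d) / 2 - t * (ρ * ((1 - ρ) * d))) * x

/-- One of the alternatives gives a level. -/
theorem coneF_le {k x ρ α β p q om d e : ℝ} (hx : 0 ≤ x) (hρ : 0 ≤ ρ)
    (hρx : ρ ≤ x) (hρx' : x ≤ 1 - ρ) (hx0 : 0 < x) (hα : 0 ≤ α) (hβ : 0 ≤ β) (hαβ : α + β = 1)
    (hd : 0 ≤ d) (hk : 0 ≤ k) (hp : k * (1 - x) = 2 * p) (hq : k * x = 2 * q)
    (H : OneC x ρ α β p q om d e) :
    ∃ t : ℝ, 0 ≤ t ∧ t ≤ 1 ∧ k * coneF x ρ α β om d t ≤ ρ * e := by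
  have hρ1 : ρ < 1 := by linarith
  have hρ1' : 0 < 1 - ρ := by linarith
  have hD : 0 ≤ (1 - ρ) * d := by positivity
  have hQ : 0 ≤ ρ * ((1 - ρ) * d) := by positivity
  obtain rfl : β = 1 - α := by linarith
  rcases H with ⟨h1, h2⟩ | ⟨h1, h2⟩ | ⟨h1, h2⟩
  · refine ⟨x, hx, by linarith, ?_⟩
    unfold coneF
    have f12 := phi_le_half (x * (ρ * ((1 - ρ) * d))) (om - (α - x) * (ρ * ((1 - ρ) * d)))
    have f23 := phi_le_half (om - (α - x) * (ρ * ((1 - ρ) * d)))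
      (-((1 - x) * (ρ * ((1 - ρ) * d))))
    have i1 : max (x * (ρ * ((1 - ρ) * d))) 0 = x * (ρ * ((1 - ρ) * d)) :=
      max_eq_left (by positivity)
    have i3 : max (-((1 - x) * (ρ * ((1 - ρ) * d)))) 0 = 0 := max_eq_right (by
      have := mul_nonneg (by linarith : 0 ≤ 1 - x) hQ
      linarith)
    rw [i1] at f12
    rw [i3] at f23
    have j1 := mul_le_mul_of_nonneg_left f12 (mul_nonneg hρ hα)
    have j2 := mul_le_mul_of_nonneg_left f23 (mul_nonneg hρ hβ)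
    refine (mul_le_mul_of_nonneg_left (add_le_add_left (add_le_add_left (add_le_add j1 j2) _) _)
      hk).trans ?_
    rcases le_total 0 (om - (α - x) * (ρ * ((1 - ρ) * d))) with h | h
    · rw [max_eq_left h]
      have := mul_le_mul_of_nonneg_left h1 hρ
      have e1 : k * (ρ * α * ((x * (ρ * ((1 - ρ) * d)) + (om - (α - x) * (ρ * ((1 - ρ) * d)))) / 2) +
          ρ * (1 - α) * (((om - (α - x) * (ρ * ((1 - ρ) * d))) + 0) / 2) +
          (1 - ρ) * (x ^ 2 * (ρ * ((1 - ρ) * d)) / 2) +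
          (ρ * (-om + (1 - ρ) * d) / 2 - x * (ρ * ((1 - ρ) * d))) * x) =
          k * (1 - x) * (ρ * (om + (1 - ρ) * d * (x - ρ * (α - x)))) / 2 := by ring
      rw [e1, hp]
      linarith
    · rw [max_eq_right h]
      have := mul_le_mul_of_nonneg_left h2 hρ
      have e1 : k * (ρ * α * ((x * (ρ * ((1 - ρ) * d)) + 0) / 2) +
          ρ * (1 - α) * ((0 + 0) / 2) +
          (1 - ρ) * (x ^ 2 * (ρ * ((1 - ρ) * d)) / 2) +
          (ρ * (-om + (1 - ρ) * d) / 2 - x * (ρ * ((1 - ρ) * d))) * x) =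
          k * x * (ρ * (-om + (1 - ρ) * d * (1 - x + ρ * (α - x)))) / 2 := by ring
      rw [e1, hq]
      linarith
  · refine ⟨(x - ρ) / (1 - ρ), div_nonneg (by linarith) hρ1'.le,
      (div_le_one hρ1').2 (by linarith), ?_⟩
    have et : (x - ρ) / (1 - ρ) * (ρ * ((1 - ρ) * d)) = ρ * ((x - ρ) * d) := by
      field_simp
    have eP : (1 - (x - ρ) / (1 - ρ)) * (ρ * ((1 - ρ) * d)) = ρ * ((1 - x) * d) := by
      field_simp
      ring
    have eV : om - (α - (x - ρ) / (1 - ρ)) * (ρ * ((1 - ρ) * d)) =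
        om - ρ * d * (α - x + ρ * (1 - α)) := by
      field_simp
      ring
    have et2 : ((x - ρ) / (1 - ρ)) ^ 2 * (ρ * ((1 - ρ) * d)) =
        (x - ρ) ^ 2 * (ρ * d) * (1 - ρ)⁻¹ := by
      field_simp
    have hP : 0 ≤ ρ * ((1 - x) * d) := mul_nonneg hρ (mul_nonneg (by linarith) hd)
    unfold coneF
    rw [et, eP, eV, et2, phi_nonneg_nonneg (mul_nonneg hρ (mul_nonneg (by linarith) hd)) h1.le,
      phi_pos_neg h1.le (neg_nonpos.2 hP)]
    obtain ⟨V, hV⟩ : ∃ V, V = om - ρ * d * (α - x + ρ * (1 - α)) := ⟨_, rfl⟩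
    have hVP : om + ρ * (1 - α) * (1 - ρ) * d = V + ρ * ((1 - x) * d) := by
      rw [hV]
      ring
    rw [hVP] at h2
    rw [← hV] at h1 ⊢
    have hom : om = V + ρ * d * (α - x + ρ * (1 - α)) := by
      rw [hV]
      ring
    have hpos : 0 < V + ρ * ((1 - x) * d) := by linarith
    have hS : V - -(ρ * ((1 - x) * d)) = V + ρ * ((1 - x) * d) := by ring
    rw [hS]
    have e1 : V ^ 2 / (2 * (V + ρ * ((1 - x) * d))) =
        (V - ρ * ((1 - x) * d) + (ρ * ((1 - x) * d)) ^ 2 * (V + ρ * ((1 - x) * d))⁻¹) / 2 :=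
      cone_sq hpos.ne'
    have e2 : (1 - ρ) * ((x - ρ) ^ 2 * (ρ * d) * (1 - ρ)⁻¹ / 2) = (x - ρ) ^ 2 * (ρ * d) / 2 := by
      field_simp
    rw [e1, e2]
    have := mul_le_mul_of_nonneg_left h2 hρ
    refine le_trans (le_of_eq ?_) this
    obtain ⟨J, hJ⟩ : ∃ J, J = (V + ρ * ((1 - x) * d))⁻¹ := ⟨_, rfl⟩
    rw [← hJ, hom]
    have e3 : p = k * (1 - x) / 2 := by linarith
    rw [e3]
    ring
  · refine ⟨x / (1 - ρ), div_nonneg hx hρ1'.le, (div_le_one hρ1').2 hρx', ?_⟩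
    have et : x / (1 - ρ) * (ρ * ((1 - ρ) * d)) = ρ * (x * d) := by
      field_simp
    have eP : (1 - x / (1 - ρ)) * (ρ * ((1 - ρ) * d)) = ρ * ((1 - ρ - x) * d) := by
      field_simp
    have eV : om - (α - x / (1 - ρ)) * (ρ * ((1 - ρ) * d)) =
        -(ρ * d * (α * (1 - ρ) - x) - om) := by
      field_simp
      ring
    have et2 : (x / (1 - ρ)) ^ 2 * (ρ * ((1 - ρ) * d)) = x ^ 2 * (ρ * d) * (1 - ρ)⁻¹ := by
      field_simp
    unfold coneF
    rw [et, eP, eV, et2, phi_pos_neg (mul_nonneg hρ (mul_nonneg hx hd)) (by linarith),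
      phi_nonpos_nonpos (by linarith) (by
        have := mul_nonneg hρ (mul_nonneg (by linarith : 0 ≤ 1 - ρ - x) hd)
        linarith)]
    obtain ⟨V, hV⟩ : ∃ V, V = ρ * d * (α * (1 - ρ) - x) - om := ⟨_, rfl⟩
    have hVP : ρ * α * (1 - ρ) * d - om = V + ρ * (x * d) := by
      rw [hV]
      ring
    rw [hVP] at h2
    rw [← hV] at h1 ⊢
    have hom : om = ρ * d * (α * (1 - ρ) - x) - V := by
      rw [hV]
      ring
    have hpos : 0 < V + ρ * (x * d) := by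
      have := mul_nonneg hρ (mul_nonneg hx hd)
      linarith
    have hS : ρ * (x * d) - -V = V + ρ * (x * d) := by ring
    rw [hS]
    have e1 : (ρ * (x * d)) ^ 2 / (2 * (V + ρ * (x * d))) =
        ((ρ * (x * d)) ^ 2 * (V + ρ * (x * d))⁻¹) / 2 := by
      field_simp
    have e2 : (1 - ρ) * (x ^ 2 * (ρ * d) * (1 - ρ)⁻¹ / 2) = x ^ 2 * (ρ * d) / 2 := by
      field_simp
    rw [e1, e2]
    have := mul_le_mul_of_nonneg_left h2 hρ
    refine le_trans (le_of_eq ?_) this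
    obtain ⟨J, hJ⟩ : ∃ J, J = (V + ρ * (x * d))⁻¹ := ⟨_, rfl⟩
    rw [← hJ, hom]
    have e3 : q = k * x / 2 := by linarith
    rw [e3]
    ring

/-- **The slack in cone form.** -/
theorem cone_slN {ex k x ρ a A1 A2 A3 p q d e : ℝ} (hρ : 0 ≤ ρ)
    (hρx : ρ ≤ x) (hρx' : x ≤ 1 - ρ) (hx0 : 0 < x) (ha : 0 ≤ a) (ha1 : a ≤ 1)
    (hk : 0 ≤ k) (hp : k * (1 - x) = 2 * p) (hq : k * x = 2 * q)
    (he : ρ * e ≤ ex) (hd : A1 + A2 - A3 = ρ * d)
    (H : 0 ≤ d → OneC x ρ a (1 - a) p q (a * A2 - (1 - a) * A1) d e)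
    (H' : d ≤ 0 → OneC x ρ (1 - a) a p q (a * A2 - (1 - a) * A1) (-d) e) :
    ∃ g, 0 ≤ slN ex k x (ρ * a) (ρ * (1 - a)) A1 A2 A3 g := by
  have hA3 : A3 = A1 + A2 - ρ * d := by linarith
  obtain ⟨om, hom⟩ : ∃ om, om = a * A2 - (1 - a) * A1 := ⟨_, rfl⟩
  rw [← hom] at H H'
  have w1 : pn1 (ρ * a) (ρ * (1 - a)) A1 A2 A3 = ρ * (-om + (1 - ρ) * d) / 2 := by
    unfold pn1
    rw [hA3, hom]
    ring
  have w3 : pn3 (ρ * a) (ρ * (1 - a)) A1 A2 A3 = ρ * (-om - (1 - ρ) * d) / 2 := by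
    unfold pn3
    rw [hA3, hom]
    ring
  have w2 : 0 < ρ → pn2 (ρ * a) (ρ * (1 - a)) A1 A2 A3 =
      om * (1 - ρ / 2) - ρ * ((1 - ρ) * d) * (a - (1 - a)) / 2 := by
    intro h
    have hl : lam (ρ * a) (ρ * a + ρ * (1 - a)) = a := by
      have e1 : ρ * a + ρ * (1 - a) = ρ := by ring
      unfold lam
      rw [e1, mul_comm ρ a, mul_assoc, mul_inv_cancel₀ h.ne', mul_one, max_eq_left ha,
        min_eq_left ha1]
    unfold pn2
    rw [hl, hA3, hom]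
    ring
  have e3 : 1 - ρ * a - ρ * (1 - a) = 1 - ρ := by ring
  have hx : 0 ≤ x := hx0.le
  unfold slN stn
  rw [w1, w3, e3]
  obtain ⟨W2, hW2⟩ : ∃ W2, W2 = pn2 (ρ * a) (ρ * (1 - a)) A1 A2 A3 := ⟨_, rfl⟩
  rw [← hW2] at w2 ⊢
  rcases le_total 0 d with hs | hs
  · obtain ⟨t, ht, ht1, hF⟩ := coneF_le (β := 1 - a) hx hρ hρx hρx' hx0 ha (by linarith) (by ring)
      hs hk hp hq (H hs)
    have hQ : 0 ≤ ρ * ((1 - ρ) * d) := mul_nonneg hρ (mul_nonneg (by linarith) hs)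
    refine ⟨ρ * (-om + (1 - ρ) * d) / 2 - t * (ρ * ((1 - ρ) * d)), ?_⟩
    have g1 : ρ * (-om + (1 - ρ) * d) / 2 -
        (ρ * (-om + (1 - ρ) * d) / 2 - t * (ρ * ((1 - ρ) * d))) = t * (ρ * ((1 - ρ) * d)) := by
      ring
    have g3 : ρ * (-om - (1 - ρ) * d) / 2 -
        (ρ * (-om + (1 - ρ) * d) / 2 - t * (ρ * ((1 - ρ) * d))) =
        -((1 - t) * (ρ * ((1 - ρ) * d))) := by
      ring
    rw [g1, g3, cone_opp ht ht1 hQ]
    refine sub_nonneg.2 (le_trans (le_of_eq ?_) (hF.trans he))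
    unfold coneF
    rcases hρ.eq_or_lt with h | h
    · rw [← h]
      simp
    · have g2 : W2 - (ρ * (-om + (1 - ρ) * d) / 2 - t * (ρ * ((1 - ρ) * d))) =
          om - (a - t) * (ρ * ((1 - ρ) * d)) := by
        rw [w2 h]
        ring
      rw [g2]
  · obtain ⟨t, ht, ht1, hF⟩ := coneF_le (β := a) hx hρ hρx hρx' hx0 (by linarith) ha (by ring)
      (by linarith) hk hp hq (H' hs)
    have hQ : 0 ≤ ρ * ((1 - ρ) * -d) :=
      mul_nonneg hρ (mul_nonneg (by linarith) (by linarith))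
    refine ⟨ρ * (-om + (1 - ρ) * -d) / 2 - t * (ρ * ((1 - ρ) * -d)), ?_⟩
    have g3 : ρ * (-om - (1 - ρ) * d) / 2 -
        (ρ * (-om + (1 - ρ) * -d) / 2 - t * (ρ * ((1 - ρ) * -d))) =
        t * (ρ * ((1 - ρ) * -d)) := by
      ring
    have g1 : ρ * (-om + (1 - ρ) * d) / 2 -
        (ρ * (-om + (1 - ρ) * -d) / 2 - t * (ρ * ((1 - ρ) * -d))) =
        -((1 - t) * (ρ * ((1 - ρ) * -d))) := by
      ring
    rw [g1, g3, phi_comm (t * (ρ * ((1 - ρ) * -d))), cone_opp ht ht1 hQ]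
    refine sub_nonneg.2 (le_trans (le_of_eq ?_) (hF.trans he))
    unfold coneF
    rcases hρ.eq_or_lt with h | h
    · rw [← h]
      simp
    · have g2 : W2 - (ρ * (-om + (1 - ρ) * -d) / 2 - t * (ρ * ((1 - ρ) * -d))) =
          om - ((1 - a) - t) * (ρ * ((1 - ρ) * -d)) := by
        rw [w2 h]
        ring
      rw [g2, phi_comm (t * (ρ * ((1 - ρ) * -d))),
        phi_comm _ (-((1 - t) * (ρ * ((1 - ρ) * -d))))]
      ring

/-! ### The directions of the three heights in a cell -/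

/-- The direction of the height bottom-middle, `t` is the share of the first short arc. -/
def cd1 : Con → ℝ → ℝ
  | .pp, t => t
  | .nn, t => -(1 - t)
  | .pnp, _ => 1
  | .pnn, t => 1 - t
  | .npp, t => -t
  | .npn, _ => -1
  | _, _ => 0

/-- The direction of the height middle-top. -/
def cd2 : Con → ℝ → ℝ
  | .pp, t => 1 - t
  | .nn, t => -t
  | .pnp, t => -(1 - t)
  | .pnn, _ => -1
  | .npp, _ => 1
  | .npn, t => t
  | _, _ => 0

/-- The direction of the height bottom-top. -/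
def cd3 : Con → ℝ → ℝ
  | .pp, _ => 1
  | .nn, _ => -1
  | .pnp, t => t
  | .pnn, t => -t
  | .npp, t => 1 - t
  | .npn, t => -(1 - t)
  | _, _ => 0

/-- The moment `a A2 - (1 - a) A1` in a cell. -/
def comg : Con → ℝ → ℝ → ℝ → ℝ → ℝ
  | .pp, t, R1, R2, _ => (1 - t) * R1 - t * R2
  | .nn, t, R1, R2, _ => (1 - t) * R2 - t * R1
  | .pnp, t, _, R2, R3 => -(t * R2 + (1 - t) * R3)
  | .pnn, t, R1, _, R3 => -(t * R1 + (1 - t) * R3)
  | .npp, t, R1, _, R3 => t * R3 + (1 - t) * R1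
  | .npn, t, _, R2, R3 => t * R3 + (1 - t) * R2
  | _, _, _, _, _ => 0

/-- The six cells with two short arcs. -/
def isSix : Con → Prop
  | .up => False
  | .dn => False
  | _ => True

theorem cd_add {c : Con} (hc : isSix c) (t : ℝ) : cd1 c t + cd2 c t = cd3 c t := by
  cases c <;> simp only [cd1, cd2, cd3, isSix] at * <;> ring

/-- The alternatives for both signs of the defect. -/
structure ConeC (c : Con) (x ρ a p q R1 R2 R3 d e : ℝ) : Prop where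
  pos : 0 ≤ d → OneC x ρ a (1 - a) p q (comg c a R1 R2 R3) d e
  neg : d ≤ 0 → OneC x ρ (1 - a) a p q (comg c a R1 R2 R3) (-d) e

/-- **The slack in a cell** in cone form. -/
theorem cone_slc {c : Con} (hc : isSix c) {ex k x ρ a u v w R1 R2 R3 p q d e : ℝ} (hρ : 0 ≤ ρ)
    (hρx : ρ ≤ x) (hρx' : x ≤ 1 - ρ) (hx0 : 0 < x) (ha : 0 ≤ a) (ha1 : a ≤ 1)
    (hk : 0 ≤ k) (hp : k * (1 - x) = 2 * p) (hq : k * x = 2 * q)
    (hu : u = ρ * cd1 c a) (hv : v = ρ * cd2 c a) (hw : w = ρ * cd3 c a)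
    (he : ρ * e ≤ ex) (hd : R1 + R2 - R3 = -(ρ * d))
    (H : ConeC c x ρ a p q R1 R2 R3 d e) :
    ∃ g, 0 ≤ slc c ex k x u v w R1 R2 R3 g := by
  obtain ⟨H1, H2⟩ := H
  have main : ∀ A1 A2 A3 : ℝ, A1 + A2 - A3 = ρ * d →
      a * A2 - (1 - a) * A1 = comg c a R1 R2 R3 →
      ∃ g, 0 ≤ slN ex k x (ρ * a) (ρ * (1 - a)) A1 A2 A3 g := by
    intro A1 A2 A3 h1 h2
    refine cone_slN hρ hρx hρx' hx0 ha ha1 hk hp hq he h1 ?_ ?_
    · rw [h2]
      exact H1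
    · rw [h2]
      exact H2
  subst hu
  subst hv
  subst hw
  cases c
  · simp only [cd1, cd2, comg, slc] at *
    exact main (-R1) (-R2) (-R3) (by linarith) (by ring)
  · simp only [cd1, cd2, comg, slc] at *
    rw [show -(ρ * -a) = ρ * a by ring, show -(ρ * -(1 - a)) = ρ * (1 - a) by ring]
    exact main (-R2) (-R1) (-R3) (by linarith) (by ring)
  · simp only [cd2, cd3, comg, slc] at *
    rw [show -(ρ * -(1 - a)) = ρ * (1 - a) by ring]
    exact main R3 (-R2) R1 (by linarith) (by ring)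
  · simp only [cd1, cd3, comg, slc] at *
    rw [show -(ρ * -a) = ρ * a by ring]
    exact main R3 (-R1) R2 (by linarith) (by ring)
  · simp only [cd1, cd3, comg, slc] at *
    rw [show -(ρ * -a) = ρ * a by ring]
    exact main (-R1) R3 R2 (by linarith) (by ring)
  · simp only [cd2, cd3, comg, slc] at *
    rw [show -(ρ * -(1 - a)) = ρ * (1 - a) by ring]
    exact main (-R2) R3 R1 (by linarith) (by ring)
  · exact hc.elim
  · exact hc.elim

/-- The slack at exactly aligned heights. -/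
theorem cone_zero {c : Con} (hc : isSix c) {ex k x R1 R2 R3 : ℝ} (hx0 : 0 < x) (hx1 : x ≤ 1)
    (hk : 0 ≤ k) (he : 0 ≤ ex) (hd : R1 + R2 = R3) :
    ∃ g, 0 ≤ slc c ex k x 0 0 0 R1 R2 R3 g := by
  obtain ⟨om, hom⟩ : ∃ om, om = comg c 0 R1 R2 R3 := ⟨_, rfl⟩
  have key : ∀ b : ℝ, OneC x 0 b (1 - b) (k * (1 - x) / 2) (k * x / 2) om 0
      (max (k * (1 - x) / 2 * om) (k * x / 2 * -om)) := by
    intro b
    refine Or.inl ⟨le_trans (le_of_eq ?_) (le_max_left _ _),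
      le_trans (le_of_eq ?_) (le_max_right _ _)⟩ <;> ring
  refine cone_slc hc (a := 0) (ρ := 0) (d := 0) (p := k * (1 - x) / 2) (q := k * x / 2)
    (e := max (k * (1 - x) / 2 * om) (k * x / 2 * -om)) le_rfl hx0.le (by linarith) hx0 le_rfl zero_le_one hk (by ring) (by ring)
    (by ring) (by ring) (by ring) (by linarith) (by linarith) ⟨fun _ => ?_, fun _ => ?_⟩
  · rw [← hom]
    exact key 0
  · rw [← hom, neg_zero]
    have := key (1 - 0)
    rwa [show (1 : ℝ) - (1 - 0) = 0 by ring] at this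

theorem ken_p {x : ℝ} (h0 : 0 < x) (h1 : x < 1) : ken x * (1 - x) = 2 * (esn x / x) := by
  have : 1 - x ≠ 0 := by linarith
  unfold ken
  field_simp

theorem ken_q {x : ℝ} (h0 : 0 < x) (h1 : x < 1) : ken x * x = 2 * (esn x / (1 - x)) := by
  have : 1 - x ≠ 0 := by linarith
  unfold ken
  field_simp

/-! ### The data at a corner -/

/-- The numbers of a triangle near a corner: `m1`, `m2`, `m3` the integers next to the heights,
`b1`, `b2`, `b3` the horizontal coordinates at the corner, `z`, `r`, `l` the rates of the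
coordinates, of the kernel and of the level. -/
structure Crn where
  c : Con
  m1 : ℝ
  m2 : ℝ
  b1 : ℝ
  b2 : ℝ
  ρ : ℝ
  a : ℝ
  z1 : ℝ
  z3 : ℝ
  r1 : ℝ
  r2 : ℝ
  r3 : ℝ
  l1 : ℝ
  l2 : ℝ
  l3 : ℝ

namespace Crn

variable (D : Crn)

/-- The excess divided by `ρ`. -/
noncomputable def e0 : ℝ :=
  (D.b1 * cd3 D.c D.a + (D.m1 + D.m2) * D.z1 - (D.b1 + D.b2) * cd1 D.c D.a - D.m1 * D.z3 +
    D.ρ * (D.z1 * cd3 D.c D.a - D.z3 * cd1 D.c D.a)) / 2

/-- The heights. -/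
noncomputable def y : ℝ := D.m1 + D.ρ * cd1 D.c D.a
noncomputable def y' : ℝ := D.m2 + D.ρ * cd2 D.c D.a

/-- The level terms at the near vertex, divided by `ρ`. -/
noncomputable def LA (N0 : ℕ) (lv x : ℝ) : ℝ :=
  mun N0 x * ((N0 / 2 + x / 2 + lv) * (D.l1 + D.l2 - D.l3) -
    (D.y * D.l1 + (2 * D.y + D.y') * D.l2 - (D.y + D.y') * D.l3) / 2)
noncomputable def LB (N0 : ℕ) (lv x : ℝ) : ℝ :=
  mun N0 x * (-((N0 / 2 + x / 2 + lv) * (D.l1 + D.l2 - D.l3)) +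
    (D.y' * D.l2 + (2 * D.y' + D.y) * D.l1 - (D.y + D.y') * D.l3) / 2)

/-- The alternatives with the excess `e`; `c0` is the value of the kernel at the corner for the
horizontal coordinate `1`. -/
def Ok (c0 x p q e : ℝ) : Prop :=
  ConeC D.c x D.ρ D.a p q (c0 * D.b1 + D.ρ * D.r1) (c0 * D.b2 + D.ρ * D.r2)
    (c0 * (D.b1 + D.b2) + D.ρ * D.r3) (-(D.r1 + D.r2 - D.r3)) e

/-- The assumptions on the small parameters. -/
structure Base (k x p q : ℝ) : Prop where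
  six : isSix D.c
  ρ0 : 0 ≤ D.ρ
  ρx : D.ρ ≤ x
  ρx' : x ≤ 1 - D.ρ
  x0 : 0 < x
  a0 : 0 ≤ D.a
  a1 : D.a ≤ 1
  k0 : 0 ≤ k
  hp : k * (1 - x) = 2 * p
  hq : k * x = 2 * q
  det : D.b1 * (D.m1 + D.m2) - (D.b1 + D.b2) * D.m1 = 1

variable {D}

theorem row {k x p q c0 e ex X12 X13 y y' R1 R2 R3 : ℝ} (B : D.Base k x p q)
    (hy : y = D.y) (hy' : y' = D.y') (hX12 : X12 = D.b1 + D.ρ * D.z1)
    (hX13 : X13 = D.b1 + D.b2 + D.ρ * D.z3) (hR1 : R1 = c0 * D.b1 + D.ρ * D.r1)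
    (hR2 : R2 = c0 * D.b2 + D.ρ * D.r2) (hR3 : R3 = c0 * (D.b1 + D.b2) + D.ρ * D.r3)
    (hex : exn' X12 X13 y (y + y') + D.ρ * (e - D.e0) ≤ ex) (H : D.Ok c0 x p q e) :
    ∃ g, 0 ≤ slc D.c ex k x (y - D.m1) (y' - D.m2) (y + y' - (D.m1 + D.m2)) R1 R2 R3 g := by
  subst hy hy' hR1 hR2 hR3 hX12 hX13
  have hc := cd_add B.six D.a
  have he : exn' (D.b1 + D.ρ * D.z1) (D.b1 + D.b2 + D.ρ * D.z3) D.y (D.y + D.y') =
      D.ρ * D.e0 := by
    have h := B.det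
    unfold exn' e0 Crn.y Crn.y'
    rw [← hc]
    linear_combination (1 / 2 : ℝ) * h
  refine cone_slc B.six B.ρ0 B.ρx B.ρx' B.x0 B.a0 B.a1 B.k0 B.hp B.hq (by unfold Crn.y; ring)
    (by unfold Crn.y'; ring) (by unfold Crn.y Crn.y'; rw [← hc]; ring) (e := e) ?_ (by ring) H
  rw [he] at hex
  linarith

/-- **The far row** near a corner. -/
theorem rowF {k x p q c0 X12 X13 y y' R1 R2 R3 x1 x2 x3 : ℝ} (B : D.Base k x p q)
    (hy : y = D.y) (hy' : y' = D.y') (hX12 : X12 = D.b1 + D.ρ * D.z1)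
    (hX13 : X13 = D.b1 + D.b2 + D.ρ * D.z3) (hR1 : R1 = c0 * D.b1 + D.ρ * D.r1)
    (hR2 : R2 = c0 * D.b2 + D.ρ * D.r2) (hR3 : R3 = c0 * (D.b1 + D.b2) + D.ρ * D.r3)
    (hx1 : x1 = D.ρ * D.l1) (hx2 : x2 = D.ρ * D.l2) (hx3 : x3 = D.ρ * D.l3)
    (HA : D.Ok c0 x p q (D.e0 + (D.l1 + D.l2 - D.l3) / 2))
    (HB : D.Ok c0 x p q (D.e0 - (D.l1 + D.l2 - D.l3) / 2)) :
    ∃ g, 0 ≤ slc D.c (levF (exn' X12 X13 y (y + y')) x1 x2 x3) k x (y - D.m1) (y' - D.m2)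
      (y + y' - (D.m1 + D.m2)) R1 R2 R3 g := by
  have h0 := B.ρ0
  have e : x1 + x2 - x3 = D.ρ * (D.l1 + D.l2 - D.l3) := by
    rw [hx1, hx2, hx3]
    ring
  rcases le_total 0 (D.l1 + D.l2 - D.l3) with h | h
  · refine row (e := D.e0 - (D.l1 + D.l2 - D.l3) / 2) B hy hy' hX12 hX13 hR1 hR2 hR3 ?_ HB
    unfold levF
    rw [e, abs_of_nonneg (mul_nonneg h0 h)]
    exact le_of_eq (by ring)
  · refine row (e := D.e0 + (D.l1 + D.l2 - D.l3) / 2) B hy hy' hX12 hX13 hR1 hR2 hR3 ?_ HA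
    unfold levF
    rw [e, abs_of_nonpos (mul_nonpos_of_nonneg_of_nonpos h0 h)]
    exact le_of_eq (by ring)

/-- **The near row** near a corner. -/
theorem rowN {N0 : ℕ} {lv k x p q c0 X12 X13 y y' R1 R2 R3 x1 x2 x3 : ℝ} (B : D.Base k x p q)
    (hy : y = D.y) (hy' : y' = D.y') (hX12 : X12 = D.b1 + D.ρ * D.z1)
    (hX13 : X13 = D.b1 + D.b2 + D.ρ * D.z3) (hR1 : R1 = c0 * D.b1 + D.ρ * D.r1)
    (hR2 : R2 = c0 * D.b2 + D.ρ * D.r2) (hR3 : R3 = c0 * (D.b1 + D.b2) + D.ρ * D.r3)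
    (hx1 : x1 = D.ρ * D.l1) (hx2 : x2 = D.ρ * D.l2) (hx3 : x3 = D.ρ * D.l3)
    (HA : D.Ok c0 x p q (D.e0 + D.LA N0 lv x)) (HB : D.Ok c0 x p q (D.e0 + D.LB N0 lv x)) :
    ∃ g, 0 ≤ slc D.c (levN N0 lv x y y' (exn' X12 X13 y (y + y')) x1 x2 x3) k x (y - D.m1)
      (y' - D.m2) (y + y' - (D.m1 + D.m2)) R1 R2 R3 g := by
  have eA : mun N0 x * levn N0 lv x y y' x1 x2 x3 = D.ρ * D.LA N0 lv x := by
    unfold levn LA
    rw [hx1, hx2, hx3, hy, hy']
    ring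
  have eB : mun N0 x * levm N0 lv x y y' x1 x2 x3 = D.ρ * D.LB N0 lv x := by
    unfold levm LB
    rw [hx1, hx2, hx3, hy, hy']
    ring
  have hmu : 0 ≤ mun N0 x := by
    unfold mun c1n
    positivity
  rcases le_total (levn N0 lv x y y' x1 x2 x3) (levm N0 lv x y y' x1 x2 x3) with h | h
  · refine row (e := D.e0 + D.LA N0 lv x) B hy hy' hX12 hX13 hR1 hR2 hR3 ?_ HA
    unfold levN
    rw [min_eq_left h, eA]
    exact le_of_eq (by ring)
  · refine row (e := D.e0 + D.LB N0 lv x) B hy hy' hX12 hX13 hR1 hR2 hR3 ?_ HB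
    unfold levN
    rw [min_eq_right h, eB]
    exact le_of_eq (by ring)

end Crn

end Pool.Agent.Strip051.PB
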