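import Pool.Agent.Strip051.PB.CornT

/-! # Charts at the aligned corners: the leaf with the third side on a segment -/

namespace Pool.Agent.Strip051.PB

attribute [local irreducible] padd psub pneg pmul psq pinv psqrt psqrtg pabs pps pmax pmin pphi plam
  pcase phf pnat prat pscale pnorm pdc pnc pone ppos pnn Enc pbad pzero

/-! ### The third side -/

section

variable {B u ξ0 ξ1 c κ0 κ1 Z T x0 x1 v0 v1 : ℝ}

theorem lin_both (h : Lin (B + u * ξ0) (B + u * ξ1) (c + u * κ0) (c + u * κ1) Z T)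
    (h0 : B + u * ξ0 ≤ Z) (h1 : Z ≤ B + u * ξ1) (hd : ξ1 - ξ0 ≠ 0) :
    T = c + (u * κ0 + (κ1 - κ0) * (ξ1 - ξ0)⁻¹ * (Z - (B + u * ξ0))) := by
  unfold Lin at h
  rcases eq_or_ne u 0 with hu | hu
  · subst hu
    have : Z = B := by linarith
    subst this
    rw [h]
    ring
  · rw [h]
    have e : B + u * ξ1 - (B + u * ξ0) = u * (ξ1 - ξ0) := by ring
    rw [e]
    field_simp
    ring

theorem lin_lo (h : Lin x0 x1 v0 v1 Z T) :
    T = v0 + (v1 - v0) * (x1 - x0)⁻¹ * (Z - x0) := by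
  unfold Lin at h
  rw [h, div_eq_mul_inv]
  ring

theorem lin_up (h : Lin x0 x1 v0 v1 Z T) (hd : x1 - x0 ≠ 0) :
    T = v1 + (v1 - v0) * (x1 - x0)⁻¹ * (Z - x1) := by
  unfold Lin at h
  rw [h]
  field_simp
  ring

end

/-- the values at a height, packed -/
noncomputable def Gn.xV (G : Gn) (Y : ℕ) : ℕ := G.nd.X.t (cA G.cc Y)
noncomputable def Gn.kV (G : Gn) (Y x : ℕ) : ℕ := G.nd.K.t (cA G.cc Y) x
noncomputable def Gn.lV (G : Gn) (Y x : ℕ) : ℕ := G.nd.L.t (cA G.cc Y) x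

/-- The slopes of the kernel and of the level on the segment and the rates of a curve through the
corner; `lo`, `up`: the lower, the upper curve passes through the corner. -/
noncomputable def segT (lo up : Bool) (Ga Gb : Gn) (Y M x Z : ℕ)
    (k : ℕ → ℕ → ℕ → ℕ → ℕ → Bool) : Bool :=
  Bool.rec (motive := fun _ => Bool)
    (Bool.rec (motive := fun _ => Bool) false
      (frc (Ga.xV Y) fun xa => frc (Gb.xV Y) fun xb => band (ppos (psub Z xa))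
        (band (ppos (psub xb xa)) (frc (pinv (psub xb xa)) fun I =>
          k (pmn (psub (Gb.kV Y x) (Ga.kV Y x)) I) (pmn (psub (Gb.lV Y x) (Ga.lV Y x)) I)
            (Gb.xT Y M) (Gb.kT Y M x) (Gb.lT Y M x)))) up)
    (Bool.rec (motive := fun _ => Bool)
      (frc (Ga.xV Y) fun xa => frc (Gb.xV Y) fun xb => band (ppos (psub xb Z))
        (frc (pinv (psub xb xa)) fun I =>
          k (pmn (psub (Gb.kV Y x) (Ga.kV Y x)) I) (pmn (psub (Gb.lV Y x) (Ga.lV Y x)) I)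
            (Ga.xT Y M) (Ga.kT Y M x) (Ga.lT Y M x)))
      (frc (Ga.xT Y M) fun xa => frc (Gb.xT Y M) fun xb => frc (Ga.kT Y M x) fun ka =>
        frc (Ga.lT Y M x) fun la => band (ppos (pabs (psub xb xa)))
        (frc (pinvs (psub xb xa)) fun I =>
          k (pmn (psub (Gb.kT Y M x) ka) I) (pmn (psub (Gb.lT Y M x) la) I) xa ka la)) up) lo

/-- the formula for a value on the third side -/
def ThV (b u ξ κ g Z T : ℝ) : Prop := T = b + (u * κ + g * (Z - (ξ)))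

theorem segT_sound {E : Pt} {lo up : Bool} {Ga Gb : Gn} {Y M X Z : ℕ} {y m x z B c0 : ℝ}
    {k : ℕ → ℕ → ℕ → ℕ → ℕ → Bool} (hY : Enc E Y y) (hM : Enc E M m) (hx : Enc E X x)
    (hZ : Enc E Z z) (ha : lo = true → Ga.At m B c0 x) (hb : up = true → Gb.At m B c0 x)
    (h : segT lo up Ga Gb Y M X Z k = true) :
    (lo = false → Ga.xv y < z) ∧ (up = false → z < Gb.xv y) ∧
    (Ga.xv y ≤ z → z ≤ Gb.xv y → ∀ T TL, Lin (Ga.xv y) (Gb.xv y) (Ga.kv y x) (Gb.kv y x) z T →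
      Lin (Ga.xv y) (Gb.xv y) (Ga.lv y x) (Gb.lv y x) z TL →
      ∃ (gK gL ξ κ l : ℝ) (GK GM XI KA LA : ℕ), Enc E GK gK ∧ Enc E GM gL ∧ Enc E XI ξ ∧
        Enc E KA κ ∧ Enc E LA l ∧ k GK GM XI KA LA = true ∧
        T = c0 * B + ((y - m) * κ + gK * (z - (B + (y - m) * ξ))) ∧
        TL = (y - m) * l + gL * (z - (B + (y - m) * ξ))) := by
  have vxa : Enc E (Ga.xV Y) (Ga.xv y) := Ga.nd.X.enc (enc_cA _ hY)
  have vxb : Enc E (Gb.xV Y) (Gb.xv y) := Gb.nd.X.enc (enc_cA _ hY)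
  have vka : Enc E (Ga.kV Y X) (Ga.kv y x) := Ga.nd.K.enc (enc_cA _ hY) hx
  have vkb : Enc E (Gb.kV Y X) (Gb.kv y x) := Gb.nd.K.enc (enc_cA _ hY) hx
  have vla : Enc E (Ga.lV Y X) (Ga.lv y x) := Ga.nd.L.enc (enc_cA _ hY) hx
  have vlb : Enc E (Gb.lV Y X) (Gb.lv y x) := Gb.nd.L.enc (enc_cA _ hY) hx
  obtain ⟨⟨xa, xa1, xa2⟩, ⟨ka, ka1, ka2⟩, ⟨la, la1, la2⟩⟩ := Ga.slopes hY hM hx
  obtain ⟨⟨xb, xb1, xb2⟩, ⟨kb, kb1, kb2⟩, ⟨lb, lb1, lb2⟩⟩ := Gb.slopes hY hM hx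
  unfold segT at h
  cases lo <;> cases up
  · exact absurd h (by simp)
  · -- only the upper curve passes
    simp only [frc_eq] at h
    obtain ⟨t1, h⟩ := band_true h
    obtain ⟨t2, h⟩ := band_true h
    have e1 := ppos_sound (enc_sub hZ vxa) t1
    have e2 := ppos_sound (enc_sub vxb vxa) t2
    refine ⟨fun _ => by linarith, fun h => absurd h (by simp), fun i1 i2 T TL hT hTL => ?_⟩
    obtain ⟨c1, c2, c3⟩ := hb rfl
    have hI := enc_inv (enc_sub vxb vxa)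
    refine ⟨(Gb.kv y x - Ga.kv y x) * (Gb.xv y - Ga.xv y)⁻¹,
      (Gb.lv y x - Ga.lv y x) * (Gb.xv y - Ga.xv y)⁻¹, xb, kb, lb, _, _, _, _, _,
      enc_mn (enc_sub vkb vka) hI, enc_mn (enc_sub vlb vla) hI, xb1, kb1, lb1, h, ?_, ?_⟩
    · rw [lin_up hT e2.ne']
      have : Gb.xv y = B + (y - m) * xb := by linarith
      rw [← this]
      linear_combination kb2 + c2
    · rw [lin_up hTL e2.ne']
      have : Gb.xv y = B + (y - m) * xb := by linarith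
      rw [← this]
      linear_combination lb2 + c3
  · -- only the lower curve passes
    simp only [frc_eq] at h
    obtain ⟨t1, h⟩ := band_true h
    have e1 := ppos_sound (enc_sub vxb hZ) t1
    refine ⟨fun h => absurd h (by simp), fun _ => by linarith, fun i1 i2 T TL hT hTL => ?_⟩
    obtain ⟨c1, c2, c3⟩ := ha rfl
    have hI := enc_inv (enc_sub vxb vxa)
    refine ⟨(Gb.kv y x - Ga.kv y x) * (Gb.xv y - Ga.xv y)⁻¹,
      (Gb.lv y x - Ga.lv y x) * (Gb.xv y - Ga.xv y)⁻¹, xa, ka, la, _, _, _, _, _,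
      enc_mn (enc_sub vkb vka) hI, enc_mn (enc_sub vlb vla) hI, xa1, ka1, la1, h, ?_, ?_⟩
    · rw [lin_lo hT]
      have : Ga.xv y = B + (y - m) * xa := by linarith
      rw [← this]
      linear_combination ka2 + c2
    · rw [lin_lo hTL]
      have : Ga.xv y = B + (y - m) * xa := by linarith
      rw [← this]
      linear_combination la2 + c3
  · -- both curves pass
    simp only [frc_eq] at h
    obtain ⟨t1, h⟩ := band_true h
    have e1 := abs_pos.1 (ppos_sound (enc_abs (enc_sub xb1 xa1)) t1)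
    refine ⟨fun h => absurd h (by simp), fun h => absurd h (by simp), fun i1 i2 T TL hT hTL => ?_⟩
    obtain ⟨c1, c2, c3⟩ := ha rfl
    obtain ⟨d1, d2, d3⟩ := hb rfl
    have hI := enc_inv (enc_sub xb1 xa1)
    have k1 : Ga.xv y = B + (y - m) * xa := by linarith
    have k2 : Gb.xv y = B + (y - m) * xb := by linarith
    have k3 : Ga.kv y x = c0 * B + (y - m) * ka := by linarith
    have k4 : Gb.kv y x = c0 * B + (y - m) * kb := by linarith
    have k5 : Ga.lv y x = 0 + (y - m) * la := by linarith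
    have hI' := enc_invs (enc_sub xb1 xa1)
    have k6 : Gb.lv y x = 0 + (y - m) * lb := by linarith
    rw [k1, k2, k3, k4] at hT
    rw [k1, k2, k5, k6] at hTL
    rw [k1] at i1
    rw [k2] at i2
    refine ⟨(kb - ka) * (xb - xa)⁻¹, (lb - la) * (xb - xa)⁻¹, xa, ka, la, _, _, _, _, _,
      enc_mn (enc_sub kb1 ka1) hI', enc_mn (enc_sub lb1 la1) hI', xa1, ka1, la1, h,
      lin_both hT i1 i2 e1, ?_⟩
    have := lin_both hTL i1 i2 e1
    rw [this]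
    ring

/-! ### The leaf -/

/-- choice between three tests -/
noncomputable def ch3 (k : ℕ) (t0 t1 t2 : Bool) : Bool :=
  Bool.rec (motive := fun _ => Bool) (Bool.rec (motive := fun _ => Bool) t2 t1 (Nat.beq k 1)) t0
    (Nat.beq k 0)

theorem ch3_true {k : ℕ} {t0 t1 t2 : Bool} (h : ch3 k t0 t1 t2 = true) :
    t0 = true ∨ t1 = true ∨ t2 = true := by
  unfold ch3 at h
  rcases brec h with h | h
  · rcases brec h with h | h
    · exact Or.inr (Or.inr h)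
    · exact Or.inr (Or.inl h)
  · exact Or.inl h

/-- the test after the choice of the segment -/
noncomputable def corK (far : Bool) (N0 : ℕ) (C0 : Fn1) (P : Cp) (G1 G2 : Gn)
    (h R A X C1 C2 C3 Y1 Yn Yt z1 zn zt az : ℕ) (gK gL ξ κ l : ℕ) : Bool :=
  frc (psub az (pmn (sl P.fam C3 C2) ξ)) fun dz =>
  frc (sg P.tt (padd (pmn (sl P.fam C3 C2) κ) (pmn gK dz))) fun rt =>
  frc (sg P.tt (padd (pmn (sl P.fam C3 C2) l) (pmn gL dz))) fun lt =>
  frc (sg P.t1 (pmn C1 (G1.kT Y1 (pnc P.m1) X))) fun r1 =>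
  frc (sg P.tn (pmn (sl P.fam C2 C3) (G2.kT Yn (pnc P.mn) X))) fun rn =>
  frc (sg P.t1 (pmn C1 (G1.lT Y1 (pnc P.m1) X))) fun l1 =>
  frc (sg P.tn (pmn (sl P.fam C2 C3) (G2.lT Yn (pnc P.mn) X))) fun ln =>
  ratT far N0 P h R A X C1 C3 Y1 (sl P.fam Yn Yt) (sl P.fam Yt Yn) (C0.t X) z1
    (sl P.fam zt zn) r1 (sl P.fam rn rt) (sl P.fam rt rn) l1 (sl P.fam ln lt) (sl P.fam lt ln)

/-- **The test of a leaf.** -/
noncomputable def corT (far : Bool) (N0 : ℕ) (C0 : Fn1) (P : Cp) (G1 G2 Ga Gb : Gn)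
    (lo up : Bool) (h R A X : ℕ) : Bool :=
  frc (cdT1 P.cn A) fun C1 => frc (cdT2 P.cn A) fun C2 => frc (cdT3 P.cn A) fun C3 =>
  frc (padd (pnc P.m1) (pmn R C1)) fun Y1 =>
  frc (padd (pnc P.mn) (pmn R (sl P.fam C2 C3))) fun Yn =>
  frc (padd (pnc P.mt) (pmn R (sl P.fam C3 C2))) fun Yt =>
  frc (sg P.t1 (pmn C1 (G1.xT Y1 (pnc P.m1)))) fun z1 =>
  frc (sg P.tn (pmn (sl P.fam C2 C3) (G2.xT Yn (pnc P.mn)))) fun zn =>
  frc (th P.fam z1 zn) fun zt => frc (sg P.tt zt) fun az =>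
  frc (padd (phn P.ht) (pmn R az)) fun Z => band (ppos Z)
  (ch3 (Nat.land h 3)
    (segT lo up Ga Gb Yt (pnc P.mt) X Z
      (corK far N0 C0 P G1 G2 h R A X C1 C2 C3 Y1 Yn Yt z1 zn zt az))
    (band lo (ppos (psub (pmn (sl P.fam C3 C2) (Ga.xT Yt (pnc P.mt))) az)))
    (band up (ppos (psub az (pmn (sl P.fam C3 C2) (Gb.xT Yt (pnc P.mt)))))))

namespace Cp

variable (P : Cp) (G1 G2 Ga Gb : Gn) (ρ a x : ℝ)

/-- the heights of the first node, of the second node and of the third side -/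
noncomputable def y1 : ℝ := P.m1 + ρ * cd1 P.cn a
noncomputable def yn : ℝ := P.mn + ρ * cond P.fam (cd2 P.cn a) (cd3 P.cn a)
noncomputable def yt : ℝ := P.mt + ρ * cond P.fam (cd3 P.cn a) (cd2 P.cn a)

/-- the abscissas -/
noncomputable def X1 : ℝ := sgr P.t1 (G1.xv (P.y1 ρ a))
noncomputable def Xn : ℝ := sgr P.tn (G2.xv (P.yn ρ a))
noncomputable def Xt : ℝ :=
  cond P.fam (P.X1 G1 ρ a + P.Xn G2 ρ a) (P.Xn G2 ρ a - P.X1 G1 ρ a)
noncomputable def Z : ℝ := sgr P.tt (P.Xt G1 G2 ρ a)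

/-- the statement of a row, `T` and `TL` the values on the third side -/
def Concl (far : Bool) (N0 : ℕ) (T TL : ℝ) : Prop :=
  ∃ g, 0 ≤ slc P.cn (levR far N0 x (P.y1 ρ a) (cond P.fam (P.yn ρ a) (P.yt ρ a))
    (exn' (P.X1 G1 ρ a) (cond P.fam (P.Xt G1 G2 ρ a) (P.Xn G2 ρ a)) (P.y1 ρ a)
      (P.y1 ρ a + cond P.fam (P.yn ρ a) (P.yt ρ a)))
    (sgr P.t1 (G1.lv (P.y1 ρ a) x))
    (cond P.fam (sgr P.tn (G2.lv (P.yn ρ a) x)) (sgr P.tt TL))
    (cond P.fam (sgr P.tt TL) (sgr P.tn (G2.lv (P.yn ρ a) x)))) (ken x) x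
    (ρ * cd1 P.cn a) (ρ * cd2 P.cn a) (ρ * cd3 P.cn a)
    (sgr P.t1 (G1.kv (P.y1 ρ a) x))
    (cond P.fam (sgr P.tn (G2.kv (P.yn ρ a) x)) (sgr P.tt T))
    (cond P.fam (sgr P.tt T) (sgr P.tn (G2.kv (P.yn ρ a) x))) g

/-- **The statement of a leaf.** -/
def Stm (far : Bool) (N0 : ℕ) (lo up : Bool) : Prop :=
  0 < P.Z G1 G2 ρ a ∧
  ((lo = true ∧ P.Z G1 G2 ρ a < Ga.xv (P.yt ρ a)) ∨
    (up = true ∧ Gb.xv (P.yt ρ a) < P.Z G1 G2 ρ a) ∨
    ((lo = false → Ga.xv (P.yt ρ a) < P.Z G1 G2 ρ a) ∧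
      (up = false → P.Z G1 G2 ρ a < Gb.xv (P.yt ρ a)) ∧
      (Ga.xv (P.yt ρ a) ≤ P.Z G1 G2 ρ a → P.Z G1 G2 ρ a ≤ Gb.xv (P.yt ρ a) → ∀ T TL,
        Lin (Ga.xv (P.yt ρ a)) (Gb.xv (P.yt ρ a)) (Ga.kv (P.yt ρ a) x) (Gb.kv (P.yt ρ a) x)
          (P.Z G1 G2 ρ a) T →
        Lin (Ga.xv (P.yt ρ a)) (Gb.xv (P.yt ρ a)) (Ga.lv (P.yt ρ a) x) (Gb.lv (P.yt ρ a) x)
          (P.Z G1 G2 ρ a) TL → P.Concl G1 G2 ρ a x far N0 T TL)))

end Cp

theorem sgr_mul (t : Bool) (a b : ℝ) : sgr t (a * b) = a * sgr t b := by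
  cases t
  · show -(a * b) = a * -b
    ring
  · rfl

theorem sgr_add (t : Bool) (a b : ℝ) : sgr t (a + b) = sgr t a + sgr t b := by
  cases t
  · show -(a + b) = -a + -b
    ring
  · rfl

theorem sgr_sub (t : Bool) (a b : ℝ) : sgr t (a - b) = sgr t a - sgr t b := by
  cases t
  · show -(a - b) = -a - -b
    ring
  · rfl

theorem sgr_sgr (t : Bool) (a : ℝ) : sgr t (sgr t a) = a := by
  cases t
  · show - -a = a
    ring
  · rfl

theorem enc_th {E : Pt} {X Y : ℕ} {x y : ℝ} (b : Bool) (h : Enc E X x) (h' : Enc E Y y) :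
    Enc E (th b X Y) (cond b (x + y) (y - x)) := by
  cases b
  · exact enc_sub h' h
  · exact enc_add h h'

theorem corT_sound {E : Pt} {far : Bool} {N0 : ℕ} {C0 : Fn1} {P : Cp} (hP : P.Ok)
    {G1 G2 Ga Gb : Gn} {lo up : Bool} {h R A X : ℕ} {ρ a x : ℝ} (B : CRng ρ a x) (hρ : 0 < ρ)
    (hR : Enc E R ρ) (hA : Enc E A a) (hX : Enc E X x)
    (h1 : G1.At P.m1 ((P.h1 : ℝ) / 2) (C0.v x) x) (h2 : G2.At P.mn ((P.hn : ℝ) / 2) (C0.v x) x)
    (ha : lo = true → Ga.At P.mt ((P.ht : ℝ) / 2) (C0.v x) x)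
    (hb : up = true → Gb.At P.mt ((P.ht : ℝ) / 2) (C0.v x) x)
    (ht : corT far N0 C0 P G1 G2 Ga Gb lo up h R A X = true) :
    P.Stm G1 G2 Ga Gb ρ a x far N0 lo up := by
  unfold corT at ht
  simp only [frc_eq] at ht
  obtain ⟨tz, ht⟩ := band_true ht
  have C1 := enc_cdT1 P.cn hA
  have C2 := enc_cdT2 P.cn hA
  have C3 := enc_cdT3 P.cn hA
  have Cn : Enc E (sl P.fam (cdT2 P.cn A) (cdT3 P.cn A)) (cond P.fam (cd2 P.cn a) (cd3 P.cn a)) :=
    enc_sl _ C2 C3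
  have Ct : Enc E (sl P.fam (cdT3 P.cn A) (cdT2 P.cn A)) (cond P.fam (cd3 P.cn a) (cd2 P.cn a)) :=
    enc_sl _ C3 C2
  have Y1 : Enc E (padd (pnc P.m1) (pmn R (cdT1 P.cn A))) (P.y1 ρ a) :=
    enc_add (enc_pnc E _) (enc_mn hR C1)
  have Yn : Enc E (padd (pnc P.mn) (pmn R (sl P.fam (cdT2 P.cn A) (cdT3 P.cn A)))) (P.yn ρ a) :=
    enc_add (enc_pnc E _) (enc_mn hR Cn)
  have Yt : Enc E (padd (pnc P.mt) (pmn R (sl P.fam (cdT3 P.cn A) (cdT2 P.cn A)))) (P.yt ρ a) :=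
    enc_add (enc_pnc E _) (enc_mn hR Ct)
  obtain ⟨cn, hcn⟩ : ∃ z, z = cond P.fam (cd2 P.cn a) (cd3 P.cn a) := ⟨_, rfl⟩
  obtain ⟨ct, hct⟩ : ∃ z, z = cond P.fam (cd3 P.cn a) (cd2 P.cn a) := ⟨_, rfl⟩
  rw [← hcn] at Cn
  rw [← hct] at Ct
  have d1 : P.y1 ρ a - P.m1 = ρ * cd1 P.cn a := by unfold Cp.y1; ring
  have dn : P.yn ρ a - P.mn = ρ * cn := by unfold Cp.yn; rw [hcn]; ring
  have dt : P.yt ρ a - P.mt = ρ * ct := by unfold Cp.yt; rw [hct]; ring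
  obtain ⟨⟨x1, x11, x12⟩, ⟨k1, k11, k12⟩, ⟨l1, l11, l12⟩⟩ := G1.slopes Y1 (enc_pnc E P.m1) hX
  obtain ⟨⟨xn, xn1, xn2⟩, ⟨kn, kn1, kn2⟩, ⟨ln, ln1, ln2⟩⟩ := G2.slopes Yn (enc_pnc E P.mn) hX
  obtain ⟨⟨xa, xa1, xa2⟩, -, -⟩ := Ga.slopes Yt (enc_pnc E P.mt) hX
  obtain ⟨⟨xb, xb1, xb2⟩, -, -⟩ := Gb.slopes Yt (enc_pnc E P.mt) hX
  rw [d1] at x12 k12 l12
  rw [dn] at xn2 kn2 ln2
  rw [dt] at xa2 xb2
  have z1 := enc_sg P.t1 (enc_mn C1 x11)
  have zn := enc_sg P.tn (enc_mn Cn xn1)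
  obtain ⟨Z1, hZ1⟩ : ∃ z, z = sgr P.t1 (cd1 P.cn a * x1) := ⟨_, rfl⟩
  obtain ⟨Zn, hZn⟩ : ∃ z, z = sgr P.tn (cn * xn) := ⟨_, rfl⟩
  rw [← hZ1] at z1
  rw [← hZn] at zn
  obtain ⟨Zt, hZt⟩ : ∃ z, z = cond P.fam (Z1 + Zn) (Zn - Z1) := ⟨_, rfl⟩
  have zt : Enc E (th P.fam (sg P.t1 (pmn (cdT1 P.cn A)
      (G1.xT (padd (pnc P.m1) (pmn R (cdT1 P.cn A))) (pnc P.m1))))
      (sg P.tn (pmn (sl P.fam (cdT2 P.cn A) (cdT3 P.cn A))
        (G2.xT (padd (pnc P.mn) (pmn R (sl P.fam (cdT2 P.cn A) (cdT3 P.cn A)))) (pnc P.mn)))))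
      Zt := by
    rw [hZt]
    exact enc_th _ z1 zn
  have az := enc_sg P.tt zt
  have hX1 : P.X1 G1 ρ a = P.b1 + ρ * Z1 := by
    unfold Cp.X1 Cp.b1
    rw [hZ1, ← sgr_mul, ← sgr_add]
    congr 1
    have := h1.X
    linarith
  have hXn : P.Xn G2 ρ a = P.bn + ρ * Zn := by
    unfold Cp.Xn Cp.bn
    rw [hZn, ← sgr_mul, ← sgr_add]
    congr 1
    have := h2.X
    linarith
  have hXt : P.Xt G1 G2 ρ a = P.bt + ρ * Zt := by
    unfold Cp.Xt
    rw [hX1, hXn, hZt]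
    have := hP.b
    cases hf : P.fam
    · rw [hf] at this
      simp only [cond_false] at this ⊢
      linear_combination -this
    · rw [hf] at this
      simp only [cond_true] at this ⊢
      linear_combination this
  have hZ : P.Z G1 G2 ρ a = (P.ht : ℝ) / 2 + ρ * sgr P.tt Zt := by
    unfold Cp.Z
    rw [hXt, sgr_add, sgr_mul]
    unfold Cp.bt
    rw [sgr_sgr]
  have eZ := enc_add (enc_phn E P.ht) (enc_mn hR az)
  rw [← hZ] at eZ
  refine ⟨ppos_sound eZ tz, ?_⟩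
  rcases ch3_true ht with ht | ht | ht
  · right; right
    have hs := segT_sound (B := (P.ht : ℝ) / 2) (c0 := C0.v x) Yt (enc_pnc E P.mt) hX eZ ha hb ht
    refine ⟨hs.1, hs.2.1, fun i1 i2 T TL hT hTL => ?_⟩
    obtain ⟨gK, gL, ξ, κ, l, GK, GM, XI, KA, LA, e1, e2, e3, e4, e5, hk, eT, eTL⟩ :=
      hs.2.2 i1 i2 T TL hT hTL
    unfold corK at hk
    simp only [frc_eq] at hk
    rw [dt] at eT eTL
    have dz := enc_sub az (enc_mn Ct e3)
    have rt := enc_sg P.tt (enc_add (enc_mn Ct e4) (enc_mn e1 dz))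
    have lt := enc_sg P.tt (enc_add (enc_mn Ct e5) (enc_mn e2 dz))
    have r1 := enc_sg P.t1 (enc_mn C1 k11)
    have rn := enc_sg P.tn (enc_mn Cn kn1)
    have q1 := enc_sg P.t1 (enc_mn C1 l11)
    have qn := enc_sg P.tn (enc_mn Cn ln1)
    have y3 : Enc E (sl P.fam (padd (pnc P.mt) (pmn R (sl P.fam (cdT3 P.cn A) (cdT2 P.cn A))))
        (padd (pnc P.mn) (pmn R (sl P.fam (cdT2 P.cn A) (cdT3 P.cn A)))))
        (P.y1 ρ a + cond P.fam (P.yn ρ a) (P.yt ρ a)) := by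
      refine enc_cast (enc_sl _ Yt Yn) ?_
      have := cd_add hP.six a
      have hm := hP.m
      unfold Cp.yt Cp.yn Cp.y1
      cases hf : P.fam
      · rw [hf] at hm
        simp only [cond_false] at hm ⊢
        rw [← this]
        linear_combination -hm
      · rw [hf] at hm
        simp only [cond_true] at hm ⊢
        rw [← this]
        linear_combination -hm
    have z3 : Enc E (sl P.fam (th P.fam (sg P.t1 (pmn (cdT1 P.cn A)
        (G1.xT (padd (pnc P.m1) (pmn R (cdT1 P.cn A))) (pnc P.m1))))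
        (sg P.tn (pmn (sl P.fam (cdT2 P.cn A) (cdT3 P.cn A))
          (G2.xT (padd (pnc P.mn) (pmn R (sl P.fam (cdT2 P.cn A) (cdT3 P.cn A)))) (pnc P.mn)))))
        (sg P.tn (pmn (sl P.fam (cdT2 P.cn A) (cdT3 P.cn A))
          (G2.xT (padd (pnc P.mn) (pmn R (sl P.fam (cdT2 P.cn A) (cdT3 P.cn A)))) (pnc P.mn)))))
        (cond P.fam Zt Zn) := enc_sl _ zt zn
    have vt : sgr P.tt T = C0.v x * P.bt + ρ * sgr P.tt (ct * κ + gK * (sgr P.tt Zt - ct * ξ)) := by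
      unfold Cp.bt
      rw [← sgr_mul, ← sgr_mul, ← sgr_add, eT]
      congr 1
      rw [hZ]
      ring
    have wt : sgr P.tt TL = ρ * sgr P.tt (ct * l + gL * (sgr P.tt Zt - ct * ξ)) := by
      rw [← sgr_mul, eTL]
      congr 1
      rw [hZ]
      ring
    have v1 : sgr P.t1 (G1.kv (P.y1 ρ a) x) = C0.v x * P.b1 + ρ * sgr P.t1 (cd1 P.cn a * k1) := by
      unfold Cp.b1
      rw [← sgr_mul, ← sgr_mul, ← sgr_add]
      congr 1
      have := h1.K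
      linarith
    have vn : sgr P.tn (G2.kv (P.yn ρ a) x) = C0.v x * P.bn + ρ * sgr P.tn (cn * kn) := by
      unfold Cp.bn
      rw [← sgr_mul, ← sgr_mul, ← sgr_add]
      congr 1
      have := h2.K
      linarith
    have w1 : sgr P.t1 (G1.lv (P.y1 ρ a) x) = ρ * sgr P.t1 (cd1 P.cn a * l1) := by
      rw [← sgr_mul]
      congr 1
      have := h1.L
      linarith
    have wn : sgr P.tn (G2.lv (P.yn ρ a) x) = ρ * sgr P.tn (cn * ln) := by
      rw [← sgr_mul]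
      congr 1
      have := h2.L
      linarith
    unfold Cp.Concl
    refine ratT_sound hP B hR hA hX C1 C3 Y1 (enc_sl _ Yn Yt) y3 (C0.enc hX) z1 z3 r1
      (enc_sl _ rn rt) (enc_sl _ rt rn) q1 (enc_sl _ qn lt) (enc_sl _ lt qn) rfl ?_ hX1 ?_ v1 ?_ ?_
      w1 ?_ ?_ hk
    · unfold Cp.yn Cp.yt
      cases P.fam <;> rfl
    · cases hf : P.fam <;> simp only [cond_false, cond_true]
      · exact hXn
      · exact hXt
    · cases hf : P.fam <;> simp only [cond_false, cond_true]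
      · exact vt
      · exact vn
    · cases hf : P.fam <;> simp only [cond_false, cond_true]
      · exact vn
      · exact vt
    · cases hf : P.fam <;> simp only [cond_false, cond_true]
      · exact wt
      · exact wn
    · cases hf : P.fam <;> simp only [cond_false, cond_true]
      · exact wn
      · exact wt
  · left
    obtain ⟨i1, i2⟩ := band_true ht
    refine ⟨i1, ?_⟩
    have := ppos_sound (enc_sub (enc_mn Ct xa1) az) i2
    have e := (ha i1).X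
    rw [hZ]
    nlinarith [mul_pos hρ this]
  · right; left
    obtain ⟨i1, i2⟩ := band_true ht
    refine ⟨i1, ?_⟩
    have := ppos_sound (enc_sub az (enc_mn Ct xb1)) i2
    have e := (hb i1).X
    rw [hZ]
    nlinarith [mul_pos hρ this]

/-- **From the certificate of a chart to its statement.** -/
theorem corT_cert {far : Bool} {N0 : ℕ} {C0 : Fn1} {P : Cp} (hP : P.Ok)
    {G1 G2 Ga Gb : Gn} {lo up : Bool} {Wr Px Wx : ℕ} {ρ a x : ℝ} (B : CRng ρ a x) (hρ : 0 < ρ)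
    (h1 : G1.At P.m1 ((P.h1 : ℝ) / 2) (C0.v x) x) (h2 : G2.At P.mn ((P.hn : ℝ) / 2) (C0.v x) x)
    (ha : lo = true → Ga.At P.mt ((P.ht : ℝ) / 2) (C0.v x) x)
    (hb : up = true → Gb.At P.mt ((P.ht : ℝ) / 2) (C0.v x) x)
    (hr : ρ ≤ (Wr : ℝ) / S) (hx : (Px : ℝ) / S ≤ x) (hx' : x ≤ ((Px : ℝ) + Wx) / S)
    (ht : ∃ t, chk3 (onCell 0 Wr 0 1073741824 Px Wx
      (corT far N0 C0 P G1 G2 Ga Gb lo up)) t 1 1 1 = true) :
    P.Stm G1 G2 Ga Gb ρ a x far N0 lo up := by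
  have key := onCell_sound (Q := fun r b z => CRng r b z → 0 < r →
    G1.At P.m1 ((P.h1 : ℝ) / 2) (C0.v z) z → G2.At P.mn ((P.hn : ℝ) / 2) (C0.v z) z →
    (lo = true → Ga.At P.mt ((P.ht : ℝ) / 2) (C0.v z) z) →
    (up = true → Gb.At P.mt ((P.ht : ℝ) / 2) (C0.v z) z) →
    P.Stm G1 G2 Ga Gb r b z far N0 lo up) (f := corT far N0 C0 P G1 G2 Ga Gb lo up)
    (fun hR hA hX ht B hρ h1 h2 ha hb => corT_sound hP B hρ hR hA hX h1 h2 ha hb ht) ht
    (p := ρ) (q := a) (x := x) (by simpa using B.ρ0) (by simpa using hr) (by simpa using B.a0)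
    (by
      have : ((0 : ℕ) : ℝ) + ((1073741824 : ℕ) : ℝ) = (S : ℝ) := by unfold S; push_cast; ring
      rw [this, div_self (by exact_mod_cast hS.ne')]
      exact B.a1) hx hx'
  exact key B hρ h1 h2 ha hb

end Pool.Agent.Strip051.PB
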