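import Pool.Agent.Strip051.PB.Row

/-! # Rows of the certificate: soundness -/

namespace Pool.Agent.Strip051.PB

attribute [local irreducible] padd psub pneg pmul psq pinv psqrt psqrtg pabs pps pmax pmin pphi plam
  pcase phf pnat prat pscale pnorm pdc pnc pone ppos pnn Enc

open Pool.Agent.Strip051.LC.Line (phi)

section

variable {E : Pt} {X Y Z : ℕ} {x y z : ℝ}

theorem enc_sg (b : Bool) (h : Enc E X x) : Enc E (sg b X) (sgr b x) := by
  cases b
  · exact enc_neg h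
  · exact h

theorem enc_sgn (b : Bool) (h : Enc E X x) : Enc E (sg (!b) X) (-sgr b x) := by
  cases b
  · exact enc_cast h (show x = -sgr false x from (neg_neg x).symm)
  · exact enc_neg h

theorem enc_sl (b : Bool) (h : Enc E X x) (h' : Enc E Y y) : Enc E (sl b X Y) (cond b x y) := by
  cases b
  · exact h'
  · exact h

theorem enc_phn (E : Pt) (n : ℕ) : Enc E (phn n) ((n : ℝ) / 2) := by
  refine enc_cast (enc_dc E (Nat.mul n 536870912) 0) ?_
  have e : ((Nat.mul n 536870912 : ℕ) : ℝ) = n * 536870912 := by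
    have : Nat.mul n 536870912 = n * 536870912 := rfl
    rw [this]; push_cast; ring
  rw [e]
  unfold S
  push_cast
  field_simp
  ring

/-- the level of the hint -/
noncomputable def gar (g : ℕ) : ℝ := (((Nat.mul g 4096 : ℕ) : ℝ) - (8589934592 : ℕ)) / S / 2

theorem enc_pga (E : Pt) (g : ℕ) : Enc E (pga g) (2 * gar g) := by
  refine enc_cast (enc_dc E (Nat.mul g 4096) 8589934592) ?_
  unfold gar
  ring

theorem enc_q34 (h : Enc E X x) : Enc E (q34 X) (3 / 4 * x ^ 2) := by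
  refine enc_cast (enc_sub (enc_sq h) (enc_half (enc_half (enc_sq h)))) ?_
  ring

theorem enc_qqT (h : Enc E X x) (h' : Enc E Y y) : Enc E (qqT X Y) (qqn x y) :=
  enc_add (enc_sq h) (enc_q34 h')

theorem enc_c1T (h : Enc E X x) : Enc E (c1T X) (c1n x) :=
  enc_sqrt (enc_sub (enc_one E) (enc_q34 h))

theorem enc_khT (h : Enc E X x) : Enc E (khT X) (ken x / 2) := by
  refine enc_cast (enc_norm (enc_mul (enc_norm (enc_add (enc_add (enc_half h) (enc_c1T h))
    (enc_neg (enc_one E)))) (enc_inv (enc_mul h (enc_norm (enc_sub (enc_one E) h)))))) ?_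
  unfold ken esn
  ring

theorem enc_muT (N0 : ℕ) (h : Enc E X x) : Enc E (muT N0 X) (mun N0 x) := by
  refine enc_cast (enc_inv (enc_add (enc_pnc E N0) (enc_add (enc_c1T h) (enc_c1T h)))) ?_
  unfold mun
  rw [one_div, two_mul]

end

theorem enc_dj {E : Pt} {Y : ℕ} {y : ℝ} (n : ℕ) (h : Enc E Y y) : Enc E (dj n Y) (y - n) :=
  enc_norm (enc_subn n h)

theorem con_ok {a b c : ℕ} {cn : Con} (h : con a b c = some cn) (y z : ℝ) :
    cn.ok (y - jq a) (z - jq b) (y + z - jq c) := by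
  unfold con at h
  split at h
  all_goals first
    | (obtain rfl := Option.some.inj h; exact trivial)
    | (obtain rfl := Option.some.inj h; simp only [Con.ok, jq]; push_cast; ring)
    | exact absurd h (by simp)

theorem brec {p a b : Bool} (h : Bool.rec (motive := fun _ => Bool) a b p = true) :
    a = true ∨ b = true := by
  cases p
  · exact Or.inl h
  · exact Or.inr h

theorem disp_true {h : ℕ} {t0 t6 t7 : ℕ → Bool} {t1 t2 t3 t4 t5 : Bool}
    (e : disp h t0 t1 t2 t3 t4 t5 t6 t7 = true) : t0 (Nat.shiftRight h 3) = true ∨ t1 = true ∨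
      t2 = true ∨ t3 = true ∨ t4 = true ∨ t5 = true ∨ t6 (Nat.shiftRight h 3) = true ∨
      t7 (Nat.shiftRight h 3) = true := by
  unfold disp at e
  rcases brec e with e | e
  · rcases brec e with e | e
    · rcases brec e with e | e
      · rcases brec e with e | e
        · rcases brec e with e | e
          · rcases brec e with e | e
            · rcases brec e with e | e
              · exact Or.inr (Or.inr (Or.inr (Or.inr (Or.inr (Or.inr (Or.inr e))))))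
              · exact Or.inr (Or.inr (Or.inr (Or.inr (Or.inr (Or.inr (Or.inl e))))))
            · exact Or.inr (Or.inr (Or.inr (Or.inr (Or.inr (Or.inl e)))))
          · exact Or.inr (Or.inr (Or.inr (Or.inr (Or.inl e))))
        · exact Or.inr (Or.inr (Or.inr (Or.inl e)))
      · exact Or.inr (Or.inr (Or.inl e))
    · exact Or.inr (Or.inl e)
  · exact Or.inl e

/-- one of five forms with a nonpositive value -/
theorem enc_pk5 {E : Pt} {A B C D F : ℕ} {a b c d e : ℝ} (hA : Enc E A a) (hB : Enc E B b)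
    (hC : Enc E C c) (hD : Enc E D d) (hF : Enc E F e) (ga : a ≤ 0) (gb : b ≤ 0) (gc : c ≤ 0)
    (gd : d ≤ 0) (ge : e ≤ 0) (i : ℕ) : ∃ v ≤ 0, Enc E (pk5 i A B C D F) v := by
  unfold pk5
  match i with
  | 0 => exact ⟨a, ga, hA⟩
  | 1 => exact ⟨b, gb, hB⟩
  | 2 => exact ⟨c, gc, hC⟩
  | 3 => exact ⟨d, gd, hD⟩
  | n + 4 => exact ⟨e, ge, hF⟩

theorem lagr_true {k : ℕ → ℕ → Bool} {ex e1 e2 e3 e4 e5 : ℕ} {w : ℕ → Bool} {r : ℕ}
    (h : lagr k ex e1 e2 e3 e4 e5 w r = true) : (∃ g l i, k g (padd ex (pmul (pdc l 0)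
      (pk5 i e1 e2 e3 e4 e5))) = true) ∨ ∃ i, w i = true := by
  unfold lagr at h
  rcases brec h with e | e
  · exact Or.inr ⟨_, e⟩
  · exact Or.inl ⟨_, _, _, e⟩

/-- the alternatives of a leaf -/
def Val.alt (V : Val) (m : ℕ) (cut : Cut) : Prop := V.out m ∨ cut.P V.x V.y V.z V.X V.Y

theorem Val.not_out {V : Val} {m : ℕ} (h : ¬ V.out m) : (m : ℝ) / 2 - V.Y ≤ 0 ∧
    V.Y - ((m : ℝ) + 1) / 2 ≤ 0 ∧ 1 - qqn V.X V.Y ≤ 0 ∧ qqn V.X V.Y - 3 ≤ 0 ∧
    -(1 / 2) ≤ V.ex := by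
  unfold Val.out at h
  push Not at h
  obtain ⟨h1, h2, h3, h4, h5⟩ := h
  exact ⟨by linarith, by linarith, by linarith, by linarith, by linarith⟩

/-- the triangle does not belong to the subfamily, or the height `τ` is not in the range -/
def Val.outT (V : Val) (m m0 m1 : ℕ) (τ : ℝ) : Prop := V.out m ∨ τ < (m0 : ℝ) / S ∨ (m1 : ℝ) / S < τ

/-- the alternatives of a leaf -/
def Val.altT (V : Val) (m m0 m1 : ℕ) (τ : ℝ) (cut : Cut) : Prop :=
  V.outT m m0 m1 τ ∨ cut.P V.x V.y V.z V.X V.Y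

theorem enc_pdc0 (E : Pt) (n : ℕ) : Enc E (pdc n 0) ((n : ℝ) / S) :=
  enc_cast (enc_dc E n 0) (by push_cast; rw [sub_zero])

/-- the height of the third side from the heights of the nodes -/
noncomputable def thr (fam : Bool) (A B : ℝ) : ℝ := cond fam (A + B) (B - A)

theorem valR_x (fam s1 s2 : Bool) (n1 n2 : Node) (pc : Piece) (p q x : ℝ) :
    (valR fam s1 s2 n1 n2 pc p q x).x = x := by cases fam <;> rfl

theorem valR_y (fam s1 s2 : Bool) (n1 n2 : Node) (pc : Piece) (p q x : ℝ) :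
    (valR fam s1 s2 n1 n2 pc p q x).y = n1.Y.v p := by cases fam <;> rfl

theorem valR_Y (fam s1 s2 : Bool) (n1 n2 : Node) (pc : Piece) (p q x : ℝ) :
    (valR fam s1 s2 n1 n2 pc p q x).Y = thr fam (n1.Y.v p) (n2.Y.v q) := by cases fam <;> rfl

theorem valR_ex (fam s1 s2 : Bool) (n1 n2 : Node) (pc : Piece) (p q x : ℝ) :
    (valR fam s1 s2 n1 n2 pc p q x).ex =
      (sgr s1 (n1.X.v p) * n2.Y.v q - sgr s2 (n2.X.v q) * n1.Y.v p) / 2 - 1 / 2 := by
  cases fam <;> rfl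

theorem leaf_sound {E : Pt} {fam s1 s2 : Bool} {m m0 m1 : ℕ} {n1 n2 : Node} {pc : Piece} {cut : Cut}
    {xt : Ext}
    {k : ℕ → ℕ → ℕ → ℕ → ℕ → ℕ → ℕ → ℕ → ℕ → ℕ → Bool} {h P Q X A B Y T : ℕ} {p q x τ : ℝ}
    {R : Prop}
    (hp : Enc E P p) (hq : Enc E Q q) (hx : Enc E X x) (hA : Enc E A (n1.Y.v p))
    (hB : Enc E B (n2.Y.v q)) (hY : Enc E Y (thr fam (n1.Y.v p) (n2.Y.v q))) (hT : Enc E T τ)
    (hk : ∀ g A Z T U Y F (ex : ℝ), Enc E A (valR fam s1 s2 n1 n2 pc p q x).y →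
      Enc E Z (valR fam s1 s2 n1 n2 pc p q x).z →
      Enc E T ((valR fam s1 s2 n1 n2 pc p q x).y + (valR fam s1 s2 n1 n2 pc p q x).z) →
      Enc E U (valR fam s1 s2 n1 n2 pc p q x).X → Enc E Y (valR fam s1 s2 n1 n2 pc p q x).Y →
      Enc E F ex → ex ≤ (valR fam s1 s2 n1 n2 pc p q x).ex → k P Q g X A Z T U Y F = true → R)
    (hl : leaf fam s1 s2 n1 n2 cut xt k h X m0 m1 P Q A B Y T = true) :
    (valR fam s1 s2 n1 n2 pc p q x).altT m m0 m1 τ cut ∨ xt.P p q x ∨ R := by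
  have hU := enc_sg s1 (n1.X.enc hp)
  have hV := enc_sg s2 (n2.X.enc hq)
  have gex := valR_ex fam s1 s2 n1 n2 pc p q x
  have gx := valR_x fam s1 s2 n1 n2 pc p q x
  have gy := valR_y fam s1 s2 n1 n2 pc p q x
  rw [← valR_Y fam s1 s2 n1 n2 pc p q x] at hY
  have kz : Enc E (sl fam B Y) (valR fam s1 s2 n1 n2 pc p q x).z := by
    cases fam
    · exact hY
    · exact hB
  have kt : Enc E (sl fam Y B)
      ((valR fam s1 s2 n1 n2 pc p q x).y + (valR fam s1 s2 n1 n2 pc p q x).z) := by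
    cases fam
    · exact enc_cast hB (by
        show n2.Y.v q = n1.Y.v p + (n2.Y.v q - n1.Y.v p)
        ring)
    · exact hY
  have kX : Enc E (pnorm (th fam (sg s1 (n1.X.t P)) (sg s2 (n2.X.t Q))))
      (valR fam s1 s2 n1 n2 pc p q x).X := by
    cases fam
    · exact enc_norm (enc_sub hV hU)
    · exact enc_norm (enc_add hU hV)
  set V := valR fam s1 s2 n1 n2 pc p q x with hVal
  have kex : Enc E (psub (phf (psub (pmul (sg s1 (n1.X.t P)) B)
      (pmul (sg s2 (n2.X.t Q)) A))) (phn 1)) V.ex := by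
    rw [gex]
    refine enc_cast (enc_sub (enc_half (enc_sub (enc_mul hU hB) (enc_mul hV hA)))
      (enc_phn E 1)) ?_
    push_cast
    ring
  rw [← gy] at hA
  unfold leaf at hl
  simp only [frc_eq] at hl
  rcases disp_true hl with h1 | h1 | h1 | h1 | h1 | h1 | h1 | h1
  · exact Or.inr (Or.inr (hk _ _ _ _ _ _ _ _ hA kz kt kX hY kex le_rfl h1))
  · refine Or.inl (Or.inl (Or.inr (Or.inl ?_)))
    have := ppos_sound (enc_sub (enc_pdc0 E m0) hT) h1
    linarith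
  · refine Or.inl (Or.inl (Or.inr (Or.inr ?_)))
    have := ppos_sound (enc_sub hT (enc_pdc0 E m1)) h1
    linarith
  · refine Or.inl (Or.inl (Or.inl (Or.inr (Or.inr (Or.inl ?_)))))
    have := ppos_sound (enc_sub (enc_one E) (enc_qqT kX hY)) h1
    linarith
  · refine Or.inl (Or.inl (Or.inl (Or.inr (Or.inr (Or.inr (Or.inl ?_))))))
    have := ppos_sound (enc_sub (enc_qqT kX hY) (enc_pnc E 3)) h1
    push_cast at this
    linarith
  · refine Or.inl (Or.inl (Or.inl (Or.inr (Or.inr (Or.inr (Or.inr ?_))))))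
    have := ppos_sound (enc_sub (enc_mul hV (gy ▸ hA)) (enc_mul hU hB)) h1
    rw [gex]
    linarith
  · refine Or.inl (Or.inr ?_)
    rw [gx]
    exact cut.snd hx hA kz kX hY h1
  · by_cases ho : V.outT m m0 m1 τ
    · exact Or.inl (Or.inl ho)
    · unfold Val.outT at ho
      push Not at ho
      obtain ⟨ho, t1, t2⟩ := ho
      obtain ⟨-, -, o3, o4, o5⟩ := Val.not_out ho
      rcases lagr_true h1 with ⟨g, l, i, h2⟩ | ⟨i, h2⟩
      · have b1 := enc_sub (enc_pdc0 E m0) hT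
        have b2 := enc_sub hT (enc_pdc0 E m1)
        have b3 := enc_sub (enc_one E) (enc_qqT kX hY)
        have b4 := enc_sub (enc_qqT kX hY) (enc_pnc E 3)
        have b5 := enc_sub (enc_mul hV (gy ▸ hA)) (enc_mul hU hB)
        obtain ⟨v, hv, hv'⟩ := enc_pk5 b1 b2 b3 b4 b5 (by linarith) (by linarith)
          (by linarith) (by push_cast; linarith) (by rw [gex] at o5; linarith) i
        have hl' := enc_mul (enc_dc E l 0) hv'
        have hn : (0 : ℝ) ≤ ((l : ℝ) - ((0 : ℕ) : ℝ)) / S := by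
          push_cast
          rw [sub_zero]
          positivity
        exact Or.inr (Or.inr (hk _ _ _ _ _ _ _ _ hA kz kt kX hY (enc_add kex hl')
          (by nlinarith [mul_nonneg hn (neg_nonneg.2 hv)]) h2))
      · exact Or.inr (Or.inl (xt.snd hp hq hx h2))

theorem enc_phiR {E : Pt} {fam s1 s2 : Bool} {a b c : ℕ} {cn : Con} (hc : con a b c = some cn)
    {n1 n2 : Node} {pc : Piece} {P Q X : ℕ} {p q x : ℝ}
    (hp : Enc E P p) (hq : Enc E Q q) (hx : Enc E X x) (g : ℕ) {A Z T U Y : ℕ}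
    (hA : Enc E A (valR fam s1 s2 n1 n2 pc p q x).y)
    (hZ : Enc E Z (valR fam s1 s2 n1 n2 pc p q x).z)
    (hT : Enc E T ((valR fam s1 s2 n1 n2 pc p q x).y + (valR fam s1 s2 n1 n2 pc p q x).z))
    (hU : Enc E U (valR fam s1 s2 n1 n2 pc p q x).X)
    (hY : Enc E Y (valR fam s1 s2 n1 n2 pc p q x).Y) (ex : ℝ) :
    Enc E (phiR fam s1 s2 cn a b c n1 n2 pc P Q g X A Z T U Y)
      (ex - slc cn ex (ken x) x ((valR fam s1 s2 n1 n2 pc p q x).y - jq a)
        ((valR fam s1 s2 n1 n2 pc p q x).z - jq b)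
        ((valR fam s1 s2 n1 n2 pc p q x).y + (valR fam s1 s2 n1 n2 pc p q x).z - jq c)
        (valR fam s1 s2 n1 n2 pc p q x).R1 (valR fam s1 s2 n1 n2 pc p q x).R2
        (valR fam s1 s2 n1 n2 pc p q x).R3 (gar g)) := by
  have k1 := n1.K.enc hp hx
  have k2 := n2.K.enc hq hx
  have k3 := enc_norm (pc.K.enc hU hY hx)
  have hu := enc_dj (jq a) hA
  have hv := enc_dj (jq b) hZ
  have hw := enc_dj (jq c) hT
  unfold phiR
  refine enc_rowPhi cn (enc_khT hx) hx hu (enc_neg hu) hv (enc_neg hv) hw (enc_neg hw)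
    ?_ ?_ ?_ ?_ ?_ ?_ (enc_pga E g) (con_ok hc _ _) ex
  · cases fam <;> exact enc_sg s1 k1
  · cases fam <;> exact enc_sgn s1 k1
  · cases fam <;> exact enc_sl _ (enc_sg s2 k2) k3
  · cases fam <;> exact enc_sl _ (enc_sgn s2 k2) (enc_neg k3)
  · cases fam <;> exact enc_sl _ k3 (enc_sg s2 k2)
  · cases fam <;> exact enc_sl _ (enc_neg k3) (enc_sgn s2 k2)

theorem slc_add (c : Con) (ex d k x u v w r1 r2 r3 g : ℝ) :
    slc c (ex + d) k x u v w r1 r2 r3 g = slc c ex k x u v w r1 r2 r3 g + d := by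
  cases c <;> simp only [slc, slN, slW, stn] <;> ring

theorem tF_sound {E : Pt} {F L1 L2 L3 : ℕ} {f l1 l2 l3 : ℝ} (hF : Enc E F f) (h1 : Enc E L1 l1)
    (h2 : Enc E L2 l2) (h3 : Enc E L3 l3) (h : tF F L1 L2 L3 = true) :
    0 < f - |l1 + l2 - l3| / 2 := by
  have hD := enc_half (enc_sub (enc_add h1 h2) h3)
  obtain ⟨g1, g2⟩ := band_true (show band (ppos (psub F (phf (psub (padd L1 L2) L3))))
    (ppos (padd F (phf (psub (padd L1 L2) L3)))) = true from h)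
  have k1 := ppos_sound (enc_sub hF hD) g1
  have k2 := ppos_sound (enc_add hF hD) g2
  rcases abs_cases (l1 + l2 - l3) with ⟨e, -⟩ | ⟨e, -⟩ <;> rw [e] <;> linarith

theorem tN_sound {E : Pt} {N0 : ℕ} {M X Y Z T F L1 L2 L3 : ℕ} {x y z f l1 l2 l3 : ℝ}
    (hM : Enc E M (mun N0 x)) (hX : Enc E X x) (hY : Enc E Y y) (hZ : Enc E Z z)
    (hT : Enc E T (y + z)) (hF : Enc E F f) (h1 : Enc E L1 l1)
    (h2 : Enc E L2 l2) (h3 : Enc E L3 l3) (h : tN (phn N0) M X Y Z T F L1 L2 L3 = true) :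
    0 < f + mun N0 x * min (levn N0 0 x y z l1 l2 l3) (levm N0 0 x y z l1 l2 l3) := by
  have hF' := enc_sub hF (enc_mul hM (enc_norm (enc_half (enc_sub (enc_mul hY (enc_norm h2))
    (enc_mul hZ h1)))))
  have hG := enc_mul hM (enc_mul (enc_norm (enc_sub (enc_add (enc_phn E N0) (enc_half hX))
    (enc_half hT))) (enc_norm (enc_sub (enc_add h1 h2) h3)))
  obtain ⟨g1, g2⟩ := band_true h
  have k1 := ppos_sound (enc_sub hF' hG) g1
  have k2 := ppos_sound (enc_add hF' hG) g2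
  rcases min_cases (levn N0 0 x y z l1 l2 l3) (levm N0 0 x y z l1 l2 l3) with ⟨e, -⟩ | ⟨e, -⟩ <;>
    rw [e]
  · have e2 : mun N0 x * levn N0 0 x y z l1 l2 l3 = -(mun N0 x * ((y * l2 - z * l1) / 2)) +
        mun N0 x * (((N0 : ℝ) / 2 + x / 2 - (y + z) / 2) * (l1 + l2 - l3)) := by
      unfold levn
      ring
    rw [e2]
    linarith
  · have e2 : mun N0 x * levm N0 0 x y z l1 l2 l3 = -(mun N0 x * ((y * l2 - z * l1) / 2)) -
        mun N0 x * (((N0 : ℝ) / 2 + x / 2 - (y + z) / 2) * (l1 + l2 - l3)) := by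
      unfold levm
      ring
    rw [e2]
    linarith

theorem enc_lev {E : Pt} {fam s1 s2 : Bool} {n1 n2 : Node} {pc : Piece} {P Q X U Y : ℕ}
    {p q x : ℝ} (hp : Enc E P p) (hq : Enc E Q q) (hx : Enc E X x)
    (hU : Enc E U (valR fam s1 s2 n1 n2 pc p q x).X)
    (hY : Enc E Y (valR fam s1 s2 n1 n2 pc p q x).Y) :
    Enc E (sg s1 (n1.L.t P X)) (valR fam s1 s2 n1 n2 pc p q x).l1 ∧
      Enc E (sl fam (sg s2 (n2.L.t Q X)) (pc.L.t U Y X)) (valR fam s1 s2 n1 n2 pc p q x).l2 ∧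
      Enc E (sl fam (pc.L.t U Y X) (sg s2 (n2.L.t Q X))) (valR fam s1 s2 n1 n2 pc p q x).l3 := by
  have k1 := enc_sg s1 (n1.L.enc hp hx)
  have k2 := enc_sg s2 (n2.L.enc hq hx)
  have k3 := pc.L.enc hU hY hx
  cases fam <;> exact ⟨k1, enc_sl _ k2 k3, enc_sl _ k3 k2⟩

/-- The statement of a row at the far vertex. -/
def FarR (fam s1 s2 : Bool) (cn : Con) (a b c : ℕ) (n1 n2 : Node) (pc : Piece) (cut : Cut)
    (xt : Ext) (p q x : ℝ) : Prop :=
  (valR fam s1 s2 n1 n2 pc p q x).alt (cond fam c b) cut ∨ xt.P p q x ∨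
    ∃ g, 0 < (valR fam s1 s2 n1 n2 pc p q x).far cn a b c g

/-- The statement of a row at the near vertex. -/
def NearR (N0 : ℕ) (fam s1 s2 : Bool) (cn : Con) (a b c : ℕ) (n1 n2 : Node) (pc : Piece)
    (cut : Cut) (xt : Ext) (p q x : ℝ) : Prop :=
  (valR fam s1 s2 n1 n2 pc p q x).alt (cond fam c b) cut ∨ xt.P p q x ∨
    ∃ g, 0 < (valR fam s1 s2 n1 n2 pc p q x).near N0 cn a b c g

theorem kF_sound {E : Pt} {fam s1 s2 : Bool} {a b c : ℕ} {cn : Con} (hc : con a b c = some cn)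
    {n1 n2 : Node} {pc : Piece} {P Q X : ℕ} {p q x : ℝ}
    (hp : Enc E P p) (hq : Enc E Q q) (hx : Enc E X x) (g : ℕ) {A Z T U Y F : ℕ} {ex : ℝ}
    (hA : Enc E A (valR fam s1 s2 n1 n2 pc p q x).y)
    (hZ : Enc E Z (valR fam s1 s2 n1 n2 pc p q x).z)
    (hT : Enc E T ((valR fam s1 s2 n1 n2 pc p q x).y + (valR fam s1 s2 n1 n2 pc p q x).z))
    (hU : Enc E U (valR fam s1 s2 n1 n2 pc p q x).X)
    (hY : Enc E Y (valR fam s1 s2 n1 n2 pc p q x).Y)
    (hF : Enc E F ex) (he : ex ≤ (valR fam s1 s2 n1 n2 pc p q x).ex)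
    (h : kF fam s1 s2 cn a b c n1 n2 pc P Q g X A Z T U Y F = true) :
    0 < (valR fam s1 s2 n1 n2 pc p q x).far cn a b c (gar g) := by
  have hP := enc_phiR hc hp hq hx g hA hZ hT hU hY (valR fam s1 s2 n1 n2 pc p q x).ex
  obtain ⟨e1, e2, e3⟩ := enc_lev hp hq hx hU hY
  have := tF_sound (enc_sub hF hP) e1 e2 e3 h
  unfold Val.far levF
  rw [sub_eq_add_neg (valR fam s1 s2 n1 n2 pc p q x).ex, slc_add, valR_x]
  linarith

theorem kN_sound {E : Pt} {N0 : ℕ} {fam s1 s2 : Bool} {a b c : ℕ} {cn : Con}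
    (hc : con a b c = some cn) {n1 n2 : Node} {pc : Piece} {P Q X : ℕ} {p q x : ℝ}
    (hp : Enc E P p) (hq : Enc E Q q) (hx : Enc E X x) (g : ℕ) {A Z T U Y F : ℕ} {ex : ℝ}
    (hA : Enc E A (valR fam s1 s2 n1 n2 pc p q x).y)
    (hZ : Enc E Z (valR fam s1 s2 n1 n2 pc p q x).z)
    (hT : Enc E T ((valR fam s1 s2 n1 n2 pc p q x).y + (valR fam s1 s2 n1 n2 pc p q x).z))
    (hU : Enc E U (valR fam s1 s2 n1 n2 pc p q x).X)
    (hY : Enc E Y (valR fam s1 s2 n1 n2 pc p q x).Y)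
    (hF : Enc E F ex) (he : ex ≤ (valR fam s1 s2 n1 n2 pc p q x).ex)
    (h : kN N0 fam s1 s2 cn a b c n1 n2 pc P Q g X A Z T U Y F = true) :
    0 < (valR fam s1 s2 n1 n2 pc p q x).near N0 cn a b c (gar g) := by
  have hP := enc_phiR hc hp hq hx g hA hZ hT hU hY (valR fam s1 s2 n1 n2 pc p q x).ex
  obtain ⟨e1, e2, e3⟩ := enc_lev hp hq hx hU hY
  have := tN_sound (enc_muT N0 hx) hx hA hZ hT (enc_sub hF hP) e1 e2 e3 h
  unfold Val.near levN
  rw [slc_add, valR_x]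
  linarith

/-- packed coordinates of a cell -/
noncomputable def onCell (P1 W1 P2 W2 P3 W3 : ℕ) (f : ℕ → ℕ → ℕ → ℕ → Bool) (h z1 z2 z3 : ℕ) :
    Bool :=
  frc (pX1 (ccen P1 W1 z1) (cwid W1 z1)) fun A => frc (pX2 (ccen P2 W2 z2) (cwid W2 z2)) fun B =>
    frc (pX3 (ccen P3 W3 z3) (cwid W3 z3)) fun C => f h A B C

theorem onCell_sound {P1 W1 P2 W2 P3 W3 : ℕ} {f : ℕ → ℕ → ℕ → ℕ → Bool} {Q : ℝ → ℝ → ℝ → Prop}
    (hf : ∀ {E : Pt} {h A B C : ℕ} {p q x : ℝ}, Enc E A p → Enc E B q → Enc E C x →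
      f h A B C = true → Q p q x) (ht : ∃ t, chk3 (onCell P1 W1 P2 W2 P3 W3 f) t 1 1 1 = true)
    {p q x : ℝ} (hp : (P1 : ℝ) / S ≤ p) (hp' : p ≤ ((P1 : ℝ) + W1) / S) (hq : (P2 : ℝ) / S ≤ q)
    (hq' : q ≤ ((P2 : ℝ) + W2) / S) (hx : (P3 : ℝ) / S ≤ x) (hx' : x ≤ ((P3 : ℝ) + W3) / S) :
    Q p q x := by
  obtain ⟨t, ht⟩ := ht
  have e : ∀ P W : ℕ, ((P : ℝ) + W) / S = (P : ℝ) / S + (W : ℝ) / S := fun P W => by ring
  rw [e] at hp' hq' hx'
  refine chk3_sound (f := onCell P1 W1 P2 W2 P3 W3 f) ?_ t 1 1 1 le_rfl le_rfl le_rfl ht p q x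
    (inC_root hp hp') (inC_root hq hq') (inC_root hx hx')
  intro h z1 z2 z3 g1 g2 g3 hh u v w hu hv hw
  have k : ∀ {P W z : ℕ} {x : ℝ}, 1 ≤ z → InC ((P : ℝ) / S) ((W : ℝ) / S) z x →
      |(S : ℝ) * x - (ccen P W z : ℕ)| ≤ (cwid W z : ℕ) := by
    intro P W z x hz hi
    have := cell_enc (n := 0) hS hz (x := x) (P := P) (W := W) (by simpa using hi)
    simpa using this
  obtain ⟨E, e1, e2, e3⟩ := pt_of (k g1 hu) (k g2 hv) (k g3 hw)
  simp only [onCell, frc_eq] at hh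
  exact hf e1 e2 e3 hh

/-- the coordinate `q` of the second node from the coordinate of the first node and the third
height -/
theorem bk1_thr (fam : Bool) (A B : ℝ) : cond fam (thr fam A B - A) (thr fam A B + A) = B := by
  cases fam
  · show B - A + A = B
    ring
  · show A + B - A = B
    ring

theorem bk2_thr (fam : Bool) (A B : ℝ) : cond fam (thr fam A B - B) (B - thr fam A B) = A := by
  cases fam
  · show B - (B - A) = A
    ring
  · show A + B - B = A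
    ring

/-- the ranges of the coordinates -/
def Rng (P W : ℕ) (p : ℝ) : Prop := (P : ℝ) / S ≤ p ∧ p ≤ ((P : ℝ) + W) / S

/-- A statement about all coordinates of the nodes in given ranges. -/
def Cert (P1 W1 P2 W2 P3 W3 : ℕ) (Q : ℝ → ℝ → ℝ → Prop) : Prop :=
  ∀ {p q x : ℝ}, Rng P1 W1 p → Rng P2 W2 q → Rng P3 W3 x → Q p q x

theorem Cert.imp {P1 W1 P2 W2 P3 W3 : ℕ} {Q Q' : ℝ → ℝ → ℝ → Prop}
    (h : Cert P1 W1 P2 W2 P3 W3 Q) (f : ∀ p q x, Q p q x → Q' p q x) :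
    Cert P1 W1 P2 W2 P3 W3 Q' := fun h1 h2 h3 => f _ _ _ (h h1 h2 h3)

section

variable {fam s1 s2 : Bool} {a b c : ℕ} {n1 n2 : Node} {pc : Piece} {cut : Cut} {xt : Ext}
  {P1 W1 P2 W2 P3 W3 : ℕ} {R : ℝ → ℝ → ℝ → Prop}
  {k : ℕ → ℕ → ℕ → ℕ → ℕ → ℕ → ℕ → ℕ → ℕ → ℕ → Bool}

/-- what the test `k` of a leaf has to give -/
def Snd (fam s1 s2 : Bool) (n1 n2 : Node) (pc : Piece)
    (k : ℕ → ℕ → ℕ → ℕ → ℕ → ℕ → ℕ → ℕ → ℕ → ℕ → Bool) (R : ℝ → ℝ → ℝ → Prop) : Prop :=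
  ∀ {E : Pt} {P Q X : ℕ} {p q x : ℝ}, Enc E P p → Enc E Q q → Enc E X x →
    ∀ g A Z T U Y F (ex : ℝ), Enc E A (valR fam s1 s2 n1 n2 pc p q x).y →
      Enc E Z (valR fam s1 s2 n1 n2 pc p q x).z →
      Enc E T ((valR fam s1 s2 n1 n2 pc p q x).y + (valR fam s1 s2 n1 n2 pc p q x).z) →
      Enc E U (valR fam s1 s2 n1 n2 pc p q x).X → Enc E Y (valR fam s1 s2 n1 n2 pc p q x).Y →
      Enc E F ex → ex ≤ (valR fam s1 s2 n1 n2 pc p q x).ex → k P Q g X A Z T U Y F = true → R p q x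

theorem mulS (n : ℕ) : ((Nat.mul n 536870912 : ℕ) : ℝ) / S = (n : ℝ) / 2 := by
  have : Nat.mul n 536870912 = n * 536870912 := rfl
  rw [this]
  unfold S
  push_cast
  ring

theorem mulS1 (n : ℕ) : ((Nat.mul (Nat.add n 1) 536870912 : ℕ) : ℝ) / S = ((n : ℝ) + 1) / 2 := by
  rw [mulS]
  have : Nat.add n 1 = n + 1 := rfl
  rw [this]
  push_cast
  rfl

theorem mulSw (n : ℕ) : (((Nat.mul n 536870912 : ℕ) : ℝ) + ((536870912 : ℕ) : ℝ)) / S =
    ((n : ℝ) + 1) / 2 := by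
  have : Nat.mul n 536870912 = n * 536870912 := rfl
  rw [this]
  unfold S
  push_cast
  ring

theorem addS (P W : ℕ) : ((Nat.add P W : ℕ) : ℝ) / S = ((P : ℝ) + W) / S := by
  have : Nat.add P W = P + W := rfl
  rw [this]
  push_cast
  rfl

/-- Certificates in the coordinates of both nodes. -/
theorem crd0_sound (hk : Snd fam s1 s2 n1 n2 pc k R)
    (ht : ∃ t, chk3 (onCell P1 W1 P2 W2 P3 W3 fun h u v x => crds 0 fam n1 n2
      (qsf P1 W1 P2 W2 (cond fam c b)) (leaf fam s1 s2 n1 n2 cut xt k h x) u v) t 1 1 1 = true) :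
    Cert P1 W1 P2 W2 P3 W3 fun p q x =>
      (valR fam s1 s2 n1 n2 pc p q x).alt (cond fam c b) cut ∨ xt.P p q x ∨ R p q x := by
  intro p q x hp hq hx
  refine onCell_sound (Q := fun p q x => (valR fam s1 s2 n1 n2 pc p q x).alt (cond fam c b) cut ∨
    xt.P p q x ∨ R p q x) ?_ ht hp.1 hp.2 hq.1 hq.2 hx.1 hx.2
  intro E h A B C p q x h1 h2 h3 hl
  have hA := n1.Y.enc h1
  have hB := n2.Y.enc h2
  have hY : Enc E (pnorm (th fam (n1.Y.t A) (n2.Y.t B))) (thr fam (n1.Y.v p) (n2.Y.v q)) := by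
    cases fam
    · exact enc_norm (enc_sub hB hA)
    · exact enc_norm (enc_add hA hB)
  have hl' : leaf fam s1 s2 n1 n2 cut xt k h C (Nat.mul (cond fam c b) 536870912)
      (Nat.mul (Nat.add (cond fam c b) 1) 536870912) A B (n1.Y.t A) (n2.Y.t B)
      (pnorm (th fam (n1.Y.t A) (n2.Y.t B))) (pnorm (th fam (n1.Y.t A) (n2.Y.t B))) = true := by
    have e : (frc (pnorm (th fam (n1.Y.t A) (n2.Y.t B))) fun Y => leaf fam s1 s2 n1 n2 cut xt k h C
      (Nat.mul (cond fam c b) 536870912) (Nat.mul (Nat.add (cond fam c b) 1) 536870912)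
      A B (n1.Y.t A) (n2.Y.t B) Y Y) = true := hl
    rwa [frc_eq] at e
  rcases leaf_sound (m := cond fam c b) h1 h2 h3 hA hB hY hY (hk h1 h2 h3) hl' with h | h
  · refine Or.inl ?_
    rcases h with (h | h | h) | h
    · exact Or.inl h
    · exact Or.inl (Or.inl (by rw [valR_Y, ← mulS]; exact h))
    · exact Or.inl (Or.inr (Or.inl (by rw [valR_Y, ← mulS1]; exact h)))
    · exact Or.inr h
  · exact Or.inr h

/-- Certificates in the coordinate of the first node and the third height. -/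
theorem crd1_sound (hk : Snd fam s1 s2 n1 n2 pc k R) (hid : ∀ q, n2.Y.v q = q)
    (ht : ∃ t, chk3 (onCell P1 W1 (Nat.mul (cond fam c b) 536870912) 536870912 P3 W3
      fun h u v x => crds 1 fam n1 n2 (qsf P1 W1 P2 W2 (cond fam c b))
      (leaf fam s1 s2 n1 n2 cut xt k h x) u v) t 1 1 1 = true) :
    Cert P1 W1 P2 W2 P3 W3 fun p q x =>
      (valR fam s1 s2 n1 n2 pc p q x).alt (cond fam c b) cut ∨ xt.P p q x ∨ R p q x := by
  intro p q x hp hq hx
  by_cases ho : (valR fam s1 s2 n1 n2 pc p q x).out (cond fam c b)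
  · exact Or.inl (Or.inl ho)
  obtain ⟨o1, o2, -, -, -⟩ := Val.not_out ho
  rw [valR_Y, hid] at o1 o2
  have key := onCell_sound (Q := fun u v x => ∀ q, thr fam (n1.Y.v u) q = v →
    (valR fam s1 s2 n1 n2 pc u q x).altT (cond fam c b) P2 (Nat.add P2 W2) q cut ∨
      xt.P u q x ∨ R u q x) ?_ ht hp.1 hp.2 (q := thr fam (n1.Y.v p) q)
      (by rw [mulS]; linarith) (by rw [mulSw]; linarith) hx.1 hx.2
  · rcases key q rfl with h | h
    · refine Or.inl ?_
      rcases h with (h | h | h) | h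
      · exact Or.inl h
      · exact absurd hq.1 (not_le.2 h)
      · exact absurd hq.2 (not_le.2 (by rw [← addS]; exact h))
      · exact Or.inr h
    · exact Or.inr h
  · intro E h A Y C p v x h1 h2 h3 hl q hv
    subst hv
    have hA := n1.Y.enc h1
    have hB : Enc E (pnorm (bk1 fam (n1.Y.t A) Y)) q := by
      refine enc_norm (enc_cast ?_ (bk1_thr fam (n1.Y.v p) q))
      cases fam
      · exact enc_add h2 hA
      · exact enc_sub h2 hA
    have hl' : leaf fam s1 s2 n1 n2 cut xt k h C P2 (Nat.add P2 W2) A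
        (pnorm (bk1 fam (n1.Y.t A) Y)) (n1.Y.t A) (pnorm (bk1 fam (n1.Y.t A) Y)) Y
        (pnorm (bk1 fam (n1.Y.t A) Y)) = true := by
      have e : (frc (pnorm (bk1 fam (n1.Y.t A) Y)) fun B => leaf fam s1 s2 n1 n2 cut xt k h C
        P2 (Nat.add P2 W2) A B (n1.Y.t A) B Y B) = true := hl
      rwa [frc_eq] at e
    exact leaf_sound (m := cond fam c b) h1 hB h3 hA (by rw [hid]; exact hB)
      (by rw [hid]; exact h2) hB (hk h1 hB h3) hl'

/-- Certificates in the third height and the coordinate of the second node. -/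
theorem crd2_sound (hk : Snd fam s1 s2 n1 n2 pc k R) (hid : ∀ p, n1.Y.v p = p)
    (ht : ∃ t, chk3 (onCell (Nat.mul (cond fam c b) 536870912) 536870912 P2 W2 P3 W3
      fun h u v x => crds 2 fam n1 n2 (qsf P1 W1 P2 W2 (cond fam c b))
      (leaf fam s1 s2 n1 n2 cut xt k h x) u v) t 1 1 1 = true) :
    Cert P1 W1 P2 W2 P3 W3 fun p q x =>
      (valR fam s1 s2 n1 n2 pc p q x).alt (cond fam c b) cut ∨ xt.P p q x ∨ R p q x := by
  intro p q x hp hq hx
  by_cases ho : (valR fam s1 s2 n1 n2 pc p q x).out (cond fam c b)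
  · exact Or.inl (Or.inl ho)
  obtain ⟨o1, o2, -, -, -⟩ := Val.not_out ho
  rw [valR_Y, hid] at o1 o2
  have key := onCell_sound (Q := fun u v x => ∀ p, thr fam p (n2.Y.v v) = u →
    (valR fam s1 s2 n1 n2 pc p v x).altT (cond fam c b) P1 (Nat.add P1 W1) p cut ∨
      xt.P p v x ∨ R p v x) ?_ ht (p := thr fam p (n2.Y.v q)) (by rw [mulS]; linarith)
      (by rw [mulSw]; linarith) hq.1 hq.2 hx.1 hx.2
  · rcases key p rfl with h | h
    · refine Or.inl ?_
      rcases h with (h | h | h) | h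
      · exact Or.inl h
      · exact absurd hp.1 (not_le.2 h)
      · exact absurd hp.2 (not_le.2 (by rw [← addS]; exact h))
      · exact Or.inr h
    · exact Or.inr h
  · intro E h Y B C v q x h1 h2 h3 hl p hv
    subst hv
    have hB := n2.Y.enc h2
    have hA : Enc E (pnorm (bk2 fam (n2.Y.t B) Y)) p := by
      refine enc_norm (enc_cast ?_ (bk2_thr fam p (n2.Y.v q)))
      cases fam
      · exact enc_sub hB h1
      · exact enc_sub h1 hB
    have hl' : leaf fam s1 s2 n1 n2 cut xt k h C P1 (Nat.add P1 W1)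
        (pnorm (bk2 fam (n2.Y.t B) Y)) B (pnorm (bk2 fam (n2.Y.t B) Y)) (n2.Y.t B) Y
        (pnorm (bk2 fam (n2.Y.t B) Y)) = true := by
      have e : (frc (pnorm (bk2 fam (n2.Y.t B) Y)) fun A => leaf fam s1 s2 n1 n2 cut xt k h C
        P1 (Nat.add P1 W1) A B A (n2.Y.t B) Y A) = true := hl
      rwa [frc_eq] at e
    exact leaf_sound (m := cond fam c b) hA h2 h3 (by rw [hid]; exact hA) hB
      (by rw [hid]; exact h1) hA (hk hA h2 h3) hl'

end

/-- The certificate of a row at the far vertex. -/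
abbrev CertF (P1 W1 P2 W2 P3 W3 : ℕ) (fam s1 s2 : Bool) (cn : Con) (a b c : ℕ) (n1 n2 : Node)
    (pc : Piece) (cut : Cut) (xt : Ext) : Prop :=
  Cert P1 W1 P2 W2 P3 W3 (FarR fam s1 s2 cn a b c n1 n2 pc cut xt)

/-- The certificate of a row at the near vertex. -/
abbrev CertN (P1 W1 P2 W2 P3 W3 N0 : ℕ) (fam s1 s2 : Bool) (cn : Con) (a b c : ℕ) (n1 n2 : Node)
    (pc : Piece) (cut : Cut) (xt : Ext) : Prop :=
  Cert P1 W1 P2 W2 P3 W3 (NearR N0 fam s1 s2 cn a b c n1 n2 pc cut xt)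

section

variable {fam s1 s2 : Bool} {a b c N0 : ℕ} {cn : Con} {n1 n2 : Node} {pc : Piece} {cut : Cut}
  {xt : Ext} {P1 W1 P2 W2 P3 W3 : ℕ}

theorem snd_kF (hc : con a b c = some cn) : Snd fam s1 s2 n1 n2 pc
    (kF fam s1 s2 cn a b c n1 n2 pc)
    (fun p q x => ∃ g, 0 < (valR fam s1 s2 n1 n2 pc p q x).far cn a b c g) :=
  fun h1 h2 h3 g _ _ _ _ _ _ _ hA hZ hT hU hY hF he hk =>
    ⟨_, kF_sound hc h1 h2 h3 g hA hZ hT hU hY hF he hk⟩

theorem snd_kN (hc : con a b c = some cn) : Snd fam s1 s2 n1 n2 pc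
    (kN N0 fam s1 s2 cn a b c n1 n2 pc)
    (fun p q x => ∃ g, 0 < (valR fam s1 s2 n1 n2 pc p q x).near N0 cn a b c g) :=
  fun h1 h2 h3 g _ _ _ _ _ _ _ hA hZ hT hU hY hF he hk =>
    ⟨_, kN_sound hc h1 h2 h3 g hA hZ hT hU hY hF he hk⟩

/-- **A row at the far vertex** from its certificate, coordinates of both nodes. -/
theorem certF0 (hc : con a b c = some cn) (ht : ∃ t, chk3 (onCell P1 W1 P2 W2 P3 W3
      (rowF 0 fam s1 s2 cn a b c
        (qsf P1 W1 P2 W2 (cond fam c b)) n1 n2 pc cut xt)) t 1 1 1 = true) :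
    CertF P1 W1 P2 W2 P3 W3 fam s1 s2 cn a b c n1 n2 pc cut xt := crd0_sound (snd_kF hc) ht

/-- **A row at the far vertex** from its certificate, first node and third height. -/
theorem certF1 (hc : con a b c = some cn) (hid : ∀ q, n2.Y.v q = q)
    (ht : ∃ t, chk3 (onCell P1 W1 (Nat.mul (cond fam c b) 536870912) 536870912 P3 W3
      (rowF 1 fam s1 s2 cn a b c
        (qsf P1 W1 P2 W2 (cond fam c b)) n1 n2 pc cut xt)) t 1 1 1 = true) :
    CertF P1 W1 P2 W2 P3 W3 fam s1 s2 cn a b c n1 n2 pc cut xt :=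
  crd1_sound (snd_kF hc) hid ht

/-- **A row at the far vertex** from its certificate, third height and second node. -/
theorem certF2 (hc : con a b c = some cn) (hid : ∀ p, n1.Y.v p = p)
    (ht : ∃ t, chk3 (onCell (Nat.mul (cond fam c b) 536870912) 536870912 P2 W2 P3 W3
      (rowF 2 fam s1 s2 cn a b c
        (qsf P1 W1 P2 W2 (cond fam c b)) n1 n2 pc cut xt)) t 1 1 1 = true) :
    CertF P1 W1 P2 W2 P3 W3 fam s1 s2 cn a b c n1 n2 pc cut xt :=
  crd2_sound (snd_kF hc) hid ht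

/-- **A row at the near vertex** from its certificate, coordinates of both nodes. -/
theorem certN0 (hc : con a b c = some cn) (ht : ∃ t, chk3 (onCell P1 W1 P2 W2 P3 W3
      (rowN N0 0 fam s1 s2 cn a b c
        (qsf P1 W1 P2 W2 (cond fam c b)) n1 n2 pc cut xt)) t 1 1 1 = true) :
    CertN P1 W1 P2 W2 P3 W3 N0 fam s1 s2 cn a b c n1 n2 pc cut xt := crd0_sound (snd_kN hc) ht

/-- **A row at the near vertex** from its certificate, first node and third height. -/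
theorem certN1 (hc : con a b c = some cn) (hid : ∀ q, n2.Y.v q = q)
    (ht : ∃ t, chk3 (onCell P1 W1 (Nat.mul (cond fam c b) 536870912) 536870912 P3 W3
      (rowN N0 1 fam s1 s2 cn a b c
        (qsf P1 W1 P2 W2 (cond fam c b)) n1 n2 pc cut xt)) t 1 1 1 = true) :
    CertN P1 W1 P2 W2 P3 W3 N0 fam s1 s2 cn a b c n1 n2 pc cut xt :=
  crd1_sound (snd_kN hc) hid ht

/-- **A row at the near vertex** from its certificate, third height and second node. -/
theorem certN2 (hc : con a b c = some cn) (hid : ∀ p, n1.Y.v p = p)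
    (ht : ∃ t, chk3 (onCell (Nat.mul (cond fam c b) 536870912) 536870912 P2 W2 P3 W3
      (rowN N0 2 fam s1 s2 cn a b c
        (qsf P1 W1 P2 W2 (cond fam c b)) n1 n2 pc cut xt)) t 1 1 1 = true) :
    CertN P1 W1 P2 W2 P3 W3 N0 fam s1 s2 cn a b c n1 n2 pc cut xt :=
  crd2_sound (snd_kN hc) hid ht

end

/-- largest difference of three numbers -/
noncomputable def wdR (c1 c2 c3 : ℝ) : ℝ := max |c1 - c2| (max |c1 - c3| |c2 - c3|)

/-- The third kernels on the sides bottom-middle, middle-top, bottom-top. -/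
noncomputable def valC (fam s1 s2 : Bool) (C1 C2 : Fn2) (C3 : Fn3) (n1 n2 : Node) (pc : Piece)
    (p q x : ℝ) : ℝ × ℝ × ℝ :=
  (sgr s1 (C1.v p x),
    cond fam (sgr s2 (C2.v q x)) (C3.v (valR fam s1 s2 n1 n2 pc p q x).X
      (valR fam s1 s2 n1 n2 pc p q x).Y x),
    cond fam (C3.v (valR fam s1 s2 n1 n2 pc p q x).X (valR fam s1 s2 n1 n2 pc p q x).Y x)
      (sgr s2 (C2.v q x)))

/-- The part of the slack which is subtracted from the excess. -/
noncomputable def Val.phi (V : Val) (cn : Con) (a b c : ℕ) (γ : ℝ) : ℝ :=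
  V.ex - slc cn V.ex (ken V.x) V.x (V.y - jq a) (V.z - jq b) (V.y + V.z - jq c) V.R1 V.R2 V.R3 γ

/-- The statement of a row for both vertices: the subtracted part is less than the excess with the
level term of the far vertex, and `E` times it is less than the excess with the level term of the
near vertex and the bound for the third kernel. -/
def BothR (N0 : ℕ) (En mo : Fn1) (C1 C2 : Fn2) (C3 : Fn3) (fam s1 s2 : Bool) (cn : Con)
    (a b c : ℕ) (n1 n2 : Node) (pc : Piece) (cut : Cut) (xt : Ext) (p q x : ℝ) : Prop :=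
  (valR fam s1 s2 n1 n2 pc p q x).alt (cond fam c b) cut ∨ xt.P p q x ∨
    ∃ g, (valR fam s1 s2 n1 n2 pc p q x).phi cn a b c g <
        levF (valR fam s1 s2 n1 n2 pc p q x).ex (valR fam s1 s2 n1 n2 pc p q x).l1
          (valR fam s1 s2 n1 n2 pc p q x).l2 (valR fam s1 s2 n1 n2 pc p q x).l3 ∧
      En.v x * (valR fam s1 s2 n1 n2 pc p q x).phi cn a b c g <
        levN N0 0 x (valR fam s1 s2 n1 n2 pc p q x).y (valR fam s1 s2 n1 n2 pc p q x).z
          (valR fam s1 s2 n1 n2 pc p q x).ex (valR fam s1 s2 n1 n2 pc p q x).l1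
          (valR fam s1 s2 n1 n2 pc p q x).l2 (valR fam s1 s2 n1 n2 pc p q x).l3 -
        mo.v x * wdR (valC fam s1 s2 C1 C2 C3 n1 n2 pc p q x).1
          (valC fam s1 s2 C1 C2 C3 n1 n2 pc p q x).2.1
          (valC fam s1 s2 C1 C2 C3 n1 n2 pc p q x).2.2

theorem enc_wdT {E : Pt} {A B C : ℕ} {a b c : ℝ} (h1 : Enc E A a) (h2 : Enc E B b)
    (h3 : Enc E C c) : Enc E (wdT A B C) (wdR a b c) :=
  enc_max (enc_abs (enc_sub h1 h2)) (enc_max (enc_abs (enc_sub h1 h3)) (enc_abs (enc_sub h2 h3)))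

theorem enc_valC {E : Pt} {fam s1 s2 : Bool} {C1 C2 : Fn2} {C3 : Fn3} {n1 n2 : Node} {pc : Piece}
    {P Q X U Y : ℕ} {p q x : ℝ} (hp : Enc E P p) (hq : Enc E Q q) (hx : Enc E X x)
    (hU : Enc E U (valR fam s1 s2 n1 n2 pc p q x).X)
    (hY : Enc E Y (valR fam s1 s2 n1 n2 pc p q x).Y) :
    Enc E (sg s1 (C1.t P X)) (valC fam s1 s2 C1 C2 C3 n1 n2 pc p q x).1 ∧
      Enc E (sl fam (sg s2 (C2.t Q X)) (C3.t U Y X))
        (valC fam s1 s2 C1 C2 C3 n1 n2 pc p q x).2.1 ∧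
      Enc E (sl fam (C3.t U Y X) (sg s2 (C2.t Q X)))
        (valC fam s1 s2 C1 C2 C3 n1 n2 pc p q x).2.2 := by
  have k1 := enc_sg s1 (C1.enc hp hx)
  have k2 := enc_sg s2 (C2.enc hq hx)
  have k3 := C3.enc hU hY hx
  cases fam <;> exact ⟨k1, enc_sl _ k2 k3, enc_sl _ k3 k2⟩

theorem kB_sound {E : Pt} {N0 : ℕ} {En mo : Fn1} {C1 C2 : Fn2} {C3 : Fn3} {fam s1 s2 : Bool}
    {a b c : ℕ} {cn : Con} (hc : con a b c = some cn) {n1 n2 : Node} {pc : Piece} {P Q X : ℕ}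
    {p q x : ℝ} (hp : Enc E P p) (hq : Enc E Q q) (hx : Enc E X x) (g : ℕ) {A Z T U Y F : ℕ}
    {ex : ℝ} (hA : Enc E A (valR fam s1 s2 n1 n2 pc p q x).y)
    (hZ : Enc E Z (valR fam s1 s2 n1 n2 pc p q x).z)
    (hT : Enc E T ((valR fam s1 s2 n1 n2 pc p q x).y + (valR fam s1 s2 n1 n2 pc p q x).z))
    (hU : Enc E U (valR fam s1 s2 n1 n2 pc p q x).X)
    (hY : Enc E Y (valR fam s1 s2 n1 n2 pc p q x).Y)
    (hF : Enc E F ex) (he : ex ≤ (valR fam s1 s2 n1 n2 pc p q x).ex)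
    (h : kB N0 En mo C1 C2 C3 fam s1 s2 cn a b c n1 n2 pc P Q g X A Z T U Y F = true) :
    (valR fam s1 s2 n1 n2 pc p q x).phi cn a b c (gar g) <
        levF (valR fam s1 s2 n1 n2 pc p q x).ex (valR fam s1 s2 n1 n2 pc p q x).l1
          (valR fam s1 s2 n1 n2 pc p q x).l2 (valR fam s1 s2 n1 n2 pc p q x).l3 ∧
      En.v x * (valR fam s1 s2 n1 n2 pc p q x).phi cn a b c (gar g) <
        levN N0 0 x (valR fam s1 s2 n1 n2 pc p q x).y (valR fam s1 s2 n1 n2 pc p q x).z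
          (valR fam s1 s2 n1 n2 pc p q x).ex (valR fam s1 s2 n1 n2 pc p q x).l1
          (valR fam s1 s2 n1 n2 pc p q x).l2 (valR fam s1 s2 n1 n2 pc p q x).l3 -
        mo.v x * wdR (valC fam s1 s2 C1 C2 C3 n1 n2 pc p q x).1
          (valC fam s1 s2 C1 C2 C3 n1 n2 pc p q x).2.1
          (valC fam s1 s2 C1 C2 C3 n1 n2 pc p q x).2.2 := by
  have hP := enc_phiR hc hp hq hx g hA hZ hT hU hY (valR fam s1 s2 n1 n2 pc p q x).ex
  obtain ⟨e1, e2, e3⟩ := enc_lev hp hq hx hU hY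
  obtain ⟨d1, d2, d3⟩ := enc_valC (C1 := C1) (C2 := C2) (C3 := C3) hp hq hx hU hY
  obtain ⟨g1, g2⟩ := band_true h
  have k1 := tF_sound (enc_sub hF hP) e1 e2 e3 g1
  have k2 := tN_sound (enc_muT N0 hx) hx hA hZ hT
    (enc_sub (enc_sub hF (enc_mul (En.enc hx) (enc_norm hP))) (enc_mul (mo.enc hx) (enc_norm (enc_wdT d1 d2 d3))))
    e1 e2 e3 g2
  unfold Val.phi levF levN
  rw [valR_x]
  constructor <;> linarith

/-- The certificate of a row for both vertices. -/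
abbrev CertB (P1 W1 P2 W2 P3 W3 N0 : ℕ) (En mo : Fn1) (C1 C2 : Fn2) (C3 : Fn3)
    (fam s1 s2 : Bool) (cn : Con) (a b c : ℕ) (n1 n2 : Node) (pc : Piece) (cut : Cut) (xt : Ext) :
    Prop :=
  Cert P1 W1 P2 W2 P3 W3 (BothR N0 En mo C1 C2 C3 fam s1 s2 cn a b c n1 n2 pc cut xt)

section

variable {fam s1 s2 : Bool} {a b c N0 : ℕ} {En mo : Fn1} {C1 C2 : Fn2} {C3 : Fn3} {cn : Con}
  {n1 n2 : Node} {pc : Piece} {cut : Cut} {xt : Ext} {P1 W1 P2 W2 P3 W3 : ℕ}

theorem snd_kB (hc : con a b c = some cn) : Snd fam s1 s2 n1 n2 pc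
    (kB N0 En mo C1 C2 C3 fam s1 s2 cn a b c n1 n2 pc)
    (fun p q x => ∃ g, (valR fam s1 s2 n1 n2 pc p q x).phi cn a b c g <
        levF (valR fam s1 s2 n1 n2 pc p q x).ex (valR fam s1 s2 n1 n2 pc p q x).l1
          (valR fam s1 s2 n1 n2 pc p q x).l2 (valR fam s1 s2 n1 n2 pc p q x).l3 ∧
      En.v x * (valR fam s1 s2 n1 n2 pc p q x).phi cn a b c g <
        levN N0 0 x (valR fam s1 s2 n1 n2 pc p q x).y (valR fam s1 s2 n1 n2 pc p q x).z
          (valR fam s1 s2 n1 n2 pc p q x).ex (valR fam s1 s2 n1 n2 pc p q x).l1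
          (valR fam s1 s2 n1 n2 pc p q x).l2 (valR fam s1 s2 n1 n2 pc p q x).l3 -
        mo.v x * wdR (valC fam s1 s2 C1 C2 C3 n1 n2 pc p q x).1
          (valC fam s1 s2 C1 C2 C3 n1 n2 pc p q x).2.1
          (valC fam s1 s2 C1 C2 C3 n1 n2 pc p q x).2.2) :=
  fun h1 h2 h3 g _ _ _ _ _ _ _ hA hZ hT hU hY hF he hk =>
    ⟨_, kB_sound hc h1 h2 h3 g hA hZ hT hU hY hF he hk⟩

/-- **A row for both vertices** from its certificate, coordinates of both nodes. -/
theorem certB0 (hc : con a b c = some cn) (ht : ∃ t, chk3 (onCell P1 W1 P2 W2 P3 W3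
      (rowB N0 En mo C1 C2 C3 0 fam s1 s2 cn a b c
        (qsf P1 W1 P2 W2 (cond fam c b)) n1 n2 pc cut xt)) t
      1 1 1 = true) :
    CertB P1 W1 P2 W2 P3 W3 N0 En mo C1 C2 C3 fam s1 s2 cn a b c n1 n2 pc cut xt :=
  crd0_sound (snd_kB hc) ht

/-- **A row for both vertices** from its certificate, first node and third height. -/
theorem certB1 (hc : con a b c = some cn) (hid : ∀ q, n2.Y.v q = q)
    (ht : ∃ t, chk3 (onCell P1 W1 (Nat.mul (cond fam c b) 536870912) 536870912 P3 W3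
      (rowB N0 En mo C1 C2 C3 1 fam s1 s2 cn a b c
        (qsf P1 W1 P2 W2 (cond fam c b)) n1 n2 pc cut xt)) t
      1 1 1 = true) :
    CertB P1 W1 P2 W2 P3 W3 N0 En mo C1 C2 C3 fam s1 s2 cn a b c n1 n2 pc cut xt :=
  crd1_sound (snd_kB hc) hid ht

/-- **A row for both vertices** from its certificate, third height and second node. -/
theorem certB2 (hc : con a b c = some cn) (hid : ∀ p, n1.Y.v p = p)
    (ht : ∃ t, chk3 (onCell (Nat.mul (cond fam c b) 536870912) 536870912 P2 W2 P3 W3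
      (rowB N0 En mo C1 C2 C3 2 fam s1 s2 cn a b c
        (qsf P1 W1 P2 W2 (cond fam c b)) n1 n2 pc cut xt)) t
      1 1 1 = true) :
    CertB P1 W1 P2 W2 P3 W3 N0 En mo C1 C2 C3 fam s1 s2 cn a b c n1 n2 pc cut xt :=
  crd2_sound (snd_kB hc) hid ht

end

end Pool.Agent.Strip051.PB
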