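import Pool.Agent.Strip051.PB.Cert

/-! # Rows: from statements about real functions to the triples of quarters -/

namespace Pool.Agent.Strip051.PB

open Pool.Agent.StripNear Pool.Agent.StripSquare Pool.Agent.Strip051.Sweep
open Pool.Agent.Strip051.LC

section

variable {n : ℕ}

/-- The facts about a point of the family `A`. -/
structure FactsA (P : Pos n) (a b c : ℕ) (j k : Fin (n + 1)) (σ σ' y y' : ℝ) : Prop where
  q1 : InQ a y
  q2 : InQ b y'
  q3 : InQ c (y + y')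
  len1 : 1 ≤ qqn (σ * crv P j a y + σ' * crv P k b y') (y + y')
  len3 : qqn (σ * crv P j a y + σ' * crv P k b y') (y + y') ≤ 3
  exc : 0 ≤ exn' (σ * crv P j a y) (σ * crv P j a y + σ' * crv P k b y') y (y + y') + 1 / 2
  j0 : j = 0 → h0 * y < 1
  k0 : k = 0 → h0 * y' < 1

/-- The facts about a point of the family `B`. -/
structure FactsB (P : Pos n) (a b c : ℕ) (j k : Fin (n + 1)) (σ σ' y y' : ℝ) : Prop where
  q1 : InQ a y
  q2 : InQ b y'
  q3 : InQ c (y + y')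
  len1 : 1 ≤ qqn (σ' * crv P k c (y + y') - σ * crv P j a y) y'
  len3 : qqn (σ' * crv P k c (y + y') - σ * crv P j a y) y' ≤ 3
  exc : 0 ≤ exn' (σ * crv P j a y) (σ' * crv P k c (y + y')) y (y + y') + 1 / 2
  j0 : j = 0 → h0 * y < 1
  k0 : k = 0 → h0 * (y + y') < 1

variable {P : Pos n} {a b c : ℕ} {j k : Fin (n + 1)} {σ σ' y y' : ℝ}

theorem y_lt (h : h0 * y < 1) : y < 11547006 / 10000000 := by
  have hp := h0_pos
  have hq := h0_sq
  by_contra hh
  push Not at hh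
  have h1 : h0 * (11547006 / 10000000) < 1 := lt_of_le_of_lt (mul_le_mul_of_nonneg_left hh hp.le) h
  have h2 : (h0 * (11547006 / 10000000)) ^ 2 < 1 := by
    rw [sq_lt_one_iff₀ (by positivity)]
    exact h1
  rw [mul_pow, hq] at h2
  norm_num at h2

theorem FactsA.y0 (h : FactsA P a b c j k σ σ' y y') : 0 ≤ y := h.q1.nonneg
theorem FactsA.y0' (h : FactsA P a b c j k σ σ' y y') : 0 ≤ y' := h.q2.nonneg
theorem FactsA.y2 (h : FactsA P a b c j k σ σ' y y') : y + y' ≤ 2 := h.q3.le_two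
theorem FactsB.y0 (h : FactsB P a b c j k σ σ' y y') : 0 ≤ y := h.q1.nonneg
theorem FactsB.y0' (h : FactsB P a b c j k σ σ' y y') : 0 ≤ y' := h.q2.nonneg
theorem FactsB.y2 (h : FactsB P a b c j k σ σ' y y') : y + y' ≤ 2 := h.q3.le_two

theorem InA.facts (H : InA P.cur a b c j k σ σ' y y') : FactsA P a b c j k σ σ' y y' := by
  have e1 := linkX P j a y H.q1
  have e2 := linkX P k b y' H.q2
  have ho := H.ho
  have h1 := H.h1
  have h3 := H.h3
  rw [e1, e2] at ho h1 h3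
  refine ⟨H.q1, H.q2, H.q3, h1, h3, ?_, fun h => H.d1.1 h, fun h => H.d2.1 h⟩
  unfold exn'
  linarith

theorem InB.facts (H : InB P.cur a b c j k σ σ' y y') : FactsB P a b c j k σ σ' y y' := by
  have e1 := linkX P j a y H.q1
  have e2 := linkX P k c (y + y') H.q3
  have ho := H.ho
  have h1 := H.h1
  have h3 := H.h3
  rw [e1, e2] at ho h1 h3
  refine ⟨H.q1, H.q2, H.q3, h1, h3, ?_, fun h => H.d1.1 h, fun h => H.d3.1 h⟩
  unfold exn'
  linarith

/-! ### The values on the three sides -/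

/-- The values on the three sides, family `A`. -/
noncomputable def vlA (P : Pos n) (R : Fin (n + 1) → ℕ → ℝ → ℝ → ℝ) (T : ℕ → ℝ → ℝ → ℝ → ℝ)
    (a b c : ℕ) (j k : Fin (n + 1)) (σ σ' x y y' : ℝ) : ℝ × ℝ × ℝ :=
  (σ * R j a y x, σ' * R k b y' x, T c (σ * crv P j a y + σ' * crv P k b y') (y + y') x)

/-- The values on the three sides, family `B`. -/
noncomputable def vlB (P : Pos n) (R : Fin (n + 1) → ℕ → ℝ → ℝ → ℝ) (T : ℕ → ℝ → ℝ → ℝ → ℝ)
    (a b c : ℕ) (j k : Fin (n + 1)) (σ σ' x y y' : ℝ) : ℝ × ℝ × ℝ :=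
  (σ * R j a y x, T b (σ' * crv P k c (y + y') - σ * crv P j a y) y' x, σ' * R k c (y + y') x)

/-- The excess, family `A`. -/
noncomputable def exA (P : Pos n) (a b : ℕ) (j k : Fin (n + 1)) (σ σ' y y' : ℝ) : ℝ :=
  exn' (σ * crv P j a y) (σ * crv P j a y + σ' * crv P k b y') y (y + y')

/-- The excess, family `B`. -/
noncomputable def exB (P : Pos n) (a c : ℕ) (j k : Fin (n + 1)) (σ σ' y y' : ℝ) : ℝ :=
  exn' (σ * crv P j a y) (σ' * crv P k c (y + y')) y (y + y')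

/-! ### The level terms -/

/-- The excess with the level term at the far vertex. -/
noncomputable def lvF (e : ℝ) (r : ℝ × ℝ × ℝ) : ℝ := levF e r.1 r.2.1 r.2.2

/-- The excess with the level term at the near vertex. -/
noncomputable def lvN (N0 : ℕ) (lv x y y' e : ℝ) (r : ℝ × ℝ × ℝ) : ℝ :=
  levN N0 lv x y y' e r.1 r.2.1 r.2.2

/-- The width of three values. -/
noncomputable def widn (c1 c2 c3 : ℝ) : ℝ := max |c1 - c2| (max |c1 - c3| |c2 - c3|)

/-- The smaller one of the two excesses for the statement at both vertices. -/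
noncomputable def lvE (N0 : ℕ) (lv E o x y y' e : ℝ) (r c : ℝ × ℝ × ℝ) : ℝ :=
  min (lvF e r) ((lvN N0 lv x y y' e r - mun N0 x * (o * widn c.1 c.2.1 c.2.2)) / E)

/-- The slack with a triple of values. -/
noncomputable def slt (cn : Con) (a b c : ℕ) (e kE x y y' : ℝ) (r : ℝ × ℝ × ℝ) (g : ℝ) : ℝ :=
  slc cn e kE x (y - jq a) (y' - jq b) (y + y' - jq c) r.1 r.2.1 r.2.2 g

theorem FactsA.ngv (F : FactsA P a b c j k σ σ' y y') {cn : Con} (hc : con a b c = some cn)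
    {κ x e : ℝ} {r : ℝ × ℝ × ℝ} (h : ∃ g, 0 ≤ slt cn a b c e (κ * h0) x y y' r g) :
    NGV κ (h0 * x) e (h0 * y) (h0 * y') r := by
  obtain ⟨g, h⟩ := h
  exact ngv_of hc F.q1 F.q2 F.q3 h

theorem FactsB.ngv (F : FactsB P a b c j k σ σ' y y') {cn : Con} (hc : con a b c = some cn)
    {κ x e : ℝ} {r : ℝ × ℝ × ℝ} (h : ∃ g, 0 ≤ slt cn a b c e (κ * h0) x y y' r g) :
    NGV κ (h0 * x) e (h0 * y) (h0 * y') r := by
  obtain ⟨g, h⟩ := h
  exact ngv_of hc F.q1 F.q2 F.q3 h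

variable {x κ lv E o : ℝ} {N0 : ℕ} {f : ℝ → ℝ} {RA RB RL RC : Fin (n + 1) → ℕ → ℝ → ℝ → ℝ}
  {TA TB TL TC : ℕ → ℝ → ℝ → ℝ → ℝ}

/-! ### The far vertex -/

theorem triA_far (LA : Link P.cur x (tbl RA x) RA TA) (LL : Link P.cur x (tbl RL x) RL TL)
    (hσ : σ = 1 ∨ σ = -1) (hσ' : σ' = 1 ∨ σ' = -1)
    (h : ∀ y y', FactsA P a b c j k σ σ' y y' →
      NGV κ (h0 * x) (lvF (exA P a b j k σ σ' y y') (vlA P RL TL a b c j k σ σ' x y y'))
        (h0 * y) (h0 * y') (vlA P RA TA a b c j k σ σ' x y y')) :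
    TriA P.cur (farS κ (h0 * x) (tbl RA x) (tbl RL x)) a b c j k σ σ' := by
  intro y y' H
  have e1 := linkX P j a y H.q1
  have e2 := linkX P k b y' H.q2
  unfold farS
  rw [valK_useA LA (linkX P) hσ hσ' H, valK_useA LL (linkX P) hσ hσ' H, exn_n, levF_n, e1, e2]
  exact h y y' H.facts

theorem triB_far (LA : Link P.cur x (tbl RA x) RA TA) (LL : Link P.cur x (tbl RL x) RL TL)
    (hσ : σ = 1 ∨ σ = -1) (hσ' : σ' = 1 ∨ σ' = -1)
    (h : ∀ y y', FactsB P a b c j k σ σ' y y' →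
      NGV κ (h0 * x) (lvF (exB P a c j k σ σ' y y') (vlB P RL TL a b c j k σ σ' x y y'))
        (h0 * y) (h0 * y') (vlB P RA TA a b c j k σ σ' x y y')) :
    TriB P.cur (farS κ (h0 * x) (tbl RA x) (tbl RL x)) a b c j k σ σ' := by
  intro y y' H
  have e1 := linkX P j a y H.q1
  have e2 := linkX P k c (y + y') H.q3
  unfold farS
  rw [valK_useB LA (linkX P) hσ hσ' H, valK_useB LL (linkX P) hσ hσ' H, exn_n, levF_n, e1, e2]
  exact h y y' H.facts

/-! ### The near vertex -/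

theorem triA_near (LB : Link P.cur x (tbl RB x) RB TB) (LL : Link P.cur x (tbl RL x) RL TL)
    (hσ : σ = 1 ∨ σ = -1) (hσ' : σ' = 1 ∨ σ' = -1)
    (h : ∀ y y', FactsA P a b c j k σ σ' y y' →
      NGV κ (h0 * x) (lvN N0 lv x y y' (exA P a b j k σ σ' y y')
        (vlA P RL TL a b c j k σ σ' x y y')) (h0 * y) (h0 * y')
        (vlA P RB TB a b c j k σ σ' x y y')) :
    TriA P.cur (nearL (h0 * lv) N0 κ (h0 * x) (tbl RB x) (tbl RL x)) a b c j k σ σ' := by
  intro y y' H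
  have e1 := linkX P j a y H.q1
  have e2 := linkX P k b y' H.q2
  unfold nearL
  rw [valK_useA LB (linkX P) hσ hσ' H, valK_useA LL (linkX P) hσ hσ' H, exn_n, e1, e2]
  simp only
  rw [levN_n]
  exact h y y' H.facts

theorem triB_near (LB : Link P.cur x (tbl RB x) RB TB) (LL : Link P.cur x (tbl RL x) RL TL)
    (hσ : σ = 1 ∨ σ = -1) (hσ' : σ' = 1 ∨ σ' = -1)
    (h : ∀ y y', FactsB P a b c j k σ σ' y y' →
      NGV κ (h0 * x) (lvN N0 lv x y y' (exB P a c j k σ σ' y y')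
        (vlB P RL TL a b c j k σ σ' x y y')) (h0 * y) (h0 * y')
        (vlB P RB TB a b c j k σ σ' x y y')) :
    TriB P.cur (nearL (h0 * lv) N0 κ (h0 * x) (tbl RB x) (tbl RL x)) a b c j k σ σ' := by
  intro y y' H
  have e1 := linkX P j a y H.q1
  have e2 := linkX P k c (y + y') H.q3
  unfold nearL
  rw [valK_useB LB (linkX P) hσ hσ' H, valK_useB LL (linkX P) hσ hσ' H, exn_n, e1, e2]
  simp only
  rw [levN_n]
  exact h y y' H.facts

/-! ### Both vertices -/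

/-- The statement at both vertices with explicit values: `e` is the excess, `r` are the values of
the kernel, `l` the level values, `c` the values of the third kernel. -/
def Both (N0 : ℕ) (lv κ E o : ℝ) (f : ℝ → ℝ) (x y y' e : ℝ) (r l c : ℝ × ℝ × ℝ) : Prop :=
  NGV κ (h0 * x) (lvE N0 lv E o x y y' e l c) (h0 * y) (h0 * y') r ∨
    ((∀ z, 0 ≤ lvF e l + kf κ (h0 * x) r (h0 * y) (h0 * y') z) ∧
      ∀ z, 0 ≤ lvN N0 lv x y y' e l + E * kf κ (h0 * x) r (h0 * y) (h0 * y') z +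
        mun N0 x * pf f c (h0 * y) (h0 * y') z)

theorem lvE_far (e : ℝ) (r c : ℝ × ℝ × ℝ) : lvE N0 lv E o x y y' e r c ≤ lvF e r :=
  min_le_left _ _

theorem lvE_near (hE : 0 < E) (e : ℝ) (r c : ℝ × ℝ × ℝ) :
    E * lvE N0 lv E o x y y' e r c ≤
      lvN N0 lv x y y' e r - mun N0 x * (o * widn c.1 c.2.1 c.2.2) := by
  have h := min_le_right (lvF e r)
    ((lvN N0 lv x y y' e r - mun N0 x * (o * widn c.1 c.2.1 c.2.2)) / E)
  calc E * lvE N0 lv E o x y y' e r c ≤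
      E * ((lvN N0 lv x y y' e r - mun N0 x * (o * widn c.1 c.2.1 c.2.2)) / E) :=
        mul_le_mul_of_nonneg_left h hE.le
    _ = _ := by rw [mul_div_cancel₀ _ hE.ne']

theorem Both.ve (hE : 0 < E) {ι : Type} {X12 X13 : ℝ} {w : (ℝ → ι → ℝ) → ℝ × ℝ × ℝ}
    {vA vX vC : ℝ → ι → ℝ} {r l c : ℝ × ℝ × ℝ} (wA : w vA = r) (wX : w vX = l) (wC : w vC = c)
    (h : Both N0 lv κ E o f x y y' (exn X12 X13 (h0 * y) (h0 * y')) r l c) :
    VE (h0 * lv) N0 κ (h0 * x) E o f vA vX vC X12 X13 (h0 * y) (h0 * y') w := by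
  have eF : ∀ e : ℝ, e - |farXV l| = lvF e l := fun e => levF_n e l.1 l.2.1 l.2.2
  have eN : ∀ e : ℝ, e + min (levXV N0 (h0 * x) (h0 * lv) (h0 * y) (h0 * y') l)
      (levXV N0 (h0 * x) (h0 * lv) (h0 * y') (h0 * y) (-l.2.1, -l.1, -l.2.2)) =
      lvN N0 lv x y y' e l := fun e => levN_n N0 lv x y y' e l.1 l.2.1 l.2.2
  have eW : wid c = widn c.1 c.2.1 c.2.2 := rfl
  unfold VE
  rcases h with h | ⟨h1, h2⟩
  · left
    refine ⟨_, by rw [wA]; exact h, ?_, ?_⟩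
    · rw [wX, eF]
      exact lvE_far _ _ _
    · rw [wX, wC, eN, eW, mu_n]
      exact lvE_near hE _ _ _
  · right
    constructor
    · intro z
      rw [wX, wA, eF]
      exact h1 z
    · intro z
      rw [wX, wA, wC, eN, mu_n]
      exact h2 z

theorem triA_both (hE : 0 < E) (LA : Link P.cur x (tbl RA x) RA TA)
    (LL : Link P.cur x (tbl RL x) RL TL) (LC : Link P.cur x (tbl RC x) RC TC)
    (hσ : σ = 1 ∨ σ = -1) (hσ' : σ' = 1 ∨ σ' = -1)
    (h : ∀ y y', FactsA P a b c j k σ σ' y y' →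
      Both N0 lv κ E o f x y y' (exA P a b j k σ σ' y y') (vlA P RA TA a b c j k σ σ' x y y')
        (vlA P RL TL a b c j k σ σ' x y y') (vlA P RC TC a b c j k σ σ' x y y')) :
    TriA P.cur (VE (h0 * lv) N0 κ (h0 * x) E o f (tbl RA x) (tbl RL x) (tbl RC x))
      a b c j k σ σ' := by
  intro y y' H
  have e1 := linkX P j a y H.q1
  have e2 := linkX P k b y' H.q2
  refine Both.ve hE (valK_useA LA (linkX P) hσ hσ' H) (valK_useA LL (linkX P) hσ hσ' H)
    (valK_useA LC (linkX P) hσ hσ' H) ?_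
  rw [exn_n, e1, e2]
  exact h y y' H.facts

theorem triB_both (hE : 0 < E) (LA : Link P.cur x (tbl RA x) RA TA)
    (LL : Link P.cur x (tbl RL x) RL TL) (LC : Link P.cur x (tbl RC x) RC TC)
    (hσ : σ = 1 ∨ σ = -1) (hσ' : σ' = 1 ∨ σ' = -1)
    (h : ∀ y y', FactsB P a b c j k σ σ' y y' →
      Both N0 lv κ E o f x y y' (exB P a c j k σ σ' y y') (vlB P RA TA a b c j k σ σ' x y y')
        (vlB P RL TL a b c j k σ σ' x y y') (vlB P RC TC a b c j k σ σ' x y y')) :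
    TriB P.cur (VE (h0 * lv) N0 κ (h0 * x) E o f (tbl RA x) (tbl RL x) (tbl RC x))
      a b c j k σ σ' := by
  intro y y' H
  have e1 := linkX P j a y H.q1
  have e2 := linkX P k c (y + y') H.q3
  refine Both.ve hE (valK_useB LA (linkX P) hσ hσ' H) (valK_useB LL (linkX P) hσ hσ' H)
    (valK_useB LC (linkX P) hσ hσ' H) ?_
  rw [exn_n, e1, e2]
  exact h y y' H.facts

/-! ### Empty triples -/

section

variable {V : ℝ → ℝ → ℝ → ℝ → ((ℝ → Fin (n + 1) → ℝ) → ℝ × ℝ × ℝ) → Prop}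

theorem triA_j0 : TriA P.cur V 3 b c 0 k σ σ' := by
  intro y y' H
  exfalso
  have h1 := y_lt (H.facts.j0 rfl)
  have h2 := H.q1.1
  linarith

theorem triA_k0 : TriA P.cur V a 3 c j 0 σ σ' := by
  intro y y' H
  exfalso
  have h1 := y_lt (H.facts.k0 rfl)
  have h2 := H.q2.1
  linarith

theorem triB_j0 : TriB P.cur V 3 b c 0 k σ σ' := by
  intro y y' H
  exfalso
  have h1 := y_lt (H.facts.j0 rfl)
  have h2 := H.q1.1
  linarith

theorem triB_k0 : TriB P.cur V a b 3 j 0 σ σ' := by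
  intro y y' H
  exfalso
  have h1 := y_lt (H.facts.k0 rfl)
  have h2 := H.q3.1
  linarith

end

/-! ### All triples -/

theorem all17 {Q : ℕ → ℕ → ℕ → Prop} (h001 : Q 0 0 1) (h011 : Q 0 1 1) (h012 : Q 0 1 2)
    (h022 : Q 0 2 2) (h023 : Q 0 2 3) (h033 : Q 0 3 3) (h101 : Q 1 0 1) (h102 : Q 1 0 2)
    (h112 : Q 1 1 2) (h113 : Q 1 1 3) (h123 : Q 1 2 3) (h133 : Q 1 3 3) (h202 : Q 2 0 2)
    (h203 : Q 2 0 3) (h213 : Q 2 1 3) (h303 : Q 3 0 3) (h313 : Q 3 1 3) :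
    ∀ a b c : ℕ, con a b c ≠ none → Q a b c := by
  intro a b c h
  unfold con at h
  split at h
  all_goals first
    | assumption
    | exact absurd rfl h

/-! ### The modulus -/

theorem we_n (x : ℝ) : we (h0 * x) = esn x := by
  have hne : h0 ≠ 0 := h0_pos.ne'
  unfold we esn g c1n
  rw [mul_pow, h0_sq]
  field_simp

theorem ken_h0 (x : ℝ) : ken x / h0 * h0 = ken x := div_mul_cancel₀ _ h0_pos.ne'

theorem amp_n {x : ℝ} (h0x : 0 < x) (h1x : x < 1) :
    1 * (ken x / h0) * (h0 * x * (h0 - h0 * x)) ≤ 2 * h0 * we (h0 * x) := by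
  have hne : h0 ≠ 0 := h0_pos.ne'
  have h2 : 1 - x ≠ 0 := by linarith
  have h3 : x ≠ 0 := h0x.ne'
  rw [we_n]
  unfold ken
  apply le_of_eq
  field_simp

theorem ken_nonneg {x : ℝ} (h0x : 0 ≤ x) (h1x : x ≤ 1) : 0 ≤ ken x := by
  have h : 1 - x / 2 ≤ c1n x := by
    unfold c1n
    apply Real.le_sqrt_of_sq_le
    nlinarith
  unfold ken esn
  apply div_nonneg
  · linarith
  · exact mul_nonneg h0x (by linarith)

end

end Pool.Agent.Strip051.PB
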