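import Pool.Agent.Strip051.PB.Pair
import Pool.Agent.Strip051.PB.Cone
import Pool.Agent.Strip051.PB.Rows
import Pool.Agent.Strip051.PB.Seg
import Pool.Agent.Strip051.PB.RowS

/-! # Charts at the aligned corners: the test of a leaf

The coordinates are the length `ρ` of the two short arcs, the share `a` of the first one and `x`.
The rates of the coordinates, of the kernel and of the level along the curves are slopes between the
height of the corner and the height of the side. -/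

namespace Pool.Agent.Strip051.PB

attribute [local irreducible] padd psub pneg pmul psq pinv psqrt psqrtg pabs pps pmax pmin pphi plam
  pcase phf pnat prat pscale pnorm pdc pnc pone ppos pnn Enc pbad pzero

/-! ### Products with sharp bounds -/

/-- product of normalised factors -/
noncomputable def pmn (X Y : ℕ) : ℕ := pmul (pnorm X) (pnorm Y)

/-- square of a normalised number -/
noncomputable def psn (X : ℕ) : ℕ := psq (pnorm X)

theorem enc_mn {E : Pt} {X Y : ℕ} {v w : ℝ} (hX : Enc E X v) (hY : Enc E Y w) :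
    Enc E (pmn X Y) (v * w) := enc_mul (enc_norm hX) (enc_norm hY)

theorem enc_sn {E : Pt} {X : ℕ} {v : ℝ} (hX : Enc E X v) : Enc E (psn X) (v ^ 2) :=
  enc_sq (enc_norm hX)

attribute [irreducible] pmn psn

/-! ### Directions -/

/-- direction of the height bottom-middle -/
noncomputable def cdT1 (c : Con) (A : ℕ) : ℕ :=
  Con.rec (motive := fun _ => ℕ) A (psub A pone) pone (psub pone A) (pneg A) (pneg pone) (pnc 0)
    (pnc 0) c

/-- direction of the height middle-top -/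
noncomputable def cdT2 (c : Con) (A : ℕ) : ℕ :=
  Con.rec (motive := fun _ => ℕ) (psub pone A) (pneg A) (psub A pone) (pneg pone) pone A (pnc 0)
    (pnc 0) c

/-- direction of the height bottom-top -/
noncomputable def cdT3 (c : Con) (A : ℕ) : ℕ :=
  Con.rec (motive := fun _ => ℕ) pone (pneg pone) A (pneg A) (psub pone A) (psub A pone) (pnc 0)
    (pnc 0) c

/-- the moment -/
noncomputable def comT (c : Con) (A R1 R2 R3 : ℕ) : ℕ :=
  Con.rec (motive := fun _ => ℕ) (psub R1 (pmn A (padd R1 R2))) (psub R2 (pmn A (padd R1 R2)))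
    (pneg (padd R3 (pmn A (psub R2 R3)))) (pneg (padd R3 (pmn A (psub R1 R3))))
    (padd R1 (pmn A (psub R3 R1))) (padd R2 (pmn A (psub R3 R2))) (pnc 0) (pnc 0) c

section

variable {E : Pt} {A R1 R2 R3 : ℕ} {a r1 r2 r3 : ℝ}

theorem enc_pnc0' (E : Pt) : Enc E (pnc 0) 0 := enc_cast (enc_pnc E 0) (by norm_num)

theorem enc_cdT1 (c : Con) (h : Enc E A a) : Enc E (cdT1 c A) (cd1 c a) := by
  cases c
  · exact h
  · exact enc_cast (enc_sub h (enc_one E)) (show a - 1 = -(1 - a) by ring)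
  · exact enc_one E
  · exact enc_sub (enc_one E) h
  · exact enc_neg h
  · exact enc_neg (enc_one E)
  · exact enc_pnc0' E
  · exact enc_pnc0' E

theorem enc_cdT2 (c : Con) (h : Enc E A a) : Enc E (cdT2 c A) (cd2 c a) := by
  cases c
  · exact enc_sub (enc_one E) h
  · exact enc_neg h
  · exact enc_cast (enc_sub h (enc_one E)) (show a - 1 = -(1 - a) by ring)
  · exact enc_neg (enc_one E)
  · exact enc_one E
  · exact h
  · exact enc_pnc0' E
  · exact enc_pnc0' E

theorem enc_cdT3 (c : Con) (h : Enc E A a) : Enc E (cdT3 c A) (cd3 c a) := by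
  cases c
  · exact enc_one E
  · exact enc_neg (enc_one E)
  · exact h
  · exact enc_neg h
  · exact enc_sub (enc_one E) h
  · exact enc_cast (enc_sub h (enc_one E)) (show a - 1 = -(1 - a) by ring)
  · exact enc_pnc0' E
  · exact enc_pnc0' E

theorem enc_comT (c : Con) (h : Enc E A a) (h1 : Enc E R1 r1) (h2 : Enc E R2 r2)
    (h3 : Enc E R3 r3) : Enc E (comT c A R1 R2 R3) (comg c a r1 r2 r3) := by
  cases c
  · exact enc_cast (enc_sub h1 (enc_mn h (enc_add h1 h2)))
      (show r1 - a * (r1 + r2) = (1 - a) * r1 - a * r2 by ring)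
  · exact enc_cast (enc_sub h2 (enc_mn h (enc_add h1 h2)))
      (show r2 - a * (r1 + r2) = (1 - a) * r2 - a * r1 by ring)
  · exact enc_cast (enc_neg (enc_add h3 (enc_mn h (enc_sub h2 h3))))
      (show -(r3 + a * (r2 - r3)) = -(a * r2 + (1 - a) * r3) by ring)
  · exact enc_cast (enc_neg (enc_add h3 (enc_mn h (enc_sub h1 h3))))
      (show -(r3 + a * (r1 - r3)) = -(a * r1 + (1 - a) * r3) by ring)
  · exact enc_cast (enc_add h1 (enc_mn h (enc_sub h3 h1)))
      (show r1 + a * (r3 - r1) = a * r3 + (1 - a) * r1 by ring)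
  · exact enc_cast (enc_add h2 (enc_mn h (enc_sub h3 h2)))
      (show r2 + a * (r3 - r2) = a * r3 + (1 - a) * r2 by ring)
  · exact enc_pnc0' E
  · exact enc_pnc0' E

end

/-! ### The alternatives -/

/-- choice between four tests -/
noncomputable def ch4 (k : ℕ) (t0 t1 t2 t3 : Bool) : Bool :=
  Bool.rec (motive := fun _ => Bool) (Bool.rec (motive := fun _ => Bool)
    (Bool.rec (motive := fun _ => Bool) t3 t2 (Nat.beq k 2)) t1 (Nat.beq k 1)) t0 (Nat.beq k 0)

theorem ch4_true {k : ℕ} {t0 t1 t2 t3 : Bool} (h : ch4 k t0 t1 t2 t3 = true) :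
    t0 = true ∨ t1 = true ∨ t2 = true ∨ t3 = true := by
  unfold ch4 at h
  rcases brec h with h | h
  · rcases brec h with h | h
    · rcases brec h with h | h
      · exact Or.inr (Or.inr (Or.inr h))
      · exact Or.inr (Or.inr (Or.inl h))
    · exact Or.inr (Or.inl h)
  · exact Or.inl h

/-- The alternatives for the defect `d`. -/
noncomputable def oneT (x R α β p q om d e k : ℕ) : Bool :=
  ch4 k
    ((fun D s => band (pnn (psub e (pmn p (padd om (pmn D (psub x s))))))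
      (pnn (psub e (pmn q (psub (pmn D (padd (psub pone x) s)) om)))))
      (pmn (psub pone R) d) (pmn R (psub α x)))
    ((fun W s => band (ppos (psub om (pmn W (padd (psub α x) s))))
      (pnn (psub e (pmn p (padd (padd om (pmn d (psub x R)))
        (pmn (pmn (pmn (psn W) β) (psub pone x))
          (pinv (padd om (pmn (pmn s (psub pone R)) d)))))))))
      (pmn R d) (pmn R β))
    ((fun W s => band (ppos (psub (pmn W (psub s x)) om))
      (pnn (psub e (pmn q (padd (psub (pmn d (psub (psub pone x) R)) om)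
        (pmn (pmn (pmn (psn W) α) x) (pinv (psub (pmn W s) om))))))))
      (pmn R d) (pmn α (psub pone R)))
    (ppos (pneg d))

theorem oneT_sound {E : Pt} {X R α β P Q O D L k : ℕ} {x ρ al be p q om d e : ℝ}
    (hx : Enc E X x) (hR : Enc E R ρ) (hα : Enc E α al) (hβ : Enc E β be) (hp : Enc E P p)
    (hq : Enc E Q q) (ho : Enc E O om) (hd : Enc E D d) (he : Enc E L e)
    (h : oneT X R α β P Q O D L k = true) (h0 : 0 ≤ d) : OneC x ρ al be p q om d e := by
  have k1 := enc_one E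
  rcases ch4_true h with h | h | h | h
  · left
    obtain ⟨h1, h2⟩ := band_true h
    have hD := enc_mn (enc_sub k1 hR) hd
    have hs := enc_mn hR (enc_sub hα hx)
    have e1 := pnn_sound (enc_sub he (enc_mn hp (enc_add ho (enc_mn hD (enc_sub hx hs))))) h1
    have e2 := pnn_sound (enc_sub he (enc_mn hq (enc_sub (enc_mn hD
      (enc_add (enc_sub k1 hx) hs)) ho))) h2
    refine ⟨by linarith, ?_⟩
    have : -om + (1 - ρ) * d * (1 - x + ρ * (al - x)) =
        (1 - ρ) * d * (1 - x + ρ * (al - x)) - om := by ring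
    rw [this]
    linarith
  · right; left
    obtain ⟨h1, h2⟩ := band_true h
    have hW := enc_mn hR hd
    have hs := enc_mn hR hβ
    have e1 := ppos_sound (enc_sub ho (enc_mn hW (enc_add (enc_sub hα hx) hs))) h1
    have e2 := pnn_sound (enc_sub he (enc_mn hp (enc_add (enc_add ho (enc_mn hd (enc_sub hx hR)))
      (enc_mn (enc_mn (enc_mn (enc_sn hW) hβ) (enc_sub k1 hx))
        (enc_inv (enc_add ho (enc_mn (enc_mn hs (enc_sub k1 hR)) hd))))))) h2
    exact ⟨e1, by linarith⟩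
  · right; right
    obtain ⟨h1, h2⟩ := band_true h
    have hW := enc_mn hR hd
    have hs := enc_mn hα (enc_sub k1 hR)
    have e1 := ppos_sound (enc_sub (enc_mn hW (enc_sub hs hx)) ho) h1
    have e2 := pnn_sound (enc_sub he (enc_mn hq (enc_add (enc_sub (enc_mn hd
      (enc_sub (enc_sub k1 hx) hR)) ho)
      (enc_mn (enc_mn (enc_mn (enc_sn hW) hα) hx) (enc_inv (enc_sub (enc_mn hW hs) ho)))))) h2
    refine ⟨e1, ?_⟩
    have g1 : -om + d * (1 - x - ρ) = d * (1 - x - ρ) - om := by ring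
    have g2 : ρ * al * (1 - ρ) * d - om = ρ * d * (al * (1 - ρ)) - om := by ring
    rw [g1, g2]
    linarith
  · have := ppos_sound (enc_neg hd) h
    linarith

/-! ### Germs of the node curves -/

/-- A node with its slopes; `cc` says that the coordinate is `c1n` of the height. -/
structure Gn where
  nd : Node
  X : Sl1 nd.X
  K : Sl2 nd.K
  L : Sl2 nd.L
  cc : Bool

/-- the coordinate -/
noncomputable def cR (cc : Bool) (y : ℝ) : ℝ := cond cc (c1n y) y

/-- the coordinate, packed -/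
noncomputable def cA (cc : Bool) (Y : ℕ) : ℕ := Bool.rec (motive := fun _ => ℕ) Y (c1T Y) cc

/-- the slope of `c1n` -/
noncomputable def c1S (A B D : ℕ) : ℕ :=
  (fun s => pg (band (ppos (psub pone (q34 A))) (ppos (psub pone (q34 B))))
    (pmn (pneg (psub s (phf (phf s)))) (pinv (padd (c1T A) (c1T B))))) (pmn D (padd A B))

/-- the slope of the coordinate -/
noncomputable def cS (cc : Bool) (A B D : ℕ) : ℕ :=
  Bool.rec (motive := fun _ => ℕ) D (c1S A B D) cc

section

variable {E : Pt} {N : ℝ} {A B D X : ℕ} {a b x : ℝ}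

theorem pr_c1T (h : Pr E N A B D a b) :
    Pr E N (c1T A) (c1T B) (c1S A B D) (c1n a) (c1n b) := by
  obtain ⟨d, k, e⟩ := h.d
  have hs := enc_mn k (enc_add h.l h.r)
  have hc := enc_inv (enc_add (enc_c1T h.l) (enc_c1T h.r))
  refine ⟨enc_c1T h.l, enc_c1T h.r, ?_⟩
  unfold c1S
  refine pg_slope ⟨_, enc_mn (enc_neg (enc_sub hs (enc_half (enc_half hs)))) hc, fun ht => ?_⟩
    (fun hN => by rw [h.eq0 hN])
  obtain ⟨t1, t2⟩ := band_true ht
  have h1 := ppos_sound (enc_sub (enc_one E) (enc_q34 h.l)) t1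
  have h2 := ppos_sound (enc_sub (enc_one E) (enc_q34 h.r)) t2
  unfold c1n
  exact sqrt_slope h1 h2 (by linear_combination (-(3 / 4) * (a + b)) * e)

theorem pr_cA (cc : Bool) (h : Pr E N A B D a b) :
    Pr E N (cA cc A) (cA cc B) (cS cc A B D) (cR cc a) (cR cc b) := by
  cases cc
  · exact h
  · exact pr_c1T h

/-- reciprocal, both signs -/
noncomputable def pinvs (X : ℕ) : ℕ :=
  Bool.rec (motive := fun _ => ℕ) (pneg (pinv (pneg X))) (pinv X) (ppos X)

theorem enc_invs {v : ℝ} (h : Enc E X v) : Enc E (pinvs X) v⁻¹ := by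
  unfold pinvs
  cases ppos X
  · exact enc_cast (enc_neg (enc_inv (enc_neg h))) (by rw [inv_neg, neg_neg])
  · exact enc_inv h

/-- the slope `v`, or the quotient `(A - B) / (Y - M)` if `v` is bad -/
noncomputable def orq (v A B Y M : ℕ) : ℕ :=
  Bool.rec (motive := fun _ => ℕ) v
    (pg (ppos (pabs (psub Y M))) (pmn (psub A B) (pinvs (psub Y M)))) (Nat.ble pbad v)

theorem orq_sound {V Y M : ℕ} {y m : ℝ} (h : ∃ d, Enc E V d ∧ a - b = (y - m) * d)
    (hA : Enc E A a) (hB : Enc E B b) (hY : Enc E Y y) (hM : Enc E M m) :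
    ∃ d, Enc E (orq V A B Y M) d ∧ a - b = (y - m) * d := by
  have hT : ∃ d, Enc E (pg (ppos (pabs (psub Y M))) (pmn (psub A B) (pinvs (psub Y M)))) d ∧
      a - b = (y - m) * d := by
    refine pg_slope ⟨_, enc_mn (enc_sub hA hB) (enc_invs (enc_sub hY hM)), fun ht => ?_⟩
      (fun h0 => ?_)
    · have := abs_pos.1 (ppos_sound (enc_abs (enc_sub hY hM)) ht)
      field_simp
    · obtain ⟨d, -, e⟩ := h
      rw [h0, zero_mul] at e
      linarith
  unfold orq
  revert hT
  generalize pg (ppos (pabs (psub Y M))) (pmn (psub A B) (pinvs (psub Y M))) = T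
  intro hT
  generalize Nat.ble pbad V = t
  cases t
  · exact h
  · exact hT

/-- the slope with the difference quotient as second choice -/
noncomputable def sfb (v A B Y M : ℕ) : ℕ := frc v fun w => orq w A B Y M

/-- slope of the coordinate `X` -/
noncomputable def Gn.xT (G : Gn) (Y M : ℕ) : ℕ :=
  sfb (G.X.s (cA G.cc Y) (cA G.cc M) (cS G.cc Y M pone)) (G.nd.X.t (cA G.cc Y))
    (G.nd.X.t (cA G.cc M)) Y M

/-- slope of the kernel -/
noncomputable def Gn.kT (G : Gn) (Y M x : ℕ) : ℕ :=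
  sfb (G.K.s (cA G.cc Y) (cA G.cc M) (cS G.cc Y M pone) x) (G.nd.K.t (cA G.cc Y) x)
    (G.nd.K.t (cA G.cc M) x) Y M

/-- slope of the level -/
noncomputable def Gn.lT (G : Gn) (Y M x : ℕ) : ℕ :=
  sfb (G.L.s (cA G.cc Y) (cA G.cc M) (cS G.cc Y M pone) x) (G.nd.L.t (cA G.cc Y) x)
    (G.nd.L.t (cA G.cc M) x) Y M

/-- the values at the height `y` -/
noncomputable def Gn.xv (G : Gn) (y : ℝ) : ℝ := G.nd.X.v (cR G.cc y)
noncomputable def Gn.kv (G : Gn) (y x : ℝ) : ℝ := G.nd.K.v (cR G.cc y) x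
noncomputable def Gn.lv (G : Gn) (y x : ℝ) : ℝ := G.nd.L.v (cR G.cc y) x

/-- The values at the corner at the height `m` and the coordinate `b`. -/
structure Gn.At (G : Gn) (m b c0 x : ℝ) : Prop where
  X : G.xv m = b
  K : G.kv m x = c0 * b
  L : G.lv m x = 0

theorem Gn.slopes (G : Gn) {Y M : ℕ} {y m : ℝ} (hY : Enc E Y y) (hM : Enc E M m)
    (hx : Enc E X x) :
    (∃ ξ, Enc E (G.xT Y M) ξ ∧ G.xv y - G.xv m = (y - m) * ξ) ∧
    (∃ κ, Enc E (G.kT Y M X) κ ∧ G.kv y x - G.kv m x = (y - m) * κ) ∧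
    (∃ l, Enc E (G.lT Y M X) l ∧ G.lv y x - G.lv m x = (y - m) * l) := by
  have h := pr_cA G.cc (pr_var hY hM rfl)
  unfold Gn.xT Gn.kT Gn.lT sfb
  simp only [frc_eq]
  exact ⟨orq_sound (G.X.snd h).d (G.X.snd h).l (G.X.snd h).r hY hM,
    orq_sound (G.K.snd h hx).d (G.K.snd h hx).l (G.K.snd h hx).r hY hM,
    orq_sound (G.L.snd h hx).d (G.L.snd h hx).l (G.L.snd h hx).r hY hM⟩

theorem enc_cA (cc : Bool) (h : Enc E A a) : Enc E (cA cc A) (cR cc a) := by
  cases cc
  · exact h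
  · exact enc_c1T h

end

/-! ### The parameters of a corner -/

/-- A corner: family, signs and doubled absolute values of the abscissas and integers for the
first node, the second node and the third side; relative position. -/
structure Cp where
  (fam t1 tn tt : Bool)
  (h1 hn ht m1 mn mt : ℕ)
  cn : Con

namespace Cp

variable (P : Cp)

noncomputable def b1 : ℝ := sgr P.t1 ((P.h1 : ℝ) / 2)
noncomputable def bn : ℝ := sgr P.tn ((P.hn : ℝ) / 2)
noncomputable def bt : ℝ := sgr P.tt ((P.ht : ℝ) / 2)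

/-- The consistency of the parameters. -/
structure Ok : Prop where
  six : isSix P.cn
  b : cond P.fam (P.b1 + P.bn) (P.b1 + P.bt) = cond P.fam P.bt P.bn
  m : cond P.fam ((P.m1 : ℝ) + P.mn) (P.m1 + P.mt) = cond P.fam (P.mt : ℝ) P.mn
  m3 : cond P.fam (P.mt : ℝ) P.mn = 1
  det : P.b1 - cond P.fam P.bt P.bn * P.m1 = 1

end Cp

/-- multiplication by a half-integer -/
noncomputable def bmT (t : Bool) (h X : ℕ) : ℕ := sg t (phf (pnat h X))

theorem enc_bmT {E : Pt} {X : ℕ} {x : ℝ} (t : Bool) (h : ℕ) (hx : Enc E X x) :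
    Enc E (bmT t h X) (sgr t ((h : ℝ) / 2) * x) := by
  refine enc_cast (enc_sg t (enc_half (enc_nat h hx))) ?_
  cases t
  · show -((h : ℝ) * x / 2) = -((h : ℝ) / 2) * x
    ring
  · show (h : ℝ) * x / 2 = (h : ℝ) / 2 * x
    ring

/-! ### The final tests -/

/-- half of `l1 + l2 - l3` or the level terms: the sum and the difference with the excess are
tested -/
noncomputable def finT (k4 : ℕ → ℕ → Bool) (far : Bool) (N0 : ℕ) (h X Y1 Y2 Y3 E0 l1 l2 l3 : ℕ) :
    Bool :=
  Bool.rec (motive := fun _ => Bool)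
    ((fun M => (fun F G => band (k4 (Nat.shiftRight h 2) (padd F G))
        (k4 (Nat.shiftRight h 6) (psub F G)))
      (psub E0 (pmn M (phf (psub (pmn Y1 l2) (pmn Y2 l1)))))
      (pmn M (pmn (psub (padd (phn N0) (phf X)) (phf Y3)) (psub (padd l1 l2) l3)))) (muT N0 X))
    ((fun G => band (k4 (Nat.shiftRight h 2) (padd E0 G)) (k4 (Nat.shiftRight h 6) (psub E0 G)))
      (phf (psub (padd l1 l2) l3))) far

/-- both signs of the defect for the excess `e` -/
noncomputable def sgnT (x R A p q om d : ℕ) (h e : ℕ) : Bool :=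
  band (oneT x R A (psub pone A) p q om d e (Nat.land h 3))
    (oneT x R (psub pone A) A p q om (pneg d) e (Nat.land (Nat.shiftRight h 2) 3))

/-- `esn` -/
noncomputable def esT (X : ℕ) : ℕ := psub (padd (phf X) (c1T X)) pone

/-- the test with all rates -/
noncomputable def ratT (far : Bool) (N0 : ℕ) (P : Cp) (h R A X C1 C3 Y1 Y2 Y3 c0 z1 z3 r1 r2 r3
    l1 l2 l3 : ℕ) : Bool :=
  frc (comT P.cn A (padd (bmT P.t1 P.h1 c0) (pmn R r1))
      (padd (sl P.fam (bmT P.tn P.hn c0) (bmT P.tt P.ht c0)) (pmn R r2))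
      (padd (sl P.fam (bmT P.tt P.ht c0) (bmT P.tn P.hn c0)) (pmn R r3))) fun om =>
  frc (psub r3 (padd r1 r2)) fun d =>
  frc (phf (padd (psub (psub (padd (bmT P.t1 P.h1 C3) z1)
      (sl P.fam (bmT P.tt P.ht C1) (bmT P.tn P.hn C1))) (pnat P.m1 z3))
      (pmn R (psub (pmn z1 C3) (pmn z3 C1))))) fun E0 =>
  frc (pmn (esT X) (pinv X)) fun p => frc (pmn (esT X) (pinv (psub pone X))) fun q =>
  finT (sgnT X R A p q om d) far N0 h X Y1 Y2 Y3 E0 l1 l2 l3

/-! ### Real side of the final tests -/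

/-- the excess with the level term -/
noncomputable def levR (far : Bool) (N0 : ℕ) (x y y' ex l1 l2 l3 : ℝ) : ℝ :=
  cond far (levF ex l1 l2 l3) (levN N0 0 x y y' ex l1 l2 l3)

theorem sgnT_sound {E : Pt} {X R A P Q O D L h : ℕ} {x ρ a p q d e : ℝ} {c : Con}
    {R1 R2 R3 : ℝ}
    (hx : Enc E X x) (hR : Enc E R ρ) (hA : Enc E A a) (hp : Enc E P p)
    (hq : Enc E Q q) (ho : Enc E O (comg c a R1 R2 R3)) (hd : Enc E D d) (he : Enc E L e)
    (ht : sgnT X R A P Q O D h L = true) : ConeC c x ρ a p q R1 R2 R3 d e := by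
  obtain ⟨h1, h2⟩ := band_true ht
  have hA' := enc_sub (enc_one E) hA
  exact ⟨fun h0 => oneT_sound hx hR hA hA' hp hq ho hd he h1 h0,
    fun h0 => oneT_sound hx hR hA' hA hp hq ho (enc_neg hd) he h2 (by linarith)⟩

theorem enc_esT {E : Pt} {X : ℕ} {x : ℝ} (hx : Enc E X x) : Enc E (esT X) (esn x) :=
  enc_sub (enc_add (enc_half hx) (enc_c1T hx)) (enc_one E)

/-- The assumptions on `ρ`, `a`, `x`. -/
structure CRng (ρ a x : ℝ) : Prop where
  ρ0 : 0 ≤ ρ
  ρx : ρ ≤ x
  ρx' : x ≤ 1 - ρ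
  x0 : 0 < x
  x1 : x < 1
  a0 : 0 ≤ a
  a1 : a ≤ 1

theorem ratT_sound {E : Pt} {far : Bool} {N0 : ℕ} {P : Cp} (hP : P.Ok)
    {h R A X C1 C3 Y1 Y2 Y3 C0 Z1 Z3 K1 K2 K3 L1 L2 L3 : ℕ}
    {ρ a x c0 z1 z3 r1 r2 r3 l1 l2 l3 X12 X13 y y' v1 v2 v3 w1 w2 w3 : ℝ} (B : CRng ρ a x)
    (hR : Enc E R ρ) (hA : Enc E A a) (hX : Enc E X x)
    (hC1 : Enc E C1 (cd1 P.cn a)) (hC3 : Enc E C3 (cd3 P.cn a))
    (hY1 : Enc E Y1 y) (hY2 : Enc E Y2 y') (hY3 : Enc E Y3 (y + y')) (hC0 : Enc E C0 c0)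
    (hz1 : Enc E Z1 z1) (hz3 : Enc E Z3 z3) (hr1 : Enc E K1 r1) (hr2 : Enc E K2 r2)
    (hr3 : Enc E K3 r3) (hl1 : Enc E L1 l1) (hl2 : Enc E L2 l2) (hl3 : Enc E L3 l3)
    (hy : y = P.m1 + ρ * cd1 P.cn a) (hy' : y' = cond P.fam (P.mn : ℝ) P.mt + ρ * cd2 P.cn a)
    (hX12 : X12 = P.b1 + ρ * z1) (hX13 : X13 = cond P.fam P.bt P.bn + ρ * z3)
    (hv1 : v1 = c0 * P.b1 + ρ * r1) (hv2 : v2 = c0 * cond P.fam P.bn P.bt + ρ * r2)
    (hv3 : v3 = c0 * cond P.fam P.bt P.bn + ρ * r3)
    (hw1 : w1 = ρ * l1) (hw2 : w2 = ρ * l2) (hw3 : w3 = ρ * l3)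
    (ht : ratT far N0 P h R A X C1 C3 Y1 Y2 Y3 C0 Z1 Z3 K1 K2 K3 L1 L2 L3 = true) :
    ∃ g, 0 ≤ slc P.cn (levR far N0 x y y' (exn' X12 X13 y (y + y')) w1 w2 w3) (ken x) x
      (ρ * cd1 P.cn a) (ρ * cd2 P.cn a) (ρ * cd3 P.cn a) v1 v2 v3 g := by
  obtain ⟨b2, hb2⟩ : ∃ b2, b2 = cond P.fam P.bn P.bt := ⟨_, rfl⟩
  obtain ⟨b3, hb3⟩ : ∃ b3, b3 = cond P.fam P.bt P.bn := ⟨_, rfl⟩
  obtain ⟨m2, hm2⟩ : ∃ m2 : ℝ, m2 = cond P.fam (P.mn : ℝ) P.mt := ⟨_, rfl⟩
  have e3 : P.b1 + b2 = b3 := by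
    have := hP.b
    rw [hb2, hb3]
    cases hf : P.fam <;> rw [hf] at this <;> exact this
  have em : (P.m1 : ℝ) + m2 = 1 := by
    have h1 := hP.m
    have h2 := hP.m3
    rw [hm2]
    cases hf : P.fam <;> rw [hf] at h1 h2 <;> simp only [cond_true, cond_false] at * <;> linarith
  have det : P.b1 - b3 * P.m1 = 1 := by rw [hb3]; exact hP.det
  rw [← hb2] at hv2
  rw [← hb3] at hv3 hX13
  rw [← hm2] at hy'
  have k2 : Enc E (sl P.fam (bmT P.tn P.hn C0) (bmT P.tt P.ht C0)) (b2 * c0) := by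
    have := enc_sl P.fam (enc_bmT P.tn P.hn hC0) (enc_bmT P.tt P.ht hC0)
    refine enc_cast this ?_
    rw [hb2]
    cases P.fam <;> rfl
  have k3 : Enc E (sl P.fam (bmT P.tt P.ht C0) (bmT P.tn P.hn C0)) (b3 * c0) := by
    have := enc_sl P.fam (enc_bmT P.tt P.ht hC0) (enc_bmT P.tn P.hn hC0)
    refine enc_cast this ?_
    rw [hb3]
    cases P.fam <;> rfl
  have kc : Enc E (sl P.fam (bmT P.tt P.ht C1) (bmT P.tn P.hn C1)) (b3 * cd1 P.cn a) := by
    have := enc_sl P.fam (enc_bmT P.tt P.ht hC1) (enc_bmT P.tn P.hn hC1)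
    refine enc_cast this ?_
    rw [hb3]
    cases P.fam <;> rfl
  obtain ⟨D, hD⟩ : ∃ D : Crn, D = ⟨P.cn, P.m1, m2, P.b1, b2, ρ, a, z1, z3, r1, r2, r3, l1, l2,
    l3⟩ := ⟨_, rfl⟩
  have x1' : (1 : ℝ) - x ≠ 0 := by linarith [B.x1]
  have base : D.Base (ken x) x (esn x / x) (esn x / (1 - x)) := by
    subst hD
    exact ⟨hP.six, B.ρ0, B.ρx, B.ρx', B.x0, B.a0, B.a1, ken_nonneg B.x0.le B.x1.le,
      ken_p B.x0 B.x1, ken_q B.x0 B.x1, by
        show P.b1 * (P.m1 + m2) - (P.b1 + b2) * P.m1 = 1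
        rw [em, e3]
        linarith⟩
  unfold ratT at ht
  simp only [frc_eq] at ht
  have hp : Enc E (pmn (esT X) (pinv X)) (esn x / x) := by
    rw [div_eq_mul_inv]
    exact enc_mn (enc_esT hX) (enc_inv hX)
  have hq : Enc E (pmn (esT X) (pinv (psub pone X))) (esn x / (1 - x)) := by
    rw [div_eq_mul_inv]
    exact enc_mn (enc_esT hX) (enc_inv (enc_sub (enc_one E) hX))
  have hom : Enc E (comT P.cn A (padd (bmT P.t1 P.h1 C0) (pmn R K1))
      (padd (sl P.fam (bmT P.tn P.hn C0) (bmT P.tt P.ht C0)) (pmn R K2))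
      (padd (sl P.fam (bmT P.tt P.ht C0) (bmT P.tn P.hn C0)) (pmn R K3)))
      (comg P.cn a (c0 * P.b1 + ρ * r1) (c0 * b2 + ρ * r2) (c0 * (P.b1 + b2) + ρ * r3)) := by
    refine enc_comT P.cn hA ?_ ?_ ?_
    · refine enc_cast (enc_add (enc_bmT P.t1 P.h1 hC0) (enc_mn hR hr1)) ?_
      unfold Cp.b1
      ring
    · exact enc_cast (enc_add k2 (enc_mn hR hr2)) (by ring)
    · exact enc_cast (enc_add k3 (enc_mn hR hr3)) (by rw [e3]; ring)
  have hdd : Enc E (psub K3 (padd K1 K2)) (-(r1 + r2 - r3)) :=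
    enc_cast (enc_sub hr3 (enc_add hr1 hr2)) (by ring)
  have he : Enc E (phf (padd (psub (psub (padd (bmT P.t1 P.h1 C3) Z1)
      (sl P.fam (bmT P.tt P.ht C1) (bmT P.tn P.hn C1))) (pnat P.m1 Z3))
      (pmn R (psub (pmn Z1 C3) (pmn Z3 C1))))) D.e0 := by
    refine enc_cast (enc_half (enc_add (enc_sub (enc_sub (enc_add (enc_bmT P.t1 P.h1 hC3) hz1)
      kc) (enc_nat P.m1 hz3)) (enc_mn hR (enc_sub (enc_mn hz1 hC3) (enc_mn hz3 hC1))))) ?_
    subst hD
    unfold Crn.e0
    simp only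
    rw [em, e3]
    unfold Cp.b1
    ring
  have cone : ∀ {e : ℝ} {L k : ℕ}, Enc E L e → sgnT X R A (pmn (esT X) (pinv X))
      (pmn (esT X) (pinv (psub pone X))) (comT P.cn A (padd (bmT P.t1 P.h1 C0) (pmn R K1))
      (padd (sl P.fam (bmT P.tn P.hn C0) (bmT P.tt P.ht C0)) (pmn R K2))
      (padd (sl P.fam (bmT P.tt P.ht C0) (bmT P.tn P.hn C0)) (pmn R K3)))
      (psub K3 (padd K1 K2)) k L = true → D.Ok c0 x (esn x / x) (esn x / (1 - x)) e := by
    intro e L k hL hk
    unfold Crn.Ok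
    subst hD
    exact sgnT_sound hX hR hA hp hq hom hdd hL hk
  have hS := enc_sub (enc_add hl1 hl2) hl3
  have g1 : y - P.m1 = ρ * cd1 P.cn a := by rw [hy]; ring
  have g2 : y' - m2 = ρ * cd2 P.cn a := by rw [hy']; ring
  have g3 : y + y' - (P.m1 + m2) = ρ * cd3 P.cn a := by
    rw [hy, hy', ← cd_add hP.six]; ring
  cases far
  · -- near
    unfold levR
    simp only [cond_false]
    unfold finT at ht
    obtain ⟨t1, t2⟩ := band_true ht
    have hM := enc_muT N0 hX
    have hF := enc_sub he (enc_mn hM (enc_half (enc_sub (enc_mn hY1 hl2) (enc_mn hY2 hl1))))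
    have hG := enc_mn hM (enc_mn (enc_sub (enc_add (enc_phn E N0) (enc_half hX)) (enc_half hY3))
      hS)
    have o1 := cone (enc_add hF hG) t1
    have o2 := cone (enc_sub hF hG) t2
    have eA : D.e0 + D.LA N0 0 x = D.e0 - mun N0 x * ((y * l2 - y' * l1) / 2) +
        mun N0 x * (((N0 : ℝ) / 2 + x / 2 - (y + y') / 2) * (l1 + l2 - l3)) := by
      have a1 : D.y = y := by subst hD; unfold Crn.y; rw [hy]
      have a2 : D.y' = y' := by subst hD; unfold Crn.y'; rw [hy']
      unfold Crn.LA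
      rw [a1, a2]
      subst hD
      simp only
      ring
    have eB : D.e0 + D.LB N0 0 x = D.e0 - mun N0 x * ((y * l2 - y' * l1) / 2) -
        mun N0 x * (((N0 : ℝ) / 2 + x / 2 - (y + y') / 2) * (l1 + l2 - l3)) := by
      have a1 : D.y = y := by subst hD; unfold Crn.y; rw [hy]
      have a2 : D.y' = y' := by subst hD; unfold Crn.y'; rw [hy']
      unfold Crn.LB
      rw [a1, a2]
      subst hD
      simp only
      ring
    rw [← eA] at o1
    rw [← eB] at o2
    have := Crn.rowN (D := D) (N0 := N0) (lv := 0) (c0 := c0) (X12 := X12) (X13 := X13)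
      (y := y) (y' := y') (R1 := v1) (R2 := v2) (R3 := v3) (x1 := w1) (x2 := w2) (x3 := w3) base
      (by subst hD; rw [hy]; rfl) (by subst hD; rw [hy']; rfl) (by subst hD; exact hX12)
      (by subst hD; rw [hX13, ← e3]) (by subst hD; exact hv1) (by subst hD; exact hv2)
      (by subst hD; rw [hv3, ← e3]) (by subst hD; exact hw1) (by subst hD; exact hw2)
      (by subst hD; exact hw3) o1 o2
    subst hD
    simp only at this
    rw [g1, g2, g3] at this
    exact this
  · unfold levR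
    simp only [cond_true]
    unfold finT at ht
    obtain ⟨t1, t2⟩ := band_true ht
    have o1 := cone (enc_add he (enc_half hS)) t1
    have o2 := cone (enc_sub he (enc_half hS)) t2
    have := Crn.rowF (D := D) (c0 := c0) (X12 := X12) (X13 := X13)
      (y := y) (y' := y') (R1 := v1) (R2 := v2) (R3 := v3) (x1 := w1) (x2 := w2) (x3 := w3) base
      (by subst hD; rw [hy]; rfl) (by subst hD; rw [hy']; rfl) (by subst hD; exact hX12)
      (by subst hD; rw [hX13, ← e3]) (by subst hD; exact hv1) (by subst hD; exact hv2)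
      (by subst hD; rw [hv3, ← e3]) (by subst hD; exact hw1) (by subst hD; exact hw2)
      (by subst hD; exact hw3) (by subst hD; exact o1) (by subst hD; exact o2)
    subst hD
    simp only at this
    rw [g1, g2, g3] at this
    exact this

end Pool.Agent.Strip051.PB
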