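import Pool.Agent.Strip051.PB.Cone

/-! # Aligned corners: triangles next to the tight ones

The second node is compared with the partner of the first node in the tight triangle; everything
is divided by the difference `N` of the squared lengths of the third side. -/

namespace Pool.Agent.Strip051.PB

/-! ### Geometry -/

section

variable {Xm Ym Xn Yn X0 Y0 g N σ : ℝ}

/-- The heights of the second node and of the partner. -/
theorem tgt_D (hn : (Xn - X0) * (Xn + X0) + 3 / 4 * ((Yn - Y0) * (Yn + Y0)) = 0)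
    (hc : Xm * Y0 - X0 * Ym = 1) (hg : 2 * g = Xm * Yn - Xn * Ym + 1)
    (hN : N * σ = 2 * (Xm * (Xn - X0) + 3 / 4 * (Ym * (Yn - Y0)))) (g0 : g ≠ 0) :
    Yn - Y0 = N * -(σ * ((Xn + X0) / 3 * g⁻¹)) := by
  have key : 3 * g * (Yn - Y0) = -(N * σ * (Xn + X0)) := by
    linear_combination 3 / 2 * (Yn - Y0) * hg - 3 / 2 * (Yn - Y0) * hc +
      (Xn + X0) * hN + 2 * Xm * hn
  field_simp
  linear_combination key

/-- The excess. -/
theorem tgt_E (hn : (Xn - X0) * (Xn + X0) + 3 / 4 * ((Yn - Y0) * (Yn + Y0)) = 0)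
    (hc : Xm * Y0 - X0 * Ym = 1) (hg : 2 * g = Xm * Yn - Xn * Ym + 1)
    (hN : N * σ = 2 * (Xm * (Xn - X0) + 3 / 4 * (Ym * (Yn - Y0)))) (g0 : g ≠ 0) :
    (Xm * Yn - Xn * Ym) / 2 - 1 / 2 =
      N * -(σ * ((Xm * (Xn + X0) + 3 / 4 * (Ym * (Yn + Y0))) / 6 * g⁻¹)) := by
  have key : 3 * g * (Xm * Yn - Xn * Ym - 1) =
      -(N * σ * (Xm * (Xn + X0) + 3 / 4 * (Ym * (Yn + Y0)))) := by
    linear_combination 3 / 2 * (Xm * Yn - Xn * Ym - 1) * hg +
      3 / 2 * (Xm * Y0 - X0 * Ym + 1) * hc +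
      (Xm * (Xn + X0) + 3 / 4 * (Ym * (Yn + Y0))) * hN + 2 * (Xm ^ 2 + 3 / 4 * Ym ^ 2) * hn
  field_simp
  linear_combination 8 * key

end

/-! ### The moment -/

/-- The additional term of the moment. -/
noncomputable def omx : Con → ℝ → ℝ → ℝ → ℝ → ℝ
  | .pp, b, _, _, _ => b
  | .nn, b, _, _, _ => b
  | .pnp, b, _, v, d => b + v * d
  | .pnn, b, u, _, d => b - u * d
  | .npp, b, u, _, d => b - u * d
  | .npn, b, _, v, d => b + v * d
  | _, b, _, _, _ => b

theorem tgt_om {c : Con} (hc : isSix c) {ρ a u v v0 R1 R2 R3 R20 r2 d N D : ℝ}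
    (hu : u = ρ * cd1 c a) (hv : v = ρ * cd2 c a) (hv0 : v = v0 + N * D)
    (h2 : R2 = R20 + N * r2) (h3 : R3 = R1 + R2 + N * d) (hid : v0 * R1 = u * R20) :
    ρ * comg c a R1 R2 R3 = N * omx c (D * R1 - u * r2) u v d := by
  cases c <;> simp only [cd1, cd2, comg, omx, isSix] at *
  · linear_combination (-R1) * hv + R1 * hv0 + hid + R2 * hu - u * h2
  · linear_combination (-R1) * hv + R1 * hv0 + hid + R2 * hu - u * h2
  · linear_combination (-R3) * hv + R1 * hv0 + hid + v * h3 + R2 * hu + R2 * hv - u * h2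
  · linear_combination (-R1) * hv + R1 * hv0 + hid - u * h3 + R3 * hu - u * h2 - R1 * hu
  · linear_combination (-R1) * hv + R1 * hv0 + hid - u * h3 + R3 * hu - u * h2 - R1 * hu
  · linear_combination (-R3) * hv + R1 * hv0 + hid + v * h3 + R2 * hu + R2 * hv - u * h2

/-! ### Homogeneity -/

theorem OneC_smul {x ρ α β p q om d e ν : ℝ} (hν : 0 ≤ ν) (h : OneC x ρ α β p q om d e) :
    OneC x ρ α β p q (ν * om) (ν * d) (ν * e) := by
  rcases hν.eq_or_lt with h0 | h0
  · subst h0
    left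
    constructor <;> simp
  · rcases h with ⟨h1, h2⟩ | ⟨h1, h2⟩ | ⟨h1, h2⟩
    · left
      constructor
      · have := mul_le_mul_of_nonneg_left h1 hν
        linarith
      · have := mul_le_mul_of_nonneg_left h2 hν
        linarith
    · right; left
      refine ⟨?_, ?_⟩
      · have := mul_pos h0 h1
        linarith
      · have := mul_le_mul_of_nonneg_left h2 hν
        have e1 : (ν * om + ρ * β * (1 - ρ) * (ν * d))⁻¹ =
            ν⁻¹ * (om + ρ * β * (1 - ρ) * d)⁻¹ := by
          rw [← mul_inv]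
          congr 1
          ring
        rw [e1]
        have e2 : (ρ * (ν * d)) ^ 2 * β * (1 - x) * (ν⁻¹ * (om + ρ * β * (1 - ρ) * d)⁻¹) =
            ν * ((ρ * d) ^ 2 * β * (1 - x) * (om + ρ * β * (1 - ρ) * d)⁻¹) := by
          field_simp
        rw [e2]
        linarith
    · right; right
      refine ⟨?_, ?_⟩
      · have := mul_pos h0 h1
        linarith
      · have := mul_le_mul_of_nonneg_left h2 hν
        have e1 : (ρ * α * (1 - ρ) * (ν * d) - ν * om)⁻¹ =
            ν⁻¹ * (ρ * α * (1 - ρ) * d - om)⁻¹ := by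
          rw [← mul_inv]
          congr 1
          ring
        rw [e1]
        have e2 : (ρ * (ν * d)) ^ 2 * α * x * (ν⁻¹ * (ρ * α * (1 - ρ) * d - om)⁻¹) =
            ν * ((ρ * d) ^ 2 * α * x * (ρ * α * (1 - ρ) * d - om)⁻¹) := by
          field_simp
        rw [e2]
        linarith

/-! ### The row -/

/-- The tests for both signs of the defect. -/
structure TstC (x ρ a p q om d e : ℝ) : Prop where
  pos : 0 ≤ d → OneC x ρ a (1 - a) p q om d e
  neg : d ≤ 0 → OneC x ρ (1 - a) a p q om (-d) e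

theorem TstC_smul {x ρ a p q om d e ν : ℝ} (hν : 0 < ν) (h : TstC x ρ a p q om d e) :
    TstC x ρ a p q (ν * om) (ν * d) (ν * e) := by
  constructor
  · intro h0
    exact OneC_smul hν.le (h.pos (nonneg_of_mul_nonneg_right h0 hν))
  · intro h0
    have : -(ν * d) = ν * -d := by ring
    rw [this]
    refine OneC_smul hν.le (h.neg ?_)
    by_contra hc
    push Not at hc
    have := mul_pos hν hc
    linarith

/-- **The far row** next to a tight triangle. -/
theorem tgt_rowF {c : Con} (hc : isSix c)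
    {ex k x ρ a u v w R1 R2 R3 p q v0 R20 r2 d N D E l1 l2 l3 G : ℝ} (hρ : 0 < ρ)
    (hρx : ρ ≤ x) (hρx' : x ≤ 1 - ρ) (hx0 : 0 < x) (ha : 0 ≤ a) (ha1 : a ≤ 1)
    (hk : 0 ≤ k) (hp : k * (1 - x) = 2 * p) (hq : k * x = 2 * q)
    (hu : u = ρ * cd1 c a) (hv : v = ρ * cd2 c a) (hw : w = ρ * cd3 c a) (hN : 0 ≤ N)
    (he : ex = N * E) (hv0 : v = v0 + N * D)
    (h2 : R2 = R20 + N * r2) (h3 : R3 = R1 + R2 + N * d) (hid : v0 * R1 = u * R20)
    (hl : l1 + l2 - l3 = N * (2 * G))
    (H1 : TstC x ρ a p q (omx c (D * R1 - u * r2) u v d) d (E + G))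
    (H2 : TstC x ρ a p q (omx c (D * R1 - u * r2) u v d) d (E - G)) :
    ∃ g, 0 ≤ slc c (levF ex l1 l2 l3) k x u v w R1 R2 R3 g := by
  have hom := tgt_om hc hu hv hv0 h2 h3 hid
  rcases hN.eq_or_lt with h0 | h0
  · -- the tight triangle
    subst h0
    have hR : R3 = R1 + R2 := by rw [h3]; ring
    have hc0 : comg c a R1 R2 R3 = 0 := by
      have : ρ * comg c a R1 R2 R3 = 0 := by rw [hom]; ring
      rcases mul_eq_zero.1 this with h | h
      · exact absurd h hρ.ne'
      · exact h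
    refine cone_slc hc hρ.le hρx hρx' hx0 ha ha1 hk hp hq hu hv hw (e := 0) (d := 0) ?_ ?_
      ⟨fun _ => ?_, fun _ => ?_⟩
    · unfold levF
      rw [hl, he]
      simp
    · rw [hR]
      ring
    · rw [hc0]
      left
      constructor <;> simp
    · rw [hc0]
      left
      constructor <;> simp
  · have hν : 0 < N / ρ := div_pos h0 hρ
    have hom' : comg c a R1 R2 R3 = N / ρ * omx c (D * R1 - u * r2) u v d := by
      field_simp
      linarith
    have key : ∀ e : ℝ, TstC x ρ a p q (omx c (D * R1 - u * r2) u v d) d e →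
        N * e ≤ levF ex l1 l2 l3 →
        ∃ g, 0 ≤ slc c (levF ex l1 l2 l3) k x u v w R1 R2 R3 g := by
      intro e He hle
      have H := TstC_smul hν He
      rw [← hom'] at H
      refine cone_slc hc hρ.le hρx hρx' hx0 ha ha1 hk hp hq hu hv hw (e := N / ρ * e)
        (d := N / ρ * d) ?_ ?_ ⟨H.pos, H.neg⟩
      · have : ρ * (N / ρ * e) = N * e := by field_simp
        rw [this]
        exact hle
      · have : ρ * (N / ρ * d) = N * d := by field_simp
        rw [this, h3]
        ring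
    rcases le_total 0 G with hG | hG
    · refine key (E - G) H2 ?_
      unfold levF
      rw [hl, he, abs_of_nonneg (by positivity)]
      exact le_of_eq (by ring)
    · refine key (E + G) H1 ?_
      unfold levF
      rw [hl, he, abs_of_nonpos (by nlinarith)]
      exact le_of_eq (by ring)

end Pool.Agent.Strip051.PB
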