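import Pool.Agent.Strip051.PB.CornL
import Pool.Agent.Strip051.PB.TgtR

/-! # Charts at the aligned corners: the leaf next to the tight triangles (far vertex) -/

namespace Pool.Agent.Strip051.PB

attribute [local irreducible] padd psub pneg pmul psq pinv psqrt psqrtg pabs pps pmax pmin pphi plam
  pcase phf pnat prat pscale pnorm pdc pnc pone ppos pnn Enc pbad pzero

/-- The constants of a tight triangle: the partner of the first node `m` is `α m + γ J m`, where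
`J (X, Y) = (- 3/4 Y, X)`; `rm`, `rn` are the squared lengths of the two nodes, `un` says that the
third side is a unit vector (otherwise its squared length is `3`). -/
structure Tp where
  (sa : Bool)
  (ah : ℕ)
  (th un : Bool)
  (rm rn : ℕ)

namespace Tp

variable (T : Tp)

noncomputable def α : ℝ := sgr T.sa ((T.ah : ℝ) / 2)
noncomputable def γ : ℝ := cond T.th (1 / 3) 1
noncomputable def rU : ℝ := cond T.un 1 3
/-- the sign of the increments -/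
def ns (fam : Bool) : Bool := cond fam (!T.un) T.un

/-- The consistency of the constants. -/
structure Ok (fam : Bool) : Prop where
  γm : T.γ * T.rm = 1
  n : (T.α ^ 2 + 3 / 4 * T.γ ^ 2) * T.rm = T.rn
  U : T.rm + T.rn + 2 * cond fam T.α (-T.α) * T.rm = T.rU

end Tp

/-- three quarters -/
noncomputable def p34 (X : ℕ) : ℕ := psub X (phf (phf X))

/-- multiplication with `γ` -/
noncomputable def gmT (t : Bool) (X : ℕ) : ℕ :=
  Bool.rec (motive := fun _ => ℕ) X (pscale 1 3 X) t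

section

variable {E : Pt} {X : ℕ} {v : ℝ}

theorem enc_p34 (h : Enc E X v) : Enc E (p34 X) (3 / 4 * v) :=
  enc_cast (enc_sub h (enc_half (enc_half h))) (by ring)

theorem enc_gmT (T : Tp) (h : Enc E X v) : Enc E (gmT T.th X) (T.γ * v) := by
  unfold Tp.γ gmT
  cases T.th
  · exact enc_cast h (by simp)
  · refine enc_cast (enc_scale 1 3 h) ?_
    push_cast
    rfl

end

/-! ### The third side -/

/-- the slopes of the kernel and of the level on the segment -/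
noncomputable def segU (lo up : Bool) (Ga Gb : Gn) (Y M x Z : ℕ) (k : ℕ → ℕ → Bool) : Bool :=
  segT lo up Ga Gb Y M x Z fun gK gL _ _ _ => k gK gL

theorem segU_sound {E : Pt} {lo up : Bool} {Ga Gb : Gn} {Y M X Z : ℕ} {y m x z B c0 : ℝ}
    {k : ℕ → ℕ → Bool} (hY : Enc E Y y) (hM : Enc E M m) (hx : Enc E X x)
    (hZ : Enc E Z z) (ha : lo = true → Ga.At m B c0 x) (hb : up = true → Gb.At m B c0 x)
    (h : segU lo up Ga Gb Y M X Z k = true) :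
    (lo = false → Ga.xv y < z) ∧ (up = false → z < Gb.xv y) ∧
    (Ga.xv y ≤ z → z ≤ Gb.xv y → ∀ T TL, Lin (Ga.xv y) (Gb.xv y) (Ga.kv y x) (Gb.kv y x) z T →
      Lin (Ga.xv y) (Gb.xv y) (Ga.lv y x) (Gb.lv y x) z TL →
      ∃ (gK gL : ℝ) (GK GM : ℕ), Enc E GK gK ∧ Enc E GM gL ∧ k GK GM = true ∧
        T = Ga.kv y x + gK * (z - Ga.xv y) ∧ T = Gb.kv y x + gK * (z - Gb.xv y) ∧
        TL = Ga.lv y x + gL * (z - Ga.xv y) ∧ TL = Gb.lv y x + gL * (z - Gb.xv y)) := by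
  have vxa : Enc E (Ga.xV Y) (Ga.xv y) := Ga.nd.X.enc (enc_cA _ hY)
  have vxb : Enc E (Gb.xV Y) (Gb.xv y) := Gb.nd.X.enc (enc_cA _ hY)
  have vka : Enc E (Ga.kV Y X) (Ga.kv y x) := Ga.nd.K.enc (enc_cA _ hY) hx
  have vkb : Enc E (Gb.kV Y X) (Gb.kv y x) := Gb.nd.K.enc (enc_cA _ hY) hx
  have vla : Enc E (Ga.lV Y X) (Ga.lv y x) := Ga.nd.L.enc (enc_cA _ hY) hx
  have vlb : Enc E (Gb.lV Y X) (Gb.lv y x) := Gb.nd.L.enc (enc_cA _ hY) hx
  obtain ⟨⟨xa, xa1, xa2⟩, ⟨ka, ka1, ka2⟩, ⟨la, la1, la2⟩⟩ := Ga.slopes hY hM hx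
  obtain ⟨⟨xb, xb1, xb2⟩, ⟨kb, kb1, kb2⟩, ⟨lb, lb1, lb2⟩⟩ := Gb.slopes hY hM hx
  have lin2 : Gb.xv y - Ga.xv y ≠ 0 → ∀ {va vb T : ℝ}, Lin (Ga.xv y) (Gb.xv y) va vb z T →
      T = va + (vb - va) * (Gb.xv y - Ga.xv y)⁻¹ * (z - Ga.xv y) ∧
      T = vb + (vb - va) * (Gb.xv y - Ga.xv y)⁻¹ * (z - Gb.xv y) := by
    intro hd va vb T hT
    exact ⟨lin_lo hT, lin_up hT hd⟩
  unfold segU segT at h
  cases lo <;> cases up
  · exact absurd h (by simp)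
  · simp only [frc_eq] at h
    obtain ⟨t1, h⟩ := band_true h
    obtain ⟨t2, h⟩ := band_true h
    have e1 := ppos_sound (enc_sub hZ vxa) t1
    have e2 := ppos_sound (enc_sub vxb vxa) t2
    refine ⟨fun _ => by linarith, fun h => absurd h (by simp), fun i1 i2 T TL hT hTL => ?_⟩
    have hI := enc_inv (enc_sub vxb vxa)
    obtain ⟨f1, f2⟩ := lin2 e2.ne' hT
    obtain ⟨f3, f4⟩ := lin2 e2.ne' hTL
    exact ⟨_, _, _, _, enc_mn (enc_sub vkb vka) hI, enc_mn (enc_sub vlb vla) hI, h,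
      f1, f2, f3, f4⟩
  · simp only [frc_eq] at h
    obtain ⟨t1, h⟩ := band_true h
    have e1 := ppos_sound (enc_sub vxb hZ) t1
    refine ⟨fun h => absurd h (by simp), fun _ => by linarith, fun i1 i2 T TL hT hTL => ?_⟩
    have hI := enc_inv (enc_sub vxb vxa)
    have e2 : Gb.xv y - Ga.xv y ≠ 0 := by
      have : 0 < Gb.xv y - Ga.xv y := by linarith
      exact this.ne'
    obtain ⟨f1, f2⟩ := lin2 e2 hT
    obtain ⟨f3, f4⟩ := lin2 e2 hTL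
    exact ⟨_, _, _, _, enc_mn (enc_sub vkb vka) hI, enc_mn (enc_sub vlb vla) hI, h,
      f1, f2, f3, f4⟩
  · simp only [frc_eq] at h
    obtain ⟨t1, h⟩ := band_true h
    have e1 := abs_pos.1 (ppos_sound (enc_abs (enc_sub xb1 xa1)) t1)
    refine ⟨fun h => absurd h (by simp), fun h => absurd h (by simp), fun i1 i2 T TL hT hTL => ?_⟩
    obtain ⟨c1, c2, c3⟩ := ha rfl
    obtain ⟨d1, d2, d3⟩ := hb rfl
    have hI := enc_invs (enc_sub xb1 xa1)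
    have k1 : Ga.xv y = B + (y - m) * xa := by linarith
    have k2 : Gb.xv y = B + (y - m) * xb := by linarith
    have k3 : Ga.kv y x = c0 * B + (y - m) * ka := by linarith
    have k4 : Gb.kv y x = c0 * B + (y - m) * kb := by linarith
    have k5 : Ga.lv y x = 0 + (y - m) * la := by linarith
    have k6 : Gb.lv y x = 0 + (y - m) * lb := by linarith
    rw [k1, k2, k3, k4] at hT
    rw [k1, k2, k5, k6] at hTL
    rw [k1] at i1
    rw [k2] at i2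
    have g1 := lin_both hT i1 i2 e1
    have g2 := lin_both hTL i1 i2 e1
    have c1 : (xb - xa)⁻¹ * (xb - xa) = 1 := inv_mul_cancel₀ e1
    refine ⟨(kb - ka) * (xb - xa)⁻¹, (lb - la) * (xb - xa)⁻¹, _, _,
      enc_mn (enc_sub kb1 ka1) hI, enc_mn (enc_sub lb1 la1) hI, h, ?_, ?_, ?_, ?_⟩
    · rw [k1, k3, g1]
      ring
    · rw [k2, k4, g1]
      linear_combination ((y - m) * (kb - ka)) * c1
    · rw [k1, k5, g2]
      ring
    · rw [k2, k6, g2]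
      linear_combination ((y - m) * (lb - la)) * c1

/-! ### The test -/

/-- the additional term of the moment -/
noncomputable def omxT (c : Con) (b u v d : ℕ) : ℕ :=
  Con.rec (motive := fun _ => ℕ) b b (padd b (pmn v d)) (psub b (pmn u d)) (psub b (pmn u d))
    (padd b (pmn v d)) b b c

theorem enc_omxT {E : Pt} (c : Con) {B U V D : ℕ} {b u v d : ℝ} (hb : Enc E B b)
    (hu : Enc E U u) (hv : Enc E V v) (hd : Enc E D d) :
    Enc E (omxT c B U V D) (omx c b u v d) := by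
  cases c
  · exact hb
  · exact hb
  · exact enc_add hb (enc_mn hv hd)
  · exact enc_sub hb (enc_mn hu hd)
  · exact enc_sub hb (enc_mn hu hd)
  · exact enc_add hb (enc_mn hv hd)
  · exact hb
  · exact hb

/-- slope of a kernel or level along a curve between two heights -/
noncomputable def Gn.kD (G : Gn) (Y Y0 D x : ℕ) : ℕ :=
  G.K.s (cA G.cc Y) (cA G.cc Y0) (cS G.cc Y Y0 D) x
noncomputable def Gn.lD (G : Gn) (Y Y0 D x : ℕ) : ℕ :=
  G.L.s (cA G.cc Y) (cA G.cc Y0) (cS G.cc Y Y0 D) x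

/-- the test with all rates -/
noncomputable def tgtF (c : Con) (fam : Bool) (h R A X U V D E R1 rn rt ln lt : ℕ) : Bool :=
  frc (psub (sl fam rt rn) (sl fam rn rt)) fun d =>
  frc (omxT c (psub (pmn D R1) (pmn U (sl fam rn rt))) U V d) fun om =>
  frc (phf (psub (sl fam ln lt) (sl fam lt ln))) fun G =>
  frc (pmn (esT X) (pinv X)) fun p => frc (pmn (esT X) (pinv (psub pone X))) fun q =>
  band (sgnT X R A p q om d (Nat.shiftRight h 2) (padd E G))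
    (sgnT X R A p q om d (Nat.shiftRight h 6) (psub E G))

/-- the test after the choice of the segment -/
noncomputable def tgtK (P : Cp) (T : Tp) (G1 G2 GT : Gn)
    (h R A X C1 C2 Y1 Yn Yt z1 zn Z gK gL : ℕ) : Bool :=
  frc (padd (sg P.t1 (phn P.h1)) (pmn R z1)) fun Xm =>
  frc (padd (sg P.tn (phn P.hn)) (pmn R zn)) fun Xn =>
  frc (padd (bmT T.sa T.ah Y1) (gmT T.th Xm)) fun Y0 =>
  frc (padd Xn (psub (bmT T.sa T.ah Xm) (gmT T.th (p34 Y1)))) fun Xb =>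
  frc (phf (padd (psub (pmn Xm Yn) (pmn Xn Y1)) pone)) fun g => band (ppos g)
  (frc (pinv g) fun ig =>
  frc (sg (T.ns P.fam) (pscale 1 3 (pmn Xb ig))) fun D =>
  frc (sg (T.ns P.fam) (pscale 1 6 (pmn (padd (pmn Xm Xb) (p34 (pmn Y1 (padd Yn Y0)))) ig)))
    fun E =>
  frc (th P.fam Y1 Y0) fun Yt0 =>
  frc (sg T.un (pinv (padd Z (GT.xV Yt)))) fun iz =>
  frc (sg P.tn (G2.kD Yn Y0 D X)) fun rn =>
  frc (sg P.tn (G2.lD Yn Y0 D X)) fun ln =>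
  frc (sg P.tt (padd (GT.kD Yt Yt0 D X) (pmn gK iz))) fun rt =>
  frc (sg P.tt (padd (GT.lD Yt Yt0 D X) (pmn gL iz))) fun lt =>
  tgtF P.cn P.fam h R A X (pmn R C1) (pmn R C2) D E (sg P.t1 (G1.kV Y1 X)) rn rt ln lt)

/-- **The test of a leaf next to the tight triangles.** -/
noncomputable def corG (P : Cp) (T : Tp) (G1 G2 Ga Gb GT : Gn) (lo up : Bool) (h R A X : ℕ) :
    Bool :=
  frc (cdT1 P.cn A) fun C1 => frc (cdT2 P.cn A) fun C2 => frc (cdT3 P.cn A) fun C3 =>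
  frc (padd (pnc P.m1) (pmn R C1)) fun Y1 =>
  frc (padd (pnc P.mn) (pmn R (sl P.fam C2 C3))) fun Yn =>
  frc (padd (pnc P.mt) (pmn R (sl P.fam C3 C2))) fun Yt =>
  frc (sg P.t1 (pmn C1 (G1.xT Y1 (pnc P.m1)))) fun z1 =>
  frc (sg P.tn (pmn (sl P.fam C2 C3) (G2.xT Yn (pnc P.mn)))) fun zn =>
  frc (padd (phn P.ht) (pmn R (sg P.tt (th P.fam z1 zn)))) fun Z => band (ppos Z)
  (segU lo up Ga Gb Yt (pnc P.mt) X Z
    (tgtK P T G1 G2 GT h R A X C1 C2 Y1 Yn Yt z1 zn Z))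

/-! ### The tight triangle -/

/-- the height of the partner -/
noncomputable def Tp.Y0 (T : Tp) (P : Cp) (G1 : Gn) (ρ a : ℝ) : ℝ :=
  T.α * P.y1 ρ a + T.γ * P.X1 G1 ρ a

/-- the height of the third side -/
noncomputable def Tp.Yt (T : Tp) (P : Cp) (G1 : Gn) (ρ a : ℝ) : ℝ :=
  cond P.fam (P.y1 ρ a + T.Y0 P G1 ρ a) (T.Y0 P G1 ρ a - P.y1 ρ a)

/-- The identities at the tight triangle. -/
structure TgH (P : Cp) (T : Tp) (G1 G2 GT : Gn) (ρ a x : ℝ) : Prop where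
  qm : G1.xv (P.y1 ρ a) ^ 2 + 3 / 4 * P.y1 ρ a ^ 2 = T.rm
  qn : G2.xv (P.yn ρ a) ^ 2 + 3 / 4 * P.yn ρ a ^ 2 = T.rn
  qt : GT.xv (P.yt ρ a) ^ 2 + 3 / 4 * P.yt ρ a ^ 2 = T.rU
  pos : 0 ≤ GT.xv (P.yt ρ a)
  id1 : (T.Y0 P G1 ρ a - P.mn) * sgr P.t1 (G1.kv (P.y1 ρ a) x) =
    (P.y1 ρ a - P.m1) * sgr P.tn (G2.kv (T.Y0 P G1 ρ a) x)
  idk : sgr P.tt (GT.kv (T.Yt P G1 ρ a) x) =
    cond P.fam (sgr P.t1 (G1.kv (P.y1 ρ a) x) + sgr P.tn (G2.kv (T.Y0 P G1 ρ a) x))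
      (sgr P.tn (G2.kv (T.Y0 P G1 ρ a) x) - sgr P.t1 (G1.kv (P.y1 ρ a) x))
  idl : sgr P.tt (GT.lv (T.Yt P G1 ρ a) x) =
    cond P.fam (sgr P.t1 (G1.lv (P.y1 ρ a) x) + sgr P.tn (G2.lv (T.Y0 P G1 ρ a) x))
      (sgr P.tn (G2.lv (T.Y0 P G1 ρ a) x) - sgr P.t1 (G1.lv (P.y1 ρ a) x))

theorem sgr_sq (t : Bool) (x : ℝ) : sgr t x ^ 2 = x ^ 2 := by
  cases t
  · show (-x) ^ 2 = x ^ 2
    ring
  · rfl

theorem Gn.dslopes (G : Gn) {E : Pt} {Y Y0 D X : ℕ} {y y0 d x N : ℝ} (hY : Enc E Y y)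
    (hY0 : Enc E Y0 y0) (hD : Enc E D d) (hx : Enc E X x) (e : y - y0 = N * d) :
    (∃ κ, Enc E (G.kD Y Y0 D X) κ ∧ G.kv y x - G.kv y0 x = N * κ) ∧
    (∃ l, Enc E (G.lD Y Y0 D X) l ∧ G.lv y x - G.lv y0 x = N * l) := by
  have h := pr_cA G.cc (pr_lin hY hY0 hD e)
  exact ⟨(G.K.snd h hx).d, (G.L.snd h hx).d⟩

/-! ### Soundness -/

/-- The geometry of the tight triangle. -/
theorem tgt_geo {P : Cp} {T : Tp} (hT : T.Ok P.fam) {Xm Ym Xn Yn X0 Y0 z yt g N : ℝ}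
    (qm : Xm ^ 2 + 3 / 4 * Ym ^ 2 = T.rm) (qn : Xn ^ 2 + 3 / 4 * Yn ^ 2 = T.rn)
    (hX0 : X0 = T.α * Xm - T.γ * (3 / 4 * Ym)) (hY0 : Y0 = T.α * Ym + T.γ * Xm)
    (hz : z ^ 2 = (cond P.fam (Xm + Xn) (Xn - Xm)) ^ 2) (hyt : yt = cond P.fam (Ym + Yn) (Yn - Ym))
    (hN : N = sgr T.un (z ^ 2 + 3 / 4 * yt ^ 2 - T.rU))
    (hg : g = (Xm * Yn - Xn * Ym + 1) / 2) (g0 : g ≠ 0) :
    Yn - Y0 = N * sgr (T.ns P.fam) (1 / 3 * ((Xn + X0) * g⁻¹)) ∧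
    (Xm * Yn - Xn * Ym) / 2 - 1 / 2 =
      N * sgr (T.ns P.fam) (1 / 6 * ((Xm * (Xn + X0) + 3 / 4 * (Ym * (Yn + Y0))) * g⁻¹)) := by
  obtain ⟨h1, h2, h3⟩ := hT
  have hn : (Xn - X0) * (Xn + X0) + 3 / 4 * ((Yn - Y0) * (Yn + Y0)) = 0 := by
    rw [hX0, hY0]
    linear_combination qn - (T.α ^ 2 + 3 / 4 * T.γ ^ 2) * qm - h2
  have hc : Xm * Y0 - X0 * Ym = 1 := by
    rw [hX0, hY0]
    linear_combination T.γ * qm + h1
  have hg' : 2 * g = Xm * Yn - Xn * Ym + 1 := by rw [hg]; ring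
  obtain ⟨fam, hfam⟩ : ∃ fam, fam = P.fam := ⟨_, rfl⟩
  rw [← hfam] at hz hyt h3 ⊢
  unfold Tp.rU at *
  unfold Tp.ns
  have st : ∀ z : ℝ, sgr true z = z := fun _ => rfl
  have sf : ∀ z : ℝ, sgr false z = -z := fun _ => rfl
  have fin : ∀ σ : ℝ, N * σ = 2 * (Xm * (Xn - X0) + 3 / 4 * (Ym * (Yn - Y0))) →
      Yn - Y0 = N * (-σ * (1 / 3 * ((Xn + X0) * g⁻¹))) ∧
      (Xm * Yn - Xn * Ym) / 2 - 1 / 2 =
        N * (-σ * (1 / 6 * ((Xm * (Xn + X0) + 3 / 4 * (Ym * (Yn + Y0))) * g⁻¹))) := by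
    intro σ hσ
    constructor
    · rw [tgt_D hn hc hg' hσ g0]
      ring
    · rw [tgt_E hn hc hg' hσ g0]
      ring
  cases hu : T.un <;> cases fam <;> rw [hu] at h3 hN <;>
    simp only [cond_true, cond_false, Bool.not_true, Bool.not_false, st, sf] at *
  · obtain ⟨f1, f2⟩ := fin 1 (by
      rw [hN, hz, hyt, hX0, hY0]
      linear_combination (-1 + 2 * T.α) * qm - qn - h3)
    exact ⟨by rw [f1]; ring, by rw [f2]; ring⟩
  · obtain ⟨f1, f2⟩ := fin (-1) (by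
      rw [hN, hz, hyt, hX0, hY0]
      linear_combination (1 + 2 * T.α) * qm + qn + h3)
    exact ⟨by rw [f1]; ring, by rw [f2]; ring⟩
  · obtain ⟨f1, f2⟩ := fin (-1) (by
      rw [hN, hz, hyt, hX0, hY0]
      linear_combination (-1 + 2 * T.α) * qm - qn - h3)
    exact ⟨by rw [f1]; ring, by rw [f2]; ring⟩
  · obtain ⟨f1, f2⟩ := fin 1 (by
      rw [hN, hz, hyt, hX0, hY0]
      linear_combination (1 + 2 * T.α) * qm + qn + h3)
    exact ⟨by rw [f1]; ring, by rw [f2]; ring⟩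

/-- the height of the third side -/
theorem Cp.yt_eq {P : Cp} (hP : P.Ok) (ρ a : ℝ) :
    P.yt ρ a = cond P.fam (P.y1 ρ a + P.yn ρ a) (P.yn ρ a - P.y1 ρ a) := by
  have h := cd_add hP.six a
  have hm := hP.m
  unfold Cp.yt Cp.yn Cp.y1
  cases hf : P.fam
  · rw [hf] at hm
    simp only [cond_false] at hm ⊢
    rw [← h]
    linear_combination hm
  · rw [hf] at hm
    simp only [cond_true] at hm ⊢
    rw [← h]
    linear_combination -hm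

/-- The tests of both signs. -/
theorem sgnT_tst {E : Pt} {X R A P Q O D L h : ℕ} {x ρ a p q om d e : ℝ}
    (hx : Enc E X x) (hR : Enc E R ρ) (hA : Enc E A a) (hp : Enc E P p)
    (hq : Enc E Q q) (ho : Enc E O om) (hd : Enc E D d) (he : Enc E L e)
    (ht : sgnT X R A P Q O D h L = true) : TstC x ρ a p q om d e := by
  obtain ⟨h1, h2⟩ := band_true ht
  have hA' := enc_sub (enc_one E) hA
  exact ⟨fun h0 => oneT_sound hx hR hA hA' hp hq ho hd he h1 h0,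
    fun h0 => oneT_sound hx hR hA' hA hp hq ho (enc_neg hd) he h2 (by linarith)⟩

theorem tgtF_sound {E : Pt} {c : Con} (hc : isSix c) {fam : Bool} {h R A X U V D EE R1 rn rt ln lt : ℕ}
    {ρ a x : ℝ} (B : CRng ρ a x) (hρ : 0 < ρ) (hR : Enc E R ρ) (hA : Enc E A a) (hX : Enc E X x)
    {ex u v w D' E' K1 K2 K3 K20 v0 N l1 l2 l3 xn xt yn yt : ℝ}
    (hU : Enc E U u) (hV : Enc E V v) (hD : Enc E D D') (hE : Enc E EE E') (hR1 : Enc E R1 K1)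
    (hrn : Enc E rn xn) (hrt : Enc E rt xt) (hln : Enc E ln yn) (hlt : Enc E lt yt)
    (hu : u = ρ * cd1 c a) (hv : v = ρ * cd2 c a) (hw : w = ρ * cd3 c a) (hN : 0 ≤ N)
    (he : ex = N * E') (hv0 : v = v0 + N * D') (h2 : K2 = K20 + N * cond fam xn xt)
    (h3 : K3 = K1 + K2 + N * (cond fam xt xn - cond fam xn xt)) (hid : v0 * K1 = u * K20)
    (hl : l1 + l2 - l3 = N * (cond fam yn yt - cond fam yt yn))
    (ht : tgtF c fam h R A X U V D EE R1 rn rt ln lt = true) :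
    ∃ g, 0 ≤ slc c (levF ex l1 l2 l3) (ken x) x u v w K1 K2 K3 g := by
  unfold tgtF at ht
  simp only [frc_eq] at ht
  obtain ⟨t1, t2⟩ := band_true ht
  have hp : Enc E (pmn (esT X) (pinv X)) (esn x / x) := by
    rw [div_eq_mul_inv]
    exact enc_mn (enc_esT hX) (enc_inv hX)
  have hq : Enc E (pmn (esT X) (pinv (psub pone X))) (esn x / (1 - x)) := by
    rw [div_eq_mul_inv]
    exact enc_mn (enc_esT hX) (enc_inv (enc_sub (enc_one E) hX))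
  have hd := enc_sub (enc_sl fam hrt hrn) (enc_sl fam hrn hrt)
  have hom := enc_omxT c (enc_sub (enc_mn hD hR1) (enc_mn hU (enc_sl fam hrn hrt))) hU hV hd
  have hG := enc_half (enc_sub (enc_sl fam hln hlt) (enc_sl fam hlt hln))
  refine tgt_rowF hc hρ B.ρx B.ρx' B.x0 B.a0 B.a1 (ken_nonneg B.x0.le B.x1.le)
    (ken_p B.x0 B.x1) (ken_q B.x0 B.x1) hu hv hw hN he hv0 h2 h3 hid
    (G := (cond fam yn yt - cond fam yt yn) / 2) (by rw [hl]; ring)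
    (sgnT_tst hX hR hA hp hq hom hd (enc_add hE hG) t1)
    (sgnT_tst hX hR hA hp hq hom hd (enc_sub hE hG) t2)

theorem tgt_z {un : Bool} {Z xT yt rU N : ℝ} (hq : xT ^ 2 + 3 / 4 * yt ^ 2 = rU) (hx : 0 ≤ xT)
    (hz : 0 < Z) (hN : N = sgr un (Z ^ 2 + 3 / 4 * yt ^ 2 - rU))
    (h : cond un (xT ≤ Z) (Z ≤ xT)) : Z - xT = N * sgr un (Z + xT)⁻¹ ∧ 0 ≤ N := by
  have zx : Z + xT ≠ 0 := by linarith
  have e : Z ^ 2 + 3 / 4 * yt ^ 2 - rU = (Z - xT) * (Z + xT) := by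
    linear_combination hq
  rw [hN, e]
  cases un
  · have h' : Z ≤ xT := h
    constructor
    · show _ = -((Z - xT) * (Z + xT)) * -(Z + xT)⁻¹
      rw [neg_mul_neg, mul_assoc, mul_inv_cancel₀ zx, mul_one]
    · show 0 ≤ -((Z - xT) * (Z + xT))
      nlinarith
  · have h' : xT ≤ Z := h
    constructor
    · show _ = ((Z - xT) * (Z + xT)) * (Z + xT)⁻¹
      rw [mul_assoc, mul_inv_cancel₀ zx, mul_one]
    · show 0 ≤ (Z - xT) * (Z + xT)
      exact mul_nonneg (by linarith) (by linarith)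

theorem corG_sound {E : Pt} {P : Cp} (hP : P.Ok) {T : Tp} (hT : T.Ok P.fam) {N0 : ℕ} {c0 : ℝ}
    {G1 G2 Ga Gb GT : Gn} {lo up : Bool} {h R A X : ℕ} {ρ a x : ℝ} (B : CRng ρ a x) (hρ : 0 < ρ)
    (hR : Enc E R ρ) (hA : Enc E A a) (hX : Enc E X x)
    (h1 : G1.At P.m1 ((P.h1 : ℝ) / 2) c0 x) (h2 : G2.At P.mn ((P.hn : ℝ) / 2) c0 x)
    (ha : lo = true → Ga.At P.mt ((P.ht : ℝ) / 2) c0 x)
    (hb : up = true → Gb.At P.mt ((P.ht : ℝ) / 2) c0 x) (hGT : GT = cond T.un Ga Gb)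
    (H : TgH P T G1 G2 GT ρ a x)
    (ht : corG P T G1 G2 Ga Gb GT lo up h R A X = true) :
    P.Stm G1 G2 Ga Gb ρ a x true N0 lo up := by
  unfold corG at ht
  simp only [frc_eq] at ht
  obtain ⟨tz, ht⟩ := band_true ht
  have C1 := enc_cdT1 P.cn hA
  have C2 := enc_cdT2 P.cn hA
  have C3 := enc_cdT3 P.cn hA
  have Cn : Enc E (sl P.fam (cdT2 P.cn A) (cdT3 P.cn A)) (cond P.fam (cd2 P.cn a) (cd3 P.cn a)) :=
    enc_sl _ C2 C3
  have Ct : Enc E (sl P.fam (cdT3 P.cn A) (cdT2 P.cn A)) (cond P.fam (cd3 P.cn a) (cd2 P.cn a)) :=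
    enc_sl _ C3 C2
  have Y1 : Enc E (padd (pnc P.m1) (pmn R (cdT1 P.cn A))) (P.y1 ρ a) :=
    enc_add (enc_pnc E _) (enc_mn hR C1)
  have Yn : Enc E (padd (pnc P.mn) (pmn R (sl P.fam (cdT2 P.cn A) (cdT3 P.cn A)))) (P.yn ρ a) :=
    enc_add (enc_pnc E _) (enc_mn hR Cn)
  have Yt : Enc E (padd (pnc P.mt) (pmn R (sl P.fam (cdT3 P.cn A) (cdT2 P.cn A)))) (P.yt ρ a) :=
    enc_add (enc_pnc E _) (enc_mn hR Ct)
  have yte := Cp.yt_eq hP ρ a
  obtain ⟨cn, hcn⟩ : ∃ z, z = cond P.fam (cd2 P.cn a) (cd3 P.cn a) := ⟨_, rfl⟩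
  rw [← hcn] at Cn
  have d1 : P.y1 ρ a - P.m1 = ρ * cd1 P.cn a := by unfold Cp.y1; ring
  have dn : P.yn ρ a - P.mn = ρ * cn := by unfold Cp.yn; rw [hcn]; ring
  obtain ⟨⟨x1, x11, x12⟩, -, -⟩ := G1.slopes Y1 (enc_pnc E P.m1) hX
  obtain ⟨⟨xn, xn1, xn2⟩, -, -⟩ := G2.slopes Yn (enc_pnc E P.mn) hX
  rw [d1] at x12
  rw [dn] at xn2
  have z1 := enc_sg P.t1 (enc_mn C1 x11)
  have zn := enc_sg P.tn (enc_mn Cn xn1)
  obtain ⟨Z1, hZ1⟩ : ∃ z, z = sgr P.t1 (cd1 P.cn a * x1) := ⟨_, rfl⟩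
  obtain ⟨Zn, hZn⟩ : ∃ z, z = sgr P.tn (cn * xn) := ⟨_, rfl⟩
  rw [← hZ1] at z1
  rw [← hZn] at zn
  have az := enc_sg P.tt (enc_th P.fam z1 zn)
  have hX1 : P.X1 G1 ρ a = P.b1 + ρ * Z1 := by
    unfold Cp.X1 Cp.b1
    rw [hZ1, ← sgr_mul, ← sgr_add]
    congr 1
    have := h1.X
    linarith
  have hXn : P.Xn G2 ρ a = P.bn + ρ * Zn := by
    unfold Cp.Xn Cp.bn
    rw [hZn, ← sgr_mul, ← sgr_add]
    congr 1
    have := h2.X
    linarith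
  have hXt : P.Xt G1 G2 ρ a = P.bt + ρ * cond P.fam (Z1 + Zn) (Zn - Z1) := by
    unfold Cp.Xt
    rw [hX1, hXn]
    have := hP.b
    cases hf : P.fam
    · rw [hf] at this
      simp only [cond_false] at this ⊢
      linear_combination -this
    · rw [hf] at this
      simp only [cond_true] at this ⊢
      linear_combination this
  have hZ : P.Z G1 G2 ρ a = (P.ht : ℝ) / 2 + ρ * sgr P.tt (cond P.fam (Z1 + Zn) (Zn - Z1)) := by
    unfold Cp.Z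
    rw [hXt, sgr_add, sgr_mul]
    unfold Cp.bt
    rw [sgr_sgr]
  have eZ := enc_add (enc_phn E P.ht) (enc_mn hR az)
  rw [← hZ] at eZ
  have zpos := ppos_sound eZ tz
  refine ⟨zpos, ?_⟩
  right; right
  have hs := segU_sound (B := (P.ht : ℝ) / 2) (c0 := c0) Yt (enc_pnc E P.mt) hX eZ ha hb ht
  refine ⟨hs.1, hs.2.1, fun i1 i2 T' TL hT' hTL => ?_⟩
  obtain ⟨gK, gL, GK, GM, e1, e2, hk, fa, fb, ga, gb⟩ := hs.2.2 i1 i2 T' TL hT' hTL
  unfold tgtK at hk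
  simp only [frc_eq] at hk
  obtain ⟨tg, hk⟩ := band_true hk
  have eXm : Enc E (padd (sg P.t1 (phn P.h1)) (pmn R (sg P.t1 (pmn (cdT1 P.cn A)
      (G1.xT (padd (pnc P.m1) (pmn R (cdT1 P.cn A))) (pnc P.m1)))))) (P.X1 G1 ρ a) := by
    rw [hX1]
    exact enc_add (enc_sg P.t1 (enc_phn E P.h1)) (enc_mn hR z1)
  have eXn : Enc E (padd (sg P.tn (phn P.hn)) (pmn R (sg P.tn
      (pmn (sl P.fam (cdT2 P.cn A) (cdT3 P.cn A)) (G2.xT (padd (pnc P.mn)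
        (pmn R (sl P.fam (cdT2 P.cn A) (cdT3 P.cn A)))) (pnc P.mn)))))) (P.Xn G2 ρ a) := by
    rw [hXn]
    exact enc_add (enc_sg P.tn (enc_phn E P.hn)) (enc_mn hR zn)
  -- the geometry
  obtain ⟨Xm, hXm⟩ : ∃ z, z = P.X1 G1 ρ a := ⟨_, rfl⟩
  obtain ⟨Xv, hXv⟩ : ∃ z, z = P.Xn G2 ρ a := ⟨_, rfl⟩
  obtain ⟨ym, hym⟩ : ∃ z, z = P.y1 ρ a := ⟨_, rfl⟩
  obtain ⟨yv, hyv⟩ : ∃ z, z = P.yn ρ a := ⟨_, rfl⟩
  obtain ⟨Y0, hY0⟩ : ∃ z, z = T.α * ym + T.γ * Xm := ⟨_, rfl⟩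
  obtain ⟨X0, hX0⟩ : ∃ z, z = T.α * Xm - T.γ * (3 / 4 * ym) := ⟨_, rfl⟩
  obtain ⟨g, hg⟩ : ∃ z, z = (Xm * yv - Xv * ym + 1) / 2 := ⟨_, rfl⟩
  obtain ⟨N, hN⟩ : ∃ z, z = sgr T.un (P.Z G1 G2 ρ a ^ 2 + 3 / 4 * P.yt ρ a ^ 2 - T.rU) := ⟨_, rfl⟩
  rw [← hXm] at eXm
  rw [← hXv] at eXn
  rw [← hym] at Y1
  rw [← hyv] at Yn
  have eY0 := enc_add (enc_bmT T.sa T.ah Y1) (enc_gmT T eXm)
  have eg := enc_half (enc_add (enc_sub (enc_mn eXm Yn) (enc_mn eXn Y1)) (enc_one E))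
  have eX0 := enc_sub (enc_bmT T.sa T.ah eXm) (enc_gmT T (enc_p34 Y1))
  have g0 := ppos_sound eg tg
  rw [show sgr T.sa ((T.ah : ℝ) / 2) = T.α from rfl] at eY0 eX0
  rw [← hY0] at eY0
  rw [← hX0] at eX0
  rw [← hg] at eg g0
  have qm : Xm ^ 2 + 3 / 4 * ym ^ 2 = T.rm := by
    rw [hXm, hym]
    unfold Cp.X1
    rw [sgr_sq]
    exact H.qm
  have qn : Xv ^ 2 + 3 / 4 * yv ^ 2 = T.rn := by
    rw [hXv, hyv]
    unfold Cp.Xn
    rw [sgr_sq]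
    exact H.qn
  have hz2 : P.Z G1 G2 ρ a ^ 2 = (cond P.fam (Xm + Xv) (Xv - Xm)) ^ 2 := by
    unfold Cp.Z
    rw [sgr_sq, hXm, hXv]
    rfl
  rw [← hym, ← hyv] at yte
  obtain ⟨gD, gE⟩ := tgt_geo hT qm qn hX0 hY0 hz2 yte hN hg g0.ne'
  have eig := enc_inv eg
  have eXb := enc_add eXn eX0
  have eD : Enc E _ (sgr (T.ns P.fam) (1 / 3 * ((Xv + X0) * g⁻¹))) :=
    enc_sg (T.ns P.fam) (enc_cast (enc_scale 1 3 (enc_mn eXb eig))
      (show ((1 : ℕ) : ℝ) / (3 : ℕ) * ((Xv + X0) * g⁻¹) = 1 / 3 * ((Xv + X0) * g⁻¹) by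
        push_cast; ring))
  have eE : Enc E _ (sgr (T.ns P.fam)
      (1 / 6 * ((Xm * (Xv + X0) + 3 / 4 * (ym * (yv + Y0))) * g⁻¹))) :=
    enc_sg (T.ns P.fam) (enc_cast (enc_scale 1 6 (enc_mn (enc_add (enc_mn eXm eXb)
      (enc_p34 (enc_mn Y1 (enc_add Yn eY0)))) eig))
      (show ((1 : ℕ) : ℝ) / (6 : ℕ) * ((Xm * (Xv + X0) + 3 / 4 * (ym * (yv + Y0))) * g⁻¹) =
        1 / 6 * ((Xm * (Xv + X0) + 3 / 4 * (ym * (yv + Y0))) * g⁻¹) by push_cast; ring))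
  obtain ⟨D, hD⟩ : ∃ z, z = sgr (T.ns P.fam) (1 / 3 * ((Xv + X0) * g⁻¹)) := ⟨_, rfl⟩
  obtain ⟨E', hE'⟩ : ∃ z, z = sgr (T.ns P.fam)
    (1 / 6 * ((Xm * (Xv + X0) + 3 / 4 * (ym * (yv + Y0))) * g⁻¹)) := ⟨_, rfl⟩
  rw [← hD] at eD gD
  rw [← hE'] at eE gE
  -- the third side
  have eYt0 := enc_th P.fam Y1 eY0
  obtain ⟨yt, hyt⟩ : ∃ z, z = P.yt ρ a := ⟨_, rfl⟩
  obtain ⟨Z, hZZ⟩ : ∃ z, z = P.Z G1 G2 ρ a := ⟨_, rfl⟩
  obtain ⟨Yt0, hYt0⟩ : ∃ z, z = cond P.fam (ym + Y0) (Y0 - ym) := ⟨_, rfl⟩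
  rw [← hYt0] at eYt0
  rw [← hyt] at Yt yte hN i1 i2 fa fb ga gb
  rw [← hZZ] at eZ zpos hN i1 i2 fa fb ga gb
  have dYt : yt - Yt0 = N * D := by
    rw [yte, hYt0]
    cases P.fam
    · simp only [cond_false]
      linarith
    · simp only [cond_true]
      linarith
  have HY0 : T.Y0 P G1 ρ a = Y0 := by rw [hY0, hXm, hym]; rfl
  have HYt : T.Yt P G1 ρ a = Yt0 := by
    unfold Tp.Yt
    rw [HY0, hYt0, hym]
  have Hqt := H.qt
  have Hpos := H.pos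
  have Hid1 := H.id1
  have Hidk := H.idk
  have Hidl := H.idl
  rw [← hyt] at Hqt Hpos
  rw [HY0, ← hym] at Hid1 Hidk Hidl
  rw [HYt] at Hidk Hidl
  obtain ⟨zdiff, N0'⟩ := tgt_z Hqt Hpos zpos hN (by
    cases hu : T.un
    · rw [hu] at hGT
      simp only [cond_false] at hGT
      rw [hGT]
      exact i2
    · rw [hu] at hGT
      simp only [cond_true] at hGT
      rw [hGT]
      exact i1)
  have fT : T' = GT.kv yt x + gK * (Z - GT.xv yt) := by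
    rw [hGT]
    cases T.un
    · exact fb
    · exact fa
  have gT : TL = GT.lv yt x + gL * (Z - GT.xv yt) := by
    rw [hGT]
    cases T.un
    · exact gb
    · exact ga
  obtain ⟨⟨kn, kn1, kn2⟩, ⟨ln, ln1, ln2⟩⟩ := G2.dslopes Yn eY0 eD hX gD
  obtain ⟨⟨kt, kt1, kt2⟩, ⟨lt, lt1, lt2⟩⟩ := GT.dslopes Yt eYt0 eD hX dYt
  have exT : Enc E (GT.xV (padd (pnc P.mt) (pmn R (sl P.fam (cdT3 P.cn A) (cdT2 P.cn A)))))
      (GT.xv yt) := GT.nd.X.enc (enc_cA _ Yt)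
  have eiz := enc_sg T.un (enc_inv (enc_add eZ exT))
  have eR1 : Enc E (sg P.t1 (G1.kV (padd (pnc P.m1) (pmn R (cdT1 P.cn A))) X))
      (sgr P.t1 (G1.kv ym x)) := enc_sg P.t1 (G1.nd.K.enc (enc_cA _ Y1) hX)
  obtain ⟨iz, hiz⟩ : ∃ z, z = sgr T.un (Z + GT.xv yt)⁻¹ := ⟨_, rfl⟩
  rw [← hiz] at eiz zdiff
  have ert := enc_sg P.tt (enc_add kt1 (enc_mn e1 eiz))
  have elt := enc_sg P.tt (enc_add lt1 (enc_mn e2 eiz))
  have vn : sgr P.tn (G2.kv yv x) = sgr P.tn (G2.kv Y0 x) + N * sgr P.tn kn := by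
    rw [← sgr_mul, ← sgr_add]
    congr 1
    linarith
  have wn : sgr P.tn (G2.lv yv x) = sgr P.tn (G2.lv Y0 x) + N * sgr P.tn ln := by
    rw [← sgr_mul, ← sgr_add]
    congr 1
    linarith
  have vt : sgr P.tt T' = sgr P.tt (GT.kv Yt0 x) + N * sgr P.tt (kt + gK * iz) := by
    rw [← sgr_mul, ← sgr_add, fT, zdiff]
    congr 1
    linear_combination kt2
  have wt : sgr P.tt TL = sgr P.tt (GT.lv Yt0 x) + N * sgr P.tt (lt + gL * iz) := by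
    rw [← sgr_mul, ← sgr_add, gT, zdiff]
    congr 1
    linear_combination lt2
  -- the conclusion
  unfold Cp.Concl
  unfold levR
  simp only [cond_true]
  have hu : ρ * cd1 P.cn a = ym - P.m1 := by rw [hym, d1]
  have hmm := hP.m
  have exe : exn' (P.X1 G1 ρ a) (cond P.fam (P.Xt G1 G2 ρ a) (P.Xn G2 ρ a)) (P.y1 ρ a)
      (P.y1 ρ a + cond P.fam (P.yn ρ a) (P.yt ρ a)) = N * E' := by
    rw [← gE]
    unfold exn' Cp.Xt
    rw [← hXm, ← hXv, ← hym, ← hyv, ← hyt, yte]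
    cases P.fam
    · simp only [cond_false]
      ring
    · simp only [cond_true]
      ring
  rw [exe]
  rw [← hym, ← hyv]
  obtain ⟨v0, hv0⟩ : ∃ v0, v0 = ρ * cd2 P.cn a - N * D := ⟨_, rfl⟩
  have hv : cond P.fam (yv - P.mn) (yt - P.mt) = ρ * cd2 P.cn a := by
    rw [hyv, hyt]
    unfold Cp.yn Cp.yt
    cases P.fam
    · simp only [cond_false]
      ring
    · simp only [cond_true]
      ring
  have vv : ρ * cd2 P.cn a = v0 + N * D := by rw [hv0]; ring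
  have U1 := enc_mn hR C1
  have V1 := enc_mn hR C2
  have ern := enc_sg P.tn kn1
  have eln := enc_sg P.tn ln1
  refine tgtF_sound hP.six (fam := P.fam) (K20 := cond P.fam (sgr P.tn (G2.kv Y0 x))
    (sgr P.tt (GT.kv Yt0 x))) (v0 := v0) B hρ hR hA hX U1 V1 eD eE eR1 ern ert eln elt
    rfl rfl rfl N0' rfl vv ?_ ?_ ?_ ?_ hk
  · cases hf : P.fam
    · simp only [cond_false]
      exact vt
    · simp only [cond_true]
      exact vn
  · cases hf : P.fam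
    · rw [hf] at Hidk
      simp only [cond_false] at Hidk ⊢
      rw [vt, vn, Hidk]
      ring
    · rw [hf] at Hidk
      simp only [cond_true] at Hidk ⊢
      rw [vt, vn, Hidk]
      ring
  · rw [hv0, ← hv, hu]
    cases hf : P.fam
    · rw [hf] at Hidk hYt0 hmm
      simp only [cond_false] at Hidk hYt0 hmm ⊢
      rw [Hidk]
      have e : yt - N * D = Y0 - ym := by rw [← dYt, hYt0]; ring
      linear_combination Hid1 + sgr P.t1 (G1.kv ym x) * e - sgr P.t1 (G1.kv ym x) * hmm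
    · simp only [cond_true]
      have e : yv - N * D = Y0 := by rw [← gD]; ring
      linear_combination Hid1 + sgr P.t1 (G1.kv ym x) * e
  · cases hf : P.fam
    · rw [hf] at Hidl
      simp only [cond_false] at Hidl ⊢
      rw [wt, wn, Hidl]
      ring
    · rw [hf] at Hidl
      simp only [cond_true] at Hidl ⊢
      rw [wt, wn, Hidl]
      ring

/-! ### Both tests -/

/-- the test of a leaf, next to a tight triangle or not -/
noncomputable def corX (N0 : ℕ) (C0 : Fn1) (P : Cp) (T : Tp) (G1 G2 Ga Gb GT : Gn)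
    (lo up : Bool) (h R A X : ℕ) : Bool :=
  Bool.rec (motive := fun _ => Bool) (corT true N0 C0 P G1 G2 Ga Gb lo up h R A X)
    (corG P T G1 G2 Ga Gb GT lo up h R A X) (Nat.beq (Nat.land h 3) 3)

/-- **From the certificate of a chart to its statement**, far vertex with a tight triangle. -/
theorem corX_cert {N0 : ℕ} {C0 : Fn1} {P : Cp} (hP : P.Ok) {T : Tp} (hT : T.Ok P.fam)
    {G1 G2 Ga Gb GT : Gn} {lo up : Bool} {Wr Px Wx : ℕ} {ρ a x : ℝ} (B : CRng ρ a x) (hρ : 0 < ρ)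
    (h1 : G1.At P.m1 ((P.h1 : ℝ) / 2) (C0.v x) x) (h2 : G2.At P.mn ((P.hn : ℝ) / 2) (C0.v x) x)
    (ha : lo = true → Ga.At P.mt ((P.ht : ℝ) / 2) (C0.v x) x)
    (hb : up = true → Gb.At P.mt ((P.ht : ℝ) / 2) (C0.v x) x) (hGT : GT = cond T.un Ga Gb)
    (H : TgH P T G1 G2 GT ρ a x)
    (hr : ρ ≤ (Wr : ℝ) / S) (hx : (Px : ℝ) / S ≤ x) (hx' : x ≤ ((Px : ℝ) + Wx) / S)
    (ht : ∃ t, chk3 (onCell 0 Wr 0 1073741824 Px Wx
      (corX N0 C0 P T G1 G2 Ga Gb GT lo up)) t 1 1 1 = true) :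
    P.Stm G1 G2 Ga Gb ρ a x true N0 lo up := by
  have key := onCell_sound (Q := fun r b z => CRng r b z → 0 < r →
    G1.At P.m1 ((P.h1 : ℝ) / 2) (C0.v z) z → G2.At P.mn ((P.hn : ℝ) / 2) (C0.v z) z →
    (lo = true → Ga.At P.mt ((P.ht : ℝ) / 2) (C0.v z) z) →
    (up = true → Gb.At P.mt ((P.ht : ℝ) / 2) (C0.v z) z) → TgH P T G1 G2 GT r b z →
    P.Stm G1 G2 Ga Gb r b z true N0 lo up) (f := corX N0 C0 P T G1 G2 Ga Gb GT lo up)
    (fun hR hA hX ht B hρ h1 h2 ha hb H => by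
      unfold corX at ht
      rcases brec ht with ht | ht
      · exact corT_sound hP B hρ hR hA hX h1 h2 ha hb ht
      · exact corG_sound hP hT B hρ hR hA hX h1 h2 ha hb hGT H ht) ht
    (p := ρ) (q := a) (x := x) (by simpa using B.ρ0) (by simpa using hr) (by simpa using B.a0)
    (by
      have : ((0 : ℕ) : ℝ) + ((1073741824 : ℕ) : ℝ) = (S : ℝ) := by unfold S; push_cast; ring
      rw [this, div_self (by exact_mod_cast hS.ne')]
      exact B.a1) hx hx'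
  exact key B hρ h1 h2 ha hb H

end Pool.Agent.Strip051.PB
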