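import Pool.Agent.Strip051.PB.DgS

/-! # The corner `(1, 1, 2)`: the middle-bottom side on the unit circle, the top-middle side on a
left curve -/

set_option linter.unusedSimpArgs false

namespace Pool.Agent.Strip051.PB.Dg

open Pool.Agent.Strip051.PB
open Pool.Agent.StripNear Pool.Agent.StripSquare Pool.Agent.Strip051.Sweep
open Pool.Agent.Strip051.LC

attribute [local irreducible] padd psub pneg pmul psq pinv psqrt psqrtg pabs pps pmax pmin pphi plam
  pcase phf pnat prat pscale pnorm pdc pnc pone ppos pnn Enc pbad pzero phull pnp pflat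

/-- The numbers of a row. -/
structure DtC where
  (far : Bool)
  (N0 : ℕ)
  (v w x p q c0 r1 CK rw rv l1 CL lW lV ew ev : ℝ)

namespace DtC

variable (D : DtC)

noncomputable def s : ℝ := D.w + D.v
noncomputable def y : ℝ := 1 - D.s
noncomputable def y' : ℝ := 1 + D.v
noncomputable def R1 : ℝ := D.c0 / 2 + D.s * D.r1
noncomputable def R2 : ℝ := -(D.c0 / 2 + D.v * D.CK)
noncomputable def R3 : ℝ := D.w * D.rw + D.v * D.rv
noncomputable def L1 : ℝ := D.s * D.l1
noncomputable def L2 : ℝ := D.v * D.CL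
noncomputable def L3 : ℝ := D.w * D.lW + D.v * D.lV
noncomputable def ex : ℝ := D.w * D.ew + D.v * D.ev
noncomputable def dw : ℝ := D.rw - D.r1
noncomputable def dv : ℝ := D.rv - D.r1 + D.CK
noncomputable def lam (sg : Bool) : ℝ := cond sg D.v D.w
noncomputable def W (sg bd : Bool) : ℝ := (1 - (D.v + D.w)) * cond bd
  (D.x * (1 + (D.v + D.w)) - D.lam sg) (1 - (D.x * (1 + (D.v + D.w)) - D.lam sg))
noncomputable def pb (bd : Bool) : ℝ := cond bd D.p D.q
noncomputable def sn (s : Bool) (z : ℝ) : ℝ := cond s z (-z)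
noncomputable def mw : ℝ := D.l1 - D.lW
noncomputable def mv : ℝ := D.l1 + D.CL - D.lV
noncomputable def Kw (lv : Bool) : ℝ :=
  cond D.far (sn lv (D.mw / 2)) (mun D.N0 D.x / 2 * cond lv
    ((D.N0 + D.x) * D.mw - (D.y * D.l1 - (2 - D.w) * D.lW))
    ((2 * D.y' + D.y) * D.l1 - (2 - D.w) * D.lW - (D.N0 + D.x) * D.mw))
noncomputable def Kv (lv : Bool) : ℝ :=
  cond D.far (sn lv (D.mv / 2)) (mun D.N0 D.x / 2 * cond lv
    ((D.N0 + D.x) * D.mv - (D.y * D.l1 + (2 * D.y + D.y') * D.CL - (2 - D.w) * D.lV))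
    (D.y' * D.CL + (2 * D.y' + D.y) * D.l1 - (2 - D.w) * D.lV - (D.N0 + D.x) * D.mv))
noncomputable def Fw (lv sg bd : Bool) : ℝ :=
  D.ew + D.Kw lv - D.pb bd * (sn bd D.R2 + sn sg (D.dw * D.W sg bd))
noncomputable def Fv (lv sg bd : Bool) : ℝ :=
  D.ev + D.Kv lv - D.pb bd * (sn bd D.R3 + sn sg (D.dv * D.W sg bd))
noncomputable def F (lv sg bd : Bool) : ℝ := D.w * D.Fw lv sg bd + D.v * D.Fv lv sg bd

variable {D}

theorem lvl_eq (lv : Bool) :
    lvl D.far D.N0 D.x D.y D.y' D.L1 D.L2 D.L3 lv = D.w * D.Kw lv + D.v * D.Kv lv := by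
  unfold lvl Kw Kv
  rcases D with ⟨far, N0, v, w, x, p, q, c0, r1, CK, rw, rv, l1, CL, lW, lV, ew, ev⟩
  cases far <;> cases lv <;>
    simp only [cond_true, cond_false, sn, levn, levm, y, y', s, mw, mv, L1, L2, L3] <;> ring

/-- The assumptions on the numbers of a row. -/
structure Ok (D : DtC) (k : ℝ) : Prop where
  hv : 0 ≤ D.v
  hw : 0 ≤ D.w
  hx : 0 ≤ D.x
  hx1 : D.x ≤ 1
  h1 : D.v + D.w ≤ 1
  hk : 0 ≤ k
  hp : k * (1 - D.x) = 2 * D.p
  hq : k * D.x = 2 * D.q

theorem lins {k : ℝ} (H : ∀ lv sg bd, 0 ≤ D.F lv sg bd) (lv : Bool) :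
    LinC D.x D.v (D.v + D.w) D.p D.q (D.v * D.R3 + D.w * D.R2) (D.R3 - D.R1 - D.R2)
      (D.ex + lvl D.far D.N0 D.x D.y D.y' D.L1 D.L2 D.L3 lv) ∧
    LinC D.x D.w (D.v + D.w) D.p D.q (D.v * D.R3 + D.w * D.R2) (-(D.R3 - D.R1 - D.R2))
      (D.ex + lvl D.far D.N0 D.x D.y D.y' D.L1 D.L2 D.L3 lv) := by
  have e1 : ∀ sg bd, D.pb bd * (sn bd (D.v * D.R3 + D.w * D.R2) +
      sn sg (D.R3 - D.R1 - D.R2) * D.W sg bd) ≤
      D.ex + lvl D.far D.N0 D.x D.y D.y' D.L1 D.L2 D.L3 lv := by
    intro sg bd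
    have h := H lv sg bd
    rw [lvl_eq lv]
    rw [← sub_nonneg]
    refine h.trans (le_of_eq ?_)
    unfold F Fw Fv
    cases bd <;> cases sg <;> simp only [sn, cond_true, cond_false, R1, R2, R3, DtC.ex, dw, dv,
      pb, s] <;> ring
  refine ⟨⟨?_, ?_⟩, ⟨?_, ?_⟩⟩
  · refine le_trans (le_of_eq ?_) (e1 true true)
    simp only [pb, sn, cond_true, W, lam]
    ring
  · refine le_trans (le_of_eq ?_) (e1 true false)
    simp only [pb, sn, cond_true, cond_false, W, lam]
    ring
  · refine le_trans (le_of_eq ?_) (e1 false true)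
    simp only [pb, sn, cond_true, cond_false, W, lam]
    ring
  · refine le_trans (le_of_eq ?_) (e1 false false)
    simp only [pb, sn, cond_false, W, lam]
    ring

/-- **The row** from the eight inequalities. -/
theorem con (O : D.Ok (ken D.x)) {X12 X13 : ℝ} (hE : D.ex = exn' X12 X13 D.y (D.y + D.y'))
    (H : ∀ lv sg bd, 0 ≤ D.F lv sg bd) :
    Con12 D.far D.N0 .npn D.y D.y' D.x X12 X13 D.R1 D.R2 D.R3 D.L1 D.L2 D.L3 := by
  obtain ⟨lv, hlv⟩ : ∃ lv, lvR D.far D.N0 D.x D.y D.y' D.ex D.L1 D.L2 D.L3 =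
      D.ex + lvl D.far D.N0 D.x D.y D.y' D.L1 D.L2 D.L3 lv := by
    rcases lvR_eq D.far D.N0 D.x D.y D.y' D.ex D.L1 D.L2 D.L3 with h | h
    · exact ⟨true, h⟩
    · exact ⟨false, h⟩
  obtain ⟨A, B⟩ := lins (k := ken D.x) H lv
  have eu : D.y - 1 = -D.s := by unfold y; ring
  have ev : D.y' - 1 = D.v := by unfold y'; ring
  have ew : D.y + D.y' - 2 = -D.w := by unfold y y' s; ring
  have hla1 : la1 .npn (-D.s) D.v (-D.w) = D.v := rfl
  have hla2 : la2 .npn (-D.s) D.v (-D.w) = D.w := by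
    show -(-D.w) = _
    ring
  have hom : lom .npn (-D.s) D.v (-D.w) D.R1 D.R2 D.R3 = D.v * D.R3 + D.w * D.R2 := by
    simp only [lom]
    ring
  rw [← hlv] at A B
  obtain ⟨γ, hγ⟩ := lin_slc (c := .npn) (R1 := D.R1) (R2 := D.R2) (R3 := D.R3)
    (ex := lvR D.far D.N0 D.x D.y D.y' D.ex D.L1 D.L2 D.L3) (p := D.p) (q := D.q) (k := ken D.x)
    (by decide) (by decide) O.hx O.hx1 (by rw [hla1]; exact O.hv) (by rw [hla2]; exact O.hw)
    (by rw [hla1, hla2]; exact O.h1) O.hk O.hp O.hq
    (fun _ => by rw [hla1, hla2, hom]; exact A) (fun _ => by rw [hla1, hla2, hom]; exact B)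
  refine ⟨γ, ?_⟩
  rw [levR_lvR, eu, ev, ew, ← hE]
  exact hγ

end DtC

/-! ### The functions -/

/-- the first part of an inequality -/
noncomputable def CwF (far lv sg bd : Bool) (p : Pm) (N : NdP) (T : Th) (C : CvP) : Fn3 :=
  match far, lv, sg, bd with
  | true, true, true, true => dgCFfwApA p N T C
  | true, true, true, false => dgCFfwApB p N T C
  | true, true, false, true => dgCFfwAmA p N T C
  | true, true, false, false => dgCFfwAmB p N T C
  | true, false, true, true => dgCFfwBpA p N T C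
  | true, false, true, false => dgCFfwBpB p N T C
  | true, false, false, true => dgCFfwBmA p N T C
  | true, false, false, false => dgCFfwBmB p N T C
  | false, true, true, true => dgCFnwApA p N T C
  | false, true, true, false => dgCFnwApB p N T C
  | false, true, false, true => dgCFnwAmA p N T C
  | false, true, false, false => dgCFnwAmB p N T C
  | false, false, true, true => dgCFnwBpA p N T C
  | false, false, true, false => dgCFnwBpB p N T C
  | false, false, false, true => dgCFnwBmA p N T C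
  | false, false, false, false => dgCFnwBmB p N T C

/-- the second part of an inequality -/
noncomputable def CvF (far lv sg bd : Bool) (p : Pm) (N : NdP) (T : Th) (C : CvP) : Fn3 :=
  match far, lv, sg, bd with
  | true, true, true, true => dgCFfvApA p N T C
  | true, true, true, false => dgCFfvApB p N T C
  | true, true, false, true => dgCFfvAmA p N T C
  | true, true, false, false => dgCFfvAmB p N T C
  | true, false, true, true => dgCFfvBpA p N T C
  | true, false, true, false => dgCFfvBpB p N T C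
  | true, false, false, true => dgCFfvBmA p N T C
  | true, false, false, false => dgCFfvBmB p N T C
  | false, true, true, true => dgCFnvApA p N T C
  | false, true, true, false => dgCFnvApB p N T C
  | false, true, false, true => dgCFnvAmA p N T C
  | false, true, false, false => dgCFnvAmB p N T C
  | false, false, true, true => dgCFnvBpA p N T C
  | false, false, true, false => dgCFnvBpB p N T C
  | false, false, false, true => dgCFnvBmA p N T C
  | false, false, false, false => dgCFnvBmB p N T C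

/-- the sum -/
noncomputable def CsF (far lv sg bd : Bool) (p : Pm) (N : NdP) (T : Th) (C : CvP) : Fn3 :=
  match far, lv, sg, bd with
  | true, true, true, true => dgCSfApA p N T C
  | true, true, true, false => dgCSfApB p N T C
  | true, true, false, true => dgCSfAmA p N T C
  | true, true, false, false => dgCSfAmB p N T C
  | true, false, true, true => dgCSfBpA p N T C
  | true, false, true, false => dgCSfBpB p N T C
  | true, false, false, true => dgCSfBmA p N T C
  | true, false, false, false => dgCSfBmB p N T C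
  | false, true, true, true => dgCSnApA p N T C
  | false, true, true, false => dgCSnApB p N T C
  | false, true, false, true => dgCSnAmA p N T C
  | false, true, false, false => dgCSnAmB p N T C
  | false, false, true, true => dgCSnBpA p N T C
  | false, false, true, false => dgCSnBpB p N T C
  | false, false, false, true => dgCSnBmA p N T C
  | false, false, false, false => dgCSnBmB p N T C

section

variable {far : Bool} {N0 : ℕ} {p : Pm} {T : Th} {N : NdP} {C : CvP} {t b x : ℝ}

/-- The numbers of a row from the parameters. -/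
noncomputable def dtC (far : Bool) (N0 : ℕ) (p : Pm) (N : NdP) (T : Th) (C : CvP) (t b x : ℝ) :
    DtC :=
  ⟨far, N0, dgCv.v t b, dgw.v t, x, dgp.v x, dgq1.v x, p.c0.v x, (dgCr1 p).v t b x,
    (dgCK p C).v t b x, (dgCrw p N T).v t b x, (dgCrv p T C).v t b x, (dgCl1 p).v t b x,
    (dgCL C).v t b x, (dgClw p N T).v t b x, (dgClv p T C).v t b x, dgCew.v t b,
    (dgCev C).v t b⟩

theorem CsF_v (far lv sg bd : Bool) : (CsF far lv sg bd p N T C).v t b x =
    dgtg.v t * (CwF far lv sg bd p N T C).v t b x + b * (CvF far lv sg bd p N T C).v t b x := by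
  cases far <;> cases lv <;> cases sg <;> cases bd <;> rfl

theorem CW_v : dgCWpA.v t b x = (dtC far N0 p N T C t b x).W true true ∧
    dgCWpB.v t b x = (dtC far N0 p N T C t b x).W true false ∧
    dgCWmA.v t b x = (dtC far N0 p N T C t b x).W false true ∧
    dgCWmB.v t b x = (dtC far N0 p N T C t b x).W false false := by
  refine ⟨?_, ?_, ?_, ?_⟩ <;>
    simp only [dtC, DtC.W, DtC.lam, dgCWpA, dgCWpB, dgCWmA, dgCWmB, dgCrr, cond_true,
      cond_false] <;> push_cast <;> ring

theorem CwF_v (hf : p.Fit far N0 x) (lv sg bd : Bool) : (CwF far lv sg bd p N T C).v t b x =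
    (dtC far N0 p N T C t b x).Fw lv sg bd := by
  obtain ⟨w1, w2, w3, w4⟩ := CW_v (far := far) (N0 := N0) (p := p) (T := T) (N := N) (C := C)
    (t := t) (b := b) (x := x)
  generalize hD : dtC far N0 p N T C t b x = D at *
  have e1 : D.R2 = (dgCR2 p C).v t b x := by
    rw [← hD]
    simp only [dtC, DtC.R2, dgCR2]
  have e2 : D.dw = (dgCdw p N T).v t b x := by
    rw [← hD]
    simp only [dtC, DtC.dw, dgCdw]
  have e3 : D.mw = (dgCmw p N T).v t b x := by
    rw [← hD]
    simp only [dtC, DtC.mw, dgCmw]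
  have e4 : D.l1 = (dgCl1 p).v t b x := by rw [← hD]; rfl
  have e5 : D.lW = (dgClw p N T).v t b x := by rw [← hD]; rfl
  have e6 : D.ew = dgCew.v t b := by rw [← hD]; rfl
  have e7 : D.y = dgCy1.v t b := by
    rw [← hD]
    simp only [dtC, DtC.y, DtC.s, dgCy1, dgCs]
    push_cast
    ring
  have e7' : D.y' = dgCy2.v t b := by
    rw [← hD]
    simp only [dtC, DtC.y', dgCy2]
    push_cast
    ring
  have e8 : 2 * dgCy2.v t b + dgCy1.v t b = dgCyq.v t b := by
    simp only [dgCyq]
    push_cast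
    ring
  have e9 : 2 - D.w = dgu.v t := by
    rw [← hD]
    simp only [dtC, dgu]
    push_cast
    ring
  have e10 : D.p = dgp.v x := by rw [← hD]; rfl
  have e11 : D.q = dgq1.v x := by rw [← hD]; rfl
  have e12 : D.far = far := by rw [← hD]; rfl
  have e13 : (D.N0 : ℝ) + D.x = p.nx.v x := by rw [hf.nx, ← hD]; rfl
  have e14 : mun D.N0 D.x = mun N0 x := by rw [← hD]; rfl
  cases far
  · have hm := hf.mu rfl
    cases lv <;> cases sg <;> cases bd <;>
      simp only [cond_true, cond_false, CwF, DtC.Fw, DtC.Kw, DtC.pb, DtC.sn, e1, e2, e3, e4, e5,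
        e6, e7, e7', e8, e9, e10, e11, e12, e13, e14, ← w1, ← w2, ← w3, ← w4, ← hm,
        dgCFnwApA, dgCFnwApB, dgCFnwAmA, dgCFnwAmB, dgCFnwBpA, dgCFnwBpB, dgCFnwBmA, dgCFnwBmB, dgCLnwA, dgCLnwB] <;>
      push_cast <;> ring
  · cases lv <;> cases sg <;> cases bd <;>
      simp only [cond_true, cond_false, CwF, DtC.Fw, DtC.Kw, DtC.pb, DtC.sn, e1, e2, e3,
        e6, e10, e11, e12, ← w1, ← w2, ← w3, ← w4, dgCFfwApA, dgCFfwApB, dgCFfwAmA, dgCFfwAmB, dgCFfwBpA, dgCFfwBpB, dgCFfwBmA, dgCFfwBmB, dgCLfwA, dgCLfwB] <;>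
      push_cast <;> ring

theorem CvF_v (hf : p.Fit far N0 x) (hw : dgw.v t = t * dgtg.v t) (lv sg bd : Bool) :
    (CvF far lv sg bd p N T C).v t b x = (dtC far N0 p N T C t b x).Fv lv sg bd := by
  obtain ⟨w1, w2, w3, w4⟩ := CW_v (far := far) (N0 := N0) (p := p) (T := T) (N := N) (C := C)
    (t := t) (b := b) (x := x)
  generalize hD : dtC far N0 p N T C t b x = D at *
  have e1 : D.R3 = (dgCR3 p N T C).v t b x := by
    rw [← hD]
    simp only [dtC, DtC.R3, dgCR3, hw, dgCv]
    ring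
  have e2 : D.dv = (dgCdv p T C).v t b x := by
    rw [← hD]
    simp only [dtC, DtC.dv, dgCdv]
  have e3 : D.mv = (dgCmv p T C).v t b x := by
    rw [← hD]
    simp only [dtC, DtC.mv, dgCmv]
  have e4 : D.l1 = (dgCl1 p).v t b x := by rw [← hD]; rfl
  have e5 : D.lV = (dgClv p T C).v t b x := by rw [← hD]; rfl
  have e5' : D.CL = (dgCL C).v t b x := by rw [← hD]; rfl
  have e6 : D.ev = (dgCev C).v t b := by rw [← hD]; rfl
  have e7 : D.y = dgCy1.v t b := by
    rw [← hD]
    simp only [dtC, DtC.y, DtC.s, dgCy1, dgCs]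
    push_cast
    ring
  have e7' : D.y' = dgCy2.v t b := by
    rw [← hD]
    simp only [dtC, DtC.y', dgCy2]
    push_cast
    ring
  have e8 : 2 * dgCy2.v t b + dgCy1.v t b = dgCyq.v t b := by
    simp only [dgCyq]
    push_cast
    ring
  have e8' : 2 * dgCy1.v t b + dgCy2.v t b = dgCyy.v t b := by
    simp only [dgCyy]
    push_cast
    ring
  have e9 : 2 - D.w = dgu.v t := by
    rw [← hD]
    simp only [dtC, dgu]
    push_cast
    ring
  have e10 : D.p = dgp.v x := by rw [← hD]; rfl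
  have e11 : D.q = dgq1.v x := by rw [← hD]; rfl
  have e12 : D.far = far := by rw [← hD]; rfl
  have e13 : (D.N0 : ℝ) + D.x = p.nx.v x := by rw [hf.nx, ← hD]; rfl
  have e14 : mun D.N0 D.x = mun N0 x := by rw [← hD]; rfl
  cases far
  · have hm := hf.mu rfl
    cases lv <;> cases sg <;> cases bd <;>
      simp only [cond_true, cond_false, CvF, DtC.Fv, DtC.Kv, DtC.pb, DtC.sn, e1, e2, e3, e4, e5,
        e5', e6, e7, e7', e8, e8', e9, e10, e11, e12, e13, e14, ← w1, ← w2, ← w3, ← w4, ← hm,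
        dgCFnvApA, dgCFnvApB, dgCFnvAmA, dgCFnvAmB, dgCFnvBpA, dgCFnvBpB, dgCFnvBmA, dgCFnvBmB, dgCLnvA, dgCLnvB] <;>
      push_cast <;> ring
  · cases lv <;> cases sg <;> cases bd <;>
      simp only [cond_true, cond_false, CvF, DtC.Fv, DtC.Kv, DtC.pb, DtC.sn, e1, e2, e3,
        e6, e10, e11, e12, ← w1, ← w2, ← w3, ← w4, dgCFfvApA, dgCFfvApB, dgCFfvAmA, dgCFfvAmB, dgCFfvBpA, dgCFfvBpB, dgCFfvBmA, dgCFfvBmB, dgCLfvA, dgCLfvB] <;>
      push_cast <;> ring

end

end Pool.Agent.Strip051.PB.Dg
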