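import Pool.Agent.Strip051.PB.Base
import Pool.Agent.Strip051.PB.Seg

/-! # Lemmas for the facts about a table -/

namespace Pool.Agent.Strip051.PB

open Pool.Agent.StripNear Pool.Agent.StripSquare Pool.Agent.Strip051.Sweep
open Pool.Agent.Strip051.LC

section

variable {x0 x1 v0 v1 X s : ℝ}

/-- On a segment, `X = x0 + L (x1 - x0)` with `L` the position in the segment. -/
theorem lam_X (h0 : x0 ≤ X) (h1 : X ≤ x1) : X = x0 + lam (X - x0) (x1 - x0) * (x1 - x0) := by
  have h := lin_seg (v0 := x0) (v1 := x1) h0 h1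
  unfold Lin at h
  rcases (h0.trans h1).eq_or_lt with g | g
  · have : X = x0 := le_antisymm (h1.trans g.ge) h0
    rw [this, ← g]
    ring
  · rw [h]
    field_simp
    ring

/-- A segment of the third side, by substitution. -/
theorem lin_of (h0 : x0 ≤ X) (h1 : X ≤ x1) (h : ∀ L : ℝ, lam (X - x0) (x1 - x0) = L →
    X = x0 + L * (x1 - x0) → s = v0 + L * (v1 - v0)) : Lin x0 x1 v0 v1 X s := by
  rw [h _ rfl (lam_X h0 h1)]
  exact lin_seg h0 h1

end

theorem on_lt {y : ℝ} (h : h0 * y < 1) : y < 11548 / 10000 := by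
  have h1 := h0_sq
  have h2 := h0_pos
  by_contra h'
  rw [not_lt] at h'
  have h3 : h0 * (11548 / 10000) ≤ h0 * y := mul_le_mul_of_nonneg_left h' h2.le
  nlinarith

theorem lt_off {y : ℝ} (h : 1 ≤ h0 * y) : 11547 / 10000 < y := by
  have h1 := h0_sq
  have h2 := h0_pos
  by_contra h'
  rw [not_lt] at h'
  have h3 : h0 * y ≤ h0 * (11547 / 10000) := mul_le_mul_of_nonneg_left h' h2.le
  nlinarith

theorem wn0 (y : ℝ) : Wn (decide (2 ≤ 0)) y = swn y + 1 / 2 := by simp [Wn]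
theorem wn1 (y : ℝ) : Wn (decide (2 ≤ 1)) y = swn y + 1 / 2 := by simp [Wn]
theorem wn2 (y : ℝ) : Wn (decide (2 ≤ 2)) y = swn y - 1 / 2 := by
  simp only [Wn]
  norm_num
  ring
theorem wn3 (y : ℝ) : Wn (decide (2 ≤ 3)) y = swn y - 1 / 2 := by
  simp only [Wn]
  norm_num
  ring

theorem c3n_zero : c3n 0 = Real.sqrt 3 := by
  unfold c3n
  norm_num

theorem c1n_two : c1n 2 = 0 := c1n_off (by nlinarith [h0_sq, h0_pos])

theorem off_y {y : ℝ} (h : 3 / 2 ≤ y) : 1 ≤ h0 * y := by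
  have h1 := h0_sq
  have h2 := h0_pos
  nlinarith

theorem on_half {y : ℝ} (h : y < 1) : h0 * y < 1 := by
  have h1 := h0_lt_one
  have h2 := h0_pos
  nlinarith

end Pool.Agent.Strip051.PB
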