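import Pool.Agent.Strip051.PB.BridgeE
import Pool.Agent.Strip051.PB.FactB
import Pool.Agent.Strip051.PB.ThirdM

/-! # Boxes of the coordinates, bounds, the row of the height one -/

namespace Pool.Agent.Strip051.PB

open Pool.Agent.StripNear Pool.Agent.StripSquare Pool.Agent.Strip051.Sweep
open Pool.Agent.Strip051.LC

theorem S_num : (S : ℝ) = 1073741824 := by norm_num [S]

section

variable {n : ℕ} {crd : Fin (n + 1) → ℕ → ℝ → ℝ} {j : Fin (n + 1)} {q W W' : ℕ}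

/-- The root interval contains the coordinates of all points. -/
def BoxC (crd : Fin (n + 1) → ℕ → ℝ → ℝ) (j : Fin (n + 1)) (q W W' : ℕ) : Prop :=
  ∀ y, OnC j q y → InRt W W' (crd j q y)

theorem inRt_of {lo hi p : ℝ} (h : lo ≤ p ∧ p ≤ hi) (h1 : (W : ℝ) ≤ lo * 1073741824)
    (h2 : hi * 1073741824 ≤ (W : ℝ) + W') : InRt W W' p := by
  obtain ⟨a, b⟩ := h
  unfold InRt
  rw [S_num]
  constructor
  · rw [div_le_iff₀ (by norm_num)]
    nlinarith
  · rw [le_div_iff₀ (by norm_num)]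
    nlinarith

theorem boxC_of {lo hi : ℝ} (h : ∀ y, OnC j q y → lo ≤ crd j q y ∧ crd j q y ≤ hi)
    (h1 : (W : ℝ) ≤ lo * 1073741824) (h2 : hi * 1073741824 ≤ (W : ℝ) + W') : BoxC crd j q W W' :=
  fun y hy => inRt_of (h y hy) h1 h2

theorem onC_rng {y : ℝ} (h : OnC j q y) : (q : ℝ) / 2 ≤ y ∧ y ≤ ((q : ℝ) + 1) / 2 :=
  ⟨h.1.lo, h.1.hi⟩

theorem at_main {P : Pos n} {nd : Node} {fK fL : Fin (n + 1) → ℕ → Fn2} {x y : ℝ}
    (hY : ∀ y, OnC j q y → nd.Y.v (crd j q y) = y)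
    (hX : ∀ y, OnC j q y → nd.X.v (crd j q y) = crv P j q y)
    (hK : nd.K = fK j q) (hL : nd.L = fL j q) (hy : OnC j q y) :
    At P (tbF fK crd) (tbF fL crd) nd j q y (crd j q y) x :=
  ⟨hY y hy, hX y hy, by rw [tbF_on hy, hK], by rw [tbF_on hy, hL]⟩

/-- A node in the coordinate of the tables. -/
theorem cov_main {P : Pos n} {nd : Node} {fK fL : Fin (n + 1) → ℕ → Fn2} {x : ℝ}
    (hY : ∀ y, OnC j q y → nd.Y.v (crd j q y) = y)
    (hX : ∀ y, OnC j q y → nd.X.v (crd j q y) = crv P j q y)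
    (hK : nd.K = fK j q) (hL : nd.L = fL j q) (b : BoxC crd j q W W') :
    Cov P (tbF fK crd) (tbF fL crd) nd j q W W' (fun _ => True) x := by
  intro y hy _
  exact ⟨_, at_main hY hX hK hL hy, b y hy⟩

/-- A variant of a node. -/
theorem cov_var {P : Pos n} {RK RL : Fin (n + 1) → ℕ → ℝ → ℝ → ℝ} {nd : Node} {x lo hi : ℝ}
    {V : ℝ → Prop} (p : ℝ → ℝ) (hA : ∀ y, OnC j q y → V y → At P RK RL nd j q y (p y) x)
    (hb : ∀ y, OnC j q y → V y → lo ≤ p y ∧ p y ≤ hi) (h1 : (W : ℝ) ≤ lo * 1073741824)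
    (h2 : hi * 1073741824 ≤ (W : ℝ) + W') : Cov P RK RL nd j q W W' V x :=
  fun y hy hv => ⟨_, hA y hy hv, inRt_of (hb y hy hv) h1 h2⟩

end

theorem c1n_half {y : ℝ} (h : 1 ≤ y) : 0 ≤ c1n y ∧ c1n y ≤ 1 / 2 := by
  refine ⟨Real.sqrt_nonneg _, ?_⟩
  unfold c1n
  rw [show (1 : ℝ) / 2 = Real.sqrt ((1 / 2) ^ 2) by rw [Real.sqrt_sq (by norm_num)]]
  exact Real.sqrt_le_sqrt (by nlinarith)

theorem c3n_box {y : ℝ} (h : 3 / 2 ≤ y) : 0 ≤ c3n y ∧ c3n y ≤ 11457 / 10000 := by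
  refine ⟨Real.sqrt_nonneg _, ?_⟩
  unfold c3n
  rw [show (11457 : ℝ) / 10000 = Real.sqrt ((11457 / 10000) ^ 2) by
    rw [Real.sqrt_sq (by norm_num)]]
  exact Real.sqrt_le_sqrt (by nlinarith)

/-- the test `|F| < 64` -/
noncomputable def bndR (F : Fn2) (_ A _ C : ℕ) : Bool :=
  band (ppos (psub (pnat 64 pone) (F.t A C))) (ppos (padd (F.t A C) (pnat 64 pone)))

theorem bnd_sound {F : Fn2} {P1 W1 P3 W3 : ℕ}
    (ht : ∃ t, chk3 (onCell P1 W1 0 0 P3 W3 (bndR F)) t 1 1 1 = true) {p x : ℝ}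
    (hp : (P1 : ℝ) / S ≤ p) (hp' : p ≤ ((P1 : ℝ) + W1) / S)
    (hx : (P3 : ℝ) / S ≤ x) (hx' : x ≤ ((P3 : ℝ) + W3) / S) : |F.v p x| ≤ 64 := by
  have key := onCell_sound (Q := fun p _ x => |F.v p x| ≤ 64) ?_ ht hp hp' (q := 0)
    (by norm_num) (by norm_num) hx hx'
  · exact key
  · intro E h A B C p q x h1 _ h3 hl
    obtain ⟨k1, k2⟩ := band_true hl
    have e := F.enc h1 h3
    have c := enc_nat 64 (enc_one E)
    have g1 := ppos_sound (enc_sub c e) k1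
    have g2 := ppos_sound (enc_add e c) k2
    push_cast at g1 g2
    rw [abs_le]
    constructor <;> linarith

/-- `0 ≤ c + μ v` -/
theorem one_of {c v x : ℝ} {N0 : ℕ} (hN : 1 ≤ N0) (hc : 0 ≤ c) (h : 0 ≤ v + N0 * c) :
    0 ≤ c + mun N0 x * v := by
  unfold mun
  have h1 : 0 ≤ c1n x := Real.sqrt_nonneg _
  have h2 : (1 : ℝ) ≤ N0 := by exact_mod_cast hN
  have h3 : 0 < (N0 : ℝ) + 2 * c1n x := by linarith
  rcases le_total 0 v with g | g
  · have : 0 ≤ 1 / ((N0 : ℝ) + 2 * c1n x) * v := by positivity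
    linarith
  · have h4 : c + 1 / ((N0 : ℝ) + 2 * c1n x) * v =
        (((N0 : ℝ) + 2 * c1n x) * c + v) / ((N0 : ℝ) + 2 * c1n x) := by
      field_simp
    rw [h4]
    apply div_nonneg _ h3.le
    nlinarith

/-- Full binary tree of depth `e` in the third coordinate. -/
def fullC : ℕ → T
  | 0 => T.l 0
  | e + 1 => T.c (fullC e) (fullC e)

/-- Full binary tree of depth `d` in the first coordinate and `e` in the third. -/
def fullT : ℕ → ℕ → T
  | 0, e => fullC e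
  | d + 1, e => T.a (fullT d e) (fullT d e)

end Pool.Agent.Strip051.PB
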