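import Pool.Agent.Strip051.PB.DgD
import Pool.Agent.Strip051.PB.FactC

/-! # Tools for the tables at the corner `(1, 1, 2)` -/

namespace Pool.Agent.Strip051.PB.Dg

open Pool.Agent.Strip051.PB
open Pool.Agent.StripNear Pool.Agent.StripSquare Pool.Agent.Strip051.Sweep
open Pool.Agent.Strip051.LC

/-- the distance behind a kink -/
noncomputable def mx (a b : ℕ) (h : ℝ) : ℝ := max (h - (a : ℝ) / b) 0

theorem pf_nil (h x : ℝ) : (pfn []).v h x = 0 := pfn_nil h x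

theorem pf_cons (a b : ℕ) (k g : Fn1) (l : List Knk) (h x : ℝ) :
    (pfn (⟨a, b, k, g⟩ :: l)).v h x =
      mx a b h * (k.v x + mx a b h * g.v x) + (pfn l).v h x := rfl

theorem mx_lo {a b : ℕ} {h : ℝ} (h' : h ≤ (a : ℝ) / b) : mx a b h = 0 :=
  max_eq_right (by linarith)

theorem mx_hi {a b : ℕ} {h : ℝ} (h' : (a : ℝ) / b ≤ h) : mx a b h = h - (a : ℝ) / b :=
  max_eq_left (by linarith)

/-! ### Ranges -/

section

variable {y h d H : ℝ}

theorem h1_rng (hq : InQ 1 y) (hy : |y - 1| < d) (hd : d ≤ 1 / 16) (hH : 7 / 4 * d ≤ H)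
    (hh : h = 1 / 2 - (3 / 4 * y - c1n y / 2)) : 0 ≤ h ∧ h ≤ H := by
  obtain ⟨h1, h2⟩ := abs_lt.1 hy
  have q2 := hq.2
  have q1 := hq.1
  have e1 := half_lt_c1 (y := y) (by linarith) q2
  have e2 := c1_tan (y := y) (by linarith) q2.le
  constructor
  · linarith
  · linarith

theorem h2_rng (hq : InQ 2 y) (hy : |y - 1| < d) (hd : d ≤ 1 / 16) (hH : 7 / 4 * d ≤ H)
    (hh : h = 1 / 2 - c1n y) : 0 ≤ h ∧ h ≤ H := by
  obtain ⟨h1, h2⟩ := abs_lt.1 hy
  have q1 := hq.1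
  have e1 : c1n y ≤ 1 / 2 := c1_le_half q1
  have e2 := c1_tan2 (v := y - 1) (by linarith) (by linarith)
  rw [show 1 + (y - 1) = y by ring] at e2
  constructor
  · linarith
  · linarith

theorem h3_rng {t : ℝ} (hq : InQ 3 y) (hy : |y - 2| < d) (ht : t = c3n y) (h0 : 0 < H)
    (h1 : H ≤ 1) (hH : d * (3 / 4 + H / 2) ≤ H ^ 2) (hh : h = t / 2 + (2 - y) / 4) :
    0 ≤ h ∧ h ≤ H := by
  obtain ⟨i1, i2⟩ := abs_lt.1 hy
  have q2 := hq.2
  have ht2 := tsq (by linarith [hq.1]) q2 ht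
  have t0 : 0 ≤ t := by
    rw [ht]
    exact c3n_nn y
  constructor
  · rw [hh]
    have : 0 ≤ (2 - y) / 4 := by linarith
    positivity
  · have w1 : (2 - y) * (3 / 4 + H / 2) ≤ H ^ 2 := by
      refine le_trans ?_ hH
      refine mul_le_mul_of_nonneg_right (by linarith) (by positivity)
    have w2 : 2 - y ≤ 4 / 3 * H ^ 2 := by nlinarith
    have w3 : 0 ≤ 2 * H - (2 - y) / 2 := by nlinarith
    have : t ≤ 2 * H - (2 - y) / 2 := by
      refine abs_le_of_sq_le_sq' (a := t) (b := 2 * H - (2 - y) / 2) ?_ w3 |>.2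
      nlinarith
    linarith

theorem dgws_v {v : ℝ} (h0 : 0 ≤ v) (h1 : v ≤ 1 / 8) : swn (1 + v) = 1 - v * dgws.v v := by
  have e : swn (1 + v) = √(1 - 3 / 4 * v ^ 2) := by
    unfold swn
    congr 1
    ring
  have hs : √(1 - 3 / 4 * v ^ 2) ^ 2 = 1 - 3 / 4 * v ^ 2 := Real.sq_sqrt (by nlinarith)
  have s0 := Real.sqrt_nonneg (1 - 3 / 4 * v ^ 2)
  have e2 : dgws.v v = 3 / 4 * v * (1 + √(1 - 3 / 4 * v ^ 2))⁻¹ := by
    simp only [dgws]
    push_cast
    ring_nf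
  rw [e, e2]
  obtain ⟨s, h⟩ : ∃ s, s = √(1 - 3 / 4 * v ^ 2) := ⟨_, rfl⟩
  rw [← h] at hs s0 ⊢
  have hne : 1 + s ≠ 0 := by positivity
  field_simp
  linear_combination 4 * hs

theorem on_h (h : y ≤ 17 / 16) (h' : 0 ≤ y) : h0 * y < 1 := by
  have h1 := h0_sq
  have h2 := h0_pos
  nlinarith

end

/-! ### The last segment -/

/-- The parameters of a table for the first vertex. -/
structure TgP (p : Pm) (x : ℝ) : Prop where
  c0 : p.c0.v x = 1
  k12 : p.k12.v x = p.k23.v x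
  k13 : p.k13.v x = p.k23.v x
  j12 : p.j12.v x = p.j23.v x
  j13 : p.j13.v x = p.j23.v x
  c12 : p.c12.v x = p.c23.v x
  c13 : p.c13.v x = p.c23.v x
  l12 : ∀ h, (pfn p.l12).v h x = (pfn p.l23).v h x
  l13 : ∀ h, (pfn p.l13).v h x = (pfn p.l23).v h x

section

variable {p : Pm} {A : Sd} {x : ℝ}

theorem dgCc_v (t : ℝ) : dgCc.v t = 1 := by
  show ((1 : ℕ) : ℝ) = 1
  norm_num

theorem dgz2_v (t x : ℝ) : dgz2.v t x = 0 := by
  show ((0 : ℕ) : ℝ) = 0
  norm_num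

theorem TgP.up (H : TgP p x) : Tg p (thUp A (dgSC p)) x := by
  refine ⟨H.c0, H.k12, H.k13, H.j12, H.j13, H.c12, H.c13, H.l12, H.l13, fun t b => ?_,
    fun t b => ?_⟩
  · show (dgr3c p).v t x - (thUp A (dgSC p)).gr.v t x * (dgCc.v t - b) = _
    rw [dgCc_v]
    ring
  · show (dgl3c p).v t x - (thUp A (dgSC p)).gl.v t x * (dgCc.v t - b) = _
    rw [dgCc_v]
    ring

theorem TgP.n (H : TgP p x) : Tg p (thN (dgSC p)) x := by
  refine ⟨H.c0, H.k12, H.k13, H.j12, H.j13, H.c12, H.c13, H.l12, H.l13, fun t b => ?_,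
    fun t b => ?_⟩
  · show (dgr3c p).v t x = (dgr3c p).v t x - (1 - b) * dgz2.v t x
    rw [dgz2_v]
    ring
  · show (dgl3c p).v t x = (dgl3c p).v t x - (1 - b) * dgz2.v t x
    rw [dgz2_v]
    ring

theorem btF {far : Bool} {T : Th} {A : Sd} : Bt false far p T A x :=
  ⟨fun h => absurd h (by decide), fun h => absurd h (by decide), fun h => absurd h (by decide),
    fun h => absurd h (by decide)⟩

theorem TgP.btU (H : TgP p x) (K : Kl p x) : Bt true true p (thUp A (dgSC p)) (dgSC p) x :=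
  ⟨fun _ => rfl, fun _ => H.up, fun _ => K, fun _ t => dgCc_v t⟩

theorem TgP.btN (H : TgP p x) (K : Kl p x) : Bt true true p (thN (dgSC p)) (dgSC p) x :=
  ⟨fun _ => rfl, fun _ => H.n, fun _ => K, fun _ t => dgCc_v t⟩

end

end Pool.Agent.Strip051.PB.Dg
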