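import Pool.Agent.Strip051.PB.Fn

/-! # Functions in the charts at the corner `(1, 1, 2)` (partly generated)

`p` are the parameters of a table, `T` the third side, `A`, `B` its end nodes, `N` the parameters of
a node curve in the quarter `3`, `C` of a left curve in the quarter `2`. -/

set_option linter.unusedVariables false

namespace Pool.Agent.Strip051.PB.Dg

open Pool.Agent.Strip051.PB

attribute [local irreducible] padd psub pneg pmul psq pinv psqrt psqrtg pabs pps pmax pmin pphi plam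
  pcase phf pnat prat pscale pnorm pdc pnc pone ppos pnn Enc pbad pzero phull pnp

/-- A function of four variables with its enclosure. -/
structure Fn4 where
  t : ℕ → ℕ → ℕ → ℕ → ℕ
  v : ℝ → ℝ → ℝ → ℝ → ℝ
  enc : ∀ {E : Pt} {A B C D : ℕ} {a b c d : ℝ}, Enc E A a → Enc E B b → Enc E C c → Enc E D d →
    Enc E (t A B C D) (v a b c d)

/-- A function of five variables with its enclosure. -/
structure Fn5 where
  t : ℕ → ℕ → ℕ → ℕ → ℕ → ℕ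
  v : ℝ → ℝ → ℝ → ℝ → ℝ → ℝ
  enc : ∀ {E : Pt} {A B C D F : ℕ} {a b c d f : ℝ}, Enc E A a → Enc E B b → Enc E C c →
    Enc E D d → Enc E F f → Enc E (t A B C D F) (v a b c d f)

/-- A function of seven variables with its enclosure. -/
structure Fn7 where
  t : ℕ → ℕ → ℕ → ℕ → ℕ → ℕ → ℕ → ℕ
  v : ℝ → ℝ → ℝ → ℝ → ℝ → ℝ → ℝ → ℝ
  enc : ∀ {E : Pt} {A B C D F G H : ℕ} {a b c d f g h : ℝ}, Enc E A a → Enc E B b → Enc E C c →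
    Enc E D d → Enc E F f → Enc E G g → Enc E H h → Enc E (t A B C D F G H) (v a b c d f g h)

/-- A kink at `a / b` with the jump `k` of the slope and the jump `2 g` of the curvature. -/
structure Knk where
  a : ℕ
  b : ℕ
  k : Fn1
  g : Fn1

/-- A left curve in the quarter `2` at the height `1 + v`. -/
structure CvP where
  xs : Fn1
  Bs : Fn2
  sX : Fn2

/-- A node curve in the quarter `3`. -/
structure NdP where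
  sc : Fn1
  Bv : Fn1
  Bm : Fn1
  Xv : Fn1
  Xm : Fn1

/-- An end node of the third side in the quarter `3`. -/
structure Sd where
  ch : Fn1
  r : Fn2
  l : Fn2

/-- The third side in the quarter `3`. -/
structure Th where
  r : Fn3
  l : Fn3
  gr : Fn2
  gl : Fn2

/-- The parameters of a table. -/
structure Pm where
  ma : Fn1
  mb : Fn1
  mu : Fn1
  nx : Fn1
  c0 : Fn1
  k12 : Fn1
  j12 : Fn1
  k23 : Fn1
  j23 : Fn1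
  k13 : Fn1
  j13 : Fn1
  ca : Fn1
  cb : Fn1
  c12 : Fn1
  c23 : Fn1
  c13 : Fn1
  sv : Fn1
  l12 : List Knk
  l23 : List Knk
  l13 : List Knk
  la : List Knk
  lb : List Knk
  l1 : List Knk
  l2 : List Knk
  cv : CvP
  x11 : Fn1
  x01 : Fn1
  K11 : Fn2
  K01 : Fn2
  L11 : Fn2
  L01 : Fn2

noncomputable def zr2 : Fn2 := ⟨_, _, fun _ _ => enc_pnc _ 0⟩
noncomputable def zr3 : Fn3 := ⟨_, _, fun _ _ _ => enc_pnc _ 0⟩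
noncomputable def ad2 (F G : Fn2) : Fn2 := ⟨_, _, fun h1 h2 => enc_add (F.enc h1 h2) (G.enc h1 h2)⟩
noncomputable def ad3 (F G : Fn3) : Fn3 :=
  ⟨_, _, fun h1 h2 h3 => enc_add (F.enc h1 h2 h3) (G.enc h1 h2 h3)⟩
noncomputable def nm2 (F : Fn2) : Fn2 := ⟨_, _, fun h1 h2 => enc_norm (F.enc h1 h2)⟩
noncomputable def qf1 (K : Knk) : Fn3 := ⟨_, _, fun h1 h2 h3 =>
  enc_case (enc_subr K.a K.b h1) (enc_pnc _ 0) (enc_mul (enc_norm (enc_mul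
    (enc_norm (enc_subr K.a K.b h1)) (enc_norm (enc_add (K.k.enc h3) (enc_mul
      (enc_norm (enc_subr K.a K.b h1)) (K.g.enc h3)))))) (enc_sq (enc_inv h2)))⟩
noncomputable def sf1 (K : Knk) : Fn3 := ⟨_, _, fun h1 h2 h3 =>
  enc_case (enc_subr K.a K.b h1) (enc_pnc _ 0) (enc_mul (enc_norm (enc_mul
    (enc_norm (enc_subr K.a K.b h1)) (enc_norm (enc_add (K.k.enc h3) (enc_mul
      (enc_norm (enc_subr K.a K.b h1)) (K.g.enc h3)))))) (enc_inv h2))⟩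
noncomputable def pf1 (K : Knk) : Fn2 := ⟨_, _, fun h1 h2 =>
  enc_mul (enc_pos (enc_subr K.a K.b h1)) (enc_norm (enc_add (K.k.enc h2) (enc_mul
    (enc_pos (enc_subr K.a K.b h1)) (K.g.enc h2))))⟩

/-- the sum of the kinks, divided by the square of the second argument -/
noncomputable def qfn (l : List Knk) : Fn3 :=
  List.rec (motive := fun _ => Fn3) zr3 (fun K _ r => ad3 (qf1 K) r) l
/-- the sum of the kinks, divided by the second argument -/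
noncomputable def sfn (l : List Knk) : Fn3 :=
  List.rec (motive := fun _ => Fn3) zr3 (fun K _ r => ad3 (sf1 K) r) l
/-- the sum of the kinks before the last normalisation -/
noncomputable def pfs (l : List Knk) : Fn2 :=
  List.rec (motive := fun _ => Fn2) zr2 (fun K _ r => ad2 (pf1 K) r) l
/-- the sum of the kinks -/
noncomputable def pfn (l : List Knk) : Fn2 := nm2 (pfs l)

noncomputable def dgg : Fn1 := ⟨_, _, fun h1 => (enc_scale 2 3 (enc_inv (enc_add (enc_pnc _ 1) (enc_sqrt (enc_sub (enc_pnc _ 1) (enc_scale 1 3 (enc_sq h1)))))))⟩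
noncomputable def dgtg : Fn1 := ⟨_, _, fun h1 => (enc_norm (enc_mul h1 (dgg.enc h1)))⟩
noncomputable def dgw : Fn1 := ⟨_, _, fun h1 => (enc_norm (enc_mul h1 (dgtg.enc h1)))⟩
noncomputable def dgu : Fn1 := ⟨_, _, fun h1 => (enc_norm (enc_sub (enc_pnc _ 2) (dgw.enc h1)))⟩
noncomputable def dgq : Fn2 := ⟨_, _, fun h1 h2 => (enc_norm (enc_sub (enc_pnc _ 3) (enc_mul (enc_sq h1) (enc_norm (enc_sub (enc_pnc _ 1) (enc_sq h2))))))⟩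
noncomputable def dgk : Fn2 := ⟨_, _, fun h1 h2 => (enc_sqrt (enc_mul (enc_norm (enc_sub (enc_pnc _ 4) (dgq.enc h1 h2))) (enc_inv (enc_nat 3 (dgq.enc h1 h2)))))⟩
noncomputable def dghc : Fn2 := ⟨_, _, fun h1 h2 => (enc_norm (enc_mul (enc_norm (enc_scale 4 9 (enc_add (enc_pnc _ 1) h2))) (enc_inv (enc_mul (dgq.enc h1 h2) (enc_norm (enc_add (dgk.enc h1 h2) (enc_rat _ 1 3)))))))⟩
noncomputable def dgh : Fn2 := ⟨_, _, fun h1 h2 => (enc_norm (enc_mul (enc_norm (enc_sub (enc_pnc _ 1) h2)) (dghc.enc h1 h2)))⟩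
noncomputable def dge12 : Fn2 := ⟨_, _, fun h1 h2 => (enc_norm (enc_add (enc_scale 1 4 (dgg.enc h1)) (enc_mul (dgh.enc h1 h2) (enc_norm (enc_add (enc_scale 3 8 (dgu.enc h1)) (enc_scale 3 4 (enc_mul h1 h2)))))))⟩
noncomputable def dgh1t : Fn2 := ⟨_, _, fun h1 h2 => (enc_norm (enc_add (enc_half h2) (enc_mul h1 (dge12.enc h1 h2))))⟩
noncomputable def dgh1 : Fn2 := ⟨_, _, fun h1 h2 => (enc_norm (enc_mul h1 (dgh1t.enc h1 h2)))⟩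
noncomputable def dge23 : Fn2 := ⟨_, _, fun h1 h2 => (enc_norm (enc_sub (enc_scale 1 4 (dgg.enc h1)) (enc_scale 3 4 (enc_mul (dgu.enc h1) (dgh.enc h1 h2)))))⟩
noncomputable def dgh2t : Fn2 := ⟨_, _, fun h1 h2 => (enc_norm (enc_add (enc_half h2) (enc_mul h1 (dge23.enc h1 h2))))⟩
noncomputable def dgh2 : Fn2 := ⟨_, _, fun h1 h2 => (enc_norm (enc_mul h1 (dgh2t.enc h1 h2)))⟩
noncomputable def dgat : Fn2 := ⟨_, _, fun h1 h2 => (enc_norm (enc_add (enc_half h2) (enc_mul h1 (enc_norm (enc_sub (enc_scale 3 4 (enc_mul (dgu.enc h1) (dgh.enc h1 h2))) (enc_scale 1 4 (dgg.enc h1)))))))⟩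
noncomputable def dgrho : Fn2 := ⟨_, _, fun h1 h2 => (enc_norm (enc_half (enc_mul (enc_norm (enc_sub (enc_sub (enc_mul (dgh.enc h1 h2) (enc_norm (enc_sub (enc_scale 3 8 (dgu.enc h1)) (enc_scale 3 4 (enc_mul h1 h2))))) (enc_half (dgg.enc h1))) (enc_nat 2 (enc_mul (dgat.enc h1 h2) (dgh1t.enc h1 h2))))) (enc_inv (enc_sub (enc_pnc _ 1) (dgh1.enc h1 h2))))))⟩
noncomputable def dgst : Fn2 := ⟨_, _, fun h1 h2 => (enc_norm (enc_add (enc_mul h2 (dgk.enc h1 h2)) (enc_half (dgtg.enc h1))))⟩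
noncomputable def dgvt : Fn2 := ⟨_, _, fun h1 h2 => (enc_norm (enc_sub (enc_mul h2 (dgk.enc h1 h2)) (enc_half (dgtg.enc h1))))⟩
noncomputable def dgs : Fn2 := ⟨_, _, fun h1 h2 => (enc_norm (enc_mul h1 (dgst.enc h1 h2)))⟩
noncomputable def dgv : Fn2 := ⟨_, _, fun h1 h2 => (enc_norm (enc_mul h1 (dgvt.enc h1 h2)))⟩
noncomputable def dgs1 : Fn2 := ⟨_, _, fun h1 h2 => (enc_norm (enc_add (enc_mul (enc_norm (enc_mul h1 h2)) (dgh.enc h1 h2)) (enc_half (dgg.enc h1))))⟩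
noncomputable def dgv1 : Fn2 := ⟨_, _, fun h1 h2 => (enc_norm (enc_sub (enc_mul (enc_norm (enc_mul h1 h2)) (dgh.enc h1 h2)) (enc_half (dgg.enc h1))))⟩
noncomputable def dgEq : Fn2 := ⟨_, _, fun h1 h2 => (enc_norm (enc_scale 1 6 (enc_mul (enc_norm (enc_mul (enc_norm (enc_add (enc_pnc _ 1) h2)) (enc_norm (enc_subn 1 (dgq.enc h1 h2))))) (enc_inv (enc_add (enc_pnc _ 1) (enc_mul (dgk.enc h1 h2) (dgq.enc h1 h2)))))))⟩
noncomputable def dgE2 : Fn2 := ⟨_, _, fun h1 h2 => (enc_norm (enc_mul (enc_norm (enc_sub (enc_pnc _ 1) h2)) (dgEq.enc h1 h2)))⟩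
noncomputable def dgH : Fn1 := ⟨_, _, fun h1 => (enc_norm (enc_add (enc_rat _ 1 2) (enc_scale 1 4 (dgtg.enc h1))))⟩
noncomputable def dgh3 : Fn1 := ⟨_, _, fun h1 => (enc_norm (enc_mul h1 (dgH.enc h1)))⟩
noncomputable def dges : Fn1 := ⟨_, _, fun h1 => (enc_norm (enc_subn 1 (enc_add (enc_half h1) (enc_sqrt (enc_sub (enc_pnc _ 1) (enc_scale 3 4 (enc_sq h1)))))))⟩
noncomputable def dgp : Fn1 := ⟨_, _, fun h1 => (enc_norm (enc_mul (dges.enc h1) (enc_inv h1)))⟩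
noncomputable def dgq1 : Fn1 := ⟨_, _, fun h1 => (enc_norm (enc_mul (dges.enc h1) (enc_inv (enc_sub (enc_pnc _ 1) h1))))⟩
noncomputable def dgLm : Fn2 := ⟨_, _, fun h1 h2 => (enc_norm (enc_add (dgvt.enc h1 h2) (dgtg.enc h1)))⟩
noncomputable def dgtLm : Fn2 := ⟨_, _, fun h1 h2 => (enc_norm (enc_mul h1 (dgLm.enc h1 h2)))⟩
noncomputable def dgxLL : Fn3 := ⟨_, _, fun h1 h2 h3 => (enc_mul h3 (enc_norm (enc_mul (dgtLm.enc h1 h2) (dgLm.enc h1 h2))))⟩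
noncomputable def dglap : Fn2 := ⟨_, _, fun h1 h2 => (enc_norm (enc_mul (dgvt.enc h1 h2) (enc_norm (enc_sub (enc_pnc _ 1) (dgtLm.enc h1 h2)))))⟩
noncomputable def dgwpA : Fn3 := ⟨_, _, fun h1 h2 h3 => (enc_neg (enc_add (dgxLL.enc h1 h2 h3) (dglap.enc h1 h2)))⟩
noncomputable def dgwpB : Fn3 := ⟨_, _, fun h1 h2 h3 => (enc_add (enc_sub (dgxLL.enc h1 h2 h3) (dgLm.enc h1 h2)) (dglap.enc h1 h2))⟩
noncomputable def dgWpA : Fn3 := ⟨_, _, fun h1 h2 h3 => (enc_add h3 (enc_mul h1 (enc_norm (dgwpA.enc h1 h2 h3))))⟩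
noncomputable def dgWpB : Fn3 := ⟨_, _, fun h1 h2 h3 => (enc_add (enc_sub (enc_pnc _ 1) h3) (enc_mul h1 (enc_norm (dgwpB.enc h1 h2 h3))))⟩
noncomputable def dglam : Fn2 := ⟨_, _, fun h1 h2 => (enc_norm (enc_mul (dgtg.enc h1) (enc_norm (enc_sub (enc_pnc _ 1) (dgtLm.enc h1 h2)))))⟩
noncomputable def dgwmA : Fn3 := ⟨_, _, fun h1 h2 h3 => (enc_neg (enc_add (dgxLL.enc h1 h2 h3) (dglam.enc h1 h2)))⟩
noncomputable def dgwmB : Fn3 := ⟨_, _, fun h1 h2 h3 => (enc_add (enc_sub (dgxLL.enc h1 h2 h3) (dgLm.enc h1 h2)) (dglam.enc h1 h2))⟩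
noncomputable def dgWmA : Fn3 := ⟨_, _, fun h1 h2 h3 => (enc_add h3 (enc_mul h1 (enc_norm (dgwmA.enc h1 h2 h3))))⟩
noncomputable def dgWmB : Fn3 := ⟨_, _, fun h1 h2 h3 => (enc_add (enc_sub (enc_pnc _ 1) h3) (enc_mul h1 (enc_norm (dgwmB.enc h1 h2 h3))))⟩
noncomputable def dgy1 : Fn2 := ⟨_, _, fun h1 h2 => (enc_norm (enc_sub (enc_pnc _ 1) (dgs.enc h1 h2)))⟩
noncomputable def dgy2 : Fn2 := ⟨_, _, fun h1 h2 => (enc_norm (enc_add (enc_pnc _ 1) (dgv.enc h1 h2)))⟩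
noncomputable def dgyy : Fn2 := ⟨_, _, fun h1 h2 => (enc_norm (enc_add (enc_nat 2 (dgy1.enc h1 h2)) (dgy2.enc h1 h2)))⟩
noncomputable def dgyq : Fn2 := ⟨_, _, fun h1 h2 => (enc_norm (enc_add (enc_nat 2 (dgy2.enc h1 h2)) (dgy1.enc h1 h2)))⟩
noncomputable def dgxw : Fn1 := ⟨_, _, fun h1 => (enc_norm (enc_mul (enc_norm (enc_sub (enc_rat _ 3 2) (enc_scale 3 4 h1))) (enc_inv (enc_add (enc_rat _ 1 2) (enc_sqrt (enc_sub (enc_add (enc_rat _ 1 4) (enc_scale 3 2 h1)) (enc_scale 3 4 (enc_sq h1))))))))⟩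
noncomputable def dgxi : Fn1 := ⟨_, _, fun h1 => (enc_norm (enc_mul (enc_norm (enc_scale 3 4 (enc_add (enc_pnc _ 2) h1))) (enc_inv (enc_add (enc_rat _ 1 2) (enc_sqrt (enc_sub (enc_pnc _ 1) (enc_scale 3 4 (enc_sq (enc_norm (enc_add (enc_pnc _ 1) h1))))))))))⟩
noncomputable def dgws : Fn1 := ⟨_, _, fun h1 => (enc_norm (enc_mul (enc_scale 3 4 h1) (enc_inv (enc_add (enc_pnc _ 1) (enc_sqrt (enc_sub (enc_pnc _ 1) (enc_scale 3 4 (enc_sq h1))))))))⟩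
noncomputable def dgQ12 (p : Pm) : Fn3 := ⟨_, _, fun h1 h2 h3 => (enc_add (enc_mul (enc_sq (dgh1t.enc h1 h2)) (p.c12.enc h3)) ((qfn p.l12).enc (dgh1.enc h1 h2) h1 h3))⟩
noncomputable def dgQ23 (p : Pm) : Fn3 := ⟨_, _, fun h1 h2 h3 => (enc_add (enc_mul (enc_sq (dgh2t.enc h1 h2)) (p.c23.enc h3)) ((qfn p.l23).enc (dgh2.enc h1 h2) h1 h3))⟩
noncomputable def dgQb1 (p : Pm) : Fn3 := ⟨_, _, fun h1 h2 h3 => (enc_add (enc_mul (enc_sq (dgh1t.enc h1 h2)) (p.cb.enc h3)) ((qfn p.lb).enc (dgh1.enc h1 h2) h1 h3))⟩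
noncomputable def dgQab (p : Pm) : Fn3 := ⟨_, _, fun h1 h2 h3 => (enc_add (enc_mul (enc_sq (dgh2t.enc h1 h2)) (enc_norm (enc_add (p.ca.enc h3) (p.cb.enc h3)))) (enc_add ((qfn p.la).enc (dgh2.enc h1 h2) h1 h3) ((qfn p.lb).enc (dgh2.enc h1 h2) h1 h3)))⟩
noncomputable def dgQ13 (p : Pm) : Fn2 := ⟨_, _, fun h1 h2 => (enc_norm (enc_add (enc_mul (enc_sq (dgH.enc h1)) (p.c13.enc h2)) ((qfn p.l13).enc (dgh3.enc h1) h1 h2)))⟩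
noncomputable def dgQ3 (p : Pm) : Fn2 := ⟨_, _, fun h1 h2 => (enc_norm (enc_add (enc_mul (enc_sq (dgH.enc h1)) (enc_norm (enc_add (enc_nat 2 (p.cb.enc h2)) (p.ca.enc h2)))) (enc_add (enc_nat 2 ((qfn p.lb).enc (dgh3.enc h1) h1 h2)) ((qfn p.la).enc (dgh3.enc h1) h1 h2))))⟩
noncomputable def dgr11 (p : Pm) : Fn3 := ⟨_, _, fun h1 h2 h3 => (enc_sub (enc_sub (enc_mul (p.c0.enc h3) (dgrho.enc h1 h2)) (enc_mul (dgs1.enc h1 h2) (p.k12.enc h3))) (enc_mul (dgst.enc h1 h2) (enc_norm (enc_add (enc_mul (p.j12.enc h3) (dgh1t.enc h1 h2)) (enc_mul h1 (enc_norm ((dgQ12 p).enc h1 h2 h3)))))))⟩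
noncomputable def dgr21 (p : Pm) : Fn3 := ⟨_, _, fun h1 h2 h3 => (enc_add (enc_add (enc_mul (p.c0.enc h3) (dge23.enc h1 h2)) (enc_mul (dgv1.enc h1 h2) (p.k23.enc h3))) (enc_mul (dgvt.enc h1 h2) (enc_norm (enc_add (enc_mul (p.j23.enc h3) (dgh2t.enc h1 h2)) (enc_mul h1 (enc_norm ((dgQ23 p).enc h1 h2 h3)))))))⟩
noncomputable def dgl11 (p : Pm) : Fn3 := ⟨_, _, fun h1 h2 h3 => (enc_neg (enc_add (enc_mul (p.mb.enc h3) (dge12.enc h1 h2)) ((dgQb1 p).enc h1 h2 h3)))⟩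
noncomputable def dgl21 (p : Pm) : Fn3 := ⟨_, _, fun h1 h2 h3 => (enc_neg (enc_add (enc_mul (enc_norm (enc_add (p.ma.enc h3) (p.mb.enc h3))) (dge23.enc h1 h2)) ((dgQab p).enc h1 h2 h3)))⟩
noncomputable def dgr3c (p : Pm) : Fn2 := ⟨_, _, fun h1 h2 => (enc_norm (enc_neg (enc_add (enc_mul (p.c0.enc h2) (enc_norm (enc_scale 1 4 (enc_mul (enc_norm (enc_add (enc_pnc _ 1) (enc_half (dgtg.enc h1)))) (enc_inv (enc_sub (enc_pnc _ 1) (dgh3.enc h1))))))) (enc_mul (dgg.enc h1) (enc_norm (enc_add (enc_add (p.k13.enc h2) (enc_mul (p.j13.enc h2) (dgh3.enc h1))) (enc_mul (enc_sq h1) ((dgQ13 p).enc h1 h2))))))))⟩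
noncomputable def dgl3c (p : Pm) : Fn2 := ⟨_, _, fun h1 h2 => (enc_norm (enc_neg (enc_add (enc_scale 1 4 (enc_mul (enc_norm (enc_add (enc_nat 2 (p.mb.enc h2)) (p.ma.enc h2))) (dgg.enc h1))) ((dgQ3 p).enc h1 h2))))⟩
noncomputable def dga1c (p : Pm) : Fn1 := ⟨_, _, fun h1 => (enc_neg (enc_half (p.mb.enc h1)))⟩
noncomputable def dga2c (p : Pm) : Fn1 := ⟨_, _, fun h1 => (enc_norm (enc_neg (enc_half (enc_add (p.ma.enc h1) (p.mb.enc h1)))))⟩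
noncomputable def dga3c (p : Pm) : Fn1 := ⟨_, _, fun h1 => (enc_norm (enc_neg (enc_half (enc_add (enc_nat 2 (p.mb.enc h1)) (p.ma.enc h1)))))⟩
noncomputable def dgd0 (p : Pm) : Fn1 := ⟨_, _, fun h1 => (enc_norm (enc_scale 1 3 (enc_sub (p.k12.enc h1) (p.k23.enc h1))))⟩
noncomputable def dgK2c (p : Pm) : Fn2 := ⟨_, _, fun h1 h2 => (enc_norm (enc_sub (enc_half (p.cv.Bs.enc h1 h2)) (enc_mul (p.cv.xs.enc h1) (enc_norm (enc_add (p.c0.enc h2) (enc_mul h1 (p.cv.Bs.enc h1 h2)))))))⟩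
noncomputable def dgL2c (p : Pm) : Fn2 := ⟨_, _, fun h1 h2 => (enc_norm (enc_mul (enc_norm (enc_sub (enc_rat _ 1 2) (enc_mul h1 (p.cv.xs.enc h1)))) (p.cv.sX.enc h1 h2)))⟩
noncomputable def dghx : Fn1 := ⟨_, _, fun h1 => (enc_norm (enc_mul h1 (dgxi.enc h1)))⟩
noncomputable def dgK0c (p : Pm) : Fn2 := ⟨_, _, fun h1 h2 => (enc_norm (enc_neg (enc_add (enc_mul (p.c0.enc h2) (dgxi.enc h1)) (enc_add (enc_add (p.k23.enc h2) (enc_mul (p.j23.enc h2) (dghx.enc h1))) (enc_add (enc_mul (enc_sq (dghx.enc h1)) (p.c23.enc h2)) ((pfn p.l23).enc (dghx.enc h1) h2))))))⟩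
noncomputable def dgL0c (p : Pm) : Fn2 := ⟨_, _, fun h1 h2 => (enc_norm (enc_add (enc_mul (enc_norm (enc_add (p.ma.enc h2) (p.mb.enc h2))) (dgxi.enc h1)) (enc_add (enc_mul (dgxi.enc h1) (enc_norm (enc_mul (dghx.enc h1) (enc_norm (enc_add (p.ca.enc h2) (p.cb.enc h2)))))) (enc_add ((sfn p.la).enc (dghx.enc h1) h1 h2) ((sfn p.lb).enc (dghx.enc h1) h1 h2)))))⟩
noncomputable def dgix (p : Pm) : Fn1 := ⟨_, _, fun h1 => (enc_inv (enc_sub (dgxi.enc h1) (p.cv.xs.enc h1)))⟩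
noncomputable def dgG (p : Pm) : Fn3 := ⟨_, _, fun h1 h2 h3 => (enc_mul (enc_norm (enc_sub ((dgK2c p).enc (dgv.enc h1 h2) h3) ((dgK0c p).enc (dgv.enc h1 h2) h3))) ((dgix p).enc (dgv.enc h1 h2)))⟩
noncomputable def dggL (p : Pm) : Fn3 := ⟨_, _, fun h1 h2 h3 => (enc_mul (enc_norm (enc_sub ((dgL2c p).enc (dgv.enc h1 h2) h3) ((dgL0c p).enc (dgv.enc h1 h2) h3))) ((dgix p).enc (dgv.enc h1 h2)))⟩
noncomputable def dgdX (p : Pm) : Fn1 := ⟨_, _, fun h1 => (enc_norm (enc_sub (p.x11.enc h1) (p.x01.enc h1)))⟩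
noncomputable def dgiX (p : Pm) : Fn1 := ⟨_, _, fun h1 => (enc_inv ((dgdX p).enc h1))⟩
noncomputable def dgG1 (p : Pm) : Fn3 := ⟨_, _, fun h1 h2 h3 => (enc_mul (enc_norm (enc_sub (p.K11.enc (dgy1.enc h1 h2) h3) (p.K01.enc (dgy1.enc h1 h2) h3))) ((dgiX p).enc (dgy1.enc h1 h2)))⟩
noncomputable def dggL1 (p : Pm) : Fn3 := ⟨_, _, fun h1 h2 h3 => (enc_mul (enc_norm (enc_sub (p.L11.enc (dgy1.enc h1 h2) h3) (p.L01.enc (dgy1.enc h1 h2) h3))) ((dgiX p).enc (dgy1.enc h1 h2)))⟩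
noncomputable def dgLf (N : NdP) : Fn1 := ⟨_, _, fun h1 => (N.sc.enc (enc_norm (enc_mul (dgg.enc h1) (dgxw.enc (dgw.enc h1)))))⟩
noncomputable def dgLc (N : NdP) : Fn1 := ⟨_, _, fun h1 => (enc_norm (enc_mul h1 ((dgLf N).enc h1)))⟩
noncomputable def dgLB (N : NdP) : Fn2 := ⟨_, _, fun h1 h2 => (enc_norm (enc_sub (N.Bv.enc h2) (enc_mul (dgw.enc h1) (N.Bm.enc h2))))⟩
noncomputable def dgLX (N : NdP) : Fn2 := ⟨_, _, fun h1 h2 => (enc_norm (enc_sub (N.Xv.enc h2) (enc_mul (dgw.enc h1) (N.Xm.enc h2))))⟩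
noncomputable def dgLr (p : Pm) (N : NdP) : Fn2 := ⟨_, _, fun h1 h2 => (enc_norm (enc_mul ((dgLf N).enc h1) (enc_norm (enc_sub ((dgLB N).enc h1 h2) (enc_half (p.c0.enc h2))))))⟩
noncomputable def dgLl (p : Pm) (N : NdP) : Fn2 := ⟨_, _, fun h1 h2 => (enc_norm (enc_mul ((dgLf N).enc h1) (enc_norm (enc_sub ((dgLX N).enc h1 h2) ((dga3c p).enc h2)))))⟩
noncomputable def dgRc (N : NdP) : Fn1 := ⟨_, _, fun h1 => (N.sc.enc (enc_norm (enc_mul (dgtg.enc h1) (dgxw.enc (dgw.enc h1)))))⟩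
noncomputable def dgRr (N : NdP) : Fn2 := ⟨_, _, fun h1 h2 => (enc_norm (enc_neg (enc_mul ((dgRc N).enc h1) (enc_norm (enc_mul (dgtg.enc h1) (N.Bm.enc h2))))))⟩
noncomputable def dgRl (N : NdP) : Fn2 := ⟨_, _, fun h1 h2 => (enc_norm (enc_neg (enc_mul ((dgRc N).enc h1) (enc_norm (enc_mul (dgtg.enc h1) (N.Xm.enc h2))))))⟩
noncomputable def dgCc : Fn1 := ⟨_, _, fun h1 => (enc_pnc _ 1)⟩
noncomputable def dgti (A : Sd) (B : Sd) : Fn1 := ⟨_, _, fun h1 => (enc_inv (enc_sub (B.ch.enc h1) (A.ch.enc h1)))⟩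
noncomputable def dgtr (A : Sd) (B : Sd) : Fn2 := ⟨_, _, fun h1 h2 => (enc_norm (enc_mul (enc_norm (enc_sub (B.r.enc h1 h2) (A.r.enc h1 h2))) ((dgti A B).enc h1)))⟩
noncomputable def dgtl (A : Sd) (B : Sd) : Fn2 := ⟨_, _, fun h1 h2 => (enc_norm (enc_mul (enc_norm (enc_sub (B.l.enc h1 h2) (A.l.enc h1 h2))) ((dgti A B).enc h1)))⟩
noncomputable def dgTlr (A : Sd) (B : Sd) : Fn3 := ⟨_, _, fun h1 h2 h3 => (enc_add (A.r.enc h1 h3) (enc_mul ((dgtr A B).enc h1 h3) (enc_norm (enc_sub h2 (A.ch.enc h1)))))⟩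
noncomputable def dgTll (A : Sd) (B : Sd) : Fn3 := ⟨_, _, fun h1 h2 h3 => (enc_add (A.l.enc h1 h3) (enc_mul ((dgtl A B).enc h1 h3) (enc_norm (enc_sub h2 (A.ch.enc h1)))))⟩
noncomputable def dgTur (A : Sd) (B : Sd) : Fn3 := ⟨_, _, fun h1 h2 h3 => (enc_sub (B.r.enc h1 h3) (enc_mul ((dgtr A B).enc h1 h3) (enc_norm (enc_sub (B.ch.enc h1) h2))))⟩
noncomputable def dgTul (A : Sd) (B : Sd) : Fn3 := ⟨_, _, fun h1 h2 h3 => (enc_sub (B.l.enc h1 h3) (enc_mul ((dgtl A B).enc h1 h3) (enc_norm (enc_sub (B.ch.enc h1) h2))))⟩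
noncomputable def dgTnr (A : Sd) : Fn3 := ⟨_, _, fun h1 h2 h3 => (A.r.enc h1 h3)⟩
noncomputable def dgTnl (A : Sd) : Fn3 := ⟨_, _, fun h1 h2 h3 => (A.l.enc h1 h3)⟩
noncomputable def dgz2 : Fn2 := ⟨_, _, fun h1 h2 => (enc_pnc _ 0)⟩
noncomputable def dgd1 (p : Pm) (T : Th) : Fn3 := ⟨_, _, fun h1 h2 h3 => (enc_sub (enc_sub (T.r.enc h1 h2 h3) ((dgr11 p).enc h1 h2 h3)) ((dgr21 p).enc h1 h2 h3))⟩
noncomputable def dgom_12 (p : Pm) (T : Th) : Fn3 := ⟨_, _, fun h1 h2 h3 => (enc_half (p.c0.enc h3))⟩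
noncomputable def dgom (p : Pm) (T : Th) : Fn3 := ⟨_, _, fun h1 h2 h3 => (enc_sub (enc_mul (dgvt.enc h1 h2) (enc_norm (enc_add (enc_half (enc_mul h2 (p.c0.enc h3))) (enc_mul h1 (enc_norm (T.r.enc h1 h2 h3)))))) (enc_mul (dgg.enc h1) (enc_norm (enc_sub ((dgom_12 p T).enc h1 h2 h3) (enc_mul h1 (enc_norm (enc_add (enc_mul h2 (enc_norm (enc_add ((dgom_12 p T).enc h1 h2 h3) (enc_scale 1 3 (p.k23.enc h3))))) (enc_mul h1 (enc_norm ((dgr21 p).enc h1 h2 h3))))))))))⟩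
noncomputable def dgomd (p : Pm) : Fn3 := ⟨_, _, fun h1 h2 h3 => (enc_neg (enc_mul h1 (enc_norm (enc_add (enc_half (enc_mul (dgvt.enc h1 h2) (p.c0.enc h3))) (enc_mul (dgtg.enc h1) (enc_norm ((dgG p).enc h1 h2 h3)))))))⟩
noncomputable def dgdd (p : Pm) : Fn3 := ⟨_, _, fun h1 h2 h3 => (enc_sub ((dgG p).enc h1 h2 h3) (enc_half (p.c0.enc h3)))⟩
noncomputable def dgl1 (p : Pm) (T : Th) : Fn3 := ⟨_, _, fun h1 h2 h3 => (enc_sub (enc_add ((dgl11 p).enc h1 h2 h3) ((dgl21 p).enc h1 h2 h3)) (T.l.enc h1 h2 h3))⟩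
noncomputable def dgld (p : Pm) : Fn3 := ⟨_, _, fun h1 h2 h3 => (enc_sub ((dga3c p).enc h3) ((dggL p).enc h1 h2 h3))⟩
noncomputable def dgomP (p : Pm) : Fn3 := ⟨_, _, fun h1 h2 h3 => (enc_mul h1 (enc_norm (enc_half (enc_mul (dgvt.enc h1 h2) (p.c0.enc h3)))))⟩
noncomputable def dgdP (p : Pm) : Fn3 := ⟨_, _, fun h1 h2 h3 => (enc_sub (enc_half (p.c0.enc h3)) ((dgG1 p).enc h1 h2 h3))⟩
noncomputable def dglP (p : Pm) : Fn3 := ⟨_, _, fun h1 h2 h3 => (enc_sub ((dggL1 p).enc h1 h2 h3) ((dga3c p).enc h3))⟩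
noncomputable def dgLKfA (p : Pm) (T : Th) : Fn3 := ⟨_, _, fun h1 h2 h3 => (enc_half ((dgl1 p T).enc h1 h2 h3))⟩
noncomputable def dgLDfA (p : Pm) : Fn3 := ⟨_, _, fun h1 h2 h3 => (enc_half ((dgld p).enc h1 h2 h3))⟩
noncomputable def dgLPfA (p : Pm) : Fn3 := ⟨_, _, fun h1 h2 h3 => (enc_half ((dglP p).enc h1 h2 h3))⟩
noncomputable def dgLKfB (p : Pm) (T : Th) : Fn3 := ⟨_, _, fun h1 h2 h3 => (enc_neg (enc_half ((dgl1 p T).enc h1 h2 h3)))⟩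
noncomputable def dgLDfB (p : Pm) : Fn3 := ⟨_, _, fun h1 h2 h3 => (enc_neg (enc_half ((dgld p).enc h1 h2 h3)))⟩
noncomputable def dgLPfB (p : Pm) : Fn3 := ⟨_, _, fun h1 h2 h3 => (enc_neg (enc_half ((dglP p).enc h1 h2 h3)))⟩
noncomputable def dgll1 (p : Pm) : Fn3 := ⟨_, _, fun h1 h2 h3 => (enc_add (enc_mul h2 ((dga1c p).enc h3)) (enc_mul h1 (enc_norm ((dgl11 p).enc h1 h2 h3))))⟩
noncomputable def dgll2 (p : Pm) : Fn3 := ⟨_, _, fun h1 h2 h3 => (enc_add (enc_mul h2 ((dga2c p).enc h3)) (enc_mul h1 (enc_norm ((dgl21 p).enc h1 h2 h3))))⟩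
noncomputable def dgll3 (p : Pm) (T : Th) : Fn3 := ⟨_, _, fun h1 h2 h3 => (enc_mul (dgtg.enc h1) (enc_norm (enc_add (enc_mul h2 ((dga3c p).enc h3)) (enc_mul h1 (enc_norm (T.l.enc h1 h2 h3))))))⟩
noncomputable def dgS1 (p : Pm) (T : Th) : Fn3 := ⟨_, _, fun h1 h2 h3 => (enc_add (enc_sub (enc_sub (enc_sub (enc_add ((dgl11 p).enc h1 h2 h3) (enc_nat 3 ((dgl21 p).enc h1 h2 h3))) (enc_nat 2 (T.l.enc h1 h2 h3))) (enc_mul (dgst.enc h1 h2) (enc_norm ((dgll1 p).enc h1 h2 h3)))) (enc_mul (enc_norm (enc_sub (enc_nat 2 (dgst.enc h1 h2)) (dgvt.enc h1 h2))) (enc_norm ((dgll2 p).enc h1 h2 h3)))) ((dgll3 p T).enc h1 h2 h3))⟩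
noncomputable def dgS2 (p : Pm) (T : Th) : Fn3 := ⟨_, _, fun h1 h2 h3 => (enc_add (enc_add (enc_add (enc_sub (enc_add ((dgl21 p).enc h1 h2 h3) (enc_nat 3 ((dgl11 p).enc h1 h2 h3))) (enc_nat 2 (T.l.enc h1 h2 h3))) (enc_mul (dgvt.enc h1 h2) (enc_norm ((dgll2 p).enc h1 h2 h3)))) (enc_mul (enc_norm (enc_sub (enc_nat 2 (dgvt.enc h1 h2)) (dgst.enc h1 h2))) (enc_norm ((dgll1 p).enc h1 h2 h3)))) ((dgll3 p T).enc h1 h2 h3))⟩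
noncomputable def dgLKnA (p : Pm) (T : Th) : Fn3 := ⟨_, _, fun h1 h2 h3 => (enc_half (enc_mul (p.mu.enc h3) (enc_norm (enc_sub (enc_mul (p.nx.enc h3) (enc_norm ((dgl1 p T).enc h1 h2 h3))) ((dgS1 p T).enc h1 h2 h3)))))⟩
noncomputable def dgLKnB (p : Pm) (T : Th) : Fn3 := ⟨_, _, fun h1 h2 h3 => (enc_half (enc_mul (p.mu.enc h3) (enc_norm (enc_sub ((dgS2 p T).enc h1 h2 h3) (enc_mul (p.nx.enc h3) (enc_norm ((dgl1 p T).enc h1 h2 h3)))))))⟩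
noncomputable def dgua (p : Pm) : Fn2 := ⟨_, _, fun h1 h2 => (enc_norm (enc_mul (dgu.enc h1) ((dga3c p).enc h2)))⟩
noncomputable def dgLDnA (p : Pm) : Fn3 := ⟨_, _, fun h1 h2 h3 => (enc_half (enc_mul (p.mu.enc h3) (enc_norm (enc_sub (enc_mul (p.nx.enc h3) (enc_norm ((dgld p).enc h1 h2 h3))) (enc_sub ((dgua p).enc h1 h3) (enc_mul (dgyy.enc h1 h2) (enc_norm ((dggL p).enc h1 h2 h3))))))))⟩
noncomputable def dgLDnB (p : Pm) : Fn3 := ⟨_, _, fun h1 h2 h3 => (enc_half (enc_mul (p.mu.enc h3) (enc_norm (enc_sub (enc_sub ((dgua p).enc h1 h3) (enc_mul (dgy2.enc h1 h2) (enc_norm ((dggL p).enc h1 h2 h3)))) (enc_mul (p.nx.enc h3) (enc_norm ((dgld p).enc h1 h2 h3)))))))⟩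
noncomputable def dgLPnA (p : Pm) : Fn3 := ⟨_, _, fun h1 h2 h3 => (enc_half (enc_mul (p.mu.enc h3) (enc_norm (enc_sub (enc_mul (p.nx.enc h3) (enc_norm ((dglP p).enc h1 h2 h3))) (enc_sub (enc_mul (dgy1.enc h1 h2) (enc_norm ((dggL1 p).enc h1 h2 h3))) ((dgua p).enc h1 h3))))))⟩
noncomputable def dgLPnB (p : Pm) : Fn3 := ⟨_, _, fun h1 h2 h3 => (enc_half (enc_mul (p.mu.enc h3) (enc_norm (enc_sub (enc_sub (enc_mul (dgyq.enc h1 h2) (enc_norm ((dggL1 p).enc h1 h2 h3))) ((dgua p).enc h1 h3)) (enc_mul (p.nx.enc h3) (enc_norm ((dglP p).enc h1 h2 h3)))))))⟩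
noncomputable def dgLK0 (p : Pm) : Fn1 := ⟨_, _, fun h1 => (enc_norm (enc_scale 1 4 (enc_mul (p.mu.enc h1) (p.ma.enc h1))))⟩
noncomputable def dga1fApA (p : Pm) (T : Th) : Fn3 := ⟨_, _, fun h1 h2 h3 => (enc_sub (enc_add (dgE2.enc h1 h2) ((dgLKfA p T).enc h1 h2 h3)) (enc_mul (dgp.enc h3) (enc_norm (enc_add ((dgom p T).enc h1 h2 h3) (enc_mul (enc_norm ((dgd1 p T).enc h1 h2 h3)) (enc_norm (dgWpA.enc h1 h2 h3)))))))⟩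
noncomputable def dgQ1fApA (p : Pm) : Fn3 := ⟨_, _, fun h1 h2 h3 => (enc_sub (enc_add (enc_half (dgy1.enc h1 h2)) ((dgLDfA p).enc h1 h2 h3)) (enc_mul (dgp.enc h3) (enc_norm (enc_add ((dgomd p).enc h1 h2 h3) (enc_mul (enc_norm ((dgdd p).enc h1 h2 h3)) (enc_norm (dgWpA.enc h1 h2 h3)))))))⟩
noncomputable def dgQPfApA (p : Pm) : Fn3 := ⟨_, _, fun h1 h2 h3 => (enc_sub (enc_add (enc_half (dgy2.enc h1 h2)) ((dgLPfA p).enc h1 h2 h3)) (enc_mul (dgp.enc h3) (enc_norm (enc_add ((dgomP p).enc h1 h2 h3) (enc_mul (enc_norm ((dgdP p).enc h1 h2 h3)) (enc_norm (dgWpA.enc h1 h2 h3)))))))⟩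
noncomputable def dga1nApA (p : Pm) (T : Th) : Fn3 := ⟨_, _, fun h1 h2 h3 => (enc_sub (enc_add (dgE2.enc h1 h2) ((dgLKnA p T).enc h1 h2 h3)) (enc_mul (dgp.enc h3) (enc_norm (enc_add ((dgom p T).enc h1 h2 h3) (enc_add (enc_mul (enc_norm ((dgd1 p T).enc h1 h2 h3)) (enc_norm (dgWpA.enc h1 h2 h3))) (enc_mul h2 (enc_norm (enc_mul ((dgd0 p).enc h3) (enc_norm (dgwpA.enc h1 h2 h3))))))))))⟩
noncomputable def dgQ1nApA (p : Pm) : Fn3 := ⟨_, _, fun h1 h2 h3 => (enc_sub (enc_add (enc_half (dgy1.enc h1 h2)) ((dgLDnA p).enc h1 h2 h3)) (enc_mul (dgp.enc h3) (enc_norm (enc_add ((dgomd p).enc h1 h2 h3) (enc_mul (enc_norm ((dgdd p).enc h1 h2 h3)) (enc_norm (dgWpA.enc h1 h2 h3)))))))⟩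
noncomputable def dgQPnApA (p : Pm) : Fn3 := ⟨_, _, fun h1 h2 h3 => (enc_sub (enc_add (enc_half (dgy2.enc h1 h2)) ((dgLPnA p).enc h1 h2 h3)) (enc_mul (dgp.enc h3) (enc_norm (enc_add ((dgomP p).enc h1 h2 h3) (enc_mul (enc_norm ((dgdP p).enc h1 h2 h3)) (enc_norm (dgWpA.enc h1 h2 h3)))))))⟩
noncomputable def dga1fApB (p : Pm) (T : Th) : Fn3 := ⟨_, _, fun h1 h2 h3 => (enc_sub (enc_add (dgE2.enc h1 h2) ((dgLKfA p T).enc h1 h2 h3)) (enc_mul (dgq1.enc h3) (enc_norm (enc_sub (enc_mul (enc_norm ((dgd1 p T).enc h1 h2 h3)) (enc_norm (dgWpB.enc h1 h2 h3))) ((dgom p T).enc h1 h2 h3)))))⟩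
noncomputable def dgQ1fApB (p : Pm) : Fn3 := ⟨_, _, fun h1 h2 h3 => (enc_sub (enc_add (enc_half (dgy1.enc h1 h2)) ((dgLDfA p).enc h1 h2 h3)) (enc_mul (dgq1.enc h3) (enc_norm (enc_sub (enc_mul (enc_norm ((dgdd p).enc h1 h2 h3)) (enc_norm (dgWpB.enc h1 h2 h3))) ((dgomd p).enc h1 h2 h3)))))⟩
noncomputable def dgQPfApB (p : Pm) : Fn3 := ⟨_, _, fun h1 h2 h3 => (enc_sub (enc_add (enc_half (dgy2.enc h1 h2)) ((dgLPfA p).enc h1 h2 h3)) (enc_mul (dgq1.enc h3) (enc_norm (enc_sub (enc_mul (enc_norm ((dgdP p).enc h1 h2 h3)) (enc_norm (dgWpB.enc h1 h2 h3))) ((dgomP p).enc h1 h2 h3)))))⟩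
noncomputable def dga1nApB (p : Pm) (T : Th) : Fn3 := ⟨_, _, fun h1 h2 h3 => (enc_sub (enc_add (dgE2.enc h1 h2) ((dgLKnA p T).enc h1 h2 h3)) (enc_mul (dgq1.enc h3) (enc_norm (enc_sub (enc_add (enc_mul (enc_norm ((dgd1 p T).enc h1 h2 h3)) (enc_norm (dgWpB.enc h1 h2 h3))) (enc_mul h2 (enc_norm (enc_mul ((dgd0 p).enc h3) (enc_norm (dgwpB.enc h1 h2 h3)))))) ((dgom p T).enc h1 h2 h3)))))⟩
noncomputable def dgQ1nApB (p : Pm) : Fn3 := ⟨_, _, fun h1 h2 h3 => (enc_sub (enc_add (enc_half (dgy1.enc h1 h2)) ((dgLDnA p).enc h1 h2 h3)) (enc_mul (dgq1.enc h3) (enc_norm (enc_sub (enc_mul (enc_norm ((dgdd p).enc h1 h2 h3)) (enc_norm (dgWpB.enc h1 h2 h3))) ((dgomd p).enc h1 h2 h3)))))⟩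
noncomputable def dgQPnApB (p : Pm) : Fn3 := ⟨_, _, fun h1 h2 h3 => (enc_sub (enc_add (enc_half (dgy2.enc h1 h2)) ((dgLPnA p).enc h1 h2 h3)) (enc_mul (dgq1.enc h3) (enc_norm (enc_sub (enc_mul (enc_norm ((dgdP p).enc h1 h2 h3)) (enc_norm (dgWpB.enc h1 h2 h3))) ((dgomP p).enc h1 h2 h3)))))⟩
noncomputable def dga1fAmA (p : Pm) (T : Th) : Fn3 := ⟨_, _, fun h1 h2 h3 => (enc_sub (enc_add (dgE2.enc h1 h2) ((dgLKfA p T).enc h1 h2 h3)) (enc_mul (dgp.enc h3) (enc_norm (enc_sub ((dgom p T).enc h1 h2 h3) (enc_mul (enc_norm ((dgd1 p T).enc h1 h2 h3)) (enc_norm (dgWmA.enc h1 h2 h3)))))))⟩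
noncomputable def dgQ1fAmA (p : Pm) : Fn3 := ⟨_, _, fun h1 h2 h3 => (enc_sub (enc_add (enc_half (dgy1.enc h1 h2)) ((dgLDfA p).enc h1 h2 h3)) (enc_mul (dgp.enc h3) (enc_norm (enc_sub ((dgomd p).enc h1 h2 h3) (enc_mul (enc_norm ((dgdd p).enc h1 h2 h3)) (enc_norm (dgWmA.enc h1 h2 h3)))))))⟩
noncomputable def dgQPfAmA (p : Pm) : Fn3 := ⟨_, _, fun h1 h2 h3 => (enc_sub (enc_add (enc_half (dgy2.enc h1 h2)) ((dgLPfA p).enc h1 h2 h3)) (enc_mul (dgp.enc h3) (enc_norm (enc_sub ((dgomP p).enc h1 h2 h3) (enc_mul (enc_norm ((dgdP p).enc h1 h2 h3)) (enc_norm (dgWmA.enc h1 h2 h3)))))))⟩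
noncomputable def dga1nAmA (p : Pm) (T : Th) : Fn3 := ⟨_, _, fun h1 h2 h3 => (enc_sub (enc_add (dgE2.enc h1 h2) ((dgLKnA p T).enc h1 h2 h3)) (enc_mul (dgp.enc h3) (enc_norm (enc_sub ((dgom p T).enc h1 h2 h3) (enc_add (enc_mul (enc_norm ((dgd1 p T).enc h1 h2 h3)) (enc_norm (dgWmA.enc h1 h2 h3))) (enc_mul h2 (enc_norm (enc_mul ((dgd0 p).enc h3) (enc_norm (dgwmA.enc h1 h2 h3))))))))))⟩
noncomputable def dgQ1nAmA (p : Pm) : Fn3 := ⟨_, _, fun h1 h2 h3 => (enc_sub (enc_add (enc_half (dgy1.enc h1 h2)) ((dgLDnA p).enc h1 h2 h3)) (enc_mul (dgp.enc h3) (enc_norm (enc_sub ((dgomd p).enc h1 h2 h3) (enc_mul (enc_norm ((dgdd p).enc h1 h2 h3)) (enc_norm (dgWmA.enc h1 h2 h3)))))))⟩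
noncomputable def dgQPnAmA (p : Pm) : Fn3 := ⟨_, _, fun h1 h2 h3 => (enc_sub (enc_add (enc_half (dgy2.enc h1 h2)) ((dgLPnA p).enc h1 h2 h3)) (enc_mul (dgp.enc h3) (enc_norm (enc_sub ((dgomP p).enc h1 h2 h3) (enc_mul (enc_norm ((dgdP p).enc h1 h2 h3)) (enc_norm (dgWmA.enc h1 h2 h3)))))))⟩
noncomputable def dga1fAmB (p : Pm) (T : Th) : Fn3 := ⟨_, _, fun h1 h2 h3 => (enc_sub (enc_add (dgE2.enc h1 h2) ((dgLKfA p T).enc h1 h2 h3)) (enc_mul (dgq1.enc h3) (enc_norm (enc_sub (enc_neg ((dgom p T).enc h1 h2 h3)) (enc_mul (enc_norm ((dgd1 p T).enc h1 h2 h3)) (enc_norm (dgWmB.enc h1 h2 h3)))))))⟩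
noncomputable def dgQ1fAmB (p : Pm) : Fn3 := ⟨_, _, fun h1 h2 h3 => (enc_sub (enc_add (enc_half (dgy1.enc h1 h2)) ((dgLDfA p).enc h1 h2 h3)) (enc_mul (dgq1.enc h3) (enc_norm (enc_sub (enc_neg ((dgomd p).enc h1 h2 h3)) (enc_mul (enc_norm ((dgdd p).enc h1 h2 h3)) (enc_norm (dgWmB.enc h1 h2 h3)))))))⟩
noncomputable def dgQPfAmB (p : Pm) : Fn3 := ⟨_, _, fun h1 h2 h3 => (enc_sub (enc_add (enc_half (dgy2.enc h1 h2)) ((dgLPfA p).enc h1 h2 h3)) (enc_mul (dgq1.enc h3) (enc_norm (enc_sub (enc_neg ((dgomP p).enc h1 h2 h3)) (enc_mul (enc_norm ((dgdP p).enc h1 h2 h3)) (enc_norm (dgWmB.enc h1 h2 h3)))))))⟩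
noncomputable def dga1nAmB (p : Pm) (T : Th) : Fn3 := ⟨_, _, fun h1 h2 h3 => (enc_sub (enc_add (dgE2.enc h1 h2) ((dgLKnA p T).enc h1 h2 h3)) (enc_mul (dgq1.enc h3) (enc_norm (enc_sub (enc_neg ((dgom p T).enc h1 h2 h3)) (enc_add (enc_mul (enc_norm ((dgd1 p T).enc h1 h2 h3)) (enc_norm (dgWmB.enc h1 h2 h3))) (enc_mul h2 (enc_norm (enc_mul ((dgd0 p).enc h3) (enc_norm (dgwmB.enc h1 h2 h3))))))))))⟩
noncomputable def dgQ1nAmB (p : Pm) : Fn3 := ⟨_, _, fun h1 h2 h3 => (enc_sub (enc_add (enc_half (dgy1.enc h1 h2)) ((dgLDnA p).enc h1 h2 h3)) (enc_mul (dgq1.enc h3) (enc_norm (enc_sub (enc_neg ((dgomd p).enc h1 h2 h3)) (enc_mul (enc_norm ((dgdd p).enc h1 h2 h3)) (enc_norm (dgWmB.enc h1 h2 h3)))))))⟩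
noncomputable def dgQPnAmB (p : Pm) : Fn3 := ⟨_, _, fun h1 h2 h3 => (enc_sub (enc_add (enc_half (dgy2.enc h1 h2)) ((dgLPnA p).enc h1 h2 h3)) (enc_mul (dgq1.enc h3) (enc_norm (enc_sub (enc_neg ((dgomP p).enc h1 h2 h3)) (enc_mul (enc_norm ((dgdP p).enc h1 h2 h3)) (enc_norm (dgWmB.enc h1 h2 h3)))))))⟩
noncomputable def dga1fBpA (p : Pm) (T : Th) : Fn3 := ⟨_, _, fun h1 h2 h3 => (enc_sub (enc_add (dgE2.enc h1 h2) ((dgLKfB p T).enc h1 h2 h3)) (enc_mul (dgp.enc h3) (enc_norm (enc_add ((dgom p T).enc h1 h2 h3) (enc_mul (enc_norm ((dgd1 p T).enc h1 h2 h3)) (enc_norm (dgWpA.enc h1 h2 h3)))))))⟩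
noncomputable def dgQ1fBpA (p : Pm) : Fn3 := ⟨_, _, fun h1 h2 h3 => (enc_sub (enc_add (enc_half (dgy1.enc h1 h2)) ((dgLDfB p).enc h1 h2 h3)) (enc_mul (dgp.enc h3) (enc_norm (enc_add ((dgomd p).enc h1 h2 h3) (enc_mul (enc_norm ((dgdd p).enc h1 h2 h3)) (enc_norm (dgWpA.enc h1 h2 h3)))))))⟩
noncomputable def dgQPfBpA (p : Pm) : Fn3 := ⟨_, _, fun h1 h2 h3 => (enc_sub (enc_add (enc_half (dgy2.enc h1 h2)) ((dgLPfB p).enc h1 h2 h3)) (enc_mul (dgp.enc h3) (enc_norm (enc_add ((dgomP p).enc h1 h2 h3) (enc_mul (enc_norm ((dgdP p).enc h1 h2 h3)) (enc_norm (dgWpA.enc h1 h2 h3)))))))⟩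
noncomputable def dga1nBpA (p : Pm) (T : Th) : Fn3 := ⟨_, _, fun h1 h2 h3 => (enc_sub (enc_add (dgE2.enc h1 h2) ((dgLKnB p T).enc h1 h2 h3)) (enc_mul (dgp.enc h3) (enc_norm (enc_add ((dgom p T).enc h1 h2 h3) (enc_add (enc_mul (enc_norm ((dgd1 p T).enc h1 h2 h3)) (enc_norm (dgWpA.enc h1 h2 h3))) (enc_mul h2 (enc_norm (enc_mul ((dgd0 p).enc h3) (enc_norm (dgwpA.enc h1 h2 h3))))))))))⟩
noncomputable def dgQ1nBpA (p : Pm) : Fn3 := ⟨_, _, fun h1 h2 h3 => (enc_sub (enc_add (enc_half (dgy1.enc h1 h2)) ((dgLDnB p).enc h1 h2 h3)) (enc_mul (dgp.enc h3) (enc_norm (enc_add ((dgomd p).enc h1 h2 h3) (enc_mul (enc_norm ((dgdd p).enc h1 h2 h3)) (enc_norm (dgWpA.enc h1 h2 h3)))))))⟩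
noncomputable def dgQPnBpA (p : Pm) : Fn3 := ⟨_, _, fun h1 h2 h3 => (enc_sub (enc_add (enc_half (dgy2.enc h1 h2)) ((dgLPnB p).enc h1 h2 h3)) (enc_mul (dgp.enc h3) (enc_norm (enc_add ((dgomP p).enc h1 h2 h3) (enc_mul (enc_norm ((dgdP p).enc h1 h2 h3)) (enc_norm (dgWpA.enc h1 h2 h3)))))))⟩
noncomputable def dga1fBpB (p : Pm) (T : Th) : Fn3 := ⟨_, _, fun h1 h2 h3 => (enc_sub (enc_add (dgE2.enc h1 h2) ((dgLKfB p T).enc h1 h2 h3)) (enc_mul (dgq1.enc h3) (enc_norm (enc_sub (enc_mul (enc_norm ((dgd1 p T).enc h1 h2 h3)) (enc_norm (dgWpB.enc h1 h2 h3))) ((dgom p T).enc h1 h2 h3)))))⟩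
noncomputable def dgQ1fBpB (p : Pm) : Fn3 := ⟨_, _, fun h1 h2 h3 => (enc_sub (enc_add (enc_half (dgy1.enc h1 h2)) ((dgLDfB p).enc h1 h2 h3)) (enc_mul (dgq1.enc h3) (enc_norm (enc_sub (enc_mul (enc_norm ((dgdd p).enc h1 h2 h3)) (enc_norm (dgWpB.enc h1 h2 h3))) ((dgomd p).enc h1 h2 h3)))))⟩
noncomputable def dgQPfBpB (p : Pm) : Fn3 := ⟨_, _, fun h1 h2 h3 => (enc_sub (enc_add (enc_half (dgy2.enc h1 h2)) ((dgLPfB p).enc h1 h2 h3)) (enc_mul (dgq1.enc h3) (enc_norm (enc_sub (enc_mul (enc_norm ((dgdP p).enc h1 h2 h3)) (enc_norm (dgWpB.enc h1 h2 h3))) ((dgomP p).enc h1 h2 h3)))))⟩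
noncomputable def dga1nBpB (p : Pm) (T : Th) : Fn3 := ⟨_, _, fun h1 h2 h3 => (enc_sub (enc_add (dgE2.enc h1 h2) ((dgLKnB p T).enc h1 h2 h3)) (enc_mul (dgq1.enc h3) (enc_norm (enc_sub (enc_add (enc_mul (enc_norm ((dgd1 p T).enc h1 h2 h3)) (enc_norm (dgWpB.enc h1 h2 h3))) (enc_mul h2 (enc_norm (enc_mul ((dgd0 p).enc h3) (enc_norm (dgwpB.enc h1 h2 h3)))))) ((dgom p T).enc h1 h2 h3)))))⟩
noncomputable def dgQ1nBpB (p : Pm) : Fn3 := ⟨_, _, fun h1 h2 h3 => (enc_sub (enc_add (enc_half (dgy1.enc h1 h2)) ((dgLDnB p).enc h1 h2 h3)) (enc_mul (dgq1.enc h3) (enc_norm (enc_sub (enc_mul (enc_norm ((dgdd p).enc h1 h2 h3)) (enc_norm (dgWpB.enc h1 h2 h3))) ((dgomd p).enc h1 h2 h3)))))⟩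
noncomputable def dgQPnBpB (p : Pm) : Fn3 := ⟨_, _, fun h1 h2 h3 => (enc_sub (enc_add (enc_half (dgy2.enc h1 h2)) ((dgLPnB p).enc h1 h2 h3)) (enc_mul (dgq1.enc h3) (enc_norm (enc_sub (enc_mul (enc_norm ((dgdP p).enc h1 h2 h3)) (enc_norm (dgWpB.enc h1 h2 h3))) ((dgomP p).enc h1 h2 h3)))))⟩
noncomputable def dga1fBmA (p : Pm) (T : Th) : Fn3 := ⟨_, _, fun h1 h2 h3 => (enc_sub (enc_add (dgE2.enc h1 h2) ((dgLKfB p T).enc h1 h2 h3)) (enc_mul (dgp.enc h3) (enc_norm (enc_sub ((dgom p T).enc h1 h2 h3) (enc_mul (enc_norm ((dgd1 p T).enc h1 h2 h3)) (enc_norm (dgWmA.enc h1 h2 h3)))))))⟩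
noncomputable def dgQ1fBmA (p : Pm) : Fn3 := ⟨_, _, fun h1 h2 h3 => (enc_sub (enc_add (enc_half (dgy1.enc h1 h2)) ((dgLDfB p).enc h1 h2 h3)) (enc_mul (dgp.enc h3) (enc_norm (enc_sub ((dgomd p).enc h1 h2 h3) (enc_mul (enc_norm ((dgdd p).enc h1 h2 h3)) (enc_norm (dgWmA.enc h1 h2 h3)))))))⟩
noncomputable def dgQPfBmA (p : Pm) : Fn3 := ⟨_, _, fun h1 h2 h3 => (enc_sub (enc_add (enc_half (dgy2.enc h1 h2)) ((dgLPfB p).enc h1 h2 h3)) (enc_mul (dgp.enc h3) (enc_norm (enc_sub ((dgomP p).enc h1 h2 h3) (enc_mul (enc_norm ((dgdP p).enc h1 h2 h3)) (enc_norm (dgWmA.enc h1 h2 h3)))))))⟩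
noncomputable def dga1nBmA (p : Pm) (T : Th) : Fn3 := ⟨_, _, fun h1 h2 h3 => (enc_sub (enc_add (dgE2.enc h1 h2) ((dgLKnB p T).enc h1 h2 h3)) (enc_mul (dgp.enc h3) (enc_norm (enc_sub ((dgom p T).enc h1 h2 h3) (enc_add (enc_mul (enc_norm ((dgd1 p T).enc h1 h2 h3)) (enc_norm (dgWmA.enc h1 h2 h3))) (enc_mul h2 (enc_norm (enc_mul ((dgd0 p).enc h3) (enc_norm (dgwmA.enc h1 h2 h3))))))))))⟩
noncomputable def dgQ1nBmA (p : Pm) : Fn3 := ⟨_, _, fun h1 h2 h3 => (enc_sub (enc_add (enc_half (dgy1.enc h1 h2)) ((dgLDnB p).enc h1 h2 h3)) (enc_mul (dgp.enc h3) (enc_norm (enc_sub ((dgomd p).enc h1 h2 h3) (enc_mul (enc_norm ((dgdd p).enc h1 h2 h3)) (enc_norm (dgWmA.enc h1 h2 h3)))))))⟩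
noncomputable def dgQPnBmA (p : Pm) : Fn3 := ⟨_, _, fun h1 h2 h3 => (enc_sub (enc_add (enc_half (dgy2.enc h1 h2)) ((dgLPnB p).enc h1 h2 h3)) (enc_mul (dgp.enc h3) (enc_norm (enc_sub ((dgomP p).enc h1 h2 h3) (enc_mul (enc_norm ((dgdP p).enc h1 h2 h3)) (enc_norm (dgWmA.enc h1 h2 h3)))))))⟩
noncomputable def dga1fBmB (p : Pm) (T : Th) : Fn3 := ⟨_, _, fun h1 h2 h3 => (enc_sub (enc_add (dgE2.enc h1 h2) ((dgLKfB p T).enc h1 h2 h3)) (enc_mul (dgq1.enc h3) (enc_norm (enc_sub (enc_neg ((dgom p T).enc h1 h2 h3)) (enc_mul (enc_norm ((dgd1 p T).enc h1 h2 h3)) (enc_norm (dgWmB.enc h1 h2 h3)))))))⟩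
noncomputable def dgQ1fBmB (p : Pm) : Fn3 := ⟨_, _, fun h1 h2 h3 => (enc_sub (enc_add (enc_half (dgy1.enc h1 h2)) ((dgLDfB p).enc h1 h2 h3)) (enc_mul (dgq1.enc h3) (enc_norm (enc_sub (enc_neg ((dgomd p).enc h1 h2 h3)) (enc_mul (enc_norm ((dgdd p).enc h1 h2 h3)) (enc_norm (dgWmB.enc h1 h2 h3)))))))⟩
noncomputable def dgQPfBmB (p : Pm) : Fn3 := ⟨_, _, fun h1 h2 h3 => (enc_sub (enc_add (enc_half (dgy2.enc h1 h2)) ((dgLPfB p).enc h1 h2 h3)) (enc_mul (dgq1.enc h3) (enc_norm (enc_sub (enc_neg ((dgomP p).enc h1 h2 h3)) (enc_mul (enc_norm ((dgdP p).enc h1 h2 h3)) (enc_norm (dgWmB.enc h1 h2 h3)))))))⟩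
noncomputable def dga1nBmB (p : Pm) (T : Th) : Fn3 := ⟨_, _, fun h1 h2 h3 => (enc_sub (enc_add (dgE2.enc h1 h2) ((dgLKnB p T).enc h1 h2 h3)) (enc_mul (dgq1.enc h3) (enc_norm (enc_sub (enc_neg ((dgom p T).enc h1 h2 h3)) (enc_add (enc_mul (enc_norm ((dgd1 p T).enc h1 h2 h3)) (enc_norm (dgWmB.enc h1 h2 h3))) (enc_mul h2 (enc_norm (enc_mul ((dgd0 p).enc h3) (enc_norm (dgwmB.enc h1 h2 h3))))))))))⟩
noncomputable def dgQ1nBmB (p : Pm) : Fn3 := ⟨_, _, fun h1 h2 h3 => (enc_sub (enc_add (enc_half (dgy1.enc h1 h2)) ((dgLDnB p).enc h1 h2 h3)) (enc_mul (dgq1.enc h3) (enc_norm (enc_sub (enc_neg ((dgomd p).enc h1 h2 h3)) (enc_mul (enc_norm ((dgdd p).enc h1 h2 h3)) (enc_norm (dgWmB.enc h1 h2 h3)))))))⟩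
noncomputable def dgQPnBmB (p : Pm) : Fn3 := ⟨_, _, fun h1 h2 h3 => (enc_sub (enc_add (enc_half (dgy2.enc h1 h2)) ((dgLPnB p).enc h1 h2 h3)) (enc_mul (dgq1.enc h3) (enc_norm (enc_sub (enc_neg ((dgomP p).enc h1 h2 h3)) (enc_mul (enc_norm ((dgdP p).enc h1 h2 h3)) (enc_norm (dgWmB.enc h1 h2 h3)))))))⟩
noncomputable def dga0pA (p : Pm) : Fn1 := ⟨_, _, fun h1 => (enc_norm (enc_sub ((dgLK0 p).enc h1) (enc_mul (dgp.enc h1) (enc_norm (enc_mul ((dgd0 p).enc h1) h1)))))⟩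
noncomputable def dga0pB (p : Pm) : Fn1 := ⟨_, _, fun h1 => (enc_norm (enc_sub ((dgLK0 p).enc h1) (enc_mul (dgq1.enc h1) (enc_norm (enc_mul ((dgd0 p).enc h1) (enc_norm (enc_sub (enc_pnc _ 1) h1)))))))⟩
noncomputable def dga0mA (p : Pm) : Fn1 := ⟨_, _, fun h1 => (enc_norm (enc_add ((dgLK0 p).enc h1) (enc_mul (dgp.enc h1) (enc_norm (enc_mul ((dgd0 p).enc h1) h1)))))⟩
noncomputable def dga0mB (p : Pm) : Fn1 := ⟨_, _, fun h1 => (enc_norm (enc_add ((dgLK0 p).enc h1) (enc_mul (dgq1.enc h1) (enc_norm (enc_mul ((dgd0 p).enc h1) (enc_norm (enc_sub (enc_pnc _ 1) h1)))))))⟩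
noncomputable def dgxn : Fn2 := ⟨_, _, fun h1 h2 => (enc_neg (dgvt.enc h1 h2))⟩
noncomputable def dgxA (A : Sd) : Fn2 := ⟨_, _, fun h1 h2 => (enc_norm (enc_sub (A.ch.enc h1) h2))⟩
noncomputable def dgxB (B : Sd) : Fn2 := ⟨_, _, fun h1 h2 => (enc_norm (enc_sub h2 (B.ch.enc h1)))⟩
noncomputable def dgxP (A : Sd) : Fn2 := ⟨_, _, fun h1 h2 => (enc_norm (enc_sub h2 (A.ch.enc h1)))⟩
noncomputable def dgx3 : Fn2 := ⟨_, _, fun h1 h2 => (enc_norm (enc_subr 2 3 (dgvt.enc h1 h2)))⟩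
noncomputable def dgxK (p : Pm) (A : Sd) : Fn2 := ⟨_, _, fun h1 h2 => (enc_norm (enc_sub (enc_sub h2 (A.ch.enc h1)) (enc_mul (dgvt.enc h1 h2) (enc_norm (enc_sub (dgxi.enc (dgv.enc h1 h2)) (p.cv.xs.enc (dgv.enc h1 h2)))))))⟩
noncomputable def dgxv (p : Pm) : Fn2 := ⟨_, _, fun h1 h2 => (p.sv.enc (dgv.enc h1 h2))⟩
noncomputable def dgxs (p : Pm) : Fn2 := ⟨_, _, fun h1 h2 => (p.sv.enc (dgs.enc h1 h2))⟩
noncomputable def dgxX (p : Pm) (A : Sd) : Fn2 := ⟨_, _, fun h1 h2 => (enc_norm (enc_sub (enc_mul h1 (enc_norm (enc_sub (A.ch.enc h1) h2))) ((dgdX p).enc (dgy1.enc h1 h2))))⟩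
noncomputable def dgdB (A : Sd) : Fn2 := ⟨_, _, fun h1 h2 => (enc_norm (enc_sub h2 (A.ch.enc h1)))⟩
noncomputable def dgdPp (A : Sd) : Fn2 := ⟨_, _, fun h1 h2 => (enc_norm (enc_sub (A.ch.enc h1) h2))⟩
noncomputable def dgFAnApA (p : Pm) (T : Th) : Fn3 := ⟨_, _, fun h1 h2 h3 => (enc_add (enc_mul h2 ((dga0pA p).enc h3)) (enc_mul h1 (enc_norm ((dga1nApA p T).enc h1 h2 h3))))⟩
noncomputable def dgFBfApA (p : Pm) (A : Sd) (T : Th) : Fn3 := ⟨_, _, fun h1 h2 h3 => (enc_add (enc_mul h1 (enc_norm ((dga1fApA p T).enc h1 h2 h3))) (enc_mul ((dgdB A).enc h1 h2) (enc_norm ((dgQ1fApA p).enc h1 h2 h3))))⟩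
noncomputable def dgFBnApA (p : Pm) (A : Sd) (T : Th) : Fn3 := ⟨_, _, fun h1 h2 h3 => (enc_add (enc_add (enc_mul h2 ((dga0pA p).enc h3)) (enc_mul h1 (enc_norm ((dga1nApA p T).enc h1 h2 h3)))) (enc_mul ((dgdB A).enc h1 h2) (enc_norm ((dgQ1nApA p).enc h1 h2 h3))))⟩
noncomputable def dgFPfApA (p : Pm) (A : Sd) (T : Th) : Fn3 := ⟨_, _, fun h1 h2 h3 => (enc_add (enc_mul h1 (enc_norm ((dga1fApA p T).enc h1 h2 h3))) (enc_mul ((dgdPp A).enc h1 h2) (enc_norm ((dgQPfApA p).enc h1 h2 h3))))⟩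
noncomputable def dgFPnApA (p : Pm) (A : Sd) (T : Th) : Fn3 := ⟨_, _, fun h1 h2 h3 => (enc_add (enc_add (enc_mul h2 ((dga0pA p).enc h3)) (enc_mul h1 (enc_norm ((dga1nApA p T).enc h1 h2 h3)))) (enc_mul ((dgdPp A).enc h1 h2) (enc_norm ((dgQPnApA p).enc h1 h2 h3))))⟩
noncomputable def dgFAnApB (p : Pm) (T : Th) : Fn3 := ⟨_, _, fun h1 h2 h3 => (enc_add (enc_mul h2 ((dga0pB p).enc h3)) (enc_mul h1 (enc_norm ((dga1nApB p T).enc h1 h2 h3))))⟩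
noncomputable def dgFBfApB (p : Pm) (A : Sd) (T : Th) : Fn3 := ⟨_, _, fun h1 h2 h3 => (enc_add (enc_mul h1 (enc_norm ((dga1fApB p T).enc h1 h2 h3))) (enc_mul ((dgdB A).enc h1 h2) (enc_norm ((dgQ1fApB p).enc h1 h2 h3))))⟩
noncomputable def dgFBnApB (p : Pm) (A : Sd) (T : Th) : Fn3 := ⟨_, _, fun h1 h2 h3 => (enc_add (enc_add (enc_mul h2 ((dga0pB p).enc h3)) (enc_mul h1 (enc_norm ((dga1nApB p T).enc h1 h2 h3)))) (enc_mul ((dgdB A).enc h1 h2) (enc_norm ((dgQ1nApB p).enc h1 h2 h3))))⟩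
noncomputable def dgFPfApB (p : Pm) (A : Sd) (T : Th) : Fn3 := ⟨_, _, fun h1 h2 h3 => (enc_add (enc_mul h1 (enc_norm ((dga1fApB p T).enc h1 h2 h3))) (enc_mul ((dgdPp A).enc h1 h2) (enc_norm ((dgQPfApB p).enc h1 h2 h3))))⟩
noncomputable def dgFPnApB (p : Pm) (A : Sd) (T : Th) : Fn3 := ⟨_, _, fun h1 h2 h3 => (enc_add (enc_add (enc_mul h2 ((dga0pB p).enc h3)) (enc_mul h1 (enc_norm ((dga1nApB p T).enc h1 h2 h3)))) (enc_mul ((dgdPp A).enc h1 h2) (enc_norm ((dgQPnApB p).enc h1 h2 h3))))⟩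
noncomputable def dgFAnAmA (p : Pm) (T : Th) : Fn3 := ⟨_, _, fun h1 h2 h3 => (enc_add (enc_mul h2 ((dga0mA p).enc h3)) (enc_mul h1 (enc_norm ((dga1nAmA p T).enc h1 h2 h3))))⟩
noncomputable def dgFBfAmA (p : Pm) (A : Sd) (T : Th) : Fn3 := ⟨_, _, fun h1 h2 h3 => (enc_add (enc_mul h1 (enc_norm ((dga1fAmA p T).enc h1 h2 h3))) (enc_mul ((dgdB A).enc h1 h2) (enc_norm ((dgQ1fAmA p).enc h1 h2 h3))))⟩
noncomputable def dgFBnAmA (p : Pm) (A : Sd) (T : Th) : Fn3 := ⟨_, _, fun h1 h2 h3 => (enc_add (enc_add (enc_mul h2 ((dga0mA p).enc h3)) (enc_mul h1 (enc_norm ((dga1nAmA p T).enc h1 h2 h3)))) (enc_mul ((dgdB A).enc h1 h2) (enc_norm ((dgQ1nAmA p).enc h1 h2 h3))))⟩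
noncomputable def dgFPfAmA (p : Pm) (A : Sd) (T : Th) : Fn3 := ⟨_, _, fun h1 h2 h3 => (enc_add (enc_mul h1 (enc_norm ((dga1fAmA p T).enc h1 h2 h3))) (enc_mul ((dgdPp A).enc h1 h2) (enc_norm ((dgQPfAmA p).enc h1 h2 h3))))⟩
noncomputable def dgFPnAmA (p : Pm) (A : Sd) (T : Th) : Fn3 := ⟨_, _, fun h1 h2 h3 => (enc_add (enc_add (enc_mul h2 ((dga0mA p).enc h3)) (enc_mul h1 (enc_norm ((dga1nAmA p T).enc h1 h2 h3)))) (enc_mul ((dgdPp A).enc h1 h2) (enc_norm ((dgQPnAmA p).enc h1 h2 h3))))⟩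
noncomputable def dgFAnAmB (p : Pm) (T : Th) : Fn3 := ⟨_, _, fun h1 h2 h3 => (enc_add (enc_mul h2 ((dga0mB p).enc h3)) (enc_mul h1 (enc_norm ((dga1nAmB p T).enc h1 h2 h3))))⟩
noncomputable def dgFBfAmB (p : Pm) (A : Sd) (T : Th) : Fn3 := ⟨_, _, fun h1 h2 h3 => (enc_add (enc_mul h1 (enc_norm ((dga1fAmB p T).enc h1 h2 h3))) (enc_mul ((dgdB A).enc h1 h2) (enc_norm ((dgQ1fAmB p).enc h1 h2 h3))))⟩
noncomputable def dgFBnAmB (p : Pm) (A : Sd) (T : Th) : Fn3 := ⟨_, _, fun h1 h2 h3 => (enc_add (enc_add (enc_mul h2 ((dga0mB p).enc h3)) (enc_mul h1 (enc_norm ((dga1nAmB p T).enc h1 h2 h3)))) (enc_mul ((dgdB A).enc h1 h2) (enc_norm ((dgQ1nAmB p).enc h1 h2 h3))))⟩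
noncomputable def dgFPfAmB (p : Pm) (A : Sd) (T : Th) : Fn3 := ⟨_, _, fun h1 h2 h3 => (enc_add (enc_mul h1 (enc_norm ((dga1fAmB p T).enc h1 h2 h3))) (enc_mul ((dgdPp A).enc h1 h2) (enc_norm ((dgQPfAmB p).enc h1 h2 h3))))⟩
noncomputable def dgFPnAmB (p : Pm) (A : Sd) (T : Th) : Fn3 := ⟨_, _, fun h1 h2 h3 => (enc_add (enc_add (enc_mul h2 ((dga0mB p).enc h3)) (enc_mul h1 (enc_norm ((dga1nAmB p T).enc h1 h2 h3)))) (enc_mul ((dgdPp A).enc h1 h2) (enc_norm ((dgQPnAmB p).enc h1 h2 h3))))⟩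
noncomputable def dgFAnBpA (p : Pm) (T : Th) : Fn3 := ⟨_, _, fun h1 h2 h3 => (enc_add (enc_mul h2 ((dga0pA p).enc h3)) (enc_mul h1 (enc_norm ((dga1nBpA p T).enc h1 h2 h3))))⟩
noncomputable def dgFBfBpA (p : Pm) (A : Sd) (T : Th) : Fn3 := ⟨_, _, fun h1 h2 h3 => (enc_add (enc_mul h1 (enc_norm ((dga1fBpA p T).enc h1 h2 h3))) (enc_mul ((dgdB A).enc h1 h2) (enc_norm ((dgQ1fBpA p).enc h1 h2 h3))))⟩
noncomputable def dgFBnBpA (p : Pm) (A : Sd) (T : Th) : Fn3 := ⟨_, _, fun h1 h2 h3 => (enc_add (enc_add (enc_mul h2 ((dga0pA p).enc h3)) (enc_mul h1 (enc_norm ((dga1nBpA p T).enc h1 h2 h3)))) (enc_mul ((dgdB A).enc h1 h2) (enc_norm ((dgQ1nBpA p).enc h1 h2 h3))))⟩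
noncomputable def dgFPfBpA (p : Pm) (A : Sd) (T : Th) : Fn3 := ⟨_, _, fun h1 h2 h3 => (enc_add (enc_mul h1 (enc_norm ((dga1fBpA p T).enc h1 h2 h3))) (enc_mul ((dgdPp A).enc h1 h2) (enc_norm ((dgQPfBpA p).enc h1 h2 h3))))⟩
noncomputable def dgFPnBpA (p : Pm) (A : Sd) (T : Th) : Fn3 := ⟨_, _, fun h1 h2 h3 => (enc_add (enc_add (enc_mul h2 ((dga0pA p).enc h3)) (enc_mul h1 (enc_norm ((dga1nBpA p T).enc h1 h2 h3)))) (enc_mul ((dgdPp A).enc h1 h2) (enc_norm ((dgQPnBpA p).enc h1 h2 h3))))⟩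
noncomputable def dgFAnBpB (p : Pm) (T : Th) : Fn3 := ⟨_, _, fun h1 h2 h3 => (enc_add (enc_mul h2 ((dga0pB p).enc h3)) (enc_mul h1 (enc_norm ((dga1nBpB p T).enc h1 h2 h3))))⟩
noncomputable def dgFBfBpB (p : Pm) (A : Sd) (T : Th) : Fn3 := ⟨_, _, fun h1 h2 h3 => (enc_add (enc_mul h1 (enc_norm ((dga1fBpB p T).enc h1 h2 h3))) (enc_mul ((dgdB A).enc h1 h2) (enc_norm ((dgQ1fBpB p).enc h1 h2 h3))))⟩
noncomputable def dgFBnBpB (p : Pm) (A : Sd) (T : Th) : Fn3 := ⟨_, _, fun h1 h2 h3 => (enc_add (enc_add (enc_mul h2 ((dga0pB p).enc h3)) (enc_mul h1 (enc_norm ((dga1nBpB p T).enc h1 h2 h3)))) (enc_mul ((dgdB A).enc h1 h2) (enc_norm ((dgQ1nBpB p).enc h1 h2 h3))))⟩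
noncomputable def dgFPfBpB (p : Pm) (A : Sd) (T : Th) : Fn3 := ⟨_, _, fun h1 h2 h3 => (enc_add (enc_mul h1 (enc_norm ((dga1fBpB p T).enc h1 h2 h3))) (enc_mul ((dgdPp A).enc h1 h2) (enc_norm ((dgQPfBpB p).enc h1 h2 h3))))⟩
noncomputable def dgFPnBpB (p : Pm) (A : Sd) (T : Th) : Fn3 := ⟨_, _, fun h1 h2 h3 => (enc_add (enc_add (enc_mul h2 ((dga0pB p).enc h3)) (enc_mul h1 (enc_norm ((dga1nBpB p T).enc h1 h2 h3)))) (enc_mul ((dgdPp A).enc h1 h2) (enc_norm ((dgQPnBpB p).enc h1 h2 h3))))⟩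
noncomputable def dgFAnBmA (p : Pm) (T : Th) : Fn3 := ⟨_, _, fun h1 h2 h3 => (enc_add (enc_mul h2 ((dga0mA p).enc h3)) (enc_mul h1 (enc_norm ((dga1nBmA p T).enc h1 h2 h3))))⟩
noncomputable def dgFBfBmA (p : Pm) (A : Sd) (T : Th) : Fn3 := ⟨_, _, fun h1 h2 h3 => (enc_add (enc_mul h1 (enc_norm ((dga1fBmA p T).enc h1 h2 h3))) (enc_mul ((dgdB A).enc h1 h2) (enc_norm ((dgQ1fBmA p).enc h1 h2 h3))))⟩
noncomputable def dgFBnBmA (p : Pm) (A : Sd) (T : Th) : Fn3 := ⟨_, _, fun h1 h2 h3 => (enc_add (enc_add (enc_mul h2 ((dga0mA p).enc h3)) (enc_mul h1 (enc_norm ((dga1nBmA p T).enc h1 h2 h3)))) (enc_mul ((dgdB A).enc h1 h2) (enc_norm ((dgQ1nBmA p).enc h1 h2 h3))))⟩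
noncomputable def dgFPfBmA (p : Pm) (A : Sd) (T : Th) : Fn3 := ⟨_, _, fun h1 h2 h3 => (enc_add (enc_mul h1 (enc_norm ((dga1fBmA p T).enc h1 h2 h3))) (enc_mul ((dgdPp A).enc h1 h2) (enc_norm ((dgQPfBmA p).enc h1 h2 h3))))⟩
noncomputable def dgFPnBmA (p : Pm) (A : Sd) (T : Th) : Fn3 := ⟨_, _, fun h1 h2 h3 => (enc_add (enc_add (enc_mul h2 ((dga0mA p).enc h3)) (enc_mul h1 (enc_norm ((dga1nBmA p T).enc h1 h2 h3)))) (enc_mul ((dgdPp A).enc h1 h2) (enc_norm ((dgQPnBmA p).enc h1 h2 h3))))⟩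
noncomputable def dgFAnBmB (p : Pm) (T : Th) : Fn3 := ⟨_, _, fun h1 h2 h3 => (enc_add (enc_mul h2 ((dga0mB p).enc h3)) (enc_mul h1 (enc_norm ((dga1nBmB p T).enc h1 h2 h3))))⟩
noncomputable def dgFBfBmB (p : Pm) (A : Sd) (T : Th) : Fn3 := ⟨_, _, fun h1 h2 h3 => (enc_add (enc_mul h1 (enc_norm ((dga1fBmB p T).enc h1 h2 h3))) (enc_mul ((dgdB A).enc h1 h2) (enc_norm ((dgQ1fBmB p).enc h1 h2 h3))))⟩
noncomputable def dgFBnBmB (p : Pm) (A : Sd) (T : Th) : Fn3 := ⟨_, _, fun h1 h2 h3 => (enc_add (enc_add (enc_mul h2 ((dga0mB p).enc h3)) (enc_mul h1 (enc_norm ((dga1nBmB p T).enc h1 h2 h3)))) (enc_mul ((dgdB A).enc h1 h2) (enc_norm ((dgQ1nBmB p).enc h1 h2 h3))))⟩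
noncomputable def dgFPfBmB (p : Pm) (A : Sd) (T : Th) : Fn3 := ⟨_, _, fun h1 h2 h3 => (enc_add (enc_mul h1 (enc_norm ((dga1fBmB p T).enc h1 h2 h3))) (enc_mul ((dgdPp A).enc h1 h2) (enc_norm ((dgQPfBmB p).enc h1 h2 h3))))⟩
noncomputable def dgFPnBmB (p : Pm) (A : Sd) (T : Th) : Fn3 := ⟨_, _, fun h1 h2 h3 => (enc_add (enc_add (enc_mul h2 ((dga0mB p).enc h3)) (enc_mul h1 (enc_norm ((dga1nBmB p T).enc h1 h2 h3)))) (enc_mul ((dgdPp A).enc h1 h2) (enc_norm ((dgQPnBmB p).enc h1 h2 h3))))⟩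
noncomputable def dgc12 : Fn2 := ⟨_, _, fun h1 h2 => (enc_norm (enc_mul (dghc.enc h1 h2) (enc_norm (enc_add (enc_scale 3 8 (dgu.enc h1)) (enc_scale 3 4 (enc_mul h1 h2))))))⟩
noncomputable def dgc23 : Fn2 := ⟨_, _, fun h1 h2 => (enc_norm (enc_scale 3 4 (enc_mul (dgu.enc h1) (dghc.enc h1 h2))))⟩
noncomputable def dgD12 : Fn2 := ⟨_, _, fun h1 h2 => (enc_norm (enc_subr 1 2 (enc_mul h1 (dgc12.enc h1 h2))))⟩
noncomputable def dgD23 : Fn2 := ⟨_, _, fun h1 h2 => (enc_norm (enc_neg (enc_add (enc_mul h1 (dgc23.enc h1 h2)) (enc_rat _ 1 2))))⟩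
noncomputable def dgcc : Fn2 := ⟨_, _, fun h1 h2 => (enc_norm (enc_add (dgc12.enc h1 h2) (dgc23.enc h1 h2)))⟩
noncomputable def dgDs : Fn2 := ⟨_, _, fun h1 h2 => (enc_norm (enc_subr 1 3 (enc_mul h2 (enc_norm (enc_mul (enc_sq h1) (dghc.enc h1 h2))))))⟩
noncomputable def dgDa : Fn2 := ⟨_, _, fun h1 h2 => (enc_norm (enc_subr 1 2 (enc_mul h1 (dgc23.enc h1 h2))))⟩
noncomputable def dga11 : Fn1 := ⟨_, _, fun h1 => (enc_norm (enc_sub (enc_rat _ 1 2) (enc_scale 1 4 (dgtg.enc h1))))⟩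
noncomputable def dgrho1 : Fn1 := ⟨_, _, fun h1 => (enc_norm (enc_neg (enc_mul (enc_norm (enc_add (enc_scale 1 4 (dgg.enc h1)) (enc_mul (dga11.enc h1) (dgH.enc h1)))) (enc_inv (enc_sub (enc_pnc _ 1) (dgh3.enc h1))))))⟩
noncomputable def dgDr : Fn2 := ⟨_, _, fun h1 h2 => (enc_norm (enc_mul (enc_norm (enc_add (enc_sub (enc_half (enc_mul (dghc.enc h1 h2) (enc_norm (enc_sub (enc_scale 3 8 (dgu.enc h1)) (enc_scale 3 4 (enc_mul h1 h2)))))) (enc_add (enc_mul (dgDa.enc h1 h2) (dgh1t.enc h1 h2)) (enc_mul (dga11.enc h1) (dgD12.enc h1 h2)))) (enc_mul (dgrho1.enc h1) (enc_norm (enc_mul h1 (dgD12.enc h1 h2)))))) (enc_inv (enc_sub (enc_pnc _ 1) (dgh1.enc h1 h2)))))⟩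
noncomputable def dgkh2 (p : Pm) : Fn3 := ⟨_, _, fun h1 h2 h3 => (enc_add (enc_add (p.k23.enc h3) (enc_mul (p.j23.enc h3) (dgh2.enc h1 h2))) (enc_mul (enc_sq h1) (enc_norm ((dgQ23 p).enc h1 h2 h3))))⟩
noncomputable def dgEa (p : Pm) : Fn3 := ⟨_, _, fun h1 h2 h3 => (enc_mul (enc_norm (enc_add (enc_nat 2 (p.cb.enc h3)) (p.ca.enc h3))) (enc_norm (enc_add (dgh1t.enc h1 h2) (dgH.enc h1))))⟩
noncomputable def dgEm (p : Pm) : Fn3 := ⟨_, _, fun h1 h2 h3 => (enc_mul (enc_norm (enc_add (p.ca.enc h3) (p.cb.enc h3))) (enc_norm (enc_add (dgh1.enc h1 h2) (dgh2.enc h1 h2))))⟩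
noncomputable def dgEp (p : Pm) : Fn3 := ⟨_, _, fun h1 h2 h3 => (enc_mul (p.c23.enc h3) (enc_norm (enc_add (dgh1.enc h1 h2) (dgh2.enc h1 h2))))⟩
noncomputable def dgEn (p : Pm) : Fn3 := ⟨_, _, fun h1 h2 h3 => (enc_mul (p.c23.enc h3) (enc_norm (enc_add (dgh3.enc h1) (dgh2.enc h1 h2))))⟩
noncomputable def dgvt1 : Fn1 := ⟨_, _, fun h1 => (enc_norm (enc_sub (enc_rat _ 1 3) (enc_half (dgtg.enc h1))))⟩
noncomputable def dgkq (p : Pm) : Fn5 := ⟨_, _, fun h1 h2 h3 h4 h5 => (enc_mul h1 (enc_norm (enc_add (enc_mul (enc_norm (enc_mul (dgst.enc h1 h2) (dgcc.enc h1 h2))) (enc_norm (enc_add (p.j23.enc h3) h4))) (enc_mul (enc_norm (enc_mul (dgg.enc h1) (dgD23.enc h1 h2))) (enc_norm (enc_add (p.j23.enc h3) h5))))))⟩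
noncomputable def dgdq (p : Pm) (T : Th) : Fn5 := ⟨_, _, fun h1 h2 h3 h4 h5 => (enc_sub (enc_sub (enc_add ((dgkq p).enc h1 h2 h3 h4 h5) (dgc23.enc h1 h2)) (dgDr.enc h1 h2)) (T.gr.enc h1 h3))⟩
noncomputable def dgomq (p : Pm) (T : Th) : Fn4 := ⟨_, _, fun h1 h2 h3 h4 => (enc_add (enc_sub (enc_mul (dgDs.enc h1 h2) (enc_norm (enc_add (enc_half h2) (enc_mul h1 (enc_norm (T.r.enc h1 h2 h3)))))) (enc_mul (dgvt1.enc h1) (enc_norm (enc_add (enc_rat _ 1 2) (enc_mul h1 (T.gr.enc h1 h3)))))) (enc_mul (dgtg.enc h1) (enc_norm (enc_add (enc_add (dgD23.enc h1 h2) (enc_mul (dgDs.enc h1 h2) (enc_norm ((dgkh2 p).enc h1 h2 h3)))) (enc_mul h1 (enc_norm (enc_mul (dgvt1.enc h1) (enc_norm (enc_mul (dgD23.enc h1 h2) (enc_norm (enc_add (p.j23.enc h3) h4)))))))))))⟩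
noncomputable def dgLq (p : Pm) (T : Th) : Fn5 := ⟨_, _, fun h1 h2 h3 h4 h5 => (enc_sub (enc_sub (enc_add (T.gl.enc h1 h3) (enc_mul (enc_norm (enc_add (enc_add (p.ma.enc h3) (p.mb.enc h3)) h5)) (dgcc.enc h1 h2))) (enc_mul (enc_norm (enc_add (p.ma.enc h3) (enc_nat 2 (p.mb.enc h3)))) (dgc12.enc h1 h2))) (enc_mul h4 (dgD12.enc h1 h2)))⟩
noncomputable def dgQtApA (p : Pm) (T : Th) : Fn7 := ⟨_, _, fun h1 h2 h3 h4 h5 h6 h7 => (enc_sub (enc_add (dgEq.enc h1 h2) (enc_half ((dgLq p T).enc h1 h2 h3 h4 h5))) (enc_mul (dgp.enc h3) (enc_norm (enc_add ((dgomq p T).enc h1 h2 h3 h7) (enc_mul (enc_norm ((dgdq p T).enc h1 h2 h3 h6 h7)) (enc_norm (dgWpA.enc h1 h2 h3)))))))⟩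
noncomputable def dgFTBApA (p : Pm) (T : Th) : Fn7 := ⟨_, _, fun h1 h2 h3 h4 h5 h6 h7 => (enc_sub ((dgQ1fApA p).enc h1 h2 h3) (enc_mul h1 (enc_norm ((dgQtApA p T).enc h1 h2 h3 h4 h5 h6 h7))))⟩
noncomputable def dgFTPApA (p : Pm) (T : Th) : Fn7 := ⟨_, _, fun h1 h2 h3 h4 h5 h6 h7 => (enc_add ((dgQPfApA p).enc h1 h2 h3) (enc_mul h1 (enc_norm ((dgQtApA p T).enc h1 h2 h3 h4 h5 h6 h7))))⟩
noncomputable def dgQtApB (p : Pm) (T : Th) : Fn7 := ⟨_, _, fun h1 h2 h3 h4 h5 h6 h7 => (enc_sub (enc_add (dgEq.enc h1 h2) (enc_half ((dgLq p T).enc h1 h2 h3 h4 h5))) (enc_mul (dgq1.enc h3) (enc_norm (enc_sub (enc_mul (enc_norm ((dgdq p T).enc h1 h2 h3 h6 h7)) (enc_norm (dgWpB.enc h1 h2 h3))) ((dgomq p T).enc h1 h2 h3 h7)))))⟩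
noncomputable def dgFTBApB (p : Pm) (T : Th) : Fn7 := ⟨_, _, fun h1 h2 h3 h4 h5 h6 h7 => (enc_sub ((dgQ1fApB p).enc h1 h2 h3) (enc_mul h1 (enc_norm ((dgQtApB p T).enc h1 h2 h3 h4 h5 h6 h7))))⟩
noncomputable def dgFTPApB (p : Pm) (T : Th) : Fn7 := ⟨_, _, fun h1 h2 h3 h4 h5 h6 h7 => (enc_add ((dgQPfApB p).enc h1 h2 h3) (enc_mul h1 (enc_norm ((dgQtApB p T).enc h1 h2 h3 h4 h5 h6 h7))))⟩
noncomputable def dgQtAmA (p : Pm) (T : Th) : Fn7 := ⟨_, _, fun h1 h2 h3 h4 h5 h6 h7 => (enc_sub (enc_add (dgEq.enc h1 h2) (enc_half ((dgLq p T).enc h1 h2 h3 h4 h5))) (enc_mul (dgp.enc h3) (enc_norm (enc_sub ((dgomq p T).enc h1 h2 h3 h7) (enc_mul (enc_norm ((dgdq p T).enc h1 h2 h3 h6 h7)) (enc_norm (dgWmA.enc h1 h2 h3)))))))⟩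
noncomputable def dgFTBAmA (p : Pm) (T : Th) : Fn7 := ⟨_, _, fun h1 h2 h3 h4 h5 h6 h7 => (enc_sub ((dgQ1fAmA p).enc h1 h2 h3) (enc_mul h1 (enc_norm ((dgQtAmA p T).enc h1 h2 h3 h4 h5 h6 h7))))⟩
noncomputable def dgFTPAmA (p : Pm) (T : Th) : Fn7 := ⟨_, _, fun h1 h2 h3 h4 h5 h6 h7 => (enc_add ((dgQPfAmA p).enc h1 h2 h3) (enc_mul h1 (enc_norm ((dgQtAmA p T).enc h1 h2 h3 h4 h5 h6 h7))))⟩
noncomputable def dgQtAmB (p : Pm) (T : Th) : Fn7 := ⟨_, _, fun h1 h2 h3 h4 h5 h6 h7 => (enc_sub (enc_add (dgEq.enc h1 h2) (enc_half ((dgLq p T).enc h1 h2 h3 h4 h5))) (enc_mul (dgq1.enc h3) (enc_norm (enc_sub (enc_neg ((dgomq p T).enc h1 h2 h3 h7)) (enc_mul (enc_norm ((dgdq p T).enc h1 h2 h3 h6 h7)) (enc_norm (dgWmB.enc h1 h2 h3)))))))⟩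
noncomputable def dgFTBAmB (p : Pm) (T : Th) : Fn7 := ⟨_, _, fun h1 h2 h3 h4 h5 h6 h7 => (enc_sub ((dgQ1fAmB p).enc h1 h2 h3) (enc_mul h1 (enc_norm ((dgQtAmB p T).enc h1 h2 h3 h4 h5 h6 h7))))⟩
noncomputable def dgFTPAmB (p : Pm) (T : Th) : Fn7 := ⟨_, _, fun h1 h2 h3 h4 h5 h6 h7 => (enc_add ((dgQPfAmB p).enc h1 h2 h3) (enc_mul h1 (enc_norm ((dgQtAmB p T).enc h1 h2 h3 h4 h5 h6 h7))))⟩
noncomputable def dgQtBpA (p : Pm) (T : Th) : Fn7 := ⟨_, _, fun h1 h2 h3 h4 h5 h6 h7 => (enc_sub (enc_sub (dgEq.enc h1 h2) (enc_half ((dgLq p T).enc h1 h2 h3 h4 h5))) (enc_mul (dgp.enc h3) (enc_norm (enc_add ((dgomq p T).enc h1 h2 h3 h7) (enc_mul (enc_norm ((dgdq p T).enc h1 h2 h3 h6 h7)) (enc_norm (dgWpA.enc h1 h2 h3)))))))⟩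
noncomputable def dgFTBBpA (p : Pm) (T : Th) : Fn7 := ⟨_, _, fun h1 h2 h3 h4 h5 h6 h7 => (enc_sub ((dgQ1fBpA p).enc h1 h2 h3) (enc_mul h1 (enc_norm ((dgQtBpA p T).enc h1 h2 h3 h4 h5 h6 h7))))⟩
noncomputable def dgFTPBpA (p : Pm) (T : Th) : Fn7 := ⟨_, _, fun h1 h2 h3 h4 h5 h6 h7 => (enc_add ((dgQPfBpA p).enc h1 h2 h3) (enc_mul h1 (enc_norm ((dgQtBpA p T).enc h1 h2 h3 h4 h5 h6 h7))))⟩
noncomputable def dgQtBpB (p : Pm) (T : Th) : Fn7 := ⟨_, _, fun h1 h2 h3 h4 h5 h6 h7 => (enc_sub (enc_sub (dgEq.enc h1 h2) (enc_half ((dgLq p T).enc h1 h2 h3 h4 h5))) (enc_mul (dgq1.enc h3) (enc_norm (enc_sub (enc_mul (enc_norm ((dgdq p T).enc h1 h2 h3 h6 h7)) (enc_norm (dgWpB.enc h1 h2 h3))) ((dgomq p T).enc h1 h2 h3 h7)))))⟩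
noncomputable def dgFTBBpB (p : Pm) (T : Th) : Fn7 := ⟨_, _, fun h1 h2 h3 h4 h5 h6 h7 => (enc_sub ((dgQ1fBpB p).enc h1 h2 h3) (enc_mul h1 (enc_norm ((dgQtBpB p T).enc h1 h2 h3 h4 h5 h6 h7))))⟩
noncomputable def dgFTPBpB (p : Pm) (T : Th) : Fn7 := ⟨_, _, fun h1 h2 h3 h4 h5 h6 h7 => (enc_add ((dgQPfBpB p).enc h1 h2 h3) (enc_mul h1 (enc_norm ((dgQtBpB p T).enc h1 h2 h3 h4 h5 h6 h7))))⟩
noncomputable def dgQtBmA (p : Pm) (T : Th) : Fn7 := ⟨_, _, fun h1 h2 h3 h4 h5 h6 h7 => (enc_sub (enc_sub (dgEq.enc h1 h2) (enc_half ((dgLq p T).enc h1 h2 h3 h4 h5))) (enc_mul (dgp.enc h3) (enc_norm (enc_sub ((dgomq p T).enc h1 h2 h3 h7) (enc_mul (enc_norm ((dgdq p T).enc h1 h2 h3 h6 h7)) (enc_norm (dgWmA.enc h1 h2 h3)))))))⟩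
noncomputable def dgFTBBmA (p : Pm) (T : Th) : Fn7 := ⟨_, _, fun h1 h2 h3 h4 h5 h6 h7 => (enc_sub ((dgQ1fBmA p).enc h1 h2 h3) (enc_mul h1 (enc_norm ((dgQtBmA p T).enc h1 h2 h3 h4 h5 h6 h7))))⟩
noncomputable def dgFTPBmA (p : Pm) (T : Th) : Fn7 := ⟨_, _, fun h1 h2 h3 h4 h5 h6 h7 => (enc_add ((dgQPfBmA p).enc h1 h2 h3) (enc_mul h1 (enc_norm ((dgQtBmA p T).enc h1 h2 h3 h4 h5 h6 h7))))⟩
noncomputable def dgQtBmB (p : Pm) (T : Th) : Fn7 := ⟨_, _, fun h1 h2 h3 h4 h5 h6 h7 => (enc_sub (enc_sub (dgEq.enc h1 h2) (enc_half ((dgLq p T).enc h1 h2 h3 h4 h5))) (enc_mul (dgq1.enc h3) (enc_norm (enc_sub (enc_neg ((dgomq p T).enc h1 h2 h3 h7)) (enc_mul (enc_norm ((dgdq p T).enc h1 h2 h3 h6 h7)) (enc_norm (dgWmB.enc h1 h2 h3)))))))⟩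
noncomputable def dgFTBBmB (p : Pm) (T : Th) : Fn7 := ⟨_, _, fun h1 h2 h3 h4 h5 h6 h7 => (enc_sub ((dgQ1fBmB p).enc h1 h2 h3) (enc_mul h1 (enc_norm ((dgQtBmB p T).enc h1 h2 h3 h4 h5 h6 h7))))⟩
noncomputable def dgFTPBmB (p : Pm) (T : Th) : Fn7 := ⟨_, _, fun h1 h2 h3 h4 h5 h6 h7 => (enc_add ((dgQPfBmB p).enc h1 h2 h3) (enc_mul h1 (enc_norm ((dgQtBmB p T).enc h1 h2 h3 h4 h5 h6 h7))))⟩
noncomputable def dgCv : Fn2 := ⟨_, _, fun h1 h2 => (enc_norm (enc_mul h1 h2))⟩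
noncomputable def dgCs : Fn2 := ⟨_, _, fun h1 h2 => (enc_norm (enc_add (dgw.enc h1) (dgCv.enc h1 h2)))⟩
noncomputable def dgCP : Fn2 := ⟨_, _, fun h1 h2 => (dgxw.enc (dgCs.enc h1 h2))⟩
noncomputable def dgCe : Fn2 := ⟨_, _, fun h1 h2 => (enc_norm (enc_add (enc_half (dgCP.enc h1 h2)) (enc_rat _ 3 4)))⟩
noncomputable def dgCh : Fn2 := ⟨_, _, fun h1 h2 => (enc_norm (enc_mul (dgCs.enc h1 h2) (dgCe.enc h1 h2)))⟩
noncomputable def dgCr1 (p : Pm) : Fn3 := ⟨_, _, fun h1 h2 h3 => (enc_sub (enc_mul (p.c0.enc h3) (enc_norm (enc_mul (enc_norm (enc_sub (enc_half (enc_sub (dgCP.enc h1 h2) (dgCe.enc h1 h2))) (enc_mul (dgCh.enc h1 h2) (dgCP.enc h1 h2)))) (enc_inv (enc_sub (enc_pnc _ 1) (dgCh.enc h1 h2)))))) (enc_add (enc_add (p.k12.enc h3) (enc_mul (p.j12.enc h3) (dgCh.enc h1 h2))) (enc_add (enc_mul (enc_sq (dgCh.enc h1 h2)) (p.c12.enc h3))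 ((pfn p.l12).enc (dgCh.enc h1 h2) h3))))⟩
noncomputable def dgCl1 (p : Pm) : Fn3 := ⟨_, _, fun h1 h2 h3 => (enc_neg (enc_add (enc_mul (p.mb.enc h3) (dgCe.enc h1 h2)) (enc_add (enc_mul (dgCe.enc h1 h2) (enc_norm (enc_mul (dgCh.enc h1 h2) (p.cb.enc h3)))) ((sfn p.lb).enc (dgCh.enc h1 h2) (dgCs.enc h1 h2) h3))))⟩
noncomputable def dgCx (C : CvP) : Fn2 := ⟨_, _, fun h1 h2 => (C.xs.enc (dgCv.enc h1 h2))⟩
noncomputable def dgCX2 (C : CvP) : Fn2 := ⟨_, _, fun h1 h2 => (enc_norm (enc_sub (enc_rat _ 1 2) (enc_mul (dgCv.enc h1 h2) ((dgCx C).enc h1 h2))))⟩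
noncomputable def dgCK_4 (p : Pm) (C : CvP) : Fn3 := ⟨_, _, fun h1 h2 h3 => (C.Bs.enc (dgCv.enc h1 h2) h3)⟩
noncomputable def dgCK (p : Pm) (C : CvP) : Fn3 := ⟨_, _, fun h1 h2 h3 => (enc_sub (enc_half ((dgCK_4 p C).enc h1 h2 h3)) (enc_mul ((dgCx C).enc h1 h2) (enc_norm (enc_add (p.c0.enc h3) (enc_mul (dgCv.enc h1 h2) ((dgCK_4 p C).enc h1 h2 h3))))))⟩
noncomputable def dgCL (C : CvP) : Fn3 := ⟨_, _, fun h1 h2 h3 => (enc_neg (enc_mul ((dgCX2 C).enc h1 h2) (C.sX.enc (dgCv.enc h1 h2) h3)))⟩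
noncomputable def dgClo (N : NdP) : Fn1 := ⟨_, _, fun h1 => (N.sc.enc (dgxw.enc (dgw.enc h1)))⟩
noncomputable def dgCz (C : CvP) : Fn2 := ⟨_, _, fun h1 h2 => (enc_norm (enc_add (dgCP.enc h1 h2) ((dgCx C).enc h1 h2)))⟩
noncomputable def dgCz3 (C : CvP) : Fn2 := ⟨_, _, fun h1 h2 => (enc_norm (enc_add (enc_mul (dgtg.enc h1) (dgCP.enc h1 h2)) (enc_mul h2 ((dgCz C).enc h1 h2))))⟩
noncomputable def dgCGr (p : Pm) (T : Th) : Fn2 := ⟨_, _, fun h1 h2 => (enc_norm (enc_add (enc_half (p.c0.enc h2)) (enc_mul h1 (T.gr.enc h1 h2))))⟩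
noncomputable def dgCGl (p : Pm) (T : Th) : Fn2 := ⟨_, _, fun h1 h2 => (enc_norm (enc_add ((dga3c p).enc h2) (enc_mul h1 (T.gl.enc h1 h2))))⟩
noncomputable def dgCrw (p : Pm) (N : NdP) (T : Th) : Fn3 := ⟨_, _, fun h1 h2 h3 => (enc_add (enc_mul ((dgClo N).enc h1) ((dgLB N).enc h1 h3)) (enc_mul (enc_norm (enc_sub (dgCP.enc h1 h2) ((dgClo N).enc h1))) ((dgCGr p T).enc h1 h3)))⟩
noncomputable def dgCrv (p : Pm) (T : Th) (C : CvP) : Fn3 := ⟨_, _, fun h1 h2 h3 => (enc_mul ((dgCz C).enc h1 h2) ((dgCGr p T).enc h1 h3))⟩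
noncomputable def dgClw (p : Pm) (N : NdP) (T : Th) : Fn3 := ⟨_, _, fun h1 h2 h3 => (enc_add (enc_mul ((dgClo N).enc h1) ((dgLX N).enc h1 h3)) (enc_mul (enc_norm (enc_sub (dgCP.enc h1 h2) ((dgClo N).enc h1))) ((dgCGl p T).enc h1 h3)))⟩
noncomputable def dgClv (p : Pm) (T : Th) (C : CvP) : Fn3 := ⟨_, _, fun h1 h2 h3 => (enc_mul ((dgCz C).enc h1 h2) ((dgCGl p T).enc h1 h3))⟩
noncomputable def dgCR2 (p : Pm) (C : CvP) : Fn3 := ⟨_, _, fun h1 h2 h3 => (enc_neg (enc_add (enc_half (p.c0.enc h3)) (enc_mul (dgCv.enc h1 h2) (enc_norm ((dgCK p C).enc h1 h2 h3)))))⟩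
noncomputable def dgCR3 (p : Pm) (N : NdP) (T : Th) (C : CvP) : Fn3 := ⟨_, _, fun h1 h2 h3 => (enc_mul h1 (enc_norm (enc_add (enc_mul (dgtg.enc h1) (enc_norm ((dgCrw p N T).enc h1 h2 h3))) (enc_mul h2 (enc_norm ((dgCrv p T C).enc h1 h2 h3))))))⟩
noncomputable def dgCew : Fn2 := ⟨_, _, fun h1 h2 => (enc_norm (enc_half (enc_subr 1 2 (enc_mul (enc_norm (enc_add (enc_pnc _ 1) (dgCv.enc h1 h2))) (dgCP.enc h1 h2)))))⟩
noncomputable def dgCev (C : CvP) : Fn2 := ⟨_, _, fun h1 h2 => (enc_norm (enc_half (enc_sub (enc_mul (enc_norm (enc_add (enc_pnc _ 1) (dgCv.enc h1 h2))) (dgCP.enc h1 h2)) (enc_mul (enc_norm (enc_sub (enc_pnc _ 1) (dgCs.enc h1 h2))) ((dgCx C).enc h1 h2)))))⟩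
noncomputable def dgCdw (p : Pm) (N : NdP) (T : Th) : Fn3 := ⟨_, _, fun h1 h2 h3 => (enc_sub ((dgCrw p N T).enc h1 h2 h3) ((dgCr1 p).enc h1 h2 h3))⟩
noncomputable def dgCdv (p : Pm) (T : Th) (C : CvP) : Fn3 := ⟨_, _, fun h1 h2 h3 => (enc_add (enc_sub ((dgCrv p T C).enc h1 h2 h3) ((dgCr1 p).enc h1 h2 h3)) ((dgCK p C).enc h1 h2 h3))⟩
noncomputable def dgCy1 : Fn2 := ⟨_, _, fun h1 h2 => (enc_norm (enc_sub (enc_pnc _ 1) (dgCs.enc h1 h2)))⟩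
noncomputable def dgCy2 : Fn2 := ⟨_, _, fun h1 h2 => (enc_norm (enc_add (enc_pnc _ 1) (dgCv.enc h1 h2)))⟩
noncomputable def dgCyy : Fn2 := ⟨_, _, fun h1 h2 => (enc_norm (enc_add (enc_nat 2 (dgCy1.enc h1 h2)) (dgCy2.enc h1 h2)))⟩
noncomputable def dgCyq : Fn2 := ⟨_, _, fun h1 h2 => (enc_norm (enc_add (enc_nat 2 (dgCy2.enc h1 h2)) (dgCy1.enc h1 h2)))⟩
noncomputable def dgCmw (p : Pm) (N : NdP) (T : Th) : Fn3 := ⟨_, _, fun h1 h2 h3 => (enc_sub ((dgCl1 p).enc h1 h2 h3) ((dgClw p N T).enc h1 h2 h3))⟩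
noncomputable def dgCmv (p : Pm) (T : Th) (C : CvP) : Fn3 := ⟨_, _, fun h1 h2 h3 => (enc_sub (enc_add ((dgCl1 p).enc h1 h2 h3) ((dgCL C).enc h1 h2 h3)) ((dgClv p T C).enc h1 h2 h3))⟩
noncomputable def dgCLfwA (p : Pm) (N : NdP) (T : Th) : Fn3 := ⟨_, _, fun h1 h2 h3 => (enc_half ((dgCmw p N T).enc h1 h2 h3))⟩
noncomputable def dgCLnwA (p : Pm) (N : NdP) (T : Th) : Fn3 := ⟨_, _, fun h1 h2 h3 => (enc_half (enc_mul (p.mu.enc h3) (enc_norm (enc_sub (enc_mul (p.nx.enc h3) (enc_norm ((dgCmw p N T).enc h1 h2 h3))) (enc_sub (enc_mul (dgCy1.enc h1 h2) (enc_norm ((dgCl1 p).enc h1 h2 h3))) (enc_mul (dgu.enc h1) (enc_norm ((dgClw p N T).enc h1 h2 h3))))))))⟩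
noncomputable def dgCLfwB (p : Pm) (N : NdP) (T : Th) : Fn3 := ⟨_, _, fun h1 h2 h3 => (enc_neg (enc_half ((dgCmw p N T).enc h1 h2 h3)))⟩
noncomputable def dgCLnwB (p : Pm) (N : NdP) (T : Th) : Fn3 := ⟨_, _, fun h1 h2 h3 => (enc_half (enc_mul (p.mu.enc h3) (enc_norm (enc_sub (enc_sub (enc_mul (dgCyq.enc h1 h2) (enc_norm ((dgCl1 p).enc h1 h2 h3))) (enc_mul (dgu.enc h1) (enc_norm ((dgClw p N T).enc h1 h2 h3)))) (enc_mul (p.nx.enc h3) (enc_norm ((dgCmw p N T).enc h1 h2 h3)))))))⟩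
noncomputable def dgCLfvA (p : Pm) (T : Th) (C : CvP) : Fn3 := ⟨_, _, fun h1 h2 h3 => (enc_half ((dgCmv p T C).enc h1 h2 h3))⟩
noncomputable def dgCLnvA (p : Pm) (T : Th) (C : CvP) : Fn3 := ⟨_, _, fun h1 h2 h3 => (enc_half (enc_mul (p.mu.enc h3) (enc_norm (enc_sub (enc_mul (p.nx.enc h3) (enc_norm ((dgCmv p T C).enc h1 h2 h3))) (enc_sub (enc_add (enc_mul (dgCy1.enc h1 h2) (enc_norm ((dgCl1 p).enc h1 h2 h3))) (enc_mul (dgCyy.enc h1 h2) (enc_norm ((dgCL C).enc h1 h2 h3)))) (enc_mul (dgu.enc h1) (enc_norm ((dgClv p T C).enc h1 h2 h3))))))))⟩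
noncomputable def dgCLfvB (p : Pm) (T : Th) (C : CvP) : Fn3 := ⟨_, _, fun h1 h2 h3 => (enc_neg (enc_half ((dgCmv p T C).enc h1 h2 h3)))⟩
noncomputable def dgCLnvB (p : Pm) (T : Th) (C : CvP) : Fn3 := ⟨_, _, fun h1 h2 h3 => (enc_half (enc_mul (p.mu.enc h3) (enc_norm (enc_sub (enc_sub (enc_add (enc_mul (dgCy2.enc h1 h2) (enc_norm ((dgCL C).enc h1 h2 h3))) (enc_mul (dgCyq.enc h1 h2) (enc_norm ((dgCl1 p).enc h1 h2 h3)))) (enc_mul (dgu.enc h1) (enc_norm ((dgClv p T C).enc h1 h2 h3)))) (enc_mul (p.nx.enc h3) (enc_norm ((dgCmv p T C).enc h1 h2 h3)))))))⟩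
noncomputable def dgCrr : Fn2 := ⟨_, _, fun h1 h2 => (enc_norm (enc_add (dgCv.enc h1 h2) (dgw.enc h1)))⟩
noncomputable def dgCWpA : Fn3 := ⟨_, _, fun h1 h2 h3 => (enc_mul (enc_norm (enc_sub (enc_pnc _ 1) (dgCrr.enc h1 h2))) (enc_norm (enc_sub (enc_mul h3 (enc_norm (enc_add (enc_pnc _ 1) (dgCrr.enc h1 h2)))) (dgCv.enc h1 h2))))⟩
noncomputable def dgCWpB : Fn3 := ⟨_, _, fun h1 h2 h3 => (enc_mul (enc_norm (enc_sub (enc_pnc _ 1) (dgCrr.enc h1 h2))) (enc_norm (enc_sub (enc_pnc _ 1) (enc_sub (enc_mul h3 (enc_norm (enc_add (enc_pnc _ 1) (dgCrr.enc h1 h2)))) (dgCv.enc h1 h2)))))⟩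
noncomputable def dgCWmA : Fn3 := ⟨_, _, fun h1 h2 h3 => (enc_mul (enc_norm (enc_sub (enc_pnc _ 1) (dgCrr.enc h1 h2))) (enc_norm (enc_sub (enc_mul h3 (enc_norm (enc_add (enc_pnc _ 1) (dgCrr.enc h1 h2)))) (dgw.enc h1))))⟩
noncomputable def dgCWmB : Fn3 := ⟨_, _, fun h1 h2 h3 => (enc_mul (enc_norm (enc_sub (enc_pnc _ 1) (dgCrr.enc h1 h2))) (enc_norm (enc_sub (enc_pnc _ 1) (enc_sub (enc_mul h3 (enc_norm (enc_add (enc_pnc _ 1) (dgCrr.enc h1 h2)))) (dgw.enc h1)))))⟩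
noncomputable def dgCFfwApA (p : Pm) (N : NdP) (T : Th) (C : CvP) : Fn3 := ⟨_, _, fun h1 h2 h3 => (enc_sub (enc_add (dgCew.enc h1 h2) ((dgCLfwA p N T).enc h1 h2 h3)) (enc_mul (dgp.enc h3) (enc_norm (enc_add ((dgCR2 p C).enc h1 h2 h3) (enc_mul (enc_norm ((dgCdw p N T).enc h1 h2 h3)) (enc_norm (dgCWpA.enc h1 h2 h3)))))))⟩
noncomputable def dgCFfvApA (p : Pm) (N : NdP) (T : Th) (C : CvP) : Fn3 := ⟨_, _, fun h1 h2 h3 => (enc_sub (enc_add ((dgCev C).enc h1 h2) ((dgCLfvA p T C).enc h1 h2 h3)) (enc_mul (dgp.enc h3) (enc_norm (enc_add ((dgCR3 p N T C).enc h1 h2 h3) (enc_mul (enc_norm ((dgCdv p T C).enc h1 h2 h3)) (enc_norm (dgCWpA.enc h1 h2 h3)))))))⟩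
noncomputable def dgCSfApA (p : Pm) (N : NdP) (T : Th) (C : CvP) : Fn3 := ⟨_, _, fun h1 h2 h3 => (enc_add (enc_mul (dgtg.enc h1) (enc_norm ((dgCFfwApA p N T C).enc h1 h2 h3))) (enc_mul h2 (enc_norm ((dgCFfvApA p N T C).enc h1 h2 h3))))⟩
noncomputable def dgCFnwApA (p : Pm) (N : NdP) (T : Th) (C : CvP) : Fn3 := ⟨_, _, fun h1 h2 h3 => (enc_sub (enc_add (dgCew.enc h1 h2) ((dgCLnwA p N T).enc h1 h2 h3)) (enc_mul (dgp.enc h3) (enc_norm (enc_add ((dgCR2 p C).enc h1 h2 h3) (enc_mul (enc_norm ((dgCdw p N T).enc h1 h2 h3)) (enc_norm (dgCWpA.enc h1 h2 h3)))))))⟩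
noncomputable def dgCFnvApA (p : Pm) (N : NdP) (T : Th) (C : CvP) : Fn3 := ⟨_, _, fun h1 h2 h3 => (enc_sub (enc_add ((dgCev C).enc h1 h2) ((dgCLnvA p T C).enc h1 h2 h3)) (enc_mul (dgp.enc h3) (enc_norm (enc_add ((dgCR3 p N T C).enc h1 h2 h3) (enc_mul (enc_norm ((dgCdv p T C).enc h1 h2 h3)) (enc_norm (dgCWpA.enc h1 h2 h3)))))))⟩
noncomputable def dgCSnApA (p : Pm) (N : NdP) (T : Th) (C : CvP) : Fn3 := ⟨_, _, fun h1 h2 h3 => (enc_add (enc_mul (dgtg.enc h1) (enc_norm ((dgCFnwApA p N T C).enc h1 h2 h3))) (enc_mul h2 (enc_norm ((dgCFnvApA p N T C).enc h1 h2 h3))))⟩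
noncomputable def dgCFfwApB (p : Pm) (N : NdP) (T : Th) (C : CvP) : Fn3 := ⟨_, _, fun h1 h2 h3 => (enc_sub (enc_add (dgCew.enc h1 h2) ((dgCLfwA p N T).enc h1 h2 h3)) (enc_mul (dgq1.enc h3) (enc_norm (enc_sub (enc_mul (enc_norm ((dgCdw p N T).enc h1 h2 h3)) (enc_norm (dgCWpB.enc h1 h2 h3))) ((dgCR2 p C).enc h1 h2 h3)))))⟩
noncomputable def dgCFfvApB (p : Pm) (N : NdP) (T : Th) (C : CvP) : Fn3 := ⟨_, _, fun h1 h2 h3 => (enc_sub (enc_add ((dgCev C).enc h1 h2) ((dgCLfvA p T C).enc h1 h2 h3)) (enc_mul (dgq1.enc h3) (enc_norm (enc_sub (enc_mul (enc_norm ((dgCdv p T C).enc h1 h2 h3)) (enc_norm (dgCWpB.enc h1 h2 h3))) ((dgCR3 p N T C).enc h1 h2 h3)))))⟩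
noncomputable def dgCSfApB (p : Pm) (N : NdP) (T : Th) (C : CvP) : Fn3 := ⟨_, _, fun h1 h2 h3 => (enc_add (enc_mul (dgtg.enc h1) (enc_norm ((dgCFfwApB p N T C).enc h1 h2 h3))) (enc_mul h2 (enc_norm ((dgCFfvApB p N T C).enc h1 h2 h3))))⟩
noncomputable def dgCFnwApB (p : Pm) (N : NdP) (T : Th) (C : CvP) : Fn3 := ⟨_, _, fun h1 h2 h3 => (enc_sub (enc_add (dgCew.enc h1 h2) ((dgCLnwA p N T).enc h1 h2 h3)) (enc_mul (dgq1.enc h3) (enc_norm (enc_sub (enc_mul (enc_norm ((dgCdw p N T).enc h1 h2 h3)) (enc_norm (dgCWpB.enc h1 h2 h3))) ((dgCR2 p C).enc h1 h2 h3)))))⟩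
noncomputable def dgCFnvApB (p : Pm) (N : NdP) (T : Th) (C : CvP) : Fn3 := ⟨_, _, fun h1 h2 h3 => (enc_sub (enc_add ((dgCev C).enc h1 h2) ((dgCLnvA p T C).enc h1 h2 h3)) (enc_mul (dgq1.enc h3) (enc_norm (enc_sub (enc_mul (enc_norm ((dgCdv p T C).enc h1 h2 h3)) (enc_norm (dgCWpB.enc h1 h2 h3))) ((dgCR3 p N T C).enc h1 h2 h3)))))⟩
noncomputable def dgCSnApB (p : Pm) (N : NdP) (T : Th) (C : CvP) : Fn3 := ⟨_, _, fun h1 h2 h3 => (enc_add (enc_mul (dgtg.enc h1) (enc_norm ((dgCFnwApB p N T C).enc h1 h2 h3))) (enc_mul h2 (enc_norm ((dgCFnvApB p N T C).enc h1 h2 h3))))⟩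
noncomputable def dgCFfwAmA (p : Pm) (N : NdP) (T : Th) (C : CvP) : Fn3 := ⟨_, _, fun h1 h2 h3 => (enc_sub (enc_add (dgCew.enc h1 h2) ((dgCLfwA p N T).enc h1 h2 h3)) (enc_mul (dgp.enc h3) (enc_norm (enc_sub ((dgCR2 p C).enc h1 h2 h3) (enc_mul (enc_norm ((dgCdw p N T).enc h1 h2 h3)) (enc_norm (dgCWmA.enc h1 h2 h3)))))))⟩
noncomputable def dgCFfvAmA (p : Pm) (N : NdP) (T : Th) (C : CvP) : Fn3 := ⟨_, _, fun h1 h2 h3 => (enc_sub (enc_add ((dgCev C).enc h1 h2) ((dgCLfvA p T C).enc h1 h2 h3)) (enc_mul (dgp.enc h3) (enc_norm (enc_sub ((dgCR3 p N T C).enc h1 h2 h3) (enc_mul (enc_norm ((dgCdv p T C).enc h1 h2 h3)) (enc_norm (dgCWmA.enc h1 h2 h3)))))))⟩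
noncomputable def dgCSfAmA (p : Pm) (N : NdP) (T : Th) (C : CvP) : Fn3 := ⟨_, _, fun h1 h2 h3 => (enc_add (enc_mul (dgtg.enc h1) (enc_norm ((dgCFfwAmA p N T C).enc h1 h2 h3))) (enc_mul h2 (enc_norm ((dgCFfvAmA p N T C).enc h1 h2 h3))))⟩
noncomputable def dgCFnwAmA (p : Pm) (N : NdP) (T : Th) (C : CvP) : Fn3 := ⟨_, _, fun h1 h2 h3 => (enc_sub (enc_add (dgCew.enc h1 h2) ((dgCLnwA p N T).enc h1 h2 h3)) (enc_mul (dgp.enc h3) (enc_norm (enc_sub ((dgCR2 p C).enc h1 h2 h3) (enc_mul (enc_norm ((dgCdw p N T).enc h1 h2 h3)) (enc_norm (dgCWmA.enc h1 h2 h3)))))))⟩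
noncomputable def dgCFnvAmA (p : Pm) (N : NdP) (T : Th) (C : CvP) : Fn3 := ⟨_, _, fun h1 h2 h3 => (enc_sub (enc_add ((dgCev C).enc h1 h2) ((dgCLnvA p T C).enc h1 h2 h3)) (enc_mul (dgp.enc h3) (enc_norm (enc_sub ((dgCR3 p N T C).enc h1 h2 h3) (enc_mul (enc_norm ((dgCdv p T C).enc h1 h2 h3)) (enc_norm (dgCWmA.enc h1 h2 h3)))))))⟩
noncomputable def dgCSnAmA (p : Pm) (N : NdP) (T : Th) (C : CvP) : Fn3 := ⟨_, _, fun h1 h2 h3 => (enc_add (enc_mul (dgtg.enc h1) (enc_norm ((dgCFnwAmA p N T C).enc h1 h2 h3))) (enc_mul h2 (enc_norm ((dgCFnvAmA p N T C).enc h1 h2 h3))))⟩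
noncomputable def dgCFfwAmB (p : Pm) (N : NdP) (T : Th) (C : CvP) : Fn3 := ⟨_, _, fun h1 h2 h3 => (enc_sub (enc_add (dgCew.enc h1 h2) ((dgCLfwA p N T).enc h1 h2 h3)) (enc_mul (dgq1.enc h3) (enc_norm (enc_sub (enc_neg ((dgCR2 p C).enc h1 h2 h3)) (enc_mul (enc_norm ((dgCdw p N T).enc h1 h2 h3)) (enc_norm (dgCWmB.enc h1 h2 h3)))))))⟩
noncomputable def dgCFfvAmB (p : Pm) (N : NdP) (T : Th) (C : CvP) : Fn3 := ⟨_, _, fun h1 h2 h3 => (enc_sub (enc_add ((dgCev C).enc h1 h2) ((dgCLfvA p T C).enc h1 h2 h3)) (enc_mul (dgq1.enc h3) (enc_norm (enc_sub (enc_neg ((dgCR3 p N T C).enc h1 h2 h3)) (enc_mul (enc_norm ((dgCdv p T C).enc h1 h2 h3)) (enc_norm (dgCWmB.enc h1 h2 h3)))))))⟩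
noncomputable def dgCSfAmB (p : Pm) (N : NdP) (T : Th) (C : CvP) : Fn3 := ⟨_, _, fun h1 h2 h3 => (enc_add (enc_mul (dgtg.enc h1) (enc_norm ((dgCFfwAmB p N T C).enc h1 h2 h3))) (enc_mul h2 (enc_norm ((dgCFfvAmB p N T C).enc h1 h2 h3))))⟩
noncomputable def dgCFnwAmB (p : Pm) (N : NdP) (T : Th) (C : CvP) : Fn3 := ⟨_, _, fun h1 h2 h3 => (enc_sub (enc_add (dgCew.enc h1 h2) ((dgCLnwA p N T).enc h1 h2 h3)) (enc_mul (dgq1.enc h3) (enc_norm (enc_sub (enc_neg ((dgCR2 p C).enc h1 h2 h3)) (enc_mul (enc_norm ((dgCdw p N T).enc h1 h2 h3)) (enc_norm (dgCWmB.enc h1 h2 h3)))))))⟩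
noncomputable def dgCFnvAmB (p : Pm) (N : NdP) (T : Th) (C : CvP) : Fn3 := ⟨_, _, fun h1 h2 h3 => (enc_sub (enc_add ((dgCev C).enc h1 h2) ((dgCLnvA p T C).enc h1 h2 h3)) (enc_mul (dgq1.enc h3) (enc_norm (enc_sub (enc_neg ((dgCR3 p N T C).enc h1 h2 h3)) (enc_mul (enc_norm ((dgCdv p T C).enc h1 h2 h3)) (enc_norm (dgCWmB.enc h1 h2 h3)))))))⟩
noncomputable def dgCSnAmB (p : Pm) (N : NdP) (T : Th) (C : CvP) : Fn3 := ⟨_, _, fun h1 h2 h3 => (enc_add (enc_mul (dgtg.enc h1) (enc_norm ((dgCFnwAmB p N T C).enc h1 h2 h3))) (enc_mul h2 (enc_norm ((dgCFnvAmB p N T C).enc h1 h2 h3))))⟩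
noncomputable def dgCFfwBpA (p : Pm) (N : NdP) (T : Th) (C : CvP) : Fn3 := ⟨_, _, fun h1 h2 h3 => (enc_sub (enc_add (dgCew.enc h1 h2) ((dgCLfwB p N T).enc h1 h2 h3)) (enc_mul (dgp.enc h3) (enc_norm (enc_add ((dgCR2 p C).enc h1 h2 h3) (enc_mul (enc_norm ((dgCdw p N T).enc h1 h2 h3)) (enc_norm (dgCWpA.enc h1 h2 h3)))))))⟩
noncomputable def dgCFfvBpA (p : Pm) (N : NdP) (T : Th) (C : CvP) : Fn3 := ⟨_, _, fun h1 h2 h3 => (enc_sub (enc_add ((dgCev C).enc h1 h2) ((dgCLfvB p T C).enc h1 h2 h3)) (enc_mul (dgp.enc h3) (enc_norm (enc_add ((dgCR3 p N T C).enc h1 h2 h3) (enc_mul (enc_norm ((dgCdv p T C).enc h1 h2 h3)) (enc_norm (dgCWpA.enc h1 h2 h3)))))))⟩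
noncomputable def dgCSfBpA (p : Pm) (N : NdP) (T : Th) (C : CvP) : Fn3 := ⟨_, _, fun h1 h2 h3 => (enc_add (enc_mul (dgtg.enc h1) (enc_norm ((dgCFfwBpA p N T C).enc h1 h2 h3))) (enc_mul h2 (enc_norm ((dgCFfvBpA p N T C).enc h1 h2 h3))))⟩
noncomputable def dgCFnwBpA (p : Pm) (N : NdP) (T : Th) (C : CvP) : Fn3 := ⟨_, _, fun h1 h2 h3 => (enc_sub (enc_add (dgCew.enc h1 h2) ((dgCLnwB p N T).enc h1 h2 h3)) (enc_mul (dgp.enc h3) (enc_norm (enc_add ((dgCR2 p C).enc h1 h2 h3) (enc_mul (enc_norm ((dgCdw p N T).enc h1 h2 h3)) (enc_norm (dgCWpA.enc h1 h2 h3)))))))⟩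
noncomputable def dgCFnvBpA (p : Pm) (N : NdP) (T : Th) (C : CvP) : Fn3 := ⟨_, _, fun h1 h2 h3 => (enc_sub (enc_add ((dgCev C).enc h1 h2) ((dgCLnvB p T C).enc h1 h2 h3)) (enc_mul (dgp.enc h3) (enc_norm (enc_add ((dgCR3 p N T C).enc h1 h2 h3) (enc_mul (enc_norm ((dgCdv p T C).enc h1 h2 h3)) (enc_norm (dgCWpA.enc h1 h2 h3)))))))⟩
noncomputable def dgCSnBpA (p : Pm) (N : NdP) (T : Th) (C : CvP) : Fn3 := ⟨_, _, fun h1 h2 h3 => (enc_add (enc_mul (dgtg.enc h1) (enc_norm ((dgCFnwBpA p N T C).enc h1 h2 h3))) (enc_mul h2 (enc_norm ((dgCFnvBpA p N T C).enc h1 h2 h3))))⟩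
noncomputable def dgCFfwBpB (p : Pm) (N : NdP) (T : Th) (C : CvP) : Fn3 := ⟨_, _, fun h1 h2 h3 => (enc_sub (enc_add (dgCew.enc h1 h2) ((dgCLfwB p N T).enc h1 h2 h3)) (enc_mul (dgq1.enc h3) (enc_norm (enc_sub (enc_mul (enc_norm ((dgCdw p N T).enc h1 h2 h3)) (enc_norm (dgCWpB.enc h1 h2 h3))) ((dgCR2 p C).enc h1 h2 h3)))))⟩
noncomputable def dgCFfvBpB (p : Pm) (N : NdP) (T : Th) (C : CvP) : Fn3 := ⟨_, _, fun h1 h2 h3 => (enc_sub (enc_add ((dgCev C).enc h1 h2) ((dgCLfvB p T C).enc h1 h2 h3)) (enc_mul (dgq1.enc h3) (enc_norm (enc_sub (enc_mul (enc_norm ((dgCdv p T C).enc h1 h2 h3)) (enc_norm (dgCWpB.enc h1 h2 h3))) ((dgCR3 p N T C).enc h1 h2 h3)))))⟩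
noncomputable def dgCSfBpB (p : Pm) (N : NdP) (T : Th) (C : CvP) : Fn3 := ⟨_, _, fun h1 h2 h3 => (enc_add (enc_mul (dgtg.enc h1) (enc_norm ((dgCFfwBpB p N T C).enc h1 h2 h3))) (enc_mul h2 (enc_norm ((dgCFfvBpB p N T C).enc h1 h2 h3))))⟩
noncomputable def dgCFnwBpB (p : Pm) (N : NdP) (T : Th) (C : CvP) : Fn3 := ⟨_, _, fun h1 h2 h3 => (enc_sub (enc_add (dgCew.enc h1 h2) ((dgCLnwB p N T).enc h1 h2 h3)) (enc_mul (dgq1.enc h3) (enc_norm (enc_sub (enc_mul (enc_norm ((dgCdw p N T).enc h1 h2 h3)) (enc_norm (dgCWpB.enc h1 h2 h3))) ((dgCR2 p C).enc h1 h2 h3)))))⟩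
noncomputable def dgCFnvBpB (p : Pm) (N : NdP) (T : Th) (C : CvP) : Fn3 := ⟨_, _, fun h1 h2 h3 => (enc_sub (enc_add ((dgCev C).enc h1 h2) ((dgCLnvB p T C).enc h1 h2 h3)) (enc_mul (dgq1.enc h3) (enc_norm (enc_sub (enc_mul (enc_norm ((dgCdv p T C).enc h1 h2 h3)) (enc_norm (dgCWpB.enc h1 h2 h3))) ((dgCR3 p N T C).enc h1 h2 h3)))))⟩
noncomputable def dgCSnBpB (p : Pm) (N : NdP) (T : Th) (C : CvP) : Fn3 := ⟨_, _, fun h1 h2 h3 => (enc_add (enc_mul (dgtg.enc h1) (enc_norm ((dgCFnwBpB p N T C).enc h1 h2 h3))) (enc_mul h2 (enc_norm ((dgCFnvBpB p N T C).enc h1 h2 h3))))⟩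
noncomputable def dgCFfwBmA (p : Pm) (N : NdP) (T : Th) (C : CvP) : Fn3 := ⟨_, _, fun h1 h2 h3 => (enc_sub (enc_add (dgCew.enc h1 h2) ((dgCLfwB p N T).enc h1 h2 h3)) (enc_mul (dgp.enc h3) (enc_norm (enc_sub ((dgCR2 p C).enc h1 h2 h3) (enc_mul (enc_norm ((dgCdw p N T).enc h1 h2 h3)) (enc_norm (dgCWmA.enc h1 h2 h3)))))))⟩
noncomputable def dgCFfvBmA (p : Pm) (N : NdP) (T : Th) (C : CvP) : Fn3 := ⟨_, _, fun h1 h2 h3 => (enc_sub (enc_add ((dgCev C).enc h1 h2) ((dgCLfvB p T C).enc h1 h2 h3)) (enc_mul (dgp.enc h3) (enc_norm (enc_sub ((dgCR3 p N T C).enc h1 h2 h3) (enc_mul (enc_norm ((dgCdv p T C).enc h1 h2 h3)) (enc_norm (dgCWmA.enc h1 h2 h3)))))))⟩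
noncomputable def dgCSfBmA (p : Pm) (N : NdP) (T : Th) (C : CvP) : Fn3 := ⟨_, _, fun h1 h2 h3 => (enc_add (enc_mul (dgtg.enc h1) (enc_norm ((dgCFfwBmA p N T C).enc h1 h2 h3))) (enc_mul h2 (enc_norm ((dgCFfvBmA p N T C).enc h1 h2 h3))))⟩
noncomputable def dgCFnwBmA (p : Pm) (N : NdP) (T : Th) (C : CvP) : Fn3 := ⟨_, _, fun h1 h2 h3 => (enc_sub (enc_add (dgCew.enc h1 h2) ((dgCLnwB p N T).enc h1 h2 h3)) (enc_mul (dgp.enc h3) (enc_norm (enc_sub ((dgCR2 p C).enc h1 h2 h3) (enc_mul (enc_norm ((dgCdw p N T).enc h1 h2 h3)) (enc_norm (dgCWmA.enc h1 h2 h3)))))))⟩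
noncomputable def dgCFnvBmA (p : Pm) (N : NdP) (T : Th) (C : CvP) : Fn3 := ⟨_, _, fun h1 h2 h3 => (enc_sub (enc_add ((dgCev C).enc h1 h2) ((dgCLnvB p T C).enc h1 h2 h3)) (enc_mul (dgp.enc h3) (enc_norm (enc_sub ((dgCR3 p N T C).enc h1 h2 h3) (enc_mul (enc_norm ((dgCdv p T C).enc h1 h2 h3)) (enc_norm (dgCWmA.enc h1 h2 h3)))))))⟩
noncomputable def dgCSnBmA (p : Pm) (N : NdP) (T : Th) (C : CvP) : Fn3 := ⟨_, _, fun h1 h2 h3 => (enc_add (enc_mul (dgtg.enc h1) (enc_norm ((dgCFnwBmA p N T C).enc h1 h2 h3))) (enc_mul h2 (enc_norm ((dgCFnvBmA p N T C).enc h1 h2 h3))))⟩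
noncomputable def dgCFfwBmB (p : Pm) (N : NdP) (T : Th) (C : CvP) : Fn3 := ⟨_, _, fun h1 h2 h3 => (enc_sub (enc_add (dgCew.enc h1 h2) ((dgCLfwB p N T).enc h1 h2 h3)) (enc_mul (dgq1.enc h3) (enc_norm (enc_sub (enc_neg ((dgCR2 p C).enc h1 h2 h3)) (enc_mul (enc_norm ((dgCdw p N T).enc h1 h2 h3)) (enc_norm (dgCWmB.enc h1 h2 h3)))))))⟩
noncomputable def dgCFfvBmB (p : Pm) (N : NdP) (T : Th) (C : CvP) : Fn3 := ⟨_, _, fun h1 h2 h3 => (enc_sub (enc_add ((dgCev C).enc h1 h2) ((dgCLfvB p T C).enc h1 h2 h3)) (enc_mul (dgq1.enc h3) (enc_norm (enc_sub (enc_neg ((dgCR3 p N T C).enc h1 h2 h3)) (enc_mul (enc_norm ((dgCdv p T C).enc h1 h2 h3)) (enc_norm (dgCWmB.enc h1 h2 h3)))))))⟩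
noncomputable def dgCSfBmB (p : Pm) (N : NdP) (T : Th) (C : CvP) : Fn3 := ⟨_, _, fun h1 h2 h3 => (enc_add (enc_mul (dgtg.enc h1) (enc_norm ((dgCFfwBmB p N T C).enc h1 h2 h3))) (enc_mul h2 (enc_norm ((dgCFfvBmB p N T C).enc h1 h2 h3))))⟩
noncomputable def dgCFnwBmB (p : Pm) (N : NdP) (T : Th) (C : CvP) : Fn3 := ⟨_, _, fun h1 h2 h3 => (enc_sub (enc_add (dgCew.enc h1 h2) ((dgCLnwB p N T).enc h1 h2 h3)) (enc_mul (dgq1.enc h3) (enc_norm (enc_sub (enc_neg ((dgCR2 p C).enc h1 h2 h3)) (enc_mul (enc_norm ((dgCdw p N T).enc h1 h2 h3)) (enc_norm (dgCWmB.enc h1 h2 h3)))))))⟩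
noncomputable def dgCFnvBmB (p : Pm) (N : NdP) (T : Th) (C : CvP) : Fn3 := ⟨_, _, fun h1 h2 h3 => (enc_sub (enc_add ((dgCev C).enc h1 h2) ((dgCLnvB p T C).enc h1 h2 h3)) (enc_mul (dgq1.enc h3) (enc_norm (enc_sub (enc_neg ((dgCR3 p N T C).enc h1 h2 h3)) (enc_mul (enc_norm ((dgCdv p T C).enc h1 h2 h3)) (enc_norm (dgCWmB.enc h1 h2 h3)))))))⟩
noncomputable def dgCSnBmB (p : Pm) (N : NdP) (T : Th) (C : CvP) : Fn3 := ⟨_, _, fun h1 h2 h3 => (enc_add (enc_mul (dgtg.enc h1) (enc_norm ((dgCFnwBmB p N T C).enc h1 h2 h3))) (enc_mul h2 (enc_norm ((dgCFnvBmB p N T C).enc h1 h2 h3))))⟩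
noncomputable def dgCxs (p : Pm) : Fn2 := ⟨_, _, fun h1 h2 => (p.sv.enc (dgCs.enc h1 h2))⟩
noncomputable def dgCxB (B : Sd) (C : CvP) : Fn2 := ⟨_, _, fun h1 h2 => (enc_norm (enc_sub ((dgCz3 C).enc h1 h2) (B.ch.enc h1)))⟩
noncomputable def dgCxA (A : Sd) (C : CvP) : Fn2 := ⟨_, _, fun h1 h2 => (enc_norm (enc_sub (A.ch.enc h1) ((dgCz3 C).enc h1 h2)))⟩

noncomputable def dgSL (p : Pm) (N : NdP) : Sd := ⟨dgLc N, dgLr p N, dgLl p N⟩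
noncomputable def dgSR (N : NdP) : Sd := ⟨dgRc N, dgRr N, dgRl N⟩
noncomputable def dgSC (p : Pm) : Sd := ⟨dgCc, dgr3c p, dgl3c p⟩
noncomputable def thLo (A B : Sd) : Th := ⟨dgTlr A B, dgTll A B, dgtr A B, dgtl A B⟩
noncomputable def thUp (A B : Sd) : Th := ⟨dgTur A B, dgTul A B, dgtr A B, dgtl A B⟩
noncomputable def thN (A : Sd) : Th := ⟨dgTnr A, dgTnl A, dgz2, dgz2⟩

end Pool.Agent.Strip051.PB.Dg
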