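import Pool.Agent.Strip051.PB.Lin

/-! # Two unit vectors at the corner `(1, 1, 2)`: coordinates

`t` is the abscissa of the circle of radius `√3` at the height of the sum, `t b` the abscissa of the
sum, `w = 2 - Y = t ^ 2 g`. -/

namespace Pool.Agent.Strip051.PB.Dg

open Pool.Agent.Strip051.PB

/-- `w / t ^ 2` -/
noncomputable def gv (t : ℝ) : ℝ := 2 / 3 * (1 + √(1 - t ^ 2 / 3))⁻¹

/-- the square of the length of the sum -/
noncomputable def qv (t b : ℝ) : ℝ := 3 - t ^ 2 * (1 - b ^ 2)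

/-- the rotation of the difference -/
noncomputable def kv (t b : ℝ) : ℝ := √((4 - qv t b) * (3 * qv t b)⁻¹)

/-- `(k - 1 / 3) / t ^ 2` -/
noncomputable def hv (t b : ℝ) : ℝ := 4 / 9 * (1 - b ^ 2) * (qv t b * (kv t b + 1 / 3))⁻¹

theorem gv_eq {t : ℝ} (ht : t ^ 2 ≤ 3) : gv t * (3 - 3 / 4 * (t ^ 2 * gv t)) = 1 := by
  have h1 : 0 ≤ 1 - t ^ 2 / 3 := by linarith
  have h2 := Real.sqrt_nonneg (1 - t ^ 2 / 3)
  have h3 := Real.sq_sqrt h1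
  unfold gv
  have h4 : (1 + √(1 - t ^ 2 / 3)) ≠ 0 := by linarith
  obtain ⟨r, hr⟩ : ∃ r, r = √(1 - t ^ 2 / 3) := ⟨_, rfl⟩
  rw [← hr] at h2 h3 h4 ⊢
  have h5 : t ^ 2 = 3 * (1 - r ^ 2) := by linarith
  rw [h5]
  field_simp
  ring

theorem gv_pos {t : ℝ} : 0 < gv t := by
  have h2 := Real.sqrt_nonneg (1 - t ^ 2 / 3)
  unfold gv
  positivity

/-- The value of `t ^ 2 g` is determined by `t`. -/
theorem gv_w {t Y : ℝ} (hY0 : 0 ≤ Y) (ht : t ^ 2 = 3 - 3 / 4 * Y ^ 2) :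
    2 - Y = t ^ 2 * gv t := by
  have h1 : 1 - t ^ 2 / 3 = (Y / 2) ^ 2 := by rw [ht]; ring
  unfold gv
  rw [h1, Real.sqrt_sq (by linarith), ht]
  have : 1 + Y / 2 ≠ 0 := by linarith
  field_simp
  ring

theorem qv_lo {t b : ℝ} (ht : t ^ 2 ≤ 1) : 2 ≤ qv t b := by
  unfold qv
  nlinarith [mul_nonneg (sq_nonneg t) (sq_nonneg b)]

/-- The relation between `k` and `q`. -/
theorem kv_sq {t b : ℝ} (ht : t ^ 2 ≤ 1) (hb : qv t b ≤ 4) :
    3 * qv t b * kv t b ^ 2 = 4 - qv t b := by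
  have h1 := qv_lo (b := b) ht
  have h2 : 0 ≤ (4 - qv t b) * (3 * qv t b)⁻¹ := by
    have : 0 ≤ 4 - qv t b := by linarith
    positivity
  unfold kv
  rw [Real.sq_sqrt h2]
  field_simp

theorem kv_nn {t b : ℝ} : 0 ≤ kv t b := Real.sqrt_nonneg _

theorem hv_eq {t b : ℝ} (ht : t ^ 2 ≤ 1) (hb : qv t b ≤ 4) :
    kv t b = 1 / 3 + t ^ 2 * hv t b := by
  have h1 := qv_lo (b := b) ht
  have h2 := kv_sq ht hb
  have h3 : 0 ≤ kv t b := kv_nn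
  unfold hv
  have h4 : qv t b * (kv t b + 1 / 3) ≠ 0 := by positivity
  have h5 : t ^ 2 * (1 - b ^ 2) = 3 - qv t b := by unfold qv; ring
  have h6 : t ^ 2 * (4 / 9 * (1 - b ^ 2) * (qv t b * (kv t b + 1 / 3))⁻¹) =
      4 / 9 * (3 - qv t b) * (qv t b * (kv t b + 1 / 3))⁻¹ := by
    rw [← h5]
    ring
  rw [h6]
  field_simp
  obtain ⟨q, hq⟩ : ∃ q, q = qv t b := ⟨_, rfl⟩
  obtain ⟨k, hk⟩ : ∃ k, k = kv t b := ⟨_, rfl⟩
  rw [← hq, ← hk] at h2 ⊢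
  linear_combination 27 * h2

/-- `k` from its defining relation -/
theorem kv_uniq {t b k : ℝ} (ht : t ^ 2 ≤ 1) (hk : 0 ≤ k)
    (h : 3 * qv t b * k ^ 2 = 4 - qv t b) : k = kv t b := by
  have h1 := qv_lo (b := b) ht
  unfold kv
  rw [← h]
  have : 3 * qv t b * k ^ 2 * (3 * qv t b)⁻¹ = k ^ 2 := by field_simp
  rw [this, Real.sqrt_sq hk]

/-- **Two unit vectors.** -/
theorem geo {y y' t b : ℝ} (hy : 3 / 4 * y ^ 2 ≤ 1) (hy' : 3 / 4 * y' ^ 2 ≤ 1) (hY : 0 < y + y')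
    (ht : t ^ 2 = 3 - 3 / 4 * (y + y') ^ 2) (ht1 : t ^ 2 ≤ 1)
    (hb : c1n y - c1n y' = t * b) :
    qv t b ≤ 4 ∧ y = 1 - (t * b * kv t b + t ^ 2 * gv t / 2) ∧
      y' = 1 + (t * b * kv t b - t ^ 2 * gv t / 2) ∧
      c1n y = 3 / 4 * (2 - t ^ 2 * gv t) * kv t b + t * b / 2 ∧
      c1n y' = 3 / 4 * (2 - t ^ 2 * gv t) * kv t b - t * b / 2 := by
  have c1 := Real.sq_sqrt (show 0 ≤ 1 - 3 / 4 * y ^ 2 by linarith)
  have c2 := Real.sq_sqrt (show 0 ≤ 1 - 3 / 4 * y' ^ 2 by linarith)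
  have p1 : 0 ≤ c1n y := Real.sqrt_nonneg _
  have p2 : 0 ≤ c1n y' := Real.sqrt_nonneg _
  rw [show √(1 - 3 / 4 * y ^ 2) = c1n y from rfl] at c1
  rw [show √(1 - 3 / 4 * y' ^ 2) = c1n y' from rfl] at c2
  have hw := gv_w hY.le ht
  rw [← hw]
  obtain ⟨Y, hYd⟩ : ∃ Y, Y = y + y' := ⟨_, rfl⟩
  obtain ⟨c, hc⟩ : ∃ c, c = c1n y := ⟨_, rfl⟩
  obtain ⟨c', hc'⟩ : ∃ c', c' = c1n y' := ⟨_, rfl⟩
  rw [← hYd] at ht hY ⊢
  rw [← hc] at c1 p1 hb ⊢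
  rw [← hc'] at c2 p2 hb ⊢
  obtain ⟨k, hk⟩ : ∃ k, k = (c + c') / (3 / 2 * Y) := ⟨_, rfl⟩
  have hk0 : 0 ≤ k := by rw [hk]; positivity
  have hs : c + c' = 3 / 2 * Y * k := by rw [hk]; field_simp
  have hd : y' - y = 2 * (t * b) * k := by
    have e1 : t * b * (c + c') = 3 / 4 * (y' - y) * Y := by
      rw [← hb, hYd]
      linear_combination c1 - c2
    rw [hs] at e1
    have e2 : Y * (t * b * (3 / 2) * k) = Y * (3 / 4 * (y' - y)) := by linear_combination e1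
    have e3 := mul_left_cancel₀ hY.ne' e2
    linear_combination -(4 / 3) * e3
  have hq : qv t b = (t * b) ^ 2 + 3 / 4 * Y ^ 2 := by
    unfold qv
    linear_combination -ht
  have hrel : 3 * qv t b * k ^ 2 = 4 - qv t b := by
    have e1 : (c + c') ^ 2 + 3 / 4 * (y' - y) ^ 2 = 4 - qv t b := by
      rw [hq, ← hb, hYd]
      linear_combination 2 * c1 + 2 * c2
    rw [hs, hd] at e1
    rw [hq]
    rw [hq] at e1
    linear_combination e1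
  have hkk : k = kv t b := kv_uniq ht1 hk0 hrel
  rw [← hkk]
  refine ⟨?_, ?_, ?_, ?_, ?_⟩
  · have h1 := qv_lo (b := b) ht1
    nlinarith [mul_nonneg (by linarith : (0 : ℝ) ≤ 3 * qv t b) (sq_nonneg k)]
  · linear_combination -(hYd / 2) - hd / 2
  · linear_combination -(hYd / 2) + hd / 2
  · linear_combination hs / 2 + hb / 2
  · linear_combination hs / 2 - hb / 2

end Pool.Agent.Strip051.PB.Dg
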