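import Pool.Agent.Strip051.PB.DgO

/-! # The tests of the charts at the corner `(1, 1, 2)` with a third kernel -/

set_option linter.unusedSimpArgs false

namespace Pool.Agent.Strip051.PB.Dg

open Pool.Agent.Strip051.PB
open Pool.Agent.StripNear Pool.Agent.StripSquare Pool.Agent.Strip051.Sweep
open Pool.Agent.Strip051.LC

attribute [local irreducible] padd psub pneg pmul psq pinv psqrt psqrtg pabs pps pmax pmin pphi plam
  pcase phf pnat prat pscale pnorm pdc pnc pone ppos pnn Enc pbad pzero phull pnp pflat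

/-- one of four tests -/
noncomputable def op4 (d : ℕ) (o0 o1 o2 o3 : Bool) : Bool :=
  Bool.rec (motive := fun _ => Bool) (Bool.rec (motive := fun _ => Bool)
    (Bool.rec (motive := fun _ => Bool) o3 o2 (Nat.beq d 2)) o1 (Nat.beq d 1)) o0 (Nat.beq d 0)

theorem op4_true {d : ℕ} {o0 o1 o2 o3 : Bool} (h : op4 d o0 o1 o2 o3 = true) :
    o0 = true ∨ o1 = true ∨ o2 = true ∨ o3 = true := by
  unfold op4 at h
  rcases hb : Nat.beq d 0 with _ | _
  · rw [hb] at h
    rcases hc : Nat.beq d 1 with _ | _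
    · rw [hc] at h
      rcases he : Nat.beq d 2 with _ | _
      · rw [he] at h
        exact Or.inr (Or.inr (Or.inr h))
      · rw [he] at h
        exact Or.inr (Or.inr (Or.inl h))
    · rw [hc] at h
      exact Or.inr (Or.inl h)
  · rw [hb] at h
    exact Or.inl h

/-! ### The differences -/

/-- constant part minus loss -/
noncomputable def tz0 (sg bd : Bool) (p : Pm) (q : Pu) : Fn1 :=
  ⟨_, _, fun h1 => enc_sub ((a0F sg bd p).enc h1) ((dgW0 q).enc h1)⟩

/-- linear part minus loss -/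
noncomputable def tz1 (lv sg bd : Bool) (p : Pm) (q : Pu) (T : Th) (V : Tu) : Fn3 :=
  ⟨_, _, fun h1 h2 h3 => enc_add (enc_sub ((a1F false lv sg bd p T).enc h1 h2 h3)
    ((dgW1 q V).enc h1 h2 h3)) (enc_mul (dggk.enc h1 h2) (enc_norm ((tz0 sg bd p q).enc h3)))⟩

/-- the sum minus loss, type `A` -/
noncomputable def tzA (lv sg bd : Bool) (p : Pm) (q : Pu) (T : Th) (V : Tu) : Fn3 :=
  ⟨_, _, fun h1 h2 h3 => enc_sub ((SAF lv sg bd p T).enc h1 h2 h3) ((dgWA q V).enc h1 h2 h3)⟩

/-- the third part minus loss, type `B` -/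
noncomputable def tzBd (lv sg bd : Bool) (p : Pm) (q : Pu) : Fn3 :=
  ⟨_, _, fun h1 h2 h3 => enc_sub ((QBF false lv sg bd p).enc h1 h2 h3) ((dgWBd p q).enc h1 h2 h3)⟩

/-- the sum minus loss, type `B` -/
noncomputable def tzB (lv sg bd : Bool) (p : Pm) (q : Pu) (A : Sd) (G : Su) : Fn3 :=
  ⟨_, _, fun h1 h2 h3 => enc_sub ((SBF false lv sg bd p A (thN A)).enc h1 h2 h3)
    ((dgWB p q A (tuN G)).enc h1 h2 h3)⟩

/-- the third part minus loss, type `P` -/
noncomputable def tzPd (lv sg bd : Bool) (p : Pm) (q : Pu) : Fn3 :=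
  ⟨_, _, fun h1 h2 h3 => enc_sub ((QPF false lv sg bd p).enc h1 h2 h3) ((dgWPd p q).enc h1 h2 h3)⟩

/-- the sum minus loss, type `P` -/
noncomputable def tzP (lv sg bd : Bool) (p : Pm) (q : Pu) (A : Sd) (G : Su) : Fn3 :=
  ⟨_, _, fun h1 h2 h3 => enc_sub ((SPF false lv sg bd p A (thN A)).enc h1 h2 h3)
    ((dgWP p q A (tuN G)).enc h1 h2 h3)⟩

/-- the first part minus loss, type `C` -/
noncomputable def tzCw (lv sg bd : Bool) (p : Pm) (q : Pu) (M : NdU) (T : Th) (V : Tu) (C : CvP) :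
    Fn3 :=
  ⟨_, _, fun h1 h2 h3 => enc_sub ((UwF false lv sg bd p M T C).enc h1 h2 h3)
    ((dgWCw q M V).enc h1 h2 h3)⟩

/-- the second part minus loss, type `C` -/
noncomputable def tzCv (lv sg bd : Bool) (p : Pm) (q : Pu) (M : NdU) (T : Th) (V : Tu) (C : CvP)
    (K : Fn2) : Fn3 :=
  ⟨_, _, fun h1 h2 h3 => enc_sub ((UvF false lv sg bd p M T C).enc h1 h2 h3)
    ((dgWCv q V C K).enc h1 h2 h3)⟩

/-- the sum minus loss, type `C` -/
noncomputable def tzC (lv sg bd : Bool) (p : Pm) (q : Pu) (M : NdU) (T : Th) (V : Tu) (C : CvP)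
    (K : Fn2) : Fn3 :=
  ⟨_, _, fun h1 h2 h3 => enc_sub ((UsF false lv sg bd p M T C).enc h1 h2 h3)
    ((dgWC q M V C K).enc h1 h2 h3)⟩

/-! ### The test functions -/

/-- the test function, type `A`, first vertex -/
noncomputable def fdAx (tt : Bool) (p : Pm) (Sa Sb : Sd) (T : Th) (h A B C : ℕ) : Bool :=
  tst [ppos (dgxn.t A B), ppos ((dgxA Sa).t A B), ppos ((dgxB Sb).t A B), ppos ((dgxs p).t A B)]
    (fun lv sg bd d => op4 d (ppos ((a1F true lv sg bd p T).t A B C)) false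
      (cond tt (ppos ((QtF lv sg bd p T).t A B C (ts1 p A B C) (ts2 p A B C) (ts3 p A B C)
        (ts4 p A B C))) false)
      (cond bd false (cond tt (ppos ((QxF lv sg p T).t A B C (ts1 p A B C) (ts2 p A B C)
        (ts3 p A B C) (ts4 p A B C))) false))) h

/-- the test function, type `A`, second vertex -/
noncomputable def fdAW (p : Pm) (q : Pu) (Sa Sb : Sd) (T : Th) (V : Tu) (h A B C : ℕ) : Bool :=
  tst [ppos (dgxn.t A B), ppos ((dgxA Sa).t A B), ppos ((dgxB Sb).t A B), ppos ((dgxs p).t A B)]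
    (fun lv sg bd d => op3 d (band (pnn ((tz0 sg bd p q).t C))
      (ppos ((tz1 lv sg bd p q T V).t A B C))) (ppos ((tzA lv sg bd p q T V).t A B C)) false) h

/-- the test function, type `B`, second vertex -/
noncomputable def fdBW (p : Pm) (q : Pu) (Sa : Sd) (G : Su) (h A B C : ℕ) : Bool :=
  tst [ppos (dgxn.t A B), ppos ((dgxA Sa).t A B), ppos (dgx3.t A B), ppos ((dgxK p Sa).t A B),
      ppos ((dgxv p).t A B), ppos ((dgxs p).t A B)]
    (fun lv sg bd d => op3 d (band (pnn ((tz0 sg bd p q).t C)) (band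
      (ppos ((tz1 lv sg bd p q (thN Sa) (tuN G)).t A B C)) (pnn ((tzBd lv sg bd p q).t A B C))))
      (ppos ((tzB lv sg bd p q Sa G).t A B C)) false) h

/-- the test function, type `P`, second vertex -/
noncomputable def fdPW (p : Pm) (q : Pu) (Sa : Sd) (G : Su) (h A B C : ℕ) : Bool :=
  tst [ppos (dgxn.t A B), ppos ((dgxP Sa).t A B), ppos ((dgxs p).t A B), ppos ((dgxX p Sa).t A B)]
    (fun lv sg bd d => op3 d (band (pnn ((tz0 sg bd p q).t C)) (band
      (ppos ((tz1 lv sg bd p q (thN Sa) (tuN G)).t A B C)) (pnn ((tzPd lv sg bd p q).t A B C))))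
      (ppos ((tzP lv sg bd p q Sa G).t A B C)) false) h

/-- the test function, type `C`, first vertex -/
noncomputable def fdU (p : Pm) (M : NdU) (T : Th) (C : CvP) (Sb : Sd) (h A B C' : ℕ) : Bool :=
  tst [ppos ((dgCxB Sb C).t A B), ppos ((dgCxA (ndUL p M) C).t A B), ppos ((dgCxs p).t A B)]
    (fun lv sg bd d => op3 d (band (ppos ((UwF true lv sg bd p M T C).t A B C'))
      (ppos ((UvF true lv sg bd p M T C).t A B C')))
      (ppos ((UsF true lv sg bd p M T C).t A B C')) false) h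

/-- the test function, type `C`, second vertex -/
noncomputable def fdCW (p : Pm) (q : Pu) (M : NdU) (T : Th) (V : Tu) (C : CvP) (K : Fn2) (Sb : Sd)
    (h A B C' : ℕ) : Bool :=
  tst [ppos ((dgCxB Sb C).t A B), ppos ((dgCxA (ndUL p M) C).t A B), ppos ((dgCxs p).t A B)]
    (fun lv sg bd d => op3 d (band (ppos ((tzCw lv sg bd p q M T V C).t A B C'))
      (ppos ((tzCv lv sg bd p q M T V C K).t A B C')))
      (ppos ((tzC lv sg bd p q M T V C K).t A B C')) false) h

section

variable {p : Pm} {q : Pu} {T : Th} {V : Tu} {A B : Sd} {G H : Su} {M : NdU} {C : CvP} {K : Fn2}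
  {t b x : ℝ} {E : Pt} {A' B' C' N0 : ℕ}

theorem dgvt_v' : dgvt.v t b = b * dgk.v t b - t * dgg.v t / 2 := by
  simp only [dgvt, dgtg]

/-- the bound for the abscissa -/
theorem gk_le (t0 : 0 ≤ t) (b0 : 0 ≤ b) (v0 : 0 ≤ dgvt.v t b) : t * dggk.v t b ≤ b := by
  have e : dggk.v t b = dgg.v t * (2 * dgk.v t b)⁻¹ := by
    simp only [dggk]
    push_cast
    ring
  have k0 : 0 ≤ dgk.v t b := by
    have : dgk.v t b = √((((4 : ℕ) : ℝ) - dgq.v t b) * (((3 : ℕ) : ℝ) * dgq.v t b)⁻¹) := rfl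
    rw [this]
    exact Real.sqrt_nonneg _
  rw [dgvt_v'] at v0
  rw [e]
  rcases k0.eq_or_lt with h | h
  · rw [← h]
    simpa using b0
  · rw [← mul_assoc, ← div_eq_mul_inv, div_le_iff₀ (by linarith)]
    linarith

theorem tz1_v (lv sg bd : Bool) : (tz1 lv sg bd p q T V).v t b x =
    (a1F false lv sg bd p T).v t b x - (dgW1 q V).v t b x +
      dggk.v t b * ((a0F sg bd p).v x - (dgW0 q).v x) := rfl

theorem W0_v : (dgW0 q).v x = q.mo.v x * wdR ((dgsl1 q).v x) ((dgsl2 q).v x) ((dgsl3 q).v x) := rfl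

theorem W1_v : (dgW1 q V).v t b x = q.mo.v x * wdR ((dgc11 q).v t b x) ((dgc21 q).v t b x)
    (V.c.v t b x) := rfl

theorem WA_v : (dgWA q V).v t b x = q.mo.v x * wdR (b * (dgsl1 q).v x + t * (dgc11 q).v t b x)
    (b * (dgsl2 q).v x + t * (dgc21 q).v t b x) (b * (dgsl3 q).v x + t * V.c.v t b x) := rfl

theorem WB_v : (dgWB p q A V).v t b x = q.mo.v x * wdR (b * (dgsl1 q).v x + t * (dgc11 q).v t b x)
    (b * (dgsl2 q).v x + t * (dgc21 q).v t b x - (b - A.ch.v t) * (dggC p q).v t b x)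
    (A.ch.v t * (dgsl3 q).v x + t * V.c.v t b x) := rfl

theorem WP_v : (dgWP p q A V).v t b x = q.mo.v x * wdR (b * (dgsl1 q).v x +
      t * (dgc11 q).v t b x + (A.ch.v t - b) * (dggC1 p q).v t b x)
    (b * (dgsl2 q).v x + t * (dgc21 q).v t b x)
    (A.ch.v t * (dgsl3 q).v x + t * V.c.v t b x) := rfl

theorem WBd_v : (dgWBd p q).v t b x = q.mo.v x * wdR 0 (-(dggC p q).v t b x)
    (-(dgsl3 q).v x) := by
  rw [wdR_B]
  rfl

theorem WPd_v : (dgWPd p q).v t b x = q.mo.v x * wdR ((dggC1 p q).v t b x) 0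
    ((dgsl3 q).v x) := by
  rw [wdR_P]
  rfl

theorem WCw_v : (dgWCw q M V).v t b x = q.mo.v x * wdR ((dgCc1 q).v t b x) 0
    ((dgCcw q M V).v t b x) := by
  rw [wdR_P]
  rfl

theorem WCv_v : (dgWCv q V C K).v t b x = q.mo.v x * wdR ((dgCc1 q).v t b x)
    ((dgCC2 C K).v t b x) ((dgCcv q V C).v t b x) := rfl

theorem WC_v : (dgWC q M V C K).v t b x = q.mo.v x * wdR ((dgtg.v t + b) * (dgCc1 q).v t b x)
    (b * (dgCC2 C K).v t b x) (dgtg.v t * (dgCcw q M V).v t b x + b * (dgCcv q V C).v t b x) := rfl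

/-- the loss of a sum -/
theorem lossA (m0 : 0 ≤ q.mo.v x) (t0 : 0 ≤ t) (b0 : 0 ≤ b) :
    q.mo.v x * wdR (b * (dgsl1 q).v x + t * (dgc11 q).v t b x)
    (b * (dgsl2 q).v x + t * (dgc21 q).v t b x) (b * (dgsl3 q).v x + t * V.c.v t b x) ≤
    b * (dgW0 q).v x + t * (dgW1 q V).v t b x := by
  have h := wdR_add (b * (dgsl1 q).v x) (b * (dgsl2 q).v x) (b * (dgsl3 q).v x)
    (t * (dgc11 q).v t b x) (t * (dgc21 q).v t b x) (t * V.c.v t b x)
  rw [wdR_smul b0, wdR_smul t0] at h
  have h2 := mul_le_mul_of_nonneg_left h m0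
  rw [W0_v, W1_v]
  refine h2.trans (le_of_eq ?_)
  ring

theorem lossB {d : ℝ} (m0 : 0 ≤ q.mo.v x) (t0 : 0 ≤ t) (b0 : 0 ≤ b) (d0 : 0 ≤ d)
    (hd : d = b - A.ch.v t) :
    q.mo.v x * wdR (b * (dgsl1 q).v x + t * (dgc11 q).v t b x)
    (b * (dgsl2 q).v x + t * (dgc21 q).v t b x - d * (dggC p q).v t b x)
    (A.ch.v t * (dgsl3 q).v x + t * V.c.v t b x) ≤
    b * (dgW0 q).v x + t * (dgW1 q V).v t b x + d * (dgWBd p q).v t b x := by
  have h := wdR_add (b * (dgsl1 q).v x + t * (dgc11 q).v t b x)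
    (b * (dgsl2 q).v x + t * (dgc21 q).v t b x) (b * (dgsl3 q).v x + t * V.c.v t b x)
    (d * 0) (d * -(dggC p q).v t b x) (d * -(dgsl3 q).v x)
  rw [wdR_smul d0] at h
  have h2 := mul_le_mul_of_nonneg_left h m0
  have h3 := lossA (V := V) m0 t0 b0
  rw [WBd_v]
  have e1 : A.ch.v t = b - d := by linarith
  rw [e1]
  have e2 : q.mo.v x * wdR (b * (dgsl1 q).v x + t * (dgc11 q).v t b x)
      (b * (dgsl2 q).v x + t * (dgc21 q).v t b x - d * (dggC p q).v t b x)
      ((b - d) * (dgsl3 q).v x + t * V.c.v t b x) =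
      q.mo.v x * wdR (b * (dgsl1 q).v x + t * (dgc11 q).v t b x + d * 0)
      (b * (dgsl2 q).v x + t * (dgc21 q).v t b x + d * -(dggC p q).v t b x)
      (b * (dgsl3 q).v x + t * V.c.v t b x + d * -(dgsl3 q).v x) := by
    congr 2 <;> ring
  rw [e2]
  linarith

theorem lossP {d : ℝ} (m0 : 0 ≤ q.mo.v x) (t0 : 0 ≤ t) (b0 : 0 ≤ b) (d0 : 0 ≤ d)
    (hd : d = A.ch.v t - b) :
    q.mo.v x * wdR (b * (dgsl1 q).v x + t * (dgc11 q).v t b x + d * (dggC1 p q).v t b x)
    (b * (dgsl2 q).v x + t * (dgc21 q).v t b x)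
    (A.ch.v t * (dgsl3 q).v x + t * V.c.v t b x) ≤
    b * (dgW0 q).v x + t * (dgW1 q V).v t b x + d * (dgWPd p q).v t b x := by
  have h := wdR_add (b * (dgsl1 q).v x + t * (dgc11 q).v t b x)
    (b * (dgsl2 q).v x + t * (dgc21 q).v t b x) (b * (dgsl3 q).v x + t * V.c.v t b x)
    (d * (dggC1 p q).v t b x) (d * 0) (d * (dgsl3 q).v x)
  rw [wdR_smul d0] at h
  have h2 := mul_le_mul_of_nonneg_left h m0
  have h3 := lossA (V := V) m0 t0 b0
  rw [WPd_v]
  have e1 : A.ch.v t = b + d := by linarith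
  rw [e1]
  have e2 : q.mo.v x * wdR (b * (dgsl1 q).v x + t * (dgc11 q).v t b x +
      d * (dggC1 p q).v t b x) (b * (dgsl2 q).v x + t * (dgc21 q).v t b x)
      ((b + d) * (dgsl3 q).v x + t * V.c.v t b x) =
      q.mo.v x * wdR (b * (dgsl1 q).v x + t * (dgc11 q).v t b x + d * (dggC1 p q).v t b x)
      (b * (dgsl2 q).v x + t * (dgc21 q).v t b x + d * 0)
      (b * (dgsl3 q).v x + t * V.c.v t b x + d * (dgsl3 q).v x) := by
    congr 2 <;> ring
  rw [e2]
  linarith

theorem lossC {g : ℝ} (m0 : 0 ≤ q.mo.v x) (g0 : 0 ≤ g) (b0 : 0 ≤ b) :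
    q.mo.v x * wdR ((g + b) * (dgCc1 q).v t b x) (b * (dgCC2 C K).v t b x)
      (g * (dgCcw q M V).v t b x + b * (dgCcv q V C).v t b x) ≤
    g * (dgWCw q M V).v t b x + b * (dgWCv q V C K).v t b x := by
  have h := wdR_add (g * (dgCc1 q).v t b x) (g * 0) (g * (dgCcw q M V).v t b x)
    (b * (dgCc1 q).v t b x) (b * (dgCC2 C K).v t b x) (b * (dgCcv q V C).v t b x)
  rw [wdR_smul g0, wdR_smul b0] at h
  have h2 := mul_le_mul_of_nonneg_left h m0
  rw [WCw_v, WCv_v]
  rw [mul_zero, zero_add, ← add_mul] at h2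
  refine h2.trans (le_of_eq ?_)
  ring

/-- the first two parts -/
theorem part01 {lv sg bd : Bool} {C' : ℕ} (t0 : 0 ≤ t) (b0 : 0 ≤ b) (v0 : 0 ≤ dgvt.v t b)
    (hA : Enc E A' t) (hB : Enc E B' b) (hC : Enc E C' x)
    (k1 : pnn ((tz0 sg bd p q).t C') = true)
    (k2 : ppos ((tz1 lv sg bd p q T V).t A' B' C') = true) :
    b * (dgW0 q).v x + t * (dgW1 q V).v t b x ≤
      b * (a0F sg bd p).v x + t * (a1F false lv sg bd p T).v t b x := by
  have m1 := pnn_sound ((tz0 sg bd p q).enc hC) k1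
  have e1 : (tz0 sg bd p q).v x = (a0F sg bd p).v x - (dgW0 q).v x := rfl
  have m2 := (ppos_sound ((tz1 lv sg bd p q T V).enc hA hB hC) k2).le
  rw [tz1_v] at m2
  rw [e1] at m1
  have m3 := gk_le t0 b0 v0
  have m4 := mul_nonneg t0 m2
  have m5 := mul_le_mul_of_nonneg_right m3 m1
  nlinarith

theorem fdAW_sound {h : ℕ} (hA : Enc E A' t) (hB : Enc E B' b)
    (hC : Enc E C' x) (ht : fdAW p q A B T V h A' B' C' = true) (m0 : 0 ≤ q.mo.v x)
    (t0 : 0 ≤ t) (b0 : 0 ≤ b) (v0 : 0 ≤ dgvt.v t b) (c1 : A.ch.v t ≤ b) (c2 : b ≤ B.ch.v t)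
    (hs : p.sv.v (dgs.v t b) ≤ 0) : IneqAW p q T V t b x := by
  unfold fdAW at ht
  rcases tst_true ht with h1 | h1
  · exfalso
    simp only [List.mem_cons, List.not_mem_nil, or_false] at h1
    rcases h1 with h1 | h1 | h1 | h1
    · have := ppos_sound (dgxn.enc hA hB) h1.symm
      rw [dgxn_v] at this
      linarith
    · have := ppos_sound ((dgxA A).enc hA hB) h1.symm
      rw [dgxA_v] at this
      linarith
    · have := ppos_sound ((dgxB B).enc hA hB) h1.symm
      rw [dgxB_v] at this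
      linarith
    · have := ppos_sound ((dgxs p).enc hA hB) h1.symm
      rw [dgxs_v] at this
      linarith
  · intro lv sg bd
    obtain ⟨d, hd⟩ := h1 lv sg bd
    rcases op3_true hd with k | k | k
    · obtain ⟨k1, k2⟩ := band_true k
      exact (lossA m0 t0 b0).trans (part01 t0 b0 v0 hA hB hC k1 k2)
    · have m := (ppos_sound ((tzA lv sg bd p q T V).enc hA hB hC) k).le
      have e : (tzA lv sg bd p q T V).v t b x = (SAF lv sg bd p T).v t b x -
        (dgWA q V).v t b x := rfl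
      rw [e, SAF_v, WA_v] at m
      linarith
    · exact absurd k (by simp)

theorem fdAx_sound {tt : Bool} {h : ℕ} (hA : Enc E A' t) (hB : Enc E B' b)
    (hC : Enc E C' x) (ht : fdAx tt p A B T h A' B' C' = true) (hf : p.Fit true N0 x)
    (t0 : 0 ≤ t) (b1 : b ≤ 1) (v0 : 0 ≤ dgvt.v t b) (c1 : A.ch.v t ≤ b) (c2 : b ≤ B.ch.v t)
    (hs : p.sv.v (dgs.v t b) ≤ 0)
    (G : TgOk tt true p T B t b x) : IneqAD N0 p T t b x := by
  unfold fdAx at ht
  rcases tst_true ht with h1 | h1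
  · exfalso
    simp only [List.mem_cons, List.not_mem_nil, or_false] at h1
    rcases h1 with h1 | h1 | h1 | h1
    · have := ppos_sound (dgxn.enc hA hB) h1.symm
      rw [dgxn_v] at this
      linarith
    · have := ppos_sound ((dgxA A).enc hA hB) h1.symm
      rw [dgxA_v] at this
      linarith
    · have := ppos_sound ((dgxB B).enc hA hB) h1.symm
      rw [dgxB_v] at this
      linarith
    · have := ppos_sound ((dgxs p).enc hA hB) h1.symm
      rw [dgxs_v] at this
      linarith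
  · intro lv sg bd
    obtain ⟨d, hd⟩ := h1 lv sg bd
    rcases op4_true hd with k | k | k | k
    · left
      have m2 := (ppos_sound ((a1F true lv sg bd p T).enc hA hB hC) k).le
      exact mul_nonneg t0 m2
    · exact absurd k (by simp)
    · cases tt
      · exact absurd k (by simp)
      · left
        obtain ⟨-, g2, g3, g4, g5, g6, g7, g8, g9⟩ := G rfl
        obtain ⟨sa, mp, cp, cm, s1, s2, s3, s4, V⟩ := ts_enc g2 g7 g8 hA hB hC
        have m := ppos_sound ((QtF lv sg bd p T).enc hA hB hC s1 s2 s3 s4) k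
        rw [a1_tight g2 g3 g4 g5 g6 g7 V]
        exact mul_nonneg t0 (mul_nonneg (by linarith) m.le)
    · cases bd
      · rw [cond_false] at k
        cases tt
        · exact absurd k (by simp)
        · right
          obtain ⟨-, g2, g3, g4, g5, g6, g7, g8, g9⟩ := G rfl
          obtain ⟨sa, mp, cp, cm, s1, s2, s3, s4, V⟩ := ts_enc g2 g7 g8 hA hB hC
          have m := ppos_sound ((QxF lv sg p T).enc hA hB hC s1 s2 s3 s4) k
          exact ⟨rfl, exF_tight g2 g3 g4 g5 g6 g7 V hf b1 lv sg m⟩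
      · exact absurd k (by simp)

theorem fdBW_sound {h : ℕ} (hA : Enc E A' t) (hB : Enc E B' b)
    (hC : Enc E C' x) (ht : fdBW p q A G h A' B' C' = true) (m0 : 0 ≤ q.mo.v x)
    (t0 : 0 ≤ t) (b0 : 0 ≤ b)
    (v0 : 0 ≤ dgvt.v t b) (c1 : A.ch.v t ≤ b) (v1 : dgvt.v t b ≤ 2 / 3)
    (c2 : b - A.ch.v t ≤ dgvt.v t b * (dgxi.v (dgv.v t b) - p.cv.xs.v (dgv.v t b)))
    (hv : p.sv.v (dgv.v t b) ≤ 0) (hs : p.sv.v (dgs.v t b) ≤ 0) : IneqBW p q A G t b x := by
  unfold fdBW at ht
  rcases tst_true ht with h1 | h1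
  · exfalso
    simp only [List.mem_cons, List.not_mem_nil, or_false] at h1
    rcases h1 with h1 | h1 | h1 | h1 | h1 | h1
    · have := ppos_sound (dgxn.enc hA hB) h1.symm
      rw [dgxn_v] at this
      linarith
    · have := ppos_sound ((dgxA A).enc hA hB) h1.symm
      rw [dgxA_v] at this
      linarith
    · have := ppos_sound (dgx3.enc hA hB) h1.symm
      rw [dgx3_v] at this
      linarith
    · have := ppos_sound ((dgxK p A).enc hA hB) h1.symm
      rw [dgxK_v] at this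
      linarith
    · have := ppos_sound ((dgxv p).enc hA hB) h1.symm
      rw [dgxv_v] at this
      linarith
    · have := ppos_sound ((dgxs p).enc hA hB) h1.symm
      rw [dgxs_v] at this
      linarith
  · intro lv sg bd
    obtain ⟨d, hd⟩ := h1 lv sg bd
    have d0 : 0 ≤ b - A.ch.v t := by linarith
    rcases op3_true hd with k | k | k
    · obtain ⟨k1, k2⟩ := band_true k
      obtain ⟨k2, k3⟩ := band_true k2
      have m1 := part01 t0 b0 v0 hA hB hC k1 k2
      have m3 := pnn_sound ((tzBd lv sg bd p q).enc hA hB hC) k3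
      have e3 : (tzBd lv sg bd p q).v t b x = (QBF false lv sg bd p).v t b x -
        (dgWBd p q).v t b x := rfl
      rw [e3] at m3
      have m4 := mul_nonneg d0 m3
      have m5 := lossB (p := p) (A := A) (V := tuN G) m0 t0 b0 d0 rfl
      linarith
    · have m := (ppos_sound ((tzB lv sg bd p q A G).enc hA hB hC) k).le
      have e : (tzB lv sg bd p q A G).v t b x = (SBF false lv sg bd p A (thN A)).v t b x -
        (dgWB p q A (tuN G)).v t b x := rfl
      rw [e, SBF_v, cond_false, WB_v] at m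
      linarith
    · exact absurd k (by simp)

theorem fdPW_sound {h : ℕ} (hA : Enc E A' t) (hB : Enc E B' b)
    (hC : Enc E C' x) (ht : fdPW p q A G h A' B' C' = true) (m0 : 0 ≤ q.mo.v x)
    (t0 : 0 ≤ t) (b0 : 0 ≤ b)
    (v0 : 0 ≤ dgvt.v t b) (c1 : b ≤ A.ch.v t) (hs : p.sv.v (dgs.v t b) ≤ 0)
    (c2 : t * (A.ch.v t - b) ≤ p.x11.v (dgy1.v t b) - p.x01.v (dgy1.v t b)) :
    IneqPW p q A G t b x := by
  unfold fdPW at ht
  rcases tst_true ht with h1 | h1
  · exfalso
    simp only [List.mem_cons, List.not_mem_nil, or_false] at h1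
    rcases h1 with h1 | h1 | h1 | h1
    · have := ppos_sound (dgxn.enc hA hB) h1.symm
      rw [dgxn_v] at this
      linarith
    · have := ppos_sound ((dgxP A).enc hA hB) h1.symm
      rw [dgxP_v] at this
      linarith
    · have := ppos_sound ((dgxs p).enc hA hB) h1.symm
      rw [dgxs_v] at this
      linarith
    · have := ppos_sound ((dgxX p A).enc hA hB) h1.symm
      rw [dgxX_v] at this
      linarith
  · intro lv sg bd
    obtain ⟨d, hd⟩ := h1 lv sg bd
    have d0 : 0 ≤ A.ch.v t - b := by linarith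
    rcases op3_true hd with k | k | k
    · obtain ⟨k1, k2⟩ := band_true k
      obtain ⟨k2, k3⟩ := band_true k2
      have m1 := part01 t0 b0 v0 hA hB hC k1 k2
      have m3 := pnn_sound ((tzPd lv sg bd p q).enc hA hB hC) k3
      have e3 : (tzPd lv sg bd p q).v t b x = (QPF false lv sg bd p).v t b x -
        (dgWPd p q).v t b x := rfl
      rw [e3] at m3
      have m4 := mul_nonneg d0 m3
      have m5 := lossP (p := p) (A := A) (V := tuN G) m0 t0 b0 d0 rfl
      linarith
    · have m := (ppos_sound ((tzP lv sg bd p q A G).enc hA hB hC) k).le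
      have e : (tzP lv sg bd p q A G).v t b x = (SPF false lv sg bd p A (thN A)).v t b x -
        (dgWP p q A (tuN G)).v t b x := rfl
      rw [e, SPF_v, cond_false, WP_v] at m
      linarith
    · exact absurd k (by simp)

theorem fdU_sound {h : ℕ} (hA : Enc E A' t) (hB : Enc E B' b)
    (hC : Enc E C' x) (ht : fdU p M T C B h A' B' C' = true) (b0 : 0 ≤ b)
    (g0 : 0 ≤ dgtg.v t) (c1 : (ndUL p M).ch.v t ≤ (dgCz3 C).v t b)
    (c2 : (dgCz3 C).v t b ≤ B.ch.v t) (hs : p.sv.v (dgCs.v t b) ≤ 0) :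
    IneqU true p M T C t b x := by
  unfold fdU at ht
  rcases tst_true ht with h1 | h1
  · exfalso
    simp only [List.mem_cons, List.not_mem_nil, or_false] at h1
    rcases h1 with h1 | h1 | h1
    · have := ppos_sound ((dgCxB B C).enc hA hB) h1.symm
      have e : (dgCxB B C).v t b = (dgCz3 C).v t b - B.ch.v t := rfl
      rw [e] at this
      linarith
    · have := ppos_sound ((dgCxA (ndUL p M) C).enc hA hB) h1.symm
      have e : (dgCxA (ndUL p M) C).v t b = (ndUL p M).ch.v t - (dgCz3 C).v t b := rfl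
      rw [e] at this
      linarith
    · have := ppos_sound ((dgCxs p).enc hA hB) h1.symm
      have e : (dgCxs p).v t b = p.sv.v (dgCs.v t b) := rfl
      rw [e] at this
      linarith
  · intro lv sg bd
    obtain ⟨d, hd⟩ := h1 lv sg bd
    rcases op3_true hd with k | k | k
    · obtain ⟨k1, k2⟩ := band_true k
      have m1 := (ppos_sound ((UwF true lv sg bd p M T C).enc hA hB hC) k1).le
      have m2 := (ppos_sound ((UvF true lv sg bd p M T C).enc hA hB hC) k2).le
      exact add_nonneg (mul_nonneg g0 m1) (mul_nonneg b0 m2)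
    · have m := ppos_sound ((UsF true lv sg bd p M T C).enc hA hB hC) k
      rw [UsF_v] at m
      exact m.le
    · exact absurd k (by simp)

theorem fdCW_sound {h : ℕ} (hA : Enc E A' t) (hB : Enc E B' b)
    (hC : Enc E C' x) (ht : fdCW p q M T V C K B h A' B' C' = true) (m0 : 0 ≤ q.mo.v x)
    (b0 : 0 ≤ b)
    (g0 : 0 ≤ dgtg.v t) (c1 : (ndUL p M).ch.v t ≤ (dgCz3 C).v t b)
    (c2 : (dgCz3 C).v t b ≤ B.ch.v t) (hs : p.sv.v (dgCs.v t b) ≤ 0) :
    IneqCW p q M T V C K t b x := by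
  unfold fdCW at ht
  rcases tst_true ht with h1 | h1
  · exfalso
    simp only [List.mem_cons, List.not_mem_nil, or_false] at h1
    rcases h1 with h1 | h1 | h1
    · have := ppos_sound ((dgCxB B C).enc hA hB) h1.symm
      have e : (dgCxB B C).v t b = (dgCz3 C).v t b - B.ch.v t := rfl
      rw [e] at this
      linarith
    · have := ppos_sound ((dgCxA (ndUL p M) C).enc hA hB) h1.symm
      have e : (dgCxA (ndUL p M) C).v t b = (ndUL p M).ch.v t - (dgCz3 C).v t b := rfl
      rw [e] at this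
      linarith
    · have := ppos_sound ((dgCxs p).enc hA hB) h1.symm
      have e : (dgCxs p).v t b = p.sv.v (dgCs.v t b) := rfl
      rw [e] at this
      linarith
  · intro lv sg bd
    obtain ⟨d, hd⟩ := h1 lv sg bd
    rcases op3_true hd with k | k | k
    · obtain ⟨k1, k2⟩ := band_true k
      have m1 := (ppos_sound ((tzCw lv sg bd p q M T V C).enc hA hB hC) k1).le
      have m2 := (ppos_sound ((tzCv lv sg bd p q M T V C K).enc hA hB hC) k2).le
      have e1 : (tzCw lv sg bd p q M T V C).v t b x = (UwF false lv sg bd p M T C).v t b x -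
        (dgWCw q M V).v t b x := rfl
      have e2 : (tzCv lv sg bd p q M T V C K).v t b x = (UvF false lv sg bd p M T C).v t b x -
        (dgWCv q V C K).v t b x := rfl
      rw [e1] at m1
      rw [e2] at m2
      have m3 := mul_nonneg g0 m1
      have m4 := mul_nonneg b0 m2
      have m5 := lossC (q := q) (M := M) (V := V) (C := C) (K := K) (t := t) m0 g0 b0
      linarith
    · have m := (ppos_sound ((tzC lv sg bd p q M T V C K).enc hA hB hC) k).le
      have e : (tzC lv sg bd p q M T V C K).v t b x = (UsF false lv sg bd p M T C).v t b x -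
        (dgWC q M V C K).v t b x := rfl
      rw [e, UsF_v, WC_v] at m
      linarith
    · exact absurd k (by simp)

end

end Pool.Agent.Strip051.PB.Dg
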