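import Pool.Agent.Strip051.PB.DgD

/-! # Rows at the corner `(1, 1, 2)`: a loss, a factor of the kernel, an exact flux -/

set_option linter.unusedSimpArgs false

namespace Pool.Agent.Strip051.PB.Dg

open Pool.Agent.Strip051.PB
open Pool.Agent.StripNear Pool.Agent.StripSquare Pool.Agent.Strip051.Sweep
open Pool.Agent.Strip051.LC
open Pool.Agent.Strip051.LC.Line (phi phi_comm phi_le_half phi_neg_pos)

/-- The inequalities are homogeneous. -/
theorem _root_.Pool.Agent.Strip051.PB.LinC.sc {x l r p q om d e E : ℝ} (hE : 0 < E)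
    (H : LinC x l r p q (E * om) (E * d) e) : LinC x l r p q om d (e / E) := by
  obtain ⟨h1, h2⟩ := H
  constructor
  · rw [le_div_iff₀ hE]
    exact le_trans (le_of_eq (by ring)) h1
  · rw [le_div_iff₀ hE]
    exact le_trans (le_of_eq (by ring)) h2

namespace Dat

variable {D : Dat}

/-- The inequalities with a loss for one level term. -/
theorem linsM {k M : ℝ} (O : D.Ok k) (H : ∀ lv sg bd, M ≤ D.t * D.F lv sg bd) (lv : Bool) :
    LinC D.x (D.t * D.vt) (D.t * D.vt + D.t ^ 2 * D.g) D.p D.q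
      (D.t * D.vt * D.R3 + D.t ^ 2 * D.g * D.R2) (D.R3 - D.R1 - D.R2)
      (D.ex + lvl D.far D.N0 D.x D.y D.y' D.L1 D.L2 D.L3 lv - M) ∧
    LinC D.x (D.t ^ 2 * D.g) (D.t * D.vt + D.t ^ 2 * D.g) D.p D.q
      (D.t * D.vt * D.R3 + D.t ^ 2 * D.g * D.R2) (-(D.R3 - D.R1 - D.R2))
      (D.ex + lvl D.far D.N0 D.x D.y D.y' D.L1 D.L2 D.L3 lv - M) := by
  obtain ⟨ht, hx, hx1, hv, hg, h1, hk, hp, hq, hst⟩ := O
  have e1 : ∀ sg bd, D.pb bd * (sn bd (D.t * D.vt * D.R3 + D.t ^ 2 * D.g * D.R2) +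
      sn sg (D.R3 - D.R1 - D.R2) * D.W sg bd) ≤
      D.ex + lvl D.far D.N0 D.x D.y D.y' D.L1 D.L2 D.L3 lv - M := by
    intro sg bd
    have h := sub_nonneg.2 (H lv sg bd)
    rw [lvl_eq lv hst]
    rw [← sub_nonneg]
    refine h.trans (le_of_eq ?_)
    unfold F a0 a1 Q1
    cases bd <;> cases sg <;> simp only [sn, cond_true, cond_false, R1, R2, R3, Dat.ex, om1, omd,
      d0, d1, dd, r2, W, pb] <;> ring
  have eW : ∀ sg bd, D.W sg bd = (1 - (D.t * D.vt + D.t ^ 2 * D.g)) * cond bd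
      (D.x * (1 + (D.t * D.vt + D.t ^ 2 * D.g)) - cond sg (D.t * D.vt) (D.t ^ 2 * D.g))
      (1 - D.x * (1 + (D.t * D.vt + D.t ^ 2 * D.g)) + cond sg (D.t * D.vt) (D.t ^ 2 * D.g)) := by
    intro sg bd
    cases sg <;> cases bd <;> simp only [W, W0, w, Dat.lam, Lam, cond_true, cond_false] <;> ring
  refine ⟨⟨?_, ?_⟩, ⟨?_, ?_⟩⟩
  · refine le_trans (le_of_eq ?_) (e1 true true)
    rw [eW]
    simp only [pb, sn, cond_true]
    ring
  · refine le_trans (le_of_eq ?_) (e1 true false)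
    rw [eW]
    simp only [pb, sn, cond_true, cond_false]
    ring
  · refine le_trans (le_of_eq ?_) (e1 false true)
    rw [eW]
    simp only [pb, sn, cond_true, cond_false]
    ring
  · refine le_trans (le_of_eq ?_) (e1 false false)
    rw [eW]
    simp only [pb, sn, cond_false]
    ring

/-- **The row** with a loss `M` and a factor `E` of the kernel. -/
theorem rowW {k E M R1 R2 R3 : ℝ} (O : D.Ok k) (hE : 0 < E) (e1 : D.R1 = E * R1)
    (e2 : D.R2 = E * R2) (e3 : D.R3 = E * R3) (H : ∀ lv sg bd, M ≤ D.t * D.F lv sg bd) :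
    ∃ γ, 0 ≤ slc .npn ((lvR D.far D.N0 D.x D.y D.y' D.ex D.L1 D.L2 D.L3 - M) / E) k D.x
      (-(D.t * D.st)) (D.t * D.vt) (-(D.t ^ 2 * D.g)) R1 R2 R3 γ := by
  obtain ⟨lv, hlv⟩ : ∃ lv, lvR D.far D.N0 D.x D.y D.y' D.ex D.L1 D.L2 D.L3 =
      D.ex + lvl D.far D.N0 D.x D.y D.y' D.L1 D.L2 D.L3 lv := by
    rcases lvR_eq D.far D.N0 D.x D.y D.y' D.ex D.L1 D.L2 D.L3 with h | h
    · exact ⟨true, h⟩
    · exact ⟨false, h⟩
  obtain ⟨A, B⟩ := linsM O H lv
  have hla1 : la1 .npn (-(D.t * D.st)) (D.t * D.vt) (-(D.t ^ 2 * D.g)) = D.t * D.vt := rfl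
  have hla2 : la2 .npn (-(D.t * D.st)) (D.t * D.vt) (-(D.t ^ 2 * D.g)) = D.t ^ 2 * D.g := by
    show -(-(D.t ^ 2 * D.g)) = _
    ring
  have hom : lom .npn (-(D.t * D.st)) (D.t * D.vt) (-(D.t ^ 2 * D.g)) R1 R2 R3 =
      D.t * D.vt * R3 + D.t ^ 2 * D.g * R2 := by
    simp only [lom]
    ring
  have hr : 0 ≤ D.t ^ 2 * D.g := mul_nonneg (sq_nonneg _) O.hg
  have u1 : D.t * D.vt * D.R3 + D.t ^ 2 * D.g * D.R2 =
      E * (D.t * D.vt * R3 + D.t ^ 2 * D.g * R2) := by rw [e2, e3]; ring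
  have u2 : D.R3 - D.R1 - D.R2 = E * (R3 - R1 - R2) := by rw [e1, e2, e3]; ring
  have u3 : -(E * (R3 - R1 - R2)) = E * (-(R3 - R1 - R2)) := by ring
  rw [← hlv, u1, u2] at A B
  rw [u3] at B
  exact lin_slc (c := .npn) (p := D.p) (q := D.q) (k := k)
    (by decide) (by decide) O.hx O.hx1 (by rw [hla1]; exact O.hv) (by rw [hla2]; exact hr)
    (by rw [hla1, hla2]; exact O.h1) O.hk O.hp O.hq
    (fun _ => by rw [hla1, hla2, hom]; exact A.sc hE)
    (fun _ => by rw [hla1, hla2, hom]; exact B.sc hE)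

/-- **The row of the mirror image** with a loss `M` and a factor `E` of the kernel. -/
theorem rowW' {k E M R1 R2 R3 : ℝ} (O : D.Ok k) (hE : 0 < E) (e1 : D.R1 = E * R1)
    (e2 : D.R2 = E * R2) (e3 : D.R3 = E * R3) (H : ∀ lv sg bd, M ≤ D.t * D.F lv sg bd) :
    ∃ γ, 0 ≤ slc .pnn ((lvR D.far D.N0 D.x D.y' D.y D.ex (-D.L2) (-D.L1) (-D.L3) - M) / E) k D.x
      (D.t * D.vt) (-(D.t * D.st)) (-(D.t ^ 2 * D.g)) (-R2) (-R1) (-R3) γ := by
  obtain ⟨lv, hlv⟩ : ∃ lv, lvR D.far D.N0 D.x D.y D.y' D.ex D.L1 D.L2 D.L3 =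
      D.ex + lvl D.far D.N0 D.x D.y D.y' D.L1 D.L2 D.L3 lv := by
    rcases lvR_eq D.far D.N0 D.x D.y D.y' D.ex D.L1 D.L2 D.L3 with h | h
    · exact ⟨true, h⟩
    · exact ⟨false, h⟩
  obtain ⟨A, B⟩ := linsM O H lv
  have hla1 : la1 .pnn (D.t * D.vt) (-(D.t * D.st)) (-(D.t ^ 2 * D.g)) = D.t ^ 2 * D.g := by
    show -(-(D.t ^ 2 * D.g)) = _
    ring
  have hla2 : la2 .pnn (D.t * D.vt) (-(D.t * D.st)) (-(D.t ^ 2 * D.g)) = D.t * D.vt := rfl
  have hom : lom .pnn (D.t * D.vt) (-(D.t * D.st)) (-(D.t ^ 2 * D.g)) (-R2) (-R1) (-R3) =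
      D.t * D.vt * R3 + D.t ^ 2 * D.g * R2 := by
    simp only [lom]
    ring
  have hr : 0 ≤ D.t ^ 2 * D.g := mul_nonneg (sq_nonneg _) O.hg
  have hsum : D.t ^ 2 * D.g + D.t * D.vt = D.t * D.vt + D.t ^ 2 * D.g := by ring
  have hd : -R3 - -R2 - -R1 = -(R3 - R1 - R2) := by ring
  have hd' : -(-(R3 - R1 - R2)) = R3 - R1 - R2 := by ring
  have u1 : D.t * D.vt * D.R3 + D.t ^ 2 * D.g * D.R2 =
      E * (D.t * D.vt * R3 + D.t ^ 2 * D.g * R2) := by rw [e2, e3]; ring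
  have u2 : D.R3 - D.R1 - D.R2 = E * (R3 - R1 - R2) := by rw [e1, e2, e3]; ring
  have u3 : -(E * (R3 - R1 - R2)) = E * (-(R3 - R1 - R2)) := by ring
  rw [← hlv, u1, u2] at A B
  rw [u3] at B
  rw [lvR_mirror]
  exact lin_slc (c := .pnn) (p := D.p) (q := D.q) (k := k)
    (by decide) (by decide) O.hx O.hx1 (by rw [hla1]; exact hr) (by rw [hla2]; exact O.hv)
    (by rw [hla1, hla2, hsum]; exact O.h1) O.hk O.hp O.hq
    (fun _ => by rw [hla1, hla2, hom, hsum, hd]; exact B.sc hE)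
    (fun _ => by rw [hla1, hla2, hom, hsum, hd, hd']; exact A.sc hE)

end Dat

namespace DtC

variable {D : DtC}

theorem linsM {M : ℝ} (H : ∀ lv sg bd, M ≤ D.F lv sg bd) (lv : Bool) :
    LinC D.x D.v (D.v + D.w) D.p D.q (D.v * D.R3 + D.w * D.R2) (D.R3 - D.R1 - D.R2)
      (D.ex + lvl D.far D.N0 D.x D.y D.y' D.L1 D.L2 D.L3 lv - M) ∧
    LinC D.x D.w (D.v + D.w) D.p D.q (D.v * D.R3 + D.w * D.R2) (-(D.R3 - D.R1 - D.R2))
      (D.ex + lvl D.far D.N0 D.x D.y D.y' D.L1 D.L2 D.L3 lv - M) := by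
  have e1 : ∀ sg bd, D.pb bd * (sn bd (D.v * D.R3 + D.w * D.R2) +
      sn sg (D.R3 - D.R1 - D.R2) * D.W sg bd) ≤
      D.ex + lvl D.far D.N0 D.x D.y D.y' D.L1 D.L2 D.L3 lv - M := by
    intro sg bd
    have h := sub_nonneg.2 (H lv sg bd)
    rw [lvl_eq lv]
    rw [← sub_nonneg]
    refine h.trans (le_of_eq ?_)
    unfold F Fw Fv
    cases bd <;> cases sg <;> simp only [sn, cond_true, cond_false, R1, R2, R3, DtC.ex, dw, dv,
      pb, s] <;> ring
  refine ⟨⟨?_, ?_⟩, ⟨?_, ?_⟩⟩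
  · refine le_trans (le_of_eq ?_) (e1 true true)
    simp only [pb, sn, cond_true, W, lam]
    ring
  · refine le_trans (le_of_eq ?_) (e1 true false)
    simp only [pb, sn, cond_true, cond_false, W, lam]
    ring
  · refine le_trans (le_of_eq ?_) (e1 false true)
    simp only [pb, sn, cond_true, cond_false, W, lam]
    ring
  · refine le_trans (le_of_eq ?_) (e1 false false)
    simp only [pb, sn, cond_false, W, lam]
    ring

theorem rowW {k E M R1 R2 R3 : ℝ} (O : D.Ok k) (hE : 0 < E) (e1 : D.R1 = E * R1)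
    (e2 : D.R2 = E * R2) (e3 : D.R3 = E * R3) (H : ∀ lv sg bd, M ≤ D.F lv sg bd) :
    ∃ γ, 0 ≤ slc .npn ((lvR D.far D.N0 D.x D.y D.y' D.ex D.L1 D.L2 D.L3 - M) / E) k D.x
      (-D.s) D.v (-D.w) R1 R2 R3 γ := by
  obtain ⟨lv, hlv⟩ : ∃ lv, lvR D.far D.N0 D.x D.y D.y' D.ex D.L1 D.L2 D.L3 =
      D.ex + lvl D.far D.N0 D.x D.y D.y' D.L1 D.L2 D.L3 lv := by
    rcases lvR_eq D.far D.N0 D.x D.y D.y' D.ex D.L1 D.L2 D.L3 with h | h
    · exact ⟨true, h⟩
    · exact ⟨false, h⟩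
  obtain ⟨A, B⟩ := linsM H lv
  have hla1 : la1 .npn (-D.s) D.v (-D.w) = D.v := rfl
  have hla2 : la2 .npn (-D.s) D.v (-D.w) = D.w := by
    show -(-D.w) = _
    ring
  have hom : lom .npn (-D.s) D.v (-D.w) R1 R2 R3 = D.v * R3 + D.w * R2 := by
    simp only [lom]
    ring
  have u1 : D.v * D.R3 + D.w * D.R2 = E * (D.v * R3 + D.w * R2) := by rw [e2, e3]; ring
  have u2 : D.R3 - D.R1 - D.R2 = E * (R3 - R1 - R2) := by rw [e1, e2, e3]; ring
  have u3 : -(E * (R3 - R1 - R2)) = E * (-(R3 - R1 - R2)) := by ring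
  rw [← hlv, u1, u2] at A B
  rw [u3] at B
  exact lin_slc (c := .npn) (p := D.p) (q := D.q) (k := k)
    (by decide) (by decide) O.hx O.hx1 (by rw [hla1]; exact O.hv) (by rw [hla2]; exact O.hw)
    (by rw [hla1, hla2]; exact O.h1) O.hk O.hp O.hq
    (fun _ => by rw [hla1, hla2, hom]; exact A.sc hE)
    (fun _ => by rw [hla1, hla2, hom]; exact B.sc hE)

end DtC

/-! ### The exact flux for a negative middle value -/

/-- The inequalities for a defect `d ≥ 0`, the second one may hold for the exact flux. -/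
def LinD (x l r p q om d e : ℝ) : Prop :=
  p * (om + (1 - r) * d * (x * (1 + r) - l)) ≤ e ∧
    (q * (-om + (1 - r) * d * (1 - x * (1 + r) + l)) ≤ e ∨
      q * (-om + (1 - r) * d * (1 - x) +
        x * r * ((1 - r) * d) * om / ((1 - r) * d * l - om)) ≤ e)

theorem lin_auxD {k x l l' p q om d e V : ℝ} (hx : 0 ≤ x) (hx1 : x ≤ 1) (hl : 0 ≤ l)
    (hl' : 0 ≤ l') (hr : 0 < l + l') (h12 : l + l' ≤ 1) (hd : 0 ≤ d) (hk : 0 ≤ k)
    (hp : k * (1 - x) = 2 * p)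
    (hq : k * x = 2 * q) (hV : (l + l') * V = om - (1 - (l + l')) * d * (l - (l + l') * x))
    (H : LinD x l (l + l') p q om d e) :
    k * (l * Line.phi (x * ((1 - (l + l')) * d)) V +
      l' * Line.phi V (-((1 - x) * ((1 - (l + l')) * d))) +
      (1 - (l + l')) * (x ^ 2 * ((1 - (l + l')) * d) / 2) +
      ((-om + (1 - (l + l')) * d) / 2 - x * ((1 - (l + l')) * d)) * x) ≤ e := by
  obtain ⟨H1, H2⟩ := H
  obtain ⟨D, hD⟩ : ∃ D, D = (1 - (l + l')) * d := ⟨_, rfl⟩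
  rw [← hD] at H1 H2 hV ⊢
  have hD0 : 0 ≤ D := by
    rw [hD]
    exact mul_nonneg (by linarith) hd
  have f12 := phi_le_half (x * D) V
  have f23 := phi_le_half V (-((1 - x) * D))
  have i1 : max (x * D) 0 = x * D := max_eq_left (by positivity)
  have i3 : max (-((1 - x) * D)) 0 = 0 := max_eq_right (by
    have := mul_nonneg (by linarith : 0 ≤ 1 - x) hD0
    linarith)
  rw [i1] at f12
  rw [i3] at f23
  rcases le_total 0 V with h | h
  · have j1 := mul_le_mul_of_nonneg_left f12 hl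
    have j2 := mul_le_mul_of_nonneg_left f23 hl'
    refine (mul_le_mul_of_nonneg_left (add_le_add_left (add_le_add_left (add_le_add j1 j2) _) _)
      hk).trans ?_
    rw [max_eq_left h]
    have e1 : k * (l * ((x * D + V) / 2) + l' * ((V + 0) / 2) +
        (1 - (l + l')) * (x ^ 2 * D / 2) + ((-om + D) / 2 - x * D) * x) =
        k * ((l + l') * V + l * x * D + (1 - (l + l')) * x ^ 2 * D - om * x + D * x -
          2 * x ^ 2 * D) / 2 := by ring
    rw [e1, hV]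
    have e2 : k * (om - D * (l - (l + l') * x) + l * x * D + (1 - (l + l')) * x ^ 2 * D - om * x +
        D * x - 2 * x ^ 2 * D) / 2 = k * (1 - x) * (om + D * (x * (1 + (l + l')) - l)) / 2 := by
      ring
    rw [e2, hp]
    linarith
  · rcases H2 with H2 | H2
    · have j1 := mul_le_mul_of_nonneg_left f12 hl
      have j2 := mul_le_mul_of_nonneg_left f23 hl'
      refine (mul_le_mul_of_nonneg_left (add_le_add_left (add_le_add_left (add_le_add j1 j2) _) _)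
        hk).trans ?_
      rw [max_eq_right h]
      have e1 : k * (l * ((x * D + 0) / 2) + l' * ((0 + 0) / 2) +
          (1 - (l + l')) * (x ^ 2 * D / 2) + ((-om + D) / 2 - x * D) * x) =
          k * x * (-om + D * (1 - x * (1 + (l + l')) + l)) / 2 := by ring
      rw [e1, hq]
      linarith
    · have j2 := mul_le_mul_of_nonneg_left f23 hl'
      rw [max_eq_right h] at j2
      have h2 : 0 ≤ x * D := by positivity
      have e0 : Line.phi (x * D) V = (x * D) ^ 2 / (2 * (x * D - V)) := by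
        rw [phi_comm, phi_neg_pos h h2]
      rw [e0]
      obtain ⟨r, hr'⟩ : ∃ r, r = l + l' := ⟨_, rfl⟩
      rw [← hr'] at hV hr H2 ⊢
      have hZ : D * l - om = r * (x * D - V) := by linear_combination hV
      have key : l * ((x * D) ^ 2 / (2 * (x * D - V))) =
          (x * r * D * om / (D * l - om) + x * r * D) * x / 2 := by
        rcases (sub_nonneg.2 (h.trans h2)).eq_or_lt with h0 | h0
        · have a1 : x * D = 0 := by linarith
          have a2 : x * r * D = 0 := by linear_combination r * a1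
          rw [a1, a2]
          simp
        · rw [hZ]
          have a3 : om = D * l - r * (x * D - V) := by linarith
          rw [a3]
          field_simp
          ring
      rw [key]
      have e3 : k * ((x * r * D * om / (D * l - om) + x * r * D) * x / 2 +
          0 + (1 - r) * (x ^ 2 * D / 2) + ((-om + D) / 2 - x * D) * x) =
          k * x * (-om + D * (1 - x) + x * r * D * om / (D * l - om)) / 2 := by ring
      have e4 : l' * ((0 + 0) / 2) = 0 := by ring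
      rw [e4] at j2
      have j3 : k * ((x * r * D * om / (D * l - om) + x * r * D) * x / 2 +
          l' * Line.phi V (-((1 - x) * D)) + (1 - r) * (x ^ 2 * D / 2) +
          ((-om + D) / 2 - x * D) * x) ≤
          k * ((x * r * D * om / (D * l - om) + x * r * D) * x / 2 +
          0 + (1 - r) * (x ^ 2 * D / 2) + ((-om + D) / 2 - x * D) * x) :=
        mul_le_mul_of_nonneg_left (by linarith) hk
      refine j3.trans ?_
      rw [e3, hq]
      linarith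

theorem lin_slND {ex k x l1 l2 A1 A2 A3 p q : ℝ} (hx : 0 ≤ x) (hx1 : x ≤ 1) (h1 : 0 ≤ l1)
    (h2 : 0 ≤ l2) (hr : 0 < l1 + l2) (h12 : l1 + l2 ≤ 1) (hk : 0 ≤ k) (hp : k * (1 - x) = 2 * p)
    (hq : k * x = 2 * q)
    (H : 0 ≤ A1 + A2 - A3 →
      LinD x l1 (l1 + l2) p q (l1 * A2 - l2 * A1) (A1 + A2 - A3) ex)
    (H' : A1 + A2 - A3 ≤ 0 →
      LinD x l2 (l1 + l2) p q (l1 * A2 - l2 * A1) (-(A1 + A2 - A3)) ex) :
    ∃ g, 0 ≤ slN ex k x l1 l2 A1 A2 A3 g := by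
  obtain ⟨om, hom⟩ : ∃ om, om = l1 * A2 - l2 * A1 := ⟨_, rfl⟩
  obtain ⟨d, hd⟩ : ∃ d, d = A1 + A2 - A3 := ⟨_, rfl⟩
  rw [← hom, ← hd] at H H'
  have hA3 : A3 = A1 + A2 - d := by linarith
  have w1 : pn1 l1 l2 A1 A2 A3 = (-om + (1 - (l1 + l2)) * d) / 2 := by
    unfold pn1
    rw [hA3, hom]
    ring
  have w3 : pn3 l1 l2 A1 A2 A3 = (-om - (1 - (l1 + l2)) * d) / 2 := by
    unfold pn3
    rw [hA3, hom]
    ring
  obtain ⟨W2, hW2⟩ : ∃ W2, W2 = pn2 l1 l2 A1 A2 A3 := ⟨_, rfl⟩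
  have w2 : (l1 + l2) * W2 = om * (1 - (l1 + l2) / 2) - (1 - (l1 + l2)) * d * (l1 - l2) / 2 := by
    have hl : lam l1 (l1 + l2) = l1 / (l1 + l2) := by
      unfold lam
      rw [← div_eq_mul_inv, max_eq_left (div_nonneg h1 hr.le),
        min_eq_left ((div_le_one hr).2 (by linarith))]
    rw [hW2]
    unfold pn2
    rw [hl, hA3, hom]
    field_simp
    ring
  have e3 : 1 - l1 - l2 = 1 - (l1 + l2) := by ring
  unfold slN stn
  rw [w1, w3, e3, ← hW2]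
  have hkk := hk
  rcases le_total 0 d with hs | hs
  · refine ⟨(-om + (1 - (l1 + l2)) * d) / 2 - x * ((1 - (l1 + l2)) * d), ?_⟩
    have hV : (l1 + l2) * (W2 - ((-om + (1 - (l1 + l2)) * d) / 2 - x * ((1 - (l1 + l2)) * d))) =
        om - (1 - (l1 + l2)) * d * (l1 - (l1 + l2) * x) := by
      rw [mul_sub, w2]
      ring
    have hF := lin_auxD hx hx1 h1 h2 hr h12 hs hk hp hq hV (H hs)
    have g1 : (-om + (1 - (l1 + l2)) * d) / 2 -
        ((-om + (1 - (l1 + l2)) * d) / 2 - x * ((1 - (l1 + l2)) * d)) =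
        x * ((1 - (l1 + l2)) * d) := by ring
    have g3 : (-om - (1 - (l1 + l2)) * d) / 2 -
        ((-om + (1 - (l1 + l2)) * d) / 2 - x * ((1 - (l1 + l2)) * d)) =
        -((1 - x) * ((1 - (l1 + l2)) * d)) := by ring
    rw [g1, g3, phi_comm (-((1 - x) * ((1 - (l1 + l2)) * d))),
      lin_opp hx hx1 (mul_nonneg (by linarith) hs)]
    linarith
  · have hs' : 0 ≤ -d := by linarith
    refine ⟨(-om + (1 - (l1 + l2)) * -d) / 2 - x * ((1 - (l1 + l2)) * -d), ?_⟩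
    have hV : (l2 + l1) * (W2 - ((-om + (1 - (l1 + l2)) * -d) / 2 -
        x * ((1 - (l1 + l2)) * -d))) =
        om - (1 - (l2 + l1)) * -d * (l2 - (l2 + l1) * x) := by
      rw [mul_sub, add_comm l2 l1, w2]
      ring
    have H2 := H' hs
    rw [add_comm l1 l2] at H2
    have hF := lin_auxD hx hx1 h2 h1 (by linarith) (by linarith) hs' hk hp hq hV H2
    rw [add_comm l2 l1] at hF
    have g3 : (-om - (1 - (l1 + l2)) * d) / 2 -
        ((-om + (1 - (l1 + l2)) * -d) / 2 - x * ((1 - (l1 + l2)) * -d)) =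
        x * ((1 - (l1 + l2)) * -d) := by ring
    have g1 : (-om + (1 - (l1 + l2)) * d) / 2 -
        ((-om + (1 - (l1 + l2)) * -d) / 2 - x * ((1 - (l1 + l2)) * -d)) =
        -((1 - x) * ((1 - (l1 + l2)) * -d)) := by ring
    rw [g1, g3, lin_opp hx hx1 (mul_nonneg (by linarith) hs')]
    obtain ⟨G, hG⟩ : ∃ G, G = (-om + (1 - (l1 + l2)) * -d) / 2 - x * ((1 - (l1 + l2)) * -d) :=
      ⟨_, rfl⟩
    rw [← hG] at hF ⊢
    rw [phi_comm (-((1 - x) * ((1 - (l1 + l2)) * -d))) (W2 - G),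
      phi_comm (W2 - G) (x * ((1 - (l1 + l2)) * -d))]
    linarith

/-- **The slack in the two cells of the corner.** -/
theorem lin_npnD {ex k x u v w R1 R2 R3 p q : ℝ}
    (hx : 0 ≤ x) (hx1 : x ≤ 1) (h1 : 0 ≤ v) (h2 : 0 ≤ w) (hr : 0 < v + w)
    (h12 : v + w ≤ 1) (hk : 0 ≤ k) (hp : k * (1 - x) = 2 * p)
    (hq : k * x = 2 * q)
    (H : LinD x v (v + w) p q (v * R3 + w * R2) (R3 - R1 - R2) ex)
    (H' : LinD x w (v + w) p q (v * R3 + w * R2) (-(R3 - R1 - R2)) ex) :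
    ∃ g, 0 ≤ slc .npn ex k x u v (-w) R1 R2 R3 g := by
  have e1 : v * R3 - w * -R2 = v * R3 + w * R2 := by ring
  have e2 : -R2 + R3 - R1 = R3 - R1 - R2 := by ring
  obtain ⟨g, hg⟩ := lin_slND (ex := ex) (l1 := v) (l2 := w) (A1 := -R2) (A2 := R3) (A3 := R1)
    hx hx1 h1 h2 hr h12 hk hp hq
    (fun _ => by rw [e1, e2]; exact H) (fun _ => by rw [e1, e2]; exact H')
  refine ⟨g, ?_⟩
  show 0 ≤ slN ex k x v (-(-w)) (-R2) R3 R1 g
  rw [neg_neg]
  exact hg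

theorem lin_pnnD {ex k x u v w R1 R2 R3 p q : ℝ}
    (hx : 0 ≤ x) (hx1 : x ≤ 1) (h1 : 0 ≤ v) (h2 : 0 ≤ w) (hr : 0 < v + w)
    (h12 : v + w ≤ 1) (hk : 0 ≤ k) (hp : k * (1 - x) = 2 * p)
    (hq : k * x = 2 * q)
    (H : LinD x v (v + w) p q (v * R3 + w * R2) (R3 - R1 - R2) ex)
    (H' : LinD x w (v + w) p q (v * R3 + w * R2) (-(R3 - R1 - R2)) ex) :
    ∃ g, 0 ≤ slc .pnn ex k x v u (-w) (-R2) (-R1) (-R3) g := by
  have e1 : w * R2 - v * -R3 = v * R3 + w * R2 := by ring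
  have e2 : -R3 + R2 - -R1 = -(R3 - R1 - R2) := by ring
  have e3 : -(-(R3 - R1 - R2)) = R3 - R1 - R2 := by ring
  rw [add_comm v w] at H H' hr h12
  obtain ⟨g, hg⟩ := lin_slND (ex := ex) (l1 := w) (l2 := v) (A1 := -R3) (A2 := R2) (A3 := -R1)
    hx hx1 h2 h1 hr h12 hk hp hq
    (fun _ => by rw [e1, e2]; exact H') (fun _ => by rw [e1, e2, e3]; exact H)
  refine ⟨g, ?_⟩
  show 0 ≤ slN ex k x (-(-w)) v (-R3) (-(-R2)) (-R1) g
  rw [neg_neg, neg_neg]
  exact hg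

namespace Dat

variable {D : Dat}

/-- the moment -/
noncomputable def OM (D : Dat) : ℝ := D.t * D.vt * D.R3 + D.t ^ 2 * D.g * D.R2
/-- the defect of a sign -/
noncomputable def dS (D : Dat) (sg : Bool) : ℝ := sn sg (D.R3 - D.R1 - D.R2)
/-- the short arc next to the positive end -/
noncomputable def la (D : Dat) (sg : Bool) : ℝ := cond sg (D.t * D.vt) (D.t ^ 2 * D.g)
/-- the sum of the short arcs -/
noncomputable def rs (D : Dat) : ℝ := D.t * D.vt + D.t ^ 2 * D.g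

/-- the second inequality with the exact flux -/
def ExF (D : Dat) (lv sg : Bool) : Prop :=
  D.q * (-D.OM + (1 - D.rs) * D.dS sg * (1 - D.x) +
    D.x * D.rs * ((1 - D.rs) * D.dS sg) * D.OM / ((1 - D.rs) * D.dS sg * D.la sg - D.OM)) ≤
    D.ex + lvl D.far D.N0 D.x D.y D.y' D.L1 D.L2 D.L3 lv

theorem linsD {k : ℝ} (O : D.Ok k)
    (H : ∀ lv sg bd, 0 ≤ D.F lv sg bd ∨ (bd = false ∧ D.ExF lv sg)) (lv : Bool) :
    LinD D.x (D.t * D.vt) (D.t * D.vt + D.t ^ 2 * D.g) D.p D.q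
      (D.t * D.vt * D.R3 + D.t ^ 2 * D.g * D.R2) (D.R3 - D.R1 - D.R2)
      (D.ex + lvl D.far D.N0 D.x D.y D.y' D.L1 D.L2 D.L3 lv) ∧
    LinD D.x (D.t ^ 2 * D.g) (D.t * D.vt + D.t ^ 2 * D.g) D.p D.q
      (D.t * D.vt * D.R3 + D.t ^ 2 * D.g * D.R2) (-(D.R3 - D.R1 - D.R2))
      (D.ex + lvl D.far D.N0 D.x D.y D.y' D.L1 D.L2 D.L3 lv) := by
  obtain ⟨ht, hx, hx1, hv, hg, h1, hk, hp, hq, hst⟩ := O
  have e1 : ∀ sg bd, 0 ≤ D.F lv sg bd →
      D.pb bd * (sn bd (D.t * D.vt * D.R3 + D.t ^ 2 * D.g * D.R2) +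
      sn sg (D.R3 - D.R1 - D.R2) * D.W sg bd) ≤
      D.ex + lvl D.far D.N0 D.x D.y D.y' D.L1 D.L2 D.L3 lv := by
    intro sg bd h0
    have h := mul_nonneg ht h0
    rw [lvl_eq lv hst]
    rw [← sub_nonneg]
    refine h.trans (le_of_eq ?_)
    unfold F a0 a1 Q1
    cases bd <;> cases sg <;> simp only [sn, cond_true, cond_false, R1, R2, R3, Dat.ex, om1, omd,
      d0, d1, dd, r2, W, pb] <;> ring
  have eW : ∀ sg bd, D.W sg bd = (1 - (D.t * D.vt + D.t ^ 2 * D.g)) * cond bd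
      (D.x * (1 + (D.t * D.vt + D.t ^ 2 * D.g)) - cond sg (D.t * D.vt) (D.t ^ 2 * D.g))
      (1 - D.x * (1 + (D.t * D.vt + D.t ^ 2 * D.g)) + cond sg (D.t * D.vt) (D.t ^ 2 * D.g)) := by
    intro sg bd
    cases sg <;> cases bd <;> simp only [W, W0, w, Dat.lam, Lam, cond_true, cond_false] <;> ring
  have eX : ∀ sg, D.ExF lv sg → D.q * (-(D.t * D.vt * D.R3 + D.t ^ 2 * D.g * D.R2) +
      (1 - (D.t * D.vt + D.t ^ 2 * D.g)) * sn sg (D.R3 - D.R1 - D.R2) * (1 - D.x) +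
      D.x * (D.t * D.vt + D.t ^ 2 * D.g) * ((1 - (D.t * D.vt + D.t ^ 2 * D.g)) *
        sn sg (D.R3 - D.R1 - D.R2)) * (D.t * D.vt * D.R3 + D.t ^ 2 * D.g * D.R2) /
      ((1 - (D.t * D.vt + D.t ^ 2 * D.g)) * sn sg (D.R3 - D.R1 - D.R2) *
        cond sg (D.t * D.vt) (D.t ^ 2 * D.g) - (D.t * D.vt * D.R3 + D.t ^ 2 * D.g * D.R2))) ≤
      D.ex + lvl D.far D.N0 D.x D.y D.y' D.L1 D.L2 D.L3 lv := fun sg h => h
  refine ⟨⟨?_, ?_⟩, ⟨?_, ?_⟩⟩
  · rcases H lv true true with h | ⟨h, -⟩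
    · refine le_trans (le_of_eq ?_) (e1 true true h)
      rw [eW]
      simp only [pb, sn, cond_true]
      ring
    · exact absurd h (by decide)
  · rcases H lv true false with h | ⟨-, h⟩
    · refine Or.inl (le_trans (le_of_eq ?_) (e1 true false h))
      rw [eW]
      simp only [pb, sn, cond_true, cond_false]
      ring
    · exact Or.inr (eX true h)
  · rcases H lv false true with h | ⟨h, -⟩
    · refine le_trans (le_of_eq ?_) (e1 false true h)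
      rw [eW]
      simp only [pb, sn, cond_true, cond_false]
      ring
    · exact absurd h (by decide)
  · rcases H lv false false with h | ⟨-, h⟩
    · refine Or.inl (le_trans (le_of_eq ?_) (e1 false false h))
      rw [eW]
      simp only [pb, sn, cond_false]
      ring
    · exact Or.inr (eX false h)

/-- **The row**, the exact flux is allowed. -/
theorem conD (O : D.Ok (ken D.x)) (hr : 0 < D.t ^ 2 * D.g) {X12 X13 : ℝ}
    (hE : D.ex = exn' X12 X13 D.y (D.y + D.y'))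
    (H : ∀ lv sg bd, 0 ≤ D.F lv sg bd ∨ (bd = false ∧ D.ExF lv sg)) :
    Con12 D.far D.N0 .npn D.y D.y' D.x X12 X13 D.R1 D.R2 D.R3 D.L1 D.L2 D.L3 := by
  obtain ⟨lv, hlv⟩ : ∃ lv, lvR D.far D.N0 D.x D.y D.y' D.ex D.L1 D.L2 D.L3 =
      D.ex + lvl D.far D.N0 D.x D.y D.y' D.L1 D.L2 D.L3 lv := by
    rcases lvR_eq D.far D.N0 D.x D.y D.y' D.ex D.L1 D.L2 D.L3 with h | h
    · exact ⟨true, h⟩
    · exact ⟨false, h⟩
  obtain ⟨A, B⟩ := linsD O H lv
  rw [← hlv] at A B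
  have hv := O.hv
  obtain ⟨γ, hγ⟩ := lin_npnD (u := -(D.t * D.st)) (k := ken D.x) O.hx O.hx1 O.hv hr.le
    (by linarith) O.h1 O.hk O.hp O.hq A B
  refine ⟨γ, ?_⟩
  have e1 : D.y - 1 = -(D.t * D.st) := by unfold Dat.y; ring
  have e2 : D.y' - 1 = D.t * D.vt := by unfold Dat.y'; ring
  have e3 : D.y + D.y' - 2 = -(D.t ^ 2 * D.g) := by
    have := O.hst
    unfold Dat.y Dat.y'
    linear_combination -D.t * this
  rw [levR_lvR, e1, e2, e3, ← hE]
  exact hγ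

theorem conD' (O : D.Ok (ken D.x)) (hr : 0 < D.t ^ 2 * D.g) {X12 X13 : ℝ}
    (hE : D.ex = exn' X12 X13 D.y' (D.y' + D.y))
    (H : ∀ lv sg bd, 0 ≤ D.F lv sg bd ∨ (bd = false ∧ D.ExF lv sg)) :
    Con12 D.far D.N0 .pnn D.y' D.y D.x X12 X13 (-D.R2) (-D.R1) (-D.R3) (-D.L2) (-D.L1)
      (-D.L3) := by
  obtain ⟨lv, hlv⟩ : ∃ lv, lvR D.far D.N0 D.x D.y D.y' D.ex D.L1 D.L2 D.L3 =
      D.ex + lvl D.far D.N0 D.x D.y D.y' D.L1 D.L2 D.L3 lv := by
    rcases lvR_eq D.far D.N0 D.x D.y D.y' D.ex D.L1 D.L2 D.L3 with h | h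
    · exact ⟨true, h⟩
    · exact ⟨false, h⟩
  obtain ⟨A, B⟩ := linsD O H lv
  rw [← hlv] at A B
  have hv := O.hv
  obtain ⟨γ, hγ⟩ := lin_pnnD (u := -(D.t * D.st)) (k := ken D.x) O.hx O.hx1 O.hv hr.le
    (by linarith) O.h1 O.hk O.hp O.hq A B
  refine ⟨γ, ?_⟩
  have e1 : D.y - 1 = -(D.t * D.st) := by unfold Dat.y; ring
  have e2 : D.y' - 1 = D.t * D.vt := by unfold Dat.y'; ring
  have e3 : D.y' + D.y - 2 = -(D.t ^ 2 * D.g) := by
    have := O.hst
    unfold Dat.y Dat.y'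
    linear_combination -D.t * this
  rw [levR_lvR, e1, e2, e3, ← hE, lvR_mirror]
  exact hγ

end Dat

end Pool.Agent.Strip051.PB.Dg
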