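import Pool.Agent.Strip051.PB.DgV
import Pool.Agent.Strip051.PB.C12R

/-! # Values on the sides at the corner `(1, 1, 2)` -/

set_option linter.unusedSimpArgs false

namespace Pool.Agent.Strip051.PB.Dg

open Pool.Agent.Strip051.PB
open Pool.Agent.StripNear Pool.Agent.StripSquare Pool.Agent.Strip051.Sweep
open Pool.Agent.Strip051.LC

/-! ### Kinks -/

theorem pfn_nil (h x : ℝ) : (pfn []).v h x = 0 := by
  show ((0 : ℕ) : ℝ) = 0
  norm_num

theorem pfn_cons (K : Knk) (l : List Knk) (h x : ℝ) : (pfn (K :: l)).v h x =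
    max (h - (K.a : ℝ) / K.b) 0 * (K.k.v x + max (h - (K.a : ℝ) / K.b) 0 * K.g.v x) +
      (pfn l).v h x := rfl

theorem qfn_v (l : List Knk) {h t x : ℝ} (ht : t = 0 → h ≤ 0) :
    (qfn l).v h t x * t ^ 2 = (pfn l).v h x := by
  induction l with
  | nil =>
    rw [pfn_nil]
    show ((0 : ℕ) : ℝ) * t ^ 2 = 0
    norm_num
  | cons K l ih =>
    have e : (qfn (K :: l)).v h t x =
      (if h - (K.a : ℝ) / K.b ≤ 0 then ((0 : ℕ) : ℝ) else
        (h - (K.a : ℝ) / K.b) * (K.k.v x + (h - (K.a : ℝ) / K.b) * K.g.v x) * t⁻¹ ^ 2) +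
        (qfn l).v h t x := rfl
    rw [e, pfn_cons, add_mul, ih]
    congr 1
    split_ifs with hc
    · rw [max_eq_right hc]
      push_cast
      ring
    · rw [max_eq_left (le_of_not_ge hc)]
      have h0 : t ≠ 0 := by
        intro h0
        have h1 := ht h0
        have h2 : (0 : ℝ) ≤ (K.a : ℝ) / K.b := by positivity
        exact hc (by linarith)
      field_simp

theorem sfn_v (l : List Knk) {h t x : ℝ} (ht : t = 0 → h ≤ 0) :
    (sfn l).v h t x * t = (pfn l).v h x := by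
  induction l with
  | nil =>
    rw [pfn_nil]
    show ((0 : ℕ) : ℝ) * t = 0
    norm_num
  | cons K l ih =>
    have e : (sfn (K :: l)).v h t x =
      (if h - (K.a : ℝ) / K.b ≤ 0 then ((0 : ℕ) : ℝ) else
        (h - (K.a : ℝ) / K.b) * (K.k.v x + (h - (K.a : ℝ) / K.b) * K.g.v x) * t⁻¹) +
        (sfn l).v h t x := rfl
    rw [e, pfn_cons, add_mul, ih]
    congr 1
    split_ifs with hc
    · rw [max_eq_right hc]
      push_cast
      ring
    · rw [max_eq_left (le_of_not_ge hc)]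
      have h0 : t ≠ 0 := by
        intro h0
        have h1 := ht h0
        have h2 : (0 : ℝ) ≤ (K.a : ℝ) / K.b := by positivity
        exact hc (by linarith)
      field_simp

/-! ### The facts about a table -/

/-- Values on the unit circle near the corner. -/
structure TabOk {n : ℕ} (RK RL : Fin (n + 1) → ℕ → ℝ → ℝ → ℝ) (p : Pm) (D : ℕ) (x : ℝ) : Prop where
  k1 : ∀ {y h : ℝ}, InQ 1 y → |y - 1| < (D : ℝ) / S → h = 1 / 2 - (3 / 4 * y - c1n y / 2) →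
    RK 0 1 y x = p.c0.v x * ((1 / 2 + c1n y) * (1 / 2 - h) / (1 - h)) -
      (1 - y) * (p.k12.v x + p.j12.v x * h + (p.c12.v x * h ^ 2 + (pfn p.l12).v h x))
  l1 : ∀ {y h : ℝ}, InQ 1 y → |y - 1| < (D : ℝ) / S → h = 1 / 2 - (3 / 4 * y - c1n y / 2) →
    RL 0 1 y x = -(p.mb.v x * h + (p.cb.v x * h ^ 2 + (pfn p.lb).v h x))
  k2 : ∀ {y h : ℝ}, InQ 2 y → |y - 1| < (D : ℝ) / S → h = 1 / 2 - c1n y →
    RK 0 2 y x = p.c0.v x * (1 / 2 - h) -
      (y - 1) * (p.k23.v x + p.j23.v x * h + (p.c23.v x * h ^ 2 + (pfn p.l23).v h x))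
  l2 : ∀ {y h : ℝ}, InQ 2 y → |y - 1| < (D : ℝ) / S → h = 1 / 2 - c1n y →
    RL 0 2 y x = (p.ma.v x + p.mb.v x) * h + ((p.ca.v x + p.cb.v x) * h ^ 2 +
      ((pfn p.la).v h x + (pfn p.lb).v h x))

/-- A node of the third side in the quarter `3`. -/
def SdOk {n : ℕ} (P : Pos n) (RK RL : Fin (n + 1) → ℕ → ℝ → ℝ → ℝ) (p : Pm) (A : Sd)
    (j : Fin (n + 1)) (D3 : ℕ) (x : ℝ) : Prop :=
  ∀ {Y t : ℝ}, InQ 3 Y → |Y - 2| < (D3 : ℝ) / S → t = c3n Y → 0 < t →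
    crv P j 3 Y = t * A.ch.v t ∧
    RK j 3 Y x = t * (A.ch.v t * (p.c0.v x / 2) + t * A.r.v t x) ∧
    RL j 3 Y x = t * (A.ch.v t * (dga3c p).v x + t * A.l.v t x)

/-- A left curve in the quarter `2` near the height `1`. -/
def CvOk {n : ℕ} (P : Pos n) (RK RL : Fin (n + 1) → ℕ → ℝ → ℝ → ℝ) (p : Pm) (C : CvP)
    (j : Fin (n + 1)) (D : ℕ) (x : ℝ) : Prop :=
  ∀ {v : ℝ}, 0 ≤ v → v < (D : ℝ) / S →
    crv P j 2 (1 + v) = 1 / 2 - v * C.xs.v v ∧
    RK j 2 (1 + v) x = (1 / 2 - v * C.xs.v v) * (p.c0.v x + v * C.Bs.v v x) ∧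
    RL j 2 (1 + v) x = (1 / 2 - v * C.xs.v v) * (v * C.sX.v v x)

/-! ### The geometry of a point -/

/-- The coordinates `t`, `b` of a point. -/
structure GeoOk (y y' t b : ℝ) : Prop where
  t0 : 0 < t
  t1 : t ≤ 1 / 4
  b0 : 0 ≤ b
  tt : t = c3n (y + y')
  ey : y = 1 - t * dgst.v t b
  ey' : y' = 1 + t * dgvt.v t b
  eY : y + y' = 2 - t ^ 2 * dgg.v t
  c1 : c1n y = 1 / 2 + t * dgat.v t b
  h1 : 1 / 2 - (3 / 4 * y - c1n y / 2) = t * dgh1t.v t b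
  h2 : 1 / 2 - c1n y' = t * dgh2t.v t b
  tb : c1n y - c1n y' = t * b
  ex : (c1n y * (y + y') - t * b * y) / 2 - 1 / 2 = t ^ 2 * dgE2.v t b
  q4 : qv t b ≤ 4
  hlt : 0 < 1 - t * dgh1t.v t b

theorem geoOk {y y' t : ℝ} (h0 : 1 / 2 ≤ y) (h1 : y ≤ 1) (h1' : 1 ≤ y')
    (hy' : 3 / 4 * y' ^ 2 ≤ 1) (t0 : 0 < t) (t1 : t ≤ 1 / 4)
    (ht : t = c3n (y + y')) (hY : y + y' ≤ 2) :
    GeoOk y y' t ((c1n y - c1n y') / t) := by
  have hy : 3 / 4 * y ^ 2 ≤ 1 := by nlinarith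
  have ht2 : t ^ 2 = 3 - 3 / 4 * (y + y') ^ 2 := by
    rw [ht]
    exact c3n_sq (by nlinarith)
  obtain ⟨b, hb⟩ : ∃ b, b = (c1n y - c1n y') / t := ⟨_, rfl⟩
  have hb' : c1n y - c1n y' = t * b := by
    rw [hb]
    field_simp
  rw [← hb]
  have b0 : 0 ≤ b := by
    rw [hb]
    refine div_nonneg ?_ t0.le
    have : c1n y' ≤ c1n y := Real.sqrt_le_sqrt (by nlinarith)
    linarith
  have t21 : t ^ 2 ≤ 1 := by nlinarith
  obtain ⟨q4, ey, ey', e1, e2⟩ := geo hy hy' (by linarith) ht2 t21 hb'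
  have hk := hv_eq (b := b) t21 q4
  have hw := gv_w (Y := y + y') (by linarith) ht2
  have hg := gv_eq (t := t) (by linarith)
  obtain ⟨G, hG⟩ : ∃ G, G = gv t := ⟨_, rfl⟩
  obtain ⟨H, hH⟩ : ∃ H, H = hv t b := ⟨_, rfl⟩
  obtain ⟨K, hK⟩ : ∃ K, K = kv t b := ⟨_, rfl⟩
  rw [← hG, ← hK] at ey ey' e1 e2
  rw [← hK, ← hH] at hk
  rw [← hG] at hw hg
  have hh1 : 1 / 2 - (3 / 4 * y - c1n y / 2) = t * dgh1t.v t b := by
    rw [dgh1t_v, dge12_v, ← hG, ← hH, e1, ey, hk]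
    ring
  have hlt : 0 < 1 - t * dgh1t.v t b := by
    have h2 : c1n y ≤ 1 := by
      unfold c1n
      rw [Real.sqrt_le_one]
      nlinarith [sq_nonneg y]
    rw [← hh1]
    linarith
  refine ⟨t0, t1, b0, ht, ?_, ?_, ?_, ?_, hh1, ?_, hb', ?_, q4, hlt⟩
  · rw [dgst_v, ← hG, ← hK, ey]
    ring
  · rw [dgvt_v, ← hG, ← hK, ey']
    ring
  · rw [dgg_v, ← hG]
    linarith
  · rw [dgat_v, ← hG, ← hH, e1, hk]
    ring
  · rw [dgh2t_v, dge23_v, ← hG, ← hH, e2, hk]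
    ring
  · have e3 : c1n y * (y + y') - t * b * y = K * qv t b := by
      have e4 : y + y' = 2 - t ^ 2 * G := by linarith
      have e5 : qv t b = 3 / 4 * (y + y') ^ 2 + (t * b) ^ 2 := by
        unfold qv
        linear_combination -ht2
      rw [e5, e1, e4]
      rw [ey]
      ring
    have e6 := kv_sq (b := b) t21 q4
    rw [← hK] at e6
    have e7 : 0 ≤ K := by rw [hK]; exact kv_nn
    have q2 := qv_lo (b := b) t21
    have e8 : 1 + K * qv t b ≠ 0 := by positivity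
    rw [e3, dgE2_v, dgEq_v, ← hK]
    have e9 : (K * qv t b) ^ 2 - 1 = (qv t b - 1) * (t ^ 2 * (1 - b ^ 2)) / 3 := by
      have e10 : t ^ 2 * (1 - b ^ 2) = 3 - qv t b := by
        unfold qv
        ring
      rw [e10]
      linear_combination qv t b / 3 * e6
    field_simp
    linear_combination 6 * e9

/-! ### Values on the unit circle -/

section

variable {n : ℕ} {P : Pos n} {RK RL : Fin (n + 1) → ℕ → ℝ → ℝ → ℝ} {p : Pm} {D D3 : ℕ}
  {x y y' t b : ℝ}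

theorem zt (h : 0 < t) {z : ℝ} : t = 0 → z ≤ 0 := fun h0 => absurd h0 h.ne'

/-- The value at the middle-bottom side. -/
theorem GeoOk.R1 (g : GeoOk y y' t b) (T : TabOk RK RL p D x) (hq : InQ 1 y)
    (hD : |y - 1| < (D : ℝ) / S) :
    RK 0 1 y x = p.c0.v x / 2 + t * (b * -(p.k12.v x / 3) + t * (dgr11 p).v t b x) := by
  have hk := T.k1 hq hD g.h1.symm
  have hl := g.hlt
  have hr := dgrho_v t b
  have ha := dgat_v t b
  have hh := dgh1t_v t b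
  have he := dge12_v t b
  have hs := dgst_v t b
  have hs1 := dgs1_v t b
  have h1 := dgh1_v t b
  have q2 := qv_lo (b := b) (show t ^ 2 ≤ 1 by nlinarith [g.t0, g.t1])
  have hkk := hv_eq (b := b) (show t ^ 2 ≤ 1 by nlinarith [g.t0, g.t1]) g.q4
  have hQ : p.c12.v x * (t * dgh1t.v t b) ^ 2 + (pfn p.l12).v (t * dgh1t.v t b) x =
      t ^ 2 * (dgQ12 p).v t b x := by
    rw [← qfn_v p.l12 (t := t) (zt g.t0)]
    simp only [dgQ12, h1]
    ring
  rw [hk, hQ, g.c1]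
  have e1 : 1 - y = t * dgst.v t b := by linarith [g.ey]
  rw [e1]
  have e2 : (1 / 2 + (1 / 2 + t * dgat.v t b)) * (1 / 2 - t * dgh1t.v t b) /
      (1 - t * dgh1t.v t b) = 1 / 2 + t ^ 2 * dgrho.v t b := by
    rw [hr, h1, div_eq_iff hl.ne']
    have e3 : (1 - t * dgh1t.v t b)⁻¹ * (1 - t * dgh1t.v t b) = 1 := inv_mul_cancel₀ hl.ne'
    have e4 : dgat.v t b - dgh1t.v t b = t * (hv t b * (3 / 8 * (2 - t ^ 2 * gv t) -
        3 / 4 * (t * b)) - gv t / 2) := by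
      rw [ha, hh, he]
      ring
    linear_combination t * e4 / 2 - t ^ 2 * (hv t b * (3 / 8 * (2 - t ^ 2 * gv t) -
      3 / 4 * (t * b)) - gv t / 2 - 2 * (dgat.v t b * dgh1t.v t b)) / 2 * e3
  rw [e2]
  have e5 : (dgr11 p).v t b x = p.c0.v x * dgrho.v t b - dgs1.v t b * p.k12.v x -
      dgst.v t b * (p.j12.v x * dgh1t.v t b + t * (dgQ12 p).v t b x) := rfl
  have e6 : t * dgst.v t b = t * b / 3 + t ^ 2 * dgs1.v t b := by
    rw [hs, hs1, hkk]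
    ring
  rw [e5]
  linear_combination -p.k12.v x * e6

/-- The level at the middle-bottom side. -/
theorem GeoOk.L1 (g : GeoOk y y' t b) (T : TabOk RK RL p D x) (hq : InQ 1 y)
    (hD : |y - 1| < (D : ℝ) / S) :
    RL 0 1 y x = t * (b * -(p.mb.v x / 2) + t * (dgl11 p).v t b x) := by
  have hk := T.l1 hq hD g.h1.symm
  have hh := dgh1t_v t b
  have h1 := dgh1_v t b
  have hQ : p.cb.v x * (t * dgh1t.v t b) ^ 2 + (pfn p.lb).v (t * dgh1t.v t b) x =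
      t ^ 2 * (dgQb1 p).v t b x := by
    rw [← qfn_v p.lb (t := t) (zt g.t0)]
    simp only [dgQb1, h1]
    ring
  rw [hk, hQ]
  have e5 : (dgl11 p).v t b x = -(p.mb.v x * dge12.v t b + (dgQb1 p).v t b x) := rfl
  rw [e5, hh]
  ring

/-- The value at the top-middle side. -/
theorem GeoOk.R2 (g : GeoOk y y' t b) (T : TabOk RK RL p D x) (hq : InQ 2 y')
    (hD : |y' - 1| < (D : ℝ) / S) :
    -RK 0 2 y' x = -(p.c0.v x / 2) + t * (b * (p.c0.v x / 2 + p.k23.v x / 3) +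
      t * (dgr21 p).v t b x) := by
  have hk := T.k2 hq hD g.h2.symm
  have hh := dgh2t_v t b
  have hs := dgvt_v t b
  have hs1 := dgv1_v t b
  have h1 := dgh2_v t b
  have hkk := hv_eq (b := b) (show t ^ 2 ≤ 1 by nlinarith [g.t0, g.t1]) g.q4
  have hQ : p.c23.v x * (t * dgh2t.v t b) ^ 2 + (pfn p.l23).v (t * dgh2t.v t b) x =
      t ^ 2 * (dgQ23 p).v t b x := by
    rw [← qfn_v p.l23 (t := t) (zt g.t0)]
    simp only [dgQ23, h1]
    ring
  have e1 : y' - 1 = t * dgvt.v t b := by linarith [g.ey']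
  rw [hk, hQ, e1]
  have e5 : (dgr21 p).v t b x = p.c0.v x * dge23.v t b + dgv1.v t b * p.k23.v x +
      dgvt.v t b * (p.j23.v x * dgh2t.v t b + t * (dgQ23 p).v t b x) := rfl
  have e6 : t * dgvt.v t b = t * b / 3 + t ^ 2 * dgv1.v t b := by
    rw [hs, hs1, hkk]
    ring
  rw [e5, hh]
  linear_combination p.k23.v x * e6

/-- The level at the top-middle side. -/
theorem GeoOk.L2 (g : GeoOk y y' t b) (T : TabOk RK RL p D x) (hq : InQ 2 y')
    (hD : |y' - 1| < (D : ℝ) / S) :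
    -RL 0 2 y' x = t * (b * -((p.ma.v x + p.mb.v x) / 2) + t * (dgl21 p).v t b x) := by
  have hk := T.l2 hq hD g.h2.symm
  have hh := dgh2t_v t b
  have h1 := dgh2_v t b
  have hQ : (p.ca.v x + p.cb.v x) * (t * dgh2t.v t b) ^ 2 +
      ((pfn p.la).v (t * dgh2t.v t b) x + (pfn p.lb).v (t * dgh2t.v t b) x) =
      t ^ 2 * (dgQab p).v t b x := by
    rw [← qfn_v p.la (t := t) (zt g.t0), ← qfn_v p.lb (t := t) (zt g.t0)]
    simp only [dgQab, h1]
    ring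
  rw [hk, hQ]
  have e5 : (dgl21 p).v t b x = -((p.ma.v x + p.mb.v x) * dge23.v t b + (dgQab p).v t b x) := rfl
  rw [e5, hh]
  ring

/-! ### The nodes of the third side -/

theorem dgxw_v {w : ℝ} (h0 : 0 ≤ w) (h1 : w ≤ 1 / 2) : swn (2 - w) - 1 / 2 = w * dgxw.v w := by
  have e : swn (2 - w) = √(1 / 4 + 3 / 2 * w - 3 / 4 * w ^ 2) := by
    unfold swn
    congr 1
    ring
  have hs : √(1 / 4 + 3 / 2 * w - 3 / 4 * w ^ 2) ^ 2 = 1 / 4 + 3 / 2 * w - 3 / 4 * w ^ 2 :=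
    Real.sq_sqrt (by nlinarith)
  have hn := Real.sqrt_nonneg (1 / 4 + 3 / 2 * w - 3 / 4 * w ^ 2)
  rw [e]
  simp only [dgxw]
  push_cast
  obtain ⟨s, h⟩ : ∃ s, s = √(1 / 4 + 3 / 2 * w - 3 / 4 * w ^ 2) := ⟨_, rfl⟩
  rw [← h] at hs hn ⊢
  have hne : 1 / 2 + s ≠ 0 := by positivity
  field_simp
  linear_combination 16 * hs

theorem crv3_left {j : Fin (n + 1)} (h : P.ρ j ≤ 1) {Y : ℝ} (hq : InQ 3 Y) :
    crv P j 3 Y = P.ρ j * (swn Y - 1 / 2) := by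
  obtain ⟨h1, h2⟩ := hq
  have hc : c1n Y = 0 := Real.sqrt_eq_zero_of_nonpos (by nlinarith)
  unfold crv gamn
  have hw : Wn (decide (2 ≤ 3)) Y = swn Y - 1 / 2 := by
    unfold Wn
    show swn Y + -(1 / 2) = _
    ring
  rw [hw, if_pos h, hc]
  ring

theorem crv3_right {j : Fin (n + 1)} (h : 1 < P.ρ j) {Y : ℝ} :
    crv P j 3 Y = (2 - P.ρ j) * (swn Y - 1 / 2) + (P.ρ j - 1) * c3n Y := by
  unfold crv gamn
  have hw : Wn (decide (2 ≤ 3)) Y = swn Y - 1 / 2 := by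
    unfold Wn
    show swn Y + -(1 / 2) = _
    ring
  rw [hw, if_neg (not_le.2 h)]
  ring

theorem tsq {Y : ℝ} (h0 : 0 ≤ Y) (h2 : Y ≤ 2) (ht : t = c3n Y) : t ^ 2 = 3 - 3 / 4 * Y ^ 2 := by
  rw [ht]
  exact c3n_sq (by nlinarith)

theorem sdL {N : NdP} {j : Fin (n + 1)} (hj : P.ρ j ≤ 1) (hs : ∀ u, N.sc.v u = P.ρ j * u)
    (hK : ∀ {Y : ℝ}, InQ 3 Y → |Y - 2| < (D3 : ℝ) / S →
      RK j 3 Y x = crv P j 3 Y * (N.Bv.v x - (2 - Y) * N.Bm.v x))
    (hL : ∀ {Y : ℝ}, InQ 3 Y → |Y - 2| < (D3 : ℝ) / S →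
      RL j 3 Y x = crv P j 3 Y * (N.Xv.v x - (2 - Y) * N.Xm.v x)) :
    SdOk P RK RL p (dgSL p N) j D3 x := by
  intro Y t hq hD ht t0
  have hY := hq
  obtain ⟨y1, y2⟩ := hY
  have hw := gv_w (by linarith) (tsq (by linarith) y2 ht)
  have hx := dgxw_v (w := 2 - Y) (by linarith) (by linarith)
  have e0 : 2 - (2 - Y) = Y := by ring
  rw [e0] at hx
  have hwv : dgw.v t = 2 - Y := by rw [dgw_v, hw]
  have hc : crv P j 3 Y = t * (dgLc N).v t := by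
    have e1 : (dgLc N).v t = t * (dgLf N).v t := rfl
    have e2 : (dgLf N).v t = N.sc.v (dgg.v t * dgxw.v (dgw.v t)) := rfl
    rw [crv3_left hj hq, e1, e2, hs, hwv, dgg_v, hx]
    rw [hw]
    ring
  have e1 : (dgLc N).v t = t * (dgLf N).v t := rfl
  have e3 : (dgLr p N).v t x = (dgLf N).v t * ((dgLB N).v t x - p.c0.v x / 2) := by
    simp only [dgLr]
  have e4 : (dgLB N).v t x = N.Bv.v x - dgw.v t * N.Bm.v x := rfl
  have e5 : (dgLl p N).v t x = (dgLf N).v t * ((dgLX N).v t x - (dga3c p).v x) := rfl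
  have e6 : (dgLX N).v t x = N.Xv.v x - dgw.v t * N.Xm.v x := rfl
  refine ⟨hc, ?_, ?_⟩
  · show RK j 3 Y x = t * ((dgLc N).v t * (p.c0.v x / 2) + t * (dgLr p N).v t x)
    rw [hK hq hD, hc, e1, e3, e4, hwv]
    ring
  · show RL j 3 Y x = t * ((dgLc N).v t * (dga3c p).v x + t * (dgLl p N).v t x)
    rw [hL hq hD, hc, e1, e5, e6, hwv]
    ring

theorem sdR {N : NdP} {j : Fin (n + 1)} (hj : 1 < P.ρ j)
    (hs : ∀ u, N.sc.v u = (2 - P.ρ j) * u + (P.ρ j - 1))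
    (hK : ∀ {Y : ℝ}, InQ 3 Y → |Y - 2| < (D3 : ℝ) / S →
      RK j 3 Y x = crv P j 3 Y * (p.c0.v x / 2 - (2 - Y) * N.Bm.v x))
    (hL : ∀ {Y : ℝ}, InQ 3 Y → |Y - 2| < (D3 : ℝ) / S →
      RL j 3 Y x = crv P j 3 Y * ((dga3c p).v x - (2 - Y) * N.Xm.v x)) :
    SdOk P RK RL p (dgSR N) j D3 x := by
  intro Y t hq hD ht t0
  have hY := hq
  obtain ⟨y1, y2⟩ := hY
  have hw := gv_w (by linarith) (tsq (by linarith) y2 ht)
  have hx := dgxw_v (w := 2 - Y) (by linarith) (by linarith)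
  have e0 : 2 - (2 - Y) = Y := by ring
  rw [e0] at hx
  have hwv : dgw.v t = 2 - Y := by rw [dgw_v, hw]
  have htg : t * dgtg.v t = 2 - Y := by
    rw [dgtg_v, hw]
    ring
  have hc : crv P j 3 Y = t * (dgRc N).v t := by
    have e1 : (dgRc N).v t = N.sc.v (dgtg.v t * dgxw.v (dgw.v t)) := rfl
    rw [crv3_right hj, e1, hs, hwv, hx, ← ht, ← htg]
    ring
  have e3 : (dgRr N).v t x = -((dgRc N).v t * (dgtg.v t * N.Bm.v x)) := rfl
  have e4 : (dgRl N).v t x = -((dgRc N).v t * (dgtg.v t * N.Xm.v x)) := rfl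
  refine ⟨hc, ?_, ?_⟩
  · show RK j 3 Y x = t * ((dgRc N).v t * (p.c0.v x / 2) + t * (dgRr N).v t x)
    rw [hK hq hD, hc, e3, ← htg]
    ring
  · show RL j 3 Y x = t * ((dgRc N).v t * (dga3c p).v x + t * (dgRl N).v t x)
    rw [hL hq hD, hc, e4, ← htg]
    ring

/-- The top curve. -/
theorem sdC {j : Fin (n + 1)} (hj : P.ρ j = 2)
    (hK : ∀ {Y t h : ℝ}, InQ 3 Y → |Y - 2| < (D3 : ℝ) / S → t = c3n Y →
      h = t / 2 + (2 - Y) / 4 →
      RK j 3 Y x = p.c0.v x * ((Y - 2 * t) * (t + 3 - 3 / 2 * Y) / (4 * (Y - 1))) -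
        (2 - Y) * (p.k13.v x + p.j13.v x * h + (p.c13.v x * h ^ 2 + (pfn p.l13).v h x)))
    (hL : ∀ {Y t h : ℝ}, InQ 3 Y → |Y - 2| < (D3 : ℝ) / S → t = c3n Y →
      h = t / 2 + (2 - Y) / 4 →
      RL j 3 Y x = -((2 * p.mb.v x + p.ma.v x) * h + ((2 * p.cb.v x + p.ca.v x) * h ^ 2 +
        (2 * (pfn p.lb).v h x + (pfn p.la).v h x)))) :
    SdOk P RK RL p (dgSC p) j D3 x := by
  intro Y t hq hD ht t0
  have hY := hq
  obtain ⟨y1, y2⟩ := hY
  have ht2 := tsq (by linarith) y2 ht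
  have hw := gv_w (by linarith) ht2
  have hg := gv_eq (t := t) (by nlinarith)
  have hc : crv P j 3 Y = t * dgCc.v t := by
    have e1 : dgCc.v t = ((1 : ℕ) : ℝ) := rfl
    rw [crv3_right (by rw [hj]; norm_num), hj, e1, ← ht]
    push_cast
    ring
  have e1 : dgCc.v t = 1 := by
    show ((1 : ℕ) : ℝ) = 1
    norm_num
  have hh : t / 2 + (2 - Y) / 4 = t * dgH.v t := by
    rw [dgH_v, hw]
    ring
  have hYt : Y = 2 - t ^ 2 * gv t := by linarith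
  refine ⟨hc, ?_, ?_⟩
  · show RK j 3 Y x = t * (dgCc.v t * (p.c0.v x / 2) + t * (dgr3c p).v t x)
    rw [hK hq hD ht rfl, hh]
    have hQ : p.c13.v x * (t * dgH.v t) ^ 2 + (pfn p.l13).v (t * dgH.v t) x =
        t ^ 2 * (dgQ13 p).v t x := by
      rw [← qfn_v p.l13 (t := t) (zt t0)]
      have : (dgQ13 p).v t x = dgH.v t ^ 2 * p.c13.v x + (qfn p.l13).v (dgh3.v t) t x := rfl
      rw [this, dgh3_v]
      ring
    have e3 : (dgr3c p).v t x = -(p.c0.v x * ((1 + dgtg.v t / 2) * (1 - dgh3.v t)⁻¹ / 4) +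
        dgg.v t * (p.k13.v x + p.j13.v x * dgh3.v t + t ^ 2 * (dgQ13 p).v t x)) := by
      simp only [dgr3c]
      push_cast
      ring
    have hl : (0 : ℝ) < 1 - t * dgH.v t := by
      rw [← hh]
      have : t ≤ 5 / 4 := by nlinarith
      nlinarith
    have e4 : (Y - 2 * t) * (t + 3 - 3 / 2 * Y) / (4 * (Y - 1)) =
        t / 2 - t ^ 2 * ((1 + dgtg.v t / 2) * (1 - dgh3.v t)⁻¹ / 4) := by
      rw [dgh3_v, dgtg_v, ← hh]
      have h1 : Y - 1 ≠ 0 := by linarith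
      have h2 : 2 + Y - 2 * t ≠ 0 := by
        rw [← hh] at hl
        intro h0
        linarith
      have h3 : 1 - (t / 2 + (2 - Y) / 4) = (2 + Y - 2 * t) / 4 := by ring
      have h4 : t ^ 2 * ((1 + t * gv t / 2) * ((2 + Y - 2 * t) / 4)⁻¹ / 4) =
          (t ^ 2 + t * (2 - Y) / 2) / (2 + Y - 2 * t) := by
        rw [hw]
        field_simp
      rw [h3, h4]
      field_simp
      linear_combination (-4 * (Y - 2 * t)) * ht2
    rw [hQ, e3, e4, e1, dgg_v, hw, dgh3_v]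
    ring
  · show RL j 3 Y x = t * (dgCc.v t * (dga3c p).v x + t * (dgl3c p).v t x)
    rw [hL hq hD ht rfl, hh]
    have hQ : (2 * p.cb.v x + p.ca.v x) * (t * dgH.v t) ^ 2 +
        (2 * (pfn p.lb).v (t * dgH.v t) x + (pfn p.la).v (t * dgH.v t) x) =
        t ^ 2 * (dgQ3 p).v t x := by
      rw [← qfn_v p.la (t := t) (zt t0), ← qfn_v p.lb (t := t) (zt t0)]
      have : (dgQ3 p).v t x = dgH.v t ^ 2 * (2 * p.cb.v x + p.ca.v x) +
          (2 * (qfn p.lb).v (dgh3.v t) t x + (qfn p.la).v (dgh3.v t) t x) := by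
        simp only [dgQ3]
        push_cast
        ring
      rw [this, dgh3_v]
      ring
    have e3 : (dgl3c p).v t x = -((2 * p.mb.v x + p.ma.v x) * dgg.v t / 4 +
        (dgQ3 p).v t x) := by
      simp only [dgl3c]
      push_cast
      ring
    have e5 : (dga3c p).v x = -((2 * p.mb.v x + p.ma.v x) / 2) := by
      simp only [dga3c]
      push_cast
      ring
    rw [hQ, e3, e1, e5, dgH_v, dgg_v]
    ring

end

end Pool.Agent.Strip051.PB.Dg
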