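import Pool.Agent.Strip051.PB.DgV

/-! # Functions in the charts at the corner `(1, 1, 2)`, kernels with a third kernel (partly
generated)

`q` are the parameters of the third kernel, `M` the parameters of a node curve in the quarter `3`,
`G`, `H` the third kernel at the end nodes, `V` on the third side, `K` its slope at a left curve. -/

set_option linter.unusedVariables false

namespace Pool.Agent.Strip051.PB.Dg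

open Pool.Agent.Strip051.PB

attribute [local irreducible] padd psub pneg pmul psq pinv psqrt psqrtg pabs pps pmax pmin pphi plam
  pcase phf pnat prat pscale pnorm pdc pnc pone ppos pnn Enc pbad pzero phull pnp

/-- The parameters of the third kernel. -/
structure Pu where
  mo : Fn1
  s1 : Fn1
  s2 : Fn1
  s3 : Fn1
  l1 : List Knk
  l2 : List Knk
  l3 : List Knk
  sD : Fn2
  C11 : Fn2
  C01 : Fn2

/-- A node curve in the quarter `3`. -/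
structure NdU where
  sc : Fn1
  B : Fn2
  X : Fn2
  D : Fn2

/-- The third kernel at an end node of the third side. -/
structure Su where
  d : Fn2

/-- The third kernel on the third side. -/
structure Tu where
  c : Fn3
  gc : Fn2

noncomputable def dgsl1 (q : Pu) : Fn1 := ⟨_, _, fun h1 => (enc_half (q.s1.enc h1))⟩
noncomputable def dgsl2 (q : Pu) : Fn1 := ⟨_, _, fun h1 => (enc_half (q.s2.enc h1))⟩
noncomputable def dgsl3 (q : Pu) : Fn1 := ⟨_, _, fun h1 => (enc_half (q.s3.enc h1))⟩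
noncomputable def dgc11 (q : Pu) : Fn3 := ⟨_, _, fun h1 h2 h3 => (enc_add (enc_mul (q.s1.enc h3) (dge12.enc h1 h2)) ((qfn q.l1).enc (dgh1.enc h1 h2) h1 h3))⟩
noncomputable def dgc21 (q : Pu) : Fn3 := ⟨_, _, fun h1 h2 h3 => (enc_add (enc_mul (q.s2.enc h3) (dge23.enc h1 h2)) ((qfn q.l2).enc (dgh2.enc h1 h2) h1 h3))⟩
noncomputable def dgc3c (q : Pu) : Fn2 := ⟨_, _, fun h1 h2 => (enc_norm (enc_add (enc_scale 1 4 (enc_mul (q.s3.enc h2) (dgg.enc h1))) ((qfn q.l3).enc (dgh3.enc h1) h1 h2)))⟩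
noncomputable def dgD2c (p : Pm) (q : Pu) : Fn2 := ⟨_, _, fun h1 h2 => (enc_norm (enc_mul (enc_norm (enc_sub (enc_rat _ 1 2) (enc_mul h1 (p.cv.xs.enc h1)))) (q.sD.enc h1 h2)))⟩
noncomputable def dgD0c (q : Pu) : Fn2 := ⟨_, _, fun h1 h2 => (enc_norm (enc_neg (enc_add (enc_mul (q.s2.enc h2) (dgxi.enc h1)) ((sfn q.l2).enc (dghx.enc h1) h1 h2))))⟩
noncomputable def dggC (p : Pm) (q : Pu) : Fn3 := ⟨_, _, fun h1 h2 h3 => (enc_mul (enc_norm (enc_sub ((dgD2c p q).enc (dgv.enc h1 h2) h3) ((dgD0c q).enc (dgv.enc h1 h2) h3))) ((dgix p).enc (dgv.enc h1 h2)))⟩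
noncomputable def dggC1 (p : Pm) (q : Pu) : Fn3 := ⟨_, _, fun h1 h2 h3 => (enc_mul (enc_norm (enc_sub (q.C11.enc (dgy1.enc h1 h2) h3) (q.C01.enc (dgy1.enc h1 h2) h3))) ((dgiX p).enc (dgy1.enc h1 h2)))⟩
noncomputable def dgmo (q : Pu) : Fn1 := ⟨_, _, fun h1 => (q.mo.enc h1)⟩
noncomputable def dgULf (M : NdU) : Fn1 := ⟨_, _, fun h1 => (M.sc.enc (enc_norm (enc_mul (dgg.enc h1) (dgxw.enc (dgw.enc h1)))))⟩
noncomputable def dgULc (M : NdU) : Fn1 := ⟨_, _, fun h1 => (enc_norm (enc_mul h1 ((dgULf M).enc h1)))⟩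
noncomputable def dgULr (p : Pm) (M : NdU) : Fn2 := ⟨_, _, fun h1 h2 => (enc_norm (enc_mul ((dgULf M).enc h1) (enc_norm (enc_sub (M.B.enc h1 h2) (enc_half (p.c0.enc h2))))))⟩
noncomputable def dgULl (p : Pm) (M : NdU) : Fn2 := ⟨_, _, fun h1 h2 => (enc_norm (enc_mul ((dgULf M).enc h1) (enc_norm (enc_sub (M.X.enc h1 h2) ((dga3c p).enc h2)))))⟩
noncomputable def dgULd (q : Pu) (M : NdU) : Fn2 := ⟨_, _, fun h1 h2 => (enc_norm (enc_mul ((dgULf M).enc h1) (enc_norm (enc_sub (M.D.enc h1 h2) ((dgsl3 q).enc h2)))))⟩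
noncomputable def dgURc (M : NdU) : Fn1 := ⟨_, _, fun h1 => (M.sc.enc (enc_norm (enc_mul (dgtg.enc h1) (dgxw.enc (dgw.enc h1)))))⟩
noncomputable def dgURr (M : NdU) : Fn2 := ⟨_, _, fun h1 h2 => (enc_norm (enc_mul ((dgURc M).enc h1) (M.B.enc h1 h2)))⟩
noncomputable def dgURl (M : NdU) : Fn2 := ⟨_, _, fun h1 h2 => (enc_norm (enc_mul ((dgURc M).enc h1) (M.X.enc h1 h2)))⟩
noncomputable def dgURd (M : NdU) : Fn2 := ⟨_, _, fun h1 h2 => (enc_norm (enc_mul ((dgURc M).enc h1) (M.D.enc h1 h2)))⟩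
noncomputable def dgtd (A : Sd) (B : Sd) (G : Su) (H : Su) : Fn2 := ⟨_, _, fun h1 h2 => (enc_norm (enc_mul (enc_norm (enc_sub (H.d.enc h1 h2) (G.d.enc h1 h2))) ((dgti A B).enc h1)))⟩
noncomputable def dgTld (A : Sd) (B : Sd) (G : Su) (H : Su) : Fn3 := ⟨_, _, fun h1 h2 h3 => (enc_add (G.d.enc h1 h3) (enc_mul ((dgtd A B G H).enc h1 h3) (enc_norm (enc_sub h2 (A.ch.enc h1)))))⟩
noncomputable def dgTud (A : Sd) (B : Sd) (G : Su) (H : Su) : Fn3 := ⟨_, _, fun h1 h2 h3 => (enc_sub (H.d.enc h1 h3) (enc_mul ((dgtd A B G H).enc h1 h3) (enc_norm (enc_sub (B.ch.enc h1) h2))))⟩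
noncomputable def dgTnd (G : Su) : Fn3 := ⟨_, _, fun h1 h2 h3 => (G.d.enc h1 h3)⟩
noncomputable def dgrr : Fn2 := ⟨_, _, fun h1 h2 => (enc_norm (enc_add (dgv.enc h1 h2) (dgw.enc h1)))⟩
noncomputable def dgQxAp_12 (p : Pm) (T : Th) : Fn7 := ⟨_, _, fun h1 h2 h3 h4 h5 h6 h7 => (enc_mul (enc_norm (enc_sub (enc_pnc _ 1) (dgrr.enc h1 h2))) (enc_norm ((dgdq p T).enc h1 h2 h3 h6 h7)))⟩
noncomputable def dgQxAp (p : Pm) (T : Th) : Fn7 := ⟨_, _, fun h1 h2 h3 h4 h5 h6 h7 => (enc_sub (enc_add (dgEq.enc h1 h2) (enc_half ((dgLq p T).enc h1 h2 h3 h4 h5))) (enc_mul (dgq1.enc h3) (enc_norm (enc_add (enc_sub (enc_mul (enc_norm (enc_sub (enc_pnc _ 1) h3)) (enc_norm ((dgQxAp_12 p T).enc h1 h2 h3 h4 h5 h6 h7))) ((dgomq p T).enc h1 h2 h3 h7)) (enc_mul (enc_norm (enc_mul (enc_norm (enc_mul h3 (dgrr.enc h1 h2))) (enc_norm (enc_mul (enc_norm ((dgQxAp_12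 p T).enc h1 h2 h3 h4 h5 h6 h7)) (enc_norm ((dgomq p T).enc h1 h2 h3 h7)))))) (enc_inv (enc_sub (enc_mul (enc_norm ((dgQxAp_12 p T).enc h1 h2 h3 h4 h5 h6 h7)) (dgv.enc h1 h2)) ((dgomq p T).enc h1 h2 h3 h7))))))))⟩
noncomputable def dgQxAm_13 (p : Pm) (T : Th) : Fn7 := ⟨_, _, fun h1 h2 h3 h4 h5 h6 h7 => (enc_mul (enc_norm (enc_sub (enc_pnc _ 1) (dgrr.enc h1 h2))) (enc_norm ((dgdq p T).enc h1 h2 h3 h6 h7)))⟩
noncomputable def dgQxAm (p : Pm) (T : Th) : Fn7 := ⟨_, _, fun h1 h2 h3 h4 h5 h6 h7 => (enc_sub (enc_add (dgEq.enc h1 h2) (enc_half ((dgLq p T).enc h1 h2 h3 h4 h5))) (enc_mul (dgq1.enc h3) (enc_norm (enc_sub (enc_sub (enc_neg (enc_mul (enc_norm (enc_sub (enc_pnc _ 1) h3)) (enc_norm ((dgQxAm_13 p T).enc h1 h2 h3 h4 h5 h6 h7)))) ((dgomq p T).enc h1 h2 h3 h7)) (enc_mul (enc_norm (enc_mul (enc_norm (enc_mul h3 (dgrr.enc h1 h2)))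 (enc_norm (enc_mul (enc_norm ((dgQxAm_13 p T).enc h1 h2 h3 h4 h5 h6 h7)) (enc_norm ((dgomq p T).enc h1 h2 h3 h7)))))) (enc_inv (enc_sub (enc_neg (enc_mul (enc_norm ((dgQxAm_13 p T).enc h1 h2 h3 h4 h5 h6 h7)) (dgw.enc h1))) ((dgomq p T).enc h1 h2 h3 h7))))))))⟩
noncomputable def dgQxBp_12 (p : Pm) (T : Th) : Fn7 := ⟨_, _, fun h1 h2 h3 h4 h5 h6 h7 => (enc_mul (enc_norm (enc_sub (enc_pnc _ 1) (dgrr.enc h1 h2))) (enc_norm ((dgdq p T).enc h1 h2 h3 h6 h7)))⟩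
noncomputable def dgQxBp (p : Pm) (T : Th) : Fn7 := ⟨_, _, fun h1 h2 h3 h4 h5 h6 h7 => (enc_sub (enc_sub (dgEq.enc h1 h2) (enc_half ((dgLq p T).enc h1 h2 h3 h4 h5))) (enc_mul (dgq1.enc h3) (enc_norm (enc_add (enc_sub (enc_mul (enc_norm (enc_sub (enc_pnc _ 1) h3)) (enc_norm ((dgQxBp_12 p T).enc h1 h2 h3 h4 h5 h6 h7))) ((dgomq p T).enc h1 h2 h3 h7)) (enc_mul (enc_norm (enc_mul (enc_norm (enc_mul h3 (dgrr.enc h1 h2))) (enc_norm (enc_mul (enc_norm ((dgQxBp_12 p T).enc h1 h2 h3 h4 h5 h6 h7)) (enc_norm ((dgomq p T).enc h1 h2 h3 h7)))))) (enc_inv (enc_sub (enc_mul (enc_norm ((dgQxBp_12 p T).enc h1 h2 h3 h4 h5 h6 h7)) (dgv.enc h1 h2)) ((dgomq p T).enc h1 h2 h3 h7))))))))⟩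
noncomputable def dgQxBm_13 (p : Pm) (T : Th) : Fn7 := ⟨_, _, fun h1 h2 h3 h4 h5 h6 h7 => (enc_mul (enc_norm (enc_sub (enc_pnc _ 1) (dgrr.enc h1 h2))) (enc_norm ((dgdq p T).enc h1 h2 h3 h6 h7)))⟩
noncomputable def dgQxBm (p : Pm) (T : Th) : Fn7 := ⟨_, _, fun h1 h2 h3 h4 h5 h6 h7 => (enc_sub (enc_sub (dgEq.enc h1 h2) (enc_half ((dgLq p T).enc h1 h2 h3 h4 h5))) (enc_mul (dgq1.enc h3) (enc_norm (enc_sub (enc_sub (enc_neg (enc_mul (enc_norm (enc_sub (enc_pnc _ 1) h3)) (enc_norm ((dgQxBm_13 p T).enc h1 h2 h3 h4 h5 h6 h7)))) ((dgomq p T).enc h1 h2 h3 h7)) (enc_mul (enc_norm (enc_mul (enc_norm (enc_mul h3 (dgrr.enc h1 h2))) (enc_norm (enc_mul (enc_norm ((dgQxBm_13 p T).enc h1 h2 h3 h4 h5 h6 h7)) (enc_norm ((dgomq p T).enc h1 h2 h3 h7)))))) (enc_inv (enc_sub (enc_neg (enc_mul (enc_norm ((dgQxBm_13 p T).enc h1 h2 h3 h4 h5 h6 h7)) (dgw.enc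 h1))) ((dgomq p T).enc h1 h2 h3 h7))))))))⟩
noncomputable def dggk : Fn2 := ⟨_, _, fun h1 h2 => (enc_norm (enc_mul (dgg.enc h1) (enc_inv (enc_nat 2 (dgk.enc h1 h2)))))⟩
noncomputable def dgW0 (q : Pu) : Fn1 := ⟨_, _, fun h1 => (enc_norm (enc_mul ((dgmo q).enc h1) (enc_norm (enc_max (enc_abs (enc_sub ((dgsl1 q).enc h1) ((dgsl2 q).enc h1))) (enc_max (enc_abs (enc_sub ((dgsl1 q).enc h1) ((dgsl3 q).enc h1))) (enc_abs (enc_sub ((dgsl2 q).enc h1) ((dgsl3 q).enc h1))))))))⟩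
noncomputable def dgW1 (q : Pu) (V : Tu) : Fn3 := ⟨_, _, fun h1 h2 h3 => (enc_mul ((dgmo q).enc h3) (enc_norm (enc_max (enc_abs (enc_sub ((dgc11 q).enc h1 h2 h3) ((dgc21 q).enc h1 h2 h3))) (enc_max (enc_abs (enc_sub ((dgc11 q).enc h1 h2 h3) (V.c.enc h1 h2 h3))) (enc_abs (enc_sub ((dgc21 q).enc h1 h2 h3) (V.c.enc h1 h2 h3)))))))⟩
noncomputable def dgWA_8 (q : Pu) (V : Tu) : Fn3 := ⟨_, _, fun h1 h2 h3 => (enc_add (enc_mul h2 ((dgsl1 q).enc h3)) (enc_mul h1 (enc_norm ((dgc11 q).enc h1 h2 h3))))⟩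
noncomputable def dgWA_13 (q : Pu) (V : Tu) : Fn3 := ⟨_, _, fun h1 h2 h3 => (enc_add (enc_mul h2 ((dgsl2 q).enc h3)) (enc_mul h1 (enc_norm ((dgc21 q).enc h1 h2 h3))))⟩
noncomputable def dgWA_18 (q : Pu) (V : Tu) : Fn3 := ⟨_, _, fun h1 h2 h3 => (enc_add (enc_mul h2 ((dgsl3 q).enc h3)) (enc_mul h1 (enc_norm (V.c.enc h1 h2 h3))))⟩
noncomputable def dgWA (q : Pu) (V : Tu) : Fn3 := ⟨_, _, fun h1 h2 h3 => (enc_mul ((dgmo q).enc h3) (enc_norm (enc_max (enc_abs (enc_sub ((dgWA_8 q V).enc h1 h2 h3) ((dgWA_13 q V).enc h1 h2 h3))) (enc_max (enc_abs (enc_sub ((dgWA_8 q V).enc h1 h2 h3) ((dgWA_18 q V).enc h1 h2 h3))) (enc_abs (enc_sub ((dgWA_13 q V).enc h1 h2 h3) ((dgWA_18 q V).enc h1 h2 h3)))))))⟩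
noncomputable def dgWBd (p : Pm) (q : Pu) : Fn3 := ⟨_, _, fun h1 h2 h3 => (enc_mul ((dgmo q).enc h3) (enc_norm (enc_max (enc_abs ((dggC p q).enc h1 h2 h3)) (enc_max (enc_abs ((dgsl3 q).enc h3)) (enc_abs (enc_sub ((dggC p q).enc h1 h2 h3) ((dgsl3 q).enc h3)))))))⟩
noncomputable def dgWB_8 (p : Pm) (q : Pu) (A : Sd) (V : Tu) : Fn3 := ⟨_, _, fun h1 h2 h3 => (enc_add (enc_mul h2 ((dgsl1 q).enc h3)) (enc_mul h1 (enc_norm ((dgc11 q).enc h1 h2 h3))))⟩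
noncomputable def dgWB_17 (p : Pm) (q : Pu) (A : Sd) (V : Tu) : Fn3 := ⟨_, _, fun h1 h2 h3 => (enc_sub (enc_add (enc_mul h2 ((dgsl2 q).enc h3)) (enc_mul h1 (enc_norm ((dgc21 q).enc h1 h2 h3)))) (enc_mul ((dgdB A).enc h1 h2) (enc_norm ((dggC p q).enc h1 h2 h3))))⟩
noncomputable def dgWB_23 (p : Pm) (q : Pu) (A : Sd) (V : Tu) : Fn3 := ⟨_, _, fun h1 h2 h3 => (enc_add (enc_mul (A.ch.enc h1) ((dgsl3 q).enc h3)) (enc_mul h1 (enc_norm (V.c.enc h1 h2 h3))))⟩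
noncomputable def dgWB (p : Pm) (q : Pu) (A : Sd) (V : Tu) : Fn3 := ⟨_, _, fun h1 h2 h3 => (enc_mul ((dgmo q).enc h3) (enc_norm (enc_max (enc_abs (enc_sub ((dgWB_8 p q A V).enc h1 h2 h3) ((dgWB_17 p q A V).enc h1 h2 h3))) (enc_max (enc_abs (enc_sub ((dgWB_8 p q A V).enc h1 h2 h3) ((dgWB_23 p q A V).enc h1 h2 h3))) (enc_abs (enc_sub ((dgWB_17 p q A V).enc h1 h2 h3) ((dgWB_23 p q A V).enc h1 h2 h3)))))))⟩
noncomputable def dgWPd (p : Pm) (q : Pu) : Fn3 := ⟨_, _, fun h1 h2 h3 => (enc_mul ((dgmo q).enc h3) (enc_norm (enc_max (enc_abs ((dggC1 p q).enc h1 h2 h3)) (enc_max (enc_abs ((dgsl3 q).enc h3)) (enc_abs (enc_sub ((dggC1 p q).enc h1 h2 h3) ((dgsl3 q).enc h3)))))))⟩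
noncomputable def dgWP_12 (p : Pm) (q : Pu) (A : Sd) (V : Tu) : Fn3 := ⟨_, _, fun h1 h2 h3 => (enc_add (enc_add (enc_mul h2 ((dgsl1 q).enc h3)) (enc_mul h1 (enc_norm ((dgc11 q).enc h1 h2 h3)))) (enc_mul ((dgdPp A).enc h1 h2) (enc_norm ((dggC1 p q).enc h1 h2 h3))))⟩
noncomputable def dgWP_17 (p : Pm) (q : Pu) (A : Sd) (V : Tu) : Fn3 := ⟨_, _, fun h1 h2 h3 => (enc_add (enc_mul h2 ((dgsl2 q).enc h3)) (enc_mul h1 (enc_norm ((dgc21 q).enc h1 h2 h3))))⟩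
noncomputable def dgWP_23 (p : Pm) (q : Pu) (A : Sd) (V : Tu) : Fn3 := ⟨_, _, fun h1 h2 h3 => (enc_add (enc_mul (A.ch.enc h1) ((dgsl3 q).enc h3)) (enc_mul h1 (enc_norm (V.c.enc h1 h2 h3))))⟩
noncomputable def dgWP (p : Pm) (q : Pu) (A : Sd) (V : Tu) : Fn3 := ⟨_, _, fun h1 h2 h3 => (enc_mul ((dgmo q).enc h3) (enc_norm (enc_max (enc_abs (enc_sub ((dgWP_12 p q A V).enc h1 h2 h3) ((dgWP_17 p q A V).enc h1 h2 h3))) (enc_max (enc_abs (enc_sub ((dgWP_12 p q A V).enc h1 h2 h3) ((dgWP_23 p q A V).enc h1 h2 h3))) (enc_abs (enc_sub ((dgWP_17 p q A V).enc h1 h2 h3) ((dgWP_23 p q A V).enc h1 h2 h3)))))))⟩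
noncomputable def dgUClo (M : NdU) : Fn1 := ⟨_, _, fun h1 => (M.sc.enc (dgxw.enc (dgw.enc h1)))⟩
noncomputable def dgUCrw (p : Pm) (M : NdU) (T : Th) : Fn3 := ⟨_, _, fun h1 h2 h3 => (enc_add (enc_mul ((dgUClo M).enc h1) (M.B.enc h1 h3)) (enc_mul (enc_norm (enc_sub (dgCP.enc h1 h2) ((dgUClo M).enc h1))) ((dgCGr p T).enc h1 h3)))⟩
noncomputable def dgUClw (p : Pm) (M : NdU) (T : Th) : Fn3 := ⟨_, _, fun h1 h2 h3 => (enc_add (enc_mul ((dgUClo M).enc h1) (M.X.enc h1 h3)) (enc_mul (enc_norm (enc_sub (dgCP.enc h1 h2) ((dgUClo M).enc h1))) ((dgCGl p T).enc h1 h3)))⟩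
noncomputable def dgUCR3 (p : Pm) (M : NdU) (T : Th) (C : CvP) : Fn3 := ⟨_, _, fun h1 h2 h3 => (enc_mul h1 (enc_norm (enc_add (enc_mul (dgtg.enc h1) (enc_norm ((dgUCrw p M T).enc h1 h2 h3))) (enc_mul h2 (enc_norm ((dgCrv p T C).enc h1 h2 h3))))))⟩
noncomputable def dgUCdw (p : Pm) (M : NdU) (T : Th) : Fn3 := ⟨_, _, fun h1 h2 h3 => (enc_sub ((dgUCrw p M T).enc h1 h2 h3) ((dgCr1 p).enc h1 h2 h3))⟩
noncomputable def dgUCmw (p : Pm) (M : NdU) (T : Th) : Fn3 := ⟨_, _, fun h1 h2 h3 => (enc_sub ((dgCl1 p).enc h1 h2 h3) ((dgUClw p M T).enc h1 h2 h3))⟩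
noncomputable def dgUCLfwA (p : Pm) (M : NdU) (T : Th) : Fn3 := ⟨_, _, fun h1 h2 h3 => (enc_half ((dgUCmw p M T).enc h1 h2 h3))⟩
noncomputable def dgUCLnwA (p : Pm) (M : NdU) (T : Th) : Fn3 := ⟨_, _, fun h1 h2 h3 => (enc_half (enc_mul (p.mu.enc h3) (enc_norm (enc_sub (enc_mul (p.nx.enc h3) (enc_norm ((dgUCmw p M T).enc h1 h2 h3))) (enc_sub (enc_mul (dgCy1.enc h1 h2) (enc_norm ((dgCl1 p).enc h1 h2 h3))) (enc_mul (dgu.enc h1) (enc_norm ((dgUClw p M T).enc h1 h2 h3))))))))⟩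
noncomputable def dgUCLfwB (p : Pm) (M : NdU) (T : Th) : Fn3 := ⟨_, _, fun h1 h2 h3 => (enc_neg (enc_half ((dgUCmw p M T).enc h1 h2 h3)))⟩
noncomputable def dgUCLnwB (p : Pm) (M : NdU) (T : Th) : Fn3 := ⟨_, _, fun h1 h2 h3 => (enc_half (enc_mul (p.mu.enc h3) (enc_norm (enc_sub (enc_sub (enc_mul (dgCyq.enc h1 h2) (enc_norm ((dgCl1 p).enc h1 h2 h3))) (enc_mul (dgu.enc h1) (enc_norm ((dgUClw p M T).enc h1 h2 h3)))) (enc_mul (p.nx.enc h3) (enc_norm ((dgUCmw p M T).enc h1 h2 h3)))))))⟩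
noncomputable def dgUCFfwApA (p : Pm) (M : NdU) (T : Th) (C : CvP) : Fn3 := ⟨_, _, fun h1 h2 h3 => (enc_sub (enc_add (dgCew.enc h1 h2) ((dgUCLfwA p M T).enc h1 h2 h3)) (enc_mul (dgp.enc h3) (enc_norm (enc_add ((dgCR2 p C).enc h1 h2 h3) (enc_mul (enc_norm ((dgUCdw p M T).enc h1 h2 h3)) (enc_norm (dgCWpA.enc h1 h2 h3)))))))⟩
noncomputable def dgUCFfvApA (p : Pm) (M : NdU) (T : Th) (C : CvP) : Fn3 := ⟨_, _, fun h1 h2 h3 => (enc_sub (enc_add ((dgCev C).enc h1 h2) ((dgCLfvA p T C).enc h1 h2 h3)) (enc_mul (dgp.enc h3) (enc_norm (enc_add ((dgUCR3 p M T C).enc h1 h2 h3) (enc_mul (enc_norm ((dgCdv p T C).enc h1 h2 h3)) (enc_norm (dgCWpA.enc h1 h2 h3)))))))⟩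
noncomputable def dgUCSfApA (p : Pm) (M : NdU) (T : Th) (C : CvP) : Fn3 := ⟨_, _, fun h1 h2 h3 => (enc_add (enc_mul (dgtg.enc h1) (enc_norm ((dgUCFfwApA p M T C).enc h1 h2 h3))) (enc_mul h2 (enc_norm ((dgUCFfvApA p M T C).enc h1 h2 h3))))⟩
noncomputable def dgUCFnwApA (p : Pm) (M : NdU) (T : Th) (C : CvP) : Fn3 := ⟨_, _, fun h1 h2 h3 => (enc_sub (enc_add (dgCew.enc h1 h2) ((dgUCLnwA p M T).enc h1 h2 h3)) (enc_mul (dgp.enc h3) (enc_norm (enc_add ((dgCR2 p C).enc h1 h2 h3) (enc_mul (enc_norm ((dgUCdw p M T).enc h1 h2 h3)) (enc_norm (dgCWpA.enc h1 h2 h3)))))))⟩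
noncomputable def dgUCFnvApA (p : Pm) (M : NdU) (T : Th) (C : CvP) : Fn3 := ⟨_, _, fun h1 h2 h3 => (enc_sub (enc_add ((dgCev C).enc h1 h2) ((dgCLnvA p T C).enc h1 h2 h3)) (enc_mul (dgp.enc h3) (enc_norm (enc_add ((dgUCR3 p M T C).enc h1 h2 h3) (enc_mul (enc_norm ((dgCdv p T C).enc h1 h2 h3)) (enc_norm (dgCWpA.enc h1 h2 h3)))))))⟩
noncomputable def dgUCSnApA (p : Pm) (M : NdU) (T : Th) (C : CvP) : Fn3 := ⟨_, _, fun h1 h2 h3 => (enc_add (enc_mul (dgtg.enc h1) (enc_norm ((dgUCFnwApA p M T C).enc h1 h2 h3))) (enc_mul h2 (enc_norm ((dgUCFnvApA p M T C).enc h1 h2 h3))))⟩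
noncomputable def dgUCFfwApB (p : Pm) (M : NdU) (T : Th) (C : CvP) : Fn3 := ⟨_, _, fun h1 h2 h3 => (enc_sub (enc_add (dgCew.enc h1 h2) ((dgUCLfwA p M T).enc h1 h2 h3)) (enc_mul (dgq1.enc h3) (enc_norm (enc_sub (enc_mul (enc_norm ((dgUCdw p M T).enc h1 h2 h3)) (enc_norm (dgCWpB.enc h1 h2 h3))) ((dgCR2 p C).enc h1 h2 h3)))))⟩
noncomputable def dgUCFfvApB (p : Pm) (M : NdU) (T : Th) (C : CvP) : Fn3 := ⟨_, _, fun h1 h2 h3 => (enc_sub (enc_add ((dgCev C).enc h1 h2) ((dgCLfvA p T C).enc h1 h2 h3)) (enc_mul (dgq1.enc h3) (enc_norm (enc_sub (enc_mul (enc_norm ((dgCdv p T C).enc h1 h2 h3)) (enc_norm (dgCWpB.enc h1 h2 h3))) ((dgUCR3 p M T C).enc h1 h2 h3)))))⟩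
noncomputable def dgUCSfApB (p : Pm) (M : NdU) (T : Th) (C : CvP) : Fn3 := ⟨_, _, fun h1 h2 h3 => (enc_add (enc_mul (dgtg.enc h1) (enc_norm ((dgUCFfwApB p M T C).enc h1 h2 h3))) (enc_mul h2 (enc_norm ((dgUCFfvApB p M T C).enc h1 h2 h3))))⟩
noncomputable def dgUCFnwApB (p : Pm) (M : NdU) (T : Th) (C : CvP) : Fn3 := ⟨_, _, fun h1 h2 h3 => (enc_sub (enc_add (dgCew.enc h1 h2) ((dgUCLnwA p M T).enc h1 h2 h3)) (enc_mul (dgq1.enc h3) (enc_norm (enc_sub (enc_mul (enc_norm ((dgUCdw p M T).enc h1 h2 h3)) (enc_norm (dgCWpB.enc h1 h2 h3))) ((dgCR2 p C).enc h1 h2 h3)))))⟩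
noncomputable def dgUCFnvApB (p : Pm) (M : NdU) (T : Th) (C : CvP) : Fn3 := ⟨_, _, fun h1 h2 h3 => (enc_sub (enc_add ((dgCev C).enc h1 h2) ((dgCLnvA p T C).enc h1 h2 h3)) (enc_mul (dgq1.enc h3) (enc_norm (enc_sub (enc_mul (enc_norm ((dgCdv p T C).enc h1 h2 h3)) (enc_norm (dgCWpB.enc h1 h2 h3))) ((dgUCR3 p M T C).enc h1 h2 h3)))))⟩
noncomputable def dgUCSnApB (p : Pm) (M : NdU) (T : Th) (C : CvP) : Fn3 := ⟨_, _, fun h1 h2 h3 => (enc_add (enc_mul (dgtg.enc h1) (enc_norm ((dgUCFnwApB p M T C).enc h1 h2 h3))) (enc_mul h2 (enc_norm ((dgUCFnvApB p M T C).enc h1 h2 h3))))⟩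
noncomputable def dgUCFfwAmA (p : Pm) (M : NdU) (T : Th) (C : CvP) : Fn3 := ⟨_, _, fun h1 h2 h3 => (enc_sub (enc_add (dgCew.enc h1 h2) ((dgUCLfwA p M T).enc h1 h2 h3)) (enc_mul (dgp.enc h3) (enc_norm (enc_sub ((dgCR2 p C).enc h1 h2 h3) (enc_mul (enc_norm ((dgUCdw p M T).enc h1 h2 h3)) (enc_norm (dgCWmA.enc h1 h2 h3)))))))⟩
noncomputable def dgUCFfvAmA (p : Pm) (M : NdU) (T : Th) (C : CvP) : Fn3 := ⟨_, _, fun h1 h2 h3 => (enc_sub (enc_add ((dgCev C).enc h1 h2) ((dgCLfvA p T C).enc h1 h2 h3)) (enc_mul (dgp.enc h3) (enc_norm (enc_sub ((dgUCR3 p M T C).enc h1 h2 h3) (enc_mul (enc_norm ((dgCdv p T C).enc h1 h2 h3)) (enc_norm (dgCWmA.enc h1 h2 h3)))))))⟩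
noncomputable def dgUCSfAmA (p : Pm) (M : NdU) (T : Th) (C : CvP) : Fn3 := ⟨_, _, fun h1 h2 h3 => (enc_add (enc_mul (dgtg.enc h1) (enc_norm ((dgUCFfwAmA p M T C).enc h1 h2 h3))) (enc_mul h2 (enc_norm ((dgUCFfvAmA p M T C).enc h1 h2 h3))))⟩
noncomputable def dgUCFnwAmA (p : Pm) (M : NdU) (T : Th) (C : CvP) : Fn3 := ⟨_, _, fun h1 h2 h3 => (enc_sub (enc_add (dgCew.enc h1 h2) ((dgUCLnwA p M T).enc h1 h2 h3)) (enc_mul (dgp.enc h3) (enc_norm (enc_sub ((dgCR2 p C).enc h1 h2 h3) (enc_mul (enc_norm ((dgUCdw p M T).enc h1 h2 h3)) (enc_norm (dgCWmA.enc h1 h2 h3)))))))⟩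
noncomputable def dgUCFnvAmA (p : Pm) (M : NdU) (T : Th) (C : CvP) : Fn3 := ⟨_, _, fun h1 h2 h3 => (enc_sub (enc_add ((dgCev C).enc h1 h2) ((dgCLnvA p T C).enc h1 h2 h3)) (enc_mul (dgp.enc h3) (enc_norm (enc_sub ((dgUCR3 p M T C).enc h1 h2 h3) (enc_mul (enc_norm ((dgCdv p T C).enc h1 h2 h3)) (enc_norm (dgCWmA.enc h1 h2 h3)))))))⟩
noncomputable def dgUCSnAmA (p : Pm) (M : NdU) (T : Th) (C : CvP) : Fn3 := ⟨_, _, fun h1 h2 h3 => (enc_add (enc_mul (dgtg.enc h1) (enc_norm ((dgUCFnwAmA p M T C).enc h1 h2 h3))) (enc_mul h2 (enc_norm ((dgUCFnvAmA p M T C).enc h1 h2 h3))))⟩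
noncomputable def dgUCFfwAmB (p : Pm) (M : NdU) (T : Th) (C : CvP) : Fn3 := ⟨_, _, fun h1 h2 h3 => (enc_sub (enc_add (dgCew.enc h1 h2) ((dgUCLfwA p M T).enc h1 h2 h3)) (enc_mul (dgq1.enc h3) (enc_norm (enc_sub (enc_neg ((dgCR2 p C).enc h1 h2 h3)) (enc_mul (enc_norm ((dgUCdw p M T).enc h1 h2 h3)) (enc_norm (dgCWmB.enc h1 h2 h3)))))))⟩
noncomputable def dgUCFfvAmB (p : Pm) (M : NdU) (T : Th) (C : CvP) : Fn3 := ⟨_, _, fun h1 h2 h3 => (enc_sub (enc_add ((dgCev C).enc h1 h2) ((dgCLfvA p T C).enc h1 h2 h3)) (enc_mul (dgq1.enc h3) (enc_norm (enc_sub (enc_neg ((dgUCR3 p M T C).enc h1 h2 h3)) (enc_mul (enc_norm ((dgCdv p T C).enc h1 h2 h3)) (enc_norm (dgCWmB.enc h1 h2 h3)))))))⟩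
noncomputable def dgUCSfAmB (p : Pm) (M : NdU) (T : Th) (C : CvP) : Fn3 := ⟨_, _, fun h1 h2 h3 => (enc_add (enc_mul (dgtg.enc h1) (enc_norm ((dgUCFfwAmB p M T C).enc h1 h2 h3))) (enc_mul h2 (enc_norm ((dgUCFfvAmB p M T C).enc h1 h2 h3))))⟩
noncomputable def dgUCFnwAmB (p : Pm) (M : NdU) (T : Th) (C : CvP) : Fn3 := ⟨_, _, fun h1 h2 h3 => (enc_sub (enc_add (dgCew.enc h1 h2) ((dgUCLnwA p M T).enc h1 h2 h3)) (enc_mul (dgq1.enc h3) (enc_norm (enc_sub (enc_neg ((dgCR2 p C).enc h1 h2 h3)) (enc_mul (enc_norm ((dgUCdw p M T).enc h1 h2 h3)) (enc_norm (dgCWmB.enc h1 h2 h3)))))))⟩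
noncomputable def dgUCFnvAmB (p : Pm) (M : NdU) (T : Th) (C : CvP) : Fn3 := ⟨_, _, fun h1 h2 h3 => (enc_sub (enc_add ((dgCev C).enc h1 h2) ((dgCLnvA p T C).enc h1 h2 h3)) (enc_mul (dgq1.enc h3) (enc_norm (enc_sub (enc_neg ((dgUCR3 p M T C).enc h1 h2 h3)) (enc_mul (enc_norm ((dgCdv p T C).enc h1 h2 h3)) (enc_norm (dgCWmB.enc h1 h2 h3)))))))⟩
noncomputable def dgUCSnAmB (p : Pm) (M : NdU) (T : Th) (C : CvP) : Fn3 := ⟨_, _, fun h1 h2 h3 => (enc_add (enc_mul (dgtg.enc h1) (enc_norm ((dgUCFnwAmB p M T C).enc h1 h2 h3))) (enc_mul h2 (enc_norm ((dgUCFnvAmB p M T C).enc h1 h2 h3))))⟩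
noncomputable def dgUCFfwBpA (p : Pm) (M : NdU) (T : Th) (C : CvP) : Fn3 := ⟨_, _, fun h1 h2 h3 => (enc_sub (enc_add (dgCew.enc h1 h2) ((dgUCLfwB p M T).enc h1 h2 h3)) (enc_mul (dgp.enc h3) (enc_norm (enc_add ((dgCR2 p C).enc h1 h2 h3) (enc_mul (enc_norm ((dgUCdw p M T).enc h1 h2 h3)) (enc_norm (dgCWpA.enc h1 h2 h3)))))))⟩
noncomputable def dgUCFfvBpA (p : Pm) (M : NdU) (T : Th) (C : CvP) : Fn3 := ⟨_, _, fun h1 h2 h3 => (enc_sub (enc_add ((dgCev C).enc h1 h2) ((dgCLfvB p T C).enc h1 h2 h3)) (enc_mul (dgp.enc h3) (enc_norm (enc_add ((dgUCR3 p M T C).enc h1 h2 h3) (enc_mul (enc_norm ((dgCdv p T C).enc h1 h2 h3)) (enc_norm (dgCWpA.enc h1 h2 h3)))))))⟩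
noncomputable def dgUCSfBpA (p : Pm) (M : NdU) (T : Th) (C : CvP) : Fn3 := ⟨_, _, fun h1 h2 h3 => (enc_add (enc_mul (dgtg.enc h1) (enc_norm ((dgUCFfwBpA p M T C).enc h1 h2 h3))) (enc_mul h2 (enc_norm ((dgUCFfvBpA p M T C).enc h1 h2 h3))))⟩
noncomputable def dgUCFnwBpA (p : Pm) (M : NdU) (T : Th) (C : CvP) : Fn3 := ⟨_, _, fun h1 h2 h3 => (enc_sub (enc_add (dgCew.enc h1 h2) ((dgUCLnwB p M T).enc h1 h2 h3)) (enc_mul (dgp.enc h3) (enc_norm (enc_add ((dgCR2 p C).enc h1 h2 h3) (enc_mul (enc_norm ((dgUCdw p M T).enc h1 h2 h3)) (enc_norm (dgCWpA.enc h1 h2 h3)))))))⟩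
noncomputable def dgUCFnvBpA (p : Pm) (M : NdU) (T : Th) (C : CvP) : Fn3 := ⟨_, _, fun h1 h2 h3 => (enc_sub (enc_add ((dgCev C).enc h1 h2) ((dgCLnvB p T C).enc h1 h2 h3)) (enc_mul (dgp.enc h3) (enc_norm (enc_add ((dgUCR3 p M T C).enc h1 h2 h3) (enc_mul (enc_norm ((dgCdv p T C).enc h1 h2 h3)) (enc_norm (dgCWpA.enc h1 h2 h3)))))))⟩
noncomputable def dgUCSnBpA (p : Pm) (M : NdU) (T : Th) (C : CvP) : Fn3 := ⟨_, _, fun h1 h2 h3 => (enc_add (enc_mul (dgtg.enc h1) (enc_norm ((dgUCFnwBpA p M T C).enc h1 h2 h3))) (enc_mul h2 (enc_norm ((dgUCFnvBpA p M T C).enc h1 h2 h3))))⟩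
noncomputable def dgUCFfwBpB (p : Pm) (M : NdU) (T : Th) (C : CvP) : Fn3 := ⟨_, _, fun h1 h2 h3 => (enc_sub (enc_add (dgCew.enc h1 h2) ((dgUCLfwB p M T).enc h1 h2 h3)) (enc_mul (dgq1.enc h3) (enc_norm (enc_sub (enc_mul (enc_norm ((dgUCdw p M T).enc h1 h2 h3)) (enc_norm (dgCWpB.enc h1 h2 h3))) ((dgCR2 p C).enc h1 h2 h3)))))⟩
noncomputable def dgUCFfvBpB (p : Pm) (M : NdU) (T : Th) (C : CvP) : Fn3 := ⟨_, _, fun h1 h2 h3 => (enc_sub (enc_add ((dgCev C).enc h1 h2) ((dgCLfvB p T C).enc h1 h2 h3)) (enc_mul (dgq1.enc h3) (enc_norm (enc_sub (enc_mul (enc_norm ((dgCdv p T C).enc h1 h2 h3)) (enc_norm (dgCWpB.enc h1 h2 h3))) ((dgUCR3 p M T C).enc h1 h2 h3)))))⟩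
noncomputable def dgUCSfBpB (p : Pm) (M : NdU) (T : Th) (C : CvP) : Fn3 := ⟨_, _, fun h1 h2 h3 => (enc_add (enc_mul (dgtg.enc h1) (enc_norm ((dgUCFfwBpB p M T C).enc h1 h2 h3))) (enc_mul h2 (enc_norm ((dgUCFfvBpB p M T C).enc h1 h2 h3))))⟩
noncomputable def dgUCFnwBpB (p : Pm) (M : NdU) (T : Th) (C : CvP) : Fn3 := ⟨_, _, fun h1 h2 h3 => (enc_sub (enc_add (dgCew.enc h1 h2) ((dgUCLnwB p M T).enc h1 h2 h3)) (enc_mul (dgq1.enc h3) (enc_norm (enc_sub (enc_mul (enc_norm ((dgUCdw p M T).enc h1 h2 h3)) (enc_norm (dgCWpB.enc h1 h2 h3))) ((dgCR2 p C).enc h1 h2 h3)))))⟩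
noncomputable def dgUCFnvBpB (p : Pm) (M : NdU) (T : Th) (C : CvP) : Fn3 := ⟨_, _, fun h1 h2 h3 => (enc_sub (enc_add ((dgCev C).enc h1 h2) ((dgCLnvB p T C).enc h1 h2 h3)) (enc_mul (dgq1.enc h3) (enc_norm (enc_sub (enc_mul (enc_norm ((dgCdv p T C).enc h1 h2 h3)) (enc_norm (dgCWpB.enc h1 h2 h3))) ((dgUCR3 p M T C).enc h1 h2 h3)))))⟩
noncomputable def dgUCSnBpB (p : Pm) (M : NdU) (T : Th) (C : CvP) : Fn3 := ⟨_, _, fun h1 h2 h3 => (enc_add (enc_mul (dgtg.enc h1) (enc_norm ((dgUCFnwBpB p M T C).enc h1 h2 h3))) (enc_mul h2 (enc_norm ((dgUCFnvBpB p M T C).enc h1 h2 h3))))⟩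
noncomputable def dgUCFfwBmA (p : Pm) (M : NdU) (T : Th) (C : CvP) : Fn3 := ⟨_, _, fun h1 h2 h3 => (enc_sub (enc_add (dgCew.enc h1 h2) ((dgUCLfwB p M T).enc h1 h2 h3)) (enc_mul (dgp.enc h3) (enc_norm (enc_sub ((dgCR2 p C).enc h1 h2 h3) (enc_mul (enc_norm ((dgUCdw p M T).enc h1 h2 h3)) (enc_norm (dgCWmA.enc h1 h2 h3)))))))⟩
noncomputable def dgUCFfvBmA (p : Pm) (M : NdU) (T : Th) (C : CvP) : Fn3 := ⟨_, _, fun h1 h2 h3 => (enc_sub (enc_add ((dgCev C).enc h1 h2) ((dgCLfvB p T C).enc h1 h2 h3)) (enc_mul (dgp.enc h3) (enc_norm (enc_sub ((dgUCR3 p M T C).enc h1 h2 h3) (enc_mul (enc_norm ((dgCdv p T C).enc h1 h2 h3)) (enc_norm (dgCWmA.enc h1 h2 h3)))))))⟩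
noncomputable def dgUCSfBmA (p : Pm) (M : NdU) (T : Th) (C : CvP) : Fn3 := ⟨_, _, fun h1 h2 h3 => (enc_add (enc_mul (dgtg.enc h1) (enc_norm ((dgUCFfwBmA p M T C).enc h1 h2 h3))) (enc_mul h2 (enc_norm ((dgUCFfvBmA p M T C).enc h1 h2 h3))))⟩
noncomputable def dgUCFnwBmA (p : Pm) (M : NdU) (T : Th) (C : CvP) : Fn3 := ⟨_, _, fun h1 h2 h3 => (enc_sub (enc_add (dgCew.enc h1 h2) ((dgUCLnwB p M T).enc h1 h2 h3)) (enc_mul (dgp.enc h3) (enc_norm (enc_sub ((dgCR2 p C).enc h1 h2 h3) (enc_mul (enc_norm ((dgUCdw p M T).enc h1 h2 h3)) (enc_norm (dgCWmA.enc h1 h2 h3)))))))⟩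
noncomputable def dgUCFnvBmA (p : Pm) (M : NdU) (T : Th) (C : CvP) : Fn3 := ⟨_, _, fun h1 h2 h3 => (enc_sub (enc_add ((dgCev C).enc h1 h2) ((dgCLnvB p T C).enc h1 h2 h3)) (enc_mul (dgp.enc h3) (enc_norm (enc_sub ((dgUCR3 p M T C).enc h1 h2 h3) (enc_mul (enc_norm ((dgCdv p T C).enc h1 h2 h3)) (enc_norm (dgCWmA.enc h1 h2 h3)))))))⟩
noncomputable def dgUCSnBmA (p : Pm) (M : NdU) (T : Th) (C : CvP) : Fn3 := ⟨_, _, fun h1 h2 h3 => (enc_add (enc_mul (dgtg.enc h1) (enc_norm ((dgUCFnwBmA p M T C).enc h1 h2 h3))) (enc_mul h2 (enc_norm ((dgUCFnvBmA p M T C).enc h1 h2 h3))))⟩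
noncomputable def dgUCFfwBmB (p : Pm) (M : NdU) (T : Th) (C : CvP) : Fn3 := ⟨_, _, fun h1 h2 h3 => (enc_sub (enc_add (dgCew.enc h1 h2) ((dgUCLfwB p M T).enc h1 h2 h3)) (enc_mul (dgq1.enc h3) (enc_norm (enc_sub (enc_neg ((dgCR2 p C).enc h1 h2 h3)) (enc_mul (enc_norm ((dgUCdw p M T).enc h1 h2 h3)) (enc_norm (dgCWmB.enc h1 h2 h3)))))))⟩
noncomputable def dgUCFfvBmB (p : Pm) (M : NdU) (T : Th) (C : CvP) : Fn3 := ⟨_, _, fun h1 h2 h3 => (enc_sub (enc_add ((dgCev C).enc h1 h2) ((dgCLfvB p T C).enc h1 h2 h3)) (enc_mul (dgq1.enc h3) (enc_norm (enc_sub (enc_neg ((dgUCR3 p M T C).enc h1 h2 h3)) (enc_mul (enc_norm ((dgCdv p T C).enc h1 h2 h3)) (enc_norm (dgCWmB.enc h1 h2 h3)))))))⟩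
noncomputable def dgUCSfBmB (p : Pm) (M : NdU) (T : Th) (C : CvP) : Fn3 := ⟨_, _, fun h1 h2 h3 => (enc_add (enc_mul (dgtg.enc h1) (enc_norm ((dgUCFfwBmB p M T C).enc h1 h2 h3))) (enc_mul h2 (enc_norm ((dgUCFfvBmB p M T C).enc h1 h2 h3))))⟩
noncomputable def dgUCFnwBmB (p : Pm) (M : NdU) (T : Th) (C : CvP) : Fn3 := ⟨_, _, fun h1 h2 h3 => (enc_sub (enc_add (dgCew.enc h1 h2) ((dgUCLnwB p M T).enc h1 h2 h3)) (enc_mul (dgq1.enc h3) (enc_norm (enc_sub (enc_neg ((dgCR2 p C).enc h1 h2 h3)) (enc_mul (enc_norm ((dgUCdw p M T).enc h1 h2 h3)) (enc_norm (dgCWmB.enc h1 h2 h3)))))))⟩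
noncomputable def dgUCFnvBmB (p : Pm) (M : NdU) (T : Th) (C : CvP) : Fn3 := ⟨_, _, fun h1 h2 h3 => (enc_sub (enc_add ((dgCev C).enc h1 h2) ((dgCLnvB p T C).enc h1 h2 h3)) (enc_mul (dgq1.enc h3) (enc_norm (enc_sub (enc_neg ((dgUCR3 p M T C).enc h1 h2 h3)) (enc_mul (enc_norm ((dgCdv p T C).enc h1 h2 h3)) (enc_norm (dgCWmB.enc h1 h2 h3)))))))⟩
noncomputable def dgUCSnBmB (p : Pm) (M : NdU) (T : Th) (C : CvP) : Fn3 := ⟨_, _, fun h1 h2 h3 => (enc_add (enc_mul (dgtg.enc h1) (enc_norm ((dgUCFnwBmB p M T C).enc h1 h2 h3))) (enc_mul h2 (enc_norm ((dgUCFnvBmB p M T C).enc h1 h2 h3))))⟩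
noncomputable def dgCc1 (q : Pu) : Fn3 := ⟨_, _, fun h1 h2 h3 => (enc_add (enc_mul (q.s1.enc h3) (dgCe.enc h1 h2)) ((sfn q.l1).enc (dgCh.enc h1 h2) (dgCs.enc h1 h2) h3))⟩
noncomputable def dgCC2 (C : CvP) (K : Fn2) : Fn3 := ⟨_, _, fun h1 h2 h3 => (enc_neg (enc_mul ((dgCX2 C).enc h1 h2) (K.enc (dgCv.enc h1 h2) h3)))⟩
noncomputable def dgCGc (q : Pu) (V : Tu) : Fn2 := ⟨_, _, fun h1 h2 => (enc_norm (enc_add ((dgsl3 q).enc h2) (enc_mul h1 (V.gc.enc h1 h2))))⟩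
noncomputable def dgCcw (q : Pu) (M : NdU) (V : Tu) : Fn3 := ⟨_, _, fun h1 h2 h3 => (enc_add (enc_mul ((dgUClo M).enc h1) (M.D.enc h1 h3)) (enc_mul (enc_norm (enc_sub (dgCP.enc h1 h2) ((dgUClo M).enc h1))) ((dgCGc q V).enc h1 h3)))⟩
noncomputable def dgCcv (q : Pu) (V : Tu) (C : CvP) : Fn3 := ⟨_, _, fun h1 h2 h3 => (enc_mul ((dgCz C).enc h1 h2) ((dgCGc q V).enc h1 h3))⟩
noncomputable def dgWCw (q : Pu) (M : NdU) (V : Tu) : Fn3 := ⟨_, _, fun h1 h2 h3 => (enc_mul ((dgmo q).enc h3) (enc_norm (enc_max (enc_abs ((dgCc1 q).enc h1 h2 h3)) (enc_max (enc_abs ((dgCcw q M V).enc h1 h2 h3)) (enc_abs (enc_sub ((dgCc1 q).enc h1 h2 h3) ((dgCcw q M V).enc h1 h2 h3)))))))⟩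
noncomputable def dgWCv (q : Pu) (V : Tu) (C : CvP) (K : Fn2) : Fn3 := ⟨_, _, fun h1 h2 h3 => (enc_mul ((dgmo q).enc h3) (enc_norm (enc_max (enc_abs (enc_sub ((dgCc1 q).enc h1 h2 h3) ((dgCC2 C K).enc h1 h2 h3))) (enc_max (enc_abs (enc_sub ((dgCc1 q).enc h1 h2 h3) ((dgCcv q V C).enc h1 h2 h3))) (enc_abs (enc_sub ((dgCC2 C K).enc h1 h2 h3) ((dgCcv q V C).enc h1 h2 h3)))))))⟩
noncomputable def dgWC_7 (q : Pu) (M : NdU) (V : Tu) (C : CvP) (K : Fn2) : Fn3 := ⟨_, _, fun h1 h2 h3 => (enc_mul (enc_norm (enc_add (dgtg.enc h1) h2)) (enc_norm ((dgCc1 q).enc h1 h2 h3)))⟩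
noncomputable def dgWC_9 (q : Pu) (M : NdU) (V : Tu) (C : CvP) (K : Fn2) : Fn3 := ⟨_, _, fun h1 h2 h3 => (enc_mul h2 (enc_norm ((dgCC2 C K).enc h1 h2 h3)))⟩
noncomputable def dgWC_14 (q : Pu) (M : NdU) (V : Tu) (C : CvP) (K : Fn2) : Fn3 := ⟨_, _, fun h1 h2 h3 => (enc_add (enc_mul (dgtg.enc h1) (enc_norm ((dgCcw q M V).enc h1 h2 h3))) (enc_mul h2 (enc_norm ((dgCcv q V C).enc h1 h2 h3))))⟩
noncomputable def dgWC (q : Pu) (M : NdU) (V : Tu) (C : CvP) (K : Fn2) : Fn3 := ⟨_, _, fun h1 h2 h3 => (enc_mul ((dgmo q).enc h3) (enc_norm (enc_max (enc_abs (enc_sub ((dgWC_7 q M V C K).enc h1 h2 h3) ((dgWC_9 q M V C K).enc h1 h2 h3))) (enc_max (enc_abs (enc_sub ((dgWC_7 q M V C K).enc h1 h2 h3) ((dgWC_14 q M V C K).enc h1 h2 h3))) (enc_abs (enc_sub ((dgWC_9 q M V C K).enc h1 h2 h3) ((dgWC_14 q M V C K).enc h1 h2 h3)))))))⟩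

noncomputable def ndUL (p : Pm) (M : NdU) : Sd := ⟨dgULc M, dgULr p M, dgULl p M⟩
noncomputable def ndUR (M : NdU) : Sd := ⟨dgURc M, dgURr M, dgURl M⟩
noncomputable def suL (q : Pu) (M : NdU) : Su := ⟨dgULd q M⟩
noncomputable def suR (M : NdU) : Su := ⟨dgURd M⟩
noncomputable def suC (q : Pu) : Su := ⟨dgc3c q⟩
noncomputable def tuLo (A B : Sd) (G H : Su) : Tu := ⟨dgTld A B G H, dgtd A B G H⟩
noncomputable def tuUp (A B : Sd) (G H : Su) : Tu := ⟨dgTud A B G H, dgtd A B G H⟩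
noncomputable def tuN (G : Su) : Tu := ⟨dgTnd G, dgz2⟩

end Pool.Agent.Strip051.PB.Dg
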