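import Pool.Agent.Strip051.PB.DgL
import Pool.Agent.Strip051.PB.DgU
import Pool.Agent.Strip051.PB.C12V

/-! # The third kernel in the charts at the corner `(1, 1, 2)` -/

set_option linter.unusedSimpArgs false

namespace Pool.Agent.Strip051.PB.Dg

open Pool.Agent.Strip051.PB
open Pool.Agent.StripNear Pool.Agent.StripSquare Pool.Agent.Strip051.Sweep
open Pool.Agent.Strip051.LC

/-! ### The width of three values -/

theorem wdR_add (a b c a' b' c' : ℝ) :
    wdR (a + a') (b + b') (c + c') ≤ wdR a b c + wdR a' b' c' := by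
  unfold wdR
  have e1 : |a + a' - (b + b')| ≤ |a - b| + |a' - b'| := by
    rw [show a + a' - (b + b') = (a - b) + (a' - b') by ring]
    exact abs_add_le _ _
  have e2 : |a + a' - (c + c')| ≤ |a - c| + |a' - c'| := by
    rw [show a + a' - (c + c') = (a - c) + (a' - c') by ring]
    exact abs_add_le _ _
  have e3 : |b + b' - (c + c')| ≤ |b - c| + |b' - c'| := by
    rw [show b + b' - (c + c') = (b - c) + (b' - c') by ring]
    exact abs_add_le _ _
  refine max_le ?_ (max_le ?_ ?_)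
  · exact e1.trans (add_le_add (le_max_left _ _) (le_max_left _ _))
  · exact e2.trans (add_le_add ((le_max_left _ _).trans (le_max_right _ _))
      ((le_max_left _ _).trans (le_max_right _ _)))
  · exact e3.trans (add_le_add ((le_max_right _ _).trans (le_max_right _ _))
      ((le_max_right _ _).trans (le_max_right _ _)))

theorem wdR_nn (a b c : ℝ) : 0 ≤ wdR a b c := (abs_nonneg _).trans (le_max_left _ _)

theorem wdR_rev (a b c : ℝ) : wdR (-b) (-a) (-c) = wdR a b c := by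
  unfold wdR
  rw [show -b - -a = a - b by ring, show -b - -c = -(b - c) by ring,
    show -a - -c = -(a - c) by ring, abs_neg, abs_neg, max_comm |b - c|]

theorem wdR_B (g s : ℝ) : wdR 0 (-g) (-s) = max |g| (max |s| |g - s|) := by
  unfold wdR
  rw [show (0 : ℝ) - -g = g by ring, show (0 : ℝ) - -s = s by ring,
    show -g - -s = -(g - s) by ring, abs_neg]

theorem wdR_P (g s : ℝ) : wdR g 0 s = max |g| (max |s| |g - s|) := by
  unfold wdR
  rw [show g - (0 : ℝ) = g by ring, show (0 : ℝ) - s = -s by ring, abs_neg, max_comm |g - s|]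

/-! ### The kernel with its factor -/

/-- the kernel with its factor -/
def scK {n : ℕ} (e : ℝ) (RK : Fin (n + 1) → ℕ → ℝ → ℝ → ℝ) : Fin (n + 1) → ℕ → ℝ → ℝ → ℝ :=
  fun j q y x => e * RK j q y x

theorem lin_sc {a b v w z T e : ℝ} (h : Lin a b v w z T) : Lin a b (e * v) (e * w) z (e * T) := by
  unfold Lin at *
  rw [h]
  ring

/-! ### Rows -/

theorem Dat.conW {D : Dat} {mo E X12 X13 R1 R2 R3 C1 C2 C3 : ℝ} (hf : D.far = false)
    (O : D.Ok (ken D.x)) (he : 0 < E)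
    (hE : D.ex = exn' X12 X13 D.y (D.y + D.y')) (e1 : D.R1 = E * R1) (e2 : D.R2 = E * R2)
    (e3 : D.R3 = E * R3) (H : ∀ lv sg bd, mo * wdR C1 C2 C3 ≤ D.t * D.F lv sg bd) :
    Con12W D.N0 E mo .npn D.y D.y' D.x X12 X13 R1 R2 R3 D.L1 D.L2 D.L3 C1 C2 C3 := by
  obtain ⟨γ, hγ⟩ := Dat.rowW O he e1 e2 e3 H
  refine ⟨γ, ?_⟩
  have u1 : D.y - 1 = -(D.t * D.st) := by unfold Dat.y; ring
  have u2 : D.y' - 1 = D.t * D.vt := by unfold Dat.y'; ring
  have u3 : D.y + D.y' - 2 = -(D.t ^ 2 * D.g) := by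
    have := O.hst
    unfold Dat.y Dat.y'
    linear_combination -D.t * this
  have u4 : levW D.N0 E mo D.x D.y D.y' (exn' X12 X13 D.y (D.y + D.y')) D.L1 D.L2 D.L3 C1 C2 C3 =
      (lvR D.far D.N0 D.x D.y D.y' D.ex D.L1 D.L2 D.L3 - mo * wdR C1 C2 C3) / E := by
    rw [hf, hE]
    rfl
  rw [u4, u1, u2, u3]
  exact hγ

theorem Dat.conW' {D : Dat} {mo E X12 X13 R1 R2 R3 C1 C2 C3 : ℝ} (hf : D.far = false)
    (O : D.Ok (ken D.x)) (he : 0 < E)
    (hE : D.ex = exn' X12 X13 D.y' (D.y' + D.y)) (e1 : D.R1 = E * R1) (e2 : D.R2 = E * R2)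
    (e3 : D.R3 = E * R3) (H : ∀ lv sg bd, mo * wdR C1 C2 C3 ≤ D.t * D.F lv sg bd) :
    Con12W D.N0 E mo .pnn D.y' D.y D.x X12 X13 (-R2) (-R1) (-R3) (-D.L2) (-D.L1) (-D.L3)
      (-C2) (-C1) (-C3) := by
  obtain ⟨γ, hγ⟩ := Dat.rowW' O he e1 e2 e3 H
  refine ⟨γ, ?_⟩
  have u1 : D.y - 1 = -(D.t * D.st) := by unfold Dat.y; ring
  have u2 : D.y' - 1 = D.t * D.vt := by unfold Dat.y'; ring
  have u3 : D.y' + D.y - 2 = -(D.t ^ 2 * D.g) := by
    have := O.hst
    unfold Dat.y Dat.y'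
    linear_combination -D.t * this
  have u4 : levW D.N0 E mo D.x D.y' D.y (exn' X12 X13 D.y' (D.y' + D.y)) (-D.L2) (-D.L1) (-D.L3)
      (-C2) (-C1) (-C3) =
      (lvR D.far D.N0 D.x D.y' D.y D.ex (-D.L2) (-D.L1) (-D.L3) - mo * wdR C1 C2 C3) / E := by
    rw [hf, hE]
    unfold levW
    rw [wdR_rev]
    rfl
  rw [u4, u1, u2, u3]
  exact hγ

theorem DtC.conW {D : DtC} {mo E X12 X13 R1 R2 R3 C1 C2 C3 : ℝ} (hf : D.far = false)
    (O : D.Ok (ken D.x)) (he : 0 < E)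
    (hE : D.ex = exn' X12 X13 D.y (D.y + D.y')) (e1 : D.R1 = E * R1) (e2 : D.R2 = E * R2)
    (e3 : D.R3 = E * R3) (H : ∀ lv sg bd, mo * wdR C1 C2 C3 ≤ D.F lv sg bd) :
    Con12W D.N0 E mo .npn D.y D.y' D.x X12 X13 R1 R2 R3 D.L1 D.L2 D.L3 C1 C2 C3 := by
  obtain ⟨γ, hγ⟩ := DtC.rowW O he e1 e2 e3 H
  refine ⟨γ, ?_⟩
  have u1 : D.y - 1 = -D.s := by unfold DtC.y; ring
  have u2 : D.y' - 1 = D.v := by unfold DtC.y'; ring
  have u3 : D.y + D.y' - 2 = -D.w := by unfold DtC.y DtC.y' DtC.s; ring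
  have u4 : levW D.N0 E mo D.x D.y D.y' (exn' X12 X13 D.y (D.y + D.y')) D.L1 D.L2 D.L3 C1 C2 C3 =
      (lvR D.far D.N0 D.x D.y D.y' D.ex D.L1 D.L2 D.L3 - mo * wdR C1 C2 C3) / E := by
    rw [hf, hE]
    rfl
  rw [u4, u1, u2, u3]
  exact hγ

/-! ### Values of the third kernel -/

section

variable {n : ℕ} {P : Pos n} {RK RL RU : Fin (n + 1) → ℕ → ℝ → ℝ → ℝ} {p : Pm} {q : Pu}
  {D D3 N0 : ℕ} {x y y' t b : ℝ} {A B : Sd} {G H : Su} {T : Th} {V : Tu} {C : CvP} {K : Fn2}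
  {i : Fin n} {e mo Tv TL TC : ℝ}

/-- Values of the third kernel on the unit circle near the corner. -/
structure TabU (RU : Fin (n + 1) → ℕ → ℝ → ℝ → ℝ) (q : Pu) (D : ℕ) (x : ℝ) : Prop where
  u1 : ∀ {y h : ℝ}, InQ 1 y → |y - 1| < (D : ℝ) / S → h = 1 / 2 - (3 / 4 * y - c1n y / 2) →
    RU 0 1 y x = q.s1.v x * h + (pfn q.l1).v h x
  u2 : ∀ {y h : ℝ}, InQ 2 y → |y - 1| < (D : ℝ) / S → h = 1 / 2 - c1n y →
    -RU 0 2 y x = q.s2.v x * h + (pfn q.l2).v h x

/-- The third kernel at a node of the third side in the quarter `3`. -/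
def SuOk (RU : Fin (n + 1) → ℕ → ℝ → ℝ → ℝ) (q : Pu) (A : Sd) (G : Su)
    (j : Fin (n + 1)) (D3 : ℕ) (x : ℝ) : Prop :=
  ∀ {Y t : ℝ}, InQ 3 Y → |Y - 2| < (D3 : ℝ) / S → t = c3n Y → 0 < t →
    RU j 3 Y x = t * (A.ch.v t * (dgsl3 q).v x + t * G.d.v t x)

/-- The third kernel on a left curve in the quarter `2` near the height `1`. -/
def CvU (RU : Fin (n + 1) → ℕ → ℝ → ℝ → ℝ) (C : CvP) (K : Fn2)
    (j : Fin (n + 1)) (D : ℕ) (x : ℝ) : Prop :=
  ∀ {v : ℝ}, 0 ≤ v → v < (D : ℝ) / S →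
    RU j 2 (1 + v) x = (1 / 2 - v * C.xs.v v) * (v * K.v v x)

/-- The third kernel in the quarter `1` on the first two curves. -/
structure P1U (RU : Fin (n + 1) → ℕ → ℝ → ℝ → ℝ) (q : Pu) (j : Fin (n + 1))
    (D : ℕ) (x : ℝ) : Prop where
  c1 : ∀ {y : ℝ}, InQ 1 y → |y - 1| < (D : ℝ) / S → RU j 1 y x = q.C11.v y x
  c0 : ∀ {y : ℝ}, InQ 1 y → |y - 1| < (D : ℝ) / S → RU 0 1 y x = q.C01.v y x

theorem sl_v : (dgsl1 q).v x = q.s1.v x / 2 ∧ (dgsl2 q).v x = q.s2.v x / 2 ∧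
    (dgsl3 q).v x = q.s3.v x / 2 := ⟨rfl, rfl, rfl⟩

theorem GeoOk.C1 (g : GeoOk y y' t b) (U : TabU RU q D x) (hq : InQ 1 y)
    (hD : |y - 1| < (D : ℝ) / S) :
    RU 0 1 y x = t * (b * (dgsl1 q).v x + t * (dgc11 q).v t b x) := by
  have hk := U.u1 hq hD g.h1.symm
  have hh := dgh1t_v t b
  have h1 := dgh1_v t b
  have hQ : (pfn q.l1).v (t * dgh1t.v t b) x = t ^ 2 * (qfn q.l1).v (dgh1.v t b) t x := by
    rw [← qfn_v q.l1 (t := t) (zt g.t0), h1]
    ring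
  have e5 : (dgc11 q).v t b x = q.s1.v x * dge12.v t b + (qfn q.l1).v (dgh1.v t b) t x := rfl
  rw [hk, hQ, e5, hh, sl_v.1]
  ring

theorem GeoOk.C2 (g : GeoOk y y' t b) (U : TabU RU q D x) (hq : InQ 2 y')
    (hD : |y' - 1| < (D : ℝ) / S) :
    -RU 0 2 y' x = t * (b * (dgsl2 q).v x + t * (dgc21 q).v t b x) := by
  have hk := U.u2 hq hD g.h2.symm
  have hh := dgh2t_v t b
  have h1 := dgh2_v t b
  have hQ : (pfn q.l2).v (t * dgh2t.v t b) x = t ^ 2 * (qfn q.l2).v (dgh2.v t b) t x := by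
    rw [← qfn_v q.l2 (t := t) (zt g.t0), h1]
    ring
  have e5 : (dgc21 q).v t b x = q.s2.v x * dge23.v t b + (qfn q.l2).v (dgh2.v t b) t x := rfl
  rw [hk, hQ, e5, hh, sl_v.2.1]
  ring

/-- The third kernel on the top curve. -/
theorem suC_ok {j : Fin (n + 1)}
    (hU : ∀ {Y t h : ℝ}, InQ 3 Y → |Y - 2| < (D3 : ℝ) / S → t = c3n Y →
      h = t / 2 + (2 - Y) / 4 → RU j 3 Y x = q.s3.v x * h + (pfn q.l3).v h x) :
    SuOk RU q (dgSC p) (suC q) j D3 x := by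
  intro Y t hq hD ht t0
  have hY := hq
  obtain ⟨y1, y2⟩ := hY
  have hw := gv_w (by linarith) (tsq (by linarith) y2 ht)
  have hh : t / 2 + (2 - Y) / 4 = t * dgH.v t := by
    rw [dgH_v, hw]
    ring
  have hQ : (pfn q.l3).v (t * dgH.v t) x = t ^ 2 * (qfn q.l3).v (dgh3.v t) t x := by
    rw [← qfn_v q.l3 (t := t) (zt t0), dgh3_v]
    ring
  have e1 : dgCc.v t = 1 := by
    show ((1 : ℕ) : ℝ) = 1
    norm_num
  have e2 : (dgc3c q).v t x = q.s3.v x * gv t / 4 + (qfn q.l3).v (dgh3.v t) t x := by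
    simp only [dgc3c, dgg_v]
    push_cast
    ring
  show RU j 3 Y x = t * (dgCc.v t * (dgsl3 q).v x + t * (dgc3c q).v t x)
  rw [hU hq hD ht rfl, hh, hQ, e1, e2, dgH_v, sl_v.2.2]
  ring

/-- The parameters of a node curve, left. -/
structure NuL (P : Pos n) (RK RL : Fin (n + 1) → ℕ → ℝ → ℝ → ℝ) (M : NdU)
    (j : Fin (n + 1)) (D3 : ℕ) (x : ℝ) : Prop where
  hj : P.ρ j ≤ 1
  sc : ∀ u, M.sc.v u = P.ρ j * u
  K : ∀ {Y t : ℝ}, InQ 3 Y → |Y - 2| < (D3 : ℝ) / S → t = c3n Y → dgw.v t = 2 - Y →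
    RK j 3 Y x = crv P j 3 Y * M.B.v t x
  L : ∀ {Y t : ℝ}, InQ 3 Y → |Y - 2| < (D3 : ℝ) / S → t = c3n Y → dgw.v t = 2 - Y →
    RL j 3 Y x = crv P j 3 Y * M.X.v t x

/-- The third kernel on a node curve, left. -/
def NuLC (P : Pos n) (RU : Fin (n + 1) → ℕ → ℝ → ℝ → ℝ) (M : NdU)
    (j : Fin (n + 1)) (D3 : ℕ) (x : ℝ) : Prop :=
  ∀ {Y t : ℝ}, InQ 3 Y → |Y - 2| < (D3 : ℝ) / S → t = c3n Y → dgw.v t = 2 - Y →
    RU j 3 Y x = crv P j 3 Y * M.D.v t x

/-- The parameters of a node curve, right. -/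
structure NuR (P : Pos n) (RK RL : Fin (n + 1) → ℕ → ℝ → ℝ → ℝ) (p : Pm) (M : NdU)
    (j : Fin (n + 1)) (D3 : ℕ) (x : ℝ) : Prop where
  hj : 1 < P.ρ j
  sc : ∀ u, M.sc.v u = (2 - P.ρ j) * u + (P.ρ j - 1)
  K : ∀ {Y t : ℝ}, InQ 3 Y → |Y - 2| < (D3 : ℝ) / S → t = c3n Y → t * dgtg.v t = 2 - Y →
    RK j 3 Y x = crv P j 3 Y * (p.c0.v x / 2 + t * M.B.v t x)
  L : ∀ {Y t : ℝ}, InQ 3 Y → |Y - 2| < (D3 : ℝ) / S → t = c3n Y → t * dgtg.v t = 2 - Y →
    RL j 3 Y x = crv P j 3 Y * ((dga3c p).v x + t * M.X.v t x)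

/-- The third kernel on a node curve, right. -/
def NuRC (P : Pos n) (RU : Fin (n + 1) → ℕ → ℝ → ℝ → ℝ) (q : Pu) (M : NdU)
    (j : Fin (n + 1)) (D3 : ℕ) (x : ℝ) : Prop :=
  ∀ {Y t : ℝ}, InQ 3 Y → |Y - 2| < (D3 : ℝ) / S → t = c3n Y → t * dgtg.v t = 2 - Y →
    RU j 3 Y x = crv P j 3 Y * ((dgsl3 q).v x + t * M.D.v t x)

section

variable {M : NdU} {j : Fin (n + 1)}

/-- the coordinates of a height in the quarter `3` -/
theorem co3 {Y : ℝ} (hq : InQ 3 Y) (ht : t = c3n Y) :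
    dgw.v t = 2 - Y ∧ t * dgtg.v t = 2 - Y ∧ swn Y - 1 / 2 = (2 - Y) * dgxw.v (2 - Y) ∧
      2 - Y = t ^ 2 * gv t := by
  obtain ⟨y1, y2⟩ := hq
  have hw := gv_w (by linarith) (tsq (by linarith) y2 ht)
  have hx := dgxw_v (w := 2 - Y) (by linarith) (by linarith)
  rw [show 2 - (2 - Y) = Y by ring] at hx
  refine ⟨by rw [dgw_v, hw], ?_, hx, hw⟩
  rw [dgtg_v, hw]
  ring

theorem crvL (hj : P.ρ j ≤ 1) (hs : ∀ u, M.sc.v u = P.ρ j * u) {Y : ℝ} (hq : InQ 3 Y)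
    (ht : t = c3n Y) : crv P j 3 Y = t * (dgULc M).v t := by
  obtain ⟨c1, c2, c3, c4⟩ := co3 hq ht
  have e1 : (dgULc M).v t = t * (dgULf M).v t := rfl
  have e2 : (dgULf M).v t = M.sc.v (dgg.v t * dgxw.v (dgw.v t)) := rfl
  rw [crv3_left hj hq, e1, e2, hs, c1, dgg_v, c3]
  rw [c4]
  ring

theorem NuL.sd (N : NuL P RK RL M j D3 x) : SdOk P RK RL p (ndUL p M) j D3 x := by
  intro Y t hq hD ht t0
  obtain ⟨c1, c2, c3, c4⟩ := co3 hq ht
  have hc := crvL N.hj N.sc hq ht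
  have e1 : (dgULc M).v t = t * (dgULf M).v t := rfl
  have e3 : (dgULr p M).v t x = (dgULf M).v t * (M.B.v t x - p.c0.v x / 2) := rfl
  have e5 : (dgULl p M).v t x = (dgULf M).v t * (M.X.v t x - (dga3c p).v x) := rfl
  refine ⟨hc, ?_, ?_⟩
  · show RK j 3 Y x = t * ((dgULc M).v t * (p.c0.v x / 2) + t * (dgULr p M).v t x)
    rw [N.K hq hD ht c1, hc, e1, e3]
    ring
  · show RL j 3 Y x = t * ((dgULc M).v t * (dga3c p).v x + t * (dgULl p M).v t x)
    rw [N.L hq hD ht c1, hc, e1, e5]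
    ring

theorem NuLC.su (NC : NuLC P RU M j D3 x) (hj : P.ρ j ≤ 1) (hs : ∀ u, M.sc.v u = P.ρ j * u) :
    SuOk RU q (ndUL p M) (suL q M) j D3 x := by
  intro Y t hq hD ht t0
  obtain ⟨c1, c2, c3, c4⟩ := co3 hq ht
  have hc := crvL hj hs hq ht
  have e1 : (dgULc M).v t = t * (dgULf M).v t := rfl
  have e5 : (dgULd q M).v t x = (dgULf M).v t * (M.D.v t x - (dgsl3 q).v x) := rfl
  show RU j 3 Y x = t * ((dgULc M).v t * (dgsl3 q).v x + t * (dgULd q M).v t x)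
  rw [NC hq hD ht c1, hc, e1, e5]
  ring

theorem crvR (hj : 1 < P.ρ j) (hs : ∀ u, M.sc.v u = (2 - P.ρ j) * u + (P.ρ j - 1)) {Y : ℝ}
    (hq : InQ 3 Y) (ht : t = c3n Y) : crv P j 3 Y = t * (dgURc M).v t := by
  obtain ⟨c1, c2, c3, c4⟩ := co3 hq ht
  have e1 : (dgURc M).v t = M.sc.v (dgtg.v t * dgxw.v (dgw.v t)) := rfl
  rw [crv3_right hj, e1, hs, c1, c3, ← ht, ← c2]
  ring

theorem NuR.sd (N : NuR P RK RL p M j D3 x) : SdOk P RK RL p (ndUR M) j D3 x := by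
  intro Y t hq hD ht t0
  obtain ⟨c1, c2, c3, c4⟩ := co3 hq ht
  have hc := crvR N.hj N.sc hq ht
  have e3 : (dgURr M).v t x = (dgURc M).v t * M.B.v t x := rfl
  have e4 : (dgURl M).v t x = (dgURc M).v t * M.X.v t x := rfl
  refine ⟨hc, ?_, ?_⟩
  · show RK j 3 Y x = t * ((dgURc M).v t * (p.c0.v x / 2) + t * (dgURr M).v t x)
    rw [N.K hq hD ht c2, hc, e3]
    ring
  · show RL j 3 Y x = t * ((dgURc M).v t * (dga3c p).v x + t * (dgURl M).v t x)
    rw [N.L hq hD ht c2, hc, e4]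
    ring

theorem NuRC.su (NC : NuRC P RU q M j D3 x) (hj : 1 < P.ρ j)
    (hs : ∀ u, M.sc.v u = (2 - P.ρ j) * u + (P.ρ j - 1)) :
    SuOk RU q (ndUR M) (suR M) j D3 x := by
  intro Y t hq hD ht t0
  obtain ⟨c1, c2, c3, c4⟩ := co3 hq ht
  have hc := crvR hj hs hq ht
  have e3 : (dgURd M).v t x = (dgURc M).v t * M.D.v t x := rfl
  show RU j 3 Y x = t * ((dgURc M).v t * (dgsl3 q).v x + t * (dgURd M).v t x)
  rw [NC hq hD ht c2, hc, e3]
  ring

end

/-! ### The third side -/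

/-- The third kernel on the segment `i` of the quarter `3`. -/
def TuOk (P : Pos n) (RU : Fin (n + 1) → ℕ → ℝ → ℝ → ℝ) (q : Pu) (V : Tu) (i : Fin n)
    (D3 : ℕ) (x : ℝ) : Prop :=
  ∀ {Y t b TC : ℝ}, InQ 3 Y → |Y - 2| < (D3 : ℝ) / S → t = c3n Y → 0 < t →
    crv P i.castSucc 3 Y ≤ t * b → t * b ≤ crv P i.succ 3 Y →
    Lin (crv P i.castSucc 3 Y) (crv P i.succ 3 Y) (RU i.castSucc 3 Y x) (RU i.succ 3 Y x)
      (t * b) TC →
    TC = t * (b * (dgsl3 q).v x + t * V.c.v t b x)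

theorem tuLo_ok (hA : SdOk P RK RL p A i.castSucc D3 x) (hB : SdOk P RK RL p B i.succ D3 x)
    (hG : SuOk RU q A G i.castSucc D3 x) (hH : SuOk RU q B H i.succ D3 x) :
    TuOk P RU q (tuLo A B G H) i D3 x := by
  intro Y t b TC hq hD ht t0 c1 c2 l1
  obtain ⟨a1, -, -⟩ := hA hq hD ht t0
  obtain ⟨b1, -, -⟩ := hB hq hD ht t0
  have a2 := hG hq hD ht t0
  have b2 := hH hq hD ht t0
  rw [a1] at c1
  rw [b1] at c2
  have c1' : A.ch.v t ≤ b := le_of_mul_le_mul_left c1 t0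
  have c2' : b ≤ B.ch.v t := le_of_mul_le_mul_left c2 t0
  unfold Lin at l1
  rw [a1, a2, b1, b2] at l1
  have er : (tuLo A B G H).c.v t b x = G.d.v t x + (H.d.v t x - G.d.v t x) *
      (B.ch.v t - A.ch.v t)⁻¹ * (b - A.ch.v t) := rfl
  rw [er, l1]
  rcases eq_or_ne (B.ch.v t) (A.ch.v t) with h | h
  · have hb : b = A.ch.v t := le_antisymm (c2'.trans h.le) c1'
    rw [h, hb]
    ring
  · have h' : B.ch.v t - A.ch.v t ≠ 0 := sub_ne_zero.2 h
    have e : (t * b - t * A.ch.v t) / (t * B.ch.v t - t * A.ch.v t) =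
        (b - A.ch.v t) * (B.ch.v t - A.ch.v t)⁻¹ := by
      rw [← mul_sub, ← mul_sub, mul_div_mul_left _ _ t0.ne', div_eq_mul_inv]
    rw [e]
    have hi : (B.ch.v t - A.ch.v t) * (B.ch.v t - A.ch.v t)⁻¹ = 1 := mul_inv_cancel₀ h'
    linear_combination t * (b - A.ch.v t) * (dgsl3 q).v x * hi

theorem tuUp_ok (hA : SdOk P RK RL p A i.castSucc D3 x) (hB : SdOk P RK RL p B i.succ D3 x)
    (hG : SuOk RU q A G i.castSucc D3 x) (hH : SuOk RU q B H i.succ D3 x)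
    (hi' : P.ρ i.succ = 2) : TuOk P RU q (tuUp A B G H) i D3 x := by
  intro Y t b TC hq hD ht t0 c1 c2 l1
  have h2 : Y < 2 := by
    rcases hq.2.lt_or_eq with h | h
    · exact h
    · rw [h] at ht
      have : c3n 2 = 0 := Real.sqrt_eq_zero_of_nonpos (by norm_num)
      linarith
  have hlt : crv P i.castSucc 3 Y < crv P i.succ 3 Y := by
    have e : crv P i.succ 3 Y = c3n Y := by
      rw [crv3_right (by rw [hi']; norm_num), hi']
      ring
    rw [e]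
    exact crv_lt_last hq h2
  have r1 := tuLo_ok hA hB hG hH hq hD ht t0 c1 c2 l1
  obtain ⟨a1, -, -⟩ := hA hq hD ht t0
  obtain ⟨b1, -, -⟩ := hB hq hD ht t0
  rw [a1, b1] at hlt
  have h3 : A.ch.v t < B.ch.v t := lt_of_mul_lt_mul_left hlt t0.le
  have hi : (B.ch.v t - A.ch.v t) * (B.ch.v t - A.ch.v t)⁻¹ = 1 :=
    mul_inv_cancel₀ (sub_ne_zero.2 h3.ne')
  have er : (tuLo A B G H).c.v t b x = G.d.v t x + (H.d.v t x - G.d.v t x) *
      (B.ch.v t - A.ch.v t)⁻¹ * (b - A.ch.v t) := rfl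
  have er' : (tuUp A B G H).c.v t b x = H.d.v t x - (H.d.v t x - G.d.v t x) *
      (B.ch.v t - A.ch.v t)⁻¹ * (B.ch.v t - b) := rfl
  have e1 : (tuUp A B G H).c.v t b x = (tuLo A B G H).c.v t b x := by
    rw [er, er']
    linear_combination -(H.d.v t x - G.d.v t x) * hi
  rw [e1]
  exact r1

/-! ### Points, second vertex -/

/-- the inequalities, type `A` -/
def IneqAW (p : Pm) (q : Pu) (T : Th) (V : Tu) (t b x : ℝ) : Prop :=
  ∀ lv sg bd, q.mo.v x * wdR (b * (dgsl1 q).v x + t * (dgc11 q).v t b x)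
    (b * (dgsl2 q).v x + t * (dgc21 q).v t b x) (b * (dgsl3 q).v x + t * V.c.v t b x) ≤
    b * (a0F sg bd p).v x + t * (a1F false lv sg bd p T).v t b x

theorem PtOk.tAW (h : PtOk P (scK e RK) RL false N0 p D D3 x y y' t b) (he : 0 < e)
    (hT : ThOk P (scK e RK) RL p T i D3 x) (hV : TuOk P RU q V i D3 x) (U : TabU RU q D x)
    (hm : q.mo.v x = mo)
    (c1 : crv P i.castSucc 3 (y + y') ≤ t * b) (c2 : t * b ≤ crv P i.succ 3 (y + y'))
    (l1 : Lin (crv P i.castSucc 3 (y + y')) (crv P i.succ 3 (y + y'))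
      (RK i.castSucc 3 (y + y') x) (RK i.succ 3 (y + y') x) (t * b) Tv)
    (l2 : Lin (crv P i.castSucc 3 (y + y')) (crv P i.succ 3 (y + y'))
      (RL i.castSucc 3 (y + y') x) (RL i.succ 3 (y + y') x) (t * b) TL)
    (l3 : Lin (crv P i.castSucc 3 (y + y')) (crv P i.succ 3 (y + y'))
      (RU i.castSucc 3 (y + y') x) (RU i.succ 3 (y + y') x) (t * b) TC)
    (H : IneqAW p q T V t b x) :
    Con12W N0 e mo .npn y y' x (c1n y) (t * b) (RK 0 1 y x) (-RK 0 2 y' x) Tv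
        (RL 0 1 y x) (-RL 0 2 y' x) TL (RU 0 1 y x) (-RU 0 2 y' x) TC ∧
      Con12W N0 e mo .pnn y' y x (c1n y') (-(t * b)) (RK 0 2 y' x) (-RK 0 1 y x) (-Tv)
        (RL 0 2 y' x) (-RL 0 1 y x) (-TL) (RU 0 2 y' x) (-RU 0 1 y x) (-TC) := by
  obtain ⟨g, f, TT, x0, x1, q1, q2, q3, i1, i2, i3, hD, hD3⟩ := id h
  obtain ⟨hTv, hTL⟩ := hT q3 i3 g.tt g.t0 c1 c2 (lin_sc l1) l2
  have hTC := hV q3 i3 g.tt g.t0 c1 c2 l3
  have O : (datA false N0 p T t b x).Ok (ken (datA false N0 p T t b x).x) :=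
    PtOk.ok (T := T) (dl := 0) h
  have ey : (datA false N0 p T t b x).y = y := g.ey.symm
  have ey' : (datA false N0 p T t b x).y' = y' := g.ey'.symm
  have R1 : (datA false N0 p T t b x).R1 = e * RK 0 1 y x := by
    show _ = scK e RK 0 1 y x
    rw [g.R1 TT q1 i1]
    simp only [datA, dat, Dat.R1]
    ring
  have R2 : (datA false N0 p T t b x).R2 = e * -RK 0 2 y' x := by
    rw [show e * -RK 0 2 y' x = -scK e RK 0 2 y' x by show _ = -(e * RK 0 2 y' x); ring,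
      g.R2 TT q2 i2]
    simp only [datA, dat, Dat.R2, Dat.r2]
    ring
  have R3 : (datA false N0 p T t b x).R3 = e * Tv := by
    rw [hTv]
    simp only [datA, dat, Dat.R3]
    ring
  have L1 : (datA false N0 p T t b x).L1 = RL 0 1 y x := by
    rw [g.L1 TT q1 i1]
    simp only [datA, dat, Dat.L1, Dat.a1c]
    ring
  have L2 : (datA false N0 p T t b x).L2 = -RL 0 2 y' x := by
    rw [g.L2 TT q2 i2]
    simp only [datA, dat, Dat.L2, Dat.a2c]
    ring
  have L3 : (datA false N0 p T t b x).L3 = TL := by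
    rw [hTL]
    simp only [datA, dat, Dat.L3, Dat.a3c, dga3c]
    push_cast
    ring
  have hex : (datA false N0 p T t b x).ex = exn' (c1n y) (t * b) y (y + y') := by
    unfold exn'
    rw [g.ex]
    simp only [datA, dat, Dat.ex]
    ring
  have hex' : (datA false N0 p T t b x).ex = exn' (c1n y') (-(t * b)) y' (y' + y) := by
    rw [hex]
    unfold exn'
    have := g.tb
    linear_combination (y + y') / 2 * this
  have HF : ∀ lv sg bd, mo * wdR (RU 0 1 y x) (-RU 0 2 y' x) TC ≤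
      (datA false N0 p T t b x).t * (datA false N0 p T t b x).F lv sg bd := by
    intro lv sg bd
    have h1 := mul_le_mul_of_nonneg_left (H lv sg bd) g.t0.le
    have e0 := a0F_v f T t b 0 0 0 0 0 0 0 0 sg bd
    have e1 := a1F_v f T t b 0 0 0 0 0 0 0 0 lv sg bd
    rw [cond_false] at e0
    have e2 : (datA false N0 p T t b x).F lv sg bd =
        b * (a0F sg bd p).v x + t * (a1F false lv sg bd p T).v t b x := by
      unfold Dat.F datA
      rw [e0, ← e1]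
      have : (dat false N0 p T t b x 0 0 0 0 0 0 0 0).dl = 0 := rfl
      rw [this]
      simp only [dat]
      ring
    have e3 : (datA false N0 p T t b x).t = t := rfl
    rw [e2, e3, g.C1 U q1 i1, g.C2 U q2 i2, hTC, wdR_smul g.t0.le, ← hm]
    refine le_trans (le_of_eq ?_) h1
    ring
  constructor
  · have k := Dat.conW (X12 := c1n y) (X13 := t * b) rfl O he (by rw [ey, ey']; exact hex)
      R1 R2 R3 HF
    rw [L1, L2, L3, ey, ey'] at k
    exact k
  · have k := Dat.conW' (X12 := c1n y') (X13 := -(t * b)) rfl O he (by rw [ey, ey']; exact hex')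
      R1 R2 R3 HF
    rw [L1, L2, L3, ey, ey', neg_neg, neg_neg, neg_neg] at k
    exact k

/-- the inequalities, type `B` -/
def IneqBW (p : Pm) (q : Pu) (A : Sd) (G : Su) (t b x : ℝ) : Prop :=
  ∀ lv sg bd, q.mo.v x * wdR (b * (dgsl1 q).v x + t * (dgc11 q).v t b x)
    (b * (dgsl2 q).v x + t * (dgc21 q).v t b x - (b - A.ch.v t) * (dggC p q).v t b x)
    (A.ch.v t * (dgsl3 q).v x + t * (tuN G).c.v t b x) ≤
    b * (a0F sg bd p).v x + t * (a1F false lv sg bd p (thN A)).v t b x +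
    (b - A.ch.v t) * (QBF false lv sg bd p).v t b x

/-- The third kernel on the unit circle in the quarter `2` at the height `1 + v`. -/
theorem TabU.q2 (U : TabU RU q D x) {v : ℝ} (h0 : 0 ≤ v) (hv : v < (D : ℝ) / S)
    (hD : (D : ℝ) / S ≤ 1 / 8) : RU 0 2 (1 + v) x = v * (dgD0c q).v v x := by
  have hx := dgxi_v h0 (by linarith)
  have hq : InQ 2 (1 + v) := ⟨by linarith, by linarith⟩
  have ha : |1 + v - 1| < (D : ℝ) / S := by
    rw [show 1 + v - 1 = v by ring, abs_of_nonneg h0]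
    exact hv
  have hh : v * dgxi.v v = 1 / 2 - c1n (1 + v) := by rw [hx]; ring
  have k := U.u2 hq ha hh
  have e1 : dghx.v v = v * dgxi.v v := by simp only [dghx]
  have e : (dgD0c q).v v x = -(q.s2.v x * dgxi.v v + (sfn q.l2).v (dghx.v v) v x) := rfl
  have z : v = 0 → v * dgxi.v v ≤ 0 := fun h => by rw [h, zero_mul]
  rw [e, e1]
  have s := sfn_v q.l2 (h := v * dgxi.v v) (t := v) (x := x) z
  linear_combination -k + s

theorem PtOk.tBW (h : PtOk P (scK e RK) RL false N0 p D D3 x y y' t b) (he : 0 < e)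
    {j k : Fin (n + 1)}
    (hA : SdOk P (scK e RK) RL p A k D3 x) (hG : SuOk RU q A G k D3 x)
    (hC : CvOk P (scK e RK) RL p p.cv j D x) (hU : CvU RU p.cv q.sD j D x) (U : TabU RU q D x)
    (hm : q.mo.v x = mo)
    (c1 : crv P 0 2 y' ≤ c1n y - crv P k 3 (y + y'))
    (c2 : c1n y - crv P k 3 (y + y') ≤ crv P j 2 y')
    (l1 : Lin (crv P 0 2 y') (crv P j 2 y') (RK 0 2 y' x) (RK j 2 y' x)
      (c1n y - crv P k 3 (y + y')) Tv)
    (l2 : Lin (crv P 0 2 y') (crv P j 2 y') (RL 0 2 y' x) (RL j 2 y' x)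
      (c1n y - crv P k 3 (y + y')) TL)
    (l3 : Lin (crv P 0 2 y') (crv P j 2 y') (RU 0 2 y' x) (RU j 2 y' x)
      (c1n y - crv P k 3 (y + y')) TC)
    (H : IneqBW p q A G t b x) :
    Con12W N0 e mo .npn y y' x (c1n y) (crv P k 3 (y + y')) (RK 0 1 y x) (-Tv)
      (RK k 3 (y + y') x) (RL 0 1 y x) (-TL) (RL k 3 (y + y') x)
      (RU 0 1 y x) (-TC) (RU k 3 (y + y') x) := by
  obtain ⟨g, f, TT, x0, x1, q1, q2, q3, i1, i2, i3, hD, hD3⟩ := id h
  obtain ⟨a1, a2, a3⟩ := hA q3 i3 g.tt g.t0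
  have a4 := hG q3 i3 g.tt g.t0
  have hv : dgv.v t b = t * dgvt.v t b := dgv_v t b
  have ev : y' = 1 + dgv.v t b := by rw [hv]; exact g.ey'
  have v0 : 0 ≤ dgv.v t b := by linarith [q2.1]
  have v1 : dgv.v t b < (D : ℝ) / S := by
    have := (abs_lt.1 i2).2
    linarith
  obtain ⟨k1, k2⟩ := TT.q2 v0 v1 hD
  have k3 := U.q2 v0 v1 hD
  obtain ⟨m1, m2, m3⟩ := hC v0 v1
  have m5 := hU v0 v1
  have m4 := dgxi_v v0 (by linarith)
  rw [← ev] at k1 k2 k3 m1 m2 m3 m4 m5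
  have m2' : scK e RK j 2 y' x = p.c0.v x / 2 + dgv.v t b * (dgK2c p).v (dgv.v t b) x := by
    have e : (dgK2c p).v (dgv.v t b) x = p.cv.Bs.v (dgv.v t b) x / 2 -
      p.cv.xs.v (dgv.v t b) * (p.c0.v x + dgv.v t b * p.cv.Bs.v (dgv.v t b) x) := by
      simp only [dgK2c]
    rw [m2, e]
    ring
  have m3' : RL j 2 y' x = dgv.v t b * (dgL2c p).v (dgv.v t b) x := by
    have e : (dgL2c p).v (dgv.v t b) x = (1 / 2 - dgv.v t b * p.cv.xs.v (dgv.v t b)) *
      p.cv.sX.v (dgv.v t b) x := by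
      simp only [dgL2c]
      push_cast
      ring
    rw [m3, e]
    ring
  have m5' : RU j 2 y' x = dgv.v t b * (dgD2c p q).v (dgv.v t b) x := by
    have e : (dgD2c p q).v (dgv.v t b) x = (1 / 2 - dgv.v t b * p.cv.xs.v (dgv.v t b)) *
      q.sD.v (dgv.v t b) x := by
      simp only [dgD2c]
      push_cast
      ring
    rw [m5, e]
    ring
  have r1 := slope_aux k1 m2' (crv0q.trans m4) m1 c1 c2 (lin_sc (e := e) l1)
  have r2 := slope_aux (c := 0) (by rw [zero_add]; exact k2) (by rw [zero_add]; exact m3')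
    (crv0q.trans m4) m1 c1 c2 l2
  have r3 := slope_aux (c := 0) (by rw [zero_add]; exact k3) (by rw [zero_add]; exact m5')
    (crv0q.trans m4) m1 c1 c2 l3
  have hZ : c1n y - crv P k 3 (y + y') - crv P 0 2 y' = t * (b - A.ch.v t) := by
    rw [a1, crv0q]
    have := g.tb
    linear_combination this
  rw [hZ] at r1 r2 r3
  have eG : (dgG p).v t b x = ((dgK2c p).v (dgv.v t b) x - (dgK0c p).v (dgv.v t b) x) *
    (dgxi.v (dgv.v t b) - p.cv.xs.v (dgv.v t b))⁻¹ := rfl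
  have eg : (dggL p).v t b x = ((dgL2c p).v (dgv.v t b) x - (dgL0c p).v (dgv.v t b) x) *
    (dgxi.v (dgv.v t b) - p.cv.xs.v (dgv.v t b))⁻¹ := rfl
  have ec : (dggC p q).v t b x = ((dgD2c p q).v (dgv.v t b) x - (dgD0c q).v (dgv.v t b) x) *
    (dgxi.v (dgv.v t b) - p.cv.xs.v (dgv.v t b))⁻¹ := rfl
  rw [← eG] at r1
  rw [← eg] at r2
  rw [← ec] at r3
  obtain ⟨dl, hdl⟩ : ∃ dl, dl = b - A.ch.v t := ⟨_, rfl⟩
  have H' := H
  unfold IneqBW at H'
  rw [← hdl] at r1 r2 r3 H'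
  have O : (datB false N0 p (thN A) t b x dl).Ok (ken (datB false N0 p (thN A) t b x dl).x) :=
    PtOk.ok (T := thN A) (dl := dl) h
  have ey : (datB false N0 p (thN A) t b x dl).y = y := g.ey.symm
  have ey' : (datB false N0 p (thN A) t b x dl).y' = y' := g.ey'.symm
  have R2' := g.R2 TT q2 i2
  have L2' := g.L2 TT q2 i2
  have R1 : (datB false N0 p (thN A) t b x dl).R1 = e * RK 0 1 y x := by
    show _ = scK e RK 0 1 y x
    rw [g.R1 TT q1 i1]
    simp only [datB, dat, Dat.R1]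
    ring
  have R2 : (datB false N0 p (thN A) t b x dl).R2 = e * -Tv := by
    rw [show e * -Tv = -(e * Tv) by ring, r1]
    simp only [datB, dat, Dat.R2, Dat.r2]
    linear_combination -R2'
  have eR : (thN A).r.v t b x = A.r.v t x := rfl
  have eL : (thN A).l.v t b x = A.l.v t x := rfl
  have hb : b = dl + A.ch.v t := by linarith
  have R3 : (datB false N0 p (thN A) t b x dl).R3 = e * RK k 3 (y + y') x := by
    show _ = scK e RK k 3 (y + y') x
    rw [a2]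
    simp only [datB, dat, Dat.R3, eR]
    linear_combination t * (p.c0.v x / 2) * hb
  have L1 : (datB false N0 p (thN A) t b x dl).L1 = RL 0 1 y x := by
    rw [g.L1 TT q1 i1]
    simp only [datB, dat, Dat.L1, Dat.a1c]
    ring
  have L2 : (datB false N0 p (thN A) t b x dl).L2 = -TL := by
    rw [r2]
    simp only [datB, dat, Dat.L2, Dat.a2c]
    linear_combination -L2'
  have L3 : (datB false N0 p (thN A) t b x dl).L3 = RL k 3 (y + y') x := by
    rw [a3]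
    simp only [datB, dat, Dat.L3, Dat.a3c, eL, dga3c]
    push_cast
    linear_combination t * (-(p.mb.v x * 2 + p.ma.v x) / 2) * hb
  have hex : (datB false N0 p (thN A) t b x dl).ex =
      exn' (c1n y) (crv P k 3 (y + y')) y (y + y') := by
    unfold exn'
    have e := g.ex
    have ey2 := g.ey
    rw [a1]
    simp only [datB, dat, Dat.ex]
    linear_combination -e - (t * y / 2) * hb - t * dl / 2 * ey2
  have HF : ∀ lv sg bd, mo * wdR (RU 0 1 y x) (-TC) (RU k 3 (y + y') x) ≤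
      (datB false N0 p (thN A) t b x dl).t * (datB false N0 p (thN A) t b x dl).F lv sg bd := by
    intro lv sg bd
    have h1 := mul_le_mul_of_nonneg_left (H' lv sg bd) g.t0.le
    have e0 := a0F_v f (thN A) t b dl 0 ((dgG p).v t b x) (-(p.c0.v x / 2)) 0 ((dggL p).v t b x)
      (-(dga3c p).v x) ((1 - t * dgst.v t b) / 2) sg bd
    have e1 := a1F_v f (thN A) t b dl 0 ((dgG p).v t b x) (-(p.c0.v x / 2)) 0
      ((dggL p).v t b x) (-(dga3c p).v x) ((1 - t * dgst.v t b) / 2) lv sg bd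
    have e2 := QBF_v f (thN A) t b dl lv sg bd
    rw [cond_false] at e0
    change (datB false N0 p (thN A) t b x dl).a0 sg bd = _ at e0
    change _ = (datB false N0 p (thN A) t b x dl).a1 lv sg bd at e1
    have e3 : (datB false N0 p (thN A) t b x dl).F lv sg bd =
        b * (a0F sg bd p).v x + t * (a1F false lv sg bd p (thN A)).v t b x +
        dl * (QBF false lv sg bd p).v t b x := by
      unfold Dat.F
      rw [← e2, e0, ← e1]
      rfl
    have e4 : (datB false N0 p (thN A) t b x dl).t = t := rfl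
    have e5 : -TC = t * (b * (dgsl2 q).v x + t * (dgc21 q).v t b x - dl * (dggC p q).v t b x) := by
      rw [r3]
      have := g.C2 U q2 i2
      linear_combination this
    have e6 : (tuN G).c.v t b x = G.d.v t x := rfl
    rw [e6] at h1
    rw [e3, e4, g.C1 U q1 i1, e5, a4, wdR_smul g.t0.le, ← hm]
    refine le_trans (le_of_eq ?_) h1
    ring
  have k := Dat.conW (X12 := c1n y) (X13 := crv P k 3 (y + y')) rfl O he
    (by rw [ey, ey']; exact hex) R1 R2 R3 HF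
  rw [L1, L2, L3, ey, ey'] at k
  exact k

/-- the inequalities, type `P` -/
def IneqPW (p : Pm) (q : Pu) (A : Sd) (G : Su) (t b x : ℝ) : Prop :=
  ∀ lv sg bd, q.mo.v x * wdR (b * (dgsl1 q).v x + t * (dgc11 q).v t b x +
      (A.ch.v t - b) * (dggC1 p q).v t b x)
    (b * (dgsl2 q).v x + t * (dgc21 q).v t b x)
    (A.ch.v t * (dgsl3 q).v x + t * (tuN G).c.v t b x) ≤
    b * (a0F sg bd p).v x + t * (a1F false lv sg bd p (thN A)).v t b x +
    (A.ch.v t - b) * (QPF false lv sg bd p).v t b x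

theorem PtOk.tPW (h : PtOk P (scK e RK) RL false N0 p D D3 x y y' t b) (he : 0 < e)
    {j k : Fin (n + 1)}
    (hA : SdOk P (scK e RK) RL p A k D3 x) (hG : SuOk RU q A G k D3 x)
    (hC : P1Ok P (scK e RK) RL p j D x) (hU : P1U RU q j D x) (U : TabU RU q D x)
    (hm : q.mo.v x = mo)
    (l1 : Lin (crv P 0 1 y) (crv P j 1 y) (RK 0 1 y x) (RK j 1 y x)
      (c1n y' + crv P k 3 (y + y')) Tv)
    (l2 : Lin (crv P 0 1 y) (crv P j 1 y) (RL 0 1 y x) (RL j 1 y x)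
      (c1n y' + crv P k 3 (y + y')) TL)
    (l3 : Lin (crv P 0 1 y) (crv P j 1 y) (RU 0 1 y x) (RU j 1 y x)
      (c1n y' + crv P k 3 (y + y')) TC)
    (H : IneqPW p q A G t b x) :
    Con12W N0 e mo .pnn y' y x (c1n y') (-crv P k 3 (y + y')) (RK 0 2 y' x) (-Tv)
      (-RK k 3 (y + y') x) (RL 0 2 y' x) (-TL) (-RL k 3 (y + y') x)
      (RU 0 2 y' x) (-TC) (-RU k 3 (y + y') x) := by
  obtain ⟨g, f, TT, x0, x1, q1, q2, q3, i1, i2, i3, hD, hD3⟩ := id h
  obtain ⟨a1, a2, a3⟩ := hA q3 i3 g.tt g.t0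
  have a4 := hG q3 i3 g.tt g.t0
  have ey1 : dgy1.v t b = y := by
    rw [g.ey]
    simp only [dgy1, dgs]
    push_cast
    ring
  have eG : (dgG1 p).v t b x = (p.K11.v (dgy1.v t b) x - p.K01.v (dgy1.v t b) x) *
    (p.x11.v (dgy1.v t b) - p.x01.v (dgy1.v t b))⁻¹ := rfl
  have eg : (dggL1 p).v t b x = (p.L11.v (dgy1.v t b) x - p.L01.v (dgy1.v t b) x) *
    (p.x11.v (dgy1.v t b) - p.x01.v (dgy1.v t b))⁻¹ := rfl
  have ec : (dggC1 p q).v t b x = (q.C11.v (dgy1.v t b) x - q.C01.v (dgy1.v t b) x) *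
    (p.x11.v (dgy1.v t b) - p.x01.v (dgy1.v t b))⁻¹ := rfl
  rw [ey1, ← hC.k1 q1 i1, ← hC.k0 q1 i1, ← hC.x1 q1 i1, ← hC.x0 q1 i1] at eG
  rw [ey1, ← hC.l1 q1 i1, ← hC.l0 q1 i1, ← hC.x1 q1 i1, ← hC.x0 q1 i1] at eg
  rw [ey1, ← hU.c1 q1 i1, ← hU.c0 q1 i1, ← hC.x1 q1 i1, ← hC.x0 q1 i1] at ec
  have hZ : c1n y' + crv P k 3 (y + y') - crv P 0 1 y = t * (A.ch.v t - b) := by
    rw [a1, crv0q]
    have := g.tb
    linear_combination -this
  have l1' := lin_sc (e := e) l1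
  unfold Lin at l1' l2 l3
  rw [hZ, div_eq_mul_inv, crv0q] at l1' l2 l3
  have r1 : e * Tv = scK e RK 0 1 y x + (dgG1 p).v t b x * (t * (A.ch.v t - b)) := by
    rw [l1', eG]
    show _ = e * RK 0 1 y x + (e * RK j 1 y x - e * RK 0 1 y x) * _ * _
    ring
  have r2 : TL = RL 0 1 y x + (dggL1 p).v t b x * (t * (A.ch.v t - b)) := by
    rw [l2, eg]
    ring
  have r3 : TC = RU 0 1 y x + (dggC1 p q).v t b x * (t * (A.ch.v t - b)) := by
    rw [l3, ec]
    ring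
  obtain ⟨dl, hdl⟩ : ∃ dl, dl = A.ch.v t - b := ⟨_, rfl⟩
  have H' := H
  unfold IneqPW at H'
  rw [← hdl] at r1 r2 r3 H'
  have O : (datP false N0 p (thN A) t b x dl).Ok (ken (datP false N0 p (thN A) t b x dl).x) :=
    PtOk.ok (T := thN A) (dl := dl) h
  have ey : (datP false N0 p (thN A) t b x dl).y = y := g.ey.symm
  have ey' : (datP false N0 p (thN A) t b x dl).y' = y' := g.ey'.symm
  have R1' := g.R1 TT q1 i1
  have L1' := g.L1 TT q1 i1
  have R1 : (datP false N0 p (thN A) t b x dl).R1 = e * Tv := by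
    rw [r1]
    simp only [datP, dat, Dat.R1]
    linear_combination -R1'
  have R2 : (datP false N0 p (thN A) t b x dl).R2 = e * -RK 0 2 y' x := by
    rw [show e * -RK 0 2 y' x = -scK e RK 0 2 y' x by show _ = -(e * RK 0 2 y' x); ring,
      g.R2 TT q2 i2]
    simp only [datP, dat, Dat.R2, Dat.r2]
    ring
  have eR : (thN A).r.v t b x = A.r.v t x := rfl
  have eL : (thN A).l.v t b x = A.l.v t x := rfl
  have hb : A.ch.v t = dl + b := by linarith
  have R3 : (datP false N0 p (thN A) t b x dl).R3 = e * RK k 3 (y + y') x := by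
    show _ = scK e RK k 3 (y + y') x
    rw [a2]
    simp only [datP, dat, Dat.R3, eR]
    linear_combination -t * (p.c0.v x / 2) * hb
  have L1 : (datP false N0 p (thN A) t b x dl).L1 = TL := by
    rw [r2]
    simp only [datP, dat, Dat.L1, Dat.a1c]
    linear_combination -L1'
  have L2 : (datP false N0 p (thN A) t b x dl).L2 = -RL 0 2 y' x := by
    rw [g.L2 TT q2 i2]
    simp only [datP, dat, Dat.L2, Dat.a2c]
    ring
  have L3 : (datP false N0 p (thN A) t b x dl).L3 = RL k 3 (y + y') x := by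
    rw [a3]
    simp only [datP, dat, Dat.L3, Dat.a3c, eL, dga3c]
    push_cast
    linear_combination -t * (-(p.mb.v x * 2 + p.ma.v x) / 2) * hb
  have hex : (datP false N0 p (thN A) t b x dl).ex =
      exn' (c1n y') (-crv P k 3 (y + y')) y' (y' + y) := by
    unfold exn'
    have e := g.ex
    have ey2 := g.ey'
    have e3 := g.tb
    rw [a1]
    simp only [datP, dat, Dat.ex]
    linear_combination -e - (t * y' / 2) * hb - t * dl / 2 * ey2 + (y + y') / 2 * e3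
  have HF : ∀ lv sg bd, mo * wdR TC (-RU 0 2 y' x) (RU k 3 (y + y') x) ≤
      (datP false N0 p (thN A) t b x dl).t * (datP false N0 p (thN A) t b x dl).F lv sg bd := by
    intro lv sg bd
    have h1 := mul_le_mul_of_nonneg_left (H' lv sg bd) g.t0.le
    have e0 := a0F_v f (thN A) t b dl ((dgG1 p).v t b x) 0 (p.c0.v x / 2) ((dggL1 p).v t b x) 0
      ((dga3c p).v x) ((1 + t * dgvt.v t b) / 2) sg bd
    have e1 := a1F_v f (thN A) t b dl ((dgG1 p).v t b x) 0 (p.c0.v x / 2)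
      ((dggL1 p).v t b x) 0 ((dga3c p).v x) ((1 + t * dgvt.v t b) / 2) lv sg bd
    have e2 := QPF_v f (thN A) t b dl lv sg bd
    rw [cond_false] at e0
    change (datP false N0 p (thN A) t b x dl).a0 sg bd = _ at e0
    change _ = (datP false N0 p (thN A) t b x dl).a1 lv sg bd at e1
    have e3 : (datP false N0 p (thN A) t b x dl).F lv sg bd =
        b * (a0F sg bd p).v x + t * (a1F false lv sg bd p (thN A)).v t b x +
        dl * (QPF false lv sg bd p).v t b x := by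
      unfold Dat.F
      rw [← e2, e0, ← e1]
      rfl
    have e4 : (datP false N0 p (thN A) t b x dl).t = t := rfl
    have e5 : TC = t * (b * (dgsl1 q).v x + t * (dgc11 q).v t b x + dl * (dggC1 p q).v t b x) := by
      rw [r3]
      have := g.C1 U q1 i1
      linear_combination this
    have e6 : (tuN G).c.v t b x = G.d.v t x := rfl
    rw [e6] at h1
    rw [e3, e4, g.C2 U q2 i2, e5, a4, wdR_smul g.t0.le, ← hm]
    refine le_trans (le_of_eq ?_) h1
    ring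
  have k := Dat.conW' (X12 := c1n y') (X13 := -crv P k 3 (y + y')) rfl O he
    (by rw [ey, ey']; exact hex) R1 R2 R3 HF
  rw [L1, L2, L3, ey, ey', neg_neg, neg_neg, neg_neg] at k
  exact k

end

end Pool.Agent.Strip051.PB.Dg
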