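import Pool.Agent.Strip051.PB.DgN

/-! # The corner `(1, 1, 2)`: node curves with a third kernel, type `C`; the exact flux -/

set_option linter.unusedSimpArgs false

namespace Pool.Agent.Strip051.PB.Dg

open Pool.Agent.Strip051.PB
open Pool.Agent.StripNear Pool.Agent.StripSquare Pool.Agent.Strip051.Sweep
open Pool.Agent.Strip051.LC

attribute [local irreducible] padd psub pneg pmul psq pinv psqrt psqrtg pabs pps pmax pmin pphi plam
  pcase phf pnat prat pscale pnorm pdc pnc pone ppos pnn Enc pbad pzero phull pnp pflat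

/-- the first part of an inequality -/
noncomputable def UwF (far lv sg bd : Bool) (p : Pm) (M : NdU) (T : Th) (C : CvP) : Fn3 :=
  match far, lv, sg, bd with
  | true, true, true, true => dgUCFfwApA p M T C
  | true, true, true, false => dgUCFfwApB p M T C
  | true, true, false, true => dgUCFfwAmA p M T C
  | true, true, false, false => dgUCFfwAmB p M T C
  | true, false, true, true => dgUCFfwBpA p M T C
  | true, false, true, false => dgUCFfwBpB p M T C
  | true, false, false, true => dgUCFfwBmA p M T C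
  | true, false, false, false => dgUCFfwBmB p M T C
  | false, true, true, true => dgUCFnwApA p M T C
  | false, true, true, false => dgUCFnwApB p M T C
  | false, true, false, true => dgUCFnwAmA p M T C
  | false, true, false, false => dgUCFnwAmB p M T C
  | false, false, true, true => dgUCFnwBpA p M T C
  | false, false, true, false => dgUCFnwBpB p M T C
  | false, false, false, true => dgUCFnwBmA p M T C
  | false, false, false, false => dgUCFnwBmB p M T C

/-- the second part of an inequality -/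
noncomputable def UvF (far lv sg bd : Bool) (p : Pm) (M : NdU) (T : Th) (C : CvP) : Fn3 :=
  match far, lv, sg, bd with
  | true, true, true, true => dgUCFfvApA p M T C
  | true, true, true, false => dgUCFfvApB p M T C
  | true, true, false, true => dgUCFfvAmA p M T C
  | true, true, false, false => dgUCFfvAmB p M T C
  | true, false, true, true => dgUCFfvBpA p M T C
  | true, false, true, false => dgUCFfvBpB p M T C
  | true, false, false, true => dgUCFfvBmA p M T C
  | true, false, false, false => dgUCFfvBmB p M T C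
  | false, true, true, true => dgUCFnvApA p M T C
  | false, true, true, false => dgUCFnvApB p M T C
  | false, true, false, true => dgUCFnvAmA p M T C
  | false, true, false, false => dgUCFnvAmB p M T C
  | false, false, true, true => dgUCFnvBpA p M T C
  | false, false, true, false => dgUCFnvBpB p M T C
  | false, false, false, true => dgUCFnvBmA p M T C
  | false, false, false, false => dgUCFnvBmB p M T C

/-- the sum -/
noncomputable def UsF (far lv sg bd : Bool) (p : Pm) (M : NdU) (T : Th) (C : CvP) : Fn3 :=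
  match far, lv, sg, bd with
  | true, true, true, true => dgUCSfApA p M T C
  | true, true, true, false => dgUCSfApB p M T C
  | true, true, false, true => dgUCSfAmA p M T C
  | true, true, false, false => dgUCSfAmB p M T C
  | true, false, true, true => dgUCSfBpA p M T C
  | true, false, true, false => dgUCSfBpB p M T C
  | true, false, false, true => dgUCSfBmA p M T C
  | true, false, false, false => dgUCSfBmB p M T C
  | false, true, true, true => dgUCSnApA p M T C
  | false, true, true, false => dgUCSnApB p M T C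
  | false, true, false, true => dgUCSnAmA p M T C
  | false, true, false, false => dgUCSnAmB p M T C
  | false, false, true, true => dgUCSnBpA p M T C
  | false, false, true, false => dgUCSnBpB p M T C
  | false, false, false, true => dgUCSnBmA p M T C
  | false, false, false, false => dgUCSnBmB p M T C

section

variable {far : Bool} {N0 : ℕ} {p : Pm} {T : Th} {M : NdU} {C : CvP} {t b x : ℝ}

/-- The numbers of a row from the parameters. -/
noncomputable def dtU (far : Bool) (N0 : ℕ) (p : Pm) (M : NdU) (T : Th) (C : CvP) (t b x : ℝ) :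
    DtC :=
  ⟨far, N0, dgCv.v t b, dgw.v t, x, dgp.v x, dgq1.v x, p.c0.v x, (dgCr1 p).v t b x,
    (dgCK p C).v t b x, (dgUCrw p M T).v t b x, (dgCrv p T C).v t b x, (dgCl1 p).v t b x,
    (dgCL C).v t b x, (dgUClw p M T).v t b x, (dgClv p T C).v t b x, dgCew.v t b,
    (dgCev C).v t b⟩

theorem UsF_v (far lv sg bd : Bool) : (UsF far lv sg bd p M T C).v t b x =
    dgtg.v t * (UwF far lv sg bd p M T C).v t b x + b * (UvF far lv sg bd p M T C).v t b x := by
  cases far <;> cases lv <;> cases sg <;> cases bd <;> rfl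

theorem UW_v : dgCWpA.v t b x = (dtU far N0 p M T C t b x).W true true ∧
    dgCWpB.v t b x = (dtU far N0 p M T C t b x).W true false ∧
    dgCWmA.v t b x = (dtU far N0 p M T C t b x).W false true ∧
    dgCWmB.v t b x = (dtU far N0 p M T C t b x).W false false := by
  refine ⟨?_, ?_, ?_, ?_⟩ <;>
    simp only [dtU, DtC.W, DtC.lam, dgCWpA, dgCWpB, dgCWmA, dgCWmB, dgCrr, cond_true,
      cond_false] <;> push_cast <;> ring

theorem UwF_v (hf : p.Fit far N0 x) (lv sg bd : Bool) : (UwF far lv sg bd p M T C).v t b x =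
    (dtU far N0 p M T C t b x).Fw lv sg bd := by
  obtain ⟨w1, w2, w3, w4⟩ := UW_v (far := far) (N0 := N0) (p := p) (T := T) (M := M) (C := C)
    (t := t) (b := b) (x := x)
  generalize hD : dtU far N0 p M T C t b x = D at *
  have e1 : D.R2 = (dgCR2 p C).v t b x := by
    rw [← hD]
    simp only [dtU, DtC.R2, dgCR2]
  have e2 : D.dw = (dgUCdw p M T).v t b x := by
    rw [← hD]
    simp only [dtU, DtC.dw, dgUCdw]
  have e3 : D.mw = (dgUCmw p M T).v t b x := by
    rw [← hD]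
    simp only [dtU, DtC.mw, dgUCmw]
  have e4 : D.l1 = (dgCl1 p).v t b x := by rw [← hD]; rfl
  have e5 : D.lW = (dgUClw p M T).v t b x := by rw [← hD]; rfl
  have e6 : D.ew = dgCew.v t b := by rw [← hD]; rfl
  have e7 : D.y = dgCy1.v t b := by
    rw [← hD]
    simp only [dtU, DtC.y, DtC.s, dgCy1, dgCs]
    push_cast
    ring
  have e7' : D.y' = dgCy2.v t b := by
    rw [← hD]
    simp only [dtU, DtC.y', dgCy2]
    push_cast
    ring
  have e8 : 2 * dgCy2.v t b + dgCy1.v t b = dgCyq.v t b := by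
    simp only [dgCyq]
    push_cast
    ring
  have e9 : 2 - D.w = dgu.v t := by
    rw [← hD]
    simp only [dtU, dgu]
    push_cast
    ring
  have e10 : D.p = dgp.v x := by rw [← hD]; rfl
  have e11 : D.q = dgq1.v x := by rw [← hD]; rfl
  have e12 : D.far = far := by rw [← hD]; rfl
  have e13 : (D.N0 : ℝ) + D.x = p.nx.v x := by rw [hf.nx, ← hD]; rfl
  have e14 : mun D.N0 D.x = mun N0 x := by rw [← hD]; rfl
  cases far
  · have hm := hf.mu rfl
    cases lv <;> cases sg <;> cases bd <;>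
      simp only [cond_true, cond_false, UwF, DtC.Fw, DtC.Kw, DtC.pb, DtC.sn, e1, e2, e3, e4, e5,
        e6, e7, e7', e8, e9, e10, e11, e12, e13, e14, ← w1, ← w2, ← w3, ← w4, ← hm,
        dgUCFnwApA, dgUCFnwApB, dgUCFnwAmA, dgUCFnwAmB, dgUCFnwBpA, dgUCFnwBpB, dgUCFnwBmA, dgUCFnwBmB, dgUCLnwA, dgUCLnwB] <;>
      push_cast <;> ring
  · cases lv <;> cases sg <;> cases bd <;>
      simp only [cond_true, cond_false, UwF, DtC.Fw, DtC.Kw, DtC.pb, DtC.sn, e1, e2, e3,
        e6, e10, e11, e12, ← w1, ← w2, ← w3, ← w4, dgUCFfwApA, dgUCFfwApB, dgUCFfwAmA, dgUCFfwAmB, dgUCFfwBpA, dgUCFfwBpB, dgUCFfwBmA, dgUCFfwBmB, dgUCLfwA, dgUCLfwB] <;>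
      push_cast <;> ring

theorem UvF_v (hf : p.Fit far N0 x) (hw : dgw.v t = t * dgtg.v t) (lv sg bd : Bool) :
    (UvF far lv sg bd p M T C).v t b x = (dtU far N0 p M T C t b x).Fv lv sg bd := by
  obtain ⟨w1, w2, w3, w4⟩ := UW_v (far := far) (N0 := N0) (p := p) (T := T) (M := M) (C := C)
    (t := t) (b := b) (x := x)
  generalize hD : dtU far N0 p M T C t b x = D at *
  have e1 : D.R3 = (dgUCR3 p M T C).v t b x := by
    rw [← hD]
    simp only [dtU, DtC.R3, dgUCR3, hw, dgCv]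
    ring
  have e2 : D.dv = (dgCdv p T C).v t b x := by
    rw [← hD]
    simp only [dtU, DtC.dv, dgCdv]
  have e3 : D.mv = (dgCmv p T C).v t b x := by
    rw [← hD]
    simp only [dtU, DtC.mv, dgCmv]
  have e4 : D.l1 = (dgCl1 p).v t b x := by rw [← hD]; rfl
  have e5 : D.lV = (dgClv p T C).v t b x := by rw [← hD]; rfl
  have e5' : D.CL = (dgCL C).v t b x := by rw [← hD]; rfl
  have e6 : D.ev = (dgCev C).v t b := by rw [← hD]; rfl
  have e7 : D.y = dgCy1.v t b := by
    rw [← hD]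
    simp only [dtU, DtC.y, DtC.s, dgCy1, dgCs]
    push_cast
    ring
  have e7' : D.y' = dgCy2.v t b := by
    rw [← hD]
    simp only [dtU, DtC.y', dgCy2]
    push_cast
    ring
  have e8 : 2 * dgCy2.v t b + dgCy1.v t b = dgCyq.v t b := by
    simp only [dgCyq]
    push_cast
    ring
  have e8' : 2 * dgCy1.v t b + dgCy2.v t b = dgCyy.v t b := by
    simp only [dgCyy]
    push_cast
    ring
  have e9 : 2 - D.w = dgu.v t := by
    rw [← hD]
    simp only [dtU, dgu]
    push_cast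
    ring
  have e10 : D.p = dgp.v x := by rw [← hD]; rfl
  have e11 : D.q = dgq1.v x := by rw [← hD]; rfl
  have e12 : D.far = far := by rw [← hD]; rfl
  have e13 : (D.N0 : ℝ) + D.x = p.nx.v x := by rw [hf.nx, ← hD]; rfl
  have e14 : mun D.N0 D.x = mun N0 x := by rw [← hD]; rfl
  cases far
  · have hm := hf.mu rfl
    cases lv <;> cases sg <;> cases bd <;>
      simp only [cond_true, cond_false, UvF, DtC.Fv, DtC.Kv, DtC.pb, DtC.sn, e1, e2, e3, e4, e5,
        e5', e6, e7, e7', e8, e8', e9, e10, e11, e12, e13, e14, ← w1, ← w2, ← w3, ← w4, ← hm,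
        dgUCFnvApA, dgUCFnvApB, dgUCFnvAmA, dgUCFnvAmB, dgUCFnvBpA, dgUCFnvBpB, dgUCFnvBmA, dgUCFnvBmB, dgCLnvA, dgCLnvB] <;>
      push_cast <;> ring
  · cases lv <;> cases sg <;> cases bd <;>
      simp only [cond_true, cond_false, UvF, DtC.Fv, DtC.Kv, DtC.pb, DtC.sn, e1, e2, e3,
        e6, e10, e11, e12, ← w1, ← w2, ← w3, ← w4, dgUCFfvApA, dgUCFfvApB, dgUCFfvAmA, dgUCFfvAmB, dgUCFfvBpA, dgUCFfvBpB, dgUCFfvBmA, dgUCFfvBmB, dgCLfvA, dgCLfvB] <;>
      push_cast <;> ring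

end

section

variable {n : ℕ} {P : Pos n} {RK RL RU : Fin (n + 1) → ℕ → ℝ → ℝ → ℝ} {pc : ℕ → Piece} {p : Pm}
  {q : Pu} {T : Th} {V : Tu} {far : Bool} {N0 D D3 W1 W2 P3 W3 : ℕ}
  {x κ y y' t b Tv TL TC e mo : ℝ} {i : Fin n} {m : Fin (n + 1)} {A B : Sd} {G H : Su} {M : NdU}
  {C : CvP} {K : Fn2}

/-- the slope of the third kernel on the third side -/
def GuOk (V : Tu) (A B : Sd) (G H : Su) : Prop :=
  ∀ t x, V.gc.v t x = (H.d.v t x - G.d.v t x) * (B.ch.v t - A.ch.v t)⁻¹

/-- the eight inequalities, type `C` -/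
def IneqU (far : Bool) (p : Pm) (M : NdU) (T : Th) (C : CvP) (t b x : ℝ) : Prop :=
  ∀ lv sg bd, 0 ≤ dgtg.v t * (UwF far lv sg bd p M T C).v t b x +
    b * (UvF far lv sg bd p M T C).v t b x

/-- the values of a point, type `C` -/
structure VlU (E : DtC) (P : Pos n) (RK RL : Fin (n + 1) → ℕ → ℝ → ℝ → ℝ) (m : Fin (n + 1))
    (x y y' Tv TL : ℝ) : Prop where
  ok : E.Ok (ken E.x)
  ey : E.y = y
  ey' : E.y' = y'
  R1 : E.R1 = RK 0 1 y x
  R2 : E.R2 = -RK m 2 y' x
  R3 : E.R3 = Tv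
  L1 : E.L1 = RL 0 1 y x
  L2 : E.L2 = -RL m 2 y' x
  L3 : E.L3 = TL
  ex : E.ex = exn' (c1n y) (c1n y - crv P m 2 y') y (y + y')

theorem clo_eq (hN : P.ρ m ≤ 1) (hs : ∀ u, M.sc.v u = P.ρ m * u)
    (h : PcOk P RK RL far N0 p D D3 x y y' t b) :
    crv P m 3 (y + y') = dgw.v t * (dgUClo M).v t := by
  obtain ⟨e1, e2, e3, e4, e5, e6⟩ := h.co
  obtain ⟨t0, tt, tb, f, TT, x0, x1, q1, q2, q3, i1, i2, i3, hD⟩ := id h
  have hx := dgxw_v (w := 2 - (y + y')) (by linarith [q3.2]) (by linarith [q3.1])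
  rw [show 2 - (2 - (y + y')) = y + y' by ring] at hx
  have e : (dgUClo M).v t = M.sc.v (dgxw.v (dgw.v t)) := rfl
  rw [crv3_left hN q3, hx, e, hs, e2]
  ring

theorem PcOk.vU (h : PcOk P RK RL far N0 p D D3 x y y' t b) (hC : CvOk P RK RL p C m D x)
    (hN : NuL P RK RL M i.castSucc D3 x) (hB : SdOk P RK RL p B i.succ D3 x)
    (hG : GrOk T (ndUL p M) B)
    (c1 : crv P i.castSucc 3 (y + y') ≤ c1n y - crv P m 2 y')
    (c2 : c1n y - crv P m 2 y' ≤ crv P i.succ 3 (y + y'))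
    (l1 : Lin (crv P i.castSucc 3 (y + y')) (crv P i.succ 3 (y + y'))
      (RK i.castSucc 3 (y + y') x) (RK i.succ 3 (y + y') x) (c1n y - crv P m 2 y') Tv)
    (l2 : Lin (crv P i.castSucc 3 (y + y')) (crv P i.succ 3 (y + y'))
      (RL i.castSucc 3 (y + y') x) (RL i.succ 3 (y + y') x) (c1n y - crv P m 2 y') TL) :
    VlU (dtU far N0 p M T C t b x) P RK RL m x y y' Tv TL := by
  obtain ⟨e1, e2, e3, e4, e5, e6⟩ := h.co
  obtain ⟨X1, X2⟩ := h.X hC
  have R1' := h.R1
  have L1' := h.L1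
  have hlo := clo_eq hN.hj hN.sc h
  obtain ⟨t0, tt, tb, f, TT, x0, x1, q1, q2, q3, i1, i2, i3, hD⟩ := id h
  have v0 : 0 ≤ dgCv.v t b := by rw [e1]; linarith [q2.1]
  have v1 : dgCv.v t b < (D : ℝ) / S := by rw [e1]; exact (abs_lt.1 i2).2
  obtain ⟨m1, m2, m3⟩ := hC v0 v1
  rw [show 1 + dgCv.v t b = y' by rw [e1]; ring] at m1 m2 m3
  obtain ⟨a1, a2, a3⟩ := hN.sd (p := p) q3 i3 tt t0
  obtain ⟨b1, b2, b3⟩ := hB q3 i3 tt t0
  have r1 := lin_gr t0 a1 b1 a2 b2 c1 c2 l1
  have r2 := lin_gr t0 a1 b1 a3 b3 c1 c2 l2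
  rw [← hG.r] at r1
  rw [← hG.l] at r2
  have kK := hN.K q3 i3 tt e2
  have kL := hN.L q3 i3 tt e2
  obtain ⟨E, hE⟩ : ∃ E, E = dtU far N0 p M T C t b x := ⟨_, rfl⟩
  rw [← hE]
  have O : E.Ok (ken E.x) := by
    have hk : 0 ≤ esn x := by
      have hc : 1 - x / 2 ≤ c1n x := by
        unfold c1n
        apply Real.le_sqrt_of_sq_le
        nlinarith
      unfold esn
      linarith
    have h1x : 0 < 1 - x := by linarith
    rw [hE]
    refine ⟨v0, ?_, x0.le, x1.le, ?_, ?_, ?_, ?_⟩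
    · show 0 ≤ dgw.v t
      rw [e2]
      linarith [q3.2]
    · show dgCv.v t b + dgw.v t ≤ 1
      rw [e1, e2]
      linarith [q1.1]
    · show 0 ≤ ken x
      unfold ken
      positivity
    · show ken x * (1 - x) = 2 * dgp.v x
      rw [dgp_v]
      unfold ken
      field_simp
    · show ken x * x = 2 * dgq1.v x
      rw [dgq1_v]
      unfold ken
      field_simp
  have hs : dgCs.v t b = dgw.v t + dgCv.v t b := rfl
  have es : E.s = dgCs.v t b := by rw [hE]; rfl
  have eGr : (dgCGr p T).v t x = p.c0.v x / 2 + t * T.gr.v t x := rfl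
  have eGl : (dgCGl p T).v t x = (dga3c p).v x + t * T.gl.v t x := rfl
  rw [← eGr, X2, hlo] at r1
  rw [← eGl, X2, hlo] at r2
  rw [hlo] at kK kL
  refine ⟨O, ?_, ?_, ?_, ?_, ?_, ?_, ?_, ?_, ?_⟩
  · have : E.y = 1 - E.s := rfl
    rw [this, es, e3]
    ring
  · rw [hE]
    show 1 + dgCv.v t b = y'
    rw [e1]
    ring
  · rw [R1', hE]
    show p.c0.v x / 2 + (dgw.v t + dgCv.v t b) * (dgCr1 p).v t b x = _
    rw [hs]
  · rw [m2, hE]
    have e : (dgCK p C).v t b x = C.Bs.v (dgCv.v t b) x / 2 - C.xs.v (dgCv.v t b) *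
      (p.c0.v x + dgCv.v t b * C.Bs.v (dgCv.v t b) x) := rfl
    show -(p.c0.v x / 2 + dgCv.v t b * (dgCK p C).v t b x) = _
    rw [e]
    ring
  · rw [r1, kK, hE]
    have u1 : (dgUCrw p M T).v t b x = (dgUClo M).v t * M.B.v t x +
      (dgCP.v t b - (dgUClo M).v t) * (dgCGr p T).v t x := rfl
    have u2 : (dgCrv p T C).v t b x = (dgCz C).v t b * (dgCGr p T).v t x := rfl
    show dgw.v t * (dgUCrw p M T).v t b x + dgCv.v t b * (dgCrv p T C).v t b x = _
    rw [u1, u2]
    ring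
  · rw [L1', hE]
    show (dgw.v t + dgCv.v t b) * (dgCl1 p).v t b x = _
    rw [hs]
  · rw [m3, hE]
    have e : (dgCL C).v t b x = -((1 / 2 - dgCv.v t b * C.xs.v (dgCv.v t b)) *
      C.sX.v (dgCv.v t b) x) := by
      simp only [dgCL, dgCX2, dgCx]
      push_cast
      ring
    show dgCv.v t b * (dgCL C).v t b x = _
    rw [e]
    ring
  · rw [r2, kL, hE]
    have u1 : (dgUClw p M T).v t b x = (dgUClo M).v t * M.X.v t x +
      (dgCP.v t b - (dgUClo M).v t) * (dgCGl p T).v t x := rfl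
    have u2 : (dgClv p T C).v t b x = (dgCz C).v t b * (dgCGl p T).v t x := rfl
    show dgw.v t * (dgUClw p M T).v t b x + dgCv.v t b * (dgClv p T C).v t b x = _
    rw [u1, u2]
    ring
  · have u1 : dgCew.v t b = ((1 + dgCv.v t b) * dgCP.v t b - 1 / 2) / 2 := by
      simp only [dgCew]
      push_cast
      ring
    have u2 : (dgCev C).v t b = ((1 + dgCv.v t b) * dgCP.v t b - (1 - dgCs.v t b) *
      C.xs.v (dgCv.v t b)) / 2 := by
      simp only [dgCev, dgCx]
      push_cast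
      ring
    have hz : (dgCz C).v t b = dgCP.v t b + C.xs.v (dgCv.v t b) := rfl
    have u3 : E.ex = dgw.v t * dgCew.v t b + dgCv.v t b * (dgCev C).v t b := by
      rw [hE]
      rfl
    have u4 : y + y' = 2 - dgw.v t := by rw [e2]; ring
    have u5 : y = 1 - dgCs.v t b := by rw [e3]; ring
    rw [u3, u1, u2]
    unfold exn'
    rw [X2, u4, hz, e4]
    rw [hs] at u5 ⊢
    rw [u5]
    ring

theorem dtU_F (h : PcOk P RK RL far N0 p D D3 x y y' t b) (lv sg bd : Bool) :
    (dtU far N0 p M T C t b x).F lv sg bd = t * (dgtg.v t * (UwF far lv sg bd p M T C).v t b x +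
      b * (UvF far lv sg bd p M T C).v t b x) := by
  rw [UwF_v h.f, UvF_v h.f rfl]
  have u1 : (dtU far N0 p M T C t b x).w = t * dgtg.v t := rfl
  have u2 : (dtU far N0 p M T C t b x).v = t * b := rfl
  have u3 : (dtU far N0 p M T C t b x).F lv sg bd = (dtU far N0 p M T C t b x).w *
    (dtU far N0 p M T C t b x).Fw lv sg bd + (dtU far N0 p M T C t b x).v *
    (dtU far N0 p M T C t b x).Fv lv sg bd := rfl
  rw [u3, u1, u2]
  ring

/-- **Type `C`**, first vertex. -/
theorem PcOk.tU (h : PcOk P RK RL far N0 p D D3 x y y' t b) (hC : CvOk P RK RL p C m D x)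
    (hN : NuL P RK RL M i.castSucc D3 x) (hB : SdOk P RK RL p B i.succ D3 x)
    (hG : GrOk T (ndUL p M) B)
    (c1 : crv P i.castSucc 3 (y + y') ≤ c1n y - crv P m 2 y')
    (c2 : c1n y - crv P m 2 y' ≤ crv P i.succ 3 (y + y'))
    (l1 : Lin (crv P i.castSucc 3 (y + y')) (crv P i.succ 3 (y + y'))
      (RK i.castSucc 3 (y + y') x) (RK i.succ 3 (y + y') x) (c1n y - crv P m 2 y') Tv)
    (l2 : Lin (crv P i.castSucc 3 (y + y')) (crv P i.succ 3 (y + y'))
      (RL i.castSucc 3 (y + y') x) (RL i.succ 3 (y + y') x) (c1n y - crv P m 2 y') TL)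
    (H : IneqU far p M T C t b x) :
    Con12 far N0 .npn y y' x (c1n y) (c1n y - crv P m 2 y') (RK 0 1 y x) (-RK m 2 y' x) Tv
      (RL 0 1 y x) (-RL m 2 y' x) TL := by
  have W := h.vU hC hN hB hG c1 c2 l1 l2
  have HF : ∀ lv sg bd, 0 ≤ (dtU far N0 p M T C t b x).F lv sg bd := fun lv sg bd => by
    rw [dtU_F h]
    exact mul_nonneg h.t0.le (H lv sg bd)
  have k := DtC.con W.ok (X12 := c1n y) (X13 := c1n y - crv P m 2 y')
    (by rw [W.ey, W.ey']; exact W.ex) HF
  rw [W.R1, W.R2, W.R3, W.L1, W.L2, W.L3, W.ey, W.ey'] at k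
  exact k

/-! ### The third kernel, type `C` -/

theorem PcOk.C1 (h : PcOk P RK RL far N0 p D D3 x y y' t b) (U : TabU RU q D x) :
    RU 0 1 y x = dgCs.v t b * (dgCc1 q).v t b x := by
  obtain ⟨e1, e2, e3, e4, e5, e6⟩ := h.co
  have k := U.u1 h.q1 h.i1 e5
  have e : (dgCc1 q).v t b x = q.s1.v x * dgCe.v t b +
    (sfn q.l1).v (dgCh.v t b) (dgCs.v t b) x := rfl
  have hs := sfn_v q.l1 (h := dgCh.v t b) (t := dgCs.v t b) (x := x) (fun h0 => by
    rw [Ch_v, h0, zero_mul])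
  have hh := Ch_v (t := t) (b := b)
  rw [k, e, ← hs]
  linear_combination q.s1.v x * hh

theorem lin_gu {a0 a1 r0 r1 c X X0 X1 K0 K1 Z : ℝ} (t0 : 0 < t) (e0 : X0 = t * a0)
    (e1 : X1 = t * a1) (k0 : K0 = t * (a0 * c + t * r0)) (k1 : K1 = t * (a1 * c + t * r1))
    (c1 : X0 ≤ X) (c2 : X ≤ X1) (l : Lin X0 X1 K0 K1 X Z) :
    Z = K0 + (c + t * ((r1 - r0) * (a1 - a0)⁻¹)) * (X - X0) := lin_gr t0 e0 e1 k0 k1 c1 c2 l

/-- the inequalities, type `C`, second vertex -/
def IneqCW (p : Pm) (q : Pu) (M : NdU) (T : Th) (V : Tu) (C : CvP) (K : Fn2) (t b x : ℝ) :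
    Prop :=
  ∀ lv sg bd, q.mo.v x * wdR ((dgtg.v t + b) * (dgCc1 q).v t b x) (b * (dgCC2 C K).v t b x)
    (dgtg.v t * (dgCcw q M V).v t b x + b * (dgCcv q V C).v t b x) ≤
    dgtg.v t * (UwF false lv sg bd p M T C).v t b x +
    b * (UvF false lv sg bd p M T C).v t b x

/-- **Type `C`**, second vertex. -/
theorem PcOk.tCW (h : PcOk P (scK e RK) RL false N0 p D D3 x y y' t b) (he : 0 < e)
    (hC : CvOk P (scK e RK) RL p C m D x) (hU : CvU RU C K m D x)
    (hN : NuL P (scK e RK) RL M i.castSucc D3 x) (hNC : NuLC P RU M i.castSucc D3 x)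
    (hB : SdOk P (scK e RK) RL p B i.succ D3 x) (hH : SuOk RU q B H i.succ D3 x)
    (hG : GrOk T (ndUL p M) B) (hGu : GuOk V (ndUL p M) B (suL q M) H) (U : TabU RU q D x)
    (hm : q.mo.v x = mo)
    (c1 : crv P i.castSucc 3 (y + y') ≤ c1n y - crv P m 2 y')
    (c2 : c1n y - crv P m 2 y' ≤ crv P i.succ 3 (y + y'))
    (l1 : Lin (crv P i.castSucc 3 (y + y')) (crv P i.succ 3 (y + y'))
      (RK i.castSucc 3 (y + y') x) (RK i.succ 3 (y + y') x) (c1n y - crv P m 2 y') Tv)
    (l2 : Lin (crv P i.castSucc 3 (y + y')) (crv P i.succ 3 (y + y'))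
      (RL i.castSucc 3 (y + y') x) (RL i.succ 3 (y + y') x) (c1n y - crv P m 2 y') TL)
    (l3 : Lin (crv P i.castSucc 3 (y + y')) (crv P i.succ 3 (y + y'))
      (RU i.castSucc 3 (y + y') x) (RU i.succ 3 (y + y') x) (c1n y - crv P m 2 y') TC)
    (H : IneqCW p q M T V C K t b x) :
    Con12W N0 e mo .npn y y' x (c1n y) (c1n y - crv P m 2 y') (RK 0 1 y x) (-RK m 2 y' x) Tv
      (RL 0 1 y x) (-RL m 2 y' x) TL (RU 0 1 y x) (-RU m 2 y' x) TC := by
  have W := h.vU hC hN hB hG c1 c2 (lin_sc (e := e) l1) l2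
  obtain ⟨e1, e2, e3, e4, e5, e6⟩ := h.co
  obtain ⟨X1, X2⟩ := h.X hC
  have hlo := clo_eq hN.hj hN.sc h
  have C1 := h.C1 U
  obtain ⟨t0, tt, tb, f, TT, x0, x1, q1, q2, q3, i1, i2, i3, hD⟩ := id h
  have v0 : 0 ≤ dgCv.v t b := by rw [e1]; linarith [q2.1]
  have v1 : dgCv.v t b < (D : ℝ) / S := by rw [e1]; exact (abs_lt.1 i2).2
  have m4 := hU v0 v1
  rw [show 1 + dgCv.v t b = y' by rw [e1]; ring] at m4
  obtain ⟨a1, -, -⟩ := hN.sd (p := p) q3 i3 tt t0
  obtain ⟨b1, -, -⟩ := hB q3 i3 tt t0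
  have a2 := (hNC.su (p := p) (q := q) hN.hj hN.sc) q3 i3 tt t0
  have b2 := hH q3 i3 tt t0
  have r3 := lin_gr t0 a1 b1 a2 b2 c1 c2 l3
  rw [← hGu] at r3
  have kC := hNC q3 i3 tt e2
  have eGc : (dgCGc q V).v t x = (dgsl3 q).v x + t * V.gc.v t x := rfl
  rw [← eGc, X2, hlo] at r3
  rw [hlo] at kC
  have hs : dgCs.v t b = dgw.v t + dgCv.v t b := rfl
  have C2 : -RU m 2 y' x = dgCv.v t b * (dgCC2 C K).v t b x := by
    have e : (dgCC2 C K).v t b x = -((1 / 2 - dgCv.v t b * C.xs.v (dgCv.v t b)) *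
      K.v (dgCv.v t b) x) := by
      simp only [dgCC2, dgCX2, dgCx]
      push_cast
      ring
    rw [m4, e]
    ring
  have C3 : TC = dgw.v t * (dgCcw q M V).v t b x + dgCv.v t b * (dgCcv q V C).v t b x := by
    have u1 : (dgCcw q M V).v t b x = (dgUClo M).v t * M.D.v t x +
      (dgCP.v t b - (dgUClo M).v t) * (dgCGc q V).v t x := rfl
    have u2 : (dgCcv q V C).v t b x = (dgCz C).v t b * (dgCGc q V).v t x := rfl
    rw [r3, kC, u1, u2]
    ring
  have u1 : dgw.v t = t * dgtg.v t := rfl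
  have u2 : dgCv.v t b = t * b := rfl
  have HF : ∀ lv sg bd, mo * wdR (RU 0 1 y x) (-RU m 2 y' x) TC ≤
      (dtU false N0 p M T C t b x).F lv sg bd := fun lv sg bd => by
    rw [dtU_F h, C1, C2, C3, hs, u1, u2, ← hm]
    refine le_trans (le_of_eq ?_) (mul_le_mul_of_nonneg_left (H lv sg bd) t0.le)
    rw [show (t * dgtg.v t + t * b) * (dgCc1 q).v t b x = t * ((dgtg.v t + b) *
      (dgCc1 q).v t b x) by ring, show t * b * (dgCC2 C K).v t b x = t * (b *
      (dgCC2 C K).v t b x) by ring, show t * dgtg.v t * (dgCcw q M V).v t b x +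
      t * b * (dgCcv q V C).v t b x = t * (dgtg.v t * (dgCcw q M V).v t b x +
      b * (dgCcv q V C).v t b x) by ring, wdR_smul t0.le]
    ring
  have k := DtC.conW (X12 := c1n y) (X13 := c1n y - crv P m 2 y') rfl W.ok he
    (by rw [W.ey, W.ey']; exact W.ex) W.R1 (R2 := -RK m 2 y' x)
    (W.R2.trans (by show -(e * RK m 2 y' x) = _; ring)) W.R3 HF
  rw [W.L1, W.L2, W.L3, W.ey, W.ey'] at k
  exact k

/-! ### The exact flux -/

/-- the second inequality with the exact flux, divided by `1 - b` -/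
noncomputable def QxF (lv sg : Bool) (p : Pm) (T : Th) : Fn7 :=
  match lv, sg with
  | true, true => dgQxAp p T
  | true, false => dgQxAm p T
  | false, true => dgQxBp p T
  | false, false => dgQxBm p T

theorem exF_tight {sa mp cp cm : ℝ} (t0 : t ≠ 0) (t1 : t ^ 2 ≤ 1) (q4 : qv t b ≤ 4)
    (n1 : 1 - dgh1.v t b ≠ 0) (n3 : 1 - dgh3.v t ≠ 0) (H : Tg p T x) (W : Dv p t b x sa mp cp cm)
    (hf : p.Fit true N0 x) (b1 : b ≤ 1) (lv sg : Bool)
    (k : 0 < (QxF lv sg p T).v t b x sa mp cp cm) : (datA true N0 p T t b x).ExF lv sg := by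
  have h1 := l1_tight t0 H W
  have h2 := d1_tight t0 t1 q4 n1 n3 H W
  have h3 := om_tight t0 t1 q4 n3 H W
  have h4 := dgE2_v t b
  obtain ⟨E, hE⟩ : ∃ E, E = datA true N0 p T t b x := ⟨_, rfl⟩
  rw [← hE]
  obtain ⟨c, hc⟩ : ∃ c, c = t ^ 2 * (1 - b) := ⟨_, rfl⟩
  have c0 : 0 ≤ c := by
    rw [hc]
    exact mul_nonneg (sq_nonneg t) (by linarith)
  have hd0 : E.d0 = 0 := by
    rw [hE]
    show (p.k12.v x - p.k23.v x) / 3 = 0
    rw [hf.far rfl]
    ring
  have hd1 : E.d1 = (1 - b) * (dgdq p T).v t b x cp cm := by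
    rw [← h2, hE]
    rfl
  have hdl : E.dl = 0 := by rw [hE]; rfl
  have ht : E.t = t := by rw [hE]; rfl
  have hb : E.b = b := by rw [hE]; rfl
  have eD : E.R3 - E.R1 - E.R2 = c * (dgdq p T).v t b x cp cm := by
    have : E.R3 - E.R1 - E.R2 = E.t * (E.b * E.d0) + E.t ^ 2 * E.d1 + E.t * E.dl * E.dd := by
      unfold Dat.R1 Dat.R2 Dat.R3 Dat.d0 Dat.d1 Dat.dd Dat.r2
      ring
    rw [this, hd0, hd1, hdl, ht, hc]
    ring
  have eO : E.OM = c * (dgomq p T).v t b x cm := by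
    have e1 : E.OM = E.t ^ 2 * E.om1 + E.t * E.dl * E.omd := by
      unfold Dat.OM Dat.om1 Dat.omd Dat.R2 Dat.R3
      ring
    have e2 : E.om1 = (dgom p T).v t b x := by
      rw [hE]
      simp only [datA, dat, Dat.om1, Dat.r2, dgom, dgom_12]
      push_cast
      ring
    rw [e1, e2, h3, hdl, ht, hc]
    ring
  have er : E.rs = dgrr.v t b := by
    rw [hE]
    simp only [datA, dat, Dat.rs, dgrr, dgv, dgw, dgtg]
    ring
  have el : E.la sg = cond sg (dgv.v t b) (dgw.v t) := by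
    rw [hE]
    cases sg
    · simp only [datA, dat, Dat.la, dgw, dgtg, cond_false]
      ring
    · simp only [datA, dat, Dat.la, dgv, cond_true]
  have eS : E.dS sg = c * Dat.sn sg ((dgdq p T).v t b x cp cm) := by
    unfold Dat.dS
    rw [eD]
    cases sg
    · simp only [Dat.sn, cond_false]
      ring
    · simp only [Dat.sn, cond_true]
  have ee : E.ex + lvl E.far E.N0 E.x E.y E.y' E.L1 E.L2 E.L3 lv =
      c * (dgEq.v t b + Dat.sn lv ((dgLq p T).v t b x sa mp / 2)) := by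
    rw [Dat.lvl_eq lv (by rw [hE]; exact st_vt t b)]
    have e1 : E.ex = E.t * (E.t * E.E2) + E.t * E.dl * E.ee := rfl
    have e2 : E.LK0 = 0 := by rw [hE]; rfl
    have e3 : E.LK1 lv = Dat.sn lv (E.l1 / 2) := by rw [hE]; rfl
    have e4 : E.l1 = (1 - b) * (dgLq p T).v t b x sa mp := by
      rw [← h1, hE]
      rfl
    have e5 : E.E2 = dgE2.v t b := by rw [hE]; rfl
    rw [e1, e2, e3, e4, e5, h4, hdl, ht, hc]
    cases lv
    · simp only [Dat.sn, cond_false]
      ring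
    · simp only [Dat.sn, cond_true]
      ring
  have eq' : E.q = dgq1.v x := by rw [hE]; rfl
  have ex' : E.x = x := by rw [hE]; rfl
  unfold Dat.ExF
  rw [ee, eS, eO, er, el, eq', ex']
  obtain ⟨o, ho⟩ : ∃ o, o = (dgomq p T).v t b x cm := ⟨_, rfl⟩
  obtain ⟨d, hd⟩ : ∃ d, d = (1 - dgrr.v t b) * Dat.sn sg ((dgdq p T).v t b x cp cm) := ⟨_, rfl⟩
  obtain ⟨l, hl⟩ : ∃ l, l = cond sg (dgv.v t b) (dgw.v t) := ⟨_, rfl⟩
  have kk : (QxF lv sg p T).v t b x sa mp cp cm = dgEq.v t b +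
      Dat.sn lv ((dgLq p T).v t b x sa mp / 2) - dgq1.v x * ((1 - x) * d - o +
        x * dgrr.v t b * (d * o) * (d * l - o)⁻¹) := by
    rw [ho, hd, hl]
    cases lv <;> cases sg <;>
      simp only [QxF, dgQxAp, dgQxAm, dgQxBp, dgQxBm, dgQxAp_12, dgQxAm_13, dgQxBp_12, dgQxBm_13,
        Dat.sn, cond_true, cond_false] <;> push_cast <;> ring
  rw [kk] at k
  rw [← ho, ← hl]
  have a1 : (1 - dgrr.v t b) * (c * Dat.sn sg ((dgdq p T).v t b x cp cm)) = c * d := by
    rw [hd]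
    ring
  rw [a1]
  have a2 : x * dgrr.v t b * (c * d) * (c * o) / (c * d * l - c * o) =
      c * (x * dgrr.v t b * (d * o) * (d * l - o)⁻¹) := by
    rcases c0.eq_or_lt with h | h
    · rw [← h]
      simp
    · rw [show c * d * l - c * o = c * (d * l - o) by ring, div_eq_mul_inv, mul_inv]
      have : c * c⁻¹ = 1 := mul_inv_cancel₀ h.ne'
      linear_combination x * dgrr.v t b * d * c * o * (d * l - o)⁻¹ * this
  rw [a2]
  have k2 := mul_nonneg c0 k.le
  linarith

/-- the inequalities, type `A`, first vertex, the exact flux is allowed -/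
def IneqAD (N0 : ℕ) (p : Pm) (T : Th) (t b x : ℝ) : Prop :=
  ∀ lv sg bd, 0 ≤ t * (a1F true lv sg bd p T).v t b x ∨
    (bd = false ∧ (datA true N0 p T t b x).ExF lv sg)

theorem PtOk.tAD (h : PtOk P RK RL true N0 p D D3 x y y' t b) (hT : ThOk P RK RL p T i D3 x)
    (c1 : crv P i.castSucc 3 (y + y') ≤ t * b) (c2 : t * b ≤ crv P i.succ 3 (y + y'))
    (l1 : Lin (crv P i.castSucc 3 (y + y')) (crv P i.succ 3 (y + y'))
      (RK i.castSucc 3 (y + y') x) (RK i.succ 3 (y + y') x) (t * b) Tv)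
    (l2 : Lin (crv P i.castSucc 3 (y + y')) (crv P i.succ 3 (y + y'))
      (RL i.castSucc 3 (y + y') x) (RL i.succ 3 (y + y') x) (t * b) TL)
    (H : IneqAD N0 p T t b x) :
    Con12 true N0 .npn y y' x (c1n y) (t * b) (RK 0 1 y x) (-RK 0 2 y' x) Tv
        (RL 0 1 y x) (-RL 0 2 y' x) TL ∧
      Con12 true N0 .pnn y' y x (c1n y') (-(t * b)) (RK 0 2 y' x) (-RK 0 1 y x) (-Tv)
        (RL 0 2 y' x) (-RL 0 1 y x) (-TL) := by
  obtain ⟨g, f, TT, x0, x1, q1, q2, q3, i1, i2, i3, hD, hD3⟩ := id h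
  obtain ⟨hTv, hTL⟩ := hT q3 i3 g.tt g.t0 c1 c2 l1 l2
  have O : (datA true N0 p T t b x).Ok (ken (datA true N0 p T t b x).x) :=
    PtOk.ok (T := T) (dl := 0) h
  have hr : 0 < (datA true N0 p T t b x).t ^ 2 * (datA true N0 p T t b x).g := by
    show 0 < t ^ 2 * dgg.v t
    rw [dgg_v]
    have := g.t0
    have := gv_pos (t := t)
    positivity
  have ey : (datA true N0 p T t b x).y = y := g.ey.symm
  have ey' : (datA true N0 p T t b x).y' = y' := g.ey'.symm
  have R1 : (datA true N0 p T t b x).R1 = RK 0 1 y x := by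
    rw [g.R1 TT q1 i1]
    simp only [datA, dat, Dat.R1]
    ring
  have R2 : (datA true N0 p T t b x).R2 = -RK 0 2 y' x := by
    rw [g.R2 TT q2 i2]
    simp only [datA, dat, Dat.R2, Dat.r2]
    ring
  have R3 : (datA true N0 p T t b x).R3 = Tv := by
    rw [hTv]
    simp only [datA, dat, Dat.R3]
    ring
  have L1 : (datA true N0 p T t b x).L1 = RL 0 1 y x := by
    rw [g.L1 TT q1 i1]
    simp only [datA, dat, Dat.L1, Dat.a1c]
    ring
  have L2 : (datA true N0 p T t b x).L2 = -RL 0 2 y' x := by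
    rw [g.L2 TT q2 i2]
    simp only [datA, dat, Dat.L2, Dat.a2c]
    ring
  have L3 : (datA true N0 p T t b x).L3 = TL := by
    rw [hTL]
    simp only [datA, dat, Dat.L3, Dat.a3c, dga3c]
    push_cast
    ring
  have hex : (datA true N0 p T t b x).ex = exn' (c1n y) (t * b) y (y + y') := by
    unfold exn'
    rw [g.ex]
    simp only [datA, dat, Dat.ex]
    ring
  have hex' : (datA true N0 p T t b x).ex = exn' (c1n y') (-(t * b)) y' (y' + y) := by
    rw [hex]
    unfold exn'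
    have := g.tb
    linear_combination (y + y') / 2 * this
  have HF : ∀ lv sg bd, 0 ≤ (datA true N0 p T t b x).F lv sg bd ∨
      (bd = false ∧ (datA true N0 p T t b x).ExF lv sg) := by
    intro lv sg bd
    rcases H lv sg bd with h1 | h1
    · left
      have e0 := a0F_v f T t b 0 0 0 0 0 0 0 0 sg bd
      have e1 := a1F_v f T t b 0 0 0 0 0 0 0 0 lv sg bd
      rw [cond_true] at e0
      unfold Dat.F datA
      rw [e0, ← e1]
      refine h1.trans (le_of_eq ?_)
      have : (dat true N0 p T t b x 0 0 0 0 0 0 0 0).dl = 0 := rfl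
      rw [this]
      simp only [dat]
      ring
    · exact Or.inr h1
  constructor
  · have k := Dat.conD O hr (X12 := c1n y) (X13 := t * b) (by rw [ey, ey']; exact hex) HF
    rw [R1, R2, R3, L1, L2, L3, ey, ey'] at k
    exact k
  · have k := Dat.conD' O hr (X12 := c1n y') (X13 := -(t * b)) (by rw [ey, ey']; exact hex') HF
    rw [R1, R2, R3, L1, L2, L3, ey, ey', neg_neg, neg_neg] at k
    exact k

end

end Pool.Agent.Strip051.PB.Dg
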