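import Pool.Agent.Strip051.PB.DgM
import Pool.Agent.Strip051.PB.C12A

/-! # The points of the charts at the corner `(1, 1, 2)` -/

namespace Pool.Agent.Strip051.PB.Dg

open Pool.Agent.Strip051.PB
open Pool.Agent.StripNear Pool.Agent.StripSquare Pool.Agent.Strip051.Sweep
open Pool.Agent.Strip051.LC

theorem levR_lvR (far : Bool) (N0 : ℕ) (x y y' ex a b c : ℝ) :
    levR far N0 x y y' ex a b c = lvR far N0 x y y' ex a b c := by
  cases far <;> rfl

/-! ### From the row to the statement -/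

theorem Dat.con {D : Dat} (O : D.Ok (ken D.x)) {X12 X13 : ℝ}
    (hE : D.ex = exn' X12 X13 D.y (D.y + D.y')) (H : ∀ lv sg bd, 0 ≤ D.F lv sg bd) :
    Con12 D.far D.N0 .npn D.y D.y' D.x X12 X13 D.R1 D.R2 D.R3 D.L1 D.L2 D.L3 := by
  obtain ⟨γ, hγ⟩ := Dat.row O hE.le H
  refine ⟨γ, ?_⟩
  have e1 : D.y - 1 = -(D.t * D.st) := by unfold Dat.y; ring
  have e2 : D.y' - 1 = D.t * D.vt := by unfold Dat.y'; ring
  have e3 : D.y + D.y' - 2 = -(D.t ^ 2 * D.g) := by
    have := O.hst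
    unfold Dat.y Dat.y'
    linear_combination -D.t * this
  rw [levR_lvR, e1, e2, e3]
  exact hγ

theorem Dat.con' {D : Dat} (O : D.Ok (ken D.x)) {X12 X13 : ℝ}
    (hE : D.ex = exn' X12 X13 D.y' (D.y' + D.y)) (H : ∀ lv sg bd, 0 ≤ D.F lv sg bd) :
    Con12 D.far D.N0 .pnn D.y' D.y D.x X12 X13 (-D.R2) (-D.R1) (-D.R3) (-D.L2) (-D.L1)
      (-D.L3) := by
  obtain ⟨γ, hγ⟩ := Dat.row' O hE.le H
  refine ⟨γ, ?_⟩
  have e1 : D.y - 1 = -(D.t * D.st) := by unfold Dat.y; ring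
  have e2 : D.y' - 1 = D.t * D.vt := by unfold Dat.y'; ring
  have e3 : D.y' + D.y - 2 = -(D.t ^ 2 * D.g) := by
    have := O.hst
    unfold Dat.y Dat.y'
    linear_combination -D.t * this
  rw [levR_lvR, e1, e2, e3]
  exact hγ

/-! ### The numbers of a row -/

section

variable {n : ℕ} {P : Pos n} {RK RL : Fin (n + 1) → ℕ → ℝ → ℝ → ℝ} {p : Pm} {T : Th} {far : Bool}
  {N0 D D3 : ℕ} {x y y' t b dl Tv TL : ℝ} {i : Fin n} {A B : Sd}

theorem dat_ok (g : GeoOk y y' t b) (x0 : 0 < x) (x1 : x < 1) (h1 : 1 ≤ y') (h2 : y' ≤ 9 / 8)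
    (h3 : 15 / 8 ≤ y + y') {G1 G2 G3 g1 g2 g3 ee : ℝ} :
    (dat far N0 p T t b x dl G1 G2 G3 g1 g2 g3 ee).Ok (ken x) := by
  have t0 := g.t0
  have e1 : t * dgvt.v t b = y' - 1 := by linarith [g.ey']
  have e2 : t ^ 2 * dgg.v t = 2 - (y + y') := by linarith [g.eY]
  refine ⟨t0.le, x0.le, x1.le, ?_, ?_, ?_, ?_, ?_, ?_, st_vt t b⟩
  · show 0 ≤ t * dgvt.v t b
    linarith
  · show 0 ≤ dgg.v t
    rw [dgg_v]
    exact gv_pos.le
  · show t * dgvt.v t b + t ^ 2 * dgg.v t ≤ 1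
    linarith
  · have : 0 ≤ esn x := by
      have hc : 1 - x / 2 ≤ c1n x := by
        unfold c1n
        apply Real.le_sqrt_of_sq_le
        nlinarith
      unfold esn
      linarith
    unfold ken
    have : 0 < 1 - x := by linarith
    positivity
  · show ken x * (1 - x) = 2 * dgp.v x
    rw [dgp_v]
    unfold ken
    have : 1 - x ≠ 0 := by linarith
    field_simp
  · show ken x * x = 2 * dgq1.v x
    rw [dgq1_v]
    unfold ken
    have : 1 - x ≠ 0 := by linarith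
    field_simp

/-! ### The third side -/

/-- The third side on the segment `i` of the quarter `3`. -/
def ThOk (P : Pos n) (RK RL : Fin (n + 1) → ℕ → ℝ → ℝ → ℝ) (p : Pm) (T : Th) (i : Fin n)
    (D3 : ℕ) (x : ℝ) : Prop :=
  ∀ {Y t b Tv TL : ℝ}, InQ 3 Y → |Y - 2| < (D3 : ℝ) / S → t = c3n Y → 0 < t →
    crv P i.castSucc 3 Y ≤ t * b → t * b ≤ crv P i.succ 3 Y →
    Lin (crv P i.castSucc 3 Y) (crv P i.succ 3 Y) (RK i.castSucc 3 Y x) (RK i.succ 3 Y x)
      (t * b) Tv →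
    Lin (crv P i.castSucc 3 Y) (crv P i.succ 3 Y) (RL i.castSucc 3 Y x) (RL i.succ 3 Y x)
      (t * b) TL →
    Tv = t * (b * (p.c0.v x / 2) + t * T.r.v t b x) ∧
      TL = t * (b * (dga3c p).v x + t * T.l.v t b x)

theorem thLo_ok (hA : SdOk P RK RL p A i.castSucc D3 x) (hB : SdOk P RK RL p B i.succ D3 x) :
    ThOk P RK RL p (thLo A B) i D3 x := by
  intro Y t b Tv TL hq hD ht t0 c1 c2 l1 l2
  obtain ⟨a1, a2, a3⟩ := hA hq hD ht t0
  obtain ⟨b1, b2, b3⟩ := hB hq hD ht t0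
  rw [a1] at c1
  rw [b1] at c2
  have c1' : A.ch.v t ≤ b := le_of_mul_le_mul_left c1 t0
  have c2' : b ≤ B.ch.v t := le_of_mul_le_mul_left c2 t0
  unfold Lin at l1 l2
  rw [a1, a2, b1, b2] at l1
  rw [a1, a3, b1, b3] at l2
  have er : (thLo A B).r.v t b x = A.r.v t x + (B.r.v t x - A.r.v t x) *
      (B.ch.v t - A.ch.v t)⁻¹ * (b - A.ch.v t) := rfl
  have el : (thLo A B).l.v t b x = A.l.v t x + (B.l.v t x - A.l.v t x) *
      (B.ch.v t - A.ch.v t)⁻¹ * (b - A.ch.v t) := rfl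
  rw [er, el, l1, l2]
  rcases eq_or_ne (B.ch.v t) (A.ch.v t) with h | h
  · have hb : b = A.ch.v t := le_antisymm (c2'.trans h.le) c1'
    rw [h, hb]
    constructor <;> ring
  · have h' : B.ch.v t - A.ch.v t ≠ 0 := sub_ne_zero.2 h
    have e : (t * b - t * A.ch.v t) / (t * B.ch.v t - t * A.ch.v t) =
        (b - A.ch.v t) * (B.ch.v t - A.ch.v t)⁻¹ := by
      rw [← mul_sub, ← mul_sub, mul_div_mul_left _ _ t0.ne', div_eq_mul_inv]
    rw [e]
    have hi : (B.ch.v t - A.ch.v t) * (B.ch.v t - A.ch.v t)⁻¹ = 1 := mul_inv_cancel₀ h'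
    constructor
    · linear_combination t * (b - A.ch.v t) * (p.c0.v x / 2) * hi
    · linear_combination t * (b - A.ch.v t) * (dga3c p).v x * hi

theorem thUp_ok (hA : SdOk P RK RL p A i.castSucc D3 x) (hB : SdOk P RK RL p B i.succ D3 x)
    (hne : ∀ {Y : ℝ}, InQ 3 Y → Y < 2 → crv P i.castSucc 3 Y < crv P i.succ 3 Y) :
    ThOk P RK RL p (thUp A B) i D3 x := by
  intro Y t b Tv TL hq hD ht t0 c1 c2 l1 l2
  have h2 : Y < 2 := by
    rcases hq.2.lt_or_eq with h | h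
    · exact h
    · rw [h] at ht
      have : c3n 2 = 0 := Real.sqrt_eq_zero_of_nonpos (by norm_num)
      linarith
  have hlt := hne hq h2
  obtain ⟨r1, r2⟩ := thLo_ok hA hB hq hD ht t0 c1 c2 l1 l2
  obtain ⟨a1, -, -⟩ := hA hq hD ht t0
  obtain ⟨b1, -, -⟩ := hB hq hD ht t0
  rw [a1, b1] at hlt
  have h3 : A.ch.v t < B.ch.v t := lt_of_mul_lt_mul_left hlt t0.le
  have hi : (B.ch.v t - A.ch.v t) * (B.ch.v t - A.ch.v t)⁻¹ = 1 :=
    mul_inv_cancel₀ (sub_ne_zero.2 h3.ne')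
  have er : (thLo A B).r.v t b x = A.r.v t x + (B.r.v t x - A.r.v t x) *
      (B.ch.v t - A.ch.v t)⁻¹ * (b - A.ch.v t) := rfl
  have el : (thLo A B).l.v t b x = A.l.v t x + (B.l.v t x - A.l.v t x) *
      (B.ch.v t - A.ch.v t)⁻¹ * (b - A.ch.v t) := rfl
  have er' : (thUp A B).r.v t b x = B.r.v t x - (B.r.v t x - A.r.v t x) *
      (B.ch.v t - A.ch.v t)⁻¹ * (B.ch.v t - b) := rfl
  have el' : (thUp A B).l.v t b x = B.l.v t x - (B.l.v t x - A.l.v t x) *
      (B.ch.v t - A.ch.v t)⁻¹ * (B.ch.v t - b) := rfl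
  have e1 : (thUp A B).r.v t b x = (thLo A B).r.v t b x := by
    rw [er, er']
    linear_combination -(B.r.v t x - A.r.v t x) * hi
  have e2 : (thUp A B).l.v t b x = (thLo A B).l.v t b x := by
    rw [el, el']
    linear_combination -(B.l.v t x - A.l.v t x) * hi
  rw [e1, e2]
  exact ⟨r1, r2⟩

/-- The curves left of the last one are strictly left of it below the height two. -/
theorem crv_lt_last {i : Fin n} {Y : ℝ} (hq : InQ 3 Y) (h : Y < 2) :
    crv P i.castSucc 3 Y < c3n Y := by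
  obtain ⟨h1, h2⟩ := hq
  have hs := swn_sq' (Y := Y) (by nlinarith)
  have hc : c3n Y ^ 2 = 3 - 3 / 4 * Y ^ 2 := c3n_sq (by nlinarith)
  have c0 := c3n_nn Y
  have s0 : 0 ≤ swn Y := Real.sqrt_nonneg _
  have key : swn Y - 1 / 2 < c3n Y := by
    have : swn Y < c3n Y + 1 / 2 := by
      refine lt_of_pow_lt_pow_left₀ 2 (by linarith) ?_
      nlinarith
    linarith
  have hW : 0 ≤ swn Y - 1 / 2 := by
    have : 1 / 2 ≤ swn Y := by
      apply abs_le_of_sq_le_sq' (a := 1 / 2) (b := swn Y) _ s0 |>.2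
      nlinarith
    linarith
  have hρ : P.ρ i.castSucc < 2 := P.lt_two (Fin.castSucc_lt_last i).ne
  have hρ0 := P.nonneg i.castSucc
  rcases le_or_gt (P.ρ i.castSucc) 1 with h3 | h3
  · rw [crv3_left h3 ⟨h1, h2⟩]
    nlinarith
  · rw [crv3_right h3]
    nlinarith

theorem thUp_ok' (hA : SdOk P RK RL p A i.castSucc D3 x) (hB : SdOk P RK RL p B i.succ D3 x)
    (hi : P.ρ i.succ = 2) : ThOk P RK RL p (thUp A B) i D3 x := by
  refine thUp_ok hA hB fun {Y} hq h2 => ?_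
  have e : crv P i.succ 3 Y = c3n Y := by
    rw [crv3_right (by rw [hi]; norm_num), hi]
    ring
  rw [e]
  exact crv_lt_last hq h2

/-! ### Type `A` -/

/-- the numbers of a row, type `A` -/
noncomputable def datA (far : Bool) (N0 : ℕ) (p : Pm) (T : Th) (t b x : ℝ) : Dat :=
  dat far N0 p T t b x 0 0 0 0 0 0 0 0

/-- the eight inequalities, type `A` -/
def IneqA (far : Bool) (p : Pm) (T : Th) (t b x : ℝ) : Prop :=
  ∀ lv sg bd, 0 ≤ b * cond far 0 ((a0F sg bd p).v x) + t * (a1F far lv sg bd p T).v t b x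

/-- the point of a segment in coordinates -/
structure PtOk (P : Pos n) (RK RL : Fin (n + 1) → ℕ → ℝ → ℝ → ℝ) (far : Bool) (N0 : ℕ) (p : Pm)
    (D D3 : ℕ) (x y y' t b : ℝ) : Prop where
  g : GeoOk y y' t b
  f : p.Fit far N0 x
  T : TabOk RK RL p D x
  x0 : 0 < x
  x1 : x < 1
  q1 : InQ 1 y
  q2 : InQ 2 y'
  q3 : InQ 3 (y + y')
  i1 : |y - 1| < (D : ℝ) / S
  i2 : |y' - 1| < (D : ℝ) / S
  i3 : |y + y' - 2| < (D3 : ℝ) / S
  hD : (D : ℝ) / S ≤ 1 / 8
  hD3 : (D3 : ℝ) / S ≤ 1 / 8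

theorem PtOk.ok (h : PtOk P RK RL far N0 p D D3 x y y' t b) {G1 G2 G3 g1 g2 g3 ee : ℝ} :
    (dat far N0 p T t b x dl G1 G2 G3 g1 g2 g3 ee).Ok (ken x) := by
  have a2 := abs_lt.1 h.i2
  have a3 := abs_lt.1 h.i3
  have b2 := h.q2.1
  have hD := h.hD
  have hD3 := h.hD3
  exact dat_ok h.g h.x0 h.x1 h.q2.1 (by linarith) (by linarith)

theorem PtOk.tA (h : PtOk P RK RL far N0 p D D3 x y y' t b) (hT : ThOk P RK RL p T i D3 x)
    (c1 : crv P i.castSucc 3 (y + y') ≤ t * b) (c2 : t * b ≤ crv P i.succ 3 (y + y'))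
    (l1 : Lin (crv P i.castSucc 3 (y + y')) (crv P i.succ 3 (y + y'))
      (RK i.castSucc 3 (y + y') x) (RK i.succ 3 (y + y') x) (t * b) Tv)
    (l2 : Lin (crv P i.castSucc 3 (y + y')) (crv P i.succ 3 (y + y'))
      (RL i.castSucc 3 (y + y') x) (RL i.succ 3 (y + y') x) (t * b) TL)
    (H : IneqA far p T t b x) :
    Con12 far N0 .npn y y' x (c1n y) (t * b) (RK 0 1 y x) (-RK 0 2 y' x) Tv
        (RL 0 1 y x) (-RL 0 2 y' x) TL ∧
      Con12 far N0 .pnn y' y x (c1n y') (-(t * b)) (RK 0 2 y' x) (-RK 0 1 y x) (-Tv)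
        (RL 0 2 y' x) (-RL 0 1 y x) (-TL) := by
  obtain ⟨g, f, TT, x0, x1, q1, q2, q3, i1, i2, i3, hD, hD3⟩ := id h
  obtain ⟨hTv, hTL⟩ := hT q3 i3 g.tt g.t0 c1 c2 l1 l2
  have O : (datA far N0 p T t b x).Ok (ken (datA far N0 p T t b x).x) :=
    PtOk.ok (T := T) (dl := 0) h
  have ey : (datA far N0 p T t b x).y = y := g.ey.symm
  have ey' : (datA far N0 p T t b x).y' = y' := g.ey'.symm
  have R1 : (datA far N0 p T t b x).R1 = RK 0 1 y x := by
    rw [g.R1 TT q1 i1]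
    simp only [datA, dat, Dat.R1]
    ring
  have R2 : (datA far N0 p T t b x).R2 = -RK 0 2 y' x := by
    rw [g.R2 TT q2 i2]
    simp only [datA, dat, Dat.R2, Dat.r2]
    ring
  have R3 : (datA far N0 p T t b x).R3 = Tv := by
    rw [hTv]
    simp only [datA, dat, Dat.R3]
    ring
  have L1 : (datA far N0 p T t b x).L1 = RL 0 1 y x := by
    rw [g.L1 TT q1 i1]
    simp only [datA, dat, Dat.L1, Dat.a1c]
    ring
  have L2 : (datA far N0 p T t b x).L2 = -RL 0 2 y' x := by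
    rw [g.L2 TT q2 i2]
    simp only [datA, dat, Dat.L2, Dat.a2c]
    ring
  have L3 : (datA far N0 p T t b x).L3 = TL := by
    rw [hTL]
    simp only [datA, dat, Dat.L3, Dat.a3c, dga3c]
    push_cast
    ring
  have hex : (datA far N0 p T t b x).ex = exn' (c1n y) (t * b) y (y + y') := by
    unfold exn'
    rw [g.ex]
    simp only [datA, dat, Dat.ex]
    ring
  have hex' : (datA far N0 p T t b x).ex = exn' (c1n y') (-(t * b)) y' (y' + y) := by
    rw [hex]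
    unfold exn'
    have := g.tb
    linear_combination (y + y') / 2 * this
  have HF : ∀ lv sg bd, 0 ≤ (datA far N0 p T t b x).F lv sg bd := by
    intro lv sg bd
    have h1 := H lv sg bd
    have e0 := a0F_v f T t b 0 0 0 0 0 0 0 0 sg bd
    have e1 := a1F_v f T t b 0 0 0 0 0 0 0 0 lv sg bd
    unfold Dat.F datA
    rw [e0, ← e1]
    refine h1.trans (le_of_eq ?_)
    have : (dat far N0 p T t b x 0 0 0 0 0 0 0 0).dl = 0 := rfl
    rw [this]
    simp only [dat]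
    ring
  constructor
  · have k := Dat.con O (X12 := c1n y) (X13 := t * b) (by rw [ey, ey']; exact hex) HF
    rw [R1, R2, R3, L1, L2, L3, ey, ey'] at k
    exact k
  · have k := Dat.con' O (X12 := c1n y') (X13 := -(t * b)) (by rw [ey, ey']; exact hex') HF
    rw [R1, R2, R3, L1, L2, L3, ey, ey', neg_neg, neg_neg] at k
    exact k

/-! ### Type `B` -/

theorem dgxi_v {v : ℝ} (h0 : 0 ≤ v) (h1 : v ≤ 1 / 8) : c1n (1 + v) = 1 / 2 - v * dgxi.v v := by
  have hs := c1n_sq' (y := 1 + v) (by nlinarith)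
  have s0 : 0 ≤ c1n (1 + v) := Real.sqrt_nonneg _
  have e : dgxi.v v = 3 / 4 * (2 + v) * (1 / 2 + c1n (1 + v))⁻¹ := by
    simp only [dgxi, c1n]
    push_cast
    ring_nf
  rw [e]
  obtain ⟨s, h⟩ : ∃ s, s = c1n (1 + v) := ⟨_, rfl⟩
  rw [← h] at hs s0 ⊢
  have hne : 1 / 2 + s ≠ 0 := by positivity
  field_simp
  linear_combination 16 * hs

/-- The values on the unit circle in the quarter `2` at the height `1 + v`. -/
theorem TabOk.q2 (T : TabOk RK RL p D x) {v : ℝ} (h0 : 0 ≤ v) (hv : v < (D : ℝ) / S)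
    (hD : (D : ℝ) / S ≤ 1 / 8) :
    RK 0 2 (1 + v) x = p.c0.v x / 2 + v * (dgK0c p).v v x ∧
      RL 0 2 (1 + v) x = v * (dgL0c p).v v x := by
  have hx := dgxi_v h0 (by linarith)
  have hq : InQ 2 (1 + v) := ⟨by linarith, by linarith⟩
  have ha : |1 + v - 1| < (D : ℝ) / S := by
    rw [show 1 + v - 1 = v by ring, abs_of_nonneg h0]
    exact hv
  have hh : v * dgxi.v v = 1 / 2 - c1n (1 + v) := by rw [hx]; ring
  have k := T.k2 hq ha hh
  have l := T.l2 hq ha hh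
  have e1 : dghx.v v = v * dgxi.v v := by simp only [dghx]
  constructor
  · rw [k]
    have e : (dgK0c p).v v x = -(p.c0.v x * dgxi.v v + (p.k23.v x + p.j23.v x * dghx.v v +
      (dghx.v v ^ 2 * p.c23.v x + (pfn p.l23).v (dghx.v v) x))) := rfl
    rw [e, e1]
    ring
  · rw [l]
    have e : (dgL0c p).v v x = (p.ma.v x + p.mb.v x) * dgxi.v v +
      (dgxi.v v * (dghx.v v * (p.ca.v x + p.cb.v x)) + ((sfn p.la).v (dghx.v v) v x +
        (sfn p.lb).v (dghx.v v) v x)) := rfl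
    have z : v = 0 → v * dgxi.v v ≤ 0 := fun h => by rw [h, zero_mul]
    rw [e, e1, ← sfn_v p.la (t := v) z, ← sfn_v p.lb (t := v) z]
    ring

/-- the eight inequalities, type `B` -/
def IneqB (far : Bool) (p : Pm) (A : Sd) (t b x : ℝ) : Prop :=
  ∀ lv sg bd, 0 ≤ b * cond far 0 ((a0F sg bd p).v x) + t * (a1F far lv sg bd p (thN A)).v t b x +
    (b - A.ch.v t) * (QBF far lv sg bd p).v t b x

theorem slope_aux {K0 K1 x0 x1 c v k0 k1 a0 a1 Z T : ℝ} (h0 : K0 = c + v * k0)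
    (h1 : K1 = c + v * k1) (h2 : x0 = 1 / 2 - v * a0) (h3 : x1 = 1 / 2 - v * a1)
    (c1 : x0 ≤ Z) (c2 : Z ≤ x1) (l : Lin x0 x1 K0 K1 Z T) :
    T = K0 + (k1 - k0) * (a0 - a1)⁻¹ * (Z - x0) := by
  unfold Lin at l
  rw [l]
  rcases eq_or_ne v 0 with h | h
  · have e : Z = x0 := le_antisymm (c2.trans (by rw [h2, h3, h]; linarith)) c1
    rw [e]
    ring
  · rw [h0, h1]
    have e : (Z - x0) / (x1 - x0) = (Z - x0) * (v⁻¹ * (a0 - a1)⁻¹) := by
      rw [div_eq_mul_inv, ← mul_inv]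
      congr 2
      rw [h2, h3]
      ring
    rw [e]
    have hi : v * v⁻¹ = 1 := mul_inv_cancel₀ h
    linear_combination (k1 - k0) * (Z - x0) * (a0 - a1)⁻¹ * hi

theorem PtOk.tB (h : PtOk P RK RL far N0 p D D3 x y y' t b) {j k : Fin (n + 1)}
    (hA : SdOk P RK RL p A k D3 x) (hC : CvOk P RK RL p p.cv j D x)
    (c1 : crv P 0 2 y' ≤ c1n y - crv P k 3 (y + y'))
    (c2 : c1n y - crv P k 3 (y + y') ≤ crv P j 2 y')
    (l1 : Lin (crv P 0 2 y') (crv P j 2 y') (RK 0 2 y' x) (RK j 2 y' x)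
      (c1n y - crv P k 3 (y + y')) Tv)
    (l2 : Lin (crv P 0 2 y') (crv P j 2 y') (RL 0 2 y' x) (RL j 2 y' x)
      (c1n y - crv P k 3 (y + y')) TL)
    (H : IneqB far p A t b x) :
    Con12 far N0 .npn y y' x (c1n y) (crv P k 3 (y + y')) (RK 0 1 y x) (-Tv)
      (RK k 3 (y + y') x) (RL 0 1 y x) (-TL) (RL k 3 (y + y') x) := by
  obtain ⟨g, f, TT, x0, x1, q1, q2, q3, i1, i2, i3, hD, hD3⟩ := id h
  obtain ⟨a1, a2, a3⟩ := hA q3 i3 g.tt g.t0
  have hv : dgv.v t b = t * dgvt.v t b := dgv_v t b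
  have ev : y' = 1 + dgv.v t b := by rw [hv]; exact g.ey'
  have v0 : 0 ≤ dgv.v t b := by linarith [q2.1]
  have v1 : dgv.v t b < (D : ℝ) / S := by
    have := (abs_lt.1 i2).2
    linarith
  obtain ⟨k1, k2⟩ := TT.q2 v0 v1 hD
  obtain ⟨m1, m2, m3⟩ := hC v0 v1
  have m4 := dgxi_v v0 (by linarith)
  rw [← ev] at k1 k2 m1 m2 m3 m4
  have m2' : RK j 2 y' x = p.c0.v x / 2 + dgv.v t b * (dgK2c p).v (dgv.v t b) x := by
    have e : (dgK2c p).v (dgv.v t b) x = p.cv.Bs.v (dgv.v t b) x / 2 -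
      p.cv.xs.v (dgv.v t b) * (p.c0.v x + dgv.v t b * p.cv.Bs.v (dgv.v t b) x) := by
      simp only [dgK2c]
    rw [m2, e]
    ring
  have m3' : RL j 2 y' x = dgv.v t b * (dgL2c p).v (dgv.v t b) x := by
    have e : (dgL2c p).v (dgv.v t b) x = (1 / 2 - dgv.v t b * p.cv.xs.v (dgv.v t b)) *
      p.cv.sX.v (dgv.v t b) x := by
      simp only [dgL2c]
      push_cast
      ring
    rw [m3, e]
    ring
  have r1 := slope_aux k1 m2' (crv0q.trans m4) m1 c1 c2 l1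
  have r2 := slope_aux (c := 0) (by rw [zero_add]; exact k2) (by rw [zero_add]; exact m3')
    (crv0q.trans m4) m1 c1 c2 l2
  have hZ : c1n y - crv P k 3 (y + y') - crv P 0 2 y' = t * (b - A.ch.v t) := by
    rw [a1, crv0q]
    have := g.tb
    linear_combination this
  rw [hZ] at r1 r2
  have eG : (dgG p).v t b x = ((dgK2c p).v (dgv.v t b) x - (dgK0c p).v (dgv.v t b) x) *
    (dgxi.v (dgv.v t b) - p.cv.xs.v (dgv.v t b))⁻¹ := rfl
  have eg : (dggL p).v t b x = ((dgL2c p).v (dgv.v t b) x - (dgL0c p).v (dgv.v t b) x) *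
    (dgxi.v (dgv.v t b) - p.cv.xs.v (dgv.v t b))⁻¹ := rfl
  rw [← eG] at r1
  rw [← eg] at r2
  obtain ⟨dl, hdl⟩ : ∃ dl, dl = b - A.ch.v t := ⟨_, rfl⟩
  rw [← hdl] at r1 r2
  have O : (datB far N0 p (thN A) t b x dl).Ok (ken (datB far N0 p (thN A) t b x dl).x) :=
    PtOk.ok (T := thN A) (dl := dl) h
  have ey : (datB far N0 p (thN A) t b x dl).y = y := g.ey.symm
  have ey' : (datB far N0 p (thN A) t b x dl).y' = y' := g.ey'.symm
  have R2' := g.R2 TT q2 i2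
  have L2' := g.L2 TT q2 i2
  have R1 : (datB far N0 p (thN A) t b x dl).R1 = RK 0 1 y x := by
    rw [g.R1 TT q1 i1]
    simp only [datB, dat, Dat.R1]
    ring
  have R2 : (datB far N0 p (thN A) t b x dl).R2 = -Tv := by
    rw [r1]
    simp only [datB, dat, Dat.R2, Dat.r2]
    linear_combination -R2'
  have eR : (thN A).r.v t b x = A.r.v t x := rfl
  have eL : (thN A).l.v t b x = A.l.v t x := rfl
  have hb : b = dl + A.ch.v t := by linarith
  have R3 : (datB far N0 p (thN A) t b x dl).R3 = RK k 3 (y + y') x := by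
    rw [a2]
    simp only [datB, dat, Dat.R3, eR]
    linear_combination t * (p.c0.v x / 2) * hb
  have L1 : (datB far N0 p (thN A) t b x dl).L1 = RL 0 1 y x := by
    rw [g.L1 TT q1 i1]
    simp only [datB, dat, Dat.L1, Dat.a1c]
    ring
  have L2 : (datB far N0 p (thN A) t b x dl).L2 = -TL := by
    rw [r2]
    simp only [datB, dat, Dat.L2, Dat.a2c]
    linear_combination -L2'
  have L3 : (datB far N0 p (thN A) t b x dl).L3 = RL k 3 (y + y') x := by
    rw [a3]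
    simp only [datB, dat, Dat.L3, Dat.a3c, eL, dga3c]
    push_cast
    linear_combination t * (-(p.mb.v x * 2 + p.ma.v x) / 2) * hb
  have hex : (datB far N0 p (thN A) t b x dl).ex =
      exn' (c1n y) (crv P k 3 (y + y')) y (y + y') := by
    unfold exn'
    have e := g.ex
    have ey2 := g.ey
    rw [a1]
    simp only [datB, dat, Dat.ex]
    linear_combination -e - (t * y / 2) * hb - t * dl / 2 * ey2
  have HF : ∀ lv sg bd, 0 ≤ (datB far N0 p (thN A) t b x dl).F lv sg bd := by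
    intro lv sg bd
    have h1 := H lv sg bd
    have e0 := a0F_v f (thN A) t b dl 0 ((dgG p).v t b x) (-(p.c0.v x / 2)) 0 ((dggL p).v t b x)
      (-(dga3c p).v x) ((1 - t * dgst.v t b) / 2) sg bd
    have e1 := a1F_v f (thN A) t b dl 0 ((dgG p).v t b x) (-(p.c0.v x / 2)) 0
      ((dggL p).v t b x) (-(dga3c p).v x) ((1 - t * dgst.v t b) / 2) lv sg bd
    have e2 := QBF_v f (thN A) t b dl lv sg bd
    unfold Dat.F
    rw [← e2]
    change (datB far N0 p (thN A) t b x dl).a0 sg bd = _ at e0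
    change _ = (datB far N0 p (thN A) t b x dl).a1 lv sg bd at e1
    rw [e0, ← e1]
    refine h1.trans (le_of_eq ?_)
    rw [← hdl]
    rfl
  have k := Dat.con O (X12 := c1n y) (X13 := crv P k 3 (y + y')) (by rw [ey, ey']; exact hex) HF
  rw [R1, R2, R3, L1, L2, L3, ey, ey'] at k
  exact k

/-! ### Type `P` -/

/-- The values in the quarter `1` on the first two curves. -/
structure P1Ok (P : Pos n) (RK RL : Fin (n + 1) → ℕ → ℝ → ℝ → ℝ) (p : Pm) (j : Fin (n + 1))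
    (D : ℕ) (x : ℝ) : Prop where
  x1 : ∀ {y : ℝ}, InQ 1 y → |y - 1| < (D : ℝ) / S → crv P j 1 y = p.x11.v y
  x0 : ∀ {y : ℝ}, InQ 1 y → |y - 1| < (D : ℝ) / S → c1n y = p.x01.v y
  k1 : ∀ {y : ℝ}, InQ 1 y → |y - 1| < (D : ℝ) / S → RK j 1 y x = p.K11.v y x
  k0 : ∀ {y : ℝ}, InQ 1 y → |y - 1| < (D : ℝ) / S → RK 0 1 y x = p.K01.v y x
  l1 : ∀ {y : ℝ}, InQ 1 y → |y - 1| < (D : ℝ) / S → RL j 1 y x = p.L11.v y x
  l0 : ∀ {y : ℝ}, InQ 1 y → |y - 1| < (D : ℝ) / S → RL 0 1 y x = p.L01.v y x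

/-- the eight inequalities, type `P` -/
def IneqP (far : Bool) (p : Pm) (A : Sd) (t b x : ℝ) : Prop :=
  ∀ lv sg bd, 0 ≤ b * cond far 0 ((a0F sg bd p).v x) + t * (a1F far lv sg bd p (thN A)).v t b x +
    (A.ch.v t - b) * (QPF far lv sg bd p).v t b x

theorem PtOk.tP (h : PtOk P RK RL far N0 p D D3 x y y' t b) {j k : Fin (n + 1)}
    (hA : SdOk P RK RL p A k D3 x) (hC : P1Ok P RK RL p j D x)
    (l1 : Lin (crv P 0 1 y) (crv P j 1 y) (RK 0 1 y x) (RK j 1 y x)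
      (c1n y' + crv P k 3 (y + y')) Tv)
    (l2 : Lin (crv P 0 1 y) (crv P j 1 y) (RL 0 1 y x) (RL j 1 y x)
      (c1n y' + crv P k 3 (y + y')) TL)
    (H : IneqP far p A t b x) :
    Con12 far N0 .pnn y' y x (c1n y') (-crv P k 3 (y + y')) (RK 0 2 y' x) (-Tv)
      (-RK k 3 (y + y') x) (RL 0 2 y' x) (-TL) (-RL k 3 (y + y') x) := by
  obtain ⟨g, f, TT, x0, x1, q1, q2, q3, i1, i2, i3, hD, hD3⟩ := id h
  obtain ⟨a1, a2, a3⟩ := hA q3 i3 g.tt g.t0
  have ey1 : dgy1.v t b = y := by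
    rw [g.ey]
    simp only [dgy1, dgs]
    push_cast
    ring
  have eG : (dgG1 p).v t b x = (p.K11.v (dgy1.v t b) x - p.K01.v (dgy1.v t b) x) *
    (p.x11.v (dgy1.v t b) - p.x01.v (dgy1.v t b))⁻¹ := rfl
  have eg : (dggL1 p).v t b x = (p.L11.v (dgy1.v t b) x - p.L01.v (dgy1.v t b) x) *
    (p.x11.v (dgy1.v t b) - p.x01.v (dgy1.v t b))⁻¹ := rfl
  rw [ey1, ← hC.k1 q1 i1, ← hC.k0 q1 i1, ← hC.x1 q1 i1, ← hC.x0 q1 i1] at eG
  rw [ey1, ← hC.l1 q1 i1, ← hC.l0 q1 i1, ← hC.x1 q1 i1, ← hC.x0 q1 i1] at eg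
  have hZ : c1n y' + crv P k 3 (y + y') - crv P 0 1 y = t * (A.ch.v t - b) := by
    rw [a1, crv0q]
    have := g.tb
    linear_combination -this
  unfold Lin at l1 l2
  rw [hZ, div_eq_mul_inv, crv0q] at l1 l2
  have r1 : Tv = RK 0 1 y x + (dgG1 p).v t b x * (t * (A.ch.v t - b)) := by
    rw [l1, eG]
    ring
  have r2 : TL = RL 0 1 y x + (dggL1 p).v t b x * (t * (A.ch.v t - b)) := by
    rw [l2, eg]
    ring
  obtain ⟨dl, hdl⟩ : ∃ dl, dl = A.ch.v t - b := ⟨_, rfl⟩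
  rw [← hdl] at r1 r2
  have O : (datP far N0 p (thN A) t b x dl).Ok (ken (datP far N0 p (thN A) t b x dl).x) :=
    PtOk.ok (T := thN A) (dl := dl) h
  have ey : (datP far N0 p (thN A) t b x dl).y = y := g.ey.symm
  have ey' : (datP far N0 p (thN A) t b x dl).y' = y' := g.ey'.symm
  have R1' := g.R1 TT q1 i1
  have L1' := g.L1 TT q1 i1
  have R1 : (datP far N0 p (thN A) t b x dl).R1 = Tv := by
    rw [r1]
    simp only [datP, dat, Dat.R1]
    linear_combination -R1'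
  have R2 : (datP far N0 p (thN A) t b x dl).R2 = -RK 0 2 y' x := by
    rw [g.R2 TT q2 i2]
    simp only [datP, dat, Dat.R2, Dat.r2]
    ring
  have eR : (thN A).r.v t b x = A.r.v t x := rfl
  have eL : (thN A).l.v t b x = A.l.v t x := rfl
  have hb : A.ch.v t = dl + b := by linarith
  have R3 : (datP far N0 p (thN A) t b x dl).R3 = RK k 3 (y + y') x := by
    rw [a2]
    simp only [datP, dat, Dat.R3, eR]
    linear_combination -t * (p.c0.v x / 2) * hb
  have L1 : (datP far N0 p (thN A) t b x dl).L1 = TL := by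
    rw [r2]
    simp only [datP, dat, Dat.L1, Dat.a1c]
    linear_combination -L1'
  have L2 : (datP far N0 p (thN A) t b x dl).L2 = -RL 0 2 y' x := by
    rw [g.L2 TT q2 i2]
    simp only [datP, dat, Dat.L2, Dat.a2c]
    ring
  have L3 : (datP far N0 p (thN A) t b x dl).L3 = RL k 3 (y + y') x := by
    rw [a3]
    simp only [datP, dat, Dat.L3, Dat.a3c, eL, dga3c]
    push_cast
    linear_combination -t * (-(p.mb.v x * 2 + p.ma.v x) / 2) * hb
  have hex : (datP far N0 p (thN A) t b x dl).ex =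
      exn' (c1n y') (-crv P k 3 (y + y')) y' (y' + y) := by
    unfold exn'
    have e := g.ex
    have ey2 := g.ey'
    have e3 := g.tb
    rw [a1]
    simp only [datP, dat, Dat.ex]
    linear_combination -e - (t * y' / 2) * hb - t * dl / 2 * ey2 + (y + y') / 2 * e3
  have HF : ∀ lv sg bd, 0 ≤ (datP far N0 p (thN A) t b x dl).F lv sg bd := by
    intro lv sg bd
    have h1 := H lv sg bd
    have e0 := a0F_v f (thN A) t b dl ((dgG1 p).v t b x) 0 (p.c0.v x / 2) ((dggL1 p).v t b x) 0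
      ((dga3c p).v x) ((1 + t * dgvt.v t b) / 2) sg bd
    have e1 := a1F_v f (thN A) t b dl ((dgG1 p).v t b x) 0 (p.c0.v x / 2)
      ((dggL1 p).v t b x) 0 ((dga3c p).v x) ((1 + t * dgvt.v t b) / 2) lv sg bd
    have e2 := QPF_v f (thN A) t b dl lv sg bd
    unfold Dat.F
    rw [← e2]
    change (datP far N0 p (thN A) t b x dl).a0 sg bd = _ at e0
    change _ = (datP far N0 p (thN A) t b x dl).a1 lv sg bd at e1
    rw [e0, ← e1]
    refine h1.trans (le_of_eq ?_)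
    rw [← hdl]
    rfl
  have k := Dat.con' O (X12 := c1n y') (X13 := -crv P k 3 (y + y'))
    (by rw [ey, ey']; exact hex) HF
  rw [R1, R2, R3, L1, L2, L3, ey, ey', neg_neg, neg_neg] at k
  exact k

end

end Pool.Agent.Strip051.PB.Dg
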