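import Pool.Agent.Strip051.PB.DgP

/-! # The last segment at the corner `(1, 1, 2)`: the second order part has the factor `1 - b` -/

set_option linter.unusedSimpArgs false

namespace Pool.Agent.Strip051.PB.Dg

open Pool.Agent.Strip051.PB

/-- The parameters of a table for the first vertex and the third side next to the last curve. -/
structure Tg (p : Pm) (T : Th) (x : ℝ) : Prop where
  c0 : p.c0.v x = 1
  k12 : p.k12.v x = p.k23.v x
  k13 : p.k13.v x = p.k23.v x
  j12 : p.j12.v x = p.j23.v x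
  j13 : p.j13.v x = p.j23.v x
  c12 : p.c12.v x = p.c23.v x
  c13 : p.c13.v x = p.c23.v x
  l12 : ∀ h, (pfn p.l12).v h x = (pfn p.l23).v h x
  l13 : ∀ h, (pfn p.l13).v h x = (pfn p.l23).v h x
  Tr : ∀ t b, T.r.v t b x = (dgr3c p).v t x - (1 - b) * T.gr.v t x
  Tl : ∀ t b, T.l.v t b x = (dgl3c p).v t x - (1 - b) * T.gl.v t x

/-- The divided differences. -/
structure Dv (p : Pm) (t b x sa mp cp cm : ℝ) : Prop where
  sa : sa * (t * (dgh3.v t - dgh1.v t b)) =
    (2 * p.cb.v x + p.ca.v x) * (dgh3.v t ^ 2 - dgh1.v t b ^ 2) +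
      ((2 * (pfn p.lb).v (dgh3.v t) x + (pfn p.la).v (dgh3.v t) x) -
        (2 * (pfn p.lb).v (dgh1.v t b) x + (pfn p.la).v (dgh1.v t b) x))
  mp : mp * (dgh1.v t b - dgh2.v t b) =
    (p.ca.v x + p.cb.v x) * (dgh1.v t b ^ 2 - dgh2.v t b ^ 2) +
      (((pfn p.la).v (dgh1.v t b) x + (pfn p.lb).v (dgh1.v t b) x) -
        ((pfn p.la).v (dgh2.v t b) x + (pfn p.lb).v (dgh2.v t b) x))
  cp : cp * (dgh1.v t b - dgh2.v t b) = p.c23.v x * (dgh1.v t b ^ 2 - dgh2.v t b ^ 2) +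
      ((pfn p.l23).v (dgh1.v t b) x - (pfn p.l23).v (dgh2.v t b) x)
  cm : cm * (dgh3.v t - dgh2.v t b) = p.c23.v x * (dgh3.v t ^ 2 - dgh2.v t b ^ 2) +
      ((pfn p.l23).v (dgh3.v t) x - (pfn p.l23).v (dgh2.v t b) x)

section

variable {p : Pm} {T : Th} {t b x sa mp cp cm : ℝ}

theorem h1t_D (t b : ℝ) : dgh1t.v t b = dgH.v t + (1 - b) * dgD12.v t b := by
  rw [dgh1t_v, dge12_v, dgH_v, hv_hcv]
  simp only [dgD12, dgc12, dghc_v, dgu_v]
  push_cast
  ring

theorem h2t_D (t b : ℝ) : dgh2t.v t b = dgH.v t + (1 - b) * dgD23.v t b := by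
  rw [dgh2t_v, dge23_v, dgH_v, hv_hcv]
  simp only [dgD23, dgc23, dghc_v, dgu_v]
  push_cast
  ring

theorem D_cc (t b : ℝ) : dgD12.v t b - dgD23.v t b = t * dgcc.v t b := by
  simp only [dgD12, dgD23, dgcc]
  push_cast
  ring

theorem h12_D (t b : ℝ) : dgh1.v t b - dgh2.v t b = t ^ 2 * ((1 - b) * dgcc.v t b) := by
  have h := D_cc t b
  rw [dgh1_v, dgh2_v, h1t_D, h2t_D]
  linear_combination t * (1 - b) * h

theorem h31_D (t b : ℝ) : dgh3.v t - dgh1.v t b = -(t * ((1 - b) * dgD12.v t b)) := by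
  rw [dgh1_v, dgh3_v, h1t_D]
  ring

theorem h32_D (t b : ℝ) : dgh3.v t - dgh2.v t b = -(t * ((1 - b) * dgD23.v t b)) := by
  rw [dgh2_v, dgh3_v, h2t_D]
  ring

/-- The kinks of the parts of the kernels. -/
theorem Q12_t (t0 : t ≠ 0) : (dgQ12 p).v t b x * t ^ 2 =
    p.c12.v x * dgh1.v t b ^ 2 + (pfn p.l12).v (dgh1.v t b) x := by
  have e : (dgQ12 p).v t b x = dgh1t.v t b ^ 2 * p.c12.v x +
    (qfn p.l12).v (dgh1.v t b) t x := rfl
  rw [e, add_mul, qfn_v _ (fun h => absurd h t0), dgh1_v]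
  ring

theorem Q23_t (t0 : t ≠ 0) : (dgQ23 p).v t b x * t ^ 2 =
    p.c23.v x * dgh2.v t b ^ 2 + (pfn p.l23).v (dgh2.v t b) x := by
  have e : (dgQ23 p).v t b x = dgh2t.v t b ^ 2 * p.c23.v x +
    (qfn p.l23).v (dgh2.v t b) t x := rfl
  rw [e, add_mul, qfn_v _ (fun h => absurd h t0), dgh2_v]
  ring

theorem Q13_t (t0 : t ≠ 0) : (dgQ13 p).v t x * t ^ 2 =
    p.c13.v x * dgh3.v t ^ 2 + (pfn p.l13).v (dgh3.v t) x := by
  have e : (dgQ13 p).v t x = dgH.v t ^ 2 * p.c13.v x +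
    (qfn p.l13).v (dgh3.v t) t x := rfl
  rw [e, add_mul, qfn_v _ (fun h => absurd h t0), dgh3_v]
  ring

theorem Qb1_t (t0 : t ≠ 0) : (dgQb1 p).v t b x * t ^ 2 =
    p.cb.v x * dgh1.v t b ^ 2 + (pfn p.lb).v (dgh1.v t b) x := by
  have e : (dgQb1 p).v t b x = dgh1t.v t b ^ 2 * p.cb.v x +
    (qfn p.lb).v (dgh1.v t b) t x := rfl
  rw [e, add_mul, qfn_v _ (fun h => absurd h t0), dgh1_v]
  ring

theorem Qab_t (t0 : t ≠ 0) : (dgQab p).v t b x * t ^ 2 =
    (p.ca.v x + p.cb.v x) * dgh2.v t b ^ 2 + ((pfn p.la).v (dgh2.v t b) x +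
      (pfn p.lb).v (dgh2.v t b) x) := by
  have e : (dgQab p).v t b x = dgh2t.v t b ^ 2 * (p.ca.v x + p.cb.v x) +
    ((qfn p.la).v (dgh2.v t b) t x + (qfn p.lb).v (dgh2.v t b) t x) := rfl
  have h1 := qfn_v p.la (h := dgh2.v t b) (x := x) (fun h => absurd h t0)
  have h2 := qfn_v p.lb (h := dgh2.v t b) (x := x) (fun h => absurd h t0)
  rw [e, dgh2_v] at *
  linear_combination h1 + h2

theorem Q3_t (t0 : t ≠ 0) : (dgQ3 p).v t x * t ^ 2 =
    (2 * p.cb.v x + p.ca.v x) * dgh3.v t ^ 2 + (2 * (pfn p.lb).v (dgh3.v t) x +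
      (pfn p.la).v (dgh3.v t) x) := by
  have e : (dgQ3 p).v t x = dgH.v t ^ 2 * (2 * p.cb.v x + p.ca.v x) +
    (2 * (qfn p.lb).v (dgh3.v t) t x + (qfn p.la).v (dgh3.v t) t x) := by
    simp only [dgQ3]
    push_cast
    ring
  have h1 := qfn_v p.la (h := dgh3.v t) (x := x) (fun h => absurd h t0)
  have h2 := qfn_v p.lb (h := dgh3.v t) (x := x) (fun h => absurd h t0)
  rw [e, dgh3_v] at *
  linear_combination h1 + 2 * h2

/-- the level part -/
theorem l1_tight (t0 : t ≠ 0) (H : Tg p T x) (V : Dv p t b x sa mp cp cm) :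
    (dgl1 p T).v t b x = (1 - b) * (dgLq p T).v t b x sa mp := by
  have q1 := Qb1_t (p := p) (b := b) (x := x) t0
  have q2 := Qab_t (p := p) (b := b) (x := x) t0
  have q3 := Q3_t (p := p) (x := x) t0
  have v1 := V.sa
  have v2 := V.mp
  have w1 := h12_D t b
  have w2 := h31_D t b
  rw [w2] at v1
  rw [w1] at v2
  have e1 : (dgl1 p T).v t b x = (dgl11 p).v t b x + (dgl21 p).v t b x - T.l.v t b x := rfl
  have e2 : (dgl11 p).v t b x = -(p.mb.v x * dge12.v t b + (dgQb1 p).v t b x) := rfl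
  have e3 : (dgl21 p).v t b x = -((p.ma.v x + p.mb.v x) * dge23.v t b + (dgQab p).v t b x) := rfl
  have e4 : (dgl3c p).v t x = -((2 * p.mb.v x + p.ma.v x) * gv t / 4 + (dgQ3 p).v t x) := by
    simp only [dgl3c, dgg_v]
    push_cast
    ring
  have e5 : (dgLq p T).v t b x sa mp = T.gl.v t x + (p.ma.v x + p.mb.v x + mp) * dgcc.v t b -
      (p.ma.v x + 2 * p.mb.v x) * dgc12.v t b - sa * dgD12.v t b := by
    simp only [dgLq]
    push_cast
    ring
  have e6 : dge12.v t b = gv t / 4 + (1 - b) * dgc12.v t b := by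
    rw [dge12_v, hv_hcv]
    simp only [dgc12, dghc_v, dgu_v]
    push_cast
    ring
  have e7 : dge23.v t b = gv t / 4 - (1 - b) * dgc23.v t b := by
    rw [dge23_v, hv_hcv]
    simp only [dgc23, dghc_v, dgu_v]
    push_cast
    ring
  have e8 : dgcc.v t b = dgc12.v t b + dgc23.v t b := rfl
  have key : (dgQ3 p).v t x - (dgQb1 p).v t b x - (dgQab p).v t b x =
      (1 - b) * (mp * dgcc.v t b - sa * dgD12.v t b) := by
    have h2 : t ^ 2 ≠ 0 := pow_ne_zero 2 t0
    refine mul_right_cancel₀ h2 ?_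
    linear_combination q3 - q1 - q2 - v1 - v2
  rw [e1, H.Tl, e2, e3, e4, e5, e6, e7]
  rw [e8] at key ⊢
  linear_combination key

theorem kv_D (t b : ℝ) (t1 : t ^ 2 ≤ 1) (q4 : qv t b ≤ 4) :
    kv t b = 1 / 3 + t ^ 2 * ((1 - b) * hcv t b) := by
  rw [← hv_hcv]
  exact hv_eq t1 q4

/-- the kernel at the side `23` -/
theorem kh2_t (t0 : t ≠ 0) : (dgkh2 p).v t b x = p.k23.v x + p.j23.v x * dgh2.v t b +
    (p.c23.v x * dgh2.v t b ^ 2 + (pfn p.l23).v (dgh2.v t b) x) := by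
  have q := Q23_t (p := p) (b := b) (x := x) t0
  have e : (dgkh2 p).v t b x = p.k23.v x + p.j23.v x * dgh2.v t b +
    t ^ 2 * (dgQ23 p).v t b x := rfl
  rw [e]
  linear_combination q

/-- the difference of the values -/
theorem d1_tight (t0 : t ≠ 0) (t1 : t ^ 2 ≤ 1) (q4 : qv t b ≤ 4) (n1 : 1 - dgh1.v t b ≠ 0)
    (n3 : 1 - dgh3.v t ≠ 0) (H : Tg p T x) (V : Dv p t b x sa mp cp cm) :
    (dgd1 p T).v t b x = (1 - b) * (dgdq p T).v t b x cp cm := by
  have q1 := Q12_t (p := p) (b := b) (x := x) t0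
  have q2 := Q23_t (p := p) (b := b) (x := x) t0
  have q3 := Q13_t (p := p) (x := x) t0
  have v1 := V.cp
  have v2 := V.cm
  have w1 := h12_D t b
  have w3 := h32_D t b
  have hk := kv_D t b t1 q4
  rw [w1] at v1
  rw [w3] at v2
  have hgr : (dgd1 p T).v t b x = T.r.v t b x - (dgr11 p).v t b x - (dgr21 p).v t b x := rfl
  have e2 : (dgr11 p).v t b x = p.c0.v x * dgrho.v t b - dgs1.v t b * p.k12.v x -
      dgst.v t b * (p.j12.v x * dgh1t.v t b + t * (dgQ12 p).v t b x) := rfl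
  have e3 : (dgr21 p).v t b x = p.c0.v x * dge23.v t b + dgv1.v t b * p.k23.v x +
      dgvt.v t b * (p.j23.v x * dgh2t.v t b + t * (dgQ23 p).v t b x) := rfl
  have e4 : (dgr3c p).v t x = -(p.c0.v x * ((1 + dgtg.v t / 2) * (1 - dgh3.v t)⁻¹ / 4) +
      dgg.v t * (p.k13.v x + p.j13.v x * dgh3.v t + t ^ 2 * (dgQ13 p).v t x)) := by
    simp only [dgr3c]
    push_cast
    ring
  have e5 : (dgdq p T).v t b x cp cm = t * (dgst.v t b * dgcc.v t b * (p.j23.v x + cp) +
      dgg.v t * dgD23.v t b * (p.j23.v x + cm)) + dgc23.v t b - dgDr.v t b - T.gr.v t x := rfl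
  have e7 : dge23.v t b = gv t / 4 - (1 - b) * dgc23.v t b := by
    rw [dge23_v, hv_hcv]
    simp only [dgc23, dghc_v, dgu_v]
    push_cast
    ring
  -- the part of the geometry
  have i1 : (1 - dgh1.v t b)⁻¹ * (1 - dgh1.v t b) = 1 := inv_mul_cancel₀ n1
  have i3 : (1 - dgh3.v t)⁻¹ * (1 - dgh3.v t) = 1 := inv_mul_cancel₀ n3
  have hDr : dgDr.v t b = (dghc.v t b * (3 / 8 * (2 - t ^ 2 * gv t) - 3 / 4 * (t * b)) / 2 -
      (dgDa.v t b * dgh1t.v t b + dga11.v t * dgD12.v t b) + dgrho1.v t * (t * dgD12.v t b)) *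
      (1 - dgh1.v t b)⁻¹ := by
    simp only [dgDr, dgu_v]
    push_cast
    ring
  have hrho1 : dgrho1.v t = -((gv t / 4 + dga11.v t * dgH.v t) * (1 - dgh3.v t)⁻¹) := by
    simp only [dgrho1, dgg_v]
    push_cast
    ring
  have hat : dgat.v t b = dga11.v t + (1 - b) * dgDa.v t b := by
    rw [dgat_v, hv_hcv]
    simp only [dga11, dgDa, dgc23, dghc_v, dgu_v, dgtg_v]
    push_cast
    ring
  have ha : dga11.v t = 1 / 2 - t * gv t / 4 := by
    simp only [dga11, dgtg_v]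
    push_cast
    ring
  have hH := dgH_v t
  have h3 := dgh3_v t
  have h1t := h1t_D t b
  have h1 := dgh1_v t b
  have hrho : dgrho.v t b = (hv t b * (3 / 8 * (2 - t ^ 2 * gv t) - 3 / 4 * (t * b)) - gv t / 2 -
      2 * (dgat.v t b * dgh1t.v t b)) * (1 - dgh1.v t b)⁻¹ / 2 := dgrho_v t b
  have hrr : dgrho.v t b = dgrho1.v t + (1 - b) * dgDr.v t b := by
    have hh : hv t b = (1 - b) * dghc.v t b := by rw [hv_hcv, dghc_v]
    refine mul_right_cancel₀ n1 ?_
    have a1 : dgrho.v t b * (1 - dgh1.v t b) = (hv t b * (3 / 8 * (2 - t ^ 2 * gv t) -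
        3 / 4 * (t * b)) - gv t / 2 - 2 * (dgat.v t b * dgh1t.v t b)) / 2 := by
      rw [hrho]
      linear_combination (hv t b * (3 / 8 * (2 - t ^ 2 * gv t) -
        3 / 4 * (t * b)) - gv t / 2 - 2 * (dgat.v t b * dgh1t.v t b)) / 2 * i1
    have a2 : dgDr.v t b * (1 - dgh1.v t b) = (dghc.v t b * (3 / 8 * (2 - t ^ 2 * gv t) -
        3 / 4 * (t * b)) / 2 - (dgDa.v t b * dgh1t.v t b + dga11.v t * dgD12.v t b) +
        dgrho1.v t * (t * dgD12.v t b)) := by
      rw [hDr]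
      linear_combination (dghc.v t b * (3 / 8 * (2 - t ^ 2 * gv t) -
        3 / 4 * (t * b)) / 2 - (dgDa.v t b * dgh1t.v t b + dga11.v t * dgD12.v t b) +
        dgrho1.v t * (t * dgD12.v t b)) * i1
    have a3 : dgrho1.v t * (1 - dgh3.v t) = -(gv t / 4 + dga11.v t * dgH.v t) := by
      rw [hrho1]
      linear_combination -(gv t / 4 + dga11.v t * dgH.v t) * i3
    have a4 : 1 - dgh1.v t b = (1 - dgh3.v t) - t * (1 - b) * dgD12.v t b := by
      rw [h1, h3, h1t]
      ring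
    have a5 : dgrho1.v t * (1 - dgh1.v t b) = -(gv t / 4 + dga11.v t * dgH.v t) -
        dgrho1.v t * (t * (1 - b) * dgD12.v t b) := by
      rw [a4]
      linear_combination a3
    linear_combination a1 - a5 - (1 - b) * a2 +
      (3 / 8 * (2 - t ^ 2 * gv t) - 3 / 4 * (t * b)) / 2 * hh - dgh1t.v t b * hat -
      dga11.v t * h1t
  have hr0 : dgrho1.v t + gv t / 4 + (1 + dgtg.v t / 2) * (1 - dgh3.v t)⁻¹ / 4 = 0 := by
    refine mul_right_cancel₀ n3 ?_
    rw [hrho1, dgtg_v, h3, hH, ha]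
    rw [h3, hH] at i3
    linear_combination (-(gv t / 4 + (1 / 2 - t * gv t / 4) * (1 / 2 + t * gv t / 4)) +
      (1 + t * gv t / 2) / 4) * i3
  -- the part of the kernel
  have hst := dgst_v t b
  have hvt := dgvt_v t b
  have hs1 := dgs1_v t b
  have hv1 := dgv1_v t b
  have hh2t := dgh2_v t b
  have ker : -(gv t * (p.k23.v x + p.j23.v x * dgh3.v t + t ^ 2 * (dgQ13 p).v t x)) +
      (dgs1.v t b * p.k23.v x + dgst.v t b * (p.j23.v x * dgh1t.v t b + t * (dgQ12 p).v t b x)) -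
      (dgv1.v t b * p.k23.v x + dgvt.v t b * (p.j23.v x * dgh2t.v t b + t * (dgQ23 p).v t b x)) =
      (1 - b) * (t * (dgst.v t b * dgcc.v t b * (p.j23.v x + cp) +
        dgg.v t * dgD23.v t b * (p.j23.v x + cm))) := by
    have d1 := H.l12 (dgh1.v t b)
    have d3 := H.l13 (dgh3.v t)
    rw [d1, H.c12] at q1
    rw [d3, H.c13] at q3
    refine mul_right_cancel₀ t0 ?_
    have hvt' : dgvt.v t b = dgst.v t b - t * gv t := by
      rw [hst, hvt]
      ring
    have hs' : dgs1.v t b * t = dgst.v t b - b / 3 := by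
      rw [hs1, hst, hk, hv_hcv]
      ring
    have hv' : dgv1.v t b * t = dgvt.v t b - b / 3 := by
      rw [hv1, hvt, hk, hv_hcv]
      ring
    have g1 : dgh1.v t b = t * dgh1t.v t b := h1
    have g2 : dgh2.v t b = t * dgh2t.v t b := hh2t
    rw [dgg_v]
    rw [hvt'] at hv' ⊢
    linear_combination (-(gv t) * t) * q3 + dgst.v t b * q1 - (dgst.v t b - t * gv t) * q2 +
      p.k23.v x * hs' - p.k23.v x * hv' - dgst.v t b * v1 + t * gv t * v2 +
      dgst.v t b * p.j23.v x * w1 - t * gv t * p.j23.v x * w3 -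
      dgst.v t b * p.j23.v x * g1 + (dgst.v t b - t * gv t) * p.j23.v x * g2
  rw [hgr, H.Tr, e2, e3, e4, e5, H.c0, H.k12, H.k13, H.j12, H.j13, hrr, e7, dgg_v]
  rw [dgg_v] at ker
  linear_combination ker - hr0

/-- the moment -/
theorem om_tight (t0 : t ≠ 0) (t1 : t ^ 2 ≤ 1) (q4 : qv t b ≤ 4)
    (n3 : 1 - dgh3.v t ≠ 0) (H : Tg p T x) (V : Dv p t b x sa mp cp cm) :
    (dgom p T).v t b x = (1 - b) * (dgomq p T).v t b x cm := by
  have q2 := Q23_t (p := p) (b := b) (x := x) t0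
  have q3 := Q13_t (p := p) (x := x) t0
  have v2 := V.cm
  have w3 := h32_D t b
  have hk := kv_D t b t1 q4
  rw [w3] at v2
  have hg := gv_eq (t := t) (by linarith)
  have hkh := kh2_t (p := p) (b := b) (x := x) t0
  have e1 : (dgom p T).v t b x = dgvt.v t b * (b / 2 + t * T.r.v t b x) -
      gv t * (1 / 2 - t * (b * (1 / 2 + p.k23.v x / 3) + t * (dgr21 p).v t b x)) := by
    simp only [dgom, dgom_12, H.c0, dgg_v]
    push_cast
    ring
  have e2 : (dgomq p T).v t b x cm = dgDs.v t b * (b / 2 + t * T.r.v t b x) -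
      dgvt1.v t * (1 / 2 + t * T.gr.v t x) + t * gv t * (dgD23.v t b +
        dgDs.v t b * (dgkh2 p).v t b x + t * (dgvt1.v t * (dgD23.v t b *
          (p.j23.v x + cm)))) := by
    simp only [dgomq, dgtg_v]
    push_cast
    ring
  have e3 : (dgr21 p).v t b x = p.c0.v x * dge23.v t b + dgv1.v t b * p.k23.v x +
      dgvt.v t b * (p.j23.v x * dgh2t.v t b + t * (dgQ23 p).v t b x) := rfl
  have e4 : (dgr3c p).v t x = -(p.c0.v x * ((1 + dgtg.v t / 2) * (1 - dgh3.v t)⁻¹ / 4) +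
      dgg.v t * (p.k13.v x + p.j13.v x * dgh3.v t + t ^ 2 * (dgQ13 p).v t x)) := by
    simp only [dgr3c]
    push_cast
    ring
  have hvt := dgvt_v t b
  have hv1 := dgv1_v t b
  have hvt1 : dgvt1.v t = 1 / 3 - t * gv t / 2 := by
    simp only [dgvt1, dgtg_v]
    push_cast
    ring
  have hDs : dgDs.v t b = b * (t ^ 2 * hcv t b) - 1 / 3 := by
    simp only [dgDs, dghc_v]
    push_cast
    ring
  have hvv : dgvt.v t b = dgvt1.v t + (1 - b) * dgDs.v t b := by
    rw [hvt, hk, hvt1, hDs]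
    ring
  have g2 := dgh2_v t b
  -- the value at the side `23`
  have r2 : b * (1 / 2 + p.k23.v x / 3) + t * (dgr21 p).v t b x =
      dgh2t.v t b + dgvt.v t b * (dgkh2 p).v t b x := by
    have hv' : dgv1.v t b * t = dgvt.v t b - b / 3 := by
      rw [hv1, hvt, hk, hv_hcv]
      ring
    rw [e3, H.c0, hkh]
    have := dgh2t_v t b
    linear_combination p.k23.v x * hv' + dgvt.v t b * q2 - this - dgvt.v t b * p.j23.v x * g2
  have h3 := dgh3_v t
  have hH := dgH_v t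
  have i3 : (1 - dgh3.v t)⁻¹ * (1 - dgh3.v t) = 1 := inv_mul_cancel₀ n3
  have kh3 : p.k23.v x + p.j23.v x * dgh3.v t + (dgQ13 p).v t x * t ^ 2 -
      (dgkh2 p).v t b x = -(t * ((1 - b) * dgD23.v t b)) * (p.j23.v x + cm) := by
    rw [hkh, q3, H.c13, H.l13]
    linear_combination -v2 + p.j23.v x * w3
  have base : dgvt1.v t * (1 / 2 - t * ((1 + t * gv t / 2) * (1 - dgh3.v t)⁻¹ / 4)) - gv t / 2 +
      t * gv t * dgH.v t = 0 := by
    refine mul_right_cancel₀ n3 ?_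
    rw [hvt1, h3, hH]
    rw [h3, hH] at i3
    linear_combination (1 / 3 - t * gv t / 2) * (-(t * ((1 + t * gv t / 2) / 4))) * i3 -
      (2 - 2 * t - t ^ 2 * gv t) / 12 * hg
  rw [e1, e2, r2, H.Tr, e4, H.c0, H.k13, H.j13, dgtg_v, dgg_v, hvv, h2t_D]
  linear_combination base - t * gv t * (dgvt1.v t) * kh3

/-- the second order part divided by `1 - b` -/
noncomputable def QtF (lv sg bd : Bool) (p : Pm) (T : Th) : Fn7 :=
  match lv, sg, bd with
  | true, true, true => dgQtApA p T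
  | true, true, false => dgQtApB p T
  | true, false, true => dgQtAmA p T
  | true, false, false => dgQtAmB p T
  | false, true, true => dgQtBpA p T
  | false, true, false => dgQtBpB p T
  | false, false, true => dgQtBmA p T
  | false, false, false => dgQtBmB p T

/-- the slope with the factor, the side `23` outside -/
noncomputable def TBF (lv sg bd : Bool) (p : Pm) (T : Th) : Fn7 :=
  match lv, sg, bd with
  | true, true, true => dgFTBApA p T
  | true, true, false => dgFTBApB p T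
  | true, false, true => dgFTBAmA p T
  | true, false, false => dgFTBAmB p T
  | false, true, true => dgFTBBpA p T
  | false, true, false => dgFTBBpB p T
  | false, false, true => dgFTBBmA p T
  | false, false, false => dgFTBBmB p T

/-- the slope with the factor, the side `12` outside -/
noncomputable def TPF (lv sg bd : Bool) (p : Pm) (T : Th) : Fn7 :=
  match lv, sg, bd with
  | true, true, true => dgFTPApA p T
  | true, true, false => dgFTPApB p T
  | true, false, true => dgFTPAmA p T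
  | true, false, false => dgFTPAmB p T
  | false, true, true => dgFTPBpA p T
  | false, true, false => dgFTPBpB p T
  | false, false, true => dgFTPBmA p T
  | false, false, false => dgFTPBmB p T

/-- **The second order part has the factor `1 - b`.** -/
theorem a1_tight (t0 : t ≠ 0) (t1 : t ^ 2 ≤ 1) (q4 : qv t b ≤ 4) (n1 : 1 - dgh1.v t b ≠ 0)
    (n3 : 1 - dgh3.v t ≠ 0) (H : Tg p T x) (V : Dv p t b x sa mp cp cm) (lv sg bd : Bool) :
    (a1F true lv sg bd p T).v t b x = (1 - b) * (QtF lv sg bd p T).v t b x sa mp cp cm := by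
  have h1 := l1_tight t0 H V
  have h2 := d1_tight t0 t1 q4 n1 n3 H V
  have h3 := om_tight t0 t1 q4 n3 H V
  have h4 := dgE2_v t b
  cases lv <;> cases sg <;> cases bd <;>
    simp only [a1F, QtF, dga1fApA, dga1fApB, dga1fAmA, dga1fAmB, dga1fBpA, dga1fBpB, dga1fBmA,
      dga1fBmB, dgQtApA, dgQtApB, dgQtAmA, dgQtAmB, dgQtBpA, dgQtBpB, dgQtBmA, dgQtBmB, dgLKfA,
      dgLKfB, h1, h2, h3, h4] <;> ring

theorem TBF_v (lv sg bd : Bool) : (TBF lv sg bd p T).v t b x sa mp cp cm =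
    (QBF true lv sg bd p).v t b x - t * (QtF lv sg bd p T).v t b x sa mp cp cm := by
  cases lv <;> cases sg <;> cases bd <;> rfl

theorem TPF_v (lv sg bd : Bool) : (TPF lv sg bd p T).v t b x sa mp cp cm =
    (QPF true lv sg bd p).v t b x + t * (QtF lv sg bd p T).v t b x sa mp cp cm := by
  cases lv <;> cases sg <;> cases bd <;> rfl

end

end Pool.Agent.Strip051.PB.Dg
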