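import Pool.Agent.Strip051.PB.DgGeo

/-! # The row at the corner `(1, 1, 2)` in second order

All values are `t (b A + t B)` plus a multiple of `t d`, where `t d` is the distance of one of the
short sides from the unit circle. -/

namespace Pool.Agent.Strip051.PB.Dg

open Pool.Agent.Strip051.PB

/-- The two level terms. -/
noncomputable def lvl (far : Bool) (N0 : ℕ) (x y y' x1 x2 x3 : ℝ) (lv : Bool) : ℝ :=
  match far, lv with
  | true, true => (x1 + x2 - x3) / 2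
  | true, false => -((x1 + x2 - x3) / 2)
  | false, true => mun N0 x * levn N0 0 x y y' x1 x2 x3
  | false, false => mun N0 x * levm N0 0 x y y' x1 x2 x3

/-- The excess with the level term. -/
noncomputable def lvR (far : Bool) (N0 : ℕ) (x y y' ex x1 x2 x3 : ℝ) : ℝ :=
  match far with
  | true => levF ex x1 x2 x3
  | false => levN N0 0 x y y' ex x1 x2 x3

theorem mun_nn (N0 : ℕ) (x : ℝ) : 0 ≤ mun N0 x := by
  unfold mun c1n
  positivity

theorem lvR_eq (far : Bool) (N0 : ℕ) (x y y' ex x1 x2 x3 : ℝ) :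
    lvR far N0 x y y' ex x1 x2 x3 = ex + lvl far N0 x y y' x1 x2 x3 true ∨
      lvR far N0 x y y' ex x1 x2 x3 = ex + lvl far N0 x y y' x1 x2 x3 false := by
  cases far
  · unfold lvR lvl levN
    rcases le_total (levn N0 0 x y y' x1 x2 x3) (levm N0 0 x y y' x1 x2 x3) with h | h
    · left
      simp only [min_eq_left h]
    · right
      simp only [min_eq_right h]
  · unfold lvR lvl levF
    rcases le_total 0 (x1 + x2 - x3) with h | h
    · right
      simp only [abs_of_nonneg h]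
      ring
    · left
      simp only [abs_of_nonpos h]
      ring

/-- The numbers of a row. -/
structure Dat where
  (far : Bool)
  (N0 : ℕ)
  (t b x p q c0 g st vt E2 k12 k23 ma mb r11 r21 r3 l11 l21 l3 dl G1 G2 G3
    g1 g2 g3 ee : ℝ)

namespace Dat

variable (D : Dat)

noncomputable def mu : ℝ := mun D.N0 D.x
noncomputable def a1c : ℝ := -(D.mb / 2)
noncomputable def a2c : ℝ := -((D.ma + D.mb) / 2)
noncomputable def a3c : ℝ := -((2 * D.mb + D.ma) / 2)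
noncomputable def y : ℝ := 1 - D.t * D.st
noncomputable def y' : ℝ := 1 + D.t * D.vt
noncomputable def r2 : ℝ := D.b * (D.c0 / 2 + D.k23 / 3) + D.t * D.r21
noncomputable def R1 : ℝ :=
  D.c0 / 2 + D.t * (D.b * -(D.k12 / 3) + D.t * D.r11) + D.t * D.dl * D.G1
noncomputable def R2 : ℝ := -(D.c0 / 2) + D.t * D.r2 - D.t * D.dl * D.G2
noncomputable def R3 : ℝ := D.t * (D.b * (D.c0 / 2) + D.t * D.r3) + D.t * D.dl * D.G3
noncomputable def L1 : ℝ := D.t * (D.b * D.a1c + D.t * D.l11) + D.t * D.dl * D.g1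
noncomputable def L2 : ℝ := D.t * (D.b * D.a2c + D.t * D.l21) - D.t * D.dl * D.g2
noncomputable def L3 : ℝ := D.t * (D.b * D.a3c + D.t * D.l3) + D.t * D.dl * D.g3
noncomputable def ex : ℝ := D.t * (D.t * D.E2) + D.t * D.dl * D.ee

noncomputable def d0 : ℝ := (D.k12 - D.k23) / 3
noncomputable def d1 : ℝ := D.r3 - D.r11 - D.r21
noncomputable def dd : ℝ := D.G3 - D.G1 + D.G2
noncomputable def Lam : ℝ := D.vt + D.t * D.g

/-- the short arc next to the positive end, divided by `t` -/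
noncomputable def lam (sg : Bool) : ℝ := cond sg D.vt (D.t * D.g)

noncomputable def w (sg bd : Bool) : ℝ :=
  cond bd (-(D.x * (D.t * D.Lam) * D.Lam) - D.lam sg * (1 - D.t * D.Lam))
    (D.x * (D.t * D.Lam) * D.Lam - D.Lam + D.lam sg * (1 - D.t * D.Lam))
noncomputable def W0 (bd : Bool) : ℝ := cond bd D.x (1 - D.x)
noncomputable def W (sg bd : Bool) : ℝ := D.W0 bd + D.t * D.w sg bd
noncomputable def pb (bd : Bool) : ℝ := cond bd D.p D.q
noncomputable def sn (s : Bool) (z : ℝ) : ℝ := cond s z (-z)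
noncomputable def om1 : ℝ :=
  D.vt * (D.b * (D.c0 / 2) + D.t * D.r3) - D.g * (D.c0 / 2 - D.t * D.r2)
noncomputable def omd : ℝ := D.t * (D.vt * D.G3 - D.t * D.g * D.G2)
noncomputable def LK0 : ℝ := cond D.far 0 (D.mu * D.ma / 4)
noncomputable def l1 : ℝ := D.l11 + D.l21 - D.l3
noncomputable def ld : ℝ := D.g1 - D.g2 - D.g3
noncomputable def S1 : ℝ := D.l11 + 3 * D.l21 - 2 * D.l3 - D.st * (D.b * D.a1c + D.t * D.l11) -
  (2 * D.st - D.vt) * (D.b * D.a2c + D.t * D.l21) +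
  D.t * D.g * (D.b * D.a3c + D.t * D.l3)
noncomputable def S2 : ℝ := D.l21 + 3 * D.l11 - 2 * D.l3 + D.vt * (D.b * D.a2c + D.t * D.l21) +
  (2 * D.vt - D.st) * (D.b * D.a1c + D.t * D.l11) +
  D.t * D.g * (D.b * D.a3c + D.t * D.l3)
noncomputable def LK1 (lv : Bool) : ℝ :=
  cond D.far (sn lv (D.l1 / 2)) (D.mu / 2 * cond lv ((D.N0 + D.x) * D.l1 - D.S1)
    (D.S2 - (D.N0 + D.x) * D.l1))
noncomputable def LKd (lv : Bool) : ℝ :=
  cond D.far (sn lv (D.ld / 2)) (D.mu / 2 * cond lv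
    ((D.N0 + D.x) * D.ld -
      (D.y * D.g1 - (2 * D.y + D.y') * D.g2 - (2 - D.t ^ 2 * D.g) * D.g3))
    ((2 * D.y' + D.y) * D.g1 - D.y' * D.g2 - (2 - D.t ^ 2 * D.g) * D.g3 - (D.N0 + D.x) * D.ld))

noncomputable def a0 (sg bd : Bool) : ℝ := D.LK0 - D.pb bd * (sn sg D.d0 * D.W0 bd)
noncomputable def a1 (lv sg bd : Bool) : ℝ := D.E2 + D.LK1 lv -
  D.pb bd * (sn bd D.om1 + sn sg (D.d1 * D.W sg bd + D.b * (D.d0 * D.w sg bd)))
noncomputable def Q1 (lv sg bd : Bool) : ℝ := D.ee + D.LKd lv -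
  D.pb bd * (sn bd D.omd + sn sg (D.dd * D.W sg bd))

/-- the slack in one of the eight inequalities, divided by `t` -/
noncomputable def F (lv sg bd : Bool) : ℝ :=
  D.b * D.a0 sg bd + D.t * D.a1 lv sg bd + D.dl * D.Q1 lv sg bd

variable {D}

theorem lvl_eq (lv : Bool) (hst : D.st - D.vt = D.t * D.g) :
    lvl D.far D.N0 D.x D.y D.y' D.L1 D.L2 D.L3 lv =
      D.t * (D.b * D.LK0 + D.t * D.LK1 lv + D.dl * D.LKd lv) := by
  have e : D.vt = D.st - D.t * D.g := by linarith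
  unfold lvl LK0 LK1 LKd
  rcases D with ⟨far, N0, t, b, x, p, q, c0, g, st, vt, E2, k12, k23, ma, mb, r11, r21, r3, l11,
    l21, l3, dl, G1, G2, G3, g1, g2, g3, ee⟩
  simp only at e
  subst e
  cases far <;> cases lv <;>
    simp only [cond_true, cond_false, sn, levn, levm, mu, y, y', S1, S2, l1, ld, L1, L2, L3, a1c,
      a2c, a3c] <;> ring

/-- The level term of the mirror image. -/
theorem _root_.Pool.Agent.Strip051.PB.Dg.lvR_mirror (far : Bool) (N0 : ℕ)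
    (x y y' ex x1 x2 x3 : ℝ) :
    lvR far N0 x y' y ex (-x2) (-x1) (-x3) = lvR far N0 x y y' ex x1 x2 x3 := by
  cases far
  · have h1 : levn N0 0 x y' y (-x2) (-x1) (-x3) = levm N0 0 x y y' x1 x2 x3 := by
      unfold levn levm
      ring
    have h2 : levm N0 0 x y' y (-x2) (-x1) (-x3) = levn N0 0 x y y' x1 x2 x3 := by
      unfold levn levm
      ring
    simp only [lvR, levN]
    rw [h1, h2, min_comm]
  · simp only [lvR, levF]
    rw [show -x2 + -x1 - -x3 = -(x1 + x2 - x3) by ring, abs_neg]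

/-- The assumptions on the numbers of a row. -/
structure Ok (D : Dat) (k : ℝ) : Prop where
  ht : 0 ≤ D.t
  hx : 0 ≤ D.x
  hx1 : D.x ≤ 1
  hv : 0 ≤ D.t * D.vt
  hg : 0 ≤ D.g
  h1 : D.t * D.vt + D.t ^ 2 * D.g ≤ 1
  hk : 0 ≤ k
  hp : k * (1 - D.x) = 2 * D.p
  hq : k * D.x = 2 * D.q
  hst : D.st - D.vt = D.t * D.g

/-- The inequalities for one level term from the eight inequalities. -/
theorem lins {k : ℝ} (O : D.Ok k) (H : ∀ lv sg bd, 0 ≤ D.F lv sg bd) (lv : Bool) :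
    LinC D.x (D.t * D.vt) (D.t * D.vt + D.t ^ 2 * D.g) D.p D.q
      (D.t * D.vt * D.R3 + D.t ^ 2 * D.g * D.R2) (D.R3 - D.R1 - D.R2)
      (D.ex + lvl D.far D.N0 D.x D.y D.y' D.L1 D.L2 D.L3 lv) ∧
    LinC D.x (D.t ^ 2 * D.g) (D.t * D.vt + D.t ^ 2 * D.g) D.p D.q
      (D.t * D.vt * D.R3 + D.t ^ 2 * D.g * D.R2) (-(D.R3 - D.R1 - D.R2))
      (D.ex + lvl D.far D.N0 D.x D.y D.y' D.L1 D.L2 D.L3 lv) := by
  obtain ⟨ht, hx, hx1, hv, hg, h1, hk, hp, hq, hst⟩ := O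
  have e1 : ∀ sg bd, D.pb bd * (sn bd (D.t * D.vt * D.R3 + D.t ^ 2 * D.g * D.R2) +
      sn sg (D.R3 - D.R1 - D.R2) * D.W sg bd) ≤
      D.ex + lvl D.far D.N0 D.x D.y D.y' D.L1 D.L2 D.L3 lv := by
    intro sg bd
    have h := mul_nonneg ht (H lv sg bd)
    rw [lvl_eq lv hst]
    rw [← sub_nonneg]
    refine h.trans (le_of_eq ?_)
    unfold F a0 a1 Q1
    cases bd <;> cases sg <;> simp only [sn, cond_true, cond_false, R1, R2, R3, Dat.ex, om1, omd,
      d0, d1, dd, r2, W, pb] <;> ring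
  have eW : ∀ sg bd, D.W sg bd = (1 - (D.t * D.vt + D.t ^ 2 * D.g)) * cond bd
      (D.x * (1 + (D.t * D.vt + D.t ^ 2 * D.g)) - cond sg (D.t * D.vt) (D.t ^ 2 * D.g))
      (1 - D.x * (1 + (D.t * D.vt + D.t ^ 2 * D.g)) + cond sg (D.t * D.vt) (D.t ^ 2 * D.g)) := by
    intro sg bd
    cases sg <;> cases bd <;> simp only [W, W0, w, Dat.lam, Lam, cond_true, cond_false] <;> ring
  refine ⟨⟨?_, ?_⟩, ⟨?_, ?_⟩⟩
  · refine le_trans (le_of_eq ?_) (e1 true true)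
    rw [eW]
    simp only [pb, sn, cond_true]
    ring
  · refine le_trans (le_of_eq ?_) (e1 true false)
    rw [eW]
    simp only [pb, sn, cond_true, cond_false]
    ring
  · refine le_trans (le_of_eq ?_) (e1 false true)
    rw [eW]
    simp only [pb, sn, cond_true, cond_false]
    ring
  · refine le_trans (le_of_eq ?_) (e1 false false)
    rw [eW]
    simp only [pb, sn, cond_false]
    ring

theorem lvR_mono (ex : ℝ) (he : D.ex ≤ ex) :
    lvR D.far D.N0 D.x D.y D.y' D.ex D.L1 D.L2 D.L3 ≤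
      lvR D.far D.N0 D.x D.y D.y' ex D.L1 D.L2 D.L3 := by
  unfold lvR
  cases D.far
  · simp only [levN]
    linarith
  · simp only [levF]
    linarith

/-- **The row** from the eight inequalities. -/
theorem row {k : ℝ} (O : D.Ok k) {ex : ℝ} (he : D.ex ≤ ex) (H : ∀ lv sg bd, 0 ≤ D.F lv sg bd) :
    ∃ γ, 0 ≤ slc .npn (lvR D.far D.N0 D.x D.y D.y' ex D.L1 D.L2 D.L3) k D.x (-(D.t * D.st))
      (D.t * D.vt) (-(D.t ^ 2 * D.g)) D.R1 D.R2 D.R3 γ := by
  obtain ⟨lv, hlv⟩ : ∃ lv, lvR D.far D.N0 D.x D.y D.y' D.ex D.L1 D.L2 D.L3 =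
      D.ex + lvl D.far D.N0 D.x D.y D.y' D.L1 D.L2 D.L3 lv := by
    rcases lvR_eq D.far D.N0 D.x D.y D.y' D.ex D.L1 D.L2 D.L3 with h | h
    · exact ⟨true, h⟩
    · exact ⟨false, h⟩
  obtain ⟨A, B⟩ := lins O H lv
  have hla1 : la1 .npn (-(D.t * D.st)) (D.t * D.vt) (-(D.t ^ 2 * D.g)) = D.t * D.vt := rfl
  have hla2 : la2 .npn (-(D.t * D.st)) (D.t * D.vt) (-(D.t ^ 2 * D.g)) = D.t ^ 2 * D.g := by
    show -(-(D.t ^ 2 * D.g)) = _
    ring
  have hom : lom .npn (-(D.t * D.st)) (D.t * D.vt) (-(D.t ^ 2 * D.g)) D.R1 D.R2 D.R3 =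
      D.t * D.vt * D.R3 + D.t ^ 2 * D.g * D.R2 := by
    simp only [lom]
    ring
  have hr : 0 ≤ D.t ^ 2 * D.g := mul_nonneg (sq_nonneg _) O.hg
  rw [← hlv] at A B
  obtain ⟨γ, hγ⟩ := lin_slc (c := .npn) (R1 := D.R1) (R2 := D.R2) (R3 := D.R3)
    (ex := lvR D.far D.N0 D.x D.y D.y' D.ex D.L1 D.L2 D.L3) (p := D.p) (q := D.q) (k := k)
    (by decide) (by decide) O.hx O.hx1 (by rw [hla1]; exact O.hv) (by rw [hla2]; exact hr)
    (by rw [hla1, hla2]; exact O.h1) O.hk O.hp O.hq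
    (fun _ => by rw [hla1, hla2, hom]; exact A) (fun _ => by rw [hla1, hla2, hom]; exact B)
  refine ⟨γ, hγ.trans ?_⟩
  have hm := lvR_mono (D := D) ex he
  simp only [slc, slN, stn]
  linarith

/-- **The row of the mirror image** from the eight inequalities. -/
theorem row' {k : ℝ} (O : D.Ok k) {ex : ℝ} (he : D.ex ≤ ex) (H : ∀ lv sg bd, 0 ≤ D.F lv sg bd) :
    ∃ γ, 0 ≤ slc .pnn (lvR D.far D.N0 D.x D.y' D.y ex (-D.L2) (-D.L1) (-D.L3)) k D.x
      (D.t * D.vt) (-(D.t * D.st)) (-(D.t ^ 2 * D.g)) (-D.R2) (-D.R1) (-D.R3) γ := by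
  obtain ⟨lv, hlv⟩ : ∃ lv, lvR D.far D.N0 D.x D.y D.y' D.ex D.L1 D.L2 D.L3 =
      D.ex + lvl D.far D.N0 D.x D.y D.y' D.L1 D.L2 D.L3 lv := by
    rcases lvR_eq D.far D.N0 D.x D.y D.y' D.ex D.L1 D.L2 D.L3 with h | h
    · exact ⟨true, h⟩
    · exact ⟨false, h⟩
  obtain ⟨A, B⟩ := lins O H lv
  have hla1 : la1 .pnn (D.t * D.vt) (-(D.t * D.st)) (-(D.t ^ 2 * D.g)) = D.t ^ 2 * D.g := by
    show -(-(D.t ^ 2 * D.g)) = _
    ring
  have hla2 : la2 .pnn (D.t * D.vt) (-(D.t * D.st)) (-(D.t ^ 2 * D.g)) = D.t * D.vt := rfl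
  have hom : lom .pnn (D.t * D.vt) (-(D.t * D.st)) (-(D.t ^ 2 * D.g)) (-D.R2) (-D.R1) (-D.R3) =
      D.t * D.vt * D.R3 + D.t ^ 2 * D.g * D.R2 := by
    simp only [lom]
    ring
  have hr : 0 ≤ D.t ^ 2 * D.g := mul_nonneg (sq_nonneg _) O.hg
  have hsum : D.t ^ 2 * D.g + D.t * D.vt = D.t * D.vt + D.t ^ 2 * D.g := by ring
  have hd : -D.R3 - -D.R2 - -D.R1 = -(D.R3 - D.R1 - D.R2) := by ring
  have hd' : -(-(D.R3 - D.R1 - D.R2)) = D.R3 - D.R1 - D.R2 := by ring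
  rw [← hlv] at A B
  obtain ⟨γ, hγ⟩ := lin_slc (c := .pnn) (R1 := -D.R2) (R2 := -D.R1) (R3 := -D.R3)
    (ex := lvR D.far D.N0 D.x D.y D.y' D.ex D.L1 D.L2 D.L3) (p := D.p) (q := D.q) (k := k)
    (by decide) (by decide) O.hx O.hx1 (by rw [hla1]; exact hr) (by rw [hla2]; exact O.hv)
    (by rw [hla1, hla2, hsum]; exact O.h1) O.hk O.hp O.hq
    (fun _ => by rw [hla1, hla2, hom, hsum, hd]; exact B)
    (fun _ => by rw [hla1, hla2, hom, hsum, hd, hd']; exact A)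
  refine ⟨γ, hγ.trans ?_⟩
  have hm := lvR_mono (D := D) ex he
  rw [lvR_mirror]
  simp only [slc, slN, stn]
  linarith

end Dat

end Pool.Agent.Strip051.PB.Dg
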