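import Pool.Agent.Strip051.PB.DgT

/-! # The segments at the corner `(1, 1, 2)` from the certificates of the degenerate charts -/

namespace Pool.Agent.Strip051.PB.Dg

open Pool.Agent.Strip051.PB
open Pool.Agent.StripNear Pool.Agent.StripSquare Pool.Agent.Strip051.Sweep
open Pool.Agent.Strip051.LC

section

variable {n : ℕ} {P : Pos n} {RK RL : Fin (n + 1) → ℕ → ℝ → ℝ → ℝ} {pc : ℕ → Piece} {p : Pm}
  {T : Th} {far tt : Bool} {N0 D D3 W1 W2 P3 W3 : ℕ} {x κ y y' t b : ℝ} {i : Fin n}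
  {j k : Fin (n + 1)} {A B : Sd}

/-- The facts about a table at `x`. -/
structure Bs (P : Pos n) (RK RL : Fin (n + 1) → ℕ → ℝ → ℝ → ℝ) (pc : ℕ → Piece) (far : Bool)
    (N0 : ℕ) (p : Pm) (D D3 : ℕ) (x : ℝ) : Prop where
  side : SideOk P RK RL pc x
  f : p.Fit far N0 x
  T : TabOk RK RL p D x
  x0 : 0 < x
  x1 : x < 1
  hD : (D : ℝ) / S ≤ 1 / 16
  hD3 : (D3 : ℝ) / S ≤ 1 / 64

/-- The facts about a table at `x` for the last segment. -/
structure Bt (tt far : Bool) (p : Pm) (T : Th) (A : Sd) (x : ℝ) : Prop where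
  far : tt = true → far = true
  tg : tt = true → Tg p T x
  kl : tt = true → Kl p x
  ch : tt = true → ∀ t, A.ch.v t = 1

theorem half_lt_c1 (h0 : 0 ≤ y) (h1 : y < 1) : 1 / 2 < c1n y := by
  have hs := c1n_sq' (y := y) (by nlinarith)
  refine lt_of_pow_lt_pow_left₀ 2 (Real.sqrt_nonneg _) ?_
  rw [hs]
  nlinarith

theorem Bs.pt (H : Bs P RK RL pc far N0 p D D3 x) (q1 : InQ 1 y) (q2 : InQ 2 y')
    (q3 : InQ 3 (y + y')) (hi : In12 D D3 y y') (t0 : 0 < c3n (y + y')) :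
    PtOk P RK RL far N0 p D D3 x y y' (c3n (y + y')) ((c1n y - c1n y') / c3n (y + y')) := by
  obtain ⟨i1, i2, i3⟩ := hi
  have a2 := (abs_lt.1 i2).2
  have hD := H.hD
  have hD3 := H.hD3
  have b2 := q2.1
  exact ⟨geoOk q1.1 q1.2.le b2 (by nlinarith) t0 (c3n_small hD3 q3 i3) rfl q3.2, H.f, H.T, H.x0,
    H.x1, q1, q2, q3, i1, i2, i3, by linarith, by linarith⟩

/-- the ranges of the coordinates -/
theorem GeoOk.v0 (g : GeoOk y y' t b) (h : 1 ≤ y') : 0 ≤ dgvt.v t b := by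
  have := g.ey'
  have t0 := g.t0
  by_contra hc
  push Not at hc
  nlinarith [mul_neg_of_pos_of_neg t0 hc]

theorem GeoOk.n1 (g : GeoOk y y' t b) : 1 - dgh1.v t b ≠ 0 := by
  rw [dgh1_v]
  exact g.hlt.ne'

theorem GeoOk.t2 (g : GeoOk y y' t b) : t ^ 2 ≤ 1 := by
  nlinarith [g.t0, g.t1]

theorem n3_aux (t0 : 0 ≤ t) (t1 : t ≤ 1 / 4) : 1 - dgh3.v t ≠ 0 := by
  rw [dgh3_v, dgH_v]
  have h : gv t ≤ 2 / 3 := by
    unfold gv
    have h2 := Real.sqrt_nonneg (1 - t ^ 2 / 3)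
    have h3 : (1 + √(1 - t ^ 2 / 3))⁻¹ ≤ 1 := inv_le_one_of_one_le₀ (by linarith)
    linarith
  have h0 : 0 < gv t := gv_pos
  have : t * (1 / 2 + t * gv t / 4) ≤ 1 / 4 * 1 := by
    refine mul_le_mul t1 ?_ (by positivity) (by norm_num)
    nlinarith
  intro hc
  linarith

theorem Bt.ok (H : Bt tt far p T A x) (g : GeoOk y y' t b) : TgOk tt far p T A t b x :=
  fun h => ⟨H.far h, g.t0.ne', g.t2, g.q4, g.n1, n3_aux g.t0.le g.t1, H.tg h, H.kl h, H.ch h t⟩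

theorem range_t {W1 : ℕ} (q3 : InQ 3 (y + y')) (i3 : |y + y' - 2| < (D3 : ℝ) / S)
    (hW : 3 * D3 * 1073741824 ≤ W1 ^ 2) : c3n (y + y') ≤ (W1 : ℝ) / S :=
  c3n_le_of (by linarith [q3.1]) q3.2 i3 hW

theorem range_1 {W2 : ℕ} {v : ℝ} (h : v ≤ 1) (hW : 1073741824 ≤ W2) : v ≤ (W2 : ℝ) / S := by
  have : (1073741824 : ℝ) ≤ W2 := by exact_mod_cast hW
  rw [S_one, le_div_iff₀ (by norm_num)]
  linarith

theorem range_5 {W2 : ℕ} {v : ℝ} (h : v ≤ 5 / 2) (hW : 2684354560 ≤ W2) : v ≤ (W2 : ℝ) / S := by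
  have : (2684354560 : ℝ) ≤ W2 := by exact_mod_cast hW
  rw [S_one, le_div_iff₀ (by norm_num)]
  linarith

/-- The certificate of a segment, type `A`. -/
structure CtA (P : Pos n) (RK RL : Fin (n + 1) → ℕ → ℝ → ℝ → ℝ) (far tt : Bool) (p : Pm) (A B : Sd)
    (T : Th) (i : Fin n) (D3 W1 W2 P3 W3 : ℕ) (x : ℝ) : Prop where
  sa : SdOk P RK RL p A i.castSucc D3 x
  sb : SdOk P RK RL p B i.succ D3 x
  th : ThOk P RK RL p T i D3 x
  bt : Bt tt far p T B x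
  w1 : 3 * D3 * 1073741824 ≤ W1 ^ 2
  w2 : 1073741824 ≤ W2
  hx : (P3 : ℝ) / S ≤ x
  hx' : x ≤ ((P3 : ℝ) + W3) / S
  ct : ∃ t, chk3 (onCell 0 W1 0 W2 P3 W3 (fdA far tt p A B T)) t 1 1 1 = true

theorem CtA.ineq (C : CtA P RK RL far tt p A B T i D3 W1 W2 P3 W3 x)
    (h : PtOk P RK RL far N0 p D D3 x y y' (c3n (y + y')) b)
    (c1 : crv P i.castSucc 3 (y + y') ≤ c3n (y + y') * b)
    (c2 : c3n (y + y') * b ≤ crv P i.succ 3 (y + y')) :
    IneqA far p T (c3n (y + y')) b x := by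
  obtain ⟨g, -, -, x0, x1, q1, q2, q3, i1, i2, i3, -, -⟩ := id h
  have t0 := g.t0
  obtain ⟨a1, -, -⟩ := C.sa q3 i3 rfl t0
  obtain ⟨b1, -, -⟩ := C.sb q3 i3 rfl t0
  have hb : b ≤ 1 := by
    have := c2.trans (crv_le q3 _)
    by_contra hc
    push Not at hc
    nlinarith
  rw [a1] at c1
  rw [b1] at c2
  have d1 := le_of_mul_le_mul_left c1 t0
  have d2 := le_of_mul_le_mul_left c2 t0
  have key := cert12 (Q := fun t b x => 0 ≤ t → 0 ≤ b → 0 ≤ dgvt.v t b → A.ch.v t ≤ b →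
    b ≤ B.ch.v t → TgOk tt far p T B t b x → IneqA far p T t b x)
    (f := fdA far tt p A B T)
    (fun hA hB hC h t0 b0 v0 c1 c2 G => fdA_sound hA hB hC h t0 b0 v0 c1 c2 G)
    C.ct t0.le (range_t q3 i3 C.w1) g.b0 (range_1 hb C.w2) C.hx C.hx'
  exact key t0.le g.b0 (g.v0 q2.1) d1 d2 (C.bt.ok g)

/-- **Type `A`.** -/
theorem sgA1 (H : Bs P RK RL pc far N0 p D D3 x)
    (C : CtA P RK RL far tt p A B T i D3 W1 W2 P3 W3 x) :
    Sg12A P RK RL far N0 .npn 1 2 0 0 true i D D3 x := by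
  intro y y' F hi c1 c2
  have len1 := F.len1
  have len3 := F.len3
  have eX : 1 * crv P 0 1 y + -1 * crv P 0 2 y' = crv P 0 1 y - crv P 0 2 y' := by ring
  rw [eX] at len1 len3
  have tK := third_lin H.side.pinK F.q3 len1 len3 true i c1 c2
  have tL := third_lin H.side.pinL F.q3 len1 len3 true i c1 c2
  simp only [sgr, cond_true] at c1 c2 tK tL
  rw [crv0q, crv0q] at c1 c2 tK tL
  rw [crv0q, crv0q]
  have t0 : 0 < c3n (y + y') := by
    have h1 := half_lt_c1 (y := y) (by linarith [F.q1.1]) F.q1.2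
    have h2 := c1_le_half F.q2.1
    have h3 := c2.trans (crv_le F.q3 _)
    linarith
  have h := H.pt F.q1 F.q2 F.q3 hi t0
  have e := h.g.tb
  rw [e] at c1 c2 tK tL ⊢
  exact (h.tA C.th c1 c2 tK tL (C.ineq h c1 c2)).1

theorem sgA2 (H : Bs P RK RL pc far N0 p D D3 x)
    (C : CtA P RK RL far tt p A B T i D3 W1 W2 P3 W3 x) :
    Sg12A P RK RL far N0 .pnn 2 1 0 0 false i D D3 x := by
  intro y y' F hi c1 c2
  have len1 := F.len1
  have len3 := F.len3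
  have eX : 1 * crv P 0 2 y + -1 * crv P 0 1 y' = crv P 0 2 y - crv P 0 1 y' := by ring
  rw [eX] at len1 len3
  have tK := third_lin H.side.pinK F.q3 len1 len3 false i c1 c2
  have tL := third_lin H.side.pinL F.q3 len1 len3 false i c1 c2
  simp only [sgr, cond_false] at c1 c2 tK tL
  rw [crv0q, crv0q] at c1 c2 tK tL
  rw [crv0q, crv0q]
  have q3 : InQ 3 (y' + y) := by rw [add_comm]; exact F.q3
  have hi' : In12 D D3 y' y := ⟨hi.2.1, hi.1, by rw [add_comm]; exact hi.2.2⟩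
  rw [add_comm y y'] at c1 c2 tK tL ⊢
  have t0 : 0 < c3n (y' + y) := by
    have h1 := half_lt_c1 (y := y') (by linarith [F.q2.1]) F.q2.2
    have h2 := c1_le_half F.q1.1
    have h3 := c2.trans (crv_le q3 _)
    linarith
  have h := H.pt F.q2 F.q1 q3 hi' t0
  have e := h.g.tb
  have e' : c1n y - c1n y' = -(c3n (y' + y) * ((c1n y' - c1n y) / c3n (y' + y))) := by linarith
  rw [e'] at c1 c2 tK tL ⊢
  rw [neg_neg] at c1 c2 tK tL
  have k := (h.tA C.th c1 c2 tK tL (C.ineq h c1 c2)).2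
  rw [neg_neg, neg_neg] at k
  exact k

/-- The certificate of a node, type `B`. -/
structure CtB (P : Pos n) (RK RL : Fin (n + 1) → ℕ → ℝ → ℝ → ℝ) (far tt : Bool) (p : Pm) (A : Sd)
    (k : Fin (n + 1)) (i : Fin n) (D D3 W1 W2 P3 W3 : ℕ) (x : ℝ) : Prop where
  sa : SdOk P RK RL p A k D3 x
  cv : CvOk P RK RL p p.cv i.succ D x
  bt : Bt tt far p (thN A) A x
  i0 : i.castSucc = 0
  ρ1 : P.ρ i.succ ≤ 1
  sv : ∀ u, p.sv.v u = u - (D : ℝ) / S
  w1 : 3 * D3 * 1073741824 ≤ W1 ^ 2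
  w2 : 2684354560 ≤ W2
  hx : (P3 : ℝ) / S ≤ x
  hx' : x ≤ ((P3 : ℝ) + W3) / S
  ct : ∃ t, chk3 (onCell 0 W1 0 W2 P3 W3 (fdB far tt p A)) t 1 1 1 = true

theorem c1_tan (h0 : 0 ≤ y) (h1 : y ≤ 1) : c1n y ≤ 1 / 2 + 3 / 2 * (1 - y) := by
  have hs := c1n_sq' (y := y) (by nlinarith)
  apply abs_le_of_sq_le_sq' (a := c1n y) (b := 1 / 2 + 3 / 2 * (1 - y)) _ (by linarith) |>.2
  nlinarith

theorem c1_tan2 {v : ℝ} (h0 : 0 ≤ v) (h1 : v ≤ 1 / 16) : 1 / 2 - 7 / 4 * v ≤ c1n (1 + v) := by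
  have hs := c1n_sq' (y := 1 + v) (by nlinarith)
  apply abs_le_of_sq_le_sq' (a := 1 / 2 - 7 / 4 * v) (b := c1n (1 + v)) _ (Real.sqrt_nonneg _) |>.2
  nlinarith

theorem rangeB (H : Bs P RK RL pc far N0 p D D3 x)
    (h : PtOk P RK RL far N0 p D D3 x y y' (c3n (y + y')) b)
    (hv : y' - 1 ≤ 2 / 3 * c3n (y + y')) : b ≤ 5 / 2 := by
  obtain ⟨g, -, -, x0, x1, q1, q2, q3, i1, i2, i3, -, -⟩ := id h
  have t0 := g.t0
  have hD := H.hD
  have hD3 := H.hD3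
  have a2 := (abs_lt.1 i2).2
  have a3 := (abs_lt.1 i3).1
  have ht2 := tsq (by linarith [q3.1]) q3.2 (rfl : c3n (y + y') = c3n (y + y'))
  have k1 := c1_tan (y := y) (by linarith [q1.1]) q1.2.le
  have k2 := c1_tan2 (v := y' - 1) (by linarith [q2.1]) (by linarith)
  rw [show 1 + (y' - 1) = y' by ring] at k2
  have e := g.tb
  have t1 := g.t1
  obtain ⟨t, ht⟩ : ∃ t, t = c3n (y + y') := ⟨_, rfl⟩
  rw [← ht] at t0 ht2 e t1 hv
  have y3 := q3.2
  have hw : 2 - (y + y') ≤ t / 11 := by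
    have e1 : t ^ 2 = 3 / 4 * (2 - (y + y')) * (2 + (y + y')) := by rw [ht2]; ring
    have e2 : 0 ≤ 2 - (y + y') := by linarith
    have e3 : (2 - (y + y')) * (11 / 4) ≤ t ^ 2 := by nlinarith
    nlinarith
  by_contra hc
  push Not at hc
  have : t * (5 / 2) < t * b := mul_lt_mul_of_pos_left hc t0
  linarith

theorem CtB.ineq (H : Bs P RK RL pc far N0 p D D3 x)
    (C : CtB P RK RL far tt p A k i D D3 W1 W2 P3 W3 x)
    (h : PtOk P RK RL far N0 p D D3 x y y' (c3n (y + y')) b)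
    (hv : y' - 1 ≤ 2 / 3 * c3n (y + y'))
    (c1 : crv P 0 2 y' ≤ c1n y - crv P k 3 (y + y'))
    (c2 : c1n y - crv P k 3 (y + y') ≤ crv P i.succ 2 y') :
    IneqB far p A (c3n (y + y')) b x := by
  have hb := rangeB H h hv
  obtain ⟨g, -, -, x0, x1, q1, q2, q3, i1, i2, i3, -, -⟩ := id h
  have t0 := g.t0
  obtain ⟨a1, -, -⟩ := C.sa q3 i3 rfl t0
  have e := g.tb
  have ev := g.ey'
  have es := g.ey
  have v0 := g.v0 q2.1
  have hvv := dgv_v (c3n (y + y')) b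
  have hss := dgs_v (c3n (y + y')) b
  have D2 := (abs_lt.1 i2).2
  have D1 := (abs_lt.1 i1).1
  have hD := H.hD
  have hv1 : dgv.v (c3n (y + y')) b = y' - 1 := by
    rw [hvv]
    linarith
  have key := cert12 (Q := fun t b x => 0 ≤ t → 0 ≤ b → 0 ≤ dgvt.v t b → A.ch.v t ≤ b →
    dgvt.v t b ≤ 2 / 3 → b - A.ch.v t ≤ dgvt.v t b * (dgxi.v (dgv.v t b) -
      p.cv.xs.v (dgv.v t b)) → p.sv.v (dgv.v t b) ≤ 0 → p.sv.v (dgs.v t b) ≤ 0 →
    TgOk tt far p (thN A) A t b x → IneqB far p A t b x)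
    (f := fdB far tt p A)
    (fun hA hB hC h t0 b0 v0 c1 v1 c2 hv hs G => fdB_sound hA hB hC h t0 b0 v0 c1 v1 c2 hv hs G)
    C.ct t0.le (range_t q3 i3 C.w1) g.b0 (range_5 hb C.w2) C.hx C.hx'
  obtain ⟨m1, -, -⟩ := C.cv (v := y' - 1) (by linarith [q2.1]) D2
  have m4 := dgxi_v (v := y' - 1) (by linarith [q2.1]) (by linarith)
  rw [show 1 + (y' - 1) = y' by ring] at m1 m4
  refine key t0.le g.b0 v0 ?_ ?_ ?_ ?_ ?_ (C.bt.ok g)
  · rw [crv0q, a1] at c1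
    refine le_of_mul_le_mul_left ?_ t0
    linarith
  · refine le_of_mul_le_mul_left ?_ t0
    linarith
  · rw [a1, m1] at c2
    refine le_of_mul_le_mul_left ?_ t0
    rw [hv1]
    have e5 : c3n (y + y') * dgvt.v (c3n (y + y')) b = y' - 1 := by linarith
    linear_combination c2 - e - m4 + (dgxi.v (y' - 1) - p.cv.xs.v (y' - 1)) * 0 * e5 -
      (dgxi.v (y' - 1) - p.cv.xs.v (y' - 1)) * e5
  · rw [C.sv, hv1]
    linarith
  · rw [C.sv, hss]
    linarith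

/-- **Type `B`.** -/
theorem sgB1 (H : Bs P RK RL pc far N0 p D D3 x)
    (C : CtB P RK RL far tt p A k i D D3 W1 W2 P3 W3 x) :
    Sg12Bl P RK RL far N0 .npn 1 2 0 k true i D D3 x := by
  intro y y' F hi hv c1 c2
  have len1 := F.len1
  have len3 := F.len3
  have eX : sgb true * crv P k 3 (y + y') - 1 * crv P 0 1 y =
      crv P k 3 (y + y') - crv P 0 1 y := by
    show 1 * crv P k 3 (y + y') - 1 * crv P 0 1 y = _
    ring
  rw [eX] at len1 len3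
  simp only [sgr, cond_true] at c1 c2 ⊢
  have en : crv P 0 1 y - crv P k 3 (y + y') = sgr false (crv P k 3 (y + y') - crv P 0 1 y) := by
    show _ = -(_ - _)
    ring
  have c1' := c1
  have c2' := c2
  rw [en] at c1' c2'
  have tK := third_lin H.side.pinK F.q2 len1 len3 false i c1' c2'
  have tL := third_lin H.side.pinL F.q2 len1 len3 false i c1' c2'
  rw [← en] at tK tL
  rw [C.i0] at c1 tK tL
  rw [crv0q (q := 1)] at tK tL c2 c1
  rw [crv0q (q := 1)]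
  have hv' : y' - 1 ≤ 2 / 3 * c3n (y + y') := hv
  have t0 : 0 < c3n (y + y') := by
    have h1 := half_lt_c1 (y := y) (by linarith [F.q1.1]) F.q1.2
    have h2 := crv2_le_half C.ρ1 (P.nonneg _) F.q2
    have h3 : crv P k 3 (y + y') ≤ c3n (y + y') := crv_le F.q3 _
    linarith
  have h := H.pt F.q1 F.q2 F.q3 hi t0
  have k := h.tB (j := i.succ) C.sa C.cv c1 c2 tK tL (C.ineq H h hv' c1 c2)
  have e4 : ∀ z : ℝ, -sgr false z = z := fun z => by
    show - -z = z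
    ring
  rw [e4, e4] at k
  exact k

/-- The certificate of a node, type `P`. -/
structure CtP (P : Pos n) (RK RL : Fin (n + 1) → ℕ → ℝ → ℝ → ℝ) (far tt : Bool) (p : Pm) (A : Sd)
    (k : Fin (n + 1)) (i : Fin n) (D D3 W1 W2 P3 W3 : ℕ) (x : ℝ) : Prop where
  sa : SdOk P RK RL p A k D3 x
  cv : P1Ok P RK RL p i.succ D x
  bt : Bt tt far p (thN A) A x
  i0 : i.castSucc = 0
  sv : ∀ u, p.sv.v u = u - (D : ℝ) / S
  w1 : 3 * D3 * 1073741824 ≤ W1 ^ 2
  w2 : 1073741824 ≤ W2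
  hx : (P3 : ℝ) / S ≤ x
  hx' : x ≤ ((P3 : ℝ) + W3) / S
  ct : ∃ t, chk3 (onCell 0 W1 0 W2 P3 W3 (fdP far tt p A)) t 1 1 1 = true

theorem CtP.ineq (C : CtP P RK RL far tt p A k i D D3 W1 W2 P3 W3 x)
    (h : PtOk P RK RL far N0 p D D3 x y y' (c3n (y + y')) b)
    (c1 : c1n y ≤ c1n y' + crv P k 3 (y + y'))
    (c2 : c1n y' + crv P k 3 (y + y') ≤ crv P i.succ 1 y) :
    IneqP far p A (c3n (y + y')) b x := by
  obtain ⟨g, -, -, x0, x1, q1, q2, q3, i1, i2, i3, -, -⟩ := id h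
  have t0 := g.t0
  obtain ⟨a1, -, -⟩ := C.sa q3 i3 rfl t0
  have e := g.tb
  have es := g.ey
  have v0 := g.v0 q2.1
  have hss := dgs_v (c3n (y + y')) b
  have D1 := (abs_lt.1 i1).1
  have hk : crv P k 3 (y + y') ≤ c3n (y + y') := crv_le q3 _
  rw [a1] at hk
  have hch : A.ch.v (c3n (y + y')) ≤ 1 := by
    by_contra hc
    push Not at hc
    nlinarith
  have hb1 : b ≤ A.ch.v (c3n (y + y')) := by
    refine le_of_mul_le_mul_left ?_ t0
    rw [a1] at c1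
    linarith
  have ey1 : dgy1.v (c3n (y + y')) b = y := by
    have : dgy1.v (c3n (y + y')) b = 1 - dgs.v (c3n (y + y')) b := by
      simp only [dgy1]
      push_cast
      ring
    rw [this, hss]
    linarith
  have key := cert12 (Q := fun t b x => 0 ≤ t → 0 ≤ b → 0 ≤ dgvt.v t b → b ≤ A.ch.v t →
    p.sv.v (dgs.v t b) ≤ 0 → t * (A.ch.v t - b) ≤ p.x11.v (dgy1.v t b) - p.x01.v (dgy1.v t b) →
    TgOk tt far p (thN A) A t b x → IneqP far p A t b x)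
    (f := fdP far tt p A)
    (fun hA hB hC h t0 b0 v0 c1 hs c2 G => fdP_sound hA hB hC h t0 b0 v0 c1 hs c2 G)
    C.ct t0.le (range_t q3 i3 C.w1) g.b0 (range_1 (hb1.trans hch) C.w2) C.hx C.hx'
  refine key t0.le g.b0 v0 hb1 ?_ ?_ (C.bt.ok g)
  · rw [C.sv, hss]
    linarith
  · rw [ey1, ← C.cv.x1 q1 i1, ← C.cv.x0 q1 i1]
    rw [a1] at c2
    rw [mul_sub]
    linarith

/-- **Type `P`.** -/
theorem sgP1 (H : Bs P RK RL pc far N0 p D D3 x)
    (C : CtP P RK RL far tt p A k i D D3 W1 W2 P3 W3 x) :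
    Sg12B P RK RL far N0 .pnn 2 1 0 k false i D D3 x := by
  intro y y' F hi c1 c2
  have len1 := F.len1
  have len3 := F.len3
  have eX : sgb false * crv P k 3 (y + y') - 1 * crv P 0 2 y =
      sgr false (crv P k 3 (y + y')) - crv P 0 2 y := by
    show -1 * crv P k 3 (y + y') - 1 * crv P 0 2 y = -crv P k 3 (y + y') - _
    ring
  rw [eX] at len1 len3
  have en : crv P 0 2 y - sgr false (crv P k 3 (y + y')) =
      sgr false (sgr false (crv P k 3 (y + y')) - crv P 0 2 y) := by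
    show _ = -(_ - _)
    ring
  have c1' := c1
  have c2' := c2
  rw [en] at c1' c2'
  have tK := third_lin H.side.pinK F.q2 len1 len3 false i c1' c2'
  have tL := third_lin H.side.pinL F.q2 len1 len3 false i c1' c2'
  rw [← en] at tK tL
  rw [C.i0] at c1 tK tL
  have ez : crv P 0 2 y - sgr false (crv P k 3 (y + y')) = c1n y + crv P k 3 (y + y') := by
    rw [crv0q]
    show _ - -_ = _
    ring
  rw [ez] at c1 c2 tK tL
  have q3 : InQ 3 (y' + y) := by rw [add_comm]; exact F.q3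
  have hi' : In12 D D3 y' y := ⟨hi.2.1, hi.1, by rw [add_comm]; exact hi.2.2⟩
  rw [add_comm y y'] at c1 c2 tK tL ⊢
  have hk : crv P k 3 (y' + y) ≤ c3n (y' + y) := crv_le q3 _
  rw [crv0q] at c1
  have t0 : 0 < c3n (y' + y) := by
    have h1 := half_lt_c1 (y := y') (by linarith [F.q2.1]) F.q2.2
    have h2 := c1_le_half F.q1.1
    linarith
  have h := H.pt F.q2 F.q1 q3 hi' t0
  have k := h.tP (j := i.succ) (k := k) C.sa C.cv tK tL (C.ineq h c1 c2)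
  have e4 : ∀ z : ℝ, -sgr false z = z := fun z => by
    show - -z = z
    ring
  rw [e4, e4] at k
  rw [crv0q] at k ⊢
  exact k

/-- from the row to the statement -/
theorem Sg12Bl.vf {cn : Con} {qa qb : ℕ} {sn : Bool} (h : con qa qb 3 = some cn)
    (hq : qa = 1 ∨ qa = 2) (hq' : qb = 1 ∨ qb = 2) (side : SideOk P RK RL pc x)
    (hκ : κ * h0 = ken x) {i : Fin n}
    (H : Sg12Bl P RK RL true N0 cn qa qb j k sn i D D3 x) :
    SgBl (VF κ) P RK RL pc cn qa qb j k sn i D D3 x := by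
  intro y y' F hi hv c1 c2
  refine F.ngv h ?_
  rw [hκ]
  exact slt_B h hq hq' side (H y y' F hi hv c1 c2) F

theorem Sg12Bl.vn {cn : Con} {qa qb : ℕ} {sn : Bool} (h : con qa qb 3 = some cn)
    (hq : qa = 1 ∨ qa = 2) (hq' : qb = 1 ∨ qb = 2) (side : SideOk P RK RL pc x)
    (hκ : κ * h0 = ken x) {i : Fin n}
    (H : Sg12Bl P RK RL false N0 cn qa qb j k sn i D D3 x) :
    SgBl (VN N0 κ) P RK RL pc cn qa qb j k sn i D D3 x := by
  intro y y' F hi hv c1 c2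
  refine F.ngv h ?_
  rw [hκ]
  exact slt_B h hq hq' side (H y y' F hi hv c1 c2) F

end

end Pool.Agent.Strip051.PB.Dg
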