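import Pool.Agent.Strip051.PB.DgQ

/-! # The tests of the charts at the corner `(1, 1, 2)` -/

set_option linter.unusedSimpArgs false

namespace Pool.Agent.Strip051.PB.Dg

open Pool.Agent.Strip051.PB

attribute [local irreducible] padd psub pneg pmul psq pinv psqrt psqrtg pabs pps pmax pmin pphi plam
  pcase phf pnat prat pscale pnorm pdc pnc pone ppos pnn Enc pbad pzero phull pnp pflat

/-- the `e`-th test of a list -/
noncomputable def sel (l : List Bool) : ℕ → Bool :=
  List.rec (motive := fun _ => ℕ → Bool) (fun _ => false)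
    (fun b _ r e => Bool.rec (motive := fun _ => Bool) (r (Nat.sub e 1)) b (Nat.beq e 0)) l

theorem sel_true {l : List Bool} : ∀ {e : ℕ}, sel l e = true → true ∈ l := by
  induction l with
  | nil =>
    intro e h
    exact absurd h (by simp [sel])
  | cons b l ih =>
    intro e h
    have e1 : sel (b :: l) e = Bool.rec (motive := fun _ => Bool) (sel l (Nat.sub e 1)) b
      (Nat.beq e 0) := rfl
    rw [e1] at h
    rcases hb : Nat.beq e 0 with _ | _
    · rw [hb] at h
      exact List.mem_cons_of_mem _ (ih h)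
    · rw [hb] at h
      have : b = true := h
      rw [this]
      exact List.mem_cons_self

/-- the eight inequalities with the digits of the hint -/
noncomputable def all8 (f : Bool → Bool → Bool → ℕ → Bool) (H : ℕ) : Bool :=
  band (f true true true (Nat.land H 3))
    (band (f true true false (Nat.land (Nat.shiftRight H 2) 3))
    (band (f true false true (Nat.land (Nat.shiftRight H 4) 3))
    (band (f true false false (Nat.land (Nat.shiftRight H 6) 3))
    (band (f false true true (Nat.land (Nat.shiftRight H 8) 3))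
    (band (f false true false (Nat.land (Nat.shiftRight H 10) 3))
    (band (f false false true (Nat.land (Nat.shiftRight H 12) 3))
    (f false false false (Nat.land (Nat.shiftRight H 14) 3))))))))

theorem all8_true {f : Bool → Bool → Bool → ℕ → Bool} {H : ℕ} (h : all8 f H = true)
    (lv sg bd : Bool) : ∃ d, f lv sg bd d = true := by
  obtain ⟨h1, h⟩ := band_true h
  obtain ⟨h2, h⟩ := band_true h
  obtain ⟨h3, h⟩ := band_true h
  obtain ⟨h4, h⟩ := band_true h
  obtain ⟨h5, h⟩ := band_true h
  obtain ⟨h6, h⟩ := band_true h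
  obtain ⟨h7, h8⟩ := band_true h
  cases lv <;> cases sg <;> cases bd
  exacts [⟨_, h8⟩, ⟨_, h7⟩, ⟨_, h6⟩, ⟨_, h5⟩, ⟨_, h4⟩, ⟨_, h3⟩, ⟨_, h2⟩, ⟨_, h1⟩]

/-- the test of a leaf -/
noncomputable def tst (ex : List Bool) (f : Bool → Bool → Bool → ℕ → Bool) (h : ℕ) : Bool :=
  Bool.rec (motive := fun _ => Bool) (sel ex (Nat.sub (Nat.land h 7) 1))
    (all8 f (Nat.shiftRight h 3)) (Nat.beq (Nat.land h 7) 0)

theorem tst_true {ex : List Bool} {f : Bool → Bool → Bool → ℕ → Bool} {h : ℕ}
    (ht : tst ex f h = true) : true ∈ ex ∨ ∀ lv sg bd, ∃ d, f lv sg bd d = true := by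
  unfold tst at ht
  rcases hb : Nat.beq (Nat.land h 7) 0 with _ | _
  · rw [hb] at ht
    exact Or.inl (sel_true ht)
  · rw [hb] at ht
    exact Or.inr (all8_true ht)

/-- one of three tests -/
noncomputable def op3 (d : ℕ) (o0 o1 o2 : Bool) : Bool :=
  Bool.rec (motive := fun _ => Bool) (Bool.rec (motive := fun _ => Bool) o2 o1 (Nat.beq d 1)) o0
    (Nat.beq d 0)

theorem op3_true {d : ℕ} {o0 o1 o2 : Bool} (h : op3 d o0 o1 o2 = true) :
    o0 = true ∨ o1 = true ∨ o2 = true := by
  unfold op3 at h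
  rcases hb : Nat.beq d 0 with _ | _
  · rw [hb] at h
    rcases hc : Nat.beq d 1 with _ | _
    · rw [hc] at h
      exact Or.inr (Or.inr h)
    · rw [hc] at h
      exact Or.inr (Or.inl h)
  · rw [hb] at h
    exact Or.inl h

/-! ### Divided differences of kinks -/

/-- the third factor if both arguments are positive, zero if both are negative -/
noncomputable def pch3 (C C2 X : ℕ) : ℕ :=
  Bool.rec (motive := fun _ => ℕ) (Bool.rec (motive := fun _ => ℕ)
    (pmul (pflat 0x40000000) (pnorm X)) X (band (ppos C) (ppos C2))) pzero (band (pnp C) (pnp C2))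

theorem pch3_enc {E : Pt} {C C2 X : ℕ} {c c2 v : ℝ} (h1 : Enc E C c) (h2 : Enc E C2 c2)
    (h3 : Enc E X v) :
    ∃ w, Enc E (pch3 C C2 X) (w * v) ∧ w * (c - c2) = max c 0 - max c2 0 := by
  unfold pch3
  rcases hb : band (pnp C) (pnp C2) with _ | _
  · rcases hc : band (ppos C) (ppos C2) with _ | _
    · obtain ⟨w, w0, w1, hw⟩ : ∃ w : ℝ, 0 ≤ w ∧ w ≤ 1 ∧ w * (c - c2) = max c 0 - max c2 0 := by
        rcases eq_or_ne c c2 with h | h
        · exact ⟨0, le_rfl, zero_le_one, by rw [h]; ring⟩
        · refine ⟨(max c 0 - max c2 0) / (c - c2), ?_, ?_, div_mul_cancel₀ _ (sub_ne_zero.2 h)⟩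
          · rcases lt_or_gt_of_ne h with h | h
            · refine div_nonneg_of_nonpos ?_ (by linarith)
              have := max_le_max_right 0 h.le
              linarith
            · refine div_nonneg ?_ (by linarith)
              have := max_le_max_right 0 h.le
              linarith
          · rcases lt_or_gt_of_ne h with h | h
            · rw [div_le_one_of_neg (by linarith)]
              rcases le_total 0 c with h0 | h0 <;> rcases le_total 0 c2 with h3 | h3 <;>
                simp only [max_eq_left, max_eq_right, h0, h3] <;> linarith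
            · rw [div_le_one (by linarith)]
              rcases le_total 0 c with h0 | h0 <;> rcases le_total 0 c2 with h3 | h3 <;>
                simp only [max_eq_left, max_eq_right, h0, h3] <;> linarith
      refine ⟨w, ?_, hw⟩
      have e1 : Enc E (pflat 0x40000000) w := enc_flat (by norm_num)
        (mul_nonneg (Nat.cast_nonneg _) w0) (by
          rw [S_one]
          push_cast
          nlinarith)
      exact enc_mul e1 (enc_norm h3)
    · obtain ⟨k1, k2⟩ := band_true hc
      have p1 := ppos_sound h1 k1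
      have p2 := ppos_sound h2 k2
      refine ⟨1, enc_cast h3 (one_mul _).symm, ?_⟩
      rw [max_eq_left p1.le, max_eq_left p2.le, one_mul]
  · obtain ⟨k1, k2⟩ := band_true hb
    have p1 := pnp_sound h1 k1
    have p2 := pnp_sound h2 k2
    refine ⟨0, enc_cast (enc_zero E) (zero_mul _).symm, ?_⟩
    rw [max_eq_right p1, max_eq_right p2]
    ring

/-- the effective slope of a kink -/
noncomputable def kap (K : Knk) (H H2 X : ℕ) : ℕ :=
  pnorm (padd (K.k.t X) (pmul (pnorm (padd (pps (padd H (pneg (prat K.a K.b))))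
    (pps (padd H2 (pneg (prat K.a K.b)))))) (K.g.t X)))

/-- the divided difference of a sum of kinks -/
noncomputable def ksl (l : List Knk) (H H2 X : ℕ) : ℕ :=
  List.rec (motive := fun _ => ℕ) pzero (fun K _ r => padd
    (pch3 (padd H (pneg (prat K.a K.b))) (padd H2 (pneg (prat K.a K.b))) (kap K H H2 X)) r) l

/-- the divided difference of a sum of kinks times a factor -/
noncomputable def kslI (l : List Knk) (H H2 I X : ℕ) : ℕ :=
  List.rec (motive := fun _ => ℕ) pzero (fun K _ r => padd
    (pch3 (padd H (pneg (prat K.a K.b))) (padd H2 (pneg (prat K.a K.b)))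
      (pmul (kap K H H2 X) I)) r) l

theorem kap_enc {E : Pt} (K : Knk) {H H2 X : ℕ} {h h2 x : ℝ} (e1 : Enc E H h) (e2 : Enc E H2 h2)
    (e3 : Enc E X x) : Enc E (kap K H H2 X) (K.k.v x +
      (max (h - (K.a : ℝ) / K.b) 0 + max (h2 - (K.a : ℝ) / K.b) 0) * K.g.v x) :=
  enc_norm (enc_add (K.k.enc e3) (enc_mul (enc_norm (enc_add (enc_pos (enc_subr K.a K.b e1))
    (enc_pos (enc_subr K.a K.b e2)))) (K.g.enc e3)))

theorem ksl_enc {E : Pt} (l : List Knk) {H H2 X : ℕ} {h h2 x : ℝ} (e1 : Enc E H h)
    (e2 : Enc E H2 h2) (e3 : Enc E X x) : ∃ s, Enc E (ksl l H H2 X) s ∧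
      s * (h - h2) = (pfn l).v h x - (pfn l).v h2 x := by
  induction l with
  | nil => exact ⟨0, enc_zero E, by rw [pfn_nil, pfn_nil]; ring⟩
  | cons K l ih =>
    obtain ⟨s, hs, hs'⟩ := ih
    obtain ⟨w, hw, hw'⟩ := pch3_enc (enc_subr K.a K.b e1) (enc_subr K.a K.b e2)
      (kap_enc K e1 e2 e3)
    refine ⟨_, enc_add hw hs, ?_⟩
    rw [pfn_cons, pfn_cons]
    linear_combination hs' + (K.k.v x + (max (h - (K.a : ℝ) / K.b) 0 +
      max (h2 - (K.a : ℝ) / K.b) 0) * K.g.v x) * hw'

theorem kslI_enc {E : Pt} (l : List Knk) {H H2 I X : ℕ} {h h2 i x : ℝ} (e1 : Enc E H h)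
    (e2 : Enc E H2 h2) (ei : Enc E I i) (e3 : Enc E X x) : ∃ s, Enc E (kslI l H H2 I X) s ∧
      s * (h - h2) = i * ((pfn l).v h x - (pfn l).v h2 x) := by
  induction l with
  | nil => exact ⟨0, enc_zero E, by rw [pfn_nil, pfn_nil]; ring⟩
  | cons K l ih =>
    obtain ⟨s, hs, hs'⟩ := ih
    obtain ⟨w, hw, hw'⟩ := pch3_enc (enc_subr K.a K.b e1) (enc_subr K.a K.b e2)
      (enc_mul (kap_enc K e1 e2 e3) ei)
    refine ⟨_, enc_add hw hs, ?_⟩
    rw [pfn_cons, pfn_cons]
    linear_combination hs' + (K.k.v x + (max (h - (K.a : ℝ) / K.b) 0 +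
      max (h2 - (K.a : ℝ) / K.b) 0) * K.g.v x) * i * hw'

/-! ### The exclusions -/

section

variable {p : Pm} {T : Th} {A B : Sd} {t b x : ℝ} {E : Pt} {A' B' C' : ℕ}

theorem dgxn_v : dgxn.v t b = -dgvt.v t b := rfl
theorem dgxA_v : (dgxA A).v t b = A.ch.v t - b := rfl
theorem dgxB_v : (dgxB B).v t b = b - B.ch.v t := rfl
theorem dgxP_v : (dgxP A).v t b = b - A.ch.v t := rfl
theorem dgx3_v : dgx3.v t b = dgvt.v t b - 2 / 3 := by
  simp only [dgx3]
  push_cast
  ring
theorem dgxK_v : (dgxK p A).v t b = b - A.ch.v t - dgvt.v t b *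
    (dgxi.v (dgv.v t b) - p.cv.xs.v (dgv.v t b)) := rfl
theorem dgxv_v : (dgxv p).v t b = p.sv.v (dgv.v t b) := rfl
theorem dgxs_v : (dgxs p).v t b = p.sv.v (dgs.v t b) := rfl
theorem dgxX_v : (dgxX p A).v t b = t * (A.ch.v t - b) -
    (p.x11.v (dgy1.v t b) - p.x01.v (dgy1.v t b)) := rfl

/-! ### The sums -/

/-- the sum, type `A`, second vertex -/
noncomputable def SAF (lv sg bd : Bool) (p : Pm) (T : Th) : Fn3 :=
  match lv, sg, bd with
  | true, true, true => dgFAnApA p T
  | true, true, false => dgFAnApB p T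
  | true, false, true => dgFAnAmA p T
  | true, false, false => dgFAnAmB p T
  | false, true, true => dgFAnBpA p T
  | false, true, false => dgFAnBpB p T
  | false, false, true => dgFAnBmA p T
  | false, false, false => dgFAnBmB p T

/-- the sum, type `B` -/
noncomputable def SBF (far lv sg bd : Bool) (p : Pm) (A : Sd) (T : Th) : Fn3 :=
  match far, lv, sg, bd with
  | true, true, true, true => dgFBfApA p A T
  | true, true, true, false => dgFBfApB p A T
  | true, true, false, true => dgFBfAmA p A T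
  | true, true, false, false => dgFBfAmB p A T
  | true, false, true, true => dgFBfBpA p A T
  | true, false, true, false => dgFBfBpB p A T
  | true, false, false, true => dgFBfBmA p A T
  | true, false, false, false => dgFBfBmB p A T
  | false, true, true, true => dgFBnApA p A T
  | false, true, true, false => dgFBnApB p A T
  | false, true, false, true => dgFBnAmA p A T
  | false, true, false, false => dgFBnAmB p A T
  | false, false, true, true => dgFBnBpA p A T
  | false, false, true, false => dgFBnBpB p A T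
  | false, false, false, true => dgFBnBmA p A T
  | false, false, false, false => dgFBnBmB p A T

/-- the sum, type `P` -/
noncomputable def SPF (far lv sg bd : Bool) (p : Pm) (A : Sd) (T : Th) : Fn3 :=
  match far, lv, sg, bd with
  | true, true, true, true => dgFPfApA p A T
  | true, true, true, false => dgFPfApB p A T
  | true, true, false, true => dgFPfAmA p A T
  | true, true, false, false => dgFPfAmB p A T
  | true, false, true, true => dgFPfBpA p A T
  | true, false, true, false => dgFPfBpB p A T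
  | true, false, false, true => dgFPfBmA p A T
  | true, false, false, false => dgFPfBmB p A T
  | false, true, true, true => dgFPnApA p A T
  | false, true, true, false => dgFPnApB p A T
  | false, true, false, true => dgFPnAmA p A T
  | false, true, false, false => dgFPnAmB p A T
  | false, false, true, true => dgFPnBpA p A T
  | false, false, true, false => dgFPnBpB p A T
  | false, false, false, true => dgFPnBmA p A T
  | false, false, false, false => dgFPnBmB p A T

theorem SAF_v (lv sg bd : Bool) : (SAF lv sg bd p T).v t b x =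
    b * (a0F sg bd p).v x + t * (a1F false lv sg bd p T).v t b x := by
  cases lv <;> cases sg <;> cases bd <;> rfl

theorem SBF_v (far lv sg bd : Bool) : (SBF far lv sg bd p A T).v t b x =
    b * cond far 0 ((a0F sg bd p).v x) + t * (a1F far lv sg bd p T).v t b x +
      (b - A.ch.v t) * (QBF far lv sg bd p).v t b x := by
  cases far
  · cases lv <;> cases sg <;> cases bd <;> rfl
  · have e : (SBF true lv sg bd p A T).v t b x = t * (a1F true lv sg bd p T).v t b x +
      (b - A.ch.v t) * (QBF true lv sg bd p).v t b x := by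
      cases lv <;> cases sg <;> cases bd <;> rfl
    rw [e, cond_true]
    ring

theorem SPF_v (far lv sg bd : Bool) : (SPF far lv sg bd p A T).v t b x =
    b * cond far 0 ((a0F sg bd p).v x) + t * (a1F far lv sg bd p T).v t b x +
      (A.ch.v t - b) * (QPF far lv sg bd p).v t b x := by
  cases far
  · cases lv <;> cases sg <;> cases bd <;> rfl
  · have e : (SPF true lv sg bd p A T).v t b x = t * (a1F true lv sg bd p T).v t b x +
      (A.ch.v t - b) * (QPF true lv sg bd p).v t b x := by
      cases lv <;> cases sg <;> cases bd <;> rfl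
    rw [e, cond_true]
    ring

/-! ### The test functions -/

/-- the divided differences of a leaf -/
noncomputable def ts1 (p : Pm) (A B C : ℕ) : ℕ :=
  pnorm (padd ((dgEa p).t A B C) (kslI p.l2 (dgh1.t A B) (dgh3.t A) (pinv A) C))
noncomputable def ts2 (p : Pm) (A B C : ℕ) : ℕ :=
  pnorm (padd ((dgEm p).t A B C) (ksl p.l1 (dgh1.t A B) (dgh2.t A B) C))
noncomputable def ts3 (p : Pm) (A B C : ℕ) : ℕ :=
  pnorm (padd ((dgEp p).t A B C) (ksl p.l12 (dgh1.t A B) (dgh2.t A B) C))
noncomputable def ts4 (p : Pm) (A B C : ℕ) : ℕ :=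
  pnorm (padd ((dgEn p).t A B C) (ksl p.l12 (dgh2.t A B) (dgh3.t A) C))

/-- the first part of the first test -/
noncomputable def tz (far sg bd : Bool) (p : Pm) (C : ℕ) : Bool :=
  cond far true (pnn ((a0F sg bd p).t C))

theorem tz_sound {far sg bd : Bool} (h : tz far sg bd p C' = true) (hC : Enc E C' x) :
    0 ≤ cond far 0 ((a0F sg bd p).v x) := by
  cases far
  · exact pnn_sound ((a0F sg bd p).enc hC) h
  · exact le_rfl

/-- the test function, type `A`; `tt` for the last segment -/
noncomputable def fdA (far tt : Bool) (p : Pm) (Sa Sb : Sd) (T : Th) (h A B C : ℕ) : Bool :=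
  tst [ppos (dgxn.t A B), ppos ((dgxA Sa).t A B), ppos ((dgxB Sb).t A B)]
    (fun lv sg bd d => op3 d (band (tz far sg bd p C) (ppos ((a1F far lv sg bd p T).t A B C)))
      (cond far false (ppos ((SAF lv sg bd p T).t A B C)))
      (cond tt (ppos ((QtF lv sg bd p T).t A B C (ts1 p A B C) (ts2 p A B C) (ts3 p A B C)
        (ts4 p A B C))) false)) h

/-- the test function, type `B` -/
noncomputable def fdB (far tt : Bool) (p : Pm) (Sa : Sd) (h A B C : ℕ) : Bool :=
  tst [ppos (dgxn.t A B), ppos ((dgxA Sa).t A B), ppos (dgx3.t A B), ppos ((dgxK p Sa).t A B),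
      ppos ((dgxv p).t A B), ppos ((dgxs p).t A B)]
    (fun lv sg bd d => op3 d (band (tz far sg bd p C) (band
      (ppos ((a1F far lv sg bd p (thN Sa)).t A B C)) (pnn ((QBF far lv sg bd p).t A B C))))
      (ppos ((SBF far lv sg bd p Sa (thN Sa)).t A B C))
      (cond tt (ppos ((TBF lv sg bd p (thN Sa)).t A B C (ts1 p A B C) (ts2 p A B C) (ts3 p A B C)
        (ts4 p A B C))) false)) h

/-- the test function, type `P` -/
noncomputable def fdP (far tt : Bool) (p : Pm) (Sa : Sd) (h A B C : ℕ) : Bool :=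
  tst [ppos (dgxn.t A B), ppos ((dgxP Sa).t A B), ppos ((dgxs p).t A B), ppos ((dgxX p Sa).t A B)]
    (fun lv sg bd d => op3 d (band (tz far sg bd p C) (band
      (ppos ((a1F far lv sg bd p (thN Sa)).t A B C)) (pnn ((QPF far lv sg bd p).t A B C))))
      (ppos ((SPF far lv sg bd p Sa (thN Sa)).t A B C))
      (cond tt (ppos ((TPF lv sg bd p (thN Sa)).t A B C (ts1 p A B C) (ts2 p A B C) (ts3 p A B C)
        (ts4 p A B C))) false)) h

/-- the facts about the combined kinks -/
structure Kl (p : Pm) (x : ℝ) : Prop where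
  l2 : ∀ h, (pfn p.l2).v h x = 2 * (pfn p.lb).v h x + (pfn p.la).v h x
  l1 : ∀ h, (pfn p.l1).v h x = (pfn p.la).v h x + (pfn p.lb).v h x

theorem ts_enc (t0 : t ≠ 0) (H : Tg p T x) (K : Kl p x) (hA : Enc E A' t) (hB : Enc E B' b)
    (hC : Enc E C' x) : ∃ sa mp cp cm, Enc E (ts1 p A' B' C') sa ∧ Enc E (ts2 p A' B' C') mp ∧
      Enc E (ts3 p A' B' C') cp ∧ Enc E (ts4 p A' B' C') cm ∧ Dv p t b x sa mp cp cm := by
  have e1 := dgh1.enc hA hB
  have e2 := dgh2.enc hA hB
  have e3 := dgh3.enc hA
  obtain ⟨s1, a1, b1⟩ := kslI_enc p.l2 e1 e3 (enc_inv hA) hC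
  obtain ⟨s2, a2, b2⟩ := ksl_enc p.l1 e1 e2 hC
  obtain ⟨s3, a3, b3⟩ := ksl_enc p.l12 e1 e2 hC
  obtain ⟨s4, a4, b4⟩ := ksl_enc p.l12 e2 e3 hC
  refine ⟨_, _, _, _, enc_norm (enc_add ((dgEa p).enc hA hB hC) a1),
    enc_norm (enc_add ((dgEm p).enc hA hB hC) a2), enc_norm (enc_add ((dgEp p).enc hA hB hC) a3),
    enc_norm (enc_add ((dgEn p).enc hA hB hC) a4), ?_, ?_, ?_, ?_⟩
  · have hEa : (dgEa p).v t b x = (2 * p.cb.v x + p.ca.v x) * (dgh1t.v t b + dgH.v t) := by
      simp only [dgEa]
      push_cast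
      ring
    have hi : t * t⁻¹ = 1 := mul_inv_cancel₀ t0
    have h1 := dgh1_v t b
    have h3 := dgh3_v t
    rw [K.l2, K.l2] at b1
    rw [hEa]
    linear_combination -t * b1 - (2 * (pfn p.lb).v (dgh1.v t b) x + (pfn p.la).v (dgh1.v t b) x -
      (2 * (pfn p.lb).v (dgh3.v t) x + (pfn p.la).v (dgh3.v t) x)) * hi -
      (2 * p.cb.v x + p.ca.v x) * (dgh3.v t - dgh1.v t b) * (h1 + h3)
  · have hE : (dgEm p).v t b x = (p.ca.v x + p.cb.v x) * (dgh1.v t b + dgh2.v t b) := rfl
    rw [K.l1, K.l1] at b2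
    rw [hE]
    linear_combination b2
  · have hE : (dgEp p).v t b x = p.c23.v x * (dgh1.v t b + dgh2.v t b) := rfl
    rw [H.l12, H.l12] at b3
    rw [hE]
    linear_combination b3
  · have hE : (dgEn p).v t b x = p.c23.v x * (dgh3.v t + dgh2.v t b) := rfl
    rw [H.l12, H.l12] at b4
    rw [hE]
    linear_combination -b4

/-- what the last segment needs -/
def TgOk (tt far : Bool) (p : Pm) (T : Th) (A : Sd) (t b x : ℝ) : Prop :=
  tt = true → far = true ∧ t ≠ 0 ∧ t ^ 2 ≤ 1 ∧ qv t b ≤ 4 ∧ 1 - dgh1.v t b ≠ 0 ∧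
    1 - dgh3.v t ≠ 0 ∧ Tg p T x ∧ Kl p x ∧ A.ch.v t = 1

theorem fdA_sound {far tt : Bool} {Sa Sb : Sd} {h : ℕ} (hA : Enc E A' t) (hB : Enc E B' b)
    (hC : Enc E C' x) (ht : fdA far tt p Sa Sb T h A' B' C' = true) (t0 : 0 ≤ t) (b0 : 0 ≤ b)
    (v0 : 0 ≤ dgvt.v t b) (c1 : Sa.ch.v t ≤ b) (c2 : b ≤ Sb.ch.v t)
    (G : TgOk tt far p T Sb t b x) : IneqA far p T t b x := by
  unfold fdA at ht
  rcases tst_true ht with h1 | h1
  · exfalso
    simp only [List.mem_cons, List.not_mem_nil, or_false] at h1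
    rcases h1 with h1 | h1 | h1
    · have := ppos_sound (dgxn.enc hA hB) h1.symm
      rw [dgxn_v] at this
      linarith
    · have := ppos_sound ((dgxA Sa).enc hA hB) h1.symm
      rw [dgxA_v] at this
      linarith
    · have := ppos_sound ((dgxB Sb).enc hA hB) h1.symm
      rw [dgxB_v] at this
      linarith
  · intro lv sg bd
    obtain ⟨d, hd⟩ := h1 lv sg bd
    rcases op3_true hd with k | k | k
    · obtain ⟨k1, k2⟩ := band_true k
      have m1 := tz_sound k1 hC
      have m2 := (ppos_sound ((a1F far lv sg bd p T).enc hA hB hC) k2).le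
      exact add_nonneg (mul_nonneg b0 m1) (mul_nonneg t0 m2)
    · cases far
      · have m := ppos_sound ((SAF lv sg bd p T).enc hA hB hC) k
        rw [SAF_v] at m
        exact m.le
      · exact absurd k (by simp)
    · cases tt
      · exact absurd k (by simp)
      · obtain ⟨g1, g2, g3, g4, g5, g6, g7, g8, g9⟩ := G rfl
        subst g1
        obtain ⟨sa, mp, cp, cm, s1, s2, s3, s4, V⟩ := ts_enc g2 g7 g8 hA hB hC
        have m := ppos_sound ((QtF lv sg bd p T).enc hA hB hC s1 s2 s3 s4) k
        rw [a1_tight g2 g3 g4 g5 g6 g7 V, cond_true, mul_zero, zero_add]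
        rw [g9] at c2
        exact mul_nonneg t0 (mul_nonneg (by linarith) m.le)

theorem fdB_sound {far tt : Bool} {Sa : Sd} {h : ℕ} (hA : Enc E A' t) (hB : Enc E B' b)
    (hC : Enc E C' x) (ht : fdB far tt p Sa h A' B' C' = true) (t0 : 0 ≤ t) (b0 : 0 ≤ b)
    (v0 : 0 ≤ dgvt.v t b) (c1 : Sa.ch.v t ≤ b) (v1 : dgvt.v t b ≤ 2 / 3)
    (c2 : b - Sa.ch.v t ≤ dgvt.v t b * (dgxi.v (dgv.v t b) - p.cv.xs.v (dgv.v t b)))
    (hv : p.sv.v (dgv.v t b) ≤ 0) (hs : p.sv.v (dgs.v t b) ≤ 0)
    (G : TgOk tt far p (thN Sa) Sa t b x) : IneqB far p Sa t b x := by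
  unfold fdB at ht
  rcases tst_true ht with h1 | h1
  · exfalso
    simp only [List.mem_cons, List.not_mem_nil, or_false] at h1
    rcases h1 with h1 | h1 | h1 | h1 | h1 | h1
    · have := ppos_sound (dgxn.enc hA hB) h1.symm
      rw [dgxn_v] at this
      linarith
    · have := ppos_sound ((dgxA Sa).enc hA hB) h1.symm
      rw [dgxA_v] at this
      linarith
    · have := ppos_sound (dgx3.enc hA hB) h1.symm
      rw [dgx3_v] at this
      linarith
    · have := ppos_sound ((dgxK p Sa).enc hA hB) h1.symm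
      rw [dgxK_v] at this
      linarith
    · have := ppos_sound ((dgxv p).enc hA hB) h1.symm
      rw [dgxv_v] at this
      linarith
    · have := ppos_sound ((dgxs p).enc hA hB) h1.symm
      rw [dgxs_v] at this
      linarith
  · intro lv sg bd
    obtain ⟨d, hd⟩ := h1 lv sg bd
    rcases op3_true hd with k | k | k
    · obtain ⟨k1, k2⟩ := band_true k
      obtain ⟨k2, k3⟩ := band_true k2
      have m1 := tz_sound k1 hC
      have m2 := (ppos_sound ((a1F far lv sg bd p (thN Sa)).enc hA hB hC) k2).le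
      have m3 := pnn_sound ((QBF far lv sg bd p).enc hA hB hC) k3
      exact add_nonneg (add_nonneg (mul_nonneg b0 m1) (mul_nonneg t0 m2))
        (mul_nonneg (by linarith) m3)
    · have m := ppos_sound ((SBF far lv sg bd p Sa (thN Sa)).enc hA hB hC) k
      rw [SBF_v] at m
      exact m.le
    · cases tt
      · exact absurd k (by simp)
      · obtain ⟨g1, g2, g3, g4, g5, g6, g7, g8, g9⟩ := G rfl
        subst g1
        obtain ⟨sa, mp, cp, cm, s1, s2, s3, s4, V⟩ := ts_enc g2 g7 g8 hA hB hC
        have m := ppos_sound ((TBF lv sg bd p (thN Sa)).enc hA hB hC s1 s2 s3 s4) k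
        rw [TBF_v] at m
        rw [a1_tight g2 g3 g4 g5 g6 g7 V, cond_true, mul_zero, zero_add, g9]
        rw [g9] at c1
        have := mul_nonneg (by linarith : (0 : ℝ) ≤ b - 1) m.le
        linarith

theorem fdP_sound {far tt : Bool} {Sa : Sd} {h : ℕ} (hA : Enc E A' t) (hB : Enc E B' b)
    (hC : Enc E C' x) (ht : fdP far tt p Sa h A' B' C' = true) (t0 : 0 ≤ t) (b0 : 0 ≤ b)
    (v0 : 0 ≤ dgvt.v t b) (c1 : b ≤ Sa.ch.v t) (hs : p.sv.v (dgs.v t b) ≤ 0)
    (c2 : t * (Sa.ch.v t - b) ≤ p.x11.v (dgy1.v t b) - p.x01.v (dgy1.v t b))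
    (G : TgOk tt far p (thN Sa) Sa t b x) : IneqP far p Sa t b x := by
  unfold fdP at ht
  rcases tst_true ht with h1 | h1
  · exfalso
    simp only [List.mem_cons, List.not_mem_nil, or_false] at h1
    rcases h1 with h1 | h1 | h1 | h1
    · have := ppos_sound (dgxn.enc hA hB) h1.symm
      rw [dgxn_v] at this
      linarith
    · have := ppos_sound ((dgxP Sa).enc hA hB) h1.symm
      rw [dgxP_v] at this
      linarith
    · have := ppos_sound ((dgxs p).enc hA hB) h1.symm
      rw [dgxs_v] at this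
      linarith
    · have := ppos_sound ((dgxX p Sa).enc hA hB) h1.symm
      rw [dgxX_v] at this
      linarith
  · intro lv sg bd
    obtain ⟨d, hd⟩ := h1 lv sg bd
    rcases op3_true hd with k | k | k
    · obtain ⟨k1, k2⟩ := band_true k
      obtain ⟨k2, k3⟩ := band_true k2
      have m1 := tz_sound k1 hC
      have m2 := (ppos_sound ((a1F far lv sg bd p (thN Sa)).enc hA hB hC) k2).le
      have m3 := pnn_sound ((QPF far lv sg bd p).enc hA hB hC) k3
      exact add_nonneg (add_nonneg (mul_nonneg b0 m1) (mul_nonneg t0 m2))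
        (mul_nonneg (by linarith) m3)
    · have m := ppos_sound ((SPF far lv sg bd p Sa (thN Sa)).enc hA hB hC) k
      rw [SPF_v] at m
      exact m.le
    · cases tt
      · exact absurd k (by simp)
      · obtain ⟨g1, g2, g3, g4, g5, g6, g7, g8, g9⟩ := G rfl
        subst g1
        obtain ⟨sa, mp, cp, cm, s1, s2, s3, s4, V⟩ := ts_enc g2 g7 g8 hA hB hC
        have m := ppos_sound ((TPF lv sg bd p (thN Sa)).enc hA hB hC s1 s2 s3 s4) k
        rw [TPF_v] at m
        rw [a1_tight g2 g3 g4 g5 g6 g7 V, cond_true, mul_zero, zero_add, g9]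
        rw [g9] at c1
        have := mul_nonneg (by linarith : (0 : ℝ) ≤ 1 - b) m.le
        linarith

end

end Pool.Agent.Strip051.PB.Dg
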