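import Pool.Agent.Strip051.PB.DgFn
import Pool.Agent.Strip051.PB.DgR

/-! # Values of the functions in the charts at the corner `(1, 1, 2)` -/

set_option linter.unusedSimpArgs false
set_option linter.unusedTactic false

namespace Pool.Agent.Strip051.PB.Dg

open Pool.Agent.Strip051.PB

theorem dgg_v (t : ℝ) : dgg.v t = gv t := by
  simp only [dgg, gv]
  push_cast
  rw [show (1 : ℝ) / 3 * t ^ 2 = t ^ 2 / 3 by ring]

theorem dgtg_v (t : ℝ) : dgtg.v t = t * gv t := by
  simp only [dgtg, dgg_v]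

theorem dgw_v (t : ℝ) : dgw.v t = t ^ 2 * gv t := by
  simp only [dgw, dgtg_v]
  ring

theorem dgu_v (t : ℝ) : dgu.v t = 2 - t ^ 2 * gv t := by
  simp only [dgu, dgw_v]
  push_cast
  ring

theorem dgq_v (t b : ℝ) : dgq.v t b = qv t b := by
  simp only [dgq, qv]
  push_cast
  ring

theorem dgk_v (t b : ℝ) : dgk.v t b = kv t b := by
  simp only [dgk, kv, dgq_v]
  push_cast
  ring_nf

/-- `h / (1 - b)` -/
noncomputable def hcv (t b : ℝ) : ℝ := 4 / 9 * (1 + b) * (qv t b * (kv t b + 1 / 3))⁻¹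

theorem dghc_v (t b : ℝ) : dghc.v t b = hcv t b := by
  simp only [dghc, hcv, dgq_v, dgk_v]
  push_cast
  ring

theorem dgh_v (t b : ℝ) : dgh.v t b = hv t b := by
  simp only [dgh, hv, dghc_v, hcv]
  push_cast
  ring

theorem hv_hcv (t b : ℝ) : hv t b = (1 - b) * hcv t b := by
  unfold hv hcv
  ring

theorem dge12_v (t b : ℝ) : dge12.v t b =
    gv t / 4 + hv t b * (3 / 8 * (2 - t ^ 2 * gv t) + 3 / 4 * (t * b)) := by
  simp only [dge12, dgg_v, dgh_v, dgu_v]
  push_cast
  ring

theorem dgh1t_v (t b : ℝ) : dgh1t.v t b = b / 2 + t * dge12.v t b := by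
  simp only [dgh1t]

theorem dgh1_v (t b : ℝ) : dgh1.v t b = t * dgh1t.v t b := by
  simp only [dgh1]

theorem dge23_v (t b : ℝ) : dge23.v t b =
    gv t / 4 - 3 / 4 * ((2 - t ^ 2 * gv t) * hv t b) := by
  simp only [dge23, dgg_v, dgh_v, dgu_v]
  push_cast
  ring

theorem dgh2t_v (t b : ℝ) : dgh2t.v t b = b / 2 + t * dge23.v t b := by
  simp only [dgh2t]

theorem dgh2_v (t b : ℝ) : dgh2.v t b = t * dgh2t.v t b := by
  simp only [dgh2]

theorem dgat_v (t b : ℝ) : dgat.v t b =
    b / 2 + t * (3 / 4 * ((2 - t ^ 2 * gv t) * hv t b) - gv t / 4) := by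
  simp only [dgat, dgg_v, dgh_v, dgu_v]
  push_cast
  ring

theorem dgrho_v (t b : ℝ) : dgrho.v t b =
    (hv t b * (3 / 8 * (2 - t ^ 2 * gv t) - 3 / 4 * (t * b)) - gv t / 2 -
      2 * (dgat.v t b * dgh1t.v t b)) * (1 - dgh1.v t b)⁻¹ / 2 := by
  simp only [dgrho, dgg_v, dgh_v, dgu_v]
  push_cast
  ring

theorem dgst_v (t b : ℝ) : dgst.v t b = b * kv t b + t * gv t / 2 := by
  simp only [dgst, dgk_v, dgtg_v]

theorem dgvt_v (t b : ℝ) : dgvt.v t b = b * kv t b - t * gv t / 2 := by
  simp only [dgvt, dgk_v, dgtg_v]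

theorem dgs_v (t b : ℝ) : dgs.v t b = t * dgst.v t b := by
  simp only [dgs]

theorem dgv_v (t b : ℝ) : dgv.v t b = t * dgvt.v t b := by
  simp only [dgv]

theorem st_vt (t b : ℝ) : dgst.v t b - dgvt.v t b = t * dgg.v t := by
  rw [dgst_v, dgvt_v, dgg_v]
  ring

theorem dgs1_v (t b : ℝ) : dgs1.v t b = t * b * hv t b + gv t / 2 := by
  simp only [dgs1, dgh_v, dgg_v]

theorem dgv1_v (t b : ℝ) : dgv1.v t b = t * b * hv t b - gv t / 2 := by
  simp only [dgv1, dgh_v, dgg_v]

theorem dgEq_v (t b : ℝ) : dgEq.v t b =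
    (1 + b) * (qv t b - 1) * (1 + kv t b * qv t b)⁻¹ / 6 := by
  simp only [dgEq, dgq_v, dgk_v]
  push_cast
  ring

theorem dgE2_v (t b : ℝ) : dgE2.v t b = (1 - b) * dgEq.v t b := by
  simp only [dgE2]
  push_cast
  ring

theorem dgH_v (t : ℝ) : dgH.v t = 1 / 2 + t * gv t / 4 := by
  simp only [dgH, dgtg_v]
  push_cast
  ring

theorem dgh3_v (t : ℝ) : dgh3.v t = t * dgH.v t := by
  simp only [dgh3]

theorem dgp_v (x : ℝ) : dgp.v x = esn x / x := by
  simp only [dgp, dges, esn, c1n]
  push_cast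
  ring_nf

theorem dgq1_v (x : ℝ) : dgq1.v x = esn x / (1 - x) := by
  simp only [dgq1, dges, esn, c1n]
  push_cast
  ring_nf

/-! ### The numbers of a row -/

/-- The numbers of a row from the parameters and the third side. -/
noncomputable def dat (far : Bool) (N0 : ℕ) (p : Pm) (T : Th)
    (t b x dl G1 G2 G3 g1 g2 g3 ee : ℝ) : Dat :=
  ⟨far, N0, t, b, x, dgp.v x, dgq1.v x, p.c0.v x, dgg.v t, dgst.v t b, dgvt.v t b, dgE2.v t b,
    p.k12.v x, p.k23.v x, p.ma.v x, p.mb.v x, (dgr11 p).v t b x, (dgr21 p).v t b x, T.r.v t b x,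
    (dgl11 p).v t b x, (dgl21 p).v t b x, T.l.v t b x, dl, G1, G2, G3, g1, g2, g3, ee⟩

/-- The parameters fit to the vertex. -/
structure Pm.Fit (p : Pm) (far : Bool) (N0 : ℕ) (x : ℝ) : Prop where
  mu : far = false → p.mu.v x = mun N0 x
  nx : p.nx.v x = N0 + x
  far : far = true → p.k12.v x = p.k23.v x

/-- the second order part of an inequality -/
noncomputable def a1F (far lv sg bd : Bool) (p : Pm) (T : Th) : Fn3 :=
  match far, lv, sg, bd with
  | true, true, true, true => dga1fApA p T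
  | true, true, true, false => dga1fApB p T
  | true, true, false, true => dga1fAmA p T
  | true, true, false, false => dga1fAmB p T
  | true, false, true, true => dga1fBpA p T
  | true, false, true, false => dga1fBpB p T
  | true, false, false, true => dga1fBmA p T
  | true, false, false, false => dga1fBmB p T
  | false, true, true, true => dga1nApA p T
  | false, true, true, false => dga1nApB p T
  | false, true, false, true => dga1nAmA p T
  | false, true, false, false => dga1nAmB p T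
  | false, false, true, true => dga1nBpA p T
  | false, false, true, false => dga1nBpB p T
  | false, false, false, true => dga1nBmA p T
  | false, false, false, false => dga1nBmB p T

/-- the slope of an inequality, the side `23` outside -/
noncomputable def QBF (far lv sg bd : Bool) (p : Pm) : Fn3 :=
  match far, lv, sg, bd with
  | true, true, true, true => dgQ1fApA p
  | true, true, true, false => dgQ1fApB p
  | true, true, false, true => dgQ1fAmA p
  | true, true, false, false => dgQ1fAmB p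
  | true, false, true, true => dgQ1fBpA p
  | true, false, true, false => dgQ1fBpB p
  | true, false, false, true => dgQ1fBmA p
  | true, false, false, false => dgQ1fBmB p
  | false, true, true, true => dgQ1nApA p
  | false, true, true, false => dgQ1nApB p
  | false, true, false, true => dgQ1nAmA p
  | false, true, false, false => dgQ1nAmB p
  | false, false, true, true => dgQ1nBpA p
  | false, false, true, false => dgQ1nBpB p
  | false, false, false, true => dgQ1nBmA p
  | false, false, false, false => dgQ1nBmB p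

/-- the slope of an inequality, the side `12` outside -/
noncomputable def QPF (far lv sg bd : Bool) (p : Pm) : Fn3 :=
  match far, lv, sg, bd with
  | true, true, true, true => dgQPfApA p
  | true, true, true, false => dgQPfApB p
  | true, true, false, true => dgQPfAmA p
  | true, true, false, false => dgQPfAmB p
  | true, false, true, true => dgQPfBpA p
  | true, false, true, false => dgQPfBpB p
  | true, false, false, true => dgQPfBmA p
  | true, false, false, false => dgQPfBmB p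
  | false, true, true, true => dgQPnApA p
  | false, true, true, false => dgQPnApB p
  | false, true, false, true => dgQPnAmA p
  | false, true, false, false => dgQPnAmB p
  | false, false, true, true => dgQPnBpA p
  | false, false, true, false => dgQPnBpB p
  | false, false, false, true => dgQPnBmA p
  | false, false, false, false => dgQPnBmB p

/-- the first order part of an inequality -/
noncomputable def a0F (sg bd : Bool) (p : Pm) : Fn1 :=
  match sg, bd with
  | true, true => dga0pA p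
  | true, false => dga0pB p
  | false, true => dga0mA p
  | false, false => dga0mB p

section

variable {far : Bool} {N0 : ℕ} {p : Pm} {T : Th} {x : ℝ}

theorem a0F_v (hf : p.Fit far N0 x) (T : Th) (t b dl G1 G2 G3 g1 g2 g3 ee : ℝ) (sg bd : Bool) :
    (dat far N0 p T t b x dl G1 G2 G3 g1 g2 g3 ee).a0 sg bd =
      cond far 0 ((a0F sg bd p).v x) := by
  cases far
  · have hm := hf.mu rfl
    cases sg <;> cases bd <;>
      simp only [cond_true, cond_false, a0F, dat, Dat.a0, Dat.LK0, Dat.mu, Dat.pb, Dat.sn, Dat.W0,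
        Dat.d0, dga0pA, dga0pB, dga0mA, dga0mB, dgLK0, dgd0, hm] <;> push_cast <;> ring
  · have hm := hf.far rfl
    cases sg <;> cases bd <;>
      simp only [cond_true, cond_false, a0F, dat, Dat.a0, Dat.LK0, Dat.mu, Dat.pb, Dat.sn, Dat.W0,
        Dat.d0, hm] <;> ring

theorem W_v (T : Th) (t b dl G1 G2 G3 g1 g2 g3 ee : ℝ) :
    dgWpA.v t b x = (dat far N0 p T t b x dl G1 G2 G3 g1 g2 g3 ee).W true true ∧
    dgWpB.v t b x = (dat far N0 p T t b x dl G1 G2 G3 g1 g2 g3 ee).W true false ∧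
    dgWmA.v t b x = (dat far N0 p T t b x dl G1 G2 G3 g1 g2 g3 ee).W false true ∧
    dgWmB.v t b x = (dat far N0 p T t b x dl G1 G2 G3 g1 g2 g3 ee).W false false ∧
    dgwpA.v t b x = (dat far N0 p T t b x dl G1 G2 G3 g1 g2 g3 ee).w true true ∧
    dgwpB.v t b x = (dat far N0 p T t b x dl G1 G2 G3 g1 g2 g3 ee).w true false ∧
    dgwmA.v t b x = (dat far N0 p T t b x dl G1 G2 G3 g1 g2 g3 ee).w false true ∧
    dgwmB.v t b x = (dat far N0 p T t b x dl G1 G2 G3 g1 g2 g3 ee).w false false := by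
  refine ⟨?_, ?_, ?_, ?_, ?_, ?_, ?_, ?_⟩ <;>
    simp only [dat, dgWpA, dgWpB, dgWmA, dgWmB, dgwpA, dgwpB, dgwmA, dgwmB, dgxLL, dglap, dglam,
      dgtLm, dgLm, dgtg, Dat.W, Dat.W0, Dat.w, Dat.lam, Dat.Lam, cond_true, cond_false] <;>
    push_cast <;> ring

theorem a1F_v (hf : p.Fit far N0 x) (T : Th) (t b dl G1 G2 G3 g1 g2 g3 ee : ℝ) (lv sg bd : Bool) :
    (a1F far lv sg bd p T).v t b x =
      (dat far N0 p T t b x dl G1 G2 G3 g1 g2 g3 ee).a1 lv sg bd := by
  obtain ⟨w1, w2, w3, w4, w5, w6, w7, w8⟩ :=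
    W_v (far := far) (N0 := N0) (p := p) (x := x) T t b dl G1 G2 G3 g1 g2 g3 ee
  generalize hD : dat far N0 p T t b x dl G1 G2 G3 g1 g2 g3 ee = D at *
  have e1 : D.om1 = (dgom p T).v t b x := by
    rw [← hD]
    simp only [dat, Dat.om1, Dat.r2, dgom, dgom_12]
    push_cast
    ring
  have e2 : D.d1 = (dgd1 p T).v t b x := by
    rw [← hD]
    simp only [dat, Dat.d1, dgd1]
  have e3 : D.d0 = (dgd0 p).v x := by
    rw [← hD]
    simp only [dat, Dat.d0, dgd0]
    push_cast
    ring
  have e4 : D.l1 = (dgl1 p T).v t b x := by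
    rw [← hD]
    simp only [dat, Dat.l1, dgl1]
  have e5 : D.S1 = (dgS1 p T).v t b x := by
    rw [← hD]
    simp only [dat, Dat.S1, dgS1, dgll1, dgll2, dgll3, dga1c, dga2c, dga3c, dgtg, Dat.a1c, Dat.a2c,
      Dat.a3c]
    push_cast
    ring
  have e6 : D.S2 = (dgS2 p T).v t b x := by
    rw [← hD]
    simp only [dat, Dat.S2, dgS2, dgll1, dgll2, dgll3, dga1c, dga2c, dga3c, dgtg, Dat.a1c, Dat.a2c,
      Dat.a3c]
    push_cast
    ring
  have e7 : D.E2 = dgE2.v t b := by rw [← hD]; rfl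
  have e8 : D.p = dgp.v x := by rw [← hD]; rfl
  have e9 : D.q = dgq1.v x := by rw [← hD]; rfl
  have e10 : D.b = b := by rw [← hD]; rfl
  have e11 : D.far = far := by rw [← hD]; rfl
  have e12 : (D.N0 : ℝ) + D.x = p.nx.v x := by rw [hf.nx, ← hD]; rfl
  have e13 : D.mu = mun N0 x := by rw [← hD]; rfl
  cases far
  · have hm := hf.mu rfl
    cases lv <;> cases sg <;> cases bd <;>
      simp only [cond_true, cond_false, a1F, Dat.a1, Dat.LK1, Dat.pb, Dat.sn, e1, e2, e3, e4, e5, e6,
        e7, e8, e9, e10, e11, e12, e13, ← w1, ← w2, ← w3, ← w4, ← w5, ← w6, ← w7, ← w8, ← hm,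
        dga1nApA, dga1nApB, dga1nAmA, dga1nAmB, dga1nBpA, dga1nBpB, dga1nBmA, dga1nBmB, dgLKnA, dgLKnB] <;>
      push_cast <;> ring
  · have h0 : (dgd0 p).v x = 0 := by
      simp only [dgd0, hf.far rfl]
      ring
    cases lv <;> cases sg <;> cases bd <;>
      simp only [cond_true, cond_false, a1F, Dat.a1, Dat.LK1, Dat.pb, Dat.sn, e1, e2, e3, e4, h0,
        e7, e8, e9, e10, e11, ← w1, ← w2, ← w3, ← w4,
        dga1fApA, dga1fApB, dga1fAmA, dga1fAmB, dga1fBpA, dga1fBpB, dga1fBmA, dga1fBmB, dgLKfA, dgLKfB] <;>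
      push_cast <;> ring

/-- The numbers of a row with the side `23` outside the unit circle. -/
noncomputable def datB (far : Bool) (N0 : ℕ) (p : Pm) (T : Th) (t b x dl : ℝ) : Dat :=
  dat far N0 p T t b x dl 0 ((dgG p).v t b x) (-(p.c0.v x / 2)) 0 ((dggL p).v t b x)
    (-(dga3c p).v x) ((1 - t * dgst.v t b) / 2)

/-- The numbers of a row with the side `12` outside the unit circle. -/
noncomputable def datP (far : Bool) (N0 : ℕ) (p : Pm) (T : Th) (t b x dl : ℝ) : Dat :=
  dat far N0 p T t b x dl ((dgG1 p).v t b x) 0 (p.c0.v x / 2) ((dggL1 p).v t b x) 0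
    ((dga3c p).v x) ((1 + t * dgvt.v t b) / 2)

theorem QBF_v (hf : p.Fit far N0 x) (T : Th) (t b dl : ℝ) (lv sg bd : Bool) :
    (QBF far lv sg bd p).v t b x = (datB far N0 p T t b x dl).Q1 lv sg bd := by
  obtain ⟨w1, w2, w3, w4, -⟩ := W_v (far := far) (N0 := N0) (p := p) (x := x) T t b dl 0
    ((dgG p).v t b x) (-(p.c0.v x / 2)) 0 ((dggL p).v t b x) (-(dga3c p).v x)
    ((1 - t * dgst.v t b) / 2)
  change dgWpA.v t b x = (datB far N0 p T t b x dl).W true true at w1
  change dgWpB.v t b x = (datB far N0 p T t b x dl).W true false at w2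
  change dgWmA.v t b x = (datB far N0 p T t b x dl).W false true at w3
  change dgWmB.v t b x = (datB far N0 p T t b x dl).W false false at w4
  generalize hD : datB far N0 p T t b x dl = D at *
  have e1 : D.omd = (dgomd p).v t b x := by
    rw [← hD]
    simp only [datB, dat, Dat.omd, dgomd, dgtg]
    ring
  have e2 : D.dd = (dgdd p).v t b x := by
    rw [← hD]
    simp only [datB, dat, Dat.dd, dgdd]
    ring
  have e3 : D.ld = (dgld p).v t b x := by
    rw [← hD]
    simp only [datB, dat, Dat.ld, dgld]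
    ring
  have e4 : D.ee = dgy1.v t b / 2 := by
    rw [← hD]
    simp only [datB, dat, dgy1, dgs]
    push_cast
    ring
  have e5 : D.y * D.g1 - (2 * D.y + D.y') * D.g2 - (2 - D.t ^ 2 * D.g) * D.g3 =
      (dgua p).v t x - dgyy.v t b * (dggL p).v t b x := by
    rw [← hD]
    simp only [datB, dat, Dat.y, Dat.y', dgua, dgyy, dgy1, dgy2, dgs, dgv, dgu, dgw, dgtg]
    push_cast
    ring
  have e6 : (2 * D.y' + D.y) * D.g1 - D.y' * D.g2 - (2 - D.t ^ 2 * D.g) * D.g3 =
      (dgua p).v t x - dgy2.v t b * (dggL p).v t b x := by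
    rw [← hD]
    simp only [datB, dat, Dat.y, Dat.y', dgua, dgy1, dgy2, dgs, dgv, dgu, dgw, dgtg]
    push_cast
    ring
  have e8 : D.p = dgp.v x := by rw [← hD]; rfl
  have e9 : D.q = dgq1.v x := by rw [← hD]; rfl
  have e11 : D.far = far := by rw [← hD]; rfl
  have e12 : (D.N0 : ℝ) + D.x = p.nx.v x := by rw [hf.nx, ← hD]; rfl
  have e13 : D.mu = mun N0 x := by rw [← hD]; rfl
  cases far
  · have hm := hf.mu rfl
    cases lv <;> cases sg <;> cases bd <;>
      simp only [cond_true, cond_false, QBF, Dat.Q1, Dat.LKd, Dat.pb, Dat.sn, e1, e2, e3, e4, e5, e6,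
        e8, e9, e11, e12, e13, ← w1, ← w2, ← w3, ← w4, ← hm,
        dgQ1nApA, dgQ1nApB, dgQ1nAmA, dgQ1nAmB, dgQ1nBpA, dgQ1nBpB, dgQ1nBmA, dgQ1nBmB, dgLDnA, dgLDnB] <;>
      push_cast <;> ring
  · cases lv <;> cases sg <;> cases bd <;>
      simp only [cond_true, cond_false, QBF, Dat.Q1, Dat.LKd, Dat.pb, Dat.sn, e1, e2, e3, e4,
        e8, e9, e11, ← w1, ← w2, ← w3, ← w4,
        dgQ1fApA, dgQ1fApB, dgQ1fAmA, dgQ1fAmB, dgQ1fBpA, dgQ1fBpB, dgQ1fBmA, dgQ1fBmB, dgLDfA, dgLDfB] <;>
      push_cast <;> ring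

theorem QPF_v (hf : p.Fit far N0 x) (T : Th) (t b dl : ℝ) (lv sg bd : Bool) :
    (QPF far lv sg bd p).v t b x = (datP far N0 p T t b x dl).Q1 lv sg bd := by
  obtain ⟨w1, w2, w3, w4, -⟩ := W_v (far := far) (N0 := N0) (p := p) (x := x) T t b dl
    ((dgG1 p).v t b x) 0 (p.c0.v x / 2) ((dggL1 p).v t b x) 0 ((dga3c p).v x)
    ((1 + t * dgvt.v t b) / 2)
  change dgWpA.v t b x = (datP far N0 p T t b x dl).W true true at w1
  change dgWpB.v t b x = (datP far N0 p T t b x dl).W true false at w2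
  change dgWmA.v t b x = (datP far N0 p T t b x dl).W false true at w3
  change dgWmB.v t b x = (datP far N0 p T t b x dl).W false false at w4
  generalize hD : datP far N0 p T t b x dl = D at *
  have e1 : D.omd = (dgomP p).v t b x := by
    rw [← hD]
    simp only [datP, dat, Dat.omd, dgomP]
    ring
  have e2 : D.dd = (dgdP p).v t b x := by
    rw [← hD]
    simp only [datP, dat, Dat.dd, dgdP]
    ring
  have e3 : D.ld = (dglP p).v t b x := by
    rw [← hD]
    simp only [datP, dat, Dat.ld, dglP]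
    ring
  have e4 : D.ee = dgy2.v t b / 2 := by
    rw [← hD]
    simp only [datP, dat, dgy2, dgv]
    push_cast
    ring
  have e5 : D.y * D.g1 - (2 * D.y + D.y') * D.g2 - (2 - D.t ^ 2 * D.g) * D.g3 =
      dgy1.v t b * (dggL1 p).v t b x - (dgua p).v t x := by
    rw [← hD]
    simp only [datP, dat, Dat.y, Dat.y', dgua, dgy1, dgs, dgu, dgw, dgtg]
    push_cast
    ring
  have e6 : (2 * D.y' + D.y) * D.g1 - D.y' * D.g2 - (2 - D.t ^ 2 * D.g) * D.g3 =
      dgyq.v t b * (dggL1 p).v t b x - (dgua p).v t x := by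
    rw [← hD]
    simp only [datP, dat, Dat.y, Dat.y', dgua, dgyq, dgy1, dgy2, dgs, dgv, dgu, dgw, dgtg]
    push_cast
    ring
  have e8 : D.p = dgp.v x := by rw [← hD]; rfl
  have e9 : D.q = dgq1.v x := by rw [← hD]; rfl
  have e11 : D.far = far := by rw [← hD]; rfl
  have e12 : (D.N0 : ℝ) + D.x = p.nx.v x := by rw [hf.nx, ← hD]; rfl
  have e13 : D.mu = mun N0 x := by rw [← hD]; rfl
  cases far
  · have hm := hf.mu rfl
    cases lv <;> cases sg <;> cases bd <;>
      simp only [cond_true, cond_false, QPF, Dat.Q1, Dat.LKd, Dat.pb, Dat.sn, e1, e2, e3, e4, e5, e6,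
        e8, e9, e11, e12, e13, ← w1, ← w2, ← w3, ← w4, ← hm,
        dgQPnApA, dgQPnApB, dgQPnAmA, dgQPnAmB, dgQPnBpA, dgQPnBpB, dgQPnBmA, dgQPnBmB, dgLPnA, dgLPnB] <;>
      push_cast <;> ring
  · cases lv <;> cases sg <;> cases bd <;>
      simp only [cond_true, cond_false, QPF, Dat.Q1, Dat.LKd, Dat.pb, Dat.sn, e1, e2, e3, e4,
        e8, e9, e11, ← w1, ← w2, ← w3, ← w4,
        dgQPfApA, dgQPfApB, dgQPfAmA, dgQPfAmB, dgQPfBpA, dgQPfBpB, dgQPfBmA, dgQPfBmB, dgLPfA, dgLPfB] <;>
      push_cast <;> ring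

end

end Pool.Agent.Strip051.PB.Dg
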