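import Pool.Agent.Strip051.PB.RowS

/-! # Leaves of type D

Both vertices in a neighbourhood of the exceptional shapes, rest at least `1 / 2`. Four kinds
(`0`, `1`: the steep edge is the side middle-top or bottom-middle, `2`, `3`: it is the side
bottom-top and the short edge is bottom-middle or middle-top) and five gains. -/

namespace Pool.Agent.Strip051.PB

attribute [local irreducible] padd psub pneg pmul psq pinv psqrt psqrtg pabs pps pmax pmin pphi plam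
  pcase phf pnat prat pscale pnorm pdc pnc pone pzero ppos pnn Enc

/-! ### Real side -/

/-- choice by a kind -/
def kr4 (i : ℕ) (a b c d : ℝ) : ℝ :=
  match i with
  | 0 => a
  | 1 => b
  | 2 => c
  | _ => d

/-- distance of the steep edge from height one -/
noncomputable def dbR (i : ℕ) (V : Val) : ℝ :=
  kr4 i (V.z - 1) (V.y - 1) (V.y + V.z - 1) (V.y + V.z - 1)

/-- distance of the short edge from the rest -/
noncomputable def daR (i : ℕ) (V : Val) : ℝ :=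
  kr4 i (V.y - V.x) (V.z - V.x) (V.y - V.x) (V.z - V.x)

/-- difference of the third kernels which carries the gain (the third kernels are divided by
`esn x`) -/
noncomputable def ddR (i : ℕ) (c1 c2 c3 : ℝ) : ℝ := kr4 i (c1 - c3) (c3 - c2) (c2 - c1) (c2 - c1)

/-- difference of the third kernels which is paid -/
noncomputable def dgR (i : ℕ) (c1 c2 c3 : ℝ) : ℝ :=
  |kr4 i (c2 - c3) (c1 - c3) (c2 - c3) (c1 - c3)|

/-- the correction of the kernel on the steep edge; the cost is `esn x` times this number -/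
noncomputable def nuR (i : ℕ) (k0 M : ℝ) (V : Val) (c1 c2 c3 : ℝ) : ℝ :=
  M * (4 * (dgR i c1 c2 c3 * |dbR i V|) + ddR i c1 c2 c3 * (k0 * (1 - V.x)))

/-- condition of a gain `n / 1280` times the complement of the rest -/
def GcR (m m' n : ℕ) (k0 x al : ℝ) : Prop :=
  (m : ℝ) / (16 : ℕ) * (1 - x) ≤ al ∧ al ≤ (m' : ℝ) / (16 : ℕ) * (1 - x) ∧
    (n : ℝ) / (1280 : ℕ) * x ≤ ((4 : ℕ) : ℝ) / (5 : ℕ) * (k0 * ((m' : ℝ) / (16 : ℕ) * (1 - x) - al))

/-- the admissible gains -/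
def GainR (j : ℕ) (k0 x al g : ℝ) : Prop :=
  match j with
  | 0 => g = -(4 * (al ^ 2 * x⁻¹))
  | 1 => 0 ≤ al ∧ g = 0
  | 2 => GcR 2 14 76 k0 x al ∧ g = ((76 : ℕ) : ℝ) / (1280 : ℕ) * (1 - x)
  | 3 => GcR 3 13 131 k0 x al ∧ g = ((131 : ℕ) : ℝ) / (1280 : ℕ) * (1 - x)
  | _ => GcR 4 12 176 k0 x al ∧ g = ((176 : ℕ) : ℝ) / (1280 : ℕ) * (1 - x)

/-- a kernel value of type D -/
noncomputable def kdR (En M D C R s : ℝ) : ℝ := En * R + M * (D * C) + s

/-- The inequalities of type D: kind `i`, gain `j` with the value `g`, levels `γ₁`, `γ₂`, constant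
`k0`, `En` the factor of the kernel, `c1`, `c2`, `c3` the third kernels. -/
def DRow (i j N0 : ℕ) (k0 En : ℝ) (V : Val) (c1 c2 c3 : ℝ) (cn : Con) (a b c : ℕ)
    (g γ₁ γ₂ : ℝ) : Prop :=
  |dbR i V| ≤ 1 / 8 ∧ -(1 / 8) ≤ daR i V ∧ daR i V ≤ 1 - V.x ∧ 0 ≤ ddR i c1 c2 c3 ∧
    GainR j k0 V.x (daR i V) g ∧ 0 < V.far cn a b c γ₁ ∧
    0 < slc cn (levN N0 0 V.x V.y V.z (V.ex + mun N0 V.x * (esn V.x * (ddR i c1 c2 c3 * g)) -
        esn V.x * nuR i k0 (mun N0 V.x) V c1 c2 c3) V.l1 V.l2 V.l3) (ken V.x) V.x (V.y - jq a)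
      (V.z - jq b) (V.y + V.z - jq c)
      (kdR En (mun N0 V.x) (V.y - jq a) c1 V.R1
        (kr4 i 0 (-nuR i k0 (mun N0 V.x) V c1 c2 c3) 0 0))
      (kdR En (mun N0 V.x) (V.z - jq b) c2 V.R2
        (kr4 i (nuR i k0 (mun N0 V.x) V c1 c2 c3) 0 0 0))
      (kdR En (mun N0 V.x) (V.y + V.z - jq c) c3 V.R3
        (kr4 i 0 0 (nuR i k0 (mun N0 V.x) V c1 c2 c3)
          (-nuR i k0 (mun N0 V.x) V c1 c2 c3))) γ₂

/-! ### Packed side -/

/-- choice by a kind -/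
noncomputable def pk4 (i a b c d : ℕ) : ℕ :=
  Nat.rec (motive := fun _ => ℕ) a (fun i _ => Nat.rec (motive := fun _ => ℕ) b
    (fun i _ => Nat.rec (motive := fun _ => ℕ) c (fun _ _ => d) i) i) i

/-- test of the condition of a gain -/
noncomputable def gcT (m m' n k x al om : ℕ) : Bool :=
  band (pnn (psub al (pscale m 16 om))) (band (pnn (psub (pscale m' 16 om) al))
    (pnn (psub (pscale 4 5 (pmul k (pnorm (psub (pscale m' 16 om) al)))) (pscale n 1280 x))))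

/-- value of a gain -/
noncomputable def gvT (j x al om : ℕ) : ℕ :=
  pk5 j (pneg (pnat 4 (pmul (psq al) (pinv x)))) pzero (pscale 76 1280 om) (pscale 131 1280 om)
    (pscale 176 1280 om)

/-- test of a gain -/
noncomputable def gT (j k x al om : ℕ) : Bool :=
  Nat.rec (motive := fun _ => Bool) true (fun j _ => Nat.rec (motive := fun _ => Bool) (pnn al)
    (fun j _ => Nat.rec (motive := fun _ => Bool) (gcT 2 14 76 k x al om)
      (fun j _ => Nat.rec (motive := fun _ => Bool) (gcT 3 13 131 k x al om)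
        (fun _ _ => gcT 4 12 176 k x al om) j) j) j) j

/-- the correction of the kernel on the steep edge -/
noncomputable def nuT (M G b d k om : ℕ) : ℕ := pnorm (pmul M
  (pnorm (padd (pnat 4 (pmul (pnorm (pabs G)) (pnorm (pabs b)))) (pmul d (pmul k om)))))

/-- a kernel value of type D -/
noncomputable def kdT (En M D C R s : ℕ) : ℕ := pnorm (padd (padd (pmul En R) (pmul M (pmul D C))) s)

/-- the subtracted part at the near vertex -/
noncomputable def phiD (i : ℕ) (cn : Con) (En M nu x u v w C1 C2 C3 R1 R2 R3 g : ℕ) : ℕ :=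
  (fun r1 r2 r3 => rowPhi cn (khT x) x u (pneg u) v (pneg v) w (pneg w)
    r1 (pneg r1) r2 (pneg r2) r3 (pneg r3) (pga g))
    (kdT En M u C1 R1 (pk4 i pzero (pneg nu) pzero pzero))
    (kdT En M v C2 R2 (pk4 i nu pzero pzero pzero))
    (kdT En M w C3 R3 (pk4 i pzero pzero nu (pneg nu)))

/-- the near test from the correction, `e = esn x`, the difference `d` and the gain `gv` -/
noncomputable def tD (i N0 : ℕ) (cn : Con) (En M nu e d gv x y z t u v w C1 C2 C3 R1 R2 R3 g ex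
    l1 l2 l3 : ℕ) : Bool :=
  tN (phn N0) M x y z t (psub (psub (padd ex (pmul M (pmul e (pnorm (pmul d gv))))) (pmul e nu))
    (phiD i cn En M nu x u v w C1 C2 C3 R1 R2 R3 g)) l1 l2 l3

/-- side conditions of type D -/
noncomputable def sD (b al d om : ℕ) : Bool :=
  band (pnn (psub (pdc 134217728 0) (pabs b))) (band (pnn (padd al (pdc 134217728 0)))
    (band (pnn (psub om al)) (pnn d)))

/-- all tests of type D but the far test -/
noncomputable def nD (i j N0 k : ℕ) (cn : Con) (En x y z t u v w C1 C2 C3 R1 R2 R3 g ex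
    l1 l2 l3 : ℕ) : Bool :=
  (fun b al d G om => band (sD b al d om) (band (gT j k x al om)
    (tD i N0 cn En (muT N0 x) (nuT (muT N0 x) G b d k om)
      (pnorm (padd (padd (phf x) (c1T x)) (pneg pone))) d (pnorm (gvT j x al om))
      x y z t u v w C1 C2 C3 R1 R2 R3 g ex l1 l2 l3)))
    (pnorm (pk4 i (psub z pone) (psub y pone) (psub t pone) (psub t pone)))
    (pnorm (pk4 i (psub y x) (psub z x) (psub y x) (psub z x)))
    (pnorm (pk4 i (psub C1 C3) (psub C3 C2) (psub C2 C1) (psub C2 C1)))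
    (pk4 i (psub C2 C3) (psub C1 C3) (psub C2 C3) (psub C1 C3))
    (pnorm (psub pone x))

/-- the tests of type D; the payload `r` is `i + 4 j + 32 (γ₁ + 2 ^ 22 γ₂)` -/
noncomputable def kD (N0 k1 k2 : ℕ) (En : Fn1) (C1 C2 : Fn2) (C3 : Fn3) (fam s1 s2 : Bool)
    (cn : Con) (a b c : ℕ) (n1 n2 : Node) (pc : Piece) (p q : ℕ) (r x y z t X Y ex : ℕ) : Bool :=
  band (kF fam s1 s2 cn a b c n1 n2 pc p q (Nat.land (Nat.shiftRight r 5) 4194303) x y z t X Y ex)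
    ((fun L1 L2 L3 D1 D2 D3 K1 K2 K3 => nD (Nat.land r 3) (Nat.land (Nat.shiftRight r 2) 7) N0
      (prat k1 k2) cn (En.t x) x y z t (dj (jq a) y) (dj (jq b) z) (dj (jq c) t)
      D1 (sl fam D2 D3) (sl fam D3 D2) K1 (sl fam K2 K3) (sl fam K3 K2)
      (Nat.land (Nat.shiftRight r 27) 4194303) ex L1 (sl fam L2 L3) (sl fam L3 L2))
      (sg s1 (n1.L.t p x)) (sg s2 (n2.L.t q x)) (pc.L.t X Y x)
      (sg s1 (C1.t p x)) (sg s2 (C2.t q x)) (C3.t X Y x)
      (sg s1 (n1.K.t p x)) (sg s2 (n2.K.t q x)) (pnorm (pc.K.t X Y x)))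

/-- the leaf of type D from the coordinates; the payload carries in addition the multiplier -/
noncomputable def dT (m : ℕ) (fam s1 s2 : Bool) (n1 n2 : Node)
    (k : ℕ → ℕ → ℕ → ℕ → ℕ → ℕ → ℕ → ℕ → ℕ → ℕ → Bool) (r p q x : ℕ) : Bool :=
  (fun A B => frc (pnorm (th fam A B)) fun Y => (fun U V => frc (pnorm (th fam U V)) fun X =>
    k p q (Nat.land r 562949953421311) x A (sl fam B Y) (sl fam Y B) X Y
      (padd (psub (phf (psub (pmul U B) (pmul V A))) (phn 1))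
        (pmul (pdc (Nat.mul (Nat.shiftRight r 52) 1048576) 0)
          (pk5 (Nat.land (Nat.shiftRight r 49) 7) (psub (phn m) Y) (psub Y (phn (Nat.add m 1)))
            (psub pone (qqT X Y)) (psub (qqT X Y) (pnc 3)) (psub (pmul V A) (pmul U B))))))
    (sg s1 (n1.X.t p)) (sg s2 (n2.X.t q))) (n1.Y.t p) (n2.Y.t q)

/-! ### Soundness -/

section

variable {E : Pt}

theorem enc_pk4 {A B C D : ℕ} {a b c d : ℝ} (hA : Enc E A a) (hB : Enc E B b) (hC : Enc E C c)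
    (hD : Enc E D d) (i : ℕ) : Enc E (pk4 i A B C D) (kr4 i a b c d) := by
  unfold pk4 kr4
  match i with
  | 0 => exact hA
  | 1 => exact hB
  | 2 => exact hC
  | n + 3 => exact hD

theorem gcT_sound {m m' n K X A O : ℕ} {k x al : ℝ} (hK : Enc E K k) (hX : Enc E X x)
    (hA : Enc E A al) (hO : Enc E O (1 - x)) (h : gcT m m' n K X A O = true) :
    GcR m m' n k x al := by
  obtain ⟨h1, h'⟩ := band_true h
  obtain ⟨h2, h3⟩ := band_true h'
  have g1 := pnn_sound (enc_sub hA (enc_scale m 16 hO)) h1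
  have g2 := pnn_sound (enc_sub (enc_scale m' 16 hO) hA) h2
  have g3 := pnn_sound (enc_sub (enc_scale 4 5 (enc_mul hK (enc_norm
    (enc_sub (enc_scale m' 16 hO) hA)))) (enc_scale n 1280 hX)) h3
  exact ⟨sub_nonneg.1 g1, sub_nonneg.1 g2, sub_nonneg.1 g3⟩

/-- the value of a gain -/
noncomputable def gvR (j : ℕ) (x al : ℝ) : ℝ :=
  match j with
  | 0 => -(4 * (al ^ 2 * x⁻¹))
  | 1 => 0
  | 2 => ((76 : ℕ) : ℝ) / (1280 : ℕ) * (1 - x)
  | 3 => ((131 : ℕ) : ℝ) / (1280 : ℕ) * (1 - x)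
  | _ => ((176 : ℕ) : ℝ) / (1280 : ℕ) * (1 - x)

theorem enc_gvT {X A O : ℕ} {x al : ℝ} (hX : Enc E X x) (hA : Enc E A al)
    (hO : Enc E O (1 - x)) (j : ℕ) : Enc E (gvT j X A O) (gvR j x al) := by
  have h0 : Enc E (pneg (pnat 4 (pmul (psq A) (pinv X)))) (-(4 * (al ^ 2 * x⁻¹))) :=
    enc_cast (enc_neg (enc_nat 4 (enc_mul (enc_sq hA) (enc_inv hX)))) (by norm_num)
  unfold gvT pk5 gvR
  match j with
  | 0 => exact h0
  | 1 => exact enc_zero E
  | 2 => exact enc_scale 76 1280 hO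
  | 3 => exact enc_scale 131 1280 hO
  | n + 4 => exact enc_scale 176 1280 hO

theorem gT_sound {K X A O : ℕ} {k x al : ℝ} (hK : Enc E K k) (hX : Enc E X x)
    (hA : Enc E A al) (hO : Enc E O (1 - x)) (j : ℕ) (h : gT j K X A O = true) :
    GainR j k x al (gvR j x al) := by
  unfold GainR gvR
  match j, h with
  | 0, _ => exact rfl
  | 1, h => exact ⟨pnn_sound hA h, rfl⟩
  | 2, h => exact ⟨gcT_sound hK hX hA hO h, rfl⟩
  | 3, h => exact ⟨gcT_sound hK hX hA hO h, rfl⟩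
  | n + 4, h => exact ⟨gcT_sound hK hX hA hO h, rfl⟩

theorem enc_kdT {A B C D F G : ℕ} {a b c d f g : ℝ} (hA : Enc E A a) (hB : Enc E B b)
    (hC : Enc E C c) (hD : Enc E D d) (hF : Enc E F f) (hG : Enc E G g) :
    Enc E (kdT A B C D F G) (kdR a b c d f g) :=
  enc_norm (enc_add (enc_add (enc_mul hA hF) (enc_mul hB (enc_mul hC hD))) hG)

theorem enc_nuT {M G B D K O : ℕ} {m g b d k o : ℝ} (hM : Enc E M m) (hG : Enc E G g)
    (hB : Enc E B b) (hD : Enc E D d) (hK : Enc E K k) (hO : Enc E O o) :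
    Enc E (nuT M G B D K O) (m * (4 * (|g| * |b|) + d * (k * o))) :=
  enc_cast (enc_norm (enc_mul hM (enc_norm (enc_add (enc_nat 4 (enc_mul (enc_norm (enc_abs hG))
    (enc_norm (enc_abs hB)))) (enc_mul hD (enc_mul hK hO)))))) (by norm_num)

theorem enc_phiD {i : ℕ} {a b c : ℕ} {cn : Con} (hc : con a b c = some cn)
    {EN ME NU X U V W A1 A2 A3 Q1 Q2 Q3 : ℕ} {En M nu x y z c1 c2 c3 r1 r2 r3 : ℝ}
    (hE : Enc E EN En) (hM : Enc E ME M) (hN : Enc E NU nu) (hX : Enc E X x)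
    (hU : Enc E U (y - jq a)) (hV : Enc E V (z - jq b)) (hW : Enc E W (y + z - jq c))
    (h1 : Enc E A1 c1) (h2 : Enc E A2 c2) (h3 : Enc E A3 c3)
    (k1 : Enc E Q1 r1) (k2 : Enc E Q2 r2) (k3 : Enc E Q3 r3) (g : ℕ) (ex : ℝ) :
    Enc E (phiD i cn EN ME NU X U V W A1 A2 A3 Q1 Q2 Q3 g)
      (ex - slc cn ex (ken x) x (y - jq a) (z - jq b) (y + z - jq c)
        (kdR En M (y - jq a) c1 r1 (kr4 i 0 (-nu) 0 0))
        (kdR En M (z - jq b) c2 r2 (kr4 i nu 0 0 0))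
        (kdR En M (y + z - jq c) c3 r3 (kr4 i 0 0 nu (-nu))) (gar g)) := by
  have z0 := enc_zero E
  have e1 := enc_kdT hE hM hU h1 k1 (enc_pk4 z0 (enc_neg hN) z0 z0 i)
  have e2 := enc_kdT hE hM hV h2 k2 (enc_pk4 hN z0 z0 z0 i)
  have e3 := enc_kdT hE hM hW h3 k3 (enc_pk4 z0 z0 hN (enc_neg hN) i)
  exact enc_rowPhi cn (enc_khT hX) hX hU (enc_neg hU) hV (enc_neg hV) hW (enc_neg hW)
    e1 (enc_neg e1) e2 (enc_neg e2) e3 (enc_neg e3) (enc_pga E g) (con_ok hc _ _) ex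

theorem tD_sound {i N0 : ℕ} {a b c : ℕ} {cn : Con} (hc : con a b c = some cn)
    {EN M NU EE D GV X Y Z T U V W A1 A2 A3 Q1 Q2 Q3 F L1 L2 L3 : ℕ}
    {En nu e d gv x y z c1 c2 c3 r1 r2 r3 ex l1 l2 l3 : ℝ}
    (hE : Enc E EN En) (hM : Enc E M (mun N0 x)) (hC : Enc E NU nu) (hI : Enc E EE e)
    (hD : Enc E D d) (hG : Enc E GV gv) (hX : Enc E X x) (hY : Enc E Y y) (hZ : Enc E Z z)
    (hT : Enc E T (y + z)) (hU : Enc E U (y - jq a)) (hV : Enc E V (z - jq b))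
    (hW : Enc E W (y + z - jq c)) (h1 : Enc E A1 c1) (h2 : Enc E A2 c2) (h3 : Enc E A3 c3)
    (k1 : Enc E Q1 r1) (k2 : Enc E Q2 r2) (k3 : Enc E Q3 r3) (g : ℕ) (hF : Enc E F ex)
    (m1 : Enc E L1 l1) (m2 : Enc E L2 l2) (m3 : Enc E L3 l3)
    (h : tD i N0 cn EN M NU EE D GV X Y Z T U V W A1 A2 A3 Q1 Q2 Q3 g F L1 L2 L3 = true) :
    0 < slc cn (levN N0 0 x y z (ex + mun N0 x * (e * (d * gv)) - e * nu) l1 l2 l3) (ken x) x
      (y - jq a) (z - jq b) (y + z - jq c)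
      (kdR En (mun N0 x) (y - jq a) c1 r1 (kr4 i 0 (-nu) 0 0))
      (kdR En (mun N0 x) (z - jq b) c2 r2 (kr4 i nu 0 0 0))
      (kdR En (mun N0 x) (y + z - jq c) c3 r3 (kr4 i 0 0 nu (-nu))) (gar g) := by
  have hP := enc_phiD (i := i) hc hE hM hC hX hU hV hW
    h1 h2 h3 k1 k2 k3 g (ex + mun N0 x * (e * (d * gv)) - e * nu)
  have := tN_sound hM hX hY hZ hT (enc_sub (enc_sub (enc_add hF (enc_mul hM (enc_mul hI
    (enc_norm (enc_mul hD hG))))) (enc_mul hI hC)) hP) m1 m2 m3 h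
  unfold levN
  rw [slc_add]
  linarith

theorem slc_le (c : Con) {e f : ℝ} (h : e ≤ f) (k x u v w r1 r2 r3 g : ℝ) :
    slc c e k x u v w r1 r2 r3 g ≤ slc c f k x u v w r1 r2 r3 g := by
  have := slc_add c e (f - e) k x u v w r1 r2 r3 g
  rw [add_sub_cancel] at this
  linarith

theorem nD_sound {i j N0 : ℕ} {a b c : ℕ} {cn : Con} (hc : con a b c = some cn) {W : Val}
    {K EN X Y Z T U V Q A1 A2 A3 Q1 Q2 Q3 F L1 L2 L3 : ℕ} {k0 En c1 c2 c3 ex : ℝ}
    (hK : Enc E K k0) (hE : Enc E EN En) (hX : Enc E X W.x) (hY : Enc E Y W.y) (hZ : Enc E Z W.z)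
    (hT : Enc E T (W.y + W.z)) (hU : Enc E U (W.y - jq a)) (hV : Enc E V (W.z - jq b))
    (hQ : Enc E Q (W.y + W.z - jq c)) (h1 : Enc E A1 c1) (h2 : Enc E A2 c2) (h3 : Enc E A3 c3)
    (k1 : Enc E Q1 W.R1) (k2 : Enc E Q2 W.R2) (k3 : Enc E Q3 W.R3) (g : ℕ) (hF : Enc E F ex)
    (he : ex ≤ W.ex) (m1 : Enc E L1 W.l1) (m2 : Enc E L2 W.l2) (m3 : Enc E L3 W.l3)
    (h : nD i j N0 K cn EN X Y Z T U V Q A1 A2 A3 Q1 Q2 Q3 g F L1 L2 L3 = true) :
    |dbR i W| ≤ 1 / 8 ∧ -(1 / 8) ≤ daR i W ∧ daR i W ≤ 1 - W.x ∧ 0 ≤ ddR i c1 c2 c3 ∧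
    GainR j k0 W.x (daR i W) (gvR j W.x (daR i W)) ∧
    0 < slc cn (levN N0 0 W.x W.y W.z (W.ex + mun N0 W.x * (esn W.x * (ddR i c1 c2 c3 *
          gvR j W.x (daR i W))) - esn W.x * nuR i k0 (mun N0 W.x) W c1 c2 c3) W.l1 W.l2 W.l3)
      (ken W.x) W.x (W.y - jq a) (W.z - jq b) (W.y + W.z - jq c)
      (kdR En (mun N0 W.x) (W.y - jq a) c1 W.R1
        (kr4 i 0 (-nuR i k0 (mun N0 W.x) W c1 c2 c3) 0 0))
      (kdR En (mun N0 W.x) (W.z - jq b) c2 W.R2
        (kr4 i (nuR i k0 (mun N0 W.x) W c1 c2 c3) 0 0 0))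
      (kdR En (mun N0 W.x) (W.y + W.z - jq c) c3 W.R3
        (kr4 i 0 0 (nuR i k0 (mun N0 W.x) W c1 c2 c3)
          (-nuR i k0 (mun N0 W.x) W c1 c2 c3))) (gar g) := by
  have o := enc_one E
  have hb : Enc E (pnorm (pk4 i (psub Z pone) (psub Y pone) (psub T pone) (psub T pone)))
      (dbR i W) := enc_norm (enc_pk4 (enc_sub hZ o) (enc_sub hY o) (enc_sub hT o) (enc_sub hT o) i)
  have ha : Enc E (pnorm (pk4 i (psub Y X) (psub Z X) (psub Y X) (psub Z X))) (daR i W) :=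
    enc_norm (enc_pk4 (enc_sub hY hX) (enc_sub hZ hX) (enc_sub hY hX) (enc_sub hZ hX) i)
  have hd : Enc E (pnorm (pk4 i (psub A1 A3) (psub A3 A2) (psub A2 A1) (psub A2 A1)))
      (ddR i c1 c2 c3) :=
    enc_norm (enc_pk4 (enc_sub h1 h3) (enc_sub h3 h2) (enc_sub h2 h1) (enc_sub h2 h1) i)
  have hG : Enc E (pk4 i (psub A2 A3) (psub A1 A3) (psub A2 A3) (psub A1 A3))
      (kr4 i (c2 - c3) (c1 - c3) (c2 - c3) (c1 - c3)) :=
    enc_pk4 (enc_sub h2 h3) (enc_sub h1 h3) (enc_sub h2 h3) (enc_sub h1 h3) i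
  have ho : Enc E (pnorm (psub pone X)) (1 - W.x) := enc_norm (enc_sub o hX)
  have hM := enc_muT N0 hX
  have hI : Enc E (pnorm (padd (padd (phf X) (c1T X)) (pneg pone))) (esn W.x) :=
    enc_cast (enc_norm (enc_add (enc_add (enc_half hX) (enc_c1T hX)) (enc_neg o))) (by
      unfold esn
      ring)
  have hC := enc_nuT hM hG hb hd hK ho
  have hV' := enc_norm (enc_gvT hX ha ho j)
  obtain ⟨g1, g'⟩ := band_true (show band _ _ = true from h)
  obtain ⟨g2, g3⟩ := band_true g'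
  obtain ⟨s1, s'⟩ := band_true (show band _ _ = true from g1)
  obtain ⟨s2, s''⟩ := band_true s'
  obtain ⟨s3, s4⟩ := band_true s''
  have he8 : Enc E (pdc 134217728 0) (1 / 8) := enc_cast (enc_dc E 134217728 0) (by
    unfold S
    norm_num)
  have t1 := pnn_sound (enc_sub he8 (enc_abs hb)) s1
  have t2 := pnn_sound (enc_add ha he8) s2
  have t3 := pnn_sound (enc_sub ho ha) s3
  have t4 := pnn_sound hd s4
  have t5 := gT_sound hK hX ha ho j g2
  have t6 := tD_sound (i := i) hc hE hM hC hI hd hV' hX hY hZ hT hU hV hQ h1 h2 h3 k1 k2 k3 g hF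
    m1 m2 m3 g3
  refine ⟨by linarith, by linarith, by linarith, t4, t5, ?_⟩
  unfold levN at t6 ⊢
  rw [slc_add, sub_eq_add_neg, add_assoc, slc_add] at t6 ⊢
  unfold nuR dgR
  refine lt_of_lt_of_le t6 ?_
  gcongr
  exact slc_le cn he _ _ _ _ _ _ _ _ _

theorem kD_sound {N0 : ℕ} {k1 k2 : ℕ} {En : Fn1} {C1 C2 : Fn2} {C3 : Fn3} {fam s1 s2 : Bool}
    {a b c : ℕ} {cn : Con} (hc : con a b c = some cn) {n1 n2 : Node} {pc : Piece} {P Q X : ℕ}
    {p q x : ℝ} (hp : Enc E P p) (hq : Enc E Q q) (hx : Enc E X x) (r : ℕ) {A Z T U Y F : ℕ}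
    {ex : ℝ} (hA : Enc E A (valR fam s1 s2 n1 n2 pc p q x).y)
    (hZ : Enc E Z (valR fam s1 s2 n1 n2 pc p q x).z)
    (hT : Enc E T ((valR fam s1 s2 n1 n2 pc p q x).y + (valR fam s1 s2 n1 n2 pc p q x).z))
    (hU : Enc E U (valR fam s1 s2 n1 n2 pc p q x).X)
    (hY : Enc E Y (valR fam s1 s2 n1 n2 pc p q x).Y)
    (hF : Enc E F ex) (he : ex ≤ (valR fam s1 s2 n1 n2 pc p q x).ex)
    (h : kD N0 k1 k2 En C1 C2 C3 fam s1 s2 cn a b c n1 n2 pc P Q r X A Z T U Y F = true) :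
    ∃ i j g γ₁ γ₂, DRow i j N0 ((k1 : ℝ) / k2) (En.v x) (valR fam s1 s2 n1 n2 pc p q x)
      (valC fam s1 s2 C1 C2 C3 n1 n2 pc p q x).1 (valC fam s1 s2 C1 C2 C3 n1 n2 pc p q x).2.1
      (valC fam s1 s2 C1 C2 C3 n1 n2 pc p q x).2.2 cn a b c g γ₁ γ₂ := by
  obtain ⟨e1, e2, e3⟩ := enc_lev hp hq hx hU hY
  obtain ⟨d1, d2, d3⟩ := enc_valC (C1 := C1) (C2 := C2) (C3 := C3) hp hq hx hU hY
  have k1' := n1.K.enc hp hx
  have k2' := n2.K.enc hq hx
  have k3' := enc_norm (pc.K.enc hU hY hx)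
  have hu := enc_dj (jq a) hA
  have hv := enc_dj (jq b) hZ
  have hw := enc_dj (jq c) hT
  have hx' : Enc E X (valR fam s1 s2 n1 n2 pc p q x).x := by
    rw [valR_x]
    exact hx
  obtain ⟨g1, g2⟩ := band_true h
  have f1 := kF_sound hc hp hq hx _ hA hZ hT hU hY hF he g1
  have r1 : Enc E (sg s1 (n1.K.t P X)) (valR fam s1 s2 n1 n2 pc p q x).R1 := by
    cases fam <;> exact enc_sg s1 k1'
  have r2 : Enc E (sl fam (sg s2 (n2.K.t Q X)) (pnorm (pc.K.t U Y X)))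
      (valR fam s1 s2 n1 n2 pc p q x).R2 := by
    cases fam <;> exact enc_sl _ (enc_sg s2 k2') k3'
  have r3 : Enc E (sl fam (pnorm (pc.K.t U Y X)) (sg s2 (n2.K.t Q X)))
      (valR fam s1 s2 n1 n2 pc p q x).R3 := by
    cases fam <;> exact enc_sl _ k3' (enc_sg s2 k2')
  have f2 := nD_sound hc (enc_rat E k1 k2) (En.enc hx) hx' hA hZ hT hu hv hw d1 d2 d3 r1 r2 r3 _ hF he
    e1 e2 e3 g2
  exact ⟨_, _, _, _, _, f2.1, f2.2.1, f2.2.2.1, f2.2.2.2.1, f2.2.2.2.2.1, f1, f2.2.2.2.2.2⟩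

/-- The statement of a leaf of type D: the triangle does not belong to the subfamily or the
inequalities of type D hold for some kind, gain and levels. -/
def DAlt (N0 k1 k2 : ℕ) (En : Fn1) (C1 C2 : Fn2) (C3 : Fn3) (fam s1 s2 : Bool) (cn : Con)
    (a b c : ℕ) (n1 n2 : Node) (pc : Piece) (p q x : ℝ) : Prop :=
  (valR fam s1 s2 n1 n2 pc p q x).out (cond fam c b) ∨
    ∃ i j g γ₁ γ₂, DRow i j N0 ((k1 : ℝ) / k2) (En.v x) (valR fam s1 s2 n1 n2 pc p q x)
      (valC fam s1 s2 C1 C2 C3 n1 n2 pc p q x).1 (valC fam s1 s2 C1 C2 C3 n1 n2 pc p q x).2.1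
      (valC fam s1 s2 C1 C2 C3 n1 n2 pc p q x).2.2 cn a b c g γ₁ γ₂

theorem dT_sound {N0 : ℕ} {k1 k2 : ℕ} {En : Fn1} {C1 C2 : Fn2} {C3 : Fn3} {fam s1 s2 : Bool}
    {a b c : ℕ} {cn : Con} (hc : con a b c = some cn) {n1 n2 : Node} {pc : Piece} {P Q X : ℕ}
    {p q x : ℝ} (hp : Enc E P p) (hq : Enc E Q q) (hx : Enc E X x) (r : ℕ)
    (h : dT (cond fam c b) fam s1 s2 n1 n2
      (kD N0 k1 k2 En C1 C2 C3 fam s1 s2 cn a b c n1 n2 pc) r P Q X = true) :
    DAlt N0 k1 k2 En C1 C2 C3 fam s1 s2 cn a b c n1 n2 pc p q x := by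
  have hA := n1.Y.enc hp
  have hB := n2.Y.enc hq
  have hU := enc_sg s1 (n1.X.enc hp)
  have hV := enc_sg s2 (n2.X.enc hq)
  have gex := valR_ex fam s1 s2 n1 n2 pc p q x
  have gy := valR_y fam s1 s2 n1 n2 pc p q x
  have hY : Enc E (pnorm (th fam (n1.Y.t P) (n2.Y.t Q)))
      (valR fam s1 s2 n1 n2 pc p q x).Y := by
    cases fam
    · exact enc_norm (enc_sub hB hA)
    · exact enc_norm (enc_add hA hB)
  have kz : Enc E (sl fam (n2.Y.t Q) (pnorm (th fam (n1.Y.t P) (n2.Y.t Q))))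
      (valR fam s1 s2 n1 n2 pc p q x).z := by
    cases fam <;> exact enc_sl _ hB hY
  have kt : Enc E (sl fam (pnorm (th fam (n1.Y.t P) (n2.Y.t Q))) (n2.Y.t Q))
      ((valR fam s1 s2 n1 n2 pc p q x).y + (valR fam s1 s2 n1 n2 pc p q x).z) := by
    cases fam
    · exact enc_cast (enc_sl false hY hB) (by
        show n2.Y.v q = n1.Y.v p + (n2.Y.v q - n1.Y.v p)
        ring)
    · exact enc_sl true hY hB
  have kX : Enc E (pnorm (th fam (sg s1 (n1.X.t P)) (sg s2 (n2.X.t Q))))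
      (valR fam s1 s2 n1 n2 pc p q x).X := by
    cases fam
    · exact enc_norm (enc_sub hV hU)
    · exact enc_norm (enc_add hU hV)
  unfold DAlt
  unfold dT at h
  simp only [frc_eq] at h
  generalize Nat.mul (Nat.shiftRight r 52) 1048576 = l at h
  generalize Nat.land (Nat.shiftRight r 49) 7 = i at h
  generalize Nat.land r 562949953421311 = r' at h
  set W := valR fam s1 s2 n1 n2 pc p q x with hVal
  have kex : Enc E (psub (phf (psub (pmul (sg s1 (n1.X.t P)) (n2.Y.t Q))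
      (pmul (sg s2 (n2.X.t Q)) (n1.Y.t P)))) (phn 1)) W.ex := by
    rw [gex]
    refine enc_cast (enc_sub (enc_half (enc_sub (enc_mul hU hB) (enc_mul hV hA)))
      (enc_phn E 1)) ?_
    push_cast
    ring
  by_cases ho : W.out (cond fam c b)
  · exact Or.inl ho
  · refine Or.inr ?_
    obtain ⟨o1, o2, o3, o4, o5⟩ := Val.not_out ho
    have b1 := enc_sub (enc_phn E (cond fam c b)) hY
    have b2 := enc_sub hY (enc_phn E (Nat.add (cond fam c b) 1))
    have b3 := enc_sub (enc_one E) (enc_qqT kX hY)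
    have b4 := enc_sub (enc_qqT kX hY) (enc_pnc E 3)
    have b5 := enc_sub (enc_mul hV hA) (enc_mul hU hB)
    have a1 : ((Nat.add (cond fam c b) 1 : ℕ) : ℝ) = ((cond fam c b : ℕ) : ℝ) + 1 := by
      show (((cond fam c b : ℕ) + 1 : ℕ) : ℝ) = _
      push_cast
      ring
    obtain ⟨v, hv, hv'⟩ := enc_pk5 b1 b2 b3 b4 b5 (by linarith) (by rw [a1]; linarith)
      (by linarith) (by push_cast; linarith) (by rw [gex] at o5; linarith)
      i
    have hl' := enc_mul (enc_dc E l 0) hv'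
    have hn : (0 : ℝ) ≤ ((l : ℝ) - ((0 : ℕ) : ℝ)) / S := by
      push_cast
      rw [sub_zero]
      positivity
    exact kD_sound hc hp hq hx _ (gy ▸ hA) kz kt kX hY (enc_add kex hl')
      (by nlinarith [mul_nonneg hn (neg_nonneg.2 hv)]) h

end

/-- **Leaves of type D** as a further alternative. -/
noncomputable def extD (N0 k1 k2 : ℕ) (En : Fn1) (C1 C2 : Fn2) (C3 : Fn3) (fam s1 s2 : Bool)
    (cn : Con) (a b c : ℕ) (hc : con a b c = some cn) (n1 n2 : Node) (pc : Piece) : Ext where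
  t r p q x := dT (cond fam c b) fam s1 s2 n1 n2
    (kD N0 k1 k2 En C1 C2 C3 fam s1 s2 cn a b c n1 n2 pc) r p q x
  P p q x := DAlt N0 k1 k2 En C1 C2 C3 fam s1 s2 cn a b c n1 n2 pc p q x
  snd hp hq hx h := dT_sound hc hp hq hx _ h

/-- either of two further alternatives; the last bit of the payload decides -/
noncomputable def Ext.or (A B : Ext) : Ext where
  t r p q x := Bool.rec (motive := fun _ => Bool) (B.t (Nat.shiftRight r 1) p q x)
    (A.t (Nat.shiftRight r 1) p q x) (Nat.beq (Nat.land r 1) 0)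
  P p q x := A.P p q x ∨ B.P p q x
  snd hp hq hx h := by
    rcases hb : Nat.beq (Nat.land _ 1) 0 with _ | _
    · rw [hb] at h
      exact Or.inr (B.snd hp hq hx h)
    · rw [hb] at h
      exact Or.inl (A.snd hp hq hx h)

end Pool.Agent.Strip051.PB
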