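import Pool.Agent.Strip051.PB.BridgeX
import Pool.Agent.Strip051.PB.FactC

/-! # Facts about a table near `x = 1` -/

namespace Pool.Agent.Strip051.PB

open Pool.Agent.StripNear Pool.Agent.StripSquare Pool.Agent.Strip051.Sweep
open Pool.Agent.Strip051.LC

section

variable {n : ℕ} {crd : Fin (n + 1) → ℕ → ℝ → ℝ} {j : Fin (n + 1)} {q W W' : ℕ}
  {P : Pos n} {nd : NodeX} {fK fL : Fin (n + 1) → ℕ → Fn2} {x y : ℝ}

theorem atX_main (hY : ∀ y, OnC j q y → nd.Y.v (crd j q y) = y)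
    (hX : ∀ y, OnC j q y → nd.X.v (crd j q y) x = crv P j q y)
    (hK : nd.K = fK j q) (hL : nd.L = fL j q) (hy : OnC j q y) :
    AtX P (tbF fK crd) (tbF fL crd) nd j q y (crd j q y) x :=
  ⟨hY y hy, hX y hy, by rw [tbF_on hy, hK], by rw [tbF_on hy, hL]⟩

/-- A node in the coordinate of the tables, at the heights with the property `V`. -/
theorem covX_main {V : ℝ → Prop} (hY : ∀ y, OnC j q y → nd.Y.v (crd j q y) = y)
    (hX : ∀ y, OnC j q y → nd.X.v (crd j q y) x = crv P j q y)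
    (hK : nd.K = fK j q) (hL : nd.L = fL j q)
    (b : ∀ y, OnC j q y → V y → InRt W W' (crd j q y)) :
    CovX P (tbF fK crd) (tbF fL crd) nd j q W W' V x := by
  intro y hy hv
  exact ⟨_, atX_main hY hX hK hL hy, b y hy hv⟩

/-- A variant of a node. -/
theorem covX_var {RK RL : Fin (n + 1) → ℕ → ℝ → ℝ → ℝ} {lo hi : ℝ}
    {V : ℝ → Prop} (p : ℝ → ℝ) (hA : ∀ y, OnC j q y → V y → AtX P RK RL nd j q y (p y) x)
    (hb : ∀ y, OnC j q y → V y → lo ≤ p y ∧ p y ≤ hi) (h1 : (W : ℝ) ≤ lo * 1073741824)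
    (h2 : hi * 1073741824 ≤ (W : ℝ) + W') : CovX P RK RL nd j q W W' V x :=
  fun y hy hv => ⟨_, hA y hy hv, inRt_of (hb y hy hv) h1 h2⟩

end

/-- the test `0 < F` -/
noncomputable def posRX (F : Fn2) (_ A _ C : ℕ) : Bool := ppos (F.t A C)

theorem posX_sound {F : Fn2} {P1 W1 P3 W3 : ℕ}
    (ht : ∃ t, chk3 (onCell P1 W1 0 0 P3 W3 (posRX F)) t 1 1 1 = true) {p x : ℝ}
    (hp : (P1 : ℝ) / S ≤ p) (hp' : p ≤ ((P1 : ℝ) + W1) / S)
    (hx : (P3 : ℝ) / S ≤ x) (hx' : x ≤ ((P3 : ℝ) + W3) / S) : 0 < F.v p x := by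
  have key := onCell_sound (Q := fun p _ x => 0 < F.v p x) ?_ ht hp hp' (q := 0)
    (by norm_num) (by norm_num) hx hx'
  · exact key
  · intro E h A B C p q x h1 _ h3 hl
    exact ppos_sound (F.enc h1 h3) hl

/-- A value on the line between two nodes. -/
theorem vir_lin {a b r s t u w : ℝ} (h : w = (1 - t) * a + t * b)
    (h1 : s - r = t * (u - r)) : w * (u - r) = a * (u - s) + b * (s - r) := by
  rw [h]
  have : u - s = (1 - t) * (u - r) := by linarith
  rw [this, h1]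
  ring

end Pool.Agent.Strip051.PB
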