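import Pool.Agent.Strip051.PB.Ngv
import Pool.Agent.Strip051.LC.Exact.SmallX

/-! # From the triples of quarters to the families -/

namespace Pool.Agent.Strip051.PB

open Pool.Agent.StripNear Pool.Agent.StripSquare Pool.Agent.Strip051.Sweep
open Pool.Agent.Strip051.LC

section

variable {n : ℕ} {ι : Type}

/-- The hypotheses of the family `A` with the quarters of the three heights. -/
structure InA (K : Cur n ι) (a b c : ℕ) (j k : Fin (n + 1)) (σ σ' y y' : ℝ) : Prop where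
  q1 : InQ a y
  q2 : InQ b y'
  q3 : InQ c (y + y')
  y0 : 0 ≤ y
  y0' : 0 ≤ y'
  d1 : K.dm j (h0 * y)
  d2 : K.dm k (h0 * y')
  ho : 0 ≤ σ * K.cv j (h0 * y) * y' - σ' * K.cv k (h0 * y') * y
  h1 : 1 ≤ qqn (σ * K.cv j (h0 * y) + σ' * K.cv k (h0 * y')) (y + y')
  h3 : qqn (σ * K.cv j (h0 * y) + σ' * K.cv k (h0 * y')) (y + y') ≤ 3

/-- The hypotheses of the family `B` with the quarters of the three heights. -/
structure InB (K : Cur n ι) (a b c : ℕ) (j k : Fin (n + 1)) (σ σ' y y' : ℝ) : Prop where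
  q1 : InQ a y
  q2 : InQ b y'
  q3 : InQ c (y + y')
  y0 : 0 ≤ y
  y0' : 0 ≤ y'
  d1 : K.dm j (h0 * y)
  d3 : K.dm k (h0 * (y + y'))
  ho : 0 ≤ σ * K.cv j (h0 * y) * (y + y') - σ' * K.cv k (h0 * (y + y')) * y
  h1 : 1 ≤ qqn (σ' * K.cv k (h0 * (y + y')) - σ * K.cv j (h0 * y)) y'
  h3 : qqn (σ' * K.cv k (h0 * (y + y')) - σ * K.cv j (h0 * y)) y' ≤ 3

/-- The family `A` in a triple of quarters. -/
def TriA (K : Cur n ι) (V : ℝ → ℝ → ℝ → ℝ → ((ℝ → ι → ℝ) → ℝ × ℝ × ℝ) → Prop) (a b c : ℕ)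
    (j k : Fin (n + 1)) (σ σ' : ℝ) : Prop :=
  ∀ y y' : ℝ, InA K a b c j k σ σ' y y' →
    V (σ * K.cv j (h0 * y)) (σ * K.cv j (h0 * y) + σ' * K.cv k (h0 * y')) (h0 * y) (h0 * y')
      (K.valK (σ * K.cv j (h0 * y)) (σ * K.cv j (h0 * y) + σ' * K.cv k (h0 * y')) (h0 * y)
        (h0 * y'))

/-- The family `B` in a triple of quarters. -/
def TriB (K : Cur n ι) (V : ℝ → ℝ → ℝ → ℝ → ((ℝ → ι → ℝ) → ℝ × ℝ × ℝ) → Prop) (a b c : ℕ)
    (j k : Fin (n + 1)) (σ σ' : ℝ) : Prop :=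
  ∀ y y' : ℝ, InB K a b c j k σ σ' y y' →
    V (σ * K.cv j (h0 * y)) (σ' * K.cv k (h0 * (y + y'))) (h0 * y) (h0 * y')
      (K.valK (σ * K.cv j (h0 * y)) (σ' * K.cv k (h0 * (y + y'))) (h0 * y) (h0 * y'))

theorem hsq : h0 * h0 = 3 / 4 := by
  have := h0_sq
  rwa [pow_two] at this

theorem qqn_eq (X y : ℝ) : X ^ 2 + (h0 * y) ^ 2 = qqn X y := by
  unfold qqn
  rw [mul_pow, pow_two h0, hsq]

theorem triple_cases {y y' : ℝ} (h1 : 0 ≤ y) (h2 : 0 ≤ y') (h : y + y' ≤ 2) :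
    (InQ 0 y ∧ InQ 0 y' ∧ InQ 0 (y + y')) ∨ (InQ 2 y ∧ InQ 2 y' ∧ InQ 3 (y + y')) ∨
      ∃ a b c : ℕ, con a b c ≠ none ∧ InQ a y ∧ InQ b y' ∧ InQ c (y + y') := by
  rcases inQ_cases h1 (by linarith) with a | a | a | a <;>
  rcases inQ_cases h2 (by linarith) with b | b | b | b <;>
  rcases inQ_cases (add_nonneg h1 h2) h with c | c | c | c <;>
  first
  | exact Or.inl ⟨a, b, c⟩
  | exact Or.inr (Or.inl ⟨a, b, c⟩)
  | exact Or.inr (Or.inr ⟨_, _, _, by decide, a, b, c⟩)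
  | (exfalso
     obtain ⟨a1, a2⟩ := a
     obtain ⟨b1, b2⟩ := b
     obtain ⟨c1, c2⟩ := c
     linarith)

theorem node_lo (K : Cur n ι) (j : Fin (n + 1)) {y : ℝ} (h : InQ 0 y) :
    9 / 10 < K.cv j (h0 * y) := by
  obtain ⟨h1, h2⟩ := h
  have hp := h0_pos
  have hh := hsq
  have hT : 0 ≤ h0 * y := mul_nonneg hp.le h1
  have e : (h0 * y) ^ 2 ≤ 3 / 16 := by
    rw [mul_pow, pow_two h0, hh]
    nlinarith
  refine lt_of_lt_of_le ?_ (K.low j _ hT (by linarith))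
  unfold c1
  apply Real.lt_sqrt_of_sq_lt
  linarith

theorem node_hi (K : Cur n ι) (j : Fin (n + 1)) {y : ℝ} (h : InQ 0 y) :
    K.cv j (h0 * y) < 17321 / 10000 := by
  obtain ⟨h1, h2⟩ := h
  have hp := h0_pos
  have hh := hsq
  have hT : 0 ≤ h0 * y := mul_nonneg hp.le h1
  have e : (h0 * y) ^ 2 ≤ 3 / 16 := by
    rw [mul_pow, pow_two h0, hh]
    nlinarith
  refine lt_of_le_of_lt (K.high j _ hT (by linarith)) ?_
  unfold c3
  rw [Real.sqrt_lt' (by norm_num)]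
  nlinarith [sq_nonneg (h0 * y)]

theorem len_lo {X y : ℝ} (h : InQ 0 y) (h1 : 1 ≤ qqn X y) : 8 / 10 < X ^ 2 := by
  obtain ⟨a1, a2⟩ := h
  unfold qqn at h1
  nlinarith

theorem len_hi {X y : ℝ} (h1 : qqn X y ≤ 3) : X ^ 2 ≤ 3 := by
  unfold qqn at h1
  nlinarith [sq_nonneg y]

theorem no000 {p q X : ℝ} (hp : 9 / 10 < p) (hp' : p < 17321 / 10000) (hq : 9 / 10 < q)
    (hq' : q < 17321 / 10000) (h1 : 8 / 10 < X ^ 2) (h3 : X ^ 2 ≤ 3)
    (h : X = p + q ∨ X = -(p + q) ∨ X = p - q ∨ X = q - p) : False := by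
  rcases h with rfl | rfl | rfl | rfl <;> nlinarith

variable {K : Cur n ι} {V : ℝ → ℝ → ℝ → ℝ → ((ℝ → ι → ℝ) → ℝ × ℝ × ℝ) → Prop}

theorem triA_000 {j k : Fin (n + 1)} {σ σ' : ℝ} (hσ : σ = 1 ∨ σ = -1)
    (hσ' : σ' = 1 ∨ σ' = -1) : TriA K V 0 0 0 j k σ σ' := by
  intro y y' H
  exfalso
  refine no000 (node_lo K j H.q1) (node_hi K j H.q1) (node_lo K k H.q2) (node_hi K k H.q2)
    (len_lo H.q3 H.h1) (len_hi H.h3) ?_
  rcases hσ with rfl | rfl <;> rcases hσ' with rfl | rfl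
  · exact Or.inl (by ring)
  · exact Or.inr (Or.inr (Or.inl (by ring)))
  · exact Or.inr (Or.inr (Or.inr (by ring)))
  · exact Or.inr (Or.inl (by ring))

theorem triB_000 {j k : Fin (n + 1)} {σ σ' : ℝ} (hσ : σ = 1 ∨ σ = -1)
    (hσ' : σ' = 1 ∨ σ' = -1) : TriB K V 0 0 0 j k σ σ' := by
  intro y y' H
  exfalso
  refine no000 (node_lo K j H.q1) (node_hi K j H.q1) (node_lo K k H.q3) (node_hi K k H.q3)
    (len_lo H.q2 H.h1) (len_hi H.h3) ?_
  rcases hσ with rfl | rfl <;> rcases hσ' with rfl | rfl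
  · exact Or.inr (Or.inr (Or.inr (by ring)))
  · exact Or.inr (Or.inl (by ring))
  · exact Or.inl (by ring)
  · exact Or.inr (Or.inr (Or.inl (by ring)))

/-- The property at the single point of the triple `2, 2, 3`. -/
def At223 (K : Cur n ι) (V : ℝ → ℝ → ℝ → ℝ → ((ℝ → ι → ℝ) → ℝ × ℝ × ℝ) → Prop) : Prop :=
  ∀ j : Fin (n + 1), K.dm j h0 →
    V (K.cv j h0) 0 h0 h0 (K.valK (K.cv j h0) 0 h0 h0)

theorem pair_one {y y' : ℝ} (h1 : InQ 2 y) (h2 : InQ 2 y') (h3 : InQ 3 (y + y')) :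
    y = 1 ∧ y' = 1 := by
  obtain ⟨a1, a2⟩ := h1
  obtain ⟨b1, b2⟩ := h2
  obtain ⟨g1, g2⟩ := h3
  constructor <;> linarith

theorem cv_h0 (K : Cur n ι) (j : Fin (n + 1)) : 0 < K.cv j h0 := by
  have hp := h0_pos
  have hq := h0_sq
  refine lt_of_lt_of_le ?_ (K.low j h0 hp.le (by linarith))
  unfold c1
  apply Real.sqrt_pos.2
  linarith

theorem triA_223 (h : At223 K V) {j k : Fin (n + 1)} {σ σ' : ℝ} (hσ : σ = 1 ∨ σ = -1) :
    TriA K V 2 2 3 j k σ σ' := by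
  intro y y' H
  obtain ⟨e, e'⟩ := pair_one H.q1 H.q2 H.q3
  have ho := H.ho
  have h3 := H.h3
  have d1 := H.d1
  subst e
  subst e'
  simp only [mul_one] at ho h3 d1 ⊢
  have hc := cv_h0 K j
  have hX : σ * K.cv j h0 + σ' * K.cv k h0 = 0 := by
    unfold qqn at h3
    have : (σ * K.cv j h0 + σ' * K.cv k h0) ^ 2 = 0 := by
      nlinarith [sq_nonneg (σ * K.cv j h0 + σ' * K.cv k h0)]
    simpa using this
  rw [hX]
  have hs : σ = 1 := by
    rcases hσ with h | h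
    · exact h
    · exfalso
      subst h
      linarith
  rw [hs, one_mul]
  exact h j d1

theorem triB_223 (h : At223 K V) {j k : Fin (n + 1)} {σ σ' : ℝ} (hσ : σ = 1 ∨ σ = -1) :
    TriB K V 2 2 3 j k σ σ' := by
  intro y y' H
  obtain ⟨e, e'⟩ := pair_one H.q1 H.q2 H.q3
  have ho := H.ho
  have d1 := H.d1
  have hp := h0_pos
  have hq := h0_sq
  subst e
  subst e'
  have e2 : h0 * (1 + 1) = 2 * h0 := by ring
  have hT3 : (2 * h0) ^ 2 = 3 := by nlinarith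
  have hk : K.cv k (2 * h0) = 0 := by
    refine le_antisymm ((K.high k _ (by linarith) hT3.le).trans (c3_top hT3).le)
      (K.nonneg k (by linarith) hT3.le)
  rw [e2, hk] at ho
  rw [mul_one] at ho d1
  rw [e2, hk, mul_one, mul_zero]
  have hc := cv_h0 K j
  have hs : σ = 1 := by
    rcases hσ with h | h
    · exact h
    · exfalso
      subst h
      linarith
  rw [hs, one_mul]
  exact h j d1

/-- **The family `A`** from the triples of quarters. -/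
theorem exA_of (hV : K.Congr V) (h223 : At223 K V) {j k : Fin (n + 1)} {σ σ' ε : ℝ}
    (hσ : σ = 1 ∨ σ = -1) (hσ' : σ' = 1 ∨ σ' = -1) (hε : ε = 1 ∨ ε = -1)
    (A : ∀ a b c : ℕ, con a b c ≠ none → TriA K V a b c j k σ σ') : K.ExA V j k σ σ' ε := by
  intro i t t' H
  obtain ⟨h1, h2, h3, h4, h5, h6, h7, -, -⟩ := id H
  have hp := h0_pos
  have hh := hsq
  have hne : h0 ≠ 0 := hp.ne'
  obtain ⟨y, rfl⟩ : ∃ y, t = h0 * y := ⟨t / h0, by field_simp⟩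
  obtain ⟨y', rfl⟩ : ∃ y', t' = h0 * y' := ⟨t' / h0, by field_simp⟩
  have y0 : 0 ≤ y := nonneg_of_mul_nonneg_right h1 hp
  have y0' : 0 ≤ y' := nonneg_of_mul_nonneg_right h2 hp
  have e : h0 * y + h0 * y' = h0 * (y + y') := by ring
  rw [e, qqn_eq] at h6 h7
  have hY : y + y' ≤ 2 := by
    unfold qqn at h7
    nlinarith [sq_nonneg (σ * K.cv j (h0 * y) + σ' * K.cv k (h0 * y'))]
  have ho : 0 ≤ σ * K.cv j (h0 * y) * y' - σ' * K.cv k (h0 * y') * y := by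
    have : 0 ≤ h0 * (σ * K.cv j (h0 * y) * y' - σ' * K.cv k (h0 * y') * y) := by linarith
    exact nonneg_of_mul_nonneg_right this hp
  have key : V (σ * K.cv j (h0 * y)) (σ * K.cv j (h0 * y) + σ' * K.cv k (h0 * y')) (h0 * y)
      (h0 * y') (K.valK (σ * K.cv j (h0 * y)) (σ * K.cv j (h0 * y) + σ' * K.cv k (h0 * y'))
        (h0 * y) (h0 * y')) := by
    rcases triple_cases y0 y0' hY with ⟨a, b, c⟩ | ⟨a, b, c⟩ | ⟨a, b, c, hc, q1, q2, q3⟩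
    · exact triA_000 hσ hσ' y y' ⟨a, b, c, y0, y0', h3, h4, ho, h6, h7⟩
    · exact triA_223 h223 hσ y y' ⟨a, b, c, y0, y0', h3, h4, ho, h6, h7⟩
    · exact A a b c hc y y' ⟨q1, q2, q3, y0, y0', h3, h4, ho, h6, h7⟩
  exact hV _ _ _ _ _ _ (fun v hv => Cur.valK_A hv hσ hσ' hε H) key

/-- **The family `B`** from the triples of quarters. -/
theorem exB_of (hV : K.Congr V) (h223 : At223 K V) {j k : Fin (n + 1)} {σ σ' ε : ℝ}
    (hσ : σ = 1 ∨ σ = -1) (hσ' : σ' = 1 ∨ σ' = -1) (hε : ε = 1 ∨ ε = -1)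
    (B : ∀ a b c : ℕ, con a b c ≠ none → TriB K V a b c j k σ σ') : K.ExB V j k σ σ' ε := by
  intro i t t' H
  obtain ⟨h1, h2, h3, h4, h5, h6, h7, -, -⟩ := id H
  have hp := h0_pos
  have hh := hsq
  have hne : h0 ≠ 0 := hp.ne'
  obtain ⟨y, rfl⟩ : ∃ y, t = h0 * y := ⟨t / h0, by field_simp⟩
  obtain ⟨y', rfl⟩ : ∃ y', t' = h0 * y' := ⟨t' / h0, by field_simp⟩
  have y0 : 0 ≤ y := nonneg_of_mul_nonneg_right h1 hp
  have y0' : 0 ≤ y' := nonneg_of_mul_nonneg_right h2 hp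
  have e : h0 * y + h0 * y' = h0 * (y + y') := by ring
  rw [e] at h4 h5 h6 h7
  rw [qqn_eq] at h6 h7
  have hT : (h0 * (y + y')) ^ 2 ≤ 3 := K.dm_sq k _ (mul_nonneg hp.le (by linarith)) h4
  have hY : y + y' ≤ 2 := by
    rw [mul_pow, pow_two h0, hh] at hT
    nlinarith
  have ho : 0 ≤ σ * K.cv j (h0 * y) * (y + y') - σ' * K.cv k (h0 * (y + y')) * y := by
    have : 0 ≤ h0 * (σ * K.cv j (h0 * y) * (y + y') - σ' * K.cv k (h0 * (y + y')) * y) := by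
      linarith
    exact nonneg_of_mul_nonneg_right this hp
  have key : V (σ * K.cv j (h0 * y)) (σ' * K.cv k (h0 * (y + y'))) (h0 * y) (h0 * y')
      (K.valK (σ * K.cv j (h0 * y)) (σ' * K.cv k (h0 * (y + y'))) (h0 * y) (h0 * y')) := by
    rcases triple_cases y0 y0' hY with ⟨a, b, c⟩ | ⟨a, b, c⟩ | ⟨a, b, c, hc, q1, q2, q3⟩
    · exact triB_000 hσ hσ' y y' ⟨a, b, c, y0, y0', h3, h4, ho, h6, h7⟩
    · exact triB_223 h223 hσ y y' ⟨a, b, c, y0, y0', h3, h4, ho, h6, h7⟩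
    · exact B a b c hc y y' ⟨q1, q2, q3, y0, y0', h3, h4, ho, h6, h7⟩
  refine hV _ _ _ _ _ _ (fun v hv => Cur.valK_B hv hσ hσ' hε H) ?_
  rw [e]
  exact key

/-- All triples of the family `A` for the three sign patterns. -/
structure AllTA (K : Cur n ι) (V : ℝ → ℝ → ℝ → ℝ → ((ℝ → ι → ℝ) → ℝ × ℝ × ℝ) → Prop)
    (j k : Fin (n + 1)) : Prop where
  pp : ∀ a b c : ℕ, con a b c ≠ none → TriA K V a b c j k 1 1
  pm : ∀ a b c : ℕ, con a b c ≠ none → TriA K V a b c j k 1 (-1)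
  mm : ∀ a b c : ℕ, con a b c ≠ none → TriA K V a b c j k (-1) (-1)

/-- All triples of the family `B` for the three sign patterns. -/
structure AllTB (K : Cur n ι) (V : ℝ → ℝ → ℝ → ℝ → ((ℝ → ι → ℝ) → ℝ × ℝ × ℝ) → Prop)
    (j k : Fin (n + 1)) : Prop where
  pp : ∀ a b c : ℕ, con a b c ≠ none → TriB K V a b c j k 1 1
  pm : ∀ a b c : ℕ, con a b c ≠ none → TriB K V a b c j k 1 (-1)
  mm : ∀ a b c : ℕ, con a b c ≠ none → TriB K V a b c j k (-1) (-1)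

theorem AllTA.all (hV : K.Congr V) (h223 : At223 K V) {j k : Fin (n + 1)} (A : AllTA K V j k) :
    K.AllA V j k := by
  have p : (1 : ℝ) = 1 ∨ (1 : ℝ) = -1 := Or.inl rfl
  have m : (-1 : ℝ) = 1 ∨ (-1 : ℝ) = -1 := Or.inr rfl
  exact ⟨exA_of hV h223 p p p A.pp, exA_of hV h223 p m p A.pm, exA_of hV h223 p m m A.pm,
    exA_of hV h223 m m m A.mm⟩

theorem AllTB.all (hV : K.Congr V) (h223 : At223 K V) {j k : Fin (n + 1)} (A : AllTB K V j k) :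
    K.AllB V j k := by
  have p : (1 : ℝ) = 1 ∨ (1 : ℝ) = -1 := Or.inl rfl
  have m : (-1 : ℝ) = 1 ∨ (-1 : ℝ) = -1 := Or.inr rfl
  exact ⟨exB_of hV h223 p p p A.pp, exB_of hV h223 p p m A.pp, exB_of hV h223 p m m A.pm,
    exB_of hV h223 m m p A.mm, exB_of hV h223 m m m A.mm⟩

end

end Pool.Agent.Strip051.PB
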