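import Pool.Agent.Strip051.PB.FlFin

/-! # Assembly of the rows at the floor, two kernels

The statements of the certificates for nodes in the coordinate `y`, with root intervals as sets of
heights. -/

namespace Pool.Agent.Strip051.PB

open Pool.Agent.StripNear Pool.Agent.StripSquare Pool.Agent.Strip051.Sweep
open Pool.Agent.Strip051.LC Pool.Agent.Strip051.LC.Exact
open Pool.Agent.Strip051.LC.Floor (G En Qn fS GUn kan k3d k3n zen hfl hml hfh hmh G_nonneg G_sq)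

theorem S_val : (S : ℝ) = 1073741824 := by norm_num [S]

/-- the kernel which vanishes -/
abbrev Z0 {n : ℕ} : Fin (n + 1) → ℕ → ℝ → ℝ → ℝ := fun _ _ _ _ => 0

section

variable {n : ℕ} {P : Pos n} {RK RL RC : Fin (n + 1) → ℕ → ℝ → ℝ → ℝ} {x : ℝ}
  {TK TL TC : ℕ → ℝ → ℝ → ℝ → ℝ} {q : ℕ} {j : Fin (n + 1)} {Q : ℝ → ℝ → ℝ → ℝ → ℝ → Prop}
  {U : ℝ → Prop} {T : FTst} {nd : Node} {nc : Fn2} {W W' P3 W3 : ℕ} {M : Fn1}

theorem AtC.zero {y p : ℝ} (h : At P RK RL nd j q y p x) : AtC P RK RL Z0 nd cZ j q y p x :=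
  ⟨h, rfl⟩

theorem covC_rng (hA : ∀ y, OnC j q y → AtC P RK RL RC nd nc j q y y x) :
    CovC P RK RL RC nd nc j q W W' (Rng W W') x := fun y hy hv => ⟨y, hA y hy, hv⟩

/-- From the certificate of a node in the coordinate `y`. -/
theorem On.ofNd (hA : ∀ y, OnC j q y → AtC P RK RL RC nd nc j q y y x)
    (h : CertNd W W' P3 W3 T [] nd nc) (hx : Rng P3 W3 x) :
    On P RK RL RC x j q (T.P x) (Rng W W') :=
  On.cert (covC_rng hA) h hx (fun _ _ h => h) fun e he => absurd he List.not_mem_nil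

/-- Two adjacent intervals. -/
theorem On.join {a b c d e : ℕ} (h1 : On P RK RL RC x j q Q (Rng a b))
    (h2 : On P RK RL RC x j q Q (Rng c d)) (h : c = a + b) (h' : e = b + d) :
    On P RK RL RC x j q Q (Rng a e) := by
  subst h
  subst h'
  refine h1.or h2 fun y _ hy => ?_
  obtain ⟨k1, k2⟩ := hy
  rcases le_total y (((a : ℝ) + b) / S) with g | g
  · exact Or.inl ⟨k1, g⟩
  · refine Or.inr ⟨?_, ?_⟩
    · push_cast
      exact g
    · push_cast at k2 ⊢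
      rw [add_assoc]
      exact k2

/-- A smaller interval. -/
theorem On.sub {a b c d : ℕ} (h : On P RK RL RC x j q Q (Rng a b)) (h1 : a ≤ c)
    (h2 : c + d ≤ a + b) : On P RK RL RC x j q Q (Rng c d) := by
  refine h.imp fun y _ hy => ?_
  obtain ⟨k1, k2⟩ := hy
  have hS : (0 : ℝ) < S := by rw [S_val]; norm_num
  rw [div_le_iff₀ hS] at k1
  rw [le_div_iff₀ hS] at k2
  have e1 : (a : ℝ) ≤ c := by exact_mod_cast h1
  have e2 : (c : ℝ) + d ≤ a + b := by exact_mod_cast h2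
  exact ⟨by rw [div_le_iff₀ hS]; linarith, by rw [le_div_iff₀ hS]; linarith⟩

/-- The interval contains the quarter. -/
theorem On.full (q : ℕ) {a b : ℕ} (h : On P RK RL RC x j q Q (Rng a b))
    (h1 : a ≤ 536870912 * q) (h2 : 536870912 * (q + 1) ≤ a + b) :
    On P RK RL RC x j q Q fun _ => True := by
  refine h.imp fun y hy _ => ?_
  have hS : (0 : ℝ) < S := by rw [S_val]; norm_num
  have e1 : (a : ℝ) ≤ 536870912 * q := by exact_mod_cast h1
  have e2 : 536870912 * ((q : ℝ) + 1) ≤ a + b := by exact_mod_cast h2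
  have k1 := hy.lo
  have k2 := hy.hi
  constructor
  · rw [div_le_iff₀ hS, S_val]
    linarith
  · rw [le_div_iff₀ hS, S_val]
    linarith

/-! ### The vanishing third kernel -/

theorem usX_zero {th th' μ y X A L : ℝ} :
    usX th x μ q y X A L 0 = usX th' x μ q y X A L 0 := by
  unfold usX
  ring

theorem WallP.th0 {th th' μ y X A L : ℝ} (h : WallP th x μ q y X A L 0) :
    WallP th' x μ q y X A L 0 := by
  obtain ⟨h0, h1, h2⟩ := h
  refine ⟨h0, ?_, ?_⟩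
  · rw [usX_zero (th' := th)]
    exact h1
  · rw [usX_zero (th' := th)]
    exact h2

/-- The wall test with a dip. -/
theorem On.wallZc {oa ob ca cb : ℕ} (hc : ca ≤ cb) (hz : 0 < cb)
    (h : On P RK RL Z0 x j q ((ftWallC true q M oa ob ca cb).P x) U) (th : ℝ) :
    On P RK RL Z0 x j q (WallP th x (M.v x) q) U := fun y a b c => by
  have k : ca ≤ cb → 0 < cb → WallP ((oa : ℝ) / ob) x (M.v x) q y (crv P j q y) (RK j q y x)
      (RL j q y x) 0 := h y a b c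
  exact (k hc hz).th0

theorem On.wallndc {oa ob ca cb : ℕ} (hA : ∀ y, OnC j q y → At P RK RL nd j q y y x)
    (h : CertNd W W' P3 W3 (ftWallC true q M oa ob ca cb) [] nd cZ) (hx : Rng P3 W3 x) (th : ℝ)
    (hc : ca ≤ cb) (hz : 0 < cb) : On P RK RL Z0 x j q (WallP th x (M.v x) q) (Rng W W') :=
  On.wallZc hc hz (On.ofNd (fun y hy => AtC.zero (hA y hy)) h hx) th

/-- The wall test. -/
theorem On.wallZ {oa ob : ℕ} (h : On P RK RL Z0 x j q ((ftWall true q M oa ob).P x) U) (th : ℝ) :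
    On P RK RL Z0 x j q (WallP th x (M.v x) q) U := fun y a b c => by
  have k : WallP ((oa : ℝ) / ob) x (M.v x) q y (crv P j q y) (RK j q y x) (RL j q y x) 0 :=
    h y a b c
  exact k.th0

theorem On.wallnd {oa ob : ℕ} (hA : ∀ y, OnC j q y → At P RK RL nd j q y y x)
    (h : CertNd W W' P3 W3 (ftWall true q M oa ob) [] nd cZ) (hx : Rng P3 W3 x) (th : ℝ) :
    On P RK RL Z0 x j q (WallP th x (M.v x) q) (Rng W W') :=
  On.wallZ (On.ofNd (fun y hy => AtC.zero (hA y hy)) h hx) th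

theorem On.monond (hA : ∀ y, OnC j q y → At P RK RL nd j q y y x)
    (h : CertNd W W' P3 W3 (ftMono true q M) [] nd cZ) (hx : Rng P3 W3 x) :
    On P RK RL Z0 x j q (MonoQ x (M.v x) q) (Rng W W') := fun y a b c => by
  have k := On.ofNd (fun y hy => AtC.zero (hA y hy)) h hx y a b c
  exact k

/-- The tight pairs at `y = 0`. -/
theorem On.germ0 (hA : ∀ y, OnC j 0 y → At P RK RL nd j 0 y y x)
    (h : CertGe W W' P3 W3 true [] (((2 : ℕ) : ℝ) / ((1 : ℕ) : ℝ)) 0 ((0 : ℕ) : ℝ)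
      (((2 : ℕ) : ℝ) / 2) M nd cZ)
    (hx : Rng P3 W3 x) (x0 : 0 < x) (x1 : x < 1) (hμ : 0 ≤ M.v x) (bX : nd.X.v 0 = 1)
    (bK : En x * nd.K.v 0 x = (En x + M.v x * Qn x) * 1) (bL : nd.L.v 0 x = 0)
    (hm : On P RK RL Z0 x j 0 (MonoQ x (M.v x) 0) (Rng W W')) (th : ℝ) :
    On P RK RL Z0 x j 0 (WallP th x (M.v x) 0) (Rng W W') := by
  have e1 : ((0 : ℕ) : ℝ) = 0 := Nat.cast_zero
  have e2 : ((2 : ℕ) : ℝ) / 2 = 1 := by norm_num
  rw [e1, e2] at h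
  refine On.germ (th' := th) (fun y hy => AtC.zero (hA y hy)) h hx x0 x1 ?_ (fun _ => rfl) hμ
    (Or.inl ⟨rfl, rfl, rfl⟩) bX bK bL (fun y hq hu => ⟨?_, hu⟩) hm
    (fun e he => absurd he List.not_mem_nil)
  · show ((2 : ℕ) : ℝ) / ((1 : ℕ) : ℝ) ≤ 2
    norm_num
  · show 0 ≤ y - 0
    linarith [hq.1]

/-- The tight pair at `y = 1`. -/
theorem On.germ1 (hA : ∀ y, OnC j 1 y → At P RK RL nd j 1 y y x)
    (h : CertGe W W' P3 W3 true [] (((2 : ℕ) : ℝ) / ((1 : ℕ) : ℝ)) 1 ((1 : ℕ) : ℝ)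
      (((1 : ℕ) : ℝ) / 2) M nd cZ)
    (hx : Rng P3 W3 x) (x0 : 0 < x) (x1 : x < 1) (hμ : 0 ≤ M.v x) (bX : nd.X.v 1 = 1 / 2)
    (bK : En x * nd.K.v 1 x = (En x + M.v x * Qn x) * (1 / 2)) (bL : nd.L.v 1 x = 0)
    (hm : On P RK RL Z0 x j 1 (MonoQ x (M.v x) 1) (Rng W W')) (th : ℝ) :
    On P RK RL Z0 x j 1 (WallP th x (M.v x) 1) (Rng W W') := by
  have e1 : ((1 : ℕ) : ℝ) = 1 := Nat.cast_one
  have e2 : ((1 : ℕ) : ℝ) / 2 = 1 / 2 := by norm_num
  have h' : CertGe W W' P3 W3 true [] (((2 : ℕ) : ℝ) / ((1 : ℕ) : ℝ)) 1 1 (1 / 2) M nd cZ := by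
    have h1 := h
    generalize ((2 : ℕ) : ℝ) / ((1 : ℕ) : ℝ) = t at h1 ⊢
    rw [e2, e1] at h1
    exact h1
  refine On.germ (th' := th) (fun y hy => AtC.zero (hA y hy)) h' hx x0 x1 ?_ (fun _ => rfl) hμ
    (Or.inr (Or.inl ⟨rfl, rfl, rfl⟩)) bX bK bL (fun y hq hu => ⟨?_, hu⟩) hm
    (fun e he => absurd he List.not_mem_nil)
  · show ((2 : ℕ) : ℝ) / ((1 : ℕ) : ℝ) ≤ 2
    norm_num
  · show 0 ≤ -(y - 1)
    linarith [hq.2]

/-! ### The right curves in the quarter 2 -/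

theorem y_le {y : ℝ} (hT : h0 * y ≤ 1) (h1 : 1 ≤ y) : y ≤ 11548 / 10000 := by
  have h := le_of_steep hT h1
  nlinarith

theorem On.right2 {oa ob : ℕ} (hA : ∀ y, OnC j 2 y → At P RK RL nd j 2 y y x)
    (h : CertNd 1073741824 166215235 P3 W3 (ftWall true 2 M oa ob) [⟨4, 0⟩] nd cZ)
    (hx : Rng P3 W3 x) (th : ℝ) :
    On P RK RL Z0 x j 2 (WallP th x (M.v x) 2) fun y => h0 * y ≤ 1 ∧ 1 - G y ≤ crv P j 2 y := by
  refine On.wallZ (On.cert (covC_rng fun y hy => AtC.zero (hA y hy)) h hx ?_ ?_) th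
  · intro y hq hu
    have h1 : 1 ≤ y := hq.1
    have h2 := y_le hu.1 h1
    have hS : (0 : ℝ) < S := by rw [S_val]; norm_num
    constructor
    · rw [div_le_iff₀ hS, S_val]
      push_cast
      linarith
    · rw [le_div_iff₀ hS, S_val]
      push_cast
      linarith
  · intro e he
    rw [List.mem_singleton] at he
    subst he
    refine On.none fun y _ _ hu => ?_
    have h3 : crv P j 2 y < 1 - G y := hu.2
    exact absurd h3 (not_lt.2 hu.1.2)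

/-! ### Steep pairs -/

/-- the bound of the height of the steep pairs from the abscissa -/
theorem G_ge_of {y : ℝ} {s w : ℕ} (h : 4 * w ^ 2 + 3 * s ^ 2 ≤ 4 * 1073741824 ^ 2)
    (hy0 : 0 ≤ y) (hy : y ≤ (s : ℝ) / S) : (w : ℝ) / S ≤ G y := by
  have hS : (0 : ℝ) < S := by rw [S_val]; norm_num
  have h' : 4 * (w : ℝ) ^ 2 + 3 * (s : ℝ) ^ 2 ≤ 4 * (S : ℝ) ^ 2 := by
    rw [S_val]
    exact_mod_cast h
  have hy2 : y ^ 2 ≤ ((s : ℝ) / S) ^ 2 := by nlinarith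
  have e : 4 * ((w : ℝ) / S) ^ 2 + 3 * ((s : ℝ) / S) ^ 2 ≤ 4 := by
    rw [div_pow, div_pow, ← mul_div_assoc, ← mul_div_assoc, ← add_div, div_le_iff₀ (by positivity)]
    exact h'
  unfold Pool.Agent.Strip051.LC.Floor.G
  apply Real.le_sqrt_of_sq_le
  linarith

theorem G_le_of {y : ℝ} {s w : ℕ} (h : 4 * 1073741824 ^ 2 ≤ 4 * w ^ 2 + 3 * s ^ 2)
    (hy : (s : ℝ) / S ≤ y) : G y ≤ (w : ℝ) / S := by
  have hS : (0 : ℝ) < S := by rw [S_val]; norm_num
  have h' : 4 * (S : ℝ) ^ 2 ≤ 4 * (w : ℝ) ^ 2 + 3 * (s : ℝ) ^ 2 := by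
    rw [S_val]
    exact_mod_cast h
  have h0 : 0 ≤ (s : ℝ) / S := by positivity
  have hy2 : ((s : ℝ) / S) ^ 2 ≤ y ^ 2 := by nlinarith
  have e : 4 ≤ 4 * ((w : ℝ) / S) ^ 2 + 3 * ((s : ℝ) / S) ^ 2 := by
    rw [div_pow, div_pow, ← mul_div_assoc, ← mul_div_assoc, ← add_div, le_div_iff₀ (by positivity)]
    exact h'
  unfold Pool.Agent.Strip051.LC.Floor.G
  refine Real.sqrt_le_iff.2 ⟨by positivity, ?_⟩
  linarith

end

section

variable {n : ℕ} {P : Pos n} {RK RL : Fin (n + 1) → ℕ → ℝ → ℝ → ℝ} {x : ℝ} {f : ℝ → ℝ}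
  {vR vL vC : ℝ → Fin (n + 1) → ℝ} {TK TL : ℕ → ℝ → ℝ → ℝ → ℝ} {q : ℕ} {j : Fin (n + 1)}
  {W W' P3 W3 : ℕ} {M : Fn1}

/-- **The steep pairs**, no third kernel. -/
theorem FV.steepZ {th : ℝ}
    (V : FV P x (M.v x) th f vR vL vC RK RL Z0 TK TL fun _ _ _ _ => 0) (ht : 0 ≤ th) {i : Fin n}
    {jl jr : Fin (n + 1)} (hl : i.castSucc = jl) (hr : i.succ = jr) (hj : jl ≠ 0) {nl nr : Node}
    (Al : ∀ y, OnC jl 2 y → At P RK RL nl jl 2 y y x)
    (Ar : ∀ y, OnC jr 2 y → At P RK RL nr jr 2 y y x)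
    (bX : nl.X.v 1 = 1 / 2) (bK : En x * nl.K.v 1 x = (En x + M.v x * Qn x) * (1 / 2))
    (bL : nl.L.v 1 x = 0) (pK : RK jl 2 1 x = RK 0 2 1 x) (pL : RL jl 2 1 x = RL 0 2 1 x)
    {pc : Piece} (hK : ∀ X y, pc.K.v X y x = TK 2 X y x) (hL : ∀ X y, pc.L.v X y x = TL 2 X y x)
    {Ws Wa Wc Wb oa ob : ℕ}
    (hst : CertSt 1073741824 Ws P3 W3 true [] (((2 : ℕ) : ℝ) / ((1 : ℕ) : ℝ)) M nl cZ nr cZ)
    (hm : CertSd Wa Wc P3 W3 (ftMono true 2 M) [] ygF xsF pc dZ)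
    (hw : CertSd 0 Wb P3 W3 (ftWall true 2 M oa ob) [] ygF xsF pc dZ) (hx : Rng P3 W3 x)
    (hac : Wa + Wc = 536870912)
    (ha : 4 * Wa ^ 2 + 3 * (1073741824 + Ws) ^ 2 ≤ 4 * 1073741824 ^ 2)
    (hb : 4 * 1073741824 ^ 2 ≤ 4 * Wb ^ 2 + 3 * (1073741824 + Ws) ^ 2) :
    ∀ y : ℝ, 1 ≤ y → h0 * y ≤ 1 → GV P x (M.v x) vR vL vC f 2 y (1 - G y) := by
  subst hl
  subst hr
  have x0 := V.par.x0
  have x1 := V.par.x1
  have hS : (0 : ℝ) < S := by rw [S_val]; norm_num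
  have on1 : OnC i.castSucc 2 1 := ⟨⟨le_rfl, by norm_num⟩, fun h => absurd h hj⟩
  have A1 := Al 1 on1
  have zK : En x * RK 0 2 1 x = (En x + M.v x * Qn x) * (1 / 2) := by
    rw [← pK, ← A1.K]
    exact bK
  have zL : RL 0 2 1 x = 0 := by
    rw [← pL, ← A1.L]
    exact bL
  refine V.steep (s := ((1073741824 + Ws : ℕ) : ℝ) / S) ht (z := true) ?_ (fun _ _ => rfl) hj
    (fun y hy => AtC.zero (Al y hy)) (fun y hy => AtC.zero (Ar y hy)) bX bK bL zK zL hst hx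
    ?_ ?_ ?_
  · show ((2 : ℕ) : ℝ) / ((1 : ℕ) : ℝ) ≤ 2
    norm_num
  · refine OnT.cert (T := ftMono true 2 M) (TC := fun _ _ _ _ => 0) hm hx ?_ hK hL
      (fun _ _ => rfl)
      (fun e he => absurd he List.not_mem_nil)
    intro y hq hu
    have h1 : 1 ≤ y := hq.1
    obtain ⟨g0, g1⟩ := G_half h1
    refine ⟨G y, ⟨G_ge_of ha (by linarith) hu.2.le, ?_⟩, ygF_v hu.1 h1, xsF_v⟩
    have e : (Wa : ℝ) + Wc = 536870912 := by exact_mod_cast hac
    rw [le_div_iff₀ hS, S_val, e]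
    linarith
  · intro y hq hu
    have k := OnT.cert (T := ftWall true 2 M oa ob) (TC := fun _ _ _ _ => 0) (q := 2)
      (D := fun y => 1 - G y)
      (U := fun y => h0 * y ≤ 1 ∧ ((1073741824 + Ws : ℕ) : ℝ) / S ≤ y) hw hx ?_ hK hL
      (fun _ _ => rfl) (fun e he => absurd he List.not_mem_nil) y hq hu
    · have k' : WallP ((oa : ℝ) / ob) x (M.v x) 2 y (1 - G y) (TK 2 (1 - G y) y x)
        (TL 2 (1 - G y) y x) 0 := k
      exact k'.th0
    · intro y hq hu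
      have h1 : 1 ≤ y := hq.1
      obtain ⟨g0, g1⟩ := G_half h1
      refine ⟨G y, ⟨?_, ?_⟩, ygF_v hu.1 h1, xsF_v⟩
      · simpa using g0
      · rw [Nat.cast_zero, zero_add]
        exact G_le_of hb hu.2
  · intro y h1 h2 hT
    refine ⟨⟨?_, ?_⟩, fun e he => absurd he List.not_mem_nil⟩
    · rw [div_le_iff₀ hS, S_val]
      push_cast
      linarith
    · have := h2.le
      push_cast at this
      push_cast
      exact this

/-! ### Tight pairs -/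

theorem On.tgF {D : Fn2} (hq : q < 2) (hl : CertTg W W' P3 W3 (ftTf true D) [⟨6, 0⟩])
    (hh : CertTg W W' P3 W3 (ftTf false D) [⟨5, 0⟩]) (hx : Rng P3 W3 x) (x0 : 0 < x)
    (x1 : x < 1) (hW : 0 < W)
    (hf : ∀ y, InQ q y → Rng W W' y → RK 0 q y x = tq q y * kan y (D.v y x) ∧
      RL 0 q y x = zen y x (D.v y x))
    (hm : On P RK RL Z0 x 0 q (MonoQ x (mZ.v x) q) (Rng W W')) (th : ℝ) :
    On P RK RL Z0 x 0 q (WallP th x (mZ.v x) q) (Rng W W') := by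
  have hS : (0 : ℝ) < S := by rw [S_val]; norm_num
  have hW' : (0 : ℝ) < W := by exact_mod_cast hW
  refine On.tightF hq hl hh hx x0 x1 rfl (fun y _ hu => ⟨?_, hu, hu⟩) ?_ hm ?_ ?_
  · exact (div_pos hW' hS).trans_le hu.1
  · intro y h1 _ h2
    obtain ⟨a, b⟩ := hf y h1 h2
    exact ⟨crv_zero q y, a, b⟩
  · intro e he y _ _ hp
    rw [List.mem_singleton] at he
    subst he
    exact hp
  · intro e he y _ _ hp
    rw [List.mem_singleton] at he
    subst he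
    exact hp

theorem On.tgN {D : Fn2} (hq : q < 2)
    (hl : CertTg W W' P3 W3 (ftTg true M D 1 1) [⟨6, 0⟩])
    (hh : CertTg W W' P3 W3 (ftTg false M D 1 1) [⟨5, 0⟩]) (hx : Rng P3 W3 x) (x0 : 0 < x)
    (x1 : x < 1) (hμ : 0 ≤ M.v x) (hW : 0 < W)
    (hf : ∀ y, InQ q y → Rng W W' y → RK 0 q y x = tq q y * ((1 + M.v x * GUn x) *
      kan y (D.v y x) + M.v x * k3d y (D.v y x)) ∧ RL 0 q y x = zen y x (D.v y x))
    (hm : On P RK RL Z0 x 0 q (MonoQ x (M.v x) q) (Rng W W')) :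
    On P RK RL Z0 x 0 q (WallP 1 x (M.v x) q) (Rng W W') := by
  have hS : (0 : ℝ) < S := by rw [S_val]; norm_num
  have hW' : (0 : ℝ) < W := by exact_mod_cast hW
  have one : (((1 : ℕ) : ℝ)) / ((1 : ℕ) : ℝ) = 1 := by norm_num
  refine On.tight (c := 1) hq hl hh hx x0 x1 one_pos le_rfl hμ (Or.inr ⟨rfl, one, one⟩)
    (fun h => absurd h one_ne_zero) (fun y _ hu => ⟨?_, hu, hu⟩) ?_ hm ?_ ?_
  · exact (div_pos hW' hS).trans_le hu.1
  · intro y h1 _ h2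
    obtain ⟨a, b⟩ := hf y h1 h2
    refine ⟨crv_zero q y, ⟨?_, b, ?_⟩⟩
    · rw [a]
      ring
    · show (0 : ℝ) = _
      ring
  · intro e he y _ _ hp
    rw [List.mem_singleton] at he
    subst he
    exact hp
  · intro e he y _ _ hp
    rw [List.mem_singleton] at he
    subst he
    exact hp

end

/-! ### Closed forms on the unit circle -/

section

variable {y : ℝ}

theorem c1n_G (y : ℝ) : c1n y = G y := rfl

theorem En_pos (h0' : 0 < y) (h1 : y < 1) : 0 < En y := by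
  have h : 1 - y / 2 < G y := by
    unfold Pool.Agent.Strip051.LC.Floor.G
    rw [Real.lt_sqrt (by linarith)]
    nlinarith
  unfold Pool.Agent.Strip051.LC.Floor.En
  linarith

theorem G_sq1 (h0' : 0 < y) (h1 : y < 1) : G y ^ 2 = 1 - 3 / 4 * y ^ 2 := G_sq (by nlinarith)

theorem kan_lo (h0' : 0 < y) (h1 : y < 1) :
    (G y - 3 / 2 * y) * (1 + G y) * (1 + G y - 3 / 2 * y)⁻¹ =
      y * ((G y - 3 / 2 * y) / (2 * En y)) := by
  have e := En_pos h0' h1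
  have g := G_sq1 h0' h1
  have hE : 2 * En y * (1 + G y) = y * (1 + G y - 3 / 2 * y) := by
    unfold Pool.Agent.Strip051.LC.Floor.En
    nlinarith
  have hp : 0 < 1 + G y - 3 / 2 * y := by
    have : 0 < y * (1 + G y - 3 / 2 * y) := by
      rw [← hE]
      have := G_nonneg y
      positivity
    by_contra hn
    have := mul_nonpos_of_nonneg_of_nonpos h0'.le (not_lt.1 hn)
    linarith
  have h2 : 2 * En y ≠ 0 := by linarith
  rw [mul_div_assoc', ← div_eq_mul_inv, div_eq_div_iff hp.ne' h2]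
  linear_combination (G y - 3 / 2 * y) * hE

theorem kan_hi (h0' : 1 / 3 < y) (h1 : y < 1) :
    (1 + 2 * G y) * (3 / 2 * y - G y) * (2 * (1 + 3 / 2 * y - G y))⁻¹ =
      (y - 1) * ((G y - 3 / 2 * y) / (2 * En y)) := by
  have hy : 0 < y := by linarith
  have e := En_pos hy h1
  have g := G_sq1 hy h1
  have hE : 2 * En y * (1 + 2 * G y) = (1 - y) * (2 * (1 + 3 / 2 * y - G y)) := by
    unfold Pool.Agent.Strip051.LC.Floor.En
    nlinarith
  have hp : 0 < 2 * (1 + 3 / 2 * y - G y) := by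
    have : G y ≤ 1 := by
      unfold Pool.Agent.Strip051.LC.Floor.G
      rw [Real.sqrt_le_one]
      nlinarith
    linarith
  have h2 : 2 * En y ≠ 0 := by linarith
  rw [mul_div_assoc', ← div_eq_mul_inv, div_eq_div_iff hp.ne' h2]
  linear_combination (3 / 2 * y - G y) * hE

end

/-! ### Bounds of the closed range, values at the corners -/

section

variable {x y : ℝ}

theorem psi_gt {s w : ℕ} {a : ℝ} (hy : (s : ℝ) / S ≤ y)
    (h : 4 * 1073741824 ^ 2 ≤ 4 * w ^ 2 + 3 * s ^ 2)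
    (ha : a * 1073741824 < 3 / 4 * s - 1 / 2 * w) : a < 3 / 4 * y - G y / 2 := by
  have g := G_le_of h hy
  rw [S_val] at g hy
  rw [div_le_iff₀ (by norm_num)] at hy
  rw [le_div_iff₀ (by norm_num)] at g
  linarith

theorem psi_lt {s w : ℕ} {b : ℝ} (hy0 : 0 ≤ y) (hy : y ≤ (s : ℝ) / S)
    (h : 4 * w ^ 2 + 3 * s ^ 2 ≤ 4 * 1073741824 ^ 2)
    (hb : 3 / 4 * (s : ℝ) - 1 / 2 * w < b * 1073741824) : 3 / 4 * y - G y / 2 < b := by
  have g := G_ge_of h hy0 hy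
  rw [S_val] at g hy
  rw [le_div_iff₀ (by norm_num)] at hy
  rw [div_le_iff₀ (by norm_num)] at g
  linarith

theorem En_GUn' (x0 : 0 < x) (x1 : x < 1) : En x * GUn x = Qn x := by
  have g := G_sq1 x0 x1
  unfold Pool.Agent.Strip051.LC.Floor.En Pool.Agent.Strip051.LC.Floor.GUn
    Pool.Agent.Strip051.LC.Floor.Qn
  linear_combination (1 / 2) * g

theorem bK_far {K B : ℝ} (h : K = 1 * B) : En x * K = (En x + mZ.v x * Qn x) * B := by
  have e : mZ.v x = 0 := rfl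
  rw [h, e]
  ring

theorem bK_near {K B m g : ℝ} (x0 : 0 < x) (x1 : x < 1) (hm : m = mT.v x) (hg : g = GUn x)
    (h : K = (1 + m * g) * B) : En x * K = (En x + mT.v x * Qn x) * B := by
  rw [h, hm, hg, ← En_GUn' x0 x1]
  ring

theorem h0y_lt (h : y < 1) : h0 * y < 1 := by
  have hp := h0_pos
  have := h0_lt_one
  rcases le_total y 0 with g | g
  · nlinarith
  · nlinarith

theorem mT_nn (x : ℝ) : 0 ≤ mT.v x := by
  show (0 : ℝ) ≤ (((3 : ℕ) : ℝ) + ((2 : ℕ) : ℝ) * c1n x)⁻¹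
  have : 0 ≤ c1n x := Real.sqrt_nonneg _
  positivity

theorem rng_pos {P W : ℕ} (h : Rng P W x) (hP : 0 < P) : 0 < x := by
  have hS : (0 : ℝ) < S := by rw [S_val]; norm_num
  have : (0 : ℝ) < P := by exact_mod_cast hP
  exact (div_pos this hS).trans_le h.1

theorem rng_lt {P W : ℕ} (h : Rng P W x) (hP : P + W < 1073741824) : x < 1 := by
  refine h.2.trans_lt ?_
  rw [S_val, div_lt_one (by norm_num)]
  exact_mod_cast hP

end

end Pool.Agent.Strip051.PB
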