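import Pool.Agent.Strip051.PB.FlWinG

/-! # The rows at the floor in the packed arithmetic, window of variable size -/

namespace Pool.Agent.Strip051.PB

open Pool.Agent.StripNear
open Pool.Agent.Strip051.LC.Floor (G En Qn fS)

section

variable (z : Bool) (q : ℕ) (M : Fn1) (oa ob : ℕ)

/-- the test for `FlatG` with `e = ff / 1000` -/
noncomputable def ftFlatG (ff : ℕ) : FTst where
  t x y X A L C := (fun m => (fun g => band (ppos g)
    (ppos (padd (usT z q oa ob m x y X A L C) (pscale ff 1000 g))))
      (grT z q m x y X A L C)) (M.t x)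
  P x y X A L C := FlatG (kc ff) ((oa : ℝ) / ob) x (M.v x) q y X A L (cz z C)
  snd := by
    intro E X Y XX A L C x y X' a l c hx hy hX hA hL hC h
    obtain ⟨h1, h2⟩ := band_true h
    have g := enc_grT (z := z) q (M.enc hx) hx hy hX hA hL hC
    have k := ppos_sound (enc_add (enc_usT q oa ob (M.enc hx) hx hy hX hA hL hC)
      (enc_scale ff 1000 g)) h2
    push_cast at k
    exact ⟨(ppos_sound g h1).le, k.le⟩

/-- the test for `HighG` with `K = kk / 1000`, `a = aa / 1000`, `D = dd / 1000` -/
noncomputable def ftHighG (kk aa dd : ℕ) : FTst where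
  t x y X A L C := (fun m => ppos (psub (padd (usT z q oa ob m x y X A L C)
    (pscale kk 1000 (pmin (grT z q m x y X A L C) (pdc 0 0))))
      (pscale aa 1000 (psub X (prat dd 2000))))) (M.t x)
  P x y X A L C :=
    HighG (kc kk) ((oa : ℝ) / ob) x (M.v x) q y X A L (cz z C) ((aa : ℝ) / 1000) (kc dd)
  snd := by
    intro E X Y XX A L C x y X' a l c hx hy hX hA hL hC h
    have g := enc_grT (z := z) q (M.enc hx) hx hy hX hA hL hC
    have zz := enc_cast (enc_dc E 0 0) (b := 0) (by norm_num)
    have k := ppos_sound (enc_sub (enc_add (enc_usT q oa ob (M.enc hx) hx hy hX hA hL hC)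
      (enc_scale kk 1000 (enc_min g zz))) (enc_scale aa 1000 (enc_sub hX (enc_rat E dd 2000)))) h
    push_cast at k
    unfold HighG kc
    refine k.le.trans (le_of_eq ?_)
    ring

/-- the test for `FarG` with `K = kk / 1000`, `b = bb / 1000`, `D = dd / 1000` -/
noncomputable def ftFarG (kk bb dd : ℕ) : FTst where
  t x y X A L C := (fun m => ppos (psub (psub (padd (usT z q oa ob m x y X A L C)
    (pscale kk 1000 (pmin (grT z q m x y X A L C) (pdc 0 0))))
      (pscale bb 1000 (psub X (prat dd 1000)))) (phn 1))) (M.t x)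
  P x y X A L C :=
    FarG (kc kk) ((oa : ℝ) / ob) x (M.v x) q y X A L (cz z C) ((bb : ℝ) / 1000) (kc dd)
  snd := by
    intro E X Y XX A L C x y X' a l c hx hy hX hA hL hC h
    have g := enc_grT (z := z) q (M.enc hx) hx hy hX hA hL hC
    have zz := enc_cast (enc_dc E 0 0) (b := 0) (by norm_num)
    have k := ppos_sound (enc_sub (enc_sub (enc_add (enc_usT q oa ob (M.enc hx) hx hy hX
      hA hL hC) (enc_scale kk 1000 (enc_min g zz)))
        (enc_scale bb 1000 (enc_sub hX (enc_rat E dd 1000)))) (enc_half1 E)) h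
    push_cast at k
    unfold FarG kc
    linarith

/-- the test for `NearG` with `K = kk / 1000`, `b = bb / 1000` -/
noncomputable def ftNearG (kk bb : ℕ) : FTst where
  t x y X A L C := (fun m => ppos (psub (psub (psub (pscale bb 1000 X)
    (usT z q oa ob m x y X A L C)) (phn 1)) (pscale kk 1000 (pps (guT z q m x y X A L C)))))
      (M.t x)
  P x y X A L C := NearG (kc kk) ((oa : ℝ) / ob) x (M.v x) q y X A L (cz z C) ((bb : ℝ) / 1000)
  snd := by
    intro E X Y XX A L C x y X' a l c hx hy hX hA hL hC h
    have g := enc_guT (z := z) q (M.enc hx) hx hy hX hA hL hC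
    have k := ppos_sound (enc_sub (enc_sub (enc_sub (enc_scale bb 1000 hX)
      (enc_usT q oa ob (M.enc hx) hx hy hX hA hL hC)) (enc_half1 E))
        (enc_scale kk 1000 (enc_pos g))) h
    push_cast at k
    unfold NearG kc
    linarith

end

end Pool.Agent.Strip051.PB
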