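import Pool.Agent.Strip051.PB.FlAsmY
import Pool.Agent.Strip051.PB.FlRowG

/-! # Assembly of the window of variable size

The numbers of the window in thousandths: `d0` its abscissa, `um` the bound of the narrow pairs, `tt`
the height of the flat pairs, `ee` the height above which they are regular, `kk`, `ff` the factors of
the growth, `lo`, `hi` the range of the steps of the wide and narrow pairs. -/

namespace Pool.Agent.Strip051.PB

open Pool.Agent.StripNear Pool.Agent.StripSquare Pool.Agent.Strip051.Sweep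
open Pool.Agent.Strip051.LC Pool.Agent.Strip051.LC.Exact
open Pool.Agent.Strip051.LC.FG (Geo)
open Pool.Agent.Strip051.LC.Floor (G En Qn fS GUn epn ehn kan k3d k3n zen G_nonneg G_sq)

/-! ### The numbers -/

/-- The numbers are admissible. -/
def geoOk (d0 um tt ee kk ff lo hi : ℕ) : Bool :=
  Nat.ble tt 30 && (Nat.ble (ee + tt) 70 && (Nat.ble 1000 d0 && (Nat.ble d0 1700 &&
    (Nat.ble 1 um && (Nat.ble ((800 + tt) * (800 + tt + 2 * (ee + tt))) 788500 &&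
    (Nat.ble (2000000 + 2900 * tt) (d0 ^ 2 + 2 * d0 * um) &&
    (Nat.ble ((lo + tt) ^ 2 + um ^ 2) 1000000 && (Nat.ble 3000000 (d0 ^ 2 + hi ^ 2) &&
    (Nat.ble (4 * (ee + tt) ^ 2) (3 * kk ^ 2) && Nat.ble (3 * ff ^ 2) (4 * ee ^ 2))))))))))

section

variable {d0 um tt ee kk ff lo hi : ℕ}

theorem geo_of (h : geoOk d0 um tt ee kk ff lo hi = true) :
    Geo (kc tt) (kc ee) (kc d0) (kc um) (kc lo) (kc hi) ∧ kc ee + kc tt ≤ kc kk * h0 ∧
      kc ff * h0 ≤ kc ee := by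
  have hp := h0_pos
  have hs := h0_sq
  unfold geoOk at h
  simp only [Bool.and_eq_true, Nat.ble_eq] at h
  obtain ⟨h1, h2, h3, h4, h5, h6, h7, h8, h9, h10, h11⟩ := h
  have r1 : (tt : ℝ) ≤ 30 := by exact_mod_cast h1
  have r2 : (ee : ℝ) + tt ≤ 70 := by exact_mod_cast h2
  have r3 : (1000 : ℝ) ≤ d0 := by exact_mod_cast h3
  have r4 : (d0 : ℝ) ≤ 1700 := by exact_mod_cast h4
  have r5 : (1 : ℝ) ≤ um := by exact_mod_cast h5
  have r6 : (800 + (tt : ℝ)) * (800 + tt + 2 * (ee + tt)) ≤ 788500 := by exact_mod_cast h6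
  have r7 : 2000000 + 2900 * (tt : ℝ) ≤ (d0 : ℝ) ^ 2 + 2 * d0 * um := by exact_mod_cast h7
  have r8 : ((lo : ℝ) + tt) ^ 2 + (um : ℝ) ^ 2 ≤ 1000000 := by exact_mod_cast h8
  have r9 : (3000000 : ℝ) ≤ (d0 : ℝ) ^ 2 + (hi : ℝ) ^ 2 := by exact_mod_cast h9
  have r10 : 4 * ((ee : ℝ) + tt) ^ 2 ≤ 3 * (kk : ℝ) ^ 2 := by exact_mod_cast h10
  have r11 : 3 * (ff : ℝ) ^ 2 ≤ 4 * (ee : ℝ) ^ 2 := by exact_mod_cast h11
  have t0 : (0 : ℝ) ≤ tt := Nat.cast_nonneg _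
  have e0 : (0 : ℝ) ≤ ee := Nat.cast_nonneg _
  have k0 : (0 : ℝ) ≤ kk := Nat.cast_nonneg _
  have f0 : (0 : ℝ) ≤ ff := Nat.cast_nonneg _
  have l0 : (0 : ℝ) ≤ hi := Nat.cast_nonneg _
  unfold kc
  refine ⟨⟨by positivity, ?_, by positivity, ?_, ?_, ?_, by positivity, by positivity, ?_, ?_, ?_,
    ?_⟩, ?_, ?_⟩
  · rw [div_le_iff₀ (by norm_num)]
    linarith
  · rw [← add_div, div_le_iff₀ (by norm_num)]
    linarith
  · rw [le_div_iff₀ (by norm_num)]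
    linarith
  · rw [div_le_iff₀ (by norm_num)]
    linarith
  · have e : (4 / 5 + (tt : ℝ) / 1000) * (4 / 5 + (tt : ℝ) / 1000 +
        2 * ((ee : ℝ) / 1000 + (tt : ℝ) / 1000)) =
        ((800 + (tt : ℝ)) * (800 + tt + 2 * (ee + tt))) / 1000000 := by ring
    rw [e, div_le_iff₀ (by norm_num)]
    linarith
  · have e : ((d0 : ℝ) / 1000) ^ 2 + 2 * ((d0 : ℝ) / 1000) * ((um : ℝ) / 1000) =
        ((d0 : ℝ) ^ 2 + 2 * d0 * um) / 1000000 := by ring
    rw [e, le_div_iff₀ (by norm_num)]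
    linarith
  · have e : ((lo : ℝ) / 1000 + (tt : ℝ) / 1000) ^ 2 + ((um : ℝ) / 1000) ^ 2 =
        (((lo : ℝ) + tt) ^ 2 + (um : ℝ) ^ 2) / 1000000 := by ring
    rw [e, div_le_iff₀ (by norm_num)]
    linarith
  · have e : ((d0 : ℝ) / 1000) ^ 2 + ((hi : ℝ) / 1000) ^ 2 =
        ((d0 : ℝ) ^ 2 + (hi : ℝ) ^ 2) / 1000000 := by ring
    rw [e, le_div_iff₀ (by norm_num)]
    linarith
  · have a : (ee : ℝ) + tt ≤ kk * h0 := by
      refine abs_le_of_sq_le_sq' ?_ (by positivity) |>.2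
      nlinarith
    have e : (kk : ℝ) / 1000 * h0 = (kk * h0) / 1000 := by ring
    rw [e, ← add_div]
    exact div_le_div_of_nonneg_right a (by norm_num)
  · have a : (ff : ℝ) * h0 ≤ ee := by
      refine abs_le_of_sq_le_sq' ?_ e0 |>.2
      nlinarith
    have e : (ff : ℝ) / 1000 * h0 = (ff * h0) / 1000 := by ring
    rw [e]
    exact div_le_div_of_nonneg_right a (by norm_num)

end

/-! ### Heights of a step -/

/-- the interval contains the heights of the step in the quarter -/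
def stOkG (tt q t t' a b : ℕ) : Bool :=
  (Nat.ble a (536870912 * q) || Nat.ble (3000000 * a ^ 2) (4611686018427387904 * t ^ 2)) &&
    (Nat.ble (536870912 * (q + 1)) (a + b) ||
      Nat.ble (4611686018427387904 * (t' + tt) ^ 2) (3000000 * (a + b) ^ 2))

/-- bounds of the heights of a step -/
def stXG (tt t t' s s' : ℕ) : Bool :=
  Nat.ble (3000000 * s ^ 2) (4611686018427387904 * t ^ 2) &&
    Nat.ble (4611686018427387904 * (t' + tt) ^ 2) (3000000 * s' ^ 2)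

section

variable {tt ff d0 um q t t' a b s s' : ℕ} {y : ℝ}

theorem hi_ofG (h : h0 * y ≤ (t' : ℝ) / 1000 + kc tt)
    (hs : 4611686018427387904 * (t' + tt) ^ 2 ≤ 3000000 * s' ^ 2) :
    y ≤ (s' : ℝ) / 1073741824 :=
  y_le_of (t := t' + tt) (h.trans (le_of_eq (by push_cast [kc]; ring))) (by
    have e1 : 3 * 1000 ^ 2 * s' ^ 2 = 3000000 * s' ^ 2 := by ring
    have e2 : 4 * 1073741824 ^ 2 * (t' + tt) ^ 2 = 4611686018427387904 * (t' + tt) ^ 2 := by ring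
    rw [e1, e2]
    exact hs)

theorem stOkG_rng (hq : InQ q y) (hu : (t : ℝ) / 1000 ≤ h0 * y ∧ h0 * y ≤ (t' : ℝ) / 1000 + kc tt)
    (h : stOkG tt q t t' a b = true) : Rng a b y := by
  unfold stOkG at h
  rw [Bool.and_eq_true, Bool.or_eq_true, Bool.or_eq_true] at h
  obtain ⟨h1, h2⟩ := h
  refine rng_of ?_ ?_
  · rcases h1 with h1 | h1
    · exact le_c (Nat.le_of_ble_eq_true h1) (q_lo hq)
    · exact lo_of hq.nonneg hu.1 (Nat.le_of_ble_eq_true h1)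
  · rcases h2 with h2 | h2
    · exact c_le (Nat.le_of_ble_eq_true h2) (q_hi hq)
    · exact hi_ofG hu.2 (Nat.le_of_ble_eq_true h2)

theorem stXG_bd (hq : InQ q y) (hu : (t : ℝ) / 1000 ≤ h0 * y ∧ h0 * y ≤ (t' : ℝ) / 1000 + kc tt)
    (h : stXG tt t t' s s' = true) : (s : ℝ) / 1073741824 ≤ y ∧ y ≤ (s' : ℝ) / 1073741824 := by
  unfold stXG at h
  rw [Bool.and_eq_true] at h
  obtain ⟨h1, h2⟩ := h
  exact ⟨lo_of hq.nonneg hu.1 (Nat.le_of_ble_eq_true h1),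
    hi_ofG hu.2 (Nat.le_of_ble_eq_true h2)⟩

/-- The quarter is above the step. -/
theorem no_hiG (hq : InQ q y) (hu : h0 * y ≤ (t' : ℝ) / 1000 + kc tt)
    (h : Nat.blt (16 * (t' + tt) ^ 2) (3000000 * q ^ 2) = true) : False := by
  have h' : 16 * (t' + tt) ^ 2 < 3000000 * q ^ 2 := Nat.le_of_ble_eq_true h
  have h2 : 16 * ((t' : ℝ) + tt) ^ 2 < 3000000 * (q : ℝ) ^ 2 := by exact_mod_cast h'
  have hs := h0_sq
  have hp := h0_pos
  have hy := hq.lo
  have hn := hq.nonneg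
  unfold kc at hu
  have h3 : (h0 * y) ^ 2 ≤ ((t' : ℝ) / 1000 + (tt : ℝ) / 1000) ^ 2 :=
    pow_le_pow_left₀ (by positivity) hu 2
  rw [mul_pow, hs] at h3
  have h4 : ((q : ℝ) / 2) ^ 2 ≤ y ^ 2 := pow_le_pow_left₀ (by positivity) hy 2
  nlinarith

/-- the end of the heights of the flat pairs -/
theorem yh_le (h : h0 * y ≤ kc tt) (hs : Nat.ble (4611686018427387904 * tt ^ 2) (3000000 * s ^ 2) =
    true) : y ≤ (s : ℝ) / 1073741824 := by
  refine y_le_of (t := tt) h ?_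
  have e1 : 3 * 1000 ^ 2 * s ^ 2 = 3000000 * s ^ 2 := by ring
  have e2 : 4 * 1073741824 ^ 2 * tt ^ 2 = 4611686018427387904 * tt ^ 2 := by ring
  rw [e1, e2]
  exact Nat.le_of_ble_eq_true hs

theorem yl_ge (hy0 : 0 ≤ y) (h : kc tt ≤ h0 * y)
    (hs : Nat.ble (3000000 * s ^ 2) (4611686018427387904 * tt ^ 2) = true) :
    (s : ℝ) / 1073741824 ≤ y :=
  lo_of hy0 h (Nat.le_of_ble_eq_true hs)

theorem kc_ge (h : Nat.ble (1000 * s) (1073741824 * d0) = true) :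
    (s : ℝ) / 1073741824 ≤ kc d0 := by
  have h' : 1000 * (s : ℝ) ≤ 1073741824 * d0 := by exact_mod_cast Nat.le_of_ble_eq_true h
  unfold kc
  rw [div_le_div_iff₀ (by norm_num) (by norm_num)]
  linarith

theorem kc_le (h : Nat.ble (1073741824 * d0) (1000 * s) = true) :
    kc d0 ≤ (s : ℝ) / 1073741824 := by
  have h' : 1073741824 * (d0 : ℝ) ≤ 1000 * s := by exact_mod_cast Nat.le_of_ble_eq_true h
  unfold kc
  rw [div_le_div_iff₀ (by norm_num) (by norm_num)]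
  linarith

/-- the heights of the pairs with the abscissa `d0 / 1000` -/
theorem yD_le (h2 : qqn (kc d0) y ≤ 3)
    (h : Nat.ble (4611686018427387904 * 3000000) (3000000 * s ^ 2 + 4611686018427387904 * d0 ^ 2) =
      true) : y ≤ (s : ℝ) / 1073741824 := by
  have h' : (4611686018427387904 : ℝ) * 3000000 ≤ 3000000 * (s : ℝ) ^ 2 +
    4611686018427387904 * (d0 : ℝ) ^ 2 := by exact_mod_cast Nat.le_of_ble_eq_true h
  unfold qqn kc at h2
  rw [div_pow] at h2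
  have s0 : 0 ≤ (s : ℝ) / 1073741824 := by positivity
  have k : y ^ 2 ≤ ((s : ℝ) / 1073741824) ^ 2 := by
    rw [div_pow, le_div_iff₀ (by norm_num)]
    have e : (d0 : ℝ) ^ 2 = 1000 ^ 2 * ((d0 : ℝ) ^ 2 / 1000 ^ 2) := by field_simp
    rw [e] at h'
    nlinarith
  exact (abs_le_of_sq_le_sq' k s0).2

/-- the heights of the pairs with the abscissa `um / 1000` -/
theorem yU_ge (hy : 0 ≤ y) (h2 : 1 ≤ qqn (kc um) y)
    (h : Nat.ble (3000000 * s ^ 2 + 4611686018427387904 * um ^ 2) (4611686018427387904 * 1000000) =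
      true) : (s : ℝ) / 1073741824 ≤ y := by
  have h' : 3000000 * (s : ℝ) ^ 2 + 4611686018427387904 * (um : ℝ) ^ 2 ≤
    (4611686018427387904 : ℝ) * 1000000 := by exact_mod_cast Nat.le_of_ble_eq_true h
  unfold qqn kc at h2
  rw [div_pow] at h2
  have k : ((s : ℝ) / 1073741824) ^ 2 ≤ y ^ 2 := by
    rw [div_pow, div_le_iff₀ (by norm_num)]
    have e : (um : ℝ) ^ 2 = 1000 ^ 2 * ((um : ℝ) ^ 2 / 1000 ^ 2) := by field_simp
    rw [e] at h'
    nlinarith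
  exact (abs_le_of_sq_le_sq' k hy).2

end

/-- the values of the step function suffice above `97 / 100` -/
theorem high0_ofG {L : List (ℕ × ℕ)} {d : ℕ} {D : ℝ}
    (h : StpAll (fun _ t' a => t' < 97 / 100 ∨ 1 ≤ (a : ℝ) / 1000 * D) 1700 800 L d) :
    ∀ T : ℝ, 97 / 100 ≤ T → T ≤ 17 / 10 → 1 ≤ stp L d T * D := by
  intro T h1 h2
  refine StpAll.use (Q := fun T v => 97 / 100 ≤ T → 1 ≤ v * D) (h.mono ?_) T ?_ ?_ h1
  · intro t t' a g T _ g2 g3
    rcases g with g | g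
    · linarith
    · exact g
  · push_cast
    linarith
  · push_cast
    linarith

section

variable {n : ℕ} {P : Pos n} {RK RL RC : Fin (n + 1) → ℕ → ℝ → ℝ → ℝ} {x : ℝ}
  {TK TL TC : ℕ → ℝ → ℝ → ℝ → ℝ} {q : ℕ} {j : Fin (n + 1)} {Q : ℝ → ℝ → ℝ → ℝ → ℝ → Prop}
  {U V : ℝ → Prop} {nd nd' : Node} {nc nc' : Fn2} {W W' Z Z' P3 W3 : ℕ} {M : Fn1} {z : Bool}
  {oa ob aa t t' s s' a b dl : ℕ} {tt ee kk ff d0 um : ℕ}

/-! ### No points -/

theorem On.noHiG (h : Nat.blt (16 * (t' + tt) ^ 2) (3000000 * q ^ 2) = true) :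
    On P RK RL RC x j q Q fun y => (t : ℝ) / 1000 ≤ h0 * y ∧ h0 * y ≤ (t' : ℝ) / 1000 + kc tt :=
  On.noneQ fun _ hq hu => no_hiG hq hu.2 h

theorem On.noHiG' (h : Nat.blt (16 * (t' + tt) ^ 2) (3000000 * q ^ 2) = true) :
    On P RK RL RC x j q Q fun y => (t : ℝ) / 1000 ≤ h0 * y ∧
      h0 * y ≤ (t' : ℝ) / 1000 + kc tt ∧ V y :=
  On.noneQ fun _ hq hu => no_hiG hq hu.2.1 h

theorem OnT.noHiG {D : ℝ → ℝ} (h : Nat.blt (16 * (t' + tt) ^ 2) (3000000 * q ^ 2) = true) :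
    OnT TK TL TC x q D Q fun y => (t : ℝ) / 1000 ≤ h0 * y ∧
      h0 * y ≤ (t' : ℝ) / 1000 + kc tt ∧ V y :=
  OnT.noneQ fun _ hq hu => no_hiG hq hu.2.1 h

/-! ### High pairs -/

/-- Level zero: from the inequalities at the wall. -/
theorem On.high0G {K th μ D : ℝ} (hm : On P RK RL RC x j q (MonoQ x μ q) fun _ => True)
    (hw : On P RK RL RC x j q (WallP th x μ q) fun _ => True) :
    On P RK RL RC x j q (fun y X A L C => HighG K th x μ q y X A L C (((0 : ℕ) : ℝ) / 1000) D)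
      V := by
  intro y h1 h2 _
  have a : 0 ≤ grL x μ q y _ _ _ _ := hm y h1 h2 trivial
  obtain ⟨-, b, -⟩ := hw y h1 h2 trivial
  unfold HighG
  rw [min_eq_right a, Nat.cast_zero]
  linarith

theorem On.stHG (hA : ∀ y, OnC j q y → AtC P RK RL RC nd nc j q y y x)
    (h : CertNd a b P3 W3 (ftHighG z q M oa ob kk aa d0) [] nd nc) (hx : Rng P3 W3 x)
    (hz : ∀ y, cz z (RC j q y x) = RC j q y x) (hs : stOkG tt q t t' a b = true) :
    On P RK RL RC x j q (fun y X A L C => HighG (kc kk) ((oa : ℝ) / ob) x (M.v x) q y X A L C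
      ((aa : ℝ) / 1000) (kc d0)) fun y => (t : ℝ) / 1000 ≤ h0 * y ∧
        h0 * y ≤ (t' : ℝ) / 1000 + kc tt := by
  intro y hq hd hu
  have k := On.certX (U := fun y => (t : ℝ) / 1000 ≤ h0 * y ∧ h0 * y ≤ (t' : ℝ) / 1000 + kc tt)
    hA h hx (fun y hq hu => ⟨stOkG_rng hq hu hs, fun e he => absurd he List.not_mem_nil⟩) y hq hd hu
  have k' : HighG (kc kk) ((oa : ℝ) / ob) x (M.v x) q y (crv P j q y) (RK j q y x) (RL j q y x)
    (cz z (RC j q y x)) ((aa : ℝ) / 1000) (kc d0) := k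
  rw [hz] at k'
  exact k'

theorem On.stHcG (hc : CovC P RK RL RC nd nc j q W W' (fun _ => True) x)
    (h : CertNd W W' P3 W3 (ftHighG z q M oa ob kk aa d0) [⟨0, s⟩, ⟨1, s'⟩] nd nc)
    (hx : Rng P3 W3 x) (hz : ∀ y, cz z (RC j q y x) = RC j q y x)
    (hs : stXG tt t t' s s' = true) :
    On P RK RL RC x j q (fun y X A L C => HighG (kc kk) ((oa : ℝ) / ob) x (M.v x) q y X A L C
      ((aa : ℝ) / 1000) (kc d0)) fun y => (t : ℝ) / 1000 ≤ h0 * y ∧
        h0 * y ≤ (t' : ℝ) / 1000 + kc tt := by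
  intro y hq hd hu
  have k := On.certP (U := fun y => (t : ℝ) / 1000 ≤ h0 * y ∧ h0 * y ≤ (t' : ℝ) / 1000 + kc tt)
    hc h hx (fun y hq hu => no_ex2 (stXG_bd hq hu hs)) y hq hd hu
  have k' : HighG (kc kk) ((oa : ℝ) / ob) x (M.v x) q y (crv P j q y) (RK j q y x) (RL j q y x)
    (cz z (RC j q y x)) ((aa : ℝ) / 1000) (kc d0) := k
  rw [hz] at k'
  exact k'

/-! ### Wide pairs -/

theorem On.stRG (hA : ∀ y, OnC j q y → AtC P RK RL RC nd nc j q y y x)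
    (h : CertNd a b P3 W3 (ftFarG z q M oa ob kk aa d0) [⟨2, dl⟩] nd nc) (hx : Rng P3 W3 x)
    (hz : ∀ y, cz z (RC j q y x) = RC j q y x) (hs : stOkG tt q t t' a b = true)
    (hl : Nat.ble (1000 * dl) (1073741824 * d0) = true) :
    On P RK RL RC x j q (fun y X A L C => FarG (kc kk) ((oa : ℝ) / ob) x (M.v x) q y X A L C
      ((aa : ℝ) / 1000) (kc d0)) fun y => (t : ℝ) / 1000 ≤ h0 * y ∧
        h0 * y ≤ (t' : ℝ) / 1000 + kc tt ∧ kc d0 ≤ crv P j q y := by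
  intro y hq hd hu
  have k := On.certX (U := fun y => (t : ℝ) / 1000 ≤ h0 * y ∧
    h0 * y ≤ (t' : ℝ) / 1000 + kc tt ∧ kc d0 ≤ crv P j q y)
    hA h hx (fun y hq hu => ⟨stOkG_rng hq ⟨hu.1, hu.2.1⟩ hs,
      no_ex1 (not_lt.2 ((kc_ge hl).trans hu.2.2))⟩) y hq hd hu
  have k' : FarG (kc kk) ((oa : ℝ) / ob) x (M.v x) q y (crv P j q y) (RK j q y x) (RL j q y x)
    (cz z (RC j q y x)) ((aa : ℝ) / 1000) (kc d0) := k
  rw [hz] at k'
  exact k'

theorem On.stRcG (hc : CovC P RK RL RC nd nc j q W W' (fun _ => True) x)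
    (h : CertNd W W' P3 W3 (ftFarG z q M oa ob kk aa d0) [⟨0, s⟩, ⟨1, s'⟩, ⟨2, dl⟩] nd nc)
    (hx : Rng P3 W3 x) (hz : ∀ y, cz z (RC j q y x) = RC j q y x)
    (hs : stXG tt t t' s s' = true) (hl : Nat.ble (1000 * dl) (1073741824 * d0) = true) :
    On P RK RL RC x j q (fun y X A L C => FarG (kc kk) ((oa : ℝ) / ob) x (M.v x) q y X A L C
      ((aa : ℝ) / 1000) (kc d0)) fun y => (t : ℝ) / 1000 ≤ h0 * y ∧
        h0 * y ≤ (t' : ℝ) / 1000 + kc tt ∧ kc d0 ≤ crv P j q y := by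
  intro y hq hd hu
  have k := On.certP (U := fun y => (t : ℝ) / 1000 ≤ h0 * y ∧
    h0 * y ≤ (t' : ℝ) / 1000 + kc tt ∧ kc d0 ≤ crv P j q y)
    hc h hx (fun y hq hu => no_ex3 (stXG_bd hq ⟨hu.1, hu.2.1⟩ hs)
      (not_lt.2 ((kc_ge hl).trans hu.2.2))) y hq hd hu
  have k' : FarG (kc kk) ((oa : ℝ) / ob) x (M.v x) q y (crv P j q y) (RK j q y x) (RL j q y x)
    (cz z (RC j q y x)) ((aa : ℝ) / 1000) (kc d0) := k
  rw [hz] at k'
  exact k'

/-- The pairs with the abscissa of the window. -/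
theorem OnT.stRG {pc : Piece} {c : Fn3}
    (h : CertSd a b P3 W3 (ftFarG z q M oa ob kk aa d0) [] idF (cnF d0 1000) pc c)
    (hx : Rng P3 W3 x) (hK : ∀ X y, pc.K.v X y x = TK q X y x)
    (hL : ∀ X y, pc.L.v X y x = TL q X y x) (hC : ∀ X y, c.v X y x = TC q X y x)
    (hz : ∀ X y, cz z (TC q X y x) = TC q X y x)
    (hs : (Nat.ble a (536870912 * q) || Nat.ble (3000000 * a ^ 2) (4611686018427387904 * t ^ 2)) =
      true)
    (hs' : (Nat.ble (4611686018427387904 * 3000000)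
        (3000000 * (a + b) ^ 2 + 4611686018427387904 * d0 ^ 2) ||
      Nat.ble (536870912 * (q + 1)) (a + b) ||
      Nat.ble (4611686018427387904 * (t' + tt) ^ 2) (3000000 * (a + b) ^ 2)) = true) :
    OnT TK TL TC x q (fun _ => kc d0) (fun y X A L C => FarG (kc kk) ((oa : ℝ) / ob) x (M.v x) q y
      X A L C ((aa : ℝ) / 1000) (kc d0)) fun y => (t : ℝ) / 1000 ≤ h0 * y ∧
        h0 * y ≤ (t' : ℝ) / 1000 + kc tt ∧ qqn (kc d0) y ≤ 3 := by
  intro y hq hu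
  have k := OnT.certX (U := fun y => (t : ℝ) / 1000 ≤ h0 * y ∧
    h0 * y ≤ (t' : ℝ) / 1000 + kc tt ∧ qqn (kc d0) y ≤ 3) (D := kc d0)
    (by rw [kc, Nat.cast_ofNat]) h hx hK hL hC
    (fun y hq hu => ⟨?_, fun e he => absurd he List.not_mem_nil⟩) y hq hu
  · have k' : FarG (kc kk) ((oa : ℝ) / ob) x (M.v x) q y (kc d0) (TK q (kc d0) y x)
      (TL q (kc d0) y x) (cz z (TC q (kc d0) y x)) ((aa : ℝ) / 1000) (kc d0) := k
    rw [hz] at k'
    exact k'
  · refine rng_of ?_ ?_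
    · rw [Bool.or_eq_true] at hs
      rcases hs with h1 | h1
      · exact le_c (Nat.le_of_ble_eq_true h1) (q_lo hq)
      · exact lo_of hq.nonneg hu.1 (Nat.le_of_ble_eq_true h1)
    · rw [Bool.or_eq_true, Bool.or_eq_true] at hs'
      rcases hs' with (h1 | h1) | h1
      · exact yD_le hu.2.2 h1
      · exact c_le (Nat.le_of_ble_eq_true h1) (q_hi hq)
      · exact hi_ofG hu.2.1 (Nat.le_of_ble_eq_true h1)

/-- The pairs with the abscissa of the window above the step are too long. -/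
theorem OnT.noRG (h : Nat.blt 3000000 (d0 ^ 2 + t ^ 2) = true) :
    OnT TK TL TC x q (fun _ => kc d0) Q fun y => (t : ℝ) / 1000 ≤ h0 * y ∧
        h0 * y ≤ (t' : ℝ) / 1000 + kc tt ∧ qqn (kc d0) y ≤ 3 := by
  refine OnT.noneQ fun y hq hu => ?_
  have h1 : 3000000 < d0 ^ 2 + t ^ 2 := Nat.le_of_ble_eq_true h
  have h3 : (3000000 : ℝ) < (d0 : ℝ) ^ 2 + (t : ℝ) ^ 2 := by exact_mod_cast h1
  have hs := h0_sq
  have k := pow_le_pow_left₀ (by positivity) hu.1 2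
  rw [mul_pow, hs, div_pow] at k
  have h2 := hu.2.2
  unfold qqn kc at h2
  rw [div_pow] at h2
  have e : ((d0 : ℝ) ^ 2 + (t : ℝ) ^ 2) / 1000 ^ 2 ≤ 3 := by
    rw [add_div]
    linarith
  rw [div_le_iff₀ (by norm_num)] at e
  linarith

/-! ### Narrow pairs -/

theorem On.stNG (hA : ∀ y, OnC j q y → AtC P RK RL RC nd nc j q y y x)
    (h : CertNd a b P3 W3 (ftNearG z q M oa ob kk aa) [⟨3, dl⟩] nd nc) (hx : Rng P3 W3 x)
    (hz : ∀ y, cz z (RC j q y x) = RC j q y x) (hs : stOkG tt q t t' a b = true)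
    (hl : Nat.ble (1073741824 * um) (1000 * dl) = true) :
    On P RK RL RC x j q (fun y X A L C => NearG (kc kk) ((oa : ℝ) / ob) x (M.v x) q y X A L C
      ((aa : ℝ) / 1000)) fun y => (t : ℝ) / 1000 ≤ h0 * y ∧
        h0 * y ≤ (t' : ℝ) / 1000 + kc tt ∧ 0 < crv P j q y ∧ crv P j q y ≤ kc um := by
  intro y hq hd hu
  have k := On.certX (U := fun y => (t : ℝ) / 1000 ≤ h0 * y ∧
    h0 * y ≤ (t' : ℝ) / 1000 + kc tt ∧ 0 < crv P j q y ∧ crv P j q y ≤ kc um)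
    hA h hx (fun y hq hu => ⟨stOkG_rng hq ⟨hu.1, hu.2.1⟩ hs,
      no_ex1 (not_lt.2 (hu.2.2.2.trans (kc_le hl)))⟩) y hq hd hu
  have k' : NearG (kc kk) ((oa : ℝ) / ob) x (M.v x) q y (crv P j q y) (RK j q y x) (RL j q y x)
    (cz z (RC j q y x)) ((aa : ℝ) / 1000) := k
  rw [hz] at k'
  exact k'

theorem On.stNcG (hc : CovC P RK RL RC nd nc j q W W' (fun _ => True) x)
    (h : CertNd W W' P3 W3 (ftNearG z q M oa ob kk aa) [⟨0, s⟩, ⟨1, s'⟩, ⟨3, dl⟩] nd nc)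
    (hx : Rng P3 W3 x) (hz : ∀ y, cz z (RC j q y x) = RC j q y x)
    (hs : stXG tt t t' s s' = true) (hl : Nat.ble (1073741824 * um) (1000 * dl) = true) :
    On P RK RL RC x j q (fun y X A L C => NearG (kc kk) ((oa : ℝ) / ob) x (M.v x) q y X A L C
      ((aa : ℝ) / 1000)) fun y => (t : ℝ) / 1000 ≤ h0 * y ∧
        h0 * y ≤ (t' : ℝ) / 1000 + kc tt ∧ 0 < crv P j q y ∧ crv P j q y ≤ kc um := by
  intro y hq hd hu
  have k := On.certP (U := fun y => (t : ℝ) / 1000 ≤ h0 * y ∧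
    h0 * y ≤ (t' : ℝ) / 1000 + kc tt ∧ 0 < crv P j q y ∧ crv P j q y ≤ kc um)
    hc h hx (fun y hq hu => no_ex3 (stXG_bd hq ⟨hu.1, hu.2.1⟩ hs)
      (not_lt.2 (hu.2.2.2.trans (kc_le hl)))) y hq hd hu
  have k' : NearG (kc kk) ((oa : ℝ) / ob) x (M.v x) q y (crv P j q y) (RK j q y x) (RL j q y x)
    (cz z (RC j q y x)) ((aa : ℝ) / 1000) := k
  rw [hz] at k'
  exact k'

/-- The narrow pairs on the unit circle; near the abscissa `0` the functions divided by the abscissa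
are used. -/
theorem On.stN0G {pz : ℕ} {K L : Fn2} {C : Fn2}
    (hc : CovC P RK RL RC nd nc 0 2 W W' (fun _ => True) x) (hX : ∀ p, nd.X.v p = p)
    (h : CertNd W W' P3 W3 (ftNearG z 2 M oa ob kk aa)
      [⟨0, s⟩, ⟨1, s'⟩, ⟨2, pz⟩, ⟨3, dl⟩] nd nc)
    (h' : CertNd 0 pz P3 W3 (ftNearG z 2 M oa ob kk aa) [⟨0, s⟩, ⟨1, s'⟩] ⟨nd.Y, onF, K, L⟩ C)
    (hx : Rng P3 W3 x) (hz : ∀ y, cz z (RC 0 2 y x) = RC 0 2 y x)
    (hq : ∀ p, 0 < p → p ≤ (pz : ℝ) / 1073741824 → nd.K.v p x = p * K.v p x ∧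
      nd.L.v p x = p * L.v p x ∧ nc.v p x = p * C.v p x)
    (hs : stXG tt t t' s s' = true) (hl : Nat.ble (1073741824 * um) (1000 * dl) = true) :
    On P RK RL RC x 0 2 (fun y X A L C => NearG (kc kk) ((oa : ℝ) / ob) x (M.v x) 2 y X A L C
      ((aa : ℝ) / 1000)) fun y => (t : ℝ) / 1000 ≤ h0 * y ∧
        h0 * y ≤ (t' : ℝ) / 1000 + kc tt ∧ 0 < crv P 0 2 y ∧ crv P 0 2 y ≤ kc um := by
  intro y hy hd hu
  have hb := stXG_bd hy ⟨hu.1, hu.2.1⟩ hs
  obtain ⟨p, A, g⟩ := hc y (dm_onC hy hd) trivial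
  have eX : crv P 0 2 y = p := by rw [← A.X, hX]
  rcases le_total ((pz : ℝ) / 1073741824) p with hp | hp
  · have k := h p x g hx
    beta_reduce at k
    rw [A.Y, A.X, A.K, A.L, A.C] at k
    rcases k with ⟨e, he, h1⟩ | k
    · exfalso
      simp only [List.mem_cons, List.not_mem_nil, or_false] at he
      rcases he with rfl | rfl | rfl | rfl
      · exact absurd h1 (not_lt.2 hb.1)
      · exact absurd h1 (not_lt.2 hb.2)
      · have h2 : crv P 0 2 y < (pz : ℝ) / 1073741824 := h1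
        linarith
      · exact absurd h1 (not_lt.2 (hu.2.2.2.trans (kc_le hl)))
    · have k' : NearG (kc kk) ((oa : ℝ) / ob) x (M.v x) 2 y (crv P 0 2 y) (RK 0 2 y x)
        (RL 0 2 y x) (cz z (RC 0 2 y x)) ((aa : ℝ) / 1000) := k
      rw [hz] at k'
      exact k'
  · have p0 : 0 < p := by
      rw [← eX]
      exact hu.2.2.1
    have r : Rng 0 pz p := by
      refine rng_of ?_ ?_
      · rw [Nat.cast_zero, zero_div]
        exact p0.le
      · rw [zero_add]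
        exact hp
    have k := h' p x r hx
    beta_reduce at k
    rcases k with ⟨e, he, h1⟩ | k
    · exfalso
      refine no_ex2 (x := x) (X := onF.v p) hb e he ?_
      rw [← A.Y]
      exact h1
    · obtain ⟨eK, eL, eC⟩ := hq p p0 hp
      have k' : NearG (kc kk) ((oa : ℝ) / ob) x (M.v x) 2 (nd.Y.v p) 1 (K.v p x) (L.v p x)
        (cz z (C.v p x)) ((aa : ℝ) / 1000) := k
      have k2 := k'.smul p0.le
      rw [mul_one, ← eK, ← eL, A.Y, A.K, A.L] at k2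
      have eZ : p * cz z (C.v p x) = cz z (RC 0 2 y x) := by
        rw [← A.C, eC]
        cases z
        · rfl
        · exact mul_zero p
      rw [eZ, hz, ← eX] at k2
      exact k2

/-- The pairs with the abscissa `um / 1000`. -/
theorem OnT.stNG {pc : Piece} {c : Fn3}
    (h : CertSd a b P3 W3 (ftNearG z q M oa ob kk aa) [] idF (cnF um 1000) pc c)
    (hx : Rng P3 W3 x) (hK : ∀ X y, pc.K.v X y x = TK q X y x)
    (hL : ∀ X y, pc.L.v X y x = TL q X y x) (hC : ∀ X y, c.v X y x = TC q X y x)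
    (hz : ∀ X y, cz z (TC q X y x) = TC q X y x)
    (hs : (Nat.ble (3000000 * a ^ 2 + 4611686018427387904 * um ^ 2)
        (4611686018427387904 * 1000000) || Nat.ble a (536870912 * q) ||
      Nat.ble (3000000 * a ^ 2) (4611686018427387904 * t ^ 2)) = true)
    (hs' : (Nat.ble (536870912 * (q + 1)) (a + b) ||
      Nat.ble (4611686018427387904 * (t' + tt) ^ 2) (3000000 * (a + b) ^ 2)) = true) :
    OnT TK TL TC x q (fun _ => kc um) (fun y X A L C => NearG (kc kk) ((oa : ℝ) / ob) x (M.v x) q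
      y X A L C ((aa : ℝ) / 1000)) fun y => (t : ℝ) / 1000 ≤ h0 * y ∧
        h0 * y ≤ (t' : ℝ) / 1000 + kc tt ∧ 1 ≤ qqn (kc um) y := by
  intro y hq hu
  have k := OnT.certX (U := fun y => (t : ℝ) / 1000 ≤ h0 * y ∧
    h0 * y ≤ (t' : ℝ) / 1000 + kc tt ∧ 1 ≤ qqn (kc um) y) (D := kc um)
    (by rw [kc, Nat.cast_ofNat]) h hx hK hL
    hC (fun y hq hu => ⟨?_, fun e he => absurd he List.not_mem_nil⟩) y hq hu
  · have k' : NearG (kc kk) ((oa : ℝ) / ob) x (M.v x) q y (kc um) (TK q (kc um) y x)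
      (TL q (kc um) y x) (cz z (TC q (kc um) y x)) ((aa : ℝ) / 1000) := k
    rw [hz] at k'
    exact k'
  · refine rng_of ?_ ?_
    · rw [Bool.or_eq_true, Bool.or_eq_true] at hs
      rcases hs with (h1 | h1) | h1
      · exact yU_ge hq.nonneg hu.2.2 h1
      · exact le_c (Nat.le_of_ble_eq_true h1) (q_lo hq)
      · exact lo_of hq.nonneg hu.1 (Nat.le_of_ble_eq_true h1)
    · rw [Bool.or_eq_true] at hs'
      rcases hs' with h1 | h1
      · exact c_le (Nat.le_of_ble_eq_true h1) (q_hi hq)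
      · exact hi_ofG hu.2.1 (Nat.le_of_ble_eq_true h1)

/-- The pairs with the abscissa `um / 1000` below the step are too short. -/
theorem OnT.noNG (h : Nat.blt ((t' + tt) ^ 2 + um ^ 2) 1000000 = true) :
    OnT TK TL TC x q (fun _ => kc um) Q fun y => (t : ℝ) / 1000 ≤ h0 * y ∧
        h0 * y ≤ (t' : ℝ) / 1000 + kc tt ∧ 1 ≤ qqn (kc um) y := by
  refine OnT.noneQ fun y hq hu => ?_
  have h1 : (t' + tt) ^ 2 + um ^ 2 < 1000000 := Nat.le_of_ble_eq_true h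
  have h3 : ((t' : ℝ) + tt) ^ 2 + (um : ℝ) ^ 2 < 1000000 := by exact_mod_cast h1
  have hs := h0_sq
  have hp := h0_pos
  have hn := hq.nonneg
  have k := pow_le_pow_left₀ (by positivity) hu.2.1 2
  have h2 := hu.2.2
  unfold qqn kc at h2
  unfold kc at k
  rw [mul_pow, hs, ← add_div, div_pow] at k
  rw [div_pow] at h2
  have e : 1 ≤ (((t' : ℝ) + tt) ^ 2 + (um : ℝ) ^ 2) / 1000 ^ 2 := by
    rw [add_div]
    linarith
  rw [le_div_iff₀ (by norm_num)] at e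
  linarith

/-- **Narrow pairs of a curve which is described in two coordinates**, on both sides of the height
`1`. -/
theorem On.stN2G (hc : CovC P RK RL RC nd nc j q W W' (fun y => h0 * y < 1) x)
    (hc' : CovC P RK RL RC nd' nc' j q Z Z' (fun y => 1 ≤ h0 * y) x)
    (h : CertNd W W' P3 W3 (ftNearG z q M oa ob kk aa) [⟨0, s⟩, ⟨1, s'⟩, ⟨3, dl⟩] nd nc)
    (h' : CertNd Z Z' P3 W3 (ftNearG z q M oa ob kk aa) [⟨0, s⟩, ⟨1, s'⟩, ⟨3, dl⟩] nd' nc')
    (hx : Rng P3 W3 x) (hz : ∀ y, cz z (RC j q y x) = RC j q y x)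
    (hs : stXG tt t t' s s' = true) (hl : Nat.ble (1073741824 * um) (1000 * dl) = true) :
    On P RK RL RC x j q (fun y X A L C => NearG (kc kk) ((oa : ℝ) / ob) x (M.v x) q y X A L C
      ((aa : ℝ) / 1000)) fun y => (t : ℝ) / 1000 ≤ h0 * y ∧
        h0 * y ≤ (t' : ℝ) / 1000 + kc tt ∧ 0 < crv P j q y ∧ crv P j q y ≤ kc um := by
  intro y hq hd hu
  have k' : NearG (kc kk) ((oa : ℝ) / ob) x (M.v x) q y (crv P j q y) (RK j q y x) (RL j q y x)
      (cz z (RC j q y x)) ((aa : ℝ) / 1000) := by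
    rcases lt_or_ge (h0 * y) 1 with hv | hv
    · exact On.certV (U := fun y => ((t : ℝ) / 1000 ≤ h0 * y ∧
        h0 * y ≤ (t' : ℝ) / 1000 + kc tt ∧ 0 < crv P j q y ∧ crv P j q y ≤ kc um) ∧ h0 * y < 1)
        hc h hx (fun y hu => hu.2) (fun y hq hu => no_ex3 (stXG_bd hq ⟨hu.1.1, hu.1.2.1⟩ hs)
          (not_lt.2 (hu.1.2.2.2.trans (kc_le hl)))) y hq hd ⟨hu, hv⟩
    · exact On.certV (U := fun y => ((t : ℝ) / 1000 ≤ h0 * y ∧
        h0 * y ≤ (t' : ℝ) / 1000 + kc tt ∧ 0 < crv P j q y ∧ crv P j q y ≤ kc um) ∧ 1 ≤ h0 * y)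
        hc' h' hx (fun y hu => hu.2) (fun y hq hu => no_ex3 (stXG_bd hq ⟨hu.1.1, hu.1.2.1⟩ hs)
          (not_lt.2 (hu.1.2.2.2.trans (kc_le hl)))) y hq hd ⟨hu, hv⟩
  rw [hz] at k'
  exact k'

/-! ### Low pairs -/

/-- Flat pairs on a curve right of the window. -/
theorem On.flatYG (hA : ∀ y, OnC j 0 y → AtC P RK RL RC nd nc j 0 y y x)
    (h : CertNd 0 b P3 W3 (ftFlatG z 0 M oa ob ff) [] nd nc) (hx : Rng P3 W3 x)
    (hz : ∀ y, cz z (RC j 0 y x) = RC j 0 y x)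
    (hs : Nat.ble (4611686018427387904 * tt ^ 2) (3000000 * b ^ 2) = true) :
    On P RK RL RC x j 0 (FlatG (kc ff) ((oa : ℝ) / ob) x (M.v x) 0) fun y => h0 * y ≤ kc tt := by
  intro y hq hd hu
  have k := On.certX (U := fun y => h0 * y ≤ kc tt) hA h hx
    (fun y hq hu => ⟨rng_of (by rw [Nat.cast_zero, zero_div]; exact hq.nonneg)
      (by rw [zero_add]; exact yh_le hu hs), fun e he => absurd he List.not_mem_nil⟩) y hq hd hu
  have k' : FlatG (kc ff) ((oa : ℝ) / ob) x (M.v x) 0 y (crv P j 0 y) (RK j 0 y x) (RL j 0 y x)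
    (cz z (RC j 0 y x)) := k
  rw [hz] at k'
  exact k'

/-- Low pairs left of the window on a curve. -/
theorem On.leftYG (hA : ∀ y, OnC j 0 y → AtC P RK RL RC nd nc j 0 y y x)
    (h : CertNd 0 b P3 W3 (ftWall z 0 M oa ob) [⟨3, dl⟩] nd nc) (hx : Rng P3 W3 x)
    (hz : ∀ y, cz z (RC j 0 y x) = RC j 0 y x)
    (hs : Nat.ble (4611686018427387904 * tt ^ 2) (3000000 * b ^ 2) = true)
    (hl : Nat.ble (1073741824 * d0) (1000 * dl) = true) :
    On P RK RL RC x j 0 (WallP ((oa : ℝ) / ob) x (M.v x) 0) fun y =>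
      h0 * y ≤ kc tt ∧ crv P j 0 y ≤ kc d0 := by
  intro y hq hd hu
  have k := On.certX (U := fun y => h0 * y ≤ kc tt ∧ crv P j 0 y ≤ kc d0) hA h hx
    (fun y hq hu => ⟨rng_of (by rw [Nat.cast_zero, zero_div]; exact hq.nonneg)
      (by rw [zero_add]; exact yh_le hu.1 hs),
      no_ex1 (not_lt.2 (hu.2.trans (kc_le hl)))⟩) y hq hd hu
  have k' : WallP ((oa : ℝ) / ob) x (M.v x) 0 y (crv P j 0 y) (RK j 0 y x) (RL j 0 y x)
    (cz z (RC j 0 y x)) := k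
  rw [hz] at k'
  exact k'

/-- Low pairs at the abscissa of the window. -/
theorem OnT.left0G {pc : Piece} {c : Fn3}
    (h : CertSd 0 b P3 W3 (ftWall z 0 M oa ob) [] idF (cnF d0 1000) pc c)
    (hx : Rng P3 W3 x) (hK : ∀ X y, pc.K.v X y x = TK 0 X y x)
    (hL : ∀ X y, pc.L.v X y x = TL 0 X y x) (hC : ∀ X y, c.v X y x = TC 0 X y x)
    (hz : ∀ X y, cz z (TC 0 X y x) = TC 0 X y x)
    (hs : Nat.ble (4611686018427387904 * tt ^ 2) (3000000 * b ^ 2) = true) :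
    OnT TK TL TC x 0 (fun _ => kc d0) (WallP ((oa : ℝ) / ob) x (M.v x) 0) fun y =>
      h0 * y ≤ kc tt := by
  intro y hq hu
  have k := OnT.certX (U := fun y => h0 * y ≤ kc tt) (D := kc d0) (by rw [kc, Nat.cast_ofNat]) h hx
    hK hL hC
    (fun y hq hu => ⟨rng_of (by rw [Nat.cast_zero, zero_div]; exact hq.nonneg)
      (by rw [zero_add]; exact yh_le hu hs), fun e he => absurd he List.not_mem_nil⟩) y hq hu
  have k' : WallP ((oa : ℝ) / ob) x (M.v x) 0 y (kc d0) (TK 0 (kc d0) y x) (TL 0 (kc d0) y x)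
    (cz z (TC 0 (kc d0) y x)) := k
  rw [hz] at k'
  exact k'

/-- Right curves above the flat pairs. -/
theorem On.wall3G {th μ : ℝ} (h : On P RK RL RC x j 0 (WallP th x μ 0) (Rng a b))
    (hb : 536870912 ≤ a + b)
    (hs : Nat.ble (3000000 * a ^ 2) (4611686018427387904 * tt ^ 2) = true) :
    On P RK RL RC x j 0 (WallP th x μ 0) fun y => kc tt ≤ h0 * y := by
  refine h.imp fun y hq hu => rng_of (yl_ge hq.nonneg hu hs) (c_le ?_ (q_hi hq))
  simpa using hb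

/-- The inequality for flat pairs from the inequalities at the wall. -/
theorem On.flat_ofG {e th μ : ℝ} (he : 0 ≤ e) (hm : On P RK RL RC x j q (MonoQ x μ q) U)
    (hw : On P RK RL RC x j q (WallP th x μ q) U) :
    On P RK RL RC x j q (FlatG e th x μ q) U := by
  intro y h1 h2 h3
  have a : 0 ≤ grL x μ q y _ _ _ _ := hm y h1 h2 h3
  obtain ⟨-, b, -⟩ := hw y h1 h2 h3
  have c := mul_nonneg he a
  exact ⟨a, by linarith⟩

/-- The flat pairs on a curve up to the window. -/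
theorem On.flatWG {th μ : ℝ} (hm : On P RK RL RC x j 0 (MonoQ x μ 0) (Rng 0 b))
    (hs : Nat.ble (4611686018427387904 * tt ^ 2) (3000000 * b ^ 2) = true)
    (hw : On P RK RL RC x j 0 (WallP th x μ 0) fun _ => True) :
    On P RK RL RC x j 0 (FlatG (kc ff) th x μ 0) fun y => h0 * y ≤ kc tt :=
  On.flat_ofG (by positivity)
    (hm.imp fun y hq hu => rng_of (by rw [Nat.cast_zero, zero_div]; exact hq.nonneg)
      (by rw [zero_add]; exact yh_le hu hs)) (hw.imp fun _ _ _ => trivial)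

end

/-! ### The final form -/

section

variable {n : ℕ} {P : Pos n} {x μ th : ℝ} {f : ℝ → ℝ} {vR vL vC : ℝ → Fin (n + 1) → ℝ}
  {RK RL RC : Fin (n + 1) → ℕ → ℝ → ℝ → ℝ} {TK TL TC : ℕ → ℝ → ℝ → ℝ → ℝ}

/-- **The inequalities with the window from the quarters.** `HL`, `BL` are the steps. -/
theorem FV.winNG (V : FV P x μ th f vR vL vC RK RL RC TK TL TC) {τ η K e D0 UM : ℝ}
    {HL BL : List (ℕ × ℕ)} {hd' bd' lo hi : ℕ} (g : Geo τ η D0 UM (kc lo) (kc hi))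
    (h0' : ∀ j, On P RK RL RC x j 0 (WallP th x μ 0) fun y => τ ≤ h0 * y)
    (h1' : ∀ j, On P RK RL RC x j 1 (WallP th x μ 1) fun _ => True)
    (h2' : ∀ j, 1 < P.ρ j → On P RK RL RC x j 2 (WallP th x μ 2) fun y =>
      h0 * y ≤ 1 ∧ 1 - G y ≤ crv P j 2 y)
    (hs : ∀ y : ℝ, 1 ≤ y → h0 * y ≤ 1 → GV P x μ vR vL vC f 2 y (1 - G y))
    (flat : ∀ j, On P RK RL RC x j 0 (FlatG e th x μ 0) fun y => h0 * y ≤ τ)
    (left : ∀ j, On P RK RL RC x j 0 (WallP th x μ 0) fun y => h0 * y ≤ τ ∧ crv P j 0 y ≤ D0)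
    (left0 : OnT TK TL TC x 0 (fun _ => D0) (WallP th x μ 0) fun y => h0 * y ≤ τ)
    (high : ∀ j q, StpAll (fun t t' a => On P RK RL RC x j q
      (fun y X A L C => HighG K th x μ q y X A L C ((a : ℝ) / 1000) D0) fun y =>
        t ≤ h0 * y ∧ h0 * y ≤ t' + τ) 1700 800 HL hd')
    (high0 : ∀ T : ℝ, 97 / 100 ≤ T → T ≤ 17 / 10 → 1 ≤ stp HL hd' T * D0)
    (far : ∀ j q, StpAll (fun t t' a => On P RK RL RC x j q
      (fun y X A L C => FarG K th x μ q y X A L C ((a : ℝ) / 1000) D0) fun y =>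
        t ≤ h0 * y ∧ h0 * y ≤ t' + τ ∧ D0 ≤ crv P j q y) hi lo BL bd')
    (far0 : ∀ q, StpAll (fun t t' a => OnT TK TL TC x q (fun _ => D0)
      (fun y X A L C => FarG K th x μ q y X A L C ((a : ℝ) / 1000) D0) fun y =>
        t ≤ h0 * y ∧ h0 * y ≤ t' + τ ∧ qqn D0 y ≤ 3) hi lo BL bd')
    (near : ∀ j q, StpAll (fun t t' a => On P RK RL RC x j q
      (fun y X A L C => NearG K th x μ q y X A L C ((a : ℝ) / 1000)) fun y =>
        t ≤ h0 * y ∧ h0 * y ≤ t' + τ ∧ 0 < crv P j q y ∧ crv P j q y ≤ UM) hi lo BL bd')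
    (near0 : ∀ q, StpAll (fun t t' a => OnT TK TL TC x q (fun _ => UM)
      (fun y X A L C => NearG K th x μ q y X A L C ((a : ℝ) / 1000)) fun y =>
        t ≤ h0 * y ∧ h0 * y ≤ t' + τ ∧ 1 ≤ qqn UM y) hi lo BL bd') :
    WinNG P x μ th f vR vL vC RK RL (smT h0⁻¹ RC) TK TL (fun q X y x => h0⁻¹ * TC q X y x) τ K e UM
      (kc lo) (kc hi) D0 (stp HL hd') (stp BL bd') := by
  have hp := h0_pos
  have hsq := h0_sq
  have hτ := g.t1
  have hD := g.d1
  have hD' := g.d2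
  have e800 : ((800 : ℕ) : ℝ) / 1000 = 4 / 5 := by norm_num
  have e1700 : ((1700 : ℕ) : ℝ) / 1000 = 17 / 10 := by norm_num
  have cC : ∀ (j : Fin (n + 1)) (q : ℕ) (y : ℝ), h0 * smT h0⁻¹ RC j q y x = RC j q y x :=
    fun j q y => h0_cancel _
  refine ⟨stp_nonneg _ _, stp_nonneg _ _, ?_, hs, ?_, ?_, ?_, ?_, high0, ?_, ?_, ?_, ?_⟩
  · intro j q y hq hd hT3 hT h
    have q3 := q_lt_three hq hT
    match q, hq, q3 with
    | 0, hq, _ => exact V.gv hq hd (h0' j y hq hd hT3)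
    | 1, hq, _ => exact V.gv hq hd (h1' j y hq hd trivial)
    | 2, hq, _ =>
      obtain ⟨-, k1, k2⟩ := node_two hq hd hT h
      exact V.gv hq hd (h2' j k1 y hq hd ⟨hT, k2⟩)
  · intro j y hq hd hT3
    rw [cC]
    exact flat j y hq hd hT3
  · intro j y hq hd hT3 hX
    exact V.gv hq hd (left j y hq hd ⟨hT3, hX⟩)
  · intro y hy hT3
    have hy' : y ≤ 1 / 20 := by nlinarith
    refine V.gvT (inQ_zero hy (hT3.trans hτ)) ?_ ?_ (left0 y (inQ_zero hy (hT3.trans hτ)) hT3)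
    · unfold qqn
      nlinarith [sq_nonneg y]
    · unfold qqn
      nlinarith [sq_nonneg y]
  · intro j q y T hq hd t1 t2 t3 t4
    rw [cC]
    have k := StpAll.use (Q := fun T a => ∀ y, InQ q y → P.dm j (h0 * y) → T ≤ h0 * y →
      h0 * y ≤ T + τ → HighG K th x μ q y (crv P j q y) (RK j q y x) (RL j q y x) (RC j q y x)
        a D0) ((high j q).mono fun t t' a h T g1 g2 y hq hd t3 t4 =>
          h y hq hd ⟨by linarith, by linarith⟩) T (by rw [e800]; exact t1)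
        (by rw [e1700]; exact t2)
    exact k y hq hd t3 t4
  · intro j q y T hq hd t1 t2 t3 t4 hX
    rw [cC]
    have k := StpAll.use (Q := fun T a => ∀ y, InQ q y → P.dm j (h0 * y) → T ≤ h0 * y →
      h0 * y ≤ T + τ → D0 ≤ crv P j q y → FarG K th x μ q y (crv P j q y) (RK j q y x)
        (RL j q y x) (RC j q y x) a D0) ((far j q).mono fun t t' a h T g1 g2 y hq hd t3 t4 hX =>
          h y hq hd ⟨by linarith, by linarith, hX⟩) T t1 t2
    exact k y hq hd t3 t4 hX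
  · intro q y T hq t1 t2 t3 t4 hX
    have k := StpAll.use (Q := fun T a => ∀ y, InQ q y → T ≤ h0 * y →
      h0 * y ≤ T + τ → qqn D0 y ≤ 3 → FarG K th x μ q y D0 (TK q D0 y x) (TL q D0 y x)
        (TC q D0 y x) a D0) ((far0 q).mono fun t t' a h T g1 g2 y hq t3 t4 hX =>
          h y hq ⟨by linarith, by linarith, hX⟩) T t1 t2
    rw [h0_cancel]
    exact k y hq t3 t4 hX
  · intro j q y T hq hd t1 t2 t3 t4 hX0 hX
    rw [cC]
    have k := StpAll.use (Q := fun T a => ∀ y, InQ q y → P.dm j (h0 * y) → T ≤ h0 * y →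
      h0 * y ≤ T + τ → 0 < crv P j q y → crv P j q y ≤ UM → NearG K th x μ q y
        (crv P j q y) (RK j q y x) (RL j q y x) (RC j q y x) a)
        ((near j q).mono fun t t' a h T g1 g2 y hq hd t3 t4 hX0 hX =>
          h y hq hd ⟨by linarith, by linarith, hX0, hX⟩) T t1 t2
    exact k y hq hd t3 t4 hX0 hX
  · intro q y T hq t1 t2 t3 t4 hX
    have k := StpAll.use (Q := fun T a => ∀ y, InQ q y → T ≤ h0 * y →
      h0 * y ≤ T + τ → 1 ≤ qqn UM y → NearG K th x μ q y UM (TK q UM y x)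
        (TL q UM y x) (TC q UM y x) a) ((near0 q).mono fun t t' a h T g1 g2 y hq t3 t4
          hX => h y hq ⟨by linarith, by linarith, hX⟩) T t1 t2
    rw [h0_cancel]
    exact k y hq t3 t4 hX

end

section

variable {n : ℕ} {P : Pos n} {x th : ℝ} {vA vB vX vC : ℝ → Fin (n + 1) → ℝ} {N0 : ℕ}
  {a E o κ : ℝ} {f : ℝ → ℝ} {τ η K e K' e' D0 UM D1 UM1 lo hi : ℝ} {al be al' be' : ℝ → ℝ}
  {RR RL RC RR' RL' RC' : Fin (n + 1) → ℕ → ℝ → ℝ → ℝ} {TR TL TC TR' TL' TC' : ℕ → ℝ → ℝ → ℝ → ℝ}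

/-- The far vertex with the window. -/
theorem winU_farG {T : Tab} {C : ℝ → ℝ → ℝ} {f : ℝ → ℝ}
    (eA : T.A = ker P.cur.nodes vA fun _ _ => 0) (eX : T.Xi = ker P.cur.nodes vX fun _ _ => 0)
    (V : VPar P x 0 th (fun _ => 0) fun _ _ => 0) (X : Vx P x vA vX (fun _ _ => 0) RR RL RC TR TL TC)
    (W : WinNG P x 0 th (fun _ => 0) vA vX (fun _ _ => 0) RR RL RC TR TL TC τ K e UM lo hi D0 al be)
    (g : Geo τ η D0 UM lo hi) (hK : η + τ ≤ K * h0) (he : e * h0 ≤ η) :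
    Pool.Agent.Strip051.LC.FG.WinU (U0 T C f (kE (h0 * x)) (h0 * x)) (NodeAt P.cur.nodes) τ η D0 UM
      lo hi al be := by
  have h := W.winU V X g hK he
  rw [UP_zero] at h
  rw [U0_eq, eA, eX]
  exact h

/-- **Two kernels, window.** -/
theorem certS_winG (h : CertS P.cur vA vB vX N0 a κ (h0 * x)) (hκ : κ = kE (h0 * x)) (hN : 3 ≤ N0)
    (VF : VPar P x 0 1 (fun _ => 0) fun _ _ => 0)
    (XF : Vx P x vA vX (fun _ _ => 0) RR RL RC TR TL TC)
    (WF : WinNG P x 0 1 (fun _ => 0) vA vX (fun _ _ => 0) RR RL RC TR TL TC τ K e UM lo hi D0 al be)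
    (VN : VPar P x (mu N0 (h0 * x)) 1 (fun _ => 0) fun _ _ => 0)
    (XN : Vx P x vB vX (fun _ _ => 0) RR' RL' RC' TR' TL' TC')
    (WN : WinNG P x (mu N0 (h0 * x)) 1 (fun _ => 0) vB vX (fun _ _ => 0) RR' RL' RC' TR' TL' TC'
      τ K' e' UM1 lo hi D1 al' be')
    (g0 : Geo τ η D0 UM lo hi) (hK : η + τ ≤ K * h0) (he : e * h0 ≤ η)
    (g1 : Geo τ η D1 UM1 lo hi) (hK' : η + τ ≤ K' * h0) (he' : e' * h0 ≤ η) :
    RowOK ((tab P.cur.nodes vA vB vX).flat N0 κ (h0 * x)) N0 (h0 * x) := by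
  subst hκ
  refine Pool.Agent.Strip051.LC.FG.rowWin2 (al' := al') (be' := be') h.fixSm hN g0 g1
    (winU_farG rfl rfl VF XF WF g0 hK he) ?_
  have k := WN.winU VN XN g1 hK' he'
  rw [UP_zero] at k
  rw [UN_eq]
  exact k

/-- **Three kernels, window.** -/
theorem certE_winG (h : CertE P.cur vA vX vC f N0 a κ (h0 * x) E o) (hκ : κ = kE (h0 * x))
    (hN : 3 ≤ N0) (VF : VPar P x 0 1 (fun _ => 0) fun _ _ => 0)
    (XF : Vx P x vA vX (fun _ _ => 0) RR RL RC TR TL TC)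
    (WF : WinNG P x 0 1 (fun _ => 0) vA vX (fun _ _ => 0) RR RL RC TR TL TC τ K e UM lo hi D0 al be)
    (VN : VPar P x (mu N0 (h0 * x)) th f vC)
    (XN : Vx P x (fun T i => E * vA T i) vX vC RR' RL' RC' TR' TL' TC')
    (WN : WinNG P x (mu N0 (h0 * x)) th f (fun T i => E * vA T i) vX vC RR' RL' RC' TR' TL' TC'
      τ K' e' UM1 lo hi D1 al' be')
    (g0 : Geo τ η D0 UM lo hi) (hK : η + τ ≤ K * h0) (he : e * h0 ≤ η)
    (g1 : Geo τ η D1 UM1 lo hi) (hK' : η + τ ≤ K' * h0) (he' : e' * h0 ≤ η) :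
    RowOK ((tab P.cur.nodes vA (fun T i => E * vA T i) vX).flat3 (ker P.cur.nodes vC fun _ _ => 0)
      f N0 κ (h0 * x)) N0 (h0 * x) := by
  subst hκ
  exact Pool.Agent.Strip051.LC.FG.rowWin3 h.fixDir hN g0 g1
    (winU_farG rfl rfl VF XF WF g0 hK he) (WN.winU VN XN g1 hK' he')

end

end Pool.Agent.Strip051.PB
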