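import Pool.Agent.Strip051.PB.FlWinG

/-! # The window of variable size with the true slope of the narrow pairs

If the upper end of a narrow pair stays in the rising part of the density while the pair is moved up
by `K h0`, then the mean of the density grows with the slope of this part. -/

namespace Pool.Agent.Strip051.PB

open Pool.Agent.StripNear Pool.Agent.StripSquare Pool.Agent.Strip051.Sweep
open Pool.Agent.Strip051.LC Pool.Agent.Strip051.LC.Exact
open Pool.Agent.Strip051.LC.FG (Geo WinU)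
open Pool.Agent.Strip051.LC.Floor (G En Qn fS kE_low kE_high S0_norm G_nonneg G_sq)
open Pool.Agent.Strip051.LC.Line (mn D tau Qd mn_low D_low)

/-- The mean of the density over an interval in its rising part. -/
theorem mn_rise {s κ d t : ℝ} (hs1 : s < h0) (hd : 0 ≤ d) (ht : 0 ≤ t) (hts : d + t ≤ s) :
    mn (D s κ) d (d + t) = mn (D s κ) 0 t + κ * (h0 - s) / h0 * d := by
  have hp := h0_pos
  rw [mn_low hs1 ht (by linarith)]
  unfold mn
  rw [intervalIntegral.integral_congr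
    (g := fun u => κ * ((h0 - s) / (2 * h0) * (2 * d - s)) + κ * ((h0 - s) / (2 * h0) * (2 * t)) * u)]
  · have e1 : ∫ u in (0 : ℝ)..1, κ * ((h0 - s) / (2 * h0) * (2 * t)) * u =
        κ * ((h0 - s) / (2 * h0) * (2 * t)) * (1 / 2) := by
      rw [intervalIntegral.integral_const_mul, integral_id]
      norm_num
    rw [intervalIntegral.integral_add (by simp) (by apply Continuous.intervalIntegrable; fun_prop),
      intervalIntegral.integral_const, e1, sub_zero, one_smul]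
    field_simp
    ring
  · intro u hu
    rw [Set.uIcc_of_le (by norm_num)] at hu
    have h1 : u * t ≤ t := by nlinarith [hu.1, hu.2]
    have h0' : 0 ≤ u * t := mul_nonneg hu.1 ht
    show D s κ (d + u * (d + t - d)) = _
    rw [D_low (by nlinarith) (by nlinarith) hs1]
    ring

/-- Upper bound of the growth in the rising part. -/
noncomputable def grE (x μ X A L C : ℝ) : ℝ :=
  X + μ * (L + 2 * |C|) - 2 * En x * A * x⁻¹

section

variable {x μ y : ℝ} {q : ℕ} {R Xi Cf : ℝ → ℝ → ℝ} {f : ℝ → ℝ} {X : ℝ}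

/-- The growth from above in the rising part. -/
theorem UX_rise (hx : 0 < x) (hx1 : x < 1) (hμ : 0 ≤ μ) (hf : DenF f)
    (h : InQ q y) (ho : od q = false) {K : ℝ} (hK : vq q y + K ≤ x) {A L C : ℝ}
    (hA : R X (h0 * y) = A) (hL : Xi X (h0 * y) = L)
    (hC : h0 * Cf X (h0 * y) = C) {d : ℝ} (hd : 0 ≤ d) (hd2 : d ≤ K * h0) :
    UX x μ R Xi Cf f X d (d + h0 * y) ≤
      UX x μ R Xi Cf f X 0 (0 + h0 * y) + grE x μ X A L C / h0 * d := by
  have hp := h0_pos
  have hT : 0 ≤ h0 * y := mul_nonneg hp.le h.nonneg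
  have hne : h0 ≠ 0 := hp.ne'
  have et : tau (h0 * y) = h0 * vq q y := by
    rw [tau_q h]
    match q, h with
    | 0, _ =>
      show h0 * (y - (jq 0 : ℕ)) = h0 * y
      norm_num [jq]
    | 1, _ => exact absurd ho (by decide)
    | 2, _ =>
      show h0 * (y - (jq 2 : ℕ)) = h0 * (y - 1)
      norm_num [jq]
    | 3, _ => exact absurd ho (by decide)
    | _ + 4, h => exact h.elim
  have hv := vq_mem h
  have e0 := mn_rise (s := h0 * x) (κ := kE (h0 * x)) (d := d) (t := h0 * vq q y) (by nlinarith) hd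
    (mul_nonneg hp.le hv.1) (by nlinarith)
  have ek : kE (h0 * x) * (h0 - h0 * x) / h0 = 2 * En x * x⁻¹ / h0 := by
    rw [kE_low hx hx1]
    field_simp
  have hi : ∀ a b : ℝ, IntervalIntegrable f MeasureTheory.volume a b := fun a b =>
    hf.cont.intervalIntegrable a b
  have e3 : (∫ u in d..(d + h0 * y), f u) - ∫ u in (0 : ℝ)..(h0 * y), f u =
      (∫ u in (h0 * y)..(h0 * y + d), f u) - ∫ u in (0 : ℝ)..d, f u := by
    have a1 := intervalIntegral.integral_add_adjacent_intervals (hi 0 d) (hi d (d + h0 * y))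
    have a2 := intervalIntegral.integral_add_adjacent_intervals (hi 0 (h0 * y))
      (hi (h0 * y) (h0 * y + d))
    rw [show d + h0 * y = h0 * y + d by ring] at *
    linarith
  have e4 : |(∫ u in d..(d + h0 * y), f u) - ∫ u in (0 : ℝ)..(h0 * y), f u| ≤ 2 * d := by
    rw [e3]
    have b1 := hf.int_le (h0 * y) (h0 * y + d)
    have b2 := hf.int_le 0 d
    rw [add_sub_cancel_left, abs_of_nonneg hd] at b1
    rw [sub_zero, abs_of_nonneg hd] at b2
    exact (abs_sub _ _).trans (by linarith)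
  have hC' : h0 * |Cf X (h0 * y)| = |C| := by
    rw [← hC, abs_mul, abs_of_pos hp]
  unfold UX
  rw [UT_nf hT, UT_nf hT, hA, hL, zero_add, zero_add, et, e0, ek]
  set m0 := mn (D (h0 * x) (kE (h0 * x))) 0 (h0 * vq q y)
  set I1 := ∫ u in d..(d + h0 * y), f u
  set I0 := ∫ u in (0 : ℝ)..(h0 * y), f u
  set cf := Cf X (h0 * y)
  have e5 : -(μ * (cf * (I1 - I0))) ≤ 2 * μ * |cf| * d := by
    have h1 : |cf * (I1 - I0)| ≤ |cf| * (2 * d) := by
      rw [abs_mul]
      exact mul_le_mul_of_nonneg_left e4 (abs_nonneg _)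
    have h2 := mul_le_mul_of_nonneg_left (abs_le.1 h1).1 hμ
    linarith
  have e6 : grE x μ X A L C / h0 * d = X / h0 * d + μ / h0 * L * d - A * (2 * En x * x⁻¹ / h0 * d) +
      2 * μ * |cf| * d := by
    unfold grE
    rw [← hC']
    field_simp
    ring
  have e7 : X * (1 / 2 - we (h0 * x) - μ * wq (h0 * x) + (2 * d + h0 * y) / (2 * h0)) =
      X * (1 / 2 - we (h0 * x) - μ * wq (h0 * x) + (2 * 0 + h0 * y) / (2 * h0)) +
        X / h0 * d := by
    field_simp
    ring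
  have e8 : μ * ((2 * d + h0 * y - h0 * x) / (2 * h0)) * L =
      μ * ((2 * 0 + h0 * y - h0 * x) / (2 * h0)) * L + μ / h0 * L * d := by
    field_simp
    ring
  rw [e6, e7, e8]
  have e9 : μ * (cf * (I1 - I0)) = μ * (cf * I1) - μ * (cf * I0) := by ring
  linarith

end

/-- The inequality for narrow pairs, with one of the two slopes. -/
def NearH (K th x μ : ℝ) (q : ℕ) (y X A L C b : ℝ) : Prop :=
  NearG K th x μ q y X A L C b ∨ (od q = false ∧ vq q y + K ≤ x ∧
    usX th x μ q y X A L C + 1 / 2 + K * max (grE x μ X A L C) 0 ≤ b * X)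

theorem grE_hom {x μ a X A L C : ℝ} (ha : 0 ≤ a) :
    grE x μ (a * X) (a * A) (a * L) (a * C) = a * grE x μ X A L C := by
  unfold grE
  rw [abs_mul, abs_of_nonneg ha]
  ring

/-- The inequality for narrow pairs is homogeneous. -/
theorem NearH.smul {K th x μ y : ℝ} {q : ℕ} {a X A L C b : ℝ} (ha : 0 ≤ a)
    (h : NearH K th x μ q y X A L C b) : NearH K th x μ q y (a * X) (a * A) (a * L) (a * C) b := by
  rcases h with h | ⟨h1, h2, h⟩
  · exact Or.inl (h.smul ha)
  · refine Or.inr ⟨h1, h2, ?_⟩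
    rw [usX_hom, grE_hom ha]
    have e : max (a * grE x μ X A L C) 0 = a * max (grE x μ X A L C) 0 := by
      rw [mul_max_of_nonneg _ _ ha, mul_zero]
    rw [e]
    have := mul_le_mul_of_nonneg_left h ha
    linarith

section

variable {n : ℕ} {P : Pos n} {x μ th : ℝ} {q : ℕ} {y : ℝ} {f : ℝ → ℝ}
  {vR vL vC : ℝ → Fin (n + 1) → ℝ} {R L C : Fin (n + 1) → ℕ → ℝ → ℝ → ℝ}
  {TR TL TC : ℕ → ℝ → ℝ → ℝ → ℝ} {τ η K e D0 UM lo hi : ℝ} {al be : ℝ → ℝ}

/-- An upper bound for all heights up to `K h0`. -/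
theorem near_ofH (H : VPar P x μ th f vC) (h : InQ q y) {X A B D b : ℝ}
    (hA : ker P.cur.nodes vR (fun _ _ => 0) X (h0 * y) = A)
    (hB : ker P.cur.nodes vL (fun _ _ => 0) X (h0 * y) = B)
    (hD : h0 * ker P.cur.nodes vC (fun _ _ => 0) X (h0 * y) = D)
    {d r : ℝ} (hd : 0 ≤ d) (hr : d ≤ r) (hK : r ≤ K * h0) (hk : NearH K th x μ q y X A B D b) :
    UP P x μ vR vL vC f X d (d + h0 * y) ≤ b * X := by
  rcases hk with hk | ⟨ho, hv, hk⟩
  · exact near_ofG H h hA hB hD hd hr hK hk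
  · have hp := h0_pos
    have k1 := ux_val H h hA hB hD
    have k2 := UX_rise H.x0 H.x1 H.μ0 H.den h ho hv hA hB hD hd (hr.trans hK)
    have k3 : grE x μ X A B D / h0 * d ≤ K * max (grE x μ X A B D) 0 := by
      have m0 : 0 ≤ max (grE x μ X A B D) 0 := le_max_right _ _
      have m1 : grE x μ X A B D ≤ max (grE x μ X A B D) 0 := le_max_left _ _
      have a1 : d / h0 ≤ K := by
        rw [div_le_iff₀ hp]
        linarith
      have a0 : 0 ≤ d / h0 := by positivity
      have : grE x μ X A B D / h0 * d = d / h0 * grE x μ X A B D := by ring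
      rw [this]
      nlinarith
    unfold UP at *
    linarith

variable (P x μ th vR vL vC f R L C TR TL TC) in
/-- The inequalities with the window in normalised coordinates. -/
structure WinNH (τ K e UM lo hi D0 : ℝ) (al be : ℝ → ℝ) : Prop where
  al0 : ∀ T, 0 ≤ al T
  be0 : ∀ T, 0 ≤ be T
  node : ∀ (j : Fin (n + 1)) (q : ℕ) (y : ℝ), InQ q y → P.dm j (h0 * y) → τ ≤ h0 * y →
    h0 * y ≤ 1 → (y < 1 ∨ (j ≠ 0 ∧ 1 - G y ≤ crv P j q y)) →
    GV P x μ vR vL vC f q y (crv P j q y)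
  steep : ∀ y : ℝ, 1 ≤ y → h0 * y ≤ 1 → GV P x μ vR vL vC f 2 y (1 - G y)
  flat : ∀ (j : Fin (n + 1)) (y : ℝ), InQ 0 y → P.dm j (h0 * y) → h0 * y ≤ τ →
    FlatG e th x μ 0 y (crv P j 0 y) (R j 0 y x) (L j 0 y x) (h0 * C j 0 y x)
  left : ∀ (j : Fin (n + 1)) (y : ℝ), InQ 0 y → P.dm j (h0 * y) → h0 * y ≤ τ →
    crv P j 0 y ≤ D0 → GV P x μ vR vL vC f 0 y (crv P j 0 y)
  left0 : ∀ y : ℝ, 0 ≤ y → h0 * y ≤ τ → GV P x μ vR vL vC f 0 y D0
  high : ∀ (j : Fin (n + 1)) (q : ℕ) (y T : ℝ), InQ q y → P.dm j (h0 * y) → 4 / 5 ≤ T →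
    T ≤ 17 / 10 → T ≤ h0 * y → h0 * y ≤ T + τ →
    HighG K th x μ q y (crv P j q y) (R j q y x) (L j q y x) (h0 * C j q y x) (al T) D0
  high0 : ∀ T : ℝ, 97 / 100 ≤ T → T ≤ 17 / 10 → 1 ≤ al T * D0
  far : ∀ (j : Fin (n + 1)) (q : ℕ) (y T : ℝ), InQ q y → P.dm j (h0 * y) → lo ≤ T →
    T ≤ hi → T ≤ h0 * y → h0 * y ≤ T + τ → D0 ≤ crv P j q y →
    FarG K th x μ q y (crv P j q y) (R j q y x) (L j q y x) (h0 * C j q y x) (be T) D0
  far0 : ∀ (q : ℕ) (y T : ℝ), InQ q y → lo ≤ T → T ≤ hi → T ≤ h0 * y →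
    h0 * y ≤ T + τ → qqn D0 y ≤ 3 →
    FarG K th x μ q y D0 (TR q D0 y x) (TL q D0 y x) (h0 * TC q D0 y x) (be T) D0
  near : ∀ (j : Fin (n + 1)) (q : ℕ) (y T : ℝ), InQ q y → P.dm j (h0 * y) → lo ≤ T →
    T ≤ hi → T ≤ h0 * y → h0 * y ≤ T + τ → 0 < crv P j q y → crv P j q y ≤ UM →
    NearH K th x μ q y (crv P j q y) (R j q y x) (L j q y x) (h0 * C j q y x) (be T)
  near0 : ∀ (q : ℕ) (y T : ℝ), InQ q y → lo ≤ T → T ≤ hi → T ≤ h0 * y →
    h0 * y ≤ T + τ → 1 ≤ qqn UM y →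
    NearH K th x μ q y UM (TR q UM y x) (TL q UM y x) (h0 * TC q UM y x) (be T)

theorem WinNH.winU (H : VPar P x μ th f vC) (V : Vx P x vR vL vC R L C TR TL TC)
    (h : WinNH P x μ th f vR vL vC R L C TR TL TC τ K e UM lo hi D0 al be)
    (g : Geo τ η D0 UM lo hi) (hK : η + τ ≤ K * h0) (he : e * h0 ≤ η) :
    WinU (UP P x μ vR vL vC f) (NodeAt P.cur.nodes) τ η D0 UM lo hi al be := by
  have hp := h0_pos
  have hτ0 := g.t0
  have hτ := g.t1
  have hη := g.e0
  have hD1 := g.d1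
  have hD2 := g.d2
  have hu0 := g.u0
  refine ⟨h.al0, h.be0, ?_, ?_, ?_, ?_, ?_, ?_, ?_⟩
  · intro X T d hd hT3 hT1 hX h1 h3 hn hr
    obtain ⟨j, q, y, rfl, hq, hdm, rfl⟩ := node_cases (by linarith) hX h3 hn
    exact node_wall H hq hT1 hr (h.node j q y hq hdm hT3 hT1) h.steep hd
  · intro T d hd hT hT1
    have h3 : T ^ 2 ≤ 3 := by nlinarith
    obtain ⟨q, y, rfl, hq⟩ := height_cases (hp.le.trans hT) h3
    have hy : 1 ≤ y := by nlinarith
    rw [sqrt_G]
    exact wall_of H (inQ_two hy hT1) hd (h.steep y hy hT1)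
  · intro X T d hd hT hT3 hX h1 h3 hn
    obtain ⟨j, q, y, rfl, hq, hdm, rfl⟩ := node_cases hT hX h3 hn
    obtain rfl := lt_half_of hq (hT3.trans hτ)
    exact flat_ofG H hq (V.lR.at_node hq hdm) (V.lL.at_node hq hdm)
      (by rw [V.lC.at_node hq hdm]) (hη.trans hd) (he.trans hd) (h.flat j y hq hdm hT3)
  · intro X T d hd _ hT hT3 hX hXD h1 h3 hn
    rcases hn with hn | hn
    · obtain ⟨j, q, y, rfl, hq, hdm, rfl⟩ := node_cases hT hX h3 hn
      obtain rfl := lt_half_of hq (hT3.trans hτ)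
      exact wall_of H hq hd (h.left j y hq hdm hT3 hXD)
    · subst hn
      obtain ⟨q, y, rfl, hq⟩ := height_cases hT (by nlinarith [sq_nonneg X])
      obtain rfl := lt_half_of hq (hT3.trans hτ)
      exact wall_of H hq hd (h.left0 y hq.1 hT3)
  · intro X T T' d hd hd2 t1 t2 t3 t4 hX h1 h3 hn
    rcases hX.eq_or_lt with hX0 | hX0
    · subst hX0
      have e : UP P x μ vR vL vC f 0 d (d + T') = 0 := by
        unfold UP UX UT UF Qd
        rw [show ∀ v : ℝ → Fin (n + 1) → ℝ, ∀ t : ℝ,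
          ker P.cur.nodes v (fun _ _ => 0) 0 t = 0 from fun v t => Pos.ker_at_zero v t]
        simp only [show ∀ v : ℝ → Fin (n + 1) → ℝ, ∀ t : ℝ,
          ker P.cur.nodes v (fun _ _ => 0) 0 t = 0 from fun v t => Pos.ker_at_zero v t]
        ring
      rw [e]
      have hT1 : 1 ≤ T' := by nlinarith
      have := h.high0 T (by linarith) t2
      linarith
    · rcases hn with hn | hn
      · obtain ⟨j, q, y, rfl, hq, hdm, rfl⟩ := node_cases (by linarith) hX0 h3 hn
        have k := h.high j q y T hq hdm t1 t2 t3 t4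
        unfold HighG at k
        exact low_of H hq (V.lR.at_node hq hdm) (V.lL.at_node hq hdm)
          (by rw [V.lC.at_node hq hdm]) hd hd2 hK (by linarith)
      · exact absurd hn hX0.ne'
  · intro X T T' d hd hd2 t1 t2 t3 t4 hT0 hX h1 h3 hn
    rcases hn with hn | hn
    · obtain ⟨j, q, y, rfl, hq, hdm, rfl⟩ := node_cases hT0 (by linarith) h3 hn
      have k := h.far j q y T hq hdm t1 t2 t3 t4 hX
      unfold FarG at k
      exact low_of H hq (V.lR.at_node hq hdm) (V.lL.at_node hq hdm)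
        (by rw [V.lC.at_node hq hdm]) hd hd2 hK (by linarith)
    · subst hn
      obtain ⟨q, y, rfl, hq⟩ := height_cases hT0 (by nlinarith [sq_nonneg X])
      rw [qqn_eq] at h1 h3
      have k := h.far0 q y T hq t1 t2 t3 t4 h3
      unfold FarG at k
      exact low_of H hq (V.lR.third q _ y hq h1 h3) (V.lL.third q _ y hq h1 h3)
        (by rw [V.lC.third q _ y hq h1 h3]) hd hd2 hK (by linarith)
  · intro X T T' d hd hd2 t1 t2 t3 t4 hT0 hX hX2 h1 h3 hn
    rcases hn with hn | hn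
    · obtain ⟨j, q, y, rfl, hq, hdm, rfl⟩ := node_cases hT0 hX h3 hn
      exact near_ofH H hq (V.lR.at_node hq hdm) (V.lL.at_node hq hdm)
        (by rw [V.lC.at_node hq hdm]) hd hd2 hK (h.near j q y T hq hdm t1 t2 t3 t4 hX hX2)
    · subst hn
      obtain ⟨q, y, rfl, hq⟩ := height_cases hT0 (by nlinarith [sq_nonneg X])
      rw [qqn_eq] at h1 h3
      exact near_ofH H hq (V.lR.third q _ y hq h1 h3) (V.lL.third q _ y hq h1 h3)
        (by rw [V.lC.third q _ y hq h1 h3]) hd hd2 hK (h.near0 q y T hq t1 t2 t3 t4 h1)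

end

end Pool.Agent.Strip051.PB
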