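import Pool.Agent.Strip051.PB.FlAsmG
import Pool.Agent.Strip051.PB.FlWinH

/-! # Assembly of the window of variable size, narrow pairs with the true slope -/

namespace Pool.Agent.Strip051.PB

open Pool.Agent.StripNear Pool.Agent.StripSquare Pool.Agent.Strip051.Sweep
open Pool.Agent.Strip051.LC Pool.Agent.Strip051.LC.Exact
open Pool.Agent.Strip051.LC.FG (Geo)
open Pool.Agent.Strip051.LC.Floor (G En Qn fS GUn epn ehn kan k3d k3n zen G_nonneg G_sq)

/-! ### The test -/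

/-- `grE` -/
noncomputable def geT (z : Bool) (M x X A L C : ℕ) : ℕ :=
  psub (padd X (pmul M (pnorm (luT z L C))))
    (pmul (pnorm (pmul (pnorm (padd (enT x) (enT x))) (pnorm A))) (pinv x))

theorem enc_geT {E : Pt} {z : Bool} {M X XX A L C : ℕ} {μ x X' a l c : ℝ} (hM : Enc E M μ)
    (hx : Enc E X x) (hX : Enc E XX X') (hA : Enc E A a) (hL : Enc E L l) (hC : Enc E C c) :
    Enc E (geT z M X XX A L C) (grE x μ X' a l (cz z c)) := by
  refine enc_cast (enc_sub (enc_add hX (enc_mul hM (enc_norm (enc_luT hL hC))))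
    (enc_mul (enc_norm (enc_mul (enc_norm (enc_add (enc_enT hx) (enc_enT hx))) (enc_norm hA)))
      (enc_inv hx))) ?_
  unfold grE
  ring

section

variable (z : Bool) (q : ℕ) (M : Fn1) (oa ob : ℕ)

/-- the test for `NearH` with `K = kk / 1000`, `b = bb / 1000` -/
noncomputable def ftNearE (kk bb : ℕ) : FTst where
  t x y X A L C := (fun m => band (Bool.not (od q))
    (band (ppos (psub (psub x (vqT q y)) (prat kk 1000)))
      (ppos (psub (psub (psub (pscale bb 1000 X) (usT z q oa ob m x y X A L C)) (phn 1))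
        (pscale kk 1000 (pps (geT z m x X A L C))))))) (M.t x)
  P x y X A L C := NearH (kc kk) ((oa : ℝ) / ob) x (M.v x) q y X A L (cz z C) ((bb : ℝ) / 1000)
  snd := by
    intro E X Y XX A L C x y X' a l c hx hy hX hA hL hC h
    obtain ⟨h0, h1⟩ := band_true h
    obtain ⟨h1, h2⟩ := band_true h1
    have g := enc_geT (z := z) (M.enc hx) hx hX hA hL hC
    have k := ppos_sound (enc_sub (enc_sub (enc_sub (enc_scale bb 1000 hX)
      (enc_usT q oa ob (M.enc hx) hx hy hX hA hL hC)) (enc_half1 E))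
        (enc_scale kk 1000 (enc_pos g))) h2
    have k1 := ppos_sound (enc_sub (enc_sub hx (enc_vqT q hy)) (enc_rat E kk 1000)) h1
    push_cast at k k1
    refine Or.inr ⟨(by simpa using h0), ?_, ?_⟩
    · unfold kc
      linarith
    · unfold kc
      linarith

end

/-! ### From one slope to the choice -/

section

variable {n : ℕ} {P : Pos n} {x : ℝ} {RK RL RC : Fin (n + 1) → ℕ → ℝ → ℝ → ℝ}
  {TK TL TC : ℕ → ℝ → ℝ → ℝ → ℝ} {j : Fin (n + 1)} {q : ℕ}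

theorem On.toH {U : ℝ → Prop} {K th μ b : ℝ}
    (h : On P RK RL RC x j q (fun y X A L C => NearG K th x μ q y X A L C b) U) :
    On P RK RL RC x j q (fun y X A L C => NearH K th x μ q y X A L C b) U :=
  fun y hq hd hu => Or.inl (h y hq hd hu)

theorem OnT.toH {U : ℝ → Prop} {K th μ b : ℝ} {D : ℝ → ℝ}
    (h : OnT TK TL TC x q D (fun y X A L C => NearG K th x μ q y X A L C b) U) :
    OnT TK TL TC x q D (fun y X A L C => NearH K th x μ q y X A L C b) U :=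
  fun y hq hu => Or.inl (h y hq hu)

end

/-! ### Narrow pairs -/

section

variable {n : ℕ} {P : Pos n} {RK RL RC : Fin (n + 1) → ℕ → ℝ → ℝ → ℝ} {x : ℝ}
  {TK TL TC : ℕ → ℝ → ℝ → ℝ → ℝ} {q : ℕ} {j : Fin (n + 1)} {Q : ℝ → ℝ → ℝ → ℝ → ℝ → Prop}
  {U V : ℝ → Prop} {nd nd' : Node} {nc nc' : Fn2} {W W' Z Z' P3 W3 : ℕ} {M : Fn1} {z : Bool}
  {oa ob aa t t' s s' a b dl : ℕ} {tt ee kk ff d0 um : ℕ}

theorem On.stEG (hA : ∀ y, OnC j q y → AtC P RK RL RC nd nc j q y y x)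
    (h : CertNd a b P3 W3 (ftNearE z q M oa ob kk aa) [⟨3, dl⟩] nd nc) (hx : Rng P3 W3 x)
    (hz : ∀ y, cz z (RC j q y x) = RC j q y x) (hs : stOkG tt q t t' a b = true)
    (hl : Nat.ble (1073741824 * um) (1000 * dl) = true) :
    On P RK RL RC x j q (fun y X A L C => NearH (kc kk) ((oa : ℝ) / ob) x (M.v x) q y X A L C
      ((aa : ℝ) / 1000)) fun y => (t : ℝ) / 1000 ≤ h0 * y ∧
        h0 * y ≤ (t' : ℝ) / 1000 + kc tt ∧ 0 < crv P j q y ∧ crv P j q y ≤ kc um := by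
  intro y hq hd hu
  have k := On.certX (U := fun y => (t : ℝ) / 1000 ≤ h0 * y ∧
    h0 * y ≤ (t' : ℝ) / 1000 + kc tt ∧ 0 < crv P j q y ∧ crv P j q y ≤ kc um)
    hA h hx (fun y hq hu => ⟨stOkG_rng hq ⟨hu.1, hu.2.1⟩ hs,
      no_ex1 (not_lt.2 (hu.2.2.2.trans (kc_le hl)))⟩) y hq hd hu
  have k' : NearH (kc kk) ((oa : ℝ) / ob) x (M.v x) q y (crv P j q y) (RK j q y x) (RL j q y x)
    (cz z (RC j q y x)) ((aa : ℝ) / 1000) := k
  rw [hz] at k'
  exact k'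

theorem On.stEcG (hc : CovC P RK RL RC nd nc j q W W' (fun _ => True) x)
    (h : CertNd W W' P3 W3 (ftNearE z q M oa ob kk aa) [⟨0, s⟩, ⟨1, s'⟩, ⟨3, dl⟩] nd nc)
    (hx : Rng P3 W3 x) (hz : ∀ y, cz z (RC j q y x) = RC j q y x)
    (hs : stXG tt t t' s s' = true) (hl : Nat.ble (1073741824 * um) (1000 * dl) = true) :
    On P RK RL RC x j q (fun y X A L C => NearH (kc kk) ((oa : ℝ) / ob) x (M.v x) q y X A L C
      ((aa : ℝ) / 1000)) fun y => (t : ℝ) / 1000 ≤ h0 * y ∧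
        h0 * y ≤ (t' : ℝ) / 1000 + kc tt ∧ 0 < crv P j q y ∧ crv P j q y ≤ kc um := by
  intro y hq hd hu
  have k := On.certP (U := fun y => (t : ℝ) / 1000 ≤ h0 * y ∧
    h0 * y ≤ (t' : ℝ) / 1000 + kc tt ∧ 0 < crv P j q y ∧ crv P j q y ≤ kc um)
    hc h hx (fun y hq hu => no_ex3 (stXG_bd hq ⟨hu.1, hu.2.1⟩ hs)
      (not_lt.2 (hu.2.2.2.trans (kc_le hl)))) y hq hd hu
  have k' : NearH (kc kk) ((oa : ℝ) / ob) x (M.v x) q y (crv P j q y) (RK j q y x) (RL j q y x)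
    (cz z (RC j q y x)) ((aa : ℝ) / 1000) := k
  rw [hz] at k'
  exact k'

/-- The narrow pairs on the unit circle; near the abscissa `0` the functions divided by the abscissa
are used. -/
theorem On.stE0G {pz : ℕ} {K L : Fn2} {C : Fn2}
    (hc : CovC P RK RL RC nd nc 0 2 W W' (fun _ => True) x) (hX : ∀ p, nd.X.v p = p)
    (h : CertNd W W' P3 W3 (ftNearE z 2 M oa ob kk aa)
      [⟨0, s⟩, ⟨1, s'⟩, ⟨2, pz⟩, ⟨3, dl⟩] nd nc)
    (h' : CertNd 0 pz P3 W3 (ftNearE z 2 M oa ob kk aa) [⟨0, s⟩, ⟨1, s'⟩] ⟨nd.Y, onF, K, L⟩ C)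
    (hx : Rng P3 W3 x) (hz : ∀ y, cz z (RC 0 2 y x) = RC 0 2 y x)
    (hq : ∀ p, 0 < p → p ≤ (pz : ℝ) / 1073741824 → nd.K.v p x = p * K.v p x ∧
      nd.L.v p x = p * L.v p x ∧ nc.v p x = p * C.v p x)
    (hs : stXG tt t t' s s' = true) (hl : Nat.ble (1073741824 * um) (1000 * dl) = true) :
    On P RK RL RC x 0 2 (fun y X A L C => NearH (kc kk) ((oa : ℝ) / ob) x (M.v x) 2 y X A L C
      ((aa : ℝ) / 1000)) fun y => (t : ℝ) / 1000 ≤ h0 * y ∧
        h0 * y ≤ (t' : ℝ) / 1000 + kc tt ∧ 0 < crv P 0 2 y ∧ crv P 0 2 y ≤ kc um := by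
  intro y hy hd hu
  have hb := stXG_bd hy ⟨hu.1, hu.2.1⟩ hs
  obtain ⟨p, A, g⟩ := hc y (dm_onC hy hd) trivial
  have eX : crv P 0 2 y = p := by rw [← A.X, hX]
  rcases le_total ((pz : ℝ) / 1073741824) p with hp | hp
  · have k := h p x g hx
    beta_reduce at k
    rw [A.Y, A.X, A.K, A.L, A.C] at k
    rcases k with ⟨e, he, h1⟩ | k
    · exfalso
      simp only [List.mem_cons, List.not_mem_nil, or_false] at he
      rcases he with rfl | rfl | rfl | rfl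
      · exact absurd h1 (not_lt.2 hb.1)
      · exact absurd h1 (not_lt.2 hb.2)
      · have h2 : crv P 0 2 y < (pz : ℝ) / 1073741824 := h1
        linarith
      · exact absurd h1 (not_lt.2 (hu.2.2.2.trans (kc_le hl)))
    · have k' : NearH (kc kk) ((oa : ℝ) / ob) x (M.v x) 2 y (crv P 0 2 y) (RK 0 2 y x)
        (RL 0 2 y x) (cz z (RC 0 2 y x)) ((aa : ℝ) / 1000) := k
      rw [hz] at k'
      exact k'
  · have p0 : 0 < p := by
      rw [← eX]
      exact hu.2.2.1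
    have r : Rng 0 pz p := by
      refine rng_of ?_ ?_
      · rw [Nat.cast_zero, zero_div]
        exact p0.le
      · rw [zero_add]
        exact hp
    have k := h' p x r hx
    beta_reduce at k
    rcases k with ⟨e, he, h1⟩ | k
    · exfalso
      refine no_ex2 (x := x) (X := onF.v p) hb e he ?_
      rw [← A.Y]
      exact h1
    · obtain ⟨eK, eL, eC⟩ := hq p p0 hp
      have k' : NearH (kc kk) ((oa : ℝ) / ob) x (M.v x) 2 (nd.Y.v p) 1 (K.v p x) (L.v p x)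
        (cz z (C.v p x)) ((aa : ℝ) / 1000) := k
      have k2 := k'.smul p0.le
      rw [mul_one, ← eK, ← eL, A.Y, A.K, A.L] at k2
      have eZ : p * cz z (C.v p x) = cz z (RC 0 2 y x) := by
        rw [← A.C, eC]
        cases z
        · rfl
        · exact mul_zero p
      rw [eZ, hz, ← eX] at k2
      exact k2

/-- The pairs with the abscissa `um / 1000`. -/
theorem OnT.stEG {pc : Piece} {c : Fn3}
    (h : CertSd a b P3 W3 (ftNearE z q M oa ob kk aa) [] idF (cnF um 1000) pc c)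
    (hx : Rng P3 W3 x) (hK : ∀ X y, pc.K.v X y x = TK q X y x)
    (hL : ∀ X y, pc.L.v X y x = TL q X y x) (hC : ∀ X y, c.v X y x = TC q X y x)
    (hz : ∀ X y, cz z (TC q X y x) = TC q X y x)
    (hs : (Nat.ble (3000000 * a ^ 2 + 4611686018427387904 * um ^ 2)
        (4611686018427387904 * 1000000) || Nat.ble a (536870912 * q) ||
      Nat.ble (3000000 * a ^ 2) (4611686018427387904 * t ^ 2)) = true)
    (hs' : (Nat.ble (536870912 * (q + 1)) (a + b) ||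
      Nat.ble (4611686018427387904 * (t' + tt) ^ 2) (3000000 * (a + b) ^ 2)) = true) :
    OnT TK TL TC x q (fun _ => kc um) (fun y X A L C => NearH (kc kk) ((oa : ℝ) / ob) x (M.v x) q
      y X A L C ((aa : ℝ) / 1000)) fun y => (t : ℝ) / 1000 ≤ h0 * y ∧
        h0 * y ≤ (t' : ℝ) / 1000 + kc tt ∧ 1 ≤ qqn (kc um) y := by
  intro y hq hu
  have k := OnT.certX (U := fun y => (t : ℝ) / 1000 ≤ h0 * y ∧
    h0 * y ≤ (t' : ℝ) / 1000 + kc tt ∧ 1 ≤ qqn (kc um) y) (D := kc um)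
    (by rw [kc, Nat.cast_ofNat]) h hx hK hL
    hC (fun y hq hu => ⟨?_, fun e he => absurd he List.not_mem_nil⟩) y hq hu
  · have k' : NearH (kc kk) ((oa : ℝ) / ob) x (M.v x) q y (kc um) (TK q (kc um) y x)
      (TL q (kc um) y x) (cz z (TC q (kc um) y x)) ((aa : ℝ) / 1000) := k
    rw [hz] at k'
    exact k'
  · refine rng_of ?_ ?_
    · rw [Bool.or_eq_true, Bool.or_eq_true] at hs
      rcases hs with (h1 | h1) | h1
      · exact yU_ge hq.nonneg hu.2.2 h1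
      · exact le_c (Nat.le_of_ble_eq_true h1) (q_lo hq)
      · exact lo_of hq.nonneg hu.1 (Nat.le_of_ble_eq_true h1)
    · rw [Bool.or_eq_true] at hs'
      rcases hs' with h1 | h1
      · exact c_le (Nat.le_of_ble_eq_true h1) (q_hi hq)
      · exact hi_ofG hu.2.1 (Nat.le_of_ble_eq_true h1)

/-- **Narrow pairs of a curve which is described in two coordinates**, on both sides of the height
`1`. -/
theorem On.stE2G (hc : CovC P RK RL RC nd nc j q W W' (fun y => h0 * y < 1) x)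
    (hc' : CovC P RK RL RC nd' nc' j q Z Z' (fun y => 1 ≤ h0 * y) x)
    (h : CertNd W W' P3 W3 (ftNearE z q M oa ob kk aa) [⟨0, s⟩, ⟨1, s'⟩, ⟨3, dl⟩] nd nc)
    (h' : CertNd Z Z' P3 W3 (ftNearE z q M oa ob kk aa) [⟨0, s⟩, ⟨1, s'⟩, ⟨3, dl⟩] nd' nc')
    (hx : Rng P3 W3 x) (hz : ∀ y, cz z (RC j q y x) = RC j q y x)
    (hs : stXG tt t t' s s' = true) (hl : Nat.ble (1073741824 * um) (1000 * dl) = true) :
    On P RK RL RC x j q (fun y X A L C => NearH (kc kk) ((oa : ℝ) / ob) x (M.v x) q y X A L C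
      ((aa : ℝ) / 1000)) fun y => (t : ℝ) / 1000 ≤ h0 * y ∧
        h0 * y ≤ (t' : ℝ) / 1000 + kc tt ∧ 0 < crv P j q y ∧ crv P j q y ≤ kc um := by
  intro y hq hd hu
  have k' : NearH (kc kk) ((oa : ℝ) / ob) x (M.v x) q y (crv P j q y) (RK j q y x) (RL j q y x)
      (cz z (RC j q y x)) ((aa : ℝ) / 1000) := by
    rcases lt_or_ge (h0 * y) 1 with hv | hv
    · exact On.certV (U := fun y => ((t : ℝ) / 1000 ≤ h0 * y ∧
        h0 * y ≤ (t' : ℝ) / 1000 + kc tt ∧ 0 < crv P j q y ∧ crv P j q y ≤ kc um) ∧ h0 * y < 1)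
        hc h hx (fun y hu => hu.2) (fun y hq hu => no_ex3 (stXG_bd hq ⟨hu.1.1, hu.1.2.1⟩ hs)
          (not_lt.2 (hu.1.2.2.2.trans (kc_le hl)))) y hq hd ⟨hu, hv⟩
    · exact On.certV (U := fun y => ((t : ℝ) / 1000 ≤ h0 * y ∧
        h0 * y ≤ (t' : ℝ) / 1000 + kc tt ∧ 0 < crv P j q y ∧ crv P j q y ≤ kc um) ∧ 1 ≤ h0 * y)
        hc' h' hx (fun y hu => hu.2) (fun y hq hu => no_ex3 (stXG_bd hq ⟨hu.1.1, hu.1.2.1⟩ hs)
          (not_lt.2 (hu.1.2.2.2.trans (kc_le hl)))) y hq hd ⟨hu, hv⟩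
  rw [hz] at k'
  exact k'

end

/-! ### The final form -/

section

variable {n : ℕ} {P : Pos n} {x μ th : ℝ} {f : ℝ → ℝ} {vR vL vC : ℝ → Fin (n + 1) → ℝ}
  {RK RL RC : Fin (n + 1) → ℕ → ℝ → ℝ → ℝ} {TK TL TC : ℕ → ℝ → ℝ → ℝ → ℝ}

/-- **The inequalities with the window from the quarters.** `HL`, `BL` are the steps. -/
theorem FV.winNH (V : FV P x μ th f vR vL vC RK RL RC TK TL TC) {τ η K e D0 UM : ℝ}
    {HL BL : List (ℕ × ℕ)} {hd' bd' lo hi : ℕ} (g : Geo τ η D0 UM (kc lo) (kc hi))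
    (h0' : ∀ j, On P RK RL RC x j 0 (WallP th x μ 0) fun y => τ ≤ h0 * y)
    (h1' : ∀ j, On P RK RL RC x j 1 (WallP th x μ 1) fun _ => True)
    (h2' : ∀ j, 1 < P.ρ j → On P RK RL RC x j 2 (WallP th x μ 2) fun y =>
      h0 * y ≤ 1 ∧ 1 - G y ≤ crv P j 2 y)
    (hs : ∀ y : ℝ, 1 ≤ y → h0 * y ≤ 1 → GV P x μ vR vL vC f 2 y (1 - G y))
    (flat : ∀ j, On P RK RL RC x j 0 (FlatG e th x μ 0) fun y => h0 * y ≤ τ)
    (left : ∀ j, On P RK RL RC x j 0 (WallP th x μ 0) fun y => h0 * y ≤ τ ∧ crv P j 0 y ≤ D0)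
    (left0 : OnT TK TL TC x 0 (fun _ => D0) (WallP th x μ 0) fun y => h0 * y ≤ τ)
    (high : ∀ j q, StpAll (fun t t' a => On P RK RL RC x j q
      (fun y X A L C => HighG K th x μ q y X A L C ((a : ℝ) / 1000) D0) fun y =>
        t ≤ h0 * y ∧ h0 * y ≤ t' + τ) 1700 800 HL hd')
    (high0 : ∀ T : ℝ, 97 / 100 ≤ T → T ≤ 17 / 10 → 1 ≤ stp HL hd' T * D0)
    (far : ∀ j q, StpAll (fun t t' a => On P RK RL RC x j q
      (fun y X A L C => FarG K th x μ q y X A L C ((a : ℝ) / 1000) D0) fun y =>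
        t ≤ h0 * y ∧ h0 * y ≤ t' + τ ∧ D0 ≤ crv P j q y) hi lo BL bd')
    (far0 : ∀ q, StpAll (fun t t' a => OnT TK TL TC x q (fun _ => D0)
      (fun y X A L C => FarG K th x μ q y X A L C ((a : ℝ) / 1000) D0) fun y =>
        t ≤ h0 * y ∧ h0 * y ≤ t' + τ ∧ qqn D0 y ≤ 3) hi lo BL bd')
    (near : ∀ j q, StpAll (fun t t' a => On P RK RL RC x j q
      (fun y X A L C => NearH K th x μ q y X A L C ((a : ℝ) / 1000)) fun y =>
        t ≤ h0 * y ∧ h0 * y ≤ t' + τ ∧ 0 < crv P j q y ∧ crv P j q y ≤ UM) hi lo BL bd')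
    (near0 : ∀ q, StpAll (fun t t' a => OnT TK TL TC x q (fun _ => UM)
      (fun y X A L C => NearH K th x μ q y X A L C ((a : ℝ) / 1000)) fun y =>
        t ≤ h0 * y ∧ h0 * y ≤ t' + τ ∧ 1 ≤ qqn UM y) hi lo BL bd') :
    WinNH P x μ th f vR vL vC RK RL (smT h0⁻¹ RC) TK TL (fun q X y x => h0⁻¹ * TC q X y x) τ K e UM
      (kc lo) (kc hi) D0 (stp HL hd') (stp BL bd') := by
  have hp := h0_pos
  have hsq := h0_sq
  have hτ := g.t1
  have hD := g.d1
  have hD' := g.d2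
  have e800 : ((800 : ℕ) : ℝ) / 1000 = 4 / 5 := by norm_num
  have e1700 : ((1700 : ℕ) : ℝ) / 1000 = 17 / 10 := by norm_num
  have cC : ∀ (j : Fin (n + 1)) (q : ℕ) (y : ℝ), h0 * smT h0⁻¹ RC j q y x = RC j q y x :=
    fun j q y => h0_cancel _
  refine ⟨stp_nonneg _ _, stp_nonneg _ _, ?_, hs, ?_, ?_, ?_, ?_, high0, ?_, ?_, ?_, ?_⟩
  · intro j q y hq hd hT3 hT h
    have q3 := q_lt_three hq hT
    match q, hq, q3 with
    | 0, hq, _ => exact V.gv hq hd (h0' j y hq hd hT3)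
    | 1, hq, _ => exact V.gv hq hd (h1' j y hq hd trivial)
    | 2, hq, _ =>
      obtain ⟨-, k1, k2⟩ := node_two hq hd hT h
      exact V.gv hq hd (h2' j k1 y hq hd ⟨hT, k2⟩)
  · intro j y hq hd hT3
    rw [cC]
    exact flat j y hq hd hT3
  · intro j y hq hd hT3 hX
    exact V.gv hq hd (left j y hq hd ⟨hT3, hX⟩)
  · intro y hy hT3
    have hy' : y ≤ 1 / 20 := by nlinarith
    refine V.gvT (inQ_zero hy (hT3.trans hτ)) ?_ ?_ (left0 y (inQ_zero hy (hT3.trans hτ)) hT3)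
    · unfold qqn
      nlinarith [sq_nonneg y]
    · unfold qqn
      nlinarith [sq_nonneg y]
  · intro j q y T hq hd t1 t2 t3 t4
    rw [cC]
    have k := StpAll.use (Q := fun T a => ∀ y, InQ q y → P.dm j (h0 * y) → T ≤ h0 * y →
      h0 * y ≤ T + τ → HighG K th x μ q y (crv P j q y) (RK j q y x) (RL j q y x) (RC j q y x)
        a D0) ((high j q).mono fun t t' a h T g1 g2 y hq hd t3 t4 =>
          h y hq hd ⟨by linarith, by linarith⟩) T (by rw [e800]; exact t1)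
        (by rw [e1700]; exact t2)
    exact k y hq hd t3 t4
  · intro j q y T hq hd t1 t2 t3 t4 hX
    rw [cC]
    have k := StpAll.use (Q := fun T a => ∀ y, InQ q y → P.dm j (h0 * y) → T ≤ h0 * y →
      h0 * y ≤ T + τ → D0 ≤ crv P j q y → FarG K th x μ q y (crv P j q y) (RK j q y x)
        (RL j q y x) (RC j q y x) a D0) ((far j q).mono fun t t' a h T g1 g2 y hq hd t3 t4 hX =>
          h y hq hd ⟨by linarith, by linarith, hX⟩) T t1 t2
    exact k y hq hd t3 t4 hX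
  · intro q y T hq t1 t2 t3 t4 hX
    have k := StpAll.use (Q := fun T a => ∀ y, InQ q y → T ≤ h0 * y →
      h0 * y ≤ T + τ → qqn D0 y ≤ 3 → FarG K th x μ q y D0 (TK q D0 y x) (TL q D0 y x)
        (TC q D0 y x) a D0) ((far0 q).mono fun t t' a h T g1 g2 y hq t3 t4 hX =>
          h y hq ⟨by linarith, by linarith, hX⟩) T t1 t2
    rw [h0_cancel]
    exact k y hq t3 t4 hX
  · intro j q y T hq hd t1 t2 t3 t4 hX0 hX
    rw [cC]
    have k := StpAll.use (Q := fun T a => ∀ y, InQ q y → P.dm j (h0 * y) → T ≤ h0 * y →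
      h0 * y ≤ T + τ → 0 < crv P j q y → crv P j q y ≤ UM → NearH K th x μ q y
        (crv P j q y) (RK j q y x) (RL j q y x) (RC j q y x) a)
        ((near j q).mono fun t t' a h T g1 g2 y hq hd t3 t4 hX0 hX =>
          h y hq hd ⟨by linarith, by linarith, hX0, hX⟩) T t1 t2
    exact k y hq hd t3 t4 hX0 hX
  · intro q y T hq t1 t2 t3 t4 hX
    have k := StpAll.use (Q := fun T a => ∀ y, InQ q y → T ≤ h0 * y →
      h0 * y ≤ T + τ → 1 ≤ qqn UM y → NearH K th x μ q y UM (TK q UM y x)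
        (TL q UM y x) (TC q UM y x) a) ((near0 q).mono fun t t' a h T g1 g2 y hq t3 t4
          hX => h y hq ⟨by linarith, by linarith, hX⟩) T t1 t2
    rw [h0_cancel]
    exact k y hq t3 t4 hX

end

section

variable {n : ℕ} {P : Pos n} {x th : ℝ} {vA vB vX vC : ℝ → Fin (n + 1) → ℝ} {N0 : ℕ}
  {a E o κ : ℝ} {f : ℝ → ℝ} {τ η K e K' e' D0 UM D1 UM1 lo hi : ℝ} {al be al' be' : ℝ → ℝ}
  {RR RL RC RR' RL' RC' : Fin (n + 1) → ℕ → ℝ → ℝ → ℝ} {TR TL TC TR' TL' TC' : ℕ → ℝ → ℝ → ℝ → ℝ}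

/-- The far vertex with the window. -/
theorem winU_farH {T : Tab} {C : ℝ → ℝ → ℝ} {f : ℝ → ℝ}
    (eA : T.A = ker P.cur.nodes vA fun _ _ => 0) (eX : T.Xi = ker P.cur.nodes vX fun _ _ => 0)
    (V : VPar P x 0 th (fun _ => 0) fun _ _ => 0) (X : Vx P x vA vX (fun _ _ => 0) RR RL RC TR TL TC)
    (W : WinNH P x 0 th (fun _ => 0) vA vX (fun _ _ => 0) RR RL RC TR TL TC τ K e UM lo hi D0 al be)
    (g : Geo τ η D0 UM lo hi) (hK : η + τ ≤ K * h0) (he : e * h0 ≤ η) :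
    Pool.Agent.Strip051.LC.FG.WinU (U0 T C f (kE (h0 * x)) (h0 * x)) (NodeAt P.cur.nodes) τ η D0 UM
      lo hi al be := by
  have h := W.winU V X g hK he
  rw [UP_zero] at h
  rw [U0_eq, eA, eX]
  exact h

/-- **Two kernels, window.** -/
theorem certS_winH (h : CertS P.cur vA vB vX N0 a κ (h0 * x)) (hκ : κ = kE (h0 * x)) (hN : 3 ≤ N0)
    (VF : VPar P x 0 1 (fun _ => 0) fun _ _ => 0)
    (XF : Vx P x vA vX (fun _ _ => 0) RR RL RC TR TL TC)
    (WF : WinNH P x 0 1 (fun _ => 0) vA vX (fun _ _ => 0) RR RL RC TR TL TC τ K e UM lo hi D0 al be)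
    (VN : VPar P x (mu N0 (h0 * x)) 1 (fun _ => 0) fun _ _ => 0)
    (XN : Vx P x vB vX (fun _ _ => 0) RR' RL' RC' TR' TL' TC')
    (WN : WinNH P x (mu N0 (h0 * x)) 1 (fun _ => 0) vB vX (fun _ _ => 0) RR' RL' RC' TR' TL' TC'
      τ K' e' UM1 lo hi D1 al' be')
    (g0 : Geo τ η D0 UM lo hi) (hK : η + τ ≤ K * h0) (he : e * h0 ≤ η)
    (g1 : Geo τ η D1 UM1 lo hi) (hK' : η + τ ≤ K' * h0) (he' : e' * h0 ≤ η) :
    RowOK ((tab P.cur.nodes vA vB vX).flat N0 κ (h0 * x)) N0 (h0 * x) := by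
  subst hκ
  refine Pool.Agent.Strip051.LC.FG.rowWin2 (al' := al') (be' := be') h.fixSm hN g0 g1
    (winU_farH rfl rfl VF XF WF g0 hK he) ?_
  have k := WN.winU VN XN g1 hK' he'
  rw [UP_zero] at k
  rw [UN_eq]
  exact k

/-- **Three kernels, window.** -/
theorem certE_winH (h : CertE P.cur vA vX vC f N0 a κ (h0 * x) E o) (hκ : κ = kE (h0 * x))
    (hN : 3 ≤ N0) (VF : VPar P x 0 1 (fun _ => 0) fun _ _ => 0)
    (XF : Vx P x vA vX (fun _ _ => 0) RR RL RC TR TL TC)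
    (WF : WinNH P x 0 1 (fun _ => 0) vA vX (fun _ _ => 0) RR RL RC TR TL TC τ K e UM lo hi D0 al be)
    (VN : VPar P x (mu N0 (h0 * x)) th f vC)
    (XN : Vx P x (fun T i => E * vA T i) vX vC RR' RL' RC' TR' TL' TC')
    (WN : WinNH P x (mu N0 (h0 * x)) th f (fun T i => E * vA T i) vX vC RR' RL' RC' TR' TL' TC'
      τ K' e' UM1 lo hi D1 al' be')
    (g0 : Geo τ η D0 UM lo hi) (hK : η + τ ≤ K * h0) (he : e * h0 ≤ η)
    (g1 : Geo τ η D1 UM1 lo hi) (hK' : η + τ ≤ K' * h0) (he' : e' * h0 ≤ η) :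
    RowOK ((tab P.cur.nodes vA (fun T i => E * vA T i) vX).flat3 (ker P.cur.nodes vC fun _ _ => 0)
      f N0 κ (h0 * x)) N0 (h0 * x) := by
  subst hκ
  exact Pool.Agent.Strip051.LC.FG.rowWin3 h.fixDir hN g0 g1
    (winU_farH rfl rfl VF XF WF g0 hK he) (WN.winU VN XN g1 hK' he')

end

end Pool.Agent.Strip051.PB
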