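import Pool.Agent.Strip051.PB.FlTg

/-! # The tight unit pair with a correction of the third kernel

Near the tight pair the third kernel on the unit circle is the closed form and
`3 / 4 * (y - x) * κ`, where `κ` is a function of `x`. -/

namespace Pool.Agent.Strip051.PB

open Pool.Agent.Strip051.LC.Floor (G En Qn fS GUn epn ehn rhn Aan omn lmn lhn kan k3n k3d zen hbn hfl
  hml hfh hmh unit_low unit_high G_nonneg G_sq)

section

variable {x y δ μ κ w : ℝ} {q : ℕ}

theorem En_epn (x0 : 0 < x) (x1 : x < 1) : En x = x * epn x := by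
  have h := G_sq (y := x) (by nlinarith)
  have h2 := G_nonneg x
  have h3 : (1 : ℝ) + G x ≠ 0 := by linarith
  unfold Pool.Agent.Strip051.LC.Floor.En epn
  field_simp
  nlinarith

theorem En_ehn (x0 : 0 < x) (x1 : x < 1) : En x = (1 - x) * ehn x := by
  have h := G_sq (y := x) (by nlinarith)
  have h2 := G_nonneg x
  have h3 : G x + 1 / 2 ≠ 0 := by linarith
  unfold Pool.Agent.Strip051.LC.Floor.En ehn
  field_simp
  nlinarith

/-- The closed forms on the unit circle with the correction of the third kernel. -/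
structure TgK (x μ κ : ℝ) (q : ℕ) (y δ A L C : ℝ) : Prop where
  A : A = tq q y * ((1 + μ * GUn x) * kan y δ)
  L : L = zen y x δ
  C : C = En x * (k3d y δ + 3 / 4 * (y - x) * κ)

/-- **Below the tight pair.** -/
theorem tgk_low (hx1 : x < 1) (h : InQ q y) (hq : q < 2) (hy : 0 < y) (hyx : y ≤ x)
    (hμ : 0 ≤ μ) (hE : 0 ≤ En x) {A L C : ℝ} (ht : TgK x μ κ q y δ A L C)
    (hk : 0 ≤ k3d y δ + 3 / 4 * (y - x) * κ) {J : ℝ} (hJ : J ≤ (y - x) + w * (y - x) ^ 2 / x)
    (hr : 0 ≤ hfl y x δ + μ * (hml y x δ w - 3 / 4 * κ * (En x + w * epn x * (y - x)))) :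
    0 ≤ fS x μ y (G y) (En x * A) L (mnQ q x y) - μ * (C * J) := by
  have hx : 0 < x := by linarith
  have key := unit_low (μ := μ) (δ := δ) (w := w) hx hx1 hy (by linarith)
  have m := tq_mn_low hx1 h hq hy hyx
  have e := En_GUn hx hx1
  have ee := En_epn hx hx1
  have hne : x ≠ 0 := hx.ne'
  have hC : 0 ≤ C := by
    rw [ht.C]
    exact mul_nonneg hE hk
  have k1 : μ * (C * J) ≤ μ * (C * ((y - x) + w * (y - x) ^ 2 / x)) :=
    mul_le_mul_of_nonneg_left (mul_le_mul_of_nonneg_left hJ hC) hμ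
  have k2 : En x * (tq q y * ((1 + μ * GUn x) * kan y δ)) * mnQ q x y =
      (En x + μ * Qn x) * kan y δ * (y * (y - x) / x) := by
    rw [← m, ← e]
    ring
  have k3 : C * ((y - x) + w * (y - x) ^ 2 / x) =
      En x * k3d y δ * ((y - x) + w * (y - x) ^ 2 / x) +
        (y - x) ^ 2 * (3 / 4 * κ * (En x + w * epn x * (y - x))) := by
    rw [ht.C]
    have e2 : w * (y - x) ^ 2 / x * En x = w * (y - x) ^ 2 * epn x := by
      rw [ee]
      field_simp
    linear_combination (3 / 4 * (y - x) * κ) * e2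
  unfold fS
  rw [ht.A, ht.L, k2]
  have k5 : 0 ≤ (y - x) ^ 2 *
    (hfl y x δ + μ * (hml y x δ w - 3 / 4 * κ * (En x + w * epn x * (y - x)))) :=
    mul_nonneg (sq_nonneg _) hr
  have k6 : (y - x) ^ 2 *
      (hfl y x δ + μ * (hml y x δ w - 3 / 4 * κ * (En x + w * epn x * (y - x)))) =
      (y - x) ^ 2 * (hfl y x δ + μ * hml y x δ w) -
        μ * ((y - x) ^ 2 * (3 / 4 * κ * (En x + w * epn x * (y - x)))) := by
    ring
  rw [k6, ← key] at k5
  rw [k3, mul_add] at k1
  linarith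

/-- **Above the tight pair.** -/
theorem tgk_high (hx : 0 < x) (h : InQ q y) (hq : q < 2) (hy1 : y < 1) (hxy : x ≤ y)
    (hμ : 0 ≤ μ) (hE : 0 ≤ En x) {A L C : ℝ} (ht : TgK x μ κ q y δ A L C)
    (hk : 0 ≤ k3d y δ + 3 / 4 * (y - x) * κ) {J : ℝ}
    (hJ : J ≤ (y - x) - w * (y - x) ^ 2 / (1 - x))
    (hr : 0 ≤ hfh y x δ + μ * (hmh y x δ w - 3 / 4 * κ * (En x - w * ehn x * (y - x)))) :
    0 ≤ fS x μ y (G y) (En x * A) L (mnQ q x y) - μ * (C * J) := by
  have hx1 : x < 1 := by linarith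
  have key := unit_high (μ := μ) (δ := δ) (w := w) hx hx1 (by linarith) hy1
  have m := tq_mn_high hx hx1 h hq hy1 hxy
  have e := En_GUn hx hx1
  have ee := En_ehn hx hx1
  have hne : 1 - x ≠ 0 := by linarith
  have hC : 0 ≤ C := by
    rw [ht.C]
    exact mul_nonneg hE hk
  have k1 : μ * (C * J) ≤ μ * (C * ((y - x) - w * (y - x) ^ 2 / (1 - x))) :=
    mul_le_mul_of_nonneg_left (mul_le_mul_of_nonneg_left hJ hC) hμ
  have k2 : En x * (tq q y * ((1 + μ * GUn x) * kan y δ)) * mnQ q x y =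
      (En x + μ * Qn x) * kan y δ * ((1 - y) * (y - x) / (1 - x)) := by
    rw [← m, ← e]
    ring
  have k3 : C * ((y - x) - w * (y - x) ^ 2 / (1 - x)) =
      En x * k3d y δ * ((y - x) - w * (y - x) ^ 2 / (1 - x)) +
        (y - x) ^ 2 * (3 / 4 * κ * (En x - w * ehn x * (y - x))) := by
    rw [ht.C]
    have e2 : w * (y - x) ^ 2 / (1 - x) * En x = w * (y - x) ^ 2 * ehn x := by
      rw [ee]
      field_simp
    linear_combination (-(3 / 4 * (y - x) * κ)) * e2
  unfold fS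
  rw [ht.A, ht.L, k2]
  have k5 : 0 ≤ (y - x) ^ 2 *
    (hfh y x δ + μ * (hmh y x δ w - 3 / 4 * κ * (En x - w * ehn x * (y - x)))) :=
    mul_nonneg (sq_nonneg _) hr
  have k6 : (y - x) ^ 2 *
      (hfh y x δ + μ * (hmh y x δ w - 3 / 4 * κ * (En x - w * ehn x * (y - x)))) =
      (y - x) ^ 2 * (hfh y x δ + μ * hmh y x δ w) -
        μ * ((y - x) ^ 2 * (3 / 4 * κ * (En x - w * ehn x * (y - x)))) := by
    ring
  rw [k6, ← key] at k5
  rw [k3, mul_add] at k1
  linarith

end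

/-! ### Packed side -/

/-- `k3d y δ + 3 / 4 * (y - x) * κ` -/
noncomputable def k3kT (y x d k : ℕ) : ℕ :=
  padd (k3dT y d) (pmul (pnorm (pscale 3 4 (psub y x))) k)

noncomputable def hmlkT (y x d w k : ℕ) : ℕ :=
  psub (hmlT y x d w) (pmul (pscale 3 4 k)
    (pnorm (padd (enT x) (pmul (pnorm (pmul w (epnT x))) (pnorm (psub y x))))))

noncomputable def hmhkT (y x d w k : ℕ) : ℕ :=
  psub (hmhT y x d w) (pmul (pscale 3 4 k)
    (pnorm (psub (enT x) (pmul (pnorm (pmul w (ehnT x))) (pnorm (psub y x))))))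

section

variable {E : Pt} {X Y D W K : ℕ} {x y d w k : ℝ}

theorem enc_k3kT (hy : Enc E Y y) (hx : Enc E X x) (hd : Enc E D d) (hk : Enc E K k) :
    Enc E (k3kT Y X D K) (k3d y d + 3 / 4 * (y - x) * k) :=
  enc_add (enc_k3dT hy hd) (enc_mul (enc_norm (enc_34 (enc_sub hy hx))) hk)

theorem enc_hmlkT (hy : Enc E Y y) (hx : Enc E X x) (hd : Enc E D d) (hw : Enc E W w)
    (hk : Enc E K k) : Enc E (hmlkT Y X D W K)
      (hml y x d w - 3 / 4 * k * (En x + w * epn x * (y - x))) :=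
  enc_sub (enc_hmlT hy hx hd hw) (enc_mul (enc_34 hk) (enc_norm (enc_add (enc_enT hx)
    (enc_mul (enc_norm (enc_mul hw (enc_epnT hx))) (enc_norm (enc_sub hy hx))))))

theorem enc_hmhkT (hy : Enc E Y y) (hx : Enc E X x) (hd : Enc E D d) (hw : Enc E W w)
    (hk : Enc E K k) : Enc E (hmhkT Y X D W K)
      (hmh y x d w - 3 / 4 * k * (En x - w * ehn x * (y - x))) :=
  enc_sub (enc_hmhT hy hx hd hw) (enc_mul (enc_34 hk) (enc_norm (enc_sub (enc_enT hx)
    (enc_mul (enc_norm (enc_mul hw (enc_ehnT hx))) (enc_norm (enc_sub hy hx))))))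

end

/-- The condition near the tight pair with the correction, `lo` = below it. -/
def TkP (lo : Bool) (μ w κ δ x y : ℝ) : Prop :=
  0 ≤ k3d y δ + 3 / 4 * (y - x) * κ ∧
    cond lo (0 ≤ hfl y x δ + μ * (hml y x δ w - 3 / 4 * κ * (En x + w * epn x * (y - x))))
      (0 ≤ hfh y x δ + μ * (hmh y x δ w - 3 / 4 * κ * (En x - w * ehn x * (y - x))))

/-- the test near the tight pair with the correction, `w = wa / wb` -/
noncomputable def ftTk (lo : Bool) (M Kp : Fn1) (D : Fn2) (wa wb : ℕ) : FTst where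
  t x y _ _ _ _ := (fun d w k => band (ppos (k3kT y x d k)) (ppos (sl lo
    (padd (hflT y x d) (pmul (M.t x) (pnorm (hmlkT y x d w k))))
    (padd (hfhT y x d) (pmul (M.t x) (pnorm (hmhkT y x d w k))))))) (D.t y x) (prat wa wb) (Kp.t x)
  P x y _ _ _ _ := TkP lo (M.v x) ((wa : ℝ) / wb) (Kp.v x) (D.v y x) x y
  snd := by
    intro E X Y XX A L C x y X' a l c hx hy _ _ _ _ h
    obtain ⟨h1, h2⟩ := band_true h
    have hd := D.enc hy hx
    have hw := enc_rat E wa wb
    have hk := Kp.enc hx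
    have k := ppos_sound (enc_sl lo (enc_add (enc_hflT hy hx hd) (enc_mul (M.enc hx)
      (enc_norm (enc_hmlkT hy hx hd hw hk)))) (enc_add (enc_hfhT hy hx hd) (enc_mul (M.enc hx)
        (enc_norm (enc_hmhkT hy hx hd hw hk))))) h2
    have k1 := (ppos_sound (enc_k3kT hy hx hd hk) h1).le
    clear h1 h2 h
    refine ⟨k1, ?_⟩
    cases lo
    · exact k.le
    · exact k.le

end Pool.Agent.Strip051.PB
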