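import Pool.Agent.Strip051.PB.FlAsm
import Pool.Agent.Strip051.PB.FlKs

/-! # Assembly of the rows at the floor, three kernels and window -/

namespace Pool.Agent.Strip051.PB

open Pool.Agent.StripNear Pool.Agent.StripSquare Pool.Agent.Strip051.Sweep
open Pool.Agent.Strip051.LC Pool.Agent.Strip051.LC.Exact
open Pool.Agent.Strip051.LC.Floor (G En Qn fS GUn epn ehn kan k3d k3n zen hfl hml hfh hmh G_nonneg
  G_sq)

/-- the node with the kernel multiplied by a function of `x` -/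
noncomputable abbrev Node.sc (E : Fn1) (nd : Node) : Node := ⟨nd.Y, nd.X, Fn2.sc E nd.K, nd.L⟩

section

variable {n : ℕ} {P : Pos n} {RK RL RC : Fin (n + 1) → ℕ → ℝ → ℝ → ℝ} {x th : ℝ}
  {TK TL TC : ℕ → ℝ → ℝ → ℝ → ℝ} {q : ℕ} {j : Fin (n + 1)} {Q : ℝ → ℝ → ℝ → ℝ → ℝ → Prop}
  {U : ℝ → Prop} {T : FTst} {nd : Node} {nc : Fn2} {W W' P3 W3 : ℕ} {M : Fn1} {L : List Fx}

/-- The node of the near vertex with three kernels. -/
theorem AtC.three {y p : ℝ} (h : AtC P RK RL RC nd nc j q y p x) (E e : Fn1) :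
    AtC P (smT (E.v x) RK) RL (smT (e.v x) RC) (Node.sc E nd) (Fn2.sc e nc) j q y p x where
  Y := h.Y
  X := h.X
  K := by
    show E.v x * nd.K.v p x = E.v x * RK j q y x
    rw [h.K]
  L := h.L
  C := by
    show e.v x * nc.v p x = e.v x * RC j q y x
    rw [h.C]

theorem AtC.far {y p : ℝ} (h : AtC P RK RL RC nd nc j q y p x) :
    AtC P RK RL Z0 nd cZ j q y p x := AtC.zero h.toAt

theorem CovC.far {V : ℝ → Prop} (h : CovC P RK RL RC nd nc j q W W' V x) :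
    CovC P RK RL Z0 nd cZ j q W W' V x := fun y hy hv =>
  let ⟨p, A, r⟩ := h y hy hv
  ⟨p, A.far, r⟩

theorem CovC.three {V : ℝ → Prop} (h : CovC P RK RL RC nd nc j q W W' V x) (E e : Fn1) :
    CovC P (smT (E.v x) RK) RL (smT (e.v x) RC) (Node.sc E nd) (Fn2.sc e nc) j q W W' V x :=
  fun y hy hv =>
    let ⟨p, A, r⟩ := h y hy hv
    ⟨p, A.three E e, r⟩

/-- From the certificate of a node in the coordinate `y`, exclusions which do not hold. -/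
theorem On.certX (hA : ∀ y, OnC j q y → AtC P RK RL RC nd nc j q y y x)
    (h : CertNd W W' P3 W3 T L nd nc) (hx : Rng P3 W3 x)
    (hU : ∀ y, InQ q y → U y → Rng W W' y ∧ ∀ e ∈ L, ¬ e.P x y (crv P j q y)) :
    On P RK RL RC x j q (T.P x) U := by
  refine On.cert (covC_rng hA) h hx (fun y hq hu => (hU y hq hu).1) fun e he => ?_
  exact On.none fun y hq _ hu => (hU y hq hu.1).2 e he hu.2

/-- The same for a node in another coordinate. -/
theorem On.certP (hc : CovC P RK RL RC nd nc j q W W' (fun _ => True) x)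
    (h : CertNd W W' P3 W3 T L nd nc) (hx : Rng P3 W3 x)
    (hU : ∀ y, InQ q y → U y → ∀ e ∈ L, ¬ e.P x y (crv P j q y)) :
    On P RK RL RC x j q (T.P x) U := by
  refine On.cert hc h hx (fun _ _ _ => trivial) fun e he => ?_
  exact On.none fun y hq _ hu => hU y hq hu.1 e he hu.2

/-- Points of the third side. -/
theorem OnT.certX {a b : ℕ} {pc : Piece} {c : Fn3} {D : ℝ} (hD : ((a : ℝ) / b) = D)
    (h : CertSd W W' P3 W3 T L idF (cnF a b) pc c) (hx : Rng P3 W3 x)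
    (hK : ∀ X y, pc.K.v X y x = TK q X y x) (hL : ∀ X y, pc.L.v X y x = TL q X y x)
    (hC : ∀ X y, c.v X y x = TC q X y x)
    (hU : ∀ y, InQ q y → U y → Rng W W' y ∧ ∀ e ∈ L, ¬ e.P x y D) :
    OnT TK TL TC x q (fun _ => D) (T.P x) U := by
  refine OnT.cert h hx (fun y hq hu => ⟨y, (hU y hq hu).1, rfl, hD⟩) hK hL hC fun e he => ?_
  intro y hq hu
  exact absurd hu.2 ((hU y hq hu.1).2 e he)

/-- No point of the quarter. -/
theorem On.noneQ (h : ∀ y, InQ q y → ¬ U y) : On P RK RL RC x j q Q U :=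
  On.none fun y hq _ hu => h y hq hu

theorem On.qbig (q : ℕ) : On P RK RL RC x j (q + 4) Q U := On.none fun _ hq _ _ => hq.elim

theorem OnT.noneQ {D : ℝ → ℝ} (h : ∀ y, InQ q y → ¬ U y) : OnT TK TL TC x q D Q U :=
  fun y hq hu => absurd hu (h y hq)

theorem OnT.qbig {D : ℝ → ℝ} (q : ℕ) : OnT TK TL TC x (q + 4) D Q U := fun _ hq _ => hq.elim

theorem OnT.imp {D : ℝ → ℝ} {U' : ℝ → Prop} (h : OnT TK TL TC x q D Q U)
    (hU : ∀ y, InQ q y → U' y → U y) : OnT TK TL TC x q D Q U' :=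
  fun y h1 h2 => h y h1 (hU y h1 h2)

/-- The inequality for flat pairs from the inequalities at the wall. -/
theorem On.flat_of {μ : ℝ} (hm : On P RK RL RC x j q (MonoQ x μ q) U)
    (hw : On P RK RL RC x j q (WallP th x μ q) U) :
    On P RK RL RC x j q (FlatP th x μ q) U := by
  intro y h1 h2 h3
  have a : 0 ≤ grL x μ q y _ _ _ _ := hm y h1 h2 h3
  obtain ⟨-, b, -⟩ := hw y h1 h2 h3
  exact ⟨a, by linarith⟩

theorem On.ofNdC (hA : ∀ y, OnC j q y → AtC P RK RL RC nd nc j q y y x)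
    (h : CertNd W W' P3 W3 T [] nd nc) (hx : Rng P3 W3 x) :
    On P RK RL RC x j q (T.P x) (Rng W W') := On.ofNd hA h hx

end

/-! ### Heights -/

section

variable {x y : ℝ}

theorem y_ge_of {t s : ℕ} (hy0 : 0 ≤ y) (h : (t : ℝ) / 1000 ≤ h0 * y)
    (hs : 3 * 1000 ^ 2 * s ^ 2 ≤ 4 * 1073741824 ^ 2 * t ^ 2) : (s : ℝ) / 1073741824 ≤ y := by
  have hs' : 3 * 1000 ^ 2 * (s : ℝ) ^ 2 ≤ 4 * 1073741824 ^ 2 * (t : ℝ) ^ 2 := by exact_mod_cast hs
  have hq := h0_sq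
  have t0 : 0 ≤ (t : ℝ) / 1000 := by positivity
  have h2 : ((t : ℝ) / 1000) ^ 2 ≤ 3 / 4 * y ^ 2 := by
    have := pow_le_pow_left₀ t0 h 2
    rw [mul_pow, hq] at this
    exact this
  have h3 : ((s : ℝ) / 1073741824) ^ 2 ≤ y ^ 2 := by
    rw [div_pow] at h2 ⊢
    rw [div_le_iff₀ (by positivity)] at h2 ⊢
    nlinarith
  exact abs_le_abs_of_nonneg_left h3 hy0 (by positivity)
where
  abs_le_abs_of_nonneg_left {a b : ℝ} (h : a ^ 2 ≤ b ^ 2) (hb : 0 ≤ b) (_ha : 0 ≤ a) : a ≤ b :=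
    le_of_sq_le_sq h hb
  le_of_sq_le_sq {a b : ℝ} (h : a ^ 2 ≤ b ^ 2) (hb : 0 ≤ b) : a ≤ b := by
    by_contra hn
    have := not_le.1 hn
    nlinarith

theorem y_le_of {t s : ℕ} (h : h0 * y ≤ (t : ℝ) / 1000)
    (hs : 4 * 1073741824 ^ 2 * t ^ 2 ≤ 3 * 1000 ^ 2 * s ^ 2) : y ≤ (s : ℝ) / 1073741824 := by
  rcases le_or_gt y 0 with g | g
  · exact g.trans (by positivity)
  have hs' : 4 * 1073741824 ^ 2 * (t : ℝ) ^ 2 ≤ 3 * 1000 ^ 2 * (s : ℝ) ^ 2 := by exact_mod_cast hs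
  have hq := h0_sq
  have hp := h0_pos
  have h2 : 3 / 4 * y ^ 2 ≤ ((t : ℝ) / 1000) ^ 2 := by
    have := pow_le_pow_left₀ (by positivity) h 2
    rw [mul_pow, hq] at this
    exact this
  have h3 : y ^ 2 ≤ ((s : ℝ) / 1073741824) ^ 2 := by
    rw [div_pow] at h2 ⊢
    rw [le_div_iff₀ (by positivity)] at h2 ⊢
    nlinarith
  have s0 : 0 ≤ (s : ℝ) / 1073741824 := by positivity
  by_contra hn
  have := not_le.1 hn
  nlinarith

/-- The heights of a step. -/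
theorem step_y {t t' s s' : ℕ} (hy0 : 0 ≤ y)
    (h : (t : ℝ) / 1000 ≤ h0 * y ∧ h0 * y ≤ (t' : ℝ) / 1000 + 3 / 100)
    (hs : 3 * 1000 ^ 2 * s ^ 2 ≤ 4 * 1073741824 ^ 2 * t ^ 2)
    (hs' : 4 * 1073741824 ^ 2 * (t' + 30) ^ 2 ≤ 3 * 1000 ^ 2 * s' ^ 2) :
    (s : ℝ) / 1073741824 ≤ y ∧ y ≤ (s' : ℝ) / 1073741824 := by
  refine ⟨y_ge_of hy0 h.1 hs, y_le_of (t := t' + 30) ?_ hs'⟩
  refine h.2.trans (le_of_eq ?_)
  push_cast
  ring

theorem rng_of {a b : ℕ} (h1 : (a : ℝ) / 1073741824 ≤ y) (h2 : y ≤ ((a + b : ℕ) : ℝ) / 1073741824) :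
    Rng a b y := by
  constructor
  · rw [S_val]
    exact h1
  · rw [S_val]
    push_cast at h2
    exact h2

/-- the height at which the window of the flat pairs ends -/
theorem y3_le (h : h0 * y ≤ 3 / 100) : y ≤ ((37195508 : ℕ) : ℝ) / 1073741824 := by
  refine y_le_of (t := 30) (h.trans (le_of_eq (by norm_num))) (by norm_num)

theorem y3_ge (hy0 : 0 ≤ y) (h : 3 / 100 ≤ h0 * y) : ((37195507 : ℕ) : ℝ) / 1073741824 ≤ y :=
  y_ge_of (t := 30) hy0 ((le_of_eq (by norm_num)).trans h) (by norm_num)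

end

/-! ### Tight pairs with three kernels -/

section

variable {n : ℕ} {P : Pos n} {RK RL RC : Fin (n + 1) → ℕ → ℝ → ℝ → ℝ} {x : ℝ}
  {TK TL TC : ℕ → ℝ → ℝ → ℝ → ℝ} {q : ℕ} {j : Fin (n + 1)} {nd : Node} {nc : Fn2}
  {W W' P3 W3 : ℕ} {M : Fn1} {oa ob : ℕ}

/-- The tight pairs at `y = 0`. -/
theorem On.germ0C (hA : ∀ y, OnC j 0 y → AtC P RK RL RC nd nc j 0 y y x)
    (h : CertGe W W' P3 W3 false [] ((oa : ℝ) / (ob : ℝ)) 0 ((0 : ℕ) : ℝ)
      (((2 : ℕ) : ℝ) / 2) M nd nc)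
    (hx : Rng P3 W3 x) (x0 : 0 < x) (x1 : x < 1) (hth : (oa : ℝ) / (ob : ℝ) ≤ 1)
    (hμ : 0 ≤ M.v x) (bX : nd.X.v 0 = 1)
    (bK : En x * nd.K.v 0 x = (En x + M.v x * Qn x) * 1) (bL : nd.L.v 0 x = 0)
    (hm : On P RK RL RC x j 0 (MonoQ x (M.v x) 0) (Rng W W')) :
    On P RK RL RC x j 0 (WallP ((oa : ℝ) / (ob : ℝ)) x (M.v x) 0) (Rng W W') := by
  have e1 : ((0 : ℕ) : ℝ) = 0 := Nat.cast_zero
  have e2 : ((2 : ℕ) : ℝ) / 2 = 1 := by norm_num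
  have h' : CertGe W W' P3 W3 false [] ((oa : ℝ) / (ob : ℝ)) 0 0 1 M nd nc := by
    have h1 := h
    generalize (oa : ℝ) / (ob : ℝ) = t at h1 ⊢
    rw [e2, e1] at h1
    exact h1
  refine On.germ (th' := (oa : ℝ) / (ob : ℝ)) hA h' hx x0 x1 ⟨hth, rfl⟩ (fun _ => rfl) hμ
    (Or.inl ⟨rfl, rfl, rfl⟩) bX bK bL (fun y hq hu => ⟨?_, hu⟩) hm
    (fun e he => absurd he List.not_mem_nil)
  show 0 ≤ y - 0
  linarith [hq.1]

/-- The tight pair at `y = 1`. -/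
theorem On.germ1C (hA : ∀ y, OnC j 1 y → AtC P RK RL RC nd nc j 1 y y x)
    (h : CertGe W W' P3 W3 false [] ((oa : ℝ) / (ob : ℝ)) 1 ((1 : ℕ) : ℝ)
      (((1 : ℕ) : ℝ) / 2) M nd nc)
    (hx : Rng P3 W3 x) (x0 : 0 < x) (x1 : x < 1) (hth : (oa : ℝ) / (ob : ℝ) ≤ 1)
    (hμ : 0 ≤ M.v x) (bX : nd.X.v 1 = 1 / 2)
    (bK : En x * nd.K.v 1 x = (En x + M.v x * Qn x) * (1 / 2)) (bL : nd.L.v 1 x = 0)
    (hm : On P RK RL RC x j 1 (MonoQ x (M.v x) 1) (Rng W W')) :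
    On P RK RL RC x j 1 (WallP ((oa : ℝ) / (ob : ℝ)) x (M.v x) 1) (Rng W W') := by
  have e1 : ((1 : ℕ) : ℝ) = 1 := Nat.cast_one
  have e2 : ((1 : ℕ) : ℝ) / 2 = 1 / 2 := by norm_num
  have h' : CertGe W W' P3 W3 false [] ((oa : ℝ) / (ob : ℝ)) 1 1 (1 / 2) M nd nc := by
    have h1 := h
    generalize (oa : ℝ) / (ob : ℝ) = t at h1 ⊢
    rw [e2, e1] at h1
    exact h1
  refine On.germ (th' := (oa : ℝ) / (ob : ℝ)) hA h' hx x0 x1 ⟨hth, rfl⟩ (fun _ => rfl) hμ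
    (Or.inr (Or.inl ⟨rfl, rfl, rfl⟩)) bX bK bL (fun y hq hu => ⟨?_, hu⟩) hm
    (fun e he => absurd he List.not_mem_nil)
  show 0 ≤ -(y - 1)
  linarith [hq.2]

/-- The right curves in the quarter 2. -/
theorem On.right2C (hA : ∀ y, OnC j 2 y → AtC P RK RL RC nd nc j 2 y y x)
    (h : CertNd 1073741824 166215235 P3 W3 (ftWall false 2 M oa ob) [⟨4, 0⟩] nd nc)
    (hx : Rng P3 W3 x) :
    On P RK RL RC x j 2 (WallP ((oa : ℝ) / (ob : ℝ)) x (M.v x) 2) fun y =>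
      h0 * y ≤ 1 ∧ 1 - G y ≤ crv P j 2 y := by
  refine On.certX (T := ftWall false 2 M oa ob) hA h hx ?_
  intro y hq hu
  have h1 : 1 ≤ y := hq.1
  have h2 := y_le hu.1 h1
  have hS : (0 : ℝ) < S := by rw [S_val]; norm_num
  refine ⟨⟨?_, ?_⟩, ?_⟩
  · rw [div_le_iff₀ hS, S_val]
    push_cast
    linarith
  · rw [le_div_iff₀ hS, S_val]
    push_cast
    linarith
  · intro e he
    rw [List.mem_singleton] at he
    subst he
    exact not_lt.2 hu.2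

/-- **Near the tight unit pair, three kernels.** -/
theorem On.tgK {th : ℝ} {D : Fn2} {Kp : Fn1} {wa wb va vb : ℕ} (hq : q < 2)
    (hl : CertTg W W' P3 W3 (ftTk true M Kp D wa wb) [⟨6, 0⟩])
    (hh : CertTg W W' P3 W3 (ftTk false M Kp D va vb) [⟨5, 0⟩]) (hx : Rng P3 W3 x)
    (x0 : 0 < x) (x1 : x < 1) (ht0 : 0 < th) (hth : th ≤ 1) (hμ : 0 ≤ M.v x) (hW : 0 < W)
    (hwl : (wa : ℝ) / wb = 1 / th) (hwh : (va : ℝ) / vb * th ≤ 1)
    (hwr : ∀ y, Rng W W' y → x ≤ y → 2 * ((va : ℝ) / vb) * (y - x) ≤ 1 - x)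
    (hf : ∀ y, InQ q y → Rng W W' y → TgK x (M.v x) (Kp.v x) q y (D.v y x) (RK 0 q y x)
      (RL 0 q y x) (RC 0 q y x))
    (hm : On P RK RL RC x 0 q (MonoQ x (M.v x) q) (Rng W W')) :
    On P RK RL RC x 0 q (WallP th x (M.v x) q) (Rng W W') := by
  intro y h hd hu
  have hS : (0 : ℝ) < S := by rw [S_val]; norm_num
  have hW' : (0 : ℝ) < W := by exact_mod_cast hW
  have y0 : 0 < y := (div_pos hW' hS).trans_le hu.1
  have y1 := lt_one_of h hq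
  have hE := En_nn x0 x1
  refine WallP.of_mono x0 x1 hμ (hm y h hd hu) ?_
  rcases le_or_gt y x with hyx | hyx
  · have k := hl y x hu hx
    beta_reduce at k
    rcases k with ⟨e, he, hp⟩ | k
    · rw [List.mem_singleton] at he
      subst he
      exact absurd (show x < y from hp) (not_lt.2 hyx)
    · obtain ⟨k1, k2⟩ := k
      unfold usX
      rw [vq_lt hq, crv_zero]
      refine tgk_low (w := (wa : ℝ) / wb) x1 h hq y0 hyx hμ hE (hf y h hu) k1 ?_ k2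
      rw [hwl]
      exact jx_low x0 ht0 hth hyx
  · have k := hh y x hu hx
    beta_reduce at k
    rcases k with ⟨e, he, hp⟩ | k
    · rw [List.mem_singleton] at he
      subst he
      exact absurd (show y < x from hp) (not_lt.2 hyx.le)
    · obtain ⟨k1, k2⟩ := k
      unfold usX
      rw [vq_lt hq, crv_zero]
      refine tgk_high (w := (va : ℝ) / vb) x0 h hq y1 hyx.le hμ hE (hf y h hu) k1 ?_ k2
      exact jx_high x0 x1 ht0 hyx.le hwh (by positivity) (hwr y hu hyx.le)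

variable {f : ℝ → ℝ} {vR vL vC : ℝ → Fin (n + 1) → ℝ}

/-- **The steep pairs**, three kernels. -/
theorem FV.steepC (V : FV P x (M.v x) ((oa : ℝ) / (ob : ℝ)) f vR vL vC RK RL RC TK TL TC)
    (ht0 : 0 ≤ (oa : ℝ) / (ob : ℝ)) (ht : (oa : ℝ) / (ob : ℝ) ≤ 1) {i : Fin n}
    {jl jr : Fin (n + 1)} (hl : i.castSucc = jl) (hr : i.succ = jr) (hj : jl ≠ 0)
    {nl nr : Node} {cl cr : Fn2}
    (Al : ∀ y, OnC jl 2 y → AtC P RK RL RC nl cl jl 2 y y x)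
    (Ar : ∀ y, OnC jr 2 y → AtC P RK RL RC nr cr jr 2 y y x)
    (bX : nl.X.v 1 = 1 / 2) (bK : En x * nl.K.v 1 x = (En x + M.v x * Qn x) * (1 / 2))
    (bL : nl.L.v 1 x = 0) (pK : RK jl 2 1 x = RK 0 2 1 x) (pL : RL jl 2 1 x = RL 0 2 1 x)
    {pc : Piece} {c : Fn3} (hK : ∀ X y, pc.K.v X y x = TK 2 X y x)
    (hL : ∀ X y, pc.L.v X y x = TL 2 X y x) (hC : ∀ X y, c.v X y x = TC 2 X y x)
    {Ws Wa Wc Wb : ℕ}
    (hst : CertSt 1073741824 Ws P3 W3 false [] ((oa : ℝ) / (ob : ℝ)) M nl cl nr cr)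
    (hm : CertSd Wa Wc P3 W3 (ftMono false 2 M) [] ygF xsF pc c)
    (hw : CertSd 0 Wb P3 W3 (ftWall false 2 M oa ob) [] ygF xsF pc c) (hx : Rng P3 W3 x)
    (hac : Wa + Wc = 536870912)
    (ha : 4 * Wa ^ 2 + 3 * (1073741824 + Ws) ^ 2 ≤ 4 * 1073741824 ^ 2)
    (hb : 4 * 1073741824 ^ 2 ≤ 4 * Wb ^ 2 + 3 * (1073741824 + Ws) ^ 2) :
    ∀ y : ℝ, 1 ≤ y → h0 * y ≤ 1 → GV P x (M.v x) vR vL vC f 2 y (1 - G y) := by
  subst hl
  subst hr
  have x0 := V.par.x0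
  have x1 := V.par.x1
  have hS : (0 : ℝ) < S := by rw [S_val]; norm_num
  have on1 : OnC i.castSucc 2 1 := ⟨⟨le_rfl, by norm_num⟩, fun h => absurd h hj⟩
  have A1 := Al 1 on1
  have zK : En x * RK 0 2 1 x = (En x + M.v x * Qn x) * (1 / 2) := by
    rw [← pK, ← A1.K]
    exact bK
  have zL : RL 0 2 1 x = 0 := by
    rw [← pL, ← A1.L]
    exact bL
  refine V.steep (s := ((1073741824 + Ws : ℕ) : ℝ) / S) ht0 (z := false) ⟨ht, rfl⟩
    (fun _ _ => rfl) hj Al Ar bX bK bL zK zL hst hx ?_ ?_ ?_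
  · refine OnT.cert (T := ftMono false 2 M) (TC := TC) hm hx ?_ hK hL hC
      (fun e he => absurd he List.not_mem_nil)
    intro y hq hu
    have h1 : 1 ≤ y := hq.1
    obtain ⟨g0, g1⟩ := G_half h1
    refine ⟨G y, ⟨G_ge_of ha (by linarith) hu.2.le, ?_⟩, ygF_v hu.1 h1, xsF_v⟩
    have e : (Wa : ℝ) + Wc = 536870912 := by exact_mod_cast hac
    rw [le_div_iff₀ hS, S_val, e]
    linarith
  · refine OnT.cert (T := ftWall false 2 M oa ob) (TC := TC) hw hx ?_ hK hL hC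
      (fun e he => absurd he List.not_mem_nil)
    intro y hq hu
    have h1 : 1 ≤ y := hq.1
    obtain ⟨g0, g1⟩ := G_half h1
    refine ⟨G y, ⟨?_, ?_⟩, ygF_v hu.1 h1, xsF_v⟩
    · simpa using g0
    · rw [Nat.cast_zero, zero_add]
      exact G_le_of hb hu.2
  · intro y h1 h2 hT
    refine ⟨⟨?_, ?_⟩, fun e he => absurd he List.not_mem_nil⟩
    · rw [div_le_iff₀ hS, S_val]
      push_cast
      linarith
    · have := h2.le
      push_cast at this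
      push_cast
      exact this

end

end Pool.Agent.Strip051.PB
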