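import Pool.Agent.Strip051.PB.FlAsmW

/-! # Assembly of the window: steps -/

namespace Pool.Agent.Strip051.PB

open Pool.Agent.StripNear Pool.Agent.StripSquare Pool.Agent.Strip051.Sweep
open Pool.Agent.Strip051.LC Pool.Agent.Strip051.LC.Exact
open Pool.Agent.Strip051.LC.Floor (G En Qn fS GUn epn ehn kan k3d k3n zen G_nonneg G_sq)

/-- the abscissa of the window -/
noncomputable abbrev Dw : ℝ := ((1100 : ℕ) : ℝ) / 1000

/-! ### Heights of a step -/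

/-- the interval contains the heights of the step in the quarter -/
def stOk (q t t' a b : ℕ) : Bool :=
  (Nat.ble a (536870912 * q) || Nat.ble (3000000 * a ^ 2) (4611686018427387904 * t ^ 2)) &&
    (Nat.ble (536870912 * (q + 1)) (a + b) ||
      Nat.ble (4611686018427387904 * (t' + 30) ^ 2) (3000000 * (a + b) ^ 2))

/-- bounds of the heights of a step -/
def stX (t t' s s' : ℕ) : Bool :=
  Nat.ble (3000000 * s ^ 2) (4611686018427387904 * t ^ 2) &&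
    Nat.ble (4611686018427387904 * (t' + 30) ^ 2) (3000000 * s' ^ 2)

section

variable {q t t' a b s s' : ℕ} {y : ℝ}

theorem lo_of (hy0 : 0 ≤ y) (h : (t : ℝ) / 1000 ≤ h0 * y)
    (hs : 3000000 * s ^ 2 ≤ 4611686018427387904 * t ^ 2) : (s : ℝ) / 1073741824 ≤ y :=
  y_ge_of hy0 h (by
    have e1 : 3 * 1000 ^ 2 * s ^ 2 = 3000000 * s ^ 2 := by ring
    have e2 : 4 * 1073741824 ^ 2 * t ^ 2 = 4611686018427387904 * t ^ 2 := by ring
    rw [e1, e2]
    exact hs)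

theorem hi_of (h : h0 * y ≤ (t' : ℝ) / 1000 + 3 / 100)
    (hs : 4611686018427387904 * (t' + 30) ^ 2 ≤ 3000000 * s' ^ 2) :
    y ≤ (s' : ℝ) / 1073741824 :=
  y_le_of (t := t' + 30) (h.trans (le_of_eq (by push_cast; ring))) (by
    have e1 : 3 * 1000 ^ 2 * s' ^ 2 = 3000000 * s' ^ 2 := by ring
    have e2 : 4 * 1073741824 ^ 2 * (t' + 30) ^ 2 = 4611686018427387904 * (t' + 30) ^ 2 := by ring
    rw [e1, e2]
    exact hs)

theorem q_lo (hq : InQ q y) : ((536870912 * q : ℕ) : ℝ) / 1073741824 ≤ y := by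
  have := hq.lo
  rw [div_le_iff₀ (by norm_num)]
  push_cast
  linarith

theorem q_hi (hq : InQ q y) : y ≤ ((536870912 * (q + 1) : ℕ) : ℝ) / 1073741824 := by
  have := hq.hi
  rw [le_div_iff₀ (by norm_num)]
  push_cast
  linarith

theorem le_c {c d : ℕ} (h : c ≤ d) (hy : (d : ℝ) / 1073741824 ≤ y) : (c : ℝ) / 1073741824 ≤ y :=
  le_trans (div_le_div_of_nonneg_right (by exact_mod_cast h) (by norm_num)) hy

theorem c_le {c d : ℕ} (h : c ≤ d) (hy : y ≤ (c : ℝ) / 1073741824) : y ≤ (d : ℝ) / 1073741824 :=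
  hy.trans (div_le_div_of_nonneg_right (by exact_mod_cast h) (by norm_num))

theorem stOk_rng (hq : InQ q y) (hu : (t : ℝ) / 1000 ≤ h0 * y ∧ h0 * y ≤ (t' : ℝ) / 1000 + 3 / 100)
    (h : stOk q t t' a b = true) : Rng a b y := by
  unfold stOk at h
  rw [Bool.and_eq_true, Bool.or_eq_true, Bool.or_eq_true] at h
  obtain ⟨h1, h2⟩ := h
  refine rng_of ?_ ?_
  · rcases h1 with h1 | h1
    · exact le_c (Nat.le_of_ble_eq_true h1) (q_lo hq)
    · exact lo_of hq.nonneg hu.1 (Nat.le_of_ble_eq_true h1)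
  · rcases h2 with h2 | h2
    · exact c_le (Nat.le_of_ble_eq_true h2) (q_hi hq)
    · exact hi_of hu.2 (Nat.le_of_ble_eq_true h2)

theorem stX_bd (hq : InQ q y) (hu : (t : ℝ) / 1000 ≤ h0 * y ∧ h0 * y ≤ (t' : ℝ) / 1000 + 3 / 100)
    (h : stX t t' s s' = true) : (s : ℝ) / 1073741824 ≤ y ∧ y ≤ (s' : ℝ) / 1073741824 := by
  unfold stX at h
  rw [Bool.and_eq_true] at h
  obtain ⟨h1, h2⟩ := h
  exact ⟨lo_of hq.nonneg hu.1 (Nat.le_of_ble_eq_true h1),
    hi_of hu.2 (Nat.le_of_ble_eq_true h2)⟩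

/-- The quarter is below the step. -/
theorem no_lo (hq : InQ q y) (hq3 : q < 3) (hu : (t : ℝ) / 1000 ≤ h0 * y)
    (h : Nat.ble (3000000 * (q + 1) ^ 2) (16 * t ^ 2) = true) : False := by
  have h' := Nat.le_of_ble_eq_true h
  have h2 : 3000000 * ((q : ℝ) + 1) ^ 2 ≤ 16 * (t : ℝ) ^ 2 := by exact_mod_cast h'
  have hs := h0_sq
  have hy : y < ((q : ℝ) + 1) / 2 := by
    match q, hq, hq3 with
    | 0, ⟨_, k⟩, _ =>
      push_cast
      linarith
    | 1, ⟨_, k⟩, _ =>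
      push_cast
      linarith
    | 2, ⟨_, k⟩, _ =>
      push_cast
      linarith
  have hn := hq.nonneg
  have h3 : ((t : ℝ) / 1000) ^ 2 ≤ (h0 * y) ^ 2 := pow_le_pow_left₀ (by positivity) hu 2
  rw [mul_pow, hs] at h3
  have h4 : y ^ 2 < (((q : ℝ) + 1) / 2) ^ 2 := pow_lt_pow_left₀ hy hn (by norm_num)
  nlinarith

/-- The quarter is above the step. -/
theorem no_hi (hq : InQ q y) (hu : h0 * y ≤ (t' : ℝ) / 1000 + 3 / 100)
    (h : Nat.blt (16 * (t' + 30) ^ 2) (3000000 * q ^ 2) = true) : False := by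
  have h' : 16 * (t' + 30) ^ 2 < 3000000 * q ^ 2 := Nat.le_of_ble_eq_true h
  have h2 : 16 * ((t' : ℝ) + 30) ^ 2 < 3000000 * (q : ℝ) ^ 2 := by exact_mod_cast h'
  have hs := h0_sq
  have hp := h0_pos
  have hy := hq.lo
  have hn := hq.nonneg
  have h3 : (h0 * y) ^ 2 ≤ ((t' : ℝ) / 1000 + 3 / 100) ^ 2 :=
    pow_le_pow_left₀ (by positivity) hu 2
  rw [mul_pow, hs] at h3
  have h4 : ((q : ℝ) / 2) ^ 2 ≤ y ^ 2 := pow_le_pow_left₀ (by positivity) hy 2
  nlinarith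

end

theorem StpAll.nil {Pr : ℝ → ℝ → ℕ → Prop} {hi lo d : ℕ}
    (h : Pr ((lo : ℝ) / 1000) ((hi : ℝ) / 1000) d) : StpAll Pr hi lo [] d := h

theorem StpAll.cons {Pr : ℝ → ℝ → ℕ → Prop} {hi lo d t a : ℕ} {L : List (ℕ × ℕ)}
    (h : Pr ((lo : ℝ) / 1000) ((t : ℝ) / 1000) a) (g : StpAll Pr hi t L d) :
    StpAll Pr hi lo ((t, a) :: L) d := ⟨h, g⟩

theorem StpAll.all {Pr : ℝ → ℝ → ℕ → Prop} {hi : ℕ} (h : ∀ t t' a, Pr t t' a) :
    ∀ {L : List (ℕ × ℕ)} {lo d : ℕ}, StpAll Pr hi lo L d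
  | [], _, _ => h _ _ _
  | (_, _) :: _, _, _ => ⟨h _ _ _, StpAll.all h⟩

theorem StpAll.both {Pr Pr' : ℝ → ℝ → ℕ → Prop} {hi : ℕ} : ∀ {L : List (ℕ × ℕ)} {lo d : ℕ},
    StpAll Pr hi lo L d → StpAll Pr' hi lo L d → StpAll (fun t t' a => Pr t t' a ∧ Pr' t t' a) hi
      lo L d
  | [], _, _, g, g' => ⟨g, g'⟩
  | (_, _) :: _, _, _, g, g' => ⟨⟨g.1, g'.1⟩, g.2.both g'.2⟩

/-- the values of the step function suffice above `97 / 100` -/
theorem high0_of {L : List (ℕ × ℕ)} {d : ℕ}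
    (h : StpAll (fun _ t' a => t' < 97 / 100 ∨ 1 ≤ (a : ℝ) / 1000 * Dw) 1700 800 L d) :
    ∀ T : ℝ, 97 / 100 ≤ T → T ≤ 17 / 10 → 1 ≤ stp L d T * Dw := by
  intro T h1 h2
  refine StpAll.use (Q := fun T v => 97 / 100 ≤ T → 1 ≤ v * Dw) (h.mono ?_) T ?_ ?_ h1
  · intro t t' a g T _ g2 g3
    rcases g with g | g
    · linarith
    · exact g
  · push_cast
    linarith
  · push_cast
    linarith

section

variable {n : ℕ} {P : Pos n} {RK RL RC : Fin (n + 1) → ℕ → ℝ → ℝ → ℝ} {x : ℝ}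
  {TK TL TC : ℕ → ℝ → ℝ → ℝ → ℝ} {q : ℕ} {j : Fin (n + 1)} {Q : ℝ → ℝ → ℝ → ℝ → ℝ → Prop}
  {U : ℝ → Prop} {nd : Node} {nc : Fn2} {W W' P3 W3 : ℕ} {M : Fn1} {z : Bool}
  {oa ob aa t t' s s' a b : ℕ}

/-- The near vertex: the first kernel is multiplied by the amplitude. -/
theorem AtC.amp {y p : ℝ} (h : AtC P RK RL RC nd nc j q y p x) (E : Fn1) :
    AtC P (smT (E.v x) RK) RL RC (Node.sc E nd) nc j q y p x where
  Y := h.Y
  X := h.X
  K := by
    show E.v x * nd.K.v p x = E.v x * RK j q y x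
    rw [h.K]
  L := h.L
  C := h.C

theorem CovC.amp {V : ℝ → Prop} (h : CovC P RK RL RC nd nc j q W W' V x) (E : Fn1) :
    CovC P (smT (E.v x) RK) RL RC (Node.sc E nd) nc j q W W' V x :=
  fun y hy hv =>
    let ⟨p, A, r⟩ := h y hy hv
    ⟨p, A.amp E, r⟩

theorem bK_eng {K B e : ℝ} (x0 : 0 < x) (x1 : x < 1) (he : e = 1 + mT.v x * GUn x)
    (h : K = 1 * B) : En x * (e * K) = (En x + mT.v x * Qn x) * B := by
  rw [h, he, ← En_GUn' x0 x1]
  ring

/-! ### No points -/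

theorem On.noLo {V : ℝ → Prop} (hq3 : q < 3)
    (h : Nat.ble (3000000 * (q + 1) ^ 2) (16 * t ^ 2) = true) :
    On P RK RL RC x j q Q fun y => (t : ℝ) / 1000 ≤ h0 * y ∧ V y :=
  On.noneQ fun _ hq hu => no_lo hq hq3 hu.1 h

theorem On.noHi (h : Nat.blt (16 * (t' + 30) ^ 2) (3000000 * q ^ 2) = true) :
    On P RK RL RC x j q Q fun y => (t : ℝ) / 1000 ≤ h0 * y ∧ h0 * y ≤ (t' : ℝ) / 1000 + 3 / 100 :=
  On.noneQ fun _ hq hu => no_hi hq hu.2 h

theorem On.noHi' {V : ℝ → Prop} (h : Nat.blt (16 * (t' + 30) ^ 2) (3000000 * q ^ 2) = true) :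
    On P RK RL RC x j q Q fun y => (t : ℝ) / 1000 ≤ h0 * y ∧
      h0 * y ≤ (t' : ℝ) / 1000 + 3 / 100 ∧ V y :=
  On.noneQ fun _ hq hu => no_hi hq hu.2.1 h

/-- The unit circle has no point in the quarter 3. -/
theorem On.no03 : On P RK RL RC x 0 3 Q U := by
  refine On.none fun y hq hd _ => ?_
  have h1 := hd.1 rfl
  have h2 : 3 / 2 ≤ y := hq.1
  have := h0_sq
  have := h0_pos
  nlinarith

theorem OnT.noLo {D : ℝ → ℝ} {V : ℝ → Prop} (hq3 : q < 3)
    (h : Nat.ble (3000000 * (q + 1) ^ 2) (16 * t ^ 2) = true) :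
    OnT TK TL TC x q D Q fun y => (t : ℝ) / 1000 ≤ h0 * y ∧ V y :=
  OnT.noneQ fun _ hq hu => no_lo hq hq3 hu.1 h

theorem OnT.noHi {D : ℝ → ℝ} {V : ℝ → Prop}
    (h : Nat.blt (16 * (t' + 30) ^ 2) (3000000 * q ^ 2) = true) :
    OnT TK TL TC x q D Q fun y => (t : ℝ) / 1000 ≤ h0 * y ∧
      h0 * y ≤ (t' : ℝ) / 1000 + 3 / 100 ∧ V y :=
  OnT.noneQ fun _ hq hu => no_hi hq hu.2.1 h

/-! ### High pairs -/

/-- Level zero: from the inequalities at the wall. -/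
theorem On.high0 {th μ D : ℝ} {V : ℝ → Prop} (hm : On P RK RL RC x j q (MonoQ x μ q) fun _ => True)
    (hw : On P RK RL RC x j q (WallP th x μ q) fun _ => True) :
    On P RK RL RC x j q (fun y X A L C => HighP th x μ q y X A L C (((0 : ℕ) : ℝ) / 1000) D) V := by
  intro y h1 h2 _
  have a : 0 ≤ grL x μ q y _ _ _ _ := hm y h1 h2 trivial
  obtain ⟨-, b, -⟩ := hw y h1 h2 trivial
  unfold HighP
  rw [min_eq_right a, Nat.cast_zero]
  linarith

theorem On.stH (hA : ∀ y, OnC j q y → AtC P RK RL RC nd nc j q y y x)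
    (h : CertNd a b P3 W3 (ftHigh z q M oa ob aa 1100) [] nd nc) (hx : Rng P3 W3 x)
    (hz : ∀ y, cz z (RC j q y x) = RC j q y x) (hs : stOk q t t' a b = true) :
    On P RK RL RC x j q (fun y X A L C => HighP ((oa : ℝ) / ob) x (M.v x) q y X A L C
      ((aa : ℝ) / 1000) Dw) fun y => (t : ℝ) / 1000 ≤ h0 * y ∧ h0 * y ≤ (t' : ℝ) / 1000 + 3 / 100 := by
  intro y hq hd hu
  have k := On.certX (U := fun y => (t : ℝ) / 1000 ≤ h0 * y ∧ h0 * y ≤ (t' : ℝ) / 1000 + 3 / 100)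
    hA h hx (fun y hq hu => ⟨stOk_rng hq hu hs, fun e he => absurd he List.not_mem_nil⟩) y hq hd hu
  have k' : HighP ((oa : ℝ) / ob) x (M.v x) q y (crv P j q y) (RK j q y x) (RL j q y x)
    (cz z (RC j q y x)) ((aa : ℝ) / 1000) Dw := k
  rw [hz] at k'
  exact k'

theorem no_ex2 {y X : ℝ} (h : (s : ℝ) / 1073741824 ≤ y ∧ y ≤ (s' : ℝ) / 1073741824) :
    ∀ e ∈ ([⟨0, s⟩, ⟨1, s'⟩] : List Fx), ¬ e.P x y X := by
  intro e he
  simp only [List.mem_cons, List.not_mem_nil, or_false] at he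
  rcases he with rfl | rfl
  · exact not_lt.2 h.1
  · exact not_lt.2 h.2

theorem no_ex3 {y X : ℝ} {e : Fx} (h : (s : ℝ) / 1073741824 ≤ y ∧ y ≤ (s' : ℝ) / 1073741824)
    (he : ¬ e.P x y X) : ∀ e' ∈ ([⟨0, s⟩, ⟨1, s'⟩, e] : List Fx), ¬ e'.P x y X := by
  intro e' h'
  simp only [List.mem_cons, List.not_mem_nil, or_false] at h'
  rcases h' with rfl | rfl | rfl
  · exact not_lt.2 h.1
  · exact not_lt.2 h.2
  · exact he

theorem no_ex1 {y X : ℝ} {e : Fx} (he : ¬ e.P x y X) : ∀ e' ∈ ([e] : List Fx), ¬ e'.P x y X := by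
  intro e' h'
  rw [List.mem_singleton] at h'
  subst h'
  exact he

theorem On.stHc (hc : CovC P RK RL RC nd nc j q W W' (fun _ => True) x)
    (h : CertNd W W' P3 W3 (ftHigh z q M oa ob aa 1100) [⟨0, s⟩, ⟨1, s'⟩] nd nc)
    (hx : Rng P3 W3 x) (hz : ∀ y, cz z (RC j q y x) = RC j q y x)
    (hs : stX t t' s s' = true) :
    On P RK RL RC x j q (fun y X A L C => HighP ((oa : ℝ) / ob) x (M.v x) q y X A L C
      ((aa : ℝ) / 1000) Dw) fun y => (t : ℝ) / 1000 ≤ h0 * y ∧ h0 * y ≤ (t' : ℝ) / 1000 + 3 / 100 := by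
  intro y hq hd hu
  have k := On.certP (U := fun y => (t : ℝ) / 1000 ≤ h0 * y ∧ h0 * y ≤ (t' : ℝ) / 1000 + 3 / 100)
    hc h hx (fun y hq hu => no_ex2 (stX_bd hq hu hs)) y hq hd hu
  have k' : HighP ((oa : ℝ) / ob) x (M.v x) q y (crv P j q y) (RK j q y x) (RL j q y x)
    (cz z (RC j q y x)) ((aa : ℝ) / 1000) Dw := k
  rw [hz] at k'
  exact k'

/-! ### Wide pairs -/

theorem Dw_low : ((1181116006 : ℕ) : ℝ) / 1073741824 ≤ Dw := by
  unfold Dw
  norm_num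

theorem Dw_high : Dw ≤ ((1181116007 : ℕ) : ℝ) / 1073741824 := by
  unfold Dw
  norm_num

theorem two5_high : (2 / 5 : ℝ) ≤ ((429496730 : ℕ) : ℝ) / 1073741824 := by norm_num

theorem On.stR (hA : ∀ y, OnC j q y → AtC P RK RL RC nd nc j q y y x)
    (h : CertNd a b P3 W3 (ftFar z q M oa ob aa 1100) [⟨2, 1181116006⟩] nd nc) (hx : Rng P3 W3 x)
    (hz : ∀ y, cz z (RC j q y x) = RC j q y x) (hs : stOk q t t' a b = true) :
    On P RK RL RC x j q (fun y X A L C => FarP ((oa : ℝ) / ob) x (M.v x) q y X A L C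
      ((aa : ℝ) / 1000) Dw) fun y => (t : ℝ) / 1000 ≤ h0 * y ∧
        h0 * y ≤ (t' : ℝ) / 1000 + 3 / 100 ∧ Dw ≤ crv P j q y := by
  intro y hq hd hu
  have k := On.certX (U := fun y => (t : ℝ) / 1000 ≤ h0 * y ∧
    h0 * y ≤ (t' : ℝ) / 1000 + 3 / 100 ∧ Dw ≤ crv P j q y)
    hA h hx (fun y hq hu => ⟨stOk_rng hq ⟨hu.1, hu.2.1⟩ hs,
      no_ex1 (not_lt.2 (Dw_low.trans hu.2.2))⟩) y hq hd hu
  have k' : FarP ((oa : ℝ) / ob) x (M.v x) q y (crv P j q y) (RK j q y x) (RL j q y x)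
    (cz z (RC j q y x)) ((aa : ℝ) / 1000) Dw := k
  rw [hz] at k'
  exact k'

theorem On.stRc (hc : CovC P RK RL RC nd nc j q W W' (fun _ => True) x)
    (h : CertNd W W' P3 W3 (ftFar z q M oa ob aa 1100) [⟨0, s⟩, ⟨1, s'⟩, ⟨2, 1181116006⟩] nd nc)
    (hx : Rng P3 W3 x) (hz : ∀ y, cz z (RC j q y x) = RC j q y x)
    (hs : stX t t' s s' = true) :
    On P RK RL RC x j q (fun y X A L C => FarP ((oa : ℝ) / ob) x (M.v x) q y X A L C
      ((aa : ℝ) / 1000) Dw) fun y => (t : ℝ) / 1000 ≤ h0 * y ∧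
        h0 * y ≤ (t' : ℝ) / 1000 + 3 / 100 ∧ Dw ≤ crv P j q y := by
  intro y hq hd hu
  have k := On.certP (U := fun y => (t : ℝ) / 1000 ≤ h0 * y ∧
    h0 * y ≤ (t' : ℝ) / 1000 + 3 / 100 ∧ Dw ≤ crv P j q y)
    hc h hx (fun y hq hu => no_ex3 (stX_bd hq ⟨hu.1, hu.2.1⟩ hs)
      (not_lt.2 (Dw_low.trans hu.2.2))) y hq hd hu
  have k' : FarP ((oa : ℝ) / ob) x (M.v x) q y (crv P j q y) (RK j q y x) (RL j q y x)
    (cz z (RC j q y x)) ((aa : ℝ) / 1000) Dw := k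
  rw [hz] at k'
  exact k'

/-- The pairs with the abscissa `Dw`. -/
theorem OnT.stR {pc : Piece} {c : Fn3}
    (h : CertSd a b P3 W3 (ftFar z q M oa ob aa 1100) [] idF (cnF 1100 1000) pc c)
    (hx : Rng P3 W3 x) (hK : ∀ X y, pc.K.v X y x = TK q X y x)
    (hL : ∀ X y, pc.L.v X y x = TL q X y x) (hC : ∀ X y, c.v X y x = TC q X y x)
    (hz : ∀ X y, cz z (TC q X y x) = TC q X y x)
    (hs : (Nat.ble a (536870912 * q) || Nat.ble (3000000 * a ^ 2) (4611686018427387904 * t ^ 2)) =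
      true)
    (hs' : (Nat.ble 1658931118 (a + b) || Nat.ble (536870912 * (q + 1)) (a + b) ||
      Nat.ble (4611686018427387904 * (t' + 30) ^ 2) (3000000 * (a + b) ^ 2)) = true) :
    OnT TK TL TC x q (fun _ => Dw) (fun y X A L C => FarP ((oa : ℝ) / ob) x (M.v x) q y X A L C
      ((aa : ℝ) / 1000) Dw) fun y => (t : ℝ) / 1000 ≤ h0 * y ∧
        h0 * y ≤ (t' : ℝ) / 1000 + 3 / 100 ∧ qqn Dw y ≤ 3 := by
  intro y hq hu
  have k := OnT.certX (U := fun y => (t : ℝ) / 1000 ≤ h0 * y ∧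
    h0 * y ≤ (t' : ℝ) / 1000 + 3 / 100 ∧ qqn Dw y ≤ 3) (D := Dw) (by norm_num [Dw]) h hx hK hL hC
    (fun y hq hu => ⟨?_, fun e he => absurd he List.not_mem_nil⟩) y hq hu
  · have k' : FarP ((oa : ℝ) / ob) x (M.v x) q y Dw (TK q Dw y x) (TL q Dw y x)
      (cz z (TC q Dw y x)) ((aa : ℝ) / 1000) Dw := k
    rw [hz] at k'
    exact k'
  · refine rng_of ?_ ?_
    · rw [Bool.or_eq_true] at hs
      rcases hs with h1 | h1
      · exact le_c (Nat.le_of_ble_eq_true h1) (q_lo hq)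
      · exact lo_of hq.nonneg hu.1 (Nat.le_of_ble_eq_true h1)
    · rw [Bool.or_eq_true, Bool.or_eq_true] at hs'
      rcases hs' with (h1 | h1) | h1
      · refine c_le (Nat.le_of_ble_eq_true h1) ?_
        have h2 := hu.2.2
        unfold qqn Dw at h2
        have hn := hq.nonneg
        norm_num at h2 ⊢
        nlinarith
      · exact c_le (Nat.le_of_ble_eq_true h1) (q_hi hq)
      · exact hi_of hu.2.1 (Nat.le_of_ble_eq_true h1)

/-- The pairs with the abscissa `Dw` above the step are too long. -/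
theorem OnT.noR (h : Nat.ble (1658931119 ^ 2 * 3000000) (4611686018427387904 * t ^ 2) = true) :
    OnT TK TL TC x q (fun _ => Dw) Q fun y => (t : ℝ) / 1000 ≤ h0 * y ∧
        h0 * y ≤ (t' : ℝ) / 1000 + 3 / 100 ∧ qqn Dw y ≤ 3 := by
  refine OnT.noneQ fun y hq hu => ?_
  have h1 := Nat.le_of_ble_eq_true h
  have k := lo_of (s := 1658931119) hq.nonneg hu.1 (by rw [mul_comm]; exact h1)
  have h2 := hu.2.2
  unfold qqn Dw at h2
  have hn := hq.nonneg
  norm_num at h2 k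
  nlinarith

/-! ### Narrow pairs -/

theorem On.stN (hA : ∀ y, OnC j q y → AtC P RK RL RC nd nc j q y y x)
    (h : CertNd a b P3 W3 (ftNear z q M oa ob aa) [⟨3, 429496730⟩] nd nc) (hx : Rng P3 W3 x)
    (hz : ∀ y, cz z (RC j q y x) = RC j q y x) (hs : stOk q t t' a b = true) :
    On P RK RL RC x j q (fun y X A L C => NearP ((oa : ℝ) / ob) x (M.v x) q y X A L C
      ((aa : ℝ) / 1000)) fun y => (t : ℝ) / 1000 ≤ h0 * y ∧
        h0 * y ≤ (t' : ℝ) / 1000 + 3 / 100 ∧ 0 < crv P j q y ∧ crv P j q y ≤ 2 / 5 := by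
  intro y hq hd hu
  have k := On.certX (U := fun y => (t : ℝ) / 1000 ≤ h0 * y ∧
    h0 * y ≤ (t' : ℝ) / 1000 + 3 / 100 ∧ 0 < crv P j q y ∧ crv P j q y ≤ 2 / 5)
    hA h hx (fun y hq hu => ⟨stOk_rng hq ⟨hu.1, hu.2.1⟩ hs,
      no_ex1 (not_lt.2 (hu.2.2.2.trans two5_high))⟩) y hq hd hu
  have k' : NearP ((oa : ℝ) / ob) x (M.v x) q y (crv P j q y) (RK j q y x) (RL j q y x)
    (cz z (RC j q y x)) ((aa : ℝ) / 1000) := k
  rw [hz] at k'
  exact k'

theorem On.stNc (hc : CovC P RK RL RC nd nc j q W W' (fun _ => True) x)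
    (h : CertNd W W' P3 W3 (ftNear z q M oa ob aa) [⟨0, s⟩, ⟨1, s'⟩, ⟨3, 429496730⟩] nd nc)
    (hx : Rng P3 W3 x) (hz : ∀ y, cz z (RC j q y x) = RC j q y x)
    (hs : stX t t' s s' = true) :
    On P RK RL RC x j q (fun y X A L C => NearP ((oa : ℝ) / ob) x (M.v x) q y X A L C
      ((aa : ℝ) / 1000)) fun y => (t : ℝ) / 1000 ≤ h0 * y ∧
        h0 * y ≤ (t' : ℝ) / 1000 + 3 / 100 ∧ 0 < crv P j q y ∧ crv P j q y ≤ 2 / 5 := by
  intro y hq hd hu
  have k := On.certP (U := fun y => (t : ℝ) / 1000 ≤ h0 * y ∧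
    h0 * y ≤ (t' : ℝ) / 1000 + 3 / 100 ∧ 0 < crv P j q y ∧ crv P j q y ≤ 2 / 5)
    hc h hx (fun y hq hu => no_ex3 (stX_bd hq ⟨hu.1, hu.2.1⟩ hs)
      (not_lt.2 (hu.2.2.2.trans two5_high))) y hq hd hu
  have k' : NearP ((oa : ℝ) / ob) x (M.v x) q y (crv P j q y) (RK j q y x) (RL j q y x)
    (cz z (RC j q y x)) ((aa : ℝ) / 1000) := k
  rw [hz] at k'
  exact k'

/-- the function one -/
noncomputable def onF : Fn1 := ⟨fun _ => pone, fun _ => 1, fun _ => enc_one _⟩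

/-- The narrow pairs on the unit circle; near the abscissa `0` the functions divided by the abscissa
are used. -/
theorem On.stN0 {pz : ℕ} {K L : Fn2} {C : Fn2}
    (hc : CovC P RK RL RC nd nc 0 2 W W' (fun _ => True) x) (hX : ∀ p, nd.X.v p = p)
    (h : CertNd W W' P3 W3 (ftNear z 2 M oa ob aa)
      [⟨0, s⟩, ⟨1, s'⟩, ⟨2, pz⟩, ⟨3, 429496730⟩] nd nc)
    (h' : CertNd 0 pz P3 W3 (ftNear z 2 M oa ob aa) [⟨0, s⟩, ⟨1, s'⟩] ⟨nd.Y, onF, K, L⟩ C)
    (hx : Rng P3 W3 x) (hz : ∀ y, cz z (RC 0 2 y x) = RC 0 2 y x)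
    (hq : ∀ p, 0 < p → p ≤ (pz : ℝ) / 1073741824 → nd.K.v p x = p * K.v p x ∧
      nd.L.v p x = p * L.v p x ∧ nc.v p x = p * C.v p x)
    (hs : stX t t' s s' = true) :
    On P RK RL RC x 0 2 (fun y X A L C => NearP ((oa : ℝ) / ob) x (M.v x) 2 y X A L C
      ((aa : ℝ) / 1000)) fun y => (t : ℝ) / 1000 ≤ h0 * y ∧
        h0 * y ≤ (t' : ℝ) / 1000 + 3 / 100 ∧ 0 < crv P 0 2 y ∧ crv P 0 2 y ≤ 2 / 5 := by
  intro y hy hd hu
  have hb := stX_bd hy ⟨hu.1, hu.2.1⟩ hs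
  obtain ⟨p, A, g⟩ := hc y (dm_onC hy hd) trivial
  have eX : crv P 0 2 y = p := by rw [← A.X, hX]
  rcases le_total ((pz : ℝ) / 1073741824) p with hp | hp
  · have k := h p x g hx
    beta_reduce at k
    rw [A.Y, A.X, A.K, A.L, A.C] at k
    rcases k with ⟨e, he, h1⟩ | k
    · exfalso
      simp only [List.mem_cons, List.not_mem_nil, or_false] at he
      rcases he with rfl | rfl | rfl | rfl
      · exact absurd h1 (not_lt.2 hb.1)
      · exact absurd h1 (not_lt.2 hb.2)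
      · have h2 : crv P 0 2 y < (pz : ℝ) / 1073741824 := h1
        linarith
      · exact absurd h1 (not_lt.2 (hu.2.2.2.trans two5_high))
    · have k' : NearP ((oa : ℝ) / ob) x (M.v x) 2 y (crv P 0 2 y) (RK 0 2 y x) (RL 0 2 y x)
        (cz z (RC 0 2 y x)) ((aa : ℝ) / 1000) := k
      rw [hz] at k'
      exact k'
  · have p0 : 0 < p := by
      rw [← eX]
      exact hu.2.2.1
    have r : Rng 0 pz p := by
      refine rng_of ?_ ?_
      · rw [Nat.cast_zero, zero_div]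
        exact p0.le
      · rw [zero_add]
        exact hp
    have k := h' p x r hx
    beta_reduce at k
    rcases k with ⟨e, he, h1⟩ | k
    · exfalso
      refine no_ex2 (x := x) (X := onF.v p) hb e he ?_
      rw [← A.Y]
      exact h1
    · obtain ⟨eK, eL, eC⟩ := hq p p0 hp
      have k' : NearP ((oa : ℝ) / ob) x (M.v x) 2 (nd.Y.v p) 1 (K.v p x) (L.v p x)
        (cz z (C.v p x)) ((aa : ℝ) / 1000) := k
      have k2 := k'.smul p0.le
      rw [mul_one, ← eK, ← eL, A.Y, A.K, A.L] at k2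
      have eZ : p * cz z (C.v p x) = cz z (RC 0 2 y x) := by
        rw [← A.C, eC]
        cases z
        · rfl
        · exact mul_zero p
      rw [eZ, hz, ← eX] at k2
      exact k2

/-- The pairs with the abscissa `2 / 5`. -/
theorem OnT.stN {pc : Piece} {c : Fn3}
    (h : CertSd a b P3 W3 (ftNear z q M oa ob aa) [] idF (cnF 400 1000) pc c)
    (hx : Rng P3 W3 x) (hK : ∀ X y, pc.K.v X y x = TK q X y x)
    (hL : ∀ X y, pc.L.v X y x = TL q X y x) (hC : ∀ X y, c.v X y x = TC q X y x)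
    (hz : ∀ X y, cz z (TC q X y x) = TC q X y x)
    (hs : (Nat.ble a 1136340972 || Nat.ble a (536870912 * q) ||
      Nat.ble (3000000 * a ^ 2) (4611686018427387904 * t ^ 2)) = true)
    (hs' : (Nat.ble (536870912 * (q + 1)) (a + b) ||
      Nat.ble (4611686018427387904 * (t' + 30) ^ 2) (3000000 * (a + b) ^ 2)) = true) :
    OnT TK TL TC x q (fun _ => 2 / 5) (fun y X A L C => NearP ((oa : ℝ) / ob) x (M.v x) q y X A L C
      ((aa : ℝ) / 1000)) fun y => (t : ℝ) / 1000 ≤ h0 * y ∧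
        h0 * y ≤ (t' : ℝ) / 1000 + 3 / 100 ∧ 1 ≤ qqn (2 / 5) y := by
  intro y hq hu
  have k := OnT.certX (U := fun y => (t : ℝ) / 1000 ≤ h0 * y ∧
    h0 * y ≤ (t' : ℝ) / 1000 + 3 / 100 ∧ 1 ≤ qqn (2 / 5) y) (D := 2 / 5) (by norm_num) h hx hK hL
    hC (fun y hq hu => ⟨?_, fun e he => absurd he List.not_mem_nil⟩) y hq hu
  · have k' : NearP ((oa : ℝ) / ob) x (M.v x) q y (2 / 5) (TK q (2 / 5) y x) (TL q (2 / 5) y x)
      (cz z (TC q (2 / 5) y x)) ((aa : ℝ) / 1000) := k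
    rw [hz] at k'
    exact k'
  · refine rng_of ?_ ?_
    · rw [Bool.or_eq_true, Bool.or_eq_true] at hs
      rcases hs with (h1 | h1) | h1
      · refine le_c (Nat.le_of_ble_eq_true h1) ?_
        have h2 := hu.2.2
        unfold qqn at h2
        have hn := hq.nonneg
        norm_num at h2 ⊢
        nlinarith
      · exact le_c (Nat.le_of_ble_eq_true h1) (q_lo hq)
      · exact lo_of hq.nonneg hu.1 (Nat.le_of_ble_eq_true h1)
    · rw [Bool.or_eq_true] at hs'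
      rcases hs' with h1 | h1
      · exact c_le (Nat.le_of_ble_eq_true h1) (q_hi hq)
      · exact hi_of hu.2.1 (Nat.le_of_ble_eq_true h1)

/-- The pairs with the abscissa `2 / 5` below the step are too short. -/
theorem OnT.noN
    (h : Nat.ble (4611686018427387904 * (t' + 30) ^ 2) (3000000 * 1136340971 ^ 2) = true) :
    OnT TK TL TC x q (fun _ => 2 / 5) Q fun y => (t : ℝ) / 1000 ≤ h0 * y ∧
        h0 * y ≤ (t' : ℝ) / 1000 + 3 / 100 ∧ 1 ≤ qqn (2 / 5) y := by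
  refine OnT.noneQ fun y hq hu => ?_
  have h1 := Nat.le_of_ble_eq_true h
  have k : y ≤ ((1136340971 : ℕ) : ℝ) / 1073741824 := hi_of hu.2.1 h1
  have h2 := hu.2.2
  unfold qqn at h2
  have hn := hq.nonneg
  have k2 := pow_le_pow_left₀ hn k 2
  clear h h1 k
  norm_num at h2 k2
  linarith

/-! ### Low pairs -/

/-- Flat pairs on a curve right of `W`. -/
theorem On.flatY (hA : ∀ y, OnC j 0 y → AtC P RK RL RC nd nc j 0 y y x)
    (h : CertNd 0 37195508 P3 W3 (ftFlat z 0 M oa ob) [] nd nc) (hx : Rng P3 W3 x)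
    (hz : ∀ y, cz z (RC j 0 y x) = RC j 0 y x) :
    On P RK RL RC x j 0 (FlatP ((oa : ℝ) / ob) x (M.v x) 0) fun y => h0 * y ≤ 3 / 100 := by
  intro y hq hd hu
  have k := On.certX (U := fun y => h0 * y ≤ 3 / 100) hA h hx
    (fun y hq hu => ⟨rng_of (by rw [Nat.cast_zero, zero_div]; exact hq.nonneg) (y3_le hu),
      fun e he => absurd he List.not_mem_nil⟩) y hq hd hu
  have k' : FlatP ((oa : ℝ) / ob) x (M.v x) 0 y (crv P j 0 y) (RK j 0 y x) (RL j 0 y x)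
    (cz z (RC j 0 y x)) := k
  rw [hz] at k'
  exact k'

/-- Low pairs left of the window on a curve right of `W`. -/
theorem On.leftY (hA : ∀ y, OnC j 0 y → AtC P RK RL RC nd nc j 0 y y x)
    (h : CertNd 0 37195508 P3 W3 (ftWall z 0 M oa ob) [⟨3, 1181116007⟩] nd nc) (hx : Rng P3 W3 x)
    (hz : ∀ y, cz z (RC j 0 y x) = RC j 0 y x) :
    On P RK RL RC x j 0 (WallP ((oa : ℝ) / ob) x (M.v x) 0) fun y =>
      h0 * y ≤ 3 / 100 ∧ crv P j 0 y ≤ Dw := by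
  intro y hq hd hu
  have k := On.certX (U := fun y => h0 * y ≤ 3 / 100 ∧ crv P j 0 y ≤ Dw) hA h hx
    (fun y hq hu => ⟨rng_of (by rw [Nat.cast_zero, zero_div]; exact hq.nonneg) (y3_le hu.1),
      no_ex1 (not_lt.2 (hu.2.trans Dw_high))⟩) y hq hd hu
  have k' : WallP ((oa : ℝ) / ob) x (M.v x) 0 y (crv P j 0 y) (RK j 0 y x) (RL j 0 y x)
    (cz z (RC j 0 y x)) := k
  rw [hz] at k'
  exact k'

/-- Low pairs at the abscissa of the window. -/
theorem OnT.left0 {pc : Piece} {c : Fn3}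
    (h : CertSd 0 37195508 P3 W3 (ftWall z 0 M oa ob) [] idF (cnF 1100 1000) pc c)
    (hx : Rng P3 W3 x) (hK : ∀ X y, pc.K.v X y x = TK 0 X y x)
    (hL : ∀ X y, pc.L.v X y x = TL 0 X y x) (hC : ∀ X y, c.v X y x = TC 0 X y x)
    (hz : ∀ X y, cz z (TC 0 X y x) = TC 0 X y x) :
    OnT TK TL TC x 0 (fun _ => Dw) (WallP ((oa : ℝ) / ob) x (M.v x) 0) fun y =>
      h0 * y ≤ 3 / 100 := by
  intro y hq hu
  have k := OnT.certX (U := fun y => h0 * y ≤ 3 / 100) (D := Dw) (by norm_num [Dw]) h hx hK hL hC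
    (fun y hq hu => ⟨rng_of (by rw [Nat.cast_zero, zero_div]; exact hq.nonneg) (y3_le hu),
      fun e he => absurd he List.not_mem_nil⟩) y hq hu
  have k' : WallP ((oa : ℝ) / ob) x (M.v x) 0 y Dw (TK 0 Dw y x) (TL 0 Dw y x)
    (cz z (TC 0 Dw y x)) := k
  rw [hz] at k'
  exact k'

/-- The wall test, any third kernel. -/
theorem On.wallY (hA : ∀ y, OnC j q y → AtC P RK RL RC nd nc j q y y x)
    (h : CertNd W W' P3 W3 (ftWall z q M oa ob) [] nd nc) (hx : Rng P3 W3 x)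
    (hz : ∀ y, cz z (RC j q y x) = RC j q y x) :
    On P RK RL RC x j q (WallP ((oa : ℝ) / ob) x (M.v x) q) (Rng W W') := by
  intro y hq hd hu
  have k := On.ofNd hA h hx y hq hd hu
  have k' : WallP ((oa : ℝ) / ob) x (M.v x) q y (crv P j q y) (RK j q y x) (RL j q y x)
    (cz z (RC j q y x)) := k
  rw [hz] at k'
  exact k'

theorem On.monoY (hA : ∀ y, OnC j q y → AtC P RK RL RC nd nc j q y y x)
    (h : CertNd W W' P3 W3 (ftMono z q M) [] nd nc) (hx : Rng P3 W3 x)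
    (hz : ∀ y, cz z (RC j q y x) = RC j q y x) :
    On P RK RL RC x j q (MonoQ x (M.v x) q) (Rng W W') := by
  intro y hq hd hu
  have k := On.ofNd hA h hx y hq hd hu
  have k' : 0 ≤ grL x (M.v x) q y (crv P j q y) (RK j q y x) (RL j q y x)
    (cz z (RC j q y x)) := k
  rw [hz] at k'
  exact k'

/-- Right curves above the flat pairs. -/
theorem On.wall3 {th μ : ℝ} (h : On P RK RL RC x j 0 (WallP th x μ 0) (Rng 37195507 b))
    (hb : 536870912 ≤ 37195507 + b) :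
    On P RK RL RC x j 0 (WallP th x μ 0) fun y => 3 / 100 ≤ h0 * y := by
  refine h.imp fun y hq hu => rng_of (y3_ge hq.nonneg hu) (c_le ?_ (q_hi hq))
  simpa using hb

theorem On.all3 {th μ : ℝ} (h : On P RK RL RC x j 0 (WallP th x μ 0) fun _ => True) :
    On P RK RL RC x j 0 (WallP th x μ 0) (fun y => 3 / 100 ≤ h0 * y) ∧
      On P RK RL RC x j 0 (WallP th x μ 0) fun y => h0 * y ≤ 3 / 100 ∧ crv P j 0 y ≤ Dw :=
  ⟨h.imp fun _ _ _ => trivial, h.imp fun _ _ _ => trivial⟩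

/-- The flat pairs on a curve up to `W`. -/
theorem On.flatW {th μ : ℝ} {c : ℕ} (hm : On P RK RL RC x j 0 (MonoQ x μ 0) (Rng 0 c))
    (hc : 37195508 ≤ c) (hw : On P RK RL RC x j 0 (WallP th x μ 0) fun _ => True) :
    On P RK RL RC x j 0 (FlatP th x μ 0) fun y => h0 * y ≤ 3 / 100 :=
  On.flat_of (hm.imp fun y hq hu => rng_of (by rw [Nat.cast_zero, zero_div]; exact hq.nonneg)
    (c_le (by simpa using hc) (y3_le hu))) (hw.imp fun _ _ _ => trivial)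

end

end Pool.Agent.Strip051.PB
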