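import Pool.Agent.Strip051.PB.FlAsmX

/-! # Assembly of the window: a node in two coordinates -/

namespace Pool.Agent.Strip051.PB

open Pool.Agent.StripNear Pool.Agent.StripSquare Pool.Agent.Strip051.Sweep
open Pool.Agent.Strip051.LC Pool.Agent.Strip051.LC.Exact
open Pool.Agent.Strip051.LC.Floor (G En Qn fS GUn epn ehn kan k3d k3n zen G_nonneg G_sq)

section

variable {n : ℕ} {P : Pos n} {RK RL RC : Fin (n + 1) → ℕ → ℝ → ℝ → ℝ} {x : ℝ} {q : ℕ}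
  {j : Fin (n + 1)} {U V : ℝ → Prop} {T : FTst} {nd nd' : Node} {nc nc' : Fn2}
  {W W' Z Z' P3 W3 : ℕ} {M : Fn1} {z : Bool} {L : List Fx} {oa ob aa t t' s s' : ℕ}

/-- The node is covered on a part of the quarter. -/
theorem On.certV (hc : CovC P RK RL RC nd nc j q W W' V x) (h : CertNd W W' P3 W3 T L nd nc)
    (hx : Rng P3 W3 x) (hV : ∀ y, U y → V y)
    (hU : ∀ y, InQ q y → U y → ∀ e ∈ L, ¬ e.P x y (crv P j q y)) :
    On P RK RL RC x j q (T.P x) U := by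
  refine On.cert hc h hx (fun y _ hu => hV y hu) fun e he => ?_
  exact On.none fun y hq _ hu => hU y hq hu.1 e he hu.2

/-- **Narrow pairs of a curve which is described in two coordinates**, on both sides of the height
`1`. -/
theorem On.stN2 (hc : CovC P RK RL RC nd nc j q W W' (fun y => h0 * y < 1) x)
    (hc' : CovC P RK RL RC nd' nc' j q Z Z' (fun y => 1 ≤ h0 * y) x)
    (h : CertNd W W' P3 W3 (ftNear z q M oa ob aa) [⟨0, s⟩, ⟨1, s'⟩, ⟨3, 429496730⟩] nd nc)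
    (h' : CertNd Z Z' P3 W3 (ftNear z q M oa ob aa) [⟨0, s⟩, ⟨1, s'⟩, ⟨3, 429496730⟩] nd' nc')
    (hx : Rng P3 W3 x) (hz : ∀ y, cz z (RC j q y x) = RC j q y x)
    (hs : stX t t' s s' = true) :
    On P RK RL RC x j q (fun y X A L C => NearP ((oa : ℝ) / ob) x (M.v x) q y X A L C
      ((aa : ℝ) / 1000)) fun y => (t : ℝ) / 1000 ≤ h0 * y ∧
        h0 * y ≤ (t' : ℝ) / 1000 + 3 / 100 ∧ 0 < crv P j q y ∧ crv P j q y ≤ 2 / 5 := by
  intro y hq hd hu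
  have k' : NearP ((oa : ℝ) / ob) x (M.v x) q y (crv P j q y) (RK j q y x) (RL j q y x)
      (cz z (RC j q y x)) ((aa : ℝ) / 1000) := by
    rcases lt_or_ge (h0 * y) 1 with hv | hv
    · exact On.certV (U := fun y => ((t : ℝ) / 1000 ≤ h0 * y ∧
        h0 * y ≤ (t' : ℝ) / 1000 + 3 / 100 ∧ 0 < crv P j q y ∧ crv P j q y ≤ 2 / 5) ∧ h0 * y < 1)
        hc h hx (fun y hu => hu.2) (fun y hq hu => no_ex3 (stX_bd hq ⟨hu.1.1, hu.1.2.1⟩ hs)
          (not_lt.2 (hu.1.2.2.2.trans two5_high))) y hq hd ⟨hu, hv⟩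
    · exact On.certV (U := fun y => ((t : ℝ) / 1000 ≤ h0 * y ∧
        h0 * y ≤ (t' : ℝ) / 1000 + 3 / 100 ∧ 0 < crv P j q y ∧ crv P j q y ≤ 2 / 5) ∧ 1 ≤ h0 * y)
        hc' h' hx (fun y hu => hu.2) (fun y hq hu => no_ex3 (stX_bd hq ⟨hu.1.1, hu.1.2.1⟩ hs)
          (not_lt.2 (hu.1.2.2.2.trans two5_high))) y hq hd ⟨hu, hv⟩
  rw [hz] at k'
  exact k'

end

end Pool.Agent.Strip051.PB
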