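import Pool.Agent.Strip051.PB.FlGlue
import Pool.Agent.Strip051.PB.Cert
import Pool.Agent.Strip051.LC.Exact.CertT

/-! # The rows at the floor: lists of inequalities and the final form -/

namespace Pool.Agent.Strip051.PB

open Pool.Agent.StripNear Pool.Agent.StripSquare Pool.Agent.Strip051.Sweep
open Pool.Agent.Strip051.LC Pool.Agent.Strip051.LC.Exact
open Pool.Agent.Strip051.LC.Floor (G En Qn fS)

/-! ### Exclusions -/

section

variable {x y X : ℝ} {c c' d : ℕ}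

/-- bounds of the height -/
def exY (c c' : ℕ) : List Fx := [⟨0, c⟩, ⟨1, c'⟩]
/-- bounds of the height, the abscissa is at least `d` -/
def exL (c c' d : ℕ) : List Fx := [⟨0, c⟩, ⟨1, c'⟩, ⟨2, d⟩]
/-- bounds of the height, the abscissa is at most `d` -/
def exR (c c' d : ℕ) : List Fx := [⟨0, c⟩, ⟨1, c'⟩, ⟨3, d⟩]
/-- bounds of the height, the abscissa is at least `1 - G y` -/
def exG (c c' : ℕ) : List Fx := [⟨0, c⟩, ⟨1, c'⟩, ⟨4, 0⟩]

theorem exY_no (h1 : (c : ℝ) / 1073741824 ≤ y) (h2 : y ≤ (c' : ℝ) / 1073741824) :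
    ∀ e ∈ exY c c', ¬ e.P x y X := by
  intro e he
  simp only [exY, List.mem_cons, List.not_mem_nil, or_false] at he
  rcases he with rfl | rfl
  · exact not_lt.2 h1
  · exact not_lt.2 h2

theorem exL_no (h1 : (c : ℝ) / 1073741824 ≤ y) (h2 : y ≤ (c' : ℝ) / 1073741824)
    (h3 : (d : ℝ) / 1073741824 ≤ X) : ∀ e ∈ exL c c' d, ¬ e.P x y X := by
  intro e he
  simp only [exL, List.mem_cons, List.not_mem_nil, or_false] at he
  rcases he with rfl | rfl | rfl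
  · exact not_lt.2 h1
  · exact not_lt.2 h2
  · exact not_lt.2 h3

theorem exR_no (h1 : (c : ℝ) / 1073741824 ≤ y) (h2 : y ≤ (c' : ℝ) / 1073741824)
    (h3 : X ≤ (d : ℝ) / 1073741824) : ∀ e ∈ exR c c' d, ¬ e.P x y X := by
  intro e he
  simp only [exR, List.mem_cons, List.not_mem_nil, or_false] at he
  rcases he with rfl | rfl | rfl
  · exact not_lt.2 h1
  · exact not_lt.2 h2
  · exact not_lt.2 h3

theorem exG_no (h1 : (c : ℝ) / 1073741824 ≤ y) (h2 : y ≤ (c' : ℝ) / 1073741824)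
    (h3 : 1 - G y ≤ X) : ∀ e ∈ exG c c', ¬ e.P x y X := by
  intro e he
  simp only [exG, List.mem_cons, List.not_mem_nil, or_false] at he
  rcases he with rfl | rfl | rfl
  · exact not_lt.2 h1
  · exact not_lt.2 h2
  · exact not_lt.2 h3

end

/-! ### Step functions -/

/-- The step function: `a / 1000` up to `t / 1000` for the pairs `(t, a)` of the list, then
`d / 1000`. -/
noncomputable def stp : List (ℕ × ℕ) → ℕ → ℝ → ℝ
  | [], d, _ => (d : ℝ) / 1000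
  | (t, a) :: L, d, T => if T ≤ (t : ℝ) / 1000 then (a : ℝ) / 1000 else stp L d T

theorem stp_nonneg : ∀ (L : List (ℕ × ℕ)) (d : ℕ) (T : ℝ), 0 ≤ stp L d T
  | [], d, _ => by
    unfold stp
    positivity
  | (t, a) :: L, d, T => by
    unfold stp
    split_ifs
    · positivity
    · exact stp_nonneg L d T

/-- A property holds on all steps; `lo` is the lower end. -/
def StpAll (Pr : ℝ → ℝ → ℕ → Prop) (hi : ℕ) : ℕ → List (ℕ × ℕ) → ℕ → Prop
  | lo, [], d => Pr ((lo : ℝ) / 1000) ((hi : ℝ) / 1000) d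
  | lo, (t, a) :: L, d => Pr ((lo : ℝ) / 1000) ((t : ℝ) / 1000) a ∧ StpAll Pr hi t L d

theorem StpAll.mono {Pr Pr' : ℝ → ℝ → ℕ → Prop} {hi : ℕ} (h : ∀ t t' a, Pr t t' a → Pr' t t' a) :
    ∀ {L : List (ℕ × ℕ)} {lo d : ℕ}, StpAll Pr hi lo L d → StpAll Pr' hi lo L d
  | [], _, _, g => h _ _ _ g
  | (_, _) :: _, _, _, g => ⟨h _ _ _ g.1, g.2.mono h⟩

/-- The steps cover the range. -/
theorem StpAll.use {Q : ℝ → ℝ → Prop} {hi : ℕ} : ∀ {L : List (ℕ × ℕ)} {lo d : ℕ},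
    StpAll (fun t t' a => ∀ T, t ≤ T → T ≤ t' → Q T ((a : ℝ) / 1000)) hi lo L d →
      ∀ T, (lo : ℝ) / 1000 ≤ T → T ≤ (hi : ℝ) / 1000 → Q T (stp L d T)
  | [], lo, d, h, T, h1, h2 => h T h1 h2
  | (t, a) :: L, lo, d, h, T, h1, h2 => by
    unfold stp
    split_ifs with g
    · exact h.1 T h1 g
    · exact h.2.use T (not_le.1 g).le h2

section

variable {n : ℕ} {P : Pos n} {x μ th : ℝ} {f : ℝ → ℝ} {vR vL vC : ℝ → Fin (n + 1) → ℝ}
  {RK RL RC : Fin (n + 1) → ℕ → ℝ → ℝ → ℝ} {TK TL TC : ℕ → ℝ → ℝ → ℝ → ℝ} {q : ℕ} {y : ℝ}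
  {j : Fin (n + 1)}

theorem q_lt_three {y : ℝ} (h : InQ q y) (hT : h0 * y ≤ 1) : q < 3 := by
  have hp := h0_pos
  have hs := h0_sq
  have hy : y < 3 / 2 := by nlinarith
  match q, h with
  | 0, _ => norm_num
  | 1, _ => norm_num
  | 2, _ => norm_num
  | 3, ⟨h1, _⟩ => exact absurd h1 (not_le.2 hy)
  | _ + 4, h => exact h.elim

/-- **The inequalities at the wall from the quarters.** -/
theorem FV.wallN (V : FV P x μ th f vR vL vC RK RL RC TK TL TC)
    (h0' : ∀ j, On P RK RL RC x j 0 (WallP th x μ 0) fun _ => True)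
    (h1' : ∀ j, On P RK RL RC x j 1 (WallP th x μ 1) fun _ => True)
    (h2' : ∀ j, 1 < P.ρ j → On P RK RL RC x j 2 (WallP th x μ 2) fun y =>
      h0 * y ≤ 1 ∧ 1 - G y ≤ crv P j 2 y)
    (hs : ∀ y : ℝ, 1 ≤ y → h0 * y ≤ 1 → GV P x μ vR vL vC f 2 y (1 - G y)) :
    WallN P x μ f vR vL vC := by
  refine ⟨?_, hs⟩
  intro j q y hq hd hT h
  have q3 := q_lt_three hq hT
  match q, hq, q3 with
  | 0, hq, _ => exact V.gv hq hd (h0' j y hq hd trivial)
  | 1, hq, _ => exact V.gv hq hd (h1' j y hq hd trivial)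
  | 2, hq, _ =>
    obtain ⟨-, k1, k2⟩ := node_two hq hd hT h
    exact V.gv hq hd (h2' j k1 y hq hd ⟨hT, k2⟩)

/-- **The inequalities with the window from the quarters.** `HL`, `BL` are the steps. -/
theorem FV.winN (V : FV P x μ th f vR vL vC RK RL RC TK TL TC) {D0 : ℝ} {HL BL : List (ℕ × ℕ)}
    {hd' bd' : ℕ}
    (h0' : ∀ j, On P RK RL RC x j 0 (WallP th x μ 0) fun y => 3 / 100 ≤ h0 * y)
    (h1' : ∀ j, On P RK RL RC x j 1 (WallP th x μ 1) fun _ => True)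
    (h2' : ∀ j, 1 < P.ρ j → On P RK RL RC x j 2 (WallP th x μ 2) fun y =>
      h0 * y ≤ 1 ∧ 1 - G y ≤ crv P j 2 y)
    (hs : ∀ y : ℝ, 1 ≤ y → h0 * y ≤ 1 → GV P x μ vR vL vC f 2 y (1 - G y))
    (flat : ∀ j, On P RK RL RC x j 0 (FlatP th x μ 0) fun y => h0 * y ≤ 3 / 100)
    (left : ∀ j, On P RK RL RC x j 0 (WallP th x μ 0) fun y =>
      h0 * y ≤ 3 / 100 ∧ crv P j 0 y ≤ D0)
    (hD : 1 ≤ D0) (hD' : D0 ≤ 17 / 10)
    (left0 : OnT TK TL TC x 0 (fun _ => D0) (WallP th x μ 0) fun y => h0 * y ≤ 3 / 100)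
    (high : ∀ j q, StpAll (fun t t' a => On P RK RL RC x j q
      (fun y X A L C => HighP th x μ q y X A L C ((a : ℝ) / 1000) D0) fun y =>
        t ≤ h0 * y ∧ h0 * y ≤ t' + 3 / 100) 1700 800 HL hd')
    (high0 : ∀ T : ℝ, 97 / 100 ≤ T → T ≤ 17 / 10 → 1 ≤ stp HL hd' T * D0)
    (far : ∀ j q, StpAll (fun t t' a => On P RK RL RC x j q
      (fun y X A L C => FarP th x μ q y X A L C ((a : ℝ) / 1000) D0) fun y =>
        t ≤ h0 * y ∧ h0 * y ≤ t' + 3 / 100 ∧ D0 ≤ crv P j q y) 1340 880 BL bd')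
    (far0 : ∀ q, StpAll (fun t t' a => OnT TK TL TC x q (fun _ => D0)
      (fun y X A L C => FarP th x μ q y X A L C ((a : ℝ) / 1000) D0) fun y =>
        t ≤ h0 * y ∧ h0 * y ≤ t' + 3 / 100 ∧ qqn D0 y ≤ 3) 1340 880 BL bd')
    (near : ∀ j q, StpAll (fun t t' a => On P RK RL RC x j q
      (fun y X A L C => NearP th x μ q y X A L C ((a : ℝ) / 1000)) fun y =>
        t ≤ h0 * y ∧ h0 * y ≤ t' + 3 / 100 ∧ 0 < crv P j q y ∧ crv P j q y ≤ 2 / 5) 1340 880 BL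
          bd')
    (near0 : ∀ q, StpAll (fun t t' a => OnT TK TL TC x q (fun _ => 2 / 5)
      (fun y X A L C => NearP th x μ q y X A L C ((a : ℝ) / 1000)) fun y =>
        t ≤ h0 * y ∧ h0 * y ≤ t' + 3 / 100 ∧ 1 ≤ qqn (2 / 5) y) 1340 880 BL bd') :
    WinN P x μ th f vR vL vC RK RL (smT h0⁻¹ RC) TK TL (fun q X y x => h0⁻¹ * TC q X y x) D0
      (stp HL hd') (stp BL bd') := by
  have hp := h0_pos
  have hsq := h0_sq
  have e800 : ((800 : ℕ) : ℝ) / 1000 = 4 / 5 := by norm_num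
  have e1700 : ((1700 : ℕ) : ℝ) / 1000 = 17 / 10 := by norm_num
  have e880 : ((880 : ℕ) : ℝ) / 1000 = 22 / 25 := by norm_num
  have e1340 : ((1340 : ℕ) : ℝ) / 1000 = 67 / 50 := by norm_num
  have cC : ∀ (j : Fin (n + 1)) (q : ℕ) (y : ℝ), h0 * smT h0⁻¹ RC j q y x = RC j q y x :=
    fun j q y => h0_cancel _
  refine ⟨stp_nonneg _ _, stp_nonneg _ _, ?_, hs, ?_, ?_, ?_, ?_, high0, ?_, ?_, ?_, ?_⟩
  · intro j q y hq hd hT3 hT h
    have q3 := q_lt_three hq hT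
    match q, hq, q3 with
    | 0, hq, _ => exact V.gv hq hd (h0' j y hq hd hT3)
    | 1, hq, _ => exact V.gv hq hd (h1' j y hq hd trivial)
    | 2, hq, _ =>
      obtain ⟨-, k1, k2⟩ := node_two hq hd hT h
      exact V.gv hq hd (h2' j k1 y hq hd ⟨hT, k2⟩)
  · intro j y hq hd hT3
    rw [cC]
    exact flat j y hq hd hT3
  · intro j y hq hd hT3 hX
    exact V.gv hq hd (left j y hq hd ⟨hT3, hX⟩)
  · intro y hy hT3
    have hy' : y ≤ 1 / 20 := by nlinarith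
    refine V.gvT (inQ_zero hy hT3) ?_ ?_ (left0 y (inQ_zero hy hT3) hT3)
    · unfold qqn
      nlinarith [sq_nonneg y]
    · unfold qqn
      nlinarith [sq_nonneg y]
  · intro j q y T hq hd t1 t2 t3 t4
    rw [cC]
    have k := StpAll.use (Q := fun T a => ∀ y, InQ q y → P.dm j (h0 * y) → T ≤ h0 * y →
      h0 * y ≤ T + 3 / 100 → HighP th x μ q y (crv P j q y) (RK j q y x) (RL j q y x) (RC j q y x)
        a D0) ((high j q).mono fun t t' a h T g1 g2 y hq hd t3 t4 =>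
          h y hq hd ⟨by linarith, by linarith⟩) T (by rw [e800]; exact t1)
        (by rw [e1700]; exact t2)
    exact k y hq hd t3 t4
  · intro j q y T hq hd t1 t2 t3 t4 hX
    rw [cC]
    have k := StpAll.use (Q := fun T a => ∀ y, InQ q y → P.dm j (h0 * y) → T ≤ h0 * y →
      h0 * y ≤ T + 3 / 100 → D0 ≤ crv P j q y → FarP th x μ q y (crv P j q y) (RK j q y x)
        (RL j q y x) (RC j q y x) a D0) ((far j q).mono fun t t' a h T g1 g2 y hq hd t3 t4 hX =>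
          h y hq hd ⟨by linarith, by linarith, hX⟩) T (by rw [e880]; exact t1)
        (by rw [e1340]; exact t2)
    exact k y hq hd t3 t4 hX
  · intro q y T hq t1 t2 t3 t4 hX
    have k := StpAll.use (Q := fun T a => ∀ y, InQ q y → T ≤ h0 * y →
      h0 * y ≤ T + 3 / 100 → qqn D0 y ≤ 3 → FarP th x μ q y D0 (TK q D0 y x) (TL q D0 y x)
        (TC q D0 y x) a D0) ((far0 q).mono fun t t' a h T g1 g2 y hq t3 t4 hX =>
          h y hq ⟨by linarith, by linarith, hX⟩) T (by rw [e880]; exact t1)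
        (by rw [e1340]; exact t2)
    rw [h0_cancel]
    exact k y hq t3 t4 hX
  · intro j q y T hq hd t1 t2 t3 t4 hX0 hX
    rw [cC]
    have k := StpAll.use (Q := fun T a => ∀ y, InQ q y → P.dm j (h0 * y) → T ≤ h0 * y →
      h0 * y ≤ T + 3 / 100 → 0 < crv P j q y → crv P j q y ≤ 2 / 5 → NearP th x μ q y
        (crv P j q y) (RK j q y x) (RL j q y x) (RC j q y x) a)
        ((near j q).mono fun t t' a h T g1 g2 y hq hd t3 t4 hX0 hX =>
          h y hq hd ⟨by linarith, by linarith, hX0, hX⟩) T (by rw [e880]; exact t1)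
        (by rw [e1340]; exact t2)
    exact k y hq hd t3 t4 hX0 hX
  · intro q y T hq t1 t2 t3 t4 hX
    have k := StpAll.use (Q := fun T a => ∀ y, InQ q y → T ≤ h0 * y →
      h0 * y ≤ T + 3 / 100 → 1 ≤ qqn (2 / 5) y → NearP th x μ q y (2 / 5) (TK q (2 / 5) y x)
        (TL q (2 / 5) y x) (TC q (2 / 5) y x) a) ((near0 q).mono fun t t' a h T g1 g2 y hq t3 t4
          hX => h y hq ⟨by linarith, by linarith, hX⟩) T (by rw [e880]; exact t1)
        (by rw [e1340]; exact t2)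
    rw [h0_cancel]
    exact k y hq t3 t4 hX

end

/-! ### The vertices -/

/-- the zero function -/
noncomputable def mZ : Fn1 := ⟨fun _ => pdc 0 0, fun _ => 0, fun _ => enc_cast (enc_dc _ 0 0) (by norm_num)⟩

/-- `1 / (3 + 2 G x)` -/
noncomputable def mT : Fn1 := ⟨_, _, fun h1 => enc_inv (enc_add (enc_pnc _ 3) (enc_nat 2 (enc_c1T h1)))⟩

/-- the zero function of two variables -/
noncomputable def cZ : Fn2 := ⟨fun _ _ => pdc 0 0, fun _ _ => 0, fun _ _ => enc_cast (enc_dc _ 0 0) (by norm_num)⟩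

/-- the zero function of three variables -/
noncomputable def dZ : Fn3 := ⟨fun _ _ _ => pdc 0 0, fun _ _ _ => 0, fun _ _ _ => enc_cast (enc_dc _ 0 0) (by norm_num)⟩

theorem mT_v (x : ℝ) : mT.v x = mu 3 (h0 * x) := by
  rw [mu_n]
  show (((3 : ℕ) : ℝ) + ((2 : ℕ) : ℝ) * c1n x)⁻¹ = mun 3 x
  unfold mun
  rw [one_div]
  push_cast
  rfl

section

variable {n : ℕ} {P : Pos n} {x th : ℝ} {RA RB RL RC : Fin (n + 1) → ℕ → ℝ → ℝ → ℝ}
  {TA TB TL TC : ℕ → ℝ → ℝ → ℝ → ℝ}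

theorem link_zero : Link P.cur x (fun _ _ => 0) (smT h0⁻¹ fun _ _ _ _ => 0)
    fun q X y x => h0⁻¹ * (fun _ _ _ _ => (0 : ℝ)) q X y x where
  adm := ⟨fun _ _ => rfl, fun _ _ => rfl, fun _ _ => rfl, fun _ _ _ => rfl⟩
  node j q y _ _ := by
    unfold smT
    rw [mul_zero]
  third q X y _ _ _ := by
    rw [mul_zero]
    exact ker_zero_val P.cur.isNodes X _

theorem kE_nn (x0 : 0 < x) (x1 : x < 1) : 0 ≤ kE (h0 * x) := by
  have hp := h0_pos
  have h := Pool.Agent.Strip051.LC.Floor.kE_low x0 x1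
  have e := En_nn x0 x1
  have : 0 < h0 - h0 * x := by nlinarith
  by_contra hn
  have h2 := mul_neg_of_neg_of_pos (not_le.1 hn) this
  rw [h] at h2
  have : 0 ≤ 2 * En x / x := by positivity
  linarith

theorem kE_ken (x0 : 0 < x) (x1 : x < 1) : kE (h0 * x) = ken x / h0 := by
  have hp := h0_pos
  have hne : h0 ≠ 0 := hp.ne'
  have h2 : 1 - x ≠ 0 := by linarith
  have h3 : x ≠ 0 := x0.ne'
  unfold kE ken
  rw [we_n]
  field_simp

/-- The far vertex and the near vertex with two kernels. -/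
theorem FV.two (x0 : 0 < x) (x1 : x < 1) {μ : ℝ} (hμ : 0 ≤ μ) (lA : Link P.cur x (tbl RA x) RA TA)
    (lL : Link P.cur x (tbl RL x) RL TL) : FV P x μ th (fun _ => 0) (tbl RA x) (tbl RL x)
      (fun _ _ => 0) RA RL (fun _ _ _ _ => 0) TA TL (fun _ _ _ _ => 0) where
  par := ⟨x0, x1, kE_nn x0 x1, hμ, denF_zero, fun _ => rfl, fun q y X _ => by
    rw [ker_zero_val P.cur.isNodes X _]
    simp⟩
  lR := lA
  lL := lL
  lC := link_zero

/-- The near vertex with three kernels. -/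
theorem FV.three (x0 : 0 < x) (x1 : x < 1) {μ E : ℝ} (hμ : 0 ≤ μ) (h0t : 0 < th) (ht1 : th ≤ 1)
    (pA : Pins P RA x) (lA : Link P.cur x (tbl RA x) RA TA) (lL : Link P.cur x (tbl RL x) RL TL)
    (lC : Link P.cur x (tbl (smT h0⁻¹ RC) x) (smT h0⁻¹ RC) fun q X y x => h0⁻¹ * TC q X y x) :
    FV P x μ th (tnt (h0 * x) th) (fun T i => E * tbl RA x T i) (tbl RL x) (tbl (smT h0⁻¹ RC) x)
      (smT E RA) RL RC (fun q X y x => E * TA q X y x) TL TC where
  par := ⟨x0, x1, kE_nn x0 x1, hμ, ⟨tnt_cont h0t ht1 (by have := h0_pos; positivity) (by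
      have := h0_pos
      nlinarith), fun u => tnt_abs h0t ht1 (by have := h0_pos; positivity) (by
      have := h0_pos
      nlinarith) u⟩, (tnt_denOk h0t ht1 (by have := h0_pos; positivity) (by
      have := h0_pos
      nlinarith)).per, fun q y X hq => by
    rw [tnt_intQ x0 x1 h0t ht1 hq]
    ring⟩
  lR := by
    have e : tbl (smT E RA) x = fun T i => E * tbl RA x T i := by
      funext T i
      exact tbl_smul E x T i
    rw [← e]
    exact pA.link_smul E lA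
  lL := lL
  lC := lC

end

/-! ### The rows -/

section

variable {n : ℕ} {P : Pos n} {x th : ℝ} {vA vB vX vC : ℝ → Fin (n + 1) → ℝ} {N0 : ℕ}
  {a E o : ℝ}

theorem U0_eq (T : Tab) (C : ℝ → ℝ → ℝ) (f : ℝ → ℝ) (x : ℝ) :
    U0 T C f (kE (h0 * x)) (h0 * x) = UX x 0 T.A T.Xi (fun _ _ => 0) fun _ => 0 := by
  funext X y z
  unfold U0 UX UT UF
  simp only [zero_mul, sub_zero]

theorem UN_eq (T : Tab) (C : ℝ → ℝ → ℝ) (f : ℝ → ℝ) (x : ℝ) :
    UN T C f N0 (kE (h0 * x)) (h0 * x) = UX x (mu N0 (h0 * x)) T.B T.Xi C f := rfl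

theorem UP_zero {vR vL : ℝ → Fin (n + 1) → ℝ} {μ : ℝ} {f : ℝ → ℝ} :
    UP P x μ vR vL (fun _ _ => 0) f = UX x μ (ker P.cur.nodes vR fun _ _ => 0)
      (ker P.cur.nodes vL fun _ _ => 0) (fun _ _ => 0) f := by
  have e : (ker P.cur.nodes (fun _ _ => (0 : ℝ)) fun _ _ => 0) = fun _ _ => 0 := by
    funext X T
    exact ker_zero_val P.cur.isNodes X T
  unfold UP
  rw [e]

variable {κ D0 D1 : ℝ} {al be al' be' : ℝ → ℝ} {RR RL RC RR' RL' RC' : Fin (n + 1) → ℕ → ℝ → ℝ → ℝ}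
  {TR TL TC TR' TL' TC' : ℕ → ℝ → ℝ → ℝ → ℝ}

/-- The far vertex at the wall. -/
theorem wallU_far {T : Tab} {C : ℝ → ℝ → ℝ} {f : ℝ → ℝ}
    (eA : T.A = ker P.cur.nodes vA fun _ _ => 0) (eX : T.Xi = ker P.cur.nodes vX fun _ _ => 0)
    (V : VPar P x 0 th (fun _ => 0) fun _ _ => 0)
    (W : WallN P x 0 (fun _ => 0) vA vX fun _ _ => 0) :
    WallU (U0 T C f (kE (h0 * x)) (h0 * x)) (NodeAt P.cur.nodes) := by
  have h := W.wallU V
  rw [UP_zero] at h
  rw [U0_eq, eA, eX]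
  exact h

/-- The far vertex with the window. -/
theorem winU_far {T : Tab} {C : ℝ → ℝ → ℝ} {f : ℝ → ℝ}
    (eA : T.A = ker P.cur.nodes vA fun _ _ => 0) (eX : T.Xi = ker P.cur.nodes vX fun _ _ => 0)
    (V : VPar P x 0 th (fun _ => 0) fun _ _ => 0) (X : Vx P x vA vX (fun _ _ => 0) RR RL RC TR TL TC)
    (W : WinN P x 0 th (fun _ => 0) vA vX (fun _ _ => 0) RR RL RC TR TL TC D0 al be)
    (h1 : 11 / 10 ≤ D0) (h2 : D0 ≤ 17 / 10) :
    WinU (U0 T C f (kE (h0 * x)) (h0 * x)) (NodeAt P.cur.nodes) D0 al be := by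
  have h := W.winU V X h1 h2
  rw [UP_zero] at h
  rw [U0_eq, eA, eX]
  exact h

/-- **Two kernels, no window.** -/
theorem certS_wall (h : CertS P.cur vA vB vX N0 a κ (h0 * x)) (hκ : κ = kE (h0 * x))
    (VF : VPar P x 0 1 (fun _ => 0) fun _ _ => 0)
    (WF : WallN P x 0 (fun _ => 0) vA vX fun _ _ => 0)
    (VN : VPar P x (mu N0 (h0 * x)) 1 (fun _ => 0) fun _ _ => 0)
    (WN : WallN P x (mu N0 (h0 * x)) (fun _ => 0) vB vX fun _ _ => 0) :
    RowOK ((tab P.cur.nodes vA vB vX).flat N0 κ (h0 * x)) N0 (h0 * x) := by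
  subst hκ
  refine h.fixSm.rowWall (wallU_far rfl rfl VF WF) ?_
  have k := WN.wallU VN
  rw [UP_zero] at k
  rw [UN_eq]
  exact k

/-- **Two kernels, window.** -/
theorem certS_win (h : CertS P.cur vA vB vX N0 a κ (h0 * x)) (hκ : κ = kE (h0 * x)) (hN : 3 ≤ N0)
    (VF : VPar P x 0 1 (fun _ => 0) fun _ _ => 0)
    (XF : Vx P x vA vX (fun _ _ => 0) RR RL RC TR TL TC)
    (WF : WinN P x 0 1 (fun _ => 0) vA vX (fun _ _ => 0) RR RL RC TR TL TC D0 al be)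
    (VN : VPar P x (mu N0 (h0 * x)) 1 (fun _ => 0) fun _ _ => 0)
    (XN : Vx P x vB vX (fun _ _ => 0) RR' RL' RC' TR' TL' TC')
    (WN : WinN P x (mu N0 (h0 * x)) 1 (fun _ => 0) vB vX (fun _ _ => 0) RR' RL' RC' TR' TL' TC' D1
      al' be') (h1 : 11 / 10 ≤ D0) (h2 : D0 ≤ 17 / 10) (h3 : 11 / 10 ≤ D1) (h4 : D1 ≤ 17 / 10) :
    RowOK ((tab P.cur.nodes vA vB vX).flat N0 κ (h0 * x)) N0 (h0 * x) := by
  subst hκ
  refine h.fixSm.rowWin (al' := al') (be' := be') hN h1 h3 (winU_far rfl rfl VF XF WF h1 h2) ?_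
  have k := WN.winU VN XN h3 h4
  rw [UP_zero] at k
  rw [UN_eq]
  exact k

variable {f : ℝ → ℝ}

/-- **Three kernels, no window.** -/
theorem certE_wall (h : CertE P.cur vA vX vC f N0 a κ (h0 * x) E o) (hκ : κ = kE (h0 * x))
    (VF : VPar P x 0 1 (fun _ => 0) fun _ _ => 0)
    (WF : WallN P x 0 (fun _ => 0) vA vX fun _ _ => 0)
    (VN : VPar P x (mu N0 (h0 * x)) th f vC)
    (WN : WallN P x (mu N0 (h0 * x)) f (fun T i => E * vA T i) vX vC) :
    RowOK ((tab P.cur.nodes vA (fun T i => E * vA T i) vX).flat3 (ker P.cur.nodes vC fun _ _ => 0)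
      f N0 κ (h0 * x)) N0 (h0 * x) := by
  subst hκ
  exact h.fixDir.rowWall (wallU_far rfl rfl VF WF) (WN.wallU VN)

/-- **Three kernels, window.** -/
theorem certE_win (h : CertE P.cur vA vX vC f N0 a κ (h0 * x) E o) (hκ : κ = kE (h0 * x))
    (hN : 3 ≤ N0) (VF : VPar P x 0 1 (fun _ => 0) fun _ _ => 0)
    (XF : Vx P x vA vX (fun _ _ => 0) RR RL RC TR TL TC)
    (WF : WinN P x 0 1 (fun _ => 0) vA vX (fun _ _ => 0) RR RL RC TR TL TC D0 al be)
    (VN : VPar P x (mu N0 (h0 * x)) th f vC)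
    (XN : Vx P x (fun T i => E * vA T i) vX vC RR' RL' RC' TR' TL' TC')
    (WN : WinN P x (mu N0 (h0 * x)) th f (fun T i => E * vA T i) vX vC RR' RL' RC' TR' TL' TC' D1
      al' be') (h1 : 11 / 10 ≤ D0) (h2 : D0 ≤ 17 / 10) (h3 : 11 / 10 ≤ D1) (h4 : D1 ≤ 17 / 10) :
    RowOK ((tab P.cur.nodes vA (fun T i => E * vA T i) vX).flat3 (ker P.cur.nodes vC fun _ _ => 0)
      f N0 κ (h0 * x)) N0 (h0 * x) := by
  subst hκ
  exact h.fixDir.rowWin hN h1 h3 (winU_far rfl rfl VF XF WF h1 h2) (WN.winU VN XN h3 h4)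

end

end Pool.Agent.Strip051.PB
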