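import Pool.Agent.Strip051.PB.FlSl

/-! # The rows at the floor at the tight pairs

Divided rows: `rowGe` on the node curves through the abscissa `B` at the height `b` (`b = 0`, `B = 1`
or `b = 1`, `B = 1 / 2`), `rowSt` on the steep pairs near `y = 1`, `rowNr` for the narrow pairs on the
unit circle, `ftTg` near the tight unit pair. -/

namespace Pool.Agent.Strip051.PB

open Pool.Agent.StripNear Pool.Agent.StripSquare Pool.Agent.Strip051.Sweep
open Pool.Agent.Strip051.LC.Floor (G En Qn fS GUn epn ehn rhn Aan omn lmn lhn kan k3n k3d zen hbn hfl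
  hml hfh hmh)

/-! ### Real side -/

section

variable {x μ th y v : ℝ} {q : ℕ}

theorem fS_base {b B P : ℝ} (hb : (b = 0 ∧ B = 1) ∨ (b = 1 ∧ B = 1 / 2))
    (hP : P = (En x + μ * Qn x) * B) : fS x μ b B P 0 (-1) = 0 := by
  unfold fS
  rcases hb with ⟨rfl, rfl⟩ | ⟨rfl, rfl⟩ <;> rw [hP] <;> ring

/-- the slope of the mean at the ends -/
noncomputable def dmn (q : ℕ) (x : ℝ) : ℝ := cond (od q) (-(1 - x)⁻¹) x⁻¹

/-- The slope of the floor function at a tight pair. -/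
noncomputable def gerR (q : ℕ) (B x μ y dX dA dL : ℝ) : ℝ :=
  dX * (1 / 2 - En x - μ * Qn x + y / 2) + B / 2 - En x * dA * mnQ q x y -
    (En x + μ * Qn x) * B * dmn q x - (1 / 2 - μ * G x - μ * (y - x) / 2) * dL

/-- the height `b` is an end of the quarter `q` -/
def EndQ (q : ℕ) (b B : ℝ) : Prop :=
  (q = 0 ∧ b = 0 ∧ B = 1) ∨ (q = 1 ∧ b = 1 ∧ B = 1 / 2) ∨ (q = 2 ∧ b = 1 ∧ B = 1 / 2)

/-- the point is on the side of the end where the mean is linear -/
def SideQ (q : ℕ) (x y : ℝ) : Prop := cond (od q) (x ≤ vq q y) (vq q y ≤ x)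

theorem mn_ger {b B : ℝ} (hx : 0 < x) (hx1 : x < 1) (hb : EndQ q b B) (hs : SideQ q x y) :
    mnQ q x y = -1 + (y - b) * dmn q x := by
  have h1 : 1 - x ≠ 0 := by linarith
  have h2 : x ≠ 0 := hx.ne'
  rcases hb with ⟨rfl, rfl, rfl⟩ | ⟨rfl, rfl, rfl⟩ | ⟨rfl, rfl, rfl⟩
  · have hs' : y ≤ x := hs
    show mnE x y = -1 + (y - 0) * x⁻¹
    unfold mnE wgE
    rw [if_pos (by linarith)]
    field_simp
    ring
  · have hs' : x ≤ y := hs
    show mnO x y = -1 + (y - 1) * -(1 - x)⁻¹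
    unfold mnO wgO
    rw [if_pos (by linarith)]
    field_simp
    ring
  · have hs' : y - 1 ≤ x := hs
    show mnE x (y - 1) = -1 + (y - 1) * x⁻¹
    unfold mnE wgE
    rw [if_pos (by linarith)]
    field_simp
    ring

theorem ger_val {b B dX dA dL X A L A0 : ℝ} (hx : 0 < x) (hx1 : x < 1) (hb : EndQ q b B)
    (hs : SideQ q x y) (hA0 : En x * A0 = (En x + μ * Qn x) * B) (hX : X - B = (y - b) * dX)
    (hA : A - A0 = (y - b) * dA) (hL : L - 0 = (y - b) * dL) :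
    fS x μ y X (En x * A) L (mnQ q x y) = (y - b) * gerR q B x μ y dX dA dL := by
  have hm := mn_ger hx hx1 hb hs
  have h0 := fS_base (x := x) (μ := μ) (b := b) (B := B) (P := En x * A0) (by
    rcases hb with ⟨-, h⟩ | ⟨-, h⟩ | ⟨-, h⟩
    · exact Or.inl h
    · exact Or.inr h
    · exact Or.inr h) hA0
  have eX : X = B + (y - b) * dX := by linarith
  have eA : A = A0 + (y - b) * dA := by linarith
  have eL : L = (y - b) * dL := by linarith
  have e1 : fS x μ y X (En x * A) L (mnQ q x y) - fS x μ b B (En x * A0) 0 (-1) =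
      (y - b) * (dX * (1 / 2 - En x - μ * Qn x + y / 2) + B / 2 - En x * dA * mnQ q x y -
        (1 / 2 - μ * G x - μ * (y - x) / 2) * dL) - En x * A0 * (mnQ q x y + 1) := by
    unfold fS
    rw [eX, eA, eL]
    ring
  rw [h0, sub_zero] at e1
  rw [e1, hA0]
  have e2 : mnQ q x y + 1 = (y - b) * dmn q x := by linarith
  rw [e2]
  unfold gerR
  ring

/-- sign of the side -/
noncomputable def sgQ (q : ℕ) (d : ℝ) : ℝ := cond (od q) (-d) d

/-- the width of the interval at the end -/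
noncomputable def wdq (q : ℕ) (x : ℝ) : ℝ := cond (od q) (1 - x) x

/-- the slope of the integral of the tents at the end -/
noncomputable def jgR (th : ℝ) (q : ℕ) (x y : ℝ) : ℝ := 1 - taq q y * (th⁻¹ * (wdq q x)⁻¹)

/-- the point is inside the tent at the end -/
def NrQ (th : ℝ) (q : ℕ) (x y : ℝ) : Prop := taq q y ≤ th / 2 * wdq q x

theorem NrQ.side {b B : ℝ} (ht : th ≤ 1) (hx : 0 < x) (hx1 : x < 1) (hb : EndQ q b B)
    (h : NrQ th q x y) : SideQ q x y := by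
  unfold NrQ at h
  rcases hb with ⟨rfl, rfl, rfl⟩ | ⟨rfl, rfl, rfl⟩ | ⟨rfl, rfl, rfl⟩
  · have h' : y ≤ th / 2 * x := h
    show y ≤ x
    nlinarith
  · have h' : 1 - y ≤ th / 2 * (1 - x) := h
    show x ≤ y
    nlinarith
  · have h' : y - 1 ≤ th / 2 * x := h
    show y - 1 ≤ x
    nlinarith

theorem jx_end {b B : ℝ} (ht : th ≤ 1) (hx : 0 < x) (hx1 : x < 1) (hb : EndQ q b B)
    (h : NrQ th q x y) (hy : 0 ≤ sgQ q (y - b)) : jx th x (vq q y) = -((y - b) * jgR th q x y) := by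
  unfold NrQ at h
  unfold jx
  rcases hb with ⟨rfl, rfl, rfl⟩ | ⟨rfl, rfl, rfl⟩ | ⟨rfl, rfl, rfl⟩
  · have h' : y ≤ th / 2 * x := h
    have hy' : 0 ≤ y - 0 := hy
    have e : vq 0 y = y := rfl
    have e2 : jgR th 0 x y = 1 - y * (th⁻¹ * x⁻¹) := rfl
    have h3 : y ≤ x - y := by nlinarith
    rw [e, e2, if_pos (by linarith), min_eq_left h3, min_eq_left h']
    ring
  · have h' : 1 - y ≤ th / 2 * (1 - x) := h
    have hy' : 0 ≤ -(y - 1) := hy
    have e : vq 1 y = y := rfl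
    have e2 : jgR th 1 x y = 1 - (1 - y) * (th⁻¹ * (1 - x)⁻¹) := rfl
    have h3 : 1 - y ≤ y - x := by nlinarith
    have h4 : x < y := by nlinarith
    rw [e, e2, if_neg (by linarith), min_eq_right h3, min_eq_left h']
    ring
  · have h' : y - 1 ≤ th / 2 * x := h
    have hy' : 0 ≤ y - 1 := hy
    have e : vq 2 y = y - 1 := rfl
    have e2 : jgR th 2 x y = 1 - (y - 1) * (th⁻¹ * x⁻¹) := rfl
    have h3 : y - 1 ≤ x - (y - 1) := by nlinarith
    rw [e, e2, if_pos (by linarith), min_eq_left h3, min_eq_left h']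
    ring

/-- The slope of the floor function with the third kernel. -/
noncomputable def gexR (th : ℝ) (q : ℕ) (B x μ y dX dA dL C : ℝ) : ℝ :=
  gerR q B x μ y dX dA dL + μ * C * jgR th q x y

theorem gex_val {b B dX dA dL X A L A0 C : ℝ} (ht : th ≤ 1) (hx : 0 < x) (hx1 : x < 1)
    (hb : EndQ q b B) (hs : NrQ th q x y) (hA0 : En x * A0 = (En x + μ * Qn x) * B)
    (hX : X - B = (y - b) * dX) (hA : A - A0 = (y - b) * dA) (hL : L - 0 = (y - b) * dL)
    (hy : 0 ≤ sgQ q (y - b)) :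
    usX th x μ q y X A L C = (y - b) * gexR th q B x μ y dX dA dL C := by
  have hv := ger_val hx hx1 hb (hs.side ht hx hx1 hb) hA0 hX hA hL
  have hj := jx_end ht hx hx1 hb hs hy
  unfold usX gexR
  rw [hv, hj]
  ring

/-- the condition for the width of the tents: without third kernel it does not matter -/
def ThZ (z : Bool) (th th' : ℝ) : Prop := cond z (th ≤ 2) (th ≤ 1 ∧ th' = th)

theorem NrQ.side2 {b B : ℝ} (ht : th ≤ 2) (hx : 0 < x) (hx1 : x < 1) (hb : EndQ q b B)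
    (h : NrQ th q x y) : SideQ q x y := by
  unfold NrQ at h
  rcases hb with ⟨rfl, rfl, rfl⟩ | ⟨rfl, rfl, rfl⟩ | ⟨rfl, rfl, rfl⟩
  · have h' : y ≤ th / 2 * x := h
    show y ≤ x
    nlinarith
  · have h' : 1 - y ≤ th / 2 * (1 - x) := h
    show x ≤ y
    nlinarith
  · have h' : y - 1 ≤ th / 2 * x := h
    show y - 1 ≤ x
    nlinarith

theorem gexz_val {z : Bool} {th' b B dX dA dL X A L A0 C : ℝ} (ht : ThZ z th th') (hx : 0 < x)
    (hx1 : x < 1)
    (hb : EndQ q b B) (hs : NrQ th q x y) (hA0 : En x * A0 = (En x + μ * Qn x) * B)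
    (hX : X - B = (y - b) * dX) (hA : A - A0 = (y - b) * dA) (hL : L - 0 = (y - b) * dL)
    (hy : 0 ≤ sgQ q (y - b)) :
    usX th' x μ q y X A L (cz z C) = (y - b) * gexR th q B x μ y dX dA dL (cz z C) := by
  cases z
  · obtain ⟨h1, h2⟩ := ht
    subst h2
    exact gex_val h1 hx hx1 hb hs hA0 hX hA hL hy
  · have hv := ger_val hx hx1 hb (hs.side2 (ht : th ≤ 2) hx hx1 hb) hA0 hX hA hL
    unfold usX gexR cz
    rw [hv, cond_true]
    ring

theorem gex_pos {z : Bool} {th' b B dX dA dL X A L A0 C : ℝ} (ht : ThZ z th th') (hx : 0 < x)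
    (hx1 : x < 1)
    (hb : EndQ q b B) (hs : NrQ th q x y) (hA0 : En x * A0 = (En x + μ * Qn x) * B)
    (hX : X - B = (y - b) * dX) (hA : A - A0 = (y - b) * dA) (hL : L - 0 = (y - b) * dL)
    (hy : 0 ≤ sgQ q (y - b)) (hg : 0 ≤ sgQ q (gexR th q B x μ y dX dA dL (cz z C))) :
    0 ≤ usX th' x μ q y X A L (cz z C) := by
  rw [gexz_val ht hx hx1 hb hs hA0 hX hA hL hy]
  unfold sgQ at hy hg
  cases h : od q
  · rw [h] at hy hg
    exact mul_nonneg hy hg
  · rw [h] at hy hg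
    have := mul_nonneg hy hg
    simp only [cond_true] at this
    linarith

theorem usX_hom {a X A L C : ℝ} :
    usX th x μ q y (a * X) (a * A) (a * L) (a * C) + 1 / 2 =
      a * (usX th x μ q y X A L C + 1 / 2) := by
  unfold usX fS
  ring

theorem grU_hom {a X A L C : ℝ} (ha : 0 ≤ a) :
    grU x μ q y (a * X) (a * A) (a * L) (a * C) = a * grU x μ q y X A L C := by
  unfold grU
  rw [abs_mul, abs_of_nonneg ha, show -(a * A) = a * -A by ring]
  rw [show max (a * A) 0 = a * max A 0 by rw [mul_max_of_nonneg _ _ ha, mul_zero],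
    show max (a * -A) 0 = a * max (-A) 0 by rw [mul_max_of_nonneg _ _ ha, mul_zero]]
  ring

/-- The inequality for narrow pairs is homogeneous. -/
theorem NearP.smul {a X A L C b : ℝ} (ha : 0 ≤ a) (h : NearP th x μ q y X A L C b) :
    NearP th x μ q y (a * X) (a * A) (a * L) (a * C) b := by
  unfold NearP at *
  rw [usX_hom, grU_hom ha]
  have e : max (a * grU x μ q y X A L C) 0 = a * max (grU x μ q y X A L C) 0 := by
    rw [mul_max_of_nonneg _ _ ha, mul_zero]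
  rw [e]
  have := mul_le_mul_of_nonneg_left h ha
  linarith

/-- The floor function is affine on a segment. -/
theorem usX_aff {X0 X1 A0 A1 L0 L1 C0 C1 t : ℝ} :
    usX th x μ q y (X0 + (X1 - X0) * t) (A0 + (A1 - A0) * t) (L0 + (L1 - L0) * t)
        (C0 + (C1 - C0) * t) =
      (1 - t) * usX th x μ q y X0 A0 L0 C0 + t * usX th x μ q y X1 A1 L1 C1 := by
  unfold usX fS
  ring

end

/-! ### Packed side -/

/-- the slope of the mean -/
noncomputable def dmT (q x : ℕ) : ℕ := sl (od q) (pneg (pinv (psub pone x))) (pinv x)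

/-- `gerR`, `B = hB / 2` -/
noncomputable def gerT (q hB x M y dX dA dL : ℕ) : ℕ :=
  psub (psub (psub (padd (pmul (pnorm dX)
    (pnorm (padd (psub (psub (phn 1) (enT x)) (pmul M (qnT x))) (phf y))))
    (phf (phn hB))) (pmul (pnorm (pmul (enT x) (pnorm dA))) (pnorm (mnT q x (vqT q y)))))
    (pmul (pnorm (pmul (pnorm (padd (enT x) (pmul M (qnT x)))) (phn hB))) (dmT q x)))
    (pmul (pnorm (psub (psub (phn 1) (pmul M (c1T x))) (phf (pmul M (pnorm (psub y x))))))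
      (pnorm dL))

section

variable {E : Pt} {X Y V A L C M XX : ℕ} {x y v a l c μ X' : ℝ} (q : ℕ)

theorem enc_dmT (hx : Enc E X x) : Enc E (dmT q X) (dmn q x) :=
  enc_sl _ (enc_neg (enc_inv (enc_sub (enc_one E) hx))) (enc_inv hx)

theorem enc_gerT (hB : ℕ) {dX dA dL : ℕ} {dX' dA' dL' : ℝ} (hx : Enc E X x) (hM : Enc E M μ)
    (hy : Enc E Y y) (hX : Enc E dX dX') (hA : Enc E dA dA') (hL : Enc E dL dL') :
    Enc E (gerT q hB X M Y dX dA dL) (gerR q ((hB : ℝ) / 2) x μ y dX' dA' dL') := by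
  refine enc_cast (enc_sub (enc_sub (enc_sub (enc_add (enc_mul (enc_norm hX) (enc_norm (enc_add
    (enc_sub (enc_sub (enc_half1 E) (enc_enT hx)) (enc_mul hM (enc_qnT hx))) (enc_half hy))))
    (enc_half (enc_phn E hB)))
    (enc_mul (enc_norm (enc_mul (enc_enT hx) (enc_norm hA))) (enc_norm (enc_mnT q hx hy))))
    (enc_mul (enc_norm (enc_mul (enc_norm (enc_add (enc_enT hx) (enc_mul hM (enc_qnT hx))))
      (enc_phn E hB))) (enc_dmT q hx)))
    (enc_mul (enc_norm (enc_sub (enc_sub (enc_half1 E) (enc_mul hM (enc_G hx)))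
      (enc_half (enc_mul hM (enc_norm (enc_sub hy hx)))))) (enc_norm hL))) ?_
  unfold gerR
  ring

/-- width of the interval at the end -/
noncomputable def wdT' (q x : ℕ) : ℕ := sl (od q) (pnorm (psub pone x)) x

theorem enc_wdT' (hx : Enc E X x) : Enc E (wdT' q X) (wdq q x) :=
  enc_sl _ (enc_1sub hx) hx

/-- `jgR` -/
noncomputable def jgrT (a b q x y : ℕ) : ℕ :=
  psub pone (pmul (pnorm (taT q (vqT q y))) (pscale b a (pinv (wdT' q x))))

theorem enc_jgrT (a b : ℕ) (hx : Enc E X x) (hy : Enc E Y y) :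
    Enc E (jgrT a b q X Y) (jgR ((a : ℝ) / b) q x y) := by
  refine enc_cast (enc_sub (enc_one E) (enc_mul (enc_norm (enc_taT q hy))
    (enc_scale b a (enc_inv (enc_wdT' q hx))))) ?_
  unfold jgR
  rw [inv_div]

/-- `gexR` -/
noncomputable def gexT (z : Bool) (a b q hB x M y dX dA dL C : ℕ) : ℕ :=
  (fun g => sl z g (padd g (pmul (pnorm (pmul M (pnorm C))) (pnorm (jgrT a b q x y)))))
    (gerT q hB x M y dX dA dL)

theorem enc_gexT {z : Bool} (a' b' hB : ℕ) {dX dA dL : ℕ} {dX' dA' dL' : ℝ} (hx : Enc E X x)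
    (hM : Enc E M μ)
    (hy : Enc E Y y) (hX : Enc E dX dX') (hA : Enc E dA dA') (hL : Enc E dL dL') (hC : Enc E C c) :
    Enc E (gexT z a' b' q hB X M Y dX dA dL C)
      (gexR ((a' : ℝ) / b') q ((hB : ℝ) / 2) x μ y dX' dA' dL' (cz z c)) := by
  have g := enc_gerT q hB hx hM hy hX hA hL
  refine enc_cast (enc_sl z g (enc_add g (enc_mul (enc_norm (enc_mul hM (enc_norm hC)))
    (enc_norm (enc_jgrT q a' b' hx hy))))) ?_
  cases z
  · rfl
  · unfold gexR cz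
    rw [cond_true, cond_true]
    ring

/-- test for `NrQ` -/
noncomputable def nrT (a b q x y : ℕ) : Bool :=
  ppos (psub (pscale a (Nat.mul 2 b) (wdT' q x)) (taT q (vqT q y)))

theorem nrT_sound (a b : ℕ) (hx : Enc E X x) (hy : Enc E Y y) (h : nrT a b q X Y = true) :
    NrQ ((a : ℝ) / b) q x y := by
  have k := ppos_sound (enc_sub (enc_th2 a b (enc_wdT' q hx)) (enc_taT q hy)) h
  unfold NrQ
  linarith

end

/-- row at a tight pair of a node curve, the coordinate is the height, `bb` the height of the pair,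
`hB` twice its abscissa, `th = oa / ob` -/
noncomputable def rowGe (z : Bool) (L : List Fx) (oa ob q bb hB : ℕ) (M : Fn1) (n : Node) (c : Fn2)
    (sX : Sl1 n.X) (sK : Sl2 n.K) (sL : Sl2 n.L) (h p _q x : ℕ) : Bool :=
  Bool.rec (motive := fun _ => Bool) (fxNth L (Nat.shiftRight h 1) x p (n.X.t p))
    (band (nrT oa ob q x p) (ppos ((fun D => sl (od q) (pneg D) D)
      (gexT z oa ob q hB x (M.t x) p (sX.s p (pnc bb) pone) (sK.s p (pnc bb) pone x)
        (sL.s p (pnc bb) pone x) (c.t p x)))))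
    (Nat.beq (Nat.land h 1) 0)

/-- The statement of the row at a tight pair. -/
def GeR (z : Bool) (th : ℝ) (q : ℕ) (b B : ℝ) (M : Fn1) (n : Node) (c : Fn2) (p x : ℝ) : Prop :=
  ∃ dX dA dL : ℝ, NrQ th q x p ∧ n.X.v p - n.X.v b = (p - b) * dX ∧
    n.K.v p x - n.K.v b x = (p - b) * dA ∧ n.L.v p x - n.L.v b x = (p - b) * dL ∧
    0 ≤ sgQ q (gexR th q B x (M.v x) p dX dA dL (cz z (c.v p x)))

/-- The statement of the row at a tight pair with exclusions. -/
abbrev CertGe (P1 W1 P3 W3 : ℕ) (z : Bool) (L : List Fx) (th : ℝ) (q : ℕ) (b B : ℝ) (M : Fn1)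
    (n : Node) (c : Fn2) : Prop :=
  Cert2 P1 W1 P3 W3 fun p x => (∃ e ∈ L, e.P x p (n.X.v p)) ∨ GeR z th q b B M n c p x

section

variable {z : Bool} {L : List Fx} {P1 W1 P3 W3 : ℕ} {oa ob q bb hB : ℕ} {M : Fn1} {n : Node}
  {c : Fn2} {sX : Sl1 n.X} {sK : Sl2 n.K} {sL : Sl2 n.L}

theorem pr_pt {E : Pt} {P : ℕ} {p : ℝ} (hp : Enc E P p) (bb : ℕ) :
    Pr E (p - bb) P (pnc bb) pone p bb := pr_var hp (enc_pnc E bb) rfl

theorem certGe
    (ht : ∃ t, chk3 (onCell P1 W1 0 0 P3 W3 (rowGe z L oa ob q bb hB M n c sX sK sL)) t 1 1 1 =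
      true) : CertGe P1 W1 P3 W3 z L ((oa : ℝ) / ob) q bb ((hB : ℝ) / 2) M n c := by
  refine cert2 ?_ ht
  intro E h A B C p x h1 h3 hl
  unfold rowGe at hl
  rcases brec hl with h2 | h2
  · exact Or.inl (fxNth_sound h3 h1 (n.X.enc h1) L _ h2)
  · right
    obtain ⟨t1, t2⟩ := band_true h2
    have hp := pr_pt h1 bb
    obtain ⟨dX, eX, fX⟩ := (sX.snd hp).d
    obtain ⟨dA, eA, fA⟩ := (sK.snd hp h3).d
    obtain ⟨dL, eL, fL⟩ := (sL.snd hp h3).d
    refine ⟨dX, dA, dL, nrT_sound q oa ob h3 h1 t1, fX, fA, fL, ?_⟩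
    have g := enc_gexT (z := z) q oa ob hB h3 (M.enc h3) h1 eX eA eL (c.enc h1 h3)
    exact (ppos_sound (enc_sl (od q) (enc_neg g) g) t2).le

theorem GeR.pos {th th' b B p x : ℝ} (h : GeR z th q b B M n c p x) (x0 : 0 < x) (x1 : x < 1)
    (hth : ThZ z th th') (he : EndQ q b B) (bX : n.X.v b = B)
    (bK : En x * n.K.v b x = (En x + M.v x * Qn x) * B) (bL : n.L.v b x = 0)
    (hs : 0 ≤ sgQ q (p - b)) :
    0 ≤ usX th' x (M.v x) q p (n.X.v p) (n.K.v p x) (n.L.v p x) (cz z (c.v p x)) := by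
  obtain ⟨dX, dA, dL, k1, k2, k3, k4, k5⟩ := h
  rw [bX] at k2
  rw [bL] at k4
  exact gex_pos hth x0 x1 he k1 bK k2 k3 k4 hs k5

end

/-- row of the narrow pairs on the unit circle, divided by the abscissa, which is the coordinate -/
noncomputable def rowNr (T : FTst) (L : List Fx) (n : Node) (c : Fn2) (sK : Sl2 n.K) (sL : Sl2 n.L)
    (sC : Sl2 c) (h p _q x : ℕ) : Bool :=
  Bool.rec (motive := fun _ => Bool) (fxNth L (Nat.shiftRight h 1) x (n.Y.t p) p)
    (T.t x (n.Y.t p) pone (pnorm (sK.s p (pnc 0) pone x)) (sL.s p (pnc 0) pone x)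
      (sC.s p (pnc 0) pone x)) (Nat.beq (Nat.land h 1) 0)

/-- The statement of the row of the narrow pairs. -/
def NrR (z : Bool) (th : ℝ) (q : ℕ) (M : Fn1) (b : ℝ) (n : Node) (c : Fn2) (p x : ℝ) : Prop :=
  ∃ dA dL dC : ℝ, n.K.v p x - n.K.v 0 x = p * dA ∧ n.L.v p x - n.L.v 0 x = p * dL ∧
    c.v p x - c.v 0 x = p * dC ∧ NearP th x (M.v x) q (n.Y.v p) 1 dA dL (cz z dC) b

abbrev CertNr (P1 W1 P3 W3 : ℕ) (z : Bool) (L : List Fx) (th : ℝ) (q : ℕ) (M : Fn1) (b : ℝ)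
    (n : Node) (c : Fn2) : Prop :=
  Cert2 P1 W1 P3 W3 fun p x => (∃ e ∈ L, e.P x (n.Y.v p) p) ∨ NrR z th q M b n c p x

section

variable {z : Bool} {L : List Fx} {P1 W1 P3 W3 : ℕ} {q oa ob b : ℕ} {M : Fn1} {n : Node} {c : Fn2}
  {sK : Sl2 n.K} {sL : Sl2 n.L} {sC : Sl2 c}

theorem certNr
    (ht : ∃ t, chk3 (onCell P1 W1 0 0 P3 W3 (rowNr (ftNear z q M oa ob b) L n c sK sL sC)) t 1 1 1 =
      true) : CertNr P1 W1 P3 W3 z L ((oa : ℝ) / ob) q M ((b : ℝ) / 1000) n c := by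
  refine cert2 ?_ ht
  intro E h A B C p x h1 h3 hl
  unfold rowNr at hl
  rcases brec hl with h2 | h2
  · exact Or.inl (fxNth_sound h3 (n.Y.enc h1) h1 L _ h2)
  · right
    have hp := pr_pt h1 0
    obtain ⟨dA, eA, fA⟩ := (sK.snd hp h3).d
    obtain ⟨dL, eL, fL⟩ := (sL.snd hp h3).d
    obtain ⟨dC, eC, fC⟩ := (sC.snd hp h3).d
    push_cast at fA fL fC
    rw [sub_zero] at fA fL fC
    exact ⟨dA, dL, dC, fA, fL, fC,
      (ftNear z q M oa ob b).snd h3 (n.Y.enc h1) (enc_one E) (enc_norm eA) eL eC h2⟩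

theorem NrR.near {th b p x : ℝ} (h : NrR z th q M b n c p x) (hp0 : 0 ≤ p) (bK : n.K.v 0 x = 0)
    (bL : n.L.v 0 x = 0) (bC : z = false → c.v 0 x = 0) :
    NearP th x (M.v x) q (n.Y.v p) p (n.K.v p x) (n.L.v p x) (cz z (c.v p x)) b := by
  obtain ⟨dA, dL, dC, k1, k2, k3, k4⟩ := h
  rw [bK, sub_zero] at k1
  rw [bL, sub_zero] at k2
  have := k4.smul hp0
  rw [mul_one] at this
  rw [k1, k2]
  have e : cz z (c.v p x) = p * cz z dC := by
    cases z
    · rw [bC rfl, sub_zero] at k3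
      exact k3
    · exact (mul_zero p).symm
  rw [e]
  exact this

end

/-! ### Steep pairs near `y = 1` -/

/-- row of the steep pairs, `n`, `c` the node left of them, `n'`, `c'` the node right of them -/
noncomputable def rowSt (z : Bool) (L : List Fx) (oa ob : ℕ) (M : Fn1) (n : Node) (c : Fn2)
    (sX : Sl1 n.X) (sK : Sl2 n.K) (sL : Sl2 n.L) (n' : Node) (c' : Fn2) (h p _q x : ℕ) : Bool :=
  Bool.rec (motive := fun _ => Bool) (fxNth L (Nat.shiftRight h 1) x p (psub pone (c1T p)))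
    ((fun m g dX X0 X1 => (fun e i =>
      band (nrT oa ob 2 x p) (band (ppos (psub X1 X0)) (band (ppos e)
      (band (ppos (psub X1 (psub pone g)))
      (ppos (padd (pmul (pnorm (pmul (pnorm (psub X1 (psub pone g))) i))
        (pnorm (gexT z oa ob 2 1 x m p dX
        (sK.s p (pnc 1) pone x) (sL.s p (pnc 1) pone x) (c.t p x))))
        (pmul (pnorm (pmul (pnorm e) i))
          (pnorm (usT z 2 oa ob m x p X1 (n'.K.t p x) (n'.L.t p x) (c'.t p x))))))))))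
      (psub (pmul (pnorm (pscale 3 4 (padd p pone))) (pinv (padd g (phn 1)))) dX)
        (pinv (psub X1 X0)))
      (M.t x) (c1T p) (sX.s p (pnc 1) pone) (n.X.t p) (n'.X.t p))
    (Nat.beq (Nat.land h 1) 0)

section

variable {z : Bool} {L : List Fx} {P1 W1 P3 W3 : ℕ} {oa ob : ℕ} {M : Fn1} {n n' : Node}
  {c c' : Fn2} {sX : Sl1 n.X} {sK : Sl2 n.K} {sL : Sl2 n.L}

theorem G_slope {y : ℝ} (h : 3 / 4 * y ^ 2 ≤ 1) :
    1 - G y - 1 / 2 = (y - 1) * (3 / 4 * (y + 1) * (G y + 1 / 2)⁻¹) := by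
  have h1 := Pool.Agent.Strip051.LC.Floor.G_sq h
  have h2 := Pool.Agent.Strip051.LC.Floor.G_nonneg y
  have h3 : G y + 1 / 2 ≠ 0 := by linarith
  field_simp
  nlinarith

/-- The statement of the row of the steep pairs. -/
def StR (z : Bool) (th : ℝ) (M : Fn1) (n : Node) (c : Fn2) (n' : Node) (c' : Fn2) (p x : ℝ) :
    Prop :=
  ∃ dX dA dL : ℝ, NrQ th 2 x p ∧ n.X.v p - n.X.v 1 = (p - 1) * dX ∧
    n.K.v p x - n.K.v 1 x = (p - 1) * dA ∧ n.L.v p x - n.L.v 1 x = (p - 1) * dL ∧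
    0 < n'.X.v p - n.X.v p ∧ 0 < 3 / 4 * (p + 1) * (G p + 1 / 2)⁻¹ - dX ∧
    0 < n'.X.v p - (1 - G p) ∧
    0 < (n'.X.v p - (1 - G p)) * (n'.X.v p - n.X.v p)⁻¹ *
      gexR th 2 (1 / 2) x (M.v x) p dX dA dL (cz z (c.v p x)) +
      (3 / 4 * (p + 1) * (G p + 1 / 2)⁻¹ - dX) * (n'.X.v p - n.X.v p)⁻¹ *
      usX th x (M.v x) 2 p (n'.X.v p) (n'.K.v p x) (n'.L.v p x) (cz z (c'.v p x))

abbrev CertSt (P1 W1 P3 W3 : ℕ) (z : Bool) (L : List Fx) (th : ℝ) (M : Fn1) (n : Node) (c : Fn2)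
    (n' : Node) (c' : Fn2) : Prop :=
  Cert2 P1 W1 P3 W3 fun p x => (∃ e ∈ L, e.P x p (1 - G p)) ∨ StR z th M n c n' c' p x

theorem certSt
    (ht : ∃ t, chk3 (onCell P1 W1 0 0 P3 W3 (rowSt z L oa ob M n c sX sK sL n' c')) t 1 1 1 =
      true) : CertSt P1 W1 P3 W3 z L ((oa : ℝ) / ob) M n c n' c' := by
  refine cert2 ?_ ht
  intro E h A B C p x h1 h3 hl
  unfold rowSt at hl
  have hG := enc_G h1
  rcases brec hl with h2 | h2
  · exact Or.inl (fxNth_sound h3 h1 (enc_sub (enc_one E) hG) L _ h2)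
  · right
    obtain ⟨t1, h2⟩ := band_true h2
    obtain ⟨t2, h2⟩ := band_true h2
    obtain ⟨t3, h2⟩ := band_true h2
    obtain ⟨t4, t5⟩ := band_true h2
    have hp := pr_pt h1 1
    obtain ⟨dX, eX, fX⟩ := (sX.snd hp).d
    obtain ⟨dA, eA, fA⟩ := (sK.snd hp h3).d
    obtain ⟨dL, eL, fL⟩ := (sL.snd hp h3).d
    have g := enc_gexT (z := z) 2 oa ob 1 h3 (M.enc h3) h1 eX eA eL (c.enc h1 h3)
    have ee := enc_sub (enc_mul (enc_norm (enc_scale 3 4 (enc_add h1 (enc_one E))))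
      (enc_inv (enc_add hG (enc_half1 E)))) eX
    have ei := enc_inv (enc_sub (n'.X.enc h1) (n.X.enc h1))
    have eu := enc_usT (z := z) 2 oa ob (M.enc h3) h3 h1 (n'.X.enc h1) (n'.K.enc h1 h3)
      (n'.L.enc h1 h3) (c'.enc h1 h3)
    have es := enc_sub (n'.X.enc h1) (enc_sub (enc_one E) hG)
    have k2 := ppos_sound (enc_sub (n'.X.enc h1) (n.X.enc h1)) t2
    have k3 := ppos_sound ee t3
    have k4 := ppos_sound es t4
    have k5 := ppos_sound (enc_add (enc_mul (enc_norm (enc_mul (enc_norm es) ei)) (enc_norm g))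
      (enc_mul (enc_norm (enc_mul (enc_norm ee) ei)) (enc_norm eu))) t5
    push_cast at k3 k5 fX fA fL
    exact ⟨dX, dA, dL, nrT_sound 2 oa ob h3 h1 t1, fX, fA, fL, k2, k3, k4, k5⟩

theorem StR.pos {th th' p x : ℝ} (h : StR z th M n c n' c' p x) (x0 : 0 < x) (x1 : x < 1)
    (hth : ThZ z th th') (bX : n.X.v 1 = 1 / 2)
    (bK : En x * n.K.v 1 x = (En x + M.v x * Qn x) * (1 / 2)) (bL : n.L.v 1 x = 0)
    (hp1 : 1 ≤ p) (hp3 : 3 / 4 * p ^ 2 ≤ 1) :
    n.X.v p ≤ 1 - G p ∧ 1 - G p ≤ n'.X.v p ∧ ∀ X A L C t : ℝ,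
      t = (1 - G p - n.X.v p) / (n'.X.v p - n.X.v p) →
      X = n.X.v p + (n'.X.v p - n.X.v p) * t → A = n.K.v p x + (n'.K.v p x - n.K.v p x) * t →
      L = n.L.v p x + (n'.L.v p x - n.L.v p x) * t →
      C = cz z (c.v p x) + (cz z (c'.v p x) - cz z (c.v p x)) * t →
      0 ≤ usX th' x (M.v x) 2 p X A L C := by
  obtain ⟨dX, dA, dL, k1, k2, k3, k4, k5, k6, k7, k8⟩ := h
  rw [bX] at k2
  rw [bL] at k4
  have hg := G_slope hp3
  have l1 : 1 - G p - n.X.v p = (p - 1) * (3 / 4 * (p + 1) * (G p + 1 / 2)⁻¹ - dX) := by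
    linarith
  have l2 : 0 ≤ 1 - G p - n.X.v p := by
    rw [l1]
    exact mul_nonneg (by linarith) k6.le
  refine ⟨by linarith, by linarith, ?_⟩
  intro X A L C t et eX eA eL eC
  rw [eX, eA, eL, eC, usX_aff]
  have he : EndQ 2 1 (1 / 2) := Or.inr (Or.inr ⟨rfl, rfl, rfl⟩)
  have g := gexz_val (C := c.v p x) hth x0 x1 he k1 bK k2 k3 k4
    (show 0 ≤ sgQ 2 (p - 1) from (by
      show 0 ≤ p - 1
      linarith))
  rw [g]
  have hu : usX th' x (M.v x) 2 p (n'.X.v p) (n'.K.v p x) (n'.L.v p x) (cz z (c'.v p x)) =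
      usX th x (M.v x) 2 p (n'.X.v p) (n'.K.v p x) (n'.L.v p x) (cz z (c'.v p x)) := by
    cases z
    · obtain ⟨-, h2⟩ := hth
      rw [h2]
    · unfold usX cz
      rw [cond_true]
      ring
  rw [hu]
  have e2 : 1 - t = (n'.X.v p - (1 - G p)) * (n'.X.v p - n.X.v p)⁻¹ := by
    rw [et]
    field_simp
    ring
  have e3 : t = (p - 1) * ((3 / 4 * (p + 1) * (G p + 1 / 2)⁻¹ - dX) *
      (n'.X.v p - n.X.v p)⁻¹) := by
    rw [et, l1]
    field_simp
  have g3 := mul_nonneg (by linarith : 0 ≤ p - 1) k8.le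
  set u := usX th x (M.v x) 2 p (n'.X.v p) (n'.K.v p x) (n'.L.v p x) (cz z (c'.v p x))
  set d := gexR th 2 (1 / 2) x (M.v x) p dX dA dL (cz z (c.v p x))
  have g4 : (1 - t) * ((p - 1) * d) + t * u = (p - 1) *
      ((n'.X.v p - (1 - G p)) * (n'.X.v p - n.X.v p)⁻¹ * d +
        (3 / 4 * (p + 1) * (G p + 1 / 2)⁻¹ - dX) * (n'.X.v p - n.X.v p)⁻¹ * u) := by
    rw [e2]
    rw [e3]
    ring
  linarith

end

end Pool.Agent.Strip051.PB
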