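import Pool.Agent.Strip051.PB.FlTg
import Pool.Agent.Strip051.PB.BridgeE
import Pool.Agent.Strip051.LC.Floor.Short

/-! # From the certificates of the rows at the floor to the inequalities of the vertices

`On` is a statement about the points of a node curve at the heights with a property. The table `RC`
of the third kernel is without dimension. -/

namespace Pool.Agent.Strip051.PB

open Pool.Agent.StripNear Pool.Agent.StripSquare Pool.Agent.Strip051.Sweep
open Pool.Agent.Strip051.LC Pool.Agent.Strip051.LC.Exact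
open Pool.Agent.Strip051.LC.Floor (G En Qn fS GUn kan k3d k3n zen hfl hml hfh hmh G_nonneg G_sq)

section

variable {n : ℕ} {P : Pos n} {x μ th : ℝ} {f : ℝ → ℝ} {vR vL vC : ℝ → Fin (n + 1) → ℝ}
  {RK RL RC : Fin (n + 1) → ℕ → ℝ → ℝ → ℝ} {TK TL TC : ℕ → ℝ → ℝ → ℝ → ℝ} {q : ℕ} {y : ℝ}
  {j : Fin (n + 1)}

variable (P x μ th f vR vL vC RK RL RC TK TL TC) in
/-- The parameters and the tables of a vertex. -/
structure FV : Prop where
  par : VPar P x μ th f vC
  lR : Link P.cur x vR RK TK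
  lL : Link P.cur x vL RL TL
  lC : Link P.cur x vC (smT h0⁻¹ RC) fun q X y x => h0⁻¹ * TC q X y x

theorem h0_cancel (c : ℝ) : h0 * (h0⁻¹ * c) = c := mul_inv_cancel_left₀ h0_pos.ne' c

theorem FV.vx (V : FV P x μ th f vR vL vC RK RL RC TK TL TC) :
    Vx P x vR vL vC RK RL (smT h0⁻¹ RC) TK TL fun q X y x => h0⁻¹ * TC q X y x :=
  ⟨V.lR, V.lL, V.lC⟩

/-- The inequality at a node. -/
theorem FV.gv (V : FV P x μ th f vR vL vC RK RL RC TK TL TC) (h : InQ q y)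
    (hd : P.dm j (h0 * y))
    (hk : WallP th x μ q y (crv P j q y) (RK j q y x) (RL j q y x) (RC j q y x)) :
    GV P x μ vR vL vC f q y (crv P j q y) :=
  gv_of V.par h (V.lR.at_node h hd) (V.lL.at_node h hd)
    (by rw [V.lC.at_node h hd]; exact h0_cancel _) hk

/-- The inequality at an arbitrary abscissa. -/
theorem FV.gvT (V : FV P x μ th f vR vL vC RK RL RC TK TL TC) (h : InQ q y) {X : ℝ}
    (h1 : 1 ≤ qqn X y) (h3 : qqn X y ≤ 3)
    (hk : WallP th x μ q y X (TK q X y x) (TL q X y x) (TC q X y x)) :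
    GV P x μ vR vL vC f q y X :=
  gv_of V.par h (V.lR.third q X y h h1 h3) (V.lL.third q X y h h1 h3)
    (by rw [V.lC.third q X y h h1 h3]; exact h0_cancel _) hk

/-- The values of a kernel between two curves. -/
theorem Link.seg {v : ℝ → Fin (n + 1) → ℝ} {R' : Fin (n + 1) → ℕ → ℝ → ℝ → ℝ}
    {T' : ℕ → ℝ → ℝ → ℝ → ℝ} (l : Link P.cur x v R' T') (h : InQ q y) (h3 : (h0 * y) ^ 2 ≤ 3)
    (i : Fin n) (d1 : P.dm i.castSucc (h0 * y)) (d2 : P.dm i.succ (h0 * y)) {X : ℝ}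
    (a1 : crv P i.castSucc q y ≤ X) (a2 : X ≤ crv P i.succ q y) :
    ker P.cur.nodes v (fun _ _ => 0) X (h0 * y) = R' i.castSucc q y x +
      (R' i.succ q y x - R' i.castSucc q y x) *
        ((X - crv P i.castSucc q y) / (crv P i.succ q y - crv P i.castSucc q y)) := by
  have hT : 0 ≤ h0 * y := mul_nonneg h0_pos.le h.nonneg
  have e : ∀ j : Fin (n + 1), P.cv j (h0 * y) = crv P j q y := fun j => linkX P j q y h
  have m := Pos.ker_seg l.adm i hT h3 (X := X) (by rwa [e]) (by rwa [e])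
  rw [e, e] at m
  have n1 : v (h0 * y) i.castSucc = R' i.castSucc q y x := l.node i.castSucc q y h d1
  have n2 : v (h0 * y) i.succ = R' i.succ q y x := l.node i.succ q y h d2
  rw [n1, n2] at m
  exact m

end

/-! ### Statements on the points of a curve -/

section

variable {n : ℕ} (P : Pos n) (RK RL RC : Fin (n + 1) → ℕ → ℝ → ℝ → ℝ) (x : ℝ)

/-- The property `Q` holds for the points of the curve `j` in the quarter `q` at the heights with the
property `U`. -/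
def On (j : Fin (n + 1)) (q : ℕ) (Q : ℝ → ℝ → ℝ → ℝ → ℝ → Prop) (U : ℝ → Prop) : Prop :=
  ∀ y, InQ q y → P.dm j (h0 * y) → U y →
    Q y (crv P j q y) (RK j q y x) (RL j q y x) (RC j q y x)

/-- The same for the third side at the abscissa `D`. -/
def OnT (TK TL TC : ℕ → ℝ → ℝ → ℝ → ℝ) (x : ℝ) (q : ℕ) (D : ℝ → ℝ)
    (Q : ℝ → ℝ → ℝ → ℝ → ℝ → Prop) (U : ℝ → Prop) : Prop :=
  ∀ y, InQ q y → U y → Q y (D y) (TK q (D y) y x) (TL q (D y) y x) (TC q (D y) y x)

end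

section

variable {n : ℕ} {P : Pos n} {RK RL RC : Fin (n + 1) → ℕ → ℝ → ℝ → ℝ} {x : ℝ}
  {TK TL TC : ℕ → ℝ → ℝ → ℝ → ℝ} {q : ℕ} {j : Fin (n + 1)} {Q : ℝ → ℝ → ℝ → ℝ → ℝ → Prop}
  {U : ℝ → Prop} {T : FTst} {L : List Fx} {nd : Node} {nc : Fn2} {W W' P3 W3 : ℕ}

theorem dm_onC {y : ℝ} (h : InQ q y) (hd : P.dm j (h0 * y)) : OnC j q y := ⟨h, hd.1⟩

theorem On.imp {U' : ℝ → Prop} (h : On P RK RL RC x j q Q U) (hU : ∀ y, InQ q y → U' y → U y) :
    On P RK RL RC x j q Q U' := fun y h1 h2 h3 => h y h1 h2 (hU y h1 h3)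

/-- No point. -/
theorem On.none (h : ∀ y, InQ q y → P.dm j (h0 * y) → ¬ U y) : On P RK RL RC x j q Q U :=
  fun y h1 h2 h3 => (h y h1 h2 h3).elim

theorem On.or {U' U'' : ℝ → Prop} (h1 : On P RK RL RC x j q Q U)
    (h2 : On P RK RL RC x j q Q U') (hU : ∀ y, InQ q y → U'' y → U y ∨ U' y) :
    On P RK RL RC x j q Q U'' := fun y a b c => (hU y a c).elim (h1 y a b) (h2 y a b)

/-- **From the certificate of a node.** -/
theorem On.cert {Vn : ℝ → Prop} (hc : CovC P RK RL RC nd nc j q W W' Vn x)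
    (h : CertNd W W' P3 W3 T L nd nc) (hx : Rng P3 W3 x) (hU : ∀ y, InQ q y → U y → Vn y)
    (ex : ∀ e ∈ L, On P RK RL RC x j q (T.P x) fun y => U y ∧ e.P x y (crv P j q y)) :
    On P RK RL RC x j q (T.P x) U := by
  intro y hq hd hu
  obtain ⟨p, A, g⟩ := hc y (dm_onC hq hd) (hU y hq hu)
  have k := h p x g hx
  beta_reduce at k
  rw [A.Y, A.X, A.K, A.L, A.C] at k
  rcases k with ⟨e, he, hp⟩ | k
  · exact ex e he y hq hd ⟨hu, hp⟩
  · exact k

/-- The same for two nodes which cover the curve. -/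
theorem On.cert2 {Vn Vn' : ℝ → Prop} {nd' : Node} {nc' : Fn2} {V V' : ℕ}
    (hc : CovC P RK RL RC nd nc j q W W' Vn x) (hc' : CovC P RK RL RC nd' nc' j q V V' Vn' x)
    (h : CertNd W W' P3 W3 T L nd nc) (h' : CertNd V V' P3 W3 T L nd' nc') (hx : Rng P3 W3 x)
    (hU : ∀ y, InQ q y → U y → Vn y ∨ Vn' y)
    (ex : ∀ e ∈ L, On P RK RL RC x j q (T.P x) fun y => U y ∧ e.P x y (crv P j q y)) :
    On P RK RL RC x j q (T.P x) U := by
  have k1 := On.cert (U := fun y => U y ∧ Vn y) hc h hx (fun y _ h => h.2) fun e he =>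
    (ex e he).imp fun y _ h => ⟨h.1.1, h.2⟩
  have k2 := On.cert (U := fun y => U y ∧ Vn' y) hc' h' hx (fun y _ h => h.2) fun e he =>
    (ex e he).imp fun y _ h => ⟨h.1.1, h.2⟩
  exact k1.or k2 fun y hq h => (hU y hq h).imp (fun g => ⟨h, g⟩) fun g => ⟨h, g⟩

/-- From the certificate of the third side. -/
theorem OnT.cert {Y X : Fn1} {pc : Piece} {c : Fn3} {D : ℝ → ℝ}
    (h : CertSd W W' P3 W3 T L Y X pc c) (hx : Rng P3 W3 x)
    (hp : ∀ y, InQ q y → U y → ∃ p, Rng W W' p ∧ Y.v p = y ∧ X.v p = D y)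
    (hK : ∀ X y, pc.K.v X y x = TK q X y x) (hL : ∀ X y, pc.L.v X y x = TL q X y x)
    (hC : ∀ X y, c.v X y x = TC q X y x)
    (ex : ∀ e ∈ L, OnT TK TL TC x q D (T.P x) fun y => U y ∧ e.P x y (D y)) :
    OnT TK TL TC x q D (T.P x) U := by
  intro y hq hu
  obtain ⟨p, g, e1, e2⟩ := hp y hq hu
  have k := h p x g hx
  beta_reduce at k
  rw [e1, e2, hK, hL, hC] at k
  rcases k with ⟨e, he, hp⟩ | k
  · exact ex e he y hq ⟨hu, hp⟩
  · exact k

/-! ### Tight pairs on the node curves -/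

/-- the growth -/
def MonoQ (x μ : ℝ) (q : ℕ) (y X A L C : ℝ) : Prop := 0 ≤ grL x μ q y X A L C

/-- **From the certificate at a tight pair at an end of the quarter.** -/
theorem On.germ {z : Bool} {th th' b B : ℝ} {M : Fn1}
    (hA : ∀ y, OnC j q y → AtC P RK RL RC nd nc j q y y x)
    (h : CertGe W W' P3 W3 z L th q b B M nd nc) (hx : Rng P3 W3 x) (x0 : 0 < x) (x1 : x < 1)
    (hth : ThZ z th th') (hz : ∀ y, cz z (RC j q y x) = RC j q y x) (hμ : 0 ≤ M.v x)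
    (he : EndQ q b B) (bX : nd.X.v b = B)
    (bK : En x * nd.K.v b x = (En x + M.v x * Qn x) * B) (bL : nd.L.v b x = 0)
    (hs : ∀ y, InQ q y → U y → 0 ≤ sgQ q (y - b) ∧ Rng W W' y)
    (hm : On P RK RL RC x j q (MonoQ x (M.v x) q) U)
    (ex : ∀ e ∈ L, On P RK RL RC x j q (WallP th' x (M.v x) q) fun y =>
      U y ∧ e.P x y (crv P j q y)) : On P RK RL RC x j q (WallP th' x (M.v x) q) U := by
  intro y hq hd hu
  have A := hA y (dm_onC hq hd)
  obtain ⟨h1, h2⟩ := hs y hq hu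
  have k := h y x h2 hx
  beta_reduce at k
  rw [A.X] at k
  rcases k with ⟨e, he, hp⟩ | k
  · exact ex e he y hq hd ⟨hu, hp⟩
  · have g := k.pos x0 x1 hth he bX bK bL h1
    rw [A.X, A.K, A.L, A.C, hz] at g
    exact WallP.of_mono x0 x1 hμ (hm y hq hd hu) g

/-- the quarters of the heights less than one -/
theorem lt_one_of {y : ℝ} (h : InQ q y) (hq : q < 2) : y < 1 := by
  match q, h, hq with
  | 0, ⟨_, h2⟩, _ => linarith
  | 1, ⟨_, h2⟩, _ => exact h2

theorem vq_lt (hq : q < 2) (y : ℝ) : vq q y = y := by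
  match q, hq with
  | 0, _ => rfl
  | 1, _ => rfl

/-- **From the certificates near the tight unit pair, kernel with the tents or coupled kernel.** -/
theorem On.tight {th c : ℝ} {M : Fn1} {D : Fn2} {wa wb va vb V V' : ℕ} {Ll Lh : List Fx}
    (hq : q < 2) (hl : CertTg W W' P3 W3 (ftTg true M D wa wb) Ll)
    (hh : CertTg V V' P3 W3 (ftTg false M D va vb) Lh) (hx : Rng P3 W3 x) (x0 : 0 < x)
    (x1 : x < 1) (ht0 : 0 < th) (hth : th ≤ 1) (hμ : 0 ≤ M.v x)
    (hw : c = 0 ∧ (wa : ℝ) / wb = 1 / th ∨ c = 1 ∧ (wa : ℝ) / wb = 1 ∧ (va : ℝ) / vb = 1)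
    (hv : c = 0 → (va : ℝ) / vb * th ≤ 1 ∧
      ∀ y, InQ q y → U y → x ≤ y → 2 * ((va : ℝ) / vb) * (y - x) ≤ 1 - x)
    (hU : ∀ y, InQ q y → U y → 0 < y ∧ Rng W W' y ∧ Rng V V' y)
    (hf : On P RK RL RC x 0 q (fun y X A L C => X = G y ∧ TgV x (M.v x) c q y (D.v y x) A L C) U)
    (hm : On P RK RL RC x 0 q (MonoQ x (M.v x) q) U)
    (el : ∀ e ∈ Ll, ∀ y, InQ q y → U y → e.P x y y → x < y)
    (eh : ∀ e ∈ Lh, ∀ y, InQ q y → U y → e.P x y y → y < x) :
    On P RK RL RC x 0 q (WallP th x (M.v x) q) U := by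
  intro y h hd hu
  obtain ⟨y0, r1, r2⟩ := hU y h hu
  obtain ⟨eX, tv⟩ := hf y h hd hu
  have y1 := lt_one_of h hq
  have hE := En_nn x0 x1
  refine WallP.of_mono x0 x1 hμ (hm y h hd hu) ?_
  have c1' : c ≤ 1 := by
    rcases hw with ⟨h1, _⟩ | ⟨h1, _⟩ <;> rw [h1] <;> norm_num
  have hJ0 : c = 1 → RC 0 q y x = 0 := by
    intro h1
    rw [tv.C, h1]
    ring
  rcases le_or_gt y x with hyx | hyx
  · have k := hl y x r1 hx
    beta_reduce at k
    rcases k with ⟨e, he, hp⟩ | k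
    · exact absurd (el e he y h hu hp) (not_lt.2 hyx)
    · obtain ⟨k1, k2⟩ := k
      unfold usX
      rw [vq_lt hq, eX]
      rcases hw with ⟨h0c, hw⟩ | ⟨h1c, hw, -⟩
      · refine tg_low (w := (wa : ℝ) / wb) x1 h hq y0 hyx hμ c1' tv
          (Or.inl (mul_nonneg hE k1)) ?_ (Or.inl h0c) k2
        rw [hw]
        exact jx_low x0 ht0 hth hyx
      · have := tg_low (w := (wa : ℝ) / wb) (J := (y - x) + (wa : ℝ) / wb * (y - x) ^ 2 / x) x1 h
          hq y0 hyx hμ c1' tv (Or.inr h1c) le_rfl (Or.inr hw) k2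
        rw [hJ0 h1c] at this ⊢
        simpa using this
  · have k := hh y x r2 hx
    beta_reduce at k
    rcases k with ⟨e, he, hp⟩ | k
    · exact absurd (eh e he y h hu hp) (not_lt.2 hyx.le)
    · obtain ⟨k1, k2⟩ := k
      unfold usX
      rw [vq_lt hq, eX]
      rcases hw with ⟨h0c, hw⟩ | ⟨h1c, -, hw⟩
      · obtain ⟨v1, v2⟩ := hv h0c
        refine tg_high (w := (va : ℝ) / vb) x0 h hq y1 hyx.le hμ c1' tv
          (Or.inl (mul_nonneg hE k1)) ?_ (Or.inl h0c) k2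
        exact jx_high x0 x1 ht0 hyx.le v1 (by positivity) (v2 y h hu hyx.le)
      · have := tg_high (w := (va : ℝ) / vb) (J := (y - x) - (va : ℝ) / vb * (y - x) ^ 2 / (1 - x))
          x0 h hq y1 hyx.le hμ c1' tv (Or.inr h1c) le_rfl (Or.inr hw) k2
        rw [hJ0 h1c] at this ⊢
        simpa using this

/-- **From the certificates near the tight unit pair at the far vertex.** -/
theorem On.tightF {th : ℝ} {M : Fn1} {D : Fn2} {V V' : ℕ} {Ll Lh : List Fx}
    (hq : q < 2) (hl : CertTg W W' P3 W3 (ftTf true D) Ll)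
    (hh : CertTg V V' P3 W3 (ftTf false D) Lh) (hx : Rng P3 W3 x) (x0 : 0 < x)
    (x1 : x < 1) (hM : M.v x = 0) (hU : ∀ y, InQ q y → U y → 0 < y ∧ Rng W W' y ∧ Rng V V' y)
    (hf : On P RK RL RC x 0 q (fun y X A L _ => X = G y ∧ A = tq q y * kan y (D.v y x) ∧
      L = zen y x (D.v y x)) U)
    (hm : On P RK RL RC x 0 q (MonoQ x (M.v x) q) U)
    (el : ∀ e ∈ Ll, ∀ y, InQ q y → U y → e.P x y y → x < y)
    (eh : ∀ e ∈ Lh, ∀ y, InQ q y → U y → e.P x y y → y < x) :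
    On P RK RL RC x 0 q (WallP th x (M.v x) q) U := by
  intro y h hd hu
  obtain ⟨y0, r1, r2⟩ := hU y h hu
  obtain ⟨eX, eA, eL⟩ := hf y h hd hu
  have y1 := lt_one_of h hq
  refine WallP.of_mono x0 x1 (by rw [hM]) (hm y h hd hu) ?_
  have tv : TgV x 0 1 q y (D.v y x) (RK 0 q y x) (RL 0 q y x) 0 :=
    ⟨by rw [eA]; ring, eL, by ring⟩
  unfold usX
  rw [hM, eX, zero_mul]
  rcases le_or_gt y x with hyx | hyx
  · have k := hl y x r1 hx
    beta_reduce at k
    rcases k with ⟨e, he, hp⟩ | k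
    · exact absurd (el e he y h hu hp) (not_lt.2 hyx)
    · have k' : 0 ≤ hfl y x (D.v y x) := k
      have := tg_low (w := 1) (J := (y - x) + 1 * (y - x) ^ 2 / x) x1 h hq y0 hyx le_rfl le_rfl tv
        (Or.inr rfl) le_rfl (Or.inr rfl) (by rw [zero_mul, add_zero]; exact k')
      simpa using this
  · have k := hh y x r2 hx
    beta_reduce at k
    rcases k with ⟨e, he, hp⟩ | k
    · exact absurd (eh e he y h hu hp) (not_lt.2 hyx.le)
    · have k' : 0 ≤ hfh y x (D.v y x) := k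
      have := tg_high (w := 1) (J := (y - x) - 1 * (y - x) ^ 2 / (1 - x)) x0 h hq y1 hyx.le le_rfl
        le_rfl tv (Or.inr rfl) le_rfl (Or.inr rfl) (by rw [zero_mul, add_zero]; exact k')
      simpa using this

/-! ### Steep pairs -/

/-- the height from the abscissa on the unit circle -/
noncomputable def ygF : Fn1 := ⟨_, _, fun h1 => enc_sqrt (enc_scale 4 3 (enc_sub (enc_one _) (enc_sq h1)))⟩

/-- the abscissa of the steep pairs -/
noncomputable def xsF : Fn1 := ⟨_, _, fun h1 => enc_sub (enc_one _) h1⟩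

/-- the identity -/
noncomputable def idF : Fn1 := ⟨fun A => A, fun a => a, fun h => h⟩

/-- a constant -/
noncomputable def cnF (a b : ℕ) : Fn1 := ⟨fun _ => prat a b, fun _ => (a : ℝ) / b, fun _ => enc_rat _ a b⟩

theorem le_of_steep {y : ℝ} (hT : h0 * y ≤ 1) (h1 : 1 ≤ y) : 3 / 4 * y ^ 2 ≤ 1 := by
  have hp := h0_pos
  have hs := h0_sq
  have : (h0 * y) ^ 2 ≤ 1 := by
    have : 0 ≤ h0 * y := by positivity
    nlinarith
  nlinarith

theorem ygF_v {y : ℝ} (hT : h0 * y ≤ 1) (h1 : 1 ≤ y) : ygF.v (G y) = y := by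
  have h3 := le_of_steep hT h1
  have e := G_sq h3
  show Real.sqrt (((4 : ℕ) : ℝ) / ((3 : ℕ) : ℝ) * (1 - G y ^ 2)) = y
  rw [e]
  push_cast
  rw [show (4 : ℝ) / 3 * (1 - (1 - 3 / 4 * y ^ 2)) = y ^ 2 by ring, Real.sqrt_sq (by linarith)]

theorem xsF_v {y : ℝ} : xsF.v (G y) = 1 - G y := rfl

theorem G_half {y : ℝ} (h1 : 1 ≤ y) : 0 ≤ G y ∧ G y ≤ 1 / 2 := by
  refine ⟨G_nonneg y, ?_⟩
  rcases h1.eq_or_lt with h | h
  · rw [← h, G_at_one]
  · exact (G_lt h).le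

/-- The coordinate of a steep pair. -/
theorem steep_crd {y : ℝ} (hT : h0 * y ≤ 1) (h1 : 1 ≤ y) :
    ∃ p, Rng 0 536870912 p ∧ ygF.v p = y ∧ xsF.v p = 1 - G y := by
  obtain ⟨g1, g2⟩ := G_half h1
  refine ⟨G y, ⟨?_, ?_⟩, ygF_v hT h1, xsF_v⟩
  · simpa using g1
  · have e : ((0 : ℕ) : ℝ) + ((536870912 : ℕ) : ℝ) = 536870912 := by norm_num
    rw [e]
    have e2 : ((S : ℕ) : ℝ) = 1073741824 := by norm_num [S]
    rw [e2]
    norm_num
    linarith

end

section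

variable {n : ℕ} {P : Pos n} {x th : ℝ} {f : ℝ → ℝ} {vR vL vC : ℝ → Fin (n + 1) → ℝ}
  {RK RL RC : Fin (n + 1) → ℕ → ℝ → ℝ → ℝ} {TK TL TC : ℕ → ℝ → ℝ → ℝ → ℝ} {W W' P3 W3 : ℕ}
  {M : Fn1} {L : List Fx}

/-- The node curves right of the steep pairs. -/
theorem node_two {j : Fin (n + 1)} {y : ℝ} (hq : InQ 2 y) (hd : P.dm j (h0 * y))
    (hT : h0 * y ≤ 1) (h : y < 1 ∨ (j ≠ 0 ∧ 1 - G y ≤ crv P j 2 y)) :
    j ≠ 0 ∧ 1 < P.ρ j ∧ 1 - G y ≤ crv P j 2 y := by
  have hp := h0_pos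
  rcases h with h | ⟨h1, h2⟩
  · exact absurd hq.1 (not_le.2 h)
  · refine ⟨h1, ?_, h2⟩
    by_contra hn
    have hn' := not_lt.1 hn
    have d := (hd.2.1 h1 hn').2
    have hy : 1 < y := by
      rcases hq.1.eq_or_lt with g | g
      · exact absurd (by rw [← g, mul_one]) d
      · exact g
    refine hn (Pool.Agent.Strip051.LC.Floor.rho_gt (T := h0 * y) (by nlinarith) hT ?_)
    have e1 : c1 (h0 * y) = G y := c1_n y
    have e2 : P.cv j (h0 * y) = crv P j 2 y := linkX P j 2 y hq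
    rw [e1, e2]
    exact h2

/-- **The steep pairs.** -/
theorem FV.steep {z : Bool} {th' : ℝ} (V : FV P x (M.v x) th f vR vL vC RK RL RC TK TL TC)
    (ht0 : 0 ≤ th) (hth : ThZ z th' th) (hz : ∀ j y, cz z (RC j 2 y x) = RC j 2 y x)
    {i : Fin n} {nl nr : Node} {cl cr : Fn2} (hi : i.castSucc ≠ 0)
    (Al : ∀ y, OnC i.castSucc 2 y → AtC P RK RL RC nl cl i.castSucc 2 y y x)
    (Ar : ∀ y, OnC i.succ 2 y → AtC P RK RL RC nr cr i.succ 2 y y x)
    (bX : nl.X.v 1 = 1 / 2) (bK : En x * nl.K.v 1 x = (En x + M.v x * Qn x) * (1 / 2))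
    (bL : nl.L.v 1 x = 0) (zK : En x * RK 0 2 1 x = (En x + M.v x * Qn x) * (1 / 2))
    (zL : RL 0 2 1 x = 0) (hst : CertSt W W' P3 W3 z L th' M nl cl nr cr) (hx : Rng P3 W3 x) {s : ℝ}
    (hm : OnT TK TL TC x 2 (fun y => 1 - G y) (MonoQ x (M.v x) 2) fun y => h0 * y ≤ 1 ∧ y < s)
    (hw : OnT TK TL TC x 2 (fun y => 1 - G y) (WallP th x (M.v x) 2) fun y =>
      h0 * y ≤ 1 ∧ s ≤ y)
    (hs : ∀ y, 1 < y → y < s → h0 * y ≤ 1 → Rng W W' y ∧ ∀ e ∈ L, ¬ e.P x y (1 - G y)) :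
    ∀ y : ℝ, 1 ≤ y → h0 * y ≤ 1 → GV P x (M.v x) vR vL vC f 2 y (1 - G y) := by
  intro y h1 hT
  have hp := h0_pos
  have hq := inQ_two h1 hT
  obtain ⟨l1, l3⟩ := steep_len h1 hT
  have x0 := V.par.x0
  have x1 := V.par.x1
  rcases le_or_gt s y with hsy | hsy
  · exact V.gvT hq l1 l3 (hw y hq ⟨hT, hsy⟩)
  have kR := V.lR.third 2 _ y hq l1 l3
  have kL := V.lL.third 2 _ y hq l1 l3
  have kC := V.lC.third 2 _ y hq l1 l3
  have g := hm y hq ⟨hT, hsy⟩
  have kC' : h0 * ker P.cur.nodes vC (fun _ _ => 0) (1 - G y) (h0 * y) =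
      TC 2 (1 - G y) y x := by
    rw [kC]
    exact h0_cancel _
  have g' : 0 ≤ grL x (M.v x) 2 y (1 - G y) (ker P.cur.nodes vR (fun _ _ => 0) (1 - G y) (h0 * y))
      (ker P.cur.nodes vL (fun _ _ => 0) (1 - G y) (h0 * y))
      (h0 * ker P.cur.nodes vC (fun _ _ => 0) (1 - G y) (h0 * y)) := by
    rw [kR, kL, kC']
    exact g
  refine gv_of V.par hq rfl rfl rfl (WallP.of_mono x0 x1 V.par.μ0 g' ?_)
  rcases h1.eq_or_lt with hy | hy
  · subst hy
    have e : (1 : ℝ) - G 1 = crv P 0 2 1 := by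
      rw [crv_zero, G_at_one]
      norm_num
    have hd : P.dm 0 (h0 * 1) := P.dm_zero (by rw [mul_one]; exact hp.le) (by
      rw [mul_one]; exact h0_lt_one)
    rw [e, V.lR.at_node hq hd, V.lL.at_node hq hd]
    have z : usX th x (M.v x) 2 1 (crv P 0 2 1) (RK 0 2 1 x) (RL 0 2 1 x)
        (h0 * ker P.cur.nodes vC (fun _ _ => 0) (crv P 0 2 1) (h0 * 1)) = 0 := by
      have hj : jx th x (vq 2 1) = 0 := by
        show jx th x (1 - 1) = 0
        rw [sub_self]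
        unfold jx
        rw [if_pos (by linarith), sub_zero, min_eq_left x0.le, min_eq_left (by positivity)]
        ring
      have hmn : mnQ 2 x 1 = -1 := by
        show mnE x (1 - 1) = -1
        unfold mnE wgE
        rw [if_pos (by linarith)]
        field_simp
        ring
      unfold usX
      rw [hj, mul_zero, mul_zero, sub_zero, hmn, zL, zK, crv_zero, G_at_one]
      unfold fS
      ring
    exact z.ge
  · obtain ⟨r1, r2⟩ := hs y hy hsy hT
    have k := hst y x r1 hx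
    beta_reduce at k
    rcases k with ⟨e, he, hp'⟩ | k
    · exact absurd hp' (r2 e he)
    · obtain ⟨p1, p2, p3⟩ := k.pos x0 x1 hth bX bK bL h1 (le_of_steep hT h1)
      have ol : OnC i.castSucc 2 y := ⟨hq, fun h => absurd h hi⟩
      have hi' : i.succ ≠ 0 := Fin.succ_ne_zero i
      have or' : OnC i.succ 2 y := ⟨hq, fun h => absurd h hi'⟩
      have A1 := Al y ol
      have A2 := Ar y or'
      have hT0 : 0 < h0 * y := by positivity
      have hT3 : (h0 * y) ^ 2 < 3 := by nlinarith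
      have dmj : ∀ j : Fin (n + 1), j ≠ 0 → P.dm j (h0 * y) := fun j hj =>
        ⟨fun h => absurd h hj, fun _ _ => ⟨hT0, fun h => by nlinarith⟩, fun _ => hT3, hT3.le⟩
      rw [A1.X] at p1
      rw [A2.X] at p2
      have sR := V.lR.seg hq hT3.le i (dmj _ hi) (dmj _ hi') p1 p2
      have sL := V.lL.seg hq hT3.le i (dmj _ hi) (dmj _ hi') p1 p2
      have sC := V.lC.seg hq hT3.le i (dmj _ hi) (dmj _ hi') p1 p2
      refine p3 _ _ _ _ ((1 - G y - crv P i.castSucc 2 y) /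
        (crv P i.succ 2 y - crv P i.castSucc 2 y)) ?_ ?_ ?_ ?_ ?_
      · rw [A1.X, A2.X]
      · rw [A1.X, A2.X]
        by_cases hz : crv P i.succ 2 y - crv P i.castSucc 2 y = 0
        · rw [hz, div_zero, mul_zero, add_zero]
          linarith
        · rw [mul_div_cancel₀ _ hz]
          ring
      · rw [A1.K, A2.K]
        exact sR
      · rw [A1.L, A2.L]
        exact sL
      · rw [A1.C, A2.C, hz, hz, sC]
        unfold smT
        field_simp

end

end Pool.Agent.Strip051.PB
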