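import Pool.Agent.Strip051.PB.Cert
import Pool.Agent.Strip051.LC.Exact.FloorY
import Pool.Agent.Strip051.LC.Floor.UnitB

/-! # The rows at the floor in normalised coordinates

`UX_zero` is the value of the floor function for a pair with its lower end on the floor, `grL`, `grU`
are bounds of its growth.  `v` is the height modulo `1`. -/

namespace Pool.Agent.Strip051.PB

open Pool.Agent.StripNear Pool.Agent.StripSquare Pool.Agent.Strip051.Sweep
open Pool.Agent.Strip051.LC Pool.Agent.Strip051.LC.Exact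
open Pool.Agent.Strip051.LC.Floor (G En Qn fS kE_low kE_high S0_norm G_nonneg G_sq)
open Pool.Agent.Strip051.LC.Line (mn D tau mn_low mn_high mn_neg mn_neg2 S0)

/-! ### The mean of the density -/

noncomputable def wgE (x v : ℝ) : ℝ := if v - x ≤ 0 then x⁻¹ else (1 - v) * (v * (1 - x))⁻¹
noncomputable def wgO (x v : ℝ) : ℝ := if x - v ≤ 0 then (1 - x)⁻¹ else v * (x * (1 - v))⁻¹

/-- The mean over `[0, v]`. -/
noncomputable def mnE (x v : ℝ) : ℝ := (v - x) * wgE x v

/-- The mean over `[v - 1, 0]`. -/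
noncomputable def mnO (x v : ℝ) : ℝ := (x - v) * wgO x v

/-- The height modulo `1`. -/
def vq (q : ℕ) (y : ℝ) : ℝ :=
  match q with
  | 0 => y
  | 1 => y
  | _ => y - 1

/-- The quarter is odd. -/
def od : ℕ → Bool
  | 0 => false
  | 1 => true
  | 2 => false
  | _ => true

noncomputable def mnQ (q : ℕ) (x y : ℝ) : ℝ := cond (od q) (mnO x (vq q y)) (mnE x (vq q y))

/-- The distance to the nearest integer. -/
noncomputable def taq (q : ℕ) (y : ℝ) : ℝ := cond (od q) (1 - vq q y) (vq q y)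

variable {x v y μ : ℝ} {q : ℕ}

theorem meanE (hx : 0 < x) (hx1 : x < 1) (hv : 0 ≤ v) (hv1 : v ≤ 1) :
    mn (D (h0 * x) (kE (h0 * x))) 0 (h0 * v) = En x * mnE x v := by
  have hp := h0_pos
  unfold mnE wgE
  split_ifs with h
  · rw [mn_low (by nlinarith) (by positivity) (by nlinarith)]
    have e := kE_low hx hx1
    calc kE (h0 * x) * ((h0 - h0 * x) / (2 * h0) * (h0 * v - h0 * x)) =
        (kE (h0 * x) * (h0 - h0 * x)) * ((v - x) / 2) := by field_simp
      _ = _ := by
        rw [e]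
        field_simp
  · have h2 : x < v := by linarith
    have hv0 : 0 < v := by linarith
    rw [mn_high (by positivity) (by nlinarith) (by nlinarith) (by nlinarith) (by positivity)]
    have e := kE_high hx hx1
    have h3 : 1 - x ≠ 0 := by linarith
    calc kE (h0 * x) * (h0 * x / (2 * h0) * ((h0 * v - h0 * x) * (h0 - h0 * v) / (h0 * v))) =
        (kE (h0 * x) * (h0 * x)) * ((v - x) * (1 - v) / (2 * v)) := by field_simp
      _ = _ := by
        rw [e]
        field_simp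

theorem meanO (hx : 0 < x) (hx1 : x < 1) (hv : 0 < v) (hv1 : v ≤ 1) :
    mn (D (h0 * x) (kE (h0 * x))) 0 (h0 * (v - 1)) = En x * mnO x v := by
  have hp := h0_pos
  unfold mnO wgO
  split_ifs with h
  · rw [mn_neg (by positivity) (by nlinarith) (by nlinarith)]
    have e := kE_high hx hx1
    have h3 : 1 - x ≠ 0 := by linarith
    calc kE (h0 * x) * (h0 * x / (2 * h0) * (h0 * x - h0 - h0 * (v - 1))) =
        (kE (h0 * x) * (h0 * x)) * ((x - v) / 2) := by
          field_simp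
          ring
      _ = _ := by
        rw [e]
        field_simp
  · have h2 : v < x := by linarith
    rw [mn_neg2 (by positivity) (by nlinarith) (by nlinarith) (by nlinarith)]
    have e := kE_low hx hx1
    have h3 : 1 - v ≠ 0 := by linarith
    have e1 : -(h0 * (v - 1)) = h0 * (1 - v) := by ring
    have e2 : h0 * (v - 1) + h0 = h0 * v := by ring
    have e3 : h0 * x - h0 - h0 * (v - 1) = h0 * (x - v) := by ring
    rw [e1, e2, e3]
    calc kE (h0 * x) * ((h0 - h0 * x) / (2 * h0) * (h0 * v * (h0 * (x - v)) / (h0 * (1 - v)))) =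
        (kE (h0 * x) * (h0 - h0 * x)) * (v * (x - v) / (2 * (1 - v))) := by field_simp
      _ = _ := by
        rw [e]
        field_simp

theorem mean_q (hx : 0 < x) (hx1 : x < 1) (h : InQ q y) :
    mn (D (h0 * x) (kE (h0 * x))) 0 (tau (h0 * y)) = En x * mnQ q x y := by
  rw [tau_q h]
  match q, h with
  | 0, ⟨h1, h2⟩ =>
    have e : y - (jq 0 : ℕ) = y := by norm_num [jq]
    rw [e]
    exact meanE hx hx1 h1 (by linarith)
  | 1, ⟨h1, h2⟩ =>
    have e : y - (jq 1 : ℕ) = y - 1 := by norm_num [jq]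
    rw [e]
    exact meanO hx hx1 (by linarith) (by linarith)
  | 2, ⟨h1, h2⟩ =>
    have e : y - (jq 2 : ℕ) = y - 1 := by norm_num [jq]
    rw [e]
    exact meanE hx hx1 (by linarith) (by linarith)
  | 3, ⟨h1, h2⟩ =>
    have e : y - (jq 3 : ℕ) = (y - 1) - 1 := by norm_num [jq]; ring
    rw [e]
    exact meanO hx hx1 (by linarith) (by linarith)
  | _ + 4, h => exact h.elim

theorem abs_tau (h : InQ q y) : |tau (h0 * y)| = h0 * taq q y := by
  have hp := h0_pos
  rw [tau_q h, abs_mul, abs_of_pos hp]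
  congr 1
  match q, h with
  | 0, ⟨h1, h2⟩ =>
    have e : y - (jq 0 : ℕ) = y := by norm_num [jq]
    rw [e]
    exact abs_of_nonneg h1
  | 1, ⟨h1, h2⟩ =>
    have e : y - (jq 1 : ℕ) = y - 1 := by norm_num [jq]
    rw [e, abs_of_nonpos (by linarith)]
    show -(y - 1) = 1 - y
    ring
  | 2, ⟨h1, h2⟩ =>
    have e : y - (jq 2 : ℕ) = y - 1 := by norm_num [jq]
    rw [e]
    exact abs_of_nonneg (by linarith)
  | 3, ⟨h1, h2⟩ =>
    have e : y - (jq 3 : ℕ) = y - 2 := by norm_num [jq]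
    rw [e, abs_of_nonpos (by linarith)]
    show -(y - 2) = 1 - (y - 1)
    ring
  | _ + 4, h => exact h.elim

theorem vq_mem (h : InQ q y) : 0 ≤ vq q y ∧ vq q y ≤ 1 := by
  match q, h with
  | 0, ⟨h1, h2⟩ => exact ⟨h1, by show y ≤ 1; linarith⟩
  | 1, ⟨h1, h2⟩ => exact ⟨by show 0 ≤ y; linarith, h2.le⟩
  | 2, ⟨h1, h2⟩ => exact ⟨by show 0 ≤ y - 1; linarith, by show y - 1 ≤ 1; linarith⟩
  | 3, ⟨h1, h2⟩ => exact ⟨by show 0 ≤ y - 1; linarith, by show y - 1 ≤ 1; linarith⟩
  | _ + 4, h => exact h.elim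

theorem taq_nonneg (h : InQ q y) : 0 ≤ taq q y := by
  obtain ⟨h1, h2⟩ := vq_mem h
  unfold taq
  cases od q
  · exact h1
  · show 0 ≤ 1 - vq q y
    linarith

/-! ### The density of the third kernel -/

/-- The conditions for the density of the third kernel. -/
structure DenF (f : ℝ → ℝ) : Prop where
  cont : Continuous f
  abs : ∀ u, |f u| ≤ 1

theorem denF_zero : DenF (fun _ => 0) where
  cont := continuous_const
  abs u := by simp

theorem DenF.int_le {f : ℝ → ℝ} (h : DenF f) (a b : ℝ) : |∫ u in a..b, f u| ≤ |b - a| := by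
  have := intervalIntegral.norm_integral_le_of_norm_le_const (a := a) (b := b) (f := f) (C := 1)
    fun u _ => by
      rw [Real.norm_eq_abs]
      exact h.abs u
  rwa [Real.norm_eq_abs, one_mul] at this

/-! ### The floor function -/

/-- Lower bound of the growth. -/
noncomputable def grL (x μ : ℝ) (q : ℕ) (y X A L C : ℝ) : ℝ :=
  X + μ * (L - 2 * |C|) - 2 * En x * (max A 0 * (max x (taq q y))⁻¹ +
    max (-A) 0 * (max (1 - x) (taq q y))⁻¹)

/-- Upper bound of the growth. -/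
noncomputable def grU (x μ : ℝ) (q : ℕ) (y X A L C : ℝ) : ℝ :=
  X + μ * (L + 2 * |C|) + 2 * En x * (max A 0 * (max (1 - x) (taq q y))⁻¹ +
    max (-A) 0 * (max x (taq q y))⁻¹)

theorem max_tau1 (h : InQ q y) : max (h0 * x) |tau (h0 * y)| = h0 * max x (taq q y) := by
  rw [abs_tau h, mul_max_of_nonneg _ _ h0_pos.le]

theorem max_tau2 (h : InQ q y) : max (h0 - h0 * x) |tau (h0 * y)| = h0 * max (1 - x) (taq q y) := by
  rw [abs_tau h, mul_max_of_nonneg _ _ h0_pos.le]
  congr 1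
  ring

theorem kE_both (hx : 0 < x) (hx1 : x < 1) :
    kE (h0 * x) * (h0 * x) * (h0 - h0 * x) = 2 * h0 * En x := by
  have e := kE_low hx hx1
  have : kE (h0 * x) * (h0 * x) * (h0 - h0 * x) = kE (h0 * x) * (h0 - h0 * x) * (h0 * x) := by
    ring
  rw [this, e]
  field_simp

/-- The condition for the growth in normalised form. -/
theorem monoT_norm (hx : 0 < x) (hx1 : x < 1) (h : InQ q y) {X A c : ℝ}
    (hM : 2 * En x * (max A 0 * (max x (taq q y))⁻¹ + max (-A) 0 * (max (1 - x) (taq q y))⁻¹) ≤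
      X + h0 * c) : MonoT (h0 * x) (kE (h0 * x)) X (tau (h0 * y)) A c := by
  have hp := h0_pos
  have m1 : 0 < max x (taq q y) := lt_of_lt_of_le hx (le_max_left _ _)
  have m2 : 0 < max (1 - x) (taq q y) := lt_of_lt_of_le (by linarith) (le_max_left _ _)
  unfold MonoT
  rw [max_tau1 h, max_tau2 h, kE_both hx hx1]
  refine le_trans (le_of_eq ?_) hM
  field_simp

section

variable {R Xi Cf : ℝ → ℝ → ℝ} {f : ℝ → ℝ} {X : ℝ}

/-- The floor function of a vertex. -/
noncomputable def UX (x μ : ℝ) (R Xi Cf : ℝ → ℝ → ℝ) (f : ℝ → ℝ) : ℝ → ℝ → ℝ → ℝ :=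
  UT (kE (h0 * x)) (h0 * x) μ (1 / 2 - we (h0 * x) - μ * wq (h0 * x)) R Xi Cf f

theorem UX_zero (hx : 0 < x) (hx1 : x < 1) (h : InQ q y) :
    UX x μ R Xi Cf f X 0 (0 + h0 * y) =
      fS x μ y X (En x * R X (h0 * y)) (Xi X (h0 * y)) (mnQ q x y) + 1 / 2 -
        μ * (Cf X (h0 * y) * ∫ u in (0 : ℝ)..(h0 * y), f u) := by
  have hp := h0_pos
  have hT : 0 ≤ h0 * y := mul_nonneg hp.le h.nonneg
  have e1 := UF_zero (κ := kE (h0 * x)) (s := h0 * x) (μ := μ)
    (w := 1 / 2 - we (h0 * x) - μ * wq (h0 * x)) (R := R) (Xi := Xi) (X := X) hT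
  rw [BF_eq, S0_norm (mean_q hx hx1 h)] at e1
  unfold UX UT
  rw [e1, zero_add, sub_zero, abs_of_nonneg hT, min_eq_left hT, max_eq_right hT]

/-- The growth from below. -/
theorem UX_up (hx : 0 < x) (hx1 : x < 1) (hE : 0 ≤ kE (h0 * x)) (hμ : 0 ≤ μ) (hf : DenF f)
    (h : InQ q y) {A L C : ℝ} (hA : R X (h0 * y) = A) (hL : Xi X (h0 * y) = L)
    (hC : h0 * Cf X (h0 * y) = C) {d : ℝ} (hd : 0 ≤ d) :
    UX x μ R Xi Cf f X 0 (0 + h0 * y) + grL x μ q y X A L C / h0 * d ≤
      UX x μ R Xi Cf f X d (d + h0 * y) := by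
  have hp := h0_pos
  have hT : 0 ≤ h0 * y := mul_nonneg hp.le h.nonneg
  have hne : h0 ≠ 0 := hp.ne'
  have hC' : h0 * |Cf X (h0 * y)| = |C| := by
    rw [← hC, abs_mul, abs_of_pos hp]
  have key := UT_up (κ := kE (h0 * x)) (s := h0 * x) (μ := μ)
    (w := 1 / 2 - we (h0 * x) - μ * wq (h0 * x)) (R := R) (Xi := Xi) (C := Cf) (f := f)
    (by positivity) (by nlinarith) hE hμ hf.cont (K := 1) hf.abs (X := X) (T := h0 * y)
    (c := -(grL x μ q y X A L C / h0)) hT ?_ (y := 0) (d := d) hd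
  · unfold UX
    simp only [zero_add] at key ⊢
    linarith
  · refine monoT_norm hx hx1 h ?_
    rw [hA, hL]
    have e : h0 * (μ / h0 * L - 2 * μ * |Cf X (h0 * y)| * 1 + -(grL x μ q y X A L C / h0)) =
        μ * L - 2 * μ * (h0 * |Cf X (h0 * y)|) - grL x μ q y X A L C := by
      field_simp
      ring
    rw [e, hC']
    unfold grL
    linarith

/-- The growth from above. -/
theorem UX_dn (hx : 0 < x) (hx1 : x < 1) (hE : 0 ≤ kE (h0 * x)) (hμ : 0 ≤ μ) (hf : DenF f)
    (h : InQ q y) {A L C : ℝ} (hA : R X (h0 * y) = A) (hL : Xi X (h0 * y) = L)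
    (hC : h0 * Cf X (h0 * y) = C) {d : ℝ} (hd : 0 ≤ d) :
    UX x μ R Xi Cf f X d (d + h0 * y) ≤
      UX x μ R Xi Cf f X 0 (0 + h0 * y) + grU x μ q y X A L C / h0 * d := by
  have hp := h0_pos
  have hT : 0 ≤ h0 * y := mul_nonneg hp.le h.nonneg
  have hne : h0 ≠ 0 := hp.ne'
  -- the mean
  set X0 := 2 * En x * (max (-A) 0 * (max x (taq q y))⁻¹ +
    max (- -A) 0 * (max (1 - x) (taq q y))⁻¹) with hX0
  have hM := monoT_norm hx hx1 h (X := X0) (A := -A) (c := 0) (by rw [mul_zero, add_zero])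
  have key := slack_mono3 (by positivity : 0 < h0 * x) (by nlinarith) hE hM hd 0
  rw [neg_neg] at hX0
  simp only [zero_add] at key
  -- the third kernel
  have hi : ∀ a b : ℝ, IntervalIntegrable f MeasureTheory.volume a b := fun a b =>
    hf.cont.intervalIntegrable a b
  have e3 : (∫ u in d..(d + h0 * y), f u) - ∫ u in (0 : ℝ)..(h0 * y), f u =
      (∫ u in (h0 * y)..(h0 * y + d), f u) - ∫ u in (0 : ℝ)..d, f u := by
    have a1 := intervalIntegral.integral_add_adjacent_intervals (hi 0 d) (hi d (d + h0 * y))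
    have a2 := intervalIntegral.integral_add_adjacent_intervals (hi 0 (h0 * y))
      (hi (h0 * y) (h0 * y + d))
    rw [show d + h0 * y = h0 * y + d by ring] at *
    linarith
  have e4 : |(∫ u in d..(d + h0 * y), f u) - ∫ u in (0 : ℝ)..(h0 * y), f u| ≤ 2 * d := by
    rw [e3]
    have b1 := hf.int_le (h0 * y) (h0 * y + d)
    have b2 := hf.int_le 0 d
    rw [add_sub_cancel_left, abs_of_nonneg hd] at b1
    rw [sub_zero, abs_of_nonneg hd] at b2
    exact (abs_sub _ _).trans (by linarith)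
  have hC' : h0 * |Cf X (h0 * y)| = |C| := by
    rw [← hC, abs_mul, abs_of_pos hp]
  unfold UX
  rw [UT_nf hT, UT_nf hT, hA, hL, zero_add, zero_add]
  set m1 := mn (D (h0 * x) (kE (h0 * x))) d (d + tau (h0 * y))
  set m0 := mn (D (h0 * x) (kE (h0 * x))) 0 (tau (h0 * y))
  set I1 := ∫ u in d..(d + h0 * y), f u
  set I0 := ∫ u in (0 : ℝ)..(h0 * y), f u
  set cf := Cf X (h0 * y)
  have e5 : -(μ * (cf * (I1 - I0))) ≤ 2 * μ * |cf| * d := by
    have h1 : |cf * (I1 - I0)| ≤ |cf| * (2 * d) := by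
      rw [abs_mul]
      exact mul_le_mul_of_nonneg_left e4 (abs_nonneg _)
    have h2 := mul_le_mul_of_nonneg_left (abs_le.1 h1).1 hμ
    linarith
  have e6 : grU x μ q y X A L C / h0 * d = X / h0 * d + μ / h0 * L * d + X0 / h0 * d +
      2 * μ * |cf| * d := by
    have : grU x μ q y X A L C = X + μ * L + X0 + 2 * μ * |C| := by
      rw [hX0]
      unfold grU
      ring
    rw [this, ← hC']
    field_simp
  have e7 : X * (1 / 2 - we (h0 * x) - μ * wq (h0 * x) + (2 * d + h0 * y) / (2 * h0)) =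
      X * (1 / 2 - we (h0 * x) - μ * wq (h0 * x) + (2 * 0 + h0 * y) / (2 * h0)) +
        X / h0 * d := by
    field_simp
    ring
  have e8 : μ * ((2 * d + h0 * y - h0 * x) / (2 * h0)) * L =
      μ * ((2 * 0 + h0 * y - h0 * x) / (2 * h0)) * L + μ / h0 * L * d := by
    field_simp
    ring
  rw [e6, e7, e8]
  have e9 : μ * (cf * (I1 - I0)) = μ * (cf * I1) - μ * (cf * I0) := by ring
  linarith

end

end Pool.Agent.Strip051.PB
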