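import Pool.Agent.Strip051.PB.FlTgReal

/-! # The integral of the density with the tents -/

namespace Pool.Agent.Strip051.PB

open Pool.Agent.StripNear Pool.Agent.StripSquare Pool.Agent.Strip051.Sweep
open Pool.Agent.Strip051.LC Pool.Agent.Strip051.LC.Exact
open Pool.Agent.Strip051.LC.Line (D D_low D_high)

/-- The integral of the density from `0` to `v`, both in units of `h0`. -/
noncomputable def jx (th x v : ℝ) : ℝ :=
  if v - x ≤ 0 then
    -(min (min v (x - v)) (th / 2 * x) - min (min v (x - v)) (th / 2 * x) ^ 2 * (th⁻¹ * x⁻¹))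
  else
    min (min (v - x) (1 - v)) (th / 2 * (1 - x)) -
      min (min (v - x) (1 - v)) (th / 2 * (1 - x)) ^ 2 * (th⁻¹ * (1 - x)⁻¹)

variable {x v th : ℝ}

/-- the antiderivative of the soft threshold in terms of the distance to the ends -/
theorem sfi_tent {u c m a b w : ℝ} (hw : 0 < w) (h0t : 0 < th) (ht1 : th ≤ 1) (ha : 0 ≤ a)
    (hb : 0 ≤ b) (hab : a + b = w) (hc : c = 1 / th - 1) (hu : u = (a - b) / (w * th))
    (hm : m = min (min a b) (th / 2 * w)) : sfi c u = (1 - 2 * m / (w * th)) ^ 2 / 2 := by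
  have hwt : 0 < w * th := by positivity
  have hc0 : 0 ≤ c := by
    rw [hc, sub_nonneg, le_div_iff₀ h0t]
    linarith
  have key : ∀ a b u : ℝ, 0 ≤ a → 0 ≤ b → b ≤ a → a + b = w → u = (a - b) / (w * th) →
      sfi c u = (1 - 2 * min b (th / 2 * w) / (w * th)) ^ 2 / 2 := by
    intro a b u ha hb hba hab hu
    have hu0 : 0 ≤ u := by
      rw [hu]
      exact div_nonneg (by linarith) hwt.le
    have e : u - c = 1 - 2 * b / (w * th) := by
      rw [hu, hc]
      have : a = w - b := by linarith
      rw [this]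
      field_simp
      ring
    unfold sfi
    rw [max_eq_left (by linarith : -u - c ≤ 0), e]
    rcases le_total b (th / 2 * w) with h | h
    · rw [min_eq_left h, max_eq_right]
      · ring
      · rw [sub_nonneg, div_le_one hwt]
        linarith
    · rw [min_eq_right h, max_eq_left]
      · have : 2 * (th / 2 * w) / (w * th) = 1 := by
          field_simp
        rw [this]
        ring
      · rw [sub_nonpos, le_div_iff₀ hwt]
        linarith
  rcases le_total b a with h | h
  · rw [key a b u ha hb h hab hu, hm, min_eq_right h]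
  · rw [← sfi_neg, key b a (-u) hb ha h (by linarith) (by rw [hu]; ring), hm, min_eq_left h]

theorem sfi_one {c : ℝ} (h0t : 0 < th) (ht1 : th ≤ 1) (hc : c = 1 / th - 1) :
    sfi c (1 / th) = 1 / 2 := by
  have hc0 : 0 ≤ c := by
    rw [hc, sub_nonneg, le_div_iff₀ h0t]
    linarith
  rw [sfi_top hc0 (by rw [hc]; linarith), hc]
  ring

/-- **The integral of the density with the tents.** -/
theorem tnt_int (hx : 0 < x) (hx1 : x < 1) (h0t : 0 < th) (ht1 : th ≤ 1) (hv : 0 ≤ v)
    (hv1 : v ≤ 1) : ∫ u in (0 : ℝ)..(h0 * v), tnt (h0 * x) th u = h0 * jx th x v := by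
  have hp := h0_pos
  have hne : h0 ≠ 0 := hp.ne'
  have hs : 0 < h0 * x := by positivity
  have hs1 : h0 * x < h0 := by nlinarith
  have h1x : 0 < 1 - x := by linarith
  have e4 : h0 - h0 * x = h0 * (1 - x) := by ring
  have hc := tnt_cont h0t ht1 hs hs1
  have hi : ∀ a b : ℝ, IntervalIntegrable (tnt (h0 * x) th) MeasureTheory.volume a b := fun a b =>
    hc.intervalIntegrable a b
  have cell : ∀ v, 0 ≤ v → v ≤ x → ∫ u in (0 : ℝ)..(h0 * v), tnt (h0 * x) th u =
      -(h0 * (min (min v (x - v)) (th / 2 * x) -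
        min (min v (x - v)) (th / 2 * x) ^ 2 * (th⁻¹ * x⁻¹))) := by
    intro v v0 v1
    have e : ∫ u in (0 : ℝ)..(h0 * v), tnt (h0 * x) th u =
        ∫ u in (0 : ℝ)..(h0 * v), sft (1 / th - 1) (2 / (h0 * x * th) * u + -(1 / th)) := by
      refine intervalIntegral.integral_congr fun u hu => ?_
      rw [Set.uIcc_of_le (by positivity)] at hu
      have hu2 : u ≤ h0 * x := hu.2.trans (by nlinarith)
      change sft (1 / th - 1) (D (h0 * x) _ u) = _
      rw [D_low hu.1 hu2 hs1, e4]
      congr 1
      field_simp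
      ring
    rw [e, integral_sft _ (by positivity)]
    have e1 : 2 / (h0 * x * th) * (h0 * v) + -(1 / th) = (v - (x - v)) / (x * th) := by
      field_simp
      ring
    have e2 : 2 / (h0 * x * th) * 0 + -(1 / th) = -(1 / th) := by ring
    rw [e1, e2, sfi_neg, sfi_one h0t ht1 rfl, sfi_tent hx h0t ht1 v0 (by linarith : 0 ≤ x - v)
      (by ring) rfl rfl rfl]
    set m := min (min v (x - v)) (th / 2 * x)
    field_simp
    ring
  have zx : ∫ u in (0 : ℝ)..(h0 * x), tnt (h0 * x) th u = 0 := by
    rw [cell x hx.le le_rfl, sub_self, min_eq_right hx.le, min_eq_left (by positivity)]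
    ring
  unfold jx
  split_ifs with h
  · rw [cell v hv (by linarith)]
    ring
  · have hxv : x ≤ v := by linarith
    have e := intervalIntegral.integral_add_adjacent_intervals (hi 0 (h0 * x)) (hi (h0 * x) (h0 * v))
    rw [zx, zero_add] at e
    rw [← e]
    have e : ∫ u in (h0 * x)..(h0 * v), tnt (h0 * x) th u =
        ∫ u in (h0 * x)..(h0 * v), sft (1 / th - 1)
          (-(2 / (h0 * (1 - x) * th)) * u + (1 + x) / ((1 - x) * th)) := by
      refine intervalIntegral.integral_congr fun u hu => ?_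
      rw [Set.uIcc_of_le (by nlinarith)] at hu
      have hu2 : u ≤ h0 := hu.2.trans (by nlinarith)
      change sft (1 / th - 1) (D (h0 * x) _ u) = _
      rw [D_high hu.1 hu2 hs.le, e4]
      congr 1
      field_simp
      ring
    rw [e, integral_sft _ (neg_ne_zero.2 (by positivity))]
    have e1 : -(2 / (h0 * (1 - x) * th)) * (h0 * v) + (1 + x) / ((1 - x) * th) =
        -(((v - x) - (1 - v)) / ((1 - x) * th)) := by
      field_simp
      ring
    have e2 : -(2 / (h0 * (1 - x) * th)) * (h0 * x) + (1 + x) / ((1 - x) * th) = 1 / th := by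
      field_simp
      ring
    rw [e1, e2, sfi_neg, sfi_one h0t ht1 rfl, sfi_tent h1x h0t ht1 (by linarith : 0 ≤ v - x)
      (by linarith : 0 ≤ 1 - v) (by ring) rfl rfl rfl]
    set m := min (min (v - x) (1 - v)) (th / 2 * (1 - x))
    field_simp
    ring

/-- The integral up to a height modulo one. -/
theorem tnt_intQ (hx : 0 < x) (hx1 : x < 1) (h0t : 0 < th) (ht1 : th ≤ 1) {q : ℕ} {y : ℝ}
    (hq : InQ q y) : ∫ u in (0 : ℝ)..(h0 * y), tnt (h0 * x) th u = h0 * jx th x (vq q y) := by
  have hp := h0_pos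
  have hs : 0 < h0 * x := by positivity
  have hs1 : h0 * x < h0 := by nlinarith
  have hc := tnt_cont h0t ht1 hs hs1
  have hi : ∀ a b : ℝ, IntervalIntegrable (tnt (h0 * x) th) MeasureTheory.volume a b := fun a b =>
    hc.intervalIntegrable a b
  obtain ⟨h1, h2⟩ := vq_mem hq
  have z1 : ∫ u in (0 : ℝ)..h0, tnt (h0 * x) th u = 0 := by
    have e := tnt_int hx hx1 h0t ht1 (v := 1) (by norm_num) le_rfl
    rw [mul_one] at e
    rw [e]
    unfold jx
    rw [if_neg (by linarith), sub_self, min_eq_right (by linarith : (0 : ℝ) ≤ 1 - x),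
      min_eq_left (by nlinarith)]
    ring
  have per := (tnt_denOk h0t ht1 hs hs1).per
  have sh : ∫ u in (0 : ℝ)..(h0 * y), tnt (h0 * x) th u =
      ∫ u in (0 : ℝ)..(h0 * (y - 1)), tnt (h0 * x) th u := by
    have e := intervalIntegral.integral_add_adjacent_intervals (hi 0 h0) (hi h0 (h0 * y))
    rw [z1, zero_add] at e
    rw [← e]
    have e2 := intervalIntegral.integral_comp_add_right (a := 0) (b := h0 * (y - 1))
      (tnt (h0 * x) th) h0
    rw [zero_add, show h0 * (y - 1) + h0 = h0 * y by ring] at e2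
    rw [← e2]
    exact intervalIntegral.integral_congr fun u _ => per u
  match q, hq with
  | 0, _ => exact tnt_int hx hx1 h0t ht1 h1 h2
  | 1, _ => exact tnt_int hx hx1 h0t ht1 h1 h2
  | 2, _ =>
    rw [sh]
    exact tnt_int hx hx1 h0t ht1 h1 h2
  | 3, _ =>
    rw [sh]
    exact tnt_int hx hx1 h0t ht1 h1 h2
  | _ + 4, hq => exact hq.elim

end Pool.Agent.Strip051.PB
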