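import Pool.Agent.Strip051.PB.FlGerm

/-! # The tests near the tight unit pair -/

namespace Pool.Agent.Strip051.PB

open Pool.Agent.Strip051.LC.Floor (G En Qn fS GUn epn ehn rhn Aan omn lmn lhn kan k3n k3d zen hbn hfl
  hml hfh hmh)

/-! ### The integral of the tents near the tight pair -/

theorem jx_low {x y th : ℝ} (hx : 0 < x) (h0t : 0 < th) (ht1 : th ≤ 1) (hyx : y ≤ x) :
    jx th x y ≤ (y - x) + 1 / th * (y - x) ^ 2 / x := by
  unfold jx
  rw [if_pos (by linarith)]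
  set k := th⁻¹ * x⁻¹ with hk
  have hk0 : 0 < k := by positivity
  have e : (y - x) + 1 / th * (y - x) ^ 2 / x = -((x - y) - (x - y) ^ 2 * k) := by
    rw [hk]
    field_simp
    ring
  rw [e]
  have kx : k * (th * x) = 1 := by
    rw [hk]
    field_simp
  have m1 : min (min y (x - y)) (th / 2 * x) ≤ x - y := (min_le_left _ _).trans (min_le_right _ _)
  rcases min_choice (min y (x - y)) (th / 2 * x) with h | h
  · rcases min_choice y (x - y) with h2 | h2
    · rw [h, h2] at m1 ⊢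
      have : 1 ≤ k * x := by nlinarith [mul_pos hk0 hx]
      nlinarith [mul_nonneg (sub_nonneg.2 m1) (sub_nonneg.2 this)]
    · rw [h, h2]
  · rw [h] at m1 ⊢
    have h3 : 0 ≤ k * (x - y + th / 2 * x) - 1 := by nlinarith
    nlinarith [mul_nonneg (sub_nonneg.2 m1) h3]

theorem jx_high {x y th w : ℝ} (hx : 0 < x) (hx1 : x < 1) (h0t : 0 < th) (hxy : x ≤ y)
    (hw : w * th ≤ 1) (hw0 : 0 ≤ w) (hwr : 2 * w * (y - x) ≤ 1 - x) :
    jx th x y ≤ (y - x) - w * (y - x) ^ 2 / (1 - x) := by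
  have h1x : 0 < 1 - x := by linarith
  unfold jx
  rcases hxy.eq_or_lt with h | h
  · subst h
    rw [if_pos (by linarith), sub_self, min_eq_right hx.le, min_eq_left (by positivity)]
    simp
  · rw [if_neg (by linarith)]
    set m := min (min (y - x) (1 - y)) (th / 2 * (1 - x)) with hm
    set k := th⁻¹ * (1 - x)⁻¹ with hk
    have m1 : m ≤ y - x := (min_le_left _ _).trans (min_le_left _ _)
    set k' := w / (1 - x) with hk'
    have k0 : 0 ≤ k' := by positivity
    have kk : k' ≤ k := by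
      rw [hk', hk, div_eq_mul_inv]
      refine mul_le_mul_of_nonneg_right ?_ (by positivity)
      rw [← one_div, le_div_iff₀ h0t]
      exact hw
    have k2 : k' * (2 * (y - x)) ≤ 1 := by
      rw [hk', div_mul_eq_mul_div, div_le_one h1x]
      linarith
    have e : w * (y - x) ^ 2 / (1 - x) = (y - x) ^ 2 * k' := by
      rw [hk']
      ring
    rw [e]
    have a1 : m ^ 2 * k' ≤ m ^ 2 * k := mul_le_mul_of_nonneg_left kk (sq_nonneg _)
    have a2 : 0 ≤ 1 - k' * (y - x + m) := by nlinarith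
    nlinarith [mul_nonneg (sub_nonneg.2 m1) a2]

/-! ### Packed functions -/

noncomputable def epnT (y : ℕ) : ℕ :=
  pnorm (psub (phn 1) (pmul (pscale 3 4 y) (pinv (padd pone (c1T y)))))
noncomputable def ehnT (y : ℕ) : ℕ :=
  pnorm (psub (pmul (pscale 3 4 (padd pone y)) (pinv (padd (c1T y) (phn 1)))) (phn 1))
noncomputable def rhnT (y x : ℕ) : ℕ :=
  pnorm (pmul (pscale 3 4 (padd y x)) (pinv (padd (c1T y) (c1T x))))
noncomputable def aanT (y x : ℕ) : ℕ := pnorm (padd (pmul y (c1T x)) (pmul x (c1T y)))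
noncomputable def omnT (y x : ℕ) : ℕ := pnorm (pmul (padd y x) (pinv (aanT y x)))
noncomputable def lmnT (y x : ℕ) : ℕ :=
  pnorm (pmul (pscale 3 4 (padd pone (omnT y x)))
    (pinv (pmul (padd pone (c1T y)) (padd pone (c1T x)))))
noncomputable def lhnT (y x : ℕ) : ℕ :=
  pnorm (pmul (pscale 3 4 (padd (padd (phn 1) (rhnT y x)) (omnT y x)))
    (pinv (pmul (padd (c1T y) (phn 1)) (padd (c1T x) (phn 1)))))
noncomputable def gunT (y : ℕ) : ℕ :=
  pnorm (padd (pscale 3 4 y) (pscale 3 2 (psub pone (c1T y))))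
noncomputable def k3nT (y : ℕ) : ℕ :=
  pnorm (pscale 3 4 (padd (padd pone (padd y y)) (pmul (pmul y (gunT y)) (pinv (c1T y)))))
noncomputable def k3dT (y d : ℕ) : ℕ :=
  pnorm (psub (k3nT y) (pmul (padd (gunT y) (padd (c1T y) (c1T y))) d))
noncomputable def f0T (y : ℕ) : ℕ := pnorm (psub (c1T y) (pscale 3 2 y))

/-- `hbn` -/
noncomputable def hbT (y x : ℕ) : ℕ :=
  psub (pmul (pscale 3 2 y) (rhnT y x)) (pmul (pnorm (pmul (rhnT y x)
    (pnorm (psub (pmul (padd (c1T x) (c1T x)) (c1T y)) pone)))) (pinv (pmul (c1T y) (aanT y x))))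

/-- `3 / 4 + 3 / 2 * rhn` -/
noncomputable def rrT (y x : ℕ) : ℕ := padd (prat 3 4) (pscale 3 2 (rhnT y x))

noncomputable def hflT (y x d : ℕ) : ℕ :=
  psub (psub (pmul (rhnT y x) (pinv (aanT y x)))
    (pmul (pnorm (pmul (f0T y) (pinv (padd (epnT y) (epnT y))))) (lmnT y x)))
    (pmul (pnorm (pmul d y)) (lmnT y x))

noncomputable def hmlT (y x d w : ℕ) : ℕ :=
  padd (psub (psub (psub (hbT y x) (pmul (pnorm (pmul (f0T y) (pinv (padd (epnT y) (epnT y)))))
    (pnorm (psub (pmul (lmnT y x) (gunT x)) (pmul (epnT y) (rrT y x))))))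
    (pmul (pnorm (pmul y (k3nT y))) (lmnT y x)))
    (pmul (pnorm (pmul (epnT x) (k3dT y d))) (psub w pone)))
    (pmul d (pnorm (padd (psub (pmul (padd y y) (pnorm (psub (pmul (c1T y) (lmnT y x))
      (pmul (rhnT y x) (epnT y))))) (enT y)) (pmul (pnorm (pmul y (epnT x))) (rrT y x)))))

noncomputable def hfhT (y x d : ℕ) : ℕ :=
  padd (padd (pmul (rhnT y x) (pinv (aanT y x)))
    (pmul (pnorm (pmul (f0T y) (pinv (padd (ehnT y) (ehnT y))))) (lhnT y x)))
      (pmul (pnorm (pmul d (pnorm (psub pone y)))) (lhnT y x))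

noncomputable def hmhT (y x d w : ℕ) : ℕ :=
  padd (padd (padd (padd (hbT y x) (pmul (pnorm (pmul (f0T y) (pinv (padd (ehnT y) (ehnT y)))))
    (pnorm (padd (pmul (lhnT y x) (gunT x)) (pmul (ehnT y) (rrT y x))))))
    (pmul (pnorm (pmul (pnorm (psub pone y)) (k3nT y))) (lhnT y x)))
    (pmul (pnorm (pmul (ehnT x) (k3dT y d))) (psub w pone)))
    (pmul d (pnorm (padd (psub (pneg (pmul (padd (pnorm (psub pone y)) (pnorm (psub pone y)))
      (pnorm (padd (pmul (c1T y) (lhnT y x)) (pmul (rhnT y x) (ehnT y)))))) (enT y))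
      (pmul (pnorm (pmul (pnorm (psub pone y)) (ehnT x))) (rrT y x)))))

section

variable {E : Pt} {X Y D W : ℕ} {x y d w : ℝ}

theorem enc_34 (hx : Enc E X x) : Enc E (pscale 3 4 X) (3 / 4 * x) := by
  refine enc_cast (enc_scale 3 4 hx) ?_
  norm_num

theorem enc_32 (hx : Enc E X x) : Enc E (pscale 3 2 X) (3 / 2 * x) := by
  refine enc_cast (enc_scale 3 2 hx) ?_
  norm_num

theorem enc_epnT (hy : Enc E Y y) : Enc E (epnT Y) (epn y) :=
  enc_cast (enc_norm (enc_sub (enc_half1 E) (enc_mul (enc_34 hy) (enc_inv (enc_add (enc_one E)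
    (enc_G hy)))))) (by unfold epn; rw [div_eq_mul_inv (3 / 4 * y)])

theorem enc_ehnT (hy : Enc E Y y) : Enc E (ehnT Y) (ehn y) :=
  enc_cast (enc_norm (enc_sub (enc_mul (enc_34 (enc_add (enc_one E) hy)) (enc_inv (enc_add
    (enc_G hy) (enc_half1 E)))) (enc_half1 E)))
    (by unfold ehn; rw [div_eq_mul_inv (3 / 4 * (1 + y))])

theorem enc_rhnT (hy : Enc E Y y) (hx : Enc E X x) : Enc E (rhnT Y X) (rhn y x) :=
  enc_cast (enc_norm (enc_mul (enc_34 (enc_add hy hx)) (enc_inv (enc_add (enc_G hy) (enc_G hx)))))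
    (by unfold rhn; rw [div_eq_mul_inv (3 / 4 * (y + x))])

theorem enc_aanT (hy : Enc E Y y) (hx : Enc E X x) : Enc E (aanT Y X) (Aan y x) :=
  enc_norm (enc_add (enc_mul hy (enc_G hx)) (enc_mul hx (enc_G hy)))

theorem enc_omnT (hy : Enc E Y y) (hx : Enc E X x) : Enc E (omnT Y X) (omn y x) :=
  enc_cast (enc_norm (enc_mul (enc_add hy hx) (enc_inv (enc_aanT hy hx))))
    (by unfold omn; rw [div_eq_mul_inv])

theorem enc_lmnT (hy : Enc E Y y) (hx : Enc E X x) : Enc E (lmnT Y X) (lmn y x) :=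
  enc_cast (enc_norm (enc_mul (enc_34 (enc_add (enc_one E) (enc_omnT hy hx))) (enc_inv
    (enc_mul (enc_add (enc_one E) (enc_G hy)) (enc_add (enc_one E) (enc_G hx))))))
    (by unfold lmn; rw [div_eq_mul_inv (3 / 4 * (1 + omn y x))])

theorem enc_lhnT (hy : Enc E Y y) (hx : Enc E X x) : Enc E (lhnT Y X) (lhn y x) :=
  enc_cast (enc_norm (enc_mul (enc_34 (enc_add (enc_add (enc_half1 E) (enc_rhnT hy hx))
    (enc_omnT hy hx))) (enc_inv (enc_mul (enc_add (enc_G hy) (enc_half1 E))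
      (enc_add (enc_G hx) (enc_half1 E))))))
    (by unfold lhn; rw [div_eq_mul_inv (3 / 4 * (1 / 2 + rhn y x + omn y x))])

theorem enc_gunT (hy : Enc E Y y) : Enc E (gunT Y) (GUn y) :=
  enc_norm (enc_add (enc_34 hy) (enc_32 (enc_sub (enc_one E) (enc_G hy))))

theorem enc_k3nT (hy : Enc E Y y) : Enc E (k3nT Y) (k3n y) :=
  enc_cast (enc_norm (enc_34 (enc_add (enc_add (enc_one E) (enc_add hy hy))
    (enc_mul (enc_mul hy (enc_gunT hy)) (enc_inv (enc_G hy))))))
    (by unfold k3n; rw [div_eq_mul_inv (y * GUn y)]; ring)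

theorem enc_k3dT (hy : Enc E Y y) (hd : Enc E D d) : Enc E (k3dT Y D) (k3d y d) :=
  enc_cast (enc_norm (enc_sub (enc_k3nT hy) (enc_mul (enc_add (enc_gunT hy) (enc_add (enc_G hy)
    (enc_G hy))) hd))) (by unfold k3d; ring)

theorem enc_f0T (hy : Enc E Y y) : Enc E (f0T Y) (G y - 3 / 2 * y) :=
  enc_norm (enc_sub (enc_G hy) (enc_32 hy))

theorem enc_hbT (hy : Enc E Y y) (hx : Enc E X x) : Enc E (hbT Y X) (hbn y x) := by
  refine enc_cast (enc_sub (enc_mul (enc_32 hy) (enc_rhnT hy hx)) (enc_mul (enc_norm (enc_mul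
    (enc_rhnT hy hx) (enc_norm (enc_sub (enc_mul (enc_add (enc_G hx) (enc_G hx)) (enc_G hy))
      (enc_one E))))) (enc_inv (enc_mul (enc_G hy) (enc_aanT hy hx))))) ?_
  unfold hbn
  rw [div_eq_mul_inv (rhn y x * (2 * G x * G y - 1))]
  ring

theorem enc_rrT (hy : Enc E Y y) (hx : Enc E X x) : Enc E (rrT Y X) (3 / 4 + 3 / 2 * rhn y x) := by
  refine enc_cast (enc_add (enc_rat E 3 4) (enc_32 (enc_rhnT hy hx))) ?_
  norm_num

theorem enc_hflT (hy : Enc E Y y) (hx : Enc E X x) (hd : Enc E D d) :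
    Enc E (hflT Y X D) (hfl y x d) := by
  refine enc_cast (enc_sub (enc_sub (enc_mul (enc_rhnT hy hx) (enc_inv (enc_aanT hy hx)))
    (enc_mul (enc_norm (enc_mul (enc_f0T hy) (enc_inv (enc_add (enc_epnT hy) (enc_epnT hy)))))
      (enc_lmnT hy hx))) (enc_mul (enc_norm (enc_mul hd hy)) (enc_lmnT hy hx))) ?_
  unfold hfl
  rw [div_eq_mul_inv (rhn y x), div_eq_mul_inv (G y - 3 / 2 * y), two_mul]

theorem enc_hmlT (hy : Enc E Y y) (hx : Enc E X x) (hd : Enc E D d) (hw : Enc E W w) :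
    Enc E (hmlT Y X D W) (hml y x d w) := by
  refine enc_cast (enc_add (enc_sub (enc_sub (enc_sub (enc_hbT hy hx) (enc_mul
    (enc_norm (enc_mul (enc_f0T hy) (enc_inv (enc_add (enc_epnT hy) (enc_epnT hy)))))
    (enc_norm (enc_sub (enc_mul (enc_lmnT hy hx) (enc_gunT hx)) (enc_mul (enc_epnT hy)
      (enc_rrT hy hx))))))
    (enc_mul (enc_norm (enc_mul hy (enc_k3nT hy))) (enc_lmnT hy hx)))
    (enc_mul (enc_norm (enc_mul (enc_epnT hx) (enc_k3dT hy hd))) (enc_sub hw (enc_one E))))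
    (enc_mul hd (enc_norm (enc_add (enc_sub (enc_mul (enc_add hy hy) (enc_norm (enc_sub
      (enc_mul (enc_G hy) (enc_lmnT hy hx)) (enc_mul (enc_rhnT hy hx) (enc_epnT hy)))))
      (enc_enT hy)) (enc_mul (enc_norm (enc_mul hy (enc_epnT hx))) (enc_rrT hy hx)))))) ?_
  unfold hml
  rw [div_eq_mul_inv (G y - 3 / 2 * y), two_mul (epn y), two_mul y]

theorem enc_hfhT (hy : Enc E Y y) (hx : Enc E X x) (hd : Enc E D d) :
    Enc E (hfhT Y X D) (hfh y x d) := by
  refine enc_cast (enc_add (enc_add (enc_mul (enc_rhnT hy hx) (enc_inv (enc_aanT hy hx)))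
    (enc_mul (enc_norm (enc_mul (enc_f0T hy) (enc_inv (enc_add (enc_ehnT hy) (enc_ehnT hy)))))
      (enc_lhnT hy hx))) (enc_mul (enc_norm (enc_mul hd (enc_1sub hy))) (enc_lhnT hy hx))) ?_
  unfold hfh
  rw [div_eq_mul_inv (rhn y x), div_eq_mul_inv (G y - 3 / 2 * y), two_mul]

theorem enc_hmhT (hy : Enc E Y y) (hx : Enc E X x) (hd : Enc E D d) (hw : Enc E W w) :
    Enc E (hmhT Y X D W) (hmh y x d w) := by
  have h1 := enc_1sub hy
  refine enc_cast (enc_add (enc_add (enc_add (enc_add (enc_hbT hy hx) (enc_mul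
    (enc_norm (enc_mul (enc_f0T hy) (enc_inv (enc_add (enc_ehnT hy) (enc_ehnT hy)))))
    (enc_norm (enc_add (enc_mul (enc_lhnT hy hx) (enc_gunT hx)) (enc_mul (enc_ehnT hy)
      (enc_rrT hy hx))))))
    (enc_mul (enc_norm (enc_mul h1 (enc_k3nT hy))) (enc_lhnT hy hx)))
    (enc_mul (enc_norm (enc_mul (enc_ehnT hx) (enc_k3dT hy hd))) (enc_sub hw (enc_one E))))
    (enc_mul hd (enc_norm (enc_add (enc_sub (enc_neg (enc_mul (enc_add h1 h1) (enc_norm (enc_add
      (enc_mul (enc_G hy) (enc_lhnT hy hx)) (enc_mul (enc_rhnT hy hx) (enc_ehnT hy))))))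
      (enc_enT hy)) (enc_mul (enc_norm (enc_mul h1 (enc_ehnT hx))) (enc_rrT hy hx)))))) ?_
  unfold hmh
  rw [div_eq_mul_inv (G y - 3 / 2 * y), two_mul (ehn y)]
  ring

end

/-- The condition near the tight pair, `lo` = below it. `δ` is the correction of the kernel. -/
def TgP (lo : Bool) (μ w δ x y : ℝ) : Prop :=
  0 ≤ k3d y δ ∧ cond lo (0 ≤ hfl y x δ + μ * hml y x δ w) (0 ≤ hfh y x δ + μ * hmh y x δ w)

/-- the test near the tight pair, `w = wa / wb`, the first coordinate is the height -/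
noncomputable def ftTg (lo : Bool) (M : Fn1) (D : Fn2) (wa wb : ℕ) : FTst where
  t x y _ _ _ _ := (fun d w => band (ppos (k3dT y d)) (ppos (sl lo
    (padd (hflT y x d) (pmul (M.t x) (hmlT y x d w)))
    (padd (hfhT y x d) (pmul (M.t x) (hmhT y x d w)))))) (D.t y x) (prat wa wb)
  P x y _ _ _ _ := TgP lo (M.v x) ((wa : ℝ) / wb) (D.v y x) x y
  snd := by
    intro E X Y XX A L C x y X' a l c hx hy _ _ _ _ h
    obtain ⟨h1, h2⟩ := band_true h
    have hd := D.enc hy hx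
    have hw := enc_rat E wa wb
    have k := ppos_sound (enc_sl lo (enc_add (enc_hflT hy hx hd) (enc_mul (M.enc hx)
      (enc_hmlT hy hx hd hw))) (enc_add (enc_hfhT hy hx hd) (enc_mul (M.enc hx)
        (enc_hmhT hy hx hd hw)))) h2
    have k1 := (ppos_sound (enc_k3dT hy hd) h1).le
    clear h1 h2 h
    refine ⟨k1, ?_⟩
    cases lo
    · exact k.le
    · exact k.le

/-- the test near the tight pair at the far vertex -/
noncomputable def ftTf (lo : Bool) (D : Fn2) : FTst where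
  t x y _ _ _ _ := (fun d => ppos (sl lo (hflT y x d) (hfhT y x d))) (D.t y x)
  P x y _ _ _ _ := cond lo (0 ≤ hfl y x (D.v y x)) (0 ≤ hfh y x (D.v y x))
  snd := by
    intro E X Y XX A L C x y X' a l c hx hy _ _ _ _ h
    have hd := D.enc hy hx
    have k := ppos_sound (enc_sl lo (enc_hflT hy hx hd) (enc_hfhT hy hx hd)) h
    clear h
    cases lo
    · exact k.le
    · exact k.le

/-- row near the tight unit pair -/
noncomputable def rowTg (T : FTst) (L : List Fx) (h p _q x : ℕ) : Bool := flf T L h x p p p p p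

/-- The statement of the row near the tight unit pair. -/
abbrev CertTg (P1 W1 P3 W3 : ℕ) (T : FTst) (L : List Fx) : Prop :=
  Cert2 P1 W1 P3 W3 fun y x => (∃ e ∈ L, e.P x y y) ∨ T.P x y y y y y

theorem certTg {T : FTst} {L : List Fx} {P1 W1 P3 W3 : ℕ}
    (ht : ∃ t, chk3 (onCell P1 W1 0 0 P3 W3 (rowTg T L)) t 1 1 1 = true) :
    CertTg P1 W1 P3 W3 T L :=
  cert2 (fun h1 h3 hl => flf_sound h3 h1 h1 h1 h1 h1 hl) ht

end Pool.Agent.Strip051.PB
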