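import Pool.Agent.Strip051.PB.FlReal

/-! # The unit pairs at the floor near the tight one

Lower bounds of the floor function on the unit circle from the closed forms of the tables, for the
coupled kernel and for the kernel with the tents. -/

namespace Pool.Agent.Strip051.PB

open Pool.Agent.StripNear Pool.Agent.StripSquare Pool.Agent.Strip051.Sweep
open Pool.Agent.Strip051.LC Pool.Agent.Strip051.LC.Exact
open Pool.Agent.Strip051.LC.Floor (G En Qn fS GUn kan k3d zen hfl hml hfh hmh unit_low unit_high)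
open Pool.Agent.Strip051.LC.Line (D D_low D_high)

/-- The height to the nearest multiple of `h0`, first two quarters. -/
def tq (q : ℕ) (y : ℝ) : ℝ := cond (od q) (y - 1) y

variable {x y μ δ w : ℝ} {q : ℕ}

theorem tq_mn_low (hx1 : x < 1) (h : InQ q y) (hq : q < 2) (hy : 0 < y) (hyx : y ≤ x) :
    tq q y * mnQ q x y = y * (y - x) / x := by
  have h1y : 1 - y ≠ 0 := by linarith
  have hx : 0 < x := by linarith
  match q, h, hq with
  | 0, ⟨h1, h2⟩, _ =>
    show y * mnE x y = _
    unfold mnE wgE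
    rw [if_pos (by linarith)]
    field_simp
  | 1, ⟨h1, h2⟩, _ =>
    show (y - 1) * mnO x y = _
    unfold mnO wgO
    rcases hyx.eq_or_lt with e | e
    · subst e
      simp
    · rw [if_neg (by linarith)]
      field_simp
      ring

theorem tq_mn_high (hx : 0 < x) (hx1 : x < 1) (h : InQ q y) (hq : q < 2) (hy1 : y < 1)
    (hxy : x ≤ y) : tq q y * mnQ q x y = (1 - y) * (y - x) / (1 - x) := by
  have h1x : 1 - x ≠ 0 := by linarith
  have hy : 0 < y := by linarith
  match q, h, hq with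
  | 0, ⟨h1, h2⟩, _ =>
    show y * mnE x y = _
    unfold mnE wgE
    rcases hxy.eq_or_lt with e | e
    · subst e
      simp
    · rw [if_neg (by linarith)]
      field_simp
  | 1, ⟨h1, h2⟩, _ =>
    show (y - 1) * mnO x y = _
    unfold mnO wgO
    rw [if_pos (by linarith)]
    field_simp
    ring

theorem En_GUn (hx : 0 < x) (hx1 : x < 1) : En x * GUn x = Qn x := by
  obtain ⟨t, h0t, h1t, ex, eG⟩ := Pool.Agent.Strip051.LC.Floor.par hx hx1
  rw [Pool.Agent.Strip051.LC.Floor.t_En ex eG, Pool.Agent.Strip051.LC.Floor.t_GUn ex eG,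
    Pool.Agent.Strip051.LC.Floor.t_Qn eG]

section

variable {R Xi Cf : ℝ → ℝ → ℝ} {f : ℝ → ℝ}

/-- The closed forms on the unit circle: `c = 1` for the coupled kernel, `c = 0` for the kernel with
the tents. -/
structure TgV (x μ c : ℝ) (q : ℕ) (y δ A L C : ℝ) : Prop where
  A : A = tq q y * ((1 + μ * GUn x) * kan y δ + c * μ * k3d y δ)
  L : L = zen y x δ
  C : C = (1 - c) * (En x * k3d y δ)

/-- **Below the tight pair.** `J` is the integral of the third density divided by `h0`. -/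
theorem tg_low (hx1 : x < 1) (h : InQ q y) (hq : q < 2) (hy : 0 < y) (hyx : y ≤ x)
    (hμ : 0 ≤ μ) {c A L C : ℝ} (hc1 : c ≤ 1) (ht : TgV x μ c q y δ A L C)
    (hk : 0 ≤ En x * k3d y δ ∨ c = 1) {J : ℝ} (hJ : J ≤ (y - x) + w * (y - x) ^ 2 / x)
    (hw : c = 0 ∨ w = 1) (hr : 0 ≤ hfl y x δ + μ * hml y x δ w) :
    0 ≤ fS x μ y (G y) (En x * A) L (mnQ q x y) - μ * (C * J) := by
  have hx : 0 < x := by linarith
  have key := unit_low (μ := μ) (δ := δ) (w := w) hx hx1 hy (by linarith)
  have m := tq_mn_low hx1 h hq hy hyx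
  have e := En_GUn hx hx1
  have hne : x ≠ 0 := hx.ne'
  rw [ht.A, ht.L, ht.C]
  have k1 : μ * ((1 - c) * (En x * k3d y δ) * J) ≤
      μ * ((1 - c) * (En x * k3d y δ) * ((y - x) + w * (y - x) ^ 2 / x)) := by
    refine mul_le_mul_of_nonneg_left ?_ hμ
    rcases hk with hk | hk
    · exact mul_le_mul_of_nonneg_left hJ (mul_nonneg (by linarith) hk)
    · rw [hk]
      simp
  have k2 : En x * (tq q y * ((1 + μ * GUn x) * kan y δ + c * μ * k3d y δ)) * mnQ q x y =
      (En x + μ * Qn x) * kan y δ * (y * (y - x) / x) +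
        μ * (c * (En x * k3d y δ) * (y * (y - x) / x)) := by
    rw [← m, ← e]
    ring
  have k3 : c * (y * (y - x) / x) = c * ((y - x) + w * (y - x) ^ 2 / x) := by
    rcases hw with h0 | h0
    · rw [h0, zero_mul, zero_mul]
    · rw [h0]
      field_simp
      ring
  have k4 : c * (En x * k3d y δ) * (y * (y - x) / x) =
      c * (En x * k3d y δ) * ((y - x) + w * (y - x) ^ 2 / x) := by
    linear_combination (En x * k3d y δ) * k3
  unfold fS
  rw [k2, k4]
  have k5 : 0 ≤ (y - x) ^ 2 * (hfl y x δ + μ * hml y x δ w) := mul_nonneg (sq_nonneg _) hr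
  rw [← key] at k5
  linarith

/-- **Above the tight pair.** -/
theorem tg_high (hx : 0 < x) (h : InQ q y) (hq : q < 2) (hy1 : y < 1) (hxy : x ≤ y)
    (hμ : 0 ≤ μ) {c A L C : ℝ} (hc1 : c ≤ 1) (ht : TgV x μ c q y δ A L C)
    (hk : 0 ≤ En x * k3d y δ ∨ c = 1) {J : ℝ} (hJ : J ≤ (y - x) - w * (y - x) ^ 2 / (1 - x))
    (hw : c = 0 ∨ w = 1) (hr : 0 ≤ hfh y x δ + μ * hmh y x δ w) :
    0 ≤ fS x μ y (G y) (En x * A) L (mnQ q x y) - μ * (C * J) := by
  have hx1 : x < 1 := by linarith
  have key := unit_high (μ := μ) (δ := δ) (w := w) hx hx1 (by linarith) hy1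
  have m := tq_mn_high hx hx1 h hq hy1 hxy
  have e := En_GUn hx hx1
  have hne : 1 - x ≠ 0 := by linarith
  rw [ht.A, ht.L, ht.C]
  have k1 : μ * ((1 - c) * (En x * k3d y δ) * J) ≤
      μ * ((1 - c) * (En x * k3d y δ) * ((y - x) - w * (y - x) ^ 2 / (1 - x))) := by
    refine mul_le_mul_of_nonneg_left ?_ hμ
    rcases hk with hk | hk
    · exact mul_le_mul_of_nonneg_left hJ (mul_nonneg (by linarith) hk)
    · rw [hk]
      simp
  have k2 : En x * (tq q y * ((1 + μ * GUn x) * kan y δ + c * μ * k3d y δ)) * mnQ q x y =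
      (En x + μ * Qn x) * kan y δ * ((1 - y) * (y - x) / (1 - x)) +
        μ * (c * (En x * k3d y δ) * ((1 - y) * (y - x) / (1 - x))) := by
    rw [← m, ← e]
    ring
  have k3 : c * ((1 - y) * (y - x) / (1 - x)) = c * ((y - x) - w * (y - x) ^ 2 / (1 - x)) := by
    rcases hw with h0 | h0
    · rw [h0, zero_mul, zero_mul]
    · rw [h0]
      field_simp
      ring
  have k4 : c * (En x * k3d y δ) * ((1 - y) * (y - x) / (1 - x)) =
      c * (En x * k3d y δ) * ((y - x) - w * (y - x) ^ 2 / (1 - x)) := by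
    linear_combination (En x * k3d y δ) * k3
  unfold fS
  rw [k2, k4]
  have k5 : 0 ≤ (y - x) ^ 2 * (hfh y x δ + μ * hmh y x δ w) := mul_nonneg (sq_nonneg _) hr
  rw [← key] at k5
  linarith

end

end Pool.Agent.Strip051.PB
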