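import Pool.Agent.Strip051.PB.FlTent

/-! # From the rows at the floor to the lists at the floor

`WallN`, `WinN` are the inequalities on the node curves in normalised coordinates, for one vertex. -/

namespace Pool.Agent.Strip051.PB

open Pool.Agent.StripNear Pool.Agent.StripSquare Pool.Agent.Strip051.Sweep
open Pool.Agent.Strip051.LC Pool.Agent.Strip051.LC.Exact
open Pool.Agent.Strip051.LC.Floor (G En Qn fS kE_low kE_high S0_norm G_nonneg G_sq)
open Pool.Agent.Strip051.LC.Line (mn D tau Qd)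

/-- The floor function minus `1 / 2` for a pair with its lower end on the floor; `C` is the third
kernel times `h0`. -/
noncomputable def usX (th x μ : ℝ) (q : ℕ) (y X A L C : ℝ) : ℝ :=
  fS x μ y X (En x * A) L (mnQ q x y) - μ * (C * jx th x (vq q y))

/-- The value `u` stays nonnegative over a period: with the growth from below, or with the growth
from below on a part `c` of the period and the growth from above on the rest. -/
def DipP (x μ : ℝ) (q : ℕ) (y X A L C u : ℝ) : Prop :=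
  0 ≤ u + grL x μ q y X A L C ∨ ∃ c : ℝ, 0 ≤ c ∧ c ≤ 1 ∧ 0 ≤ u + c * grL x μ q y X A L C ∧
    (1 - c) * grU x μ q y X A L C ≤ u + (X + μ * L)

/-- The inequalities at the wall. -/
def WallP (th x μ : ℝ) (q : ℕ) (y X A L C : ℝ) : Prop :=
  0 ≤ X + μ * L ∧ 0 ≤ usX th x μ q y X A L C ∧
    DipP x μ q y X A L C (usX th x μ q y X A L C)

theorem En_nn {x : ℝ} (x0 : 0 < x) (x1 : x < 1) : 0 ≤ En x := by
  have h : 1 - x / 2 ≤ G x := by
    unfold G
    rw [Real.le_sqrt' (by linarith)]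
    nlinarith
  unfold En
  linarith

/-- The growth from above from the height `b`. -/
theorem UX_dnb {R Xi Cf : ℝ → ℝ → ℝ} {f : ℝ → ℝ} {X x μ y : ℝ} {q : ℕ} (hx : 0 < x) (hx1 : x < 1)
    (hE : 0 ≤ kE (h0 * x)) (hμ : 0 ≤ μ) (hf : DenF f)
    (h : InQ q y) {A L C : ℝ} (hA : R X (h0 * y) = A) (hL : Xi X (h0 * y) = L)
    (hC : h0 * Cf X (h0 * y) = C) {d : ℝ} (hd : 0 ≤ d) (b : ℝ) :
    UX x μ R Xi Cf f X (b + d) (b + d + h0 * y) ≤
      UX x μ R Xi Cf f X b (b + h0 * y) + grU x μ q y X A L C / h0 * d := by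
  have hp := h0_pos
  have hT : 0 ≤ h0 * y := mul_nonneg hp.le h.nonneg
  have hne : h0 ≠ 0 := hp.ne'
  -- the mean
  set X0 := 2 * En x * (max (-A) 0 * (max x (taq q y))⁻¹ +
    max (- -A) 0 * (max (1 - x) (taq q y))⁻¹) with hX0
  have hM := monoT_norm hx hx1 h (X := X0) (A := -A) (c := 0) (by rw [mul_zero, add_zero])
  have key := slack_mono3 (by positivity : 0 < h0 * x) (by nlinarith) hE hM hd b
  rw [neg_neg] at hX0
  -- the third kernel
  have hi : ∀ a b : ℝ, IntervalIntegrable f MeasureTheory.volume a b := fun a b =>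
    hf.cont.intervalIntegrable a b
  have e3 : (∫ u in (b + d)..(b + d + h0 * y), f u) - ∫ u in b..(b + h0 * y), f u =
      (∫ u in (b + h0 * y)..(b + h0 * y + d), f u) - ∫ u in b..(b + d), f u := by
    have a1 := intervalIntegral.integral_add_adjacent_intervals (hi b (b + d))
      (hi (b + d) (b + d + h0 * y))
    have a2 := intervalIntegral.integral_add_adjacent_intervals (hi b (b + h0 * y))
      (hi (b + h0 * y) (b + h0 * y + d))
    rw [show b + d + h0 * y = b + h0 * y + d by ring] at *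
    linarith
  have e4 : |(∫ u in (b + d)..(b + d + h0 * y), f u) - ∫ u in b..(b + h0 * y), f u| ≤ 2 * d := by
    rw [e3]
    have b1 := hf.int_le (b + h0 * y) (b + h0 * y + d)
    have b2 := hf.int_le b (b + d)
    rw [add_sub_cancel_left, abs_of_nonneg hd] at b1 b2
    exact (abs_sub _ _).trans (by linarith)
  have hC' : h0 * |Cf X (h0 * y)| = |C| := by
    rw [← hC, abs_mul, abs_of_pos hp]
  unfold UX
  rw [UT_nf hT, UT_nf hT, hA, hL]
  set m1 := mn (D (h0 * x) (kE (h0 * x))) (b + d) (b + d + tau (h0 * y))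
  set m0 := mn (D (h0 * x) (kE (h0 * x))) b (b + tau (h0 * y))
  set I1 := ∫ u in (b + d)..(b + d + h0 * y), f u
  set I0 := ∫ u in b..(b + h0 * y), f u
  set cf := Cf X (h0 * y)
  have e5 : -(μ * (cf * (I1 - I0))) ≤ 2 * μ * |cf| * d := by
    have h1 : |cf * (I1 - I0)| ≤ |cf| * (2 * d) := by
      rw [abs_mul]
      exact mul_le_mul_of_nonneg_left e4 (abs_nonneg _)
    have h2 := mul_le_mul_of_nonneg_left (abs_le.1 h1).1 hμ
    linarith
  have e6 : grU x μ q y X A L C / h0 * d = X / h0 * d + μ / h0 * L * d + X0 / h0 * d +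
      2 * μ * |cf| * d := by
    have : grU x μ q y X A L C = X + μ * L + X0 + 2 * μ * |C| := by
      rw [hX0]
      unfold grU
      ring
    rw [this, ← hC']
    field_simp
  have e7 : X * (1 / 2 - we (h0 * x) - μ * wq (h0 * x) + (2 * (b + d) + h0 * y) / (2 * h0)) =
      X * (1 / 2 - we (h0 * x) - μ * wq (h0 * x) + (2 * b + h0 * y) / (2 * h0)) +
        X / h0 * d := by
    field_simp
    ring
  have e8 : μ * ((2 * (b + d) + h0 * y - h0 * x) / (2 * h0)) * L =
      μ * ((2 * b + h0 * y - h0 * x) / (2 * h0)) * L + μ / h0 * L * d := by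
    field_simp
    ring
  rw [e6, e7, e8]
  have e9 : μ * (cf * (I1 - I0)) = μ * (cf * I1) - μ * (cf * I0) := by ring
  linarith

/-- The inequalities at the wall from the growth and the value. -/
theorem WallP.of_mono {th x μ : ℝ} {q : ℕ} {y X A L C : ℝ} (x0 : 0 < x) (x1 : x < 1) (hμ : 0 ≤ μ)
    (h1 : 0 ≤ grL x μ q y X A L C) (h2 : 0 ≤ usX th x μ q y X A L C) :
    WallP th x μ q y X A L C := by
  refine ⟨?_, h2, Or.inl (add_nonneg h2 h1)⟩
  have e0 := En_nn x0 x1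
  have m1 : 0 ≤ (max x (taq q y))⁻¹ := inv_nonneg.2 (x0.le.trans (le_max_left _ _))
  have m2 : 0 ≤ (max (1 - x) (taq q y))⁻¹ :=
    inv_nonneg.2 ((by linarith : (0 : ℝ) ≤ 1 - x).trans (le_max_left _ _))
  have m3 : 0 ≤ 2 * En x * (max A 0 * (max x (taq q y))⁻¹ +
      max (-A) 0 * (max (1 - x) (taq q y))⁻¹) :=
    mul_nonneg (by linarith) (add_nonneg (mul_nonneg (le_max_right _ _) m1)
      (mul_nonneg (le_max_right _ _) m2))
  have m4 : 0 ≤ μ * |C| := mul_nonneg hμ (abs_nonneg _)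
  unfold grL at h1
  linarith

/-- The inequality for almost horizontal pairs above the floor. -/
def FlatP (th x μ : ℝ) (q : ℕ) (y X A L C : ℝ) : Prop :=
  0 ≤ grL x μ q y X A L C ∧ 0 ≤ usX th x μ q y X A L C + 17 / 500 * grL x μ q y X A L C

/-- The inequality for steep pairs. -/
def HighP (th x μ : ℝ) (q : ℕ) (y X A L C a D : ℝ) : Prop :=
  0 ≤ usX th x μ q y X A L C + 7 / 100 * min (grL x μ q y X A L C) 0 - a * (X - D / 2)

/-- The inequality for wide pairs. -/
def FarP (th x μ : ℝ) (q : ℕ) (y X A L C b D : ℝ) : Prop :=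
  1 / 2 ≤ usX th x μ q y X A L C + 7 / 100 * min (grL x μ q y X A L C) 0 - b * (X - D)

/-- The inequality for narrow pairs. -/
def NearP (th x μ : ℝ) (q : ℕ) (y X A L C b : ℝ) : Prop :=
  usX th x μ q y X A L C + 1 / 2 + 7 / 100 * max (grU x μ q y X A L C) 0 ≤ b * X

section

variable {n : ℕ} {P : Pos n} {x μ th : ℝ} {q : ℕ} {y : ℝ} {f : ℝ → ℝ}
  {vR vL vC : ℝ → Fin (n + 1) → ℝ} {R L C : Fin (n + 1) → ℕ → ℝ → ℝ → ℝ}
  {TR TL TC : ℕ → ℝ → ℝ → ℝ → ℝ}

variable (P x vR vL vC R L C TR TL TC) in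
/-- The three tables of a vertex. -/
structure Vx : Prop where
  lR : Link P.cur x vR R TR
  lL : Link P.cur x vL L TL
  lC : Link P.cur x vC C TC

variable (P x μ th f vC) in
/-- The parameters of a vertex. -/
structure VPar : Prop where
  x0 : 0 < x
  x1 : x < 1
  E0 : 0 ≤ kE (h0 * x)
  μ0 : 0 ≤ μ
  den : DenF f
  per : ∀ u, f (u + h0) = f u
  jv : ∀ (q : ℕ) (y X : ℝ), InQ q y → ker P.cur.nodes vC (fun _ _ => 0) X (h0 * y) *
    ∫ u in (0 : ℝ)..(h0 * y), f u =
      h0 * ker P.cur.nodes vC (fun _ _ => 0) X (h0 * y) * jx th x (vq q y)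

/-- The floor function of the tables. -/
noncomputable def UP (P : Pos n) (x μ : ℝ) (vR vL vC : ℝ → Fin (n + 1) → ℝ) (f : ℝ → ℝ) :
    ℝ → ℝ → ℝ → ℝ :=
  UX x μ (ker P.cur.nodes vR fun _ _ => 0) (ker P.cur.nodes vL fun _ _ => 0)
    (ker P.cur.nodes vC fun _ _ => 0) f

/-- The value of the floor function at the floor. -/
theorem ux_val (H : VPar P x μ th f vC) (h : InQ q y) {X A B D : ℝ}
    (hA : ker P.cur.nodes vR (fun _ _ => 0) X (h0 * y) = A)
    (hB : ker P.cur.nodes vL (fun _ _ => 0) X (h0 * y) = B)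
    (hD : h0 * ker P.cur.nodes vC (fun _ _ => 0) X (h0 * y) = D) :
    UP P x μ vR vL vC f X 0 (0 + h0 * y) = usX th x μ q y X A B D + 1 / 2 := by
  unfold UP usX
  rw [UX_zero H.x0 H.x1 h, H.jv q y X h, hA, hB, hD]
  ring

/-- The value of the floor function plus the period. -/
theorem up_per (H : VPar P x μ th f vC) (h : InQ q y) {X : ℝ} (d : ℝ) :
    UP P x μ vR vL vC f X (d + h0) (d + h0 + h0 * y) =
      UP P x μ vR vL vC f X d (d + h0 * y) +
        (X + μ * ker P.cur.nodes vL (fun _ _ => 0) X (h0 * y)) := by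
  have hp := h0_pos
  have hne : h0 ≠ 0 := hp.ne'
  have hT : 0 ≤ h0 * y := mul_nonneg hp.le h.nonneg
  have e1 : mn (D (h0 * x) (kE (h0 * x))) (d + h0) (d + h0 + tau (h0 * y)) =
      mn (D (h0 * x) (kE (h0 * x))) d (d + tau (h0 * y)) := by
    unfold mn
    refine intervalIntegral.integral_congr fun u _ => ?_
    have e := Pool.Agent.Strip051.LC.Line.D_add (h0 * x) (kE (h0 * x))
      (d + u * (d + tau (h0 * y) - d))
    show D _ _ (d + h0 + u * (d + h0 + tau (h0 * y) - (d + h0))) = D _ _ _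
    rw [← e]
    congr 1
    ring
  have e2 : ∫ u in (d + h0)..(d + h0 + h0 * y), f u = ∫ u in d..(d + h0 * y), f u := by
    have k := intervalIntegral.integral_comp_add_right (a := d) (b := d + h0 * y) f h0
    rw [show d + h0 * y + h0 = d + h0 + h0 * y by ring] at k
    rw [← k]
    exact intervalIntegral.integral_congr fun u _ => H.per u
  unfold UP UX
  rw [UT_nf hT, UT_nf hT, e1, e2]
  field_simp
  ring

/-- The growth and the value on the floor of the pair with the abscissa `X`. -/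
def GV (P : Pos n) (x μ : ℝ) (vR vL vC : ℝ → Fin (n + 1) → ℝ) (f : ℝ → ℝ) (q : ℕ) (y X : ℝ) :
    Prop :=
  0 ≤ X + μ * ker P.cur.nodes vL (fun _ _ => 0) X (h0 * y) ∧
    1 / 2 ≤ UP P x μ vR vL vC f X 0 (0 + h0 * y) ∧
    DipP x μ q y X (ker P.cur.nodes vR (fun _ _ => 0) X (h0 * y))
      (ker P.cur.nodes vL (fun _ _ => 0) X (h0 * y))
      (h0 * ker P.cur.nodes vC (fun _ _ => 0) X (h0 * y))
      (UP P x μ vR vL vC f X 0 (0 + h0 * y) - 1 / 2)

theorem Link.at_node {v : ℝ → Fin (n + 1) → ℝ} {R' : Fin (n + 1) → ℕ → ℝ → ℝ → ℝ}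
    {T' : ℕ → ℝ → ℝ → ℝ → ℝ} (l : Link P.cur x v R' T') {j : Fin (n + 1)} (h : InQ q y)
    (hd : P.dm j (h0 * y)) :
    ker P.cur.nodes v (fun _ _ => 0) (crv P j q y) (h0 * y) = R' j q y x := by
  have hT : 0 ≤ h0 * y := mul_nonneg h0_pos.le h.nonneg
  rw [← linkX P j q y h, P.cur.val v l.adm j (h0 * y) hT hd]
  exact l.node j q y h hd

/-- A lower bound for all heights up to `r`. -/
theorem low_of (H : VPar P x μ th f vC) (h : InQ q y) {X A B D E K : ℝ}
    (hA : ker P.cur.nodes vR (fun _ _ => 0) X (h0 * y) = A)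
    (hB : ker P.cur.nodes vL (fun _ _ => 0) X (h0 * y) = B)
    (hD : h0 * ker P.cur.nodes vC (fun _ _ => 0) X (h0 * y) = D)
    {d r : ℝ} (hd : 0 ≤ d) (hr : d ≤ r) (hK : r ≤ K * h0)
    (hk : E ≤ usX th x μ q y X A B D + 1 / 2 + K * min (grL x μ q y X A B D) 0) :
    E ≤ UP P x μ vR vL vC f X d (d + h0 * y) := by
  have hp := h0_pos
  have k1 := ux_val H h hA hB hD
  have k2 := UX_up H.x0 H.x1 H.E0 H.μ0 H.den h hA hB hD hd
  have k3 : K * min (grL x μ q y X A B D) 0 ≤ grL x μ q y X A B D / h0 * d := by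
    have m0 : min (grL x μ q y X A B D) 0 ≤ 0 := min_le_right _ _
    have m1 : min (grL x μ q y X A B D) 0 ≤ grL x μ q y X A B D := min_le_left _ _
    have a1 : d / h0 ≤ K := by
      rw [div_le_iff₀ hp]
      linarith
    have a0 : 0 ≤ d / h0 := by positivity
    have : grL x μ q y X A B D / h0 * d = d / h0 * grL x μ q y X A B D := by ring
    rw [this]
    nlinarith
  unfold UP at *
  linarith

/-- The growth and the value from the inequality. -/
theorem gv_of (H : VPar P x μ th f vC) (h : InQ q y) {X A B D : ℝ}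
    (hA : ker P.cur.nodes vR (fun _ _ => 0) X (h0 * y) = A)
    (hB : ker P.cur.nodes vL (fun _ _ => 0) X (h0 * y) = B)
    (hD : h0 * ker P.cur.nodes vC (fun _ _ => 0) X (h0 * y) = D)
    (hk : WallP th x μ q y X A B D) : GV P x μ vR vL vC f q y X := by
  obtain ⟨g0, g1, g2⟩ := hk
  have k1 := ux_val H h hA hB hD
  subst hA hB hD
  refine ⟨g0, ?_, ?_⟩
  · rw [k1]
    linarith
  · rw [k1, add_sub_cancel_right]
    exact g2

/-- A lower bound for all heights. -/
theorem wall_of (H : VPar P x μ th f vC) (h : InQ q y) {X : ℝ} {d : ℝ} (hd : 0 ≤ d)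
    (hk : GV P x μ vR vL vC f q y X) : 1 / 2 ≤ UP P x μ vR vL vC f X d (d + h0 * y) := by
  have hp := h0_pos
  obtain ⟨g0, g1, g2⟩ := hk
  -- up to the period
  have base : ∀ d, 0 ≤ d → d ≤ h0 → 1 / 2 ≤ UP P x μ vR vL vC f X d (d + h0 * y) := by
    intro d d0 d1
    have k2 := UX_up (R := ker P.cur.nodes vR fun _ _ => 0) (Xi := ker P.cur.nodes vL fun _ _ => 0)
      (Cf := ker P.cur.nodes vC fun _ _ => 0) (X := X) H.x0 H.x1 H.E0 H.μ0 H.den h rfl rfl rfl d0
    have k3 := UX_dnb (R := ker P.cur.nodes vR fun _ _ => 0)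
      (Xi := ker P.cur.nodes vL fun _ _ => 0) (Cf := ker P.cur.nodes vC fun _ _ => 0) (X := X)
      H.x0 H.x1 H.E0 H.μ0 H.den h rfl rfl rfl (d := h0 - d) (by linarith) d
    have k4 := up_per (vR := vR) (vL := vL) H h (X := X) 0
    have t0 : 0 ≤ d / h0 := div_nonneg d0 hp.le
    have t1 : d / h0 ≤ 1 := (div_le_one hp).2 d1
    rw [zero_add] at k4
    rw [show d + (h0 - d) = h0 by ring] at k3
    unfold DipP at g2
    set g := grL x μ q y X (ker P.cur.nodes vR (fun _ _ => 0) X (h0 * y))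
      (ker P.cur.nodes vL (fun _ _ => 0) X (h0 * y))
      (h0 * ker P.cur.nodes vC (fun _ _ => 0) X (h0 * y))
    set gu := grU x μ q y X (ker P.cur.nodes vR (fun _ _ => 0) X (h0 * y))
      (ker P.cur.nodes vL (fun _ _ => 0) X (h0 * y))
      (h0 * ker P.cur.nodes vC (fun _ _ => 0) X (h0 * y))
    have e : g / h0 * d = d / h0 * g := by ring
    have e' : gu / h0 * (h0 - d) = (1 - d / h0) * gu := by field_simp
    rw [e] at k2
    rw [e'] at k3
    unfold UP at *
    rcases g2 with g2 | ⟨c, c0, c1, g2, g3⟩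
    · nlinarith
    · rcases le_total (d / h0) c with hc | hc
      · rcases le_total 0 g with hg | hg
        · nlinarith
        · nlinarith
      · rcases le_total 0 gu with hg | hg
        · nlinarith
        · nlinarith
  have step : ∀ k : ℕ, ∀ d, 0 ≤ d → d ≤ h0 →
      1 / 2 ≤ UP P x μ vR vL vC f X (d + k * h0) (d + k * h0 + h0 * y) := by
    intro k
    induction k with
    | zero =>
      intro d d0 d1
      rw [Nat.cast_zero, zero_mul, add_zero]
      exact base d d0 d1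
    | succ k ih =>
      intro d d0 d1
      have e := up_per (vR := vR) (vL := vL) H h (X := X) (d + k * h0)
      rw [show d + ((k + 1 : ℕ) : ℝ) * h0 = d + k * h0 + h0 by push_cast; ring, e]
      linarith [ih d d0 d1]
  have k0 := Nat.floor_le (div_nonneg hd hp.le)
  have k1 := Nat.lt_floor_add_one (d / h0)
  rw [le_div_iff₀ hp] at k0
  rw [div_lt_iff₀ hp] at k1
  have k := step ⌊d / h0⌋₊ (d - ⌊d / h0⌋₊ * h0) (by linarith) (by nlinarith)
  rw [show d - (⌊d / h0⌋₊ : ℝ) * h0 + ⌊d / h0⌋₊ * h0 = d by ring] at k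
  exact k

theorem flat_of (H : VPar P x μ th f vC) (h : InQ q y) {X A B D : ℝ}
    (hA : ker P.cur.nodes vR (fun _ _ => 0) X (h0 * y) = A)
    (hB : ker P.cur.nodes vL (fun _ _ => 0) X (h0 * y) = B)
    (hD : h0 * ker P.cur.nodes vC (fun _ _ => 0) X (h0 * y) = D)
    {d : ℝ} (hd : 3 / 100 ≤ d) (hk : FlatP th x μ q y X A B D) :
    1 / 2 ≤ UP P x μ vR vL vC f X d (d + h0 * y) := by
  have hp := h0_pos
  have hs := h0_sq
  obtain ⟨g1, g2⟩ := hk
  have k1 := ux_val H h hA hB hD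
  have k2 := UX_up H.x0 H.x1 H.E0 H.μ0 H.den h hA hB hD (d := d) (by linarith)
  have k3 : 17 / 500 * grL x μ q y X A B D ≤ grL x μ q y X A B D / h0 * d := by
    have a1 : 17 / 500 ≤ d / h0 := by
      rw [le_div_iff₀ hp]
      nlinarith
    have : grL x μ q y X A B D / h0 * d = d / h0 * grL x μ q y X A B D := by ring
    rw [this]
    exact mul_le_mul_of_nonneg_right a1 g1
  unfold UP at *
  linarith

/-- An upper bound for all heights up to `3 / 50`. -/
theorem near_of (H : VPar P x μ th f vC) (h : InQ q y) {X A B D b : ℝ}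
    (hA : ker P.cur.nodes vR (fun _ _ => 0) X (h0 * y) = A)
    (hB : ker P.cur.nodes vL (fun _ _ => 0) X (h0 * y) = B)
    (hD : h0 * ker P.cur.nodes vC (fun _ _ => 0) X (h0 * y) = D)
    {d : ℝ} (hd : 0 ≤ d) (hr : d ≤ 3 / 50) (hk : NearP th x μ q y X A B D b) :
    UP P x μ vR vL vC f X d (d + h0 * y) ≤ b * X := by
  have hp := h0_pos
  have hs := h0_sq
  have k1 := ux_val H h hA hB hD
  have k2 := UX_dn H.x0 H.x1 H.E0 H.μ0 H.den h hA hB hD hd
  have k3 : grU x μ q y X A B D / h0 * d ≤ 7 / 100 * max (grU x μ q y X A B D) 0 := by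
    have m0 : 0 ≤ max (grU x μ q y X A B D) 0 := le_max_right _ _
    have m1 : grU x μ q y X A B D ≤ max (grU x μ q y X A B D) 0 := le_max_left _ _
    have a1 : d / h0 ≤ 7 / 100 := by
      rw [div_le_iff₀ hp]
      nlinarith
    have a0 : 0 ≤ d / h0 := by positivity
    have : grU x μ q y X A B D / h0 * d = d / h0 * grU x μ q y X A B D := by ring
    rw [this]
    nlinarith
  unfold NearP at hk
  unfold UP at *
  linarith

theorem fac_ok : (3 / 50 : ℝ) ≤ 7 / 100 * h0 := by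
  have hp := h0_pos
  have hs := h0_sq
  nlinarith

variable (P x μ vR vL vC f) in
/-- The inequalities at the wall in normalised coordinates. -/
structure WallN : Prop where
  node : ∀ (j : Fin (n + 1)) (q : ℕ) (y : ℝ), InQ q y → P.dm j (h0 * y) → h0 * y ≤ 1 →
    (y < 1 ∨ (j ≠ 0 ∧ 1 - G y ≤ crv P j q y)) → GV P x μ vR vL vC f q y (crv P j q y)
  steep : ∀ y : ℝ, 1 ≤ y → h0 * y ≤ 1 → GV P x μ vR vL vC f 2 y (1 - G y)

variable (P x μ th vR vL vC f R L C TR TL TC) in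
/-- The inequalities with the window in normalised coordinates. -/
structure WinN (D0 : ℝ) (al be : ℝ → ℝ) : Prop where
  al0 : ∀ T, 0 ≤ al T
  be0 : ∀ T, 0 ≤ be T
  node : ∀ (j : Fin (n + 1)) (q : ℕ) (y : ℝ), InQ q y → P.dm j (h0 * y) → 3 / 100 ≤ h0 * y →
    h0 * y ≤ 1 → (y < 1 ∨ (j ≠ 0 ∧ 1 - G y ≤ crv P j q y)) →
    GV P x μ vR vL vC f q y (crv P j q y)
  steep : ∀ y : ℝ, 1 ≤ y → h0 * y ≤ 1 → GV P x μ vR vL vC f 2 y (1 - G y)
  flat : ∀ (j : Fin (n + 1)) (y : ℝ), InQ 0 y → P.dm j (h0 * y) → h0 * y ≤ 3 / 100 →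
    FlatP th x μ 0 y (crv P j 0 y) (R j 0 y x) (L j 0 y x) (h0 * C j 0 y x)
  left : ∀ (j : Fin (n + 1)) (y : ℝ), InQ 0 y → P.dm j (h0 * y) → h0 * y ≤ 3 / 100 →
    crv P j 0 y ≤ D0 → GV P x μ vR vL vC f 0 y (crv P j 0 y)
  left0 : ∀ y : ℝ, 0 ≤ y → h0 * y ≤ 3 / 100 → GV P x μ vR vL vC f 0 y D0
  high : ∀ (j : Fin (n + 1)) (q : ℕ) (y T : ℝ), InQ q y → P.dm j (h0 * y) → 4 / 5 ≤ T →
    T ≤ 17 / 10 → T ≤ h0 * y → h0 * y ≤ T + 3 / 100 →
    HighP th x μ q y (crv P j q y) (R j q y x) (L j q y x) (h0 * C j q y x) (al T) D0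
  high0 : ∀ T : ℝ, 97 / 100 ≤ T → T ≤ 17 / 10 → 1 ≤ al T * D0
  far : ∀ (j : Fin (n + 1)) (q : ℕ) (y T : ℝ), InQ q y → P.dm j (h0 * y) → 22 / 25 ≤ T →
    T ≤ 67 / 50 → T ≤ h0 * y → h0 * y ≤ T + 3 / 100 → D0 ≤ crv P j q y →
    FarP th x μ q y (crv P j q y) (R j q y x) (L j q y x) (h0 * C j q y x) (be T) D0
  far0 : ∀ (q : ℕ) (y T : ℝ), InQ q y → 22 / 25 ≤ T → T ≤ 67 / 50 → T ≤ h0 * y →
    h0 * y ≤ T + 3 / 100 → qqn D0 y ≤ 3 →
    FarP th x μ q y D0 (TR q D0 y x) (TL q D0 y x) (h0 * TC q D0 y x) (be T) D0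
  near : ∀ (j : Fin (n + 1)) (q : ℕ) (y T : ℝ), InQ q y → P.dm j (h0 * y) → 22 / 25 ≤ T →
    T ≤ 67 / 50 → T ≤ h0 * y → h0 * y ≤ T + 3 / 100 → 0 < crv P j q y → crv P j q y ≤ 2 / 5 →
    NearP th x μ q y (crv P j q y) (R j q y x) (L j q y x) (h0 * C j q y x) (be T)
  near0 : ∀ (q : ℕ) (y T : ℝ), InQ q y → 22 / 25 ≤ T → T ≤ 67 / 50 → T ≤ h0 * y →
    h0 * y ≤ T + 3 / 100 → 1 ≤ qqn (2 / 5) y →
    NearP th x μ q y (2 / 5) (TR q (2 / 5) y x) (TL q (2 / 5) y x) (h0 * TC q (2 / 5) y x) (be T)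

theorem sqrt_G (y : ℝ) : Real.sqrt (1 - (h0 * y) ^ 2) = G y := by
  unfold G
  rw [mul_pow, h0_sq]

/-- The height and the node of a pair. -/
theorem node_cases {X T : ℝ} (hT : 0 ≤ T) (hX : 0 < X) (h3 : X ^ 2 + T ^ 2 ≤ 3)
    (hn : NodeAt P.cur.nodes X T) : ∃ (j : Fin (n + 1)) (q : ℕ) (y : ℝ), T = h0 * y ∧ InQ q y ∧
      P.dm j (h0 * y) ∧ X = crv P j q y := by
  have hp := h0_pos
  obtain ⟨j, hd, hj⟩ := P.cur.node X T hT h3 hn
  rw [abs_of_pos hX] at hj
  have e : T = h0 * (T / h0) := by field_simp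
  have y0 : 0 ≤ T / h0 := by positivity
  have hT2 : T ≤ 2 * h0 := by
    have := h0_sq
    nlinarith [sq_nonneg X]
  have y2 : T / h0 ≤ 2 := by rwa [div_le_iff₀ hp]
  have hq := inQ_qr y0 y2
  rw [e] at hd hj
  refine ⟨j, qr (T / h0), T / h0, e, hq, hd, ?_⟩
  rw [← linkX P j _ _ hq]
  exact hj

theorem height_cases {T : ℝ} (hT : 0 ≤ T) (h3 : T ^ 2 ≤ 3) :
    ∃ (q : ℕ) (y : ℝ), T = h0 * y ∧ InQ q y := by
  have hp := h0_pos
  have e : T = h0 * (T / h0) := by field_simp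
  have y0 : 0 ≤ T / h0 := by positivity
  have hT2 : T ≤ 2 * h0 := by
    have := h0_sq
    nlinarith
  have y2 : T / h0 ≤ 2 := by rwa [div_le_iff₀ hp]
  exact ⟨_, _, e, inQ_qr y0 y2⟩

theorem steep_len {y : ℝ} (h1 : 1 ≤ y) (h2 : h0 * y ≤ 1) :
    1 ≤ qqn (1 - G y) y ∧ qqn (1 - G y) y ≤ 3 := by
  have hp := h0_pos
  have hs := h0_sq
  have h3 : 3 / 4 * y ^ 2 ≤ 1 := by nlinarith [mul_pos hp hp]
  have e := G_sq h3
  have hG := G_nonneg y
  unfold qqn
  constructor <;> nlinarith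

/-- The quarter of the heights between `1` and `3 / 2`. -/
theorem inQ_two {y : ℝ} (h1 : 1 ≤ y) (h2 : h0 * y ≤ 1) : InQ 2 y := by
  have hp := h0_pos
  have hs := h0_sq
  exact ⟨h1, by nlinarith⟩

theorem inQ_zero {y : ℝ} (h1 : 0 ≤ y) (h2 : h0 * y ≤ 3 / 100) : InQ 0 y := by
  have hp := h0_pos
  have hs := h0_sq
  exact ⟨h1, by nlinarith⟩

theorem lt_half_of {q : ℕ} {y : ℝ} (h : InQ q y) (h2 : h0 * y ≤ 3 / 100) : q = 0 := by
  have hp := h0_pos
  have hs := h0_sq
  have hy : y < 1 / 2 := by nlinarith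
  match q, h with
  | 0, _ => rfl
  | 1, ⟨h1, h3⟩ => exfalso; linarith
  | 2, ⟨h1, h3⟩ => exfalso; linarith
  | 3, ⟨h1, h3⟩ => exfalso; linarith
  | _ + 4, h => exact h.elim

theorem G_at_one : G 1 = 1 / 2 := by
  unfold G
  rw [show (1 : ℝ) - 3 / 4 * 1 ^ 2 = (1 / 2) ^ 2 by norm_num, Real.sqrt_sq (by norm_num)]

theorem crv_zero (q : ℕ) (y : ℝ) : crv P 0 q y = G y := by
  unfold crv gamn
  rw [P.zero, if_pos (by norm_num), zero_mul, add_zero]
  rfl

/-- above `1` the unit circle is left of the steep pairs -/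
theorem G_lt {y : ℝ} (h : 1 < y) : G y < 1 / 2 := by
  unfold G
  rw [Real.sqrt_lt' (by norm_num)]
  nlinarith

/-- The pairs at the wall from the node curves and the steep pairs. -/
theorem node_wall (H : VPar P x μ th f vC) {j : Fin (n + 1)} (h : InQ q y)
    (hT1 : h0 * y ≤ 1) (hr : h0 * y ≤ h0 ∨ 1 - Real.sqrt (1 - (h0 * y) ^ 2) ≤ crv P j q y)
    (node : (y < 1 ∨ (j ≠ 0 ∧ 1 - G y ≤ crv P j q y)) → GV P x μ vR vL vC f q y (crv P j q y))
    (steep : ∀ y : ℝ, 1 ≤ y → h0 * y ≤ 1 → GV P x μ vR vL vC f 2 y (1 - G y)) {d : ℝ}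
    (hd : 0 ≤ d) : 1 / 2 ≤ UP P x μ vR vL vC f (crv P j q y) d (d + h0 * y) := by
  have hp := h0_pos
  rw [sqrt_G] at hr
  rcases lt_or_ge y 1 with hy | hy
  · exact wall_of H h hd (node (Or.inl hy))
  · have hq2 := inQ_two hy hT1
    by_cases hj : j = 0
    · subst hj
      have e := crv_zero (P := P) q y
      rcases hy.eq_or_lt with h1 | h1
      · subst h1
        have e2 : crv P 0 q 1 = 1 - G 1 := by
          rw [e, G_at_one]
          norm_num
        rw [e2]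
        exact wall_of H hq2 hd (steep 1 le_rfl hT1)
      · exfalso
        have g := G_lt h1
        rcases hr with hr | hr
        · nlinarith
        · rw [e] at hr
          linarith
    · refine wall_of H h hd (node (Or.inr ⟨hj, ?_⟩))
      rcases hr with hr | hr
      · have hy1 : y = 1 := le_antisymm (by nlinarith) hy
        rw [hy1, G_at_one]
        have l1 : c1 (h0 * y) ≤ P.cur.cv j (h0 * y) := by
          have hT : 0 ≤ h0 * y := mul_nonneg hp.le h.nonneg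
          exact P.cur.low j _ hT (by nlinarith)
        rw [linkX P j q y h, c1_n, hy1, show c1n 1 = 1 / 2 from G_at_one] at l1
        linarith
      · exact hr

theorem WallN.wallU (H : VPar P x μ th f vC) (h : WallN P x μ f vR vL vC) :
    WallU (UP P x μ vR vL vC f) (NodeAt P.cur.nodes) := by
  have hp := h0_pos
  constructor
  · intro X T d hd hT hT1 hX h1 h3 hn hr
    obtain ⟨j, q, y, rfl, hq, hdm, rfl⟩ := node_cases hT hX h3 hn
    exact node_wall H hq hT1 hr (h.node j q y hq hdm hT1) h.steep hd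
  · intro T d hd hT hT1
    have h3 : T ^ 2 ≤ 3 := by nlinarith
    obtain ⟨q, y, rfl, hq⟩ := height_cases (hp.le.trans hT) h3
    have hy : 1 ≤ y := by nlinarith
    rw [sqrt_G]
    exact wall_of H (inQ_two hy hT1) hd (h.steep y hy hT1)

theorem WinN.winU {D0 : ℝ} {al be : ℝ → ℝ} (H : VPar P x μ th f vC)
    (V : Vx P x vR vL vC R L C TR TL TC)
    (h : WinN P x μ th f vR vL vC R L C TR TL TC D0 al be) (hD0 : 11 / 10 ≤ D0)
    (hD1 : D0 ≤ 17 / 10) : WinU (UP P x μ vR vL vC f) (NodeAt P.cur.nodes) D0 al be := by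
  have hp := h0_pos
  refine ⟨h.al0, h.be0, ?_, ?_, ?_, ?_, ?_, ?_, ?_⟩
  · intro X T d hd hT3 hT1 hX h1 h3 hn hr
    obtain ⟨j, q, y, rfl, hq, hdm, rfl⟩ := node_cases (by linarith) hX h3 hn
    exact node_wall H hq hT1 hr (h.node j q y hq hdm hT3 hT1) h.steep hd
  · intro T d hd hT hT1
    have h3 : T ^ 2 ≤ 3 := by nlinarith
    obtain ⟨q, y, rfl, hq⟩ := height_cases (hp.le.trans hT) h3
    have hy : 1 ≤ y := by nlinarith
    rw [sqrt_G]
    exact wall_of H (inQ_two hy hT1) hd (h.steep y hy hT1)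
  · intro X T d hd hT hT3 hX h1 h3 hn
    obtain ⟨j, q, y, rfl, hq, hdm, rfl⟩ := node_cases hT hX h3 hn
    obtain rfl := lt_half_of hq hT3
    exact flat_of H hq (V.lR.at_node hq hdm) (V.lL.at_node hq hdm)
      (by rw [V.lC.at_node hq hdm]) hd (h.flat j y hq hdm hT3)
  · intro X T d hd _ hT hT3 hX hXD h1 h3 hn
    rcases hn with hn | hn
    · obtain ⟨j, q, y, rfl, hq, hdm, rfl⟩ := node_cases hT hX h3 hn
      obtain rfl := lt_half_of hq hT3
      exact wall_of H hq hd (h.left j y hq hdm hT3 hXD)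
    · subst hn
      obtain ⟨q, y, rfl, hq⟩ := height_cases hT (by nlinarith [sq_nonneg X])
      obtain rfl := lt_half_of hq hT3
      exact wall_of H hq hd (h.left0 y hq.1 hT3)
  · intro X T T' d hd hd2 t1 t2 t3 t4 hX h1 h3 hn
    rcases hX.eq_or_lt with hX0 | hX0
    · subst hX0
      have e : UP P x μ vR vL vC f 0 d (d + T') = 0 := by
        unfold UP UX UT UF Qd
        rw [show ∀ v : ℝ → Fin (n + 1) → ℝ, ∀ t : ℝ,
          ker P.cur.nodes v (fun _ _ => 0) 0 t = 0 from fun v t => Pos.ker_at_zero v t]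
        simp only [show ∀ v : ℝ → Fin (n + 1) → ℝ, ∀ t : ℝ,
          ker P.cur.nodes v (fun _ _ => 0) 0 t = 0 from fun v t => Pos.ker_at_zero v t]
        ring
      rw [e]
      have hT1 : 1 ≤ T' := by nlinarith
      have := h.high0 T (by linarith) t2
      linarith
    · rcases hn with hn | hn
      · obtain ⟨j, q, y, rfl, hq, hdm, rfl⟩ := node_cases (by linarith) hX0 h3 hn
        have k := h.high j q y T hq hdm t1 t2 t3 t4
        unfold HighP at k
        exact low_of H hq (V.lR.at_node hq hdm) (V.lL.at_node hq hdm)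
          (by rw [V.lC.at_node hq hdm]) hd hd2 fac_ok (by linarith)
      · exact absurd hn hX0.ne'
  · intro X T T' d hd hd2 t1 t2 t3 t4 hX h1 h3 hn
    rcases hn with hn | hn
    · obtain ⟨j, q, y, rfl, hq, hdm, rfl⟩ := node_cases (by linarith) (by linarith) h3 hn
      have k := h.far j q y T hq hdm t1 t2 t3 t4 hX
      unfold FarP at k
      exact low_of H hq (V.lR.at_node hq hdm) (V.lL.at_node hq hdm)
        (by rw [V.lC.at_node hq hdm]) hd hd2 fac_ok (by linarith)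
    · subst hn
      obtain ⟨q, y, rfl, hq⟩ := height_cases (by linarith : 0 ≤ T') (by nlinarith [sq_nonneg X])
      rw [qqn_eq] at h1 h3
      have k := h.far0 q y T hq t1 t2 t3 t4 h3
      unfold FarP at k
      exact low_of H hq (V.lR.third q _ y hq h1 h3) (V.lL.third q _ y hq h1 h3)
        (by rw [V.lC.third q _ y hq h1 h3]) hd hd2 fac_ok (by linarith)
  · intro X T T' d hd hd2 t1 t2 t3 t4 hX hX2 h1 h3 hn
    rcases hn with hn | hn
    · obtain ⟨j, q, y, rfl, hq, hdm, rfl⟩ := node_cases (by linarith) hX h3 hn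
      exact near_of H hq (V.lR.at_node hq hdm) (V.lL.at_node hq hdm)
        (by rw [V.lC.at_node hq hdm]) hd hd2 (h.near j q y T hq hdm t1 t2 t3 t4 hX hX2)
    · subst hn
      obtain ⟨q, y, rfl, hq⟩ := height_cases (by linarith : 0 ≤ T') (by nlinarith)
      rw [qqn_eq] at h1 h3
      exact near_of H hq (V.lR.third q _ y hq h1 h3) (V.lL.third q _ y hq h1 h3)
        (by rw [V.lC.third q _ y hq h1 h3]) hd hd2 (h.near0 q y T hq t1 t2 t3 t4 h1)

end

end Pool.Agent.Strip051.PB
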