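import Pool.Agent.Strip051.PB.FlGerm
import Pool.Agent.Strip051.LC.Exact.FloorG

/-! # From the rows at the floor to the lists at the floor, window of variable size

As `PB/FlWin`: `K` bounds the heights in the inequalities of the steep, wide and narrow pairs, `e`
is the height in the inequality of the flat pairs, both in units of `h0`. -/

namespace Pool.Agent.Strip051.PB

open Pool.Agent.StripNear Pool.Agent.StripSquare Pool.Agent.Strip051.Sweep
open Pool.Agent.Strip051.LC Pool.Agent.Strip051.LC.Exact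
open Pool.Agent.Strip051.LC.FG (Geo WinU)
open Pool.Agent.Strip051.LC.Floor (G En Qn fS kE_low kE_high S0_norm G_nonneg G_sq)
open Pool.Agent.Strip051.LC.Line (mn D tau Qd)

/-- The number `a / 1000`. -/
noncomputable abbrev kc (a : ℕ) : ℝ := (a : ℝ) / 1000

/-- The inequality for almost horizontal pairs above the floor. -/
def FlatG (e th x μ : ℝ) (q : ℕ) (y X A L C : ℝ) : Prop :=
  0 ≤ grL x μ q y X A L C ∧ 0 ≤ usX th x μ q y X A L C + e * grL x μ q y X A L C

/-- The inequality for steep pairs. -/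
def HighG (K th x μ : ℝ) (q : ℕ) (y X A L C a D : ℝ) : Prop :=
  0 ≤ usX th x μ q y X A L C + K * min (grL x μ q y X A L C) 0 - a * (X - D / 2)

/-- The inequality for wide pairs. -/
def FarG (K th x μ : ℝ) (q : ℕ) (y X A L C b D : ℝ) : Prop :=
  1 / 2 ≤ usX th x μ q y X A L C + K * min (grL x μ q y X A L C) 0 - b * (X - D)

/-- The inequality for narrow pairs. -/
def NearG (K th x μ : ℝ) (q : ℕ) (y X A L C b : ℝ) : Prop :=
  usX th x μ q y X A L C + 1 / 2 + K * max (grU x μ q y X A L C) 0 ≤ b * X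

/-- The inequality for narrow pairs is homogeneous. -/
theorem NearG.smul {K th x μ y : ℝ} {q : ℕ} {a X A L C b : ℝ} (ha : 0 ≤ a)
    (h : NearG K th x μ q y X A L C b) : NearG K th x μ q y (a * X) (a * A) (a * L) (a * C) b := by
  unfold NearG at *
  rw [usX_hom, grU_hom ha]
  have e : max (a * grU x μ q y X A L C) 0 = a * max (grU x μ q y X A L C) 0 := by
    rw [mul_max_of_nonneg _ _ ha, mul_zero]
  rw [e]
  have := mul_le_mul_of_nonneg_left h ha
  linarith

section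

variable {n : ℕ} {P : Pos n} {x μ th : ℝ} {q : ℕ} {y : ℝ} {f : ℝ → ℝ}
  {vR vL vC : ℝ → Fin (n + 1) → ℝ} {R L C : Fin (n + 1) → ℕ → ℝ → ℝ → ℝ}
  {TR TL TC : ℕ → ℝ → ℝ → ℝ → ℝ} {τ η K e D0 UM lo hi : ℝ} {al be : ℝ → ℝ}

theorem flat_ofG (H : VPar P x μ th f vC) (h : InQ q y) {X A B D : ℝ}
    (hA : ker P.cur.nodes vR (fun _ _ => 0) X (h0 * y) = A)
    (hB : ker P.cur.nodes vL (fun _ _ => 0) X (h0 * y) = B)
    (hD : h0 * ker P.cur.nodes vC (fun _ _ => 0) X (h0 * y) = D)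
    {d : ℝ} (hd0 : 0 ≤ d) (hd : e * h0 ≤ d) (hk : FlatG e th x μ q y X A B D) :
    1 / 2 ≤ UP P x μ vR vL vC f X d (d + h0 * y) := by
  have hp := h0_pos
  obtain ⟨g1, g2⟩ := hk
  have k1 := ux_val H h hA hB hD
  have k2 := UX_up H.x0 H.x1 H.E0 H.μ0 H.den h hA hB hD (d := d) hd0
  have k3 : e * grL x μ q y X A B D ≤ grL x μ q y X A B D / h0 * d := by
    have a1 : e ≤ d / h0 := by
      rw [le_div_iff₀ hp]
      exact hd
    have : grL x μ q y X A B D / h0 * d = d / h0 * grL x μ q y X A B D := by ring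
    rw [this]
    exact mul_le_mul_of_nonneg_right a1 g1
  unfold UP at *
  linarith

/-- An upper bound for all heights up to `K h0`. -/
theorem near_ofG (H : VPar P x μ th f vC) (h : InQ q y) {X A B D b : ℝ}
    (hA : ker P.cur.nodes vR (fun _ _ => 0) X (h0 * y) = A)
    (hB : ker P.cur.nodes vL (fun _ _ => 0) X (h0 * y) = B)
    (hD : h0 * ker P.cur.nodes vC (fun _ _ => 0) X (h0 * y) = D)
    {d r : ℝ} (hd : 0 ≤ d) (hr : d ≤ r) (hK : r ≤ K * h0) (hk : NearG K th x μ q y X A B D b) :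
    UP P x μ vR vL vC f X d (d + h0 * y) ≤ b * X := by
  have hp := h0_pos
  have k1 := ux_val H h hA hB hD
  have k2 := UX_dn H.x0 H.x1 H.E0 H.μ0 H.den h hA hB hD hd
  have k3 : grU x μ q y X A B D / h0 * d ≤ K * max (grU x μ q y X A B D) 0 := by
    have m0 : 0 ≤ max (grU x μ q y X A B D) 0 := le_max_right _ _
    have m1 : grU x μ q y X A B D ≤ max (grU x μ q y X A B D) 0 := le_max_left _ _
    have a1 : d / h0 ≤ K := by
      rw [div_le_iff₀ hp]
      linarith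
    have a0 : 0 ≤ d / h0 := by positivity
    have : grU x μ q y X A B D / h0 * d = d / h0 * grU x μ q y X A B D := by ring
    rw [this]
    nlinarith
  unfold NearG at hk
  unfold UP at *
  linarith

variable (P x μ th vR vL vC f R L C TR TL TC) in
/-- The inequalities with the window in normalised coordinates. -/
structure WinNG (τ K e UM lo hi D0 : ℝ) (al be : ℝ → ℝ) : Prop where
  al0 : ∀ T, 0 ≤ al T
  be0 : ∀ T, 0 ≤ be T
  node : ∀ (j : Fin (n + 1)) (q : ℕ) (y : ℝ), InQ q y → P.dm j (h0 * y) → τ ≤ h0 * y →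
    h0 * y ≤ 1 → (y < 1 ∨ (j ≠ 0 ∧ 1 - G y ≤ crv P j q y)) →
    GV P x μ vR vL vC f q y (crv P j q y)
  steep : ∀ y : ℝ, 1 ≤ y → h0 * y ≤ 1 → GV P x μ vR vL vC f 2 y (1 - G y)
  flat : ∀ (j : Fin (n + 1)) (y : ℝ), InQ 0 y → P.dm j (h0 * y) → h0 * y ≤ τ →
    FlatG e th x μ 0 y (crv P j 0 y) (R j 0 y x) (L j 0 y x) (h0 * C j 0 y x)
  left : ∀ (j : Fin (n + 1)) (y : ℝ), InQ 0 y → P.dm j (h0 * y) → h0 * y ≤ τ →
    crv P j 0 y ≤ D0 → GV P x μ vR vL vC f 0 y (crv P j 0 y)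
  left0 : ∀ y : ℝ, 0 ≤ y → h0 * y ≤ τ → GV P x μ vR vL vC f 0 y D0
  high : ∀ (j : Fin (n + 1)) (q : ℕ) (y T : ℝ), InQ q y → P.dm j (h0 * y) → 4 / 5 ≤ T →
    T ≤ 17 / 10 → T ≤ h0 * y → h0 * y ≤ T + τ →
    HighG K th x μ q y (crv P j q y) (R j q y x) (L j q y x) (h0 * C j q y x) (al T) D0
  high0 : ∀ T : ℝ, 97 / 100 ≤ T → T ≤ 17 / 10 → 1 ≤ al T * D0
  far : ∀ (j : Fin (n + 1)) (q : ℕ) (y T : ℝ), InQ q y → P.dm j (h0 * y) → lo ≤ T →
    T ≤ hi → T ≤ h0 * y → h0 * y ≤ T + τ → D0 ≤ crv P j q y →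
    FarG K th x μ q y (crv P j q y) (R j q y x) (L j q y x) (h0 * C j q y x) (be T) D0
  far0 : ∀ (q : ℕ) (y T : ℝ), InQ q y → lo ≤ T → T ≤ hi → T ≤ h0 * y →
    h0 * y ≤ T + τ → qqn D0 y ≤ 3 →
    FarG K th x μ q y D0 (TR q D0 y x) (TL q D0 y x) (h0 * TC q D0 y x) (be T) D0
  near : ∀ (j : Fin (n + 1)) (q : ℕ) (y T : ℝ), InQ q y → P.dm j (h0 * y) → lo ≤ T →
    T ≤ hi → T ≤ h0 * y → h0 * y ≤ T + τ → 0 < crv P j q y → crv P j q y ≤ UM →
    NearG K th x μ q y (crv P j q y) (R j q y x) (L j q y x) (h0 * C j q y x) (be T)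
  near0 : ∀ (q : ℕ) (y T : ℝ), InQ q y → lo ≤ T → T ≤ hi → T ≤ h0 * y →
    h0 * y ≤ T + τ → 1 ≤ qqn UM y →
    NearG K th x μ q y UM (TR q UM y x) (TL q UM y x) (h0 * TC q UM y x) (be T)

theorem WinNG.winU (H : VPar P x μ th f vC) (V : Vx P x vR vL vC R L C TR TL TC)
    (h : WinNG P x μ th f vR vL vC R L C TR TL TC τ K e UM lo hi D0 al be)
    (g : Geo τ η D0 UM lo hi) (hK : η + τ ≤ K * h0) (he : e * h0 ≤ η) :
    WinU (UP P x μ vR vL vC f) (NodeAt P.cur.nodes) τ η D0 UM lo hi al be := by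
  have hp := h0_pos
  have hτ0 := g.t0
  have hτ := g.t1
  have hη := g.e0
  have hD1 := g.d1
  have hD2 := g.d2
  have hu0 := g.u0
  refine ⟨h.al0, h.be0, ?_, ?_, ?_, ?_, ?_, ?_, ?_⟩
  · intro X T d hd hT3 hT1 hX h1 h3 hn hr
    obtain ⟨j, q, y, rfl, hq, hdm, rfl⟩ := node_cases (by linarith) hX h3 hn
    exact node_wall H hq hT1 hr (h.node j q y hq hdm hT3 hT1) h.steep hd
  · intro T d hd hT hT1
    have h3 : T ^ 2 ≤ 3 := by nlinarith
    obtain ⟨q, y, rfl, hq⟩ := height_cases (hp.le.trans hT) h3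
    have hy : 1 ≤ y := by nlinarith
    rw [sqrt_G]
    exact wall_of H (inQ_two hy hT1) hd (h.steep y hy hT1)
  · intro X T d hd hT hT3 hX h1 h3 hn
    obtain ⟨j, q, y, rfl, hq, hdm, rfl⟩ := node_cases hT hX h3 hn
    obtain rfl := lt_half_of hq (hT3.trans hτ)
    exact flat_ofG H hq (V.lR.at_node hq hdm) (V.lL.at_node hq hdm)
      (by rw [V.lC.at_node hq hdm]) (hη.trans hd) (he.trans hd) (h.flat j y hq hdm hT3)
  · intro X T d hd _ hT hT3 hX hXD h1 h3 hn
    rcases hn with hn | hn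
    · obtain ⟨j, q, y, rfl, hq, hdm, rfl⟩ := node_cases hT hX h3 hn
      obtain rfl := lt_half_of hq (hT3.trans hτ)
      exact wall_of H hq hd (h.left j y hq hdm hT3 hXD)
    · subst hn
      obtain ⟨q, y, rfl, hq⟩ := height_cases hT (by nlinarith [sq_nonneg X])
      obtain rfl := lt_half_of hq (hT3.trans hτ)
      exact wall_of H hq hd (h.left0 y hq.1 hT3)
  · intro X T T' d hd hd2 t1 t2 t3 t4 hX h1 h3 hn
    rcases hX.eq_or_lt with hX0 | hX0
    · subst hX0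
      have e : UP P x μ vR vL vC f 0 d (d + T') = 0 := by
        unfold UP UX UT UF Qd
        rw [show ∀ v : ℝ → Fin (n + 1) → ℝ, ∀ t : ℝ,
          ker P.cur.nodes v (fun _ _ => 0) 0 t = 0 from fun v t => Pos.ker_at_zero v t]
        simp only [show ∀ v : ℝ → Fin (n + 1) → ℝ, ∀ t : ℝ,
          ker P.cur.nodes v (fun _ _ => 0) 0 t = 0 from fun v t => Pos.ker_at_zero v t]
        ring
      rw [e]
      have hT1 : 1 ≤ T' := by nlinarith
      have := h.high0 T (by linarith) t2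
      linarith
    · rcases hn with hn | hn
      · obtain ⟨j, q, y, rfl, hq, hdm, rfl⟩ := node_cases (by linarith) hX0 h3 hn
        have k := h.high j q y T hq hdm t1 t2 t3 t4
        unfold HighG at k
        exact low_of H hq (V.lR.at_node hq hdm) (V.lL.at_node hq hdm)
          (by rw [V.lC.at_node hq hdm]) hd hd2 hK (by linarith)
      · exact absurd hn hX0.ne'
  · intro X T T' d hd hd2 t1 t2 t3 t4 hT0 hX h1 h3 hn
    rcases hn with hn | hn
    · obtain ⟨j, q, y, rfl, hq, hdm, rfl⟩ := node_cases hT0 (by linarith) h3 hn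
      have k := h.far j q y T hq hdm t1 t2 t3 t4 hX
      unfold FarG at k
      exact low_of H hq (V.lR.at_node hq hdm) (V.lL.at_node hq hdm)
        (by rw [V.lC.at_node hq hdm]) hd hd2 hK (by linarith)
    · subst hn
      obtain ⟨q, y, rfl, hq⟩ := height_cases hT0 (by nlinarith [sq_nonneg X])
      rw [qqn_eq] at h1 h3
      have k := h.far0 q y T hq t1 t2 t3 t4 h3
      unfold FarG at k
      exact low_of H hq (V.lR.third q _ y hq h1 h3) (V.lL.third q _ y hq h1 h3)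
        (by rw [V.lC.third q _ y hq h1 h3]) hd hd2 hK (by linarith)
  · intro X T T' d hd hd2 t1 t2 t3 t4 hT0 hX hX2 h1 h3 hn
    rcases hn with hn | hn
    · obtain ⟨j, q, y, rfl, hq, hdm, rfl⟩ := node_cases hT0 hX h3 hn
      exact near_ofG H hq (V.lR.at_node hq hdm) (V.lL.at_node hq hdm)
        (by rw [V.lC.at_node hq hdm]) hd hd2 hK (h.near j q y T hq hdm t1 t2 t3 t4 hX hX2)
    · subst hn
      obtain ⟨q, y, rfl, hq⟩ := height_cases hT0 (by nlinarith [sq_nonneg X])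
      rw [qqn_eq] at h1 h3
      exact near_ofG H hq (V.lR.third q _ y hq h1 h3) (V.lL.third q _ y hq h1 h3)
        (by rw [V.lC.third q _ y hq h1 h3]) hd hd2 hK (h.near0 q y T hq t1 t2 t3 t4 h1)

end

end Pool.Agent.Strip051.PB
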