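import Mathlib

/-! # Certificate trees for box checks

The split tree is a literal, the kernel evaluates only its leaves. Coordinates are given by cell
indices (heap numbering: the root is `1`, the halves of the cell `z` are `2 z` and `2 z + 1`), so a
function of one coordinate has the same argument in all boxes over the same cell. The hint `h` of a
leaf is handed to the test. -/

namespace Pool.Agent.Strip051.PB

/-- Binary split tree; `l h` = leaf with hint, `a`, `b`, `c`, `d` = split of the first, second,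
third, fourth coordinate. -/
inductive T where
  | l (h : Nat)
  | a (x y : T)
  | b (x y : T)
  | c (x y : T)
  | d (x y : T)

/-- conjunction which the kernel reduces in one step -/
noncomputable def band (p q : Bool) : Bool := Bool.rec false q p

theorem band_true {p q : Bool} (h : band p q = true) : p = true ∧ q = true := by
  cases p
  · exact absurd h (by unfold band; simp)
  · exact ⟨rfl, h⟩

theorem band_intro {p q : Bool} (hp : p = true) (hq : q = true) : band p q = true := by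
  subst hp
  exact hq

/-- `f n`, where the kernel evaluates `n` to a literal first -/
noncomputable def frc {α : Type} (n : Nat) (f : Nat → α) : α :=
  Nat.rec (f 0) (fun k _ => f (Nat.succ k)) n

theorem frc_eq {α : Type} (n : Nat) (f : Nat → α) : frc n f = f n := by
  cases n <;> rfl

/-! ### Cells -/

/-- The cell with index `z` of the interval `[a, a + w]`. -/
def InC (a w : ℝ) (z : Nat) (x : ℝ) : Prop :=
  a + w * ((z : ℝ) / 2 ^ Nat.log2 z - 1) ≤ x ∧ x ≤ a + w * (((z : ℝ) + 1) / 2 ^ Nat.log2 z - 1)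

theorem inC_root {a w x : ℝ} (h1 : a ≤ x) (h2 : x ≤ a + w) : InC a w 1 x := by
  have h : Nat.log2 1 = 0 := by decide
  unfold InC
  rw [h]
  push_cast
  constructor <;> norm_num <;> linarith

theorem log2_two_mul {z : Nat} (hz : 1 ≤ z) : Nat.log2 (2 * z) = Nat.log2 z + 1 :=
  Nat.log2_two_mul (by omega)

theorem log2_two_mul_add {z : Nat} (hz : 1 ≤ z) : Nat.log2 (2 * z + 1) = Nat.log2 z + 1 := by
  have h1 : Nat.log2 z = Nat.log2 z := rfl
  have hz' : z ≠ 0 := by omega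
  have h2 : 2 ^ Nat.log2 z ≤ z := Nat.log2_self_le hz'
  have h3 : z < 2 ^ (Nat.log2 z + 1) := Nat.lt_log2_self
  have h4 : Nat.log2 (2 * z + 1) ≠ 0 ∨ True := Or.inr trivial
  apply (Nat.log2_eq_iff (by omega)).2
  constructor
  · rw [pow_succ]; omega
  · rw [pow_succ]; omega

theorem inC_split {a w : ℝ} {z : Nat} {x : ℝ} (hz : 1 ≤ z) (h : InC a w z x) :
    InC a w (Nat.mul 2 z) x ∨ InC a w (Nat.add (Nat.mul 2 z) 1) x := by
  have e1 : Nat.log2 (Nat.mul 2 z) = Nat.log2 z + 1 := log2_two_mul hz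
  have e2 : Nat.log2 (Nat.add (Nat.mul 2 z) 1) = Nat.log2 z + 1 := log2_two_mul_add hz
  have c1 : ((Nat.mul 2 z : ℕ) : ℝ) = 2 * (z : ℝ) := by
    have : Nat.mul 2 z = 2 * z := rfl
    rw [this]; push_cast; ring
  have c2 : ((Nat.add (Nat.mul 2 z) 1 : ℕ) : ℝ) = 2 * (z : ℝ) + 1 := by
    have : Nat.add (Nat.mul 2 z) 1 = 2 * z + 1 := rfl
    rw [this]; push_cast; ring
  unfold InC at h ⊢
  rw [e1, e2, c1, c2]
  have hp : (0 : ℝ) < 2 ^ Nat.log2 z := by positivity
  have q0 : 2 * (z : ℝ) / 2 ^ (Nat.log2 z + 1) = (z : ℝ) / 2 ^ Nat.log2 z := by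
    rw [pow_succ]; field_simp
  have q2 : (2 * (z : ℝ) + 1 + 1) / 2 ^ (Nat.log2 z + 1) = ((z : ℝ) + 1) / 2 ^ Nat.log2 z := by
    rw [pow_succ]; field_simp; ring
  rw [q0, q2]
  rcases le_total x (a + w * ((2 * (z : ℝ) + 1) / 2 ^ (Nat.log2 z + 1) - 1)) with h1 | h1
  · exact Or.inl ⟨h.1, h1⟩
  · exact Or.inr ⟨h1, h.2⟩

/-- centre of a cell, in units `1 / S`, without the negative part -/
def ccen (P W z : Nat) : Nat :=
  Nat.add P (Nat.shiftRight (Nat.mul W (Nat.sub (Nat.add (Nat.mul 2 z) 1)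
    (Nat.shiftLeft 2 (Nat.log2 z)))) (Nat.add (Nat.log2 z) 1))

/-- half width of a cell, rounded up -/
def cwid (W z : Nat) : Nat := Nat.add (Nat.shiftRight W (Nat.add (Nat.log2 z) 1)) 2

theorem cell_enc {S P n W z : ℕ} (hS : 0 < S) (hz : 1 ≤ z) {x : ℝ}
    (h : InC (((P : ℝ) - n) / S) ((W : ℝ) / S) z x) :
    |(S : ℝ) * x - ((ccen P W z : ℕ) - (n : ℝ))| ≤ (cwid W z : ℕ) := by
  have hSr : (0 : ℝ) < S := by exact_mod_cast hS
  have hz' : z ≠ 0 := by omega
  set l := Nat.log2 z with hl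
  have h2 : 2 ^ l ≤ z := Nat.log2_self_le hz'
  have hp : (0 : ℝ) < 2 ^ l := by positivity
  have hpn : 0 < 2 ^ (l + 1) := by positivity
  have s1 : Nat.shiftLeft 2 l = 2 ^ (l + 1) := by
    have : Nat.shiftLeft 2 l = 2 * 2 ^ l := Nat.shiftLeft_eq 2 l
    rw [this, pow_succ]; ring
  have ec : ccen P W z = P + W * (2 * z + 1 - 2 ^ (l + 1)) / 2 ^ (l + 1) := by
    unfold ccen
    rw [← hl, s1]
    have : ∀ a b : ℕ, Nat.shiftRight a b = a / 2 ^ b := fun a b => Nat.shiftRight_eq_div_pow a b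
    rw [this]
    rfl
  have ew : cwid W z = W / 2 ^ (l + 1) + 2 := by
    unfold cwid
    rw [← hl]
    have : ∀ a b : ℕ, Nat.shiftRight a b = a / 2 ^ b := fun a b => Nat.shiftRight_eq_div_pow a b
    rw [this]
  have hsub : ((2 * z + 1 - 2 ^ (l + 1) : ℕ) : ℝ) = 2 * (z : ℝ) + 1 - 2 ^ (l + 1) := by
    have hle : 2 ^ (l + 1) ≤ 2 * z + 1 := by
      rw [pow_succ]
      omega
    rw [Nat.cast_sub hle]
    push_cast
    ring
  -- the quotients
  have d1 : ((W * (2 * z + 1 - 2 ^ (l + 1)) / 2 ^ (l + 1) : ℕ) : ℝ) ≤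
      (W : ℝ) * (2 * (z : ℝ) + 1 - 2 ^ (l + 1)) / 2 ^ (l + 1) := by
    have := @Nat.cast_div_le ℝ _ _ _ (W * (2 * z + 1 - 2 ^ (l + 1))) (2 ^ (l + 1))
    rw [Nat.cast_mul, hsub] at this
    push_cast at this
    exact this
  have d2 : (W : ℝ) * (2 * (z : ℝ) + 1 - 2 ^ (l + 1)) / 2 ^ (l + 1) <
      ((W * (2 * z + 1 - 2 ^ (l + 1)) / 2 ^ (l + 1) : ℕ) : ℝ) + 1 := by
    have h3 := Nat.lt_div_mul_add (a := W * (2 * z + 1 - 2 ^ (l + 1))) hpn
    rw [div_lt_iff₀ (by positivity)]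
    have h4 : ((W * (2 * z + 1 - 2 ^ (l + 1)) : ℕ) : ℝ) <
        ((W * (2 * z + 1 - 2 ^ (l + 1)) / 2 ^ (l + 1) * 2 ^ (l + 1) + 2 ^ (l + 1) : ℕ) : ℝ) := by
      exact_mod_cast h3
    rw [Nat.cast_mul, hsub] at h4
    push_cast at h4
    push_cast
    linarith
  have d3 : (W : ℝ) / 2 ^ (l + 1) < ((W / 2 ^ (l + 1) : ℕ) : ℝ) + 1 := by
    have h3 := Nat.lt_div_mul_add (a := W) hpn
    rw [div_lt_iff₀ (by positivity)]
    have h4 : ((W : ℕ) : ℝ) < ((W / 2 ^ (l + 1) * 2 ^ (l + 1) + 2 ^ (l + 1) : ℕ) : ℝ) := by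
      exact_mod_cast h3
    push_cast at h4
    push_cast
    linarith
  rw [ec, ew]
  obtain ⟨g1, g2⟩ := h
  have k1 : (P : ℝ) - n + W * ((z : ℝ) / 2 ^ l - 1) ≤ S * x := by
    have := mul_le_mul_of_nonneg_left g1 hSr.le
    have e : (S : ℝ) * (((P : ℝ) - n) / S + W / S * ((z : ℝ) / 2 ^ l - 1)) =
        (P : ℝ) - n + W * ((z : ℝ) / 2 ^ l - 1) := by
      field_simp
    rw [e] at this
    exact this
  have k2 : S * x ≤ (P : ℝ) - n + W * (((z : ℝ) + 1) / 2 ^ l - 1) := by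
    have := mul_le_mul_of_nonneg_left g2 hSr.le
    have e : (S : ℝ) * (((P : ℝ) - n) / S + W / S * (((z : ℝ) + 1) / 2 ^ l - 1)) =
        (P : ℝ) - n + W * (((z : ℝ) + 1) / 2 ^ l - 1) := by
      field_simp
    rw [e] at this
    exact this
  have m1 : (W : ℝ) * ((z : ℝ) / 2 ^ l - 1) =
      (W : ℝ) * (2 * (z : ℝ) + 1 - 2 ^ (l + 1)) / 2 ^ (l + 1) - (W : ℝ) / 2 ^ (l + 1) := by
    rw [pow_succ]; field_simp; ring
  have m2 : (W : ℝ) * (((z : ℝ) + 1) / 2 ^ l - 1) =
      (W : ℝ) * (2 * (z : ℝ) + 1 - 2 ^ (l + 1)) / 2 ^ (l + 1) + (W : ℝ) / 2 ^ (l + 1) := by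
    rw [pow_succ]; field_simp; ring
  rw [m1] at k1
  rw [m2] at k2
  push_cast at *
  rw [abs_le]
  constructor <;> linarith

/-! ### Two coordinates -/

/-- evaluation of a tree, two coordinates -/
noncomputable def chk2 (f : Nat → Nat → Nat → Bool) (t : T) : Nat → Nat → Bool :=
  T.rec (motive := fun _ => Nat → Nat → Bool) (fun h x y => f h x y)
    (fun _ _ p q x y => band (p (Nat.mul 2 x) y) (q (Nat.add (Nat.mul 2 x) 1) y))
    (fun _ _ p q x y => band (p x (Nat.mul 2 y)) (q x (Nat.add (Nat.mul 2 y) 1)))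
    (fun _ _ _ _ _ _ => false) (fun _ _ _ _ _ _ => false) t

theorem chk2_a {f : Nat → Nat → Nat → Bool} {s t : T} {x y : Nat}
    (hs : chk2 f s (Nat.mul 2 x) y = true) (ht : chk2 f t (Nat.add (Nat.mul 2 x) 1) y = true) :
    chk2 f (T.a s t) x y = true := band_intro hs ht

theorem chk2_b {f : Nat → Nat → Nat → Bool} {s t : T} {x y : Nat}
    (hs : chk2 f s x (Nat.mul 2 y) = true) (ht : chk2 f t x (Nat.add (Nat.mul 2 y) 1) = true) :
    chk2 f (T.b s t) x y = true := band_intro hs ht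

theorem chk2_sound {f : Nat → Nat → Nat → Bool} {Q : ℝ → ℝ → Prop} {a1 w1 a2 w2 : ℝ}
    (hf : ∀ h x y, 1 ≤ x → 1 ≤ y → f h x y = true →
      ∀ u v, InC a1 w1 x u → InC a2 w2 y v → Q u v) (t : T) :
    ∀ x y, 1 ≤ x → 1 ≤ y → chk2 f t x y = true →
      ∀ u v, InC a1 w1 x u → InC a2 w2 y v → Q u v := by
  induction t with
  | l h => intro x y hx hy hc u v hu hv; exact hf h x y hx hy hc u v hu hv
  | a s t ihs iht =>
    intro x y hx hy hc u v hu hv
    obtain ⟨h1, h2⟩ := band_true (show band (chk2 f s (Nat.mul 2 x) y)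
      (chk2 f t (Nat.add (Nat.mul 2 x) 1) y) = true from hc)
    have g1 : 1 ≤ Nat.mul 2 x := show 1 ≤ 2 * x by omega
    have g2 : 1 ≤ Nat.add (Nat.mul 2 x) 1 := show 1 ≤ 2 * x + 1 by omega
    rcases inC_split hx hu with h | h
    · exact ihs _ _ g1 hy h1 u v h hv
    · exact iht _ _ g2 hy h2 u v h hv
  | b s t ihs iht =>
    intro x y hx hy hc u v hu hv
    obtain ⟨h1, h2⟩ := band_true (show band (chk2 f s x (Nat.mul 2 y))
      (chk2 f t x (Nat.add (Nat.mul 2 y) 1)) = true from hc)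
    have g1 : 1 ≤ Nat.mul 2 y := show 1 ≤ 2 * y by omega
    have g2 : 1 ≤ Nat.add (Nat.mul 2 y) 1 := show 1 ≤ 2 * y + 1 by omega
    rcases inC_split hy hv with h | h
    · exact ihs _ _ hx g1 h1 u v hu h
    · exact iht _ _ hx g2 h2 u v hu h
  | c s t _ _ => intro x y hx hy hc; exact absurd (show false = true from hc) (by decide)
  | d s t _ _ => intro x y hx hy hc; exact absurd (show false = true from hc) (by decide)

/-! ### Three coordinates -/

/-- evaluation of a tree, three coordinates -/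
noncomputable def chk3 (f : Nat → Nat → Nat → Nat → Bool) (t : T) : Nat → Nat → Nat → Bool :=
  T.rec (motive := fun _ => Nat → Nat → Nat → Bool) (fun h x y z => f h x y z)
    (fun _ _ p q x y z => band (p (Nat.mul 2 x) y z) (q (Nat.add (Nat.mul 2 x) 1) y z))
    (fun _ _ p q x y z => band (p x (Nat.mul 2 y) z) (q x (Nat.add (Nat.mul 2 y) 1) z))
    (fun _ _ p q x y z => band (p x y (Nat.mul 2 z)) (q x y (Nat.add (Nat.mul 2 z) 1)))
    (fun _ _ _ _ _ _ _ => false) t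

theorem chk3_a {f : Nat → Nat → Nat → Nat → Bool} {s t : T} {x y z : Nat}
    (hs : chk3 f s (Nat.mul 2 x) y z = true)
    (ht : chk3 f t (Nat.add (Nat.mul 2 x) 1) y z = true) :
    chk3 f (T.a s t) x y z = true := band_intro hs ht

theorem chk3_b {f : Nat → Nat → Nat → Nat → Bool} {s t : T} {x y z : Nat}
    (hs : chk3 f s x (Nat.mul 2 y) z = true)
    (ht : chk3 f t x (Nat.add (Nat.mul 2 y) 1) z = true) :
    chk3 f (T.b s t) x y z = true := band_intro hs ht

theorem chk3_c {f : Nat → Nat → Nat → Nat → Bool} {s t : T} {x y z : Nat}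
    (hs : chk3 f s x y (Nat.mul 2 z) = true)
    (ht : chk3 f t x y (Nat.add (Nat.mul 2 z) 1) = true) :
    chk3 f (T.c s t) x y z = true := band_intro hs ht

theorem chk3_sound {f : Nat → Nat → Nat → Nat → Bool} {Q : ℝ → ℝ → ℝ → Prop}
    {a1 w1 a2 w2 a3 w3 : ℝ}
    (hf : ∀ h x y z, 1 ≤ x → 1 ≤ y → 1 ≤ z → f h x y z = true →
      ∀ u v w, InC a1 w1 x u → InC a2 w2 y v → InC a3 w3 z w → Q u v w) (t : T) :
    ∀ x y z, 1 ≤ x → 1 ≤ y → 1 ≤ z → chk3 f t x y z = true →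
      ∀ u v w, InC a1 w1 x u → InC a2 w2 y v → InC a3 w3 z w → Q u v w := by
  induction t with
  | l h => intro x y z hx hy hz hc u v w hu hv hw; exact hf h x y z hx hy hz hc u v w hu hv hw
  | a s t ihs iht =>
    intro x y z hx hy hz hc u v w hu hv hw
    obtain ⟨h1, h2⟩ := band_true (show band (chk3 f s (Nat.mul 2 x) y z)
      (chk3 f t (Nat.add (Nat.mul 2 x) 1) y z) = true from hc)
    have g1 : 1 ≤ Nat.mul 2 x := show 1 ≤ 2 * x by omega
    have g2 : 1 ≤ Nat.add (Nat.mul 2 x) 1 := show 1 ≤ 2 * x + 1 by omega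
    rcases inC_split hx hu with h | h
    · exact ihs _ _ _ g1 hy hz h1 u v w h hv hw
    · exact iht _ _ _ g2 hy hz h2 u v w h hv hw
  | b s t ihs iht =>
    intro x y z hx hy hz hc u v w hu hv hw
    obtain ⟨h1, h2⟩ := band_true (show band (chk3 f s x (Nat.mul 2 y) z)
      (chk3 f t x (Nat.add (Nat.mul 2 y) 1) z) = true from hc)
    have g1 : 1 ≤ Nat.mul 2 y := show 1 ≤ 2 * y by omega
    have g2 : 1 ≤ Nat.add (Nat.mul 2 y) 1 := show 1 ≤ 2 * y + 1 by omega
    rcases inC_split hy hv with h | h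
    · exact ihs _ _ _ hx g1 hz h1 u v w hu h hw
    · exact iht _ _ _ hx g2 hz h2 u v w hu h hw
  | c s t ihs iht =>
    intro x y z hx hy hz hc u v w hu hv hw
    obtain ⟨h1, h2⟩ := band_true (show band (chk3 f s x y (Nat.mul 2 z))
      (chk3 f t x y (Nat.add (Nat.mul 2 z) 1)) = true from hc)
    have g1 : 1 ≤ Nat.mul 2 z := show 1 ≤ 2 * z by omega
    have g2 : 1 ≤ Nat.add (Nat.mul 2 z) 1 := show 1 ≤ 2 * z + 1 by omega
    rcases inC_split hz hw with h | h
    · exact ihs _ _ _ hx hy g1 h1 u v w hu hv h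
    · exact iht _ _ _ hx hy g2 h2 u v w hu hv h
  | d s t _ _ => intro x y z hx hy hz hc; exact absurd (show false = true from hc) (by decide)

end Pool.Agent.Strip051.PB
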