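import Pool.Agent.Strip051.PB.PkF
import Pool.Agent.Strip051.PB.Tree

/-! # Functions with enclosures in the packed arithmetic

`Fn1`, `Fn2`, `Fn3` are real functions of one, two, three variables together with a function on
packed forms and the proof that it encloses the real function. -/

namespace Pool.Agent.Strip051.PB

theorem enc_cast {E : Pt} {A : ℕ} {a b : ℝ} (h : Enc E A a) (e : a = b) : Enc E A b := e ▸ h

/-- a natural number -/
def pnc (n : ℕ) : ℕ := pnat n pone

theorem enc_pnc (E : Pt) (n : ℕ) : Enc E (pnc n) (n : ℝ) := by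
  have h := enc_nat n (enc_one E)
  rw [mul_one] at h
  exact h

/-- difference with a natural number -/
theorem enc_subn {E : Pt} {X : ℕ} {v : ℝ} (n : ℕ) (h : Enc E X v) :
    Enc E (padd X (pneg (pnc n))) (v - n) :=
  enc_cast (enc_add h (enc_neg (enc_pnc E n))) (sub_eq_add_neg _ _).symm

/-- difference with a quotient -/
theorem enc_subr {E : Pt} {X : ℕ} {v : ℝ} (a b : ℕ) (h : Enc E X v) :
    Enc E (padd X (pneg (prat a b))) (v - (a : ℝ) / b) :=
  enc_cast (enc_add h (enc_neg (enc_rat E a b))) (sub_eq_add_neg _ _).symm

/-- A function of one variable with its enclosure. -/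
structure Fn1 where
  t : ℕ → ℕ
  v : ℝ → ℝ
  enc : ∀ {E : Pt} {A : ℕ} {a : ℝ}, Enc E A a → Enc E (t A) (v a)

/-- A function of two variables with its enclosure. -/
structure Fn2 where
  t : ℕ → ℕ → ℕ
  v : ℝ → ℝ → ℝ
  enc : ∀ {E : Pt} {A B : ℕ} {a b : ℝ}, Enc E A a → Enc E B b → Enc E (t A B) (v a b)

/-- A function of three variables with its enclosure. -/
structure Fn3 where
  t : ℕ → ℕ → ℕ → ℕ
  v : ℝ → ℝ → ℝ → ℝ
  enc : ∀ {E : Pt} {A B C : ℕ} {a b c : ℝ}, Enc E A a → Enc E B b → Enc E C c →
    Enc E (t A B C) (v a b c)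

/-- A node curve in a quarter: height, abscissa, kernel value and level value as functions of a
coordinate on the curve (the last two also of `x`). -/
structure Node where
  Y : Fn1
  X : Fn1
  K : Fn2
  L : Fn2

/-- The third side in a quarter: kernel value and level value as functions of the abscissa, the
height and `x`. -/
structure Piece where
  K : Fn3
  L : Fn3

end Pool.Agent.Strip051.PB
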