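import Pool.Agent.Strip051.PB.FxWin
import Pool.Agent.Strip051.PB.FlRow
import Pool.Agent.Strip051.PB.BridgeX
import Pool.Agent.Strip051.PB.DgFn

/-! # Certificates for lists of functions

In every cell of a subdivision one of the functions of a list is positive. -/

namespace Pool.Agent.Strip051.PB.Fx

open Pool.Agent.Strip051.PB Pool.Agent.Strip051.PB.Dg Pool.Agent.Strip051.LC

/-- the sign of the function with the number `i` -/
noncomputable def nth5 (L : List Fn5) (i y X A B x : ℕ) : Bool :=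
  List.rec (motive := fun _ => ℕ → Bool) (fun _ => false)
    (fun e _ ih i => Nat.rec (motive := fun _ => Bool) (ppos (e.t y X A B x)) (fun i _ => ih i) i)
    L i

/-- the sign of the function with the number `i` -/
noncomputable def nth3 (L : List Fn3) (i a b c : ℕ) : Bool :=
  List.rec (motive := fun _ => ℕ → Bool) (fun _ => false)
    (fun e _ ih i => Nat.rec (motive := fun _ => Bool) (ppos (e.t a b c)) (fun i _ => ih i) i) L i

/-- the sign of the function with the number `i` -/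
noncomputable def nth2 (L : List Fn2) (i a c : ℕ) : Bool :=
  List.rec (motive := fun _ => ℕ → Bool) (fun _ => false)
    (fun e _ ih i => Nat.rec (motive := fun _ => Bool) (ppos (e.t a c)) (fun i _ => ih i) i) L i

section

variable {E : Pt} {Y X A B C : ℕ} {y X' a b c : ℝ}

theorem nth5_sound (hy : Enc E Y y) (hX : Enc E X X') (hA : Enc E A a) (hB : Enc E B b)
    (hC : Enc E C c) (L : List Fn5) :
    ∀ i, nth5 L i Y X A B C = true → ∃ f ∈ L, 0 < f.v y X' a b c := by
  induction L with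
  | nil => intro i h; exact absurd (show false = true from h) (by decide)
  | cons e L ih =>
    intro i h
    match i, h with
    | 0, h => exact ⟨e, List.mem_cons_self, ppos_sound (e.enc hy hX hA hB hC) h⟩
    | i + 1, h =>
      obtain ⟨e', h1, h2⟩ := ih i h
      exact ⟨e', List.mem_cons_of_mem _ h1, h2⟩

theorem nth3_sound (hA : Enc E A a) (hB : Enc E B b) (hC : Enc E C c) (L : List Fn3) :
    ∀ i, nth3 L i A B C = true → ∃ f ∈ L, 0 < f.v a b c := by
  induction L with
  | nil => intro i h; exact absurd (show false = true from h) (by decide)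
  | cons e L ih =>
    intro i h
    match i, h with
    | 0, h => exact ⟨e, List.mem_cons_self, ppos_sound (e.enc hA hB hC) h⟩
    | i + 1, h =>
      obtain ⟨e', h1, h2⟩ := ih i h
      exact ⟨e', List.mem_cons_of_mem _ h1, h2⟩

theorem nth2_sound (hA : Enc E A a) (hC : Enc E C c) (L : List Fn2) :
    ∀ i, nth2 L i A C = true → ∃ f ∈ L, 0 < f.v a c := by
  induction L with
  | nil => intro i h; exact absurd (show false = true from h) (by decide)
  | cons e L ih =>
    intro i h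
    match i, h with
    | 0, h => exact ⟨e, List.mem_cons_self, ppos_sound (e.enc hA hC) h⟩
    | i + 1, h =>
      obtain ⟨e', h1, h2⟩ := ih i h
      exact ⟨e', List.mem_cons_of_mem _ h1, h2⟩

end

/-- row of a node; the second coordinate is not used -/
noncomputable def rowX (L : List Fn5) (n : NodeX) (h p _q x : ℕ) : Bool :=
  nth5 L h (n.Y.t p) (n.X.t p x) (pnorm (n.K.t p x)) (pnorm (n.L.t p x)) x

/-- row of the point with the height `Y` and the abscissa `X` -/
noncomputable def rowP (L : List Fn5) (Y : Fn1) (X : Fn2) (pc : Piece) (h p _q x : ℕ) : Bool :=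
  nth5 L h (Y.t p) (X.t p x) (pnorm (pc.K.t (X.t p x) (Y.t p) x))
    (pnorm (pc.L.t (X.t p x) (Y.t p) x)) x

/-- Somewhere in the list there is a positive value. -/
def Pos5 (L : List Fn5) (y X A B x : ℝ) : Prop := ∃ f ∈ L, 0 < f.v y X A B x

/-- Somewhere in the list there is a positive value. -/
def Pos3 (L : List Fn3) (a b c : ℝ) : Prop := ∃ f ∈ L, 0 < f.v a b c

/-- Somewhere in the list there is a positive value. -/
def Pos2 (L : List Fn2) (a c : ℝ) : Prop := ∃ f ∈ L, 0 < f.v a c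

/-- The statement of the row of a node. -/
abbrev CertX (P1 W1 P3 W3 : ℕ) (L : List Fn5) (n : NodeX) : Prop :=
  Cert2 P1 W1 P3 W3 fun p x => Pos5 L (n.Y.v p) (n.X.v p x) (n.K.v p x) (n.L.v p x) x

/-- The statement of the row of a third side. -/
abbrev CertP (P1 W1 P3 W3 : ℕ) (L : List Fn5) (Y : Fn1) (X : Fn2) (pc : Piece) : Prop :=
  Cert2 P1 W1 P3 W3 fun p x => Pos5 L (Y.v p) (X.v p x) (pc.K.v (X.v p x) (Y.v p) x)
    (pc.L.v (X.v p x) (Y.v p) x) x

/-- The statement for functions of two variables. -/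
abbrev CertF2 (P1 W1 P3 W3 : ℕ) (L : List Fn2) : Prop := Cert2 P1 W1 P3 W3 fun p x => Pos2 L p x

/-- The statement for functions of three variables. -/
def CertF3 (P1 W1 P2 W2 P3 W3 : ℕ) (L : List Fn3) : Prop :=
  ∀ a b c : ℝ, Rng P1 W1 a → Rng P2 W2 b → Rng P3 W3 c → Pos3 L a b c

section

variable {P1 W1 P2 W2 P3 W3 : ℕ}

theorem certX {L : List Fn5} {n : NodeX}
    (ht : ∃ t, chk3 (onCell P1 W1 0 0 P3 W3 (rowX L n)) t 1 1 1 = true) :
    CertX P1 W1 P3 W3 L n :=
  cert2 (fun h1 h3 hl => nth5_sound (n.Y.enc h1) (n.X.enc h1 h3) (enc_norm (n.K.enc h1 h3))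
    (enc_norm (n.L.enc h1 h3)) h3 L _ hl) ht

theorem certP {L : List Fn5} {Y : Fn1} {X : Fn2} {pc : Piece}
    (ht : ∃ t, chk3 (onCell P1 W1 0 0 P3 W3 (rowP L Y X pc)) t 1 1 1 = true) :
    CertP P1 W1 P3 W3 L Y X pc :=
  cert2 (fun h1 h3 hl => nth5_sound (Y.enc h1) (X.enc h1 h3)
    (enc_norm (pc.K.enc (X.enc h1 h3) (Y.enc h1) h3))
    (enc_norm (pc.L.enc (X.enc h1 h3) (Y.enc h1) h3)) h3 L _ hl) ht

theorem certF2 {L : List Fn2}
    (ht : ∃ t, chk3 (onCell P1 W1 0 0 P3 W3 fun h p _ x => nth2 L h p x) t 1 1 1 = true) :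
    CertF2 P1 W1 P3 W3 L :=
  cert2 (fun h1 h3 hl => nth2_sound h1 h3 L _ hl) ht

theorem certF3 {L : List Fn3}
    (ht : ∃ t, chk3 (onCell P1 W1 P2 W2 P3 W3 fun h p q x => nth3 L h p q x) t 1 1 1 = true) :
    CertF3 P1 W1 P2 W2 P3 W3 L := by
  intro a b c ha hb hc
  exact onCell_sound (Q := fun a b c => Pos3 L a b c)
    (fun h1 h2 h3 hl => nth3_sound h1 h2 h3 L _ hl) ht ha.1 ha.2 hb.1 hb.2 hc.1 hc.2

/-- At a node. -/
theorem CertX.at {L : List Fn5} {nd : NodeX} {n : ℕ} {P : Pos n}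
    {RK RL : Fin (n + 1) → ℕ → ℝ → ℝ → ℝ} {j : Fin (n + 1)} {q : ℕ} {y p x : ℝ}
    (h : CertX P1 W1 P3 W3 L nd) (A : AtX P RK RL nd j q y p x) (hp : Rng P1 W1 p)
    (hx : Rng P3 W3 x) : Pos5 L y (crv P j q y) (RK j q y x) (RL j q y x) x := by
  have k : Pos5 L (nd.Y.v p) (nd.X.v p x) (nd.K.v p x) (nd.L.v p x) x := h p x hp hx
  rwa [A.Y, A.X, A.K, A.L] at k

end

/-- The range of a coordinate. -/
theorem rgM {P W : ℕ} {x a b : ℝ} (h1 : a ≤ x) (h2 : x ≤ b) (h3 : (P : ℝ) ≤ a * 1073741824)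
    (h4 : b * 1073741824 ≤ P + W) : Rng P W x := by
  have e : ((S : ℕ) : ℝ) = 1073741824 := by
    unfold S
    norm_num
  unfold Rng
  rw [e, div_le_iff₀ (by norm_num), le_div_iff₀ (by norm_num)]
  constructor <;> linarith

theorem pos5_one {f : Fn5} {y X A B x : ℝ} (h : Pos5 [f] y X A B x) : 0 < f.v y X A B x := by
  obtain ⟨g, h1, h2⟩ := h
  rw [List.mem_singleton] at h1
  rwa [h1] at h2

theorem pos5_two {f g : Fn5} {y X A B x : ℝ} (h : Pos5 [f, g] y X A B x)
    (hg : g.v y X A B x ≤ 0) : 0 < f.v y X A B x := by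
  obtain ⟨e, h1, h2⟩ := h
  rcases List.mem_cons.1 h1 with h1 | h1
  · rwa [h1] at h2
  · rw [List.mem_singleton] at h1
    rw [h1] at h2
    exact absurd h2 (not_lt.2 hg)

theorem pos5_three {f g k : Fn5} {y X A B x : ℝ} (h : Pos5 [f, g, k] y X A B x)
    (hg : g.v y X A B x ≤ 0) (hk : k.v y X A B x ≤ 0) : 0 < f.v y X A B x := by
  obtain ⟨e, h1, h2⟩ := h
  rcases List.mem_cons.1 h1 with h1 | h1
  · rwa [h1] at h2
  · rcases List.mem_cons.1 h1 with h1 | h1
    · rw [h1] at h2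
      exact absurd h2 (not_lt.2 hg)
    · rw [List.mem_singleton] at h1
      rw [h1] at h2
      exact absurd h2 (not_lt.2 hk)

theorem pos3_one {f : Fn3} {a b c : ℝ} (h : Pos3 [f] a b c) : 0 < f.v a b c := by
  obtain ⟨g, h1, h2⟩ := h
  rw [List.mem_singleton] at h1
  rwa [h1] at h2

theorem pos3_two {f g : Fn3} {a b c : ℝ} (h : Pos3 [f, g] a b c) (hg : g.v a b c ≤ 0) :
    0 < f.v a b c := by
  obtain ⟨e, h1, h2⟩ := h
  rcases List.mem_cons.1 h1 with h1 | h1
  · rwa [h1] at h2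
  · rw [List.mem_singleton] at h1
    rw [h1] at h2
    exact absurd h2 (not_lt.2 hg)

theorem pos2_one {f : Fn2} {a c : ℝ} (h : Pos2 [f] a c) : 0 < f.v a c := by
  obtain ⟨g, h1, h2⟩ := h
  rw [List.mem_singleton] at h1
  rwa [h1] at h2

end Pool.Agent.Strip051.PB.Fx
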