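import Pool.Agent.Strip051.PB.Cert
import Pool.Agent.Strip051.LC.Exact.FamQ2

/-! # Constant positions with curves which are nodes only at some heights

`PV n`: positions and, for every curve, the heights `h0 * y` where it is a node. The tables and the
third sides are the same as for `Pos n`; at a height where a curve is not a node its value is on the
line between two nodes (`PinsV`). -/

namespace Pool.Agent.Strip051.PB

open Pool.Agent.StripNear Pool.Agent.StripSquare Pool.Agent.Strip051.Sweep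
open Pool.Agent.Strip051.LC

/-- Positions and heights (divided by `h0`) where the curves are nodes. -/
structure PV (n : ℕ) where
  /-- the positions -/
  P : Pos n
  /-- the curve is a node at the height -/
  r : Fin (n + 1) → ℝ → Prop
  r0 : ∀ y, r 0 y
  rL : ∀ y, r (Fin.last n) y

namespace PV

variable {n : ℕ} (D : PV n)

/-- The positions of the general form. -/
noncomputable def Q : PosQ n where
  Q _ := D.P
  real j T := D.r j (T / h0)
  real0 _ := D.r0 _
  realL _ := D.rL _

/-- The system of curves. -/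
noncomputable def cur : Cur n (Fin (n + 1)) := D.Q.cur

theorem linkX : LinkX D.cur (crv D.P) := fun _ _ _ h => gam_n _ h

theorem real_iff {j : Fin (n + 1)} {y : ℝ} : D.Q.real j (h0 * y) ↔ D.r j y := by
  show D.r j (h0 * y / h0) ↔ D.r j y
  rw [mul_div_cancel_left₀ y h0_pos.ne']

theorem dm_iff {j : Fin (n + 1)} {y : ℝ} :
    D.cur.dm j (h0 * y) ↔ D.P.cur.dm j (h0 * y) ∧ D.r j y := by
  show D.P.dm j (h0 * y) ∧ D.Q.real j (h0 * y) ↔ D.P.dm j (h0 * y) ∧ D.r j y
  rw [D.real_iff]

end PV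

section

variable {n : ℕ} {D : PV n} {R : Fin (n + 1) → ℕ → ℝ → ℝ → ℝ} {x : ℝ}

/-- The conditions on the table in the quarters; the last one is about the curves which are not
nodes at a height. -/
structure PinsV (D : PV n) (R : Fin (n + 1) → ℕ → ℝ → ℝ → ℝ) (x : ℝ) : Prop where
  pins : Pins D.P R x
  vir : ∀ j q y, InQ q y → y < 2 → ¬D.r j y → ∃ i k : Fin (n + 1), i < j ∧ j < k ∧
    (D.P.ρ k ≤ 1 ∨ 1 ≤ D.P.ρ i) ∧ D.r i y ∧ D.r k y ∧ (∀ l, i < l → l < k → ¬D.r l y) ∧
      R j q y x * (D.P.ρ k - D.P.ρ i) =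
        R i q y x * (D.P.ρ k - D.P.ρ j) + R k q y x * (D.P.ρ j - D.P.ρ i)

/-- The value at a curve which is a node at the height, or coincides with the first node. -/
theorem Pins.ker_real (h : Pins D.P R x) {j : Fin (n + 1)} {T : ℝ} (hT : 0 ≤ T) (h3 : T ^ 2 < 3)
    (hr : D.Q.real j T) : ker D.Q.nodes (tbl R x) (fun _ _ => 0) (D.Q.cv j T) T = tbl R x T j := by
  have ha := h.adm
  by_cases hj : D.Q.dm j T
  · exact PosQ.ker_dm _ hT h3 hj
  · have hj' : ¬D.P.dm j T := fun h' => hj ⟨h', hr⟩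
    by_cases hj0 : j = 0
    · subst hj0
      have h1 : 1 ≤ T := by
        by_contra hh
        exact hj (D.Q.dm_zero hT (not_le.1 hh))
      rw [D.Q.cv_zero, c1_zero h1, PosQ.ker_at_zero, ha.one T h1]
    · have h2 : D.P.ρ j ≤ 1 ∧ (T = 0 ∨ T = h0) := by
        by_contra hh
        apply hj'
        refine ⟨fun k => absurd k hj0, fun _ k => ?_, fun _ => h3, h3.le⟩
        constructor
        · by_contra h4
          exact hh ⟨k, Or.inl (le_antisymm (not_lt.1 h4) hT)⟩
        · intro h4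
          exact hh ⟨k, Or.inr h4⟩
      obtain ⟨h4, h5⟩ := h2
      obtain ⟨s1, s2, s3⟩ := special h5
      have e1 : D.Q.cv j T = D.Q.cv 0 T := by
        rw [D.Q.cv_zero]
        show gam (D.P.ρ j) T = c1 T
        rw [gam_low h4, s2]
        ring
      have e2 : tbl R x T j = tbl R x T 0 := by
        rcases h5 with rfl | rfl
        · exact ha.zero j h4
        · exact ha.mid j h4
      have hT1 : T < 1 := by
        rcases h5 with rfl | rfl
        · exact one_pos
        · exact h0_lt_one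
      rw [e1, e2]
      exact PosQ.ker_dm _ hT h3 (D.Q.dm_zero hT hT1)

/-- The positions on one side of `W` are affine in `ρ`. -/
theorem gam_ratio {a b c T : ℝ} (h : c ≤ 1 ∨ 1 ≤ a) (hab : a ≤ b) (hbc : b ≤ c) :
    (gam b T - gam a T) * (c - a) = (gam c T - gam a T) * (b - a) := by
  rcases h with h | h
  · rw [gam_low (by linarith : a ≤ 1), gam_low (by linarith : b ≤ 1), gam_low h]
    ring
  · rw [gam_high h, gam_high (h.trans hab), gam_high ((h.trans hab).trans hbc)]
    ring

/-- Two curves on one side of `W` coincide only where the first curves do. -/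
theorem gam_eq_cases {a c T : ℝ} (hT : 0 ≤ T) (h3 : T ^ 2 < 3) (h : c ≤ 1 ∨ 1 ≤ a) (hac : a < c)
    (e : gam a T = gam c T) : c ≤ 1 ∧ (T = 0 ∨ T = h0) := by
  by_cases hs : T = 0 ∨ T = h0
  · refine ⟨?_, hs⟩
    rcases h with h | h
    · exact h
    · exfalso
      obtain ⟨s1, s2, s3⟩ := special hs
      rw [gam_high h, gam_high (h.trans hac.le)] at e
      have : Wc T < c3 T := s3
      nlinarith
  · exfalso
    push Not at hs
    have hW := W_between (lt_of_le_of_ne hT (Ne.symm hs.1)) hs.2 h3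
    rcases h with h | h
    · rw [gam_low h, gam_low (by linarith : a ≤ 1)] at e
      have := hW.2.1
      nlinarith
    · rw [gam_high h, gam_high (h.trans hac.le)] at e
      have := hW.2.2
      nlinarith

theorem PinsV.adm (h : PinsV D R x) : D.Q.Adm (tbl R x) := by
  have ha := h.pins.adm
  have hp := h0_pos
  refine ⟨ha.one, ha.zero, ha.mid, fun T j _ h => ha.top T j h, fun T j hT h3 hr => ?_⟩
  have y0 : 0 ≤ T / h0 := div_nonneg hT hp.le
  have y2 : T / h0 < 2 := by
    rw [div_lt_iff₀ hp]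
    have := h0_sq
    nlinarith
  have e : T = h0 * (T / h0) := by field_simp
  set y := T / h0 with hy
  have hq := inQ_qr y0 y2.le
  have hr' : ¬D.r j y := fun h' => hr h'
  obtain ⟨i, k, hij, hjk, hs, ri, rk, hn, hR⟩ := h.vir j _ y hq y2 hr'
  have r1 := D.P.mono hij
  have r2 := D.P.mono hjk
  have hn' : ∀ l, D.Q.dm l T → l ≤ i ∨ k ≤ l := by
    intro l hl
    by_contra hh
    push Not at hh
    exact hn l hh.1 hh.2 hl.2
  have k1 := h.pins.ker_real hT h3 (j := i) ri
  have k2 := h.pins.ker_real hT h3 (j := k) rk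
  have t : ∀ m, tbl R x T m = R m (qr y) y x := fun m => by
    rw [e]
    exact tbl_eq hq
  rw [PosQ.ker_between _ hT h3.le hn' (D.Q.cv_mono hT h3.le hij.le)
    (D.Q.cv_mono hT h3.le hjk.le), k1, k2]
  have g1 : D.Q.cv i T = gam (D.P.ρ i) T := rfl
  have g2 : D.Q.cv j T = gam (D.P.ρ j) T := rfl
  have g3 : D.Q.cv k T = gam (D.P.ρ k) T := rfl
  have hg := gam_ratio (T := T) hs r1.le r2.le
  rw [g1, g2, g3]
  by_cases hc : gam (D.P.ρ i) T = gam (D.P.ρ k) T
  · obtain ⟨c1', c2'⟩ := gam_eq_cases hT h3 hs (r1.trans r2) hc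
    rw [hc, sub_self, div_zero, mul_zero, add_zero]
    have v : ∀ m : Fin (n + 1), D.P.ρ m ≤ 1 → tbl R x T m = tbl R x T 0 := by
      intro m hm
      rcases c2' with c | c
      · rw [c]
        exact ha.zero m hm
      · rw [c]
        exact ha.mid m hm
    rw [v j (by linarith), v i (by linarith)]
  · have h5 : gam (D.P.ρ k) T - gam (D.P.ρ i) T ≠ 0 := fun h' => hc (by linarith)
    have h6 : D.P.ρ k - D.P.ρ i ≠ 0 := by linarith
    have h7 : (gam (D.P.ρ j) T - gam (D.P.ρ i) T) / (gam (D.P.ρ k) T - gam (D.P.ρ i) T) =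
        (D.P.ρ j - D.P.ρ i) / (D.P.ρ k - D.P.ρ i) := by
      rw [div_eq_div_iff h5 h6]
      linarith
    rw [h7, t, t, t]
    field_simp
    linarith

/-! ### The third side -/

theorem chain_kerQ {v : ℝ → Fin (n + 1) → ℝ} (hv : D.Q.Adm v) {T : ℝ} (hT : 0 ≤ T)
    (h3 : T ^ 2 ≤ 3) : List.IsChain (SegF fun X => ker D.Q.nodes v (fun _ _ => 0) X T)
      ((D.P.cv 0 T, v T 0) :: List.ofFn fun i : Fin n => (D.P.cv i.succ T, v T i.succ)) := by
  have e : (D.P.cv 0 T, v T 0) :: (List.ofFn fun i : Fin n => (D.P.cv i.succ T, v T i.succ)) =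
      List.ofFn fun i : Fin (n + 1) => (D.P.cv i T, v T i) := by
    rw [List.ofFn_succ]
  rw [e, List.isChain_ofFn]
  intro i hi
  exact segF_ker (K := D.cur) hv (⟨i, by omega⟩ : Fin n) hT h3

theorem itp1_kerQ {v : ℝ → Fin (n + 1) → ℝ} (hv : D.Q.Adm v) {X T : ℝ} (hT : 0 ≤ T) (hX : 0 ≤ X)
    (h1 : 1 ≤ X ^ 2 + T ^ 2) (h3 : X ^ 2 + T ^ 2 ≤ 3) : itp1 (D.P.cv 0 T) (v T 0)
      (List.ofFn fun i : Fin n => (D.P.cv i.succ T, v T i.succ)) X =
      ker D.Q.nodes v (fun _ _ => 0) X T := by
  have hT3 : T ^ 2 ≤ 3 := by nlinarith [sq_nonneg X]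
  have hn : n ≠ 0 := fun h => by
    subst h
    exact D.P.last_ne rfl
  obtain ⟨g1, g2⟩ := range_ker hT hX h1 h3
  refine itp1_eq (f := fun X => ker D.Q.nodes v (fun _ _ => 0) X T) _ _ _ ?_
    (chain_kerQ hv hT hT3) (by rwa [D.P.cv_zero]) ?_
  · intro h
    have := congrArg List.length h
    rw [List.length_ofFn] at this
    exact hn this
  · intro p hp
    rw [last_ofFn (fun i : Fin (n + 1) => (D.P.cv i T, v T i)) hn hp, D.P.cv_last]
    exact g2

/-- **The real functions describe the kernel.** -/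
theorem PinsV.link (h : PinsV D R x) : Link D.cur x (tbl R x) R (thd D.P R) where
  adm := h.adm
  node j q y hq _ := tbl_eq hq
  third q X y hq h1 h3 := by
    have hp := h0_pos
    have hT : 0 ≤ h0 * y := mul_nonneg hp.le hq.nonneg
    have e := qqn_eq X y
    refine (oddx_ker (K := D.cur) (T := h0 * y) ?_ (by rwa [e]) (by rwa [e])).symm
    intro Z hZ k1 k3
    rw [← show D.P.cv 0 (h0 * y) = crv D.P 0 q y from gam_n _ hq, ← tbl_eq (R := R) (x := x) hq]
    have := itp1_kerQ h.adm hT hZ k1 k3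
    rw [← show D.cur.nodes = D.Q.nodes from rfl] at this
    rw [← this]
    congr 2
    funext i
    rw [← tbl_eq (R := R) (x := x) hq]
    exact congrArg (fun z => (z, _)) (gam_n _ hq).symm

/-- The conditions carry over to multiples. -/
theorem PinsV.smul (h : PinsV D R x) (c : ℝ) : PinsV D (fun j q y x => c * R j q y x) x where
  pins := {
    one := fun q y h1 h2 => by rw [h.pins.one q y h1 h2, mul_zero]
    zero := fun j hj => by rw [h.pins.zero j hj]
    mid := fun j hj => by rw [h.pins.mid j hj]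
    top := fun j => by rw [h.pins.top j, mul_zero]
    bdd := by
      obtain ⟨C, hC⟩ := h.pins.bdd
      refine ⟨|c| * C, fun j q y hq => ?_⟩
      rw [abs_mul]
      exact mul_le_mul_of_nonneg_left (hC j q y hq) (abs_nonneg c) }
  vir j q y hq hy hr := by
    obtain ⟨i, k, a1, a2, a3, a4, a5, a6, a7⟩ := h.vir j q y hq hy hr
    refine ⟨i, k, a1, a2, a3, a4, a5, a6, ?_⟩
    calc c * R j q y x * (D.P.ρ k - D.P.ρ i) = c * (R j q y x * (D.P.ρ k - D.P.ρ i)) := by ring
      _ = _ := by rw [a7]; ring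

end

end Pool.Agent.Strip051.PB
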