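import Pool.Agent.Strip051.PB.FlFin
import Pool.Agent.Strip051.PB.PosV
import Pool.Agent.Strip051.LC.E1.FloorU

/-! # The rows at the floor near the full period: from the node curves to the lists -/

namespace Pool.Agent.Strip051.PB

open Pool.Agent.StripNear Pool.Agent.StripSquare Pool.Agent.Strip051.Sweep
open Pool.Agent.Strip051.LC Pool.Agent.Strip051.LC.Exact
open Pool.Agent.Strip051.LC.Floor (G En Qn fS kE_low kE_high S0_norm G_nonneg G_sq)

/-- The slack on the floor. -/
noncomputable def us2 (x μ : ℝ) (q : ℕ) (y X A L : ℝ) : ℝ :=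
  fS x μ y X (En x * A) L (mnQ q x y)

/-- The growth from below. -/
noncomputable def gl2 (x μ : ℝ) (q : ℕ) (y X A L : ℝ) : ℝ := grL x μ q y X A L 0

/-- The growth from above. -/
noncomputable def gu2 (x μ : ℝ) (q : ℕ) (y X A L : ℝ) : ℝ := grU x μ q y X A L 0

/-- The parameters of a vertex. -/
structure Par2 (x μ : ℝ) : Prop where
  x0 : 0 < x
  x1 : x < 1
  E0 : 0 ≤ kE (h0 * x)
  μ0 : 0 ≤ μ

section

variable {n : ℕ} {D : PV n} {x μ : ℝ} {vR vL : ℝ → Fin (n + 1) → ℝ} {q : ℕ} {y X A L d K B : ℝ}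

/-- The floor function of two tables. -/
noncomputable def UD (D : PV n) (x μ : ℝ) (vR vL : ℝ → Fin (n + 1) → ℝ) : ℝ → ℝ → ℝ → ℝ :=
  UX x μ (ker D.cur.nodes vR fun _ _ => 0) (ker D.cur.nodes vL fun _ _ => 0) (fun _ _ => 0)
    fun _ => 0

theorem ud_zero (H : Par2 x μ) (h : InQ q y)
    (hA : ker D.cur.nodes vR (fun _ _ => 0) X (h0 * y) = A)
    (hL : ker D.cur.nodes vL (fun _ _ => 0) X (h0 * y) = L) :
    UD D x μ vR vL X 0 (0 + h0 * y) = us2 x μ q y X A L + 1 / 2 := by
  unfold UD us2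
  rw [UX_zero H.x0 H.x1 h, hA, hL]
  ring

theorem ud_up (H : Par2 x μ) (h : InQ q y)
    (hA : ker D.cur.nodes vR (fun _ _ => 0) X (h0 * y) = A)
    (hL : ker D.cur.nodes vL (fun _ _ => 0) X (h0 * y) = L) (hd : 0 ≤ d) :
    us2 x μ q y X A L + 1 / 2 + gl2 x μ q y X A L / h0 * d ≤
      UD D x μ vR vL X d (d + h0 * y) := by
  rw [← ud_zero H h hA hL]
  exact UX_up H.x0 H.x1 H.E0 H.μ0 denF_zero h hA hL (mul_zero h0) hd

theorem ud_dn (H : Par2 x μ) (h : InQ q y)
    (hA : ker D.cur.nodes vR (fun _ _ => 0) X (h0 * y) = A)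
    (hL : ker D.cur.nodes vL (fun _ _ => 0) X (h0 * y) = L) (hd : 0 ≤ d) :
    UD D x μ vR vL X d (d + h0 * y) ≤
      us2 x μ q y X A L + 1 / 2 + gu2 x μ q y X A L / h0 * d := by
  rw [← ud_zero H h hA hL]
  exact UX_dn H.x0 H.x1 H.E0 H.μ0 denF_zero h hA hL (mul_zero h0) hd

/-- A lower bound up to the height `K h0`. -/
theorem ud_low (H : Par2 x μ) (h : InQ q y)
    (hA : ker D.cur.nodes vR (fun _ _ => 0) X (h0 * y) = A)
    (hL : ker D.cur.nodes vL (fun _ _ => 0) X (h0 * y) = L) (hd : 0 ≤ d) (hK : d ≤ K * h0)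
    (hk : B ≤ us2 x μ q y X A L + 1 / 2 + K * min (gl2 x μ q y X A L) 0) :
    B ≤ UD D x μ vR vL X d (d + h0 * y) := by
  have hp := h0_pos
  have k2 := ud_up (D := D) (vR := vR) (vL := vL) H h hA hL hd
  have m0 : min (gl2 x μ q y X A L) 0 ≤ 0 := min_le_right _ _
  have m1 : min (gl2 x μ q y X A L) 0 ≤ gl2 x μ q y X A L := min_le_left _ _
  have a1 : d / h0 ≤ K := by
    rw [div_le_iff₀ hp]
    exact hK
  have a0 : 0 ≤ d / h0 := by positivity
  have e : gl2 x μ q y X A L / h0 * d = d / h0 * gl2 x μ q y X A L := by ring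
  rw [e] at k2
  nlinarith

/-- The wall at all heights. -/
theorem ud_wall (H : Par2 x μ) (h : InQ q y)
    (hA : ker D.cur.nodes vR (fun _ _ => 0) X (h0 * y) = A)
    (hL : ker D.cur.nodes vL (fun _ _ => 0) X (h0 * y) = L) (hd : 0 ≤ d)
    (g : 0 ≤ gl2 x μ q y X A L) (u : 0 ≤ us2 x μ q y X A L) :
    1 / 2 ≤ UD D x μ vR vL X d (d + h0 * y) := by
  have hp := h0_pos
  have k2 := ud_up (D := D) (vR := vR) (vL := vL) H h hA hL hd
  have : 0 ≤ gl2 x μ q y X A L / h0 * d := mul_nonneg (div_nonneg g hp.le) hd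
  linarith

/-- The wall above the height `K h0`. -/
theorem ud_flat (H : Par2 x μ) (h : InQ q y)
    (hA : ker D.cur.nodes vR (fun _ _ => 0) X (h0 * y) = A)
    (hL : ker D.cur.nodes vL (fun _ _ => 0) X (h0 * y) = L) (hd : 0 ≤ d) (hK : h0 * K ≤ d)
    (g : 0 ≤ gl2 x μ q y X A L) (u : 0 ≤ us2 x μ q y X A L + K * gl2 x μ q y X A L) :
    1 / 2 ≤ UD D x μ vR vL X d (d + h0 * y) := by
  have hp := h0_pos
  have k2 := ud_up (D := D) (vR := vR) (vL := vL) H h hA hL hd
  have a1 : K ≤ d / h0 := by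
    rw [le_div_iff₀ hp, mul_comm]
    exact hK
  have e : gl2 x μ q y X A L / h0 * d = d / h0 * gl2 x μ q y X A L := by ring
  rw [e] at k2
  nlinarith

/-- An upper bound up to the height `K h0`. -/
theorem ud_near (H : Par2 x μ) (h : InQ q y)
    (hA : ker D.cur.nodes vR (fun _ _ => 0) X (h0 * y) = A)
    (hL : ker D.cur.nodes vL (fun _ _ => 0) X (h0 * y) = L) (hd : 0 ≤ d) (hK : d ≤ K * h0)
    (hk : us2 x μ q y X A L + 1 / 2 + K * max (gu2 x μ q y X A L) 0 ≤ B) :
    UD D x μ vR vL X d (d + h0 * y) ≤ B := by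
  have hp := h0_pos
  have k2 := ud_dn (D := D) (vR := vR) (vL := vL) H h hA hL hd
  have m0 : 0 ≤ max (gu2 x μ q y X A L) 0 := le_max_right _ _
  have m1 : gu2 x μ q y X A L ≤ max (gu2 x μ q y X A L) 0 := le_max_left _ _
  have a1 : d / h0 ≤ K := by
    rw [div_le_iff₀ hp]
    exact hK
  have a0 : 0 ≤ d / h0 := by positivity
  have e : gu2 x μ q y X A L / h0 * d = d / h0 * gu2 x μ q y X A L := by ring
  rw [e] at k2
  nlinarith

/-- A node and its height. -/
theorem node_casesV {T : ℝ} (hT : 0 ≤ T) (hX : 0 < X) (h3 : X ^ 2 + T ^ 2 ≤ 3)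
    (hn : NodeAt D.cur.nodes X T) : ∃ (j : Fin (n + 1)) (q : ℕ) (y : ℝ), T = h0 * y ∧ InQ q y ∧
      D.P.dm j (h0 * y) ∧ D.r j y ∧ X = crv D.P j q y := by
  have hp := h0_pos
  obtain ⟨j, hd, hj⟩ := D.cur.node X T hT h3 hn
  rw [abs_of_pos hX] at hj
  have e : T = h0 * (T / h0) := by field_simp
  have y0 : 0 ≤ T / h0 := by positivity
  have hT2 : T ≤ 2 * h0 := by
    have := h0_sq
    nlinarith [sq_nonneg X]
  have y2 : T / h0 ≤ 2 := by rwa [div_le_iff₀ hp]
  have hq := inQ_qr y0 y2
  rw [e] at hd hj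
  obtain ⟨d1, d2⟩ := D.dm_iff.1 hd
  refine ⟨j, qr (T / h0), T / h0, e, hq, d1, d2, ?_⟩
  rw [← D.linkX j _ _ hq]
  exact hj

theorem Link.atV {v : ℝ → Fin (n + 1) → ℝ} {R' : Fin (n + 1) → ℕ → ℝ → ℝ → ℝ}
    {T' : ℕ → ℝ → ℝ → ℝ → ℝ} (l : Link D.cur x v R' T') {j : Fin (n + 1)} (h : InQ q y)
    (hd : D.P.dm j (h0 * y)) (hr : D.r j y) :
    ker D.cur.nodes v (fun _ _ => 0) (crv D.P j q y) (h0 * y) = R' j q y x := by
  have hT : 0 ≤ h0 * y := mul_nonneg h0_pos.le h.nonneg
  have hd' : D.cur.dm j (h0 * y) := D.dm_iff.2 ⟨hd, hr⟩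
  rw [← D.linkX j q y h, D.cur.val v l.adm j (h0 * y) hT hd']
  exact l.node j q y h hd'

end

section

variable {n : ℕ} (D : PV n) (x μ : ℝ) (vR vL : ℝ → Fin (n + 1) → ℝ)
  (R L : Fin (n + 1) → ℕ → ℝ → ℝ → ℝ) (TR TL : ℕ → ℝ → ℝ → ℝ → ℝ)
  (t0 g0 D0 UM : ℝ) (al be : ℝ → ℝ)

/-- The inequalities at the wall at a node. -/
def NWal (j : Fin (n + 1)) (q : ℕ) (y : ℝ) : Prop :=
  0 ≤ gl2 x μ q y (crv D.P j q y) (R j q y x) (L j q y x) ∧
    0 ≤ us2 x μ q y (crv D.P j q y) (R j q y x) (L j q y x)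

/-- The inequalities for almost horizontal pairs at a node. -/
def NFla (j : Fin (n + 1)) (q : ℕ) (y : ℝ) : Prop :=
  0 ≤ gl2 x μ q y (crv D.P j q y) (R j q y x) (L j q y x) ∧
    0 ≤ us2 x μ q y (crv D.P j q y) (R j q y x) (L j q y x) +
      g0 * gl2 x μ q y (crv D.P j q y) (R j q y x) (L j q y x)

/-- The inequality for steep pairs at a node. -/
def NHi (j : Fin (n + 1)) (q : ℕ) (y a : ℝ) : Prop :=
  0 ≤ us2 x μ q y (crv D.P j q y) (R j q y x) (L j q y x) +
    (g0 + t0) * min (gl2 x μ q y (crv D.P j q y) (R j q y x) (L j q y x)) 0 -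
      a * (crv D.P j q y - D0 / 2)

/-- The inequality for wide pairs. -/
def NFar (q : ℕ) (y X A B b : ℝ) : Prop :=
  1 / 2 ≤ us2 x μ q y X A B + (g0 + t0) * min (gl2 x μ q y X A B) 0 - b * (X - D0)

/-- The inequality for narrow pairs. -/
def NNr (q : ℕ) (y X A B b : ℝ) : Prop :=
  us2 x μ q y X A B + 1 / 2 + (g0 + t0) * max (gu2 x μ q y X A B) 0 ≤ b * X

/-- The heights of the short edges in the windows, divided by `h0`. -/
structure InT (t : ℝ) : Prop where
  lo : 4 / 5 ≤ h0 * t
  hi : h0 * t ≤ 29 / 20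
  um : 1 ≤ UM ^ 2 + (h0 * t) ^ 2

/-- **The inequalities with the window in normalised coordinates** for curves which are nodes at
some heights. -/
structure WinE : Prop where
  al0 : ∀ t, 0 ≤ al t
  be0 : ∀ t, 0 ≤ be t
  node : ∀ (j : Fin (n + 1)) (q : ℕ) (y : ℝ), InQ q y → D.P.dm j (h0 * y) → D.r j y → t0 ≤ y →
    h0 * y ≤ 1 → (y < 1 ∨ (j ≠ 0 ∧ 1 - G y ≤ crv D.P j q y)) → NWal D x μ R L j q y
  steep : ∀ y : ℝ, 1 ≤ y → h0 * y ≤ 1 → ∀ d, 0 ≤ d →
    1 / 2 ≤ UD D x μ vR vL (1 - G y) d (d + h0 * y)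
  flat : ∀ (j : Fin (n + 1)) (y : ℝ), InQ 0 y → D.P.dm j (h0 * y) → D.r j y → y ≤ t0 →
    NFla D x μ R L g0 j 0 y
  left : ∃ jq : Fin (n + 1), ∀ y, 0 ≤ y → y ≤ t0 → D0 ≤ crv D.P jq 0 y ∧
    D.P.dm jq (h0 * y) ∧ D.r jq y ∧
    ∀ j, D.P.dm j (h0 * y) → D.r j y → crv D.P j 0 y ≤ crv D.P jq 0 y → NWal D x μ R L j 0 y
  high : ∀ (j : Fin (n + 1)) (q : ℕ) (y t : ℝ), InQ q y → D.P.dm j (h0 * y) → D.r j y →
    1 - t0 ≤ t → t ≤ y → y ≤ t + t0 → h0 * y ≤ 17 / 10 →
    NHi D x μ R L t0 g0 D0 j q y (al t)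
  high0 : ∀ t : ℝ, 1 ≤ h0 * (t + t0) → h0 * t ≤ 17 / 10 → 1 ≤ al t * D0
  far : ∀ (j : Fin (n + 1)) (q : ℕ) (y t : ℝ), InQ q y → D.P.dm j (h0 * y) → D.r j y →
    InT UM t → t - t0 ≤ y → y ≤ t + t0 → D0 ≤ crv D.P j q y →
    NFar x μ t0 g0 D0 q y (crv D.P j q y) (R j q y x) (L j q y x) (be t)
  far0 : ∀ (q : ℕ) (y t : ℝ), InQ q y → InT UM t → t - t0 ≤ y → y ≤ t + t0 → qqn D0 y ≤ 3 →
    NFar x μ t0 g0 D0 q y D0 (TR q D0 y x) (TL q D0 y x) (be t)
  near : ∀ (q : ℕ) (y : ℝ), InQ q y → InT UM y → ∃ (j1 : Fin (n + 1)), UM ≤ crv D.P j1 q y ∧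
    D.P.dm j1 (h0 * y) ∧ D.r j1 y ∧
    ∀ j, D.P.dm j (h0 * y) → D.r j y → 0 < crv D.P j q y → crv D.P j q y ≤ crv D.P j1 q y →
      NNr x μ t0 g0 q y (crv D.P j q y) (R j q y x) (L j q y x) (be y)

end

section

variable {n : ℕ} {D : PV n} {x μ : ℝ} {vR vL : ℝ → Fin (n + 1) → ℝ}
  {R L : Fin (n + 1) → ℕ → ℝ → ℝ → ℝ} {TR TL : ℕ → ℝ → ℝ → ℝ → ℝ}
  {t0 g0 D0 UM : ℝ} {al be : ℝ → ℝ}

theorem node_wallV (H : Par2 x μ) (lR : Link D.cur x vR R TR) (lL : Link D.cur x vL L TL)
    {j : Fin (n + 1)} {q : ℕ} {y : ℝ} (h : InQ q y) (hm : D.P.dm j (h0 * y)) (hl : D.r j y)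
    (hT1 : h0 * y ≤ 1) (hr : h0 * y ≤ h0 ∨ 1 - Real.sqrt (1 - (h0 * y) ^ 2) ≤ crv D.P j q y)
    (node : (y < 1 ∨ (j ≠ 0 ∧ 1 - G y ≤ crv D.P j q y)) → NWal D x μ R L j q y)
    (steep : ∀ y : ℝ, 1 ≤ y → h0 * y ≤ 1 → ∀ d, 0 ≤ d →
      1 / 2 ≤ UD D x μ vR vL (1 - G y) d (d + h0 * y)) {d : ℝ}
    (hd : 0 ≤ d) : 1 / 2 ≤ UD D x μ vR vL (crv D.P j q y) d (d + h0 * y) := by
  have hp := h0_pos
  rw [sqrt_G] at hr
  have use : NWal D x μ R L j q y → 1 / 2 ≤ UD D x μ vR vL (crv D.P j q y) d (d + h0 * y) :=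
    fun k => ud_wall H h (lR.atV h hm hl) (lL.atV h hm hl) hd k.1 k.2
  rcases lt_or_ge y 1 with hy | hy
  · exact use (node (Or.inl hy))
  · have hq2 := inQ_two hy hT1
    by_cases hj : j = 0
    · subst hj
      have e := crv_zero (P := D.P) q y
      rcases hy.eq_or_lt with h1 | h1
      · subst h1
        have e2 : crv D.P 0 q 1 = 1 - G 1 := by
          rw [e, G_at_one]
          norm_num
        rw [e2]
        exact steep 1 le_rfl hT1 d hd
      · exfalso
        have g := G_lt h1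
        rcases hr with hr | hr
        · nlinarith
        · rw [e] at hr
          linarith
    · refine use (node (Or.inr ⟨hj, ?_⟩))
      rcases hr with hr | hr
      · have hy1 : y = 1 := le_antisymm (by nlinarith) hy
        rw [hy1, G_at_one]
        have l1 : c1 (h0 * y) ≤ D.P.cur.cv j (h0 * y) := by
          have hT : 0 ≤ h0 * y := mul_nonneg hp.le h.nonneg
          exact D.P.cur.low j _ hT (by nlinarith)
        rw [linkX D.P j q y h, c1_n, hy1, show c1n 1 = 1 / 2 from G_at_one] at l1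
        linarith
      · exact hr

/-- **The lists at the floor from the inequalities at the nodes.** -/
theorem WinE.winA (H : Par2 x μ) (hE : EdgeU (UD D x μ vR vL) (NodeAt D.cur.nodes))
    (lR : Link D.cur x vR R TR) (lL : Link D.cur x vL L TL)
    (h : WinE D x μ vR vL R L TR TL t0 g0 D0 UM al be) (t00 : 0 ≤ t0) (t01 : t0 ≤ 1 / 100)
    (hg0 : 0 ≤ g0) (D1 : 1 ≤ D0) (hUM : 0 ≤ UM) :
    E1.WinA (UD D x μ vR vL) (h0 * t0) (h0 * g0) D0 UM (fun T => al (T / h0))
      (fun T => be (T / h0)) := by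
  have hp := h0_pos
  have hsq := h0_sq
  have hne : h0 ≠ 0 := hp.ne'
  have hlt : h0 < 1 := by nlinarith
  have hK : ∀ y : ℝ, y ≤ h0 * g0 + h0 * t0 → y ≤ (g0 + t0) * h0 := fun y hy => by linarith
  refine ⟨fun T => h.al0 _, fun T => h.be0 _, ?_, ?_, ?_, ?_, ?_, ?_⟩
  · -- wall
    intro X T d hd ht hT1 hX h1 h3 hr
    have hT : 0 ≤ T := (mul_nonneg hp.le t00).trans ht
    have fin : ∀ X0 : ℝ, 0 ≤ X0 → X0 ≤ X → (T ≤ h0 ∨ 1 - Real.sqrt (1 - T ^ 2) ≤ X0) →
        (X0 = 0 → T ≤ h0) → (X0 = 0 ∨ 1 / 2 ≤ UD D x μ vR vL X0 d (d + T)) →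
        1 / 2 ≤ UD D x μ vR vL X d (d + T) := by
      intro X0 hX0 hX0X hc hz hv
      have := hE.between (X := X) (X0 := X0) (X1 := 2) (T := T) (y := d) (σ := 1) (α := 0)
        (β := -(1 / 2)) hX0X (by nlinarith) hT h1 h3 (fun u u0 u1 u2 u3 un => by
          rcases un with un | un | un
          · have hu0 : 0 < u := by
              rcases (hX0.trans u0).eq_or_lt with h9 | h9
              · exfalso
                rw [← h9] at u2 u0
                have := hz (le_antisymm u0 hX0)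
                nlinarith
              · exact h9
            obtain ⟨j, q, y, rfl, hq, hm, hl, rfl⟩ := node_casesV hT hu0 u3 un
            have ty : t0 ≤ y := by nlinarith
            have := node_wallV H lR lL hq hm hl hT1
              (hc.imp_right fun h9 => h9.trans u0) (h.node j q y hq hm hl ty hT1) h.steep hd
            linarith
          · rcases hv with hv | hv
            · exfalso
              rw [un, hv] at u2
              have := hz hv
              nlinarith
            · rw [un]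
              linarith
          · exfalso
            rw [un] at u3
            nlinarith [sq_nonneg T])
      linarith
    rcases hr with hr | hr
    · exact fin 0 le_rfl hX (Or.inl hr) (fun _ => hr) (Or.inl rfl)
    · rcases le_or_gt T h0 with hT0 | hT0
      · exact fin 0 le_rfl hX (Or.inl hT0) (fun _ => hT0) (Or.inl rfl)
      · obtain ⟨q, y, rfl, hq⟩ := height_cases hT (by nlinarith)
        have hy1 : 1 ≤ y := by nlinarith
        rw [sqrt_G] at hr
        have hG : G y < 1 := by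
          rcases hy1.eq_or_lt with h9 | h9
          · rw [← h9, G_at_one]
            norm_num
          · exact (G_lt h9).trans (by norm_num)
        refine fin (1 - G y) (by linarith) hr (Or.inr (by rw [sqrt_G])) (fun h9 => ?_)
          (Or.inr (h.steep y hy1 hT1 d hd))
        exfalso
        linarith
  · -- flat
    intro X T d hd hT ht hX h1 h3
    have hT1 : T < 1 := by nlinarith
    have := hE.lin (X := X) (T := T) (y := d) (σ := 1) (α := 0) (β := -(1 / 2)) (Or.inr hT1) hX hT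
      h1 h3 (fun u u0 u1 u3 un => by
        obtain ⟨j, q, y, rfl, hq, hm, hl, rfl⟩ := node_casesV hT u0 u3 un
        have ty : y ≤ t0 := by nlinarith
        obtain rfl : q = 0 := lt_half_of hq (by nlinarith)
        have k := h.flat j y hq hm hl ty
        have := ud_flat (D := D) (vR := vR) (vL := vL) H hq (lR.atV hq hm hl) (lL.atV hq hm hl)
          ((mul_nonneg hp.le hg0).trans hd) hd k.1 k.2
        linarith)
    linarith
  · -- left
    intro X T d hd hT ht hX hXD h1 h3
    obtain ⟨jq, hj⟩ := h.left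
    obtain ⟨q, y, rfl, hq⟩ := height_cases hT (by nlinarith [sq_nonneg X])
    have ty : y ≤ t0 := by nlinarith
    have y0 : 0 ≤ y := hq.nonneg
    obtain rfl : q = 0 := lt_half_of hq (by nlinarith)
    obtain ⟨b1, b2, b3, b4⟩ := hj y y0 ty
    have hsm : (h0 * y) ^ 2 < 1 := by
      have g1 : h0 * y ≤ 1 / 2 := by nlinarith
      have g2 : 0 ≤ h0 * y := hT
      nlinarith
    have use : ∀ j, D.P.dm j (h0 * y) → D.r j y → crv D.P j 0 y ≤ crv D.P jq 0 y →
        1 / 2 ≤ UD D x μ vR vL (crv D.P j 0 y) d (d + h0 * y) := by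
      intro j hm hl hc
      have k := b4 j hm hl hc
      exact ud_wall H hq (lR.atV hq hm hl) (lL.atV hq hm hl) hd k.1 k.2
    have := hE.between (X := X) (X0 := 0) (X1 := crv D.P jq 0 y) (T := h0 * y) (y := d) (σ := 1)
      (α := 0) (β := -(1 / 2)) hX (hXD.trans b1) hT h1 h3 (fun u u0 u1 u2 u3 un => by
        rcases un with un | un | un
        · have hu0 : 0 < u := by
            rcases u0.eq_or_lt with h9 | h9
            · exfalso
              rw [← h9] at u2
              linarith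
            · exact h9
          obtain ⟨j, q', y', e, hq', hm, hl, rfl⟩ := node_casesV hT hu0 u3 un
          obtain rfl : y = y' := mul_left_cancel₀ hne e
          obtain rfl : q' = 0 := lt_half_of hq' (by nlinarith)
          have := use j hm hl u1
          linarith
        · exfalso
          rw [un] at u2
          linarith
        · rw [un]
          have := use jq b2 b3 le_rfl
          linarith)
    linarith
  · -- high
    intro X T T' d hd hd2 t1 t2 t3 t4 hX h1 h3
    have hT' : 0 ≤ T' := by nlinarith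
    have g1 : 1 - t0 ≤ T / h0 := by
      rw [le_div_iff₀ hp]
      linarith
    have := hE.between (X := X) (X0 := 0) (X1 := 2) (T := T') (y := d) (σ := 1)
      (α := -al (T / h0)) (β := al (T / h0) * (D0 / 2) - 1 / 2) hX (by nlinarith) hT' h1 h3
      (fun u u0 u1 u2 u3 un => by
        rcases un with un | un | un
        · rcases u0.eq_or_lt with h9 | h9
          · subst h9
            have hT1 : 1 ≤ T' := by nlinarith
            have e : h0 * (T / h0) = T := by field_simp
            have k := h.high0 (T / h0) (by rw [mul_add, e]; linarith) (by rw [e]; linarith)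
            rw [hE.zero]
            nlinarith
          · obtain ⟨j, q, y, rfl, hq, hm, hl, rfl⟩ := node_casesV hT' h9 u3 un
            have g2 : T / h0 ≤ y := by
              rw [div_le_iff₀ hp]
              linarith
            have g3 : y ≤ T / h0 + t0 := by
              have : h0 * y ≤ h0 * (T / h0 + t0) := by
                rw [mul_add, mul_div_cancel₀ _ hne]
                exact t3
              exact le_of_mul_le_mul_left this hp
            have k := h.high j q y (T / h0) hq hm hl g1 g2 g3 t4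
            unfold NHi at k
            have := ud_low (D := D) (vR := vR) (vL := vL)
              (B := 1 / 2 + al (T / h0) * (crv D.P j q y - D0 / 2)) H hq (lR.atV hq hm hl)
              (lL.atV hq hm hl) hd (hK d hd2) (by linarith)
            linarith
        · subst un
          have hT1 : 1 ≤ T' := by nlinarith
          have e : h0 * (T / h0) = T := by field_simp
          have k := h.high0 (T / h0) (by rw [mul_add, e]; linarith) (by rw [e]; linarith)
          rw [hE.zero]
          nlinarith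
        · exfalso
          rw [un] at u3
          nlinarith [sq_nonneg T'])
    linarith
  · -- far
    intro X T T' d hd hd2 t1 t2 t3 t4 t5 t6 hX h1 h3
    have iT : InT UM (T / h0) := by
      have e : h0 * (T / h0) = T := by field_simp
      exact ⟨by rw [e]; exact t1, by rw [e]; exact t2, by rw [e]; exact t3⟩
    have := hE.between (X := X) (X0 := D0) (X1 := 2) (T := T') (y := d) (σ := 1)
      (α := -be (T / h0)) (β := be (T / h0) * D0 - 1) hX (by nlinarith) t6 h1 h3
      (fun u u0 u1 u2 u3 un => by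
        have bnd : ∀ y, T' = h0 * y → T / h0 - t0 ≤ y ∧ y ≤ T / h0 + t0 := by
          intro y e
          constructor
          · have : h0 * (T / h0 - t0) ≤ h0 * y := by
              rw [mul_sub, mul_div_cancel₀ _ hne, ← e]
              exact t4
            exact le_of_mul_le_mul_left this hp
          · have : h0 * y ≤ h0 * (T / h0 + t0) := by
              rw [mul_add, mul_div_cancel₀ _ hne, ← e]
              exact t5
            exact le_of_mul_le_mul_left this hp
        rcases un with un | un | un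
        · obtain ⟨j, q, y, e, hq, hm, hl, rfl⟩ := node_casesV t6 (by linarith) u3 un
          obtain ⟨g2, g3⟩ := bnd y e
          subst e
          have k := h.far j q y (T / h0) hq hm hl iT g2 g3 u0
          unfold NFar at k
          have := ud_low (D := D) (vR := vR) (vL := vL)
            (B := 1 + be (T / h0) * (crv D.P j q y - D0)) H hq (lR.atV hq hm hl)
            (lL.atV hq hm hl) hd (hK d hd2) (by linarith)
          linarith
        · subst un
          obtain ⟨q, y, e, hq⟩ := height_cases t6 (by nlinarith [sq_nonneg u] : T' ^ 2 ≤ 3)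
          obtain ⟨g2, g3⟩ := bnd y e
          subst e
          rw [qqn_eq] at u2 u3
          have k := h.far0 q y (T / h0) hq iT g2 g3 u3
          unfold NFar at k
          have := ud_low (D := D) (vR := vR) (vL := vL) (X := u)
            (B := 1 + be (T / h0) * (u - u)) H hq (lR.third q _ y hq u2 u3)
            (lL.third q _ y hq u2 u3) hd (hK d hd2) (by linarith)
          linarith
        · exfalso
          rw [un] at u3
          nlinarith [sq_nonneg T'])
    linarith
  · -- near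
    intro X T d hd hd2 t1 t2 hX hXU h1 h3
    have t3 : 1 ≤ UM ^ 2 + T ^ 2 := by
      have : X ^ 2 ≤ UM ^ 2 := pow_le_pow_left₀ hX hXU 2
      linarith
    have hT : 0 ≤ T := by linarith
    have e0 : h0 * (T / h0) = T := by field_simp
    have iT : InT UM (T / h0) :=
      ⟨by rw [e0]; exact t1, by rw [e0]; exact t2, by rw [e0]; exact t3⟩
    obtain ⟨q, y, e, hq⟩ := height_cases hT (by nlinarith [sq_nonneg X])
    have ey : T / h0 = y := by
      rw [e]
      field_simp
    rw [ey] at iT ⊢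
    obtain ⟨j1, b1, b2, b3, b4⟩ := h.near q y hq iT
    subst e
    have use : ∀ j, D.P.dm j (h0 * y) → D.r j y → 0 < crv D.P j q y →
        crv D.P j q y ≤ crv D.P j1 q y →
        UD D x μ vR vL (crv D.P j q y) d (d + h0 * y) ≤ be y * crv D.P j q y := by
      intro j hm hl hc hc'
      exact ud_near H hq (lR.atV hq hm hl) (lL.atV hq hm hl) hd (hK d hd2) (b4 j hm hl hc hc')
    have := hE.between (X := X) (X0 := 0) (X1 := crv D.P j1 q y) (T := h0 * y) (y := d)
      (σ := -1) (α := be y) (β := 0) hX (hXU.trans b1) hT h1 h3 (fun u u0 u1 u2 u3 un => by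
        have zero : u = 0 → 0 ≤ -1 * UD D x μ vR vL u d (d + h0 * y) + be y * u + 0 := by
          intro hu
          rw [hu, hE.zero]
          norm_num
        rcases u0.eq_or_lt with h9 | h9
        · exact zero h9.symm
        · rcases un with un | un | un
          · obtain ⟨j, q', y', e, hq', hm, hl, rfl⟩ := node_casesV hT h9 u3 un
            obtain rfl : y = y' := mul_left_cancel₀ hne e
            obtain rfl : q = q' := (qr_eq hq).symm.trans (qr_eq hq')
            have := use j hm hl h9 u1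
            linarith
          · exact zero un
          · rw [un]
            have := use j1 b2 b3 (by rw [← un]; exact h9) le_rfl
            linarith)
    linarith

end

end Pool.Agent.Strip051.PB
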