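import Pool.Agent.Strip051.PB.ExtD2
import Pool.Agent.Strip051.PB.RowD2
import Pool.Agent.Strip051.PB.BridgeE

/-! # Leaves of type D, both signs: from the certificate to the statement at both vertices -/

namespace Pool.Agent.Strip051.PB

open Pool.Agent.StripNear Pool.Agent.StripSquare Pool.Agent.Strip051.Sweep
open Pool.Agent.Strip051.LC

/-- the kind -/
def dkOf (i : ℕ) : DK :=
  match i with
  | 0 => .A1
  | 1 => .A2
  | 2 => .B1
  | _ => .B2

theorem dkOf_b (i : ℕ) (V : Val) : (dkOf i).b V.y V.z = dbR i V := by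
  match i with
  | 0 => rfl
  | 1 => rfl
  | 2 => rfl
  | _ + 3 => rfl

theorem dkOf_be (i : ℕ) (V : Val) : (dkOf i).be V.y V.z = beR i V := by
  match i with
  | 0 => rfl
  | 1 => rfl
  | 2 => rfl
  | _ + 3 => rfl

theorem dkOf_al (i : ℕ) (V : Val) : (dkOf i).al V.x V.y V.z = daR i V := by
  match i with
  | 0 => rfl
  | 1 => rfl
  | 2 => rfl
  | _ + 3 => rfl

theorem dkOf_d (i : ℕ) (e c1 c2 c3 : ℝ) :
    (dkOf i).d (smV e (c1, c2, c3)) = e * ddR i c1 c2 c3 := by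
  match i with
  | 0 => exact (mul_sub e c1 c3).symm
  | 1 => exact (mul_sub e c3 c2).symm
  | 2 => exact (mul_sub e c2 c1).symm
  | _ + 3 => exact (mul_sub e c2 c1).symm

theorem abs_smul_sub {e : ℝ} (he : 0 ≤ e) (u v : ℝ) : |e * u - e * v| = e * |u - v| := by
  rw [← mul_sub, abs_mul, abs_of_nonneg he]

theorem dkOf_gp (i : ℕ) {e : ℝ} (he : 0 ≤ e) (c1 c2 c3 : ℝ) :
    (dkOf i).gp (smV e (c1, c2, c3)) = e * dgR i c1 c2 c3 := by
  match i with
  | 0 => exact abs_smul_sub he c2 c3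
  | 1 => exact abs_smul_sub he c1 c3
  | 2 => exact abs_smul_sub he c2 c3
  | _ + 3 => exact abs_smul_sub he c1 c3

theorem dkOf_nu (i : ℕ) {e : ℝ} (he : e ≠ 0) (E m v r1 r2 r3 c1 c2 c3 u w t : ℝ) :
    (dkOf i).nu v (ckr E (m / e) (r1, r2, r3) (smV e (c1, c2, c3)) u w t) =
      (kdR E m u c1 r1 (kr4 i 0 (-v) 0 0), kdR E m w c2 r2 (kr4 i v 0 0 0),
        kdR E m t c3 r3 (kr4 i 0 0 v (-v))) := by
  have e1 : ∀ q s : ℝ, m / e * (e * q * s) = m * (s * q) := by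
    intro q s
    field_simp
  unfold ckr smV kdR
  simp only [e1]
  rcases i with _ | _ | _ | i
  · simp only [dkOf, DK.nu, kr4, add_zero]
  · simp only [dkOf, DK.nu, kr4, add_zero, sub_eq_add_neg]
  · simp only [dkOf, DK.nu, kr4, add_zero]
  · simp only [dkOf, DK.nu, kr4, add_zero, sub_eq_add_neg]

/-! ### Gains and losses -/

/-- The constants of the leaves: `q` belongs to `th`, and the threshold is small enough for the
smallest interior gain. -/
structure DParOk (P : DPar) : Prop where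
  t0 : 0 < P.th
  t1 : P.th ≤ 7 / 16
  q : P.q = 1 / P.th - 1

section

variable {P : DPar} {x al : ℝ}

theorem Gc2.gain {m n : ℕ} (ρ : ℝ) (e1 : (m : ℝ) / (16 : ℕ) = ρ) (e2 : (n : ℝ) / (16 : ℕ) = 1 - ρ)
    (e3 : ((m * n : ℕ) : ℝ) / (256 : ℕ) = ρ - ρ ^ 2) (h0 : 1 / 8 ≤ ρ) (h1 : ρ ≤ 1 / 2)
    (hP : DParOk P) (h : Gc2 m n P x al) : Gain2 P.th P.K x al (vpR m n P (1 - x)) := by
  obtain ⟨g1, g2, g3⟩ := h
  have t1 := hP.t1
  unfold vpR at g3 ⊢
  rw [e1] at g1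
  rw [e2] at g2 g3
  rw [e3] at g3 ⊢
  push_cast at g3
  refine Gain2.pos ρ (by linarith) h1 ?_ (le_of_eq (by ring)) g1 g2 ?_
  · have : 7 / 64 ≤ ρ - ρ ^ 2 := by nlinarith
    linarith
  · linarith

theorem Gc2.of {ρ : ℝ} (m n : ℕ) (h : Gc2 m n P x al) (hP : DParOk P) (h0 : 1 / 8 ≤ ρ)
    (h1 : ρ ≤ 1 / 2) (e1 : (m : ℝ) / (16 : ℕ) = ρ) (e2 : (n : ℝ) / (16 : ℕ) = 1 - ρ)
    (e3 : ((m * n : ℕ) : ℝ) / (256 : ℕ) = ρ - ρ ^ 2) :
    Gain2 P.th P.K x al (vpR m n P (1 - x)) :=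
  Gc2.gain ρ e1 e2 e3 h0 h1 hP h

theorem Gain2R.gain {j : ℕ} (hP : DParOk P) (h : Gain2R j P x al) :
    Gain2 P.th P.K x al (gv2R j P x al) := by
  have hq := hP.q
  rcases j with _ | _ | _ | _ | _ | _ | _ | j
  · show Gain2 P.th P.K x al (-(P.q * (al ^ 2 * x⁻¹)))
    exact Gain2.neg (le_of_eq (by rw [hq, div_eq_mul_inv (al ^ 2)]))
  · exact Gain2.zero le_rfl (show 0 ≤ al from h)
  · have h' : 0 ≤ al ∧ al ≤ P.th / 2 * (1 - x) := h
    show Gain2 P.th P.K x al (P.q * (al ^ 2 * (1 - x)⁻¹))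
    exact Gain2.sq (le_of_eq (by rw [hq, div_eq_mul_inv (al ^ 2)])) h'.1 h'.2
  · exact Gc2.of (ρ := 1 / 8) 2 14 h hP (by norm_num) (by norm_num) (by norm_num)
      (by norm_num) (by norm_num)
  · exact Gc2.of (ρ := 3 / 16) 3 13 h hP (by norm_num) (by norm_num) (by norm_num)
      (by norm_num) (by norm_num)
  · exact Gc2.of (ρ := 1 / 4) 4 12 h hP (by norm_num) (by norm_num) (by norm_num)
      (by norm_num) (by norm_num)
  · exact Gc2.of (ρ := 3 / 8) 6 10 h hP (by norm_num) (by norm_num) (by norm_num)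
      (by norm_num) (by norm_num)
  · exact Gc2.of (ρ := 1 / 2) 8 8 h hP (by norm_num) (by norm_num) (by norm_num)
      (by norm_num) (by norm_num)

theorem Loss2R.loss {j : ℕ} (hP : DParOk P) (x1 : x < 1) (h : Loss2R j P x al) :
    Loss P.th x al (lv2R j P x al) := by
  have hq := hP.q
  have t0 := hP.t0
  have t1 := hP.t1
  rcases j with _ | _ | _ | j
  · show Loss P.th x al (P.q * (al ^ 2 * (1 - x)⁻¹))
    rcases le_total al 0 with ha | ha
    · refine Loss.neg ?_ ha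
      have : 0 ≤ P.q := by
        rw [hq, sub_nonneg, le_div_iff₀ t0]
        linarith
      have : 0 ≤ (1 - x)⁻¹ := inv_nonneg.2 (by linarith)
      positivity
    · exact Loss.sq (le_of_eq (by rw [hq, div_eq_mul_inv (al ^ 2)])) ha
  · exact Loss.neg le_rfl (show al ≤ 0 from h)
  · have h' : P.th / 2 * (1 - x) ≤ al ∧ al ≤ (1 - x) / 2 := h
    show Loss P.th x al (al - al ^ 2 * (1 - x)⁻¹ - P.th / 4 * (1 - x))
    exact Loss.mid (le_of_eq (by rw [div_eq_mul_inv (al ^ 2)])) h'.1 h'.2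
  · show Loss P.th x al (vpR 8 8 P (1 - x))
    refine Loss.top (le_of_eq ?_)
    unfold vpR
    push_cast
    ring

end

/-! ### From the leaf to the statement -/

section

variable {i N0 : ℕ} {P : DPar} {En x y z X Y ex r1 r2 r3 l1 l2 l3 c1 c2 c3 g ν γ κ o : ℝ} {cn : Con}
  {a b c : ℕ}

theorem DSl.near (he : 0 < esn x)
    (h : DSl i N0 En ⟨x, y, z, X, Y, ex, r1, r2, r3, l1, l2, l3⟩ c1 c2 c3 cn a b c g ν γ) :
    0 ≤ lvN N0 0 x y z ex (l1, l2, l3) +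
      mun N0 x * ((dkOf i).d (smV (esn x) (c1, c2, c3)) * g) - esn x * ν +
      slt cn a b c 0 (ken x) x y z ((dkOf i).nu (esn x * ν / esn x)
        (ckr En (mun N0 x / esn x) (r1, r2, r3) (smV (esn x) (c1, c2, c3)) (y - jq a) (z - jq b)
          (y + z - jq c))) γ := by
  unfold DSl at h
  simp only at h
  rw [mul_div_cancel_left₀ _ he.ne', dkOf_d, dkOf_nu i he.ne']
  unfold slt lvN
  unfold levN at h ⊢
  simp only
  rw [slc_add] at h
  have e1 := slc_add cn 0 (ex + mun N0 x * (esn x * (ddR i c1 c2 c3 * g)) - esn x * ν)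
    (ken x) x (y - jq a) (z - jq b) (y + z - jq c)
    (kdR En (mun N0 x) (y - jq a) c1 r1 (kr4 i 0 (-ν) 0 0))
    (kdR En (mun N0 x) (z - jq b) c2 r2 (kr4 i ν 0 0 0))
    (kdR En (mun N0 x) (y + z - jq c) c3 r3 (kr4 i 0 0 ν (-ν))) γ
  rw [zero_add] at e1
  rw [e1] at h
  have e2 : mun N0 x * (esn x * ddR i c1 c2 c3 * g) = mun N0 x * (esn x * (ddR i c1 c2 c3 * g)) := by
    ring
  rw [e2]
  linarith

/-- **A leaf of type D, both signs**: the statement at both vertices. -/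
theorem DRow2.both {L l l' : ℝ} (hP : DParOk P) (hC : DC2 P.th P.K l P.A x)
    (hN : DN P.th L l' P.K1 P.K2 P.A x) (hκ : κ * h0 = ken x) (he : 0 < esn x)
    (hμ : 0 ≤ mun N0 x) (h1 : InQ a y) (h2 : InQ b z) (h3 : InQ c (y + z))
    (hc : con a b c = some cn)
    (h : DRow2 i N0 P En ⟨x, y, z, X, Y, ex, r1, r2, r3, l1, l2, l3⟩ c1 c2 c3 cn a b c γ) :
    Both N0 0 κ En (h0 * o) (tnt (h0 * x) P.th) x y z ex (r1, r2, r3) (l1, l2, l3)
      (dimC (smV (esn x) (c1, c2, c3))) := by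
  have hx1 : x < 1 := hN.x1
  obtain ⟨hb, ha, ha', hf, hd⟩ := h
  have eb := dkOf_b i ⟨x, y, z, X, Y, ex, r1, r2, r3, l1, l2, l3⟩
  have ebe := dkOf_be i ⟨x, y, z, X, Y, ex, r1, r2, r3, l1, l2, l3⟩
  have ea := dkOf_al i ⟨x, y, z, X, Y, ex, r1, r2, r3, l1, l2, l3⟩
  have ed := dkOf_d i (esn x) c1 c2 c3
  have eg := dkOf_gp i he.le c1 c2 c3
  simp only at eb ebe ea ha'
  have far : ∃ γ, 0 ≤ lvF ex (l1, l2, l3) + slt cn a b c 0 (κ * h0) x y z (r1, r2, r3) γ := by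
    refine ⟨γ, ?_⟩
    rw [hκ, ← slt_add]
    exact hf.le
  have pos : DRowP i N0 P En
      ⟨x, y, z, X, Y, ex, r1, r2, r3, l1, l2, l3⟩ c1 c2 c3 cn a b c →
      RowP cn a b c N0 (dkOf i) P.th P.K κ 0 En x y z ex (r1, r2, r3) (l1, l2, l3)
        (smV (esn x) (c1, c2, c3)) := by
    rintro ⟨j, γ', hg, hn⟩
    refine ⟨gv2R j P x (daR i ⟨x, y, z, X, Y, ex, r1, r2, r3, l1, l2, l3⟩),
      esn x * nu2R i P (mun N0 x) ⟨x, y, z, X, Y, ex, r1, r2, r3, l1, l2, l3⟩ c1 c2 c3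
        (ddR i c1 c2 c3 * (P.K * (1 - x))), γ', ?_, ?_, ?_⟩
    · rw [ea]
      exact hg.gain hP
    · rw [eb, ed, eg, ← hP.q]
      unfold nu2R
      refine le_of_eq ?_
      ring
    · rw [hκ]
      exact hn.near he
  have neg : DRowM i N0 P En
      ⟨x, y, z, X, Y, ex, r1, r2, r3, l1, l2, l3⟩ c1 c2 c3 cn a b c →
      |(dkOf i).b y z| ≤ 1 - x ∧
      RowM cn a b c N0 (dkOf i) P.th P.K1 P.K2 κ 0 En x y z ex (r1, r2, r3) (l1, l2, l3)
        (smV (esn x) (c1, c2, c3)) := by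
    rintro ⟨hb', j, s, γ', hg, hk, hn⟩
    refine ⟨by rw [eb]; exact hb', lv2R j P x (daR i ⟨x, y, z, X, Y, ex, r1, r2, r3, l1, l2, l3⟩),
      kv2R s P, esn x * nu2R i P (mun N0 x) ⟨x, y, z, X, Y, ex, r1, r2, r3, l1, l2, l3⟩ c1 c2 c3
        (-ddR i c1 c2 c3 * kv2R s P), γ', ?_, ?_, ?_, ?_⟩
    · rw [ea]
      exact hg.loss hP hx1
    · rw [ebe]
      match s, hk with
      | 0, _ => exact Or.inl le_rfl
      | _ + 1, hk => exact Or.inr ⟨hk, le_rfl⟩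
    · rw [eb, ed, eg, ← hP.q]
      unfold nu2R
      refine le_of_eq ?_
      ring
    · rw [hκ]
      exact hn.near he
  have hp := h0_pos
  have xp : 0 < x := by linarith [hC.x0]
  have s0 : 0 < h0 * x := by positivity
  have s1 : h0 * x < h0 := by nlinarith
  have y0 := h1.nonneg
  have z0 := h2.nonneg
  have y2 := h3.le_two
  have hκ0 : 0 ≤ κ := by
    have : 0 ≤ κ * h0 := by
      rw [hκ]
      unfold ken
      have : 0 < 1 - x := by linarith
      positivity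
    exact nonneg_of_mul_nonneg_left this hp
  have Ht : 0 ≤ h0 * y := mul_nonneg hp.le y0
  have Ht' : 0 ≤ h0 * z := mul_nonneg hp.le z0
  have HT : h0 * y + h0 * z ≤ 2 * h0 := by nlinarith
  right
  constructor
  · intro v
    obtain ⟨γ', hγ⟩ := far
    rw [← slt_add] at hγ
    exact (ngv_of hc h1 h2 h3 hγ).dir hκ0 s0.le s1 Ht Ht' HT v
  · intro v
    rcases hd with ⟨hd, hr⟩ | ⟨hd, hr⟩
    · obtain ⟨g', cst, γ', hg, hcst, hn⟩ := pos hr
      exact nearP (K := P.K * (1 - x)) hP.t0 hC.t1 xp hx1 hκ he hμ h1 h2 h3 hc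
        (by rw [eb]; exact hb) (by rw [ed]; exact mul_nonneg he.le hd)
        (fun z => hg.short hC (by rw [ea]; exact ha) (by rw [ea]; exact ha')
          (by rw [DK.be_abs, eb]; exact hb) z) hcst ⟨γ', hn⟩ v
    · obtain ⟨hb', g', K', cst, γ', hg, hK, hcst, hn⟩ := neg hr
      exact nearM (K := K') hP.t0 hC.t1 xp hx1 hκ he hμ h1 h2 h3 hc
        (by rw [eb]; exact hb)
        (by rw [ed]; exact mul_nonpos_of_nonneg_of_nonpos he.le hd)
        (fun z => hg.short hN (by rw [ea]; exact ha) (by rw [ea]; exact ha')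
          (by rw [DK.be_abs, eb]; exact hb) (by rw [DK.be_abs]; exact hb') hK z) hcst ⟨γ', hn⟩ v

end

section

variable {n : ℕ} {P : Pos n} {RK RL RC : Fin (n + 1) → ℕ → ℝ → ℝ → ℝ} {j k : Fin (n + 1)}
  {a b c : ℕ} {s1 s2 : Bool} {x κ o L l l' : ℝ} {cn : Con} {pc : ℕ → Piece} {pd : ℕ → Fn3}
  {N0 : ℕ} {En ef : Fn1} {n1 n2 : Node} {c1 c2 : Fn2} {D : DPn}

/-- **The leaves of type D, family `A`**: the further alternative implies the statement at both
vertices. -/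
theorem extD2_EA (hD : DParOk D.r) (hC : DC2 D.r.th D.r.K l D.r.A x)
    (hN : DN D.r.th L l' D.r.K1 D.r.K2 D.r.A x) (hκ : κ * h0 = ken x) (he : 0 < esn x)
    (hμ : 0 ≤ mun N0 x) (hef : ef.v x = esn x) (hc : con a b c = some cn) :
    ExtEA N0 κ (En.v x) o (tnt (h0 * x) D.r.th) P RK RL RC pc (fun q => Fn3.sc ef (pd q))
      (extD2 N0 D En c1 c2 (pd c) true s1 s2 cn a b c hc n1 n2 (pc c)) n1 n2
      (Fn2.sc ef c1) (Fn2.sc ef c2) a b c j k (sgb s1) (sgb s2) x := by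
  intro y y' p p' F A1 A2 h
  have hv := valC_A (s1 := s1) (s2 := s2) (pd := pd) (c := c) (pc := pc) A1 A2
  unfold StEA
  rw [hv, hef]
  change DAlt2 N0 D En c1 c2 (pd c) true s1 s2 cn a b c n1 n2 (pc c) p p' x at h
  unfold DAlt2 at h
  rw [valR_A A1.toAt A2.toAt] at h
  rcases h with h | ⟨i, γ, h⟩
  · exact absurd h (F.notOut rfl rfl rfl)
  · exact h.both hD hC hN hκ he hμ F.q1 F.q2 F.q3 hc

/-- **The leaves of type D, family `B`**: the further alternative implies the statement at both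
vertices. -/
theorem extD2_EB (hD : DParOk D.r) (hC : DC2 D.r.th D.r.K l D.r.A x)
    (hN : DN D.r.th L l' D.r.K1 D.r.K2 D.r.A x) (hκ : κ * h0 = ken x) (he : 0 < esn x)
    (hμ : 0 ≤ mun N0 x) (hef : ef.v x = esn x) (hc : con a b c = some cn) :
    ExtEB N0 κ (En.v x) o (tnt (h0 * x) D.r.th) P RK RL RC pc (fun q => Fn3.sc ef (pd q))
      (extD2 N0 D En c1 c2 (pd b) false s1 s2 cn a b c hc n1 n2 (pc b)) n1 n2
      (Fn2.sc ef c1) (Fn2.sc ef c2) a b c j k (sgb s1) (sgb s2) x := by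
  intro y y' p p' F A1 A2 h
  have hv := valC_B (s1 := s1) (s2 := s2) (pd := pd) (b := b) (pc := pc) A1 A2
  unfold StEB
  rw [hv, hef]
  change DAlt2 N0 D En c1 c2 (pd b) false s1 s2 cn a b c n1 n2 (pc b) p p' x at h
  unfold DAlt2 at h
  rw [valR_B A1.toAt A2.toAt] at h
  rcases h with h | ⟨i, γ, h⟩
  · exact absurd h (F.notOut rfl rfl rfl)
  · exact h.both hD hC hN hκ he hμ F.q1 F.q2 F.q3 hc

end

end Pool.Agent.Strip051.PB
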