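import Pool.Agent.Strip051.PB.MolF
import Pool.Agent.Strip051.LC.Exact.MolR4

/-! # The tight charts without division by the short height, packed arithmetic (generated) -/

set_option linter.unusedVariables false

namespace Pool.Agent.Strip051.PB.Mol

open Pool.Agent.Strip051.PB Pool.Agent.Strip051.LC.MolN

theorem es1_216 {E : Pt} {X : ℕ} {v : ℝ} (h : Enc E X v) : Enc E (pscale 1 216 X) (1 / 216 * v) := encc (enc_scale 1 216 h) (by norm_num)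

noncomputable def R3 (M : MolF) : Fn3 := ⟨_, fun a b c => n3 (M.at_ a b c) a b c, fun h1 h2 h3 => (enc_norm (enc_add h3 h1))⟩

noncomputable def R8 (M : MolF) : Fn3 := ⟨_, fun a b c => n8 (M.at_ a b c) a b c, fun h1 h2 h3 => (enc_sqrt (enc_sub (en1 _) (es3_4 (enc_sq h3))))⟩

noncomputable def R12 (M : MolF) : Fn3 := ⟨_, fun a b c => n12 (M.at_ a b c) a b c, fun h1 h2 h3 => (enc_sqrt (enc_sub (en1 _) (es3_4 (enc_sq ((R3 M).enc h1 h2 h3)))))⟩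

noncomputable def R30 (M : MolF) : Fn3 := ⟨_, fun a b c => n30 (M.at_ a b c) a b c, fun h1 h2 h3 => (enc_norm (enc_add ((R3 M).enc h1 h2 h3) h2))⟩

noncomputable def R34 (M : MolF) : Fn3 := ⟨_, fun a b c => n34 (M.at_ a b c) a b c, fun h1 h2 h3 => (enc_sqrt (enc_sub (en1 _) (es3_4 (enc_sq ((R30 M).enc h1 h2 h3)))))⟩

noncomputable def R41 (M : MolF) : Fn3 := ⟨_, fun a b c => n41 (M.at_ a b c) a b c, fun h1 h2 h3 => (enc_norm (enc_mul (enc_norm (es3_4 (enc_add (ek2 ((R3 M).enc h1 h2 h3)) h2))) (enc_inv (enc_add ((R12 M).enc h1 h2 h3) ((R34 M).enc h1 h2 h3)))))⟩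

noncomputable def R50 (M : MolF) : Fn3 := ⟨_, fun a b c => n50 (M.at_ a b c) a b c, fun h1 h2 h3 => (enc_inv ((R34 M).enc h1 h2 h3))⟩

noncomputable def R52 (M : MolF) : Fn3 := ⟨_, fun a b c => n52 (M.at_ a b c) a b c, fun h1 h2 h3 => (enc_norm (enc_mul ((R3 M).enc h1 h2 h3) (enc_inv ((R12 M).enc h1 h2 h3))))⟩

noncomputable def R56 (M : MolF) : Fn3 := ⟨_, fun a b c => n56 (M.at_ a b c) a b c, fun h1 h2 h3 => (enc_mul (enc_norm (enc_add (en1 _) (enc_mul ((R52 M).enc h1 h2 h3) ((R41 M).enc h1 h2 h3)))) ((R50 M).enc h1 h2 h3))⟩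

noncomputable def R57 (M : MolF) : Fn3 := ⟨_, fun a b c => n57 (M.at_ a b c) a b c, fun h1 h2 h3 => (enc_mul ((R30 M).enc h1 h2 h3) ((R50 M).enc h1 h2 h3))⟩

noncomputable def R64 (M : MolF) : Fn3 := ⟨_, fun a b c => n64 (M.at_ a b c) a b c, fun h1 h2 h3 => (enc_norm (enc_sub (enc_add (es1_2 ((R3 M).enc h1 h2 h3)) ((R12 M).enc h1 h2 h3)) (en1 _)))⟩

noncomputable def R84 (M : MolF) : Fn3 := ⟨_, fun a b c => n84 (M.at_ a b c) a b c, fun h1 h2 h3 => (enc_norm (enc_add (M.dy.enc h1 h2 h3) (enc_mul h2 (M.d1.enc h1 h2 h3))))⟩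

noncomputable def R98 (M : MolF) : Fn3 := ⟨_, fun a b c => n98 (M.at_ a b c) a b c, fun h1 h2 h3 => (enc_norm (enc_sub (M.p1.enc h1 h2 h3) (enc_sub (M.ws.enc h1 h2 h3) ((R41 M).enc h1 h2 h3))))⟩

noncomputable def R102 (M : MolF) : Fn3 := ⟨_, fun a b c => n102 (M.at_ a b c) a b c, fun h1 h2 h3 => (enc_norm (enc_sub (en1 _) ((R12 M).enc h1 h2 h3)))⟩

noncomputable def R103 (M : MolF) : Fn3 := ⟨_, fun a b c => n103 (M.at_ a b c) a b c, fun h1 h2 h3 => (enc_norm (enc_sub (en1 _) ((R34 M).enc h1 h2 h3)))⟩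

noncomputable def R108 (M : MolF) : Fn3 := ⟨_, fun a b c => n108 (M.at_ a b c) a b c, fun h1 h2 h3 => (enc_norm (enc_sub (ek2 ((R12 M).enc h1 h2 h3)) (en1 _)))⟩

noncomputable def R109 (M : MolF) : Fn3 := ⟨_, fun a b c => n109 (M.at_ a b c) a b c, fun h1 h2 h3 => (enc_norm (enc_sub (ek2 ((R34 M).enc h1 h2 h3)) (en1 _)))⟩

noncomputable def R116 (M : MolF) : Fn3 := ⟨_, fun a b c => n116 (M.at_ a b c) a b c, fun h1 h2 h3 => (enc_norm (enc_sub ((R30 M).enc h1 h2 h3) h3))⟩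

noncomputable def R117 (M : MolF) : Fn3 := ⟨_, fun a b c => n117 (M.at_ a b c) a b c, fun h1 h2 h3 => (enc_norm (enc_mul ((R64 M).enc h1 h2 h3) (M.dy.enc h1 h2 h3)))⟩

noncomputable def R119 (M : MolF) : Fn3 := ⟨_, fun a b c => n119 (M.at_ a b c) a b c, fun h1 h2 h3 => (enc_mul ((R64 M).enc h1 h2 h3) (M.d1.enc h1 h2 h3))⟩

noncomputable def R135 (M : MolF) : Fn3 := ⟨_, fun a b c => ((M.at_ a b c).sK) * (n98 (M.at_ a b c) a b c), fun h1 h2 h3 => (enc_norm (enc_mul (M.sK.enc h1 h2 h3) ((R98 M).enc h1 h2 h3)))⟩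

noncomputable def R142 (M : MolF) : Fn3 := ⟨_, fun a b c => n142 (M.at_ a b c) a b c, fun h1 h2 h3 => (enc_norm (enc_add (er1_2 _) (enc_mul h2 (M.rs.enc h1 h2 h3))))⟩

noncomputable def R145 (M : MolF) : Fn3 := ⟨_, fun a b c => n145 (M.at_ a b c) a b c, fun h1 h2 h3 => (enc_norm (enc_mul (M.sX.enc h1 h2 h3) ((R98 M).enc h1 h2 h3)))⟩

noncomputable def R146 (M : MolF) : Fn3 := ⟨_, fun a b c => n146 (M.at_ a b c) a b c, fun h1 h2 h3 => (enc_norm (enc_add (enc_sub (enc_sub (enc_mul ((R41 M).enc h1 h2 h3) ((R109 M).enc h1 h2 h3)) (enc_mul ((R102 M).enc h1 h2 h3) (enc_norm (ek2 ((R41 M).enc h1 h2 h3))))) (ek2 (enc_add (enc_mul (enc_norm (enc_add (enc_mul (enc_norm (enc_sub (er1_2 _) ((R41 M).enc h1 h2 h3))) ((R84 M).enc h1 h2 h3)) ((R119 M).enc h1 h2 h3))) ((R116 M).enc h1 h2 h3)) ((R117 M).enc h1 h2 h3)))) ((R145 M).enc h1 h2 h3)))⟩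

noncomputable def R155 (M : MolF) : Fn3 := ⟨_, fun a b c => n155 (M.at_ a b c) a b c, fun h1 h2 h3 => (enc_norm (enc_sub (enc_sub (M.l1.enc h1 h2 h3) (M.xk.enc h1 h2 h3)) ((R146 M).enc h1 h2 h3)))⟩

noncomputable def R169 (M : MolF) : Fn3 := ⟨_, fun a b c => n169 (M.at_ a b c) a b c, fun h1 h2 h3 => (enc_norm (enc_sub (en1 _) ((R3 M).enc h1 h2 h3)))⟩

noncomputable def R205 (M : MolF) : Fn3 := ⟨_, fun a b c => n205 (M.at_ a b c) a b c, fun h1 h2 h3 => (enc_norm (enc_sub (en1 _) h3))⟩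

noncomputable def R242 (M : MolF) : Fn3 := ⟨_, fun a b c => 1 + n8 (M.at_ a b c) a b c, fun h1 h2 h3 => (enc_norm (enc_add (en1 _) ((R8 M).enc h1 h2 h3)))⟩

noncomputable def R243 (M : MolF) : Fn3 := ⟨_, fun a b c => (1 + n8 (M.at_ a b c) a b c)⁻¹, fun h1 h2 h3 => (enc_inv ((R242 M).enc h1 h2 h3))⟩

noncomputable def R244 (M : MolF) : Fn3 := ⟨_, fun a b c => n244 (M.at_ a b c) a b c, fun h1 h2 h3 => (enc_norm (enc_mul (es3_2 h3) ((R243 M).enc h1 h2 h3)))⟩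

noncomputable def R246 (M : MolF) : Fn3 := ⟨_, fun a b c => 1 + n12 (M.at_ a b c) a b c, fun h1 h2 h3 => (enc_norm (enc_add (en1 _) ((R12 M).enc h1 h2 h3)))⟩

noncomputable def R247 (M : MolF) : Fn3 := ⟨_, fun a b c => (1 + n12 (M.at_ a b c) a b c)⁻¹, fun h1 h2 h3 => (enc_inv ((R246 M).enc h1 h2 h3))⟩

noncomputable def R248 (M : MolF) : Fn3 := ⟨_, fun a b c => n248 (M.at_ a b c) a b c, fun h1 h2 h3 => (enc_norm (enc_mul (enc_norm (es3_2 ((R3 M).enc h1 h2 h3))) ((R247 M).enc h1 h2 h3)))⟩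

noncomputable def R250 (M : MolF) : Fn3 := ⟨_, fun a b c => n250 (M.at_ a b c) a b c, fun h1 h2 h3 => (enc_sq ((R248 M).enc h1 h2 h3))⟩

noncomputable def R251 (M : MolF) : Fn3 := ⟨_, fun a b c => n251 (M.at_ a b c) a b c, fun h1 h2 h3 => (enc_norm (enc_mul ((R244 M).enc h1 h2 h3) ((R248 M).enc h1 h2 h3)))⟩

noncomputable def R255 (M : MolF) : Fn3 := ⟨_, fun a b c => n255 (M.at_ a b c) a b c, fun h1 h2 h3 => (enc_norm (enc_add (en3 _) ((R250 M).enc h1 h2 h3)))⟩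

noncomputable def R258 (M : MolF) : Fn3 := ⟨_, fun a b c => n258 (M.at_ a b c) a b c, fun h1 h2 h3 => (enc_norm (enc_sub (en3 _) ((R250 M).enc h1 h2 h3)))⟩

noncomputable def R259 (M : MolF) : Fn3 := ⟨_, fun a b c => n259 (M.at_ a b c) a b c, fun h1 h2 h3 => (enc_norm (enc_sub (en3 _) ((R251 M).enc h1 h2 h3)))⟩

noncomputable def R267 (M : MolF) : Fn3 := ⟨_, fun a b c => n267 (M.at_ a b c) a b c, fun h1 h2 h3 => (enc_norm (enc_mul (enc_norm (ek9 (enc_sub ((R258 M).enc h1 h2 h3) (ek2 ((R251 M).enc h1 h2 h3))))) ((R255 M).enc h1 h2 h3)))⟩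

noncomputable def R280 (M : MolF) : Fn3 := ⟨_, fun a b c => n280 (M.at_ a b c) a b c, fun h1 h2 h3 => (enc_norm (enc_mul (enc_norm (ek2 (enc_sub (enc_sub (enc_sub (enc_add (enc_add (en9 _) (ek6 ((R248 M).enc h1 h2 h3))) (ek3 ((R244 M).enc h1 h2 h3))) (enc_mul ((R251 M).enc h1 h2 h3) ((R248 M).enc h1 h2 h3))) (ek3 ((R250 M).enc h1 h2 h3))) (ek6 ((R251 M).enc h1 h2 h3))))) ((R255 M).enc h1 h2 h3)))⟩

noncomputable def R286 (M : MolF) : Fn3 := ⟨_, fun a b c => n286 (M.at_ a b c) a b c, fun h1 h2 h3 => (enc_norm (enc_sub (en1 _) ((R248 M).enc h1 h2 h3)))⟩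

noncomputable def R291 (M : MolF) : Fn3 := ⟨_, fun a b c => n291 (M.at_ a b c) a b c, fun h1 h2 h3 => (enc_inv (enc_mul (ek32 (enc_sq ((R286 M).enc h1 h2 h3))) (enc_norm (enc_sub (en1 _) ((R244 M).enc h1 h2 h3)))))⟩

noncomputable def R298 (M : MolF) : Fn3 := ⟨_, fun a b c => n298 (M.at_ a b c) a b c, fun h1 h2 h3 => (enc_sq h1)⟩

noncomputable def R372 (M : MolF) : Fn3 := ⟨_, fun a b c => n372 (M.at_ a b c) a b c, fun h1 h2 h3 => (enc_norm (enc_sub ((R3 M).enc h1 h2 h3) h2))⟩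

noncomputable def R376 (M : MolF) : Fn3 := ⟨_, fun a b c => n376 (M.at_ a b c) a b c, fun h1 h2 h3 => (enc_sqrt (enc_sub (en1 _) (es3_4 (enc_sq ((R372 M).enc h1 h2 h3)))))⟩

noncomputable def R381 (M : MolF) : Fn3 := ⟨_, fun a b c => n381 (M.at_ a b c) a b c, fun h1 h2 h3 => (enc_norm (enc_mul (enc_norm (es3_4 (enc_sub (ek2 ((R3 M).enc h1 h2 h3)) h2))) (enc_inv (enc_add ((R12 M).enc h1 h2 h3) ((R376 M).enc h1 h2 h3)))))⟩

noncomputable def R383 (M : MolF) : Fn3 := ⟨_, fun a b c => n383 (M.at_ a b c) a b c, fun h1 h2 h3 => (enc_inv ((R376 M).enc h1 h2 h3))⟩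

noncomputable def R386 (M : MolF) : Fn3 := ⟨_, fun a b c => n386 (M.at_ a b c) a b c, fun h1 h2 h3 => (enc_mul (enc_norm (enc_sub (enc_neg (en1 _)) (enc_mul ((R52 M).enc h1 h2 h3) ((R381 M).enc h1 h2 h3)))) ((R383 M).enc h1 h2 h3))⟩

noncomputable def R387 (M : MolF) : Fn3 := ⟨_, fun a b c => n387 (M.at_ a b c) a b c, fun h1 h2 h3 => (enc_mul ((R372 M).enc h1 h2 h3) ((R383 M).enc h1 h2 h3))⟩

noncomputable def R413 (M : MolF) : Fn3 := ⟨_, fun a b c => n413 (M.at_ a b c) a b c, fun h1 h2 h3 => (enc_norm (enc_add (M.p1.enc h1 h2 h3) (enc_sub (M.ws.enc h1 h2 h3) ((R381 M).enc h1 h2 h3))))⟩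

noncomputable def R414 (M : MolF) : Fn3 := ⟨_, fun a b c => 1 - n372 (M.at_ a b c) a b c, fun h1 h2 h3 => (enc_norm (enc_sub (en1 _) ((R372 M).enc h1 h2 h3)))⟩

noncomputable def R416 (M : MolF) : Fn3 := ⟨_, fun a b c => n416 (M.at_ a b c) a b c, fun h1 h2 h3 => (enc_norm (enc_sub (en1 _) ((R376 M).enc h1 h2 h3)))⟩

noncomputable def R419 (M : MolF) : Fn3 := ⟨_, fun a b c => n419 (M.at_ a b c) a b c, fun h1 h2 h3 => (enc_norm (enc_sub (ek2 ((R376 M).enc h1 h2 h3)) (en1 _)))⟩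

noncomputable def R425 (M : MolF) : Fn3 := ⟨_, fun a b c => n425 (M.at_ a b c) a b c, fun h1 h2 h3 => (enc_norm (enc_sub ((R372 M).enc h1 h2 h3) h3))⟩

noncomputable def R437 (M : MolF) : Fn3 := ⟨_, fun a b c => ((M.at_ a b c).sK) * (n413 (M.at_ a b c) a b c), fun h1 h2 h3 => (enc_norm (enc_mul (M.sK.enc h1 h2 h3) ((R413 M).enc h1 h2 h3)))⟩

noncomputable def R444 (M : MolF) : Fn3 := ⟨_, fun a b c => n444 (M.at_ a b c) a b c, fun h1 h2 h3 => (enc_norm (enc_mul (M.sX.enc h1 h2 h3) ((R413 M).enc h1 h2 h3)))⟩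

noncomputable def R445 (M : MolF) : Fn3 := ⟨_, fun a b c => n445 (M.at_ a b c) a b c, fun h1 h2 h3 => (enc_norm (enc_add (enc_sub (enc_sub (enc_mul ((R102 M).enc h1 h2 h3) (enc_norm (ek2 ((R381 M).enc h1 h2 h3)))) (enc_mul ((R381 M).enc h1 h2 h3) ((R419 M).enc h1 h2 h3))) (ek2 (enc_sub (enc_mul (enc_norm (enc_add (enc_mul (enc_norm (enc_sub ((R381 M).enc h1 h2 h3) (er1_2 _))) ((R84 M).enc h1 h2 h3)) ((R119 M).enc h1 h2 h3))) ((R425 M).enc h1 h2 h3)) ((R117 M).enc h1 h2 h3)))) ((R444 M).enc h1 h2 h3)))⟩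

noncomputable def R453 (M : MolF) : Fn3 := ⟨_, fun a b c => n453 (M.at_ a b c) a b c, fun h1 h2 h3 => (enc_norm (enc_add (enc_sub (M.l1.enc h1 h2 h3) ((R445 M).enc h1 h2 h3)) (M.xk.enc h1 h2 h3)))⟩

noncomputable def R599 (M : MolF) : Fn3 := ⟨_, fun a b c => n599 (M.at_ a b c) a b c, fun h1 h2 h3 => (enc_inv (enc_add (ek2 ((R8 M).enc h1 h2 h3)) (en3 _)))⟩

noncomputable def R601 (M : MolF) : Fn3 := ⟨_, fun a b c => n601 (M.at_ a b c) a b c, fun h1 h2 h3 => (enc_norm (enc_add (es1_2 h3) (er3_2 _)))⟩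

noncomputable def R609 (M : MolF) : Fn3 := ⟨_, fun a b c => n609 (M.at_ a b c) a b c, fun h1 h2 h3 => (enc_mul ((R3 M).enc h1 h2 h3) (M.l1.enc h1 h2 h3))⟩

noncomputable def R620 (M : MolF) : Fn3 := ⟨_, fun a b c => n620 (M.at_ a b c) a b c, fun h1 h2 h3 => (enc_add (enc_add (enc_sub (enc_mul ((R103 M).enc h1 h2 h3) ((R109 M).enc h1 h2 h3)) (ek2 (enc_mul (enc_norm (enc_mul (enc_norm (enc_sub (enc_add (es1_2 ((R30 M).enc h1 h2 h3)) ((R34 M).enc h1 h2 h3)) (en1 _))) ((R84 M).enc h1 h2 h3))) ((R116 M).enc h1 h2 h3)))) (enc_mul h2 ((R145 M).enc h1 h2 h3))) (enc_mul (enc_norm (enc_add (en1 _) ((R3 M).enc h1 h2 h3))) ((R146 M).enc h1 h2 h3)))⟩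

noncomputable def R628 (M : MolF) : Fn3 := ⟨_, fun a b c => n628 (M.at_ a b c) a b c, fun h1 h2 h3 => (enc_sub (enc_neg (enc_mul h2 (M.xk.enc h1 h2 h3))) (M.xk.enc h1 h2 h3))⟩

noncomputable def R644 (M : MolF) : Fn3 := ⟨_, fun a b c => n644 (M.at_ a b c) a b c, fun h1 h2 h3 => (enc_mul ((R155 M).enc h1 h2 h3) ((R601 M).enc h1 h2 h3))⟩

noncomputable def R647 (M : MolF) : Fn3 := ⟨_, fun a b c => n647 (M.at_ a b c) a b c, fun h1 h2 h3 => (enc_sub ((R644 M).enc h1 h2 h3) (es1_2 (enc_sub (enc_add ((R609 M).enc h1 h2 h3) (enc_sub (enc_neg (enc_mul h2 (M.xk.enc h1 h2 h3))) (enc_mul (enc_norm (enc_add (ek2 ((R3 M).enc h1 h2 h3)) (en1 _))) (M.xk.enc h1 h2 h3)))) ((R620 M).enc h1 h2 h3))))⟩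

noncomputable def R649 (M : MolF) : Fn3 := ⟨_, fun a b c => n649 (M.at_ a b c) a b c, fun h1 h2 h3 => (enc_sub (es1_2 (enc_sub (enc_add ((R628 M).enc h1 h2 h3) (enc_add (ek2 (enc_add (enc_sub (enc_mul ((R102 M).enc h1 h2 h3) ((R108 M).enc h1 h2 h3)) (ek2 (enc_mul ((R117 M).enc h1 h2 h3) h1))) (enc_mul h2 (M.l1.enc h1 h2 h3)))) (enc_mul (enc_norm (enc_add (en2 _) ((R3 M).enc h1 h2 h3))) (M.l1.enc h1 h2 h3)))) ((R620 M).enc h1 h2 h3))) ((R644 M).enc h1 h2 h3))⟩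

noncomputable def R662 (M : MolF) : Fn3 := ⟨_, fun a b c => n662 (M.at_ a b c) a b c, fun h1 h2 h3 => (enc_norm (enc_add (en1 _) (enc_mul ((R599 M).enc h1 h2 h3) (enc_norm (enc_add (es3_4 h3) (es3_2 (enc_sub (en1 _) ((R8 M).enc h1 h2 h3))))))))⟩

noncomputable def R669 (M : MolF) : Fn3 := ⟨_, fun a b c => n669 (M.at_ a b c) a b c, fun h1 h2 h3 => (enc_norm (enc_add (es3_4 ((R3 M).enc h1 h2 h3)) (es3_2 ((R102 M).enc h1 h2 h3))))⟩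

noncomputable def R670 (M : MolF) : Fn3 := ⟨_, fun a b c => n670 (M.at_ a b c) a b c, fun h1 h2 h3 => (enc_norm (enc_add (er3_4 _) (es3_2 ((R41 M).enc h1 h2 h3))))⟩

noncomputable def R671 (M : MolF) : Fn3 := ⟨_, fun a b c => n671 (M.at_ a b c) a b c, fun h1 h2 h3 => (enc_norm (enc_add (es3_4 ((R30 M).enc h1 h2 h3)) (es3_2 ((R103 M).enc h1 h2 h3))))⟩

noncomputable def R675 (M : MolF) : Fn3 := ⟨_, fun a b c => n675 (M.at_ a b c) a b c, fun h1 h2 h3 => (enc_norm (enc_add (es9_8 ((R52 M).enc h1 h2 h3)) (er3_4 _)))⟩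

noncomputable def R676 (M : MolF) : Fn3 := ⟨_, fun a b c => n676 (M.at_ a b c) a b c, fun h1 h2 h3 => (enc_norm (enc_add (es9_8 ((R57 M).enc h1 h2 h3)) (er3_4 _)))⟩

noncomputable def R684 (M : MolF) : Fn3 := ⟨_, fun a b c => n684 (M.at_ a b c) a b c, fun h1 h2 h3 => (enc_norm (enc_add (es3_4 ((R57 M).enc h1 h2 h3)) (er1_2 _)))⟩

noncomputable def R690 (M : MolF) : Fn3 := ⟨_, fun a b c => n690 (M.at_ a b c) a b c, fun h1 h2 h3 => (enc_add (enc_mul ((R12 M).enc h1 h2 h3) ((R675 M).enc h1 h2 h3)) (enc_mul ((R669 M).enc h1 h2 h3) (enc_norm (enc_add (es3_4 ((R52 M).enc h1 h2 h3)) (er1_2 _)))))⟩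

noncomputable def R699 (M : MolF) : Fn3 := ⟨_, fun a b c => n699 (M.at_ a b c) a b c, fun h1 h2 h3 => (enc_norm (enc_add ((R669 M).enc h1 h2 h3) (ek2 ((R12 M).enc h1 h2 h3))))⟩

noncomputable def R704 (M : MolF) : Fn3 := ⟨_, fun a b c => n704 (M.at_ a b c) a b c, fun h1 h2 h3 => (enc_norm (enc_sub ((R699 M).enc h1 h2 h3) (en1 _)))⟩

noncomputable def R717 (M : MolF) : Fn3 := ⟨_, fun a b c => ((M.at_ a b c).sD) * (n98 (M.at_ a b c) a b c), fun h1 h2 h3 => (enc_norm (enc_mul (M.sD.enc h1 h2 h3) ((R98 M).enc h1 h2 h3)))⟩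

noncomputable def R747 (M : MolF) : Fn3 := ⟨_, fun a b c => n747 (M.at_ a b c) a b c, fun h1 h2 h3 => (enc_norm (enc_add (enc_mul (M.rs.enc h1 h2 h3) ((R662 M).enc h1 h2 h3)) (enc_mul (M.k2.enc h1 h2 h3) ((R599 M).enc h1 h2 h3))))⟩

noncomputable def R748 (M : MolF) : Fn3 := ⟨_, fun a b c => n748 (M.at_ a b c) a b c, fun h1 h2 h3 => (enc_norm (enc_add (enc_mul ((R142 M).enc h1 h2 h3) ((R662 M).enc h1 h2 h3)) (enc_mul (enc_norm (enc_mul h2 (M.k2.enc h1 h2 h3))) ((R599 M).enc h1 h2 h3))))⟩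

noncomputable def R833 (M : MolF) : Fn3 := ⟨_, fun a b c => n833 (M.at_ a b c) a b c, fun h1 h2 h3 => (enc_norm (enc_mul ((R259 M).enc h1 h2 h3) ((R258 M).enc h1 h2 h3)))⟩

noncomputable def R981 (M : MolF) : Fn3 := ⟨_, fun a b c => n981 (M.at_ a b c) a b c, fun h1 h2 h3 => (enc_mul ((R453 M).enc h1 h2 h3) ((R601 M).enc h1 h2 h3))⟩

noncomputable def R984 (M : MolF) : Fn3 := ⟨_, fun a b c => n984 (M.at_ a b c) a b c, fun h1 h2 h3 => (enc_sub ((R981 M).enc h1 h2 h3) (es1_2 (enc_sub (enc_add ((R609 M).enc h1 h2 h3) (enc_sub (enc_neg (enc_add (enc_sub (enc_mul ((R416 M).enc h1 h2 h3) ((R419 M).enc h1 h2 h3)) (ek2 (enc_mul (enc_norm (enc_mul (enc_norm (enc_sub (enc_add (es1_2 ((R372 M).enc h1 h2 h3)) ((R376 M).enc h1 h2 h3)) (en1 _))) ((R84 M).enc h1 h2 h3))) ((R425 M).enc h1 h2 h3)))) (enc_mul h2 ((R444 M).enc h1 h2 h3)))) (enc_mul (enc_norm (enc_add (ek2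 ((R3 M).enc h1 h2 h3)) ((R169 M).enc h1 h2 h3))) ((R445 M).enc h1 h2 h3)))) ((R628 M).enc h1 h2 h3))))⟩

noncomputable def R986 (M : MolF) : Fn3 := ⟨_, fun a b c => n986 (M.at_ a b c) a b c, fun h1 h2 h3 => (enc_sub (es1_2 (enc_sub (enc_add (enc_sub (enc_neg (enc_add (enc_sub (enc_mul ((R416 M).enc h1 h2 h3) ((R419 M).enc h1 h2 h3)) (ek2 (enc_mul (enc_norm (enc_mul (enc_norm (enc_sub (enc_add (es1_2 ((R372 M).enc h1 h2 h3)) ((R376 M).enc h1 h2 h3)) (en1 _))) ((R84 M).enc h1 h2 h3))) ((R425 M).enc h1 h2 h3)))) (enc_mul h2 ((R444 M).enc h1 h2 h3)))) (enc_mul ((R169 M).enc h1 h2 h3) ((R445 M).enc h1 h2 h3))) (enc_add (ek2 (enc_add (enc_sub (enc_mul ((R102 M).enc h1 h2 h3) ((R108 M).enc h1 h2 h3)) (ek2 (enc_mul ((R117 M).enc h1 h2 h3) h1))) (enc_mul h2 (M.l1.enc h1 h2 h3)))) (enc_mul (enc_norm (enc_add (ek2 ((R169 M).enc h1 h2 h3)) ((R3 M).enc h1 h2 h3))) (M.l1.enc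 h1 h2 h3)))) ((R628 M).enc h1 h2 h3))) ((R981 M).enc h1 h2 h3))⟩

noncomputable def R996 (M : MolF) : Fn3 := ⟨_, fun a b c => n996 (M.at_ a b c) a b c, fun h1 h2 h3 => (enc_norm (enc_sub (enc_neg (er3_4 _)) (es3_2 ((R381 M).enc h1 h2 h3))))⟩

noncomputable def R997 (M : MolF) : Fn3 := ⟨_, fun a b c => n997 (M.at_ a b c) a b c, fun h1 h2 h3 => (enc_norm (enc_add (es3_4 ((R372 M).enc h1 h2 h3)) (es3_2 ((R416 M).enc h1 h2 h3))))⟩

noncomputable def R1000 (M : MolF) : Fn3 := ⟨_, fun a b c => n1000 (M.at_ a b c) a b c, fun h1 h2 h3 => (enc_norm (enc_add (es9_8 ((R387 M).enc h1 h2 h3)) (er3_4 _)))⟩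

noncomputable def R1005 (M : MolF) : Fn3 := ⟨_, fun a b c => n1005 (M.at_ a b c) a b c, fun h1 h2 h3 => (enc_norm (enc_add (es3_4 ((R387 M).enc h1 h2 h3)) (er1_2 _)))⟩

noncomputable def R1019 (M : MolF) : Fn3 := ⟨_, fun a b c => n1019 (M.at_ a b c) a b c, fun h1 h2 h3 => (enc_norm (enc_add ((R699 M).enc h1 h2 h3) (en1 _)))⟩

noncomputable def R1029 (M : MolF) : Fn3 := ⟨_, fun a b c => ((M.at_ a b c).sD) * (n413 (M.at_ a b c) a b c), fun h1 h2 h3 => (enc_norm (enc_mul (M.sD.enc h1 h2 h3) ((R413 M).enc h1 h2 h3)))⟩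

noncomputable def R2133 (M : MolF) : Fn3 := ⟨_, fun a b c => r2133 (M.at_ a b c) a b c, fun h1 h2 h3 => (enc_inv (enc_add (en1 _) ((R34 M).enc h1 h2 h3)))⟩

noncomputable def R2134 (M : MolF) : Fn3 := ⟨_, fun a b c => r2134 (M.at_ a b c) a b c, fun h1 h2 h3 => (enc_norm (enc_mul ((R3 M).enc h1 h2 h3) ((R247 M).enc h1 h2 h3)))⟩

noncomputable def R2138 (M : MolF) : Fn3 := ⟨_, fun a b c => r2138 (M.at_ a b c) a b c, fun h1 h2 h3 => (enc_norm (enc_sub (er1_2 _) (es3_4 (enc_mul h3 ((R243 M).enc h1 h2 h3)))))⟩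

noncomputable def R2140 (M : MolF) : Fn3 := ⟨_, fun a b c => r2140 (M.at_ a b c) a b c, fun h1 h2 h3 => (enc_norm (enc_sub (er1_2 _) (es3_4 ((R2134 M).enc h1 h2 h3))))⟩

noncomputable def R2150 (M : MolF) : Fn3 := ⟨_, fun a b c => r2150 (M.at_ a b c) a b c, fun h1 h2 h3 => (enc_inv (enc_sub (er1_2 _) (es3_4 (enc_mul ((R30 M).enc h1 h2 h3) ((R2133 M).enc h1 h2 h3)))))⟩

noncomputable def R2151 (M : MolF) : Fn3 := ⟨_, fun a b c => r2151 (M.at_ a b c) a b c, fun h1 h2 h3 => (enc_norm (enc_mul (enc_norm (enc_sub (er1_2 _) (es3_4 ((R52 M).enc h1 h2 h3)))) (enc_inv ((R2140 M).enc h1 h2 h3))))⟩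

noncomputable def R2152 (M : MolF) : Fn3 := ⟨_, fun a b c => r2152 (M.at_ a b c) a b c, fun h1 h2 h3 => (enc_norm (enc_mul (enc_norm (enc_sub (er1_2 _) (es3_4 ((R57 M).enc h1 h2 h3)))) ((R2150 M).enc h1 h2 h3)))⟩

noncomputable def R2159 (M : MolF) : Fn3 := ⟨_, fun a b c => r2159 (M.at_ a b c) a b c, fun h1 h2 h3 => (enc_norm (enc_add (enc_mul ((R12 M).enc h1 h2 h3) ((R2151 M).enc h1 h2 h3)) (enc_mul ((R3 M).enc h1 h2 h3) (M.dy.enc h1 h2 h3))))⟩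

noncomputable def R2166 (M : MolF) : Fn3 := ⟨_, fun a b c => r2166 (M.at_ a b c) a b c, fun h1 h2 h3 => (enc_norm (enc_add (enc_add (enc_mul (enc_norm (enc_sub ((R34 M).enc h1 h2 h3) (er1_2 _))) ((R2152 M).enc h1 h2 h3)) (enc_mul ((R30 M).enc h1 h2 h3) ((R84 M).enc h1 h2 h3))) (enc_mul h2 ((R135 M).enc h1 h2 h3))))⟩

noncomputable def R2174 (M : MolF) : Fn3 := ⟨_, fun a b c => r2174 (M.at_ a b c) a b c, fun h1 h2 h3 => (enc_norm (enc_add (enc_add (enc_sub (enc_mul (enc_norm (enc_sub ((R12 M).enc h1 h2 h3) (er1_2 _))) (enc_norm (enc_mul (enc_norm (enc_sub (enc_mul ((R2151 M).enc h1 h2 h3) (enc_norm (es3_4 (enc_mul (enc_norm (enc_add (en1 _) (enc_mul ((R2134 M).enc h1 h2 h3) ((R41 M).enc h1 h2 h3)))) ((R2133 M).enc h1 h2 h3))))) (es3_4 ((R56 M).enc h1 h2 h3)))) ((R2150 M).enc h1 h2 h3)))) (enc_mul ((R41 M).enc h1 h2 h3) ((R2152 M).enc h1 h2 h3))) (enc_add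 (M.dy.enc h1 h2 h3) (enc_mul ((R30 M).enc h1 h2 h3) (M.d1.enc h1 h2 h3)))) ((R135 M).enc h1 h2 h3)))⟩

noncomputable def R2178 (M : MolF) : Fn3 := ⟨_, fun a b c => r2178 (M.at_ a b c) a b c, fun h1 h2 h3 => (enc_norm (enc_add ((R2159 M).enc h1 h2 h3) (enc_mul h2 (M.q1.enc h1 h2 h3))))⟩

noncomputable def R2179 (M : MolF) : Fn3 := ⟨_, fun a b c => r2179 (M.at_ a b c) a b c, fun h1 h2 h3 => (enc_inv ((R30 M).enc h1 h2 h3))⟩

noncomputable def R2180 (M : MolF) : Fn3 := ⟨_, fun a b c => r2180 (M.at_ a b c) a b c, fun h1 h2 h3 => (enc_norm (enc_mul ((R2166 M).enc h1 h2 h3) ((R2179 M).enc h1 h2 h3)))⟩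

noncomputable def R2181 (M : MolF) : Fn3 := ⟨_, fun a b c => r2181 (M.at_ a b c) a b c, fun h1 h2 h3 => (enc_sub ((R2178 M).enc h1 h2 h3) ((R2166 M).enc h1 h2 h3))⟩

noncomputable def R2183 (M : MolF) : Fn3 := ⟨_, fun a b c => r2183 (M.at_ a b c) a b c, fun h1 h2 h3 => (enc_norm (enc_sub ((R142 M).enc h1 h2 h3) ((R2181 M).enc h1 h2 h3)))⟩

noncomputable def R2184 (M : MolF) : Fn3 := ⟨_, fun a b c => r2184 (M.at_ a b c) a b c, fun h1 h2 h3 => (enc_norm (enc_sub (M.rs.enc h1 h2 h3) (enc_sub (M.q1.enc h1 h2 h3) ((R2174 M).enc h1 h2 h3))))⟩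

noncomputable def R2185 (M : MolF) : Fn3 := ⟨_, fun a b c => r2185 (M.at_ a b c) a b c, fun h1 h2 h3 => (enc_norm (enc_sub (er1_2 _) (es1_2 ((R2151 M).enc h1 h2 h3))))⟩

noncomputable def R2186 (M : MolF) : Fn3 := ⟨_, fun a b c => r2186 (M.at_ a b c) a b c, fun h1 h2 h3 => (enc_mul h2 ((R2180 M).enc h1 h2 h3))⟩

noncomputable def R2189 (M : MolF) : Fn3 := ⟨_, fun a b c => r2189 (M.at_ a b c) a b c, fun h1 h2 h3 => (enc_norm (enc_add (enc_mul ((R3 M).enc h1 h2 h3) ((R142 M).enc h1 h2 h3)) (enc_mul h2 ((R2178 M).enc h1 h2 h3))))⟩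

noncomputable def R2190 (M : MolF) : Fn3 := ⟨_, fun a b c => r2190 (M.at_ a b c) a b c, fun h1 h2 h3 => (enc_mul ((R3 M).enc h1 h2 h3) (M.rs.enc h1 h2 h3))⟩

noncomputable def R2191 (M : MolF) : Fn3 := ⟨_, fun a b c => r2191 (M.at_ a b c) a b c, fun h1 h2 h3 => (enc_norm (enc_add ((R2190 M).enc h1 h2 h3) ((R2178 M).enc h1 h2 h3)))⟩

noncomputable def R2194 (M : MolF) : Fn3 := ⟨_, fun a b c => r2194 (M.at_ a b c) a b c, fun h1 h2 h3 => (enc_add (enc_add (enc_mul ((R3 M).enc h1 h2 h3) ((R2183 M).enc h1 h2 h3)) ((R2181 M).enc h1 h2 h3)) ((R2186 M).enc h1 h2 h3))⟩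

noncomputable def R2198 (M : MolF) : Fn3 := ⟨_, fun a b c => r2198 (M.at_ a b c) a b c, fun h1 h2 h3 => (enc_norm (enc_sub (en1 _) ((R30 M).enc h1 h2 h3)))⟩

noncomputable def R2199 (M : MolF) : Fn3 := ⟨_, fun a b c => r2199 (M.at_ a b c) a b c, fun h1 h2 h3 => (enc_norm (enc_mul ((R2198 M).enc h1 h2 h3) ((R2183 M).enc h1 h2 h3)))⟩

noncomputable def R2202 (M : MolF) : Fn3 := ⟨_, fun a b c => r2202 (M.at_ a b c) a b c, fun h1 h2 h3 => (enc_add ((R2194 M).enc h1 h2 h3) ((R2199 M).enc h1 h2 h3))⟩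

noncomputable def R2207 (M : MolF) : Fn3 := ⟨_, fun a b c => r2207 (M.at_ a b c) a b c, fun h1 h2 h3 => (enc_norm (enc_add ((R142 M).enc h1 h2 h3) ((R2186 M).enc h1 h2 h3)))⟩

noncomputable def R2213 (M : MolF) : Fn3 := ⟨_, fun a b c => r2213 (M.at_ a b c) a b c, fun h1 h2 h3 => (enc_mul ((R205 M).enc h1 h2 h3) ((R2191 M).enc h1 h2 h3))⟩

noncomputable def R2215 (M : MolF) : Fn3 := ⟨_, fun a b c => r2215 (M.at_ a b c) a b c, fun h1 h2 h3 => (enc_norm (enc_sub ((R2213 M).enc h1 h2 h3) (enc_mul h3 (enc_norm (enc_sub (enc_mul ((R2198 M).enc h1 h2 h3) (enc_norm (enc_add (M.rs.enc h1 h2 h3) ((R2180 M).enc h1 h2 h3)))) (er1_2 _))))))⟩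

noncomputable def R2217 (M : MolF) : Fn3 := ⟨_, fun a b c => r2217 (M.at_ a b c) a b c, fun h1 h2 h3 => (enc_norm (enc_add (es1_2 h1) (enc_mul h2 ((R2215 M).enc h1 h2 h3))))⟩

noncomputable def R2219 (M : MolF) : Fn3 := ⟨_, fun a b c => r2219 (M.at_ a b c) a b c, fun h1 h2 h3 => (enc_norm (enc_sub (es1_2 ((R2140 M).enc h1 h2 h3)) (es1_2 ((R2138 M).enc h1 h2 h3))))⟩

noncomputable def R2220 (M : MolF) : Fn3 := ⟨_, fun a b c => r2220 (M.at_ a b c) a b c, fun h1 h2 h3 => (enc_norm (enc_mul ((R3 M).enc h1 h2 h3) ((R2219 M).enc h1 h2 h3)))⟩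

noncomputable def R2221 (M : MolF) : Fn3 := ⟨_, fun a b c => r2221 (M.at_ a b c) a b c, fun h1 h2 h3 => (enc_mul ((R2138 M).enc h1 h2 h3) ((R2191 M).enc h1 h2 h3))⟩

noncomputable def R2222 (M : MolF) : Fn3 := ⟨_, fun a b c => r2222 (M.at_ a b c) a b c, fun h1 h2 h3 => (enc_norm (enc_sub (enc_sub (es1_2 (enc_add (enc_add ((R12 M).enc h1 h2 h3) (enc_mul (M.p1.enc h1 h2 h3) (enc_norm (enc_add (en1 _) h2)))) (enc_mul (M.ws.enc h1 h2 h3) ((R3 M).enc h1 h2 h3)))) (es1_2 (enc_abs ((R155 M).enc h1 h2 h3)))) ((R2221 M).enc h1 h2 h3)))⟩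

noncomputable def R2226 (M : MolF) : Fn3 := ⟨_, fun a b c => r2226 (M.at_ a b c) a b c, fun h1 h2 h3 => (enc_norm (enc_add ((R2217 M).enc h1 h2 h3) (enc_mul h3 ((R2199 M).enc h1 h2 h3))))⟩

noncomputable def R2234 (M : MolF) : Fn3 := ⟨_, fun a b c => r2234 (M.at_ a b c) a b c, fun h1 h2 h3 => (enc_mul ((R2220 M).enc h1 h2 h3) ((R2191 M).enc h1 h2 h3))⟩

noncomputable def R2237 (M : MolF) : Fn3 := ⟨_, fun a b c => r2237 (M.at_ a b c) a b c, fun h1 h2 h3 => (enc_norm (enc_add (enc_mul ((R2138 M).enc h1 h2 h3) (enc_norm (enc_add (enc_mul ((R2215 M).enc h1 h2 h3) ((R2226 M).enc h1 h2 h3)) (enc_mul (es1_2 h1) (enc_norm (enc_add ((R2215 M).enc h1 h2 h3) (enc_mul h3 (enc_norm (enc_sub (enc_mul ((R2198 M).enc h1 h2 h3) ((R2184 M).enc h1 h2 h3)) ((R2185 M).enc h1 h2 h3)))))))))) (enc_mul ((R205 M).enc h1 h2 h3) (enc_norm (enc_add (enc_mul ((R2222 M).enc h1 h2 h3)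 ((R2189 M).enc h1 h2 h3)) ((R2234 M).enc h1 h2 h3))))))⟩

noncomputable def R2238 (M : MolF) : Fn3 := ⟨_, fun a b c => r2238 (M.at_ a b c) a b c, fun h1 h2 h3 => (enc_norm (enc_mul ((R3 M).enc h1 h2 h3) ((R2179 M).enc h1 h2 h3)))⟩

noncomputable def R2248 (M : MolF) : Fn3 := ⟨_, fun a b c => r2248 (M.at_ a b c) a b c, fun h1 h2 h3 => (enc_norm (enc_add (enc_add (enc_mul ((R2138 M).enc h1 h2 h3) (enc_norm (enc_add (enc_mul ((R2184 M).enc h1 h2 h3) ((R2217 M).enc h1 h2 h3)) (enc_mul ((R2185 M).enc h1 h2 h3) ((R2215 M).enc h1 h2 h3))))) (enc_mul ((R2222 M).enc h1 h2 h3) ((R2207 M).enc h1 h2 h3))) (enc_mul ((R2219 M).enc h1 h2 h3) (enc_norm (enc_add ((R2190 M).enc h1 h2 h3) (enc_mul ((R2238 M).enc h1 h2 h3) ((R2166 M).enc h1 h2 h3)))))))⟩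

noncomputable def R2251 (M : MolF) : Fn3 := ⟨_, fun a b c => r2251 (M.at_ a b c) a b c, fun h1 h2 h3 => (enc_norm (enc_mul (enc_norm (enc_mul (enc_norm (enc_mul (enc_norm (enc_add (en3 _) (enc_sq ((R244 M).enc h1 h2 h3)))) ((R255 M).enc h1 h2 h3))) (enc_inv (enc_mul ((R258 M).enc h1 h2 h3) (enc_sq ((R259 M).enc h1 h2 h3)))))) (enc_norm (enc_mul ((R2138 M).enc h1 h2 h3) ((R2140 M).enc h1 h2 h3)))))⟩

noncomputable def R2257 (M : MolF) : Fn3 := ⟨_, fun a b c => r2257 (M.at_ a b c) a b c, fun h1 h2 h3 => (enc_norm (enc_mul ((R2251 M).enc h1 h2 h3) ((R3 M).enc h1 h2 h3)))⟩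

noncomputable def R2261 (M : MolF) : Fn3 := ⟨_, fun a b c => r2261 (M.at_ a b c) a b c, fun h1 h2 h3 => (enc_mul ((R298 M).enc h1 h2 h3) (enc_norm (es1_2 (enc_mul (enc_norm (es1_216 (enc_mul ((R2251 M).enc h1 h2 h3) (enc_norm (enc_mul ((R242 M).enc h1 h2 h3) (enc_sq ((R246 M).enc h1 h2 h3))))))) ((R267 M).enc h1 h2 h3)))))⟩

noncomputable def R2263 (M : MolF) : Fn3 := ⟨_, fun a b c => r2263 (M.at_ a b c) a b c, fun h1 h2 h3 => (enc_add ((R2261 M).enc h1 h2 h3) (enc_mul h2 ((R2237 M).enc h1 h2 h3)))⟩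

noncomputable def R2265 (M : MolF) : Fn3 := ⟨_, fun a b c => r2265 (M.at_ a b c) a b c, fun h1 h2 h3 => (enc_mul ((R298 M).enc h1 h2 h3) (enc_norm (es1_2 (enc_mul (enc_norm (enc_mul ((R2257 M).enc h1 h2 h3) ((R280 M).enc h1 h2 h3))) ((R291 M).enc h1 h2 h3)))))⟩

noncomputable def R2267 (M : MolF) : Fn3 := ⟨_, fun a b c => r2267 (M.at_ a b c) a b c, fun h1 h2 h3 => (enc_add ((R2265 M).enc h1 h2 h3) (enc_mul h2 ((R2248 M).enc h1 h2 h3)))⟩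

noncomputable def R2272 (M : MolF) : Fn3 := ⟨_, fun a b c => r2272 (M.at_ a b c) a b c, fun h1 h2 h3 => (enc_sub (enc_mul (enc_norm (enc_add ((R2220 M).enc h1 h2 h3) (enc_mul h2 ((R2222 M).enc h1 h2 h3)))) (enc_norm (enc_sub ((R2207 M).enc h1 h2 h3) ((R2183 M).enc h1 h2 h3)))) (enc_mul ((R2138 M).enc h1 h2 h3) (enc_norm (enc_mul ((R2183 M).enc h1 h2 h3) ((R2226 M).enc h1 h2 h3)))))⟩

noncomputable def R2276 (M : MolF) : Fn3 := ⟨_, fun a b c => r2276 (M.at_ a b c) a b c, fun h1 h2 h3 => (enc_inv ((R3 M).enc h1 h2 h3))⟩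

noncomputable def R2277 (M : MolF) : Fn3 := ⟨_, fun a b c => r2277 (M.at_ a b c) a b c, fun h1 h2 h3 => (enc_norm (enc_mul ((R2178 M).enc h1 h2 h3) ((R2276 M).enc h1 h2 h3)))⟩

noncomputable def R2278 (M : MolF) : Fn3 := ⟨_, fun a b c => r2278 (M.at_ a b c) a b c, fun h1 h2 h3 => (enc_mul h2 ((R2277 M).enc h1 h2 h3))⟩

noncomputable def R2284 (M : MolF) : Fn3 := ⟨_, fun a b c => r2284 (M.at_ a b c) a b c, fun h1 h2 h3 => (enc_norm (enc_add (enc_add (enc_mul ((R30 M).enc h1 h2 h3) (M.rs.enc h1 h2 h3)) ((R2166 M).enc h1 h2 h3)) (er1_2 _)))⟩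

noncomputable def R2287 (M : MolF) : Fn3 := ⟨_, fun a b c => r2287 (M.at_ a b c) a b c, fun h1 h2 h3 => (enc_add (enc_add (enc_mul ((R30 M).enc h1 h2 h3) ((R2183 M).enc h1 h2 h3)) ((R2181 M).enc h1 h2 h3)) ((R2278 M).enc h1 h2 h3))⟩

noncomputable def R2292 (M : MolF) : Fn3 := ⟨_, fun a b c => r2292 (M.at_ a b c) a b c, fun h1 h2 h3 => (enc_norm (enc_mul ((R169 M).enc h1 h2 h3) ((R2183 M).enc h1 h2 h3)))⟩

noncomputable def R2294 (M : MolF) : Fn3 := ⟨_, fun a b c => r2294 (M.at_ a b c) a b c, fun h1 h2 h3 => (enc_add ((R2287 M).enc h1 h2 h3) ((R2292 M).enc h1 h2 h3))⟩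

noncomputable def R2299 (M : MolF) : Fn3 := ⟨_, fun a b c => r2299 (M.at_ a b c) a b c, fun h1 h2 h3 => (enc_norm (enc_add ((R142 M).enc h1 h2 h3) ((R2278 M).enc h1 h2 h3)))⟩

noncomputable def R2304 (M : MolF) : Fn3 := ⟨_, fun a b c => r2304 (M.at_ a b c) a b c, fun h1 h2 h3 => (enc_mul h3 (enc_norm (enc_mul ((R169 M).enc h1 h2 h3) (enc_norm (enc_add (M.rs.enc h1 h2 h3) ((R2277 M).enc h1 h2 h3))))))⟩

noncomputable def R2305 (M : MolF) : Fn3 := ⟨_, fun a b c => r2305 (M.at_ a b c) a b c, fun h1 h2 h3 => (enc_norm (enc_sub (enc_mul ((R205 M).enc h1 h2 h3) ((R2284 M).enc h1 h2 h3)) ((R2304 M).enc h1 h2 h3)))⟩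

noncomputable def R2307 (M : MolF) : Fn3 := ⟨_, fun a b c => r2307 (M.at_ a b c) a b c, fun h1 h2 h3 => (enc_norm (enc_add (es1_2 h1) (enc_mul h2 ((R2305 M).enc h1 h2 h3))))⟩

noncomputable def R2309 (M : MolF) : Fn3 := ⟨_, fun a b c => r2309 (M.at_ a b c) a b c, fun h1 h2 h3 => (enc_norm (enc_sub (enc_add (es1_2 (enc_add (enc_add ((R12 M).enc h1 h2 h3) (enc_mul (M.p1.enc h1 h2 h3) (enc_norm (enc_add (en1 _) h2)))) (enc_mul (M.ws.enc h1 h2 h3) ((R3 M).enc h1 h2 h3)))) (es1_2 (enc_abs ((R155 M).enc h1 h2 h3)))) (enc_mul ((R2138 M).enc h1 h2 h3) ((R2284 M).enc h1 h2 h3))))⟩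

noncomputable def R2313 (M : MolF) : Fn3 := ⟨_, fun a b c => r2313 (M.at_ a b c) a b c, fun h1 h2 h3 => (enc_norm (enc_add ((R2307 M).enc h1 h2 h3) (enc_mul h3 ((R2292 M).enc h1 h2 h3))))⟩

noncomputable def R2324 (M : MolF) : Fn3 := ⟨_, fun a b c => r2324 (M.at_ a b c) a b c, fun h1 h2 h3 => (enc_norm (enc_add (enc_mul ((R2138 M).enc h1 h2 h3) (enc_norm (enc_add (enc_mul ((R2305 M).enc h1 h2 h3) ((R2313 M).enc h1 h2 h3)) (enc_mul (es1_2 h1) (enc_norm (enc_add ((R2305 M).enc h1 h2 h3) (enc_mul h3 (enc_norm (enc_mul ((R169 M).enc h1 h2 h3) ((R2184 M).enc h1 h2 h3)))))))))) (enc_mul ((R205 M).enc h1 h2 h3) (enc_norm (enc_add (enc_mul ((R2309 M).enc h1 h2 h3) (enc_norm (enc_add (enc_mul ((R30 M).enc h1 h2 h3) ((R142 M).enc h1 h2 h3)) (enc_mul h2 ((R2166 M).enc h1 h2 h3))))) (enc_mul ((R2220 M).enc h1 h2 h3) ((R2284 M).enc h1 h2 h3)))))))⟩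

noncomputable def R2331 (M : MolF) : Fn3 := ⟨_, fun a b c => r2331 (M.at_ a b c) a b c, fun h1 h2 h3 => (enc_mul ((R2219 M).enc h1 h2 h3) ((R2191 M).enc h1 h2 h3))⟩

noncomputable def R2332 (M : MolF) : Fn3 := ⟨_, fun a b c => r2332 (M.at_ a b c) a b c, fun h1 h2 h3 => (enc_norm (enc_add (enc_add (enc_mul ((R2138 M).enc h1 h2 h3) (enc_norm (enc_add (enc_mul ((R2184 M).enc h1 h2 h3) ((R2307 M).enc h1 h2 h3)) (enc_mul ((R2185 M).enc h1 h2 h3) ((R2305 M).enc h1 h2 h3))))) (enc_mul ((R2309 M).enc h1 h2 h3) ((R2299 M).enc h1 h2 h3))) ((R2331 M).enc h1 h2 h3)))⟩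

noncomputable def R2334 (M : MolF) : Fn3 := ⟨_, fun a b c => r2334 (M.at_ a b c) a b c, fun h1 h2 h3 => (enc_add ((R2261 M).enc h1 h2 h3) (enc_mul h2 ((R2324 M).enc h1 h2 h3)))⟩

noncomputable def R2336 (M : MolF) : Fn3 := ⟨_, fun a b c => r2336 (M.at_ a b c) a b c, fun h1 h2 h3 => (enc_add ((R2265 M).enc h1 h2 h3) (enc_mul h2 ((R2332 M).enc h1 h2 h3)))⟩

noncomputable def R2343 (M : MolF) : Fn3 := ⟨_, fun a b c => r2343 (M.at_ a b c) a b c, fun h1 h2 h3 => (enc_sub (enc_mul (enc_norm (enc_add ((R2220 M).enc h1 h2 h3) (enc_mul h2 ((R2309 M).enc h1 h2 h3)))) (enc_norm (enc_sub ((R2299 M).enc h1 h2 h3) ((R2183 M).enc h1 h2 h3)))) (enc_mul ((R2138 M).enc h1 h2 h3) (enc_norm (enc_mul ((R2183 M).enc h1 h2 h3) ((R2313 M).enc h1 h2 h3)))))⟩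

noncomputable def R2347 (M : MolF) : Fn3 := ⟨_, fun a b c => r2347 (M.at_ a b c) a b c, fun h1 h2 h3 => (enc_inv (enc_add (en1 _) ((R376 M).enc h1 h2 h3)))⟩

noncomputable def R2355 (M : MolF) : Fn3 := ⟨_, fun a b c => r2355 (M.at_ a b c) a b c, fun h1 h2 h3 => (enc_inv (enc_sub (er1_2 _) (es3_4 (enc_mul ((R372 M).enc h1 h2 h3) ((R2347 M).enc h1 h2 h3)))))⟩

noncomputable def R2356 (M : MolF) : Fn3 := ⟨_, fun a b c => r2356 (M.at_ a b c) a b c, fun h1 h2 h3 => (enc_norm (enc_mul (enc_norm (enc_sub (er1_2 _) (es3_4 ((R387 M).enc h1 h2 h3)))) ((R2355 M).enc h1 h2 h3)))⟩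

noncomputable def R2366 (M : MolF) : Fn3 := ⟨_, fun a b c => r2366 (M.at_ a b c) a b c, fun h1 h2 h3 => (enc_norm (enc_add (enc_add (enc_mul (enc_norm (enc_add ((R376 M).enc h1 h2 h3) (er1_2 _))) ((R2356 M).enc h1 h2 h3)) (enc_mul ((R372 M).enc h1 h2 h3) ((R84 M).enc h1 h2 h3))) (enc_mul h2 ((R437 M).enc h1 h2 h3))))⟩

noncomputable def R2373 (M : MolF) : Fn3 := ⟨_, fun a b c => r2373 (M.at_ a b c) a b c, fun h1 h2 h3 => (enc_norm (enc_add (enc_add (enc_add (enc_mul (enc_norm (enc_add ((R12 M).enc h1 h2 h3) (er1_2 _))) (enc_norm (enc_mul (enc_norm (enc_sub (enc_neg (es3_4 ((R386 M).enc h1 h2 h3))) (enc_mul ((R2151 M).enc h1 h2 h3) (enc_norm (es3_4 (enc_mul (enc_norm (enc_add (en1 _) (enc_mul ((R2134 M).enc h1 h2 h3) ((R381 M).enc h1 h2 h3)))) ((R2347 M).enc h1 h2 h3))))))) ((R2355 M).enc h1 h2 h3)))) (enc_mul ((R381 M).enc h1 h2 h3) ((R2356 M).enc h1 h2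 h3))) (enc_sub (enc_mul ((R372 M).enc h1 h2 h3) (M.d1.enc h1 h2 h3)) (M.dy.enc h1 h2 h3))) ((R437 M).enc h1 h2 h3)))⟩

noncomputable def R2374 (M : MolF) : Fn3 := ⟨_, fun a b c => r2374 (M.at_ a b c) a b c, fun h1 h2 h3 => (enc_sub ((R2366 M).enc h1 h2 h3) ((R2178 M).enc h1 h2 h3))⟩

noncomputable def R2376 (M : MolF) : Fn3 := ⟨_, fun a b c => r2376 (M.at_ a b c) a b c, fun h1 h2 h3 => (enc_norm (enc_sub ((R142 M).enc h1 h2 h3) ((R2374 M).enc h1 h2 h3)))⟩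

noncomputable def R2377 (M : MolF) : Fn3 := ⟨_, fun a b c => r2377 (M.at_ a b c) a b c, fun h1 h2 h3 => (enc_norm (enc_sub (M.rs.enc h1 h2 h3) (enc_sub ((R2373 M).enc h1 h2 h3) (M.q1.enc h1 h2 h3))))⟩

noncomputable def R2383 (M : MolF) : Fn3 := ⟨_, fun a b c => r2383 (M.at_ a b c) a b c, fun h1 h2 h3 => (enc_norm (enc_sub (enc_add (enc_mul ((R372 M).enc h1 h2 h3) (M.rs.enc h1 h2 h3)) ((R2366 M).enc h1 h2 h3)) (er1_2 _)))⟩

noncomputable def R2386 (M : MolF) : Fn3 := ⟨_, fun a b c => r2386 (M.at_ a b c) a b c, fun h1 h2 h3 => (enc_add (enc_add (enc_mul ((R372 M).enc h1 h2 h3) ((R2376 M).enc h1 h2 h3)) ((R2374 M).enc h1 h2 h3)) ((R2278 M).enc h1 h2 h3))⟩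

noncomputable def R2391 (M : MolF) : Fn3 := ⟨_, fun a b c => r2391 (M.at_ a b c) a b c, fun h1 h2 h3 => (enc_norm (enc_mul ((R169 M).enc h1 h2 h3) ((R2376 M).enc h1 h2 h3)))⟩

noncomputable def R2393 (M : MolF) : Fn3 := ⟨_, fun a b c => r2393 (M.at_ a b c) a b c, fun h1 h2 h3 => (enc_add ((R2386 M).enc h1 h2 h3) ((R2391 M).enc h1 h2 h3))⟩

noncomputable def R2399 (M : MolF) : Fn3 := ⟨_, fun a b c => r2399 (M.at_ a b c) a b c, fun h1 h2 h3 => (enc_norm (enc_sub (enc_mul ((R205 M).enc h1 h2 h3) ((R2383 M).enc h1 h2 h3)) ((R2304 M).enc h1 h2 h3)))⟩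

noncomputable def R2401 (M : MolF) : Fn3 := ⟨_, fun a b c => r2401 (M.at_ a b c) a b c, fun h1 h2 h3 => (enc_norm (enc_add (es1_2 h1) (enc_mul h2 ((R2399 M).enc h1 h2 h3))))⟩

noncomputable def R2403 (M : MolF) : Fn3 := ⟨_, fun a b c => r2403 (M.at_ a b c) a b c, fun h1 h2 h3 => (enc_norm (enc_sub (enc_sub (es1_2 (enc_add (enc_add ((R12 M).enc h1 h2 h3) (enc_mul (M.p1.enc h1 h2 h3) (enc_norm (enc_add (en1 _) h2)))) (enc_mul (M.ws.enc h1 h2 h3) ((R3 M).enc h1 h2 h3)))) (es1_2 (enc_abs ((R453 M).enc h1 h2 h3)))) (enc_mul ((R2138 M).enc h1 h2 h3) ((R2383 M).enc h1 h2 h3))))⟩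

noncomputable def R2407 (M : MolF) : Fn3 := ⟨_, fun a b c => r2407 (M.at_ a b c) a b c, fun h1 h2 h3 => (enc_norm (enc_add ((R2401 M).enc h1 h2 h3) (enc_mul h3 ((R2391 M).enc h1 h2 h3))))⟩

noncomputable def R2418 (M : MolF) : Fn3 := ⟨_, fun a b c => r2418 (M.at_ a b c) a b c, fun h1 h2 h3 => (enc_norm (enc_add (enc_mul ((R2138 M).enc h1 h2 h3) (enc_norm (enc_add (enc_mul ((R2399 M).enc h1 h2 h3) ((R2407 M).enc h1 h2 h3)) (enc_mul (es1_2 h1) (enc_norm (enc_add ((R2399 M).enc h1 h2 h3) (enc_mul h3 (enc_norm (enc_mul ((R169 M).enc h1 h2 h3) ((R2377 M).enc h1 h2 h3)))))))))) (enc_mul ((R205 M).enc h1 h2 h3) (enc_norm (enc_add (enc_mul ((R2403 M).enc h1 h2 h3) (enc_norm (enc_add (enc_mul ((R372 M).enc h1 h2 h3) ((R142 M).enc h1 h2 h3)) (enc_mul h2 ((R2366 M).enc h1 h2 h3))))) (enc_mul ((R2220 M).enc h1 h2 h3) ((R2383 M).enc h1 h2 h3)))))))⟩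

noncomputable def R2425 (M : MolF) : Fn3 := ⟨_, fun a b c => r2425 (M.at_ a b c) a b c, fun h1 h2 h3 => (enc_norm (enc_add (enc_add (enc_mul ((R2138 M).enc h1 h2 h3) (enc_norm (enc_add (enc_mul ((R2377 M).enc h1 h2 h3) ((R2401 M).enc h1 h2 h3)) (enc_mul ((R2185 M).enc h1 h2 h3) ((R2399 M).enc h1 h2 h3))))) (enc_mul ((R2403 M).enc h1 h2 h3) ((R2299 M).enc h1 h2 h3))) ((R2331 M).enc h1 h2 h3)))⟩

noncomputable def R2427 (M : MolF) : Fn3 := ⟨_, fun a b c => r2427 (M.at_ a b c) a b c, fun h1 h2 h3 => (enc_add ((R2261 M).enc h1 h2 h3) (enc_mul h2 ((R2418 M).enc h1 h2 h3)))⟩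

noncomputable def R2429 (M : MolF) : Fn3 := ⟨_, fun a b c => r2429 (M.at_ a b c) a b c, fun h1 h2 h3 => (enc_add ((R2265 M).enc h1 h2 h3) (enc_mul h2 ((R2425 M).enc h1 h2 h3)))⟩

noncomputable def R2434 (M : MolF) : Fn3 := ⟨_, fun a b c => r2434 (M.at_ a b c) a b c, fun h1 h2 h3 => (enc_sub (enc_mul (enc_norm (enc_add ((R2220 M).enc h1 h2 h3) (enc_mul h2 ((R2403 M).enc h1 h2 h3)))) (enc_norm (enc_sub ((R2299 M).enc h1 h2 h3) ((R2376 M).enc h1 h2 h3)))) (enc_mul ((R2138 M).enc h1 h2 h3) (enc_norm (enc_mul ((R2376 M).enc h1 h2 h3) ((R2407 M).enc h1 h2 h3)))))⟩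

noncomputable def R2438 (M : MolF) : Fn3 := ⟨_, fun a b c => r2438 (M.at_ a b c) a b c, fun h1 h2 h3 => (enc_inv ((R372 M).enc h1 h2 h3))⟩

noncomputable def R2439 (M : MolF) : Fn3 := ⟨_, fun a b c => r2439 (M.at_ a b c) a b c, fun h1 h2 h3 => (enc_norm (enc_mul ((R2366 M).enc h1 h2 h3) ((R2438 M).enc h1 h2 h3)))⟩

noncomputable def R2440 (M : MolF) : Fn3 := ⟨_, fun a b c => r2440 (M.at_ a b c) a b c, fun h1 h2 h3 => (enc_mul h2 ((R2439 M).enc h1 h2 h3))⟩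

noncomputable def R2443 (M : MolF) : Fn3 := ⟨_, fun a b c => r2443 (M.at_ a b c) a b c, fun h1 h2 h3 => (enc_add (enc_add (enc_mul ((R3 M).enc h1 h2 h3) ((R2376 M).enc h1 h2 h3)) ((R2374 M).enc h1 h2 h3)) ((R2440 M).enc h1 h2 h3))⟩

noncomputable def R2447 (M : MolF) : Fn3 := ⟨_, fun a b c => r2447 (M.at_ a b c) a b c, fun h1 h2 h3 => (enc_norm (enc_mul ((R414 M).enc h1 h2 h3) ((R2376 M).enc h1 h2 h3)))⟩

noncomputable def R2450 (M : MolF) : Fn3 := ⟨_, fun a b c => r2450 (M.at_ a b c) a b c, fun h1 h2 h3 => (enc_add ((R2443 M).enc h1 h2 h3) ((R2447 M).enc h1 h2 h3))⟩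

noncomputable def R2455 (M : MolF) : Fn3 := ⟨_, fun a b c => r2455 (M.at_ a b c) a b c, fun h1 h2 h3 => (enc_norm (enc_add ((R142 M).enc h1 h2 h3) ((R2440 M).enc h1 h2 h3)))⟩

noncomputable def R2461 (M : MolF) : Fn3 := ⟨_, fun a b c => r2461 (M.at_ a b c) a b c, fun h1 h2 h3 => (enc_norm (enc_sub ((R2213 M).enc h1 h2 h3) (enc_mul h3 (enc_norm (enc_add (enc_mul ((R414 M).enc h1 h2 h3) (enc_norm (enc_add (M.rs.enc h1 h2 h3) ((R2439 M).enc h1 h2 h3)))) (er1_2 _))))))⟩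

noncomputable def R2463 (M : MolF) : Fn3 := ⟨_, fun a b c => r2463 (M.at_ a b c) a b c, fun h1 h2 h3 => (enc_norm (enc_add (es1_2 h1) (enc_mul h2 ((R2461 M).enc h1 h2 h3))))⟩

noncomputable def R2464 (M : MolF) : Fn3 := ⟨_, fun a b c => r2464 (M.at_ a b c) a b c, fun h1 h2 h3 => (enc_norm (enc_sub (enc_add (es1_2 (enc_add (enc_add ((R12 M).enc h1 h2 h3) (enc_mul (M.p1.enc h1 h2 h3) (enc_norm (enc_add (en1 _) h2)))) (enc_mul (M.ws.enc h1 h2 h3) ((R3 M).enc h1 h2 h3)))) (es1_2 (enc_abs ((R453 M).enc h1 h2 h3)))) ((R2221 M).enc h1 h2 h3)))⟩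

noncomputable def R2468 (M : MolF) : Fn3 := ⟨_, fun a b c => r2468 (M.at_ a b c) a b c, fun h1 h2 h3 => (enc_norm (enc_add ((R2463 M).enc h1 h2 h3) (enc_mul h3 ((R2447 M).enc h1 h2 h3))))⟩

noncomputable def R2478 (M : MolF) : Fn3 := ⟨_, fun a b c => r2478 (M.at_ a b c) a b c, fun h1 h2 h3 => (enc_norm (enc_add (enc_mul ((R2138 M).enc h1 h2 h3) (enc_norm (enc_add (enc_mul ((R2461 M).enc h1 h2 h3) ((R2468 M).enc h1 h2 h3)) (enc_mul (es1_2 h1) (enc_norm (enc_add ((R2461 M).enc h1 h2 h3) (enc_mul h3 (enc_norm (enc_add (enc_mul ((R414 M).enc h1 h2 h3) ((R2377 M).enc h1 h2 h3)) ((R2185 M).enc h1 h2 h3)))))))))) (enc_mul ((R205 M).enc h1 h2 h3) (enc_norm (enc_add (enc_mul ((R2464 M).enc h1 h2 h3) ((R2189 M).enc h1 h2 h3)) ((R2234 M).enc h1 h2 h3))))))⟩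

noncomputable def R2479 (M : MolF) : Fn3 := ⟨_, fun a b c => r2479 (M.at_ a b c) a b c, fun h1 h2 h3 => (enc_norm (enc_mul ((R3 M).enc h1 h2 h3) ((R2438 M).enc h1 h2 h3)))⟩

noncomputable def R2489 (M : MolF) : Fn3 := ⟨_, fun a b c => r2489 (M.at_ a b c) a b c, fun h1 h2 h3 => (enc_norm (enc_add (enc_add (enc_mul ((R2138 M).enc h1 h2 h3) (enc_norm (enc_add (enc_mul ((R2377 M).enc h1 h2 h3) ((R2463 M).enc h1 h2 h3)) (enc_mul ((R2185 M).enc h1 h2 h3) ((R2461 M).enc h1 h2 h3))))) (enc_mul ((R2464 M).enc h1 h2 h3) ((R2455 M).enc h1 h2 h3))) (enc_mul ((R2219 M).enc h1 h2 h3) (enc_norm (enc_add ((R2190 M).enc h1 h2 h3) (enc_mul ((R2479 M).enc h1 h2 h3) ((R2366 M).enc h1 h2 h3)))))))⟩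

noncomputable def R2491 (M : MolF) : Fn3 := ⟨_, fun a b c => r2491 (M.at_ a b c) a b c, fun h1 h2 h3 => (enc_add ((R2261 M).enc h1 h2 h3) (enc_mul h2 ((R2478 M).enc h1 h2 h3)))⟩

noncomputable def R2493 (M : MolF) : Fn3 := ⟨_, fun a b c => r2493 (M.at_ a b c) a b c, fun h1 h2 h3 => (enc_add ((R2265 M).enc h1 h2 h3) (enc_mul h2 ((R2489 M).enc h1 h2 h3)))⟩

noncomputable def R2500 (M : MolF) : Fn3 := ⟨_, fun a b c => r2500 (M.at_ a b c) a b c, fun h1 h2 h3 => (enc_sub (enc_mul (enc_norm (enc_add ((R2220 M).enc h1 h2 h3) (enc_mul h2 ((R2464 M).enc h1 h2 h3)))) (enc_norm (enc_sub ((R2455 M).enc h1 h2 h3) ((R2376 M).enc h1 h2 h3)))) (enc_mul ((R2138 M).enc h1 h2 h3) (enc_norm (enc_mul ((R2376 M).enc h1 h2 h3) ((R2468 M).enc h1 h2 h3)))))⟩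

noncomputable def R2516 (M : MolF) : Fn3 := ⟨_, fun a b c => r2516 (M.at_ a b c) a b c, fun h1 h2 h3 => (enc_norm (enc_add (enc_mul ((R662 M).enc h1 h2 h3) ((R2166 M).enc h1 h2 h3)) (enc_mul ((R599 M).enc h1 h2 h3) (enc_norm (enc_add (enc_mul ((R30 M).enc h1 h2 h3) (enc_norm (enc_sub (enc_sub (enc_add (enc_mul ((R34 M).enc h1 h2 h3) ((R676 M).enc h1 h2 h3)) (enc_mul ((R671 M).enc h1 h2 h3) ((R684 M).enc h1 h2 h3))) (es1_2 ((R676 M).enc h1 h2 h3))) (enc_mul (enc_norm (enc_sub (enc_add ((R671 M).enc h1 h2 h3) (ek2 ((R34 M).enc h1 h2 h3))) (en1 _))) ((R84 M).enc h1 h2 h3))))) (enc_mul h2 ((R717 M).enc h1 h2 h3)))))))⟩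

noncomputable def R2525 (M : MolF) : Fn3 := ⟨_, fun a b c => r2525 (M.at_ a b c) a b c, fun h1 h2 h3 => (enc_norm (enc_add (enc_mul ((R662 M).enc h1 h2 h3) (M.q1.enc h1 h2 h3)) (enc_mul ((R599 M).enc h1 h2 h3) (M.m1.enc h1 h2 h3))))⟩

noncomputable def R2540 (M : MolF) : Fn3 := ⟨_, fun a b c => r2540 (M.at_ a b c) a b c, fun h1 h2 h3 => (enc_norm (enc_add (enc_add (enc_mul ((R662 M).enc h1 h2 h3) ((R2159 M).enc h1 h2 h3)) (enc_mul ((R599 M).enc h1 h2 h3) (enc_norm (enc_mul ((R3 M).enc h1 h2 h3) (enc_norm (enc_sub ((R690 M).enc h1 h2 h3) (enc_mul ((R699 M).enc h1 h2 h3) (M.dy.enc h1 h2 h3)))))))) (enc_mul h2 ((R2525 M).enc h1 h2 h3))))⟩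

noncomputable def R2541 (M : MolF) : Fn3 := ⟨_, fun a b c => r2541 (M.at_ a b c) a b c, fun h1 h2 h3 => (enc_norm (enc_mul ((R2516 M).enc h1 h2 h3) ((R2179 M).enc h1 h2 h3)))⟩

noncomputable def R2542 (M : MolF) : Fn3 := ⟨_, fun a b c => r2542 (M.at_ a b c) a b c, fun h1 h2 h3 => (enc_sub ((R2540 M).enc h1 h2 h3) ((R2516 M).enc h1 h2 h3))⟩

noncomputable def R2544 (M : MolF) : Fn3 := ⟨_, fun a b c => r2544 (M.at_ a b c) a b c, fun h1 h2 h3 => (enc_norm (enc_sub ((R748 M).enc h1 h2 h3) ((R2542 M).enc h1 h2 h3)))⟩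

noncomputable def R2545 (M : MolF) : Fn3 := ⟨_, fun a b c => r2545 (M.at_ a b c) a b c, fun h1 h2 h3 => (enc_norm (enc_sub ((R747 M).enc h1 h2 h3) (enc_sub ((R2525 M).enc h1 h2 h3) (enc_add (enc_mul ((R662 M).enc h1 h2 h3) ((R2174 M).enc h1 h2 h3)) (enc_mul ((R599 M).enc h1 h2 h3) (enc_norm (enc_add (enc_add (enc_sub (enc_sub ((R690 M).enc h1 h2 h3) (es1_2 ((R675 M).enc h1 h2 h3))) (enc_mul ((R704 M).enc h1 h2 h3) (M.dy.enc h1 h2 h3))) (enc_mul ((R30 M).enc h1 h2 h3) (enc_norm (enc_sub (enc_sub (enc_add (enc_sub (enc_mul ((R12 M).enc h1 h2 h3) (enc_norm (es9_8 ((R56 M).enc h1 h2 h3)))) (enc_mul ((R41 M).enc h1 h2 h3) ((R676 M).enc h1 h2 h3))) (enc_add (enc_mul ((R670 M).enc h1 h2 h3) ((R684 M).enc h1 h2 h3)) (enc_mul ((R669 M).enc h1 h2 h3) (enc_norm (es3_4 ((R56 M).enc h1 h2 h3)))))) (es9_16 ((R56 M).enc h1 h2 h3))) (enc_add (enc_mul (enc_norm (enc_sub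 ((R670 M).enc h1 h2 h3) (ek2 ((R41 M).enc h1 h2 h3)))) ((R84 M).enc h1 h2 h3)) (enc_mul ((R704 M).enc h1 h2 h3) (M.d1.enc h1 h2 h3))))))) ((R717 M).enc h1 h2 h3))))))))⟩

noncomputable def R2546 (M : MolF) : Fn3 := ⟨_, fun a b c => r2546 (M.at_ a b c) a b c, fun h1 h2 h3 => (enc_norm (enc_sub (es1_2 ((R662 M).enc h1 h2 h3)) (enc_add (enc_mul ((R662 M).enc h1 h2 h3) (enc_norm (es1_2 ((R2151 M).enc h1 h2 h3)))) (enc_mul ((R599 M).enc h1 h2 h3) (enc_norm (enc_mul ((R3 M).enc h1 h2 h3) (enc_norm (enc_sub (es1_2 ((R675 M).enc h1 h2 h3)) (M.dy.enc h1 h2 h3)))))))))⟩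

noncomputable def R2547 (M : MolF) : Fn3 := ⟨_, fun a b c => r2547 (M.at_ a b c) a b c, fun h1 h2 h3 => (enc_mul h2 ((R2541 M).enc h1 h2 h3))⟩

noncomputable def R2550 (M : MolF) : Fn3 := ⟨_, fun a b c => r2550 (M.at_ a b c) a b c, fun h1 h2 h3 => (enc_norm (enc_add (enc_mul ((R3 M).enc h1 h2 h3) ((R748 M).enc h1 h2 h3)) (enc_mul h2 ((R2540 M).enc h1 h2 h3))))⟩

noncomputable def R2551 (M : MolF) : Fn3 := ⟨_, fun a b c => r2551 (M.at_ a b c) a b c, fun h1 h2 h3 => (enc_mul ((R3 M).enc h1 h2 h3) ((R747 M).enc h1 h2 h3))⟩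

noncomputable def R2552 (M : MolF) : Fn3 := ⟨_, fun a b c => r2552 (M.at_ a b c) a b c, fun h1 h2 h3 => (enc_norm (enc_add ((R2551 M).enc h1 h2 h3) ((R2540 M).enc h1 h2 h3)))⟩

noncomputable def R2555 (M : MolF) : Fn3 := ⟨_, fun a b c => r2555 (M.at_ a b c) a b c, fun h1 h2 h3 => (enc_add (enc_add (enc_mul ((R3 M).enc h1 h2 h3) ((R2544 M).enc h1 h2 h3)) ((R2542 M).enc h1 h2 h3)) ((R2547 M).enc h1 h2 h3))⟩

noncomputable def R2559 (M : MolF) : Fn3 := ⟨_, fun a b c => r2559 (M.at_ a b c) a b c, fun h1 h2 h3 => (enc_norm (enc_mul ((R2198 M).enc h1 h2 h3) ((R2544 M).enc h1 h2 h3)))⟩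

noncomputable def R2562 (M : MolF) : Fn3 := ⟨_, fun a b c => r2562 (M.at_ a b c) a b c, fun h1 h2 h3 => (enc_add ((R2555 M).enc h1 h2 h3) ((R2559 M).enc h1 h2 h3))⟩

noncomputable def R2567 (M : MolF) : Fn3 := ⟨_, fun a b c => r2567 (M.at_ a b c) a b c, fun h1 h2 h3 => (enc_norm (enc_add ((R748 M).enc h1 h2 h3) ((R2547 M).enc h1 h2 h3)))⟩

noncomputable def R2572 (M : MolF) : Fn3 := ⟨_, fun a b c => r2572 (M.at_ a b c) a b c, fun h1 h2 h3 => (enc_norm (enc_mul h1 (enc_norm (es1_2 ((R662 M).enc h1 h2 h3)))))⟩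

noncomputable def R2573 (M : MolF) : Fn3 := ⟨_, fun a b c => r2573 (M.at_ a b c) a b c, fun h1 h2 h3 => (enc_mul ((R205 M).enc h1 h2 h3) ((R2552 M).enc h1 h2 h3))⟩

noncomputable def R2575 (M : MolF) : Fn3 := ⟨_, fun a b c => r2575 (M.at_ a b c) a b c, fun h1 h2 h3 => (enc_norm (enc_sub ((R2573 M).enc h1 h2 h3) (enc_mul h3 (enc_norm (enc_sub (enc_mul ((R2198 M).enc h1 h2 h3) (enc_norm (enc_add ((R747 M).enc h1 h2 h3) ((R2541 M).enc h1 h2 h3)))) (es1_2 ((R662 M).enc h1 h2 h3)))))))⟩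

noncomputable def R2577 (M : MolF) : Fn3 := ⟨_, fun a b c => r2577 (M.at_ a b c) a b c, fun h1 h2 h3 => (enc_norm (enc_add ((R2572 M).enc h1 h2 h3) (enc_mul h2 ((R2575 M).enc h1 h2 h3))))⟩

noncomputable def R2579 (M : MolF) : Fn3 := ⟨_, fun a b c => r2579 (M.at_ a b c) a b c, fun h1 h2 h3 => (enc_norm (enc_sub (enc_add (es1_2 ((R2140 M).enc h1 h2 h3)) (es1_2 (enc_mul ((R599 M).enc h1 h2 h3) (enc_norm (enc_sub (enc_mul (enc_norm (es3_4 ((R2134 M).enc h1 h2 h3))) ((R108 M).enc h1 h2 h3)) (ek2 (enc_mul ((R2140 M).enc h1 h2 h3) (enc_norm (enc_mul (M.dy.enc h1 h2 h3) h1))))))))) (enc_mul ((R2138 M).enc h1 h2 h3) (enc_norm (es1_2 ((R662 M).enc h1 h2 h3))))))⟩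

noncomputable def R2580 (M : MolF) : Fn3 := ⟨_, fun a b c => r2580 (M.at_ a b c) a b c, fun h1 h2 h3 => (enc_norm (enc_mul ((R3 M).enc h1 h2 h3) ((R2579 M).enc h1 h2 h3)))⟩

noncomputable def R2581 (M : MolF) : Fn3 := ⟨_, fun a b c => r2581 (M.at_ a b c) a b c, fun h1 h2 h3 => (enc_mul ((R2138 M).enc h1 h2 h3) ((R2552 M).enc h1 h2 h3))⟩

noncomputable def R2582 (M : MolF) : Fn3 := ⟨_, fun a b c => r2582 (M.at_ a b c) a b c, fun h1 h2 h3 => (enc_norm (enc_sub (enc_add (es1_2 (enc_add (enc_add ((R12 M).enc h1 h2 h3) (enc_mul (M.p1.enc h1 h2 h3) (enc_norm (enc_add (en1 _) h2)))) (enc_mul (M.ws.enc h1 h2 h3) ((R3 M).enc h1 h2 h3)))) (enc_mul ((R599 M).enc h1 h2 h3) (enc_norm (enc_min ((R647 M).enc h1 h2 h3) ((R649 M).enc h1 h2 h3))))) ((R2581 M).enc h1 h2 h3)))⟩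

noncomputable def R2586 (M : MolF) : Fn3 := ⟨_, fun a b c => r2586 (M.at_ a b c) a b c, fun h1 h2 h3 => (enc_norm (enc_add ((R2577 M).enc h1 h2 h3) (enc_mul h3 ((R2559 M).enc h1 h2 h3))))⟩

noncomputable def R2594 (M : MolF) : Fn3 := ⟨_, fun a b c => r2594 (M.at_ a b c) a b c, fun h1 h2 h3 => (enc_mul ((R2580 M).enc h1 h2 h3) ((R2552 M).enc h1 h2 h3))⟩

noncomputable def R2597 (M : MolF) : Fn3 := ⟨_, fun a b c => r2597 (M.at_ a b c) a b c, fun h1 h2 h3 => (enc_norm (enc_add (enc_mul ((R2138 M).enc h1 h2 h3) (enc_norm (enc_add (enc_mul ((R2575 M).enc h1 h2 h3) ((R2586 M).enc h1 h2 h3)) (enc_mul ((R2572 M).enc h1 h2 h3) (enc_norm (enc_add ((R2575 M).enc h1 h2 h3) (enc_mul h3 (enc_norm (enc_sub (enc_mul ((R2198 M).enc h1 h2 h3) ((R2545 M).enc h1 h2 h3)) ((R2546 M).enc h1 h2 h3)))))))))) (enc_mul ((R205 M).enc h1 h2 h3) (enc_norm (enc_add (enc_mul ((R2582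 M).enc h1 h2 h3) ((R2550 M).enc h1 h2 h3)) ((R2594 M).enc h1 h2 h3))))))⟩

noncomputable def R2607 (M : MolF) : Fn3 := ⟨_, fun a b c => r2607 (M.at_ a b c) a b c, fun h1 h2 h3 => (enc_norm (enc_add (enc_add (enc_mul ((R2138 M).enc h1 h2 h3) (enc_norm (enc_add (enc_mul ((R2545 M).enc h1 h2 h3) ((R2577 M).enc h1 h2 h3)) (enc_mul ((R2546 M).enc h1 h2 h3) ((R2575 M).enc h1 h2 h3))))) (enc_mul ((R2582 M).enc h1 h2 h3) ((R2567 M).enc h1 h2 h3))) (enc_mul ((R2579 M).enc h1 h2 h3) (enc_norm (enc_add ((R2551 M).enc h1 h2 h3) (enc_mul ((R2238 M).enc h1 h2 h3) ((R2516 M).enc h1 h2 h3)))))))⟩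

noncomputable def R2612 (M : MolF) : Fn3 := ⟨_, fun a b c => r2612 (M.at_ a b c) a b c, fun h1 h2 h3 => (enc_mul ((R298 M).enc h1 h2 h3) (enc_norm (enc_mul (enc_norm (enc_mul (enc_norm (es1_216 (enc_mul ((R2251 M).enc h1 h2 h3) (enc_norm (enc_mul ((R242 M).enc h1 h2 h3) (enc_sq ((R246 M).enc h1 h2 h3))))))) (enc_norm (enc_add (enc_mul ((R662 M).enc h1 h2 h3) ((R267 M).enc h1 h2 h3)) (enc_mul ((R599 M).enc h1 h2 h3) (enc_norm (enc_mul (enc_norm (ek3 ((R248 M).enc h1 h2 h3))) (enc_norm (enc_sub (enc_add (enc_sub (enc_sub (enc_sub (enc_add (en27 _) (ek27 ((R248 M).enc h1 h2 h3))) (ek9 ((R250 M).enc h1 h2 h3))) (enc_mul (ek9 ((R250 M).enc h1 h2 h3)) ((R248 M).enc h1 h2 h3))) (enc_mul (enc_norm (ek18 ((R251 M).enc h1 h2 h3))) ((R248 M).enc h1 h2 h3))) (enc_mul (enc_norm (ek6 ((R251 M).enc h1 h2 h3))) ((R250 M).enc h1 h2 h3))) (enc_mul (ek8 (M.dy.enc h1 h2 h3))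 ((R833 M).enc h1 h2 h3))))))))))) (enc_norm (es1_2 ((R662 M).enc h1 h2 h3))))))⟩

noncomputable def R2614 (M : MolF) : Fn3 := ⟨_, fun a b c => r2614 (M.at_ a b c) a b c, fun h1 h2 h3 => (enc_add ((R2612 M).enc h1 h2 h3) (enc_mul h2 ((R2597 M).enc h1 h2 h3)))⟩

noncomputable def R2616 (M : MolF) : Fn3 := ⟨_, fun a b c => r2616 (M.at_ a b c) a b c, fun h1 h2 h3 => (enc_mul ((R298 M).enc h1 h2 h3) (enc_norm (enc_mul (enc_norm (enc_mul (enc_norm (enc_mul ((R2257 M).enc h1 h2 h3) (enc_norm (enc_sub (enc_mul ((R662 M).enc h1 h2 h3) ((R280 M).enc h1 h2 h3)) (enc_mul ((R599 M).enc h1 h2 h3) (enc_norm (enc_mul ((R286 M).enc h1 h2 h3) (enc_norm (enc_sub (ek6 (enc_add (enc_sub (enc_sub (enc_sub (enc_add (en18 _) (ek9 ((R248 M).enc h1 h2 h3))) (ek3 ((R251 M).enc h1 h2 h3))) (enc_mul (ek3 ((R250 M).enc h1 h2 h3)) ((R248 M).enc h1 h2 h3))) (enc_mul (enc_norm (ek6 ((R251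 M).enc h1 h2 h3))) ((R248 M).enc h1 h2 h3))) (enc_mul ((R251 M).enc h1 h2 h3) ((R250 M).enc h1 h2 h3)))) (enc_mul (ek16 (M.dy.enc h1 h2 h3)) ((R833 M).enc h1 h2 h3))))))))))) ((R291 M).enc h1 h2 h3))) (enc_norm (es1_2 ((R662 M).enc h1 h2 h3))))))⟩

noncomputable def R2618 (M : MolF) : Fn3 := ⟨_, fun a b c => r2618 (M.at_ a b c) a b c, fun h1 h2 h3 => (enc_add ((R2616 M).enc h1 h2 h3) (enc_mul h2 ((R2607 M).enc h1 h2 h3)))⟩

noncomputable def R2623 (M : MolF) : Fn3 := ⟨_, fun a b c => r2623 (M.at_ a b c) a b c, fun h1 h2 h3 => (enc_sub (enc_mul (enc_norm (enc_add ((R2580 M).enc h1 h2 h3) (enc_mul h2 ((R2582 M).enc h1 h2 h3)))) (enc_norm (enc_sub ((R2567 M).enc h1 h2 h3) ((R2544 M).enc h1 h2 h3)))) (enc_mul ((R2138 M).enc h1 h2 h3) (enc_norm (enc_mul ((R2544 M).enc h1 h2 h3) ((R2586 M).enc h1 h2 h3)))))⟩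

noncomputable def R2627 (M : MolF) : Fn3 := ⟨_, fun a b c => r2627 (M.at_ a b c) a b c, fun h1 h2 h3 => (enc_norm (enc_mul ((R2540 M).enc h1 h2 h3) ((R2276 M).enc h1 h2 h3)))⟩

noncomputable def R2628 (M : MolF) : Fn3 := ⟨_, fun a b c => r2628 (M.at_ a b c) a b c, fun h1 h2 h3 => (enc_mul h2 ((R2627 M).enc h1 h2 h3))⟩

noncomputable def R2634 (M : MolF) : Fn3 := ⟨_, fun a b c => r2634 (M.at_ a b c) a b c, fun h1 h2 h3 => (enc_norm (enc_add (enc_add (enc_mul ((R30 M).enc h1 h2 h3) ((R747 M).enc h1 h2 h3)) ((R2516 M).enc h1 h2 h3)) (es1_2 ((R662 M).enc h1 h2 h3))))⟩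

noncomputable def R2637 (M : MolF) : Fn3 := ⟨_, fun a b c => r2637 (M.at_ a b c) a b c, fun h1 h2 h3 => (enc_add (enc_add (enc_mul ((R30 M).enc h1 h2 h3) ((R2544 M).enc h1 h2 h3)) ((R2542 M).enc h1 h2 h3)) ((R2628 M).enc h1 h2 h3))⟩

noncomputable def R2642 (M : MolF) : Fn3 := ⟨_, fun a b c => r2642 (M.at_ a b c) a b c, fun h1 h2 h3 => (enc_norm (enc_mul ((R169 M).enc h1 h2 h3) ((R2544 M).enc h1 h2 h3)))⟩

noncomputable def R2644 (M : MolF) : Fn3 := ⟨_, fun a b c => r2644 (M.at_ a b c) a b c, fun h1 h2 h3 => (enc_add ((R2637 M).enc h1 h2 h3) ((R2642 M).enc h1 h2 h3))⟩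

noncomputable def R2649 (M : MolF) : Fn3 := ⟨_, fun a b c => r2649 (M.at_ a b c) a b c, fun h1 h2 h3 => (enc_norm (enc_add ((R748 M).enc h1 h2 h3) ((R2628 M).enc h1 h2 h3)))⟩

noncomputable def R2654 (M : MolF) : Fn3 := ⟨_, fun a b c => r2654 (M.at_ a b c) a b c, fun h1 h2 h3 => (enc_mul h3 (enc_norm (enc_mul ((R169 M).enc h1 h2 h3) (enc_norm (enc_add ((R747 M).enc h1 h2 h3) ((R2627 M).enc h1 h2 h3))))))⟩

noncomputable def R2655 (M : MolF) : Fn3 := ⟨_, fun a b c => r2655 (M.at_ a b c) a b c, fun h1 h2 h3 => (enc_norm (enc_sub (enc_mul ((R205 M).enc h1 h2 h3) ((R2634 M).enc h1 h2 h3)) ((R2654 M).enc h1 h2 h3)))⟩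

noncomputable def R2657 (M : MolF) : Fn3 := ⟨_, fun a b c => r2657 (M.at_ a b c) a b c, fun h1 h2 h3 => (enc_norm (enc_add ((R2572 M).enc h1 h2 h3) (enc_mul h2 ((R2655 M).enc h1 h2 h3))))⟩

noncomputable def R2659 (M : MolF) : Fn3 := ⟨_, fun a b c => r2659 (M.at_ a b c) a b c, fun h1 h2 h3 => (enc_norm (enc_sub (enc_add (es1_2 (enc_add (enc_add ((R12 M).enc h1 h2 h3) (enc_mul (M.p1.enc h1 h2 h3) (enc_norm (enc_add (en1 _) h2)))) (enc_mul (M.ws.enc h1 h2 h3) ((R3 M).enc h1 h2 h3)))) (enc_mul ((R599 M).enc h1 h2 h3) (enc_norm (enc_max ((R647 M).enc h1 h2 h3) ((R649 M).enc h1 h2 h3))))) (enc_mul ((R2138 M).enc h1 h2 h3) ((R2634 M).enc h1 h2 h3))))⟩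

noncomputable def R2663 (M : MolF) : Fn3 := ⟨_, fun a b c => r2663 (M.at_ a b c) a b c, fun h1 h2 h3 => (enc_norm (enc_add ((R2657 M).enc h1 h2 h3) (enc_mul h3 ((R2642 M).enc h1 h2 h3))))⟩

noncomputable def R2674 (M : MolF) : Fn3 := ⟨_, fun a b c => r2674 (M.at_ a b c) a b c, fun h1 h2 h3 => (enc_norm (enc_add (enc_mul ((R2138 M).enc h1 h2 h3) (enc_norm (enc_add (enc_mul ((R2655 M).enc h1 h2 h3) ((R2663 M).enc h1 h2 h3)) (enc_mul ((R2572 M).enc h1 h2 h3) (enc_norm (enc_add ((R2655 M).enc h1 h2 h3) (enc_mul h3 (enc_norm (enc_mul ((R169 M).enc h1 h2 h3) ((R2545 M).enc h1 h2 h3)))))))))) (enc_mul ((R205 M).enc h1 h2 h3) (enc_norm (enc_add (enc_mul ((R2659 M).enc h1 h2 h3) (enc_norm (enc_add (enc_mul ((R30 M).enc h1 h2 h3) ((R748 M).enc h1 h2 h3)) (enc_mul h2 ((R2516 M).enc h1 h2 h3))))) (enc_mul ((R2580 M).enc h1 h2 h3) ((R2634 M).enc h1 h2 h3)))))))⟩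

noncomputable def R2681 (M : MolF) : Fn3 := ⟨_, fun a b c => r2681 (M.at_ a b c) a b c, fun h1 h2 h3 => (enc_mul ((R2579 M).enc h1 h2 h3) ((R2552 M).enc h1 h2 h3))⟩

noncomputable def R2682 (M : MolF) : Fn3 := ⟨_, fun a b c => r2682 (M.at_ a b c) a b c, fun h1 h2 h3 => (enc_norm (enc_add (enc_add (enc_mul ((R2138 M).enc h1 h2 h3) (enc_norm (enc_add (enc_mul ((R2545 M).enc h1 h2 h3) ((R2657 M).enc h1 h2 h3)) (enc_mul ((R2546 M).enc h1 h2 h3) ((R2655 M).enc h1 h2 h3))))) (enc_mul ((R2659 M).enc h1 h2 h3) ((R2649 M).enc h1 h2 h3))) ((R2681 M).enc h1 h2 h3)))⟩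

noncomputable def R2684 (M : MolF) : Fn3 := ⟨_, fun a b c => r2684 (M.at_ a b c) a b c, fun h1 h2 h3 => (enc_add ((R2612 M).enc h1 h2 h3) (enc_mul h2 ((R2674 M).enc h1 h2 h3)))⟩

noncomputable def R2686 (M : MolF) : Fn3 := ⟨_, fun a b c => r2686 (M.at_ a b c) a b c, fun h1 h2 h3 => (enc_add ((R2616 M).enc h1 h2 h3) (enc_mul h2 ((R2682 M).enc h1 h2 h3)))⟩

noncomputable def R2693 (M : MolF) : Fn3 := ⟨_, fun a b c => r2693 (M.at_ a b c) a b c, fun h1 h2 h3 => (enc_sub (enc_mul (enc_norm (enc_add ((R2580 M).enc h1 h2 h3) (enc_mul h2 ((R2659 M).enc h1 h2 h3)))) (enc_norm (enc_sub ((R2649 M).enc h1 h2 h3) ((R2544 M).enc h1 h2 h3)))) (enc_mul ((R2138 M).enc h1 h2 h3) (enc_norm (enc_mul ((R2544 M).enc h1 h2 h3) ((R2663 M).enc h1 h2 h3)))))⟩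

noncomputable def R2705 (M : MolF) : Fn3 := ⟨_, fun a b c => r2705 (M.at_ a b c) a b c, fun h1 h2 h3 => (enc_norm (enc_add (enc_mul ((R662 M).enc h1 h2 h3) ((R2366 M).enc h1 h2 h3)) (enc_mul ((R599 M).enc h1 h2 h3) (enc_norm (enc_add (enc_mul ((R372 M).enc h1 h2 h3) (enc_norm (enc_sub (enc_add (enc_add (enc_mul ((R376 M).enc h1 h2 h3) ((R1000 M).enc h1 h2 h3)) (enc_mul ((R997 M).enc h1 h2 h3) ((R1005 M).enc h1 h2 h3))) (es1_2 ((R1000 M).enc h1 h2 h3))) (enc_mul (enc_norm (enc_add (enc_add ((R997 M).enc h1 h2 h3) (ek2 ((R376 M).enc h1 h2 h3))) (en1 _))) ((R84 M).enc h1 h2 h3))))) (enc_mul h2 ((R1029 M).enc h1 h2 h3)))))))⟩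

noncomputable def R2712 (M : MolF) : Fn3 := ⟨_, fun a b c => r2712 (M.at_ a b c) a b c, fun h1 h2 h3 => (enc_sub ((R2705 M).enc h1 h2 h3) ((R2540 M).enc h1 h2 h3))⟩

noncomputable def R2714 (M : MolF) : Fn3 := ⟨_, fun a b c => r2714 (M.at_ a b c) a b c, fun h1 h2 h3 => (enc_norm (enc_sub ((R748 M).enc h1 h2 h3) ((R2712 M).enc h1 h2 h3)))⟩

noncomputable def R2715 (M : MolF) : Fn3 := ⟨_, fun a b c => r2715 (M.at_ a b c) a b c, fun h1 h2 h3 => (enc_norm (enc_sub ((R747 M).enc h1 h2 h3) (enc_sub (enc_add (enc_mul ((R662 M).enc h1 h2 h3) ((R2373 M).enc h1 h2 h3)) (enc_mul ((R599 M).enc h1 h2 h3) (enc_norm (enc_add (enc_sub (enc_mul ((R372 M).enc h1 h2 h3) (enc_norm (enc_sub (enc_add (enc_add (enc_add (enc_mul ((R381 M).enc h1 h2 h3) ((R1000 M).enc h1 h2 h3)) (enc_mul ((R12 M).enc h1 h2 h3) (enc_norm (es9_8 ((R386 M).enc h1 h2 h3))))) (enc_add (enc_mul ((R996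 M).enc h1 h2 h3) ((R1005 M).enc h1 h2 h3)) (enc_mul ((R669 M).enc h1 h2 h3) (enc_norm (es3_4 ((R386 M).enc h1 h2 h3)))))) (es9_16 ((R386 M).enc h1 h2 h3))) (enc_add (enc_mul (enc_norm (enc_add ((R996 M).enc h1 h2 h3) (ek2 ((R381 M).enc h1 h2 h3)))) ((R84 M).enc h1 h2 h3)) (enc_mul ((R1019 M).enc h1 h2 h3) (M.d1.enc h1 h2 h3)))))) (enc_sub (enc_add ((R690 M).enc h1 h2 h3) (es1_2 ((R675 M).enc h1 h2 h3))) (enc_mul ((R1019 M).enc h1 h2 h3) (M.dy.enc h1 h2 h3)))) ((R1029 M).enc h1 h2 h3))))) ((R2525 M).enc h1 h2 h3))))⟩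

noncomputable def R2721 (M : MolF) : Fn3 := ⟨_, fun a b c => r2721 (M.at_ a b c) a b c, fun h1 h2 h3 => (enc_norm (enc_sub (enc_add (enc_mul ((R372 M).enc h1 h2 h3) ((R747 M).enc h1 h2 h3)) ((R2705 M).enc h1 h2 h3)) (es1_2 ((R662 M).enc h1 h2 h3))))⟩

noncomputable def R2724 (M : MolF) : Fn3 := ⟨_, fun a b c => r2724 (M.at_ a b c) a b c, fun h1 h2 h3 => (enc_add (enc_add (enc_mul ((R372 M).enc h1 h2 h3) ((R2714 M).enc h1 h2 h3)) ((R2712 M).enc h1 h2 h3)) ((R2628 M).enc h1 h2 h3))⟩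

noncomputable def R2729 (M : MolF) : Fn3 := ⟨_, fun a b c => r2729 (M.at_ a b c) a b c, fun h1 h2 h3 => (enc_norm (enc_mul ((R169 M).enc h1 h2 h3) ((R2714 M).enc h1 h2 h3)))⟩

noncomputable def R2731 (M : MolF) : Fn3 := ⟨_, fun a b c => r2731 (M.at_ a b c) a b c, fun h1 h2 h3 => (enc_add ((R2724 M).enc h1 h2 h3) ((R2729 M).enc h1 h2 h3))⟩

noncomputable def R2737 (M : MolF) : Fn3 := ⟨_, fun a b c => r2737 (M.at_ a b c) a b c, fun h1 h2 h3 => (enc_norm (enc_sub (enc_mul ((R205 M).enc h1 h2 h3) ((R2721 M).enc h1 h2 h3)) ((R2654 M).enc h1 h2 h3)))⟩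

noncomputable def R2739 (M : MolF) : Fn3 := ⟨_, fun a b c => r2739 (M.at_ a b c) a b c, fun h1 h2 h3 => (enc_norm (enc_add ((R2572 M).enc h1 h2 h3) (enc_mul h2 ((R2737 M).enc h1 h2 h3))))⟩

noncomputable def R2741 (M : MolF) : Fn3 := ⟨_, fun a b c => r2741 (M.at_ a b c) a b c, fun h1 h2 h3 => (enc_norm (enc_sub (enc_add (es1_2 (enc_add (enc_add ((R12 M).enc h1 h2 h3) (enc_mul (M.p1.enc h1 h2 h3) (enc_norm (enc_add (en1 _) h2)))) (enc_mul (M.ws.enc h1 h2 h3) ((R3 M).enc h1 h2 h3)))) (enc_mul ((R599 M).enc h1 h2 h3) (enc_norm (enc_min ((R984 M).enc h1 h2 h3) ((R986 M).enc h1 h2 h3))))) (enc_mul ((R2138 M).enc h1 h2 h3) ((R2721 M).enc h1 h2 h3))))⟩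

noncomputable def R2745 (M : MolF) : Fn3 := ⟨_, fun a b c => r2745 (M.at_ a b c) a b c, fun h1 h2 h3 => (enc_norm (enc_add ((R2739 M).enc h1 h2 h3) (enc_mul h3 ((R2729 M).enc h1 h2 h3))))⟩

noncomputable def R2756 (M : MolF) : Fn3 := ⟨_, fun a b c => r2756 (M.at_ a b c) a b c, fun h1 h2 h3 => (enc_norm (enc_add (enc_mul ((R2138 M).enc h1 h2 h3) (enc_norm (enc_add (enc_mul ((R2737 M).enc h1 h2 h3) ((R2745 M).enc h1 h2 h3)) (enc_mul ((R2572 M).enc h1 h2 h3) (enc_norm (enc_add ((R2737 M).enc h1 h2 h3) (enc_mul h3 (enc_norm (enc_mul ((R169 M).enc h1 h2 h3) ((R2715 M).enc h1 h2 h3)))))))))) (enc_mul ((R205 M).enc h1 h2 h3) (enc_norm (enc_add (enc_mul ((R2741 M).enc h1 h2 h3) (enc_norm (enc_add (enc_mul ((R372 M).enc h1 h2 h3) ((R748 M).enc h1 h2 h3)) (enc_mul h2 ((R2705 M).enc h1 h2 h3))))) (enc_mul ((R2580 M).enc h1 h2 h3) ((R2721 M).enc h1 h2 h3)))))))⟩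

noncomputable def R2763 (M : MolF) : Fn3 := ⟨_, fun a b c => r2763 (M.at_ a b c) a b c, fun h1 h2 h3 => (enc_norm (enc_add (enc_add (enc_mul ((R2138 M).enc h1 h2 h3) (enc_norm (enc_add (enc_mul ((R2715 M).enc h1 h2 h3) ((R2739 M).enc h1 h2 h3)) (enc_mul ((R2546 M).enc h1 h2 h3) ((R2737 M).enc h1 h2 h3))))) (enc_mul ((R2741 M).enc h1 h2 h3) ((R2649 M).enc h1 h2 h3))) ((R2681 M).enc h1 h2 h3)))⟩

noncomputable def R2765 (M : MolF) : Fn3 := ⟨_, fun a b c => r2765 (M.at_ a b c) a b c, fun h1 h2 h3 => (enc_add ((R2612 M).enc h1 h2 h3) (enc_mul h2 ((R2756 M).enc h1 h2 h3)))⟩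

noncomputable def R2767 (M : MolF) : Fn3 := ⟨_, fun a b c => r2767 (M.at_ a b c) a b c, fun h1 h2 h3 => (enc_add ((R2616 M).enc h1 h2 h3) (enc_mul h2 ((R2763 M).enc h1 h2 h3)))⟩

noncomputable def R2772 (M : MolF) : Fn3 := ⟨_, fun a b c => r2772 (M.at_ a b c) a b c, fun h1 h2 h3 => (enc_sub (enc_mul (enc_norm (enc_add ((R2580 M).enc h1 h2 h3) (enc_mul h2 ((R2741 M).enc h1 h2 h3)))) (enc_norm (enc_sub ((R2649 M).enc h1 h2 h3) ((R2714 M).enc h1 h2 h3)))) (enc_mul ((R2138 M).enc h1 h2 h3) (enc_norm (enc_mul ((R2714 M).enc h1 h2 h3) ((R2745 M).enc h1 h2 h3)))))⟩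

noncomputable def R2776 (M : MolF) : Fn3 := ⟨_, fun a b c => r2776 (M.at_ a b c) a b c, fun h1 h2 h3 => (enc_norm (enc_mul ((R2705 M).enc h1 h2 h3) ((R2438 M).enc h1 h2 h3)))⟩

noncomputable def R2777 (M : MolF) : Fn3 := ⟨_, fun a b c => r2777 (M.at_ a b c) a b c, fun h1 h2 h3 => (enc_mul h2 ((R2776 M).enc h1 h2 h3))⟩

noncomputable def R2780 (M : MolF) : Fn3 := ⟨_, fun a b c => r2780 (M.at_ a b c) a b c, fun h1 h2 h3 => (enc_add (enc_add (enc_mul ((R3 M).enc h1 h2 h3) ((R2714 M).enc h1 h2 h3)) ((R2712 M).enc h1 h2 h3)) ((R2777 M).enc h1 h2 h3))⟩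

noncomputable def R2784 (M : MolF) : Fn3 := ⟨_, fun a b c => r2784 (M.at_ a b c) a b c, fun h1 h2 h3 => (enc_norm (enc_mul ((R414 M).enc h1 h2 h3) ((R2714 M).enc h1 h2 h3)))⟩

noncomputable def R2787 (M : MolF) : Fn3 := ⟨_, fun a b c => r2787 (M.at_ a b c) a b c, fun h1 h2 h3 => (enc_add ((R2780 M).enc h1 h2 h3) ((R2784 M).enc h1 h2 h3))⟩

noncomputable def R2792 (M : MolF) : Fn3 := ⟨_, fun a b c => r2792 (M.at_ a b c) a b c, fun h1 h2 h3 => (enc_norm (enc_add ((R748 M).enc h1 h2 h3) ((R2777 M).enc h1 h2 h3)))⟩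

noncomputable def R2798 (M : MolF) : Fn3 := ⟨_, fun a b c => r2798 (M.at_ a b c) a b c, fun h1 h2 h3 => (enc_norm (enc_sub ((R2573 M).enc h1 h2 h3) (enc_mul h3 (enc_norm (enc_add (enc_mul ((R414 M).enc h1 h2 h3) (enc_norm (enc_add ((R747 M).enc h1 h2 h3) ((R2776 M).enc h1 h2 h3)))) (es1_2 ((R662 M).enc h1 h2 h3)))))))⟩

noncomputable def R2800 (M : MolF) : Fn3 := ⟨_, fun a b c => r2800 (M.at_ a b c) a b c, fun h1 h2 h3 => (enc_norm (enc_add ((R2572 M).enc h1 h2 h3) (enc_mul h2 ((R2798 M).enc h1 h2 h3))))⟩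

noncomputable def R2801 (M : MolF) : Fn3 := ⟨_, fun a b c => r2801 (M.at_ a b c) a b c, fun h1 h2 h3 => (enc_norm (enc_sub (enc_add (es1_2 (enc_add (enc_add ((R12 M).enc h1 h2 h3) (enc_mul (M.p1.enc h1 h2 h3) (enc_norm (enc_add (en1 _) h2)))) (enc_mul (M.ws.enc h1 h2 h3) ((R3 M).enc h1 h2 h3)))) (enc_mul ((R599 M).enc h1 h2 h3) (enc_norm (enc_max ((R984 M).enc h1 h2 h3) ((R986 M).enc h1 h2 h3))))) ((R2581 M).enc h1 h2 h3)))⟩

noncomputable def R2805 (M : MolF) : Fn3 := ⟨_, fun a b c => r2805 (M.at_ a b c) a b c, fun h1 h2 h3 => (enc_norm (enc_add ((R2800 M).enc h1 h2 h3) (enc_mul h3 ((R2784 M).enc h1 h2 h3))))⟩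

noncomputable def R2815 (M : MolF) : Fn3 := ⟨_, fun a b c => r2815 (M.at_ a b c) a b c, fun h1 h2 h3 => (enc_norm (enc_add (enc_mul ((R2138 M).enc h1 h2 h3) (enc_norm (enc_add (enc_mul ((R2798 M).enc h1 h2 h3) ((R2805 M).enc h1 h2 h3)) (enc_mul ((R2572 M).enc h1 h2 h3) (enc_norm (enc_add ((R2798 M).enc h1 h2 h3) (enc_mul h3 (enc_norm (enc_add (enc_mul ((R414 M).enc h1 h2 h3) ((R2715 M).enc h1 h2 h3)) ((R2546 M).enc h1 h2 h3)))))))))) (enc_mul ((R205 M).enc h1 h2 h3) (enc_norm (enc_add (enc_mul ((R2801 M).enc h1 h2 h3) ((R2550 M).enc h1 h2 h3)) ((R2594 M).enc h1 h2 h3))))))⟩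

noncomputable def R2825 (M : MolF) : Fn3 := ⟨_, fun a b c => r2825 (M.at_ a b c) a b c, fun h1 h2 h3 => (enc_norm (enc_add (enc_add (enc_mul ((R2138 M).enc h1 h2 h3) (enc_norm (enc_add (enc_mul ((R2715 M).enc h1 h2 h3) ((R2800 M).enc h1 h2 h3)) (enc_mul ((R2546 M).enc h1 h2 h3) ((R2798 M).enc h1 h2 h3))))) (enc_mul ((R2801 M).enc h1 h2 h3) ((R2792 M).enc h1 h2 h3))) (enc_mul ((R2579 M).enc h1 h2 h3) (enc_norm (enc_add ((R2551 M).enc h1 h2 h3) (enc_mul ((R2479 M).enc h1 h2 h3) ((R2705 M).enc h1 h2 h3)))))))⟩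

noncomputable def R2827 (M : MolF) : Fn3 := ⟨_, fun a b c => r2827 (M.at_ a b c) a b c, fun h1 h2 h3 => (enc_add ((R2612 M).enc h1 h2 h3) (enc_mul h2 ((R2815 M).enc h1 h2 h3)))⟩

noncomputable def R2829 (M : MolF) : Fn3 := ⟨_, fun a b c => r2829 (M.at_ a b c) a b c, fun h1 h2 h3 => (enc_add ((R2616 M).enc h1 h2 h3) (enc_mul h2 ((R2825 M).enc h1 h2 h3)))⟩

noncomputable def R2836 (M : MolF) : Fn3 := ⟨_, fun a b c => r2836 (M.at_ a b c) a b c, fun h1 h2 h3 => (enc_sub (enc_mul (enc_norm (enc_add ((R2580 M).enc h1 h2 h3) (enc_mul h2 ((R2801 M).enc h1 h2 h3)))) (enc_norm (enc_sub ((R2792 M).enc h1 h2 h3) ((R2714 M).enc h1 h2 h3)))) (enc_mul ((R2138 M).enc h1 h2 h3) (enc_norm (enc_mul ((R2714 M).enc h1 h2 h3) ((R2805 M).enc h1 h2 h3)))))⟩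

noncomputable def q0Ap_c0 (M : MolF) : Fn3 := ⟨_, fun a b c => r2194 (M.at_ a b c) a b c, fun h1 h2 h3 => ((R2194 M).enc h1 h2 h3)⟩

noncomputable def q0Ap_c1 (M : MolF) : Fn3 := ⟨_, fun a b c => r2202 (M.at_ a b c) a b c, fun h1 h2 h3 => ((R2202 M).enc h1 h2 h3)⟩

noncomputable def q0Ap_n0 (M : MolF) : Fn3 := ⟨_, fun a b c => -(r2217 (M.at_ a b c) a b c), fun h1 h2 h3 => (enc_neg ((R2217 M).enc h1 h2 h3))⟩

noncomputable def q0Ap_n1 (M : MolF) : Fn3 := ⟨_, fun a b c => -(r2226 (M.at_ a b c) a b c), fun h1 h2 h3 => (enc_neg ((R2226 M).enc h1 h2 h3))⟩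

noncomputable def q0Ap_n2 (M : MolF) : Fn3 := ⟨_, fun a b c => r2237 (M.at_ a b c) a b c, fun h1 h2 h3 => ((R2237 M).enc h1 h2 h3)⟩

noncomputable def q0Ap_n3 (M : MolF) : Fn3 := ⟨_, fun a b c => r2263 (M.at_ a b c) a b c, fun h1 h2 h3 => ((R2263 M).enc h1 h2 h3)⟩

noncomputable def q0Ap_m0 (M : MolF) : Fn3 := ⟨_, fun a b c => -(r2183 (M.at_ a b c) a b c), fun h1 h2 h3 => (enc_neg ((R2183 M).enc h1 h2 h3))⟩

noncomputable def q0Ap_m1 (M : MolF) : Fn3 := ⟨_, fun a b c => r2217 (M.at_ a b c) a b c, fun h1 h2 h3 => ((R2217 M).enc h1 h2 h3)⟩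

noncomputable def q0Ap_m2 (M : MolF) : Fn3 := ⟨_, fun a b c => r2248 (M.at_ a b c) a b c, fun h1 h2 h3 => ((R2248 M).enc h1 h2 h3)⟩

noncomputable def q0Ap_m3 (M : MolF) : Fn3 := ⟨_, fun a b c => r2267 (M.at_ a b c) a b c, fun h1 h2 h3 => ((R2267 M).enc h1 h2 h3)⟩

noncomputable def q0Ap_g0 (M : MolF) : Fn3 := ⟨_, fun a b c => r2183 (M.at_ a b c) a b c, fun h1 h2 h3 => ((R2183 M).enc h1 h2 h3)⟩

noncomputable def q0Ap_g1 (M : MolF) : Fn3 := ⟨_, fun a b c => r2226 (M.at_ a b c) a b c, fun h1 h2 h3 => ((R2226 M).enc h1 h2 h3)⟩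

noncomputable def q0Ap_g2 (M : MolF) : Fn3 := ⟨_, fun a b c => r2272 (M.at_ a b c) a b c, fun h1 h2 h3 => ((R2272 M).enc h1 h2 h3)⟩

noncomputable def q0Am_c0 (M : MolF) : Fn3 := ⟨_, fun a b c => r2287 (M.at_ a b c) a b c, fun h1 h2 h3 => ((R2287 M).enc h1 h2 h3)⟩

noncomputable def q0Am_c1 (M : MolF) : Fn3 := ⟨_, fun a b c => r2294 (M.at_ a b c) a b c, fun h1 h2 h3 => ((R2294 M).enc h1 h2 h3)⟩

noncomputable def q0Am_n0 (M : MolF) : Fn3 := ⟨_, fun a b c => -(r2307 (M.at_ a b c) a b c), fun h1 h2 h3 => (enc_neg ((R2307 M).enc h1 h2 h3))⟩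

noncomputable def q0Am_n1 (M : MolF) : Fn3 := ⟨_, fun a b c => -(r2313 (M.at_ a b c) a b c), fun h1 h2 h3 => (enc_neg ((R2313 M).enc h1 h2 h3))⟩

noncomputable def q0Am_n2 (M : MolF) : Fn3 := ⟨_, fun a b c => -(r2324 (M.at_ a b c) a b c), fun h1 h2 h3 => (enc_neg ((R2324 M).enc h1 h2 h3))⟩

noncomputable def q0Am_n3 (M : MolF) : Fn3 := ⟨_, fun a b c => r2334 (M.at_ a b c) a b c, fun h1 h2 h3 => ((R2334 M).enc h1 h2 h3)⟩

noncomputable def q0Am_m0 (M : MolF) : Fn3 := ⟨_, fun a b c => -(r2183 (M.at_ a b c) a b c), fun h1 h2 h3 => (enc_neg ((R2183 M).enc h1 h2 h3))⟩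

noncomputable def q0Am_m1 (M : MolF) : Fn3 := ⟨_, fun a b c => r2307 (M.at_ a b c) a b c, fun h1 h2 h3 => ((R2307 M).enc h1 h2 h3)⟩

noncomputable def q0Am_m2 (M : MolF) : Fn3 := ⟨_, fun a b c => -(r2332 (M.at_ a b c) a b c), fun h1 h2 h3 => (enc_neg ((R2332 M).enc h1 h2 h3))⟩

noncomputable def q0Am_m3 (M : MolF) : Fn3 := ⟨_, fun a b c => r2336 (M.at_ a b c) a b c, fun h1 h2 h3 => ((R2336 M).enc h1 h2 h3)⟩

noncomputable def q0Am_g0 (M : MolF) : Fn3 := ⟨_, fun a b c => r2183 (M.at_ a b c) a b c, fun h1 h2 h3 => ((R2183 M).enc h1 h2 h3)⟩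

noncomputable def q0Am_g1 (M : MolF) : Fn3 := ⟨_, fun a b c => r2313 (M.at_ a b c) a b c, fun h1 h2 h3 => ((R2313 M).enc h1 h2 h3)⟩

noncomputable def q0Am_g2 (M : MolF) : Fn3 := ⟨_, fun a b c => r2343 (M.at_ a b c) a b c, fun h1 h2 h3 => ((R2343 M).enc h1 h2 h3)⟩

noncomputable def q0Bp_c0 (M : MolF) : Fn3 := ⟨_, fun a b c => r2386 (M.at_ a b c) a b c, fun h1 h2 h3 => ((R2386 M).enc h1 h2 h3)⟩

noncomputable def q0Bp_c1 (M : MolF) : Fn3 := ⟨_, fun a b c => r2393 (M.at_ a b c) a b c, fun h1 h2 h3 => ((R2393 M).enc h1 h2 h3)⟩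

noncomputable def q0Bp_n0 (M : MolF) : Fn3 := ⟨_, fun a b c => -(r2401 (M.at_ a b c) a b c), fun h1 h2 h3 => (enc_neg ((R2401 M).enc h1 h2 h3))⟩

noncomputable def q0Bp_n1 (M : MolF) : Fn3 := ⟨_, fun a b c => -(r2407 (M.at_ a b c) a b c), fun h1 h2 h3 => (enc_neg ((R2407 M).enc h1 h2 h3))⟩

noncomputable def q0Bp_n2 (M : MolF) : Fn3 := ⟨_, fun a b c => r2418 (M.at_ a b c) a b c, fun h1 h2 h3 => ((R2418 M).enc h1 h2 h3)⟩

noncomputable def q0Bp_n3 (M : MolF) : Fn3 := ⟨_, fun a b c => r2427 (M.at_ a b c) a b c, fun h1 h2 h3 => ((R2427 M).enc h1 h2 h3)⟩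

noncomputable def q0Bp_m0 (M : MolF) : Fn3 := ⟨_, fun a b c => -(r2376 (M.at_ a b c) a b c), fun h1 h2 h3 => (enc_neg ((R2376 M).enc h1 h2 h3))⟩

noncomputable def q0Bp_m1 (M : MolF) : Fn3 := ⟨_, fun a b c => r2401 (M.at_ a b c) a b c, fun h1 h2 h3 => ((R2401 M).enc h1 h2 h3)⟩

noncomputable def q0Bp_m2 (M : MolF) : Fn3 := ⟨_, fun a b c => r2425 (M.at_ a b c) a b c, fun h1 h2 h3 => ((R2425 M).enc h1 h2 h3)⟩

noncomputable def q0Bp_m3 (M : MolF) : Fn3 := ⟨_, fun a b c => r2429 (M.at_ a b c) a b c, fun h1 h2 h3 => ((R2429 M).enc h1 h2 h3)⟩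

noncomputable def q0Bp_g0 (M : MolF) : Fn3 := ⟨_, fun a b c => r2376 (M.at_ a b c) a b c, fun h1 h2 h3 => ((R2376 M).enc h1 h2 h3)⟩

noncomputable def q0Bp_g1 (M : MolF) : Fn3 := ⟨_, fun a b c => r2407 (M.at_ a b c) a b c, fun h1 h2 h3 => ((R2407 M).enc h1 h2 h3)⟩

noncomputable def q0Bp_g2 (M : MolF) : Fn3 := ⟨_, fun a b c => r2434 (M.at_ a b c) a b c, fun h1 h2 h3 => ((R2434 M).enc h1 h2 h3)⟩

noncomputable def q0Bm_c0 (M : MolF) : Fn3 := ⟨_, fun a b c => r2443 (M.at_ a b c) a b c, fun h1 h2 h3 => ((R2443 M).enc h1 h2 h3)⟩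

noncomputable def q0Bm_c1 (M : MolF) : Fn3 := ⟨_, fun a b c => r2450 (M.at_ a b c) a b c, fun h1 h2 h3 => ((R2450 M).enc h1 h2 h3)⟩

noncomputable def q0Bm_n0 (M : MolF) : Fn3 := ⟨_, fun a b c => -(r2463 (M.at_ a b c) a b c), fun h1 h2 h3 => (enc_neg ((R2463 M).enc h1 h2 h3))⟩

noncomputable def q0Bm_n1 (M : MolF) : Fn3 := ⟨_, fun a b c => -(r2468 (M.at_ a b c) a b c), fun h1 h2 h3 => (enc_neg ((R2468 M).enc h1 h2 h3))⟩

noncomputable def q0Bm_n2 (M : MolF) : Fn3 := ⟨_, fun a b c => -(r2478 (M.at_ a b c) a b c), fun h1 h2 h3 => (enc_neg ((R2478 M).enc h1 h2 h3))⟩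

noncomputable def q0Bm_n3 (M : MolF) : Fn3 := ⟨_, fun a b c => r2491 (M.at_ a b c) a b c, fun h1 h2 h3 => ((R2491 M).enc h1 h2 h3)⟩

noncomputable def q0Bm_m0 (M : MolF) : Fn3 := ⟨_, fun a b c => -(r2376 (M.at_ a b c) a b c), fun h1 h2 h3 => (enc_neg ((R2376 M).enc h1 h2 h3))⟩

noncomputable def q0Bm_m1 (M : MolF) : Fn3 := ⟨_, fun a b c => r2463 (M.at_ a b c) a b c, fun h1 h2 h3 => ((R2463 M).enc h1 h2 h3)⟩

noncomputable def q0Bm_m2 (M : MolF) : Fn3 := ⟨_, fun a b c => -(r2489 (M.at_ a b c) a b c), fun h1 h2 h3 => (enc_neg ((R2489 M).enc h1 h2 h3))⟩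

noncomputable def q0Bm_m3 (M : MolF) : Fn3 := ⟨_, fun a b c => r2493 (M.at_ a b c) a b c, fun h1 h2 h3 => ((R2493 M).enc h1 h2 h3)⟩

noncomputable def q0Bm_g0 (M : MolF) : Fn3 := ⟨_, fun a b c => r2376 (M.at_ a b c) a b c, fun h1 h2 h3 => ((R2376 M).enc h1 h2 h3)⟩

noncomputable def q0Bm_g1 (M : MolF) : Fn3 := ⟨_, fun a b c => r2468 (M.at_ a b c) a b c, fun h1 h2 h3 => ((R2468 M).enc h1 h2 h3)⟩

noncomputable def q0Bm_g2 (M : MolF) : Fn3 := ⟨_, fun a b c => r2500 (M.at_ a b c) a b c, fun h1 h2 h3 => ((R2500 M).enc h1 h2 h3)⟩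

noncomputable def q1Ap_c0 (M : MolF) : Fn3 := ⟨_, fun a b c => r2555 (M.at_ a b c) a b c, fun h1 h2 h3 => ((R2555 M).enc h1 h2 h3)⟩

noncomputable def q1Ap_c1 (M : MolF) : Fn3 := ⟨_, fun a b c => r2562 (M.at_ a b c) a b c, fun h1 h2 h3 => ((R2562 M).enc h1 h2 h3)⟩

noncomputable def q1Ap_n0 (M : MolF) : Fn3 := ⟨_, fun a b c => -(r2577 (M.at_ a b c) a b c), fun h1 h2 h3 => (enc_neg ((R2577 M).enc h1 h2 h3))⟩

noncomputable def q1Ap_n1 (M : MolF) : Fn3 := ⟨_, fun a b c => -(r2586 (M.at_ a b c) a b c), fun h1 h2 h3 => (enc_neg ((R2586 M).enc h1 h2 h3))⟩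

noncomputable def q1Ap_n2 (M : MolF) : Fn3 := ⟨_, fun a b c => r2597 (M.at_ a b c) a b c, fun h1 h2 h3 => ((R2597 M).enc h1 h2 h3)⟩

noncomputable def q1Ap_n3 (M : MolF) : Fn3 := ⟨_, fun a b c => r2614 (M.at_ a b c) a b c, fun h1 h2 h3 => ((R2614 M).enc h1 h2 h3)⟩

noncomputable def q1Ap_m0 (M : MolF) : Fn3 := ⟨_, fun a b c => -(r2544 (M.at_ a b c) a b c), fun h1 h2 h3 => (enc_neg ((R2544 M).enc h1 h2 h3))⟩

noncomputable def q1Ap_m1 (M : MolF) : Fn3 := ⟨_, fun a b c => r2577 (M.at_ a b c) a b c, fun h1 h2 h3 => ((R2577 M).enc h1 h2 h3)⟩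

noncomputable def q1Ap_m2 (M : MolF) : Fn3 := ⟨_, fun a b c => r2607 (M.at_ a b c) a b c, fun h1 h2 h3 => ((R2607 M).enc h1 h2 h3)⟩

noncomputable def q1Ap_m3 (M : MolF) : Fn3 := ⟨_, fun a b c => r2618 (M.at_ a b c) a b c, fun h1 h2 h3 => ((R2618 M).enc h1 h2 h3)⟩

noncomputable def q1Ap_g0 (M : MolF) : Fn3 := ⟨_, fun a b c => r2544 (M.at_ a b c) a b c, fun h1 h2 h3 => ((R2544 M).enc h1 h2 h3)⟩

noncomputable def q1Ap_g1 (M : MolF) : Fn3 := ⟨_, fun a b c => r2586 (M.at_ a b c) a b c, fun h1 h2 h3 => ((R2586 M).enc h1 h2 h3)⟩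

noncomputable def q1Ap_g2 (M : MolF) : Fn3 := ⟨_, fun a b c => r2623 (M.at_ a b c) a b c, fun h1 h2 h3 => ((R2623 M).enc h1 h2 h3)⟩

noncomputable def q1Am_c0 (M : MolF) : Fn3 := ⟨_, fun a b c => r2637 (M.at_ a b c) a b c, fun h1 h2 h3 => ((R2637 M).enc h1 h2 h3)⟩

noncomputable def q1Am_c1 (M : MolF) : Fn3 := ⟨_, fun a b c => r2644 (M.at_ a b c) a b c, fun h1 h2 h3 => ((R2644 M).enc h1 h2 h3)⟩

noncomputable def q1Am_n0 (M : MolF) : Fn3 := ⟨_, fun a b c => -(r2657 (M.at_ a b c) a b c), fun h1 h2 h3 => (enc_neg ((R2657 M).enc h1 h2 h3))⟩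

noncomputable def q1Am_n1 (M : MolF) : Fn3 := ⟨_, fun a b c => -(r2663 (M.at_ a b c) a b c), fun h1 h2 h3 => (enc_neg ((R2663 M).enc h1 h2 h3))⟩

noncomputable def q1Am_n2 (M : MolF) : Fn3 := ⟨_, fun a b c => -(r2674 (M.at_ a b c) a b c), fun h1 h2 h3 => (enc_neg ((R2674 M).enc h1 h2 h3))⟩

noncomputable def q1Am_n3 (M : MolF) : Fn3 := ⟨_, fun a b c => r2684 (M.at_ a b c) a b c, fun h1 h2 h3 => ((R2684 M).enc h1 h2 h3)⟩

noncomputable def q1Am_m0 (M : MolF) : Fn3 := ⟨_, fun a b c => -(r2544 (M.at_ a b c) a b c), fun h1 h2 h3 => (enc_neg ((R2544 M).enc h1 h2 h3))⟩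

noncomputable def q1Am_m1 (M : MolF) : Fn3 := ⟨_, fun a b c => r2657 (M.at_ a b c) a b c, fun h1 h2 h3 => ((R2657 M).enc h1 h2 h3)⟩

noncomputable def q1Am_m2 (M : MolF) : Fn3 := ⟨_, fun a b c => -(r2682 (M.at_ a b c) a b c), fun h1 h2 h3 => (enc_neg ((R2682 M).enc h1 h2 h3))⟩

noncomputable def q1Am_m3 (M : MolF) : Fn3 := ⟨_, fun a b c => r2686 (M.at_ a b c) a b c, fun h1 h2 h3 => ((R2686 M).enc h1 h2 h3)⟩

noncomputable def q1Am_g0 (M : MolF) : Fn3 := ⟨_, fun a b c => r2544 (M.at_ a b c) a b c, fun h1 h2 h3 => ((R2544 M).enc h1 h2 h3)⟩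

noncomputable def q1Am_g1 (M : MolF) : Fn3 := ⟨_, fun a b c => r2663 (M.at_ a b c) a b c, fun h1 h2 h3 => ((R2663 M).enc h1 h2 h3)⟩

noncomputable def q1Am_g2 (M : MolF) : Fn3 := ⟨_, fun a b c => r2693 (M.at_ a b c) a b c, fun h1 h2 h3 => ((R2693 M).enc h1 h2 h3)⟩

noncomputable def q1Bp_c0 (M : MolF) : Fn3 := ⟨_, fun a b c => r2724 (M.at_ a b c) a b c, fun h1 h2 h3 => ((R2724 M).enc h1 h2 h3)⟩

noncomputable def q1Bp_c1 (M : MolF) : Fn3 := ⟨_, fun a b c => r2731 (M.at_ a b c) a b c, fun h1 h2 h3 => ((R2731 M).enc h1 h2 h3)⟩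

noncomputable def q1Bp_n0 (M : MolF) : Fn3 := ⟨_, fun a b c => -(r2739 (M.at_ a b c) a b c), fun h1 h2 h3 => (enc_neg ((R2739 M).enc h1 h2 h3))⟩

noncomputable def q1Bp_n1 (M : MolF) : Fn3 := ⟨_, fun a b c => -(r2745 (M.at_ a b c) a b c), fun h1 h2 h3 => (enc_neg ((R2745 M).enc h1 h2 h3))⟩

noncomputable def q1Bp_n2 (M : MolF) : Fn3 := ⟨_, fun a b c => r2756 (M.at_ a b c) a b c, fun h1 h2 h3 => ((R2756 M).enc h1 h2 h3)⟩

noncomputable def q1Bp_n3 (M : MolF) : Fn3 := ⟨_, fun a b c => r2765 (M.at_ a b c) a b c, fun h1 h2 h3 => ((R2765 M).enc h1 h2 h3)⟩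

noncomputable def q1Bp_m0 (M : MolF) : Fn3 := ⟨_, fun a b c => -(r2714 (M.at_ a b c) a b c), fun h1 h2 h3 => (enc_neg ((R2714 M).enc h1 h2 h3))⟩

noncomputable def q1Bp_m1 (M : MolF) : Fn3 := ⟨_, fun a b c => r2739 (M.at_ a b c) a b c, fun h1 h2 h3 => ((R2739 M).enc h1 h2 h3)⟩

noncomputable def q1Bp_m2 (M : MolF) : Fn3 := ⟨_, fun a b c => r2763 (M.at_ a b c) a b c, fun h1 h2 h3 => ((R2763 M).enc h1 h2 h3)⟩

noncomputable def q1Bp_m3 (M : MolF) : Fn3 := ⟨_, fun a b c => r2767 (M.at_ a b c) a b c, fun h1 h2 h3 => ((R2767 M).enc h1 h2 h3)⟩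

noncomputable def q1Bp_g0 (M : MolF) : Fn3 := ⟨_, fun a b c => r2714 (M.at_ a b c) a b c, fun h1 h2 h3 => ((R2714 M).enc h1 h2 h3)⟩

noncomputable def q1Bp_g1 (M : MolF) : Fn3 := ⟨_, fun a b c => r2745 (M.at_ a b c) a b c, fun h1 h2 h3 => ((R2745 M).enc h1 h2 h3)⟩

noncomputable def q1Bp_g2 (M : MolF) : Fn3 := ⟨_, fun a b c => r2772 (M.at_ a b c) a b c, fun h1 h2 h3 => ((R2772 M).enc h1 h2 h3)⟩

noncomputable def q1Bm_c0 (M : MolF) : Fn3 := ⟨_, fun a b c => r2780 (M.at_ a b c) a b c, fun h1 h2 h3 => ((R2780 M).enc h1 h2 h3)⟩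

noncomputable def q1Bm_c1 (M : MolF) : Fn3 := ⟨_, fun a b c => r2787 (M.at_ a b c) a b c, fun h1 h2 h3 => ((R2787 M).enc h1 h2 h3)⟩

noncomputable def q1Bm_n0 (M : MolF) : Fn3 := ⟨_, fun a b c => -(r2800 (M.at_ a b c) a b c), fun h1 h2 h3 => (enc_neg ((R2800 M).enc h1 h2 h3))⟩

noncomputable def q1Bm_n1 (M : MolF) : Fn3 := ⟨_, fun a b c => -(r2805 (M.at_ a b c) a b c), fun h1 h2 h3 => (enc_neg ((R2805 M).enc h1 h2 h3))⟩

noncomputable def q1Bm_n2 (M : MolF) : Fn3 := ⟨_, fun a b c => -(r2815 (M.at_ a b c) a b c), fun h1 h2 h3 => (enc_neg ((R2815 M).enc h1 h2 h3))⟩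

noncomputable def q1Bm_n3 (M : MolF) : Fn3 := ⟨_, fun a b c => r2827 (M.at_ a b c) a b c, fun h1 h2 h3 => ((R2827 M).enc h1 h2 h3)⟩

noncomputable def q1Bm_m0 (M : MolF) : Fn3 := ⟨_, fun a b c => -(r2714 (M.at_ a b c) a b c), fun h1 h2 h3 => (enc_neg ((R2714 M).enc h1 h2 h3))⟩

noncomputable def q1Bm_m1 (M : MolF) : Fn3 := ⟨_, fun a b c => r2800 (M.at_ a b c) a b c, fun h1 h2 h3 => ((R2800 M).enc h1 h2 h3)⟩

noncomputable def q1Bm_m2 (M : MolF) : Fn3 := ⟨_, fun a b c => -(r2825 (M.at_ a b c) a b c), fun h1 h2 h3 => (enc_neg ((R2825 M).enc h1 h2 h3))⟩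

noncomputable def q1Bm_m3 (M : MolF) : Fn3 := ⟨_, fun a b c => r2829 (M.at_ a b c) a b c, fun h1 h2 h3 => ((R2829 M).enc h1 h2 h3)⟩

noncomputable def q1Bm_g0 (M : MolF) : Fn3 := ⟨_, fun a b c => r2714 (M.at_ a b c) a b c, fun h1 h2 h3 => ((R2714 M).enc h1 h2 h3)⟩

noncomputable def q1Bm_g1 (M : MolF) : Fn3 := ⟨_, fun a b c => r2805 (M.at_ a b c) a b c, fun h1 h2 h3 => ((R2805 M).enc h1 h2 h3)⟩

noncomputable def q1Bm_g2 (M : MolF) : Fn3 := ⟨_, fun a b c => r2836 (M.at_ a b c) a b c, fun h1 h2 h3 => ((R2836 M).enc h1 h2 h3)⟩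

end Pool.Agent.Strip051.PB.Mol
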