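import Pool.Agent.Strip051.PB.MoR1
import Pool.Agent.Strip051.PB.MolK

/-! # The tight charts without division: the test of a leaf (generated)

Three lists of alternatives. -/

set_option linter.unusedVariables false

namespace Pool.Agent.Strip051.PB.Mol

open Pool.Agent.StripNear Pool.Agent.StripSquare Pool.Agent.Strip051.Sweep
open Pool.Agent.Strip051.LC Pool.Agent.Strip051.LC.MolN
open Pool.Agent.Strip051.PB

/-- A chart with three lists of alternatives. -/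
structure Cht3 where
  (sk cm al be ga : List Fn3)

/-- the test of a leaf: odd hints exclude the box, even hints choose the three alternatives -/
noncomputable def Cht3.t (K : Cht3) (h A B C : ℕ) : Bool :=
  Bool.rec (motive := fun _ => Bool)
    (band (all3 K.cm A B C) (band (nth3 K.al (Nat.land (Nat.shiftRight h 1) 3) A B C)
      (band (nth3 K.be (Nat.land (Nat.shiftRight h 3) 3) A B C)
        (nth3 K.ga (Nat.shiftRight h 5) A B C))))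
    (nth3 K.sk (Nat.shiftRight h 1) A B C) (Nat.beq (Nat.land h 1) 1)

/-- the statement of a chart -/
def Cht3.P (K : Cht3) (a b c : ℝ) : Prop :=
  (∃ F ∈ K.sk, 0 < F.v a b c) ∨ ((∀ F ∈ K.cm, 0 < F.v a b c) ∧ (∃ F ∈ K.al, 0 < F.v a b c) ∧
    (∃ F ∈ K.be, 0 < F.v a b c) ∧ ∃ F ∈ K.ga, 0 < F.v a b c)

theorem Cht3.sound (K : Cht3) {E : Pt} {h A B C : ℕ} {a b c : ℝ} (hA : Enc E A a) (hB : Enc E B b)
    (hC : Enc E C c) (ht : K.t h A B C = true) : K.P a b c := by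
  unfold Cht3.t at ht
  unfold Cht3.P
  cases hb : Nat.beq (Nat.land h 1) 1 with
  | true =>
    rw [hb] at ht
    exact Or.inl (nth3_sound hA hB hC _ _ ht)
  | false =>
    rw [hb] at ht
    obtain ⟨h1, h2⟩ := band_true (show band _ _ = true from ht)
    obtain ⟨h3, h4⟩ := band_true h2
    obtain ⟨h5, h6⟩ := band_true h4
    exact Or.inr ⟨all3_sound hA hB hC _ h1, nth3_sound hA hB hC _ _ h3,
      nth3_sound hA hB hC _ _ h5, nth3_sound hA hB hC _ _ h6⟩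

/-- The chart in the coordinates `p = u + r`, `q = b` or `q = -b`. -/
noncomputable def Cht3.row (K : Cht3) (ng : Bool) (r h A B C : ℕ) : Bool :=
  frc (pnorm (psub A (pdc r 0))) fun U =>
    frc (Bool.rec (motive := fun _ => ℕ) B (pneg B) ng) fun V => K.t h U V C

theorem Cht3.row_sound (K : Cht3) {ng : Bool} {r : ℕ} {E : Pt} {h A B C : ℕ} {p q x : ℝ}
    (hA : Enc E A p) (hB : Enc E B q) (hC : Enc E C x) (ht : K.row ng r h A B C = true) :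
    K.P (p - r / S) (cond ng (-q) q) x := by
  simp only [Cht3.row, frc_eq] at ht
  have e1 : Enc E (pnorm (psub A (pdc r 0))) (p - r / S) := by
    have := enc_sub hA (enc_dc E r 0)
    rw [Nat.cast_zero, sub_zero] at this
    exact enc_norm this
  cases ng
  · exact K.sound e1 hB hC ht
  · exact K.sound e1 (enc_neg hB) hC ht

/-- **From the certificate of a chart.** -/
theorem Cht3.cert {K : Cht3} {ng : Bool} {r W1 W2 P3 W3 : ℕ}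
    (ht : ∃ t, chk3 (onCell 0 W1 0 W2 P3 W3 (K.row ng r)) t 1 1 1 = true) {u b x : ℝ}
    (h1 : -(r / S : ℝ) ≤ u) (h2 : u + r / S ≤ (W1 : ℝ) / S) (h3 : 0 ≤ cond ng (-b) b)
    (h4 : cond ng (-b) b ≤ (W2 : ℝ) / S) (h5 : (P3 : ℝ) / S ≤ x) (h6 : x ≤ ((P3 : ℝ) + W3) / S) :
    K.P u b x := by
  have key := onCell_sound (Q := fun p q x => K.P (p - r / S) (cond ng (-q) q) x)
    (fun e1 e2 e3 hh => K.row_sound e1 e2 e3 hh) ht (p := u + r / S) (q := cond ng (-b) b)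
    (by simp only [Nat.cast_zero, zero_div]; linarith) (by simpa using h2)
    (by simpa using h3) (by simpa using h4) h5 h6
  simp only [add_sub_cancel_right] at key
  cases ng
  · exact key
  · simpa using key

theorem ex4 {A B C D : Fn3} {a b c : ℝ} (h : ∃ F ∈ [A, B, C, D], 0 < F.v a b c) :
    0 < A.v a b c ∨ 0 < B.v a b c ∨ 0 < C.v a b c ∨ 0 < D.v a b c := by
  obtain ⟨F, hF, h⟩ := h
  simp only [List.mem_cons, List.not_mem_nil, or_false] at hF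
  rcases hF with rfl | rfl | rfl | rfl
  · exact Or.inl h
  · exact Or.inr (Or.inl h)
  · exact Or.inr (Or.inr (Or.inl h))
  · exact Or.inr (Or.inr (Or.inr h))

theorem ex3 {A B C : Fn3} {a b c : ℝ} (h : ∃ F ∈ [A, B, C], 0 < F.v a b c) :
    0 < A.v a b c ∨ 0 < B.v a b c ∨ 0 < C.v a b c := by
  obtain ⟨F, hF, h⟩ := h
  simp only [List.mem_cons, List.not_mem_nil, or_false] at hF
  rcases hF with rfl | rfl | rfl
  · exact Or.inl h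
  · exact Or.inr (Or.inl h)
  · exact Or.inr (Or.inr h)

/-- The chart `0Ap`. -/
noncomputable def kq0Ap (M : MolF) (sk cx : List Fn3) : Cht3 :=
  ⟨sk, q0Ap_c0 M :: q0Ap_c1 M :: cx, [q0Ap_n0 M, q0Ap_n1 M, q0Ap_n2 M, q0Ap_n3 M], [q0Ap_m0 M, q0Ap_m1 M, q0Ap_m2 M, q0Ap_m3 M], [q0Ap_g0 M, q0Ap_g1 M, q0Ap_g2 M]⟩

theorem rq0Ap {M : MolF} {sk cx : List Fn3} {u b x : ℝ} (K : (kq0Ap M sk cx).P u b x)
    (hs : ∀ F ∈ sk, F.v u b x ≤ 0) : (∀ F ∈ cx, 0 < F.v u b x) ∧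
    0 < r2194 (M.at_ u b x) u b x ∧
    0 < r2202 (M.at_ u b x) u b x ∧
    (0 < -(r2217 (M.at_ u b x) u b x) ∨ 0 < -(r2226 (M.at_ u b x) u b x) ∨ 0 < r2237 (M.at_ u b x) u b x ∨ 0 < r2263 (M.at_ u b x) u b x) ∧
    (0 < -(r2183 (M.at_ u b x) u b x) ∨ 0 < r2217 (M.at_ u b x) u b x ∨ 0 < r2248 (M.at_ u b x) u b x ∨ 0 < r2267 (M.at_ u b x) u b x) ∧
    (0 < r2183 (M.at_ u b x) u b x ∨ 0 < r2226 (M.at_ u b x) u b x ∨ 0 < r2272 (M.at_ u b x) u b x) := by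
  rcases K with ⟨F, hF, h⟩ | ⟨h1, h2, h3, h4⟩
  · exact absurd h (not_lt.2 (hs F hF))
  · exact ⟨fun F hF => h1 F (List.mem_cons_of_mem _ (List.mem_cons_of_mem _ hF)),
      h1 _ List.mem_cons_self, h1 _ (List.mem_cons_of_mem _ List.mem_cons_self),
      ex4 h2, ex4 h3, ex3 h4⟩

/-- The chart `0Am`. -/
noncomputable def kq0Am (M : MolF) (sk cx : List Fn3) : Cht3 :=
  ⟨sk, q0Am_c0 M :: q0Am_c1 M :: cx, [q0Am_n0 M, q0Am_n1 M, q0Am_n2 M, q0Am_n3 M], [q0Am_m0 M, q0Am_m1 M, q0Am_m2 M, q0Am_m3 M], [q0Am_g0 M, q0Am_g1 M, q0Am_g2 M]⟩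

theorem rq0Am {M : MolF} {sk cx : List Fn3} {u b x : ℝ} (K : (kq0Am M sk cx).P u b x)
    (hs : ∀ F ∈ sk, F.v u b x ≤ 0) : (∀ F ∈ cx, 0 < F.v u b x) ∧
    0 < r2287 (M.at_ u b x) u b x ∧
    0 < r2294 (M.at_ u b x) u b x ∧
    (0 < -(r2307 (M.at_ u b x) u b x) ∨ 0 < -(r2313 (M.at_ u b x) u b x) ∨ 0 < -(r2324 (M.at_ u b x) u b x) ∨ 0 < r2334 (M.at_ u b x) u b x) ∧
    (0 < -(r2183 (M.at_ u b x) u b x) ∨ 0 < r2307 (M.at_ u b x) u b x ∨ 0 < -(r2332 (M.at_ u b x) u b x) ∨ 0 < r2336 (M.at_ u b x) u b x) ∧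
    (0 < r2183 (M.at_ u b x) u b x ∨ 0 < r2313 (M.at_ u b x) u b x ∨ 0 < r2343 (M.at_ u b x) u b x) := by
  rcases K with ⟨F, hF, h⟩ | ⟨h1, h2, h3, h4⟩
  · exact absurd h (not_lt.2 (hs F hF))
  · exact ⟨fun F hF => h1 F (List.mem_cons_of_mem _ (List.mem_cons_of_mem _ hF)),
      h1 _ List.mem_cons_self, h1 _ (List.mem_cons_of_mem _ List.mem_cons_self),
      ex4 h2, ex4 h3, ex3 h4⟩

/-- The chart `0Bp`. -/
noncomputable def kq0Bp (M : MolF) (sk cx : List Fn3) : Cht3 :=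
  ⟨sk, q0Bp_c0 M :: q0Bp_c1 M :: cx, [q0Bp_n0 M, q0Bp_n1 M, q0Bp_n2 M, q0Bp_n3 M], [q0Bp_m0 M, q0Bp_m1 M, q0Bp_m2 M, q0Bp_m3 M], [q0Bp_g0 M, q0Bp_g1 M, q0Bp_g2 M]⟩

theorem rq0Bp {M : MolF} {sk cx : List Fn3} {u b x : ℝ} (K : (kq0Bp M sk cx).P u b x)
    (hs : ∀ F ∈ sk, F.v u b x ≤ 0) : (∀ F ∈ cx, 0 < F.v u b x) ∧
    0 < r2386 (M.at_ u b x) u b x ∧
    0 < r2393 (M.at_ u b x) u b x ∧
    (0 < -(r2401 (M.at_ u b x) u b x) ∨ 0 < -(r2407 (M.at_ u b x) u b x) ∨ 0 < r2418 (M.at_ u b x) u b x ∨ 0 < r2427 (M.at_ u b x) u b x) ∧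
    (0 < -(r2376 (M.at_ u b x) u b x) ∨ 0 < r2401 (M.at_ u b x) u b x ∨ 0 < r2425 (M.at_ u b x) u b x ∨ 0 < r2429 (M.at_ u b x) u b x) ∧
    (0 < r2376 (M.at_ u b x) u b x ∨ 0 < r2407 (M.at_ u b x) u b x ∨ 0 < r2434 (M.at_ u b x) u b x) := by
  rcases K with ⟨F, hF, h⟩ | ⟨h1, h2, h3, h4⟩
  · exact absurd h (not_lt.2 (hs F hF))
  · exact ⟨fun F hF => h1 F (List.mem_cons_of_mem _ (List.mem_cons_of_mem _ hF)),
      h1 _ List.mem_cons_self, h1 _ (List.mem_cons_of_mem _ List.mem_cons_self),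
      ex4 h2, ex4 h3, ex3 h4⟩

/-- The chart `0Bm`. -/
noncomputable def kq0Bm (M : MolF) (sk cx : List Fn3) : Cht3 :=
  ⟨sk, q0Bm_c0 M :: q0Bm_c1 M :: cx, [q0Bm_n0 M, q0Bm_n1 M, q0Bm_n2 M, q0Bm_n3 M], [q0Bm_m0 M, q0Bm_m1 M, q0Bm_m2 M, q0Bm_m3 M], [q0Bm_g0 M, q0Bm_g1 M, q0Bm_g2 M]⟩

theorem rq0Bm {M : MolF} {sk cx : List Fn3} {u b x : ℝ} (K : (kq0Bm M sk cx).P u b x)
    (hs : ∀ F ∈ sk, F.v u b x ≤ 0) : (∀ F ∈ cx, 0 < F.v u b x) ∧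
    0 < r2443 (M.at_ u b x) u b x ∧
    0 < r2450 (M.at_ u b x) u b x ∧
    (0 < -(r2463 (M.at_ u b x) u b x) ∨ 0 < -(r2468 (M.at_ u b x) u b x) ∨ 0 < -(r2478 (M.at_ u b x) u b x) ∨ 0 < r2491 (M.at_ u b x) u b x) ∧
    (0 < -(r2376 (M.at_ u b x) u b x) ∨ 0 < r2463 (M.at_ u b x) u b x ∨ 0 < -(r2489 (M.at_ u b x) u b x) ∨ 0 < r2493 (M.at_ u b x) u b x) ∧
    (0 < r2376 (M.at_ u b x) u b x ∨ 0 < r2468 (M.at_ u b x) u b x ∨ 0 < r2500 (M.at_ u b x) u b x) := by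
  rcases K with ⟨F, hF, h⟩ | ⟨h1, h2, h3, h4⟩
  · exact absurd h (not_lt.2 (hs F hF))
  · exact ⟨fun F hF => h1 F (List.mem_cons_of_mem _ (List.mem_cons_of_mem _ hF)),
      h1 _ List.mem_cons_self, h1 _ (List.mem_cons_of_mem _ List.mem_cons_self),
      ex4 h2, ex4 h3, ex3 h4⟩

/-- The chart `1Ap`. -/
noncomputable def kq1Ap (M : MolF) (sk cx : List Fn3) : Cht3 :=
  ⟨sk, q1Ap_c0 M :: q1Ap_c1 M :: cx, [q1Ap_n0 M, q1Ap_n1 M, q1Ap_n2 M, q1Ap_n3 M], [q1Ap_m0 M, q1Ap_m1 M, q1Ap_m2 M, q1Ap_m3 M], [q1Ap_g0 M, q1Ap_g1 M, q1Ap_g2 M]⟩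

theorem rq1Ap {M : MolF} {sk cx : List Fn3} {u b x : ℝ} (K : (kq1Ap M sk cx).P u b x)
    (hs : ∀ F ∈ sk, F.v u b x ≤ 0) : (∀ F ∈ cx, 0 < F.v u b x) ∧
    0 < r2555 (M.at_ u b x) u b x ∧
    0 < r2562 (M.at_ u b x) u b x ∧
    (0 < -(r2577 (M.at_ u b x) u b x) ∨ 0 < -(r2586 (M.at_ u b x) u b x) ∨ 0 < r2597 (M.at_ u b x) u b x ∨ 0 < r2614 (M.at_ u b x) u b x) ∧
    (0 < -(r2544 (M.at_ u b x) u b x) ∨ 0 < r2577 (M.at_ u b x) u b x ∨ 0 < r2607 (M.at_ u b x) u b x ∨ 0 < r2618 (M.at_ u b x) u b x) ∧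
    (0 < r2544 (M.at_ u b x) u b x ∨ 0 < r2586 (M.at_ u b x) u b x ∨ 0 < r2623 (M.at_ u b x) u b x) := by
  rcases K with ⟨F, hF, h⟩ | ⟨h1, h2, h3, h4⟩
  · exact absurd h (not_lt.2 (hs F hF))
  · exact ⟨fun F hF => h1 F (List.mem_cons_of_mem _ (List.mem_cons_of_mem _ hF)),
      h1 _ List.mem_cons_self, h1 _ (List.mem_cons_of_mem _ List.mem_cons_self),
      ex4 h2, ex4 h3, ex3 h4⟩

/-- The chart `1Am`. -/
noncomputable def kq1Am (M : MolF) (sk cx : List Fn3) : Cht3 :=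
  ⟨sk, q1Am_c0 M :: q1Am_c1 M :: cx, [q1Am_n0 M, q1Am_n1 M, q1Am_n2 M, q1Am_n3 M], [q1Am_m0 M, q1Am_m1 M, q1Am_m2 M, q1Am_m3 M], [q1Am_g0 M, q1Am_g1 M, q1Am_g2 M]⟩

theorem rq1Am {M : MolF} {sk cx : List Fn3} {u b x : ℝ} (K : (kq1Am M sk cx).P u b x)
    (hs : ∀ F ∈ sk, F.v u b x ≤ 0) : (∀ F ∈ cx, 0 < F.v u b x) ∧
    0 < r2637 (M.at_ u b x) u b x ∧
    0 < r2644 (M.at_ u b x) u b x ∧
    (0 < -(r2657 (M.at_ u b x) u b x) ∨ 0 < -(r2663 (M.at_ u b x) u b x) ∨ 0 < -(r2674 (M.at_ u b x) u b x) ∨ 0 < r2684 (M.at_ u b x) u b x) ∧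
    (0 < -(r2544 (M.at_ u b x) u b x) ∨ 0 < r2657 (M.at_ u b x) u b x ∨ 0 < -(r2682 (M.at_ u b x) u b x) ∨ 0 < r2686 (M.at_ u b x) u b x) ∧
    (0 < r2544 (M.at_ u b x) u b x ∨ 0 < r2663 (M.at_ u b x) u b x ∨ 0 < r2693 (M.at_ u b x) u b x) := by
  rcases K with ⟨F, hF, h⟩ | ⟨h1, h2, h3, h4⟩
  · exact absurd h (not_lt.2 (hs F hF))
  · exact ⟨fun F hF => h1 F (List.mem_cons_of_mem _ (List.mem_cons_of_mem _ hF)),
      h1 _ List.mem_cons_self, h1 _ (List.mem_cons_of_mem _ List.mem_cons_self),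
      ex4 h2, ex4 h3, ex3 h4⟩

/-- The chart `1Bp`. -/
noncomputable def kq1Bp (M : MolF) (sk cx : List Fn3) : Cht3 :=
  ⟨sk, q1Bp_c0 M :: q1Bp_c1 M :: cx, [q1Bp_n0 M, q1Bp_n1 M, q1Bp_n2 M, q1Bp_n3 M], [q1Bp_m0 M, q1Bp_m1 M, q1Bp_m2 M, q1Bp_m3 M], [q1Bp_g0 M, q1Bp_g1 M, q1Bp_g2 M]⟩

theorem rq1Bp {M : MolF} {sk cx : List Fn3} {u b x : ℝ} (K : (kq1Bp M sk cx).P u b x)
    (hs : ∀ F ∈ sk, F.v u b x ≤ 0) : (∀ F ∈ cx, 0 < F.v u b x) ∧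
    0 < r2724 (M.at_ u b x) u b x ∧
    0 < r2731 (M.at_ u b x) u b x ∧
    (0 < -(r2739 (M.at_ u b x) u b x) ∨ 0 < -(r2745 (M.at_ u b x) u b x) ∨ 0 < r2756 (M.at_ u b x) u b x ∨ 0 < r2765 (M.at_ u b x) u b x) ∧
    (0 < -(r2714 (M.at_ u b x) u b x) ∨ 0 < r2739 (M.at_ u b x) u b x ∨ 0 < r2763 (M.at_ u b x) u b x ∨ 0 < r2767 (M.at_ u b x) u b x) ∧
    (0 < r2714 (M.at_ u b x) u b x ∨ 0 < r2745 (M.at_ u b x) u b x ∨ 0 < r2772 (M.at_ u b x) u b x) := by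
  rcases K with ⟨F, hF, h⟩ | ⟨h1, h2, h3, h4⟩
  · exact absurd h (not_lt.2 (hs F hF))
  · exact ⟨fun F hF => h1 F (List.mem_cons_of_mem _ (List.mem_cons_of_mem _ hF)),
      h1 _ List.mem_cons_self, h1 _ (List.mem_cons_of_mem _ List.mem_cons_self),
      ex4 h2, ex4 h3, ex3 h4⟩

/-- The chart `1Bm`. -/
noncomputable def kq1Bm (M : MolF) (sk cx : List Fn3) : Cht3 :=
  ⟨sk, q1Bm_c0 M :: q1Bm_c1 M :: cx, [q1Bm_n0 M, q1Bm_n1 M, q1Bm_n2 M, q1Bm_n3 M], [q1Bm_m0 M, q1Bm_m1 M, q1Bm_m2 M, q1Bm_m3 M], [q1Bm_g0 M, q1Bm_g1 M, q1Bm_g2 M]⟩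

theorem rq1Bm {M : MolF} {sk cx : List Fn3} {u b x : ℝ} (K : (kq1Bm M sk cx).P u b x)
    (hs : ∀ F ∈ sk, F.v u b x ≤ 0) : (∀ F ∈ cx, 0 < F.v u b x) ∧
    0 < r2780 (M.at_ u b x) u b x ∧
    0 < r2787 (M.at_ u b x) u b x ∧
    (0 < -(r2800 (M.at_ u b x) u b x) ∨ 0 < -(r2805 (M.at_ u b x) u b x) ∨ 0 < -(r2815 (M.at_ u b x) u b x) ∨ 0 < r2827 (M.at_ u b x) u b x) ∧
    (0 < -(r2714 (M.at_ u b x) u b x) ∨ 0 < r2800 (M.at_ u b x) u b x ∨ 0 < -(r2825 (M.at_ u b x) u b x) ∨ 0 < r2829 (M.at_ u b x) u b x) ∧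
    (0 < r2714 (M.at_ u b x) u b x ∨ 0 < r2805 (M.at_ u b x) u b x ∨ 0 < r2836 (M.at_ u b x) u b x) := by
  rcases K with ⟨F, hF, h⟩ | ⟨h1, h2, h3, h4⟩
  · exact absurd h (not_lt.2 (hs F hF))
  · exact ⟨fun F hF => h1 F (List.mem_cons_of_mem _ (List.mem_cons_of_mem _ hF)),
      h1 _ List.mem_cons_self, h1 _ (List.mem_cons_of_mem _ List.mem_cons_self),
      ex4 h2, ex4 h3, ex3 h4⟩

end Pool.Agent.Strip051.PB.Mol
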