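import Pool.Agent.Strip051.PB.MolQ
import Pool.Agent.Strip051.PB.MoR2

/-! # The tight triangles without division: the charts in closed form (generated)

`q1`, `m1` are the slopes of the values themselves, not of the values divided by the height. -/

set_option linter.unusedVariables false

namespace Pool.Agent.Strip051.PB.Mol

open Pool.Agent.StripNear Pool.Agent.StripSquare Pool.Agent.Strip051.Sweep
open Pool.Agent.Strip051.LC Pool.Agent.Strip051.LC.MolN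
open Pool.Agent.Strip051.LC.Line (tau)

/-- The values of the kernel, family `A`. -/
structure KerJA (T : MolP) (u b x X : ℝ) (r : ℝ × ℝ × ℝ) : Prop where
  r1 : r.1 = (c1n (x + u) * cG (x + u) + T.dy) * (x + u) + b * T.q1
  rs : r.2.1 = -(1 / 2 + b * T.rs)
  rw : r.2.2 = ((c1n (x + u + b) - 1 / 2) * cG (x + u + b) + (T.dy + b * T.d1)) * (x + u + b) + T.sK * (X - (c1n (x + u + b) - 1 / 2))

/-- The values of the second kernel, family `A`. -/
structure DerJA (T : MolP) (u b x X : ℝ) (r : ℝ × ℝ × ℝ) : Prop where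
  r1 : r.1 = (cP (x + u) - (cR (x + u) + 2 * c1n (x + u)) * T.dy) * (x + u) + b * T.m1
  rs : r.2.1 = -(b * T.k2)
  rw : r.2.2 = (cP (x + u + b) - 1 / 2 * cD (x + u + b) -
    (cR (x + u + b) + 2 * c1n (x + u + b) - 1) * (T.dy + b * T.d1)) * (x + u + b) +
    T.sD * (X - (c1n (x + u + b) - 1 / 2))

/-- The values of the kernel, family `B`. -/
structure KerJB (T : MolP) (u b x X : ℝ) (r : ℝ × ℝ × ℝ) : Prop where
  r1 : r.1 = (c1n (x + u) * cG (x + u) + T.dy) * (x + u) + b * T.q1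
  rs : r.2.2 = -(1 / 2 + b * T.rs)
  rw : r.2.1 = ((c1n (x + u - b) + 1 / 2) * cG (x + u - b) + (T.dy + b * T.d1)) * (-(x + u - b)) - T.sK * (X - (c1n (x + u - b) + 1 / 2))

/-- The values of the second kernel, family `B`. -/
structure DerJB (T : MolP) (u b x X : ℝ) (r : ℝ × ℝ × ℝ) : Prop where
  r1 : r.1 = (cP (x + u) - (cR (x + u) + 2 * c1n (x + u)) * T.dy) * (x + u) + b * T.m1
  rs : r.2.2 = -(b * T.k2)
  rw : r.2.1 = (cP (x + u - b) + 1 / 2 * cD (x + u - b) -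
    (cR (x + u - b) + 2 * c1n (x + u - b) + 1) * (T.dy + b * T.d1)) * (-(x + u - b)) -
    T.sD * (X - (c1n (x + u - b) + 1 / 2))

theorem n95_e (T : MolP) {u b x : ℝ} : n95 T u b x = c1n (x + u) * cG (x + u) + T.dy := by
  have h := K1_eqA T (u := u) (b := b) (x := x)
  simp only [n100] at h
  linarith

theorem n703_e (T : MolP) {u b x : ℝ} :
    n703 T u b x = cP (x + u) - (cR (x + u) + 2 * c1n (x + u)) * T.dy := by
  have h := Kp1_eqA T (u := u) (b := b) (x := x)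
  simp only [n716] at h
  linarith

theorem kerJ0A {T : MolP} {u b x X12 X13 : ℝ} {r : ℝ × ℝ × ℝ} (h : DomA u b x)
    (hi : T.it * (x + u + b) = 1) (a : AbsA T u b x X12 X13) (k : KerJA T u b x X13 r) :
    r = ((n95 T u b x + b * (T.q1 / n3 T u b x)) * (x + u), -(n142 T u b x), (n139 T u b x) * (x + u + b)) := by
  have e := x1A h a
  have y0 : x + u ≠ 0 := h.y0.ne'
  obtain ⟨k1, k2, k3⟩ := k
  have g1 : r.1 = (n95 T u b x + b * (T.q1 / n3 T u b x)) * (x + u) := by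
    rw [k1, n95_e, y_eq]
    field_simp
  have g2 : r.2.1 = -(n142 T u b x) := by
    rw [k2]
    simp only [n142]
    all_goals ring
  have g3 : r.2.2 = (n139 T u b x) * (x + u + b) := by
    rw [k3, e]
    simp only [n139, n136]
    rw [KW_eqA]
    linear_combination (-T.sK * b * (n98 T u b x)) * hi
  refine Prod.ext g1 (Prod.ext ?_ ?_)
  · exact g2
  · exact g3

theorem derJA {T : MolP} {u b x X12 X13 : ℝ} {r : ℝ × ℝ × ℝ} (h : DomA u b x)
    (hi : T.it * (x + u + b) = 1) (a : AbsA T u b x X12 X13) (k : DerJA T u b x X13 r) :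
    r = ((n703 T u b x + b * (T.m1 / n3 T u b x)) * (x + u), -(b * T.k2), (n721 T u b x) * (x + u + b)) := by
  have e := x1A h a
  have y0 : x + u ≠ 0 := h.y0.ne'
  obtain ⟨k1, k2, k3⟩ := k
  have g1 : r.1 = (n703 T u b x + b * (T.m1 / n3 T u b x)) * (x + u) := by
    rw [k1, n703_e, y_eq]
    field_simp
  have g2 : r.2.1 = -(b * T.k2) := k2
  have g3 : r.2.2 = (n721 T u b x) * (x + u + b) := by
    rw [k3, e]
    simp only [n721, n718]
    rw [KpW_eqA]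
    linear_combination (-T.sD * b * (n98 T u b x)) * hi
  refine Prod.ext g1 (Prod.ext ?_ ?_)
  · exact g2
  · exact g3

theorem kerJ1A {T : MolP} {u b x X12 X13 : ℝ} {r rB rD : ℝ × ℝ × ℝ} (h : DomA u b x)
    (hi : T.it * (x + u + b) = 1) (a : AbsA T u b x X12 X13) (k : KerJA T u b x X13 rB)
    (d : DerJA T u b x X13 rD) (hr : r = ((1 + mun 3 x * cR x) * rB.1 + mun 3 x * rD.1,
      (1 + mun 3 x * cR x) * rB.2.1 + mun 3 x * rD.2.1,
      (1 + mun 3 x * cR x) * rB.2.2 + mun 3 x * rD.2.2)) :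
    r = ((n728 T u b x + b * (T.q1 / n3 T u b x * (n662 T u b x) + T.m1 / n3 T u b x * (n599 T u b x))) * (x + u), -(n748 T u b x), (n739 T u b x) * (x + u + b)) := by
  have e0 := kerJ0A h hi a k
  have e1 := derJA h hi a d
  rw [hr, e0, e1, ← fac_eqA T (u := u) (b := b), ← mu_eqA T (u := u) (b := b)]
  refine Prod.ext ?_ (Prod.ext ?_ ?_)
  · simp only [n728, n722, n725]
    ring
  · simp only [n748, n746, n744, n741]
    ring
  · simp only [n739, n736, n733]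
    ring

theorem kerJ0B {T : MolP} {u b x X12 X13 : ℝ} {r : ℝ × ℝ × ℝ} (h : DomB u b x)
    (hi : T.it * (x + u - b) = -1) (a : AbsB T u b x X12 X13) (k : KerJB T u b x (X12 - X13) r) :
    r = ((n95 T u b x + b * (T.q1 / n3 T u b x)) * (x + u), (n443 T u b x) * (-(x + u - b)), -(n142 T u b x)) := by
  have e := x1B h a
  have y0 : x + u ≠ 0 := h.y0.ne'
  obtain ⟨k1, k2, k3⟩ := k
  have g1 : r.1 = (n95 T u b x + b * (T.q1 / n3 T u b x)) * (x + u) := by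
    rw [k1, n95_e, y_eq]
    field_simp
  have g2 : r.2.2 = -(n142 T u b x) := by
    rw [k2]
    simp only [n142]
    all_goals ring
  have g3 : r.2.1 = (n443 T u b x) * (-(x + u - b)) := by
    rw [k3, e]
    simp only [n443, n438]
    rw [KW_eqB]
    linear_combination (-T.sK * b * (n413 T u b x)) * hi
  refine Prod.ext g1 (Prod.ext ?_ ?_)
  · exact g3
  · exact g2

theorem derJB {T : MolP} {u b x X12 X13 : ℝ} {r : ℝ × ℝ × ℝ} (h : DomB u b x)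
    (hi : T.it * (x + u - b) = -1) (a : AbsB T u b x X12 X13) (k : DerJB T u b x (X12 - X13) r) :
    r = ((n703 T u b x + b * (T.m1 / n3 T u b x)) * (x + u), (n1035 T u b x) * (-(x + u - b)), -(b * T.k2)) := by
  have e := x1B h a
  have y0 : x + u ≠ 0 := h.y0.ne'
  obtain ⟨k1, k2, k3⟩ := k
  have g1 : r.1 = (n703 T u b x + b * (T.m1 / n3 T u b x)) * (x + u) := by
    rw [k1, n703_e, y_eq]
    field_simp
  have g2 : r.2.2 = -(b * T.k2) := k2
  have g3 : r.2.1 = (n1035 T u b x) * (-(x + u - b)) := by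
    rw [k3, e]
    simp only [n1035, n1030]
    rw [KpW_eqB]
    linear_combination (-T.sD * b * (n413 T u b x)) * hi
  refine Prod.ext g1 (Prod.ext ?_ ?_)
  · exact g3
  · exact g2

theorem kerJ1B {T : MolP} {u b x X12 X13 : ℝ} {r rB rD : ℝ × ℝ × ℝ} (h : DomB u b x)
    (hi : T.it * (x + u - b) = -1) (a : AbsB T u b x X12 X13) (k : KerJB T u b x (X12 - X13) rB)
    (d : DerJB T u b x (X12 - X13) rD) (hr : r = ((1 + mun 3 x * cR x) * rB.1 + mun 3 x * rD.1,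
      (1 + mun 3 x * cR x) * rB.2.1 + mun 3 x * rD.2.1,
      (1 + mun 3 x * cR x) * rB.2.2 + mun 3 x * rD.2.2)) :
    r = ((n728 T u b x + b * (T.q1 / n3 T u b x * (n662 T u b x) + T.m1 / n3 T u b x * (n599 T u b x))) * (x + u), (n1044 T u b x) * (-(x + u - b)), -(n748 T u b x)) := by
  have e0 := kerJ0B h hi a k
  have e1 := derJB h hi a d
  rw [hr, e0, e1, ← fac_eqA T (u := u) (b := b), ← mu_eqA T (u := u) (b := b)]
  refine Prod.ext ?_ (Prod.ext ?_ ?_)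
  · simp only [n728, n722, n725]
    ring
  · simp only [n1044, n1041, n1038]
    ring
  · simp only [n748, n746, n744, n741]
    ring

theorem gin0Ap {T : MolP} {u b x κ y y' X12 X13 : ℝ} {r l : ℝ × ℝ × ℝ}
    (h : DomA u b x) (hb : 0 ≤ b) (hκ : κ * h0 = ken x) (hy : y = x + u) (hy' : y' = 1 + b)
    (hi : T.it * (x + u + b) = 1) (ha : AbsA T u b x X12 X13) (hk : KerJA T u b x X13 r)
    (hl : LevA T u b x X13 l) (t1 : tau (h0 * y) = h0 * (x + u)) (t3 : tau (h0 * y + h0 * y') = h0 * (x + u + b))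
    (hP : 0 < r2194 T u b x) (hQ : 0 < r2202 T u b x)
    (tN : 0 < -(r2217 T u b x) ∨ 0 < -(r2226 T u b x) ∨ 0 < r2237 T u b x ∨ 0 < r2263 T u b x)
    (tM : 0 < -(r2183 T u b x) ∨ 0 < r2217 T u b x ∨ 0 < r2248 T u b x ∨ 0 < r2267 T u b x)
    (tG : 0 < r2183 T u b x ∨ 0 < r2226 T u b x ∨ 0 < r2272 T u b x) :
    NGV κ (h0 * x) (lvF (exn' X12 X13 y (y + y')) l) (h0 * y) (h0 * y') r := by
  have ee : exn' X12 X13 y (y + y') = n160 T u b x + b * (1 / 2 * (n12 T u b x + (T.p1) * (n16 T u b x) + (T.ws) * (n3 T u b x))) := by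
    rw [hy, hy']
    exact exq (Xs := 0) rfl ha.h12 ha.h13
  rw [ev0Ap h hb ha hl ee, kerJ0A h hi ha hk]
  have hh : h0 * y' = h0 + h0 * b := by
    rw [hy']
    ring
  rw [hh] at t3 ⊢
  rw [hy] at t1 t3 ⊢
  have k := rh0Ap T h hb (by rw [ypA_eq]; exact hi) (hk_e T h.x0 h.x1 hκ) hP hQ tN tM tG
    (by rw [y_eq]; exact t1) (by rw [y_eq]; exact t3)
  rw [y_eq] at k
  rw [y_eq]
  exact k

theorem gin0Am {T : MolP} {u b x κ y y' X12 X13 : ℝ} {r l : ℝ × ℝ × ℝ}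
    (h : DomA u b x) (hb : b < 0) (hκ : κ * h0 = ken x) (hy : y = x + u) (hy' : y' = 1 + b)
    (hi : T.it * (x + u + b) = 1) (ha : AbsA T u b x X12 X13) (hk : KerJA T u b x X13 r)
    (hl : LevA T u b x X13 l) (t1 : tau (h0 * y) = h0 * (x + u)) (t3 : tau (h0 * y + h0 * y') = h0 * (x + u + b))
    (hP : 0 < r2287 T u b x) (hQ : 0 < r2294 T u b x)
    (tN : 0 < -(r2307 T u b x) ∨ 0 < -(r2313 T u b x) ∨ 0 < -(r2324 T u b x) ∨ 0 < r2334 T u b x)
    (tM : 0 < -(r2183 T u b x) ∨ 0 < r2307 T u b x ∨ 0 < -(r2332 T u b x) ∨ 0 < r2336 T u b x)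
    (tG : 0 < r2183 T u b x ∨ 0 < r2313 T u b x ∨ 0 < r2343 T u b x) :
    NGV κ (h0 * x) (lvF (exn' X12 X13 y (y + y')) l) (h0 * y) (h0 * y') r := by
  have ee : exn' X12 X13 y (y + y') = n160 T u b x + b * (1 / 2 * (n12 T u b x + (T.p1) * (n16 T u b x) + (T.ws) * (n3 T u b x))) := by
    rw [hy, hy']
    exact exq (Xs := 0) rfl ha.h12 ha.h13
  rw [ev0Am h hb ha hl ee, kerJ0A h hi ha hk]
  have hh : h0 * y' = h0 + h0 * b := by
    rw [hy']
    ring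
  rw [hh] at t3 ⊢
  rw [hy] at t1 t3 ⊢
  have k := rh0Am T h hb (by rw [ypA_eq]; exact hi) (hk_e T h.x0 h.x1 hκ) hP hQ tN tM tG
    (by rw [y_eq]; exact t1) (by rw [y_eq]; exact t3)
  rw [y_eq] at k
  rw [y_eq]
  exact k

theorem gin0Bp {T : MolP} {u b x κ y y' X12 X13 : ℝ} {r l : ℝ × ℝ × ℝ}
    (h : DomB u b x) (hb : 0 ≤ b) (hκ : κ * h0 = ken x) (hy : y = x + u) (hy' : y' = 1 + b - (x + u))
    (hi : T.it * (x + u - b) = -1) (ha : AbsB T u b x X12 X13) (hk : KerJB T u b x (X12 - X13) r)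
    (hl : LevB T u b x (X12 - X13) l) (t1 : tau (h0 * y) = h0 * (x + u)) (t3 : tau (h0 * y') = h0 * (-(x + u - b)))
    (hP : 0 < r2386 T u b x) (hQ : 0 < r2393 T u b x)
    (tN : 0 < -(r2401 T u b x) ∨ 0 < -(r2407 T u b x) ∨ 0 < r2418 T u b x ∨ 0 < r2427 T u b x)
    (tM : 0 < -(r2376 T u b x) ∨ 0 < r2401 T u b x ∨ 0 < r2425 T u b x ∨ 0 < r2429 T u b x)
    (tG : 0 < r2376 T u b x ∨ 0 < r2407 T u b x ∨ 0 < r2434 T u b x) :
    NGV κ (h0 * x) (lvF (exn' X12 X13 y (y + y')) l) (h0 * y) (h0 * y') r := by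
  have ee : exn' X12 X13 y (y + y') = n160 T u b x + b * (1 / 2 * (n12 T u b x + (T.p1) * (n16 T u b x) + (T.ws) * (n3 T u b x))) := by
    rw [hy, hy']
    exact exqB (by ring) ha.h12 ha.h13
  rw [ev0Bp h hb ha hl ee, kerJ0B h hi ha hk]
  have hh : h0 * y' = h0 + h0 * b - h0 * (x + u) := by
    rw [hy']
    ring
  rw [hh] at t3 ⊢
  rw [hy] at t1 ⊢
  have k := rh0Bp T h hb (by rw [ypB_eq]; exact hi) (hk_e T h.x0 h.x1 hκ) hP hQ tN tM tG
    (by rw [y_eq]; exact t1) (by rw [y_eq]; exact t3)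
  rw [y_eq] at k
  rw [y_eq]
  exact k

theorem gin0Bm {T : MolP} {u b x κ y y' X12 X13 : ℝ} {r l : ℝ × ℝ × ℝ}
    (h : DomB u b x) (hb : b < 0) (hκ : κ * h0 = ken x) (hy : y = x + u) (hy' : y' = 1 + b - (x + u))
    (hi : T.it * (x + u - b) = -1) (ha : AbsB T u b x X12 X13) (hk : KerJB T u b x (X12 - X13) r)
    (hl : LevB T u b x (X12 - X13) l) (t1 : tau (h0 * y) = h0 * (x + u)) (t3 : tau (h0 * y') = h0 * (-(x + u - b)))
    (hP : 0 < r2443 T u b x) (hQ : 0 < r2450 T u b x)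
    (tN : 0 < -(r2463 T u b x) ∨ 0 < -(r2468 T u b x) ∨ 0 < -(r2478 T u b x) ∨ 0 < r2491 T u b x)
    (tM : 0 < -(r2376 T u b x) ∨ 0 < r2463 T u b x ∨ 0 < -(r2489 T u b x) ∨ 0 < r2493 T u b x)
    (tG : 0 < r2376 T u b x ∨ 0 < r2468 T u b x ∨ 0 < r2500 T u b x) :
    NGV κ (h0 * x) (lvF (exn' X12 X13 y (y + y')) l) (h0 * y) (h0 * y') r := by
  have ee : exn' X12 X13 y (y + y') = n160 T u b x + b * (1 / 2 * (n12 T u b x + (T.p1) * (n16 T u b x) + (T.ws) * (n3 T u b x))) := by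
    rw [hy, hy']
    exact exqB (by ring) ha.h12 ha.h13
  rw [ev0Bm h hb ha hl ee, kerJ0B h hi ha hk]
  have hh : h0 * y' = h0 + h0 * b - h0 * (x + u) := by
    rw [hy']
    ring
  rw [hh] at t3 ⊢
  rw [hy] at t1 ⊢
  have k := rh0Bm T h hb (by rw [ypB_eq]; exact hi) (hk_e T h.x0 h.x1 hκ) hP hQ tN tM tG
    (by rw [y_eq]; exact t1) (by rw [y_eq]; exact t3)
  rw [y_eq] at k
  rw [y_eq]
  exact k

theorem gin1Ap {T : MolP} {u b x κ y y' X12 X13 : ℝ} {r rB rD l : ℝ × ℝ × ℝ}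
    (h : DomA u b x) (hb : 0 ≤ b) (hκ : κ * h0 = ken x) (hy : y = x + u) (hy' : y' = 1 + b)
    (hi : T.it * (x + u + b) = 1) (ha : AbsA T u b x X12 X13) (hk : KerJA T u b x X13 rB)
    (hd : DerJA T u b x X13 rD) (hdy : |T.dy| ≤ 1 / 2)
    (hr : r = ((1 + mun 3 x * cR x) * rB.1 + mun 3 x * rD.1,
      (1 + mun 3 x * cR x) * rB.2.1 + mun 3 x * rD.2.1,
      (1 + mun 3 x * cR x) * rB.2.2 + mun 3 x * rD.2.2))
    (hl : LevA T u b x X13 l) (t1 : tau (h0 * y) = h0 * (x + u)) (t3 : tau (h0 * y + h0 * y') = h0 * (x + u + b))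
    (hP : 0 < r2555 T u b x) (hQ : 0 < r2562 T u b x)
    (tN : 0 < -(r2577 T u b x) ∨ 0 < -(r2586 T u b x) ∨ 0 < r2597 T u b x ∨ 0 < r2614 T u b x)
    (tM : 0 < -(r2544 T u b x) ∨ 0 < r2577 T u b x ∨ 0 < r2607 T u b x ∨ 0 < r2618 T u b x)
    (tG : 0 < r2544 T u b x ∨ 0 < r2586 T u b x ∨ 0 < r2623 T u b x) :
    NGV κ (h0 * x) (lvN 3 0 x y y' (exn' X12 X13 y (y + y')) l) (h0 * y) (h0 * y') r := by
  have ee : exn' X12 X13 y (y + y') = n160 T u b x + b * (1 / 2 * (n12 T u b x + (T.p1) * (n16 T u b x) + (T.ws) * (n3 T u b x))) := by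
    rw [hy, hy']
    exact exq (Xs := 0) rfl ha.h12 ha.h13
  rw [ev1Ap h hb ha hl hy hy' ee, kerJ1A h hi ha hk hd hr]
  have hh : h0 * y' = h0 + h0 * b := by
    rw [hy']
    ring
  rw [hh] at t3 ⊢
  rw [hy] at t1 t3 ⊢
  have k := rh1Ap T h hb hdy (by rw [ypA_eq]; exact hi) (hk_e T h.x0 h.x1 hκ) hP hQ tN tM tG
    (by rw [y_eq]; exact t1) (by rw [y_eq]; exact t3)
  rw [y_eq] at k
  rw [y_eq]
  exact k

theorem gin1Am {T : MolP} {u b x κ y y' X12 X13 : ℝ} {r rB rD l : ℝ × ℝ × ℝ}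
    (h : DomA u b x) (hb : b < 0) (hκ : κ * h0 = ken x) (hy : y = x + u) (hy' : y' = 1 + b)
    (hi : T.it * (x + u + b) = 1) (ha : AbsA T u b x X12 X13) (hk : KerJA T u b x X13 rB)
    (hd : DerJA T u b x X13 rD) (hdy : |T.dy| ≤ 1 / 2)
    (hr : r = ((1 + mun 3 x * cR x) * rB.1 + mun 3 x * rD.1,
      (1 + mun 3 x * cR x) * rB.2.1 + mun 3 x * rD.2.1,
      (1 + mun 3 x * cR x) * rB.2.2 + mun 3 x * rD.2.2))
    (hl : LevA T u b x X13 l) (t1 : tau (h0 * y) = h0 * (x + u)) (t3 : tau (h0 * y + h0 * y') = h0 * (x + u + b))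
    (hP : 0 < r2637 T u b x) (hQ : 0 < r2644 T u b x)
    (tN : 0 < -(r2657 T u b x) ∨ 0 < -(r2663 T u b x) ∨ 0 < -(r2674 T u b x) ∨ 0 < r2684 T u b x)
    (tM : 0 < -(r2544 T u b x) ∨ 0 < r2657 T u b x ∨ 0 < -(r2682 T u b x) ∨ 0 < r2686 T u b x)
    (tG : 0 < r2544 T u b x ∨ 0 < r2663 T u b x ∨ 0 < r2693 T u b x) :
    NGV κ (h0 * x) (lvN 3 0 x y y' (exn' X12 X13 y (y + y')) l) (h0 * y) (h0 * y') r := by
  have ee : exn' X12 X13 y (y + y') = n160 T u b x + b * (1 / 2 * (n12 T u b x + (T.p1) * (n16 T u b x) + (T.ws) * (n3 T u b x))) := by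
    rw [hy, hy']
    exact exq (Xs := 0) rfl ha.h12 ha.h13
  rw [ev1Am h hb ha hl hy hy' ee, kerJ1A h hi ha hk hd hr]
  have hh : h0 * y' = h0 + h0 * b := by
    rw [hy']
    ring
  rw [hh] at t3 ⊢
  rw [hy] at t1 t3 ⊢
  have k := rh1Am T h hb hdy (by rw [ypA_eq]; exact hi) (hk_e T h.x0 h.x1 hκ) hP hQ tN tM tG
    (by rw [y_eq]; exact t1) (by rw [y_eq]; exact t3)
  rw [y_eq] at k
  rw [y_eq]
  exact k

theorem gin1Bp {T : MolP} {u b x κ y y' X12 X13 : ℝ} {r rB rD l : ℝ × ℝ × ℝ}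
    (h : DomB u b x) (hb : 0 ≤ b) (hκ : κ * h0 = ken x) (hy : y = x + u) (hy' : y' = 1 + b - (x + u))
    (hi : T.it * (x + u - b) = -1) (ha : AbsB T u b x X12 X13) (hk : KerJB T u b x (X12 - X13) rB)
    (hd : DerJB T u b x (X12 - X13) rD) (hdy : |T.dy| ≤ 1 / 2)
    (hr : r = ((1 + mun 3 x * cR x) * rB.1 + mun 3 x * rD.1,
      (1 + mun 3 x * cR x) * rB.2.1 + mun 3 x * rD.2.1,
      (1 + mun 3 x * cR x) * rB.2.2 + mun 3 x * rD.2.2))
    (hl : LevB T u b x (X12 - X13) l) (t1 : tau (h0 * y) = h0 * (x + u)) (t3 : tau (h0 * y') = h0 * (-(x + u - b)))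
    (hP : 0 < r2724 T u b x) (hQ : 0 < r2731 T u b x)
    (tN : 0 < -(r2739 T u b x) ∨ 0 < -(r2745 T u b x) ∨ 0 < r2756 T u b x ∨ 0 < r2765 T u b x)
    (tM : 0 < -(r2714 T u b x) ∨ 0 < r2739 T u b x ∨ 0 < r2763 T u b x ∨ 0 < r2767 T u b x)
    (tG : 0 < r2714 T u b x ∨ 0 < r2745 T u b x ∨ 0 < r2772 T u b x) :
    NGV κ (h0 * x) (lvN 3 0 x y y' (exn' X12 X13 y (y + y')) l) (h0 * y) (h0 * y') r := by
  have ee : exn' X12 X13 y (y + y') = n160 T u b x + b * (1 / 2 * (n12 T u b x + (T.p1) * (n16 T u b x) + (T.ws) * (n3 T u b x))) := by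
    rw [hy, hy']
    exact exqB (by ring) ha.h12 ha.h13
  rw [ev1Bp h hb ha hl hy hy' ee, kerJ1B h hi ha hk hd hr]
  have hh : h0 * y' = h0 + h0 * b - h0 * (x + u) := by
    rw [hy']
    ring
  rw [hh] at t3 ⊢
  rw [hy] at t1 ⊢
  have k := rh1Bp T h hb hdy (by rw [ypB_eq]; exact hi) (hk_e T h.x0 h.x1 hκ) hP hQ tN tM tG
    (by rw [y_eq]; exact t1) (by rw [y_eq]; exact t3)
  rw [y_eq] at k
  rw [y_eq]
  exact k

theorem gin1Bm {T : MolP} {u b x κ y y' X12 X13 : ℝ} {r rB rD l : ℝ × ℝ × ℝ}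
    (h : DomB u b x) (hb : b < 0) (hκ : κ * h0 = ken x) (hy : y = x + u) (hy' : y' = 1 + b - (x + u))
    (hi : T.it * (x + u - b) = -1) (ha : AbsB T u b x X12 X13) (hk : KerJB T u b x (X12 - X13) rB)
    (hd : DerJB T u b x (X12 - X13) rD) (hdy : |T.dy| ≤ 1 / 2)
    (hr : r = ((1 + mun 3 x * cR x) * rB.1 + mun 3 x * rD.1,
      (1 + mun 3 x * cR x) * rB.2.1 + mun 3 x * rD.2.1,
      (1 + mun 3 x * cR x) * rB.2.2 + mun 3 x * rD.2.2))
    (hl : LevB T u b x (X12 - X13) l) (t1 : tau (h0 * y) = h0 * (x + u)) (t3 : tau (h0 * y') = h0 * (-(x + u - b)))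
    (hP : 0 < r2780 T u b x) (hQ : 0 < r2787 T u b x)
    (tN : 0 < -(r2800 T u b x) ∨ 0 < -(r2805 T u b x) ∨ 0 < -(r2815 T u b x) ∨ 0 < r2827 T u b x)
    (tM : 0 < -(r2714 T u b x) ∨ 0 < r2800 T u b x ∨ 0 < -(r2825 T u b x) ∨ 0 < r2829 T u b x)
    (tG : 0 < r2714 T u b x ∨ 0 < r2805 T u b x ∨ 0 < r2836 T u b x) :
    NGV κ (h0 * x) (lvN 3 0 x y y' (exn' X12 X13 y (y + y')) l) (h0 * y) (h0 * y') r := by
  have ee : exn' X12 X13 y (y + y') = n160 T u b x + b * (1 / 2 * (n12 T u b x + (T.p1) * (n16 T u b x) + (T.ws) * (n3 T u b x))) := by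
    rw [hy, hy']
    exact exqB (by ring) ha.h12 ha.h13
  rw [ev1Bm h hb ha hl hy hy' ee, kerJ1B h hi ha hk hd hr]
  have hh : h0 * y' = h0 + h0 * b - h0 * (x + u) := by
    rw [hy']
    ring
  rw [hh] at t3 ⊢
  rw [hy] at t1 ⊢
  have k := rh1Bm T h hb hdy (by rw [ypB_eq]; exact hi) (hk_e T h.x0 h.x1 hκ) hP hQ tN tM tG
    (by rw [y_eq]; exact t1) (by rw [y_eq]; exact t3)
  rw [y_eq] at k
  rw [y_eq]
  exact k

end Pool.Agent.Strip051.PB.Mol
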