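import Pool.Agent.Strip051.PB.BridgeE

/-! # The reflection of a triangle of the family `A`

The triangle with the steep edge first is the mirror image of the triangle with the steep edge
second. -/

namespace Pool.Agent.Strip051.PB

open Pool.Agent.StripNear Pool.Agent.StripSquare Pool.Agent.Strip051.Sweep
open Pool.Agent.Strip051.LC

theorem oddx_neg {f : ℝ → ℝ} {X : ℝ} (h : X ≠ 0) : oddx f (-X) = -oddx f X := by
  unfold oddx
  rcases lt_or_gt_of_ne h with h | h
  · rw [if_neg (by linarith), if_pos h.le, neg_neg]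
  · rw [if_pos (by linarith), if_neg (by linarith), neg_neg]

theorem exn'_mirror (X12 X13 y y' : ℝ) :
    exn' (X12 - X13) (-X13) y' (y' + y) = exn' X12 X13 y (y + y') := by
  unfold exn'
  ring

theorem levF_mirror (e a b c : ℝ) : levF e (-b) (-a) (-c) = levF e a b c := by
  unfold levF
  rw [show -b + -a - -c = -(a + b - c) by ring, abs_neg]

theorem levN_mirror (N0 : ℕ) (lv x y y' e a b c : ℝ) :
    levN N0 lv x y' y e (-b) (-a) (-c) = levN N0 lv x y y' e a b c := by
  unfold levN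
  have h1 : levn N0 lv x y' y (-b) (-a) (-c) = levm N0 lv x y y' a b c := by
    unfold levn levm
    ring
  have h2 : levm N0 lv x y' y (-b) (-a) (-c) = levn N0 lv x y y' a b c := by
    unfold levn levm
    ring
  rw [h1, h2, min_comm]

section

variable {n : ℕ} {P : Pos n} {RK RL RC : Fin (n + 1) → ℕ → ℝ → ℝ → ℝ} {pc : ℕ → Piece}
  {pd : ℕ → Fn3} {a b c : ℕ} {j k : Fin (n + 1)} {σ σ' x y y' κ : ℝ}

theorem SideOk.odd (h : SideOk P RK RL pc x) {q : ℕ} {X Y : ℝ} (hq : InQ q Y)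
    (h1 : 1 ≤ qqn X Y) (h3 : qqn X Y ≤ 3) (hX : X ≠ 0) :
    (pc q).K.v (-X) Y x = -(pc q).K.v X Y x ∧ (pc q).L.v (-X) Y x = -(pc q).L.v X Y x := by
  have e : qqn (-X) Y = qqn X Y := by
    unfold qqn
    ring
  refine ⟨?_, ?_⟩
  · rw [← h.thK q _ Y hq h1 h3, ← h.thK q _ Y hq (by rw [e]; exact h1) (by rw [e]; exact h3)]
    exact oddx_neg hX
  · rw [← h.thL q _ Y hq h1 h3, ← h.thL q _ Y hq (by rw [e]; exact h1) (by rw [e]; exact h3)]
    exact oddx_neg hX

theorem ThrOk.odd (h : ThrOk P RC pd x) {q : ℕ} {X Y : ℝ} (hq : InQ q Y)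
    (h1 : 1 ≤ qqn X Y) (h3 : qqn X Y ≤ 3) (hX : X ≠ 0) :
    (pd q).v (-X) Y x = -(pd q).v X Y x := by
  have e : qqn (-X) Y = qqn X Y := by
    unfold qqn
    ring
  rw [← h.th q _ Y hq h1 h3, ← h.th q _ Y hq (by rw [e]; exact h1) (by rw [e]; exact h3)]
  exact oddx_neg hX

theorem vlA_mirror {T : ℕ → ℝ → ℝ → ℝ → ℝ} {R : Fin (n + 1) → ℕ → ℝ → ℝ → ℝ}
    (hT : T c (-(σ * crv P j a y + σ' * crv P k b y')) (y + y') x =
      -T c (σ * crv P j a y + σ' * crv P k b y') (y + y') x) :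
    vlA P R T b a c k j (-σ') (-σ) x y' y = (-(vlA P R T a b c j k σ σ' x y y').2.1,
      -(vlA P R T a b c j k σ σ' x y y').1, -(vlA P R T a b c j k σ σ' x y y').2.2) := by
  unfold vlA
  simp only
  rw [← hT]
  refine Prod.ext ?_ (Prod.ext ?_ ?_)
  · simp only
    ring
  · simp only
    ring
  · simp only
    rw [show -σ' * crv P k b y' + -σ * crv P j a y = -(σ * crv P j a y + σ' * crv P k b y') by ring,
      add_comm y' y]

theorem exA_mirror : exA P b a k j (-σ') (-σ) y' y = exA P a b j k σ σ' y y' := by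
  unfold exA
  rw [← exn'_mirror (σ * crv P j a y)]
  congr 1 <;> ring

/-- The far vertex. -/
theorem StA.mirF (h : SideOk P RK RL pc x) (F : FactsA P a b c j k σ σ' y y')
    (hX : σ * crv P j a y + σ' * crv P k b y' ≠ 0)
    (H : StA (VF κ) P RK RL pc b a c k j (-σ') (-σ) x y' y) :
    StA (VF κ) P RK RL pc a b c j k σ σ' x y y' := by
  obtain ⟨o1, o2⟩ := h.odd F.q3 F.len1 F.len3 hX
  unfold StA VF lvF at *
  rw [vlA_mirror (T := fun q => (pc q).K.v) o1, vlA_mirror (T := fun q => (pc q).L.v) o2,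
    exA_mirror] at H
  simp only at H
  rw [levF_mirror] at H
  exact NGV.mirror H

/-- The near vertex. -/
theorem StA.mirN {N0 : ℕ} (h : SideOk P RK RL pc x) (F : FactsA P a b c j k σ σ' y y')
    (hX : σ * crv P j a y + σ' * crv P k b y' ≠ 0)
    (H : StA (VN N0 κ) P RK RL pc b a c k j (-σ') (-σ) x y' y) :
    StA (VN N0 κ) P RK RL pc a b c j k σ σ' x y y' := by
  obtain ⟨o1, o2⟩ := h.odd F.q3 F.len1 F.len3 hX
  unfold StA VN lvN at *
  rw [vlA_mirror (T := fun q => (pc q).K.v) o1, vlA_mirror (T := fun q => (pc q).L.v) o2,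
    exA_mirror] at H
  simp only at H
  rw [levN_mirror] at H
  exact NGV.mirror H

/-- Both vertices, the direct statement. -/
theorem StEA.mir {N0 : ℕ} {E o : ℝ} {f : ℝ → ℝ} (h : SideOk P RK RL pc x)
    (hC : ThrOk P RC pd x) (F : FactsA P a b c j k σ σ' y y')
    (hX : σ * crv P j a y + σ' * crv P k b y' ≠ 0) (hs0 : 0 ≤ x) (hs1 : x < 1)
    (hf : ∀ z, f (h0 * x - z) = -f z)
    (H : (∀ z, 0 ≤ lvF (exA P b a k j (-σ') (-σ) y' y)
        (vlA P RL (fun q => (pc q).L.v) b a c k j (-σ') (-σ) x y' y) +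
          kf κ (h0 * x) (vlA P RK (fun q => (pc q).K.v) b a c k j (-σ') (-σ) x y' y)
            (h0 * y') (h0 * y) z) ∧
      ∀ z, 0 ≤ lvN N0 0 x y' y (exA P b a k j (-σ') (-σ) y' y)
        (vlA P RL (fun q => (pc q).L.v) b a c k j (-σ') (-σ) x y' y) +
          E * kf κ (h0 * x) (vlA P RK (fun q => (pc q).K.v) b a c k j (-σ') (-σ) x y' y)
            (h0 * y') (h0 * y) z +
          mun N0 x * pf f (dimC (vlA P RC (fun q => (pd q).v) b a c k j (-σ') (-σ) x y' y))
            (h0 * y') (h0 * y) z) :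
    StEA N0 κ E o f P RK RL RC pc pd a b c j k σ σ' x y y' := by
  have hp := h0_pos
  obtain ⟨o1, o2⟩ := h.odd F.q3 F.len1 F.len3 hX
  have o3 := hC.odd F.q3 F.len1 F.len3 hX
  have s0 : 0 ≤ h0 * x := by positivity
  have s1 : h0 * x < h0 := by nlinarith
  unfold StEA Both
  right
  rw [vlA_mirror (T := fun q => (pc q).K.v) o1, vlA_mirror (T := fun q => (pc q).L.v) o2,
    vlA_mirror (T := fun q => (pd q).v) o3, exA_mirror] at H
  unfold dimC lvF lvN at *
  simp only [mul_neg] at H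
  rw [levF_mirror, levN_mirror] at H
  refine ⟨fun z => ?_, fun z => ?_⟩
  · have := H.1 (h0 * x - (z + (h0 * y + h0 * y')))
    rw [kf_mirror s0 s1] at this
    exact this
  · have := H.2 (h0 * x - (z + (h0 * y + h0 * y')))
    rw [kf_mirror s0 s1, pf_mirror hf] at this
    exact this

end

end Pool.Agent.Strip051.PB
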