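import Pool.Agent.Strip051.PB.MolU

/-! # The tight charts: the steep edge on another curve

The curves of a position at most one meet in the point of height one. Above it the abscissa of the
curve of the position `p / q`, `r + p = q`, at the height `1 + b` is
`r / q * c1n (1 + b) + p / q * (c1n b - 1 / 2)`. -/

namespace Pool.Agent.Strip051.PB.Mol

open Pool.Agent.StripNear Pool.Agent.StripSquare Pool.Agent.Strip051.Sweep
open Pool.Agent.Strip051.LC Pool.Agent.Strip051.LC.MolN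
open Pool.Agent.Strip051.LC.Line (tau)

attribute [local irreducible] padd psub pneg pmul psq pinv psqrt psqrtg pabs pps pmax pmin pphi plam
  pcase phf pnat prat pscale pnorm pdc pnc pone ppos pnn Enc pzero

/-- the abscissa -/
noncomputable def fXS (r p q : ℕ) : Fn3 where
  t A B C := pnorm (padd (pscale r q (fW.t A B C)) (pscale p q (psub (c1f.t B) (prat 1 2))))
  v _ b _ := (r : ℝ) / q * c1n (1 + b) + (p : ℝ) / q * (c1n b - 1 / 2)
  enc h1 h2 h3 := encc (enc_norm (enc_add (enc_scale r q (fW.enc h1 h2 h3)) (enc_scale p q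
    (enc_sub (c1f.enc h2) (enc_rat _ 1 2))))) (by
      unfold fW c1f
      norm_num)

/-- the slope of its secant -/
noncomputable def fWS (r p q : ℕ) : Fn3 where
  t A B C := pnorm (psub (pscale r q (fW1.t A B C)) (pscale p q (pscale 3 4 (pmul B
    (pinv (padd pone (c1f.t B)))))))
  v _ b _ := (r : ℝ) / q * w1n b - (p : ℝ) / q * (3 / 4 * (b * (1 + c1n b)⁻¹))
  enc h1 h2 h3 := encc (enc_norm (enc_sub (enc_scale r q (fW1.enc h1 h2 h3)) (enc_scale p q
    (enc_scale 3 4 (enc_mul h2 (enc_inv (enc_add (enc_one _) (c1f.enc h2)))))))) (by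
      unfold fW1 c1f
      norm_num)

/-- the product of the abscissa and a slope -/
noncomputable def fMS (r p q : ℕ) (s : Fn2) : Fn3 where
  t A B C := pnorm (pmul ((fXS r p q).t A B C) (s.t B C))
  v a b c := (fXS r p q).v a b c * s.v b c
  enc h1 h2 h3 := enc_norm (enc_mul ((fXS r p q).enc h1 h2 h3) (s.enc h2 h3))

/-- the slope of the kernel -/
noncomputable def fRS (r p q : ℕ) (s : Fn2) : Fn3 where
  t A B C := pnorm (padd ((fWS r p q).t A B C) ((fMS r p q s).t A B C))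
  v a b c := (fWS r p q).v a b c + (fMS r p q s).v a b c
  enc h1 h2 h3 := enc_norm (enc_add ((fWS r p q).enc h1 h2 h3) ((fMS r p q s).enc h1 h2 h3))

/-- the steep edge on the curve; `s`, `sx`, `sd` are the slopes of the secants of the tables -/
noncomputable def stK (r p q : ℕ) (s sx sd : Fn2) : MolS :=
  ⟨fXS r p q, fWS r p q, fRS r p q s, fMS r p q sx, fMS r p q sd⟩

/-- the slope of the secant changes at `p / q` -/
noncomputable def scH (F : Fn2) (d : Fn1) (p q : ℕ) : Fn2 where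
  t A C := pnorm (padd (F.t A C) (pmul (d.t C) (pnorm (pmul (pps (psub A (prat p q)))
    (pinv (pmax A (prat p q)))))))
  v a x := F.v a x + d.v x * hng a ((p : ℝ) / q)
  enc h1 h2 := enc_norm (enc_add (F.enc h1 h2) (enc_mul (d.enc h2) (enc_norm (enc_mul (enc_pos
    (enc_sub h1 (enc_rat _ p q))) (enc_inv (enc_max h1 (enc_rat _ p q)))))))

theorem stK_x {r p q : ℕ} {s sx sd : Fn2} {u b x : ℝ} (hq : ((r : ℝ) + p) / q = 1)
    (b0 : -(1 / 8) ≤ b) (b1 : b ≤ 1 / 8) :
    (stK r p q s sx sd).xs.v u b x = 1 / 2 + b * (stK r p q s sx sd).ws.v u b x := by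
  have hw := w1n_eq b0 b1
  have hc := c1n_sq' (y := b) (by nlinarith)
  have h3 := c1n_nn b
  have h5 : 1 + c1n b ≠ 0 := by positivity
  have hs := mul_inv_cancel₀ h5
  rw [add_div] at hq
  show (r : ℝ) / q * c1n (1 + b) + (p : ℝ) / q * (c1n b - 1 / 2) =
    1 / 2 + b * ((r : ℝ) / q * w1n b - (p : ℝ) / q * (3 / 4 * (b * (1 + c1n b)⁻¹)))
  generalize (1 + c1n b)⁻¹ = i at *
  linear_combination ((r : ℝ) / q) * hw + (p : ℝ) / q * i * hc - (p : ℝ) / q * (c1n b - 1) * hs +
    1 / 2 * hq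

theorem stK_k {r p q : ℕ} {s sx sd : Fn2} {u b x : ℝ} (hq : ((r : ℝ) + p) / q = 1)
    (b0 : -(1 / 8) ≤ b) (b1 : b ≤ 1 / 8) :
    (fXS r p q).v u b x * (1 + b * s.v b x) = 1 / 2 + b * (stK r p q s sx sd).rs.v u b x := by
  have h := stK_x (s := s) (sx := sx) (sd := sd) (u := u) (x := x) hq b0 b1
  show _ = 1 / 2 + b * ((fWS r p q).v u b x + (fXS r p q).v u b x * s.v b x)
  have e : (fXS r p q).v u b x = 1 / 2 + b * (fWS r p q).v u b x := h
  linear_combination e

theorem fXS_le {r p q : ℕ} {u b x : ℝ} (hq : ((r : ℝ) + p) / q = 1) (hb : 0 ≤ b) :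
    (fXS r p q).v u b x ≤ 1 / 2 := by
  have h1 := c1n_half hb
  have h2 : c1n b ≤ 1 := by
    have := c1n_le' (y := 0) (z := b) le_rfl hb
    rwa [c1n_zero] at this
  rw [add_div] at hq
  show (r : ℝ) / q * c1n (1 + b) + (p : ℝ) / q * (c1n b - 1 / 2) ≤ 1 / 2
  have h3 : (0 : ℝ) ≤ (r : ℝ) / q := by positivity
  have h4 : (0 : ℝ) ≤ (p : ℝ) / q := by positivity
  nlinarith [mul_nonneg h3 (sub_nonneg.2 h1), mul_nonneg h4 (sub_nonneg.2 h2)]

theorem fXS_nn {r p q : ℕ} {u b x : ℝ} (hb : 0 ≤ b) (b1 : b ≤ 1 / 8) :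
    0 ≤ (fXS r p q).v u b x := by
  have h1 := c1n_nn (1 + b)
  have h2 : 1 / 2 ≤ c1n b := by
    have := c1n_le' (y := b) (z := 1) hb (by linarith)
    rwa [c1n_one] at this
  show 0 ≤ (r : ℝ) / q * c1n (1 + b) + (p : ℝ) / q * (c1n b - 1 / 2)
  have h3 : (0 : ℝ) ≤ (r : ℝ) / q := by positivity
  have h4 : (0 : ℝ) ≤ (p : ℝ) / q := by positivity
  have := mul_nonneg h3 h1
  have := mul_nonneg h4 (sub_nonneg.2 h2)
  linarith

end Pool.Agent.Strip051.PB.Mol
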