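import Pool.Agent.Strip051.PB.MoR5
import Pool.Agent.Strip051.PB.MolM
import Pool.Agent.Strip051.PB.MolN
import Pool.Agent.Strip051.PB.MolWn

/-! # The tight charts: functions of the further shapes

The steep edge is the third side (`stT`), or the short edge is the third side (`shF`). -/

set_option linter.unusedVariables false

namespace Pool.Agent.Strip051.PB.Mol

open Pool.Agent.StripNear Pool.Agent.StripSquare Pool.Agent.Strip051.Sweep
open Pool.Agent.Strip051.LC Pool.Agent.Strip051.LC.MolN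
open Pool.Agent.Strip051.LC.Line (tau)

attribute [local irreducible] padd psub pneg pmul psq pinv psqrt psqrtg pabs pps pmax pmin pphi plam
  pcase phf pnat prat pscale pnorm pdc pnc pone ppos pnn Enc pzero

/-- the slope of a secant of the unit circle between the short edge and `x + u + b` -/
noncomputable def fnA : Fn3 where
  t A B C := pnorm (pmul (pnorm (pscale 3 4 (padd (fY.t A B C) (fYA.t A B C))))
    (pinv (padd (fC.t A B C) (fCA.t A B C))))
  v a b c := 3 / 4 * ((c + a) + (c + a + b)) * (c1n (c + a) + c1n (c + a + b))⁻¹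
  enc h1 h2 h3 := encc (enc_norm (enc_mul (enc_norm (enc_scale 3 4 (enc_add (fY.enc h1 h2 h3)
    (fYA.enc h1 h2 h3)))) (enc_inv (enc_add (fC.enc h1 h2 h3) (fCA.enc h1 h2 h3))))) (by
      unfold fY fYA fC fCA
      norm_num)

/-- the slope of a secant of the unit circle between the short edge and `x + u - b` -/
noncomputable def fnB : Fn3 where
  t A B C := pnorm (pmul (pnorm (pscale 3 4 (padd (fY.t A B C) (fYB.t A B C))))
    (pinv (padd (fC.t A B C) (fCB.t A B C))))
  v a b c := 3 / 4 * ((c + a) + (c + a - b)) * (c1n (c + a) + c1n (c + a - b))⁻¹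
  enc h1 h2 h3 := encc (enc_norm (enc_mul (enc_norm (enc_scale 3 4 (enc_add (fY.enc h1 h2 h3)
    (fYB.enc h1 h2 h3)))) (enc_inv (enc_add (fC.enc h1 h2 h3) (fCB.enc h1 h2 h3))))) (by
      unfold fY fYB fC fCB
      norm_num)

theorem c1n_sec {y z : ℝ} (hy : y ^ 2 < 4 / 3) (hz : z ^ 2 < 4 / 3) :
    c1n z - c1n y = -((z - y) * (3 / 4 * (y + z) * (c1n y + c1n z)⁻¹)) := by
  have h1 := c1n_sq' hy.le
  have h2 := c1n_sq' hz.le
  have h3 := c1n_pos' hy
  have h4 := c1n_nn z
  have h5 : c1n y + c1n z ≠ 0 := by positivity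
  have hs := mul_inv_cancel₀ h5
  generalize (c1n y + c1n z)⁻¹ = s at *
  linear_combination (-(c1n z - c1n y)) * hs + s * h2 - s * h1

theorem fnA_e {u b x : ℝ} (D : DomA u b x) :
    c1n (x + u + b) = c1n (x + u) - b * fnA.v u b x := by
  have h := c1n_sec (y := x + u) (z := x + u + b) (by nlinarith [D.y0, D.y1])
    (by nlinarith [D.p0, D.p1])
  show _ = c1n (x + u) - b * (3 / 4 * ((x + u) + (x + u + b)) * (c1n (x + u) + c1n (x + u + b))⁻¹)
  linear_combination h

theorem fnB_e {u b x : ℝ} (D : DomB u b x) :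
    c1n (x + u - b) = c1n (x + u) + b * fnB.v u b x := by
  have h := c1n_sec (y := x + u) (z := x + u - b) (by nlinarith [D.y0, D.y1])
    (by nlinarith [D.p0, D.p1])
  show _ = c1n (x + u) + b * (3 / 4 * ((x + u) + (x + u - b)) * (c1n (x + u) + c1n (x + u - b))⁻¹)
  linear_combination h

theorem fnB_nn {u b x : ℝ} (D : DomB u b x) : 0 ≤ fnB.v u b x := by
  have h1 := c1n_nn (x + u)
  have h2 := c1n_nn (x + u - b)
  have h3 := D.y0
  have h4 := D.p0
  show 0 ≤ 3 / 4 * ((x + u) + (x + u - b)) * (c1n (x + u) + c1n (x + u - b))⁻¹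
  have h5 : 0 ≤ (c1n (x + u) + c1n (x + u - b))⁻¹ := inv_nonneg.2 (by linarith)
  exact mul_nonneg (by linarith) h5

theorem fnA_nn {u b x : ℝ} (D : DomA u b x) : 0 ≤ fnA.v u b x := by
  have h1 := c1n_nn (x + u)
  have h2 := c1n_nn (x + u + b)
  have h3 := D.y0
  have h4 := D.p0
  show 0 ≤ 3 / 4 * ((x + u) + (x + u + b)) * (c1n (x + u) + c1n (x + u + b))⁻¹
  have h5 : 0 ≤ (c1n (x + u) + c1n (x + u + b))⁻¹ := inv_nonneg.2 (by linarith)
  exact mul_nonneg (by linarith) h5

/-! ### The steep edge is the third side -/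

/-- a function of abscissa, height and `x` at the steep edge -/
noncomputable def fTs (xs f : Fn3) : Fn3 where
  t A B C := f.t (xs.t A B C) (fT.t A B C) C
  v a b c := f.v (xs.v a b c) (1 + b) c
  enc h1 h2 h3 := f.enc (xs.enc h1 h2 h3) (fT.enc h1 h2 h3) h3

/-- the abscissa `1 / 2 + b n` -/
noncomputable def fxT (n : Fn3) : Fn3 where
  t A B C := pnorm (padd (prat 1 2) (pmul B (n.t A B C)))
  v a b c := 1 / 2 + b * n.v a b c
  enc h1 h2 h3 := encc (enc_norm (enc_add (enc_rat _ 1 2) (enc_mul h2 (n.enc h1 h2 h3))))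
    (by norm_num)

/-- `w + s (n - m)` -/
noncomputable def fdT (w s n m : Fn3) : Fn3 where
  t A B C := pnorm (padd (w.t A B C) (pmul (s.t A B C) (pnorm (psub (n.t A B C) (m.t A B C)))))
  v a b c := w.v a b c + s.v a b c * (n.v a b c - m.v a b c)
  enc h1 h2 h3 := enc_norm (enc_add (w.enc h1 h2 h3) (enc_mul (s.enc h1 h2 h3)
    (enc_norm (enc_sub (n.enc h1 h2 h3) (m.enc h1 h2 h3)))))

/-- The steep edge as third side: `w` is the curve to its left, `sK`, `sX`, `sD` are the slopes of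
the tables between this curve and the next one. -/
noncomputable def stT (n : Fn3) (w : MolS) (sK sX sD : Fn3) : MolS :=
  ⟨fxT n, n, fdT w.rs (fTs (fxT n) sK) n w.ws, fdT w.xk (fTs (fxT n) sX) n w.ws,
    fdT w.k2 (fTs (fxT n) sD) n w.ws⟩

theorem stT_x {n : Fn3} {w : MolS} {sK sX sD : Fn3} {u b x : ℝ} :
    (stT n w sK sX sD).xs.v u b x = 1 / 2 + b * (stT n w sK sX sD).ws.v u b x := rfl

/-- The value on the third side. -/
theorem stT_k {n : Fn3} {w : MolS} {sK sX sD s : Fn3} {u b x v c : ℝ}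
    (hw : w.xs.v u b x = 1 / 2 + b * w.ws.v u b x) {r : Fn3} (hv : v = c + b * r.v u b x)
    {f : ℝ} (hf : f = v + s.v ((stT n w sK sX sD).xs.v u b x) (1 + b) x *
      ((stT n w sK sX sD).xs.v u b x - w.xs.v u b x)) :
    f = c + b * (fdT r (fTs (fxT n) s) n w.ws).v u b x := by
  rw [hf, hv, hw]
  show _ = c + b * (r.v u b x + s.v (1 / 2 + b * n.v u b x) (1 + b) x *
    (n.v u b x - w.ws.v u b x))
  show c + b * r.v u b x + s.v (1 / 2 + b * n.v u b x) (1 + b) x *
    ((1 / 2 + b * n.v u b x) - (1 / 2 + b * w.ws.v u b x)) = _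
  ring

/-! ### The short edge is the third side -/

/-- the slope of the abscissa of the short edge -/
noncomputable def fp1 (s : Bool) (ws n : Fn3) : Fn3 where
  t A B C := pnorm (Bool.rec (motive := fun _ => ℕ) (psub (n.t A B C) (ws.t A B C))
    (psub (ws.t A B C) (n.t A B C)) s)
  v a b c := cond s (ws.v a b c - n.v a b c) (n.v a b c - ws.v a b c)
  enc h1 h2 h3 := by
    cases s
    · exact enc_norm (enc_sub (n.enc h1 h2 h3) (ws.enc h1 h2 h3))
    · exact enc_norm (enc_sub (ws.enc h1 h2 h3) (n.enc h1 h2 h3))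

/-- its abscissa -/
noncomputable def fX1 (p : Fn3) : Fn3 where
  t A B C := pnorm (padd (fC.t A B C) (pmul B (p.t A B C)))
  v a b c := c1n (c + a) + b * p.v a b c
  enc h1 h2 h3 := enc_norm (enc_add (fC.enc h1 h2 h3) (enc_mul h2 (p.enc h1 h2 h3)))

/-- a function of abscissa, height and `x` at the short edge -/
noncomputable def f1t (p f : Fn3) : Fn3 where
  t A B C := f.t ((fX1 p).t A B C) (fY.t A B C) C
  v a b c := f.v (c1n (c + a) + b * p.v a b c) (c + a) c
  enc h1 h2 h3 := f.enc ((fX1 p).enc h1 h2 h3) (fY.enc h1 h2 h3) h3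

/-- the slope of a value at the short edge -/
noncomputable def f1s (p s : Fn3) : Fn3 where
  t A B C := pnorm (pmul ((f1t p s).t A B C) (p.t A B C))
  v a b c := s.v (c1n (c + a) + b * p.v a b c) (c + a) c * p.v a b c
  enc h1 h2 h3 := enc_norm (enc_mul ((f1t p s).enc h1 h2 h3) (p.enc h1 h2 h3))

/-- The chart with the short edge as third side. -/
noncomputable def shF (M : MolF) (p sK sX sD : Fn3) : MolF :=
  { M with p1 := p, q1 := f1s p sK, l1 := f1s p sX, m1 := f1s p sD }

/-! ### Mirror images -/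

section

theorem VF.mir {κ x y y' e l1 l2 l3 r1 r2 r3 : ℝ}
    (H : VF κ x y' y e (-l2, -l1, -l3) (-r2, -r1, -r3)) :
    VF κ x y y' e (l1, l2, l3) (r1, r2, r3) := by
  unfold VF lvF at *
  simp only at H ⊢
  rw [levF_mirror] at H
  exact NGV.mirror H

theorem VN.mir {N0 : ℕ} {κ x y y' e l1 l2 l3 r1 r2 r3 : ℝ}
    (H : VN N0 κ x y' y e (-l2, -l1, -l3) (-r2, -r1, -r3)) :
    VN N0 κ x y y' e (l1, l2, l3) (r1, r2, r3) := by
  unfold VN lvN at *
  simp only at H ⊢
  rw [levN_mirror] at H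
  exact NGV.mirror H

end

end Pool.Agent.Strip051.PB.Mol
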