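import Pool.Agent.Strip051.PB.MoR3
import Pool.Agent.Strip051.PB.MolX

/-! # The tight charts without division: statements for a table (generated) -/

set_option linter.unusedVariables false

namespace Pool.Agent.Strip051.PB.Mol

open Pool.Agent.StripNear Pool.Agent.StripSquare Pool.Agent.Strip051.Sweep
open Pool.Agent.Strip051.LC Pool.Agent.Strip051.LC.MolN
open Pool.Agent.Strip051.LC.Line (tau)

theorem kerJTA {T : MolT} {s : Bool} {u b x : ℝ} {r : ℝ × ℝ × ℝ}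
    (hd : T.kc.v (psn (x + u + b)) x = T.kc.v (psn (x + u)) x + b * (fd1A T.dq s).v u b x)
    (h1 : r.1 = (c1n (x + u) * cG (x + u) + T.kc.v (psn (x + u)) x) * (x + u))
    (h2 : r.2.1 = -(1 / 2 + b * T.st.rs.v u b x))
    (h3 : r.2.2 = ((c1n (x + u + b) - 1 / 2) * cG (x + u + b) + T.kc.v (psn (x + u + b)) x) * (x + u + b) + T.sK.v (c1n (x + u) - T.st.xs.v u b x) (1 + (x + u + b)) x * (c1n (x + u) - T.st.xs.v u b x - (c1n (x + u + b) - 1 / 2))) :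
    KerJA ((T.a s).at_ u b x) u b x (c1n (x + u) - T.st.xs.v u b x) r := by
  refine ⟨?_, ?_, ?_⟩
  · rw [h1]
    show _ = (c1n (x + u) * cG (x + u) + T.kc.v (psn (x + u)) x) * (x + u) + b * (0 : ℝ)
    ring
  · rw [h2]
    rfl
  · rw [h3, hd]
    rfl

theorem derJTA {T : MolT} {s : Bool} {u b x : ℝ} {r : ℝ × ℝ × ℝ}
    (hd : T.kc.v (psn (x + u + b)) x = T.kc.v (psn (x + u)) x + b * (fd1A T.dq s).v u b x)
    (h1 : r.1 = (cP (x + u) - (cR (x + u) + 2 * c1n (x + u)) * T.kc.v (psn (x + u)) x) * (x + u))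
    (h2 : r.2.1 = -(b * T.st.k2.v u b x))
    (h3 : r.2.2 = (cP (x + u + b) - 1 / 2 * cD (x + u + b) - (cR (x + u + b) + 2 * c1n (x + u + b) - 1) * T.kc.v (psn (x + u + b)) x) * (x + u + b) + T.sD.v (c1n (x + u) - T.st.xs.v u b x) (1 + (x + u + b)) x * (c1n (x + u) - T.st.xs.v u b x - (c1n (x + u + b) - 1 / 2))) :
    DerJA ((T.a s).at_ u b x) u b x (c1n (x + u) - T.st.xs.v u b x) r := by
  refine ⟨?_, ?_, ?_⟩
  · rw [h1]
    show _ = (cP (x + u) - (cR (x + u) + 2 * c1n (x + u)) * T.kc.v (psn (x + u)) x) * (x + u) + b * (0 : ℝ)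
    ring
  · rw [h2]
    rfl
  · rw [h3, hd]
    rfl

theorem kerJTB {T : MolT} {s : Bool} {u b x : ℝ} {r : ℝ × ℝ × ℝ}
    (hd : T.kc.v (psn (x + u - b)) x = T.kc.v (psn (x + u)) x + b * (fd1B T.dq s).v u b x)
    (h1 : r.1 = (c1n (x + u) * cG (x + u) + T.kc.v (psn (x + u)) x) * (x + u))
    (h2 : r.2.2 = -(1 / 2 + b * T.st.rs.v u b x))
    (h3 : r.2.1 = ((c1n (x + u - b) + 1 / 2) * cG (x + u - b) + T.kc.v (psn (x + u - b)) x) * (-(x + u - b)) - T.sK.v (c1n (x + u) + T.st.xs.v u b x) (1 - (x + u - b)) x * (c1n (x + u) + T.st.xs.v u b x - (c1n (x + u - b) + 1 / 2))) :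
    KerJB ((T.b s).at_ u b x) u b x (c1n (x + u) + T.st.xs.v u b x) r := by
  refine ⟨?_, ?_, ?_⟩
  · rw [h1]
    show _ = (c1n (x + u) * cG (x + u) + T.kc.v (psn (x + u)) x) * (x + u) + b * (0 : ℝ)
    ring
  · rw [h2]
    rfl
  · rw [h3, hd]
    rfl

theorem derJTB {T : MolT} {s : Bool} {u b x : ℝ} {r : ℝ × ℝ × ℝ}
    (hd : T.kc.v (psn (x + u - b)) x = T.kc.v (psn (x + u)) x + b * (fd1B T.dq s).v u b x)
    (h1 : r.1 = (cP (x + u) - (cR (x + u) + 2 * c1n (x + u)) * T.kc.v (psn (x + u)) x) * (x + u))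
    (h2 : r.2.2 = -(b * T.st.k2.v u b x))
    (h3 : r.2.1 = (cP (x + u - b) + 1 / 2 * cD (x + u - b) - (cR (x + u - b) + 2 * c1n (x + u - b) + 1) * T.kc.v (psn (x + u - b)) x) * (-(x + u - b)) - T.sD.v (c1n (x + u) + T.st.xs.v u b x) (1 - (x + u - b)) x * (c1n (x + u) + T.st.xs.v u b x - (c1n (x + u - b) + 1 / 2))) :
    DerJB ((T.b s).at_ u b x) u b x (c1n (x + u) + T.st.xs.v u b x) r := by
  refine ⟨?_, ?_, ?_⟩
  · rw [h1]
    show _ = (cP (x + u) - (cR (x + u) + 2 * c1n (x + u)) * T.kc.v (psn (x + u)) x) * (x + u) + b * (0 : ℝ)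
    ring
  · rw [h2]
    rfl
  · rw [h3, hd]
    rfl

theorem farJAp {n : ℕ} {P : Pos n} {RK RL : Fin (n + 1) → ℕ → ℝ → ℝ → ℝ} {pc : ℕ → Piece}
    {T : MolT} {a c : ℕ} {k : Fin (n + 1)} {u b x κ : ℝ} {sk cx : List Fn3}
    (D : DomA u b x) (hb : 0 ≤ b) (hκ : κ * h0 = ken x)
    (hd : T.kc.v (psn (x + u + b)) x = T.kc.v (psn (x + u)) x + b * (fd1A T.dq true).v u b x)
    (hit : ((T.a true).at_ u b x).it * (x + u + b) = 1)
    (t1 : tau (h0 * (x + u)) = h0 * (x + u)) (t3 : tau (h0 * (x + u) + h0 * (1 + b)) = h0 * (x + u + b))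
    (hx : T.st.xs.v u b x = 1 / 2 + b * T.st.ws.v u b x)
    (hX : crv P k 2 (1 + b) = T.st.xs.v u b x)
    (K : (kq0Ap (T.a true) sk cx).P u b x) (hs : ∀ G ∈ sk, G.v u b x ≤ 0)
    (K1 : RK 0 a (x + u) x = (c1n (x + u) * cG (x + u) + T.kc.v (psn (x + u)) x) * (x + u))
    (K2 : RK k 2 (1 + b) x = 1 / 2 + b * T.st.rs.v u b x)
    (K3 : (∀ G ∈ cx, 0 < G.v u b x) → (pc c).K.v (c1n (x + u) - T.st.xs.v u b x) (x + u + (1 + b)) x = ((c1n (x + u + b) - 1 / 2) * cG (x + u + b) + T.kc.v (psn (x + u + b)) x) * (x + u + b) + T.sK.v (c1n (x + u) - T.st.xs.v u b x) (1 + (x + u + b)) x * (c1n (x + u) - T.st.xs.v u b x - (c1n (x + u + b) - 1 / 2)))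
    (L1 : RL 0 a (x + u) x = cQ x (x + u) (T.kc.v (psn (x + u)) x))
    (L2 : RL k 2 (1 + b) x = b * T.st.xk.v u b x)
    (L3 : (∀ G ∈ cx, 0 < G.v u b x) → (pc c).L.v (c1n (x + u) - T.st.xs.v u b x) (x + u + (1 + b)) x = cQ x (x + u + b) (T.kc.v (psn (x + u + b)) x) + T.sX.v (c1n (x + u) - T.st.xs.v u b x) (1 + (x + u + b)) x * (c1n (x + u) - T.st.xs.v u b x - (c1n (x + u + b) - 1 / 2))) :
    StA (VF κ) P RK RL pc a 2 c 0 k 1 (-1) x (x + u) (1 + b) := by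
  obtain ⟨hc, hP, hQ, tN, tM, tG⟩ := rq0Ap K hs
  unfold StA VF exA vlA
  simp only [crv_zero, one_mul, neg_one_mul, ← sub_eq_add_neg]
  rw [hX]
  refine gin0Ap D hb hκ rfl rfl hit (absTA hx) ?_ ?_ t1 t3 hP hQ tN tM tG
  · exact kerJTA hd K1 (congrArg (fun t => -t) K2) (K3 hc)
  · exact levTA hd L1 (congrArg (fun t => -t) L2) (L3 hc)

theorem nearJAp {n : ℕ} {P : Pos n} {RK RL : Fin (n + 1) → ℕ → ℝ → ℝ → ℝ} {pc : ℕ → Piece}
    {T : MolT} {a c : ℕ} {k : Fin (n + 1)} {u b x κ : ℝ} {sk cx : List Fn3}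
    (D : DomA u b x) (hb : 0 ≤ b) (hκ : κ * h0 = ken x)
    (hd : T.kc.v (psn (x + u + b)) x = T.kc.v (psn (x + u)) x + b * (fd1A T.dq true).v u b x)
    (hit : ((T.a true).at_ u b x).it * (x + u + b) = 1)
    (t1 : tau (h0 * (x + u)) = h0 * (x + u)) (t3 : tau (h0 * (x + u) + h0 * (1 + b)) = h0 * (x + u + b))
    (hx : T.st.xs.v u b x = 1 / 2 + b * T.st.ws.v u b x)
    (hX : crv P k 2 (1 + b) = T.st.xs.v u b x)
    (K : (kq1Ap (T.a true) sk cx).P u b x) (hs : ∀ G ∈ sk, G.v u b x ≤ 0)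
    (hdy : |T.kc.v (psn (x + u)) x| ≤ 1 / 2) {kw dw fB fD : ℝ}
    (K1 : RK 0 a (x + u) x = (1 + mun 3 x * cR x) * ((c1n (x + u) * cG (x + u) + T.kc.v (psn (x + u)) x) * (x + u)) +
      mun 3 x * ((cP (x + u) - (cR (x + u) + 2 * c1n (x + u)) * T.kc.v (psn (x + u)) x) * (x + u)))
    (K2 : RK k 2 (1 + b) x = (1 + mun 3 x * cR x) * kw + mun 3 x * dw)
    (hkw : kw = 1 / 2 + b * T.st.rs.v u b x) (hdw : dw = b * T.st.k2.v u b x)
    (K3 : (∀ G ∈ cx, 0 < G.v u b x) → (pc c).K.v (c1n (x + u) - T.st.xs.v u b x) (x + u + (1 + b)) x = (1 + mun 3 x * cR x) * fB + mun 3 x * fD)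
    (hfB : (∀ G ∈ cx, 0 < G.v u b x) → fB = ((c1n (x + u + b) - 1 / 2) * cG (x + u + b) + T.kc.v (psn (x + u + b)) x) * (x + u + b) + T.sK.v (c1n (x + u) - T.st.xs.v u b x) (1 + (x + u + b)) x * (c1n (x + u) - T.st.xs.v u b x - (c1n (x + u + b) - 1 / 2)))
    (hfD : (∀ G ∈ cx, 0 < G.v u b x) → fD = (cP (x + u + b) - 1 / 2 * cD (x + u + b) - (cR (x + u + b) + 2 * c1n (x + u + b) - 1) * T.kc.v (psn (x + u + b)) x) * (x + u + b) + T.sD.v (c1n (x + u) - T.st.xs.v u b x) (1 + (x + u + b)) x * (c1n (x + u) - T.st.xs.v u b x - (c1n (x + u + b) - 1 / 2)))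
    (L1 : RL 0 a (x + u) x = cQ x (x + u) (T.kc.v (psn (x + u)) x))
    (L2 : RL k 2 (1 + b) x = b * T.st.xk.v u b x)
    (L3 : (∀ G ∈ cx, 0 < G.v u b x) → (pc c).L.v (c1n (x + u) - T.st.xs.v u b x) (x + u + (1 + b)) x = cQ x (x + u + b) (T.kc.v (psn (x + u + b)) x) + T.sX.v (c1n (x + u) - T.st.xs.v u b x) (1 + (x + u + b)) x * (c1n (x + u) - T.st.xs.v u b x - (c1n (x + u + b) - 1 / 2))) :
    StA (VN 3 κ) P RK RL pc a 2 c 0 k 1 (-1) x (x + u) (1 + b) := by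
  obtain ⟨hc, hP, hQ, tN, tM, tG⟩ := rq1Ap K hs
  unfold StA VN exA vlA
  simp only [crv_zero, one_mul, neg_one_mul, ← sub_eq_add_neg]
  rw [hX]
  refine gin1Ap (rB := ((c1n (x + u) * cG (x + u) + T.kc.v (psn (x + u)) x) * (x + u), -kw, fB))
    (rD := ((cP (x + u) - (cR (x + u) + 2 * c1n (x + u)) * T.kc.v (psn (x + u)) x) * (x + u), -dw, fD))
    D hb hκ rfl rfl hit (absTA hx) ?_ ?_ hdy ?_ ?_ t1 t3 hP hQ tN tM tG
  · exact kerJTA hd rfl (congrArg (fun t => -t) hkw) (hfB hc)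
  · exact derJTA hd rfl (congrArg (fun t => -t) hdw) (hfD hc)
  · rw [K1, K2, K3 hc]
    simp only [mul_neg]
    refine Prod.ext ?_ (Prod.ext ?_ ?_) <;> simp only <;> ring
  · exact levTA hd L1 (congrArg (fun t => -t) L2) (L3 hc)

theorem farJAm {n : ℕ} {P : Pos n} {RK RL : Fin (n + 1) → ℕ → ℝ → ℝ → ℝ} {pc : ℕ → Piece}
    {T : MolT} {a c : ℕ} {k : Fin (n + 1)} {u b x κ : ℝ} {sk cx : List Fn3}
    (D : DomA u b x) (hb : b < 0) (hκ : κ * h0 = ken x)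
    (hd : T.kc.v (psn (x + u + b)) x = T.kc.v (psn (x + u)) x + b * (fd1A T.dq false).v u b x)
    (hit : ((T.a false).at_ u b x).it * (x + u + b) = 1)
    (t1 : tau (h0 * (x + u)) = h0 * (x + u)) (t3 : tau (h0 * (x + u) + h0 * (1 + b)) = h0 * (x + u + b))
    (hx : T.st.xs.v u b x = 1 / 2 + b * T.st.ws.v u b x)
    (hX : crv P k 1 (1 + b) = T.st.xs.v u b x)
    (K : (kq0Am (T.a false) sk cx).P u b x) (hs : ∀ G ∈ sk, G.v u b x ≤ 0)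
    (K1 : RK 0 a (x + u) x = (c1n (x + u) * cG (x + u) + T.kc.v (psn (x + u)) x) * (x + u))
    (K2 : RK k 1 (1 + b) x = 1 / 2 + b * T.st.rs.v u b x)
    (K3 : (∀ G ∈ cx, 0 < G.v u b x) → (pc c).K.v (c1n (x + u) - T.st.xs.v u b x) (x + u + (1 + b)) x = ((c1n (x + u + b) - 1 / 2) * cG (x + u + b) + T.kc.v (psn (x + u + b)) x) * (x + u + b) + T.sK.v (c1n (x + u) - T.st.xs.v u b x) (1 + (x + u + b)) x * (c1n (x + u) - T.st.xs.v u b x - (c1n (x + u + b) - 1 / 2)))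
    (L1 : RL 0 a (x + u) x = cQ x (x + u) (T.kc.v (psn (x + u)) x))
    (L2 : RL k 1 (1 + b) x = b * T.st.xk.v u b x)
    (L3 : (∀ G ∈ cx, 0 < G.v u b x) → (pc c).L.v (c1n (x + u) - T.st.xs.v u b x) (x + u + (1 + b)) x = cQ x (x + u + b) (T.kc.v (psn (x + u + b)) x) + T.sX.v (c1n (x + u) - T.st.xs.v u b x) (1 + (x + u + b)) x * (c1n (x + u) - T.st.xs.v u b x - (c1n (x + u + b) - 1 / 2))) :
    StA (VF κ) P RK RL pc a 1 c 0 k 1 (-1) x (x + u) (1 + b) := by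
  obtain ⟨hc, hP, hQ, tN, tM, tG⟩ := rq0Am K hs
  unfold StA VF exA vlA
  simp only [crv_zero, one_mul, neg_one_mul, ← sub_eq_add_neg]
  rw [hX]
  refine gin0Am D hb hκ rfl rfl hit (absTA hx) ?_ ?_ t1 t3 hP hQ tN tM tG
  · exact kerJTA hd K1 (congrArg (fun t => -t) K2) (K3 hc)
  · exact levTA hd L1 (congrArg (fun t => -t) L2) (L3 hc)

theorem nearJAm {n : ℕ} {P : Pos n} {RK RL : Fin (n + 1) → ℕ → ℝ → ℝ → ℝ} {pc : ℕ → Piece}
    {T : MolT} {a c : ℕ} {k : Fin (n + 1)} {u b x κ : ℝ} {sk cx : List Fn3}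
    (D : DomA u b x) (hb : b < 0) (hκ : κ * h0 = ken x)
    (hd : T.kc.v (psn (x + u + b)) x = T.kc.v (psn (x + u)) x + b * (fd1A T.dq false).v u b x)
    (hit : ((T.a false).at_ u b x).it * (x + u + b) = 1)
    (t1 : tau (h0 * (x + u)) = h0 * (x + u)) (t3 : tau (h0 * (x + u) + h0 * (1 + b)) = h0 * (x + u + b))
    (hx : T.st.xs.v u b x = 1 / 2 + b * T.st.ws.v u b x)
    (hX : crv P k 1 (1 + b) = T.st.xs.v u b x)
    (K : (kq1Am (T.a false) sk cx).P u b x) (hs : ∀ G ∈ sk, G.v u b x ≤ 0)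
    (hdy : |T.kc.v (psn (x + u)) x| ≤ 1 / 2) {kw dw fB fD : ℝ}
    (K1 : RK 0 a (x + u) x = (1 + mun 3 x * cR x) * ((c1n (x + u) * cG (x + u) + T.kc.v (psn (x + u)) x) * (x + u)) +
      mun 3 x * ((cP (x + u) - (cR (x + u) + 2 * c1n (x + u)) * T.kc.v (psn (x + u)) x) * (x + u)))
    (K2 : RK k 1 (1 + b) x = (1 + mun 3 x * cR x) * kw + mun 3 x * dw)
    (hkw : kw = 1 / 2 + b * T.st.rs.v u b x) (hdw : dw = b * T.st.k2.v u b x)
    (K3 : (∀ G ∈ cx, 0 < G.v u b x) → (pc c).K.v (c1n (x + u) - T.st.xs.v u b x) (x + u + (1 + b)) x = (1 + mun 3 x * cR x) * fB + mun 3 x * fD)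
    (hfB : (∀ G ∈ cx, 0 < G.v u b x) → fB = ((c1n (x + u + b) - 1 / 2) * cG (x + u + b) + T.kc.v (psn (x + u + b)) x) * (x + u + b) + T.sK.v (c1n (x + u) - T.st.xs.v u b x) (1 + (x + u + b)) x * (c1n (x + u) - T.st.xs.v u b x - (c1n (x + u + b) - 1 / 2)))
    (hfD : (∀ G ∈ cx, 0 < G.v u b x) → fD = (cP (x + u + b) - 1 / 2 * cD (x + u + b) - (cR (x + u + b) + 2 * c1n (x + u + b) - 1) * T.kc.v (psn (x + u + b)) x) * (x + u + b) + T.sD.v (c1n (x + u) - T.st.xs.v u b x) (1 + (x + u + b)) x * (c1n (x + u) - T.st.xs.v u b x - (c1n (x + u + b) - 1 / 2)))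
    (L1 : RL 0 a (x + u) x = cQ x (x + u) (T.kc.v (psn (x + u)) x))
    (L2 : RL k 1 (1 + b) x = b * T.st.xk.v u b x)
    (L3 : (∀ G ∈ cx, 0 < G.v u b x) → (pc c).L.v (c1n (x + u) - T.st.xs.v u b x) (x + u + (1 + b)) x = cQ x (x + u + b) (T.kc.v (psn (x + u + b)) x) + T.sX.v (c1n (x + u) - T.st.xs.v u b x) (1 + (x + u + b)) x * (c1n (x + u) - T.st.xs.v u b x - (c1n (x + u + b) - 1 / 2))) :
    StA (VN 3 κ) P RK RL pc a 1 c 0 k 1 (-1) x (x + u) (1 + b) := by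
  obtain ⟨hc, hP, hQ, tN, tM, tG⟩ := rq1Am K hs
  unfold StA VN exA vlA
  simp only [crv_zero, one_mul, neg_one_mul, ← sub_eq_add_neg]
  rw [hX]
  refine gin1Am (rB := ((c1n (x + u) * cG (x + u) + T.kc.v (psn (x + u)) x) * (x + u), -kw, fB))
    (rD := ((cP (x + u) - (cR (x + u) + 2 * c1n (x + u)) * T.kc.v (psn (x + u)) x) * (x + u), -dw, fD))
    D hb hκ rfl rfl hit (absTA hx) ?_ ?_ hdy ?_ ?_ t1 t3 hP hQ tN tM tG
  · exact kerJTA hd rfl (congrArg (fun t => -t) hkw) (hfB hc)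
  · exact derJTA hd rfl (congrArg (fun t => -t) hdw) (hfD hc)
  · rw [K1, K2, K3 hc]
    simp only [mul_neg]
    refine Prod.ext ?_ (Prod.ext ?_ ?_) <;> simp only <;> ring
  · exact levTA hd L1 (congrArg (fun t => -t) L2) (L3 hc)

theorem farJBp {n : ℕ} {P : Pos n} {RK RL : Fin (n + 1) → ℕ → ℝ → ℝ → ℝ} {pc : ℕ → Piece}
    {T : MolT} {a c : ℕ} {k : Fin (n + 1)} {u b x κ : ℝ} {y' : ℝ} {sk cx : List Fn3}
    (D : DomB u b x) (hb : 0 ≤ b) (hκ : κ * h0 = ken x)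
    (hy' : y' = 1 + b - (x + u))
    (hd : T.kc.v (psn (x + u - b)) x = T.kc.v (psn (x + u)) x + b * (fd1B T.dq true).v u b x)
    (hit : ((T.b true).at_ u b x).it * (x + u - b) = -1)
    (t1 : tau (h0 * (x + u)) = h0 * (x + u)) (t3 : tau (h0 * y') = h0 * (-(x + u - b)))
    (hx : T.st.xs.v u b x = 1 / 2 + b * T.st.ws.v u b x)
    (hX : crv P k 2 (1 + b) = T.st.xs.v u b x)
    (K : (kq0Bp (T.b true) sk cx).P u b x) (hs : ∀ G ∈ sk, G.v u b x ≤ 0)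
    (K1 : RK 0 a (x + u) x = (c1n (x + u) * cG (x + u) + T.kc.v (psn (x + u)) x) * (x + u))
    (K2 : RK k 2 (1 + b) x = 1 / 2 + b * T.st.rs.v u b x)
    (K3 : (∀ G ∈ cx, 0 < G.v u b x) → (pc c).K.v (-T.st.xs.v u b x - c1n (x + u)) y' x = ((c1n (x + u - b) + 1 / 2) * cG (x + u - b) + T.kc.v (psn (x + u - b)) x) * (-(x + u - b)) - T.sK.v (c1n (x + u) + T.st.xs.v u b x) (1 - (x + u - b)) x * (c1n (x + u) + T.st.xs.v u b x - (c1n (x + u - b) + 1 / 2)))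
    (L1 : RL 0 a (x + u) x = cQ x (x + u) (T.kc.v (psn (x + u)) x))
    (L2 : RL k 2 (1 + b) x = b * T.st.xk.v u b x)
    (L3 : (∀ G ∈ cx, 0 < G.v u b x) → (pc c).L.v (-T.st.xs.v u b x - c1n (x + u)) y' x = -(cQ x (x + u - b) (T.kc.v (psn (x + u - b)) x) + T.sX.v (c1n (x + u) + T.st.xs.v u b x) (1 - (x + u - b)) x * (c1n (x + u) + T.st.xs.v u b x - (c1n (x + u - b) + 1 / 2)))) :
    StB (VF κ) P RK RL pc a c 2 0 k 1 (-1) x (x + u) y' := by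
  obtain ⟨hc, hP, hQ, tN, tM, tG⟩ := rq0Bp K hs
  have e : x + u + y' = 1 + b := by rw [hy']; ring
  unfold StB VF exB vlB
  simp only [crv_zero, one_mul, neg_one_mul, ← sub_eq_add_neg]
  refine gin0Bp D hb hκ rfl hy' hit ?_ ?_ ?_ t1 t3 hP hQ tN tM tG
  · rw [e, hX]
    exact absTB hx
  · rw [e, hX, sub_neg_eq_add]
    exact kerJTB hd K1 (congrArg (fun t => -t) K2) (K3 hc)
  · rw [e, hX, sub_neg_eq_add]
    exact levTB hd L1 (congrArg (fun t => -t) L2) (L3 hc)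

theorem nearJBp {n : ℕ} {P : Pos n} {RK RL : Fin (n + 1) → ℕ → ℝ → ℝ → ℝ} {pc : ℕ → Piece}
    {T : MolT} {a c : ℕ} {k : Fin (n + 1)} {u b x κ : ℝ} {y' : ℝ} {sk cx : List Fn3}
    (D : DomB u b x) (hb : 0 ≤ b) (hκ : κ * h0 = ken x)
    (hy' : y' = 1 + b - (x + u))
    (hd : T.kc.v (psn (x + u - b)) x = T.kc.v (psn (x + u)) x + b * (fd1B T.dq true).v u b x)
    (hit : ((T.b true).at_ u b x).it * (x + u - b) = -1)
    (t1 : tau (h0 * (x + u)) = h0 * (x + u)) (t3 : tau (h0 * y') = h0 * (-(x + u - b)))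
    (hx : T.st.xs.v u b x = 1 / 2 + b * T.st.ws.v u b x)
    (hX : crv P k 2 (1 + b) = T.st.xs.v u b x)
    (K : (kq1Bp (T.b true) sk cx).P u b x) (hs : ∀ G ∈ sk, G.v u b x ≤ 0)
    (hdy : |T.kc.v (psn (x + u)) x| ≤ 1 / 2) {kw dw fB fD : ℝ}
    (K1 : RK 0 a (x + u) x = (1 + mun 3 x * cR x) * ((c1n (x + u) * cG (x + u) + T.kc.v (psn (x + u)) x) * (x + u)) +
      mun 3 x * ((cP (x + u) - (cR (x + u) + 2 * c1n (x + u)) * T.kc.v (psn (x + u)) x) * (x + u)))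
    (K2 : RK k 2 (1 + b) x = (1 + mun 3 x * cR x) * kw + mun 3 x * dw)
    (hkw : kw = 1 / 2 + b * T.st.rs.v u b x) (hdw : dw = b * T.st.k2.v u b x)
    (K3 : (∀ G ∈ cx, 0 < G.v u b x) → (pc c).K.v (-T.st.xs.v u b x - c1n (x + u)) y' x = (1 + mun 3 x * cR x) * fB + mun 3 x * fD)
    (hfB : (∀ G ∈ cx, 0 < G.v u b x) → fB = ((c1n (x + u - b) + 1 / 2) * cG (x + u - b) + T.kc.v (psn (x + u - b)) x) * (-(x + u - b)) - T.sK.v (c1n (x + u) + T.st.xs.v u b x) (1 - (x + u - b)) x * (c1n (x + u) + T.st.xs.v u b x - (c1n (x + u - b) + 1 / 2)))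
    (hfD : (∀ G ∈ cx, 0 < G.v u b x) → fD = (cP (x + u - b) + 1 / 2 * cD (x + u - b) - (cR (x + u - b) + 2 * c1n (x + u - b) + 1) * T.kc.v (psn (x + u - b)) x) * (-(x + u - b)) - T.sD.v (c1n (x + u) + T.st.xs.v u b x) (1 - (x + u - b)) x * (c1n (x + u) + T.st.xs.v u b x - (c1n (x + u - b) + 1 / 2)))
    (L1 : RL 0 a (x + u) x = cQ x (x + u) (T.kc.v (psn (x + u)) x))
    (L2 : RL k 2 (1 + b) x = b * T.st.xk.v u b x)
    (L3 : (∀ G ∈ cx, 0 < G.v u b x) → (pc c).L.v (-T.st.xs.v u b x - c1n (x + u)) y' x = -(cQ x (x + u - b) (T.kc.v (psn (x + u - b)) x) + T.sX.v (c1n (x + u) + T.st.xs.v u b x) (1 - (x + u - b)) x * (c1n (x + u) + T.st.xs.v u b x - (c1n (x + u - b) + 1 / 2)))) :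
    StB (VN 3 κ) P RK RL pc a c 2 0 k 1 (-1) x (x + u) y' := by
  obtain ⟨hc, hP, hQ, tN, tM, tG⟩ := rq1Bp K hs
  have e : x + u + y' = 1 + b := by rw [hy']; ring
  unfold StB VN exB vlB
  simp only [crv_zero, one_mul, neg_one_mul, ← sub_eq_add_neg]
  refine gin1Bp (rB := ((c1n (x + u) * cG (x + u) + T.kc.v (psn (x + u)) x) * (x + u), fB, -kw))
    (rD := ((cP (x + u) - (cR (x + u) + 2 * c1n (x + u)) * T.kc.v (psn (x + u)) x) * (x + u), fD, -dw))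
    D hb hκ rfl hy' hit ?_ ?_ ?_ hdy ?_ ?_ t1 t3 hP hQ tN tM tG
  · rw [e, hX]
    exact absTB hx
  · rw [e, hX, sub_neg_eq_add]
    exact kerJTB hd rfl (congrArg (fun t => -t) hkw) (hfB hc)
  · rw [e, hX, sub_neg_eq_add]
    exact derJTB hd rfl (congrArg (fun t => -t) hdw) (hfD hc)
  · rw [e, hX]
    rw [K1, K2, K3 hc]
    simp only [mul_neg]
    refine Prod.ext ?_ (Prod.ext ?_ ?_) <;> simp only <;> ring
  · rw [e, hX, sub_neg_eq_add]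
    exact levTB hd L1 (congrArg (fun t => -t) L2) (L3 hc)

theorem farJBm {n : ℕ} {P : Pos n} {RK RL : Fin (n + 1) → ℕ → ℝ → ℝ → ℝ} {pc : ℕ → Piece}
    {T : MolT} {a c : ℕ} {k : Fin (n + 1)} {u b x κ : ℝ} {y' : ℝ} {sk cx : List Fn3}
    (D : DomB u b x) (hb : b < 0) (hκ : κ * h0 = ken x)
    (hy' : y' = 1 + b - (x + u))
    (hd : T.kc.v (psn (x + u - b)) x = T.kc.v (psn (x + u)) x + b * (fd1B T.dq false).v u b x)
    (hit : ((T.b false).at_ u b x).it * (x + u - b) = -1)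
    (t1 : tau (h0 * (x + u)) = h0 * (x + u)) (t3 : tau (h0 * y') = h0 * (-(x + u - b)))
    (hx : T.st.xs.v u b x = 1 / 2 + b * T.st.ws.v u b x)
    (hX : crv P k 1 (1 + b) = T.st.xs.v u b x)
    (K : (kq0Bm (T.b false) sk cx).P u b x) (hs : ∀ G ∈ sk, G.v u b x ≤ 0)
    (K1 : RK 0 a (x + u) x = (c1n (x + u) * cG (x + u) + T.kc.v (psn (x + u)) x) * (x + u))
    (K2 : RK k 1 (1 + b) x = 1 / 2 + b * T.st.rs.v u b x)
    (K3 : (∀ G ∈ cx, 0 < G.v u b x) → (pc c).K.v (-T.st.xs.v u b x - c1n (x + u)) y' x = ((c1n (x + u - b) + 1 / 2) * cG (x + u - b) + T.kc.v (psn (x + u - b)) x) * (-(x + u - b)) - T.sK.v (c1n (x + u) + T.st.xs.v u b x) (1 - (x + u - b)) x * (c1n (x + u) + T.st.xs.v u b x - (c1n (x + u - b) + 1 / 2)))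
    (L1 : RL 0 a (x + u) x = cQ x (x + u) (T.kc.v (psn (x + u)) x))
    (L2 : RL k 1 (1 + b) x = b * T.st.xk.v u b x)
    (L3 : (∀ G ∈ cx, 0 < G.v u b x) → (pc c).L.v (-T.st.xs.v u b x - c1n (x + u)) y' x = -(cQ x (x + u - b) (T.kc.v (psn (x + u - b)) x) + T.sX.v (c1n (x + u) + T.st.xs.v u b x) (1 - (x + u - b)) x * (c1n (x + u) + T.st.xs.v u b x - (c1n (x + u - b) + 1 / 2)))) :
    StB (VF κ) P RK RL pc a c 1 0 k 1 (-1) x (x + u) y' := by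
  obtain ⟨hc, hP, hQ, tN, tM, tG⟩ := rq0Bm K hs
  have e : x + u + y' = 1 + b := by rw [hy']; ring
  unfold StB VF exB vlB
  simp only [crv_zero, one_mul, neg_one_mul, ← sub_eq_add_neg]
  refine gin0Bm D hb hκ rfl hy' hit ?_ ?_ ?_ t1 t3 hP hQ tN tM tG
  · rw [e, hX]
    exact absTB hx
  · rw [e, hX, sub_neg_eq_add]
    exact kerJTB hd K1 (congrArg (fun t => -t) K2) (K3 hc)
  · rw [e, hX, sub_neg_eq_add]
    exact levTB hd L1 (congrArg (fun t => -t) L2) (L3 hc)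

theorem nearJBm {n : ℕ} {P : Pos n} {RK RL : Fin (n + 1) → ℕ → ℝ → ℝ → ℝ} {pc : ℕ → Piece}
    {T : MolT} {a c : ℕ} {k : Fin (n + 1)} {u b x κ : ℝ} {y' : ℝ} {sk cx : List Fn3}
    (D : DomB u b x) (hb : b < 0) (hκ : κ * h0 = ken x)
    (hy' : y' = 1 + b - (x + u))
    (hd : T.kc.v (psn (x + u - b)) x = T.kc.v (psn (x + u)) x + b * (fd1B T.dq false).v u b x)
    (hit : ((T.b false).at_ u b x).it * (x + u - b) = -1)
    (t1 : tau (h0 * (x + u)) = h0 * (x + u)) (t3 : tau (h0 * y') = h0 * (-(x + u - b)))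
    (hx : T.st.xs.v u b x = 1 / 2 + b * T.st.ws.v u b x)
    (hX : crv P k 1 (1 + b) = T.st.xs.v u b x)
    (K : (kq1Bm (T.b false) sk cx).P u b x) (hs : ∀ G ∈ sk, G.v u b x ≤ 0)
    (hdy : |T.kc.v (psn (x + u)) x| ≤ 1 / 2) {kw dw fB fD : ℝ}
    (K1 : RK 0 a (x + u) x = (1 + mun 3 x * cR x) * ((c1n (x + u) * cG (x + u) + T.kc.v (psn (x + u)) x) * (x + u)) +
      mun 3 x * ((cP (x + u) - (cR (x + u) + 2 * c1n (x + u)) * T.kc.v (psn (x + u)) x) * (x + u)))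
    (K2 : RK k 1 (1 + b) x = (1 + mun 3 x * cR x) * kw + mun 3 x * dw)
    (hkw : kw = 1 / 2 + b * T.st.rs.v u b x) (hdw : dw = b * T.st.k2.v u b x)
    (K3 : (∀ G ∈ cx, 0 < G.v u b x) → (pc c).K.v (-T.st.xs.v u b x - c1n (x + u)) y' x = (1 + mun 3 x * cR x) * fB + mun 3 x * fD)
    (hfB : (∀ G ∈ cx, 0 < G.v u b x) → fB = ((c1n (x + u - b) + 1 / 2) * cG (x + u - b) + T.kc.v (psn (x + u - b)) x) * (-(x + u - b)) - T.sK.v (c1n (x + u) + T.st.xs.v u b x) (1 - (x + u - b)) x * (c1n (x + u) + T.st.xs.v u b x - (c1n (x + u - b) + 1 / 2)))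
    (hfD : (∀ G ∈ cx, 0 < G.v u b x) → fD = (cP (x + u - b) + 1 / 2 * cD (x + u - b) - (cR (x + u - b) + 2 * c1n (x + u - b) + 1) * T.kc.v (psn (x + u - b)) x) * (-(x + u - b)) - T.sD.v (c1n (x + u) + T.st.xs.v u b x) (1 - (x + u - b)) x * (c1n (x + u) + T.st.xs.v u b x - (c1n (x + u - b) + 1 / 2)))
    (L1 : RL 0 a (x + u) x = cQ x (x + u) (T.kc.v (psn (x + u)) x))
    (L2 : RL k 1 (1 + b) x = b * T.st.xk.v u b x)
    (L3 : (∀ G ∈ cx, 0 < G.v u b x) → (pc c).L.v (-T.st.xs.v u b x - c1n (x + u)) y' x = -(cQ x (x + u - b) (T.kc.v (psn (x + u - b)) x) + T.sX.v (c1n (x + u) + T.st.xs.v u b x) (1 - (x + u - b)) x * (c1n (x + u) + T.st.xs.v u b x - (c1n (x + u - b) + 1 / 2)))) :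
    StB (VN 3 κ) P RK RL pc a c 1 0 k 1 (-1) x (x + u) y' := by
  obtain ⟨hc, hP, hQ, tN, tM, tG⟩ := rq1Bm K hs
  have e : x + u + y' = 1 + b := by rw [hy']; ring
  unfold StB VN exB vlB
  simp only [crv_zero, one_mul, neg_one_mul, ← sub_eq_add_neg]
  refine gin1Bm (rB := ((c1n (x + u) * cG (x + u) + T.kc.v (psn (x + u)) x) * (x + u), fB, -kw))
    (rD := ((cP (x + u) - (cR (x + u) + 2 * c1n (x + u)) * T.kc.v (psn (x + u)) x) * (x + u), fD, -dw))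
    D hb hκ rfl hy' hit ?_ ?_ ?_ hdy ?_ ?_ t1 t3 hP hQ tN tM tG
  · rw [e, hX]
    exact absTB hx
  · rw [e, hX, sub_neg_eq_add]
    exact kerJTB hd rfl (congrArg (fun t => -t) hkw) (hfB hc)
  · rw [e, hX, sub_neg_eq_add]
    exact derJTB hd rfl (congrArg (fun t => -t) hdw) (hfD hc)
  · rw [e, hX]
    rw [K1, K2, K3 hc]
    simp only [mul_neg]
    refine Prod.ext ?_ (Prod.ext ?_ ?_) <;> simp only <;> ring
  · rw [e, hX, sub_neg_eq_add]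
    exact levTB hd L1 (congrArg (fun t => -t) L2) (L3 hc)

end Pool.Agent.Strip051.PB.Mol
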