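import Pool.Agent.Strip051.PB.MoR7

/-! # The chart `0Bm` with a scaled product -/

set_option linter.unusedVariables false

namespace Pool.Agent.Strip051.PB.Mol

open Pool.Agent.StripNear Pool.Agent.StripSquare Pool.Agent.Strip051.Sweep
open Pool.Agent.Strip051.LC Pool.Agent.Strip051.LC.MolN Pool.Agent.Strip051.PB

/-- `1024` times the product form, computed without loss for small arguments -/
noncomputable def q0Bm_s3 (M : MolF) : Fn3 where
  t := _
  v a b c := 1024 * r2491 (M.at_ a b c) a b c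
  enc {E A B C a b c} h1 h2 h3 := encc
    (enc_add (enc_mul (enc_sq (enc_norm (enc_nat 32 h1)))
      (enc_norm (es1_2 (enc_mul (enc_norm (es1_216 (enc_mul ((R2251 M).enc h1 h2 h3)
        (enc_norm (enc_mul ((R242 M).enc h1 h2 h3) (enc_sq ((R246 M).enc h1 h2 h3)))))))
        ((R267 M).enc h1 h2 h3)))))
      (enc_mul (enc_norm (enc_nat 1024 h2)) ((R2478 M).enc h1 h2 h3)))
    (by
      simp only [r2491, r2261, r2256, n298]
      show (((32 : ℕ) : ℝ) * a) ^ 2 * (1 / 2 * (1 / 216 * (r2251 (M.at_ a b c) a b c *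
        ((1 + n8 (M.at_ a b c) a b c) * (1 + n12 (M.at_ a b c) a b c) ^ 2)) *
        n267 (M.at_ a b c) a b c)) + ((1024 : ℕ) : ℝ) * b * r2478 (M.at_ a b c) a b c = _
      push_cast
      ring)

/-- The chart `0Bm` with the scaled product. -/
noncomputable def kq0BmS (M : MolF) (sk cx : List Fn3) : Cht3 :=
  ⟨sk, q0Bm_c0 M :: q0Bm_c1 M :: cx, [q0Bm_n0 M, q0Bm_n1 M, q0Bm_n2 M, q0Bm_s3 M],
    [q0Bm_m0 M, q0Bm_m1 M, q0Bm_m2 M, q0Bm_m3 M], [q0Bm_g0 M, q0Bm_g1 M, q0Bm_g2 M]⟩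

theorem kq0BmS_of {M : MolF} {sk cx : List Fn3} {u b x : ℝ} (K : (kq0BmS M sk cx).P u b x) :
    (kq0Bm M sk cx).P u b x := by
  rcases K with h | ⟨h1, ⟨F, hF, h2⟩, h3, h4⟩
  · exact Or.inl h
  · refine Or.inr ⟨h1, ?_, h3, h4⟩
    rcases List.mem_cons.1 hF with rfl | hF
    · exact ⟨_, List.mem_cons_self, h2⟩
    rcases List.mem_cons.1 hF with rfl | hF
    · exact ⟨_, List.mem_cons_of_mem _ List.mem_cons_self, h2⟩
    rcases List.mem_cons.1 hF with rfl | hF
    · exact ⟨_, List.mem_cons_of_mem _ (List.mem_cons_of_mem _ List.mem_cons_self), h2⟩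
    rcases List.mem_cons.1 hF with rfl | hF
    · have h : 0 < 1024 * r2491 (M.at_ u b x) u b x := h2
      exact ⟨q0Bm_n3 M, List.mem_cons_of_mem _ (List.mem_cons_of_mem _ (List.mem_cons_of_mem _
        List.mem_cons_self)), show 0 < r2491 (M.at_ u b x) u b x by linarith⟩
    · exact absurd hF (by simp)

end Pool.Agent.Strip051.PB.Mol
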