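import Pool.Agent.Strip051.PB.MolH

/-! # The tight charts: the functions which do not depend on the table

`u = y - x` is the deviation of the short edge, `b` the deviation of the steep edge. -/

namespace Pool.Agent.Strip051.PB.Mol

open Pool.Agent.StripNear Pool.Agent.StripSquare Pool.Agent.Strip051.Sweep
open Pool.Agent.Strip051.LC Pool.Agent.Strip051.LC.MolN
open Pool.Agent.Strip051.LC.Line (tau)

attribute [local irreducible] padd psub pneg pmul psq pinv psqrt psqrtg pabs pps pmax pmin pphi plam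
  pcase phf pnat prat pscale pnorm pdc pnc pone ppos pnn Enc pzero

/-! ### Functions -/

/-- the abscissa of a unit edge -/
noncomputable def c1f : Fn1 where
  t A := psqrt (psub pone (pscale 3 4 (psq A)))
  v := c1n
  enc h := encc (enc_sqrt (enc_sub (enc_one _) (enc_scale 3 4 (enc_sq h)))) (by
    unfold c1n
    norm_num)

/-- the phase of a unit edge -/
noncomputable def psn (y : ℝ) : ℝ := 3 / 4 * y - 1 / 2 * c1n y

noncomputable def psp (Y C : ℕ) : ℕ := pnorm (psub (pscale 3 4 Y) (phf C))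

theorem enc_psp {E : Pt} {Y C : ℕ} {y c : ℝ} (hY : Enc E Y y) (hC : Enc E C c) :
    Enc E (psp Y C) (3 / 4 * y - 1 / 2 * c) :=
  encc (enc_norm (enc_sub (enc_scale 3 4 hY) (enc_half hC))) (by norm_num; ring)

/-- the slope of a secant of the phase -/
noncomputable def psd (y z : ℝ) : ℝ := 3 / 4 + 3 / 8 * (y + z) * (c1n y + c1n z)⁻¹

noncomputable def psq' (Y Z C D : ℕ) : ℕ :=
  pnorm (padd (prat 3 4) (pmul (pnorm (pscale 3 8 (padd Y Z))) (pinv (padd C D))))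

theorem enc_psq' {E : Pt} {Y Z C D : ℕ} {y z c d : ℝ} (hY : Enc E Y y) (hZ : Enc E Z z)
    (hC : Enc E C c) (hD : Enc E D d) :
    Enc E (psq' Y Z C D) (3 / 4 + 3 / 8 * (y + z) * (c + d)⁻¹) :=
  encc (enc_norm (enc_add (enc_rat E 3 4) (enc_mul (enc_norm (enc_scale 3 8 (enc_add hY hZ)))
    (enc_inv (enc_add hC hD))))) (by norm_num)

/-- the slope of a secant of the abscissa at the steep edge -/
noncomputable def w1n (b : ℝ) : ℝ := -(3 / 4 * (2 + b) * (c1n (1 + b) + 1 / 2)⁻¹)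

/-- the slope of a secant of the kernel of a steep edge below height one -/
noncomputable def rmn (b : ℝ) : ℝ :=
  3 / 4 * (3 + b + 2 * (w1n b * (1 + b))) * (1 + (3 / 2 * (1 + b) - c1n (1 + b)))⁻¹

theorem c1n_sq' {y : ℝ} (h : y ^ 2 ≤ 4 / 3) : c1n y ^ 2 = 1 - 3 / 4 * y ^ 2 := by
  unfold c1n
  rw [Real.sq_sqrt]
  linarith

theorem c1n_nn (y : ℝ) : 0 ≤ c1n y := Real.sqrt_nonneg _

theorem c1n_pos' {y : ℝ} (h : y ^ 2 < 4 / 3) : 0 < c1n y := by
  unfold c1n
  exact Real.sqrt_pos.2 (by linarith)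

theorem psd_eq {y z : ℝ} (hy : y ^ 2 < 4 / 3) (hz : z ^ 2 < 4 / 3) :
    psn z - psn y = (z - y) * psd y z := by
  have h1 := c1n_sq' hy.le
  have h2 := c1n_sq' hz.le
  have h3 := c1n_pos' hy
  have h4 := c1n_nn z
  have h5 : c1n y + c1n z ≠ 0 := by positivity
  have hs := mul_inv_cancel₀ h5
  unfold psn psd
  generalize (c1n y + c1n z)⁻¹ = s at *
  linear_combination (1 / 2 * (c1n z - c1n y)) * hs - 1 / 2 * s * h2 + 1 / 2 * s * h1

theorem w1n_eq {b : ℝ} (h0 : -(1 / 8) ≤ b) (h1 : b ≤ 1 / 8) : c1n (1 + b) = 1 / 2 + b * w1n b := by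
  have h2 : c1n (1 + b) ^ 2 = 1 - 3 / 4 * (1 + b) ^ 2 := c1n_sq' (by nlinarith)
  have h3 := c1n_nn (1 + b)
  have h5 : c1n (1 + b) + 1 / 2 ≠ 0 := by positivity
  have hs := mul_inv_cancel₀ h5
  unfold w1n
  generalize (c1n (1 + b) + 1 / 2)⁻¹ = s at *
  linear_combination (-(c1n (1 + b) - 1 / 2)) * hs + s * h2

/-- the kernel of a unit edge below height one half, without correction -/
noncomputable def kA0 (y : ℝ) : ℝ :=
  (c1n y - 3 / 2 * y) * (1 + c1n y) * (1 + c1n y - 3 / 2 * y)⁻¹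

/-- the kernel of a unit edge below height one, without correction -/
noncomputable def kA1 (y : ℝ) : ℝ :=
  (1 + 2 * c1n y) * (3 / 2 * y - c1n y) * (2 * (1 + 3 / 2 * y - c1n y))⁻¹

theorem e_pos {y : ℝ} (h0 : 0 < y) (h1 : y < 1) : 0 < y / 2 + c1n y - 1 := by
  have h2 := c1n_sq' (y := y) (by nlinarith)
  have h3 := c1n_nn y
  by_contra h
  push Not at h
  nlinarith

theorem cG_eq (y : ℝ) :
    cG y = (1 / 2 - 3 / 4 * (y * (c1n y)⁻¹)) * (y / 2 + c1n y - 1)⁻¹ := by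
  unfold cG
  rw [div_eq_mul_inv (1 / 2 - 3 / 4 * (y / c1n y)), div_eq_mul_inv y (c1n y)]

theorem kA0_eq {y : ℝ} (h0 : 0 < y) (h1 : y < 1) : kA0 y = c1n y * cG y * y := by
  have h2 := c1n_sq' (y := y) (by nlinarith)
  have h3 := c1n_pos' (y := y) (by nlinarith)
  have h4 := e_pos h0 h1
  have key : y * (1 + c1n y - 3 / 2 * y) = 2 * (1 + c1n y) * (y / 2 + c1n y - 1) := by
    linear_combination (-2) * h2
  have h5 : 0 < 1 + c1n y - 3 / 2 * y := by
    by_contra h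
    push Not at h
    have : y * (1 + c1n y - 3 / 2 * y) ≤ 0 := mul_nonpos_of_nonneg_of_nonpos h0.le h
    have : 0 < 2 * (1 + c1n y) * (y / 2 + c1n y - 1) := by positivity
    linarith
  have hs := mul_inv_cancel₀ h5.ne'
  have ht := mul_inv_cancel₀ h4.ne'
  have hq := mul_inv_cancel₀ h3.ne'
  rw [cG_eq]
  unfold kA0
  generalize (1 + c1n y - 3 / 2 * y)⁻¹ = s at *
  generalize (y / 2 + c1n y - 1)⁻¹ = t at *
  generalize (c1n y)⁻¹ = q at *
  have hst : 2 * (1 + c1n y) * s = y * t := by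
    linear_combination (-(2 * (1 + c1n y) * s)) * ht - s * t * key + y * t * hs
  linear_combination ((c1n y - 3 / 2 * y) / 2) * hst + 3 / 4 * y ^ 2 * t * hq

theorem kA1_eq {y : ℝ} (h0 : 0 < y) (h1 : y < 1) : kA1 y = c1n y * cG y * (y - 1) := by
  have h2 := c1n_sq' (y := y) (by nlinarith)
  have h3 := c1n_pos' (y := y) (by nlinarith)
  have h4 := e_pos h0 h1
  have h5 : 0 < 1 + 3 / 2 * y - c1n y := by
    have : c1n y ≤ 1 := by nlinarith
    linarith
  have key : (1 - y) * (1 + 3 / 2 * y - c1n y) = (1 + 2 * c1n y) * (y / 2 + c1n y - 1) := by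
    linear_combination (-2) * h2
  have hs := mul_inv_cancel₀ (mul_pos two_pos h5).ne'
  have ht := mul_inv_cancel₀ h4.ne'
  have hq := mul_inv_cancel₀ h3.ne'
  rw [cG_eq]
  unfold kA1
  generalize (2 * (1 + 3 / 2 * y - c1n y))⁻¹ = s at *
  generalize (y / 2 + c1n y - 1)⁻¹ = t at *
  generalize (c1n y)⁻¹ = q at *
  have hst : 2 * (1 + 2 * c1n y) * s = (1 - y) * t := by
    linear_combination (-(2 * (1 + 2 * c1n y) * s)) * ht - 2 * s * t * key + (1 - y) * t * hs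
  linear_combination (-((c1n y - 3 / 2 * y) / 2)) * hst + 3 / 4 * y * (y - 1) * t * hq

theorem rmn_eq {b : ℝ} (h0 : -(1 / 8) ≤ b) (h1 : b ≤ 1 / 8) : kA1 (1 + b) = 1 / 2 + b * rmn b := by
  have hw := w1n_eq h0 h1
  have h2 : c1n (1 + b) ^ 2 = 1 - 3 / 4 * (1 + b) ^ 2 := c1n_sq' (by nlinarith)
  have h3 := c1n_nn (1 + b)
  have h5 : 0 < 1 + (3 / 2 * (1 + b) - c1n (1 + b)) := by nlinarith
  have hs := mul_inv_cancel₀ h5.ne'
  have e2 : (2 * (1 + 3 / 2 * (1 + b) - c1n (1 + b)))⁻¹ =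
      (1 + (3 / 2 * (1 + b) - c1n (1 + b)))⁻¹ / 2 := by
    rw [mul_inv, show 1 + 3 / 2 * (1 + b) - c1n (1 + b) = 1 + (3 / 2 * (1 + b) - c1n (1 + b)) by
      ring]
    ring
  unfold kA1 rmn
  rw [e2]
  generalize (1 + (3 / 2 * (1 + b) - c1n (1 + b)))⁻¹ = s at *
  linear_combination (1 / 2) * hs - s * h2 + (3 / 2 * (1 + b) * s) * hw

end Pool.Agent.Strip051.PB.Mol
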