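import Pool.Agent.Strip051.PB.MolA

/-! # The tight charts: the functions of the charts from the functions of a table -/

namespace Pool.Agent.Strip051.PB.Mol

open Pool.Agent.StripNear Pool.Agent.StripSquare Pool.Agent.Strip051.Sweep
open Pool.Agent.Strip051.LC Pool.Agent.Strip051.LC.MolN
open Pool.Agent.Strip051.LC.Line (tau)

attribute [local irreducible] padd psub pneg pmul psq pinv psqrt psqrtg pabs pps pmax pmin pphi plam
  pcase phf pnat prat pscale pnorm pdc pnc pone ppos pnn Enc pzero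

/-! ### Heights and abscissas -/

/-- zero -/
noncomputable def fZ : Fn3 := ⟨fun _ _ _ => pzero, fun _ _ _ => 0, fun _ _ _ => enc_zero _⟩

/-- the height of the short edge -/
noncomputable def fY : Fn3 where
  t A _ C := pnorm (padd C A)
  v a _ c := c + a
  enc h1 _ h3 := enc_norm (enc_add h3 h1)

/-- the height of the third side minus one -/
noncomputable def fYA : Fn3 where
  t A B C := pnorm (padd (fY.t A B C) B)
  v a b c := c + a + b
  enc h1 h2 h3 := enc_norm (enc_add (fY.enc h1 h2 h3) h2)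

/-- one minus the height of the third side -/
noncomputable def fYB : Fn3 where
  t A B C := pnorm (psub (fY.t A B C) B)
  v a b c := c + a - b
  enc h1 h2 h3 := enc_norm (enc_sub (fY.enc h1 h2 h3) h2)

noncomputable def fC : Fn3 where
  t A B C := c1f.t (fY.t A B C)
  v a _ c := c1n (c + a)
  enc h1 h2 h3 := c1f.enc (fY.enc h1 h2 h3)

noncomputable def fCA : Fn3 where
  t A B C := c1f.t (fYA.t A B C)
  v a b c := c1n (c + a + b)
  enc h1 h2 h3 := c1f.enc (fYA.enc h1 h2 h3)

noncomputable def fCB : Fn3 where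
  t A B C := c1f.t (fYB.t A B C)
  v a b c := c1n (c + a - b)
  enc h1 h2 h3 := c1f.enc (fYB.enc h1 h2 h3)

/-- the phase of the short edge -/
noncomputable def fP : Fn3 where
  t A B C := psp (fY.t A B C) (fC.t A B C)
  v a _ c := psn (c + a)
  enc h1 h2 h3 := enc_psp (fY.enc h1 h2 h3) (fC.enc h1 h2 h3)

noncomputable def fPA : Fn3 where
  t A B C := psp (fYA.t A B C) (fCA.t A B C)
  v a b c := psn (c + a + b)
  enc h1 h2 h3 := enc_psp (fYA.enc h1 h2 h3) (fCA.enc h1 h2 h3)

noncomputable def fPB : Fn3 where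
  t A B C := psp (fYB.t A B C) (fCB.t A B C)
  v a b c := psn (c + a - b)
  enc h1 h2 h3 := enc_psp (fYB.enc h1 h2 h3) (fCB.enc h1 h2 h3)

/-- the height of the steep edge -/
noncomputable def fT : Fn3 where
  t _ B _ := pnorm (padd pone B)
  v _ b _ := 1 + b
  enc _ h2 _ := enc_norm (enc_add (enc_one _) h2)

/-- its abscissa on the unit circle -/
noncomputable def fW : Fn3 where
  t A B C := c1f.t (fT.t A B C)
  v _ b _ := c1n (1 + b)
  enc h1 h2 h3 := c1f.enc (fT.enc h1 h2 h3)

/-- the phase of the steep edge -/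
noncomputable def fPT : Fn3 where
  t A B C := psp (fT.t A B C) (fW.t A B C)
  v _ b _ := psn (1 + b)
  enc h1 h2 h3 := enc_psp (fT.enc h1 h2 h3) (fW.enc h1 h2 h3)

noncomputable def fW1 : Fn3 where
  t A B C := pneg (pmul (pnorm (pscale 3 4 (padd (pnc 2) B))) (pinv (padd (fW.t A B C) (prat 1 2))))
  v _ b _ := w1n b
  enc h1 h2 h3 := encc (enc_neg (enc_mul (enc_norm (enc_scale 3 4 (enc_add (enc_pnc _ 2) h2)))
    (enc_inv (enc_add (fW.enc h1 h2 h3) (enc_rat _ 1 2))))) (by
      unfold w1n fW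
      push_cast
      ring)

noncomputable def fRM : Fn3 where
  t A B C := pmul (pnorm (pscale 3 4 (padd (padd (pnc 3) B) (pnat 2 (pmul (fW1.t A B C)
    (fT.t A B C)))))) (pinv (padd pone (psub (pscale 3 2 (fT.t A B C)) (fW.t A B C))))
  v _ b _ := rmn b
  enc h1 h2 h3 := encc (enc_mul (enc_norm (enc_scale 3 4 (enc_add (enc_add (enc_pnc _ 3) h2)
    (enc_nat 2 (enc_mul (fW1.enc h1 h2 h3) (fT.enc h1 h2 h3)))))) (enc_inv (enc_add (enc_one _)
      (enc_sub (enc_scale 3 2 (fT.enc h1 h2 h3)) (fW.enc h1 h2 h3))))) (by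
      unfold rmn fW fW1 fT
      push_cast
      ring)

/-! ### Functions of the table -/

/-- the correction at the short edge -/
noncomputable def fdy (kc : Fn2) : Fn3 where
  t A B C := kc.t (fP.t A B C) C
  v a _ c := kc.v (psn (c + a)) c
  enc h1 h2 h3 := kc.enc (fP.enc h1 h2 h3) h3

/-- the slope of the correction: `dq` is a function of the smaller and the larger phase -/
noncomputable def fd1A (dq : Fn3) (s : Bool) : Fn3 where
  t A B C := pnorm (pmul (pnorm (Bool.rec (motive := fun _ => ℕ)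
    (dq.t (fPA.t A B C) (fP.t A B C) C) (dq.t (fP.t A B C) (fPA.t A B C) C) s))
    (psq' (fY.t A B C) (fYA.t A B C) (fC.t A B C) (fCA.t A B C)))
  v a b c := cond s (dq.v (psn (c + a)) (psn (c + a + b)) c)
    (dq.v (psn (c + a + b)) (psn (c + a)) c) * psd (c + a) (c + a + b)
  enc h1 h2 h3 := by
    refine enc_norm (enc_mul (enc_norm ?_) (enc_psq' (fY.enc h1 h2 h3) (fYA.enc h1 h2 h3)
      (fC.enc h1 h2 h3) (fCA.enc h1 h2 h3)))
    cases s
    · exact dq.enc (fPA.enc h1 h2 h3) (fP.enc h1 h2 h3) h3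
    · exact dq.enc (fP.enc h1 h2 h3) (fPA.enc h1 h2 h3) h3

noncomputable def fd1B (dq : Fn3) (s : Bool) : Fn3 where
  t A B C := pnorm (pneg (pmul (pnorm (Bool.rec (motive := fun _ => ℕ)
    (dq.t (fP.t A B C) (fPB.t A B C) C) (dq.t (fPB.t A B C) (fP.t A B C) C) s))
    (psq' (fY.t A B C) (fYB.t A B C) (fC.t A B C) (fCB.t A B C))))
  v a b c := -(cond s (dq.v (psn (c + a - b)) (psn (c + a)) c)
    (dq.v (psn (c + a)) (psn (c + a - b)) c) * psd (c + a) (c + a - b))
  enc h1 h2 h3 := by
    refine enc_norm (enc_neg (enc_mul (enc_norm ?_) (enc_psq' (fY.enc h1 h2 h3)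
      (fYB.enc h1 h2 h3) (fC.enc h1 h2 h3) (fCB.enc h1 h2 h3))))
    cases s
    · exact dq.enc (fP.enc h1 h2 h3) (fPB.enc h1 h2 h3) h3
    · exact dq.enc (fPB.enc h1 h2 h3) (fP.enc h1 h2 h3) h3

/-- the slope of the kernel at the steep edge, above height one -/
noncomputable def frp (kc : Fn2) : Fn3 where
  t A B C := pnorm (padd (fW1.t A B C) (kc.t (pneg (fW.t A B C)) C))
  v _ b c := w1n b + kc.v (-c1n (1 + b)) c
  enc h1 h2 h3 := enc_norm (enc_add (fW1.enc h1 h2 h3) (kc.enc (enc_neg (fW.enc h1 h2 h3)) h3))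

/-- the slope of the kernel at the steep edge, below height one -/
noncomputable def frm (kc : Fn2) : Fn3 where
  t A B C := pnorm (padd (fRM.t A B C) (kc.t (fPT.t A B C) C))
  v _ b c := rmn b + kc.v (psn (1 + b)) c
  enc h1 h2 h3 := enc_norm (enc_add (fRM.enc h1 h2 h3) (kc.enc (fPT.enc h1 h2 h3) h3))

/-- the slope of the level at the steep edge, above height one; `mL`, `mR` are the slopes of the
secants of the level table at the two ends as functions of the phase and `x` -/
noncomputable def fxp (mL mR : Fn2) : Fn3 where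
  t A B C := pneg (pmul (fW1.t A B C) (pnorm (padd (mL.t (pneg (fW.t A B C)) C)
    (mR.t (fW.t A B C) C))))
  v _ b c := -(w1n b * (mL.v (-c1n (1 + b)) c + mR.v (c1n (1 + b)) c))
  enc h1 h2 h3 := enc_neg (enc_mul (fW1.enc h1 h2 h3) (enc_norm (enc_add
    (mL.enc (enc_neg (fW.enc h1 h2 h3)) h3) (mR.enc (fW.enc h1 h2 h3) h3))))

/-- the slope of the level at the steep edge, below height one -/
noncomputable def fxm (mR : Fn2) : Fn3 where
  t A B C := pmul (pnorm (mR.t (fPT.t A B C) C)) (pnorm (psub (prat 3 4) (phf (fW1.t A B C))))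
  v _ b c := mR.v (psn (1 + b)) c * (3 / 4 - w1n b / 2)
  enc h1 h2 h3 := encc (enc_mul (enc_norm (mR.enc (fPT.enc h1 h2 h3) h3)) (enc_norm (enc_sub
    (enc_rat _ 3 4) (enc_half (fW1.enc h1 h2 h3))))) (by
      unfold fW1 fPT
      norm_num)

/-- the second kernel at the steep edge, above height one -/
noncomputable def fkp (k0 : Fn2) : Fn3 where
  t A B C := k0.t (fW.t A B C) C
  v _ b c := k0.v (c1n (1 + b)) c
  enc h1 h2 h3 := k0.enc (fW.enc h1 h2 h3) h3

/-- the second kernel at the steep edge, below height one -/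
noncomputable def fkm (k0 : Fn2) : Fn3 where
  t A B C := k0.t (fPT.t A B C) C
  v _ b c := k0.v (psn (1 + b)) c
  enc h1 h2 h3 := k0.enc (fPT.enc h1 h2 h3) h3

/-- the abscissa of the third side, family `A`; `xs` is the abscissa of the steep edge -/
noncomputable def fXA (xs : Fn3) : Fn3 where
  t A B C := pnorm (psub (fC.t A B C) (xs.t A B C))
  v a b c := c1n (c + a) - xs.v a b c
  enc h1 h2 h3 := enc_norm (enc_sub (fC.enc h1 h2 h3) (xs.enc h1 h2 h3))

/-- the abscissa of the third side, family `B` -/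
noncomputable def fXB (xs : Fn3) : Fn3 where
  t A B C := pnorm (padd (fC.t A B C) (xs.t A B C))
  v a b c := c1n (c + a) + xs.v a b c
  enc h1 h2 h3 := enc_norm (enc_add (fC.enc h1 h2 h3) (xs.enc h1 h2 h3))

/-- the height of the third side, family `A` -/
noncomputable def fHA : Fn3 where
  t A B C := pnorm (padd pone (fYA.t A B C))
  v a b c := 1 + (c + a + b)
  enc h1 h2 h3 := enc_norm (enc_add (enc_one _) (fYA.enc h1 h2 h3))

/-- the height of the third side, family `B` -/
noncomputable def fHB : Fn3 where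
  t A B C := pnorm (psub pone (fYB.t A B C))
  v a b c := 1 - (c + a - b)
  enc h1 h2 h3 := enc_norm (enc_sub (enc_one _) (fYB.enc h1 h2 h3))

/-- a function of the third side, family `A` -/
noncomputable def f3A (xs f : Fn3) : Fn3 where
  t A B C := f.t ((fXA xs).t A B C) (fHA.t A B C) C
  v a b c := f.v (c1n (c + a) - xs.v a b c) (1 + (c + a + b)) c
  enc h1 h2 h3 := f.enc ((fXA xs).enc h1 h2 h3) (fHA.enc h1 h2 h3) h3

/-- a function of the third side, family `B` -/
noncomputable def f3B (xs f : Fn3) : Fn3 where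
  t A B C := f.t ((fXB xs).t A B C) (fHB.t A B C) C
  v a b c := f.v (c1n (c + a) + xs.v a b c) (1 - (c + a - b)) c
  enc h1 h2 h3 := f.enc ((fXB xs).enc h1 h2 h3) (fHB.enc h1 h2 h3) h3

/-- the inverse of the phase variable of the third side, family `A`; `q` is its quarter -/
noncomputable def fitA : ℕ → Fn3
  | 2 => ⟨fun A B C => pinv (fYA.t A B C), fun a b c => (c + a + b)⁻¹,
      fun h1 h2 h3 => enc_inv (fYA.enc h1 h2 h3)⟩
  | _ => ⟨fun A B C => pneg (pinv (psub pone (fYA.t A B C))), fun a b c => -(1 - (c + a + b))⁻¹,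
      fun h1 h2 h3 => enc_neg (enc_inv (enc_sub (enc_one _) (fYA.enc h1 h2 h3)))⟩

/-- the inverse of the phase variable of the third side, family `B`; `q` is its quarter -/
noncomputable def fitB : ℕ → Fn3
  | 1 => ⟨fun A B C => pneg (pinv (fYB.t A B C)), fun a b c => -(c + a - b)⁻¹,
      fun h1 h2 h3 => enc_neg (enc_inv (fYB.enc h1 h2 h3))⟩
  | _ => ⟨fun A B C => pinv (psub pone (fYB.t A B C)), fun a b c => (1 - (c + a - b))⁻¹,
      fun h1 h2 h3 => enc_inv (enc_sub (enc_one _) (fYB.enc h1 h2 h3))⟩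

/-- a constant -/
noncomputable def fk (p q : ℕ) : Fn3 := ⟨fun _ _ _ => prat p q, fun _ _ _ => (p : ℝ) / q,
  fun _ _ _ => enc_rat _ p q⟩

/-- the constant of the pole -/
noncomputable def fk52 (p q : ℕ) : Fn3 where
  t _ _ C := pmul (pnorm (pscale p q (psub pone C))) (pinv C)
  v _ _ c := (p : ℝ) / q * (1 - c) * c⁻¹
  enc _ _ h3 := encc (enc_mul (enc_norm (enc_scale p q (enc_sub (enc_one _) h3))) (enc_inv h3))
    (by ring)

/-- The steep edge: its abscissa, the slopes of the abscissa, the kernel and the level, the second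
kernel divided by the deviation of the height from one. -/
structure MolS where
  (xs ws rs xk k2 : Fn3)

/-- above height one, on the unit circle -/
noncomputable def stP (kc mL mR kp : Fn2) : MolS := ⟨fW, fW1, frp kc, fxp mL mR, fkp kp⟩

/-- below height one, on the unit circle -/
noncomputable def stM (kc mR kb : Fn2) : MolS := ⟨fW, fW1, frm kc, fxm mR, fkm kb⟩

/-- The functions of a table for one chart. -/
structure MolT where
  (kc : Fn2) (dq : Fn3) (st : MolS) (q : ℕ) (sK sX sD : Fn3) (k1p k1q k2p k2q : ℕ)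

/-- the functions of the chart, family `A`; `s`: above height one -/
noncomputable def MolT.a (T : MolT) (s : Bool) : MolF where
  dy := fdy T.kc
  d1 := fd1A T.dq s
  ws := T.st.ws
  rs := T.st.rs
  xk := T.st.xk
  k2 := T.st.k2
  p1 := fZ
  q1 := fZ
  l1 := fZ
  m1 := fZ
  sK := f3A T.st.xs T.sK
  sX := f3A T.st.xs T.sX
  sD := f3A T.st.xs T.sD
  it := fitA T.q
  k1 := fk T.k1p T.k1q
  k52 := fk52 T.k2p T.k2q

/-- the functions of the chart, family `B` -/
noncomputable def MolT.b (T : MolT) (s : Bool) : MolF where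
  dy := fdy T.kc
  d1 := fd1B T.dq s
  ws := T.st.ws
  rs := T.st.rs
  xk := T.st.xk
  k2 := T.st.k2
  p1 := fZ
  q1 := fZ
  l1 := fZ
  m1 := fZ
  sK := f3B T.st.xs T.sK
  sX := f3B T.st.xs T.sX
  sD := f3B T.st.xs T.sD
  it := fitB T.q
  k1 := fk T.k1p T.k1q
  k52 := fk52 T.k2p T.k2q

end Pool.Agent.Strip051.PB.Mol
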