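import Pool.Agent.Strip051.PB.MolB
import Pool.Agent.Strip051.PB.Bridge

/-! # The tight charts: kernel and level values from the functions of a table (generated) -/

set_option linter.unusedVariables false

namespace Pool.Agent.Strip051.PB.Mol

open Pool.Agent.StripNear Pool.Agent.StripSquare Pool.Agent.Strip051.Sweep
open Pool.Agent.Strip051.LC Pool.Agent.Strip051.LC.MolN
open Pool.Agent.Strip051.LC.Line (tau)

/-- `dq` is the difference quotient of the correction between the phases `lo` and `hi` -/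
def DqOk (kc : Fn2) (dq : Fn3) (lo hi x : ℝ) : Prop :=
  ∀ p p', lo ≤ p → p ≤ p' → p' ≤ hi → kc.v p' x - kc.v p x = (p' - p) * dq.v p p' x

theorem crv_zero {n : ℕ} (P : Pos n) (q : ℕ) (y : ℝ) : crv P 0 q y = c1n y := by
  unfold crv gamn
  rw [P.zero, if_pos zero_le_one]
  ring

theorem psd_pos {y z : ℝ} (h : 0 ≤ y + z) : 0 < psd y z := by
  unfold psd
  have := c1n_nn y
  have := c1n_nn z
  positivity

theorem psn_le {y z : ℝ} (h0 : 0 ≤ y) (h : y ≤ z) (h1 : z ^ 2 < 4 / 3) : psn y ≤ psn z := by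
  have e := psd_eq (y := y) (z := z) (by nlinarith) h1
  have := mul_nonneg (sub_nonneg.2 h) (psd_pos (y := y) (z := z) (by linarith)).le
  linarith

theorem dqAp {kc : Fn2} {dq : Fn3} {lo hi u b x : ℝ} (H : DqOk kc dq lo hi x) (hb : 0 ≤ b)
    (y0 : 0 ≤ x + u) (y1 : x + u < 1) (p0 : 0 ≤ x + u + b) (p1 : x + u + b < 1)
    (h1 : lo ≤ psn (x + u)) (h2 : psn (x + u) ≤ hi) (h3 : lo ≤ psn (x + u + b))
    (h4 : psn (x + u + b) ≤ hi) :
    kc.v (psn (x + u + b)) x = kc.v (psn (x + u)) x + b * (fd1A dq true).v u b x := by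
  have e := psd_eq (y := x + u) (z := x + u + b) (by nlinarith) (by nlinarith)
  have k : psn (x + u) ≤ psn (x + u + b) := psn_le y0 (by linarith) (by nlinarith)
  have g := H _ _ h1 k h4
  show _ = _ + b * (cond true (dq.v (psn (x + u)) (psn (x + u + b)) x) (dq.v (psn (x + u + b)) (psn (x + u)) x) * psd (x + u) (x + u + b))
  simp only [cond_true]
  linear_combination g + dq.v (psn (x + u)) (psn (x + u + b)) x * e

theorem dqAm {kc : Fn2} {dq : Fn3} {lo hi u b x : ℝ} (H : DqOk kc dq lo hi x) (hb : b < 0)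
    (y0 : 0 ≤ x + u) (y1 : x + u < 1) (p0 : 0 ≤ x + u + b) (p1 : x + u + b < 1)
    (h1 : lo ≤ psn (x + u)) (h2 : psn (x + u) ≤ hi) (h3 : lo ≤ psn (x + u + b))
    (h4 : psn (x + u + b) ≤ hi) :
    kc.v (psn (x + u + b)) x = kc.v (psn (x + u)) x + b * (fd1A dq false).v u b x := by
  have e := psd_eq (y := x + u) (z := x + u + b) (by nlinarith) (by nlinarith)
  have k : psn (x + u + b) ≤ psn (x + u) := psn_le p0 (by linarith) (by nlinarith)
  have g := H _ _ h3 k h2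
  show _ = _ + b * (cond false (dq.v (psn (x + u)) (psn (x + u + b)) x) (dq.v (psn (x + u + b)) (psn (x + u)) x) * psd (x + u) (x + u + b))
  simp only [cond_false]
  linear_combination -g + dq.v (psn (x + u + b)) (psn (x + u)) x * e

theorem dqBp {kc : Fn2} {dq : Fn3} {lo hi u b x : ℝ} (H : DqOk kc dq lo hi x) (hb : 0 ≤ b)
    (y0 : 0 ≤ x + u) (y1 : x + u < 1) (p0 : 0 ≤ x + u - b) (p1 : x + u - b < 1)
    (h1 : lo ≤ psn (x + u)) (h2 : psn (x + u) ≤ hi) (h3 : lo ≤ psn (x + u - b))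
    (h4 : psn (x + u - b) ≤ hi) :
    kc.v (psn (x + u - b)) x = kc.v (psn (x + u)) x + b * (fd1B dq true).v u b x := by
  have e := psd_eq (y := x + u) (z := x + u - b) (by nlinarith) (by nlinarith)
  have k : psn (x + u - b) ≤ psn (x + u) := psn_le p0 (by linarith) (by nlinarith)
  have g := H _ _ h3 k h2
  show _ = _ + b * -(cond true (dq.v (psn (x + u - b)) (psn (x + u)) x) (dq.v (psn (x + u)) (psn (x + u - b)) x) * psd (x + u) (x + u - b))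
  simp only [cond_true]
  linear_combination -g + dq.v (psn (x + u - b)) (psn (x + u)) x * e

theorem dqBm {kc : Fn2} {dq : Fn3} {lo hi u b x : ℝ} (H : DqOk kc dq lo hi x) (hb : b < 0)
    (y0 : 0 ≤ x + u) (y1 : x + u < 1) (p0 : 0 ≤ x + u - b) (p1 : x + u - b < 1)
    (h1 : lo ≤ psn (x + u)) (h2 : psn (x + u) ≤ hi) (h3 : lo ≤ psn (x + u - b))
    (h4 : psn (x + u - b) ≤ hi) :
    kc.v (psn (x + u - b)) x = kc.v (psn (x + u)) x + b * (fd1B dq false).v u b x := by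
  have e := psd_eq (y := x + u) (z := x + u - b) (by nlinarith) (by nlinarith)
  have k : psn (x + u) ≤ psn (x + u - b) := psn_le y0 (by linarith) (by nlinarith)
  have g := H _ _ h1 k h4
  show _ = _ + b * -(cond false (dq.v (psn (x + u - b)) (psn (x + u)) x) (dq.v (psn (x + u)) (psn (x + u - b)) x) * psd (x + u) (x + u - b))
  simp only [cond_false]
  linear_combination g + dq.v (psn (x + u)) (psn (x + u - b)) x * e

theorem fW_v (u b x : ℝ) : fW.v u b x = c1n (1 + b) := rfl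

theorem stP_x {kc mL mR kp : Fn2} {u b x : ℝ} (b0 : -(1 / 8) ≤ b) (b1 : b ≤ 1 / 8) :
    (stP kc mL mR kp).xs.v u b x = 1 / 2 + b * (stP kc mL mR kp).ws.v u b x :=
  w1n_eq b0 b1

theorem stM_x {kc mR kb : Fn2} {u b x : ℝ} (b0 : -(1 / 8) ≤ b) (b1 : b ≤ 1 / 8) :
    (stM kc mR kb).xs.v u b x = 1 / 2 + b * (stM kc mR kb).ws.v u b x :=
  w1n_eq b0 b1

theorem stP_k {kc mL mR kp : Fn2} {u b x : ℝ} (b0 : -(1 / 8) ≤ b) (b1 : b ≤ 1 / 8) :
    c1n (1 + b) + b * kc.v (-c1n (1 + b)) x = 1 / 2 + b * (stP kc mL mR kp).rs.v u b x := by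
  show _ = 1 / 2 + b * (w1n b + kc.v (-c1n (1 + b)) x)
  rw [w1n_eq b0 b1]
  ring

theorem stM_k {kc mR kb : Fn2} {u b x : ℝ} (b0 : -(1 / 8) ≤ b) (b1 : b ≤ 1 / 8) :
    kA1 (1 + b) + b * kc.v (psn (1 + b)) x = 1 / 2 + b * (stM kc mR kb).rs.v u b x := by
  show _ = 1 / 2 + b * (rmn b + kc.v (psn (1 + b)) x)
  rw [rmn_eq b0 b1]
  ring

theorem absTA {T : MolT} {s : Bool} {u b x : ℝ}
    (hx : T.st.xs.v u b x = 1 / 2 + b * T.st.ws.v u b x) :
    AbsA ((T.a s).at_ u b x) u b x (c1n (x + u)) (c1n (x + u) - T.st.xs.v u b x) := by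
  refine ⟨?_, ?_⟩
  · show _ = _ + b * (0 : ℝ)
    ring
  · show _ = c1n (x + u) - (1 / 2 + b * T.st.ws.v u b x)
    rw [hx]

theorem kerTA {T : MolT} {s : Bool} {u b x τ1 τ3 : ℝ} {r : ℝ × ℝ × ℝ}
    (hd : T.kc.v (psn (x + u + b)) x = T.kc.v (psn (x + u)) x + b * (fd1A T.dq s).v u b x)
    (h1 : r.1 = (c1n (x + u) * cG (x + u) + T.kc.v (psn (x + u)) x) * τ1)
    (h2 : r.2.1 = -(1 / 2 + b * T.st.rs.v u b x))
    (h3 : r.2.2 = ((c1n (x + u + b) - 1 / 2) * cG (x + u + b) + T.kc.v (psn (x + u + b)) x) * τ3 + T.sK.v (c1n (x + u) - T.st.xs.v u b x) (1 + (x + u + b)) x * (c1n (x + u) - T.st.xs.v u b x - (c1n (x + u + b) - 1 / 2))) :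
    KerA ((T.a s).at_ u b x) u b x τ1 τ3 (c1n (x + u) - T.st.xs.v u b x) r := by
  refine ⟨?_, ?_, ?_⟩
  · rw [h1]
    show _ = (c1n (x + u) * cG (x + u) + T.kc.v (psn (x + u)) x + b * (0 : ℝ)) * τ1
    ring
  · rw [h2]
    rfl
  · rw [h3, hd]
    rfl

theorem levTA {T : MolT} {s : Bool} {u b x : ℝ} {l : ℝ × ℝ × ℝ}
    (hd : T.kc.v (psn (x + u + b)) x = T.kc.v (psn (x + u)) x + b * (fd1A T.dq s).v u b x)
    (h1 : l.1 = cQ x (x + u) (T.kc.v (psn (x + u)) x))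
    (h2 : l.2.1 = -(b * T.st.xk.v u b x))
    (h3 : l.2.2 = cQ x (x + u + b) (T.kc.v (psn (x + u + b)) x) + T.sX.v (c1n (x + u) - T.st.xs.v u b x) (1 + (x + u + b)) x * (c1n (x + u) - T.st.xs.v u b x - (c1n (x + u + b) - 1 / 2))) :
    LevA ((T.a s).at_ u b x) u b x (c1n (x + u) - T.st.xs.v u b x) l := by
  refine ⟨?_, ?_, ?_⟩
  · rw [h1]
    show _ = cQ x (x + u) (T.kc.v (psn (x + u)) x) + b * (0 : ℝ)
    ring
  · rw [h2]
    rfl
  · rw [h3, hd]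
    rfl

theorem derTA {T : MolT} {s : Bool} {u b x τ1 τ3 : ℝ} {r : ℝ × ℝ × ℝ}
    (hd : T.kc.v (psn (x + u + b)) x = T.kc.v (psn (x + u)) x + b * (fd1A T.dq s).v u b x)
    (h1 : r.1 = (cP (x + u) - (cR (x + u) + 2 * c1n (x + u)) * T.kc.v (psn (x + u)) x) * τ1)
    (h2 : r.2.1 = -(b * T.st.k2.v u b x))
    (h3 : r.2.2 = (cP (x + u + b) - 1 / 2 * cD (x + u + b) - (cR (x + u + b) + 2 * c1n (x + u + b) - 1) * T.kc.v (psn (x + u + b)) x) * τ3 + T.sD.v (c1n (x + u) - T.st.xs.v u b x) (1 + (x + u + b)) x * (c1n (x + u) - T.st.xs.v u b x - (c1n (x + u + b) - 1 / 2))) :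
    DerA ((T.a s).at_ u b x) u b x τ1 τ3 (c1n (x + u) - T.st.xs.v u b x) r := by
  refine ⟨?_, ?_, ?_⟩
  · rw [h1]
    show _ = (cP (x + u) - (cR (x + u) + 2 * c1n (x + u)) * T.kc.v (psn (x + u)) x + b * (0 : ℝ)) * τ1
    ring
  · rw [h2]
    rfl
  · rw [h3, hd]
    rfl

theorem absTB {T : MolT} {s : Bool} {u b x : ℝ}
    (hx : T.st.xs.v u b x = 1 / 2 + b * T.st.ws.v u b x) :
    AbsB ((T.b s).at_ u b x) u b x (c1n (x + u)) (-T.st.xs.v u b x) := by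
  refine ⟨?_, ?_⟩
  · show _ = _ + b * (0 : ℝ)
    ring
  · show _ = -(1 / 2 + b * T.st.ws.v u b x)
    rw [hx]

theorem kerTB {T : MolT} {s : Bool} {u b x τ1 τ3 : ℝ} {r : ℝ × ℝ × ℝ}
    (hd : T.kc.v (psn (x + u - b)) x = T.kc.v (psn (x + u)) x + b * (fd1B T.dq s).v u b x)
    (h1 : r.1 = (c1n (x + u) * cG (x + u) + T.kc.v (psn (x + u)) x) * τ1)
    (h2 : r.2.2 = -(1 / 2 + b * T.st.rs.v u b x))
    (h3 : r.2.1 = ((c1n (x + u - b) + 1 / 2) * cG (x + u - b) + T.kc.v (psn (x + u - b)) x) * τ3 - T.sK.v (c1n (x + u) + T.st.xs.v u b x) (1 - (x + u - b)) x * (c1n (x + u) + T.st.xs.v u b x - (c1n (x + u - b) + 1 / 2))) :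
    KerB ((T.b s).at_ u b x) u b x τ1 τ3 (c1n (x + u) + T.st.xs.v u b x) r := by
  refine ⟨?_, ?_, ?_⟩
  · rw [h1]
    show _ = (c1n (x + u) * cG (x + u) + T.kc.v (psn (x + u)) x + b * (0 : ℝ)) * τ1
    ring
  · rw [h3, hd]
    rfl
  · rw [h2]
    rfl

theorem levTB {T : MolT} {s : Bool} {u b x : ℝ} {l : ℝ × ℝ × ℝ}
    (hd : T.kc.v (psn (x + u - b)) x = T.kc.v (psn (x + u)) x + b * (fd1B T.dq s).v u b x)
    (h1 : l.1 = cQ x (x + u) (T.kc.v (psn (x + u)) x))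
    (h2 : l.2.2 = -(b * T.st.xk.v u b x))
    (h3 : l.2.1 = -(cQ x (x + u - b) (T.kc.v (psn (x + u - b)) x) + T.sX.v (c1n (x + u) + T.st.xs.v u b x) (1 - (x + u - b)) x * (c1n (x + u) + T.st.xs.v u b x - (c1n (x + u - b) + 1 / 2)))) :
    LevB ((T.b s).at_ u b x) u b x (c1n (x + u) + T.st.xs.v u b x) l := by
  refine ⟨?_, ?_, ?_⟩
  · rw [h1]
    show _ = cQ x (x + u) (T.kc.v (psn (x + u)) x) + b * (0 : ℝ)
    ring
  · rw [h3, hd]
    rfl
  · rw [h2]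
    rfl

theorem derTB {T : MolT} {s : Bool} {u b x τ1 τ3 : ℝ} {r : ℝ × ℝ × ℝ}
    (hd : T.kc.v (psn (x + u - b)) x = T.kc.v (psn (x + u)) x + b * (fd1B T.dq s).v u b x)
    (h1 : r.1 = (cP (x + u) - (cR (x + u) + 2 * c1n (x + u)) * T.kc.v (psn (x + u)) x) * τ1)
    (h2 : r.2.2 = -(b * T.st.k2.v u b x))
    (h3 : r.2.1 = (cP (x + u - b) + 1 / 2 * cD (x + u - b) - (cR (x + u - b) + 2 * c1n (x + u - b) + 1) * T.kc.v (psn (x + u - b)) x) * τ3 - T.sD.v (c1n (x + u) + T.st.xs.v u b x) (1 - (x + u - b)) x * (c1n (x + u) + T.st.xs.v u b x - (c1n (x + u - b) + 1 / 2))) :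
    DerB ((T.b s).at_ u b x) u b x τ1 τ3 (c1n (x + u) + T.st.xs.v u b x) r := by
  refine ⟨?_, ?_, ?_⟩
  · rw [h1]
    show _ = (cP (x + u) - (cR (x + u) + 2 * c1n (x + u)) * T.kc.v (psn (x + u)) x + b * (0 : ℝ)) * τ1
    ring
  · rw [h3, hd]
    rfl
  · rw [h2]
    rfl

end Pool.Agent.Strip051.PB.Mol
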