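import Pool.Agent.Strip051.PB.Fn
import Pool.Agent.Strip051.LC.Exact.MolN5

/-! # The charts of the tight triangles in the packed arithmetic (generated) -/

set_option linter.unusedVariables false

namespace Pool.Agent.Strip051.PB.Mol

open Pool.Agent.Strip051.PB Pool.Agent.Strip051.LC.MolN

/-- The functions of the tables which enter the charts. -/
structure MolF where
  (dy d1 ws rs xk k2 p1 q1 l1 m1 sK sX sD it k1 k52 : Fn3)

/-- The values at a point. -/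
noncomputable def MolF.at_ (M : MolF) (u b x : ℝ) : MolP where
  dy := M.dy.v u b x
  d1 := M.d1.v u b x
  ws := M.ws.v u b x
  rs := M.rs.v u b x
  xk := M.xk.v u b x
  k2 := M.k2.v u b x
  p1 := M.p1.v u b x
  q1 := M.q1.v u b x
  l1 := M.l1.v u b x
  m1 := M.m1.v u b x
  sK := M.sK.v u b x
  sX := M.sX.v u b x
  sD := M.sD.v u b x
  it := M.it.v u b x
  k1 := M.k1.v u b x
  k52 := M.k52.v u b x

theorem encc {E : Pt} {A : ℕ} {a b : ℝ} (h : Enc E A a) (e : a = b) : Enc E A b := e ▸ h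

theorem en1 (E : Pt) : Enc E (pdc 1073741824 0) (1 : ℝ) := encc (enc_dc E 1073741824 0) (by unfold S; norm_num)

theorem en2 (E : Pt) : Enc E (pdc 2147483648 0) (2 : ℝ) := encc (enc_dc E 2147483648 0) (by unfold S; norm_num)

theorem en3 (E : Pt) : Enc E (pdc 3221225472 0) (3 : ℝ) := encc (enc_dc E 3221225472 0) (by unfold S; norm_num)

theorem en9 (E : Pt) : Enc E (pdc 9663676416 0) (9 : ℝ) := encc (enc_dc E 9663676416 0) (by unfold S; norm_num)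

theorem en18 (E : Pt) : Enc E (pdc 19327352832 0) (18 : ℝ) := encc (enc_dc E 19327352832 0) (by unfold S; norm_num)

theorem en27 (E : Pt) : Enc E (pdc 28991029248 0) (27 : ℝ) := encc (enc_dc E 28991029248 0) (by unfold S; norm_num)

theorem er1_2 (E : Pt) : Enc E (pdc 536870912 0) (1 / 2 : ℝ) := encc (enc_dc E 536870912 0) (by unfold S; norm_num)

theorem er3_2 (E : Pt) : Enc E (pdc 1610612736 0) (3 / 2 : ℝ) := encc (enc_dc E 1610612736 0) (by unfold S; norm_num)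

theorem er3_4 (E : Pt) : Enc E (pdc 805306368 0) (3 / 4 : ℝ) := encc (enc_dc E 805306368 0) (by unfold S; norm_num)

theorem es1_2 {E : Pt} {X : ℕ} {v : ℝ} (h : Enc E X v) : Enc E (phf X) (1 / 2 * v) := encc (enc_half h) (by ring)

theorem es3_2 {E : Pt} {X : ℕ} {v : ℝ} (h : Enc E X v) : Enc E (pscale 3 2 X) (3 / 2 * v) := encc (enc_scale 3 2 h) (by norm_num)

theorem es3_4 {E : Pt} {X : ℕ} {v : ℝ} (h : Enc E X v) : Enc E (pscale 3 4 X) (3 / 4 * v) := encc (enc_scale 3 4 h) (by norm_num)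

theorem es9_8 {E : Pt} {X : ℕ} {v : ℝ} (h : Enc E X v) : Enc E (pscale 9 8 X) (9 / 8 * v) := encc (enc_scale 9 8 h) (by norm_num)

theorem es9_16 {E : Pt} {X : ℕ} {v : ℝ} (h : Enc E X v) : Enc E (pscale 9 16 X) (9 / 16 * v) := encc (enc_scale 9 16 h) (by norm_num)

theorem ek2 {E : Pt} {X : ℕ} {v : ℝ} (h : Enc E X v) : Enc E (pnat 2 X) (2 * v) := encc (enc_nat 2 h) (by norm_num)

theorem ek3 {E : Pt} {X : ℕ} {v : ℝ} (h : Enc E X v) : Enc E (pnat 3 X) (3 * v) := encc (enc_nat 3 h) (by norm_num)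

theorem ek6 {E : Pt} {X : ℕ} {v : ℝ} (h : Enc E X v) : Enc E (pnat 6 X) (6 * v) := encc (enc_nat 6 h) (by norm_num)

theorem ek8 {E : Pt} {X : ℕ} {v : ℝ} (h : Enc E X v) : Enc E (pnat 8 X) (8 * v) := encc (enc_nat 8 h) (by norm_num)

theorem ek9 {E : Pt} {X : ℕ} {v : ℝ} (h : Enc E X v) : Enc E (pnat 9 X) (9 * v) := encc (enc_nat 9 h) (by norm_num)

theorem ek16 {E : Pt} {X : ℕ} {v : ℝ} (h : Enc E X v) : Enc E (pnat 16 X) (16 * v) := encc (enc_nat 16 h) (by norm_num)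

theorem ek18 {E : Pt} {X : ℕ} {v : ℝ} (h : Enc E X v) : Enc E (pnat 18 X) (18 * v) := encc (enc_nat 18 h) (by norm_num)

theorem ek27 {E : Pt} {X : ℕ} {v : ℝ} (h : Enc E X v) : Enc E (pnat 27 X) (27 * v) := encc (enc_nat 27 h) (by norm_num)

theorem ek32 {E : Pt} {X : ℕ} {v : ℝ} (h : Enc E X v) : Enc E (pnat 32 X) (32 * v) := encc (enc_nat 32 h) (by norm_num)

theorem ek64 {E : Pt} {X : ℕ} {v : ℝ} (h : Enc E X v) : Enc E (pnat 64 X) (64 * v) := encc (enc_nat 64 h) (by norm_num)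

theorem e0Ap_n0 (T : MolP) {u b x : ℝ} :
    -((u) * (n188 T u b x) + (b) * (n196 T u b x)) =
      -(n297 T u b x) := by
  have e := imW0Ap T (u := u) (b := b) (x := x)
  linear_combination -e

theorem e0Ap_n1 (T : MolP) {u b x : ℝ} :
    (n205 T u b x) * ((n168 T u b x) * (n188 T u b x + n293 T u b x) + (n160 T u b x) * (n189 T u b x)) - (n15 T u b x) * ((n182 T u b x) * ((u) * (n188 T u b x) + (b) * (n196 T u b x)) + (n197 T u b x) * (n188 T u b x + n293 T u b x) + (n177 T u b x) * ((u) * (n186 T u b x) + n196 T u b x) + (1 / 2 * (n169 T u b x)) * (n189 T u b x)) =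
      n221 T u b x := by
  have e := imN0Ap T (u := u) (b := b) (x := x)
  linear_combination e

theorem e0Ap_n2 (T : MolP) {u b x : ℝ} :
    n300 T u b x + (b) * ((n205 T u b x) * ((n168 T u b x) * (n188 T u b x + n293 T u b x) + (n160 T u b x) * (n189 T u b x)) - (n15 T u b x) * ((n182 T u b x) * ((u) * (n188 T u b x) + (b) * (n196 T u b x)) + (n197 T u b x) * (n188 T u b x + n293 T u b x) + (n177 T u b x) * ((u) * (n186 T u b x) + n196 T u b x) + (1 / 2 * (n169 T u b x)) * (n189 T u b x))) =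
      n302 T u b x := by
  have e := imN0Ap T (u := u) (b := b) (x := x)
  simp only [n302, n300, n298] at e ⊢
  linear_combination b * e

theorem e0Ap_m0 (T : MolP) {u b x : ℝ} :
    (u) * (n188 T u b x) + (b) * (n196 T u b x) =
      n297 T u b x := by
  have e := imW0Ap T (u := u) (b := b) (x := x)
  linear_combination e

theorem e0Ap_m1 (T : MolP) {u b x : ℝ} :
    (x) * ((n168 T u b x) * ((n169 T u b x) * (n188 T u b x) - (b) * (n196 T u b x)) + (n160 T u b x) * (n197 T u b x)) - (n15 T u b x) * ((n196 T u b x + (n3 T u b x) * (n186 T u b x)) * ((n169 T u b x) * (n188 T u b x) - (b) * (n196 T u b x)) - (n195 T u b x) * ((u) * (n188 T u b x) + (b) * (n196 T u b x)) - (n222 T u b x) * ((u) * (n186 T u b x) + n196 T u b x) + (1 / 2 * (n3 T u b x)) * (n197 T u b x)) =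
      n240 T u b x := by
  have e := imM0Ap T (u := u) (b := b) (x := x)
  linear_combination e

theorem e0Ap_m2 (T : MolP) {u b x : ℝ} :
    n304 T u b x + (b) * ((x) * ((n168 T u b x) * ((n169 T u b x) * (n188 T u b x) - (b) * (n196 T u b x)) + (n160 T u b x) * (n197 T u b x)) - (n15 T u b x) * ((n196 T u b x + (n3 T u b x) * (n186 T u b x)) * ((n169 T u b x) * (n188 T u b x) - (b) * (n196 T u b x)) - (n195 T u b x) * ((u) * (n188 T u b x) + (b) * (n196 T u b x)) - (n222 T u b x) * ((u) * (n186 T u b x) + n196 T u b x) + (1 / 2 * (n3 T u b x)) * (n197 T u b x))) =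
      n306 T u b x := by
  have e := imM0Ap T (u := u) (b := b) (x := x)
  simp only [n306, n304, n298, n169, n3] at e ⊢
  linear_combination b * e

theorem e0Am_n0 (T : MolP) {u b x : ℝ} :
    -((u) * (n313 T u b x) - (b) * (n196 T u b x) + (b) * (n313 T u b x - n293 T u b x)) =
      -(n365 T u b x) := by
  have e := imW0Am T (u := u) (b := b) (x := x)
  linear_combination -e

theorem e0Am_n1 (T : MolP) {u b x : ℝ} :
    -((n205 T u b x) * ((n307 T u b x) * (n313 T u b x - n293 T u b x) + (n160 T u b x) * (n314 T u b x)) - (n15 T u b x) * ((n182 T u b x) * ((u) * (n313 T u b x) - (b) * (n196 T u b x)) + ((1 + n30 T u b x) * (n174 T u b x) + n319 T u b x - n313 T u b x) * (n313 T u b x - n293 T u b x) + (n177 T u b x) * ((u) * (n311 T u b x) - n196 T u b x) + (1 / 2 * (n169 T u b x)) * (n314 T u b x))) =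
      -(n345 T u b x) := by
  have e := imN0Am T (u := u) (b := b) (x := x)
  linear_combination -e

theorem e0Am_n2 (T : MolP) {u b x : ℝ} :
    n300 T u b x + (b) * ((n205 T u b x) * ((n307 T u b x) * (n313 T u b x - n293 T u b x) + (n160 T u b x) * (n314 T u b x)) - (n15 T u b x) * ((n182 T u b x) * ((u) * (n313 T u b x) - (b) * (n196 T u b x)) + ((1 + n30 T u b x) * (n174 T u b x) + n319 T u b x - n313 T u b x) * (n313 T u b x - n293 T u b x) + (n177 T u b x) * ((u) * (n311 T u b x) - n196 T u b x) + (1 / 2 * (n169 T u b x)) * (n314 T u b x))) =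
      n369 T u b x := by
  have e := imN0Am T (u := u) (b := b) (x := x)
  simp only [n369, n300, n298] at e ⊢
  linear_combination b * e

theorem e0Am_m0 (T : MolP) {u b x : ℝ} :
    (u) * (n313 T u b x) - (b) * (n196 T u b x) + (b) * (n313 T u b x - n293 T u b x) =
      n365 T u b x := by
  have e := imW0Am T (u := u) (b := b) (x := x)
  linear_combination e

theorem e0Am_m1 (T : MolP) {u b x : ℝ} :
    -((x) * ((n307 T u b x) * ((n169 T u b x) * (n313 T u b x) - (b) * (n325 T u b x)) + (n160 T u b x) * (n326 T u b x)) - (n15 T u b x) * ((n325 T u b x + (n3 T u b x) * (n311 T u b x)) * ((n169 T u b x) * (n313 T u b x) - (b) * (n325 T u b x)) - (n323 T u b x) * ((u) * (n313 T u b x) + (b) * (n325 T u b x)) - (n222 T u b x) * ((u) * (n311 T u b x) + n325 T u b x) + (1 / 2 * (n3 T u b x)) * (n326 T u b x))) =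
      -(n361 T u b x) := by
  have e := imM0Am T (u := u) (b := b) (x := x)
  linear_combination -e

theorem e0Am_m2 (T : MolP) {u b x : ℝ} :
    n304 T u b x + (b) * ((x) * ((n307 T u b x) * ((n169 T u b x) * (n313 T u b x) - (b) * (n325 T u b x)) + (n160 T u b x) * (n326 T u b x)) - (n15 T u b x) * ((n325 T u b x + (n3 T u b x) * (n311 T u b x)) * ((n169 T u b x) * (n313 T u b x) - (b) * (n325 T u b x)) - (n323 T u b x) * ((u) * (n313 T u b x) + (b) * (n325 T u b x)) - (n222 T u b x) * ((u) * (n311 T u b x) + n325 T u b x) + (1 / 2 * (n3 T u b x)) * (n326 T u b x))) =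
      n371 T u b x := by
  have e := imM0Am T (u := u) (b := b) (x := x)
  simp only [n371, n304, n298, n169, n3] at e ⊢
  linear_combination b * e

theorem e0Bp_n0 (T : MolP) {u b x : ℝ} :
    -((u) * (n474 T u b x) + (b) * ((n3 T u b x) * (n462 T u b x)) - (b) * (n474 T u b x + n527 T u b x)) =
      -(n531 T u b x) := by
  have e := imW0Bp T (u := u) (b := b) (x := x)
  linear_combination -e

theorem e0Bp_n1 (T : MolP) {u b x : ℝ} :
    (n205 T u b x) * ((n458 T u b x) * (n474 T u b x + n527 T u b x) + (n160 T u b x) * (n475 T u b x)) - (n15 T u b x) * ((n469 T u b x) * ((u) * (n474 T u b x) + (b) * ((n3 T u b x) * (n462 T u b x))) + (n480 T u b x + n474 T u b x - (1 + n372 T u b x) * (n462 T u b x)) * (n474 T u b x + n527 T u b x) + (n465 T u b x) * ((u) * (n472 T u b x) + (n3 T u b x) * (n462 T u b x)) + (1 / 2 * (n169 T u b x)) * (n475 T u b x)) =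
      n508 T u b x := by
  have e := imN0Bp T (u := u) (b := b) (x := x)
  linear_combination e

theorem e0Bp_n2 (T : MolP) {u b x : ℝ} :
    n300 T u b x + (b) * ((n205 T u b x) * ((n458 T u b x) * (n474 T u b x + n527 T u b x) + (n160 T u b x) * (n475 T u b x)) - (n15 T u b x) * ((n469 T u b x) * ((u) * (n474 T u b x) + (b) * ((n3 T u b x) * (n462 T u b x))) + (n480 T u b x + n474 T u b x - (1 + n372 T u b x) * (n462 T u b x)) * (n474 T u b x + n527 T u b x) + (n465 T u b x) * ((u) * (n472 T u b x) + (n3 T u b x) * (n462 T u b x)) + (1 / 2 * (n169 T u b x)) * (n475 T u b x))) =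
      n533 T u b x := by
  have e := imN0Bp T (u := u) (b := b) (x := x)
  simp only [n533, n300, n298] at e ⊢
  linear_combination b * e

theorem e0Bp_m0 (T : MolP) {u b x : ℝ} :
    (u) * (n474 T u b x) + (b) * ((n3 T u b x) * (n462 T u b x)) - (b) * (n474 T u b x + n527 T u b x) =
      n531 T u b x := by
  have e := imW0Bp T (u := u) (b := b) (x := x)
  linear_combination e

theorem e0Bp_m1 (T : MolP) {u b x : ℝ} :
    (x) * ((n458 T u b x) * ((n169 T u b x) * (n474 T u b x) + (b) * (n486 T u b x)) + (n160 T u b x) * (n487 T u b x)) - (n15 T u b x) * (((n3 T u b x) * (n472 T u b x) - n486 T u b x) * ((n169 T u b x) * (n474 T u b x) + (b) * (n486 T u b x)) - (n484 T u b x) * ((u) * (n474 T u b x) - (b) * (n486 T u b x)) - (n509 T u b x) * ((u) * (n472 T u b x) - n486 T u b x) + (1 / 2 * (n3 T u b x)) * (n487 T u b x)) =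
      n526 T u b x := by
  have e := imM0Bp T (u := u) (b := b) (x := x)
  linear_combination e

theorem e0Bp_m2 (T : MolP) {u b x : ℝ} :
    n304 T u b x + (b) * ((x) * ((n458 T u b x) * ((n169 T u b x) * (n474 T u b x) + (b) * (n486 T u b x)) + (n160 T u b x) * (n487 T u b x)) - (n15 T u b x) * (((n3 T u b x) * (n472 T u b x) - n486 T u b x) * ((n169 T u b x) * (n474 T u b x) + (b) * (n486 T u b x)) - (n484 T u b x) * ((u) * (n474 T u b x) - (b) * (n486 T u b x)) - (n509 T u b x) * ((u) * (n472 T u b x) - n486 T u b x) + (1 / 2 * (n3 T u b x)) * (n487 T u b x))) =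
      n535 T u b x := by
  have e := imM0Bp T (u := u) (b := b) (x := x)
  simp only [n535, n304, n298, n169, n3] at e ⊢
  linear_combination b * e

theorem e0Bm_n0 (T : MolP) {u b x : ℝ} :
    -((u) * (n540 T u b x) - (b) * ((n3 T u b x) * (n462 T u b x))) =
      -(n590 T u b x) := by
  have e := imW0Bm T (u := u) (b := b) (x := x)
  linear_combination -e

theorem e0Bm_n1 (T : MolP) {u b x : ℝ} :
    -((n205 T u b x) * ((n536 T u b x) * (n540 T u b x - n527 T u b x) + (n160 T u b x) * (n541 T u b x)) - (n15 T u b x) * ((n469 T u b x) * ((u) * (n540 T u b x) - (b) * ((n3 T u b x) * (n462 T u b x))) + ((n3 T u b x) * (n462 T u b x) + n544 T u b x) * (n540 T u b x - n527 T u b x) + (n465 T u b x) * ((u) * (n538 T u b x) - (n3 T u b x) * (n462 T u b x)) + (1 / 2 * (n169 T u b x)) * (n541 T u b x))) =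
      -(n570 T u b x) := by
  have e := imN0Bm T (u := u) (b := b) (x := x)
  linear_combination -e

theorem e0Bm_n2 (T : MolP) {u b x : ℝ} :
    n300 T u b x + (b) * ((n205 T u b x) * ((n536 T u b x) * (n540 T u b x - n527 T u b x) + (n160 T u b x) * (n541 T u b x)) - (n15 T u b x) * ((n469 T u b x) * ((u) * (n540 T u b x) - (b) * ((n3 T u b x) * (n462 T u b x))) + ((n3 T u b x) * (n462 T u b x) + n544 T u b x) * (n540 T u b x - n527 T u b x) + (n465 T u b x) * ((u) * (n538 T u b x) - (n3 T u b x) * (n462 T u b x)) + (1 / 2 * (n169 T u b x)) * (n541 T u b x))) =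
      n594 T u b x := by
  have e := imN0Bm T (u := u) (b := b) (x := x)
  simp only [n594, n300, n298] at e ⊢
  linear_combination b * e

theorem e0Bm_m0 (T : MolP) {u b x : ℝ} :
    (u) * (n540 T u b x) - (b) * ((n3 T u b x) * (n462 T u b x)) =
      n590 T u b x := by
  have e := imW0Bm T (u := u) (b := b) (x := x)
  linear_combination e

theorem e0Bm_m1 (T : MolP) {u b x : ℝ} :
    -((x) * ((n536 T u b x) * ((n169 T u b x) * (n540 T u b x) - (b) * (n548 T u b x - n540 T u b x)) + (n160 T u b x) * (n544 T u b x - (n548 T u b x - n540 T u b x))) - (n15 T u b x) * ((n548 T u b x + (n3 T u b x) * (n538 T u b x) - n540 T u b x) * ((n169 T u b x) * (n540 T u b x) - (b) * (n548 T u b x - n540 T u b x)) - (n546 T u b x) * ((u) * (n540 T u b x) + (b) * (n548 T u b x - n540 T u b x)) - (n509 T u b x) * ((u) * (n538 T u b x) + (n548 T u b x - n540 T u b x)) + (1 / 2 * (n3 T u b x)) * (n544 T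 u b x - (n548 T u b x - n540 T u b x)))) =
      -(n586 T u b x) := by
  have e := imM0Bm T (u := u) (b := b) (x := x)
  linear_combination -e

theorem e0Bm_m2 (T : MolP) {u b x : ℝ} :
    n304 T u b x + (b) * ((x) * ((n536 T u b x) * ((n169 T u b x) * (n540 T u b x) - (b) * (n548 T u b x - n540 T u b x)) + (n160 T u b x) * (n544 T u b x - (n548 T u b x - n540 T u b x))) - (n15 T u b x) * ((n548 T u b x + (n3 T u b x) * (n538 T u b x) - n540 T u b x) * ((n169 T u b x) * (n540 T u b x) - (b) * (n548 T u b x - n540 T u b x)) - (n546 T u b x) * ((u) * (n540 T u b x) + (b) * (n548 T u b x - n540 T u b x)) - (n509 T u b x) * ((u) * (n538 T u b x) + (n548 T u b x - n540 T u b x)) + (1 / 2 * (n3 T u b x)) * (n544 T u b x - (n548 T u b x - n540 T u b x)))) =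
      n596 T u b x := by
  have e := imM0Bm T (u := u) (b := b) (x := x)
  simp only [n596, n304, n298, n169, n3] at e ⊢
  linear_combination b * e

theorem e1Ap_n0 (T : MolP) {u b x : ℝ} :
    -((u) * (n766 T u b x) + (b) * (n774 T u b x)) =
      -(n866 T u b x) := by
  have e := imW1Ap T (u := u) (b := b) (x := x)
  linear_combination -e

theorem e1Ap_n1 (T : MolP) {u b x : ℝ} :
    (n205 T u b x) * ((n656 T u b x) * (n766 T u b x + n862 T u b x) + (n654 T u b x) * (n767 T u b x)) - (n15 T u b x) * ((n760 T u b x) * ((u) * (n766 T u b x) + (b) * (n774 T u b x)) + (n775 T u b x) * (n766 T u b x + n862 T u b x) + (n755 T u b x) * ((u) * (n764 T u b x) + n774 T u b x) + (n781 T u b x) * (n767 T u b x)) =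
      n798 T u b x := by
  have e := imN1Ap T (u := u) (b := b) (x := x)
  linear_combination e

theorem e1Ap_n2 (T : MolP) {u b x : ℝ} :
    n868 T u b x + (b) * ((n205 T u b x) * ((n656 T u b x) * (n766 T u b x + n862 T u b x) + (n654 T u b x) * (n767 T u b x)) - (n15 T u b x) * ((n760 T u b x) * ((u) * (n766 T u b x) + (b) * (n774 T u b x)) + (n775 T u b x) * (n766 T u b x + n862 T u b x) + (n755 T u b x) * ((u) * (n764 T u b x) + n774 T u b x) + (n781 T u b x) * (n767 T u b x))) =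
      n870 T u b x := by
  have e := imN1Ap T (u := u) (b := b) (x := x)
  simp only [n870, n868, n298] at e ⊢
  linear_combination b * e

theorem e1Ap_m0 (T : MolP) {u b x : ℝ} :
    (u) * (n766 T u b x) + (b) * (n774 T u b x) =
      n866 T u b x := by
  have e := imW1Ap T (u := u) (b := b) (x := x)
  linear_combination e

theorem e1Ap_m1 (T : MolP) {u b x : ℝ} :
    (x) * ((n656 T u b x) * ((n169 T u b x) * (n766 T u b x) - (b) * (n774 T u b x)) + (n654 T u b x) * (n775 T u b x)) - (n15 T u b x) * ((n774 T u b x + (n3 T u b x) * (n764 T u b x)) * ((n169 T u b x) * (n766 T u b x) - (b) * (n774 T u b x)) - (n773 T u b x) * ((u) * (n766 T u b x) + (b) * (n774 T u b x)) - (n799 T u b x) * ((u) * (n764 T u b x) + n774 T u b x) + (n800 T u b x) * (n775 T u b x)) =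
      n817 T u b x := by
  have e := imM1Ap T (u := u) (b := b) (x := x)
  linear_combination e

theorem e1Ap_m2 (T : MolP) {u b x : ℝ} :
    n872 T u b x + (b) * ((x) * ((n656 T u b x) * ((n169 T u b x) * (n766 T u b x) - (b) * (n774 T u b x)) + (n654 T u b x) * (n775 T u b x)) - (n15 T u b x) * ((n774 T u b x + (n3 T u b x) * (n764 T u b x)) * ((n169 T u b x) * (n766 T u b x) - (b) * (n774 T u b x)) - (n773 T u b x) * ((u) * (n766 T u b x) + (b) * (n774 T u b x)) - (n799 T u b x) * ((u) * (n764 T u b x) + n774 T u b x) + (n800 T u b x) * (n775 T u b x))) =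
      n874 T u b x := by
  have e := imM1Ap T (u := u) (b := b) (x := x)
  simp only [n874, n872, n781, n298, n169, n3] at e ⊢
  linear_combination b * e

theorem e1Am_n0 (T : MolP) {u b x : ℝ} :
    -((u) * (n883 T u b x) - (b) * (n774 T u b x) + (b) * (n883 T u b x - n862 T u b x)) =
      -(n933 T u b x) := by
  have e := imW1Am T (u := u) (b := b) (x := x)
  linear_combination -e

theorem e1Am_n1 (T : MolP) {u b x : ℝ} :
    -((n205 T u b x) * ((n877 T u b x) * (n883 T u b x - n862 T u b x) + (n654 T u b x) * (n884 T u b x)) - (n15 T u b x) * ((n760 T u b x) * ((u) * (n883 T u b x) - (b) * (n774 T u b x)) + ((1 + n30 T u b x) * (n752 T u b x) + n887 T u b x - n883 T u b x) * (n883 T u b x - n862 T u b x) + (n755 T u b x) * ((u) * (n881 T u b x) - n774 T u b x) + (n781 T u b x) * (n884 T u b x))) =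
      -(n913 T u b x) := by
  have e := imN1Am T (u := u) (b := b) (x := x)
  linear_combination -e

theorem e1Am_n2 (T : MolP) {u b x : ℝ} :
    n868 T u b x + (b) * ((n205 T u b x) * ((n877 T u b x) * (n883 T u b x - n862 T u b x) + (n654 T u b x) * (n884 T u b x)) - (n15 T u b x) * ((n760 T u b x) * ((u) * (n883 T u b x) - (b) * (n774 T u b x)) + ((1 + n30 T u b x) * (n752 T u b x) + n887 T u b x - n883 T u b x) * (n883 T u b x - n862 T u b x) + (n755 T u b x) * ((u) * (n881 T u b x) - n774 T u b x) + (n781 T u b x) * (n884 T u b x))) =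
      n937 T u b x := by
  have e := imN1Am T (u := u) (b := b) (x := x)
  simp only [n937, n868, n298] at e ⊢
  linear_combination b * e

theorem e1Am_m0 (T : MolP) {u b x : ℝ} :
    (u) * (n883 T u b x) - (b) * (n774 T u b x) + (b) * (n883 T u b x - n862 T u b x) =
      n933 T u b x := by
  have e := imW1Am T (u := u) (b := b) (x := x)
  linear_combination e

theorem e1Am_m1 (T : MolP) {u b x : ℝ} :
    -((x) * ((n877 T u b x) * ((n169 T u b x) * (n883 T u b x) - (b) * (n893 T u b x)) + (n654 T u b x) * (n894 T u b x)) - (n15 T u b x) * ((n893 T u b x + (n3 T u b x) * (n881 T u b x)) * ((n169 T u b x) * (n883 T u b x) - (b) * (n893 T u b x)) - (n891 T u b x) * ((u) * (n883 T u b x) + (b) * (n893 T u b x)) - (n799 T u b x) * ((u) * (n881 T u b x) + n893 T u b x) + (n800 T u b x) * (n894 T u b x))) =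
      -(n929 T u b x) := by
  have e := imM1Am T (u := u) (b := b) (x := x)
  linear_combination -e

theorem e1Am_m2 (T : MolP) {u b x : ℝ} :
    n872 T u b x + (b) * ((x) * ((n877 T u b x) * ((n169 T u b x) * (n883 T u b x) - (b) * (n893 T u b x)) + (n654 T u b x) * (n894 T u b x)) - (n15 T u b x) * ((n893 T u b x + (n3 T u b x) * (n881 T u b x)) * ((n169 T u b x) * (n883 T u b x) - (b) * (n893 T u b x)) - (n891 T u b x) * ((u) * (n883 T u b x) + (b) * (n893 T u b x)) - (n799 T u b x) * ((u) * (n881 T u b x) + n893 T u b x) + (n800 T u b x) * (n894 T u b x))) =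
      n939 T u b x := by
  have e := imM1Am T (u := u) (b := b) (x := x)
  simp only [n939, n872, n781, n298, n169, n3] at e ⊢
  linear_combination b * e

theorem e1Bp_n0 (T : MolP) {u b x : ℝ} :
    -((u) * (n1059 T u b x) + (b) * ((n3 T u b x) * (n1047 T u b x)) - (b) * (n1059 T u b x + n1111 T u b x)) =
      -(n1115 T u b x) := by
  have e := imW1Bp T (u := u) (b := b) (x := x)
  linear_combination -e

theorem e1Bp_n1 (T : MolP) {u b x : ℝ} :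
    (n205 T u b x) * ((n990 T u b x) * (n1059 T u b x + n1111 T u b x) + (n654 T u b x) * (n1060 T u b x)) - (n15 T u b x) * ((n1054 T u b x) * ((u) * (n1059 T u b x) + (b) * ((n3 T u b x) * (n1047 T u b x))) + (n1064 T u b x + n1059 T u b x - (1 + n372 T u b x) * (n1047 T u b x)) * (n1059 T u b x + n1111 T u b x) + (n1050 T u b x) * ((u) * (n1057 T u b x) + (n3 T u b x) * (n1047 T u b x)) + (n781 T u b x) * (n1060 T u b x)) =
      n1092 T u b x := by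
  have e := imN1Bp T (u := u) (b := b) (x := x)
  linear_combination e

theorem e1Bp_n2 (T : MolP) {u b x : ℝ} :
    n868 T u b x + (b) * ((n205 T u b x) * ((n990 T u b x) * (n1059 T u b x + n1111 T u b x) + (n654 T u b x) * (n1060 T u b x)) - (n15 T u b x) * ((n1054 T u b x) * ((u) * (n1059 T u b x) + (b) * ((n3 T u b x) * (n1047 T u b x))) + (n1064 T u b x + n1059 T u b x - (1 + n372 T u b x) * (n1047 T u b x)) * (n1059 T u b x + n1111 T u b x) + (n1050 T u b x) * ((u) * (n1057 T u b x) + (n3 T u b x) * (n1047 T u b x)) + (n781 T u b x) * (n1060 T u b x))) =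
      n1117 T u b x := by
  have e := imN1Bp T (u := u) (b := b) (x := x)
  simp only [n1117, n868, n298] at e ⊢
  linear_combination b * e

theorem e1Bp_m0 (T : MolP) {u b x : ℝ} :
    (u) * (n1059 T u b x) + (b) * ((n3 T u b x) * (n1047 T u b x)) - (b) * (n1059 T u b x + n1111 T u b x) =
      n1115 T u b x := by
  have e := imW1Bp T (u := u) (b := b) (x := x)
  linear_combination e

theorem e1Bp_m1 (T : MolP) {u b x : ℝ} :
    (x) * ((n990 T u b x) * ((n169 T u b x) * (n1059 T u b x) + (b) * (n1070 T u b x)) + (n654 T u b x) * (n1071 T u b x)) - (n15 T u b x) * (((n3 T u b x) * (n1057 T u b x) - n1070 T u b x) * ((n169 T u b x) * (n1059 T u b x) + (b) * (n1070 T u b x)) - (n1068 T u b x) * ((u) * (n1059 T u b x) - (b) * (n1070 T u b x)) - (n1093 T u b x) * ((u) * (n1057 T u b x) - n1070 T u b x) + (n800 T u b x) * (n1071 T u b x)) =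
      n1110 T u b x := by
  have e := imM1Bp T (u := u) (b := b) (x := x)
  linear_combination e

theorem e1Bp_m2 (T : MolP) {u b x : ℝ} :
    n872 T u b x + (b) * ((x) * ((n990 T u b x) * ((n169 T u b x) * (n1059 T u b x) + (b) * (n1070 T u b x)) + (n654 T u b x) * (n1071 T u b x)) - (n15 T u b x) * (((n3 T u b x) * (n1057 T u b x) - n1070 T u b x) * ((n169 T u b x) * (n1059 T u b x) + (b) * (n1070 T u b x)) - (n1068 T u b x) * ((u) * (n1059 T u b x) - (b) * (n1070 T u b x)) - (n1093 T u b x) * ((u) * (n1057 T u b x) - n1070 T u b x) + (n800 T u b x) * (n1071 T u b x))) =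
      n1119 T u b x := by
  have e := imM1Bp T (u := u) (b := b) (x := x)
  simp only [n1119, n872, n781, n298, n169, n3] at e ⊢
  linear_combination b * e

theorem e1Bm_n0 (T : MolP) {u b x : ℝ} :
    -((u) * (n1126 T u b x) - (b) * ((n3 T u b x) * (n1047 T u b x))) =
      -(n1176 T u b x) := by
  have e := imW1Bm T (u := u) (b := b) (x := x)
  linear_combination -e

theorem e1Bm_n1 (T : MolP) {u b x : ℝ} :
    -((n205 T u b x) * ((n1122 T u b x) * (n1126 T u b x - n1111 T u b x) + (n654 T u b x) * (n1127 T u b x)) - (n15 T u b x) * ((n1054 T u b x) * ((u) * (n1126 T u b x) - (b) * ((n3 T u b x) * (n1047 T u b x))) + ((n3 T u b x) * (n1047 T u b x) + n1130 T u b x) * (n1126 T u b x - n1111 T u b x) + (n1050 T u b x) * ((u) * (n1124 T u b x) - (n3 T u b x) * (n1047 T u b x)) + (n781 T u b x) * (n1127 T u b x))) =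
      -(n1156 T u b x) := by
  have e := imN1Bm T (u := u) (b := b) (x := x)
  linear_combination -e

theorem e1Bm_n2 (T : MolP) {u b x : ℝ} :
    n868 T u b x + (b) * ((n205 T u b x) * ((n1122 T u b x) * (n1126 T u b x - n1111 T u b x) + (n654 T u b x) * (n1127 T u b x)) - (n15 T u b x) * ((n1054 T u b x) * ((u) * (n1126 T u b x) - (b) * ((n3 T u b x) * (n1047 T u b x))) + ((n3 T u b x) * (n1047 T u b x) + n1130 T u b x) * (n1126 T u b x - n1111 T u b x) + (n1050 T u b x) * ((u) * (n1124 T u b x) - (n3 T u b x) * (n1047 T u b x)) + (n781 T u b x) * (n1127 T u b x))) =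
      n1180 T u b x := by
  have e := imN1Bm T (u := u) (b := b) (x := x)
  simp only [n1180, n868, n298] at e ⊢
  linear_combination b * e

theorem e1Bm_m0 (T : MolP) {u b x : ℝ} :
    (u) * (n1126 T u b x) - (b) * ((n3 T u b x) * (n1047 T u b x)) =
      n1176 T u b x := by
  have e := imW1Bm T (u := u) (b := b) (x := x)
  linear_combination e

theorem e1Bm_m1 (T : MolP) {u b x : ℝ} :
    -((x) * ((n1122 T u b x) * ((n169 T u b x) * (n1126 T u b x) - (b) * (n1134 T u b x - n1126 T u b x)) + (n654 T u b x) * (n1130 T u b x - (n1134 T u b x - n1126 T u b x))) - (n15 T u b x) * ((n1134 T u b x + (n3 T u b x) * (n1124 T u b x) - n1126 T u b x) * ((n169 T u b x) * (n1126 T u b x) - (b) * (n1134 T u b x - n1126 T u b x)) - (n1132 T u b x) * ((u) * (n1126 T u b x) + (b) * (n1134 T u b x - n1126 T u b x)) - (n1093 T u b x) * ((u) * (n1124 T u b x) + (n1134 T u b x - n1126 T u b x)) + (n800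 T u b x) * (n1130 T u b x - (n1134 T u b x - n1126 T u b x)))) =
      -(n1172 T u b x) := by
  have e := imM1Bm T (u := u) (b := b) (x := x)
  linear_combination -e

theorem e1Bm_m2 (T : MolP) {u b x : ℝ} :
    n872 T u b x + (b) * ((x) * ((n1122 T u b x) * ((n169 T u b x) * (n1126 T u b x) - (b) * (n1134 T u b x - n1126 T u b x)) + (n654 T u b x) * (n1130 T u b x - (n1134 T u b x - n1126 T u b x))) - (n15 T u b x) * ((n1134 T u b x + (n3 T u b x) * (n1124 T u b x) - n1126 T u b x) * ((n169 T u b x) * (n1126 T u b x) - (b) * (n1134 T u b x - n1126 T u b x)) - (n1132 T u b x) * ((u) * (n1126 T u b x) + (b) * (n1134 T u b x - n1126 T u b x)) - (n1093 T u b x) * ((u) * (n1124 T u b x) + (n1134 T u b x - n1126 T u b x)) + (n800 T u b x) * (n1130 T u b x - (n1134 T u b x - n1126 T u b x)))) =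
      n1182 T u b x := by
  have e := imM1Bm T (u := u) (b := b) (x := x)
  simp only [n1182, n872, n781, n298, n169, n3] at e ⊢
  linear_combination b * e

theorem e2Ap_n0 (T : MolP) {u b x : ℝ} :
    -((u) * (n1228 T u b x) + (b) * (n1236 T u b x)) =
      -(n1288 T u b x) := by
  have e := imW2Ap T (u := u) (b := b) (x := x)
  linear_combination -e

theorem e2Ap_n1 (T : MolP) {u b x : ℝ} :
    (n205 T u b x) * ((n1212 T u b x) * (n1228 T u b x + (b) * (n1219 T u b x)) + (n1209 T u b x) * (n1229 T u b x)) - (n15 T u b x) * ((n1223 T u b x) * ((u) * (n1228 T u b x) + (b) * (n1236 T u b x)) + (n1237 T u b x) * (n1228 T u b x + (b) * (n1219 T u b x)) + (n1220 T u b x) * ((u) * (n1226 T u b x) + n1236 T u b x) + (n1243 T u b x) * (n1229 T u b x)) =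
      n1260 T u b x := by
  have e := imN2Ap T (u := u) (b := b) (x := x)
  linear_combination e

theorem e2Ap_n2 (T : MolP) {u b x : ℝ} :
    n1290 T u b x + (b) * ((n205 T u b x) * ((n1212 T u b x) * (n1228 T u b x + (b) * (n1219 T u b x)) + (n1209 T u b x) * (n1229 T u b x)) - (n15 T u b x) * ((n1223 T u b x) * ((u) * (n1228 T u b x) + (b) * (n1236 T u b x)) + (n1237 T u b x) * (n1228 T u b x + (b) * (n1219 T u b x)) + (n1220 T u b x) * ((u) * (n1226 T u b x) + n1236 T u b x) + (n1243 T u b x) * (n1229 T u b x))) =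
      n1292 T u b x := by
  have e := imN2Ap T (u := u) (b := b) (x := x)
  simp only [n1292, n1290, n298] at e ⊢
  linear_combination b * e

theorem e2Ap_m0 (T : MolP) {u b x : ℝ} :
    (u) * (n1228 T u b x) + (b) * (n1236 T u b x) =
      n1288 T u b x := by
  have e := imW2Ap T (u := u) (b := b) (x := x)
  linear_combination e

theorem e2Ap_m1 (T : MolP) {u b x : ℝ} :
    (x) * ((n1212 T u b x) * ((n169 T u b x) * (n1228 T u b x) - (b) * (n1236 T u b x)) + (n1209 T u b x) * (n1237 T u b x)) - (n15 T u b x) * ((n1236 T u b x + (n3 T u b x) * (n1226 T u b x)) * ((n169 T u b x) * (n1228 T u b x) - (b) * (n1236 T u b x)) - (n1235 T u b x) * ((u) * (n1228 T u b x) + (b) * (n1236 T u b x)) - (n1261 T u b x) * ((u) * (n1226 T u b x) + n1236 T u b x) + (n1262 T u b x) * (n1237 T u b x)) =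
      n1279 T u b x := by
  have e := imM2Ap T (u := u) (b := b) (x := x)
  linear_combination e

theorem e2Ap_m2 (T : MolP) {u b x : ℝ} :
    n1294 T u b x + (b) * ((x) * ((n1212 T u b x) * ((n169 T u b x) * (n1228 T u b x) - (b) * (n1236 T u b x)) + (n1209 T u b x) * (n1237 T u b x)) - (n15 T u b x) * ((n1236 T u b x + (n3 T u b x) * (n1226 T u b x)) * ((n169 T u b x) * (n1228 T u b x) - (b) * (n1236 T u b x)) - (n1235 T u b x) * ((u) * (n1228 T u b x) + (b) * (n1236 T u b x)) - (n1261 T u b x) * ((u) * (n1226 T u b x) + n1236 T u b x) + (n1262 T u b x) * (n1237 T u b x))) =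
      n1296 T u b x := by
  have e := imM2Ap T (u := u) (b := b) (x := x)
  simp only [n1296, n1294, n1243, n298, n169, n3] at e ⊢
  linear_combination b * e

theorem e2Am_n0 (T : MolP) {u b x : ℝ} :
    -((u) * (n1315 T u b x) - (b) * ((n3 T u b x) * (n1307 T u b x)) + (b) * (n1315 T u b x - (b) * (n1307 T u b x))) =
      -(n1367 T u b x) := by
  have e := imW2Am T (u := u) (b := b) (x := x)
  linear_combination -e

theorem e2Am_n1 (T : MolP) {u b x : ℝ} :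
    -((n205 T u b x) * ((n1301 T u b x) * (n1315 T u b x - (b) * (n1307 T u b x)) + (n1209 T u b x) * (n1316 T u b x)) - (n15 T u b x) * ((n1310 T u b x) * ((u) * (n1315 T u b x) - (b) * ((n3 T u b x) * (n1307 T u b x))) + ((1 + n30 T u b x) * (n1307 T u b x) + n1320 T u b x - n1315 T u b x) * (n1315 T u b x - (b) * (n1307 T u b x)) + (n1220 T u b x) * ((u) * (n1313 T u b x) - (n3 T u b x) * (n1307 T u b x)) + (n1243 T u b x) * (n1316 T u b x))) =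
      -(n1346 T u b x) := by
  have e := imN2Am T (u := u) (b := b) (x := x)
  linear_combination -e

theorem e2Am_n2 (T : MolP) {u b x : ℝ} :
    n1290 T u b x + (b) * ((n205 T u b x) * ((n1301 T u b x) * (n1315 T u b x - (b) * (n1307 T u b x)) + (n1209 T u b x) * (n1316 T u b x)) - (n15 T u b x) * ((n1310 T u b x) * ((u) * (n1315 T u b x) - (b) * ((n3 T u b x) * (n1307 T u b x))) + ((1 + n30 T u b x) * (n1307 T u b x) + n1320 T u b x - n1315 T u b x) * (n1315 T u b x - (b) * (n1307 T u b x)) + (n1220 T u b x) * ((u) * (n1313 T u b x) - (n3 T u b x) * (n1307 T u b x)) + (n1243 T u b x) * (n1316 T u b x))) =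
      n1371 T u b x := by
  have e := imN2Am T (u := u) (b := b) (x := x)
  simp only [n1371, n1290, n298] at e ⊢
  linear_combination b * e

theorem e2Am_m0 (T : MolP) {u b x : ℝ} :
    (u) * (n1315 T u b x) - (b) * ((n3 T u b x) * (n1307 T u b x)) + (b) * (n1315 T u b x - (b) * (n1307 T u b x)) =
      n1367 T u b x := by
  have e := imW2Am T (u := u) (b := b) (x := x)
  linear_combination e

theorem e2Am_m1 (T : MolP) {u b x : ℝ} :
    -((x) * ((n1301 T u b x) * ((n169 T u b x) * (n1315 T u b x) - (b) * (n1326 T u b x)) + (n1209 T u b x) * (n1327 T u b x)) - (n15 T u b x) * ((n1326 T u b x + (n3 T u b x) * (n1313 T u b x)) * ((n169 T u b x) * (n1315 T u b x) - (b) * (n1326 T u b x)) - (n1324 T u b x) * ((u) * (n1315 T u b x) + (b) * (n1326 T u b x)) - (n1261 T u b x) * ((u) * (n1313 T u b x) + n1326 T u b x) + (n1262 T u b x) * (n1327 T u b x))) =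
      -(n1362 T u b x) := by
  have e := imM2Am T (u := u) (b := b) (x := x)
  linear_combination -e

theorem e2Am_m2 (T : MolP) {u b x : ℝ} :
    n1294 T u b x + (b) * ((x) * ((n1301 T u b x) * ((n169 T u b x) * (n1315 T u b x) - (b) * (n1326 T u b x)) + (n1209 T u b x) * (n1327 T u b x)) - (n15 T u b x) * ((n1326 T u b x + (n3 T u b x) * (n1313 T u b x)) * ((n169 T u b x) * (n1315 T u b x) - (b) * (n1326 T u b x)) - (n1324 T u b x) * ((u) * (n1315 T u b x) + (b) * (n1326 T u b x)) - (n1261 T u b x) * ((u) * (n1313 T u b x) + n1326 T u b x) + (n1262 T u b x) * (n1327 T u b x))) =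
      n1373 T u b x := by
  have e := imM2Am T (u := u) (b := b) (x := x)
  simp only [n1373, n1294, n1243, n298, n169, n3] at e ⊢
  linear_combination b * e

theorem e2Bp_n0 (T : MolP) {u b x : ℝ} :
    -((u) * (n1403 T u b x) + (b) * ((n3 T u b x) * (n1394 T u b x)) - (b) * (n1403 T u b x + (b) * (n1394 T u b x))) =
      -(n1459 T u b x) := by
  have e := imW2Bp T (u := u) (b := b) (x := x)
  linear_combination -e

theorem e2Bp_n1 (T : MolP) {u b x : ℝ} :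
    (n205 T u b x) * ((n1388 T u b x) * (n1403 T u b x + (b) * (n1394 T u b x)) + (n1209 T u b x) * (n1404 T u b x)) - (n15 T u b x) * ((n1398 T u b x) * ((u) * (n1403 T u b x) + (b) * ((n3 T u b x) * (n1394 T u b x))) + (n1408 T u b x + n1403 T u b x - (1 + n372 T u b x) * (n1394 T u b x)) * (n1403 T u b x + (b) * (n1394 T u b x)) + (n1395 T u b x) * ((u) * (n1401 T u b x) + (n3 T u b x) * (n1394 T u b x)) + (n1243 T u b x) * (n1404 T u b x)) =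
      n1436 T u b x := by
  have e := imN2Bp T (u := u) (b := b) (x := x)
  linear_combination e

theorem e2Bp_n2 (T : MolP) {u b x : ℝ} :
    n1290 T u b x + (b) * ((n205 T u b x) * ((n1388 T u b x) * (n1403 T u b x + (b) * (n1394 T u b x)) + (n1209 T u b x) * (n1404 T u b x)) - (n15 T u b x) * ((n1398 T u b x) * ((u) * (n1403 T u b x) + (b) * ((n3 T u b x) * (n1394 T u b x))) + (n1408 T u b x + n1403 T u b x - (1 + n372 T u b x) * (n1394 T u b x)) * (n1403 T u b x + (b) * (n1394 T u b x)) + (n1395 T u b x) * ((u) * (n1401 T u b x) + (n3 T u b x) * (n1394 T u b x)) + (n1243 T u b x) * (n1404 T u b x))) =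
      n1461 T u b x := by
  have e := imN2Bp T (u := u) (b := b) (x := x)
  simp only [n1461, n1290, n298] at e ⊢
  linear_combination b * e

theorem e2Bp_m0 (T : MolP) {u b x : ℝ} :
    (u) * (n1403 T u b x) + (b) * ((n3 T u b x) * (n1394 T u b x)) - (b) * (n1403 T u b x + (b) * (n1394 T u b x)) =
      n1459 T u b x := by
  have e := imW2Bp T (u := u) (b := b) (x := x)
  linear_combination e

theorem e2Bp_m1 (T : MolP) {u b x : ℝ} :
    (x) * ((n1388 T u b x) * ((n169 T u b x) * (n1403 T u b x) + (b) * (n1414 T u b x)) + (n1209 T u b x) * (n1415 T u b x)) - (n15 T u b x) * (((n3 T u b x) * (n1401 T u b x) - n1414 T u b x) * ((n169 T u b x) * (n1403 T u b x) + (b) * (n1414 T u b x)) - (n1412 T u b x) * ((u) * (n1403 T u b x) - (b) * (n1414 T u b x)) - (n1437 T u b x) * ((u) * (n1401 T u b x) - n1414 T u b x) + (n1262 T u b x) * (n1415 T u b x)) =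
      n1454 T u b x := by
  have e := imM2Bp T (u := u) (b := b) (x := x)
  linear_combination e

theorem e2Bp_m2 (T : MolP) {u b x : ℝ} :
    n1294 T u b x + (b) * ((x) * ((n1388 T u b x) * ((n169 T u b x) * (n1403 T u b x) + (b) * (n1414 T u b x)) + (n1209 T u b x) * (n1415 T u b x)) - (n15 T u b x) * (((n3 T u b x) * (n1401 T u b x) - n1414 T u b x) * ((n169 T u b x) * (n1403 T u b x) + (b) * (n1414 T u b x)) - (n1412 T u b x) * ((u) * (n1403 T u b x) - (b) * (n1414 T u b x)) - (n1437 T u b x) * ((u) * (n1401 T u b x) - n1414 T u b x) + (n1262 T u b x) * (n1415 T u b x))) =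
      n1463 T u b x := by
  have e := imM2Bp T (u := u) (b := b) (x := x)
  simp only [n1463, n1294, n1243, n298, n169, n3] at e ⊢
  linear_combination b * e

theorem e2Bm_n0 (T : MolP) {u b x : ℝ} :
    -((u) * (n1482 T u b x) - (b) * ((n3 T u b x) * (n1474 T u b x))) =
      -(n1534 T u b x) := by
  have e := imW2Bm T (u := u) (b := b) (x := x)
  linear_combination -e

theorem e2Bm_n1 (T : MolP) {u b x : ℝ} :
    -((n205 T u b x) * ((n1468 T u b x) * (n1482 T u b x - (b) * (n1474 T u b x)) + (n1209 T u b x) * (n1483 T u b x)) - (n15 T u b x) * ((n1477 T u b x) * ((u) * (n1482 T u b x) - (b) * ((n3 T u b x) * (n1474 T u b x))) + ((n3 T u b x) * (n1474 T u b x) + n1486 T u b x) * (n1482 T u b x - (b) * (n1474 T u b x)) + (n1395 T u b x) * ((u) * (n1480 T u b x) - (n3 T u b x) * (n1474 T u b x)) + (n1243 T u b x) * (n1483 T u b x))) =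
      -(n1513 T u b x) := by
  have e := imN2Bm T (u := u) (b := b) (x := x)
  linear_combination -e

theorem e2Bm_n2 (T : MolP) {u b x : ℝ} :
    n1290 T u b x + (b) * ((n205 T u b x) * ((n1468 T u b x) * (n1482 T u b x - (b) * (n1474 T u b x)) + (n1209 T u b x) * (n1483 T u b x)) - (n15 T u b x) * ((n1477 T u b x) * ((u) * (n1482 T u b x) - (b) * ((n3 T u b x) * (n1474 T u b x))) + ((n3 T u b x) * (n1474 T u b x) + n1486 T u b x) * (n1482 T u b x - (b) * (n1474 T u b x)) + (n1395 T u b x) * ((u) * (n1480 T u b x) - (n3 T u b x) * (n1474 T u b x)) + (n1243 T u b x) * (n1483 T u b x))) =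
      n1538 T u b x := by
  have e := imN2Bm T (u := u) (b := b) (x := x)
  simp only [n1538, n1290, n298] at e ⊢
  linear_combination b * e

theorem e2Bm_m0 (T : MolP) {u b x : ℝ} :
    (u) * (n1482 T u b x) - (b) * ((n3 T u b x) * (n1474 T u b x)) =
      n1534 T u b x := by
  have e := imW2Bm T (u := u) (b := b) (x := x)
  linear_combination e

theorem e2Bm_m1 (T : MolP) {u b x : ℝ} :
    -((x) * ((n1468 T u b x) * ((n169 T u b x) * (n1482 T u b x) - (b) * (n1491 T u b x - n1482 T u b x)) + (n1209 T u b x) * (n1486 T u b x - (n1491 T u b x - n1482 T u b x))) - (n15 T u b x) * ((n1491 T u b x + (n3 T u b x) * (n1480 T u b x) - n1482 T u b x) * ((n169 T u b x) * (n1482 T u b x) - (b) * (n1491 T u b x - n1482 T u b x)) - (n1489 T u b x) * ((u) * (n1482 T u b x) + (b) * (n1491 T u b x - n1482 T u b x)) - (n1437 T u b x) * ((u) * (n1480 T u b x) + (n1491 T u b x - n1482 T u b x)) + (n1262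 T u b x) * (n1486 T u b x - (n1491 T u b x - n1482 T u b x)))) =
      -(n1529 T u b x) := by
  have e := imM2Bm T (u := u) (b := b) (x := x)
  linear_combination -e

theorem e2Bm_m2 (T : MolP) {u b x : ℝ} :
    n1294 T u b x + (b) * ((x) * ((n1468 T u b x) * ((n169 T u b x) * (n1482 T u b x) - (b) * (n1491 T u b x - n1482 T u b x)) + (n1209 T u b x) * (n1486 T u b x - (n1491 T u b x - n1482 T u b x))) - (n15 T u b x) * ((n1491 T u b x + (n3 T u b x) * (n1480 T u b x) - n1482 T u b x) * ((n169 T u b x) * (n1482 T u b x) - (b) * (n1491 T u b x - n1482 T u b x)) - (n1489 T u b x) * ((u) * (n1482 T u b x) + (b) * (n1491 T u b x - n1482 T u b x)) - (n1437 T u b x) * ((u) * (n1480 T u b x) + (n1491 T u b x - n1482 T u b x)) + (n1262 T u b x) * (n1486 T u b x - (n1491 T u b x - n1482 T u b x)))) =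
      n1540 T u b x := by
  have e := imM2Bm T (u := u) (b := b) (x := x)
  simp only [n1540, n1294, n1243, n298, n169, n3] at e ⊢
  linear_combination b * e

noncomputable def F3 (M : MolF) : Fn3 := ⟨_, fun a b c => n3 (M.at_ a b c) a b c, fun h1 h2 h3 => (enc_norm (enc_add h3 h1))⟩

noncomputable def F8 (M : MolF) : Fn3 := ⟨_, fun a b c => n8 (M.at_ a b c) a b c, fun h1 h2 h3 => (enc_sqrt (enc_sub (en1 _) (es3_4 (enc_sq h3))))⟩

noncomputable def F12 (M : MolF) : Fn3 := ⟨_, fun a b c => n12 (M.at_ a b c) a b c, fun h1 h2 h3 => (enc_sqrt (enc_sub (en1 _) (es3_4 (enc_sq ((F3 M).enc h1 h2 h3)))))⟩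

noncomputable def F15 (M : MolF) : Fn3 := ⟨_, fun a b c => n15 (M.at_ a b c) a b c, fun h1 h2 h3 => (enc_norm (enc_sub (enc_add (es1_2 h3) ((F8 M).enc h1 h2 h3)) (en1 _)))⟩

noncomputable def F16 (M : MolF) : Fn3 := ⟨_, fun a b c => n16 (M.at_ a b c) a b c, fun h1 h2 h3 => (enc_norm (enc_add (en1 _) h2))⟩

noncomputable def F30 (M : MolF) : Fn3 := ⟨_, fun a b c => n30 (M.at_ a b c) a b c, fun h1 h2 h3 => (enc_norm (enc_add ((F3 M).enc h1 h2 h3) h2))⟩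

noncomputable def F34 (M : MolF) : Fn3 := ⟨_, fun a b c => n34 (M.at_ a b c) a b c, fun h1 h2 h3 => (enc_sqrt (enc_sub (en1 _) (es3_4 (enc_sq ((F30 M).enc h1 h2 h3)))))⟩

noncomputable def F41 (M : MolF) : Fn3 := ⟨_, fun a b c => n41 (M.at_ a b c) a b c, fun h1 h2 h3 => (enc_norm (enc_mul (enc_norm (es3_4 (enc_add (ek2 ((F3 M).enc h1 h2 h3)) h2))) (enc_inv (enc_add ((F12 M).enc h1 h2 h3) ((F34 M).enc h1 h2 h3)))))⟩

noncomputable def F50 (M : MolF) : Fn3 := ⟨_, fun a b c => n50 (M.at_ a b c) a b c, fun h1 h2 h3 => (enc_inv ((F34 M).enc h1 h2 h3))⟩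

noncomputable def F51 (M : MolF) : Fn3 := ⟨_, fun a b c => n51 (M.at_ a b c) a b c, fun h1 h2 h3 => (enc_inv ((F12 M).enc h1 h2 h3))⟩

noncomputable def F52 (M : MolF) : Fn3 := ⟨_, fun a b c => n52 (M.at_ a b c) a b c, fun h1 h2 h3 => (enc_norm (enc_mul ((F3 M).enc h1 h2 h3) ((F51 M).enc h1 h2 h3)))⟩

noncomputable def F56 (M : MolF) : Fn3 := ⟨_, fun a b c => n56 (M.at_ a b c) a b c, fun h1 h2 h3 => (enc_mul (enc_norm (enc_add (en1 _) (enc_mul ((F52 M).enc h1 h2 h3) ((F41 M).enc h1 h2 h3)))) ((F50 M).enc h1 h2 h3))⟩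

noncomputable def F57 (M : MolF) : Fn3 := ⟨_, fun a b c => n57 (M.at_ a b c) a b c, fun h1 h2 h3 => (enc_mul ((F30 M).enc h1 h2 h3) ((F50 M).enc h1 h2 h3))⟩

noncomputable def F60 (M : MolF) : Fn3 := ⟨_, fun a b c => n60 (M.at_ a b c) a b c, fun h1 h2 h3 => (enc_add (es1_2 ((F3 M).enc h1 h2 h3)) ((F12 M).enc h1 h2 h3))⟩

noncomputable def F61 (M : MolF) : Fn3 := ⟨_, fun a b c => n61 (M.at_ a b c) a b c, fun h1 h2 h3 => (enc_norm (enc_sub (er1_2 _) ((F41 M).enc h1 h2 h3)))⟩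

noncomputable def F62 (M : MolF) : Fn3 := ⟨_, fun a b c => n62 (M.at_ a b c) a b c, fun h1 h2 h3 => (enc_add (es1_2 ((F30 M).enc h1 h2 h3)) ((F34 M).enc h1 h2 h3))⟩

noncomputable def F64 (M : MolF) : Fn3 := ⟨_, fun a b c => n64 (M.at_ a b c) a b c, fun h1 h2 h3 => (enc_norm (enc_sub ((F60 M).enc h1 h2 h3) (en1 _)))⟩

noncomputable def F65 (M : MolF) : Fn3 := ⟨_, fun a b c => n65 (M.at_ a b c) a b c, fun h1 h2 h3 => (enc_norm (enc_sub ((F62 M).enc h1 h2 h3) (en1 _)))⟩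

noncomputable def F69 (M : MolF) : Fn3 := ⟨_, fun a b c => n69 (M.at_ a b c) a b c, fun h1 h2 h3 => (enc_norm (enc_sub (er1_2 _) (es3_4 ((F52 M).enc h1 h2 h3))))⟩

noncomputable def F71 (M : MolF) : Fn3 := ⟨_, fun a b c => n71 (M.at_ a b c) a b c, fun h1 h2 h3 => (enc_norm (enc_sub (er1_2 _) (es3_4 ((F57 M).enc h1 h2 h3))))⟩

noncomputable def F72 (M : MolF) : Fn3 := ⟨_, fun a b c => n72 (M.at_ a b c) a b c, fun h1 h2 h3 => (enc_inv ((F65 M).enc h1 h2 h3))⟩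

noncomputable def F73 (M : MolF) : Fn3 := ⟨_, fun a b c => n73 (M.at_ a b c) a b c, fun h1 h2 h3 => (enc_inv ((F64 M).enc h1 h2 h3))⟩

noncomputable def F74 (M : MolF) : Fn3 := ⟨_, fun a b c => n74 (M.at_ a b c) a b c, fun h1 h2 h3 => (enc_norm (enc_mul ((F69 M).enc h1 h2 h3) ((F73 M).enc h1 h2 h3)))⟩

noncomputable def F77 (M : MolF) : Fn3 := ⟨_, fun a b c => n77 (M.at_ a b c) a b c, fun h1 h2 h3 => (enc_norm (enc_mul (enc_norm (enc_sub (enc_neg (es3_4 ((F56 M).enc h1 h2 h3))) (enc_mul ((F74 M).enc h1 h2 h3) ((F61 M).enc h1 h2 h3)))) ((F72 M).enc h1 h2 h3)))⟩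

noncomputable def F78 (M : MolF) : Fn3 := ⟨_, fun a b c => n78 (M.at_ a b c) a b c, fun h1 h2 h3 => (enc_norm (enc_mul ((F71 M).enc h1 h2 h3) ((F72 M).enc h1 h2 h3)))⟩

noncomputable def F79 (M : MolF) : Fn3 := ⟨_, fun a b c => n79 (M.at_ a b c) a b c, fun h1 h2 h3 => (enc_norm (enc_sub ((F12 M).enc h1 h2 h3) (er1_2 _)))⟩

noncomputable def F80 (M : MolF) : Fn3 := ⟨_, fun a b c => n80 (M.at_ a b c) a b c, fun h1 h2 h3 => (enc_norm (enc_sub ((F34 M).enc h1 h2 h3) (er1_2 _)))⟩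

noncomputable def F84 (M : MolF) : Fn3 := ⟨_, fun a b c => n84 (M.at_ a b c) a b c, fun h1 h2 h3 => (enc_norm (enc_add (M.dy.enc h1 h2 h3) (enc_mul h2 (M.d1.enc h1 h2 h3))))⟩

noncomputable def F85 (M : MolF) : Fn3 := ⟨_, fun a b c => n85 (M.at_ a b c) a b c, fun h1 h2 h3 => (enc_mul ((F79 M).enc h1 h2 h3) ((F74 M).enc h1 h2 h3))⟩

noncomputable def F89 (M : MolF) : Fn3 := ⟨_, fun a b c => n89 (M.at_ a b c) a b c, fun h1 h2 h3 => (enc_sub (enc_mul ((F79 M).enc h1 h2 h3) ((F77 M).enc h1 h2 h3)) (enc_mul ((F41 M).enc h1 h2 h3) ((F78 M).enc h1 h2 h3)))⟩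

noncomputable def F90 (M : MolF) : Fn3 := ⟨_, fun a b c => n90 (M.at_ a b c) a b c, fun h1 h2 h3 => (enc_mul ((F80 M).enc h1 h2 h3) ((F78 M).enc h1 h2 h3))⟩

noncomputable def F92 (M : MolF) : Fn3 := ⟨_, fun a b c => n92 (M.at_ a b c) a b c, fun h1 h2 h3 => (enc_norm (enc_add ((F85 M).enc h1 h2 h3) (M.dy.enc h1 h2 h3)))⟩

noncomputable def F93 (M : MolF) : Fn3 := ⟨_, fun a b c => n93 (M.at_ a b c) a b c, fun h1 h2 h3 => (enc_add ((F89 M).enc h1 h2 h3) (M.d1.enc h1 h2 h3))⟩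

noncomputable def F94 (M : MolF) : Fn3 := ⟨_, fun a b c => n94 (M.at_ a b c) a b c, fun h1 h2 h3 => (enc_add ((F90 M).enc h1 h2 h3) ((F84 M).enc h1 h2 h3))⟩

noncomputable def F95 (M : MolF) : Fn3 := ⟨_, fun a b c => n95 (M.at_ a b c) a b c, fun h1 h2 h3 => (enc_norm (enc_add (enc_mul ((F12 M).enc h1 h2 h3) ((F74 M).enc h1 h2 h3)) (M.dy.enc h1 h2 h3)))⟩

noncomputable def F98 (M : MolF) : Fn3 := ⟨_, fun a b c => n98 (M.at_ a b c) a b c, fun h1 h2 h3 => (enc_norm (enc_sub (M.p1.enc h1 h2 h3) (enc_sub (M.ws.enc h1 h2 h3) ((F41 M).enc h1 h2 h3))))⟩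

noncomputable def F100 (M : MolF) : Fn3 := ⟨_, fun a b c => n100 (M.at_ a b c) a b c, fun h1 h2 h3 => (enc_norm (enc_add ((F95 M).enc h1 h2 h3) (enc_mul h2 (M.q1.enc h1 h2 h3))))⟩

noncomputable def F102 (M : MolF) : Fn3 := ⟨_, fun a b c => n102 (M.at_ a b c) a b c, fun h1 h2 h3 => (enc_norm (enc_sub (en1 _) ((F12 M).enc h1 h2 h3)))⟩

noncomputable def F103 (M : MolF) : Fn3 := ⟨_, fun a b c => n103 (M.at_ a b c) a b c, fun h1 h2 h3 => (enc_norm (enc_sub (en1 _) ((F34 M).enc h1 h2 h3)))⟩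

noncomputable def F108 (M : MolF) : Fn3 := ⟨_, fun a b c => n108 (M.at_ a b c) a b c, fun h1 h2 h3 => (enc_norm (enc_sub (ek2 ((F12 M).enc h1 h2 h3)) (en1 _)))⟩

noncomputable def F109 (M : MolF) : Fn3 := ⟨_, fun a b c => n109 (M.at_ a b c) a b c, fun h1 h2 h3 => (enc_norm (enc_sub (ek2 ((F34 M).enc h1 h2 h3)) (en1 _)))⟩

noncomputable def F110 (M : MolF) : Fn3 := ⟨_, fun a b c => n110 (M.at_ a b c) a b c, fun h1 h2 h3 => (enc_mul ((F102 M).enc h1 h2 h3) ((F108 M).enc h1 h2 h3))⟩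

noncomputable def F114 (M : MolF) : Fn3 := ⟨_, fun a b c => n114 (M.at_ a b c) a b c, fun h1 h2 h3 => (enc_sub (enc_mul ((F41 M).enc h1 h2 h3) ((F109 M).enc h1 h2 h3)) (enc_mul ((F102 M).enc h1 h2 h3) (enc_norm (ek2 ((F41 M).enc h1 h2 h3)))))⟩

noncomputable def F115 (M : MolF) : Fn3 := ⟨_, fun a b c => n115 (M.at_ a b c) a b c, fun h1 h2 h3 => (enc_mul ((F103 M).enc h1 h2 h3) ((F109 M).enc h1 h2 h3))⟩

noncomputable def F116 (M : MolF) : Fn3 := ⟨_, fun a b c => n116 (M.at_ a b c) a b c, fun h1 h2 h3 => (enc_norm (enc_sub ((F30 M).enc h1 h2 h3) h3))⟩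

noncomputable def F117 (M : MolF) : Fn3 := ⟨_, fun a b c => n117 (M.at_ a b c) a b c, fun h1 h2 h3 => (enc_norm (enc_mul ((F64 M).enc h1 h2 h3) (M.dy.enc h1 h2 h3)))⟩

noncomputable def F119 (M : MolF) : Fn3 := ⟨_, fun a b c => n119 (M.at_ a b c) a b c, fun h1 h2 h3 => (enc_mul ((F64 M).enc h1 h2 h3) (M.d1.enc h1 h2 h3))⟩

noncomputable def F120 (M : MolF) : Fn3 := ⟨_, fun a b c => n120 (M.at_ a b c) a b c, fun h1 h2 h3 => (enc_norm (enc_add (enc_mul ((F61 M).enc h1 h2 h3) ((F84 M).enc h1 h2 h3)) ((F119 M).enc h1 h2 h3)))⟩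

noncomputable def F121 (M : MolF) : Fn3 := ⟨_, fun a b c => n121 (M.at_ a b c) a b c, fun h1 h2 h3 => (enc_norm (enc_mul ((F65 M).enc h1 h2 h3) ((F84 M).enc h1 h2 h3)))⟩

noncomputable def F122 (M : MolF) : Fn3 := ⟨_, fun a b c => n122 (M.at_ a b c) a b c, fun h1 h2 h3 => (enc_mul ((F117 M).enc h1 h2 h3) h1)⟩

noncomputable def F124 (M : MolF) : Fn3 := ⟨_, fun a b c => n124 (M.at_ a b c) a b c, fun h1 h2 h3 => (enc_add (enc_mul ((F120 M).enc h1 h2 h3) ((F116 M).enc h1 h2 h3)) ((F117 M).enc h1 h2 h3))⟩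

noncomputable def F125 (M : MolF) : Fn3 := ⟨_, fun a b c => n125 (M.at_ a b c) a b c, fun h1 h2 h3 => (enc_mul ((F121 M).enc h1 h2 h3) ((F116 M).enc h1 h2 h3))⟩

noncomputable def F129 (M : MolF) : Fn3 := ⟨_, fun a b c => n129 (M.at_ a b c) a b c, fun h1 h2 h3 => (enc_sub ((F110 M).enc h1 h2 h3) (ek2 ((F122 M).enc h1 h2 h3)))⟩

noncomputable def F130 (M : MolF) : Fn3 := ⟨_, fun a b c => n130 (M.at_ a b c) a b c, fun h1 h2 h3 => (enc_sub ((F114 M).enc h1 h2 h3) (ek2 ((F124 M).enc h1 h2 h3)))⟩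

noncomputable def F131 (M : MolF) : Fn3 := ⟨_, fun a b c => n131 (M.at_ a b c) a b c, fun h1 h2 h3 => (enc_sub ((F115 M).enc h1 h2 h3) (ek2 ((F125 M).enc h1 h2 h3)))⟩

noncomputable def F136 (M : MolF) : Fn3 := ⟨_, fun a b c => n136 (M.at_ a b c) a b c, fun h1 h2 h3 => (enc_norm (enc_mul (M.it.enc h1 h2 h3) (enc_norm (enc_mul (M.sK.enc h1 h2 h3) ((F98 M).enc h1 h2 h3)))))⟩

noncomputable def F137 (M : MolF) : Fn3 := ⟨_, fun a b c => n137 (M.at_ a b c) a b c, fun h1 h2 h3 => (enc_norm (enc_add ((F93 M).enc h1 h2 h3) ((F136 M).enc h1 h2 h3)))⟩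

noncomputable def F139 (M : MolF) : Fn3 := ⟨_, fun a b c => n139 (M.at_ a b c) a b c, fun h1 h2 h3 => (enc_norm (enc_add ((F94 M).enc h1 h2 h3) (enc_mul h2 ((F136 M).enc h1 h2 h3))))⟩

noncomputable def F142 (M : MolF) : Fn3 := ⟨_, fun a b c => n142 (M.at_ a b c) a b c, fun h1 h2 h3 => (enc_norm (enc_add (er1_2 _) (enc_mul h2 (M.rs.enc h1 h2 h3))))⟩

noncomputable def F144 (M : MolF) : Fn3 := ⟨_, fun a b c => n144 (M.at_ a b c) a b c, fun h1 h2 h3 => (enc_mul h2 (M.xk.enc h1 h2 h3))⟩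

noncomputable def F145 (M : MolF) : Fn3 := ⟨_, fun a b c => n145 (M.at_ a b c) a b c, fun h1 h2 h3 => (enc_norm (enc_mul (M.sX.enc h1 h2 h3) ((F98 M).enc h1 h2 h3)))⟩

noncomputable def F146 (M : MolF) : Fn3 := ⟨_, fun a b c => n146 (M.at_ a b c) a b c, fun h1 h2 h3 => (enc_norm (enc_add ((F130 M).enc h1 h2 h3) ((F145 M).enc h1 h2 h3)))⟩

noncomputable def F148 (M : MolF) : Fn3 := ⟨_, fun a b c => n148 (M.at_ a b c) a b c, fun h1 h2 h3 => (enc_add ((F131 M).enc h1 h2 h3) (enc_mul h2 ((F145 M).enc h1 h2 h3)))⟩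

noncomputable def F150 (M : MolF) : Fn3 := ⟨_, fun a b c => n150 (M.at_ a b c) a b c, fun h1 h2 h3 => (enc_add ((F129 M).enc h1 h2 h3) (enc_mul h2 (M.l1.enc h1 h2 h3)))⟩

noncomputable def F153 (M : MolF) : Fn3 := ⟨_, fun a b c => n153 (M.at_ a b c) a b c, fun h1 h2 h3 => (enc_sub (M.l1.enc h1 h2 h3) (M.xk.enc h1 h2 h3))⟩

noncomputable def F155 (M : MolF) : Fn3 := ⟨_, fun a b c => n155 (M.at_ a b c) a b c, fun h1 h2 h3 => (enc_norm (enc_sub ((F153 M).enc h1 h2 h3) ((F146 M).enc h1 h2 h3)))⟩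

noncomputable def F160 (M : MolF) : Fn3 := ⟨_, fun a b c => n160 (M.at_ a b c) a b c, fun h1 h2 h3 => (enc_norm (enc_sub (es1_2 (enc_add ((F12 M).enc h1 h2 h3) (es1_2 ((F3 M).enc h1 h2 h3)))) (er1_2 _)))⟩

noncomputable def F168 (M : MolF) : Fn3 := ⟨_, fun a b c => n168 (M.at_ a b c) a b c, fun h1 h2 h3 => (enc_norm (enc_sub (es1_2 (enc_add (enc_add ((F12 M).enc h1 h2 h3) (enc_mul (M.p1.enc h1 h2 h3) ((F16 M).enc h1 h2 h3))) (enc_mul (M.ws.enc h1 h2 h3) ((F3 M).enc h1 h2 h3)))) (es1_2 (enc_abs ((F155 M).enc h1 h2 h3)))))⟩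

noncomputable def F169 (M : MolF) : Fn3 := ⟨_, fun a b c => n169 (M.at_ a b c) a b c, fun h1 h2 h3 => (enc_norm (enc_sub (en1 _) ((F3 M).enc h1 h2 h3)))⟩

noncomputable def F170 (M : MolF) : Fn3 := ⟨_, fun a b c => n170 (M.at_ a b c) a b c, fun h1 h2 h3 => (enc_mul ((F169 M).enc h1 h2 h3) ((F100 M).enc h1 h2 h3))⟩

noncomputable def F172 (M : MolF) : Fn3 := ⟨_, fun a b c => n172 (M.at_ a b c) a b c, fun h1 h2 h3 => (enc_norm (enc_sub ((F169 M).enc h1 h2 h3) h2))⟩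

noncomputable def F173 (M : MolF) : Fn3 := ⟨_, fun a b c => n173 (M.at_ a b c) a b c, fun h1 h2 h3 => (enc_mul ((F172 M).enc h1 h2 h3) ((F139 M).enc h1 h2 h3))⟩

noncomputable def F174 (M : MolF) : Fn3 := ⟨_, fun a b c => n174 (M.at_ a b c) a b c, fun h1 h2 h3 => (enc_norm (enc_sub (enc_add ((F142 M).enc h1 h2 h3) ((F170 M).enc h1 h2 h3)) ((F173 M).enc h1 h2 h3)))⟩

noncomputable def F177 (M : MolF) : Fn3 := ⟨_, fun a b c => n177 (M.at_ a b c) a b c, fun h1 h2 h3 => (enc_norm (enc_add (er1_2 _) (enc_mul ((F169 M).enc h1 h2 h3) (enc_norm (enc_sub ((F95 M).enc h1 h2 h3) ((F92 M).enc h1 h2 h3))))))⟩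

noncomputable def F181 (M : MolF) : Fn3 := ⟨_, fun a b c => n181 (M.at_ a b c) a b c, fun h1 h2 h3 => (enc_mul ((F169 M).enc h1 h2 h3) (M.q1.enc h1 h2 h3))⟩

noncomputable def F182 (M : MolF) : Fn3 := ⟨_, fun a b c => n182 (M.at_ a b c) a b c, fun h1 h2 h3 => (enc_norm (enc_add (enc_sub (enc_add (M.rs.enc h1 h2 h3) ((F139 M).enc h1 h2 h3)) (enc_mul ((F169 M).enc h1 h2 h3) ((F137 M).enc h1 h2 h3))) ((F181 M).enc h1 h2 h3)))⟩

noncomputable def F184 (M : MolF) : Fn3 := ⟨_, fun a b c => n184 (M.at_ a b c) a b c, fun h1 h2 h3 => (enc_add (M.rs.enc h1 h2 h3) (enc_mul ((F3 M).enc h1 h2 h3) ((F100 M).enc h1 h2 h3)))⟩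

noncomputable def F186 (M : MolF) : Fn3 := ⟨_, fun a b c => n186 (M.at_ a b c) a b c, fun h1 h2 h3 => (enc_norm (enc_add (enc_sub ((F184 M).enc h1 h2 h3) ((F142 M).enc h1 h2 h3)) ((F173 M).enc h1 h2 h3)))⟩

noncomputable def F188 (M : MolF) : Fn3 := ⟨_, fun a b c => n188 (M.at_ a b c) a b c, fun h1 h2 h3 => (enc_norm (enc_add (er1_2 _) (enc_mul h2 ((F186 M).enc h1 h2 h3))))⟩

noncomputable def F189 (M : MolF) : Fn3 := ⟨_, fun a b c => n189 (M.at_ a b c) a b c, fun h1 h2 h3 => (enc_norm (enc_add ((F186 M).enc h1 h2 h3) ((F174 M).enc h1 h2 h3)))⟩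

noncomputable def F192 (M : MolF) : Fn3 := ⟨_, fun a b c => n192 (M.at_ a b c) a b c, fun h1 h2 h3 => (enc_mul ((F169 M).enc h1 h2 h3) ((F186 M).enc h1 h2 h3))⟩

noncomputable def F194 (M : MolF) : Fn3 := ⟨_, fun a b c => n194 (M.at_ a b c) a b c, fun h1 h2 h3 => (enc_mul ((F3 M).enc h1 h2 h3) ((F182 M).enc h1 h2 h3))⟩

noncomputable def F195 (M : MolF) : Fn3 := ⟨_, fun a b c => n195 (M.at_ a b c) a b c, fun h1 h2 h3 => (enc_norm (enc_sub ((F186 M).enc h1 h2 h3) ((F194 M).enc h1 h2 h3)))⟩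

noncomputable def F196 (M : MolF) : Fn3 := ⟨_, fun a b c => n196 (M.at_ a b c) a b c, fun h1 h2 h3 => (enc_norm (enc_mul ((F3 M).enc h1 h2 h3) ((F174 M).enc h1 h2 h3)))⟩

noncomputable def F197 (M : MolF) : Fn3 := ⟨_, fun a b c => n197 (M.at_ a b c) a b c, fun h1 h2 h3 => (enc_norm (enc_sub ((F192 M).enc h1 h2 h3) ((F196 M).enc h1 h2 h3)))⟩

noncomputable def F201 (M : MolF) : Fn3 := ⟨_, fun a b c => n201 (M.at_ a b c) a b c, fun h1 h2 h3 => (enc_sub ((F188 M).enc h1 h2 h3) ((F196 M).enc h1 h2 h3))⟩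

noncomputable def F202 (M : MolF) : Fn3 := ⟨_, fun a b c => n202 (M.at_ a b c) a b c, fun h1 h2 h3 => (enc_mul ((F3 M).enc h1 h2 h3) ((F177 M).enc h1 h2 h3))⟩

noncomputable def F205 (M : MolF) : Fn3 := ⟨_, fun a b c => n205 (M.at_ a b c) a b c, fun h1 h2 h3 => (enc_norm (enc_sub (en1 _) h3))⟩

noncomputable def F222 (M : MolF) : Fn3 := ⟨_, fun a b c => n222 (M.at_ a b c) a b c, fun h1 h2 h3 => (enc_norm (enc_sub (er1_2 _) ((F202 M).enc h1 h2 h3)))⟩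

noncomputable def F244 (M : MolF) : Fn3 := ⟨_, fun a b c => n244 (M.at_ a b c) a b c, fun h1 h2 h3 => (enc_norm (enc_mul (es3_2 h3) (enc_inv (enc_add (en1 _) ((F8 M).enc h1 h2 h3)))))⟩

noncomputable def F248 (M : MolF) : Fn3 := ⟨_, fun a b c => n248 (M.at_ a b c) a b c, fun h1 h2 h3 => (enc_norm (enc_mul (enc_norm (es3_2 ((F3 M).enc h1 h2 h3))) (enc_inv (enc_add (en1 _) ((F12 M).enc h1 h2 h3)))))⟩

noncomputable def F250 (M : MolF) : Fn3 := ⟨_, fun a b c => n250 (M.at_ a b c) a b c, fun h1 h2 h3 => (enc_sq ((F248 M).enc h1 h2 h3))⟩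

noncomputable def F251 (M : MolF) : Fn3 := ⟨_, fun a b c => n251 (M.at_ a b c) a b c, fun h1 h2 h3 => (enc_norm (enc_mul ((F244 M).enc h1 h2 h3) ((F248 M).enc h1 h2 h3)))⟩

noncomputable def F255 (M : MolF) : Fn3 := ⟨_, fun a b c => n255 (M.at_ a b c) a b c, fun h1 h2 h3 => (enc_norm (enc_add (en3 _) ((F250 M).enc h1 h2 h3)))⟩

noncomputable def F258 (M : MolF) : Fn3 := ⟨_, fun a b c => n258 (M.at_ a b c) a b c, fun h1 h2 h3 => (enc_norm (enc_sub (en3 _) ((F250 M).enc h1 h2 h3)))⟩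

noncomputable def F259 (M : MolF) : Fn3 := ⟨_, fun a b c => n259 (M.at_ a b c) a b c, fun h1 h2 h3 => (enc_norm (enc_sub (en3 _) ((F251 M).enc h1 h2 h3)))⟩

noncomputable def F263 (M : MolF) : Fn3 := ⟨_, fun a b c => n263 (M.at_ a b c) a b c, fun h1 h2 h3 => (enc_norm (enc_mul (enc_norm (enc_mul (enc_norm (enc_mul ((F15 M).enc h1 h2 h3) ((F64 M).enc h1 h2 h3))) (enc_norm (enc_mul (enc_norm (enc_add (en3 _) (enc_sq ((F244 M).enc h1 h2 h3)))) ((F255 M).enc h1 h2 h3))))) (enc_inv (enc_mul ((F258 M).enc h1 h2 h3) (enc_sq ((F259 M).enc h1 h2 h3))))))⟩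

noncomputable def F267 (M : MolF) : Fn3 := ⟨_, fun a b c => n267 (M.at_ a b c) a b c, fun h1 h2 h3 => (enc_norm (enc_mul (enc_norm (ek9 (enc_sub ((F258 M).enc h1 h2 h3) (ek2 ((F251 M).enc h1 h2 h3))))) ((F255 M).enc h1 h2 h3)))⟩

noncomputable def F273 (M : MolF) : Fn3 := ⟨_, fun a b c => n273 (M.at_ a b c) a b c, fun h1 h2 h3 => (enc_mul ((F251 M).enc h1 h2 h3) ((F248 M).enc h1 h2 h3))⟩

noncomputable def F280 (M : MolF) : Fn3 := ⟨_, fun a b c => n280 (M.at_ a b c) a b c, fun h1 h2 h3 => (enc_norm (enc_mul (enc_norm (ek2 (enc_sub (enc_sub (enc_sub (enc_add (enc_add (en9 _) (ek6 ((F248 M).enc h1 h2 h3))) (ek3 ((F244 M).enc h1 h2 h3))) ((F273 M).enc h1 h2 h3)) (ek3 ((F250 M).enc h1 h2 h3))) (ek6 ((F251 M).enc h1 h2 h3))))) ((F255 M).enc h1 h2 h3)))⟩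

noncomputable def F283 (M : MolF) : Fn3 := ⟨_, fun a b c => n283 (M.at_ a b c) a b c, fun h1 h2 h3 => (enc_inv (ek64 ((F273 M).enc h1 h2 h3)))⟩

noncomputable def F284 (M : MolF) : Fn3 := ⟨_, fun a b c => n284 (M.at_ a b c) a b c, fun h1 h2 h3 => (enc_mul (enc_norm (enc_mul ((F263 M).enc h1 h2 h3) ((F267 M).enc h1 h2 h3))) ((F283 M).enc h1 h2 h3))⟩

noncomputable def F286 (M : MolF) : Fn3 := ⟨_, fun a b c => n286 (M.at_ a b c) a b c, fun h1 h2 h3 => (enc_norm (enc_sub (en1 _) ((F248 M).enc h1 h2 h3)))⟩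

noncomputable def F291 (M : MolF) : Fn3 := ⟨_, fun a b c => n291 (M.at_ a b c) a b c, fun h1 h2 h3 => (enc_inv (enc_mul (ek32 (enc_sq ((F286 M).enc h1 h2 h3))) (enc_norm (enc_sub (en1 _) ((F244 M).enc h1 h2 h3)))))⟩

noncomputable def F292 (M : MolF) : Fn3 := ⟨_, fun a b c => n292 (M.at_ a b c) a b c, fun h1 h2 h3 => (enc_norm (enc_mul (enc_norm (enc_mul ((F263 M).enc h1 h2 h3) ((F280 M).enc h1 h2 h3))) ((F291 M).enc h1 h2 h3)))⟩

noncomputable def F293 (M : MolF) : Fn3 := ⟨_, fun a b c => n293 (M.at_ a b c) a b c, fun h1 h2 h3 => (enc_mul h2 ((F174 M).enc h1 h2 h3))⟩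

noncomputable def F298 (M : MolF) : Fn3 := ⟨_, fun a b c => n298 (M.at_ a b c) a b c, fun h1 h2 h3 => (enc_sq h1)⟩

noncomputable def F300 (M : MolF) : Fn3 := ⟨_, fun a b c => n300 (M.at_ a b c) a b c, fun h1 h2 h3 => (enc_mul ((F298 M).enc h1 h2 h3) (enc_norm (es1_2 ((F284 M).enc h1 h2 h3))))⟩

noncomputable def F304 (M : MolF) : Fn3 := ⟨_, fun a b c => n304 (M.at_ a b c) a b c, fun h1 h2 h3 => (enc_mul ((F298 M).enc h1 h2 h3) (enc_norm (enc_mul ((F292 M).enc h1 h2 h3) (enc_norm (es1_2 ((F169 M).enc h1 h2 h3))))))⟩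

noncomputable def F307 (M : MolF) : Fn3 := ⟨_, fun a b c => n307 (M.at_ a b c) a b c, fun h1 h2 h3 => (enc_norm (enc_add (es1_2 (enc_add (enc_add ((F12 M).enc h1 h2 h3) (enc_mul (M.p1.enc h1 h2 h3) ((F16 M).enc h1 h2 h3))) (enc_mul (M.ws.enc h1 h2 h3) ((F3 M).enc h1 h2 h3)))) (es1_2 (enc_abs ((F155 M).enc h1 h2 h3)))))⟩

noncomputable def F308 (M : MolF) : Fn3 := ⟨_, fun a b c => n308 (M.at_ a b c) a b c, fun h1 h2 h3 => (enc_add (M.rs.enc h1 h2 h3) ((F170 M).enc h1 h2 h3))⟩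

noncomputable def F311 (M : MolF) : Fn3 := ⟨_, fun a b c => n311 (M.at_ a b c) a b c, fun h1 h2 h3 => (enc_norm (enc_add (enc_add ((F308 M).enc h1 h2 h3) (enc_mul ((F30 M).enc h1 h2 h3) ((F139 M).enc h1 h2 h3))) ((F142 M).enc h1 h2 h3)))⟩

noncomputable def F313 (M : MolF) : Fn3 := ⟨_, fun a b c => n313 (M.at_ a b c) a b c, fun h1 h2 h3 => (enc_norm (enc_add (er1_2 _) (enc_mul h2 ((F311 M).enc h1 h2 h3))))⟩

noncomputable def F314 (M : MolF) : Fn3 := ⟨_, fun a b c => n314 (M.at_ a b c) a b c, fun h1 h2 h3 => (enc_norm (enc_sub ((F311 M).enc h1 h2 h3) ((F174 M).enc h1 h2 h3)))⟩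

noncomputable def F315 (M : MolF) : Fn3 := ⟨_, fun a b c => n315 (M.at_ a b c) a b c, fun h1 h2 h3 => (enc_norm (enc_add (en1 _) ((F3 M).enc h1 h2 h3)))⟩

noncomputable def F319 (M : MolF) : Fn3 := ⟨_, fun a b c => n319 (M.at_ a b c) a b c, fun h1 h2 h3 => (enc_mul ((F169 M).enc h1 h2 h3) ((F311 M).enc h1 h2 h3))⟩

noncomputable def F323 (M : MolF) : Fn3 := ⟨_, fun a b c => n323 (M.at_ a b c) a b c, fun h1 h2 h3 => (enc_norm (enc_sub (enc_sub ((F311 M).enc h1 h2 h3) ((F194 M).enc h1 h2 h3)) ((F174 M).enc h1 h2 h3)))⟩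

noncomputable def F325 (M : MolF) : Fn3 := ⟨_, fun a b c => n325 (M.at_ a b c) a b c, fun h1 h2 h3 => (enc_norm (enc_sub ((F313 M).enc h1 h2 h3) (enc_mul ((F30 M).enc h1 h2 h3) ((F174 M).enc h1 h2 h3))))⟩

noncomputable def F326 (M : MolF) : Fn3 := ⟨_, fun a b c => n326 (M.at_ a b c) a b c, fun h1 h2 h3 => (enc_norm (enc_sub ((F319 M).enc h1 h2 h3) ((F325 M).enc h1 h2 h3)))⟩

noncomputable def F372 (M : MolF) : Fn3 := ⟨_, fun a b c => n372 (M.at_ a b c) a b c, fun h1 h2 h3 => (enc_norm (enc_sub ((F3 M).enc h1 h2 h3) h2))⟩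

noncomputable def F376 (M : MolF) : Fn3 := ⟨_, fun a b c => n376 (M.at_ a b c) a b c, fun h1 h2 h3 => (enc_sqrt (enc_sub (en1 _) (es3_4 (enc_sq ((F372 M).enc h1 h2 h3)))))⟩

noncomputable def F381 (M : MolF) : Fn3 := ⟨_, fun a b c => n381 (M.at_ a b c) a b c, fun h1 h2 h3 => (enc_norm (enc_mul (enc_norm (es3_4 (enc_sub (ek2 ((F3 M).enc h1 h2 h3)) h2))) (enc_inv (enc_add ((F12 M).enc h1 h2 h3) ((F376 M).enc h1 h2 h3)))))⟩

noncomputable def F383 (M : MolF) : Fn3 := ⟨_, fun a b c => n383 (M.at_ a b c) a b c, fun h1 h2 h3 => (enc_inv ((F376 M).enc h1 h2 h3))⟩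

noncomputable def F386 (M : MolF) : Fn3 := ⟨_, fun a b c => n386 (M.at_ a b c) a b c, fun h1 h2 h3 => (enc_mul (enc_norm (enc_sub (enc_neg (en1 _)) (enc_mul ((F52 M).enc h1 h2 h3) ((F381 M).enc h1 h2 h3)))) ((F383 M).enc h1 h2 h3))⟩

noncomputable def F387 (M : MolF) : Fn3 := ⟨_, fun a b c => n387 (M.at_ a b c) a b c, fun h1 h2 h3 => (enc_mul ((F372 M).enc h1 h2 h3) ((F383 M).enc h1 h2 h3))⟩

noncomputable def F390 (M : MolF) : Fn3 := ⟨_, fun a b c => n390 (M.at_ a b c) a b c, fun h1 h2 h3 => (enc_norm (enc_sub ((F381 M).enc h1 h2 h3) (er1_2 _)))⟩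

noncomputable def F391 (M : MolF) : Fn3 := ⟨_, fun a b c => n391 (M.at_ a b c) a b c, fun h1 h2 h3 => (enc_add (es1_2 ((F372 M).enc h1 h2 h3)) ((F376 M).enc h1 h2 h3))⟩

noncomputable def F392 (M : MolF) : Fn3 := ⟨_, fun a b c => n392 (M.at_ a b c) a b c, fun h1 h2 h3 => (enc_norm (enc_sub ((F391 M).enc h1 h2 h3) (en1 _)))⟩

noncomputable def F396 (M : MolF) : Fn3 := ⟨_, fun a b c => n396 (M.at_ a b c) a b c, fun h1 h2 h3 => (enc_norm (enc_sub (er1_2 _) (es3_4 ((F387 M).enc h1 h2 h3))))⟩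

noncomputable def F397 (M : MolF) : Fn3 := ⟨_, fun a b c => n397 (M.at_ a b c) a b c, fun h1 h2 h3 => (enc_inv ((F392 M).enc h1 h2 h3))⟩

noncomputable def F400 (M : MolF) : Fn3 := ⟨_, fun a b c => n400 (M.at_ a b c) a b c, fun h1 h2 h3 => (enc_norm (enc_mul (enc_norm (enc_sub (enc_neg (es3_4 ((F386 M).enc h1 h2 h3))) (enc_mul ((F74 M).enc h1 h2 h3) ((F390 M).enc h1 h2 h3)))) ((F397 M).enc h1 h2 h3)))⟩

noncomputable def F401 (M : MolF) : Fn3 := ⟨_, fun a b c => n401 (M.at_ a b c) a b c, fun h1 h2 h3 => (enc_norm (enc_mul ((F396 M).enc h1 h2 h3) ((F397 M).enc h1 h2 h3)))⟩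

noncomputable def F402 (M : MolF) : Fn3 := ⟨_, fun a b c => n402 (M.at_ a b c) a b c, fun h1 h2 h3 => (enc_norm (enc_add ((F12 M).enc h1 h2 h3) (er1_2 _)))⟩

noncomputable def F403 (M : MolF) : Fn3 := ⟨_, fun a b c => n403 (M.at_ a b c) a b c, fun h1 h2 h3 => (enc_norm (enc_add ((F376 M).enc h1 h2 h3) (er1_2 _)))⟩

noncomputable def F404 (M : MolF) : Fn3 := ⟨_, fun a b c => n404 (M.at_ a b c) a b c, fun h1 h2 h3 => (enc_mul ((F402 M).enc h1 h2 h3) ((F74 M).enc h1 h2 h3))⟩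

noncomputable def F407 (M : MolF) : Fn3 := ⟨_, fun a b c => n407 (M.at_ a b c) a b c, fun h1 h2 h3 => (enc_add (enc_mul ((F381 M).enc h1 h2 h3) ((F401 M).enc h1 h2 h3)) (enc_mul ((F402 M).enc h1 h2 h3) ((F400 M).enc h1 h2 h3)))⟩

noncomputable def F408 (M : MolF) : Fn3 := ⟨_, fun a b c => n408 (M.at_ a b c) a b c, fun h1 h2 h3 => (enc_mul ((F403 M).enc h1 h2 h3) ((F401 M).enc h1 h2 h3))⟩

noncomputable def F409 (M : MolF) : Fn3 := ⟨_, fun a b c => n409 (M.at_ a b c) a b c, fun h1 h2 h3 => (enc_norm (enc_add ((F404 M).enc h1 h2 h3) (M.dy.enc h1 h2 h3)))⟩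

noncomputable def F410 (M : MolF) : Fn3 := ⟨_, fun a b c => n410 (M.at_ a b c) a b c, fun h1 h2 h3 => (enc_add ((F407 M).enc h1 h2 h3) (M.d1.enc h1 h2 h3))⟩

noncomputable def F411 (M : MolF) : Fn3 := ⟨_, fun a b c => n411 (M.at_ a b c) a b c, fun h1 h2 h3 => (enc_add ((F408 M).enc h1 h2 h3) ((F84 M).enc h1 h2 h3))⟩

noncomputable def F413 (M : MolF) : Fn3 := ⟨_, fun a b c => n413 (M.at_ a b c) a b c, fun h1 h2 h3 => (enc_norm (enc_add (M.p1.enc h1 h2 h3) (enc_sub (M.ws.enc h1 h2 h3) ((F381 M).enc h1 h2 h3))))⟩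

noncomputable def F416 (M : MolF) : Fn3 := ⟨_, fun a b c => n416 (M.at_ a b c) a b c, fun h1 h2 h3 => (enc_norm (enc_sub (en1 _) ((F376 M).enc h1 h2 h3)))⟩

noncomputable def F419 (M : MolF) : Fn3 := ⟨_, fun a b c => n419 (M.at_ a b c) a b c, fun h1 h2 h3 => (enc_norm (enc_sub (ek2 ((F376 M).enc h1 h2 h3)) (en1 _)))⟩

noncomputable def F423 (M : MolF) : Fn3 := ⟨_, fun a b c => n423 (M.at_ a b c) a b c, fun h1 h2 h3 => (enc_sub (enc_mul ((F102 M).enc h1 h2 h3) (enc_norm (ek2 ((F381 M).enc h1 h2 h3)))) (enc_mul ((F381 M).enc h1 h2 h3) ((F419 M).enc h1 h2 h3)))⟩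

noncomputable def F424 (M : MolF) : Fn3 := ⟨_, fun a b c => n424 (M.at_ a b c) a b c, fun h1 h2 h3 => (enc_mul ((F416 M).enc h1 h2 h3) ((F419 M).enc h1 h2 h3))⟩

noncomputable def F425 (M : MolF) : Fn3 := ⟨_, fun a b c => n425 (M.at_ a b c) a b c, fun h1 h2 h3 => (enc_norm (enc_sub ((F372 M).enc h1 h2 h3) h3))⟩

noncomputable def F427 (M : MolF) : Fn3 := ⟨_, fun a b c => n427 (M.at_ a b c) a b c, fun h1 h2 h3 => (enc_norm (enc_add (enc_mul ((F390 M).enc h1 h2 h3) ((F84 M).enc h1 h2 h3)) ((F119 M).enc h1 h2 h3)))⟩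

noncomputable def F428 (M : MolF) : Fn3 := ⟨_, fun a b c => n428 (M.at_ a b c) a b c, fun h1 h2 h3 => (enc_norm (enc_mul ((F392 M).enc h1 h2 h3) ((F84 M).enc h1 h2 h3)))⟩

noncomputable def F431 (M : MolF) : Fn3 := ⟨_, fun a b c => n431 (M.at_ a b c) a b c, fun h1 h2 h3 => (enc_sub (enc_mul ((F427 M).enc h1 h2 h3) ((F425 M).enc h1 h2 h3)) ((F117 M).enc h1 h2 h3))⟩

noncomputable def F432 (M : MolF) : Fn3 := ⟨_, fun a b c => n432 (M.at_ a b c) a b c, fun h1 h2 h3 => (enc_mul ((F428 M).enc h1 h2 h3) ((F425 M).enc h1 h2 h3))⟩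

noncomputable def F435 (M : MolF) : Fn3 := ⟨_, fun a b c => n435 (M.at_ a b c) a b c, fun h1 h2 h3 => (enc_sub ((F423 M).enc h1 h2 h3) (ek2 ((F431 M).enc h1 h2 h3)))⟩

noncomputable def F436 (M : MolF) : Fn3 := ⟨_, fun a b c => n436 (M.at_ a b c) a b c, fun h1 h2 h3 => (enc_sub ((F424 M).enc h1 h2 h3) (ek2 ((F432 M).enc h1 h2 h3)))⟩

noncomputable def F438 (M : MolF) : Fn3 := ⟨_, fun a b c => n438 (M.at_ a b c) a b c, fun h1 h2 h3 => (enc_norm (enc_mul (M.it.enc h1 h2 h3) (enc_norm (enc_mul (M.sK.enc h1 h2 h3) ((F413 M).enc h1 h2 h3)))))⟩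

noncomputable def F440 (M : MolF) : Fn3 := ⟨_, fun a b c => n440 (M.at_ a b c) a b c, fun h1 h2 h3 => (enc_norm (enc_sub ((F410 M).enc h1 h2 h3) ((F438 M).enc h1 h2 h3)))⟩

noncomputable def F443 (M : MolF) : Fn3 := ⟨_, fun a b c => n443 (M.at_ a b c) a b c, fun h1 h2 h3 => (enc_norm (enc_sub ((F411 M).enc h1 h2 h3) (enc_mul h2 ((F438 M).enc h1 h2 h3))))⟩

noncomputable def F444 (M : MolF) : Fn3 := ⟨_, fun a b c => n444 (M.at_ a b c) a b c, fun h1 h2 h3 => (enc_norm (enc_mul (M.sX.enc h1 h2 h3) ((F413 M).enc h1 h2 h3)))⟩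

noncomputable def F445 (M : MolF) : Fn3 := ⟨_, fun a b c => n445 (M.at_ a b c) a b c, fun h1 h2 h3 => (enc_norm (enc_add ((F435 M).enc h1 h2 h3) ((F444 M).enc h1 h2 h3)))⟩

noncomputable def F447 (M : MolF) : Fn3 := ⟨_, fun a b c => n447 (M.at_ a b c) a b c, fun h1 h2 h3 => (enc_add ((F436 M).enc h1 h2 h3) (enc_mul h2 ((F444 M).enc h1 h2 h3)))⟩

noncomputable def F451 (M : MolF) : Fn3 := ⟨_, fun a b c => n451 (M.at_ a b c) a b c, fun h1 h2 h3 => (enc_sub (M.l1.enc h1 h2 h3) ((F445 M).enc h1 h2 h3))⟩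

noncomputable def F453 (M : MolF) : Fn3 := ⟨_, fun a b c => n453 (M.at_ a b c) a b c, fun h1 h2 h3 => (enc_norm (enc_add ((F451 M).enc h1 h2 h3) (M.xk.enc h1 h2 h3)))⟩

noncomputable def F458 (M : MolF) : Fn3 := ⟨_, fun a b c => n458 (M.at_ a b c) a b c, fun h1 h2 h3 => (enc_norm (enc_sub (es1_2 (enc_add (enc_add ((F12 M).enc h1 h2 h3) (enc_mul (M.p1.enc h1 h2 h3) ((F16 M).enc h1 h2 h3))) (enc_mul (M.ws.enc h1 h2 h3) ((F3 M).enc h1 h2 h3)))) (es1_2 (enc_abs ((F453 M).enc h1 h2 h3)))))⟩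

noncomputable def F460 (M : MolF) : Fn3 := ⟨_, fun a b c => n460 (M.at_ a b c) a b c, fun h1 h2 h3 => (enc_norm (enc_add ((F169 M).enc h1 h2 h3) h2))⟩

noncomputable def F461 (M : MolF) : Fn3 := ⟨_, fun a b c => n461 (M.at_ a b c) a b c, fun h1 h2 h3 => (enc_mul ((F460 M).enc h1 h2 h3) ((F443 M).enc h1 h2 h3))⟩

noncomputable def F462 (M : MolF) : Fn3 := ⟨_, fun a b c => n462 (M.at_ a b c) a b c, fun h1 h2 h3 => (enc_norm (enc_add (enc_sub ((F142 M).enc h1 h2 h3) ((F170 M).enc h1 h2 h3)) ((F461 M).enc h1 h2 h3)))⟩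

noncomputable def F465 (M : MolF) : Fn3 := ⟨_, fun a b c => n465 (M.at_ a b c) a b c, fun h1 h2 h3 => (enc_norm (enc_add (er1_2 _) (enc_mul ((F169 M).enc h1 h2 h3) (enc_norm (enc_sub ((F409 M).enc h1 h2 h3) ((F95 M).enc h1 h2 h3))))))⟩

noncomputable def F469 (M : MolF) : Fn3 := ⟨_, fun a b c => n469 (M.at_ a b c) a b c, fun h1 h2 h3 => (enc_norm (enc_sub (enc_add (enc_add (M.rs.enc h1 h2 h3) (enc_mul ((F169 M).enc h1 h2 h3) ((F440 M).enc h1 h2 h3))) ((F443 M).enc h1 h2 h3)) ((F181 M).enc h1 h2 h3)))⟩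

noncomputable def F472 (M : MolF) : Fn3 := ⟨_, fun a b c => n472 (M.at_ a b c) a b c, fun h1 h2 h3 => (enc_norm (enc_sub (enc_add ((F308 M).enc h1 h2 h3) (enc_mul ((F372 M).enc h1 h2 h3) ((F443 M).enc h1 h2 h3))) ((F142 M).enc h1 h2 h3)))⟩

noncomputable def F474 (M : MolF) : Fn3 := ⟨_, fun a b c => n474 (M.at_ a b c) a b c, fun h1 h2 h3 => (enc_norm (enc_add (er1_2 _) (enc_mul h2 ((F472 M).enc h1 h2 h3))))⟩

noncomputable def F475 (M : MolF) : Fn3 := ⟨_, fun a b c => n475 (M.at_ a b c) a b c, fun h1 h2 h3 => (enc_norm (enc_add ((F472 M).enc h1 h2 h3) ((F462 M).enc h1 h2 h3)))⟩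

noncomputable def F476 (M : MolF) : Fn3 := ⟨_, fun a b c => n476 (M.at_ a b c) a b c, fun h1 h2 h3 => (enc_mul ((F3 M).enc h1 h2 h3) ((F469 M).enc h1 h2 h3))⟩

noncomputable def F480 (M : MolF) : Fn3 := ⟨_, fun a b c => n480 (M.at_ a b c) a b c, fun h1 h2 h3 => (enc_mul ((F169 M).enc h1 h2 h3) ((F472 M).enc h1 h2 h3))⟩

noncomputable def F484 (M : MolF) : Fn3 := ⟨_, fun a b c => n484 (M.at_ a b c) a b c, fun h1 h2 h3 => (enc_norm (enc_add (enc_sub ((F472 M).enc h1 h2 h3) ((F476 M).enc h1 h2 h3)) ((F462 M).enc h1 h2 h3)))⟩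

noncomputable def F486 (M : MolF) : Fn3 := ⟨_, fun a b c => n486 (M.at_ a b c) a b c, fun h1 h2 h3 => (enc_norm (enc_sub ((F474 M).enc h1 h2 h3) (enc_mul ((F372 M).enc h1 h2 h3) ((F462 M).enc h1 h2 h3))))⟩

noncomputable def F487 (M : MolF) : Fn3 := ⟨_, fun a b c => n487 (M.at_ a b c) a b c, fun h1 h2 h3 => (enc_norm (enc_add ((F480 M).enc h1 h2 h3) ((F486 M).enc h1 h2 h3)))⟩

noncomputable def F491 (M : MolF) : Fn3 := ⟨_, fun a b c => n491 (M.at_ a b c) a b c, fun h1 h2 h3 => (enc_mul ((F3 M).enc h1 h2 h3) ((F465 M).enc h1 h2 h3))⟩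

noncomputable def F509 (M : MolF) : Fn3 := ⟨_, fun a b c => n509 (M.at_ a b c) a b c, fun h1 h2 h3 => (enc_norm (enc_sub (er1_2 _) ((F491 M).enc h1 h2 h3)))⟩

noncomputable def F527 (M : MolF) : Fn3 := ⟨_, fun a b c => n527 (M.at_ a b c) a b c, fun h1 h2 h3 => (enc_mul h2 ((F462 M).enc h1 h2 h3))⟩

noncomputable def F536 (M : MolF) : Fn3 := ⟨_, fun a b c => n536 (M.at_ a b c) a b c, fun h1 h2 h3 => (enc_norm (enc_add (es1_2 (enc_add (enc_add ((F12 M).enc h1 h2 h3) (enc_mul (M.p1.enc h1 h2 h3) ((F16 M).enc h1 h2 h3))) (enc_mul (M.ws.enc h1 h2 h3) ((F3 M).enc h1 h2 h3)))) (es1_2 (enc_abs ((F453 M).enc h1 h2 h3)))))⟩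

noncomputable def F538 (M : MolF) : Fn3 := ⟨_, fun a b c => n538 (M.at_ a b c) a b c, fun h1 h2 h3 => (enc_norm (enc_add (enc_add ((F184 M).enc h1 h2 h3) ((F461 M).enc h1 h2 h3)) ((F142 M).enc h1 h2 h3)))⟩

noncomputable def F540 (M : MolF) : Fn3 := ⟨_, fun a b c => n540 (M.at_ a b c) a b c, fun h1 h2 h3 => (enc_norm (enc_add (er1_2 _) (enc_mul h2 ((F538 M).enc h1 h2 h3))))⟩

noncomputable def F541 (M : MolF) : Fn3 := ⟨_, fun a b c => n541 (M.at_ a b c) a b c, fun h1 h2 h3 => (enc_norm (enc_sub ((F538 M).enc h1 h2 h3) ((F462 M).enc h1 h2 h3)))⟩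

noncomputable def F544 (M : MolF) : Fn3 := ⟨_, fun a b c => n544 (M.at_ a b c) a b c, fun h1 h2 h3 => (enc_mul ((F169 M).enc h1 h2 h3) ((F538 M).enc h1 h2 h3))⟩

noncomputable def F546 (M : MolF) : Fn3 := ⟨_, fun a b c => n546 (M.at_ a b c) a b c, fun h1 h2 h3 => (enc_norm (enc_sub ((F538 M).enc h1 h2 h3) ((F476 M).enc h1 h2 h3)))⟩

noncomputable def F548 (M : MolF) : Fn3 := ⟨_, fun a b c => n548 (M.at_ a b c) a b c, fun h1 h2 h3 => (enc_sub ((F540 M).enc h1 h2 h3) (enc_mul ((F3 M).enc h1 h2 h3) ((F462 M).enc h1 h2 h3)))⟩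

noncomputable def F599 (M : MolF) : Fn3 := ⟨_, fun a b c => n599 (M.at_ a b c) a b c, fun h1 h2 h3 => (enc_inv (enc_add (ek2 ((F8 M).enc h1 h2 h3)) (en3 _)))⟩

noncomputable def F601 (M : MolF) : Fn3 := ⟨_, fun a b c => n601 (M.at_ a b c) a b c, fun h1 h2 h3 => (enc_norm (enc_add (es1_2 h3) (er3_2 _)))⟩

noncomputable def F603 (M : MolF) : Fn3 := ⟨_, fun a b c => n603 (M.at_ a b c) a b c, fun h1 h2 h3 => (enc_norm (enc_add (ek2 ((F3 M).enc h1 h2 h3)) (en1 _)))⟩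

noncomputable def F606 (M : MolF) : Fn3 := ⟨_, fun a b c => n606 (M.at_ a b c) a b c, fun h1 h2 h3 => (enc_norm (enc_add (en2 _) ((F3 M).enc h1 h2 h3)))⟩

noncomputable def F609 (M : MolF) : Fn3 := ⟨_, fun a b c => n609 (M.at_ a b c) a b c, fun h1 h2 h3 => (enc_mul ((F3 M).enc h1 h2 h3) (M.l1.enc h1 h2 h3))⟩

noncomputable def F613 (M : MolF) : Fn3 := ⟨_, fun a b c => n613 (M.at_ a b c) a b c, fun h1 h2 h3 => (enc_sub (enc_neg ((F144 M).enc h1 h2 h3)) (enc_mul ((F603 M).enc h1 h2 h3) (M.xk.enc h1 h2 h3)))⟩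

noncomputable def F616 (M : MolF) : Fn3 := ⟨_, fun a b c => n616 (M.at_ a b c) a b c, fun h1 h2 h3 => (enc_add ((F609 M).enc h1 h2 h3) ((F613 M).enc h1 h2 h3))⟩

noncomputable def F620 (M : MolF) : Fn3 := ⟨_, fun a b c => n620 (M.at_ a b c) a b c, fun h1 h2 h3 => (enc_add ((F148 M).enc h1 h2 h3) (enc_mul ((F315 M).enc h1 h2 h3) ((F146 M).enc h1 h2 h3)))⟩

noncomputable def F623 (M : MolF) : Fn3 := ⟨_, fun a b c => n623 (M.at_ a b c) a b c, fun h1 h2 h3 => (enc_sub ((F616 M).enc h1 h2 h3) ((F620 M).enc h1 h2 h3))⟩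

noncomputable def F628 (M : MolF) : Fn3 := ⟨_, fun a b c => n628 (M.at_ a b c) a b c, fun h1 h2 h3 => (enc_sub (enc_neg ((F144 M).enc h1 h2 h3)) (M.xk.enc h1 h2 h3))⟩

noncomputable def F634 (M : MolF) : Fn3 := ⟨_, fun a b c => n634 (M.at_ a b c) a b c, fun h1 h2 h3 => (enc_add (ek2 ((F150 M).enc h1 h2 h3)) (enc_mul ((F606 M).enc h1 h2 h3) (M.l1.enc h1 h2 h3)))⟩

noncomputable def F636 (M : MolF) : Fn3 := ⟨_, fun a b c => n636 (M.at_ a b c) a b c, fun h1 h2 h3 => (enc_add ((F628 M).enc h1 h2 h3) ((F634 M).enc h1 h2 h3))⟩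

noncomputable def F639 (M : MolF) : Fn3 := ⟨_, fun a b c => n639 (M.at_ a b c) a b c, fun h1 h2 h3 => (enc_sub ((F636 M).enc h1 h2 h3) ((F620 M).enc h1 h2 h3))⟩

noncomputable def F644 (M : MolF) : Fn3 := ⟨_, fun a b c => n644 (M.at_ a b c) a b c, fun h1 h2 h3 => (enc_mul ((F155 M).enc h1 h2 h3) ((F601 M).enc h1 h2 h3))⟩

noncomputable def F647 (M : MolF) : Fn3 := ⟨_, fun a b c => n647 (M.at_ a b c) a b c, fun h1 h2 h3 => (enc_sub ((F644 M).enc h1 h2 h3) (es1_2 ((F623 M).enc h1 h2 h3)))⟩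

noncomputable def F649 (M : MolF) : Fn3 := ⟨_, fun a b c => n649 (M.at_ a b c) a b c, fun h1 h2 h3 => (enc_sub (es1_2 ((F639 M).enc h1 h2 h3)) ((F644 M).enc h1 h2 h3))⟩

noncomputable def F651 (M : MolF) : Fn3 := ⟨_, fun a b c => n651 (M.at_ a b c) a b c, fun h1 h2 h3 => (enc_norm (enc_min ((F647 M).enc h1 h2 h3) ((F649 M).enc h1 h2 h3)))⟩

noncomputable def F654 (M : MolF) : Fn3 := ⟨_, fun a b c => n654 (M.at_ a b c) a b c, fun h1 h2 h3 => (enc_norm (enc_add ((F160 M).enc h1 h2 h3) (enc_mul ((F599 M).enc h1 h2 h3) (enc_norm (es1_2 ((F129 M).enc h1 h2 h3))))))⟩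

noncomputable def F656 (M : MolF) : Fn3 := ⟨_, fun a b c => n656 (M.at_ a b c) a b c, fun h1 h2 h3 => (enc_norm (enc_add (es1_2 (enc_add (enc_add ((F12 M).enc h1 h2 h3) (enc_mul (M.p1.enc h1 h2 h3) ((F16 M).enc h1 h2 h3))) (enc_mul (M.ws.enc h1 h2 h3) ((F3 M).enc h1 h2 h3)))) (enc_mul ((F599 M).enc h1 h2 h3) ((F651 M).enc h1 h2 h3))))⟩

noncomputable def F660 (M : MolF) : Fn3 := ⟨_, fun a b c => n660 (M.at_ a b c) a b c, fun h1 h2 h3 => (enc_norm (enc_add (es3_4 h3) (es3_2 (enc_sub (en1 _) ((F8 M).enc h1 h2 h3)))))⟩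

noncomputable def F662 (M : MolF) : Fn3 := ⟨_, fun a b c => n662 (M.at_ a b c) a b c, fun h1 h2 h3 => (enc_norm (enc_add (en1 _) (enc_mul ((F599 M).enc h1 h2 h3) ((F660 M).enc h1 h2 h3))))⟩

noncomputable def F669 (M : MolF) : Fn3 := ⟨_, fun a b c => n669 (M.at_ a b c) a b c, fun h1 h2 h3 => (enc_norm (enc_add (es3_4 ((F3 M).enc h1 h2 h3)) (es3_2 ((F102 M).enc h1 h2 h3))))⟩

noncomputable def F670 (M : MolF) : Fn3 := ⟨_, fun a b c => n670 (M.at_ a b c) a b c, fun h1 h2 h3 => (enc_norm (enc_add (er3_4 _) (es3_2 ((F41 M).enc h1 h2 h3))))⟩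

noncomputable def F671 (M : MolF) : Fn3 := ⟨_, fun a b c => n671 (M.at_ a b c) a b c, fun h1 h2 h3 => (enc_norm (enc_add (es3_4 ((F30 M).enc h1 h2 h3)) (es3_2 ((F103 M).enc h1 h2 h3))))⟩

noncomputable def F675 (M : MolF) : Fn3 := ⟨_, fun a b c => n675 (M.at_ a b c) a b c, fun h1 h2 h3 => (enc_norm (enc_add (es9_8 ((F52 M).enc h1 h2 h3)) (er3_4 _)))⟩

noncomputable def F676 (M : MolF) : Fn3 := ⟨_, fun a b c => n676 (M.at_ a b c) a b c, fun h1 h2 h3 => (enc_norm (enc_add (es9_8 ((F57 M).enc h1 h2 h3)) (er3_4 _)))⟩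

noncomputable def F677 (M : MolF) : Fn3 := ⟨_, fun a b c => n677 (M.at_ a b c) a b c, fun h1 h2 h3 => (enc_mul ((F12 M).enc h1 h2 h3) ((F675 M).enc h1 h2 h3))⟩

noncomputable def F681 (M : MolF) : Fn3 := ⟨_, fun a b c => n681 (M.at_ a b c) a b c, fun h1 h2 h3 => (enc_sub (enc_mul ((F12 M).enc h1 h2 h3) (enc_norm (es9_8 ((F56 M).enc h1 h2 h3)))) (enc_mul ((F41 M).enc h1 h2 h3) ((F676 M).enc h1 h2 h3)))⟩

noncomputable def F682 (M : MolF) : Fn3 := ⟨_, fun a b c => n682 (M.at_ a b c) a b c, fun h1 h2 h3 => (enc_mul ((F34 M).enc h1 h2 h3) ((F676 M).enc h1 h2 h3))⟩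

noncomputable def F683 (M : MolF) : Fn3 := ⟨_, fun a b c => n683 (M.at_ a b c) a b c, fun h1 h2 h3 => (enc_norm (enc_add (es3_4 ((F52 M).enc h1 h2 h3)) (er1_2 _)))⟩

noncomputable def F684 (M : MolF) : Fn3 := ⟨_, fun a b c => n684 (M.at_ a b c) a b c, fun h1 h2 h3 => (enc_norm (enc_add (es3_4 ((F57 M).enc h1 h2 h3)) (er1_2 _)))⟩

noncomputable def F685 (M : MolF) : Fn3 := ⟨_, fun a b c => n685 (M.at_ a b c) a b c, fun h1 h2 h3 => (enc_mul ((F669 M).enc h1 h2 h3) ((F683 M).enc h1 h2 h3))⟩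

noncomputable def F688 (M : MolF) : Fn3 := ⟨_, fun a b c => n688 (M.at_ a b c) a b c, fun h1 h2 h3 => (enc_add (enc_mul ((F670 M).enc h1 h2 h3) ((F684 M).enc h1 h2 h3)) (enc_mul ((F669 M).enc h1 h2 h3) (enc_norm (es3_4 ((F56 M).enc h1 h2 h3)))))⟩

noncomputable def F689 (M : MolF) : Fn3 := ⟨_, fun a b c => n689 (M.at_ a b c) a b c, fun h1 h2 h3 => (enc_mul ((F671 M).enc h1 h2 h3) ((F684 M).enc h1 h2 h3))⟩

noncomputable def F690 (M : MolF) : Fn3 := ⟨_, fun a b c => n690 (M.at_ a b c) a b c, fun h1 h2 h3 => (enc_add ((F677 M).enc h1 h2 h3) ((F685 M).enc h1 h2 h3))⟩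

noncomputable def F691 (M : MolF) : Fn3 := ⟨_, fun a b c => n691 (M.at_ a b c) a b c, fun h1 h2 h3 => (enc_add ((F681 M).enc h1 h2 h3) ((F688 M).enc h1 h2 h3))⟩

noncomputable def F692 (M : MolF) : Fn3 := ⟨_, fun a b c => n692 (M.at_ a b c) a b c, fun h1 h2 h3 => (enc_add ((F682 M).enc h1 h2 h3) ((F689 M).enc h1 h2 h3))⟩

noncomputable def F696 (M : MolF) : Fn3 := ⟨_, fun a b c => n696 (M.at_ a b c) a b c, fun h1 h2 h3 => (enc_sub ((F690 M).enc h1 h2 h3) (es1_2 ((F675 M).enc h1 h2 h3)))⟩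

noncomputable def F697 (M : MolF) : Fn3 := ⟨_, fun a b c => n697 (M.at_ a b c) a b c, fun h1 h2 h3 => (enc_sub ((F691 M).enc h1 h2 h3) (es9_16 ((F56 M).enc h1 h2 h3)))⟩

noncomputable def F698 (M : MolF) : Fn3 := ⟨_, fun a b c => n698 (M.at_ a b c) a b c, fun h1 h2 h3 => (enc_sub ((F692 M).enc h1 h2 h3) (es1_2 ((F676 M).enc h1 h2 h3)))⟩

noncomputable def F699 (M : MolF) : Fn3 := ⟨_, fun a b c => n699 (M.at_ a b c) a b c, fun h1 h2 h3 => (enc_norm (enc_add ((F669 M).enc h1 h2 h3) (ek2 ((F12 M).enc h1 h2 h3))))⟩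

noncomputable def F700 (M : MolF) : Fn3 := ⟨_, fun a b c => n700 (M.at_ a b c) a b c, fun h1 h2 h3 => (enc_norm (enc_sub ((F670 M).enc h1 h2 h3) (ek2 ((F41 M).enc h1 h2 h3))))⟩

noncomputable def F701 (M : MolF) : Fn3 := ⟨_, fun a b c => n701 (M.at_ a b c) a b c, fun h1 h2 h3 => (enc_add ((F671 M).enc h1 h2 h3) (ek2 ((F34 M).enc h1 h2 h3)))⟩

noncomputable def F703 (M : MolF) : Fn3 := ⟨_, fun a b c => n703 (M.at_ a b c) a b c, fun h1 h2 h3 => (enc_norm (enc_sub ((F690 M).enc h1 h2 h3) (enc_mul ((F699 M).enc h1 h2 h3) (M.dy.enc h1 h2 h3))))⟩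

noncomputable def F704 (M : MolF) : Fn3 := ⟨_, fun a b c => n704 (M.at_ a b c) a b c, fun h1 h2 h3 => (enc_norm (enc_sub ((F699 M).enc h1 h2 h3) (en1 _)))⟩

noncomputable def F705 (M : MolF) : Fn3 := ⟨_, fun a b c => n705 (M.at_ a b c) a b c, fun h1 h2 h3 => (enc_norm (enc_sub ((F701 M).enc h1 h2 h3) (en1 _)))⟩

noncomputable def F706 (M : MolF) : Fn3 := ⟨_, fun a b c => n706 (M.at_ a b c) a b c, fun h1 h2 h3 => (enc_mul ((F704 M).enc h1 h2 h3) (M.dy.enc h1 h2 h3))⟩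

noncomputable def F709 (M : MolF) : Fn3 := ⟨_, fun a b c => n709 (M.at_ a b c) a b c, fun h1 h2 h3 => (enc_add (enc_mul ((F700 M).enc h1 h2 h3) ((F84 M).enc h1 h2 h3)) (enc_mul ((F704 M).enc h1 h2 h3) (M.d1.enc h1 h2 h3)))⟩

noncomputable def F710 (M : MolF) : Fn3 := ⟨_, fun a b c => n710 (M.at_ a b c) a b c, fun h1 h2 h3 => (enc_mul ((F705 M).enc h1 h2 h3) ((F84 M).enc h1 h2 h3))⟩

noncomputable def F711 (M : MolF) : Fn3 := ⟨_, fun a b c => n711 (M.at_ a b c) a b c, fun h1 h2 h3 => (enc_norm (enc_sub ((F696 M).enc h1 h2 h3) ((F706 M).enc h1 h2 h3)))⟩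

noncomputable def F712 (M : MolF) : Fn3 := ⟨_, fun a b c => n712 (M.at_ a b c) a b c, fun h1 h2 h3 => (enc_sub ((F697 M).enc h1 h2 h3) ((F709 M).enc h1 h2 h3))⟩

noncomputable def F713 (M : MolF) : Fn3 := ⟨_, fun a b c => n713 (M.at_ a b c) a b c, fun h1 h2 h3 => (enc_sub ((F698 M).enc h1 h2 h3) ((F710 M).enc h1 h2 h3))⟩

noncomputable def F716 (M : MolF) : Fn3 := ⟨_, fun a b c => n716 (M.at_ a b c) a b c, fun h1 h2 h3 => (enc_norm (enc_add ((F703 M).enc h1 h2 h3) (enc_mul h2 (M.m1.enc h1 h2 h3))))⟩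

noncomputable def F718 (M : MolF) : Fn3 := ⟨_, fun a b c => n718 (M.at_ a b c) a b c, fun h1 h2 h3 => (enc_norm (enc_mul (M.it.enc h1 h2 h3) (enc_norm (enc_mul (M.sD.enc h1 h2 h3) ((F98 M).enc h1 h2 h3)))))⟩

noncomputable def F719 (M : MolF) : Fn3 := ⟨_, fun a b c => n719 (M.at_ a b c) a b c, fun h1 h2 h3 => (enc_norm (enc_add ((F712 M).enc h1 h2 h3) ((F718 M).enc h1 h2 h3)))⟩

noncomputable def F721 (M : MolF) : Fn3 := ⟨_, fun a b c => n721 (M.at_ a b c) a b c, fun h1 h2 h3 => (enc_norm (enc_add ((F713 M).enc h1 h2 h3) (enc_mul h2 ((F718 M).enc h1 h2 h3))))⟩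

noncomputable def F722 (M : MolF) : Fn3 := ⟨_, fun a b c => n722 (M.at_ a b c) a b c, fun h1 h2 h3 => (enc_mul ((F95 M).enc h1 h2 h3) ((F662 M).enc h1 h2 h3))⟩

noncomputable def F723 (M : MolF) : Fn3 := ⟨_, fun a b c => n723 (M.at_ a b c) a b c, fun h1 h2 h3 => (enc_mul (M.q1.enc h1 h2 h3) ((F662 M).enc h1 h2 h3))⟩

noncomputable def F724 (M : MolF) : Fn3 := ⟨_, fun a b c => n724 (M.at_ a b c) a b c, fun h1 h2 h3 => (enc_mul ((F100 M).enc h1 h2 h3) ((F662 M).enc h1 h2 h3))⟩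

noncomputable def F725 (M : MolF) : Fn3 := ⟨_, fun a b c => n725 (M.at_ a b c) a b c, fun h1 h2 h3 => (enc_mul ((F703 M).enc h1 h2 h3) ((F599 M).enc h1 h2 h3))⟩

noncomputable def F726 (M : MolF) : Fn3 := ⟨_, fun a b c => n726 (M.at_ a b c) a b c, fun h1 h2 h3 => (enc_mul (M.m1.enc h1 h2 h3) ((F599 M).enc h1 h2 h3))⟩

noncomputable def F727 (M : MolF) : Fn3 := ⟨_, fun a b c => n727 (M.at_ a b c) a b c, fun h1 h2 h3 => (enc_mul ((F716 M).enc h1 h2 h3) ((F599 M).enc h1 h2 h3))⟩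

noncomputable def F728 (M : MolF) : Fn3 := ⟨_, fun a b c => n728 (M.at_ a b c) a b c, fun h1 h2 h3 => (enc_add ((F722 M).enc h1 h2 h3) ((F725 M).enc h1 h2 h3))⟩

noncomputable def F729 (M : MolF) : Fn3 := ⟨_, fun a b c => n729 (M.at_ a b c) a b c, fun h1 h2 h3 => (enc_norm (enc_add ((F723 M).enc h1 h2 h3) ((F726 M).enc h1 h2 h3)))⟩

noncomputable def F730 (M : MolF) : Fn3 := ⟨_, fun a b c => n730 (M.at_ a b c) a b c, fun h1 h2 h3 => (enc_norm (enc_add ((F724 M).enc h1 h2 h3) ((F727 M).enc h1 h2 h3)))⟩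

noncomputable def F731 (M : MolF) : Fn3 := ⟨_, fun a b c => n731 (M.at_ a b c) a b c, fun h1 h2 h3 => (enc_mul ((F92 M).enc h1 h2 h3) ((F662 M).enc h1 h2 h3))⟩

noncomputable def F732 (M : MolF) : Fn3 := ⟨_, fun a b c => n732 (M.at_ a b c) a b c, fun h1 h2 h3 => (enc_mul ((F137 M).enc h1 h2 h3) ((F662 M).enc h1 h2 h3))⟩

noncomputable def F733 (M : MolF) : Fn3 := ⟨_, fun a b c => n733 (M.at_ a b c) a b c, fun h1 h2 h3 => (enc_mul ((F139 M).enc h1 h2 h3) ((F662 M).enc h1 h2 h3))⟩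

noncomputable def F734 (M : MolF) : Fn3 := ⟨_, fun a b c => n734 (M.at_ a b c) a b c, fun h1 h2 h3 => (enc_mul ((F711 M).enc h1 h2 h3) ((F599 M).enc h1 h2 h3))⟩

noncomputable def F735 (M : MolF) : Fn3 := ⟨_, fun a b c => n735 (M.at_ a b c) a b c, fun h1 h2 h3 => (enc_mul ((F719 M).enc h1 h2 h3) ((F599 M).enc h1 h2 h3))⟩

noncomputable def F736 (M : MolF) : Fn3 := ⟨_, fun a b c => n736 (M.at_ a b c) a b c, fun h1 h2 h3 => (enc_mul ((F721 M).enc h1 h2 h3) ((F599 M).enc h1 h2 h3))⟩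

noncomputable def F737 (M : MolF) : Fn3 := ⟨_, fun a b c => n737 (M.at_ a b c) a b c, fun h1 h2 h3 => (enc_add ((F731 M).enc h1 h2 h3) ((F734 M).enc h1 h2 h3))⟩

noncomputable def F738 (M : MolF) : Fn3 := ⟨_, fun a b c => n738 (M.at_ a b c) a b c, fun h1 h2 h3 => (enc_norm (enc_add ((F732 M).enc h1 h2 h3) ((F735 M).enc h1 h2 h3)))⟩

noncomputable def F739 (M : MolF) : Fn3 := ⟨_, fun a b c => n739 (M.at_ a b c) a b c, fun h1 h2 h3 => (enc_norm (enc_add ((F733 M).enc h1 h2 h3) ((F736 M).enc h1 h2 h3)))⟩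

noncomputable def F741 (M : MolF) : Fn3 := ⟨_, fun a b c => n741 (M.at_ a b c) a b c, fun h1 h2 h3 => (enc_norm (enc_mul h2 (M.k2.enc h1 h2 h3)))⟩

noncomputable def F743 (M : MolF) : Fn3 := ⟨_, fun a b c => n743 (M.at_ a b c) a b c, fun h1 h2 h3 => (enc_mul (M.rs.enc h1 h2 h3) ((F662 M).enc h1 h2 h3))⟩

noncomputable def F744 (M : MolF) : Fn3 := ⟨_, fun a b c => n744 (M.at_ a b c) a b c, fun h1 h2 h3 => (enc_mul ((F142 M).enc h1 h2 h3) ((F662 M).enc h1 h2 h3))⟩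

noncomputable def F745 (M : MolF) : Fn3 := ⟨_, fun a b c => n745 (M.at_ a b c) a b c, fun h1 h2 h3 => (enc_mul (M.k2.enc h1 h2 h3) ((F599 M).enc h1 h2 h3))⟩

noncomputable def F746 (M : MolF) : Fn3 := ⟨_, fun a b c => n746 (M.at_ a b c) a b c, fun h1 h2 h3 => (enc_mul ((F741 M).enc h1 h2 h3) ((F599 M).enc h1 h2 h3))⟩

noncomputable def F747 (M : MolF) : Fn3 := ⟨_, fun a b c => n747 (M.at_ a b c) a b c, fun h1 h2 h3 => (enc_add ((F743 M).enc h1 h2 h3) ((F745 M).enc h1 h2 h3))⟩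

noncomputable def F748 (M : MolF) : Fn3 := ⟨_, fun a b c => n748 (M.at_ a b c) a b c, fun h1 h2 h3 => (enc_add ((F744 M).enc h1 h2 h3) ((F746 M).enc h1 h2 h3))⟩

noncomputable def F749 (M : MolF) : Fn3 := ⟨_, fun a b c => n749 (M.at_ a b c) a b c, fun h1 h2 h3 => (enc_mul ((F169 M).enc h1 h2 h3) ((F730 M).enc h1 h2 h3))⟩

noncomputable def F751 (M : MolF) : Fn3 := ⟨_, fun a b c => n751 (M.at_ a b c) a b c, fun h1 h2 h3 => (enc_mul ((F172 M).enc h1 h2 h3) ((F739 M).enc h1 h2 h3))⟩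

noncomputable def F752 (M : MolF) : Fn3 := ⟨_, fun a b c => n752 (M.at_ a b c) a b c, fun h1 h2 h3 => (enc_norm (enc_sub (enc_add ((F748 M).enc h1 h2 h3) ((F749 M).enc h1 h2 h3)) ((F751 M).enc h1 h2 h3)))⟩

noncomputable def F754 (M : MolF) : Fn3 := ⟨_, fun a b c => n754 (M.at_ a b c) a b c, fun h1 h2 h3 => (enc_mul ((F169 M).enc h1 h2 h3) (enc_norm (enc_sub ((F728 M).enc h1 h2 h3) ((F737 M).enc h1 h2 h3))))⟩

noncomputable def F755 (M : MolF) : Fn3 := ⟨_, fun a b c => n755 (M.at_ a b c) a b c, fun h1 h2 h3 => (enc_norm (enc_add (es1_2 ((F662 M).enc h1 h2 h3)) ((F754 M).enc h1 h2 h3)))⟩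

noncomputable def F757 (M : MolF) : Fn3 := ⟨_, fun a b c => n757 (M.at_ a b c) a b c, fun h1 h2 h3 => (enc_mul ((F169 M).enc h1 h2 h3) ((F738 M).enc h1 h2 h3))⟩

noncomputable def F759 (M : MolF) : Fn3 := ⟨_, fun a b c => n759 (M.at_ a b c) a b c, fun h1 h2 h3 => (enc_mul ((F169 M).enc h1 h2 h3) ((F729 M).enc h1 h2 h3))⟩

noncomputable def F760 (M : MolF) : Fn3 := ⟨_, fun a b c => n760 (M.at_ a b c) a b c, fun h1 h2 h3 => (enc_norm (enc_add (enc_sub (enc_add ((F747 M).enc h1 h2 h3) ((F739 M).enc h1 h2 h3)) ((F757 M).enc h1 h2 h3)) ((F759 M).enc h1 h2 h3)))⟩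

noncomputable def F761 (M : MolF) : Fn3 := ⟨_, fun a b c => n761 (M.at_ a b c) a b c, fun h1 h2 h3 => (enc_mul ((F3 M).enc h1 h2 h3) ((F730 M).enc h1 h2 h3))⟩

noncomputable def F762 (M : MolF) : Fn3 := ⟨_, fun a b c => n762 (M.at_ a b c) a b c, fun h1 h2 h3 => (enc_add ((F747 M).enc h1 h2 h3) ((F761 M).enc h1 h2 h3))⟩

noncomputable def F764 (M : MolF) : Fn3 := ⟨_, fun a b c => n764 (M.at_ a b c) a b c, fun h1 h2 h3 => (enc_norm (enc_add (enc_sub ((F762 M).enc h1 h2 h3) ((F748 M).enc h1 h2 h3)) ((F751 M).enc h1 h2 h3)))⟩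

noncomputable def F766 (M : MolF) : Fn3 := ⟨_, fun a b c => n766 (M.at_ a b c) a b c, fun h1 h2 h3 => (enc_norm (enc_add (es1_2 ((F662 M).enc h1 h2 h3)) (enc_mul h2 ((F764 M).enc h1 h2 h3))))⟩

noncomputable def F767 (M : MolF) : Fn3 := ⟨_, fun a b c => n767 (M.at_ a b c) a b c, fun h1 h2 h3 => (enc_norm (enc_add ((F764 M).enc h1 h2 h3) ((F752 M).enc h1 h2 h3)))⟩

noncomputable def F770 (M : MolF) : Fn3 := ⟨_, fun a b c => n770 (M.at_ a b c) a b c, fun h1 h2 h3 => (enc_mul ((F169 M).enc h1 h2 h3) ((F764 M).enc h1 h2 h3))⟩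

noncomputable def F772 (M : MolF) : Fn3 := ⟨_, fun a b c => n772 (M.at_ a b c) a b c, fun h1 h2 h3 => (enc_mul ((F3 M).enc h1 h2 h3) ((F760 M).enc h1 h2 h3))⟩

noncomputable def F773 (M : MolF) : Fn3 := ⟨_, fun a b c => n773 (M.at_ a b c) a b c, fun h1 h2 h3 => (enc_norm (enc_sub ((F764 M).enc h1 h2 h3) ((F772 M).enc h1 h2 h3)))⟩

noncomputable def F774 (M : MolF) : Fn3 := ⟨_, fun a b c => n774 (M.at_ a b c) a b c, fun h1 h2 h3 => (enc_norm (enc_mul ((F3 M).enc h1 h2 h3) ((F752 M).enc h1 h2 h3)))⟩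

noncomputable def F775 (M : MolF) : Fn3 := ⟨_, fun a b c => n775 (M.at_ a b c) a b c, fun h1 h2 h3 => (enc_norm (enc_sub ((F770 M).enc h1 h2 h3) ((F774 M).enc h1 h2 h3)))⟩

noncomputable def F779 (M : MolF) : Fn3 := ⟨_, fun a b c => n779 (M.at_ a b c) a b c, fun h1 h2 h3 => (enc_sub ((F766 M).enc h1 h2 h3) ((F774 M).enc h1 h2 h3))⟩

noncomputable def F780 (M : MolF) : Fn3 := ⟨_, fun a b c => n780 (M.at_ a b c) a b c, fun h1 h2 h3 => (enc_mul ((F3 M).enc h1 h2 h3) ((F755 M).enc h1 h2 h3))⟩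

noncomputable def F781 (M : MolF) : Fn3 := ⟨_, fun a b c => n781 (M.at_ a b c) a b c, fun h1 h2 h3 => (enc_norm (enc_mul ((F169 M).enc h1 h2 h3) (enc_norm (es1_2 ((F662 M).enc h1 h2 h3)))))⟩

noncomputable def F799 (M : MolF) : Fn3 := ⟨_, fun a b c => n799 (M.at_ a b c) a b c, fun h1 h2 h3 => (enc_norm (enc_sub (es1_2 ((F662 M).enc h1 h2 h3)) ((F780 M).enc h1 h2 h3)))⟩

noncomputable def F800 (M : MolF) : Fn3 := ⟨_, fun a b c => n800 (M.at_ a b c) a b c, fun h1 h2 h3 => (enc_norm (enc_mul ((F3 M).enc h1 h2 h3) (enc_norm (es1_2 ((F662 M).enc h1 h2 h3)))))⟩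

noncomputable def F833 (M : MolF) : Fn3 := ⟨_, fun a b c => n833 (M.at_ a b c) a b c, fun h1 h2 h3 => (enc_norm (enc_mul ((F259 M).enc h1 h2 h3) ((F258 M).enc h1 h2 h3)))⟩

noncomputable def F838 (M : MolF) : Fn3 := ⟨_, fun a b c => n838 (M.at_ a b c) a b c, fun h1 h2 h3 => (enc_norm (enc_add (enc_mul ((F662 M).enc h1 h2 h3) ((F267 M).enc h1 h2 h3)) (enc_mul ((F599 M).enc h1 h2 h3) (enc_norm (enc_mul (enc_norm (ek3 ((F248 M).enc h1 h2 h3))) (enc_norm (enc_sub (enc_add (enc_sub (enc_sub (enc_sub (enc_add (en27 _) (ek27 ((F248 M).enc h1 h2 h3))) (ek9 ((F250 M).enc h1 h2 h3))) (enc_mul (ek9 ((F250 M).enc h1 h2 h3)) ((F248 M).enc h1 h2 h3))) (enc_mul (enc_norm (ek18 ((F251 M).enc h1 h2 h3))) ((F248 M).enc h1 h2 h3))) (enc_mul (enc_norm (ek6 ((F251 M).enc h1 h2 h3))) ((F250 M).enc h1 h2 h3))) (enc_mul (ek8 (M.dy.enc h1 h2 h3)) ((F833 M).enc h1 h2 h3)))))))))⟩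

noncomputable def F857 (M : MolF) : Fn3 := ⟨_, fun a b c => n857 (M.at_ a b c) a b c, fun h1 h2 h3 => (enc_norm (enc_sub (enc_mul ((F662 M).enc h1 h2 h3) ((F280 M).enc h1 h2 h3)) (enc_mul ((F599 M).enc h1 h2 h3) (enc_norm (enc_mul ((F286 M).enc h1 h2 h3) (enc_norm (enc_sub (ek6 (enc_add (enc_sub (enc_sub (enc_sub (enc_add (en18 _) (ek9 ((F248 M).enc h1 h2 h3))) (ek3 ((F251 M).enc h1 h2 h3))) (enc_mul (ek3 ((F250 M).enc h1 h2 h3)) ((F248 M).enc h1 h2 h3))) (enc_mul (enc_norm (ek6 ((F251 M).enc h1 h2 h3))) ((F248 M).enc h1 h2 h3))) (enc_mul ((F251 M).enc h1 h2 h3) ((F250 M).enc h1 h2 h3)))) (enc_mul (ek16 (M.dy.enc h1 h2 h3)) ((F833 M).enc h1 h2 h3)))))))))⟩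

noncomputable def F859 (M : MolF) : Fn3 := ⟨_, fun a b c => n859 (M.at_ a b c) a b c, fun h1 h2 h3 => (enc_norm (enc_mul (enc_norm (enc_mul ((F263 M).enc h1 h2 h3) ((F838 M).enc h1 h2 h3))) ((F283 M).enc h1 h2 h3)))⟩

noncomputable def F861 (M : MolF) : Fn3 := ⟨_, fun a b c => n861 (M.at_ a b c) a b c, fun h1 h2 h3 => (enc_norm (enc_mul (enc_norm (enc_mul ((F263 M).enc h1 h2 h3) ((F857 M).enc h1 h2 h3))) ((F291 M).enc h1 h2 h3)))⟩

noncomputable def F862 (M : MolF) : Fn3 := ⟨_, fun a b c => n862 (M.at_ a b c) a b c, fun h1 h2 h3 => (enc_mul h2 ((F752 M).enc h1 h2 h3))⟩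

noncomputable def F868 (M : MolF) : Fn3 := ⟨_, fun a b c => n868 (M.at_ a b c) a b c, fun h1 h2 h3 => (enc_mul ((F298 M).enc h1 h2 h3) (enc_norm (enc_mul ((F859 M).enc h1 h2 h3) (enc_norm (es1_2 ((F662 M).enc h1 h2 h3))))))⟩

noncomputable def F872 (M : MolF) : Fn3 := ⟨_, fun a b c => n872 (M.at_ a b c) a b c, fun h1 h2 h3 => (enc_mul ((F298 M).enc h1 h2 h3) (enc_norm (enc_mul ((F861 M).enc h1 h2 h3) ((F781 M).enc h1 h2 h3))))⟩

noncomputable def F875 (M : MolF) : Fn3 := ⟨_, fun a b c => n875 (M.at_ a b c) a b c, fun h1 h2 h3 => (enc_norm (enc_max ((F647 M).enc h1 h2 h3) ((F649 M).enc h1 h2 h3)))⟩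

noncomputable def F877 (M : MolF) : Fn3 := ⟨_, fun a b c => n877 (M.at_ a b c) a b c, fun h1 h2 h3 => (enc_norm (enc_add (es1_2 (enc_add (enc_add ((F12 M).enc h1 h2 h3) (enc_mul (M.p1.enc h1 h2 h3) ((F16 M).enc h1 h2 h3))) (enc_mul (M.ws.enc h1 h2 h3) ((F3 M).enc h1 h2 h3)))) (enc_mul ((F599 M).enc h1 h2 h3) ((F875 M).enc h1 h2 h3))))⟩

noncomputable def F878 (M : MolF) : Fn3 := ⟨_, fun a b c => n878 (M.at_ a b c) a b c, fun h1 h2 h3 => (enc_add ((F747 M).enc h1 h2 h3) ((F749 M).enc h1 h2 h3))⟩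

noncomputable def F879 (M : MolF) : Fn3 := ⟨_, fun a b c => n879 (M.at_ a b c) a b c, fun h1 h2 h3 => (enc_mul ((F30 M).enc h1 h2 h3) ((F739 M).enc h1 h2 h3))⟩

noncomputable def F881 (M : MolF) : Fn3 := ⟨_, fun a b c => n881 (M.at_ a b c) a b c, fun h1 h2 h3 => (enc_norm (enc_add (enc_add ((F878 M).enc h1 h2 h3) ((F879 M).enc h1 h2 h3)) ((F748 M).enc h1 h2 h3)))⟩

noncomputable def F883 (M : MolF) : Fn3 := ⟨_, fun a b c => n883 (M.at_ a b c) a b c, fun h1 h2 h3 => (enc_norm (enc_add (es1_2 ((F662 M).enc h1 h2 h3)) (enc_mul h2 ((F881 M).enc h1 h2 h3))))⟩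

noncomputable def F884 (M : MolF) : Fn3 := ⟨_, fun a b c => n884 (M.at_ a b c) a b c, fun h1 h2 h3 => (enc_norm (enc_sub ((F881 M).enc h1 h2 h3) ((F752 M).enc h1 h2 h3)))⟩

noncomputable def F887 (M : MolF) : Fn3 := ⟨_, fun a b c => n887 (M.at_ a b c) a b c, fun h1 h2 h3 => (enc_mul ((F169 M).enc h1 h2 h3) ((F881 M).enc h1 h2 h3))⟩

noncomputable def F891 (M : MolF) : Fn3 := ⟨_, fun a b c => n891 (M.at_ a b c) a b c, fun h1 h2 h3 => (enc_norm (enc_sub (enc_sub ((F881 M).enc h1 h2 h3) ((F772 M).enc h1 h2 h3)) ((F752 M).enc h1 h2 h3)))⟩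

noncomputable def F893 (M : MolF) : Fn3 := ⟨_, fun a b c => n893 (M.at_ a b c) a b c, fun h1 h2 h3 => (enc_norm (enc_sub ((F883 M).enc h1 h2 h3) (enc_mul ((F30 M).enc h1 h2 h3) ((F752 M).enc h1 h2 h3))))⟩

noncomputable def F894 (M : MolF) : Fn3 := ⟨_, fun a b c => n894 (M.at_ a b c) a b c, fun h1 h2 h3 => (enc_norm (enc_sub ((F887 M).enc h1 h2 h3) ((F893 M).enc h1 h2 h3)))⟩

noncomputable def F941 (M : MolF) : Fn3 := ⟨_, fun a b c => n941 (M.at_ a b c) a b c, fun h1 h2 h3 => (enc_norm (enc_add (ek2 ((F3 M).enc h1 h2 h3)) ((F169 M).enc h1 h2 h3)))⟩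

noncomputable def F945 (M : MolF) : Fn3 := ⟨_, fun a b c => n945 (M.at_ a b c) a b c, fun h1 h2 h3 => (enc_norm (enc_add (ek2 ((F169 M).enc h1 h2 h3)) ((F3 M).enc h1 h2 h3)))⟩

noncomputable def F951 (M : MolF) : Fn3 := ⟨_, fun a b c => n951 (M.at_ a b c) a b c, fun h1 h2 h3 => (enc_sub (enc_neg ((F447 M).enc h1 h2 h3)) (enc_mul ((F941 M).enc h1 h2 h3) ((F445 M).enc h1 h2 h3)))⟩

noncomputable def F955 (M : MolF) : Fn3 := ⟨_, fun a b c => n955 (M.at_ a b c) a b c, fun h1 h2 h3 => (enc_add ((F609 M).enc h1 h2 h3) ((F951 M).enc h1 h2 h3))⟩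

noncomputable def F957 (M : MolF) : Fn3 := ⟨_, fun a b c => n957 (M.at_ a b c) a b c, fun h1 h2 h3 => (enc_sub ((F955 M).enc h1 h2 h3) ((F628 M).enc h1 h2 h3))⟩

noncomputable def F966 (M : MolF) : Fn3 := ⟨_, fun a b c => n966 (M.at_ a b c) a b c, fun h1 h2 h3 => (enc_sub (enc_neg ((F447 M).enc h1 h2 h3)) (enc_mul ((F169 M).enc h1 h2 h3) ((F445 M).enc h1 h2 h3)))⟩

noncomputable def F971 (M : MolF) : Fn3 := ⟨_, fun a b c => n971 (M.at_ a b c) a b c, fun h1 h2 h3 => (enc_add (ek2 ((F150 M).enc h1 h2 h3)) (enc_mul ((F945 M).enc h1 h2 h3) (M.l1.enc h1 h2 h3)))⟩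

noncomputable def F974 (M : MolF) : Fn3 := ⟨_, fun a b c => n974 (M.at_ a b c) a b c, fun h1 h2 h3 => (enc_add ((F966 M).enc h1 h2 h3) ((F971 M).enc h1 h2 h3))⟩

noncomputable def F976 (M : MolF) : Fn3 := ⟨_, fun a b c => n976 (M.at_ a b c) a b c, fun h1 h2 h3 => (enc_sub ((F974 M).enc h1 h2 h3) ((F628 M).enc h1 h2 h3))⟩

noncomputable def F981 (M : MolF) : Fn3 := ⟨_, fun a b c => n981 (M.at_ a b c) a b c, fun h1 h2 h3 => (enc_mul ((F453 M).enc h1 h2 h3) ((F601 M).enc h1 h2 h3))⟩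

noncomputable def F984 (M : MolF) : Fn3 := ⟨_, fun a b c => n984 (M.at_ a b c) a b c, fun h1 h2 h3 => (enc_sub ((F981 M).enc h1 h2 h3) (es1_2 ((F957 M).enc h1 h2 h3)))⟩

noncomputable def F986 (M : MolF) : Fn3 := ⟨_, fun a b c => n986 (M.at_ a b c) a b c, fun h1 h2 h3 => (enc_sub (es1_2 ((F976 M).enc h1 h2 h3)) ((F981 M).enc h1 h2 h3))⟩

noncomputable def F988 (M : MolF) : Fn3 := ⟨_, fun a b c => n988 (M.at_ a b c) a b c, fun h1 h2 h3 => (enc_norm (enc_min ((F984 M).enc h1 h2 h3) ((F986 M).enc h1 h2 h3)))⟩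

noncomputable def F990 (M : MolF) : Fn3 := ⟨_, fun a b c => n990 (M.at_ a b c) a b c, fun h1 h2 h3 => (enc_norm (enc_add (es1_2 (enc_add (enc_add ((F12 M).enc h1 h2 h3) (enc_mul (M.p1.enc h1 h2 h3) ((F16 M).enc h1 h2 h3))) (enc_mul (M.ws.enc h1 h2 h3) ((F3 M).enc h1 h2 h3)))) (enc_mul ((F599 M).enc h1 h2 h3) ((F988 M).enc h1 h2 h3))))⟩

noncomputable def F996 (M : MolF) : Fn3 := ⟨_, fun a b c => n996 (M.at_ a b c) a b c, fun h1 h2 h3 => (enc_norm (enc_sub (enc_neg (er3_4 _)) (es3_2 ((F381 M).enc h1 h2 h3))))⟩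

noncomputable def F997 (M : MolF) : Fn3 := ⟨_, fun a b c => n997 (M.at_ a b c) a b c, fun h1 h2 h3 => (enc_norm (enc_add (es3_4 ((F372 M).enc h1 h2 h3)) (es3_2 ((F416 M).enc h1 h2 h3))))⟩

noncomputable def F1000 (M : MolF) : Fn3 := ⟨_, fun a b c => n1000 (M.at_ a b c) a b c, fun h1 h2 h3 => (enc_norm (enc_add (es9_8 ((F387 M).enc h1 h2 h3)) (er3_4 _)))⟩

noncomputable def F1003 (M : MolF) : Fn3 := ⟨_, fun a b c => n1003 (M.at_ a b c) a b c, fun h1 h2 h3 => (enc_add (enc_mul ((F381 M).enc h1 h2 h3) ((F1000 M).enc h1 h2 h3)) (enc_mul ((F12 M).enc h1 h2 h3) (enc_norm (es9_8 ((F386 M).enc h1 h2 h3)))))⟩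

noncomputable def F1004 (M : MolF) : Fn3 := ⟨_, fun a b c => n1004 (M.at_ a b c) a b c, fun h1 h2 h3 => (enc_mul ((F376 M).enc h1 h2 h3) ((F1000 M).enc h1 h2 h3))⟩

noncomputable def F1005 (M : MolF) : Fn3 := ⟨_, fun a b c => n1005 (M.at_ a b c) a b c, fun h1 h2 h3 => (enc_norm (enc_add (es3_4 ((F387 M).enc h1 h2 h3)) (er1_2 _)))⟩

noncomputable def F1008 (M : MolF) : Fn3 := ⟨_, fun a b c => n1008 (M.at_ a b c) a b c, fun h1 h2 h3 => (enc_add (enc_mul ((F996 M).enc h1 h2 h3) ((F1005 M).enc h1 h2 h3)) (enc_mul ((F669 M).enc h1 h2 h3) (enc_norm (es3_4 ((F386 M).enc h1 h2 h3)))))⟩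

noncomputable def F1009 (M : MolF) : Fn3 := ⟨_, fun a b c => n1009 (M.at_ a b c) a b c, fun h1 h2 h3 => (enc_mul ((F997 M).enc h1 h2 h3) ((F1005 M).enc h1 h2 h3))⟩

noncomputable def F1010 (M : MolF) : Fn3 := ⟨_, fun a b c => n1010 (M.at_ a b c) a b c, fun h1 h2 h3 => (enc_add ((F1003 M).enc h1 h2 h3) ((F1008 M).enc h1 h2 h3))⟩

noncomputable def F1011 (M : MolF) : Fn3 := ⟨_, fun a b c => n1011 (M.at_ a b c) a b c, fun h1 h2 h3 => (enc_add ((F1004 M).enc h1 h2 h3) ((F1009 M).enc h1 h2 h3))⟩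

noncomputable def F1014 (M : MolF) : Fn3 := ⟨_, fun a b c => n1014 (M.at_ a b c) a b c, fun h1 h2 h3 => (enc_add ((F690 M).enc h1 h2 h3) (es1_2 ((F675 M).enc h1 h2 h3)))⟩

noncomputable def F1015 (M : MolF) : Fn3 := ⟨_, fun a b c => n1015 (M.at_ a b c) a b c, fun h1 h2 h3 => (enc_add ((F1010 M).enc h1 h2 h3) (es9_16 ((F386 M).enc h1 h2 h3)))⟩

noncomputable def F1016 (M : MolF) : Fn3 := ⟨_, fun a b c => n1016 (M.at_ a b c) a b c, fun h1 h2 h3 => (enc_add ((F1011 M).enc h1 h2 h3) (es1_2 ((F1000 M).enc h1 h2 h3)))⟩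

noncomputable def F1017 (M : MolF) : Fn3 := ⟨_, fun a b c => n1017 (M.at_ a b c) a b c, fun h1 h2 h3 => (enc_norm (enc_add ((F996 M).enc h1 h2 h3) (ek2 ((F381 M).enc h1 h2 h3))))⟩

noncomputable def F1018 (M : MolF) : Fn3 := ⟨_, fun a b c => n1018 (M.at_ a b c) a b c, fun h1 h2 h3 => (enc_add ((F997 M).enc h1 h2 h3) (ek2 ((F376 M).enc h1 h2 h3)))⟩

noncomputable def F1019 (M : MolF) : Fn3 := ⟨_, fun a b c => n1019 (M.at_ a b c) a b c, fun h1 h2 h3 => (enc_norm (enc_add ((F699 M).enc h1 h2 h3) (en1 _)))⟩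

noncomputable def F1020 (M : MolF) : Fn3 := ⟨_, fun a b c => n1020 (M.at_ a b c) a b c, fun h1 h2 h3 => (enc_norm (enc_add ((F1018 M).enc h1 h2 h3) (en1 _)))⟩

noncomputable def F1021 (M : MolF) : Fn3 := ⟨_, fun a b c => n1021 (M.at_ a b c) a b c, fun h1 h2 h3 => (enc_mul ((F1019 M).enc h1 h2 h3) (M.dy.enc h1 h2 h3))⟩

noncomputable def F1024 (M : MolF) : Fn3 := ⟨_, fun a b c => n1024 (M.at_ a b c) a b c, fun h1 h2 h3 => (enc_add (enc_mul ((F1017 M).enc h1 h2 h3) ((F84 M).enc h1 h2 h3)) (enc_mul ((F1019 M).enc h1 h2 h3) (M.d1.enc h1 h2 h3)))⟩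

noncomputable def F1025 (M : MolF) : Fn3 := ⟨_, fun a b c => n1025 (M.at_ a b c) a b c, fun h1 h2 h3 => (enc_mul ((F1020 M).enc h1 h2 h3) ((F84 M).enc h1 h2 h3))⟩

noncomputable def F1026 (M : MolF) : Fn3 := ⟨_, fun a b c => n1026 (M.at_ a b c) a b c, fun h1 h2 h3 => (enc_norm (enc_sub ((F1014 M).enc h1 h2 h3) ((F1021 M).enc h1 h2 h3)))⟩

noncomputable def F1027 (M : MolF) : Fn3 := ⟨_, fun a b c => n1027 (M.at_ a b c) a b c, fun h1 h2 h3 => (enc_sub ((F1015 M).enc h1 h2 h3) ((F1024 M).enc h1 h2 h3))⟩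

noncomputable def F1028 (M : MolF) : Fn3 := ⟨_, fun a b c => n1028 (M.at_ a b c) a b c, fun h1 h2 h3 => (enc_sub ((F1016 M).enc h1 h2 h3) ((F1025 M).enc h1 h2 h3))⟩

noncomputable def F1030 (M : MolF) : Fn3 := ⟨_, fun a b c => n1030 (M.at_ a b c) a b c, fun h1 h2 h3 => (enc_norm (enc_mul (M.it.enc h1 h2 h3) (enc_norm (enc_mul (M.sD.enc h1 h2 h3) ((F413 M).enc h1 h2 h3)))))⟩

noncomputable def F1032 (M : MolF) : Fn3 := ⟨_, fun a b c => n1032 (M.at_ a b c) a b c, fun h1 h2 h3 => (enc_norm (enc_sub ((F1027 M).enc h1 h2 h3) ((F1030 M).enc h1 h2 h3)))⟩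

noncomputable def F1035 (M : MolF) : Fn3 := ⟨_, fun a b c => n1035 (M.at_ a b c) a b c, fun h1 h2 h3 => (enc_norm (enc_sub ((F1028 M).enc h1 h2 h3) (enc_mul h2 ((F1030 M).enc h1 h2 h3))))⟩

noncomputable def F1036 (M : MolF) : Fn3 := ⟨_, fun a b c => n1036 (M.at_ a b c) a b c, fun h1 h2 h3 => (enc_mul ((F409 M).enc h1 h2 h3) ((F662 M).enc h1 h2 h3))⟩

noncomputable def F1037 (M : MolF) : Fn3 := ⟨_, fun a b c => n1037 (M.at_ a b c) a b c, fun h1 h2 h3 => (enc_mul ((F440 M).enc h1 h2 h3) ((F662 M).enc h1 h2 h3))⟩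

noncomputable def F1038 (M : MolF) : Fn3 := ⟨_, fun a b c => n1038 (M.at_ a b c) a b c, fun h1 h2 h3 => (enc_mul ((F443 M).enc h1 h2 h3) ((F662 M).enc h1 h2 h3))⟩

noncomputable def F1039 (M : MolF) : Fn3 := ⟨_, fun a b c => n1039 (M.at_ a b c) a b c, fun h1 h2 h3 => (enc_mul ((F1026 M).enc h1 h2 h3) ((F599 M).enc h1 h2 h3))⟩

noncomputable def F1040 (M : MolF) : Fn3 := ⟨_, fun a b c => n1040 (M.at_ a b c) a b c, fun h1 h2 h3 => (enc_mul ((F1032 M).enc h1 h2 h3) ((F599 M).enc h1 h2 h3))⟩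

noncomputable def F1041 (M : MolF) : Fn3 := ⟨_, fun a b c => n1041 (M.at_ a b c) a b c, fun h1 h2 h3 => (enc_mul ((F1035 M).enc h1 h2 h3) ((F599 M).enc h1 h2 h3))⟩

noncomputable def F1042 (M : MolF) : Fn3 := ⟨_, fun a b c => n1042 (M.at_ a b c) a b c, fun h1 h2 h3 => (enc_add ((F1036 M).enc h1 h2 h3) ((F1039 M).enc h1 h2 h3))⟩

noncomputable def F1043 (M : MolF) : Fn3 := ⟨_, fun a b c => n1043 (M.at_ a b c) a b c, fun h1 h2 h3 => (enc_norm (enc_add ((F1037 M).enc h1 h2 h3) ((F1040 M).enc h1 h2 h3)))⟩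

noncomputable def F1044 (M : MolF) : Fn3 := ⟨_, fun a b c => n1044 (M.at_ a b c) a b c, fun h1 h2 h3 => (enc_norm (enc_add ((F1038 M).enc h1 h2 h3) ((F1041 M).enc h1 h2 h3)))⟩

noncomputable def F1046 (M : MolF) : Fn3 := ⟨_, fun a b c => n1046 (M.at_ a b c) a b c, fun h1 h2 h3 => (enc_mul ((F460 M).enc h1 h2 h3) ((F1044 M).enc h1 h2 h3))⟩

noncomputable def F1047 (M : MolF) : Fn3 := ⟨_, fun a b c => n1047 (M.at_ a b c) a b c, fun h1 h2 h3 => (enc_norm (enc_add (enc_sub ((F748 M).enc h1 h2 h3) ((F749 M).enc h1 h2 h3)) ((F1046 M).enc h1 h2 h3)))⟩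

noncomputable def F1049 (M : MolF) : Fn3 := ⟨_, fun a b c => n1049 (M.at_ a b c) a b c, fun h1 h2 h3 => (enc_mul ((F169 M).enc h1 h2 h3) (enc_norm (enc_sub ((F1042 M).enc h1 h2 h3) ((F728 M).enc h1 h2 h3))))⟩

noncomputable def F1050 (M : MolF) : Fn3 := ⟨_, fun a b c => n1050 (M.at_ a b c) a b c, fun h1 h2 h3 => (enc_norm (enc_add (es1_2 ((F662 M).enc h1 h2 h3)) ((F1049 M).enc h1 h2 h3)))⟩

noncomputable def F1051 (M : MolF) : Fn3 := ⟨_, fun a b c => n1051 (M.at_ a b c) a b c, fun h1 h2 h3 => (enc_mul ((F169 M).enc h1 h2 h3) ((F1043 M).enc h1 h2 h3))⟩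

noncomputable def F1054 (M : MolF) : Fn3 := ⟨_, fun a b c => n1054 (M.at_ a b c) a b c, fun h1 h2 h3 => (enc_norm (enc_sub (enc_add (enc_add ((F747 M).enc h1 h2 h3) ((F1051 M).enc h1 h2 h3)) ((F1044 M).enc h1 h2 h3)) ((F759 M).enc h1 h2 h3)))⟩

noncomputable def F1055 (M : MolF) : Fn3 := ⟨_, fun a b c => n1055 (M.at_ a b c) a b c, fun h1 h2 h3 => (enc_mul ((F372 M).enc h1 h2 h3) ((F1044 M).enc h1 h2 h3))⟩

noncomputable def F1057 (M : MolF) : Fn3 := ⟨_, fun a b c => n1057 (M.at_ a b c) a b c, fun h1 h2 h3 => (enc_norm (enc_sub (enc_add ((F878 M).enc h1 h2 h3) ((F1055 M).enc h1 h2 h3)) ((F748 M).enc h1 h2 h3)))⟩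

noncomputable def F1059 (M : MolF) : Fn3 := ⟨_, fun a b c => n1059 (M.at_ a b c) a b c, fun h1 h2 h3 => (enc_norm (enc_add (es1_2 ((F662 M).enc h1 h2 h3)) (enc_mul h2 ((F1057 M).enc h1 h2 h3))))⟩

noncomputable def F1060 (M : MolF) : Fn3 := ⟨_, fun a b c => n1060 (M.at_ a b c) a b c, fun h1 h2 h3 => (enc_norm (enc_add ((F1057 M).enc h1 h2 h3) ((F1047 M).enc h1 h2 h3)))⟩

noncomputable def F1061 (M : MolF) : Fn3 := ⟨_, fun a b c => n1061 (M.at_ a b c) a b c, fun h1 h2 h3 => (enc_mul ((F3 M).enc h1 h2 h3) ((F1054 M).enc h1 h2 h3))⟩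

noncomputable def F1064 (M : MolF) : Fn3 := ⟨_, fun a b c => n1064 (M.at_ a b c) a b c, fun h1 h2 h3 => (enc_mul ((F169 M).enc h1 h2 h3) ((F1057 M).enc h1 h2 h3))⟩

noncomputable def F1068 (M : MolF) : Fn3 := ⟨_, fun a b c => n1068 (M.at_ a b c) a b c, fun h1 h2 h3 => (enc_norm (enc_add (enc_sub ((F1057 M).enc h1 h2 h3) ((F1061 M).enc h1 h2 h3)) ((F1047 M).enc h1 h2 h3)))⟩

noncomputable def F1070 (M : MolF) : Fn3 := ⟨_, fun a b c => n1070 (M.at_ a b c) a b c, fun h1 h2 h3 => (enc_norm (enc_sub ((F1059 M).enc h1 h2 h3) (enc_mul ((F372 M).enc h1 h2 h3) ((F1047 M).enc h1 h2 h3))))⟩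

noncomputable def F1071 (M : MolF) : Fn3 := ⟨_, fun a b c => n1071 (M.at_ a b c) a b c, fun h1 h2 h3 => (enc_norm (enc_add ((F1064 M).enc h1 h2 h3) ((F1070 M).enc h1 h2 h3)))⟩

noncomputable def F1075 (M : MolF) : Fn3 := ⟨_, fun a b c => n1075 (M.at_ a b c) a b c, fun h1 h2 h3 => (enc_mul ((F3 M).enc h1 h2 h3) ((F1050 M).enc h1 h2 h3))⟩

noncomputable def F1093 (M : MolF) : Fn3 := ⟨_, fun a b c => n1093 (M.at_ a b c) a b c, fun h1 h2 h3 => (enc_norm (enc_sub (es1_2 ((F662 M).enc h1 h2 h3)) ((F1075 M).enc h1 h2 h3)))⟩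

noncomputable def F1111 (M : MolF) : Fn3 := ⟨_, fun a b c => n1111 (M.at_ a b c) a b c, fun h1 h2 h3 => (enc_mul h2 ((F1047 M).enc h1 h2 h3))⟩

noncomputable def F1120 (M : MolF) : Fn3 := ⟨_, fun a b c => n1120 (M.at_ a b c) a b c, fun h1 h2 h3 => (enc_norm (enc_max ((F984 M).enc h1 h2 h3) ((F986 M).enc h1 h2 h3)))⟩

noncomputable def F1122 (M : MolF) : Fn3 := ⟨_, fun a b c => n1122 (M.at_ a b c) a b c, fun h1 h2 h3 => (enc_norm (enc_add (es1_2 (enc_add (enc_add ((F12 M).enc h1 h2 h3) (enc_mul (M.p1.enc h1 h2 h3) ((F16 M).enc h1 h2 h3))) (enc_mul (M.ws.enc h1 h2 h3) ((F3 M).enc h1 h2 h3)))) (enc_mul ((F599 M).enc h1 h2 h3) ((F1120 M).enc h1 h2 h3))))⟩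

noncomputable def F1124 (M : MolF) : Fn3 := ⟨_, fun a b c => n1124 (M.at_ a b c) a b c, fun h1 h2 h3 => (enc_norm (enc_add (enc_add ((F762 M).enc h1 h2 h3) ((F1046 M).enc h1 h2 h3)) ((F748 M).enc h1 h2 h3)))⟩

noncomputable def F1126 (M : MolF) : Fn3 := ⟨_, fun a b c => n1126 (M.at_ a b c) a b c, fun h1 h2 h3 => (enc_norm (enc_add (es1_2 ((F662 M).enc h1 h2 h3)) (enc_mul h2 ((F1124 M).enc h1 h2 h3))))⟩

noncomputable def F1127 (M : MolF) : Fn3 := ⟨_, fun a b c => n1127 (M.at_ a b c) a b c, fun h1 h2 h3 => (enc_norm (enc_sub ((F1124 M).enc h1 h2 h3) ((F1047 M).enc h1 h2 h3)))⟩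

noncomputable def F1130 (M : MolF) : Fn3 := ⟨_, fun a b c => n1130 (M.at_ a b c) a b c, fun h1 h2 h3 => (enc_mul ((F169 M).enc h1 h2 h3) ((F1124 M).enc h1 h2 h3))⟩

noncomputable def F1132 (M : MolF) : Fn3 := ⟨_, fun a b c => n1132 (M.at_ a b c) a b c, fun h1 h2 h3 => (enc_norm (enc_sub ((F1124 M).enc h1 h2 h3) ((F1061 M).enc h1 h2 h3)))⟩

noncomputable def F1134 (M : MolF) : Fn3 := ⟨_, fun a b c => n1134 (M.at_ a b c) a b c, fun h1 h2 h3 => (enc_sub ((F1126 M).enc h1 h2 h3) (enc_mul ((F3 M).enc h1 h2 h3) ((F1047 M).enc h1 h2 h3)))⟩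

noncomputable def F1185 (M : MolF) : Fn3 := ⟨_, fun a b c => n1185 (M.at_ a b c) a b c, fun h1 h2 h3 => (enc_norm (enc_sub (es1_2 ((F675 M).enc h1 h2 h3)) (M.dy.enc h1 h2 h3)))⟩

noncomputable def F1186 (M : MolF) : Fn3 := ⟨_, fun a b c => n1186 (M.at_ a b c) a b c, fun h1 h2 h3 => (enc_norm (enc_sub (M.m1.enc h1 h2 h3) ((F719 M).enc h1 h2 h3)))⟩

noncomputable def F1187 (M : MolF) : Fn3 := ⟨_, fun a b c => n1187 (M.at_ a b c) a b c, fun h1 h2 h3 => (enc_sub ((F716 M).enc h1 h2 h3) ((F721 M).enc h1 h2 h3))⟩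

noncomputable def F1189 (M : MolF) : Fn3 := ⟨_, fun a b c => n1189 (M.at_ a b c) a b c, fun h1 h2 h3 => (enc_abs (enc_add (M.k2.enc h1 h2 h3) ((F721 M).enc h1 h2 h3)))⟩

noncomputable def F1192 (M : MolF) : Fn3 := ⟨_, fun a b c => n1192 (M.at_ a b c) a b c, fun h1 h2 h3 => (enc_norm (enc_mul (enc_norm (enc_mul (enc_norm (enc_mul ((F599 M).enc h1 h2 h3) ((F1185 M).enc h1 h2 h3))) (M.k52.enc h1 h2 h3))) h3))⟩

noncomputable def F1195 (M : MolF) : Fn3 := ⟨_, fun a b c => n1195 (M.at_ a b c) a b c, fun h1 h2 h3 => (enc_mul (enc_norm (enc_mul (enc_norm (enc_mul ((F599 M).enc h1 h2 h3) ((F1186 M).enc h1 h2 h3))) (M.k52.enc h1 h2 h3))) h3)⟩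

noncomputable def F1197 (M : MolF) : Fn3 := ⟨_, fun a b c => n1197 (M.at_ a b c) a b c, fun h1 h2 h3 => (enc_mul (enc_norm (enc_mul ((F599 M).enc h1 h2 h3) ((F1189 M).enc h1 h2 h3))) (M.k1.enc h1 h2 h3))⟩

noncomputable def F1198 (M : MolF) : Fn3 := ⟨_, fun a b c => n1198 (M.at_ a b c) a b c, fun h1 h2 h3 => (enc_norm (enc_add ((F1195 M).enc h1 h2 h3) ((F1197 M).enc h1 h2 h3)))⟩

noncomputable def F1202 (M : MolF) : Fn3 := ⟨_, fun a b c => n1202 (M.at_ a b c) a b c, fun h1 h2 h3 => (enc_norm (enc_mul (enc_norm (enc_mul (enc_norm (enc_mul ((F15 M).enc h1 h2 h3) ((F599 M).enc h1 h2 h3))) (M.k1.enc h1 h2 h3))) (enc_inv h3)))⟩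

noncomputable def F1203 (M : MolF) : Fn3 := ⟨_, fun a b c => n1203 (M.at_ a b c) a b c, fun h1 h2 h3 => (enc_norm (enc_mul ((F1202 M).enc h1 h2 h3) ((F1185 M).enc h1 h2 h3)))⟩

noncomputable def F1204 (M : MolF) : Fn3 := ⟨_, fun a b c => n1204 (M.at_ a b c) a b c, fun h1 h2 h3 => (enc_mul ((F298 M).enc h1 h2 h3) ((F1203 M).enc h1 h2 h3))⟩

noncomputable def F1206 (M : MolF) : Fn3 := ⟨_, fun a b c => n1206 (M.at_ a b c) a b c, fun h1 h2 h3 => (enc_mul ((F298 M).enc h1 h2 h3) (enc_norm (enc_mul ((F1202 M).enc h1 h2 h3) ((F1186 M).enc h1 h2 h3))))⟩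

noncomputable def F1209 (M : MolF) : Fn3 := ⟨_, fun a b c => n1209 (M.at_ a b c) a b c, fun h1 h2 h3 => (enc_norm (enc_sub (enc_sub ((F654 M).enc h1 h2 h3) ((F1204 M).enc h1 h2 h3)) (enc_mul ((F15 M).enc h1 h2 h3) ((F1192 M).enc h1 h2 h3))))⟩

noncomputable def F1212 (M : MolF) : Fn3 := ⟨_, fun a b c => n1212 (M.at_ a b c) a b c, fun h1 h2 h3 => (enc_norm (enc_sub (enc_sub ((F656 M).enc h1 h2 h3) ((F1206 M).enc h1 h2 h3)) (enc_mul ((F15 M).enc h1 h2 h3) ((F1198 M).enc h1 h2 h3))))⟩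

noncomputable def F1214 (M : MolF) : Fn3 := ⟨_, fun a b c => n1214 (M.at_ a b c) a b c, fun h1 h2 h3 => (enc_add ((F1192 M).enc h1 h2 h3) (enc_mul h2 ((F1198 M).enc h1 h2 h3)))⟩

noncomputable def F1215 (M : MolF) : Fn3 := ⟨_, fun a b c => n1215 (M.at_ a b c) a b c, fun h1 h2 h3 => (enc_norm (enc_sub (es1_2 ((F662 M).enc h1 h2 h3)) ((F1192 M).enc h1 h2 h3)))⟩

noncomputable def F1216 (M : MolF) : Fn3 := ⟨_, fun a b c => n1216 (M.at_ a b c) a b c, fun h1 h2 h3 => (enc_sub ((F747 M).enc h1 h2 h3) ((F1198 M).enc h1 h2 h3))⟩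

noncomputable def F1217 (M : MolF) : Fn3 := ⟨_, fun a b c => n1217 (M.at_ a b c) a b c, fun h1 h2 h3 => (enc_sub ((F748 M).enc h1 h2 h3) ((F1214 M).enc h1 h2 h3))⟩

noncomputable def F1219 (M : MolF) : Fn3 := ⟨_, fun a b c => n1219 (M.at_ a b c) a b c, fun h1 h2 h3 => (enc_norm (enc_sub (enc_add ((F1217 M).enc h1 h2 h3) ((F749 M).enc h1 h2 h3)) ((F751 M).enc h1 h2 h3)))⟩

noncomputable def F1220 (M : MolF) : Fn3 := ⟨_, fun a b c => n1220 (M.at_ a b c) a b c, fun h1 h2 h3 => (enc_norm (enc_add ((F1215 M).enc h1 h2 h3) ((F754 M).enc h1 h2 h3)))⟩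

noncomputable def F1223 (M : MolF) : Fn3 := ⟨_, fun a b c => n1223 (M.at_ a b c) a b c, fun h1 h2 h3 => (enc_norm (enc_add (enc_sub (enc_add ((F1216 M).enc h1 h2 h3) ((F739 M).enc h1 h2 h3)) ((F757 M).enc h1 h2 h3)) ((F759 M).enc h1 h2 h3)))⟩

noncomputable def F1226 (M : MolF) : Fn3 := ⟨_, fun a b c => n1226 (M.at_ a b c) a b c, fun h1 h2 h3 => (enc_norm (enc_add (enc_sub (enc_add ((F1216 M).enc h1 h2 h3) ((F761 M).enc h1 h2 h3)) ((F1217 M).enc h1 h2 h3)) ((F751 M).enc h1 h2 h3)))⟩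

noncomputable def F1228 (M : MolF) : Fn3 := ⟨_, fun a b c => n1228 (M.at_ a b c) a b c, fun h1 h2 h3 => (enc_norm (enc_add ((F1215 M).enc h1 h2 h3) (enc_mul h2 ((F1226 M).enc h1 h2 h3))))⟩

noncomputable def F1229 (M : MolF) : Fn3 := ⟨_, fun a b c => n1229 (M.at_ a b c) a b c, fun h1 h2 h3 => (enc_norm (enc_add ((F1226 M).enc h1 h2 h3) ((F1219 M).enc h1 h2 h3)))⟩

noncomputable def F1232 (M : MolF) : Fn3 := ⟨_, fun a b c => n1232 (M.at_ a b c) a b c, fun h1 h2 h3 => (enc_mul ((F169 M).enc h1 h2 h3) ((F1226 M).enc h1 h2 h3))⟩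

noncomputable def F1235 (M : MolF) : Fn3 := ⟨_, fun a b c => n1235 (M.at_ a b c) a b c, fun h1 h2 h3 => (enc_norm (enc_sub ((F1226 M).enc h1 h2 h3) (enc_mul ((F3 M).enc h1 h2 h3) ((F1223 M).enc h1 h2 h3))))⟩

noncomputable def F1236 (M : MolF) : Fn3 := ⟨_, fun a b c => n1236 (M.at_ a b c) a b c, fun h1 h2 h3 => (enc_norm (enc_mul ((F3 M).enc h1 h2 h3) ((F1219 M).enc h1 h2 h3)))⟩

noncomputable def F1237 (M : MolF) : Fn3 := ⟨_, fun a b c => n1237 (M.at_ a b c) a b c, fun h1 h2 h3 => (enc_norm (enc_sub ((F1232 M).enc h1 h2 h3) ((F1236 M).enc h1 h2 h3)))⟩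

noncomputable def F1241 (M : MolF) : Fn3 := ⟨_, fun a b c => n1241 (M.at_ a b c) a b c, fun h1 h2 h3 => (enc_sub ((F1228 M).enc h1 h2 h3) ((F1236 M).enc h1 h2 h3))⟩

noncomputable def F1242 (M : MolF) : Fn3 := ⟨_, fun a b c => n1242 (M.at_ a b c) a b c, fun h1 h2 h3 => (enc_mul ((F3 M).enc h1 h2 h3) ((F1220 M).enc h1 h2 h3))⟩

noncomputable def F1243 (M : MolF) : Fn3 := ⟨_, fun a b c => n1243 (M.at_ a b c) a b c, fun h1 h2 h3 => (enc_norm (enc_mul ((F169 M).enc h1 h2 h3) ((F1215 M).enc h1 h2 h3)))⟩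

noncomputable def F1261 (M : MolF) : Fn3 := ⟨_, fun a b c => n1261 (M.at_ a b c) a b c, fun h1 h2 h3 => (enc_norm (enc_sub ((F1215 M).enc h1 h2 h3) ((F1242 M).enc h1 h2 h3)))⟩

noncomputable def F1262 (M : MolF) : Fn3 := ⟨_, fun a b c => n1262 (M.at_ a b c) a b c, fun h1 h2 h3 => (enc_norm (enc_mul ((F3 M).enc h1 h2 h3) ((F1215 M).enc h1 h2 h3)))⟩

noncomputable def F1281 (M : MolF) : Fn3 := ⟨_, fun a b c => n1281 (M.at_ a b c) a b c, fun h1 h2 h3 => (enc_norm (enc_sub ((F859 M).enc h1 h2 h3) (enc_mul ((F205 M).enc h1 h2 h3) ((F1203 M).enc h1 h2 h3))))⟩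

noncomputable def F1283 (M : MolF) : Fn3 := ⟨_, fun a b c => n1283 (M.at_ a b c) a b c, fun h1 h2 h3 => (enc_norm (enc_sub ((F861 M).enc h1 h2 h3) (enc_mul h3 ((F1203 M).enc h1 h2 h3))))⟩

noncomputable def F1290 (M : MolF) : Fn3 := ⟨_, fun a b c => n1290 (M.at_ a b c) a b c, fun h1 h2 h3 => (enc_mul ((F298 M).enc h1 h2 h3) (enc_norm (enc_mul ((F1281 M).enc h1 h2 h3) ((F1215 M).enc h1 h2 h3))))⟩

noncomputable def F1294 (M : MolF) : Fn3 := ⟨_, fun a b c => n1294 (M.at_ a b c) a b c, fun h1 h2 h3 => (enc_mul ((F298 M).enc h1 h2 h3) (enc_norm (enc_mul ((F1283 M).enc h1 h2 h3) ((F1243 M).enc h1 h2 h3))))⟩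

noncomputable def F1298 (M : MolF) : Fn3 := ⟨_, fun a b c => n1298 (M.at_ a b c) a b c, fun h1 h2 h3 => (enc_norm (enc_sub ((F1195 M).enc h1 h2 h3) ((F1197 M).enc h1 h2 h3)))⟩

noncomputable def F1301 (M : MolF) : Fn3 := ⟨_, fun a b c => n1301 (M.at_ a b c) a b c, fun h1 h2 h3 => (enc_norm (enc_sub (enc_sub ((F877 M).enc h1 h2 h3) ((F1206 M).enc h1 h2 h3)) (enc_mul ((F15 M).enc h1 h2 h3) ((F1298 M).enc h1 h2 h3))))⟩

noncomputable def F1303 (M : MolF) : Fn3 := ⟨_, fun a b c => n1303 (M.at_ a b c) a b c, fun h1 h2 h3 => (enc_add ((F1192 M).enc h1 h2 h3) (enc_mul h2 ((F1298 M).enc h1 h2 h3)))⟩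

noncomputable def F1304 (M : MolF) : Fn3 := ⟨_, fun a b c => n1304 (M.at_ a b c) a b c, fun h1 h2 h3 => (enc_sub ((F747 M).enc h1 h2 h3) ((F1298 M).enc h1 h2 h3))⟩

noncomputable def F1305 (M : MolF) : Fn3 := ⟨_, fun a b c => n1305 (M.at_ a b c) a b c, fun h1 h2 h3 => (enc_sub ((F748 M).enc h1 h2 h3) ((F1303 M).enc h1 h2 h3))⟩

noncomputable def F1307 (M : MolF) : Fn3 := ⟨_, fun a b c => n1307 (M.at_ a b c) a b c, fun h1 h2 h3 => (enc_norm (enc_sub (enc_add ((F1305 M).enc h1 h2 h3) ((F749 M).enc h1 h2 h3)) ((F751 M).enc h1 h2 h3)))⟩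

noncomputable def F1310 (M : MolF) : Fn3 := ⟨_, fun a b c => n1310 (M.at_ a b c) a b c, fun h1 h2 h3 => (enc_norm (enc_add (enc_sub (enc_add ((F1304 M).enc h1 h2 h3) ((F739 M).enc h1 h2 h3)) ((F757 M).enc h1 h2 h3)) ((F759 M).enc h1 h2 h3)))⟩

noncomputable def F1313 (M : MolF) : Fn3 := ⟨_, fun a b c => n1313 (M.at_ a b c) a b c, fun h1 h2 h3 => (enc_norm (enc_add (enc_add (enc_add ((F1304 M).enc h1 h2 h3) ((F749 M).enc h1 h2 h3)) ((F879 M).enc h1 h2 h3)) ((F1305 M).enc h1 h2 h3)))⟩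

noncomputable def F1315 (M : MolF) : Fn3 := ⟨_, fun a b c => n1315 (M.at_ a b c) a b c, fun h1 h2 h3 => (enc_norm (enc_add ((F1215 M).enc h1 h2 h3) (enc_mul h2 ((F1313 M).enc h1 h2 h3))))⟩

noncomputable def F1316 (M : MolF) : Fn3 := ⟨_, fun a b c => n1316 (M.at_ a b c) a b c, fun h1 h2 h3 => (enc_norm (enc_sub ((F1313 M).enc h1 h2 h3) ((F1307 M).enc h1 h2 h3)))⟩

noncomputable def F1317 (M : MolF) : Fn3 := ⟨_, fun a b c => n1317 (M.at_ a b c) a b c, fun h1 h2 h3 => (enc_mul ((F3 M).enc h1 h2 h3) ((F1310 M).enc h1 h2 h3))⟩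

noncomputable def F1320 (M : MolF) : Fn3 := ⟨_, fun a b c => n1320 (M.at_ a b c) a b c, fun h1 h2 h3 => (enc_mul ((F169 M).enc h1 h2 h3) ((F1313 M).enc h1 h2 h3))⟩

noncomputable def F1324 (M : MolF) : Fn3 := ⟨_, fun a b c => n1324 (M.at_ a b c) a b c, fun h1 h2 h3 => (enc_norm (enc_sub (enc_sub ((F1313 M).enc h1 h2 h3) ((F1317 M).enc h1 h2 h3)) ((F1307 M).enc h1 h2 h3)))⟩

noncomputable def F1326 (M : MolF) : Fn3 := ⟨_, fun a b c => n1326 (M.at_ a b c) a b c, fun h1 h2 h3 => (enc_norm (enc_sub ((F1315 M).enc h1 h2 h3) (enc_mul ((F30 M).enc h1 h2 h3) ((F1307 M).enc h1 h2 h3))))⟩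

noncomputable def F1327 (M : MolF) : Fn3 := ⟨_, fun a b c => n1327 (M.at_ a b c) a b c, fun h1 h2 h3 => (enc_norm (enc_sub ((F1320 M).enc h1 h2 h3) ((F1326 M).enc h1 h2 h3)))⟩

noncomputable def F1374 (M : MolF) : Fn3 := ⟨_, fun a b c => n1374 (M.at_ a b c) a b c, fun h1 h2 h3 => (enc_norm (enc_sub ((F1032 M).enc h1 h2 h3) (M.m1.enc h1 h2 h3)))⟩

noncomputable def F1375 (M : MolF) : Fn3 := ⟨_, fun a b c => n1375 (M.at_ a b c) a b c, fun h1 h2 h3 => (enc_sub ((F1035 M).enc h1 h2 h3) ((F716 M).enc h1 h2 h3))⟩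

noncomputable def F1377 (M : MolF) : Fn3 := ⟨_, fun a b c => n1377 (M.at_ a b c) a b c, fun h1 h2 h3 => (enc_abs (enc_add (M.k2.enc h1 h2 h3) ((F1035 M).enc h1 h2 h3)))⟩

noncomputable def F1380 (M : MolF) : Fn3 := ⟨_, fun a b c => n1380 (M.at_ a b c) a b c, fun h1 h2 h3 => (enc_mul (enc_norm (enc_mul (enc_norm (enc_mul ((F599 M).enc h1 h2 h3) ((F1374 M).enc h1 h2 h3))) (M.k52.enc h1 h2 h3))) h3)⟩

noncomputable def F1382 (M : MolF) : Fn3 := ⟨_, fun a b c => n1382 (M.at_ a b c) a b c, fun h1 h2 h3 => (enc_mul (enc_norm (enc_mul ((F599 M).enc h1 h2 h3) ((F1377 M).enc h1 h2 h3))) (M.k1.enc h1 h2 h3))⟩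

noncomputable def F1383 (M : MolF) : Fn3 := ⟨_, fun a b c => n1383 (M.at_ a b c) a b c, fun h1 h2 h3 => (enc_norm (enc_add ((F1380 M).enc h1 h2 h3) ((F1382 M).enc h1 h2 h3)))⟩

noncomputable def F1385 (M : MolF) : Fn3 := ⟨_, fun a b c => n1385 (M.at_ a b c) a b c, fun h1 h2 h3 => (enc_mul ((F298 M).enc h1 h2 h3) (enc_norm (enc_mul ((F1202 M).enc h1 h2 h3) ((F1374 M).enc h1 h2 h3))))⟩

noncomputable def F1388 (M : MolF) : Fn3 := ⟨_, fun a b c => n1388 (M.at_ a b c) a b c, fun h1 h2 h3 => (enc_norm (enc_sub (enc_sub ((F990 M).enc h1 h2 h3) ((F1385 M).enc h1 h2 h3)) (enc_mul ((F15 M).enc h1 h2 h3) ((F1383 M).enc h1 h2 h3))))⟩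

noncomputable def F1390 (M : MolF) : Fn3 := ⟨_, fun a b c => n1390 (M.at_ a b c) a b c, fun h1 h2 h3 => (enc_add ((F1192 M).enc h1 h2 h3) (enc_mul h2 ((F1383 M).enc h1 h2 h3)))⟩

noncomputable def F1391 (M : MolF) : Fn3 := ⟨_, fun a b c => n1391 (M.at_ a b c) a b c, fun h1 h2 h3 => (enc_sub ((F747 M).enc h1 h2 h3) ((F1383 M).enc h1 h2 h3))⟩

noncomputable def F1392 (M : MolF) : Fn3 := ⟨_, fun a b c => n1392 (M.at_ a b c) a b c, fun h1 h2 h3 => (enc_sub ((F748 M).enc h1 h2 h3) ((F1390 M).enc h1 h2 h3))⟩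

noncomputable def F1394 (M : MolF) : Fn3 := ⟨_, fun a b c => n1394 (M.at_ a b c) a b c, fun h1 h2 h3 => (enc_norm (enc_add (enc_sub ((F1392 M).enc h1 h2 h3) ((F749 M).enc h1 h2 h3)) ((F1046 M).enc h1 h2 h3)))⟩

noncomputable def F1395 (M : MolF) : Fn3 := ⟨_, fun a b c => n1395 (M.at_ a b c) a b c, fun h1 h2 h3 => (enc_norm (enc_add ((F1215 M).enc h1 h2 h3) ((F1049 M).enc h1 h2 h3)))⟩

noncomputable def F1398 (M : MolF) : Fn3 := ⟨_, fun a b c => n1398 (M.at_ a b c) a b c, fun h1 h2 h3 => (enc_norm (enc_sub (enc_add (enc_add ((F1391 M).enc h1 h2 h3) ((F1051 M).enc h1 h2 h3)) ((F1044 M).enc h1 h2 h3)) ((F759 M).enc h1 h2 h3)))⟩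

noncomputable def F1401 (M : MolF) : Fn3 := ⟨_, fun a b c => n1401 (M.at_ a b c) a b c, fun h1 h2 h3 => (enc_norm (enc_sub (enc_add (enc_add ((F1391 M).enc h1 h2 h3) ((F749 M).enc h1 h2 h3)) ((F1055 M).enc h1 h2 h3)) ((F1392 M).enc h1 h2 h3)))⟩

noncomputable def F1403 (M : MolF) : Fn3 := ⟨_, fun a b c => n1403 (M.at_ a b c) a b c, fun h1 h2 h3 => (enc_norm (enc_add ((F1215 M).enc h1 h2 h3) (enc_mul h2 ((F1401 M).enc h1 h2 h3))))⟩

noncomputable def F1404 (M : MolF) : Fn3 := ⟨_, fun a b c => n1404 (M.at_ a b c) a b c, fun h1 h2 h3 => (enc_norm (enc_add ((F1401 M).enc h1 h2 h3) ((F1394 M).enc h1 h2 h3)))⟩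

noncomputable def F1405 (M : MolF) : Fn3 := ⟨_, fun a b c => n1405 (M.at_ a b c) a b c, fun h1 h2 h3 => (enc_mul ((F3 M).enc h1 h2 h3) ((F1398 M).enc h1 h2 h3))⟩

noncomputable def F1408 (M : MolF) : Fn3 := ⟨_, fun a b c => n1408 (M.at_ a b c) a b c, fun h1 h2 h3 => (enc_mul ((F169 M).enc h1 h2 h3) ((F1401 M).enc h1 h2 h3))⟩

noncomputable def F1412 (M : MolF) : Fn3 := ⟨_, fun a b c => n1412 (M.at_ a b c) a b c, fun h1 h2 h3 => (enc_norm (enc_add (enc_sub ((F1401 M).enc h1 h2 h3) ((F1405 M).enc h1 h2 h3)) ((F1394 M).enc h1 h2 h3)))⟩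

noncomputable def F1414 (M : MolF) : Fn3 := ⟨_, fun a b c => n1414 (M.at_ a b c) a b c, fun h1 h2 h3 => (enc_norm (enc_sub ((F1403 M).enc h1 h2 h3) (enc_mul ((F372 M).enc h1 h2 h3) ((F1394 M).enc h1 h2 h3))))⟩

noncomputable def F1415 (M : MolF) : Fn3 := ⟨_, fun a b c => n1415 (M.at_ a b c) a b c, fun h1 h2 h3 => (enc_norm (enc_add ((F1408 M).enc h1 h2 h3) ((F1414 M).enc h1 h2 h3)))⟩

noncomputable def F1419 (M : MolF) : Fn3 := ⟨_, fun a b c => n1419 (M.at_ a b c) a b c, fun h1 h2 h3 => (enc_mul ((F3 M).enc h1 h2 h3) ((F1395 M).enc h1 h2 h3))⟩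

noncomputable def F1437 (M : MolF) : Fn3 := ⟨_, fun a b c => n1437 (M.at_ a b c) a b c, fun h1 h2 h3 => (enc_norm (enc_sub ((F1215 M).enc h1 h2 h3) ((F1419 M).enc h1 h2 h3)))⟩

noncomputable def F1465 (M : MolF) : Fn3 := ⟨_, fun a b c => n1465 (M.at_ a b c) a b c, fun h1 h2 h3 => (enc_norm (enc_sub ((F1380 M).enc h1 h2 h3) ((F1382 M).enc h1 h2 h3)))⟩

noncomputable def F1468 (M : MolF) : Fn3 := ⟨_, fun a b c => n1468 (M.at_ a b c) a b c, fun h1 h2 h3 => (enc_norm (enc_sub (enc_sub ((F1122 M).enc h1 h2 h3) ((F1385 M).enc h1 h2 h3)) (enc_mul ((F15 M).enc h1 h2 h3) ((F1465 M).enc h1 h2 h3))))⟩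

noncomputable def F1470 (M : MolF) : Fn3 := ⟨_, fun a b c => n1470 (M.at_ a b c) a b c, fun h1 h2 h3 => (enc_add ((F1192 M).enc h1 h2 h3) (enc_mul h2 ((F1465 M).enc h1 h2 h3)))⟩

noncomputable def F1471 (M : MolF) : Fn3 := ⟨_, fun a b c => n1471 (M.at_ a b c) a b c, fun h1 h2 h3 => (enc_sub ((F747 M).enc h1 h2 h3) ((F1465 M).enc h1 h2 h3))⟩

noncomputable def F1472 (M : MolF) : Fn3 := ⟨_, fun a b c => n1472 (M.at_ a b c) a b c, fun h1 h2 h3 => (enc_sub ((F748 M).enc h1 h2 h3) ((F1470 M).enc h1 h2 h3))⟩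

noncomputable def F1474 (M : MolF) : Fn3 := ⟨_, fun a b c => n1474 (M.at_ a b c) a b c, fun h1 h2 h3 => (enc_norm (enc_add (enc_sub ((F1472 M).enc h1 h2 h3) ((F749 M).enc h1 h2 h3)) ((F1046 M).enc h1 h2 h3)))⟩

noncomputable def F1477 (M : MolF) : Fn3 := ⟨_, fun a b c => n1477 (M.at_ a b c) a b c, fun h1 h2 h3 => (enc_norm (enc_sub (enc_add (enc_add ((F1471 M).enc h1 h2 h3) ((F1051 M).enc h1 h2 h3)) ((F1044 M).enc h1 h2 h3)) ((F759 M).enc h1 h2 h3)))⟩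

noncomputable def F1480 (M : MolF) : Fn3 := ⟨_, fun a b c => n1480 (M.at_ a b c) a b c, fun h1 h2 h3 => (enc_norm (enc_add (enc_add (enc_add ((F1471 M).enc h1 h2 h3) ((F761 M).enc h1 h2 h3)) ((F1046 M).enc h1 h2 h3)) ((F1472 M).enc h1 h2 h3)))⟩

noncomputable def F1482 (M : MolF) : Fn3 := ⟨_, fun a b c => n1482 (M.at_ a b c) a b c, fun h1 h2 h3 => (enc_norm (enc_add ((F1215 M).enc h1 h2 h3) (enc_mul h2 ((F1480 M).enc h1 h2 h3))))⟩

noncomputable def F1483 (M : MolF) : Fn3 := ⟨_, fun a b c => n1483 (M.at_ a b c) a b c, fun h1 h2 h3 => (enc_norm (enc_sub ((F1480 M).enc h1 h2 h3) ((F1474 M).enc h1 h2 h3)))⟩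

noncomputable def F1486 (M : MolF) : Fn3 := ⟨_, fun a b c => n1486 (M.at_ a b c) a b c, fun h1 h2 h3 => (enc_mul ((F169 M).enc h1 h2 h3) ((F1480 M).enc h1 h2 h3))⟩

noncomputable def F1489 (M : MolF) : Fn3 := ⟨_, fun a b c => n1489 (M.at_ a b c) a b c, fun h1 h2 h3 => (enc_norm (enc_sub ((F1480 M).enc h1 h2 h3) (enc_mul ((F3 M).enc h1 h2 h3) ((F1477 M).enc h1 h2 h3))))⟩

noncomputable def F1491 (M : MolF) : Fn3 := ⟨_, fun a b c => n1491 (M.at_ a b c) a b c, fun h1 h2 h3 => (enc_sub ((F1482 M).enc h1 h2 h3) (enc_mul ((F3 M).enc h1 h2 h3) ((F1474 M).enc h1 h2 h3)))⟩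

noncomputable def F1542 (M : MolF) : Fn3 := ⟨_, fun a b c => (b) * (n196 (M.at_ a b c) a b c), fun h1 h2 h3 => (enc_mul h2 ((F196 M).enc h1 h2 h3))⟩

noncomputable def F1544 (M : MolF) : Fn3 := ⟨_, fun a b c => (a) * (n188 (M.at_ a b c) a b c) + (b) * (n196 (M.at_ a b c) a b c), fun h1 h2 h3 => (enc_norm (enc_add (enc_mul h1 ((F188 M).enc h1 h2 h3)) ((F1542 M).enc h1 h2 h3)))⟩

noncomputable def F1546 (M : MolF) : Fn3 := ⟨_, fun a b c => (a) * (n186 (M.at_ a b c) a b c) + n196 (M.at_ a b c) a b c, fun h1 h2 h3 => (enc_norm (enc_add (enc_mul h1 ((F186 M).enc h1 h2 h3)) ((F196 M).enc h1 h2 h3)))⟩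

noncomputable def F1549 (M : MolF) : Fn3 := ⟨_, fun a b c => (n169 (M.at_ a b c) a b c) * (n188 (M.at_ a b c) a b c) - (b) * (n196 (M.at_ a b c) a b c), fun h1 h2 h3 => (enc_norm (enc_sub (enc_mul ((F169 M).enc h1 h2 h3) ((F188 M).enc h1 h2 h3)) ((F1542 M).enc h1 h2 h3)))⟩

noncomputable def F1563 (M : MolF) : Fn3 := ⟨_, fun a b c => (n205 (M.at_ a b c) a b c) * ((n168 (M.at_ a b c) a b c) * (n188 (M.at_ a b c) a b c + n293 (M.at_ a b c) a b c) + (n160 (M.at_ a b c) a b c) * (n189 (M.at_ a b c) a b c)) - (n15 (M.at_ a b c) a b c) * ((n182 (M.at_ a b c) a b c) * ((a) * (n188 (M.at_ a b c) a b c) + (b) * (n196 (M.at_ a b c) a b c)) + (n197 (M.at_ a b c) a b c) * (n188 (M.at_ a b c) a b c + n293 (M.at_ a b c) a b c) + (n177 (M.at_ a b c) a b c) * ((a) * (n186 (M.at_ a b c) a b c) + n196 (M.at_ a b c) a b c) + (1 / 2 * (n169 (M.at_ a b c) a b c)) * (n189 (M.at_ a b c) a b c)), fun h1 h2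 h3 => (enc_norm (enc_sub (enc_mul ((F205 M).enc h1 h2 h3) (enc_norm (enc_add (enc_mul ((F168 M).enc h1 h2 h3) (enc_norm (enc_add ((F188 M).enc h1 h2 h3) ((F293 M).enc h1 h2 h3)))) (enc_mul ((F160 M).enc h1 h2 h3) ((F189 M).enc h1 h2 h3))))) (enc_mul ((F15 M).enc h1 h2 h3) (enc_norm (enc_add (enc_add (enc_add (enc_mul ((F182 M).enc h1 h2 h3) ((F1544 M).enc h1 h2 h3)) (enc_mul ((F197 M).enc h1 h2 h3) (enc_norm (enc_add ((F188 M).enc h1 h2 h3) ((F293 M).enc h1 h2 h3))))) (enc_mul ((F177 M).enc h1 h2 h3) ((F1546 M).enc h1 h2 h3))) (enc_mul (enc_norm (es1_2 ((F169 M).enc h1 h2 h3))) ((F189 M).enc h1 h2 h3)))))))⟩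

noncomputable def F1577 (M : MolF) : Fn3 := ⟨_, fun a b c => (c) * ((n168 (M.at_ a b c) a b c) * ((n169 (M.at_ a b c) a b c) * (n188 (M.at_ a b c) a b c) - (b) * (n196 (M.at_ a b c) a b c)) + (n160 (M.at_ a b c) a b c) * (n197 (M.at_ a b c) a b c)) - (n15 (M.at_ a b c) a b c) * ((n196 (M.at_ a b c) a b c + (n3 (M.at_ a b c) a b c) * (n186 (M.at_ a b c) a b c)) * ((n169 (M.at_ a b c) a b c) * (n188 (M.at_ a b c) a b c) - (b) * (n196 (M.at_ a b c) a b c)) - (n195 (M.at_ a b c) a b c) * ((a) * (n188 (M.at_ a b c) a b c) + (b) * (n196 (M.at_ a b c) a b c)) - (n222 (M.at_ a b c) a b c) * ((a) * (n186 (M.at_ a b c) a b c) + n196 (M.at_ a b c) a b c) + (1 / 2 * (n3 (M.at_ a b c) a b c)) * (n197 (M.at_ a b c) a b c)), fun h1 h2 h3 => (enc_norm (enc_sub (enc_mul h3 (enc_norm (enc_add (enc_mul ((F168 M).enc h1 h2 h3) ((F1549 M).enc h1 h2 h3)) (enc_mul ((F160 M).enc h1 h2 h3) ((F197 M).enc h1 h2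 h3))))) (enc_mul ((F15 M).enc h1 h2 h3) (enc_norm (enc_add (enc_sub (enc_sub (enc_mul (enc_norm (enc_add ((F196 M).enc h1 h2 h3) (enc_mul ((F3 M).enc h1 h2 h3) ((F186 M).enc h1 h2 h3)))) ((F1549 M).enc h1 h2 h3)) (enc_mul ((F195 M).enc h1 h2 h3) ((F1544 M).enc h1 h2 h3))) (enc_mul ((F222 M).enc h1 h2 h3) ((F1546 M).enc h1 h2 h3))) (enc_mul (enc_norm (es1_2 ((F3 M).enc h1 h2 h3))) ((F197 M).enc h1 h2 h3)))))))⟩

noncomputable def F1580 (M : MolF) : Fn3 := ⟨_, fun a b c => n300 (M.at_ a b c) a b c + (b) * ((n205 (M.at_ a b c) a b c) * ((n168 (M.at_ a b c) a b c) * (n188 (M.at_ a b c) a b c + n293 (M.at_ a b c) a b c) + (n160 (M.at_ a b c) a b c) * (n189 (M.at_ a b c) a b c)) - (n15 (M.at_ a b c) a b c) * ((n182 (M.at_ a b c) a b c) * ((a) * (n188 (M.at_ a b c) a b c) + (b) * (n196 (M.at_ a b c) a b c)) + (n197 (M.at_ a b c) a b c) * (n188 (M.at_ a b c) a b c + n293 (M.at_ a b c) a b c)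 + (n177 (M.at_ a b c) a b c) * ((a) * (n186 (M.at_ a b c) a b c) + n196 (M.at_ a b c) a b c) + (1 / 2 * (n169 (M.at_ a b c) a b c)) * (n189 (M.at_ a b c) a b c))), fun h1 h2 h3 => (enc_add ((F300 M).enc h1 h2 h3) (enc_mul h2 ((F1563 M).enc h1 h2 h3)))⟩

noncomputable def F1581 (M : MolF) : Fn3 := ⟨_, fun a b c => n304 (M.at_ a b c) a b c + (b) * ((c) * ((n168 (M.at_ a b c) a b c) * ((n169 (M.at_ a b c) a b c) * (n188 (M.at_ a b c) a b c) - (b) * (n196 (M.at_ a b c) a b c)) + (n160 (M.at_ a b c) a b c) * (n197 (M.at_ a b c) a b c)) - (n15 (M.at_ a b c) a b c) * ((n196 (M.at_ a b c) a b c + (n3 (M.at_ a b c) a b c) * (n186 (M.at_ a b c) a b c)) * ((n169 (M.at_ a b c) a b c) * (n188 (M.at_ a b c) a b c) - (b) * (n196 (M.at_ a b c) a b c)) - (n195 (M.at_ a b c) a b c) * ((a) * (n188 (M.at_ a b c) a b c) + (b) * (n196 (M.at_ a b c) a b c)) - (n222 (M.at_ a b c) a b c) * ((a) * (n186 (M.at_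 a b c) a b c) + n196 (M.at_ a b c) a b c) + (1 / 2 * (n3 (M.at_ a b c) a b c)) * (n197 (M.at_ a b c) a b c))), fun h1 h2 h3 => (enc_add ((F304 M).enc h1 h2 h3) (enc_mul h2 ((F1577 M).enc h1 h2 h3)))⟩

noncomputable def F1582 (M : MolF) : Fn3 := ⟨_, fun a b c => (a) * (n313 (M.at_ a b c) a b c), fun h1 h2 h3 => (enc_mul h1 ((F313 M).enc h1 h2 h3))⟩

noncomputable def F1583 (M : MolF) : Fn3 := ⟨_, fun a b c => (a) * (n313 (M.at_ a b c) a b c) - (b) * (n196 (M.at_ a b c) a b c), fun h1 h2 h3 => (enc_norm (enc_sub ((F1582 M).enc h1 h2 h3) ((F1542 M).enc h1 h2 h3)))⟩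

noncomputable def F1584 (M : MolF) : Fn3 := ⟨_, fun a b c => (a) * (n311 (M.at_ a b c) a b c), fun h1 h2 h3 => (enc_mul h1 ((F311 M).enc h1 h2 h3))⟩

noncomputable def F1590 (M : MolF) : Fn3 := ⟨_, fun a b c => (b) * (n325 (M.at_ a b c) a b c), fun h1 h2 h3 => (enc_mul h2 ((F325 M).enc h1 h2 h3))⟩

noncomputable def F1592 (M : MolF) : Fn3 := ⟨_, fun a b c => (n169 (M.at_ a b c) a b c) * (n313 (M.at_ a b c) a b c) - (b) * (n325 (M.at_ a b c) a b c), fun h1 h2 h3 => (enc_norm (enc_sub (enc_mul ((F169 M).enc h1 h2 h3) ((F313 M).enc h1 h2 h3)) ((F1590 M).enc h1 h2 h3)))⟩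

noncomputable def F1608 (M : MolF) : Fn3 := ⟨_, fun a b c => (n205 (M.at_ a b c) a b c) * ((n307 (M.at_ a b c) a b c) * (n313 (M.at_ a b c) a b c - n293 (M.at_ a b c) a b c) + (n160 (M.at_ a b c) a b c) * (n314 (M.at_ a b c) a b c)) - (n15 (M.at_ a b c) a b c) * ((n182 (M.at_ a b c) a b c) * ((a) * (n313 (M.at_ a b c) a b c) - (b) * (n196 (M.at_ a b c) a b c)) + ((1 + n30 (M.at_ a b c) a b c) * (n174 (M.at_ a b c) a b c) + n319 (M.at_ a b c) a b c - n313 (M.at_ a b c) a b c) * (n313 (M.at_ a b c) a b c - n293 (M.at_ a b c) a b c) + (n177 (M.at_ a b c) a b c) * ((a) * (n311 (M.at_ a b c) a b c) - n196 (M.at_ a b c) a b c) + (1 / 2 * (n169 (M.at_ a b c) a b c)) * (n314 (M.at_ a b c) a b c)), fun h1 h2 h3 => (enc_norm (enc_sub (enc_mul ((F205 M).enc h1 h2 h3) (enc_norm (enc_add (enc_mul ((F307 M).enc h1 h2 h3) (enc_norm (enc_sub ((F313 M).enc h1 h2 h3) ((F293 M).enc h1 h2 h3)))) (enc_mul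 ((F160 M).enc h1 h2 h3) ((F314 M).enc h1 h2 h3))))) (enc_mul ((F15 M).enc h1 h2 h3) (enc_norm (enc_add (enc_add (enc_add (enc_mul ((F182 M).enc h1 h2 h3) ((F1583 M).enc h1 h2 h3)) (enc_mul (enc_norm (enc_sub (enc_add (enc_mul (enc_norm (enc_add (en1 _) ((F30 M).enc h1 h2 h3))) ((F174 M).enc h1 h2 h3)) ((F319 M).enc h1 h2 h3)) ((F313 M).enc h1 h2 h3))) (enc_norm (enc_sub ((F313 M).enc h1 h2 h3) ((F293 M).enc h1 h2 h3))))) (enc_mul ((F177 M).enc h1 h2 h3) (enc_norm (enc_sub ((F1584 M).enc h1 h2 h3) ((F196 M).enc h1 h2 h3))))) (enc_mul (enc_norm (es1_2 ((F169 M).enc h1 h2 h3))) ((F314 M).enc h1 h2 h3)))))))⟩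

noncomputable def F1622 (M : MolF) : Fn3 := ⟨_, fun a b c => (c) * ((n307 (M.at_ a b c) a b c) * ((n169 (M.at_ a b c) a b c) * (n313 (M.at_ a b c) a b c) - (b) * (n325 (M.at_ a b c) a b c)) + (n160 (M.at_ a b c) a b c) * (n326 (M.at_ a b c) a b c)) - (n15 (M.at_ a b c) a b c) * ((n325 (M.at_ a b c) a b c + (n3 (M.at_ a b c) a b c) * (n311 (M.at_ a b c) a b c)) * ((n169 (M.at_ a b c) a b c) * (n313 (M.at_ a b c) a b c) - (b) * (n325 (M.at_ a b c) a b c)) - (n323 (M.at_ a b c) a b c) * ((a) * (n313 (M.at_ a b c) a b c) + (b) * (n325 (M.at_ a b c) a b c)) - (n222 (M.at_ a b c) a b c) * ((a) * (n311 (M.at_ a b c) a b c) + n325 (M.at_ a b c) a b c) + (1 / 2 * (n3 (M.at_ a b c) a b c)) * (n326 (M.at_ a b c) a b c)), fun h1 h2 h3 => (enc_norm (enc_sub (enc_mul h3 (enc_norm (enc_add (enc_mul ((F307 M).enc h1 h2 h3) ((F1592 M).enc h1 h2 h3)) (enc_mul ((F160 M).enc h1 h2 h3) ((F326 M).enc h1 h2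 h3))))) (enc_mul ((F15 M).enc h1 h2 h3) (enc_norm (enc_add (enc_sub (enc_sub (enc_mul (enc_norm (enc_add ((F325 M).enc h1 h2 h3) (enc_mul ((F3 M).enc h1 h2 h3) ((F311 M).enc h1 h2 h3)))) ((F1592 M).enc h1 h2 h3)) (enc_mul ((F323 M).enc h1 h2 h3) (enc_norm (enc_add ((F1582 M).enc h1 h2 h3) ((F1590 M).enc h1 h2 h3))))) (enc_mul ((F222 M).enc h1 h2 h3) (enc_norm (enc_add ((F1584 M).enc h1 h2 h3) ((F325 M).enc h1 h2 h3))))) (enc_mul (enc_norm (es1_2 ((F3 M).enc h1 h2 h3))) ((F326 M).enc h1 h2 h3)))))))⟩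

noncomputable def F1624 (M : MolF) : Fn3 := ⟨_, fun a b c => (a) * (n313 (M.at_ a b c) a b c) - (b) * (n196 (M.at_ a b c) a b c) + (b) * (n313 (M.at_ a b c) a b c - n293 (M.at_ a b c) a b c), fun h1 h2 h3 => (enc_add ((F1583 M).enc h1 h2 h3) (enc_mul h2 (enc_norm (enc_sub ((F313 M).enc h1 h2 h3) ((F293 M).enc h1 h2 h3)))))⟩

noncomputable def F1629 (M : MolF) : Fn3 := ⟨_, fun a b c => n300 (M.at_ a b c) a b c + (b) * ((n205 (M.at_ a b c) a b c) * ((n307 (M.at_ a b c) a b c) * (n313 (M.at_ a b c) a b c - n293 (M.at_ a b c) a b c) + (n160 (M.at_ a b c) a b c) * (n314 (M.at_ a b c) a b c)) - (n15 (M.at_ a b c) a b c) * ((n182 (M.at_ a b c) a b c) * ((a) * (n313 (M.at_ a b c) a b c) - (b) * (n196 (M.at_ a b c) a b c)) + ((1 + n30 (M.at_ a b c) a b c) * (n174 (M.at_ a b c) a b c) + n319 (M.at_ a b c) a b c - n313 (M.at_ a b c) a b c) * (n313 (M.at_ a b c) a b c - n293 (M.at_ a b c) a b c)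 + (n177 (M.at_ a b c) a b c) * ((a) * (n311 (M.at_ a b c) a b c) - n196 (M.at_ a b c) a b c) + (1 / 2 * (n169 (M.at_ a b c) a b c)) * (n314 (M.at_ a b c) a b c))), fun h1 h2 h3 => (enc_add ((F300 M).enc h1 h2 h3) (enc_mul h2 ((F1608 M).enc h1 h2 h3)))⟩

noncomputable def F1630 (M : MolF) : Fn3 := ⟨_, fun a b c => n304 (M.at_ a b c) a b c + (b) * ((c) * ((n307 (M.at_ a b c) a b c) * ((n169 (M.at_ a b c) a b c) * (n313 (M.at_ a b c) a b c) - (b) * (n325 (M.at_ a b c) a b c)) + (n160 (M.at_ a b c) a b c) * (n326 (M.at_ a b c) a b c)) - (n15 (M.at_ a b c) a b c) * ((n325 (M.at_ a b c) a b c + (n3 (M.at_ a b c) a b c) * (n311 (M.at_ a b c) a b c)) * ((n169 (M.at_ a b c) a b c) * (n313 (M.at_ a b c) a b c) - (b) * (n325 (M.at_ a b c) a b c)) - (n323 (M.at_ a b c) a b c) * ((a) * (n313 (M.at_ a b c) a b c) + (b) * (n325 (M.at_ a b c) a b c)) - (n222 (M.at_ a b c) a b c) * ((a) * (n311 (M.at_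 a b c) a b c) + n325 (M.at_ a b c) a b c) + (1 / 2 * (n3 (M.at_ a b c) a b c)) * (n326 (M.at_ a b c) a b c))), fun h1 h2 h3 => (enc_add ((F304 M).enc h1 h2 h3) (enc_mul h2 ((F1622 M).enc h1 h2 h3)))⟩

noncomputable def F1631 (M : MolF) : Fn3 := ⟨_, fun a b c => (b) * ((n3 (M.at_ a b c) a b c) * (n462 (M.at_ a b c) a b c)), fun h1 h2 h3 => (enc_mul h2 (enc_norm (enc_mul ((F3 M).enc h1 h2 h3) ((F462 M).enc h1 h2 h3))))⟩

noncomputable def F1632 (M : MolF) : Fn3 := ⟨_, fun a b c => (a) * (n474 (M.at_ a b c) a b c), fun h1 h2 h3 => (enc_mul h1 ((F474 M).enc h1 h2 h3))⟩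

noncomputable def F1633 (M : MolF) : Fn3 := ⟨_, fun a b c => (a) * (n474 (M.at_ a b c) a b c) + (b) * ((n3 (M.at_ a b c) a b c) * (n462 (M.at_ a b c) a b c)), fun h1 h2 h3 => (enc_norm (enc_add ((F1632 M).enc h1 h2 h3) ((F1631 M).enc h1 h2 h3)))⟩

noncomputable def F1634 (M : MolF) : Fn3 := ⟨_, fun a b c => (a) * (n472 (M.at_ a b c) a b c), fun h1 h2 h3 => (enc_mul h1 ((F472 M).enc h1 h2 h3))⟩

noncomputable def F1637 (M : MolF) : Fn3 := ⟨_, fun a b c => 1 + n372 (M.at_ a b c) a b c, fun h1 h2 h3 => (enc_norm (enc_add (en1 _) ((F372 M).enc h1 h2 h3)))⟩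

noncomputable def F1642 (M : MolF) : Fn3 := ⟨_, fun a b c => (b) * (n486 (M.at_ a b c) a b c), fun h1 h2 h3 => (enc_mul h2 ((F486 M).enc h1 h2 h3))⟩

noncomputable def F1645 (M : MolF) : Fn3 := ⟨_, fun a b c => (n169 (M.at_ a b c) a b c) * (n474 (M.at_ a b c) a b c) + (b) * (n486 (M.at_ a b c) a b c), fun h1 h2 h3 => (enc_norm (enc_add (enc_mul ((F169 M).enc h1 h2 h3) ((F474 M).enc h1 h2 h3)) ((F1642 M).enc h1 h2 h3)))⟩

noncomputable def F1661 (M : MolF) : Fn3 := ⟨_, fun a b c => (n205 (M.at_ a b c) a b c) * ((n458 (M.at_ a b c) a b c) * (n474 (M.at_ a b c) a b c + n527 (M.at_ a b c) a b c) + (n160 (M.at_ a b c) a b c) * (n475 (M.at_ a b c) a b c)) - (n15 (M.at_ a b c) a b c) * ((n469 (M.at_ a b c) a b c) * ((a) * (n474 (M.at_ a b c) a b c) + (b) * ((n3 (M.at_ a b c) a b c) * (n462 (M.at_ a b c) a b c))) + (n480 (M.at_ a b c) a b c + n474 (M.at_ a b c) a b c - (1 + n372 (M.at_ a b c)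 a b c) * (n462 (M.at_ a b c) a b c)) * (n474 (M.at_ a b c) a b c + n527 (M.at_ a b c) a b c) + (n465 (M.at_ a b c) a b c) * ((a) * (n472 (M.at_ a b c) a b c) + (n3 (M.at_ a b c) a b c) * (n462 (M.at_ a b c) a b c)) + (1 / 2 * (n169 (M.at_ a b c) a b c)) * (n475 (M.at_ a b c) a b c)), fun h1 h2 h3 => (enc_norm (enc_sub (enc_mul ((F205 M).enc h1 h2 h3) (enc_norm (enc_add (enc_mul ((F458 M).enc h1 h2 h3) (enc_norm (enc_add ((F474 M).enc h1 h2 h3) ((F527 M).enc h1 h2 h3)))) (enc_mul ((F160 M).enc h1 h2 h3) ((F475 M).enc h1 h2 h3))))) (enc_mul ((F15 M).enc h1 h2 h3) (enc_norm (enc_add (enc_add (enc_add (enc_mul ((F469 M).enc h1 h2 h3) ((F1633 M).enc h1 h2 h3)) (enc_mul (enc_norm (enc_sub (enc_add ((F480 M).enc h1 h2 h3) ((F474 M).enc h1 h2 h3)) (enc_mul ((F1637 M).enc h1 h2 h3) ((F462 M).enc h1 h2 h3)))) (enc_norm (enc_add ((F474 M).enc h1 h2 h3) ((F527 M).enc h1 h2 h3))))) (enc_mul ((F465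 M).enc h1 h2 h3) (enc_norm (enc_add ((F1634 M).enc h1 h2 h3) (enc_mul ((F3 M).enc h1 h2 h3) ((F462 M).enc h1 h2 h3)))))) (enc_mul (enc_norm (es1_2 ((F169 M).enc h1 h2 h3))) ((F475 M).enc h1 h2 h3)))))))⟩

noncomputable def F1675 (M : MolF) : Fn3 := ⟨_, fun a b c => (c) * ((n458 (M.at_ a b c) a b c) * ((n169 (M.at_ a b c) a b c) * (n474 (M.at_ a b c) a b c) + (b) * (n486 (M.at_ a b c) a b c)) + (n160 (M.at_ a b c) a b c) * (n487 (M.at_ a b c) a b c)) - (n15 (M.at_ a b c) a b c) * (((n3 (M.at_ a b c) a b c) * (n472 (M.at_ a b c) a b c) - n486 (M.at_ a b c) a b c) * ((n169 (M.at_ a b c) a b c) * (n474 (M.at_ a b c) a b c) + (b) * (n486 (M.at_ a b c) a b c)) - (n484 (M.at_ a b c) a b c) * ((a) * (n474 (M.at_ a b c) a b c) - (b) * (n486 (M.at_ a b c) a b c)) - (n509 (M.at_ a b c) a b c) * ((a) * (n472 (M.at_ a b c) a b c) - n486 (M.at_ a b c) a b c) + (1 / 2 * (n3 (M.at_ a b c) a b c)) * (n487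 (M.at_ a b c) a b c)), fun h1 h2 h3 => (enc_norm (enc_sub (enc_mul h3 (enc_norm (enc_add (enc_mul ((F458 M).enc h1 h2 h3) ((F1645 M).enc h1 h2 h3)) (enc_mul ((F160 M).enc h1 h2 h3) ((F487 M).enc h1 h2 h3))))) (enc_mul ((F15 M).enc h1 h2 h3) (enc_norm (enc_add (enc_sub (enc_sub (enc_mul (enc_norm (enc_sub (enc_mul ((F3 M).enc h1 h2 h3) ((F472 M).enc h1 h2 h3)) ((F486 M).enc h1 h2 h3))) ((F1645 M).enc h1 h2 h3)) (enc_mul ((F484 M).enc h1 h2 h3) (enc_norm (enc_sub ((F1632 M).enc h1 h2 h3) ((F1642 M).enc h1 h2 h3))))) (enc_mul ((F509 M).enc h1 h2 h3) (enc_norm (enc_sub ((F1634 M).enc h1 h2 h3) ((F486 M).enc h1 h2 h3))))) (enc_mul (enc_norm (es1_2 ((F3 M).enc h1 h2 h3))) ((F487 M).enc h1 h2 h3)))))))⟩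

noncomputable def F1677 (M : MolF) : Fn3 := ⟨_, fun a b c => (a) * (n474 (M.at_ a b c) a b c) + (b) * ((n3 (M.at_ a b c) a b c) * (n462 (M.at_ a b c) a b c)) - (b) * (n474 (M.at_ a b c) a b c + n527 (M.at_ a b c) a b c), fun h1 h2 h3 => (enc_sub ((F1633 M).enc h1 h2 h3) (enc_mul h2 (enc_norm (enc_add ((F474 M).enc h1 h2 h3) ((F527 M).enc h1 h2 h3)))))⟩

noncomputable def F1680 (M : MolF) : Fn3 := ⟨_, fun a b c => n300 (M.at_ a b c) a b c + (b) * ((n205 (M.at_ a b c) a b c) * ((n458 (M.at_ a b c) a b c) * (n474 (M.at_ a b c) a b c + n527 (M.at_ a b c) a b c) + (n160 (M.at_ a b c) a b c) * (n475 (M.at_ a b c) a b c)) - (n15 (M.at_ a b c) a b c) * ((n469 (M.at_ a b c) a b c) * ((a) * (n474 (M.at_ a b c) a b c) + (b) * ((n3 (M.at_ a b c) a b c) * (n462 (M.at_ a b c) a b c))) + (n480 (M.at_ a b c) a b c + n474 (M.at_ a b c) a b c - (1 + n372 (M.at_ a b c) a b c) * (n462 (M.at_ a b c) a b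 c)) * (n474 (M.at_ a b c) a b c + n527 (M.at_ a b c) a b c) + (n465 (M.at_ a b c) a b c) * ((a) * (n472 (M.at_ a b c) a b c) + (n3 (M.at_ a b c) a b c) * (n462 (M.at_ a b c) a b c)) + (1 / 2 * (n169 (M.at_ a b c) a b c)) * (n475 (M.at_ a b c) a b c))), fun h1 h2 h3 => (enc_add ((F300 M).enc h1 h2 h3) (enc_mul h2 ((F1661 M).enc h1 h2 h3)))⟩

noncomputable def F1681 (M : MolF) : Fn3 := ⟨_, fun a b c => n304 (M.at_ a b c) a b c + (b) * ((c) * ((n458 (M.at_ a b c) a b c) * ((n169 (M.at_ a b c) a b c) * (n474 (M.at_ a b c) a b c) + (b) * (n486 (M.at_ a b c) a b c)) + (n160 (M.at_ a b c) a b c) * (n487 (M.at_ a b c) a b c)) - (n15 (M.at_ a b c) a b c) * (((n3 (M.at_ a b c) a b c) * (n472 (M.at_ a b c) a b c) - n486 (M.at_ a b c) a b c) * ((n169 (M.at_ a b c) a b c) * (n474 (M.at_ a b c) a b c) + (b) * (n486 (M.at_ a b c) a b c)) - (n484 (M.at_ a b c) a b c) * ((a) * (n474 (M.at_ a b c) a b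 c) - (b) * (n486 (M.at_ a b c) a b c)) - (n509 (M.at_ a b c) a b c) * ((a) * (n472 (M.at_ a b c) a b c) - n486 (M.at_ a b c) a b c) + (1 / 2 * (n3 (M.at_ a b c) a b c)) * (n487 (M.at_ a b c) a b c))), fun h1 h2 h3 => (enc_add ((F304 M).enc h1 h2 h3) (enc_mul h2 ((F1675 M).enc h1 h2 h3)))⟩

noncomputable def F1682 (M : MolF) : Fn3 := ⟨_, fun a b c => (a) * (n540 (M.at_ a b c) a b c), fun h1 h2 h3 => (enc_mul h1 ((F540 M).enc h1 h2 h3))⟩

noncomputable def F1683 (M : MolF) : Fn3 := ⟨_, fun a b c => (a) * (n540 (M.at_ a b c) a b c) - (b) * ((n3 (M.at_ a b c) a b c) * (n462 (M.at_ a b c) a b c)), fun h1 h2 h3 => (enc_norm (enc_sub ((F1682 M).enc h1 h2 h3) ((F1631 M).enc h1 h2 h3)))⟩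

noncomputable def F1684 (M : MolF) : Fn3 := ⟨_, fun a b c => (a) * (n538 (M.at_ a b c) a b c), fun h1 h2 h3 => (enc_mul h1 ((F538 M).enc h1 h2 h3))⟩

noncomputable def F1689 (M : MolF) : Fn3 := ⟨_, fun a b c => n548 (M.at_ a b c) a b c - n540 (M.at_ a b c) a b c, fun h1 h2 h3 => (enc_norm (enc_sub ((F548 M).enc h1 h2 h3) ((F540 M).enc h1 h2 h3)))⟩

noncomputable def F1690 (M : MolF) : Fn3 := ⟨_, fun a b c => (b) * (n548 (M.at_ a b c) a b c - n540 (M.at_ a b c) a b c), fun h1 h2 h3 => (enc_mul h2 ((F1689 M).enc h1 h2 h3))⟩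

noncomputable def F1692 (M : MolF) : Fn3 := ⟨_, fun a b c => (n169 (M.at_ a b c) a b c) * (n540 (M.at_ a b c) a b c) - (b) * (n548 (M.at_ a b c) a b c - n540 (M.at_ a b c) a b c), fun h1 h2 h3 => (enc_norm (enc_sub (enc_mul ((F169 M).enc h1 h2 h3) ((F540 M).enc h1 h2 h3)) ((F1690 M).enc h1 h2 h3)))⟩

noncomputable def F1697 (M : MolF) : Fn3 := ⟨_, fun a b c => n544 (M.at_ a b c) a b c - (n548 (M.at_ a b c) a b c - n540 (M.at_ a b c) a b c), fun h1 h2 h3 => (enc_norm (enc_sub ((F544 M).enc h1 h2 h3) ((F1689 M).enc h1 h2 h3)))⟩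

noncomputable def F1709 (M : MolF) : Fn3 := ⟨_, fun a b c => (n205 (M.at_ a b c) a b c) * ((n536 (M.at_ a b c) a b c) * (n540 (M.at_ a b c) a b c - n527 (M.at_ a b c) a b c) + (n160 (M.at_ a b c) a b c) * (n541 (M.at_ a b c) a b c)) - (n15 (M.at_ a b c) a b c) * ((n469 (M.at_ a b c) a b c) * ((a) * (n540 (M.at_ a b c) a b c) - (b) * ((n3 (M.at_ a b c) a b c) * (n462 (M.at_ a b c) a b c))) + ((n3 (M.at_ a b c) a b c) * (n462 (M.at_ a b c) a b c) + n544 (M.at_ a b c) a b c) * (n540 (M.at_ a b c) a b c - n527 (M.at_ a b c) a b c) + (n465 (M.at_ a b c) a b c) * ((a) * (n538 (M.at_ a b c) a b c) - (n3 (M.at_ a b c) a b c) * (n462 (M.at_ a b c) a b c)) + (1 / 2 * (n169 (M.at_ a b c) a b c)) * (n541 (M.at_ a b c) a b c)), fun h1 h2 h3 => (enc_norm (enc_sub (enc_mul ((F205 M).enc h1 h2 h3) (enc_norm (enc_add (enc_mul ((F536 M).enc h1 h2 h3) (enc_norm (enc_sub ((F540 M).enc h1 h2 h3) ((F527 M).enc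 h1 h2 h3)))) (enc_mul ((F160 M).enc h1 h2 h3) ((F541 M).enc h1 h2 h3))))) (enc_mul ((F15 M).enc h1 h2 h3) (enc_norm (enc_add (enc_add (enc_add (enc_mul ((F469 M).enc h1 h2 h3) ((F1683 M).enc h1 h2 h3)) (enc_mul (enc_norm (enc_add (enc_mul ((F3 M).enc h1 h2 h3) ((F462 M).enc h1 h2 h3)) ((F544 M).enc h1 h2 h3))) (enc_norm (enc_sub ((F540 M).enc h1 h2 h3) ((F527 M).enc h1 h2 h3))))) (enc_mul ((F465 M).enc h1 h2 h3) (enc_norm (enc_sub ((F1684 M).enc h1 h2 h3) (enc_mul ((F3 M).enc h1 h2 h3) ((F462 M).enc h1 h2 h3)))))) (enc_mul (enc_norm (es1_2 ((F169 M).enc h1 h2 h3))) ((F541 M).enc h1 h2 h3)))))))⟩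

noncomputable def F1724 (M : MolF) : Fn3 := ⟨_, fun a b c => (c) * ((n536 (M.at_ a b c) a b c) * ((n169 (M.at_ a b c) a b c) * (n540 (M.at_ a b c) a b c) - (b) * (n548 (M.at_ a b c) a b c - n540 (M.at_ a b c) a b c)) + (n160 (M.at_ a b c) a b c) * (n544 (M.at_ a b c) a b c - (n548 (M.at_ a b c) a b c - n540 (M.at_ a b c) a b c))) - (n15 (M.at_ a b c) a b c) * ((n548 (M.at_ a b c) a b c + (n3 (M.at_ a b c) a b c) * (n538 (M.at_ a b c) a b c) - n540 (M.at_ a b c) a b c) * ((n169 (M.at_ a b c) a b c) * (n540 (M.at_ a b c) a b c) - (b) * (n548 (M.at_ a b c) a b c - n540 (M.at_ a b c) a b c)) - (n546 (M.at_ a b c) a b c) * ((a) * (n540 (M.at_ a b c) a b c) + (b) * (n548 (M.at_ a b c) a b c - n540 (M.at_ a b c) a b c)) - (n509 (M.at_ a b c) a b c) * ((a) * (n538 (M.at_ a b c) a b c) + (n548 (M.at_ a b c) a b c - n540 (M.at_ a b c) a b c)) + (1 / 2 * (n3 (M.at_ a b c) a b c)) * (n544 (M.at_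 a b c) a b c - (n548 (M.at_ a b c) a b c - n540 (M.at_ a b c) a b c))), fun h1 h2 h3 => (enc_norm (enc_sub (enc_mul h3 (enc_norm (enc_add (enc_mul ((F536 M).enc h1 h2 h3) ((F1692 M).enc h1 h2 h3)) (enc_mul ((F160 M).enc h1 h2 h3) ((F1697 M).enc h1 h2 h3))))) (enc_mul ((F15 M).enc h1 h2 h3) (enc_norm (enc_add (enc_sub (enc_sub (enc_mul (enc_norm (enc_sub (enc_add ((F548 M).enc h1 h2 h3) (enc_mul ((F3 M).enc h1 h2 h3) ((F538 M).enc h1 h2 h3))) ((F540 M).enc h1 h2 h3))) ((F1692 M).enc h1 h2 h3)) (enc_mul ((F546 M).enc h1 h2 h3) (enc_norm (enc_add ((F1682 M).enc h1 h2 h3) ((F1690 M).enc h1 h2 h3))))) (enc_mul ((F509 M).enc h1 h2 h3) (enc_norm (enc_add ((F1684 M).enc h1 h2 h3) ((F1689 M).enc h1 h2 h3))))) (enc_mul (enc_norm (es1_2 ((F3 M).enc h1 h2 h3))) ((F1697 M).enc h1 h2 h3)))))))⟩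

noncomputable def F1729 (M : MolF) : Fn3 := ⟨_, fun a b c => n300 (M.at_ a b c) a b c + (b) * ((n205 (M.at_ a b c) a b c) * ((n536 (M.at_ a b c) a b c) * (n540 (M.at_ a b c) a b c - n527 (M.at_ a b c) a b c) + (n160 (M.at_ a b c) a b c) * (n541 (M.at_ a b c) a b c)) - (n15 (M.at_ a b c) a b c) * ((n469 (M.at_ a b c) a b c) * ((a) * (n540 (M.at_ a b c) a b c) - (b) * ((n3 (M.at_ a b c) a b c) * (n462 (M.at_ a b c) a b c))) + ((n3 (M.at_ a b c) a b c) * (n462 (M.at_ a b c) a b c) + n544 (M.at_ a b c) a b c) * (n540 (M.at_ a b c) a b c - n527 (M.at_ a b c) a b c) + (n465 (M.at_ a b c) a b c) * ((a) * (n538 (M.at_ a b c) a b c) - (n3 (M.at_ a b c) a b c) * (n462 (M.at_ a b c) a b c)) + (1 / 2 * (n169 (M.at_ a b c) a b c)) * (n541 (M.at_ a b c) a b c))), fun h1 h2 h3 => (enc_add ((F300 M).enc h1 h2 h3) (enc_mul h2 ((F1709 M).enc h1 h2 h3)))⟩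

noncomputable def F1730 (M : MolF) : Fn3 := ⟨_, fun a b c => n304 (M.at_ a b c) a b c + (b) * ((c) * ((n536 (M.at_ a b c) a b c) * ((n169 (M.at_ a b c) a b c) * (n540 (M.at_ a b c) a b c) - (b) * (n548 (M.at_ a b c) a b c - n540 (M.at_ a b c) a b c)) + (n160 (M.at_ a b c) a b c) * (n544 (M.at_ a b c) a b c - (n548 (M.at_ a b c) a b c - n540 (M.at_ a b c) a b c))) - (n15 (M.at_ a b c) a b c) * ((n548 (M.at_ a b c) a b c + (n3 (M.at_ a b c) a b c) * (n538 (M.at_ a b c) a b c) - n540 (M.at_ a b c) a b c) * ((n169 (M.at_ a b c) a b c) * (n540 (M.at_ a b c) a b c) - (b) * (n548 (M.at_ a b c) a b c - n540 (M.at_ a b c) a b c)) - (n546 (M.at_ a b c) a b c) * ((a) * (n540 (M.at_ a b c) a b c) + (b) * (n548 (M.at_ a b c) a b c - n540 (M.at_ a b c) a b c)) - (n509 (M.at_ a b c) a b c) * ((a) * (n538 (M.at_ a b c) a b c) + (n548 (M.at_ a b c) a b c - n540 (M.at_ a b c) a b c)) + (1 / 2 * (n3 (M.at_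 a b c) a b c)) * (n544 (M.at_ a b c) a b c - (n548 (M.at_ a b c) a b c - n540 (M.at_ a b c) a b c)))), fun h1 h2 h3 => (enc_add ((F304 M).enc h1 h2 h3) (enc_mul h2 ((F1724 M).enc h1 h2 h3)))⟩

noncomputable def F1731 (M : MolF) : Fn3 := ⟨_, fun a b c => (b) * (n774 (M.at_ a b c) a b c), fun h1 h2 h3 => (enc_mul h2 ((F774 M).enc h1 h2 h3))⟩

noncomputable def F1733 (M : MolF) : Fn3 := ⟨_, fun a b c => (a) * (n766 (M.at_ a b c) a b c) + (b) * (n774 (M.at_ a b c) a b c), fun h1 h2 h3 => (enc_norm (enc_add (enc_mul h1 ((F766 M).enc h1 h2 h3)) ((F1731 M).enc h1 h2 h3)))⟩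

noncomputable def F1735 (M : MolF) : Fn3 := ⟨_, fun a b c => (a) * (n764 (M.at_ a b c) a b c) + n774 (M.at_ a b c) a b c, fun h1 h2 h3 => (enc_norm (enc_add (enc_mul h1 ((F764 M).enc h1 h2 h3)) ((F774 M).enc h1 h2 h3)))⟩

noncomputable def F1738 (M : MolF) : Fn3 := ⟨_, fun a b c => (n169 (M.at_ a b c) a b c) * (n766 (M.at_ a b c) a b c) - (b) * (n774 (M.at_ a b c) a b c), fun h1 h2 h3 => (enc_norm (enc_sub (enc_mul ((F169 M).enc h1 h2 h3) ((F766 M).enc h1 h2 h3)) ((F1731 M).enc h1 h2 h3)))⟩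

noncomputable def F1752 (M : MolF) : Fn3 := ⟨_, fun a b c => (n205 (M.at_ a b c) a b c) * ((n656 (M.at_ a b c) a b c) * (n766 (M.at_ a b c) a b c + n862 (M.at_ a b c) a b c) + (n654 (M.at_ a b c) a b c) * (n767 (M.at_ a b c) a b c)) - (n15 (M.at_ a b c) a b c) * ((n760 (M.at_ a b c) a b c) * ((a) * (n766 (M.at_ a b c) a b c) + (b) * (n774 (M.at_ a b c) a b c)) + (n775 (M.at_ a b c) a b c) * (n766 (M.at_ a b c) a b c + n862 (M.at_ a b c) a b c) + (n755 (M.at_ a b c) a b c) * ((a) * (n764 (M.at_ a b c) a b c) + n774 (M.at_ a b c) a b c) + (n781 (M.at_ a b c) a b c) * (n767 (M.at_ a b c) a b c)), fun h1 h2 h3 => (enc_norm (enc_sub (enc_mul ((F205 M).enc h1 h2 h3) (enc_norm (enc_add (enc_mul ((F656 M).enc h1 h2 h3) (enc_norm (enc_add ((F766 M).enc h1 h2 h3) ((F862 M).enc h1 h2 h3)))) (enc_mul ((F654 M).enc h1 h2 h3) ((F767 M).enc h1 h2 h3))))) (enc_mul ((F15 M).enc h1 h2 h3) (enc_norm (enc_add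 (enc_add (enc_add (enc_mul ((F760 M).enc h1 h2 h3) ((F1733 M).enc h1 h2 h3)) (enc_mul ((F775 M).enc h1 h2 h3) (enc_norm (enc_add ((F766 M).enc h1 h2 h3) ((F862 M).enc h1 h2 h3))))) (enc_mul ((F755 M).enc h1 h2 h3) ((F1735 M).enc h1 h2 h3))) (enc_mul ((F781 M).enc h1 h2 h3) ((F767 M).enc h1 h2 h3)))))))⟩

noncomputable def F1766 (M : MolF) : Fn3 := ⟨_, fun a b c => (c) * ((n656 (M.at_ a b c) a b c) * ((n169 (M.at_ a b c) a b c) * (n766 (M.at_ a b c) a b c) - (b) * (n774 (M.at_ a b c) a b c)) + (n654 (M.at_ a b c) a b c) * (n775 (M.at_ a b c) a b c)) - (n15 (M.at_ a b c) a b c) * ((n774 (M.at_ a b c) a b c + (n3 (M.at_ a b c) a b c) * (n764 (M.at_ a b c) a b c)) * ((n169 (M.at_ a b c) a b c) * (n766 (M.at_ a b c) a b c) - (b) * (n774 (M.at_ a b c) a b c)) - (n773 (M.at_ a b c) a b c) * ((a) * (n766 (M.at_ a b c) a b c) + (b) * (n774 (M.at_ a b c) a b c)) - (n799 (M.at_ a b c) a b c) * ((a)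 * (n764 (M.at_ a b c) a b c) + n774 (M.at_ a b c) a b c) + (n800 (M.at_ a b c) a b c) * (n775 (M.at_ a b c) a b c)), fun h1 h2 h3 => (enc_norm (enc_sub (enc_mul h3 (enc_norm (enc_add (enc_mul ((F656 M).enc h1 h2 h3) ((F1738 M).enc h1 h2 h3)) (enc_mul ((F654 M).enc h1 h2 h3) ((F775 M).enc h1 h2 h3))))) (enc_mul ((F15 M).enc h1 h2 h3) (enc_norm (enc_add (enc_sub (enc_sub (enc_mul (enc_norm (enc_add ((F774 M).enc h1 h2 h3) (enc_mul ((F3 M).enc h1 h2 h3) ((F764 M).enc h1 h2 h3)))) ((F1738 M).enc h1 h2 h3)) (enc_mul ((F773 M).enc h1 h2 h3) ((F1733 M).enc h1 h2 h3))) (enc_mul ((F799 M).enc h1 h2 h3) ((F1735 M).enc h1 h2 h3))) (enc_mul ((F800 M).enc h1 h2 h3) ((F775 M).enc h1 h2 h3)))))))⟩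

noncomputable def F1769 (M : MolF) : Fn3 := ⟨_, fun a b c => n868 (M.at_ a b c) a b c + (b) * ((n205 (M.at_ a b c) a b c) * ((n656 (M.at_ a b c) a b c) * (n766 (M.at_ a b c) a b c + n862 (M.at_ a b c) a b c) + (n654 (M.at_ a b c) a b c) * (n767 (M.at_ a b c) a b c)) - (n15 (M.at_ a b c) a b c) * ((n760 (M.at_ a b c) a b c) * ((a) * (n766 (M.at_ a b c) a b c) + (b) * (n774 (M.at_ a b c) a b c)) + (n775 (M.at_ a b c) a b c) * (n766 (M.at_ a b c) a b c + n862 (M.at_ a b c) a b c) + (n755 (M.at_ a b c) a b c) * ((a) * (n764 (M.at_ a b c) a b c) + n774 (M.at_ a b c) a b c) + (n781 (M.at_ a b c) a b c) * (n767 (M.at_ a b c) a b c))), fun h1 h2 h3 => (enc_add ((F868 M).enc h1 h2 h3) (enc_mul h2 ((F1752 M).enc h1 h2 h3)))⟩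

noncomputable def F1770 (M : MolF) : Fn3 := ⟨_, fun a b c => n872 (M.at_ a b c) a b c + (b) * ((c) * ((n656 (M.at_ a b c) a b c) * ((n169 (M.at_ a b c) a b c) * (n766 (M.at_ a b c) a b c) - (b) * (n774 (M.at_ a b c) a b c)) + (n654 (M.at_ a b c) a b c) * (n775 (M.at_ a b c) a b c)) - (n15 (M.at_ a b c) a b c) * ((n774 (M.at_ a b c) a b c + (n3 (M.at_ a b c) a b c) * (n764 (M.at_ a b c) a b c)) * ((n169 (M.at_ a b c) a b c) * (n766 (M.at_ a b c) a b c) - (b) * (n774 (M.at_ a b c) a b c)) - (n773 (M.at_ a b c) a b c) * ((a) * (n766 (M.at_ a b c) a b c) + (b) * (n774 (M.at_ a b c) a b c)) - (n799 (M.at_ a b c) a b c) * ((a) * (n764 (M.at_ a b c) a b c) + n774 (M.at_ a b c) a b c) + (n800 (M.at_ a b c) a b c) * (n775 (M.at_ a b c) a b c))), fun h1 h2 h3 => (enc_add ((F872 M).enc h1 h2 h3) (enc_mul h2 ((F1766 M).enc h1 h2 h3)))⟩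

noncomputable def F1771 (M : MolF) : Fn3 := ⟨_, fun a b c => (a) * (n883 (M.at_ a b c) a b c), fun h1 h2 h3 => (enc_mul h1 ((F883 M).enc h1 h2 h3))⟩

noncomputable def F1772 (M : MolF) : Fn3 := ⟨_, fun a b c => (a) * (n883 (M.at_ a b c) a b c) - (b) * (n774 (M.at_ a b c) a b c), fun h1 h2 h3 => (enc_norm (enc_sub ((F1771 M).enc h1 h2 h3) ((F1731 M).enc h1 h2 h3)))⟩

noncomputable def F1773 (M : MolF) : Fn3 := ⟨_, fun a b c => (a) * (n881 (M.at_ a b c) a b c), fun h1 h2 h3 => (enc_mul h1 ((F881 M).enc h1 h2 h3))⟩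

noncomputable def F1779 (M : MolF) : Fn3 := ⟨_, fun a b c => (b) * (n893 (M.at_ a b c) a b c), fun h1 h2 h3 => (enc_mul h2 ((F893 M).enc h1 h2 h3))⟩

noncomputable def F1781 (M : MolF) : Fn3 := ⟨_, fun a b c => (n169 (M.at_ a b c) a b c) * (n883 (M.at_ a b c) a b c) - (b) * (n893 (M.at_ a b c) a b c), fun h1 h2 h3 => (enc_norm (enc_sub (enc_mul ((F169 M).enc h1 h2 h3) ((F883 M).enc h1 h2 h3)) ((F1779 M).enc h1 h2 h3)))⟩

noncomputable def F1797 (M : MolF) : Fn3 := ⟨_, fun a b c => (n205 (M.at_ a b c) a b c) * ((n877 (M.at_ a b c) a b c) * (n883 (M.at_ a b c) a b c - n862 (M.at_ a b c) a b c) + (n654 (M.at_ a b c) a b c) * (n884 (M.at_ a b c) a b c)) - (n15 (M.at_ a b c) a b c) * ((n760 (M.at_ a b c) a b c) * ((a) * (n883 (M.at_ a b c) a b c) - (b) * (n774 (M.at_ a b c) a b c)) + ((1 + n30 (M.at_ a b c) a b c) * (n752 (M.at_ a b c) a b c) + n887 (M.at_ a b c) a b c - n883 (M.at_ a b c)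 a b c) * (n883 (M.at_ a b c) a b c - n862 (M.at_ a b c) a b c) + (n755 (M.at_ a b c) a b c) * ((a) * (n881 (M.at_ a b c) a b c) - n774 (M.at_ a b c) a b c) + (n781 (M.at_ a b c) a b c) * (n884 (M.at_ a b c) a b c)), fun h1 h2 h3 => (enc_norm (enc_sub (enc_mul ((F205 M).enc h1 h2 h3) (enc_norm (enc_add (enc_mul ((F877 M).enc h1 h2 h3) (enc_norm (enc_sub ((F883 M).enc h1 h2 h3) ((F862 M).enc h1 h2 h3)))) (enc_mul ((F654 M).enc h1 h2 h3) ((F884 M).enc h1 h2 h3))))) (enc_mul ((F15 M).enc h1 h2 h3) (enc_norm (enc_add (enc_add (enc_add (enc_mul ((F760 M).enc h1 h2 h3) ((F1772 M).enc h1 h2 h3)) (enc_mul (enc_norm (enc_sub (enc_add (enc_mul (enc_norm (enc_add (en1 _) ((F30 M).enc h1 h2 h3))) ((F752 M).enc h1 h2 h3)) ((F887 M).enc h1 h2 h3)) ((F883 M).enc h1 h2 h3))) (enc_norm (enc_sub ((F883 M).enc h1 h2 h3) ((F862 M).enc h1 h2 h3))))) (enc_mul ((F755 M).enc h1 h2 h3) (enc_norm (enc_sub ((F1773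 M).enc h1 h2 h3) ((F774 M).enc h1 h2 h3))))) (enc_mul ((F781 M).enc h1 h2 h3) ((F884 M).enc h1 h2 h3)))))))⟩

noncomputable def F1811 (M : MolF) : Fn3 := ⟨_, fun a b c => (c) * ((n877 (M.at_ a b c) a b c) * ((n169 (M.at_ a b c) a b c) * (n883 (M.at_ a b c) a b c) - (b) * (n893 (M.at_ a b c) a b c)) + (n654 (M.at_ a b c) a b c) * (n894 (M.at_ a b c) a b c)) - (n15 (M.at_ a b c) a b c) * ((n893 (M.at_ a b c) a b c + (n3 (M.at_ a b c) a b c) * (n881 (M.at_ a b c) a b c)) * ((n169 (M.at_ a b c) a b c) * (n883 (M.at_ a b c) a b c) - (b) * (n893 (M.at_ a b c) a b c)) - (n891 (M.at_ a b c) a b c) * ((a) * (n883 (M.at_ a b c) a b c) + (b) * (n893 (M.at_ a b c) a b c)) - (n799 (M.at_ a b c) a b c) * ((a) * (n881 (M.at_ a b c) a b c) + n893 (M.at_ a b c) a b c) + (n800 (M.at_ a b c) a b c) * (n894 (M.at_ a b c) a b c)), fun h1 h2 h3 => (enc_norm (enc_sub (enc_mul h3 (enc_norm (enc_add (enc_mul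 ((F877 M).enc h1 h2 h3) ((F1781 M).enc h1 h2 h3)) (enc_mul ((F654 M).enc h1 h2 h3) ((F894 M).enc h1 h2 h3))))) (enc_mul ((F15 M).enc h1 h2 h3) (enc_norm (enc_add (enc_sub (enc_sub (enc_mul (enc_norm (enc_add ((F893 M).enc h1 h2 h3) (enc_mul ((F3 M).enc h1 h2 h3) ((F881 M).enc h1 h2 h3)))) ((F1781 M).enc h1 h2 h3)) (enc_mul ((F891 M).enc h1 h2 h3) (enc_norm (enc_add ((F1771 M).enc h1 h2 h3) ((F1779 M).enc h1 h2 h3))))) (enc_mul ((F799 M).enc h1 h2 h3) (enc_norm (enc_add ((F1773 M).enc h1 h2 h3) ((F893 M).enc h1 h2 h3))))) (enc_mul ((F800 M).enc h1 h2 h3) ((F894 M).enc h1 h2 h3)))))))⟩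

noncomputable def F1813 (M : MolF) : Fn3 := ⟨_, fun a b c => (a) * (n883 (M.at_ a b c) a b c) - (b) * (n774 (M.at_ a b c) a b c) + (b) * (n883 (M.at_ a b c) a b c - n862 (M.at_ a b c) a b c), fun h1 h2 h3 => (enc_add ((F1772 M).enc h1 h2 h3) (enc_mul h2 (enc_norm (enc_sub ((F883 M).enc h1 h2 h3) ((F862 M).enc h1 h2 h3)))))⟩

noncomputable def F1818 (M : MolF) : Fn3 := ⟨_, fun a b c => n868 (M.at_ a b c) a b c + (b) * ((n205 (M.at_ a b c) a b c) * ((n877 (M.at_ a b c) a b c) * (n883 (M.at_ a b c) a b c - n862 (M.at_ a b c) a b c) + (n654 (M.at_ a b c) a b c) * (n884 (M.at_ a b c) a b c)) - (n15 (M.at_ a b c) a b c) * ((n760 (M.at_ a b c) a b c) * ((a) * (n883 (M.at_ a b c) a b c) - (b) * (n774 (M.at_ a b c) a b c)) + ((1 + n30 (M.at_ a b c) a b c) * (n752 (M.at_ a b c) a b c) + n887 (M.at_ a b c) a b c - n883 (M.at_ a b c) a b c) * (n883 (M.at_ a b c) a b c - n862 (M.at_ a b c) a b c)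 + (n755 (M.at_ a b c) a b c) * ((a) * (n881 (M.at_ a b c) a b c) - n774 (M.at_ a b c) a b c) + (n781 (M.at_ a b c) a b c) * (n884 (M.at_ a b c) a b c))), fun h1 h2 h3 => (enc_add ((F868 M).enc h1 h2 h3) (enc_mul h2 ((F1797 M).enc h1 h2 h3)))⟩

noncomputable def F1819 (M : MolF) : Fn3 := ⟨_, fun a b c => n872 (M.at_ a b c) a b c + (b) * ((c) * ((n877 (M.at_ a b c) a b c) * ((n169 (M.at_ a b c) a b c) * (n883 (M.at_ a b c) a b c) - (b) * (n893 (M.at_ a b c) a b c)) + (n654 (M.at_ a b c) a b c) * (n894 (M.at_ a b c) a b c)) - (n15 (M.at_ a b c) a b c) * ((n893 (M.at_ a b c) a b c + (n3 (M.at_ a b c) a b c) * (n881 (M.at_ a b c) a b c)) * ((n169 (M.at_ a b c) a b c) * (n883 (M.at_ a b c) a b c) - (b) * (n893 (M.at_ a b c) a b c)) - (n891 (M.at_ a b c) a b c) * ((a) * (n883 (M.at_ a b c) a b c) + (b) * (n893 (M.at_ a b c) a b c)) - (n799 (M.at_ a b c) a b c) * ((a) * (n881 (M.at_ a b c) a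 b c) + n893 (M.at_ a b c) a b c) + (n800 (M.at_ a b c) a b c) * (n894 (M.at_ a b c) a b c))), fun h1 h2 h3 => (enc_add ((F872 M).enc h1 h2 h3) (enc_mul h2 ((F1811 M).enc h1 h2 h3)))⟩

noncomputable def F1820 (M : MolF) : Fn3 := ⟨_, fun a b c => (b) * ((n3 (M.at_ a b c) a b c) * (n1047 (M.at_ a b c) a b c)), fun h1 h2 h3 => (enc_mul h2 (enc_norm (enc_mul ((F3 M).enc h1 h2 h3) ((F1047 M).enc h1 h2 h3))))⟩

noncomputable def F1821 (M : MolF) : Fn3 := ⟨_, fun a b c => (a) * (n1059 (M.at_ a b c) a b c), fun h1 h2 h3 => (enc_mul h1 ((F1059 M).enc h1 h2 h3))⟩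

noncomputable def F1822 (M : MolF) : Fn3 := ⟨_, fun a b c => (a) * (n1059 (M.at_ a b c) a b c) + (b) * ((n3 (M.at_ a b c) a b c) * (n1047 (M.at_ a b c) a b c)), fun h1 h2 h3 => (enc_norm (enc_add ((F1821 M).enc h1 h2 h3) ((F1820 M).enc h1 h2 h3)))⟩

noncomputable def F1823 (M : MolF) : Fn3 := ⟨_, fun a b c => (a) * (n1057 (M.at_ a b c) a b c), fun h1 h2 h3 => (enc_mul h1 ((F1057 M).enc h1 h2 h3))⟩

noncomputable def F1830 (M : MolF) : Fn3 := ⟨_, fun a b c => (b) * (n1070 (M.at_ a b c) a b c), fun h1 h2 h3 => (enc_mul h2 ((F1070 M).enc h1 h2 h3))⟩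

noncomputable def F1833 (M : MolF) : Fn3 := ⟨_, fun a b c => (n169 (M.at_ a b c) a b c) * (n1059 (M.at_ a b c) a b c) + (b) * (n1070 (M.at_ a b c) a b c), fun h1 h2 h3 => (enc_norm (enc_add (enc_mul ((F169 M).enc h1 h2 h3) ((F1059 M).enc h1 h2 h3)) ((F1830 M).enc h1 h2 h3)))⟩

noncomputable def F1849 (M : MolF) : Fn3 := ⟨_, fun a b c => (n205 (M.at_ a b c) a b c) * ((n990 (M.at_ a b c) a b c) * (n1059 (M.at_ a b c) a b c + n1111 (M.at_ a b c) a b c) + (n654 (M.at_ a b c) a b c) * (n1060 (M.at_ a b c) a b c)) - (n15 (M.at_ a b c) a b c) * ((n1054 (M.at_ a b c) a b c) * ((a) * (n1059 (M.at_ a b c) a b c) + (b) * ((n3 (M.at_ a b c) a b c) * (n1047 (M.at_ a b c) a b c))) + (n1064 (M.at_ a b c) a b c + n1059 (M.at_ a b c) a b c - (1 + n372 (M.at_ a b c) a b c) * (n1047 (M.at_ a b c) a b c)) * (n1059 (M.at_ a b c) a b c + n1111 (M.at_ a b c) a b c) + (n1050 (M.at_ a b c) a b c) * ((a) * (n1057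 (M.at_ a b c) a b c) + (n3 (M.at_ a b c) a b c) * (n1047 (M.at_ a b c) a b c)) + (n781 (M.at_ a b c) a b c) * (n1060 (M.at_ a b c) a b c)), fun h1 h2 h3 => (enc_norm (enc_sub (enc_mul ((F205 M).enc h1 h2 h3) (enc_norm (enc_add (enc_mul ((F990 M).enc h1 h2 h3) (enc_norm (enc_add ((F1059 M).enc h1 h2 h3) ((F1111 M).enc h1 h2 h3)))) (enc_mul ((F654 M).enc h1 h2 h3) ((F1060 M).enc h1 h2 h3))))) (enc_mul ((F15 M).enc h1 h2 h3) (enc_norm (enc_add (enc_add (enc_add (enc_mul ((F1054 M).enc h1 h2 h3) ((F1822 M).enc h1 h2 h3)) (enc_mul (enc_norm (enc_sub (enc_add ((F1064 M).enc h1 h2 h3) ((F1059 M).enc h1 h2 h3)) (enc_mul ((F1637 M).enc h1 h2 h3) ((F1047 M).enc h1 h2 h3)))) (enc_norm (enc_add ((F1059 M).enc h1 h2 h3) ((F1111 M).enc h1 h2 h3))))) (enc_mul ((F1050 M).enc h1 h2 h3) (enc_norm (enc_add ((F1823 M).enc h1 h2 h3) (enc_mul ((F3 M).enc h1 h2 h3) ((F1047 M).enc h1 h2 h3)))))) (enc_mul ((F781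 M).enc h1 h2 h3) ((F1060 M).enc h1 h2 h3)))))))⟩

noncomputable def F1863 (M : MolF) : Fn3 := ⟨_, fun a b c => (c) * ((n990 (M.at_ a b c) a b c) * ((n169 (M.at_ a b c) a b c) * (n1059 (M.at_ a b c) a b c) + (b) * (n1070 (M.at_ a b c) a b c)) + (n654 (M.at_ a b c) a b c) * (n1071 (M.at_ a b c) a b c)) - (n15 (M.at_ a b c) a b c) * (((n3 (M.at_ a b c) a b c) * (n1057 (M.at_ a b c) a b c) - n1070 (M.at_ a b c) a b c) * ((n169 (M.at_ a b c) a b c) * (n1059 (M.at_ a b c) a b c) + (b) * (n1070 (M.at_ a b c) a b c)) - (n1068 (M.at_ a b c) a b c) * ((a) * (n1059 (M.at_ a b c) a b c) - (b) * (n1070 (M.at_ a b c) a b c)) - (n1093 (M.at_ a b c) a b c) * ((a) * (n1057 (M.at_ a b c) a b c) - n1070 (M.at_ a b c) a b c) + (n800 (M.at_ a b c) a b c) * (n1071 (M.at_ a b c) a b c)), fun h1 h2 h3 => (enc_norm (enc_sub (enc_mul h3 (enc_norm (enc_add (enc_mul ((F990 M).enc h1 h2 h3) ((F1833 M).enc h1 h2 h3))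 (enc_mul ((F654 M).enc h1 h2 h3) ((F1071 M).enc h1 h2 h3))))) (enc_mul ((F15 M).enc h1 h2 h3) (enc_norm (enc_add (enc_sub (enc_sub (enc_mul (enc_norm (enc_sub (enc_mul ((F3 M).enc h1 h2 h3) ((F1057 M).enc h1 h2 h3)) ((F1070 M).enc h1 h2 h3))) ((F1833 M).enc h1 h2 h3)) (enc_mul ((F1068 M).enc h1 h2 h3) (enc_norm (enc_sub ((F1821 M).enc h1 h2 h3) ((F1830 M).enc h1 h2 h3))))) (enc_mul ((F1093 M).enc h1 h2 h3) (enc_norm (enc_sub ((F1823 M).enc h1 h2 h3) ((F1070 M).enc h1 h2 h3))))) (enc_mul ((F800 M).enc h1 h2 h3) ((F1071 M).enc h1 h2 h3)))))))⟩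

noncomputable def F1865 (M : MolF) : Fn3 := ⟨_, fun a b c => (a) * (n1059 (M.at_ a b c) a b c) + (b) * ((n3 (M.at_ a b c) a b c) * (n1047 (M.at_ a b c) a b c)) - (b) * (n1059 (M.at_ a b c) a b c + n1111 (M.at_ a b c) a b c), fun h1 h2 h3 => (enc_sub ((F1822 M).enc h1 h2 h3) (enc_mul h2 (enc_norm (enc_add ((F1059 M).enc h1 h2 h3) ((F1111 M).enc h1 h2 h3)))))⟩

noncomputable def F1868 (M : MolF) : Fn3 := ⟨_, fun a b c => n868 (M.at_ a b c) a b c + (b) * ((n205 (M.at_ a b c) a b c) * ((n990 (M.at_ a b c) a b c) * (n1059 (M.at_ a b c) a b c + n1111 (M.at_ a b c) a b c) + (n654 (M.at_ a b c) a b c) * (n1060 (M.at_ a b c) a b c)) - (n15 (M.at_ a b c) a b c) * ((n1054 (M.at_ a b c) a b c) * ((a) * (n1059 (M.at_ a b c) a b c) + (b) * ((n3 (M.at_ a b c) a b c) * (n1047 (M.at_ a b c) a b c))) + (n1064 (M.at_ a b c) a b c + n1059 (M.at_ a b c) a b c - (1 + n372 (M.at_ a b c) a b c) * (n1047 (M.at_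 a b c) a b c)) * (n1059 (M.at_ a b c) a b c + n1111 (M.at_ a b c) a b c) + (n1050 (M.at_ a b c) a b c) * ((a) * (n1057 (M.at_ a b c) a b c) + (n3 (M.at_ a b c) a b c) * (n1047 (M.at_ a b c) a b c)) + (n781 (M.at_ a b c) a b c) * (n1060 (M.at_ a b c) a b c))), fun h1 h2 h3 => (enc_add ((F868 M).enc h1 h2 h3) (enc_mul h2 ((F1849 M).enc h1 h2 h3)))⟩

noncomputable def F1869 (M : MolF) : Fn3 := ⟨_, fun a b c => n872 (M.at_ a b c) a b c + (b) * ((c) * ((n990 (M.at_ a b c) a b c) * ((n169 (M.at_ a b c) a b c) * (n1059 (M.at_ a b c) a b c) + (b) * (n1070 (M.at_ a b c) a b c)) + (n654 (M.at_ a b c) a b c) * (n1071 (M.at_ a b c) a b c)) - (n15 (M.at_ a b c) a b c) * (((n3 (M.at_ a b c) a b c) * (n1057 (M.at_ a b c) a b c) - n1070 (M.at_ a b c) a b c) * ((n169 (M.at_ a b c) a b c) * (n1059 (M.at_ a b c) a b c) + (b) * (n1070 (M.at_ a b c) a b c)) - (n1068 (M.at_ a b c) a b c) * ((a) * (n1059 (M.at_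 a b c) a b c) - (b) * (n1070 (M.at_ a b c) a b c)) - (n1093 (M.at_ a b c) a b c) * ((a) * (n1057 (M.at_ a b c) a b c) - n1070 (M.at_ a b c) a b c) + (n800 (M.at_ a b c) a b c) * (n1071 (M.at_ a b c) a b c))), fun h1 h2 h3 => (enc_add ((F872 M).enc h1 h2 h3) (enc_mul h2 ((F1863 M).enc h1 h2 h3)))⟩

noncomputable def F1870 (M : MolF) : Fn3 := ⟨_, fun a b c => (a) * (n1126 (M.at_ a b c) a b c), fun h1 h2 h3 => (enc_mul h1 ((F1126 M).enc h1 h2 h3))⟩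

noncomputable def F1871 (M : MolF) : Fn3 := ⟨_, fun a b c => (a) * (n1126 (M.at_ a b c) a b c) - (b) * ((n3 (M.at_ a b c) a b c) * (n1047 (M.at_ a b c) a b c)), fun h1 h2 h3 => (enc_norm (enc_sub ((F1870 M).enc h1 h2 h3) ((F1820 M).enc h1 h2 h3)))⟩

noncomputable def F1872 (M : MolF) : Fn3 := ⟨_, fun a b c => (a) * (n1124 (M.at_ a b c) a b c), fun h1 h2 h3 => (enc_mul h1 ((F1124 M).enc h1 h2 h3))⟩

noncomputable def F1877 (M : MolF) : Fn3 := ⟨_, fun a b c => n1134 (M.at_ a b c) a b c - n1126 (M.at_ a b c) a b c, fun h1 h2 h3 => (enc_norm (enc_sub ((F1134 M).enc h1 h2 h3) ((F1126 M).enc h1 h2 h3)))⟩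

noncomputable def F1878 (M : MolF) : Fn3 := ⟨_, fun a b c => (b) * (n1134 (M.at_ a b c) a b c - n1126 (M.at_ a b c) a b c), fun h1 h2 h3 => (enc_mul h2 ((F1877 M).enc h1 h2 h3))⟩

noncomputable def F1880 (M : MolF) : Fn3 := ⟨_, fun a b c => (n169 (M.at_ a b c) a b c) * (n1126 (M.at_ a b c) a b c) - (b) * (n1134 (M.at_ a b c) a b c - n1126 (M.at_ a b c) a b c), fun h1 h2 h3 => (enc_norm (enc_sub (enc_mul ((F169 M).enc h1 h2 h3) ((F1126 M).enc h1 h2 h3)) ((F1878 M).enc h1 h2 h3)))⟩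

noncomputable def F1885 (M : MolF) : Fn3 := ⟨_, fun a b c => n1130 (M.at_ a b c) a b c - (n1134 (M.at_ a b c) a b c - n1126 (M.at_ a b c) a b c), fun h1 h2 h3 => (enc_norm (enc_sub ((F1130 M).enc h1 h2 h3) ((F1877 M).enc h1 h2 h3)))⟩

noncomputable def F1897 (M : MolF) : Fn3 := ⟨_, fun a b c => (n205 (M.at_ a b c) a b c) * ((n1122 (M.at_ a b c) a b c) * (n1126 (M.at_ a b c) a b c - n1111 (M.at_ a b c) a b c) + (n654 (M.at_ a b c) a b c) * (n1127 (M.at_ a b c) a b c)) - (n15 (M.at_ a b c) a b c) * ((n1054 (M.at_ a b c) a b c) * ((a) * (n1126 (M.at_ a b c) a b c) - (b) * ((n3 (M.at_ a b c) a b c) * (n1047 (M.at_ a b c) a b c))) + ((n3 (M.at_ a b c) a b c) * (n1047 (M.at_ a b c) a b c) + n1130 (M.at_ a b c) a b c) * (n1126 (M.at_ a b c) a b c - n1111 (M.at_ a b c) a b c) + (n1050 (M.at_ a b c) a b c) * ((a) * (n1124 (M.at_ a b c) a b c) - (n3 (M.at_ a b c) a b c) * (n1047 (M.at_ a b c)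 a b c)) + (n781 (M.at_ a b c) a b c) * (n1127 (M.at_ a b c) a b c)), fun h1 h2 h3 => (enc_norm (enc_sub (enc_mul ((F205 M).enc h1 h2 h3) (enc_norm (enc_add (enc_mul ((F1122 M).enc h1 h2 h3) (enc_norm (enc_sub ((F1126 M).enc h1 h2 h3) ((F1111 M).enc h1 h2 h3)))) (enc_mul ((F654 M).enc h1 h2 h3) ((F1127 M).enc h1 h2 h3))))) (enc_mul ((F15 M).enc h1 h2 h3) (enc_norm (enc_add (enc_add (enc_add (enc_mul ((F1054 M).enc h1 h2 h3) ((F1871 M).enc h1 h2 h3)) (enc_mul (enc_norm (enc_add (enc_mul ((F3 M).enc h1 h2 h3) ((F1047 M).enc h1 h2 h3)) ((F1130 M).enc h1 h2 h3))) (enc_norm (enc_sub ((F1126 M).enc h1 h2 h3) ((F1111 M).enc h1 h2 h3))))) (enc_mul ((F1050 M).enc h1 h2 h3) (enc_norm (enc_sub ((F1872 M).enc h1 h2 h3) (enc_mul ((F3 M).enc h1 h2 h3) ((F1047 M).enc h1 h2 h3)))))) (enc_mul ((F781 M).enc h1 h2 h3) ((F1127 M).enc h1 h2 h3)))))))⟩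

noncomputable def F1912 (M : MolF) : Fn3 := ⟨_, fun a b c => (c) * ((n1122 (M.at_ a b c) a b c) * ((n169 (M.at_ a b c) a b c) * (n1126 (M.at_ a b c) a b c) - (b) * (n1134 (M.at_ a b c) a b c - n1126 (M.at_ a b c) a b c)) + (n654 (M.at_ a b c) a b c) * (n1130 (M.at_ a b c) a b c - (n1134 (M.at_ a b c) a b c - n1126 (M.at_ a b c) a b c))) - (n15 (M.at_ a b c) a b c) * ((n1134 (M.at_ a b c) a b c + (n3 (M.at_ a b c) a b c) * (n1124 (M.at_ a b c) a b c) - n1126 (M.at_ a b c) a b c) * ((n169 (M.at_ a b c) a b c) * (n1126 (M.at_ a b c) a b c) - (b) * (n1134 (M.at_ a b c) a b c - n1126 (M.at_ a b c) a b c)) - (n1132 (M.at_ a b c) a b c) * ((a) * (n1126 (M.at_ a b c) a b c) + (b) * (n1134 (M.at_ a b c) a b c - n1126 (M.at_ a b c) a b c)) - (n1093 (M.at_ a b c) a b c) * ((a) * (n1124 (M.at_ a b c) a b c) + (n1134 (M.at_ a b c) a b c - n1126 (M.at_ a b c) a b c)) + (n800 (M.at_ a b c) a b c) *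 (n1130 (M.at_ a b c) a b c - (n1134 (M.at_ a b c) a b c - n1126 (M.at_ a b c) a b c))), fun h1 h2 h3 => (enc_norm (enc_sub (enc_mul h3 (enc_norm (enc_add (enc_mul ((F1122 M).enc h1 h2 h3) ((F1880 M).enc h1 h2 h3)) (enc_mul ((F654 M).enc h1 h2 h3) ((F1885 M).enc h1 h2 h3))))) (enc_mul ((F15 M).enc h1 h2 h3) (enc_norm (enc_add (enc_sub (enc_sub (enc_mul (enc_norm (enc_sub (enc_add ((F1134 M).enc h1 h2 h3) (enc_mul ((F3 M).enc h1 h2 h3) ((F1124 M).enc h1 h2 h3))) ((F1126 M).enc h1 h2 h3))) ((F1880 M).enc h1 h2 h3)) (enc_mul ((F1132 M).enc h1 h2 h3) (enc_norm (enc_add ((F1870 M).enc h1 h2 h3) ((F1878 M).enc h1 h2 h3))))) (enc_mul ((F1093 M).enc h1 h2 h3) (enc_norm (enc_add ((F1872 M).enc h1 h2 h3) ((F1877 M).enc h1 h2 h3))))) (enc_mul ((F800 M).enc h1 h2 h3) ((F1885 M).enc h1 h2 h3)))))))⟩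

noncomputable def F1917 (M : MolF) : Fn3 := ⟨_, fun a b c => n868 (M.at_ a b c) a b c + (b) * ((n205 (M.at_ a b c) a b c) * ((n1122 (M.at_ a b c) a b c) * (n1126 (M.at_ a b c) a b c - n1111 (M.at_ a b c) a b c) + (n654 (M.at_ a b c) a b c) * (n1127 (M.at_ a b c) a b c)) - (n15 (M.at_ a b c) a b c) * ((n1054 (M.at_ a b c) a b c) * ((a) * (n1126 (M.at_ a b c) a b c) - (b) * ((n3 (M.at_ a b c) a b c) * (n1047 (M.at_ a b c) a b c))) + ((n3 (M.at_ a b c) a b c) * (n1047 (M.at_ a b c) a b c) + n1130 (M.at_ a b c) a b c) * (n1126 (M.at_ a b c) a b c - n1111 (M.at_ a b c) a b c) + (n1050 (M.at_ a b c) a b c) * ((a) * (n1124 (M.at_ a b c) a b c) - (n3 (M.at_ a b c) a b c) * (n1047 (M.at_ a b c) a b c)) + (n781 (M.at_ a b c) a b c) * (n1127 (M.at_ a b c) a b c))), fun h1 h2 h3 => (enc_add ((F868 M).enc h1 h2 h3) (enc_mul h2 ((F1897 M).enc h1 h2 h3)))⟩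

noncomputable def F1918 (M : MolF) : Fn3 := ⟨_, fun a b c => n872 (M.at_ a b c) a b c + (b) * ((c) * ((n1122 (M.at_ a b c) a b c) * ((n169 (M.at_ a b c) a b c) * (n1126 (M.at_ a b c) a b c) - (b) * (n1134 (M.at_ a b c) a b c - n1126 (M.at_ a b c) a b c)) + (n654 (M.at_ a b c) a b c) * (n1130 (M.at_ a b c) a b c - (n1134 (M.at_ a b c) a b c - n1126 (M.at_ a b c) a b c))) - (n15 (M.at_ a b c) a b c) * ((n1134 (M.at_ a b c) a b c + (n3 (M.at_ a b c) a b c) * (n1124 (M.at_ a b c) a b c) - n1126 (M.at_ a b c) a b c) * ((n169 (M.at_ a b c) a b c) * (n1126 (M.at_ a b c) a b c) - (b) * (n1134 (M.at_ a b c) a b c - n1126 (M.at_ a b c) a b c)) - (n1132 (M.at_ a b c) a b c) * ((a) * (n1126 (M.at_ a b c) a b c) + (b) * (n1134 (M.at_ a b c) a b c - n1126 (M.at_ a b c) a b c)) - (n1093 (M.at_ a b c) a b c) * ((a) * (n1124 (M.at_ a b c) a b c) + (n1134 (M.at_ a b c) a b c - n1126 (M.at_ a b c) a b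 c)) + (n800 (M.at_ a b c) a b c) * (n1130 (M.at_ a b c) a b c - (n1134 (M.at_ a b c) a b c - n1126 (M.at_ a b c) a b c)))), fun h1 h2 h3 => (enc_add ((F872 M).enc h1 h2 h3) (enc_mul h2 ((F1912 M).enc h1 h2 h3)))⟩

noncomputable def F1919 (M : MolF) : Fn3 := ⟨_, fun a b c => (b) * (n1236 (M.at_ a b c) a b c), fun h1 h2 h3 => (enc_mul h2 ((F1236 M).enc h1 h2 h3))⟩

noncomputable def F1921 (M : MolF) : Fn3 := ⟨_, fun a b c => (a) * (n1228 (M.at_ a b c) a b c) + (b) * (n1236 (M.at_ a b c) a b c), fun h1 h2 h3 => (enc_norm (enc_add (enc_mul h1 ((F1228 M).enc h1 h2 h3)) ((F1919 M).enc h1 h2 h3)))⟩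

noncomputable def F1923 (M : MolF) : Fn3 := ⟨_, fun a b c => (a) * (n1226 (M.at_ a b c) a b c) + n1236 (M.at_ a b c) a b c, fun h1 h2 h3 => (enc_norm (enc_add (enc_mul h1 ((F1226 M).enc h1 h2 h3)) ((F1236 M).enc h1 h2 h3)))⟩

noncomputable def F1926 (M : MolF) : Fn3 := ⟨_, fun a b c => (n169 (M.at_ a b c) a b c) * (n1228 (M.at_ a b c) a b c) - (b) * (n1236 (M.at_ a b c) a b c), fun h1 h2 h3 => (enc_norm (enc_sub (enc_mul ((F169 M).enc h1 h2 h3) ((F1228 M).enc h1 h2 h3)) ((F1919 M).enc h1 h2 h3)))⟩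

noncomputable def F1940 (M : MolF) : Fn3 := ⟨_, fun a b c => (n205 (M.at_ a b c) a b c) * ((n1212 (M.at_ a b c) a b c) * (n1228 (M.at_ a b c) a b c + (b) * (n1219 (M.at_ a b c) a b c)) + (n1209 (M.at_ a b c) a b c) * (n1229 (M.at_ a b c) a b c)) - (n15 (M.at_ a b c) a b c) * ((n1223 (M.at_ a b c) a b c) * ((a) * (n1228 (M.at_ a b c) a b c) + (b) * (n1236 (M.at_ a b c) a b c)) + (n1237 (M.at_ a b c) a b c) * (n1228 (M.at_ a b c) a b c + (b) * (n1219 (M.at_ a b c) a b c)) + (n1220 (M.at_ a b c) a b c) * ((a) * (n1226 (M.at_ a b c) a b c) + n1236 (M.at_ a b c) a b c) + (n1243 (M.at_ a b c) a b c) * (n1229 (M.at_ a b c) a b c)), fun h1 h2 h3 => (enc_norm (enc_sub (enc_mul ((F205 M).enc h1 h2 h3) (enc_norm (enc_add (enc_mul ((F1212 M).enc h1 h2 h3) (enc_norm (enc_add ((F1228 M).enc h1 h2 h3) (enc_mul h2 ((F1219 M).enc h1 h2 h3))))) (enc_mul ((F1209 M).enc h1 h2 h3) ((F1229 M).enc h1 h2 h3)))))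 (enc_mul ((F15 M).enc h1 h2 h3) (enc_norm (enc_add (enc_add (enc_add (enc_mul ((F1223 M).enc h1 h2 h3) ((F1921 M).enc h1 h2 h3)) (enc_mul ((F1237 M).enc h1 h2 h3) (enc_norm (enc_add ((F1228 M).enc h1 h2 h3) (enc_mul h2 ((F1219 M).enc h1 h2 h3)))))) (enc_mul ((F1220 M).enc h1 h2 h3) ((F1923 M).enc h1 h2 h3))) (enc_mul ((F1243 M).enc h1 h2 h3) ((F1229 M).enc h1 h2 h3)))))))⟩

noncomputable def F1954 (M : MolF) : Fn3 := ⟨_, fun a b c => (c) * ((n1212 (M.at_ a b c) a b c) * ((n169 (M.at_ a b c) a b c) * (n1228 (M.at_ a b c) a b c) - (b) * (n1236 (M.at_ a b c) a b c)) + (n1209 (M.at_ a b c) a b c) * (n1237 (M.at_ a b c) a b c)) - (n15 (M.at_ a b c) a b c) * ((n1236 (M.at_ a b c) a b c + (n3 (M.at_ a b c) a b c) * (n1226 (M.at_ a b c) a b c)) * ((n169 (M.at_ a b c) a b c) * (n1228 (M.at_ a b c) a b c) - (b) * (n1236 (M.at_ a b c) a b c)) - (n1235 (M.at_ a b c) a b c) * ((a) * (n1228 (M.at_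 a b c) a b c) + (b) * (n1236 (M.at_ a b c) a b c)) - (n1261 (M.at_ a b c) a b c) * ((a) * (n1226 (M.at_ a b c) a b c) + n1236 (M.at_ a b c) a b c) + (n1262 (M.at_ a b c) a b c) * (n1237 (M.at_ a b c) a b c)), fun h1 h2 h3 => (enc_norm (enc_sub (enc_mul h3 (enc_norm (enc_add (enc_mul ((F1212 M).enc h1 h2 h3) ((F1926 M).enc h1 h2 h3)) (enc_mul ((F1209 M).enc h1 h2 h3) ((F1237 M).enc h1 h2 h3))))) (enc_mul ((F15 M).enc h1 h2 h3) (enc_norm (enc_add (enc_sub (enc_sub (enc_mul (enc_norm (enc_add ((F1236 M).enc h1 h2 h3) (enc_mul ((F3 M).enc h1 h2 h3) ((F1226 M).enc h1 h2 h3)))) ((F1926 M).enc h1 h2 h3)) (enc_mul ((F1235 M).enc h1 h2 h3) ((F1921 M).enc h1 h2 h3))) (enc_mul ((F1261 M).enc h1 h2 h3) ((F1923 M).enc h1 h2 h3))) (enc_mul ((F1262 M).enc h1 h2 h3) ((F1237 M).enc h1 h2 h3)))))))⟩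

noncomputable def F1957 (M : MolF) : Fn3 := ⟨_, fun a b c => n1290 (M.at_ a b c) a b c + (b) * ((n205 (M.at_ a b c) a b c) * ((n1212 (M.at_ a b c) a b c) * (n1228 (M.at_ a b c) a b c + (b) * (n1219 (M.at_ a b c) a b c)) + (n1209 (M.at_ a b c) a b c) * (n1229 (M.at_ a b c) a b c)) - (n15 (M.at_ a b c) a b c) * ((n1223 (M.at_ a b c) a b c) * ((a) * (n1228 (M.at_ a b c) a b c) + (b) * (n1236 (M.at_ a b c) a b c)) + (n1237 (M.at_ a b c) a b c) * (n1228 (M.at_ a b c) a b c + (b) * (n1219 (M.at_ a b c) a b c)) + (n1220 (M.at_ a b c) a b c) * ((a) * (n1226 (M.at_ a b c) a b c) + n1236 (M.at_ a b c) a b c) + (n1243 (M.at_ a b c) a b c) * (n1229 (M.at_ a b c) a b c))), fun h1 h2 h3 => (enc_add ((F1290 M).enc h1 h2 h3) (enc_mul h2 ((F1940 M).enc h1 h2 h3)))⟩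

noncomputable def F1958 (M : MolF) : Fn3 := ⟨_, fun a b c => n1294 (M.at_ a b c) a b c + (b) * ((c) * ((n1212 (M.at_ a b c) a b c) * ((n169 (M.at_ a b c) a b c) * (n1228 (M.at_ a b c) a b c) - (b) * (n1236 (M.at_ a b c) a b c)) + (n1209 (M.at_ a b c) a b c) * (n1237 (M.at_ a b c) a b c)) - (n15 (M.at_ a b c) a b c) * ((n1236 (M.at_ a b c) a b c + (n3 (M.at_ a b c) a b c) * (n1226 (M.at_ a b c) a b c)) * ((n169 (M.at_ a b c) a b c) * (n1228 (M.at_ a b c) a b c) - (b) * (n1236 (M.at_ a b c) a b c)) - (n1235 (M.at_ a b c) a b c) * ((a) * (n1228 (M.at_ a b c) a b c) + (b) * (n1236 (M.at_ a b c) a b c)) - (n1261 (M.at_ a b c) a b c) * ((a) * (n1226 (M.at_ a b c) a b c) + n1236 (M.at_ a b c) a b c) + (n1262 (M.at_ a b c) a b c) * (n1237 (M.at_ a b c) a b c))), fun h1 h2 h3 => (enc_add ((F1294 M).enc h1 h2 h3) (enc_mul h2 ((F1954 M).enc h1 h2 h3)))⟩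

noncomputable def F1959 (M : MolF) : Fn3 := ⟨_, fun a b c => (n3 (M.at_ a b c) a b c) * (n1307 (M.at_ a b c) a b c), fun h1 h2 h3 => (enc_norm (enc_mul ((F3 M).enc h1 h2 h3) ((F1307 M).enc h1 h2 h3)))⟩

noncomputable def F1961 (M : MolF) : Fn3 := ⟨_, fun a b c => (a) * (n1315 (M.at_ a b c) a b c), fun h1 h2 h3 => (enc_mul h1 ((F1315 M).enc h1 h2 h3))⟩

noncomputable def F1962 (M : MolF) : Fn3 := ⟨_, fun a b c => (a) * (n1315 (M.at_ a b c) a b c) - (b) * ((n3 (M.at_ a b c) a b c) * (n1307 (M.at_ a b c) a b c)), fun h1 h2 h3 => (enc_norm (enc_sub ((F1961 M).enc h1 h2 h3) (enc_mul h2 ((F1959 M).enc h1 h2 h3))))⟩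

noncomputable def F1963 (M : MolF) : Fn3 := ⟨_, fun a b c => (a) * (n1313 (M.at_ a b c) a b c), fun h1 h2 h3 => (enc_mul h1 ((F1313 M).enc h1 h2 h3))⟩

noncomputable def F1969 (M : MolF) : Fn3 := ⟨_, fun a b c => (b) * (n1326 (M.at_ a b c) a b c), fun h1 h2 h3 => (enc_mul h2 ((F1326 M).enc h1 h2 h3))⟩

noncomputable def F1971 (M : MolF) : Fn3 := ⟨_, fun a b c => (n169 (M.at_ a b c) a b c) * (n1315 (M.at_ a b c) a b c) - (b) * (n1326 (M.at_ a b c) a b c), fun h1 h2 h3 => (enc_norm (enc_sub (enc_mul ((F169 M).enc h1 h2 h3) ((F1315 M).enc h1 h2 h3)) ((F1969 M).enc h1 h2 h3)))⟩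

noncomputable def F1987 (M : MolF) : Fn3 := ⟨_, fun a b c => (n205 (M.at_ a b c) a b c) * ((n1301 (M.at_ a b c) a b c) * (n1315 (M.at_ a b c) a b c - (b) * (n1307 (M.at_ a b c) a b c)) + (n1209 (M.at_ a b c) a b c) * (n1316 (M.at_ a b c) a b c)) - (n15 (M.at_ a b c) a b c) * ((n1310 (M.at_ a b c) a b c) * ((a) * (n1315 (M.at_ a b c) a b c) - (b) * ((n3 (M.at_ a b c) a b c) * (n1307 (M.at_ a b c) a b c))) + ((1 + n30 (M.at_ a b c) a b c) * (n1307 (M.at_ a b c) a b c) + n1320 (M.at_ a b c) a b c - n1315 (M.at_ a b c) a b c) * (n1315 (M.at_ a b c) a b c - (b) * (n1307 (M.at_ a b c) a b c)) + (n1220 (M.at_ a b c) a b c) * ((a) * (n1313 (M.at_ a b c) a b c) - (n3 (M.at_ a b c) a b c) * (n1307 (M.at_ a b c) a b c)) + (n1243 (M.at_ a b c) a b c) * (n1316 (M.at_ a b c) a b c)), fun h1 h2 h3 => (enc_norm (enc_sub (enc_mul ((F205 M).enc h1 h2 h3) (enc_norm (enc_add (enc_mul ((F1301 M).enc h1 h2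 h3) (enc_norm (enc_sub ((F1315 M).enc h1 h2 h3) (enc_mul h2 ((F1307 M).enc h1 h2 h3))))) (enc_mul ((F1209 M).enc h1 h2 h3) ((F1316 M).enc h1 h2 h3))))) (enc_mul ((F15 M).enc h1 h2 h3) (enc_norm (enc_add (enc_add (enc_add (enc_mul ((F1310 M).enc h1 h2 h3) ((F1962 M).enc h1 h2 h3)) (enc_mul (enc_norm (enc_sub (enc_add (enc_mul (enc_norm (enc_add (en1 _) ((F30 M).enc h1 h2 h3))) ((F1307 M).enc h1 h2 h3)) ((F1320 M).enc h1 h2 h3)) ((F1315 M).enc h1 h2 h3))) (enc_norm (enc_sub ((F1315 M).enc h1 h2 h3) (enc_mul h2 ((F1307 M).enc h1 h2 h3)))))) (enc_mul ((F1220 M).enc h1 h2 h3) (enc_norm (enc_sub ((F1963 M).enc h1 h2 h3) ((F1959 M).enc h1 h2 h3))))) (enc_mul ((F1243 M).enc h1 h2 h3) ((F1316 M).enc h1 h2 h3)))))))⟩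

noncomputable def F2001 (M : MolF) : Fn3 := ⟨_, fun a b c => (c) * ((n1301 (M.at_ a b c) a b c) * ((n169 (M.at_ a b c) a b c) * (n1315 (M.at_ a b c) a b c) - (b) * (n1326 (M.at_ a b c) a b c)) + (n1209 (M.at_ a b c) a b c) * (n1327 (M.at_ a b c) a b c)) - (n15 (M.at_ a b c) a b c) * ((n1326 (M.at_ a b c) a b c + (n3 (M.at_ a b c) a b c) * (n1313 (M.at_ a b c) a b c)) * ((n169 (M.at_ a b c) a b c) * (n1315 (M.at_ a b c) a b c) - (b) * (n1326 (M.at_ a b c) a b c)) - (n1324 (M.at_ a b c) a b c) * ((a) * (n1315 (M.at_ a b c) a b c) + (b) * (n1326 (M.at_ a b c) a b c)) - (n1261 (M.at_ a b c) a b c) * ((a) * (n1313 (M.at_ a b c) a b c) + n1326 (M.at_ a b c) a b c) + (n1262 (M.at_ a b c) a b c) * (n1327 (M.at_ a b c) a b c)), fun h1 h2 h3 => (enc_norm (enc_sub (enc_mul h3 (enc_norm (enc_add (enc_mul ((F1301 M).enc h1 h2 h3) ((F1971 M).enc h1 h2 h3)) (enc_mul ((F1209 M).enc h1 h2 h3) ((F1327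 M).enc h1 h2 h3))))) (enc_mul ((F15 M).enc h1 h2 h3) (enc_norm (enc_add (enc_sub (enc_sub (enc_mul (enc_norm (enc_add ((F1326 M).enc h1 h2 h3) (enc_mul ((F3 M).enc h1 h2 h3) ((F1313 M).enc h1 h2 h3)))) ((F1971 M).enc h1 h2 h3)) (enc_mul ((F1324 M).enc h1 h2 h3) (enc_norm (enc_add ((F1961 M).enc h1 h2 h3) ((F1969 M).enc h1 h2 h3))))) (enc_mul ((F1261 M).enc h1 h2 h3) (enc_norm (enc_add ((F1963 M).enc h1 h2 h3) ((F1326 M).enc h1 h2 h3))))) (enc_mul ((F1262 M).enc h1 h2 h3) ((F1327 M).enc h1 h2 h3)))))))⟩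

noncomputable def F2003 (M : MolF) : Fn3 := ⟨_, fun a b c => (a) * (n1315 (M.at_ a b c) a b c) - (b) * ((n3 (M.at_ a b c) a b c) * (n1307 (M.at_ a b c) a b c)) + (b) * (n1315 (M.at_ a b c) a b c - (b) * (n1307 (M.at_ a b c) a b c)), fun h1 h2 h3 => (enc_add ((F1962 M).enc h1 h2 h3) (enc_mul h2 (enc_norm (enc_sub ((F1315 M).enc h1 h2 h3) (enc_mul h2 ((F1307 M).enc h1 h2 h3))))))⟩

noncomputable def F2008 (M : MolF) : Fn3 := ⟨_, fun a b c => n1290 (M.at_ a b c) a b c + (b) * ((n205 (M.at_ a b c) a b c) * ((n1301 (M.at_ a b c) a b c) * (n1315 (M.at_ a b c) a b c - (b) * (n1307 (M.at_ a b c) a b c)) + (n1209 (M.at_ a b c) a b c) * (n1316 (M.at_ a b c) a b c)) - (n15 (M.at_ a b c) a b c) * ((n1310 (M.at_ a b c) a b c) * ((a) * (n1315 (M.at_ a b c) a b c) - (b) * ((n3 (M.at_ a b c) a b c) * (n1307 (M.at_ a b c) a b c))) + ((1 + n30 (M.at_ a b c) a b c) * (n1307 (M.at_ a b c) a b c) + n1320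 (M.at_ a b c) a b c - n1315 (M.at_ a b c) a b c) * (n1315 (M.at_ a b c) a b c - (b) * (n1307 (M.at_ a b c) a b c)) + (n1220 (M.at_ a b c) a b c) * ((a) * (n1313 (M.at_ a b c) a b c) - (n3 (M.at_ a b c) a b c) * (n1307 (M.at_ a b c) a b c)) + (n1243 (M.at_ a b c) a b c) * (n1316 (M.at_ a b c) a b c))), fun h1 h2 h3 => (enc_add ((F1290 M).enc h1 h2 h3) (enc_mul h2 ((F1987 M).enc h1 h2 h3)))⟩

noncomputable def F2009 (M : MolF) : Fn3 := ⟨_, fun a b c => n1294 (M.at_ a b c) a b c + (b) * ((c) * ((n1301 (M.at_ a b c) a b c) * ((n169 (M.at_ a b c) a b c) * (n1315 (M.at_ a b c) a b c) - (b) * (n1326 (M.at_ a b c) a b c)) + (n1209 (M.at_ a b c) a b c) * (n1327 (M.at_ a b c) a b c)) - (n15 (M.at_ a b c) a b c) * ((n1326 (M.at_ a b c) a b c + (n3 (M.at_ a b c) a b c) * (n1313 (M.at_ a b c) a b c)) * ((n169 (M.at_ a b c) a b c) * (n1315 (M.at_ a b c) a b c) - (b) * (n1326 (M.at_ a b c) a b c)) -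 (n1324 (M.at_ a b c) a b c) * ((a) * (n1315 (M.at_ a b c) a b c) + (b) * (n1326 (M.at_ a b c) a b c)) - (n1261 (M.at_ a b c) a b c) * ((a) * (n1313 (M.at_ a b c) a b c) + n1326 (M.at_ a b c) a b c) + (n1262 (M.at_ a b c) a b c) * (n1327 (M.at_ a b c) a b c))), fun h1 h2 h3 => (enc_add ((F1294 M).enc h1 h2 h3) (enc_mul h2 ((F2001 M).enc h1 h2 h3)))⟩

noncomputable def F2010 (M : MolF) : Fn3 := ⟨_, fun a b c => (n3 (M.at_ a b c) a b c) * (n1394 (M.at_ a b c) a b c), fun h1 h2 h3 => (enc_norm (enc_mul ((F3 M).enc h1 h2 h3) ((F1394 M).enc h1 h2 h3)))⟩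

noncomputable def F2012 (M : MolF) : Fn3 := ⟨_, fun a b c => (a) * (n1403 (M.at_ a b c) a b c), fun h1 h2 h3 => (enc_mul h1 ((F1403 M).enc h1 h2 h3))⟩

noncomputable def F2013 (M : MolF) : Fn3 := ⟨_, fun a b c => (a) * (n1403 (M.at_ a b c) a b c) + (b) * ((n3 (M.at_ a b c) a b c) * (n1394 (M.at_ a b c) a b c)), fun h1 h2 h3 => (enc_norm (enc_add ((F2012 M).enc h1 h2 h3) (enc_mul h2 ((F2010 M).enc h1 h2 h3))))⟩

noncomputable def F2014 (M : MolF) : Fn3 := ⟨_, fun a b c => (a) * (n1401 (M.at_ a b c) a b c), fun h1 h2 h3 => (enc_mul h1 ((F1401 M).enc h1 h2 h3))⟩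

noncomputable def F2021 (M : MolF) : Fn3 := ⟨_, fun a b c => (b) * (n1414 (M.at_ a b c) a b c), fun h1 h2 h3 => (enc_mul h2 ((F1414 M).enc h1 h2 h3))⟩

noncomputable def F2024 (M : MolF) : Fn3 := ⟨_, fun a b c => (n169 (M.at_ a b c) a b c) * (n1403 (M.at_ a b c) a b c) + (b) * (n1414 (M.at_ a b c) a b c), fun h1 h2 h3 => (enc_norm (enc_add (enc_mul ((F169 M).enc h1 h2 h3) ((F1403 M).enc h1 h2 h3)) ((F2021 M).enc h1 h2 h3)))⟩

noncomputable def F2040 (M : MolF) : Fn3 := ⟨_, fun a b c => (n205 (M.at_ a b c) a b c) * ((n1388 (M.at_ a b c) a b c) * (n1403 (M.at_ a b c) a b c + (b) * (n1394 (M.at_ a b c) a b c)) + (n1209 (M.at_ a b c) a b c) * (n1404 (M.at_ a b c) a b c)) - (n15 (M.at_ a b c) a b c) * ((n1398 (M.at_ a b c) a b c) * ((a) * (n1403 (M.at_ a b c) a b c) + (b) * ((n3 (M.at_ a b c) a b c) * (n1394 (M.at_ a b c) a b c))) + (n1408 (M.at_ a b c) a b c + n1403 (M.at_ a b c) a b c -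 (1 + n372 (M.at_ a b c) a b c) * (n1394 (M.at_ a b c) a b c)) * (n1403 (M.at_ a b c) a b c + (b) * (n1394 (M.at_ a b c) a b c)) + (n1395 (M.at_ a b c) a b c) * ((a) * (n1401 (M.at_ a b c) a b c) + (n3 (M.at_ a b c) a b c) * (n1394 (M.at_ a b c) a b c)) + (n1243 (M.at_ a b c) a b c) * (n1404 (M.at_ a b c) a b c)), fun h1 h2 h3 => (enc_norm (enc_sub (enc_mul ((F205 M).enc h1 h2 h3) (enc_norm (enc_add (enc_mul ((F1388 M).enc h1 h2 h3) (enc_norm (enc_add ((F1403 M).enc h1 h2 h3) (enc_mul h2 ((F1394 M).enc h1 h2 h3))))) (enc_mul ((F1209 M).enc h1 h2 h3) ((F1404 M).enc h1 h2 h3))))) (enc_mul ((F15 M).enc h1 h2 h3) (enc_norm (enc_add (enc_add (enc_add (enc_mul ((F1398 M).enc h1 h2 h3) ((F2013 M).enc h1 h2 h3)) (enc_mul (enc_norm (enc_sub (enc_add ((F1408 M).enc h1 h2 h3) ((F1403 M).enc h1 h2 h3)) (enc_mul ((F1637 M).enc h1 h2 h3) ((F1394 M).enc h1 h2 h3)))) (enc_norm (enc_add ((F1403 M).enc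 h1 h2 h3) (enc_mul h2 ((F1394 M).enc h1 h2 h3)))))) (enc_mul ((F1395 M).enc h1 h2 h3) (enc_norm (enc_add ((F2014 M).enc h1 h2 h3) ((F2010 M).enc h1 h2 h3))))) (enc_mul ((F1243 M).enc h1 h2 h3) ((F1404 M).enc h1 h2 h3)))))))⟩

noncomputable def F2054 (M : MolF) : Fn3 := ⟨_, fun a b c => (c) * ((n1388 (M.at_ a b c) a b c) * ((n169 (M.at_ a b c) a b c) * (n1403 (M.at_ a b c) a b c) + (b) * (n1414 (M.at_ a b c) a b c)) + (n1209 (M.at_ a b c) a b c) * (n1415 (M.at_ a b c) a b c)) - (n15 (M.at_ a b c) a b c) * (((n3 (M.at_ a b c) a b c) * (n1401 (M.at_ a b c) a b c) - n1414 (M.at_ a b c) a b c) * ((n169 (M.at_ a b c) a b c) * (n1403 (M.at_ a b c) a b c) + (b) * (n1414 (M.at_ a b c) a b c)) - (n1412 (M.at_ a b c) a b c) * ((a) * (n1403 (M.at_ a b c) a b c) - (b) * (n1414 (M.at_ a b c) a b c)) - (n1437 (M.at_ a b c) a b c) * ((a) * (n1401 (M.at_ a b c) a b c) - n1414 (M.at_ a b c) a b c) + (n1262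 (M.at_ a b c) a b c) * (n1415 (M.at_ a b c) a b c)), fun h1 h2 h3 => (enc_norm (enc_sub (enc_mul h3 (enc_norm (enc_add (enc_mul ((F1388 M).enc h1 h2 h3) ((F2024 M).enc h1 h2 h3)) (enc_mul ((F1209 M).enc h1 h2 h3) ((F1415 M).enc h1 h2 h3))))) (enc_mul ((F15 M).enc h1 h2 h3) (enc_norm (enc_add (enc_sub (enc_sub (enc_mul (enc_norm (enc_sub (enc_mul ((F3 M).enc h1 h2 h3) ((F1401 M).enc h1 h2 h3)) ((F1414 M).enc h1 h2 h3))) ((F2024 M).enc h1 h2 h3)) (enc_mul ((F1412 M).enc h1 h2 h3) (enc_norm (enc_sub ((F2012 M).enc h1 h2 h3) ((F2021 M).enc h1 h2 h3))))) (enc_mul ((F1437 M).enc h1 h2 h3) (enc_norm (enc_sub ((F2014 M).enc h1 h2 h3) ((F1414 M).enc h1 h2 h3))))) (enc_mul ((F1262 M).enc h1 h2 h3) ((F1415 M).enc h1 h2 h3)))))))⟩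

noncomputable def F2056 (M : MolF) : Fn3 := ⟨_, fun a b c => (a) * (n1403 (M.at_ a b c) a b c) + (b) * ((n3 (M.at_ a b c) a b c) * (n1394 (M.at_ a b c) a b c)) - (b) * (n1403 (M.at_ a b c) a b c + (b) * (n1394 (M.at_ a b c) a b c)), fun h1 h2 h3 => (enc_sub ((F2013 M).enc h1 h2 h3) (enc_mul h2 (enc_norm (enc_add ((F1403 M).enc h1 h2 h3) (enc_mul h2 ((F1394 M).enc h1 h2 h3))))))⟩

noncomputable def F2059 (M : MolF) : Fn3 := ⟨_, fun a b c => n1290 (M.at_ a b c) a b c + (b) * ((n205 (M.at_ a b c) a b c) * ((n1388 (M.at_ a b c) a b c) * (n1403 (M.at_ a b c) a b c + (b) * (n1394 (M.at_ a b c) a b c)) + (n1209 (M.at_ a b c) a b c) * (n1404 (M.at_ a b c) a b c)) - (n15 (M.at_ a b c) a b c) * ((n1398 (M.at_ a b c) a b c) * ((a) * (n1403 (M.at_ a b c) a b c) + (b) * ((n3 (M.at_ a b c) a b c) * (n1394 (M.at_ a b c) a b c))) + (n1408 (M.at_ a b c) a b c + n1403 (M.at_ a b c) a b c - (1 + n372 (M.at_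 a b c) a b c) * (n1394 (M.at_ a b c) a b c)) * (n1403 (M.at_ a b c) a b c + (b) * (n1394 (M.at_ a b c) a b c)) + (n1395 (M.at_ a b c) a b c) * ((a) * (n1401 (M.at_ a b c) a b c) + (n3 (M.at_ a b c) a b c) * (n1394 (M.at_ a b c) a b c)) + (n1243 (M.at_ a b c) a b c) * (n1404 (M.at_ a b c) a b c))), fun h1 h2 h3 => (enc_add ((F1290 M).enc h1 h2 h3) (enc_mul h2 ((F2040 M).enc h1 h2 h3)))⟩

noncomputable def F2060 (M : MolF) : Fn3 := ⟨_, fun a b c => n1294 (M.at_ a b c) a b c + (b) * ((c) * ((n1388 (M.at_ a b c) a b c) * ((n169 (M.at_ a b c) a b c) * (n1403 (M.at_ a b c) a b c) + (b) * (n1414 (M.at_ a b c) a b c)) + (n1209 (M.at_ a b c) a b c) * (n1415 (M.at_ a b c) a b c)) - (n15 (M.at_ a b c) a b c) * (((n3 (M.at_ a b c) a b c) * (n1401 (M.at_ a b c) a b c) - n1414 (M.at_ a b c) a b c) * ((n169 (M.at_ a b c) a b c) * (n1403 (M.at_ a b c) a b c) + (b) * (n1414 (M.at_ a b c) a b c)) - (n1412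 (M.at_ a b c) a b c) * ((a) * (n1403 (M.at_ a b c) a b c) - (b) * (n1414 (M.at_ a b c) a b c)) - (n1437 (M.at_ a b c) a b c) * ((a) * (n1401 (M.at_ a b c) a b c) - n1414 (M.at_ a b c) a b c) + (n1262 (M.at_ a b c) a b c) * (n1415 (M.at_ a b c) a b c))), fun h1 h2 h3 => (enc_add ((F1294 M).enc h1 h2 h3) (enc_mul h2 ((F2054 M).enc h1 h2 h3)))⟩

noncomputable def F2062 (M : MolF) : Fn3 := ⟨_, fun a b c => (a) * (n1482 (M.at_ a b c) a b c), fun h1 h2 h3 => (enc_mul h1 ((F1482 M).enc h1 h2 h3))⟩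

noncomputable def F2063 (M : MolF) : Fn3 := ⟨_, fun a b c => (a) * (n1482 (M.at_ a b c) a b c) - (b) * ((n3 (M.at_ a b c) a b c) * (n1474 (M.at_ a b c) a b c)), fun h1 h2 h3 => (enc_norm (enc_sub ((F2062 M).enc h1 h2 h3) (enc_mul h2 (enc_norm (enc_mul ((F3 M).enc h1 h2 h3) ((F1474 M).enc h1 h2 h3))))))⟩

noncomputable def F2064 (M : MolF) : Fn3 := ⟨_, fun a b c => (a) * (n1480 (M.at_ a b c) a b c), fun h1 h2 h3 => (enc_mul h1 ((F1480 M).enc h1 h2 h3))⟩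

noncomputable def F2069 (M : MolF) : Fn3 := ⟨_, fun a b c => n1491 (M.at_ a b c) a b c - n1482 (M.at_ a b c) a b c, fun h1 h2 h3 => (enc_norm (enc_sub ((F1491 M).enc h1 h2 h3) ((F1482 M).enc h1 h2 h3)))⟩

noncomputable def F2070 (M : MolF) : Fn3 := ⟨_, fun a b c => (b) * (n1491 (M.at_ a b c) a b c - n1482 (M.at_ a b c) a b c), fun h1 h2 h3 => (enc_mul h2 ((F2069 M).enc h1 h2 h3))⟩

noncomputable def F2072 (M : MolF) : Fn3 := ⟨_, fun a b c => (n169 (M.at_ a b c) a b c) * (n1482 (M.at_ a b c) a b c) - (b) * (n1491 (M.at_ a b c) a b c - n1482 (M.at_ a b c) a b c), fun h1 h2 h3 => (enc_norm (enc_sub (enc_mul ((F169 M).enc h1 h2 h3) ((F1482 M).enc h1 h2 h3)) ((F2070 M).enc h1 h2 h3)))⟩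

noncomputable def F2077 (M : MolF) : Fn3 := ⟨_, fun a b c => n1486 (M.at_ a b c) a b c - (n1491 (M.at_ a b c) a b c - n1482 (M.at_ a b c) a b c), fun h1 h2 h3 => (enc_norm (enc_sub ((F1486 M).enc h1 h2 h3) ((F2069 M).enc h1 h2 h3)))⟩

noncomputable def F2089 (M : MolF) : Fn3 := ⟨_, fun a b c => (n205 (M.at_ a b c) a b c) * ((n1468 (M.at_ a b c) a b c) * (n1482 (M.at_ a b c) a b c - (b) * (n1474 (M.at_ a b c) a b c)) + (n1209 (M.at_ a b c) a b c) * (n1483 (M.at_ a b c) a b c)) - (n15 (M.at_ a b c) a b c) * ((n1477 (M.at_ a b c) a b c) * ((a) * (n1482 (M.at_ a b c) a b c) - (b) * ((n3 (M.at_ a b c) a b c) * (n1474 (M.at_ a b c) a b c))) + ((n3 (M.at_ a b c) a b c) * (n1474 (M.at_ a b c) a b c) + n1486 (M.at_ a b c) a b c) * (n1482 (M.at_ a b c) a b c - (b) * (n1474 (M.at_ a b c) a b c)) + (n1395 (M.at_ a b c) a b c) * ((a) * (n1480 (M.at_ a b c) a b c) - (n3 (M.at_ a b c) a b c) * (n1474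 (M.at_ a b c) a b c)) + (n1243 (M.at_ a b c) a b c) * (n1483 (M.at_ a b c) a b c)), fun h1 h2 h3 => (enc_norm (enc_sub (enc_mul ((F205 M).enc h1 h2 h3) (enc_norm (enc_add (enc_mul ((F1468 M).enc h1 h2 h3) (enc_norm (enc_sub ((F1482 M).enc h1 h2 h3) (enc_mul h2 ((F1474 M).enc h1 h2 h3))))) (enc_mul ((F1209 M).enc h1 h2 h3) ((F1483 M).enc h1 h2 h3))))) (enc_mul ((F15 M).enc h1 h2 h3) (enc_norm (enc_add (enc_add (enc_add (enc_mul ((F1477 M).enc h1 h2 h3) ((F2063 M).enc h1 h2 h3)) (enc_mul (enc_norm (enc_add (enc_mul ((F3 M).enc h1 h2 h3) ((F1474 M).enc h1 h2 h3)) ((F1486 M).enc h1 h2 h3))) (enc_norm (enc_sub ((F1482 M).enc h1 h2 h3) (enc_mul h2 ((F1474 M).enc h1 h2 h3)))))) (enc_mul ((F1395 M).enc h1 h2 h3) (enc_norm (enc_sub ((F2064 M).enc h1 h2 h3) (enc_mul ((F3 M).enc h1 h2 h3) ((F1474 M).enc h1 h2 h3)))))) (enc_mul ((F1243 M).enc h1 h2 h3) ((F1483 M).enc h1 h2 h3)))))))⟩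

noncomputable def F2104 (M : MolF) : Fn3 := ⟨_, fun a b c => (c) * ((n1468 (M.at_ a b c) a b c) * ((n169 (M.at_ a b c) a b c) * (n1482 (M.at_ a b c) a b c) - (b) * (n1491 (M.at_ a b c) a b c - n1482 (M.at_ a b c) a b c)) + (n1209 (M.at_ a b c) a b c) * (n1486 (M.at_ a b c) a b c - (n1491 (M.at_ a b c) a b c - n1482 (M.at_ a b c) a b c))) - (n15 (M.at_ a b c) a b c) * ((n1491 (M.at_ a b c) a b c + (n3 (M.at_ a b c) a b c) * (n1480 (M.at_ a b c) a b c) - n1482 (M.at_ a b c) a b c) * ((n169 (M.at_ a b c) a b c) * (n1482 (M.at_ a b c) a b c) - (b) * (n1491 (M.at_ a b c) a b c - n1482 (M.at_ a b c) a b c)) - (n1489 (M.at_ a b c) a b c) * ((a) * (n1482 (M.at_ a b c) a b c) + (b) * (n1491 (M.at_ a b c) a b c - n1482 (M.at_ a b c) a b c)) - (n1437 (M.at_ a b c) a b c) * ((a) * (n1480 (M.at_ a b c) a b c) + (n1491 (M.at_ a b c) a b c - n1482 (M.at_ a b c) a b c)) + (n1262 (M.at_ a b c) a b c)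 * (n1486 (M.at_ a b c) a b c - (n1491 (M.at_ a b c) a b c - n1482 (M.at_ a b c) a b c))), fun h1 h2 h3 => (enc_norm (enc_sub (enc_mul h3 (enc_norm (enc_add (enc_mul ((F1468 M).enc h1 h2 h3) ((F2072 M).enc h1 h2 h3)) (enc_mul ((F1209 M).enc h1 h2 h3) ((F2077 M).enc h1 h2 h3))))) (enc_mul ((F15 M).enc h1 h2 h3) (enc_norm (enc_add (enc_sub (enc_sub (enc_mul (enc_norm (enc_sub (enc_add ((F1491 M).enc h1 h2 h3) (enc_mul ((F3 M).enc h1 h2 h3) ((F1480 M).enc h1 h2 h3))) ((F1482 M).enc h1 h2 h3))) ((F2072 M).enc h1 h2 h3)) (enc_mul ((F1489 M).enc h1 h2 h3) (enc_norm (enc_add ((F2062 M).enc h1 h2 h3) ((F2070 M).enc h1 h2 h3))))) (enc_mul ((F1437 M).enc h1 h2 h3) (enc_norm (enc_add ((F2064 M).enc h1 h2 h3) ((F2069 M).enc h1 h2 h3))))) (enc_mul ((F1262 M).enc h1 h2 h3) ((F2077 M).enc h1 h2 h3)))))))⟩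

noncomputable def F2109 (M : MolF) : Fn3 := ⟨_, fun a b c => n1290 (M.at_ a b c) a b c + (b) * ((n205 (M.at_ a b c) a b c) * ((n1468 (M.at_ a b c) a b c) * (n1482 (M.at_ a b c) a b c - (b) * (n1474 (M.at_ a b c) a b c)) + (n1209 (M.at_ a b c) a b c) * (n1483 (M.at_ a b c) a b c)) - (n15 (M.at_ a b c) a b c) * ((n1477 (M.at_ a b c) a b c) * ((a) * (n1482 (M.at_ a b c) a b c) - (b) * ((n3 (M.at_ a b c) a b c) * (n1474 (M.at_ a b c) a b c))) + ((n3 (M.at_ a b c) a b c) * (n1474 (M.at_ a b c) a b c) + n1486 (M.at_ a b c) a b c) * (n1482 (M.at_ a b c) a b c - (b) * (n1474 (M.at_ a b c) a b c)) + (n1395 (M.at_ a b c) a b c) * ((a) * (n1480 (M.at_ a b c) a b c) - (n3 (M.at_ a b c) a b c) * (n1474 (M.at_ a b c) a b c)) + (n1243 (M.at_ a b c) a b c) * (n1483 (M.at_ a b c) a b c))), fun h1 h2 h3 => (enc_add ((F1290 M).enc h1 h2 h3) (enc_mul h2 ((F2089 M).enc h1 h2 h3)))⟩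

noncomputable def F2110 (M : MolF) : Fn3 := ⟨_, fun a b c => n1294 (M.at_ a b c) a b c + (b) * ((c) * ((n1468 (M.at_ a b c) a b c) * ((n169 (M.at_ a b c) a b c) * (n1482 (M.at_ a b c) a b c) - (b) * (n1491 (M.at_ a b c) a b c - n1482 (M.at_ a b c) a b c)) + (n1209 (M.at_ a b c) a b c) * (n1486 (M.at_ a b c) a b c - (n1491 (M.at_ a b c) a b c - n1482 (M.at_ a b c) a b c))) - (n15 (M.at_ a b c) a b c) * ((n1491 (M.at_ a b c) a b c + (n3 (M.at_ a b c) a b c) * (n1480 (M.at_ a b c) a b c) - n1482 (M.at_ a b c) a b c) * ((n169 (M.at_ a b c) a b c) * (n1482 (M.at_ a b c) a b c) - (b) * (n1491 (M.at_ a b c) a b c - n1482 (M.at_ a b c) a b c)) - (n1489 (M.at_ a b c) a b c) * ((a) * (n1482 (M.at_ a b c) a b c) + (b) * (n1491 (M.at_ a b c) a b c - n1482 (M.at_ a b c) a b c)) - (n1437 (M.at_ a b c) a b c) * ((a) * (n1480 (M.at_ a b c) a b c) + (n1491 (M.at_ a b c) a b c - n1482 (M.at_ a b c) a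 b c)) + (n1262 (M.at_ a b c) a b c) * (n1486 (M.at_ a b c) a b c - (n1491 (M.at_ a b c) a b c - n1482 (M.at_ a b c) a b c)))), fun h1 h2 h3 => (enc_add ((F1294 M).enc h1 h2 h3) (enc_mul h2 ((F2104 M).enc h1 h2 h3)))⟩

noncomputable def g0Ap_c0 (M : MolF) : Fn3 := ⟨_, fun a b c => n174 (M.at_ a b c) a b c, fun h1 h2 h3 => ((F174 M).enc h1 h2 h3)⟩

noncomputable def g0Ap_c1 (M : MolF) : Fn3 := ⟨_, fun a b c => n201 (M.at_ a b c) a b c, fun h1 h2 h3 => ((F201 M).enc h1 h2 h3)⟩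

noncomputable def g0Ap_n0 (M : MolF) : Fn3 := ⟨_, fun a b c => -(n297 (M.at_ a b c) a b c), fun {E A B C a b c} h1 h2 h3 => encc (b := -(n297 (M.at_ a b c) a b c)) (enc_neg ((F1544 M).enc h1 h2 h3)) (e0Ap_n0 (M.at_ a b c))⟩

noncomputable def g0Ap_n1 (M : MolF) : Fn3 := ⟨_, fun a b c => n221 (M.at_ a b c) a b c, fun {E A B C a b c} h1 h2 h3 => encc (b := n221 (M.at_ a b c) a b c) ((F1563 M).enc h1 h2 h3) (e0Ap_n1 (M.at_ a b c))⟩

noncomputable def g0Ap_n2 (M : MolF) : Fn3 := ⟨_, fun a b c => n302 (M.at_ a b c) a b c, fun {E A B C a b c} h1 h2 h3 => encc (b := n302 (M.at_ a b c) a b c) ((F1580 M).enc h1 h2 h3) (e0Ap_n2 (M.at_ a b c))⟩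

noncomputable def g0Ap_m0 (M : MolF) : Fn3 := ⟨_, fun a b c => n297 (M.at_ a b c) a b c, fun {E A B C a b c} h1 h2 h3 => encc (b := n297 (M.at_ a b c) a b c) ((F1544 M).enc h1 h2 h3) (e0Ap_m0 (M.at_ a b c))⟩

noncomputable def g0Ap_m1 (M : MolF) : Fn3 := ⟨_, fun a b c => n240 (M.at_ a b c) a b c, fun {E A B C a b c} h1 h2 h3 => encc (b := n240 (M.at_ a b c) a b c) ((F1577 M).enc h1 h2 h3) (e0Ap_m1 (M.at_ a b c))⟩

noncomputable def g0Ap_m2 (M : MolF) : Fn3 := ⟨_, fun a b c => n306 (M.at_ a b c) a b c, fun {E A B C a b c} h1 h2 h3 => encc (b := n306 (M.at_ a b c) a b c) ((F1581 M).enc h1 h2 h3) (e0Ap_m2 (M.at_ a b c))⟩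

noncomputable def g0Am_c0 (M : MolF) : Fn3 := ⟨_, fun a b c => n174 (M.at_ a b c) a b c, fun h1 h2 h3 => ((F174 M).enc h1 h2 h3)⟩

noncomputable def g0Am_c1 (M : MolF) : Fn3 := ⟨_, fun a b c => n325 (M.at_ a b c) a b c, fun h1 h2 h3 => ((F325 M).enc h1 h2 h3)⟩

noncomputable def g0Am_n0 (M : MolF) : Fn3 := ⟨_, fun a b c => -(n365 (M.at_ a b c) a b c), fun {E A B C a b c} h1 h2 h3 => encc (b := -(n365 (M.at_ a b c) a b c)) (enc_neg ((F1624 M).enc h1 h2 h3)) (e0Am_n0 (M.at_ a b c))⟩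

noncomputable def g0Am_n1 (M : MolF) : Fn3 := ⟨_, fun a b c => -(n345 (M.at_ a b c) a b c), fun {E A B C a b c} h1 h2 h3 => encc (b := -(n345 (M.at_ a b c) a b c)) (enc_neg ((F1608 M).enc h1 h2 h3)) (e0Am_n1 (M.at_ a b c))⟩

noncomputable def g0Am_n2 (M : MolF) : Fn3 := ⟨_, fun a b c => n369 (M.at_ a b c) a b c, fun {E A B C a b c} h1 h2 h3 => encc (b := n369 (M.at_ a b c) a b c) ((F1629 M).enc h1 h2 h3) (e0Am_n2 (M.at_ a b c))⟩

noncomputable def g0Am_m0 (M : MolF) : Fn3 := ⟨_, fun a b c => n365 (M.at_ a b c) a b c, fun {E A B C a b c} h1 h2 h3 => encc (b := n365 (M.at_ a b c) a b c) ((F1624 M).enc h1 h2 h3) (e0Am_m0 (M.at_ a b c))⟩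

noncomputable def g0Am_m1 (M : MolF) : Fn3 := ⟨_, fun a b c => -(n361 (M.at_ a b c) a b c), fun {E A B C a b c} h1 h2 h3 => encc (b := -(n361 (M.at_ a b c) a b c)) (enc_neg ((F1622 M).enc h1 h2 h3)) (e0Am_m1 (M.at_ a b c))⟩

noncomputable def g0Am_m2 (M : MolF) : Fn3 := ⟨_, fun a b c => n371 (M.at_ a b c) a b c, fun {E A B C a b c} h1 h2 h3 => encc (b := n371 (M.at_ a b c) a b c) ((F1630 M).enc h1 h2 h3) (e0Am_m2 (M.at_ a b c))⟩

noncomputable def g0Bp_c0 (M : MolF) : Fn3 := ⟨_, fun a b c => n462 (M.at_ a b c) a b c, fun h1 h2 h3 => ((F462 M).enc h1 h2 h3)⟩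

noncomputable def g0Bp_c1 (M : MolF) : Fn3 := ⟨_, fun a b c => n486 (M.at_ a b c) a b c, fun h1 h2 h3 => ((F486 M).enc h1 h2 h3)⟩

noncomputable def g0Bp_n0 (M : MolF) : Fn3 := ⟨_, fun a b c => -(n531 (M.at_ a b c) a b c), fun {E A B C a b c} h1 h2 h3 => encc (b := -(n531 (M.at_ a b c) a b c)) (enc_neg ((F1677 M).enc h1 h2 h3)) (e0Bp_n0 (M.at_ a b c))⟩

noncomputable def g0Bp_n1 (M : MolF) : Fn3 := ⟨_, fun a b c => n508 (M.at_ a b c) a b c, fun {E A B C a b c} h1 h2 h3 => encc (b := n508 (M.at_ a b c) a b c) ((F1661 M).enc h1 h2 h3) (e0Bp_n1 (M.at_ a b c))⟩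

noncomputable def g0Bp_n2 (M : MolF) : Fn3 := ⟨_, fun a b c => n533 (M.at_ a b c) a b c, fun {E A B C a b c} h1 h2 h3 => encc (b := n533 (M.at_ a b c) a b c) ((F1680 M).enc h1 h2 h3) (e0Bp_n2 (M.at_ a b c))⟩

noncomputable def g0Bp_m0 (M : MolF) : Fn3 := ⟨_, fun a b c => n531 (M.at_ a b c) a b c, fun {E A B C a b c} h1 h2 h3 => encc (b := n531 (M.at_ a b c) a b c) ((F1677 M).enc h1 h2 h3) (e0Bp_m0 (M.at_ a b c))⟩

noncomputable def g0Bp_m1 (M : MolF) : Fn3 := ⟨_, fun a b c => n526 (M.at_ a b c) a b c, fun {E A B C a b c} h1 h2 h3 => encc (b := n526 (M.at_ a b c) a b c) ((F1675 M).enc h1 h2 h3) (e0Bp_m1 (M.at_ a b c))⟩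

noncomputable def g0Bp_m2 (M : MolF) : Fn3 := ⟨_, fun a b c => n535 (M.at_ a b c) a b c, fun {E A B C a b c} h1 h2 h3 => encc (b := n535 (M.at_ a b c) a b c) ((F1681 M).enc h1 h2 h3) (e0Bp_m2 (M.at_ a b c))⟩

noncomputable def g0Bm_c0 (M : MolF) : Fn3 := ⟨_, fun a b c => n462 (M.at_ a b c) a b c, fun h1 h2 h3 => ((F462 M).enc h1 h2 h3)⟩

noncomputable def g0Bm_c1 (M : MolF) : Fn3 := ⟨_, fun a b c => n548 (M.at_ a b c) a b c, fun h1 h2 h3 => ((F548 M).enc h1 h2 h3)⟩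

noncomputable def g0Bm_n0 (M : MolF) : Fn3 := ⟨_, fun a b c => -(n590 (M.at_ a b c) a b c), fun {E A B C a b c} h1 h2 h3 => encc (b := -(n590 (M.at_ a b c) a b c)) (enc_neg ((F1683 M).enc h1 h2 h3)) (e0Bm_n0 (M.at_ a b c))⟩

noncomputable def g0Bm_n1 (M : MolF) : Fn3 := ⟨_, fun a b c => -(n570 (M.at_ a b c) a b c), fun {E A B C a b c} h1 h2 h3 => encc (b := -(n570 (M.at_ a b c) a b c)) (enc_neg ((F1709 M).enc h1 h2 h3)) (e0Bm_n1 (M.at_ a b c))⟩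

noncomputable def g0Bm_n2 (M : MolF) : Fn3 := ⟨_, fun a b c => n594 (M.at_ a b c) a b c, fun {E A B C a b c} h1 h2 h3 => encc (b := n594 (M.at_ a b c) a b c) ((F1729 M).enc h1 h2 h3) (e0Bm_n2 (M.at_ a b c))⟩

noncomputable def g0Bm_m0 (M : MolF) : Fn3 := ⟨_, fun a b c => n590 (M.at_ a b c) a b c, fun {E A B C a b c} h1 h2 h3 => encc (b := n590 (M.at_ a b c) a b c) ((F1683 M).enc h1 h2 h3) (e0Bm_m0 (M.at_ a b c))⟩

noncomputable def g0Bm_m1 (M : MolF) : Fn3 := ⟨_, fun a b c => -(n586 (M.at_ a b c) a b c), fun {E A B C a b c} h1 h2 h3 => encc (b := -(n586 (M.at_ a b c) a b c)) (enc_neg ((F1724 M).enc h1 h2 h3)) (e0Bm_m1 (M.at_ a b c))⟩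

noncomputable def g0Bm_m2 (M : MolF) : Fn3 := ⟨_, fun a b c => n596 (M.at_ a b c) a b c, fun {E A B C a b c} h1 h2 h3 => encc (b := n596 (M.at_ a b c) a b c) ((F1730 M).enc h1 h2 h3) (e0Bm_m2 (M.at_ a b c))⟩

noncomputable def g1Ap_c0 (M : MolF) : Fn3 := ⟨_, fun a b c => n752 (M.at_ a b c) a b c, fun h1 h2 h3 => ((F752 M).enc h1 h2 h3)⟩

noncomputable def g1Ap_c1 (M : MolF) : Fn3 := ⟨_, fun a b c => n779 (M.at_ a b c) a b c, fun h1 h2 h3 => ((F779 M).enc h1 h2 h3)⟩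

noncomputable def g1Ap_n0 (M : MolF) : Fn3 := ⟨_, fun a b c => -(n866 (M.at_ a b c) a b c), fun {E A B C a b c} h1 h2 h3 => encc (b := -(n866 (M.at_ a b c) a b c)) (enc_neg ((F1733 M).enc h1 h2 h3)) (e1Ap_n0 (M.at_ a b c))⟩

noncomputable def g1Ap_n1 (M : MolF) : Fn3 := ⟨_, fun a b c => n798 (M.at_ a b c) a b c, fun {E A B C a b c} h1 h2 h3 => encc (b := n798 (M.at_ a b c) a b c) ((F1752 M).enc h1 h2 h3) (e1Ap_n1 (M.at_ a b c))⟩

noncomputable def g1Ap_n2 (M : MolF) : Fn3 := ⟨_, fun a b c => n870 (M.at_ a b c) a b c, fun {E A B C a b c} h1 h2 h3 => encc (b := n870 (M.at_ a b c) a b c) ((F1769 M).enc h1 h2 h3) (e1Ap_n2 (M.at_ a b c))⟩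

noncomputable def g1Ap_m0 (M : MolF) : Fn3 := ⟨_, fun a b c => n866 (M.at_ a b c) a b c, fun {E A B C a b c} h1 h2 h3 => encc (b := n866 (M.at_ a b c) a b c) ((F1733 M).enc h1 h2 h3) (e1Ap_m0 (M.at_ a b c))⟩

noncomputable def g1Ap_m1 (M : MolF) : Fn3 := ⟨_, fun a b c => n817 (M.at_ a b c) a b c, fun {E A B C a b c} h1 h2 h3 => encc (b := n817 (M.at_ a b c) a b c) ((F1766 M).enc h1 h2 h3) (e1Ap_m1 (M.at_ a b c))⟩

noncomputable def g1Ap_m2 (M : MolF) : Fn3 := ⟨_, fun a b c => n874 (M.at_ a b c) a b c, fun {E A B C a b c} h1 h2 h3 => encc (b := n874 (M.at_ a b c) a b c) ((F1770 M).enc h1 h2 h3) (e1Ap_m2 (M.at_ a b c))⟩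

noncomputable def g1Am_c0 (M : MolF) : Fn3 := ⟨_, fun a b c => n752 (M.at_ a b c) a b c, fun h1 h2 h3 => ((F752 M).enc h1 h2 h3)⟩

noncomputable def g1Am_c1 (M : MolF) : Fn3 := ⟨_, fun a b c => n893 (M.at_ a b c) a b c, fun h1 h2 h3 => ((F893 M).enc h1 h2 h3)⟩

noncomputable def g1Am_n0 (M : MolF) : Fn3 := ⟨_, fun a b c => -(n933 (M.at_ a b c) a b c), fun {E A B C a b c} h1 h2 h3 => encc (b := -(n933 (M.at_ a b c) a b c)) (enc_neg ((F1813 M).enc h1 h2 h3)) (e1Am_n0 (M.at_ a b c))⟩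

noncomputable def g1Am_n1 (M : MolF) : Fn3 := ⟨_, fun a b c => -(n913 (M.at_ a b c) a b c), fun {E A B C a b c} h1 h2 h3 => encc (b := -(n913 (M.at_ a b c) a b c)) (enc_neg ((F1797 M).enc h1 h2 h3)) (e1Am_n1 (M.at_ a b c))⟩

noncomputable def g1Am_n2 (M : MolF) : Fn3 := ⟨_, fun a b c => n937 (M.at_ a b c) a b c, fun {E A B C a b c} h1 h2 h3 => encc (b := n937 (M.at_ a b c) a b c) ((F1818 M).enc h1 h2 h3) (e1Am_n2 (M.at_ a b c))⟩

noncomputable def g1Am_m0 (M : MolF) : Fn3 := ⟨_, fun a b c => n933 (M.at_ a b c) a b c, fun {E A B C a b c} h1 h2 h3 => encc (b := n933 (M.at_ a b c) a b c) ((F1813 M).enc h1 h2 h3) (e1Am_m0 (M.at_ a b c))⟩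

noncomputable def g1Am_m1 (M : MolF) : Fn3 := ⟨_, fun a b c => -(n929 (M.at_ a b c) a b c), fun {E A B C a b c} h1 h2 h3 => encc (b := -(n929 (M.at_ a b c) a b c)) (enc_neg ((F1811 M).enc h1 h2 h3)) (e1Am_m1 (M.at_ a b c))⟩

noncomputable def g1Am_m2 (M : MolF) : Fn3 := ⟨_, fun a b c => n939 (M.at_ a b c) a b c, fun {E A B C a b c} h1 h2 h3 => encc (b := n939 (M.at_ a b c) a b c) ((F1819 M).enc h1 h2 h3) (e1Am_m2 (M.at_ a b c))⟩

noncomputable def g1Bp_c0 (M : MolF) : Fn3 := ⟨_, fun a b c => n1047 (M.at_ a b c) a b c, fun h1 h2 h3 => ((F1047 M).enc h1 h2 h3)⟩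

noncomputable def g1Bp_c1 (M : MolF) : Fn3 := ⟨_, fun a b c => n1070 (M.at_ a b c) a b c, fun h1 h2 h3 => ((F1070 M).enc h1 h2 h3)⟩

noncomputable def g1Bp_n0 (M : MolF) : Fn3 := ⟨_, fun a b c => -(n1115 (M.at_ a b c) a b c), fun {E A B C a b c} h1 h2 h3 => encc (b := -(n1115 (M.at_ a b c) a b c)) (enc_neg ((F1865 M).enc h1 h2 h3)) (e1Bp_n0 (M.at_ a b c))⟩

noncomputable def g1Bp_n1 (M : MolF) : Fn3 := ⟨_, fun a b c => n1092 (M.at_ a b c) a b c, fun {E A B C a b c} h1 h2 h3 => encc (b := n1092 (M.at_ a b c) a b c) ((F1849 M).enc h1 h2 h3) (e1Bp_n1 (M.at_ a b c))⟩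

noncomputable def g1Bp_n2 (M : MolF) : Fn3 := ⟨_, fun a b c => n1117 (M.at_ a b c) a b c, fun {E A B C a b c} h1 h2 h3 => encc (b := n1117 (M.at_ a b c) a b c) ((F1868 M).enc h1 h2 h3) (e1Bp_n2 (M.at_ a b c))⟩

noncomputable def g1Bp_m0 (M : MolF) : Fn3 := ⟨_, fun a b c => n1115 (M.at_ a b c) a b c, fun {E A B C a b c} h1 h2 h3 => encc (b := n1115 (M.at_ a b c) a b c) ((F1865 M).enc h1 h2 h3) (e1Bp_m0 (M.at_ a b c))⟩

noncomputable def g1Bp_m1 (M : MolF) : Fn3 := ⟨_, fun a b c => n1110 (M.at_ a b c) a b c, fun {E A B C a b c} h1 h2 h3 => encc (b := n1110 (M.at_ a b c) a b c) ((F1863 M).enc h1 h2 h3) (e1Bp_m1 (M.at_ a b c))⟩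

noncomputable def g1Bp_m2 (M : MolF) : Fn3 := ⟨_, fun a b c => n1119 (M.at_ a b c) a b c, fun {E A B C a b c} h1 h2 h3 => encc (b := n1119 (M.at_ a b c) a b c) ((F1869 M).enc h1 h2 h3) (e1Bp_m2 (M.at_ a b c))⟩

noncomputable def g1Bm_c0 (M : MolF) : Fn3 := ⟨_, fun a b c => n1047 (M.at_ a b c) a b c, fun h1 h2 h3 => ((F1047 M).enc h1 h2 h3)⟩

noncomputable def g1Bm_c1 (M : MolF) : Fn3 := ⟨_, fun a b c => n1134 (M.at_ a b c) a b c, fun h1 h2 h3 => ((F1134 M).enc h1 h2 h3)⟩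

noncomputable def g1Bm_n0 (M : MolF) : Fn3 := ⟨_, fun a b c => -(n1176 (M.at_ a b c) a b c), fun {E A B C a b c} h1 h2 h3 => encc (b := -(n1176 (M.at_ a b c) a b c)) (enc_neg ((F1871 M).enc h1 h2 h3)) (e1Bm_n0 (M.at_ a b c))⟩

noncomputable def g1Bm_n1 (M : MolF) : Fn3 := ⟨_, fun a b c => -(n1156 (M.at_ a b c) a b c), fun {E A B C a b c} h1 h2 h3 => encc (b := -(n1156 (M.at_ a b c) a b c)) (enc_neg ((F1897 M).enc h1 h2 h3)) (e1Bm_n1 (M.at_ a b c))⟩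

noncomputable def g1Bm_n2 (M : MolF) : Fn3 := ⟨_, fun a b c => n1180 (M.at_ a b c) a b c, fun {E A B C a b c} h1 h2 h3 => encc (b := n1180 (M.at_ a b c) a b c) ((F1917 M).enc h1 h2 h3) (e1Bm_n2 (M.at_ a b c))⟩

noncomputable def g1Bm_m0 (M : MolF) : Fn3 := ⟨_, fun a b c => n1176 (M.at_ a b c) a b c, fun {E A B C a b c} h1 h2 h3 => encc (b := n1176 (M.at_ a b c) a b c) ((F1871 M).enc h1 h2 h3) (e1Bm_m0 (M.at_ a b c))⟩

noncomputable def g1Bm_m1 (M : MolF) : Fn3 := ⟨_, fun a b c => -(n1172 (M.at_ a b c) a b c), fun {E A B C a b c} h1 h2 h3 => encc (b := -(n1172 (M.at_ a b c) a b c)) (enc_neg ((F1912 M).enc h1 h2 h3)) (e1Bm_m1 (M.at_ a b c))⟩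

noncomputable def g1Bm_m2 (M : MolF) : Fn3 := ⟨_, fun a b c => n1182 (M.at_ a b c) a b c, fun {E A B C a b c} h1 h2 h3 => encc (b := n1182 (M.at_ a b c) a b c) ((F1918 M).enc h1 h2 h3) (e1Bm_m2 (M.at_ a b c))⟩

noncomputable def g2Ap_c0 (M : MolF) : Fn3 := ⟨_, fun a b c => n1219 (M.at_ a b c) a b c, fun h1 h2 h3 => ((F1219 M).enc h1 h2 h3)⟩

noncomputable def g2Ap_c1 (M : MolF) : Fn3 := ⟨_, fun a b c => n1241 (M.at_ a b c) a b c, fun h1 h2 h3 => ((F1241 M).enc h1 h2 h3)⟩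

noncomputable def g2Ap_c2 (M : MolF) : Fn3 := ⟨_, fun a b c => n1281 (M.at_ a b c) a b c, fun h1 h2 h3 => ((F1281 M).enc h1 h2 h3)⟩

noncomputable def g2Ap_c3 (M : MolF) : Fn3 := ⟨_, fun a b c => n1283 (M.at_ a b c) a b c, fun h1 h2 h3 => ((F1283 M).enc h1 h2 h3)⟩

noncomputable def g2Ap_c4 (M : MolF) : Fn3 := ⟨_, fun a b c => n1187 (M.at_ a b c) a b c, fun h1 h2 h3 => ((F1187 M).enc h1 h2 h3)⟩

noncomputable def g2Ap_c5 (M : MolF) : Fn3 := ⟨_, fun a b c => n1215 (M.at_ a b c) a b c, fun h1 h2 h3 => ((F1215 M).enc h1 h2 h3)⟩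

noncomputable def g2Ap_n0 (M : MolF) : Fn3 := ⟨_, fun a b c => -(n1288 (M.at_ a b c) a b c), fun {E A B C a b c} h1 h2 h3 => encc (b := -(n1288 (M.at_ a b c) a b c)) (enc_neg ((F1921 M).enc h1 h2 h3)) (e2Ap_n0 (M.at_ a b c))⟩

noncomputable def g2Ap_n1 (M : MolF) : Fn3 := ⟨_, fun a b c => n1260 (M.at_ a b c) a b c, fun {E A B C a b c} h1 h2 h3 => encc (b := n1260 (M.at_ a b c) a b c) ((F1940 M).enc h1 h2 h3) (e2Ap_n1 (M.at_ a b c))⟩

noncomputable def g2Ap_n2 (M : MolF) : Fn3 := ⟨_, fun a b c => n1292 (M.at_ a b c) a b c, fun {E A B C a b c} h1 h2 h3 => encc (b := n1292 (M.at_ a b c) a b c) ((F1957 M).enc h1 h2 h3) (e2Ap_n2 (M.at_ a b c))⟩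

noncomputable def g2Ap_m0 (M : MolF) : Fn3 := ⟨_, fun a b c => n1288 (M.at_ a b c) a b c, fun {E A B C a b c} h1 h2 h3 => encc (b := n1288 (M.at_ a b c) a b c) ((F1921 M).enc h1 h2 h3) (e2Ap_m0 (M.at_ a b c))⟩

noncomputable def g2Ap_m1 (M : MolF) : Fn3 := ⟨_, fun a b c => n1279 (M.at_ a b c) a b c, fun {E A B C a b c} h1 h2 h3 => encc (b := n1279 (M.at_ a b c) a b c) ((F1954 M).enc h1 h2 h3) (e2Ap_m1 (M.at_ a b c))⟩

noncomputable def g2Ap_m2 (M : MolF) : Fn3 := ⟨_, fun a b c => n1296 (M.at_ a b c) a b c, fun {E A B C a b c} h1 h2 h3 => encc (b := n1296 (M.at_ a b c) a b c) ((F1958 M).enc h1 h2 h3) (e2Ap_m2 (M.at_ a b c))⟩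

noncomputable def g2Am_c0 (M : MolF) : Fn3 := ⟨_, fun a b c => n1307 (M.at_ a b c) a b c, fun h1 h2 h3 => ((F1307 M).enc h1 h2 h3)⟩

noncomputable def g2Am_c1 (M : MolF) : Fn3 := ⟨_, fun a b c => n1326 (M.at_ a b c) a b c, fun h1 h2 h3 => ((F1326 M).enc h1 h2 h3)⟩

noncomputable def g2Am_c2 (M : MolF) : Fn3 := ⟨_, fun a b c => n1281 (M.at_ a b c) a b c, fun h1 h2 h3 => ((F1281 M).enc h1 h2 h3)⟩

noncomputable def g2Am_c3 (M : MolF) : Fn3 := ⟨_, fun a b c => n1283 (M.at_ a b c) a b c, fun h1 h2 h3 => ((F1283 M).enc h1 h2 h3)⟩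

noncomputable def g2Am_c4 (M : MolF) : Fn3 := ⟨_, fun a b c => n1187 (M.at_ a b c) a b c, fun h1 h2 h3 => ((F1187 M).enc h1 h2 h3)⟩

noncomputable def g2Am_c5 (M : MolF) : Fn3 := ⟨_, fun a b c => n1215 (M.at_ a b c) a b c, fun h1 h2 h3 => ((F1215 M).enc h1 h2 h3)⟩

noncomputable def g2Am_n0 (M : MolF) : Fn3 := ⟨_, fun a b c => -(n1367 (M.at_ a b c) a b c), fun {E A B C a b c} h1 h2 h3 => encc (b := -(n1367 (M.at_ a b c) a b c)) (enc_neg ((F2003 M).enc h1 h2 h3)) (e2Am_n0 (M.at_ a b c))⟩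

noncomputable def g2Am_n1 (M : MolF) : Fn3 := ⟨_, fun a b c => -(n1346 (M.at_ a b c) a b c), fun {E A B C a b c} h1 h2 h3 => encc (b := -(n1346 (M.at_ a b c) a b c)) (enc_neg ((F1987 M).enc h1 h2 h3)) (e2Am_n1 (M.at_ a b c))⟩

noncomputable def g2Am_n2 (M : MolF) : Fn3 := ⟨_, fun a b c => n1371 (M.at_ a b c) a b c, fun {E A B C a b c} h1 h2 h3 => encc (b := n1371 (M.at_ a b c) a b c) ((F2008 M).enc h1 h2 h3) (e2Am_n2 (M.at_ a b c))⟩

noncomputable def g2Am_m0 (M : MolF) : Fn3 := ⟨_, fun a b c => n1367 (M.at_ a b c) a b c, fun {E A B C a b c} h1 h2 h3 => encc (b := n1367 (M.at_ a b c) a b c) ((F2003 M).enc h1 h2 h3) (e2Am_m0 (M.at_ a b c))⟩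

noncomputable def g2Am_m1 (M : MolF) : Fn3 := ⟨_, fun a b c => -(n1362 (M.at_ a b c) a b c), fun {E A B C a b c} h1 h2 h3 => encc (b := -(n1362 (M.at_ a b c) a b c)) (enc_neg ((F2001 M).enc h1 h2 h3)) (e2Am_m1 (M.at_ a b c))⟩

noncomputable def g2Am_m2 (M : MolF) : Fn3 := ⟨_, fun a b c => n1373 (M.at_ a b c) a b c, fun {E A B C a b c} h1 h2 h3 => encc (b := n1373 (M.at_ a b c) a b c) ((F2009 M).enc h1 h2 h3) (e2Am_m2 (M.at_ a b c))⟩

noncomputable def g2Bp_c0 (M : MolF) : Fn3 := ⟨_, fun a b c => n1394 (M.at_ a b c) a b c, fun h1 h2 h3 => ((F1394 M).enc h1 h2 h3)⟩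

noncomputable def g2Bp_c1 (M : MolF) : Fn3 := ⟨_, fun a b c => n1414 (M.at_ a b c) a b c, fun h1 h2 h3 => ((F1414 M).enc h1 h2 h3)⟩

noncomputable def g2Bp_c2 (M : MolF) : Fn3 := ⟨_, fun a b c => n1281 (M.at_ a b c) a b c, fun h1 h2 h3 => ((F1281 M).enc h1 h2 h3)⟩

noncomputable def g2Bp_c3 (M : MolF) : Fn3 := ⟨_, fun a b c => n1283 (M.at_ a b c) a b c, fun h1 h2 h3 => ((F1283 M).enc h1 h2 h3)⟩

noncomputable def g2Bp_c4 (M : MolF) : Fn3 := ⟨_, fun a b c => n1375 (M.at_ a b c) a b c, fun h1 h2 h3 => ((F1375 M).enc h1 h2 h3)⟩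

noncomputable def g2Bp_c5 (M : MolF) : Fn3 := ⟨_, fun a b c => n1215 (M.at_ a b c) a b c, fun h1 h2 h3 => ((F1215 M).enc h1 h2 h3)⟩

noncomputable def g2Bp_n0 (M : MolF) : Fn3 := ⟨_, fun a b c => -(n1459 (M.at_ a b c) a b c), fun {E A B C a b c} h1 h2 h3 => encc (b := -(n1459 (M.at_ a b c) a b c)) (enc_neg ((F2056 M).enc h1 h2 h3)) (e2Bp_n0 (M.at_ a b c))⟩

noncomputable def g2Bp_n1 (M : MolF) : Fn3 := ⟨_, fun a b c => n1436 (M.at_ a b c) a b c, fun {E A B C a b c} h1 h2 h3 => encc (b := n1436 (M.at_ a b c) a b c) ((F2040 M).enc h1 h2 h3) (e2Bp_n1 (M.at_ a b c))⟩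

noncomputable def g2Bp_n2 (M : MolF) : Fn3 := ⟨_, fun a b c => n1461 (M.at_ a b c) a b c, fun {E A B C a b c} h1 h2 h3 => encc (b := n1461 (M.at_ a b c) a b c) ((F2059 M).enc h1 h2 h3) (e2Bp_n2 (M.at_ a b c))⟩

noncomputable def g2Bp_m0 (M : MolF) : Fn3 := ⟨_, fun a b c => n1459 (M.at_ a b c) a b c, fun {E A B C a b c} h1 h2 h3 => encc (b := n1459 (M.at_ a b c) a b c) ((F2056 M).enc h1 h2 h3) (e2Bp_m0 (M.at_ a b c))⟩

noncomputable def g2Bp_m1 (M : MolF) : Fn3 := ⟨_, fun a b c => n1454 (M.at_ a b c) a b c, fun {E A B C a b c} h1 h2 h3 => encc (b := n1454 (M.at_ a b c) a b c) ((F2054 M).enc h1 h2 h3) (e2Bp_m1 (M.at_ a b c))⟩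

noncomputable def g2Bp_m2 (M : MolF) : Fn3 := ⟨_, fun a b c => n1463 (M.at_ a b c) a b c, fun {E A B C a b c} h1 h2 h3 => encc (b := n1463 (M.at_ a b c) a b c) ((F2060 M).enc h1 h2 h3) (e2Bp_m2 (M.at_ a b c))⟩

noncomputable def g2Bm_c0 (M : MolF) : Fn3 := ⟨_, fun a b c => n1474 (M.at_ a b c) a b c, fun h1 h2 h3 => ((F1474 M).enc h1 h2 h3)⟩

noncomputable def g2Bm_c1 (M : MolF) : Fn3 := ⟨_, fun a b c => n1491 (M.at_ a b c) a b c, fun h1 h2 h3 => ((F1491 M).enc h1 h2 h3)⟩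

noncomputable def g2Bm_c2 (M : MolF) : Fn3 := ⟨_, fun a b c => n1281 (M.at_ a b c) a b c, fun h1 h2 h3 => ((F1281 M).enc h1 h2 h3)⟩

noncomputable def g2Bm_c3 (M : MolF) : Fn3 := ⟨_, fun a b c => n1283 (M.at_ a b c) a b c, fun h1 h2 h3 => ((F1283 M).enc h1 h2 h3)⟩

noncomputable def g2Bm_c4 (M : MolF) : Fn3 := ⟨_, fun a b c => n1375 (M.at_ a b c) a b c, fun h1 h2 h3 => ((F1375 M).enc h1 h2 h3)⟩

noncomputable def g2Bm_c5 (M : MolF) : Fn3 := ⟨_, fun a b c => n1215 (M.at_ a b c) a b c, fun h1 h2 h3 => ((F1215 M).enc h1 h2 h3)⟩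

noncomputable def g2Bm_n0 (M : MolF) : Fn3 := ⟨_, fun a b c => -(n1534 (M.at_ a b c) a b c), fun {E A B C a b c} h1 h2 h3 => encc (b := -(n1534 (M.at_ a b c) a b c)) (enc_neg ((F2063 M).enc h1 h2 h3)) (e2Bm_n0 (M.at_ a b c))⟩

noncomputable def g2Bm_n1 (M : MolF) : Fn3 := ⟨_, fun a b c => -(n1513 (M.at_ a b c) a b c), fun {E A B C a b c} h1 h2 h3 => encc (b := -(n1513 (M.at_ a b c) a b c)) (enc_neg ((F2089 M).enc h1 h2 h3)) (e2Bm_n1 (M.at_ a b c))⟩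

noncomputable def g2Bm_n2 (M : MolF) : Fn3 := ⟨_, fun a b c => n1538 (M.at_ a b c) a b c, fun {E A B C a b c} h1 h2 h3 => encc (b := n1538 (M.at_ a b c) a b c) ((F2109 M).enc h1 h2 h3) (e2Bm_n2 (M.at_ a b c))⟩

noncomputable def g2Bm_m0 (M : MolF) : Fn3 := ⟨_, fun a b c => n1534 (M.at_ a b c) a b c, fun {E A B C a b c} h1 h2 h3 => encc (b := n1534 (M.at_ a b c) a b c) ((F2063 M).enc h1 h2 h3) (e2Bm_m0 (M.at_ a b c))⟩

noncomputable def g2Bm_m1 (M : MolF) : Fn3 := ⟨_, fun a b c => -(n1529 (M.at_ a b c) a b c), fun {E A B C a b c} h1 h2 h3 => encc (b := -(n1529 (M.at_ a b c) a b c)) (enc_neg ((F2104 M).enc h1 h2 h3)) (e2Bm_m1 (M.at_ a b c))⟩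

noncomputable def g2Bm_m2 (M : MolF) : Fn3 := ⟨_, fun a b c => n1540 (M.at_ a b c) a b c, fun {E A B C a b c} h1 h2 h3 => encc (b := n1540 (M.at_ a b c) a b c) ((F2110 M).enc h1 h2 h3) (e2Bm_m2 (M.at_ a b c))⟩

end Pool.Agent.Strip051.PB.Mol
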