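import Pool.Agent.Strip051.PB.MolF

/-! # Charts in the packed arithmetic: the test of a leaf

A chart has functions `sk` (one positive value excludes the box), functions `cm` which all have to
be positive, and two lists of alternatives of which one each has to be positive. -/

namespace Pool.Agent.Strip051.PB.Mol

open Pool.Agent.Strip051.PB

/-- the test of one function of a list -/
noncomputable def nth3 (L : List Fn3) (i A B C : ℕ) : Bool :=
  List.rec (motive := fun _ => ℕ → Bool) (fun _ => false)
    (fun F _ ih i => Nat.rec (motive := fun _ => Bool) (ppos (F.t A B C)) (fun i _ => ih i) i) L i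

/-- all functions of a list are positive -/
noncomputable def all3 (L : List Fn3) (A B C : ℕ) : Bool :=
  List.rec (motive := fun _ => Bool) true (fun F _ ih => band (ppos (F.t A B C)) ih) L

theorem nth3_sound {E : Pt} {A B C : ℕ} {a b c : ℝ} (hA : Enc E A a) (hB : Enc E B b)
    (hC : Enc E C c) (L : List Fn3) : ∀ i, nth3 L i A B C = true → ∃ F ∈ L, 0 < F.v a b c := by
  induction L with
  | nil => intro i h; exact absurd (show false = true from h) (by decide)
  | cons F L ih =>
    intro i h
    match i, h with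
    | 0, h => exact ⟨F, List.mem_cons_self, ppos_sound (F.enc hA hB hC) h⟩
    | i + 1, h =>
      obtain ⟨F', h1, h2⟩ := ih i h
      exact ⟨F', List.mem_cons_of_mem _ h1, h2⟩

theorem all3_sound {E : Pt} {A B C : ℕ} {a b c : ℝ} (hA : Enc E A a) (hB : Enc E B b)
    (hC : Enc E C c) (L : List Fn3) (h : all3 L A B C = true) : ∀ F ∈ L, 0 < F.v a b c := by
  induction L with
  | nil => intro F hF; exact absurd hF List.not_mem_nil
  | cons G L ih =>
    obtain ⟨h1, h2⟩ := band_true (show band (ppos (G.t A B C)) (all3 L A B C) = true from h)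
    intro F hF
    rcases List.mem_cons.1 hF with rfl | hF
    · exact ppos_sound (F.enc hA hB hC) h1
    · exact ih h2 F hF

/-- A chart. -/
structure Cht where
  (sk cm al be : List Fn3)

/-- the test of a leaf: odd hints exclude the box, even hints choose the two alternatives -/
noncomputable def Cht.t (K : Cht) (h A B C : ℕ) : Bool :=
  Bool.rec (motive := fun _ => Bool)
    (band (all3 K.cm A B C) (band (nth3 K.al (Nat.land (Nat.shiftRight h 1) 3) A B C)
      (nth3 K.be (Nat.shiftRight h 3) A B C)))
    (nth3 K.sk (Nat.shiftRight h 1) A B C) (Nat.beq (Nat.land h 1) 1)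

/-- the statement of a chart -/
def Cht.P (K : Cht) (a b c : ℝ) : Prop :=
  (∃ F ∈ K.sk, 0 < F.v a b c) ∨ ((∀ F ∈ K.cm, 0 < F.v a b c) ∧ (∃ F ∈ K.al, 0 < F.v a b c) ∧
    ∃ F ∈ K.be, 0 < F.v a b c)

theorem Cht.sound (K : Cht) {E : Pt} {h A B C : ℕ} {a b c : ℝ} (hA : Enc E A a) (hB : Enc E B b)
    (hC : Enc E C c) (ht : K.t h A B C = true) : K.P a b c := by
  unfold Cht.t at ht
  unfold Cht.P
  cases hb : Nat.beq (Nat.land h 1) 1 with
  | true =>
    rw [hb] at ht
    exact Or.inl (nth3_sound hA hB hC _ _ ht)
  | false =>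
    rw [hb] at ht
    obtain ⟨h1, h2⟩ := band_true (show band _ _ = true from ht)
    obtain ⟨h3, h4⟩ := band_true h2
    exact Or.inr ⟨all3_sound hA hB hC _ h1, nth3_sound hA hB hC _ _ h3,
      nth3_sound hA hB hC _ _ h4⟩

/-- The chart in the coordinates `p = u + r`, `q = b` or `q = -b`. -/
noncomputable def Cht.row (K : Cht) (ng : Bool) (r h A B C : ℕ) : Bool :=
  frc (pnorm (psub A (pdc r 0))) fun U =>
    frc (Bool.rec (motive := fun _ => ℕ) B (pneg B) ng) fun V => K.t h U V C

theorem Cht.row_sound (K : Cht) {ng : Bool} {r : ℕ} {E : Pt} {h A B C : ℕ} {p q x : ℝ}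
    (hA : Enc E A p) (hB : Enc E B q) (hC : Enc E C x) (ht : K.row ng r h A B C = true) :
    K.P (p - r / S) (cond ng (-q) q) x := by
  simp only [Cht.row, frc_eq] at ht
  have e1 : Enc E (pnorm (psub A (pdc r 0))) (p - r / S) := by
    have := enc_sub hA (enc_dc E r 0)
    rw [Nat.cast_zero, sub_zero] at this
    exact enc_norm this
  cases ng
  · exact K.sound e1 hB hC ht
  · exact K.sound e1 (enc_neg hB) hC ht

end Pool.Agent.Strip051.PB.Mol
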