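import Pool.Agent.Strip051.PB.MolG
import Pool.Agent.Strip051.PB.MolR

/-! # The charts: data and reading of the tests (generated) -/

set_option linter.unusedVariables false

namespace Pool.Agent.Strip051.PB.Mol

open Pool.Agent.Strip051.PB Pool.Agent.Strip051.LC.MolN

/-- The chart `0Ap`. -/
noncomputable def k0Ap (M : MolF) (sk cx : List Fn3) : Cht :=
  ⟨sk, g0Ap_c0 M :: g0Ap_c1 M :: cx, [g0Ap_n0 M, g0Ap_n1 M, g0Ap_n2 M], [g0Ap_m0 M, g0Ap_m1 M, g0Ap_m2 M]⟩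

theorem r0Ap {M : MolF} {sk cx : List Fn3} {u b x : ℝ} (K : (k0Ap M sk cx).P u b x)
    (hs : ∀ F ∈ sk, F.v u b x ≤ 0) : (∀ F ∈ cx, 0 < F.v u b x) ∧
    0 < n174 (M.at_ u b x) u b x ∧
    0 < n201 (M.at_ u b x) u b x ∧
    (0 < -(n297 (M.at_ u b x) u b x) ∨ 0 < n221 (M.at_ u b x) u b x ∨ 0 < n302 (M.at_ u b x) u b x) ∧
    (0 < n297 (M.at_ u b x) u b x ∨ 0 < n240 (M.at_ u b x) u b x ∨ 0 < n306 (M.at_ u b x) u b x) := by
  rcases K with ⟨F, hF, h⟩ | ⟨h1, h2, h3⟩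
  · exact absurd h (not_lt.2 (hs F hF))
  · refine ⟨fun F hF => h1 F ?_, ?_, ?_, ?_, ?_⟩
    · show F ∈ g0Ap_c0 M :: g0Ap_c1 M :: cx
      simp only [List.mem_cons, hF, or_true]
    · exact h1 (g0Ap_c0 M) (by show g0Ap_c0 M ∈ g0Ap_c0 M :: g0Ap_c1 M :: cx; simp only [List.mem_cons, true_or, or_true])
    · exact h1 (g0Ap_c1 M) (by show g0Ap_c1 M ∈ g0Ap_c0 M :: g0Ap_c1 M :: cx; simp only [List.mem_cons, true_or, or_true])
    · obtain ⟨F, hF, h⟩ := h2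
      have hF' : F ∈ [g0Ap_n0 M, g0Ap_n1 M, g0Ap_n2 M] := hF
      simp only [List.mem_cons, List.not_mem_nil, or_false] at hF'
      rcases hF' with rfl | rfl | rfl
      · exact Or.inl h
      · exact Or.inr (Or.inl h)
      · exact Or.inr (Or.inr h)
    · obtain ⟨F, hF, h⟩ := h3
      have hF' : F ∈ [g0Ap_m0 M, g0Ap_m1 M, g0Ap_m2 M] := hF
      simp only [List.mem_cons, List.not_mem_nil, or_false] at hF'
      rcases hF' with rfl | rfl | rfl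
      · exact Or.inl h
      · exact Or.inr (Or.inl h)
      · exact Or.inr (Or.inr h)

/-- The chart `0Am`. -/
noncomputable def k0Am (M : MolF) (sk cx : List Fn3) : Cht :=
  ⟨sk, g0Am_c0 M :: g0Am_c1 M :: cx, [g0Am_n0 M, g0Am_n1 M, g0Am_n2 M], [g0Am_m0 M, g0Am_m1 M, g0Am_m2 M]⟩

theorem r0Am {M : MolF} {sk cx : List Fn3} {u b x : ℝ} (K : (k0Am M sk cx).P u b x)
    (hs : ∀ F ∈ sk, F.v u b x ≤ 0) : (∀ F ∈ cx, 0 < F.v u b x) ∧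
    0 < n174 (M.at_ u b x) u b x ∧
    0 < n325 (M.at_ u b x) u b x ∧
    (0 < -(n365 (M.at_ u b x) u b x) ∨ 0 < -(n345 (M.at_ u b x) u b x) ∨ 0 < n369 (M.at_ u b x) u b x) ∧
    (0 < n365 (M.at_ u b x) u b x ∨ 0 < -(n361 (M.at_ u b x) u b x) ∨ 0 < n371 (M.at_ u b x) u b x) := by
  rcases K with ⟨F, hF, h⟩ | ⟨h1, h2, h3⟩
  · exact absurd h (not_lt.2 (hs F hF))
  · refine ⟨fun F hF => h1 F ?_, ?_, ?_, ?_, ?_⟩
    · show F ∈ g0Am_c0 M :: g0Am_c1 M :: cx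
      simp only [List.mem_cons, hF, or_true]
    · exact h1 (g0Am_c0 M) (by show g0Am_c0 M ∈ g0Am_c0 M :: g0Am_c1 M :: cx; simp only [List.mem_cons, true_or, or_true])
    · exact h1 (g0Am_c1 M) (by show g0Am_c1 M ∈ g0Am_c0 M :: g0Am_c1 M :: cx; simp only [List.mem_cons, true_or, or_true])
    · obtain ⟨F, hF, h⟩ := h2
      have hF' : F ∈ [g0Am_n0 M, g0Am_n1 M, g0Am_n2 M] := hF
      simp only [List.mem_cons, List.not_mem_nil, or_false] at hF'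
      rcases hF' with rfl | rfl | rfl
      · exact Or.inl h
      · exact Or.inr (Or.inl h)
      · exact Or.inr (Or.inr h)
    · obtain ⟨F, hF, h⟩ := h3
      have hF' : F ∈ [g0Am_m0 M, g0Am_m1 M, g0Am_m2 M] := hF
      simp only [List.mem_cons, List.not_mem_nil, or_false] at hF'
      rcases hF' with rfl | rfl | rfl
      · exact Or.inl h
      · exact Or.inr (Or.inl h)
      · exact Or.inr (Or.inr h)

/-- The chart `0Bp`. -/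
noncomputable def k0Bp (M : MolF) (sk cx : List Fn3) : Cht :=
  ⟨sk, g0Bp_c0 M :: g0Bp_c1 M :: cx, [g0Bp_n0 M, g0Bp_n1 M, g0Bp_n2 M], [g0Bp_m0 M, g0Bp_m1 M, g0Bp_m2 M]⟩

theorem r0Bp {M : MolF} {sk cx : List Fn3} {u b x : ℝ} (K : (k0Bp M sk cx).P u b x)
    (hs : ∀ F ∈ sk, F.v u b x ≤ 0) : (∀ F ∈ cx, 0 < F.v u b x) ∧
    0 < n462 (M.at_ u b x) u b x ∧
    0 < n486 (M.at_ u b x) u b x ∧
    (0 < -(n531 (M.at_ u b x) u b x) ∨ 0 < n508 (M.at_ u b x) u b x ∨ 0 < n533 (M.at_ u b x) u b x) ∧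
    (0 < n531 (M.at_ u b x) u b x ∨ 0 < n526 (M.at_ u b x) u b x ∨ 0 < n535 (M.at_ u b x) u b x) := by
  rcases K with ⟨F, hF, h⟩ | ⟨h1, h2, h3⟩
  · exact absurd h (not_lt.2 (hs F hF))
  · refine ⟨fun F hF => h1 F ?_, ?_, ?_, ?_, ?_⟩
    · show F ∈ g0Bp_c0 M :: g0Bp_c1 M :: cx
      simp only [List.mem_cons, hF, or_true]
    · exact h1 (g0Bp_c0 M) (by show g0Bp_c0 M ∈ g0Bp_c0 M :: g0Bp_c1 M :: cx; simp only [List.mem_cons, true_or, or_true])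
    · exact h1 (g0Bp_c1 M) (by show g0Bp_c1 M ∈ g0Bp_c0 M :: g0Bp_c1 M :: cx; simp only [List.mem_cons, true_or, or_true])
    · obtain ⟨F, hF, h⟩ := h2
      have hF' : F ∈ [g0Bp_n0 M, g0Bp_n1 M, g0Bp_n2 M] := hF
      simp only [List.mem_cons, List.not_mem_nil, or_false] at hF'
      rcases hF' with rfl | rfl | rfl
      · exact Or.inl h
      · exact Or.inr (Or.inl h)
      · exact Or.inr (Or.inr h)
    · obtain ⟨F, hF, h⟩ := h3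
      have hF' : F ∈ [g0Bp_m0 M, g0Bp_m1 M, g0Bp_m2 M] := hF
      simp only [List.mem_cons, List.not_mem_nil, or_false] at hF'
      rcases hF' with rfl | rfl | rfl
      · exact Or.inl h
      · exact Or.inr (Or.inl h)
      · exact Or.inr (Or.inr h)

/-- The chart `0Bm`. -/
noncomputable def k0Bm (M : MolF) (sk cx : List Fn3) : Cht :=
  ⟨sk, g0Bm_c0 M :: g0Bm_c1 M :: cx, [g0Bm_n0 M, g0Bm_n1 M, g0Bm_n2 M], [g0Bm_m0 M, g0Bm_m1 M, g0Bm_m2 M]⟩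

theorem r0Bm {M : MolF} {sk cx : List Fn3} {u b x : ℝ} (K : (k0Bm M sk cx).P u b x)
    (hs : ∀ F ∈ sk, F.v u b x ≤ 0) : (∀ F ∈ cx, 0 < F.v u b x) ∧
    0 < n462 (M.at_ u b x) u b x ∧
    0 < n548 (M.at_ u b x) u b x ∧
    (0 < -(n590 (M.at_ u b x) u b x) ∨ 0 < -(n570 (M.at_ u b x) u b x) ∨ 0 < n594 (M.at_ u b x) u b x) ∧
    (0 < n590 (M.at_ u b x) u b x ∨ 0 < -(n586 (M.at_ u b x) u b x) ∨ 0 < n596 (M.at_ u b x) u b x) := by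
  rcases K with ⟨F, hF, h⟩ | ⟨h1, h2, h3⟩
  · exact absurd h (not_lt.2 (hs F hF))
  · refine ⟨fun F hF => h1 F ?_, ?_, ?_, ?_, ?_⟩
    · show F ∈ g0Bm_c0 M :: g0Bm_c1 M :: cx
      simp only [List.mem_cons, hF, or_true]
    · exact h1 (g0Bm_c0 M) (by show g0Bm_c0 M ∈ g0Bm_c0 M :: g0Bm_c1 M :: cx; simp only [List.mem_cons, true_or, or_true])
    · exact h1 (g0Bm_c1 M) (by show g0Bm_c1 M ∈ g0Bm_c0 M :: g0Bm_c1 M :: cx; simp only [List.mem_cons, true_or, or_true])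
    · obtain ⟨F, hF, h⟩ := h2
      have hF' : F ∈ [g0Bm_n0 M, g0Bm_n1 M, g0Bm_n2 M] := hF
      simp only [List.mem_cons, List.not_mem_nil, or_false] at hF'
      rcases hF' with rfl | rfl | rfl
      · exact Or.inl h
      · exact Or.inr (Or.inl h)
      · exact Or.inr (Or.inr h)
    · obtain ⟨F, hF, h⟩ := h3
      have hF' : F ∈ [g0Bm_m0 M, g0Bm_m1 M, g0Bm_m2 M] := hF
      simp only [List.mem_cons, List.not_mem_nil, or_false] at hF'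
      rcases hF' with rfl | rfl | rfl
      · exact Or.inl h
      · exact Or.inr (Or.inl h)
      · exact Or.inr (Or.inr h)

/-- The chart `1Ap`. -/
noncomputable def k1Ap (M : MolF) (sk cx : List Fn3) : Cht :=
  ⟨sk, g1Ap_c0 M :: g1Ap_c1 M :: cx, [g1Ap_n0 M, g1Ap_n1 M, g1Ap_n2 M], [g1Ap_m0 M, g1Ap_m1 M, g1Ap_m2 M]⟩

theorem r1Ap {M : MolF} {sk cx : List Fn3} {u b x : ℝ} (K : (k1Ap M sk cx).P u b x)
    (hs : ∀ F ∈ sk, F.v u b x ≤ 0) : (∀ F ∈ cx, 0 < F.v u b x) ∧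
    0 < n752 (M.at_ u b x) u b x ∧
    0 < n779 (M.at_ u b x) u b x ∧
    (0 < -(n866 (M.at_ u b x) u b x) ∨ 0 < n798 (M.at_ u b x) u b x ∨ 0 < n870 (M.at_ u b x) u b x) ∧
    (0 < n866 (M.at_ u b x) u b x ∨ 0 < n817 (M.at_ u b x) u b x ∨ 0 < n874 (M.at_ u b x) u b x) := by
  rcases K with ⟨F, hF, h⟩ | ⟨h1, h2, h3⟩
  · exact absurd h (not_lt.2 (hs F hF))
  · refine ⟨fun F hF => h1 F ?_, ?_, ?_, ?_, ?_⟩
    · show F ∈ g1Ap_c0 M :: g1Ap_c1 M :: cx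
      simp only [List.mem_cons, hF, or_true]
    · exact h1 (g1Ap_c0 M) (by show g1Ap_c0 M ∈ g1Ap_c0 M :: g1Ap_c1 M :: cx; simp only [List.mem_cons, true_or, or_true])
    · exact h1 (g1Ap_c1 M) (by show g1Ap_c1 M ∈ g1Ap_c0 M :: g1Ap_c1 M :: cx; simp only [List.mem_cons, true_or, or_true])
    · obtain ⟨F, hF, h⟩ := h2
      have hF' : F ∈ [g1Ap_n0 M, g1Ap_n1 M, g1Ap_n2 M] := hF
      simp only [List.mem_cons, List.not_mem_nil, or_false] at hF'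
      rcases hF' with rfl | rfl | rfl
      · exact Or.inl h
      · exact Or.inr (Or.inl h)
      · exact Or.inr (Or.inr h)
    · obtain ⟨F, hF, h⟩ := h3
      have hF' : F ∈ [g1Ap_m0 M, g1Ap_m1 M, g1Ap_m2 M] := hF
      simp only [List.mem_cons, List.not_mem_nil, or_false] at hF'
      rcases hF' with rfl | rfl | rfl
      · exact Or.inl h
      · exact Or.inr (Or.inl h)
      · exact Or.inr (Or.inr h)

/-- The chart `1Am`. -/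
noncomputable def k1Am (M : MolF) (sk cx : List Fn3) : Cht :=
  ⟨sk, g1Am_c0 M :: g1Am_c1 M :: cx, [g1Am_n0 M, g1Am_n1 M, g1Am_n2 M], [g1Am_m0 M, g1Am_m1 M, g1Am_m2 M]⟩

theorem r1Am {M : MolF} {sk cx : List Fn3} {u b x : ℝ} (K : (k1Am M sk cx).P u b x)
    (hs : ∀ F ∈ sk, F.v u b x ≤ 0) : (∀ F ∈ cx, 0 < F.v u b x) ∧
    0 < n752 (M.at_ u b x) u b x ∧
    0 < n893 (M.at_ u b x) u b x ∧
    (0 < -(n933 (M.at_ u b x) u b x) ∨ 0 < -(n913 (M.at_ u b x) u b x) ∨ 0 < n937 (M.at_ u b x) u b x) ∧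
    (0 < n933 (M.at_ u b x) u b x ∨ 0 < -(n929 (M.at_ u b x) u b x) ∨ 0 < n939 (M.at_ u b x) u b x) := by
  rcases K with ⟨F, hF, h⟩ | ⟨h1, h2, h3⟩
  · exact absurd h (not_lt.2 (hs F hF))
  · refine ⟨fun F hF => h1 F ?_, ?_, ?_, ?_, ?_⟩
    · show F ∈ g1Am_c0 M :: g1Am_c1 M :: cx
      simp only [List.mem_cons, hF, or_true]
    · exact h1 (g1Am_c0 M) (by show g1Am_c0 M ∈ g1Am_c0 M :: g1Am_c1 M :: cx; simp only [List.mem_cons, true_or, or_true])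
    · exact h1 (g1Am_c1 M) (by show g1Am_c1 M ∈ g1Am_c0 M :: g1Am_c1 M :: cx; simp only [List.mem_cons, true_or, or_true])
    · obtain ⟨F, hF, h⟩ := h2
      have hF' : F ∈ [g1Am_n0 M, g1Am_n1 M, g1Am_n2 M] := hF
      simp only [List.mem_cons, List.not_mem_nil, or_false] at hF'
      rcases hF' with rfl | rfl | rfl
      · exact Or.inl h
      · exact Or.inr (Or.inl h)
      · exact Or.inr (Or.inr h)
    · obtain ⟨F, hF, h⟩ := h3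
      have hF' : F ∈ [g1Am_m0 M, g1Am_m1 M, g1Am_m2 M] := hF
      simp only [List.mem_cons, List.not_mem_nil, or_false] at hF'
      rcases hF' with rfl | rfl | rfl
      · exact Or.inl h
      · exact Or.inr (Or.inl h)
      · exact Or.inr (Or.inr h)

/-- The chart `1Bp`. -/
noncomputable def k1Bp (M : MolF) (sk cx : List Fn3) : Cht :=
  ⟨sk, g1Bp_c0 M :: g1Bp_c1 M :: cx, [g1Bp_n0 M, g1Bp_n1 M, g1Bp_n2 M], [g1Bp_m0 M, g1Bp_m1 M, g1Bp_m2 M]⟩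

theorem r1Bp {M : MolF} {sk cx : List Fn3} {u b x : ℝ} (K : (k1Bp M sk cx).P u b x)
    (hs : ∀ F ∈ sk, F.v u b x ≤ 0) : (∀ F ∈ cx, 0 < F.v u b x) ∧
    0 < n1047 (M.at_ u b x) u b x ∧
    0 < n1070 (M.at_ u b x) u b x ∧
    (0 < -(n1115 (M.at_ u b x) u b x) ∨ 0 < n1092 (M.at_ u b x) u b x ∨ 0 < n1117 (M.at_ u b x) u b x) ∧
    (0 < n1115 (M.at_ u b x) u b x ∨ 0 < n1110 (M.at_ u b x) u b x ∨ 0 < n1119 (M.at_ u b x) u b x) := by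
  rcases K with ⟨F, hF, h⟩ | ⟨h1, h2, h3⟩
  · exact absurd h (not_lt.2 (hs F hF))
  · refine ⟨fun F hF => h1 F ?_, ?_, ?_, ?_, ?_⟩
    · show F ∈ g1Bp_c0 M :: g1Bp_c1 M :: cx
      simp only [List.mem_cons, hF, or_true]
    · exact h1 (g1Bp_c0 M) (by show g1Bp_c0 M ∈ g1Bp_c0 M :: g1Bp_c1 M :: cx; simp only [List.mem_cons, true_or, or_true])
    · exact h1 (g1Bp_c1 M) (by show g1Bp_c1 M ∈ g1Bp_c0 M :: g1Bp_c1 M :: cx; simp only [List.mem_cons, true_or, or_true])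
    · obtain ⟨F, hF, h⟩ := h2
      have hF' : F ∈ [g1Bp_n0 M, g1Bp_n1 M, g1Bp_n2 M] := hF
      simp only [List.mem_cons, List.not_mem_nil, or_false] at hF'
      rcases hF' with rfl | rfl | rfl
      · exact Or.inl h
      · exact Or.inr (Or.inl h)
      · exact Or.inr (Or.inr h)
    · obtain ⟨F, hF, h⟩ := h3
      have hF' : F ∈ [g1Bp_m0 M, g1Bp_m1 M, g1Bp_m2 M] := hF
      simp only [List.mem_cons, List.not_mem_nil, or_false] at hF'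
      rcases hF' with rfl | rfl | rfl
      · exact Or.inl h
      · exact Or.inr (Or.inl h)
      · exact Or.inr (Or.inr h)

/-- The chart `1Bm`. -/
noncomputable def k1Bm (M : MolF) (sk cx : List Fn3) : Cht :=
  ⟨sk, g1Bm_c0 M :: g1Bm_c1 M :: cx, [g1Bm_n0 M, g1Bm_n1 M, g1Bm_n2 M], [g1Bm_m0 M, g1Bm_m1 M, g1Bm_m2 M]⟩

theorem r1Bm {M : MolF} {sk cx : List Fn3} {u b x : ℝ} (K : (k1Bm M sk cx).P u b x)
    (hs : ∀ F ∈ sk, F.v u b x ≤ 0) : (∀ F ∈ cx, 0 < F.v u b x) ∧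
    0 < n1047 (M.at_ u b x) u b x ∧
    0 < n1134 (M.at_ u b x) u b x ∧
    (0 < -(n1176 (M.at_ u b x) u b x) ∨ 0 < -(n1156 (M.at_ u b x) u b x) ∨ 0 < n1180 (M.at_ u b x) u b x) ∧
    (0 < n1176 (M.at_ u b x) u b x ∨ 0 < -(n1172 (M.at_ u b x) u b x) ∨ 0 < n1182 (M.at_ u b x) u b x) := by
  rcases K with ⟨F, hF, h⟩ | ⟨h1, h2, h3⟩
  · exact absurd h (not_lt.2 (hs F hF))
  · refine ⟨fun F hF => h1 F ?_, ?_, ?_, ?_, ?_⟩
    · show F ∈ g1Bm_c0 M :: g1Bm_c1 M :: cx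
      simp only [List.mem_cons, hF, or_true]
    · exact h1 (g1Bm_c0 M) (by show g1Bm_c0 M ∈ g1Bm_c0 M :: g1Bm_c1 M :: cx; simp only [List.mem_cons, true_or, or_true])
    · exact h1 (g1Bm_c1 M) (by show g1Bm_c1 M ∈ g1Bm_c0 M :: g1Bm_c1 M :: cx; simp only [List.mem_cons, true_or, or_true])
    · obtain ⟨F, hF, h⟩ := h2
      have hF' : F ∈ [g1Bm_n0 M, g1Bm_n1 M, g1Bm_n2 M] := hF
      simp only [List.mem_cons, List.not_mem_nil, or_false] at hF'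
      rcases hF' with rfl | rfl | rfl
      · exact Or.inl h
      · exact Or.inr (Or.inl h)
      · exact Or.inr (Or.inr h)
    · obtain ⟨F, hF, h⟩ := h3
      have hF' : F ∈ [g1Bm_m0 M, g1Bm_m1 M, g1Bm_m2 M] := hF
      simp only [List.mem_cons, List.not_mem_nil, or_false] at hF'
      rcases hF' with rfl | rfl | rfl
      · exact Or.inl h
      · exact Or.inr (Or.inl h)
      · exact Or.inr (Or.inr h)

/-- The chart `2Ap`. -/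
noncomputable def k2Ap (M : MolF) (sk cx : List Fn3) : Cht :=
  ⟨sk, g2Ap_c0 M :: g2Ap_c1 M :: g2Ap_c2 M :: g2Ap_c3 M :: g2Ap_c4 M :: g2Ap_c5 M :: cx, [g2Ap_n0 M, g2Ap_n1 M, g2Ap_n2 M], [g2Ap_m0 M, g2Ap_m1 M, g2Ap_m2 M]⟩

theorem r2Ap {M : MolF} {sk cx : List Fn3} {u b x : ℝ} (K : (k2Ap M sk cx).P u b x)
    (hs : ∀ F ∈ sk, F.v u b x ≤ 0) : (∀ F ∈ cx, 0 < F.v u b x) ∧
    0 < n1219 (M.at_ u b x) u b x ∧
    0 < n1241 (M.at_ u b x) u b x ∧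
    0 < n1281 (M.at_ u b x) u b x ∧
    0 < n1283 (M.at_ u b x) u b x ∧
    0 < n1187 (M.at_ u b x) u b x ∧
    0 < n1215 (M.at_ u b x) u b x ∧
    (0 < -(n1288 (M.at_ u b x) u b x) ∨ 0 < n1260 (M.at_ u b x) u b x ∨ 0 < n1292 (M.at_ u b x) u b x) ∧
    (0 < n1288 (M.at_ u b x) u b x ∨ 0 < n1279 (M.at_ u b x) u b x ∨ 0 < n1296 (M.at_ u b x) u b x) := by
  rcases K with ⟨F, hF, h⟩ | ⟨h1, h2, h3⟩
  · exact absurd h (not_lt.2 (hs F hF))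
  · refine ⟨fun F hF => h1 F ?_, ?_, ?_, ?_, ?_, ?_, ?_, ?_, ?_⟩
    · show F ∈ g2Ap_c0 M :: g2Ap_c1 M :: g2Ap_c2 M :: g2Ap_c3 M :: g2Ap_c4 M :: g2Ap_c5 M :: cx
      simp only [List.mem_cons, hF, or_true]
    · exact h1 (g2Ap_c0 M) (by show g2Ap_c0 M ∈ g2Ap_c0 M :: g2Ap_c1 M :: g2Ap_c2 M :: g2Ap_c3 M :: g2Ap_c4 M :: g2Ap_c5 M :: cx; simp only [List.mem_cons, true_or, or_true])
    · exact h1 (g2Ap_c1 M) (by show g2Ap_c1 M ∈ g2Ap_c0 M :: g2Ap_c1 M :: g2Ap_c2 M :: g2Ap_c3 M :: g2Ap_c4 M :: g2Ap_c5 M :: cx; simp only [List.mem_cons, true_or, or_true])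
    · exact h1 (g2Ap_c2 M) (by show g2Ap_c2 M ∈ g2Ap_c0 M :: g2Ap_c1 M :: g2Ap_c2 M :: g2Ap_c3 M :: g2Ap_c4 M :: g2Ap_c5 M :: cx; simp only [List.mem_cons, true_or, or_true])
    · exact h1 (g2Ap_c3 M) (by show g2Ap_c3 M ∈ g2Ap_c0 M :: g2Ap_c1 M :: g2Ap_c2 M :: g2Ap_c3 M :: g2Ap_c4 M :: g2Ap_c5 M :: cx; simp only [List.mem_cons, true_or, or_true])
    · exact h1 (g2Ap_c4 M) (by show g2Ap_c4 M ∈ g2Ap_c0 M :: g2Ap_c1 M :: g2Ap_c2 M :: g2Ap_c3 M :: g2Ap_c4 M :: g2Ap_c5 M :: cx; simp only [List.mem_cons, true_or, or_true])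
    · exact h1 (g2Ap_c5 M) (by show g2Ap_c5 M ∈ g2Ap_c0 M :: g2Ap_c1 M :: g2Ap_c2 M :: g2Ap_c3 M :: g2Ap_c4 M :: g2Ap_c5 M :: cx; simp only [List.mem_cons, true_or, or_true])
    · obtain ⟨F, hF, h⟩ := h2
      have hF' : F ∈ [g2Ap_n0 M, g2Ap_n1 M, g2Ap_n2 M] := hF
      simp only [List.mem_cons, List.not_mem_nil, or_false] at hF'
      rcases hF' with rfl | rfl | rfl
      · exact Or.inl h
      · exact Or.inr (Or.inl h)
      · exact Or.inr (Or.inr h)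
    · obtain ⟨F, hF, h⟩ := h3
      have hF' : F ∈ [g2Ap_m0 M, g2Ap_m1 M, g2Ap_m2 M] := hF
      simp only [List.mem_cons, List.not_mem_nil, or_false] at hF'
      rcases hF' with rfl | rfl | rfl
      · exact Or.inl h
      · exact Or.inr (Or.inl h)
      · exact Or.inr (Or.inr h)

/-- The chart `2Am`. -/
noncomputable def k2Am (M : MolF) (sk cx : List Fn3) : Cht :=
  ⟨sk, g2Am_c0 M :: g2Am_c1 M :: g2Am_c2 M :: g2Am_c3 M :: g2Am_c4 M :: g2Am_c5 M :: cx, [g2Am_n0 M, g2Am_n1 M, g2Am_n2 M], [g2Am_m0 M, g2Am_m1 M, g2Am_m2 M]⟩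

theorem r2Am {M : MolF} {sk cx : List Fn3} {u b x : ℝ} (K : (k2Am M sk cx).P u b x)
    (hs : ∀ F ∈ sk, F.v u b x ≤ 0) : (∀ F ∈ cx, 0 < F.v u b x) ∧
    0 < n1307 (M.at_ u b x) u b x ∧
    0 < n1326 (M.at_ u b x) u b x ∧
    0 < n1281 (M.at_ u b x) u b x ∧
    0 < n1283 (M.at_ u b x) u b x ∧
    0 < n1187 (M.at_ u b x) u b x ∧
    0 < n1215 (M.at_ u b x) u b x ∧
    (0 < -(n1367 (M.at_ u b x) u b x) ∨ 0 < -(n1346 (M.at_ u b x) u b x) ∨ 0 < n1371 (M.at_ u b x) u b x) ∧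
    (0 < n1367 (M.at_ u b x) u b x ∨ 0 < -(n1362 (M.at_ u b x) u b x) ∨ 0 < n1373 (M.at_ u b x) u b x) := by
  rcases K with ⟨F, hF, h⟩ | ⟨h1, h2, h3⟩
  · exact absurd h (not_lt.2 (hs F hF))
  · refine ⟨fun F hF => h1 F ?_, ?_, ?_, ?_, ?_, ?_, ?_, ?_, ?_⟩
    · show F ∈ g2Am_c0 M :: g2Am_c1 M :: g2Am_c2 M :: g2Am_c3 M :: g2Am_c4 M :: g2Am_c5 M :: cx
      simp only [List.mem_cons, hF, or_true]
    · exact h1 (g2Am_c0 M) (by show g2Am_c0 M ∈ g2Am_c0 M :: g2Am_c1 M :: g2Am_c2 M :: g2Am_c3 M :: g2Am_c4 M :: g2Am_c5 M :: cx; simp only [List.mem_cons, true_or, or_true])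
    · exact h1 (g2Am_c1 M) (by show g2Am_c1 M ∈ g2Am_c0 M :: g2Am_c1 M :: g2Am_c2 M :: g2Am_c3 M :: g2Am_c4 M :: g2Am_c5 M :: cx; simp only [List.mem_cons, true_or, or_true])
    · exact h1 (g2Am_c2 M) (by show g2Am_c2 M ∈ g2Am_c0 M :: g2Am_c1 M :: g2Am_c2 M :: g2Am_c3 M :: g2Am_c4 M :: g2Am_c5 M :: cx; simp only [List.mem_cons, true_or, or_true])
    · exact h1 (g2Am_c3 M) (by show g2Am_c3 M ∈ g2Am_c0 M :: g2Am_c1 M :: g2Am_c2 M :: g2Am_c3 M :: g2Am_c4 M :: g2Am_c5 M :: cx; simp only [List.mem_cons, true_or, or_true])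
    · exact h1 (g2Am_c4 M) (by show g2Am_c4 M ∈ g2Am_c0 M :: g2Am_c1 M :: g2Am_c2 M :: g2Am_c3 M :: g2Am_c4 M :: g2Am_c5 M :: cx; simp only [List.mem_cons, true_or, or_true])
    · exact h1 (g2Am_c5 M) (by show g2Am_c5 M ∈ g2Am_c0 M :: g2Am_c1 M :: g2Am_c2 M :: g2Am_c3 M :: g2Am_c4 M :: g2Am_c5 M :: cx; simp only [List.mem_cons, true_or, or_true])
    · obtain ⟨F, hF, h⟩ := h2
      have hF' : F ∈ [g2Am_n0 M, g2Am_n1 M, g2Am_n2 M] := hF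
      simp only [List.mem_cons, List.not_mem_nil, or_false] at hF'
      rcases hF' with rfl | rfl | rfl
      · exact Or.inl h
      · exact Or.inr (Or.inl h)
      · exact Or.inr (Or.inr h)
    · obtain ⟨F, hF, h⟩ := h3
      have hF' : F ∈ [g2Am_m0 M, g2Am_m1 M, g2Am_m2 M] := hF
      simp only [List.mem_cons, List.not_mem_nil, or_false] at hF'
      rcases hF' with rfl | rfl | rfl
      · exact Or.inl h
      · exact Or.inr (Or.inl h)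
      · exact Or.inr (Or.inr h)

/-- The chart `2Bp`. -/
noncomputable def k2Bp (M : MolF) (sk cx : List Fn3) : Cht :=
  ⟨sk, g2Bp_c0 M :: g2Bp_c1 M :: g2Bp_c2 M :: g2Bp_c3 M :: g2Bp_c4 M :: g2Bp_c5 M :: cx, [g2Bp_n0 M, g2Bp_n1 M, g2Bp_n2 M], [g2Bp_m0 M, g2Bp_m1 M, g2Bp_m2 M]⟩

theorem r2Bp {M : MolF} {sk cx : List Fn3} {u b x : ℝ} (K : (k2Bp M sk cx).P u b x)
    (hs : ∀ F ∈ sk, F.v u b x ≤ 0) : (∀ F ∈ cx, 0 < F.v u b x) ∧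
    0 < n1394 (M.at_ u b x) u b x ∧
    0 < n1414 (M.at_ u b x) u b x ∧
    0 < n1281 (M.at_ u b x) u b x ∧
    0 < n1283 (M.at_ u b x) u b x ∧
    0 < n1375 (M.at_ u b x) u b x ∧
    0 < n1215 (M.at_ u b x) u b x ∧
    (0 < -(n1459 (M.at_ u b x) u b x) ∨ 0 < n1436 (M.at_ u b x) u b x ∨ 0 < n1461 (M.at_ u b x) u b x) ∧
    (0 < n1459 (M.at_ u b x) u b x ∨ 0 < n1454 (M.at_ u b x) u b x ∨ 0 < n1463 (M.at_ u b x) u b x) := by
  rcases K with ⟨F, hF, h⟩ | ⟨h1, h2, h3⟩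
  · exact absurd h (not_lt.2 (hs F hF))
  · refine ⟨fun F hF => h1 F ?_, ?_, ?_, ?_, ?_, ?_, ?_, ?_, ?_⟩
    · show F ∈ g2Bp_c0 M :: g2Bp_c1 M :: g2Bp_c2 M :: g2Bp_c3 M :: g2Bp_c4 M :: g2Bp_c5 M :: cx
      simp only [List.mem_cons, hF, or_true]
    · exact h1 (g2Bp_c0 M) (by show g2Bp_c0 M ∈ g2Bp_c0 M :: g2Bp_c1 M :: g2Bp_c2 M :: g2Bp_c3 M :: g2Bp_c4 M :: g2Bp_c5 M :: cx; simp only [List.mem_cons, true_or, or_true])
    · exact h1 (g2Bp_c1 M) (by show g2Bp_c1 M ∈ g2Bp_c0 M :: g2Bp_c1 M :: g2Bp_c2 M :: g2Bp_c3 M :: g2Bp_c4 M :: g2Bp_c5 M :: cx; simp only [List.mem_cons, true_or, or_true])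
    · exact h1 (g2Bp_c2 M) (by show g2Bp_c2 M ∈ g2Bp_c0 M :: g2Bp_c1 M :: g2Bp_c2 M :: g2Bp_c3 M :: g2Bp_c4 M :: g2Bp_c5 M :: cx; simp only [List.mem_cons, true_or, or_true])
    · exact h1 (g2Bp_c3 M) (by show g2Bp_c3 M ∈ g2Bp_c0 M :: g2Bp_c1 M :: g2Bp_c2 M :: g2Bp_c3 M :: g2Bp_c4 M :: g2Bp_c5 M :: cx; simp only [List.mem_cons, true_or, or_true])
    · exact h1 (g2Bp_c4 M) (by show g2Bp_c4 M ∈ g2Bp_c0 M :: g2Bp_c1 M :: g2Bp_c2 M :: g2Bp_c3 M :: g2Bp_c4 M :: g2Bp_c5 M :: cx; simp only [List.mem_cons, true_or, or_true])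
    · exact h1 (g2Bp_c5 M) (by show g2Bp_c5 M ∈ g2Bp_c0 M :: g2Bp_c1 M :: g2Bp_c2 M :: g2Bp_c3 M :: g2Bp_c4 M :: g2Bp_c5 M :: cx; simp only [List.mem_cons, true_or, or_true])
    · obtain ⟨F, hF, h⟩ := h2
      have hF' : F ∈ [g2Bp_n0 M, g2Bp_n1 M, g2Bp_n2 M] := hF
      simp only [List.mem_cons, List.not_mem_nil, or_false] at hF'
      rcases hF' with rfl | rfl | rfl
      · exact Or.inl h
      · exact Or.inr (Or.inl h)
      · exact Or.inr (Or.inr h)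
    · obtain ⟨F, hF, h⟩ := h3
      have hF' : F ∈ [g2Bp_m0 M, g2Bp_m1 M, g2Bp_m2 M] := hF
      simp only [List.mem_cons, List.not_mem_nil, or_false] at hF'
      rcases hF' with rfl | rfl | rfl
      · exact Or.inl h
      · exact Or.inr (Or.inl h)
      · exact Or.inr (Or.inr h)

/-- The chart `2Bm`. -/
noncomputable def k2Bm (M : MolF) (sk cx : List Fn3) : Cht :=
  ⟨sk, g2Bm_c0 M :: g2Bm_c1 M :: g2Bm_c2 M :: g2Bm_c3 M :: g2Bm_c4 M :: g2Bm_c5 M :: cx, [g2Bm_n0 M, g2Bm_n1 M, g2Bm_n2 M], [g2Bm_m0 M, g2Bm_m1 M, g2Bm_m2 M]⟩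

theorem r2Bm {M : MolF} {sk cx : List Fn3} {u b x : ℝ} (K : (k2Bm M sk cx).P u b x)
    (hs : ∀ F ∈ sk, F.v u b x ≤ 0) : (∀ F ∈ cx, 0 < F.v u b x) ∧
    0 < n1474 (M.at_ u b x) u b x ∧
    0 < n1491 (M.at_ u b x) u b x ∧
    0 < n1281 (M.at_ u b x) u b x ∧
    0 < n1283 (M.at_ u b x) u b x ∧
    0 < n1375 (M.at_ u b x) u b x ∧
    0 < n1215 (M.at_ u b x) u b x ∧
    (0 < -(n1534 (M.at_ u b x) u b x) ∨ 0 < -(n1513 (M.at_ u b x) u b x) ∨ 0 < n1538 (M.at_ u b x) u b x) ∧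
    (0 < n1534 (M.at_ u b x) u b x ∨ 0 < -(n1529 (M.at_ u b x) u b x) ∨ 0 < n1540 (M.at_ u b x) u b x) := by
  rcases K with ⟨F, hF, h⟩ | ⟨h1, h2, h3⟩
  · exact absurd h (not_lt.2 (hs F hF))
  · refine ⟨fun F hF => h1 F ?_, ?_, ?_, ?_, ?_, ?_, ?_, ?_, ?_⟩
    · show F ∈ g2Bm_c0 M :: g2Bm_c1 M :: g2Bm_c2 M :: g2Bm_c3 M :: g2Bm_c4 M :: g2Bm_c5 M :: cx
      simp only [List.mem_cons, hF, or_true]
    · exact h1 (g2Bm_c0 M) (by show g2Bm_c0 M ∈ g2Bm_c0 M :: g2Bm_c1 M :: g2Bm_c2 M :: g2Bm_c3 M :: g2Bm_c4 M :: g2Bm_c5 M :: cx; simp only [List.mem_cons, true_or, or_true])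
    · exact h1 (g2Bm_c1 M) (by show g2Bm_c1 M ∈ g2Bm_c0 M :: g2Bm_c1 M :: g2Bm_c2 M :: g2Bm_c3 M :: g2Bm_c4 M :: g2Bm_c5 M :: cx; simp only [List.mem_cons, true_or, or_true])
    · exact h1 (g2Bm_c2 M) (by show g2Bm_c2 M ∈ g2Bm_c0 M :: g2Bm_c1 M :: g2Bm_c2 M :: g2Bm_c3 M :: g2Bm_c4 M :: g2Bm_c5 M :: cx; simp only [List.mem_cons, true_or, or_true])
    · exact h1 (g2Bm_c3 M) (by show g2Bm_c3 M ∈ g2Bm_c0 M :: g2Bm_c1 M :: g2Bm_c2 M :: g2Bm_c3 M :: g2Bm_c4 M :: g2Bm_c5 M :: cx; simp only [List.mem_cons, true_or, or_true])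
    · exact h1 (g2Bm_c4 M) (by show g2Bm_c4 M ∈ g2Bm_c0 M :: g2Bm_c1 M :: g2Bm_c2 M :: g2Bm_c3 M :: g2Bm_c4 M :: g2Bm_c5 M :: cx; simp only [List.mem_cons, true_or, or_true])
    · exact h1 (g2Bm_c5 M) (by show g2Bm_c5 M ∈ g2Bm_c0 M :: g2Bm_c1 M :: g2Bm_c2 M :: g2Bm_c3 M :: g2Bm_c4 M :: g2Bm_c5 M :: cx; simp only [List.mem_cons, true_or, or_true])
    · obtain ⟨F, hF, h⟩ := h2
      have hF' : F ∈ [g2Bm_n0 M, g2Bm_n1 M, g2Bm_n2 M] := hF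
      simp only [List.mem_cons, List.not_mem_nil, or_false] at hF'
      rcases hF' with rfl | rfl | rfl
      · exact Or.inl h
      · exact Or.inr (Or.inl h)
      · exact Or.inr (Or.inr h)
    · obtain ⟨F, hF, h⟩ := h3
      have hF' : F ∈ [g2Bm_m0 M, g2Bm_m1 M, g2Bm_m2 M] := hF
      simp only [List.mem_cons, List.not_mem_nil, or_false] at hF'
      rcases hF' with rfl | rfl | rfl
      · exact Or.inl h
      · exact Or.inr (Or.inl h)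
      · exact Or.inr (Or.inr h)

end Pool.Agent.Strip051.PB.Mol
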