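import Pool.Agent.Strip051.LC.Exact.MolN4
import Pool.Agent.Strip051.PB.Rows

/-! # The tight triangles: the values of the charts in closed form (generated) -/

set_option linter.unusedVariables false

namespace Pool.Agent.Strip051.PB.Mol

open Pool.Agent.StripNear Pool.Agent.StripSquare Pool.Agent.Strip051.Sweep
open Pool.Agent.Strip051.LC Pool.Agent.Strip051.LC.MolN
open Pool.Agent.Strip051.LC.Line (tau)

/-- the logarithmic derivative of the excess, in units of `h0` -/
noncomputable def cG (y : ℝ) : ℝ := (1 / 2 - 3 / 4 * (y / c1n y)) / (y / 2 + c1n y - 1)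

/-- the level of a tight edge: `d` is the correction of the kernel -/
noncomputable def cQ (x y d : ℝ) : ℝ :=
  (1 - c1n y) * (2 * c1n y - 1) - 2 * ((y / 2 + c1n y - 1) * d) * (y - x)

/-- the quotient `q / e` in closed form -/
noncomputable def cR (y : ℝ) : ℝ := 3 / 4 * y + 3 / 2 * (1 - c1n y)

/-- the derivative of `cR`, in units of `h0` -/
noncomputable def cD (y : ℝ) : ℝ := 9 / 8 * (y / c1n y) + 3 / 4

/-- the second kernel of a tight edge without its correction -/
noncomputable def cP (y : ℝ) : ℝ := c1n y * cD y + cR y * (3 / 4 * (y / c1n y) + 1 / 2)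

theorem y_eq (T : MolP) {u b x : ℝ} : n3 T u b x = x + u := by
  simp only [n3]
  all_goals ring

theorem ypA_eq (T : MolP) {u b x : ℝ} : n30 T u b x = x + u + b := by
  simp only [n30, n3]
  all_goals ring

theorem ypB_eq (T : MolP) {u b x : ℝ} : n372 T u b x = x + u - b := by
  simp only [n372, n3]
  all_goals ring

theorem cx_eq (T : MolP) {u b x : ℝ} : n8 T u b x = c1n x := by
  simp only [n8]
  unfold c1n
  all_goals ring_nf

theorem cy_eq (T : MolP) {u b x : ℝ} : n12 T u b x = c1n (x + u) := by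
  simp only [n12, n3]
  unfold c1n
  all_goals ring_nf

theorem cpA_eq (T : MolP) {u b x : ℝ} : n34 T u b x = c1n (x + u + b) := by
  simp only [n34, n30, n3]
  unfold c1n
  all_goals ring_nf

theorem cpB_eq (T : MolP) {u b x : ℝ} : n376 T u b x = c1n (x + u - b) := by
  simp only [n376, n372, n3]
  unfold c1n
  all_goals ring_nf

theorem e_eq (T : MolP) {u b x : ℝ} :
    n15 T u b x = x / 2 + c1n x - 1 := by
  simp only [n15, y_eq, cx_eq, cy_eq, cpA_eq, ypA_eq]
  all_goals ring

theorem K1_eqA (T : MolP) {u b x : ℝ} :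
    n100 T u b x = c1n (x + u) * cG (x + u) + T.dy + b * T.q1 := by
  simp only [n100, n95, n74, n73, n69, n64, n60, n52, n51, y_eq, cx_eq, cy_eq, cpA_eq, ypA_eq]
  unfold cG
  all_goals ring

theorem KW_eqA (T : MolP) {u b x : ℝ} :
    n94 T u b x = (c1n (x + u + b) - 1 / 2) * cG (x + u + b) + (T.dy + b * T.d1) := by
  simp only [n94, n90, n84, n80, n78, n72, n71, n65, n62, n57, n50, y_eq, cx_eq, cy_eq, cpA_eq, ypA_eq]
  unfold cG
  all_goals ring

theorem QW_eqA (T : MolP) {u b x : ℝ} :
    n131 T u b x = cQ x (x + u + b) (T.dy + b * T.d1) := by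
  simp only [n131, n125, n121, n116, n115, n109, n103, n84, n65, n62, y_eq, cx_eq, cy_eq, cpA_eq, ypA_eq]
  unfold cQ
  all_goals ring

theorem Q12_eqA (T : MolP) {u b x : ℝ} :
    n129 T u b x = cQ x (x + u) T.dy := by
  simp only [n129, n122, n117, n110, n108, n102, n64, n60, y_eq, cx_eq, cy_eq, cpA_eq, ypA_eq]
  unfold cQ
  all_goals ring

theorem mu_eqA (T : MolP) {u b x : ℝ} :
    n599 T u b x = mun 3 x := by
  simp only [n599, y_eq, cx_eq, cy_eq, cpA_eq, ypA_eq]
  unfold mun
  all_goals ring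

theorem fac_eqA (T : MolP) {u b x : ℝ} :
    n662 T u b x = 1 + mun 3 x * cR x := by
  simp only [n662, n660, n599, y_eq, cx_eq, cy_eq, cpA_eq, ypA_eq]
  unfold cR mun
  all_goals ring

theorem Kp1_eqA (T : MolP) {u b x : ℝ} :
    n716 T u b x = cP (x + u) - (cR (x + u) + 2 * c1n (x + u)) * T.dy + b * T.m1 := by
  simp only [n716, n703, n699, n690, n685, n683, n677, n675, n669, n102, n52, n51, y_eq, cx_eq, cy_eq, cpA_eq, ypA_eq]
  unfold cP cR cD
  all_goals ring

theorem KpW_eqA (T : MolP) {u b x : ℝ} :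
    n713 T u b x = cP (x + u + b) - 1 / 2 * cD (x + u + b) - (cR (x + u + b) + 2 * c1n (x + u + b) - 1) * (T.dy + b * T.d1) := by
  simp only [n713, n710, n705, n701, n698, n692, n689, n684, n682, n676, n671, n103, n84, n57, n50, y_eq, cx_eq, cy_eq, cpA_eq, ypA_eq]
  unfold cP cR cD
  all_goals ring

theorem KW_eqB (T : MolP) {u b x : ℝ} :
    n411 T u b x = (c1n (x + u - b) + 1 / 2) * cG (x + u - b) + (T.dy + b * T.d1) := by
  simp only [n411, n408, n403, n401, n397, n396, n392, n391, n387, n383, n84, y_eq, cx_eq, cy_eq, cpB_eq, ypB_eq]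
  unfold cG
  all_goals ring

theorem QW_eqB (T : MolP) {u b x : ℝ} :
    n436 T u b x = cQ x (x + u - b) (T.dy + b * T.d1) := by
  simp only [n436, n432, n428, n425, n424, n419, n416, n392, n391, n84, y_eq, cx_eq, cy_eq, cpB_eq, ypB_eq]
  unfold cQ
  all_goals ring

theorem KpW_eqB (T : MolP) {u b x : ℝ} :
    n1028 T u b x = cP (x + u - b) + 1 / 2 * cD (x + u - b) - (cR (x + u - b) + 2 * c1n (x + u - b) + 1) * (T.dy + b * T.d1) := by
  simp only [n1028, n1025, n1020, n1018, n1016, n1011, n1009, n1005, n1004, n1000, n997, n416, n387, n383, n84, y_eq, cx_eq, cy_eq, cpB_eq, ypB_eq]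
  unfold cP cR cD
  all_goals ring

end Pool.Agent.Strip051.PB.Mol
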