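import Pool.Agent.Strip051.PB.MolY

/-! # The tight charts: piecewise linear functions of a table -/

namespace Pool.Agent.Strip051.PB.Mol

open Pool.Agent.StripNear Pool.Agent.StripSquare Pool.Agent.Strip051.Sweep
open Pool.Agent.Strip051.LC Pool.Agent.Strip051.LC.MolN

attribute [local irreducible] padd psub pneg pmul psq pinv psqrt psqrtg pabs pps pmax pmin pphi plam
  pcase phf pnat prat pscale pnorm pdc pnc pone ppos pnn Enc pzero

/-- a signed rational -/
noncomputable def sgv (s : Bool) (p q : ℕ) : ℝ := cond s (-((p : ℝ) / q)) ((p : ℝ) / q)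

noncomputable def sgt' (s : Bool) (p q : ℕ) : ℕ :=
  Bool.rec (motive := fun _ => ℕ) (prat p q) (pneg (prat p q)) s

theorem enc_sgt' (E : Pt) (s : Bool) (p q : ℕ) : Enc E (sgt' s p q) (sgv s p q) := by
  cases s
  · exact enc_rat E p q
  · exact enc_neg (enc_rat E p q)

/-- a multiple of a form by a signed rational -/
noncomputable def sgm (s : Bool) (p q : ℕ) (X : ℕ) : ℕ :=
  Bool.rec (motive := fun _ => ℕ) (pscale p q X) (pneg (pscale p q X)) s

theorem enc_sgm {E : Pt} (s : Bool) (p q : ℕ) {X : ℕ} {v : ℝ} (h : Enc E X v) :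
    Enc E (sgm s p q X) (sgv s p q * v) := by
  cases s
  · exact enc_scale p q h
  · exact encc (enc_neg (enc_scale p q h)) (by simp only [sgv, cond_true]; ring)

/-- a constant -/
noncomputable def cnF (s : Bool) (p q : ℕ) : Fn1 where
  t _ := sgt' s p q
  v _ := sgv s p q
  enc _ := enc_sgt' _ s p q

/-- a linear function of `x`: `± p / q ± r / t (x - a / b)` -/
noncomputable def lnF (s : Bool) (p q : ℕ) (s' : Bool) (r t a b : ℕ) : Fn1 where
  t C := pnorm (padd (sgt' s p q) (sgm s' r t (psub C (prat a b))))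
  v x := sgv s p q + sgv s' r t * (x - (a : ℝ) / b)
  enc h := enc_norm (enc_add (enc_sgt' _ s p q) (enc_sgm s' r t (enc_sub h (enc_rat _ a b))))

/-- a quadratic function of `x` -/
noncomputable def lqF (s : Bool) (p q : ℕ) (s' : Bool) (r t : ℕ) (s2 : Bool) (r2 t2 a b : ℕ) :
    Fn1 where
  t C := pnorm (padd (padd (sgt' s p q) (sgm s' r t (psub C (prat a b))))
    (sgm s2 r2 t2 (psq (psub C (prat a b)))))
  v x := sgv s p q + sgv s' r t * (x - (a : ℝ) / b) + sgv s2 r2 t2 * (x - (a : ℝ) / b) ^ 2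
  enc h := enc_norm (enc_add (enc_add (enc_sgt' _ s p q) (enc_sgm s' r t (enc_sub h
    (enc_rat _ a b)))) (enc_sgm s2 r2 t2 (encc (enc_sq (enc_sub h (enc_rat _ a b))) rfl)))

/-! ### The correction -/

/-- `D` is the difference quotient of `f` -/
def DqF (f : ℝ → ℝ) (D : ℝ → ℝ → ℝ) (lo hi : ℝ) : Prop :=
  ∀ p p', lo ≤ p → p ≤ p' → p' ≤ hi → f p' - f p = (p' - p) * D p p'

/-- a constant slope -/
noncomputable def dqC (s : Fn1) : Fn3 where
  t _ _ C := s.t C
  v _ _ x := s.v x
  enc _ _ h := s.enc h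

/-- the part of the interval from `l` to `h` which lies to the right of `k` -/
noncomputable def lmv (h l k : ℝ) : ℝ :=
  if h - k ≤ 0 then 0 else if k - l ≤ 0 then 1 else lam (h - k) (h - l)

noncomputable def lmt (H L K : ℕ) : ℕ :=
  pcase (psub H K) pzero (pcase (psub K L) pone (plam (psub H K) (psub H L)))

theorem enc_lmt {E : Pt} {H L K : ℕ} {h l k : ℝ} (hH : Enc E H h) (hL : Enc E L l)
    (hK : Enc E K k) : Enc E (lmt H L K) (lmv h l k) :=
  enc_case (enc_sub hH hK) (enc_zero E) (enc_case (enc_sub hK hL) (enc_one E)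
    (enc_lam (enc_sub hH hK) (enc_sub hH hL)))

/-- a further knot `k`, where the slope changes by `d` -/
noncomputable def dqK (D : Fn3) (d : Fn1) (s : Bool) (p q : ℕ) : Fn3 where
  t L H C := pnorm (padd (D.t L H C) (pmul (d.t C) (lmt H L (sgt' s p q))))
  v l h x := D.v l h x + d.v x * lmv h l (sgv s p q)
  enc h1 h2 h3 := enc_norm (enc_add (D.enc h1 h2 h3) (enc_mul (d.enc h3)
    (enc_lmt h2 h1 (enc_sgt' _ s p q))))

theorem lam_dq {k p p' : ℝ} (h : p ≤ p') :
    max (p' - k) 0 - max (p - k) 0 = (p' - p) * lam (p' - k) (p' - p) := by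
  unfold lam
  rcases h.eq_or_lt with h | h
  · subst h
    ring
  have hp : 0 < p' - p := by linarith
  have h1 : (p' - k) * (p' - p)⁻¹ * (p' - p) = p' - k := by
    field_simp
  rcases le_total p' k with a | a
  · have e : (p' - k) * (p' - p)⁻¹ ≤ 0 :=
      mul_nonpos_of_nonpos_of_nonneg (by linarith) (inv_nonneg.2 hp.le)
    rw [max_eq_right (by linarith), max_eq_right (by linarith), max_eq_right e,
      min_eq_left (by norm_num)]
    ring
  · have e : 0 ≤ (p' - k) * (p' - p)⁻¹ := mul_nonneg (by linarith) (inv_nonneg.2 hp.le)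
    rw [max_eq_left (by linarith : (0 : ℝ) ≤ p' - k), max_eq_left e]
    rcases le_total k p with c | c
    · have e2 : 1 ≤ (p' - k) * (p' - p)⁻¹ := by
        rw [← div_eq_mul_inv, one_le_div₀ hp]
        linarith
      rw [max_eq_left (by linarith), min_eq_right e2]
      ring
    · have e2 : (p' - k) * (p' - p)⁻¹ ≤ 1 := by
        rw [← div_eq_mul_inv, div_le_one₀ hp]
        linarith
      rw [max_eq_right (by linarith), min_eq_left e2]
      linarith

theorem lmv_dq {k p p' : ℝ} (h : p ≤ p') :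
    max (p' - k) 0 - max (p - k) 0 = (p' - p) * lmv p' p k := by
  unfold lmv
  split_ifs with a b
  · rw [max_eq_right a, max_eq_right (by linarith)]
    ring
  · push Not at a
    rw [max_eq_left a.le, max_eq_left (by linarith)]
    ring
  · exact lam_dq h

theorem dqC_ok {f : ℝ → ℝ} {s : Fn1} {A x lo hi : ℝ}
    (h : ∀ p, lo ≤ p → p ≤ hi → f p = A + s.v x * p) :
    DqF f (fun p p' => (dqC s).v p p' x) lo hi := by
  intro p p' h1 h2 h3
  rw [h p h1 (by linarith), h p' (by linarith) h3]
  show _ = (p' - p) * s.v x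
  ring

theorem dqK_ok {f g : ℝ → ℝ} {D : Fn3} {d : Fn1} {s : Bool} {m q : ℕ} {x lo hi : ℝ}
    (H : DqF g (fun p p' => D.v p p' x) lo hi)
    (h : ∀ p, lo ≤ p → p ≤ hi → f p = g p + d.v x * max (p - sgv s m q) 0) :
    DqF f (fun p p' => (dqK D d s m q).v p p' x) lo hi := by
  intro p p' h1 h2 h3
  have k := H p p' h1 h2 h3
  have l := lmv_dq (k := sgv s m q) h2
  rw [h p h1 (by linarith), h p' (by linarith) h3]
  show _ = (p' - p) * (D.v p p' x + d.v x * lmv p' p (sgv s m q))
  linear_combination k + d.v x * l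

/-! ### The level table at the ends -/

/-- the distance from the end -/
noncomputable def edv (r : Bool) (p : ℝ) : ℝ := cond r (1 / 2 - p) (p + 1 / 2)

noncomputable def edt (r : Bool) (X : ℕ) : ℕ :=
  Bool.rec (motive := fun _ => ℕ) (padd X (prat 1 2)) (psub (prat 1 2) X) r

theorem enc_edt {E : Pt} (r : Bool) {X : ℕ} {v : ℝ} (h : Enc E X v) : Enc E (edt r X) (edv r v) := by
  cases r
  · exact encc (enc_add h (enc_rat E 1 2)) (by norm_num [edv])
  · exact encc (enc_sub (enc_rat E 1 2) h) (by norm_num [edv])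

/-- a slope which does not depend on the phase -/
noncomputable def exC (f : Fn1) : Fn2 where
  t _ C := f.t C
  v _ x := f.v x
  enc _ h := f.enc h

/-- the slope of the secant changes at the distance `p / q` from the end -/
noncomputable def exH (F : Fn2) (d : Fn1) (r : Bool) (p q : ℕ) : Fn2 where
  t A C := pnorm (padd (F.t A C) (pmul (d.t C) (pnorm (pmul (pps (psub (edt r A) (prat p q)))
    (pinv (pmax (edt r A) (prat p q)))))))
  v a x := F.v a x + d.v x * hng (edv r a) ((p : ℝ) / q)
  enc h1 h2 := enc_norm (enc_add (F.enc h1 h2) (enc_mul (d.enc h2) (enc_norm (enc_mul (enc_pos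
    (enc_sub (enc_edt r h1) (enc_rat _ p q))) (enc_inv (enc_max (enc_edt r h1)
      (enc_rat _ p q)))))))

/-- the slope of the secant changes by `d` and the curvature by `2 e` at the distance `p / q` from
the end -/
noncomputable def exH2 (F : Fn2) (d e : Fn1) (r : Bool) (p q : ℕ) : Fn2 where
  t A C := pnorm (padd (F.t A C) (pmul (pnorm (padd (d.t C) (pmul (e.t C)
    (pps (psub (edt r A) (prat p q)))))) (pnorm (pmul (pps (psub (edt r A) (prat p q)))
    (pinv (pmax (edt r A) (prat p q)))))))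
  v a x := F.v a x + (d.v x + e.v x * max (edv r a - (p : ℝ) / q) 0) * hng (edv r a) ((p : ℝ) / q)
  enc h1 h2 := enc_norm (enc_add (F.enc h1 h2) (enc_mul (enc_norm (enc_add (d.enc h2) (enc_mul
    (e.enc h2) (enc_pos (enc_sub (enc_edt r h1) (enc_rat _ p q)))))) (enc_norm (enc_mul (enc_pos
    (enc_sub (enc_edt r h1) (enc_rat _ p q))) (enc_inv (enc_max (enc_edt r h1)
      (enc_rat _ p q)))))))

/-- a quadratic piece: slope plus `d` times the distance from the end -/
noncomputable def exQ (F : Fn2) (d : Fn1) (r : Bool) : Fn2 where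
  t A C := pnorm (padd (F.t A C) (pmul (d.t C) (pnorm (edt r A))))
  v a x := F.v a x + d.v x * edv r a
  enc h1 h2 := enc_norm (enc_add (F.enc h1 h2) (enc_mul (d.enc h2) (enc_norm (enc_edt r h1))))

/-! ### Piecewise linear functions -/

/-- a linear function with the value `A` at `± p / q` and the slope `S` -/
noncomputable def plA (A S : Fn1) (s : Bool) (p q : ℕ) : Fn2 where
  t T C := pnorm (padd (A.t C) (pmul (S.t C) (pnorm (psub T (sgt' s p q)))))
  v a x := A.v x + S.v x * (a - sgv s p q)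
  enc h1 h2 := enc_norm (enc_add (A.enc h2) (enc_mul (S.enc h2) (enc_norm (enc_sub h1
    (enc_sgt' _ s p q)))))

/-- a further knot, on the right (`r = false`) or on the left -/
noncomputable def plH (F : Fn2) (d : Fn1) (r s : Bool) (p q : ℕ) : Fn2 where
  t T C := pnorm (padd (F.t T C) (pmul (d.t C) (Bool.rec (motive := fun _ => ℕ)
    (pps (psub T (sgt' s p q))) (pps (psub (sgt' s p q) T)) r)))
  v a x := F.v a x + d.v x * cond r (max (sgv s p q - a) 0) (max (a - sgv s p q) 0)
  enc h1 h2 := by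
    refine enc_norm (enc_add (F.enc h1 h2) (enc_mul (d.enc h2) ?_))
    cases r
    · exact enc_pos (enc_sub h1 (enc_sgt' _ s p q))
    · exact enc_pos (enc_sub (enc_sgt' _ s p q) h1)

end Pool.Agent.Strip051.PB.Mol
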