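import Pool.Agent.Strip051.PB.MolI

/-! # The tight triangles: the charts in closed form (generated) -/

set_option linter.unusedVariables false

namespace Pool.Agent.Strip051.PB.Mol

open Pool.Agent.StripNear Pool.Agent.StripSquare Pool.Agent.Strip051.Sweep
open Pool.Agent.Strip051.LC Pool.Agent.Strip051.LC.MolN
open Pool.Agent.Strip051.LC.Line (tau)

/-- The abscissas, family `A`. -/
structure AbsA (T : MolP) (u b x X12 X13 : ℝ) : Prop where
  h12 : X12 = c1n (x + u) + b * T.p1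
  h13 : X13 = X12 - (1 / 2 + b * T.ws)

/-- The abscissas, family `B`. -/
structure AbsB (T : MolP) (u b x X12 X13 : ℝ) : Prop where
  h12 : X12 = c1n (x + u) + b * T.p1
  h13 : X13 = -(1 / 2 + b * T.ws)

/-- The values of the kernel, family `A`. -/
structure KerA (T : MolP) (u b x τ1 τ3 X : ℝ) (r : ℝ × ℝ × ℝ) : Prop where
  r1 : r.1 = (c1n (x + u) * cG (x + u) + T.dy + b * T.q1) * τ1
  r2 : r.2.1 = -(1 / 2 + b * T.rs)
  r3 : r.2.2 = ((c1n (x + u + b) - 1 / 2) * cG (x + u + b) + (T.dy + b * T.d1)) * τ3 +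
    T.sK * (X - (c1n (x + u + b) - 1 / 2))

/-- The values of the kernel, family `B`. -/
structure KerB (T : MolP) (u b x τ1 τ3 X : ℝ) (r : ℝ × ℝ × ℝ) : Prop where
  r1 : r.1 = (c1n (x + u) * cG (x + u) + T.dy + b * T.q1) * τ1
  r2 : r.2.1 = ((c1n (x + u - b) + 1 / 2) * cG (x + u - b) + (T.dy + b * T.d1)) * τ3 -
    T.sK * (X - (c1n (x + u - b) + 1 / 2))
  r3 : r.2.2 = -(1 / 2 + b * T.rs)

/-- The values of the second kernel, family `A`. -/
structure DerA (T : MolP) (u b x τ1 τ3 X : ℝ) (r : ℝ × ℝ × ℝ) : Prop where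
  r1 : r.1 = (cP (x + u) - (cR (x + u) + 2 * c1n (x + u)) * T.dy + b * T.m1) * τ1
  r2 : r.2.1 = -(b * T.k2)
  r3 : r.2.2 = (cP (x + u + b) - 1 / 2 * cD (x + u + b) -
    (cR (x + u + b) + 2 * c1n (x + u + b) - 1) * (T.dy + b * T.d1)) * τ3 +
    T.sD * (X - (c1n (x + u + b) - 1 / 2))

/-- The values of the second kernel, family `B`. -/
structure DerB (T : MolP) (u b x τ1 τ3 X : ℝ) (r : ℝ × ℝ × ℝ) : Prop where
  r1 : r.1 = (cP (x + u) - (cR (x + u) + 2 * c1n (x + u)) * T.dy + b * T.m1) * τ1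
  r2 : r.2.1 = (cP (x + u - b) + 1 / 2 * cD (x + u - b) -
    (cR (x + u - b) + 2 * c1n (x + u - b) + 1) * (T.dy + b * T.d1)) * τ3 -
    T.sD * (X - (c1n (x + u - b) + 1 / 2))
  r3 : r.2.2 = -(b * T.k2)

/-- The level values, family `A`. -/
structure LevA (T : MolP) (u b x X : ℝ) (l : ℝ × ℝ × ℝ) : Prop where
  l1 : l.1 = cQ x (x + u) T.dy + b * T.l1
  l2 : l.2.1 = -(b * T.xk)
  l3 : l.2.2 = cQ x (x + u + b) (T.dy + b * T.d1) + T.sX * (X - (c1n (x + u + b) - 1 / 2))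

/-- The level values, family `B`. -/
structure LevB (T : MolP) (u b x X : ℝ) (l : ℝ × ℝ × ℝ) : Prop where
  l1 : l.1 = cQ x (x + u) T.dy + b * T.l1
  l2 : l.2.1 = -(cQ x (x + u - b) (T.dy + b * T.d1) + T.sX * (X - (c1n (x + u - b) + 1 / 2)))
  l3 : l.2.2 = -(b * T.xk)

theorem min_jet {b q a c : ℝ} (hb : 0 ≤ b) : min (q + b * a) (q + b * c) = q + b * min a c := by
  rw [mul_min_of_nonneg _ _ hb, min_add_add_left]

theorem min_jet' {b q a c : ℝ} (hb : b ≤ 0) : min (q + b * a) (q + b * c) = q + b * max a c := by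
  rcases le_total a c with h | h
  · rw [max_eq_right h, min_eq_right]
    have := mul_le_mul_of_nonpos_left h hb
    linarith
  · rw [max_eq_left h, min_eq_left]
    have := mul_le_mul_of_nonpos_left h hb
    linarith

theorem hk_e (T : MolP) {u b x κ : ℝ} (h0' : 0 < x) (h1 : x < 1) (hκ : κ * h0 = ken x) :
    κ * h0 * (x * (1 - x)) = 2 * (n15 T u b x) := by
  rw [hκ, e_eq]
  unfold ken esn
  have : x ≠ 0 := h0'.ne'
  have : 1 - x ≠ 0 := by
    intro h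
    linarith
  field_simp
theorem x1A {T : MolP} {u b x X12 X13 : ℝ} (h : DomA u b x) (a : AbsA T u b x X12 X13) :
    X13 - (c1n (x + u + b) - 1 / 2) = b * (n98 T u b x) := by
  have j := J1 T (u := u) (b := b) (x := x) h
  rw [cy_eq, cpA_eq] at j
  rw [a.h13, a.h12]
  simp only [n98]
  linear_combination -j

theorem x1B {T : MolP} {u b x X12 X13 : ℝ} (h : DomB u b x) (a : AbsB T u b x X12 X13) :
    X12 - X13 - (c1n (x + u - b) + 1 / 2) = b * (n413 T u b x) := by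
  have j := J36 T (u := u) (b := b) (x := x) h
  rw [cy_eq, cpB_eq] at j
  rw [a.h13, a.h12]
  simp only [n413]
  linear_combination -j

theorem ker0A {T : MolP} {u b x τ1 τ3 X12 X13 : ℝ} {r : ℝ × ℝ × ℝ} (h : DomA u b x)
    (hi : T.it * τ3 = 1) (a : AbsA T u b x X12 X13) (k : KerA T u b x τ1 τ3 X13 r) :
    r = ((n100 T u b x) * τ1, -(n142 T u b x), (n139 T u b x) * τ3) := by
  have e := x1A h a
  obtain ⟨k1, k2, k3⟩ := k
  have g1 : r.1 = (n100 T u b x) * τ1 := by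
    rw [k1, K1_eqA]
  have g2 : r.2.1 = -(n142 T u b x) := by
    rw [k2]
    simp only [n142]
    all_goals ring
  have g3 : r.2.2 = (n139 T u b x) * τ3 := by
    rw [k3, e]
    simp only [n139, n136]
    rw [KW_eqA]
    linear_combination (-T.sK * b * (n98 T u b x)) * hi
  ext
  · exact g1
  · exact g2
  · exact g3

theorem derA {T : MolP} {u b x τ1 τ3 X12 X13 : ℝ} {r : ℝ × ℝ × ℝ} (h : DomA u b x)
    (hi : T.it * τ3 = 1) (a : AbsA T u b x X12 X13) (k : DerA T u b x τ1 τ3 X13 r) :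
    r = ((n716 T u b x) * τ1, -(b * T.k2), (n721 T u b x) * τ3) := by
  have e := x1A h a
  obtain ⟨k1, k2, k3⟩ := k
  have g1 : r.1 = (n716 T u b x) * τ1 := by
    rw [k1, Kp1_eqA]
  have g2 : r.2.1 = -(b * T.k2) := k2
  have g3 : r.2.2 = (n721 T u b x) * τ3 := by
    rw [k3, e]
    simp only [n721, n718]
    rw [KpW_eqA]
    linear_combination (-T.sD * b * (n98 T u b x)) * hi
  ext
  · exact g1
  · exact g2
  · exact g3

theorem ker1A {T : MolP} {u b x τ1 τ3 X12 X13 : ℝ} {r rB rD : ℝ × ℝ × ℝ} (h : DomA u b x)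
    (hi : T.it * τ3 = 1) (a : AbsA T u b x X12 X13) (k : KerA T u b x τ1 τ3 X13 rB)
    (d : DerA T u b x τ1 τ3 X13 rD) (hr : r = ((1 + mun 3 x * cR x) * rB.1 + mun 3 x * rD.1,
      (1 + mun 3 x * cR x) * rB.2.1 + mun 3 x * rD.2.1,
      (1 + mun 3 x * cR x) * rB.2.2 + mun 3 x * rD.2.2)) :
    r = ((n730 T u b x) * τ1, -(n748 T u b x), (n739 T u b x) * τ3) := by
  have e0 := ker0A h hi a k
  have e1 := derA h hi a d
  rw [hr, e0, e1, ← fac_eqA T (u := u) (b := b), ← mu_eqA T (u := u) (b := b)]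
  ext
  · simp only [n730, n727, n724]
    ring
  · simp only [n748, n746, n744, n741]
    ring
  · simp only [n739, n736, n733]
    ring

theorem ker0B {T : MolP} {u b x τ1 τ3 X12 X13 : ℝ} {r : ℝ × ℝ × ℝ} (h : DomB u b x)
    (hi : T.it * τ3 = 1) (a : AbsB T u b x X12 X13) (k : KerB T u b x τ1 τ3 (X12 - X13) r) :
    r = ((n100 T u b x) * τ1, (n443 T u b x) * τ3, -(n142 T u b x)) := by
  have e := x1B h a
  obtain ⟨k1, k2, k3⟩ := k
  have g1 : r.1 = (n100 T u b x) * τ1 := by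
    rw [k1, K1_eqA]
  have g2 : r.2.2 = -(n142 T u b x) := by
    rw [k3]
    simp only [n142]
    all_goals ring
  have g3 : r.2.1 = (n443 T u b x) * τ3 := by
    rw [k2, e]
    simp only [n443, n438]
    rw [KW_eqB]
    linear_combination (T.sK * b * (n413 T u b x)) * hi
  ext
  · exact g1
  · exact g3
  · exact g2

theorem derB {T : MolP} {u b x τ1 τ3 X12 X13 : ℝ} {r : ℝ × ℝ × ℝ} (h : DomB u b x)
    (hi : T.it * τ3 = 1) (a : AbsB T u b x X12 X13) (k : DerB T u b x τ1 τ3 (X12 - X13) r) :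
    r = ((n716 T u b x) * τ1, (n1035 T u b x) * τ3, -(b * T.k2)) := by
  have e := x1B h a
  obtain ⟨k1, k2, k3⟩ := k
  have g1 : r.1 = (n716 T u b x) * τ1 := by
    rw [k1, Kp1_eqA]
  have g2 : r.2.2 = -(b * T.k2) := k3
  have g3 : r.2.1 = (n1035 T u b x) * τ3 := by
    rw [k2, e]
    simp only [n1035, n1030]
    rw [KpW_eqB]
    linear_combination (T.sD * b * (n413 T u b x)) * hi
  ext
  · exact g1
  · exact g3
  · exact g2

theorem ker1B {T : MolP} {u b x τ1 τ3 X12 X13 : ℝ} {r rB rD : ℝ × ℝ × ℝ} (h : DomB u b x)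
    (hi : T.it * τ3 = 1) (a : AbsB T u b x X12 X13) (k : KerB T u b x τ1 τ3 (X12 - X13) rB)
    (d : DerB T u b x τ1 τ3 (X12 - X13) rD) (hr : r = ((1 + mun 3 x * cR x) * rB.1 + mun 3 x * rD.1,
      (1 + mun 3 x * cR x) * rB.2.1 + mun 3 x * rD.2.1,
      (1 + mun 3 x * cR x) * rB.2.2 + mun 3 x * rD.2.2)) :
    r = ((n730 T u b x) * τ1, (n1044 T u b x) * τ3, -(n748 T u b x)) := by
  have e0 := ker0B h hi a k
  have e1 := derB h hi a d
  rw [hr, e0, e1, ← fac_eqA T (u := u) (b := b), ← mu_eqA T (u := u) (b := b)]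
  ext
  · simp only [n730, n727, n724]
    ring
  · simp only [n1044, n1041, n1038]
    ring
  · simp only [n748, n746, n744, n741]
    ring

theorem levA {T : MolP} {u b x X12 X13 : ℝ} {l : ℝ × ℝ × ℝ} (h : DomA u b x)
    (a : AbsA T u b x X12 X13) (k : LevA T u b x X13 l) :
    l.1 = n150 T u b x ∧ l.2.1 = -(n144 T u b x) ∧ l.2.2 = (n148 T u b x) ∧ l.1 + l.2.1 - l.2.2 = b * (n155 T u b x) := by
  have e := x1A h a
  obtain ⟨k1, k2, k3⟩ := k
  have g1 : l.1 = n150 T u b x := by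
    rw [k1, ← Q12_eqA T (u := u) (b := b)]
    simp only [n150]
  have g2 : l.2.1 = -(n144 T u b x) := by
    rw [k2]
    simp only [n144]
  have g3 : l.2.2 = (n148 T u b x) := by
    rw [k3, e, ← QW_eqA]
    simp only [n148, n145]
    all_goals ring
  refine ⟨g1, g2, g3, ?_⟩
  have j := J34 T (u := u) (b := b) (x := x) h
  rw [g1, g2, g3]
  simp only [n156, n155, n154, n153] at j ⊢
  linear_combination j

theorem levB {T : MolP} {u b x X12 X13 : ℝ} {l : ℝ × ℝ × ℝ} (h : DomB u b x)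
    (a : AbsB T u b x X12 X13) (k : LevB T u b x (X12 - X13) l) :
    l.1 = n150 T u b x ∧ l.2.2 = -(n144 T u b x) ∧ l.2.1 = -(n447 T u b x) ∧ l.1 + l.2.1 - l.2.2 = b * (n453 T u b x) := by
  have e := x1B h a
  obtain ⟨k1, k2, k3⟩ := k
  have g1 : l.1 = n150 T u b x := by
    rw [k1, ← Q12_eqA T (u := u) (b := b)]
    simp only [n150]
  have g2 : l.2.2 = -(n144 T u b x) := by
    rw [k3]
    simp only [n144]
  have g3 : l.2.1 = -(n447 T u b x) := by
    rw [k2, e, ← QW_eqB]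
    simp only [n447, n444]
    all_goals ring
  refine ⟨g1, g2, g3, ?_⟩
  have j := J61 T (u := u) (b := b) (x := x) h
  rw [g1, g2, g3]
  simp only [n454, n453, n452, n451] at j ⊢
  linear_combination j

theorem exq {T : MolP} {u b x X12 X13 Xs Y : ℝ} (hY : Y = x + u + (1 + b))
    (e1 : X12 = c1n (x + u) + b * T.p1) (e2 : X13 = X12 - (1 / 2 + b * T.ws)) :
    exn' X12 X13 (x + u) Y = n160 T u b x + b * (1 / 2 * (n12 T u b x + (T.p1) * (n16 T u b x) + (T.ws) * (n3 T u b x))) := by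
  subst hY
  unfold exn'
  rw [e2, e1]
  simp only [n160, n16, n3]
  rw [cy_eq]
  all_goals ring

theorem exqB {T : MolP} {u b x X12 X13 Y : ℝ} (hY : Y = 1 + b)
    (e1 : X12 = c1n (x + u) + b * T.p1) (e2 : X13 = -(1 / 2 + b * T.ws)) :
    exn' X12 X13 (x + u) Y = n160 T u b x + b * (1 / 2 * (n12 T u b x + (T.p1) * (n16 T u b x) + (T.ws) * (n3 T u b x))) := by
  subst hY
  unfold exn'
  rw [e2, e1]
  simp only [n160, n16, n3]
  rw [cy_eq]
  all_goals ring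

theorem ev0Ap {T : MolP} {u b x ex X12 X13 : ℝ} {l : ℝ × ℝ × ℝ} (h : DomA u b x) (hb : 0 ≤ b)
    (a : AbsA T u b x X12 X13) (k : LevA T u b x X13 l) (he : ex = n160 T u b x + b * (1 / 2 * (n12 T u b x + (T.p1) * (n16 T u b x) + (T.ws) * (n3 T u b x)))) :
    lvF ex l = n160 T u b x + b * (n168 T u b x) := by
  obtain ⟨-, -, -, e⟩ := levA h a k
  unfold lvF levF
  rw [e, he, abs_mul, abs_of_nonneg hb]
  simp only [n168]
  all_goals ring

theorem ev0Am {T : MolP} {u b x ex X12 X13 : ℝ} {l : ℝ × ℝ × ℝ} (h : DomA u b x) (hb : b < 0)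
    (a : AbsA T u b x X12 X13) (k : LevA T u b x X13 l) (he : ex = n160 T u b x + b * (1 / 2 * (n12 T u b x + (T.p1) * (n16 T u b x) + (T.ws) * (n3 T u b x)))) :
    lvF ex l = n160 T u b x + b * (n307 T u b x) := by
  obtain ⟨-, -, -, e⟩ := levA h a k
  unfold lvF levF
  rw [e, he, abs_mul, abs_of_neg hb]
  simp only [n307]
  all_goals ring

theorem ev0Bp {T : MolP} {u b x ex X12 X13 : ℝ} {l : ℝ × ℝ × ℝ} (h : DomB u b x) (hb : 0 ≤ b)
    (a : AbsB T u b x X12 X13) (k : LevB T u b x (X12 - X13) l) (he : ex = n160 T u b x + b * (1 / 2 * (n12 T u b x + (T.p1) * (n16 T u b x) + (T.ws) * (n3 T u b x)))) :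
    lvF ex l = n160 T u b x + b * (n458 T u b x) := by
  obtain ⟨-, -, -, e⟩ := levB h a k
  unfold lvF levF
  rw [e, he, abs_mul, abs_of_nonneg hb]
  simp only [n458]
  all_goals ring

theorem ev0Bm {T : MolP} {u b x ex X12 X13 : ℝ} {l : ℝ × ℝ × ℝ} (h : DomB u b x) (hb : b < 0)
    (a : AbsB T u b x X12 X13) (k : LevB T u b x (X12 - X13) l) (he : ex = n160 T u b x + b * (1 / 2 * (n12 T u b x + (T.p1) * (n16 T u b x) + (T.ws) * (n3 T u b x)))) :
    lvF ex l = n160 T u b x + b * (n536 T u b x) := by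
  obtain ⟨-, -, -, e⟩ := levB h a k
  unfold lvF levF
  rw [e, he, abs_mul, abs_of_neg hb]
  simp only [n536]
  all_goals ring

theorem labA {T : MolP} {u b x y y' X12 X13 : ℝ} {l : ℝ × ℝ × ℝ} (h : DomA u b x)
    (a : AbsA T u b x X12 X13) (k : LevA T u b x X13 l) (hy : y = x + u) (hy' : y' = (1 + b)) :
    levn 3 0 x y y' l.1 l.2.1 l.2.2 = (n129 T u b x) * (1 / 2) + b * (n647 T u b x) ∧
      levm 3 0 x y y' l.1 l.2.1 l.2.2 = (n129 T u b x) * (1 / 2) + b * (n649 T u b x) := by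
  obtain ⟨g1, g2, g3, e⟩ := levA h a k
  subst hy hy'
  have jA := J109 T (u := u) (b := b) (x := x) h
  have jB := J110 T (u := u) (b := b) (x := x) h
  have a0 : -(1 / 2 * (n622 T u b x)) = (n129 T u b x) * (1 / 2) := by
    simp only [n622, n618, n608, n315, n3]
    all_goals ring
  have b0 : 1 / 2 * (n638 T u b x) = (n129 T u b x) * (1 / 2) := by
    simp only [n638, n631, n618, n606, n315, n3]
    all_goals ring
  rw [a0] at jA
  rw [b0] at jB
  unfold levn levm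
  constructor
  · rw [e, g1, g2, g3, ← jA]
    simp only [n648, n645, n624, n621, n617, n614, n610, n604, n602, n601, n157, n16, n3]
    push_cast
    all_goals ring
  · rw [e, g1, g2, g3, ← jB]
    simp only [n650, n645, n640, n637, n635, n629, n621, n607, n602, n601, n157, n16, n3]
    push_cast
    all_goals ring

theorem ev1Ap {T : MolP} {u b x y y' ex X12 X13 : ℝ} {l : ℝ × ℝ × ℝ} (h : DomA u b x) (hb : 0 ≤ b)
    (a : AbsA T u b x X12 X13) (k : LevA T u b x X13 l) (hy : y = x + u) (hy' : y' = (1 + b))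
    (he : ex = n160 T u b x + b * (1 / 2 * (n12 T u b x + (T.p1) * (n16 T u b x) + (T.ws) * (n3 T u b x)))) :
    lvN 3 0 x y y' ex l = n654 T u b x + b * (n656 T u b x) := by
  obtain ⟨g1, g2⟩ := labA h a k hy hy'
  unfold lvN levN
  rw [g1, g2, min_jet hb, he, ← mu_eqA T (u := u) (b := b)]
  simp only [n656, n654, n651]
  all_goals ring

theorem ev1Am {T : MolP} {u b x y y' ex X12 X13 : ℝ} {l : ℝ × ℝ × ℝ} (h : DomA u b x) (hb : b < 0)
    (a : AbsA T u b x X12 X13) (k : LevA T u b x X13 l) (hy : y = x + u) (hy' : y' = (1 + b))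
    (he : ex = n160 T u b x + b * (1 / 2 * (n12 T u b x + (T.p1) * (n16 T u b x) + (T.ws) * (n3 T u b x)))) :
    lvN 3 0 x y y' ex l = n654 T u b x + b * (n877 T u b x) := by
  obtain ⟨g1, g2⟩ := labA h a k hy hy'
  unfold lvN levN
  rw [g1, g2, min_jet' hb.le, he, ← mu_eqA T (u := u) (b := b)]
  simp only [n877, n875, n654]
  all_goals ring

theorem labB {T : MolP} {u b x y y' X12 X13 : ℝ} {l : ℝ × ℝ × ℝ} (h : DomB u b x)
    (a : AbsB T u b x X12 X13) (k : LevB T u b x (X12 - X13) l) (hy : y = x + u) (hy' : y' = (1 + b - (x + u))) :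
    levn 3 0 x y y' l.1 l.2.1 l.2.2 = (n129 T u b x) * (1 / 2) + b * (n984 T u b x) ∧
      levm 3 0 x y y' l.1 l.2.1 l.2.2 = (n129 T u b x) * (1 / 2) + b * (n986 T u b x) := by
  obtain ⟨g1, g2, g3, e⟩ := levB h a k
  subst hy hy'
  have jA := J145 T (u := u) (b := b) (x := x) h
  have jB := J146 T (u := u) (b := b) (x := x) h
  have a0 : -(1 / 2 * (n954 T u b x)) = (n129 T u b x) * (1 / 2) := by
    simp only [n954, n947, n941, n608, n169, n3]
    all_goals ring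
  have b0 : 1 / 2 * (n973 T u b x) = (n129 T u b x) * (1 / 2) := by
    simp only [n973, n969, n962, n945, n169, n3]
    all_goals ring
  rw [a0] at jA
  rw [b0] at jB
  unfold levn levm
  constructor
  · rw [e, g1, g2, g3, ← jA]
    simp only [n985, n982, n958, n956, n952, n942, n940, n629, n610, n601, n455, n16, n3]
    push_cast
    all_goals ring
  · rw [e, g1, g2, g3, ← jB]
    simp only [n987, n982, n977, n975, n972, n967, n946, n940, n629, n601, n455, n16, n3]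
    push_cast
    all_goals ring

theorem ev1Bp {T : MolP} {u b x y y' ex X12 X13 : ℝ} {l : ℝ × ℝ × ℝ} (h : DomB u b x) (hb : 0 ≤ b)
    (a : AbsB T u b x X12 X13) (k : LevB T u b x (X12 - X13) l) (hy : y = x + u) (hy' : y' = (1 + b - (x + u)))
    (he : ex = n160 T u b x + b * (1 / 2 * (n12 T u b x + (T.p1) * (n16 T u b x) + (T.ws) * (n3 T u b x)))) :
    lvN 3 0 x y y' ex l = n654 T u b x + b * (n990 T u b x) := by
  obtain ⟨g1, g2⟩ := labB h a k hy hy'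
  unfold lvN levN
  rw [g1, g2, min_jet hb, he, ← mu_eqA T (u := u) (b := b)]
  simp only [n990, n988, n654]
  all_goals ring

theorem ev1Bm {T : MolP} {u b x y y' ex X12 X13 : ℝ} {l : ℝ × ℝ × ℝ} (h : DomB u b x) (hb : b < 0)
    (a : AbsB T u b x X12 X13) (k : LevB T u b x (X12 - X13) l) (hy : y = x + u) (hy' : y' = (1 + b - (x + u)))
    (he : ex = n160 T u b x + b * (1 / 2 * (n12 T u b x + (T.p1) * (n16 T u b x) + (T.ws) * (n3 T u b x)))) :
    lvN 3 0 x y y' ex l = n654 T u b x + b * (n1122 T u b x) := by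
  obtain ⟨g1, g2⟩ := labB h a k hy hy'
  unfold lvN levN
  rw [g1, g2, min_jet' hb.le, he, ← mu_eqA T (u := u) (b := b)]
  simp only [n1122, n1120, n654]
  all_goals ring

theorem fin0Ap {T : MolP} {u b x κ τ1 τ3 y y' X12 X13 : ℝ} {r l : ℝ × ℝ × ℝ}
    (h : DomA u b x) (hb : 0 ≤ b) (hκ : κ * h0 = ken x) (hy : y = x + u) (hy' : y' = 1 + b)
    (hi : T.it * τ3 = 1) (ha : AbsA T u b x X12 X13) (hk : KerA T u b x τ1 τ3 X13 r)
    (hl : LevA T u b x X13 l) (t1 : tau (h0 * y) = h0 * τ1) (t3 : tau (h0 * y + h0 * y') = h0 * τ3)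
    (hP : 0 < n174 T u b x) (hQ : 0 < n201 T u b x)
    (tN : 0 < -(n297 T u b x) ∨ 0 < n221 T u b x ∨ 0 < n302 T u b x)
    (tM : 0 < n297 T u b x ∨ 0 < n240 T u b x ∨ 0 < n306 T u b x) :
    NGV κ (h0 * x) (lvF (exn' X12 X13 y (y + y')) l) (h0 * y) (h0 * y') r := by
  have ee : exn' X12 X13 y (y + y') = n160 T u b x + b * (1 / 2 * (n12 T u b x + (T.p1) * (n16 T u b x) + (T.ws) * (n3 T u b x))) := by
    rw [hy, hy']
    exact exq (Xs := 0) rfl ha.h12 ha.h13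
  rw [ev0Ap h hb ha hl ee, ker0A h hi ha hk]
  have hh : h0 * y' = h0 + h0 * b := by
    rw [hy']
    ring
  rw [hh] at t3 ⊢
  rw [hy] at t1 t3 ⊢
  have k := ch0Ap T h hb (hk_e T h.x0 h.x1 hκ) hP hQ (by simpa using tN) (by simpa using tM)
    (by rw [y_eq]; exact t1) (by rw [y_eq]; exact t3)
  rw [y_eq] at k
  exact k

theorem fin0Am {T : MolP} {u b x κ τ1 τ3 y y' X12 X13 : ℝ} {r l : ℝ × ℝ × ℝ}
    (h : DomA u b x) (hb : b < 0) (hκ : κ * h0 = ken x) (hy : y = x + u) (hy' : y' = 1 + b)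
    (hi : T.it * τ3 = 1) (ha : AbsA T u b x X12 X13) (hk : KerA T u b x τ1 τ3 X13 r)
    (hl : LevA T u b x X13 l) (t1 : tau (h0 * y) = h0 * τ1) (t3 : tau (h0 * y + h0 * y') = h0 * τ3)
    (hP : 0 < n174 T u b x) (hQ : 0 < n325 T u b x)
    (tN : 0 < -(n365 T u b x) ∨ 0 < -(n345 T u b x) ∨ 0 < n369 T u b x)
    (tM : 0 < n365 T u b x ∨ 0 < -(n361 T u b x) ∨ 0 < n371 T u b x) :
    NGV κ (h0 * x) (lvF (exn' X12 X13 y (y + y')) l) (h0 * y) (h0 * y') r := by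
  have ee : exn' X12 X13 y (y + y') = n160 T u b x + b * (1 / 2 * (n12 T u b x + (T.p1) * (n16 T u b x) + (T.ws) * (n3 T u b x))) := by
    rw [hy, hy']
    exact exq (Xs := 0) rfl ha.h12 ha.h13
  rw [ev0Am h hb ha hl ee, ker0A h hi ha hk]
  have hh : h0 * y' = h0 + h0 * b := by
    rw [hy']
    ring
  rw [hh] at t3 ⊢
  rw [hy] at t1 t3 ⊢
  have k := ch0Am T h hb (hk_e T h.x0 h.x1 hκ) hP hQ (by simpa using tN) (by simpa using tM)
    (by rw [y_eq]; exact t1) (by rw [y_eq]; exact t3)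
  rw [y_eq] at k
  exact k

theorem fin0Bp {T : MolP} {u b x κ τ1 τ3 y y' X12 X13 : ℝ} {r l : ℝ × ℝ × ℝ}
    (h : DomB u b x) (hb : 0 ≤ b) (hκ : κ * h0 = ken x) (hy : y = x + u) (hy' : y' = 1 + b - (x + u))
    (hi : T.it * τ3 = 1) (ha : AbsB T u b x X12 X13) (hk : KerB T u b x τ1 τ3 (X12 - X13) r)
    (hl : LevB T u b x (X12 - X13) l) (t1 : tau (h0 * y) = h0 * τ1) (t3 : tau (h0 * y') = h0 * τ3)
    (hP : 0 < n462 T u b x) (hQ : 0 < n486 T u b x)
    (tN : 0 < -(n531 T u b x) ∨ 0 < n508 T u b x ∨ 0 < n533 T u b x)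
    (tM : 0 < n531 T u b x ∨ 0 < n526 T u b x ∨ 0 < n535 T u b x) :
    NGV κ (h0 * x) (lvF (exn' X12 X13 y (y + y')) l) (h0 * y) (h0 * y') r := by
  have ee : exn' X12 X13 y (y + y') = n160 T u b x + b * (1 / 2 * (n12 T u b x + (T.p1) * (n16 T u b x) + (T.ws) * (n3 T u b x))) := by
    rw [hy, hy']
    exact exqB (by ring) ha.h12 ha.h13
  rw [ev0Bp h hb ha hl ee, ker0B h hi ha hk]
  have hh : h0 * y' = h0 + h0 * b - h0 * (x + u) := by
    rw [hy']
    ring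
  rw [hh] at t3 ⊢
  rw [hy] at t1 ⊢
  have k := ch0Bp T h hb (hk_e T h.x0 h.x1 hκ) hP hQ (by simpa using tN) (by simpa using tM)
    (by rw [y_eq]; exact t1) (by rw [y_eq]; exact t3)
  rw [y_eq] at k
  exact k

theorem fin0Bm {T : MolP} {u b x κ τ1 τ3 y y' X12 X13 : ℝ} {r l : ℝ × ℝ × ℝ}
    (h : DomB u b x) (hb : b < 0) (hκ : κ * h0 = ken x) (hy : y = x + u) (hy' : y' = 1 + b - (x + u))
    (hi : T.it * τ3 = 1) (ha : AbsB T u b x X12 X13) (hk : KerB T u b x τ1 τ3 (X12 - X13) r)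
    (hl : LevB T u b x (X12 - X13) l) (t1 : tau (h0 * y) = h0 * τ1) (t3 : tau (h0 * y') = h0 * τ3)
    (hP : 0 < n462 T u b x) (hQ : 0 < n548 T u b x)
    (tN : 0 < -(n590 T u b x) ∨ 0 < -(n570 T u b x) ∨ 0 < n594 T u b x)
    (tM : 0 < n590 T u b x ∨ 0 < -(n586 T u b x) ∨ 0 < n596 T u b x) :
    NGV κ (h0 * x) (lvF (exn' X12 X13 y (y + y')) l) (h0 * y) (h0 * y') r := by
  have ee : exn' X12 X13 y (y + y') = n160 T u b x + b * (1 / 2 * (n12 T u b x + (T.p1) * (n16 T u b x) + (T.ws) * (n3 T u b x))) := by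
    rw [hy, hy']
    exact exqB (by ring) ha.h12 ha.h13
  rw [ev0Bm h hb ha hl ee, ker0B h hi ha hk]
  have hh : h0 * y' = h0 + h0 * b - h0 * (x + u) := by
    rw [hy']
    ring
  rw [hh] at t3 ⊢
  rw [hy] at t1 ⊢
  have k := ch0Bm T h hb (hk_e T h.x0 h.x1 hκ) hP hQ (by simpa using tN) (by simpa using tM)
    (by rw [y_eq]; exact t1) (by rw [y_eq]; exact t3)
  rw [y_eq] at k
  exact k

theorem fin1Ap {T : MolP} {u b x κ τ1 τ3 y y' X12 X13 : ℝ} {r rB rD l : ℝ × ℝ × ℝ}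
    (h : DomA u b x) (hb : 0 ≤ b) (hκ : κ * h0 = ken x) (hy : y = x + u) (hy' : y' = 1 + b)
    (hi : T.it * τ3 = 1) (ha : AbsA T u b x X12 X13) (hk : KerA T u b x τ1 τ3 X13 rB)
    (hd : DerA T u b x τ1 τ3 X13 rD) (hdy : |T.dy| ≤ 1 / 2)
    (hr : r = ((1 + mun 3 x * cR x) * rB.1 + mun 3 x * rD.1,
      (1 + mun 3 x * cR x) * rB.2.1 + mun 3 x * rD.2.1,
      (1 + mun 3 x * cR x) * rB.2.2 + mun 3 x * rD.2.2))
    (hl : LevA T u b x X13 l) (t1 : tau (h0 * y) = h0 * τ1) (t3 : tau (h0 * y + h0 * y') = h0 * τ3)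
    (hP : 0 < n752 T u b x) (hQ : 0 < n779 T u b x)
    (tN : 0 < -(n866 T u b x) ∨ 0 < n798 T u b x ∨ 0 < n870 T u b x)
    (tM : 0 < n866 T u b x ∨ 0 < n817 T u b x ∨ 0 < n874 T u b x) :
    NGV κ (h0 * x) (lvN 3 0 x y y' (exn' X12 X13 y (y + y')) l) (h0 * y) (h0 * y') r := by
  have ee : exn' X12 X13 y (y + y') = n160 T u b x + b * (1 / 2 * (n12 T u b x + (T.p1) * (n16 T u b x) + (T.ws) * (n3 T u b x))) := by
    rw [hy, hy']
    exact exq (Xs := 0) rfl ha.h12 ha.h13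
  rw [ev1Ap h hb ha hl hy hy' ee, ker1A h hi ha hk hd hr]
  have hh : h0 * y' = h0 + h0 * b := by
    rw [hy']
    ring
  rw [hh] at t3 ⊢
  rw [hy] at t1 t3 ⊢
  have k := ch1Ap T h hb (hk_e T h.x0 h.x1 hκ) hdy hP hQ (by simpa using tN) (by simpa using tM)
    (by rw [y_eq]; exact t1) (by rw [y_eq]; exact t3)
  rw [y_eq] at k
  exact k

theorem fin1Am {T : MolP} {u b x κ τ1 τ3 y y' X12 X13 : ℝ} {r rB rD l : ℝ × ℝ × ℝ}
    (h : DomA u b x) (hb : b < 0) (hκ : κ * h0 = ken x) (hy : y = x + u) (hy' : y' = 1 + b)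
    (hi : T.it * τ3 = 1) (ha : AbsA T u b x X12 X13) (hk : KerA T u b x τ1 τ3 X13 rB)
    (hd : DerA T u b x τ1 τ3 X13 rD) (hdy : |T.dy| ≤ 1 / 2)
    (hr : r = ((1 + mun 3 x * cR x) * rB.1 + mun 3 x * rD.1,
      (1 + mun 3 x * cR x) * rB.2.1 + mun 3 x * rD.2.1,
      (1 + mun 3 x * cR x) * rB.2.2 + mun 3 x * rD.2.2))
    (hl : LevA T u b x X13 l) (t1 : tau (h0 * y) = h0 * τ1) (t3 : tau (h0 * y + h0 * y') = h0 * τ3)
    (hP : 0 < n752 T u b x) (hQ : 0 < n893 T u b x)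
    (tN : 0 < -(n933 T u b x) ∨ 0 < -(n913 T u b x) ∨ 0 < n937 T u b x)
    (tM : 0 < n933 T u b x ∨ 0 < -(n929 T u b x) ∨ 0 < n939 T u b x) :
    NGV κ (h0 * x) (lvN 3 0 x y y' (exn' X12 X13 y (y + y')) l) (h0 * y) (h0 * y') r := by
  have ee : exn' X12 X13 y (y + y') = n160 T u b x + b * (1 / 2 * (n12 T u b x + (T.p1) * (n16 T u b x) + (T.ws) * (n3 T u b x))) := by
    rw [hy, hy']
    exact exq (Xs := 0) rfl ha.h12 ha.h13
  rw [ev1Am h hb ha hl hy hy' ee, ker1A h hi ha hk hd hr]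
  have hh : h0 * y' = h0 + h0 * b := by
    rw [hy']
    ring
  rw [hh] at t3 ⊢
  rw [hy] at t1 t3 ⊢
  have k := ch1Am T h hb (hk_e T h.x0 h.x1 hκ) hdy hP hQ (by simpa using tN) (by simpa using tM)
    (by rw [y_eq]; exact t1) (by rw [y_eq]; exact t3)
  rw [y_eq] at k
  exact k

theorem fin1Bp {T : MolP} {u b x κ τ1 τ3 y y' X12 X13 : ℝ} {r rB rD l : ℝ × ℝ × ℝ}
    (h : DomB u b x) (hb : 0 ≤ b) (hκ : κ * h0 = ken x) (hy : y = x + u) (hy' : y' = 1 + b - (x + u))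
    (hi : T.it * τ3 = 1) (ha : AbsB T u b x X12 X13) (hk : KerB T u b x τ1 τ3 (X12 - X13) rB)
    (hd : DerB T u b x τ1 τ3 (X12 - X13) rD) (hdy : |T.dy| ≤ 1 / 2)
    (hr : r = ((1 + mun 3 x * cR x) * rB.1 + mun 3 x * rD.1,
      (1 + mun 3 x * cR x) * rB.2.1 + mun 3 x * rD.2.1,
      (1 + mun 3 x * cR x) * rB.2.2 + mun 3 x * rD.2.2))
    (hl : LevB T u b x (X12 - X13) l) (t1 : tau (h0 * y) = h0 * τ1) (t3 : tau (h0 * y') = h0 * τ3)
    (hP : 0 < n1047 T u b x) (hQ : 0 < n1070 T u b x)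
    (tN : 0 < -(n1115 T u b x) ∨ 0 < n1092 T u b x ∨ 0 < n1117 T u b x)
    (tM : 0 < n1115 T u b x ∨ 0 < n1110 T u b x ∨ 0 < n1119 T u b x) :
    NGV κ (h0 * x) (lvN 3 0 x y y' (exn' X12 X13 y (y + y')) l) (h0 * y) (h0 * y') r := by
  have ee : exn' X12 X13 y (y + y') = n160 T u b x + b * (1 / 2 * (n12 T u b x + (T.p1) * (n16 T u b x) + (T.ws) * (n3 T u b x))) := by
    rw [hy, hy']
    exact exqB (by ring) ha.h12 ha.h13
  rw [ev1Bp h hb ha hl hy hy' ee, ker1B h hi ha hk hd hr]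
  have hh : h0 * y' = h0 + h0 * b - h0 * (x + u) := by
    rw [hy']
    ring
  rw [hh] at t3 ⊢
  rw [hy] at t1 ⊢
  have k := ch1Bp T h hb (hk_e T h.x0 h.x1 hκ) hdy hP hQ (by simpa using tN) (by simpa using tM)
    (by rw [y_eq]; exact t1) (by rw [y_eq]; exact t3)
  rw [y_eq] at k
  exact k

theorem fin1Bm {T : MolP} {u b x κ τ1 τ3 y y' X12 X13 : ℝ} {r rB rD l : ℝ × ℝ × ℝ}
    (h : DomB u b x) (hb : b < 0) (hκ : κ * h0 = ken x) (hy : y = x + u) (hy' : y' = 1 + b - (x + u))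
    (hi : T.it * τ3 = 1) (ha : AbsB T u b x X12 X13) (hk : KerB T u b x τ1 τ3 (X12 - X13) rB)
    (hd : DerB T u b x τ1 τ3 (X12 - X13) rD) (hdy : |T.dy| ≤ 1 / 2)
    (hr : r = ((1 + mun 3 x * cR x) * rB.1 + mun 3 x * rD.1,
      (1 + mun 3 x * cR x) * rB.2.1 + mun 3 x * rD.2.1,
      (1 + mun 3 x * cR x) * rB.2.2 + mun 3 x * rD.2.2))
    (hl : LevB T u b x (X12 - X13) l) (t1 : tau (h0 * y) = h0 * τ1) (t3 : tau (h0 * y') = h0 * τ3)
    (hP : 0 < n1047 T u b x) (hQ : 0 < n1134 T u b x)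
    (tN : 0 < -(n1176 T u b x) ∨ 0 < -(n1156 T u b x) ∨ 0 < n1180 T u b x)
    (tM : 0 < n1176 T u b x ∨ 0 < -(n1172 T u b x) ∨ 0 < n1182 T u b x) :
    NGV κ (h0 * x) (lvN 3 0 x y y' (exn' X12 X13 y (y + y')) l) (h0 * y) (h0 * y') r := by
  have ee : exn' X12 X13 y (y + y') = n160 T u b x + b * (1 / 2 * (n12 T u b x + (T.p1) * (n16 T u b x) + (T.ws) * (n3 T u b x))) := by
    rw [hy, hy']
    exact exqB (by ring) ha.h12 ha.h13
  rw [ev1Bm h hb ha hl hy hy' ee, ker1B h hi ha hk hd hr]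
  have hh : h0 * y' = h0 + h0 * b - h0 * (x + u) := by
    rw [hy']
    ring
  rw [hh] at t3 ⊢
  rw [hy] at t1 ⊢
  have k := ch1Bm T h hb (hk_e T h.x0 h.x1 hκ) hdy hP hQ (by simpa using tN) (by simpa using tM)
    (by rw [y_eq]; exact t1) (by rw [y_eq]; exact t3)
  rw [y_eq] at k
  exact k

end Pool.Agent.Strip051.PB.Mol
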