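import Pool.Agent.Strip051.PB.MolE

/-! # The tight charts: the third side near the middle curve -/

namespace Pool.Agent.Strip051.PB.Mol

open Pool.Agent.StripNear Pool.Agent.StripSquare Pool.Agent.Strip051.Sweep
open Pool.Agent.Strip051.LC Pool.Agent.Strip051.LC.MolN
open Pool.Agent.Strip051.LC.Line (tau)

attribute [local irreducible] padd psub pneg pmul psq pinv psqrt psqrtg pabs pps pmax pmin pphi plam
  pcase phf pnat prat pscale pnorm pdc pnc pone ppos pnn Enc pzero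

section

variable {n : ℕ} {P : Pos n} {x : ℝ}

/-- The value on the third side between two curves. -/
theorem seg_pins {R : Fin (n + 1) → ℕ → ℝ → ℝ → ℝ} (h : Pins P R x) {q : ℕ} {y X : ℝ}
    (hq : InQ q y) (i : Fin n) (k1 : 1 ≤ qqn X y) (k3 : qqn X y ≤ 3)
    (a1 : crv P i.castSucc q y ≤ X) (a2 : X ≤ crv P i.succ q y) :
    thd P R q X y x = R i.castSucc q y x + (R i.succ q y x - R i.castSucc q y x) *
      ((X - crv P i.castSucc q y) / (crv P i.succ q y - crv P i.castSucc q y)) := by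
  have hp := h0_pos
  have hT : 0 ≤ h0 * y := mul_nonneg hp.le hq.nonneg
  have hT3 : (h0 * y) ^ 2 ≤ 3 := by
    rw [mul_pow, h0_sq]
    unfold qqn at k3
    nlinarith [sq_nonneg X]
  have m2 := Pos.ker_seg h.adm i hT hT3 (X := X) (by rwa [← linkX P _ q y hq] at a1)
    (by rwa [← linkX P _ q y hq] at a2)
  have e3 : ker P.nodes (tbl R x) (fun _ _ => 0) X (h0 * y) = thd P R q X y x :=
    h.link.third q X y hq k1 k3
  rw [e3, tbl_eq hq, tbl_eq hq] at m2
  have c1' : P.cv i.castSucc (h0 * y) = crv P i.castSucc q y := linkX P _ q y hq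
  have c2' : P.cv i.succ (h0 * y) = crv P i.succ q y := linkX P _ q y hq
  rw [c1', c2'] at m2
  exact m2

end

/-! ### Slopes -/

/-- the function is the line through two points between them -/
def LinB (f : ℝ → ℝ) (x0 x1 v0 v1 : ℝ) : Prop :=
  ∀ X, x0 ≤ X → X ≤ x1 → f X = v0 + (v1 - v0) * ((X - x0) / (x1 - x0))

/-- The middle segment: the value at `W` is `w`. -/
theorem mid_eq {f : ℝ → ℝ} {x0 x1 v0 v1 W w X : ℝ} (h : LinB f x0 x1 v0 v1)
    (hw : v1 = v0 + (w - v0) * (x1 - x0) * (W - x0)⁻¹) (a : 0 < W - x0) (b : 0 < x1 - W)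
    (h0 : x0 ≤ X) (h1 : X ≤ x1) : f X = w + (w - v0) * (W - x0)⁻¹ * (X - W) := by
  rw [h X h0 h1, hw]
  have h2 : x1 - x0 ≠ 0 := by linarith
  have h3 : W - x0 ≠ 0 := a.ne'
  field_simp
  ring

/-- A segment with the left end `(x1, v1)`. -/
theorem seg_r {f : ℝ → ℝ} {x1 x2 v1 v2 X : ℝ} (h : LinB f x1 x2 v1 v2) (h0 : x1 ≤ X)
    (h1 : X ≤ x2) : f X = v1 + (v2 - v1) * (x2 - x1)⁻¹ * (X - x1) := by
  rw [h X h0 h1, div_eq_mul_inv]
  ring

theorem seg_l {f : ℝ → ℝ} {x0 x1 v0 v1 X : ℝ} (h : LinB f x0 x1 v0 v1) (a : 0 < x1 - x0)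
    (h0 : x0 ≤ X) (h1 : X ≤ x1) : f X = v1 + (v1 - v0) * (x1 - x0)⁻¹ * (X - x1) := by
  rw [h X h0 h1]
  have h2 : x1 - x0 ≠ 0 := a.ne'
  field_simp
  ring

/-- the part of a distance beyond `d` -/
noncomputable def hng (D d : ℝ) : ℝ := max (D - d) 0 * (max D d)⁻¹

theorem hng_eq {D d : ℝ} (hd : 0 < d) : hng D d * D = max (D - d) 0 := by
  unfold hng
  rcases le_or_gt D d with h | h
  · rw [max_eq_right (by linarith : D - d ≤ 0)]
    ring
  · have hD : D ≠ 0 := by linarith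
    rw [max_eq_left (by linarith : (0 : ℝ) ≤ D - d), max_eq_left h.le]
    field_simp

/-- no curve between `W` and the point -/
theorem rt0 {f : ℝ → ℝ} {xA x1 vA v1 W w X : ℝ} (h : LinB f xA x1 vA v1)
    (hw : v1 = vA + (w - vA) * (x1 - xA) * (W - xA)⁻¹) (a : 0 < W - xA) (b : 0 < x1 - W)
    (hX : W ≤ X) (t : 0 < x1 - X) : f X = w + (w - vA) * (W - xA)⁻¹ * (X - W) :=
  mid_eq h hw a b (by linarith) (by linarith)

/-- one curve to the right of `W` -/
theorem rt1 {f : ℝ → ℝ} {xA x1 x2 vA v1 v2 W w X : ℝ} (h : LinB f xA x1 vA v1)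
    (h' : LinB f x1 x2 v1 v2) (hw : v1 = vA + (w - vA) * (x1 - xA) * (W - xA)⁻¹)
    (a : 0 < W - xA) (b : 0 < x1 - W) (hX : W ≤ X) (t : 0 < x2 - X) :
    f X = w + ((w - vA) * (W - xA)⁻¹ + ((v2 - v1) * (x2 - x1)⁻¹ - (w - vA) * (W - xA)⁻¹) *
      hng (X - W) (x1 - W)) * (X - W) := by
  have e := hng_eq (D := X - W) (d := x1 - W) b
  have e' : ((w - vA) * (W - xA)⁻¹ + ((v2 - v1) * (x2 - x1)⁻¹ - (w - vA) * (W - xA)⁻¹) *
      hng (X - W) (x1 - W)) * (X - W) = (w - vA) * (W - xA)⁻¹ * (X - W) +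
      ((v2 - v1) * (x2 - x1)⁻¹ - (w - vA) * (W - xA)⁻¹) * max (X - W - (x1 - W)) 0 := by
    rw [← e]
    ring
  rw [e']
  rcases le_total X x1 with g | g
  · rw [mid_eq h hw a b (by linarith) g, max_eq_right (by linarith)]
    ring
  · have m := mid_eq h hw a b (X := x1) (by linarith) le_rfl
    have m' := seg_r h' (X := x1) le_rfl (by linarith)
    rw [sub_self, mul_zero, add_zero] at m'
    rw [m'] at m
    rw [seg_r h' g (by linarith), max_eq_left (by linarith)]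
    linear_combination m

/-- two curves to the right of `W` -/
theorem rt2 {f : ℝ → ℝ} {xA x1 x2 x3 vA v1 v2 v3 W w X : ℝ} (h : LinB f xA x1 vA v1)
    (h' : LinB f x1 x2 v1 v2) (h'' : LinB f x2 x3 v2 v3)
    (hw : v1 = vA + (w - vA) * (x1 - xA) * (W - xA)⁻¹)
    (a : 0 < W - xA) (b : 0 < x1 - W) (c : 0 < x2 - x1) (hX : W ≤ X) (t : 0 < x3 - X) :
    f X = w + ((w - vA) * (W - xA)⁻¹ + ((v2 - v1) * (x2 - x1)⁻¹ - (w - vA) * (W - xA)⁻¹) *
      hng (X - W) (x1 - W) + ((v3 - v2) * (x3 - x2)⁻¹ - (v2 - v1) * (x2 - x1)⁻¹) *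
      hng (X - W) (x2 - W)) * (X - W) := by
  have e := hng_eq (D := X - W) (d := x2 - W) (by linarith)
  have hc : x2 - x1 ≠ 0 := c.ne'
  rcases le_total X x2 with g | g
  · rcases g.eq_or_lt with g' | g'
    · have e0 : hng (X - W) (x2 - W) * (X - W) = 0 := by
        rw [e, max_eq_right (by linarith)]
      -- at the curve itself
      have k1 : f X = v2 := by
        rw [seg_r h' (by linarith) g, g']
        field_simp
        ring
      have m := mid_eq h hw a b (X := x1) (by linarith) le_rfl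
      have m' := seg_r h' (X := x1) le_rfl (by linarith)
      rw [sub_self, mul_zero, add_zero] at m'
      rw [m'] at m
      have e1 := hng_eq (D := X - W) (d := x1 - W) b
      rw [max_eq_left (by linarith)] at e1
      rw [k1]
      have k2 : v2 = v1 + (v2 - v1) * (x2 - x1)⁻¹ * (X - x1) := by
        rw [g']
        field_simp
        ring
      linear_combination k2 + m - ((v2 - v1) * (x2 - x1)⁻¹ - (w - vA) * (W - xA)⁻¹) * e1 -
        ((v3 - v2) * (x3 - x2)⁻¹ - (v2 - v1) * (x2 - x1)⁻¹) * e0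
    · have r := rt1 h h' hw a b hX (by linarith : 0 < x2 - X)
      rw [max_eq_right (by linarith)] at e
      rw [r]
      linear_combination (-((v3 - v2) * (x3 - x2)⁻¹ - (v2 - v1) * (x2 - x1)⁻¹)) * e
  · have m := mid_eq h hw a b (X := x1) (by linarith) le_rfl
    have m' := seg_r h' (X := x1) le_rfl (by linarith)
    rw [sub_self, mul_zero, add_zero] at m'
    rw [m'] at m
    have e1 := hng_eq (D := X - W) (d := x1 - W) b
    rw [max_eq_left (by linarith)] at e1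
    rw [max_eq_left (by linarith)] at e
    have k2 : v2 = v1 + (v2 - v1) * (x2 - x1)⁻¹ * (x2 - x1) := by
      field_simp
      ring
    rw [seg_r h'' g (by linarith)]
    linear_combination k2 + m - ((v2 - v1) * (x2 - x1)⁻¹ - (w - vA) * (W - xA)⁻¹) * e1 -
        ((v3 - v2) * (x3 - x2)⁻¹ - (v2 - v1) * (x2 - x1)⁻¹) * e

/-- no curve between the point and `W` -/
theorem lf0 {f : ℝ → ℝ} {xA x1 vA v1 W w X : ℝ} (h : LinB f xA x1 vA v1)
    (hw : v1 = vA + (w - vA) * (x1 - xA) * (W - xA)⁻¹) (a : 0 < W - xA) (b : 0 < x1 - W)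
    (hX : X ≤ W) (t : 0 < X - xA) : f X = w + (w - vA) * (W - xA)⁻¹ * (X - W) :=
  mid_eq h hw a b (by linarith) (by linarith)

/-- one curve to the left of `W` -/
theorem lf1 {f : ℝ → ℝ} {xB xA x1 vB vA v1 W w X : ℝ} (h : LinB f xA x1 vA v1)
    (h' : LinB f xB xA vB vA) (hw : v1 = vA + (w - vA) * (x1 - xA) * (W - xA)⁻¹)
    (a : 0 < W - xA) (b : 0 < x1 - W) (c : 0 < xA - xB) (hX : X ≤ W) (t : 0 < X - xB) :
    f X = w + ((w - vA) * (W - xA)⁻¹ + ((vA - vB) * (xA - xB)⁻¹ - (w - vA) * (W - xA)⁻¹) *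
      hng (W - X) (W - xA)) * (X - W) := by
  have e := hng_eq (D := W - X) (d := W - xA) a
  have hWA : W - xA ≠ 0 := a.ne'
  rcases le_total xA X with g | g
  · rw [max_eq_right (by linarith)] at e
    rw [mid_eq h hw a b g (by linarith)]
    linear_combination ((vA - vB) * (xA - xB)⁻¹ - (w - vA) * (W - xA)⁻¹) * e
  · rw [max_eq_left (by linarith)] at e
    have k : w = vA + (w - vA) * (W - xA)⁻¹ * (W - xA) := by
      field_simp
      ring
    rw [seg_l h' c (by linarith) g]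
    linear_combination ((vA - vB) * (xA - xB)⁻¹ - (w - vA) * (W - xA)⁻¹) * e - k

/-- two curves to the left of `W` -/
theorem lf2 {f : ℝ → ℝ} {xC xB xA x1 vC vB vA v1 W w X : ℝ} (h : LinB f xA x1 vA v1)
    (h' : LinB f xB xA vB vA) (h'' : LinB f xC xB vC vB)
    (hw : v1 = vA + (w - vA) * (x1 - xA) * (W - xA)⁻¹)
    (a : 0 < W - xA) (b : 0 < x1 - W) (c : 0 < xA - xB) (d : 0 < xB - xC) (hX : X ≤ W)
    (t : 0 < X - xC) :
    f X = w + ((w - vA) * (W - xA)⁻¹ + ((vA - vB) * (xA - xB)⁻¹ - (w - vA) * (W - xA)⁻¹) *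
      hng (W - X) (W - xA) + ((vB - vC) * (xB - xC)⁻¹ - (vA - vB) * (xA - xB)⁻¹) *
      hng (W - X) (W - xB)) * (X - W) := by
  have e := hng_eq (D := W - X) (d := W - xB) (by linarith)
  have hWA : W - xA ≠ 0 := a.ne'
  have hAB : xA - xB ≠ 0 := c.ne'
  rcases lt_or_ge xB X with g | g
  · rw [max_eq_right (by linarith)] at e
    rw [lf1 h h' hw a b c hX (by linarith)]
    linear_combination ((vB - vC) * (xB - xC)⁻¹ - (vA - vB) * (xA - xB)⁻¹) * e
  · have e1 := hng_eq (D := W - X) (d := W - xA) a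
    rw [max_eq_left (by linarith)] at e e1
    have k : w = vA + (w - vA) * (W - xA)⁻¹ * (W - xA) := by
      field_simp
      ring
    have k2 : vA = vB + (vA - vB) * (xA - xB)⁻¹ * (xA - xB) := by
      field_simp
      ring
    rw [seg_l h'' d (by linarith) g]
    linear_combination ((vB - vC) * (xB - xC)⁻¹ - (vA - vB) * (xA - xB)⁻¹) * e +
      ((vA - vB) * (xA - xB)⁻¹ - (w - vA) * (W - xA)⁻¹) * e1 - k - k2

/-! ### Functions -/

/-- the slope between `A` and `W`; arguments height and `x` -/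
noncomputable def slF (W xA : Fn1) (w vA : Fn2) : Fn2 where
  t Y C := pmul (pnorm (psub (w.t Y C) (vA.t Y C))) (pinv (psub (W.t Y) (xA.t Y)))
  v y x := (w.v y x - vA.v y x) * (W.v y - xA.v y)⁻¹
  enc h1 h2 := enc_mul (enc_norm (enc_sub (w.enc h1 h2) (vA.enc h1 h2)))
    (enc_inv (enc_sub (W.enc h1) (xA.enc h1)))

/-- the slope between two curves -/
noncomputable def sgF (x1 x2 : Fn1) (v1 v2 : Fn2) : Fn2 where
  t Y C := pmul (pnorm (psub (v2.t Y C) (v1.t Y C))) (pinv (psub (x2.t Y) (x1.t Y)))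
  v y x := (v2.v y x - v1.v y x) * (x2.v y - x1.v y)⁻¹
  enc h1 h2 := enc_mul (enc_norm (enc_sub (v2.enc h1 h2) (v1.enc h1 h2)))
    (enc_inv (enc_sub (x2.enc h1) (x1.enc h1)))

/-- the hinge at the curve `xi`, to the right of `W` -/
noncomputable def hgR (W xi : Fn1) : Fn2 where
  t X Y := pmul (pps (psub (psub X (W.t Y)) (psub (xi.t Y) (W.t Y))))
    (pinv (pmax (psub X (W.t Y)) (psub (xi.t Y) (W.t Y))))
  v X y := hng (X - W.v y) (xi.v y - W.v y)
  enc h1 h2 := enc_mul (enc_pos (enc_sub (enc_sub h1 (W.enc h2)) (enc_sub (xi.enc h2) (W.enc h2))))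
    (enc_inv (enc_max (enc_sub h1 (W.enc h2)) (enc_sub (xi.enc h2) (W.enc h2))))

/-- the hinge at the curve `xi`, to the left of `W` -/
noncomputable def hgL (W xi : Fn1) : Fn2 where
  t X Y := pmul (pps (psub (psub (W.t Y) X) (psub (W.t Y) (xi.t Y))))
    (pinv (pmax (psub (W.t Y) X) (psub (W.t Y) (xi.t Y))))
  v X y := hng (W.v y - X) (W.v y - xi.v y)
  enc h1 h2 := enc_mul (enc_pos (enc_sub (enc_sub (W.enc h2) h1) (enc_sub (W.enc h2) (xi.enc h2))))
    (enc_inv (enc_max (enc_sub (W.enc h2) h1) (enc_sub (W.enc h2) (xi.enc h2))))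

/-- a slope without hinge as a function of the abscissa, the height and `x` -/
noncomputable def sl0 (s : Fn2) : Fn3 where
  t _ Y C := pnorm (s.t Y C)
  v _ y x := s.v y x
  enc _ h2 h3 := enc_norm (s.enc h2 h3)

/-- one hinge -/
noncomputable def sl1 (s s1 g1 : Fn2) : Fn3 where
  t X Y C := pnorm (padd (s.t Y C) (pmul (pnorm (psub (s1.t Y C) (s.t Y C))) (pnorm (g1.t X Y))))
  v X y x := s.v y x + (s1.v y x - s.v y x) * g1.v X y
  enc h1 h2 h3 := enc_norm (enc_add (s.enc h2 h3) (enc_mul (enc_norm (enc_sub (s1.enc h2 h3)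
    (s.enc h2 h3))) (enc_norm (g1.enc h1 h2))))

/-- two hinges -/
noncomputable def sl2 (s s1 s2 g1 g2 : Fn2) : Fn3 where
  t X Y C := pnorm (padd (padd (s.t Y C) (pmul (pnorm (psub (s1.t Y C) (s.t Y C)))
    (pnorm (g1.t X Y)))) (pmul (pnorm (psub (s2.t Y C) (s1.t Y C))) (pnorm (g2.t X Y))))
  v X y x := s.v y x + (s1.v y x - s.v y x) * g1.v X y + (s2.v y x - s1.v y x) * g2.v X y
  enc h1 h2 h3 := enc_norm (enc_add (enc_add (s.enc h2 h3) (enc_mul (enc_norm (enc_sub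
    (s1.enc h2 h3) (s.enc h2 h3))) (enc_norm (g1.enc h1 h2)))) (enc_mul (enc_norm (enc_sub
    (s2.enc h2 h3) (s1.enc h2 h3))) (enc_norm (g2.enc h1 h2))))

/-- the difference of two curves -/
noncomputable def tCC (a b : Fn1) : Fn3 where
  t _ Y _ := psub (a.t Y) (b.t Y)
  v _ y _ := a.v y - b.v y
  enc _ h2 _ := enc_sub (a.enc h2) (b.enc h2)

/-- a curve minus the abscissa -/
noncomputable def tCX (a : Fn1) : Fn3 where
  t X Y _ := psub (a.t Y) X
  v X y _ := a.v y - X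
  enc h1 h2 _ := enc_sub (a.enc h2) h1

/-- the abscissa minus a curve -/
noncomputable def tXC (a : Fn1) : Fn3 where
  t X Y _ := psub X (a.t Y)
  v X y _ := X - a.v y
  enc h1 h2 _ := enc_sub h1 (a.enc h2)

end Pool.Agent.Strip051.PB.Mol
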