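import Pool.Agent.Strip051.PB.MolK
import Pool.Agent.Strip051.PB.BridgeE
import Pool.Agent.Strip051.PB.FactB

/-! # The tight charts: from the facts about a table -/

namespace Pool.Agent.Strip051.PB.Mol

open Pool.Agent.StripNear Pool.Agent.StripSquare Pool.Agent.Strip051.Sweep
open Pool.Agent.Strip051.LC Pool.Agent.Strip051.LC.MolN
open Pool.Agent.Strip051.LC.Line (tau)

/-! ### The phase -/

theorem psn_def (y : ℝ) : 3 / 4 * y - c1n y / 2 = psn y := by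
  unfold psn
  ring

theorem psn_ge' {y lo r a : ℝ} (h0 : 0 ≤ lo) (h : lo ≤ y) (h1 : y < 1) (hr : 0 ≤ r)
    (hr2 : 1 - 3 / 4 * lo ^ 2 ≤ r ^ 2) (ha : a ≤ 3 / 4 * lo - r / 2) : a ≤ psn y := by
  have e := psn_le h0 h (by nlinarith)
  have k : c1n lo ≤ r := by
    unfold c1n
    exact Real.sqrt_le_iff.2 ⟨hr, hr2⟩
  have : psn lo = 3 / 4 * lo - c1n lo / 2 := (psn_def lo).symm
  linarith

theorem psn_le' {y hi r a : ℝ} (h0 : 0 ≤ y) (h : y ≤ hi) (h1 : hi < 1) (hr : 0 ≤ r)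
    (hr2 : r ^ 2 ≤ 1 - 3 / 4 * hi ^ 2) (ha : 3 / 4 * hi - r / 2 ≤ a) : psn y ≤ a := by
  have e := psn_le h0 h (by nlinarith)
  have k : r ≤ c1n hi := by
    unfold c1n
    exact Real.le_sqrt_of_sq_le hr2
  have : psn hi = 3 / 4 * hi - c1n hi / 2 := (psn_def hi).symm
  linarith

theorem c1n_ge {y hi r : ℝ} (h0 : 0 ≤ y) (h : y ≤ hi) (hr2 : r ^ 2 ≤ 1 - 3 / 4 * hi ^ 2) :
    r ≤ c1n y := by
  unfold c1n
  exact Real.le_sqrt_of_sq_le (by nlinarith)

theorem c1n_le' {y z : ℝ} (h0 : 0 ≤ y) (h : y ≤ z) : c1n z ≤ c1n y := by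
  unfold c1n
  exact Real.sqrt_le_sqrt (by nlinarith)

theorem c1n_half {b : ℝ} (hb : 0 ≤ b) : c1n (1 + b) ≤ 1 / 2 := by
  have := c1n_le' (y := 1) (z := 1 + b) (by norm_num) (by linarith)
  rwa [c1n_one] at this

theorem c1n_half' {b : ℝ} (hb : b ≤ 0) (h1 : -1 ≤ b) : 1 / 2 ≤ c1n (1 + b) := by
  have := c1n_le' (y := 1 + b) (z := 1) (by linarith) (by linarith)
  rwa [c1n_one] at this

theorem psn_half {b : ℝ} (hb : b ≤ 0) (h1 : -1 ≤ b) : psn (1 + b) ≤ 1 / 2 := by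
  have := psn_le (y := 1 + b) (z := 1) (by linarith) (by linarith) (by norm_num)
  have e : psn 1 = 1 / 2 := by
    unfold psn
    rw [c1n_one]
    norm_num
  rwa [e] at this

theorem swn_c (y : ℝ) : swn y = c1n (y - 1) := rfl

theorem c1n_neg (y : ℝ) : c1n (-y) = c1n y := by
  unfold c1n
  rw [neg_sq]

theorem swn_c' (y : ℝ) : swn y = c1n (1 - y) := by
  rw [swn_c, ← c1n_neg, neg_sub]

/-- the phase of the third side in closed form -/
theorem y_psn (y : ℝ) : 4 / 3 * (psn y + c1n y / 2) = y := by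
  unfold psn
  ring

theorem y_psn' (y : ℝ) : 2 / 3 * (psn y + c1n y / 2) = y / 2 := by
  unfold psn
  ring

/-! ### Identities on the middle curve; `i` is the inverse of the abscissa -/

theorem ci_one {z : ℝ} (h : z ^ 2 < 4 / 3) : (c1n z)⁻¹ * c1n z = 1 :=
  inv_mul_cancel₀ (c1n_pos' h).ne'

theorem wK2 (z : ℝ) : (z / 2 - 3 / 4 * z ^ 2 * (c1n z)⁻¹) * (2 * (z / 2 + c1n z - 1))⁻¹ =
    z * cG z / 2 := by
  rw [cG_eq, mul_inv]
  ring

theorem wK3 {z : ℝ} (h : z ^ 2 < 4 / 3) : (c1n z / 2 - 3 / 4 * z -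
    (1 / 4 - 3 / 8 * (z * (c1n z)⁻¹))) * (z / 2 + c1n z - 1)⁻¹ = (c1n z - 1 / 2) * cG z := by
  have i := ci_one h
  rw [cG_eq]
  linear_combination (3 / 4 * z * (z / 2 + c1n z - 1)⁻¹) * i

theorem wK0 {z : ℝ} (h : z ^ 2 < 4 / 3) : (3 / 4 * z - c1n z / 2 -
    (1 / 4 - 3 / 8 * (z * (c1n z)⁻¹))) * (z / 2 + c1n z - 1)⁻¹ = -((c1n z + 1 / 2) * cG z) := by
  have i := ci_one h
  rw [cG_eq]
  linear_combination (-(3 / 4 * z * (z / 2 + c1n z - 1)⁻¹)) * i

theorem cD_eq (z : ℝ) : cD z = 9 / 8 * (z * (c1n z)⁻¹) + 3 / 4 := by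
  unfold cD
  ring

/-- the second kernel without the correction -/
theorem cP_eq {z : ℝ} (h : z ^ 2 < 4 / 3) :
    cP z = 3 / 4 + 3 / 2 * z + 3 / 4 * (z * (c1n z)⁻¹) * cR z := by
  have i := ci_one h
  unfold cP
  rw [cD_eq]
  have e : z / c1n z = z * (c1n z)⁻¹ := div_eq_mul_inv _ _
  rw [e]
  unfold cR
  linear_combination (9 / 8 * z) * i

/-- the quotient of the excess of the rhombus -/
theorem cQR {z : ℝ} (h : z ^ 2 ≤ 4 / 3) :
    (1 - c1n z) * (2 * c1n z - 1) = (z / 2 + c1n z - 1) * cR z := by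
  have hc := c1n_sq' h
  unfold cR
  linear_combination (-(1 / 2)) * hc

theorem wD2 {z : ℝ} (h0 : 0 < z) (h1 : z < 1) : (3 / 4 * z ^ 2 * (c1n z)⁻¹ * (4 * c1n z - 3) *
    (z / 2 + c1n z - 1) - (1 - c1n z) * (2 * c1n z - 1) * (z / 2 - 3 / 4 * z ^ 2 * (c1n z)⁻¹)) *
    (2 * (z / 2 + c1n z - 1) * (z / 2 + c1n z - 1))⁻¹ = z * cD z / 2 := by
  have h : z ^ 2 < 4 / 3 := by nlinarith
  have i := ci_one h
  have hE := e_pos h0 h1
  have hEE := mul_inv_cancel₀ hE.ne'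
  rw [cQR h.le, cD_eq, mul_inv, mul_inv]
  unfold cR
  generalize (z / 2 + c1n z - 1)⁻¹ = v at *
  linear_combination (z * (9 / 8 * (z * (c1n z)⁻¹) + 3 / 4) / 2 *
    ((z / 2 + c1n z - 1) * v + 1)) * hEE + ((z / 2 + c1n z - 1) * v * v / 2 * (3 / 4 * z ^ 2)) * i

theorem wD3 {z : ℝ} (h0 : 0 < z) (h1 : z < 1) : (3 / 4 * (z * (c1n z)⁻¹) * (4 * c1n z - 3) *
    (z / 2 + c1n z - 1) - (1 - c1n z) * (2 * c1n z - 1) * (1 / 2 - 3 / 4 * (z * (c1n z)⁻¹))) *
    (2 * (z / 2 + c1n z - 1) * (z / 2 + c1n z - 1))⁻¹ = cD z / 2 := by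
  have e := wD2 h0 h1
  refine mul_left_cancel₀ h0.ne' ?_
  linear_combination e

/-! ### The difference quotients -/

theorem dqf_ok {kc : Fn2} {dq : Fn3} {lo hi x : ℝ}
    (h : DqF (fun p => kc.v p x) (fun p p' => dq.v p p' x) lo hi) : DqOk kc dq lo hi x := h

/-! ### The middle curve in the variable of the short edge -/

theorem w3W_A (z : ℝ) : (w3W false).v (1 + z) = c1n z - 1 / 2 := by
  simp only [w3W, zf, hfs, cond_false, add_sub_cancel_left]
  ring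

theorem w3W_B (z : ℝ) : (w3W true).v (1 - z) = c1n z + 1 / 2 := by
  simp only [w3W, zf, hfs, cond_true, sub_sub_cancel]

theorem w3K_A (j : ℕ) (kc : Fn2) (z x : ℝ) : (w3K false j kc).v (1 + z) x =
    ((c1n z - 1 / 2) * cG z + kc.v (psn z) x) * (1 + z - j) := by
  simp only [w3K, cwK, zf, hfs, kcz, cond_false, add_sub_cancel_left]
  ring

theorem w3K_B (j : ℕ) (kc : Fn2) (z x : ℝ) : (w3K true j kc).v (1 - z) x =
    -(((c1n z + 1 / 2) * cG z + kc.v (psn z) x) * (1 - z - j)) := by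
  simp only [w3K, cwK, zf, hfs, kcz, cond_true, sub_sub_cancel]

theorem w3D_A (j : ℕ) (kc : Fn2) (z x : ℝ) : (w3D false j kc).v (1 + z) x =
    (cP z - 1 / 2 * cD z - (cR z + 2 * c1n z - 1) * kc.v (psn z) x) * (1 + z - j) := by
  simp only [w3D, cwD, zf, hfs, kcz, cond_false, add_sub_cancel_left]
  ring

theorem w3D_B (j : ℕ) (kc : Fn2) (z x : ℝ) : (w3D true j kc).v (1 - z) x =
    -((cP z + 1 / 2 * cD z - (cR z + 2 * c1n z + 1) * kc.v (psn z) x) * (1 - z - j)) := by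
  simp only [w3D, cwD, zf, hfs, kcz, cond_true, sub_sub_cancel]
  ring

theorem w3Q_A (kc : Fn2) (z x : ℝ) : (w3Q false kc).v (1 + z) x = cQ x z (kc.v (psn z) x) := by
  simp only [w3Q, cwQ, zf, cond_false, add_sub_cancel_left]

theorem w3Q_B (kc : Fn2) (z x : ℝ) : (w3Q true kc).v (1 - z) x = cQ x z (kc.v (psn z) x) := by
  simp only [w3Q, cwQ, zf, cond_true, sub_sub_cancel]

/-! ### The phases -/

theorem t1_0 {y : ℝ} (h : InQ 0 y) : tau (h0 * y) = h0 * y := by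
  rw [tau_q h]
  simp [jq]

theorem t1_1 {y : ℝ} (h : InQ 1 y) : tau (h0 * y) = h0 * (y - 1) := by
  rw [tau_q h]
  simp [jq]

theorem t3A2 {u b x : ℝ} (h : InQ 2 (x + u + (1 + b))) :
    tau (h0 * (x + u) + h0 * (1 + b)) = h0 * (x + u + b) := by
  rw [← mul_add, tau_q h]
  simp only [jq]
  ring

theorem t3A3 {u b x : ℝ} (h : InQ 3 (x + u + (1 + b))) :
    tau (h0 * (x + u) + h0 * (1 + b)) = h0 * -(1 - (x + u + b)) := by
  rw [← mul_add, tau_q h]
  simp only [jq]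
  ring

theorem t3B1 {u b x y' : ℝ} (h : InQ 1 y') (hy : y' = 1 + b - (x + u)) :
    tau (h0 * y') = h0 * -(x + u - b) := by
  rw [tau_q h, hy]
  simp only [jq]
  ring

theorem t3B0 {u b x y' : ℝ} (h : InQ 0 y') (hy : y' = 1 + b - (x + u)) :
    tau (h0 * y') = h0 * (1 - (x + u - b)) := by
  rw [tau_q h, hy]
  simp only [jq]
  ring

theorem mun_ne (x : ℝ) : mun 3 x ≠ 0 := by
  have := c1n_nn x
  unfold mun
  positivity

theorem div_mun {f g c x : ℝ} : f = c * g + mun 3 x * ((f - c * g) / mun 3 x) := by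
  rw [mul_div_cancel₀ _ (mun_ne x)]
  ring

theorem c1n_lt {y z : ℝ} (h0 : 0 ≤ y) (h : y < z) (h1 : z ^ 2 < 4 / 3) : c1n z < c1n y := by
  unfold c1n
  exact Real.sqrt_lt_sqrt (by linarith) (by nlinarith)

theorem qqn_neg (X Y : ℝ) : qqn (-X) Y = qqn X Y := by
  unfold qqn
  ring

/-! ### The reflection -/

theorem factsA_mirror {n : ℕ} {P : Pos n} {a b c : ℕ} {j k : Fin (n + 1)} {σ σ' y y' : ℝ}
    (F : FactsA P a b c j k σ σ' y y') : FactsA P b a c k j (-σ') (-σ) y' y := by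
  refine ⟨F.q2, F.q1, ?_, ?_, ?_, ?_, F.k0, F.j0⟩
  · rw [add_comm]
    exact F.q3
  · have e : -σ' * crv P k b y' + -σ * crv P j a y =
        -(σ * crv P j a y + σ' * crv P k b y') := by ring
    rw [e, qqn_neg, add_comm y' y]
    exact F.len1
  · have e : -σ' * crv P k b y' + -σ * crv P j a y =
        -(σ * crv P j a y + σ' * crv P k b y') := by ring
    rw [e, qqn_neg, add_comm y' y]
    exact F.len3
  · have h := F.exc
    rw [← exn'_mirror] at h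
    have e1 : σ * crv P j a y - (σ * crv P j a y + σ' * crv P k b y') = -σ' * crv P k b y' := by
      ring
    have e2 : -(σ * crv P j a y + σ' * crv P k b y') =
        -σ' * crv P k b y' + -σ * crv P j a y := by ring
    rw [e1, e2] at h
    exact h

/-! ### Segments of the third side -/

/-- The values on the third side between two curves are linear. -/
theorem linT {n : ℕ} {P : Pos n} {R : Fin (n + 1) → ℕ → ℝ → ℝ → ℝ} {x : ℝ} (h : Pins P R x)
    {T : ℝ → ℝ} {q : ℕ} {y : ℝ} (hq : InQ q y)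
    (hT : ∀ X, 1 ≤ qqn X y → qqn X y ≤ 3 → thd P R q X y x = T X) (i : Fin n)
    {x0 x1 v0 v1 : ℝ} (e0 : crv P i.castSucc q y = x0) (e1 : crv P i.succ q y = x1)
    (w0 : R i.castSucc q y x = v0) (w1 : R i.succ q y x = v1) : LinB T x0 x1 v0 v1 := by
  have hp := h0_pos
  have y0 := hq.nonneg
  have y2 := hq.le_two
  have hT0 : 0 ≤ h0 * y := mul_nonneg hp.le y0
  have hs : (h0 * y) ^ 2 = 3 / 4 * y ^ 2 := by
    rw [mul_pow, h0_sq]
  have hT3 : (h0 * y) ^ 2 ≤ 3 := by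
    rw [hs]
    nlinarith
  have l0 := P.low i.castSucc hT0 hT3
  have l1 := P.high i.succ hT0 hT3
  rw [show P.cv i.castSucc (h0 * y) = crv P i.castSucc q y from linkX P _ q y hq, e0, c1_n] at l0
  rw [show P.cv i.succ (h0 * y) = crv P i.succ q y from linkX P _ q y hq, e1, c3_n] at l1
  intro X a b
  have c0 : 0 ≤ c1n y := c1n_nn y
  have X0 : 0 ≤ X := by linarith
  have k1 : 1 ≤ qqn X y := by
    have hx : c1n y ≤ X := by linarith
    unfold qqn
    unfold c1n at hx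
    have := Real.sqrt_le_left X0 |>.1 hx
    linarith
  have k3 : qqn X y ≤ 3 := by
    have hx : X ≤ c3n y := by linarith
    unfold qqn
    unfold c3n at hx
    have := (Real.le_sqrt X0 (by nlinarith)).1 hx
    linarith
  rw [← hT X k1 k3, ← w0, ← w1, ← e0, ← e1]
  exact seg_pins h hq i k1 k3 (by rwa [e0]) (by rwa [e1])

end Pool.Agent.Strip051.PB.Mol
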