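import Pool.Agent.Strip051.PB.MolY
import Pool.Agent.Strip051.PB.MolV
import Pool.Agent.Strip051.PB.AltE
import Pool.Agent.Strip051.PB.FactE

/-! # The tight charts for both vertices as alternatives of a cut -/

namespace Pool.Agent.Strip051.PB.Mol

open Pool.Agent.StripNear Pool.Agent.StripSquare Pool.Agent.Strip051.Sweep
open Pool.Agent.Strip051.LC Pool.Agent.Strip051.PB

/-- A multiple of an interpolation. -/
theorem linB_mul {f : ℝ → ℝ} {x0 x1 v0 v1 : ℝ} (m : ℝ) (h : LinB f x0 x1 v0 v1) :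
    LinB (fun X => f X * m) x0 x1 (v0 * m) (v1 * m) := by
  intro X h0 h1
  simp only
  rw [h X h0 h1]
  ring

/-- The value on the third side without the factor of the phase variable. -/
theorem div_it {p W S d τ i : ℝ} (h : p * τ = W * τ + S * d) (hi : i * τ = 1) :
    p = W + i * S * d := by
  linear_combination i * h + (W - p) * hi

theorem div_it' {p W S d τ i : ℝ} (h : p * τ = -(W * τ) + S * d) (hi : i * τ = 1) :
    -p = W - i * S * d := by
  linear_combination (-i) * h + (p + W) * hi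

section

variable {n N0 : ℕ} {κ E o : ℝ} {f : ℝ → ℝ} {P : Pos n} {RK RL RC : Fin (n + 1) → ℕ → ℝ → ℝ → ℝ}
  {pc : ℕ → Piece} {pd : ℕ → Fn3} {a b c : ℕ} {j k : Fin (n + 1)} {σ σ' x y y' th : ℝ}
  {u v w : ℕ}

/-- The direct statement at both vertices for a triangle of the family `A`. -/
def DirEA (th κ : ℝ) (P : Pos n) (RK RL RC : Fin (n + 1) → ℕ → ℝ → ℝ → ℝ) (pc : ℕ → Piece)
    (pd : ℕ → Fn3) (a b c : ℕ) (j k : Fin (n + 1)) (σ σ' x y y' : ℝ) : Prop :=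
  DirE th κ x y y' (exA P a b j k σ σ' y y')
    (vlA P RK (fun q => (pc q).K.v) a b c j k σ σ' x y y')
    (vlA P RL (fun q => (pc q).L.v) a b c j k σ σ' x y y')
    (dimC (vlA P RC (fun q => (pd q).v) a b c j k σ σ' x y y'))

/-- The direct statement at both vertices for a triangle of the family `B`. -/
def DirEB (th κ : ℝ) (P : Pos n) (RK RL RC : Fin (n + 1) → ℕ → ℝ → ℝ → ℝ) (pc : ℕ → Piece)
    (pd : ℕ → Fn3) (a b c : ℕ) (j k : Fin (n + 1)) (σ σ' x y y' : ℝ) : Prop :=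
  DirE th κ x y y' (exB P a c j k σ σ' y y')
    (vlB P RK (fun q => (pc q).K.v) a b c j k σ σ' x y y')
    (vlB P RL (fun q => (pc q).L.v) a b c j k σ σ' x y y')
    (dimC (vlB P RC (fun q => (pd q).v) a b c j k σ σ' x y y'))

theorem DirEA.st (hE : E = 1 + mun 3 x * cR x)
    (H : DirEA th κ P RK RL RC pc pd a b c j k σ σ' x y y') :
    StEA 3 κ E o (tnt (h0 * x) th) P RK RL RC pc pd a b c j k σ σ' x y y' :=
  Or.inr ⟨H.1, by rw [hE]; exact H.2⟩

theorem DirEB.st (hE : E = 1 + mun 3 x * cR x)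
    (H : DirEB th κ P RK RL RC pc pd a b c j k σ σ' x y y') :
    StEB 3 κ E o (tnt (h0 * x) th) P RK RL RC pc pd a b c j k σ σ' x y y' :=
  Or.inr ⟨H.1, by rw [hE]; exact H.2⟩

/-- The mirror image. -/
theorem DirEA.mir (hE : E = 1 + mun 3 x * cR x) (h : SideOk P RK RL pc x)
    (hC : ThrOk P RC pd x) (F : FactsA P a b c j k σ σ' y y')
    (hX : σ * crv P j a y + σ' * crv P k b y' ≠ 0) (x0 : 0 < x) (x1 : x < 1)
    (t0 : 0 < th) (t1 : th ≤ 1)
    (H : DirEA th κ P RK RL RC pc pd b a c k j (-σ') (-σ) x y' y) :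
    StEA 3 κ E o (tnt (h0 * x) th) P RK RL RC pc pd a b c j k σ σ' x y y' := by
  have hp := h0_pos
  refine StEA.mir h hC F hX x0.le x1
    (tnt_denOk t0 t1 (mul_pos hp x0) (by nlinarith)).mir ⟨H.1, ?_⟩
  rw [hE]
  exact H.2

theorem altEA_s (H : ∀ y y', FactsA P a b c j k σ σ' y y' → |y - x| < (u : ℝ) / 1073741824 →
    |y' - 1| < (v : ℝ) / 1073741824 → |y + y' - (1 + x)| < (w : ℝ) / 1073741824 →
    StEA N0 κ E o f P RK RL RC pc pd a b c j k σ σ' x y y') :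
    AltEA N0 κ E o f P RK RL RC pc pd [⟨0, 0, 1, u⟩, ⟨1, 1, 0, v⟩, ⟨2, 1, 1, w⟩]
      a b c j k σ σ' x := by
  intro y y' F h
  have h1 := h ⟨0, 0, 1, u⟩ (by simp)
  have h2 := h ⟨1, 1, 0, v⟩ (by simp)
  have h3 := h ⟨2, 1, 1, w⟩ (by simp)
  simp only [Cc.P, Cc.cen, Nat.cast_zero, Nat.cast_one, zero_add] at h1 h2 h3
  exact H y y' F h1 h2 h3

theorem altEA_m (H : ∀ y y', FactsA P a b c j k σ σ' y y' → |y - 1| < (v : ℝ) / 1073741824 →
    |y' - x| < (u : ℝ) / 1073741824 → |y + y' - (1 + x)| < (w : ℝ) / 1073741824 →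
    StEA N0 κ E o f P RK RL RC pc pd a b c j k σ σ' x y y') :
    AltEA N0 κ E o f P RK RL RC pc pd [⟨0, 1, 0, v⟩, ⟨1, 0, 1, u⟩, ⟨2, 1, 1, w⟩]
      a b c j k σ σ' x := by
  intro y y' F h
  have h1 := h ⟨0, 1, 0, v⟩ (by simp)
  have h2 := h ⟨1, 0, 1, u⟩ (by simp)
  have h3 := h ⟨2, 1, 1, w⟩ (by simp)
  simp only [Cc.P, Cc.cen, Nat.cast_zero, Nat.cast_one, zero_add] at h1 h2 h3
  exact H y y' F h1 h2 h3

theorem altEB_s (H : ∀ y y', FactsB P a b c j k σ σ' y y' → |y - x| < (u : ℝ) / 1073741824 →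
    |y' - (1 - x)| < (w : ℝ) / 1073741824 → |y + y' - 1| < (v : ℝ) / 1073741824 →
    StEB N0 κ E o f P RK RL RC pc pd a b c j k σ σ' x y y') :
    AltEB N0 κ E o f P RK RL RC pc pd [⟨0, 0, 1, u⟩, ⟨1, 1, 2, w⟩, ⟨2, 1, 0, v⟩]
      a b c j k σ σ' x := by
  intro y y' F h
  have h1 := h ⟨0, 0, 1, u⟩ (by simp)
  have h2 := h ⟨1, 1, 2, w⟩ (by simp)
  have h3 := h ⟨2, 1, 0, v⟩ (by simp)
  simp only [Cc.P, Cc.cen, Nat.cast_zero, Nat.cast_one, zero_add] at h1 h2 h3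
  exact H y y' F h1 h2 h3

end

end Pool.Agent.Strip051.PB.Mol
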