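import Pool.Agent.Strip051.PB.MolS

/-! # The tight charts: the values on the middle curve as functions -/

namespace Pool.Agent.Strip051.PB.Mol

open Pool.Agent.StripNear Pool.Agent.StripSquare Pool.Agent.Strip051.Sweep
open Pool.Agent.Strip051.LC Pool.Agent.Strip051.LC.MolN
open Pool.Agent.Strip051.LC.Line (tau)

attribute [local irreducible] padd psub pneg pmul psq pinv psqrt psqrtg pabs pps pmax pmin pphi plam
  pcase phf pnat prat pscale pnorm pdc pnc pone ppos pnn Enc pzero

/-- the quotient of height and abscissa, times 3/4 -/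
noncomputable def zcf : Fn1 where
  t Z := pscale 3 4 (pmul Z (pinv (c1f.t Z)))
  v z := 3 / 4 * (z / c1n z)
  enc h := encc (enc_scale 3 4 (enc_mul h (enc_inv (c1f.enc h)))) (by
    unfold c1f
    push_cast
    ring)

/-- the excess -/
noncomputable def exf : Fn1 where
  t Z := pnorm (padd (phf Z) (psub (c1f.t Z) pone))
  v z := z / 2 + c1n z - 1
  enc h := encc (enc_norm (enc_add (enc_half h) (enc_sub (c1f.enc h) (enc_one _)))) (by
    unfold c1f
    ring)

noncomputable def cGf : Fn1 where
  t Z := pmul (pnorm (psub (prat 1 2) (zcf.t Z))) (pinv (exf.t Z))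
  v := cG
  enc h := encc (enc_mul (enc_norm (enc_sub (enc_rat _ 1 2) (zcf.enc h))) (enc_inv (exf.enc h)))
    (by
      unfold cG zcf exf
      push_cast
      ring)

noncomputable def cRf : Fn1 where
  t Z := pnorm (padd (pscale 3 4 Z) (pscale 3 2 (psub pone (c1f.t Z))))
  v := cR
  enc h := encc (enc_norm (enc_add (enc_scale 3 4 h) (enc_scale 3 2 (enc_sub (enc_one _)
    (c1f.enc h))))) (by
      unfold cR c1f
      push_cast
      ring)

noncomputable def cDf : Fn1 where
  t Z := pnorm (padd (pscale 3 2 (zcf.t Z)) (prat 3 4))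
  v := cD
  enc h := encc (enc_norm (enc_add (enc_scale 3 2 (zcf.enc h)) (enc_rat _ 3 4))) (by
      unfold cD zcf
      push_cast
      ring)

noncomputable def cPf : Fn1 where
  t Z := pnorm (padd (pmul (c1f.t Z) (cDf.t Z)) (pmul (cRf.t Z) (pnorm (padd (zcf.t Z)
    (prat 1 2)))))
  v := cP
  enc h := encc (enc_norm (enc_add (enc_mul (c1f.enc h) (cDf.enc h)) (enc_mul (cRf.enc h)
    (enc_norm (enc_add (zcf.enc h) (enc_rat _ 1 2)))))) (by
      unfold cP cDf cRf zcf c1f
      push_cast
      ring)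

/-- the correction at the height `z` -/
noncomputable def kcz (kc : Fn2) : Fn2 where
  t Z C := kc.t (psp Z (c1f.t Z)) C
  v z x := kc.v (psn z) x
  enc h h' := kc.enc (enc_psp h (c1f.enc h)) h'

/-- the sign of the half -/
noncomputable def hfs (s : Bool) : ℝ := cond s (1 / 2) (-(1 / 2))

noncomputable def hft (s : Bool) : ℕ := Bool.rec (motive := fun _ => ℕ) (pneg (prat 1 2)) (prat 1 2) s

theorem enc_hft (E : Pt) (s : Bool) : Enc E (hft s) (hfs s) := by
  cases s
  · exact encc (enc_neg (enc_rat E 1 2)) (by norm_num [hfs])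
  · exact encc (enc_rat E 1 2) (by norm_num [hfs])

/-- the kernel on the middle curve, divided by the phase variable -/
noncomputable def cwK (s : Bool) (kc : Fn2) : Fn2 where
  t Z C := pnorm (padd (pmul (pnorm (padd (c1f.t Z) (hft s))) (cGf.t Z)) ((kcz kc).t Z C))
  v z x := (c1n z + hfs s) * cG z + kc.v (psn z) x
  enc h h' := enc_norm (enc_add (enc_mul (enc_norm (enc_add (c1f.enc h) (enc_hft _ s)))
    (cGf.enc h)) ((kcz kc).enc h h'))

/-- the second kernel on the middle curve, divided by the phase variable -/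
noncomputable def cwD (s : Bool) (kc : Fn2) : Fn2 where
  t Z C := pnorm (psub (padd (cPf.t Z) (pmul (hft s) (cDf.t Z))) (pmul (pnorm (padd (cRf.t Z)
    (pnat 2 (padd (c1f.t Z) (hft s))))) ((kcz kc).t Z C)))
  v z x := cP z + hfs s * cD z - (cR z + 2 * (c1n z + hfs s)) * kc.v (psn z) x
  enc h h' := encc (enc_norm (enc_sub (enc_add (cPf.enc h) (enc_mul (enc_hft _ s) (cDf.enc h)))
    (enc_mul (enc_norm (enc_add (cRf.enc h) (enc_nat 2 (enc_add (c1f.enc h) (enc_hft _ s)))))
      ((kcz kc).enc h h')))) (by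
      unfold kcz c1f cPf cDf cRf
      push_cast
      ring)

/-- the level on a tight edge -/
noncomputable def cwQ (kc : Fn2) : Fn2 where
  t Z C := pnorm (psub (pmul (pnorm (psub pone (c1f.t Z))) (pnorm (psub (pnat 2 (c1f.t Z)) pone)))
    (pmul (pnat 2 (pmul (exf.t Z) ((kcz kc).t Z C))) (pnorm (psub Z C))))
  v z x := cQ x z (kc.v (psn z) x)
  enc h h' := encc (enc_norm (enc_sub (enc_mul (enc_norm (enc_sub (enc_one _) (c1f.enc h)))
    (enc_norm (enc_sub (enc_nat 2 (c1f.enc h)) (enc_one _)))) (enc_mul (enc_nat 2 (enc_mul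
      (exf.enc h) ((kcz kc).enc h h'))) (enc_norm (enc_sub h h'))))) (by
      unfold cQ kcz c1f exf
      push_cast
      ring)

/-- `Y - 1`, `1 - Y` -/
noncomputable def zf (s : Bool) : Fn1 where
  t Y := Bool.rec (motive := fun _ => ℕ) (pnorm (psub Y pone)) (pnorm (psub pone Y)) s
  v y := cond s (1 - y) (y - 1)
  enc h := by
    cases s
    · exact enc_norm (enc_sub h (enc_one _))
    · exact enc_norm (enc_sub (enc_one _) h)

/-- the kernel on the middle curve at the height `Y`; `s = false`: above one -/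
noncomputable def w3K (s : Bool) (j : ℕ) (kc : Fn2) : Fn2 where
  t Y C := Bool.rec (motive := fun _ => ℕ)
    (pnorm (pmul ((cwK s kc).t ((zf s).t Y) C) (dj j Y)))
    (pnorm (pneg (pmul ((cwK s kc).t ((zf s).t Y) C) (dj j Y)))) s
  v y x := cond s (-((cwK s kc).v ((zf s).v y) x * (y - j)))
    ((cwK s kc).v ((zf s).v y) x * (y - j))
  enc h h' := by
    cases s
    · exact enc_norm (enc_mul ((cwK false kc).enc ((zf false).enc h) h') (enc_dj j h))
    · exact enc_norm (enc_neg (enc_mul ((cwK true kc).enc ((zf true).enc h) h') (enc_dj j h)))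

/-- the second kernel on the middle curve at the height `Y` -/
noncomputable def w3D (s : Bool) (j : ℕ) (kc : Fn2) : Fn2 where
  t Y C := Bool.rec (motive := fun _ => ℕ)
    (pnorm (pmul ((cwD s kc).t ((zf s).t Y) C) (dj j Y)))
    (pnorm (pneg (pmul ((cwD s kc).t ((zf s).t Y) C) (dj j Y)))) s
  v y x := cond s (-((cwD s kc).v ((zf s).v y) x * (y - j)))
    ((cwD s kc).v ((zf s).v y) x * (y - j))
  enc h h' := by
    cases s
    · exact enc_norm (enc_mul ((cwD false kc).enc ((zf false).enc h) h') (enc_dj j h))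
    · exact enc_norm (enc_neg (enc_mul ((cwD true kc).enc ((zf true).enc h) h') (enc_dj j h)))

/-- the level on the middle curve at the height `Y` -/
noncomputable def w3Q (s : Bool) (kc : Fn2) : Fn2 where
  t Y C := (cwQ kc).t ((zf s).t Y) C
  v y x := (cwQ kc).v ((zf s).v y) x
  enc h h' := (cwQ kc).enc ((zf s).enc h) h'

/-- the middle curve at the height `Y` -/
noncomputable def w3W (s : Bool) : Fn1 where
  t Y := padd (c1f.t ((zf s).t Y)) (hft s)
  v y := c1n ((zf s).v y) + hfs s
  enc h := enc_add (c1f.enc ((zf s).enc h)) (enc_hft _ s)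

end Pool.Agent.Strip051.PB.Mol
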