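import Pool.Agent.Strip051.PB.MolRw

/-! # A function of the height of the table, times minus two -/

namespace Pool.Agent.Strip051.PB.Mol

open Pool.Agent.Strip051.PB

/-- `x ↦ -2 f x` -/
noncomputable def m2F (f : Fn1) : Fn1 where
  t C := pneg (pnat 2 (f.t C))
  v x := -(2 * f.v x)
  enc h := by simpa using enc_neg (enc_nat 2 (f.enc h))

end Pool.Agent.Strip051.PB.Mol
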