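import Pool.Agent.Strip051.PB.MolF
import Pool.Agent.Strip051.LC.Exact.MolN8

/-! # The charts of the tight triangles in the packed arithmetic, negative difference (generated) -/

set_option linter.unusedVariables false

namespace Pool.Agent.Strip051.PB.Mol

open Pool.Agent.Strip051.PB Pool.Agent.Strip051.LC.MolN

theorem e3Ap_n0 (T : MolP) {u b x : ℝ} :
    -((u) * (n2169 T u b x) + (b) * (n2177 T u b x)) =
      -(n2229 T u b x) := by
  have e := imW3Ap T (u := u) (b := b) (x := x)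
  linear_combination -e

theorem e3Ap_n1 (T : MolP) {u b x : ℝ} :
    (n205 T u b x) * ((n2153 T u b x) * (n2169 T u b x + (b) * (n2160 T u b x)) + (n2150 T u b x) * (n2170 T u b x)) - (n15 T u b x) * ((n2164 T u b x) * ((u) * (n2169 T u b x) + (b) * (n2177 T u b x)) + (n2178 T u b x) * (n2169 T u b x + (b) * (n2160 T u b x)) + (n2161 T u b x) * ((u) * (n2167 T u b x) + n2177 T u b x) + (n2184 T u b x) * (n2170 T u b x)) =
      n2201 T u b x := by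
  have e := imN3Ap T (u := u) (b := b) (x := x)
  linear_combination e

theorem e3Ap_n2 (T : MolP) {u b x : ℝ} :
    n2231 T u b x + (b) * ((n205 T u b x) * ((n2153 T u b x) * (n2169 T u b x + (b) * (n2160 T u b x)) + (n2150 T u b x) * (n2170 T u b x)) - (n15 T u b x) * ((n2164 T u b x) * ((u) * (n2169 T u b x) + (b) * (n2177 T u b x)) + (n2178 T u b x) * (n2169 T u b x + (b) * (n2160 T u b x)) + (n2161 T u b x) * ((u) * (n2167 T u b x) + n2177 T u b x) + (n2184 T u b x) * (n2170 T u b x))) =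
      n2233 T u b x := by
  have e := imN3Ap T (u := u) (b := b) (x := x)
  simp only [n2233, n2231, n298] at e ⊢
  linear_combination b * e

theorem e3Ap_m0 (T : MolP) {u b x : ℝ} :
    (u) * (n2169 T u b x) + (b) * (n2177 T u b x) =
      n2229 T u b x := by
  have e := imW3Ap T (u := u) (b := b) (x := x)
  linear_combination e

theorem e3Ap_m1 (T : MolP) {u b x : ℝ} :
    (x) * ((n2153 T u b x) * ((n169 T u b x) * (n2169 T u b x) - (b) * (n2177 T u b x)) + (n2150 T u b x) * (n2178 T u b x)) - (n15 T u b x) * ((n2177 T u b x + (n3 T u b x) * (n2167 T u b x)) * ((n169 T u b x) * (n2169 T u b x) - (b) * (n2177 T u b x)) - (n2176 T u b x) * ((u) * (n2169 T u b x) + (b) * (n2177 T u b x)) - (n2202 T u b x) * ((u) * (n2167 T u b x) + n2177 T u b x) + (n2203 T u b x) * (n2178 T u b x)) =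
      n2220 T u b x := by
  have e := imM3Ap T (u := u) (b := b) (x := x)
  linear_combination e

theorem e3Ap_m2 (T : MolP) {u b x : ℝ} :
    n2235 T u b x + (b) * ((x) * ((n2153 T u b x) * ((n169 T u b x) * (n2169 T u b x) - (b) * (n2177 T u b x)) + (n2150 T u b x) * (n2178 T u b x)) - (n15 T u b x) * ((n2177 T u b x + (n3 T u b x) * (n2167 T u b x)) * ((n169 T u b x) * (n2169 T u b x) - (b) * (n2177 T u b x)) - (n2176 T u b x) * ((u) * (n2169 T u b x) + (b) * (n2177 T u b x)) - (n2202 T u b x) * ((u) * (n2167 T u b x) + n2177 T u b x) + (n2203 T u b x) * (n2178 T u b x))) =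
      n2237 T u b x := by
  have e := imM3Ap T (u := u) (b := b) (x := x)
  simp only [n2237, n2235, n2184, n298, n169, n3] at e ⊢
  linear_combination b * e

theorem e3Am_n0 (T : MolP) {u b x : ℝ} :
    -((u) * (n2255 T u b x) - (b) * ((n3 T u b x) * (n2247 T u b x)) + (b) * (n2255 T u b x - (b) * (n2247 T u b x))) =
      -(n2307 T u b x) := by
  have e := imW3Am T (u := u) (b := b) (x := x)
  linear_combination -e

theorem e3Am_n1 (T : MolP) {u b x : ℝ} :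
    -((n205 T u b x) * ((n2241 T u b x) * (n2255 T u b x - (b) * (n2247 T u b x)) + (n2150 T u b x) * (n2256 T u b x)) - (n15 T u b x) * ((n2250 T u b x) * ((u) * (n2255 T u b x) - (b) * ((n3 T u b x) * (n2247 T u b x))) + ((1 + n30 T u b x) * (n2247 T u b x) + n2260 T u b x - n2255 T u b x) * (n2255 T u b x - (b) * (n2247 T u b x)) + (n2161 T u b x) * ((u) * (n2253 T u b x) - (n3 T u b x) * (n2247 T u b x)) + (n2184 T u b x) * (n2256 T u b x))) =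
      -(n2286 T u b x) := by
  have e := imN3Am T (u := u) (b := b) (x := x)
  linear_combination -e

theorem e3Am_n2 (T : MolP) {u b x : ℝ} :
    n2231 T u b x + (b) * ((n205 T u b x) * ((n2241 T u b x) * (n2255 T u b x - (b) * (n2247 T u b x)) + (n2150 T u b x) * (n2256 T u b x)) - (n15 T u b x) * ((n2250 T u b x) * ((u) * (n2255 T u b x) - (b) * ((n3 T u b x) * (n2247 T u b x))) + ((1 + n30 T u b x) * (n2247 T u b x) + n2260 T u b x - n2255 T u b x) * (n2255 T u b x - (b) * (n2247 T u b x)) + (n2161 T u b x) * ((u) * (n2253 T u b x) - (n3 T u b x) * (n2247 T u b x)) + (n2184 T u b x) * (n2256 T u b x))) =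
      n2311 T u b x := by
  have e := imN3Am T (u := u) (b := b) (x := x)
  simp only [n2311, n2231, n298] at e ⊢
  linear_combination b * e

theorem e3Am_m0 (T : MolP) {u b x : ℝ} :
    (u) * (n2255 T u b x) - (b) * ((n3 T u b x) * (n2247 T u b x)) + (b) * (n2255 T u b x - (b) * (n2247 T u b x)) =
      n2307 T u b x := by
  have e := imW3Am T (u := u) (b := b) (x := x)
  linear_combination e

theorem e3Am_m1 (T : MolP) {u b x : ℝ} :
    -((x) * ((n2241 T u b x) * ((n169 T u b x) * (n2255 T u b x) - (b) * (n2266 T u b x)) + (n2150 T u b x) * (n2267 T u b x)) - (n15 T u b x) * ((n2266 T u b x + (n3 T u b x) * (n2253 T u b x)) * ((n169 T u b x) * (n2255 T u b x) - (b) * (n2266 T u b x)) - (n2264 T u b x) * ((u) * (n2255 T u b x) + (b) * (n2266 T u b x)) - (n2202 T u b x) * ((u) * (n2253 T u b x) + n2266 T u b x) + (n2203 T u b x) * (n2267 T u b x))) =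
      -(n2302 T u b x) := by
  have e := imM3Am T (u := u) (b := b) (x := x)
  linear_combination -e

theorem e3Am_m2 (T : MolP) {u b x : ℝ} :
    n2235 T u b x + (b) * ((x) * ((n2241 T u b x) * ((n169 T u b x) * (n2255 T u b x) - (b) * (n2266 T u b x)) + (n2150 T u b x) * (n2267 T u b x)) - (n15 T u b x) * ((n2266 T u b x + (n3 T u b x) * (n2253 T u b x)) * ((n169 T u b x) * (n2255 T u b x) - (b) * (n2266 T u b x)) - (n2264 T u b x) * ((u) * (n2255 T u b x) + (b) * (n2266 T u b x)) - (n2202 T u b x) * ((u) * (n2253 T u b x) + n2266 T u b x) + (n2203 T u b x) * (n2267 T u b x))) =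
      n2313 T u b x := by
  have e := imM3Am T (u := u) (b := b) (x := x)
  simp only [n2313, n2235, n2184, n298, n169, n3] at e ⊢
  linear_combination b * e

theorem e3Bp_n0 (T : MolP) {u b x : ℝ} :
    -((u) * (n2339 T u b x) + (b) * ((n3 T u b x) * (n2330 T u b x)) - (b) * (n2339 T u b x + (b) * (n2330 T u b x))) =
      -(n2395 T u b x) := by
  have e := imW3Bp T (u := u) (b := b) (x := x)
  linear_combination -e

theorem e3Bp_n1 (T : MolP) {u b x : ℝ} :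
    (n205 T u b x) * ((n2324 T u b x) * (n2339 T u b x + (b) * (n2330 T u b x)) + (n2150 T u b x) * (n2340 T u b x)) - (n15 T u b x) * ((n2334 T u b x) * ((u) * (n2339 T u b x) + (b) * ((n3 T u b x) * (n2330 T u b x))) + (n2344 T u b x + n2339 T u b x - (1 + n372 T u b x) * (n2330 T u b x)) * (n2339 T u b x + (b) * (n2330 T u b x)) + (n2331 T u b x) * ((u) * (n2337 T u b x) + (n3 T u b x) * (n2330 T u b x)) + (n2184 T u b x) * (n2340 T u b x)) =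
      n2372 T u b x := by
  have e := imN3Bp T (u := u) (b := b) (x := x)
  linear_combination e

theorem e3Bp_n2 (T : MolP) {u b x : ℝ} :
    n2231 T u b x + (b) * ((n205 T u b x) * ((n2324 T u b x) * (n2339 T u b x + (b) * (n2330 T u b x)) + (n2150 T u b x) * (n2340 T u b x)) - (n15 T u b x) * ((n2334 T u b x) * ((u) * (n2339 T u b x) + (b) * ((n3 T u b x) * (n2330 T u b x))) + (n2344 T u b x + n2339 T u b x - (1 + n372 T u b x) * (n2330 T u b x)) * (n2339 T u b x + (b) * (n2330 T u b x)) + (n2331 T u b x) * ((u) * (n2337 T u b x) + (n3 T u b x) * (n2330 T u b x)) + (n2184 T u b x) * (n2340 T u b x))) =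
      n2397 T u b x := by
  have e := imN3Bp T (u := u) (b := b) (x := x)
  simp only [n2397, n2231, n298] at e ⊢
  linear_combination b * e

theorem e3Bp_m0 (T : MolP) {u b x : ℝ} :
    (u) * (n2339 T u b x) + (b) * ((n3 T u b x) * (n2330 T u b x)) - (b) * (n2339 T u b x + (b) * (n2330 T u b x)) =
      n2395 T u b x := by
  have e := imW3Bp T (u := u) (b := b) (x := x)
  linear_combination e

theorem e3Bp_m1 (T : MolP) {u b x : ℝ} :
    (x) * ((n2324 T u b x) * ((n169 T u b x) * (n2339 T u b x) + (b) * (n2350 T u b x)) + (n2150 T u b x) * (n2351 T u b x)) - (n15 T u b x) * (((n3 T u b x) * (n2337 T u b x) - n2350 T u b x) * ((n169 T u b x) * (n2339 T u b x) + (b) * (n2350 T u b x)) - (n2348 T u b x) * ((u) * (n2339 T u b x) - (b) * (n2350 T u b x)) - (n2373 T u b x) * ((u) * (n2337 T u b x) - n2350 T u b x) + (n2203 T u b x) * (n2351 T u b x)) =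
      n2390 T u b x := by
  have e := imM3Bp T (u := u) (b := b) (x := x)
  linear_combination e

theorem e3Bp_m2 (T : MolP) {u b x : ℝ} :
    n2235 T u b x + (b) * ((x) * ((n2324 T u b x) * ((n169 T u b x) * (n2339 T u b x) + (b) * (n2350 T u b x)) + (n2150 T u b x) * (n2351 T u b x)) - (n15 T u b x) * (((n3 T u b x) * (n2337 T u b x) - n2350 T u b x) * ((n169 T u b x) * (n2339 T u b x) + (b) * (n2350 T u b x)) - (n2348 T u b x) * ((u) * (n2339 T u b x) - (b) * (n2350 T u b x)) - (n2373 T u b x) * ((u) * (n2337 T u b x) - n2350 T u b x) + (n2203 T u b x) * (n2351 T u b x))) =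
      n2399 T u b x := by
  have e := imM3Bp T (u := u) (b := b) (x := x)
  simp only [n2399, n2235, n2184, n298, n169, n3] at e ⊢
  linear_combination b * e

theorem e3Bm_n0 (T : MolP) {u b x : ℝ} :
    -((u) * (n2417 T u b x) - (b) * ((n3 T u b x) * (n2409 T u b x))) =
      -(n2469 T u b x) := by
  have e := imW3Bm T (u := u) (b := b) (x := x)
  linear_combination -e

theorem e3Bm_n1 (T : MolP) {u b x : ℝ} :
    -((n205 T u b x) * ((n2403 T u b x) * (n2417 T u b x - (b) * (n2409 T u b x)) + (n2150 T u b x) * (n2418 T u b x)) - (n15 T u b x) * ((n2412 T u b x) * ((u) * (n2417 T u b x) - (b) * ((n3 T u b x) * (n2409 T u b x))) + ((n3 T u b x) * (n2409 T u b x) + n2421 T u b x) * (n2417 T u b x - (b) * (n2409 T u b x)) + (n2331 T u b x) * ((u) * (n2415 T u b x) - (n3 T u b x) * (n2409 T u b x)) + (n2184 T u b x) * (n2418 T u b x))) =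
      -(n2448 T u b x) := by
  have e := imN3Bm T (u := u) (b := b) (x := x)
  linear_combination -e

theorem e3Bm_n2 (T : MolP) {u b x : ℝ} :
    n2231 T u b x + (b) * ((n205 T u b x) * ((n2403 T u b x) * (n2417 T u b x - (b) * (n2409 T u b x)) + (n2150 T u b x) * (n2418 T u b x)) - (n15 T u b x) * ((n2412 T u b x) * ((u) * (n2417 T u b x) - (b) * ((n3 T u b x) * (n2409 T u b x))) + ((n3 T u b x) * (n2409 T u b x) + n2421 T u b x) * (n2417 T u b x - (b) * (n2409 T u b x)) + (n2331 T u b x) * ((u) * (n2415 T u b x) - (n3 T u b x) * (n2409 T u b x)) + (n2184 T u b x) * (n2418 T u b x))) =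
      n2473 T u b x := by
  have e := imN3Bm T (u := u) (b := b) (x := x)
  simp only [n2473, n2231, n298] at e ⊢
  linear_combination b * e

theorem e3Bm_m0 (T : MolP) {u b x : ℝ} :
    (u) * (n2417 T u b x) - (b) * ((n3 T u b x) * (n2409 T u b x)) =
      n2469 T u b x := by
  have e := imW3Bm T (u := u) (b := b) (x := x)
  linear_combination e

theorem e3Bm_m1 (T : MolP) {u b x : ℝ} :
    -((x) * ((n2403 T u b x) * ((n169 T u b x) * (n2417 T u b x) - (b) * (n2426 T u b x - n2417 T u b x)) + (n2150 T u b x) * (n2421 T u b x - (n2426 T u b x - n2417 T u b x))) - (n15 T u b x) * ((n2426 T u b x + (n3 T u b x) * (n2415 T u b x) - n2417 T u b x) * ((n169 T u b x) * (n2417 T u b x) - (b) * (n2426 T u b x - n2417 T u b x)) - (n2424 T u b x) * ((u) * (n2417 T u b x) + (b) * (n2426 T u b x - n2417 T u b x)) - (n2373 T u b x) * ((u) * (n2415 T u b x) + (n2426 T u b x - n2417 T u b x)) + (n2203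 T u b x) * (n2421 T u b x - (n2426 T u b x - n2417 T u b x)))) =
      -(n2464 T u b x) := by
  have e := imM3Bm T (u := u) (b := b) (x := x)
  linear_combination -e

theorem e3Bm_m2 (T : MolP) {u b x : ℝ} :
    n2235 T u b x + (b) * ((x) * ((n2403 T u b x) * ((n169 T u b x) * (n2417 T u b x) - (b) * (n2426 T u b x - n2417 T u b x)) + (n2150 T u b x) * (n2421 T u b x - (n2426 T u b x - n2417 T u b x))) - (n15 T u b x) * ((n2426 T u b x + (n3 T u b x) * (n2415 T u b x) - n2417 T u b x) * ((n169 T u b x) * (n2417 T u b x) - (b) * (n2426 T u b x - n2417 T u b x)) - (n2424 T u b x) * ((u) * (n2417 T u b x) + (b) * (n2426 T u b x - n2417 T u b x)) - (n2373 T u b x) * ((u) * (n2415 T u b x) + (n2426 T u b x - n2417 T u b x)) + (n2203 T u b x) * (n2421 T u b x - (n2426 T u b x - n2417 T u b x)))) =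
      n2475 T u b x := by
  have e := imM3Bm T (u := u) (b := b) (x := x)
  simp only [n2475, n2235, n2184, n298, n169, n3] at e ⊢
  linear_combination b * e

noncomputable def F2132 (M : MolF) : Fn3 := ⟨_, fun a b c => n2132 (M.at_ a b c) a b c, fun h1 h2 h3 => (enc_norm (enc_sub (M.dy.enc h1 h2 h3) (es1_2 ((F675 M).enc h1 h2 h3))))⟩

noncomputable def F2133 (M : MolF) : Fn3 := ⟨_, fun a b c => n2133 (M.at_ a b c) a b c, fun h1 h2 h3 => (enc_norm (enc_sub ((F719 M).enc h1 h2 h3) (M.m1.enc h1 h2 h3)))⟩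

noncomputable def F2134 (M : MolF) : Fn3 := ⟨_, fun a b c => n2134 (M.at_ a b c) a b c, fun h1 h2 h3 => (enc_sub ((F721 M).enc h1 h2 h3) ((F716 M).enc h1 h2 h3))⟩

noncomputable def F2137 (M : MolF) : Fn3 := ⟨_, fun a b c => n2137 (M.at_ a b c) a b c, fun h1 h2 h3 => (enc_norm (enc_mul (enc_norm (enc_mul (enc_norm (enc_mul ((F599 M).enc h1 h2 h3) ((F2132 M).enc h1 h2 h3))) (M.k52.enc h1 h2 h3))) h3))⟩

noncomputable def F2140 (M : MolF) : Fn3 := ⟨_, fun a b c => n2140 (M.at_ a b c) a b c, fun h1 h2 h3 => (enc_mul (enc_norm (enc_mul (enc_norm (enc_mul ((F599 M).enc h1 h2 h3) ((F2133 M).enc h1 h2 h3))) (M.k52.enc h1 h2 h3))) h3)⟩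

noncomputable def F2141 (M : MolF) : Fn3 := ⟨_, fun a b c => n2141 (M.at_ a b c) a b c, fun h1 h2 h3 => (enc_norm (enc_add ((F2140 M).enc h1 h2 h3) ((F1197 M).enc h1 h2 h3)))⟩

noncomputable def F2143 (M : MolF) : Fn3 := ⟨_, fun a b c => n2143 (M.at_ a b c) a b c, fun h1 h2 h3 => (enc_norm (enc_mul (enc_norm (enc_mul (enc_norm (enc_mul ((F15 M).enc h1 h2 h3) ((F599 M).enc h1 h2 h3))) (M.k1.enc h1 h2 h3))) (enc_inv ((F205 M).enc h1 h2 h3))))⟩

noncomputable def F2144 (M : MolF) : Fn3 := ⟨_, fun a b c => n2144 (M.at_ a b c) a b c, fun h1 h2 h3 => (enc_norm (enc_mul ((F2143 M).enc h1 h2 h3) ((F2132 M).enc h1 h2 h3)))⟩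

noncomputable def F2145 (M : MolF) : Fn3 := ⟨_, fun a b c => n2145 (M.at_ a b c) a b c, fun h1 h2 h3 => (enc_mul ((F298 M).enc h1 h2 h3) ((F2144 M).enc h1 h2 h3))⟩

noncomputable def F2147 (M : MolF) : Fn3 := ⟨_, fun a b c => n2147 (M.at_ a b c) a b c, fun h1 h2 h3 => (enc_mul ((F298 M).enc h1 h2 h3) (enc_norm (enc_mul ((F2143 M).enc h1 h2 h3) ((F2133 M).enc h1 h2 h3))))⟩

noncomputable def F2150 (M : MolF) : Fn3 := ⟨_, fun a b c => n2150 (M.at_ a b c) a b c, fun h1 h2 h3 => (enc_norm (enc_sub (enc_sub ((F654 M).enc h1 h2 h3) ((F2145 M).enc h1 h2 h3)) (enc_mul ((F15 M).enc h1 h2 h3) ((F2137 M).enc h1 h2 h3))))⟩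

noncomputable def F2153 (M : MolF) : Fn3 := ⟨_, fun a b c => n2153 (M.at_ a b c) a b c, fun h1 h2 h3 => (enc_norm (enc_sub (enc_sub ((F656 M).enc h1 h2 h3) ((F2147 M).enc h1 h2 h3)) (enc_mul ((F15 M).enc h1 h2 h3) ((F2141 M).enc h1 h2 h3))))⟩

noncomputable def F2155 (M : MolF) : Fn3 := ⟨_, fun a b c => n2155 (M.at_ a b c) a b c, fun h1 h2 h3 => (enc_add ((F2137 M).enc h1 h2 h3) (enc_mul h2 ((F2141 M).enc h1 h2 h3)))⟩

noncomputable def F2156 (M : MolF) : Fn3 := ⟨_, fun a b c => n2156 (M.at_ a b c) a b c, fun h1 h2 h3 => (enc_norm (enc_sub (es1_2 ((F662 M).enc h1 h2 h3)) ((F2137 M).enc h1 h2 h3)))⟩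

noncomputable def F2157 (M : MolF) : Fn3 := ⟨_, fun a b c => n2157 (M.at_ a b c) a b c, fun h1 h2 h3 => (enc_sub ((F747 M).enc h1 h2 h3) ((F2141 M).enc h1 h2 h3))⟩

noncomputable def F2158 (M : MolF) : Fn3 := ⟨_, fun a b c => n2158 (M.at_ a b c) a b c, fun h1 h2 h3 => (enc_sub ((F748 M).enc h1 h2 h3) ((F2155 M).enc h1 h2 h3))⟩

noncomputable def F2160 (M : MolF) : Fn3 := ⟨_, fun a b c => n2160 (M.at_ a b c) a b c, fun h1 h2 h3 => (enc_norm (enc_sub (enc_add ((F2158 M).enc h1 h2 h3) ((F749 M).enc h1 h2 h3)) ((F751 M).enc h1 h2 h3)))⟩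

noncomputable def F2161 (M : MolF) : Fn3 := ⟨_, fun a b c => n2161 (M.at_ a b c) a b c, fun h1 h2 h3 => (enc_norm (enc_add ((F2156 M).enc h1 h2 h3) ((F754 M).enc h1 h2 h3)))⟩

noncomputable def F2164 (M : MolF) : Fn3 := ⟨_, fun a b c => n2164 (M.at_ a b c) a b c, fun h1 h2 h3 => (enc_norm (enc_add (enc_sub (enc_add ((F2157 M).enc h1 h2 h3) ((F739 M).enc h1 h2 h3)) ((F757 M).enc h1 h2 h3)) ((F759 M).enc h1 h2 h3)))⟩

noncomputable def F2167 (M : MolF) : Fn3 := ⟨_, fun a b c => n2167 (M.at_ a b c) a b c, fun h1 h2 h3 => (enc_norm (enc_add (enc_sub (enc_add ((F2157 M).enc h1 h2 h3) ((F761 M).enc h1 h2 h3)) ((F2158 M).enc h1 h2 h3)) ((F751 M).enc h1 h2 h3)))⟩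

noncomputable def F2169 (M : MolF) : Fn3 := ⟨_, fun a b c => n2169 (M.at_ a b c) a b c, fun h1 h2 h3 => (enc_norm (enc_add ((F2156 M).enc h1 h2 h3) (enc_mul h2 ((F2167 M).enc h1 h2 h3))))⟩

noncomputable def F2170 (M : MolF) : Fn3 := ⟨_, fun a b c => n2170 (M.at_ a b c) a b c, fun h1 h2 h3 => (enc_norm (enc_add ((F2167 M).enc h1 h2 h3) ((F2160 M).enc h1 h2 h3)))⟩

noncomputable def F2173 (M : MolF) : Fn3 := ⟨_, fun a b c => n2173 (M.at_ a b c) a b c, fun h1 h2 h3 => (enc_mul ((F169 M).enc h1 h2 h3) ((F2167 M).enc h1 h2 h3))⟩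

noncomputable def F2176 (M : MolF) : Fn3 := ⟨_, fun a b c => n2176 (M.at_ a b c) a b c, fun h1 h2 h3 => (enc_norm (enc_sub ((F2167 M).enc h1 h2 h3) (enc_mul ((F3 M).enc h1 h2 h3) ((F2164 M).enc h1 h2 h3))))⟩

noncomputable def F2177 (M : MolF) : Fn3 := ⟨_, fun a b c => n2177 (M.at_ a b c) a b c, fun h1 h2 h3 => (enc_norm (enc_mul ((F3 M).enc h1 h2 h3) ((F2160 M).enc h1 h2 h3)))⟩

noncomputable def F2178 (M : MolF) : Fn3 := ⟨_, fun a b c => n2178 (M.at_ a b c) a b c, fun h1 h2 h3 => (enc_norm (enc_sub ((F2173 M).enc h1 h2 h3) ((F2177 M).enc h1 h2 h3)))⟩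

noncomputable def F2182 (M : MolF) : Fn3 := ⟨_, fun a b c => n2182 (M.at_ a b c) a b c, fun h1 h2 h3 => (enc_sub ((F2169 M).enc h1 h2 h3) ((F2177 M).enc h1 h2 h3))⟩

noncomputable def F2183 (M : MolF) : Fn3 := ⟨_, fun a b c => n2183 (M.at_ a b c) a b c, fun h1 h2 h3 => (enc_mul ((F3 M).enc h1 h2 h3) ((F2161 M).enc h1 h2 h3))⟩

noncomputable def F2184 (M : MolF) : Fn3 := ⟨_, fun a b c => n2184 (M.at_ a b c) a b c, fun h1 h2 h3 => (enc_norm (enc_mul ((F169 M).enc h1 h2 h3) ((F2156 M).enc h1 h2 h3)))⟩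

noncomputable def F2202 (M : MolF) : Fn3 := ⟨_, fun a b c => n2202 (M.at_ a b c) a b c, fun h1 h2 h3 => (enc_norm (enc_sub ((F2156 M).enc h1 h2 h3) ((F2183 M).enc h1 h2 h3)))⟩

noncomputable def F2203 (M : MolF) : Fn3 := ⟨_, fun a b c => n2203 (M.at_ a b c) a b c, fun h1 h2 h3 => (enc_norm (enc_mul ((F3 M).enc h1 h2 h3) ((F2156 M).enc h1 h2 h3)))⟩

noncomputable def F2222 (M : MolF) : Fn3 := ⟨_, fun a b c => n2222 (M.at_ a b c) a b c, fun h1 h2 h3 => (enc_norm (enc_sub ((F859 M).enc h1 h2 h3) (enc_mul ((F205 M).enc h1 h2 h3) ((F2144 M).enc h1 h2 h3))))⟩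

noncomputable def F2224 (M : MolF) : Fn3 := ⟨_, fun a b c => n2224 (M.at_ a b c) a b c, fun h1 h2 h3 => (enc_norm (enc_sub ((F861 M).enc h1 h2 h3) (enc_mul h3 ((F2144 M).enc h1 h2 h3))))⟩

noncomputable def F2231 (M : MolF) : Fn3 := ⟨_, fun a b c => n2231 (M.at_ a b c) a b c, fun h1 h2 h3 => (enc_mul ((F298 M).enc h1 h2 h3) (enc_norm (enc_mul ((F2222 M).enc h1 h2 h3) ((F2156 M).enc h1 h2 h3))))⟩

noncomputable def F2235 (M : MolF) : Fn3 := ⟨_, fun a b c => n2235 (M.at_ a b c) a b c, fun h1 h2 h3 => (enc_mul ((F298 M).enc h1 h2 h3) (enc_norm (enc_mul ((F2224 M).enc h1 h2 h3) ((F2184 M).enc h1 h2 h3))))⟩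

noncomputable def F2238 (M : MolF) : Fn3 := ⟨_, fun a b c => n2238 (M.at_ a b c) a b c, fun h1 h2 h3 => (enc_norm (enc_sub ((F2140 M).enc h1 h2 h3) ((F1197 M).enc h1 h2 h3)))⟩

noncomputable def F2241 (M : MolF) : Fn3 := ⟨_, fun a b c => n2241 (M.at_ a b c) a b c, fun h1 h2 h3 => (enc_norm (enc_sub (enc_sub ((F877 M).enc h1 h2 h3) ((F2147 M).enc h1 h2 h3)) (enc_mul ((F15 M).enc h1 h2 h3) ((F2238 M).enc h1 h2 h3))))⟩

noncomputable def F2243 (M : MolF) : Fn3 := ⟨_, fun a b c => n2243 (M.at_ a b c) a b c, fun h1 h2 h3 => (enc_add ((F2137 M).enc h1 h2 h3) (enc_mul h2 ((F2238 M).enc h1 h2 h3)))⟩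

noncomputable def F2244 (M : MolF) : Fn3 := ⟨_, fun a b c => n2244 (M.at_ a b c) a b c, fun h1 h2 h3 => (enc_sub ((F747 M).enc h1 h2 h3) ((F2238 M).enc h1 h2 h3))⟩

noncomputable def F2245 (M : MolF) : Fn3 := ⟨_, fun a b c => n2245 (M.at_ a b c) a b c, fun h1 h2 h3 => (enc_sub ((F748 M).enc h1 h2 h3) ((F2243 M).enc h1 h2 h3))⟩

noncomputable def F2247 (M : MolF) : Fn3 := ⟨_, fun a b c => n2247 (M.at_ a b c) a b c, fun h1 h2 h3 => (enc_norm (enc_sub (enc_add ((F2245 M).enc h1 h2 h3) ((F749 M).enc h1 h2 h3)) ((F751 M).enc h1 h2 h3)))⟩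

noncomputable def F2250 (M : MolF) : Fn3 := ⟨_, fun a b c => n2250 (M.at_ a b c) a b c, fun h1 h2 h3 => (enc_norm (enc_add (enc_sub (enc_add ((F2244 M).enc h1 h2 h3) ((F739 M).enc h1 h2 h3)) ((F757 M).enc h1 h2 h3)) ((F759 M).enc h1 h2 h3)))⟩

noncomputable def F2253 (M : MolF) : Fn3 := ⟨_, fun a b c => n2253 (M.at_ a b c) a b c, fun h1 h2 h3 => (enc_norm (enc_add (enc_add (enc_add ((F2244 M).enc h1 h2 h3) ((F749 M).enc h1 h2 h3)) ((F879 M).enc h1 h2 h3)) ((F2245 M).enc h1 h2 h3)))⟩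

noncomputable def F2255 (M : MolF) : Fn3 := ⟨_, fun a b c => n2255 (M.at_ a b c) a b c, fun h1 h2 h3 => (enc_norm (enc_add ((F2156 M).enc h1 h2 h3) (enc_mul h2 ((F2253 M).enc h1 h2 h3))))⟩

noncomputable def F2256 (M : MolF) : Fn3 := ⟨_, fun a b c => n2256 (M.at_ a b c) a b c, fun h1 h2 h3 => (enc_norm (enc_sub ((F2253 M).enc h1 h2 h3) ((F2247 M).enc h1 h2 h3)))⟩

noncomputable def F2257 (M : MolF) : Fn3 := ⟨_, fun a b c => n2257 (M.at_ a b c) a b c, fun h1 h2 h3 => (enc_mul ((F3 M).enc h1 h2 h3) ((F2250 M).enc h1 h2 h3))⟩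

noncomputable def F2260 (M : MolF) : Fn3 := ⟨_, fun a b c => n2260 (M.at_ a b c) a b c, fun h1 h2 h3 => (enc_mul ((F169 M).enc h1 h2 h3) ((F2253 M).enc h1 h2 h3))⟩

noncomputable def F2264 (M : MolF) : Fn3 := ⟨_, fun a b c => n2264 (M.at_ a b c) a b c, fun h1 h2 h3 => (enc_norm (enc_sub (enc_sub ((F2253 M).enc h1 h2 h3) ((F2257 M).enc h1 h2 h3)) ((F2247 M).enc h1 h2 h3)))⟩

noncomputable def F2266 (M : MolF) : Fn3 := ⟨_, fun a b c => n2266 (M.at_ a b c) a b c, fun h1 h2 h3 => (enc_norm (enc_sub ((F2255 M).enc h1 h2 h3) (enc_mul ((F30 M).enc h1 h2 h3) ((F2247 M).enc h1 h2 h3))))⟩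

noncomputable def F2267 (M : MolF) : Fn3 := ⟨_, fun a b c => n2267 (M.at_ a b c) a b c, fun h1 h2 h3 => (enc_norm (enc_sub ((F2260 M).enc h1 h2 h3) ((F2266 M).enc h1 h2 h3)))⟩

noncomputable def F2314 (M : MolF) : Fn3 := ⟨_, fun a b c => n2314 (M.at_ a b c) a b c, fun h1 h2 h3 => (enc_norm (enc_sub (M.m1.enc h1 h2 h3) ((F1032 M).enc h1 h2 h3)))⟩

noncomputable def F2315 (M : MolF) : Fn3 := ⟨_, fun a b c => n2315 (M.at_ a b c) a b c, fun h1 h2 h3 => (enc_sub ((F716 M).enc h1 h2 h3) ((F1035 M).enc h1 h2 h3))⟩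

noncomputable def F2318 (M : MolF) : Fn3 := ⟨_, fun a b c => n2318 (M.at_ a b c) a b c, fun h1 h2 h3 => (enc_mul (enc_norm (enc_mul (enc_norm (enc_mul ((F599 M).enc h1 h2 h3) ((F2314 M).enc h1 h2 h3))) (M.k52.enc h1 h2 h3))) h3)⟩

noncomputable def F2319 (M : MolF) : Fn3 := ⟨_, fun a b c => n2319 (M.at_ a b c) a b c, fun h1 h2 h3 => (enc_norm (enc_add ((F2318 M).enc h1 h2 h3) ((F1382 M).enc h1 h2 h3)))⟩

noncomputable def F2321 (M : MolF) : Fn3 := ⟨_, fun a b c => n2321 (M.at_ a b c) a b c, fun h1 h2 h3 => (enc_mul ((F298 M).enc h1 h2 h3) (enc_norm (enc_mul ((F2143 M).enc h1 h2 h3) ((F2314 M).enc h1 h2 h3))))⟩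

noncomputable def F2324 (M : MolF) : Fn3 := ⟨_, fun a b c => n2324 (M.at_ a b c) a b c, fun h1 h2 h3 => (enc_norm (enc_sub (enc_sub ((F990 M).enc h1 h2 h3) ((F2321 M).enc h1 h2 h3)) (enc_mul ((F15 M).enc h1 h2 h3) ((F2319 M).enc h1 h2 h3))))⟩

noncomputable def F2326 (M : MolF) : Fn3 := ⟨_, fun a b c => n2326 (M.at_ a b c) a b c, fun h1 h2 h3 => (enc_add ((F2137 M).enc h1 h2 h3) (enc_mul h2 ((F2319 M).enc h1 h2 h3)))⟩

noncomputable def F2327 (M : MolF) : Fn3 := ⟨_, fun a b c => n2327 (M.at_ a b c) a b c, fun h1 h2 h3 => (enc_sub ((F747 M).enc h1 h2 h3) ((F2319 M).enc h1 h2 h3))⟩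

noncomputable def F2328 (M : MolF) : Fn3 := ⟨_, fun a b c => n2328 (M.at_ a b c) a b c, fun h1 h2 h3 => (enc_sub ((F748 M).enc h1 h2 h3) ((F2326 M).enc h1 h2 h3))⟩

noncomputable def F2330 (M : MolF) : Fn3 := ⟨_, fun a b c => n2330 (M.at_ a b c) a b c, fun h1 h2 h3 => (enc_norm (enc_add (enc_sub ((F2328 M).enc h1 h2 h3) ((F749 M).enc h1 h2 h3)) ((F1046 M).enc h1 h2 h3)))⟩

noncomputable def F2331 (M : MolF) : Fn3 := ⟨_, fun a b c => n2331 (M.at_ a b c) a b c, fun h1 h2 h3 => (enc_norm (enc_add ((F2156 M).enc h1 h2 h3) ((F1049 M).enc h1 h2 h3)))⟩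

noncomputable def F2334 (M : MolF) : Fn3 := ⟨_, fun a b c => n2334 (M.at_ a b c) a b c, fun h1 h2 h3 => (enc_norm (enc_sub (enc_add (enc_add ((F2327 M).enc h1 h2 h3) ((F1051 M).enc h1 h2 h3)) ((F1044 M).enc h1 h2 h3)) ((F759 M).enc h1 h2 h3)))⟩

noncomputable def F2337 (M : MolF) : Fn3 := ⟨_, fun a b c => n2337 (M.at_ a b c) a b c, fun h1 h2 h3 => (enc_norm (enc_sub (enc_add (enc_add ((F2327 M).enc h1 h2 h3) ((F749 M).enc h1 h2 h3)) ((F1055 M).enc h1 h2 h3)) ((F2328 M).enc h1 h2 h3)))⟩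

noncomputable def F2339 (M : MolF) : Fn3 := ⟨_, fun a b c => n2339 (M.at_ a b c) a b c, fun h1 h2 h3 => (enc_norm (enc_add ((F2156 M).enc h1 h2 h3) (enc_mul h2 ((F2337 M).enc h1 h2 h3))))⟩

noncomputable def F2340 (M : MolF) : Fn3 := ⟨_, fun a b c => n2340 (M.at_ a b c) a b c, fun h1 h2 h3 => (enc_norm (enc_add ((F2337 M).enc h1 h2 h3) ((F2330 M).enc h1 h2 h3)))⟩

noncomputable def F2341 (M : MolF) : Fn3 := ⟨_, fun a b c => n2341 (M.at_ a b c) a b c, fun h1 h2 h3 => (enc_mul ((F3 M).enc h1 h2 h3) ((F2334 M).enc h1 h2 h3))⟩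

noncomputable def F2344 (M : MolF) : Fn3 := ⟨_, fun a b c => n2344 (M.at_ a b c) a b c, fun h1 h2 h3 => (enc_mul ((F169 M).enc h1 h2 h3) ((F2337 M).enc h1 h2 h3))⟩

noncomputable def F2348 (M : MolF) : Fn3 := ⟨_, fun a b c => n2348 (M.at_ a b c) a b c, fun h1 h2 h3 => (enc_norm (enc_add (enc_sub ((F2337 M).enc h1 h2 h3) ((F2341 M).enc h1 h2 h3)) ((F2330 M).enc h1 h2 h3)))⟩

noncomputable def F2350 (M : MolF) : Fn3 := ⟨_, fun a b c => n2350 (M.at_ a b c) a b c, fun h1 h2 h3 => (enc_norm (enc_sub ((F2339 M).enc h1 h2 h3) (enc_mul ((F372 M).enc h1 h2 h3) ((F2330 M).enc h1 h2 h3))))⟩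

noncomputable def F2351 (M : MolF) : Fn3 := ⟨_, fun a b c => n2351 (M.at_ a b c) a b c, fun h1 h2 h3 => (enc_norm (enc_add ((F2344 M).enc h1 h2 h3) ((F2350 M).enc h1 h2 h3)))⟩

noncomputable def F2355 (M : MolF) : Fn3 := ⟨_, fun a b c => n2355 (M.at_ a b c) a b c, fun h1 h2 h3 => (enc_mul ((F3 M).enc h1 h2 h3) ((F2331 M).enc h1 h2 h3))⟩

noncomputable def F2373 (M : MolF) : Fn3 := ⟨_, fun a b c => n2373 (M.at_ a b c) a b c, fun h1 h2 h3 => (enc_norm (enc_sub ((F2156 M).enc h1 h2 h3) ((F2355 M).enc h1 h2 h3)))⟩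

noncomputable def F2400 (M : MolF) : Fn3 := ⟨_, fun a b c => n2400 (M.at_ a b c) a b c, fun h1 h2 h3 => (enc_norm (enc_sub ((F2318 M).enc h1 h2 h3) ((F1382 M).enc h1 h2 h3)))⟩

noncomputable def F2403 (M : MolF) : Fn3 := ⟨_, fun a b c => n2403 (M.at_ a b c) a b c, fun h1 h2 h3 => (enc_norm (enc_sub (enc_sub ((F1122 M).enc h1 h2 h3) ((F2321 M).enc h1 h2 h3)) (enc_mul ((F15 M).enc h1 h2 h3) ((F2400 M).enc h1 h2 h3))))⟩

noncomputable def F2405 (M : MolF) : Fn3 := ⟨_, fun a b c => n2405 (M.at_ a b c) a b c, fun h1 h2 h3 => (enc_add ((F2137 M).enc h1 h2 h3) (enc_mul h2 ((F2400 M).enc h1 h2 h3)))⟩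

noncomputable def F2406 (M : MolF) : Fn3 := ⟨_, fun a b c => n2406 (M.at_ a b c) a b c, fun h1 h2 h3 => (enc_sub ((F747 M).enc h1 h2 h3) ((F2400 M).enc h1 h2 h3))⟩

noncomputable def F2407 (M : MolF) : Fn3 := ⟨_, fun a b c => n2407 (M.at_ a b c) a b c, fun h1 h2 h3 => (enc_sub ((F748 M).enc h1 h2 h3) ((F2405 M).enc h1 h2 h3))⟩

noncomputable def F2409 (M : MolF) : Fn3 := ⟨_, fun a b c => n2409 (M.at_ a b c) a b c, fun h1 h2 h3 => (enc_norm (enc_add (enc_sub ((F2407 M).enc h1 h2 h3) ((F749 M).enc h1 h2 h3)) ((F1046 M).enc h1 h2 h3)))⟩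

noncomputable def F2412 (M : MolF) : Fn3 := ⟨_, fun a b c => n2412 (M.at_ a b c) a b c, fun h1 h2 h3 => (enc_norm (enc_sub (enc_add (enc_add ((F2406 M).enc h1 h2 h3) ((F1051 M).enc h1 h2 h3)) ((F1044 M).enc h1 h2 h3)) ((F759 M).enc h1 h2 h3)))⟩

noncomputable def F2415 (M : MolF) : Fn3 := ⟨_, fun a b c => n2415 (M.at_ a b c) a b c, fun h1 h2 h3 => (enc_norm (enc_add (enc_add (enc_add ((F2406 M).enc h1 h2 h3) ((F761 M).enc h1 h2 h3)) ((F1046 M).enc h1 h2 h3)) ((F2407 M).enc h1 h2 h3)))⟩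

noncomputable def F2417 (M : MolF) : Fn3 := ⟨_, fun a b c => n2417 (M.at_ a b c) a b c, fun h1 h2 h3 => (enc_norm (enc_add ((F2156 M).enc h1 h2 h3) (enc_mul h2 ((F2415 M).enc h1 h2 h3))))⟩

noncomputable def F2418 (M : MolF) : Fn3 := ⟨_, fun a b c => n2418 (M.at_ a b c) a b c, fun h1 h2 h3 => (enc_norm (enc_sub ((F2415 M).enc h1 h2 h3) ((F2409 M).enc h1 h2 h3)))⟩

noncomputable def F2421 (M : MolF) : Fn3 := ⟨_, fun a b c => n2421 (M.at_ a b c) a b c, fun h1 h2 h3 => (enc_mul ((F169 M).enc h1 h2 h3) ((F2415 M).enc h1 h2 h3))⟩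

noncomputable def F2424 (M : MolF) : Fn3 := ⟨_, fun a b c => n2424 (M.at_ a b c) a b c, fun h1 h2 h3 => (enc_norm (enc_sub ((F2415 M).enc h1 h2 h3) (enc_mul ((F3 M).enc h1 h2 h3) ((F2412 M).enc h1 h2 h3))))⟩

noncomputable def F2426 (M : MolF) : Fn3 := ⟨_, fun a b c => n2426 (M.at_ a b c) a b c, fun h1 h2 h3 => (enc_sub ((F2417 M).enc h1 h2 h3) (enc_mul ((F3 M).enc h1 h2 h3) ((F2409 M).enc h1 h2 h3)))⟩

noncomputable def F2476 (M : MolF) : Fn3 := ⟨_, fun a b c => (b) * (n2177 (M.at_ a b c) a b c), fun h1 h2 h3 => (enc_mul h2 ((F2177 M).enc h1 h2 h3))⟩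

noncomputable def F2478 (M : MolF) : Fn3 := ⟨_, fun a b c => (a) * (n2169 (M.at_ a b c) a b c) + (b) * (n2177 (M.at_ a b c) a b c), fun h1 h2 h3 => (enc_norm (enc_add (enc_mul h1 ((F2169 M).enc h1 h2 h3)) ((F2476 M).enc h1 h2 h3)))⟩

noncomputable def F2480 (M : MolF) : Fn3 := ⟨_, fun a b c => (a) * (n2167 (M.at_ a b c) a b c) + n2177 (M.at_ a b c) a b c, fun h1 h2 h3 => (enc_norm (enc_add (enc_mul h1 ((F2167 M).enc h1 h2 h3)) ((F2177 M).enc h1 h2 h3)))⟩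

noncomputable def F2483 (M : MolF) : Fn3 := ⟨_, fun a b c => (n169 (M.at_ a b c) a b c) * (n2169 (M.at_ a b c) a b c) - (b) * (n2177 (M.at_ a b c) a b c), fun h1 h2 h3 => (enc_norm (enc_sub (enc_mul ((F169 M).enc h1 h2 h3) ((F2169 M).enc h1 h2 h3)) ((F2476 M).enc h1 h2 h3)))⟩

noncomputable def F2497 (M : MolF) : Fn3 := ⟨_, fun a b c => (n205 (M.at_ a b c) a b c) * ((n2153 (M.at_ a b c) a b c) * (n2169 (M.at_ a b c) a b c + (b) * (n2160 (M.at_ a b c) a b c)) + (n2150 (M.at_ a b c) a b c) * (n2170 (M.at_ a b c) a b c)) - (n15 (M.at_ a b c) a b c) * ((n2164 (M.at_ a b c) a b c) * ((a) * (n2169 (M.at_ a b c) a b c) + (b) * (n2177 (M.at_ a b c) a b c)) + (n2178 (M.at_ a b c) a b c) * (n2169 (M.at_ a b c) a b c + (b) * (n2160 (M.at_ a b c) a b c)) + (n2161 (M.at_ a b c) a b c) * ((a) * (n2167 (M.at_ a b c) a b c) + n2177 (M.at_ a b c) a b c) + (n2184 (M.at_ a b c) a b c) * (n2170 (M.at_ a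 b c) a b c)), fun h1 h2 h3 => (enc_norm (enc_sub (enc_mul ((F205 M).enc h1 h2 h3) (enc_norm (enc_add (enc_mul ((F2153 M).enc h1 h2 h3) (enc_norm (enc_add ((F2169 M).enc h1 h2 h3) (enc_mul h2 ((F2160 M).enc h1 h2 h3))))) (enc_mul ((F2150 M).enc h1 h2 h3) ((F2170 M).enc h1 h2 h3))))) (enc_mul ((F15 M).enc h1 h2 h3) (enc_norm (enc_add (enc_add (enc_add (enc_mul ((F2164 M).enc h1 h2 h3) ((F2478 M).enc h1 h2 h3)) (enc_mul ((F2178 M).enc h1 h2 h3) (enc_norm (enc_add ((F2169 M).enc h1 h2 h3) (enc_mul h2 ((F2160 M).enc h1 h2 h3)))))) (enc_mul ((F2161 M).enc h1 h2 h3) ((F2480 M).enc h1 h2 h3))) (enc_mul ((F2184 M).enc h1 h2 h3) ((F2170 M).enc h1 h2 h3)))))))⟩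

noncomputable def F2511 (M : MolF) : Fn3 := ⟨_, fun a b c => (c) * ((n2153 (M.at_ a b c) a b c) * ((n169 (M.at_ a b c) a b c) * (n2169 (M.at_ a b c) a b c) - (b) * (n2177 (M.at_ a b c) a b c)) + (n2150 (M.at_ a b c) a b c) * (n2178 (M.at_ a b c) a b c)) - (n15 (M.at_ a b c) a b c) * ((n2177 (M.at_ a b c) a b c + (n3 (M.at_ a b c) a b c) * (n2167 (M.at_ a b c) a b c)) * ((n169 (M.at_ a b c) a b c) * (n2169 (M.at_ a b c) a b c) - (b) * (n2177 (M.at_ a b c) a b c)) - (n2176 (M.at_ a b c) a b c) * ((a) * (n2169 (M.at_ a b c) a b c) + (b) * (n2177 (M.at_ a b c) a b c)) - (n2202 (M.at_ a b c) a b c) * ((a) * (n2167 (M.at_ a b c) a b c) + n2177 (M.at_ a b c) a b c) + (n2203 (M.at_ a b c) a b c) * (n2178 (M.at_ a b c) a b c)), fun h1 h2 h3 => (enc_norm (enc_sub (enc_mul h3 (enc_norm (enc_add (enc_mul ((F2153 M).enc h1 h2 h3) ((F2483 M).enc h1 h2 h3)) (enc_mul ((F2150 M).enc h1 h2 h3) ((F2178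 M).enc h1 h2 h3))))) (enc_mul ((F15 M).enc h1 h2 h3) (enc_norm (enc_add (enc_sub (enc_sub (enc_mul (enc_norm (enc_add ((F2177 M).enc h1 h2 h3) (enc_mul ((F3 M).enc h1 h2 h3) ((F2167 M).enc h1 h2 h3)))) ((F2483 M).enc h1 h2 h3)) (enc_mul ((F2176 M).enc h1 h2 h3) ((F2478 M).enc h1 h2 h3))) (enc_mul ((F2202 M).enc h1 h2 h3) ((F2480 M).enc h1 h2 h3))) (enc_mul ((F2203 M).enc h1 h2 h3) ((F2178 M).enc h1 h2 h3)))))))⟩

noncomputable def F2514 (M : MolF) : Fn3 := ⟨_, fun a b c => n2231 (M.at_ a b c) a b c + (b) * ((n205 (M.at_ a b c) a b c) * ((n2153 (M.at_ a b c) a b c) * (n2169 (M.at_ a b c) a b c + (b) * (n2160 (M.at_ a b c) a b c)) + (n2150 (M.at_ a b c) a b c) * (n2170 (M.at_ a b c) a b c)) - (n15 (M.at_ a b c) a b c) * ((n2164 (M.at_ a b c) a b c) * ((a) * (n2169 (M.at_ a b c) a b c) + (b) * (n2177 (M.at_ a b c) a b c)) + (n2178 (M.at_ a b c) a b c) * (n2169 (M.at_ a b c) a b c + (b) *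 (n2160 (M.at_ a b c) a b c)) + (n2161 (M.at_ a b c) a b c) * ((a) * (n2167 (M.at_ a b c) a b c) + n2177 (M.at_ a b c) a b c) + (n2184 (M.at_ a b c) a b c) * (n2170 (M.at_ a b c) a b c))), fun h1 h2 h3 => (enc_add ((F2231 M).enc h1 h2 h3) (enc_mul h2 ((F2497 M).enc h1 h2 h3)))⟩

noncomputable def F2515 (M : MolF) : Fn3 := ⟨_, fun a b c => n2235 (M.at_ a b c) a b c + (b) * ((c) * ((n2153 (M.at_ a b c) a b c) * ((n169 (M.at_ a b c) a b c) * (n2169 (M.at_ a b c) a b c) - (b) * (n2177 (M.at_ a b c) a b c)) + (n2150 (M.at_ a b c) a b c) * (n2178 (M.at_ a b c) a b c)) - (n15 (M.at_ a b c) a b c) * ((n2177 (M.at_ a b c) a b c + (n3 (M.at_ a b c) a b c) * (n2167 (M.at_ a b c) a b c)) * ((n169 (M.at_ a b c) a b c) * (n2169 (M.at_ a b c) a b c) - (b) * (n2177 (M.at_ a b c) a b c)) - (n2176 (M.at_ a b c) a b c) * ((a) * (n2169 (M.at_ a b c) a b c) + (b) * (n2177 (M.at_ a b c) a b c)) - (n2202 (M.at_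 a b c) a b c) * ((a) * (n2167 (M.at_ a b c) a b c) + n2177 (M.at_ a b c) a b c) + (n2203 (M.at_ a b c) a b c) * (n2178 (M.at_ a b c) a b c))), fun h1 h2 h3 => (enc_add ((F2235 M).enc h1 h2 h3) (enc_mul h2 ((F2511 M).enc h1 h2 h3)))⟩

noncomputable def F2516 (M : MolF) : Fn3 := ⟨_, fun a b c => (n3 (M.at_ a b c) a b c) * (n2247 (M.at_ a b c) a b c), fun h1 h2 h3 => (enc_norm (enc_mul ((F3 M).enc h1 h2 h3) ((F2247 M).enc h1 h2 h3)))⟩

noncomputable def F2518 (M : MolF) : Fn3 := ⟨_, fun a b c => (a) * (n2255 (M.at_ a b c) a b c), fun h1 h2 h3 => (enc_mul h1 ((F2255 M).enc h1 h2 h3))⟩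

noncomputable def F2519 (M : MolF) : Fn3 := ⟨_, fun a b c => (a) * (n2255 (M.at_ a b c) a b c) - (b) * ((n3 (M.at_ a b c) a b c) * (n2247 (M.at_ a b c) a b c)), fun h1 h2 h3 => (enc_norm (enc_sub ((F2518 M).enc h1 h2 h3) (enc_mul h2 ((F2516 M).enc h1 h2 h3))))⟩

noncomputable def F2520 (M : MolF) : Fn3 := ⟨_, fun a b c => (a) * (n2253 (M.at_ a b c) a b c), fun h1 h2 h3 => (enc_mul h1 ((F2253 M).enc h1 h2 h3))⟩

noncomputable def F2526 (M : MolF) : Fn3 := ⟨_, fun a b c => (b) * (n2266 (M.at_ a b c) a b c), fun h1 h2 h3 => (enc_mul h2 ((F2266 M).enc h1 h2 h3))⟩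

noncomputable def F2528 (M : MolF) : Fn3 := ⟨_, fun a b c => (n169 (M.at_ a b c) a b c) * (n2255 (M.at_ a b c) a b c) - (b) * (n2266 (M.at_ a b c) a b c), fun h1 h2 h3 => (enc_norm (enc_sub (enc_mul ((F169 M).enc h1 h2 h3) ((F2255 M).enc h1 h2 h3)) ((F2526 M).enc h1 h2 h3)))⟩

noncomputable def F2544 (M : MolF) : Fn3 := ⟨_, fun a b c => (n205 (M.at_ a b c) a b c) * ((n2241 (M.at_ a b c) a b c) * (n2255 (M.at_ a b c) a b c - (b) * (n2247 (M.at_ a b c) a b c)) + (n2150 (M.at_ a b c) a b c) * (n2256 (M.at_ a b c) a b c)) - (n15 (M.at_ a b c) a b c) * ((n2250 (M.at_ a b c) a b c) * ((a) * (n2255 (M.at_ a b c) a b c) - (b) * ((n3 (M.at_ a b c) a b c) * (n2247 (M.at_ a b c) a b c))) + ((1 + n30 (M.at_ a b c) a b c) * (n2247 (M.at_ a b c) a b c) + n2260 (M.at_ a b c) a b c - n2255 (M.at_ a b c) a b c) * (n2255 (M.at_ a b c) a b c - (b) * (n2247 (M.at_ a b c) a b c)) + (n2161 (M.at_ a b c) a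 b c) * ((a) * (n2253 (M.at_ a b c) a b c) - (n3 (M.at_ a b c) a b c) * (n2247 (M.at_ a b c) a b c)) + (n2184 (M.at_ a b c) a b c) * (n2256 (M.at_ a b c) a b c)), fun h1 h2 h3 => (enc_norm (enc_sub (enc_mul ((F205 M).enc h1 h2 h3) (enc_norm (enc_add (enc_mul ((F2241 M).enc h1 h2 h3) (enc_norm (enc_sub ((F2255 M).enc h1 h2 h3) (enc_mul h2 ((F2247 M).enc h1 h2 h3))))) (enc_mul ((F2150 M).enc h1 h2 h3) ((F2256 M).enc h1 h2 h3))))) (enc_mul ((F15 M).enc h1 h2 h3) (enc_norm (enc_add (enc_add (enc_add (enc_mul ((F2250 M).enc h1 h2 h3) ((F2519 M).enc h1 h2 h3)) (enc_mul (enc_norm (enc_sub (enc_add (enc_mul (enc_norm (enc_add (en1 _) ((F30 M).enc h1 h2 h3))) ((F2247 M).enc h1 h2 h3)) ((F2260 M).enc h1 h2 h3)) ((F2255 M).enc h1 h2 h3))) (enc_norm (enc_sub ((F2255 M).enc h1 h2 h3) (enc_mul h2 ((F2247 M).enc h1 h2 h3)))))) (enc_mul ((F2161 M).enc h1 h2 h3) (enc_norm (enc_sub ((F2520 M).enc h1 h2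 h3) ((F2516 M).enc h1 h2 h3))))) (enc_mul ((F2184 M).enc h1 h2 h3) ((F2256 M).enc h1 h2 h3)))))))⟩

noncomputable def F2558 (M : MolF) : Fn3 := ⟨_, fun a b c => (c) * ((n2241 (M.at_ a b c) a b c) * ((n169 (M.at_ a b c) a b c) * (n2255 (M.at_ a b c) a b c) - (b) * (n2266 (M.at_ a b c) a b c)) + (n2150 (M.at_ a b c) a b c) * (n2267 (M.at_ a b c) a b c)) - (n15 (M.at_ a b c) a b c) * ((n2266 (M.at_ a b c) a b c + (n3 (M.at_ a b c) a b c) * (n2253 (M.at_ a b c) a b c)) * ((n169 (M.at_ a b c) a b c) * (n2255 (M.at_ a b c) a b c) - (b) * (n2266 (M.at_ a b c) a b c)) - (n2264 (M.at_ a b c) a b c) * ((a) * (n2255 (M.at_ a b c) a b c) + (b) * (n2266 (M.at_ a b c) a b c)) - (n2202 (M.at_ a b c) a b c) * ((a) * (n2253 (M.at_ a b c) a b c) + n2266 (M.at_ a b c) a b c) + (n2203 (M.at_ a b c) a b c) * (n2267 (M.at_ a b c) a b c)), fun h1 h2 h3 => (enc_norm (enc_sub (enc_mul h3 (enc_norm (enc_add (enc_mul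 ((F2241 M).enc h1 h2 h3) ((F2528 M).enc h1 h2 h3)) (enc_mul ((F2150 M).enc h1 h2 h3) ((F2267 M).enc h1 h2 h3))))) (enc_mul ((F15 M).enc h1 h2 h3) (enc_norm (enc_add (enc_sub (enc_sub (enc_mul (enc_norm (enc_add ((F2266 M).enc h1 h2 h3) (enc_mul ((F3 M).enc h1 h2 h3) ((F2253 M).enc h1 h2 h3)))) ((F2528 M).enc h1 h2 h3)) (enc_mul ((F2264 M).enc h1 h2 h3) (enc_norm (enc_add ((F2518 M).enc h1 h2 h3) ((F2526 M).enc h1 h2 h3))))) (enc_mul ((F2202 M).enc h1 h2 h3) (enc_norm (enc_add ((F2520 M).enc h1 h2 h3) ((F2266 M).enc h1 h2 h3))))) (enc_mul ((F2203 M).enc h1 h2 h3) ((F2267 M).enc h1 h2 h3)))))))⟩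

noncomputable def F2560 (M : MolF) : Fn3 := ⟨_, fun a b c => (a) * (n2255 (M.at_ a b c) a b c) - (b) * ((n3 (M.at_ a b c) a b c) * (n2247 (M.at_ a b c) a b c)) + (b) * (n2255 (M.at_ a b c) a b c - (b) * (n2247 (M.at_ a b c) a b c)), fun h1 h2 h3 => (enc_add ((F2519 M).enc h1 h2 h3) (enc_mul h2 (enc_norm (enc_sub ((F2255 M).enc h1 h2 h3) (enc_mul h2 ((F2247 M).enc h1 h2 h3))))))⟩

noncomputable def F2565 (M : MolF) : Fn3 := ⟨_, fun a b c => n2231 (M.at_ a b c) a b c + (b) * ((n205 (M.at_ a b c) a b c) * ((n2241 (M.at_ a b c) a b c) * (n2255 (M.at_ a b c) a b c - (b) * (n2247 (M.at_ a b c) a b c)) + (n2150 (M.at_ a b c) a b c) * (n2256 (M.at_ a b c) a b c)) - (n15 (M.at_ a b c) a b c) * ((n2250 (M.at_ a b c) a b c) * ((a) * (n2255 (M.at_ a b c) a b c) - (b) * ((n3 (M.at_ a b c) a b c) * (n2247 (M.at_ a b c) a b c))) + ((1 + n30 (M.at_ a b c) a b c) * (n2247 (M.at_ a b c) a b c) + n2260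 (M.at_ a b c) a b c - n2255 (M.at_ a b c) a b c) * (n2255 (M.at_ a b c) a b c - (b) * (n2247 (M.at_ a b c) a b c)) + (n2161 (M.at_ a b c) a b c) * ((a) * (n2253 (M.at_ a b c) a b c) - (n3 (M.at_ a b c) a b c) * (n2247 (M.at_ a b c) a b c)) + (n2184 (M.at_ a b c) a b c) * (n2256 (M.at_ a b c) a b c))), fun h1 h2 h3 => (enc_add ((F2231 M).enc h1 h2 h3) (enc_mul h2 ((F2544 M).enc h1 h2 h3)))⟩

noncomputable def F2566 (M : MolF) : Fn3 := ⟨_, fun a b c => n2235 (M.at_ a b c) a b c + (b) * ((c) * ((n2241 (M.at_ a b c) a b c) * ((n169 (M.at_ a b c) a b c) * (n2255 (M.at_ a b c) a b c) - (b) * (n2266 (M.at_ a b c) a b c)) + (n2150 (M.at_ a b c) a b c) * (n2267 (M.at_ a b c) a b c)) - (n15 (M.at_ a b c) a b c) * ((n2266 (M.at_ a b c) a b c + (n3 (M.at_ a b c) a b c) * (n2253 (M.at_ a b c) a b c)) * ((n169 (M.at_ a b c) a b c) * (n2255 (M.at_ a b c) a b c) - (b) * (n2266 (M.at_ a b c) a b c)) -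 (n2264 (M.at_ a b c) a b c) * ((a) * (n2255 (M.at_ a b c) a b c) + (b) * (n2266 (M.at_ a b c) a b c)) - (n2202 (M.at_ a b c) a b c) * ((a) * (n2253 (M.at_ a b c) a b c) + n2266 (M.at_ a b c) a b c) + (n2203 (M.at_ a b c) a b c) * (n2267 (M.at_ a b c) a b c))), fun h1 h2 h3 => (enc_add ((F2235 M).enc h1 h2 h3) (enc_mul h2 ((F2558 M).enc h1 h2 h3)))⟩

noncomputable def F2567 (M : MolF) : Fn3 := ⟨_, fun a b c => (n3 (M.at_ a b c) a b c) * (n2330 (M.at_ a b c) a b c), fun h1 h2 h3 => (enc_norm (enc_mul ((F3 M).enc h1 h2 h3) ((F2330 M).enc h1 h2 h3)))⟩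

noncomputable def F2569 (M : MolF) : Fn3 := ⟨_, fun a b c => (a) * (n2339 (M.at_ a b c) a b c), fun h1 h2 h3 => (enc_mul h1 ((F2339 M).enc h1 h2 h3))⟩

noncomputable def F2570 (M : MolF) : Fn3 := ⟨_, fun a b c => (a) * (n2339 (M.at_ a b c) a b c) + (b) * ((n3 (M.at_ a b c) a b c) * (n2330 (M.at_ a b c) a b c)), fun h1 h2 h3 => (enc_norm (enc_add ((F2569 M).enc h1 h2 h3) (enc_mul h2 ((F2567 M).enc h1 h2 h3))))⟩

noncomputable def F2571 (M : MolF) : Fn3 := ⟨_, fun a b c => (a) * (n2337 (M.at_ a b c) a b c), fun h1 h2 h3 => (enc_mul h1 ((F2337 M).enc h1 h2 h3))⟩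

noncomputable def F2578 (M : MolF) : Fn3 := ⟨_, fun a b c => (b) * (n2350 (M.at_ a b c) a b c), fun h1 h2 h3 => (enc_mul h2 ((F2350 M).enc h1 h2 h3))⟩

noncomputable def F2581 (M : MolF) : Fn3 := ⟨_, fun a b c => (n169 (M.at_ a b c) a b c) * (n2339 (M.at_ a b c) a b c) + (b) * (n2350 (M.at_ a b c) a b c), fun h1 h2 h3 => (enc_norm (enc_add (enc_mul ((F169 M).enc h1 h2 h3) ((F2339 M).enc h1 h2 h3)) ((F2578 M).enc h1 h2 h3)))⟩

noncomputable def F2597 (M : MolF) : Fn3 := ⟨_, fun a b c => (n205 (M.at_ a b c) a b c) * ((n2324 (M.at_ a b c) a b c) * (n2339 (M.at_ a b c) a b c + (b) * (n2330 (M.at_ a b c) a b c)) + (n2150 (M.at_ a b c) a b c) * (n2340 (M.at_ a b c) a b c)) - (n15 (M.at_ a b c) a b c) * ((n2334 (M.at_ a b c) a b c) * ((a) * (n2339 (M.at_ a b c) a b c) + (b) * ((n3 (M.at_ a b c) a b c) * (n2330 (M.at_ a b c) a b c))) + (n2344 (M.at_ a b c) a b c + n2339 (M.at_ a b c) a b c -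 (1 + n372 (M.at_ a b c) a b c) * (n2330 (M.at_ a b c) a b c)) * (n2339 (M.at_ a b c) a b c + (b) * (n2330 (M.at_ a b c) a b c)) + (n2331 (M.at_ a b c) a b c) * ((a) * (n2337 (M.at_ a b c) a b c) + (n3 (M.at_ a b c) a b c) * (n2330 (M.at_ a b c) a b c)) + (n2184 (M.at_ a b c) a b c) * (n2340 (M.at_ a b c) a b c)), fun h1 h2 h3 => (enc_norm (enc_sub (enc_mul ((F205 M).enc h1 h2 h3) (enc_norm (enc_add (enc_mul ((F2324 M).enc h1 h2 h3) (enc_norm (enc_add ((F2339 M).enc h1 h2 h3) (enc_mul h2 ((F2330 M).enc h1 h2 h3))))) (enc_mul ((F2150 M).enc h1 h2 h3) ((F2340 M).enc h1 h2 h3))))) (enc_mul ((F15 M).enc h1 h2 h3) (enc_norm (enc_add (enc_add (enc_add (enc_mul ((F2334 M).enc h1 h2 h3) ((F2570 M).enc h1 h2 h3)) (enc_mul (enc_norm (enc_sub (enc_add ((F2344 M).enc h1 h2 h3) ((F2339 M).enc h1 h2 h3)) (enc_mul ((F1637 M).enc h1 h2 h3) ((F2330 M).enc h1 h2 h3)))) (enc_norm (enc_add ((F2339 M).enc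 h1 h2 h3) (enc_mul h2 ((F2330 M).enc h1 h2 h3)))))) (enc_mul ((F2331 M).enc h1 h2 h3) (enc_norm (enc_add ((F2571 M).enc h1 h2 h3) ((F2567 M).enc h1 h2 h3))))) (enc_mul ((F2184 M).enc h1 h2 h3) ((F2340 M).enc h1 h2 h3)))))))⟩

noncomputable def F2611 (M : MolF) : Fn3 := ⟨_, fun a b c => (c) * ((n2324 (M.at_ a b c) a b c) * ((n169 (M.at_ a b c) a b c) * (n2339 (M.at_ a b c) a b c) + (b) * (n2350 (M.at_ a b c) a b c)) + (n2150 (M.at_ a b c) a b c) * (n2351 (M.at_ a b c) a b c)) - (n15 (M.at_ a b c) a b c) * (((n3 (M.at_ a b c) a b c) * (n2337 (M.at_ a b c) a b c) - n2350 (M.at_ a b c) a b c) * ((n169 (M.at_ a b c) a b c) * (n2339 (M.at_ a b c) a b c) + (b) * (n2350 (M.at_ a b c) a b c)) - (n2348 (M.at_ a b c) a b c) * ((a) * (n2339 (M.at_ a b c) a b c) - (b) * (n2350 (M.at_ a b c) a b c)) - (n2373 (M.at_ a b c) a b c) * ((a) * (n2337 (M.at_ a b c) a b c) - n2350 (M.at_ a b c) a b c) + (n2203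 (M.at_ a b c) a b c) * (n2351 (M.at_ a b c) a b c)), fun h1 h2 h3 => (enc_norm (enc_sub (enc_mul h3 (enc_norm (enc_add (enc_mul ((F2324 M).enc h1 h2 h3) ((F2581 M).enc h1 h2 h3)) (enc_mul ((F2150 M).enc h1 h2 h3) ((F2351 M).enc h1 h2 h3))))) (enc_mul ((F15 M).enc h1 h2 h3) (enc_norm (enc_add (enc_sub (enc_sub (enc_mul (enc_norm (enc_sub (enc_mul ((F3 M).enc h1 h2 h3) ((F2337 M).enc h1 h2 h3)) ((F2350 M).enc h1 h2 h3))) ((F2581 M).enc h1 h2 h3)) (enc_mul ((F2348 M).enc h1 h2 h3) (enc_norm (enc_sub ((F2569 M).enc h1 h2 h3) ((F2578 M).enc h1 h2 h3))))) (enc_mul ((F2373 M).enc h1 h2 h3) (enc_norm (enc_sub ((F2571 M).enc h1 h2 h3) ((F2350 M).enc h1 h2 h3))))) (enc_mul ((F2203 M).enc h1 h2 h3) ((F2351 M).enc h1 h2 h3)))))))⟩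

noncomputable def F2613 (M : MolF) : Fn3 := ⟨_, fun a b c => (a) * (n2339 (M.at_ a b c) a b c) + (b) * ((n3 (M.at_ a b c) a b c) * (n2330 (M.at_ a b c) a b c)) - (b) * (n2339 (M.at_ a b c) a b c + (b) * (n2330 (M.at_ a b c) a b c)), fun h1 h2 h3 => (enc_sub ((F2570 M).enc h1 h2 h3) (enc_mul h2 (enc_norm (enc_add ((F2339 M).enc h1 h2 h3) (enc_mul h2 ((F2330 M).enc h1 h2 h3))))))⟩

noncomputable def F2616 (M : MolF) : Fn3 := ⟨_, fun a b c => n2231 (M.at_ a b c) a b c + (b) * ((n205 (M.at_ a b c) a b c) * ((n2324 (M.at_ a b c) a b c) * (n2339 (M.at_ a b c) a b c + (b) * (n2330 (M.at_ a b c) a b c)) + (n2150 (M.at_ a b c) a b c) * (n2340 (M.at_ a b c) a b c)) - (n15 (M.at_ a b c) a b c) * ((n2334 (M.at_ a b c) a b c) * ((a) * (n2339 (M.at_ a b c) a b c) + (b) * ((n3 (M.at_ a b c) a b c) * (n2330 (M.at_ a b c) a b c))) + (n2344 (M.at_ a b c) a b c + n2339 (M.at_ a b c) a b c - (1 + n372 (M.at_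 a b c) a b c) * (n2330 (M.at_ a b c) a b c)) * (n2339 (M.at_ a b c) a b c + (b) * (n2330 (M.at_ a b c) a b c)) + (n2331 (M.at_ a b c) a b c) * ((a) * (n2337 (M.at_ a b c) a b c) + (n3 (M.at_ a b c) a b c) * (n2330 (M.at_ a b c) a b c)) + (n2184 (M.at_ a b c) a b c) * (n2340 (M.at_ a b c) a b c))), fun h1 h2 h3 => (enc_add ((F2231 M).enc h1 h2 h3) (enc_mul h2 ((F2597 M).enc h1 h2 h3)))⟩

noncomputable def F2617 (M : MolF) : Fn3 := ⟨_, fun a b c => n2235 (M.at_ a b c) a b c + (b) * ((c) * ((n2324 (M.at_ a b c) a b c) * ((n169 (M.at_ a b c) a b c) * (n2339 (M.at_ a b c) a b c) + (b) * (n2350 (M.at_ a b c) a b c)) + (n2150 (M.at_ a b c) a b c) * (n2351 (M.at_ a b c) a b c)) - (n15 (M.at_ a b c) a b c) * (((n3 (M.at_ a b c) a b c) * (n2337 (M.at_ a b c) a b c) - n2350 (M.at_ a b c) a b c) * ((n169 (M.at_ a b c) a b c) * (n2339 (M.at_ a b c) a b c) + (b) * (n2350 (M.at_ a b c) a b c)) - (n2348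 (M.at_ a b c) a b c) * ((a) * (n2339 (M.at_ a b c) a b c) - (b) * (n2350 (M.at_ a b c) a b c)) - (n2373 (M.at_ a b c) a b c) * ((a) * (n2337 (M.at_ a b c) a b c) - n2350 (M.at_ a b c) a b c) + (n2203 (M.at_ a b c) a b c) * (n2351 (M.at_ a b c) a b c))), fun h1 h2 h3 => (enc_add ((F2235 M).enc h1 h2 h3) (enc_mul h2 ((F2611 M).enc h1 h2 h3)))⟩

noncomputable def F2619 (M : MolF) : Fn3 := ⟨_, fun a b c => (a) * (n2417 (M.at_ a b c) a b c), fun h1 h2 h3 => (enc_mul h1 ((F2417 M).enc h1 h2 h3))⟩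

noncomputable def F2620 (M : MolF) : Fn3 := ⟨_, fun a b c => (a) * (n2417 (M.at_ a b c) a b c) - (b) * ((n3 (M.at_ a b c) a b c) * (n2409 (M.at_ a b c) a b c)), fun h1 h2 h3 => (enc_norm (enc_sub ((F2619 M).enc h1 h2 h3) (enc_mul h2 (enc_norm (enc_mul ((F3 M).enc h1 h2 h3) ((F2409 M).enc h1 h2 h3))))))⟩

noncomputable def F2621 (M : MolF) : Fn3 := ⟨_, fun a b c => (a) * (n2415 (M.at_ a b c) a b c), fun h1 h2 h3 => (enc_mul h1 ((F2415 M).enc h1 h2 h3))⟩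

noncomputable def F2626 (M : MolF) : Fn3 := ⟨_, fun a b c => n2426 (M.at_ a b c) a b c - n2417 (M.at_ a b c) a b c, fun h1 h2 h3 => (enc_norm (enc_sub ((F2426 M).enc h1 h2 h3) ((F2417 M).enc h1 h2 h3)))⟩

noncomputable def F2627 (M : MolF) : Fn3 := ⟨_, fun a b c => (b) * (n2426 (M.at_ a b c) a b c - n2417 (M.at_ a b c) a b c), fun h1 h2 h3 => (enc_mul h2 ((F2626 M).enc h1 h2 h3))⟩

noncomputable def F2629 (M : MolF) : Fn3 := ⟨_, fun a b c => (n169 (M.at_ a b c) a b c) * (n2417 (M.at_ a b c) a b c) - (b) * (n2426 (M.at_ a b c) a b c - n2417 (M.at_ a b c) a b c), fun h1 h2 h3 => (enc_norm (enc_sub (enc_mul ((F169 M).enc h1 h2 h3) ((F2417 M).enc h1 h2 h3)) ((F2627 M).enc h1 h2 h3)))⟩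

noncomputable def F2634 (M : MolF) : Fn3 := ⟨_, fun a b c => n2421 (M.at_ a b c) a b c - (n2426 (M.at_ a b c) a b c - n2417 (M.at_ a b c) a b c), fun h1 h2 h3 => (enc_norm (enc_sub ((F2421 M).enc h1 h2 h3) ((F2626 M).enc h1 h2 h3)))⟩

noncomputable def F2646 (M : MolF) : Fn3 := ⟨_, fun a b c => (n205 (M.at_ a b c) a b c) * ((n2403 (M.at_ a b c) a b c) * (n2417 (M.at_ a b c) a b c - (b) * (n2409 (M.at_ a b c) a b c)) + (n2150 (M.at_ a b c) a b c) * (n2418 (M.at_ a b c) a b c)) - (n15 (M.at_ a b c) a b c) * ((n2412 (M.at_ a b c) a b c) * ((a) * (n2417 (M.at_ a b c) a b c) - (b) * ((n3 (M.at_ a b c) a b c) * (n2409 (M.at_ a b c) a b c))) + ((n3 (M.at_ a b c) a b c) * (n2409 (M.at_ a b c) a b c) + n2421 (M.at_ a b c) a b c) * (n2417 (M.at_ a b c) a b c - (b) * (n2409 (M.at_ a b c) a b c)) + (n2331 (M.at_ a b c) a b c) * ((a) * (n2415 (M.at_ a b c) a b c) - (n3 (M.at_ a b c) a b c) * (n2409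 (M.at_ a b c) a b c)) + (n2184 (M.at_ a b c) a b c) * (n2418 (M.at_ a b c) a b c)), fun h1 h2 h3 => (enc_norm (enc_sub (enc_mul ((F205 M).enc h1 h2 h3) (enc_norm (enc_add (enc_mul ((F2403 M).enc h1 h2 h3) (enc_norm (enc_sub ((F2417 M).enc h1 h2 h3) (enc_mul h2 ((F2409 M).enc h1 h2 h3))))) (enc_mul ((F2150 M).enc h1 h2 h3) ((F2418 M).enc h1 h2 h3))))) (enc_mul ((F15 M).enc h1 h2 h3) (enc_norm (enc_add (enc_add (enc_add (enc_mul ((F2412 M).enc h1 h2 h3) ((F2620 M).enc h1 h2 h3)) (enc_mul (enc_norm (enc_add (enc_mul ((F3 M).enc h1 h2 h3) ((F2409 M).enc h1 h2 h3)) ((F2421 M).enc h1 h2 h3))) (enc_norm (enc_sub ((F2417 M).enc h1 h2 h3) (enc_mul h2 ((F2409 M).enc h1 h2 h3)))))) (enc_mul ((F2331 M).enc h1 h2 h3) (enc_norm (enc_sub ((F2621 M).enc h1 h2 h3) (enc_mul ((F3 M).enc h1 h2 h3) ((F2409 M).enc h1 h2 h3)))))) (enc_mul ((F2184 M).enc h1 h2 h3) ((F2418 M).enc h1 h2 h3)))))))⟩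

noncomputable def F2661 (M : MolF) : Fn3 := ⟨_, fun a b c => (c) * ((n2403 (M.at_ a b c) a b c) * ((n169 (M.at_ a b c) a b c) * (n2417 (M.at_ a b c) a b c) - (b) * (n2426 (M.at_ a b c) a b c - n2417 (M.at_ a b c) a b c)) + (n2150 (M.at_ a b c) a b c) * (n2421 (M.at_ a b c) a b c - (n2426 (M.at_ a b c) a b c - n2417 (M.at_ a b c) a b c))) - (n15 (M.at_ a b c) a b c) * ((n2426 (M.at_ a b c) a b c + (n3 (M.at_ a b c) a b c) * (n2415 (M.at_ a b c) a b c) - n2417 (M.at_ a b c) a b c) * ((n169 (M.at_ a b c) a b c) * (n2417 (M.at_ a b c) a b c) - (b) * (n2426 (M.at_ a b c) a b c - n2417 (M.at_ a b c) a b c)) - (n2424 (M.at_ a b c) a b c) * ((a) * (n2417 (M.at_ a b c) a b c) + (b) * (n2426 (M.at_ a b c) a b c - n2417 (M.at_ a b c) a b c)) - (n2373 (M.at_ a b c) a b c) * ((a) * (n2415 (M.at_ a b c) a b c) + (n2426 (M.at_ a b c) a b c - n2417 (M.at_ a b c) a b c)) + (n2203 (M.at_ a b c) a b c)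 * (n2421 (M.at_ a b c) a b c - (n2426 (M.at_ a b c) a b c - n2417 (M.at_ a b c) a b c))), fun h1 h2 h3 => (enc_norm (enc_sub (enc_mul h3 (enc_norm (enc_add (enc_mul ((F2403 M).enc h1 h2 h3) ((F2629 M).enc h1 h2 h3)) (enc_mul ((F2150 M).enc h1 h2 h3) ((F2634 M).enc h1 h2 h3))))) (enc_mul ((F15 M).enc h1 h2 h3) (enc_norm (enc_add (enc_sub (enc_sub (enc_mul (enc_norm (enc_sub (enc_add ((F2426 M).enc h1 h2 h3) (enc_mul ((F3 M).enc h1 h2 h3) ((F2415 M).enc h1 h2 h3))) ((F2417 M).enc h1 h2 h3))) ((F2629 M).enc h1 h2 h3)) (enc_mul ((F2424 M).enc h1 h2 h3) (enc_norm (enc_add ((F2619 M).enc h1 h2 h3) ((F2627 M).enc h1 h2 h3))))) (enc_mul ((F2373 M).enc h1 h2 h3) (enc_norm (enc_add ((F2621 M).enc h1 h2 h3) ((F2626 M).enc h1 h2 h3))))) (enc_mul ((F2203 M).enc h1 h2 h3) ((F2634 M).enc h1 h2 h3)))))))⟩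

noncomputable def F2666 (M : MolF) : Fn3 := ⟨_, fun a b c => n2231 (M.at_ a b c) a b c + (b) * ((n205 (M.at_ a b c) a b c) * ((n2403 (M.at_ a b c) a b c) * (n2417 (M.at_ a b c) a b c - (b) * (n2409 (M.at_ a b c) a b c)) + (n2150 (M.at_ a b c) a b c) * (n2418 (M.at_ a b c) a b c)) - (n15 (M.at_ a b c) a b c) * ((n2412 (M.at_ a b c) a b c) * ((a) * (n2417 (M.at_ a b c) a b c) - (b) * ((n3 (M.at_ a b c) a b c) * (n2409 (M.at_ a b c) a b c))) + ((n3 (M.at_ a b c) a b c) * (n2409 (M.at_ a b c) a b c) + n2421 (M.at_ a b c) a b c) * (n2417 (M.at_ a b c) a b c - (b) * (n2409 (M.at_ a b c) a b c)) + (n2331 (M.at_ a b c) a b c) * ((a) * (n2415 (M.at_ a b c) a b c) - (n3 (M.at_ a b c) a b c) * (n2409 (M.at_ a b c) a b c)) + (n2184 (M.at_ a b c) a b c) * (n2418 (M.at_ a b c) a b c))), fun h1 h2 h3 => (enc_add ((F2231 M).enc h1 h2 h3) (enc_mul h2 ((F2646 M).enc h1 h2 h3)))⟩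

noncomputable def F2667 (M : MolF) : Fn3 := ⟨_, fun a b c => n2235 (M.at_ a b c) a b c + (b) * ((c) * ((n2403 (M.at_ a b c) a b c) * ((n169 (M.at_ a b c) a b c) * (n2417 (M.at_ a b c) a b c) - (b) * (n2426 (M.at_ a b c) a b c - n2417 (M.at_ a b c) a b c)) + (n2150 (M.at_ a b c) a b c) * (n2421 (M.at_ a b c) a b c - (n2426 (M.at_ a b c) a b c - n2417 (M.at_ a b c) a b c))) - (n15 (M.at_ a b c) a b c) * ((n2426 (M.at_ a b c) a b c + (n3 (M.at_ a b c) a b c) * (n2415 (M.at_ a b c) a b c) - n2417 (M.at_ a b c) a b c) * ((n169 (M.at_ a b c) a b c) * (n2417 (M.at_ a b c) a b c) - (b) * (n2426 (M.at_ a b c) a b c - n2417 (M.at_ a b c) a b c)) - (n2424 (M.at_ a b c) a b c) * ((a) * (n2417 (M.at_ a b c) a b c) + (b) * (n2426 (M.at_ a b c) a b c - n2417 (M.at_ a b c) a b c)) - (n2373 (M.at_ a b c) a b c) * ((a) * (n2415 (M.at_ a b c) a b c) + (n2426 (M.at_ a b c) a b c - n2417 (M.at_ a b c) a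 b c)) + (n2203 (M.at_ a b c) a b c) * (n2421 (M.at_ a b c) a b c - (n2426 (M.at_ a b c) a b c - n2417 (M.at_ a b c) a b c)))), fun h1 h2 h3 => (enc_add ((F2235 M).enc h1 h2 h3) (enc_mul h2 ((F2661 M).enc h1 h2 h3)))⟩

noncomputable def g3Ap_n0 (M : MolF) : Fn3 := ⟨_, fun a b c => -(n2229 (M.at_ a b c) a b c), fun {E A B C a b c} h1 h2 h3 => encc (b := -(n2229 (M.at_ a b c) a b c)) (enc_neg ((F2478 M).enc h1 h2 h3)) (e3Ap_n0 (M.at_ a b c))⟩

noncomputable def g3Ap_n1 (M : MolF) : Fn3 := ⟨_, fun a b c => n2201 (M.at_ a b c) a b c, fun {E A B C a b c} h1 h2 h3 => encc (b := n2201 (M.at_ a b c) a b c) ((F2497 M).enc h1 h2 h3) (e3Ap_n1 (M.at_ a b c))⟩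

noncomputable def g3Ap_n2 (M : MolF) : Fn3 := ⟨_, fun a b c => n2233 (M.at_ a b c) a b c, fun {E A B C a b c} h1 h2 h3 => encc (b := n2233 (M.at_ a b c) a b c) ((F2514 M).enc h1 h2 h3) (e3Ap_n2 (M.at_ a b c))⟩

noncomputable def g3Ap_m0 (M : MolF) : Fn3 := ⟨_, fun a b c => n2229 (M.at_ a b c) a b c, fun {E A B C a b c} h1 h2 h3 => encc (b := n2229 (M.at_ a b c) a b c) ((F2478 M).enc h1 h2 h3) (e3Ap_m0 (M.at_ a b c))⟩

noncomputable def g3Ap_m1 (M : MolF) : Fn3 := ⟨_, fun a b c => n2220 (M.at_ a b c) a b c, fun {E A B C a b c} h1 h2 h3 => encc (b := n2220 (M.at_ a b c) a b c) ((F2511 M).enc h1 h2 h3) (e3Ap_m1 (M.at_ a b c))⟩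

noncomputable def g3Ap_m2 (M : MolF) : Fn3 := ⟨_, fun a b c => n2237 (M.at_ a b c) a b c, fun {E A B C a b c} h1 h2 h3 => encc (b := n2237 (M.at_ a b c) a b c) ((F2515 M).enc h1 h2 h3) (e3Ap_m2 (M.at_ a b c))⟩

noncomputable def g3Ap_c0 (M : MolF) : Fn3 := ⟨_, fun a b c => n2160 (M.at_ a b c) a b c, fun h1 h2 h3 => ((F2160 M).enc h1 h2 h3)⟩

noncomputable def g3Ap_c1 (M : MolF) : Fn3 := ⟨_, fun a b c => n2182 (M.at_ a b c) a b c, fun h1 h2 h3 => ((F2182 M).enc h1 h2 h3)⟩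

noncomputable def g3Ap_c2 (M : MolF) : Fn3 := ⟨_, fun a b c => n2222 (M.at_ a b c) a b c, fun h1 h2 h3 => ((F2222 M).enc h1 h2 h3)⟩

noncomputable def g3Ap_c3 (M : MolF) : Fn3 := ⟨_, fun a b c => n2224 (M.at_ a b c) a b c, fun h1 h2 h3 => ((F2224 M).enc h1 h2 h3)⟩

noncomputable def g3Ap_c4 (M : MolF) : Fn3 := ⟨_, fun a b c => n2156 (M.at_ a b c) a b c, fun h1 h2 h3 => ((F2156 M).enc h1 h2 h3)⟩

noncomputable def g3Am_n0 (M : MolF) : Fn3 := ⟨_, fun a b c => -(n2307 (M.at_ a b c) a b c), fun {E A B C a b c} h1 h2 h3 => encc (b := -(n2307 (M.at_ a b c) a b c)) (enc_neg ((F2560 M).enc h1 h2 h3)) (e3Am_n0 (M.at_ a b c))⟩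

noncomputable def g3Am_n1 (M : MolF) : Fn3 := ⟨_, fun a b c => -(n2286 (M.at_ a b c) a b c), fun {E A B C a b c} h1 h2 h3 => encc (b := -(n2286 (M.at_ a b c) a b c)) (enc_neg ((F2544 M).enc h1 h2 h3)) (e3Am_n1 (M.at_ a b c))⟩

noncomputable def g3Am_n2 (M : MolF) : Fn3 := ⟨_, fun a b c => n2311 (M.at_ a b c) a b c, fun {E A B C a b c} h1 h2 h3 => encc (b := n2311 (M.at_ a b c) a b c) ((F2565 M).enc h1 h2 h3) (e3Am_n2 (M.at_ a b c))⟩

noncomputable def g3Am_m0 (M : MolF) : Fn3 := ⟨_, fun a b c => n2307 (M.at_ a b c) a b c, fun {E A B C a b c} h1 h2 h3 => encc (b := n2307 (M.at_ a b c) a b c) ((F2560 M).enc h1 h2 h3) (e3Am_m0 (M.at_ a b c))⟩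

noncomputable def g3Am_m1 (M : MolF) : Fn3 := ⟨_, fun a b c => -(n2302 (M.at_ a b c) a b c), fun {E A B C a b c} h1 h2 h3 => encc (b := -(n2302 (M.at_ a b c) a b c)) (enc_neg ((F2558 M).enc h1 h2 h3)) (e3Am_m1 (M.at_ a b c))⟩

noncomputable def g3Am_m2 (M : MolF) : Fn3 := ⟨_, fun a b c => n2313 (M.at_ a b c) a b c, fun {E A B C a b c} h1 h2 h3 => encc (b := n2313 (M.at_ a b c) a b c) ((F2566 M).enc h1 h2 h3) (e3Am_m2 (M.at_ a b c))⟩

noncomputable def g3Am_c0 (M : MolF) : Fn3 := ⟨_, fun a b c => n2247 (M.at_ a b c) a b c, fun h1 h2 h3 => ((F2247 M).enc h1 h2 h3)⟩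

noncomputable def g3Am_c1 (M : MolF) : Fn3 := ⟨_, fun a b c => n2266 (M.at_ a b c) a b c, fun h1 h2 h3 => ((F2266 M).enc h1 h2 h3)⟩

noncomputable def g3Am_c2 (M : MolF) : Fn3 := ⟨_, fun a b c => n2222 (M.at_ a b c) a b c, fun h1 h2 h3 => ((F2222 M).enc h1 h2 h3)⟩

noncomputable def g3Am_c3 (M : MolF) : Fn3 := ⟨_, fun a b c => n2224 (M.at_ a b c) a b c, fun h1 h2 h3 => ((F2224 M).enc h1 h2 h3)⟩

noncomputable def g3Am_c4 (M : MolF) : Fn3 := ⟨_, fun a b c => n2156 (M.at_ a b c) a b c, fun h1 h2 h3 => ((F2156 M).enc h1 h2 h3)⟩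

noncomputable def g3Bp_n0 (M : MolF) : Fn3 := ⟨_, fun a b c => -(n2395 (M.at_ a b c) a b c), fun {E A B C a b c} h1 h2 h3 => encc (b := -(n2395 (M.at_ a b c) a b c)) (enc_neg ((F2613 M).enc h1 h2 h3)) (e3Bp_n0 (M.at_ a b c))⟩

noncomputable def g3Bp_n1 (M : MolF) : Fn3 := ⟨_, fun a b c => n2372 (M.at_ a b c) a b c, fun {E A B C a b c} h1 h2 h3 => encc (b := n2372 (M.at_ a b c) a b c) ((F2597 M).enc h1 h2 h3) (e3Bp_n1 (M.at_ a b c))⟩

noncomputable def g3Bp_n2 (M : MolF) : Fn3 := ⟨_, fun a b c => n2397 (M.at_ a b c) a b c, fun {E A B C a b c} h1 h2 h3 => encc (b := n2397 (M.at_ a b c) a b c) ((F2616 M).enc h1 h2 h3) (e3Bp_n2 (M.at_ a b c))⟩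

noncomputable def g3Bp_m0 (M : MolF) : Fn3 := ⟨_, fun a b c => n2395 (M.at_ a b c) a b c, fun {E A B C a b c} h1 h2 h3 => encc (b := n2395 (M.at_ a b c) a b c) ((F2613 M).enc h1 h2 h3) (e3Bp_m0 (M.at_ a b c))⟩

noncomputable def g3Bp_m1 (M : MolF) : Fn3 := ⟨_, fun a b c => n2390 (M.at_ a b c) a b c, fun {E A B C a b c} h1 h2 h3 => encc (b := n2390 (M.at_ a b c) a b c) ((F2611 M).enc h1 h2 h3) (e3Bp_m1 (M.at_ a b c))⟩

noncomputable def g3Bp_m2 (M : MolF) : Fn3 := ⟨_, fun a b c => n2399 (M.at_ a b c) a b c, fun {E A B C a b c} h1 h2 h3 => encc (b := n2399 (M.at_ a b c) a b c) ((F2617 M).enc h1 h2 h3) (e3Bp_m2 (M.at_ a b c))⟩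

noncomputable def g3Bp_c0 (M : MolF) : Fn3 := ⟨_, fun a b c => n2330 (M.at_ a b c) a b c, fun h1 h2 h3 => ((F2330 M).enc h1 h2 h3)⟩

noncomputable def g3Bp_c1 (M : MolF) : Fn3 := ⟨_, fun a b c => n2350 (M.at_ a b c) a b c, fun h1 h2 h3 => ((F2350 M).enc h1 h2 h3)⟩

noncomputable def g3Bp_c2 (M : MolF) : Fn3 := ⟨_, fun a b c => n2222 (M.at_ a b c) a b c, fun h1 h2 h3 => ((F2222 M).enc h1 h2 h3)⟩

noncomputable def g3Bp_c3 (M : MolF) : Fn3 := ⟨_, fun a b c => n2224 (M.at_ a b c) a b c, fun h1 h2 h3 => ((F2224 M).enc h1 h2 h3)⟩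

noncomputable def g3Bp_c4 (M : MolF) : Fn3 := ⟨_, fun a b c => n2156 (M.at_ a b c) a b c, fun h1 h2 h3 => ((F2156 M).enc h1 h2 h3)⟩

noncomputable def g3Bm_n0 (M : MolF) : Fn3 := ⟨_, fun a b c => -(n2469 (M.at_ a b c) a b c), fun {E A B C a b c} h1 h2 h3 => encc (b := -(n2469 (M.at_ a b c) a b c)) (enc_neg ((F2620 M).enc h1 h2 h3)) (e3Bm_n0 (M.at_ a b c))⟩

noncomputable def g3Bm_n1 (M : MolF) : Fn3 := ⟨_, fun a b c => -(n2448 (M.at_ a b c) a b c), fun {E A B C a b c} h1 h2 h3 => encc (b := -(n2448 (M.at_ a b c) a b c)) (enc_neg ((F2646 M).enc h1 h2 h3)) (e3Bm_n1 (M.at_ a b c))⟩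

noncomputable def g3Bm_n2 (M : MolF) : Fn3 := ⟨_, fun a b c => n2473 (M.at_ a b c) a b c, fun {E A B C a b c} h1 h2 h3 => encc (b := n2473 (M.at_ a b c) a b c) ((F2666 M).enc h1 h2 h3) (e3Bm_n2 (M.at_ a b c))⟩

noncomputable def g3Bm_m0 (M : MolF) : Fn3 := ⟨_, fun a b c => n2469 (M.at_ a b c) a b c, fun {E A B C a b c} h1 h2 h3 => encc (b := n2469 (M.at_ a b c) a b c) ((F2620 M).enc h1 h2 h3) (e3Bm_m0 (M.at_ a b c))⟩

noncomputable def g3Bm_m1 (M : MolF) : Fn3 := ⟨_, fun a b c => -(n2464 (M.at_ a b c) a b c), fun {E A B C a b c} h1 h2 h3 => encc (b := -(n2464 (M.at_ a b c) a b c)) (enc_neg ((F2661 M).enc h1 h2 h3)) (e3Bm_m1 (M.at_ a b c))⟩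

noncomputable def g3Bm_m2 (M : MolF) : Fn3 := ⟨_, fun a b c => n2475 (M.at_ a b c) a b c, fun {E A B C a b c} h1 h2 h3 => encc (b := n2475 (M.at_ a b c) a b c) ((F2667 M).enc h1 h2 h3) (e3Bm_m2 (M.at_ a b c))⟩

noncomputable def g3Bm_c0 (M : MolF) : Fn3 := ⟨_, fun a b c => n2409 (M.at_ a b c) a b c, fun h1 h2 h3 => ((F2409 M).enc h1 h2 h3)⟩

noncomputable def g3Bm_c1 (M : MolF) : Fn3 := ⟨_, fun a b c => n2426 (M.at_ a b c) a b c, fun h1 h2 h3 => ((F2426 M).enc h1 h2 h3)⟩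

noncomputable def g3Bm_c2 (M : MolF) : Fn3 := ⟨_, fun a b c => n2222 (M.at_ a b c) a b c, fun h1 h2 h3 => ((F2222 M).enc h1 h2 h3)⟩

noncomputable def g3Bm_c3 (M : MolF) : Fn3 := ⟨_, fun a b c => n2224 (M.at_ a b c) a b c, fun h1 h2 h3 => ((F2224 M).enc h1 h2 h3)⟩

noncomputable def g3Bm_c4 (M : MolF) : Fn3 := ⟨_, fun a b c => n2156 (M.at_ a b c) a b c, fun h1 h2 h3 => ((F2156 M).enc h1 h2 h3)⟩

noncomputable def q2Ap (M : MolF) : Fn3 := ⟨_, fun a b c => -(n1187 (M.at_ a b c) a b c), fun h1 h2 h3 => (enc_neg ((F1187 M).enc h1 h2 h3))⟩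

noncomputable def q2Am (M : MolF) : Fn3 := ⟨_, fun a b c => -(n1187 (M.at_ a b c) a b c), fun h1 h2 h3 => (enc_neg ((F1187 M).enc h1 h2 h3))⟩

noncomputable def q2Bp (M : MolF) : Fn3 := ⟨_, fun a b c => -(n1375 (M.at_ a b c) a b c), fun h1 h2 h3 => (enc_neg ((F1375 M).enc h1 h2 h3))⟩

noncomputable def q2Bm (M : MolF) : Fn3 := ⟨_, fun a b c => -(n1375 (M.at_ a b c) a b c), fun h1 h2 h3 => (enc_neg ((F1375 M).enc h1 h2 h3))⟩

noncomputable def q3Ap (M : MolF) : Fn3 := ⟨_, fun a b c => -(n2134 (M.at_ a b c) a b c), fun h1 h2 h3 => (enc_neg ((F2134 M).enc h1 h2 h3))⟩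

noncomputable def q3Am (M : MolF) : Fn3 := ⟨_, fun a b c => -(n2134 (M.at_ a b c) a b c), fun h1 h2 h3 => (enc_neg ((F2134 M).enc h1 h2 h3))⟩

noncomputable def q3Bp (M : MolF) : Fn3 := ⟨_, fun a b c => -(n2315 (M.at_ a b c) a b c), fun h1 h2 h3 => (enc_neg ((F2315 M).enc h1 h2 h3))⟩

noncomputable def q3Bm (M : MolF) : Fn3 := ⟨_, fun a b c => -(n2315 (M.at_ a b c) a b c), fun h1 h2 h3 => (enc_neg ((F2315 M).enc h1 h2 h3))⟩

end Pool.Agent.Strip051.PB.Mol
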