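import Pool.Agent.Strip051.PB.MolH
import Pool.Agent.Strip051.LC.Exact.MolZ1

/-! # The near charts with a free coefficient of the short edge, packed arithmetic (generated) -/

set_option linter.unusedVariables false

namespace Pool.Agent.Strip051.PB.Mol

open Pool.Agent.Strip051.PB Pool.Agent.Strip051.LC.MolN

theorem ezAp_n1 (T : MolP) (q : ℝ) {u b x : ℝ} :
    (n205 T u b x) * ((z1212 T q u b x) * (n1228 T u b x + (b) * (n1219 T u b x)) + (z1209 T q u b x) * (n1229 T u b x)) - (n15 T u b x) * ((n1223 T u b x) * ((u) * (n1228 T u b x) + (b) * (n1236 T u b x)) + (n1237 T u b x) * (n1228 T u b x + (b) * (n1219 T u b x)) + (n1220 T u b x) * ((u) * (n1226 T u b x) + n1236 T u b x) + (n1243 T u b x) * (n1229 T u b x)) =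
      z1260 T q u b x := by
  have e := imzN2Ap T q (u := u) (b := b) (x := x)
  linear_combination e

theorem ezAp_n2 (T : MolP) (q : ℝ) {u b x : ℝ} :
    z1290 T q u b x + (b) * ((n205 T u b x) * ((z1212 T q u b x) * (n1228 T u b x + (b) * (n1219 T u b x)) + (z1209 T q u b x) * (n1229 T u b x)) - (n15 T u b x) * ((n1223 T u b x) * ((u) * (n1228 T u b x) + (b) * (n1236 T u b x)) + (n1237 T u b x) * (n1228 T u b x + (b) * (n1219 T u b x)) + (n1220 T u b x) * ((u) * (n1226 T u b x) + n1236 T u b x) + (n1243 T u b x) * (n1229 T u b x))) =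
      z1292 T q u b x := by
  have e := imzN2Ap T q (u := u) (b := b) (x := x)
  simp only [z1292, z1290, n298] at e ⊢
  linear_combination b * e

theorem ezAp_m1 (T : MolP) (q : ℝ) {u b x : ℝ} :
    (x) * ((z1212 T q u b x) * ((n169 T u b x) * (n1228 T u b x) - (b) * (n1236 T u b x)) + (z1209 T q u b x) * (n1237 T u b x)) - (n15 T u b x) * ((n1236 T u b x + (n3 T u b x) * (n1226 T u b x)) * ((n169 T u b x) * (n1228 T u b x) - (b) * (n1236 T u b x)) - (n1235 T u b x) * ((u) * (n1228 T u b x) + (b) * (n1236 T u b x)) - (n1261 T u b x) * ((u) * (n1226 T u b x) + n1236 T u b x) + (n1262 T u b x) * (n1237 T u b x)) =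
      z1279 T q u b x := by
  have e := imzM2Ap T q (u := u) (b := b) (x := x)
  linear_combination e

theorem ezAp_m2 (T : MolP) (q : ℝ) {u b x : ℝ} :
    z1294 T q u b x + (b) * ((x) * ((z1212 T q u b x) * ((n169 T u b x) * (n1228 T u b x) - (b) * (n1236 T u b x)) + (z1209 T q u b x) * (n1237 T u b x)) - (n15 T u b x) * ((n1236 T u b x + (n3 T u b x) * (n1226 T u b x)) * ((n169 T u b x) * (n1228 T u b x) - (b) * (n1236 T u b x)) - (n1235 T u b x) * ((u) * (n1228 T u b x) + (b) * (n1236 T u b x)) - (n1261 T u b x) * ((u) * (n1226 T u b x) + n1236 T u b x) + (n1262 T u b x) * (n1237 T u b x))) =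
      z1296 T q u b x := by
  have e := imzM2Ap T q (u := u) (b := b) (x := x)
  simp only [z1296, z1294, n1243, n298, n169, n3] at e ⊢
  linear_combination b * e

theorem ezAm_n1 (T : MolP) (q : ℝ) {u b x : ℝ} :
    -((n205 T u b x) * ((z1301 T q u b x) * (n1315 T u b x - (b) * (n1307 T u b x)) + (z1209 T q u b x) * (n1316 T u b x)) - (n15 T u b x) * ((n1310 T u b x) * ((u) * (n1315 T u b x) - (b) * ((n3 T u b x) * (n1307 T u b x))) + ((1 + n30 T u b x) * (n1307 T u b x) + n1320 T u b x - n1315 T u b x) * (n1315 T u b x - (b) * (n1307 T u b x)) + (n1220 T u b x) * ((u) * (n1313 T u b x) - (n3 T u b x) * (n1307 T u b x)) + (n1243 T u b x) * (n1316 T u b x))) =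
      -(z1346 T q u b x) := by
  have e := imzN2Am T q (u := u) (b := b) (x := x)
  linear_combination -e

theorem ezAm_n2 (T : MolP) (q : ℝ) {u b x : ℝ} :
    z1290 T q u b x + (b) * ((n205 T u b x) * ((z1301 T q u b x) * (n1315 T u b x - (b) * (n1307 T u b x)) + (z1209 T q u b x) * (n1316 T u b x)) - (n15 T u b x) * ((n1310 T u b x) * ((u) * (n1315 T u b x) - (b) * ((n3 T u b x) * (n1307 T u b x))) + ((1 + n30 T u b x) * (n1307 T u b x) + n1320 T u b x - n1315 T u b x) * (n1315 T u b x - (b) * (n1307 T u b x)) + (n1220 T u b x) * ((u) * (n1313 T u b x) - (n3 T u b x) * (n1307 T u b x)) + (n1243 T u b x) * (n1316 T u b x))) =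
      z1371 T q u b x := by
  have e := imzN2Am T q (u := u) (b := b) (x := x)
  simp only [z1371, z1290, n298] at e ⊢
  linear_combination b * e

theorem ezAm_m1 (T : MolP) (q : ℝ) {u b x : ℝ} :
    -((x) * ((z1301 T q u b x) * ((n169 T u b x) * (n1315 T u b x) - (b) * (n1326 T u b x)) + (z1209 T q u b x) * (n1327 T u b x)) - (n15 T u b x) * ((n1326 T u b x + (n3 T u b x) * (n1313 T u b x)) * ((n169 T u b x) * (n1315 T u b x) - (b) * (n1326 T u b x)) - (n1324 T u b x) * ((u) * (n1315 T u b x) + (b) * (n1326 T u b x)) - (n1261 T u b x) * ((u) * (n1313 T u b x) + n1326 T u b x) + (n1262 T u b x) * (n1327 T u b x))) =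
      -(z1362 T q u b x) := by
  have e := imzM2Am T q (u := u) (b := b) (x := x)
  linear_combination -e

theorem ezAm_m2 (T : MolP) (q : ℝ) {u b x : ℝ} :
    z1294 T q u b x + (b) * ((x) * ((z1301 T q u b x) * ((n169 T u b x) * (n1315 T u b x) - (b) * (n1326 T u b x)) + (z1209 T q u b x) * (n1327 T u b x)) - (n15 T u b x) * ((n1326 T u b x + (n3 T u b x) * (n1313 T u b x)) * ((n169 T u b x) * (n1315 T u b x) - (b) * (n1326 T u b x)) - (n1324 T u b x) * ((u) * (n1315 T u b x) + (b) * (n1326 T u b x)) - (n1261 T u b x) * ((u) * (n1313 T u b x) + n1326 T u b x) + (n1262 T u b x) * (n1327 T u b x))) =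
      z1373 T q u b x := by
  have e := imzM2Am T q (u := u) (b := b) (x := x)
  simp only [z1373, z1294, n1243, n298, n169, n3] at e ⊢
  linear_combination b * e

theorem ezBp_n1 (T : MolP) (q : ℝ) {u b x : ℝ} :
    (n205 T u b x) * ((z1388 T q u b x) * (n1403 T u b x + (b) * (n1394 T u b x)) + (z1209 T q u b x) * (n1404 T u b x)) - (n15 T u b x) * ((n1398 T u b x) * ((u) * (n1403 T u b x) + (b) * ((n3 T u b x) * (n1394 T u b x))) + (n1408 T u b x + n1403 T u b x - (1 + n372 T u b x) * (n1394 T u b x)) * (n1403 T u b x + (b) * (n1394 T u b x)) + (n1395 T u b x) * ((u) * (n1401 T u b x) + (n3 T u b x) * (n1394 T u b x)) + (n1243 T u b x) * (n1404 T u b x)) =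
      z1436 T q u b x := by
  have e := imzN2Bp T q (u := u) (b := b) (x := x)
  linear_combination e

theorem ezBp_n2 (T : MolP) (q : ℝ) {u b x : ℝ} :
    z1290 T q u b x + (b) * ((n205 T u b x) * ((z1388 T q u b x) * (n1403 T u b x + (b) * (n1394 T u b x)) + (z1209 T q u b x) * (n1404 T u b x)) - (n15 T u b x) * ((n1398 T u b x) * ((u) * (n1403 T u b x) + (b) * ((n3 T u b x) * (n1394 T u b x))) + (n1408 T u b x + n1403 T u b x - (1 + n372 T u b x) * (n1394 T u b x)) * (n1403 T u b x + (b) * (n1394 T u b x)) + (n1395 T u b x) * ((u) * (n1401 T u b x) + (n3 T u b x) * (n1394 T u b x)) + (n1243 T u b x) * (n1404 T u b x))) =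
      z1461 T q u b x := by
  have e := imzN2Bp T q (u := u) (b := b) (x := x)
  simp only [z1461, z1290, n298] at e ⊢
  linear_combination b * e

theorem ezBp_m1 (T : MolP) (q : ℝ) {u b x : ℝ} :
    (x) * ((z1388 T q u b x) * ((n169 T u b x) * (n1403 T u b x) + (b) * (n1414 T u b x)) + (z1209 T q u b x) * (n1415 T u b x)) - (n15 T u b x) * (((n3 T u b x) * (n1401 T u b x) - n1414 T u b x) * ((n169 T u b x) * (n1403 T u b x) + (b) * (n1414 T u b x)) - (n1412 T u b x) * ((u) * (n1403 T u b x) - (b) * (n1414 T u b x)) - (n1437 T u b x) * ((u) * (n1401 T u b x) - n1414 T u b x) + (n1262 T u b x) * (n1415 T u b x)) =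
      z1454 T q u b x := by
  have e := imzM2Bp T q (u := u) (b := b) (x := x)
  linear_combination e

theorem ezBp_m2 (T : MolP) (q : ℝ) {u b x : ℝ} :
    z1294 T q u b x + (b) * ((x) * ((z1388 T q u b x) * ((n169 T u b x) * (n1403 T u b x) + (b) * (n1414 T u b x)) + (z1209 T q u b x) * (n1415 T u b x)) - (n15 T u b x) * (((n3 T u b x) * (n1401 T u b x) - n1414 T u b x) * ((n169 T u b x) * (n1403 T u b x) + (b) * (n1414 T u b x)) - (n1412 T u b x) * ((u) * (n1403 T u b x) - (b) * (n1414 T u b x)) - (n1437 T u b x) * ((u) * (n1401 T u b x) - n1414 T u b x) + (n1262 T u b x) * (n1415 T u b x))) =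
      z1463 T q u b x := by
  have e := imzM2Bp T q (u := u) (b := b) (x := x)
  simp only [z1463, z1294, n1243, n298, n169, n3] at e ⊢
  linear_combination b * e

theorem ezBm_n1 (T : MolP) (q : ℝ) {u b x : ℝ} :
    -((n205 T u b x) * ((z1468 T q u b x) * (n1482 T u b x - (b) * (n1474 T u b x)) + (z1209 T q u b x) * (n1483 T u b x)) - (n15 T u b x) * ((n1477 T u b x) * ((u) * (n1482 T u b x) - (b) * ((n3 T u b x) * (n1474 T u b x))) + ((n3 T u b x) * (n1474 T u b x) + n1486 T u b x) * (n1482 T u b x - (b) * (n1474 T u b x)) + (n1395 T u b x) * ((u) * (n1480 T u b x) - (n3 T u b x) * (n1474 T u b x)) + (n1243 T u b x) * (n1483 T u b x))) =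
      -(z1513 T q u b x) := by
  have e := imzN2Bm T q (u := u) (b := b) (x := x)
  linear_combination -e

theorem ezBm_n2 (T : MolP) (q : ℝ) {u b x : ℝ} :
    z1290 T q u b x + (b) * ((n205 T u b x) * ((z1468 T q u b x) * (n1482 T u b x - (b) * (n1474 T u b x)) + (z1209 T q u b x) * (n1483 T u b x)) - (n15 T u b x) * ((n1477 T u b x) * ((u) * (n1482 T u b x) - (b) * ((n3 T u b x) * (n1474 T u b x))) + ((n3 T u b x) * (n1474 T u b x) + n1486 T u b x) * (n1482 T u b x - (b) * (n1474 T u b x)) + (n1395 T u b x) * ((u) * (n1480 T u b x) - (n3 T u b x) * (n1474 T u b x)) + (n1243 T u b x) * (n1483 T u b x))) =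
      z1538 T q u b x := by
  have e := imzN2Bm T q (u := u) (b := b) (x := x)
  simp only [z1538, z1290, n298] at e ⊢
  linear_combination b * e

theorem ezBm_m1 (T : MolP) (q : ℝ) {u b x : ℝ} :
    -((x) * ((z1468 T q u b x) * ((n169 T u b x) * (n1482 T u b x) - (b) * (n1491 T u b x - n1482 T u b x)) + (z1209 T q u b x) * (n1486 T u b x - (n1491 T u b x - n1482 T u b x))) - (n15 T u b x) * ((n1491 T u b x + (n3 T u b x) * (n1480 T u b x) - n1482 T u b x) * ((n169 T u b x) * (n1482 T u b x) - (b) * (n1491 T u b x - n1482 T u b x)) - (n1489 T u b x) * ((u) * (n1482 T u b x) + (b) * (n1491 T u b x - n1482 T u b x)) - (n1437 T u b x) * ((u) * (n1480 T u b x) + (n1491 T u b x - n1482 T u b x)) + (n1262 T u b x) * (n1486 T u b x - (n1491 T u b x - n1482 T u b x)))) =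
      -(z1529 T q u b x) := by
  have e := imzM2Bm T q (u := u) (b := b) (x := x)
  linear_combination -e

theorem ezBm_m2 (T : MolP) (q : ℝ) {u b x : ℝ} :
    z1294 T q u b x + (b) * ((x) * ((z1468 T q u b x) * ((n169 T u b x) * (n1482 T u b x) - (b) * (n1491 T u b x - n1482 T u b x)) + (z1209 T q u b x) * (n1486 T u b x - (n1491 T u b x - n1482 T u b x))) - (n15 T u b x) * ((n1491 T u b x + (n3 T u b x) * (n1480 T u b x) - n1482 T u b x) * ((n169 T u b x) * (n1482 T u b x) - (b) * (n1491 T u b x - n1482 T u b x)) - (n1489 T u b x) * ((u) * (n1482 T u b x) + (b) * (n1491 T u b x - n1482 T u b x)) - (n1437 T u b x) * ((u) * (n1480 T u b x) + (n1491 T u b x - n1482 T u b x)) + (n1262 T u b x) * (n1486 T u b x - (n1491 T u b x - n1482 T u b x)))) =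
      z1540 T q u b x := by
  have e := imzM2Bm T q (u := u) (b := b) (x := x)
  simp only [z1540, z1294, n1243, n298, n169, n3] at e ⊢
  linear_combination b * e

noncomputable def Fz1202 (M : MolF) (Q : Fn3) : Fn3 := ⟨_, fun a b c => z1202 (M.at_ a b c) (Q.v a b c) a b c, fun h1 h2 h3 => (enc_norm (enc_mul (enc_norm (enc_mul (enc_norm (enc_mul ((F15 M).enc h1 h2 h3) ((F599 M).enc h1 h2 h3))) (Q.enc h1 h2 h3))) (enc_inv h3)))⟩

noncomputable def Fz1203 (M : MolF) (Q : Fn3) : Fn3 := ⟨_, fun a b c => z1203 (M.at_ a b c) (Q.v a b c) a b c, fun h1 h2 h3 => (enc_norm (enc_mul ((Fz1202 M Q).enc h1 h2 h3) ((F1185 M).enc h1 h2 h3)))⟩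

noncomputable def Fz1204 (M : MolF) (Q : Fn3) : Fn3 := ⟨_, fun a b c => z1204 (M.at_ a b c) (Q.v a b c) a b c, fun h1 h2 h3 => (enc_mul ((F298 M).enc h1 h2 h3) ((Fz1203 M Q).enc h1 h2 h3))⟩

noncomputable def Fz1206 (M : MolF) (Q : Fn3) : Fn3 := ⟨_, fun a b c => z1206 (M.at_ a b c) (Q.v a b c) a b c, fun h1 h2 h3 => (enc_mul ((F298 M).enc h1 h2 h3) (enc_norm (enc_mul ((Fz1202 M Q).enc h1 h2 h3) ((F1186 M).enc h1 h2 h3))))⟩

noncomputable def Fz1209 (M : MolF) (Q : Fn3) : Fn3 := ⟨_, fun a b c => z1209 (M.at_ a b c) (Q.v a b c) a b c, fun h1 h2 h3 => (enc_norm (enc_sub (enc_sub ((F654 M).enc h1 h2 h3) ((Fz1204 M Q).enc h1 h2 h3)) (enc_mul ((F15 M).enc h1 h2 h3) ((F1192 M).enc h1 h2 h3))))⟩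

noncomputable def Fz1212 (M : MolF) (Q : Fn3) : Fn3 := ⟨_, fun a b c => z1212 (M.at_ a b c) (Q.v a b c) a b c, fun h1 h2 h3 => (enc_norm (enc_sub (enc_sub ((F656 M).enc h1 h2 h3) ((Fz1206 M Q).enc h1 h2 h3)) (enc_mul ((F15 M).enc h1 h2 h3) ((F1198 M).enc h1 h2 h3))))⟩

noncomputable def Fz1281 (M : MolF) (Q : Fn3) : Fn3 := ⟨_, fun a b c => z1281 (M.at_ a b c) (Q.v a b c) a b c, fun h1 h2 h3 => (enc_norm (enc_sub ((F859 M).enc h1 h2 h3) (enc_mul ((F205 M).enc h1 h2 h3) ((Fz1203 M Q).enc h1 h2 h3))))⟩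

noncomputable def Fz1283 (M : MolF) (Q : Fn3) : Fn3 := ⟨_, fun a b c => z1283 (M.at_ a b c) (Q.v a b c) a b c, fun h1 h2 h3 => (enc_norm (enc_sub ((F861 M).enc h1 h2 h3) (enc_mul h3 ((Fz1203 M Q).enc h1 h2 h3))))⟩

noncomputable def Fz1290 (M : MolF) (Q : Fn3) : Fn3 := ⟨_, fun a b c => z1290 (M.at_ a b c) (Q.v a b c) a b c, fun h1 h2 h3 => (enc_mul ((F298 M).enc h1 h2 h3) (enc_norm (enc_mul ((Fz1281 M Q).enc h1 h2 h3) ((F1215 M).enc h1 h2 h3))))⟩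

noncomputable def Fz1294 (M : MolF) (Q : Fn3) : Fn3 := ⟨_, fun a b c => z1294 (M.at_ a b c) (Q.v a b c) a b c, fun h1 h2 h3 => (enc_mul ((F298 M).enc h1 h2 h3) (enc_norm (enc_mul ((Fz1283 M Q).enc h1 h2 h3) ((F1243 M).enc h1 h2 h3))))⟩

noncomputable def Fz1301 (M : MolF) (Q : Fn3) : Fn3 := ⟨_, fun a b c => z1301 (M.at_ a b c) (Q.v a b c) a b c, fun h1 h2 h3 => (enc_norm (enc_sub (enc_sub ((F877 M).enc h1 h2 h3) ((Fz1206 M Q).enc h1 h2 h3)) (enc_mul ((F15 M).enc h1 h2 h3) ((F1298 M).enc h1 h2 h3))))⟩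

noncomputable def Fz1385 (M : MolF) (Q : Fn3) : Fn3 := ⟨_, fun a b c => z1385 (M.at_ a b c) (Q.v a b c) a b c, fun h1 h2 h3 => (enc_mul ((F298 M).enc h1 h2 h3) (enc_norm (enc_mul ((Fz1202 M Q).enc h1 h2 h3) ((F1374 M).enc h1 h2 h3))))⟩

noncomputable def Fz1388 (M : MolF) (Q : Fn3) : Fn3 := ⟨_, fun a b c => z1388 (M.at_ a b c) (Q.v a b c) a b c, fun h1 h2 h3 => (enc_norm (enc_sub (enc_sub ((F990 M).enc h1 h2 h3) ((Fz1385 M Q).enc h1 h2 h3)) (enc_mul ((F15 M).enc h1 h2 h3) ((F1383 M).enc h1 h2 h3))))⟩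

noncomputable def Fz1468 (M : MolF) (Q : Fn3) : Fn3 := ⟨_, fun a b c => z1468 (M.at_ a b c) (Q.v a b c) a b c, fun h1 h2 h3 => (enc_norm (enc_sub (enc_sub ((F1122 M).enc h1 h2 h3) ((Fz1385 M Q).enc h1 h2 h3)) (enc_mul ((F15 M).enc h1 h2 h3) ((F1465 M).enc h1 h2 h3))))⟩

noncomputable def Fz1940 (M : MolF) (Q : Fn3) : Fn3 := ⟨_, fun a b c => (n205 (M.at_ a b c) a b c) * ((z1212 (M.at_ a b c) (Q.v a b c) a b c) * (n1228 (M.at_ a b c) a b c + (b) * (n1219 (M.at_ a b c) a b c)) + (z1209 (M.at_ a b c) (Q.v a b c) a b c) * (n1229 (M.at_ a b c) a b c)) - (n15 (M.at_ a b c) a b c) * ((n1223 (M.at_ a b c) a b c) * ((a) * (n1228 (M.at_ a b c) a b c) + (b) * (n1236 (M.at_ a b c) a b c)) + (n1237 (M.at_ a b c) a b c) * (n1228 (M.at_ a b c) a b c + (b) * (n1219 (M.at_ a b c) a b c)) + (n1220 (M.at_ a b c) a b c) * ((a) * (n1226 (M.at_ a b c) a b c) + n1236 (M.at_ a b c) a b c)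 + (n1243 (M.at_ a b c) a b c) * (n1229 (M.at_ a b c) a b c)), fun h1 h2 h3 => (enc_norm (enc_sub (enc_mul ((F205 M).enc h1 h2 h3) (enc_norm (enc_add (enc_mul ((Fz1212 M Q).enc h1 h2 h3) (enc_norm (enc_add ((F1228 M).enc h1 h2 h3) (enc_mul h2 ((F1219 M).enc h1 h2 h3))))) (enc_mul ((Fz1209 M Q).enc h1 h2 h3) ((F1229 M).enc h1 h2 h3))))) (enc_mul ((F15 M).enc h1 h2 h3) (enc_norm (enc_add (enc_add (enc_add (enc_mul ((F1223 M).enc h1 h2 h3) ((F1921 M).enc h1 h2 h3)) (enc_mul ((F1237 M).enc h1 h2 h3) (enc_norm (enc_add ((F1228 M).enc h1 h2 h3) (enc_mul h2 ((F1219 M).enc h1 h2 h3)))))) (enc_mul ((F1220 M).enc h1 h2 h3) ((F1923 M).enc h1 h2 h3))) (enc_mul ((F1243 M).enc h1 h2 h3) ((F1229 M).enc h1 h2 h3)))))))⟩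

noncomputable def Fz1954 (M : MolF) (Q : Fn3) : Fn3 := ⟨_, fun a b c => (c) * ((z1212 (M.at_ a b c) (Q.v a b c) a b c) * ((n169 (M.at_ a b c) a b c) * (n1228 (M.at_ a b c) a b c) - (b) * (n1236 (M.at_ a b c) a b c)) + (z1209 (M.at_ a b c) (Q.v a b c) a b c) * (n1237 (M.at_ a b c) a b c)) - (n15 (M.at_ a b c) a b c) * ((n1236 (M.at_ a b c) a b c + (n3 (M.at_ a b c) a b c) * (n1226 (M.at_ a b c) a b c)) * ((n169 (M.at_ a b c) a b c) * (n1228 (M.at_ a b c) a b c) - (b) * (n1236 (M.at_ a b c) a b c)) - (n1235 (M.at_ a b c) a b c) * ((a) * (n1228 (M.at_ a b c) a b c) + (b) * (n1236 (M.at_ a b c) a b c)) - (n1261 (M.at_ a b c) a b c) * ((a) * (n1226 (M.at_ a b c) a b c) + n1236 (M.at_ a b c) a b c) + (n1262 (M.at_ a b c) a b c) * (n1237 (M.at_ a b c) a b c)), fun h1 h2 h3 => (enc_norm (enc_sub (enc_mul h3 (enc_norm (enc_add (enc_mul ((Fz1212 M Q).enc h1 h2 h3) ((F1926 M).enc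 h1 h2 h3)) (enc_mul ((Fz1209 M Q).enc h1 h2 h3) ((F1237 M).enc h1 h2 h3))))) (enc_mul ((F15 M).enc h1 h2 h3) (enc_norm (enc_add (enc_sub (enc_sub (enc_mul (enc_norm (enc_add ((F1236 M).enc h1 h2 h3) (enc_mul ((F3 M).enc h1 h2 h3) ((F1226 M).enc h1 h2 h3)))) ((F1926 M).enc h1 h2 h3)) (enc_mul ((F1235 M).enc h1 h2 h3) ((F1921 M).enc h1 h2 h3))) (enc_mul ((F1261 M).enc h1 h2 h3) ((F1923 M).enc h1 h2 h3))) (enc_mul ((F1262 M).enc h1 h2 h3) ((F1237 M).enc h1 h2 h3)))))))⟩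

noncomputable def Fz1957 (M : MolF) (Q : Fn3) : Fn3 := ⟨_, fun a b c => z1290 (M.at_ a b c) (Q.v a b c) a b c + (b) * ((n205 (M.at_ a b c) a b c) * ((z1212 (M.at_ a b c) (Q.v a b c) a b c) * (n1228 (M.at_ a b c) a b c + (b) * (n1219 (M.at_ a b c) a b c)) + (z1209 (M.at_ a b c) (Q.v a b c) a b c) * (n1229 (M.at_ a b c) a b c)) - (n15 (M.at_ a b c) a b c) * ((n1223 (M.at_ a b c) a b c) * ((a) * (n1228 (M.at_ a b c) a b c) + (b) * (n1236 (M.at_ a b c) a b c)) + (n1237 (M.at_ a b c) a b c) * (n1228 (M.at_ a b c) a b c + (b) * (n1219 (M.at_ a b c) a b c)) + (n1220 (M.at_ a b c) a b c) * ((a) * (n1226 (M.at_ a b c) a b c) + n1236 (M.at_ a b c) a b c) + (n1243 (M.at_ a b c) a b c) * (n1229 (M.at_ a b c) a b c))), fun h1 h2 h3 => (enc_add ((Fz1290 M Q).enc h1 h2 h3) (enc_mul h2 ((Fz1940 M Q).enc h1 h2 h3)))⟩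

noncomputable def Fz1958 (M : MolF) (Q : Fn3) : Fn3 := ⟨_, fun a b c => z1294 (M.at_ a b c) (Q.v a b c) a b c + (b) * ((c) * ((z1212 (M.at_ a b c) (Q.v a b c) a b c) * ((n169 (M.at_ a b c) a b c) * (n1228 (M.at_ a b c) a b c) - (b) * (n1236 (M.at_ a b c) a b c)) + (z1209 (M.at_ a b c) (Q.v a b c) a b c) * (n1237 (M.at_ a b c) a b c)) - (n15 (M.at_ a b c) a b c) * ((n1236 (M.at_ a b c) a b c + (n3 (M.at_ a b c) a b c) * (n1226 (M.at_ a b c) a b c)) * ((n169 (M.at_ a b c) a b c) * (n1228 (M.at_ a b c) a b c) - (b) * (n1236 (M.at_ a b c) a b c)) - (n1235 (M.at_ a b c) a b c) * ((a) * (n1228 (M.at_ a b c) a b c) + (b) * (n1236 (M.at_ a b c) a b c)) - (n1261 (M.at_ a b c) a b c) * ((a) * (n1226 (M.at_ a b c) a b c) + n1236 (M.at_ a b c) a b c) + (n1262 (M.at_ a b c) a b c) * (n1237 (M.at_ a b c) a b c))), fun h1 h2 h3 => (enc_add ((Fz1294 M Q).enc h1 h2 h3) (enc_mul h2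 ((Fz1954 M Q).enc h1 h2 h3)))⟩

noncomputable def Fz1987 (M : MolF) (Q : Fn3) : Fn3 := ⟨_, fun a b c => (n205 (M.at_ a b c) a b c) * ((z1301 (M.at_ a b c) (Q.v a b c) a b c) * (n1315 (M.at_ a b c) a b c - (b) * (n1307 (M.at_ a b c) a b c)) + (z1209 (M.at_ a b c) (Q.v a b c) a b c) * (n1316 (M.at_ a b c) a b c)) - (n15 (M.at_ a b c) a b c) * ((n1310 (M.at_ a b c) a b c) * ((a) * (n1315 (M.at_ a b c) a b c) - (b) * ((n3 (M.at_ a b c) a b c) * (n1307 (M.at_ a b c) a b c))) + ((1 + n30 (M.at_ a b c) a b c) * (n1307 (M.at_ a b c) a b c) + n1320 (M.at_ a b c) a b c - n1315 (M.at_ a b c) a b c) * (n1315 (M.at_ a b c) a b c - (b) * (n1307 (M.at_ a b c) a b c)) + (n1220 (M.at_ a b c) a b c) * ((a) * (n1313 (M.at_ a b c) a b c) - (n3 (M.at_ a b c) a b c) * (n1307 (M.at_ a b c) a b c)) + (n1243 (M.at_ a b c) a b c) * (n1316 (M.at_ a b c) a b c)), fun h1 h2 h3 => (enc_norm (enc_sub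 (enc_mul ((F205 M).enc h1 h2 h3) (enc_norm (enc_add (enc_mul ((Fz1301 M Q).enc h1 h2 h3) (enc_norm (enc_sub ((F1315 M).enc h1 h2 h3) (enc_mul h2 ((F1307 M).enc h1 h2 h3))))) (enc_mul ((Fz1209 M Q).enc h1 h2 h3) ((F1316 M).enc h1 h2 h3))))) (enc_mul ((F15 M).enc h1 h2 h3) (enc_norm (enc_add (enc_add (enc_add (enc_mul ((F1310 M).enc h1 h2 h3) ((F1962 M).enc h1 h2 h3)) (enc_mul (enc_norm (enc_sub (enc_add (enc_mul (enc_norm (enc_add (en1 _) ((F30 M).enc h1 h2 h3))) ((F1307 M).enc h1 h2 h3)) ((F1320 M).enc h1 h2 h3)) ((F1315 M).enc h1 h2 h3))) (enc_norm (enc_sub ((F1315 M).enc h1 h2 h3) (enc_mul h2 ((F1307 M).enc h1 h2 h3)))))) (enc_mul ((F1220 M).enc h1 h2 h3) (enc_norm (enc_sub ((F1963 M).enc h1 h2 h3) ((F1959 M).enc h1 h2 h3))))) (enc_mul ((F1243 M).enc h1 h2 h3) ((F1316 M).enc h1 h2 h3)))))))⟩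

noncomputable def Fz2001 (M : MolF) (Q : Fn3) : Fn3 := ⟨_, fun a b c => (c) * ((z1301 (M.at_ a b c) (Q.v a b c) a b c) * ((n169 (M.at_ a b c) a b c) * (n1315 (M.at_ a b c) a b c) - (b) * (n1326 (M.at_ a b c) a b c)) + (z1209 (M.at_ a b c) (Q.v a b c) a b c) * (n1327 (M.at_ a b c) a b c)) - (n15 (M.at_ a b c) a b c) * ((n1326 (M.at_ a b c) a b c + (n3 (M.at_ a b c) a b c) * (n1313 (M.at_ a b c) a b c)) * ((n169 (M.at_ a b c) a b c) * (n1315 (M.at_ a b c) a b c) - (b) * (n1326 (M.at_ a b c) a b c)) - (n1324 (M.at_ a b c) a b c) * ((a) * (n1315 (M.at_ a b c) a b c) + (b) * (n1326 (M.at_ a b c) a b c)) - (n1261 (M.at_ a b c) a b c) * ((a) * (n1313 (M.at_ a b c) a b c) + n1326 (M.at_ a b c) a b c) + (n1262 (M.at_ a b c) a b c) * (n1327 (M.at_ a b c) a b c)), fun h1 h2 h3 => (enc_norm (enc_sub (enc_mul h3 (enc_norm (enc_add (enc_mul ((Fz1301 M Q).enc h1 h2 h3) ((F1971 M).enc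 h1 h2 h3)) (enc_mul ((Fz1209 M Q).enc h1 h2 h3) ((F1327 M).enc h1 h2 h3))))) (enc_mul ((F15 M).enc h1 h2 h3) (enc_norm (enc_add (enc_sub (enc_sub (enc_mul (enc_norm (enc_add ((F1326 M).enc h1 h2 h3) (enc_mul ((F3 M).enc h1 h2 h3) ((F1313 M).enc h1 h2 h3)))) ((F1971 M).enc h1 h2 h3)) (enc_mul ((F1324 M).enc h1 h2 h3) (enc_norm (enc_add ((F1961 M).enc h1 h2 h3) ((F1969 M).enc h1 h2 h3))))) (enc_mul ((F1261 M).enc h1 h2 h3) (enc_norm (enc_add ((F1963 M).enc h1 h2 h3) ((F1326 M).enc h1 h2 h3))))) (enc_mul ((F1262 M).enc h1 h2 h3) ((F1327 M).enc h1 h2 h3)))))))⟩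

noncomputable def Fz2008 (M : MolF) (Q : Fn3) : Fn3 := ⟨_, fun a b c => z1290 (M.at_ a b c) (Q.v a b c) a b c + (b) * ((n205 (M.at_ a b c) a b c) * ((z1301 (M.at_ a b c) (Q.v a b c) a b c) * (n1315 (M.at_ a b c) a b c - (b) * (n1307 (M.at_ a b c) a b c)) + (z1209 (M.at_ a b c) (Q.v a b c) a b c) * (n1316 (M.at_ a b c) a b c)) - (n15 (M.at_ a b c) a b c) * ((n1310 (M.at_ a b c) a b c) * ((a) * (n1315 (M.at_ a b c) a b c) - (b) * ((n3 (M.at_ a b c) a b c) * (n1307 (M.at_ a b c) a b c))) + ((1 + n30 (M.at_ a b c) a b c) * (n1307 (M.at_ a b c) a b c) + n1320 (M.at_ a b c) a b c - n1315 (M.at_ a b c) a b c) * (n1315 (M.at_ a b c) a b c - (b) * (n1307 (M.at_ a b c) a b c)) + (n1220 (M.at_ a b c) a b c) * ((a) * (n1313 (M.at_ a b c) a b c) - (n3 (M.at_ a b c) a b c) * (n1307 (M.at_ a b c) a b c)) + (n1243 (M.at_ a b c) a b c) * (n1316 (M.at_ a b c) a b c))), fun h1 h2 h3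 => (enc_add ((Fz1290 M Q).enc h1 h2 h3) (enc_mul h2 ((Fz1987 M Q).enc h1 h2 h3)))⟩

noncomputable def Fz2009 (M : MolF) (Q : Fn3) : Fn3 := ⟨_, fun a b c => z1294 (M.at_ a b c) (Q.v a b c) a b c + (b) * ((c) * ((z1301 (M.at_ a b c) (Q.v a b c) a b c) * ((n169 (M.at_ a b c) a b c) * (n1315 (M.at_ a b c) a b c) - (b) * (n1326 (M.at_ a b c) a b c)) + (z1209 (M.at_ a b c) (Q.v a b c) a b c) * (n1327 (M.at_ a b c) a b c)) - (n15 (M.at_ a b c) a b c) * ((n1326 (M.at_ a b c) a b c + (n3 (M.at_ a b c) a b c) * (n1313 (M.at_ a b c) a b c)) * ((n169 (M.at_ a b c) a b c) * (n1315 (M.at_ a b c) a b c) - (b) * (n1326 (M.at_ a b c) a b c)) - (n1324 (M.at_ a b c) a b c) * ((a) * (n1315 (M.at_ a b c) a b c) + (b) * (n1326 (M.at_ a b c) a b c)) - (n1261 (M.at_ a b c) a b c) * ((a) * (n1313 (M.at_ a b c) a b c) + n1326 (M.at_ a b c) a b c) + (n1262 (M.at_ a b c) a b c) * (n1327 (M.at_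 a b c) a b c))), fun h1 h2 h3 => (enc_add ((Fz1294 M Q).enc h1 h2 h3) (enc_mul h2 ((Fz2001 M Q).enc h1 h2 h3)))⟩

noncomputable def Fz2040 (M : MolF) (Q : Fn3) : Fn3 := ⟨_, fun a b c => (n205 (M.at_ a b c) a b c) * ((z1388 (M.at_ a b c) (Q.v a b c) a b c) * (n1403 (M.at_ a b c) a b c + (b) * (n1394 (M.at_ a b c) a b c)) + (z1209 (M.at_ a b c) (Q.v a b c) a b c) * (n1404 (M.at_ a b c) a b c)) - (n15 (M.at_ a b c) a b c) * ((n1398 (M.at_ a b c) a b c) * ((a) * (n1403 (M.at_ a b c) a b c) + (b) * ((n3 (M.at_ a b c) a b c) * (n1394 (M.at_ a b c) a b c))) + (n1408 (M.at_ a b c) a b c + n1403 (M.at_ a b c) a b c - (1 + n372 (M.at_ a b c) a b c) * (n1394 (M.at_ a b c) a b c)) * (n1403 (M.at_ a b c) a b c + (b) * (n1394 (M.at_ a b c) a b c)) + (n1395 (M.at_ a b c) a b c) * ((a) * (n1401 (M.at_ a b c) a b c) + (n3 (M.at_ a b c) a b c) * (n1394 (M.at_ a b c) a b c)) + (n1243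 (M.at_ a b c) a b c) * (n1404 (M.at_ a b c) a b c)), fun h1 h2 h3 => (enc_norm (enc_sub (enc_mul ((F205 M).enc h1 h2 h3) (enc_norm (enc_add (enc_mul ((Fz1388 M Q).enc h1 h2 h3) (enc_norm (enc_add ((F1403 M).enc h1 h2 h3) (enc_mul h2 ((F1394 M).enc h1 h2 h3))))) (enc_mul ((Fz1209 M Q).enc h1 h2 h3) ((F1404 M).enc h1 h2 h3))))) (enc_mul ((F15 M).enc h1 h2 h3) (enc_norm (enc_add (enc_add (enc_add (enc_mul ((F1398 M).enc h1 h2 h3) ((F2013 M).enc h1 h2 h3)) (enc_mul (enc_norm (enc_sub (enc_add ((F1408 M).enc h1 h2 h3) ((F1403 M).enc h1 h2 h3)) (enc_mul ((F1637 M).enc h1 h2 h3) ((F1394 M).enc h1 h2 h3)))) (enc_norm (enc_add ((F1403 M).enc h1 h2 h3) (enc_mul h2 ((F1394 M).enc h1 h2 h3)))))) (enc_mul ((F1395 M).enc h1 h2 h3) (enc_norm (enc_add ((F2014 M).enc h1 h2 h3) ((F2010 M).enc h1 h2 h3))))) (enc_mul ((F1243 M).enc h1 h2 h3) ((F1404 M).enc h1 h2 h3)))))))⟩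

noncomputable def Fz2054 (M : MolF) (Q : Fn3) : Fn3 := ⟨_, fun a b c => (c) * ((z1388 (M.at_ a b c) (Q.v a b c) a b c) * ((n169 (M.at_ a b c) a b c) * (n1403 (M.at_ a b c) a b c) + (b) * (n1414 (M.at_ a b c) a b c)) + (z1209 (M.at_ a b c) (Q.v a b c) a b c) * (n1415 (M.at_ a b c) a b c)) - (n15 (M.at_ a b c) a b c) * (((n3 (M.at_ a b c) a b c) * (n1401 (M.at_ a b c) a b c) - n1414 (M.at_ a b c) a b c) * ((n169 (M.at_ a b c) a b c) * (n1403 (M.at_ a b c) a b c) + (b) * (n1414 (M.at_ a b c) a b c)) - (n1412 (M.at_ a b c) a b c) * ((a) * (n1403 (M.at_ a b c) a b c) - (b) * (n1414 (M.at_ a b c) a b c)) - (n1437 (M.at_ a b c) a b c) * ((a) * (n1401 (M.at_ a b c) a b c) - n1414 (M.at_ a b c) a b c) + (n1262 (M.at_ a b c) a b c) * (n1415 (M.at_ a b c) a b c)), fun h1 h2 h3 => (enc_norm (enc_sub (enc_mul h3 (enc_norm (enc_add (enc_mul ((Fz1388 M Q).enc h1 h2 h3) ((F2024 M).enc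 h1 h2 h3)) (enc_mul ((Fz1209 M Q).enc h1 h2 h3) ((F1415 M).enc h1 h2 h3))))) (enc_mul ((F15 M).enc h1 h2 h3) (enc_norm (enc_add (enc_sub (enc_sub (enc_mul (enc_norm (enc_sub (enc_mul ((F3 M).enc h1 h2 h3) ((F1401 M).enc h1 h2 h3)) ((F1414 M).enc h1 h2 h3))) ((F2024 M).enc h1 h2 h3)) (enc_mul ((F1412 M).enc h1 h2 h3) (enc_norm (enc_sub ((F2012 M).enc h1 h2 h3) ((F2021 M).enc h1 h2 h3))))) (enc_mul ((F1437 M).enc h1 h2 h3) (enc_norm (enc_sub ((F2014 M).enc h1 h2 h3) ((F1414 M).enc h1 h2 h3))))) (enc_mul ((F1262 M).enc h1 h2 h3) ((F1415 M).enc h1 h2 h3)))))))⟩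

noncomputable def Fz2059 (M : MolF) (Q : Fn3) : Fn3 := ⟨_, fun a b c => z1290 (M.at_ a b c) (Q.v a b c) a b c + (b) * ((n205 (M.at_ a b c) a b c) * ((z1388 (M.at_ a b c) (Q.v a b c) a b c) * (n1403 (M.at_ a b c) a b c + (b) * (n1394 (M.at_ a b c) a b c)) + (z1209 (M.at_ a b c) (Q.v a b c) a b c) * (n1404 (M.at_ a b c) a b c)) - (n15 (M.at_ a b c) a b c) * ((n1398 (M.at_ a b c) a b c) * ((a) * (n1403 (M.at_ a b c) a b c) + (b) * ((n3 (M.at_ a b c) a b c) * (n1394 (M.at_ a b c) a b c))) + (n1408 (M.at_ a b c) a b c + n1403 (M.at_ a b c) a b c - (1 + n372 (M.at_ a b c) a b c) * (n1394 (M.at_ a b c) a b c)) * (n1403 (M.at_ a b c) a b c + (b) * (n1394 (M.at_ a b c) a b c)) + (n1395 (M.at_ a b c) a b c) * ((a) * (n1401 (M.at_ a b c) a b c) + (n3 (M.at_ a b c) a b c) * (n1394 (M.at_ a b c) a b c)) + (n1243 (M.at_ a b c) a b c) * (n1404 (M.at_ a b c) a b c))), fun h1 h2 h3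 => (enc_add ((Fz1290 M Q).enc h1 h2 h3) (enc_mul h2 ((Fz2040 M Q).enc h1 h2 h3)))⟩

noncomputable def Fz2060 (M : MolF) (Q : Fn3) : Fn3 := ⟨_, fun a b c => z1294 (M.at_ a b c) (Q.v a b c) a b c + (b) * ((c) * ((z1388 (M.at_ a b c) (Q.v a b c) a b c) * ((n169 (M.at_ a b c) a b c) * (n1403 (M.at_ a b c) a b c) + (b) * (n1414 (M.at_ a b c) a b c)) + (z1209 (M.at_ a b c) (Q.v a b c) a b c) * (n1415 (M.at_ a b c) a b c)) - (n15 (M.at_ a b c) a b c) * (((n3 (M.at_ a b c) a b c) * (n1401 (M.at_ a b c) a b c) - n1414 (M.at_ a b c) a b c) * ((n169 (M.at_ a b c) a b c) * (n1403 (M.at_ a b c) a b c) + (b) * (n1414 (M.at_ a b c) a b c)) - (n1412 (M.at_ a b c) a b c) * ((a) * (n1403 (M.at_ a b c) a b c) - (b) * (n1414 (M.at_ a b c) a b c)) - (n1437 (M.at_ a b c) a b c) * ((a) * (n1401 (M.at_ a b c) a b c) - n1414 (M.at_ a b c) a b c) + (n1262 (M.at_ a b c) a b c) * (n1415 (M.at_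 a b c) a b c))), fun h1 h2 h3 => (enc_add ((Fz1294 M Q).enc h1 h2 h3) (enc_mul h2 ((Fz2054 M Q).enc h1 h2 h3)))⟩

noncomputable def Fz2089 (M : MolF) (Q : Fn3) : Fn3 := ⟨_, fun a b c => (n205 (M.at_ a b c) a b c) * ((z1468 (M.at_ a b c) (Q.v a b c) a b c) * (n1482 (M.at_ a b c) a b c - (b) * (n1474 (M.at_ a b c) a b c)) + (z1209 (M.at_ a b c) (Q.v a b c) a b c) * (n1483 (M.at_ a b c) a b c)) - (n15 (M.at_ a b c) a b c) * ((n1477 (M.at_ a b c) a b c) * ((a) * (n1482 (M.at_ a b c) a b c) - (b) * ((n3 (M.at_ a b c) a b c) * (n1474 (M.at_ a b c) a b c))) + ((n3 (M.at_ a b c) a b c) * (n1474 (M.at_ a b c) a b c) + n1486 (M.at_ a b c) a b c) * (n1482 (M.at_ a b c) a b c - (b) * (n1474 (M.at_ a b c) a b c)) + (n1395 (M.at_ a b c) a b c) * ((a) * (n1480 (M.at_ a b c) a b c) - (n3 (M.at_ a b c) a b c) * (n1474 (M.at_ a b c) a b c)) + (n1243 (M.at_ a b c) a b c) * (n1483 (M.at_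 a b c) a b c)), fun h1 h2 h3 => (enc_norm (enc_sub (enc_mul ((F205 M).enc h1 h2 h3) (enc_norm (enc_add (enc_mul ((Fz1468 M Q).enc h1 h2 h3) (enc_norm (enc_sub ((F1482 M).enc h1 h2 h3) (enc_mul h2 ((F1474 M).enc h1 h2 h3))))) (enc_mul ((Fz1209 M Q).enc h1 h2 h3) ((F1483 M).enc h1 h2 h3))))) (enc_mul ((F15 M).enc h1 h2 h3) (enc_norm (enc_add (enc_add (enc_add (enc_mul ((F1477 M).enc h1 h2 h3) ((F2063 M).enc h1 h2 h3)) (enc_mul (enc_norm (enc_add (enc_mul ((F3 M).enc h1 h2 h3) ((F1474 M).enc h1 h2 h3)) ((F1486 M).enc h1 h2 h3))) (enc_norm (enc_sub ((F1482 M).enc h1 h2 h3) (enc_mul h2 ((F1474 M).enc h1 h2 h3)))))) (enc_mul ((F1395 M).enc h1 h2 h3) (enc_norm (enc_sub ((F2064 M).enc h1 h2 h3) (enc_mul ((F3 M).enc h1 h2 h3) ((F1474 M).enc h1 h2 h3)))))) (enc_mul ((F1243 M).enc h1 h2 h3) ((F1483 M).enc h1 h2 h3)))))))⟩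

noncomputable def Fz2104 (M : MolF) (Q : Fn3) : Fn3 := ⟨_, fun a b c => (c) * ((z1468 (M.at_ a b c) (Q.v a b c) a b c) * ((n169 (M.at_ a b c) a b c) * (n1482 (M.at_ a b c) a b c) - (b) * (n1491 (M.at_ a b c) a b c - n1482 (M.at_ a b c) a b c)) + (z1209 (M.at_ a b c) (Q.v a b c) a b c) * (n1486 (M.at_ a b c) a b c - (n1491 (M.at_ a b c) a b c - n1482 (M.at_ a b c) a b c))) - (n15 (M.at_ a b c) a b c) * ((n1491 (M.at_ a b c) a b c + (n3 (M.at_ a b c) a b c) * (n1480 (M.at_ a b c) a b c) - n1482 (M.at_ a b c) a b c) * ((n169 (M.at_ a b c) a b c) * (n1482 (M.at_ a b c) a b c) - (b) * (n1491 (M.at_ a b c) a b c - n1482 (M.at_ a b c) a b c)) - (n1489 (M.at_ a b c) a b c) * ((a) * (n1482 (M.at_ a b c) a b c) + (b) * (n1491 (M.at_ a b c) a b c - n1482 (M.at_ a b c) a b c)) - (n1437 (M.at_ a b c) a b c) * ((a) * (n1480 (M.at_ a b c) a b c) + (n1491 (M.at_ a b c) a b c - n1482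 (M.at_ a b c) a b c)) + (n1262 (M.at_ a b c) a b c) * (n1486 (M.at_ a b c) a b c - (n1491 (M.at_ a b c) a b c - n1482 (M.at_ a b c) a b c))), fun h1 h2 h3 => (enc_norm (enc_sub (enc_mul h3 (enc_norm (enc_add (enc_mul ((Fz1468 M Q).enc h1 h2 h3) ((F2072 M).enc h1 h2 h3)) (enc_mul ((Fz1209 M Q).enc h1 h2 h3) ((F2077 M).enc h1 h2 h3))))) (enc_mul ((F15 M).enc h1 h2 h3) (enc_norm (enc_add (enc_sub (enc_sub (enc_mul (enc_norm (enc_sub (enc_add ((F1491 M).enc h1 h2 h3) (enc_mul ((F3 M).enc h1 h2 h3) ((F1480 M).enc h1 h2 h3))) ((F1482 M).enc h1 h2 h3))) ((F2072 M).enc h1 h2 h3)) (enc_mul ((F1489 M).enc h1 h2 h3) (enc_norm (enc_add ((F2062 M).enc h1 h2 h3) ((F2070 M).enc h1 h2 h3))))) (enc_mul ((F1437 M).enc h1 h2 h3) (enc_norm (enc_add ((F2064 M).enc h1 h2 h3) ((F2069 M).enc h1 h2 h3))))) (enc_mul ((F1262 M).enc h1 h2 h3) ((F2077 M).enc h1 h2 h3)))))))⟩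

noncomputable def Fz2109 (M : MolF) (Q : Fn3) : Fn3 := ⟨_, fun a b c => z1290 (M.at_ a b c) (Q.v a b c) a b c + (b) * ((n205 (M.at_ a b c) a b c) * ((z1468 (M.at_ a b c) (Q.v a b c) a b c) * (n1482 (M.at_ a b c) a b c - (b) * (n1474 (M.at_ a b c) a b c)) + (z1209 (M.at_ a b c) (Q.v a b c) a b c) * (n1483 (M.at_ a b c) a b c)) - (n15 (M.at_ a b c) a b c) * ((n1477 (M.at_ a b c) a b c) * ((a) * (n1482 (M.at_ a b c) a b c) - (b) * ((n3 (M.at_ a b c) a b c) * (n1474 (M.at_ a b c) a b c))) + ((n3 (M.at_ a b c) a b c) * (n1474 (M.at_ a b c) a b c) + n1486 (M.at_ a b c) a b c) * (n1482 (M.at_ a b c) a b c - (b) * (n1474 (M.at_ a b c) a b c)) + (n1395 (M.at_ a b c) a b c) * ((a) * (n1480 (M.at_ a b c) a b c) - (n3 (M.at_ a b c) a b c) * (n1474 (M.at_ a b c) a b c)) + (n1243 (M.at_ a b c) a b c) * (n1483 (M.at_ a b c) a b c))), fun h1 h2 h3 => (enc_add ((Fz1290 M Q).enc h1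 h2 h3) (enc_mul h2 ((Fz2089 M Q).enc h1 h2 h3)))⟩

noncomputable def Fz2110 (M : MolF) (Q : Fn3) : Fn3 := ⟨_, fun a b c => z1294 (M.at_ a b c) (Q.v a b c) a b c + (b) * ((c) * ((z1468 (M.at_ a b c) (Q.v a b c) a b c) * ((n169 (M.at_ a b c) a b c) * (n1482 (M.at_ a b c) a b c) - (b) * (n1491 (M.at_ a b c) a b c - n1482 (M.at_ a b c) a b c)) + (z1209 (M.at_ a b c) (Q.v a b c) a b c) * (n1486 (M.at_ a b c) a b c - (n1491 (M.at_ a b c) a b c - n1482 (M.at_ a b c) a b c))) - (n15 (M.at_ a b c) a b c) * ((n1491 (M.at_ a b c) a b c + (n3 (M.at_ a b c) a b c) * (n1480 (M.at_ a b c) a b c) - n1482 (M.at_ a b c) a b c) * ((n169 (M.at_ a b c) a b c) * (n1482 (M.at_ a b c) a b c) - (b) * (n1491 (M.at_ a b c) a b c - n1482 (M.at_ a b c) a b c)) - (n1489 (M.at_ a b c) a b c) * ((a) * (n1482 (M.at_ a b c) a b c) + (b) * (n1491 (M.at_ a b c) a b c - n1482 (M.at_ a b c) a b c)) - (n1437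 (M.at_ a b c) a b c) * ((a) * (n1480 (M.at_ a b c) a b c) + (n1491 (M.at_ a b c) a b c - n1482 (M.at_ a b c) a b c)) + (n1262 (M.at_ a b c) a b c) * (n1486 (M.at_ a b c) a b c - (n1491 (M.at_ a b c) a b c - n1482 (M.at_ a b c) a b c)))), fun h1 h2 h3 => (enc_add ((Fz1294 M Q).enc h1 h2 h3) (enc_mul h2 ((Fz2104 M Q).enc h1 h2 h3)))⟩

noncomputable def gzAp_c2 (M : MolF) (Q : Fn3) : Fn3 := ⟨_, fun a b c => z1281 (M.at_ a b c) (Q.v a b c) a b c, fun h1 h2 h3 => ((Fz1281 M Q).enc h1 h2 h3)⟩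

noncomputable def gzAp_c3 (M : MolF) (Q : Fn3) : Fn3 := ⟨_, fun a b c => z1283 (M.at_ a b c) (Q.v a b c) a b c, fun h1 h2 h3 => ((Fz1283 M Q).enc h1 h2 h3)⟩

noncomputable def gzAp_n1 (M : MolF) (Q : Fn3) : Fn3 := ⟨_, fun a b c => z1260 (M.at_ a b c) (Q.v a b c) a b c, fun {E A B C a b c} h1 h2 h3 => encc (b := z1260 (M.at_ a b c) (Q.v a b c) a b c) ((Fz1940 M Q).enc h1 h2 h3) (ezAp_n1 (M.at_ a b c) (Q.v a b c))⟩

noncomputable def gzAp_n2 (M : MolF) (Q : Fn3) : Fn3 := ⟨_, fun a b c => z1292 (M.at_ a b c) (Q.v a b c) a b c, fun {E A B C a b c} h1 h2 h3 => encc (b := z1292 (M.at_ a b c) (Q.v a b c) a b c) ((Fz1957 M Q).enc h1 h2 h3) (ezAp_n2 (M.at_ a b c) (Q.v a b c))⟩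

noncomputable def gzAp_m1 (M : MolF) (Q : Fn3) : Fn3 := ⟨_, fun a b c => z1279 (M.at_ a b c) (Q.v a b c) a b c, fun {E A B C a b c} h1 h2 h3 => encc (b := z1279 (M.at_ a b c) (Q.v a b c) a b c) ((Fz1954 M Q).enc h1 h2 h3) (ezAp_m1 (M.at_ a b c) (Q.v a b c))⟩

noncomputable def gzAp_m2 (M : MolF) (Q : Fn3) : Fn3 := ⟨_, fun a b c => z1296 (M.at_ a b c) (Q.v a b c) a b c, fun {E A B C a b c} h1 h2 h3 => encc (b := z1296 (M.at_ a b c) (Q.v a b c) a b c) ((Fz1958 M Q).enc h1 h2 h3) (ezAp_m2 (M.at_ a b c) (Q.v a b c))⟩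

noncomputable def gzAm_c2 (M : MolF) (Q : Fn3) : Fn3 := ⟨_, fun a b c => z1281 (M.at_ a b c) (Q.v a b c) a b c, fun h1 h2 h3 => ((Fz1281 M Q).enc h1 h2 h3)⟩

noncomputable def gzAm_c3 (M : MolF) (Q : Fn3) : Fn3 := ⟨_, fun a b c => z1283 (M.at_ a b c) (Q.v a b c) a b c, fun h1 h2 h3 => ((Fz1283 M Q).enc h1 h2 h3)⟩

noncomputable def gzAm_n1 (M : MolF) (Q : Fn3) : Fn3 := ⟨_, fun a b c => -(z1346 (M.at_ a b c) (Q.v a b c) a b c), fun {E A B C a b c} h1 h2 h3 => encc (b := -(z1346 (M.at_ a b c) (Q.v a b c) a b c)) (enc_neg ((Fz1987 M Q).enc h1 h2 h3)) (ezAm_n1 (M.at_ a b c) (Q.v a b c))⟩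

noncomputable def gzAm_n2 (M : MolF) (Q : Fn3) : Fn3 := ⟨_, fun a b c => z1371 (M.at_ a b c) (Q.v a b c) a b c, fun {E A B C a b c} h1 h2 h3 => encc (b := z1371 (M.at_ a b c) (Q.v a b c) a b c) ((Fz2008 M Q).enc h1 h2 h3) (ezAm_n2 (M.at_ a b c) (Q.v a b c))⟩

noncomputable def gzAm_m1 (M : MolF) (Q : Fn3) : Fn3 := ⟨_, fun a b c => -(z1362 (M.at_ a b c) (Q.v a b c) a b c), fun {E A B C a b c} h1 h2 h3 => encc (b := -(z1362 (M.at_ a b c) (Q.v a b c) a b c)) (enc_neg ((Fz2001 M Q).enc h1 h2 h3)) (ezAm_m1 (M.at_ a b c) (Q.v a b c))⟩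

noncomputable def gzAm_m2 (M : MolF) (Q : Fn3) : Fn3 := ⟨_, fun a b c => z1373 (M.at_ a b c) (Q.v a b c) a b c, fun {E A B C a b c} h1 h2 h3 => encc (b := z1373 (M.at_ a b c) (Q.v a b c) a b c) ((Fz2009 M Q).enc h1 h2 h3) (ezAm_m2 (M.at_ a b c) (Q.v a b c))⟩

noncomputable def gzBp_c2 (M : MolF) (Q : Fn3) : Fn3 := ⟨_, fun a b c => z1281 (M.at_ a b c) (Q.v a b c) a b c, fun h1 h2 h3 => ((Fz1281 M Q).enc h1 h2 h3)⟩

noncomputable def gzBp_c3 (M : MolF) (Q : Fn3) : Fn3 := ⟨_, fun a b c => z1283 (M.at_ a b c) (Q.v a b c) a b c, fun h1 h2 h3 => ((Fz1283 M Q).enc h1 h2 h3)⟩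

noncomputable def gzBp_n1 (M : MolF) (Q : Fn3) : Fn3 := ⟨_, fun a b c => z1436 (M.at_ a b c) (Q.v a b c) a b c, fun {E A B C a b c} h1 h2 h3 => encc (b := z1436 (M.at_ a b c) (Q.v a b c) a b c) ((Fz2040 M Q).enc h1 h2 h3) (ezBp_n1 (M.at_ a b c) (Q.v a b c))⟩

noncomputable def gzBp_n2 (M : MolF) (Q : Fn3) : Fn3 := ⟨_, fun a b c => z1461 (M.at_ a b c) (Q.v a b c) a b c, fun {E A B C a b c} h1 h2 h3 => encc (b := z1461 (M.at_ a b c) (Q.v a b c) a b c) ((Fz2059 M Q).enc h1 h2 h3) (ezBp_n2 (M.at_ a b c) (Q.v a b c))⟩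

noncomputable def gzBp_m1 (M : MolF) (Q : Fn3) : Fn3 := ⟨_, fun a b c => z1454 (M.at_ a b c) (Q.v a b c) a b c, fun {E A B C a b c} h1 h2 h3 => encc (b := z1454 (M.at_ a b c) (Q.v a b c) a b c) ((Fz2054 M Q).enc h1 h2 h3) (ezBp_m1 (M.at_ a b c) (Q.v a b c))⟩

noncomputable def gzBp_m2 (M : MolF) (Q : Fn3) : Fn3 := ⟨_, fun a b c => z1463 (M.at_ a b c) (Q.v a b c) a b c, fun {E A B C a b c} h1 h2 h3 => encc (b := z1463 (M.at_ a b c) (Q.v a b c) a b c) ((Fz2060 M Q).enc h1 h2 h3) (ezBp_m2 (M.at_ a b c) (Q.v a b c))⟩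

noncomputable def gzBm_c2 (M : MolF) (Q : Fn3) : Fn3 := ⟨_, fun a b c => z1281 (M.at_ a b c) (Q.v a b c) a b c, fun h1 h2 h3 => ((Fz1281 M Q).enc h1 h2 h3)⟩

noncomputable def gzBm_c3 (M : MolF) (Q : Fn3) : Fn3 := ⟨_, fun a b c => z1283 (M.at_ a b c) (Q.v a b c) a b c, fun h1 h2 h3 => ((Fz1283 M Q).enc h1 h2 h3)⟩

noncomputable def gzBm_n1 (M : MolF) (Q : Fn3) : Fn3 := ⟨_, fun a b c => -(z1513 (M.at_ a b c) (Q.v a b c) a b c), fun {E A B C a b c} h1 h2 h3 => encc (b := -(z1513 (M.at_ a b c) (Q.v a b c) a b c)) (enc_neg ((Fz2089 M Q).enc h1 h2 h3)) (ezBm_n1 (M.at_ a b c) (Q.v a b c))⟩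

noncomputable def gzBm_n2 (M : MolF) (Q : Fn3) : Fn3 := ⟨_, fun a b c => z1538 (M.at_ a b c) (Q.v a b c) a b c, fun {E A B C a b c} h1 h2 h3 => encc (b := z1538 (M.at_ a b c) (Q.v a b c) a b c) ((Fz2109 M Q).enc h1 h2 h3) (ezBm_n2 (M.at_ a b c) (Q.v a b c))⟩

noncomputable def gzBm_m1 (M : MolF) (Q : Fn3) : Fn3 := ⟨_, fun a b c => -(z1529 (M.at_ a b c) (Q.v a b c) a b c), fun {E A B C a b c} h1 h2 h3 => encc (b := -(z1529 (M.at_ a b c) (Q.v a b c) a b c)) (enc_neg ((Fz2104 M Q).enc h1 h2 h3)) (ezBm_m1 (M.at_ a b c) (Q.v a b c))⟩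

noncomputable def gzBm_m2 (M : MolF) (Q : Fn3) : Fn3 := ⟨_, fun a b c => z1540 (M.at_ a b c) (Q.v a b c) a b c, fun {E A B C a b c} h1 h2 h3 => encc (b := z1540 (M.at_ a b c) (Q.v a b c) a b c) ((Fz2110 M Q).enc h1 h2 h3) (ezBm_m2 (M.at_ a b c) (Q.v a b c))⟩

/-- The chart `2Ap`. -/
noncomputable def kzAp (M : MolF) (Q : Fn3) (sk cx : List Fn3) : Cht :=
  ⟨sk, g2Ap_c0 M :: g2Ap_c1 M :: gzAp_c2 M Q :: gzAp_c3 M Q :: g2Ap_c4 M :: g2Ap_c5 M :: cx, [g2Ap_n0 M, gzAp_n1 M Q, gzAp_n2 M Q], [g2Ap_m0 M, gzAp_m1 M Q, gzAp_m2 M Q]⟩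

theorem rzAp {M : MolF} {Q : Fn3} {sk cx : List Fn3} {u b x : ℝ} (K : (kzAp M Q sk cx).P u b x)
    (hs : ∀ F ∈ sk, F.v u b x ≤ 0) : (∀ F ∈ cx, 0 < F.v u b x) ∧
    0 < n1219 (M.at_ u b x) u b x ∧
    0 < n1241 (M.at_ u b x) u b x ∧
    0 < z1281 (M.at_ u b x) (Q.v u b x) u b x ∧
    0 < z1283 (M.at_ u b x) (Q.v u b x) u b x ∧
    0 < n1187 (M.at_ u b x) u b x ∧
    0 < n1215 (M.at_ u b x) u b x ∧
    (0 < -(n1288 (M.at_ u b x) u b x) ∨ 0 < z1260 (M.at_ u b x) (Q.v u b x) u b x ∨ 0 < z1292 (M.at_ u b x) (Q.v u b x) u b x) ∧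
    (0 < n1288 (M.at_ u b x) u b x ∨ 0 < z1279 (M.at_ u b x) (Q.v u b x) u b x ∨ 0 < z1296 (M.at_ u b x) (Q.v u b x) u b x) := by
  rcases K with ⟨F, hF, h⟩ | ⟨h1, h2, h3⟩
  · exact absurd h (not_lt.2 (hs F hF))
  · refine ⟨fun F hF => h1 F ?_, ?_, ?_, ?_, ?_, ?_, ?_, ?_, ?_⟩
    · show F ∈ g2Ap_c0 M :: g2Ap_c1 M :: gzAp_c2 M Q :: gzAp_c3 M Q :: g2Ap_c4 M :: g2Ap_c5 M :: cx
      simp only [List.mem_cons, hF, or_true]
    · exact h1 (g2Ap_c0 M) (by show g2Ap_c0 M ∈ g2Ap_c0 M :: g2Ap_c1 M :: gzAp_c2 M Q :: gzAp_c3 M Q :: g2Ap_c4 M :: g2Ap_c5 M :: cx; simp only [List.mem_cons, true_or, or_true])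
    · exact h1 (g2Ap_c1 M) (by show g2Ap_c1 M ∈ g2Ap_c0 M :: g2Ap_c1 M :: gzAp_c2 M Q :: gzAp_c3 M Q :: g2Ap_c4 M :: g2Ap_c5 M :: cx; simp only [List.mem_cons, true_or, or_true])
    · exact h1 (gzAp_c2 M Q) (by show gzAp_c2 M Q ∈ g2Ap_c0 M :: g2Ap_c1 M :: gzAp_c2 M Q :: gzAp_c3 M Q :: g2Ap_c4 M :: g2Ap_c5 M :: cx; simp only [List.mem_cons, true_or, or_true])
    · exact h1 (gzAp_c3 M Q) (by show gzAp_c3 M Q ∈ g2Ap_c0 M :: g2Ap_c1 M :: gzAp_c2 M Q :: gzAp_c3 M Q :: g2Ap_c4 M :: g2Ap_c5 M :: cx; simp only [List.mem_cons, true_or, or_true])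
    · exact h1 (g2Ap_c4 M) (by show g2Ap_c4 M ∈ g2Ap_c0 M :: g2Ap_c1 M :: gzAp_c2 M Q :: gzAp_c3 M Q :: g2Ap_c4 M :: g2Ap_c5 M :: cx; simp only [List.mem_cons, true_or, or_true])
    · exact h1 (g2Ap_c5 M) (by show g2Ap_c5 M ∈ g2Ap_c0 M :: g2Ap_c1 M :: gzAp_c2 M Q :: gzAp_c3 M Q :: g2Ap_c4 M :: g2Ap_c5 M :: cx; simp only [List.mem_cons, true_or, or_true])
    · obtain ⟨F, hF, h⟩ := h2
      have hF' : F ∈ [g2Ap_n0 M, gzAp_n1 M Q, gzAp_n2 M Q] := hF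
      simp only [List.mem_cons, List.not_mem_nil, or_false] at hF'
      rcases hF' with rfl | rfl | rfl
      · exact Or.inl h
      · exact Or.inr (Or.inl h)
      · exact Or.inr (Or.inr h)
    · obtain ⟨F, hF, h⟩ := h3
      have hF' : F ∈ [g2Ap_m0 M, gzAp_m1 M Q, gzAp_m2 M Q] := hF
      simp only [List.mem_cons, List.not_mem_nil, or_false] at hF'
      rcases hF' with rfl | rfl | rfl
      · exact Or.inl h
      · exact Or.inr (Or.inl h)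
      · exact Or.inr (Or.inr h)

/-- The chart `2Am`. -/
noncomputable def kzAm (M : MolF) (Q : Fn3) (sk cx : List Fn3) : Cht :=
  ⟨sk, g2Am_c0 M :: g2Am_c1 M :: gzAm_c2 M Q :: gzAm_c3 M Q :: g2Am_c4 M :: g2Am_c5 M :: cx, [g2Am_n0 M, gzAm_n1 M Q, gzAm_n2 M Q], [g2Am_m0 M, gzAm_m1 M Q, gzAm_m2 M Q]⟩

theorem rzAm {M : MolF} {Q : Fn3} {sk cx : List Fn3} {u b x : ℝ} (K : (kzAm M Q sk cx).P u b x)
    (hs : ∀ F ∈ sk, F.v u b x ≤ 0) : (∀ F ∈ cx, 0 < F.v u b x) ∧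
    0 < n1307 (M.at_ u b x) u b x ∧
    0 < n1326 (M.at_ u b x) u b x ∧
    0 < z1281 (M.at_ u b x) (Q.v u b x) u b x ∧
    0 < z1283 (M.at_ u b x) (Q.v u b x) u b x ∧
    0 < n1187 (M.at_ u b x) u b x ∧
    0 < n1215 (M.at_ u b x) u b x ∧
    (0 < -(n1367 (M.at_ u b x) u b x) ∨ 0 < -(z1346 (M.at_ u b x) (Q.v u b x) u b x) ∨ 0 < z1371 (M.at_ u b x) (Q.v u b x) u b x) ∧
    (0 < n1367 (M.at_ u b x) u b x ∨ 0 < -(z1362 (M.at_ u b x) (Q.v u b x) u b x) ∨ 0 < z1373 (M.at_ u b x) (Q.v u b x) u b x) := by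
  rcases K with ⟨F, hF, h⟩ | ⟨h1, h2, h3⟩
  · exact absurd h (not_lt.2 (hs F hF))
  · refine ⟨fun F hF => h1 F ?_, ?_, ?_, ?_, ?_, ?_, ?_, ?_, ?_⟩
    · show F ∈ g2Am_c0 M :: g2Am_c1 M :: gzAm_c2 M Q :: gzAm_c3 M Q :: g2Am_c4 M :: g2Am_c5 M :: cx
      simp only [List.mem_cons, hF, or_true]
    · exact h1 (g2Am_c0 M) (by show g2Am_c0 M ∈ g2Am_c0 M :: g2Am_c1 M :: gzAm_c2 M Q :: gzAm_c3 M Q :: g2Am_c4 M :: g2Am_c5 M :: cx; simp only [List.mem_cons, true_or, or_true])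
    · exact h1 (g2Am_c1 M) (by show g2Am_c1 M ∈ g2Am_c0 M :: g2Am_c1 M :: gzAm_c2 M Q :: gzAm_c3 M Q :: g2Am_c4 M :: g2Am_c5 M :: cx; simp only [List.mem_cons, true_or, or_true])
    · exact h1 (gzAm_c2 M Q) (by show gzAm_c2 M Q ∈ g2Am_c0 M :: g2Am_c1 M :: gzAm_c2 M Q :: gzAm_c3 M Q :: g2Am_c4 M :: g2Am_c5 M :: cx; simp only [List.mem_cons, true_or, or_true])
    · exact h1 (gzAm_c3 M Q) (by show gzAm_c3 M Q ∈ g2Am_c0 M :: g2Am_c1 M :: gzAm_c2 M Q :: gzAm_c3 M Q :: g2Am_c4 M :: g2Am_c5 M :: cx; simp only [List.mem_cons, true_or, or_true])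
    · exact h1 (g2Am_c4 M) (by show g2Am_c4 M ∈ g2Am_c0 M :: g2Am_c1 M :: gzAm_c2 M Q :: gzAm_c3 M Q :: g2Am_c4 M :: g2Am_c5 M :: cx; simp only [List.mem_cons, true_or, or_true])
    · exact h1 (g2Am_c5 M) (by show g2Am_c5 M ∈ g2Am_c0 M :: g2Am_c1 M :: gzAm_c2 M Q :: gzAm_c3 M Q :: g2Am_c4 M :: g2Am_c5 M :: cx; simp only [List.mem_cons, true_or, or_true])
    · obtain ⟨F, hF, h⟩ := h2
      have hF' : F ∈ [g2Am_n0 M, gzAm_n1 M Q, gzAm_n2 M Q] := hF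
      simp only [List.mem_cons, List.not_mem_nil, or_false] at hF'
      rcases hF' with rfl | rfl | rfl
      · exact Or.inl h
      · exact Or.inr (Or.inl h)
      · exact Or.inr (Or.inr h)
    · obtain ⟨F, hF, h⟩ := h3
      have hF' : F ∈ [g2Am_m0 M, gzAm_m1 M Q, gzAm_m2 M Q] := hF
      simp only [List.mem_cons, List.not_mem_nil, or_false] at hF'
      rcases hF' with rfl | rfl | rfl
      · exact Or.inl h
      · exact Or.inr (Or.inl h)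
      · exact Or.inr (Or.inr h)

/-- The chart `2Bp`. -/
noncomputable def kzBp (M : MolF) (Q : Fn3) (sk cx : List Fn3) : Cht :=
  ⟨sk, g2Bp_c0 M :: g2Bp_c1 M :: gzBp_c2 M Q :: gzBp_c3 M Q :: g2Bp_c4 M :: g2Bp_c5 M :: cx, [g2Bp_n0 M, gzBp_n1 M Q, gzBp_n2 M Q], [g2Bp_m0 M, gzBp_m1 M Q, gzBp_m2 M Q]⟩

theorem rzBp {M : MolF} {Q : Fn3} {sk cx : List Fn3} {u b x : ℝ} (K : (kzBp M Q sk cx).P u b x)
    (hs : ∀ F ∈ sk, F.v u b x ≤ 0) : (∀ F ∈ cx, 0 < F.v u b x) ∧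
    0 < n1394 (M.at_ u b x) u b x ∧
    0 < n1414 (M.at_ u b x) u b x ∧
    0 < z1281 (M.at_ u b x) (Q.v u b x) u b x ∧
    0 < z1283 (M.at_ u b x) (Q.v u b x) u b x ∧
    0 < n1375 (M.at_ u b x) u b x ∧
    0 < n1215 (M.at_ u b x) u b x ∧
    (0 < -(n1459 (M.at_ u b x) u b x) ∨ 0 < z1436 (M.at_ u b x) (Q.v u b x) u b x ∨ 0 < z1461 (M.at_ u b x) (Q.v u b x) u b x) ∧
    (0 < n1459 (M.at_ u b x) u b x ∨ 0 < z1454 (M.at_ u b x) (Q.v u b x) u b x ∨ 0 < z1463 (M.at_ u b x) (Q.v u b x) u b x) := by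
  rcases K with ⟨F, hF, h⟩ | ⟨h1, h2, h3⟩
  · exact absurd h (not_lt.2 (hs F hF))
  · refine ⟨fun F hF => h1 F ?_, ?_, ?_, ?_, ?_, ?_, ?_, ?_, ?_⟩
    · show F ∈ g2Bp_c0 M :: g2Bp_c1 M :: gzBp_c2 M Q :: gzBp_c3 M Q :: g2Bp_c4 M :: g2Bp_c5 M :: cx
      simp only [List.mem_cons, hF, or_true]
    · exact h1 (g2Bp_c0 M) (by show g2Bp_c0 M ∈ g2Bp_c0 M :: g2Bp_c1 M :: gzBp_c2 M Q :: gzBp_c3 M Q :: g2Bp_c4 M :: g2Bp_c5 M :: cx; simp only [List.mem_cons, true_or, or_true])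
    · exact h1 (g2Bp_c1 M) (by show g2Bp_c1 M ∈ g2Bp_c0 M :: g2Bp_c1 M :: gzBp_c2 M Q :: gzBp_c3 M Q :: g2Bp_c4 M :: g2Bp_c5 M :: cx; simp only [List.mem_cons, true_or, or_true])
    · exact h1 (gzBp_c2 M Q) (by show gzBp_c2 M Q ∈ g2Bp_c0 M :: g2Bp_c1 M :: gzBp_c2 M Q :: gzBp_c3 M Q :: g2Bp_c4 M :: g2Bp_c5 M :: cx; simp only [List.mem_cons, true_or, or_true])
    · exact h1 (gzBp_c3 M Q) (by show gzBp_c3 M Q ∈ g2Bp_c0 M :: g2Bp_c1 M :: gzBp_c2 M Q :: gzBp_c3 M Q :: g2Bp_c4 M :: g2Bp_c5 M :: cx; simp only [List.mem_cons, true_or, or_true])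
    · exact h1 (g2Bp_c4 M) (by show g2Bp_c4 M ∈ g2Bp_c0 M :: g2Bp_c1 M :: gzBp_c2 M Q :: gzBp_c3 M Q :: g2Bp_c4 M :: g2Bp_c5 M :: cx; simp only [List.mem_cons, true_or, or_true])
    · exact h1 (g2Bp_c5 M) (by show g2Bp_c5 M ∈ g2Bp_c0 M :: g2Bp_c1 M :: gzBp_c2 M Q :: gzBp_c3 M Q :: g2Bp_c4 M :: g2Bp_c5 M :: cx; simp only [List.mem_cons, true_or, or_true])
    · obtain ⟨F, hF, h⟩ := h2
      have hF' : F ∈ [g2Bp_n0 M, gzBp_n1 M Q, gzBp_n2 M Q] := hF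
      simp only [List.mem_cons, List.not_mem_nil, or_false] at hF'
      rcases hF' with rfl | rfl | rfl
      · exact Or.inl h
      · exact Or.inr (Or.inl h)
      · exact Or.inr (Or.inr h)
    · obtain ⟨F, hF, h⟩ := h3
      have hF' : F ∈ [g2Bp_m0 M, gzBp_m1 M Q, gzBp_m2 M Q] := hF
      simp only [List.mem_cons, List.not_mem_nil, or_false] at hF'
      rcases hF' with rfl | rfl | rfl
      · exact Or.inl h
      · exact Or.inr (Or.inl h)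
      · exact Or.inr (Or.inr h)

/-- The chart `2Bm`. -/
noncomputable def kzBm (M : MolF) (Q : Fn3) (sk cx : List Fn3) : Cht :=
  ⟨sk, g2Bm_c0 M :: g2Bm_c1 M :: gzBm_c2 M Q :: gzBm_c3 M Q :: g2Bm_c4 M :: g2Bm_c5 M :: cx, [g2Bm_n0 M, gzBm_n1 M Q, gzBm_n2 M Q], [g2Bm_m0 M, gzBm_m1 M Q, gzBm_m2 M Q]⟩

theorem rzBm {M : MolF} {Q : Fn3} {sk cx : List Fn3} {u b x : ℝ} (K : (kzBm M Q sk cx).P u b x)
    (hs : ∀ F ∈ sk, F.v u b x ≤ 0) : (∀ F ∈ cx, 0 < F.v u b x) ∧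
    0 < n1474 (M.at_ u b x) u b x ∧
    0 < n1491 (M.at_ u b x) u b x ∧
    0 < z1281 (M.at_ u b x) (Q.v u b x) u b x ∧
    0 < z1283 (M.at_ u b x) (Q.v u b x) u b x ∧
    0 < n1375 (M.at_ u b x) u b x ∧
    0 < n1215 (M.at_ u b x) u b x ∧
    (0 < -(n1534 (M.at_ u b x) u b x) ∨ 0 < -(z1513 (M.at_ u b x) (Q.v u b x) u b x) ∨ 0 < z1538 (M.at_ u b x) (Q.v u b x) u b x) ∧
    (0 < n1534 (M.at_ u b x) u b x ∨ 0 < -(z1529 (M.at_ u b x) (Q.v u b x) u b x) ∨ 0 < z1540 (M.at_ u b x) (Q.v u b x) u b x) := by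
  rcases K with ⟨F, hF, h⟩ | ⟨h1, h2, h3⟩
  · exact absurd h (not_lt.2 (hs F hF))
  · refine ⟨fun F hF => h1 F ?_, ?_, ?_, ?_, ?_, ?_, ?_, ?_, ?_⟩
    · show F ∈ g2Bm_c0 M :: g2Bm_c1 M :: gzBm_c2 M Q :: gzBm_c3 M Q :: g2Bm_c4 M :: g2Bm_c5 M :: cx
      simp only [List.mem_cons, hF, or_true]
    · exact h1 (g2Bm_c0 M) (by show g2Bm_c0 M ∈ g2Bm_c0 M :: g2Bm_c1 M :: gzBm_c2 M Q :: gzBm_c3 M Q :: g2Bm_c4 M :: g2Bm_c5 M :: cx; simp only [List.mem_cons, true_or, or_true])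
    · exact h1 (g2Bm_c1 M) (by show g2Bm_c1 M ∈ g2Bm_c0 M :: g2Bm_c1 M :: gzBm_c2 M Q :: gzBm_c3 M Q :: g2Bm_c4 M :: g2Bm_c5 M :: cx; simp only [List.mem_cons, true_or, or_true])
    · exact h1 (gzBm_c2 M Q) (by show gzBm_c2 M Q ∈ g2Bm_c0 M :: g2Bm_c1 M :: gzBm_c2 M Q :: gzBm_c3 M Q :: g2Bm_c4 M :: g2Bm_c5 M :: cx; simp only [List.mem_cons, true_or, or_true])
    · exact h1 (gzBm_c3 M Q) (by show gzBm_c3 M Q ∈ g2Bm_c0 M :: g2Bm_c1 M :: gzBm_c2 M Q :: gzBm_c3 M Q :: g2Bm_c4 M :: g2Bm_c5 M :: cx; simp only [List.mem_cons, true_or, or_true])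
    · exact h1 (g2Bm_c4 M) (by show g2Bm_c4 M ∈ g2Bm_c0 M :: g2Bm_c1 M :: gzBm_c2 M Q :: gzBm_c3 M Q :: g2Bm_c4 M :: g2Bm_c5 M :: cx; simp only [List.mem_cons, true_or, or_true])
    · exact h1 (g2Bm_c5 M) (by show g2Bm_c5 M ∈ g2Bm_c0 M :: g2Bm_c1 M :: gzBm_c2 M Q :: gzBm_c3 M Q :: g2Bm_c4 M :: g2Bm_c5 M :: cx; simp only [List.mem_cons, true_or, or_true])
    · obtain ⟨F, hF, h⟩ := h2
      have hF' : F ∈ [g2Bm_n0 M, gzBm_n1 M Q, gzBm_n2 M Q] := hF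
      simp only [List.mem_cons, List.not_mem_nil, or_false] at hF'
      rcases hF' with rfl | rfl | rfl
      · exact Or.inl h
      · exact Or.inr (Or.inl h)
      · exact Or.inr (Or.inr h)
    · obtain ⟨F, hF, h⟩ := h3
      have hF' : F ∈ [g2Bm_m0 M, gzBm_m1 M Q, gzBm_m2 M Q] := hF
      simp only [List.mem_cons, List.not_mem_nil, or_false] at hF'
      rcases hF' with rfl | rfl | rfl
      · exact Or.inl h
      · exact Or.inr (Or.inl h)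
      · exact Or.inr (Or.inr h)

end Pool.Agent.Strip051.PB.Mol
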