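import Pool.Agent.Strip051.PB.MolZf
import Pool.Agent.Strip051.PB.MolYx

/-! # The tight triangles: both vertices, free coefficient of the short edge (generated) -/

set_option linter.unusedVariables false

namespace Pool.Agent.Strip051.PB.Mol.Rz

open Pool.Agent.StripNear Pool.Agent.StripSquare Pool.Agent.Strip051.Sweep
open Pool.Agent.Strip051.LC Pool.Agent.Strip051.LC.MolN Pool.Agent.Strip051.PB
open Pool.Agent.Strip051.LC.Line (tau jn)

/-- The statement of `near_dirA` with the constant `C` and the coefficient `q` of the short edge. -/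
def NdAz (A th s C q α : ℝ) : Prop := ∀ (κ e E μ X η ν β t t' : ℝ) (r c : ℝ × ℝ × ℝ), 0 ≤ κ →
  κ * (s * (h0 - s)) = 2 * h0 * e → 0 < e → 0 ≤ μ → t = s + α → t' = h0 + β →
  α ≤ h0 - s → -(h0 * A) ≤ α → |β| ≤ h0 / 8 → 0 ≤ t → t + t' ≤ 2 * h0 → c.2.2 ≤ c.1 →
  μ * (c.1 - c.2.2) * (q * (α ^ 2 / s)) ≤ η →
  μ * (|c.2.1 - c.2.2| * ((1 / th - 1) * |β|) + (c.1 - c.2.2) * C) ≤ e * ν →
  NGV κ s (X - η - e * ν) t t' ((cpl E (μ / e) r c t t').1,
    (cpl E (μ / e) r c t t').2.1 + ν, (cpl E (μ / e) r c t t').2.2) →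
  ∀ z, 0 ≤ X + E * kf κ s r t t' z + μ * pf (tnt s th) c t t' z

/-- The statement of `near_dirB` with the constant `C` and the coefficient `q` of the short edge. -/
def NdBz (A th s C q α : ℝ) : Prop := ∀ (κ e E μ X η ν β t t' : ℝ) (r c : ℝ × ℝ × ℝ), 0 ≤ κ →
  κ * (s * (h0 - s)) = 2 * h0 * e → 0 < e → 0 ≤ μ → t = s + α → t + t' = h0 + β →
  α ≤ h0 - s → -(h0 * A) ≤ α → |β| ≤ h0 / 8 → 0 ≤ t → 0 ≤ t' → c.1 ≤ c.2.1 →
  μ * (c.2.1 - c.1) * (q * (α ^ 2 / s)) ≤ η →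
  μ * (|c.2.1 - c.2.2| * ((1 / th - 1) * |β|) + (c.2.1 - c.1) * C) ≤ e * ν →
  NGV κ s (X - η - e * ν) t t' ((cpl E (μ / e) r c t t').1,
    (cpl E (μ / e) r c t t').2.1, (cpl E (μ / e) r c t t').2.2 + ν) →
  ∀ z, 0 ≤ X + E * kf κ s r t t' z + μ * pf (tnt s th) c t t' z

theorem ndAz {th K l A x q u : ℝ} (C : DC2 th K l A x) (G : Gain2 th K x u (-(q * (u ^ 2 / x)))) :
    NdAz A th (h0 * x) (h0 * (K * (1 - x))) q (h0 * u) := by
  intro κ e E μ X η ν β t t' r c hκ he he0 hμ et et' hα hα' hβ h0t hT hδ hη hν h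
  have hp := h0_pos
  obtain ⟨t0, t1, x0, x1, -⟩ := id C
  have xp : 0 < x := by linarith
  have eb : h0 * (β / h0) = β := by field_simp
  have a1 : -A ≤ u := by
    by_contra hc
    push Not at hc
    have := mul_lt_mul_of_pos_left hc hp
    linarith
  have a2 : u ≤ 1 - x := by
    by_contra hc
    push Not at hc
    have := mul_lt_mul_of_pos_left hc hp
    linarith
  have b1 : |β / h0| ≤ 1 / 8 := by
    rw [abs_div, abs_of_pos hp, div_le_iff₀ hp]
    linarith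
  refine near_dirA2 (g := h0 * -(q * (u ^ 2 / x))) (by positivity)
    (by nlinarith) t0 t1 hκ he he0 hμ et' (by linarith) h0t hT hδ ?_ ?_ hν h
  · intro b
    have k := Gain2.short C G a1 a2 b1 b
    rw [eb, mul_add h0 x, ← et] at k
    exact k
  · refine le_trans (le_of_eq ?_) hη
    have : (h0 * u) ^ 2 / (h0 * x) = h0 * (u ^ 2 / x) := by field_simp
    rw [this]
    ring

theorem ndBz {th K l A x q u : ℝ} (C : DC2 th K l A x) (G : Gain2 th K x u (-(q * (u ^ 2 / x)))) :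
    NdBz A th (h0 * x) (h0 * (K * (1 - x))) q (h0 * u) := by
  intro κ e E μ X η ν β t t' r c hκ he he0 hμ et et' hα hα' hβ h0t hT hδ hη hν h
  have hp := h0_pos
  obtain ⟨t0, t1, x0, x1, -⟩ := id C
  have xp : 0 < x := by linarith
  have eb : h0 * (-β / h0) = -β := by field_simp
  have a1 : -A ≤ u := by
    by_contra hc
    push Not at hc
    have := mul_lt_mul_of_pos_left hc hp
    linarith
  have a2 : u ≤ 1 - x := by
    by_contra hc
    push Not at hc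
    have := mul_lt_mul_of_pos_left hc hp
    linarith
  have b1 : |-β / h0| ≤ 1 / 8 := by
    rw [abs_div, abs_neg, abs_of_pos hp, div_le_iff₀ hp]
    linarith
  refine near_dirB2 (g := h0 * -(q * (u ^ 2 / x))) (by positivity)
    (by nlinarith) t0 t1 hκ he he0 hμ et' (by linarith) h0t hT hδ ?_ ?_ hν h
  · intro b
    have k := Gain2.short C G a1 a2 b1 b
    rw [eb, mul_add h0 x, ← et] at k
    exact k
  · refine le_trans (le_of_eq ?_) hη
    have : (h0 * u) ^ 2 / (h0 * x) = h0 * (u ^ 2 / x) := by field_simp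
    rw [this]
    ring

theorem finzAp {T : MolP} {q th A u b x κ τ1 τ3 y y' X12 X13 : ℝ} {r c l : ℝ × ℝ × ℝ}
    (h : DomA u b x) (hb : 0 ≤ b) (hκ : κ * h0 = ken x) (hy : y = x + u) (hy' : y' = 1 + b)
    (hi : T.it * τ3 = 1) (ha : AbsA T u b x X12 X13) (hk : KerA T u b x τ1 τ3 X13 r)
    (hc : ThrA T u b x X13 c) (hl : LevA T u b x X13 l) (t1 : tau (h0 * y) = h0 * τ1)
    (t3 : tau (h0 * y + h0 * y') = h0 * τ3) (hk1 : T.k1 = 1 / th - 1) (hN : NdAz A th (h0 * x) (h0 * (T.k52 * x)) q (h0 * u))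
    (hu : u ≤ 1 - x) (hu0 : -A ≤ u) (hA1 : 0 < z1281 T q u b x) (hA2 : 0 < z1283 T q u b x) (hD : 0 < n1187 T u b x) (hr : 0 < n1215 T u b x)
    (hP : 0 < n1219 T u b x) (hQ : 0 < n1241 T u b x)
    (tN : 0 < -(n1288 T u b x) ∨ 0 < z1260 T q u b x ∨ 0 < z1292 T q u b x)
    (tM : 0 < n1288 T u b x ∨ 0 < z1279 T q u b x ∨ 0 < z1296 T q u b x) (z : ℝ) :
    0 ≤ lvN 3 0 x y y' (exn' X12 X13 y (y + y')) l +
      (1 + mun 3 x * cR x) * kf κ (h0 * x) r (h0 * y) (h0 * y') z +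
      mun 3 x * pf (tnt (h0 * x) th) c (h0 * y) (h0 * y') z := by
  have hp := h0_pos
  have hn : h0 ≠ 0 := hp.ne'
  have xp := h.x0
  have xn : x ≠ 0 := xp.ne'
  have ep := esn_pos' h.x0 h.x1
  have en : esn x ≠ 0 := ep.ne'
  have mp := mun_pos' (x := x)
  obtain ⟨c1, c2, c3⟩ := thrA h ha hc
  have ee : exn' X12 X13 y (y + y') = n160 T u b x + b * (1 / 2 * (n12 T u b x + (T.p1) * (n16 T u b x) + (T.ws) * (n3 T u b x))) := by
    rw [hy, hy']
    exact exq (Xs := 0) rfl ha.h12 ha.h13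
  have hke := hk_e T (u := u) (b := b) h.x0 h.x1 hκ
  have he' : n15 T u b x = esn x := by
    rw [e_eq]
    rfl
  have hfa := fac_eqA T (u := u) (b := b) (x := x)
  have hmu := mu_eqA T (u := u) (b := b) (x := x)
  have hkp : 0 ≤ κ := by
    rw [he'] at hke
    by_contra hneg
    push Not at hneg
    have h1 : 0 < h0 * (x * (1 - x)) := mul_pos hp (mul_pos xp (by linarith [h.x1]))
    have h2 : κ * (h0 * (x * (1 - x))) < 0 := mul_neg_of_neg_of_pos hneg h1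
    have h3 : κ * (h0 * (x * (1 - x))) = 2 * esn x := by rw [← hke]; ring
    linarith
  have hK := ker0A h hi ha hk
  have hdv : n1187 T u b x = (n716 T u b x) - (n721 T u b x) := by
    simp only [n1187]
  have tS : tau (h0 * y') = h0 * b := by
    unfold tau jn
    have hb0 := h.b0
    have hb1 := h.b1
    have eS : h0 * y' = h0 + h0 * b := by
      rw [hy']
      ring
    have q1 := mul_le_mul_of_nonneg_left hb0 hp.le
    have q2 := mul_le_mul_of_nonneg_left hb1 hp.le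
    rw [eS, if_neg (by linarith), if_pos (by linarith)]
    push_cast
    ring
  have hcpl : cpl (1 + mun 3 x * cR x) (mun 3 x / esn x) r c (h0 * y) (h0 * y') = ((n730 T u b x) * τ1, -(n748 T u b x), (n739 T u b x) * τ3) := by
    unfold cpl
    rw [t1, t3, tS, c1, c2, c3, hK, ← hfa, ← hmu]
    ext
    · simp only [n730, n727, n724]
      field_simp
      all_goals ring
    · simp only [n748, n746, n744, n741]
      field_simp
      all_goals ring
    · simp only [n739, n736, n733]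
      field_simp
      all_goals ring
  have hh : h0 * y' = h0 + h0 * b := by
    rw [hy']
    ring
  have hlev := ev1Ap h hb ha hl hy hy' ee
  have hη : mun 3 x * (c.1 - c.2.2) * (q * ((h0 * u) ^ 2 / (h0 * x))) ≤ u ^ 2 * (esn x * mun 3 x * q * x⁻¹ * (n1187 T u b x)) := by
    rw [c1, c3, hdv]
    apply le_of_eq
    field_simp
    all_goals ring
  have hab : |c.2.1 - c.2.2| = h0⁻¹ * (esn x * (n1189 T u b x)) := by
    rw [c2, c3]
    have : -(h0⁻¹ * (esn x * T.k2)) - h0⁻¹ * (esn x * (n721 T u b x)) = h0⁻¹ * (esn x * (-(T.k2 + n721 T u b x))) := by ring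
    rw [this, abs_mul, abs_mul, abs_of_pos (inv_pos.2 hp), abs_of_pos ep, abs_neg]
    simp only [n1189]
  have hν : mun 3 x * (|c.2.1 - c.2.2| * ((1 / th - 1) * |h0 * b|) +
      (c.1 - c.2.2) * (h0 * (T.k52 * x))) ≤ esn x * (mun 3 x * (n1187 T u b x) * T.k52 * x + mun 3 x * (n1189 T u b x) * T.k1 * |b|) := by
    rw [hab, c1, c3, abs_mul, abs_of_pos hp, hdv, hk1]
    apply le_of_eq
    field_simp
    all_goals ring
  have jd : n1187 T u b x = (n1185 T u b x) + b * (n1186 T u b x) := by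
    rw [hdv]
    have j1 := J87 T (u := u) (b := b) (x := x)
    have j3 := J83 T (u := u) (b := b) (x := x) h
    simp only [n1186, n1185, n719, n711, n706, n704, n703, n699, n696, n690, n685, n683, n677, n675, n669, n102, n52, n51, n12, n3] at j1 j3 ⊢
    linear_combination j1 - j3
  have hEE : (z1209 T q u b x) + b * (z1212 T q u b x) = ((n654 T u b x) + b * (n656 T u b x)) - u ^ 2 * (esn x * mun 3 x * q * x⁻¹ * (n1187 T u b x)) -
      esn x * (mun 3 x * (n1187 T u b x) * T.k52 * x + mun 3 x * (n1189 T u b x) * T.k1 * |b|) := by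
    rw [← he', ← hmu, jd, abs_of_nonneg hb]
    simp only [z1212, z1209, z1206, z1204, z1203, z1202, n1198, n1197, n1195, n1192, n298]
    ring
  have hrv : -(n1217 T u b x) = -(n748 T u b x) + (mun 3 x * (n1187 T u b x) * T.k52 * x + mun 3 x * (n1189 T u b x) * T.k1 * |b|) := by
    rw [← hmu, jd, abs_of_nonneg hb]
    simp only [n1217, n1214, n1198, n1197, n1195, n1192]
    ring
  have k := chzAp T q h hb hke hA1.le hA2.le hr.le hP hQ (by simpa using tN) (by simpa using tM)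
    (by rw [y_eq, ← hy]; exact t1) (by rw [y_eq, ← hy, ← hh]; exact t3)
  rw [y_eq, hEE, hrv, ← hy, ← hh] at k
  refine hN κ (esn x) (1 + mun 3 x * cR x) (mun 3 x) _ _ _ (h0 * b) (h0 * y) (h0 * y') r c hkp
    ?_ ep mp ?_ ?_ ?_ ?_ ?_ ?_ ?_ ?_ hη hν ?_ z
  · rw [he'] at hke
    have : κ * (h0 * x * (h0 - h0 * x)) = h0 * (κ * h0 * (x * (1 - x))) := by ring
    rw [this, hke]
    ring
  · rw [hy]
    ring
  · rw [hh]
  · have := mul_le_mul_of_nonneg_left hu hp.le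
    linarith
  · have := mul_le_mul_of_nonneg_left hu0 hp.le
    linarith
  · rw [abs_mul, abs_of_pos hp]
    have : |b| ≤ 1 / 8 := abs_le.2 ⟨by linarith [h.b0], h.b1⟩
    have := mul_le_mul_of_nonneg_left this hp.le
    linarith
  · rw [hy]
    exact mul_nonneg hp.le h.y0.le
  · rw [hy, hh]
    have := mul_pos hp (sub_pos.2 h.p1)
    linarith
  · rw [c1, c3]
    have h1 : (n721 T u b x) < (n716 T u b x) := by linarith [hdv]
    have h2 : esn x * (n721 T u b x) ≤ esn x * (n716 T u b x) := mul_le_mul_of_nonneg_left h1.le ep.le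
    exact mul_le_mul_of_nonneg_left h2 (inv_pos.2 hp).le
  · rw [hcpl, hlev]
    exact k

theorem finzAm {T : MolP} {q th A u b x κ τ1 τ3 y y' X12 X13 : ℝ} {r c l : ℝ × ℝ × ℝ}
    (h : DomA u b x) (hb : b < 0) (hκ : κ * h0 = ken x) (hy : y = x + u) (hy' : y' = 1 + b)
    (hi : T.it * τ3 = 1) (ha : AbsA T u b x X12 X13) (hk : KerA T u b x τ1 τ3 X13 r)
    (hc : ThrA T u b x X13 c) (hl : LevA T u b x X13 l) (t1 : tau (h0 * y) = h0 * τ1)
    (t3 : tau (h0 * y + h0 * y') = h0 * τ3) (hk1 : T.k1 = 1 / th - 1) (hN : NdAz A th (h0 * x) (h0 * (T.k52 * x)) q (h0 * u))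
    (hu : u ≤ 1 - x) (hu0 : -A ≤ u) (hA1 : 0 < z1281 T q u b x) (hA2 : 0 < z1283 T q u b x) (hD : 0 < n1187 T u b x) (hr : 0 < n1215 T u b x)
    (hP : 0 < n1307 T u b x) (hQ : 0 < n1326 T u b x)
    (tN : 0 < -(n1367 T u b x) ∨ 0 < -(z1346 T q u b x) ∨ 0 < z1371 T q u b x)
    (tM : 0 < n1367 T u b x ∨ 0 < -(z1362 T q u b x) ∨ 0 < z1373 T q u b x) (z : ℝ) :
    0 ≤ lvN 3 0 x y y' (exn' X12 X13 y (y + y')) l +
      (1 + mun 3 x * cR x) * kf κ (h0 * x) r (h0 * y) (h0 * y') z +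
      mun 3 x * pf (tnt (h0 * x) th) c (h0 * y) (h0 * y') z := by
  have hp := h0_pos
  have hn : h0 ≠ 0 := hp.ne'
  have xp := h.x0
  have xn : x ≠ 0 := xp.ne'
  have ep := esn_pos' h.x0 h.x1
  have en : esn x ≠ 0 := ep.ne'
  have mp := mun_pos' (x := x)
  obtain ⟨c1, c2, c3⟩ := thrA h ha hc
  have ee : exn' X12 X13 y (y + y') = n160 T u b x + b * (1 / 2 * (n12 T u b x + (T.p1) * (n16 T u b x) + (T.ws) * (n3 T u b x))) := by
    rw [hy, hy']
    exact exq (Xs := 0) rfl ha.h12 ha.h13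
  have hke := hk_e T (u := u) (b := b) h.x0 h.x1 hκ
  have he' : n15 T u b x = esn x := by
    rw [e_eq]
    rfl
  have hfa := fac_eqA T (u := u) (b := b) (x := x)
  have hmu := mu_eqA T (u := u) (b := b) (x := x)
  have hkp : 0 ≤ κ := by
    rw [he'] at hke
    by_contra hneg
    push Not at hneg
    have h1 : 0 < h0 * (x * (1 - x)) := mul_pos hp (mul_pos xp (by linarith [h.x1]))
    have h2 : κ * (h0 * (x * (1 - x))) < 0 := mul_neg_of_neg_of_pos hneg h1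
    have h3 : κ * (h0 * (x * (1 - x))) = 2 * esn x := by rw [← hke]; ring
    linarith
  have hK := ker0A h hi ha hk
  have hdv : n1187 T u b x = (n716 T u b x) - (n721 T u b x) := by
    simp only [n1187]
  have tS : tau (h0 * y') = h0 * b := by
    unfold tau jn
    have hb0 := h.b0
    have hb1 := h.b1
    have eS : h0 * y' = h0 + h0 * b := by
      rw [hy']
      ring
    have q1 := mul_le_mul_of_nonneg_left hb0 hp.le
    have q2 := mul_le_mul_of_nonneg_left hb1 hp.le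
    rw [eS, if_neg (by linarith), if_pos (by linarith)]
    push_cast
    ring
  have hcpl : cpl (1 + mun 3 x * cR x) (mun 3 x / esn x) r c (h0 * y) (h0 * y') = ((n730 T u b x) * τ1, -(n748 T u b x), (n739 T u b x) * τ3) := by
    unfold cpl
    rw [t1, t3, tS, c1, c2, c3, hK, ← hfa, ← hmu]
    ext
    · simp only [n730, n727, n724]
      field_simp
      all_goals ring
    · simp only [n748, n746, n744, n741]
      field_simp
      all_goals ring
    · simp only [n739, n736, n733]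
      field_simp
      all_goals ring
  have hh : h0 * y' = h0 + h0 * b := by
    rw [hy']
    ring
  have hlev := ev1Am h hb ha hl hy hy' ee
  have hη : mun 3 x * (c.1 - c.2.2) * (q * ((h0 * u) ^ 2 / (h0 * x))) ≤ u ^ 2 * (esn x * mun 3 x * q * x⁻¹ * (n1187 T u b x)) := by
    rw [c1, c3, hdv]
    apply le_of_eq
    field_simp
    all_goals ring
  have hab : |c.2.1 - c.2.2| = h0⁻¹ * (esn x * (n1189 T u b x)) := by
    rw [c2, c3]
    have : -(h0⁻¹ * (esn x * T.k2)) - h0⁻¹ * (esn x * (n721 T u b x)) = h0⁻¹ * (esn x * (-(T.k2 + n721 T u b x))) := by ring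
    rw [this, abs_mul, abs_mul, abs_of_pos (inv_pos.2 hp), abs_of_pos ep, abs_neg]
    simp only [n1189]
  have hν : mun 3 x * (|c.2.1 - c.2.2| * ((1 / th - 1) * |h0 * b|) +
      (c.1 - c.2.2) * (h0 * (T.k52 * x))) ≤ esn x * (mun 3 x * (n1187 T u b x) * T.k52 * x + mun 3 x * (n1189 T u b x) * T.k1 * |b|) := by
    rw [hab, c1, c3, abs_mul, abs_of_pos hp, hdv, hk1]
    apply le_of_eq
    field_simp
    all_goals ring
  have jd : n1187 T u b x = (n1185 T u b x) + b * (n1186 T u b x) := by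
    rw [hdv]
    have j1 := J87 T (u := u) (b := b) (x := x)
    have j3 := J83 T (u := u) (b := b) (x := x) h
    simp only [n1186, n1185, n719, n711, n706, n704, n703, n699, n696, n690, n685, n683, n677, n675, n669, n102, n52, n51, n12, n3] at j1 j3 ⊢
    linear_combination j1 - j3
  have hEE : (z1209 T q u b x) + b * (z1301 T q u b x) = ((n654 T u b x) + b * (n877 T u b x)) - u ^ 2 * (esn x * mun 3 x * q * x⁻¹ * (n1187 T u b x)) -
      esn x * (mun 3 x * (n1187 T u b x) * T.k52 * x + mun 3 x * (n1189 T u b x) * T.k1 * |b|) := by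
    rw [← he', ← hmu, jd, abs_of_neg hb]
    simp only [z1301, n1298, z1209, z1206, z1204, z1203, z1202, n1197, n1195, n1192, n298]
    ring
  have hrv : -(n1305 T u b x) = -(n748 T u b x) + (mun 3 x * (n1187 T u b x) * T.k52 * x + mun 3 x * (n1189 T u b x) * T.k1 * |b|) := by
    rw [← hmu, jd, abs_of_neg hb]
    simp only [n1305, n1303, n1298, n1197, n1195, n1192]
    ring
  have k := chzAm T q h hb hke hA1.le hA2.le hr.le hP hQ (by simpa using tN) (by simpa using tM)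
    (by rw [y_eq, ← hy]; exact t1) (by rw [y_eq, ← hy, ← hh]; exact t3)
  rw [y_eq, hEE, hrv, ← hy, ← hh] at k
  refine hN κ (esn x) (1 + mun 3 x * cR x) (mun 3 x) _ _ _ (h0 * b) (h0 * y) (h0 * y') r c hkp
    ?_ ep mp ?_ ?_ ?_ ?_ ?_ ?_ ?_ ?_ hη hν ?_ z
  · rw [he'] at hke
    have : κ * (h0 * x * (h0 - h0 * x)) = h0 * (κ * h0 * (x * (1 - x))) := by ring
    rw [this, hke]
    ring
  · rw [hy]
    ring
  · rw [hh]
  · have := mul_le_mul_of_nonneg_left hu hp.le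
    linarith
  · have := mul_le_mul_of_nonneg_left hu0 hp.le
    linarith
  · rw [abs_mul, abs_of_pos hp]
    have : |b| ≤ 1 / 8 := abs_le.2 ⟨by linarith [h.b0], h.b1⟩
    have := mul_le_mul_of_nonneg_left this hp.le
    linarith
  · rw [hy]
    exact mul_nonneg hp.le h.y0.le
  · rw [hy, hh]
    have := mul_pos hp (sub_pos.2 h.p1)
    linarith
  · rw [c1, c3]
    have h1 : (n721 T u b x) < (n716 T u b x) := by linarith [hdv]
    have h2 : esn x * (n721 T u b x) ≤ esn x * (n716 T u b x) := mul_le_mul_of_nonneg_left h1.le ep.le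
    exact mul_le_mul_of_nonneg_left h2 (inv_pos.2 hp).le
  · rw [hcpl, hlev]
    exact k

theorem finzBp {T : MolP} {q th A u b x κ τ1 τ3 y y' X12 X13 : ℝ} {r c l : ℝ × ℝ × ℝ}
    (h : DomB u b x) (hb : 0 ≤ b) (hκ : κ * h0 = ken x) (hy : y = x + u) (hy' : y' = 1 + b - (x + u))
    (hi : T.it * τ3 = 1) (ha : AbsB T u b x X12 X13) (hk : KerB T u b x τ1 τ3 (X12 - X13) r)
    (hc : ThrB T u b x (X12 - X13) c) (hl : LevB T u b x (X12 - X13) l) (t1 : tau (h0 * y) = h0 * τ1)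
    (t3 : tau (h0 * y') = h0 * τ3) (hk1 : T.k1 = 1 / th - 1) (hN : NdBz A th (h0 * x) (h0 * (T.k52 * x)) q (h0 * u))
    (hu : u ≤ 1 - x) (hu0 : -A ≤ u) (hA1 : 0 < z1281 T q u b x) (hA2 : 0 < z1283 T q u b x) (hD : 0 < n1375 T u b x) (hr : 0 < n1215 T u b x)
    (hP : 0 < n1394 T u b x) (hQ : 0 < n1414 T u b x)
    (tN : 0 < -(n1459 T u b x) ∨ 0 < z1436 T q u b x ∨ 0 < z1461 T q u b x)
    (tM : 0 < n1459 T u b x ∨ 0 < z1454 T q u b x ∨ 0 < z1463 T q u b x) (z : ℝ) :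
    0 ≤ lvN 3 0 x y y' (exn' X12 X13 y (y + y')) l +
      (1 + mun 3 x * cR x) * kf κ (h0 * x) r (h0 * y) (h0 * y') z +
      mun 3 x * pf (tnt (h0 * x) th) c (h0 * y) (h0 * y') z := by
  have hp := h0_pos
  have hn : h0 ≠ 0 := hp.ne'
  have xp := h.x0
  have xn : x ≠ 0 := xp.ne'
  have ep := esn_pos' h.x0 h.x1
  have en : esn x ≠ 0 := ep.ne'
  have mp := mun_pos' (x := x)
  obtain ⟨c1, c2, c3⟩ := thrB h ha hc
  have ee : exn' X12 X13 y (y + y') = n160 T u b x + b * (1 / 2 * (n12 T u b x + (T.p1) * (n16 T u b x) + (T.ws) * (n3 T u b x))) := by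
    rw [hy, hy']
    exact exqB (by ring) ha.h12 ha.h13
  have hke := hk_e T (u := u) (b := b) h.x0 h.x1 hκ
  have he' : n15 T u b x = esn x := by
    rw [e_eq]
    rfl
  have hfa := fac_eqA T (u := u) (b := b) (x := x)
  have hmu := mu_eqA T (u := u) (b := b) (x := x)
  have hkp : 0 ≤ κ := by
    rw [he'] at hke
    by_contra hneg
    push Not at hneg
    have h1 : 0 < h0 * (x * (1 - x)) := mul_pos hp (mul_pos xp (by linarith [h.x1]))
    have h2 : κ * (h0 * (x * (1 - x))) < 0 := mul_neg_of_neg_of_pos hneg h1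
    have h3 : κ * (h0 * (x * (1 - x))) = 2 * esn x := by rw [← hke]; ring
    linarith
  have hK := ker0B h hi ha hk
  have hdv : n1375 T u b x = (n1035 T u b x) - (n716 T u b x) := by
    simp only [n1375]
  have tS : tau (h0 * y + h0 * y') = h0 * b := by
    unfold tau jn
    have hb0 := h.b0
    have hb1 := h.b1
    have eS : h0 * y + h0 * y' = h0 + h0 * b := by
      rw [hy, hy']
      ring
    have q1 := mul_le_mul_of_nonneg_left hb0 hp.le
    have q2 := mul_le_mul_of_nonneg_left hb1 hp.le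
    rw [eS, if_neg (by linarith), if_pos (by linarith)]
    push_cast
    ring
  have hcpl : cpl (1 + mun 3 x * cR x) (mun 3 x / esn x) r c (h0 * y) (h0 * y') = ((n730 T u b x) * τ1, (n1044 T u b x) * τ3, -(n748 T u b x)) := by
    unfold cpl
    rw [t1, t3, tS, c1, c2, c3, hK, ← hfa, ← hmu]
    ext
    · simp only [n730, n727, n724]
      field_simp
      all_goals ring
    · simp only [n1044, n1041, n1038]
      field_simp
      all_goals ring
    · simp only [n748, n746, n744, n741]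
      field_simp
      all_goals ring
  have hh : h0 * y' = h0 + h0 * b - h0 * (x + u) := by
    rw [hy']
    ring
  have hlev := ev1Bp h hb ha hl hy hy' ee
  have hη : mun 3 x * (c.2.1 - c.1) * (q * ((h0 * u) ^ 2 / (h0 * x))) ≤ u ^ 2 * (esn x * mun 3 x * q * x⁻¹ * (n1375 T u b x)) := by
    rw [c1, c2, hdv]
    apply le_of_eq
    field_simp
    all_goals ring
  have hab : |c.2.1 - c.2.2| = h0⁻¹ * (esn x * (n1377 T u b x)) := by
    rw [c2, c3]
    have : h0⁻¹ * (esn x * (n1035 T u b x)) - -(h0⁻¹ * (esn x * T.k2)) = h0⁻¹ * (esn x * (T.k2 + n1035 T u b x)) := by ring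
    rw [this, abs_mul, abs_mul, abs_of_pos (inv_pos.2 hp), abs_of_pos ep]
    simp only [n1377]
  have hν : mun 3 x * (|c.2.1 - c.2.2| * ((1 / th - 1) * |h0 * b|) +
      (c.2.1 - c.1) * (h0 * (T.k52 * x))) ≤ esn x * (mun 3 x * (n1375 T u b x) * T.k52 * x + mun 3 x * (n1377 T u b x) * T.k1 * |b|) := by
    rw [hab, c1, c2, abs_mul, abs_of_pos hp, hdv, hk1]
    apply le_of_eq
    field_simp
    all_goals ring
  have jd : n1375 T u b x = (n1185 T u b x) + b * (n1374 T u b x) := by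
    rw [hdv]
    have j1 := J87 T (u := u) (b := b) (x := x)
    have j3 := J127 T (u := u) (b := b) (x := x) h
    simp only [n1374, n1185, n1032, n1026, n1021, n1019, n1014, n703, n699, n690, n685, n683, n677, n675, n669, n102, n52, n51, n12, n3] at j1 j3 ⊢
    linear_combination j3 - j1
  have hEE : (z1209 T q u b x) + b * (z1388 T q u b x) = ((n654 T u b x) + b * (n990 T u b x)) - u ^ 2 * (esn x * mun 3 x * q * x⁻¹ * (n1375 T u b x)) -
      esn x * (mun 3 x * (n1375 T u b x) * T.k52 * x + mun 3 x * (n1377 T u b x) * T.k1 * |b|) := by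
    rw [← he', ← hmu, jd, abs_of_nonneg hb]
    simp only [z1388, z1385, n1383, n1382, n1380, z1209, z1204, z1203, z1202, n1192, n298]
    ring
  have hrv : -(n1392 T u b x) = -(n748 T u b x) + (mun 3 x * (n1375 T u b x) * T.k52 * x + mun 3 x * (n1377 T u b x) * T.k1 * |b|) := by
    rw [← hmu, jd, abs_of_nonneg hb]
    simp only [n1392, n1390, n1383, n1382, n1380, n1192]
    ring
  have k := chzBp T q h hb hke hA1.le hA2.le hr.le hP hQ (by simpa using tN) (by simpa using tM)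
    (by rw [y_eq, ← hy]; exact t1) (by rw [y_eq, ← hh]; exact t3)
  rw [y_eq, hEE, hrv, ← hh, ← hy] at k
  refine hN κ (esn x) (1 + mun 3 x * cR x) (mun 3 x) _ _ _ (h0 * b) (h0 * y) (h0 * y') r c hkp
    ?_ ep mp ?_ ?_ ?_ ?_ ?_ ?_ ?_ ?_ hη hν ?_ z
  · rw [he'] at hke
    have : κ * (h0 * x * (h0 - h0 * x)) = h0 * (κ * h0 * (x * (1 - x))) := by ring
    rw [this, hke]
    ring
  · rw [hy]
    ring
  · rw [hy, hy']
    ring
  · have := mul_le_mul_of_nonneg_left hu hp.le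
    linarith
  · have := mul_le_mul_of_nonneg_left hu0 hp.le
    linarith
  · rw [abs_mul, abs_of_pos hp]
    have : |b| ≤ 1 / 8 := abs_le.2 ⟨by linarith [h.b0], h.b1⟩
    have := mul_le_mul_of_nonneg_left this hp.le
    linarith
  · rw [hy]
    exact mul_nonneg hp.le h.y0.le
  · rw [hy']
    have := h.p1
    have := h.y1
    have := h.b0
    apply mul_nonneg hp.le
    linarith [h.p1, h.p0, h.y1, h.b0, h.b1]
  · rw [c1, c2]
    have h1 : (n716 T u b x) < (n1035 T u b x) := by linarith [hdv]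
    have h2 : esn x * (n716 T u b x) ≤ esn x * (n1035 T u b x) := mul_le_mul_of_nonneg_left h1.le ep.le
    exact mul_le_mul_of_nonneg_left h2 (inv_pos.2 hp).le
  · rw [hcpl, hlev]
    exact k

theorem finzBm {T : MolP} {q th A u b x κ τ1 τ3 y y' X12 X13 : ℝ} {r c l : ℝ × ℝ × ℝ}
    (h : DomB u b x) (hb : b < 0) (hκ : κ * h0 = ken x) (hy : y = x + u) (hy' : y' = 1 + b - (x + u))
    (hi : T.it * τ3 = 1) (ha : AbsB T u b x X12 X13) (hk : KerB T u b x τ1 τ3 (X12 - X13) r)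
    (hc : ThrB T u b x (X12 - X13) c) (hl : LevB T u b x (X12 - X13) l) (t1 : tau (h0 * y) = h0 * τ1)
    (t3 : tau (h0 * y') = h0 * τ3) (hk1 : T.k1 = 1 / th - 1) (hN : NdBz A th (h0 * x) (h0 * (T.k52 * x)) q (h0 * u))
    (hu : u ≤ 1 - x) (hu0 : -A ≤ u) (hA1 : 0 < z1281 T q u b x) (hA2 : 0 < z1283 T q u b x) (hD : 0 < n1375 T u b x) (hr : 0 < n1215 T u b x)
    (hP : 0 < n1474 T u b x) (hQ : 0 < n1491 T u b x)
    (tN : 0 < -(n1534 T u b x) ∨ 0 < -(z1513 T q u b x) ∨ 0 < z1538 T q u b x)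
    (tM : 0 < n1534 T u b x ∨ 0 < -(z1529 T q u b x) ∨ 0 < z1540 T q u b x) (z : ℝ) :
    0 ≤ lvN 3 0 x y y' (exn' X12 X13 y (y + y')) l +
      (1 + mun 3 x * cR x) * kf κ (h0 * x) r (h0 * y) (h0 * y') z +
      mun 3 x * pf (tnt (h0 * x) th) c (h0 * y) (h0 * y') z := by
  have hp := h0_pos
  have hn : h0 ≠ 0 := hp.ne'
  have xp := h.x0
  have xn : x ≠ 0 := xp.ne'
  have ep := esn_pos' h.x0 h.x1
  have en : esn x ≠ 0 := ep.ne'
  have mp := mun_pos' (x := x)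
  obtain ⟨c1, c2, c3⟩ := thrB h ha hc
  have ee : exn' X12 X13 y (y + y') = n160 T u b x + b * (1 / 2 * (n12 T u b x + (T.p1) * (n16 T u b x) + (T.ws) * (n3 T u b x))) := by
    rw [hy, hy']
    exact exqB (by ring) ha.h12 ha.h13
  have hke := hk_e T (u := u) (b := b) h.x0 h.x1 hκ
  have he' : n15 T u b x = esn x := by
    rw [e_eq]
    rfl
  have hfa := fac_eqA T (u := u) (b := b) (x := x)
  have hmu := mu_eqA T (u := u) (b := b) (x := x)
  have hkp : 0 ≤ κ := by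
    rw [he'] at hke
    by_contra hneg
    push Not at hneg
    have h1 : 0 < h0 * (x * (1 - x)) := mul_pos hp (mul_pos xp (by linarith [h.x1]))
    have h2 : κ * (h0 * (x * (1 - x))) < 0 := mul_neg_of_neg_of_pos hneg h1
    have h3 : κ * (h0 * (x * (1 - x))) = 2 * esn x := by rw [← hke]; ring
    linarith
  have hK := ker0B h hi ha hk
  have hdv : n1375 T u b x = (n1035 T u b x) - (n716 T u b x) := by
    simp only [n1375]
  have tS : tau (h0 * y + h0 * y') = h0 * b := by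
    unfold tau jn
    have hb0 := h.b0
    have hb1 := h.b1
    have eS : h0 * y + h0 * y' = h0 + h0 * b := by
      rw [hy, hy']
      ring
    have q1 := mul_le_mul_of_nonneg_left hb0 hp.le
    have q2 := mul_le_mul_of_nonneg_left hb1 hp.le
    rw [eS, if_neg (by linarith), if_pos (by linarith)]
    push_cast
    ring
  have hcpl : cpl (1 + mun 3 x * cR x) (mun 3 x / esn x) r c (h0 * y) (h0 * y') = ((n730 T u b x) * τ1, (n1044 T u b x) * τ3, -(n748 T u b x)) := by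
    unfold cpl
    rw [t1, t3, tS, c1, c2, c3, hK, ← hfa, ← hmu]
    ext
    · simp only [n730, n727, n724]
      field_simp
      all_goals ring
    · simp only [n1044, n1041, n1038]
      field_simp
      all_goals ring
    · simp only [n748, n746, n744, n741]
      field_simp
      all_goals ring
  have hh : h0 * y' = h0 + h0 * b - h0 * (x + u) := by
    rw [hy']
    ring
  have hlev := ev1Bm h hb ha hl hy hy' ee
  have hη : mun 3 x * (c.2.1 - c.1) * (q * ((h0 * u) ^ 2 / (h0 * x))) ≤ u ^ 2 * (esn x * mun 3 x * q * x⁻¹ * (n1375 T u b x)) := by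
    rw [c1, c2, hdv]
    apply le_of_eq
    field_simp
    all_goals ring
  have hab : |c.2.1 - c.2.2| = h0⁻¹ * (esn x * (n1377 T u b x)) := by
    rw [c2, c3]
    have : h0⁻¹ * (esn x * (n1035 T u b x)) - -(h0⁻¹ * (esn x * T.k2)) = h0⁻¹ * (esn x * (T.k2 + n1035 T u b x)) := by ring
    rw [this, abs_mul, abs_mul, abs_of_pos (inv_pos.2 hp), abs_of_pos ep]
    simp only [n1377]
  have hν : mun 3 x * (|c.2.1 - c.2.2| * ((1 / th - 1) * |h0 * b|) +
      (c.2.1 - c.1) * (h0 * (T.k52 * x))) ≤ esn x * (mun 3 x * (n1375 T u b x) * T.k52 * x + mun 3 x * (n1377 T u b x) * T.k1 * |b|) := by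
    rw [hab, c1, c2, abs_mul, abs_of_pos hp, hdv, hk1]
    apply le_of_eq
    field_simp
    all_goals ring
  have jd : n1375 T u b x = (n1185 T u b x) + b * (n1374 T u b x) := by
    rw [hdv]
    have j1 := J87 T (u := u) (b := b) (x := x)
    have j3 := J127 T (u := u) (b := b) (x := x) h
    simp only [n1374, n1185, n1032, n1026, n1021, n1019, n1014, n703, n699, n690, n685, n683, n677, n675, n669, n102, n52, n51, n12, n3] at j1 j3 ⊢
    linear_combination j3 - j1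
  have hEE : (z1209 T q u b x) + b * (z1468 T q u b x) = ((n654 T u b x) + b * (n1122 T u b x)) - u ^ 2 * (esn x * mun 3 x * q * x⁻¹ * (n1375 T u b x)) -
      esn x * (mun 3 x * (n1375 T u b x) * T.k52 * x + mun 3 x * (n1377 T u b x) * T.k1 * |b|) := by
    rw [← he', ← hmu, jd, abs_of_neg hb]
    simp only [z1468, n1465, z1385, n1382, n1380, z1209, z1204, z1203, z1202, n1192, n298]
    ring
  have hrv : -(n1472 T u b x) = -(n748 T u b x) + (mun 3 x * (n1375 T u b x) * T.k52 * x + mun 3 x * (n1377 T u b x) * T.k1 * |b|) := by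
    rw [← hmu, jd, abs_of_neg hb]
    simp only [n1472, n1470, n1465, n1382, n1380, n1192]
    ring
  have k := chzBm T q h hb hke hA1.le hA2.le hr.le hP hQ (by simpa using tN) (by simpa using tM)
    (by rw [y_eq, ← hy]; exact t1) (by rw [y_eq, ← hh]; exact t3)
  rw [y_eq, hEE, hrv, ← hh, ← hy] at k
  refine hN κ (esn x) (1 + mun 3 x * cR x) (mun 3 x) _ _ _ (h0 * b) (h0 * y) (h0 * y') r c hkp
    ?_ ep mp ?_ ?_ ?_ ?_ ?_ ?_ ?_ ?_ hη hν ?_ z
  · rw [he'] at hke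
    have : κ * (h0 * x * (h0 - h0 * x)) = h0 * (κ * h0 * (x * (1 - x))) := by ring
    rw [this, hke]
    ring
  · rw [hy]
    ring
  · rw [hy, hy']
    ring
  · have := mul_le_mul_of_nonneg_left hu hp.le
    linarith
  · have := mul_le_mul_of_nonneg_left hu0 hp.le
    linarith
  · rw [abs_mul, abs_of_pos hp]
    have : |b| ≤ 1 / 8 := abs_le.2 ⟨by linarith [h.b0], h.b1⟩
    have := mul_le_mul_of_nonneg_left this hp.le
    linarith
  · rw [hy]
    exact mul_nonneg hp.le h.y0.le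
  · rw [hy']
    have := h.p1
    have := h.y1
    have := h.b0
    apply mul_nonneg hp.le
    linarith [h.p1, h.p0, h.y1, h.b0, h.b1]
  · rw [c1, c2]
    have h1 : (n716 T u b x) < (n1035 T u b x) := by linarith [hdv]
    have h2 : esn x * (n716 T u b x) ≤ esn x * (n1035 T u b x) := mul_le_mul_of_nonneg_left h1.le ep.le
    exact mul_le_mul_of_nonneg_left h2 (inv_pos.2 hp).le
  · rw [hcpl, hlev]
    exact k

theorem bothzAp {n : ℕ} {P : Pos n} {RK RL RC : Fin (n + 1) → ℕ → ℝ → ℝ → ℝ} {pc : ℕ → Piece}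
    {pd : ℕ → Fn3} {T : MolT} {a c : ℕ} {k : Fin (n + 1)} {u b x κ τ1 τ3 th K l A : ℝ} {sk cx sk2 cx2 : List Fn3} {Q : Fn3}
    (D : DomA u b x) (hb : 0 ≤ b) (hκ : κ * h0 = ken x)
    (hd : T.kc.v (psn (x + u + b)) x = T.kc.v (psn (x + u)) x + b * (fd1A T.dq true).v u b x)
    (hit : ((T.a true).at_ u b x).it * τ3 = 1)
    (t1 : tau (h0 * (x + u)) = h0 * τ1) (t3 : tau (h0 * (x + u) + h0 * (1 + b)) = h0 * τ3)
    (hx : T.st.xs.v u b x = 1 / 2 + b * T.st.ws.v u b x)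
    (hX : crv P k 2 (1 + b) = T.st.xs.v u b x)
    (G : DC2 th K l A x) (hu : u ≤ 1 - x) (hu0 : -A ≤ u)
    (hk1 : (T.k1p : ℝ) / T.k1q = 1 / th - 1) (hk2 : (T.k2p : ℝ) / T.k2q = K)
    (F0 : (k0Ap (T.a true) sk cx).P u b x) (hs : ∀ G ∈ sk, G.v u b x ≤ 0)
    (Gn : Gain2 th K x u (-(Q.v u b x * (u ^ 2 / x))))
    (F2 : (kzAp (T.a true) Q sk2 cx2).P u b x) (hs2 : ∀ G ∈ sk2, G.v u b x ≤ 0)
    (K1 : RK 0 a (x + u) x = (c1n (x + u) * cG (x + u) + T.kc.v (psn (x + u)) x) * τ1)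
    (K2 : RK k 2 (1 + b) x = 1 / 2 + b * T.st.rs.v u b x)
    (K3 : (∀ G ∈ cx, 0 < G.v u b x) → (pc c).K.v (c1n (x + u) - T.st.xs.v u b x) (x + u + (1 + b)) x = ((c1n (x + u + b) - 1 / 2) * cG (x + u + b) + T.kc.v (psn (x + u + b)) x) * τ3 + T.sK.v (c1n (x + u) - T.st.xs.v u b x) (1 + (x + u + b)) x * (c1n (x + u) - T.st.xs.v u b x - (c1n (x + u + b) - 1 / 2)))
    (L1 : RL 0 a (x + u) x = cQ x (x + u) (T.kc.v (psn (x + u)) x))
    (L2 : RL k 2 (1 + b) x = b * T.st.xk.v u b x)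
    (L3 : (∀ G ∈ cx, 0 < G.v u b x) → (pc c).L.v (c1n (x + u) - T.st.xs.v u b x) (x + u + (1 + b)) x = cQ x (x + u + b) (T.kc.v (psn (x + u + b)) x) + T.sX.v (c1n (x + u) - T.st.xs.v u b x) (1 + (x + u + b)) x * (c1n (x + u) - T.st.xs.v u b x - (c1n (x + u + b) - 1 / 2)))
    (C1 : RC 0 a (x + u) x = esn x * (cP (x + u) - (cR (x + u) + 2 * c1n (x + u)) * T.kc.v (psn (x + u)) x))
    (C2 : RC k 2 (1 + b) x = esn x * T.st.k2.v u b x)
    (C3 : (∀ G ∈ cx2, 0 < G.v u b x) → (pd c).v (c1n (x + u) - T.st.xs.v u b x) (x + u + (1 + b)) x = esn x * (cP (x + u + b) - 1 / 2 * cD (x + u + b) - (cR (x + u + b) + 2 * c1n (x + u + b) - 1) * T.kc.v (psn (x + u + b)) x + ((T.a true).at_ u b x).it * T.sD.v (c1n (x + u) - T.st.xs.v u b x) (1 + (x + u + b)) x * (c1n (x + u) - T.st.xs.v u b x - (c1n (x + u + b) - 1 / 2)))) :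
    DirE th κ x (x + u) (1 + b) (exA P a 2 0 k 1 (-1) (x + u) (1 + b)) (vlA P RK (fun q => (pc q).K.v) a 2 c 0 k 1 (-1) x (x + u) (1 + b))
      (vlA P RL (fun q => (pc q).L.v) a 2 c 0 k 1 (-1) x (x + u) (1 + b)) (dimC (vlA P RC (fun q => (pd q).v) a 2 c 0 k 1 (-1) x (x + u) (1 + b))) := by
  have far := farAp (P := P) D hb hκ hd hit t1 t3 hx hX F0 hs K1 K2 K3 L1 L2 L3
  obtain ⟨hc, -⟩ := r0Ap F0 hs
  obtain ⟨hc2, hP, hQ, hA1, hA2, hDD, hr, tN, tM⟩ := rzAp F2 hs2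
  have hp := h0_pos
  have y0 := D.y0
  have y1 := D.y1
  have p0 := D.p0
  have p1 := D.p1
  have b0 := D.b0
  have b1 := D.b1
  refine ⟨fun z => ?_, fun z => ?_⟩
  · refine NGV.dir far (kap_nn hκ D.x0 D.x1) (mul_nonneg hp.le D.x0.le) (by nlinarith [D.x1]) ?_ ?_ ?_ z
    · exact mul_nonneg hp.le y0.le
    · exact mul_nonneg hp.le (by linarith)
    · rw [← mul_add]
      nlinarith

  · have hN := ndAz G Gn
    rw [← k52_eq hk2 D.x0 u b] at hN
    unfold exA vlA dimC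
    simp only [crv_zero, one_mul, neg_one_mul, ← sub_eq_add_neg]
    rw [hX]
    refine finzAp D hb hκ rfl rfl hit (absTA hx) ?_ ?_ ?_ t1 t3 hk1 hN hu hu0
      hA1 hA2 hDD hr hP hQ tN tM z
    · exact kerTA hd K1 (congrArg (fun t => -t) K2) (K3 hc)
    · refine ⟨?_, ?_, ?_⟩
      · show h0⁻¹ * RC 0 a (x + u) x = h0⁻¹ * (esn x * (cP (x + u) - (cR (x + u) + 2 * c1n (x + u)) * T.kc.v (psn (x + u)) x + b * (0 : ℝ)))
        rw [C1]
        ring
      · show h0⁻¹ * -RC k 2 (1 + b) x = -(h0⁻¹ * (esn x * T.st.k2.v u b x))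
        rw [C2]
        ring
      · show h0⁻¹ * _ = h0⁻¹ * _
        rw [C3 hc2, hd]
        rfl
    · exact levTA hd L1 (congrArg (fun t => -t) L2) (L3 hc)

theorem bothzAm {n : ℕ} {P : Pos n} {RK RL RC : Fin (n + 1) → ℕ → ℝ → ℝ → ℝ} {pc : ℕ → Piece}
    {pd : ℕ → Fn3} {T : MolT} {a c : ℕ} {k : Fin (n + 1)} {u b x κ τ1 τ3 th K l A : ℝ} {sk cx sk2 cx2 : List Fn3} {Q : Fn3}
    (D : DomA u b x) (hb : b < 0) (hκ : κ * h0 = ken x)
    (hd : T.kc.v (psn (x + u + b)) x = T.kc.v (psn (x + u)) x + b * (fd1A T.dq false).v u b x)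
    (hit : ((T.a false).at_ u b x).it * τ3 = 1)
    (t1 : tau (h0 * (x + u)) = h0 * τ1) (t3 : tau (h0 * (x + u) + h0 * (1 + b)) = h0 * τ3)
    (hx : T.st.xs.v u b x = 1 / 2 + b * T.st.ws.v u b x)
    (hX : crv P k 1 (1 + b) = T.st.xs.v u b x)
    (G : DC2 th K l A x) (hu : u ≤ 1 - x) (hu0 : -A ≤ u)
    (hk1 : (T.k1p : ℝ) / T.k1q = 1 / th - 1) (hk2 : (T.k2p : ℝ) / T.k2q = K)
    (F0 : (k0Am (T.a false) sk cx).P u b x) (hs : ∀ G ∈ sk, G.v u b x ≤ 0)
    (Gn : Gain2 th K x u (-(Q.v u b x * (u ^ 2 / x))))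
    (F2 : (kzAm (T.a false) Q sk2 cx2).P u b x) (hs2 : ∀ G ∈ sk2, G.v u b x ≤ 0)
    (K1 : RK 0 a (x + u) x = (c1n (x + u) * cG (x + u) + T.kc.v (psn (x + u)) x) * τ1)
    (K2 : RK k 1 (1 + b) x = 1 / 2 + b * T.st.rs.v u b x)
    (K3 : (∀ G ∈ cx, 0 < G.v u b x) → (pc c).K.v (c1n (x + u) - T.st.xs.v u b x) (x + u + (1 + b)) x = ((c1n (x + u + b) - 1 / 2) * cG (x + u + b) + T.kc.v (psn (x + u + b)) x) * τ3 + T.sK.v (c1n (x + u) - T.st.xs.v u b x) (1 + (x + u + b)) x * (c1n (x + u) - T.st.xs.v u b x - (c1n (x + u + b) - 1 / 2)))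
    (L1 : RL 0 a (x + u) x = cQ x (x + u) (T.kc.v (psn (x + u)) x))
    (L2 : RL k 1 (1 + b) x = b * T.st.xk.v u b x)
    (L3 : (∀ G ∈ cx, 0 < G.v u b x) → (pc c).L.v (c1n (x + u) - T.st.xs.v u b x) (x + u + (1 + b)) x = cQ x (x + u + b) (T.kc.v (psn (x + u + b)) x) + T.sX.v (c1n (x + u) - T.st.xs.v u b x) (1 + (x + u + b)) x * (c1n (x + u) - T.st.xs.v u b x - (c1n (x + u + b) - 1 / 2)))
    (C1 : RC 0 a (x + u) x = esn x * (cP (x + u) - (cR (x + u) + 2 * c1n (x + u)) * T.kc.v (psn (x + u)) x))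
    (C2 : RC k 1 (1 + b) x = esn x * T.st.k2.v u b x)
    (C3 : (∀ G ∈ cx2, 0 < G.v u b x) → (pd c).v (c1n (x + u) - T.st.xs.v u b x) (x + u + (1 + b)) x = esn x * (cP (x + u + b) - 1 / 2 * cD (x + u + b) - (cR (x + u + b) + 2 * c1n (x + u + b) - 1) * T.kc.v (psn (x + u + b)) x + ((T.a false).at_ u b x).it * T.sD.v (c1n (x + u) - T.st.xs.v u b x) (1 + (x + u + b)) x * (c1n (x + u) - T.st.xs.v u b x - (c1n (x + u + b) - 1 / 2)))) :
    DirE th κ x (x + u) (1 + b) (exA P a 1 0 k 1 (-1) (x + u) (1 + b)) (vlA P RK (fun q => (pc q).K.v) a 1 c 0 k 1 (-1) x (x + u) (1 + b))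
      (vlA P RL (fun q => (pc q).L.v) a 1 c 0 k 1 (-1) x (x + u) (1 + b)) (dimC (vlA P RC (fun q => (pd q).v) a 1 c 0 k 1 (-1) x (x + u) (1 + b))) := by
  have far := farAm (P := P) D hb hκ hd hit t1 t3 hx hX F0 hs K1 K2 K3 L1 L2 L3
  obtain ⟨hc, -⟩ := r0Am F0 hs
  obtain ⟨hc2, hP, hQ, hA1, hA2, hDD, hr, tN, tM⟩ := rzAm F2 hs2
  have hp := h0_pos
  have y0 := D.y0
  have y1 := D.y1
  have p0 := D.p0
  have p1 := D.p1
  have b0 := D.b0
  have b1 := D.b1
  refine ⟨fun z => ?_, fun z => ?_⟩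
  · refine NGV.dir far (kap_nn hκ D.x0 D.x1) (mul_nonneg hp.le D.x0.le) (by nlinarith [D.x1]) ?_ ?_ ?_ z
    · exact mul_nonneg hp.le y0.le
    · exact mul_nonneg hp.le (by linarith)
    · rw [← mul_add]
      nlinarith

  · have hN := ndAz G Gn
    rw [← k52_eq hk2 D.x0 u b] at hN
    unfold exA vlA dimC
    simp only [crv_zero, one_mul, neg_one_mul, ← sub_eq_add_neg]
    rw [hX]
    refine finzAm D hb hκ rfl rfl hit (absTA hx) ?_ ?_ ?_ t1 t3 hk1 hN hu hu0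
      hA1 hA2 hDD hr hP hQ tN tM z
    · exact kerTA hd K1 (congrArg (fun t => -t) K2) (K3 hc)
    · refine ⟨?_, ?_, ?_⟩
      · show h0⁻¹ * RC 0 a (x + u) x = h0⁻¹ * (esn x * (cP (x + u) - (cR (x + u) + 2 * c1n (x + u)) * T.kc.v (psn (x + u)) x + b * (0 : ℝ)))
        rw [C1]
        ring
      · show h0⁻¹ * -RC k 1 (1 + b) x = -(h0⁻¹ * (esn x * T.st.k2.v u b x))
        rw [C2]
        ring
      · show h0⁻¹ * _ = h0⁻¹ * _
        rw [C3 hc2, hd]
        rfl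
    · exact levTA hd L1 (congrArg (fun t => -t) L2) (L3 hc)

theorem bothzBp {n : ℕ} {P : Pos n} {RK RL RC : Fin (n + 1) → ℕ → ℝ → ℝ → ℝ} {pc : ℕ → Piece}
    {pd : ℕ → Fn3} {T : MolT} {a c : ℕ} {k : Fin (n + 1)} {u b x κ τ1 τ3 th K l A : ℝ} {y' : ℝ} {sk cx sk2 cx2 : List Fn3} {Q : Fn3}
    (D : DomB u b x) (hb : 0 ≤ b) (hκ : κ * h0 = ken x)
    (hy' : y' = 1 + b - (x + u))
    (hd : T.kc.v (psn (x + u - b)) x = T.kc.v (psn (x + u)) x + b * (fd1B T.dq true).v u b x)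
    (hit : ((T.b true).at_ u b x).it * τ3 = 1)
    (t1 : tau (h0 * (x + u)) = h0 * τ1) (t3 : tau (h0 * y') = h0 * τ3)
    (hx : T.st.xs.v u b x = 1 / 2 + b * T.st.ws.v u b x)
    (hX : crv P k 2 (1 + b) = T.st.xs.v u b x)
    (G : DC2 th K l A x) (hu : u ≤ 1 - x) (hu0 : -A ≤ u)
    (hk1 : (T.k1p : ℝ) / T.k1q = 1 / th - 1) (hk2 : (T.k2p : ℝ) / T.k2q = K)
    (F0 : (k0Bp (T.b true) sk cx).P u b x) (hs : ∀ G ∈ sk, G.v u b x ≤ 0)
    (Gn : Gain2 th K x u (-(Q.v u b x * (u ^ 2 / x))))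
    (F2 : (kzBp (T.b true) Q sk2 cx2).P u b x) (hs2 : ∀ G ∈ sk2, G.v u b x ≤ 0)
    (K1 : RK 0 a (x + u) x = (c1n (x + u) * cG (x + u) + T.kc.v (psn (x + u)) x) * τ1)
    (K2 : RK k 2 (1 + b) x = 1 / 2 + b * T.st.rs.v u b x)
    (K3 : (∀ G ∈ cx, 0 < G.v u b x) → (pc c).K.v (-T.st.xs.v u b x - c1n (x + u)) y' x = ((c1n (x + u - b) + 1 / 2) * cG (x + u - b) + T.kc.v (psn (x + u - b)) x) * τ3 - T.sK.v (c1n (x + u) + T.st.xs.v u b x) (1 - (x + u - b)) x * (c1n (x + u) + T.st.xs.v u b x - (c1n (x + u - b) + 1 / 2)))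
    (L1 : RL 0 a (x + u) x = cQ x (x + u) (T.kc.v (psn (x + u)) x))
    (L2 : RL k 2 (1 + b) x = b * T.st.xk.v u b x)
    (L3 : (∀ G ∈ cx, 0 < G.v u b x) → (pc c).L.v (-T.st.xs.v u b x - c1n (x + u)) y' x = -(cQ x (x + u - b) (T.kc.v (psn (x + u - b)) x) + T.sX.v (c1n (x + u) + T.st.xs.v u b x) (1 - (x + u - b)) x * (c1n (x + u) + T.st.xs.v u b x - (c1n (x + u - b) + 1 / 2))))
    (C1 : RC 0 a (x + u) x = esn x * (cP (x + u) - (cR (x + u) + 2 * c1n (x + u)) * T.kc.v (psn (x + u)) x))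
    (C2 : RC k 2 (1 + b) x = esn x * T.st.k2.v u b x)
    (C3 : (∀ G ∈ cx2, 0 < G.v u b x) → (pd c).v (-T.st.xs.v u b x - c1n (x + u)) y' x = esn x * (cP (x + u - b) + 1 / 2 * cD (x + u - b) - (cR (x + u - b) + 2 * c1n (x + u - b) + 1) * T.kc.v (psn (x + u - b)) x - ((T.b true).at_ u b x).it * T.sD.v (c1n (x + u) + T.st.xs.v u b x) (1 - (x + u - b)) x * (c1n (x + u) + T.st.xs.v u b x - (c1n (x + u - b) + 1 / 2)))) :
    DirE th κ x (x + u) y' (exB P a 2 0 k 1 (-1) (x + u) y') (vlB P RK (fun q => (pc q).K.v) a c 2 0 k 1 (-1) x (x + u) y')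
      (vlB P RL (fun q => (pc q).L.v) a c 2 0 k 1 (-1) x (x + u) y') (dimC (vlB P RC (fun q => (pd q).v) a c 2 0 k 1 (-1) x (x + u) y')) := by
  have far := farBp (P := P) D hb hκ hy' hd hit t1 t3 hx hX F0 hs K1 K2 K3 L1 L2 L3
  obtain ⟨hc, -⟩ := r0Bp F0 hs
  obtain ⟨hc2, hP, hQ, hA1, hA2, hDD, hr, tN, tM⟩ := rzBp F2 hs2
  have hp := h0_pos
  have y0 := D.y0
  have y1 := D.y1
  have p0 := D.p0
  have p1 := D.p1
  have b0 := D.b0
  have b1 := D.b1
  refine ⟨fun z => ?_, fun z => ?_⟩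
  · refine NGV.dir far (kap_nn hκ D.x0 D.x1) (mul_nonneg hp.le D.x0.le) (by nlinarith [D.x1]) ?_ ?_ ?_ z
    · exact mul_nonneg hp.le y0.le
    · exact mul_nonneg hp.le (by rw [hy']; linarith)
    · rw [← mul_add]
      nlinarith

  · have hN := ndBz G Gn
    rw [← k52_eq hk2 D.x0 u b] at hN
    have e : x + u + y' = 1 + b := by rw [hy']; ring
    unfold exB vlB dimC
    simp only [crv_zero, one_mul, neg_one_mul, ← sub_eq_add_neg]
    refine finzBp D hb hκ rfl hy' hit ?_ ?_ ?_ ?_ t1 t3 hk1 hN hu hu0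
      hA1 hA2 hDD hr hP hQ tN tM z
    · rw [e, hX]
      exact absTB hx
    · rw [e, hX, sub_neg_eq_add]
      exact kerTB hd K1 (congrArg (fun t => -t) K2) (K3 hc)
    · rw [e, hX, sub_neg_eq_add]
      refine ⟨?_, ?_, ?_⟩
      · show h0⁻¹ * RC 0 a (x + u) x = h0⁻¹ * (esn x * (cP (x + u) - (cR (x + u) + 2 * c1n (x + u)) * T.kc.v (psn (x + u)) x + b * (0 : ℝ)))
        rw [C1]
        ring
      · show h0⁻¹ * _ = h0⁻¹ * _
        rw [C3 hc2, hd]
        rfl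
      · show h0⁻¹ * -RC k 2 (1 + b) x = -(h0⁻¹ * (esn x * T.st.k2.v u b x))
        rw [C2]
        ring
    · rw [e, hX, sub_neg_eq_add]
      exact levTB hd L1 (congrArg (fun t => -t) L2) (L3 hc)

theorem bothzBm {n : ℕ} {P : Pos n} {RK RL RC : Fin (n + 1) → ℕ → ℝ → ℝ → ℝ} {pc : ℕ → Piece}
    {pd : ℕ → Fn3} {T : MolT} {a c : ℕ} {k : Fin (n + 1)} {u b x κ τ1 τ3 th K l A : ℝ} {y' : ℝ} {sk cx sk2 cx2 : List Fn3} {Q : Fn3}
    (D : DomB u b x) (hb : b < 0) (hκ : κ * h0 = ken x)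
    (hy' : y' = 1 + b - (x + u))
    (hd : T.kc.v (psn (x + u - b)) x = T.kc.v (psn (x + u)) x + b * (fd1B T.dq false).v u b x)
    (hit : ((T.b false).at_ u b x).it * τ3 = 1)
    (t1 : tau (h0 * (x + u)) = h0 * τ1) (t3 : tau (h0 * y') = h0 * τ3)
    (hx : T.st.xs.v u b x = 1 / 2 + b * T.st.ws.v u b x)
    (hX : crv P k 1 (1 + b) = T.st.xs.v u b x)
    (G : DC2 th K l A x) (hu : u ≤ 1 - x) (hu0 : -A ≤ u)
    (hk1 : (T.k1p : ℝ) / T.k1q = 1 / th - 1) (hk2 : (T.k2p : ℝ) / T.k2q = K)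
    (F0 : (k0Bm (T.b false) sk cx).P u b x) (hs : ∀ G ∈ sk, G.v u b x ≤ 0)
    (Gn : Gain2 th K x u (-(Q.v u b x * (u ^ 2 / x))))
    (F2 : (kzBm (T.b false) Q sk2 cx2).P u b x) (hs2 : ∀ G ∈ sk2, G.v u b x ≤ 0)
    (K1 : RK 0 a (x + u) x = (c1n (x + u) * cG (x + u) + T.kc.v (psn (x + u)) x) * τ1)
    (K2 : RK k 1 (1 + b) x = 1 / 2 + b * T.st.rs.v u b x)
    (K3 : (∀ G ∈ cx, 0 < G.v u b x) → (pc c).K.v (-T.st.xs.v u b x - c1n (x + u)) y' x = ((c1n (x + u - b) + 1 / 2) * cG (x + u - b) + T.kc.v (psn (x + u - b)) x) * τ3 - T.sK.v (c1n (x + u) + T.st.xs.v u b x) (1 - (x + u - b)) x * (c1n (x + u) + T.st.xs.v u b x - (c1n (x + u - b) + 1 / 2)))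
    (L1 : RL 0 a (x + u) x = cQ x (x + u) (T.kc.v (psn (x + u)) x))
    (L2 : RL k 1 (1 + b) x = b * T.st.xk.v u b x)
    (L3 : (∀ G ∈ cx, 0 < G.v u b x) → (pc c).L.v (-T.st.xs.v u b x - c1n (x + u)) y' x = -(cQ x (x + u - b) (T.kc.v (psn (x + u - b)) x) + T.sX.v (c1n (x + u) + T.st.xs.v u b x) (1 - (x + u - b)) x * (c1n (x + u) + T.st.xs.v u b x - (c1n (x + u - b) + 1 / 2))))
    (C1 : RC 0 a (x + u) x = esn x * (cP (x + u) - (cR (x + u) + 2 * c1n (x + u)) * T.kc.v (psn (x + u)) x))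
    (C2 : RC k 1 (1 + b) x = esn x * T.st.k2.v u b x)
    (C3 : (∀ G ∈ cx2, 0 < G.v u b x) → (pd c).v (-T.st.xs.v u b x - c1n (x + u)) y' x = esn x * (cP (x + u - b) + 1 / 2 * cD (x + u - b) - (cR (x + u - b) + 2 * c1n (x + u - b) + 1) * T.kc.v (psn (x + u - b)) x - ((T.b false).at_ u b x).it * T.sD.v (c1n (x + u) + T.st.xs.v u b x) (1 - (x + u - b)) x * (c1n (x + u) + T.st.xs.v u b x - (c1n (x + u - b) + 1 / 2)))) :
    DirE th κ x (x + u) y' (exB P a 1 0 k 1 (-1) (x + u) y') (vlB P RK (fun q => (pc q).K.v) a c 1 0 k 1 (-1) x (x + u) y')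
      (vlB P RL (fun q => (pc q).L.v) a c 1 0 k 1 (-1) x (x + u) y') (dimC (vlB P RC (fun q => (pd q).v) a c 1 0 k 1 (-1) x (x + u) y')) := by
  have far := farBm (P := P) D hb hκ hy' hd hit t1 t3 hx hX F0 hs K1 K2 K3 L1 L2 L3
  obtain ⟨hc, -⟩ := r0Bm F0 hs
  obtain ⟨hc2, hP, hQ, hA1, hA2, hDD, hr, tN, tM⟩ := rzBm F2 hs2
  have hp := h0_pos
  have y0 := D.y0
  have y1 := D.y1
  have p0 := D.p0
  have p1 := D.p1
  have b0 := D.b0
  have b1 := D.b1
  refine ⟨fun z => ?_, fun z => ?_⟩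
  · refine NGV.dir far (kap_nn hκ D.x0 D.x1) (mul_nonneg hp.le D.x0.le) (by nlinarith [D.x1]) ?_ ?_ ?_ z
    · exact mul_nonneg hp.le y0.le
    · exact mul_nonneg hp.le (by rw [hy']; linarith)
    · rw [← mul_add]
      nlinarith

  · have hN := ndBz G Gn
    rw [← k52_eq hk2 D.x0 u b] at hN
    have e : x + u + y' = 1 + b := by rw [hy']; ring
    unfold exB vlB dimC
    simp only [crv_zero, one_mul, neg_one_mul, ← sub_eq_add_neg]
    refine finzBm D hb hκ rfl hy' hit ?_ ?_ ?_ ?_ t1 t3 hk1 hN hu hu0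
      hA1 hA2 hDD hr hP hQ tN tM z
    · rw [e, hX]
      exact absTB hx
    · rw [e, hX, sub_neg_eq_add]
      exact kerTB hd K1 (congrArg (fun t => -t) K2) (K3 hc)
    · rw [e, hX, sub_neg_eq_add]
      refine ⟨?_, ?_, ?_⟩
      · show h0⁻¹ * RC 0 a (x + u) x = h0⁻¹ * (esn x * (cP (x + u) - (cR (x + u) + 2 * c1n (x + u)) * T.kc.v (psn (x + u)) x + b * (0 : ℝ)))
        rw [C1]
        ring
      · show h0⁻¹ * _ = h0⁻¹ * _
        rw [C3 hc2, hd]
        rfl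
      · show h0⁻¹ * -RC k 1 (1 + b) x = -(h0⁻¹ * (esn x * T.st.k2.v u b x))
        rw [C2]
        ring
    · rw [e, hX, sub_neg_eq_add]
      exact levTB hd L1 (congrArg (fun t => -t) L2) (L3 hc)

end Pool.Agent.Strip051.PB.Mol.Rz

namespace Pool.Agent.Strip051.PB.Mol

open Pool.Agent.StripNear Pool.Agent.StripSquare Pool.Agent.Strip051.Sweep
open Pool.Agent.Strip051.LC Pool.Agent.Strip051.LC.MolN Pool.Agent.Strip051.PB

/-- the displacement of the short edge -/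
noncomputable def fUp : Fn3 := ⟨fun A _ _ => A, fun a _ _ => a, fun h1 _ _ => h1⟩

/-- the opposite of the displacement of the short edge -/
noncomputable def fUm : Fn3 := ⟨fun A _ _ => pneg A, fun a _ _ => -a, fun h1 _ _ => enc_neg h1⟩

/-- a negative constant -/
noncomputable def fkn (p q : ℕ) : Fn3 := ⟨fun _ _ _ => pneg (prat p q), fun _ _ _ => -((p : ℝ) / q),
  fun _ _ _ => enc_neg (enc_rat _ p q)⟩

theorem sk_app {L : List Fn3} {F : Fn3} {u b x : ℝ} (h : ∀ G ∈ L, G.v u b x ≤ 0)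
    (hF : F.v u b x ≤ 0) : ∀ G ∈ L ++ [F], G.v u b x ≤ 0 := by
  intro G hG
  rcases List.mem_append.1 hG with h1 | h1
  · exact h G h1
  · rw [List.mem_singleton.1 h1]
    exact hF

theorem gz_zero {th K x u b : ℝ} (hu : 0 ≤ u) : Gain2 th K x u (-(fZ.v u b x * (u ^ 2 / x))) := by
  refine Gain2.zero (le_of_eq ?_) hu
  show -((0 : ℝ) * _) = 0
  ring

/-- a gain of constant coefficient -/
theorem gz_const {th K x u b ρ Y : ℝ} {p q : ℕ} (hu : 0 ≤ u) (x0 : 0 < x) (x1 : x < 1) (hY : u ≤ Y - x)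
    (k0 : (p : ℝ) / q * (1 - x) ≤ (1 / th - 1) * x) (r0 : 0 ≤ ρ) (r1 : ρ ≤ 1 / 2) (r3 : ρ ≤ th / 2)
    (r2 : 0 ≤ ρ - ρ ^ 2 - th / 4) (k1 : (p : ℝ) / q * (Y - x) ^ 2 ≤ (ρ - ρ ^ 2 - th / 4) * (1 - x) * x)
    (k2 : Y - x ≤ (1 - ρ) * (1 - x))
    (k3 : (ρ - ρ ^ 2 - th / 4) * x ≤ 4 / 5 * (K * ((1 - ρ) * (1 - x) - (Y - x)))) (hK : 0 ≤ K) :
    Gain2 th K x u (-((fkn p q).v u b x * (u ^ 2 / x))) := by
  have e : (fkn p q).v u b x = -((p : ℝ) / q) := rfl
  have q0 : 0 < 1 - x := by linarith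
  have c0 : 0 ≤ (p : ℝ) / q := by positivity
  rw [e, neg_mul, neg_neg]
  rcases le_total u (th / 2 * (1 - x)) with h | h
  · refine Gain2.sq ?_ hu h
    have : (p : ℝ) / q * (u ^ 2 / x) * (x * (1 - x)) ≤ (1 / th - 1) * (u ^ 2 / (1 - x)) * (x * (1 - x)) := by
      have e1 : (p : ℝ) / q * (u ^ 2 / x) * (x * (1 - x)) = (p : ℝ) / q * (1 - x) * u ^ 2 := by
        field_simp
      have e2 : (1 / th - 1) * (u ^ 2 / (1 - x)) * (x * (1 - x)) = (1 / th - 1) * x * u ^ 2 := by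
        field_simp
      rw [e1, e2]
      exact mul_le_mul_of_nonneg_right k0 (sq_nonneg u)
    exact le_of_mul_le_mul_right this (mul_pos x0 q0)
  · refine Gain2.pos ρ r0 r1 r2 ?_ ?_ ?_ ?_
    · have h1 : u ^ 2 ≤ (Y - x) ^ 2 := pow_le_pow_left₀ hu hY 2
      have h2 : (p : ℝ) / q * (u ^ 2 / x) * x ≤ (ρ - ρ ^ 2 - th / 4) * (1 - x) * x := by
        have e1 : (p : ℝ) / q * (u ^ 2 / x) * x = (p : ℝ) / q * u ^ 2 := by field_simp
        rw [e1]
        exact (mul_le_mul_of_nonneg_left h1 c0).trans k1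
      exact le_of_mul_le_mul_right h2 x0
    · exact (mul_le_mul_of_nonneg_right r3 q0.le).trans h
    · exact hY.trans k2
    · refine k3.trans ?_
      have : K * ((1 - ρ) * (1 - x) - (Y - x)) ≤ K * ((1 - ρ) * (1 - x) - u) :=
        mul_le_mul_of_nonneg_left (by linarith) hK
      linarith

end Pool.Agent.Strip051.PB.Mol
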