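import Pool.Agent.Strip051.PB.MolZx
import Pool.Agent.Strip051.LC.Exact.MolZ2

/-! # The near charts for a displacement which is not positive (generated) -/

set_option linter.unusedVariables false

namespace Pool.Agent.Strip051.PB.Mol

open Pool.Agent.Strip051.PB Pool.Agent.Strip051.LC.MolN

/-- the constant one -/
noncomputable def fone : Fn3 := ⟨_, fun _ _ _ => 1, fun _ _ _ => en1 _⟩

/-- the coefficient of the square, plus a constant -/
noncomputable def gyc (M : MolF) (p q : ℕ) : Fn3 := ⟨_, fun a b c => n1281 (M.at_ a b c) a b c + (p : ℝ) / q,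
  fun h1 h2 h3 => enc_add ((F1281 M).enc h1 h2 h3) (enc_rat _ p q)⟩

/-- the divided difference with the correction -/
noncomputable def gyn (G R P : MolF → Fn3) (M : MolF) (p q : ℕ) : Fn3 := ⟨_,
  fun a b c => (G M).v a b c * (R M).v a b c + a * ((p : ℝ) / q * (n3 (M.at_ a b c) a b c * (P M).v a b c * n1215 (M.at_ a b c) a b c)),
  fun {E A B C a b c} h1 h2 h3 => encc (enc_add (enc_norm (enc_mul ((G M).enc h1 h2 h3) ((R M).enc h1 h2 h3)))
    (enc_norm (enc_mul h1 (enc_norm (enc_scale p q (enc_norm (enc_mul (enc_norm (enc_mul ((F3 M).enc h1 h2 h3) ((P M).enc h1 h2 h3))) ((F1215 M).enc h1 h2 h3)))))))) rfl⟩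

/-- The chart `2Ap` for a displacement which is not positive. -/
noncomputable def kyAp (M : MolF) (sk cx : List Fn3) (p q : ℕ) : Cht :=
  ⟨sk, g2Ap_c0 M :: g2Ap_c1 M :: gyc M p q :: g2Ap_c3 M :: g2Ap_c4 M :: g2Ap_c5 M :: cx, [g2Ap_n0 M, gyn g2Ap_n1 F1228 F1219 M p q, g2Ap_n2 M], [g2Ap_m0 M, g2Ap_m1 M, g2Ap_m2 M]⟩

theorem ryAp {M : MolF} {sk cx : List Fn3} {p q : ℕ} {u b x : ℝ} (K : (kyAp M sk cx p q).P u b x)
    (hs : ∀ F ∈ sk, F.v u b x ≤ 0) : (∀ F ∈ cx, 0 < F.v u b x) ∧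
    0 < n1219 (M.at_ u b x) u b x ∧
    0 < n1241 (M.at_ u b x) u b x ∧
    0 < n1281 (M.at_ u b x) u b x + (p : ℝ) / q ∧
    0 < n1283 (M.at_ u b x) u b x ∧
    0 < n1187 (M.at_ u b x) u b x ∧
    0 < n1215 (M.at_ u b x) u b x ∧
    (0 < -(n1288 (M.at_ u b x) u b x) ∨ 0 < n1260 (M.at_ u b x) u b x * n1228 (M.at_ u b x) u b x + u * ((p : ℝ) / q * (n3 (M.at_ u b x) u b x * n1219 (M.at_ u b x) u b x * n1215 (M.at_ u b x) u b x)) ∨ 0 < n1292 (M.at_ u b x) u b x) ∧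
    (0 < n1288 (M.at_ u b x) u b x ∨ 0 < n1279 (M.at_ u b x) u b x ∨ 0 < n1296 (M.at_ u b x) u b x) := by
  rcases K with ⟨F, hF, h⟩ | ⟨h1, h2, h3⟩
  · exact absurd h (not_lt.2 (hs F hF))
  · refine ⟨fun F hF => h1 F ?_, ?_, ?_, ?_, ?_, ?_, ?_, ?_, ?_⟩
    · show F ∈ g2Ap_c0 M :: g2Ap_c1 M :: gyc M p q :: g2Ap_c3 M :: g2Ap_c4 M :: g2Ap_c5 M :: cx
      simp only [List.mem_cons, hF, or_true]
    · exact h1 (g2Ap_c0 M) (by show g2Ap_c0 M ∈ g2Ap_c0 M :: g2Ap_c1 M :: gyc M p q :: g2Ap_c3 M :: g2Ap_c4 M :: g2Ap_c5 M :: cx; simp only [List.mem_cons, true_or, or_true])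
    · exact h1 (g2Ap_c1 M) (by show g2Ap_c1 M ∈ g2Ap_c0 M :: g2Ap_c1 M :: gyc M p q :: g2Ap_c3 M :: g2Ap_c4 M :: g2Ap_c5 M :: cx; simp only [List.mem_cons, true_or, or_true])
    · exact h1 (gyc M p q) (by show gyc M p q ∈ g2Ap_c0 M :: g2Ap_c1 M :: gyc M p q :: g2Ap_c3 M :: g2Ap_c4 M :: g2Ap_c5 M :: cx; simp only [List.mem_cons, true_or, or_true])
    · exact h1 (g2Ap_c3 M) (by show g2Ap_c3 M ∈ g2Ap_c0 M :: g2Ap_c1 M :: gyc M p q :: g2Ap_c3 M :: g2Ap_c4 M :: g2Ap_c5 M :: cx; simp only [List.mem_cons, true_or, or_true])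
    · exact h1 (g2Ap_c4 M) (by show g2Ap_c4 M ∈ g2Ap_c0 M :: g2Ap_c1 M :: gyc M p q :: g2Ap_c3 M :: g2Ap_c4 M :: g2Ap_c5 M :: cx; simp only [List.mem_cons, true_or, or_true])
    · exact h1 (g2Ap_c5 M) (by show g2Ap_c5 M ∈ g2Ap_c0 M :: g2Ap_c1 M :: gyc M p q :: g2Ap_c3 M :: g2Ap_c4 M :: g2Ap_c5 M :: cx; simp only [List.mem_cons, true_or, or_true])
    · obtain ⟨F, hF, h⟩ := h2
      have hF' : F ∈ [g2Ap_n0 M, gyn g2Ap_n1 F1228 F1219 M p q, g2Ap_n2 M] := hF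
      simp only [List.mem_cons, List.not_mem_nil, or_false] at hF'
      rcases hF' with rfl | rfl | rfl
      · exact Or.inl h
      · exact Or.inr (Or.inl h)
      · exact Or.inr (Or.inr h)
    · obtain ⟨F, hF, h⟩ := h3
      have hF' : F ∈ [g2Ap_m0 M, g2Ap_m1 M, g2Ap_m2 M] := hF
      simp only [List.mem_cons, List.not_mem_nil, or_false] at hF'
      rcases hF' with rfl | rfl | rfl
      · exact Or.inl h
      · exact Or.inr (Or.inl h)
      · exact Or.inr (Or.inr h)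

/-- The chart `2Am` for a displacement which is not positive. -/
noncomputable def kyAm (M : MolF) (sk cx : List Fn3) : Cht :=
  ⟨sk, g2Am_c0 M :: g2Am_c1 M :: g2Am_c3 M :: g2Am_c4 M :: g2Am_c5 M :: cx, [fone], [g2Am_m0 M, g2Am_m1 M, g2Am_m2 M]⟩

theorem ryAm {M : MolF} {sk cx : List Fn3} {u b x : ℝ} (K : (kyAm M sk cx).P u b x)
    (hs : ∀ F ∈ sk, F.v u b x ≤ 0) : (∀ F ∈ cx, 0 < F.v u b x) ∧
    0 < n1307 (M.at_ u b x) u b x ∧
    0 < n1326 (M.at_ u b x) u b x ∧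
    0 < n1283 (M.at_ u b x) u b x ∧
    0 < n1187 (M.at_ u b x) u b x ∧
    0 < n1215 (M.at_ u b x) u b x ∧
    (0 < n1367 (M.at_ u b x) u b x ∨ 0 < -(n1362 (M.at_ u b x) u b x) ∨ 0 < n1373 (M.at_ u b x) u b x) := by
  rcases K with ⟨F, hF, h⟩ | ⟨h1, h2, h3⟩
  · exact absurd h (not_lt.2 (hs F hF))
  · refine ⟨fun F hF => h1 F ?_, ?_, ?_, ?_, ?_, ?_, ?_⟩
    · show F ∈ g2Am_c0 M :: g2Am_c1 M :: g2Am_c3 M :: g2Am_c4 M :: g2Am_c5 M :: cx
      simp only [List.mem_cons, hF, or_true]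
    · exact h1 (g2Am_c0 M) (by show g2Am_c0 M ∈ g2Am_c0 M :: g2Am_c1 M :: g2Am_c3 M :: g2Am_c4 M :: g2Am_c5 M :: cx; simp only [List.mem_cons, true_or, or_true])
    · exact h1 (g2Am_c1 M) (by show g2Am_c1 M ∈ g2Am_c0 M :: g2Am_c1 M :: g2Am_c3 M :: g2Am_c4 M :: g2Am_c5 M :: cx; simp only [List.mem_cons, true_or, or_true])
    · exact h1 (g2Am_c3 M) (by show g2Am_c3 M ∈ g2Am_c0 M :: g2Am_c1 M :: g2Am_c3 M :: g2Am_c4 M :: g2Am_c5 M :: cx; simp only [List.mem_cons, true_or, or_true])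
    · exact h1 (g2Am_c4 M) (by show g2Am_c4 M ∈ g2Am_c0 M :: g2Am_c1 M :: g2Am_c3 M :: g2Am_c4 M :: g2Am_c5 M :: cx; simp only [List.mem_cons, true_or, or_true])
    · exact h1 (g2Am_c5 M) (by show g2Am_c5 M ∈ g2Am_c0 M :: g2Am_c1 M :: g2Am_c3 M :: g2Am_c4 M :: g2Am_c5 M :: cx; simp only [List.mem_cons, true_or, or_true])
    · obtain ⟨F, hF, h⟩ := h3
      have hF' : F ∈ [g2Am_m0 M, g2Am_m1 M, g2Am_m2 M] := hF
      simp only [List.mem_cons, List.not_mem_nil, or_false] at hF'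
      rcases hF' with rfl | rfl | rfl
      · exact Or.inl h
      · exact Or.inr (Or.inl h)
      · exact Or.inr (Or.inr h)

/-- The chart `2Bp` for a displacement which is not positive. -/
noncomputable def kyBp (M : MolF) (sk cx : List Fn3) : Cht :=
  ⟨sk, g2Bp_c0 M :: g2Bp_c1 M :: g2Bp_c3 M :: g2Bp_c4 M :: g2Bp_c5 M :: cx, [fone], [g2Bp_m0 M, g2Bp_m1 M, g2Bp_m2 M]⟩

theorem ryBp {M : MolF} {sk cx : List Fn3} {u b x : ℝ} (K : (kyBp M sk cx).P u b x)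
    (hs : ∀ F ∈ sk, F.v u b x ≤ 0) : (∀ F ∈ cx, 0 < F.v u b x) ∧
    0 < n1394 (M.at_ u b x) u b x ∧
    0 < n1414 (M.at_ u b x) u b x ∧
    0 < n1283 (M.at_ u b x) u b x ∧
    0 < n1375 (M.at_ u b x) u b x ∧
    0 < n1215 (M.at_ u b x) u b x ∧
    (0 < n1459 (M.at_ u b x) u b x ∨ 0 < n1454 (M.at_ u b x) u b x ∨ 0 < n1463 (M.at_ u b x) u b x) := by
  rcases K with ⟨F, hF, h⟩ | ⟨h1, h2, h3⟩
  · exact absurd h (not_lt.2 (hs F hF))
  · refine ⟨fun F hF => h1 F ?_, ?_, ?_, ?_, ?_, ?_, ?_⟩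
    · show F ∈ g2Bp_c0 M :: g2Bp_c1 M :: g2Bp_c3 M :: g2Bp_c4 M :: g2Bp_c5 M :: cx
      simp only [List.mem_cons, hF, or_true]
    · exact h1 (g2Bp_c0 M) (by show g2Bp_c0 M ∈ g2Bp_c0 M :: g2Bp_c1 M :: g2Bp_c3 M :: g2Bp_c4 M :: g2Bp_c5 M :: cx; simp only [List.mem_cons, true_or, or_true])
    · exact h1 (g2Bp_c1 M) (by show g2Bp_c1 M ∈ g2Bp_c0 M :: g2Bp_c1 M :: g2Bp_c3 M :: g2Bp_c4 M :: g2Bp_c5 M :: cx; simp only [List.mem_cons, true_or, or_true])
    · exact h1 (g2Bp_c3 M) (by show g2Bp_c3 M ∈ g2Bp_c0 M :: g2Bp_c1 M :: g2Bp_c3 M :: g2Bp_c4 M :: g2Bp_c5 M :: cx; simp only [List.mem_cons, true_or, or_true])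
    · exact h1 (g2Bp_c4 M) (by show g2Bp_c4 M ∈ g2Bp_c0 M :: g2Bp_c1 M :: g2Bp_c3 M :: g2Bp_c4 M :: g2Bp_c5 M :: cx; simp only [List.mem_cons, true_or, or_true])
    · exact h1 (g2Bp_c5 M) (by show g2Bp_c5 M ∈ g2Bp_c0 M :: g2Bp_c1 M :: g2Bp_c3 M :: g2Bp_c4 M :: g2Bp_c5 M :: cx; simp only [List.mem_cons, true_or, or_true])
    · obtain ⟨F, hF, h⟩ := h3
      have hF' : F ∈ [g2Bp_m0 M, g2Bp_m1 M, g2Bp_m2 M] := hF
      simp only [List.mem_cons, List.not_mem_nil, or_false] at hF'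
      rcases hF' with rfl | rfl | rfl
      · exact Or.inl h
      · exact Or.inr (Or.inl h)
      · exact Or.inr (Or.inr h)

/-- The chart `2Bm` for a displacement which is not positive. -/
noncomputable def kyBm (M : MolF) (sk cx : List Fn3) (p q : ℕ) : Cht :=
  ⟨sk, g2Bm_c0 M :: g2Bm_c1 M :: gyc M p q :: g2Bm_c3 M :: g2Bm_c4 M :: g2Bm_c5 M :: cx, [g2Bm_n0 M, gyn g2Bm_n1 F1482 F1474 M p q, g2Bm_n2 M], [g2Bm_m0 M, g2Bm_m1 M, g2Bm_m2 M]⟩

theorem ryBm {M : MolF} {sk cx : List Fn3} {p q : ℕ} {u b x : ℝ} (K : (kyBm M sk cx p q).P u b x)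
    (hs : ∀ F ∈ sk, F.v u b x ≤ 0) : (∀ F ∈ cx, 0 < F.v u b x) ∧
    0 < n1474 (M.at_ u b x) u b x ∧
    0 < n1491 (M.at_ u b x) u b x ∧
    0 < n1281 (M.at_ u b x) u b x + (p : ℝ) / q ∧
    0 < n1283 (M.at_ u b x) u b x ∧
    0 < n1375 (M.at_ u b x) u b x ∧
    0 < n1215 (M.at_ u b x) u b x ∧
    (0 < -(n1534 (M.at_ u b x) u b x) ∨ 0 < -(n1513 (M.at_ u b x) u b x) * n1482 (M.at_ u b x) u b x + u * ((p : ℝ) / q * (n3 (M.at_ u b x) u b x * n1474 (M.at_ u b x) u b x * n1215 (M.at_ u b x) u b x)) ∨ 0 < n1538 (M.at_ u b x) u b x) ∧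
    (0 < n1534 (M.at_ u b x) u b x ∨ 0 < -(n1529 (M.at_ u b x) u b x) ∨ 0 < n1540 (M.at_ u b x) u b x) := by
  rcases K with ⟨F, hF, h⟩ | ⟨h1, h2, h3⟩
  · exact absurd h (not_lt.2 (hs F hF))
  · refine ⟨fun F hF => h1 F ?_, ?_, ?_, ?_, ?_, ?_, ?_, ?_, ?_⟩
    · show F ∈ g2Bm_c0 M :: g2Bm_c1 M :: gyc M p q :: g2Bm_c3 M :: g2Bm_c4 M :: g2Bm_c5 M :: cx
      simp only [List.mem_cons, hF, or_true]
    · exact h1 (g2Bm_c0 M) (by show g2Bm_c0 M ∈ g2Bm_c0 M :: g2Bm_c1 M :: gyc M p q :: g2Bm_c3 M :: g2Bm_c4 M :: g2Bm_c5 M :: cx; simp only [List.mem_cons, true_or, or_true])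
    · exact h1 (g2Bm_c1 M) (by show g2Bm_c1 M ∈ g2Bm_c0 M :: g2Bm_c1 M :: gyc M p q :: g2Bm_c3 M :: g2Bm_c4 M :: g2Bm_c5 M :: cx; simp only [List.mem_cons, true_or, or_true])
    · exact h1 (gyc M p q) (by show gyc M p q ∈ g2Bm_c0 M :: g2Bm_c1 M :: gyc M p q :: g2Bm_c3 M :: g2Bm_c4 M :: g2Bm_c5 M :: cx; simp only [List.mem_cons, true_or, or_true])
    · exact h1 (g2Bm_c3 M) (by show g2Bm_c3 M ∈ g2Bm_c0 M :: g2Bm_c1 M :: gyc M p q :: g2Bm_c3 M :: g2Bm_c4 M :: g2Bm_c5 M :: cx; simp only [List.mem_cons, true_or, or_true])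
    · exact h1 (g2Bm_c4 M) (by show g2Bm_c4 M ∈ g2Bm_c0 M :: g2Bm_c1 M :: gyc M p q :: g2Bm_c3 M :: g2Bm_c4 M :: g2Bm_c5 M :: cx; simp only [List.mem_cons, true_or, or_true])
    · exact h1 (g2Bm_c5 M) (by show g2Bm_c5 M ∈ g2Bm_c0 M :: g2Bm_c1 M :: gyc M p q :: g2Bm_c3 M :: g2Bm_c4 M :: g2Bm_c5 M :: cx; simp only [List.mem_cons, true_or, or_true])
    · obtain ⟨F, hF, h⟩ := h2
      have hF' : F ∈ [g2Bm_n0 M, gyn g2Bm_n1 F1482 F1474 M p q, g2Bm_n2 M] := hF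
      simp only [List.mem_cons, List.not_mem_nil, or_false] at hF'
      rcases hF' with rfl | rfl | rfl
      · exact Or.inl h
      · exact Or.inr (Or.inl h)
      · exact Or.inr (Or.inr h)
    · obtain ⟨F, hF, h⟩ := h3
      have hF' : F ∈ [g2Bm_m0 M, g2Bm_m1 M, g2Bm_m2 M] := hF
      simp only [List.mem_cons, List.not_mem_nil, or_false] at hF'
      rcases hF' with rfl | rfl | rfl
      · exact Or.inl h
      · exact Or.inr (Or.inl h)
      · exact Or.inr (Or.inr h)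

end Pool.Agent.Strip051.PB.Mol

namespace Pool.Agent.Strip051.PB.Mol.Ra

open Pool.Agent.StripNear Pool.Agent.StripSquare Pool.Agent.Strip051.Sweep
open Pool.Agent.Strip051.LC Pool.Agent.Strip051.LC.MolN Pool.Agent.Strip051.PB
open Pool.Agent.Strip051.LC.Line (tau jn)

theorem finyAp {T : MolP} {th A u b x κ τ1 τ3 y y' X12 X13 : ℝ} {r c l : ℝ × ℝ × ℝ}
    (h : DomA u b x) (hb : 0 ≤ b) (hκ : κ * h0 = ken x) (hy : y = x + u) (hy' : y' = 1 + b)
    (hi : T.it * τ3 = 1) (ha : AbsA T u b x X12 X13) (hk : KerA T u b x τ1 τ3 X13 r)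
    (hc : ThrA T u b x X13 c) (hl : LevA T u b x X13 l) (t1 : tau (h0 * y) = h0 * τ1)
    (t3 : tau (h0 * y + h0 * y') = h0 * τ3) (hk1 : T.k1 = 1 / th - 1) (hN : NdA A th (h0 * x) (h0 * (T.k52 * x)))
    (hu : u ≤ 1 - x) (hu0 : -A ≤ u) (hA2 : 0 < n1283 T u b x) (hD : 0 < n1187 T u b x) (hr : 0 < n1215 T u b x)
    (hP : 0 < n1219 T u b x) (hQ : 0 < n1241 T u b x)
    (hT : 0 ≤ n1288 T u b x → 0 ≤ n1215 T u b x * (u ^ 2 * n1281 T u b x) + b * n1260 T u b x)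
    (tM : 0 < n1288 T u b x ∨ 0 < n1279 T u b x ∨ 0 < n1296 T u b x) (z : ℝ) :
    0 ≤ lvN 3 0 x y y' (exn' X12 X13 y (y + y')) l +
      (1 + mun 3 x * cR x) * kf κ (h0 * x) r (h0 * y) (h0 * y') z +
      mun 3 x * pf (tnt (h0 * x) th) c (h0 * y) (h0 * y') z := by
  have hp := h0_pos
  have hn : h0 ≠ 0 := hp.ne'
  have xp := h.x0
  have xn : x ≠ 0 := xp.ne'
  have ep := esn_pos' h.x0 h.x1
  have en : esn x ≠ 0 := ep.ne'
  have mp := mun_pos' (x := x)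
  obtain ⟨c1, c2, c3⟩ := thrA h ha hc
  have ee : exn' X12 X13 y (y + y') = n160 T u b x + b * (1 / 2 * (n12 T u b x + (T.p1) * (n16 T u b x) + (T.ws) * (n3 T u b x))) := by
    rw [hy, hy']
    exact exq (Xs := 0) rfl ha.h12 ha.h13
  have hke := hk_e T (u := u) (b := b) h.x0 h.x1 hκ
  have he' : n15 T u b x = esn x := by
    rw [e_eq]
    rfl
  have hfa := fac_eqA T (u := u) (b := b) (x := x)
  have hmu := mu_eqA T (u := u) (b := b) (x := x)
  have hkp : 0 ≤ κ := by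
    rw [he'] at hke
    by_contra hneg
    push Not at hneg
    have h1 : 0 < h0 * (x * (1 - x)) := mul_pos hp (mul_pos xp (by linarith [h.x1]))
    have h2 : κ * (h0 * (x * (1 - x))) < 0 := mul_neg_of_neg_of_pos hneg h1
    have h3 : κ * (h0 * (x * (1 - x))) = 2 * esn x := by rw [← hke]; ring
    linarith
  have hK := ker0A h hi ha hk
  have hdv : n1187 T u b x = (n716 T u b x) - (n721 T u b x) := by
    simp only [n1187]
  have tS : tau (h0 * y') = h0 * b := by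
    unfold tau jn
    have hb0 := h.b0
    have hb1 := h.b1
    have eS : h0 * y' = h0 + h0 * b := by
      rw [hy']
      ring
    have q1 := mul_le_mul_of_nonneg_left hb0 hp.le
    have q2 := mul_le_mul_of_nonneg_left hb1 hp.le
    rw [eS, if_neg (by linarith), if_pos (by linarith)]
    push_cast
    ring
  have hcpl : cpl (1 + mun 3 x * cR x) (mun 3 x / esn x) r c (h0 * y) (h0 * y') = ((n730 T u b x) * τ1, -(n748 T u b x), (n739 T u b x) * τ3) := by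
    unfold cpl
    rw [t1, t3, tS, c1, c2, c3, hK, ← hfa, ← hmu]
    ext
    · simp only [n730, n727, n724]
      field_simp
      all_goals ring
    · simp only [n748, n746, n744, n741]
      field_simp
      all_goals ring
    · simp only [n739, n736, n733]
      field_simp
      all_goals ring
  have hh : h0 * y' = h0 + h0 * b := by
    rw [hy']
    ring
  have hlev := ev1Ap h hb ha hl hy hy' ee
  have hη : mun 3 x * (c.1 - c.2.2) * ((1 / th - 1) * ((h0 * u) ^ 2 / (h0 * x))) ≤ u ^ 2 * (esn x * mun 3 x * T.k1 * x⁻¹ * (n1187 T u b x)) := by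
    rw [c1, c3, hdv, hk1]
    apply le_of_eq
    field_simp
    all_goals ring
  have hab : |c.2.1 - c.2.2| = h0⁻¹ * (esn x * (n1189 T u b x)) := by
    rw [c2, c3]
    have : -(h0⁻¹ * (esn x * T.k2)) - h0⁻¹ * (esn x * (n721 T u b x)) = h0⁻¹ * (esn x * (-(T.k2 + n721 T u b x))) := by ring
    rw [this, abs_mul, abs_mul, abs_of_pos (inv_pos.2 hp), abs_of_pos ep, abs_neg]
    simp only [n1189]
  have hν : mun 3 x * (|c.2.1 - c.2.2| * ((1 / th - 1) * |h0 * b|) +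
      (c.1 - c.2.2) * (h0 * (T.k52 * x))) ≤ esn x * (mun 3 x * (n1187 T u b x) * T.k52 * x + mun 3 x * (n1189 T u b x) * T.k1 * |b|) := by
    rw [hab, c1, c3, abs_mul, abs_of_pos hp, hdv, hk1]
    apply le_of_eq
    field_simp
    all_goals ring
  have jd : n1187 T u b x = (n1185 T u b x) + b * (n1186 T u b x) := by
    rw [hdv]
    have j1 := J87 T (u := u) (b := b) (x := x)
    have j3 := J83 T (u := u) (b := b) (x := x) h
    simp only [n1186, n1185, n719, n711, n706, n704, n703, n699, n696, n690, n685, n683, n677, n675, n669, n102, n52, n51, n12, n3] at j1 j3 ⊢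
    linear_combination j1 - j3
  have hEE : (n1209 T u b x) + b * (n1212 T u b x) = ((n654 T u b x) + b * (n656 T u b x)) - u ^ 2 * (esn x * mun 3 x * T.k1 * x⁻¹ * (n1187 T u b x)) -
      esn x * (mun 3 x * (n1187 T u b x) * T.k52 * x + mun 3 x * (n1189 T u b x) * T.k1 * |b|) := by
    rw [← he', ← hmu, jd, abs_of_nonneg hb]
    simp only [n1212, n1209, n1206, n1204, n1203, n1202, n1198, n1197, n1195, n1192, n298]
    ring
  have hrv : -(n1217 T u b x) = -(n748 T u b x) + (mun 3 x * (n1187 T u b x) * T.k52 * x + mun 3 x * (n1189 T u b x) * T.k1 * |b|) := by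
    rw [← hmu, jd, abs_of_nonneg hb]
    simp only [n1217, n1214, n1198, n1197, n1195, n1192]
    ring
  have k := chyAp T h hb hke hA2.le hr.le hP hQ hT (by simpa using tM)
    (by rw [y_eq, ← hy]; exact t1) (by rw [y_eq, ← hy, ← hh]; exact t3)
  rw [y_eq, hEE, hrv, ← hy, ← hh] at k
  refine hN κ (esn x) (1 + mun 3 x * cR x) (mun 3 x) _ _ _ (h0 * u) (h0 * b) (h0 * y) (h0 * y') r c hkp
    ?_ ep mp ?_ ?_ ?_ ?_ ?_ ?_ ?_ ?_ hη hν ?_ z
  · rw [he'] at hke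
    have : κ * (h0 * x * (h0 - h0 * x)) = h0 * (κ * h0 * (x * (1 - x))) := by ring
    rw [this, hke]
    ring
  · rw [hy]
    ring
  · rw [hh]
  · have := mul_le_mul_of_nonneg_left hu hp.le
    linarith
  · have := mul_le_mul_of_nonneg_left hu0 hp.le
    linarith
  · rw [abs_mul, abs_of_pos hp]
    have : |b| ≤ 1 / 8 := abs_le.2 ⟨by linarith [h.b0], h.b1⟩
    have := mul_le_mul_of_nonneg_left this hp.le
    linarith
  · rw [hy]
    exact mul_nonneg hp.le h.y0.le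
  · rw [hy, hh]
    have := mul_pos hp (sub_pos.2 h.p1)
    linarith
  · rw [c1, c3]
    have h1 : (n721 T u b x) < (n716 T u b x) := by linarith [hdv]
    have h2 : esn x * (n721 T u b x) ≤ esn x * (n716 T u b x) := mul_le_mul_of_nonneg_left h1.le ep.le
    exact mul_le_mul_of_nonneg_left h2 (inv_pos.2 hp).le
  · rw [hcpl, hlev]
    exact k

theorem finyAm {T : MolP} {th A u b x κ τ1 τ3 y y' X12 X13 : ℝ} {r c l : ℝ × ℝ × ℝ}
    (h : DomA u b x) (hb : b < 0) (hκ : κ * h0 = ken x) (hy : y = x + u) (hy' : y' = 1 + b)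
    (hi : T.it * τ3 = 1) (ha : AbsA T u b x X12 X13) (hk : KerA T u b x τ1 τ3 X13 r)
    (hc : ThrA T u b x X13 c) (hl : LevA T u b x X13 l) (t1 : tau (h0 * y) = h0 * τ1)
    (t3 : tau (h0 * y + h0 * y') = h0 * τ3) (hk1 : T.k1 = 1 / th - 1) (hN : NdA A th (h0 * x) (h0 * (T.k52 * x)))
    (hu : u ≤ 1 - x) (hu0 : -A ≤ u) (hA2 : 0 < n1283 T u b x) (hD : 0 < n1187 T u b x) (hr : 0 < n1215 T u b x)
    (hP : 0 < n1307 T u b x) (hQ : 0 < n1326 T u b x)
    (hT : 0 ≤ n1367 T u b x → 0 ≤ n1215 T u b x * (u ^ 2 * n1281 T u b x) + b * n1346 T u b x)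
    (tM : 0 < n1367 T u b x ∨ 0 < -(n1362 T u b x) ∨ 0 < n1373 T u b x) (z : ℝ) :
    0 ≤ lvN 3 0 x y y' (exn' X12 X13 y (y + y')) l +
      (1 + mun 3 x * cR x) * kf κ (h0 * x) r (h0 * y) (h0 * y') z +
      mun 3 x * pf (tnt (h0 * x) th) c (h0 * y) (h0 * y') z := by
  have hp := h0_pos
  have hn : h0 ≠ 0 := hp.ne'
  have xp := h.x0
  have xn : x ≠ 0 := xp.ne'
  have ep := esn_pos' h.x0 h.x1
  have en : esn x ≠ 0 := ep.ne'
  have mp := mun_pos' (x := x)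
  obtain ⟨c1, c2, c3⟩ := thrA h ha hc
  have ee : exn' X12 X13 y (y + y') = n160 T u b x + b * (1 / 2 * (n12 T u b x + (T.p1) * (n16 T u b x) + (T.ws) * (n3 T u b x))) := by
    rw [hy, hy']
    exact exq (Xs := 0) rfl ha.h12 ha.h13
  have hke := hk_e T (u := u) (b := b) h.x0 h.x1 hκ
  have he' : n15 T u b x = esn x := by
    rw [e_eq]
    rfl
  have hfa := fac_eqA T (u := u) (b := b) (x := x)
  have hmu := mu_eqA T (u := u) (b := b) (x := x)
  have hkp : 0 ≤ κ := by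
    rw [he'] at hke
    by_contra hneg
    push Not at hneg
    have h1 : 0 < h0 * (x * (1 - x)) := mul_pos hp (mul_pos xp (by linarith [h.x1]))
    have h2 : κ * (h0 * (x * (1 - x))) < 0 := mul_neg_of_neg_of_pos hneg h1
    have h3 : κ * (h0 * (x * (1 - x))) = 2 * esn x := by rw [← hke]; ring
    linarith
  have hK := ker0A h hi ha hk
  have hdv : n1187 T u b x = (n716 T u b x) - (n721 T u b x) := by
    simp only [n1187]
  have tS : tau (h0 * y') = h0 * b := by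
    unfold tau jn
    have hb0 := h.b0
    have hb1 := h.b1
    have eS : h0 * y' = h0 + h0 * b := by
      rw [hy']
      ring
    have q1 := mul_le_mul_of_nonneg_left hb0 hp.le
    have q2 := mul_le_mul_of_nonneg_left hb1 hp.le
    rw [eS, if_neg (by linarith), if_pos (by linarith)]
    push_cast
    ring
  have hcpl : cpl (1 + mun 3 x * cR x) (mun 3 x / esn x) r c (h0 * y) (h0 * y') = ((n730 T u b x) * τ1, -(n748 T u b x), (n739 T u b x) * τ3) := by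
    unfold cpl
    rw [t1, t3, tS, c1, c2, c3, hK, ← hfa, ← hmu]
    ext
    · simp only [n730, n727, n724]
      field_simp
      all_goals ring
    · simp only [n748, n746, n744, n741]
      field_simp
      all_goals ring
    · simp only [n739, n736, n733]
      field_simp
      all_goals ring
  have hh : h0 * y' = h0 + h0 * b := by
    rw [hy']
    ring
  have hlev := ev1Am h hb ha hl hy hy' ee
  have hη : mun 3 x * (c.1 - c.2.2) * ((1 / th - 1) * ((h0 * u) ^ 2 / (h0 * x))) ≤ u ^ 2 * (esn x * mun 3 x * T.k1 * x⁻¹ * (n1187 T u b x)) := by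
    rw [c1, c3, hdv, hk1]
    apply le_of_eq
    field_simp
    all_goals ring
  have hab : |c.2.1 - c.2.2| = h0⁻¹ * (esn x * (n1189 T u b x)) := by
    rw [c2, c3]
    have : -(h0⁻¹ * (esn x * T.k2)) - h0⁻¹ * (esn x * (n721 T u b x)) = h0⁻¹ * (esn x * (-(T.k2 + n721 T u b x))) := by ring
    rw [this, abs_mul, abs_mul, abs_of_pos (inv_pos.2 hp), abs_of_pos ep, abs_neg]
    simp only [n1189]
  have hν : mun 3 x * (|c.2.1 - c.2.2| * ((1 / th - 1) * |h0 * b|) +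
      (c.1 - c.2.2) * (h0 * (T.k52 * x))) ≤ esn x * (mun 3 x * (n1187 T u b x) * T.k52 * x + mun 3 x * (n1189 T u b x) * T.k1 * |b|) := by
    rw [hab, c1, c3, abs_mul, abs_of_pos hp, hdv, hk1]
    apply le_of_eq
    field_simp
    all_goals ring
  have jd : n1187 T u b x = (n1185 T u b x) + b * (n1186 T u b x) := by
    rw [hdv]
    have j1 := J87 T (u := u) (b := b) (x := x)
    have j3 := J83 T (u := u) (b := b) (x := x) h
    simp only [n1186, n1185, n719, n711, n706, n704, n703, n699, n696, n690, n685, n683, n677, n675, n669, n102, n52, n51, n12, n3] at j1 j3 ⊢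
    linear_combination j1 - j3
  have hEE : (n1209 T u b x) + b * (n1301 T u b x) = ((n654 T u b x) + b * (n877 T u b x)) - u ^ 2 * (esn x * mun 3 x * T.k1 * x⁻¹ * (n1187 T u b x)) -
      esn x * (mun 3 x * (n1187 T u b x) * T.k52 * x + mun 3 x * (n1189 T u b x) * T.k1 * |b|) := by
    rw [← he', ← hmu, jd, abs_of_neg hb]
    simp only [n1301, n1298, n1209, n1206, n1204, n1203, n1202, n1197, n1195, n1192, n298]
    ring
  have hrv : -(n1305 T u b x) = -(n748 T u b x) + (mun 3 x * (n1187 T u b x) * T.k52 * x + mun 3 x * (n1189 T u b x) * T.k1 * |b|) := by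
    rw [← hmu, jd, abs_of_neg hb]
    simp only [n1305, n1303, n1298, n1197, n1195, n1192]
    ring
  have k := chyAm T h hb hke hA2.le hr.le hP hQ hT (by simpa using tM)
    (by rw [y_eq, ← hy]; exact t1) (by rw [y_eq, ← hy, ← hh]; exact t3)
  rw [y_eq, hEE, hrv, ← hy, ← hh] at k
  refine hN κ (esn x) (1 + mun 3 x * cR x) (mun 3 x) _ _ _ (h0 * u) (h0 * b) (h0 * y) (h0 * y') r c hkp
    ?_ ep mp ?_ ?_ ?_ ?_ ?_ ?_ ?_ ?_ hη hν ?_ z
  · rw [he'] at hke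
    have : κ * (h0 * x * (h0 - h0 * x)) = h0 * (κ * h0 * (x * (1 - x))) := by ring
    rw [this, hke]
    ring
  · rw [hy]
    ring
  · rw [hh]
  · have := mul_le_mul_of_nonneg_left hu hp.le
    linarith
  · have := mul_le_mul_of_nonneg_left hu0 hp.le
    linarith
  · rw [abs_mul, abs_of_pos hp]
    have : |b| ≤ 1 / 8 := abs_le.2 ⟨by linarith [h.b0], h.b1⟩
    have := mul_le_mul_of_nonneg_left this hp.le
    linarith
  · rw [hy]
    exact mul_nonneg hp.le h.y0.le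
  · rw [hy, hh]
    have := mul_pos hp (sub_pos.2 h.p1)
    linarith
  · rw [c1, c3]
    have h1 : (n721 T u b x) < (n716 T u b x) := by linarith [hdv]
    have h2 : esn x * (n721 T u b x) ≤ esn x * (n716 T u b x) := mul_le_mul_of_nonneg_left h1.le ep.le
    exact mul_le_mul_of_nonneg_left h2 (inv_pos.2 hp).le
  · rw [hcpl, hlev]
    exact k

theorem finyBp {T : MolP} {th A u b x κ τ1 τ3 y y' X12 X13 : ℝ} {r c l : ℝ × ℝ × ℝ}
    (h : DomB u b x) (hb : 0 ≤ b) (hκ : κ * h0 = ken x) (hy : y = x + u) (hy' : y' = 1 + b - (x + u))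
    (hi : T.it * τ3 = 1) (ha : AbsB T u b x X12 X13) (hk : KerB T u b x τ1 τ3 (X12 - X13) r)
    (hc : ThrB T u b x (X12 - X13) c) (hl : LevB T u b x (X12 - X13) l) (t1 : tau (h0 * y) = h0 * τ1)
    (t3 : tau (h0 * y') = h0 * τ3) (hk1 : T.k1 = 1 / th - 1) (hN : NdB A th (h0 * x) (h0 * (T.k52 * x)))
    (hu : u ≤ 1 - x) (hu0 : -A ≤ u) (hA2 : 0 < n1283 T u b x) (hD : 0 < n1375 T u b x) (hr : 0 < n1215 T u b x)
    (hP : 0 < n1394 T u b x) (hQ : 0 < n1414 T u b x)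
    (hT : 0 ≤ n1459 T u b x → 0 ≤ n1215 T u b x * (u ^ 2 * n1281 T u b x) + b * n1436 T u b x)
    (tM : 0 < n1459 T u b x ∨ 0 < n1454 T u b x ∨ 0 < n1463 T u b x) (z : ℝ) :
    0 ≤ lvN 3 0 x y y' (exn' X12 X13 y (y + y')) l +
      (1 + mun 3 x * cR x) * kf κ (h0 * x) r (h0 * y) (h0 * y') z +
      mun 3 x * pf (tnt (h0 * x) th) c (h0 * y) (h0 * y') z := by
  have hp := h0_pos
  have hn : h0 ≠ 0 := hp.ne'
  have xp := h.x0
  have xn : x ≠ 0 := xp.ne'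
  have ep := esn_pos' h.x0 h.x1
  have en : esn x ≠ 0 := ep.ne'
  have mp := mun_pos' (x := x)
  obtain ⟨c1, c2, c3⟩ := thrB h ha hc
  have ee : exn' X12 X13 y (y + y') = n160 T u b x + b * (1 / 2 * (n12 T u b x + (T.p1) * (n16 T u b x) + (T.ws) * (n3 T u b x))) := by
    rw [hy, hy']
    exact exqB (by ring) ha.h12 ha.h13
  have hke := hk_e T (u := u) (b := b) h.x0 h.x1 hκ
  have he' : n15 T u b x = esn x := by
    rw [e_eq]
    rfl
  have hfa := fac_eqA T (u := u) (b := b) (x := x)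
  have hmu := mu_eqA T (u := u) (b := b) (x := x)
  have hkp : 0 ≤ κ := by
    rw [he'] at hke
    by_contra hneg
    push Not at hneg
    have h1 : 0 < h0 * (x * (1 - x)) := mul_pos hp (mul_pos xp (by linarith [h.x1]))
    have h2 : κ * (h0 * (x * (1 - x))) < 0 := mul_neg_of_neg_of_pos hneg h1
    have h3 : κ * (h0 * (x * (1 - x))) = 2 * esn x := by rw [← hke]; ring
    linarith
  have hK := ker0B h hi ha hk
  have hdv : n1375 T u b x = (n1035 T u b x) - (n716 T u b x) := by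
    simp only [n1375]
  have tS : tau (h0 * y + h0 * y') = h0 * b := by
    unfold tau jn
    have hb0 := h.b0
    have hb1 := h.b1
    have eS : h0 * y + h0 * y' = h0 + h0 * b := by
      rw [hy, hy']
      ring
    have q1 := mul_le_mul_of_nonneg_left hb0 hp.le
    have q2 := mul_le_mul_of_nonneg_left hb1 hp.le
    rw [eS, if_neg (by linarith), if_pos (by linarith)]
    push_cast
    ring
  have hcpl : cpl (1 + mun 3 x * cR x) (mun 3 x / esn x) r c (h0 * y) (h0 * y') = ((n730 T u b x) * τ1, (n1044 T u b x) * τ3, -(n748 T u b x)) := by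
    unfold cpl
    rw [t1, t3, tS, c1, c2, c3, hK, ← hfa, ← hmu]
    ext
    · simp only [n730, n727, n724]
      field_simp
      all_goals ring
    · simp only [n1044, n1041, n1038]
      field_simp
      all_goals ring
    · simp only [n748, n746, n744, n741]
      field_simp
      all_goals ring
  have hh : h0 * y' = h0 + h0 * b - h0 * (x + u) := by
    rw [hy']
    ring
  have hlev := ev1Bp h hb ha hl hy hy' ee
  have hη : mun 3 x * (c.2.1 - c.1) * ((1 / th - 1) * ((h0 * u) ^ 2 / (h0 * x))) ≤ u ^ 2 * (esn x * mun 3 x * T.k1 * x⁻¹ * (n1375 T u b x)) := by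
    rw [c1, c2, hdv, hk1]
    apply le_of_eq
    field_simp
    all_goals ring
  have hab : |c.2.1 - c.2.2| = h0⁻¹ * (esn x * (n1377 T u b x)) := by
    rw [c2, c3]
    have : h0⁻¹ * (esn x * (n1035 T u b x)) - -(h0⁻¹ * (esn x * T.k2)) = h0⁻¹ * (esn x * (T.k2 + n1035 T u b x)) := by ring
    rw [this, abs_mul, abs_mul, abs_of_pos (inv_pos.2 hp), abs_of_pos ep]
    simp only [n1377]
  have hν : mun 3 x * (|c.2.1 - c.2.2| * ((1 / th - 1) * |h0 * b|) +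
      (c.2.1 - c.1) * (h0 * (T.k52 * x))) ≤ esn x * (mun 3 x * (n1375 T u b x) * T.k52 * x + mun 3 x * (n1377 T u b x) * T.k1 * |b|) := by
    rw [hab, c1, c2, abs_mul, abs_of_pos hp, hdv, hk1]
    apply le_of_eq
    field_simp
    all_goals ring
  have jd : n1375 T u b x = (n1185 T u b x) + b * (n1374 T u b x) := by
    rw [hdv]
    have j1 := J87 T (u := u) (b := b) (x := x)
    have j3 := J127 T (u := u) (b := b) (x := x) h
    simp only [n1374, n1185, n1032, n1026, n1021, n1019, n1014, n703, n699, n690, n685, n683, n677, n675, n669, n102, n52, n51, n12, n3] at j1 j3 ⊢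
    linear_combination j3 - j1
  have hEE : (n1209 T u b x) + b * (n1388 T u b x) = ((n654 T u b x) + b * (n990 T u b x)) - u ^ 2 * (esn x * mun 3 x * T.k1 * x⁻¹ * (n1375 T u b x)) -
      esn x * (mun 3 x * (n1375 T u b x) * T.k52 * x + mun 3 x * (n1377 T u b x) * T.k1 * |b|) := by
    rw [← he', ← hmu, jd, abs_of_nonneg hb]
    simp only [n1388, n1385, n1383, n1382, n1380, n1209, n1204, n1203, n1202, n1192, n298]
    ring
  have hrv : -(n1392 T u b x) = -(n748 T u b x) + (mun 3 x * (n1375 T u b x) * T.k52 * x + mun 3 x * (n1377 T u b x) * T.k1 * |b|) := by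
    rw [← hmu, jd, abs_of_nonneg hb]
    simp only [n1392, n1390, n1383, n1382, n1380, n1192]
    ring
  have k := chyBp T h hb hke hA2.le hr.le hP hQ hT (by simpa using tM)
    (by rw [y_eq, ← hy]; exact t1) (by rw [y_eq, ← hh]; exact t3)
  rw [y_eq, hEE, hrv, ← hh, ← hy] at k
  refine hN κ (esn x) (1 + mun 3 x * cR x) (mun 3 x) _ _ _ (h0 * u) (h0 * b) (h0 * y) (h0 * y') r c hkp
    ?_ ep mp ?_ ?_ ?_ ?_ ?_ ?_ ?_ ?_ hη hν ?_ z
  · rw [he'] at hke
    have : κ * (h0 * x * (h0 - h0 * x)) = h0 * (κ * h0 * (x * (1 - x))) := by ring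
    rw [this, hke]
    ring
  · rw [hy]
    ring
  · rw [hy, hy']
    ring
  · have := mul_le_mul_of_nonneg_left hu hp.le
    linarith
  · have := mul_le_mul_of_nonneg_left hu0 hp.le
    linarith
  · rw [abs_mul, abs_of_pos hp]
    have : |b| ≤ 1 / 8 := abs_le.2 ⟨by linarith [h.b0], h.b1⟩
    have := mul_le_mul_of_nonneg_left this hp.le
    linarith
  · rw [hy]
    exact mul_nonneg hp.le h.y0.le
  · rw [hy']
    have := h.p1
    have := h.y1
    have := h.b0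
    apply mul_nonneg hp.le
    linarith [h.p1, h.p0, h.y1, h.b0, h.b1]
  · rw [c1, c2]
    have h1 : (n716 T u b x) < (n1035 T u b x) := by linarith [hdv]
    have h2 : esn x * (n716 T u b x) ≤ esn x * (n1035 T u b x) := mul_le_mul_of_nonneg_left h1.le ep.le
    exact mul_le_mul_of_nonneg_left h2 (inv_pos.2 hp).le
  · rw [hcpl, hlev]
    exact k

theorem finyBm {T : MolP} {th A u b x κ τ1 τ3 y y' X12 X13 : ℝ} {r c l : ℝ × ℝ × ℝ}
    (h : DomB u b x) (hb : b < 0) (hκ : κ * h0 = ken x) (hy : y = x + u) (hy' : y' = 1 + b - (x + u))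
    (hi : T.it * τ3 = 1) (ha : AbsB T u b x X12 X13) (hk : KerB T u b x τ1 τ3 (X12 - X13) r)
    (hc : ThrB T u b x (X12 - X13) c) (hl : LevB T u b x (X12 - X13) l) (t1 : tau (h0 * y) = h0 * τ1)
    (t3 : tau (h0 * y') = h0 * τ3) (hk1 : T.k1 = 1 / th - 1) (hN : NdB A th (h0 * x) (h0 * (T.k52 * x)))
    (hu : u ≤ 1 - x) (hu0 : -A ≤ u) (hA2 : 0 < n1283 T u b x) (hD : 0 < n1375 T u b x) (hr : 0 < n1215 T u b x)
    (hP : 0 < n1474 T u b x) (hQ : 0 < n1491 T u b x)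
    (hT : 0 ≤ n1534 T u b x → 0 ≤ n1215 T u b x * (u ^ 2 * n1281 T u b x) + b * n1513 T u b x)
    (tM : 0 < n1534 T u b x ∨ 0 < -(n1529 T u b x) ∨ 0 < n1540 T u b x) (z : ℝ) :
    0 ≤ lvN 3 0 x y y' (exn' X12 X13 y (y + y')) l +
      (1 + mun 3 x * cR x) * kf κ (h0 * x) r (h0 * y) (h0 * y') z +
      mun 3 x * pf (tnt (h0 * x) th) c (h0 * y) (h0 * y') z := by
  have hp := h0_pos
  have hn : h0 ≠ 0 := hp.ne'
  have xp := h.x0
  have xn : x ≠ 0 := xp.ne'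
  have ep := esn_pos' h.x0 h.x1
  have en : esn x ≠ 0 := ep.ne'
  have mp := mun_pos' (x := x)
  obtain ⟨c1, c2, c3⟩ := thrB h ha hc
  have ee : exn' X12 X13 y (y + y') = n160 T u b x + b * (1 / 2 * (n12 T u b x + (T.p1) * (n16 T u b x) + (T.ws) * (n3 T u b x))) := by
    rw [hy, hy']
    exact exqB (by ring) ha.h12 ha.h13
  have hke := hk_e T (u := u) (b := b) h.x0 h.x1 hκ
  have he' : n15 T u b x = esn x := by
    rw [e_eq]
    rfl
  have hfa := fac_eqA T (u := u) (b := b) (x := x)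
  have hmu := mu_eqA T (u := u) (b := b) (x := x)
  have hkp : 0 ≤ κ := by
    rw [he'] at hke
    by_contra hneg
    push Not at hneg
    have h1 : 0 < h0 * (x * (1 - x)) := mul_pos hp (mul_pos xp (by linarith [h.x1]))
    have h2 : κ * (h0 * (x * (1 - x))) < 0 := mul_neg_of_neg_of_pos hneg h1
    have h3 : κ * (h0 * (x * (1 - x))) = 2 * esn x := by rw [← hke]; ring
    linarith
  have hK := ker0B h hi ha hk
  have hdv : n1375 T u b x = (n1035 T u b x) - (n716 T u b x) := by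
    simp only [n1375]
  have tS : tau (h0 * y + h0 * y') = h0 * b := by
    unfold tau jn
    have hb0 := h.b0
    have hb1 := h.b1
    have eS : h0 * y + h0 * y' = h0 + h0 * b := by
      rw [hy, hy']
      ring
    have q1 := mul_le_mul_of_nonneg_left hb0 hp.le
    have q2 := mul_le_mul_of_nonneg_left hb1 hp.le
    rw [eS, if_neg (by linarith), if_pos (by linarith)]
    push_cast
    ring
  have hcpl : cpl (1 + mun 3 x * cR x) (mun 3 x / esn x) r c (h0 * y) (h0 * y') = ((n730 T u b x) * τ1, (n1044 T u b x) * τ3, -(n748 T u b x)) := by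
    unfold cpl
    rw [t1, t3, tS, c1, c2, c3, hK, ← hfa, ← hmu]
    ext
    · simp only [n730, n727, n724]
      field_simp
      all_goals ring
    · simp only [n1044, n1041, n1038]
      field_simp
      all_goals ring
    · simp only [n748, n746, n744, n741]
      field_simp
      all_goals ring
  have hh : h0 * y' = h0 + h0 * b - h0 * (x + u) := by
    rw [hy']
    ring
  have hlev := ev1Bm h hb ha hl hy hy' ee
  have hη : mun 3 x * (c.2.1 - c.1) * ((1 / th - 1) * ((h0 * u) ^ 2 / (h0 * x))) ≤ u ^ 2 * (esn x * mun 3 x * T.k1 * x⁻¹ * (n1375 T u b x)) := by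
    rw [c1, c2, hdv, hk1]
    apply le_of_eq
    field_simp
    all_goals ring
  have hab : |c.2.1 - c.2.2| = h0⁻¹ * (esn x * (n1377 T u b x)) := by
    rw [c2, c3]
    have : h0⁻¹ * (esn x * (n1035 T u b x)) - -(h0⁻¹ * (esn x * T.k2)) = h0⁻¹ * (esn x * (T.k2 + n1035 T u b x)) := by ring
    rw [this, abs_mul, abs_mul, abs_of_pos (inv_pos.2 hp), abs_of_pos ep]
    simp only [n1377]
  have hν : mun 3 x * (|c.2.1 - c.2.2| * ((1 / th - 1) * |h0 * b|) +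
      (c.2.1 - c.1) * (h0 * (T.k52 * x))) ≤ esn x * (mun 3 x * (n1375 T u b x) * T.k52 * x + mun 3 x * (n1377 T u b x) * T.k1 * |b|) := by
    rw [hab, c1, c2, abs_mul, abs_of_pos hp, hdv, hk1]
    apply le_of_eq
    field_simp
    all_goals ring
  have jd : n1375 T u b x = (n1185 T u b x) + b * (n1374 T u b x) := by
    rw [hdv]
    have j1 := J87 T (u := u) (b := b) (x := x)
    have j3 := J127 T (u := u) (b := b) (x := x) h
    simp only [n1374, n1185, n1032, n1026, n1021, n1019, n1014, n703, n699, n690, n685, n683, n677, n675, n669, n102, n52, n51, n12, n3] at j1 j3 ⊢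
    linear_combination j3 - j1
  have hEE : (n1209 T u b x) + b * (n1468 T u b x) = ((n654 T u b x) + b * (n1122 T u b x)) - u ^ 2 * (esn x * mun 3 x * T.k1 * x⁻¹ * (n1375 T u b x)) -
      esn x * (mun 3 x * (n1375 T u b x) * T.k52 * x + mun 3 x * (n1377 T u b x) * T.k1 * |b|) := by
    rw [← he', ← hmu, jd, abs_of_neg hb]
    simp only [n1468, n1465, n1385, n1382, n1380, n1209, n1204, n1203, n1202, n1192, n298]
    ring
  have hrv : -(n1472 T u b x) = -(n748 T u b x) + (mun 3 x * (n1375 T u b x) * T.k52 * x + mun 3 x * (n1377 T u b x) * T.k1 * |b|) := by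
    rw [← hmu, jd, abs_of_neg hb]
    simp only [n1472, n1470, n1465, n1382, n1380, n1192]
    ring
  have k := chyBm T h hb hke hA2.le hr.le hP hQ hT (by simpa using tM)
    (by rw [y_eq, ← hy]; exact t1) (by rw [y_eq, ← hh]; exact t3)
  rw [y_eq, hEE, hrv, ← hh, ← hy] at k
  refine hN κ (esn x) (1 + mun 3 x * cR x) (mun 3 x) _ _ _ (h0 * u) (h0 * b) (h0 * y) (h0 * y') r c hkp
    ?_ ep mp ?_ ?_ ?_ ?_ ?_ ?_ ?_ ?_ hη hν ?_ z
  · rw [he'] at hke
    have : κ * (h0 * x * (h0 - h0 * x)) = h0 * (κ * h0 * (x * (1 - x))) := by ring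
    rw [this, hke]
    ring
  · rw [hy]
    ring
  · rw [hy, hy']
    ring
  · have := mul_le_mul_of_nonneg_left hu hp.le
    linarith
  · have := mul_le_mul_of_nonneg_left hu0 hp.le
    linarith
  · rw [abs_mul, abs_of_pos hp]
    have : |b| ≤ 1 / 8 := abs_le.2 ⟨by linarith [h.b0], h.b1⟩
    have := mul_le_mul_of_nonneg_left this hp.le
    linarith
  · rw [hy]
    exact mul_nonneg hp.le h.y0.le
  · rw [hy']
    have := h.p1
    have := h.y1
    have := h.b0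
    apply mul_nonneg hp.le
    linarith [h.p1, h.p0, h.y1, h.b0, h.b1]
  · rw [c1, c2]
    have h1 : (n716 T u b x) < (n1035 T u b x) := by linarith [hdv]
    have h2 : esn x * (n716 T u b x) ≤ esn x * (n1035 T u b x) := mul_le_mul_of_nonneg_left h1.le ep.le
    exact mul_le_mul_of_nonneg_left h2 (inv_pos.2 hp).le
  · rw [hcpl, hlev]
    exact k

theorem bothyAp {n : ℕ} {P : Pos n} {RK RL RC : Fin (n + 1) → ℕ → ℝ → ℝ → ℝ} {pc : ℕ → Piece}
    {pd : ℕ → Fn3} {T : MolT} {a c : ℕ} {k : Fin (n + 1)} {u b x κ τ1 τ3 th K l A : ℝ} {sk cx sk2 cx2 : List Fn3} {p q : ℕ}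
    (D : DomA u b x) (hb : 0 ≤ b) (hκ : κ * h0 = ken x)
    (hd : T.kc.v (psn (x + u + b)) x = T.kc.v (psn (x + u)) x + b * (fd1A T.dq true).v u b x)
    (hit : ((T.a true).at_ u b x).it * τ3 = 1)
    (t1 : tau (h0 * (x + u)) = h0 * τ1) (t3 : tau (h0 * (x + u) + h0 * (1 + b)) = h0 * τ3)
    (hx : T.st.xs.v u b x = 1 / 2 + b * T.st.ws.v u b x)
    (hX : crv P k 2 (1 + b) = T.st.xs.v u b x)
    (G : DC2 th K l A x) (hu : u ≤ 1 - x) (hu0 : -A ≤ u)
    (hk1 : (T.k1p : ℝ) / T.k1q = 1 / th - 1) (hk2 : (T.k2p : ℝ) / T.k2q = K)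
    (F0 : (k0Ap (T.a true) sk cx).P u b x) (hs : ∀ G ∈ sk, G.v u b x ≤ 0)
    (hun : u ≤ 0)
    (F2 : (kyAp (T.a true) sk2 cx2 p q).P u b x) (hs2 : ∀ G ∈ sk2, G.v u b x ≤ 0)
    (K1 : RK 0 a (x + u) x = (c1n (x + u) * cG (x + u) + T.kc.v (psn (x + u)) x) * τ1)
    (K2 : RK k 2 (1 + b) x = 1 / 2 + b * T.st.rs.v u b x)
    (K3 : (∀ G ∈ cx, 0 < G.v u b x) → (pc c).K.v (c1n (x + u) - T.st.xs.v u b x) (x + u + (1 + b)) x = ((c1n (x + u + b) - 1 / 2) * cG (x + u + b) + T.kc.v (psn (x + u + b)) x) * τ3 + T.sK.v (c1n (x + u) - T.st.xs.v u b x) (1 + (x + u + b)) x * (c1n (x + u) - T.st.xs.v u b x - (c1n (x + u + b) - 1 / 2)))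
    (L1 : RL 0 a (x + u) x = cQ x (x + u) (T.kc.v (psn (x + u)) x))
    (L2 : RL k 2 (1 + b) x = b * T.st.xk.v u b x)
    (L3 : (∀ G ∈ cx, 0 < G.v u b x) → (pc c).L.v (c1n (x + u) - T.st.xs.v u b x) (x + u + (1 + b)) x = cQ x (x + u + b) (T.kc.v (psn (x + u + b)) x) + T.sX.v (c1n (x + u) - T.st.xs.v u b x) (1 + (x + u + b)) x * (c1n (x + u) - T.st.xs.v u b x - (c1n (x + u + b) - 1 / 2)))
    (C1 : RC 0 a (x + u) x = esn x * (cP (x + u) - (cR (x + u) + 2 * c1n (x + u)) * T.kc.v (psn (x + u)) x))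
    (C2 : RC k 2 (1 + b) x = esn x * T.st.k2.v u b x)
    (C3 : (∀ G ∈ cx2, 0 < G.v u b x) → (pd c).v (c1n (x + u) - T.st.xs.v u b x) (x + u + (1 + b)) x = esn x * (cP (x + u + b) - 1 / 2 * cD (x + u + b) - (cR (x + u + b) + 2 * c1n (x + u + b) - 1) * T.kc.v (psn (x + u + b)) x + ((T.a true).at_ u b x).it * T.sD.v (c1n (x + u) - T.st.xs.v u b x) (1 + (x + u + b)) x * (c1n (x + u) - T.st.xs.v u b x - (c1n (x + u + b) - 1 / 2)))) :
    DirE th κ x (x + u) (1 + b) (exA P a 2 0 k 1 (-1) (x + u) (1 + b)) (vlA P RK (fun q => (pc q).K.v) a 2 c 0 k 1 (-1) x (x + u) (1 + b))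
      (vlA P RL (fun q => (pc q).L.v) a 2 c 0 k 1 (-1) x (x + u) (1 + b)) (dimC (vlA P RC (fun q => (pd q).v) a 2 c 0 k 1 (-1) x (x + u) (1 + b))) := by
  have far := farAp (P := P) D hb hκ hd hit t1 t3 hx hX F0 hs K1 K2 K3 L1 L2 L3
  obtain ⟨hc, -⟩ := r0Ap F0 hs
  obtain ⟨hc2, hP, hQ, hA1, hA2, hDD, hr, tN, tM⟩ := ryAp F2 hs2
  have hp := h0_pos
  have y0 := D.y0
  have y1 := D.y1
  have p0 := D.p0
  have p1 := D.p1
  have b0 := D.b0
  have b1 := D.b1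
  refine ⟨fun z => ?_, fun z => ?_⟩
  · refine NGV.dir far (kap_nn hκ D.x0 D.x1) (mul_nonneg hp.le D.x0.le) (by nlinarith [D.x1]) ?_ ?_ ?_ z
    · exact mul_nonneg hp.le y0.le
    · exact mul_nonneg hp.le (by linarith)
    · rw [← mul_add]
      nlinarith

  · have hN := ndA G
    rw [← k52_eq hk2 D.x0 u b] at hN
    unfold exA vlA dimC
    simp only [crv_zero, one_mul, neg_one_mul, ← sub_eq_add_neg]
    rw [hX]
    refine finyAp D hb hκ rfl rfl hit (absTA hx) ?_ ?_ ?_ t1 t3 hk1 hN hu hu0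
      hA2 hDD hr hP hQ (totyAp ((T.a true).at_ u b x) D hb hun (by positivity) hA1 hr hP hQ tN) tM z
    · exact kerTA hd K1 (congrArg (fun t => -t) K2) (K3 hc)
    · refine ⟨?_, ?_, ?_⟩
      · show h0⁻¹ * RC 0 a (x + u) x = h0⁻¹ * (esn x * (cP (x + u) - (cR (x + u) + 2 * c1n (x + u)) * T.kc.v (psn (x + u)) x + b * (0 : ℝ)))
        rw [C1]
        ring
      · show h0⁻¹ * -RC k 2 (1 + b) x = -(h0⁻¹ * (esn x * T.st.k2.v u b x))
        rw [C2]
        ring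
      · show h0⁻¹ * _ = h0⁻¹ * _
        rw [C3 hc2, hd]
        rfl
    · exact levTA hd L1 (congrArg (fun t => -t) L2) (L3 hc)

theorem bothyAm {n : ℕ} {P : Pos n} {RK RL RC : Fin (n + 1) → ℕ → ℝ → ℝ → ℝ} {pc : ℕ → Piece}
    {pd : ℕ → Fn3} {T : MolT} {a c : ℕ} {k : Fin (n + 1)} {u b x κ τ1 τ3 th K l A : ℝ} {sk cx sk2 cx2 : List Fn3}
    (D : DomA u b x) (hb : b < 0) (hκ : κ * h0 = ken x)
    (hd : T.kc.v (psn (x + u + b)) x = T.kc.v (psn (x + u)) x + b * (fd1A T.dq false).v u b x)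
    (hit : ((T.a false).at_ u b x).it * τ3 = 1)
    (t1 : tau (h0 * (x + u)) = h0 * τ1) (t3 : tau (h0 * (x + u) + h0 * (1 + b)) = h0 * τ3)
    (hx : T.st.xs.v u b x = 1 / 2 + b * T.st.ws.v u b x)
    (hX : crv P k 1 (1 + b) = T.st.xs.v u b x)
    (G : DC2 th K l A x) (hu : u ≤ 1 - x) (hu0 : -A ≤ u)
    (hk1 : (T.k1p : ℝ) / T.k1q = 1 / th - 1) (hk2 : (T.k2p : ℝ) / T.k2q = K)
    (F0 : (k0Am (T.a false) sk cx).P u b x) (hs : ∀ G ∈ sk, G.v u b x ≤ 0)
    (hun : u ≤ 0)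
    (F2 : (kyAm (T.a false) sk2 cx2).P u b x) (hs2 : ∀ G ∈ sk2, G.v u b x ≤ 0)
    (K1 : RK 0 a (x + u) x = (c1n (x + u) * cG (x + u) + T.kc.v (psn (x + u)) x) * τ1)
    (K2 : RK k 1 (1 + b) x = 1 / 2 + b * T.st.rs.v u b x)
    (K3 : (∀ G ∈ cx, 0 < G.v u b x) → (pc c).K.v (c1n (x + u) - T.st.xs.v u b x) (x + u + (1 + b)) x = ((c1n (x + u + b) - 1 / 2) * cG (x + u + b) + T.kc.v (psn (x + u + b)) x) * τ3 + T.sK.v (c1n (x + u) - T.st.xs.v u b x) (1 + (x + u + b)) x * (c1n (x + u) - T.st.xs.v u b x - (c1n (x + u + b) - 1 / 2)))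
    (L1 : RL 0 a (x + u) x = cQ x (x + u) (T.kc.v (psn (x + u)) x))
    (L2 : RL k 1 (1 + b) x = b * T.st.xk.v u b x)
    (L3 : (∀ G ∈ cx, 0 < G.v u b x) → (pc c).L.v (c1n (x + u) - T.st.xs.v u b x) (x + u + (1 + b)) x = cQ x (x + u + b) (T.kc.v (psn (x + u + b)) x) + T.sX.v (c1n (x + u) - T.st.xs.v u b x) (1 + (x + u + b)) x * (c1n (x + u) - T.st.xs.v u b x - (c1n (x + u + b) - 1 / 2)))
    (C1 : RC 0 a (x + u) x = esn x * (cP (x + u) - (cR (x + u) + 2 * c1n (x + u)) * T.kc.v (psn (x + u)) x))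
    (C2 : RC k 1 (1 + b) x = esn x * T.st.k2.v u b x)
    (C3 : (∀ G ∈ cx2, 0 < G.v u b x) → (pd c).v (c1n (x + u) - T.st.xs.v u b x) (x + u + (1 + b)) x = esn x * (cP (x + u + b) - 1 / 2 * cD (x + u + b) - (cR (x + u + b) + 2 * c1n (x + u + b) - 1) * T.kc.v (psn (x + u + b)) x + ((T.a false).at_ u b x).it * T.sD.v (c1n (x + u) - T.st.xs.v u b x) (1 + (x + u + b)) x * (c1n (x + u) - T.st.xs.v u b x - (c1n (x + u + b) - 1 / 2)))) :
    DirE th κ x (x + u) (1 + b) (exA P a 1 0 k 1 (-1) (x + u) (1 + b)) (vlA P RK (fun q => (pc q).K.v) a 1 c 0 k 1 (-1) x (x + u) (1 + b))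
      (vlA P RL (fun q => (pc q).L.v) a 1 c 0 k 1 (-1) x (x + u) (1 + b)) (dimC (vlA P RC (fun q => (pd q).v) a 1 c 0 k 1 (-1) x (x + u) (1 + b))) := by
  have far := farAm (P := P) D hb hκ hd hit t1 t3 hx hX F0 hs K1 K2 K3 L1 L2 L3
  obtain ⟨hc, -⟩ := r0Am F0 hs
  obtain ⟨hc2, hP, hQ, hA2, hDD, hr, tM⟩ := ryAm F2 hs2
  have hp := h0_pos
  have y0 := D.y0
  have y1 := D.y1
  have p0 := D.p0
  have p1 := D.p1
  have b0 := D.b0
  have b1 := D.b1
  refine ⟨fun z => ?_, fun z => ?_⟩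
  · refine NGV.dir far (kap_nn hκ D.x0 D.x1) (mul_nonneg hp.le D.x0.le) (by nlinarith [D.x1]) ?_ ?_ ?_ z
    · exact mul_nonneg hp.le y0.le
    · exact mul_nonneg hp.le (by linarith)
    · rw [← mul_add]
      nlinarith

  · have hN := ndA G
    rw [← k52_eq hk2 D.x0 u b] at hN
    unfold exA vlA dimC
    simp only [crv_zero, one_mul, neg_one_mul, ← sub_eq_add_neg]
    rw [hX]
    refine finyAm D hb hκ rfl rfl hit (absTA hx) ?_ ?_ ?_ t1 t3 hk1 hN hu hu0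
      hA2 hDD hr hP hQ (totyAm ((T.a false).at_ u b x) D hb hun hP hQ) tM z
    · exact kerTA hd K1 (congrArg (fun t => -t) K2) (K3 hc)
    · refine ⟨?_, ?_, ?_⟩
      · show h0⁻¹ * RC 0 a (x + u) x = h0⁻¹ * (esn x * (cP (x + u) - (cR (x + u) + 2 * c1n (x + u)) * T.kc.v (psn (x + u)) x + b * (0 : ℝ)))
        rw [C1]
        ring
      · show h0⁻¹ * -RC k 1 (1 + b) x = -(h0⁻¹ * (esn x * T.st.k2.v u b x))
        rw [C2]
        ring
      · show h0⁻¹ * _ = h0⁻¹ * _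
        rw [C3 hc2, hd]
        rfl
    · exact levTA hd L1 (congrArg (fun t => -t) L2) (L3 hc)

theorem bothyBp {n : ℕ} {P : Pos n} {RK RL RC : Fin (n + 1) → ℕ → ℝ → ℝ → ℝ} {pc : ℕ → Piece}
    {pd : ℕ → Fn3} {T : MolT} {a c : ℕ} {k : Fin (n + 1)} {u b x κ τ1 τ3 th K l A : ℝ} {y' : ℝ} {sk cx sk2 cx2 : List Fn3}
    (D : DomB u b x) (hb : 0 ≤ b) (hκ : κ * h0 = ken x)
    (hy' : y' = 1 + b - (x + u))
    (hd : T.kc.v (psn (x + u - b)) x = T.kc.v (psn (x + u)) x + b * (fd1B T.dq true).v u b x)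
    (hit : ((T.b true).at_ u b x).it * τ3 = 1)
    (t1 : tau (h0 * (x + u)) = h0 * τ1) (t3 : tau (h0 * y') = h0 * τ3)
    (hx : T.st.xs.v u b x = 1 / 2 + b * T.st.ws.v u b x)
    (hX : crv P k 2 (1 + b) = T.st.xs.v u b x)
    (G : DC2 th K l A x) (hu : u ≤ 1 - x) (hu0 : -A ≤ u)
    (hk1 : (T.k1p : ℝ) / T.k1q = 1 / th - 1) (hk2 : (T.k2p : ℝ) / T.k2q = K)
    (F0 : (k0Bp (T.b true) sk cx).P u b x) (hs : ∀ G ∈ sk, G.v u b x ≤ 0)
    (hun : u ≤ 0)
    (F2 : (kyBp (T.b true) sk2 cx2).P u b x) (hs2 : ∀ G ∈ sk2, G.v u b x ≤ 0)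
    (K1 : RK 0 a (x + u) x = (c1n (x + u) * cG (x + u) + T.kc.v (psn (x + u)) x) * τ1)
    (K2 : RK k 2 (1 + b) x = 1 / 2 + b * T.st.rs.v u b x)
    (K3 : (∀ G ∈ cx, 0 < G.v u b x) → (pc c).K.v (-T.st.xs.v u b x - c1n (x + u)) y' x = ((c1n (x + u - b) + 1 / 2) * cG (x + u - b) + T.kc.v (psn (x + u - b)) x) * τ3 - T.sK.v (c1n (x + u) + T.st.xs.v u b x) (1 - (x + u - b)) x * (c1n (x + u) + T.st.xs.v u b x - (c1n (x + u - b) + 1 / 2)))
    (L1 : RL 0 a (x + u) x = cQ x (x + u) (T.kc.v (psn (x + u)) x))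
    (L2 : RL k 2 (1 + b) x = b * T.st.xk.v u b x)
    (L3 : (∀ G ∈ cx, 0 < G.v u b x) → (pc c).L.v (-T.st.xs.v u b x - c1n (x + u)) y' x = -(cQ x (x + u - b) (T.kc.v (psn (x + u - b)) x) + T.sX.v (c1n (x + u) + T.st.xs.v u b x) (1 - (x + u - b)) x * (c1n (x + u) + T.st.xs.v u b x - (c1n (x + u - b) + 1 / 2))))
    (C1 : RC 0 a (x + u) x = esn x * (cP (x + u) - (cR (x + u) + 2 * c1n (x + u)) * T.kc.v (psn (x + u)) x))
    (C2 : RC k 2 (1 + b) x = esn x * T.st.k2.v u b x)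
    (C3 : (∀ G ∈ cx2, 0 < G.v u b x) → (pd c).v (-T.st.xs.v u b x - c1n (x + u)) y' x = esn x * (cP (x + u - b) + 1 / 2 * cD (x + u - b) - (cR (x + u - b) + 2 * c1n (x + u - b) + 1) * T.kc.v (psn (x + u - b)) x - ((T.b true).at_ u b x).it * T.sD.v (c1n (x + u) + T.st.xs.v u b x) (1 - (x + u - b)) x * (c1n (x + u) + T.st.xs.v u b x - (c1n (x + u - b) + 1 / 2)))) :
    DirE th κ x (x + u) y' (exB P a 2 0 k 1 (-1) (x + u) y') (vlB P RK (fun q => (pc q).K.v) a c 2 0 k 1 (-1) x (x + u) y')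
      (vlB P RL (fun q => (pc q).L.v) a c 2 0 k 1 (-1) x (x + u) y') (dimC (vlB P RC (fun q => (pd q).v) a c 2 0 k 1 (-1) x (x + u) y')) := by
  have far := farBp (P := P) D hb hκ hy' hd hit t1 t3 hx hX F0 hs K1 K2 K3 L1 L2 L3
  obtain ⟨hc, -⟩ := r0Bp F0 hs
  obtain ⟨hc2, hP, hQ, hA2, hDD, hr, tM⟩ := ryBp F2 hs2
  have hp := h0_pos
  have y0 := D.y0
  have y1 := D.y1
  have p0 := D.p0
  have p1 := D.p1
  have b0 := D.b0
  have b1 := D.b1
  refine ⟨fun z => ?_, fun z => ?_⟩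
  · refine NGV.dir far (kap_nn hκ D.x0 D.x1) (mul_nonneg hp.le D.x0.le) (by nlinarith [D.x1]) ?_ ?_ ?_ z
    · exact mul_nonneg hp.le y0.le
    · exact mul_nonneg hp.le (by rw [hy']; linarith)
    · rw [← mul_add]
      nlinarith

  · have hN := ndB G
    rw [← k52_eq hk2 D.x0 u b] at hN
    have e : x + u + y' = 1 + b := by rw [hy']; ring
    unfold exB vlB dimC
    simp only [crv_zero, one_mul, neg_one_mul, ← sub_eq_add_neg]
    refine finyBp D hb hκ rfl hy' hit ?_ ?_ ?_ ?_ t1 t3 hk1 hN hu hu0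
      hA2 hDD hr hP hQ (totyBp ((T.b true).at_ u b x) D hb hun hP hQ) tM z
    · rw [e, hX]
      exact absTB hx
    · rw [e, hX, sub_neg_eq_add]
      exact kerTB hd K1 (congrArg (fun t => -t) K2) (K3 hc)
    · rw [e, hX, sub_neg_eq_add]
      refine ⟨?_, ?_, ?_⟩
      · show h0⁻¹ * RC 0 a (x + u) x = h0⁻¹ * (esn x * (cP (x + u) - (cR (x + u) + 2 * c1n (x + u)) * T.kc.v (psn (x + u)) x + b * (0 : ℝ)))
        rw [C1]
        ring
      · show h0⁻¹ * _ = h0⁻¹ * _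
        rw [C3 hc2, hd]
        rfl
      · show h0⁻¹ * -RC k 2 (1 + b) x = -(h0⁻¹ * (esn x * T.st.k2.v u b x))
        rw [C2]
        ring
    · rw [e, hX, sub_neg_eq_add]
      exact levTB hd L1 (congrArg (fun t => -t) L2) (L3 hc)

theorem bothyBm {n : ℕ} {P : Pos n} {RK RL RC : Fin (n + 1) → ℕ → ℝ → ℝ → ℝ} {pc : ℕ → Piece}
    {pd : ℕ → Fn3} {T : MolT} {a c : ℕ} {k : Fin (n + 1)} {u b x κ τ1 τ3 th K l A : ℝ} {y' : ℝ} {sk cx sk2 cx2 : List Fn3} {p q : ℕ}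
    (D : DomB u b x) (hb : b < 0) (hκ : κ * h0 = ken x)
    (hy' : y' = 1 + b - (x + u))
    (hd : T.kc.v (psn (x + u - b)) x = T.kc.v (psn (x + u)) x + b * (fd1B T.dq false).v u b x)
    (hit : ((T.b false).at_ u b x).it * τ3 = 1)
    (t1 : tau (h0 * (x + u)) = h0 * τ1) (t3 : tau (h0 * y') = h0 * τ3)
    (hx : T.st.xs.v u b x = 1 / 2 + b * T.st.ws.v u b x)
    (hX : crv P k 1 (1 + b) = T.st.xs.v u b x)
    (G : DC2 th K l A x) (hu : u ≤ 1 - x) (hu0 : -A ≤ u)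
    (hk1 : (T.k1p : ℝ) / T.k1q = 1 / th - 1) (hk2 : (T.k2p : ℝ) / T.k2q = K)
    (F0 : (k0Bm (T.b false) sk cx).P u b x) (hs : ∀ G ∈ sk, G.v u b x ≤ 0)
    (hun : u ≤ 0)
    (F2 : (kyBm (T.b false) sk2 cx2 p q).P u b x) (hs2 : ∀ G ∈ sk2, G.v u b x ≤ 0)
    (K1 : RK 0 a (x + u) x = (c1n (x + u) * cG (x + u) + T.kc.v (psn (x + u)) x) * τ1)
    (K2 : RK k 1 (1 + b) x = 1 / 2 + b * T.st.rs.v u b x)
    (K3 : (∀ G ∈ cx, 0 < G.v u b x) → (pc c).K.v (-T.st.xs.v u b x - c1n (x + u)) y' x = ((c1n (x + u - b) + 1 / 2) * cG (x + u - b) + T.kc.v (psn (x + u - b)) x) * τ3 - T.sK.v (c1n (x + u) + T.st.xs.v u b x) (1 - (x + u - b)) x * (c1n (x + u) + T.st.xs.v u b x - (c1n (x + u - b) + 1 / 2)))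
    (L1 : RL 0 a (x + u) x = cQ x (x + u) (T.kc.v (psn (x + u)) x))
    (L2 : RL k 1 (1 + b) x = b * T.st.xk.v u b x)
    (L3 : (∀ G ∈ cx, 0 < G.v u b x) → (pc c).L.v (-T.st.xs.v u b x - c1n (x + u)) y' x = -(cQ x (x + u - b) (T.kc.v (psn (x + u - b)) x) + T.sX.v (c1n (x + u) + T.st.xs.v u b x) (1 - (x + u - b)) x * (c1n (x + u) + T.st.xs.v u b x - (c1n (x + u - b) + 1 / 2))))
    (C1 : RC 0 a (x + u) x = esn x * (cP (x + u) - (cR (x + u) + 2 * c1n (x + u)) * T.kc.v (psn (x + u)) x))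
    (C2 : RC k 1 (1 + b) x = esn x * T.st.k2.v u b x)
    (C3 : (∀ G ∈ cx2, 0 < G.v u b x) → (pd c).v (-T.st.xs.v u b x - c1n (x + u)) y' x = esn x * (cP (x + u - b) + 1 / 2 * cD (x + u - b) - (cR (x + u - b) + 2 * c1n (x + u - b) + 1) * T.kc.v (psn (x + u - b)) x - ((T.b false).at_ u b x).it * T.sD.v (c1n (x + u) + T.st.xs.v u b x) (1 - (x + u - b)) x * (c1n (x + u) + T.st.xs.v u b x - (c1n (x + u - b) + 1 / 2)))) :
    DirE th κ x (x + u) y' (exB P a 1 0 k 1 (-1) (x + u) y') (vlB P RK (fun q => (pc q).K.v) a c 1 0 k 1 (-1) x (x + u) y')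
      (vlB P RL (fun q => (pc q).L.v) a c 1 0 k 1 (-1) x (x + u) y') (dimC (vlB P RC (fun q => (pd q).v) a c 1 0 k 1 (-1) x (x + u) y')) := by
  have far := farBm (P := P) D hb hκ hy' hd hit t1 t3 hx hX F0 hs K1 K2 K3 L1 L2 L3
  obtain ⟨hc, -⟩ := r0Bm F0 hs
  obtain ⟨hc2, hP, hQ, hA1, hA2, hDD, hr, tN, tM⟩ := ryBm F2 hs2
  have hp := h0_pos
  have y0 := D.y0
  have y1 := D.y1
  have p0 := D.p0
  have p1 := D.p1
  have b0 := D.b0
  have b1 := D.b1
  refine ⟨fun z => ?_, fun z => ?_⟩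
  · refine NGV.dir far (kap_nn hκ D.x0 D.x1) (mul_nonneg hp.le D.x0.le) (by nlinarith [D.x1]) ?_ ?_ ?_ z
    · exact mul_nonneg hp.le y0.le
    · exact mul_nonneg hp.le (by rw [hy']; linarith)
    · rw [← mul_add]
      nlinarith

  · have hN := ndB G
    rw [← k52_eq hk2 D.x0 u b] at hN
    have e : x + u + y' = 1 + b := by rw [hy']; ring
    unfold exB vlB dimC
    simp only [crv_zero, one_mul, neg_one_mul, ← sub_eq_add_neg]
    refine finyBm D hb hκ rfl hy' hit ?_ ?_ ?_ ?_ t1 t3 hk1 hN hu hu0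
      hA2 hDD hr hP hQ (totyBm ((T.b false).at_ u b x) D hb hun (by positivity) hA1 hr hP hQ tN) tM z
    · rw [e, hX]
      exact absTB hx
    · rw [e, hX, sub_neg_eq_add]
      exact kerTB hd K1 (congrArg (fun t => -t) K2) (K3 hc)
    · rw [e, hX, sub_neg_eq_add]
      refine ⟨?_, ?_, ?_⟩
      · show h0⁻¹ * RC 0 a (x + u) x = h0⁻¹ * (esn x * (cP (x + u) - (cR (x + u) + 2 * c1n (x + u)) * T.kc.v (psn (x + u)) x + b * (0 : ℝ)))
        rw [C1]
        ring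
      · show h0⁻¹ * _ = h0⁻¹ * _
        rw [C3 hc2, hd]
        rfl
      · show h0⁻¹ * -RC k 1 (1 + b) x = -(h0⁻¹ * (esn x * T.st.k2.v u b x))
        rw [C2]
        ring
    · rw [e, hX, sub_neg_eq_add]
      exact levTB hd L1 (congrArg (fun t => -t) L2) (L3 hc)

end Pool.Agent.Strip051.PB.Mol.Ra
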