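import Pool.Agent.Strip051.PB.Real
import Pool.Agent.Strip051.LC.Exact.Dir2

/-! # From the slack in normalised coordinates to the modulus inequality -/

set_option linter.unusedSimpArgs false

namespace Pool.Agent.Strip051.PB

open Pool.Agent.StripNear Pool.Agent.Strip051.LC
open Pool.Agent.Strip051.LC.Line (MoN MoW Mo jn tau pot)

/-- The half-open quarters (the last one is closed). -/
def InQ : ℕ → ℝ → Prop
  | 0, y => 0 ≤ y ∧ y < 1 / 2
  | 1, y => 1 / 2 ≤ y ∧ y < 1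
  | 2, y => 1 ≤ y ∧ y < 3 / 2
  | 3, y => 3 / 2 ≤ y ∧ y ≤ 2
  | _, _ => False

theorem inQ_cases {y : ℝ} (h : 0 ≤ y) (h' : y ≤ 2) : InQ 0 y ∨ InQ 1 y ∨ InQ 2 y ∨ InQ 3 y := by
  rcases lt_or_ge y (1 / 2) with h1 | h1
  · exact Or.inl ⟨h, h1⟩
  rcases lt_or_ge y 1 with h2 | h2
  · exact Or.inr (Or.inl ⟨h1, h2⟩)
  rcases lt_or_ge y (3 / 2) with h3 | h3
  · exact Or.inr (Or.inr (Or.inl ⟨h2, h3⟩))
  · exact Or.inr (Or.inr (Or.inr ⟨h3, h'⟩))

theorem jn_q {q : ℕ} {y : ℝ} (h : InQ q y) : jn (h0 * y) = jq q := by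
  have hp := h0_pos
  unfold jn
  match q, h with
  | 0, ⟨h1, h2⟩ => rw [if_pos (by nlinarith)]; rfl
  | 1, ⟨h1, h2⟩ =>
    rw [if_neg (by nlinarith), if_pos (by nlinarith)]; rfl
  | 2, ⟨h1, h2⟩ =>
    rw [if_neg (by nlinarith), if_pos (by nlinarith)]; rfl
  | 3, ⟨h1, h2⟩ =>
    rw [if_neg (by nlinarith), if_neg (by nlinarith)]; rfl
  | _ + 4, h => exact h.elim

theorem tau_q {q : ℕ} {y : ℝ} (h : InQ q y) : tau (h0 * y) = h0 * (y - jq q) := by
  unfold tau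
  rw [jn_q h]
  ring

theorem moN_of {κ x ex l1 l2 A1 A2 A3 g : ℝ} (h1 : 0 ≤ l1) (h2 : 0 ≤ l2)
    (h : 0 ≤ slN ex (κ * h0) x l1 l2 A1 A2 A3 g) :
    MoN κ (h0 * x) ex (h0 * l1) (h0 * l2) A1 A2 A3 := by
  have hp := h0_pos
  have hh : h0 ≠ 0 := hp.ne'
  unfold MoN Mo
  refine ⟨g, ?_⟩
  unfold slN stn at h
  have e1 : (A1 * (h0 - h0 * l1) + A2 * (h0 - 2 * (h0 * l1) - h0 * l2) -
      A3 * (h0 - h0 * l1 - h0 * l2)) / (2 * h0) = pn1 l1 l2 A1 A2 A3 := by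
    unfold pn1
    field_simp
  have e3 : (-A1 * (h0 - h0 * l1 - 2 * (h0 * l2)) - A2 * (h0 - h0 * l2) +
      A3 * (h0 - h0 * l1 - h0 * l2)) / (2 * h0) = pn3 l1 l2 A1 A2 A3 := by
    unfold pn3
    field_simp
  rw [e1, e3]
  rcases (add_nonneg h1 h2).eq_or_lt with hs | hs
  · have z1 : l1 = 0 := by linarith
    have z2 : l2 = 0 := by linarith
    subst z1
    subst z2
    simp only [mul_zero, zero_mul, zero_add, sub_zero, mul_one] at h ⊢
    have e : κ * (h0 * Line.phi (pn3 0 0 A1 A2 A3 - g) (pn1 0 0 A1 A2 A3 - g) + g * (h0 * x)) =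
        κ * h0 * (1 * Line.phi (pn3 0 0 A1 A2 A3 - g) (pn1 0 0 A1 A2 A3 - g) + g * x) := by ring
    rw [e]
    linarith
  · have e2 : (-A1 * (h0 - h0 * l1) + A2 * (h0 - h0 * l2) +
        A3 * (h0 * l1 - h0 * l2) / (h0 * l1 + h0 * l2) * (h0 - h0 * l1 - h0 * l2)) / (2 * h0) =
        pn2 l1 l2 A1 A2 A3 := by
      have hl : lam l1 (l1 + l2) = l1 / (l1 + l2) := by
        unfold lam
        rw [← div_eq_mul_inv, max_eq_left (div_nonneg h1 hs.le), min_eq_left]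
        rw [div_le_one hs]
        linarith
      unfold pn2
      rw [hl]
      have hs' : l1 + l2 ≠ 0 := hs.ne'
      field_simp
      ring
    rw [e2]
    have e : κ * (h0 * l1 * Line.phi (pn1 l1 l2 A1 A2 A3 - g) (pn2 l1 l2 A1 A2 A3 - g) +
        h0 * l2 * Line.phi (pn2 l1 l2 A1 A2 A3 - g) (pn3 l1 l2 A1 A2 A3 - g) +
        (h0 - h0 * l1 - h0 * l2) * Line.phi (pn3 l1 l2 A1 A2 A3 - g) (pn1 l1 l2 A1 A2 A3 - g) +
        g * (h0 * x)) = κ * h0 * (l1 * Line.phi (pn1 l1 l2 A1 A2 A3 - g) (pn2 l1 l2 A1 A2 A3 - g) +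
        l2 * Line.phi (pn2 l1 l2 A1 A2 A3 - g) (pn3 l1 l2 A1 A2 A3 - g) +
        (1 - l1 - l2) * Line.phi (pn3 l1 l2 A1 A2 A3 - g) (pn1 l1 l2 A1 A2 A3 - g) + g * x) := by ring
    rw [e]
    linarith

theorem moW_of {κ x ex l1 l2 l3 A1 A2 A3 g : ℝ}
    (h : 0 ≤ slW ex (κ * h0) x l1 l2 l3 A1 A2 A3 g) :
    MoW κ (h0 * x) ex (h0 * l1) (h0 * l2) (h0 * l3) A1 A2 A3 := by
  have hh : h0 ≠ 0 := h0_pos.ne'
  have e : ∀ a b c p q r : ℝ, pot h0 a b c (h0 * p) (h0 * q) (h0 * r) = pon a b c p q r := by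
    intro a b c p q r
    unfold pot pon
    field_simp
  unfold MoW Mo
  refine ⟨g, ?_⟩
  unfold slW stn at h
  rw [e, e, e]
  have e' : κ * (h0 * l1 * Line.phi (pon A1 A2 A3 l1 l2 l3 - g) (pon A2 A3 A1 l2 l3 l1 - g) +
      h0 * l2 * Line.phi (pon A2 A3 A1 l2 l3 l1 - g) (pon A3 A1 A2 l3 l1 l2 - g) +
      h0 * l3 * Line.phi (pon A3 A1 A2 l3 l1 l2 - g) (pon A1 A2 A3 l1 l2 l3 - g) + g * (h0 * x)) =
      κ * h0 * (l1 * Line.phi (pon A1 A2 A3 l1 l2 l3 - g) (pon A2 A3 A1 l2 l3 l1 - g) +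
      l2 * Line.phi (pon A2 A3 A1 l2 l3 l1 - g) (pon A3 A1 A2 l3 l1 l2 - g) +
      l3 * Line.phi (pon A3 A1 A2 l3 l1 l2 - g) (pon A1 A2 A3 l1 l2 l3 - g) + g * x) := by ring
  rw [e']
  linarith

/-- **The modulus inequality** from the slack in a triple of quarters. -/
theorem ngv_of {a b c : ℕ} {cn : Con} (hc : con a b c = some cn) {κ x ex y y' g : ℝ}
    {r : ℝ × ℝ × ℝ} (h1 : InQ a y) (h2 : InQ b y') (h3 : InQ c (y + y'))
    (h : 0 ≤ slc cn ex (κ * h0) x (y - jq a) (y' - jq b) (y + y' - jq c) r.1 r.2.1 r.2.2 g) :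
    NGV κ (h0 * x) ex (h0 * y) (h0 * y') r := by
  have hp := h0_pos
  have e : h0 * y + h0 * y' = h0 * (y + y') := by ring
  have t1 := tau_q h1
  have t2 := tau_q h2
  have t3 := tau_q h3
  have j1 := jn_q h1
  have j2 := jn_q h2
  have j3 := jn_q h3
  have m0 : ∀ z : ℝ, 0 ≤ z → 0 ≤ h0 * z := fun z hz => mul_nonneg hp.le hz
  have m1 : ∀ z : ℝ, z ≤ 0 → h0 * z ≤ 0 := fun z hz => mul_nonpos_of_nonneg_of_nonpos hp.le hz
  have n1 : ∀ z : ℝ, -(h0 * z) = h0 * -z := fun z => by ring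
  rw [← e] at t3 j3
  match a, b, c, hc, h1, h2, h3, h, t1, t2, t3, j1, j2, j3 with
  | 0, 0, 1, hc, h1, h2, h3, h, t1, t2, t3, j1, j2, j3 =>
    obtain rfl := Option.some.inj hc
    refine .up (by rw [j1, j2, j3]; rfl) ?_
    rw [t1, t2, t3, n1]
    exact moW_of h
  | 0, 1, 1, hc, h1, h2, h3, h, t1, t2, t3, j1, j2, j3 =>
    obtain rfl := Option.some.inj hc
    obtain ⟨a1, a2⟩ := h1
    obtain ⟨b1, b2⟩ := h2
    obtain ⟨c1, c2⟩ := h3
    simp only [jq, Nat.cast_zero, Nat.cast_one, Nat.cast_ofNat, sub_zero] at t1 t2 t3 h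
    refine .pnn (by rw [j1, j2, j3]; rfl) (by rw [t1]; exact m0 _ (by linarith)) (by rw [t2]; exact m1 _ (by linarith)) (by rw [t3]; exact m1 _ (by linarith)) ?_
    rw [t3, t1, n1]
    exact moN_of (by linarith) (by linarith) h
  | 0, 1, 2, hc, h1, h2, h3, h, t1, t2, t3, j1, j2, j3 =>
    obtain rfl := Option.some.inj hc
    obtain ⟨a1, a2⟩ := h1
    obtain ⟨b1, b2⟩ := h2
    obtain ⟨c1, c2⟩ := h3
    simp only [jq, Nat.cast_zero, Nat.cast_one, Nat.cast_ofNat, sub_zero] at t1 t2 t3 h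
    refine .pnp (by rw [j1, j2, j3]; rfl) (by rw [t1]; exact m0 _ (by linarith)) (by rw [t2]; exact m1 _ (by linarith)) (by rw [t3]; exact m0 _ (by linarith)) ?_
    rw [t3, t2, n1]
    exact moN_of (by linarith) (by linarith) h
  | 0, 2, 2, hc, h1, h2, h3, h, t1, t2, t3, j1, j2, j3 =>
    obtain rfl := Option.some.inj hc
    obtain ⟨a1, a2⟩ := h1
    obtain ⟨b1, b2⟩ := h2
    obtain ⟨c1, c2⟩ := h3
    simp only [jq, Nat.cast_zero, Nat.cast_one, Nat.cast_ofNat, sub_zero] at t1 t2 t3 h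
    refine .pp (by rw [j1, j2, j3]; rfl) (by rw [t1]; exact m0 _ (by linarith)) (by rw [t2]; exact m0 _ (by linarith)) ?_
    rw [t1, t2]
    exact moN_of (by linarith) (by linarith) h
  | 0, 2, 3, hc, h1, h2, h3, h, t1, t2, t3, j1, j2, j3 =>
    obtain rfl := Option.some.inj hc
    refine .up (by rw [j1, j2, j3]; rfl) ?_
    rw [t1, t2, t3, n1]
    exact moW_of h
  | 0, 3, 3, hc, h1, h2, h3, h, t1, t2, t3, j1, j2, j3 =>
    obtain rfl := Option.some.inj hc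
    obtain ⟨a1, a2⟩ := h1
    obtain ⟨b1, b2⟩ := h2
    obtain ⟨c1, c2⟩ := h3
    simp only [jq, Nat.cast_zero, Nat.cast_one, Nat.cast_ofNat, sub_zero] at t1 t2 t3 h
    refine .pnn (by rw [j1, j2, j3]; rfl) (by rw [t1]; exact m0 _ (by linarith)) (by rw [t2]; exact m1 _ (by linarith)) (by rw [t3]; exact m1 _ (by linarith)) ?_
    rw [t3, t1, n1]
    exact moN_of (by linarith) (by linarith) h
  | 1, 0, 1, hc, h1, h2, h3, h, t1, t2, t3, j1, j2, j3 =>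
    obtain rfl := Option.some.inj hc
    obtain ⟨a1, a2⟩ := h1
    obtain ⟨b1, b2⟩ := h2
    obtain ⟨c1, c2⟩ := h3
    simp only [jq, Nat.cast_zero, Nat.cast_one, Nat.cast_ofNat, sub_zero] at t1 t2 t3 h
    refine .npn (by rw [j1, j2, j3]; rfl) (by rw [t1]; exact m1 _ (by linarith)) (by rw [t2]; exact m0 _ (by linarith)) (by rw [t3]; exact m1 _ (by linarith)) ?_
    rw [t2, t3, n1]
    exact moN_of (by linarith) (by linarith) h
  | 1, 0, 2, hc, h1, h2, h3, h, t1, t2, t3, j1, j2, j3 =>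
    obtain rfl := Option.some.inj hc
    obtain ⟨a1, a2⟩ := h1
    obtain ⟨b1, b2⟩ := h2
    obtain ⟨c1, c2⟩ := h3
    simp only [jq, Nat.cast_zero, Nat.cast_one, Nat.cast_ofNat, sub_zero] at t1 t2 t3 h
    refine .npp (by rw [j1, j2, j3]; rfl) (by rw [t1]; exact m1 _ (by linarith)) (by rw [t2]; exact m0 _ (by linarith)) (by rw [t3]; exact m0 _ (by linarith)) ?_
    rw [t1, t3, n1]
    exact moN_of (by linarith) (by linarith) h
  | 1, 1, 2, hc, h1, h2, h3, h, t1, t2, t3, j1, j2, j3 =>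
    obtain rfl := Option.some.inj hc
    refine .dn (by rw [j1, j2, j3]; rfl) ?_
    rw [t3, t2, t1, n1, n1]
    exact moW_of h
  | 1, 1, 3, hc, h1, h2, h3, h, t1, t2, t3, j1, j2, j3 =>
    obtain rfl := Option.some.inj hc
    obtain ⟨a1, a2⟩ := h1
    obtain ⟨b1, b2⟩ := h2
    obtain ⟨c1, c2⟩ := h3
    simp only [jq, Nat.cast_zero, Nat.cast_one, Nat.cast_ofNat, sub_zero] at t1 t2 t3 h
    refine .nn (by rw [j1, j2, j3]; rfl) (by rw [t1]; exact m1 _ (by linarith)) (by rw [t2]; exact m1 _ (by linarith)) ?_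
    rw [t1, t2, n1, n1]
    exact moN_of (by linarith) (by linarith) h
  | 1, 2, 3, hc, h1, h2, h3, h, t1, t2, t3, j1, j2, j3 =>
    obtain rfl := Option.some.inj hc
    obtain ⟨a1, a2⟩ := h1
    obtain ⟨b1, b2⟩ := h2
    obtain ⟨c1, c2⟩ := h3
    simp only [jq, Nat.cast_zero, Nat.cast_one, Nat.cast_ofNat, sub_zero] at t1 t2 t3 h
    refine .npn (by rw [j1, j2, j3]; rfl) (by rw [t1]; exact m1 _ (by linarith)) (by rw [t2]; exact m0 _ (by linarith)) (by rw [t3]; exact m1 _ (by linarith)) ?_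
    rw [t2, t3, n1]
    exact moN_of (by linarith) (by linarith) h
  | 1, 3, 3, hc, h1, h2, h3, h, t1, t2, t3, j1, j2, j3 =>
    obtain rfl := Option.some.inj hc
    refine .dn (by rw [j1, j2, j3]; rfl) ?_
    rw [t3, t2, t1, n1, n1]
    exact moW_of h
  | 2, 0, 2, hc, h1, h2, h3, h, t1, t2, t3, j1, j2, j3 =>
    obtain rfl := Option.some.inj hc
    obtain ⟨a1, a2⟩ := h1
    obtain ⟨b1, b2⟩ := h2
    obtain ⟨c1, c2⟩ := h3
    simp only [jq, Nat.cast_zero, Nat.cast_one, Nat.cast_ofNat, sub_zero] at t1 t2 t3 h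
    refine .pp (by rw [j1, j2, j3]; rfl) (by rw [t1]; exact m0 _ (by linarith)) (by rw [t2]; exact m0 _ (by linarith)) ?_
    rw [t1, t2]
    exact moN_of (by linarith) (by linarith) h
  | 2, 0, 3, hc, h1, h2, h3, h, t1, t2, t3, j1, j2, j3 =>
    obtain rfl := Option.some.inj hc
    refine .up (by rw [j1, j2, j3]; rfl) ?_
    rw [t1, t2, t3, n1]
    exact moW_of h
  | 2, 1, 3, hc, h1, h2, h3, h, t1, t2, t3, j1, j2, j3 =>
    obtain rfl := Option.some.inj hc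
    obtain ⟨a1, a2⟩ := h1
    obtain ⟨b1, b2⟩ := h2
    obtain ⟨c1, c2⟩ := h3
    simp only [jq, Nat.cast_zero, Nat.cast_one, Nat.cast_ofNat, sub_zero] at t1 t2 t3 h
    refine .pnn (by rw [j1, j2, j3]; rfl) (by rw [t1]; exact m0 _ (by linarith)) (by rw [t2]; exact m1 _ (by linarith)) (by rw [t3]; exact m1 _ (by linarith)) ?_
    rw [t3, t1, n1]
    exact moN_of (by linarith) (by linarith) h
  | 3, 0, 3, hc, h1, h2, h3, h, t1, t2, t3, j1, j2, j3 =>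
    obtain rfl := Option.some.inj hc
    obtain ⟨a1, a2⟩ := h1
    obtain ⟨b1, b2⟩ := h2
    obtain ⟨c1, c2⟩ := h3
    simp only [jq, Nat.cast_zero, Nat.cast_one, Nat.cast_ofNat, sub_zero] at t1 t2 t3 h
    refine .npn (by rw [j1, j2, j3]; rfl) (by rw [t1]; exact m1 _ (by linarith)) (by rw [t2]; exact m0 _ (by linarith)) (by rw [t3]; exact m1 _ (by linarith)) ?_
    rw [t2, t3, n1]
    exact moN_of (by linarith) (by linarith) h
  | 3, 1, 3, hc, h1, h2, h3, h, t1, t2, t3, j1, j2, j3 =>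
    obtain rfl := Option.some.inj hc
    refine .dn (by rw [j1, j2, j3]; rfl) ?_
    rw [t3, t2, t1, n1, n1]
    exact moW_of h

end Pool.Agent.Strip051.PB
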