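import Pool.Agent.Strip051.PB.Fn

/-! # Pairs of values with a multiple of their difference

`Pr E N A B D a b`: the packed forms `A`, `B` enclose `a`, `b`, and `a - b = N * d` for a number
`d` which is enclosed by `D`. The companions `Sl1`, `Sl2`, `Sl3` of the functions with enclosures
compute `D`. -/

namespace Pool.Agent.Strip051.PB

attribute [local irreducible] padd psub pneg pmul psq pinv psqrt psqrtg pabs pps pmax pmin pphi plam
  pcase phf pnat prat pscale pnorm pdc pnc pone ppos pnn Enc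

/-- A pair of values with the quotient of their difference by `N`. -/
structure Pr (E : Pt) (N : ℝ) (A B D : ℕ) (a b : ℝ) : Prop where
  l : Enc E A a
  r : Enc E B b
  d : ∃ d, Enc E D d ∧ a - b = N * d

/-- `X` if the test holds -/
noncomputable def pg (c : Bool) (X : ℕ) : ℕ := Bool.rec (motive := fun _ => ℕ) pbad X c

/-- choice by the signs of two numbers: both not positive or both positive -/
noncomputable def pch (C C' X Y : ℕ) : ℕ :=
  Bool.rec (motive := fun _ => ℕ) (pg (band (ppos C) (ppos C')) Y) X (band (pnp C) (pnp C'))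

section

variable {E : Pt} {N : ℝ} {A B D A' B' D' C C' : ℕ} {a b a' b' c c' : ℝ}

theorem pg_enc {t : Bool} {X : ℕ} {v : ℝ} (h : t = true → Enc E X v) :
    Enc E (pg t X) v := by
  cases t
  · exact enc_pbad E v
  · exact h rfl

/-- the slope under a test -/
theorem pg_slope {t : Bool} {X : ℕ} (hd : ∃ d, Enc E X d ∧ (t = true → a - b = N * d))
    (h0 : N = 0 → a = b) : ∃ d, Enc E (pg t X) d ∧ a - b = N * d := by
  obtain ⟨d, h1, h2⟩ := hd
  cases t
  · by_cases hN : N = 0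
    · exact ⟨0, enc_pbad E _, by rw [h0 hN]; ring⟩
    · exact ⟨(a - b) / N, enc_pbad E _, by field_simp⟩
  · exact ⟨d, h1, h2 rfl⟩

theorem Pr.eq0 (h : Pr E N A B D a b) (hN : N = 0) : a = b := by
  obtain ⟨d, -, e⟩ := h.d
  rw [hN, zero_mul] at e
  linarith

/-- a constant -/
theorem pr_const (h : Enc E C c) : Pr E N C C pzero c c :=
  ⟨h, h, 0, enc_zero E, by ring⟩

/-- the variable -/
theorem pr_var (ha : Enc E A a) (hb : Enc E B b) (h : a - b = N) : Pr E N A B pone a b :=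
  ⟨ha, hb, 1, enc_one E, by rw [h, mul_one]⟩

theorem pr_lin (ha : Enc E A a) (hb : Enc E B b) (hd : Enc E D c) (h : a - b = N * c) :
    Pr E N A B D a b := ⟨ha, hb, c, hd, h⟩

theorem pr_add (h : Pr E N A B D a b) (h' : Pr E N A' B' D' a' b') :
    Pr E N (padd A A') (padd B B') (padd D D') (a + a') (b + b') := by
  obtain ⟨d, k, e⟩ := h.d
  obtain ⟨d', k', e'⟩ := h'.d
  exact ⟨enc_add h.l h'.l, enc_add h.r h'.r, d + d', enc_add k k', by linear_combination e + e'⟩

theorem pr_addc (h : Pr E N A B D a b) (hc : Enc E C c) :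
    Pr E N (padd A C) (padd B C) D (a + c) (b + c) := by
  obtain ⟨d, k, e⟩ := h.d
  exact ⟨enc_add h.l hc, enc_add h.r hc, d, k, by linear_combination e⟩

theorem pr_cadd (hc : Enc E C c) (h : Pr E N A B D a b) :
    Pr E N (padd C A) (padd C B) D (c + a) (c + b) := by
  obtain ⟨d, k, e⟩ := h.d
  exact ⟨enc_add hc h.l, enc_add hc h.r, d, k, by linear_combination e⟩

theorem pr_sub (h : Pr E N A B D a b) (h' : Pr E N A' B' D' a' b') :
    Pr E N (psub A A') (psub B B') (psub D D') (a - a') (b - b') := by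
  obtain ⟨d, k, e⟩ := h.d
  obtain ⟨d', k', e'⟩ := h'.d
  exact ⟨enc_sub h.l h'.l, enc_sub h.r h'.r, d - d', enc_sub k k', by linear_combination e - e'⟩

theorem pr_subc (h : Pr E N A B D a b) (hc : Enc E C c) :
    Pr E N (psub A C) (psub B C) D (a - c) (b - c) := by
  obtain ⟨d, k, e⟩ := h.d
  exact ⟨enc_sub h.l hc, enc_sub h.r hc, d, k, by linear_combination e⟩

/-- difference with a natural number -/
theorem pr_subn (n : ℕ) (h : Pr E N A B D a b) :
    Pr E N (padd A (pneg (pnc n))) (padd B (pneg (pnc n))) D (a - n) (b - n) := by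
  obtain ⟨d, k, e⟩ := h.d
  exact ⟨enc_subn n h.l, enc_subn n h.r, d, k, by linear_combination e⟩

/-- difference with a quotient -/
theorem pr_subr (n m : ℕ) (h : Pr E N A B D a b) :
    Pr E N (padd A (pneg (prat n m))) (padd B (pneg (prat n m))) D (a - (n : ℝ) / m)
      (b - (n : ℝ) / m) := by
  obtain ⟨d, k, e⟩ := h.d
  exact ⟨enc_subr n m h.l, enc_subr n m h.r, d, k, by linear_combination e⟩

theorem pr_csub (hc : Enc E C c) (h : Pr E N A B D a b) :
    Pr E N (psub C A) (psub C B) (pneg D) (c - a) (c - b) := by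
  obtain ⟨d, k, e⟩ := h.d
  exact ⟨enc_sub hc h.l, enc_sub hc h.r, -d, enc_neg k, by linear_combination -e⟩

theorem pr_neg (h : Pr E N A B D a b) : Pr E N (pneg A) (pneg B) (pneg D) (-a) (-b) := by
  obtain ⟨d, k, e⟩ := h.d
  exact ⟨enc_neg h.l, enc_neg h.r, -d, enc_neg k, by linear_combination -e⟩

theorem pr_mul (h : Pr E N A B D a b) (h' : Pr E N A' B' D' a' b') :
    Pr E N (pmul A A') (pmul B B') (padd (pmul A D') (pmul D B')) (a * a') (b * b') := by
  obtain ⟨d, k, e⟩ := h.d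
  obtain ⟨d', k', e'⟩ := h'.d
  exact ⟨enc_mul h.l h'.l, enc_mul h.r h'.r, a * d' + d * b',
    enc_add (enc_mul h.l k') (enc_mul k h'.r), by linear_combination a * e' + b' * e⟩

theorem pr_mulc (h : Pr E N A B D a b) (hc : Enc E C c) :
    Pr E N (pmul A C) (pmul B C) (pmul D C) (a * c) (b * c) := by
  obtain ⟨d, k, e⟩ := h.d
  exact ⟨enc_mul h.l hc, enc_mul h.r hc, d * c, enc_mul k hc, by linear_combination c * e⟩

theorem pr_cmul (hc : Enc E C c) (h : Pr E N A B D a b) :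
    Pr E N (pmul C A) (pmul C B) (pmul C D) (c * a) (c * b) := by
  obtain ⟨d, k, e⟩ := h.d
  exact ⟨enc_mul hc h.l, enc_mul hc h.r, c * d, enc_mul hc k, by linear_combination c * e⟩

theorem pr_sq (h : Pr E N A B D a b) :
    Pr E N (psq A) (psq B) (pmul D (padd A B)) (a ^ 2) (b ^ 2) := by
  obtain ⟨d, k, e⟩ := h.d
  exact ⟨enc_sq h.l, enc_sq h.r, d * (a + b), enc_mul k (enc_add h.l h.r),
    by linear_combination (a + b) * e⟩

theorem pr_half (h : Pr E N A B D a b) : Pr E N (phf A) (phf B) (phf D) (a / 2) (b / 2) := by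
  obtain ⟨d, k, e⟩ := h.d
  exact ⟨enc_half h.l, enc_half h.r, d / 2, enc_half k, by linear_combination e / 2⟩

theorem pr_nat (n : ℕ) (h : Pr E N A B D a b) :
    Pr E N (pnat n A) (pnat n B) (pnat n D) ((n : ℝ) * a) ((n : ℝ) * b) := by
  obtain ⟨d, k, e⟩ := h.d
  exact ⟨enc_nat n h.l, enc_nat n h.r, (n : ℝ) * d, enc_nat n k, by linear_combination (n : ℝ) * e⟩

theorem pr_scale (n m : ℕ) (h : Pr E N A B D a b) :
    Pr E N (pscale n m A) (pscale n m B) (pscale n m D) ((n : ℝ) / m * a) ((n : ℝ) / m * b) := by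
  obtain ⟨d, k, e⟩ := h.d
  exact ⟨enc_scale n m h.l, enc_scale n m h.r, (n : ℝ) / m * d, enc_scale n m k,
    by linear_combination (n : ℝ) / m * e⟩

/-- recomputation of the bounds -/
theorem pr_norm (h : Pr E N A B D a b) : Pr E N (pnorm A) (pnorm B) (pnorm D) a b := by
  obtain ⟨d, k, e⟩ := h.d
  exact ⟨enc_norm h.l, enc_norm h.r, d, enc_norm k, e⟩

/-- recomputation of the bounds of the slope -/
theorem pr_nd (h : Pr E N A B D a b) : Pr E N A B (pnorm D) a b := by
  obtain ⟨d, k, e⟩ := h.d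
  exact ⟨h.l, h.r, d, enc_norm k, e⟩

theorem pr_inv (h : Pr E N A B D a b) :
    Pr E N (pinv A) (pinv B) (pg (band (ppos (pabs A)) (ppos (pabs B)))
      (pneg (pmul (pnorm D) (pmul (pinv A) (pinv B))))) (a⁻¹) (b⁻¹) := by
  obtain ⟨d, k, e⟩ := h.d
  refine ⟨enc_inv h.l, enc_inv h.r, pg_slope ⟨-(d * (a⁻¹ * b⁻¹)),
    enc_neg (enc_mul (enc_norm k) (enc_mul (enc_inv h.l) (enc_inv h.r))), fun ht => ?_⟩
    (fun hN => by rw [h.eq0 hN])⟩
  obtain ⟨t1, t2⟩ := band_true ht
  have h1 := abs_pos.1 (ppos_sound (enc_abs h.l) t1)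
  have h2 := abs_pos.1 (ppos_sound (enc_abs h.r) t2)
  field_simp
  linear_combination -e

theorem sqrt_slope {a b N d : ℝ} (ha : 0 < a) (hb : 0 < b) (e : a - b = N * d) :
    √a - √b = N * (d * (√a + √b)⁻¹) := by
  have h1 := Real.sqrt_pos.2 ha
  have h2 := Real.sqrt_pos.2 hb
  have h3 := Real.sq_sqrt ha.le
  have h4 := Real.sq_sqrt hb.le
  have h5 : √a + √b ≠ 0 := by linarith
  field_simp
  linear_combination h3 - h4 + e

theorem pr_sqrt (h : Pr E N A B D a b) :
    Pr E N (psqrt A) (psqrt B) (pg (band (ppos A) (ppos B))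
      (pmul (pnorm D) (pinv (padd (psqrt A) (psqrt B))))) (√a) (√b) := by
  obtain ⟨d, k, e⟩ := h.d
  refine ⟨enc_sqrt h.l, enc_sqrt h.r, pg_slope ⟨d * (√a + √b)⁻¹,
    enc_mul (enc_norm k) (enc_inv (enc_add (enc_sqrt h.l) (enc_sqrt h.r))), fun ht => ?_⟩
    (fun hN => by rw [h.eq0 hN])⟩
  obtain ⟨t1, t2⟩ := band_true ht
  exact sqrt_slope (ppos_sound h.l t1) (ppos_sound h.r t2) e

theorem pr_sqrtg (h : Pr E N A B D a b) :
    Pr E N (psqrtg A) (psqrtg B) (pg (band (ppos A) (ppos B))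
      (pmul (pnorm D) (pinv (padd (psqrtg A) (psqrtg B))))) (√a) (√b) := by
  obtain ⟨d, k, e⟩ := h.d
  refine ⟨enc_sqrtg h.l, enc_sqrtg h.r, pg_slope ⟨d * (√a + √b)⁻¹,
    enc_mul (enc_norm k) (enc_inv (enc_add (enc_sqrtg h.l) (enc_sqrtg h.r))), fun ht => ?_⟩
    (fun hN => by rw [h.eq0 hN])⟩
  obtain ⟨t1, t2⟩ := band_true ht
  exact sqrt_slope (ppos_sound h.l t1) (ppos_sound h.r t2) e

theorem pr_abs (h : Pr E N A B D a b) :
    Pr E N (pabs A) (pabs B) (pch A B (pneg D) D) |a| |b| := by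
  obtain ⟨d, k, e⟩ := h.d
  refine ⟨enc_abs h.l, enc_abs h.r, ?_⟩
  unfold pch
  rcases hb : band (pnp A) (pnp B) with _ | _
  · refine pg_slope ⟨d, k, fun ht => ?_⟩ (fun hN => by rw [h.eq0 hN])
    obtain ⟨t1, t2⟩ := band_true ht
    rw [abs_of_pos (ppos_sound h.l t1), abs_of_pos (ppos_sound h.r t2), e]
  · obtain ⟨t1, t2⟩ := band_true hb
    refine ⟨-d, enc_neg k, ?_⟩
    rw [abs_of_nonpos (pnp_sound h.l t1), abs_of_nonpos (pnp_sound h.r t2)]
    linear_combination -e

theorem pr_pos (h : Pr E N A B D a b) :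
    Pr E N (pps A) (pps B) (pch A B pzero D) (max a 0) (max b 0) := by
  obtain ⟨d, k, e⟩ := h.d
  refine ⟨enc_pos h.l, enc_pos h.r, ?_⟩
  unfold pch
  rcases hb : band (pnp A) (pnp B) with _ | _
  · refine pg_slope ⟨d, k, fun ht => ?_⟩ (fun hN => by rw [h.eq0 hN])
    obtain ⟨t1, t2⟩ := band_true ht
    rw [max_eq_left (ppos_sound h.l t1).le, max_eq_left (ppos_sound h.r t2).le, e]
  · obtain ⟨t1, t2⟩ := band_true hb
    refine ⟨0, enc_zero E, ?_⟩
    rw [max_eq_right (pnp_sound h.l t1), max_eq_right (pnp_sound h.r t2)]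
    ring

/-- the choice, `c` and `c'` the conditions at the two points -/
theorem pr_case' (hc : Enc E C c) (hc' : Enc E C' c') (h : Pr E N A B D a b)
    (h' : Pr E N A' B' D' a' b') (h0 : N = 0 → c = c') :
    Pr E N (pcase C A A') (pcase C' B B') (pch C C' D D') (if c ≤ 0 then a else a')
      (if c' ≤ 0 then b else b') := by
  obtain ⟨d, k, e⟩ := h.d
  obtain ⟨d', k', e'⟩ := h'.d
  refine ⟨enc_case hc h.l h'.l, enc_case hc' h.r h'.r, ?_⟩
  unfold pch
  rcases hb : band (pnp C) (pnp C') with _ | _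
  · refine pg_slope ⟨d', k', fun ht => ?_⟩ (fun hN => by rw [h.eq0 hN, h'.eq0 hN, h0 hN])
    obtain ⟨t1, t2⟩ := band_true ht
    rw [if_neg (not_le.2 (ppos_sound hc t1)), if_neg (not_le.2 (ppos_sound hc' t2)), e']
  · obtain ⟨t1, t2⟩ := band_true hb
    refine ⟨d, k, ?_⟩
    rw [if_pos (pnp_sound hc t1), if_pos (pnp_sound hc' t2), e]

variable {A2 B2 D2 : ℕ} {a2 b2 : ℝ}

/-- condition, both branches variable -/
theorem pr_case (hc : Pr E N A2 B2 D2 a2 b2) (h : Pr E N A B D a b)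
    (h' : Pr E N A' B' D' a' b') :
    Pr E N (pcase A2 A A') (pcase B2 B B') (pch A2 B2 D D') (if a2 ≤ 0 then a else a')
      (if b2 ≤ 0 then b else b') := pr_case' hc.l hc.r h h' hc.eq0

/-- constant condition -/
theorem pr_ccase (hc : Enc E C c) (h : Pr E N A B D a b) (h' : Pr E N A' B' D' a' b') :
    Pr E N (pcase C A A') (pcase C B B') (pch C C D D') (if c ≤ 0 then a else a')
      (if c ≤ 0 then b else b') := pr_case' hc hc h h' (fun _ => rfl)

/-- second branch constant -/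
theorem pr_casec (hc : Pr E N A2 B2 D2 a2 b2) (h : Pr E N A B D a b) (h' : Enc E C c) :
    Pr E N (pcase A2 A C) (pcase B2 B C) (pch A2 B2 D pzero) (if a2 ≤ 0 then a else c)
      (if b2 ≤ 0 then b else c) := pr_case hc h (pr_const h')

/-- first branch constant -/
theorem pr_casec1 (hc : Pr E N A2 B2 D2 a2 b2) (h : Enc E C c) (h' : Pr E N A' B' D' a' b') :
    Pr E N (pcase A2 C A') (pcase B2 C B') (pch A2 B2 pzero D') (if a2 ≤ 0 then c else a')
      (if b2 ≤ 0 then c else b') := pr_case hc (pr_const h) h'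

/-- both branches constant -/
theorem pr_casecc (hc : Pr E N A2 B2 D2 a2 b2) (h : Enc E C c) (h' : Enc E C' c') :
    Pr E N (pcase A2 C C') (pcase B2 C C') (pch A2 B2 pzero pzero) (if a2 ≤ 0 then c else c')
      (if b2 ≤ 0 then c else c') := pr_case hc (pr_const h) (pr_const h')

end

/-! ### Companions -/

/-- The slope of a function of one variable. -/
structure Sl1 (F : Fn1) where
  s : ℕ → ℕ → ℕ → ℕ
  snd : ∀ {E : Pt} {N : ℝ} {A B D : ℕ} {a b : ℝ}, Pr E N A B D a b →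
    Pr E N (F.t A) (F.t B) (s A B D) (F.v a) (F.v b)

/-- The slope in the first variable, the second one is constant. -/
structure Sl2 (F : Fn2) where
  s : ℕ → ℕ → ℕ → ℕ → ℕ
  snd : ∀ {E : Pt} {N : ℝ} {A B D C : ℕ} {a b c : ℝ}, Pr E N A B D a b → Enc E C c →
    Pr E N (F.t A C) (F.t B C) (s A B D C) (F.v a c) (F.v b c)

/-- The slope in both variables. -/
structure Sl2v (F : Fn2) where
  s : ℕ → ℕ → ℕ → ℕ → ℕ → ℕ → ℕ
  snd : ∀ {E : Pt} {N : ℝ} {A B D A' B' D' : ℕ} {a b a' b' : ℝ}, Pr E N A B D a b →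
    Pr E N A' B' D' a' b' →
    Pr E N (F.t A A') (F.t B B') (s A B D A' B' D') (F.v a a') (F.v b b')

/-- The slope in the first two variables, the third one is constant. -/
structure Sl3 (F : Fn3) where
  s : ℕ → ℕ → ℕ → ℕ → ℕ → ℕ → ℕ → ℕ
  snd : ∀ {E : Pt} {N : ℝ} {A B D A' B' D' C : ℕ} {a b a' b' c : ℝ}, Pr E N A B D a b →
    Pr E N A' B' D' a' b' → Enc E C c →
    Pr E N (F.t A A' C) (F.t B B' C) (s A B D A' B' D' C) (F.v a a' c) (F.v b b' c)

end Pool.Agent.Strip051.PB
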