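import Pool.Agent.Strip051.Box.Base

/-! # Packed first-order arithmetic in three variables

An affine form with remainder is one natural number `T = V + 2^1152 H`: the four coefficients are
the fields of `V` modulo `2^576` (at the positions `0, 288, 384, 480`), and
`H = R + 2^96 q + 2^192 a + 2^480 m` holds the remainder `R`, a bound `q` of the total radius, a
bound `a` of the magnitude and a counter `m` which excludes overflows. Addition is one `Nat.add`,
and one `Nat.mul` computes the coefficients and the remainder of a product. -/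

set_option exponentiation.threshold 3000
set_option maxRecDepth 20000

namespace Pool.Agent.Strip051.PB

/-! ### Fields of naturals -/

theorem land_split {k : ℕ} (x a b : ℕ) (ha : a < 2 ^ k) :
    x &&& (a + 2 ^ k * b) = (x % 2 ^ k &&& a) + 2 ^ k * (x / 2 ^ k &&& b) := by
  have h1 : (x &&& (a + 2 ^ k * b)) % 2 ^ k = (x % 2 ^ k &&& a) := by
    rw [Nat.and_mod_two_pow]
    congr 1
    rw [Nat.add_mul_mod_self_left, Nat.mod_eq_of_lt ha]
  have h2 : (x &&& (a + 2 ^ k * b)) / 2 ^ k = (x / 2 ^ k &&& b) := by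
    rw [Nat.and_div_two_pow]
    congr 1
    rw [Nat.add_mul_div_left _ _ (by positivity), Nat.div_eq_of_lt ha, zero_add]
  rw [← h1, ← h2]
  exact (Nat.mod_add_div _ _).symm

theorem fields {W u0 u1 u2 u3 K : ℕ} (h0 : u0 < 2 ^ 96) (h1 : u1 < 2 ^ 96) (h2 : u2 < 2 ^ 96)
    (h3 : u3 < 2 ^ 96)
    (hW : W = u0 + 2 ^ 288 * u1 + 2 ^ 384 * u2 + 2 ^ 480 * u3 + 2 ^ 576 * K) :
    W / 2 ^ 30 &&& ((2 ^ 66 - 1) * (1 + 2 ^ 288 + 2 ^ 384 + 2 ^ 480)) =
      u0 / 2 ^ 30 + 2 ^ 288 * (u1 / 2 ^ 30) + 2 ^ 384 * (u2 / 2 ^ 30) + 2 ^ 480 * (u3 / 2 ^ 30) := by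
  have e : (2 ^ 66 - 1) * (1 + 2 ^ 288 + 2 ^ 384 + 2 ^ 480) =
      (2 ^ 66 - 1) + 2 ^ 288 * ((2 ^ 66 - 1) + 2 ^ 96 * ((2 ^ 66 - 1) + 2 ^ 96 * (2 ^ 66 - 1))) := by
    norm_num
  rw [e, land_split _ _ _ (by norm_num), land_split _ _ _ (by norm_num),
    land_split _ _ _ (by norm_num)]
  rw [Nat.and_two_pow_sub_one_eq_mod, Nat.and_two_pow_sub_one_eq_mod, Nat.and_two_pow_sub_one_eq_mod,
    Nat.and_two_pow_sub_one_eq_mod]
  have a1 : W / 2 ^ 30 % 2 ^ 288 % 2 ^ 66 = u0 / 2 ^ 30 := by subst hW; omega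
  have a2 : W / 2 ^ 30 / 2 ^ 288 % 2 ^ 96 % 2 ^ 66 = u1 / 2 ^ 30 := by subst hW; omega
  have a3 : W / 2 ^ 30 / 2 ^ 288 / 2 ^ 96 % 2 ^ 96 % 2 ^ 66 = u2 / 2 ^ 30 := by subst hW; omega
  have a4 : W / 2 ^ 30 / 2 ^ 288 / 2 ^ 96 / 2 ^ 96 % 2 ^ 66 = u3 / 2 ^ 30 := by subst hW; omega
  rw [a1, a2, a3, a4]
  ring

theorem lanes {W l0 l1 l2 l3 l4 K : ℕ} (h0 : l0 < 2 ^ 96) (h1 : l1 < 2 ^ 96) (h2 : l2 < 2 ^ 96)
    (h3 : l3 < 2 ^ 96) (h4 : l4 < 2 ^ 96)
    (hW : W = l0 + 2 ^ 96 * l1 + 2 ^ 192 * l2 + 2 ^ 288 * l3 + 2 ^ 384 * l4 + 2 ^ 480 * K) :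
    W / 2 ^ 222 &&& ((2 ^ 66 - 1) * (1 + 2 ^ 96 + 2 ^ 192)) =
      l2 / 2 ^ 30 + 2 ^ 96 * (l3 / 2 ^ 30) + 2 ^ 192 * (l4 / 2 ^ 30) := by
  have e : (2 ^ 66 - 1) * (1 + 2 ^ 96 + 2 ^ 192) =
      (2 ^ 66 - 1) + 2 ^ 96 * ((2 ^ 66 - 1) + 2 ^ 96 * (2 ^ 66 - 1)) := by
    norm_num
  rw [e, land_split _ _ _ (by norm_num), land_split _ _ _ (by norm_num)]
  rw [Nat.and_two_pow_sub_one_eq_mod, Nat.and_two_pow_sub_one_eq_mod, Nat.and_two_pow_sub_one_eq_mod]
  have a1 : W / 2 ^ 222 % 2 ^ 96 % 2 ^ 66 = l2 / 2 ^ 30 := by subst hW; omega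
  have a2 : W / 2 ^ 222 / 2 ^ 96 % 2 ^ 96 % 2 ^ 66 = l3 / 2 ^ 30 := by subst hW; omega
  have a3 : W / 2 ^ 222 / 2 ^ 96 / 2 ^ 96 % 2 ^ 66 = l4 / 2 ^ 30 := by subst hW; omega
  rw [a1, a2, a3]
  ring

/-! ### Enclosures -/

/-- the unit -/
def S : ℕ := 1073741824

theorem hS : 0 < S := by unfold S; norm_num

theorem S_eq : S = 2 ^ 30 := by unfold S; norm_num

theorem S_real : (S : ℝ) = 2 ^ 30 := by rw [S_eq]; norm_num

/-- A point of the unit cube. -/
structure Pt where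
  (e1 e2 e3 : ℝ)
  (h1 : |e1| ≤ 1)
  (h2 : |e2| ≤ 1)
  (h3 : |e3| ≤ 1)

/-- integer with four fields -/
def pk (c0 c1 c2 c3 : ℤ) : ℤ := c0 + 2 ^ 288 * c1 + 2 ^ 384 * c2 + 2 ^ 480 * c3

/-- `T` represents the affine form with coefficients `c0, c1, c2, c3` and remainder `r`. -/
structure Rep (E : Pt) (T : ℕ) (v : ℝ) (c0 c1 c2 c3 : ℤ) (V R q a m : ℕ) (r : ℝ) : Prop where
  dec : T = V + 2 ^ 1152 * (R + 2 ^ 96 * q + 2 ^ 192 * a + 2 ^ 480 * m)
  hV : V + 2 ^ 576 ≤ 2 ^ 577 * m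
  cong : (2 ^ 576 : ℤ) ∣ (V : ℤ) - pk c0 c1 c2 c3
  hR : R ≤ 2 ^ 60 * m
  hq : q ≤ 2 ^ 60 * m
  ha : a ≤ 2 ^ 60 * m
  err : |(S : ℝ) * v - (c0 + (c1 * E.e1 + c2 * E.e2 + c3 * E.e3))| ≤ r
  rR : r ≤ R
  eq : |(c1 : ℝ)| + |(c2 : ℝ)| + |(c3 : ℝ)| + r ≤ q
  ea : |(c0 : ℝ)| + (|(c1 : ℝ)| + |(c2 : ℝ)| + |(c3 : ℝ)| + r) ≤ a

/-- `T` encloses `v` at the point `E` of the unit cube (`v` in units of `1 / S`). -/
def Enc (E : Pt) (T : ℕ) (v : ℝ) : Prop :=
  T < 2 ^ 1662 → ∃ (c0 c1 c2 c3 : ℤ) (V R q a m : ℕ) (r : ℝ), Rep E T v c0 c1 c2 c3 V R q a m r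

theorem enc_bad (E : Pt) {T : ℕ} (v : ℝ) (h : 2 ^ 1662 ≤ T) : Enc E T v := fun h' =>
  absurd h' (not_lt.mpr h)

/-! ### Addition -/

def padd (X Y : ℕ) : ℕ := Nat.add X Y

theorem enc_add {E : Pt} {X Y : ℕ} {v w : ℝ} (hX : Enc E X v) (hY : Enc E Y w) :
    Enc E (padd X Y) (v + w) := by
  intro hT
  have hT' : X + Y < 2 ^ 1662 := hT
  obtain ⟨c0, c1, c2, c3, V, R, q, a, m, r, h⟩ := hX (by omega)
  obtain ⟨d0, d1, d2, d3, V', R', q', a', m', r', h'⟩ := hY (by omega)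
  have g1 := h.hV
  have g2 := h'.hV
  have g3 := h.hR
  have g4 := h'.hR
  have g5 := h.hq
  have g6 := h'.hq
  have g7 := h.ha
  have g8 := h'.ha
  refine ⟨c0 + d0, c1 + d1, c2 + d2, c3 + d3, V + V', R + R', q + q', a + a', m + m', r + r',
    ⟨?_, by omega, ?_, by omega, by omega, by omega, ?_, ?_, ?_, ?_⟩⟩
  · change X + Y = _
    rw [h.dec, h'.dec]; ring
  · have e : ((V + V' : ℕ) : ℤ) - pk (c0 + d0) (c1 + d1) (c2 + d2) (c3 + d3) =
        ((V : ℤ) - pk c0 c1 c2 c3) + ((V' : ℤ) - pk d0 d1 d2 d3) := by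
      unfold pk; push_cast; ring
    rw [e]
    exact dvd_add h.cong h'.cong
  · have h1 := h.err
    have h2 := h'.err
    push_cast
    rw [abs_le] at h1 h2 ⊢
    constructor <;> nlinarith [h1.1, h1.2, h2.1, h2.2]
  · push_cast; linarith [h.rR, h'.rR]
  · push_cast
    linarith [h.eq, h'.eq, abs_add_le (c1 : ℝ) d1, abs_add_le (c2 : ℝ) d2, abs_add_le (c3 : ℝ) d3]
  · push_cast
    linarith [h.ea, h'.ea, abs_add_le (c1 : ℝ) d1, abs_add_le (c2 : ℝ) d2, abs_add_le (c3 : ℝ) d3,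
      abs_add_le (c0 : ℝ) d0]

theorem mod_of_dec {T V Z : ℕ} (h : T = V + 2 ^ 1152 * Z) : T % 2 ^ 576 = V % 2 ^ 576 := by
  subst h; omega

theorem land_low (Y : ℕ) : Nat.land Y 0xffffffffffffffffffffffffffffffffffffffffffffffffffffffffffffffffffffffffffffffffffffffffffffffffffffffffffffffffffffffffffffffffffffffffffffffff = Y % 2 ^ 576 := by
  have h : Nat.land Y 0xffffffffffffffffffffffffffffffffffffffffffffffffffffffffffffffffffffffffffffffffffffffffffffffffffffffffffffffffffffffffffffffffffffffffffffffff = Y &&& (2 ^ 576 - 1) := by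
    have : (0xffffffffffffffffffffffffffffffffffffffffffffffffffffffffffffffffffffffffffffffffffffffffffffffffffffffffffffffffffffffffffffffffffffffffffffffff : ℕ) = 2 ^ 576 - 1 := by norm_num
    rw [this]; rfl
  rw [h, Nat.and_two_pow_sub_one_eq_mod]

def psub (X Y : ℕ) : ℕ := Nat.sub (Nat.add X (Nat.add Y 0x1000000000000000000000000000000000000000000000000000000000000000000000000000000000000000000000000000000000000000000000000000000000000000000000000)) (Nat.mul 2 (Nat.land Y 0xffffffffffffffffffffffffffffffffffffffffffffffffffffffffffffffffffffffffffffffffffffffffffffffffffffffffffffffffffffffffffffffffffffffffffffffff))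

theorem psub_eq (X Y : ℕ) : psub X Y = X + (Y + 2 ^ 576) - 2 * (Y % 2 ^ 576) := by
  have h : psub X Y = X + (Y + 0x1000000000000000000000000000000000000000000000000000000000000000000000000000000000000000000000000000000000000000000000000000000000000000000000000) - 2 * Nat.land Y 0xffffffffffffffffffffffffffffffffffffffffffffffffffffffffffffffffffffffffffffffffffffffffffffffffffffffffffffffffffffffffffffffffffffffffffffffff := rfl
  rw [h, land_low]
  have : (0x1000000000000000000000000000000000000000000000000000000000000000000000000000000000000000000000000000000000000000000000000000000000000000000000000 : ℕ) = 2 ^ 576 := by norm_num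
  rw [this]

theorem enc_sub {E : Pt} {X Y : ℕ} {v w : ℝ} (hX : Enc E X v) (hY : Enc E Y w) :
    Enc E (psub X Y) (v - w) := by
  rw [psub_eq]
  intro hT
  obtain ⟨c0, c1, c2, c3, V, R, q, a, m, r, h⟩ := hX (by omega)
  obtain ⟨d0, d1, d2, d3, V', R', q', a', m', r', h'⟩ := hY (by omega)
  have g1 := h.hV
  have g2 := h'.hV
  have g3 := h.hR
  have g4 := h'.hR
  have g5 := h.hq
  have g6 := h'.hq
  have g7 := h.ha
  have g8 := h'.ha
  have hm := mod_of_dec h'.dec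
  refine ⟨c0 - d0, c1 - d1, c2 - d2, c3 - d3, V + (V' + 2 ^ 576) - 2 * (V' % 2 ^ 576), R + R',
    q + q', a + a', m + m', r + r', ⟨?_, by omega, ?_, by omega, by omega, by omega, ?_, ?_, ?_, ?_⟩⟩
  · rw [hm, h.dec, h'.dec]; omega
  · have e1 : ((V + (V' + 2 ^ 576) - 2 * (V' % 2 ^ 576) : ℕ) : ℤ) =
        (V : ℤ) + V' + 2 ^ 576 - 2 * ((V' : ℤ) % 2 ^ 576) := by omega
    have e2 : (V' : ℤ) % 2 ^ 576 = V' - 2 ^ 576 * ((V' : ℤ) / 2 ^ 576) := by
      have := Int.emod_add_mul_ediv (V' : ℤ) (2 ^ 576)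
      linarith
    rw [e1, e2]
    have e : (V : ℤ) + V' + 2 ^ 576 - 2 * (V' - 2 ^ 576 * ((V' : ℤ) / 2 ^ 576)) -
        pk (c0 - d0) (c1 - d1) (c2 - d2) (c3 - d3) =
        ((V : ℤ) - pk c0 c1 c2 c3) - ((V' : ℤ) - pk d0 d1 d2 d3) +
          2 ^ 576 * (1 + 2 * ((V' : ℤ) / 2 ^ 576)) := by
      unfold pk; ring
    rw [e]
    exact dvd_add (dvd_sub h.cong h'.cong) (dvd_mul_right _ _)
  · have h1 := h.err
    have h2 := h'.err
    push_cast
    rw [abs_le] at h1 h2 ⊢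
    constructor <;> nlinarith [h1.1, h1.2, h2.1, h2.2]
  · push_cast; linarith [h.rR, h'.rR]
  · push_cast
    linarith [h.eq, h'.eq, abs_sub (c1 : ℝ) d1, abs_sub (c2 : ℝ) d2, abs_sub (c3 : ℝ) d3]
  · push_cast
    linarith [h.ea, h'.ea, abs_sub (c1 : ℝ) d1, abs_sub (c2 : ℝ) d2, abs_sub (c3 : ℝ) d3,
      abs_sub (c0 : ℝ) d0]

/-- the negative -/
def pneg (Y : ℕ) : ℕ := Nat.sub (Nat.add Y 0x1000000000000000000000000000000000000000000000000000000000000000000000000000000000000000000000000000000000000000000000000000000000000000000000000000000000000000000000000000000000000000000000000000000000000000000000000000000000000000000000000000000000000000000000001000000000000000000000000000000000000000000000000000000000000000000000000000000000000000000000000000000000000000000000000000000000000000000000000) (Nat.mul 2 (Nat.land Y 0xffffffffffffffffffffffffffffffffffffffffffffffffffffffffffffffffffffffffffffffffffffffffffffffffffffffffffffffffffffffffffffffffffffffffffffffff))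

theorem pneg_eq (Y : ℕ) : pneg Y = Y + (2 ^ 576 + 2 ^ 1632) - 2 * (Y % 2 ^ 576) := by
  have h : pneg Y = Y + 0x1000000000000000000000000000000000000000000000000000000000000000000000000000000000000000000000000000000000000000000000000000000000000000000000000000000000000000000000000000000000000000000000000000000000000000000000000000000000000000000000000000000000000000000000001000000000000000000000000000000000000000000000000000000000000000000000000000000000000000000000000000000000000000000000000000000000000000000000000 - 2 * Nat.land Y 0xffffffffffffffffffffffffffffffffffffffffffffffffffffffffffffffffffffffffffffffffffffffffffffffffffffffffffffffffffffffffffffffffffffffffffffffff := rfl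
  rw [h, land_low]
  have : (0x1000000000000000000000000000000000000000000000000000000000000000000000000000000000000000000000000000000000000000000000000000000000000000000000000000000000000000000000000000000000000000000000000000000000000000000000000000000000000000000000000000000000000000000000001000000000000000000000000000000000000000000000000000000000000000000000000000000000000000000000000000000000000000000000000000000000000000000000000 : ℕ) = 2 ^ 576 + 2 ^ 1632 := by norm_num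
  rw [this]

theorem enc_neg {E : Pt} {Y : ℕ} {w : ℝ} (hY : Enc E Y w) :
    Enc E (pneg Y) (-w) := by
  rw [pneg_eq]
  intro hT
  obtain ⟨d0, d1, d2, d3, V', R', q', a', m', r', h'⟩ := hY (by omega)
  have g2 := h'.hV
  have g4 := h'.hR
  have g6 := h'.hq
  have g8 := h'.ha
  have hm := mod_of_dec h'.dec
  refine ⟨-d0, -d1, -d2, -d3, (V' + 2 ^ 576) - 2 * (V' % 2 ^ 576), R',
    q', a', m' + 1, r', ⟨?_, by omega, ?_, by omega, by omega, by omega, ?_, ?_, ?_, ?_⟩⟩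
  · rw [hm, h'.dec]; omega
  · have e1 : (((V' + 2 ^ 576) - 2 * (V' % 2 ^ 576) : ℕ) : ℤ) =
        (V' : ℤ) + 2 ^ 576 - 2 * ((V' : ℤ) % 2 ^ 576) := by omega
    have e2 : (V' : ℤ) % 2 ^ 576 = V' - 2 ^ 576 * ((V' : ℤ) / 2 ^ 576) := by
      have := Int.emod_add_mul_ediv (V' : ℤ) (2 ^ 576)
      linarith
    rw [e1, e2]
    have e : (V' : ℤ) + 2 ^ 576 - 2 * (V' - 2 ^ 576 * ((V' : ℤ) / 2 ^ 576)) -
        pk (-d0) (-d1) (-d2) (-d3) =
        2 ^ 576 * (1 + 2 * ((V' : ℤ) / 2 ^ 576)) - ((V' : ℤ) - pk d0 d1 d2 d3) := by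
      unfold pk; ring
    rw [e]
    exact dvd_sub (dvd_mul_right _ _) h'.cong
  · have h2 := h'.err
    push_cast
    rw [abs_le] at h2 ⊢
    constructor <;> nlinarith [h2.1, h2.2]
  · exact h'.rR
  · push_cast
    rw [abs_neg, abs_neg, abs_neg]
    exact h'.eq
  · push_cast
    rw [abs_neg, abs_neg, abs_neg, abs_neg]
    exact h'.ea

/-! ### Products -/

theorem or_eq_left {X Y A : ℕ} (h : Nat.lor (Nat.lor X Y) A = A) : X &&& A = X ∧ Y &&& A = Y := by
  have h' : X ||| Y ||| A = A := h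
  constructor <;>
  · apply Nat.eq_of_testBit_eq
    intro i
    have := congrArg (fun z => Nat.testBit z i) h'
    simp only [Nat.testBit_or] at this
    rw [Nat.testBit_and]
    revert this
    cases X.testBit i <;> cases Y.testBit i <;> cases A.testBit i <;> simp

/-- The operand test of the product. -/
theorem allowed {X V R q a m : ℕ} (h : X &&& 0x3fffffff0000000000000000000000000000000000000000000000000000000000000fffffffffff0000000000000fffffffffff0000000000000fffffffffffffffffffffffffffffffffffffffffffffffffffffffffffffffffffffffffffffffffffffffffffffffffffffffffffffffffffffffffffffffffffffffffffffffffffffffffffffffffffffffffffffffffffffffffffffffffffffffffffffffffffffffffffffffffffffffffffffffffffffffffffffffffffffffffffffffffffffffffffffffffffffffffff = X)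
    (hd : X = V + 2 ^ 1152 * (R + 2 ^ 96 * q + 2 ^ 192 * a + 2 ^ 480 * m)) (hV : V < 2 ^ 1152)
    (hR : R < 2 ^ 96) (hq : q < 2 ^ 96) (ha : a < 2 ^ 96) :
    R < 2 ^ 44 ∧ q < 2 ^ 44 ∧ a < 2 ^ 44 := by
  have e : (0x3fffffff0000000000000000000000000000000000000000000000000000000000000fffffffffff0000000000000fffffffffff0000000000000fffffffffffffffffffffffffffffffffffffffffffffffffffffffffffffffffffffffffffffffffffffffffffffffffffffffffffffffffffffffffffffffffffffffffffffffffffffffffffffffffffffffffffffffffffffffffffffffffffffffffffffffffffffffffffffffffffffffffffffffffffffffffffffffffffffffffffffffffffffffffffffffffffffffffff : ℕ) = (2 ^ 1152 - 1) + 2 ^ 1152 * ((2 ^ 44 - 1) + 2 ^ 96 * ((2 ^ 44 - 1) +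
      2 ^ 96 * ((2 ^ 44 - 1) + 2 ^ 288 * (2 ^ 30 - 1)))) := by norm_num
  rw [e, land_split _ _ _ (by norm_num), land_split _ _ _ (by norm_num),
    land_split _ _ _ (by norm_num), land_split _ _ _ (by norm_num)] at h
  rw [Nat.and_two_pow_sub_one_eq_mod, Nat.and_two_pow_sub_one_eq_mod, Nat.and_two_pow_sub_one_eq_mod,
    Nat.and_two_pow_sub_one_eq_mod] at h
  have b1 : X / 2 ^ 1152 % 2 ^ 96 = R := by rw [hd]; omega
  have b2 : X / 2 ^ 1152 / 2 ^ 96 % 2 ^ 96 = q := by rw [hd]; omega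
  have b3 : X / 2 ^ 1152 / 2 ^ 96 / 2 ^ 96 % 2 ^ 288 = a := by rw [hd]; omega
  rw [b1, b2, b3] at h
  have c1 : R % 2 ^ 44 = R := by omega
  have c2 : q % 2 ^ 44 = q := by omega
  have c3 : a % 2 ^ 44 = a := by omega
  omega

/-- Rescaling of the fields of a product. -/
theorem mulV {P : ℕ} {C0 C1 C2 C3 : ℤ} (hc : (2 ^ 576 : ℤ) ∣ (P : ℤ) - pk C0 C1 C2 C3)
    (b0 : |C0| < 2 ^ 95) (b1 : |C1| < 2 ^ 95) (b2 : |C2| < 2 ^ 95) (b3 : |C3| < 2 ^ 95) :
    ∃ z0 z1 z2 z3 t0 t1 t2 t3 : ℤ, C0 = 2 ^ 30 * z0 + t0 ∧ C1 = 2 ^ 30 * z1 + t1 ∧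
      C2 = 2 ^ 30 * z2 + t2 ∧ C3 = 2 ^ 30 * z3 + t3 ∧ (0 ≤ t0 ∧ t0 < 2 ^ 30) ∧
      (0 ≤ t1 ∧ t1 < 2 ^ 30) ∧ (0 ≤ t2 ∧ t2 < 2 ^ 30) ∧ (0 ≤ t3 ∧ t3 < 2 ^ 30) ∧
      Nat.land (Nat.shiftRight (Nat.add P 0x800000000000000000000000800000000000000000000000800000000000000000000000000000000000000000000000000000000000000000000000800000000000000000000000) 30) 0x3ffffffffffffffff00000003ffffffffffffffff00000003ffffffffffffffff00000000000000000000000000000000000000000000000000000003ffffffffffffffff < 2 ^ 560 ∧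
      (2 ^ 576 : ℤ) ∣ ((Nat.land (Nat.shiftRight (Nat.add P 0x800000000000000000000000800000000000000000000000800000000000000000000000000000000000000000000000000000000000000000000000800000000000000000000000) 30) 0x3ffffffffffffffff00000003ffffffffffffffff00000003ffffffffffffffff00000000000000000000000000000000000000000000000000000003ffffffffffffffff : ℕ) : ℤ) +
        (2 ^ 576 - 2 ^ 65 * (1 + 2 ^ 288 + 2 ^ 384 + 2 ^ 480)) - pk z0 z1 z2 z3 := by
  rw [abs_lt] at b0 b1 b2 b3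
  obtain ⟨u0, hu0⟩ := Int.eq_ofNat_of_zero_le (show 0 ≤ C0 + 2 ^ 95 by linarith [b0.1])
  obtain ⟨u1, hu1⟩ := Int.eq_ofNat_of_zero_le (show 0 ≤ C1 + 2 ^ 95 by linarith [b1.1])
  obtain ⟨u2, hu2⟩ := Int.eq_ofNat_of_zero_le (show 0 ≤ C2 + 2 ^ 95 by linarith [b2.1])
  obtain ⟨u3, hu3⟩ := Int.eq_ofNat_of_zero_le (show 0 ≤ C3 + 2 ^ 95 by linarith [b3.1])
  have l0 : u0 < 2 ^ 96 := by omega
  have l1 : u1 < 2 ^ 96 := by omega
  have l2 : u2 < 2 ^ 96 := by omega
  have l3 : u3 < 2 ^ 96 := by omega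
  have hO : (0x800000000000000000000000800000000000000000000000800000000000000000000000000000000000000000000000000000000000000000000000800000000000000000000000 : ℕ) = 2 ^ 95 * (1 + 2 ^ 288 + 2 ^ 384 + 2 ^ 480) := by norm_num
  have hM : (0x3ffffffffffffffff00000003ffffffffffffffff00000003ffffffffffffffff00000000000000000000000000000000000000000000000000000003ffffffffffffffff : ℕ) = (2 ^ 66 - 1) * (1 + 2 ^ 288 + 2 ^ 384 + 2 ^ 480) := by norm_num
  obtain ⟨K, hK⟩ := hc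
  have hK' : ((P + 0x800000000000000000000000800000000000000000000000800000000000000000000000000000000000000000000000000000000000000000000000800000000000000000000000 : ℕ) : ℤ) = u0 + 2 ^ 288 * u1 + 2 ^ 384 * u2 + 2 ^ 480 * u3 +
      2 ^ 576 * K := by
    rw [hO]
    push_cast
    have := hK
    unfold pk at this
    linear_combination this + hu0 + 2 ^ 288 * hu1 + 2 ^ 384 * hu2 + 2 ^ 480 * hu3
  have hK0 : 0 ≤ K := by omega
  obtain ⟨k, rfl⟩ := Int.eq_ofNat_of_zero_le hK0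
  have hW : P + 0x800000000000000000000000800000000000000000000000800000000000000000000000000000000000000000000000000000000000000000000000800000000000000000000000 = u0 + 2 ^ 288 * u1 + 2 ^ 384 * u2 + 2 ^ 480 * u3 + 2 ^ 576 * k := by
    exact_mod_cast hK'
  have hF : Nat.land (Nat.shiftRight (Nat.add P 0x800000000000000000000000800000000000000000000000800000000000000000000000000000000000000000000000000000000000000000000000800000000000000000000000) 30) 0x3ffffffffffffffff00000003ffffffffffffffff00000003ffffffffffffffff00000000000000000000000000000000000000000000000000000003ffffffffffffffff =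
      u0 / 2 ^ 30 + 2 ^ 288 * (u1 / 2 ^ 30) + 2 ^ 384 * (u2 / 2 ^ 30) + 2 ^ 480 * (u3 / 2 ^ 30) := by
    rw [← fields l0 l1 l2 l3 hW, ← hM]
    have : Nat.shiftRight (Nat.add P 0x800000000000000000000000800000000000000000000000800000000000000000000000000000000000000000000000000000000000000000000000800000000000000000000000) 30 = (P + 0x800000000000000000000000800000000000000000000000800000000000000000000000000000000000000000000000000000000000000000000000800000000000000000000000) / 2 ^ 30 := Nat.shiftRight_eq_div_pow _ _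
    rw [this]
    rfl
  rw [hF]
  refine ⟨(u0 / 2 ^ 30 : ℕ) - 2 ^ 65, (u1 / 2 ^ 30 : ℕ) - 2 ^ 65, (u2 / 2 ^ 30 : ℕ) - 2 ^ 65,
    (u3 / 2 ^ 30 : ℕ) - 2 ^ 65, (u0 % 2 ^ 30 : ℕ), (u1 % 2 ^ 30 : ℕ), (u2 % 2 ^ 30 : ℕ),
    (u3 % 2 ^ 30 : ℕ), by omega, by omega, by omega, by omega, by omega, by omega, by omega,
    by omega, by omega, ?_⟩
  refine ⟨1, ?_⟩
  unfold pk
  push_cast
  ring

/-- The lanes of the remainder of a product. -/
theorem mulH {X Y V V' R q a m R' q' a' m' : ℕ}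
    (hX : X = V + 2 ^ 1152 * (R + 2 ^ 96 * q + 2 ^ 192 * a + 2 ^ 480 * m))
    (hY : Y = V' + 2 ^ 1152 * (R' + 2 ^ 96 * q' + 2 ^ 192 * a' + 2 ^ 480 * m'))
    (hV : V < 2 ^ 610) (hV' : V' < 2 ^ 610) (hR : R < 2 ^ 44) (hq : q < 2 ^ 44) (ha : a < 2 ^ 44)
    (hm : m < 2 ^ 30) (hR' : R' < 2 ^ 44) (hq' : q' < 2 ^ 44) (ha' : a' < 2 ^ 44)
    (hm' : m' < 2 ^ 30) :
    Nat.land (Nat.shiftRight (Nat.mul X Y) 2526) 0x3ffffffffffffffff00000003ffffffffffffffff00000003ffffffffffffffff =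
      (R * a' + q * q' + a * R') / 2 ^ 30 + 2 ^ 96 * ((q * a' + a * q') / 2 ^ 30) +
        2 ^ 192 * (a * a' / 2 ^ 30) := by
  set H := R + 2 ^ 96 * q + 2 ^ 192 * a + 2 ^ 480 * m with hH
  set H' := R' + 2 ^ 96 * q' + 2 ^ 192 * a' + 2 ^ 480 * m' with hH'
  have bH : H < 2 ^ 511 := by omega
  have bH' : H' < 2 ^ 511 := by omega
  have hM : (0x3ffffffffffffffff00000003ffffffffffffffff00000003ffffffffffffffff : ℕ) = (2 ^ 66 - 1) * (1 + 2 ^ 96 + 2 ^ 192) := by norm_num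
  have e1 : X * Y = (V * V' + 2 ^ 1152 * (V * H' + V' * H)) + 2 ^ 2304 * (H * H') := by
    rw [hX, hY]; ring
  have b1 : V * V' < 2 ^ 610 * 2 ^ 610 := Nat.mul_lt_mul'' hV hV'
  have b2 : V * H' < 2 ^ 610 * 2 ^ 511 := Nat.mul_lt_mul'' hV bH'
  have b3 : V' * H < 2 ^ 610 * 2 ^ 511 := Nat.mul_lt_mul'' hV' bH
  have e2 : X * Y / 2 ^ 2304 = H * H' := by
    rw [e1, Nat.add_mul_div_left _ _ (by positivity), Nat.div_eq_of_lt, zero_add]
    have : 2 ^ 610 * 2 ^ 610 + 2 ^ 1152 * (2 ^ 610 * 2 ^ 511 + 2 ^ 610 * 2 ^ 511) < 2 ^ 2304 := by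
      norm_num
    omega
  have e3 : Nat.shiftRight (Nat.mul X Y) 2526 = H * H' / 2 ^ 222 := by
    have h1 : Nat.shiftRight (Nat.mul X Y) 2526 = X * Y / 2 ^ 2526 := Nat.shiftRight_eq_div_pow _ _
    have h2 : (2 : ℕ) ^ 2526 = 2 ^ 2304 * 2 ^ 222 := by rw [← pow_add]
    rw [h1, h2, ← Nat.div_div_eq_div_mul, e2]
  have e4 : H * H' = R * R' + 2 ^ 96 * (R * q' + q * R') + 2 ^ 192 * (R * a' + q * q' + a * R') +
      2 ^ 288 * (q * a' + a * q') + 2 ^ 384 * (a * a') + 2 ^ 480 * ((m * R' + R * m') +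
      2 ^ 96 * (m * q' + q * m') + 2 ^ 192 * (m * a' + a * m') + 2 ^ 480 * (m * m')) := by
    rw [hH, hH']; ring
  have p : ∀ x y : ℕ, x < 2 ^ 44 → y < 2 ^ 44 → x * y < 2 ^ 88 := by
    intro x y h1 h2
    have := Nat.mul_lt_mul'' h1 h2
    have e : (2 : ℕ) ^ 44 * 2 ^ 44 = 2 ^ 88 := by norm_num
    omega
  have p1 := p _ _ hR hR'
  have p2 := p _ _ hR hq'
  have p3 := p _ _ hq hR'
  have p4 := p _ _ hR ha'
  have p5 := p _ _ hq hq'
  have p6 := p _ _ ha hR'
  have p7 := p _ _ hq ha'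
  have p8 := p _ _ ha hq'
  have p9 := p _ _ ha ha'
  have := lanes (W := H * H') (by omega) (by omega) (by omega) (by omega) (by omega) e4
  rw [← this, ← hM, e3]
  rfl

theorem lin_le (E : Pt) (c1 c2 c3 : ℝ) :
    |c1 * E.e1 + c2 * E.e2 + c3 * E.e3| ≤ |c1| + |c2| + |c3| := by
  have h1 := Box.mul_e (le_refl |c1|) E.h1
  have h2 := Box.mul_e (le_refl |c2|) E.h2
  have h3 := Box.mul_e (le_refl |c3|) E.h3
  linarith [abs_add_le (c1 * E.e1 + c2 * E.e2) (c3 * E.e3), abs_add_le (c1 * E.e1) (c2 * E.e2)]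

/-- rounding of a field -/
theorem fr {z t C : ℤ} (h : C = 2 ^ 30 * z + t) (ht : 0 ≤ t ∧ t < 2 ^ 30) :
    (C : ℝ) / 2 ^ 30 - 1 ≤ z ∧ (z : ℝ) ≤ C / 2 ^ 30 := by
  have h1 : (C : ℝ) = 2 ^ 30 * z + t := by exact_mod_cast h
  have h2 : (0 : ℝ) ≤ t := by exact_mod_cast ht.1
  have h3 : (t : ℝ) < 2 ^ 30 := by exact_mod_cast ht.2
  rw [h1]
  constructor
  · rw [add_div, mul_div_cancel_left₀ _ (by positivity)]
    have : (t : ℝ) / 2 ^ 30 ≤ 1 := by rw [div_le_one (by positivity)]; exact h3.le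
    linarith
  · rw [add_div, mul_div_cancel_left₀ _ (by positivity)]
    have : 0 ≤ (t : ℝ) / 2 ^ 30 := by positivity
    linarith

/-- rounding of the fields of an affine form -/
theorem fr4 (E : Pt) {z0 z1 z2 z3 t0 t1 t2 t3 C0 C1 C2 C3 : ℤ} (g0 : C0 = 2 ^ 30 * z0 + t0)
    (g1 : C1 = 2 ^ 30 * z1 + t1) (g2 : C2 = 2 ^ 30 * z2 + t2) (g3 : C3 = 2 ^ 30 * z3 + t3)
    (k0 : 0 ≤ t0 ∧ t0 < 2 ^ 30) (k1 : 0 ≤ t1 ∧ t1 < 2 ^ 30) (k2 : 0 ≤ t2 ∧ t2 < 2 ^ 30)
    (k3 : 0 ≤ t3 ∧ t3 < 2 ^ 30) :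
    |((C0 : ℝ) + (C1 * E.e1 + C2 * E.e2 + C3 * E.e3)) / 2 ^ 30 -
      (z0 + (z1 * E.e1 + z2 * E.e2 + z3 * E.e3))| ≤ 4 := by
  have f0 := fr g0 k0
  have f1 := fr g1 k1
  have f2 := fr g2 k2
  have f3 := fr g3 k3
  have b0 : |(C0 : ℝ) / 2 ^ 30 - z0| ≤ 1 := by rw [abs_le]; constructor <;> linarith [f0.1, f0.2]
  have b1 : |(C1 : ℝ) / 2 ^ 30 - z1| ≤ 1 := by rw [abs_le]; constructor <;> linarith [f1.1, f1.2]
  have b2 : |(C2 : ℝ) / 2 ^ 30 - z2| ≤ 1 := by rw [abs_le]; constructor <;> linarith [f2.1, f2.2]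
  have b3 : |(C3 : ℝ) / 2 ^ 30 - z3| ≤ 1 := by rw [abs_le]; constructor <;> linarith [f3.1, f3.2]
  have a1 := Box.mul_e b1 E.h1
  have a2 := Box.mul_e b2 E.h2
  have a3 := Box.mul_e b3 E.h3
  have e : ((C0 : ℝ) + (C1 * E.e1 + C2 * E.e2 + C3 * E.e3)) / 2 ^ 30 -
      (z0 + (z1 * E.e1 + z2 * E.e2 + z3 * E.e3)) = ((C0 : ℝ) / 2 ^ 30 - z0) +
      (((C1 : ℝ) / 2 ^ 30 - z1) * E.e1 + ((C2 : ℝ) / 2 ^ 30 - z2) * E.e2 +
      ((C3 : ℝ) / 2 ^ 30 - z3) * E.e3) := by ring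
  rw [e]
  rw [abs_le] at a1 a2 a3 b0 ⊢
  constructor <;> linarith [a1.1, a1.2, a2.1, a2.2, a3.1, a3.2, b0.1, b0.2]

theorem abs_fr {z t C : ℤ} (h : C = 2 ^ 30 * z + t) (ht : 0 ≤ t ∧ t < 2 ^ 30) :
    |(z : ℝ)| ≤ |(C : ℝ)| / 2 ^ 30 + 1 := by
  obtain ⟨h1, h2⟩ := fr h ht
  have h3 : |(C : ℝ)| / 2 ^ 30 = |(C : ℝ) / 2 ^ 30| := by
    rw [abs_div, abs_of_pos (by positivity : (0 : ℝ) < 2 ^ 30)]
  rw [h3, abs_le]
  constructor
  · linarith [neg_abs_le ((C : ℝ) / 2 ^ 30)]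
  · linarith [le_abs_self ((C : ℝ) / 2 ^ 30)]

theorem lt_div30 (n : ℕ) : (n : ℝ) / 2 ^ 30 ≤ ((n / 2 ^ 30 : ℕ) : ℝ) + 1 := by
  have h := Nat.lt_div_mul_add (a := n) (show 0 < 2 ^ 30 by norm_num)
  have h' : (n : ℝ) < ((n / 2 ^ 30 : ℕ) : ℝ) * 2 ^ 30 + 2 ^ 30 := by exact_mod_cast h
  rw [div_le_iff₀ (by positivity)]
  linarith

/-- product -/
noncomputable def pmul (X Y : ℕ) : ℕ :=
  Bool.rec 0x40000000000000000000000000000000000000000000000000000000000000000000000000000000000000000000000000000000000000000000000000000000000000000000000000000000000000000000000000000000000000000000000000000000000000000000000000000000000000000000000000000000000000000000000000000000000000000000000000000000000000000000000000000000000000000000000000000000000000000000000000000000000000000000000000000000000000000000000000000000 (Nat.add (Nat.add (Nat.land (Nat.shiftRight (Nat.add (Nat.mul X Y) 0x800000000000000000000000800000000000000000000000800000000000000000000000000000000000000000000000000000000000000000000000800000000000000000000000)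 30) 0x3ffffffffffffffff00000003ffffffffffffffff00000003ffffffffffffffff00000000000000000000000000000000000000000000000000000003ffffffffffffffff)
    (Nat.shiftLeft (Nat.land (Nat.shiftRight (Nat.mul X Y) 2526) 0x3ffffffffffffffff00000003ffffffffffffffff00000003ffffffffffffffff) 1152)) 0x2000000000000000000000000000000000000000000000000000000000000000000000009000000000000000000000008000000000000000000000005000000000000000000000000000000000000000000000000000000000000000000000000000000000000000000000000000000000000000000000000000000000000000000000000fffffffdfffffffffffffffffffffffdfffffffffffffffffffffffdfffffffffffffffffffffffffffffffffffffffffffffffffffffffffffffffffffffffe0000000000000000)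
    (Nat.beq (Nat.lor (Nat.lor X Y) 0x3fffffff0000000000000000000000000000000000000000000000000000000000000fffffffffff0000000000000fffffffffff0000000000000fffffffffffffffffffffffffffffffffffffffffffffffffffffffffffffffffffffffffffffffffffffffffffffffffffffffffffffffffffffffffffffffffffffffffffffffffffffffffffffffffffffffffffffffffffffffffffffffffffffffffffffffffffffffffffffffffffffffffffffffffffffffffffffffffffffffffffffffffffffffffffffffffffffffffff) 0x3fffffff0000000000000000000000000000000000000000000000000000000000000fffffffffff0000000000000fffffffffff0000000000000fffffffffffffffffffffffffffffffffffffffffffffffffffffffffffffffffffffffffffffffffffffffffffffffffffffffffffffffffffffffffffffffffffffffffffffffffffffffffffffffffffffffffffffffffffffffffffffffffffffffffffffffffffffffffffffffffffffffffffffffffffffffffffffffffffffffffffffffffffffffffffffffffffffffffff)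

theorem enc_mul {E : Pt} {X Y : ℕ} {v w : ℝ} (hX : Enc E X v) (hY : Enc E Y w) :
    Enc E (pmul X Y) (v * w) := by
  unfold pmul
  rcases hb : Nat.beq (Nat.lor (Nat.lor X Y) 0x3fffffff0000000000000000000000000000000000000000000000000000000000000fffffffffff0000000000000fffffffffff0000000000000fffffffffffffffffffffffffffffffffffffffffffffffffffffffffffffffffffffffffffffffffffffffffffffffffffffffffffffffffffffffffffffffffffffffffffffffffffffffffffffffffffffffffffffffffffffffffffffffffffffffffffffffffffffffffffffffffffffffffffffffffffffffffffffffffffffffffffffffffffffffffffffffffffffffffff) 0x3fffffff0000000000000000000000000000000000000000000000000000000000000fffffffffff0000000000000fffffffffff0000000000000fffffffffffffffffffffffffffffffffffffffffffffffffffffffffffffffffffffffffffffffffffffffffffffffffffffffffffffffffffffffffffffffffffffffffffffffffffffffffffffffffffffffffffffffffffffffffffffffffffffffffffffffffffffffffffffffffffffffffffffffffffffffffffffffffffffffffffffffffffffffffffffffffffffffffff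 with _ | _
  · exact enc_bad E _ (by norm_num)
  have hb' := or_eq_left (Nat.eq_of_beq_eq_true hb)
  intro _
  have hAL : (0x3fffffff0000000000000000000000000000000000000000000000000000000000000fffffffffff0000000000000fffffffffff0000000000000fffffffffffffffffffffffffffffffffffffffffffffffffffffffffffffffffffffffffffffffffffffffffffffffffffffffffffffffffffffffffffffffffffffffffffffffffffffffffffffffffffffffffffffffffffffffffffffffffffffffffffffffffffffffffffffffffffffffffffffffffffffffffffffffffffffffffffffffffffffffffffffffffffffffffff : ℕ) < 2 ^ 1662 := by norm_num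
  have lX : X < 2 ^ 1662 := lt_of_le_of_lt (by rw [← hb'.1]; exact Nat.and_le_right) hAL
  have lY : Y < 2 ^ 1662 := lt_of_le_of_lt (by rw [← hb'.2]; exact Nat.and_le_right) hAL
  obtain ⟨c0, c1, c2, c3, V, R, q, a, m, r, h⟩ := hX lX
  obtain ⟨d0, d1, d2, d3, V', R', q', a', m', r', h'⟩ := hY lY
  have g0 := h.dec
  have g0' := h'.dec
  have g1 := h.hV
  have g2 := h'.hV
  have g3 := h.hR
  have g4 := h'.hR
  have g5 := h.hq
  have g6 := h'.hq
  have g7 := h.ha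
  have g8 := h'.ha
  have hm : m < 2 ^ 30 := by omega
  have hm' : m' < 2 ^ 30 := by omega
  obtain ⟨lR, lq, la⟩ := allowed hb'.1 g0 (by omega) (by omega) (by omega) (by omega)
  obtain ⟨lR', lq', la'⟩ := allowed hb'.2 g0' (by omega) (by omega) (by omega) (by omega)
  have hH := mulH g0 g0' (by omega) (by omega) lR lq la hm lR' lq' la' hm'
  -- real bounds of the coefficients
  have r0 : 0 ≤ r := (abs_nonneg _).trans h.err
  have r0' : 0 ≤ r' := (abs_nonneg _).trans h'.err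
  have haR : (a : ℝ) < 2 ^ 44 := by exact_mod_cast la
  have haR' : (a' : ℝ) < 2 ^ 44 := by exact_mod_cast la'
  have ea := h.ea
  have ea' := h'.ea
  have n0 := abs_nonneg (c0 : ℝ)
  have n1 := abs_nonneg (c1 : ℝ)
  have n2 := abs_nonneg (c2 : ℝ)
  have n3 := abs_nonneg (c3 : ℝ)
  have o0 := abs_nonneg (d0 : ℝ)
  have o1 := abs_nonneg (d1 : ℝ)
  have o2 := abs_nonneg (d2 : ℝ)
  have o3 := abs_nonneg (d3 : ℝ)
  have ib : ∀ {c : ℤ}, |(c : ℝ)| ≤ 2 ^ 44 → |c| ≤ 2 ^ 44 := by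
    intro c hc
    exact_mod_cast hc
  have i0 := ib (c := c0) (by linarith)
  have i1 := ib (c := c1) (by linarith)
  have i2 := ib (c := c2) (by linarith)
  have i3 := ib (c := c3) (by linarith)
  have j0 := ib (c := d0) (by linarith)
  have j1 := ib (c := d1) (by linarith)
  have j2 := ib (c := d2) (by linarith)
  have j3 := ib (c := d3) (by linarith)
  have pb : ∀ {x y : ℤ}, |x| ≤ 2 ^ 44 → |y| ≤ 2 ^ 44 → |x * y| ≤ 2 ^ 88 := by
    intro x y hx hy
    rw [abs_mul]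
    calc |x| * |y| ≤ 2 ^ 44 * 2 ^ 44 := mul_le_mul hx hy (abs_nonneg _) (by positivity)
      _ = 2 ^ 88 := by norm_num
  have sb : ∀ {x y : ℤ}, |x| ≤ 2 ^ 88 → |y| ≤ 2 ^ 88 → |x + y| < 2 ^ 95 := by
    intro x y hx hy
    have := abs_add_le x y
    omega
  have hc : (2 ^ 576 : ℤ) ∣ ((Nat.mul X Y : ℕ) : ℤ) - pk (c0 * d0) (c0 * d1 + d0 * c1)
      (c0 * d2 + d0 * c2) (c0 * d3 + d0 * c3) := by
    obtain ⟨k, hk⟩ := h.cong
    obtain ⟨k', hk'⟩ := h'.cong
    have e1 : ((Nat.mul X Y : ℕ) : ℤ) = (X : ℤ) * Y := Nat.cast_mul X Y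
    have e2 : (X : ℤ) = pk c0 c1 c2 c3 + 2 ^ 576 * (k + 2 ^ 576 * (R + 2 ^ 96 * q + 2 ^ 192 * a +
        2 ^ 480 * m)) := by
      rw [g0]; push_cast; linear_combination hk
    have e3 : (Y : ℤ) = pk d0 d1 d2 d3 + 2 ^ 576 * (k' + 2 ^ 576 * (R' + 2 ^ 96 * q' +
        2 ^ 192 * a' + 2 ^ 480 * m')) := by
      rw [g0']; push_cast; linear_combination hk'
    have e4 : pk c0 c1 c2 c3 * pk d0 d1 d2 d3 - pk (c0 * d0) (c0 * d1 + d0 * c1)
        (c0 * d2 + d0 * c2) (c0 * d3 + d0 * c3) = 2 ^ 576 * (c1 * d1 + 2 ^ 96 * (c1 * d2 + c2 * d1) +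
        2 ^ 192 * (c2 * d2 + c1 * d3 + c3 * d1) + 2 ^ 288 * (c2 * d3 + c3 * d2) +
        2 ^ 384 * (c3 * d3)) := by unfold pk; ring
    rw [e1, e2, e3]
    generalize hz : (k + 2 ^ 576 * ((R : ℤ) + 2 ^ 96 * q + 2 ^ 192 * a + 2 ^ 480 * m)) = z
    generalize hz' : (k' + 2 ^ 576 * ((R' : ℤ) + 2 ^ 96 * q' + 2 ^ 192 * a' + 2 ^ 480 * m')) = z'
    refine ⟨(c1 * d1 + 2 ^ 96 * (c1 * d2 + c2 * d1) +
        2 ^ 192 * (c2 * d2 + c1 * d3 + c3 * d1) + 2 ^ 288 * (c2 * d3 + c3 * d2) +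
        2 ^ 384 * (c3 * d3)) + (z * pk d0 d1 d2 d3 + z' * pk c0 c1 c2 c3 + 2 ^ 576 * (z * z')), ?_⟩
    linear_combination e4
  obtain ⟨z0, z1, z2, z3, t0, t1, t2, t3, y0, y1, y2, y3, k0, k1, k2, k3, hW, hz⟩ :=
    mulV hc (by have := pb i0 j0; omega) (sb (pb i0 j1) (pb j0 i1)) (sb (pb i0 j2) (pb j0 i2))
      (sb (pb i0 j3) (pb j0 i3))
  set W := Nat.land (Nat.shiftRight (Nat.add (Nat.mul X Y) 0x800000000000000000000000800000000000000000000000800000000000000000000000000000000000000000000000000000000000000000000000800000000000000000000000) 30) 0x3ffffffffffffffff00000003ffffffffffffffff00000003ffffffffffffffff00000000000000000000000000000000000000000000000000000003ffffffffffffffff with hWd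
  set l2 := R * a' + q * q' + a * R' with hl2
  set l3 := q * a' + a * q' with hl3
  set l4 := a * a' with hl4
  have hK : (0x2000000000000000000000000000000000000000000000000000000000000000000000009000000000000000000000008000000000000000000000005000000000000000000000000000000000000000000000000000000000000000000000000000000000000000000000000000000000000000000000000000000000000000000000000fffffffdfffffffffffffffffffffffdfffffffffffffffffffffffdfffffffffffffffffffffffffffffffffffffffffffffffffffffffffffffffffffffffe0000000000000000 : ℕ) = (2 ^ 576 - 2 ^ 65 * (1 + 2 ^ 288 + 2 ^ 384 + 2 ^ 480)) +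
      2 ^ 1152 * (5 + 2 ^ 96 * 8 + 2 ^ 192 * 9 + 2 ^ 480 * 2) := by norm_num
  have hA : (R : ℝ) * a' + q * q' + a * R' = l2 := by rw [hl2]; push_cast; ring
  have hB : (q : ℝ) * a' + a * q' = l3 := by rw [hl3]; push_cast; ring
  have hC : (a : ℝ) * a' = l4 := by rw [hl4]; push_cast; ring
  have q0 := lt_div30 l2
  have q1 := lt_div30 l3
  have q2 := lt_div30 l4
  have bR : l2 < 2 ^ 90 := by
    have := Nat.mul_lt_mul'' lR la'
    have := Nat.mul_lt_mul'' lq lq'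
    have := Nat.mul_lt_mul'' la lR'
    norm_num at *; omega
  have bq : l3 < 2 ^ 90 := by
    have := Nat.mul_lt_mul'' lq la'
    have := Nat.mul_lt_mul'' la lq'
    norm_num at *; omega
  have ba : l4 < 2 ^ 90 := by
    have := Nat.mul_lt_mul'' la la'
    norm_num at *; omega
  set L := |(c1 : ℝ)| + |(c2 : ℝ)| + |(c3 : ℝ)| with hL
  set L' := |(d1 : ℝ)| + |(d2 : ℝ)| + |(d3 : ℝ)| with hL'
  have eL : |(c1 : ℝ) * E.e1 + c2 * E.e2 + c3 * E.e3| ≤ L := lin_le E _ _ _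
  have eL' : |(d1 : ℝ) * E.e1 + d2 * E.e2 + d3 * E.e3| ≤ L' := lin_le E _ _ _
  have hSr : (0 : ℝ) < S := by exact_mod_cast hS
  have hmc := Box.mul_core hSr h.err h'.err eL eL'
  have w1 : (L + r) * (L' + r') + (|(c0 : ℝ)| * r' + |(d0 : ℝ)| * r) ≤ l2 := by
    rw [← hA]
    have x1 : |(d0 : ℝ)| * r ≤ R * a' := by
      rw [mul_comm]
      exact mul_le_mul h.rR (by linarith) o0 (Nat.cast_nonneg _)
    have x2 : |(c0 : ℝ)| * r' ≤ a * R' :=
      mul_le_mul (by linarith) h'.rR r0' (Nat.cast_nonneg _)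
    have x3 : (L + r) * (L' + r') ≤ q * q' :=
      mul_le_mul h.eq h'.eq (by positivity) (Nat.cast_nonneg _)
    linarith
  have w2 : |(c0 : ℝ)| * (L' + r') + |(d0 : ℝ)| * (L + r) + (L + r) * (L' + r') ≤ l3 := by
    rw [← hB]
    have x1 : (L + r) * (|(d0 : ℝ)| + (L' + r')) ≤ q * a' :=
      mul_le_mul h.eq ea' (by positivity) (Nat.cast_nonneg _)
    have x2 : |(c0 : ℝ)| * (L' + r') ≤ a * q' :=
      mul_le_mul (by linarith) h'.eq (by positivity) (Nat.cast_nonneg _)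
    calc _ = (L + r) * (|(d0 : ℝ)| + (L' + r')) + |(c0 : ℝ)| * (L' + r') := by ring
      _ ≤ _ := add_le_add x1 x2
  have w3 : (|(c0 : ℝ)| + (L + r)) * (|(d0 : ℝ)| + (L' + r')) ≤ l4 := by
    rw [← hC]
    exact mul_le_mul ea ea' (by positivity) (Nat.cast_nonneg _)
  have hz0 := abs_fr y0 k0
  have hz1 := abs_fr y1 k1
  have hz2 := abs_fr y2 k2
  have hz3 := abs_fr y3 k3
  have v0 : |((c0 * d0 : ℤ) : ℝ)| = |(c0 : ℝ)| * |(d0 : ℝ)| := by push_cast; rw [abs_mul]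
  have vv : ∀ x y : ℤ, |((c0 * x + d0 * y : ℤ) : ℝ)| ≤ |(c0 : ℝ)| * |(x : ℝ)| + |(d0 : ℝ)| * |(y : ℝ)| := by
    intro x y
    push_cast
    refine (abs_add_le _ _).trans ?_
    rw [abs_mul, abs_mul]
  have v1 := vv d1 c1
  have v2 := vv d2 c2
  have v3 := vv d3 c3
  refine ⟨z0, z1, z2, z3, W + (2 ^ 576 - 2 ^ 65 * (1 + 2 ^ 288 + 2 ^ 384 + 2 ^ 480)),
    l2 / 2 ^ 30 + 5, l3 / 2 ^ 30 + 8, l4 / 2 ^ 30 + 9, 2,
    ((L + r) * (L' + r') + (|(c0 : ℝ)| * r' + |(d0 : ℝ)| * r)) / 2 ^ 30 + 4,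
    ⟨?_, by omega, ?_, by omega, by omega, by omega, ?_, ?_, ?_, ?_⟩⟩
  · change Nat.add (Nat.add W (Nat.shiftLeft (Nat.land (Nat.shiftRight (Nat.mul X Y) 2526) 0x3ffffffffffffffff00000003ffffffffffffffff00000003ffffffffffffffff) 1152)) 0x2000000000000000000000000000000000000000000000000000000000000000000000009000000000000000000000008000000000000000000000005000000000000000000000000000000000000000000000000000000000000000000000000000000000000000000000000000000000000000000000000000000000000000000000000fffffffdfffffffffffffffffffffffdfffffffffffffffffffffffdfffffffffffffffffffffffffffffffffffffffffffffffffffffffffffffffffffffffe0000000000000000 = _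
    rw [hH, hK]
    have e : ∀ x : ℕ, Nat.shiftLeft x 1152 = x * 2 ^ 1152 := fun x => Nat.shiftLeft_eq x 1152
    rw [e]
    have e2 : ∀ x y : ℕ, Nat.add x y = x + y := fun x y => rfl
    rw [e2, e2]
    generalize l2 / 2 ^ 30 = x2
    generalize l3 / 2 ^ 30 = x3
    generalize l4 / 2 ^ 30 = x4
    omega
  · have e : ((W + (2 ^ 576 - 2 ^ 65 * (1 + 2 ^ 288 + 2 ^ 384 + 2 ^ 480)) : ℕ) : ℤ) =
        (W : ℤ) + (2 ^ 576 - 2 ^ 65 * (1 + 2 ^ 288 + 2 ^ 384 + 2 ^ 480)) := by omega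
    rw [e]
    exact hz
  · have e1 : (S : ℝ) * (v * w) = (S : ℝ) * v * ((S : ℝ) * w) / S := by field_simp
    have e2 : (c0 : ℝ) * d0 / S + (c0 * (d1 * E.e1 + d2 * E.e2 + d3 * E.e3) +
        d0 * (c1 * E.e1 + c2 * E.e2 + c3 * E.e3)) / S =
        (((c0 * d0 : ℤ) : ℝ) + (((c0 * d1 + d0 * c1 : ℤ) : ℝ) * E.e1 +
        ((c0 * d2 + d0 * c2 : ℤ) : ℝ) * E.e2 + ((c0 * d3 + d0 * c3 : ℤ) : ℝ) * E.e3)) / 2 ^ 30 := by
      rw [S_real]; push_cast; ring
    have f := fr4 E y0 y1 y2 y3 k0 k1 k2 k3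
    rw [e1]
    rw [e2, S_real] at hmc
    rw [S_real]
    rw [abs_le] at hmc f ⊢
    constructor <;> linarith [hmc.1, hmc.2, f.1, f.2]
  · push_cast
    have : ((L + r) * (L' + r') + (|(c0 : ℝ)| * r' + |(d0 : ℝ)| * r)) / 2 ^ 30 ≤ (l2 : ℝ) / 2 ^ 30 := by
      gcongr
    push_cast at q0
    linarith
  · have : (|(c0 : ℝ)| * (L' + r') + |(d0 : ℝ)| * (L + r) + (L + r) * (L' + r')) / 2 ^ 30 ≤
        (l3 : ℝ) / 2 ^ 30 := by gcongr
    push_cast at q1 ⊢
    have e : |(z1 : ℝ)| + |(z2 : ℝ)| + |(z3 : ℝ)| ≤ (|(c0 : ℝ)| * L' + |(d0 : ℝ)| * L) / 2 ^ 30 + 3 := by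
      have : (|(c0 : ℝ)| * L' + |(d0 : ℝ)| * L) / 2 ^ 30 =
          (|(c0 : ℝ)| * |(d1 : ℝ)| + |(d0 : ℝ)| * |(c1 : ℝ)|) / 2 ^ 30 +
          (|(c0 : ℝ)| * |(d2 : ℝ)| + |(d0 : ℝ)| * |(c2 : ℝ)|) / 2 ^ 30 +
          (|(c0 : ℝ)| * |(d3 : ℝ)| + |(d0 : ℝ)| * |(c3 : ℝ)|) / 2 ^ 30 := by
        rw [hL, hL']; ring
      rw [this]
      have u1 : |((c0 * d1 + d0 * c1 : ℤ) : ℝ)| / 2 ^ 30 ≤
        (|(c0 : ℝ)| * |(d1 : ℝ)| + |(d0 : ℝ)| * |(c1 : ℝ)|) / 2 ^ 30 := by gcongr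
      have u2 : |((c0 * d2 + d0 * c2 : ℤ) : ℝ)| / 2 ^ 30 ≤
        (|(c0 : ℝ)| * |(d2 : ℝ)| + |(d0 : ℝ)| * |(c2 : ℝ)|) / 2 ^ 30 := by gcongr
      have u3 : |((c0 * d3 + d0 * c3 : ℤ) : ℝ)| / 2 ^ 30 ≤
        (|(c0 : ℝ)| * |(d3 : ℝ)| + |(d0 : ℝ)| * |(c3 : ℝ)|) / 2 ^ 30 := by gcongr
      linarith
    have e' : (|(c0 : ℝ)| * (L' + r') + |(d0 : ℝ)| * (L + r) + (L + r) * (L' + r')) / 2 ^ 30 =
        (|(c0 : ℝ)| * L' + |(d0 : ℝ)| * L) / 2 ^ 30 +
        ((L + r) * (L' + r') + (|(c0 : ℝ)| * r' + |(d0 : ℝ)| * r)) / 2 ^ 30 := by ring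
    linarith
  · have : (|(c0 : ℝ)| + (L + r)) * (|(d0 : ℝ)| + (L' + r')) / 2 ^ 30 ≤
        (l4 : ℝ) / 2 ^ 30 := by gcongr
    push_cast at q2 ⊢
    have e : |(z1 : ℝ)| + |(z2 : ℝ)| + |(z3 : ℝ)| ≤ (|(c0 : ℝ)| * L' + |(d0 : ℝ)| * L) / 2 ^ 30 + 3 := by
      have : (|(c0 : ℝ)| * L' + |(d0 : ℝ)| * L) / 2 ^ 30 =
          (|(c0 : ℝ)| * |(d1 : ℝ)| + |(d0 : ℝ)| * |(c1 : ℝ)|) / 2 ^ 30 +
          (|(c0 : ℝ)| * |(d2 : ℝ)| + |(d0 : ℝ)| * |(c2 : ℝ)|) / 2 ^ 30 +
          (|(c0 : ℝ)| * |(d3 : ℝ)| + |(d0 : ℝ)| * |(c3 : ℝ)|) / 2 ^ 30 := by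
        rw [hL, hL']; ring
      rw [this]
      have u1 : |((c0 * d1 + d0 * c1 : ℤ) : ℝ)| / 2 ^ 30 ≤
        (|(c0 : ℝ)| * |(d1 : ℝ)| + |(d0 : ℝ)| * |(c1 : ℝ)|) / 2 ^ 30 := by gcongr
      have u2 : |((c0 * d2 + d0 * c2 : ℤ) : ℝ)| / 2 ^ 30 ≤
        (|(c0 : ℝ)| * |(d2 : ℝ)| + |(d0 : ℝ)| * |(c2 : ℝ)|) / 2 ^ 30 := by gcongr
      have u3 : |((c0 * d3 + d0 * c3 : ℤ) : ℝ)| / 2 ^ 30 ≤
        (|(c0 : ℝ)| * |(d3 : ℝ)| + |(d0 : ℝ)| * |(c3 : ℝ)|) / 2 ^ 30 := by gcongr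
      linarith
    rw [v0] at hz0
    have e' : (|(c0 : ℝ)| + (L + r)) * (|(d0 : ℝ)| + (L' + r')) / 2 ^ 30 =
        |(c0 : ℝ)| * |(d0 : ℝ)| / 2 ^ 30 + (|(c0 : ℝ)| * L' + |(d0 : ℝ)| * L) / 2 ^ 30 +
        ((L + r) * (L' + r') + (|(c0 : ℝ)| * r' + |(d0 : ℝ)| * r)) / 2 ^ 30 := by ring
    linarith

end Pool.Agent.Strip051.PB
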