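import Pool.Agent.Strip051.PB.PkX

/-! # Packed arithmetic: positive part, maximum, minimum, case distinction, `phi` -/

set_option exponentiation.threshold 3000
set_option maxRecDepth 20000

namespace Pool.Agent.Strip051.PB

open Pool.Agent.Strip051.LC.Line (phi)

theorem plo_zero {E : Pt} {X : ℕ} {v : ℝ} (hX : Enc E X v) (hl : X < 2 ^ 1662) (h0 : plo X = 0) :
    0 ≤ v := by
  obtain ⟨c0, c1, c2, c3, V, R, q, a, m, r, h⟩ := hX hl
  obtain ⟨_, h2, _⟩ := plo_spec h hl
  rw [h0] at h2
  have hSr : (0 : ℝ) < S := by exact_mod_cast hS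
  simp only [Nat.cast_zero, neg_zero] at h2
  by_contra hcon
  push Not at hcon
  have := mul_neg_of_pos_of_neg hSr hcon
  linarith

theorem pup_zero {E : Pt} {X : ℕ} {v : ℝ} (hX : Enc E X v) (hl : X < 2 ^ 1662) (h0 : pup X = 0) :
    v ≤ 0 := by
  obtain ⟨c0, c1, c2, c3, V, R, q, a, m, r, h⟩ := hX hl
  obtain ⟨_, h2, _⟩ := pup_spec h hl
  rw [h0] at h2
  have hSr : (0 : ℝ) < S := by exact_mod_cast hS
  simp only [Nat.cast_zero] at h2
  by_contra hcon
  push Not at hcon
  have := mul_pos hSr hcon
  linarith

theorem ble_zero {n : ℕ} (h : Nat.ble n 0 = true) : n = 0 := Nat.le_zero.mp (Nat.le_of_ble_eq_true h)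

theorem ble_zero' {n : ℕ} (h : Nat.ble n 0 = false) : 0 < n := by
  rcases Nat.eq_zero_or_pos n with h0 | h0
  · subst h0
    exact absurd h (by decide)
  · exact h0

theorem enc_guard {E : Pt} {v : ℝ} {b : Bool} {T : ℕ} (h : b = true → Enc E T v) :
    Enc E (Bool.rec 0x40000000000000000000000000000000000000000000000000000000000000000000000000000000000000000000000000000000000000000000000000000000000000000000000000000000000000000000000000000000000000000000000000000000000000000000000000000000000000000000000000000000000000000000000000000000000000000000000000000000000000000000000000000000000000000000000000000000000000000000000000000000000000000000000000000000000000000000000000000000 T b) v := by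
  cases b
  · exact enc_bad E _ (by norm_num)
  · exact h rfl

theorem enc_ite {E : Pt} {v : ℝ} {b : Bool} {T F : ℕ} (h1 : b = true → Enc E T v)
    (h0 : b = false → Enc E F v) : Enc E (Bool.rec F T b) v := by
  cases b
  · exact h0 rfl
  · exact h1 rfl

/-- positive part -/
noncomputable def pps (X : ℕ) : ℕ :=
  Bool.rec 0x40000000000000000000000000000000000000000000000000000000000000000000000000000000000000000000000000000000000000000000000000000000000000000000000000000000000000000000000000000000000000000000000000000000000000000000000000000000000000000000000000000000000000000000000000000000000000000000000000000000000000000000000000000000000000000000000000000000000000000000000000000000000000000000000000000000000000000000000000000000 (Bool.rec (Bool.rec (Bool.rec 0x40000000000000000000000000000000000000000000000000000000000000000000000000000000000000000000000000000000000000000000000000000000000000000000000000000000000000000000000000000000000000000000000000000000000000000000000000000000000000000000000000000000000000000000000000000000000000000000000000000000000000000000000000000000000000000000000000000000000000000000000000000000000000000000000000000000000000000000000000000000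 (ppc X (pup X) (plo X) (prad X))
    (Nat.ble (prad X) 0x1000000000000000)) pzero (Nat.ble (pup X) 0)) (pnorm X) (Nat.ble (plo X) 0)) (Nat.ble X 0x3fffffffffffffffffffffffffffffffffffffffffffffffffffffffffffffffffffffffffffffffffffffffffffffffffffffffffffffffffffffffffffffffffffffffffffffffffffffffffffffffffffffffffffffffffffffffffffffffffffffffffffffffffffffffffffffffffffffffffffffffffffffffffffffffffffffffffffffffffffffffffffffffffffffffffffffffffffffffffffffffffffffffffffffffffffffffffffffffffffffffffffffffffffffffffffffffffffffffffffffffffffffffffffffff)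

theorem enc_pos {E : Pt} {X : ℕ} {v : ℝ} (hX : Enc E X v) : Enc E (pps X) (max v 0) := by
  unfold pps
  rcases hb : Nat.ble X 0x3fffffffffffffffffffffffffffffffffffffffffffffffffffffffffffffffffffffffffffffffffffffffffffffffffffffffffffffffffffffffffffffffffffffffffffffffffffffffffffffffffffffffffffffffffffffffffffffffffffffffffffffffffffffffffffffffffffffffffffffffffffffffffffffffffffffffffffffffffffffffffffffffffffffffffffffffffffffffffffffffffffffffffffffffffffffffffffffffffffffffffffffffffffffffffffffffffffffffffffffffffffffffffffffff with _ | _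
  · exact enc_bad E _ (by norm_num)
  have hl := lim1 hb
  rcases h1 : Nat.ble (plo X) 0 with _ | _
  · rcases h2 : Nat.ble (pup X) 0 with _ | _
    · rcases h3 : Nat.ble (prad X) 0x1000000000000000 with _ | _
      · exact enc_bad E _ (by norm_num)
      · have h3' : prad X ≤ 2 ^ 60 := le_trans (Nat.le_of_ble_eq_true h3) (by norm_num)
        exact enc_ppc hX hl (ble_zero' h2) (ble_zero' h1) h3'
    · rw [max_eq_right (pup_zero hX hl (ble_zero h2))]
      exact enc_zero E
  · rw [max_eq_left (plo_zero hX hl (ble_zero h1))]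
    exact enc_norm hX

/-- absolute value -/
noncomputable def pabs (X : ℕ) : ℕ :=
  Bool.rec 0x40000000000000000000000000000000000000000000000000000000000000000000000000000000000000000000000000000000000000000000000000000000000000000000000000000000000000000000000000000000000000000000000000000000000000000000000000000000000000000000000000000000000000000000000000000000000000000000000000000000000000000000000000000000000000000000000000000000000000000000000000000000000000000000000000000000000000000000000000000000 (Bool.rec (Bool.rec (Bool.rec 0x40000000000000000000000000000000000000000000000000000000000000000000000000000000000000000000000000000000000000000000000000000000000000000000000000000000000000000000000000000000000000000000000000000000000000000000000000000000000000000000000000000000000000000000000000000000000000000000000000000000000000000000000000000000000000000000000000000000000000000000000000000000000000000000000000000000000000000000000000000000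
    (psub (pnat 2 (ppc X (pup X) (plo X) (prad X))) X)
    (Nat.ble (prad X) 0x1000000000000000)) (pneg (pnorm X)) (Nat.ble (pup X) 0)) (pnorm X) (Nat.ble (plo X) 0))
    (Nat.ble X 0x3fffffffffffffffffffffffffffffffffffffffffffffffffffffffffffffffffffffffffffffffffffffffffffffffffffffffffffffffffffffffffffffffffffffffffffffffffffffffffffffffffffffffffffffffffffffffffffffffffffffffffffffffffffffffffffffffffffffffffffffffffffffffffffffffffffffffffffffffffffffffffffffffffffffffffffffffffffffffffffffffffffffffffffffffffffffffffffffffffffffffffffffffffffffffffffffffffffffffffffffffffffffffffffffff)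

theorem enc_abs {E : Pt} {X : ℕ} {v : ℝ} (hX : Enc E X v) : Enc E (pabs X) |v| := by
  unfold pabs
  rcases hb : Nat.ble X 0x3fffffffffffffffffffffffffffffffffffffffffffffffffffffffffffffffffffffffffffffffffffffffffffffffffffffffffffffffffffffffffffffffffffffffffffffffffffffffffffffffffffffffffffffffffffffffffffffffffffffffffffffffffffffffffffffffffffffffffffffffffffffffffffffffffffffffffffffffffffffffffffffffffffffffffffffffffffffffffffffffffffffffffffffffffffffffffffffffffffffffffffffffffffffffffffffffffffffffffffffffffffffffffffffff with _ | _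
  · exact enc_bad E _ (by norm_num)
  have hl := lim1 hb
  rcases h1 : Nat.ble (plo X) 0 with _ | _
  · rcases h2 : Nat.ble (pup X) 0 with _ | _
    · rcases h3 : Nat.ble (prad X) 0x1000000000000000 with _ | _
      · exact enc_bad E _ (by norm_num)
      · have h3' : prad X ≤ 2 ^ 60 := le_trans (Nat.le_of_ble_eq_true h3) (by norm_num)
        have h4 := enc_sub (enc_nat 2 (enc_ppc hX hl (ble_zero' h2) (ble_zero' h1) h3')) hX
        have e : ((2 : ℕ) : ℝ) * max v 0 - v = |v| := by
          push_cast
          rcases le_total 0 v with h | h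
          · rw [max_eq_left h, abs_of_nonneg h]; ring
          · rw [max_eq_right h, abs_of_nonpos h]; ring
        rw [e] at h4
        exact h4
    · rw [abs_of_nonpos (pup_zero hX hl (ble_zero h2))]
      exact enc_neg (enc_norm hX)
  · rw [abs_of_nonneg (plo_zero hX hl (ble_zero h1))]
    exact enc_norm hX

/-- maximum -/
noncomputable def pmax (X Y : ℕ) : ℕ := padd Y (pps (psub X Y))

theorem enc_max {E : Pt} {X Y : ℕ} {v w : ℝ} (hX : Enc E X v) (hY : Enc E Y w) :
    Enc E (pmax X Y) (max v w) := by
  have h := enc_add hY (enc_pos (enc_sub hX hY))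
  have e : w + max (v - w) 0 = max v w := by
    rcases le_total v w with h | h
    · rw [max_eq_right (by linarith : v - w ≤ 0), max_eq_right h]; ring
    · rw [max_eq_left (by linarith : 0 ≤ v - w), max_eq_left h]; ring
  rw [e] at h
  exact h

/-- minimum -/
noncomputable def pmin (X Y : ℕ) : ℕ := psub X (pps (psub X Y))

theorem enc_min {E : Pt} {X Y : ℕ} {v w : ℝ} (hX : Enc E X v) (hY : Enc E Y w) :
    Enc E (pmin X Y) (min v w) := by
  have h := enc_sub hX (enc_pos (enc_sub hX hY))
  have e : v - max (v - w) 0 = min v w := by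
    rcases le_total v w with h | h
    · rw [max_eq_right (by linarith : v - w ≤ 0), min_eq_left h]; ring
    · rw [max_eq_left (by linarith : 0 ≤ v - w), min_eq_right h]; ring
  rw [e] at h
  exact h

/-- enlarged by `e` units -/
def pinfl (X e : ℕ) : ℕ := Nat.add X (Nat.add (Nat.mul e 0x1000000000000000000000001000000000000000000000001000000000000000000000000000000000000000000000000000000000000000000000000000000000000000000000000000000000000000000000000000000000000000000000000000000000000000000000000000000000000000000000000000000000000000000000000000000000000000000000000000000000000000000000000000000000000000000000000) 0x1000000000000000000000000000000000000000000000000000000000000000000000000000000000000000000000000000000000000000000000000000000000000000000000000000000000000000000000000000000000000000000000000000000000000000000000000000000000000000000000000000000000000000000000000000000000000000000000000000000000000000000000000000000000000000000000000000000000000000000000000000000000000000000000000000000000000000000000000)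

theorem enc_infl {E : Pt} {X e : ℕ} {v w : ℝ} (hX : Enc E X v) (he : e ≤ 2 ^ 60)
    (h : |(S : ℝ) * w - S * v| ≤ (e : ℝ)) : Enc E (pinfl X e) w := by
  have h1 : (0x1000000000000000000000001000000000000000000000001000000000000000000000000000000000000000000000000000000000000000000000000000000000000000000000000000000000000000000000000000000000000000000000000000000000000000000000000000000000000000000000000000000000000000000000000000000000000000000000000000000000000000000000000000000000000000000000000 : ℕ) = 2 ^ 1152 * (1 + 2 ^ 96 + 2 ^ 192) := by norm_num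
  have h3 : (0x1000000000000000000000000000000000000000000000000000000000000000000000000000000000000000000000000000000000000000000000000000000000000000000000000000000000000000000000000000000000000000000000000000000000000000000000000000000000000000000000000000000000000000000000000000000000000000000000000000000000000000000000000000000000000000000000000000000000000000000000000000000000000000000000000000000000000000000000000 : ℕ) = 2 ^ 1152 * 2 ^ 480 := by norm_num
  have e0 : pinfl X e = X + (e * 0x1000000000000000000000001000000000000000000000001000000000000000000000000000000000000000000000000000000000000000000000000000000000000000000000000000000000000000000000000000000000000000000000000000000000000000000000000000000000000000000000000000000000000000000000000000000000000000000000000000000000000000000000000000000000000000000000000 + 0x1000000000000000000000000000000000000000000000000000000000000000000000000000000000000000000000000000000000000000000000000000000000000000000000000000000000000000000000000000000000000000000000000000000000000000000000000000000000000000000000000000000000000000000000000000000000000000000000000000000000000000000000000000000000000000000000000000000000000000000000000000000000000000000000000000000000000000000000000)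 := rfl
  intro hT
  rw [e0] at hT ⊢
  obtain ⟨c0, c1, c2, c3, V, R, q, a, m, r, hr⟩ := hX (by omega)
  have g0 := hr.dec
  have g1 := hr.hV
  have g3 := hr.hR
  have g5 := hr.hq
  have g7 := hr.ha
  have herr := hr.err
  rw [h1, h3]
  refine ⟨c0, c1, c2, c3, V, R + e, q + e, a + e, m + 1, r + e, ⟨?_, by omega, hr.cong, by omega,
    by omega, by omega, ?_, ?_, ?_, ?_⟩⟩
  · rw [g0]; ring
  · rw [abs_le] at h herr ⊢
    constructor <;> linarith [h.1, h.2, herr.1, herr.2]
  · push_cast
    linarith [hr.rR]
  · push_cast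
    linarith [hr.eq]
  · push_cast
    linarith [hr.ea]

/-- bound of the absolute value -/
def pmag (X : ℕ) : ℕ := Nat.add (Nat.add (Nat.land (pab X) 0xffffffffffffffffffffffff) 1) (prad X)

theorem pmag_spec {E : Pt} {X : ℕ} {v : ℝ} (hX : Enc E X v) (hl : X < 2 ^ 1662) :
    |(S : ℝ) * v| ≤ (pmag X : ℕ) := by
  obtain ⟨c0, c1, c2, c3, V, R, q, a, m, r, h⟩ := hX hl
  obtain ⟨s0, _, _, _⟩ := pab_spec h hl
  have h1 := near_rad h hl
  have h2 : pmag X = Nat.land (pab X) 0xffffffffffffffffffffffff + 1 + prad X := rfl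
  have h4 : |(S : ℝ) * v| ≤ |(S : ℝ) * v - c0| + |(c0 : ℝ)| := by
    have := abs_add_le ((S : ℝ) * v - c0) c0
    simpa using this
  rw [h2]
  push_cast
  linarith

/-- bound of the affine part -/
def paf (X : ℕ) : ℕ := Nat.add (Nat.add (Nat.land (pab X) 0xffffffffffffffffffffffff) (plin X)) 4

/-- the remainder set to zero -/
def pstrip (X : ℕ) : ℕ := Nat.sub X (Nat.shiftLeft (prem X) 1152)

/-- maximum of naturals -/
def pmx (a b : ℕ) : ℕ := Nat.add a (Nat.sub b a)

theorem pmx_le (a b : ℕ) : a ≤ pmx a b ∧ b ≤ pmx a b ∧ pmx a b ≤ a + b := by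
  have e : pmx a b = a + (b - a) := rfl
  rw [e]
  omega

/-- half of the distance of two forms plus the larger remainder -/
def phd (X Y : ℕ) : ℕ := Nat.add (Nat.shiftRight (paf (psub X Y)) 1) (Nat.add (pmx (prem X) (prem Y)) 1)

noncomputable def phull2 (D e Z : ℕ) : ℕ :=
  Bool.rec 0x40000000000000000000000000000000000000000000000000000000000000000000000000000000000000000000000000000000000000000000000000000000000000000000000000000000000000000000000000000000000000000000000000000000000000000000000000000000000000000000000000000000000000000000000000000000000000000000000000000000000000000000000000000000000000000000000000000000000000000000000000000000000000000000000000000000000000000000000000000000 (Bool.rec 0x40000000000000000000000000000000000000000000000000000000000000000000000000000000000000000000000000000000000000000000000000000000000000000000000000000000000000000000000000000000000000000000000000000000000000000000000000000000000000000000000000000000000000000000000000000000000000000000000000000000000000000000000000000000000000000000000000000000000000000000000000000000000000000000000000000000000000000000000000000000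 (pinfl Z e) (Nat.ble e 0x1000000000000000)) (Nat.ble D 0x3fffffffffffffffffffffffffffffffffffffffffffffffffffffffffffffffffffffffffffffffffffffffffffffffffffffffffffffffffffffffffffffffffffffffffffffffffffffffffffffffffffffffffffffffffffffffffffffffffffffffffffffffffffffffffffffffffffffffffffffffffffffffffffffffffffffffffffffffffffffffffffffffffffffffffffffffffffffffffffffffffffffffffffffffffffffffffffffffffffffffffffffffffffffffffffffffffffffffffffffffffffffffffffffff)

/-- common enclosure of two numbers -/
noncomputable def phull (X Y : ℕ) : ℕ := phull2 (psub X Y) (phd X Y) (phf (pstrip (padd X Y)))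

theorem enc_hull2 {E : Pt} {D e Z : ℕ} {z x : ℝ} (hZ : D < 2 ^ 1662 → Enc E Z x)
    (h : D < 2 ^ 1662 → |(S : ℝ) * z - S * x| ≤ (e : ℝ)) : Enc E (phull2 D e Z) z := by
  unfold phull2
  refine enc_guard fun hb => enc_guard fun hb2 => ?_
  have he : e ≤ 2 ^ 60 := le_trans (Nat.le_of_ble_eq_true hb2) (by norm_num)
  exact enc_infl (hZ (lim1 hb)) he (h (lim1 hb))

/-- the value of the affine part -/
noncomputable def aff (E : Pt) (c0 c1 c2 c3 : ℤ) : ℝ :=
  (c0 + (c1 * E.e1 + c2 * E.e2 + c3 * E.e3)) / S

theorem aff_mul (E : Pt) (c0 c1 c2 c3 : ℤ) :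
    (S : ℝ) * aff E c0 c1 c2 c3 = c0 + (c1 * E.e1 + c2 * E.e2 + c3 * E.e3) := by
  have hSr : (S : ℝ) ≠ 0 := by exact_mod_cast hS.ne'
  unfold aff
  field_simp

theorem rep_strip {E : Pt} {X : ℕ} {v : ℝ} {c0 c1 c2 c3 : ℤ} {V R q a m : ℕ} {r : ℝ}
    (h : Rep E X v c0 c1 c2 c3 V R q a m r) (hX : X < 2 ^ 1662) :
    Enc E (pstrip X) (aff E c0 c1 c2 c3) := by
  have hR := prem_spec h hX
  have g0 := h.dec
  have e : pstrip X = V + 2 ^ 1152 * (0 + 2 ^ 96 * q + 2 ^ 192 * a + 2 ^ 480 * m) := by
    have e1 : pstrip X = X - Nat.shiftLeft (prem X) 1152 := rfl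
    rw [e1, shl_eq, hR, g0]
    have : V + 2 ^ 1152 * (R + 2 ^ 96 * q + 2 ^ 192 * a + 2 ^ 480 * m) =
      (V + 2 ^ 1152 * (0 + 2 ^ 96 * q + 2 ^ 192 * a + 2 ^ 480 * m)) + R * 2 ^ 1152 := by ring
    rw [this, Nat.add_sub_cancel]
  have r0 : 0 ≤ r := (abs_nonneg _).trans h.err
  intro _
  refine ⟨c0, c1, c2, c3, V, 0, q, a, m, 0, ⟨e, h.hV, h.cong, Nat.zero_le _, h.hq, h.ha, ?_, by simp,
    ?_, ?_⟩⟩
  · rw [aff_mul, sub_self, abs_zero]
  · linarith [h.eq]
  · linarith [h.ea]

/-- uniqueness of the coefficients -/
theorem coef_unique {E E' : Pt} {X : ℕ} {v v' : ℝ} {c0 c1 c2 c3 d0 d1 d2 d3 : ℤ}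
    {V R q a m V' R' q' a' m' : ℕ} {r r' : ℝ} (h : Rep E X v c0 c1 c2 c3 V R q a m r)
    (h' : Rep E' X v' d0 d1 d2 d3 V' R' q' a' m' r') (hX : X < 2 ^ 1662) :
    c0 = d0 ∧ c1 = d1 ∧ c2 = d2 ∧ c3 = d3 := by
  obtain ⟨u0, u1, u2, u3, K, l0, l1, l2, l3, e0, e1, e2, e3, hW, _⟩ := decode h hX
  obtain ⟨w0, w1, w2, w3, K', l0', l1', l2', l3', e0', e1', e2', e3', hW', _⟩ := decode h' hX
  rw [hW] at hW'
  have a0 : u0 = w0 := by omega
  have a1 : u1 = w1 := by omega
  have a2 : u2 = w2 := by omega
  have a3 : u3 = w3 := by omega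
  refine ⟨?_, ?_, ?_, ?_⟩ <;> omega

theorem rep_add {E : Pt} {X Y : ℕ} {v w : ℝ} {c0 c1 c2 c3 d0 d1 d2 d3 : ℤ}
    {V R q a m V' R' q' a' m' : ℕ} {r r' : ℝ} (h : Rep E X v c0 c1 c2 c3 V R q a m r)
    (h' : Rep E Y w d0 d1 d2 d3 V' R' q' a' m' r') :
    Rep E (padd X Y) (v + w) (c0 + d0) (c1 + d1) (c2 + d2) (c3 + d3) (V + V') (R + R') (q + q')
      (a + a') (m + m') (r + r') := by
  have g1 := h.hV
  have g2 := h'.hV
  have g3 := h.hR
  have g4 := h'.hR
  have g5 := h.hq
  have g6 := h'.hq
  have g7 := h.ha
  have g8 := h'.ha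
  refine ⟨?_, by omega, ?_, by omega, by omega, by omega, ?_, ?_, ?_, ?_⟩
  · change X + Y = _
    rw [h.dec, h'.dec]; ring
  · have e : ((V + V' : ℕ) : ℤ) - pk (c0 + d0) (c1 + d1) (c2 + d2) (c3 + d3) =
        ((V : ℤ) - pk c0 c1 c2 c3) + ((V' : ℤ) - pk d0 d1 d2 d3) := by
      unfold pk; push_cast; ring
    rw [e]
    exact dvd_add h.cong h'.cong
  · have h1 := h.err
    have h2 := h'.err
    push_cast
    rw [abs_le] at h1 h2 ⊢
    constructor <;> linarith [h1.1, h1.2, h2.1, h2.2]
  · push_cast; linarith [h.rR, h'.rR]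
  · push_cast
    linarith [h.eq, h'.eq, abs_add_le (c1 : ℝ) d1, abs_add_le (c2 : ℝ) d2, abs_add_le (c3 : ℝ) d3]
  · push_cast
    linarith [h.ea, h'.ea, abs_add_le (c1 : ℝ) d1, abs_add_le (c2 : ℝ) d2, abs_add_le (c3 : ℝ) d3,
      abs_add_le (c0 : ℝ) d0]

theorem rep_sub {E : Pt} {X Y : ℕ} {v w : ℝ} {c0 c1 c2 c3 d0 d1 d2 d3 : ℤ}
    {V R q a m V' R' q' a' m' : ℕ} {r r' : ℝ} (h : Rep E X v c0 c1 c2 c3 V R q a m r)
    (h' : Rep E Y w d0 d1 d2 d3 V' R' q' a' m' r') :
    Rep E (psub X Y) (v - w) (c0 - d0) (c1 - d1) (c2 - d2) (c3 - d3)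
      (V + (V' + 2 ^ 576) - 2 * (V' % 2 ^ 576)) (R + R') (q + q') (a + a') (m + m') (r + r') := by
  rw [psub_eq]
  have g1 := h.hV
  have g2 := h'.hV
  have g3 := h.hR
  have g4 := h'.hR
  have g5 := h.hq
  have g6 := h'.hq
  have g7 := h.ha
  have g8 := h'.ha
  have hm := mod_of_dec h'.dec
  refine ⟨?_, by omega, ?_, by omega, by omega, by omega, ?_, ?_, ?_, ?_⟩
  · rw [hm, h.dec, h'.dec]; omega
  · have e1 : ((V + (V' + 2 ^ 576) - 2 * (V' % 2 ^ 576) : ℕ) : ℤ) =
        (V : ℤ) + V' + 2 ^ 576 - 2 * ((V' : ℤ) % 2 ^ 576) := by omega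
    have e2 : (V' : ℤ) % 2 ^ 576 = V' - 2 ^ 576 * ((V' : ℤ) / 2 ^ 576) := by
      have := Int.emod_add_mul_ediv (V' : ℤ) (2 ^ 576)
      linarith
    rw [e1, e2]
    have e : (V : ℤ) + V' + 2 ^ 576 - 2 * (V' - 2 ^ 576 * ((V' : ℤ) / 2 ^ 576)) -
        pk (c0 - d0) (c1 - d1) (c2 - d2) (c3 - d3) =
        ((V : ℤ) - pk c0 c1 c2 c3) - ((V' : ℤ) - pk d0 d1 d2 d3) +
          2 ^ 576 * (1 + 2 * ((V' : ℤ) / 2 ^ 576)) := by
      unfold pk; ring
    rw [e]
    exact dvd_add (dvd_sub h.cong h'.cong) (dvd_mul_right _ _)
  · have h1 := h.err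
    have h2 := h'.err
    push_cast
    rw [abs_le] at h1 h2 ⊢
    constructor <;> linarith [h1.1, h1.2, h2.1, h2.2]
  · push_cast; linarith [h.rR, h'.rR]
  · push_cast
    linarith [h.eq, h'.eq, abs_sub (c1 : ℝ) d1, abs_sub (c2 : ℝ) d2, abs_sub (c3 : ℝ) d3]
  · push_cast
    linarith [h.ea, h'.ea, abs_sub (c1 : ℝ) d1, abs_sub (c2 : ℝ) d2, abs_sub (c3 : ℝ) d3,
      abs_sub (c0 : ℝ) d0]

theorem paf_spec {E : Pt} {X : ℕ} {v : ℝ} {c0 c1 c2 c3 : ℤ} {V R q a m : ℕ} {r : ℝ}
    (h : Rep E X v c0 c1 c2 c3 V R q a m r) (hX : X < 2 ^ 1662) :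
    |(c0 : ℝ) + (c1 * E.e1 + c2 * E.e2 + c3 * E.e3)| ≤ (paf X : ℕ) := by
  obtain ⟨s0, s1, _, _⟩ := pab_spec h hX
  have hl : plin X = Nat.mod (Nat.shiftRight (pab X) 288) 0xffffffffffffffffffffffff := rfl
  rw [← hl] at s1
  have h2 : paf X = Nat.land (pab X) 0xffffffffffffffffffffffff + plin X + 4 := rfl
  have h3 := lin_le E c1 c2 c3
  have h4 := abs_add_le (c0 : ℝ) (c1 * E.e1 + c2 * E.e2 + c3 * E.e3)
  rw [h2]
  push_cast
  linarith

theorem psub_lt {X Y : ℕ} (h : psub X Y < 2 ^ 1662) : X < 2 ^ 1662 ∧ Y < 2 ^ 1662 := by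
  rw [psub_eq] at h
  constructor <;> omega

theorem phd_le {x R R' p n : ℕ} (h : n = x / 2 + (p + 1)) (h1 : R ≤ p) (h2 : R' ≤ p) :
    (x : ℝ) / 2 + R ≤ n ∧ (x : ℝ) / 2 + R' ≤ n := by
  have h3 : (x : ℝ) ≤ 2 * ((x / 2 : ℕ) : ℝ) + 1 := by
    have : x ≤ 2 * (x / 2) + 1 := by omega
    exact_mod_cast this
  have h4 : (R : ℝ) ≤ p := by exact_mod_cast h1
  have h5 : (R' : ℝ) ≤ p := by exact_mod_cast h2
  rw [h]
  push_cast
  constructor <;> linarith

theorem enc_hull {E : Pt} {X Y : ℕ} {v w z : ℝ} (hX : Enc E X v) (hY : Enc E Y w)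
    (hz : z = v ∨ z = w) : Enc E (phull X Y) z := by
  unfold phull
  by_cases hD : psub X Y < 2 ^ 1662
  swap
  · exact enc_hull2 (x := 0) (fun h => absurd h hD) (fun h => absurd h hD)
  obtain ⟨hlX, hlY⟩ := psub_lt hD
  obtain ⟨c0, c1, c2, c3, V, R, q, a, m, r, h⟩ := hX hlX
  obtain ⟨d0, d1, d2, d3, V', R', q', a', m', r', h'⟩ := hY hlY
  have hA := rep_add h h'
  have hS' := rep_sub h h'
  have k1 := paf_spec hS' hD
  have e1 := prem_spec h hlX
  have e2 := prem_spec h' hlY
  have hn : phd X Y = paf (psub X Y) / 2 + (pmx (prem X) (prem Y) + 1) := by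
    have : phd X Y = Nat.shiftRight (paf (psub X Y)) 1 + (pmx (prem X) (prem Y) + 1) := rfl
    rw [this, shr_eq, pow_one]
  obtain ⟨p1, p2, _⟩ := pmx_le (prem X) (prem Y)
  obtain ⟨q1, q2⟩ := phd_le hn p1 p2
  rw [e1] at q1
  rw [e2] at q2
  refine enc_hull2 (x := aff E (c0 + d0) (c1 + d1) (c2 + d2) (c3 + d3) / 2) (fun _ => ?_) (fun _ => ?_)
  · by_cases hl : padd X Y < 2 ^ 1662
    · exact enc_half (rep_strip hA hl)
    · refine enc_half (enc_bad E _ ?_)
      exfalso
      have g1 := h.dec
      have g2 := h'.dec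
      have g3 := hS'.dec
      have g4 := hA.dec
      have g5 := hA.hV
      rw [g4] at hl
      rw [g3] at hD
      omega
  · have t1 : (S : ℝ) * (aff E (c0 + d0) (c1 + d1) (c2 + d2) (c3 + d3) / 2) =
        ((c0 + d0 : ℤ) + ((c1 + d1 : ℤ) * E.e1 + (c2 + d2 : ℤ) * E.e2 + (c3 + d3 : ℤ) * E.e3)) / 2 := by
      rw [← aff_mul]; ring
    rw [t1]
    have herr := h.err
    have herr' := h'.err
    have hr := h.rR
    have hr' := h'.rR
    push_cast at k1 ⊢
    rcases hz with rfl | rfl
    · rw [abs_le] at k1 herr ⊢
      constructor <;> linarith [k1.1, k1.2, herr.1, herr.2]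
    · rw [abs_le] at k1 herr' ⊢
      constructor <;> linarith [k1.1, k1.2, herr'.1, herr'.2]

/-- decision: nonpositive -/
noncomputable def pnp (X : ℕ) : Bool := Bool.rec false (Nat.ble (pup X) 0) (Nat.ble X 0x3fffffffffffffffffffffffffffffffffffffffffffffffffffffffffffffffffffffffffffffffffffffffffffffffffffffffffffffffffffffffffffffffffffffffffffffffffffffffffffffffffffffffffffffffffffffffffffffffffffffffffffffffffffffffffffffffffffffffffffffffffffffffffffffffffffffffffffffffffffffffffffffffffffffffffffffffffffffffffffffffffffffffffffffffffffffffffffffffffffffffffffffffffffffffffffffffffffffffffffffffffffffffffffffff)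

theorem pnp_sound {E : Pt} {X : ℕ} {v : ℝ} (hX : Enc E X v) (h : pnp X = true) : v ≤ 0 := by
  unfold pnp at h
  rcases hb : Nat.ble X 0x3fffffffffffffffffffffffffffffffffffffffffffffffffffffffffffffffffffffffffffffffffffffffffffffffffffffffffffffffffffffffffffffffffffffffffffffffffffffffffffffffffffffffffffffffffffffffffffffffffffffffffffffffffffffffffffffffffffffffffffffffffffffffffffffffffffffffffffffffffffffffffffffffffffffffffffffffffffffffffffffffffffffffffffffffffffffffffffffffffffffffffffffffffffffffffffffffffffffffffffffffffffffffffffffff with _ | _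
  · rw [hb] at h; exact absurd h (by simp)
  rw [hb] at h
  exact pup_zero hX (lim1 hb) (ble_zero h)

/-- square root, `0` if the argument is certainly not positive, flat enclosure if positivity is not
certain -/
noncomputable def psqrtg (X : ℕ) : ℕ :=
  Bool.rec (motive := fun _ => ℕ) (psqrtg1 X) pzero (pnp X)

theorem enc_sqrtg {E : Pt} {X : ℕ} {v : ℝ} (hX : Enc E X v) :
    Enc E (psqrtg X) (Real.sqrt v) := by
  unfold psqrtg
  refine enc_ite (fun h => ?_) (fun _ => enc_sqrtg1 hX)
  rw [Real.sqrt_eq_zero_of_nonpos (pnp_sound hX h)]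
  exact enc_zero E

/-- field with offset `2 ^ 95` at the position `k` -/
def pln (k X : ℕ) : ℕ := Nat.land (Nat.shiftRight (Nat.add X 0x800000000000000000000000800000000000000000000000800000000000000000000000000000000000000000000000000000000000000000000000800000000000000000000000) k) 0xffffffffffffffffffffffff

/-- distance from the offset -/
def pdf (x : ℕ) : ℕ := Nat.add (Nat.sub x 0x800000000000000000000000) (Nat.sub 0x800000000000000000000000 x)

/-- choice by comparison -/
noncomputable def pse (p c F T : ℕ) : ℕ := Bool.rec (motive := fun _ => ℕ) F T (Nat.ble p c)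

/-- position of the largest linear coefficient from the coefficients -/
noncomputable def pks (a1 a2 a3 : ℕ) : ℕ := pse a3 (pse a2 a1 a2 a1) 480 (pse a2 a1 384 288)

/-- position of the largest linear coefficient from the absolute values -/
noncomputable def pkp (A : ℕ) : ℕ :=
  pks (Nat.land (Nat.shiftRight A 288) 0xffffffffffffffffffffffff) (Nat.land (Nat.shiftRight A 384) 0xffffffffffffffffffffffff)
    (Nat.land (Nat.shiftRight A 480) 0xffffffffffffffffffffffff)

/-- undecided case with scalar `g` and sign `s` of the coefficient: `false` is plus -/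
noncomputable def pcs (s : Bool) (g C D Y : ℕ) : ℕ :=
  Bool.rec (motive := fun _ => ℕ)
    (padd (padd Y (psc g (pps (pneg C)))) (phull (padd D (psc g C)) pzero))
    (padd (psub Y (psc g (pps (pneg C)))) (phull (psub D (psc g C)) pzero)) s

/-- equality of truth values -/
def beq2 (a b : Bool) : Bool := Bool.rec (Bool.rec true false b) b a

/-- undecided case from the fields `d`, `c` of `D` and `C` -/
noncomputable def pcf (d c C D Y : ℕ) : ℕ :=
  pcs (beq2 (Nat.ble 0x800000000000000000000000 d) (Nat.ble 0x800000000000000000000000 c)) (Nat.div (Nat.shiftLeft (pdf d) 30) (pdf c)) C D Y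

noncomputable def pck (k C D Y : ℕ) : ℕ := pcf (pln k D) (pln k C) C D Y

/-- undecided case, forms without remainder -/
noncomputable def pcz (C X Y : ℕ) : ℕ := pck (pkp (pab C)) C (psub X Y) Y

/-- enlarged by `e` units, if `X`, `Y` are no error values -/
noncomputable def pcw (X Y e Z : ℕ) : ℕ :=
  Bool.rec 0x40000000000000000000000000000000000000000000000000000000000000000000000000000000000000000000000000000000000000000000000000000000000000000000000000000000000000000000000000000000000000000000000000000000000000000000000000000000000000000000000000000000000000000000000000000000000000000000000000000000000000000000000000000000000000000000000000000000000000000000000000000000000000000000000000000000000000000000000000000000 (Bool.rec 0x40000000000000000000000000000000000000000000000000000000000000000000000000000000000000000000000000000000000000000000000000000000000000000000000000000000000000000000000000000000000000000000000000000000000000000000000000000000000000000000000000000000000000000000000000000000000000000000000000000000000000000000000000000000000000000000000000000000000000000000000000000000000000000000000000000000000000000000000000000000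 (Bool.rec 0x40000000000000000000000000000000000000000000000000000000000000000000000000000000000000000000000000000000000000000000000000000000000000000000000000000000000000000000000000000000000000000000000000000000000000000000000000000000000000000000000000000000000000000000000000000000000000000000000000000000000000000000000000000000000000000000000000000000000000000000000000000000000000000000000000000000000000000000000000000000 (pinfl Z e) (Nat.ble e 0x1000000000000000))
    (Nat.ble Y 0x3fffffffffffffffffffffffffffffffffffffffffffffffffffffffffffffffffffffffffffffffffffffffffffffffffffffffffffffffffffffffffffffffffffffffffffffffffffffffffffffffffffffffffffffffffffffffffffffffffffffffffffffffffffffffffffffffffffffffffffffffffffffffffffffffffffffffffffffffffffffffffffffffffffffffffffffffffffffffffffffffffffffffffffffffffffffffffffffffffffffffffffffffffffffffffffffffffffffffffffffffffffffffffffffff)) (Nat.ble X 0x3fffffffffffffffffffffffffffffffffffffffffffffffffffffffffffffffffffffffffffffffffffffffffffffffffffffffffffffffffffffffffffffffffffffffffffffffffffffffffffffffffffffffffffffffffffffffffffffffffffffffffffffffffffffffffffffffffffffffffffffffffffffffffffffffffffffffffffffffffffffffffffffffffffffffffffffffffffffffffffffffffffffffffffffffffffffffffffffffffffffffffffffffffffffffffffffffffffffffffffffffffffffffffffffff)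

/-- undecided case -/
noncomputable def pcu (C X Y : ℕ) : ℕ := pcw X Y (pmx (prem X) (prem Y)) (pcz C (pstrip X) (pstrip Y))

/-- case distinction: `X` if the number enclosed by `C` is `≤ 0`, else `Y` -/
noncomputable def pcase (C X Y : ℕ) : ℕ :=
  Bool.rec (motive := fun _ => ℕ) (Bool.rec (motive := fun _ => ℕ) (pcu C X Y) Y (ppos C)) X (pnp C)

theorem enc_cs {E : Pt} {C D Y : ℕ} {c d w z : ℝ} (s : Bool) (g : ℕ) (hC : Enc E C c)
    (hD : Enc E D d) (hY : Enc E Y w) (hz : (c ≤ 0 ∧ z = w + d) ∨ (0 < c ∧ z = w)) :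
    Enc E (pcs s g C D Y) z := by
  have hP := enc_sc g (enc_pos (enc_neg hC))
  have hG := enc_sc g hC
  rcases s with _ | _
  · rcases hz with ⟨h, hz⟩ | ⟨h, hz⟩
    · have h1 := enc_add (enc_add hY hP) (enc_hull (enc_add hD hG) (enc_zero E) (Or.inl rfl))
      rw [max_eq_left (by linarith : 0 ≤ -c)] at h1
      have e : w + (g : ℝ) / S * -c + (d + (g : ℝ) / S * c) = z := by rw [hz]; ring
      rw [e] at h1
      exact h1
    · have h1 := enc_add (enc_add hY hP) (enc_hull (enc_add hD hG) (enc_zero E) (Or.inr rfl))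
      rw [max_eq_right (by linarith : -c ≤ 0)] at h1
      have e : w + (g : ℝ) / S * 0 + 0 = z := by rw [hz]; ring
      rw [e] at h1
      exact h1
  · rcases hz with ⟨h, hz⟩ | ⟨h, hz⟩
    · have h1 := enc_add (enc_sub hY hP) (enc_hull (enc_sub hD hG) (enc_zero E) (Or.inl rfl))
      rw [max_eq_left (by linarith : 0 ≤ -c)] at h1
      have e : w - (g : ℝ) / S * -c + (d - (g : ℝ) / S * c) = z := by rw [hz]; ring
      rw [e] at h1
      exact h1
    · have h1 := enc_add (enc_sub hY hP) (enc_hull (enc_sub hD hG) (enc_zero E) (Or.inr rfl))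
      rw [max_eq_right (by linarith : -c ≤ 0)] at h1
      have e : w - (g : ℝ) / S * 0 + 0 = z := by rw [hz]; ring
      rw [e] at h1
      exact h1

theorem enc_cz {E : Pt} {C X Y : ℕ} {c v w : ℝ} (hC : Enc E C c) (hX : Enc E X v)
    (hY : Enc E Y w) : Enc E (pcz C X Y) (if c ≤ 0 then v else w) := by
  unfold pcz pck pcf
  refine enc_cs _ _ hC (enc_sub hX hY) hY ?_
  split_ifs with h
  · exact Or.inl ⟨h, by ring⟩
  · exact Or.inr ⟨not_le.mp h, rfl⟩

theorem enc_strip {E : Pt} {X : ℕ} {v : ℝ} (hX : Enc E X v) (hl : X < 2 ^ 1662) :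
    ∃ w, Enc E (pstrip X) w ∧ |(S : ℝ) * v - S * w| ≤ (prem X : ℕ) := by
  obtain ⟨c0, c1, c2, c3, V, R, q, a, m, r, h⟩ := hX hl
  refine ⟨_, rep_strip h hl, ?_⟩
  rw [aff_mul, prem_spec h hl]
  exact h.err.trans h.rR

theorem enc_cu {E : Pt} {C X Y : ℕ} {c v w : ℝ} (hC : Enc E C c) (hX : Enc E X v)
    (hY : Enc E Y w) : Enc E (pcu C X Y) (if c ≤ 0 then v else w) := by
  unfold pcu pcw
  refine enc_guard fun hb => enc_guard fun hb2 => enc_guard fun hb3 => ?_
  have he : pmx (prem X) (prem Y) ≤ 2 ^ 60 := le_trans (Nat.le_of_ble_eq_true hb3) (by norm_num)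
  obtain ⟨v', hv, dv⟩ := enc_strip hX (lim1 hb)
  obtain ⟨w', hw, dw⟩ := enc_strip hY (lim1 hb2)
  obtain ⟨p1, p2, -⟩ := pmx_le (prem X) (prem Y)
  generalize pmx (prem X) (prem Y) = G at p1 p2 he ⊢
  have p1' : ((prem X : ℕ) : ℝ) ≤ G := by exact_mod_cast p1
  have p2' : ((prem Y : ℕ) : ℝ) ≤ G := by exact_mod_cast p2
  refine enc_infl (enc_cz hC hv hw) he ?_
  split_ifs
  · exact dv.trans p1'
  · exact dw.trans p2'

theorem enc_case {E : Pt} {C X Y : ℕ} {c v w : ℝ} (hC : Enc E C c) (hX : Enc E X v)
    (hY : Enc E Y w) : Enc E (pcase C X Y) (if c ≤ 0 then v else w) := by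
  unfold pcase
  have hU := enc_cu hC hX hY
  generalize pcu C X Y = U at hU ⊢
  refine enc_ite (fun h1 => ?_) (fun h1 => enc_ite (fun h2 => ?_) (fun h2 => hU))
  · rw [if_pos (pnp_sound hC h1)]
    exact hX
  · have h3 := ppos_sound hC h2
    rw [if_neg (not_le.mpr h3)]
    exact hY

/-! ### Quotients -/

theorem quot_line {c r e : ℕ} {x y : ℝ} (h1 : 4 * r + 2 ≤ 3 * c) (h2 : c ≤ 2 ^ 34) (h3 : e ≤ c)
    (hy : |y - c| ≤ (r : ℝ)) (hx : |x| ≤ (e : ℝ)) :
    0 < y ∧ x ^ 2 / (2 * y) ≤ ((e * e / (2 * (c - r)) + 1 : ℕ) : ℝ) ∧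
      e * e / (2 * (c - r)) + 1 ≤ 2 ^ 64 := by
  have hrc : r < c := by omega
  have hcr : ((c - r : ℕ) : ℝ) = (c : ℝ) - r := by rw [Nat.cast_sub hrc.le]
  have hrc' : (r : ℝ) < c := by exact_mod_cast hrc
  obtain ⟨y1, y2⟩ := abs_le.mp hy
  have y0 : 0 < y := by linarith
  refine ⟨y0, ?_, ?_⟩
  · have hcr0 : 0 < 2 * (c - r) := by omega
    obtain ⟨_, a2⟩ := fdiv (a := e * e) hcr0
    push_cast at a2 ⊢
    rw [hcr] at a2
    refine le_trans ?_ a2.le
    have hx2 : x ^ 2 ≤ (e : ℝ) * e := by
      rw [← sq_abs]
      have := mul_le_mul hx hx (abs_nonneg _) (Nat.cast_nonneg _)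
      rw [sq]
      exact this
    have hcp : (0 : ℝ) < c - r := by linarith
    apply div_le_div₀ (by positivity) hx2 (by positivity)
    linarith
  · have k1 : c ≤ 4 * (c - r) := by omega
    have k2 : e * e ≤ (2 * c) * (2 * (c - r)) := by
      calc e * e ≤ c * c := Nat.mul_le_mul h3 h3
        _ ≤ c * (4 * (c - r)) := Nat.mul_le_mul_left _ k1
        _ = (2 * c) * (2 * (c - r)) := by ring
    have k3 : e * e / (2 * (c - r)) ≤ 2 * c :=
      Nat.div_le_of_le_mul (by rw [mul_comm (2 * (c - r))]; exact k2)
    have k4 : (2 : ℕ) * 2 ^ 34 + 1 ≤ 2 ^ 64 := by norm_num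
    omega

/-- `psc` has no valid result for an error value -/
theorem psc_lt {g X : ℕ} (h : psc g X < 2 ^ 1662) : X < 2 ^ 1662 := by
  unfold psc pscK at h
  rcases hb2 : Nat.ble g 0x4000000000000 with _ | _
  · rw [hb2] at h
    exact absurd h (by norm_num)
  rcases hb : Nat.beq (Nat.lor X 0x3fffffff0000000000000000000000000000000000000000000000000000000000000fffffffffff0000000000000fffffffffff0000000000000fffffffffffffffffffffffffffffffffffffffffffffffffffffffffffffffffffffffffffffffffffffffffffffffffffffffffffffffffffffffffffffffffffffffffffffffffffffffffffffffffffffffffffffffffffffffffffffffffffffffffffffffffffffffffffffffffffffffffffffffffffffffffffffffffffffffffffffffffffffffffffffffffffffffffff) 0x3fffffff0000000000000000000000000000000000000000000000000000000000000fffffffffff0000000000000fffffffffff0000000000000fffffffffffffffffffffffffffffffffffffffffffffffffffffffffffffffffffffffffffffffffffffffffffffffffffffffffffffffffffffffffffffffffffffffffffffffffffffffffffffffffffffffffffffffffffffffffffffffffffffffffffffffffffffffffffffffffffffffffffffffffffffffffffffffffffffffffffffffffffffffffffffffffffffffffff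 with _ | _
  · rw [hb2, hb] at h
    exact absurd h (by norm_num)
  have hb0 : Nat.lor (Nat.lor X X) 0x3fffffff0000000000000000000000000000000000000000000000000000000000000fffffffffff0000000000000fffffffffff0000000000000fffffffffffffffffffffffffffffffffffffffffffffffffffffffffffffffffffffffffffffffffffffffffffffffffffffffffffffffffffffffffffffffffffffffffffffffffffffffffffffffffffffffffffffffffffffffffffffffffffffffffffffffffffffffffffffffffffffffffffffffffffffffffffffffffffffffffffffffffffffffffffffffffffffffffff = 0x3fffffff0000000000000000000000000000000000000000000000000000000000000fffffffffff0000000000000fffffffffff0000000000000fffffffffffffffffffffffffffffffffffffffffffffffffffffffffffffffffffffffffffffffffffffffffffffffffffffffffffffffffffffffffffffffffffffffffffffffffffffffffffffffffffffffffffffffffffffffffffffffffffffffffffffffffffffffffffffffffffffffffffffffffffffffffffffffffffffffffffffffffffffffffffffffffffffffffff := by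
    have h1 := Nat.eq_of_beq_eq_true hb
    have h2 : Nat.lor X X = X := Nat.or_self X
    rw [h2]; exact h1
  have hb' := (or_eq_left hb0).1
  have hAL : (0x3fffffff0000000000000000000000000000000000000000000000000000000000000fffffffffff0000000000000fffffffffff0000000000000fffffffffffffffffffffffffffffffffffffffffffffffffffffffffffffffffffffffffffffffffffffffffffffffffffffffffffffffffffffffffffffffffffffffffffffffffffffffffffffffffffffffffffffffffffffffffffffffffffffffffffffffffffffffffffffffffffffffffffffffffffffffffffffffffffffffffffffffffffffffffffffffffffffffffff : ℕ) < 2 ^ 1662 := by norm_num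
  exact lt_of_le_of_lt (by rw [← hb']; exact Nat.and_le_right) hAL

theorem div_line {c r e : ℕ} {x y : ℝ} (h1 : 8 * r + 8 ≤ 7 * c) (h3 : e ≤ c)
    (hy : |y - c| ≤ (r : ℝ)) (hx : |x| ≤ (e : ℝ)) :
    0 < y ∧ |2 ^ 30 * (x / y) - ((2 ^ 60 / c : ℕ) : ℝ) / 2 ^ 30 * x| ≤
      ((e * r * 2 ^ 30 / (c * (c - r)) + e / 2 ^ 30 + 2 : ℕ) : ℝ) ∧
      e * r * 2 ^ 30 / (c * (c - r)) + e / 2 ^ 30 + 2 ≤ 2 ^ 60 ∨ 2 ^ 34 < c := by
  by_cases h2 : c ≤ 2 ^ 34
  swap
  · exact Or.inr (by omega)
  refine Or.inl ?_
  have hrc : r < c := by omega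
  have hc0 : 0 < c := by omega
  have hcr : ((c - r : ℕ) : ℝ) = (c : ℝ) - r := by rw [Nat.cast_sub hrc.le]
  have hrc' : (r : ℝ) < c := by exact_mod_cast hrc
  have hc0' : (0 : ℝ) < c := by exact_mod_cast hc0
  have hcp : (0 : ℝ) < c - r := by linarith
  obtain ⟨y1, y2⟩ := abs_le.mp hy
  have y0 : 0 < y := by linarith
  refine ⟨y0, ?_, ?_⟩
  · obtain ⟨a1, a2⟩ := fdiv (a := 2 ^ 60) hc0
    obtain ⟨_, b2⟩ := fdiv (a := e * r * 2 ^ 30) (Nat.mul_pos hc0 (by omega : 0 < c - r))
    obtain ⟨_, d2⟩ := fshr e 30
    push_cast at a1 a2 b2 d2 ⊢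
    rw [hcr] at b2
    generalize ((2 ^ 60 / c : ℕ) : ℝ) = G at a1 a2 ⊢
    generalize ((e * r * 2 ^ 30 / (c * (c - r)) : ℕ) : ℝ) = q at b2 ⊢
    generalize ((e / 2 ^ 30 : ℕ) : ℝ) = q2 at d2 ⊢
    have e1 : 2 ^ 30 * (x / y) - G / 2 ^ 30 * x =
        x * (2 ^ 30 * ((c - y) / (c * y)) + (2 ^ 60 / (c : ℝ) - G) / 2 ^ 30) := by
      field_simp
      ring
    rw [e1, abs_mul]
    have k1 : |(2 : ℝ) ^ 30 * ((c - y) / (c * y)) + (2 ^ 60 / (c : ℝ) - G) / 2 ^ 30| ≤
        2 ^ 30 * ((r : ℝ) / (c * (c - r))) + 1 / 2 ^ 30 := by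
      refine (abs_add_le _ _).trans (add_le_add ?_ ?_)
      · rw [abs_mul, abs_div, abs_of_pos (by positivity : (0 : ℝ) < 2 ^ 30),
          abs_of_pos (mul_pos hc0' y0)]
        refine mul_le_mul_of_nonneg_left ?_ (by positivity)
        have m1 : |(c : ℝ) - y| ≤ r := by rw [abs_sub_comm]; exact hy
        refine div_le_div₀ (Nat.cast_nonneg _) m1 (mul_pos hc0' hcp) ?_
        exact mul_le_mul_of_nonneg_left (by linarith) hc0'.le
      · rw [abs_of_nonneg (div_nonneg (by linarith) (by positivity))]
        exact div_le_div_of_nonneg_right (by linarith) (by positivity)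
    have k2 := mul_le_mul hx k1 (abs_nonneg _) (Nat.cast_nonneg e)
    refine k2.trans ?_
    have e2 : (e : ℝ) * (2 ^ 30 * (r / (c * (c - r))) + 1 / 2 ^ 30) =
        (e : ℝ) * r * 2 ^ 30 / (c * (c - r)) + (e : ℝ) / 2 ^ 30 := by ring
    rw [e2]
    linarith
  · have k1 : r ≤ 7 * (c - r) := by omega
    have k2 : e * r * 2 ^ 30 ≤ (7 * 2 ^ 30) * (c * (c - r)) := by
      calc e * r * 2 ^ 30 ≤ c * (7 * (c - r)) * 2 ^ 30 := by
            apply Nat.mul_le_mul_right
            exact Nat.mul_le_mul h3 k1
        _ = (7 * 2 ^ 30) * (c * (c - r)) := by ring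
    have k3 : e * r * 2 ^ 30 / (c * (c - r)) ≤ 7 * 2 ^ 30 :=
      Nat.div_le_of_le_mul (by rw [mul_comm (c * (c - r))]; exact k2)
    have k4 : e / 2 ^ 30 ≤ 2 ^ 34 := by omega
    have k5 : 7 * 2 ^ 30 + 2 ^ 34 + 2 ≤ 2 ^ 60 := by norm_num
    omega

/-- the constant `t` plus `F / D`; `c`, `r` centre and radius of `D`, `e` bound of `F` -/
noncomputable def pdivq (F c r e t : ℕ) : ℕ :=
  Bool.rec 0x40000000000000000000000000000000000000000000000000000000000000000000000000000000000000000000000000000000000000000000000000000000000000000000000000000000000000000000000000000000000000000000000000000000000000000000000000000000000000000000000000000000000000000000000000000000000000000000000000000000000000000000000000000000000000000000000000000000000000000000000000000000000000000000000000000000000000000000000000000000 (Bool.rec 0x40000000000000000000000000000000000000000000000000000000000000000000000000000000000000000000000000000000000000000000000000000000000000000000000000000000000000000000000000000000000000000000000000000000000000000000000000000000000000000000000000000000000000000000000000000000000000000000000000000000000000000000000000000000000000000000000000000000000000000000000000000000000000000000000000000000000000000000000000000000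 (Bool.rec 0x40000000000000000000000000000000000000000000000000000000000000000000000000000000000000000000000000000000000000000000000000000000000000000000000000000000000000000000000000000000000000000000000000000000000000000000000000000000000000000000000000000000000000000000000000000000000000000000000000000000000000000000000000000000000000000000000000000000000000000000000000000000000000000000000000000000000000000000000000000000 (Bool.rec 0x40000000000000000000000000000000000000000000000000000000000000000000000000000000000000000000000000000000000000000000000000000000000000000000000000000000000000000000000000000000000000000000000000000000000000000000000000000000000000000000000000000000000000000000000000000000000000000000000000000000000000000000000000000000000000000000000000000000000000000000000000000000000000000000000000000000000000000000000000000000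
    (padd (pdc t 0) (pinfl (psc (Nat.div 0x1000000000000000 c) F) (Nat.add (Nat.add (Nat.div
      (Nat.shiftLeft (Nat.mul e r) 30) (Nat.mul c (Nat.sub c r))) (Nat.shiftRight e 30)) 2)))
    (Nat.ble e c)) (Nat.ble c 0x400000000)) (Nat.ble (Nat.add (Nat.mul 8 r) 8) (Nat.mul 7 c)))
    (Nat.ble F 0x3fffffffffffffffffffffffffffffffffffffffffffffffffffffffffffffffffffffffffffffffffffffffffffffffffffffffffffffffffffffffffffffffffffffffffffffffffffffffffffffffffffffffffffffffffffffffffffffffffffffffffffffffffffffffffffffffffffffffffffffffffffffffffffffffffffffffffffffffffffffffffffffffffffffffffffffffffffffffffffffffffffffffffffffffffffffffffffffffffffffffffffffffffffffffffffffffffffffffffffffffffffffffffffffff)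

noncomputable def pdiv1 (D F c t : ℕ) : ℕ := pdivq F c (prad D) (pmag F) t

noncomputable def pdiv2 (N D c t : ℕ) : ℕ := pdiv1 D (psub N (psc t D)) c t

/-- quotient of two forms, the second one positive -/
noncomputable def pdiv (N D : ℕ) : ℕ :=
  pdiv2 N D (pcc D) (Nat.div (Nat.shiftLeft (pcc N) 30) (pcc D))

theorem enc_divq {E : Pt} {F c r e t : ℕ} {n δ : ℝ} (hF : Enc E F (n - (t : ℝ) / S * δ))
    (hc : F < 2 ^ 1662 → 0 < c → |(S : ℝ) * δ - c| ≤ (r : ℝ))
    (he : F < 2 ^ 1662 → |(S : ℝ) * (n - (t : ℝ) / S * δ)| ≤ (e : ℝ)) :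
    Enc E (pdivq F c r e t) (n * δ⁻¹) := by
  unfold pdivq
  refine enc_guard fun hb => enc_guard fun hb1 => enc_guard fun hb2 => enc_guard fun hb3 => ?_
  have hlF := lim1 hb
  have k1 : 8 * r + 8 ≤ 7 * c := Nat.le_of_ble_eq_true hb1
  have k2 : c ≤ 2 ^ 34 := le_trans (Nat.le_of_ble_eq_true hb2) (by norm_num)
  have k3 : e ≤ c := Nat.le_of_ble_eq_true hb3
  have hc' := hc hlF (by omega)
  have he' := he hlF
  obtain ⟨y0, l1, l2⟩ := (div_line k1 k3 hc' he').resolve_right (by omega)
  have hSr : (0 : ℝ) < S := by exact_mod_cast hS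
  have d0 : 0 < δ := by
    by_contra hcon
    push Not at hcon
    have := mul_nonpos_of_nonneg_of_nonpos hSr.le hcon
    linarith
  have e1 : Nat.add (Nat.add (Nat.div (Nat.shiftLeft (Nat.mul e r) 30) (Nat.mul c (Nat.sub c r)))
      (Nat.shiftRight e 30)) 2 = e * r * 2 ^ 30 / (c * (c - r)) + e / 2 ^ 30 + 2 := by
    have a1 : Nat.shiftLeft (Nat.mul e r) 30 = e * r * 2 ^ 30 := shl_eq _ _
    have a2 : Nat.shiftRight e 30 = e / 2 ^ 30 := shr_eq _ _
    rw [a1, a2]
    rfl
  have e2 : Nat.div 0x1000000000000000 c = 2 ^ 60 / c := by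
    change 0x1000000000000000 / c = 2 ^ 60 / c
    norm_num
  rw [e1, e2]
  have hin := enc_infl (w := (n - (t : ℝ) / S * δ) * δ⁻¹) (enc_sc (2 ^ 60 / c) hF) l2 ?_
  · have h := enc_add (enc_dc E t 0) hin
    have e3 : ((t : ℝ) - ((0 : ℕ) : ℝ)) / S + (n - (t : ℝ) / S * δ) * δ⁻¹ = n * δ⁻¹ := by
      push_cast
      field_simp
      ring
    rw [e3] at h
    exact h
  · have e4 : (S : ℝ) * ((n - (t : ℝ) / S * δ) * δ⁻¹) =
        2 ^ 30 * ((S : ℝ) * (n - (t : ℝ) / S * δ) / ((S : ℝ) * δ)) := by
      rw [mul_div_mul_left _ _ hSr.ne', ← S_real, div_eq_mul_inv (n - _) δ]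
    have e5 : (S : ℝ) * ((((2 ^ 60 / c : ℕ) : ℝ)) / S * (n - (t : ℝ) / S * δ)) =
        ((2 ^ 60 / c : ℕ) : ℝ) / 2 ^ 30 * ((S : ℝ) * (n - (t : ℝ) / S * δ)) := by
      rw [← S_real]; ring
    rw [e4, e5]
    exact l1

theorem cen_rad {E : Pt} {D : ℕ} {δ : ℝ} (hD : Enc E D δ) (hl : D < 2 ^ 1662) (h : 0 < pcc D) :
    |(S : ℝ) * δ - (pcc D : ℕ)| ≤ ((prad D : ℕ) : ℝ) := by
  obtain ⟨c0, c1, c2, c3, V, R, q, a, m, r, hr⟩ := hD hl
  have h1 := near_rad hr hl
  have h2 := (pcc_spec hr hl h).1
  have h3 : ((pcc D : ℕ) : ℝ) = (c0 : ℝ) := by exact_mod_cast h2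
  rw [h3]
  exact h1

theorem enc_div {E : Pt} {N D : ℕ} {n δ : ℝ} (hN : Enc E N n) (hD : Enc E D δ) :
    Enc E (pdiv N D) (n * δ⁻¹) := by
  unfold pdiv
  generalize Nat.div (Nat.shiftLeft (pcc N) 30) (pcc D) = t
  have hF := enc_sub hN (enc_sc t hD)
  have hDl : psub N (psc t D) < 2 ^ 1662 → D < 2 ^ 1662 := fun h => psc_lt (psub_lt h).2
  unfold pdiv2 pdiv1
  generalize psub N (psc t D) = F at hF hDl ⊢
  exact enc_divq hF (fun hl h0 => cen_rad hD (hDl hl) h0) (fun hl => pmag_spec hF hl)

/-- a quotient clamped to `[0, 1]`; `r`, `c`, `l`, `u` its radius, centre and bounds -/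
noncomputable def plamq (q r c l u : ℕ) : ℕ :=
  Bool.rec 0x40000000000000000000000000000000000000000000000000000000000000000040000001000000000000000020000001000000000000000020000001000000000000000000000000000000000000000000000000000000000000000000000000000000000000000000000000000000000000000000000000000000000000000000000000000000000000000000000000000000000000000000000000000000000000000000000000000000000000000000000000000000000000000000000000000000000000000020000000 (Bool.rec 0x40000000000000000000000000000000000000000000000000000000000000000040000001000000000000000020000001000000000000000020000001000000000000000000000000000000000000000000000000000000000000000000000000000000000000000000000000000000000000000000000000000000000000000000000000000000000000000000000000000000000000000000000000000000000000000000000000000000000000000000000000000000000000000000000000000000000000000020000000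
    (Bool.rec (pps q) (Bool.rec (Bool.rec (pmin (pnorm q) pone) pone (Nat.ble (Nat.add r 0x40000000) c))
      (pnorm q) (Nat.ble u 0x40000000)) (Nat.ble l 0))
    (Nat.ble (Nat.mul 2 r) 0x40000000)) (Nat.ble q 0x3fffffffffffffffffffffffffffffffffffffffffffffffffffffffffffffffffffffffffffffffffffffffffffffffffffffffffffffffffffffffffffffffffffffffffffffffffffffffffffffffffffffffffffffffffffffffffffffffffffffffffffffffffffffffffffffffffffffffffffffffffffffffffffffffffffffffffffffffffffffffffffffffffffffffffffffffffffffffffffffffffffffffffffffffffffffffffffffffffffffffffffffffffffffffffffffffffffffffffffffffffffffffffffffff)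

noncomputable def plam2 (q : ℕ) : ℕ := plamq q (prad q) (pcc q) (plo q) (pup q)

noncomputable def plam (N D : ℕ) : ℕ := plam2 (pdiv N D)

theorem enc_fls {E : Pt} {w : ℝ} (h0 : 0 ≤ w) (h1 : w ≤ 1) : Enc E 0x40000000000000000000000000000000000000000000000000000000000000000040000001000000000000000020000001000000000000000020000001000000000000000000000000000000000000000000000000000000000000000000000000000000000000000000000000000000000000000000000000000000000000000000000000000000000000000000000000000000000000000000000000000000000000000000000000000000000000000000000000000000000000000000000000000000000000000020000000 w := by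
  have hSr : (0 : ℝ) ≤ S := Nat.cast_nonneg _
  have e : (0x40000000000000000000000000000000000000000000000000000000000000000040000001000000000000000020000001000000000000000020000001000000000000000000000000000000000000000000000000000000000000000000000000000000000000000000000000000000000000000000000000000000000000000000000000000000000000000000000000000000000000000000000000000000000000000000000000000000000000000000000000000000000000000000000000000000000000000020000000 : ℕ) = pflat (2 ^ 30) := by
    have e1 : pflat (2 ^ 30) = Nat.shiftRight (2 ^ 30) 1 * 0x2000000000000000000000001000000000000000000000001000000000000000000000000000000000000000000000000000000000000000000000000000000000000000000000000000000000000000000000000000000000000000000000000000000000000000000000000000000000000000000000000000000000000000000000000000000000000000000000000000000000000000000000000000000000000000000000001 + 0x40000000000000000000000000000000000000000000000000000000000000000000000001000000000000000000000001000000000000000000000001000000000000000000000000000000000000000000000000000000000000000000000000000000000000000000000000000000000000000000000000000000000000000000000000000000000000000000000000000000000000000000000000000000000000000000000000000000000000000000000000000000000000000000000000000000000000000000000000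 := rfl
    rw [e1, shr_eq]
    norm_num
  rw [e]
  refine enc_flat (by norm_num) (mul_nonneg hSr h0) ?_
  calc (S : ℝ) * w ≤ S * 1 := by gcongr
    _ = ((2 ^ 30 : ℕ) : ℝ) := by rw [S_real]; norm_num

theorem enc_lamq {E : Pt} {q r c l u : ℕ} {x : ℝ} (hq : Enc E q x)
    (hl : q < 2 ^ 1662 → l = 0 → 0 ≤ x) (hu : q < 2 ^ 1662 → (S : ℝ) * x ≤ (u : ℝ))
    (hc : q < 2 ^ 1662 → 0 < c → (c : ℝ) - r ≤ (S : ℝ) * x)
    (hr : q < 2 ^ 1662 → 0 < l → (S : ℝ) * x ≤ 2 * (r : ℝ)) :
    Enc E (plamq q r c l u) (min (max x 0) 1) := by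
  have hSr : (0 : ℝ) < S := by exact_mod_cast hS
  have b0 : 0 ≤ min (max x 0) 1 := le_min (le_max_right _ _) zero_le_one
  have b1 : min (max x 0) 1 ≤ 1 := min_le_right _ _
  have one : ∀ y : ℝ, (S : ℝ) * y ≤ 2 ^ 30 → y ≤ 1 := by
    intro y hy
    rw [← S_real] at hy
    by_contra hcon
    push Not at hcon
    have := mul_lt_mul_of_pos_left hcon hSr
    linarith
  unfold plamq
  refine enc_ite (fun hb => enc_ite (fun hb2 => ?_) (fun _ => enc_fls b0 b1)) (fun _ => enc_fls b0 b1)
  have hlq := lim1 hb
  have h2r : 2 * r ≤ 2 ^ 30 := le_trans (Nat.le_of_ble_eq_true hb2) (by norm_num)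
  have h2r' : 2 * (r : ℝ) ≤ 2 ^ 30 := by exact_mod_cast h2r
  refine enc_ite (fun h1 => ?_) (fun h1 => ?_)
  · have x0 := hl hlq (ble_zero h1)
    rw [max_eq_left x0]
    refine enc_ite (fun h2 => ?_) (fun _ => enc_ite (fun h3 => ?_) (fun _ => enc_min (enc_norm hq) (enc_one E)))
    · have k1 : u ≤ 2 ^ 30 := le_trans (Nat.le_of_ble_eq_true h2) (by norm_num)
      have k2 : (u : ℝ) ≤ 2 ^ 30 := by exact_mod_cast k1
      rw [min_eq_left (one x ((hu hlq).trans k2))]
      exact enc_norm hq
    · have k1 : r + 2 ^ 30 ≤ c := le_trans (by norm_num) (Nat.le_of_ble_eq_true h3)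
      have k2 : (r : ℝ) + 2 ^ 30 ≤ c := by exact_mod_cast k1
      have k3 := hc hlq (by omega)
      have k4 : 1 ≤ x := by
        by_contra hcon
        push Not at hcon
        have := mul_lt_mul_of_pos_left hcon hSr
        rw [mul_one, S_real] at this
        rw [S_real] at k3
        linarith
      rw [min_eq_right k4]
      exact enc_one E
  · have x1 := one x ((hr hlq (ble_zero' h1)).trans h2r')
    rw [min_eq_left (max_le x1 zero_le_one)]
    exact enc_pos hq

theorem enc_lam2 {E : Pt} {q : ℕ} {x : ℝ} (hq : Enc E q x) :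
    Enc E (plam2 q) (min (max x 0) 1) := by
  refine enc_lamq hq (fun hl h0 => plo_zero hq hl h0) (fun hl => ?_) (fun hl h0 => ?_)
    (fun hl h0 => ?_)
  · obtain ⟨c0, c1, c2, c3, V, R, q', a, m, r, h⟩ := hq hl
    exact (pup_spec h hl).2.1
  · have h1 := cen_rad hq hl h0
    linarith [(abs_le.mp h1).1]
  · obtain ⟨c0, c1, c2, c3, V, R, q', a, m, r, h⟩ := hq hl
    have h1 := (plo_spec h hl).2.2 h0
    have h2 := near_rad h hl
    have h3 : (0 : ℝ) < (plo q : ℕ) := by exact_mod_cast h0
    linarith [(abs_le.mp h2).2]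

theorem enc_lam {E : Pt} {N D : ℕ} {n d : ℝ} (hN : Enc E N n) (hD : Enc E D d) :
    Enc E (plam N D) (min (max (n * d⁻¹) 0) 1) := enc_lam2 (enc_div hN hD)

/-! ### The function `phi` -/

/-- `u l / (u + l)` -/
def pg1 (u l : ℕ) : ℕ := Nat.div (Nat.mul u l) (Nat.add u l)

theorem pg1_spec {u l : ℕ} {x y : ℝ} (hx0 : 0 ≤ x) (hx : x ≤ u) (hy0 : 0 ≤ y) (hy : y ≤ l) :
    x * y / (x + y) ≤ (pg1 u l : ℕ) + 1 := by
  have e : pg1 u l = u * l / (u + l) := rfl
  rw [e]
  rcases Nat.eq_zero_or_pos (u + l) with h0 | h0
  · have hu : u = 0 := by omega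
    subst hu
    have : x = 0 := le_antisymm (by simpa using hx) hx0
    rw [this, zero_mul, zero_div]
    positivity
  · have h1 := (fdiv (a := u * l) h0).2
    push_cast at h1 ⊢
    have h2 : (0 : ℝ) < u + l := by exact_mod_cast h0
    rcases (add_nonneg hx0 hy0).eq_or_lt with h3 | h3
    · rw [← h3, div_zero]
      positivity
    · refine le_trans ?_ h1.le
      rw [div_le_div_iff₀ h3 h2]
      have hu : (0 : ℝ) ≤ u := Nat.cast_nonneg _
      have hl : (0 : ℝ) ≤ l := Nat.cast_nonneg _
      have a1 : x * u * y ≤ x * u * l := mul_le_mul_of_nonneg_left hy (mul_nonneg hx0 hu)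
      have a2 : y * l * x ≤ y * l * u := mul_le_mul_of_nonneg_left hx (mul_nonneg hy0 hl)
      linarith

theorem pg1_le (u l : ℕ) : pg1 u l ≤ u := by
  have e : pg1 u l = u * l / (u + l) := rfl
  rw [e]
  apply Nat.div_le_of_le_mul
  rw [mul_comm]
  exact Nat.mul_le_mul_right _ (by omega)

/-- `phi` between half of the sum of the positive parts and its chord defect -/
noncomputable def pphD (X Y s G : ℕ) : ℕ :=
  Bool.rec 0x40000000000000000000000000000000000000000000000000000000000000000000000000000000000000000000000000000000000000000000000000000000000000000000000000000000000000000000000000000000000000000000000000000000000000000000000000000000000000000000000000000000000000000000000000000000000000000000000000000000000000000000000000000000000000000000000000000000000000000000000000000000000000000000000000000000000000000000000000000000 (psub (phf (padd (pps X) (pps Y))) (pflat (Nat.add (Nat.shiftRight G 1) 1)))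
    (Nat.ble s 0x1000000000000000)

/-- enclosure of `phi` without information on the signs -/
noncomputable def pphC (X Y : ℕ) : ℕ := pphD X Y (Nat.add (pup X) (pup Y))
  (pmx (pg1 (pup X) (plo Y)) (pg1 (pup Y) (plo X)))

theorem enc_phD {E : Pt} {X Y s G : ℕ} {v w d : ℝ} (hX : Enc E X v) (hY : Enc E Y w)
    (hs : G ≤ s) (h0 : 0 ≤ (S : ℝ) * d) (h1 : (S : ℝ) * d ≤ ((G : ℝ) + 1) / 2) :
    Enc E (pphD X Y s G) ((max v 0 + max w 0) / 2 - d) := by
  unfold pphD
  refine enc_guard fun hb => ?_
  have hs2 : s ≤ 2 ^ 60 := le_trans (Nat.le_of_ble_eq_true hb) (by norm_num)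
  refine enc_sub (enc_half (enc_add (enc_pos hX) (enc_pos hY))) ?_
  have e : Nat.add (Nat.shiftRight G 1) 1 = G / 2 + 1 := by
    have : Nat.add (Nat.shiftRight G 1) 1 = Nat.shiftRight G 1 + 1 := rfl
    rw [this, shr_eq, pow_one]
  rw [e]
  refine enc_flat (by omega) h0 ?_
  have h6 : (G : ℝ) + 1 ≤ 2 * ((G / 2 + 1 : ℕ) : ℝ) := by
    have : G + 1 ≤ 2 * (G / 2 + 1) := by omega
    exact_mod_cast this
  linarith

/-- `phi` and its defect -/
theorem phi_defect (v w : ℝ) : ∃ d : ℝ, phi v w = (max v 0 + max w 0) / 2 - d ∧ 0 ≤ d ∧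
    (d = max v 0 * max (-w) 0 / (max v 0 + max (-w) 0) / 2 ∨
      d = max w 0 * max (-v) 0 / (max w 0 + max (-v) 0) / 2) := by
  have hh : ∀ {a b : ℝ}, 0 ≤ a → b ≤ 0 → phi a b = (max a 0 + max b 0) / 2 -
      max a 0 * max (-b) 0 / (max a 0 + max (-b) 0) / 2 := by
    intro a b ha hb
    rw [LC.Line.phi_pos_neg ha hb, max_eq_left ha, max_eq_right hb,
      max_eq_left (by linarith : (0 : ℝ) ≤ -b)]
    rcases (add_nonneg ha (neg_nonneg.mpr hb)).eq_or_lt with h1 | h1
    · have ha0 : a = 0 := by linarith
      have hb0 : b = 0 := by linarith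
      simp [ha0, hb0]
    · have h2 : a - b ≠ 0 := by linarith
      have h3 : a + -b ≠ 0 := by linarith
      field_simp
      ring
  have nn : ∀ {a b : ℝ}, 0 ≤ max a 0 * max b 0 / (max a 0 + max b 0) / 2 := by
    intro a b
    positivity
  rcases le_total 0 v with hv | hv
  · rcases le_total 0 w with hw | hw
    · refine ⟨_, ?_, nn, Or.inl rfl⟩
      rw [LC.Line.phi_nonneg_nonneg hv hw, max_eq_left hv, max_eq_left hw,
        max_eq_right (by linarith : -w ≤ 0)]
      ring
    · exact ⟨_, hh hv hw, nn, Or.inl rfl⟩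
  · rcases le_total 0 w with hw | hw
    · refine ⟨_, ?_, nn, Or.inr rfl⟩
      rw [LC.Line.phi_comm, hh hw hv]
      ring
    · refine ⟨_, ?_, nn, Or.inl rfl⟩
      rw [LC.Line.phi_nonpos_nonpos hv hw, max_eq_right hv, max_eq_right hw]
      ring

theorem enc_phC {E : Pt} {X Y : ℕ} {v w : ℝ} (hX : Enc E X v) (hY : Enc E Y w)
    (hlX : X < 2 ^ 1662) (hlY : Y < 2 ^ 1662) : Enc E (pphC X Y) (phi v w) := by
  obtain ⟨c0, c1, c2, c3, V, R, q, a, m, r, h⟩ := hX hlX
  obtain ⟨_, h1, _⟩ := pup_spec h hlX
  obtain ⟨_, k1, _⟩ := plo_spec h hlX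
  obtain ⟨c0', c1', c2', c3', V', R', q', a', m', r', h'⟩ := hY hlY
  obtain ⟨_, h2, _⟩ := pup_spec h' hlY
  obtain ⟨_, k2, _⟩ := plo_spec h' hlY
  have hSr : (0 : ℝ) < S := by exact_mod_cast hS
  have mm : ∀ (z : ℝ) (n : ℕ), (S : ℝ) * z ≤ n → (S : ℝ) * max z 0 ≤ n := by
    intro z n hz
    rw [mul_max_of_nonneg _ _ hSr.le, mul_zero]
    exact max_le hz (Nat.cast_nonneg _)
  have m1 := mm _ _ h1
  have m2 := mm _ _ h2
  have m3 := mm (-v) _ (by linarith : (S : ℝ) * -v ≤ (plo X : ℕ))
  have m4 := mm (-w) _ (by linarith : (S : ℝ) * -w ≤ (plo Y : ℕ))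
  have sc : ∀ x y : ℝ, (S : ℝ) * (x * y / (x + y) / 2) = ((S * x) * (S * y) / (S * x + S * y)) / 2 := by
    intro x y
    rcases eq_or_ne (x + y) 0 with h0 | h0
    · have : (S : ℝ) * x + S * y = 0 := by rw [← mul_add, h0, mul_zero]
      rw [h0, this, div_zero, div_zero, zero_div, mul_zero]
    · have : (S : ℝ) * x + S * y ≠ 0 := by rw [← mul_add]; exact mul_ne_zero hSr.ne' h0
      field_simp
  have b1 := pg1_spec (mul_nonneg hSr.le (le_max_right v 0)) m1
    (mul_nonneg hSr.le (le_max_right (-w) 0)) m4
  have b2 := pg1_spec (mul_nonneg hSr.le (le_max_right w 0)) m2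
    (mul_nonneg hSr.le (le_max_right (-v) 0)) m3
  have q1 := pg1_le (pup X) (plo Y)
  have q2 := pg1_le (pup Y) (plo X)
  obtain ⟨d, hd, hd0, hd1⟩ := phi_defect v w
  rw [hd]
  unfold pphC
  clear h1 h2 k1 k2 m1 m2 m3 m4 mm h h'
  generalize pg1 (pup X) (plo Y) = g1 at b1 q1 ⊢
  generalize pg1 (pup Y) (plo X) = g2 at b2 q2 ⊢
  obtain ⟨p1, p2, p3⟩ := pmx_le g1 g2
  generalize pmx g1 g2 = G at p1 p2 p3 ⊢
  have p1' : (g1 : ℝ) ≤ G := by exact_mod_cast p1
  have p2' : (g2 : ℝ) ≤ G := by exact_mod_cast p2
  refine enc_phD hX hY (le_trans p3 (Nat.add_le_add q1 q2)) (mul_nonneg hSr.le hd0) ?_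
  rcases hd1 with h1 | h1
  · rw [h1, sc]
    linarith
  · rw [h1, sc]
    linarith

/-- choice by comparison -/
noncomputable def psel (p c F T : ℕ) : ℕ := Bool.rec F T (Nat.ble p c)

theorem enc_sel {E : Pt} {p c F T : ℕ} {z : ℝ} (hF : Enc E F z) (hT : Enc E T z) :
    Enc E (psel p c F T) z := by
  unfold psel
  exact enc_ite (fun _ => hT) (fun _ => hF)

/-- `W + mu ^ 2 / (2 delta)` by the tangent of slope `t = 2 h / S`; `M` encloses `mu`, `F` encloses
`mu - t delta`, `c`, `r` centre and radius of `delta`, `e` bound of `F`; `T0` if this is impossible -/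
noncomputable def pphq (W M F c r e h T0 : ℕ) : ℕ :=
  Bool.rec T0 (Bool.rec T0 (Bool.rec T0 (Bool.rec T0
    (padd W (padd (psc h (padd M F))
      (pflat (Nat.add (Nat.div (Nat.mul e e) (Nat.mul 2 (Nat.sub c r))) 1))))
    (Nat.ble e c)) (Nat.ble c 0x400000000)) (Nat.ble (Nat.add (Nat.mul 4 r) 2) (Nat.mul 3 c)))
    (Nat.ble F 0x3fffffffffffffffffffffffffffffffffffffffffffffffffffffffffffffffffffffffffffffffffffffffffffffffffffffffffffffffffffffffffffffffffffffffffffffffffffffffffffffffffffffffffffffffffffffffffffffffffffffffffffffffffffffffffffffffffffffffffffffffffffffffffffffffffffffffffffffffffffffffffffffffffffffffffffffffffffffffffffffffffffffffffffffffffffffffffffffffffffffffffffffffffffffffffffffffffffffffffffffffffffffffffffffff)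

theorem enc_phq {E : Pt} {W M F c r e h T0 : ℕ} {w μ δ : ℝ} (hW : Enc E W w) (hM : Enc E M μ)
    (hF : Enc E F (μ - ((2 * h : ℕ) : ℝ) / S * δ)) (hT : Enc E T0 (w + μ ^ 2 * δ⁻¹ / 2))
    (hc : F < 2 ^ 1662 → 0 < c → |(S : ℝ) * δ - c| ≤ (r : ℝ))
    (he : F < 2 ^ 1662 → |(S : ℝ) * (μ - ((2 * h : ℕ) : ℝ) / S * δ)| ≤ (e : ℝ)) :
    Enc E (pphq W M F c r e h T0) (w + μ ^ 2 * δ⁻¹ / 2) := by
  unfold pphq
  refine enc_ite (fun hb => enc_ite (fun hb1 => enc_ite (fun hb2 => enc_ite (fun hb3 => ?_)
    fun _ => hT) fun _ => hT) fun _ => hT) fun _ => hT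
  have hlF := lim1 hb
  have k1 : 4 * r + 2 ≤ 3 * c := Nat.le_of_ble_eq_true hb1
  have k2 : c ≤ 2 ^ 34 := le_trans (Nat.le_of_ble_eq_true hb2) (by norm_num)
  have k3 : e ≤ c := Nat.le_of_ble_eq_true hb3
  have hc' := hc hlF (by omega)
  have hSr : (0 : ℝ) < S := by exact_mod_cast hS
  obtain ⟨y0, l2, l3⟩ := quot_line k1 k2 k3 hc' (he hlF)
  have d0 : 0 < δ := by
    by_contra hcon
    push Not at hcon
    have := mul_nonpos_of_nonneg_of_nonpos hSr.le hcon
    linarith
  have e2 : Nat.add (Nat.div (Nat.mul e e) (Nat.mul 2 (Nat.sub c r))) 1 =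
      e * e / (2 * (c - r)) + 1 := rfl
  rw [e2]
  push_cast at hF l2 hlF ⊢
  have a2 : Enc E (pflat (e * e / (2 * (c - r)) + 1))
      ((μ - 2 * (h : ℝ) / S * δ) ^ 2 * δ⁻¹ / 2) := by
    have e3 : (S : ℝ) * ((μ - 2 * (h : ℝ) / S * δ) ^ 2 * δ⁻¹ / 2) =
        ((S : ℝ) * (μ - 2 * (h : ℝ) / S * δ)) ^ 2 / (2 * ((S : ℝ) * δ)) := by
      field_simp
    refine enc_flat l3 ?_ ?_
    · rw [e3]
      positivity
    · rw [e3]
      push_cast
      exact l2
  have a3 := enc_add hW (enc_add (enc_sc h (enc_add hM hF)) a2)
  have e4 : w + ((h : ℝ) / S * (μ + (μ - 2 * (h : ℝ) / S * δ)) +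
      (μ - 2 * (h : ℝ) / S * δ) ^ 2 * δ⁻¹ / 2) = w + μ ^ 2 * δ⁻¹ / 2 := by
    field_simp
    ring
  rw [e4] at a3
  exact a3

noncomputable def pphq1 (W M D F c h T0 : ℕ) : ℕ := pphq W M F c (prad D) (pmag F) h T0

noncomputable def pphq2 (W M D c h T0 : ℕ) : ℕ :=
  pphq1 W M D (psub M (psc (Nat.mul 2 h) D)) c h T0

noncomputable def pphq3 (W M D T0 : ℕ) : ℕ :=
  pphq2 W M D (pcc D) (Nat.div (Nat.shiftLeft (pcc M) 29) (pcc D)) T0

theorem enc_phq3 {E : Pt} {W M D T0 : ℕ} {w μ δ : ℝ} (hW : Enc E W w) (hM : Enc E M μ)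
    (hD : Enc E D δ) (hT : Enc E T0 (w + μ ^ 2 * δ⁻¹ / 2)) :
    Enc E (pphq3 W M D T0) (w + μ ^ 2 * δ⁻¹ / 2) := by
  unfold pphq3
  generalize Nat.div (Nat.shiftLeft (pcc M) 29) (pcc D) = h
  have hF := enc_sub hM (enc_sc (2 * h) hD)
  have hDl : psub M (psc (2 * h) D) < 2 ^ 1662 → D < 2 ^ 1662 := fun h => psc_lt (psub_lt h).2
  have e : Nat.mul 2 h = 2 * h := rfl
  unfold pphq2 pphq1
  rw [e]
  generalize psub M (psc (2 * h) D) = F at hF hDl ⊢
  exact enc_phq hW hM hF hT (fun hl h0 => cen_rad hD (hDl hl) h0) (fun hl => pmag_spec hF hl)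

/-- `phi` for nonnegative first argument -/
noncomputable def pphA (X Y : ℕ) : ℕ :=
  pphq3 (phf (padd X Y)) (pps (pneg Y)) (padd X (pps (pneg Y))) (pphC X Y)

/-- `phi` for nonpositive first argument -/
noncomputable def pphB (X Y : ℕ) : ℕ := pphq3 pzero (pps Y) (psub (pps Y) X) (pphC X Y)

theorem phi_a {v w : ℝ} (hv : 0 ≤ v) : phi v w = ((v + w) +
    (max (-w) 0) ^ 2 * (v + max (-w) 0)⁻¹) / 2 := by
  rcases le_total 0 w with h | h
  · rw [LC.Line.phi_nonneg_nonneg hv h, max_eq_right (by linarith)]
    ring
  · rw [LC.Line.phi_pos_neg hv h, max_eq_left (by linarith)]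
    rcases (add_nonneg hv (neg_nonneg.mpr h)).eq_or_lt with h1 | h1
    · have hv0 : v = 0 := by linarith
      have hw0 : w = 0 := by linarith
      simp [hv0, hw0]
    · have : v - w ≠ 0 := by linarith
      have h2 : v + -w ≠ 0 := by linarith
      field_simp
      ring

theorem phi_b {v w : ℝ} (hv : v ≤ 0) : phi v w = ((max w 0) ^ 2 * (max w 0 - v)⁻¹) / 2 := by
  rcases le_total 0 w with h | h
  · rw [LC.Line.phi_neg_pos hv h, max_eq_left h]
    rw [div_eq_mul_inv, mul_inv]
    ring
  · rw [LC.Line.phi_nonpos_nonpos hv h, max_eq_right h]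
    simp

theorem enc_phA {E : Pt} {X Y : ℕ} {v w : ℝ} (hX : Enc E X v) (hY : Enc E Y w)
    (hlX : X < 2 ^ 1662) (hlY : Y < 2 ^ 1662) (hv : 0 ≤ v) : Enc E (pphA X Y) (phi v w) := by
  have e : phi v w = (v + w) / 2 + (max (-w) 0) ^ 2 * (v + max (-w) 0)⁻¹ / 2 := by
    rw [phi_a hv]; ring
  have hC := enc_phC hX hY hlX hlY
  rw [e] at hC ⊢
  exact enc_phq3 (enc_half (enc_add hX hY)) (enc_pos (enc_neg hY))
    (enc_add hX (enc_pos (enc_neg hY))) hC

theorem enc_phB {E : Pt} {X Y : ℕ} {v w : ℝ} (hX : Enc E X v) (hY : Enc E Y w)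
    (hlX : X < 2 ^ 1662) (hlY : Y < 2 ^ 1662) (hv : v ≤ 0) : Enc E (pphB X Y) (phi v w) := by
  have e : phi v w = 0 + (max w 0) ^ 2 * (max w 0 - v)⁻¹ / 2 := by
    rw [phi_b hv]; ring
  have hC := enc_phC hX hY hlX hlY
  rw [e] at hC ⊢
  exact enc_phq3 (enc_zero E) (enc_pos hY) (enc_sub (enc_pos hY) hX) hC

/-- the function `phi`, with lower and upper bounds of the arguments -/
noncomputable def pphi2 (X Y lX uX lY uY : ℕ) : ℕ :=
  Bool.rec 0x40000000000000000000000000000000000000000000000000000000000000000000000000000000000000000000000000000000000000000000000000000000000000000000000000000000000000000000000000000000000000000000000000000000000000000000000000000000000000000000000000000000000000000000000000000000000000000000000000000000000000000000000000000000000000000000000000000000000000000000000000000000000000000000000000000000000000000000000000000000 (Bool.rec 0x40000000000000000000000000000000000000000000000000000000000000000000000000000000000000000000000000000000000000000000000000000000000000000000000000000000000000000000000000000000000000000000000000000000000000000000000000000000000000000000000000000000000000000000000000000000000000000000000000000000000000000000000000000000000000000000000000000000000000000000000000000000000000000000000000000000000000000000000000000000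
    (Bool.rec
      (Bool.rec
        (Bool.rec
          (Bool.rec (pphC X Y) (pphA Y X) (Nat.ble lY 0))
          (Bool.rec (pphA X Y) (phf (padd X Y)) (Nat.ble lY 0))
          (Nat.ble lX 0))
        (pphB Y X) (Nat.ble uY 0))
      (Bool.rec (pphB X Y) pzero (Nat.ble uY 0))
      (Nat.ble uX 0))
    (Nat.ble Y 0x3fffffffffffffffffffffffffffffffffffffffffffffffffffffffffffffffffffffffffffffffffffffffffffffffffffffffffffffffffffffffffffffffffffffffffffffffffffffffffffffffffffffffffffffffffffffffffffffffffffffffffffffffffffffffffffffffffffffffffffffffffffffffffffffffffffffffffffffffffffffffffffffffffffffffffffffffffffffffffffffffffffffffffffffffffffffffffffffffffffffffffffffffffffffffffffffffffffffffffffffffffffffffffffffff)) (Nat.ble X 0x3fffffffffffffffffffffffffffffffffffffffffffffffffffffffffffffffffffffffffffffffffffffffffffffffffffffffffffffffffffffffffffffffffffffffffffffffffffffffffffffffffffffffffffffffffffffffffffffffffffffffffffffffffffffffffffffffffffffffffffffffffffffffffffffffffffffffffffffffffffffffffffffffffffffffffffffffffffffffffffffffffffffffffffffffffffffffffffffffffffffffffffffffffffffffffffffffffffffffffffffffffffffffffffffff)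

/-- the function `phi` -/
noncomputable def pphi (X Y : ℕ) : ℕ := pphi2 X Y (plo X) (pup X) (plo Y) (pup Y)

theorem enc_phi2 {E : Pt} {X Y lX uX lY uY : ℕ} {v w : ℝ} (hX : Enc E X v) (hY : Enc E Y w)
    (h1 : X < 2 ^ 1662 → lX = 0 → 0 ≤ v) (h2 : X < 2 ^ 1662 → uX = 0 → v ≤ 0)
    (h3 : Y < 2 ^ 1662 → lY = 0 → 0 ≤ w) (h4 : Y < 2 ^ 1662 → uY = 0 → w ≤ 0) :
    Enc E (pphi2 X Y lX uX lY uY) (phi v w) := by
  unfold pphi2
  refine enc_guard fun hbX => enc_guard fun hbY => ?_
  have hlX := lim1 hbX
  have hlY := lim1 hbY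
  refine enc_ite (fun k1 => enc_ite (fun k2 => ?_) (fun _ => ?_)) (fun _ => enc_ite (fun k2 => ?_)
    (fun _ => enc_ite (fun k3 => enc_ite (fun k4 => ?_) (fun _ => ?_))
      (fun _ => enc_ite (fun k4 => ?_) (fun _ => ?_))))
  · rw [LC.Line.phi_nonpos_nonpos (h2 hlX (ble_zero k1)) (h4 hlY (ble_zero k2))]
    exact enc_zero E
  · exact enc_phB hX hY hlX hlY (h2 hlX (ble_zero k1))
  · rw [LC.Line.phi_comm]
    exact enc_phB hY hX hlY hlX (h4 hlY (ble_zero k2))
  · rw [LC.Line.phi_nonneg_nonneg (h1 hlX (ble_zero k3)) (h3 hlY (ble_zero k4))]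
    exact enc_half (enc_add hX hY)
  · exact enc_phA hX hY hlX hlY (h1 hlX (ble_zero k3))
  · rw [LC.Line.phi_comm]
    exact enc_phA hY hX hlY hlX (h3 hlY (ble_zero k4))
  · exact enc_phC hX hY hlX hlY

theorem enc_phi {E : Pt} {X Y : ℕ} {v w : ℝ} (hX : Enc E X v) (hY : Enc E Y w) :
    Enc E (pphi X Y) (phi v w) :=
  enc_phi2 hX hY (fun hl h => plo_zero hX hl h) (fun hl h => pup_zero hX hl h)
    (fun hl h => plo_zero hY hl h) (fun hl h => pup_zero hY hl h)

/-- an unusable enclosure -/
def pbad : ℕ := 0x40000000000000000000000000000000000000000000000000000000000000000000000000000000000000000000000000000000000000000000000000000000000000000000000000000000000000000000000000000000000000000000000000000000000000000000000000000000000000000000000000000000000000000000000000000000000000000000000000000000000000000000000000000000000000000000000000000000000000000000000000000000000000000000000000000000000000000000000000000000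

theorem enc_pbad (E : Pt) (v : ℝ) : Enc E pbad v := enc_bad E v (by unfold pbad; norm_num)

end Pool.Agent.Strip051.PB
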