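import Pool.Agent.Strip051.PB.PkF

/-! # Packed arithmetic: the sharp undecided case is `pcase` of `PkF` (version 3) -/
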