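import Pool.Agent.Strip051.PB.PkP

/-! # Packed arithmetic: knots

`pcaseR`, `pcaseN`, `pcaseA`, `pcase0` have the values of `pcase` for a form minus or plus a
constant; one comparison of centre and radius decides if the threshold is not too close. -/

set_option exponentiation.threshold 6000
set_option maxRecDepth 20000

namespace Pool.Agent.Strip051.PB

/-- case distinction with condition form `C`; tests `t1`, `t2` for `C ≤ 0` and `C > 0` which are
valid if `X` is no error value -/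
noncomputable def pcaseT (t1 t2 : Bool) (C X L R : ℕ) : ℕ :=
  Bool.rec (motive := fun _ => ℕ) (pcase C L R)
    (Bool.rec (motive := fun _ => ℕ)
      (Bool.rec (motive := fun _ => ℕ) (pcase C L R) R t2) L t1) (Nat.ble X 0x3fffffffffffffffffffffffffffffffffffffffffffffffffffffffffffffffffffffffffffffffffffffffffffffffffffffffffffffffffffffffffffffffffffffffffffffffffffffffffffffffffffffffffffffffffffffffffffffffffffffffffffffffffffffffffffffffffffffffffffffffffffffffffffffffffffffffffffffffffffffffffffffffffffffffffffffffffffffffffffffffffffffffffffffffffffffffffffffffffffffffffffffffffffffffffffffffffffffffffffffffffffffffffffffff)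

theorem enc_caseT {E : Pt} {t1 t2 : Bool} {C X L R : ℕ} {c x y : ℝ} (hC : Enc E C c)
    (hL : Enc E L x) (hR : Enc E R y) (h1 : X < 2 ^ 1662 → t1 = true → c ≤ 0)
    (h2 : X < 2 ^ 1662 → t2 = true → 0 < c) :
    Enc E (pcaseT t1 t2 C X L R) (if c ≤ 0 then x else y) := by
  unfold pcaseT
  have hU := enc_case hC hL hR
  refine enc_ite (fun hb => enc_ite (fun h3 => ?_) (fun _ => enc_ite (fun h4 => ?_) (fun _ => hU)))
    (fun _ => hU)
  · rw [if_pos (h1 (lim1 hb) h3)]
    exact hL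
  · rw [if_neg (not_le.mpr (h2 (lim1 hb) h4))]
    exact hR

theorem cen_rho {E : Pt} {X : ℕ} {v : ℝ} (hX : Enc E X v) (hl : X < 2 ^ 1662) :
    |(S : ℝ) * v - ((pcen X : ℕ) - 2 ^ 95)| ≤ ((prho X : ℕ) : ℝ) := by
  obtain ⟨c0, c1, c2, c3, V, R, q, a, m, r, h⟩ := hX hl
  have g0 := h.dec
  have hV := h.hV
  have hR := h.hR
  have hq := h.hq
  have hm : m < 2 ^ 30 := by
    have := h.ha
    omega
  have h1 := pcen_spec h hl
  have h2 : prho X = q :=
    prho_eq (V := V) (R := R) (Z := a + 2 ^ 288 * m) (by rw [g0]; ring) (by omega) (by omega)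
      (by omega)
  have h3 : ((pcen X : ℕ) : ℝ) = c0 + 2 ^ 95 := by exact_mod_cast h1
  rw [h2, h3]
  have h4 := h.near
  have h5 := h.eq
  have e : (c0 : ℝ) + 2 ^ 95 - 2 ^ 95 = c0 := by ring
  rw [e]
  linarith

/-- upper test -/
theorem test_up {E : Pt} {X : ℕ} {v : ℝ} (hX : Enc E X v) (hl : X < 2 ^ 1662) {k lo : ℕ}
    (h : Nat.ble (Nat.add (Nat.add (pcen X) (prho X)) k) lo = true) :
    (S : ℝ) * v ≤ (lo : ℝ) - 2 ^ 95 - k := by
  have h5 : pcen X + prho X + k ≤ lo := Nat.le_of_ble_eq_true h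
  have h6 : ((pcen X : ℕ) : ℝ) + (prho X : ℕ) + k ≤ lo := by exact_mod_cast h5
  have h7 := (abs_le.mp (cen_rho hX hl)).2
  linarith

/-- upper test -/
theorem test_up0 {E : Pt} {X : ℕ} {v : ℝ} (hX : Enc E X v) (hl : X < 2 ^ 1662) {lo : ℕ}
    (h : Nat.ble (Nat.add (pcen X) (prho X)) lo = true) :
    (S : ℝ) * v ≤ (lo : ℝ) - 2 ^ 95 := by
  have h5 : pcen X + prho X ≤ lo := Nat.le_of_ble_eq_true h
  have h6 : ((pcen X : ℕ) : ℝ) + (prho X : ℕ) ≤ lo := by exact_mod_cast h5
  have h7 := (abs_le.mp (cen_rho hX hl)).2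
  linarith

/-- lower test -/
theorem test_lo0 {E : Pt} {X : ℕ} {v : ℝ} (hX : Enc E X v) (hl : X < 2 ^ 1662) {hi : ℕ}
    (h : Nat.ble (Nat.add (prho X) hi) (pcen X) = true) :
    (hi : ℝ) - 2 ^ 95 ≤ (S : ℝ) * v := by
  have h5 : prho X + hi ≤ pcen X := Nat.le_of_ble_eq_true h
  have h6 : ((prho X : ℕ) : ℝ) + hi ≤ (pcen X : ℕ) := by exact_mod_cast h5
  have h7 := (abs_le.mp (cen_rho hX hl)).1
  linarith

/-- lower test -/
theorem test_lo {E : Pt} {X : ℕ} {v : ℝ} (hX : Enc E X v) (hl : X < 2 ^ 1662) {k hi : ℕ}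
    (h : Nat.ble (Nat.add (prho X) hi) (Nat.add (pcen X) k) = true) :
    (hi : ℝ) - 2 ^ 95 - k ≤ (S : ℝ) * v := by
  have h5 : prho X + hi ≤ pcen X + k := Nat.le_of_ble_eq_true h
  have h6 : ((prho X : ℕ) : ℝ) + hi ≤ (pcen X : ℕ) + k := by exact_mod_cast h5
  have h7 := (abs_le.mp (cen_rho hX hl)).1
  linarith

/-- the integral part of `2^30 a / b` -/
def pkt (a b : ℕ) : ℕ := Nat.div (Nat.shiftLeft a 30) b

theorem pkt_spec (a b : ℕ) : ((pkt a b : ℕ) : ℝ) ≤ S * ((a : ℝ) / b) ∧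
    (S : ℝ) * ((a : ℝ) / b) < ((pkt a b : ℕ) : ℝ) + 1 := by
  have e : pkt a b = a * 2 ^ 30 / b := by
    have : pkt a b = Nat.shiftLeft a 30 / b := rfl
    rw [this, shl_eq]
  rw [e]
  rcases Nat.eq_zero_or_pos b with hb | hb
  · subst hb
    simp
  · obtain ⟨h1, h2⟩ := fdiv (a := a * 2 ^ 30) hb
    have e2 : (S : ℝ) * ((a : ℝ) / b) = ((a * 2 ^ 30 : ℕ) : ℝ) / b := by
      rw [S_real]
      push_cast
      ring
    rw [e2]
    exact ⟨h1, h2⟩

/-- case distinction for `X - k / 2^30`, condition form `C` -/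
noncomputable def pcaseK (k C X L R : ℕ) : ℕ :=
  pcaseT (Nat.ble (Nat.add (pcen X) (prho X)) (Nat.add k 0x7fffffffffffffffffffffef))
    (Nat.ble (Nat.add (prho X) (Nat.add k 0x800000000000000000000011)) (pcen X)) C X L R

/-- case distinction for `X + k / 2^30`, condition form `C` -/
noncomputable def pcaseL (k C X L R : ℕ) : ℕ :=
  pcaseT (Nat.ble (Nat.add (Nat.add (pcen X) (prho X)) k) 0x7fffffffffffffffffffffef)
    (Nat.ble (Nat.add (prho X) 0x800000000000000000000011) (Nat.add (pcen X) k)) C X L R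

theorem enc_caseK {E : Pt} {k C X L R : ℕ} {v t x y : ℝ} (hX : Enc E X v)
    (hC : Enc E C (v - t)) (hL : Enc E L x) (hR : Enc E R y) (h1 : (k : ℝ) ≤ S * t)
    (h2 : (S : ℝ) * t < (k : ℝ) + 1) :
    Enc E (pcaseK k C X L R) (if v - t ≤ 0 then x else y) := by
  have hSr : (0 : ℝ) < S := by exact_mod_cast hS
  refine enc_caseT hC hL hR (fun hl h => ?_) (fun hl h => ?_)
  · have h3 := test_up0 hX hl h
    have e : ((Nat.add k 0x7fffffffffffffffffffffef : ℕ) : ℝ) = k + (2 ^ 95 - 17) := by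
      have : Nat.add k 0x7fffffffffffffffffffffef = k + 0x7fffffffffffffffffffffef := rfl
      rw [this]
      push_cast
      norm_num
    rw [e] at h3
    have h4 : (S : ℝ) * v ≤ S * t := by linarith
    linarith [le_of_mul_le_mul_left h4 hSr]
  · have h3 := test_lo0 hX hl h
    have e : ((Nat.add k 0x800000000000000000000011 : ℕ) : ℝ) = k + (2 ^ 95 + 17) := by
      have : Nat.add k 0x800000000000000000000011 = k + 0x800000000000000000000011 := rfl
      rw [this]
      push_cast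
      norm_num
    rw [e] at h3
    have h4 : (S : ℝ) * t < S * v := by linarith
    linarith [lt_of_mul_lt_mul_left h4 hSr.le]

theorem enc_caseL {E : Pt} {k C X L R : ℕ} {v t x y : ℝ} (hX : Enc E X v)
    (hC : Enc E C (v + t)) (hL : Enc E L x) (hR : Enc E R y) (h1 : (k : ℝ) ≤ S * t)
    (h2 : (S : ℝ) * t < (k : ℝ) + 1) :
    Enc E (pcaseL k C X L R) (if v + t ≤ 0 then x else y) := by
  have hSr : (0 : ℝ) < S := by exact_mod_cast hS
  refine enc_caseT hC hL hR (fun hl h => ?_) (fun hl h => ?_)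
  · have h3 := test_up hX hl h
    have e : ((0x7fffffffffffffffffffffef : ℕ) : ℝ) = 2 ^ 95 - 17 := by norm_num
    rw [e] at h3
    have h4 : (S : ℝ) * v ≤ S * (-t) := by linarith
    linarith [le_of_mul_le_mul_left h4 hSr]
  · have h3 := test_lo hX hl h
    have e : ((0x800000000000000000000011 : ℕ) : ℝ) = 2 ^ 95 + 17 := by norm_num
    rw [e] at h3
    have h4 : (S : ℝ) * (-t) < S * v := by linarith
    linarith [lt_of_mul_lt_mul_left h4 hSr.le]

/-- case distinction for `X - a / b` -/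
noncomputable def pcaseR (a b X L R : ℕ) : ℕ :=
  pcaseK (pkt a b) (padd X (pneg (prat a b))) X L R

/-- case distinction for `X + a / b` -/
noncomputable def pcaseA (a b X L R : ℕ) : ℕ := pcaseL (pkt a b) (padd X (prat a b)) X L R

/-- case distinction for `X - n` -/
noncomputable def pcaseN (n X L R : ℕ) : ℕ :=
  pcaseK (Nat.shiftLeft n 30) (padd X (pneg (pnc n))) X L R

/-- case distinction for `X` -/
noncomputable def pcase0 (X L R : ℕ) : ℕ := pcaseK 0 X X L R

theorem enc_caseR {E : Pt} {X L R : ℕ} {v x y : ℝ} (a b : ℕ) (hX : Enc E X v) (hL : Enc E L x)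
    (hR : Enc E R y) : Enc E (pcaseR a b X L R) (if v - (a : ℝ) / b ≤ 0 then x else y) :=
  enc_caseK hX (enc_subr a b hX) hL hR (pkt_spec a b).1 (pkt_spec a b).2

theorem enc_caseA {E : Pt} {X L R : ℕ} {v x y : ℝ} (a b : ℕ) (hX : Enc E X v) (hL : Enc E L x)
    (hR : Enc E R y) : Enc E (pcaseA a b X L R) (if v + (a : ℝ) / b ≤ 0 then x else y) :=
  enc_caseL hX (enc_add hX (enc_rat E a b)) hL hR (pkt_spec a b).1 (pkt_spec a b).2

theorem enc_caseN {E : Pt} {X L R : ℕ} {v x y : ℝ} (n : ℕ) (hX : Enc E X v) (hL : Enc E L x)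
    (hR : Enc E R y) : Enc E (pcaseN n X L R) (if v - (n : ℝ) ≤ 0 then x else y) := by
  have e : ((Nat.shiftLeft n 30 : ℕ) : ℝ) = S * n := by
    rw [shl_eq, S_real]
    push_cast
    ring
  exact enc_caseK hX (enc_subn n hX) hL hR e.le (by linarith)

theorem enc_case0 {E : Pt} {X L R : ℕ} {v x y : ℝ} (hX : Enc E X v) (hL : Enc E L x)
    (hR : Enc E R y) : Enc E (pcase0 X L R) (if v ≤ 0 then x else y) := by
  have h := enc_caseK (k := 0) (C := X) (t := 0) hX (by rw [sub_zero]; exact hX) hL hR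
    (by simp) (by simp)
  rw [sub_zero] at h
  exact h

end Pool.Agent.Strip051.PB
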