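import Pool.Agent.Strip051.PB.PkU

/-! # Packed arithmetic: square roots -/

set_option exponentiation.threshold 3000
set_option maxRecDepth 20000

namespace Pool.Agent.Strip051.PB

/-- one Newton step for the square root -/
def pnst (n x : ℕ) : ℕ := Nat.shiftRight (Nat.add x (Nat.div n x)) 1

/-- upper bound of the square root of `n > 0`, start value `x` -/
def psr (n x : ℕ) : ℕ := Nat.add (pnst n (pnst n (pnst n (pnst n (pnst n x))))) 1

/-- the same with more steps -/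
def psr8 (n x : ℕ) : ℕ := psr n (pnst n (pnst n (pnst n x)))

theorem pnst_eq (n x : ℕ) : pnst n x = (x + n / x) / 2 := by
  have h : pnst n x = Nat.shiftRight (x + n / x) 1 := rfl
  rw [h, shr_eq, pow_one]

theorem pnst_pos {n x : ℕ} (hn : 0 < n) (hx : 0 < x) : 0 < pnst n x := by
  rw [pnst_eq]
  rcases Nat.lt_or_ge x 2 with h | h
  · have : x = 1 := by omega
    subst this
    rw [Nat.div_one]
    omega
  · generalize n / x = d
    omega

theorem pnst_ge {n x : ℕ} (hx : 0 < x) : n ≤ (pnst n x + 1) * (pnst n x + 1) := by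
  rw [pnst_eq]
  set y := (x + n / x) / 2 with hy
  have h1 : x + n / x + 1 ≤ 2 * (y + 1) := by omega
  have h2 : n < x * (n / x + 1) := Nat.lt_mul_div_succ n hx
  set d := n / x with hd
  by_contra hcon
  push Not at hcon
  have h3 : (y + 1) * (y + 1) < x * (d + 1) := lt_trans hcon h2
  have h4 : (x + (d + 1)) * (x + (d + 1)) ≤ (2 * (y + 1)) * (2 * (y + 1)) :=
    Nat.mul_le_mul (by omega) (by omega)
  have h5 : 4 * (x * (d + 1)) ≤ (x + (d + 1)) * (x + (d + 1)) := by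
    zify
    nlinarith [sq_nonneg ((x : ℤ) - (d + 1))]
  have h6 : (2 * (y + 1)) * (2 * (y + 1)) = 4 * ((y + 1) * (y + 1)) := by ring
  omega

theorem pnst_le {n x : ℕ} (hx : 0 < x) (h : n ≤ (x + 1) * (x + 1)) : pnst n x ≤ x + 1 := by
  rw [pnst_eq]
  have h1 : n / x ≤ x + 3 := by
    apply Nat.div_le_of_le_mul
    have : (x + 1) * (x + 1) = x * (x + 2) + 1 := by ring
    have h2 : x * (x + 3) = x * (x + 2) + x := by ring
    omega
  omega

theorem psr_ge {n x : ℕ} (hn : 0 < n) (hx : 0 < x) : n ≤ psr n x * psr n x := by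
  have h1 := pnst_pos hn hx
  have h2 := pnst_pos hn h1
  have h3 := pnst_pos hn h2
  have h4 := pnst_pos hn h3
  exact pnst_ge h4

theorem psr_pos (n x : ℕ) : 0 < psr n x := Nat.succ_pos _

theorem psr_le {n x B : ℕ} (hn : 0 < n) (hx : 0 < x) (hB : pnst n x ≤ B) : psr n x ≤ B + 5 := by
  have h1 := pnst_pos hn hx
  have h2 := pnst_pos hn h1
  have h3 := pnst_pos hn h2
  have h4 := pnst_pos hn h3
  have g2 := pnst_le h1 (pnst_ge hx)
  have g3 := pnst_le h2 (pnst_ge h1)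
  have g4 := pnst_le h3 (pnst_ge h2)
  have g5 := pnst_le h4 (pnst_ge h3)
  have e : psr n x = pnst n (pnst n (pnst n (pnst n (pnst n x)))) + 1 := rfl
  rw [e]
  omega

theorem psr8_ge {n x : ℕ} (hn : 0 < n) (hx : 0 < x) : n ≤ psr8 n x * psr8 n x :=
  psr_ge hn (pnst_pos hn (pnst_pos hn (pnst_pos hn hx)))

theorem psr8_le {n x B : ℕ} (hn : 0 < n) (hx : 0 < x) (hB : pnst n x ≤ B) : psr8 n x ≤ B + 8 := by
  have h1 := pnst_pos hn hx
  have h2 := pnst_pos hn h1
  have h3 := pnst_pos hn h2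
  have g2 := pnst_le h1 (pnst_ge hx)
  have g3 := pnst_le h2 (pnst_ge h1)
  have g4 := pnst_le h3 (pnst_ge h2)
  have g := psr_le hn h3 (B := B + 3) (by omega)
  exact g

/-- start value -/
noncomputable def pst (c : ℕ) : ℕ :=
  Bool.rec (motive := fun _ => ℕ) (Nat.add c 0x10000000)
    (Bool.rec (motive := fun _ => ℕ) (Nat.add c 0x4000000)
      (Bool.rec (motive := fun _ => ℕ) (Nat.add c 0x800000) (Nat.add c 0x100000) (Nat.ble c 0x400))
      (Nat.ble c 0x10000)) (Nat.ble c 0x400000)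

theorem pst_spec (c : ℕ) : c < pst c ∧ pst c ≤ c + 2 ^ 28 := by
  have h1 : Nat.add c 0x10000000 = c + 0x10000000 := rfl
  have h2 : Nat.add c 0x4000000 = c + 0x4000000 := rfl
  have h3 : Nat.add c 0x800000 = c + 0x800000 := rfl
  have h4 : Nat.add c 0x100000 = c + 0x100000 := rfl
  unfold pst
  cases Nat.ble c 0x400000
  · change c < Nat.add c 0x10000000 ∧ Nat.add c 0x10000000 ≤ c + 2 ^ 28
    rw [h1]
    norm_num
  · cases Nat.ble c 0x10000
    · change c < Nat.add c 0x4000000 ∧ Nat.add c 0x4000000 ≤ c + 2 ^ 28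
      rw [h2]
      norm_num
    · cases Nat.ble c 0x400
      · change c < Nat.add c 0x800000 ∧ Nat.add c 0x800000 ≤ c + 2 ^ 28
        rw [h3]
        norm_num
      · change c < Nat.add c 0x100000 ∧ Nat.add c 0x100000 ≤ c + 2 ^ 28
        rw [h4]
        norm_num

/-- The first step from the start value. -/
theorem pnst_start {c x : ℕ} (hc : c ≤ 2 ^ 59) (h1 : c < x) (h2 : x ≤ c + 2 ^ 28) :
    pnst (c * 2 ^ 30) x ≤ 2 ^ 59 := by
  rw [pnst_eq]
  have h : c * 2 ^ 30 / x ≤ 2 ^ 30 := by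
    apply Nat.div_le_of_le_mul
    exact Nat.mul_le_mul_right _ (by omega)
  omega

/-- The affine approximation of the square root. -/
theorem sqrt_line {c rho s w p q m h g i j : ℕ} (hr : rho + 1 ≤ c) (hs : 2 ^ 30 * c ≤ s * s)
    (hs0 : 0 < s) (hw : w = s * s / 2 ^ 30) (hp : p = rho + w + 1 - c) (hq : q = w + c - rho)
    (hm : m = s * (p * p) / (q * q)) (hh : h = m / 4) (hg : g = 2 ^ 59 / s) (hi : i = s / 2)
    (hj : j = c / 2 ^ 29) {y : ℝ} (hy : |y - c| ≤ rho) :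
    |Real.sqrt (2 ^ 30 * y) - ((g : ℝ) / 2 ^ 30 * y + ((i : ℝ) - h))| ≤ (h : ℝ) + j + 3 := by
  have hwc : c ≤ w := by omega
  have hs0' : (0 : ℝ) < s := by exact_mod_cast hs0
  have hs' : (2 : ℝ) ^ 30 * c ≤ s * s := by exact_mod_cast hs
  have hpr : (p : ℝ) = rho + w + 1 - c := by
    have : p + c = rho + w + 1 := by omega
    have : (p : ℝ) + c = rho + w + 1 := by exact_mod_cast this
    linarith
  have hqr : (q : ℝ) = w + c - rho := by
    have : q + rho = w + c := by omega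
    have : (q : ℝ) + rho = w + c := by exact_mod_cast this
    linarith
  have hq0 : 0 < q := by omega
  have hq0' : (0 : ℝ) < q := by exact_mod_cast hq0
  have hw1 := fshr (s * s) 30
  rw [← hw] at hw1
  have hm1 := fdiv (a := s * (p * p)) (b := q * q) (Nat.mul_pos hq0 hq0)
  rw [← hm] at hm1
  have hg1 := fdiv (a := 2 ^ 59) hs0
  rw [← hg, Nat.cast_pow, Nat.cast_ofNat] at hg1
  have hj1 := fshr c 29
  rw [← hj] at hj1
  push_cast at hw1 hm1
  have hmh : (m : ℝ) ≤ 4 * h + 3 := by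
    have : m ≤ 4 * h + 3 := by omega
    exact_mod_cast this
  have hi1 : (i : ℝ) ≤ s / 2 ∧ (s : ℝ) / 2 ≤ i + 1 / 2 := by
    have e1 : 2 * i ≤ s := by omega
    have e2 : s ≤ 2 * i + 1 := by omega
    have e1' : 2 * (i : ℝ) ≤ s := by exact_mod_cast e1
    have e2' : (s : ℝ) ≤ 2 * i + 1 := by exact_mod_cast e2
    constructor <;> linarith
  have hrc : (rho : ℝ) + 1 ≤ c := by exact_mod_cast hr
  obtain ⟨y1, y2⟩ := abs_le.mp hy
  have hy0 : 0 < y := by linarith
  set F := Real.sqrt (2 ^ 30 * y) with hF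
  have hF0 : 0 ≤ F := Real.sqrt_nonneg _
  have hF2 : F * F = 2 ^ 30 * y := Real.mul_self_sqrt (by positivity)
  have hFs : 2 ^ 30 * ((c : ℝ) - rho) ≤ F * s := by
    rcases le_total F s with h1 | h1
    · have : F * F ≤ F * s := by gcongr
      rw [hF2] at this
      linarith
    · have : (s : ℝ) * s ≤ F * s := by gcongr
      have h0 : (0 : ℝ) ≤ rho := Nat.cast_nonneg _
      linarith
  have hS1 : 2 ^ 30 * (q : ℝ) ≤ (F + s) * s := by
    have h1 : (2 : ℝ) ^ 30 * w ≤ s * s := by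
      have := hw1.1
      rw [le_div_iff₀ (by positivity)] at this
      linarith
    rw [hqr, add_mul]
    linarith
  have hd : |F - s| * (F + s) ≤ 2 ^ 30 * p := by
    have h0 : 0 ≤ F + s := by linarith
    have h1 : |F - s| * (F + s) = |2 ^ 30 * y - s * s| := by
      rw [← hF2, ← abs_of_nonneg h0, ← abs_mul]
      congr 1
      ring
    rw [h1]
    have h2 : (s : ℝ) * s ≤ 2 ^ 30 * (w + 1) := by
      have := hw1.2
      rw [div_lt_iff₀ (by positivity)] at this
      linarith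
    have h3 : (2 : ℝ) ^ 30 * p = 2 ^ 30 * rho + 2 ^ 30 * (w + 1) - 2 ^ 30 * c := by rw [hpr]; ring
    have h4 : (2 : ℝ) ^ 30 * y ≤ 2 ^ 30 * c + 2 ^ 30 * rho := by nlinarith
    have h5 : (2 : ℝ) ^ 30 * c - 2 ^ 30 * rho ≤ 2 ^ 30 * y := by nlinarith
    rw [h3, abs_le]
    constructor <;> linarith
  have hFq : |F - s| * q ≤ p * s := by
    have h1 : |F - s| * (2 ^ 30 * q) ≤ |F - s| * ((F + s) * s) := by gcongr
    have h2 : |F - s| * ((F + s) * s) ≤ (2 ^ 30 * p) * s := by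
      rw [← mul_assoc]
      gcongr
    nlinarith
  have hgap : (F - s) ^ 2 / (2 * s) ≤ s * (p * p) / (q * q) / 2 := by
    have h1 : (F - s) ^ 2 * (q * q) ≤ (p * s) * (p * s) := by
      have h2 : (|F - s| * q) * (|F - s| * q) ≤ (p * s) * (p * s) := by gcongr
      have h3 : (|F - s| * q) * (|F - s| * q) = (F - s) ^ 2 * (q * q) := by
        rw [← sq_abs (F - s)]; ring
      linarith
    rw [div_div, div_le_div_iff₀ (by positivity) (by positivity)]
    nlinarith
  have hgap0 : 0 ≤ (F - s) ^ 2 / (2 * s) := by positivity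
  have hid : F = s / 2 + 2 ^ 30 / (2 * s) * y - (F - s) ^ 2 / (2 * s) := by
    have : (2 : ℝ) ^ 30 / (2 * s) * y = F * F / (2 * s) := by rw [hF2]; ring
    rw [this]
    field_simp
    ring
  have e59 : (2 : ℝ) ^ 59 / s = 2 ^ 30 * (2 ^ 30 / (2 * s)) := by
    have : (2 : ℝ) ^ 59 = 2 ^ 30 * 2 ^ 30 / 2 := by norm_num
    rw [this]
    field_simp
  rw [e59] at hg1
  set L : ℝ := 2 ^ 30 / (2 * s) with hL
  have e4 : 0 ≤ (L - (g : ℝ) / 2 ^ 30) * y ∧ (L - (g : ℝ) / 2 ^ 30) * y ≤ j + 1 := by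
    have h1 : L - (g : ℝ) / 2 ^ 30 = (2 ^ 30 * L - g) / 2 ^ 30 := by ring
    have h2 : 0 ≤ L - (g : ℝ) / 2 ^ 30 := by
      rw [h1]
      apply div_nonneg _ (by positivity)
      linarith [hg1.1]
    have h3 : L - (g : ℝ) / 2 ^ 30 ≤ 1 / 2 ^ 30 := by
      rw [h1]
      gcongr
      linarith [hg1.2]
    refine ⟨mul_nonneg h2 hy0.le, ?_⟩
    have h4 : y ≤ 2 * c := by linarith
    calc (L - (g : ℝ) / 2 ^ 30) * y ≤ 1 / 2 ^ 30 * (2 * c) := by gcongr
      _ = (c : ℝ) / 2 ^ 29 := by ring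
      _ ≤ j + 1 := hj1.2.le
  have e5 : F - ((g : ℝ) / 2 ^ 30 * y + ((i : ℝ) - h)) =
      (s / 2 - i) + (L - (g : ℝ) / 2 ^ 30) * y - (F - s) ^ 2 / (2 * s) + h := by
    nth_rw 1 [hid]
    ring
  rw [e5, abs_le]
  constructor
  · linarith [e4.1, hi1.1, hm1.2]
  · linarith [e4.2, hi1.2]

end Pool.Agent.Strip051.PB
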