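import Pool.Agent.Strip051.PB.PkQ

/-! # Packed arithmetic: square roots, flat enclosures -/

set_option exponentiation.threshold 3000
set_option maxRecDepth 20000

namespace Pool.Agent.Strip051.PB

/-- enclosure of a number in `[0, u / S]` -/
def pflat (u : ℕ) : ℕ := Nat.add (Nat.mul (Nat.shiftRight u 1) 0x2000000000000000000000001000000000000000000000001000000000000000000000000000000000000000000000000000000000000000000000000000000000000000000000000000000000000000000000000000000000000000000000000000000000000000000000000000000000000000000000000000000000000000000000000000000000000000000000000000000000000000000000000000000000000000000000001) 0x40000000000000000000000000000000000000000000000000000000000000000000000001000000000000000000000001000000000000000000000001000000000000000000000000000000000000000000000000000000000000000000000000000000000000000000000000000000000000000000000000000000000000000000000000000000000000000000000000000000000000000000000000000000000000000000000000000000000000000000000000000000000000000000000000000000000000000000000000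

theorem enc_flat {E : Pt} {u : ℕ} {w : ℝ} (hu : u ≤ 2 ^ 64) (h0 : 0 ≤ (S : ℝ) * w)
    (h1 : (S : ℝ) * w ≤ u) : Enc E (pflat u) w := by
  have e1 : (0x2000000000000000000000001000000000000000000000001000000000000000000000000000000000000000000000000000000000000000000000000000000000000000000000000000000000000000000000000000000000000000000000000000000000000000000000000000000000000000000000000000000000000000000000000000000000000000000000000000000000000000000000000000000000000000000000001 : ℕ) = 1 + 2 ^ 1152 * (1 + 2 ^ 96 + 2 ^ 192 * 2) := by norm_num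
  have e2 : (0x40000000000000000000000000000000000000000000000000000000000000000000000001000000000000000000000001000000000000000000000001000000000000000000000000000000000000000000000000000000000000000000000000000000000000000000000000000000000000000000000000000000000000000000000000000000000000000000000000000000000000000000000000000000000000000000000000000000000000000000000000000000000000000000000000000000000000000000000000 : ℕ) = 2 ^ 1152 * (1 + 2 ^ 96 + 2 ^ 192 + 2 ^ 480 * 64) := by norm_num
  have e : pflat u = (u / 2) * 0x2000000000000000000000001000000000000000000000001000000000000000000000000000000000000000000000000000000000000000000000000000000000000000000000000000000000000000000000000000000000000000000000000000000000000000000000000000000000000000000000000000000000000000000000000000000000000000000000000000000000000000000000000000000000000000000000001 + 0x40000000000000000000000000000000000000000000000000000000000000000000000001000000000000000000000001000000000000000000000001000000000000000000000000000000000000000000000000000000000000000000000000000000000000000000000000000000000000000000000000000000000000000000000000000000000000000000000000000000000000000000000000000000000000000000000000000000000000000000000000000000000000000000000000000000000000000000000000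 := by
    have : pflat u = Nat.shiftRight u 1 * 0x2000000000000000000000001000000000000000000000001000000000000000000000000000000000000000000000000000000000000000000000000000000000000000000000000000000000000000000000000000000000000000000000000000000000000000000000000000000000000000000000000000000000000000000000000000000000000000000000000000000000000000000000000000000000000000000000001 + 0x40000000000000000000000000000000000000000000000000000000000000000000000001000000000000000000000001000000000000000000000001000000000000000000000000000000000000000000000000000000000000000000000000000000000000000000000000000000000000000000000000000000000000000000000000000000000000000000000000000000000000000000000000000000000000000000000000000000000000000000000000000000000000000000000000000000000000000000000000 := rfl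
    rw [this, shr_eq, pow_one]
  intro _
  rw [e, e1, e2]
  have hr : (u : ℝ) ≤ 2 * ((u / 2 : ℕ) : ℝ) + 1 := by
    have : u ≤ 2 * (u / 2) + 1 := by omega
    exact_mod_cast this
  have hh : u / 2 ≤ 2 ^ 63 := by omega
  generalize u / 2 = h at hr hh ⊢
  refine ⟨h, 0, 0, 0, h, h + 1, h + 1, 2 * h + 1, 64, (h : ℝ) + 1, ⟨?_, by omega, ?_, by omega,
    by omega, by omega, ?_, ?_, ?_, ?_⟩⟩
  · ring
  · unfold pk
    push_cast
    exact ⟨0, by ring⟩
  · push_cast
    have : (0 : ℝ) ≤ h := Nat.cast_nonneg _
    rw [abs_le]
    constructor <;> linarith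
  · push_cast; linarith
  · push_cast; simp
  · push_cast
    have : (0 : ℝ) ≤ h := Nat.cast_nonneg _
    simp
    linarith

/-- half of the remainder of the square root -/
def psqh (c rho s w : ℕ) : ℕ := Nat.shiftRight (Nat.div (Nat.mul s
  (Nat.mul (Nat.sub (Nat.add (Nat.add rho w) 1) c) (Nat.sub (Nat.add (Nat.add rho w) 1) c)))
  (Nat.mul (Nat.sub (Nat.add w c) rho) (Nat.sub (Nat.add w c) rho))) 2

/-- square root, centre `c`, radius `rho`, `s` close to the square root of `S c`, `h = psqh ..` -/
def psqrt3 (X c rho s h : ℕ) : ℕ :=
  paffp X (Nat.div 0x800000000000000 s) (Nat.shiftRight s 1) h (Nat.add h (Nat.add (Nat.shiftRight c 29) 3)) s rho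

def psqrt2 (X c rho s : ℕ) : ℕ := psqrt3 X c rho s (psqh c rho s (Nat.shiftRight (Nat.mul s s) 30))

theorem enc_sqrt2 {E : Pt} {X : ℕ} {v : ℝ} (hX : Enc E X v) (hl : X < 2 ^ 1662)
    (hr : prad X + 1 ≤ pcc X) (h59c : pcc X ≤ 2 ^ 59) :
    Enc E (psqrt2 X (pcc X) (prad X) (psr (Nat.shiftLeft (pcc X) 30) (pst (pcc X))))
      (Real.sqrt v) := by
  obtain ⟨c0, c1, c2, c3, V, R, q, a, m, r, h⟩ := hX hl
  obtain ⟨s1, s2, s3⟩ := prad_spec h hl
  have hcp : 0 < pcc X := by omega
  obtain ⟨hc, hc90⟩ := pcc_spec h hl hcp
  have hn := near_rad h hl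
  rw [shl_eq]
  generalize pcc X = c at hr hcp hc hc90 h59c ⊢
  generalize prad X = rho at s1 s2 s3 hr hn ⊢
  have hn0 : 0 < c * 2 ^ 30 := by positivity
  obtain ⟨hx1, hx2⟩ := pst_spec c
  generalize pst c = x at hx1 hx2 ⊢
  have hx0 : 0 < x := by omega
  have hsg := psr_ge hn0 hx0
  have hsl : psr (c * 2 ^ 30) x ≤ 2 ^ 60 := by
    have := psr_le hn0 hx0 (pnst_start h59c hx1 hx2)
    omega
  have hs0 := psr_pos (c * 2 ^ 30) x
  generalize psr (c * 2 ^ 30) x = s at hsg hsl hs0 ⊢
  have hcr : (c0 : ℝ) = c := by exact_mod_cast hc.symm
  rw [hcr] at hn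
  have h59 : (0x800000000000000 : ℕ) = 2 ^ 59 := by norm_num
  set w : ℕ := s * s / 2 ^ 30 with hw
  have hwc : c ≤ w := by omega
  set p : ℕ := rho + w + 1 - c with hp
  set qq : ℕ := w + c - rho with hq
  set mm : ℕ := s * (p * p) / (qq * qq) with hm
  set hh : ℕ := mm / 4 with hhh
  set g : ℕ := 2 ^ 59 / s with hg
  set i : ℕ := s / 2 with hi
  set j : ℕ := c / 2 ^ 29 with hj
  have ew : Nat.shiftRight (Nat.mul s s) 30 = w := shr_eq _ _
  have eh : psqh c rho s w = hh := by
    have : psqh c rho s w = Nat.shiftRight (s * (p * p) / (qq * qq)) 2 := rfl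
    have e4 : (2 : ℕ) ^ 2 = 4 := by norm_num
    rw [this, shr_eq, e4]
  have eg : Nat.div 0x800000000000000 s = g := by rw [h59]; rfl
  have ei : Nat.shiftRight s 1 = i := by rw [shr_eq, pow_one]
  have ej : Nat.shiftRight c 29 = j := shr_eq _ _
  have e0 : psqrt2 X c rho s = paffp X g i hh (hh + (j + 3)) s rho := by
    unfold psqrt2 psqrt3
    rw [ew, eh, eg, ei, ej]
    rfl
  rw [e0]
  have hline := sqrt_line hr (by rw [mul_comm]; exact hsg) hs0 hw hp hq hm hhh hg hi hj hn
  have hSr : (0 : ℝ) < S := by exact_mod_cast hS
  have hF : (S : ℝ) * Real.sqrt v = Real.sqrt (2 ^ 30 * ((S : ℝ) * v)) := by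
    have e : (2 : ℝ) ^ 30 * ((S : ℝ) * v) = (2 ^ 30 * 2 ^ 30) * v := by rw [S_real]; ring
    rw [e, Real.sqrt_mul (by positivity), Real.sqrt_mul_self (by positivity), S_real]
  have gs : g * s ≤ 2 ^ 59 := Nat.div_mul_le_self _ _
  have gc : g * c ≤ 2 ^ 89 + 2 ^ 32 := by
    have h1 : (g * c) * 2 ^ 30 ≤ 2 ^ 59 * (2 ^ 60 + 4) := by
      calc (g * c) * 2 ^ 30 = g * (c * 2 ^ 30) := by ring
        _ ≤ g * (s * s) := Nat.mul_le_mul_left _ hsg
        _ = (g * s) * s := by ring
        _ ≤ 2 ^ 59 * (2 ^ 60 + 4) := Nat.mul_le_mul gs (by omega)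
    omega
  have hpq : p ≤ qq := by omega
  have hqq : 0 < qq := by omega
  have mms : mm ≤ s := by
    apply Nat.div_le_of_le_mul
    rw [mul_comm (qq * qq)]
    exact Nat.mul_le_mul_left _ (Nat.mul_le_mul hpq hpq)
  refine enc_affp h hl s1 ?_ ?_ (by omega) (by omega) (by omega) (by omega) ?_ ?_
  · rw [← hc, abs_of_nonneg (by positivity)]
    have : (g * c : ℕ) < 2 ^ 95 := lt_of_le_of_lt gc (by norm_num)
    have : ((g * c : ℕ) : ℤ) < 2 ^ 95 := by exact_mod_cast this
    push_cast at this
    linarith
  · have h1 : rho * g ≤ g * c := by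
      rw [mul_comm]
      exact Nat.mul_le_mul_left _ (by omega)
    omega
  · rw [hF]
    push_cast
    have e : ((hh : ℝ) + (j + 3)) = hh + j + 3 := by ring
    rw [e]
    exact hline
  · rw [hcr]
    have hg1 := (fdiv (a := 2 ^ 59) hs0).1
    rw [← hg, Nat.cast_pow, Nat.cast_ofNat] at hg1
    have hs0' : (0 : ℝ) < s := by exact_mod_cast hs0
    have hsg' : (c : ℝ) * 2 ^ 30 ≤ s * s := by exact_mod_cast hsg
    have h1 : (g : ℝ) / 2 ^ 30 * c ≤ s / 2 := by
      have h2 : (g : ℝ) * c ≤ 2 ^ 59 / s * c := by gcongr
      have h3 : (2 : ℝ) ^ 59 / s * c ≤ 2 ^ 29 * s := by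
        rw [div_mul_eq_mul_div, div_le_iff₀ hs0']
        calc (2 : ℝ) ^ 59 * (c : ℝ) = (2 : ℝ) ^ 29 * ((c : ℝ) * (2 : ℝ) ^ 30) := by ring
          _ ≤ (2 : ℝ) ^ 29 * ((s : ℝ) * s) := by gcongr
          _ = (2 : ℝ) ^ 29 * s * s := by ring
      have h4 : (g : ℝ) / 2 ^ 30 * c = ((g : ℝ) * c) / 2 ^ 30 := by ring
      rw [h4, div_le_iff₀ (by positivity)]
      linarith
    have h5 : 0 ≤ (g : ℝ) / 2 ^ 30 * c := by positivity
    have h6 : (i : ℝ) ≤ s / 2 := by
      have e1 : 2 * i ≤ s := by omega
      have e1' : 2 * (i : ℝ) ≤ s := by exact_mod_cast e1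
      linarith
    have h7 : (hh : ℝ) ≤ s := by
      have : hh ≤ s := by omega
      exact_mod_cast this
    have h8 : (0 : ℝ) ≤ i := Nat.cast_nonneg _
    have h9 : (0 : ℝ) ≤ hh := Nat.cast_nonneg _
    rw [abs_le]
    constructor <;> linarith

/-- square root of a positive quantity -/
noncomputable def psqrt (X : ℕ) : ℕ :=
  Bool.rec 0x40000000000000000000000000000000000000000000000000000000000000000000000000000000000000000000000000000000000000000000000000000000000000000000000000000000000000000000000000000000000000000000000000000000000000000000000000000000000000000000000000000000000000000000000000000000000000000000000000000000000000000000000000000000000000000000000000000000000000000000000000000000000000000000000000000000000000000000000000000000 (Bool.rec 0x40000000000000000000000000000000000000000000000000000000000000000000000000000000000000000000000000000000000000000000000000000000000000000000000000000000000000000000000000000000000000000000000000000000000000000000000000000000000000000000000000000000000000000000000000000000000000000000000000000000000000000000000000000000000000000000000000000000000000000000000000000000000000000000000000000000000000000000000000000000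 (Bool.rec 0x40000000000000000000000000000000000000000000000000000000000000000000000000000000000000000000000000000000000000000000000000000000000000000000000000000000000000000000000000000000000000000000000000000000000000000000000000000000000000000000000000000000000000000000000000000000000000000000000000000000000000000000000000000000000000000000000000000000000000000000000000000000000000000000000000000000000000000000000000000000
    (psqrt2 X (pcc X) (prad X) (psr (Nat.shiftLeft (pcc X) 30) (pst (pcc X))))
    (Nat.ble (pcc X) 0x800000000000000)) (Nat.ble (Nat.add (prad X) 1) (pcc X))) (Nat.ble X 0x3fffffffffffffffffffffffffffffffffffffffffffffffffffffffffffffffffffffffffffffffffffffffffffffffffffffffffffffffffffffffffffffffffffffffffffffffffffffffffffffffffffffffffffffffffffffffffffffffffffffffffffffffffffffffffffffffffffffffffffffffffffffffffffffffffffffffffffffffffffffffffffffffffffffffffffffffffffffffffffffffffffffffffffffffffffffffffffffffffffffffffffffffffffffffffffffffffffffffffffffffffffffffffffffff)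

theorem enc_sqrt {E : Pt} {X : ℕ} {v : ℝ} (hX : Enc E X v) : Enc E (psqrt X) (Real.sqrt v) := by
  unfold psqrt
  rcases hb : Nat.ble X 0x3fffffffffffffffffffffffffffffffffffffffffffffffffffffffffffffffffffffffffffffffffffffffffffffffffffffffffffffffffffffffffffffffffffffffffffffffffffffffffffffffffffffffffffffffffffffffffffffffffffffffffffffffffffffffffffffffffffffffffffffffffffffffffffffffffffffffffffffffffffffffffffffffffffffffffffffffffffffffffffffffffffffffffffffffffffffffffffffffffffffffffffffffffffffffffffffffffffffffffffffffffffffffffffffff with _ | _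
  · exact enc_bad E _ (by norm_num)
  rcases hb2 : Nat.ble (Nat.add (prad X) 1) (pcc X) with _ | _
  · exact enc_bad E _ (by norm_num)
  rcases hb3 : Nat.ble (pcc X) 0x800000000000000 with _ | _
  · exact enc_bad E _ (by norm_num)
  exact enc_sqrt2 hX (lim1 hb) (Nat.le_of_ble_eq_true hb2)
    (le_trans (Nat.le_of_ble_eq_true hb3) (by norm_num))

/-- square root, flat enclosure if positivity is not certain -/
noncomputable def psqrtg1 (X : ℕ) : ℕ :=
  Bool.rec 0x40000000000000000000000000000000000000000000000000000000000000000000000000000000000000000000000000000000000000000000000000000000000000000000000000000000000000000000000000000000000000000000000000000000000000000000000000000000000000000000000000000000000000000000000000000000000000000000000000000000000000000000000000000000000000000000000000000000000000000000000000000000000000000000000000000000000000000000000000000000 (Bool.rec 0x40000000000000000000000000000000000000000000000000000000000000000000000000000000000000000000000000000000000000000000000000000000000000000000000000000000000000000000000000000000000000000000000000000000000000000000000000000000000000000000000000000000000000000000000000000000000000000000000000000000000000000000000000000000000000000000000000000000000000000000000000000000000000000000000000000000000000000000000000000000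 (Bool.rec
      (pflat (psr8 (Nat.shiftLeft (pup X) 30) (pst (pup X))))
    (psqrt2 X (pcc X) (prad X) (psr (Nat.shiftLeft (pcc X) 30) (pst (pcc X))))
    (Nat.ble (Nat.add (prad X) 1) (pcc X))) (Nat.ble (pup X) 0x800000000000000)) (Nat.ble X 0x3fffffffffffffffffffffffffffffffffffffffffffffffffffffffffffffffffffffffffffffffffffffffffffffffffffffffffffffffffffffffffffffffffffffffffffffffffffffffffffffffffffffffffffffffffffffffffffffffffffffffffffffffffffffffffffffffffffffffffffffffffffffffffffffffffffffffffffffffffffffffffffffffffffffffffffffffffffffffffffffffffffffffffffffffffffffffffffffffffffffffffffffffffffffffffffffffffffffffffffffffffffffffffffffff)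

/-- upper bound -/
theorem pup_spec {E : Pt} {T : ℕ} {v : ℝ} {c0 c1 c2 c3 : ℤ} {V R q a m : ℕ} {r : ℝ}
    (h : Rep E T v c0 c1 c2 c3 V R q a m r) (hT : T < 2 ^ 1662) :
    (c0 : ℝ) + prad T ≤ (pup T : ℕ) ∧ (S : ℝ) * v ≤ (pup T : ℕ) ∧
      (0 < pup T → (c0 : ℝ) + prad T = (pup T : ℕ)) := by
  have h1 := pcen_spec h hT
  have h2 : pup T = pcen T + prad T - 0x800000000000000000000000 := rfl
  have h3 : (0x800000000000000000000000 : ℕ) = 2 ^ 95 := by norm_num
  rw [h3] at h2
  have h4 := near_rad h hT
  have h5 : c0 + (prad T : ℤ) ≤ (pup T : ℤ) := by omega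
  have h6 : (c0 : ℝ) + prad T ≤ (pup T : ℕ) := by exact_mod_cast h5
  refine ⟨h6, ?_, ?_⟩
  · have := (abs_le.mp h4).2
    linarith
  · intro hp
    have h7 : c0 + (prad T : ℤ) = (pup T : ℤ) := by omega
    exact_mod_cast h7

/-- lower bound -/
theorem plo_spec {E : Pt} {T : ℕ} {v : ℝ} {c0 c1 c2 c3 : ℤ} {V R q a m : ℕ} {r : ℝ}
    (h : Rep E T v c0 c1 c2 c3 V R q a m r) (hT : T < 2 ^ 1662) :
    (prad T : ℝ) - c0 ≤ (plo T : ℕ) ∧ -(plo T : ℝ) ≤ (S : ℝ) * v ∧
      (0 < plo T → (prad T : ℝ) - c0 = (plo T : ℕ)) := by
  have h1 := pcen_spec h hT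
  have h2 : plo T = prad T + 0x800000000000000000000000 - pcen T := rfl
  have h3 : (0x800000000000000000000000 : ℕ) = 2 ^ 95 := by norm_num
  rw [h3] at h2
  have h4 := near_rad h hT
  have h5 : (prad T : ℤ) - c0 ≤ (plo T : ℤ) := by omega
  have h6 : (prad T : ℝ) - c0 ≤ (plo T : ℕ) := by exact_mod_cast h5
  refine ⟨h6, ?_, ?_⟩
  · have := (abs_le.mp h4).1
    linarith
  · intro hp
    have h7 : (prad T : ℤ) - c0 = (plo T : ℤ) := by omega
    exact_mod_cast h7

theorem pcc_le_pup (X : ℕ) : pcc X ≤ pup X := by
  have h2 : pcc X = pcen X - 0x800000000000000000000000 := rfl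
  have h3 : pup X = pcen X + prad X - 0x800000000000000000000000 := rfl
  rw [h2, h3]
  exact Nat.sub_le_sub_right (Nat.le_add_right _ _) _

theorem enc_sqrtg1 {E : Pt} {X : ℕ} {v : ℝ} (hX : Enc E X v) : Enc E (psqrtg1 X) (Real.sqrt v) := by
  unfold psqrtg1
  rcases hb : Nat.ble X 0x3fffffffffffffffffffffffffffffffffffffffffffffffffffffffffffffffffffffffffffffffffffffffffffffffffffffffffffffffffffffffffffffffffffffffffffffffffffffffffffffffffffffffffffffffffffffffffffffffffffffffffffffffffffffffffffffffffffffffffffffffffffffffffffffffffffffffffffffffffffffffffffffffffffffffffffffffffffffffffffffffffffffffffffffffffffffffffffffffffffffffffffffffffffffffffffffffffffffffffffffffffffffffffffffff with _ | _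
  · exact enc_bad E _ (by norm_num)
  have hl := lim1 hb
  rcases hb3 : Nat.ble (pup X) 0x800000000000000 with _ | _
  · exact enc_bad E _ (by norm_num)
  have hu : pup X ≤ 2 ^ 59 := le_trans (Nat.le_of_ble_eq_true hb3) (by norm_num)
  rcases hb2 : Nat.ble (Nat.add (prad X) 1) (pcc X) with _ | _
  rotate_left
  · exact enc_sqrt2 hX hl (Nat.le_of_ble_eq_true hb2) (le_trans (pcc_le_pup X) hu)
  obtain ⟨c0, c1, c2, c3, V, R, q, a, m, r, h⟩ := hX hl
  obtain ⟨_, h2, _⟩ := pup_spec h hl
  change Enc E (pflat (psr8 (Nat.shiftLeft (pup X) 30) (pst (pup X)))) (Real.sqrt v)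
  rw [shl_eq]
  have hSr : (0 : ℝ) < S := by exact_mod_cast hS
  have hF : (S : ℝ) * Real.sqrt v = Real.sqrt (2 ^ 30 * ((S : ℝ) * v)) := by
    have e : (2 : ℝ) ^ 30 * ((S : ℝ) * v) = (2 ^ 30 * 2 ^ 30) * v := by rw [S_real]; ring
    rw [e, Real.sqrt_mul (by positivity), Real.sqrt_mul_self (by positivity), S_real]
  generalize pup X = u at hu h2 ⊢
  obtain ⟨hx1, hx2⟩ := pst_spec u
  generalize pst u = x at hx1 hx2 ⊢
  have hx0 : 0 < x := by omega
  rcases Nat.eq_zero_or_pos u with hu0 | hu0
  · subst hu0
    have h3 : (2 : ℝ) ^ 30 * ((S : ℝ) * v) ≤ 0 := by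
      have : (S : ℝ) * v ≤ 0 := by simpa using h2
      exact mul_nonpos_of_nonneg_of_nonpos (by positivity) this
    have h4 : (S : ℝ) * Real.sqrt v = 0 := by rw [hF]; exact Real.sqrt_eq_zero_of_nonpos h3
    refine enc_flat ?_ (by rw [h4]) (by rw [h4]; exact Nat.cast_nonneg _)
    have e1 : psr8 (0 * 2 ^ 30) x ≤ 2 ^ 64 := by
      rw [Nat.zero_mul]
      have e2 : ∀ x, pnst 0 x ≤ x := fun x => by
        rw [pnst_eq, Nat.zero_div, Nat.add_zero]
        exact Nat.div_le_self _ _
      have e3 : ∀ x, psr 0 x ≤ x + 1 := fun x =>
        Nat.succ_le_succ ((e2 _).trans ((e2 _).trans ((e2 _).trans ((e2 _).trans (e2 _)))))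
      have e4 : psr8 0 x ≤ x + 1 :=
        (e3 _).trans (Nat.succ_le_succ ((e2 _).trans ((e2 _).trans (e2 _))))
      omega
    exact e1
  · have hn0 : 0 < u * 2 ^ 30 := by positivity
    have hsg := psr8_ge hn0 hx0
    have hsl := psr8_le hn0 hx0 (pnst_start hu hx1 hx2)
    generalize psr8 (u * 2 ^ 30) x = s at hsg hsl ⊢
    refine enc_flat (by omega) ?_ ?_
    · exact mul_nonneg hSr.le (Real.sqrt_nonneg _)
    · rw [hF, Real.sqrt_le_left (Nat.cast_nonneg _)]
      have h3 : (u : ℝ) * 2 ^ 30 ≤ s * s := by exact_mod_cast hsg
      rw [sq]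
      linarith

end Pool.Agent.Strip051.PB
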