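import Pool.Agent.Strip051.PB.PkN

/-! # Packed arithmetic: squares -/

set_option exponentiation.threshold 3000
set_option maxRecDepth 20000

namespace Pool.Agent.Strip051.PB

/-- the bound of the total radius -/
def prho (X : ℕ) : ℕ := Nat.land (Nat.shiftRight X 1248) 0xffffffffffffffffffffffff

theorem prho_eq {X V R q Z : ℕ} (h : X = V + 2 ^ 1152 * (R + 2 ^ 96 * (q + 2 ^ 96 * Z)))
    (hV : V < 2 ^ 1152) (hR : R < 2 ^ 96) (hq : q < 2 ^ 96) : prho X = q := by
  have h96 : (0xffffffffffffffffffffffff : ℕ) = 2 ^ 96 - 1 := by norm_num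
  have e : prho X = (X / 2 ^ 1248) &&& 0xffffffffffffffffffffffff := by
    have : Nat.shiftRight X 1248 = X / 2 ^ 1248 := Nat.shiftRight_eq_div_pow _ _
    unfold prho
    rw [this]; rfl
  rw [e, h96, Nat.and_two_pow_sub_one_eq_mod, h]
  omega

theorem prho_spec {E : Pt} {T : ℕ} {v : ℝ} {c0 c1 c2 c3 : ℤ} {V R q a m : ℕ} {r : ℝ}
    (h : Rep E T v c0 c1 c2 c3 V R q a m r) (hT : T < 2 ^ 1662) : prho T = q := by
  have g0 := h.dec
  have g1 := h.hV
  have g3 := h.hR
  have g5 := h.hq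
  have hm : m < 2 ^ 30 := by omega
  exact prho_eq (V := V) (R := R) (q := q) (Z := a + 2 ^ 288 * m) (by rw [g0]; ring) (by omega) (by omega) (by omega)

/-- The lanes of the remainder of a product, lane two reduced by `k`. -/
theorem mulK {X Y V V' R q a m R' q' a' m' k : ℕ}
    (hX : X = V + 2 ^ 1152 * (R + 2 ^ 96 * q + 2 ^ 192 * a + 2 ^ 480 * m))
    (hY : Y = V' + 2 ^ 1152 * (R' + 2 ^ 96 * q' + 2 ^ 192 * a' + 2 ^ 480 * m'))
    (hV : V < 2 ^ 610) (hV' : V' < 2 ^ 610) (hR : R < 2 ^ 44) (hq : q < 2 ^ 44) (ha : a < 2 ^ 44)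
    (hm : m < 2 ^ 30) (hR' : R' < 2 ^ 44) (hq' : q' < 2 ^ 44) (ha' : a' < 2 ^ 44)
    (hm' : m' < 2 ^ 30) (hk : k ≤ R * a' + q * q' + a * R') :
    Nat.land (Nat.shiftRight (Nat.sub (Nat.mul X Y) (Nat.shiftLeft k 2496)) 2526) 0x3ffffffffffffffff00000003ffffffffffffffff00000003ffffffffffffffff =
      (R * a' + q * q' + a * R' - k) / 2 ^ 30 + 2 ^ 96 * ((q * a' + a * q') / 2 ^ 30) +
        2 ^ 192 * (a * a' / 2 ^ 30) := by
  set H := R + 2 ^ 96 * q + 2 ^ 192 * a + 2 ^ 480 * m with hH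
  set H' := R' + 2 ^ 96 * q' + 2 ^ 192 * a' + 2 ^ 480 * m' with hH'
  have bH : H < 2 ^ 511 := by omega
  have bH' : H' < 2 ^ 511 := by omega
  have hM : (0x3ffffffffffffffff00000003ffffffffffffffff00000003ffffffffffffffff : ℕ) = (2 ^ 66 - 1) * (1 + 2 ^ 96 + 2 ^ 192) := by norm_num
  have b1 : V * V' < 2 ^ 610 * 2 ^ 610 := Nat.mul_lt_mul'' hV hV'
  have b2 : V * H' < 2 ^ 610 * 2 ^ 511 := Nat.mul_lt_mul'' hV bH'
  have b3 : V' * H < 2 ^ 610 * 2 ^ 511 := Nat.mul_lt_mul'' hV' bH
  have e4 : H * H' = R * R' + 2 ^ 96 * (R * q' + q * R') + 2 ^ 192 * (R * a' + q * q' + a * R') +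
      2 ^ 288 * (q * a' + a * q') + 2 ^ 384 * (a * a') + 2 ^ 480 * ((m * R' + R * m') +
      2 ^ 96 * (m * q' + q * m') + 2 ^ 192 * (m * a' + a * m') + 2 ^ 480 * (m * m')) := by
    rw [hH, hH']; ring
  obtain ⟨j, hj⟩ := Nat.exists_eq_add_of_le hk
  have e1 : X * Y - 2 ^ 2496 * k = (V * V' + 2 ^ 1152 * (V * H' + V' * H)) + 2 ^ 2304 *
      (R * R' + 2 ^ 96 * (R * q' + q * R') + 2 ^ 192 * j +
      2 ^ 288 * (q * a' + a * q') + 2 ^ 384 * (a * a') + 2 ^ 480 * ((m * R' + R * m') +
      2 ^ 96 * (m * q' + q * m') + 2 ^ 192 * (m * a' + a * m') + 2 ^ 480 * (m * m'))) := by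
    have : X * Y = ((V * V' + 2 ^ 1152 * (V * H' + V' * H)) + 2 ^ 2304 *
      (R * R' + 2 ^ 96 * (R * q' + q * R') + 2 ^ 192 * j +
      2 ^ 288 * (q * a' + a * q') + 2 ^ 384 * (a * a') + 2 ^ 480 * ((m * R' + R * m') +
      2 ^ 96 * (m * q' + q * m') + 2 ^ 192 * (m * a' + a * m') + 2 ^ 480 * (m * m')))) +
      2 ^ 2496 * k := by
      have e5 : X * Y = (V * V' + 2 ^ 1152 * (V * H' + V' * H)) + 2 ^ 2304 * (H * H') := by
        rw [hX, hY]; ring
      rw [e5, e4, hj]
      ring
    rw [this, Nat.add_sub_cancel]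
  set G := R * R' + 2 ^ 96 * (R * q' + q * R') + 2 ^ 192 * j +
      2 ^ 288 * (q * a' + a * q') + 2 ^ 384 * (a * a') + 2 ^ 480 * ((m * R' + R * m') +
      2 ^ 96 * (m * q' + q * m') + 2 ^ 192 * (m * a' + a * m') + 2 ^ 480 * (m * m')) with hG
  have e2 : (X * Y - 2 ^ 2496 * k) / 2 ^ 2304 = G := by
    rw [e1, Nat.add_mul_div_left _ _ (by positivity), Nat.div_eq_of_lt, zero_add]
    have : 2 ^ 610 * 2 ^ 610 + 2 ^ 1152 * (2 ^ 610 * 2 ^ 511 + 2 ^ 610 * 2 ^ 511) < 2 ^ 2304 := by
      norm_num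
    clear_value H H' G
    clear e1 e4 hG hj hk
    omega
  have e3 : Nat.shiftRight (Nat.sub (Nat.mul X Y) (Nat.shiftLeft k 2496)) 2526 = G / 2 ^ 222 := by
    have h0 : Nat.shiftLeft k 2496 = k * 2 ^ 2496 := Nat.shiftLeft_eq _ _
    have h1 : Nat.shiftRight (Nat.sub (Nat.mul X Y) (Nat.shiftLeft k 2496)) 2526 =
        (X * Y - k * 2 ^ 2496) / 2 ^ 2526 := by rw [h0]; exact Nat.shiftRight_eq_div_pow _ _
    have h2 : (2 : ℕ) ^ 2526 = 2 ^ 2304 * 2 ^ 222 := by rw [← pow_add]
    rw [h1, mul_comm k, h2, ← Nat.div_div_eq_div_mul, e2]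
  have p : ∀ x y : ℕ, x < 2 ^ 44 → y < 2 ^ 44 → x * y < 2 ^ 88 := by
    intro x y h1 h2
    have := Nat.mul_lt_mul'' h1 h2
    have e : (2 : ℕ) ^ 44 * 2 ^ 44 = 2 ^ 88 := by norm_num
    omega
  have p1 := p _ _ hR hR'
  have p2 := p _ _ hR hq'
  have p3 := p _ _ hq hR'
  have p4 := p _ _ hR ha'
  have p5 := p _ _ hq hq'
  have p6 := p _ _ ha hR'
  have p7 := p _ _ hq ha'
  have p8 := p _ _ ha hq'
  have p9 := p _ _ ha ha'
  have hj' : R * a' + q * q' + a * R' - k = j := by rw [hj]; omega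
  rw [hj']
  have := lanes (W := G) (l0 := R * R') (l1 := R * q' + q * R') (l2 := j) (l3 := q * a' + a * q')
    (l4 := a * a') (by omega) (by omega) (by omega) (by omega) (by omega) hG
  rw [← this, ← hM, e3]
  rfl

theorem half_le (n : ℕ) : n - n / 2 ≤ n / 2 + 1 ∧ n / 2 ≤ n - n / 2 := by omega

/-- square -/
noncomputable def psq (X : ℕ) : ℕ :=
  Bool.rec 0x40000000000000000000000000000000000000000000000000000000000000000000000000000000000000000000000000000000000000000000000000000000000000000000000000000000000000000000000000000000000000000000000000000000000000000000000000000000000000000000000000000000000000000000000000000000000000000000000000000000000000000000000000000000000000000000000000000000000000000000000000000000000000000000000000000000000000000000000000000000 (Nat.add (Nat.add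
    (Nat.land (Nat.shiftRight (Nat.add (Nat.add (Nat.mul X X) (Nat.shiftRight (Nat.mul (prho X) (prho X)) 1)) 0x800000000000000000000000800000000000000000000000800000000000000000000000000000000000000000000000000000000000000000000000800000000000000000000000) 30) 0x3ffffffffffffffff00000003ffffffffffffffff00000003ffffffffffffffff00000000000000000000000000000000000000000000000000000003ffffffffffffffff)
    (Nat.shiftLeft (Nat.land (Nat.shiftRight (Nat.sub (Nat.mul X X)
      (Nat.shiftLeft (Nat.shiftRight (Nat.mul (prho X) (prho X)) 1) 2496)) 2526) 0x3ffffffffffffffff00000003ffffffffffffffff00000003ffffffffffffffff) 1152))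
    (Nat.add (Nat.mul (Nat.shiftRight (Nat.mul (prho X) (prho X)) 30) 0x1000000000000000000000001000000000000000000000000000000000000000000000000000000000000000000000000000000000000000000000000000000000000000000000000000000000000000000000000000000000000000000000000000000000000000000000000000000000000000000000000000000000000000000000000000000000000000000000000000000000000000000000000000000000000000000000000) 0x200000000000000000000000000000000000000000000000000000000000000000000000a000000000000000000000009000000000000000000000005000000000000000000000000000000000000000000000000000000000000000000000000000000000000000000000000000000000000000000000000000000000000000000000000fffffffdfffffffffffffffffffffffdfffffffffffffffffffffffdfffffffffffffffffffffffffffffffffffffffffffffffffffffffffffffffffffffffe0000000000000000))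
    (Nat.beq (Nat.lor X 0x3fffffff0000000000000000000000000000000000000000000000000000000000000fffffffffff0000000000000fffffffffff0000000000000fffffffffffffffffffffffffffffffffffffffffffffffffffffffffffffffffffffffffffffffffffffffffffffffffffffffffffffffffffffffffffffffffffffffffffffffffffffffffffffffffffffffffffffffffffffffffffffffffffffffffffffffffffffffffffffffffffffffffffffffffffffffffffffffffffffffffffffffffffffffffffffffffffffffffff) 0x3fffffff0000000000000000000000000000000000000000000000000000000000000fffffffffff0000000000000fffffffffff0000000000000fffffffffffffffffffffffffffffffffffffffffffffffffffffffffffffffffffffffffffffffffffffffffffffffffffffffffffffffffffffffffffffffffffffffffffffffffffffffffffffffffffffffffffffffffffffffffffffffffffffffffffffffffffffffffffffffffffffffffffffffffffffffffffffffffffffffffffffffffffffffffffffffffffffffffff)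

theorem enc_sq {E : Pt} {X : ℕ} {v : ℝ} (hX : Enc E X v) : Enc E (psq X) (v ^ 2) := by
  unfold psq
  rcases hb : Nat.beq (Nat.lor X 0x3fffffff0000000000000000000000000000000000000000000000000000000000000fffffffffff0000000000000fffffffffff0000000000000fffffffffffffffffffffffffffffffffffffffffffffffffffffffffffffffffffffffffffffffffffffffffffffffffffffffffffffffffffffffffffffffffffffffffffffffffffffffffffffffffffffffffffffffffffffffffffffffffffffffffffffffffffffffffffffffffffffffffffffffffffffffffffffffffffffffffffffffffffffffffffffffffffffffffff) 0x3fffffff0000000000000000000000000000000000000000000000000000000000000fffffffffff0000000000000fffffffffff0000000000000fffffffffffffffffffffffffffffffffffffffffffffffffffffffffffffffffffffffffffffffffffffffffffffffffffffffffffffffffffffffffffffffffffffffffffffffffffffffffffffffffffffffffffffffffffffffffffffffffffffffffffffffffffffffffffffffffffffffffffffffffffffffffffffffffffffffffffffffffffffffffffffffffffffffffff with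 _ | _
  · exact enc_bad E _ (by norm_num)
  have hb0 : Nat.lor (Nat.lor X X) 0x3fffffff0000000000000000000000000000000000000000000000000000000000000fffffffffff0000000000000fffffffffff0000000000000fffffffffffffffffffffffffffffffffffffffffffffffffffffffffffffffffffffffffffffffffffffffffffffffffffffffffffffffffffffffffffffffffffffffffffffffffffffffffffffffffffffffffffffffffffffffffffffffffffffffffffffffffffffffffffffffffffffffffffffffffffffffffffffffffffffffffffffffffffffffffffffffffffffffffff = 0x3fffffff0000000000000000000000000000000000000000000000000000000000000fffffffffff0000000000000fffffffffff0000000000000fffffffffffffffffffffffffffffffffffffffffffffffffffffffffffffffffffffffffffffffffffffffffffffffffffffffffffffffffffffffffffffffffffffffffffffffffffffffffffffffffffffffffffffffffffffffffffffffffffffffffffffffffffffffffffffffffffffffffffffffffffffffffffffffffffffffffffffffffffffffffffffffffffffffffff := by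
    have h1 := Nat.eq_of_beq_eq_true hb
    have h2 : Nat.lor X X = X := Nat.or_self X
    rw [h2]; exact h1
  have hb' := (or_eq_left hb0).1
  intro _
  have hAL : (0x3fffffff0000000000000000000000000000000000000000000000000000000000000fffffffffff0000000000000fffffffffff0000000000000fffffffffffffffffffffffffffffffffffffffffffffffffffffffffffffffffffffffffffffffffffffffffffffffffffffffffffffffffffffffffffffffffffffffffffffffffffffffffffffffffffffffffffffffffffffffffffffffffffffffffffffffffffffffffffffffffffffffffffffffffffffffffffffffffffffffffffffffffffffffffffffffffffffffffff : ℕ) < 2 ^ 1662 := by norm_num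
  have lX : X < 2 ^ 1662 := lt_of_le_of_lt (by rw [← hb']; exact Nat.and_le_right) hAL
  obtain ⟨c0, c1, c2, c3, V, R, q, a, m, r, h⟩ := hX lX
  have g0 := h.dec
  have g1 := h.hV
  have g3 := h.hR
  have g5 := h.hq
  have g7 := h.ha
  have hm : m < 2 ^ 30 := by omega
  obtain ⟨lR, lq, la⟩ := allowed hb' g0 (by omega) (by omega) (by omega) (by omega)
  have hrho := prho_spec h lX
  rw [hrho]
  have hsr1 : Nat.shiftRight (Nat.mul q q) 1 = q * q / 2 := Nat.shiftRight_eq_div_pow _ _
  have hsr30 : Nat.shiftRight (Nat.mul q q) 30 = q * q / 2 ^ 30 := Nat.shiftRight_eq_div_pow _ _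
  rw [hsr1, hsr30]
  set hs := q * q / 2 with hhs
  have bq2 : q * q < 2 ^ 88 := by
    have := Nat.mul_lt_mul'' lq lq
    norm_num at *; omega
  have hs1 : hs ≤ q * q := by omega
  have hs2 : q * q - hs ≤ hs + 1 := by omega
  have hs3 : hs ≤ q * q - hs := by omega
  have hK := mulK g0 g0 (by omega) (by omega) lR lq la hm lR lq la hm
    (show hs ≤ R * a + q * q + a * R by
      have := Nat.zero_le (R * a); have := Nat.zero_le (a * R); omega)
  -- real bounds of the coefficients
  have r0 : 0 ≤ r := (abs_nonneg _).trans h.err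
  have haR : (a : ℝ) < 2 ^ 44 := by exact_mod_cast la
  have ea := h.ea
  have n0 := abs_nonneg (c0 : ℝ)
  have n1 := abs_nonneg (c1 : ℝ)
  have n2 := abs_nonneg (c2 : ℝ)
  have n3 := abs_nonneg (c3 : ℝ)
  have ib : ∀ {c : ℤ}, |(c : ℝ)| ≤ 2 ^ 44 → |c| ≤ 2 ^ 44 := by
    intro c hc
    exact_mod_cast hc
  have i0 := ib (c := c0) (by linarith)
  have i1 := ib (c := c1) (by linarith)
  have i2 := ib (c := c2) (by linarith)
  have i3 := ib (c := c3) (by linarith)
  have pb : ∀ {x y : ℤ}, |x| ≤ 2 ^ 44 → |y| ≤ 2 ^ 44 → |x * y| ≤ 2 ^ 88 := by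
    intro x y hx hy
    rw [abs_mul]
    calc |x| * |y| ≤ 2 ^ 44 * 2 ^ 44 := mul_le_mul hx hy (abs_nonneg _) (by positivity)
      _ = 2 ^ 88 := by norm_num
  have db : ∀ {x : ℤ}, |x| ≤ 2 ^ 88 → |2 * x| < 2 ^ 95 := by
    intro x hx
    rw [abs_mul]
    have : |(2 : ℤ)| = 2 := by norm_num
    rw [this]
    omega
  have hc : (2 ^ 576 : ℤ) ∣ ((Nat.add (Nat.mul X X) hs : ℕ) : ℤ) - pk (c0 * c0 + hs) (2 * (c0 * c1))
      (2 * (c0 * c2)) (2 * (c0 * c3)) := by
    obtain ⟨k, hk⟩ := h.cong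
    have e1 : ((Nat.add (Nat.mul X X) hs : ℕ) : ℤ) = (X : ℤ) * X + hs := by
      have : Nat.add (Nat.mul X X) hs = X * X + hs := rfl
      rw [this]; push_cast; ring
    have e2 : (X : ℤ) = pk c0 c1 c2 c3 + 2 ^ 576 * (k + 2 ^ 576 * (R + 2 ^ 96 * q + 2 ^ 192 * a +
        2 ^ 480 * m)) := by
      rw [g0]; push_cast; linear_combination hk
    have e4 : pk c0 c1 c2 c3 * pk c0 c1 c2 c3 + hs - pk (c0 * c0 + hs) (2 * (c0 * c1))
        (2 * (c0 * c2)) (2 * (c0 * c3)) = 2 ^ 576 * (c1 * c1 + 2 ^ 96 * (c1 * c2 + c2 * c1) +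
        2 ^ 192 * (c2 * c2 + c1 * c3 + c3 * c1) + 2 ^ 288 * (c2 * c3 + c3 * c2) +
        2 ^ 384 * (c3 * c3)) := by unfold pk; ring
    rw [e1, e2]
    generalize hz : (k + 2 ^ 576 * ((R : ℤ) + 2 ^ 96 * q + 2 ^ 192 * a + 2 ^ 480 * m)) = z
    refine ⟨(c1 * c1 + 2 ^ 96 * (c1 * c2 + c2 * c1) +
        2 ^ 192 * (c2 * c2 + c1 * c3 + c3 * c1) + 2 ^ 288 * (c2 * c3 + c3 * c2) +
        2 ^ 384 * (c3 * c3)) + (2 * z * pk c0 c1 c2 c3 + 2 ^ 576 * (z * z)), ?_⟩
    linear_combination e4
  have b0 : |c0 * c0 + (hs : ℤ)| < 2 ^ 95 := by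
    have h1 := pb i0 i0
    have h2 := abs_add_le (c0 * c0) (hs : ℤ)
    have h3 : |(hs : ℤ)| = hs := abs_of_nonneg (Int.natCast_nonneg _)
    have h4 : (hs : ℤ) < 2 ^ 88 := by
      have : hs < 2 ^ 88 := by omega
      exact_mod_cast this
    omega
  obtain ⟨z0, z1, z2, z3, t0, t1, t2, t3, y0, y1, y2, y3, k0, k1, k2, k3, hW, hz⟩ :=
    mulV hc b0 (db (pb i0 i1)) (db (pb i0 i2)) (db (pb i0 i3))
  set W := Nat.land (Nat.shiftRight (Nat.add (Nat.add (Nat.mul X X) hs) 0x800000000000000000000000800000000000000000000000800000000000000000000000000000000000000000000000000000000000000000000000800000000000000000000000) 30) 0x3ffffffffffffffff00000003ffffffffffffffff00000003ffffffffffffffff00000000000000000000000000000000000000000000000000000003ffffffffffffffff with hWd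
  set l2 := R * a + q * q + a * R - hs with hl2
  set l3 := q * a + a * q with hl3
  set l4 := a * a with hl4
  set qs := q * q / 2 ^ 30 with hqs
  have hKK : (0x200000000000000000000000000000000000000000000000000000000000000000000000a000000000000000000000009000000000000000000000005000000000000000000000000000000000000000000000000000000000000000000000000000000000000000000000000000000000000000000000000000000000000000000000000fffffffdfffffffffffffffffffffffdfffffffffffffffffffffffdfffffffffffffffffffffffffffffffffffffffffffffffffffffffffffffffffffffffe0000000000000000 : ℕ) = (2 ^ 576 - 2 ^ 65 * (1 + 2 ^ 288 + 2 ^ 384 + 2 ^ 480)) +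
      2 ^ 1152 * (5 + 2 ^ 96 * 9 + 2 ^ 192 * 10 + 2 ^ 480 * 2) := by norm_num
  have hCL : (0x1000000000000000000000001000000000000000000000000000000000000000000000000000000000000000000000000000000000000000000000000000000000000000000000000000000000000000000000000000000000000000000000000000000000000000000000000000000000000000000000000000000000000000000000000000000000000000000000000000000000000000000000000000000000000000000000000 : ℕ) = 2 ^ 1152 * (2 ^ 96 + 2 ^ 192) := by norm_num
  have hAn : (l2 : ℝ) = R * a + (q * q - hs) + a * R := by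
    have e : l2 + hs = R * a + q * q + a * R := by
      have := Nat.zero_le (R * a); have := Nat.zero_le (a * R); omega
    have e' : (l2 : ℝ) + hs = R * a + q * q + a * R := by exact_mod_cast e
    linarith
  have hB : (l3 : ℝ) = 2 * (q * a) := by rw [hl3]; push_cast; ring
  have hC : (l4 : ℝ) = a * a := by rw [hl4]; push_cast; ring
  have q0 := lt_div30 l2
  have q1 := lt_div30 l3
  have q2 := lt_div30 l4
  have q3 := lt_div30 (q * q)
  have bR : l2 < 2 ^ 90 := by
    have := Nat.mul_lt_mul'' lR la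
    have := Nat.mul_lt_mul'' la lR
    norm_num at *; omega
  have bq : l3 < 2 ^ 90 := by
    have := Nat.mul_lt_mul'' lq la
    have := Nat.mul_lt_mul'' la lq
    norm_num at *; omega
  have ba : l4 < 2 ^ 90 := by
    have := Nat.mul_lt_mul'' la la
    norm_num at *; omega
  set L := |(c1 : ℝ)| + |(c2 : ℝ)| + |(c3 : ℝ)| with hL
  have L0 : 0 ≤ L := by rw [hL]; positivity
  set A := (c1 : ℝ) * E.e1 + c2 * E.e2 + c3 * E.e3 with hA
  have eL : |A| ≤ L := lin_le E _ _ _
  have hSr : (0 : ℝ) < S := by exact_mod_cast hS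
  have hqR : L + r ≤ q := h.eq
  have hq0 : (0 : ℝ) ≤ q := Nat.cast_nonneg _
  have herr := h.err
  rw [← hA] at herr
  have hsR : (hs : ℝ) ≤ q * q - hs := by
    have e : hs + hs ≤ q * q := by omega
    have e' : (hs : ℝ) + hs ≤ q * q := by exact_mod_cast e
    linarith
  -- the square
  set D := (S : ℝ) * v - (c0 + A) with hD
  have hzz : |(A + D) ^ 2 - hs| ≤ q * q - hs := by
    have h1 : |A + D| ≤ q := by
      have := abs_add_le A D
      linarith
    have h2 : (A + D) ^ 2 ≤ q * q := by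
      calc (A + D) ^ 2 ≤ (q : ℝ) ^ 2 := sq_le_sq' (by linarith [(abs_le.mp h1).1]) (abs_le.mp h1).2
        _ = q * q := sq _
    have h3 := sq_nonneg (A + D)
    rw [abs_le]
    constructor <;> linarith
  have hcD : |(c0 : ℝ) * D| ≤ |(c0 : ℝ)| * r := by
    rw [abs_mul]
    exact mul_le_mul_of_nonneg_left herr n0
  have hmc : |(S : ℝ) * (v ^ 2) - ((c0 * c0 + hs) + 2 * (c0 * A)) / 2 ^ 30| ≤
      (2 * (|(c0 : ℝ)| * r) + (q * q - hs)) / 2 ^ 30 := by
    have e : (S : ℝ) * (v ^ 2) - ((c0 * c0 + hs) + 2 * (c0 * A)) / 2 ^ 30 =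
        (2 * (c0 * D) + ((A + D) ^ 2 - hs)) / 2 ^ 30 := by
      have e1 : (S : ℝ) * (v ^ 2) = ((S : ℝ) * v) ^ 2 / 2 ^ 30 := by
        rw [S_real]; field_simp
      have e2 : (S : ℝ) * v = c0 + A + D := by rw [hD]; ring
      rw [e1, e2]; ring
    rw [e, abs_div, abs_of_pos (by positivity : (0 : ℝ) < 2 ^ 30)]
    gcongr
    have h1 := abs_add_le (2 * (c0 * D)) ((A + D) ^ 2 - hs)
    have h2 : |2 * ((c0 : ℝ) * D)| = 2 * |(c0 : ℝ) * D| := by
      rw [abs_mul, abs_of_pos (by norm_num : (0 : ℝ) < 2)]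
    linarith
  have w1 : 2 * (|(c0 : ℝ)| * r) + (q * q - hs) ≤ l2 := by
    rw [hAn]
    have x1 : |(c0 : ℝ)| * r ≤ a * R :=
      mul_le_mul (by linarith) h.rR r0 (Nat.cast_nonneg _)
    have x2 : (R : ℝ) * a = a * R := mul_comm _ _
    linarith
  have w2 : 2 * (|(c0 : ℝ)| * (L + r)) ≤ l3 := by
    rw [hB]
    have x1 : |(c0 : ℝ)| * (L + r) ≤ a * q :=
      mul_le_mul (by linarith) hqR (by positivity) (Nat.cast_nonneg _)
    have x2 : (q : ℝ) * a = a * q := mul_comm _ _
    linarith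
  have w3 : |(c0 : ℝ)| * |(c0 : ℝ)| + 2 * (|(c0 : ℝ)| * (L + r)) ≤ l4 := by
    rw [hC]
    have x1 : (|(c0 : ℝ)| + (L + r)) * (|(c0 : ℝ)| + (L + r)) ≤ a * a :=
      mul_le_mul ea ea (by positivity) (Nat.cast_nonneg _)
    have x2 : 0 ≤ (L + r) * (L + r) := mul_self_nonneg _
    have x3 : (|(c0 : ℝ)| + (L + r)) * (|(c0 : ℝ)| + (L + r)) = |(c0 : ℝ)| * |(c0 : ℝ)| +
      2 * (|(c0 : ℝ)| * (L + r)) + (L + r) * (L + r) := by ring
    linarith
  have hz0 := abs_fr y0 k0
  have hz1 := abs_fr y1 k1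
  have hz2 := abs_fr y2 k2
  have hz3 := abs_fr y3 k3
  have v0 : |((c0 * c0 + (hs : ℤ) : ℤ) : ℝ)| = |(c0 : ℝ)| * |(c0 : ℝ)| + hs := by
    push_cast
    rw [abs_of_nonneg (by have := mul_self_nonneg (c0 : ℝ); have : (0 : ℝ) ≤ hs := Nat.cast_nonneg _; linarith), abs_mul_abs_self]
  have vv : ∀ x : ℤ, |((2 * (c0 * x) : ℤ) : ℝ)| = 2 * (|(c0 : ℝ)| * |(x : ℝ)|) := by
    intro x
    push_cast
    rw [abs_mul, abs_mul, abs_of_pos (by norm_num : (0 : ℝ) < 2)]
  rw [vv] at hz1 hz2 hz3
  rw [v0] at hz0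
  have hq3 : ((q * q : ℕ) : ℝ) = (q : ℝ) * q := by push_cast; ring
  rw [hq3] at q3
  have q3' : ((q : ℝ) * q) / 2 ^ 30 ≤ (qs : ℝ) + 1 := q3
  clear q3
  refine ⟨z0, z1, z2, z3, W + (2 ^ 576 - 2 ^ 65 * (1 + 2 ^ 288 + 2 ^ 384 + 2 ^ 480)),
    l2 / 2 ^ 30 + 5, l3 / 2 ^ 30 + qs + 9, l4 / 2 ^ 30 + qs + 10, 2,
    (2 * (|(c0 : ℝ)| * r) + (q * q - hs)) / 2 ^ 30 + 4,
    ⟨?_, by omega, ?_, by omega, by omega, by omega, ?_, ?_, ?_, ?_⟩⟩
  · change Nat.add (Nat.add W (Nat.shiftLeft (Nat.land (Nat.shiftRight (Nat.sub (Nat.mul X X)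
      (Nat.shiftLeft hs 2496)) 2526) 0x3ffffffffffffffff00000003ffffffffffffffff00000003ffffffffffffffff) 1152)) (Nat.add (Nat.mul qs 0x1000000000000000000000001000000000000000000000000000000000000000000000000000000000000000000000000000000000000000000000000000000000000000000000000000000000000000000000000000000000000000000000000000000000000000000000000000000000000000000000000000000000000000000000000000000000000000000000000000000000000000000000000000000000000000000000000) 0x200000000000000000000000000000000000000000000000000000000000000000000000a000000000000000000000009000000000000000000000005000000000000000000000000000000000000000000000000000000000000000000000000000000000000000000000000000000000000000000000000000000000000000000000000fffffffdfffffffffffffffffffffffdfffffffffffffffffffffffdfffffffffffffffffffffffffffffffffffffffffffffffffffffffffffffffffffffffe0000000000000000) = _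
    rw [hK, hKK, hCL]
    have e : ∀ x : ℕ, Nat.shiftLeft x 1152 = x * 2 ^ 1152 := fun x => Nat.shiftLeft_eq x 1152
    rw [e]
    have e2 : ∀ x y : ℕ, Nat.add x y = x + y := fun x y => rfl
    have e3 : ∀ x y : ℕ, Nat.mul x y = x * y := fun x y => rfl
    rw [e2, e2, e2, e3]
    clear_value l2 l3 l4 qs W
    generalize l2 / 2 ^ 30 = x2
    generalize l3 / 2 ^ 30 = x3
    generalize l4 / 2 ^ 30 = x4
    ring_nf
  · have e : ((W + (2 ^ 576 - 2 ^ 65 * (1 + 2 ^ 288 + 2 ^ 384 + 2 ^ 480)) : ℕ) : ℤ) =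
        (W : ℤ) + (2 ^ 576 - 2 ^ 65 * (1 + 2 ^ 288 + 2 ^ 384 + 2 ^ 480)) := by omega
    rw [e]
    exact hz
  · have e2 : (((c0 : ℝ) * c0 + hs) + 2 * (c0 * A)) / 2 ^ 30 =
        (((c0 * c0 + (hs : ℤ) : ℤ) : ℝ) + (((2 * (c0 * c1) : ℤ) : ℝ) * E.e1 +
        ((2 * (c0 * c2) : ℤ) : ℝ) * E.e2 + ((2 * (c0 * c3) : ℤ) : ℝ) * E.e3)) / 2 ^ 30 := by
      rw [hA]; push_cast; ring
    have f := fr4 E y0 y1 y2 y3 k0 k1 k2 k3
    rw [e2] at hmc
    rw [abs_le] at hmc f ⊢
    constructor <;> linarith [hmc.1, hmc.2, f.1, f.2]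
  · push_cast
    have : (2 * (|(c0 : ℝ)| * r) + (q * q - hs)) / 2 ^ 30 ≤ (l2 : ℝ) / 2 ^ 30 := by
      gcongr
    push_cast at q0
    linarith
  · push_cast at q1 ⊢
    have e1 : (2 * (|(c0 : ℝ)| * (L + r))) / 2 ^ 30 ≤ (l3 : ℝ) / 2 ^ 30 := by gcongr
    have e2 : (2 * (|(c0 : ℝ)| * (L + r))) / 2 ^ 30 = 2 * (|(c0 : ℝ)| * |(c1 : ℝ)|) / 2 ^ 30 +
        2 * (|(c0 : ℝ)| * |(c2 : ℝ)|) / 2 ^ 30 + 2 * (|(c0 : ℝ)| * |(c3 : ℝ)|) / 2 ^ 30 +
        2 * (|(c0 : ℝ)| * r) / 2 ^ 30 := by rw [hL]; ring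
    have e3 : (2 * (|(c0 : ℝ)| * r) + (q * q - hs)) / 2 ^ 30 =
        2 * (|(c0 : ℝ)| * r) / 2 ^ 30 + (q * q) / 2 ^ 30 - hs / 2 ^ 30 := by ring
    have e4 : 0 ≤ (hs : ℝ) / 2 ^ 30 := by positivity
    linarith
  · push_cast at q2 ⊢
    have e1 : (|(c0 : ℝ)| * |(c0 : ℝ)| + 2 * (|(c0 : ℝ)| * (L + r))) / 2 ^ 30 ≤
      (l4 : ℝ) / 2 ^ 30 := by gcongr
    have e2 : (|(c0 : ℝ)| * |(c0 : ℝ)| + 2 * (|(c0 : ℝ)| * (L + r))) / 2 ^ 30 =
        |(c0 : ℝ)| * |(c0 : ℝ)| / 2 ^ 30 + 2 * (|(c0 : ℝ)| * |(c1 : ℝ)|) / 2 ^ 30 +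
        2 * (|(c0 : ℝ)| * |(c2 : ℝ)|) / 2 ^ 30 + 2 * (|(c0 : ℝ)| * |(c3 : ℝ)|) / 2 ^ 30 +
        2 * (|(c0 : ℝ)| * r) / 2 ^ 30 := by rw [hL]; ring
    have e3 : (2 * (|(c0 : ℝ)| * r) + (q * q - hs)) / 2 ^ 30 =
        2 * (|(c0 : ℝ)| * r) / 2 ^ 30 + (q * q) / 2 ^ 30 - hs / 2 ^ 30 := by ring
    have e4 : (|(c0 : ℝ)| * |(c0 : ℝ)| + hs) / 2 ^ 30 = |(c0 : ℝ)| * |(c0 : ℝ)| / 2 ^ 30 +
      hs / 2 ^ 30 := by ring
    rw [e4] at hz0
    linarith

end Pool.Agent.Strip051.PB
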