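import Pool.Agent.Strip051.PB.PkC

/-! # Packed arithmetic: inverse -/

set_option exponentiation.threshold 3000
set_option maxRecDepth 20000

namespace Pool.Agent.Strip051.PB

theorem shr_eq (x k : ℕ) : Nat.shiftRight x k = x / 2 ^ k := Nat.shiftRight_eq_div_pow _ _

theorem shl_eq (x k : ℕ) : Nat.shiftLeft x k = x * 2 ^ k := Nat.shiftLeft_eq _ _

/-- Floor division, real form. -/
theorem fdiv {a b : ℕ} (hb : 0 < b) : ((a / b : ℕ) : ℝ) ≤ (a : ℝ) / b ∧ (a : ℝ) / b < ((a / b : ℕ) : ℝ) + 1 :=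
  ⟨Nat.cast_div_le, Box.lt_cdiv hb⟩

/-- Floor division by a power of two, real form. -/
theorem fshr (a k : ℕ) : ((a / 2 ^ k : ℕ) : ℝ) ≤ (a : ℝ) / 2 ^ k ∧ (a : ℝ) / 2 ^ k < ((a / 2 ^ k : ℕ) : ℝ) + 1 := by
  have h := fdiv (a := a) (b := 2 ^ k) (by positivity)
  push_cast at h
  exact h

/-- The affine approximation of the inverse. -/
theorem inv_line {c rho t g m h k j : ℕ} (hc : 0 < c) (hr : 8 * rho ≤ 7 * c) (ht : t = 2 ^ 60 / c)
    (hg : g = 2 ^ 90 / (c * c)) (hm : m = (t + 1) * (rho * rho) / (c * (c - rho)))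
    (hh : h = m / 2) (hk : k = g * c / 2 ^ 30) (hj : j = rho / 2 ^ 30) {y : ℝ}
    (hy : |y - c| ≤ rho) :
    |(2 : ℝ) ^ 60 / y - (-((g : ℝ) / 2 ^ 30 * y) + ((t : ℝ) + h + k))| ≤ (h : ℝ) + j + 5 := by
  have hc' : (0 : ℝ) < c := by exact_mod_cast hc
  have hrc : rho < c := by omega
  have hrc' : (rho : ℝ) < c := by exact_mod_cast hrc
  have ht1 := fdiv (a := 2 ^ 60) hc
  rw [← ht, Nat.cast_pow, Nat.cast_ofNat] at ht1
  have hg1 := fdiv (a := 2 ^ 90) (b := c * c) (Nat.mul_pos hc hc)
  rw [← hg, Nat.cast_pow, Nat.cast_ofNat, Nat.cast_mul] at hg1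
  have hm1 := fdiv (a := (t + 1) * (rho * rho)) (b := c * (c - rho)) (Nat.mul_pos hc (by omega))
  rw [← hm] at hm1
  have hk1 := fshr (g * c) 30
  rw [← hk] at hk1
  have hj1 := fshr rho 30
  rw [← hj] at hj1
  have hcr : ((c - rho : ℕ) : ℝ) = (c : ℝ) - rho := by push_cast [hrc.le]; ring
  push_cast [hrc.le] at hm1 hk1
  have hh1 : (m : ℝ) ≤ 2 * h + 1 := by
    have : m ≤ 2 * h + 1 := by omega
    exact_mod_cast this
  obtain ⟨y1, y2⟩ := abs_le.mp hy
  have hy0 : 0 < y := by linarith
  set T0 : ℝ := 2 ^ 60 / c with hT0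
  have hT0p : 0 < T0 := by positivity
  have e1 : (2 : ℝ) ^ 60 / y = T0 - T0 * (y - c) / c + T0 * ((y - c) ^ 2 / (c * y)) := by
    rw [hT0]
    field_simp
    ring
  have e2 : T0 * ((y - c) ^ 2 / (c * y)) ≤ ((t : ℝ) + 1) * (rho * rho) / (c * (c - rho)) := by
    have h1 : (y - c) ^ 2 ≤ (rho : ℝ) * rho := by
      have := sq_le_sq' (by linarith : -(rho : ℝ) ≤ y - c) y2
      rw [sq (rho : ℝ)] at this
      exact this
    rw [mul_div_assoc]
    have h2 : (0 : ℝ) < c * (c - rho) := mul_pos hc' (by linarith)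
    have h3 : (y - c) ^ 2 / (c * y) ≤ (rho : ℝ) * rho / (c * (c - rho)) := by
      gcongr
      linarith
    exact mul_le_mul ht1.2.le h3 (by positivity) (by positivity)
  have e2' : 0 ≤ T0 * ((y - c) ^ 2 / (c * y)) := by positivity
  have e3 : (2 : ℝ) ^ 90 / (c * c) = 2 ^ 30 * (T0 / c) := by
    have : (2 : ℝ) ^ 90 = 2 ^ 30 * 2 ^ 60 := by norm_num
    rw [hT0, this]
    field_simp
  rw [e3] at hg1
  have e4 : |((g : ℝ) / 2 ^ 30 - T0 / c) * (y - c)| ≤ (rho : ℝ) / 2 ^ 30 := by
    rw [abs_mul]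
    have h1 : |(g : ℝ) / 2 ^ 30 - T0 / c| ≤ 1 / 2 ^ 30 := by
      have : (g : ℝ) / 2 ^ 30 - T0 / c = (g - 2 ^ 30 * (T0 / c)) / 2 ^ 30 := by ring
      rw [this, abs_div, abs_of_pos (by positivity : (0 : ℝ) < 2 ^ 30)]
      gcongr
      rw [abs_le]
      constructor <;> linarith [hg1.1, hg1.2]
    calc |(g : ℝ) / 2 ^ 30 - T0 / c| * |y - c| ≤ 1 / 2 ^ 30 * rho :=
          mul_le_mul h1 hy (abs_nonneg _) (by positivity)
      _ = _ := by ring
  have e5 : (2 : ℝ) ^ 60 / y - (-((g : ℝ) / 2 ^ 30 * y) + ((t : ℝ) + h + k)) =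
      T0 * ((y - c) ^ 2 / (c * y)) + (T0 - t) + ((g : ℝ) / 2 ^ 30 - T0 / c) * (y - c) +
      ((g : ℝ) * c / 2 ^ 30 - k) - h := by
    rw [e1]
    ring
  rw [e5]
  rw [abs_le] at e4 ⊢
  constructor
  · linarith [e4.1, ht1.1, hk1.1, hj1.2]
  · linarith [e4.2, ht1.2, hk1.2, hj1.2, hm1.2]

/-- half of the remainder of the inverse -/
def pinvh (c rho : ℕ) : ℕ := Nat.shiftRight (Nat.div (Nat.mul (Nat.add (Nat.div 0x1000000000000000 c) 1)
  (Nat.mul rho rho)) (Nat.mul c (Nat.sub c rho))) 1

/-- slope of the inverse -/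
def pinvg (c : ℕ) : ℕ := Nat.div 0x40000000000000000000000 (Nat.mul c c)

/-- inverse, centre `c`, radius `rho` -/
def pinv2 (X c rho : ℕ) : ℕ :=
  paffn X (pinvg c) (Nat.add (Nat.add (Nat.div 0x1000000000000000 c) (pinvh c rho)) (Nat.shiftRight (Nat.mul (pinvg c) c) 30))
    (Nat.add (pinvh c rho) (Nat.add (Nat.shiftRight rho 30) 5)) (Nat.add (Nat.div 0x1000000000000000 c) (pinvh c rho)) rho

/-- inverse of a positive quantity -/
noncomputable def pinv (X : ℕ) : ℕ :=
  Bool.rec 0x40000000000000000000000000000000000000000000000000000000000000000000000000000000000000000000000000000000000000000000000000000000000000000000000000000000000000000000000000000000000000000000000000000000000000000000000000000000000000000000000000000000000000000000000000000000000000000000000000000000000000000000000000000000000000000000000000000000000000000000000000000000000000000000000000000000000000000000000000000000 (Bool.rec 0x40000000000000000000000000000000000000000000000000000000000000000000000000000000000000000000000000000000000000000000000000000000000000000000000000000000000000000000000000000000000000000000000000000000000000000000000000000000000000000000000000000000000000000000000000000000000000000000000000000000000000000000000000000000000000000000000000000000000000000000000000000000000000000000000000000000000000000000000000000000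 (pinv2 X (pcc X) (prad X))
    (Nat.ble (Nat.mul 8 (prad X)) (Nat.mul 7 (pcc X)))) (Nat.ble X 0x3fffffffffffffffffffffffffffffffffffffffffffffffffffffffffffffffffffffffffffffffffffffffffffffffffffffffffffffffffffffffffffffffffffffffffffffffffffffffffffffffffffffffffffffffffffffffffffffffffffffffffffffffffffffffffffffffffffffffffffffffffffffffffffffffffffffffffffffffffffffffffffffffffffffffffffffffffffffffffffffffffffffffffffffffffffffffffffffffffffffffffffffffffffffffffffffffffffffffffffffffffffffffffffffff)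

theorem lim1 {X : ℕ} (h : Nat.ble X 0x3fffffffffffffffffffffffffffffffffffffffffffffffffffffffffffffffffffffffffffffffffffffffffffffffffffffffffffffffffffffffffffffffffffffffffffffffffffffffffffffffffffffffffffffffffffffffffffffffffffffffffffffffffffffffffffffffffffffffffffffffffffffffffffffffffffffffffffffffffffffffffffffffffffffffffffffffffffffffffffffffffffffffffffffffffffffffffffffffffffffffffffffffffffffffffffffffffffffffffffffffffffffffffffffff = true) : X < 2 ^ 1662 := by
  have h1 : X ≤ 0x3fffffffffffffffffffffffffffffffffffffffffffffffffffffffffffffffffffffffffffffffffffffffffffffffffffffffffffffffffffffffffffffffffffffffffffffffffffffffffffffffffffffffffffffffffffffffffffffffffffffffffffffffffffffffffffffffffffffffffffffffffffffffffffffffffffffffffffffffffffffffffffffffffffffffffffffffffffffffffffffffffffffffffffffffffffffffffffffffffffffffffffffffffffffffffffffffffffffffffffffffffffffffffffffff := Nat.le_of_ble_eq_true h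
  exact lt_of_le_of_lt h1 (by norm_num)

theorem pcc_spec {E : Pt} {T : ℕ} {v : ℝ} {c0 c1 c2 c3 : ℤ} {V R q a m : ℕ} {r : ℝ}
    (h : Rep E T v c0 c1 c2 c3 V R q a m r) (hT : T < 2 ^ 1662) (hp : 0 < pcc T) :
    ((pcc T : ℕ) : ℤ) = c0 ∧ pcc T < 2 ^ 90 := by
  have h1 := pcen_spec h hT
  have h2 : pcc T = pcen T - 0x800000000000000000000000 := rfl
  have h3 : (0x800000000000000000000000 : ℕ) = 2 ^ 95 := by norm_num
  rw [h3] at h2
  have h4 : ((pcc T : ℕ) : ℤ) = c0 := by omega
  refine ⟨h4, ?_⟩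
  have g0 := h.dec
  have g7 := h.ha
  have hm : m < 2 ^ 30 := by omega
  have ha : a < 2 ^ 90 := by omega
  have r0 : 0 ≤ r := (abs_nonneg _).trans h.err
  have ha' : (a : ℝ) < 2 ^ 90 := by exact_mod_cast ha
  have h5 : (c0 : ℝ) < 2 ^ 90 := by
    linarith [h.ea, le_abs_self (c0 : ℝ), abs_nonneg (c1 : ℝ), abs_nonneg (c2 : ℝ), abs_nonneg (c3 : ℝ)]
  have h6 : c0 < 2 ^ 90 := by exact_mod_cast h5
  omega

theorem enc_inv {E : Pt} {X : ℕ} {v : ℝ} (hX : Enc E X v) : Enc E (pinv X) (v⁻¹) := by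
  unfold pinv
  rcases hb : Nat.ble X 0x3fffffffffffffffffffffffffffffffffffffffffffffffffffffffffffffffffffffffffffffffffffffffffffffffffffffffffffffffffffffffffffffffffffffffffffffffffffffffffffffffffffffffffffffffffffffffffffffffffffffffffffffffffffffffffffffffffffffffffffffffffffffffffffffffffffffffffffffffffffffffffffffffffffffffffffffffffffffffffffffffffffffffffffffffffffffffffffffffffffffffffffffffffffffffffffffffffffffffffffffffffffffffffffffff with _ | _
  · exact enc_bad E _ (by norm_num)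
  rcases hb2 : Nat.ble (Nat.mul 8 (prad X)) (Nat.mul 7 (pcc X)) with _ | _
  · exact enc_bad E _ (by norm_num)
  have hl := lim1 hb
  have hr : 8 * prad X ≤ 7 * pcc X := Nat.le_of_ble_eq_true hb2
  obtain ⟨c0, c1, c2, c3, V, R, q, a, m, r, h⟩ := hX hl
  obtain ⟨s1, s2, s3⟩ := prad_spec h hl
  have hcp : 0 < pcc X := by omega
  obtain ⟨hc, hc90⟩ := pcc_spec h hl hcp
  have hn := near_rad h hl
  change Enc E (pinv2 X (pcc X) (prad X)) v⁻¹
  generalize pcc X = c at hr hcp hc hc90 ⊢
  generalize prad X = rho at s1 s2 s3 hr hn ⊢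
  have hcr : (c0 : ℝ) = c := by exact_mod_cast hc.symm
  rw [hcr] at hn
  have h60 : (0x1000000000000000 : ℕ) = 2 ^ 60 := by norm_num
  have h90 : (0x40000000000000000000000 : ℕ) = 2 ^ 90 := by norm_num
  set t : ℕ := 2 ^ 60 / c with ht
  set g : ℕ := 2 ^ 90 / (c * c) with hg
  set mm : ℕ := (t + 1) * (rho * rho) / (c * (c - rho)) with hmm
  set hh : ℕ := mm / 2 with hhh
  set k : ℕ := g * c / 2 ^ 30 with hk
  set j : ℕ := rho / 2 ^ 30 with hj
  have et : Nat.div 0x1000000000000000 c = t := by rw [h60]; rfl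
  have eg : pinvg c = g := by
    have : pinvg c = 0x40000000000000000000000 / (c * c) := rfl
    rw [this, h90]
  have eh : pinvh c rho = hh := by
    have : pinvh c rho = Nat.shiftRight ((Nat.div 0x1000000000000000 c + 1) * (rho * rho) / (c * (c - rho))) 1 := rfl
    rw [this, et, shr_eq, pow_one]
  have ek : Nat.shiftRight (Nat.mul (pinvg c) c) 30 = k := by
    rw [eg, shr_eq]; rfl
  have ej : Nat.shiftRight rho 30 = j := shr_eq _ _
  have hline := inv_line hcp hr ht hg hmm hhh hk hj hn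
  have hSv : 0 < (S : ℝ) * v := by
    have h1 := (abs_le.mp hn).1
    have h2 : (rho : ℝ) < c := by
      have : rho < c := by omega
      exact_mod_cast this
    linarith
  have hSr : (0 : ℝ) < S := by exact_mod_cast hS
  have hv0 : v ≠ 0 := by
    intro h0
    rw [h0] at hSv
    simp at hSv
  have hw : (S : ℝ) * v⁻¹ = 2 ^ 60 / ((S : ℝ) * v) := by
    have : (2 : ℝ) ^ 60 = 2 ^ 30 * 2 ^ 30 := by norm_num
    rw [S_real, this]
    field_simp
  have e0 : pinv2 X c rho = paffn X g (t + hh + k) (hh + (j + 5)) (t + hh) rho := by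
    unfold pinv2
    rw [et, eh, ek, eg, ej]
    rfl
  rw [e0]
  have gc : g * (c * c) ≤ 2 ^ 90 := Nat.div_mul_le_self _ _
  have gc1 : g * c ≤ 2 ^ 90 := le_trans (by rw [← Nat.mul_assoc]; exact Nat.le_mul_of_pos_right _ hcp) gc
  have t60 : t ≤ 2 ^ 60 := Nat.div_le_self _ _
  have m7 : mm ≤ 7 * (t + 1) := by
    apply Nat.div_le_of_le_mul
    have h1 : rho ≤ 7 * (c - rho) := by omega
    have h2 : rho ≤ c := by omega
    calc (t + 1) * (rho * rho) ≤ (t + 1) * (c * (7 * (c - rho))) :=
          Nat.mul_le_mul_left _ (Nat.mul_le_mul h2 h1)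
      _ = c * (c - rho) * (7 * (t + 1)) := by ring
  have j62 : j < 2 ^ 62 := by omega
  have k60 : k ≤ 2 ^ 60 := by omega
  have h62 : hh ≤ 2 ^ 62 + 4 := by omega
  refine enc_affn h hl s1 ?_ ?_ (by omega) (by omega) (by omega) ?_ ?_
  · rw [← hc, abs_of_nonneg (by positivity)]
    have : (g * c : ℕ) < 2 ^ 95 := lt_of_le_of_lt gc1 (by norm_num)
    have : ((g * c : ℕ) : ℤ) < 2 ^ 95 := by exact_mod_cast this
    push_cast at this
    linarith
  · have h1 : 8 * (rho * g) ≤ 7 * (g * c) := by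
      calc 8 * (rho * g) = (8 * rho) * g := by ring
        _ ≤ (7 * c) * g := Nat.mul_le_mul_right _ hr
        _ = 7 * (g * c) := by ring
    omega
  · rw [hw]
    push_cast
    have e : ((hh : ℝ) + (j + 5)) = hh + j + 5 := by ring
    rw [e]
    exact hline
  · rw [hcr]
    have hk1 := fshr (g * c) 30
    rw [← hk] at hk1
    push_cast at hk1 ⊢
    have e : (g : ℝ) / 2 ^ 30 * c = (g : ℝ) * c / 2 ^ 30 := by ring
    rw [e, abs_le]
    have : (0 : ℝ) ≤ t := Nat.cast_nonneg _
    have : (0 : ℝ) ≤ hh := Nat.cast_nonneg _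
    constructor <;> linarith [hk1.1, hk1.2]

end Pool.Agent.Strip051.PB
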