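import Pool.Agent.Strip051.PB.PkR

/-! # Packed arithmetic: positive part, absolute value, maximum, minimum -/

set_option exponentiation.threshold 3000
set_option maxRecDepth 20000

namespace Pool.Agent.Strip051.PB

/-- zero -/
def pzero : ℕ := 0x1000000000000000000000000000000000000000000000000000000000000000000000000000000000000000000000000000000000000000000000000000000000000000000000000000000000000000000000000000000000000000000000000000000000000000000000000000000000000000000000000000000000000000000000000000000000000000000000000000000000000000000000000000000000000000000000000000000000000000000000000000000000000000000000000000000000000000000000000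

theorem enc_zero (E : Pt) : Enc E pzero 0 := by
  intro _
  refine ⟨0, 0, 0, 0, 0, 0, 0, 0, 1, 0, ⟨?_, by norm_num, ?_, by norm_num, by norm_num,
    by norm_num, ?_, ?_, ?_, ?_⟩⟩
  · unfold pzero; norm_num
  · unfold pk; norm_num
  · norm_num
  · norm_num
  · norm_num
  · norm_num

/-- The affine approximation of the positive part. -/
theorem pos_line {u l rho g h j : ℕ} {c : ℝ} (hu : (u : ℝ) = c + rho) (hl : (l : ℝ) = rho - c)
    (hu0 : 0 < u) (hl0 : 0 < l) (hr : 0 < rho) (hg : g = u * 2 ^ 29 / rho)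
    (hh : h = u * l / (rho * 2 ^ 2)) (hj : j = rho / 2 ^ 29) {y : ℝ} (h1 : -(l : ℝ) ≤ y)
    (h2 : y ≤ u) :
    |max y 0 - ((g : ℝ) / 2 ^ 30 * y + ((h : ℝ) - (0 : ℕ)))| ≤ (h : ℝ) + j + 3 ∧
    |(g : ℝ) / 2 ^ 30 * c + ((h : ℝ) - (0 : ℕ))| ≤ (u : ℝ) / 2 + j + 2 := by
  have hr' : (0 : ℝ) < rho := by exact_mod_cast hr
  have hu' : (0 : ℝ) < u := by exact_mod_cast hu0
  have hl' : (0 : ℝ) < l := by exact_mod_cast hl0
  have hul : (u : ℝ) + l = 2 * rho := by linarith
  have hg1 := fdiv (a := u * 2 ^ 29) hr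
  rw [← hg, Nat.cast_mul, Nat.cast_pow, Nat.cast_ofNat] at hg1
  have hh1 := fdiv (a := u * l) (b := rho * 2 ^ 2) (by positivity)
  rw [← hh, Nat.cast_mul, Nat.cast_mul, Nat.cast_pow, Nat.cast_ofNat] at hh1
  have hj1 := fshr rho 29
  rw [← hj] at hj1
  have hcore := Box.pos_core hu' hl' h1 h2
  rw [hul] at hcore
  have e1 : (u : ℝ) * l / (2 * rho) / 2 = u * l / (rho * 2 ^ 2) := by
    rw [div_div]
    congr 1
    ring
  rw [e1] at hcore
  have e2 : (u : ℝ) * 2 ^ 29 / rho = 2 ^ 30 * (u / (2 * rho)) := by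
    have : (2 : ℝ) ^ 30 = 2 ^ 29 * 2 := by norm_num
    rw [this]
    field_simp
  rw [e2] at hg1
  have e3 : (u : ℝ) * y / (2 * rho) = u / (2 * rho) * y := by ring
  rw [e3] at hcore
  set L : ℝ := u / (2 * rho) with hL
  have e4 : ∀ z : ℝ, |z| ≤ 2 * (rho : ℝ) → |(L - (g : ℝ) / 2 ^ 30) * z| ≤ (j : ℝ) + 1 := by
    intro z hz
    have h3 : |L - (g : ℝ) / 2 ^ 30| ≤ 1 / 2 ^ 30 := by
      have : L - (g : ℝ) / 2 ^ 30 = (2 ^ 30 * L - g) / 2 ^ 30 := by ring
      rw [this, abs_div, abs_of_pos (by positivity : (0 : ℝ) < 2 ^ 30)]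
      gcongr
      rw [abs_le]
      constructor <;> linarith [hg1.1, hg1.2]
    rw [abs_mul]
    calc |L - (g : ℝ) / 2 ^ 30| * |z| ≤ 1 / 2 ^ 30 * (2 * rho) :=
          mul_le_mul h3 hz (abs_nonneg _) (by positivity)
      _ = (rho : ℝ) / 2 ^ 29 := by ring
      _ ≤ j + 1 := hj1.2.le
  have k1 := e4 y (by rw [abs_le]; constructor <;> linarith)
  have k2 := e4 c (by rw [abs_le]; constructor <;> linarith)
  set G : ℝ := u * l / (rho * 2 ^ 2) with hG
  have e6 : L * c + G = u * u / (4 * rho) := by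
    rw [hL, hG]
    have : (c : ℝ) = (u - l) / 2 := by linarith
    rw [this]
    have hr2 : (rho : ℝ) = (u + l) / 2 := by linarith
    rw [hr2]
    field_simp
    ring
  have e7 : (u : ℝ) * u / (4 * rho) ≤ u / 2 := by
    rw [div_le_div_iff₀ (by positivity) (by norm_num)]
    nlinarith
  have e8 : 0 ≤ (u : ℝ) * u / (4 * rho) := by positivity
  have z0 : ((0 : ℕ) : ℝ) = 0 := Nat.cast_zero
  rw [z0]
  constructor
  · rw [abs_le] at hcore k1 ⊢
    constructor <;> linarith [hcore.1, hcore.2, k1.1, k1.2, hh1.1, hh1.2]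
  · rw [abs_le] at k2 ⊢
    constructor <;> linarith [k2.1, k2.2, hh1.1, hh1.2]

/-- positive part between the chord and the tangents; `u, l` upper bound and minus lower bound -/
def ppc (X u l rho : ℕ) : ℕ :=
  paffp X (Nat.div (Nat.shiftLeft u 29) rho) (Nat.div (Nat.mul u l) (Nat.shiftLeft rho 2)) 0
    (Nat.add (Nat.div (Nat.mul u l) (Nat.shiftLeft rho 2)) (Nat.add (Nat.shiftRight rho 29) 3))
    (Nat.add (Nat.shiftRight u 1) (Nat.add (Nat.shiftRight rho 29) 3)) rho

theorem enc_ppc {E : Pt} {X : ℕ} {v : ℝ} (hX : Enc E X v) (hl : X < 2 ^ 1662)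
    (h1 : 0 < pup X) (h2 : 0 < plo X) (h3 : prad X ≤ 2 ^ 60) :
    Enc E (ppc X (pup X) (plo X) (prad X)) (max v 0) := by
  obtain ⟨c0, c1, c2, c3, V, R, q, a, m, r, h⟩ := hX hl
  obtain ⟨s1, s2, s3⟩ := prad_spec h hl
  obtain ⟨_, u2, u3⟩ := pup_spec h hl
  obtain ⟨_, l2, l3⟩ := plo_spec h hl
  have hu := (u3 h1).symm
  have hlo := (l3 h2).symm
  generalize pup X = u at h1 u2 hu ⊢
  generalize plo X = l at h2 l2 hlo ⊢
  generalize prad X = rho at s1 s2 s3 h3 hu hlo ⊢
  clear u3 l3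
  set g : ℕ := u * 2 ^ 29 / rho with hg
  set hh : ℕ := u * l / (rho * 2 ^ 2) with hhh
  set j : ℕ := rho / 2 ^ 29 with hj
  have e0 : ppc X u l rho = paffp X g hh 0 (hh + (j + 3)) (u / 2 + (j + 3)) rho := by
    have e1 : ppc X u l rho = paffp X (Nat.shiftLeft u 29 / rho) (u * l / Nat.shiftLeft rho 2) 0
      (u * l / Nat.shiftLeft rho 2 + (Nat.shiftRight rho 29 + 3))
      (Nat.shiftRight u 1 + (Nat.shiftRight rho 29 + 3)) rho := rfl
    rw [e1, shl_eq, shl_eq, shr_eq, shr_eq, pow_one]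
  rw [e0]
  obtain ⟨p1, p2⟩ := pos_line hu hlo h1 h2 (by omega) hg hhh hj l2 u2
  have hul : u + l = 2 * rho := by
    have : (u : ℝ) + l = 2 * rho := by linarith
    exact_mod_cast this
  have g30 : g ≤ 2 ^ 30 := by
    apply Nat.div_le_of_le_mul
    have : u ≤ 2 * rho := by omega
    calc u * 2 ^ 29 ≤ (2 * rho) * 2 ^ 29 := Nat.mul_le_mul_right _ this
      _ = rho * 2 ^ 30 := by ring
  have hh60 : hh ≤ rho := by
    apply Nat.div_le_of_le_mul
    have : u ≤ 2 * rho := by omega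
    have : l ≤ 2 * rho := by omega
    calc u * l ≤ (2 * rho) * (2 * rho) := Nat.mul_le_mul (by omega) (by omega)
      _ = rho * 2 ^ 2 * rho := by ring
  have hSr : (0 : ℝ) ≤ S := Nat.cast_nonneg _
  have hc0 : |c0| ≤ (rho : ℤ) := by
    have : |(c0 : ℝ)| ≤ rho := by
      have hu0 : (0 : ℝ) ≤ u := Nat.cast_nonneg _
      have hl0 : (0 : ℝ) ≤ l := Nat.cast_nonneg _
      rw [abs_le]
      constructor <;> linarith
    exact_mod_cast this
  have hu2 : (u : ℝ) / 2 ≤ ((u / 2 : ℕ) : ℝ) + 1 := by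
    have := (fshr u 1).2
    rw [pow_one, pow_one] at this
    exact this.le
  refine enc_affp h hl s1 ?_ ?_ (by omega) (by omega) (by omega) (by omega) ?_ ?_
  · rw [abs_mul, abs_of_nonneg (Int.natCast_nonneg g)]
    have : |c0| * (g : ℤ) ≤ 2 ^ 60 * 2 ^ 30 := by
      have g30' : (g : ℤ) ≤ 2 ^ 30 := by exact_mod_cast g30
      have : |c0| ≤ 2 ^ 60 := le_trans hc0 (by exact_mod_cast h3)
      exact mul_le_mul this g30' (Int.natCast_nonneg g) (by positivity)
    exact lt_of_le_of_lt this (by norm_num)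
  · rcases Nat.lt_or_ge g (2 ^ 30) with h4 | h4
    · calc rho * g ≤ 2 ^ 60 * g := Nat.mul_le_mul_right _ h3
        _ < 2 ^ 60 * 2 ^ 30 := by omega
        _ = 2 ^ 90 := by norm_num
    · exfalso
      have h5 : g = 2 ^ 30 := le_antisymm g30 h4
      have h6 := Nat.div_mul_le_self (u * 2 ^ 29) rho
      rw [← hg, h5] at h6
      omega
  · rw [mul_max_of_nonneg _ _ hSr, mul_zero]
    push_cast
    push_cast at p1
    have e : ((hh : ℝ) + (j + 3)) = hh + j + 3 := by ring
    rw [e]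
    exact p1
  · push_cast
    push_cast at p2 hu2
    linarith

end Pool.Agent.Strip051.PB
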