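import Pool.Agent.Strip051.LC.Line.Modulus

/-! # The slack of a triangle in normalised coordinates

All heights are divided by `h0`: `y = T / h0`, `x = s / h0`. -/

namespace Pool.Agent.Strip051.PB

open Pool.Agent.Strip051.LC.Line (phi)

/-- The eight relative positions of the three nodes on the circle of length `1`. -/
inductive Con where
  | pp
  | nn
  | pnp
  | pnn
  | npp
  | npn
  | up
  | dn
  deriving DecidableEq

/-- The integer next to the quarter. -/
def jq : ℕ → ℕ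
  | 0 => 0
  | 1 => 1
  | 2 => 1
  | _ => 2

/-- The relative position which belongs to the quarters of the three heights. -/
def con : ℕ → ℕ → ℕ → Option Con
  | 0, 0, 1 => some .up
  | 0, 1, 1 => some .pnn
  | 0, 1, 2 => some .pnp
  | 0, 2, 2 => some .pp
  | 0, 2, 3 => some .up
  | 0, 3, 3 => some .pnn
  | 1, 0, 1 => some .npn
  | 1, 0, 2 => some .npp
  | 1, 1, 2 => some .dn
  | 1, 1, 3 => some .nn
  | 1, 2, 3 => some .npn
  | 1, 3, 3 => some .dn
  | 2, 0, 2 => some .pp
  | 2, 0, 3 => some .up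
  | 2, 1, 3 => some .pnn
  | 3, 0, 3 => some .npn
  | 3, 1, 3 => some .dn
  | _, _, _ => none

/-! ### Base functions -/

noncomputable def c1n (y : ℝ) : ℝ := √(1 - 3 / 4 * y ^ 2)
noncomputable def c3n (y : ℝ) : ℝ := √(3 - 3 / 4 * y ^ 2)
noncomputable def swn (y : ℝ) : ℝ := √(1 - 3 / 4 * (y - 1) ^ 2)
noncomputable def esn (x : ℝ) : ℝ := x / 2 + c1n x - 1
noncomputable def ken (x : ℝ) : ℝ := 2 * esn x / (x * (1 - x))
noncomputable def mun (N0 : ℕ) (x : ℝ) : ℝ := 1 / (N0 + 2 * c1n x)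

/-- The steep curve, `b` says whether the height is at least `1`. -/
noncomputable def Wn (b : Bool) (y : ℝ) : ℝ := swn y + cond b (-(1 / 2)) (1 / 2)

/-- The curve at the position `ρ`. -/
noncomputable def gamn (ρ : ℝ) (b : Bool) (y : ℝ) : ℝ :=
  if ρ ≤ 1 then c1n y + ρ * (Wn b y - c1n y) else Wn b y + (ρ - 1) * (c3n y - Wn b y)

/-! ### The slack -/

/-- The slack for the level `g`. -/
noncomputable def stn (ex k x l1 l2 l3 W1 W2 W3 g : ℝ) : ℝ :=
  ex - k * (l1 * phi (W1 - g) (W2 - g) + l2 * phi (W2 - g) (W3 - g) +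
    l3 * phi (W3 - g) (W1 - g) + g * x)

/-- The potential at the first node when the three short arcs cover the circle. -/
noncomputable def pon (A1 A2 A3 l1 l2 l3 : ℝ) : ℝ :=
  (A1 * (l2 + l3) - A3 * (l1 + l2) + A2 * (l3 - l1)) / 2

/-- clamped quotient -/
noncomputable def lam (n d : ℝ) : ℝ := min (max (n * d⁻¹) 0) 1

noncomputable def pn1 (l1 l2 A1 A2 A3 : ℝ) : ℝ :=
  (A1 * (1 - l1) + A2 * (1 - 2 * l1 - l2) - A3 * (1 - l1 - l2)) / 2

noncomputable def pn2 (l1 l2 A1 A2 A3 : ℝ) : ℝ :=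
  (-(A1 * (1 - l1)) + A2 * (1 - l2) + A3 * (2 * lam l1 (l1 + l2) - 1) * (1 - l1 - l2)) / 2

noncomputable def pn3 (l1 l2 A1 A2 A3 : ℝ) : ℝ :=
  (-(A1 * (1 - l1 - 2 * l2)) - A2 * (1 - l2) + A3 * (1 - l1 - l2)) / 2

/-- The slack when the longest arc is not a short one. -/
noncomputable def slN (ex k x l1 l2 A1 A2 A3 g : ℝ) : ℝ :=
  stn ex k x l1 l2 (1 - l1 - l2) (pn1 l1 l2 A1 A2 A3) (pn2 l1 l2 A1 A2 A3) (pn3 l1 l2 A1 A2 A3) g

/-- The slack when the three short arcs cover the circle. -/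
noncomputable def slW (ex k x l1 l2 l3 A1 A2 A3 g : ℝ) : ℝ :=
  stn ex k x l1 l2 l3 (pon A1 A2 A3 l1 l2 l3) (pon A2 A3 A1 l2 l3 l1) (pon A3 A1 A2 l3 l1 l2) g

/-- The slack in each relative position: `u`, `v`, `w` are the signed distances of the heights from
the integers next to them, `R1`, `R2`, `R3` the values on the sides bottom-middle, middle-top,
bottom-top. -/
noncomputable def slc (c : Con) (ex k x u v w R1 R2 R3 g : ℝ) : ℝ :=
  match c with
  | .pp => slN ex k x u v (-R1) (-R2) (-R3) g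
  | .nn => slN ex k x (-v) (-u) (-R2) (-R1) (-R3) g
  | .pnp => slN ex k x w (-v) R3 (-R2) R1 g
  | .pnn => slN ex k x (-w) u R3 (-R1) R2 g
  | .npp => slN ex k x (-u) w (-R1) R3 R2 g
  | .npn => slN ex k x v (-w) (-R2) R3 R1 g
  | .up => slW ex k x u v (-w) (-R1) (-R2) R3 g
  | .dn => slW ex k x w (-v) (-u) R3 (-R2) (-R1) g

/-- The area excess of the triangle: `X`, `y` and `Y`, `u` are two sides. -/
noncomputable def exn' (X Y y u : ℝ) : ℝ := (X * u - Y * y) / 2 - 1 / 2

/-- The square of the length of a side. -/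
noncomputable def qqn (X y : ℝ) : ℝ := X ^ 2 + 3 / 4 * y ^ 2

/-- The excess with the level term at the far vertex. -/
noncomputable def levF (ex x1 x2 x3 : ℝ) : ℝ := ex - |x1 + x2 - x3| / 2

/-- One of the two level terms at the near vertex, `lv` is the level divided by `h0`. -/
noncomputable def levn (N0 : ℕ) (lv x y y' x1 x2 x3 : ℝ) : ℝ :=
  (N0 / 2 + x / 2 + lv) * (x1 + x2 - x3) - (y * x1 + (2 * y + y') * x2 - (y + y') * x3) / 2

/-- The mirror image of the level term at the near vertex. -/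
noncomputable def levm (N0 : ℕ) (lv x y y' x1 x2 x3 : ℝ) : ℝ :=
  -((N0 / 2 + x / 2 + lv) * (x1 + x2 - x3)) +
    (y' * x2 + (2 * y' + y) * x1 - (y + y') * x3) / 2

/-- The excess with the level term at the near vertex. -/
noncomputable def levN (N0 : ℕ) (lv x y y' ex x1 x2 x3 : ℝ) : ℝ :=
  ex + mun N0 x * min (levn N0 lv x y y' x1 x2 x3) (levm N0 lv x y y' x1 x2 x3)

end Pool.Agent.Strip051.PB
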