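import Pool.Agent.Strip051.PB.Slk

/-! # Rows of the certificate: one test function for all subfamilies

A subfamily is a family (`true` = A: the nodes lie on the sides bottom-middle and middle-top,
`false` = B: bottom-middle and bottom-top), two signs, two nodes, the third side in a quarter and
the relative position. The test of a leaf is chosen by its hint. -/

namespace Pool.Agent.Strip051.PB

open Pool.Agent.Strip051.LC.Line (phi)

/-! ### Real side -/

/-- The values of a triangle: `x` is the rest, `y` and `z` the heights of the sides bottom-middle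
and middle-top, `X` and `Y` abscissa and height of the third side, `R` kernel values and `l` level
values on the sides bottom-middle, middle-top, bottom-top. -/
structure Val where
  (x y z X Y ex R1 R2 R3 l1 l2 l3 : ℝ)

/-- sign -/
noncomputable def sgr (b : Bool) (x : ℝ) : ℝ := cond b x (-x)

/-- The values in a subfamily at the coordinates `p`, `q` of the nodes. -/
noncomputable def valR (fam s1 s2 : Bool) (n1 n2 : Node) (pc : Piece) (p q x : ℝ) : Val :=
  match fam with
  | true => ⟨x, n1.Y.v p, n2.Y.v q, sgr s1 (n1.X.v p) + sgr s2 (n2.X.v q), n1.Y.v p + n2.Y.v q,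
      (sgr s1 (n1.X.v p) * n2.Y.v q - sgr s2 (n2.X.v q) * n1.Y.v p) / 2 - 1 / 2,
      sgr s1 (n1.K.v p x), sgr s2 (n2.K.v q x),
      pc.K.v (sgr s1 (n1.X.v p) + sgr s2 (n2.X.v q)) (n1.Y.v p + n2.Y.v q) x,
      sgr s1 (n1.L.v p x), sgr s2 (n2.L.v q x),
      pc.L.v (sgr s1 (n1.X.v p) + sgr s2 (n2.X.v q)) (n1.Y.v p + n2.Y.v q) x⟩
  | false => ⟨x, n1.Y.v p, n2.Y.v q - n1.Y.v p, sgr s2 (n2.X.v q) - sgr s1 (n1.X.v p),
      n2.Y.v q - n1.Y.v p,
      (sgr s1 (n1.X.v p) * n2.Y.v q - sgr s2 (n2.X.v q) * n1.Y.v p) / 2 - 1 / 2,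
      sgr s1 (n1.K.v p x),
      pc.K.v (sgr s2 (n2.X.v q) - sgr s1 (n1.X.v p)) (n2.Y.v q - n1.Y.v p) x,
      sgr s2 (n2.K.v q x), sgr s1 (n1.L.v p x),
      pc.L.v (sgr s2 (n2.X.v q) - sgr s1 (n1.X.v p)) (n2.Y.v q - n1.Y.v p) x,
      sgr s2 (n2.L.v q x)⟩

/-- The triangle does not belong to the subfamily: the third height is not in the quarter `m`, the
third side is too short or too long, or the area is negative. -/
def Val.out (V : Val) (m : ℕ) : Prop :=
  V.Y < (m : ℝ) / 2 ∨ ((m : ℝ) + 1) / 2 < V.Y ∨ qqn V.X V.Y < 1 ∨ 3 < qqn V.X V.Y ∨ V.ex < -(1 / 2)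

/-- The slack at the far vertex for the level `γ`, quarters `a`, `b`, `c` of the heights. -/
noncomputable def Val.far (V : Val) (cn : Con) (a b c : ℕ) (γ : ℝ) : ℝ :=
  slc cn (levF V.ex V.l1 V.l2 V.l3) (ken V.x) V.x (V.y - jq a) (V.z - jq b) (V.y + V.z - jq c)
    V.R1 V.R2 V.R3 γ

/-- The slack at the near vertex for the level `γ`. -/
noncomputable def Val.near (V : Val) (N0 : ℕ) (cn : Con) (a b c : ℕ) (γ : ℝ) : ℝ :=
  slc cn (levN N0 0 V.x V.y V.z V.ex V.l1 V.l2 V.l3) (ken V.x) V.x (V.y - jq a) (V.z - jq b)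
    (V.y + V.z - jq c) V.R1 V.R2 V.R3 γ

/-- A further alternative (exclusion cubes, strips); `t` is the test with the number of the
alternative, the packed `x`, `y`, `z`, `X`, `Y`, `q = X ^ 2 + 3 / 4 Y ^ 2` and the doubled area. -/
structure Cut where
  t : ℕ → ℕ → ℕ → ℕ → ℕ → ℕ → Bool
  P : ℝ → ℝ → ℝ → ℝ → ℝ → Prop
  snd : ∀ {E : Pt} {i X Y Z U V : ℕ} {x y z u v : ℝ}, Enc E X x → Enc E Y y → Enc E Z z →
    Enc E U u → Enc E V v → t i X Y Z U V = true → P x y z u v

/-- A further alternative on the coordinates (unit strips); `t` is the test with a payload, the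
packed coordinates of the nodes and the packed `x`. -/
structure Ext where
  t : ℕ → ℕ → ℕ → ℕ → Bool
  P : ℝ → ℝ → ℝ → Prop
  snd : ∀ {E : Pt} {i A B C : ℕ} {p q x : ℝ}, Enc E A p → Enc E B q → Enc E C x →
    t i A B C = true → P p q x

/-- no further alternative -/
noncomputable def Ext.none : Ext where
  t _ _ _ _ := false
  P _ _ _ := False
  snd _ _ _ h := absurd h (by decide)

/-! ### Packed side -/

/-- sign -/
noncomputable def sg (b : Bool) (X : ℕ) : ℕ := Bool.rec (motive := fun _ => ℕ) (pneg X) X b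

/-- selection -/
noncomputable def sl (b : Bool) (X Y : ℕ) : ℕ := Bool.rec (motive := fun _ => ℕ) Y X b

/-- the third side -/
noncomputable def th (fam : Bool) (X Y : ℕ) : ℕ :=
  Bool.rec (motive := fun _ => ℕ) (psub Y X) (padd X Y) fam

/-- half of a natural number -/
noncomputable def phn (n : ℕ) : ℕ := pdc (Nat.mul n 536870912) 0

/-- twice the level from the hint -/
noncomputable def pga (g : ℕ) : ℕ := pdc (Nat.mul g 4096) 8589934592

/-- three quarters of the square -/
noncomputable def q34 (X : ℕ) : ℕ := (fun s => psub s (phf (phf s))) (psq X)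

/-- `X ^ 2 + 3 / 4 Y ^ 2` -/
noncomputable def qqT (X Y : ℕ) : ℕ := padd (psq X) (q34 Y)

/-- `c1n` -/
noncomputable def c1T (X : ℕ) : ℕ := psqrt (psub pone (q34 X))

/-- half of `ken` -/
noncomputable def khT (X : ℕ) : ℕ :=
  pnorm (pmul (pnorm (padd (padd (phf X) (c1T X)) (pneg pone)))
    (pinv (pmul X (pnorm (psub pone X)))))

/-- `mun` -/
noncomputable def muT (N0 X : ℕ) : ℕ := (fun c => pinv (padd (pnc N0) (padd c c))) (c1T X)

/-- choice of the test by the hint -/
noncomputable def disp (h : ℕ) (t0 : ℕ → Bool) (t1 t2 t3 t4 t5 : Bool) (t6 t7 : ℕ → Bool) : Bool :=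
  Bool.rec (motive := fun _ => Bool) (Bool.rec (motive := fun _ => Bool)
    (Bool.rec (motive := fun _ => Bool) (Bool.rec (motive := fun _ => Bool)
    (Bool.rec (motive := fun _ => Bool) (Bool.rec (motive := fun _ => Bool)
    (Bool.rec (motive := fun _ => Bool)
    (t7 (Nat.shiftRight h 3)) (t6 (Nat.shiftRight h 3)) (Nat.beq (Nat.land h 7) 6))
    t5 (Nat.beq (Nat.land h 7) 5)) t4 (Nat.beq (Nat.land h 7) 4))
    t3 (Nat.beq (Nat.land h 7) 3)) t2 (Nat.beq (Nat.land h 7) 2)) t1 (Nat.beq (Nat.land h 7) 1))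
    (t0 (Nat.shiftRight h 3)) (Nat.beq (Nat.land h 7) 0)

/-- choice by a number -/
noncomputable def pk5 (i a b c d e : ℕ) : ℕ :=
  Nat.rec (motive := fun _ => ℕ) a (fun i _ => Nat.rec (motive := fun _ => ℕ) b
    (fun i _ => Nat.rec (motive := fun _ => ℕ) c (fun i _ => Nat.rec (motive := fun _ => ℕ) d
      (fun _ _ => e) i) i) i) i

/-- a leaf with a multiplier (payload `2 u`) or the further alternative (payload `2 i + 1`); the
arguments are the test for a level and an excess, the excess, the five constraints and the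
alternative -/
noncomputable def lagr (k : ℕ → ℕ → Bool) (ex e1 e2 e3 e4 e5 : ℕ) (w : ℕ → Bool) (r : ℕ) : Bool :=
  Bool.rec (motive := fun _ => Bool) (w (Nat.shiftRight r 1))
    (k (Nat.land (Nat.shiftRight r 1) 4194303)
      (padd ex (pmul (pdc (Nat.mul (Nat.shiftRight r 26) 1048576) 0)
        (pk5 (Nat.land (Nat.shiftRight r 23) 7) e1 e2 e3 e4 e5))))
    (Nat.beq (Nat.land r 1) 0)

/-- the test of a leaf from the packed coordinates `p`, `q` and heights `A`, `B` of the nodes and
the height `Y` of the third side; `T` is the height which is not covered by the cell and `m0`, `m1`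
are the ends of its range; `k` gets `p`, `q`, the level, `x`, `y`, `z`, the total height, `X`, `Y`,
the excess -/
noncomputable def leaf (fam s1 s2 : Bool) (n1 n2 : Node) (cut : Cut) (xt : Ext)
    (k : ℕ → ℕ → ℕ → ℕ → ℕ → ℕ → ℕ → ℕ → ℕ → ℕ → Bool)
    (h x m0 m1 p q A B Y T : ℕ) : Bool :=
  (fun U V => frc (pnorm (th fam U V)) fun X =>
    disp h (fun g => k p q g x A (sl fam B Y) (sl fam Y B) X Y
        (psub (phf (psub (pmul U B) (pmul V A))) (phn 1)))
      (ppos (psub (pdc m0 0) T)) (ppos (psub T (pdc m1 0))) (ppos (psub pone (qqT X Y)))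
      (ppos (psub (qqT X Y) (pnc 3))) (ppos (psub (pmul V A) (pmul U B)))
      (fun i => cut.t i x A (sl fam B Y) X Y)
      (lagr (fun g e => k p q g x A (sl fam B Y) (sl fam Y B) X Y e)
        (psub (phf (psub (pmul U B) (pmul V A))) (phn 1)) (psub (pdc m0 0) T)
        (psub T (pdc m1 0)) (psub pone (qqT X Y)) (psub (qqT X Y) (pnc 3))
        (psub (pmul V A) (pmul U B)) (fun i => xt.t i p q x)))
    (sg s1 (n1.X.t p)) (sg s2 (n2.X.t q))

/-- the height of the second node from the height of the first node and the third height -/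
noncomputable def bk1 (fam : Bool) (A Y : ℕ) : ℕ :=
  Bool.rec (motive := fun _ => ℕ) (padd Y A) (psub Y A) fam

/-- the height of the first node from the height of the second node and the third height -/
noncomputable def bk2 (fam : Bool) (B Y : ℕ) : ℕ :=
  Bool.rec (motive := fun _ => ℕ) (psub B Y) (psub Y B) fam

/-- the ranges of the height of the first node, the second node and the third side, unit `1 / S` -/
structure Qs where
  (a a' b b' m m' : ℕ)

/-- the test of a leaf in one of three systems of coordinates: both nodes (`0`), first node and third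
height (`1`), third height and second node (`2`) -/
noncomputable def crds (co : ℕ) (fam : Bool) (n1 n2 : Node) (Q : Qs)
    (f : ℕ → ℕ → ℕ → ℕ → ℕ → ℕ → ℕ → ℕ → Bool) (u v : ℕ) : Bool :=
  Nat.rec (motive := fun _ => Bool)
    ((fun A B => frc (pnorm (th fam A B)) fun Y => f Q.m Q.m' u v A B Y Y) (n1.Y.t u) (n2.Y.t v))
    (fun i _ => Nat.rec (motive := fun _ => Bool)
      ((fun A => frc (pnorm (bk1 fam A v)) fun B => f Q.b Q.b' u B A B v B) (n1.Y.t u))
      (fun _ _ => (fun B => frc (pnorm (bk2 fam B u)) fun A => f Q.a Q.a' A v A B u A) (n2.Y.t v)) i) co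

/-- the signed distance of a height from the integer `n` -/
noncomputable def dj (n y : ℕ) : ℕ := pnorm (padd y (pneg (pnc n)))

/-- the subtracted part of the slack -/
noncomputable def phiR (fam s1 s2 : Bool) (cn : Con) (a b c : ℕ) (n1 n2 : Node) (pc : Piece)
    (p q g x y z t X Y : ℕ) : ℕ :=
  (fun K1 K2 K3 u v w => rowPhi cn (khT x) x u (pneg u) v (pneg v) w (pneg w)
    (sg s1 K1) (sg (!s1) K1) (sl fam (sg s2 K2) K3) (sl fam (sg (!s2) K2) (pneg K3))
    (sl fam K3 (sg s2 K2)) (sl fam (pneg K3) (sg (!s2) K2)) (pga g))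
    (n1.K.t p x) (n2.K.t q x) (pnorm (pc.K.t X Y x)) (dj (jq a) y) (dj (jq b) z) (dj (jq c) t)

/-- the test at the far vertex from the slack without the level term and the level values -/
noncomputable def tF (F l1 l2 l3 : ℕ) : Bool :=
  (fun D => band (ppos (psub F D)) (ppos (padd F D))) (phf (psub (padd l1 l2) l3))

/-- the test at the near vertex; `M = mun`, `K` is the constant part of the level factor -/
noncomputable def tN (K M x y z t F l1 l2 l3 : ℕ) : Bool :=
  (fun F' G => band (ppos (psub F' G)) (ppos (padd F' G)))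
    (psub F (pmul M (pnorm (phf (psub (pmul y (pnorm l2)) (pmul z l1))))))
    (pmul M (pmul (pnorm (psub (padd K (phf x)) (phf t))) (pnorm (psub (padd l1 l2) l3))))

/-- test at the far vertex -/
noncomputable def kF (fam s1 s2 : Bool) (cn : Con) (a b c : ℕ) (n1 n2 : Node) (pc : Piece)
    (p q : ℕ) (g x y z t X Y ex : ℕ) : Bool :=
  (fun L1 L2 L3 => tF (psub ex (phiR fam s1 s2 cn a b c n1 n2 pc p q g x y z t X Y)) L1
    (sl fam L2 L3) (sl fam L3 L2)) (sg s1 (n1.L.t p x)) (sg s2 (n2.L.t q x)) (pc.L.t X Y x)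

/-- test at the near vertex -/
noncomputable def kN (N0 : ℕ) (fam s1 s2 : Bool) (cn : Con) (a b c : ℕ) (n1 n2 : Node)
    (pc : Piece) (p q : ℕ) (g x y z t X Y ex : ℕ) : Bool :=
  (fun L1 L2 L3 => tN (phn N0) (muT N0 x) x y z t
    (psub ex (phiR fam s1 s2 cn a b c n1 n2 pc p q g x y z t X Y)) L1 (sl fam L2 L3) (sl fam L3 L2))
    (sg s1 (n1.L.t p x)) (sg s2 (n2.L.t q x)) (pc.L.t X Y x)

/-- largest difference of three numbers -/
noncomputable def wdT (c1 c2 c3 : ℕ) : ℕ :=
  pmax (pabs (psub c1 c2)) (pmax (pabs (psub c1 c3)) (pabs (psub c2 c3)))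

/-- test at both vertices from the excess, the subtracted part and the level values; `En` is the
factor of the kernel, `W` the bound for the third kernel -/
noncomputable def tB (K M En W x y z t ex P l1 l2 l3 : ℕ) : Bool :=
  band (tF (psub ex P) l1 l2 l3) (tN K M x y z t (psub (psub ex (pmul En (pnorm P))) W) l1 l2 l3)

/-- test at both vertices; `En` is the factor of the kernel, `mo` the factor of the largest
difference of the third kernels `C1`, `C2`, `C3` -/
noncomputable def kB (N0 : ℕ) (En mo : Fn1) (C1 C2 : Fn2) (C3 : Fn3) (fam s1 s2 : Bool) (cn : Con)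
    (a b c : ℕ) (n1 n2 : Node) (pc : Piece) (p q : ℕ) (g x y z t X Y ex : ℕ) : Bool :=
  (fun L1 L2 L3 D1 D2 D3 => tB (phn N0) (muT N0 x) (En.t x)
    (pmul (mo.t x) (pnorm (wdT D1 (sl fam D2 D3) (sl fam D3 D2)))) x y z t ex
    (phiR fam s1 s2 cn a b c n1 n2 pc p q g x y z t X Y) L1 (sl fam L2 L3) (sl fam L3 L2))
    (sg s1 (n1.L.t p x)) (sg s2 (n2.L.t q x)) (pc.L.t X Y x)
    (sg s1 (C1.t p x)) (sg s2 (C2.t q x)) (C3.t X Y x)

/-- the ranges from the roots of the nodes and the quarter of the third side -/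
def qsf (P1 W1 P2 W2 m : ℕ) : Qs :=
  ⟨P1, Nat.add P1 W1, P2, Nat.add P2 W2, Nat.mul m 536870912, Nat.mul (Nat.add m 1) 536870912⟩

/-- test function of a subfamily, far vertex -/
noncomputable def rowF (co : ℕ) (fam s1 s2 : Bool) (cn : Con) (a b c : ℕ) (Q : Qs) (n1 n2 : Node)
    (pc : Piece) (cut : Cut) (xt : Ext) (h u v x : ℕ) : Bool :=
  crds co fam n1 n2 Q (leaf fam s1 s2 n1 n2 cut xt (kF fam s1 s2 cn a b c n1 n2 pc) h x) u v

/-- test function of a subfamily, near vertex -/
noncomputable def rowN (N0 co : ℕ) (fam s1 s2 : Bool) (cn : Con) (a b c : ℕ) (Q : Qs)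
    (n1 n2 : Node) (pc : Piece) (cut : Cut) (xt : Ext) (h u v x : ℕ) : Bool :=
  crds co fam n1 n2 Q (leaf fam s1 s2 n1 n2 cut xt (kN N0 fam s1 s2 cn a b c n1 n2 pc) h x) u v

/-- test function of a subfamily, both vertices -/
noncomputable def rowB (N0 : ℕ) (En mo : Fn1) (C1 C2 : Fn2) (C3 : Fn3) (co : ℕ)
    (fam s1 s2 : Bool) (cn : Con) (a b c : ℕ) (Q : Qs) (n1 n2 : Node) (pc : Piece) (cut : Cut)
    (xt : Ext) (h u v x : ℕ) : Bool :=
  crds co fam n1 n2 Q
    (leaf fam s1 s2 n1 n2 cut xt (kB N0 En mo C1 C2 C3 fam s1 s2 cn a b c n1 n2 pc) h x) u v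

end Pool.Agent.Strip051.PB
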