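import Pool.Agent.Strip051.PB.Fn
import Pool.Agent.Strip051.PB.Real

/-! # The slack in the packed arithmetic

`rowPhi` encloses the part of the slack which is subtracted from the excess. The level is passed
as twice its value. -/

namespace Pool.Agent.Strip051.PB

attribute [local irreducible] padd psub pneg pmul psq pinv psqrt psqrtg pabs pps pmax pmin pphi plam
  pcase phf pnat prat pscale pnorm pdc pnc pone ppos pnn Enc

open Pool.Agent.Strip051.LC.Line (phi phi_smul)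

/-- the sum of the mean positive parts, everything doubled; `g'` is the negative of `g` -/
noncomputable def phs (x l1 l2 l3 V1 V2 V3 g g' : ℕ) : ℕ :=
  (fun a b c => padd (padd (padd (pmul l1 (pnorm (pphi a b))) (pmul l2 (pnorm (pphi b c))))
    (pmul l3 (pnorm (pphi c a)))) (pmul g x)) (pnorm (padd V1 g')) (pnorm (padd V2 g'))
    (pnorm (padd V3 g'))

/-- the subtracted part, long arc present; the arguments of `phs` are the doubled potentials -/
noncomputable def fN (kh x l1 l2 A1 A2 A3 g : ℕ) : ℕ :=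
  (fun s => (fun l3 => (fun p1 p2 p3 m => pmul kh (pnorm (phs x l1 l2 l3
      (psub (padd p1 (pmul A2 (pnorm (psub l3 l1)))) p3)
      (padd (psub p2 p1) (pmul p3 (pnorm (padd (padd m m) (pneg pone)))))
      (psub p3 (padd p2 (pmul A1 (pnorm (psub l3 l2))))) g (pneg g))))
    (pmul A1 (pnorm (psub pone l1))) (pmul A2 (pnorm (psub pone l2))) (pnorm (pmul A3 l3))
    (plam l1 s))
  (pnorm (psub pone s))) (padd l1 l2)

/-- the subtracted part, three short arcs -/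
noncomputable def fW (kh x l1 l2 l3 A1 A2 A3 g : ℕ) : ℕ :=
  (fun p1 p2 p3 => pmul kh (pnorm (phs x l1 l2 l3
    (psub p1 (padd p3 (pmul A2 (pnorm (psub l1 l3)))))
    (psub p2 (padd p1 (pmul A3 (pnorm (psub l2 l1)))))
    (psub p3 (padd p2 (pmul A1 (pnorm (psub l3 l2))))) g (pneg g))))
  (pmul A1 (pnorm (psub pone l1))) (pmul A2 (pnorm (psub pone l2)))
  (pmul A3 (pnorm (psub pone l3)))

/-- the subtracted part; primed arguments are the negatives -/
noncomputable def rowPhi (c : Con) (kh x u u' v v' w w' R1 R1' R2 R2' R3 R3' g : ℕ) : ℕ :=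
  Con.rec (motive := fun _ => ℕ) (fN kh x u v R1' R2' R3' g) (fN kh x v' u' R2' R1' R3' g)
    (fN kh x w v' R3 R2' R1 g) (fN kh x w' u R3 R1' R2 g) (fN kh x u' w R1' R3 R2 g)
    (fN kh x v w' R2' R3 R1 g) (fW kh x u v w' R1' R2' R3 g) (fW kh x w v' u' R3 R2' R1' g) c

/-! ### Soundness -/

section

variable {E : Pt} {kh x l1 l2 l3 A1 A2 A3 g : ℕ} {k' x' a1 a2 a3 b1 b2 b3 γ : ℝ}

theorem enc_phs {V1 V2 V3 : ℕ} {w1 w2 w3 : ℝ} (hx : Enc E x x') (h1 : Enc E l1 a1)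
    (h2 : Enc E l2 a2) (h3 : Enc E l3 a3) (g1 : Enc E V1 (2 * w1)) (g2 : Enc E V2 (2 * w2))
    (g3 : Enc E V3 (2 * w3)) (hg : Enc E g (2 * γ)) :
    Enc E (phs x l1 l2 l3 V1 V2 V3 g (pneg g)) (2 * (a1 * phi (w1 - γ) (w2 - γ) +
      a2 * phi (w2 - γ) (w3 - γ) + a3 * phi (w3 - γ) (w1 - γ) + γ * x')) := by
  have k1 := enc_norm (enc_add g1 (enc_neg hg))
  have k2 := enc_norm (enc_add g2 (enc_neg hg))
  have k3 := enc_norm (enc_add g3 (enc_neg hg))
  refine enc_cast (enc_add (enc_add (enc_add (enc_mul h1 (enc_norm (enc_phi k1 k2)))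
    (enc_mul h2 (enc_norm (enc_phi k2 k3)))) (enc_mul h3 (enc_norm (enc_phi k3 k1))))
    (enc_mul hg hx)) ?_
  have e : ∀ a b : ℝ, 2 * a + -(2 * b) = 2 * (a - b) := fun a b => by ring
  rw [e, e, e, phi_smul (by norm_num), phi_smul (by norm_num), phi_smul (by norm_num)]
  ring

theorem enc_fN (hk : Enc E kh (k' / 2)) (hx : Enc E x x') (h1 : Enc E l1 a1) (h2 : Enc E l2 a2)
    (g1 : Enc E A1 b1) (g2 : Enc E A2 b2) (g3 : Enc E A3 b3) (hg : Enc E g (2 * γ)) (ex : ℝ) :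
    Enc E (fN kh x l1 l2 A1 A2 A3 g) (ex - slN ex k' x' a1 a2 b1 b2 b3 γ) := by
  have hs := enc_add h1 h2
  have h3 := enc_cast (enc_norm (enc_sub (enc_one E) hs)) (show _ = 1 - a1 - a2 by ring)
  have q1 := enc_mul g1 (enc_norm (enc_sub (enc_one E) h1))
  have q2 := enc_mul g2 (enc_norm (enc_sub (enc_one E) h2))
  have q3 := enc_norm (enc_mul g3 h3)
  have hl : Enc E (plam l1 (padd l1 l2)) (lam a1 (a1 + a2)) := enc_lam h1 hs
  have v1 := enc_cast (enc_sub (enc_add q1 (enc_mul g2 (enc_norm (enc_sub h3 h1)))) q3)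
    (show _ = 2 * pn1 a1 a2 b1 b2 b3 by unfold pn1; ring)
  have v2 := enc_cast (enc_add (enc_sub q2 q1) (enc_mul q3 (enc_norm (enc_add (enc_add hl hl)
    (enc_neg (enc_one E)))))) (show _ = 2 * pn2 a1 a2 b1 b2 b3 by unfold pn2; ring)
  have v3 := enc_cast (enc_sub q3 (enc_add q2 (enc_mul g1 (enc_norm (enc_sub h3 h2)))))
    (show _ = 2 * pn3 a1 a2 b1 b2 b3 by unfold pn3; ring)
  refine enc_cast (enc_mul hk (enc_norm (enc_phs hx h1 h2 h3 v1 v2 v3 hg))) ?_
  unfold slN stn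
  ring

theorem enc_fW (hk : Enc E kh (k' / 2)) (hx : Enc E x x') (h1 : Enc E l1 a1) (h2 : Enc E l2 a2)
    (h3 : Enc E l3 a3) (g1 : Enc E A1 b1) (g2 : Enc E A2 b2) (g3 : Enc E A3 b3)
    (hg : Enc E g (2 * γ)) (hs : a1 + a2 + a3 = 1) (ex : ℝ) :
    Enc E (fW kh x l1 l2 l3 A1 A2 A3 g) (ex - slW ex k' x' a1 a2 a3 b1 b2 b3 γ) := by
  have q1 := enc_mul g1 (enc_norm (enc_sub (enc_one E) h1))
  have q2 := enc_mul g2 (enc_norm (enc_sub (enc_one E) h2))
  have q3 := enc_mul g3 (enc_norm (enc_sub (enc_one E) h3))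
  obtain rfl : a2 = 1 - a1 - a3 := by linarith
  have v1 := enc_cast (enc_sub q1 (enc_add q3 (enc_mul g2 (enc_norm (enc_sub h1 h3)))))
    (show _ = 2 * pon b1 b2 b3 a1 (1 - a1 - a3) a3 by unfold pon; ring)
  have v2 := enc_cast (enc_sub q2 (enc_add q1 (enc_mul g3 (enc_norm (enc_sub h2 h1)))))
    (show _ = 2 * pon b2 b3 b1 (1 - a1 - a3) a3 a1 by unfold pon; ring)
  have v3 := enc_cast (enc_sub q3 (enc_add q2 (enc_mul g1 (enc_norm (enc_sub h3 h2)))))
    (show _ = 2 * pon b3 b1 b2 a3 a1 (1 - a1 - a3) by unfold pon; ring)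
  refine enc_cast (enc_mul hk (enc_norm (enc_phs hx h1 h2 h3 v1 v2 v3 hg))) ?_
  unfold slW stn
  ring

end

/-- the arcs of the constructor fit -/
def Con.ok (c : Con) (u v w : ℝ) : Prop :=
  match c with
  | .up => u + v - w = 1
  | .dn => w - v - u = 1
  | _ => True

theorem enc_rowPhi {E : Pt} (c : Con) {kh x U U' V V' W W' P P' Q Q' R R' g : ℕ}
    {k' x' u v w r1 r2 r3 γ : ℝ} (hk : Enc E kh (k' / 2)) (hx : Enc E x x') (hu : Enc E U u)
    (hu' : Enc E U' (-u)) (hv : Enc E V v) (hv' : Enc E V' (-v)) (hw : Enc E W w)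
    (hw' : Enc E W' (-w)) (h1 : Enc E P r1) (h1' : Enc E P' (-r1)) (h2 : Enc E Q r2)
    (h2' : Enc E Q' (-r2)) (h3 : Enc E R r3) (h3' : Enc E R' (-r3)) (hg : Enc E g (2 * γ))
    (hc : c.ok u v w) (ex : ℝ) :
    Enc E (rowPhi c kh x U U' V V' W W' P P' Q Q' R R' g)
      (ex - slc c ex k' x' u v w r1 r2 r3 γ) := by
  cases c
  · exact enc_fN hk hx hu hv h1' h2' h3' hg ex
  · exact enc_fN hk hx hv' hu' h2' h1' h3' hg ex
  · exact enc_fN hk hx hw hv' h3 h2' h1 hg ex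
  · exact enc_fN hk hx hw' hu h3 h1' h2 hg ex
  · exact enc_fN hk hx hu' hw h1' h3 h2 hg ex
  · exact enc_fN hk hx hv hw' h2' h3 h1 hg ex
  · exact enc_fW hk hx hu hv hw' h1' h2' h3 hg (by have : u + v - w = 1 := hc; linarith) ex
  · exact enc_fW hk hx hw hv' hu' h3 h2' h1' hg (by have : w - v - u = 1 := hc; linarith) ex

end Pool.Agent.Strip051.PB
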