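import Pool.Agent.Strip051.PB.StripF

/-! # Unit strips: the alternative of the rows -/

namespace Pool.Agent.Strip051.PB

open Pool.Agent.StripNear Pool.Agent.StripSquare Pool.Agent.Strip051.Sweep
open Pool.Agent.Strip051.LC

attribute [local irreducible] padd psub pneg pmul psq pinv psqrt psqrtg pabs pps pmax pmin pphi plam
  pcase phf pnat prat pscale pnorm pdc pnc pone ppos pnn Enc

/-- The statement of a strip test at a point. -/
def StrP (D : SDat) (fam s1 s2 : Bool) (m u U : Ty) (cn : Con) (a b c : ℕ) (S : Sg) (V : Vt)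
    (n1 n2 : Node) (p q x : ℝ) : Prop :=
  ∀ Km Lm Kn Ln KU LU X Y, D.Ok x → X = sgr s2 (n2.X.v q) + eps fam * sgr s1 (n1.X.v p) →
    Y = n2.Y.v q + eps fam * n1.Y.v p →
    NH D m a x (sgr s1 (n1.X.v p)) (n1.Y.v p) Km Lm →
    NH D u (cond fam b c) x (sgr s2 (n2.X.v q)) (n2.Y.v q) Kn Ln →
    UH D U S V (cond fam c b) x X Y KU LU → 1 ≤ qqn X Y → qqn X Y ≤ 3 →
    ∃ γ, 0 ≤ slc cn (levF ((sgr s1 (n1.X.v p) * n2.Y.v q - sgr s2 (n2.X.v q) * n1.Y.v p) / 2 - 1 / 2)
      Lm (cond fam Ln LU) (cond fam LU Ln)) (D.kh.v x) x (n1.Y.v p - jq a)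
      (cond fam (n2.Y.v q) Y - jq b) (n1.Y.v p + cond fam (n2.Y.v q) Y - jq c) Km
      (cond fam Kn KU) (cond fam KU Kn) γ

theorem enc_thE {E : Pt} {X Y : ℕ} {x y : ℝ} (b : Bool) (h : Enc E X x) (h' : Enc E Y y) :
    Enc E (th b X Y) (y + eps b * x) := by
  cases b
  · exact enc_cast (enc_sub h' h) (by simp only [eps, cond_false]; ring)
  · exact enc_cast (enc_add h h') (by simp only [eps, cond_true]; ring)

theorem strT_sound {E : Pt} {D : SDat} {fam s1 s2 : Bool} {m u U : Ty} {cn : Con} {a b c : ℕ}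
    {S : Sg} {V : Vt} {n1 n2 : Node} (hI : okI fam m u U = true) (hc : con a b c = some cn)
    {i A B C : ℕ} {p q x : ℝ} (hp : Enc E A p) (hq : Enc E B q) (hx : Enc E C x)
    (h : strT D fam s1 s2 m u U cn a b c S V n1 n2 i A B C = true) :
    StrP D fam s1 s2 m u U cn a b c S V n1 n2 p q x := by
  intro Km Lm Kn Ln KU LU X Y hD eX eY Hm Hn HU q1 q3
  unfold strT at h
  simp only [frc_eq] at h
  have y1 := n1.Y.enc hp
  have y2 := n2.Y.enc hq
  have x1 := enc_sg s1 (n1.X.enc hp)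
  have x2 := enc_sg s2 (n2.X.enc hq)
  exact stpT_sound hD hI hc hx y1 y2 x1 x2 (enc_norm (enc_cast (enc_thE fam x1 x2) eX.symm))
    (enc_norm (enc_cast (enc_thE fam y1 y2) eY.symm)) eX eY rfl Hm Hn HU q1 q3 h

/-- **Strip tests** as a further alternative. -/
noncomputable def strExt (D : SDat) (fam s1 s2 : Bool) (m u U : Ty) (cn : Con) (a b c : ℕ)
    (hI : okI fam m u U = true) (hc : con a b c = some cn) (S : Sg) (V : Vt) (n1 n2 : Node) :
    Ext where
  t i p q x := strT D fam s1 s2 m u U cn a b c S V n1 n2 i p q x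
  P p q x := StrP D fam s1 s2 m u U cn a b c S V n1 n2 p q x
  snd hp hq hx h := strT_sound hI hc hp hq hx h

section

variable {n : ℕ} {T : STab n} {P : Pos n} {RK RL : Fin (n + 1) → ℕ → ℝ → ℝ → ℝ} {pc : ℕ → Piece}
  {x κ : ℝ} {a b c : ℕ} {cn : Con} {s1 s2 : Bool} {m u U : Ty} {n1 n2 : Node} {j k : Fin (n + 1)}

/-- The type of a node: the first or the last curve. -/
inductive NTy (n : ℕ) : Fin (n + 1) → ℕ → Bool → Ty → Prop
  | O (q : ℕ) (s : Bool) : NTy n 0 q s (sgT s (tyO q))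
  | N (q : ℕ) (s : Bool) : NTy n (Fin.last n) q s (sgT s (tyN q))

theorem STab.Ok.node (h : T.Ok P RK RL x) {q : ℕ} {y : ℝ} {s : Bool} {t : Ty}
    (ht : NTy n j q s t) (hy : OnC j q y) :
    NH T.D t q x (sgb s * crv P j q y) y (sgb s * RK j q y x) (sgb s * RL j q y x) := by
  cases ht with
  | O =>
    rw [crv_O]
    exact (h.nh0 hy).sg h.odd s
  | N =>
    rw [crv_N]
    exact (h.nhn hy.1).sg h.odd s

/-- **Strips, family `A`, far vertex.** -/
theorem STab.Ok.extA (h : T.Ok P RK RL x) (hs : SideOk P RK RL pc x) (hκ : κ * h0 = ken x)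
    (hc : con a b c = some cn) (hI : okI true m u U = true) (hm : NTy n j a s1 m)
    (hu : NTy n k b s2 u) (hU : U.inq c) :
    ExtA (VF κ) P RK RL pc (strExt T.D true s1 s2 m u U cn a b c hI hc (T.S U c) T.V n1 n2)
      n1 n2 a b c j k (sgb s1) (sgb s2) x := by
  intro y y' p p' F A1 A2 hP
  have e1 : sgr s1 (n1.X.v p) = sgb s1 * crv P j a y := by rw [A1.X, sgr_eq]
  have e2 : sgr s2 (n2.X.v p') = sgb s2 * crv P k b y' := by rw [A2.X, sgr_eq]
  have H1 := h.node hm F.on1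
  have H2 := h.node hu F.on2
  have H3 := h.uh hs hU F.q3 F.len1 F.len3
  obtain ⟨γ, hγ⟩ := hP (sgb s1 * RK j a y x) (sgb s1 * RL j a y x) (sgb s2 * RK k b y' x)
    (sgb s2 * RL k b y' x) _ _ (sgb s1 * crv P j a y + sgb s2 * crv P k b y') (y + y') h.ok
    (by rw [e1, e2]; simp only [eps, cond_true]; ring) (by rw [A1.Y, A2.Y]; simp only [eps, cond_true]; ring)
    (by rw [e1, A1.Y]; exact H1) (by rw [e2, A2.Y]; exact H2) H3 F.len1 F.len3
  refine F.ngv hc ⟨γ, ?_⟩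
  rw [hκ]
  rw [e1, e2, A1.Y, A2.Y, h.kh] at hγ
  simp only [cond_true] at hγ
  unfold slt lvF exA vlA exn'
  have e3 : (sgb s1 * crv P j a y * (y + y') - (sgb s1 * crv P j a y + sgb s2 * crv P k b y') * y) / 2
      - 1 / 2 = (sgb s1 * crv P j a y * y' - sgb s2 * crv P k b y' * y) / 2 - 1 / 2 := by ring
  rw [e3]
  exact hγ

/-- **Strips, family `B`, far vertex.** -/
theorem STab.Ok.extB (h : T.Ok P RK RL x) (hs : SideOk P RK RL pc x) (hκ : κ * h0 = ken x)
    (hc : con a b c = some cn) (hI : okI false m u U = true) (hm : NTy n j a s1 m)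
    (hu : NTy n k c s2 u) (hU : U.inq b) :
    ExtB (VF κ) P RK RL pc (strExt T.D false s1 s2 m u U cn a b c hI hc (T.S U b) T.V n1 n2)
      n1 n2 a b c j k (sgb s1) (sgb s2) x := by
  intro y y' p p' F A1 A2 hP
  have e1 : sgr s1 (n1.X.v p) = sgb s1 * crv P j a y := by rw [A1.X, sgr_eq]
  have e2 : sgr s2 (n2.X.v p') = sgb s2 * crv P k c (y + y') := by rw [A2.X, sgr_eq]
  have H1 := h.node hm F.on1
  have H2 := h.node hu F.on3
  have H3 := h.uh hs hU F.q2 F.len1 F.len3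
  obtain ⟨γ, hγ⟩ := hP (sgb s1 * RK j a y x) (sgb s1 * RL j a y x) (sgb s2 * RK k c (y + y') x)
    (sgb s2 * RL k c (y + y') x) _ _ (sgb s2 * crv P k c (y + y') - sgb s1 * crv P j a y) y' h.ok
    (by rw [e1, e2]; simp only [eps, cond_false]; ring) (by rw [A1.Y, A2.Y]; simp only [eps, cond_false]; ring)
    (by rw [e1, A1.Y]; exact H1) (by rw [e2, A2.Y]; exact H2) H3 F.len1 F.len3
  refine F.ngv hc ⟨γ, ?_⟩
  rw [hκ]
  rw [e1, e2, A1.Y, A2.Y, h.kh] at hγ
  simp only [cond_false] at hγ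
  unfold slt lvF exB vlB exn'
  have e3 : (sgb s1 * crv P j a y * (y + y') - sgb s2 * crv P k c (y + y') * y) / 2
      - 1 / 2 = (sgb s1 * crv P j a y * (y + y') - sgb s2 * crv P k c (y + y') * y) / 2 - 1 / 2 := rfl
  exact hγ

end

end Pool.Agent.Strip051.PB
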