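import Pool.Agent.Strip051.PB.StripS
import Pool.Agent.Strip051.PB.Bridge
import Pool.Agent.Strip051.PB.Base

/-! # Unit strips: from the facts about a table to the alternative of the rows -/

namespace Pool.Agent.Strip051.PB

open Pool.Agent.StripNear Pool.Agent.StripSquare Pool.Agent.Strip051.Sweep
open Pool.Agent.Strip051.LC

attribute [local irreducible] padd psub pneg pmul psq pinv psqrt psqrtg pabs pps pmax pmin pphi plam
  pcase phf pnat prat pscale pnorm pdc pnc pone ppos pnn Enc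

/-! ### Mirror images -/

/-- the type of the mirror image -/
def Ty.mir : Ty → Ty
  | .u0 => .u0m
  | .u2 => .u2
  | .u0m => .u0
  | .s0 => .s0m
  | .s2 => .s2m
  | .s0m => .s0
  | .s2m => .s2

section

variable {t : Ty} {q : ℕ} {X y K L : ℝ}

theorem Ty.mir_px (t : Ty) (X y : ℝ) : t.mir.px (-X) y = -t.px X y := by
  cases t <;> simp only [Ty.mir, Ty.px] <;> ring

theorem Ty.mir_py (t : Ty) (X y : ℝ) : t.mir.py (-X) y = t.py X y := by
  cases t <;> simp only [Ty.mir, Ty.py] <;> ring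

theorem Ty.mir_la (t : Ty) : t.mir.la = -t.lb := by
  cases t <;> simp only [Ty.mir, Ty.la, Ty.lb] <;> norm_num

theorem Ty.mir_lb (t : Ty) : t.mir.lb = -t.la := by
  cases t <;> simp only [Ty.mir, Ty.la, Ty.lb] <;> norm_num

theorem Ty.mir_nq (t : Ty) : t.mir.nq = t.nq := by
  cases t <;> rfl

theorem Ty.mir_sx (h : t ≠ .u2) : t.mir.sx = -t.sx := by
  cases t <;> simp [Ty.mir, Ty.sx] at h ⊢

theorem Ty.mir_inq : t.mir.inq q ↔ t.inq q := by
  cases t <;> rfl

theorem Ty.mir_u2 : t.mir = .u2 ↔ t = .u2 := by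
  cases t <;> simp [Ty.mir]

theorem mir_Gt (h : t.inq q) : Gt t.mir q X y = Gt t q X y := by
  cases t
  · rcases h with rfl | rfl <;> rfl
  · rfl
  · rcases h with rfl | rfl <;> rfl
  · rcases h with rfl | rfl <;> rfl
  · rcases h with rfl | rfl <;> rfl
  · rcases h with rfl | rfl <;> rfl
  · rcases h with rfl | rfl <;> rfl

theorem TightK.mir {kc : ℝ → ℝ} (hq : t.inq q) (hp : |t.px X y| ≤ 1 / 2)
    (odd : ∀ p, |p| ≤ 1 / 2 → kc (-p) = -kc p) (h : TightK t q kc X y K) :
    TightK t.mir q kc (-X) y (-K) := by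
  unfold TightK at h ⊢
  rw [h, Ty.mir_px, abs_neg, mir_Gt hq, neg_neg, odd _ hp]
  ring

theorem TightL.mir {tx : ℝ → ℝ → ℝ} (h : TightL t tx X y L) :
    TightL t.mir tx (-X) y (-L) := by
  unfold TightL at h ⊢
  rw [h, Ty.mir_px, Ty.mir_py, Ty.mir_la, Ty.mir_lb, neg_neg]
  have e1 : 3 / 4 * t.py X y + -t.px X y / 2 = 3 / 4 * t.py X y - t.px X y / 2 := by ring
  have e2 : 3 / 4 * t.py X y - -t.px X y / 2 = 3 / 4 * t.py X y + t.px X y / 2 := by ring
  rw [e1, e2]
  ring

/-- the type for the sign `s` -/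
def sgT (s : Bool) (t : Ty) : Ty := cond s t t.mir

/-- types of the points of the unit circle with positive abscissa -/
def tyO : ℕ → Ty
  | 2 => .u2
  | _ => .u0

/-- types of the points of the circle of radius `√3` with positive abscissa -/
def tyN : ℕ → Ty
  | 0 | 1 => .s0
  | _ => .s2

theorem NH.mir {D : SDat} {x : ℝ} (odd : ∀ p, |p| ≤ 1 / 2 → D.kf.v (-p) x = -D.kf.v p x)
    (h : NH D t q x X y K L) : NH D t.mir q x (-X) y (-K) (-L) := by
  obtain ⟨h1, h2, -⟩ := h.ge
  obtain ⟨p0, -, -⟩ := unit_cT h2 h1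
  refine ⟨Ty.mir_inq.2 h.inq, h.iny, ?_, fun hu => ?_, h.tK.mir h.inq p0 odd, h.tL.mir⟩
  · rw [Ty.mir_nq, ← h.len]
    unfold qqn
    ring
  · have hu' : t ≠ .u2 := fun e => hu (Ty.mir_u2.2 e)
    rw [abs_neg, Ty.mir_sx hu']
    have := h.sgn hu'
    linarith

theorem NH.sg {D : SDat} {x : ℝ} (odd : ∀ p, |p| ≤ 1 / 2 → D.kf.v (-p) x = -D.kf.v p x)
    (s : Bool) (h : NH D t q x X y K L) :
    NH D (sgT s t) q x (sgb s * X) y (sgb s * K) (sgb s * L) := by
  cases s
  · have := h.mir odd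
    simp only [sgb, cond_false, neg_one_mul]
    exact this
  · simp only [sgb, cond_true, one_mul]
    exact h

end

/-! ### The facts about a table -/

/-- The data of a table. -/
structure STab (n : ℕ) where
  D : SDat
  i0 : Fin n
  il : Fin n
  Sf : ℕ → Sg
  Sl : ℕ → Sg
  V : Vt

/-- the segment next to the tight curve -/
noncomputable def STab.S {n : ℕ} (T : STab n) (U : Ty) (q : ℕ) : Sg := cond (uT U) (T.Sf q) (T.Sl q)

variable {n : ℕ}

/-- What is known about a table. -/
structure STab.Ok (T : STab n) (P : Pos n) (RK RL : Fin (n + 1) → ℕ → ℝ → ℝ → ℝ) (x : ℝ) :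
    Prop where
  i0 : T.i0.castSucc = 0
  il : T.il.succ = Fin.last n
  rl : 1 < P.ρ T.il.castSucc
  ok : T.D.Ok x
  kh : T.D.kh.v x = ken x
  odd : ∀ p, |p| ≤ 1 / 2 → T.D.kf.v (-p) x = -T.D.kf.v p x
  K0 : ∀ q y, OnC (0 : Fin (n + 1)) q y →
    TightK (tyO q) q (fun p => T.D.kf.v p x) (c1n y) y (RK 0 q y x)
  L0 : ∀ q y, OnC (0 : Fin (n + 1)) q y →
    TightL (tyO q) (fun p c => T.D.TX.val T.D.kf.v p c x) (c1n y) y (RL 0 q y x)
  Kn : ∀ q y, InQ q y →
    TightK (tyN q) q (fun p => T.D.kf.v p x) (c3n y) y (RK (Fin.last n) q y x)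
  Ln : ∀ q y, InQ q y →
    TightL (tyN q) (fun p c => T.D.TX.val T.D.kf.v p c x) (c3n y) y (RL (Fin.last n) q y x)
  f0 : ∀ q y, InQ q y → (T.Sf q).f.v y = crv P T.i0.succ q y
  fn : ∀ q y, InQ q y → (T.Sl q).f.v y = crv P T.il.castSucc q y
  sK0 : ∀ q y, OnC (0 : Fin (n + 1)) q y → c1n y < crv P T.i0.succ q y →
    (T.Sf q).SK.v y x * (crv P T.i0.succ q y - c1n y) = RK T.i0.succ q y x - RK 0 q y x
  sX0 : ∀ q y, OnC (0 : Fin (n + 1)) q y → c1n y < crv P T.i0.succ q y →
    (T.Sf q).SX.v y x * (crv P T.i0.succ q y - c1n y) = RL T.i0.succ q y x - RL 0 q y x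
  sKn : ∀ q y, InQ q y → crv P T.il.castSucc q y < c3n y →
    (T.Sl q).SK.v y x * (c3n y - crv P T.il.castSucc q y) =
      RK (Fin.last n) q y x - RK T.il.castSucc q y x
  sXn : ∀ q y, InQ q y → crv P T.il.castSucc q y < c3n y →
    (T.Sl q).SX.v y x * (c3n y - crv P T.il.castSucc q y) =
      RL (Fin.last n) q y x - RL T.il.castSucc q y x
  k1 : 0 ≤ T.V.k1.v ∧ T.V.k1.v ≤ 1 / 2
  kn : ∀ X, |X| ≤ T.V.k1.v → T.D.kf.v (-X) x = -(T.V.k0.v x * X)
  tn : ∀ X, |X| ≤ T.V.k1.v → T.D.tF x (-X) - T.D.tF x X = T.V.m0.v x * X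
  vK : ∀ y, InQ 2 y → RK T.i0.succ 2 y x = crv P T.i0.succ 2 y * T.V.B.v y x
  vX : ∀ y, InQ 2 y → RL T.i0.succ 2 y x = crv P T.i0.succ 2 y * T.V.BX.v y x
  rK : ∀ y, OnC (0 : Fin (n + 1)) 2 y → c1n y < crv P T.i0.succ 2 y →
    T.V.RK.v y x * (crv P T.i0.succ 2 y - c1n y) =
      crv P T.i0.succ 2 y * (T.V.B.v y x - (1 - (y - 1) * T.V.k0.v x))
  rX : ∀ y, OnC (0 : Fin (n + 1)) 2 y → c1n y < crv P T.i0.succ 2 y →
    T.V.RX.v y x * (crv P T.i0.succ 2 y - c1n y) =
      crv P T.i0.succ 2 y * (T.V.BX.v y x - T.V.m0.v x)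
  yb : 0 ≤ T.V.yb.v ∧ 1 ≤ 3 / 4 * T.V.yb.v ^ 2
  flat : ∀ y, InQ 2 y → T.V.ya.v ≤ y → y ≤ T.V.yb.v →
    T.V.B.v y x = 1 - (y - 1) * T.V.k0.v x ∧ T.V.BX.v y x = T.V.m0.v x
  abk : ∀ y, InQ 2 y → T.V.yb.v ≤ y → y ≤ T.V.yk.v →
    T.V.B.v y x = 1 - (y - 1) * T.V.k0.v x + T.V.sK.v x * (y - T.V.yb.v) ∧
      T.V.BX.v y x = T.V.m0.v x + T.V.sX.v x * (y - T.V.yb.v)
  phk : T.V.PH.KOk x
  ph : ∀ u, |u| ≤ T.V.k2.v → T.D.tF x (-u) - T.D.tF x u = T.V.m0.v x * u + T.V.PH.kv u x
  sM : ∀ y, OnC (0 : Fin (n + 1)) 2 y → c1n y < crv P T.i0.succ 2 y →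
    (1 + T.V.SM.v y x) * (crv P T.i0.succ 2 y - c1n y) = RK T.i0.succ 2 y x - RK 0 2 y x
  yz : T.V.ya.v ≤ T.V.yz.v ∧ 0 ≤ T.V.yz.v ∧ 1 ≤ 3 / 4 * T.V.yz.v ^ 2 + T.V.k1.v ^ 2

section

variable {T : STab n} {P : Pos n} {RK RL : Fin (n + 1) → ℕ → ℝ → ℝ → ℝ} {pc : ℕ → Piece} {x : ℝ}

theorem crv_O (q : ℕ) (y : ℝ) : crv P 0 q y = c1n y := by
  unfold crv gamn
  rw [P.zero, if_pos zero_le_one]
  ring

theorem crv_N (q : ℕ) (y : ℝ) : crv P (Fin.last n) q y = c3n y := by
  unfold crv gamn
  rw [P.last, if_neg (by norm_num)]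
  ring

theorem c3n_pos {y : ℝ} (h0 : 0 ≤ y) (h2 : y ≤ 2) : c3n y ^ 2 = 3 - 3 / 4 * y ^ 2 :=
  c3n_sq (by nlinarith)

theorem onC_q {q : ℕ} {y : ℝ} (h : OnC (0 : Fin (n + 1)) q y) : q = 0 ∨ q = 1 ∨ q = 2 := by
  have h1 := y_lt (h.2 rfl)
  match q, h.1 with
  | 0, _ => exact Or.inl rfl
  | 1, _ => exact Or.inr (Or.inl rfl)
  | 2, _ => exact Or.inr (Or.inr rfl)
  | 3, ⟨h2, _⟩ => linarith

theorem STab.Ok.nh0 (h : T.Ok P RK RL x) {q : ℕ} {y : ℝ} (hy : OnC (0 : Fin (n + 1)) q y) :
    NH T.D (tyO q) q x (c1n y) y (RK 0 q y x) (RL 0 q y x) := by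
  have h2 := on_sq hy.1.nonneg (hy.2 rfl)
  refine ⟨?_, hy.1, ?_, ?_, h.K0 q y hy, h.L0 q y hy⟩
  · rcases onC_q hy with rfl | rfl | rfl
    · exact Or.inl rfl
    · exact Or.inr rfl
    · rfl
  · unfold qqn
    rw [c1n_sq h2.le]
    rcases onC_q hy with rfl | rfl | rfl <;> simp only [tyO, Ty.nq] <;> ring
  · intro _
    rw [abs_of_nonneg (c1n_nn y)]
    rcases onC_q hy with rfl | rfl | rfl <;> simp only [tyO, Ty.sx] <;> ring

theorem STab.Ok.nhn (h : T.Ok P RK RL x) {q : ℕ} {y : ℝ} (hy : InQ q y) :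
    NH T.D (tyN q) q x (c3n y) y (RK (Fin.last n) q y x) (RL (Fin.last n) q y x) := by
  have e := c3n_pos hy.nonneg hy.le_two
  refine ⟨?_, hy, ?_, ?_, h.Kn q y hy, h.Ln q y hy⟩
  · match q, hy with
    | 0, _ => exact Or.inl rfl
    | 1, _ => exact Or.inr rfl
    | 2, _ => exact Or.inl rfl
    | 3, _ => exact Or.inr rfl
  · unfold qqn
    rw [e]
    match q, hy with
    | 0, _ => simp only [tyN, Ty.nq]; ring
    | 1, _ => simp only [tyN, Ty.nq]; ring
    | 2, _ => simp only [tyN, Ty.nq]; ring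
    | 3, _ => simp only [tyN, Ty.nq]; ring
  · intro _
    rw [abs_of_nonneg (c3n_nn y)]
    match q, hy with
    | 0, _ => simp only [tyN, Ty.sx]; ring
    | 1, _ => simp only [tyN, Ty.sx]; ring
    | 2, _ => simp only [tyN, Ty.sx]; ring
    | 3, _ => simp only [tyN, Ty.sx]; ring

/-! ### The third side -/

/-- The value on the third side between two curves. -/
theorem thd_seg {R : Fin (n + 1) → ℕ → ℝ → ℝ → ℝ} (h : Pins P R x) {q : ℕ} {y X : ℝ}
    (hq : InQ q y) (i : Fin n) (k1 : 1 ≤ qqn X y) (k3 : qqn X y ≤ 3)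
    (a1 : crv P i.castSucc q y ≤ X) (a2 : X ≤ crv P i.succ q y) :
    thd P R q X y x = R i.castSucc q y x + (R i.succ q y x - R i.castSucc q y x) *
      ((X - crv P i.castSucc q y) / (crv P i.succ q y - crv P i.castSucc q y)) := by
  have hp := h0_pos
  have hT : 0 ≤ h0 * y := mul_nonneg hp.le hq.nonneg
  have hT3 : (h0 * y) ^ 2 ≤ 3 := by
    rw [mul_pow, h0_sq]
    unfold qqn at k3
    nlinarith [sq_nonneg X]
  have m2 := Pos.ker_seg h.adm i hT hT3 (X := X) (by rwa [← linkX P _ q y hq] at a1)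
    (by rwa [← linkX P _ q y hq] at a2)
  have e3 : ker P.nodes (tbl R x) (fun _ _ => 0) X (h0 * y) = thd P R q X y x :=
    h.link.third q X y hq k1 k3
  rw [e3, tbl_eq hq, tbl_eq hq] at m2
  have c1' : P.cv i.castSucc (h0 * y) = crv P i.castSucc q y := linkX P _ q y hq
  have c2' : P.cv i.succ (h0 * y) = crv P i.succ q y := linkX P _ q y hq
  rw [c1', c2'] at m2
  exact m2

theorem thd_sgr {R : Fin (n + 1) → ℕ → ℝ → ℝ → ℝ} {b : Bool} {q : ℕ} {X y : ℝ}
    (h : 0 < sgr b X) : thd P R q X y x = sgr b (thd P R q (sgr b X) y x) := by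
  unfold thd oddx
  cases b
  · have h1 : 0 < -X := h
    show _ = -(if -X ≤ 0 then _ else _)
    rw [if_pos (by linarith), if_neg (by linarith)]
    rfl
  · have h1 : 0 < X := h
    show _ = _
    rfl

theorem qqn_sgr (b : Bool) (X y : ℝ) : qqn (sgr b X) y = qqn X y := by
  cases b
  · unfold qqn sgr
    simp
  · rfl

/-- The third side between the first two curves. -/
theorem seg_first {R : Fin (n + 1) → ℕ → ℝ → ℝ → ℝ} (h : Pins P R x) {i : Fin n}
    (hi : i.castSucc = 0) {q : ℕ} {y X s : ℝ} {b : Bool} (hq : InQ q y) (k1 : 1 ≤ qqn X y)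
    (k3 : qqn X y ≤ 3) (hX : 0 < sgr b X) (a2 : sgr b X ≤ crv P i.succ q y)
    (hs : c1n y < crv P i.succ q y → s * (crv P i.succ q y - c1n y) = R i.succ q y x - R 0 q y x) :
    thd P R q X y x = sgr b (R 0 q y x) + (X - sgr b (c1n y)) * s ∧ c1n y ≤ sgr b X := by
  have e1 : crv P i.castSucc q y = c1n y := by rw [hi, crv_O]
  have hc : c1n y ≤ sgr b X := by
    unfold c1n
    rw [show sgr b X = √((sgr b X) ^ 2) from (Real.sqrt_sq hX.le).symm]
    apply Real.sqrt_le_sqrt
    rw [← qqn_sgr b] at k1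
    unfold qqn at k1
    linarith
  have m := thd_seg h hq i (X := sgr b X) (by rwa [qqn_sgr]) (by rwa [qqn_sgr]) (by rw [e1]; exact hc)
    a2
  rw [e1, hi] at m
  refine ⟨?_, hc⟩
  rw [thd_sgr hX, m]
  have e2 : X = sgr b (sgr b X) := (sgu_sgr b X).symm
  have key : (R i.succ q y x - R 0 q y x) *
      ((sgr b X - c1n y) / (crv P i.succ q y - c1n y)) = (sgr b X - c1n y) * s := by
    rcases (hc.trans a2).eq_or_lt with h1 | h1
    · have h2 : sgr b X = c1n y := le_antisymm (a2.trans h1.ge) hc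
      rw [h2, sub_self, zero_div, mul_zero, zero_mul]
    · have h3 : crv P i.succ q y - c1n y ≠ 0 := (sub_pos.2 h1).ne'
      rw [← hs h1]
      field_simp
  rw [key]
  cases b
  · show -(_ + (-X - _) * s) = -_ + (X - -_) * s
    ring
  · rfl

theorem crv_lt_last {i : Fin n} (hi : i.succ = Fin.last n) (hρ : 1 < P.ρ i.castSucc) {q : ℕ}
    {y : ℝ} (hq : InQ q y) (hy : y < 2) : crv P i.castSucc q y < c3n y := by
  have hp := h0_pos
  have hT : 0 ≤ h0 * y := mul_nonneg hp.le hq.nonneg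
  have hT3 : (h0 * y) ^ 2 < 3 := by
    rw [mul_pow, h0_sq]
    nlinarith [hq.nonneg]
  have hne : Fin.last n ≠ 0 := by
    rw [← hi]
    exact Fin.succ_ne_zero i
  have h := P.cv_lt hT (i := i.castSucc) (j := Fin.last n) ?_ ?_ ?_
  · have e1 : P.cv i.castSucc (h0 * y) = crv P i.castSucc q y := linkX P _ q y hq
    have e2 : P.cv (Fin.last n) (h0 * y) = crv P (Fin.last n) q y := linkX P _ q y hq
    rw [e1, e2, crv_N] at h
    exact h
  · refine ⟨fun h0 => ?_, fun _ h1 => absurd h1 (not_le.2 hρ), fun _ => hT3, hT3.le⟩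
    rw [h0, P.zero] at hρ
    linarith
  · refine ⟨fun h0 => absurd h0 hne, fun _ h1 => ?_, fun h1 => absurd rfl h1, hT3.le⟩
    rw [P.last] at h1
    linarith
  · rw [← hi]
    exact Fin.castSucc_lt_succ

/-- The curves right of the steep curve have positive abscissae. -/
theorem crv_lo (i : Fin (n + 1)) {q : ℕ} {y : ℝ} (hq : InQ q y) (hρ : 1 < P.ρ i) (hy : y < 2) :
    0 < crv P i q y := by
  have h1 := hq.nonneg
  have h2 : (0 : ℝ) ≤ Wn (decide (2 ≤ q)) y := by
    unfold Wn
    by_cases hd : 2 ≤ q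
    · rw [decide_eq_true hd]
      show 0 ≤ swn y + -(1 / 2)
      have : (1 : ℝ) / 2 ≤ swn y := by
        unfold swn
        apply Real.le_sqrt_of_sq_le
        have h3 : 1 ≤ y := by
          match q, hq with
          | 0, _ => omega
          | 1, _ => omega
          | 2, h => exact h.1
          | 3, h => exact le_trans (by norm_num) h.1
        nlinarith
      linarith
    · rw [decide_eq_false hd]
      show 0 ≤ swn y + 1 / 2
      have : 0 ≤ swn y := Real.sqrt_nonneg _
      linarith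
  have h3 : 0 < c3n y := Real.sqrt_pos.2 (by nlinarith)
  have h4 : P.ρ i ≤ 2 := by
    rw [← P.last]
    exact P.mono.monotone (Fin.le_last i)
  unfold crv gamn
  rw [if_neg (not_le.2 hρ)]
  have e : Wn (decide (2 ≤ q)) y + (P.ρ i - 1) * (c3n y - Wn (decide (2 ≤ q)) y) =
      (2 - P.ρ i) * Wn (decide (2 ≤ q)) y + (P.ρ i - 1) * c3n y := by ring
  rw [e]
  have h5 : 0 ≤ (2 - P.ρ i) * Wn (decide (2 ≤ q)) y := mul_nonneg (by linarith) h2
  have h6 : 0 < (P.ρ i - 1) * c3n y := mul_pos (by linarith) h3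
  linarith

/-- The third side between the last two curves. -/
theorem seg_last {R : Fin (n + 1) → ℕ → ℝ → ℝ → ℝ} (h : Pins P R x) {i : Fin n}
    (hi : i.succ = Fin.last n) (hρ : 1 < P.ρ i.castSucc) {q : ℕ} {y X s : ℝ} {b : Bool}
    (hq : InQ q y) (k1 : 1 ≤ qqn X y)
    (k3 : qqn X y ≤ 3) (hX : 0 < sgr b X) (a1 : crv P i.castSucc q y ≤ sgr b X)
    (hs : crv P i.castSucc q y < c3n y → s * (c3n y - crv P i.castSucc q y) =
      R (Fin.last n) q y x - R i.castSucc q y x) :
    thd P R q X y x = sgr b (R (Fin.last n) q y x) + (X - sgr b (c3n y)) * s := by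
  have e1 : crv P i.succ q y = c3n y := by rw [hi, crv_N]
  have hc : sgr b X ≤ c3n y := by
    unfold c3n
    rw [show sgr b X = √((sgr b X) ^ 2) from (Real.sqrt_sq hX.le).symm]
    apply Real.sqrt_le_sqrt
    rw [← qqn_sgr b] at k3
    unfold qqn at k3
    linarith
  have m := thd_seg h hq i (X := sgr b X) (by rwa [qqn_sgr]) (by rwa [qqn_sgr]) a1
    (by rw [e1]; exact hc)
  rw [e1, hi] at m
  rw [thd_sgr hX, m]
  have hy2 : y < 2 := by
    have h1 := c3n_pos hq.nonneg hq.le_two
    have h2 := lt_of_lt_of_le hX hc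
    have h3 := hq.le_two
    rcases h3.eq_or_lt with h4 | h4
    · rw [h4] at h1 h2
      have h5 : 0 < c3n 2 ^ 2 := pow_pos h2 2
      norm_num [h1] at h5
    · exact h4
  have key : R i.castSucc q y x + (R (Fin.last n) q y x - R i.castSucc q y x) *
      ((sgr b X - crv P i.castSucc q y) / (c3n y - crv P i.castSucc q y)) =
      R (Fin.last n) q y x + (sgr b X - c3n y) * s := by
    have h1 := crv_lt_last hi hρ hq hy2
    have h3 : c3n y - crv P i.castSucc q y ≠ 0 := (sub_pos.2 h1).ne'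
    have h4 := hs h1
    have e : R i.castSucc q y x + (R (Fin.last n) q y x - R i.castSucc q y x) *
        ((sgr b X - crv P i.castSucc q y) / (c3n y - crv P i.castSucc q y)) =
        R (Fin.last n) q y x + (R (Fin.last n) q y x - R i.castSucc q y x) *
        ((sgr b X - c3n y) / (c3n y - crv P i.castSucc q y)) := by
      field_simp
      ring
    rw [e, ← h4]
    field_simp
  rw [key]
  cases b
  · show -(_ + (-X - _) * s) = -_ + (X - -_) * s
    ring
  · rfl

/-- The third side is proportional to the abscissa. -/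
theorem seg_prop {R : Fin (n + 1) → ℕ → ℝ → ℝ → ℝ} (h : Pins P R x) {i : Fin n}
    (hi : i.castSucc = 0) {q : ℕ} {y X s : ℝ} (hq : InQ q y) (k1 : 1 ≤ qqn X y)
    (k3 : qqn X y ≤ 3) (a2 : |X| ≤ crv P i.succ q y) (h0 : R 0 q y x = c1n y * s)
    (h1 : R i.succ q y x = crv P i.succ q y * s) : thd P R q X y x = X * s := by
  have hs : c1n y < crv P i.succ q y →
      s * (crv P i.succ q y - c1n y) = R i.succ q y x - R 0 q y x := fun _ => by
    rw [h0, h1]
    ring
  have pos : ∀ b, 0 < sgr b X → thd P R q X y x = X * s := by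
    intro b hb
    have hab : sgr b X = |X| := by
      rw [← abs_sgr b X, abs_of_pos hb]
    have m := (seg_first h hi hq k1 k3 hb (by rw [hab]; exact a2) hs).1
    rw [m, h0]
    cases b
    · show -(c1n y * s) + (X - -c1n y) * s = X * s
      ring
    · show c1n y * s + (X - c1n y) * s = X * s
      ring
  rcases lt_trichotomy X 0 with hX | hX | hX
  · exact pos false (show 0 < -X by linarith)
  · subst hX
    have hc : c1n y = 0 := by
      unfold c1n
      apply Real.sqrt_eq_zero_of_nonpos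
      unfold qqn at k1
      linarith
    have e1 : crv P i.castSucc q y = c1n y := by rw [hi, crv_O]
    have m := thd_seg h hq i k1 k3 (by rw [e1, hc]) (by rwa [abs_zero] at a2)
    rw [m, e1, hi, h0, hc]
    simp
  · exact pos true hX

/-- the types of the unit circle in the quarters -/
theorem sgT_O {U : Ty} {q : ℕ} {b : Bool} (hu : uT U = true) (hq : U.inq q)
    (hb : U ≠ .u2 → b = bT U) : sgT b (tyO q) = U := by
  cases U
  · have := hb (by simp)
    subst this
    rcases hq with rfl | rfl <;> rfl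
  · subst hq
    cases b <;> rfl
  · have := hb (by simp)
    subst this
    rcases hq with rfl | rfl <;> rfl
  all_goals exact absurd hu (by simp [uT])

theorem sgT_N {U : Ty} {q : ℕ} {b : Bool} (hu : uT U = false) (hq : U.inq q)
    (hb : U ≠ .u2 → b = bT U) : sgT b (tyN q) = U := by
  cases U
  · exact absurd hu (by simp [uT])
  · exact absurd hu (by simp [uT])
  · exact absurd hu (by simp [uT])
  all_goals
    have := hb (by simp)
    subst this
    rcases hq with rfl | rfl <;> rfl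

theorem sgb_mul (b : Bool) (z : ℝ) : sgb b * z = sgr b z := (sgr_eq b z).symm

/-- **The facts about the third side.** -/
theorem STab.Ok.uh (h : T.Ok P RK RL x) (hs : SideOk P RK RL pc x) {U : Ty} {q : ℕ} {X Y : ℝ}
    (hU : U.inq q) (hq : InQ q Y) (k1 : 1 ≤ qqn X Y) (k3 : qqn X Y ≤ 3) :
    UH T.D U (T.S U q) T.V q x X Y ((pc q).K.v X Y x) ((pc q).L.v X Y x) := by
  have eK := hs.thK q X Y hq k1 k3
  have eL := hs.thL q X Y hq k1 k3
  rw [← eK, ← eL]
  have z0 : T.D.kf.v 0 x = 0 := by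
    have := h.odd 0 (by norm_num)
    rw [neg_zero] at this
    linarith
  refine ⟨hU, hq, ?_, fun _ => h.k1.2, ?_, ?_, fun _ => h.yb, ?_, ?_, fun _ => z0, fun _ => h.phk,
    fun _ => h.ph, ?_, ?_⟩
  · intro b hb a0 a1 a2 a3
    cases hu : uT U
    · -- length `√3`
      have hn : U.nq = 3 := by rcases uT_iff U with ⟨e1, -, -⟩ | ⟨-, e2, -⟩ <;> simp_all
      have ec : cuR U Y = c3n Y := by unfold cuR c3n; rw [hn]
      have eS : T.S U q = T.Sl q := by unfold STab.S; rw [hu]; rfl
      rw [ec, eS]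
      have a2' := a2 hu
      rw [eS, h.fn q Y hq] at a2'
      have hpos : 0 < sgr b X := by
        rcases a0.eq_or_lt with h0 | h0
        · exfalso
          have hX : X = 0 := by
            rw [← sgu_sgr b X, ← h0]
            cases b <;> simp [sgr]
          have hY2 : Y < 2 := by
            rcases hq.le_two.eq_or_lt with h4 | h4
            · rw [h4, hn] at a3
              norm_num at a3
            · exact h4
          have h5 := crv_lo (P := P) T.il.castSucc hq h.rl hY2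
          rw [← h0] at a2'
          linarith
        · exact h0
      have m := h.nhn hq
      have m' := m.sg h.odd b
      rw [sgT_N hu hU hb] at m'
      refine ⟨_, _, ?_, ?_, seg_last hs.pinK h.il h.rl hq k1 k3 hpos a2' (h.sKn q Y hq),
        seg_last hs.pinL h.il h.rl hq k1 k3 hpos a2' (h.sXn q Y hq)⟩
      · rw [← sgb_mul, ← sgb_mul]
        exact m'.tK
      · rw [← sgb_mul, ← sgb_mul]
        exact m'.tL
    · have hn : U.nq = 1 := by rcases uT_iff U with ⟨-, e2, -⟩ | ⟨e1, -, -⟩ <;> simp_all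
      have ec : cuR U Y = c1n Y := by unfold cuR c1n; rw [hn]
      have eS : T.S U q = T.Sf q := by unfold STab.S; rw [hu]; rfl
      rw [ec, eS]
      have a1' := a1 hu
      rw [eS, h.f0 q Y hq] at a1'
      rw [hn] at a3
      have hpos : 0 < sgr b X := by
        rcases a0.eq_or_lt with h0 | h0
        · exfalso
          have hX : X = 0 := by
            rw [← sgu_sgr b X, ← h0]
            cases b <;> simp [sgr]
          rw [hX] at k1
          unfold qqn at k1
          linarith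
        · exact h0
      have hon : OnC (0 : Fin (n + 1)) q Y := by
        refine ⟨hq, fun _ => ?_⟩
        by_contra hh
        have := off_sq (not_lt.1 hh)
        linarith
      have m' := (h.nh0 hon).sg h.odd b
      rw [sgT_O hu hU hb] at m'
      refine ⟨_, _, ?_, ?_, (seg_first hs.pinK h.i0 hq k1 k3 hpos a1' (h.sK0 q Y hon)).1,
        (seg_first hs.pinL h.i0 hq k1 k3 hpos a1' (h.sX0 q Y hon)).1⟩
      · rw [← sgb_mul, ← sgb_mul]
        exact m'.tK
      · rw [← sgb_mul, ← sgb_mul]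
        exact m'.tL
  · intro hu b a0 a1 a2 a3
    subst hu
    have hq2 : q = 2 := hU
    subst hq2
    have ec : cuR .u2 Y = c1n Y := by unfold cuR c1n; simp only [Ty.nq]
    have eS : T.S .u2 2 = T.Sf 2 := rfl
    rw [ec]
    rw [eS, h.f0 2 Y hq] at a2
    have hpos : 0 < sgr b X := by
      rcases a0.eq_or_lt with h0 | h0
      · exfalso
        have hX : X = 0 := by
          rw [← sgu_sgr b X, ← h0]
          cases b <;> simp [sgr]
        rw [hX] at k1
        unfold qqn at k1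
        linarith
      · exact h0
    have hon : OnC (0 : Fin (n + 1)) 2 Y := by
      refine ⟨hq, fun _ => ?_⟩
      by_contra hh
      have := off_sq (not_lt.1 hh)
      linarith
    have hc0 := c1n_nn Y
    have habs : |X| = sgr b X := by rw [← abs_sgr b X, abs_of_pos hpos]
    have hcX := (seg_first (s := (RK T.i0.succ 2 Y x - RK 0 2 Y x) /
      (crv P T.i0.succ 2 Y - c1n Y)) hs.pinK h.i0 hq k1 k3 hpos a2
      (fun hlt => div_mul_cancel₀ _ (sub_pos.2 hlt).ne')).2
    have hck : |c1n Y| ≤ T.V.k1.v := by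
      rw [abs_of_nonneg hc0]
      linarith
    have m := h.nh0 hon
    have e0 : RK 0 2 Y x = c1n Y * (1 - (Y - 1) * T.V.k0.v x) := by
      have := m.tK
      unfold TightK at this
      simp only [tyO, Gt, Ty.px, jq] at this
      rw [this, h.kn _ hck]
      push_cast
      ring
    have l0 : RL 0 2 Y x = c1n Y * T.V.m0.v x := by
      have g := m.ge
      have := m.tL.tF g.2.1 g.1
      simp only [tyO, Ty.la, Ty.lb, Ty.px] at this
      have hh := h.tn _ hck
      rw [this]
      linear_combination hh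
    have hkX := h.kn X (by rw [habs]; exact a1)
    have htX := h.tn X (by rw [habs]; exact a1)
    constructor
    · have m2 := (seg_first (s := 1 - (Y - 1) * T.V.k0.v x + T.V.RK.v Y x) hs.pinK h.i0 hq k1 k3
        hpos a2 (fun hlt => by
          rw [h.vK Y hq, e0]
          linear_combination h.rK Y hon hlt)).1
      rw [m2, e0, hkX]
      cases b
      · show -(c1n Y * _) + (X - -c1n Y) * _ = _ + (X - -c1n Y) * _
        ring
      · show c1n Y * _ + (X - c1n Y) * _ = _ + (X - c1n Y) * _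
        ring
    · have m2 := (seg_first (s := T.V.m0.v x + T.V.RX.v Y x) hs.pinL h.i0 hq k1 k3
        hpos a2 (fun hlt => by
          rw [h.vX Y hq, l0]
          linear_combination h.rX Y hon hlt)).1
      rw [m2, l0, htX]
      cases b
      · show -(c1n Y * _) + (X - -c1n Y) * _ = _ + (X - -c1n Y) * _
        ring
      · show c1n Y * _ + (X - c1n Y) * _ = _ + (X - c1n Y) * _
        ring
  · intro hu a1 a2 a3 a4
    subst hu
    have hq2 : q = 2 := hU
    subst hq2
    have eS : T.S .u2 2 = T.Sf 2 := rfl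
    rw [eS, h.f0 2 Y hq] at a2
    obtain ⟨fB, fX⟩ := h.flat Y hq a3 a4
    have hkX := h.kn X a1
    have htX := h.tn X a1
    have hc0 := c1n_nn Y
    -- the values on the first curve
    have hz : RK 0 2 Y x = c1n Y * (1 - (Y - 1) * T.V.k0.v x) ∧
        RL 0 2 Y x = c1n Y * T.V.m0.v x := by
      rcases lt_or_ge (h0 * Y) 1 with hlt | hge
      · have hon : OnC (0 : Fin (n + 1)) 2 Y := ⟨hq, fun _ => hlt⟩
        have hcX : c1n Y ≤ |X| := by
          unfold c1n
          rw [show |X| = √(X ^ 2) from (Real.sqrt_sq_eq_abs X).symm]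
          apply Real.sqrt_le_sqrt
          unfold qqn at k1
          linarith
        have hck : |c1n Y| ≤ T.V.k1.v := by
          rw [abs_of_nonneg hc0]
          linarith
        have m := h.nh0 hon
        constructor
        · have := m.tK
          unfold TightK at this
          simp only [tyO, Gt, Ty.px, jq] at this
          rw [this, h.kn _ hck]
          push_cast
          ring
        · have g := m.ge
          have := m.tL.tF g.2.1 g.1
          simp only [tyO, Ty.la, Ty.lb, Ty.px] at this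
          have hh := h.tn _ hck
          rw [this]
          linear_combination hh
      · rw [hs.pinK.one 2 Y hq hge, hs.pinL.one 2 Y hq hge, c1n_off hge]
        constructor <;> ring
    constructor
    · rw [seg_prop hs.pinK h.i0 hq k1 k3 a2 hz.1 (by rw [h.vK Y hq, fB]), hkX]
      ring
    · rw [seg_prop hs.pinL h.i0 hq k1 k3 a2 hz.2 (by rw [h.vX Y hq, fX]), htX]
      ring
  · intro hu a1 a2 a3
    subst hu
    have hq2 : q = 2 := hU
    subst hq2
    have eS : T.S .u2 2 = T.Sf 2 := rfl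
    rw [eS, h.f0 2 Y hq] at a2
    obtain ⟨b0, b1⟩ := h.yb
    have hge : 1 ≤ h0 * Y := by
      have h1 := h0_pos
      have h2 : 0 ≤ h0 * Y := mul_nonneg h1.le hq.nonneg
      have h3 : 1 ≤ (h0 * Y) ^ 2 := by
        rw [mul_pow, h0_sq]
        nlinarith
      nlinarith
    have hz := c1n_off hge
    refine ⟨?_, ?_, h.kn X a1, h.tn X a1⟩
    · exact seg_prop hs.pinK h.i0 hq k1 k3 a2 (by rw [hs.pinK.one 2 Y hq hge, hz]; ring)
        (h.vK Y hq)
    · exact seg_prop hs.pinL h.i0 hq k1 k3 a2 (by rw [hs.pinL.one 2 Y hq hge, hz]; ring)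
        (h.vX Y hq)
  · intro hu a1 a2
    subst hu
    have hq2 : q = 2 := hU
    subst hq2
    exact h.abk Y hq a1 a2
  · intro hu b a0 a2 a3
    subst hu
    have hq2 : q = 2 := hU
    subst hq2
    have ec : cuR .u2 Y = c1n Y := by unfold cuR c1n; simp only [Ty.nq]
    have eS : T.S .u2 2 = T.Sf 2 := rfl
    rw [ec, eS]
    rw [eS, h.f0 2 Y hq] at a2
    have hpos : 0 < sgr b X := by
      rcases a0.eq_or_lt with h0 | h0
      · exfalso
        have hX : X = 0 := by
          rw [← sgu_sgr b X, ← h0]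
          cases b <;> simp [sgr]
        rw [hX] at k1
        unfold qqn at k1
        linarith
      · exact h0
    have hon : OnC (0 : Fin (n + 1)) 2 Y := by
      refine ⟨hq, fun _ => ?_⟩
      by_contra hh
      have := off_sq (not_lt.1 hh)
      linarith
    have hc0 := c1n_nn Y
    have hY1 : 1 ≤ Y := hq.1
    have hc12 : |c1n Y| ≤ 1 / 2 := by
      have e := c1n_sq (y := Y) (by linarith)
      rw [abs_of_nonneg hc0]
      nlinarith
    have hodd := h.odd _ hc12
    have m := h.nh0 hon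
    have e0 : RK 0 2 Y x = c1n Y + (Y - 1) * T.D.kf.v (-c1n Y) x := by
      have := m.tK
      unfold TightK at this
      simp only [tyO, Gt, Ty.px, jq] at this
      rw [this]
      push_cast
      ring
    have l0 : RL 0 2 Y x = T.D.tF x (-c1n Y) - T.D.tF x (c1n Y) := by
      have g := m.ge
      have := m.tL.tF g.2.1 g.1
      simp only [tyO, Ty.la, Ty.lb, Ty.px] at this
      rw [this]
      ring
    constructor
    · have m2 := (seg_first (s := 1 + T.V.SM.v Y x) hs.pinK h.i0 hq k1 k3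
        hpos a2 (h.sM Y hon)).1
      rw [m2, e0]
      cases b
      · show -(c1n Y + _) + (X - -c1n Y) * _ = -c1n Y + (Y - 1) * T.D.kf.v (- -c1n Y) x +
          (X - -c1n Y) * _
        rw [neg_neg]
        linear_combination (-(Y - 1)) * hodd
      · rfl
    · have m2 := (seg_first (s := (T.Sf 2).SX.v Y x) hs.pinL h.i0 hq k1 k3
        hpos a2 (h.sX0 2 Y hon)).1
      rw [m2, l0]
      cases b
      · show -(_ - _) + (X - -c1n Y) * _ = T.D.tF x (- -c1n Y) - T.D.tF x (-c1n Y) +
          (X - -c1n Y) * _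
        rw [neg_neg]
        ring
      · rfl
  · intro hu a2 a3 a4
    subst hu
    have hq2 : q = 2 := hU
    subst hq2
    have eS : T.S .u2 2 = T.Sf 2 := rfl
    rw [eS, h.f0 2 Y hq] at a2
    obtain ⟨z1, y0, y1⟩ := h.yz
    obtain ⟨fB, fX⟩ := h.flat Y hq (z1.trans a3) a4
    have hc0 := c1n_nn Y
    -- the values on the first curve
    have hz : RK 0 2 Y x = c1n Y * (1 - (Y - 1) * T.V.k0.v x) ∧
        RL 0 2 Y x = c1n Y * T.V.m0.v x := by
      rcases lt_or_ge (h0 * Y) 1 with hlt | hge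
      · have hon : OnC (0 : Fin (n + 1)) 2 Y := ⟨hq, fun _ => hlt⟩
        have hck : |c1n Y| ≤ T.V.k1.v := by
          rw [abs_of_nonneg hc0]
          have e := c1n_sq (y := Y) (on_sq hq.nonneg hlt).le
          have := h.k1.1
          nlinarith
        have m := h.nh0 hon
        constructor
        · have := m.tK
          unfold TightK at this
          simp only [tyO, Gt, Ty.px, jq] at this
          rw [this, h.kn _ hck]
          push_cast
          ring
        · have g := m.ge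
          have := m.tL.tF g.2.1 g.1
          simp only [tyO, Ty.la, Ty.lb, Ty.px] at this
          have hh := h.tn _ hck
          rw [this]
          linear_combination hh
      · rw [hs.pinK.one 2 Y hq hge, hs.pinL.one 2 Y hq hge, c1n_off hge]
        constructor <;> ring
    constructor
    · rw [seg_prop hs.pinK h.i0 hq k1 k3 a2 hz.1 (by rw [h.vK Y hq, fB])]
    · rw [seg_prop hs.pinL h.i0 hq k1 k3 a2 hz.2 (by rw [h.vX Y hq, fX])]
      ring

end

end Pool.Agent.Strip051.PB
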