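import Pool.Agent.Strip051.PB.StripR
import Pool.Agent.Strip051.PB.Ngv

/-! # Unit strips: geometry

A side of length `1` or `√3` in a certain range of directions has a type `t`; the linear map
`P_t = (px, py)` takes it to the unit vector of the same lattice with direction in `[60, 120]`. All
three sides of a triangle with two sides of such lengths and the third nearly so have nearly the
same image. -/

namespace Pool.Agent.Strip051.PB

/-- Types: `u0`, `u0m`: length `1`, height at most `1`, abscissa positive, negative; `u2`: length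
`1`, height at least `1`; `s0`, `s0m`: length `√3`, height at most `1`; `s2`, `s2m`: length `√3`,
height at least `1`. -/
inductive Ty where
  | u0
  | u2
  | u0m
  | s0
  | s2
  | s0m
  | s2m
  deriving DecidableEq

namespace Ty

noncomputable def px (t : Ty) (X y : ℝ) : ℝ :=
  match t with
  | u0 => X / 2 - 3 / 4 * y
  | u2 => X
  | u0m => X / 2 + 3 / 4 * y
  | s0 => -(y / 2)
  | s2 => X / 2 - y / 4
  | s0m => y / 2
  | s2m => X / 2 + y / 4

noncomputable def py (t : Ty) (X y : ℝ) : ℝ :=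
  match t with
  | u0 => X + y / 2
  | u2 => y
  | u0m => y / 2 - X
  | s0 => 2 / 3 * X
  | s2 => X / 3 + y / 2
  | s0m => -(2 / 3 * X)
  | s2m => y / 2 - X / 3

noncomputable def ix (t : Ty) (X y : ℝ) : ℝ :=
  match t with
  | u0 => X / 2 + 3 / 4 * y
  | u2 => X
  | u0m => X / 2 - 3 / 4 * y
  | s0 => 3 / 2 * y
  | s2 => 3 / 2 * X + 3 / 4 * y
  | s0m => -(3 / 2 * y)
  | s2m => 3 / 2 * X - 3 / 4 * y

noncomputable def iy (t : Ty) (X y : ℝ) : ℝ :=
  match t with
  | u0 => y / 2 - X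
  | u2 => y
  | u0m => X + y / 2
  | s0 => -(2 * X)
  | s2 => 3 / 2 * y - X
  | s0m => 2 * X
  | s2m => X + 3 / 2 * y

/-- square of the length -/
noncomputable def nq (t : Ty) : ℝ :=
  match t with
  | u0 | u2 | u0m => 1
  | _ => 3

/-- level coefficients -/
noncomputable def la (t : Ty) : ℝ :=
  match t with
  | u0 => 1
  | u2 => 1
  | u0m => 0
  | s0 => 1
  | s2 => 2
  | s0m => -1
  | s2m => 1

noncomputable def lb (t : Ty) : ℝ :=
  match t with
  | u0 => 0
  | u2 => -1
  | u0m => -1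
  | s0 => 1
  | s2 => -1
  | s0m => -1
  | s2m => -2

/-- sign of the abscissa (`u2`: any) -/
noncomputable def sx (t : Ty) : ℝ :=
  match t with
  | u0 | u2 | s0 | s2 => 1
  | _ => -1

theorem px_ix (t : Ty) (a b : ℝ) : t.px (t.ix a b) (t.iy a b) = a := by
  cases t <;> simp only [px, ix, iy] <;> ring

theorem py_iy (t : Ty) (a b : ℝ) : t.py (t.ix a b) (t.iy a b) = b := by
  cases t <;> simp only [py, ix, iy] <;> ring

theorem ix_px (t : Ty) (a b : ℝ) : t.ix (t.px a b) (t.py a b) = a := by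
  cases t <;> simp only [px, py, ix] <;> ring

theorem iy_py (t : Ty) (a b : ℝ) : t.iy (t.px a b) (t.py a b) = b := by
  cases t <;> simp only [px, py, iy] <;> ring

theorem px_add (t : Ty) (a b c d N : ℝ) :
    t.px (a + N * c) (b + N * d) = t.px a b + N * t.px c d := by
  cases t <;> simp only [px] <;> ring

theorem py_add (t : Ty) (a b c d N : ℝ) :
    t.py (a + N * c) (b + N * d) = t.py a b + N * t.py c d := by
  cases t <;> simp only [py] <;> ring

theorem qq_p (t : Ty) (X y : ℝ) : qqn (t.px X y) (t.py X y) * t.nq = qqn X y := by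
  cases t <;> simp only [qqn, px, py, nq] <;> ring

theorem qq_i (t : Ty) (a b : ℝ) : qqn (t.ix a b) (t.iy a b) = qqn a b * t.nq := by
  cases t <;> simp only [qqn, ix, iy, nq] <;> ring

theorem nq_pos (t : Ty) : 0 < t.nq := by
  cases t <;> simp only [nq] <;> norm_num

theorem p_unit {t : Ty} {X y : ℝ} (h : qqn X y = t.nq) : qqn (t.px X y) (t.py X y) = 1 := by
  have h1 := qq_p t X y
  have h2 := nq_pos t
  rw [h] at h1
  have h3 : (qqn (t.px X y) (t.py X y) - 1) * t.nq = 0 := by linarith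
  rcases mul_eq_zero.1 h3 with h4 | h4
  · linarith
  · exact absurd h4 h2.ne'

end Ty

/-- sign of the first side in the third: `U = n + ε m` -/
noncomputable def eps (fam : Bool) : ℝ := cond fam 1 (-1)

/-- The instances: first node, second node, third side. -/
def okI (fam : Bool) (m n U : Ty) : Bool :=
  match fam, m, n, U with
  | true, .u0, .u0m, .u2 => true
  | true, .u0, .u2, .s2 => true
  | true, .u2, .u0m, .s2m => true
  | true, .u0, .s0m, .u0m => true
  | true, .s0, .u0m, .u0 => true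
  | false, .u0, .u2, .u0m => true
  | false, .u0, .s2, .u2 => true
  | false, .u2, .s2m, .u0m => true
  | false, .u0, .u0m, .s0m => true
  | false, .s0, .u0, .u0m => true
  | _, _, _, _ => false

theorem okI_cases {fam : Bool} {m n U : Ty} (h : okI fam m n U = true) {C : Prop}
    (h1 : fam = true → m = .u0 → n = .u0m → U = .u2 → C)
    (h2 : fam = true → m = .u0 → n = .u2 → U = .s2 → C)
    (h3 : fam = true → m = .u2 → n = .u0m → U = .s2m → C)
    (h4 : fam = true → m = .u0 → n = .s0m → U = .u0m → C)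
    (h5 : fam = true → m = .s0 → n = .u0m → U = .u0 → C)
    (h6 : fam = false → m = .u0 → n = .u2 → U = .u0m → C)
    (h7 : fam = false → m = .u0 → n = .s2 → U = .u2 → C)
    (h8 : fam = false → m = .u2 → n = .s2m → U = .u0m → C)
    (h9 : fam = false → m = .u0 → n = .u0m → U = .s0m → C)
    (h10 : fam = false → m = .s0 → n = .u0 → U = .u0m → C) : C := by
  cases fam <;> cases m <;> cases n <;> cases U <;> first
    | exact absurd h (by decide)
    | exact h1 rfl rfl rfl rfl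
    | exact h2 rfl rfl rfl rfl
    | exact h3 rfl rfl rfl rfl
    | exact h4 rfl rfl rfl rfl
    | exact h5 rfl rfl rfl rfl
    | exact h6 rfl rfl rfl rfl
    | exact h7 rfl rfl rfl rfl
    | exact h8 rfl rfl rfl rfl
    | exact h9 rfl rfl rfl rfl
    | exact h10 rfl rfl rfl rfl

section

variable {fam : Bool} {m n U : Ty}

theorem inst_x (h : okI fam m n U = true) (a b : ℝ) :
    U.ix a b = n.ix a b + eps fam * m.ix a b := by
  refine okI_cases h ?_ ?_ ?_ ?_ ?_ ?_ ?_ ?_ ?_ ?_ <;>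
  · rintro rfl rfl rfl rfl
    simp only [Ty.ix, eps, cond_true, cond_false]
    ring

theorem inst_y (h : okI fam m n U = true) (a b : ℝ) :
    U.iy a b = n.iy a b + eps fam * m.iy a b := by
  refine okI_cases h ?_ ?_ ?_ ?_ ?_ ?_ ?_ ?_ ?_ ?_ <;>
  · rintro rfl rfl rfl rfl
    simp only [Ty.iy, eps, cond_true, cond_false]
    ring

theorem inst_cross (h : okI fam m n U = true) (a b : ℝ) :
    m.ix a b * n.iy a b - n.ix a b * m.iy a b = qqn a b := by
  refine okI_cases h ?_ ?_ ?_ ?_ ?_ ?_ ?_ ?_ ?_ ?_ <;>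
  · rintro rfl rfl rfl rfl
    simp only [Ty.ix, Ty.iy, qqn]
    ring

/-- level relation: `l_m + l_n = l_U` in family A, `l_m + l_U = l_n` in family B -/
theorem inst_la (h : okI fam m n U = true) : U.la = n.la + eps fam * m.la := by
  refine okI_cases h ?_ ?_ ?_ ?_ ?_ ?_ ?_ ?_ ?_ ?_ <;>
  · rintro rfl rfl rfl rfl
    simp only [Ty.la, eps, cond_true, cond_false]
    norm_num

theorem inst_lb (h : okI fam m n U = true) : U.lb = n.lb + eps fam * m.lb := by
  refine okI_cases h ?_ ?_ ?_ ?_ ?_ ?_ ?_ ?_ ?_ ?_ <;>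
  · rintro rfl rfl rfl rfl
    simp only [Ty.lb, eps, cond_true, cond_false]
    norm_num

theorem eps_sq (fam : Bool) : eps fam * eps fam = 1 := by
  cases fam <;> simp [eps]

end

/-! ### The displacement of the second node -/

/-- sign of `q - |U|²` -/
noncomputable def sN (U : Ty) : ℝ := 2 - U.nq

theorem sN_sq (U : Ty) : sN U * sN U = 1 := by
  cases U <;> simp only [sN, Ty.nq] <;> norm_num

/-- The small parameter. -/
noncomputable def Nst (U : Ty) (q : ℝ) : ℝ := 16 / 3 * (sN U * (q - U.nq))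

theorem Nst_nonneg {U : Ty} {q : ℝ} (h1 : 1 ≤ q) (h3 : q ≤ 3) : 0 ≤ Nst U q := by
  unfold Nst sN
  cases U <;> simp only [Ty.nq] <;> linarith

/-- displacement divided by the small parameter, abscissa -/
noncomputable def Dx (fam : Bool) (U : Ty) (y y0 E1 : ℝ) : ℝ :=
  eps fam * sN U * (3 / 64 * (y + y0)) * E1

/-- displacement divided by the small parameter, height -/
noncomputable def Dy (fam : Bool) (U : Ty) (x x0 E1 : ℝ) : ℝ :=
  -(eps fam * sN U * (1 / 16 * (x + x0)) * E1)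

/-- excess divided by the small parameter -/
noncomputable def est (m n U : Ty) (q E1 : ℝ) : ℝ :=
  1 / 64 * (sN U * (2 * (m.nq + n.nq) - U.nq - q)) * E1

section

variable {fam : Bool} {m n U : Ty} {x1 y1 x2 y2 ex : ℝ}

theorem excess_strip (h : okI fam m n U = true) (h1 : qqn x1 y1 = m.nq) (h2 : qqn x2 y2 = n.nq)
    (hex : ex = (x1 * y2 - x2 * y1) / 2 - 1 / 2) (h0 : 1 + ex ≠ 0) {q : ℝ}
    (hq : q = qqn (x2 + eps fam * x1) (y2 + eps fam * y1)) :
    ex = Nst U q * est m n U q (1 + ex)⁻¹ := by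
  have hs := eps_sq fam
  have hN := sN_sq U
  have key : 12 * ex * (1 + ex) =
      (q - U.nq) * (2 * (m.nq + n.nq) - U.nq - q) := by
    have hd : q - m.nq - n.nq = 2 * eps fam * (x1 * x2 + 3 / 4 * (y1 * y2)) := by
      rw [hq, ← h1, ← h2]
      unfold qqn
      linear_combination (x1 ^ 2 + 3 / 4 * y1 ^ 2) * hs
    have hc : 4 * (m.nq * n.nq) = (q - m.nq - n.nq) ^ 2 + 3 * (2 * ex + 1) ^ 2 := by
      rw [hd, hex, ← h1, ← h2]
      unfold qqn
      linear_combination (-(4 * (x1 * x2 + 3 / 4 * (y1 * y2)) ^ 2)) * hs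
    have hu : 4 * (m.nq * n.nq) = (U.nq - m.nq - n.nq) ^ 2 + 3 := by
      refine okI_cases h ?_ ?_ ?_ ?_ ?_ ?_ ?_ ?_ ?_ ?_ <;>
      · rintro rfl rfl rfl rfl
        simp only [Ty.nq]
        norm_num
    linear_combination hu - hc
  have e : Nst U q * est m n U q (1 + ex)⁻¹ =
      (sN U * sN U) * ((q - U.nq) * (2 * (m.nq + n.nq) - U.nq - q)) * (1 + ex)⁻¹ / 12 := by
    unfold Nst est
    ring
  rw [e, hN, ← key]
  field_simp

theorem disp_strip (h : okI fam m n U = true) (h1 : qqn x1 y1 = m.nq) (h2 : qqn x2 y2 = n.nq)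
    (hex : ex = (x1 * y2 - x2 * y1) / 2 - 1 / 2) (h0 : 1 + ex ≠ 0) {q x0 y0 : ℝ}
    (hq : q = qqn (x2 + eps fam * x1) (y2 + eps fam * y1))
    (hx0 : x0 = n.ix (m.px x1 y1) (m.py x1 y1)) (hy0 : y0 = n.iy (m.px x1 y1) (m.py x1 y1)) :
    x2 = x0 + Nst U q * Dx fam U y2 y0 (1 + ex)⁻¹ ∧
      y2 = y0 + Nst U q * Dy fam U x2 x0 (1 + ex)⁻¹ := by
  have hs := eps_sq fam
  have hN := sN_sq U
  have hp := Ty.p_unit h1
  have hc : x1 * y0 - x0 * y1 = 1 := by
    have := inst_cross h (m.px x1 y1) (m.py x1 y1)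
    rw [Ty.ix_px, Ty.iy_py, hp] at this
    rw [hx0, hy0]
    exact this
  have hn0 : qqn x0 y0 = n.nq := by
    rw [hx0, hy0, Ty.qq_i, hp, one_mul]
  have hU0 : U.nq = qqn (x0 + eps fam * x1) (y0 + eps fam * y1) := by
    have a1 := inst_x h (m.px x1 y1) (m.py x1 y1)
    have a2 := inst_y h (m.px x1 y1) (m.py x1 y1)
    have a3 := Ty.qq_i U (m.px x1 y1) (m.py x1 y1)
    rw [a1, a2, hp, one_mul, Ty.ix_px, Ty.iy_py, ← hx0, ← hy0] at a3
    exact a3.symm
  have hd : q - U.nq = 2 * eps fam * (x1 * (x2 - x0) + 3 / 4 * (y1 * (y2 - y0))) := by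
    rw [hq, hU0]
    unfold qqn at h2 hn0 ⊢
    linear_combination h2 - hn0
  have hcc : 2 * (1 + ex) = x1 * (y2 + y0) - (x2 + x0) * y1 := by
    rw [hex]
    linear_combination -hc
  have hm : (x2 - x0) * (x2 + x0) = -(3 / 4 * ((y2 - y0) * (y2 + y0))) := by
    unfold qqn at h2 hn0
    linear_combination h2 - hn0
  have k1 : (x2 - x0) * (2 * (1 + ex)) = (y2 + y0) * (eps fam * (q - U.nq) / 2) := by
    rw [hcc, hd]
    linear_combination (-y1) * hm - (y2 + y0) * (x1 * (x2 - x0) + 3 / 4 * (y1 * (y2 - y0))) * hs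
  have k2 : (y2 - y0) * (2 * (1 + ex)) = -(4 / 3 * (x2 + x0) * (eps fam * (q - U.nq) / 2)) := by
    rw [hcc, hd]
    linear_combination (4 / 3 * x1) * hm +
      (4 / 3 * (x2 + x0)) * (x1 * (x2 - x0) + 3 / 4 * (y1 * (y2 - y0))) * hs
  have e1 : Nst U q * Dx fam U y2 y0 (1 + ex)⁻¹ =
      (sN U * sN U) * ((y2 + y0) * (eps fam * (q - U.nq) / 2)) * (1 + ex)⁻¹ / 2 := by
    unfold Nst Dx
    ring
  have e2 : Nst U q * Dy fam U x2 x0 (1 + ex)⁻¹ =
      (sN U * sN U) * (-(4 / 3 * (x2 + x0) * (eps fam * (q - U.nq) / 2))) * (1 + ex)⁻¹ / 2 := by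
    unfold Nst Dy
    ring
  rw [e1, e2, hN, ← k1, ← k2]
  constructor <;> field_simp <;> ring

end

/-! ### Values on the tight sides -/

/-- `τ / (p_y - 1)`, `X` the absolute value of the abscissa -/
noncomputable def Gt (t : Ty) (q : ℕ) (X y : ℝ) : ℝ :=
  match t, q with
  | .u0, 0 | .u0m, 0 => 2 * (1 + X) * (1 + X - 3 / 2 * y)⁻¹
  | .u0, _ | .u0m, _ => -((1 + 2 * X) * (1 + 3 / 2 * y - X)⁻¹)
  | .s0, 0 | .s0m, 0 => y * (2 * X + 3) * ((1 - y) * (1 + y))⁻¹
  | .s0, _ | .s0m, _ => -((2 * X + 3) * (1 + y)⁻¹)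
  | .s2, 2 | .s2m, 2 => (X + 3 - 3 / 2 * y) * (2 - y)⁻¹
  | .s2, _ | .s2m, _ => -((X + 3 - 3 / 2 * y) * (y - 1)⁻¹)
  | .u2, _ => 1

/-- the quarters in which a type occurs -/
def Ty.inq (t : Ty) (q : ℕ) : Prop :=
  match t with
  | .u0 | .u0m | .s0 | .s0m => q = 0 ∨ q = 1
  | .u2 => q = 2
  | .s2 | .s2m => q = 2 ∨ q = 3

theorem Gt_mul {t : Ty} {q : ℕ} {X y : ℝ} (ht : t.inq q) (hy : InQ q y)
    (hX : 0 ≤ X) (h : qqn X y = t.nq) : Gt t q X y * (t.py (t.sx * X) y - 1) = y - jq q := by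
  unfold qqn at h
  cases t <;> simp only [Ty.nq] at h
  case u2 =>
    subst ht
    simp only [Gt, Ty.py, jq]
    push_cast
    ring
  case u0 | u0m =>
    rcases ht with rfl | rfl
    · obtain ⟨g1, g2⟩ := hy
      have hne : 1 + X - 3 / 2 * y ≠ 0 := by nlinarith
      have hi := inv_mul_cancel₀ hne
      simp only [Gt, Ty.py, Ty.sx, jq]
      push_cast
      linear_combination (2 * (1 + X - 3 / 2 * y)⁻¹) * h + y * hi
    · obtain ⟨g1, g2⟩ := hy
      have hne : 1 + 3 / 2 * y - X ≠ 0 := by nlinarith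
      have hi := inv_mul_cancel₀ hne
      simp only [Gt, Ty.py, Ty.sx, jq]
      push_cast
      linear_combination (-2 * (1 + 3 / 2 * y - X)⁻¹) * h + (y - 1) * hi
  case s0 | s0m =>
    rcases ht with rfl | rfl
    · obtain ⟨g1, g2⟩ := hy
      have hne : (1 - y) * (1 + y) ≠ 0 := mul_ne_zero (by linarith) (by linarith)
      have hi := inv_mul_cancel₀ hne
      simp only [Gt, Ty.py, Ty.sx, jq]
      push_cast
      linear_combination (4 / 3 * y * ((1 - y) * (1 + y))⁻¹) * h + y * hi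
    · obtain ⟨g1, g2⟩ := hy
      have hne : 1 + y ≠ 0 := by linarith
      have hi := inv_mul_cancel₀ hne
      simp only [Gt, Ty.py, Ty.sx, jq]
      push_cast
      linear_combination (-4 / 3 * (1 + y)⁻¹) * h + (y - 1) * hi
  case s2 | s2m =>
    rcases ht with rfl | rfl
    · obtain ⟨g1, g2⟩ := hy
      have hne : 2 - y ≠ 0 := by linarith
      have hi := inv_mul_cancel₀ hne
      simp only [Gt, Ty.py, Ty.sx, jq]
      push_cast
      linear_combination (1 / 3 * (2 - y)⁻¹) * h + (y - 1) * hi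
    · obtain ⟨g1, g2⟩ := hy
      have hne : y - 1 ≠ 0 := by linarith
      have hi := inv_mul_cancel₀ hne
      simp only [Gt, Ty.py, Ty.sx, jq]
      push_cast
      linear_combination (-1 / 3 * (y - 1)⁻¹) * h + (y - 2) * hi

/-- A value in tight form. -/
def TightK (t : Ty) (q : ℕ) (kc : ℝ → ℝ) (X y R : ℝ) : Prop :=
  R = Gt t q |X| y * t.px X y + (y - jq q) * kc (-t.px X y)

/-- A level value in tight form. -/
def TightL (t : Ty) (tx : ℝ → ℝ → ℝ) (X y l : ℝ) : Prop :=
  l = t.la * tx (-t.px X y) (3 / 4 * t.py X y + t.px X y / 2) +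
    t.lb * tx (t.px X y) (3 / 4 * t.py X y - t.px X y / 2)

/-- The value of a row at a displaced point. -/
theorem row_val {G τ κ0 a b N δx δy kc kn dk : ℝ} (hG : G * (b + N * δy - 1) = τ)
    (hk : (b - 1) * κ0 = a) (hd : kn - kc = N * dk) :
    G * (a + N * δx) + τ * kn = τ * (κ0 + kc) + N * (G * (δx - δy * κ0) + τ * dk) := by
  linear_combination κ0 * hG - G * hk + τ * hd

end Pool.Agent.Strip051.PB
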