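import Pool.Agent.Strip051.PB.StripE

/-! # Unit strips: the test with a normalised factor of the correction

The same test as `strT` for third sides which are anchored at the tight curve; the factor `gtT` is
normalised before it is multiplied. The statement is the statement `StrP` of `strT`. -/

namespace Pool.Agent.Strip051.PB

open Pool.Agent.StripNear Pool.Agent.StripSquare Pool.Agent.Strip051.Sweep
open Pool.Agent.Strip051.LC

/-! ### Packed side -/

/-- value of a row, the factor of the correction normalised -/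
noncomputable def rcN (t : Ty) (q X y core τ kd : ℕ) : ℕ :=
  Ty.rec (motive := fun _ => ℕ) (padd (pmul core (pnorm (gtT t q X y))) (pmul τ kd))
    (padd core (pmul τ kd)) (padd (pmul core (pnorm (gtT t q X y))) (pmul τ kd))
    (padd (pmul core (pnorm (gtT t q X y))) (pmul τ kd))
    (padd (pmul core (pnorm (gtT t q X y))) (pmul τ kd))
    (padd (pmul core (pnorm (gtT t q X y))) (pmul τ kd))
    (padd (pmul core (pnorm (gtT t q X y))) (pmul τ kd)) t

/-- third side anchored at the tight curve at the same height; `b` is the sign of the abscissa,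
`fin` gets kernel value and level value, divided -/
noncomputable def canN (D : SDat) (U : Ty) (b : Bool) (S : Sg) (q X Y τ px py k0 dx dy x : ℕ)
    (fin : ℕ → ℕ → Bool) : Bool :=
  frc (sg b X) fun aX => frc (cuT U Y) fun c => frc (S.f.t Y) fun f =>
  band (pnn aX) (band (pnn (sl (uT U) (psub f aX) (psub aX f)))
    (band (ppos (psub (pnc (nT U)) (t34 (psq Y)))) (band (ppos (padd aX c))
    (frc (sg (cond (uT U) b (!b)) (pscale 3 16 (pinv (padd aX c)))) fun xi =>
    frc (pnorm (axT U (pxT U dx dy) xi)) fun ex => frc (pnorm (ayT U (pyT U dx dy) xi)) fun ey =>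
    frc (pnorm (pxT U (sg b c) Y)) fun cx => frc (pnorm (pyT U (sg b c) Y)) fun cy =>
    fin (padd (rcN U q c Y (pnorm (psub ex (pmul ey k0))) τ
        (pnorm (kcd D.KC (pneg cx) (pneg px) (pneg ex) x))) (pmul xi (S.SK.t Y x)))
      (padd (lvT D.KC D.kf D.TX U cx cy px py ex ey x) (pmul xi (S.SX.t Y x)))))))

/-- the test with the forms of `x`, of the heights `A`, `B` and abscissae `X1`, `X2` of the nodes and
of the third side; `i` is the payload of the hint -/
noncomputable def stpN (D : SDat) (fam : Bool) (m n U : Ty) (cn : Con) (a b c : ℕ) (S : Sg)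
    (i x A B X1 X2 X Y : ℕ) : Bool :=
  frc (psub (phf (psub (pmul X1 B) (pmul X2 A))) (phn 1)) fun ex =>
  frc (pnorm (pxT m X1 A)) fun px => frc (pnorm (pyT m X1 A)) fun py =>
  band (ppos (padd pone ex)) (band (ppos (psub py pone))
    (frc (pinv (padd pone ex)) fun E1 => frc (pmul px (pinv (psub py pone))) fun k0 =>
    frc (pnorm (sg (cond (uT U) fam (!fam)) (pmul (pscale 3 64 (padd B (iyT n px py))) E1)))
      fun dx =>
    frc (pnorm (sg (cond (uT U) (!fam) fam) (pmul (pscale 1 16 (padd X2 (ixT n px py))) E1)))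
      fun dy =>
    frc (qqT X Y) fun q =>
    frc (pnorm (pxT n X2 B)) fun nx => frc (pnorm (pyT n X2 B)) fun ny =>
    frc (pnorm (pxT n dx dy)) fun ex' => frc (pnorm (pyT n dx dy)) fun ey' =>
    frc (pnorm (rcN n (cond fam b c) (pabs X2) B (pnorm (psub ex' (pmul ey' k0)))
      (dj (jq (cond fam b c)) B) (pnorm (kcd D.KC (pneg nx) (pneg px) (pneg ex') x))))
      fun rn =>
    frc (lvT D.KC D.kf D.TX n nx ny px py ex' ey' x) fun ln =>
    frc (dj (jq (cond fam c b)) Y) fun τ =>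
    canN D U (bT U) S (cond fam c b) X Y τ px py k0
      dx dy x fun rU lU => frc (pnorm rU) fun rU => frc lU fun lU =>
      fiT D.kh fam cn a b c (Nat.shiftRight i 4) x A (sl fam B Y) (sl fam Y B) (esuT m n U q E1)
        rn ln rU lU))

/-- the test with the nodes -/
noncomputable def strN (D : SDat) (fam s1 s2 : Bool) (m n U : Ty) (cn : Con) (a b c : ℕ) (S : Sg)
    (n1 n2 : Node) (i P Q x : ℕ) : Bool :=
  (fun A B X1 X2 => frc (pnorm (th fam X1 X2)) fun X => frc (pnorm (th fam A B)) fun Y =>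
    stpN D fam m n U cn a b c S i x A B X1 X2 X Y)
  (n1.Y.t P) (n2.Y.t Q) (sg s1 (n1.X.t P)) (sg s2 (n2.X.t Q))

/-! ### Soundness -/

attribute [local irreducible] padd psub pneg pmul psq pinv psqrt psqrtg pabs pps pmax pmin pphi plam
  pcase phf pnat prat pscale pnorm pdc pnc pone ppos pnn Enc

theorem enc_rcN {E : Pt} {t : Ty} {q X Y C T K : ℕ} {x y c τ k : ℝ} (hq : t.inq q)
    (hX : Enc E X x) (hY : Enc E Y y) (hC : Enc E C c) (hT : Enc E T τ) (hK : Enc E K k) :
    Enc E (rcN t q X Y C T K) (Gt t q x y * c + τ * k) := by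
  have h := enc_cast (enc_add (enc_mul hC (enc_norm (enc_gtT hq hX hY))) (enc_mul hT hK))
    (show c * Gt t q x y + τ * k = Gt t q x y * c + τ * k by ring)
  cases t
  · exact h
  · exact enc_cast (enc_add hC (enc_mul hT hK)) (by simp only [Gt]; ring)
  all_goals exact h

section

variable {E : Pt} {D : SDat} {U : Ty} {S : Sg} {V : Vt} {q : ℕ} {b : Bool} {x X Y KU LU px py κ0
  dx dy N : ℝ} {x' X' Y' T' px' py' k' dx' dy' : ℕ} {fin : ℕ → ℕ → Bool}

theorem canN_sound (hD : D.Ok x) (hx : Enc E x' x) (hX : Enc E X' X) (hY : Enc E Y' Y)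
    (hT : Enc E T' (Y - jq q)) (h3 : Enc E px' px) (h4 : Enc E py' py) (hk : Enc E k' κ0)
    (h5 : Enc E dx' dx) (h6 : Enc E dy' dy) (H : UH D U S V q x X Y KU LU)
    (hb : U ≠ .u2 → b = bT U) (hp : qqn px py = 1) (hp1 : 1 ≤ py) (hκ : (py - 1) * κ0 = px)
    (g1 : U.px X Y = px + N * U.px dx dy) (g2 : U.py X Y = py + N * U.py dx dy)
    (g3 : qqn X Y - U.nq = 3 / 16 * sN U * N)
    (h : canN D U b S q X' Y' T' px' py' k' dx' dy' x' fin = true) :
    ThR E D U q x Y px κ0 N KU LU fin := by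
  unfold canN at h
  simp only [frc_eq] at h
  obtain ⟨c1, h⟩ := band_true h
  obtain ⟨c2, h⟩ := band_true h
  obtain ⟨c3, h⟩ := band_true h
  obtain ⟨c4, h⟩ := band_true h
  have haX := enc_sg b hX
  have hc := enc_cuT U hY
  have hf := S.f.enc hY
  have a1 := pnn_sound haX c1
  have a3 := ppos_sound (enc_sub (enc_pnc E (nT U)) (enc_t34 (enc_sq hY))) c3
  rw [nT_eq] at a3
  have a4 := ppos_sound (enc_add haX hc) c4
  have hcsq : cuR U Y ^ 2 = U.nq - 3 / 4 * Y ^ 2 := Real.sq_sqrt a3.le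
  have hc0 : 0 ≤ cuR U Y := Real.sqrt_nonneg _
  have hfin := h
  set c := cuR U Y with hcdef
  -- the displacement along the abscissa
  have hxi : Enc E (sg (cond (uT U) b (!b)) (pscale 3 16 (pinv (padd (sg b X') (cuT U Y')))))
      (sgr b (sN U * (3 / 16 * (sgr b X + c)⁻¹))) := by
    have e := enc_sg (cond (uT U) b (!b)) (enc_scale 3 16 (enc_inv (enc_add haX hc)))
    refine enc_cast e ?_
    rcases uT_iff U with ⟨e1, -, e2⟩ | ⟨e1, -, e2⟩ <;> rw [e1, e2] <;> cases b <;>
      simp [sgr]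
  set ξ := sgr b (sN U * (3 / 16 * (sgr b X + c)⁻¹)) with hξ
  have hNξ : X - sgr b c = N * ξ := by
    have hi := inv_mul_cancel₀ a4.ne'
    have e1 : (sgr b X - c) * (sgr b X + c) = 3 / 16 * sN U * N := by
      have := sgu_sq b X
      unfold qqn at g3
      linear_combination this - hcsq + g3
    have e2 : sgr b X - c = N * (sN U * (3 / 16 * (sgr b X + c)⁻¹)) := by
      linear_combination (sgr b X + c)⁻¹ * e1 - (sgr b X - c) * hi
    have e3 : X - sgr b c = sgr b (sgr b X - c) := sgr_sub_c b X c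
    rw [e3, e2, hξ]
    exact sgu_mul b _ _
  obtain ⟨Kc, Lc, tK, tL, eK, eL⟩ := H.can b hb a1 (fun hu => by
      have := pnn_sound (enc_sl (uT U) (enc_sub hf haX) (enc_sub haX hf)) c2
      rw [hu] at this
      simp only [cond_true] at this
      linarith) (fun hu => by
      have := pnn_sound (enc_sl (uT U) (enc_sub hf haX) (enc_sub haX hf)) c2
      rw [hu] at this
      simp only [cond_false] at this
      linarith) a3
  rw [← hcdef] at tK tL eK eL
  -- the point on the curve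
  have hq1 : qqn (sgr b c) Y = U.nq := by
    unfold qqn
    rw [sgu_sq, hcsq]
    ring
  have hq2 : qqn c Y = U.nq := by
    unfold qqn
    rw [hcsq]
    ring
  have habs : |sgr b c| = c := by rw [abs_sgr, abs_of_nonneg hc0]
  have hsx : U ≠ .u2 → sgr b c = U.sx * |sgr b c| := fun hu => by
    rw [habs, hb hu, sgr_bT]
  have hpy := Ty.py_sg (y := Y) hsx
  rw [habs] at hpy
  have hge : 1 ≤ U.py (sgr b c) Y := by
    rw [hpy]
    exact Ty.py_ge H.inq H.iny hc0 hq2
  have hun := Ty.p_unit hq1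
  have hG := Gt_mul H.inq H.iny hc0 hq2
  rw [← hpy] at hG
  have gx : U.px (sgr b c) Y - px = N * (U.px dx dy - U.px ξ 0) := by
    have e : U.px X Y = U.px (sgr b c) Y + N * U.px ξ 0 := by
      rw [← Ty.px_add, ← hNξ]
      congr 1 <;> ring
    rw [e] at g1
    linear_combination g1
  have gy : U.py (sgr b c) Y - py = N * (U.py dx dy - U.py ξ 0) := by
    have e : U.py X Y = U.py (sgr b c) Y + N * U.py ξ 0 := by
      rw [← Ty.py_add, ← hNξ]
      congr 1 <;> ring
    rw [e] at g2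
    linear_combination g2
  have h7 := enc_norm (enc_axT U (enc_pxT U h5 h6) hxi)
  have h8 := enc_norm (enc_ayT U (enc_pyT U h5 h6) hxi)
  have h9 := enc_norm (enc_pxT U (enc_sg b hc) hY)
  have h10 := enc_norm (enc_pyT U (enc_sg b hc) hY)
  obtain ⟨d0, d1, d2⟩ := unit_cT hun hge
  obtain ⟨p0, p1, p2⟩ := unit_cT hp hp1
  obtain ⟨dk, hdk, ek⟩ := kcd_sound hx D.KC hD.kok (enc_neg h9) (enc_neg h3) (enc_neg h7)
    (μ := N) (by linear_combination -gx)
  rw [← hD.kf _ (by rwa [abs_neg]), ← hD.kf _ (by rwa [abs_neg])] at ek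
  obtain ⟨e, he, el⟩ := lvT_sound hD hx U h9 h10 h3 h4 h7 h8 hun hge hp hp1 gx gy
  have hL := tL.tF hun hge
  have hG' : Gt U q c Y * (py + N * (U.py dx dy - U.py ξ 0) - 1) = Y - jq q := by
    rw [← hG]
    linear_combination (-(Gt U q c Y)) * gy
  have hrow := row_val (δx := U.px dx dy - U.px ξ 0) hG' hκ ek
  refine ⟨_, _, _, _, enc_add (enc_rcN H.inq hc hY (enc_norm (enc_sub h7 (enc_mul h8 hk))) hT
    (enc_norm hdk))
    (enc_mul hxi (S.SK.enc hY hx)), enc_add he (enc_mul hxi (S.SX.enc hY hx)), ?_, ?_, hfin⟩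
  · rw [eK, hNξ]
    unfold TightK at tK
    rw [habs] at tK
    rw [tK]
    have gx' : U.px (sgr b c) Y = px + N * (U.px dx dy - U.px ξ 0) := by linear_combination gx
    rw [gx']
    rw [gx'] at hrow
    linear_combination hrow
  · rw [eL, hNξ, hL]
    linear_combination el

end

section

variable {E : Pt} {D : SDat} {fam : Bool} {m n U : Ty} {S : Sg} {V : Vt} {cn : Con}
  {a b c i x' A' B' X1' X2' X' Y' : ℕ} {x y1 y2 x1 x2 X Y Km Lm Kn Ln KU LU ex : ℝ}

theorem stpNn_sound (hD : D.Ok x) (hI : okI fam m n U = true) (hc : con a b c = some cn)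
    (hx : Enc E x' x) (hA : Enc E A' y1) (hB : Enc E B' y2) (hX1 : Enc E X1' x1)
    (hX2 : Enc E X2' x2) (hX : Enc E X' X) (hY : Enc E Y' Y) (eX : X = x2 + eps fam * x1)
    (eY : Y = y2 + eps fam * y1) (hex : ex = (x1 * y2 - x2 * y1) / 2 - 1 / 2)
    (Hm : NH D m a x x1 y1 Km Lm) (Hn : NH D n (cond fam b c) x x2 y2 Kn Ln)
    (HU : UH D U S V (cond fam c b) x X Y KU LU) (q1 : 1 ≤ qqn X Y) (q3 : qqn X Y ≤ 3)
    (h : stpN D fam m n U cn a b c S i x' A' B' X1' X2' X' Y' = true) :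
    ∃ γ, 0 ≤ slc cn (levF ex Lm (cond fam Ln LU) (cond fam LU Ln)) (D.kh.v x) x (y1 - jq a)
      (cond fam y2 Y - jq b) (y1 + cond fam y2 Y - jq c) Km (cond fam Kn KU) (cond fam KU Kn)
      γ := by
  unfold stpN at h
  simp only [frc_eq] at h
  obtain ⟨c1, h⟩ := band_true h
  obtain ⟨c2, h⟩ := band_true h
  have hexE : Enc E (psub (phf (psub (pmul X1' B') (pmul X2' A'))) (phn 1)) ex := by
    refine enc_cast (enc_sub (enc_half (enc_sub (enc_mul hX1 hB) (enc_mul hX2 hA)))
      (enc_phn E 1)) ?_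
    rw [hex]
    push_cast
    ring
  have hpx := enc_norm (enc_pxT m hX1 hA)
  have hpy := enc_norm (enc_pyT m hX1 hA)
  have a1 := ppos_sound (enc_add (enc_one E) hexE) c1
  have a2 := ppos_sound (enc_sub hpy (enc_one E)) c2
  obtain ⟨m1, m2, m3⟩ := Hm.ge
  obtain ⟨n1, n2, n3⟩ := Hn.ge
  set px := m.px x1 y1 with hpxd
  set py := m.py x1 y1 with hpyd
  have hE1 := enc_inv (enc_add (enc_one E) hexE)
  have hk := enc_mul hpx (enc_inv (enc_sub hpy (enc_one E)))
  set κ0 := px * (py - 1)⁻¹ with hκd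
  have hκ : (py - 1) * κ0 = px := by
    rw [hκd]
    have := inv_mul_cancel₀ a2.ne'
    linear_combination px * this
  have hn0x := enc_ixT n hpx hpy
  have hn0y := enc_iyT n hpx hpy
  obtain ⟨k1, k2⟩ := disp_strip (q := qqn X Y) (x0 := n.ix px py) (y0 := n.iy px py) hI Hm.len
    Hn.len hex a1.ne' (by rw [eX, eY]) rfl rfl
  set N := Nst U (qqn X Y) with hNd
  have hN0 : 0 ≤ N := Nst_nonneg q1 q3
  set dx := Dx fam U y2 (n.iy px py) (1 + ex)⁻¹ with hdxd
  set dy := Dy fam U x2 (n.ix px py) (1 + ex)⁻¹ with hdyd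
  have h5 : Enc E (pnorm (sg (cond (uT U) fam (!fam)) (pmul (pscale 3 64 (padd B'
      (iyT n (pnorm (pxT m X1' A')) (pnorm (pyT m X1' A'))))) (pinv (padd pone
      (psub (phf (psub (pmul X1' B') (pmul X2' A'))) (phn 1))))))) dx := by
    refine enc_norm (enc_cast (enc_sg _ (enc_mul (enc_scale 3 64 (enc_add hB hn0y)) hE1)) ?_)
    rw [hdxd]
    unfold Dx
    rcases uT_iff U with ⟨e1, -, e3⟩ | ⟨e1, -, e3⟩ <;> rw [e1, e3] <;> cases fam <;>
      simp [sgr, eps]
  have h6 : Enc E (pnorm (sg (cond (uT U) (!fam) fam) (pmul (pscale 1 16 (padd X2'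
      (ixT n (pnorm (pxT m X1' A')) (pnorm (pyT m X1' A'))))) (pinv (padd pone
      (psub (phf (psub (pmul X1' B') (pmul X2' A'))) (phn 1))))))) dy := by
    refine enc_norm (enc_cast (enc_sg _ (enc_mul (enc_scale 1 16 (enc_add hX2 hn0x)) hE1)) ?_)
    rw [hdyd]
    unfold Dy
    rcases uT_iff U with ⟨e1, -, e3⟩ | ⟨e1, -, e3⟩ <;> rw [e1, e3] <;> cases fam <;>
      simp [sgr, eps]
  have hq := enc_qqT hX hY
  -- the second node
  have u1 : n.px x2 y2 = px + N * n.px dx dy := by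
    conv_lhs => rw [k1, k2]
    rw [Ty.px_add, Ty.px_ix]
  have u2 : n.py x2 y2 = py + N * n.py dx dy := by
    conv_lhs => rw [k1, k2]
    rw [Ty.py_add, Ty.py_iy]
  have v1 : U.px X Y = px + N * U.px dx dy := by
    have e1 : X = U.ix px py + N * dx := by
      rw [eX, inst_x hI, k1, hpxd, hpyd, Ty.ix_px]
      ring
    have e2 : Y = U.iy px py + N * dy := by
      rw [eY, inst_y hI, k2, hpxd, hpyd, Ty.iy_py]
      ring
    rw [e1, e2, Ty.px_add, Ty.px_ix]
  have v2 : U.py X Y = py + N * U.py dx dy := by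
    have e1 : X = U.ix px py + N * dx := by
      rw [eX, inst_x hI, k1, hpxd, hpyd, Ty.ix_px]
      ring
    have e2 : Y = U.iy px py + N * dy := by
      rw [eY, inst_y hI, k2, hpxd, hpyd, Ty.iy_py]
      ring
    rw [e1, e2, Ty.py_add, Ty.py_iy]
  have v3 : qqn X Y - U.nq = 3 / 16 * sN U * N := by
    rw [hNd]
    unfold Nst
    linear_combination (-(qqn X Y - U.nq)) * sN_sq U
  have w1 := enc_norm (enc_pxT n hX2 hB)
  have w2 := enc_norm (enc_pyT n hX2 hB)
  have w3 := enc_norm (enc_pxT n h5 h6)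
  have w4 := enc_norm (enc_pyT n h5 h6)
  have hnt : Enc E (dj (jq (cond fam b c)) B') (y2 - jq (cond fam b c)) := enc_dj _ hB
  have ht : Enc E (dj (jq (cond fam c b)) Y') (Y - jq (cond fam c b)) := enc_dj _ hY
  obtain ⟨p0, -, -⟩ := unit_cT m2 m1
  obtain ⟨p0', -, -⟩ := unit_cT n2 n1
  obtain ⟨dk, hdk, ek⟩ := kcd_sound hx D.KC hD.kok (enc_neg w1) (enc_neg hpx) (enc_neg w3)
    (μ := N) (by rw [u1]; ring)
  rw [← hD.kf _ (by rwa [abs_neg]), ← hD.kf _ (by rwa [abs_neg])] at ek
  have hrn := enc_norm (enc_rcN Hn.inq (enc_abs hX2) hB (enc_norm (enc_sub w3 (enc_mul w4 hk)))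
    hnt (enc_norm hdk))
  obtain ⟨en, hen, eln⟩ := lvT_sound hD hx n w1 w2 hpx hpy w3 w4 n2 n1 m2 m1
    (N := N) (by rw [u1]; ring) (by rw [u2]; ring)
  obtain ⟨R, L, r, l, hR, hL, eR, eL, hf⟩ := canN_sound hD hx hX hY ht hpx hpy hk h5 h6 HU
    (fun _ => rfl) m2 m1 hκ v1 v2 v3 h
  -- the rows
  have G1 : Gt n (cond fam b c) |x2| y2 * (py + N * n.py dx dy - 1) = y2 - jq (cond fam b c) := by
    rw [← u2]
    exact n3
  have rown := row_val (δx := n.px dx dy) G1 hκ ek
  have eKn : Kn = (y2 - jq (cond fam b c)) * (κ0 + D.kf.v (-px) x) +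
      N * (Gt n (cond fam b c) |x2| y2 * (n.px dx dy - n.py dx dy * κ0) +
        (y2 - jq (cond fam b c)) * dk) := by
    have := Hn.tK
    unfold TightK at this
    rw [this, ← rown, u1]
  have eKm : Km = (y1 - jq a) * (κ0 + D.kf.v (-px) x) + N * 0 := by
    have := Hm.tK
    unfold TightK at this
    rw [this, ← hpxd]
    linear_combination κ0 * m3 - Gt m a |x1| y1 * hκ
  have eLm := Hm.tL.tF m2 m1
  have eLn := Hn.tL.tF n2 n1
  rw [← hpxd] at eLm
  have eest := excess_strip (q := qqn X Y) hI Hm.len Hn.len hex a1.ne' (by rw [eX, eY])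
  rw [← hNd] at eest
  have hest := enc_esuT hI hq hE1
  have hzz : Enc E (sl fam B' Y') (cond fam y2 Y) := enc_sl fam hB hY
  have hla := inst_la hI
  have hlb := inst_lb hI
  cases fam
  · simp only [cond_false, eps] at *
    have eYt : y1 + Y = y2 := by rw [eY]; ring
    have htt : Enc E B' (y1 + Y) := enc_cast hB eYt.symm
    have hfi := fiT_sound hc hx hA hzz htt hest hrn hen (enc_norm hR) hL hf
    simp only [cond_false] at hfi
    rw [abs_sub_comm en l] at hfi
    refine ⟨_, far_strip hN0 (con_rel hc Hm.iny HU.iny (by rw [eYt]; exact Hn.iny)) eest eKm eR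
      ?_ (L := l - en) ?_ hfi⟩
    · rw [eYt]
      exact eKn
    · rw [eLm, eL, eLn, hla, hlb]
      linear_combination -eln
  · simp only [cond_true, eps] at *
    have eYt : y1 + y2 = Y := by rw [eY]; ring
    have htt : Enc E Y' (y1 + y2) := enc_cast hY eYt.symm
    have hfi := fiT_sound hc hx hA hzz htt hest hrn hen (enc_norm hR) hL hf
    simp only [cond_true] at hfi
    refine ⟨_, far_strip hN0 (con_rel hc Hm.iny Hn.iny (by rw [eYt]; exact HU.iny)) eest eKm eKn
      ?_ (L := en - l) ?_ hfi⟩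
    · rw [eYt]
      exact eR
    · rw [eLm, eL, eLn, hla, hlb]
      linear_combination eln

end

theorem strN_sound {E : Pt} {D : SDat} {fam s1 s2 : Bool} {m u U : Ty} {cn : Con} {a b c : ℕ}
    {S : Sg} {V : Vt} {n1 n2 : Node} (hI : okI fam m u U = true) (hc : con a b c = some cn)
    {i A B C : ℕ} {p q x : ℝ} (hp : Enc E A p) (hq : Enc E B q) (hx : Enc E C x)
    (h : strN D fam s1 s2 m u U cn a b c S n1 n2 i A B C = true) :
    StrP D fam s1 s2 m u U cn a b c S V n1 n2 p q x := by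
  intro Km Lm Kn Ln KU LU X Y hD eX eY Hm Hn HU q1 q3
  unfold strN at h
  simp only [frc_eq] at h
  have y1 := n1.Y.enc hp
  have y2 := n2.Y.enc hq
  have x1 := enc_sg s1 (n1.X.enc hp)
  have x2 := enc_sg s2 (n2.X.enc hq)
  exact stpNn_sound hD hI hc hx y1 y2 x1 x2 (enc_norm (enc_cast (enc_thE fam x1 x2) eX.symm))
    (enc_norm (enc_cast (enc_thE fam y1 y2) eY.symm)) eX eY rfl Hm Hn HU q1 q3 h

/-- **Strip tests** with the normalised factor as a further alternative. -/
noncomputable def strExtN (D : SDat) (fam s1 s2 : Bool) (m u U : Ty) (cn : Con) (a b c : ℕ)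
    (hI : okI fam m u U = true) (hc : con a b c = some cn) (S : Sg) (V : Vt) (n1 n2 : Node) :
    Ext where
  t i p q x := strN D fam s1 s2 m u U cn a b c S n1 n2 i p q x
  P p q x := StrP D fam s1 s2 m u U cn a b c S V n1 n2 p q x
  snd hp hq hx h := strN_sound hI hc hp hq hx h

theorem strExtN_P (D : SDat) (fam s1 s2 : Bool) (m u U : Ty) (cn : Con) (a b c : ℕ)
    (hI : okI fam m u U = true) (hc : con a b c = some cn) (S : Sg) (V : Vt) (n1 n2 : Node) :
    (strExtN D fam s1 s2 m u U cn a b c hI hc S V n1 n2).P =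
      (strExt D fam s1 s2 m u U cn a b c hI hc S V n1 n2).P := rfl

section

variable {n : ℕ} {T : STab n} {P : Pos n} {RK RL : Fin (n + 1) → ℕ → ℝ → ℝ → ℝ} {pc : ℕ → Piece}
  {x κ : ℝ} {a b c : ℕ} {cn : Con} {s1 s2 : Bool} {m u U : Ty} {n1 n2 : Node} {j k : Fin (n + 1)}

/-- **Strips, family `A`, far vertex.** -/
theorem STab.Ok.extAN (h : T.Ok P RK RL x) (hs : SideOk P RK RL pc x) (hκ : κ * h0 = ken x)
    (hc : con a b c = some cn) (hI : okI true m u U = true) (hm : NTy n j a s1 m)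
    (hu : NTy n k b s2 u) (hU : U.inq c) :
    ExtA (VF κ) P RK RL pc (strExtN T.D true s1 s2 m u U cn a b c hI hc (T.S U c) T.V n1 n2)
      n1 n2 a b c j k (sgb s1) (sgb s2) x := by
  unfold ExtA
  rw [strExtN_P]
  exact h.extA hs hκ hc hI hm hu hU

/-- **Strips, family `B`, far vertex.** -/
theorem STab.Ok.extBN (h : T.Ok P RK RL x) (hs : SideOk P RK RL pc x) (hκ : κ * h0 = ken x)
    (hc : con a b c = some cn) (hI : okI false m u U = true) (hm : NTy n j a s1 m)
    (hu : NTy n k c s2 u) (hU : U.inq b) :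
    ExtB (VF κ) P RK RL pc (strExtN T.D false s1 s2 m u U cn a b c hI hc (T.S U b) T.V n1 n2)
      n1 n2 a b c j k (sgb s1) (sgb s2) x := by
  unfold ExtB
  rw [strExtN_P]
  exact h.extB hs hκ hc hI hm hu hU

end

end Pool.Agent.Strip051.PB
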