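import Pool.Agent.Strip051.PB.StripT
import Pool.Agent.Strip051.PB.StripG

/-! # Unit strips: the test in the packed arithmetic

The side bottom-middle has a tight length (type `m`), a second side (type `n`) too, and the third
side (type `U`) is nearly tight. Everything is divided by the distance `N` of the third side from
the tight length. -/

namespace Pool.Agent.Strip051.PB

attribute [local irreducible] padd psub pneg pmul psq pinv psqrt psqrtg pabs pps pmax pmin pphi plam
  pcase phf pnat prat pscale pnorm pdc pnc pone ppos pnn Enc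

/-! ### The linear maps -/

noncomputable def pxT (t : Ty) (X y : ℕ) : ℕ :=
  Ty.rec (motive := fun _ => ℕ) (psub (phf X) (t34 y)) X (padd (phf X) (t34 y)) (pneg (phf y))
    (psub (phf X) (phf (phf y))) (phf y) (padd (phf X) (phf (phf y))) t

noncomputable def pyT (t : Ty) (X y : ℕ) : ℕ :=
  Ty.rec (motive := fun _ => ℕ) (padd X (phf y)) y (psub (phf y) X) (pscale 2 3 X)
    (padd (pscale 1 3 X) (phf y)) (pneg (pscale 2 3 X)) (psub (phf y) (pscale 1 3 X)) t

noncomputable def ixT (t : Ty) (X y : ℕ) : ℕ :=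
  Ty.rec (motive := fun _ => ℕ) (padd (phf X) (t34 y)) X (psub (phf X) (t34 y)) (pscale 3 2 y)
    (padd (pscale 3 2 X) (t34 y)) (pneg (pscale 3 2 y)) (psub (pscale 3 2 X) (t34 y)) t

noncomputable def iyT (t : Ty) (X y : ℕ) : ℕ :=
  Ty.rec (motive := fun _ => ℕ) (psub (phf y) X) y (padd X (phf y)) (pneg (padd X X))
    (psub (pscale 3 2 y) X) (padd X X) (padd X (pscale 3 2 y)) t

/-- `D` minus the image of the abscissa `z`, abscissa -/
noncomputable def axT (t : Ty) (D z : ℕ) : ℕ :=
  Ty.rec (motive := fun _ => ℕ) (psub D (phf z)) (psub D z) (psub D (phf z)) D (psub D (phf z)) D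
    (psub D (phf z)) t

/-- `D` minus the image of the abscissa `z`, height -/
noncomputable def ayT (t : Ty) (D z : ℕ) : ℕ :=
  Ty.rec (motive := fun _ => ℕ) (psub D z) D (padd D z) (psub D (pscale 2 3 z))
    (psub D (pscale 1 3 z)) (padd D (pscale 2 3 z)) (padd D (pscale 1 3 z)) t

section

variable {E : Pt} {X Y D Z : ℕ} {x y d z : ℝ}

theorem enc_pxT (t : Ty) (hX : Enc E X x) (hY : Enc E Y y) : Enc E (pxT t X Y) (t.px x y) := by
  cases t
  · exact enc_sub (enc_half hX) (enc_t34 hY)
  · exact hX
  · exact enc_add (enc_half hX) (enc_t34 hY)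
  · exact enc_neg (enc_half hY)
  · exact enc_cast (enc_sub (enc_half hX) (enc_half (enc_half hY))) (by simp only [Ty.px]; ring)
  · exact enc_half hY
  · exact enc_cast (enc_add (enc_half hX) (enc_half (enc_half hY))) (by simp only [Ty.px]; ring)

theorem enc_pyT (t : Ty) (hX : Enc E X x) (hY : Enc E Y y) : Enc E (pyT t X Y) (t.py x y) := by
  have h2 := enc_cast (enc_scale 2 3 hX) (show _ = 2 / 3 * x by norm_num)
  have h1 := enc_cast (enc_scale 1 3 hX) (show _ = x / 3 by push_cast; ring)
  cases t
  · exact enc_add hX (enc_half hY)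
  · exact hY
  · exact enc_sub (enc_half hY) hX
  · exact h2
  · exact enc_add h1 (enc_half hY)
  · exact enc_neg h2
  · exact enc_sub (enc_half hY) h1

theorem enc_ixT (t : Ty) (hX : Enc E X x) (hY : Enc E Y y) : Enc E (ixT t X Y) (t.ix x y) := by
  have h2 := enc_cast (enc_scale 3 2 hX) (show _ = 3 / 2 * x by norm_num)
  have h1 := enc_cast (enc_scale 3 2 hY) (show _ = 3 / 2 * y by norm_num)
  cases t
  · exact enc_add (enc_half hX) (enc_t34 hY)
  · exact hX
  · exact enc_sub (enc_half hX) (enc_t34 hY)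
  · exact h1
  · exact enc_add h2 (enc_t34 hY)
  · exact enc_neg h1
  · exact enc_sub h2 (enc_t34 hY)

theorem enc_iyT (t : Ty) (hX : Enc E X x) (hY : Enc E Y y) : Enc E (iyT t X Y) (t.iy x y) := by
  have h1 := enc_cast (enc_scale 3 2 hY) (show _ = 3 / 2 * y by norm_num)
  have h2 := enc_cast (enc_add hX hX) (show _ = 2 * x by ring)
  cases t
  · exact enc_sub (enc_half hY) hX
  · exact hY
  · exact enc_add hX (enc_half hY)
  · exact enc_neg h2
  · exact enc_sub h1 hX
  · exact h2
  · exact enc_add hX h1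

theorem enc_axT (t : Ty) (hD : Enc E D d) (hZ : Enc E Z z) :
    Enc E (axT t D Z) (d - t.px z 0) := by
  cases t
  · exact enc_cast (enc_sub hD (enc_half hZ)) (by simp only [Ty.px]; ring)
  · exact enc_sub hD hZ
  · exact enc_cast (enc_sub hD (enc_half hZ)) (by simp only [Ty.px]; ring)
  · exact enc_cast hD (by simp only [Ty.px]; ring)
  · exact enc_cast (enc_sub hD (enc_half hZ)) (by simp only [Ty.px]; ring)
  · exact enc_cast hD (by simp only [Ty.px]; ring)
  · exact enc_cast (enc_sub hD (enc_half hZ)) (by simp only [Ty.px]; ring)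

theorem enc_ayT (t : Ty) (hD : Enc E D d) (hZ : Enc E Z z) :
    Enc E (ayT t D Z) (d - t.py z 0) := by
  have h2 := enc_cast (enc_scale 2 3 hZ) (show _ = 2 / 3 * z by norm_num)
  have h1 := enc_cast (enc_scale 1 3 hZ) (show _ = z / 3 by push_cast; ring)
  cases t
  · exact enc_cast (enc_sub hD hZ) (by simp only [Ty.py]; ring)
  · exact enc_cast hD (by simp only [Ty.py]; ring)
  · exact enc_cast (enc_add hD hZ) (by simp only [Ty.py]; ring)
  · exact enc_cast (enc_sub hD h2) (by simp only [Ty.py])
  · exact enc_cast (enc_sub hD h1) (by simp only [Ty.py]; ring)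
  · exact enc_cast (enc_add hD h2) (by simp only [Ty.py]; ring)
  · exact enc_cast (enc_add hD h1) (by simp only [Ty.py]; ring)

end

/-! ### The factor `τ / (p_y - 1)` -/

/-- `q` is the quarter, `X` the absolute value of the abscissa -/
noncomputable def gtT (t : Ty) (q X y : ℕ) : ℕ :=
  Ty.rec (motive := fun _ => ℕ)
    (Bool.rec (motive := fun _ => ℕ)
      (pneg (pmul (padd pone (padd X X)) (pinv (psub (padd pone (pscale 3 2 y)) X))))
      ((fun s => pmul (padd s s) (pinv (psub s (pscale 3 2 y)))) (padd pone X)) (Nat.beq q 0))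
    pone
    (Bool.rec (motive := fun _ => ℕ)
      (pneg (pmul (padd pone (padd X X)) (pinv (psub (padd pone (pscale 3 2 y)) X))))
      ((fun s => pmul (padd s s) (pinv (psub s (pscale 3 2 y)))) (padd pone X)) (Nat.beq q 0))
    (Bool.rec (motive := fun _ => ℕ)
      (pneg (pmul (padd (padd X X) (pnc 3)) (pinv (padd pone y))))
      (pmul (pmul y (padd (padd X X) (pnc 3))) (pinv (pmul (psub pone y) (padd pone y))))
      (Nat.beq q 0))
    (Bool.rec (motive := fun _ => ℕ)
      (pneg (pmul (psub (padd X (pnc 3)) (pscale 3 2 y)) (pinv (psub y pone))))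
      (pmul (psub (padd X (pnc 3)) (pscale 3 2 y)) (pinv (psub (pnc 2) y))) (Nat.beq q 2))
    (Bool.rec (motive := fun _ => ℕ)
      (pneg (pmul (padd (padd X X) (pnc 3)) (pinv (padd pone y))))
      (pmul (pmul y (padd (padd X X) (pnc 3))) (pinv (pmul (psub pone y) (padd pone y))))
      (Nat.beq q 0))
    (Bool.rec (motive := fun _ => ℕ)
      (pneg (pmul (psub (padd X (pnc 3)) (pscale 3 2 y)) (pinv (psub y pone))))
      (pmul (psub (padd X (pnc 3)) (pscale 3 2 y)) (pinv (psub (pnc 2) y))) (Nat.beq q 2)) t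

theorem enc_gtT {E : Pt} {X Y : ℕ} {x y : ℝ} {t : Ty} {q : ℕ} (hq : t.inq q) (hX : Enc E X x)
    (hY : Enc E Y y) : Enc E (gtT t q X Y) (Gt t q x y) := by
  have h3 := enc_cast (enc_scale 3 2 hY) (show _ = 3 / 2 * y by norm_num)
  have h2 := enc_cast (enc_add hX hX) (show _ = 2 * x by ring)
  have hu : ∀ Q : ℕ, (Q = 0 ∨ Q = 1) → Enc E (Bool.rec (motive := fun _ => ℕ)
      (pneg (pmul (padd pone (padd X X)) (pinv (psub (padd pone (pscale 3 2 Y)) X))))
      ((fun s => pmul (padd s s) (pinv (psub s (pscale 3 2 Y)))) (padd pone X)) (Nat.beq Q 0))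
      (Gt .u0 Q x y) := by
    rintro Q (rfl | rfl)
    · exact enc_cast (enc_mul (enc_add (enc_add (enc_one E) hX) (enc_add (enc_one E) hX))
        (enc_inv (enc_sub (enc_add (enc_one E) hX) h3))) (by simp only [Gt]; ring)
    · exact enc_neg (enc_mul (enc_add (enc_one E) h2) (enc_inv (enc_sub
        (enc_add (enc_one E) h3) hX)))
  have hs : ∀ Q : ℕ, (Q = 0 ∨ Q = 1) → Enc E (Bool.rec (motive := fun _ => ℕ)
      (pneg (pmul (padd (padd X X) (pnc 3)) (pinv (padd pone Y))))
      (pmul (pmul Y (padd (padd X X) (pnc 3))) (pinv (pmul (psub pone Y) (padd pone Y))))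
      (Nat.beq Q 0)) (Gt .s0 Q x y) := by
    have hn := enc_cast (enc_add h2 (enc_pnc E 3)) (show _ = 2 * x + 3 by norm_num)
    rintro Q (rfl | rfl)
    · exact enc_mul (enc_mul hY hn) (enc_inv (enc_mul (enc_sub (enc_one E) hY)
        (enc_add (enc_one E) hY)))
    · exact enc_neg (enc_mul hn (enc_inv (enc_add (enc_one E) hY)))
  have hv : ∀ Q : ℕ, (Q = 2 ∨ Q = 3) → Enc E (Bool.rec (motive := fun _ => ℕ)
      (pneg (pmul (psub (padd X (pnc 3)) (pscale 3 2 Y)) (pinv (psub Y pone))))
      (pmul (psub (padd X (pnc 3)) (pscale 3 2 Y)) (pinv (psub (pnc 2) Y))) (Nat.beq Q 2))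
      (Gt .s2 Q x y) := by
    have hn := enc_cast (enc_sub (enc_add hX (enc_pnc E 3)) h3)
      (show _ = x + 3 - 3 / 2 * y by norm_num)
    rintro Q (rfl | rfl)
    · exact enc_mul hn (enc_inv (enc_cast (enc_sub (enc_pnc E 2) hY)
        (show _ = 2 - y by norm_num)))
    · exact enc_neg (enc_mul hn (enc_inv (enc_sub hY (enc_one E))))
  cases t
  · exact hu q hq
  · exact enc_one E
  · have := hu q hq
    rcases hq with rfl | rfl <;> exact this
  · exact hs q hq
  · exact hv q hq
  · have := hs q hq
    rcases hq with rfl | rfl <;> exact this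
  · have := hv q hq
    rcases hq with rfl | rfl <;> exact this

/-! ### Levels -/

/-- level of a side, divided: values at the point `a = P_t` of the side and at `p`, displacement
`d` -/
noncomputable def lvT (KC : DT) (kf : Fn2) (T : DT) (t : Ty) (ax ay px py dx dy X : ℕ) : ℕ :=
  (fun l r => Ty.rec (motive := fun _ => ℕ) l (psub l r) (pneg r) (padd l r)
    (psub (padd l l) r) (psub (pneg l) r) (psub l (padd r r)) t)
  (txd KC kf T (pneg ax) (pneg px) (padd (t34 ay) (phf ax)) (padd (t34 py) (phf px)) (pneg dx)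
    (pnorm (padd (t34 dy) (phf dx))) X)
  (txd KC kf T ax px (psub (t34 ay) (phf ax)) (psub (t34 py) (phf px)) dx
    (pnorm (psub (t34 dy) (phf dx))) X)

/-- level of a side of type `u2` near the vertical direction, divided -/
noncomputable def lcuT (KC : DT) (kf : Fn2) (T : DT) (X px py dx x : ℕ) : ℕ :=
  (fun nX nx => psub (pmul (pneg dx) ((fun ca cb => txd KC kf T nX nx ca cb pone
      (cdd nX nx ca cb) x) (csT nX) (padd (t34 py) (phf px))))
    (pmul dx ((fun ca cb => txd KC kf T X px ca cb pone (cdd X px ca cb) x) (csT X)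
      (psub (t34 py) (phf px))))) (pneg X) (pneg px)

/-! ### Data -/

/-- half of the factor of the kernel -/
structure Kh where
  t : ℕ → ℕ
  v : ℝ → ℝ
  enc : ∀ {E : Pt} {X : ℕ} {x : ℝ}, Enc E X x → Enc E (t X) (v x / 2)

/-- kernel correction (tree, function), level (tree), factor of the kernel -/
structure SDat where
  KC : DT
  kf : Fn2
  TX : DT
  kh : Kh

/-- the segment of the third side next to the tight curve: the curve and the slopes -/
structure Sg where
  f : Fn1
  SK : Fn2
  SX : Fn2

/-- third side near the vertical direction -/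
structure Vt where
  (k1 ya yb yk : Cn)
  (k0 m0 sK sX : Fn1)
  (RK RX B BX : Fn2)
  (k2 yz : Cn)
  SM : Fn2
  PH : DT

/-- unit length -/
noncomputable def uT (t : Ty) : Bool := Ty.rec (motive := fun _ => Bool) true true true false false false false t

/-- sign of the abscissa -/
noncomputable def bT (t : Ty) : Bool := Ty.rec (motive := fun _ => Bool) true true false true true false false t

/-- square of the length -/
noncomputable def nT (t : Ty) : ℕ := Bool.rec (motive := fun _ => ℕ) 3 1 (uT t)

/-- abscissa of the tight curve -/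
noncomputable def cuT (t : Ty) (Y : ℕ) : ℕ := psqrtg (psub (pnc (nT t)) (t34 (psq Y)))

/-- value of a row without the factor of the correction -/
noncomputable def rcT (t : Ty) (q X y core τ kd : ℕ) : ℕ :=
  Ty.rec (motive := fun _ => ℕ) (padd (pmul core (gtT t q X y)) (pmul τ kd))
    (padd core (pmul τ kd)) (padd (pmul core (gtT t q X y)) (pmul τ kd))
    (padd (pmul core (gtT t q X y)) (pmul τ kd)) (padd (pmul core (gtT t q X y)) (pmul τ kd))
    (padd (pmul core (gtT t q X y)) (pmul τ kd)) (padd (pmul core (gtT t q X y)) (pmul τ kd)) t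

/-! ### The third side -/

/-- third side anchored at the tight curve at the same height; `b` is the sign of the abscissa,
`fin` gets kernel value and level value, divided -/
noncomputable def canT (D : SDat) (U : Ty) (b : Bool) (S : Sg) (q X Y τ px py k0 dx dy x : ℕ)
    (fin : ℕ → ℕ → Bool) : Bool :=
  frc (sg b X) fun aX => frc (cuT U Y) fun c => frc (S.f.t Y) fun f =>
  band (pnn aX) (band (pnn (sl (uT U) (psub f aX) (psub aX f)))
    (band (ppos (psub (pnc (nT U)) (t34 (psq Y)))) (band (ppos (padd aX c))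
    (frc (sg (cond (uT U) b (!b)) (pscale 3 16 (pinv (padd aX c)))) fun xi =>
    frc (pnorm (axT U (pxT U dx dy) xi)) fun ex => frc (pnorm (ayT U (pyT U dx dy) xi)) fun ey =>
    frc (pnorm (pxT U (sg b c) Y)) fun cx => frc (pnorm (pyT U (sg b c) Y)) fun cy =>
    fin (padd (rcT U q c Y (pnorm (psub ex (pmul ey k0))) τ
        (pnorm (kcd D.KC (pneg cx) (pneg px) (pneg ex) x))) (pmul xi (S.SK.t Y x)))
      (padd (lvT D.KC D.kf D.TX U cx cy px py ex ey x) (pmul xi (S.SX.t Y x)))))))

/-- third side near the vertical direction, common part -/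
noncomputable def vruT (D : SDat) (X τ px py k0 dx dy x : ℕ) (fin : ℕ → ℕ → Bool) : Bool :=
  fin (padd (psub dx (pmul dy k0)) (pmul τ (pnorm (kcd D.KC (pneg X) (pneg px) (pneg dx) x))))
    (lcuT D.KC D.kf D.TX X px py dx x)

/-- third side near the vertical direction, linear range -/
noncomputable def vlT (D : SDat) (V : Vt) (b : Bool) (f X Y τ px py k0 dx dy x : ℕ)
    (fin : ℕ → ℕ → Bool) : Bool :=
  frc (sg b X) fun aX => frc (cuT .u2 Y) fun c =>
  band (pnn aX) (band (pnn (psub V.k1.t aX)) (band (pnn (psub f aX))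
    (band (ppos (psub (pnc 1) (t34 (psq Y)))) (band (ppos (padd aX c))
    (frc (sg b (pscale 3 16 (pinv (padd aX c)))) fun xi =>
    vruT D X τ px py k0 dx dy x fun r l =>
      fin (padd r (pmul xi (V.RK.t Y x))) (padd l (pmul xi (V.RX.t Y x))))))))

/-- third side near the vertical direction, flat segment -/
noncomputable def vfT (D : SDat) (V : Vt) (f X Y τ px py k0 dx dy x : ℕ)
    (fin : ℕ → ℕ → Bool) : Bool :=
  frc (pabs X) fun aX => band (pnn (psub V.k1.t aX)) (band (pnn (psub f aX))
    (band (pnn (psub Y V.ya.t)) (band (pnn (psub V.yb.t Y)) (vruT D X τ px py k0 dx dy x fin))))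

/-- third side near the vertical direction, above the flat segment up to the next knot -/
noncomputable def vaT (D : SDat) (V : Vt) (f X Y τ px py k0 dx dy x : ℕ)
    (fin : ℕ → ℕ → Bool) : Bool :=
  frc (pabs X) fun aX => band (pnn (psub V.k1.t aX)) (band (pnn (psub f aX))
    (band (pnn (psub Y V.yb.t)) (band (pnn (psub V.yk.t Y))
    (frc (pmul X (pmul (phf (phf pu01)) (pinv (padd Y V.yb.t)))) fun z =>
    vruT D X τ px py k0 dx dy x fun r l =>
      fin (padd r (pmul z (V.sK.t x))) (padd l (pmul z (V.sX.t x)))))))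

/-- third side near the vertical direction, above the flat segment; `q` is the square of the
length -/
noncomputable def vdT (D : SDat) (V : Vt) (f q X Y τ px py k0 dx dy x : ℕ)
    (fin : ℕ → ℕ → Bool) : Bool :=
  frc (pabs X) fun aX => band (pnn (psub V.k1.t aX)) (band (pnn (psub f aX))
    (band (pnn (psub Y V.yb.t)) (band (ppos (psub q pone))
    (frc (pmul X (pscale 3 16 (pinv (psub q pone)))) fun z =>
    vruT D X τ px py k0 dx dy x fun r l =>
      fin (padd r (pmul z (pnorm (psub (V.B.t Y x) (psub pone (pmul τ (V.k0.t x)))))))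
        (padd l (pmul z (pnorm (psub (V.BX.t Y x) (V.m0.t x)))))))))

/-- divided difference of the odd part of the level between the abscissae `A` and `px`, up to the
sign -/
noncomputable def gqT (D : SDat) (A px py x : ℕ) : ℕ :=
  frc (csT (pneg A)) fun ca => frc (csT A) fun da =>
  (fun cb db => padd (txd D.KC D.kf D.TX (pneg A) (pneg px) ca cb pone
      (cdd (pneg A) (pneg px) ca cb) x) (txd D.KC D.kf D.TX A px da db pone (cdd A px da db) x))
    (padd (t34 py) (phf px)) (psub (t34 py) (phf px))

/-- divided difference of the odd part of the level between the abscissae `A` and `px`; `sm` says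
that both are small -/
noncomputable def phT (D : SDat) (V : Vt) (sm : Bool) (A px py x : ℕ) : ℕ :=
  sel2 sm (pneg (gqT D A px py x)) (padd (V.m0.t x) (kcd V.PH A px pone x))

/-- third side near the vertical direction, compared with the tight curve -/
noncomputable def vmT (D : SDat) (V : Vt) (S : Sg) (b : Bool) (X Y τ px py k0 dx dy x : ℕ)
    (fin : ℕ → ℕ → Bool) : Bool :=
  frc (sg b X) fun aX => frc (cuT .u2 Y) fun c =>
  band (pnn aX) (band (pnn (psub (S.f.t Y) aX))
    (band (ppos (psub (pnc 1) (t34 (psq Y)))) (band (ppos (padd aX c))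
    (frc (sg b (pscale 3 16 (pinv (padd aX c)))) fun xi => frc (sg b c) fun cx =>
    frc (pnorm (pmul τ (pnorm (kcd D.KC (pneg cx) (pneg px) pone x)))) fun tp =>
    frc (pnorm (phT D V (band (pnn (psub V.k2.t c)) (pnn (psub V.k2.t (pabs px)))) cx px py x))
      fun fl =>
    fin (padd (psub (psub dx (pmul dy k0)) (pmul tp dx)) (pmul xi (pnorm (padd (V.SM.t Y x) tp))))
      (padd (pmul fl dx) (pmul xi (pnorm (psub (S.SX.t Y x) fl))))))))

/-- third side near the vertical direction, flat segment, compared with the vertical direction; `q`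
is the square of the length -/
noncomputable def vzT (D : SDat) (V : Vt) (f q X Y τ px py k0 dx dy x : ℕ)
    (fin : ℕ → ℕ → Bool) : Bool :=
  frc (pabs X) fun aX => band (pnn (psub f aX))
    (band (pnn (psub Y V.yz.t)) (band (pnn (psub V.yb.t Y)) (band (ppos (psub q pone))
    (frc (pmul (pnat 3 X) (pinv (pnat 16 (psub q pone)))) fun z => frc (pnorm (psub dx z)) fun dz =>
    frc (pnorm (phT D V (pnn (psub V.k2.t (pabs px))) (pdc 0 0) px py x)) fun fl =>
    fin (psub (psub dx (pmul dy k0)) (pmul τ (pnorm (padd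
        (pmul (pnorm (kcd D.KC (pdc 0 0) (pneg px) pone x)) dz) (pmul (V.k0.t x) z)))))
      (padd (pmul fl dz) (pmul (V.m0.t x) z))))))

/-- choice of the form for the third side; `h` is the hint -/
noncomputable def thiT (D : SDat) (U : Ty) (S : Sg) (V : Vt) (h m q X Y τ px py k0 dx dy x : ℕ)
    (fin : ℕ → ℕ → Bool) : Bool :=
  Bool.rec (motive := fun _ => Bool)
    (canT D U (bT U) S m X Y τ px py k0 dx dy x fin)
    (Nat.rec (motive := fun _ => Bool) (canT D U true S m X Y τ px py k0 dx dy x fin)
      (fun h _ => Nat.rec (motive := fun _ => Bool) (canT D U false S m X Y τ px py k0 dx dy x fin)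
      (fun h _ => Nat.rec (motive := fun _ => Bool)
        (vfT D V (S.f.t Y) X Y τ px py k0 dx dy x fin)
      (fun h _ => Nat.rec (motive := fun _ => Bool)
        (vlT D V true (S.f.t Y) X Y τ px py k0 dx dy x fin)
      (fun h _ => Nat.rec (motive := fun _ => Bool)
        (vlT D V false (S.f.t Y) X Y τ px py k0 dx dy x fin)
      (fun h _ => Nat.rec (motive := fun _ => Bool)
        (vaT D V (S.f.t Y) X Y τ px py k0 dx dy x fin)
      (fun h _ => Nat.rec (motive := fun _ => Bool)
        (vdT D V (S.f.t Y) q X Y τ px py k0 dx dy x fin)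
      (fun h _ => Nat.rec (motive := fun _ => Bool)
        (vmT D V S true X Y τ px py k0 dx dy x fin)
      (fun h _ => Nat.rec (motive := fun _ => Bool)
        (vmT D V S false X Y τ px py k0 dx dy x fin)
      (fun _ _ => vzT D V (S.f.t Y) q X Y τ px py k0 dx dy x fin) h) h) h) h) h) h) h) h) h)
    (Ty.rec (motive := fun _ => Bool) false true false false false false false U)

/-! ### The test -/

/-- excess, divided -/
noncomputable def esuT (m n U : Ty) (q E1 : ℕ) : ℕ :=
  pmul (pnorm (pscale 1 64 (sl (uT U)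
    (psub (pnc (Nat.sub (Nat.mul 2 (Nat.add (nT m) (nT n))) (nT U))) q)
    (psub q (pnc (Nat.sub (Nat.mul 2 (Nat.add (nT m) (nT n))) (nT U))))))) E1

/-- the final test from the excess `e`, the kernel values `rn`, `rU`, the level values `ln`, `lU` -/
noncomputable def fiT (kh : Kh) (fam : Bool) (cn : Con)
    (a b c g x y z t e rn ln rU lU : ℕ) : Bool :=
  frc (phf (psub ln lU)) fun L => frc (psub e ((fun u v w => rowPhi cn (kh.t x) x u (pneg u) v
    (pneg v) w (pneg w) (pdc 0 0) (pdc 0 0) (sl fam rn rU) (pneg (sl fam rn rU))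
    (sl fam rU rn) (pneg (sl fam rU rn)) (pga g)) (dj (jq a) y) (dj (jq b) z) (dj (jq c) t)))
    fun F =>
  band (ppos (psub F L)) (ppos (padd F L))

/-- the test with the forms of `x`, of the heights `A`, `B` and abscissae `X1`, `X2` of the nodes and
of the third side; `i` is the payload of the hint -/
noncomputable def stpT (D : SDat) (fam : Bool) (m n U : Ty) (cn : Con) (a b c : ℕ) (S : Sg)
    (V : Vt) (i x A B X1 X2 X Y : ℕ) : Bool :=
  frc (psub (phf (psub (pmul X1 B) (pmul X2 A))) (phn 1)) fun ex =>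
  frc (pnorm (pxT m X1 A)) fun px => frc (pnorm (pyT m X1 A)) fun py =>
  band (ppos (padd pone ex)) (band (ppos (psub py pone))
    (frc (pinv (padd pone ex)) fun E1 => frc (pmul px (pinv (psub py pone))) fun k0 =>
    frc (pnorm (sg (cond (uT U) fam (!fam)) (pmul (pscale 3 64 (padd B (iyT n px py))) E1)))
      fun dx =>
    frc (pnorm (sg (cond (uT U) (!fam) fam) (pmul (pscale 1 16 (padd X2 (ixT n px py))) E1)))
      fun dy =>
    frc (qqT X Y) fun q =>
    frc (pnorm (pxT n X2 B)) fun nx => frc (pnorm (pyT n X2 B)) fun ny =>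
    frc (pnorm (pxT n dx dy)) fun ex' => frc (pnorm (pyT n dx dy)) fun ey' =>
    frc (pnorm (rcT n (cond fam b c) (pabs X2) B (pnorm (psub ex' (pmul ey' k0)))
      (dj (jq (cond fam b c)) B) (pnorm (kcd D.KC (pneg nx) (pneg px) (pneg ex') x))))
      fun rn =>
    frc (lvT D.KC D.kf D.TX n nx ny px py ex' ey' x) fun ln =>
    frc (dj (jq (cond fam c b)) Y) fun τ =>
    thiT D U S V (Nat.land i 15) (cond fam c b) q X Y τ px py k0
      dx dy x fun rU lU => frc (pnorm rU) fun rU => frc lU fun lU =>
      fiT D.kh fam cn a b c (Nat.shiftRight i 4) x A (sl fam B Y) (sl fam Y B) (esuT m n U q E1)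
        rn ln rU lU))

/-- the test with the nodes -/
noncomputable def strT (D : SDat) (fam s1 s2 : Bool) (m n U : Ty) (cn : Con) (a b c : ℕ) (S : Sg)
    (V : Vt) (n1 n2 : Node) (i P Q x : ℕ) : Bool :=
  (fun A B X1 X2 => frc (pnorm (th fam X1 X2)) fun X => frc (pnorm (th fam A B)) fun Y =>
    stpT D fam m n U cn a b c S V i x A B X1 X2 X Y)
  (n1.Y.t P) (n2.Y.t Q) (sg s1 (n1.X.t P)) (sg s2 (n2.X.t Q))

end Pool.Agent.Strip051.PB
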