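import Pool.Agent.Strip051.PB.StripE

/-! # Unit strips, tables with quarter-2 curves in the abscissa of the unit circle

Next to the top of the unit circle the curves `0 < ρ ≤ 1` are tabulated in `c = c1n y` below and in
the height above. The tests of `StripP` are extended by tests for this range; a test may consist of
several parts, each with its own level. -/

namespace Pool.Agent.Strip051.PB

attribute [local irreducible] padd psub pneg pmul psq pinv psqrt psqrtg pabs pps pmax pmin pphi plam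
  pcase phf pnat prat pscale pnorm pdc pnc pone ppos pnn Enc

/-- A function of four arguments with its form. -/
structure Fn4Q where
  t : ℕ → ℕ → ℕ → ℕ → ℕ
  v : ℝ → ℝ → ℝ → ℝ → ℝ
  enc : ∀ {E : Pt} {A B C F : ℕ} {a b c f : ℝ}, Enc E A a → Enc E B b → Enc E C c → Enc E F f →
    Enc E (t A B C F) (v a b c f)

/-- Data next to the top of the unit circle: bounds, slopes of the first curve in `c`, distance of
the first curve from the unit circle, second curve (below `a`, above `b`), both branches of the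
third side. -/
structure Wt where
  (c2 y2 ym : Cn)
  (qK qX FR f2 a0K a1K a0X a1X b0K b1K b0X b1X : Fn1)
  (AK AL : Fn4Q)
  B : Piece

/-! ### Parts -/

/-- an eighth of the unit interval -/
noncomputable def p8 (i : ℕ) : ℕ := padd (prat i 8) (phf (phf (phf pu01)))

/-- a quarter of the unit interval -/
noncomputable def p4 (i : ℕ) : ℕ := padd (prat i 4) (phf (phf pu01))

/-- the level of a part -/
noncomputable def lvp (i k : ℕ) : ℕ :=
  Nat.mul (Nat.land (Nat.shiftRight k (Nat.mul 14 i)) 16383) 256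

noncomputable def all4 (f : ℕ → Bool) : Bool := band (f 0) (band (f 1) (band (f 2) (f 3)))

noncomputable def all8 (f : ℕ → Bool) : Bool :=
  band (f 0) (band (f 1) (band (f 2) (band (f 3) (band (f 4) (band (f 5) (band (f 6) (f 7)))))))

theorem all4_true {f : ℕ → Bool} (h : all4 f = true) {i : ℕ} (hi : i < 4) : f i = true := by
  obtain ⟨h0, h⟩ := band_true h
  obtain ⟨h1, h⟩ := band_true h
  obtain ⟨h2, h3⟩ := band_true h
  match i, hi with
  | 0, _ => exact h0
  | 1, _ => exact h1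
  | 2, _ => exact h2
  | 3, _ => exact h3

theorem all8_true {f : ℕ → Bool} (h : all8 f = true) {i : ℕ} (hi : i < 8) : f i = true := by
  obtain ⟨h0, h⟩ := band_true h
  obtain ⟨h1, h⟩ := band_true h
  obtain ⟨h2, h⟩ := band_true h
  obtain ⟨h3, h⟩ := band_true h
  obtain ⟨h4, h⟩ := band_true h
  obtain ⟨h5, h⟩ := band_true h
  obtain ⟨h6, h7⟩ := band_true h
  match i, hi with
  | 0, _ => exact h0
  | 1, _ => exact h1
  | 2, _ => exact h2
  | 3, _ => exact h3
  | 4, _ => exact h4
  | 5, _ => exact h5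
  | 6, _ => exact h6
  | 7, _ => exact h7

/-- A number in `[0, 1]` lies in one of `n` parts. -/
theorem part_n {n : ℕ} (hn : 0 < n) {s : ℝ} (h0 : 0 ≤ s) (h1 : s ≤ 1) :
    ∃ i < n, ∃ t : ℝ, 0 ≤ t ∧ t ≤ 1 ∧ s = (i : ℝ) / n + t / n := by
  have hn' : (0 : ℝ) < n := Nat.cast_pos.2 hn
  have hs : 0 ≤ s * n := mul_nonneg h0 hn'.le
  by_cases h : s = 1
  · refine ⟨n - 1, by omega, 1, zero_le_one, le_rfl, ?_⟩
    rw [h, Nat.cast_sub (by omega : 1 ≤ n)]
    push_cast
    field_simp
    ring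
  · have hlt : s * n < n := by
      have : s < 1 := lt_of_le_of_ne h1 h
      nlinarith
    refine ⟨⌊s * n⌋₊, (Nat.floor_lt hs).2 hlt, s * n - ⌊s * n⌋₊, ?_, ?_, ?_⟩
    · linarith [Nat.floor_le hs]
    · linarith [Nat.lt_floor_add_one (s * n)]
    · field_simp
      ring

theorem enc_p8 (E : Pt) (i : ℕ) {t : ℝ} (h0 : 0 ≤ t) (h1 : t ≤ 1) :
    Enc E (p8 i) ((i : ℝ) / 8 + t / 8) :=
  enc_cast (enc_add (enc_rat E i 8) (enc_half (enc_half (enc_half (enc_u01 E h0 h1)))))
    (by push_cast; ring)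

theorem enc_p4 (E : Pt) (i : ℕ) {t : ℝ} (h0 : 0 ≤ t) (h1 : t ≤ 1) :
    Enc E (p4 i) ((i : ℝ) / 4 + t / 4) :=
  enc_cast (enc_add (enc_rat E i 4) (enc_half (enc_half (enc_u01 E h0 h1)))) (by push_cast; ring)

theorem part8 {s : ℝ} (h0 : 0 ≤ s) (h1 : s ≤ 1) (E : Pt) : ∃ i < 8, Enc E (p8 i) s := by
  obtain ⟨i, hi, t, t0, t1, e⟩ := part_n (n := 8) (by norm_num) h0 h1
  exact ⟨i, hi, e ▸ enc_p8 E i t0 t1⟩

theorem part4 {s : ℝ} (h0 : 0 ≤ s) (h1 : s ≤ 1) (E : Pt) : ∃ i < 4, Enc E (p4 i) s := by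
  obtain ⟨i, hi, t, t0, t1, e⟩ := part_n (n := 4) (by norm_num) h0 h1
  exact ⟨i, hi, e ▸ enc_p4 E i t0 t1⟩

theorem part8h {s : ℝ} (h0 : 0 ≤ s) (h1 : s ≤ 1 / 2) (E : Pt) : ∃ i < 4, Enc E (p8 i) s := by
  obtain ⟨i, hi, t, t0, t1, e⟩ := part_n (n := 4) (s := 2 * s) (by norm_num) (by linarith)
    (by linarith)
  refine ⟨i, hi, enc_cast (enc_p8 E i t0 t1) ?_⟩
  push_cast at e
  linarith

/-! ### Packed side -/

/-- `3 / (16 a)` -/
noncomputable def xiq (A : ℕ) : ℕ := pnat 3 (pinv (pnat 16 A))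

theorem enc_xiq {E : Pt} {A : ℕ} {a : ℝ} (h : Enc E A a) : Enc E (xiq A) (3 * (16 * a)⁻¹) :=
  enc_cast (enc_nat 3 (enc_inv (enc_nat 16 h))) (by push_cast; ring)

/-- the quotient `c / (a + c)`, `a` the absolute value of the abscissa -/
noncomputable def rhoT (aX c : ℕ) : ℕ :=
  pnorm (psub pone (pmul (pnat 16 aX) (pinv (pnat 16 (padd aX c)))))

/-- the factor of the correction without the sign -/
noncomputable def gfac (W : Wt) (R c Y : ℕ) : ℕ :=
  pnorm (pmul (pnorm (pscale 3 16 R)) (pnorm (padd pone (pmul c (pinv (W.FR.t Y))))))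

/-- conditions for the range next to the top -/
noncomputable def cn6 (V : Vt) (W : Wt) (aX f c Y : ℕ) (k : Bool) : Bool :=
  band (pnn (psub f aX)) (band (pnn (psub V.yb.t Y)) (band (pnn (psub W.c2.t c))
    (band (ppos (W.FR.t Y)) k)))

/-- the corrections with the factor `G` -/
noncomputable def cor1 (W : Wt) (G x : ℕ) (fin : ℕ → ℕ → Bool) (r l : ℕ) : Bool :=
  fin (padd r (pmul G (W.qK.t x))) (padd l (pmul G (W.qX.t x)))

/-- the corrections with four factors -/
noncomputable def cor4 (W : Wt) (g : ℕ → ℕ) (x k : ℕ) (fin : ℕ → ℕ → ℕ → Bool) (r l : ℕ) : Bool :=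
  frc r fun r => frc l fun l => frc (W.qK.t x) fun qk => frc (W.qX.t x) fun qx =>
    all4 fun i => frc (g i) fun G => fin (lvp i k) (padd r (pmul G qk)) (padd l (pmul G qx))

/-- the corrections with eight factors -/
noncomputable def cor8 (W : Wt) (g : ℕ → ℕ) (x k : ℕ) (fin : ℕ → ℕ → ℕ → Bool) (r l : ℕ) : Bool :=
  frc r fun r => frc l fun l => frc (W.qK.t x) fun qk => frc (W.qX.t x) fun qx =>
    all8 fun i => frc (g i) fun G => fin (lvp i k) (padd r (pmul G qk)) (padd l (pmul G qx))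

/-- `canT` with another form of the displacement -/
noncomputable def canQ (D : SDat) (U : Ty) (b : Bool) (S : Sg) (q X Y τ px py k0 dx dy x : ℕ)
    (fin : ℕ → ℕ → Bool) : Bool :=
  frc (sg b X) fun aX => frc (cuT U Y) fun c => frc (S.f.t Y) fun f =>
  band (pnn aX) (band (pnn (sl (uT U) (psub f aX) (psub aX f)))
    (band (ppos (psub (pnc (nT U)) (t34 (psq Y)))) (band (ppos (padd aX c))
    (frc (sg (cond (uT U) b (!b)) (xiq (padd aX c))) fun xi =>
    frc (pnorm (axT U (pxT U dx dy) xi)) fun ex => frc (pnorm (ayT U (pyT U dx dy) xi)) fun ey =>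
    frc (pnorm (pxT U (sg b c) Y)) fun cx => frc (pnorm (pyT U (sg b c) Y)) fun cy =>
    fin (padd (rcT U q c Y (pnorm (psub ex (pmul ey k0))) τ
        (pnorm (kcd D.KC (pneg cx) (pneg px) (pneg ex) x))) (pmul xi (S.SK.t Y x)))
      (padd (lvT D.KC D.kf D.TX U cx cy px py ex ey x) (pmul xi (S.SX.t Y x)))))))

/-- `vmT` with another form of the displacement -/
noncomputable def vmQ (D : SDat) (V : Vt) (S : Sg) (b : Bool) (X Y τ px py k0 dx dy x : ℕ)
    (fin : ℕ → ℕ → Bool) : Bool :=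
  frc (sg b X) fun aX => frc (cuT .u2 Y) fun c =>
  band (pnn aX) (band (pnn (psub (S.f.t Y) aX))
    (band (ppos (psub (pnc 1) (t34 (psq Y)))) (band (ppos (padd aX c))
    (frc (sg b (xiq (padd aX c))) fun xi => frc (sg b c) fun cx =>
    frc (pnorm (pmul τ (pnorm (kcd D.KC (pneg cx) (pneg px) pone x)))) fun tp =>
    frc (pnorm (phT D V (band (pnn (psub V.k2.t c)) (pnn (psub V.k2.t (pabs px)))) cx px py x))
      fun fl =>
    fin (padd (psub (psub dx (pmul dy k0)) (pmul tp dx)) (pmul xi (pnorm (padd (V.SM.t Y x) tp))))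
      (padd (pmul fl dx) (pmul xi (pnorm (psub (S.SX.t Y x) fl))))))))

/-- quotient of the odd part of the level minus its slope at the top -/
noncomputable def phg (D : SDat) (V : Vt) (sm : Bool) (A px py x : ℕ) : ℕ :=
  pnorm (sel2 sm (pneg (padd (gqT D A px py x) (V.m0.t x))) (kcd V.PH A px pone x))

/-- computed quotient -/
noncomputable def vaR (D : SDat) (V : Vt) (W : Wt) (b : Bool) (f X Y τ px py k0 dx dy x : ℕ)
    (fin : ℕ → ℕ → Bool) : Bool :=
  frc (sg b X) fun aX => frc (cuT .u2 Y) fun c => band (pnn aX) (cn6 V W aX f c Y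
    (band (pnn (psub V.k1.t c)) (band (pnn (psub V.k1.t aX)) (band (ppos (padd aX c))
    (frc (sg b (gfac W (rhoT aX c) c Y)) fun G =>
      vruT D X τ px py k0 dx dy x (cor1 W G x fin))))))

/-- quotient in four parts -/
noncomputable def vaP (D : SDat) (V : Vt) (W : Wt) (b : Bool) (f X Y τ px py k0 dx dy x k : ℕ)
    (fin : ℕ → ℕ → ℕ → Bool) : Bool :=
  frc (sg b X) fun aX => frc (cuT .u2 Y) fun c => band (pnn aX) (cn6 V W aX f c Y
    (band (pnn (psub V.k1.t c)) (band (pnn (psub V.k1.t aX))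
      (vruT D X τ px py k0 dx dy x (cor4 W (fun i => sg b (gfac W (p8 i) c Y)) x k fin)))))

/-- signed quotient in eight parts -/
noncomputable def vuP (D : SDat) (V : Vt) (W : Wt) (f X Y τ px py k0 dx dy x k : ℕ)
    (fin : ℕ → ℕ → ℕ → Bool) : Bool :=
  frc (pabs X) fun aX => frc (cuT .u2 Y) fun c => cn6 V W aX f c Y
    (band (pnn (psub V.k1.t c)) (band (pnn (psub V.k1.t aX))
      (vruT D X τ px py k0 dx dy x
        (cor8 W (fun i => gfac W (psub (p8 i) (phn 1)) c Y) x k fin))))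

/-- compared with the vertical direction; `q` is the square of the length -/
noncomputable def vb0 (D : SDat) (V : Vt) (q X τ px py k0 dx dy x : ℕ) (fin : ℕ → ℕ → Bool) :
    Bool :=
  frc (pmul (pnat 3 X) (pinv (pnat 16 (psub q pone)))) fun z =>
  frc (pnorm (kcd D.KC (pdc 0 0) (pneg px) pone x)) fun kq =>
  frc (phg D V (pnn (psub V.k2.t (pabs px))) (pdc 0 0) px py x) fun km =>
  fin (psub (psub dx (pmul dy k0)) (pmul τ (pnorm (padd (pmul kq dx)
      (pmul (pnorm (psub (V.k0.t x) kq)) z)))))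
    (psub (pmul (pnorm (padd (V.m0.t x) km)) dx) (pmul km z))

/-- compared with the vertical direction, quotient in four parts -/
noncomputable def vbP (D : SDat) (V : Vt) (W : Wt) (b : Bool) (f q X Y τ px py k0 dx dy x k : ℕ)
    (fin : ℕ → ℕ → ℕ → Bool) : Bool :=
  frc (sg b X) fun aX => frc (cuT .u2 Y) fun c => band (pnn aX) (cn6 V W aX f c Y
    (band (pnn (psub V.k1.t c)) (band (ppos (psub q pone))
      (vb0 D V q X τ px py k0 dx dy x (cor4 W (fun i => sg b (gfac W (p8 i) c Y)) x k fin)))))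

/-- compared with the tight curve -/
noncomputable def vcQ (D : SDat) (V : Vt) (W : Wt) (b : Bool) (f X Y τ px py k0 dx dy x : ℕ)
    (fin : ℕ → ℕ → Bool) : Bool :=
  frc (sg b X) fun aX => frc (cuT .u2 Y) fun c => band (pnn aX) (cn6 V W aX f c Y
    (band (ppos (psub (pnc 1) (t34 (psq Y)))) (band (ppos (padd aX c))
    (frc (sg b (pnorm (pscale 3 16 (rhoT aX c)))) fun G => frc (sg b (xiq (padd aX c))) fun xi =>
    frc (sg b c) fun cx => frc (pinv (W.FR.t Y)) fun iv =>
    frc (pnorm (kcd D.KC (pneg cx) (pneg px) pone x)) fun kx =>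
    frc (phg D V (band (pnn (psub V.k2.t c)) (pnn (psub V.k2.t (pabs px)))) cx px py x) fun fm =>
    frc (pnorm (pmul τ (pnorm (psub (kcd D.KC (pneg c) (pdc 0 0) pone x) (V.k0.t x))))) fun kc =>
    frc (phg D V (pnn (psub V.k2.t c)) c (pdc 0 0) (psqrt (prat 4 3)) x) fun pc =>
    frc (pnorm (padd (W.qK.t x) (pmul (pnorm (padd (pmul (W.qK.t x) c) kc)) iv))) fun AK =>
    frc (pnorm (padd (W.qX.t x) (pmul (pnorm (psub (pmul (W.qX.t x) c) pc)) iv))) fun AX =>
    fin (padd (padd (psub (psub dx (pmul dy k0)) (pmul (pnorm (pmul τ kx)) dx)) (pmul G AK))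
        (pmul xi (pnorm (pmul τ (pnorm (psub kx (V.k0.t x)))))))
      (padd (psub (pmul (pnorm (padd (V.m0.t x) fm)) dx) (pmul xi fm)) (pmul G AX))))))

/-- the part of the second segment; `P` is the distance from the first curve, `iv` the quotient,
`B1`, `X1` and `B2`, `X2` are the values on the curves, `K`, `L` the corrections of the first one -/
noncomputable def vs1 (b : Bool) (zc P iv B1 X1 B2 X2 K L : ℕ) (fin : ℕ → ℕ → Bool) (r l : ℕ) :
    Bool :=
  fin (padd r (sg b (pmul zc (pnorm (padd (pmul P (pnorm (pmul iv (pnorm (psub B2 B1))))) K)))))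
    (padd l (sg b (pmul zc (pnorm (padd (pmul P (pnorm (pmul iv (pnorm (psub X2 X1))))) L)))))

/-- the first two segments, both branches -/
noncomputable def vsQ (D : SDat) (V : Vt) (W : Wt) (b : Bool) (f q X Y τ px py k0 dx dy x k : ℕ)
    (fin : ℕ → ℕ → ℕ → Bool) : Bool :=
  frc (sg b X) fun aX => frc (cuT .u2 Y) fun c => frc (W.f2.t Y) fun f2 =>
  frc (pnorm (psub f2 f)) fun df => frc (pnorm (psub aX f)) fun e =>
  frc (pnat 3 (pinv (pnat 16 (psub q pone)))) fun zc =>
  band (pnn aX) (band (pnn (psub f2 aX)) (band (pnn (psub V.yb.t Y)) (band (pnn (psub W.c2.t c))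
    (band (ppos df) (band (ppos (psub q pone)) (band
      (Bool.rec (motive := fun _ => Bool) (band (pnn (psub V.k1.t c)) (ppos (W.FR.t Y))) true
        (pnn e))
    (frc (sel2 (pnn e) (pmax e (pdc 0 0)) e) fun P =>
    frc (sel2 (pnn e) (pnorm (pmul aX pu01)) aX) fun s => frc (pmul f2 (pinv df)) fun iv =>
    frc (psub pone (pmul τ (V.k0.t x))) fun B1 => frc (pnorm (pmul c s)) fun cs =>
    vb0 D V q X τ px py k0 dx dy x fun r l => frc r fun r => frc l fun l =>
    band (vs1 b zc P iv (padd B1 (pmul (W.qK.t x) c)) (padd (V.m0.t x) (pmul (W.qX.t x) c))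
        (padd (W.a0K.t x) (pmul (W.a1K.t x) c)) (padd (W.a0X.t x) (pmul (W.a1X.t x) c))
        (pmul cs (W.qK.t x)) (pmul cs (W.qX.t x)) (fin (lvp 0 k)) r l)
      (vs1 b zc P iv B1 (V.m0.t x)
        (padd (W.b0K.t x) (pmul (W.b1K.t x) (pnorm (psub Y W.y2.t))))
        (padd (W.b0X.t x) (pmul (W.b1X.t x) (pnorm (psub Y W.y2.t))))
        (pdc 0 0) (pdc 0 0) (fin (lvp 1 k)) r l))))))))

/-! ### The test -/

/-- choice of the form for the third side; `h` is the hint, `k` the payload -/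
noncomputable def thi6T (D : SDat) (U : Ty) (S : Sg) (V : Vt) (W : Wt)
    (h k m q X Y τ px py k0 dx dy x : ℕ) (fin : ℕ → ℕ → ℕ → Bool) (rw : ℕ → Bool) : Bool :=
  Bool.rec (motive := fun _ => Bool)
    (canQ D U (bT U) S m X Y τ px py k0 dx dy x (fin k))
    (Nat.rec (motive := fun _ => Bool)
        (canQ D U true S m X Y τ px py k0 dx dy x (fin k))
      (fun h _ => Nat.rec (motive := fun _ => Bool)
        (canQ D U false S m X Y τ px py k0 dx dy x (fin k))
      (fun h _ => Nat.rec (motive := fun _ => Bool)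
        (vfT D V (S.f.t Y) X Y τ px py k0 dx dy x (fin k))
      (fun h _ => Nat.rec (motive := fun _ => Bool)
        (vaR D V W true (S.f.t Y) X Y τ px py k0 dx dy x (fin k))
      (fun h _ => Nat.rec (motive := fun _ => Bool)
        (vaR D V W false (S.f.t Y) X Y τ px py k0 dx dy x (fin k))
      (fun h _ => Nat.rec (motive := fun _ => Bool)
        (vaT D V (S.f.t Y) X Y τ px py k0 dx dy x (fin k))
      (fun h _ => Nat.rec (motive := fun _ => Bool)
        (vdT D V (S.f.t Y) q X Y τ px py k0 dx dy x (fin k))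
      (fun h _ => Nat.rec (motive := fun _ => Bool)
        (vmQ D V S true X Y τ px py k0 dx dy x (fin k))
      (fun h _ => Nat.rec (motive := fun _ => Bool)
        (vmQ D V S false X Y τ px py k0 dx dy x (fin k))
      (fun h _ => Nat.rec (motive := fun _ => Bool)
        (vzT D V (S.f.t Y) q X Y τ px py k0 dx dy x (fin k))
      (fun h _ => Nat.rec (motive := fun _ => Bool)
        (vaP D V W true (S.f.t Y) X Y τ px py k0 dx dy x k fin)
      (fun h _ => Nat.rec (motive := fun _ => Bool)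
        (vaP D V W false (S.f.t Y) X Y τ px py k0 dx dy x k fin)
      (fun h _ => Nat.rec (motive := fun _ => Bool)
        (vbP D V W true (S.f.t Y) q X Y τ px py k0 dx dy x k fin)
      (fun h _ => Nat.rec (motive := fun _ => Bool)
        (vbP D V W false (S.f.t Y) q X Y τ px py k0 dx dy x k fin)
      (fun h _ => Nat.rec (motive := fun _ => Bool)
        (vcQ D V W true (S.f.t Y) X Y τ px py k0 dx dy x (fin k))
      (fun h _ => Nat.rec (motive := fun _ => Bool)
        (vcQ D V W false (S.f.t Y) X Y τ px py k0 dx dy x (fin k))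
      (fun h _ => Nat.rec (motive := fun _ => Bool)
        (vsQ D V W true (S.f.t Y) q X Y τ px py k0 dx dy x k fin)
      (fun h _ => Nat.rec (motive := fun _ => Bool)
        (vsQ D V W false (S.f.t Y) q X Y τ px py k0 dx dy x k fin)
      (fun h _ => Nat.rec (motive := fun _ => Bool)
        (vuP D V W (S.f.t Y) X Y τ px py k0 dx dy x k fin)
      (fun _ _ => rw k) h) h) h) h) h) h) h) h) h) h) h) h) h) h) h) h) h) h) h)
    (Ty.rec (motive := fun _ => Bool) false true false false false false false U)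

/-- the final test with the values of the functions themselves -/
noncomputable def rfT (kh : Kh) (fam : Bool) (cn : Con) (x u v w e R1 Ra L1 L2 g K3 L3 : ℕ) : Bool :=
  frc K3 fun K3 => frc L3 fun L3 =>
  frc (phf (psub (padd L1 (sl fam L2 L3)) (sl fam L3 L2))) fun L =>
  frc (psub e (rowPhi cn (kh.t x) x u (pneg u) v (pneg v) w (pneg w) R1 (pneg R1)
    (sl fam Ra K3) (pneg (sl fam Ra K3)) (sl fam K3 Ra) (pneg (sl fam K3 Ra)) (pga g))) fun F =>
  band (ppos (psub F L)) (ppos (padd F L))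

/-- both branches at the height of the top of the unit circle -/
noncomputable def rwT (W : Wt) (k X Y x : ℕ) (fin : ℕ → ℕ → ℕ → Bool) : Bool :=
  frc (pdc (Nat.mul (Nat.land k 16383) 1024) 0) fun ch => frc (cuT .u2 Y) fun c =>
  band (ppos (psub Y W.ym.t)) (band (pnn (psub ch c)) (band
    (fin (Nat.land (Nat.shiftRight k 36) 4194303) (pnorm (W.B.K.t X Y x)) (W.B.L.t X Y x))
    (all4 fun i => frc (pnorm (pmul ch (p4 i))) fun cp =>
      fin (Nat.land (Nat.shiftRight k 14) 4194303) (pnorm (W.AK.t X cp Y x))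
        (pnorm (W.AL.t X cp Y x)))))

/-- the test with the forms of `x`, of the heights `A`, `B` and abscissae `X1`, `X2` of the nodes and
of the third side; `i` is the payload of the hint; `R1`, `Ra`, `L1`, `L2` are kernel and level
values of the nodes -/
noncomputable def stp6T (D : SDat) (fam : Bool) (m n U : Ty) (cn : Con) (a b c : ℕ) (S : Sg)
    (V : Vt) (W : Wt) (i x A B X1 X2 X Y R1 Ra L1 L2 : ℕ) : Bool :=
  frc (psub (phf (psub (pmul X1 B) (pmul X2 A))) (phn 1)) fun ex =>
  frc (pnorm (pxT m X1 A)) fun px => frc (pnorm (pyT m X1 A)) fun py =>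
  band (ppos (padd pone ex)) (band (ppos (psub py pone))
    (frc (pinv (padd pone ex)) fun E1 => frc (pmul px (pinv (psub py pone))) fun k0 =>
    frc (pnorm (sg (cond (uT U) fam (!fam)) (pmul (pscale 3 64 (padd B (iyT n px py))) E1)))
      fun dx =>
    frc (pnorm (sg (cond (uT U) (!fam) fam) (pmul (pscale 1 16 (padd X2 (ixT n px py))) E1)))
      fun dy =>
    frc (qqT X Y) fun q =>
    frc (pnorm (pxT n X2 B)) fun nx => frc (pnorm (pyT n X2 B)) fun ny =>
    frc (pnorm (pxT n dx dy)) fun ex' => frc (pnorm (pyT n dx dy)) fun ey' =>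
    frc (pnorm (rcT n (cond fam b c) (pabs X2) B (pnorm (psub ex' (pmul ey' k0)))
      (dj (jq (cond fam b c)) B) (pnorm (kcd D.KC (pneg nx) (pneg px) (pneg ex') x))))
      fun rn =>
    frc (lvT D.KC D.kf D.TX n nx ny px py ex' ey' x) fun ln =>
    frc (dj (jq (cond fam c b)) Y) fun τ => frc (esuT m n U q E1) fun es =>
    thi6T D U S V W (Nat.land i 31) (Nat.shiftRight i 5) (cond fam c b) q X Y τ px py k0
      dx dy x (fun g rU lU => frc (pnorm rU) fun rU => frc lU fun lU =>
      fiT D.kh fam cn a b c g x A (sl fam B Y) (sl fam Y B) es rn ln rU lU)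
      (fun k => frc (dj (jq a) A) fun u => frc (dj (jq b) (sl fam B Y)) fun v =>
        frc (dj (jq c) (sl fam Y B)) fun w => frc R1 fun R1 => frc Ra fun Ra => frc L1 fun L1 =>
        frc L2 fun L2 => rwT W k X Y x (rfT D.kh fam cn x u v w ex R1 Ra L1 L2))))

/-- the test with the nodes -/
noncomputable def str6T (D : SDat) (fam s1 s2 : Bool) (m n U : Ty) (cn : Con) (a b c : ℕ) (S : Sg)
    (V : Vt) (W : Wt) (n1 n2 : Node) (i P Q x : ℕ) : Bool :=
  (fun A B X1 X2 => frc (pnorm (th fam X1 X2)) fun X => frc (pnorm (th fam A B)) fun Y =>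
    stp6T D fam m n U cn a b c S V W i x A B X1 X2 X Y (sg s1 (n1.K.t P x)) (sg s2 (n2.K.t Q x))
      (sg s1 (n1.L.t P x)) (sg s2 (n2.L.t Q x)))
  (n1.Y.t P) (n2.Y.t Q) (sg s1 (n1.X.t P)) (sg s2 (n2.X.t Q))

end Pool.Agent.Strip051.PB
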