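import Pool.Agent.Strip051.PB.StripQU

/-! # Unit strips next to the top of the unit circle: from the facts about a table to the rows -/

namespace Pool.Agent.Strip051.PB

open Pool.Agent.StripNear Pool.Agent.StripSquare Pool.Agent.Strip051.Sweep
open Pool.Agent.Strip051.LC

attribute [local irreducible] padd psub pneg pmul psq pinv psqrt psqrtg pabs pps pmax pmin pphi plam
  pcase phf pnat prat pscale pnorm pdc pnc pone ppos pnn Enc

variable {n : ℕ}

/-- What is known about a table next to the top of the unit circle. -/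
structure STab.Ok6 (T : STab n) (W : Wt) (i1 : Fin n) (P : Pos n)
    (RK RL : Fin (n + 1) → ℕ → ℝ → ℝ → ℝ) (pc : ℕ → Piece) (x : ℝ) : Prop where
  hi : i1.castSucc = T.i0.succ
  c2n : 0 ≤ W.c2.v
  c2h : W.c2.v ≤ 1 / 2
  fr : ∀ y, InQ 2 y → crv P T.i0.succ 2 y = c1n y + W.FR.v y
  b1 : ∀ y, InQ 2 y → y ≤ T.V.yb.v → c1n y ≤ W.c2.v →
    T.V.B.v y x = 1 - (y - 1) * T.V.k0.v x + W.qK.v x * c1n y ∧
      T.V.BX.v y x = T.V.m0.v x + W.qX.v x * c1n y
  f2 : ∀ y, InQ 2 y → W.f2.v y = crv P i1.succ 2 y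
  a2 : ∀ y, InQ 2 y → 3 / 4 * y ^ 2 < 1 → c1n y ≤ W.c2.v →
    RK i1.succ 2 y x = crv P i1.succ 2 y * (W.a0K.v x + W.a1K.v x * c1n y) ∧
      RL i1.succ 2 y x = crv P i1.succ 2 y * (W.a0X.v x + W.a1X.v x * c1n y)
  b2 : ∀ y, InQ 2 y → 1 ≤ 3 / 4 * y ^ 2 → y ≤ T.V.yb.v →
    RK i1.succ 2 y x = crv P i1.succ 2 y * (W.b0K.v x + W.b1K.v x * (y - W.y2.v)) ∧
      RL i1.succ 2 y x = crv P i1.succ 2 y * (W.b0X.v x + W.b1X.v x * (y - W.y2.v))
  pA : ∀ X y, W.ym.v < y → 3 / 4 * y ^ 2 < 1 →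
    (pc 2).K.v X y x = W.AK.v X (c1n y) y x ∧ (pc 2).L.v X y x = W.AL.v X (c1n y) y x
  pB : ∀ X y, W.ym.v < y → 1 ≤ 3 / 4 * y ^ 2 →
    (pc 2).K.v X y x = W.B.K.v X y x ∧ (pc 2).L.v X y x = W.B.L.v X y x

section

variable {T : STab n} {W : Wt} {i1 : Fin n} {P : Pos n} {RK RL : Fin (n + 1) → ℕ → ℝ → ℝ → ℝ}
  {pc : ℕ → Piece} {x : ℝ}

theorem crv_nn6 {q : ℕ} {y : ℝ} (hq : InQ q y) (j : Fin (n + 1)) : 0 ≤ crv P j q y := by
  have hp := h0_pos
  have hh := h0_sq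
  have hT : 0 ≤ h0 * y := mul_nonneg hp.le hq.nonneg
  have h3 : (h0 * y) ^ 2 ≤ 3 := by
    rw [mul_pow, hh]
    nlinarith [hq.le_two, hq.nonneg]
  have := P.cv_mono hT h3 (Fin.zero_le j)
  rw [show P.cv 0 (h0 * y) = crv P 0 q y from linkX P 0 q y hq,
    show P.cv j (h0 * y) = crv P j q y from linkX P j q y hq, crv_O] at this
  exact (c1n_nn y).trans this

/-- The third side between two curves. -/
theorem thd_itp {R : Fin (n + 1) → ℕ → ℝ → ℝ → ℝ} (h : Pins P R x) {q : ℕ} {y X : ℝ} {b : Bool}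
    (hq : InQ q y) (i : Fin n) (k1 : 1 ≤ qqn X y) (k3 : qqn X y ≤ 3)
    (hX : 0 ≤ sgr b X) (a1 : crv P i.castSucc q y ≤ sgr b X) (a2 : sgr b X ≤ crv P i.succ q y)
    (hz : X = 0 → R i.castSucc q y x = 0) :
    thd P R q X y x = sgr b (itp (sgr b X) (crv P i.castSucc q y)
      (crv P i.succ q y - crv P i.castSucc q y) (R i.castSucc q y x) (R i.succ q y x)) := by
  rcases hX.eq_or_lt with h0 | h0
  · have hX : X = 0 := sgr_one b h0.symm
    subst hX
    have z : sgr b (0 : ℝ) = 0 := h0.symm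
    rw [z] at a1 a2
    have m := thd_seg h hq i k1 k3 a1 a2
    have hc : crv P i.castSucc q y = 0 := le_antisymm a1 (crv_nn6 hq _)
    rw [m, hz rfl, hc, z]
    unfold itp
    rw [sub_zero, sub_self, zero_div, mul_zero, zero_mul, add_zero, z]
  · rw [thd_sgr h0, thd_seg h hq i (by rwa [qqn_sgr]) (by rwa [qqn_sgr]) a1 a2]
    congr 1
    unfold itp
    rw [div_eq_mul_inv]
    ring

/-- The values on the unit circle. -/
theorem STab.Ok.r0 (h : T.Ok P RK RL x) (hs : SideOk P RK RL pc x) {Y : ℝ} (hq : InQ 2 Y) :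
    RK 0 2 Y x = KO T.D x Y (c1n Y) ∧ RL 0 2 Y x = LO T.D x (c1n Y) := by
  rcases lt_or_ge (h0 * Y) 1 with hlt | hge
  · have hon : OnC (0 : Fin (n + 1)) 2 Y := ⟨hq, fun _ => hlt⟩
    have m := h.nh0 hon
    constructor
    · have := m.tK
      unfold TightK at this
      simp only [tyO, Gt, Ty.px, jq] at this
      rw [this]
      unfold KO
      push_cast
      ring
    · have g := m.ge
      have := m.tL.tF g.2.1 g.1
      simp only [tyO, Ty.la, Ty.lb, Ty.px] at this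
      rw [this]
      unfold LO
      ring
  · have z0 : T.D.kf.v 0 x = 0 := by
      have := h.odd 0 (by norm_num)
      rw [neg_zero] at this
      linarith
    rw [hs.pinK.one 2 Y hq hge, hs.pinL.one 2 Y hq hge, c1n_off hge]
    unfold KO LO
    rw [neg_zero, z0]
    constructor <;> ring

theorem c1n_off6 {Y : ℝ} (h : 1 ≤ 3 / 4 * Y ^ 2) : c1n Y = 0 := by
  unfold c1n
  exact Real.sqrt_eq_zero_of_nonpos (by linarith)

/-- **The facts about the third side next to the top of the unit circle.** -/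
theorem STab.Ok6.uh6 (h6 : T.Ok6 W i1 P RK RL pc x) (h : T.Ok P RK RL x)
    (hs : SideOk P RK RL pc x) {X Y : ℝ}
    (hq : InQ 2 Y) (k1 : 1 ≤ qqn X Y) (k3 : qqn X Y ≤ 3) :
    UH6 T.D (T.S .u2 2) T.V W x X Y ((pc 2).K.v X Y x) ((pc 2).L.v X Y x) := by
  have eK := hs.thK 2 X Y hq k1 k3
  have eL := hs.thL 2 X Y hq k1 k3
  have ec : cuR .u2 Y = c1n Y := by unfold cuR c1n; simp only [Ty.nq]
  have ef : (T.S .u2 2).f.v Y = crv P T.i0.succ 2 Y := h.f0 2 Y hq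
  have hc0 := c1n_nn Y
  have hcX : ∀ b, 0 ≤ sgr b X → c1n Y ≤ sgr b X := by
    intro b hb
    unfold c1n
    rw [show sgr b X = √((sgr b X) ^ 2) from (Real.sqrt_sq hb).symm]
    apply Real.sqrt_le_sqrt
    rw [← qqn_sgr b] at k1
    unfold qqn at k1
    linarith
  have hz0 : X = 0 → 1 ≤ 3 / 4 * Y ^ 2 := by
    intro hX
    rw [hX] at k1
    unfold qqn at k1
    linarith
  obtain ⟨r0K, r0L⟩ := h.r0 hs hq
  have e0 : crv P T.i0.castSucc 2 Y = c1n Y := by rw [h.i0, crv_O]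
  have z0 : T.D.kf.v 0 x = 0 := by
    have := h.odd 0 (by norm_num)
    rw [neg_zero] at this
    linarith
  have R0z : X = 0 → RK 0 2 Y x = 0 ∧ RL 0 2 Y x = 0 := by
    intro hX
    rw [r0K, r0L, c1n_off6 (hz0 hX)]
    unfold KO LO
    rw [neg_zero, z0]
    constructor <;> ring
  refine ⟨h6.c2h, h.kn, h.tn, h.odd, ?_, ?_, ?_, ?_, ?_, ?_⟩
  · intro b a0 a1 a2 a3 a4
    rw [ec] at a3 ⊢
    rw [ef] at a1 ⊢
    obtain ⟨b1, b2⟩ := h6.b1 Y hq a2 a3
    have hf := h6.fr Y hq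
    refine ⟨hcX b a0, hf, ?_, ?_⟩
    · rw [← eK, thd_itp hs.pinK (b := b) hq T.i0 k1 k3 a0 (by rw [e0]; exact hcX b a0) a1
        (fun hX => by rw [h.i0]; exact (R0z hX).1), e0, h.i0, r0K, h.vK Y hq, b1, hf,
        add_sub_cancel_left]
    · rw [← eL, thd_itp hs.pinL (b := b) hq T.i0 k1 k3 a0 (by rw [e0]; exact hcX b a0) a1
        (fun hX => by rw [h.i0]; exact (R0z hX).2), e0, h.i0, r0L, h.vX Y hq, b2, hf,
        add_sub_cancel_left]
  · intro b a1 a2 a4 a5 a3 a6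
    rw [ec] at a3 ⊢
    rw [ef] at a1 a4 ⊢
    rw [h6.f2 Y hq] at a2 a4 ⊢
    obtain ⟨b1, b2⟩ := h6.b1 Y hq a5 a3
    obtain ⟨c1, c2⟩ := h6.a2 Y hq a6 a3
    have a0 : 0 ≤ sgr b X := (crv_nn6 hq _).trans a1
    have hne : X ≠ 0 := fun hX => absurd (hz0 hX) (not_le.2 a6)
    constructor
    · rw [← eK, thd_itp hs.pinK (b := b) hq i1 k1 k3 a0 (by rw [h6.hi]; exact a1) a2
        (fun hX => absurd hX hne), h6.hi, h.vK Y hq, b1, c1]
    · rw [← eL, thd_itp hs.pinL (b := b) hq i1 k1 k3 a0 (by rw [h6.hi]; exact a1) a2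
        (fun hX => absurd hX hne), h6.hi, h.vX Y hq, b2, c2]
  · intro b a1 a2 a4 a5 a6
    rw [ef] at a1 a4 ⊢
    rw [h6.f2 Y hq] at a2 a4 ⊢
    have hc := c1n_off6 a6
    obtain ⟨b1, b2⟩ := h6.b1 Y hq a5 (by rw [hc]; exact h6.c2n)
    rw [hc, mul_zero, add_zero] at b1 b2
    obtain ⟨c1, c2⟩ := h6.b2 Y hq a6 a5
    have a0 : 0 ≤ sgr b X := (crv_nn6 hq _).trans a1
    have hf0 : X = 0 → crv P T.i0.succ 2 Y = 0 := by
      intro hX
      refine le_antisymm ?_ (crv_nn6 hq _)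
      have : sgr b X = 0 := by rw [hX]; cases b <;> simp [sgr]
      rw [this] at a1
      exact a1
    constructor
    · rw [← eK, thd_itp hs.pinK (b := b) hq i1 k1 k3 a0 (by rw [h6.hi]; exact a1) a2
        (fun hX => by rw [h6.hi, h.vK Y hq, hf0 hX, zero_mul]), h6.hi, h.vK Y hq, b1, c1]
    · rw [← eL, thd_itp hs.pinL (b := b) hq i1 k1 k3 a0 (by rw [h6.hi]; exact a1) a2
        (fun hX => by rw [h6.hi, h.vX Y hq, hf0 hX, zero_mul]), h6.hi, h.vX Y hq, b2, c2]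
  · intro b a0 a6 a5 a1
    rw [ef] at a1
    have hc := c1n_off6 a6
    obtain ⟨b1, b2⟩ := h6.b1 Y hq a5 (by rw [hc]; exact h6.c2n)
    rw [hc, mul_zero, add_zero] at b1 b2
    have hab : |X| ≤ crv P T.i0.succ 2 Y := by rw [abs_of_sgr a0]; exact a1
    have u0 : RK 0 2 Y x = c1n Y * (1 - (Y - 1) * T.V.k0.v x) := by
      rw [r0K, hc]
      unfold KO
      rw [neg_zero, z0]
      ring
    have u1 : RL 0 2 Y x = c1n Y * T.V.m0.v x := by
      rw [r0L, hc]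
      unfold LO
      rw [neg_zero]
      ring
    constructor
    · rw [← eK, seg_prop hs.pinK h.i0 hq k1 k3 hab u0 (by rw [h.vK Y hq, b1])]
    · rw [← eL, seg_prop hs.pinL h.i0 hq k1 k3 hab u1 (by rw [h.vX Y hq, b2])]
      ring
  · intro h1 h2
    rw [ec]
    exact h6.pA X Y h1 h2
  · exact fun h1 h2 => h6.pB X Y h1 h2

variable {κ : ℝ} {a b c : ℕ} {cn : Con} {s1 s2 : Bool} {m u U : Ty} {n1 n2 : Node}
  {j k : Fin (n + 1)}

/-- **Strips next to the top, family `A`, far vertex.** -/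
theorem STab.Ok6.extA (h6 : T.Ok6 W i1 P RK RL pc x) (h : T.Ok P RK RL x)
    (hs : SideOk P RK RL pc x) (hκ : κ * h0 = ken x)
    (hc : con a b c = some cn) (hI : okI true m u U = true) (hm : NTy n j a s1 m)
    (hu : NTy n k b s2 u) (hU : U.inq c) :
    ExtA (VF κ) P RK RL pc (strExt6 T.D true s1 s2 m u U cn a b c hI hc (T.S U c) T.V W n1 n2)
      n1 n2 a b c j k (sgb s1) (sgb s2) x := by
  intro y y' p p' F A1 A2 hP
  have e1 : sgr s1 (n1.X.v p) = sgb s1 * crv P j a y := by rw [A1.X, sgr_eq]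
  have e2 : sgr s2 (n2.X.v p') = sgb s2 * crv P k b y' := by rw [A2.X, sgr_eq]
  have H1 := h.node hm F.on1
  have H2 := h.node hu F.on2
  have H3 := h.uh hs hU F.q3 F.len1 F.len3
  obtain ⟨γ, hγ⟩ := hP (sgb s1 * RK j a y x) (sgb s1 * RL j a y x) (sgb s2 * RK k b y' x)
    (sgb s2 * RL k b y' x) _ _ (sgb s1 * crv P j a y + sgb s2 * crv P k b y') (y + y') h.ok
    (by rw [e1, e2]; simp only [eps, cond_true]; ring) (by rw [A1.Y, A2.Y]; simp only [eps, cond_true]; ring)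
    (by rw [e1, A1.Y]; exact H1) (by rw [e2, A2.Y]; exact H2) H3
    (fun hu2 => by
      subst hu2
      have hc2 : c = 2 := hU
      subst hc2
      exact h6.uh6 h hs F.q3 F.len1 F.len3)
    (by rw [A1.K, sgr_eq]) (by rw [A1.L, sgr_eq]) (by rw [A2.K, sgr_eq]) (by rw [A2.L, sgr_eq])
    F.len1 F.len3
  refine F.ngv hc ⟨γ, ?_⟩
  rw [hκ]
  rw [e1, e2, A1.Y, A2.Y, h.kh] at hγ
  simp only [cond_true] at hγ
  unfold slt lvF exA vlA exn'
  have e3 : (sgb s1 * crv P j a y * (y + y') - (sgb s1 * crv P j a y + sgb s2 * crv P k b y') * y) / 2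
      - 1 / 2 = (sgb s1 * crv P j a y * y' - sgb s2 * crv P k b y' * y) / 2 - 1 / 2 := by ring
  rw [e3]
  exact hγ

/-- **Strips next to the top, family `B`, far vertex.** -/
theorem STab.Ok6.extB (h6 : T.Ok6 W i1 P RK RL pc x) (h : T.Ok P RK RL x)
    (hs : SideOk P RK RL pc x) (hκ : κ * h0 = ken x)
    (hc : con a b c = some cn) (hI : okI false m u U = true) (hm : NTy n j a s1 m)
    (hu : NTy n k c s2 u) (hU : U.inq b) :
    ExtB (VF κ) P RK RL pc (strExt6 T.D false s1 s2 m u U cn a b c hI hc (T.S U b) T.V W n1 n2)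
      n1 n2 a b c j k (sgb s1) (sgb s2) x := by
  intro y y' p p' F A1 A2 hP
  have e1 : sgr s1 (n1.X.v p) = sgb s1 * crv P j a y := by rw [A1.X, sgr_eq]
  have e2 : sgr s2 (n2.X.v p') = sgb s2 * crv P k c (y + y') := by rw [A2.X, sgr_eq]
  have H1 := h.node hm F.on1
  have H2 := h.node hu F.on3
  have H3 := h.uh hs hU F.q2 F.len1 F.len3
  obtain ⟨γ, hγ⟩ := hP (sgb s1 * RK j a y x) (sgb s1 * RL j a y x) (sgb s2 * RK k c (y + y') x)
    (sgb s2 * RL k c (y + y') x) _ _ (sgb s2 * crv P k c (y + y') - sgb s1 * crv P j a y) y' h.ok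
    (by rw [e1, e2]; simp only [eps, cond_false]; ring) (by rw [A1.Y, A2.Y]; simp only [eps, cond_false]; ring)
    (by rw [e1, A1.Y]; exact H1) (by rw [e2, A2.Y]; exact H2) H3
    (fun hu2 => by
      subst hu2
      have hc2 : b = 2 := hU
      subst hc2
      exact h6.uh6 h hs F.q2 F.len1 F.len3)
    (by rw [A1.K, sgr_eq]) (by rw [A1.L, sgr_eq]) (by rw [A2.K, sgr_eq]) (by rw [A2.L, sgr_eq])
    F.len1 F.len3
  refine F.ngv hc ⟨γ, ?_⟩
  rw [hκ]
  rw [e1, e2, A1.Y, A2.Y, h.kh] at hγ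
  simp only [cond_false] at hγ
  unfold slt lvF exB vlB exn'
  exact hγ

end

end Pool.Agent.Strip051.PB
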