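import Pool.Agent.Strip051.PB.StripQ

/-! # Unit strips next to the top of the unit circle: soundness -/

namespace Pool.Agent.Strip051.PB

attribute [local irreducible] padd psub pneg pmul psq pinv psqrt psqrtg pabs pps pmax pmin pphi plam
  pcase phf pnat prat pscale pnorm pdc pnc pone ppos pnn Enc

/-- the values on the unit circle at the abscissa `c` -/
noncomputable def KO (D : SDat) (x Y c : ℝ) : ℝ := c + (Y - 1) * D.kf.v (-c) x
noncomputable def LO (D : SDat) (x c : ℝ) : ℝ := D.tF x (-c) - D.tF x c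

/-- value between two curves with abscissae `c`, `c + g` and values `A`, `B` -/
noncomputable def itp (a c g A B : ℝ) : ℝ := A + (a - c) * ((B - A) * g⁻¹)

/-- What is known about the third side next to the top of the unit circle. -/
structure UH6 (D : SDat) (S : Sg) (V : Vt) (W : Wt) (x X Y KU LU : ℝ) : Prop where
  c2h : W.c2.v ≤ 1 / 2
  kn : ∀ z, |z| ≤ V.k1.v → D.kf.v (-z) x = -(V.k0.v x * z)
  tn : ∀ z, |z| ≤ V.k1.v → D.tF x (-z) - D.tF x z = V.m0.v x * z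
  odd : ∀ p, |p| ≤ 1 / 2 → D.kf.v (-p) x = -D.kf.v p x
  g6 : ∀ b, 0 ≤ sgr b X → sgr b X ≤ S.f.v Y → Y ≤ V.yb.v → cuR .u2 Y ≤ W.c2.v →
    0 < W.FR.v Y → cuR .u2 Y ≤ sgr b X ∧ S.f.v Y = cuR .u2 Y + W.FR.v Y ∧
    KU = sgr b (itp (sgr b X) (cuR .u2 Y) (W.FR.v Y) (KO D x Y (cuR .u2 Y))
      ((cuR .u2 Y + W.FR.v Y) * (1 - (Y - 1) * V.k0.v x + W.qK.v x * cuR .u2 Y))) ∧
    LU = sgr b (itp (sgr b X) (cuR .u2 Y) (W.FR.v Y) (LO D x (cuR .u2 Y))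
      ((cuR .u2 Y + W.FR.v Y) * (V.m0.v x + W.qX.v x * cuR .u2 Y)))
  sA : ∀ b, S.f.v Y ≤ sgr b X → sgr b X ≤ W.f2.v Y → 0 < W.f2.v Y - S.f.v Y → Y ≤ V.yb.v →
    cuR .u2 Y ≤ W.c2.v → 3 / 4 * Y ^ 2 < 1 →
    KU = sgr b (itp (sgr b X) (S.f.v Y) (W.f2.v Y - S.f.v Y)
      (S.f.v Y * (1 - (Y - 1) * V.k0.v x + W.qK.v x * cuR .u2 Y))
      (W.f2.v Y * (W.a0K.v x + W.a1K.v x * cuR .u2 Y))) ∧
    LU = sgr b (itp (sgr b X) (S.f.v Y) (W.f2.v Y - S.f.v Y)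
      (S.f.v Y * (V.m0.v x + W.qX.v x * cuR .u2 Y))
      (W.f2.v Y * (W.a0X.v x + W.a1X.v x * cuR .u2 Y)))
  sB : ∀ b, S.f.v Y ≤ sgr b X → sgr b X ≤ W.f2.v Y → 0 < W.f2.v Y - S.f.v Y → Y ≤ V.yb.v →
    1 ≤ 3 / 4 * Y ^ 2 →
    KU = sgr b (itp (sgr b X) (S.f.v Y) (W.f2.v Y - S.f.v Y)
      (S.f.v Y * (1 - (Y - 1) * V.k0.v x)) (W.f2.v Y * (W.b0K.v x + W.b1K.v x * (Y - W.y2.v)))) ∧
    LU = sgr b (itp (sgr b X) (S.f.v Y) (W.f2.v Y - S.f.v Y)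
      (S.f.v Y * V.m0.v x) (W.f2.v Y * (W.b0X.v x + W.b1X.v x * (Y - W.y2.v))))
  f1 : ∀ b, 0 ≤ sgr b X → 1 ≤ 3 / 4 * Y ^ 2 → Y ≤ V.yb.v → sgr b X ≤ S.f.v Y →
    KU = X * (1 - (Y - 1) * V.k0.v x) ∧ LU = V.m0.v x * X
  rA : W.ym.v < Y → 3 / 4 * Y ^ 2 < 1 → KU = W.AK.v X (cuR .u2 Y) Y x ∧
    LU = W.AL.v X (cuR .u2 Y) Y x
  rB : W.ym.v < Y → 1 ≤ 3 / 4 * Y ^ 2 → KU = W.B.K.v X Y x ∧ LU = W.B.L.v X Y x

theorem sgr_smul (b : Bool) (u v : ℝ) : sgr b (u * v) = sgr b u * v := by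
  cases b
  · show -(u * v) = -u * v
    ring
  · rfl

theorem sgq_add (b : Bool) (u v : ℝ) : sgr b (u + v) = sgr b u + sgr b v := by
  cases b
  · show -(u + v) = -u + -v
    ring
  · rfl

theorem sgq_sub (b : Bool) (u v : ℝ) : sgr b (u - v) = sgr b u - sgr b v := by
  cases b
  · show -(u - v) = -u - -v
    ring
  · rfl

section

variable {E : Pt} {D : SDat} {U : Ty} {S : Sg} {V : Vt} {W : Wt} {q : ℕ} {b : Bool}
  {x X Y KU LU px py κ0 dx dy N : ℝ} {x' X' Y' T' px' py' k' dx' dy' f' : ℕ}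
  {fin : ℕ → ℕ → Bool}

theorem gqT_enc (hD : D.Ok x) (hx : Enc E x' x) {A' : ℕ} {a : ℝ} (hA : Enc E A' a)
    (h3 : Enc E px' px) (h4 : Enc E py' py) (ha : |a| ≤ 1 / 2) (hp : qqn px py = 1)
    (hp1 : 1 ≤ py) : ∃ e, Enc E (gqT D A' px' py' x') e ∧
      D.tF x (-a) - D.tF x a - (D.tF x (-px) - D.tF x px) = -((a - px) * e) := by
  obtain ⟨p0, p1, p2⟩ := unit_cT hp hp1
  have a0' : |-a| ≤ 1 / 2 := by rwa [abs_neg]
  have p0' : |-px| ≤ 1 / 2 := by rwa [abs_neg]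
  have q1 := enc_csT (enc_neg hA)
  have q2 := enc_csT hA
  have c1 := enc_cast (enc_add (enc_t34 h4) (enc_half h3)) p1.symm
  have c2 := enc_cast (enc_sub (enc_t34 h4) (enc_half h3)) p2.symm
  obtain ⟨l, hl, el⟩ := txd_sound hx hD.kok hD.kf D.TX hD.tok (enc_neg hA) (enc_neg h3) q1 c1
    (enc_one E) (enc_cdd (enc_neg hA) (enc_neg h3) q1 c1) a0' p0' (μ := -a - -px) (by ring)
    (cdR_mul a0' p0')
  obtain ⟨r, hr, er⟩ := txd_sound hx hD.kok hD.kf D.TX hD.tok hA h3 q2 c2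
    (enc_one E) (enc_cdd hA h3 q2 c2) ha p0 (μ := a - px) (by ring) (cdR_mul ha p0)
  unfold gqT
  simp only [frc_eq]
  refine ⟨_, enc_add hl hr, ?_⟩
  unfold SDat.tF
  linear_combination el - er

theorem enc_phg (hD : D.Ok x) (hx : Enc E x' x) {A' : ℕ} {a : ℝ} {sm : Bool}
    (hA : Enc E A' a) (h3 : Enc E px' px) (h4 : Enc E py' py) (ha : |a| ≤ 1 / 2)
    (hp : qqn px py = 1) (hp1 : 1 ≤ py) (hk : V.PH.KOk x)
    (hph : ∀ u, |u| ≤ V.k2.v → D.tF x (-u) - D.tF x u = V.m0.v x * u + V.PH.kv u x)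
    (hs : sm = true → |a| ≤ V.k2.v ∧ |px| ≤ V.k2.v) : ∃ e, Enc E (phg D V sm A' px' py' x') e ∧
      D.tF x (-a) - D.tF x a - (D.tF x (-px) - D.tF x px) = (a - px) * (V.m0.v x + e) := by
  unfold phg
  cases sm
  · rw [sel2_false]
    obtain ⟨e, he, ee⟩ := gqT_enc hD hx hA h3 h4 ha hp hp1
    exact ⟨_, enc_norm (enc_neg (enc_add he (V.m0.enc hx))), by linear_combination ee⟩
  · rw [sel2_true]
    obtain ⟨s1, s2⟩ := hs rfl
    obtain ⟨e, he, ee⟩ := kcd_sound hx V.PH hk hA h3 (enc_one E) (μ := a - px) (by ring)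
    refine ⟨_, enc_norm he, ?_⟩
    rw [hph a s1, hph px s2]
    linear_combination ee

theorem vb0_enc (hD : D.Ok x) (hx : Enc E x' x) (hX : Enc E X' X) {q' : ℕ}
    (hq : Enc E q' (qqn X Y))
    (hT : Enc E T' (Y - 1)) (h3 : Enc E px' px) (h4 : Enc E py' py) (hk : Enc E k' κ0)
    (h5 : Enc E dx' dx) (h6 : Enc E dy' dy) (z0 : D.kf.v 0 x = 0) (hPH : V.PH.KOk x)
    (hph : ∀ u, |u| ≤ V.k2.v → D.tF x (-u) - D.tF x u = V.m0.v x * u + V.PH.kv u x)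
    (hp : qqn px py = 1) (hp1 : 1 ≤ py) (hκ : (py - 1) * κ0 = px)
    (g1 : X = px + N * dx) (g2 : Y = py + N * dy) (g3 : qqn X Y - 1 = 3 / 16 * N)
    (hq1 : 0 < qqn X Y - 1)
    (h : vb0 D V q' X' T' px' py' k' dx' dy' x' fin = true) :
    ∃ R L r l, Enc E R r ∧ Enc E L l ∧
      X * (1 - (Y - 1) * V.k0.v x) = (Y - 1) * (κ0 + D.kf.v (-px) x) + N * r ∧
      V.m0.v x * X = D.tF x (-px) - D.tF x px + N * l ∧ fin R L = true := by
  unfold vb0 at h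
  simp only [frc_eq] at h
  have hz := enc_mul (enc_nat 3 hX) (enc_inv (enc_nat 16 (enc_sub hq (enc_one E))))
  have hNz : X = N * (((3 : ℕ) : ℝ) * X * (((16 : ℕ) : ℝ) * (qqn X Y - 1))⁻¹) := by
    have hi := inv_mul_cancel₀ (show ((16 : ℕ) : ℝ) * (qqn X Y - 1) ≠ 0 from
      (mul_pos (by norm_num) hq1).ne')
    push_cast at hi ⊢
    linear_combination (-X) * hi + 16 * X * (16 * (qqn X Y - 1))⁻¹ * g3
  set z := ((3 : ℕ) : ℝ) * X * (((16 : ℕ) : ℝ) * (qqn X Y - 1))⁻¹ with hzdef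
  obtain ⟨p0, p1, p2⟩ := unit_cT hp hp1
  obtain ⟨dk, hdk, ek⟩ := kcd_sound hx D.KC hD.kok (enc_dc0' E) (enc_neg h3) (enc_one E)
    (μ := 0 - -px) (by ring)
  rw [← hD.kf _ (by norm_num), ← hD.kf _ (by rwa [abs_neg])] at ek
  obtain ⟨fl, hfl, efl⟩ := enc_phg (V := V)
    (sm := pnn (psub V.k2.t (pabs px'))) hD hx (enc_dc0' E) h3 h4
    (by norm_num) hp hp1 hPH hph (fun hs => by
      have t2 := pnn_sound (enc_sub (V.k2.enc E) (enc_abs h3)) hs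
      have := abs_nonneg px
      rw [abs_zero]
      constructor <;> linarith)
  rw [neg_zero, sub_self] at efl
  have hdk' := enc_norm hdk
  refine ⟨_, _, _, _, enc_sub (enc_sub h5 (enc_mul h6 hk)) (enc_mul hT (enc_norm (enc_add
    (enc_mul hdk' h5) (enc_mul (enc_norm (enc_sub (V.k0.enc hx) hdk')) hz)))),
    enc_sub (enc_mul (enc_norm (enc_add (V.m0.enc hx) hfl)) h5) (enc_mul hfl hz), ?_, ?_, h⟩
  · linear_combination ((Y - 1) * dk - (Y - 1) * V.k0.v x) * hNz + (1 - (Y - 1) * dk) * g1 -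
      κ0 * g2 - hκ + (Y - 1) * ek - (Y - 1) * z0
  · linear_combination efl + (V.m0.v x + fl) * g1 - fl * hNz

/-! ### The first segment -/

theorem itp_lin {a c g u r : ℝ} (hg : 0 < g) :
    itp a c g (c * u) ((c + g) * (u + r * c)) = a * u + (a - c) * c * (1 + c * g⁻¹) * r := by
  have hi := inv_mul_cancel₀ hg.ne'
  unfold itp
  linear_combination ((a - c) * (u + r * c)) * hi

theorem cuR_nn (Y : ℝ) : 0 ≤ cuR .u2 Y := Real.sqrt_nonneg _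

theorem cuR_sq {Y : ℝ} (h : 3 / 4 * Y ^ 2 ≤ 1) : cuR .u2 Y ^ 2 = 1 - 3 / 4 * Y ^ 2 :=
  Real.sq_sqrt (by simp only [Ty.nq]; linarith)

theorem cuR_off {Y : ℝ} (h : 1 ≤ 3 / 4 * Y ^ 2) : cuR .u2 Y = 0 :=
  Real.sqrt_eq_zero_of_nonpos (by simp only [Ty.nq]; linarith)

/-- The quotient of the correction. -/
theorem rho_ex (hc : cuR .u2 Y ≤ sgr b X) (g3 : qqn X Y - 1 = 3 / 16 * N) :
    ∃ ρ : ℝ, 0 ≤ ρ ∧ ρ ≤ 1 / 2 ∧ (sgr b X - cuR .u2 Y) * cuR .u2 Y = 3 / 16 * N * ρ ∧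
      (0 < sgr b X + cuR .u2 Y →
        ρ = 1 - 16 * sgr b X * (16 * (sgr b X + cuR .u2 Y))⁻¹) := by
  have c0 := cuR_nn Y
  have a0 := c0.trans hc
  refine ⟨cuR .u2 Y / (sgr b X + cuR .u2 Y), by positivity, ?_, ?_, fun h => ?_⟩
  · rcases (add_nonneg a0 c0).eq_or_lt with h | h
    · rw [← h, div_zero]
      norm_num
    · rw [div_le_iff₀ h]
      linarith
  · rcases c0.eq_or_lt with h | h
    · rw [← h]
      simp
    · have h1 : 3 / 4 * Y ^ 2 < 1 := by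
        by_contra hh
        rw [cuR_off (not_lt.1 hh)] at h
        exact lt_irrefl _ h
      have h2 := cuR_sq h1.le
      have h3 : sgr b X + cuR .u2 Y ≠ 0 := by positivity
      have h4 := sgu_sq b X
      have h5 : (sgr b X - cuR .u2 Y) * (sgr b X + cuR .u2 Y) = 3 / 16 * N := by
        unfold qqn at g3
        linear_combination h4 - h2 + g3
      rw [← h5]
      field_simp
  · have h3 := h.ne'
    field_simp
    ring

theorem sgr_one (b : Bool) (h : sgr b X = 0) : X = 0 := by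
  rw [← sgu_sgr b X, h]
  cases b <;> simp [sgr]

/-- The values on the first segment, linear range of the unit circle. -/
theorem fst6 (H : UH6 D S V W x X Y KU LU) (a0 : 0 ≤ sgr b X) (a1 : sgr b X ≤ S.f.v Y)
    (a2 : Y ≤ V.yb.v) (a3 : cuR .u2 Y ≤ W.c2.v) (a4 : 0 < W.FR.v Y) (a5 : cuR .u2 Y ≤ V.k1.v) :
    KU = X * (1 - (Y - 1) * V.k0.v x) + sgr b ((sgr b X - cuR .u2 Y) * cuR .u2 Y *
        (1 + cuR .u2 Y * (W.FR.v Y)⁻¹)) * W.qK.v x ∧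
      LU = V.m0.v x * X + sgr b ((sgr b X - cuR .u2 Y) * cuR .u2 Y *
        (1 + cuR .u2 Y * (W.FR.v Y)⁻¹)) * W.qX.v x := by
  obtain ⟨h1, -, hK, hL⟩ := H.g6 b a0 a1 a2 a3 a4
  have hc : |cuR .u2 Y| ≤ V.k1.v := by rwa [abs_of_nonneg (cuR_nn Y)]
  have e1 : KO D x Y (cuR .u2 Y) = cuR .u2 Y * (1 - (Y - 1) * V.k0.v x) := by
    unfold KO
    rw [H.kn _ hc]
    ring
  have e2 : LO D x (cuR .u2 Y) = cuR .u2 Y * V.m0.v x := by
    unfold LO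
    rw [H.tn _ hc]
    ring
  rw [e1, itp_lin a4, sgq_add, sgr_smul, sgr_smul, sgu_sgr] at hK
  rw [e2, itp_lin a4, sgq_add, sgr_smul, sgr_smul, sgu_sgr] at hL
  exact ⟨hK, by rw [hL]; ring⟩

theorem enc_gfac {R' c' : ℕ} {ρ c : ℝ} (hR : Enc E R' ρ) (hc : Enc E c' c) (hY : Enc E Y' Y) :
    Enc E (gfac W R' c' Y') (3 / 16 * ρ * (1 + c * (W.FR.v Y)⁻¹)) :=
  enc_norm (enc_cast (enc_mul (enc_norm (enc_scale 3 16 hR)) (enc_norm (enc_add (enc_one E)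
    (enc_mul hc (enc_inv (W.FR.enc hY)))))) (by push_cast; ring))

theorem enc_rhoT {a' c' : ℕ} {a c : ℝ} (ha : Enc E a' a) (hc : Enc E c' c) :
    Enc E (rhoT a' c') (1 - 16 * a * (16 * (a + c))⁻¹) :=
  enc_norm (enc_cast (enc_sub (enc_one E) (enc_mul (enc_nat 16 ha)
    (enc_inv (enc_nat 16 (enc_add ha hc))))) (by push_cast; ring))

/-- the correction from the factor -/
theorem cor_eq {b : Bool} {a c ρ g N : ℝ} (h : (a - c) * c = 3 / 16 * N * ρ) :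
    sgr b ((a - c) * c * (1 + c * g⁻¹)) = N * sgr b (3 / 16 * ρ * (1 + c * g⁻¹)) := by
  rw [h, ← sgu_mul]
  congr 1
  ring

theorem cn6_sound {aX c' : ℕ} {a f c : ℝ} {k : Bool} (hY : Enc E Y' Y) (ha : Enc E aX a)
    (hf : Enc E f' f) (hc : Enc E c' c) (h : cn6 V W aX f' c' Y' k = true) :
    a ≤ f ∧ Y ≤ V.yb.v ∧ c ≤ W.c2.v ∧ 0 < W.FR.v Y ∧ k = true := by
  unfold cn6 at h
  obtain ⟨c1, h⟩ := band_true h
  obtain ⟨c2, h⟩ := band_true h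
  obtain ⟨c3, h⟩ := band_true h
  obtain ⟨c4, h⟩ := band_true h
  have h1 := pnn_sound (enc_sub hf ha) c1
  have h2 := pnn_sound (enc_sub (V.yb.enc E) hY) c2
  have h3 := pnn_sound (enc_sub (W.c2.enc E) hc) c3
  exact ⟨by linarith, by linarith, by linarith, ppos_sound (W.FR.enc hY) c4, h⟩

theorem cor1_sound {G' r' l' : ℕ} {γ r l : ℝ} (hx : Enc E x' x) (hG : Enc E G' γ)
    (hr : Enc E r' r) (hl : Enc E l' l) (h : cor1 W G' x' fin r' l' = true) :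
    ∃ R L, Enc E R (r + γ * W.qK.v x) ∧ Enc E L (l + γ * W.qX.v x) ∧ fin R L = true :=
  ⟨_, _, enc_add hr (enc_mul hG (W.qK.enc hx)), enc_add hl (enc_mul hG (W.qX.enc hx)), h⟩

theorem cor4_sound {g : ℕ → ℕ} {r' l' k i : ℕ} {γ r l : ℝ} {fn : ℕ → ℕ → ℕ → Bool}
    (hx : Enc E x' x) (hi : i < 4) (hG : Enc E (g i) γ)
    (hr : Enc E r' r) (hl : Enc E l' l) (h : cor4 W g x' k fn r' l' = true) :
    ∃ R L, Enc E R (r + γ * W.qK.v x) ∧ Enc E L (l + γ * W.qX.v x) ∧ fn (lvp i k) R L = true := by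
  unfold cor4 at h
  simp only [frc_eq] at h
  exact ⟨_, _, enc_add hr (enc_mul hG (W.qK.enc hx)), enc_add hl (enc_mul hG (W.qX.enc hx)),
    all4_true h hi⟩

theorem cor8_sound {g : ℕ → ℕ} {r' l' k i : ℕ} {γ r l : ℝ} {fn : ℕ → ℕ → ℕ → Bool}
    (hx : Enc E x' x) (hi : i < 8) (hG : Enc E (g i) γ)
    (hr : Enc E r' r) (hl : Enc E l' l) (h : cor8 W g x' k fn r' l' = true) :
    ∃ R L, Enc E R (r + γ * W.qK.v x) ∧ Enc E L (l + γ * W.qX.v x) ∧ fn (lvp i k) R L = true := by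
  unfold cor8 at h
  simp only [frc_eq] at h
  exact ⟨_, _, enc_add hr (enc_mul hG (W.qK.enc hx)), enc_add hl (enc_mul hG (W.qX.enc hx)),
    all8_true h hi⟩

/-- From base values and a correction to the result of the analysis. -/
theorem ThR.cor {R L : ℕ} {r l B C γ : ℝ} (hR : Enc E R (r + γ * W.qK.v x))
    (hL : Enc E L (l + γ * W.qX.v x)) (eB : B = (Y - 1) * (κ0 + D.kf.v (-px) x) + N * r)
    (eC : C = D.tF x (-px) - D.tF x px + N * l) (eK : KU = B + N * γ * W.qK.v x)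
    (eL : LU = C + N * γ * W.qX.v x) (h : fin R L = true) :
    ThR E D .u2 2 x Y px κ0 N KU LU fin := by
  refine ⟨R, L, _, _, hR, hL, ?_, ?_, h⟩
  · rw [eK, eB]
    simp only [jq]
    push_cast
    ring
  · rw [eL, eC]
    simp only [Ty.la, Ty.lb]
    ring

end

section

variable {E : Pt} {D : SDat} {U : Ty} {S : Sg} {V : Vt} {W : Wt} {q : ℕ} {b : Bool}
  {x X Y KU LU px py κ0 dx dy N : ℝ} {x' X' Y' T' px' py' k' dx' dy' f' q' k : ℕ}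
  {fin : ℕ → ℕ → Bool} {fn : ℕ → ℕ → ℕ → Bool}

theorem abs_of_sgr (h : 0 ≤ sgr b X) : |X| = sgr b X := by
  rw [← abs_sgr b X, abs_of_nonneg h]

theorem vaR_sound (hD : D.Ok x) (hx : Enc E x' x) (hX : Enc E X' X) (hY : Enc E Y' Y)
    (hT : Enc E T' (Y - 1)) (h3 : Enc E px' px) (h4 : Enc E py' py) (hk : Enc E k' κ0)
    (h5 : Enc E dx' dx) (h6 : Enc E dy' dy) (H : UH D .u2 S V 2 x X Y KU LU)
    (H6 : UH6 D S V W x X Y KU LU) (hf : Enc E f' (S.f.v Y))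
    (hp : qqn px py = 1) (hp1 : 1 ≤ py) (hκ : (py - 1) * κ0 = px)
    (g1 : X = px + N * dx) (g2 : Y = py + N * dy) (g3 : qqn X Y - 1 = 3 / 16 * N)
    (h : vaR D V W b f' X' Y' T' px' py' k' dx' dy' x' fin = true) :
    ThR E D .u2 2 x Y px κ0 N KU LU fin := by
  unfold vaR at h
  simp only [frc_eq] at h
  obtain ⟨c1, h⟩ := band_true h
  have haX := enc_sg b hX
  have hc := enc_cuT .u2 hY
  have a0 := pnn_sound haX c1
  obtain ⟨a1, a2, a3, a4, h⟩ := cn6_sound hY haX hf hc h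
  obtain ⟨c2, h⟩ := band_true h
  obtain ⟨c3, h⟩ := band_true h
  obtain ⟨c4, h⟩ := band_true h
  have a5 := pnn_sound (enc_sub (V.k1.enc E) hc) c2
  have a6 := pnn_sound (enc_sub (V.k1.enc E) haX) c3
  have a7 := ppos_sound (enc_add haX hc) c4
  obtain ⟨g0, -, -, -⟩ := H6.g6 b a0 a1 a2 a3 a4
  obtain ⟨ρ, r0, r1, r2, r3⟩ := rho_ex g0 g3
  obtain ⟨eK, eL⟩ := fst6 H6 a0 a1 a2 a3 a4 (by linarith)
  rw [cor_eq r2] at eK eL
  have hX1 : |X| ≤ V.k1.v := by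
    rw [abs_of_sgr a0]
    linarith
  obtain ⟨R, L, r, l, hR, hL, e1, e2, hf'⟩ := vr_enc hD hx hX hT h3 h4 hk h5 h6
    (hX1.trans (H.k1 rfl)) hp hp1 hκ g1 g2 h
  rw [H6.kn _ hX1] at e1
  rw [H6.tn _ hX1] at e2
  obtain ⟨R', L', hR', hL', hff⟩ := cor1_sound hx (enc_sg b (enc_gfac (W := W)
    (enc_cast (enc_rhoT haX hc) (r3 a7).symm) hc hY)) hR hL hf'
  exact ThR.cor hR' hL' e1 e2 (by rw [eK]; ring) (by rw [eL]) hff

theorem vaP_sound (hD : D.Ok x) (hx : Enc E x' x) (hX : Enc E X' X) (hY : Enc E Y' Y)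
    (hT : Enc E T' (Y - 1)) (h3 : Enc E px' px) (h4 : Enc E py' py) (hk : Enc E k' κ0)
    (h5 : Enc E dx' dx) (h6 : Enc E dy' dy) (H : UH D .u2 S V 2 x X Y KU LU)
    (H6 : UH6 D S V W x X Y KU LU) (hf : Enc E f' (S.f.v Y))
    (hp : qqn px py = 1) (hp1 : 1 ≤ py) (hκ : (py - 1) * κ0 = px)
    (g1 : X = px + N * dx) (g2 : Y = py + N * dy) (g3 : qqn X Y - 1 = 3 / 16 * N)
    (h : vaP D V W b f' X' Y' T' px' py' k' dx' dy' x' k fn = true) :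
    ∃ g, ThR E D .u2 2 x Y px κ0 N KU LU (fn g) := by
  unfold vaP at h
  simp only [frc_eq] at h
  obtain ⟨c1, h⟩ := band_true h
  have haX := enc_sg b hX
  have hc := enc_cuT .u2 hY
  have a0 := pnn_sound haX c1
  obtain ⟨a1, a2, a3, a4, h⟩ := cn6_sound hY haX hf hc h
  obtain ⟨c2, h⟩ := band_true h
  obtain ⟨c3, h⟩ := band_true h
  have a5 := pnn_sound (enc_sub (V.k1.enc E) hc) c2
  have a6 := pnn_sound (enc_sub (V.k1.enc E) haX) c3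
  obtain ⟨g0, -, -, -⟩ := H6.g6 b a0 a1 a2 a3 a4
  obtain ⟨ρ, r0, r1, r2, -⟩ := rho_ex g0 g3
  obtain ⟨eK, eL⟩ := fst6 H6 a0 a1 a2 a3 a4 (by linarith)
  rw [cor_eq r2] at eK eL
  have hX1 : |X| ≤ V.k1.v := by
    rw [abs_of_sgr a0]
    linarith
  obtain ⟨R, L, r, l, hR, hL, e1, e2, hf'⟩ := vr_enc hD hx hX hT h3 h4 hk h5 h6
    (hX1.trans (H.k1 rfl)) hp hp1 hκ g1 g2 h
  rw [H6.kn _ hX1] at e1
  rw [H6.tn _ hX1] at e2
  obtain ⟨i, hi, hρ⟩ := part8h r0 r1 E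
  obtain ⟨R', L', hR', hL', hff⟩ := cor4_sound
    (g := fun i => sg b (gfac W (p8 i) (cuT .u2 Y') Y')) hx hi (enc_sg b (enc_gfac hρ hc hY))
    hR hL hf'
  exact ⟨_, ThR.cor hR' hL' e1 e2 (by rw [eK]; ring) (by rw [eL]) hff⟩

theorem vuP_sound (hD : D.Ok x) (hx : Enc E x' x) (hX : Enc E X' X) (hY : Enc E Y' Y)
    (hT : Enc E T' (Y - 1)) (h3 : Enc E px' px) (h4 : Enc E py' py) (hk : Enc E k' κ0)
    (h5 : Enc E dx' dx) (h6 : Enc E dy' dy) (H : UH D .u2 S V 2 x X Y KU LU)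
    (H6 : UH6 D S V W x X Y KU LU) (hf : Enc E f' (S.f.v Y))
    (hp : qqn px py = 1) (hp1 : 1 ≤ py) (hκ : (py - 1) * κ0 = px)
    (g1 : X = px + N * dx) (g2 : Y = py + N * dy) (g3 : qqn X Y - 1 = 3 / 16 * N)
    (h : vuP D V W f' X' Y' T' px' py' k' dx' dy' x' k fn = true) :
    ∃ g, ThR E D .u2 2 x Y px κ0 N KU LU (fn g) := by
  unfold vuP at h
  simp only [frc_eq] at h
  obtain ⟨b, hb⟩ : ∃ b, 0 ≤ sgr b X := by
    rcases le_total 0 X with h | h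
    · exact ⟨true, h⟩
    · exact ⟨false, neg_nonneg.2 h⟩
  have haX := enc_cast (enc_abs hX) (abs_of_sgr hb)
  have hc := enc_cuT .u2 hY
  obtain ⟨a1, a2, a3, a4, h⟩ := cn6_sound hY haX hf hc h
  obtain ⟨c2, h⟩ := band_true h
  obtain ⟨c3, h⟩ := band_true h
  have a5 := pnn_sound (enc_sub (V.k1.enc E) hc) c2
  have a6 := pnn_sound (enc_sub (V.k1.enc E) haX) c3
  obtain ⟨g0, -, -, -⟩ := H6.g6 b hb a1 a2 a3 a4
  obtain ⟨ρ, r0, r1, r2, -⟩ := rho_ex g0 g3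
  obtain ⟨eK, eL⟩ := fst6 H6 hb a1 a2 a3 a4 (by linarith)
  rw [cor_eq r2] at eK eL
  have hX1 : |X| ≤ V.k1.v := by
    rw [abs_of_sgr hb]
    linarith
  obtain ⟨R, L, r, l, hR, hL, e1, e2, hf'⟩ := vr_enc hD hx hX hT h3 h4 hk h5 h6
    (hX1.trans (H.k1 rfl)) hp hp1 hκ g1 g2 h
  rw [H6.kn _ hX1] at e1
  rw [H6.tn _ hX1] at e2
  obtain ⟨s0, s1⟩ : 0 ≤ sgr b ρ + 1 / 2 ∧ sgr b ρ + 1 / 2 ≤ 1 := by
    cases b
    · constructor
      · show 0 ≤ -ρ + 1 / 2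
        linarith
      · show -ρ + 1 / 2 ≤ 1
        linarith
    · constructor
      · show 0 ≤ ρ + 1 / 2
        linarith
      · show ρ + 1 / 2 ≤ 1
        linarith
  obtain ⟨i, hi, hρ⟩ := part8 s0 s1 E
  have hρ' : Enc E (psub (p8 i) (phn 1)) (sgr b ρ) :=
    enc_cast (enc_sub hρ (enc_phn E 1)) (by push_cast; ring)
  obtain ⟨R', L', hR', hL', hff⟩ := cor8_sound
    (g := fun i => gfac W (psub (p8 i) (phn 1)) (cuT .u2 Y') Y') hx hi (enc_gfac hρ' hc hY)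
    hR hL hf'
  have e3 : sgr b (3 / 16 * ρ * (1 + cuR .u2 Y * (W.FR.v Y)⁻¹)) =
      3 / 16 * sgr b ρ * (1 + cuR .u2 Y * (W.FR.v Y)⁻¹) := by
    cases b
    · show -(_) = 3 / 16 * -ρ * _
      ring
    · rfl
  rw [e3] at eK eL
  exact ⟨_, ThR.cor hR' hL' e1 e2 (by rw [eK]; ring) (by rw [eL]) hff⟩

theorem vbP_sound (hD : D.Ok x) (hx : Enc E x' x) (hX : Enc E X' X) (hY : Enc E Y' Y)
    (hq : Enc E q' (qqn X Y))
    (hT : Enc E T' (Y - 1)) (h3 : Enc E px' px) (h4 : Enc E py' py) (hk : Enc E k' κ0)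
    (h5 : Enc E dx' dx) (h6 : Enc E dy' dy) (H : UH D .u2 S V 2 x X Y KU LU)
    (H6 : UH6 D S V W x X Y KU LU) (hf : Enc E f' (S.f.v Y))
    (hp : qqn px py = 1) (hp1 : 1 ≤ py) (hκ : (py - 1) * κ0 = px)
    (g1 : X = px + N * dx) (g2 : Y = py + N * dy) (g3 : qqn X Y - 1 = 3 / 16 * N)
    (h : vbP D V W b f' q' X' Y' T' px' py' k' dx' dy' x' k fn = true) :
    ∃ g, ThR E D .u2 2 x Y px κ0 N KU LU (fn g) := by
  unfold vbP at h
  simp only [frc_eq] at h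
  obtain ⟨c1, h⟩ := band_true h
  have haX := enc_sg b hX
  have hc := enc_cuT .u2 hY
  have a0 := pnn_sound haX c1
  obtain ⟨a1, a2, a3, a4, h⟩ := cn6_sound hY haX hf hc h
  obtain ⟨c2, h⟩ := band_true h
  obtain ⟨c3, h⟩ := band_true h
  have a5 := pnn_sound (enc_sub (V.k1.enc E) hc) c2
  have a6 := ppos_sound (enc_sub hq (enc_one E)) c3
  obtain ⟨g0, -, -, -⟩ := H6.g6 b a0 a1 a2 a3 a4
  obtain ⟨ρ, r0, r1, r2, -⟩ := rho_ex g0 g3
  obtain ⟨eK, eL⟩ := fst6 H6 a0 a1 a2 a3 a4 (by linarith)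
  rw [cor_eq r2] at eK eL
  obtain ⟨R, L, r, l, hR, hL, e1, e2, hf'⟩ := vb0_enc hD hx hX hq hT h3 h4 hk h5 h6 (H.zro rfl)
    (H.phk rfl) (H.ph rfl) hp hp1 hκ g1 g2 g3 a6 h
  obtain ⟨i, hi, hρ⟩ := part8h r0 r1 E
  obtain ⟨R', L', hR', hL', hff⟩ := cor4_sound
    (g := fun i => sg b (gfac W (p8 i) (cuT .u2 Y') Y')) hx hi (enc_sg b (enc_gfac hρ hc hY))
    hR hL hf'
  exact ⟨_, ThR.cor hR' hL' e1 e2 (by rw [eK]) (by rw [eL]) hff⟩

theorem vcQ_sound (hD : D.Ok x) (hx : Enc E x' x) (hX : Enc E X' X) (hY : Enc E Y' Y)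
    (hT : Enc E T' (Y - 1)) (h3 : Enc E px' px) (h4 : Enc E py' py) (hk : Enc E k' κ0)
    (h5 : Enc E dx' dx) (h6 : Enc E dy' dy) (H : UH D .u2 S V 2 x X Y KU LU)
    (H6 : UH6 D S V W x X Y KU LU) (hf : Enc E f' (S.f.v Y))
    (hp : qqn px py = 1) (hp1 : 1 ≤ py) (hκ : (py - 1) * κ0 = px)
    (g1 : X = px + N * dx) (g2 : Y = py + N * dy) (g3 : qqn X Y - 1 = 3 / 16 * N)
    (h : vcQ D V W b f' X' Y' T' px' py' k' dx' dy' x' fin = true) :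
    ThR E D .u2 2 x Y px κ0 N KU LU fin := by
  unfold vcQ at h
  simp only [frc_eq] at h
  obtain ⟨c1, h⟩ := band_true h
  have haX := enc_sg b hX
  have hc := enc_cuT .u2 hY
  have a0 := pnn_sound haX c1
  obtain ⟨a1, a2, a3, a4, h⟩ := cn6_sound hY haX hf hc h
  obtain ⟨c2, h⟩ := band_true h
  obtain ⟨c3, h⟩ := band_true h
  have a5 := ppos_sound (enc_sub (enc_pnc E 1) (enc_t34 (enc_sq hY))) c2
  have a6 := ppos_sound (enc_add haX hc) c3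
  push_cast at a5
  obtain ⟨g0, -, gK, gL⟩ := H6.g6 b a0 a1 a2 a3 a4
  obtain ⟨ρ, r0, r1, r2, r3⟩ := rho_ex g0 g3
  have hcsq := cuR_sq (Y := Y) (by linarith)
  have hc0 := cuR_nn Y
  have hG := enc_sg b (enc_norm (enc_scale 3 16 (enc_cast (enc_rhoT haX hc) (r3 a6).symm)))
  set c := cuR .u2 Y with hcdef
  have habs : |sgr b c| = c := by rw [abs_sgr, abs_of_nonneg hc0]
  have hc12 : |sgr b c| ≤ 1 / 2 := by
    rw [habs]
    linarith [H6.c2h]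
  have hc12' : |c| ≤ 1 / 2 := by
    rw [abs_of_nonneg hc0]
    linarith [H6.c2h]
  have hxi := enc_sg b (enc_xiq (enc_add haX hc))
  have hNξ : X - sgr b c = N * sgr b (3 * (16 * (sgr b X + c))⁻¹) := by
    have hi := inv_mul_cancel₀ (mul_pos (by norm_num : (0 : ℝ) < 16) a6).ne'
    have e1 : (sgr b X - c) * (sgr b X + c) = 3 / 16 * N := by
      have := sgu_sq b X
      unfold qqn at g3
      linear_combination this - hcsq + g3
    have e2 : sgr b X - c = N * (3 * (16 * (sgr b X + c))⁻¹) := by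
      linear_combination (16 * (16 * (sgr b X + c))⁻¹) * e1 - (sgr b X - c) * hi
    rw [sgr_sub_c, e2]
    exact sgu_mul b _ _
  have hcx := enc_sg b hc
  obtain ⟨dk, hdk, ek⟩ := kcd_sound hx D.KC hD.kok (enc_neg hcx) (enc_neg h3) (enc_one E)
    (μ := -sgr b c - -px) (by ring)
  obtain ⟨p0, p1, p2⟩ := unit_cT hp hp1
  rw [← hD.kf _ (by rwa [abs_neg]), ← hD.kf _ (by rwa [abs_neg])] at ek
  obtain ⟨d1, hd1, ek1⟩ := kcd_sound hx D.KC hD.kok (enc_neg hc) (enc_dc0' E) (enc_one E)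
    (μ := -c - 0) (by ring)
  rw [← hD.kf _ (by rwa [abs_neg]), ← hD.kf _ (by norm_num)] at ek1
  obtain ⟨fm, hfm, efm⟩ := enc_phg (V := V)
    (sm := band (pnn (psub V.k2.t (cuT .u2 Y'))) (pnn (psub V.k2.t (pabs px')))) hD hx hcx h3 h4
    hc12 hp hp1 (H.phk rfl) (H.ph rfl) (fun hs => by
      obtain ⟨s1, s2⟩ := band_true hs
      have t1 := pnn_sound (enc_sub (V.k2.enc E) hc) s1
      have t2 := pnn_sound (enc_sub (V.k2.enc E) (enc_abs h3)) s2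
      rw [habs]
      constructor <;> linarith)
  have hq0 : qqn 0 (Real.sqrt (4 / 3)) = 1 := by
    unfold qqn
    rw [Real.sq_sqrt (by norm_num)]
    norm_num
  have hq1 : 1 ≤ Real.sqrt (4 / 3) := Real.le_sqrt_of_sq_le (by norm_num)
  have hsq : Enc E (psqrt (prat 4 3)) (Real.sqrt (4 / 3)) :=
    enc_sqrt (enc_cast (enc_rat E 4 3) (by norm_num))
  obtain ⟨pc, hpc, epc⟩ := enc_phg (V := V) (sm := pnn (psub V.k2.t (cuT .u2 Y'))) hD hx hc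
    (enc_dc0' E) hsq hc12' hq0 hq1 (H.phk rfl) (H.ph rfl) (fun hs => by
      have t1 := pnn_sound (enc_sub (V.k2.enc E) hc) hs
      rw [abs_of_nonneg hc0, abs_zero]
      constructor <;> linarith)
  rw [neg_zero, sub_self] at epc
  have z0 := H.zro rfl
  have hodd : D.kf.v (-sgr b c) x = sgr b (D.kf.v (-c) x) := by
    cases b
    · show D.kf.v (- -c) x = -D.kf.v (-c) x
      rw [H6.odd (-c) (by rwa [abs_neg])]
    · rfl
  have hlod : D.tF x (-sgr b c) - D.tF x (sgr b c) = sgr b (D.tF x (-c) - D.tF x c) := by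
    cases b
    · show D.tF x (- -c) - D.tF x (-c) = -(D.tF x (-c) - D.tF x c)
      rw [neg_neg]
      ring
    · rfl
  have hdk' := enc_norm hdk
  have hk1 := enc_norm (enc_mul hT (enc_norm (enc_sub hd1 (V.k0.enc hx))))
  have hiv := enc_inv (W.FR.enc hY)
  have hAK := enc_norm (enc_add (W.qK.enc hx) (enc_mul (enc_norm (enc_add
    (enc_mul (W.qK.enc hx) hc) hk1)) hiv))
  have hAX := enc_norm (enc_add (W.qX.enc hx) (enc_mul (enc_norm (enc_sub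
    (enc_mul (W.qX.enc hx) hc) hpc)) hiv))
  refine ⟨_, _, _, _, enc_add (enc_add (enc_sub (enc_sub h5 (enc_mul h6 hk))
    (enc_mul (enc_norm (enc_mul hT hdk')) h5)) (enc_mul hG hAK))
    (enc_mul hxi (enc_norm (enc_mul hT (enc_norm (enc_sub hdk' (V.k0.enc hx)))))),
    enc_add (enc_sub (enc_mul (enc_norm (enc_add (V.m0.enc hx) hfm)) h5) (enc_mul hxi hfm))
      (enc_mul hG hAX), ?_, ?_, h⟩
  · -- the kernel
    have hi := inv_mul_cancel₀ a4.ne'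
    have e1 : itp (sgr b X) c (W.FR.v Y) (KO D x Y c)
        ((c + W.FR.v Y) * (1 - (Y - 1) * V.k0.v x + W.qK.v x * c)) =
        sgr b X * (1 - (Y - 1) * V.k0.v x) - c * ((Y - 1) * (d1 - V.k0.v x)) +
          (sgr b X - c) * c * (W.qK.v x + (W.qK.v x * c + (Y - 1) * (d1 - V.k0.v x)) *
            (W.FR.v Y)⁻¹) := by
      unfold itp KO
      linear_combination ((sgr b X - c) * (1 - (Y - 1) * V.k0.v x + W.qK.v x * c)) * hi +
        ((Y - 1) - (sgr b X - c) * (Y - 1) * (W.FR.v Y)⁻¹) * ek1 +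
        ((Y - 1) - (sgr b X - c) * (Y - 1) * (W.FR.v Y)⁻¹) * z0
    rw [e1, r2, sgq_add, sgq_sub, sgr_smul, sgr_smul, sgu_sgr, sgr_smul] at gK
    have e2 : sgr b (3 / 16 * N * ρ) = N * sgr b (((3 : ℕ) : ℝ) / ((16 : ℕ) : ℝ) * ρ) := by
      rw [← sgu_mul]
      congr 1
      push_cast
      ring
    rw [gK, e2]
    simp only [jq]
    push_cast at hNξ ⊢
    have e3 : (Y - 1) * D.kf.v (-sgr b c) x = -(sgr b c * ((Y - 1) * d1)) := by
      rw [hodd]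
      have : D.kf.v (-c) x = -c * d1 := by linear_combination ek1 + z0
      rw [this, sgr_smul]
      have e4 : sgr b (-c) = -sgr b c := by cases b <;> rfl
      rw [e4]
      ring
    linear_combination ((Y - 1) * (dk - V.k0.v x)) * hNξ + (1 - (Y - 1) * dk) * g1 - κ0 * g2 -
      hκ + (Y - 1) * ek - e3
  · have hi := inv_mul_cancel₀ a4.ne'
    have e1 : itp (sgr b X) c (W.FR.v Y) (LO D x c)
        ((c + W.FR.v Y) * (V.m0.v x + W.qX.v x * c)) =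
        sgr b X * V.m0.v x + c * pc +
          (sgr b X - c) * c * (W.qX.v x + (W.qX.v x * c - pc) * (W.FR.v Y)⁻¹) := by
      unfold itp LO
      linear_combination ((sgr b X - c) * (V.m0.v x + W.qX.v x * c)) * hi +
        (1 - (sgr b X - c) * (W.FR.v Y)⁻¹) * epc
    rw [e1, r2, sgq_add, sgq_add, sgr_smul, sgr_smul, sgu_sgr, sgr_smul] at gL
    have e2 : sgr b (3 / 16 * N * ρ) = N * sgr b (((3 : ℕ) : ℝ) / ((16 : ℕ) : ℝ) * ρ) := by
      rw [← sgu_mul]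
      congr 1
      push_cast
      ring
    rw [gL, e2]
    have e3 : D.tF x (-sgr b c) - D.tF x (sgr b c) = sgr b c * (V.m0.v x + pc) := by
      rw [hlod]
      have : D.tF x (-c) - D.tF x c = c * (V.m0.v x + pc) := by linear_combination epc
      rw [this, sgr_smul]
    simp only [Ty.la, Ty.lb]
    push_cast at hNξ ⊢
    linear_combination efm - fm * hNξ + (V.m0.v x + fm) * g1 - e3

end

end Pool.Agent.Strip051.PB
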