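import Pool.Agent.Strip051.PB.StripQS

/-! # Unit strips next to the top of the unit circle: the second segment, the displacement -/

namespace Pool.Agent.Strip051.PB

attribute [local irreducible] padd psub pneg pmul psq pinv psqrt psqrtg pabs pps pmax pmin pphi plam
  pcase phf pnat prat pscale pnorm pdc pnc pone ppos pnn Enc

section

variable {E : Pt} {D : SDat} {U : Ty} {S : Sg} {V : Vt} {W : Wt} {q : ℕ} {b : Bool}
  {x X Y KU LU px py κ0 dx dy N : ℝ} {x' X' Y' T' px' py' k' dx' dy' f' q' k : ℕ}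
  {fin : ℕ → ℕ → Bool} {fn : ℕ → ℕ → ℕ → Bool}

/-! ### The second segment -/

theorem itp_two {a f f2 A B : ℝ} (h : 0 < f2 - f) :
    itp a f (f2 - f) (f * A) (f2 * B) = a * A + (a - f) * (f2 * (f2 - f)⁻¹ * (B - A)) := by
  have hi := inv_mul_cancel₀ h.ne'
  unfold itp
  linear_combination ((a - f) * A) * hi

theorem vs1_sound {E : Pt} {b : Bool} {zc P iv B1 X1 B2 X2 K L r' l' : ℕ}
    {z p i b1 c1 b2 c2 k l r s : ℝ} {fin : ℕ → ℕ → Bool} (hz : Enc E zc z) (hP : Enc E P p)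
    (hi : Enc E iv i) (h1 : Enc E B1 b1) (h2 : Enc E X1 c1) (h3 : Enc E B2 b2) (h4 : Enc E X2 c2)
    (hK : Enc E K k) (hL : Enc E L l) (hr : Enc E r' r) (hs : Enc E l' s)
    (h : vs1 b zc P iv B1 X1 B2 X2 K L fin r' l' = true) :
    ∃ R L, Enc E R (r + sgr b (z * (p * (i * (b2 - b1)) + k))) ∧
      Enc E L (s + sgr b (z * (p * (i * (c2 - c1)) + l))) ∧ fin R L = true :=
  ⟨_, _, enc_add hr (enc_sg b (enc_mul hz (enc_norm (enc_add (enc_mul hP (enc_norm (enc_mul hi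
    (enc_norm (enc_sub h3 h1))))) hK)))), enc_add hs (enc_sg b (enc_mul hz (enc_norm (enc_add
    (enc_mul hP (enc_norm (enc_mul hi (enc_norm (enc_sub h4 h2))))) hL)))), h⟩

theorem sel_P {E : Pt} {e' : ℕ} {e p : ℝ} (he : Enc E e' e) (h1 : 0 ≤ e → p = e)
    (h2 : e < 0 → p = 0) : Enc E (sel2 (pnn e') (pmax e' (pdc 0 0)) e') p := by
  rcases le_or_gt 0 e with h | h
  · rw [h1 h]
    exact sel2_enc (enc_cast (enc_max he (enc_dc0' E)) (max_eq_left h)) he
  · cases hn : pnn e' with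
    | true => exact absurd (pnn_sound he hn) (not_le.2 h)
    | false =>
      rw [sel2_false, h2 h]
      exact enc_cast (enc_max he (enc_dc0' E)) (max_eq_right h.le)

theorem sel_S {E : Pt} {e' a' : ℕ} {e a s : ℝ} (he : Enc E e' e) (ha : Enc E a' a) (h0 : 0 ≤ s)
    (h1 : s ≤ a) (h2 : 0 ≤ e → s = a) : Enc E (sel2 (pnn e') (pnorm (pmul a' pu01)) a') s := by
  cases hn : pnn e' with
  | true =>
    rw [sel2_true, h2 (pnn_sound he hn)]
    exact ha
  | false =>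
    obtain ⟨t, t0, t1, ht⟩ : ∃ t : ℝ, 0 ≤ t ∧ t ≤ 1 ∧ s = a * t := by
      rcases (h0.trans h1).eq_or_lt with hz | hz
      · exact ⟨0, le_rfl, zero_le_one, by rw [mul_zero]; linarith⟩
      · exact ⟨s / a, by positivity, (div_le_one hz).2 h1, by field_simp⟩
    rw [sel2_false, ht]
    exact enc_norm (enc_mul ha (enc_u01 E t0 t1))

theorem sel_C {b c d : Bool} (h : Bool.rec (motive := fun _ => Bool) (band b c) true d = true) :
    d = true ∨ b = true ∧ c = true := by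
  cases d
  · exact Or.inr (band_true h)
  · exact Or.inl rfl

/-- The values on the first two segments in both branches: `p` is the distance from the first curve,
`s` the second factor of the correction. -/
theorem snd6 {x X Y KU LU : ℝ} {D : SDat} {S : Sg} {V : Vt} {W : Wt} {b : Bool}
    (H : UH6 D S V W x X Y KU LU) (a0 : 0 ≤ sgr b X) (a1 : sgr b X ≤ W.f2.v Y)
    (a2 : Y ≤ V.yb.v) (a3 : cuR .u2 Y ≤ W.c2.v) (a4 : 0 < W.f2.v Y - S.f.v Y)
    (hlo : sgr b X < S.f.v Y → cuR .u2 Y ≤ V.k1.v ∧ 0 < W.FR.v Y) :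
    ∃ p s, (S.f.v Y ≤ sgr b X → p = sgr b X - S.f.v Y ∧ s = sgr b X) ∧
      (sgr b X < S.f.v Y → p = 0) ∧ 0 ≤ s ∧ s ≤ sgr b X ∧
      (3 / 4 * Y ^ 2 < 1 →
        KU = X * (1 - (Y - 1) * V.k0.v x) + sgr b (p * (W.f2.v Y * (W.f2.v Y - S.f.v Y)⁻¹ *
          (W.a0K.v x + W.a1K.v x * cuR .u2 Y - (1 - (Y - 1) * V.k0.v x + W.qK.v x * cuR .u2 Y))) +
          cuR .u2 Y * s * W.qK.v x) ∧
        LU = V.m0.v x * X + sgr b (p * (W.f2.v Y * (W.f2.v Y - S.f.v Y)⁻¹ *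
          (W.a0X.v x + W.a1X.v x * cuR .u2 Y - (V.m0.v x + W.qX.v x * cuR .u2 Y))) +
          cuR .u2 Y * s * W.qX.v x)) ∧
      (1 ≤ 3 / 4 * Y ^ 2 →
        KU = X * (1 - (Y - 1) * V.k0.v x) + sgr b (p * (W.f2.v Y * (W.f2.v Y - S.f.v Y)⁻¹ *
          (W.b0K.v x + W.b1K.v x * (Y - W.y2.v) - (1 - (Y - 1) * V.k0.v x)))) ∧
        LU = V.m0.v x * X + sgr b (p * (W.f2.v Y * (W.f2.v Y - S.f.v Y)⁻¹ *
          (W.b0X.v x + W.b1X.v x * (Y - W.y2.v) - V.m0.v x)))) := by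
  rcases le_or_gt (S.f.v Y) (sgr b X) with hc | hc
  · refine ⟨sgr b X - S.f.v Y, sgr b X, fun _ => ⟨rfl, rfl⟩, fun h => absurd hc (not_le.2 h), a0,
      le_rfl, fun h => ?_, fun h => ?_⟩
    · obtain ⟨eK, eL⟩ := H.sA b hc a1 a4 a2 a3 h
      rw [itp_two a4, sgq_add, sgr_smul, sgu_sgr] at eK eL
      constructor
      · rw [eK, sgq_add, sgr_smul b (cuR .u2 Y * sgr b X) (W.qK.v x),
          sgu_mul b (cuR .u2 Y) (sgr b X), sgu_sgr]
        ring
      · rw [eL, sgq_add, sgr_smul b (cuR .u2 Y * sgr b X) (W.qX.v x),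
          sgu_mul b (cuR .u2 Y) (sgr b X), sgu_sgr]
        ring
    · obtain ⟨eK, eL⟩ := H.sB b hc a1 a4 a2 h
      rw [itp_two a4, sgq_add, sgr_smul, sgu_sgr] at eK eL
      exact ⟨eK, by rw [eL]; ring⟩
  · obtain ⟨k1, k2⟩ := hlo hc
    have c0 := cuR_nn Y
    rcases lt_or_ge (3 / 4 * Y ^ 2) 1 with h | h
    · obtain ⟨g0, g1, -, -⟩ := H.g6 b a0 hc.le a2 a3 k2
      obtain ⟨eK, eL⟩ := fst6 H a0 hc.le a2 a3 k2 k1
      have hs0 : 0 ≤ (sgr b X - cuR .u2 Y) * (1 + cuR .u2 Y * (W.FR.v Y)⁻¹) := by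
        have := inv_pos.2 k2
        exact mul_nonneg (by linarith) (by positivity)
      have hi := inv_mul_cancel₀ k2.ne'
      have hs1 : (sgr b X - cuR .u2 Y) * (1 + cuR .u2 Y * (W.FR.v Y)⁻¹) ≤ sgr b X := by
        have e : (sgr b X - cuR .u2 Y) * (1 + cuR .u2 Y * (W.FR.v Y)⁻¹) = sgr b X -
            cuR .u2 Y * (W.FR.v Y)⁻¹ * (cuR .u2 Y + W.FR.v Y - sgr b X) := by
          linear_combination (cuR .u2 Y) * hi
        rw [e]
        have h3 : 0 ≤ cuR .u2 Y + W.FR.v Y - sgr b X := by rw [← g1]; linarith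
        have h4 : 0 ≤ cuR .u2 Y * (W.FR.v Y)⁻¹ := mul_nonneg c0 (inv_pos.2 k2).le
        nlinarith [mul_nonneg h4 h3]
      refine ⟨0, (sgr b X - cuR .u2 Y) * (1 + cuR .u2 Y * (W.FR.v Y)⁻¹),
        fun h => absurd h (not_le.2 hc), fun _ => rfl, hs0, hs1, fun _ => ?_,
        fun h' => absurd h (not_lt.2 h')⟩
      constructor
      · rw [eK, zero_mul, zero_add, sgr_smul b _ (W.qK.v x)]
        congr 3
        ring
      · rw [eL, zero_mul, zero_add, sgr_smul b _ (W.qX.v x)]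
        congr 3
        ring
    · obtain ⟨eK, eL⟩ := H.f1 b a0 h a2 hc.le
      have z : sgr b 0 = 0 := by cases b <;> simp [sgr]
      refine ⟨0, 0, fun h => absurd h (not_le.2 hc), fun _ => rfl, le_rfl, a0,
        fun h' => absurd h' (not_lt.2 h), fun _ => ?_⟩
      rw [zero_mul, zero_mul, z]
      exact ⟨by rw [eK]; ring, by rw [eL]; ring⟩

theorem vsQ_sound (hD : D.Ok x) (hx : Enc E x' x) (hX : Enc E X' X) (hY : Enc E Y' Y)
    (hq : Enc E q' (qqn X Y))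
    (hT : Enc E T' (Y - 1)) (h3 : Enc E px' px) (h4 : Enc E py' py) (hk : Enc E k' κ0)
    (h5 : Enc E dx' dx) (h6 : Enc E dy' dy) (H : UH D .u2 S V 2 x X Y KU LU)
    (H6 : UH6 D S V W x X Y KU LU) (hf : Enc E f' (S.f.v Y))
    (hp : qqn px py = 1) (hp1 : 1 ≤ py) (hκ : (py - 1) * κ0 = px)
    (g1 : X = px + N * dx) (g2 : Y = py + N * dy) (g3 : qqn X Y - 1 = 3 / 16 * N)
    (h : vsQ D V W b f' q' X' Y' T' px' py' k' dx' dy' x' k fn = true) :
    ∃ g, ThR E D .u2 2 x Y px κ0 N KU LU (fn g) := by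
  unfold vsQ at h
  simp only [frc_eq] at h
  obtain ⟨c1, h⟩ := band_true h
  obtain ⟨c2, h⟩ := band_true h
  obtain ⟨c3, h⟩ := band_true h
  obtain ⟨c4, h⟩ := band_true h
  obtain ⟨c5, h⟩ := band_true h
  obtain ⟨c6, h⟩ := band_true h
  obtain ⟨c7, h⟩ := band_true h
  have haX := enc_sg b hX
  have hc := enc_cuT .u2 hY
  have hf2 := W.f2.enc hY
  have hdf := enc_norm (enc_sub hf2 hf)
  have he := enc_norm (enc_sub haX hf)
  have hzc := enc_nat 3 (enc_inv (enc_nat 16 (enc_sub hq (enc_one E))))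
  have a0 := pnn_sound haX c1
  have a1 := pnn_sound (enc_sub hf2 haX) c2
  have a2 := pnn_sound (enc_sub (V.yb.enc E) hY) c3
  have a3 := pnn_sound (enc_sub (W.c2.enc E) hc) c4
  have a4 := ppos_sound hdf c5
  have a6 := ppos_sound (enc_sub hq (enc_one E)) c6
  have hNz : N * (((3 : ℕ) : ℝ) * (((16 : ℕ) : ℝ) * (qqn X Y - 1))⁻¹) = 1 := by
    have hi := inv_mul_cancel₀ (show ((16 : ℕ) : ℝ) * (qqn X Y - 1) ≠ 0 from
      (mul_pos (by norm_num) a6).ne')
    push_cast at hi ⊢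
    linear_combination hi - 16 * (16 * (qqn X Y - 1))⁻¹ * g3
  set z := ((3 : ℕ) : ℝ) * (((16 : ℕ) : ℝ) * (qqn X Y - 1))⁻¹ with hzdef
  have hlo : sgr b X < S.f.v Y → cuR .u2 Y ≤ V.k1.v ∧ 0 < W.FR.v Y := by
    intro hh
    rcases sel_C c7 with d | ⟨d1, d2⟩
    · have := pnn_sound he d
      linarith
    · have t1 := pnn_sound (enc_sub (V.k1.enc E) hc) d1
      exact ⟨by linarith, ppos_sound (W.FR.enc hY) d2⟩
  obtain ⟨p, s, hps1, hps2, s0, s1, hb0, hb1⟩ := snd6 H6 a0 (by linarith) (by linarith)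
    (by linarith) a4 hlo
  have hP := sel_P he (fun h => (hps1 (by linarith)).1) (fun h => hps2 (by linarith))
  have hS := sel_S he haX s0 s1 (fun h => (hps1 (by linarith)).2)
  have hB1 := enc_sub (enc_one E) (enc_mul hT (V.k0.enc hx))
  have hiv := enc_mul hf2 (enc_inv hdf)
  have hcs := enc_norm (enc_mul hc hS)
  have hy2 := enc_norm (enc_sub hY (W.y2.enc E))
  obtain ⟨R, L, r, l, hR, hL, e1, e2, hf'⟩ := vb0_enc hD hx hX hq hT h3 h4 hk h5 h6 (H.zro rfl)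
    (H.phk rfl) (H.ph rfl) hp hp1 hκ g1 g2 g3 a6 h
  obtain ⟨d1, d2⟩ := band_true hf'
  rcases lt_or_ge (3 / 4 * Y ^ 2) 1 with hh | hh
  · obtain ⟨eK, eL⟩ := hb0 hh
    obtain ⟨R', L', hR', hL', hff⟩ := vs1_sound hzc hP hiv
      (enc_add hB1 (enc_mul (W.qK.enc hx) hc)) (enc_add (V.m0.enc hx) (enc_mul (W.qX.enc hx) hc))
      (enc_add (W.a0K.enc hx) (enc_mul (W.a1K.enc hx) hc))
      (enc_add (W.a0X.enc hx) (enc_mul (W.a1X.enc hx) hc))
      (enc_mul hcs (W.qK.enc hx)) (enc_mul hcs (W.qX.enc hx)) hR hL d1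
    refine ⟨_, _, _, _, _, hR', hL', ?_, ?_, hff⟩
    · rw [eK, e1, sgu_mul b z]
      simp only [jq]
      push_cast
      linear_combination (-(sgr b (p * (W.f2.v Y * (W.f2.v Y - S.f.v Y)⁻¹ *
          (W.a0K.v x + W.a1K.v x * cuR .u2 Y - (1 - (Y - 1) * V.k0.v x + W.qK.v x * cuR .u2 Y))) +
          cuR .u2 Y * s * W.qK.v x))) * hNz
    · rw [eL, e2, sgu_mul b z]
      simp only [Ty.la, Ty.lb]
      linear_combination (-(sgr b (p * (W.f2.v Y * (W.f2.v Y - S.f.v Y)⁻¹ *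
          (W.a0X.v x + W.a1X.v x * cuR .u2 Y - (V.m0.v x + W.qX.v x * cuR .u2 Y))) +
          cuR .u2 Y * s * W.qX.v x))) * hNz
  · obtain ⟨eK, eL⟩ := hb1 hh
    obtain ⟨R', L', hR', hL', hff⟩ := vs1_sound hzc hP hiv hB1 (V.m0.enc hx)
      (enc_add (W.b0K.enc hx) (enc_mul (W.b1K.enc hx) hy2))
      (enc_add (W.b0X.enc hx) (enc_mul (W.b1X.enc hx) hy2))
      (enc_dc0' E) (enc_dc0' E) hR hL d2
    refine ⟨_, _, _, _, _, hR', hL', ?_, ?_, hff⟩
    · rw [eK, e1, add_zero, sgu_mul b z]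
      simp only [jq]
      push_cast
      linear_combination (-(sgr b (p * (W.f2.v Y * (W.f2.v Y - S.f.v Y)⁻¹ *
          (W.b0K.v x + W.b1K.v x * (Y - W.y2.v) - (1 - (Y - 1) * V.k0.v x)))))) * hNz
    · rw [eL, e2, add_zero, sgu_mul b z]
      simp only [Ty.la, Ty.lb]
      linear_combination (-(sgr b (p * (W.f2.v Y * (W.f2.v Y - S.f.v Y)⁻¹ *
          (W.b0X.v x + W.b1X.v x * (Y - W.y2.v) - V.m0.v x))))) * hNz

/-! ### Forms with another displacement -/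

theorem vmQ_sound (hD : D.Ok x) (hx : Enc E x' x) (hX : Enc E X' X) (hY : Enc E Y' Y)
    (hT : Enc E T' (Y - 1)) (h3 : Enc E px' px) (h4 : Enc E py' py) (hk : Enc E k' κ0)
    (h5 : Enc E dx' dx) (h6 : Enc E dy' dy) (H : UH D .u2 S V 2 x X Y KU LU)
    (hp : qqn px py = 1) (hp1 : 1 ≤ py) (hκ : (py - 1) * κ0 = px)
    (g1 : X = px + N * dx) (g2 : Y = py + N * dy) (g3 : qqn X Y - 1 = 3 / 16 * N)
    (h : vmQ D V S b X' Y' T' px' py' k' dx' dy' x' fin = true) :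
    ThR E D .u2 2 x Y px κ0 N KU LU fin := by
  unfold vmQ at h
  simp only [frc_eq] at h
  obtain ⟨c1, h⟩ := band_true h
  obtain ⟨c2, h⟩ := band_true h
  obtain ⟨c3, h⟩ := band_true h
  obtain ⟨c4, h⟩ := band_true h
  have haX := enc_sg b hX
  have hc := enc_cuT .u2 hY
  have a1 := pnn_sound haX c1
  have a2 := pnn_sound (enc_sub (S.f.enc hY) haX) c2
  have a3 := ppos_sound (enc_sub (enc_pnc E 1) (enc_t34 (enc_sq hY))) c3
  have a4 := ppos_sound (enc_add haX hc) c4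
  push_cast at a3
  have hcsq : cuR .u2 Y ^ 2 = 1 - 3 / 4 * Y ^ 2 := Real.sq_sqrt (by simp only [Ty.nq]; linarith)
  have hc0 : 0 ≤ cuR .u2 Y := Real.sqrt_nonneg _
  have hY1 : 1 ≤ Y := H.iny.1
  set c := cuR .u2 Y with hcdef
  have habs : |sgr b c| = c := by rw [abs_sgr, abs_of_nonneg hc0]
  have hc12 : |sgr b c| ≤ 1 / 2 := by
    rw [habs]
    nlinarith
  have hxi := enc_sg b (enc_xiq (enc_add haX hc))
  have hNξ : X - sgr b c = N * sgr b (3 * (16 * (sgr b X + c))⁻¹) := by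
    have hi := inv_mul_cancel₀ (mul_pos (by norm_num : (0 : ℝ) < 16) a4).ne'
    have e1 : (sgr b X - c) * (sgr b X + c) = 3 / 16 * N := by
      have := sgu_sq b X
      unfold qqn at g3
      linear_combination this - hcsq + g3
    have e2 : sgr b X - c = N * (3 * (16 * (sgr b X + c))⁻¹) := by
      linear_combination (16 * (16 * (sgr b X + c))⁻¹) * e1 - (sgr b X - c) * hi
    rw [sgr_sub_c, e2]
    exact sgu_mul b _ _
  obtain ⟨eK, eL⟩ := H.mrg rfl b a1 (by linarith) a3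
  rw [← hcdef] at eK eL
  have hcx := enc_sg b hc
  obtain ⟨dk, hdk, ek⟩ := kcd_sound hx D.KC hD.kok (enc_neg hcx) (enc_neg h3) (enc_one E)
    (μ := -sgr b c - -px) (by ring)
  obtain ⟨p0, p1, p2⟩ := unit_cT hp hp1
  rw [← hD.kf _ (by rwa [abs_neg]), ← hD.kf _ (by rwa [abs_neg])] at ek
  obtain ⟨fl, hfl, efl⟩ := phT_sound (V := V)
    (sm := band (pnn (psub V.k2.t (cuT .u2 Y'))) (pnn (psub V.k2.t (pabs px')))) hD hx hcx h3 h4
    hc12 hp hp1 (H.phk rfl) (H.ph rfl) (fun hs => by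
      obtain ⟨s1, s2⟩ := band_true hs
      have t1 := pnn_sound (enc_sub (V.k2.enc E) hc) s1
      have t2 := pnn_sound (enc_sub (V.k2.enc E) (enc_abs h3)) s2
      rw [habs]
      constructor <;> linarith)
  have htp := enc_norm (enc_mul hT (enc_norm hdk))
  have hfl' := enc_norm hfl
  refine ⟨_, _, _, _, enc_add (enc_sub (enc_sub h5 (enc_mul h6 hk)) (enc_mul htp h5))
    (enc_mul hxi (enc_norm (enc_add (V.SM.enc hY hx) htp))),
    enc_add (enc_mul hfl' h5) (enc_mul hxi (enc_norm (enc_sub (S.SX.enc hY hx) hfl'))), ?_, ?_, h⟩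
  · rw [eK]
    simp only [jq]
    push_cast at hNξ ⊢
    linear_combination (V.SM.v Y x + (Y - 1) * dk) * hNξ + (1 - (Y - 1) * dk) * g1 - κ0 * g2 -
      hκ + (Y - 1) * ek
  · rw [eL]
    simp only [Ty.la, Ty.lb]
    linear_combination efl + (S.SX.v Y x - fl) * hNξ + fl * g1

end

section

variable {E : Pt} {D : SDat} {U : Ty} {S : Sg} {V : Vt} {W : Wt} {q : ℕ} {b : Bool}
  {x X Y KU LU px py κ0 dx dy N : ℝ} {x' X' Y' T' px' py' k' dx' dy' f' q' k : ℕ}
  {fin : ℕ → ℕ → Bool} {fn : ℕ → ℕ → ℕ → Bool}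

theorem canQ_sound (hD : D.Ok x) (hx : Enc E x' x) (hX : Enc E X' X) (hY : Enc E Y' Y)
    (hT : Enc E T' (Y - jq q)) (h3 : Enc E px' px) (h4 : Enc E py' py) (hk : Enc E k' κ0)
    (h5 : Enc E dx' dx) (h6 : Enc E dy' dy) (H : UH D U S V q x X Y KU LU)
    (hb : U ≠ .u2 → b = bT U) (hp : qqn px py = 1) (hp1 : 1 ≤ py) (hκ : (py - 1) * κ0 = px)
    (g1 : U.px X Y = px + N * U.px dx dy) (g2 : U.py X Y = py + N * U.py dx dy)
    (g3 : qqn X Y - U.nq = 3 / 16 * sN U * N)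
    (h : canQ D U b S q X' Y' T' px' py' k' dx' dy' x' fin = true) :
    ThR E D U q x Y px κ0 N KU LU fin := by
  unfold canQ at h
  simp only [frc_eq] at h
  obtain ⟨c1, h⟩ := band_true h
  obtain ⟨c2, h⟩ := band_true h
  obtain ⟨c3, h⟩ := band_true h
  obtain ⟨c4, h⟩ := band_true h
  have haX := enc_sg b hX
  have hc := enc_cuT U hY
  have hf := S.f.enc hY
  have a1 := pnn_sound haX c1
  have a3 := ppos_sound (enc_sub (enc_pnc E (nT U)) (enc_t34 (enc_sq hY))) c3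
  rw [nT_eq] at a3
  have a4 := ppos_sound (enc_add haX hc) c4
  have hcsq : cuR U Y ^ 2 = U.nq - 3 / 4 * Y ^ 2 := Real.sq_sqrt a3.le
  have hc0 : 0 ≤ cuR U Y := Real.sqrt_nonneg _
  have hfin := h
  set c := cuR U Y with hcdef
  -- the displacement along the abscissa
  have hxi : Enc E (sg (cond (uT U) b (!b)) (xiq (padd (sg b X') (cuT U Y'))))
      (sgr b (sN U * (3 * (16 * (sgr b X + c))⁻¹))) := by
    have e := enc_sg (cond (uT U) b (!b)) (enc_xiq (enc_add haX hc))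
    refine enc_cast e ?_
    rcases uT_iff U with ⟨e1, -, e2⟩ | ⟨e1, -, e2⟩ <;> rw [e1, e2] <;> cases b <;>
      simp [sgr]
  set ξ := sgr b (sN U * (3 * (16 * (sgr b X + c))⁻¹)) with hξ
  have hNξ : X - sgr b c = N * ξ := by
    have hi := inv_mul_cancel₀ (mul_pos (by norm_num : (0 : ℝ) < 16) a4).ne'
    have e1 : (sgr b X - c) * (sgr b X + c) = 3 / 16 * sN U * N := by
      have := sgu_sq b X
      unfold qqn at g3
      linear_combination this - hcsq + g3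
    have e2 : sgr b X - c = N * (sN U * (3 * (16 * (sgr b X + c))⁻¹)) := by
      linear_combination (16 * (16 * (sgr b X + c))⁻¹) * e1 - (sgr b X - c) * hi
    have e3 : X - sgr b c = sgr b (sgr b X - c) := sgr_sub_c b X c
    rw [e3, e2, hξ]
    exact sgu_mul b _ _
  obtain ⟨Kc, Lc, tK, tL, eK, eL⟩ := H.can b hb a1 (fun hu => by
      have := pnn_sound (enc_sl (uT U) (enc_sub hf haX) (enc_sub haX hf)) c2
      rw [hu] at this
      simp only [cond_true] at this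
      linarith) (fun hu => by
      have := pnn_sound (enc_sl (uT U) (enc_sub hf haX) (enc_sub haX hf)) c2
      rw [hu] at this
      simp only [cond_false] at this
      linarith) a3
  rw [← hcdef] at tK tL eK eL
  -- the point on the curve
  have hq1 : qqn (sgr b c) Y = U.nq := by
    unfold qqn
    rw [sgu_sq, hcsq]
    ring
  have hq2 : qqn c Y = U.nq := by
    unfold qqn
    rw [hcsq]
    ring
  have habs : |sgr b c| = c := by rw [abs_sgr, abs_of_nonneg hc0]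
  have hsx : U ≠ .u2 → sgr b c = U.sx * |sgr b c| := fun hu => by
    rw [habs, hb hu, sgr_bT]
  have hpy := Ty.py_sg (y := Y) hsx
  rw [habs] at hpy
  have hge : 1 ≤ U.py (sgr b c) Y := by
    rw [hpy]
    exact Ty.py_ge H.inq H.iny hc0 hq2
  have hun := Ty.p_unit hq1
  have hG := Gt_mul H.inq H.iny hc0 hq2
  rw [← hpy] at hG
  have gx : U.px (sgr b c) Y - px = N * (U.px dx dy - U.px ξ 0) := by
    have e : U.px X Y = U.px (sgr b c) Y + N * U.px ξ 0 := by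
      rw [← Ty.px_add, ← hNξ]
      congr 1 <;> ring
    rw [e] at g1
    linear_combination g1
  have gy : U.py (sgr b c) Y - py = N * (U.py dx dy - U.py ξ 0) := by
    have e : U.py X Y = U.py (sgr b c) Y + N * U.py ξ 0 := by
      rw [← Ty.py_add, ← hNξ]
      congr 1 <;> ring
    rw [e] at g2
    linear_combination g2
  have h7 := enc_norm (enc_axT U (enc_pxT U h5 h6) hxi)
  have h8 := enc_norm (enc_ayT U (enc_pyT U h5 h6) hxi)
  have h9 := enc_norm (enc_pxT U (enc_sg b hc) hY)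
  have h10 := enc_norm (enc_pyT U (enc_sg b hc) hY)
  obtain ⟨d0, d1, d2⟩ := unit_cT hun hge
  obtain ⟨p0, p1, p2⟩ := unit_cT hp hp1
  obtain ⟨dk, hdk, ek⟩ := kcd_sound hx D.KC hD.kok (enc_neg h9) (enc_neg h3) (enc_neg h7)
    (μ := N) (by linear_combination -gx)
  rw [← hD.kf _ (by rwa [abs_neg]), ← hD.kf _ (by rwa [abs_neg])] at ek
  obtain ⟨e, he, el⟩ := lvT_sound hD hx U h9 h10 h3 h4 h7 h8 hun hge hp hp1 gx gy
  have hL := tL.tF hun hge
  have hG' : Gt U q c Y * (py + N * (U.py dx dy - U.py ξ 0) - 1) = Y - jq q := by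
    rw [← hG]
    linear_combination (-(Gt U q c Y)) * gy
  have hrow := row_val (δx := U.px dx dy - U.px ξ 0) hG' hκ ek
  refine ⟨_, _, _, _, enc_add (enc_rcT H.inq hc hY (enc_norm (enc_sub h7 (enc_mul h8 hk))) hT
    (enc_norm hdk))
    (enc_mul hxi (S.SK.enc hY hx)), enc_add he (enc_mul hxi (S.SX.enc hY hx)), ?_, ?_, hfin⟩
  · rw [eK, hNξ]
    unfold TightK at tK
    rw [habs] at tK
    rw [tK]
    have gx' : U.px (sgr b c) Y = px + N * (U.px dx dy - U.px ξ 0) := by linear_combination gx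
    rw [gx']
    rw [gx'] at hrow
    linear_combination hrow
  · rw [eL, hNξ, hL]
    linear_combination el

end

end Pool.Agent.Strip051.PB
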