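import Pool.Agent.Strip051.PB.Real

/-! # Unit strips: gauge and homogeneity of the slack

The slack does not change when the values on the three sides get the signed heights times a common
number, and it is homogeneous of degree one in excess, values and level. -/

namespace Pool.Agent.Strip051.PB

open Pool.Agent.Strip051.LC.Line (phi phi_smul)

/-- The sign and sum conditions on the signed heights in a relative position. -/
def Con.rel (c : Con) (u v w : ℝ) : Prop :=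
  match c with
  | .pp => 0 ≤ u ∧ 0 ≤ v ∧ w = u + v
  | .nn => u ≤ 0 ∧ v ≤ 0 ∧ w = u + v
  | .pnp => 0 ≤ w ∧ v ≤ 0 ∧ w = u + v
  | .pnn => w ≤ 0 ∧ 0 ≤ u ∧ w = u + v
  | .npp => u ≤ 0 ∧ 0 ≤ w ∧ w = u + v
  | .npn => 0 ≤ v ∧ w ≤ 0 ∧ w = u + v
  | .up => w = u + v - 1
  | .dn => w = u + v + 1

theorem lam_mul_add {a b : ℝ} (ha : 0 ≤ a) (hb : 0 ≤ b) : lam a (a + b) * (a + b) = a := by
  rcases (add_nonneg ha hb).eq_or_lt with h | h
  · have : a = 0 := by linarith
    rw [← h, this]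
    ring
  · have e : lam a (a + b) = a / (a + b) := by
      unfold lam
      rw [← div_eq_mul_inv, max_eq_left (div_nonneg ha h.le), min_eq_left]
      rw [div_le_one h]
      linarith
    rw [e]
    field_simp

theorem slN_gauge {ex k x l1 l2 A1 A2 A3 g : ℝ} (K : ℝ) (h1 : 0 ≤ l1) (h2 : 0 ≤ l2) :
    slN ex k x l1 l2 (A1 + l1 * K) (A2 + l2 * K) (A3 + (l1 + l2) * K) g =
      slN ex k x l1 l2 A1 A2 A3 g := by
  have hl := lam_mul_add h1 h2
  have e1 : pn1 l1 l2 (A1 + l1 * K) (A2 + l2 * K) (A3 + (l1 + l2) * K) = pn1 l1 l2 A1 A2 A3 := by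
    unfold pn1
    ring
  have e2 : pn2 l1 l2 (A1 + l1 * K) (A2 + l2 * K) (A3 + (l1 + l2) * K) = pn2 l1 l2 A1 A2 A3 := by
    unfold pn2
    linear_combination K * (1 - l1 - l2) * hl
  have e3 : pn3 l1 l2 (A1 + l1 * K) (A2 + l2 * K) (A3 + (l1 + l2) * K) = pn3 l1 l2 A1 A2 A3 := by
    unfold pn3
    ring
  unfold slN
  rw [e1, e2, e3]

theorem slW_gauge {ex k x l1 l2 l3 A1 A2 A3 g : ℝ} (K : ℝ) :
    slW ex k x l1 l2 l3 (A1 + l1 * K) (A2 + l2 * K) (A3 + l3 * K) g =
      slW ex k x l1 l2 l3 A1 A2 A3 g := by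
  have e1 : pon (A1 + l1 * K) (A2 + l2 * K) (A3 + l3 * K) l1 l2 l3 = pon A1 A2 A3 l1 l2 l3 := by
    unfold pon
    ring
  have e2 : pon (A2 + l2 * K) (A3 + l3 * K) (A1 + l1 * K) l2 l3 l1 = pon A2 A3 A1 l2 l3 l1 := by
    unfold pon
    ring
  have e3 : pon (A3 + l3 * K) (A1 + l1 * K) (A2 + l2 * K) l3 l1 l2 = pon A3 A1 A2 l3 l1 l2 := by
    unfold pon
    ring
  unfold slW
  rw [e1, e2, e3]

/-- **Gauge invariance of the slack.** -/
theorem slc_gauge {c : Con} {ex k x u v w R1 R2 R3 g : ℝ} (K : ℝ) (h : c.rel u v w) :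
    slc c ex k x u v w (R1 + u * K) (R2 + v * K) (R3 + w * K) g =
      slc c ex k x u v w R1 R2 R3 g := by
  cases c
  · obtain ⟨h1, h2, h3⟩ := h
    have := slN_gauge (ex := ex) (k := k) (x := x) (A1 := -R1) (A2 := -R2) (A3 := -R3) (g := g)
      (-K) h1 h2
    simp only [slc]
    rw [← this, h3]
    congr 1 <;> ring
  · obtain ⟨h1, h2, h3⟩ := h
    have := slN_gauge (ex := ex) (k := k) (x := x) (l1 := -v) (l2 := -u) (A1 := -R2) (A2 := -R1)
      (A3 := -R3) (g := g) K (by linarith) (by linarith)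
    simp only [slc]
    rw [← this, h3]
    congr 1 <;> ring
  · obtain ⟨h1, h2, h3⟩ := h
    have := slN_gauge (ex := ex) (k := k) (x := x) (l1 := w) (l2 := -v) (A1 := R3) (A2 := -R2)
      (A3 := R1) (g := g) K (by linarith) (by linarith)
    simp only [slc]
    rw [← this, h3]
    congr 1 <;> ring
  · obtain ⟨h1, h2, h3⟩ := h
    have := slN_gauge (ex := ex) (k := k) (x := x) (l1 := -w) (l2 := u) (A1 := R3) (A2 := -R1)
      (A3 := R2) (g := g) (-K) (by linarith) (by linarith)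
    simp only [slc]
    rw [← this, h3]
    congr 1 <;> ring
  · obtain ⟨h1, h2, h3⟩ := h
    have := slN_gauge (ex := ex) (k := k) (x := x) (l1 := -u) (l2 := w) (A1 := -R1) (A2 := R3)
      (A3 := R2) (g := g) K (by linarith) (by linarith)
    simp only [slc]
    rw [← this, h3]
    congr 1 <;> ring
  · obtain ⟨h1, h2, h3⟩ := h
    have := slN_gauge (ex := ex) (k := k) (x := x) (l1 := v) (l2 := -w) (A1 := -R2) (A2 := R3)
      (A3 := R1) (g := g) (-K) (by linarith) (by linarith)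
    simp only [slc]
    rw [← this, h3]
    congr 1 <;> ring
  · have := slW_gauge (ex := ex) (k := k) (x := x) (l1 := u) (l2 := v) (l3 := -w) (A1 := -R1)
      (A2 := -R2) (A3 := R3) (g := g) (-K)
    simp only [slc]
    rw [← this]
    congr 1 <;> ring
  · have := slW_gauge (ex := ex) (k := k) (x := x) (l1 := w) (l2 := -v) (l3 := -u) (A1 := R3)
      (A2 := -R2) (A3 := -R1) (g := g) K
    simp only [slc]
    rw [← this]
    congr 1 <;> ring

theorem stn_smul {N : ℝ} (hN : 0 ≤ N) (ex k x l1 l2 l3 W1 W2 W3 g : ℝ) :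
    stn (N * ex) k x l1 l2 l3 (N * W1) (N * W2) (N * W3) (N * g) =
      N * stn ex k x l1 l2 l3 W1 W2 W3 g := by
  unfold stn
  rw [← mul_sub, ← mul_sub, ← mul_sub, phi_smul hN, phi_smul hN, phi_smul hN]
  ring

theorem slN_smul {N : ℝ} (hN : 0 ≤ N) (ex k x l1 l2 A1 A2 A3 g : ℝ) :
    slN (N * ex) k x l1 l2 (N * A1) (N * A2) (N * A3) (N * g) =
      N * slN ex k x l1 l2 A1 A2 A3 g := by
  have e1 : pn1 l1 l2 (N * A1) (N * A2) (N * A3) = N * pn1 l1 l2 A1 A2 A3 := by unfold pn1; ring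
  have e2 : pn2 l1 l2 (N * A1) (N * A2) (N * A3) = N * pn2 l1 l2 A1 A2 A3 := by unfold pn2; ring
  have e3 : pn3 l1 l2 (N * A1) (N * A2) (N * A3) = N * pn3 l1 l2 A1 A2 A3 := by unfold pn3; ring
  unfold slN
  rw [e1, e2, e3, stn_smul hN]

theorem slW_smul {N : ℝ} (hN : 0 ≤ N) (ex k x l1 l2 l3 A1 A2 A3 g : ℝ) :
    slW (N * ex) k x l1 l2 l3 (N * A1) (N * A2) (N * A3) (N * g) =
      N * slW ex k x l1 l2 l3 A1 A2 A3 g := by
  have e : ∀ a b c p q r : ℝ, pon (N * a) (N * b) (N * c) p q r = N * pon a b c p q r := by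
    intro a b c p q r
    unfold pon
    ring
  unfold slW
  rw [e, e, e, stn_smul hN]

/-- **Homogeneity of the slack.** -/
theorem slc_smul {N : ℝ} (hN : 0 ≤ N) (c : Con) (ex k x u v w R1 R2 R3 g : ℝ) :
    slc c (N * ex) k x u v w (N * R1) (N * R2) (N * R3) (N * g) =
      N * slc c ex k x u v w R1 R2 R3 g := by
  have n : ∀ a : ℝ, -(N * a) = N * -a := fun a => by ring
  cases c <;> simp only [slc, n, slN_smul hN, slW_smul hN]

theorem levF_smul {N : ℝ} (hN : 0 ≤ N) {e l1 l2 l3 L : ℝ} (h : l1 + l2 - l3 = N * L) :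
    levF (N * e) l1 l2 l3 = N * (e - |L| / 2) := by
  unfold levF
  rw [h, abs_mul, abs_of_nonneg hN]
  ring

/-- **A strip row**: the slack is nonnegative if the normalised slack is. -/
theorem far_strip {c : Con} {N e k x u v w K r1 r2 r3 R1 R2 R3 l1 l2 l3 L γ ex : ℝ} (hN : 0 ≤ N)
    (hc : c.rel u v w) (he : ex = N * e) (h1 : R1 = u * K + N * r1) (h2 : R2 = v * K + N * r2)
    (h3 : R3 = w * K + N * r3) (hl : l1 + l2 - l3 = N * L)
    (h : 0 ≤ slc c (e - |L| / 2) k x u v w r1 r2 r3 γ) :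
    0 ≤ slc c (levF ex l1 l2 l3) k x u v w R1 R2 R3 (N * γ) := by
  have e1 : R1 = N * r1 + u * K := by rw [h1]; ring
  have e2 : R2 = N * r2 + v * K := by rw [h2]; ring
  have e3 : R3 = N * r3 + w * K := by rw [h3]; ring
  rw [he, levF_smul hN hl, e1, e2, e3, slc_gauge K hc, slc_smul hN]
  exact mul_nonneg hN h

end Pool.Agent.Strip051.PB
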