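import Pool.Agent.Strip051.PB.StripP

/-! # Unit strips: soundness of the test -/

namespace Pool.Agent.Strip051.PB

attribute [local irreducible] padd psub pneg pmul psq pinv psqrt psqrtg pabs pps pmax pmin pphi plam
  pcase phf pnat prat pscale pnorm pdc pnc pone ppos pnn Enc

/-! ### Directions -/

theorem unit_cT {a b : ℝ} (h : qqn a b = 1) (hb : 1 ≤ b) :
    |a| ≤ 1 / 2 ∧ cT (-a) = 3 / 4 * b + a / 2 ∧ cT a = 3 / 4 * b - a / 2 := by
  unfold qqn at h
  have e : ∀ s : ℝ, s ^ 2 = a ^ 2 → Real.sqrt (3 / 4 * (1 - s ^ 2)) = 3 / 4 * b := by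
    intro s hs
    have : 3 / 4 * (1 - s ^ 2) = (3 / 4 * b) ^ 2 := by rw [hs]; linear_combination (-(3 / 4)) * h
    rw [this, Real.sqrt_sq (by linarith)]
  refine ⟨abs_le_of_sq_le_sq (by nlinarith) (by norm_num), ?_, ?_⟩
  · unfold cT
    rw [e (-a) (by ring)]
    ring
  · unfold cT
    rw [e a rfl]

theorem Ty.py_ge {t : Ty} {q : ℕ} {X y : ℝ} (ht : t.inq q) (hy : InQ q y) (hX : 0 ≤ X)
    (h : qqn X y = t.nq) : 1 ≤ t.py (t.sx * X) y := by
  unfold qqn at h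
  have hu : (q = 0 ∨ q = 1) → X ^ 2 + 3 / 4 * y ^ 2 = 1 → 1 ≤ X + y / 2 := by
    rintro (rfl | rfl) h
    · obtain ⟨g1, g2⟩ := hy
      nlinarith
    · obtain ⟨g1, g2⟩ := hy
      nlinarith
  have hs : (q = 0 ∨ q = 1) → X ^ 2 + 3 / 4 * y ^ 2 = 3 → 1 ≤ 2 / 3 * X := by
    rintro (rfl | rfl) h
    · obtain ⟨g1, g2⟩ := hy
      nlinarith
    · obtain ⟨g1, g2⟩ := hy
      nlinarith
  have hv : (q = 2 ∨ q = 3) → X ^ 2 + 3 / 4 * y ^ 2 = 3 → 1 ≤ X / 3 + y / 2 := by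
    rintro (rfl | rfl) h
    · obtain ⟨g1, g2⟩ := hy
      nlinarith
    · obtain ⟨g1, g2⟩ := hy
      nlinarith
  cases t <;> simp only [Ty.nq] at h <;> simp only [Ty.py, Ty.sx]
  · linarith [hu ht h]
  · subst ht
    exact hy.1
  · linarith [hu ht h]
  · linarith [hs ht h]
  · linarith [hv ht h]
  · linarith [hs ht h]
  · linarith [hv ht h]

/-- The second coordinate of the image does not depend on the sign for the type `u2`. -/
theorem Ty.py_sg {t : Ty} {X y : ℝ} (h : t ≠ .u2 → X = t.sx * |X|) :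
    t.py X y = t.py (t.sx * |X|) y := by
  by_cases ht : t = .u2
  · subst ht
    rfl
  · rw [← h ht]

/-! ### Levels -/

section

variable {E : Pt} {D : SDat} {x : ℝ} {X' : ℕ}

/-- the level function on the curve -/
noncomputable def SDat.tF (D : SDat) (x p : ℝ) : ℝ := D.TX.val D.kf.v p (cT p) x

/-- The trees describe the kernel correction and fit at the knots. -/
structure SDat.Ok (D : SDat) (x : ℝ) : Prop where
  kok : D.KC.KOk x
  kf : ∀ p, |p| ≤ 1 / 2 → D.kf.v p x = D.KC.kv p x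
  tok : D.TX.Ok D.kf.v x

theorem lvT_sound (hD : D.Ok x) (hX : Enc E X' x) (t : Ty) {AX AY PX PY DX DY : ℕ}
    {ax ay px py dx dy N : ℝ} (h1 : Enc E AX ax) (h2 : Enc E AY ay) (h3 : Enc E PX px)
    (h4 : Enc E PY py) (h5 : Enc E DX dx) (h6 : Enc E DY dy) (ha : qqn ax ay = 1) (ha1 : 1 ≤ ay)
    (hp : qqn px py = 1) (hp1 : 1 ≤ py) (hx : ax - px = N * dx) (hy : ay - py = N * dy) :
    ∃ e, Enc E (lvT D.KC D.kf D.TX t AX AY PX PY DX DY X') e ∧
      t.la * D.tF x (-ax) + t.lb * D.tF x ax - (t.la * D.tF x (-px) + t.lb * D.tF x px) =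
        N * e := by
  obtain ⟨a0, a1, a2⟩ := unit_cT ha ha1
  obtain ⟨p0, p1, p2⟩ := unit_cT hp hp1
  have a0' : |-ax| ≤ 1 / 2 := by rwa [abs_neg]
  have p0' : |-px| ≤ 1 / 2 := by rwa [abs_neg]
  obtain ⟨l, hl, el⟩ := txd_sound hX hD.kok hD.kf D.TX hD.tok (enc_neg h1) (enc_neg h3)
    (enc_cast (enc_add (enc_t34 h2) (enc_half h1)) a1.symm)
    (enc_cast (enc_add (enc_t34 h4) (enc_half h3)) p1.symm) (enc_neg h5)
    (enc_norm (enc_add (enc_t34 h6) (enc_half h5))) a0' p0' (μ := N) (by linear_combination -hx)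
    (by rw [a1, p1]; linear_combination 3 / 4 * hy + 1 / 2 * hx)
  obtain ⟨r, hr, er⟩ := txd_sound hX hD.kok hD.kf D.TX hD.tok h1 h3
    (enc_cast (enc_sub (enc_t34 h2) (enc_half h1)) a2.symm)
    (enc_cast (enc_sub (enc_t34 h4) (enc_half h3)) p2.symm) h5
    (enc_norm (enc_sub (enc_t34 h6) (enc_half h5))) a0 p0 (μ := N) hx
    (by rw [a2, p2]; linear_combination 3 / 4 * hy - 1 / 2 * hx)
  unfold SDat.tF
  cases t <;> simp only [Ty.la, Ty.lb]
  · exact ⟨l, hl, by linear_combination el⟩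
  · exact ⟨_, enc_sub hl hr, by linear_combination el - er⟩
  · exact ⟨_, enc_neg hr, by linear_combination -er⟩
  · exact ⟨_, enc_add hl hr, by linear_combination el + er⟩
  · exact ⟨_, enc_sub (enc_add hl hl) hr, by linear_combination 2 * el - er⟩
  · exact ⟨_, enc_sub (enc_neg hl) hr, by linear_combination -el - er⟩
  · exact ⟨_, enc_sub hl (enc_add hr hr), by linear_combination el - 2 * er⟩

theorem lcT_sound (hD : D.Ok x) (hX : Enc E X' x) {AX PX PY DX : ℕ} {ax px py dx N : ℝ}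
    (h1 : Enc E AX ax) (h3 : Enc E PX px) (h4 : Enc E PY py) (h5 : Enc E DX dx)
    (ha : |ax| ≤ 1 / 2) (hp : qqn px py = 1) (hp1 : 1 ≤ py) (hx : ax - px = N * dx) :
    ∃ e, Enc E (lcuT D.KC D.kf D.TX AX PX PY DX X') e ∧
      D.tF x (-ax) - D.tF x ax - (D.tF x (-px) - D.tF x px) = N * e := by
  obtain ⟨p0, p1, p2⟩ := unit_cT hp hp1
  have a0' : |-ax| ≤ 1 / 2 := by rwa [abs_neg]
  have p0' : |-px| ≤ 1 / 2 := by rwa [abs_neg]
  have q1 := enc_csT (enc_neg h1)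
  have q2 := enc_csT h1
  have c1 := enc_cast (enc_add (enc_t34 h4) (enc_half h3)) p1.symm
  have c2 := enc_cast (enc_sub (enc_t34 h4) (enc_half h3)) p2.symm
  obtain ⟨l, hl, el⟩ := txd_sound hX hD.kok hD.kf D.TX hD.tok (enc_neg h1) (enc_neg h3) q1 c1
    (enc_one E) (enc_cdd (enc_neg h1) (enc_neg h3) q1 c1) a0' p0' (μ := -ax - -px) (by ring)
    (cdR_mul a0' p0')
  obtain ⟨r, hr, er⟩ := txd_sound hX hD.kok hD.kf D.TX hD.tok h1 h3 q2 c2
    (enc_one E) (enc_cdd h1 h3 q2 c2) ha p0 (μ := ax - px) (by ring) (cdR_mul ha p0)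
  refine ⟨_, enc_sub (enc_mul (enc_neg h5) hl) (enc_mul h5 hr), ?_⟩
  unfold SDat.tF
  linear_combination el - er - (l + r) * hx

end

/-! ### The third side -/

theorem enc_dc0' (E : Pt) : Enc E (pdc 0 0) 0 :=
  enc_cast (enc_dc E 0 0) (by push_cast; simp)

theorem nT_eq (t : Ty) : (nT t : ℝ) = t.nq := by
  cases t <;> simp [nT, uT, Ty.nq]

theorem uT_iff (t : Ty) : (uT t = true ∧ t.nq = 1 ∧ sN t = 1) ∨
    (uT t = false ∧ t.nq = 3 ∧ sN t = -1) := by
  cases t <;> simp [uT, Ty.nq, sN] <;> norm_num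

theorem sgr_bT (t : Ty) (z : ℝ) : sgr (bT t) z = t.sx * z := by
  cases t <;> simp [bT, Ty.sx, sgr]

theorem sgu_sgr (b : Bool) (z : ℝ) : sgr b (sgr b z) = z := by
  cases b <;> simp [sgr]

theorem sgu_sq (b : Bool) (z : ℝ) : sgr b z ^ 2 = z ^ 2 := by
  cases b <;> simp [sgr]

theorem sgr_sub_c (b : Bool) (z c : ℝ) : z - sgr b c = sgr b (sgr b z - c) := by
  cases b
  · show z - -c = -(-z - c)
    ring
  · rfl

theorem sgu_mul (b : Bool) (N z : ℝ) : sgr b (N * z) = N * sgr b z := by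
  cases b
  · show -(N * z) = N * -z
    ring
  · rfl

theorem abs_sgr (b : Bool) (z : ℝ) : |sgr b z| = |z| := by
  cases b <;> simp [sgr]

/-- the abscissa of the tight curve at the height `Y` -/
noncomputable def cuR (U : Ty) (Y : ℝ) : ℝ := Real.sqrt (U.nq - 3 / 4 * Y ^ 2)

theorem enc_cuT {E : Pt} (U : Ty) {Y : ℕ} {y : ℝ} (h : Enc E Y y) :
    Enc E (cuT U Y) (cuR U y) := by
  unfold cuR
  rw [← nT_eq U]
  exact enc_sqrtg (enc_sub (enc_pnc E (nT U)) (enc_t34 (enc_sq h)))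

theorem enc_rcT {E : Pt} {t : Ty} {q X Y C T K : ℕ} {x y c τ k : ℝ} (hq : t.inq q)
    (hX : Enc E X x) (hY : Enc E Y y) (hC : Enc E C c) (hT : Enc E T τ) (hK : Enc E K k) :
    Enc E (rcT t q X Y C T K) (Gt t q x y * c + τ * k) := by
  have h := enc_cast (enc_add (enc_mul hC (enc_gtT hq hX hY)) (enc_mul hT hK))
    (show c * Gt t q x y + τ * k = Gt t q x y * c + τ * k by ring)
  cases t
  · exact h
  · exact enc_cast (enc_add hC (enc_mul hT hK)) (by simp only [Gt]; ring)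
  all_goals exact h

/-- What is known about the values `KU`, `LU` of kernel and level on the third side `(X, Y)` of type
`U` in the quarter `q`. -/
structure UH (D : SDat) (U : Ty) (S : Sg) (V : Vt) (q : ℕ) (x X Y KU LU : ℝ) : Prop where
  inq : U.inq q
  iny : InQ q Y
  can : ∀ b, (U ≠ .u2 → b = bT U) → 0 ≤ sgr b X →
    (uT U = true → sgr b X ≤ S.f.v Y) → (uT U = false → S.f.v Y ≤ sgr b X) →
    0 < U.nq - 3 / 4 * Y ^ 2 → ∃ Kc Lc, TightK U q (fun p => D.kf.v p x) (sgr b (cuR U Y)) Y Kc ∧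
      TightL U (fun p c => D.TX.val D.kf.v p c x) (sgr b (cuR U Y)) Y Lc ∧
      KU = Kc + (X - sgr b (cuR U Y)) * S.SK.v Y x ∧ LU = Lc + (X - sgr b (cuR U Y)) * S.SX.v Y x
  k1 : U = .u2 → V.k1.v ≤ 1 / 2
  lin : U = .u2 → ∀ b, 0 ≤ sgr b X → sgr b X ≤ V.k1.v → sgr b X ≤ S.f.v Y →
    0 < 1 - 3 / 4 * Y ^ 2 →
    KU = X + (Y - 1) * D.kf.v (-X) x + (X - sgr b (cuR U Y)) * V.RK.v Y x ∧
      LU = D.tF x (-X) - D.tF x X + (X - sgr b (cuR U Y)) * V.RX.v Y x
  flat : U = .u2 → |X| ≤ V.k1.v → |X| ≤ S.f.v Y → V.ya.v ≤ Y → Y ≤ V.yb.v →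
    KU = X + (Y - 1) * D.kf.v (-X) x ∧ LU = D.tF x (-X) - D.tF x X
  yb : U = .u2 → 0 ≤ V.yb.v ∧ 1 ≤ 3 / 4 * V.yb.v ^ 2
  abv : U = .u2 → |X| ≤ V.k1.v → |X| ≤ S.f.v Y → V.yb.v ≤ Y →
    KU = X * V.B.v Y x ∧ LU = X * V.BX.v Y x ∧ D.kf.v (-X) x = -(V.k0.v x * X) ∧
      D.tF x (-X) - D.tF x X = V.m0.v x * X
  abk : U = .u2 → V.yb.v ≤ Y → Y ≤ V.yk.v →
    V.B.v Y x = 1 - (Y - 1) * V.k0.v x + V.sK.v x * (Y - V.yb.v) ∧
      V.BX.v Y x = V.m0.v x + V.sX.v x * (Y - V.yb.v)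
  zro : U = .u2 → D.kf.v 0 x = 0
  phk : U = .u2 → V.PH.KOk x
  ph : U = .u2 → ∀ u, |u| ≤ V.k2.v → D.tF x (-u) - D.tF x u = V.m0.v x * u + V.PH.kv u x
  mrg : U = .u2 → ∀ b, 0 ≤ sgr b X → sgr b X ≤ S.f.v Y → 0 < 1 - 3 / 4 * Y ^ 2 →
    KU = sgr b (cuR U Y) + (Y - 1) * D.kf.v (-sgr b (cuR U Y)) x +
        (X - sgr b (cuR U Y)) * (1 + V.SM.v Y x) ∧
      LU = D.tF x (-sgr b (cuR U Y)) - D.tF x (sgr b (cuR U Y)) +
        (X - sgr b (cuR U Y)) * S.SX.v Y x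
  flz : U = .u2 → |X| ≤ S.f.v Y → V.yz.v ≤ Y → Y ≤ V.yb.v →
    KU = X * (1 - (Y - 1) * V.k0.v x) ∧ LU = V.m0.v x * X

theorem TightL.tF {D : SDat} {t : Ty} {x X y l : ℝ}
    (h : TightL t (fun p c => D.TX.val D.kf.v p c x) X y l) (hp : qqn (t.px X y) (t.py X y) = 1)
    (hp1 : 1 ≤ t.py X y) : l = t.la * D.tF x (-t.px X y) + t.lb * D.tF x (t.px X y) := by
  obtain ⟨-, e1, e2⟩ := unit_cT hp hp1
  unfold TightL at h
  rw [h]
  unfold SDat.tF
  rw [e1, e2]

/-- The result of the analysis of the third side. -/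
def ThR (E : Pt) (D : SDat) (U : Ty) (q : ℕ) (x Y px κ0 N KU LU : ℝ) (fin : ℕ → ℕ → Bool) :
    Prop :=
  ∃ R L r l, Enc E R r ∧ Enc E L l ∧
    KU = (Y - jq q) * (κ0 + D.kf.v (-px) x) + N * r ∧
    LU = U.la * D.tF x (-px) + U.lb * D.tF x px + N * l ∧ fin R L = true

section

variable {E : Pt} {D : SDat} {U : Ty} {S : Sg} {V : Vt} {q : ℕ} {b : Bool} {x X Y KU LU px py κ0
  dx dy N : ℝ} {x' X' Y' T' px' py' k' dx' dy' : ℕ} {fin : ℕ → ℕ → Bool}

theorem canT_sound (hD : D.Ok x) (hx : Enc E x' x) (hX : Enc E X' X) (hY : Enc E Y' Y)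
    (hT : Enc E T' (Y - jq q)) (h3 : Enc E px' px) (h4 : Enc E py' py) (hk : Enc E k' κ0)
    (h5 : Enc E dx' dx) (h6 : Enc E dy' dy) (H : UH D U S V q x X Y KU LU)
    (hb : U ≠ .u2 → b = bT U) (hp : qqn px py = 1) (hp1 : 1 ≤ py) (hκ : (py - 1) * κ0 = px)
    (g1 : U.px X Y = px + N * U.px dx dy) (g2 : U.py X Y = py + N * U.py dx dy)
    (g3 : qqn X Y - U.nq = 3 / 16 * sN U * N)
    (h : canT D U b S q X' Y' T' px' py' k' dx' dy' x' fin = true) :
    ThR E D U q x Y px κ0 N KU LU fin := by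
  unfold canT at h
  simp only [frc_eq] at h
  obtain ⟨c1, h⟩ := band_true h
  obtain ⟨c2, h⟩ := band_true h
  obtain ⟨c3, h⟩ := band_true h
  obtain ⟨c4, h⟩ := band_true h
  have haX := enc_sg b hX
  have hc := enc_cuT U hY
  have hf := S.f.enc hY
  have a1 := pnn_sound haX c1
  have a3 := ppos_sound (enc_sub (enc_pnc E (nT U)) (enc_t34 (enc_sq hY))) c3
  rw [nT_eq] at a3
  have a4 := ppos_sound (enc_add haX hc) c4
  have hcsq : cuR U Y ^ 2 = U.nq - 3 / 4 * Y ^ 2 := Real.sq_sqrt a3.le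
  have hc0 : 0 ≤ cuR U Y := Real.sqrt_nonneg _
  have hfin := h
  set c := cuR U Y with hcdef
  -- the displacement along the abscissa
  have hxi : Enc E (sg (cond (uT U) b (!b)) (pscale 3 16 (pinv (padd (sg b X') (cuT U Y')))))
      (sgr b (sN U * (3 / 16 * (sgr b X + c)⁻¹))) := by
    have e := enc_sg (cond (uT U) b (!b)) (enc_scale 3 16 (enc_inv (enc_add haX hc)))
    refine enc_cast e ?_
    rcases uT_iff U with ⟨e1, -, e2⟩ | ⟨e1, -, e2⟩ <;> rw [e1, e2] <;> cases b <;>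
      simp [sgr]
  set ξ := sgr b (sN U * (3 / 16 * (sgr b X + c)⁻¹)) with hξ
  have hNξ : X - sgr b c = N * ξ := by
    have hi := inv_mul_cancel₀ a4.ne'
    have e1 : (sgr b X - c) * (sgr b X + c) = 3 / 16 * sN U * N := by
      have := sgu_sq b X
      unfold qqn at g3
      linear_combination this - hcsq + g3
    have e2 : sgr b X - c = N * (sN U * (3 / 16 * (sgr b X + c)⁻¹)) := by
      linear_combination (sgr b X + c)⁻¹ * e1 - (sgr b X - c) * hi
    have e3 : X - sgr b c = sgr b (sgr b X - c) := sgr_sub_c b X c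
    rw [e3, e2, hξ]
    exact sgu_mul b _ _
  obtain ⟨Kc, Lc, tK, tL, eK, eL⟩ := H.can b hb a1 (fun hu => by
      have := pnn_sound (enc_sl (uT U) (enc_sub hf haX) (enc_sub haX hf)) c2
      rw [hu] at this
      simp only [cond_true] at this
      linarith) (fun hu => by
      have := pnn_sound (enc_sl (uT U) (enc_sub hf haX) (enc_sub haX hf)) c2
      rw [hu] at this
      simp only [cond_false] at this
      linarith) a3
  rw [← hcdef] at tK tL eK eL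
  -- the point on the curve
  have hq1 : qqn (sgr b c) Y = U.nq := by
    unfold qqn
    rw [sgu_sq, hcsq]
    ring
  have hq2 : qqn c Y = U.nq := by
    unfold qqn
    rw [hcsq]
    ring
  have habs : |sgr b c| = c := by rw [abs_sgr, abs_of_nonneg hc0]
  have hsx : U ≠ .u2 → sgr b c = U.sx * |sgr b c| := fun hu => by
    rw [habs, hb hu, sgr_bT]
  have hpy := Ty.py_sg (y := Y) hsx
  rw [habs] at hpy
  have hge : 1 ≤ U.py (sgr b c) Y := by
    rw [hpy]
    exact Ty.py_ge H.inq H.iny hc0 hq2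
  have hun := Ty.p_unit hq1
  have hG := Gt_mul H.inq H.iny hc0 hq2
  rw [← hpy] at hG
  have gx : U.px (sgr b c) Y - px = N * (U.px dx dy - U.px ξ 0) := by
    have e : U.px X Y = U.px (sgr b c) Y + N * U.px ξ 0 := by
      rw [← Ty.px_add, ← hNξ]
      congr 1 <;> ring
    rw [e] at g1
    linear_combination g1
  have gy : U.py (sgr b c) Y - py = N * (U.py dx dy - U.py ξ 0) := by
    have e : U.py X Y = U.py (sgr b c) Y + N * U.py ξ 0 := by
      rw [← Ty.py_add, ← hNξ]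
      congr 1 <;> ring
    rw [e] at g2
    linear_combination g2
  have h7 := enc_norm (enc_axT U (enc_pxT U h5 h6) hxi)
  have h8 := enc_norm (enc_ayT U (enc_pyT U h5 h6) hxi)
  have h9 := enc_norm (enc_pxT U (enc_sg b hc) hY)
  have h10 := enc_norm (enc_pyT U (enc_sg b hc) hY)
  obtain ⟨d0, d1, d2⟩ := unit_cT hun hge
  obtain ⟨p0, p1, p2⟩ := unit_cT hp hp1
  obtain ⟨dk, hdk, ek⟩ := kcd_sound hx D.KC hD.kok (enc_neg h9) (enc_neg h3) (enc_neg h7)
    (μ := N) (by linear_combination -gx)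
  rw [← hD.kf _ (by rwa [abs_neg]), ← hD.kf _ (by rwa [abs_neg])] at ek
  obtain ⟨e, he, el⟩ := lvT_sound hD hx U h9 h10 h3 h4 h7 h8 hun hge hp hp1 gx gy
  have hL := tL.tF hun hge
  have hG' : Gt U q c Y * (py + N * (U.py dx dy - U.py ξ 0) - 1) = Y - jq q := by
    rw [← hG]
    linear_combination (-(Gt U q c Y)) * gy
  have hrow := row_val (δx := U.px dx dy - U.px ξ 0) hG' hκ ek
  refine ⟨_, _, _, _, enc_add (enc_rcT H.inq hc hY (enc_norm (enc_sub h7 (enc_mul h8 hk))) hT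
    (enc_norm hdk))
    (enc_mul hxi (S.SK.enc hY hx)), enc_add he (enc_mul hxi (S.SX.enc hY hx)), ?_, ?_, hfin⟩
  · rw [eK, hNξ]
    unfold TightK at tK
    rw [habs] at tK
    rw [tK]
    have gx' : U.px (sgr b c) Y = px + N * (U.px dx dy - U.px ξ 0) := by linear_combination gx
    rw [gx']
    rw [gx'] at hrow
    linear_combination hrow
  · rw [eL, hNξ, hL]
    linear_combination el

theorem vr_enc (hD : D.Ok x) (hx : Enc E x' x) (hX : Enc E X' X)
    (hT : Enc E T' (Y - 1)) (h3 : Enc E px' px) (h4 : Enc E py' py) (hk : Enc E k' κ0)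
    (h5 : Enc E dx' dx) (h6 : Enc E dy' dy) (hX1 : |X| ≤ 1 / 2) (hp : qqn px py = 1)
    (hp1 : 1 ≤ py) (hκ : (py - 1) * κ0 = px) (g1 : X = px + N * dx) (g2 : Y = py + N * dy)
    (h : vruT D X' T' px' py' k' dx' dy' x' fin = true) :
    ∃ R L r l, Enc E R r ∧ Enc E L l ∧
      X + (Y - 1) * D.kf.v (-X) x = (Y - 1) * (κ0 + D.kf.v (-px) x) + N * r ∧
      D.tF x (-X) - D.tF x X = D.tF x (-px) - D.tF x px + N * l ∧ fin R L = true := by
  obtain ⟨p0, p1, p2⟩ := unit_cT hp hp1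
  obtain ⟨dk, hdk, ek⟩ := kcd_sound hx D.KC hD.kok (enc_neg hX) (enc_neg h3) (enc_neg h5)
    (μ := N) (by rw [g1]; ring)
  rw [← hD.kf _ (by rwa [abs_neg]), ← hD.kf _ (by rwa [abs_neg])] at ek
  obtain ⟨e, he, el⟩ := lcT_sound hD hx hX h3 h4 h5 hX1 hp hp1
    (N := N) (by rw [g1]; ring)
  refine ⟨_, _, _, _, enc_add (enc_sub h5 (enc_mul h6 hk)) (enc_mul hT (enc_norm hdk)), he, ?_, ?_,
    h⟩
  · linear_combination g1 - κ0 * g2 + (Y - 1) * ek - hκ
  · linear_combination el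

theorem vl_sound (hD : D.Ok x) (hx : Enc E x' x) (hX : Enc E X' X) (hY : Enc E Y' Y)
    (hT : Enc E T' (Y - 1)) (h3 : Enc E px' px) (h4 : Enc E py' py) (hk : Enc E k' κ0)
    (h5 : Enc E dx' dx) (h6 : Enc E dy' dy) (H : UH D .u2 S V 2 x X Y KU LU)
    (hp : qqn px py = 1) (hp1 : 1 ≤ py) (hκ : (py - 1) * κ0 = px)
    (g1 : X = px + N * dx) (g2 : Y = py + N * dy) (g3 : qqn X Y - 1 = 3 / 16 * N)
    (h : vlT D V b (S.f.t Y') X' Y' T' px' py' k' dx' dy' x' fin = true) :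
    ThR E D .u2 2 x Y px κ0 N KU LU fin := by
  unfold vlT at h
  simp only [frc_eq] at h
  obtain ⟨c1, h⟩ := band_true h
  obtain ⟨c2, h⟩ := band_true h
  obtain ⟨c3, h⟩ := band_true h
  obtain ⟨c4, h⟩ := band_true h
  obtain ⟨c5, h⟩ := band_true h
  have haX := enc_sg b hX
  have hc := enc_cuT .u2 hY
  have a1 := pnn_sound haX c1
  have a2 := pnn_sound (enc_sub (V.k1.enc E) haX) c2
  have a3 := pnn_sound (enc_sub (S.f.enc hY) haX) c3
  have a4 := ppos_sound (enc_sub (enc_pnc E 1) (enc_t34 (enc_sq hY))) c4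
  have a5 := ppos_sound (enc_add haX hc) c5
  push_cast at a4
  have hcsq : cuR .u2 Y ^ 2 = 1 - 3 / 4 * Y ^ 2 := Real.sq_sqrt (by simp only [Ty.nq]; linarith)
  have hX1 : |X| ≤ 1 / 2 := by
    rw [← abs_sgr b, abs_of_nonneg a1]
    linarith [H.k1 rfl]
  set c := cuR .u2 Y with hcdef
  have hxi := enc_sg b (enc_scale 3 16 (enc_inv (enc_add haX hc)))
  have hNξ : X - sgr b c = N * sgr b (((3 : ℕ) : ℝ) / ((16 : ℕ) : ℝ) * (sgr b X + c)⁻¹) := by
    have hi := inv_mul_cancel₀ a5.ne'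
    have e1 : (sgr b X - c) * (sgr b X + c) = 3 / 16 * N := by
      have := sgu_sq b X
      unfold qqn at g3
      linear_combination this - hcsq + g3
    have e2 : sgr b X - c = N * (((3 : ℕ) : ℝ) / ((16 : ℕ) : ℝ) * (sgr b X + c)⁻¹) := by
      push_cast
      linear_combination (sgr b X + c)⁻¹ * e1 - (sgr b X - c) * hi
    rw [sgr_sub_c, e2]
    exact sgu_mul b _ _
  obtain ⟨eK, eL⟩ := H.lin rfl b a1 (by linarith) (by linarith) a4
  rw [← hcdef] at eK eL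
  obtain ⟨R, L, r, l, hR, hL, e1, e2, hf⟩ := vr_enc hD hx hX hT h3 h4 hk h5 h6 hX1 hp hp1 hκ g1 g2 h
  refine ⟨_, _, _, _, enc_add hR (enc_mul hxi (V.RK.enc hY hx)),
    enc_add hL (enc_mul hxi (V.RX.enc hY hx)), ?_, ?_, hf⟩
  · rw [eK, hNξ]
    simp only [jq]
    push_cast
    linear_combination e1
  · rw [eL, hNξ]
    simp only [Ty.la, Ty.lb]
    linear_combination e2

theorem vf_sound (hD : D.Ok x) (hx : Enc E x' x) (hX : Enc E X' X) (hY : Enc E Y' Y)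
    (hT : Enc E T' (Y - 1)) (h3 : Enc E px' px) (h4 : Enc E py' py) (hk : Enc E k' κ0)
    (h5 : Enc E dx' dx) (h6 : Enc E dy' dy) (H : UH D .u2 S V 2 x X Y KU LU)
    (hp : qqn px py = 1) (hp1 : 1 ≤ py) (hκ : (py - 1) * κ0 = px)
    (g1 : X = px + N * dx) (g2 : Y = py + N * dy)
    (h : vfT D V (S.f.t Y') X' Y' T' px' py' k' dx' dy' x' fin = true) :
    ThR E D .u2 2 x Y px κ0 N KU LU fin := by
  unfold vfT at h
  simp only [frc_eq] at h
  obtain ⟨c1, h⟩ := band_true h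
  obtain ⟨c2, h⟩ := band_true h
  obtain ⟨c3, h⟩ := band_true h
  obtain ⟨c4, h⟩ := band_true h
  have haX := enc_abs hX
  have a1 := pnn_sound (enc_sub (V.k1.enc E) haX) c1
  have a2 := pnn_sound (enc_sub (S.f.enc hY) haX) c2
  have a3 := pnn_sound (enc_sub hY (V.ya.enc E)) c3
  have a4 := pnn_sound (enc_sub (V.yb.enc E) hY) c4
  obtain ⟨eK, eL⟩ := H.flat rfl (by linarith) (by linarith) (by linarith) (by linarith)
  obtain ⟨R, L, r, l, hR, hL, e1, e2, hf⟩ := vr_enc hD hx hX hT h3 h4 hk h5 h6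
    (by linarith [H.k1 rfl]) hp hp1 hκ g1 g2 h
  refine ⟨_, _, _, _, hR, hL, ?_, ?_, hf⟩
  · rw [eK]
    simp only [jq]
    push_cast
    linear_combination e1
  · rw [eL]
    simp only [Ty.la, Ty.lb]
    linear_combination e2

theorem va_sound (hD : D.Ok x) (hx : Enc E x' x) (hX : Enc E X' X) (hY : Enc E Y' Y)
    (hT : Enc E T' (Y - 1)) (h3 : Enc E px' px) (h4 : Enc E py' py) (hk : Enc E k' κ0)
    (h5 : Enc E dx' dx) (h6 : Enc E dy' dy) (H : UH D .u2 S V 2 x X Y KU LU)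
    (hp : qqn px py = 1) (hp1 : 1 ≤ py) (hκ : (py - 1) * κ0 = px)
    (g1 : X = px + N * dx) (g2 : Y = py + N * dy) (g3 : qqn X Y - 1 = 3 / 16 * N)
    (h : vaT D V (S.f.t Y') X' Y' T' px' py' k' dx' dy' x' fin = true) :
    ThR E D .u2 2 x Y px κ0 N KU LU fin := by
  unfold vaT at h
  simp only [frc_eq] at h
  obtain ⟨c1, h⟩ := band_true h
  obtain ⟨c2, h⟩ := band_true h
  obtain ⟨c3, h⟩ := band_true h
  obtain ⟨c4, h⟩ := band_true h
  have haX := enc_abs hX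
  have a1 := pnn_sound (enc_sub (V.k1.enc E) haX) c1
  have a2 := pnn_sound (enc_sub (S.f.enc hY) haX) c2
  have a3 := pnn_sound (enc_sub hY (V.yb.enc E)) c3
  have a4 := pnn_sound (enc_sub (V.yk.enc E) hY) c4
  obtain ⟨b0, b1⟩ := H.yb rfl
  obtain ⟨eK, eL, ek, el⟩ := H.abv rfl (by linarith) (by linarith) (by linarith)
  obtain ⟨eB, eX⟩ := H.abk rfl (by linarith) (by linarith)
  have hpos : 0 < Y + V.yb.v := by nlinarith
  have hi := inv_mul_cancel₀ hpos.ne'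
  have hle : (Y - V.yb.v) * (Y + V.yb.v) ≤ 1 / 4 * N := by
    unfold qqn at g3
    nlinarith [sq_nonneg X]
  have hN0 : 0 ≤ N := by nlinarith
  obtain ⟨t, t0, t1, ht⟩ : ∃ t : ℝ, 0 ≤ t ∧ t ≤ 1 ∧ (Y - V.yb.v) * (Y + V.yb.v) = 1 / 4 * N * t := by
    rcases hN0.eq_or_lt with h0 | h0
    · refine ⟨0, le_rfl, zero_le_one, ?_⟩
      nlinarith
    · refine ⟨(Y - V.yb.v) * (Y + V.yb.v) / (1 / 4 * N),
        div_nonneg (mul_nonneg (by linarith) hpos.le) (by linarith), ?_, ?_⟩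
      · rw [div_le_one (by linarith)]
        exact hle
      · field_simp
  obtain ⟨R, L, r, l, hR, hL, e1, e2, hf⟩ := vr_enc hD hx hX hT h3 h4 hk h5 h6
    (by linarith [H.k1 rfl]) hp hp1 hκ g1 g2 h
  have hz := enc_mul hX (enc_mul (enc_half (enc_half (enc_u01 E t0 t1)))
    (enc_inv (enc_add hY (V.yb.enc E))))
  have hNz : X * (Y - V.yb.v) = N * (X * (t / 2 / 2 * (Y + V.yb.v)⁻¹)) := by
    linear_combination X * (Y + V.yb.v)⁻¹ * ht - X * (Y - V.yb.v) * hi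
  refine ⟨_, _, _, _, enc_add hR (enc_mul hz (V.sK.enc hx)),
    enc_add hL (enc_mul hz (V.sX.enc hx)), ?_, ?_, hf⟩
  · rw [eK, eB]
    simp only [jq]
    push_cast
    linear_combination e1 + V.sK.v x * hNz - (Y - 1) * ek
  · rw [eL, eX]
    simp only [Ty.la, Ty.lb]
    linear_combination e2 + V.sX.v x * hNz - el

theorem vd_sound (hD : D.Ok x) (hx : Enc E x' x) (hX : Enc E X' X) (hY : Enc E Y' Y) {q' : ℕ}
    (hq : Enc E q' (qqn X Y))
    (hT : Enc E T' (Y - 1)) (h3 : Enc E px' px) (h4 : Enc E py' py) (hk : Enc E k' κ0)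
    (h5 : Enc E dx' dx) (h6 : Enc E dy' dy) (H : UH D .u2 S V 2 x X Y KU LU)
    (hp : qqn px py = 1) (hp1 : 1 ≤ py) (hκ : (py - 1) * κ0 = px)
    (g1 : X = px + N * dx) (g2 : Y = py + N * dy) (g3 : qqn X Y - 1 = 3 / 16 * N)
    (h : vdT D V (S.f.t Y') q' X' Y' T' px' py' k' dx' dy' x' fin = true) :
    ThR E D .u2 2 x Y px κ0 N KU LU fin := by
  unfold vdT at h
  simp only [frc_eq] at h
  obtain ⟨c1, h⟩ := band_true h
  obtain ⟨c2, h⟩ := band_true h
  obtain ⟨c3, h⟩ := band_true h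
  obtain ⟨c4, h⟩ := band_true h
  have haX := enc_abs hX
  have a1 := pnn_sound (enc_sub (V.k1.enc E) haX) c1
  have a2 := pnn_sound (enc_sub (S.f.enc hY) haX) c2
  have a3 := pnn_sound (enc_sub hY (V.yb.enc E)) c3
  have a4 := ppos_sound (enc_sub hq (enc_one E)) c4
  obtain ⟨eK, eL, ek, el⟩ := H.abv rfl (by linarith) (by linarith) (by linarith)
  have hi := inv_mul_cancel₀ a4.ne'
  obtain ⟨R, L, r, l, hR, hL, e1, e2, hf⟩ := vr_enc hD hx hX hT h3 h4 hk h5 h6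
    (by linarith [H.k1 rfl]) hp hp1 hκ g1 g2 h
  have hz := enc_mul hX (enc_scale 3 16 (enc_inv (enc_sub hq (enc_one E))))
  have hNz : X = N * (X * (((3 : ℕ) : ℝ) / ((16 : ℕ) : ℝ) * (qqn X Y - 1)⁻¹)) := by
    push_cast
    linear_combination (-X) * hi + X * (qqn X Y - 1)⁻¹ * g3
  set z := X * (((3 : ℕ) : ℝ) / ((16 : ℕ) : ℝ) * (qqn X Y - 1)⁻¹) with hzdef
  refine ⟨_, _, _, _, enc_add hR (enc_mul hz (enc_norm (enc_sub (V.B.enc hY hx)
      (enc_sub (enc_one E) (enc_mul hT (V.k0.enc hx)))))),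
    enc_add hL (enc_mul hz (enc_norm (enc_sub (V.BX.enc hY hx) (V.m0.enc hx)))), ?_, ?_, hf⟩
  · rw [eK]
    simp only [jq]
    push_cast
    linear_combination e1 + (V.B.v Y x - (1 - (Y - 1) * V.k0.v x)) * hNz - (Y - 1) * ek
  · rw [eL]
    simp only [Ty.la, Ty.lb]
    linear_combination e2 + (V.BX.v Y x - V.m0.v x) * hNz - el

theorem gqT_sound (hD : D.Ok x) (hx : Enc E x' x) {A' : ℕ} {a : ℝ} (hA : Enc E A' a)
    (h3 : Enc E px' px) (h4 : Enc E py' py) (ha : |a| ≤ 1 / 2) (hp : qqn px py = 1)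
    (hp1 : 1 ≤ py) : ∃ e, Enc E (pneg (gqT D A' px' py' x')) e ∧
      D.tF x (-a) - D.tF x a - (D.tF x (-px) - D.tF x px) = (a - px) * e := by
  obtain ⟨p0, p1, p2⟩ := unit_cT hp hp1
  have a0' : |-a| ≤ 1 / 2 := by rwa [abs_neg]
  have p0' : |-px| ≤ 1 / 2 := by rwa [abs_neg]
  have q1 := enc_csT (enc_neg hA)
  have q2 := enc_csT hA
  have c1 := enc_cast (enc_add (enc_t34 h4) (enc_half h3)) p1.symm
  have c2 := enc_cast (enc_sub (enc_t34 h4) (enc_half h3)) p2.symm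
  obtain ⟨l, hl, el⟩ := txd_sound hx hD.kok hD.kf D.TX hD.tok (enc_neg hA) (enc_neg h3) q1 c1
    (enc_one E) (enc_cdd (enc_neg hA) (enc_neg h3) q1 c1) a0' p0' (μ := -a - -px) (by ring)
    (cdR_mul a0' p0')
  obtain ⟨r, hr, er⟩ := txd_sound hx hD.kok hD.kf D.TX hD.tok hA h3 q2 c2
    (enc_one E) (enc_cdd hA h3 q2 c2) ha p0 (μ := a - px) (by ring) (cdR_mul ha p0)
  unfold gqT
  simp only [frc_eq]
  refine ⟨_, enc_neg (enc_add hl hr), ?_⟩
  unfold SDat.tF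
  linear_combination el - er

theorem sel2_false (L R : ℕ) : sel2 false L R = L := rfl

theorem sel2_true (L R : ℕ) : sel2 true L R = R := rfl

theorem phT_false (A px py x : ℕ) : phT D V false A px py x = pneg (gqT D A px py x) := by
  unfold phT
  rw [sel2_false]

theorem phT_true (A px py x : ℕ) :
    phT D V true A px py x = padd (V.m0.t x) (kcd V.PH A px pone x) := by
  unfold phT
  rw [sel2_true]

theorem phT_sound (hD : D.Ok x) (hx : Enc E x' x) {A' : ℕ} {a : ℝ} {sm : Bool}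
    (hA : Enc E A' a) (h3 : Enc E px' px) (h4 : Enc E py' py) (ha : |a| ≤ 1 / 2)
    (hp : qqn px py = 1) (hp1 : 1 ≤ py) (hk : V.PH.KOk x)
    (hph : ∀ u, |u| ≤ V.k2.v → D.tF x (-u) - D.tF x u = V.m0.v x * u + V.PH.kv u x)
    (hs : sm = true → |a| ≤ V.k2.v ∧ |px| ≤ V.k2.v) : ∃ e, Enc E (phT D V sm A' px' py' x') e ∧
      D.tF x (-a) - D.tF x a - (D.tF x (-px) - D.tF x px) = (a - px) * e := by
  cases sm
  · rw [phT_false]
    exact gqT_sound hD hx hA h3 h4 ha hp hp1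
  · rw [phT_true]
    obtain ⟨s1, s2⟩ := hs rfl
    obtain ⟨e, he, ee⟩ := kcd_sound hx V.PH hk hA h3 (enc_one E) (μ := a - px) (by ring)
    refine ⟨_, enc_add (V.m0.enc hx) he, ?_⟩
    rw [hph a s1, hph px s2]
    linear_combination ee

theorem vm_sound (hD : D.Ok x) (hx : Enc E x' x) (hX : Enc E X' X) (hY : Enc E Y' Y)
    (hT : Enc E T' (Y - 1)) (h3 : Enc E px' px) (h4 : Enc E py' py) (hk : Enc E k' κ0)
    (h5 : Enc E dx' dx) (h6 : Enc E dy' dy) (H : UH D .u2 S V 2 x X Y KU LU)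
    (hp : qqn px py = 1) (hp1 : 1 ≤ py) (hκ : (py - 1) * κ0 = px)
    (g1 : X = px + N * dx) (g2 : Y = py + N * dy) (g3 : qqn X Y - 1 = 3 / 16 * N)
    (h : vmT D V S b X' Y' T' px' py' k' dx' dy' x' fin = true) :
    ThR E D .u2 2 x Y px κ0 N KU LU fin := by
  unfold vmT at h
  simp only [frc_eq] at h
  obtain ⟨c1, h⟩ := band_true h
  obtain ⟨c2, h⟩ := band_true h
  obtain ⟨c3, h⟩ := band_true h
  obtain ⟨c4, h⟩ := band_true h
  have haX := enc_sg b hX
  have hc := enc_cuT .u2 hY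
  have a1 := pnn_sound haX c1
  have a2 := pnn_sound (enc_sub (S.f.enc hY) haX) c2
  have a3 := ppos_sound (enc_sub (enc_pnc E 1) (enc_t34 (enc_sq hY))) c3
  have a4 := ppos_sound (enc_add haX hc) c4
  push_cast at a3
  have hcsq : cuR .u2 Y ^ 2 = 1 - 3 / 4 * Y ^ 2 := Real.sq_sqrt (by simp only [Ty.nq]; linarith)
  have hc0 : 0 ≤ cuR .u2 Y := Real.sqrt_nonneg _
  have hY1 : 1 ≤ Y := H.iny.1
  set c := cuR .u2 Y with hcdef
  have habs : |sgr b c| = c := by rw [abs_sgr, abs_of_nonneg hc0]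
  have hc12 : |sgr b c| ≤ 1 / 2 := by
    rw [habs]
    nlinarith
  have hxi := enc_sg b (enc_scale 3 16 (enc_inv (enc_add haX hc)))
  have hNξ : X - sgr b c = N * sgr b (((3 : ℕ) : ℝ) / ((16 : ℕ) : ℝ) * (sgr b X + c)⁻¹) := by
    have hi := inv_mul_cancel₀ a4.ne'
    have e1 : (sgr b X - c) * (sgr b X + c) = 3 / 16 * N := by
      have := sgu_sq b X
      unfold qqn at g3
      linear_combination this - hcsq + g3
    have e2 : sgr b X - c = N * (((3 : ℕ) : ℝ) / ((16 : ℕ) : ℝ) * (sgr b X + c)⁻¹) := by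
      push_cast
      linear_combination (sgr b X + c)⁻¹ * e1 - (sgr b X - c) * hi
    rw [sgr_sub_c, e2]
    exact sgu_mul b _ _
  obtain ⟨eK, eL⟩ := H.mrg rfl b a1 (by linarith) a3
  rw [← hcdef] at eK eL
  have hcx := enc_sg b hc
  obtain ⟨dk, hdk, ek⟩ := kcd_sound hx D.KC hD.kok (enc_neg hcx) (enc_neg h3) (enc_one E)
    (μ := -sgr b c - -px) (by ring)
  obtain ⟨p0, p1, p2⟩ := unit_cT hp hp1
  rw [← hD.kf _ (by rwa [abs_neg]), ← hD.kf _ (by rwa [abs_neg])] at ek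
  obtain ⟨fl, hfl, efl⟩ := phT_sound (V := V)
    (sm := band (pnn (psub V.k2.t (cuT .u2 Y'))) (pnn (psub V.k2.t (pabs px')))) hD hx hcx h3 h4
    hc12 hp hp1 (H.phk rfl) (H.ph rfl) (fun hs => by
      obtain ⟨s1, s2⟩ := band_true hs
      have t1 := pnn_sound (enc_sub (V.k2.enc E) hc) s1
      have t2 := pnn_sound (enc_sub (V.k2.enc E) (enc_abs h3)) s2
      rw [habs]
      constructor <;> linarith)
  have htp := enc_norm (enc_mul hT (enc_norm hdk))
  have hfl' := enc_norm hfl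
  refine ⟨_, _, _, _, enc_add (enc_sub (enc_sub h5 (enc_mul h6 hk)) (enc_mul htp h5))
    (enc_mul hxi (enc_norm (enc_add (V.SM.enc hY hx) htp))),
    enc_add (enc_mul hfl' h5) (enc_mul hxi (enc_norm (enc_sub (S.SX.enc hY hx) hfl'))), ?_, ?_, h⟩
  · rw [eK]
    simp only [jq]
    push_cast at hNξ ⊢
    linear_combination (V.SM.v Y x + (Y - 1) * dk) * hNξ + (1 - (Y - 1) * dk) * g1 - κ0 * g2 -
      hκ + (Y - 1) * ek
  · rw [eL]
    simp only [Ty.la, Ty.lb]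
    linear_combination efl + (S.SX.v Y x - fl) * hNξ + fl * g1

theorem vz_sound (hD : D.Ok x) (hx : Enc E x' x) (hX : Enc E X' X) (hY : Enc E Y' Y) {q' : ℕ}
    (hq : Enc E q' (qqn X Y))
    (hT : Enc E T' (Y - 1)) (h3 : Enc E px' px) (h4 : Enc E py' py) (hk : Enc E k' κ0)
    (h5 : Enc E dx' dx) (h6 : Enc E dy' dy) (H : UH D .u2 S V 2 x X Y KU LU)
    (hp : qqn px py = 1) (hp1 : 1 ≤ py) (hκ : (py - 1) * κ0 = px)
    (g1 : X = px + N * dx) (g2 : Y = py + N * dy) (g3 : qqn X Y - 1 = 3 / 16 * N)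
    (h : vzT D V (S.f.t Y') q' X' Y' T' px' py' k' dx' dy' x' fin = true) :
    ThR E D .u2 2 x Y px κ0 N KU LU fin := by
  unfold vzT at h
  simp only [frc_eq] at h
  obtain ⟨c1, h⟩ := band_true h
  obtain ⟨c2, h⟩ := band_true h
  obtain ⟨c3, h⟩ := band_true h
  obtain ⟨c4, h⟩ := band_true h
  have haX := enc_abs hX
  have a1 := pnn_sound (enc_sub (S.f.enc hY) haX) c1
  have a2 := pnn_sound (enc_sub hY (V.yz.enc E)) c2
  have a3 := pnn_sound (enc_sub (V.yb.enc E) hY) c3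
  have a4 := ppos_sound (enc_sub hq (enc_one E)) c4
  obtain ⟨eK, eL⟩ := H.flz rfl (by linarith) (by linarith) (by linarith)
  have hz := enc_mul (enc_nat 3 hX) (enc_inv (enc_nat 16 (enc_sub hq (enc_one E))))
  have hNz : X = N * (((3 : ℕ) : ℝ) * X * (((16 : ℕ) : ℝ) * (qqn X Y - 1))⁻¹) := by
    have hi := inv_mul_cancel₀ (show ((16 : ℕ) : ℝ) * (qqn X Y - 1) ≠ 0 from
      (mul_pos (by norm_num) a4).ne')
    push_cast at hi ⊢
    linear_combination (-X) * hi + 16 * X * (16 * (qqn X Y - 1))⁻¹ * g3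
  set z := ((3 : ℕ) : ℝ) * X * (((16 : ℕ) : ℝ) * (qqn X Y - 1))⁻¹ with hzdef
  have hdz := enc_norm (enc_sub h5 hz)
  obtain ⟨p0, p1, p2⟩ := unit_cT hp hp1
  obtain ⟨dk, hdk, ek⟩ := kcd_sound hx D.KC hD.kok (enc_dc0' E) (enc_neg h3) (enc_one E)
    (μ := 0 - -px) (by ring)
  rw [← hD.kf _ (by norm_num), ← hD.kf _ (by rwa [abs_neg])] at ek
  obtain ⟨fl, hfl, efl⟩ := phT_sound (V := V)
    (sm := pnn (psub V.k2.t (pabs px'))) hD hx (enc_dc0' E) h3 h4
    (by norm_num) hp hp1 (H.phk rfl) (H.ph rfl) (fun hs => by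
      have t2 := pnn_sound (enc_sub (V.k2.enc E) (enc_abs h3)) hs
      have := abs_nonneg px
      rw [abs_zero]
      constructor <;> linarith)
  rw [neg_zero, sub_self] at efl
  have hfl' := enc_norm hfl
  have z0 := H.zro rfl
  refine ⟨_, _, _, _, enc_sub (enc_sub h5 (enc_mul h6 hk)) (enc_mul hT (enc_norm (enc_add
    (enc_mul (enc_norm hdk) hdz) (enc_mul (V.k0.enc hx) hz)))),
    enc_add (enc_mul hfl' hdz) (enc_mul (V.m0.enc hx) hz), ?_, ?_, h⟩
  · rw [eK]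
    simp only [jq]
    push_cast
    linear_combination ((Y - 1) * dk - (Y - 1) * V.k0.v x) * hNz + (1 - (Y - 1) * dk) * g1 -
      κ0 * g2 - hκ + (Y - 1) * ek - (Y - 1) * z0
  · rw [eL]
    simp only [Ty.la, Ty.lb]
    linear_combination efl + (V.m0.v x - fl) * hNz + fl * g1

theorem thiT_sound (hD : D.Ok x) (hx : Enc E x' x) (hX : Enc E X' X) (hY : Enc E Y' Y) {q' : ℕ}
    (hq : Enc E q' (qqn X Y)) (hT : Enc E T' (Y - jq q)) (h3 : Enc E px' px) (h4 : Enc E py' py)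
    (hk : Enc E k' κ0) (h5 : Enc E dx' dx) (h6 : Enc E dy' dy) (H : UH D U S V q x X Y KU LU)
    (hp : qqn px py = 1) (hp1 : 1 ≤ py) (hκ : (py - 1) * κ0 = px)
    (g1 : U.px X Y = px + N * U.px dx dy) (g2 : U.py X Y = py + N * U.py dx dy)
    (g3 : qqn X Y - U.nq = 3 / 16 * sN U * N) {h : ℕ}
    (ht : thiT D U S V h q q' X' Y' T' px' py' k' dx' dy' x' fin = true) :
    ThR E D U q x Y px κ0 N KU LU fin := by
  by_cases hU : U = .u2
  · subst hU
    have hq2 : q = 2 := H.inq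
    subst hq2
    have hT' : Enc E T' (Y - 1) := enc_cast hT (by simp only [jq]; push_cast; ring)
    have e1 : X = px + N * dx := g1
    have e2 : Y = py + N * dy := g2
    have e3 : qqn X Y - 1 = 3 / 16 * N := by
      have : sN .u2 = 1 := by simp only [sN, Ty.nq]; norm_num
      rw [this] at g3
      simpa [Ty.nq] using g3
    have can : ∀ b, canT D .u2 b S 2 X' Y' T' px' py' k' dx' dy' x' fin = true →
        ThR E D .u2 2 x Y px κ0 N KU LU fin := fun b h' =>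
      canT_sound hD hx hX hY hT h3 h4 hk h5 h6 H (fun h => absurd rfl h) hp hp1 hκ g1 g2 g3 h'
    match h, ht with
    | 0, ht => exact can true ht
    | 1, ht => exact can false ht
    | 2, ht => exact vf_sound hD hx hX hY hT' h3 h4 hk h5 h6 H hp hp1 hκ e1 e2 ht
    | 3, ht => exact vl_sound hD hx hX hY hT' h3 h4 hk h5 h6 H hp hp1 hκ e1 e2 e3 ht
    | 4, ht => exact vl_sound hD hx hX hY hT' h3 h4 hk h5 h6 H hp hp1 hκ e1 e2 e3 ht
    | 5, ht => exact va_sound hD hx hX hY hT' h3 h4 hk h5 h6 H hp hp1 hκ e1 e2 e3 ht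
    | 6, ht => exact vd_sound hD hx hX hY hq hT' h3 h4 hk h5 h6 H hp hp1 hκ e1 e2 e3 ht
    | 7, ht => exact vm_sound hD hx hX hY hT' h3 h4 hk h5 h6 H hp hp1 hκ e1 e2 e3 ht
    | 8, ht => exact vm_sound hD hx hX hY hT' h3 h4 hk h5 h6 H hp hp1 hκ e1 e2 e3 ht
    | _ + 9, ht => exact vz_sound hD hx hX hY hq hT' h3 h4 hk h5 h6 H hp hp1 hκ e1 e2 e3 ht
  · have e : canT D U (bT U) S q X' Y' T' px' py' k' dx' dy' x' fin = true := by
      cases U
      · exact ht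
      · exact absurd rfl hU
      all_goals exact ht
    exact canT_sound hD hx hX hY hT h3 h4 hk h5 h6 H (fun _ => rfl) hp hp1 hκ g1 g2 g3 e

end

/-! ### The final test -/

theorem con_rel {a b c : ℕ} {cn : Con} (h : con a b c = some cn) {y z : ℝ} (hy : InQ a y)
    (hz : InQ b z) (hw : InQ c (y + z)) : cn.rel (y - jq a) (z - jq b) (y + z - jq c) := by
  unfold con at h
  split at h
  all_goals first
    | (obtain rfl := Option.some.inj h
       obtain ⟨a1, a2⟩ := hy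
       obtain ⟨b1, b2⟩ := hz
       obtain ⟨c1, c2⟩ := hw
       simp only [Con.rel, jq]
       push_cast
       first
         | ring1
         | (refine ⟨?_, ?_, ?_⟩ <;> linarith))
    | exact absurd h (by simp)

theorem enc_dc0 (E : Pt) : Enc E (pdc 0 0) 0 := enc_dc0' E

theorem fiT_sound {E : Pt} {kh : Kh} {fam : Bool} {cn : Con} {a b c g x' y' z' t' e' rn' ln' rU' lU' : ℕ}
    {x y z e rn ln rU lU : ℝ} (hc : con a b c = some cn) (hx : Enc E x' x) (hy : Enc E y' y)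
    (hz : Enc E z' z) (ht : Enc E t' (y + z)) (he : Enc E e' e) (h1 : Enc E rn' rn)
    (h2 : Enc E ln' ln) (h3 : Enc E rU' rU) (h4 : Enc E lU' lU)
    (h : fiT kh fam cn a b c g x' y' z' t' e' rn' ln' rU' lU' = true) :
    0 ≤ slc cn (e - |ln - lU| / 2) (kh.v x) x (y - jq a) (z - jq b) (y + z - jq c) 0
      (cond fam rn rU) (cond fam rU rn) (gar g) := by
  unfold fiT at h
  simp only [frc_eq] at h
  obtain ⟨c1, c2⟩ := band_true h
  have n0 : Enc E (pdc 0 0) (-0) := enc_cast (enc_dc0 E) neg_zero.symm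
  have hP := enc_rowPhi cn (kh.enc hx) hx (enc_dj (jq a) hy) (enc_neg (enc_dj (jq a) hy))
    (enc_dj (jq b) hz) (enc_neg (enc_dj (jq b) hz)) (enc_dj (jq c) ht)
    (enc_neg (enc_dj (jq c) ht)) (enc_dc0 E) n0 (enc_sl fam h1 h3)
    (enc_neg (enc_sl fam h1 h3)) (enc_sl fam h3 h1) (enc_neg (enc_sl fam h3 h1)) (enc_pga E g)
    (con_ok hc y z) e
  have hF := enc_sub he hP
  have hL := enc_half (enc_sub h2 h4)
  have k1 := ppos_sound (enc_sub hF hL) c1
  have k2 := ppos_sound (enc_add hF hL) c2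
  have e1 : e - |ln - lU| / 2 = e + -(|ln - lU| / 2) := by ring
  rw [e1, slc_add]
  rcases abs_cases (ln - lU) with ⟨e2, -⟩ | ⟨e2, -⟩ <;> rw [e2] <;> linarith

/-- What is known about a node of type `t` in the quarter `q`. -/
structure NH (D : SDat) (t : Ty) (q : ℕ) (x X y K L : ℝ) : Prop where
  inq : t.inq q
  iny : InQ q y
  len : qqn X y = t.nq
  sgn : t ≠ .u2 → X = t.sx * |X|
  tK : TightK t q (fun p => D.kf.v p x) X y K
  tL : TightL t (fun p c => D.TX.val D.kf.v p c x) X y L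

theorem NH.ge {D : SDat} {t : Ty} {q : ℕ} {x X y K L : ℝ} (h : NH D t q x X y K L) :
    1 ≤ t.py X y ∧ qqn (t.px X y) (t.py X y) = 1 ∧ Gt t q |X| y * (t.py X y - 1) = y - jq q := by
  have e := Ty.py_sg (y := y) h.sgn
  have hl : qqn |X| y = t.nq := by
    rw [← h.len]
    unfold qqn
    rw [sq_abs]
  refine ⟨?_, Ty.p_unit h.len, ?_⟩
  · rw [e]
    exact Ty.py_ge h.inq h.iny (abs_nonneg X) hl
  · rw [e]
    exact Gt_mul h.inq h.iny (abs_nonneg X) hl

theorem enc_esuT {E : Pt} {m n U : Ty} {fam : Bool} (hI : okI fam m n U = true) {q' E1' : ℕ}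
    {q E1 : ℝ} (hq : Enc E q' q) (hE : Enc E E1' E1) : Enc E (esuT m n U q' E1') (est m n U q E1) := by
  have hs : ((Nat.sub (Nat.mul 2 (Nat.add (nT m) (nT n))) (nT U) : ℕ) : ℝ) =
      2 * (m.nq + n.nq) - U.nq := by
    refine okI_cases hI ?_ ?_ ?_ ?_ ?_ ?_ ?_ ?_ ?_ ?_ <;>
    · rintro rfl rfl rfl rfl
      simp only [nT, uT, Ty.nq]
      norm_num
  have hN := enc_pnc E (Nat.sub (Nat.mul 2 (Nat.add (nT m) (nT n))) (nT U))
  rw [hs] at hN
  refine enc_cast (enc_mul (enc_norm (enc_scale 1 64 (enc_sl (uT U) (enc_sub hN hq)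
    (enc_sub hq hN)))) hE) ?_
  unfold est
  rcases uT_iff U with ⟨e1, e2, e3⟩ | ⟨e1, e2, e3⟩ <;> rw [e1, e3] <;>
    simp only [cond_true, cond_false] <;> ring

section

variable {E : Pt} {D : SDat} {fam : Bool} {m n U : Ty} {S : Sg} {V : Vt} {cn : Con}
  {a b c i x' A' B' X1' X2' X' Y' : ℕ} {x y1 y2 x1 x2 X Y Km Lm Kn Ln KU LU ex : ℝ}

theorem stpT_sound (hD : D.Ok x) (hI : okI fam m n U = true) (hc : con a b c = some cn)
    (hx : Enc E x' x) (hA : Enc E A' y1) (hB : Enc E B' y2) (hX1 : Enc E X1' x1)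
    (hX2 : Enc E X2' x2) (hX : Enc E X' X) (hY : Enc E Y' Y) (eX : X = x2 + eps fam * x1)
    (eY : Y = y2 + eps fam * y1) (hex : ex = (x1 * y2 - x2 * y1) / 2 - 1 / 2)
    (Hm : NH D m a x x1 y1 Km Lm) (Hn : NH D n (cond fam b c) x x2 y2 Kn Ln)
    (HU : UH D U S V (cond fam c b) x X Y KU LU) (q1 : 1 ≤ qqn X Y) (q3 : qqn X Y ≤ 3)
    (h : stpT D fam m n U cn a b c S V i x' A' B' X1' X2' X' Y' = true) :
    ∃ γ, 0 ≤ slc cn (levF ex Lm (cond fam Ln LU) (cond fam LU Ln)) (D.kh.v x) x (y1 - jq a)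
      (cond fam y2 Y - jq b) (y1 + cond fam y2 Y - jq c) Km (cond fam Kn KU) (cond fam KU Kn)
      γ := by
  unfold stpT at h
  simp only [frc_eq] at h
  obtain ⟨c1, h⟩ := band_true h
  obtain ⟨c2, h⟩ := band_true h
  have hexE : Enc E (psub (phf (psub (pmul X1' B') (pmul X2' A'))) (phn 1)) ex := by
    refine enc_cast (enc_sub (enc_half (enc_sub (enc_mul hX1 hB) (enc_mul hX2 hA)))
      (enc_phn E 1)) ?_
    rw [hex]
    push_cast
    ring
  have hpx := enc_norm (enc_pxT m hX1 hA)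
  have hpy := enc_norm (enc_pyT m hX1 hA)
  have a1 := ppos_sound (enc_add (enc_one E) hexE) c1
  have a2 := ppos_sound (enc_sub hpy (enc_one E)) c2
  obtain ⟨m1, m2, m3⟩ := Hm.ge
  obtain ⟨n1, n2, n3⟩ := Hn.ge
  set px := m.px x1 y1 with hpxd
  set py := m.py x1 y1 with hpyd
  have hE1 := enc_inv (enc_add (enc_one E) hexE)
  have hk := enc_mul hpx (enc_inv (enc_sub hpy (enc_one E)))
  set κ0 := px * (py - 1)⁻¹ with hκd
  have hκ : (py - 1) * κ0 = px := by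
    rw [hκd]
    have := inv_mul_cancel₀ a2.ne'
    linear_combination px * this
  have hn0x := enc_ixT n hpx hpy
  have hn0y := enc_iyT n hpx hpy
  obtain ⟨k1, k2⟩ := disp_strip (q := qqn X Y) (x0 := n.ix px py) (y0 := n.iy px py) hI Hm.len
    Hn.len hex a1.ne' (by rw [eX, eY]) rfl rfl
  set N := Nst U (qqn X Y) with hNd
  have hN0 : 0 ≤ N := Nst_nonneg q1 q3
  set dx := Dx fam U y2 (n.iy px py) (1 + ex)⁻¹ with hdxd
  set dy := Dy fam U x2 (n.ix px py) (1 + ex)⁻¹ with hdyd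
  have h5 : Enc E (pnorm (sg (cond (uT U) fam (!fam)) (pmul (pscale 3 64 (padd B'
      (iyT n (pnorm (pxT m X1' A')) (pnorm (pyT m X1' A'))))) (pinv (padd pone
      (psub (phf (psub (pmul X1' B') (pmul X2' A'))) (phn 1))))))) dx := by
    refine enc_norm (enc_cast (enc_sg _ (enc_mul (enc_scale 3 64 (enc_add hB hn0y)) hE1)) ?_)
    rw [hdxd]
    unfold Dx
    rcases uT_iff U with ⟨e1, -, e3⟩ | ⟨e1, -, e3⟩ <;> rw [e1, e3] <;> cases fam <;>
      simp [sgr, eps]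
  have h6 : Enc E (pnorm (sg (cond (uT U) (!fam) fam) (pmul (pscale 1 16 (padd X2'
      (ixT n (pnorm (pxT m X1' A')) (pnorm (pyT m X1' A'))))) (pinv (padd pone
      (psub (phf (psub (pmul X1' B') (pmul X2' A'))) (phn 1))))))) dy := by
    refine enc_norm (enc_cast (enc_sg _ (enc_mul (enc_scale 1 16 (enc_add hX2 hn0x)) hE1)) ?_)
    rw [hdyd]
    unfold Dy
    rcases uT_iff U with ⟨e1, -, e3⟩ | ⟨e1, -, e3⟩ <;> rw [e1, e3] <;> cases fam <;>
      simp [sgr, eps]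
  have hq := enc_qqT hX hY
  -- the second node
  have u1 : n.px x2 y2 = px + N * n.px dx dy := by
    conv_lhs => rw [k1, k2]
    rw [Ty.px_add, Ty.px_ix]
  have u2 : n.py x2 y2 = py + N * n.py dx dy := by
    conv_lhs => rw [k1, k2]
    rw [Ty.py_add, Ty.py_iy]
  have v1 : U.px X Y = px + N * U.px dx dy := by
    have e1 : X = U.ix px py + N * dx := by
      rw [eX, inst_x hI, k1, hpxd, hpyd, Ty.ix_px]
      ring
    have e2 : Y = U.iy px py + N * dy := by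
      rw [eY, inst_y hI, k2, hpxd, hpyd, Ty.iy_py]
      ring
    rw [e1, e2, Ty.px_add, Ty.px_ix]
  have v2 : U.py X Y = py + N * U.py dx dy := by
    have e1 : X = U.ix px py + N * dx := by
      rw [eX, inst_x hI, k1, hpxd, hpyd, Ty.ix_px]
      ring
    have e2 : Y = U.iy px py + N * dy := by
      rw [eY, inst_y hI, k2, hpxd, hpyd, Ty.iy_py]
      ring
    rw [e1, e2, Ty.py_add, Ty.py_iy]
  have v3 : qqn X Y - U.nq = 3 / 16 * sN U * N := by
    rw [hNd]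
    unfold Nst
    linear_combination (-(qqn X Y - U.nq)) * sN_sq U
  have w1 := enc_norm (enc_pxT n hX2 hB)
  have w2 := enc_norm (enc_pyT n hX2 hB)
  have w3 := enc_norm (enc_pxT n h5 h6)
  have w4 := enc_norm (enc_pyT n h5 h6)
  have hnt : Enc E (dj (jq (cond fam b c)) B') (y2 - jq (cond fam b c)) := enc_dj _ hB
  have ht : Enc E (dj (jq (cond fam c b)) Y') (Y - jq (cond fam c b)) := enc_dj _ hY
  obtain ⟨p0, -, -⟩ := unit_cT m2 m1
  obtain ⟨p0', -, -⟩ := unit_cT n2 n1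
  obtain ⟨dk, hdk, ek⟩ := kcd_sound hx D.KC hD.kok (enc_neg w1) (enc_neg hpx) (enc_neg w3)
    (μ := N) (by rw [u1]; ring)
  rw [← hD.kf _ (by rwa [abs_neg]), ← hD.kf _ (by rwa [abs_neg])] at ek
  have hrn := enc_norm (enc_rcT Hn.inq (enc_abs hX2) hB (enc_norm (enc_sub w3 (enc_mul w4 hk)))
    hnt (enc_norm hdk))
  obtain ⟨en, hen, eln⟩ := lvT_sound hD hx n w1 w2 hpx hpy w3 w4 n2 n1 m2 m1
    (N := N) (by rw [u1]; ring) (by rw [u2]; ring)
  obtain ⟨R, L, r, l, hR, hL, eR, eL, hf⟩ := thiT_sound hD hx hX hY hq ht hpx hpy hk h5 h6 HU m2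
    m1 hκ v1 v2 v3 h
  -- the rows
  have G1 : Gt n (cond fam b c) |x2| y2 * (py + N * n.py dx dy - 1) = y2 - jq (cond fam b c) := by
    rw [← u2]
    exact n3
  have rown := row_val (δx := n.px dx dy) G1 hκ ek
  have eKn : Kn = (y2 - jq (cond fam b c)) * (κ0 + D.kf.v (-px) x) +
      N * (Gt n (cond fam b c) |x2| y2 * (n.px dx dy - n.py dx dy * κ0) +
        (y2 - jq (cond fam b c)) * dk) := by
    have := Hn.tK
    unfold TightK at this
    rw [this, ← rown, u1]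
  have eKm : Km = (y1 - jq a) * (κ0 + D.kf.v (-px) x) + N * 0 := by
    have := Hm.tK
    unfold TightK at this
    rw [this, ← hpxd]
    linear_combination κ0 * m3 - Gt m a |x1| y1 * hκ
  have eLm := Hm.tL.tF m2 m1
  have eLn := Hn.tL.tF n2 n1
  rw [← hpxd] at eLm
  have eest := excess_strip (q := qqn X Y) hI Hm.len Hn.len hex a1.ne' (by rw [eX, eY])
  rw [← hNd] at eest
  have hest := enc_esuT hI hq hE1
  have hzz : Enc E (sl fam B' Y') (cond fam y2 Y) := enc_sl fam hB hY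
  have hla := inst_la hI
  have hlb := inst_lb hI
  cases fam
  · simp only [cond_false, eps] at *
    have eYt : y1 + Y = y2 := by rw [eY]; ring
    have htt : Enc E B' (y1 + Y) := enc_cast hB eYt.symm
    have hfi := fiT_sound hc hx hA hzz htt hest hrn hen (enc_norm hR) hL hf
    simp only [cond_false] at hfi
    rw [abs_sub_comm en l] at hfi
    refine ⟨_, far_strip hN0 (con_rel hc Hm.iny HU.iny (by rw [eYt]; exact Hn.iny)) eest eKm eR
      ?_ (L := l - en) ?_ hfi⟩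
    · rw [eYt]
      exact eKn
    · rw [eLm, eL, eLn, hla, hlb]
      linear_combination -eln
  · simp only [cond_true, eps] at *
    have eYt : y1 + y2 = Y := by rw [eY]; ring
    have htt : Enc E Y' (y1 + y2) := enc_cast hY eYt.symm
    have hfi := fiT_sound hc hx hA hzz htt hest hrn hen (enc_norm hR) hL hf
    simp only [cond_true] at hfi
    refine ⟨_, far_strip hN0 (con_rel hc Hm.iny Hn.iny (by rw [eYt]; exact HU.iny)) eest eKm eKn
      ?_ (L := en - l) ?_ hfi⟩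
    · rw [eYt]
      exact eR
    · rw [eLm, eL, eLn, hla, hlb]
      linear_combination eln

end

end Pool.Agent.Strip051.PB
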