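import Pool.Agent.Strip051.PB.Cuts

/-! # Unit strips: difference quotients of piecewise functions in the packed arithmetic

`DT` is a binary search tree of a piecewise function of `ψ` with values in `x`: on each piece the
function is affine or quadratic in `ψ`, or it is the closed form of the level function. For the
function `f` on the curve `c = cT ψ` the functions `kcd`, `txd` enclose a number `d` with
`f a - f b = μ d` if `a - b = μ D`. If a knot is not separated from `a` and `b`, the quotient is the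
one of the piece on the side of the middle of `a` and `b`, plus a part of the quotient of the
difference of the two pieces on the other side of the knot. -/

namespace Pool.Agent.Strip051.PB

attribute [local irreducible] padd psub pneg pmul psq pinv psqrt psqrtg pabs pps pmax pmin pphi plam
  pcase phf pnat prat pscale pnorm pdc pnc pone ppos pnn Enc

/-- a number between `0` and `1` -/
def pu01 : ℕ := 0x40000000000000000000000000000000000000000000000000000000000000000040000001000000000000000020000001000000000000000020000001000000000000000000000000000000000000000000000000000000000000000000000000000000000000000000000000000000000000000000000000000000000000000000000000000000000000000000000000000000000000000000000000000000000000000000000000000000000000000000000000000000000000000000000000000000000000000020000000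

theorem enc_u01 (E : Pt) {t : ℝ} (h0 : 0 ≤ t) (h1 : t ≤ 1) : Enc E pu01 t := enc_fls h0 h1

/-- A constant with its form. -/
structure Cn where
  t : ℕ
  v : ℝ
  enc : ∀ E : Pt, Enc E t v

/-- Trees: `lin s v` is `s(x) ψ + v(x)`, `quad w s v` is `w(x) ψ² + s(x) ψ + v(x)`, `clo` the closed
form of the level, `node k l r` is `l` up to the knot `k` and `r` above. -/
inductive DT where
  | lin (s v : Fn1)
  | quad (w s v : Fn1)
  | clo
  | node (k : Cn) (l r : DT)

/-! ### Real side -/

/-- the abscissa `c` on the curve -/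
noncomputable def cT (p : ℝ) : ℝ := Real.sqrt (3 / 4 * (1 - p ^ 2)) - p / 2

/-- the closed form of the level -/
noncomputable def cloR (kp p c x : ℝ) : ℝ :=
  (1 - c) * (2 * c - 1) - 2 * ((4 / 3 * (p + c / 2) - x) * (4 / 3 * (p + c / 2) / 2 + c - 1) * kp)

/-- the value of the level function, `kc` is the kernel correction -/
noncomputable def DT.val (kc : ℝ → ℝ → ℝ) : DT → ℝ → ℝ → ℝ → ℝ
  | .lin s v, p, _, x => s.v x * p + v.v x
  | .quad w s v, p, _, x => w.v x * p ^ 2 + s.v x * p + v.v x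
  | .clo, p, c, x => cloR (kc p x) p c x
  | .node k l r, p, c, x => if p ≤ k.v then l.val kc p c x else r.val kc p c x

/-- the pieces fit at the knots, which are between `-1/2` and `1/2` -/
def DT.Ok (kc : ℝ → ℝ → ℝ) (x : ℝ) : DT → Prop
  | .lin _ _ => True
  | .quad _ _ _ => True
  | .clo => True
  | .node k l r => |k.v| ≤ 1 / 2 ∧ l.val kc k.v (cT k.v) x = r.val kc k.v (cT k.v) x ∧
      l.Ok kc x ∧ r.Ok kc x

/-- the value of the kernel correction -/
noncomputable def DT.kv : DT → ℝ → ℝ → ℝ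
  | .lin s v, p, x => s.v x * p + v.v x
  | .quad w s v, p, x => w.v x * p ^ 2 + s.v x * p + v.v x
  | .clo, _, _ => 0
  | .node k l r, p, x => if p ≤ k.v then l.kv p x else r.kv p x

/-- the pieces fit at the knots -/
def DT.KOk (x : ℝ) : DT → Prop
  | .lin _ _ => True
  | .quad _ _ _ => True
  | .clo => True
  | .node k l r => l.kv k.v x = r.kv k.v x ∧ l.KOk x ∧ r.KOk x

theorem cT_sq {p : ℝ} (h : |p| ≤ 1 / 2) : (cT p + p / 2) ^ 2 = 3 / 4 * (1 - p ^ 2) ∧
    3 / 4 ≤ cT p + p / 2 := by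
  obtain ⟨h1, h2⟩ := abs_le.1 h
  have e : cT p + p / 2 = Real.sqrt (3 / 4 * (1 - p ^ 2)) := by unfold cT; ring
  rw [e]
  refine ⟨Real.sq_sqrt (by nlinarith), ?_⟩
  apply Real.le_sqrt_of_sq_le
  nlinarith

/-- slope of the curve between two points -/
noncomputable def cdR (a b ca cb : ℝ) : ℝ :=
  -(1 / 2 + 3 / 4 * (a + b) * (ca + cb + (a + b) / 2)⁻¹)

theorem cdR_mul {a b : ℝ} (ha : |a| ≤ 1 / 2) (hb : |b| ≤ 1 / 2) :
    cT a - cT b = (a - b) * cdR a b (cT a) (cT b) := by
  obtain ⟨a1, a2⟩ := cT_sq ha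
  obtain ⟨b1, b2⟩ := cT_sq hb
  have hne : cT a + cT b + (a + b) / 2 ≠ 0 := by
    have : cT a + cT b + (a + b) / 2 = (cT a + a / 2) + (cT b + b / 2) := by ring
    rw [this]
    positivity
  have hi := inv_mul_cancel₀ hne
  unfold cdR
  have key : (cT a - cT b + (a - b) / 2) * (cT a + cT b + (a + b) / 2) =
      -(3 / 4 * (a - b) * (a + b)) := by
    linear_combination a1 - b1
  have : cT a - cT b + (a - b) / 2 =
      -(3 / 4 * (a - b) * (a + b)) * (cT a + cT b + (a + b) / 2)⁻¹ := by
    rw [← key]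
    linear_combination (-(cT a - cT b + (a - b) / 2)) * hi
  linear_combination this

theorem cT_anti {a b : ℝ} (ha : |a| ≤ 1 / 2) (hb : |b| ≤ 1 / 2) (h : a ≤ b) : cT b ≤ cT a := by
  have e := cdR_mul ha hb
  obtain ⟨-, a2⟩ := cT_sq ha
  obtain ⟨-, b2⟩ := cT_sq hb
  obtain ⟨h1, h2⟩ := abs_le.1 ha
  obtain ⟨h3, h4⟩ := abs_le.1 hb
  have hs : 3 / 2 ≤ cT a + cT b + (a + b) / 2 := by linarith
  have hd : cdR a b (cT a) (cT b) ≤ 0 := by
    unfold cdR
    have hi : (cT a + cT b + (a + b) / 2)⁻¹ ≤ 2 / 3 := by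
      rw [inv_le_comm₀ (by linarith) (by norm_num)]
      norm_num
      exact hs
    have hp : 0 < (cT a + cT b + (a + b) / 2)⁻¹ := inv_pos.2 (by linarith)
    rcases le_total 0 (a + b) with h5 | h5
    · have : 0 ≤ 3 / 4 * (a + b) * (cT a + cT b + (a + b) / 2)⁻¹ := by positivity
      linarith
    · have : -(1 / 2) ≤ 3 / 4 * (a + b) * (cT a + cT b + (a + b) / 2)⁻¹ := by nlinarith
      linarith
  nlinarith

/-- the quotient, between `0` and `1` -/
noncomputable def lamR (n d : ℝ) : ℝ := min (max (n * d⁻¹) 0) 1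

theorem lamR_mul {n d : ℝ} (h1 : 0 ≤ d → 0 ≤ n ∧ n ≤ d) (h2 : d ≤ 0 → d ≤ n ∧ n ≤ 0) :
    lamR n d * d = n := by
  unfold lamR
  rcases lt_trichotomy d 0 with h | h | h
  · obtain ⟨h3, h4⟩ := h2 h.le
    rw [max_eq_left, min_eq_left]
    · exact inv_mul_cancel_right₀ h.ne n
    · rw [← div_eq_mul_inv, div_le_one_of_neg h]
      exact h3
    · rw [← div_eq_mul_inv]
      exact div_nonneg_of_nonpos h4 h.le
  · obtain ⟨h3, h4⟩ := h1 h.ge
    rw [h] at h4 ⊢
    rw [mul_zero]
    exact le_antisymm h3 h4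
  · obtain ⟨h3, h4⟩ := h1 h.le
    rw [max_eq_left, min_eq_left]
    · exact inv_mul_cancel_right₀ h.ne' n
    · rw [← div_eq_mul_inv, div_le_one h]
      exact h4
    · rw [← div_eq_mul_inv]
      exact div_nonneg h3 h.le

theorem lamR_neg (n d : ℝ) : lamR (-n) (-d) = lamR n d := by
  unfold lamR
  rw [inv_neg, neg_mul_neg]

/-- the part of the distance of `a` and `b` above a knot -/
theorem lamR_max (a b k : ℝ) : lamR (max a k - max b k) (a - b) * (a - b) = max a k - max b k := by
  refine lamR_mul (fun h => ?_) (fun h => ?_)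
  · rcases max_cases a k with ⟨e1, h1⟩ | ⟨e1, h1⟩ <;> rcases max_cases b k with ⟨e2, h2⟩ | ⟨e2, h2⟩ <;>
      rw [e1, e2] <;> constructor <;> linarith
  · rcases max_cases a k with ⟨e1, h1⟩ | ⟨e1, h1⟩ <;> rcases max_cases b k with ⟨e2, h2⟩ | ⟨e2, h2⟩ <;>
      rw [e1, e2] <;> constructor <;> linarith

/-- the part of the distance of `a` and `b` below a knot -/
theorem lamR_min (a b k : ℝ) : lamR (min a k - min b k) (a - b) * (a - b) = min a k - min b k := by
  refine lamR_mul (fun h => ?_) (fun h => ?_)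
  · rcases min_cases a k with ⟨e1, h1⟩ | ⟨e1, h1⟩ <;> rcases min_cases b k with ⟨e2, h2⟩ | ⟨e2, h2⟩ <;>
      rw [e1, e2] <;> constructor <;> linarith
  · rcases min_cases a k with ⟨e1, h1⟩ | ⟨e1, h1⟩ <;> rcases min_cases b k with ⟨e2, h2⟩ | ⟨e2, h2⟩ <;>
      rw [e1, e2] <;> constructor <;> linarith

/-- a piecewise function is the left piece and the difference of the pieces above the knot -/
theorem knot_left {f l r : ℝ → ℝ} {k : ℝ} (hf : ∀ p, f p = if p ≤ k then l p else r p)
    (hk : l k = r k) (a : ℝ) : f a = l a + (r (max a k) - l (max a k)) := by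
  rw [hf]
  split
  · rename_i h
    rw [max_eq_right h, hk]
    ring
  · rename_i h
    rw [max_eq_left (not_le.1 h).le]
    ring

/-- a piecewise function is the right piece and the difference of the pieces below the knot -/
theorem knot_right {f l r : ℝ → ℝ} {k : ℝ} (hf : ∀ p, f p = if p ≤ k then l p else r p)
    (hk : l k = r k) (a : ℝ) : f a = r a + (l (min a k) - r (min a k)) := by
  rw [hf]
  split
  · rename_i h
    rw [min_eq_left h]
    ring
  · rename_i h
    rw [min_eq_right (not_le.1 h).le, hk]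
    ring

/-! ### Packed side -/

/-- choice by a Boolean -/
def sel2 (b : Bool) (L R : ℕ) : ℕ := Bool.rec (motive := fun _ => ℕ) L R b

theorem sel2_enc {E : Pt} {b : Bool} {L R : ℕ} {v : ℝ} (hL : Enc E L v) (hR : Enc E R v) :
    Enc E (sel2 b L R) v := by
  cases b
  · exact hL
  · exact hR

/-- the form of `lamR`, `A1`, `B1` are the parts of `A`, `B` on one side of a knot -/
noncomputable def thT (A B A1 B1 : ℕ) : ℕ :=
  sel2 (ppos (psub A B)) (plam (psub B1 A1) (pneg (psub A B))) (plam (psub A1 B1) (psub A B))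

theorem enc_thT {E : Pt} {A B A1 B1 : ℕ} {a b a1 b1 : ℝ} (hA : Enc E A a) (hB : Enc E B b)
    (hA1 : Enc E A1 a1) (hB1 : Enc E B1 b1) : Enc E (thT A B A1 B1) (lamR (a1 - b1) (a - b)) := by
  have h1 : Enc E (plam (psub A1 B1) (psub A B)) (lamR (a1 - b1) (a - b)) :=
    enc_lam (enc_sub hA1 hB1) (enc_sub hA hB)
  have e : lamR (b1 - a1) (-(a - b)) = lamR (a1 - b1) (a - b) := by
    rw [← lamR_neg, neg_neg, neg_sub]
  have h2 : Enc E (plam (psub B1 A1) (pneg (psub A B))) (lamR (a1 - b1) (a - b)) :=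
    enc_cast (enc_lam (enc_sub hB1 hA1) (enc_neg (enc_sub hA hB))) e
  exact sel2_enc h2 h1

/-- quotient `P0` of one piece, plus the part `θ` of the difference of the quotients `Q1`, `P1` -/
noncomputable def pbse (θ D P0 Q1 P1 : ℕ) : ℕ :=
  padd P0 (pmul (pmul θ D) (pnorm (psub Q1 P1)))

/-- choice by three Booleans -/
def sel4 (b1 b2 b3 : Bool) (L R M N : ℕ) : ℕ :=
  Bool.rec (motive := fun _ => ℕ) (Bool.rec (motive := fun _ => ℕ)
    (Bool.rec (motive := fun _ => ℕ) N M b3) R b2) L b1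

theorem sel4_cases {b1 b2 b3 : Bool} {L R M N : ℕ} {P : ℕ → Prop} (h1 : b1 = true → P L)
    (h2 : b2 = true → P R) (hM : P M) (hN : P N) : P (sel4 b1 b2 b3 L R M N) := by
  cases b1
  · cases b2
    · cases b3
      · exact hN
      · exact hM
    · exact h2 rfl
  · exact h1 rfl

/-- choice by the sides of a knot, `A` and `B` are the distances of the points from the knot; `M` if
the middle of the points is on the left -/
noncomputable def br4 (A B L R M N : ℕ) : ℕ :=
  sel4 (band (pnn (pneg A)) (pnn (pneg B))) (band (ppos A) (ppos B)) (pnn (pneg (padd A B))) L R M N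

theorem br4_cases {E : Pt} {A B L R M N : ℕ} {a b : ℝ} (hA : Enc E A a) (hB : Enc E B b)
    {P : ℕ → Prop} (hL : a ≤ 0 → b ≤ 0 → P L) (hR : 0 < a → 0 < b → P R) (hM : P M) (hN : P N) :
    P (br4 A B L R M N) := by
  refine sel4_cases (fun h => ?_) (fun h => ?_) hM hN
  · obtain ⟨h1, h2⟩ := band_true h
    have h3 := pnn_sound (enc_neg hA) h1
    have h4 := pnn_sound (enc_neg hB) h2
    exact hL (by linarith) (by linarith)
  · obtain ⟨h1, h2⟩ := band_true h
    exact hR (ppos_sound hA h1) (ppos_sound hB h2)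

/-- three quarters -/
noncomputable def t34 (X : ℕ) : ℕ := pscale 3 4 X

noncomputable def t43 (X : ℕ) : ℕ := pscale 4 3 X

theorem enc_t34 {E : Pt} {X : ℕ} {v : ℝ} (h : Enc E X v) : Enc E (t34 X) (3 / 4 * v) :=
  enc_cast (enc_scale 3 4 h) (by norm_num)

theorem enc_t43 {E : Pt} {X : ℕ} {v : ℝ} (h : Enc E X v) : Enc E (t43 X) (4 / 3 * v) :=
  enc_cast (enc_scale 4 3 h) (by norm_num)

/-- the abscissa on the curve -/
noncomputable def csT (P : ℕ) : ℕ := psub (psqrt (t34 (psub pone (psq P)))) (phf P)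

theorem enc_csT {E : Pt} {P : ℕ} {p : ℝ} (h : Enc E P p) : Enc E (csT P) (cT p) :=
  enc_sub (enc_sqrt (enc_t34 (enc_sub (enc_one E) (enc_sq h)))) (enc_half h)

/-- difference of the kernel correction, divided -/
noncomputable def kcd (T : DT) : ℕ → ℕ → ℕ → ℕ → ℕ :=
  DT.rec (motive := fun _ => ℕ → ℕ → ℕ → ℕ → ℕ) (fun s _ _ _ D X => pmul (s.t X) D)
    (fun w s _ A B D X => pmul (pnorm (padd (pmul (w.t X) (padd A B)) (s.t X))) D)
    (fun _ _ _ _ => pbad)
    (fun k _ _ il ir A B D X => br4 (psub A k.t) (psub B k.t) (il A B D X) (ir A B D X)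
      ((fun A1 B1 => pbse (thT A B A1 B1) D (il A B D X) (ir A1 B1 pone X) (il A1 B1 pone X))
        (pmax A k.t) (pmax B k.t))
      ((fun A1 B1 => pbse (thT A B A1 B1) D (ir A B D X) (il A1 B1 pone X) (ir A1 B1 pone X))
        (pmin A k.t) (pmin B k.t))) T

theorem enc_pbse {E : Pt} {T D P0 Q1 P1 : ℕ} {θ d p0 q1 p1 : ℝ} (hT : Enc E T θ) (hD : Enc E D d)
    (h0 : Enc E P0 p0) (hQ : Enc E Q1 q1) (hP : Enc E P1 p1) :
    Enc E (pbse T D P0 Q1 P1) (p0 + θ * d * (q1 - p1)) :=
  enc_add h0 (enc_mul (enc_mul hT hD) (enc_norm (enc_sub hQ hP)))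

theorem kcd_sound {E : Pt} {x : ℝ} {X : ℕ} (hX : Enc E X x) (T : DT) : T.KOk x →
    ∀ {A B D : ℕ} {a b d μ : ℝ}, Enc E A a → Enc E B b → Enc E D d → a - b = μ * d →
      ∃ e, Enc E (kcd T A B D X) e ∧ T.kv a x - T.kv b x = μ * e := by
  induction T with
  | lin s v =>
    intro _ A B D a b d μ _ _ hD h
    refine ⟨_, enc_mul (s.enc hX) hD, ?_⟩
    simp only [DT.kv]
    linear_combination s.v x * h
  | quad w s v =>
    intro _ A B D a b d μ hA hB hD h
    refine ⟨_, enc_mul (enc_norm (enc_add (enc_mul (w.enc hX) (enc_add hA hB)) (s.enc hX))) hD, ?_⟩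
    simp only [DT.kv]
    linear_combination (w.v x * (a + b) + s.v x) * h
  | clo =>
    intro _ A B D a b d μ _ _ _ _
    exact ⟨0, enc_pbad E 0, by simp [DT.kv]⟩
  | node k l r ihl ihr =>
    intro hT A B D a b d μ hA hB hD h
    obtain ⟨h1, h2, h3⟩ := hT
    have hk := k.enc E
    refine br4_cases (P := fun Z => ∃ e, Enc E Z e ∧ (DT.node k l r).kv a x -
      (DT.node k l r).kv b x = μ * e) (enc_sub hA hk) (enc_sub hB hk) ?_ ?_ ?_ ?_
    · intro ga gb
      obtain ⟨e, he, h4⟩ := ihl h2 hA hB hD h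
      refine ⟨e, he, ?_⟩
      simp only [DT.kv, if_pos (show a ≤ k.v by linarith), if_pos (show b ≤ k.v by linarith)]
      exact h4
    · intro ga gb
      obtain ⟨e, he, h4⟩ := ihr h3 hA hB hD h
      refine ⟨e, he, ?_⟩
      simp only [DT.kv, if_neg (show ¬ a ≤ k.v by linarith), if_neg (show ¬ b ≤ k.v by linarith)]
      exact h4
    · obtain ⟨e0, he0, g0⟩ := ihl h2 hA hB hD h
      have hm := enc_max hA hk
      have hn := enc_max hB hk
      obtain ⟨e1, he1, g1⟩ := ihl h2 hm hn (enc_one E) (μ := max a k.v - max b k.v) (by ring)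
      obtain ⟨e2, he2, g2⟩ := ihr h3 hm hn (enc_one E) (μ := max a k.v - max b k.v) (by ring)
      refine ⟨_, enc_pbse (enc_thT hA hB hm hn) hD he0 he2 he1, ?_⟩
      have f1 := knot_left (f := fun p => (DT.node k l r).kv p x) (l := fun p => l.kv p x)
        (r := fun p => r.kv p x) (fun p => rfl) h1
      have fa := f1 a
      have fb := f1 b
      rw [fa, fb]
      have ht := lamR_max a b k.v
      linear_combination g0 - g1 + g2 - (e2 - e1) * ht +
        lamR (max a k.v - max b k.v) (a - b) * (e2 - e1) * h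
    · obtain ⟨e0, he0, g0⟩ := ihr h3 hA hB hD h
      have hm := enc_min hA hk
      have hn := enc_min hB hk
      obtain ⟨e1, he1, g1⟩ := ihr h3 hm hn (enc_one E) (μ := min a k.v - min b k.v) (by ring)
      obtain ⟨e2, he2, g2⟩ := ihl h2 hm hn (enc_one E) (μ := min a k.v - min b k.v) (by ring)
      refine ⟨_, enc_pbse (enc_thT hA hB hm hn) hD he0 he2 he1, ?_⟩
      have f1 := knot_right (f := fun p => (DT.node k l r).kv p x) (l := fun p => l.kv p x)
        (r := fun p => r.kv p x) (fun p => rfl) h1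
      have fa := f1 a
      have fb := f1 b
      rw [fa, fb]
      have ht := lamR_min a b k.v
      linear_combination g0 - g1 + g2 - (e2 - e1) * ht +
        lamR (min a k.v - min b k.v) (a - b) * (e2 - e1) * h

/-- slope of the curve -/
noncomputable def cdd (A B CA CB : ℕ) : ℕ :=
  (fun h => pneg (padd (phf pone) (pmul (pnorm (t34 h)) (pinv (padd (padd CA CB) (phf h))))))
    (padd A B)

theorem enc_cdd {E : Pt} {A B CA CB : ℕ} {a b ca cb : ℝ} (hA : Enc E A a) (hB : Enc E B b)
    (hCA : Enc E CA ca) (hCB : Enc E CB cb) : Enc E (cdd A B CA CB) (cdR a b ca cb) := by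
  have h := enc_add hA hB
  refine enc_cast (enc_neg (enc_add (enc_half (enc_one E)) (enc_mul (enc_norm (enc_t34 h))
    (enc_inv (enc_add (enc_add hCA hCB) (enc_half h)))))) ?_
  unfold cdR
  ring

/-- difference of the closed form -/
noncomputable def dclo (KC : DT) (kf : Fn2) (A B CA CB DP DC X : ℕ) : ℕ :=
  (fun ya yb dy => (fun eb ub => (fun t => psub (pmul (pnorm (psub (pnc 3) (padd (padd CA CB)
      (padd CA CB)))) DC) (padd t t))
    (padd (pmul (kf.t A X) (pnorm (padd (pmul dy (pnorm (psub (padd (phf ya) CA) pone)))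
      (pmul ub (pnorm (padd (phf dy) DC)))))) (pmul (pmul ub eb) (kcd KC A B DP X))))
    (pnorm (psub (padd (phf yb) CB) pone)) (pnorm (psub yb X)))
  (t43 (padd A (phf CA))) (t43 (padd B (phf CB))) (pnorm (t43 (padd DP (phf DC))))

/-- difference of the level function, divided -/
noncomputable def txd (KC : DT) (kf : Fn2) (T : DT) : ℕ → ℕ → ℕ → ℕ → ℕ → ℕ → ℕ → ℕ :=
  DT.rec (motive := fun _ => ℕ → ℕ → ℕ → ℕ → ℕ → ℕ → ℕ → ℕ)
    (fun s _ _ _ _ _ DP _ X => pmul (s.t X) DP)
    (fun w s _ A B _ _ DP _ X => pmul (pnorm (padd (pmul (w.t X) (padd A B)) (s.t X))) DP)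
    (fun A B CA CB DP DC X => dclo KC kf A B CA CB DP DC X)
    (fun k _ _ il ir A B CA CB DP DC X => br4 (psub A k.t) (psub B k.t)
      (il A B CA CB DP DC X) (ir A B CA CB DP DC X)
      ((fun kc => (fun A1 B1 CA1 CB1 => (fun dd => pbse (thT A B A1 B1) DP (il A B CA CB DP DC X)
        (ir A1 B1 CA1 CB1 pone dd X) (il A1 B1 CA1 CB1 pone dd X)) (cdd A1 B1 CA1 CB1))
        (pmax A k.t) (pmax B k.t) (pmin CA kc) (pmin CB kc)) (csT k.t))
      ((fun kc => (fun A1 B1 CA1 CB1 => (fun dd => pbse (thT A B A1 B1) DP (ir A B CA CB DP DC X)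
        (il A1 B1 CA1 CB1 pone dd X) (ir A1 B1 CA1 CB1 pone dd X)) (cdd A1 B1 CA1 CB1))
        (pmin A k.t) (pmin B k.t) (pmax CA kc) (pmax CB kc)) (csT k.t))) T

theorem abs_min_le {a k c : ℝ} (h1 : |a| ≤ c) (h2 : |k| ≤ c) : |min a k| ≤ c := by
  rcases min_cases a k with ⟨e, -⟩ | ⟨e, -⟩ <;> rw [e] <;> assumption

theorem abs_max_le {a k c : ℝ} (h1 : |a| ≤ c) (h2 : |k| ≤ c) : |max a k| ≤ c := by
  rcases max_cases a k with ⟨e, -⟩ | ⟨e, -⟩ <;> rw [e] <;> assumption

theorem cT_min {a k : ℝ} (h1 : |a| ≤ 1 / 2) (h2 : |k| ≤ 1 / 2) :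
    cT (min a k) = max (cT a) (cT k) := by
  rcases le_total a k with h | h
  · rw [min_eq_left h, max_eq_left (cT_anti h1 h2 h)]
  · rw [min_eq_right h, max_eq_right (cT_anti h2 h1 h)]

theorem cT_max {a k : ℝ} (h1 : |a| ≤ 1 / 2) (h2 : |k| ≤ 1 / 2) :
    cT (max a k) = min (cT a) (cT k) := by
  rcases le_total a k with h | h
  · rw [max_eq_right h, min_eq_right (cT_anti h1 h2 h)]
  · rw [max_eq_left h, min_eq_left (cT_anti h2 h1 h)]

theorem txd_sound {E : Pt} {x : ℝ} {X : ℕ} (hX : Enc E X x) {KC : DT} {kf : Fn2}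
    (hK : KC.KOk x) (hkf : ∀ p, |p| ≤ 1 / 2 → kf.v p x = KC.kv p x) (T : DT) : T.Ok kf.v x →
    ∀ {A B CA CB DP DC : ℕ} {a b dp dc μ : ℝ}, Enc E A a → Enc E B b → Enc E CA (cT a) →
      Enc E CB (cT b) → Enc E DP dp → Enc E DC dc → |a| ≤ 1 / 2 → |b| ≤ 1 / 2 →
      a - b = μ * dp → cT a - cT b = μ * dc →
      ∃ e, Enc E (txd KC kf T A B CA CB DP DC X) e ∧
        T.val kf.v a (cT a) x - T.val kf.v b (cT b) x = μ * e := by
  induction T with
  | lin s v =>
    intro _ A B CA CB DP DC a b dp dc μ _ _ _ _ hP _ _ _ h _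
    refine ⟨_, enc_mul (s.enc hX) hP, ?_⟩
    simp only [DT.val]
    linear_combination s.v x * h
  | quad w s v =>
    intro _ A B CA CB DP DC a b dp dc μ hA hB _ _ hP _ _ _ h _
    refine ⟨_, enc_mul (enc_norm (enc_add (enc_mul (w.enc hX) (enc_add hA hB)) (s.enc hX))) hP, ?_⟩
    simp only [DT.val]
    linear_combination (w.v x * (a + b) + s.v x) * h
  | clo =>
    intro _ A B CA CB DP DC a b dp dc μ hA hB hCA hCB hP hC ga gb h h'
    have ya := enc_t43 (enc_add hA (enc_half hCA))
    have yb := enc_t43 (enc_add hB (enc_half hCB))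
    have dy := enc_norm (enc_t43 (enc_add hP (enc_half hC)))
    have eb := enc_norm (enc_sub (enc_add (enc_half yb) hCB) (enc_one E))
    have ub := enc_norm (enc_sub yb hX)
    obtain ⟨dk, hdk, hk⟩ := kcd_sound hX KC hK hA hB hP h
    have t := enc_add (enc_mul (kf.enc hA hX) (enc_norm (enc_add (enc_mul dy
      (enc_norm (enc_sub (enc_add (enc_half ya) hCA) (enc_one E))))
      (enc_mul ub (enc_norm (enc_add (enc_half dy) hC)))))) (enc_mul (enc_mul ub eb) hdk)
    refine ⟨_, enc_sub (enc_mul (enc_norm (enc_sub (enc_pnc E 3) (enc_add (enc_add hCA hCB)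
      (enc_add hCA hCB)))) hC) (enc_add t t), ?_⟩
    have e1 := hkf a ga
    have e2 := hkf b gb
    simp only [DT.val, cloR]
    rw [e2, e1]
    push_cast
    linear_combination (3 - 2 * (cT a + cT b)) * h' -
      2 * (KC.kv a x * (4 / 3 * (4 / 3 * (a + cT a / 2) / 2 + cT a - 1))) * h -
      2 * (KC.kv a x * (4 / 3 / 2 * (4 / 3 * (a + cT a / 2) / 2 + cT a - 1))) * h' -
      2 * (KC.kv a x * ((4 / 3 * (b + cT b / 2) - x) * (4 / 3 / 2))) * h -
      2 * (KC.kv a x * ((4 / 3 * (b + cT b / 2) - x) * (4 / 3 / 2 / 2 + 1))) * h' -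
      2 * ((4 / 3 * (b + cT b / 2) - x) * (4 / 3 * (b + cT b / 2) / 2 + cT b - 1)) * hk
  | node k l r ihl ihr =>
    intro hT A B CA CB DP DC a b dp dc μ hA hB hCA hCB hP hC ga gb h h'
    obtain ⟨hkk, h1, h2, h3⟩ := hT
    have hk := k.enc E
    have hc := enc_csT hk
    refine br4_cases (P := fun Z => ∃ e, Enc E Z e ∧ (DT.node k l r).val kf.v a (cT a) x -
      (DT.node k l r).val kf.v b (cT b) x = μ * e) (enc_sub hA hk) (enc_sub hB hk) ?_ ?_ ?_ ?_
    · intro g1 g2
      obtain ⟨e, he, h4⟩ := ihl h2 hA hB hCA hCB hP hC ga gb h h'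
      refine ⟨e, he, ?_⟩
      simp only [DT.val, if_pos (show a ≤ k.v by linarith), if_pos (show b ≤ k.v by linarith)]
      exact h4
    · intro g1 g2
      obtain ⟨e, he, h4⟩ := ihr h3 hA hB hCA hCB hP hC ga gb h h'
      refine ⟨e, he, ?_⟩
      simp only [DT.val, if_neg (show ¬ a ≤ k.v by linarith),
        if_neg (show ¬ b ≤ k.v by linarith)]
      exact h4
    · have ma := enc_max hA hk
      have mb := enc_max hB hk
      have mca := enc_cast (enc_min hCA hc) (cT_max ga hkk).symm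
      have mcb := enc_cast (enc_min hCB hc) (cT_max gb hkk).symm
      have gka := abs_max_le ga hkk
      have gkb := abs_max_le gb hkk
      have hdd := enc_cdd ma mb mca mcb
      obtain ⟨e0, he0, g0⟩ := ihl h2 hA hB hCA hCB hP hC ga gb h h'
      obtain ⟨e1, he1, g1⟩ := ihl h2 ma mb mca mcb (enc_one E) hdd gka gkb
        (μ := max a k.v - max b k.v) (by ring) (cdR_mul gka gkb)
      obtain ⟨e2, he2, g2⟩ := ihr h3 ma mb mca mcb (enc_one E) hdd gka gkb
        (μ := max a k.v - max b k.v) (by ring) (cdR_mul gka gkb)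
      refine ⟨_, enc_pbse (enc_thT hA hB ma mb) hP he0 he2 he1, ?_⟩
      have f1 := knot_left (f := fun p => (DT.node k l r).val kf.v p (cT p) x)
        (l := fun p => l.val kf.v p (cT p) x) (r := fun p => r.val kf.v p (cT p) x)
        (fun p => rfl) h1
      have fa := f1 a
      have fb := f1 b
      rw [fa, fb]
      have ht := lamR_max a b k.v
      linear_combination g0 - g1 + g2 - (e2 - e1) * ht +
        lamR (max a k.v - max b k.v) (a - b) * (e2 - e1) * h
    · have ma := enc_min hA hk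
      have mb := enc_min hB hk
      have mca := enc_cast (enc_max hCA hc) (cT_min ga hkk).symm
      have mcb := enc_cast (enc_max hCB hc) (cT_min gb hkk).symm
      have gka := abs_min_le ga hkk
      have gkb := abs_min_le gb hkk
      have hdd := enc_cdd ma mb mca mcb
      obtain ⟨e0, he0, g0⟩ := ihr h3 hA hB hCA hCB hP hC ga gb h h'
      obtain ⟨e1, he1, g1⟩ := ihr h3 ma mb mca mcb (enc_one E) hdd gka gkb
        (μ := min a k.v - min b k.v) (by ring) (cdR_mul gka gkb)
      obtain ⟨e2, he2, g2⟩ := ihl h2 ma mb mca mcb (enc_one E) hdd gka gkb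
        (μ := min a k.v - min b k.v) (by ring) (cdR_mul gka gkb)
      refine ⟨_, enc_pbse (enc_thT hA hB ma mb) hP he0 he2 he1, ?_⟩
      have f1 := knot_right (f := fun p => (DT.node k l r).val kf.v p (cT p) x)
        (l := fun p => l.val kf.v p (cT p) x) (r := fun p => r.val kf.v p (cT p) x)
        (fun p => rfl) h1
      have fa := f1 a
      have fb := f1 b
      rw [fa, fb]
      have ht := lamR_min a b k.v
      linear_combination g0 - g1 + g2 - (e2 - e1) * ht +
        lamR (min a k.v - min b k.v) (a - b) * (e2 - e1) * h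

end Pool.Agent.Strip051.PB
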