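import Pool.Agent.Strip051.PB.StripQF

/-! # Unit strips, tables with the vertical direction in the tight range

If the vertical direction lies in the tight range, then the level on the unit circle next to the
vertical direction is not linear: it is `P N(P')`, `P` the abscissa and `P'` the height of the
point, with `N(y) = (y - 1) (2 k (y - 2 x) - 3)`. The forms of `StripQ` which only use the values
on the curves remain; the forms with parts are replaced. -/

namespace Pool.Agent.Strip051.PB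

attribute [local irreducible] padd psub pneg pmul psq pinv psqrt psqrtg pabs pps pmax pmin pphi plam
  pcase phf pnat prat pscale pnorm pdc pnc pone ppos pnn Enc

/-- a sixteenth of the unit interval -/
noncomputable def p16 (i : ℕ) : ℕ := padd (prat i 16) (phf (phf (phf (phf pu01))))

/-- `2 k (Y + P - 1 - 2 x) - 3` -/
noncomputable def nqF (K Y P x : ℕ) : ℕ :=
  pnorm (psub (pmul (padd K K) (pnorm (psub (psub (padd Y P) pone) (padd x x)))) (pnc 3))

/-- the quotient above by `4 (Y + P)` -/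
noncomputable def tpF (K Y P x : ℕ) : ℕ :=
  pnorm (pmul (nqF K Y P x) (phf (phf (pinv (padd Y P)))))

/-- conditions and base values of the forms with parts -/
noncomputable def vp0 (D : SDat) (V : Vt) (W : Wt) (κ : Cn) (f X Y τ px py k0 dx dy x : ℕ)
    (go : ℕ → ℕ → ℕ → ℕ → ℕ → Bool) : Bool :=
  frc (pabs X) fun aX => frc (cuT .u2 Y) fun c => cn6 V W aX f c Y
    (band (pnn (psub κ.t c)) (band (pnn (psub κ.t aX))
      (vruT D X τ px py k0 dx dy x fun r l =>
        frc (V.k0.t x) fun K => frc (tpF K Y (psqrt (prat 4 3)) x) fun t0 =>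
        frc (padd l (pmul X (tpF K Y (psqrt (pscale 4 3 (psub pone (psq X)))) x))) fun l1 =>
        frc (sel2 (ppos (psub (pnc 1) (t34 (psq Y)))) (psub l1 (pmul (pnorm (pmul X pu01)) t0)) l1)
          fun l2 => frc r fun r => frc (W.qK.t x) fun qk =>
        frc (pnorm (padd (W.qX.t x) (pmul c (pscale 16 3 t0)))) fun qx =>
        frc (pnorm (padd pone (pmul c (pinv (W.FR.t Y))))) fun iv => go r l2 qk qx iv)))

/-- quotient in eight parts -/
noncomputable def vaP0 (D : SDat) (V : Vt) (W : Wt) (κ : Cn) (b : Bool)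
    (f X Y τ px py k0 dx dy x k : ℕ) (fin : ℕ → ℕ → ℕ → Bool) : Bool :=
  band (pnn (sg b X)) (vp0 D V W κ f X Y τ px py k0 dx dy x fun r l qk qx iv =>
    all8 fun i => frc (sg b (pnorm (pmul (pnorm (pscale 3 16 (p16 i))) iv))) fun G =>
      fin (lvp i k) (padd r (pmul G qk)) (padd l (pmul G qx)))

/-- signed quotient in sixteen parts, eight levels -/
noncomputable def vuP0 (D : SDat) (V : Vt) (W : Wt) (κ : Cn) (f X Y τ px py k0 dx dy x k : ℕ)
    (fin : ℕ → ℕ → ℕ → Bool) : Bool :=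
  vp0 D V W κ f X Y τ px py k0 dx dy x fun r l qk qx iv =>
    (fun ev : ℕ → ℕ → Bool => all8 fun i => band (ev i (Nat.mul 2 i)) (ev i (Nat.succ (Nat.mul 2 i))))
      (fun i j => frc (pnorm (pmul (pnorm (pscale 3 16 (psub (p16 j) (phn 1)))) iv)) fun G =>
        fin (lvp i k) (padd r (pmul G qk)) (padd l (pmul G qx)))

/-! ### The test -/

/-- choice of the form for the third side; `h` is the hint, `k` the payload -/
noncomputable def thi0T (D : SDat) (U : Ty) (S : Sg) (V : Vt) (W : Wt) (κ : Cn)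
    (h k m q X Y τ px py k0 dx dy x : ℕ) (fin : ℕ → ℕ → ℕ → Bool) (rw : ℕ → Bool) : Bool :=
  Bool.rec (motive := fun _ => Bool)
    (canQ D U (bT U) S m X Y τ px py k0 dx dy x (fin k))
    (Nat.rec (motive := fun _ => Bool)
        (canQ D U true S m X Y τ px py k0 dx dy x (fin k))
      (fun h _ => Nat.rec (motive := fun _ => Bool)
        (canQ D U false S m X Y τ px py k0 dx dy x (fin k))
      (fun h _ => Nat.rec (motive := fun _ => Bool)
        false
      (fun h _ => Nat.rec (motive := fun _ => Bool)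
        false
      (fun h _ => Nat.rec (motive := fun _ => Bool)
        false
      (fun h _ => Nat.rec (motive := fun _ => Bool)
        false
      (fun h _ => Nat.rec (motive := fun _ => Bool)
        false
      (fun h _ => Nat.rec (motive := fun _ => Bool)
        (vmQ D V S true X Y τ px py k0 dx dy x (fin k))
      (fun h _ => Nat.rec (motive := fun _ => Bool)
        (vmQ D V S false X Y τ px py k0 dx dy x (fin k))
      (fun h _ => Nat.rec (motive := fun _ => Bool)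
        false
      (fun h _ => Nat.rec (motive := fun _ => Bool)
        (vaP0 D V W κ true (S.f.t Y) X Y τ px py k0 dx dy x k fin)
      (fun h _ => Nat.rec (motive := fun _ => Bool)
        (vaP0 D V W κ false (S.f.t Y) X Y τ px py k0 dx dy x k fin)
      (fun h _ => Nat.rec (motive := fun _ => Bool)
        false
      (fun h _ => Nat.rec (motive := fun _ => Bool)
        false
      (fun h _ => Nat.rec (motive := fun _ => Bool)
        (vcQ D V W true (S.f.t Y) X Y τ px py k0 dx dy x (fin k))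
      (fun h _ => Nat.rec (motive := fun _ => Bool)
        (vcQ D V W false (S.f.t Y) X Y τ px py k0 dx dy x (fin k))
      (fun h _ => Nat.rec (motive := fun _ => Bool)
        (vsQ D V W true (S.f.t Y) q X Y τ px py k0 dx dy x k fin)
      (fun h _ => Nat.rec (motive := fun _ => Bool)
        (vsQ D V W false (S.f.t Y) q X Y τ px py k0 dx dy x k fin)
      (fun h _ => Nat.rec (motive := fun _ => Bool)
        (vuP0 D V W κ (S.f.t Y) X Y τ px py k0 dx dy x k fin)
      (fun _ _ => rw k) h) h) h) h) h) h) h) h) h) h) h) h) h) h) h) h) h) h) h)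
    (Ty.rec (motive := fun _ => Bool) false true false false false false false U)

/-- the test with the forms of `x`, of the heights `A`, `B` and abscissae `X1`, `X2` of the nodes and
of the third side; `i` is the payload of the hint; `R1`, `Ra`, `L1`, `L2` are kernel and level
values of the nodes -/
noncomputable def stp0T (D : SDat) (fam : Bool) (m n U : Ty) (cn : Con) (a b c : ℕ) (S : Sg)
    (V : Vt) (W : Wt) (κ : Cn) (i x A B X1 X2 X Y R1 Ra L1 L2 : ℕ) : Bool :=
  frc (psub (phf (psub (pmul X1 B) (pmul X2 A))) (phn 1)) fun ex =>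
  frc (pnorm (pxT m X1 A)) fun px => frc (pnorm (pyT m X1 A)) fun py =>
  band (ppos (padd pone ex)) (band (ppos (psub py pone))
    (frc (pinv (padd pone ex)) fun E1 => frc (pmul px (pinv (psub py pone))) fun k0 =>
    frc (pnorm (sg (cond (uT U) fam (!fam)) (pmul (pscale 3 64 (padd B (iyT n px py))) E1)))
      fun dx =>
    frc (pnorm (sg (cond (uT U) (!fam) fam) (pmul (pscale 1 16 (padd X2 (ixT n px py))) E1)))
      fun dy =>
    frc (qqT X Y) fun q =>
    frc (pnorm (pxT n X2 B)) fun nx => frc (pnorm (pyT n X2 B)) fun ny =>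
    frc (pnorm (pxT n dx dy)) fun ex' => frc (pnorm (pyT n dx dy)) fun ey' =>
    frc (pnorm (rcT n (cond fam b c) (pabs X2) B (pnorm (psub ex' (pmul ey' k0)))
      (dj (jq (cond fam b c)) B) (pnorm (kcd D.KC (pneg nx) (pneg px) (pneg ex') x))))
      fun rn =>
    frc (lvT D.KC D.kf D.TX n nx ny px py ex' ey' x) fun ln =>
    frc (dj (jq (cond fam c b)) Y) fun τ => frc (esuT m n U q E1) fun es =>
    thi0T D U S V W κ (Nat.land i 31) (Nat.shiftRight i 5) (cond fam c b) q X Y τ px py k0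
      dx dy x (fun g rU lU => frc (pnorm rU) fun rU => frc lU fun lU =>
      fiT D.kh fam cn a b c g x A (sl fam B Y) (sl fam Y B) es rn ln rU lU)
      (fun k => frc (dj (jq a) A) fun u => frc (dj (jq b) (sl fam B Y)) fun v =>
        frc (dj (jq c) (sl fam Y B)) fun w => frc R1 fun R1 => frc Ra fun Ra => frc L1 fun L1 =>
        frc L2 fun L2 => rwT W k X Y x (rfT D.kh fam cn x u v w ex R1 Ra L1 L2))))

/-- the test with the nodes -/
noncomputable def str0T (D : SDat) (fam s1 s2 : Bool) (m n U : Ty) (cn : Con) (a b c : ℕ) (S : Sg)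
    (V : Vt) (W : Wt) (κ : Cn) (n1 n2 : Node) (i P Q x : ℕ) : Bool :=
  (fun A B X1 X2 => frc (pnorm (th fam X1 X2)) fun X => frc (pnorm (th fam A B)) fun Y =>
    stp0T D fam m n U cn a b c S V W κ i x A B X1 X2 X Y (sg s1 (n1.K.t P x)) (sg s2 (n2.K.t Q x))
      (sg s1 (n1.L.t P x)) (sg s2 (n2.L.t Q x)))
  (n1.Y.t P) (n2.Y.t Q) (sg s1 (n1.X.t P)) (sg s2 (n2.X.t Q))

/-! ### What is known about the level -/

/-- the quotient of the level on the unit circle by the abscissa -/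
noncomputable def Nlv (k x y : ℝ) : ℝ := (y - 1) * (2 * k * (y - 2 * x) - 3)

noncomputable def Nql (k x y p : ℝ) : ℝ := 2 * k * (y + p - 1 - 2 * x) - 3

theorem Nlv_sub (k x y p : ℝ) : Nlv k x y - Nlv k x p = (y - p) * Nql k x y p := by
  unfold Nlv Nql
  ring

/-- The facts about a table. -/
structure Zt0 (D : SDat) (V : Vt) (κ : Cn) (x : ℝ) : Prop where
  kap : κ.v ≤ 1 / 2
  kn : ∀ z, |z| ≤ κ.v → D.kf.v (-z) x = -(V.k0.v x * z)
  tn : ∀ z y, |z| ≤ κ.v → qqn z y = 1 → 1 ≤ y →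
    D.tF x (-z) - D.tF x z = z * Nlv (V.k0.v x) x y
  m0 : V.m0.v x = Nlv (V.k0.v x) x (√(4 / 3))

section

variable {E : Pt} {D : SDat} {S : Sg} {V : Vt} {W : Wt} {κ : Cn} {b : Bool}
  {x X Y KU LU px py κ0 dx dy N k : ℝ} {x' X' Y' T' px' py' k' dx' dy' f' K' : ℕ}

theorem enc_p16 (E : Pt) (i : ℕ) {t : ℝ} (h0 : 0 ≤ t) (h1 : t ≤ 1) :
    Enc E (p16 i) ((i : ℝ) / 16 + t / 16) :=
  enc_cast (enc_add (enc_rat E i 16) (enc_half (enc_half (enc_half (enc_half (enc_u01 E h0 h1))))))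
    (by push_cast; ring)

theorem enc_nqF {P' : ℕ} {P : ℝ} (hK : Enc E K' k) (hY : Enc E Y' Y) (hP : Enc E P' P)
    (hx : Enc E x' x) : Enc E (nqF K' Y' P' x') (Nql k x Y P) :=
  enc_norm (enc_cast (enc_sub (enc_mul (enc_add hK hK) (enc_norm (enc_sub (enc_sub (enc_add hY hP)
    (enc_one E)) (enc_add hx hx)))) (enc_pnc E 3)) (by unfold Nql; push_cast; ring))

theorem enc_tpF {P' : ℕ} {P : ℝ} (hK : Enc E K' k) (hY : Enc E Y' Y) (hP : Enc E P' P)
    (hx : Enc E x' x) : Enc E (tpF K' Y' P' x') (Nql k x Y P * (4 * (Y + P))⁻¹) :=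
  enc_norm (enc_cast (enc_mul (enc_nqF hK hY hP hx) (enc_half (enc_half (enc_inv
    (enc_add hY hP))))) (by rw [mul_inv]; ring))

theorem s43_sq : √(4 / 3 : ℝ) ^ 2 = 4 / 3 := Real.sq_sqrt (by norm_num)

theorem s43_pos : 0 < √(4 / 3 : ℝ) := Real.sqrt_pos.2 (by norm_num)

theorem s43_one : 1 ≤ √(4 / 3 : ℝ) := Real.le_sqrt_of_sq_le (by norm_num)

/-- The values on the first segment. -/
theorem fst0 (H : UH6 D S V W x X Y KU LU) (Z : Zt0 D V κ x) (hY1 : 1 ≤ Y) (a0 : 0 ≤ sgr b X)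
    (a1 : sgr b X ≤ S.f.v Y) (a2 : Y ≤ V.yb.v) (a3 : cuR .u2 Y ≤ W.c2.v) (a4 : 0 < W.FR.v Y)
    (a5 : cuR .u2 Y ≤ κ.v) (g3 : qqn X Y - 1 = 3 / 16 * N) (k1 : 0 ≤ N) :
    ∃ ρ s : ℝ, 0 ≤ ρ ∧ ρ ≤ 1 / 2 ∧ 0 ≤ s ∧ s ≤ 1 ∧ (3 / 4 * Y ^ 2 < 1 → s = 0) ∧
      KU = X * (1 - (Y - 1) * V.k0.v x) +
        N * sgr b (3 / 16 * ρ * (1 + cuR .u2 Y * (W.FR.v Y)⁻¹)) * W.qK.v x ∧
      LU = X * Nlv (V.k0.v x) x Y +
        N * (sgr b (3 / 16 * ρ * (1 + cuR .u2 Y * (W.FR.v Y)⁻¹)) * (W.qX.v x + cuR .u2 Y *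
          (16 / 3 * (Nql (V.k0.v x) x Y (√(4 / 3)) * (4 * (Y + √(4 / 3)))⁻¹))) -
          X * s * (Nql (V.k0.v x) x Y (√(4 / 3)) * (4 * (Y + √(4 / 3)))⁻¹)) := by
  obtain ⟨h1, -, hK, hL⟩ := H.g6 b a0 a1 a2 a3 a4
  obtain ⟨ρ, r0, r1, r2, -⟩ := rho_ex h1 g3
  have hc : |cuR .u2 Y| ≤ κ.v := by rwa [abs_of_nonneg (cuR_nn Y)]
  have e1 : KO D x Y (cuR .u2 Y) = cuR .u2 Y * (1 - (Y - 1) * V.k0.v x) := by
    unfold KO
    rw [Z.kn _ hc]
    ring
  rw [e1, itp_lin a4, sgq_add, sgr_smul, sgr_smul, sgu_sgr, cor_eq r2] at hK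
  have hys : 0 < Y + √(4 / 3) := by
    have := s43_pos
    linarith
  have hi4 := inv_mul_cancel₀ (mul_pos (by norm_num : (0 : ℝ) < 4) hys).ne'
  have hif := inv_mul_cancel₀ a4.ne'
  have hsq := s43_sq
  have hN := Nlv_sub (V.k0.v x) x Y (√(4 / 3))
  set y0 := √(4 / 3 : ℝ) with hy0
  set c := cuR .u2 Y with hcd
  set g := W.FR.v Y with hg
  rw [Z.m0] at hL
  rcases lt_or_ge (3 / 4 * Y ^ 2) 1 with hlt | hge
  · refine ⟨ρ, 0, r0, r1, le_rfl, zero_le_one, fun _ => rfl, hK, ?_⟩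
    have hcsq := cuR_sq (Y := Y) hlt.le
    rw [← hcd] at hcsq
    have hq : qqn c Y = 1 := by
      unfold qqn
      rw [hcsq]
      ring
    have e2 : LO D x c = c * Nlv (V.k0.v x) x Y := by
      unfold LO
      exact Z.tn c Y hc hq hY1
    -- the slope of the first curve minus the one of the circle
    have e3 : Nlv (V.k0.v x) x y0 + W.qX.v x * c - Nlv (V.k0.v x) x Y =
        c * (W.qX.v x + c * (16 / 3 * (Nql (V.k0.v x) x Y y0 * (4 * (Y + y0))⁻¹))) := by
      have e4 : (Y - y0) * (Y + y0) = -(4 / 3) * c ^ 2 := by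
        rw [hcsq]
        linear_combination (-1 : ℝ) * hsq
      linear_combination (-1 : ℝ) * hN + (4 * (4 * (Y + y0))⁻¹ * Nql (V.k0.v x) x Y y0) * (-1) * e4 +
        ((Y - y0) * Nql (V.k0.v x) x Y y0) * hi4
    have e5 : itp (sgr b X) c g (c * Nlv (V.k0.v x) x Y)
        ((c + g) * (Nlv (V.k0.v x) x y0 + W.qX.v x * c)) = sgr b X * Nlv (V.k0.v x) x Y +
        (sgr b X - c) * c * (1 + c * g⁻¹) *
          (W.qX.v x + c * (16 / 3 * (Nql (V.k0.v x) x Y y0 * (4 * (Y + y0))⁻¹))) := by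
      unfold itp
      linear_combination ((sgr b X - c) * (Nlv (V.k0.v x) x y0 + W.qX.v x * c)) * hif +
        ((sgr b X - c) * (1 + c * g⁻¹)) * e3
    rw [e2, e5, sgq_add, sgr_smul, sgu_sgr, sgr_smul, cor_eq r2] at hL
    rw [hL]
    ring
  · have hc0 : c = 0 := cuR_off hge
    have e2 : LO D x c = 0 := by
      unfold LO
      rw [hc0, neg_zero, sub_self]
    have hρ : (sgr b X - c) * c * (1 + c * g⁻¹) = 0 := by rw [hc0]; ring
    have z : sgr b (0 : ℝ) = 0 := by cases b <;> simp [sgr]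
    have hG : N * sgr b (3 / 16 * ρ * (1 + c * g⁻¹)) = 0 := by
      rw [← cor_eq r2, hρ, z]
    have hY0 : (Y - y0) * (Y + y0) = 4 / 3 * (3 / 4 * Y ^ 2 - 1) := by linear_combination (-1 : ℝ) * hsq
    obtain ⟨s, s0, s1, hs⟩ : ∃ s : ℝ, 0 ≤ s ∧ s ≤ 1 ∧ 3 / 4 * Y ^ 2 - 1 = 3 / 16 * N * s := by
      have hX2 : 3 / 4 * Y ^ 2 - 1 ≤ 3 / 16 * N := by
        rw [← g3]
        unfold qqn
        nlinarith [sq_nonneg X]
      rcases k1.eq_or_lt with h | h
      · refine ⟨0, le_rfl, zero_le_one, ?_⟩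
        rw [← h] at hX2
        rw [← h]
        linarith
      · refine ⟨(3 / 4 * Y ^ 2 - 1) / (3 / 16 * N), by
          have : 0 ≤ 3 / 4 * Y ^ 2 - 1 := by linarith
          positivity, (div_le_one (by positivity)).2 hX2, by field_simp⟩
    refine ⟨ρ, s, r0, r1, s0, s1, fun h => absurd hge (not_le.2 h), hK, ?_⟩
    have e5 : itp (sgr b X) c g 0 ((c + g) * (Nlv (V.k0.v x) x y0 + W.qX.v x * c)) =
        sgr b X * Nlv (V.k0.v x) x y0 := by
      unfold itp
      rw [hc0]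
      linear_combination (sgr b X * Nlv (V.k0.v x) x y0) * hif
    rw [e2, e5, sgr_smul, sgu_sgr] at hL
    have e6 : Nlv (V.k0.v x) x Y - Nlv (V.k0.v x) x y0 =
        N * s * (Nql (V.k0.v x) x Y y0 * (4 * (Y + y0))⁻¹) := by
      rw [hN]
      linear_combination (-((Y - y0) * Nql (V.k0.v x) x Y y0)) * hi4 +
        (4 * (4 * (Y + y0))⁻¹ * Nql (V.k0.v x) x Y y0) * hY0 +
        (16 / 3 * (4 * (Y + y0))⁻¹ * Nql (V.k0.v x) x Y y0) * hs
    have e7 := hG
    rw [hL]
    linear_combination (-X) * e6 - (W.qX.v x + c *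
          (16 / 3 * (Nql (V.k0.v x) x Y y0 * (4 * (Y + y0))⁻¹))) * hG

end

end Pool.Agent.Strip051.PB
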