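import Pool.Agent.Strip051.PB.StripV

/-! # Unit strips, tables with the vertical direction in the tight range: soundness -/

namespace Pool.Agent.Strip051.PB

attribute [local irreducible] padd psub pneg pmul psq pinv psqrt psqrtg pabs pps pmax pmin pphi plam
  pcase phf pnat prat pscale pnorm pdc pnc pone ppos pnn Enc

section

variable {E : Pt} {D : SDat} {S : Sg} {V : Vt} {W : Wt} {κ : Cn} {b : Bool}
  {x X Y KU LU px py κ0 dx dy N : ℝ} {x' X' Y' T' px' py' k' dx' dy' f' k : ℕ}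
  {fn : ℕ → ℕ → ℕ → Bool} {go : ℕ → ℕ → ℕ → ℕ → ℕ → Bool}

/-- The result of the common part: base values `R`, `L`, slopes `A`, `B`, factor `C`. -/
theorem vp0_sound (hD : D.Ok x) (hx : Enc E x' x) (hX : Enc E X' X) (hY : Enc E Y' Y)
    (hT : Enc E T' (Y - 1)) (h3 : Enc E px' px) (h4 : Enc E py' py) (hk : Enc E k' κ0)
    (h5 : Enc E dx' dx) (h6 : Enc E dy' dy) (H : UH D .u2 S V 2 x X Y KU LU)
    (H6 : UH6 D S V W x X Y KU LU) (Z : Zt0 D V κ x) (hf : Enc E f' (S.f.v Y))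
    (hp : qqn px py = 1) (hp1 : 1 ≤ py) (hκ : (py - 1) * κ0 = px)
    (g1 : X = px + N * dx) (g2 : Y = py + N * dy) (g3 : qqn X Y - 1 = 3 / 16 * N) (g4 : 0 ≤ N)
    (hb : 0 ≤ sgr b X)
    (h : vp0 D V W κ f' X' Y' T' px' py' k' dx' dy' x' go = true) :
    ∃ (R L A B C : ℕ) (r l ρ qx iv : ℝ), Enc E R r ∧ Enc E L l ∧ Enc E A (W.qK.v x) ∧
      Enc E B qx ∧ Enc E C iv ∧ 0 ≤ ρ ∧ ρ ≤ 1 / 2 ∧
      KU = (Y - 1) * (κ0 + D.kf.v (-px) x) + N * (r + sgr b (3 / 16 * ρ * iv) * W.qK.v x) ∧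
      LU = D.tF x (-px) - D.tF x px + N * (l + sgr b (3 / 16 * ρ * iv) * qx) ∧
      go R L A B C = true := by
  unfold vp0 at h
  simp only [frc_eq] at h
  have haX := enc_cast (enc_abs hX) (abs_of_sgr hb)
  have hc := enc_cuT .u2 hY
  obtain ⟨a1, a2, a3, a4, h⟩ := cn6_sound hY haX hf hc h
  obtain ⟨c2, h⟩ := band_true h
  obtain ⟨c3, h⟩ := band_true h
  have a5 := pnn_sound (enc_sub (κ.enc E) hc) c2
  have a6 := pnn_sound (enc_sub (κ.enc E) haX) c3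
  have hY1 : 1 ≤ Y := H.iny.1
  obtain ⟨ρ, s, r0, r1, s0, s1, hs, eK, eL⟩ := fst0 H6 Z hY1 hb a1 a2 a3 a4 (by linarith) g3 g4
  have hX1 : |X| ≤ κ.v := by
    rw [abs_of_sgr hb]
    linarith
  have hX2 : |X| ≤ 1 / 2 := hX1.trans Z.kap
  obtain ⟨R, L, r, l, hR, hL, e1, e2, hf'⟩ := vr_enc hD hx hX hT h3 h4 hk h5 h6 hX2 hp hp1 hκ g1 g2 h
  rw [Z.kn _ hX1] at e1
  -- the point of the unit circle with the same abscissa
  have hXs : X ^ 2 ≤ 1 / 4 := by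
    have := abs_le.1 hX2
    nlinarith
  have hyx : √(4 / 3 * (1 - X ^ 2)) ^ 2 = 4 / 3 * (1 - X ^ 2) := Real.sq_sqrt (by linarith)
  have hq1 : qqn X (√(4 / 3 * (1 - X ^ 2))) = 1 := by
    unfold qqn
    rw [hyx]
    ring
  have hy1 : 1 ≤ √(4 / 3 * (1 - X ^ 2)) := Real.le_sqrt_of_sq_le (by linarith)
  rw [Z.tn X _ hX1 hq1 hy1] at e2
  have hyX : Enc E (psqrt (pscale 4 3 (psub pone (psq X')))) (√(4 / 3 * (1 - X ^ 2))) :=
    enc_sqrt (enc_cast (enc_scale 4 3 (enc_sub (enc_one E) (enc_sq hX))) (by push_cast; ring))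
  have hy0 : Enc E (psqrt (prat 4 3)) (√(4 / 3)) :=
    enc_sqrt (enc_cast (enc_rat E 4 3) (by norm_num))
  have hK := V.k0.enc hx
  have ht0 := enc_tpF hK hY hy0 hx
  have htX := enc_tpF hK hY hyX hx
  have hl1 := enc_add hL (enc_mul hX htX)
  have hys : 0 < Y + √(4 / 3 * (1 - X ^ 2)) := by linarith
  have hi4 := inv_mul_cancel₀ (mul_pos (by norm_num : (0 : ℝ) < 4) hys).ne'
  have hN := Nlv_sub (V.k0.v x) x Y (√(4 / 3 * (1 - X ^ 2)))
  set yX := √(4 / 3 * (1 - X ^ 2)) with hyXd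
  have e3 : X * Nlv (V.k0.v x) x Y = D.tF x (-px) - D.tF x px +
      N * (l + X * (Nql (V.k0.v x) x Y yX * (4 * (Y + yX))⁻¹)) := by
    have e4 : (Y - yX) * (Y + yX) = N / 4 := by
      unfold qqn at g3
      linear_combination (-1 : ℝ) * hyx + 4 / 3 * g3
    linear_combination e2 + X * hN - (X * (Y - yX) * Nql (V.k0.v x) x Y yX) * hi4 +
      (4 * X * (4 * (Y + yX))⁻¹ * Nql (V.k0.v x) x Y yX) * e4
  have hl2 : Enc E (sel2 (ppos (psub (pnc 1) (t34 (psq Y'))))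
      (psub (padd L (pmul X' (tpF (V.k0.t x') Y' (psqrt (pscale 4 3 (psub pone (psq X')))) x')))
        (pmul (pnorm (pmul X' pu01)) (tpF (V.k0.t x') Y' (psqrt (prat 4 3)) x')))
      (padd L (pmul X' (tpF (V.k0.t x') Y' (psqrt (pscale 4 3 (psub pone (psq X')))) x'))))
      (l + X * (Nql (V.k0.v x) x Y yX * (4 * (Y + yX))⁻¹) -
        X * s * (Nql (V.k0.v x) x Y (√(4 / 3)) * (4 * (Y + √(4 / 3)))⁻¹)) := by
    cases hn : ppos (psub (pnc 1) (t34 (psq Y'))) with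
    | true =>
      have := ppos_sound (enc_sub (enc_pnc E 1) (enc_t34 (enc_sq hY))) hn
      push_cast at this
      rw [sel2_true, hs (by linarith)]
      exact enc_cast hl1 (by ring)
    | false =>
      rw [sel2_false]
      exact enc_sub hl1 (enc_mul (enc_norm (enc_mul hX (enc_u01 E s0 s1))) ht0)
  refine ⟨_, _, _, _, _, r, _, ρ, _, _, hR, hl2, W.qK.enc hx,
    enc_norm (enc_add (W.qX.enc hx) (enc_mul hc (enc_scale 16 3 ht0))),
    enc_norm (enc_add (enc_one E) (enc_mul hc (enc_inv (W.FR.enc hY)))), r0, r1, ?_, ?_, hf'⟩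
  · rw [eK]
    linear_combination e1
  · rw [eL]
    push_cast
    linear_combination e3

theorem p16_part {ρ : ℝ} (r0 : 0 ≤ ρ) (r1 : ρ ≤ 1 / 2) (E : Pt) : ∃ i < 8, Enc E (p16 i) ρ := by
  obtain ⟨i, hi, t, t0, t1, e⟩ := part_n (n := 8) (s := 2 * ρ) (by norm_num) (by linarith)
    (by linarith)
  refine ⟨i, hi, enc_cast (enc_p16 E i t0 t1) ?_⟩
  push_cast at e
  linarith

theorem vaP0_sound (hD : D.Ok x) (hx : Enc E x' x) (hX : Enc E X' X) (hY : Enc E Y' Y)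
    (hT : Enc E T' (Y - 1)) (h3 : Enc E px' px) (h4 : Enc E py' py) (hk : Enc E k' κ0)
    (h5 : Enc E dx' dx) (h6 : Enc E dy' dy) (H : UH D .u2 S V 2 x X Y KU LU)
    (H6 : UH6 D S V W x X Y KU LU) (Z : Zt0 D V κ x) (hf : Enc E f' (S.f.v Y))
    (hp : qqn px py = 1) (hp1 : 1 ≤ py) (hκ : (py - 1) * κ0 = px)
    (g1 : X = px + N * dx) (g2 : Y = py + N * dy) (g3 : qqn X Y - 1 = 3 / 16 * N) (g4 : 0 ≤ N)
    (h : vaP0 D V W κ b f' X' Y' T' px' py' k' dx' dy' x' k fn = true) :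
    ∃ g, ThR E D .u2 2 x Y px κ0 N KU LU (fn g) := by
  unfold vaP0 at h
  obtain ⟨c1, h⟩ := band_true h
  have a0 := pnn_sound (enc_sg b hX) c1
  obtain ⟨R, L, A, B, C, r, l, ρ, qx, iv, hR, hL, hA, hB, hC, r0, r1, eK, eL, hg⟩ :=
    vp0_sound hD hx hX hY hT h3 h4 hk h5 h6 H H6 Z hf hp hp1 hκ g1 g2 g3 g4 a0 h
  obtain ⟨i, hi, hρ⟩ := p16_part r0 r1 E
  have hv := all8_true hg hi
  simp only [frc_eq] at hv
  have hG := enc_sg b (enc_norm (enc_mul (enc_norm (enc_scale 3 16 hρ)) hC))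
  refine ⟨_, _, _, _, _, enc_add hR (enc_mul hG hA), enc_add hL (enc_mul hG hB), ?_, ?_, hv⟩
  · rw [eK]
    simp only [jq]
    push_cast
    ring
  · rw [eL]
    simp only [Ty.la, Ty.lb]
    push_cast
    ring

theorem vuP0_sound (hD : D.Ok x) (hx : Enc E x' x) (hX : Enc E X' X) (hY : Enc E Y' Y)
    (hT : Enc E T' (Y - 1)) (h3 : Enc E px' px) (h4 : Enc E py' py) (hk : Enc E k' κ0)
    (h5 : Enc E dx' dx) (h6 : Enc E dy' dy) (H : UH D .u2 S V 2 x X Y KU LU)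
    (H6 : UH6 D S V W x X Y KU LU) (Z : Zt0 D V κ x) (hf : Enc E f' (S.f.v Y))
    (hp : qqn px py = 1) (hp1 : 1 ≤ py) (hκ : (py - 1) * κ0 = px)
    (g1 : X = px + N * dx) (g2 : Y = py + N * dy) (g3 : qqn X Y - 1 = 3 / 16 * N) (g4 : 0 ≤ N)
    (h : vuP0 D V W κ f' X' Y' T' px' py' k' dx' dy' x' k fn = true) :
    ∃ g, ThR E D .u2 2 x Y px κ0 N KU LU (fn g) := by
  unfold vuP0 at h
  obtain ⟨b, hb⟩ : ∃ b, 0 ≤ sgr b X := by
    rcases le_total 0 X with h | h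
    · exact ⟨true, h⟩
    · exact ⟨false, neg_nonneg.2 h⟩
  obtain ⟨R, L, A, B, C, r, l, ρ, qx, iv, hR, hL, hA, hB, hC, r0, r1, eK, eL, hg⟩ :=
    vp0_sound hD hx hX hY hT h3 h4 hk h5 h6 H H6 Z hf hp hp1 hκ g1 g2 g3 g4 hb h
  obtain ⟨s0, s1⟩ : 0 ≤ sgr b ρ + 1 / 2 ∧ sgr b ρ + 1 / 2 ≤ 1 := by
    cases b
    · constructor
      · show 0 ≤ -ρ + 1 / 2
        linarith
      · show -ρ + 1 / 2 ≤ 1
        linarith
    · constructor
      · show 0 ≤ ρ + 1 / 2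
        linarith
      · show ρ + 1 / 2 ≤ 1
        linarith
  obtain ⟨j, hj, t, t0, t1, ej⟩ := part_n (n := 16) (by norm_num) s0 s1
  have hρ : Enc E (psub (p16 j) (phn 1)) (sgr b ρ) :=
    enc_cast (enc_sub (enc_p16 E j t0 t1) (enc_phn E 1)) (by push_cast at ej ⊢; linarith)
  have hG := enc_norm (enc_mul (enc_norm (enc_scale 3 16 hρ)) hC)
  have e3 : sgr b (3 / 16 * ρ * iv) = 3 / 16 * sgr b ρ * iv := by
    cases b
    · show -(_) = 3 / 16 * -ρ * _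
      ring
    · rfl
  rw [e3] at eK eL
  -- the part belongs to level `j / 2`
  have hi : j / 2 < 8 := by omega
  have hv := all8_true hg hi
  obtain ⟨v0, v1⟩ := band_true hv
  simp only [frc_eq] at v0 v1
  have hfin : fn (lvp (j / 2) k) (padd R (pmul (pnorm (pmul (pnorm (pscale 3 16
      (psub (p16 j) (phn 1)))) C)) A)) (padd L (pmul (pnorm (pmul (pnorm (pscale 3 16
      (psub (p16 j) (phn 1)))) C)) B)) = true := by
    rcases Nat.mod_two_eq_zero_or_one j with hm | hm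
    · have e : Nat.mul 2 (j / 2) = j := by
        show 2 * (j / 2) = j
        omega
      rw [e] at v0
      exact v0
    · have e : Nat.succ (Nat.mul 2 (j / 2)) = j := by
        show 2 * (j / 2) + 1 = j
        omega
      rw [e] at v1
      exact v1
  refine ⟨_, _, _, _, _, enc_add hR (enc_mul hG hA), enc_add hL (enc_mul hG hB), ?_, ?_, hfin⟩
  · rw [eK]
    simp only [jq]
    push_cast
    ring
  · rw [eL]
    simp only [Ty.la, Ty.lb]
    push_cast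
    ring

end

end Pool.Agent.Strip051.PB
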