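import Pool.Agent.Strip051.PB.StripVS

/-! # Unit strips, tables with the vertical direction in the tight range: soundness of the test -/

namespace Pool.Agent.Strip051.PB

open Pool.Agent.StripNear Pool.Agent.StripSquare Pool.Agent.Strip051.Sweep
open Pool.Agent.Strip051.LC

attribute [local irreducible] padd psub pneg pmul psq pinv psqrt psqrtg pabs pps pmax pmin pphi plam
  pcase phf pnat prat pscale pnorm pdc pnc pone ppos pnn Enc

section

variable {E : Pt} {D : SDat} {U : Ty} {S : Sg} {V : Vt} {W : Wt} {κ : Cn} {q : ℕ} {b : Bool}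
  {x X Y KU LU px py κ0 dx dy N : ℝ} {x' X' Y' T' px' py' k' dx' dy' f' q' k : ℕ}
  {fin : ℕ → ℕ → Bool} {fn : ℕ → ℕ → ℕ → Bool} {rw' : ℕ → Bool}

theorem thi0T_sound (hD : D.Ok x) (hx : Enc E x' x) (hX : Enc E X' X) (hY : Enc E Y' Y)
    (hq : Enc E q' (qqn X Y)) (hT : Enc E T' (Y - jq q)) (h3 : Enc E px' px) (h4 : Enc E py' py)
    (hk : Enc E k' κ0) (h5 : Enc E dx' dx) (h6 : Enc E dy' dy) (H : UH D U S V q x X Y KU LU)
    (H6 : U = .u2 → UH6 D S V W x X Y KU LU) (Z : Zt0 D V κ x) (g4 : 0 ≤ N)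
    (hp : qqn px py = 1) (hp1 : 1 ≤ py) (hκ : (py - 1) * κ0 = px)
    (g1 : U.px X Y = px + N * U.px dx dy) (g2 : U.py X Y = py + N * U.py dx dy)
    (g3 : qqn X Y - U.nq = 3 / 16 * sN U * N) {h : ℕ}
    (ht : thi0T D U S V W κ h k q q' X' Y' T' px' py' k' dx' dy' x' fn rw' = true) :
    (∃ g, ThR E D U q x Y px κ0 N KU LU (fn g)) ∨ (U = .u2 ∧ rw' k = true) := by
  by_cases hU : U = .u2
  · subst hU
    have hq2 : q = 2 := H.inq
    subst hq2
    have h6' := H6 rfl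
    have hT' : Enc E T' (Y - 1) := enc_cast hT (by simp only [jq]; push_cast; ring)
    have hf := S.f.enc hY
    have e1 : X = px + N * dx := g1
    have e2 : Y = py + N * dy := g2
    have e3 : qqn X Y - 1 = 3 / 16 * N := by
      have : sN .u2 = 1 := by simp only [sN, Ty.nq]; norm_num
      rw [this] at g3
      simpa [Ty.nq] using g3
    have can : ∀ b, canQ D .u2 b S 2 X' Y' T' px' py' k' dx' dy' x' (fn k) = true →
        ThR E D .u2 2 x Y px κ0 N KU LU (fn k) := fun b h' =>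
      canQ_sound hD hx hX hY hT h3 h4 hk h5 h6 H (fun h => absurd rfl h) hp hp1 hκ g1 g2 g3 h'
    match h, ht with
    | 0, ht => exact Or.inl ⟨_, can true ht⟩
    | 1, ht => exact Or.inl ⟨_, can false ht⟩
    | 2, ht => exact absurd ht Bool.false_ne_true
    | 3, ht => exact absurd ht Bool.false_ne_true
    | 4, ht => exact absurd ht Bool.false_ne_true
    | 5, ht => exact absurd ht Bool.false_ne_true
    | 6, ht => exact absurd ht Bool.false_ne_true
    | 7, ht => exact Or.inl ⟨_, vmQ_sound hD hx hX hY hT' h3 h4 hk h5 h6 H hp hp1 hκ e1 e2 e3 ht⟩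
    | 8, ht => exact Or.inl ⟨_, vmQ_sound hD hx hX hY hT' h3 h4 hk h5 h6 H hp hp1 hκ e1 e2 e3 ht⟩
    | 9, ht => exact absurd ht Bool.false_ne_true
    | 10, ht => exact Or.inl (vaP0_sound hD hx hX hY hT' h3 h4 hk h5 h6 H h6' Z hf hp hp1 hκ e1
        e2 e3 g4 ht)
    | 11, ht => exact Or.inl (vaP0_sound hD hx hX hY hT' h3 h4 hk h5 h6 H h6' Z hf hp hp1 hκ e1
        e2 e3 g4 ht)
    | 12, ht => exact absurd ht Bool.false_ne_true
    | 13, ht => exact absurd ht Bool.false_ne_true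
    | 14, ht => exact Or.inl ⟨_, vcQ_sound hD hx hX hY hT' h3 h4 hk h5 h6 H h6' hf hp hp1 hκ e1
        e2 e3 ht⟩
    | 15, ht => exact Or.inl ⟨_, vcQ_sound hD hx hX hY hT' h3 h4 hk h5 h6 H h6' hf hp hp1 hκ e1
        e2 e3 ht⟩
    | 16, ht => exact Or.inl (vsQ_sound hD hx hX hY hq hT' h3 h4 hk h5 h6 H h6' hf hp hp1 hκ e1
        e2 e3 ht)
    | 17, ht => exact Or.inl (vsQ_sound hD hx hX hY hq hT' h3 h4 hk h5 h6 H h6' hf hp hp1 hκ e1
        e2 e3 ht)
    | 18, ht => exact Or.inl (vuP0_sound hD hx hX hY hT' h3 h4 hk h5 h6 H h6' Z hf hp hp1 hκ e1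
        e2 e3 g4 ht)
    | _ + 19, ht => exact Or.inr ⟨rfl, ht⟩
  · have e : canQ D U (bT U) S q X' Y' T' px' py' k' dx' dy' x' (fn k) = true := by
      cases U
      · exact ht
      · exact absurd rfl hU
      all_goals exact ht
    exact Or.inl ⟨_, canQ_sound hD hx hX hY hT h3 h4 hk h5 h6 H (fun _ => rfl) hp hp1 hκ g1 g2 g3
      e⟩

end

section

variable {E : Pt} {D : SDat} {fam : Bool} {m n U : Ty} {S : Sg} {V : Vt} {W : Wt} {κ : Cn} {cn : Con}
  {a b c i x' A' B' X1' X2' X' Y' R1' Ra' L1' L2' : ℕ}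
  {x y1 y2 x1 x2 X Y Km Lm Kn Ln KU LU ex : ℝ}

theorem stp0T_sound (hD : D.Ok x) (hI : okI fam m n U = true) (hc : con a b c = some cn)
    (hx : Enc E x' x) (hA : Enc E A' y1) (hB : Enc E B' y2) (hX1 : Enc E X1' x1)
    (hX2 : Enc E X2' x2) (hX : Enc E X' X) (hY : Enc E Y' Y) (eX : X = x2 + eps fam * x1)
    (eY : Y = y2 + eps fam * y1) (hex : ex = (x1 * y2 - x2 * y1) / 2 - 1 / 2)
    (Hm : NH D m a x x1 y1 Km Lm) (Hn : NH D n (cond fam b c) x x2 y2 Kn Ln)
    (HU : UH D U S V (cond fam c b) x X Y KU LU) (H6 : U = .u2 → UH6 D S V W x X Y KU LU)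
    (Z : Zt0 D V κ x) (r1 : Enc E R1' Km) (r2 : Enc E Ra' Kn) (r3 : Enc E L1' Lm) (r4 : Enc E L2' Ln)
    (q1 : 1 ≤ qqn X Y) (q3 : qqn X Y ≤ 3)
    (h : stp0T D fam m n U cn a b c S V W κ i x' A' B' X1' X2' X' Y' R1' Ra' L1' L2' = true) :
    ∃ γ, 0 ≤ slc cn (levF ex Lm (cond fam Ln LU) (cond fam LU Ln)) (D.kh.v x) x (y1 - jq a)
      (cond fam y2 Y - jq b) (y1 + cond fam y2 Y - jq c) Km (cond fam Kn KU) (cond fam KU Kn)
      γ := by
  unfold stp0T at h
  simp only [frc_eq] at h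
  obtain ⟨c1, h⟩ := band_true h
  obtain ⟨c2, h⟩ := band_true h
  have hexE : Enc E (psub (phf (psub (pmul X1' B') (pmul X2' A'))) (phn 1)) ex := by
    refine enc_cast (enc_sub (enc_half (enc_sub (enc_mul hX1 hB) (enc_mul hX2 hA)))
      (enc_phn E 1)) ?_
    rw [hex]
    push_cast
    ring
  have hpx := enc_norm (enc_pxT m hX1 hA)
  have hpy := enc_norm (enc_pyT m hX1 hA)
  have a1 := ppos_sound (enc_add (enc_one E) hexE) c1
  have a2 := ppos_sound (enc_sub hpy (enc_one E)) c2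
  obtain ⟨m1, m2, m3⟩ := Hm.ge
  obtain ⟨n1, n2, n3⟩ := Hn.ge
  set px := m.px x1 y1 with hpxd
  set py := m.py x1 y1 with hpyd
  have hE1 := enc_inv (enc_add (enc_one E) hexE)
  have hk := enc_mul hpx (enc_inv (enc_sub hpy (enc_one E)))
  set κ0 := px * (py - 1)⁻¹ with hκd
  have hκ : (py - 1) * κ0 = px := by
    rw [hκd]
    have := inv_mul_cancel₀ a2.ne'
    linear_combination px * this
  have hn0x := enc_ixT n hpx hpy
  have hn0y := enc_iyT n hpx hpy
  obtain ⟨k1, k2⟩ := disp_strip (q := qqn X Y) (x0 := n.ix px py) (y0 := n.iy px py) hI Hm.len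
    Hn.len hex a1.ne' (by rw [eX, eY]) rfl rfl
  set N := Nst U (qqn X Y) with hNd
  have hN0 : 0 ≤ N := Nst_nonneg q1 q3
  set dx := Dx fam U y2 (n.iy px py) (1 + ex)⁻¹ with hdxd
  set dy := Dy fam U x2 (n.ix px py) (1 + ex)⁻¹ with hdyd
  have h5 : Enc E (pnorm (sg (cond (uT U) fam (!fam)) (pmul (pscale 3 64 (padd B'
      (iyT n (pnorm (pxT m X1' A')) (pnorm (pyT m X1' A'))))) (pinv (padd pone
      (psub (phf (psub (pmul X1' B') (pmul X2' A'))) (phn 1))))))) dx := by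
    refine enc_norm (enc_cast (enc_sg _ (enc_mul (enc_scale 3 64 (enc_add hB hn0y)) hE1)) ?_)
    rw [hdxd]
    unfold Dx
    rcases uT_iff U with ⟨e1, -, e3⟩ | ⟨e1, -, e3⟩ <;> rw [e1, e3] <;> cases fam <;>
      simp [sgr, eps]
  have h6 : Enc E (pnorm (sg (cond (uT U) (!fam) fam) (pmul (pscale 1 16 (padd X2'
      (ixT n (pnorm (pxT m X1' A')) (pnorm (pyT m X1' A'))))) (pinv (padd pone
      (psub (phf (psub (pmul X1' B') (pmul X2' A'))) (phn 1))))))) dy := by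
    refine enc_norm (enc_cast (enc_sg _ (enc_mul (enc_scale 1 16 (enc_add hX2 hn0x)) hE1)) ?_)
    rw [hdyd]
    unfold Dy
    rcases uT_iff U with ⟨e1, -, e3⟩ | ⟨e1, -, e3⟩ <;> rw [e1, e3] <;> cases fam <;>
      simp [sgr, eps]
  have hq := enc_qqT hX hY
  -- the second node
  have u1 : n.px x2 y2 = px + N * n.px dx dy := by
    conv_lhs => rw [k1, k2]
    rw [Ty.px_add, Ty.px_ix]
  have u2 : n.py x2 y2 = py + N * n.py dx dy := by
    conv_lhs => rw [k1, k2]
    rw [Ty.py_add, Ty.py_iy]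
  have v1 : U.px X Y = px + N * U.px dx dy := by
    have e1 : X = U.ix px py + N * dx := by
      rw [eX, inst_x hI, k1, hpxd, hpyd, Ty.ix_px]
      ring
    have e2 : Y = U.iy px py + N * dy := by
      rw [eY, inst_y hI, k2, hpxd, hpyd, Ty.iy_py]
      ring
    rw [e1, e2, Ty.px_add, Ty.px_ix]
  have v2 : U.py X Y = py + N * U.py dx dy := by
    have e1 : X = U.ix px py + N * dx := by
      rw [eX, inst_x hI, k1, hpxd, hpyd, Ty.ix_px]
      ring
    have e2 : Y = U.iy px py + N * dy := by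
      rw [eY, inst_y hI, k2, hpxd, hpyd, Ty.iy_py]
      ring
    rw [e1, e2, Ty.py_add, Ty.py_iy]
  have v3 : qqn X Y - U.nq = 3 / 16 * sN U * N := by
    rw [hNd]
    unfold Nst
    linear_combination (-(qqn X Y - U.nq)) * sN_sq U
  have w1 := enc_norm (enc_pxT n hX2 hB)
  have w2 := enc_norm (enc_pyT n hX2 hB)
  have w3 := enc_norm (enc_pxT n h5 h6)
  have w4 := enc_norm (enc_pyT n h5 h6)
  have hnt : Enc E (dj (jq (cond fam b c)) B') (y2 - jq (cond fam b c)) := enc_dj _ hB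
  have ht : Enc E (dj (jq (cond fam c b)) Y') (Y - jq (cond fam c b)) := enc_dj _ hY
  obtain ⟨p0, -, -⟩ := unit_cT m2 m1
  obtain ⟨p0', -, -⟩ := unit_cT n2 n1
  obtain ⟨dk, hdk, ek⟩ := kcd_sound hx D.KC hD.kok (enc_neg w1) (enc_neg hpx) (enc_neg w3)
    (μ := N) (by rw [u1]; ring)
  rw [← hD.kf _ (by rwa [abs_neg]), ← hD.kf _ (by rwa [abs_neg])] at ek
  have hrn := enc_norm (enc_rcT Hn.inq (enc_abs hX2) hB (enc_norm (enc_sub w3 (enc_mul w4 hk)))
    hnt (enc_norm hdk))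
  obtain ⟨en, hen, eln⟩ := lvT_sound hD hx n w1 w2 hpx hpy w3 w4 n2 n1 m2 m1
    (N := N) (by rw [u1]; ring) (by rw [u2]; ring)
  have eest := excess_strip (q := qqn X Y) hI Hm.len Hn.len hex a1.ne' (by rw [eX, eY])
  rw [← hNd] at eest
  have hest := enc_esuT hI hq hE1
  have hzz : Enc E (sl fam B' Y') (cond fam y2 Y) := enc_sl fam hB hY
  rcases thi0T_sound hD hx hX hY hq ht hpx hpy hk h5 h6 HU H6 Z hN0 m2 m1 hκ v1 v2 v3 h with
    ⟨g, R, L, r, l, hR, hL, eR, eL, hf⟩ | ⟨hu2, hraw⟩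
  · -- the rows
    have G1 : Gt n (cond fam b c) |x2| y2 * (py + N * n.py dx dy - 1) = y2 - jq (cond fam b c) := by
      rw [← u2]
      exact n3
    have rown := row_val (δx := n.px dx dy) G1 hκ ek
    have eKn : Kn = (y2 - jq (cond fam b c)) * (κ0 + D.kf.v (-px) x) +
        N * (Gt n (cond fam b c) |x2| y2 * (n.px dx dy - n.py dx dy * κ0) +
          (y2 - jq (cond fam b c)) * dk) := by
      have := Hn.tK
      unfold TightK at this
      rw [this, ← rown, u1]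
    have eKm : Km = (y1 - jq a) * (κ0 + D.kf.v (-px) x) + N * 0 := by
      have := Hm.tK
      unfold TightK at this
      rw [this, ← hpxd]
      linear_combination κ0 * m3 - Gt m a |x1| y1 * hκ
    have eLm := Hm.tL.tF m2 m1
    have eLn := Hn.tL.tF n2 n1
    rw [← hpxd] at eLm
    have hla := inst_la hI
    have hlb := inst_lb hI
    cases fam
    · simp only [cond_false, eps] at *
      have eYt : y1 + Y = y2 := by rw [eY]; ring
      have htt : Enc E B' (y1 + Y) := enc_cast hB eYt.symm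
      have hfi := fiT_sound hc hx hA hzz htt hest hrn hen (enc_norm hR) hL hf
      simp only [cond_false] at hfi
      rw [abs_sub_comm en l] at hfi
      refine ⟨_, far_strip hN0 (con_rel hc Hm.iny HU.iny (by rw [eYt]; exact Hn.iny)) eest eKm eR
        ?_ (L := l - en) ?_ hfi⟩
      · rw [eYt]
        exact eKn
      · rw [eLm, eL, eLn, hla, hlb]
        linear_combination -eln
    · simp only [cond_true, eps] at *
      have eYt : y1 + y2 = Y := by rw [eY]; ring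
      have htt : Enc E Y' (y1 + y2) := enc_cast hY eYt.symm
      have hfi := fiT_sound hc hx hA hzz htt hest hrn hen (enc_norm hR) hL hf
      simp only [cond_true] at hfi
      refine ⟨_, far_strip hN0 (con_rel hc Hm.iny Hn.iny (by rw [eYt]; exact HU.iny)) eest eKm eKn
        ?_ (L := en - l) ?_ hfi⟩
      · rw [eYt]
        exact eR
      · rw [eLm, eL, eLn, hla, hlb]
        linear_combination eln
  · -- the functions themselves
    have htt : Enc E (sl fam Y' B') (y1 + cond fam y2 Y) := by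
      refine enc_cast (enc_sl fam hY hB) ?_
      cases fam
      · simp only [cond_false, eps] at *
        rw [eY]
        ring
      · simp only [cond_true, eps] at *
        rw [eY]
        ring
    obtain ⟨g, hg⟩ := rwT_sound (P := fun K L g => 0 ≤ slc cn (levF ex Lm (cond fam Ln L)
      (cond fam L Ln)) (D.kh.v x) x (y1 - jq a) (cond fam y2 Y - jq b)
      (y1 + cond fam y2 Y - jq c) Km (cond fam Kn K) (cond fam K Kn) (gar g)) hx hX hY (H6 hu2)
      (fun g K' L' k5 k6 hh => rfT_sound hc hx (enc_dj (jq a) hA) (enc_dj (jq b) hzz)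
        (enc_dj (jq c) htt) hexE r1 r2 r3 r4 k5 k6 hh) hraw
    exact ⟨_, hg⟩

end

/-! ### The alternative of the rows -/

/-- The statement of a strip test at a point. -/
def StrP0 (D : SDat) (fam s1 s2 : Bool) (m u U : Ty) (cn : Con) (a b c : ℕ) (S : Sg) (V : Vt)
    (W : Wt) (κ : Cn) (n1 n2 : Node) (p q x : ℝ) : Prop :=
  ∀ Km Lm Kn Ln KU LU X Y, D.Ok x → Zt0 D V κ x → X = sgr s2 (n2.X.v q) + eps fam * sgr s1 (n1.X.v p) →
    Y = n2.Y.v q + eps fam * n1.Y.v p →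
    NH D m a x (sgr s1 (n1.X.v p)) (n1.Y.v p) Km Lm →
    NH D u (cond fam b c) x (sgr s2 (n2.X.v q)) (n2.Y.v q) Kn Ln →
    UH D U S V (cond fam c b) x X Y KU LU → (U = .u2 → UH6 D S V W x X Y KU LU) →
    Km = sgr s1 (n1.K.v p x) → Lm = sgr s1 (n1.L.v p x) → Kn = sgr s2 (n2.K.v q x) →
    Ln = sgr s2 (n2.L.v q x) → 1 ≤ qqn X Y → qqn X Y ≤ 3 →
    ∃ γ, 0 ≤ slc cn (levF ((sgr s1 (n1.X.v p) * n2.Y.v q - sgr s2 (n2.X.v q) * n1.Y.v p) / 2 - 1 / 2)
      Lm (cond fam Ln LU) (cond fam LU Ln)) (D.kh.v x) x (n1.Y.v p - jq a)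
      (cond fam (n2.Y.v q) Y - jq b) (n1.Y.v p + cond fam (n2.Y.v q) Y - jq c) Km
      (cond fam Kn KU) (cond fam KU Kn) γ

theorem str0T_sound {E : Pt} {D : SDat} {fam s1 s2 : Bool} {m u U : Ty} {cn : Con} {a b c : ℕ}
    {S : Sg} {V : Vt} {W : Wt} {κ : Cn} {n1 n2 : Node} (hI : okI fam m u U = true)
    (hc : con a b c = some cn)
    {i A B C : ℕ} {p q x : ℝ} (hp : Enc E A p) (hq : Enc E B q) (hx : Enc E C x)
    (h : str0T D fam s1 s2 m u U cn a b c S V W κ n1 n2 i A B C = true) :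
    StrP0 D fam s1 s2 m u U cn a b c S V W κ n1 n2 p q x := by
  intro Km Lm Kn Ln KU LU X Y hD hZ eX eY Hm Hn HU H6 k1 k2 k3 k4 q1 q3
  unfold str0T at h
  simp only [frc_eq] at h
  have y1 := n1.Y.enc hp
  have y2 := n2.Y.enc hq
  have x1 := enc_sg s1 (n1.X.enc hp)
  have x2 := enc_sg s2 (n2.X.enc hq)
  exact stp0T_sound hD hI hc hx y1 y2 x1 x2 (enc_norm (enc_cast (enc_thE fam x1 x2) eX.symm))
    (enc_norm (enc_cast (enc_thE fam y1 y2) eY.symm)) eX eY rfl Hm Hn HU H6 hZ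
    (enc_cast (enc_sg s1 (n1.K.enc hp hx)) k1.symm) (enc_cast (enc_sg s2 (n2.K.enc hq hx)) k3.symm)
    (enc_cast (enc_sg s1 (n1.L.enc hp hx)) k2.symm) (enc_cast (enc_sg s2 (n2.L.enc hq hx)) k4.symm)
    q1 q3 h

/-- **Strip tests, vertical direction in the tight range**, as a further alternative. -/
noncomputable def strExt0 (D : SDat) (fam s1 s2 : Bool) (m u U : Ty) (cn : Con) (a b c : ℕ)
    (hI : okI fam m u U = true) (hc : con a b c = some cn) (S : Sg) (V : Vt) (W : Wt) (κ : Cn)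
    (n1 n2 : Node) : Ext where
  t i p q x := str0T D fam s1 s2 m u U cn a b c S V W κ n1 n2 i p q x
  P p q x := StrP0 D fam s1 s2 m u U cn a b c S V W κ n1 n2 p q x
  snd hp hq hx h := str0T_sound hI hc hp hq hx h

/-! ### From the facts about a table to the rows -/

variable {n : ℕ}

section

variable {T : STab n} {W : Wt} {i1 : Fin n} {P : Pos n} {RK RL : Fin (n + 1) → ℕ → ℝ → ℝ → ℝ}
  {pc : ℕ → Piece} {x : ℝ} {κ : ℝ} {κz : Cn} {a b c : ℕ} {cn : Con} {s1 s2 : Bool} {m u U : Ty} {n1 n2 : Node}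
  {j k : Fin (n + 1)}

/-- **Family `A`, far vertex.** -/
theorem STab.Ok6.ext0A (h6 : T.Ok6 W i1 P RK RL pc x) (hz : Zt0 T.D T.V κz x) (h : T.Ok P RK RL x)
    (hs : SideOk P RK RL pc x) (hκ : κ * h0 = ken x)
    (hc : con a b c = some cn) (hI : okI true m u U = true) (hm : NTy n j a s1 m)
    (hu : NTy n k b s2 u) (hU : U.inq c) :
    ExtA (VF κ) P RK RL pc (strExt0 T.D true s1 s2 m u U cn a b c hI hc (T.S U c) T.V W κz n1 n2)
      n1 n2 a b c j k (sgb s1) (sgb s2) x := by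
  intro y y' p p' F A1 A2 hP
  have e1 : sgr s1 (n1.X.v p) = sgb s1 * crv P j a y := by rw [A1.X, sgr_eq]
  have e2 : sgr s2 (n2.X.v p') = sgb s2 * crv P k b y' := by rw [A2.X, sgr_eq]
  have H1 := h.node hm F.on1
  have H2 := h.node hu F.on2
  have H3 := h.uh hs hU F.q3 F.len1 F.len3
  obtain ⟨γ, hγ⟩ := hP (sgb s1 * RK j a y x) (sgb s1 * RL j a y x) (sgb s2 * RK k b y' x)
    (sgb s2 * RL k b y' x) _ _ (sgb s1 * crv P j a y + sgb s2 * crv P k b y') (y + y') h.ok hz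
    (by rw [e1, e2]; simp only [eps, cond_true]; ring) (by rw [A1.Y, A2.Y]; simp only [eps, cond_true]; ring)
    (by rw [e1, A1.Y]; exact H1) (by rw [e2, A2.Y]; exact H2) H3
    (fun hu2 => by
      subst hu2
      have hc2 : c = 2 := hU
      subst hc2
      exact h6.uh6 h hs F.q3 F.len1 F.len3)
    (by rw [A1.K, sgr_eq]) (by rw [A1.L, sgr_eq]) (by rw [A2.K, sgr_eq]) (by rw [A2.L, sgr_eq])
    F.len1 F.len3
  refine F.ngv hc ⟨γ, ?_⟩
  rw [hκ]
  rw [e1, e2, A1.Y, A2.Y, h.kh] at hγ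
  simp only [cond_true] at hγ
  unfold slt lvF exA vlA exn'
  have e3 : (sgb s1 * crv P j a y * (y + y') - (sgb s1 * crv P j a y + sgb s2 * crv P k b y') * y) / 2
      - 1 / 2 = (sgb s1 * crv P j a y * y' - sgb s2 * crv P k b y' * y) / 2 - 1 / 2 := by ring
  rw [e3]
  exact hγ

/-- **Family `B`, far vertex.** -/
theorem STab.Ok6.ext0B (h6 : T.Ok6 W i1 P RK RL pc x) (hz : Zt0 T.D T.V κz x) (h : T.Ok P RK RL x)
    (hs : SideOk P RK RL pc x) (hκ : κ * h0 = ken x)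
    (hc : con a b c = some cn) (hI : okI false m u U = true) (hm : NTy n j a s1 m)
    (hu : NTy n k c s2 u) (hU : U.inq b) :
    ExtB (VF κ) P RK RL pc (strExt0 T.D false s1 s2 m u U cn a b c hI hc (T.S U b) T.V W κz n1 n2)
      n1 n2 a b c j k (sgb s1) (sgb s2) x := by
  intro y y' p p' F A1 A2 hP
  have e1 : sgr s1 (n1.X.v p) = sgb s1 * crv P j a y := by rw [A1.X, sgr_eq]
  have e2 : sgr s2 (n2.X.v p') = sgb s2 * crv P k c (y + y') := by rw [A2.X, sgr_eq]
  have H1 := h.node hm F.on1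
  have H2 := h.node hu F.on3
  have H3 := h.uh hs hU F.q2 F.len1 F.len3
  obtain ⟨γ, hγ⟩ := hP (sgb s1 * RK j a y x) (sgb s1 * RL j a y x) (sgb s2 * RK k c (y + y') x)
    (sgb s2 * RL k c (y + y') x) _ _ (sgb s2 * crv P k c (y + y') - sgb s1 * crv P j a y) y' h.ok hz
    (by rw [e1, e2]; simp only [eps, cond_false]; ring) (by rw [A1.Y, A2.Y]; simp only [eps, cond_false]; ring)
    (by rw [e1, A1.Y]; exact H1) (by rw [e2, A2.Y]; exact H2) H3
    (fun hu2 => by
      subst hu2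
      have hc2 : b = 2 := hU
      subst hc2
      exact h6.uh6 h hs F.q2 F.len1 F.len3)
    (by rw [A1.K, sgr_eq]) (by rw [A1.L, sgr_eq]) (by rw [A2.K, sgr_eq]) (by rw [A2.L, sgr_eq])
    F.len1 F.len3
  refine F.ngv hc ⟨γ, ?_⟩
  rw [hκ]
  rw [e1, e2, A1.Y, A2.Y, h.kh] at hγ
  simp only [cond_false] at hγ
  unfold slt lvF exB vlB exn'
  exact hγ

end

end Pool.Agent.Strip051.PB
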