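import Pool.Agent.Strip051.PB.StripS
import Pool.Agent.Strip051.PB.BridgeX

/-! # Unit strips near `x = 1`: directions and quotients

The kernel value of a tight side is the signed height times `κ`, a function of the direction
`(px, py)`: `κ = h0 R(t) / t` for `px ≥ 0`, `t = h0 (py / 2 - px)`, and odd; the level value is
`λ (X + la A(t) + lb A(1 - t))`. `R` and `A` are piecewise affine and quadratic in `t`. -/

namespace Pool.Agent.Strip051.PB

open Pool.Agent.StripNear Pool.Agent.StripSquare Pool.Agent.Strip051.Sweep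
open Pool.Agent.Strip051.LC

attribute [local irreducible] padd psub pneg pmul psq pinv psqrt psqrtg pabs pps pmax pmin pphi plam
  pcase phf pnat prat pscale pnorm pdc pnc pone ppos pnn Enc

/-! ### The variable of the direction -/

/-- packed `h0` -/
noncomputable def ph0 : ℕ := psqrt (t34 pone)

theorem enc_ph0 (E : Pt) : Enc E ph0 h0 := by
  refine enc_cast (enc_sqrt (enc_t34 (enc_one E))) ?_
  rw [mul_one, ← h0_sq, Real.sqrt_sq h0_pos.le]

/-- half of `1 / (1 + h0 b)` -/
noncomputable def rcR (b : ℝ) : ℝ := (1 + h0 * b)⁻¹ / 2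

/-- the variable of the direction `(a, b)` -/
noncomputable def t0R (a b : ℝ) : ℝ := 1 / 2 - a * (h0 + |a| * rcR b)

noncomputable def rcT' (h b : ℕ) : ℕ := phf (pinv (padd pone (pmul h b)))

noncomputable def t0T (h a b : ℕ) : ℕ := psub (phn 1) (pmul a (padd h (pmul (pabs a) (rcT' h b))))

section

variable {E : Pt} {h A B P Q D F : ℕ} {a b p q d f N : ℝ}

theorem enc_rcT' (hh : Enc E h h0) (hB : Enc E B b) : Enc E (rcT' h B) (rcR b) :=
  enc_half (enc_inv (enc_add (enc_one E) (enc_mul hh hB)))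

theorem enc_t0T (hh : Enc E h h0) (hA : Enc E A a) (hB : Enc E B b) :
    Enc E (t0T h A B) (t0R a b) :=
  enc_cast (enc_sub (enc_phn E 1) (enc_mul hA (enc_add hh (enc_mul (enc_abs hA) (enc_rcT' hh hB)))))
    (by unfold t0R; push_cast; ring)

theorem dir_sq (h : qqn a b = 1) : a ^ 2 = (1 - h0 * b) * (1 + h0 * b) := by
  unfold qqn at h
  have := h0_sq
  linear_combination h + b ^ 2 * this

theorem dir_b (h : qqn a b = 1) (hb : 1 ≤ b) : h0 ≤ h0 * b ∧ h0 * b ≤ 1 := by
  have hp := h0_pos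
  have h1 := dir_sq h
  have h2 : h0 ≤ h0 * b := by nlinarith
  refine ⟨h2, ?_⟩
  by_contra hh
  rw [not_le] at hh
  nlinarith [sq_nonneg a]

theorem rcR_mul (h : qqn a b = 1) (hb : 1 ≤ b) : a ^ 2 * rcR b = (1 - h0 * b) / 2 := by
  have h1 := (dir_b h hb).1
  have hp := h0_pos
  have h2 : 1 + h0 * b ≠ 0 := by linarith
  unfold rcR
  rw [dir_sq h]
  field_simp

theorem t0R_pos (h : qqn a b = 1) (hb : 1 ≤ b) (ha : 0 ≤ a) :
    t0R a b = h0 * b / 2 - h0 * a := by
  have := rcR_mul h hb
  unfold t0R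
  rw [abs_of_nonneg ha]
  linear_combination -this

theorem t0R_neg (h : qqn a b = 1) (hb : 1 ≤ b) (ha : a ≤ 0) :
    t0R a b = 1 - h0 * b / 2 - h0 * a := by
  have := rcR_mul h hb
  unfold t0R
  rw [abs_of_nonpos ha]
  linear_combination this

theorem h0_gt : (433 : ℝ) / 500 < h0 := by
  have h1 := h0_sq
  have hp := h0_pos
  nlinarith

theorem h0_lt' : h0 < (8661 : ℝ) / 10000 := by
  have h1 := h0_sq
  have hp := h0_pos
  nlinarith

/-- the odd part of the variable -/
theorem odd_diff (h1 : qqn a b = 1) (hb : 1 ≤ b) (h2 : qqn p q = 1) (hq : 1 ≤ q) (hap : p ≤ a) :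
    0 ≤ a * |a| * rcR b - p * |p| * rcR q ∧
      a * |a| * rcR b - p * |p| * rcR q ≤ (a - p) * ((|a| + |p|) * (3 / 10)) := by
  have e1 := rcR_mul h1 hb
  have e2 := rcR_mul h2 hq
  obtain ⟨l1, u1⟩ := dir_b h1 hb
  obtain ⟨l2, u2⟩ := dir_b h2 hq
  have s1 := dir_sq h1
  have s2 := dir_sq h2
  have hg := h0_gt
  set u := h0 * b with hu
  set v := h0 * q with hv
  rcases le_total 0 a with ha | ha
  · rcases le_total 0 p with hp | hp
    · rw [abs_of_nonneg ha, abs_of_nonneg hp]
      have g1 : a * a * rcR b = (1 - u) / 2 := by rw [← e1]; ring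
      have g2 : p * p * rcR q = (1 - v) / 2 := by rw [← e2]; ring
      rw [g1, g2]
      have g3 : (v - u) * (u + v) = (a - p) * (a + p) := by
        linear_combination s2 - s1
      have g4 : 0 ≤ (a - p) * (a + p) := mul_nonneg (by linarith) (by linarith)
      have g5 : 0 < u + v := by linarith
      have g6 : 0 ≤ v - u := by
        by_contra hh
        rw [not_le] at hh
        nlinarith
      constructor
      · linarith
      · nlinarith
    · rw [abs_of_nonneg ha, abs_of_nonpos hp]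
      have g1 : a * a * rcR b = (1 - u) / 2 := by rw [← e1]; ring
      have g2 : p * -p * rcR q = -((1 - v) / 2) := by rw [← e2]; ring
      rw [g1, g2]
      constructor
      · linarith
      · have g3 : (1 - u) * (3 / 5) ≤ a ^ 2 * (3 / 5) * (1000 / 1866) := by rw [s1]; nlinarith
        have g4 : (1 - v) * (3 / 5) ≤ p ^ 2 * (3 / 5) * (1000 / 1866) := by rw [s2]; nlinarith
        nlinarith [mul_nonneg ha (neg_nonneg.2 hp)]
  · have hp : p ≤ 0 := hap.trans ha
    rw [abs_of_nonpos ha, abs_of_nonpos hp]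
    have g1 : a * -a * rcR b = -((1 - u) / 2) := by rw [← e1]; ring
    have g2 : p * -p * rcR q = -((1 - v) / 2) := by rw [← e2]; ring
    rw [g1, g2]
    have g3 : (u - v) * (u + v) = (a - p) * (-a - p) := by
      linear_combination s1 - s2
    have g4 : 0 ≤ (a - p) * (-a - p) := mul_nonneg (by linarith) (by linarith)
    have g5 : 0 < u + v := by linarith
    have g6 : 0 ≤ u - v := by
      by_contra hh
      rw [not_le] at hh
      nlinarith
    constructor
    · linarith
    · nlinarith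

/-- the quotient of the variable between two directions, displacement `(d, f)` -/
noncomputable def dtT (h A P D F : ℕ) : ℕ :=
  sel2 (band (pnn A) (pnn P))
    (sel2 (band (pnn (pneg A)) (pnn (pneg P)))
      (pneg (pmul D (padd h (pmul (padd (pabs A) (pabs P)) (pscale 3 10 pu01)))))
      (pneg (padd (phf (pmul h F)) (pmul h D))))
    (psub (phf (pmul h F)) (pmul h D))

theorem sel2_case {b : Bool} {L R : ℕ} {P : ℕ → Prop} (hL : P L) (hR : b = true → P R) :
    P (sel2 b L R) := by
  cases b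
  · exact hL
  · exact hR rfl

theorem dtT_sound (hh : Enc E h h0) (hA : Enc E A a) (hP : Enc E P p) (hD : Enc E D d) (hF : Enc E F f) (h1 : qqn a b = 1) (hb : 1 ≤ b)
    (h2 : qqn p q = 1) (hq : 1 ≤ q) (e1 : a - p = N * d) (e2 : b - q = N * f) :
    ∃ v, Enc E (dtT h A P D F) v ∧ t0R a b - t0R p q = N * v := by
  unfold dtT
  refine sel2_case (P := fun Z => ∃ v, Enc E Z v ∧ t0R a b - t0R p q = N * v)
    (sel2_case (P := fun Z => ∃ v, Enc E Z v ∧ t0R a b - t0R p q = N * v) ?_ ?_) ?_
  · -- general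
    obtain ⟨θ, t0, t1, ht⟩ : ∃ θ, 0 ≤ θ ∧ θ ≤ 1 ∧
        θ * ((a - p) * ((|a| + |p|) * (3 / 10))) = a * |a| * rcR b - p * |p| * rcR q := by
      have h5 : 0 ≤ (|a| + |p|) * (3 / 10) := by positivity
      refine ⟨lamR (a * |a| * rcR b - p * |p| * rcR q) ((a - p) * ((|a| + |p|) * (3 / 10))),
        le_min (le_max_right _ _) zero_le_one, min_le_right _ _,
        lamR_mul (fun h3 => ?_) (fun h3 => ?_)⟩
      · rcases le_total p a with hap | hap
        · exact odd_diff h1 hb h2 hq hap
        · have h4 := odd_diff h2 hq h1 hb hap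
          have h6 : (p - a) * ((|p| + |a|) * (3 / 10)) = -((a - p) * ((|a| + |p|) * (3 / 10))) := by
            ring
          rw [h6] at h4
          constructor <;> linarith [h4.1, h4.2]
      · rcases le_total p a with hap | hap
        · have h4 := odd_diff h1 hb h2 hq hap
          have h6 : 0 ≤ (a - p) * ((|a| + |p|) * (3 / 10)) := mul_nonneg (by linarith) h5
          constructor <;> linarith [h4.1, h4.2]
        · have h4 := odd_diff h2 hq h1 hb hap
          have h6 : (p - a) * ((|p| + |a|) * (3 / 10)) = -((a - p) * ((|a| + |p|) * (3 / 10))) := by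
            ring
          rw [h6] at h4
          constructor <;> linarith [h4.1, h4.2]
    refine ⟨_, enc_neg (enc_mul hD (enc_add hh (enc_mul (enc_add (enc_abs hA) (enc_abs hP))
      (enc_scale 3 10 (enc_u01 E t0 t1))))), ?_⟩
    have e3 : t0R a b - t0R p q = -(h0 * (a - p) + (a * |a| * rcR b - p * |p| * rcR q)) := by
      unfold t0R
      ring
    rw [e3, ← ht]
    push_cast
    linear_combination (-(h0 + θ * ((|a| + |p|) * (3 / 10)))) * e1
  · intro hc
    obtain ⟨c1, c2⟩ := band_true hc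
    have g1 := pnn_sound (enc_neg hA) c1
    have g2 := pnn_sound (enc_neg hP) c2
    refine ⟨_, enc_neg (enc_add (enc_half (enc_mul hh hF)) (enc_mul hh hD)), ?_⟩
    rw [t0R_neg h1 hb (by linarith), t0R_neg h2 hq (by linarith)]
    linear_combination (-h0) * e1 - h0 / 2 * e2
  · intro hc
    obtain ⟨c1, c2⟩ := band_true hc
    have g1 := pnn_sound hA c1
    have g2 := pnn_sound hP c2
    refine ⟨_, enc_sub (enc_half (enc_mul hh hF)) (enc_mul hh hD), ?_⟩
    rw [t0R_pos h1 hb g1, t0R_pos h2 hq g2]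
    linear_combination (-h0) * e1 + h0 / 2 * e2

end

/-! ### Levels -/

/-- `τ` between `e` and `1 - e` -/
noncomputable def clR (e τ : ℝ) : ℝ := max (min τ (1 - e)) e

noncomputable def clT (e A : ℕ) : ℕ := pmax (pmin A (psub pone e)) e

/-- quotient of a level tree, arguments between `e` and `1 - e` -/
noncomputable def lqT (T : DT) (e A B D X : ℕ) : ℕ :=
  sel2 (band (band (pnn (psub A e)) (pnn (psub (psub pone e) A)))
      (band (pnn (psub B e)) (pnn (psub (psub pone e) B))))
    ((fun A1 B1 => kcd T A1 B1 (pmul (thT A B A1 B1) D) X) (clT e A) (clT e B))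
    (kcd T A B D X)

section

variable {E : Pt} {e A B D X : ℕ} {e' a b d x μ : ℝ}

theorem clR_eq (h1 : e' ≤ a) (h2 : a ≤ 1 - e') : clR e' a = a := by
  unfold clR
  rw [min_eq_left h2, max_eq_left h1]

theorem enc_clT (he : Enc E e e') (hA : Enc E A a) : Enc E (clT e A) (clR e' a) :=
  enc_max (enc_min hA (enc_sub (enc_one E) he)) he

theorem clR_mono (h : b ≤ a) : 0 ≤ clR e' a - clR e' b ∧ clR e' a - clR e' b ≤ a - b := by
  unfold clR
  rcases min_cases a (1 - e') with ⟨m1, n1⟩ | ⟨m1, n1⟩ <;>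
  rcases min_cases b (1 - e') with ⟨m2, n2⟩ | ⟨m2, n2⟩ <;>
  rcases max_cases (min a (1 - e')) e' with ⟨m3, n3⟩ | ⟨m3, n3⟩ <;>
  rcases max_cases (min b (1 - e')) e' with ⟨m4, n4⟩ | ⟨m4, n4⟩ <;>
    constructor <;> linarith

theorem clR_lam : lamR (clR e' a - clR e' b) (a - b) * (a - b) = clR e' a - clR e' b := by
  refine lamR_mul (fun h => clR_mono (by linarith)) (fun h => ?_)
  have := clR_mono (e' := e') (show a ≤ b by linarith)
  constructor <;> linarith [this.1, this.2]

theorem lqT_sound (T : DT) (hT : T.KOk x) (hX : Enc E X x) (he : Enc E e e') (hA : Enc E A a)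
    (hB : Enc E B b) (hD : Enc E D d) (h : a - b = μ * d) :
    ∃ v, Enc E (lqT T e A B D X) v ∧ T.kv (clR e' a) x - T.kv (clR e' b) x = μ * v := by
  unfold lqT
  refine sel2_case (P := fun Z => ∃ v, Enc E Z v ∧ T.kv (clR e' a) x - T.kv (clR e' b) x = μ * v)
    ?_ ?_
  · have h1 := enc_clT he hA
    have h2 := enc_clT he hB
    refine kcd_sound hX T hT h1 h2 (enc_mul (enc_thT hA hB h1 h2) hD) ?_
    have := clR_lam (e' := e') (a := a) (b := b)
    linear_combination -this + lamR (clR e' a - clR e' b) (a - b) * h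
  · intro hc
    obtain ⟨c1, c2⟩ := band_true hc
    obtain ⟨c3, c4⟩ := band_true c1
    obtain ⟨c5, c6⟩ := band_true c2
    have g1 := pnn_sound (enc_sub hA he) c3
    have g2 := pnn_sound (enc_sub (enc_sub (enc_one E) he) hA) c4
    have g3 := pnn_sound (enc_sub hB he) c5
    have g4 := pnn_sound (enc_sub (enc_sub (enc_one E) he) hB) c6
    rw [clR_eq (by linarith) (by linarith), clR_eq (by linarith) (by linarith)]
    exact kcd_sound hX T hT hA hB hD h

end

/-! ### The kernel -/

/-- the kernel function: a tree and a change of the slope at `e` -/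
noncomputable def ruR (T : DT) (s : Fn1) (e x t : ℝ) : ℝ := T.kv t x + s.v x * min (t - e) 0

noncomputable def rqT (T : DT) (s : Fn1) (e A B D X : ℕ) : ℕ :=
  padd (kcd T A B D X) (sel2 (band (pnn (psub A e)) (pnn (psub B e)))
    (pmul (s.t X) (pmul (thT A B (pmin A e) (pmin B e)) D)) (pdc 0 0))

/-- quotient of `h0 R(t) / t` -/
noncomputable def kpT (T : DT) (s : Fn1) (h e A B D X : ℕ) : ℕ :=
  pmul h (pmul (pnorm (psub (pmul (pnorm (rqT T s e A B D X)) B)
    (pmul (pnorm (rqT T s e B (pscale 1 5 pone) (psub B (pscale 1 5 pone)) X)) D)))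
    (pinv (pmul A B)))

/-- quotient of `κ` between two directions with the variables `A`, `B` -/
noncomputable def kqT (T : DT) (s : Fn1) (h e A B D X : ℕ) : ℕ :=
  sel2 (band (band (pnn (psub A (pscale 1 5 pone))) (pnn (psub (pscale 4 5 pone) A)))
      (band (pnn (psub B (pscale 1 5 pone))) (pnn (psub (pscale 4 5 pone) B))))
    (sel2 (band (pnn (psub (phn 1) A)) (pnn (psub (phn 1) B)))
      (sel2 (band (pnn (psub A (phn 1))) (pnn (psub B (phn 1)))) pbad
        (pneg (kpT T s h e (psub pone A) (psub pone B) (pneg D) X)))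
      (kpT T s h e A B D X)) (pdc 0 0)

/-- the kernel in the direction with the variable `t` -/
noncomputable def kaR (T : DT) (s : Fn1) (e x t : ℝ) : ℝ :=
  if t ≤ 1 / 2 then h0 * ruR T s e x t / t else -(h0 * ruR T s e x (1 - t) / (1 - t))

section

variable {E : Pt} {T : DT} {s : Fn1} {h e A B D P Q X : ℕ} {e' a b d p q x μ : ℝ}

theorem enc_dc00 (E : Pt) : Enc E (pdc 0 0) 0 :=
  enc_cast (enc_dc E 0 0) (by push_cast; simp)

theorem rqT_sound (hT : T.KOk x) (hX : Enc E X x) (he : Enc E e e') (hA : Enc E A a)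
    (hB : Enc E B b) (hD : Enc E D d) (h : a - b = μ * d) :
    ∃ v, Enc E (rqT T s e A B D X) v ∧ ruR T s e' x a - ruR T s e' x b = μ * v := by
  obtain ⟨v, hv, ev⟩ := kcd_sound hX T hT hA hB hD h
  have hm := lamR_min a b e'
  have key : min (a - e') 0 - min (b - e') 0 = min a e' - min b e' := by
    have e1 : min (a - e') 0 = min a e' - e' := by
      rw [← min_sub_sub_right, sub_self]
    have e2 : min (b - e') 0 = min b e' - e' := by
      rw [← min_sub_sub_right, sub_self]
    rw [e1, e2]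
    ring
  unfold rqT
  refine sel2_case (P := fun Z => ∃ v, Enc E (padd (kcd T A B D X) Z) v ∧
    ruR T s e' x a - ruR T s e' x b = μ * v) ?_ ?_
  · refine ⟨_, enc_add hv (enc_mul (s.enc hX) (enc_mul (enc_thT hA hB (enc_min hA he)
      (enc_min hB he)) hD)), ?_⟩
    unfold ruR
    linear_combination ev + s.v x * key - s.v x * hm +
      s.v x * lamR (min a e' - min b e') (a - b) * h
  · intro hc
    obtain ⟨c1, c2⟩ := band_true hc
    have g1 := pnn_sound (enc_sub hA he) c1
    have g2 := pnn_sound (enc_sub hB he) c2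
    refine ⟨_, enc_add hv (enc_dc00 E), ?_⟩
    unfold ruR
    rw [min_eq_right g1, min_eq_right g2]
    linear_combination ev

theorem enc_c15 (E : Pt) : Enc E (pscale 1 5 pone) (1 / 5 : ℝ) :=
  enc_cast (enc_scale 1 5 (enc_one E)) (by norm_num)

theorem enc_c45 (E : Pt) : Enc E (pscale 4 5 pone) (4 / 5 : ℝ) :=
  enc_cast (enc_scale 4 5 (enc_one E)) (by norm_num)

theorem ruR_zero (hz : ∀ t, 1 / 5 ≤ t → T.kv t x = 0) (he5 : e' ≤ 1 / 5) {t : ℝ}
    (ht : 1 / 5 ≤ t) : ruR T s e' x t = 0 := by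
  unfold ruR
  rw [hz t ht, min_eq_right (by linarith)]
  ring

theorem kpT_sound (hT : T.KOk x) (hz : ∀ t, 1 / 5 ≤ t → T.kv t x = 0) (he5 : e' ≤ 1 / 5)
    (hX : Enc E X x) (hh : Enc E h h0) (he : Enc E e e') (hA : Enc E A a) (hB : Enc E B b)
    (hD : Enc E D d) (ha : 0 < a) (hb : 0 < b) (hab : a - b = μ * d) :
    ∃ v, Enc E (kpT T s h e A B D X) v ∧
      h0 * ruR T s e' x a / a - h0 * ruR T s e' x b / b = μ * v := by
  obtain ⟨v, hv, ev⟩ := rqT_sound (s := s) hT hX he hA hB hD hab
  obtain ⟨w, hw, ew⟩ := rqT_sound (s := s) hT hX he hB (enc_c15 E) (enc_sub hB (enc_c15 E))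
    (μ := 1) (by ring)
  rw [ruR_zero hz he5 le_rfl] at ew
  refine ⟨_, enc_mul hh (enc_mul (enc_norm (enc_sub (enc_mul (enc_norm hv) hB)
    (enc_mul (enc_norm hw) hD))) (enc_inv (enc_mul hA hB))), ?_⟩
  have ha' := ha.ne'
  have hb' := hb.ne'
  have e1 : ruR T s e' x b = w := by linarith
  have e2 : ruR T s e' x a = w + μ * v := by linarith
  rw [e1, e2]
  have e3 : a = b + μ * d := by linarith
  field_simp
  rw [e3]
  ring

theorem kaR_zero (hz : ∀ t, 1 / 5 ≤ t → T.kv t x = 0) (he5 : e' ≤ 1 / 5) (h1 : 1 / 5 ≤ a)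
    (h2 : a ≤ 4 / 5) : kaR T s e' x a = 0 := by
  unfold kaR
  split_ifs with h
  · rw [ruR_zero hz he5 h1]
    simp
  · rw [ruR_zero hz he5 (by linarith)]
    simp

theorem kaR_lo (h : a ≤ 1 / 2) : kaR T s e' x a = h0 * ruR T s e' x a / a := if_pos h

theorem kaR_hi (hz : ∀ t, 1 / 5 ≤ t → T.kv t x = 0) (he5 : e' ≤ 1 / 5) (h : 1 / 2 ≤ a) :
    kaR T s e' x a = -(h0 * ruR T s e' x (1 - a) / (1 - a)) := by
  rcases h.eq_or_lt with h1 | h1
  · rw [kaR_zero hz he5 (by linarith) (by linarith), ruR_zero hz he5 (by linarith)]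
    simp
  · exact if_neg (not_le.2 h1)

theorem kqT_sound (hT : T.KOk x) (hz : ∀ t, 1 / 5 ≤ t → T.kv t x = 0) (he5 : e' ≤ 1 / 5)
    (hX : Enc E X x) (hh : Enc E h h0) (he : Enc E e e') (hA : Enc E A a) (hB : Enc E B b)
    (hD : Enc E D d) (ha : 0 < a) (hb : 0 < b) (ha1 : a < 1) (hb1 : b < 1)
    (hab : a - b = μ * d) :
    ∃ v, Enc E (kqT T s h e A B D X) v ∧ kaR T s e' x a - kaR T s e' x b = μ * v := by
  have c5 := enc_c15 E
  have c4 := enc_c45 E
  have ch : Enc E (phn 1) (1 / 2 : ℝ) := enc_cast (enc_phn E 1) (by norm_num)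
  unfold kqT
  refine sel2_case (P := fun Z => ∃ v, Enc E Z v ∧ kaR T s e' x a - kaR T s e' x b = μ * v)
    (sel2_case (P := fun Z => ∃ v, Enc E Z v ∧ kaR T s e' x a - kaR T s e' x b = μ * v)
    (sel2_case (P := fun Z => ∃ v, Enc E Z v ∧ kaR T s e' x a - kaR T s e' x b = μ * v)
      ?_ ?_) ?_) ?_
  · by_cases hμ : μ = 0
    · refine ⟨0, enc_pbad E _, ?_⟩
      have : a = b := by
        rw [hμ, zero_mul] at hab
        linarith
      rw [this, sub_self, mul_zero]
    · exact ⟨(kaR T s e' x a - kaR T s e' x b) / μ, enc_pbad E _, by field_simp⟩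
  · intro hc
    obtain ⟨c1, c2⟩ := band_true hc
    have g1 := pnn_sound (enc_sub hA ch) c1
    have g2 := pnn_sound (enc_sub hB ch) c2
    obtain ⟨v, hv, ev⟩ := kpT_sound (s := s) hT hz he5 hX hh he (enc_sub (enc_one E) hA)
      (enc_sub (enc_one E) hB) (enc_neg hD) (μ := μ) (by linarith) (by linarith)
      (by linear_combination -hab)
    refine ⟨_, enc_neg hv, ?_⟩
    rw [kaR_hi hz he5 (by linarith), kaR_hi hz he5 (by linarith)]
    linear_combination -ev
  · intro hc
    obtain ⟨c1, c2⟩ := band_true hc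
    have g1 := pnn_sound (enc_sub ch hA) c1
    have g2 := pnn_sound (enc_sub ch hB) c2
    rw [kaR_lo (by linarith), kaR_lo (by linarith)]
    exact kpT_sound hT hz he5 hX hh he hA hB hD ha hb hab
  · intro hc
    obtain ⟨c1, c2⟩ := band_true hc
    obtain ⟨c3, c4'⟩ := band_true c1
    obtain ⟨c5', c6⟩ := band_true c2
    have g1 := pnn_sound (enc_sub hA c5) c3
    have g2 := pnn_sound (enc_sub c4 hA) c4'
    have g3 := pnn_sound (enc_sub hB c5) c5'
    have g4 := pnn_sound (enc_sub c4 hB) c6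
    refine ⟨0, enc_dc00 E, ?_⟩
    rw [kaR_zero hz he5 (by linarith) (by linarith), kaR_zero hz he5 (by linarith) (by linarith)]
    ring

end

end Pool.Agent.Strip051.PB
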