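import Pool.Agent.Strip051.PB.StripXQ

/-! # Unit strips near `x = 1`: from the facts about a table to the alternative of the rows -/

namespace Pool.Agent.Strip051.PB

open Pool.Agent.StripNear Pool.Agent.StripSquare Pool.Agent.Strip051.Sweep
open Pool.Agent.Strip051.LC

attribute [local irreducible] padd psub pneg pmul psq pinv psqrt psqrtg pabs pps pmax pmin pphi plam
  pcase phf pnat prat pscale pnorm pdc pnc pone ppos pnn Enc

/-! ### Mirror images -/

section

variable {D : XDat} {t : Ty} {q : ℕ} {x X y K L : ℝ}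

theorem t0R_neg' (a b : ℝ) : t0R (-a) b = 1 - t0R a b := by
  unfold t0R
  rw [abs_neg]
  ring

theorem XDat.ka_symm (hD : D.Ok x) (t : ℝ) : D.ka x (1 - t) = -D.ka x t := by
  obtain ⟨-, p7⟩ := hD.e5
  unfold XDat.ka
  rcases le_total t (1 / 2) with h | h
  · rw [kaR_hi hD.kz p7 (show 1 / 2 ≤ 1 - t by linarith), kaR_lo h]
    congr 1
    rw [show 1 - (1 - t) = t by ring]
  · rw [kaR_lo (show 1 - t ≤ 1 / 2 by linarith), kaR_hi hD.kz p7 h]
    ring

theorem XDat.z_mir (t : Ty) (x T : ℝ) : D.z t.mir x (1 - T) = -D.z t x T := by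
  unfold XDat.z
  rw [Ty.mir_la, Ty.mir_lb, show 1 - (1 - T) = T by ring]
  ring

theorem TgX.mir (hD : D.Ok x) (h : TgX D t q x X y K L) : TgX D t.mir q x (-X) y (-K) (-L) := by
  intro h1 h2
  rw [Ty.mir_px, Ty.mir_py, t0R_neg'] at h1 h2 ⊢
  obtain ⟨e1, e2⟩ := h (by linarith) (by linarith)
  constructor
  · rw [XDat.ka_symm hD, e1]
    ring
  · rw [XDat.z_mir, e2]
    ring

theorem NHX.mir (hD : D.Ok x) (h : NHX D t q x X y K L) : NHX D t.mir q x (-X) y (-K) (-L) := by
  refine ⟨Ty.mir_inq.2 h.inq, h.iny, ?_, fun hu => ?_, h.tg.mir hD⟩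
  · rw [Ty.mir_nq, ← h.len]
    unfold qqn
    ring
  · have hu' : t ≠ .u2 := fun e => hu (Ty.mir_u2.2 e)
    rw [abs_neg, Ty.mir_sx hu']
    have := h.sgn hu'
    linarith

theorem NHX.sg (hD : D.Ok x) (s : Bool) (h : NHX D t q x X y K L) :
    NHX D (sgT s t) q x (sgb s * X) y (sgb s * K) (sgb s * L) := by
  cases s
  · have := h.mir hD
    simp only [sgb, cond_false, neg_one_mul]
    exact this
  · simp only [sgb, cond_true, one_mul]
    exact h

end

/-! ### The facts about a table -/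

/-- The data of a table. -/
structure STabX (n : ℕ) where
  D : XDat
  i0 : Fin n
  il : Fin n
  Sf : ℕ → Sg
  Sl : ℕ → Sg
  V : VX

/-- the segment next to the tight curve -/
noncomputable def STabX.S {n : ℕ} (T : STabX n) (U : Ty) (q : ℕ) : Sg :=
  cond (uT U) (T.Sf q) (T.Sl q)

variable {n : ℕ}

/-- What is known about a table. -/
structure STabX.Ok (T : STabX n) (P : Pos n) (RK RL : Fin (n + 1) → ℕ → ℝ → ℝ → ℝ) (x : ℝ) :
    Prop where
  i0 : T.i0.castSucc = 0
  il : T.il.succ = Fin.last n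
  rl : 1 < P.ρ T.il.castSucc
  ok : T.D.Ok x
  kh : T.D.kh.v x = kenE x
  tg0 : ∀ q y, OnC (0 : Fin (n + 1)) q y →
    TgX T.D (tyO q) q x (c1n y) y (RK 0 q y x) (RL 0 q y x)
  tgn : ∀ q y, InQ q y →
    TgX T.D (tyN q) q x (c3n y) y (RK (Fin.last n) q y x) (RL (Fin.last n) q y x)
  f0 : ∀ q y, InQ q y → (T.Sf q).f.v y = crv P T.i0.succ q y
  fn : ∀ q y, InQ q y → (T.Sl q).f.v y = crv P T.il.castSucc q y
  sK0 : ∀ q y, OnC (0 : Fin (n + 1)) q y → c1n y < crv P T.i0.succ q y →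
    (T.Sf q).SK.v y x * (crv P T.i0.succ q y - c1n y) = RK T.i0.succ q y x - RK 0 q y x
  sX0 : ∀ q y, OnC (0 : Fin (n + 1)) q y → c1n y < crv P T.i0.succ q y →
    T.D.la.v x * (1 + (T.Sf q).SX.v y x) * (crv P T.i0.succ q y - c1n y) =
      RL T.i0.succ q y x - RL 0 q y x
  sKn : ∀ q y, InQ q y → crv P T.il.castSucc q y < c3n y →
    (T.Sl q).SK.v y x * (c3n y - crv P T.il.castSucc q y) =
      RK (Fin.last n) q y x - RK T.il.castSucc q y x
  sXn : ∀ q y, InQ q y → crv P T.il.castSucc q y < c3n y →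
    T.D.la.v x * (1 + (T.Sl q).SX.v y x) * (c3n y - crv P T.il.castSucc q y) =
      RL (Fin.last n) q y x - RL T.il.castSucc q y x
  k5 : 1 / 5 ≤ T.V.k5.v
  yb : 0 ≤ T.V.yb.v ∧ 1 ≤ 3 / 4 * T.V.yb.v ^ 2
  mid : ∀ v, |v| ≤ 1 / 2 - T.V.k5.v →
    T.D.z .u2 x (1 / 2 - v) = -(T.V.m1.v x * v) + T.V.m2.v x * (v * |v|)
  cya : ∀ y, T.V.ya.v ≤ y → c1n y * (h0 + c1n y * (268 / 1000)) ≤ 1 / 2 - T.V.k5.v
  vK : ∀ y, InQ 2 y → T.V.ya.v ≤ y → y ≤ T.V.yk.v → RK T.i0.succ 2 y x = 0
  vL : ∀ y, InQ 2 y → T.V.ya.v ≤ y → y ≤ T.V.yk.v →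
    RL T.i0.succ 2 y x = T.D.la.v x * (crv P T.i0.succ 2 y *
      (1 - h0 * T.V.m1.v x + T.V.s.v x * max (y - T.V.yb.v) 0))

section

variable {T : STabX n} {P : Pos n} {RK RL : Fin (n + 1) → ℕ → ℝ → ℝ → ℝ} {pc : ℕ → Piece} {x : ℝ}

theorem STabX.Ok.nh0 (h : T.Ok P RK RL x) {q : ℕ} {y : ℝ} (hy : OnC (0 : Fin (n + 1)) q y) :
    NHX T.D (tyO q) q x (c1n y) y (RK 0 q y x) (RL 0 q y x) := by
  have h2 := on_sq hy.1.nonneg (hy.2 rfl)
  refine ⟨?_, hy.1, ?_, ?_, h.tg0 q y hy⟩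
  · rcases onC_q hy with rfl | rfl | rfl
    · exact Or.inl rfl
    · exact Or.inr rfl
    · rfl
  · unfold qqn
    rw [c1n_sq h2.le]
    rcases onC_q hy with rfl | rfl | rfl <;> simp only [tyO, Ty.nq] <;> ring
  · intro _
    rw [abs_of_nonneg (c1n_nn y)]
    rcases onC_q hy with rfl | rfl | rfl <;> simp only [tyO, Ty.sx] <;> ring

theorem STabX.Ok.nhn (h : T.Ok P RK RL x) {q : ℕ} {y : ℝ} (hy : InQ q y) :
    NHX T.D (tyN q) q x (c3n y) y (RK (Fin.last n) q y x) (RL (Fin.last n) q y x) := by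
  have e := c3n_pos hy.nonneg hy.le_two
  refine ⟨?_, hy, ?_, ?_, h.tgn q y hy⟩
  · match q, hy with
    | 0, _ => exact Or.inl rfl
    | 1, _ => exact Or.inr rfl
    | 2, _ => exact Or.inl rfl
    | 3, _ => exact Or.inr rfl
  · unfold qqn
    rw [e]
    match q, hy with
    | 0, _ => simp only [tyN, Ty.nq]; ring
    | 1, _ => simp only [tyN, Ty.nq]; ring
    | 2, _ => simp only [tyN, Ty.nq]; ring
    | 3, _ => simp only [tyN, Ty.nq]; ring
  · intro _
    rw [abs_of_nonneg (c3n_nn y)]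
    match q, hy with
    | 0, _ => simp only [tyN, Ty.sx]; ring
    | 1, _ => simp only [tyN, Ty.sx]; ring
    | 2, _ => simp only [tyN, Ty.sx]; ring
    | 3, _ => simp only [tyN, Ty.sx]; ring

/-- The values at the vertical direction on the first curve. -/
theorem STabX.Ok.c0 (h : T.Ok P RK RL x) (pK : Pins P RK x) (pL : Pins P RL x) {y : ℝ}
    (hq : InQ 2 y) (h1 : T.V.ya.v ≤ y) :
    RK 0 2 y x = 0 ∧ RL 0 2 y x = T.D.la.v x * (c1n y - h0 * T.V.m1.v x * c1n y +
      c1n y ^ 2 * GR (T.V.m1.v x) (T.V.m2.v x) (c1n y)) := by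
  rcases lt_or_ge (h0 * y) 1 with hlt | hge
  · have hon : OnC (0 : Fin (n + 1)) 2 y := ⟨hq, fun _ => hlt⟩
    have hn := h.nh0 hon
    obtain ⟨g1, g2⟩ := hn.ge
    have htg := hn.tg
    unfold TgX at htg
    simp only [tyO, Ty.px, Ty.py] at g1 g2 htg
    have hc0 := c1n_nn y
    have hca := h.cya y h1
    have hk5 := h.k5
    have hrc : 0 ≤ rcR y ∧ rcR y ≤ 268 / 1000 := by
      rw [rcR_eq g2 g1, abs_of_nonneg hc0]
      obtain ⟨r0, r1, -, -⟩ := rsR_bd hc0 (by
        have := (unit_cT g2 g1).1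
        rwa [abs_of_nonneg hc0] at this)
      exact ⟨r0, r1⟩
    have hg := h0_pos
    have hv0 : 0 ≤ c1n y * (h0 + c1n y * rcR y) :=
      mul_nonneg hc0 (add_nonneg hg.le (mul_nonneg hc0 hrc.1))
    have hv1 : c1n y * (h0 + c1n y * rcR y) ≤ 1 / 2 - T.V.k5.v := by
      refine le_trans (mul_le_mul_of_nonneg_left ?_ hc0) hca
      have := mul_le_mul_of_nonneg_left hrc.2 hc0
      linarith
    have eT : t0R (c1n y) y = 1 / 2 - c1n y * (h0 + c1n y * rcR y) := by
      unfold t0R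
      rw [abs_of_nonneg hc0]
    have e5 := h.ok.e5
    have e45 : e4R x ≤ 1 / 5 := by
      have h3 := h.ok.x1
      have h4 := h.ok.x0
      have h5 := h0_lt'
      unfold e4R
      nlinarith
    obtain ⟨tK, tL⟩ := htg (by rw [eT]; linarith) (by rw [eT]; linarith)
    constructor
    · rw [tK]
      have : T.D.ka x (t0R (c1n y) y) = 0 :=
        kaR_zero h.ok.kz e5.2 (by rw [eT]; linarith) (by rw [eT]; linarith)
      rw [this, mul_zero]
    · have hm := h.mid (c1n y * (h0 + c1n y * rcR y)) (by rw [abs_of_nonneg hv0]; exact hv1)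
      rw [tL, eT, hm, abs_of_nonneg hv0]
      have er := rcR_eq g2 g1
      rw [abs_of_nonneg hc0] at er
      unfold GR
      rw [← er]
      ring
  · rw [pK.one 2 y hq hge, pL.one 2 y hq hge, c1n_off hge]
    constructor <;> ring

/-- **The facts about the third side.** -/
theorem STabX.Ok.uh (h : T.Ok P RK RL x) (pK : Pins P RK x) (pL : Pins P RL x)
    (thK : ∀ q X y, InQ q y → 1 ≤ qqn X y → qqn X y ≤ 3 → thd P RK q X y x = (pc q).K.v X y x)
    (thL : ∀ q X y, InQ q y → 1 ≤ qqn X y → qqn X y ≤ 3 → thd P RL q X y x = (pc q).L.v X y x)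
    {U : Ty} {q : ℕ} {X Y : ℝ} (hU : U.inq q) (hq : InQ q Y) (k1 : 1 ≤ qqn X Y)
    (k3 : qqn X Y ≤ 3) :
    UHX T.D U (T.S U q) T.V q x X Y ((pc q).K.v X Y x) ((pc q).L.v X Y x) := by
  have eK := thK q X Y hq k1 k3
  have eL := thL q X Y hq k1 k3
  rw [← eK, ← eL]
  refine ⟨hU, hq, ?_, ?_, fun _ => h.mid, fun _ => h.yb, fun _ => h.k5⟩
  · intro b hb a0 a1 a2 a3
    cases hu : uT U
    · -- length `√3`
      have hn : U.nq = 3 := by rcases uT_iff U with ⟨e1, -, -⟩ | ⟨-, e2, -⟩ <;> simp_all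
      have ec : cuR U Y = c3n Y := by unfold cuR c3n; rw [hn]
      have eS : T.S U q = T.Sl q := by unfold STabX.S; rw [hu]; rfl
      rw [ec, eS]
      have a2' := a2 hu
      rw [eS, h.fn q Y hq] at a2'
      have hpos : 0 < sgr b X := by
        rcases a0.eq_or_lt with h0 | h0
        · exfalso
          have hY2 : Y < 2 := by
            rcases hq.le_two.eq_or_lt with h4 | h4
            · rw [h4, hn] at a3
              norm_num at a3
            · exact h4
          have h5 := crv_lo (P := P) T.il.castSucc hq h.rl hY2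
          rw [← h0] at a2'
          linarith
        · exact h0
      have m' := (h.nhn hq).sg h.ok b
      rw [sgT_N hu hU hb] at m'
      have sL := seg_last (s := T.D.la.v x * (1 + (T.Sl q).SX.v Y x)) pL h.il h.rl hq k1 k3 hpos
        a2' (h.sXn q Y hq)
      refine ⟨_, _, ?_, seg_last pK h.il h.rl hq k1 k3 hpos a2' (h.sKn q Y hq), by
        rw [sL]; ring⟩
      rw [← sgb_mul, ← sgb_mul, ← sgb_mul]
      exact m'.tg
    · have hn : U.nq = 1 := by rcases uT_iff U with ⟨-, e2, -⟩ | ⟨e1, -, -⟩ <;> simp_all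
      have ec : cuR U Y = c1n Y := by unfold cuR c1n; rw [hn]
      have eS : T.S U q = T.Sf q := by unfold STabX.S; rw [hu]; rfl
      rw [ec, eS]
      have a1' := a1 hu
      rw [eS, h.f0 q Y hq] at a1'
      rw [hn] at a3
      have hpos : 0 < sgr b X := by
        rcases a0.eq_or_lt with h0 | h0
        · exfalso
          have hX : X = 0 := by
            rw [← sgu_sgr b X, ← h0]
            cases b <;> simp [sgr]
          rw [hX] at k1
          unfold qqn at k1
          linarith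
        · exact h0
      have hon : OnC (0 : Fin (n + 1)) q Y := by
        refine ⟨hq, fun _ => ?_⟩
        by_contra hh
        have := off_sq (not_lt.1 hh)
        linarith
      have m' := (h.nh0 hon).sg h.ok b
      rw [sgT_O hu hU hb] at m'
      have sL := (seg_first (s := T.D.la.v x * (1 + (T.Sf q).SX.v Y x)) pL h.i0 hq k1 k3 hpos a1'
        (h.sX0 q Y hon)).1
      refine ⟨_, _, ?_, (seg_first pK h.i0 hq k1 k3 hpos a1' (h.sK0 q Y hon)).1, by
        rw [sL]; ring⟩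
      rw [← sgb_mul, ← sgb_mul, ← sgb_mul]
      exact m'.tg
  · intro hu b a0 a1 a2 a3 a4
    subst hu
    have hq2 : q = 2 := hU
    subst hq2
    have eS : T.S .u2 2 = T.Sf 2 := rfl
    rw [eS] at a1 a4 ⊢
    have ef := h.f0 2 Y hq
    rw [ef] at a1 a4 ⊢
    obtain ⟨K0, L0⟩ := h.c0 pK pL hq a2
    have K1 := h.vK Y hq a2 a3
    have L1 := h.vL Y hq a2 a3
    have hfc : 0 < crv P T.i0.succ 2 Y - c1n Y := by linarith
    have hi := inv_mul_cancel₀ hfc.ne'
    -- the value for positive abscissae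
    have hcX : c1n Y ≤ sgr b X := by
      have e1 := c1n_le k1
      rwa [← abs_sgr b X, abs_of_nonneg a0] at e1
    have e1 : crv P T.i0.castSucc 2 Y = c1n Y := by rw [h.i0, crv_O]
    have mK := thd_seg pK hq T.i0 (X := sgr b X) (by rwa [qqn_sgr]) (by rwa [qqn_sgr])
      (by rw [e1]; exact hcX) a1
    have mL := thd_seg pL hq T.i0 (X := sgr b X) (by rwa [qqn_sgr]) (by rwa [qqn_sgr])
      (by rw [e1]; exact hcX) a1
    rw [e1, h.i0, K0, K1] at mK
    rw [e1, h.i0, L0, L1] at mL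
    have mK' : thd P RK 2 (sgr b X) Y x = 0 := by rw [mK]; ring
    -- above the flat part the first curve is empty
    have htop : max (Y - T.V.yb.v) 0 * c1n Y = 0 := by
      rcases le_total Y T.V.yb.v with hY | hY
      · rw [max_eq_right (by linarith), zero_mul]
      · have hc : c1n Y = 0 := by
          apply Real.sqrt_eq_zero_of_nonpos
          obtain ⟨b0, b1⟩ := h.yb
          nlinarith
        rw [hc, mul_zero]
    have mL' : thd P RL 2 (sgr b X) Y x = T.D.la.v x * (sgr b X - h0 * T.V.m1.v x * sgr b X +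
        c1n Y ^ 2 * GR (T.V.m1.v x) (T.V.m2.v x) (c1n Y) *
          ((crv P T.i0.succ 2 Y - sgr b X) / (crv P T.i0.succ 2 Y - c1n Y)) +
        T.V.s.v x * max (Y - T.V.yb.v) 0 * sgr b X) := by
      rw [mL]
      set f := crv P T.i0.succ 2 Y with hf
      set c := c1n Y with hcd
      set s := sgr b X with hsd
      rw [div_eq_mul_inv, div_eq_mul_inv]
      have hne : (f - c) * (f - c)⁻¹ = 1 := mul_inv_cancel₀ hfc.ne'
      linear_combination (T.D.la.v x * ((s - c) * (1 - h0 * T.V.m1.v x) -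
        c ^ 2 * GR (T.V.m1.v x) (T.V.m2.v x) c + T.V.s.v x * max (Y - T.V.yb.v) 0 * s)) * hne +
        T.D.la.v x * T.V.s.v x * ((s - f) * (f - c)⁻¹) * htop
    rcases a0.eq_or_lt with h0' | h0'
    · -- zero abscissa
      have hX : X = 0 := by
        rw [← sgu_sgr b X, ← h0']
        cases b <;> simp [sgr]
      have hc : c1n Y = 0 := le_antisymm (by rw [← h0'] at hcX; exact hcX) (c1n_nn Y)
      rw [← h0'] at mK' mL'
      rw [hX, mK', mL', hc]
      have e2 : sgr b 0 = 0 := by cases b <;> simp [sgr]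
      refine ⟨rfl, ?_⟩
      rw [e2]
      have e3 : sgr b (0 ^ 2 * GR (T.V.m1.v x) (T.V.m2.v x) 0 *
          ((crv P T.i0.succ 2 Y - 0) / (crv P T.i0.succ 2 Y - 0))) = 0 := by
        cases b <;> simp [sgr]
      rw [e3]
      ring
    · rw [thd_sgr h0', thd_sgr (R := RL) h0', mK', mL']
      constructor
      · cases b <;> simp [sgr]
      · cases b
        · show -_ = T.D.la.v x * (X - _ * X + -_ + _ * X)
          show -(T.D.la.v x * (-X - h0 * T.V.m1.v x * -X + _ + T.V.s.v x * max (Y - T.V.yb.v) 0 *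
            -X)) = _
          ring
        · rfl

end

end Pool.Agent.Strip051.PB
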