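import Pool.Agent.Strip051.PB.StripX

/-! # Unit strips near `x = 1`: the test -/

namespace Pool.Agent.Strip051.PB

open Pool.Agent.StripNear Pool.Agent.StripSquare Pool.Agent.Strip051.Sweep
open Pool.Agent.Strip051.LC

attribute [local irreducible] padd psub pneg pmul psq pinv psqrt psqrtg pabs pps pmax pmin pphi plam
  pcase phf pnat prat pscale pnorm pdc pnc pone ppos pnn Enc

/-- kernel tree, change of its slope, level tree, level factor, factor of the kernel -/
structure XDat where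
  KR : DT
  sR : Fn1
  LT : DT
  la : Fn1
  kh : Kh

/-- `5 / 2` of the rest times `h0` -/
noncomputable def e5R (x : ℝ) : ℝ := 5 / 2 * (h0 * (1 - x))

/-- `11 / 5` of the rest times `h0` -/
noncomputable def e4R (x : ℝ) : ℝ := 11 / 5 * (h0 * (1 - x))

/-- `167 / 50` of the rest times `h0` -/
noncomputable def e3R (x : ℝ) : ℝ := 167 / 50 * (h0 * (1 - x))

noncomputable def XDat.ka (D : XDat) (x t : ℝ) : ℝ := kaR D.KR D.sR (e5R x) x t

noncomputable def XDat.lv (D : XDat) (x t : ℝ) : ℝ := D.LT.kv (clR (e3R x) t) x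

noncomputable def XDat.z (D : XDat) (t : Ty) (x T : ℝ) : ℝ := t.la * D.lv x T + t.lb * D.lv x (1 - T)

structure XDat.Ok (D : XDat) (x : ℝ) : Prop where
  kr : D.KR.KOk x
  kz : ∀ t, 1 / 5 ≤ t → D.KR.kv t x = 0
  lt : D.LT.KOk x
  x1 : x < 1
  x0 : 39 / 40 ≤ x

theorem XDat.Ok.e5 {D : XDat} {x : ℝ} (h : D.Ok x) : 0 < e5R x ∧ e5R x ≤ 1 / 5 := by
  have h1 := h.x1
  have h2 := h.x0
  have h3 := h0_pos
  have h4 := h0_lt'
  unfold e5R
  constructor
  · have : 0 < 1 - x := by linarith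
    positivity
  · nlinarith

theorem XDat.Ok.e4 {D : XDat} {x : ℝ} (h : D.Ok x) : 0 < e4R x := by
  have h1 := h.x1
  have h3 := h0_pos
  have : 0 < 1 - x := by linarith
  unfold e4R
  positivity

/-- quotient of the level of a side -/
noncomputable def lvX (T : DT) (t : Ty) (e A B D X : ℕ) : ℕ :=
  (fun l r => Ty.rec (motive := fun _ => ℕ) l (psub l r) (pneg r) (padd l r)
    (psub (padd l l) r) (psub (pneg l) r) (psub l (padd r r)) t)
  (lqT T e A B D X) (lqT T e (psub pone A) (psub pone B) (pneg D) X)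

theorem lvX_sound {E : Pt} {D : XDat} {x a b d N : ℝ} {X A B F e : ℕ} (hD : D.Ok x)
    (hX : Enc E X x) (he : Enc E e (e3R x)) (t : Ty) (hA : Enc E A a) (hB : Enc E B b)
    (hF : Enc E F d) (h : a - b = N * d) :
    ∃ v, Enc E (lvX D.LT t e A B F X) v ∧ D.z t x a - D.z t x b = N * v := by
  obtain ⟨l, hl, el⟩ := lqT_sound D.LT hD.lt hX he hA hB hF h
  obtain ⟨r, hr, er⟩ := lqT_sound D.LT hD.lt hX he (enc_sub (enc_one E) hA)
    (enc_sub (enc_one E) hB) (enc_neg hF) (μ := N) (by linear_combination -h)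
  unfold XDat.z XDat.lv
  cases t <;> simp only [Ty.la, Ty.lb]
  · exact ⟨l, hl, by linear_combination el⟩
  · exact ⟨_, enc_sub hl hr, by linear_combination el - er⟩
  · exact ⟨_, enc_neg hr, by linear_combination -er⟩
  · exact ⟨_, enc_add hl hr, by linear_combination el + er⟩
  · exact ⟨_, enc_sub (enc_add hl hl) hr, by linear_combination 2 * el - er⟩
  · exact ⟨_, enc_sub (enc_neg hl) hr, by linear_combination -el - er⟩
  · exact ⟨_, enc_sub hl (enc_add hr hr), by linear_combination el - 2 * er⟩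

/-! ### The third side near the vertical direction -/

/-- The flat segment of the first curve is from `ya` to `yb`; it is linear from `yb` to `yk` with
slope `s`; the level tree is quadratic next to the middle, between `k5` and `1 - k5`. -/
structure VX where
  (ya yb yk k5 : Cn)
  (m1 m2 s : Fn1)

noncomputable def rsR (s : ℝ) : ℝ := (1 + Real.sqrt (1 - s ^ 2))⁻¹ / 2

/-- quadratic coefficient of the level at the vertical direction -/
noncomputable def GR (m1 m2 s : ℝ) : ℝ := m2 * (h0 + s * rsR s) ^ 2 - m1 * rsR s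

theorem rsR_bd {s : ℝ} (h0 : 0 ≤ s) (h1 : s ≤ 1 / 2) :
    0 ≤ rsR s ∧ rsR s ≤ 268 / 1000 ∧ (866 : ℝ) / 1000 ≤ Real.sqrt (1 - s ^ 2) ∧
      Real.sqrt (1 - s ^ 2) ^ 2 = 1 - s ^ 2 := by
  have h2 : (866 : ℝ) / 1000 ≤ Real.sqrt (1 - s ^ 2) := by
    apply Real.le_sqrt_of_sq_le
    nlinarith
  have h3 : Real.sqrt (1 - s ^ 2) ^ 2 = 1 - s ^ 2 := Real.sq_sqrt (by nlinarith)
  have h4 : 0 < 1 + Real.sqrt (1 - s ^ 2) := by linarith
  refine ⟨?_, ?_, h2, h3⟩
  · unfold rsR
    positivity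
  · unfold rsR
    rw [div_le_iff₀ (by norm_num), inv_le_comm₀ h4 (by norm_num)]
    norm_num
    linarith

theorem rsR_lip {s r : ℝ} (h0 : 0 ≤ s) (h1 : s ≤ 1 / 2) (h2 : 0 ≤ r) (h3 : r ≤ 1 / 2) :
    |rsR s - rsR r| ≤ |s - r| / 12 := by
  obtain ⟨-, -, a1, a2⟩ := rsR_bd h0 h1
  obtain ⟨-, -, b1, b2⟩ := rsR_bd h2 h3
  set u := Real.sqrt (1 - s ^ 2) with hu
  set v := Real.sqrt (1 - r ^ 2) with hv
  have c1 : 0 < 1 + u := by linarith
  have c2 : 0 < 1 + v := by linarith
  have c3 : 0 < u + v := by linarith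
  have e : rsR s - rsR r = (s - r) * ((s + r) / (2 * (u + v) * ((1 + u) * (1 + v)))) := by
    unfold rsR
    rw [← hu, ← hv]
    field_simp
    linear_combination b2 - a2
  rw [e, abs_mul]
  have d1 : 0 ≤ (s + r) / (2 * (u + v) * ((1 + u) * (1 + v))) := by positivity
  have d2 : (s + r) / (2 * (u + v) * ((1 + u) * (1 + v))) ≤ 1 / 12 := by
    rw [div_le_div_iff₀ (by positivity) (by norm_num)]
    have : (3482 : ℝ) / 1000 ≤ (1 + u) * (1 + v) := by nlinarith
    have : (3464 : ℝ) / 1000 * (3482 / 1000) ≤ 2 * (u + v) * ((1 + u) * (1 + v)) := by nlinarith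
    nlinarith
  rw [abs_of_nonneg d1]
  have := abs_nonneg (s - r)
  nlinarith

theorem GR_lip {m1 m2 s r : ℝ} (h0' : 0 ≤ s) (h1 : s ≤ 1 / 2) (h2 : 0 ≤ r) (h3 : r ≤ 1 / 2) :
    |GR m1 m2 s - GR m1 m2 r| ≤ (|m1| / 12 + 5 / 8 * |m2|) * |s - r| := by
  have hl := rsR_lip h0' h1 h2 h3
  obtain ⟨a0, a1, -, -⟩ := rsR_bd h0' h1
  obtain ⟨b0, b1, -, -⟩ := rsR_bd h2 h3
  have hg := h0_lt'
  have hp := h0_pos
  have e : GR m1 m2 s - GR m1 m2 r = m2 * ((s * rsR s - r * rsR r) * (2 * h0 + s * rsR s +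
      r * rsR r)) - m1 * (rsR s - rsR r) := by
    unfold GR
    ring
  have k1 : |s * rsR s - r * rsR r| ≤ |s - r| * (3097 / 10000) := by
    have : s * rsR s - r * rsR r = (s - r) * rsR s + r * (rsR s - rsR r) := by ring
    rw [this]
    refine (abs_add_le _ _).trans ?_
    rw [abs_mul, abs_mul, abs_of_nonneg a0, abs_of_nonneg h2]
    have c := abs_nonneg (s - r)
    nlinarith [abs_nonneg (rsR s - rsR r)]
  have k2 : |2 * h0 + s * rsR s + r * rsR r| ≤ 20002 / 10000 := by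
    have d1 : 0 ≤ s * rsR s := mul_nonneg h0' a0
    have d2 : 0 ≤ r * rsR r := mul_nonneg h2 b0
    have d3 : s * rsR s ≤ 134 / 1000 := by nlinarith
    have d4 : r * rsR r ≤ 134 / 1000 := by nlinarith
    rw [abs_of_nonneg (by linarith)]
    linarith
  have k3 : |(s * rsR s - r * rsR r) * (2 * h0 + s * rsR s + r * rsR r)| ≤ |s - r| * (5 / 8) := by
    rw [abs_mul]
    have c := abs_nonneg (s - r)
    have c1 := abs_nonneg (s * rsR s - r * rsR r)
    have c2 := abs_nonneg (2 * h0 + s * rsR s + r * rsR r)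
    calc _ ≤ |s - r| * (3097 / 10000) * (20002 / 10000) :=
          mul_le_mul k1 k2 c2 (by positivity)
      _ ≤ _ := by nlinarith
  rw [e]
  refine (abs_sub _ _).trans ?_
  rw [abs_mul m2, abs_mul m1]
  have c := abs_nonneg (s - r)
  have m1n := abs_nonneg m1
  have m2n := abs_nonneg m2
  have t1 : |m2| * |(s * rsR s - r * rsR r) * (2 * h0 + s * rsR s + r * rsR r)| ≤
      |m2| * (|s - r| * (5 / 8)) := mul_le_mul_of_nonneg_left k3 m2n
  have t2 : |m1| * |rsR s - rsR r| ≤ |m1| * (|s - r| / 12) := mul_le_mul_of_nonneg_left hl m1n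
  nlinarith

/-- the facts about the lengths at the vertical direction: `s` is the abscissa of the third side,
`P` the one of the base direction, `c` the one of the curve -/
theorem ver_core {s P c w q1 N δ M : ℝ}
    (hq : q1 = 3 / 16 * N) (hw : w * q1 = s ^ 2 - c ^ 2) (hP : s - P = N * δ)
    (hM : (s - P) * M = s ^ 2 - P * |P|) :
    c ^ 2 - P * |P| = N * (δ * M - 3 / 16 * w) ∧
      |c ^ 2 - P ^ 2| ≤ |N * (δ * M - 3 / 16 * w)| := by
  have h1 : c ^ 2 - P * |P| = N * (δ * M - 3 / 16 * w) := by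
    rw [hq] at hw
    linear_combination hw - hM + M * hP
  refine ⟨h1, ?_⟩
  rw [← h1]
  rcases le_total 0 P with h | h
  · rw [abs_of_nonneg h]
    apply le_of_eq
    congr 1
    ring
  · rw [abs_of_nonpos h]
    have h2 : 0 ≤ c ^ 2 - P * -P := by nlinarith [sq_nonneg c, sq_nonneg P]
    rw [abs_of_nonneg h2, abs_le]
    constructor <;> nlinarith [sq_nonneg c, sq_nonneg P]

end Pool.Agent.Strip051.PB
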