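import Pool.Agent.Strip051.PB.StripXP
import Pool.Agent.Strip051.PB.StripF

/-! # Unit strips near `x = 1`: the step -/

namespace Pool.Agent.Strip051.PB

open Pool.Agent.StripNear Pool.Agent.StripSquare Pool.Agent.Strip051.Sweep
open Pool.Agent.Strip051.LC

attribute [local irreducible] padd psub pneg pmul psq pinv psqrt psqrtg pabs pps pmax pmin pphi plam
  pcase phf pnat prat pscale pnorm pdc pnc pone ppos pnn Enc

/-! ### The third side near the vertical direction, real side -/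

theorem lamR_mem (n d : ℝ) : 0 ≤ lamR n d ∧ lamR n d ≤ 1 :=
  ⟨le_min (le_max_right _ _) zero_le_one, min_le_right _ _⟩

/-- a number between `-B` and `B` -/
theorem ex_sgn {e B : ℝ} (h : |e| ≤ B) : ∃ u, 0 ≤ u ∧ u ≤ 1 ∧ e = (2 * u - 1) * B := by
  have hB := (abs_nonneg e).trans h
  obtain ⟨h1, h2⟩ := abs_le.1 h
  rcases hB.eq_or_lt with h0 | h0
  · refine ⟨0, le_rfl, zero_le_one, ?_⟩
    rw [← h0] at h1 h2 ⊢
    linarith
  · refine ⟨(e / B + 1) / 2, ?_, ?_, ?_⟩
    · have : -1 ≤ e / B := by rw [le_div_iff₀ h0]; linarith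
      linarith
    · have : e / B ≤ 1 := by rw [div_le_one h0]; linarith
      linarith
    · field_simp
      ring

/-- a quotient -/
theorem ex_quo {N B v : ℝ} (hN : 0 ≤ N) (hB : 0 ≤ B) (h : |v| ≤ N * B) :
    ∃ e, v = N * e ∧ |e| ≤ B := by
  rcases hN.eq_or_lt with h0 | h0
  · rw [← h0, zero_mul] at h
    refine ⟨0, ?_, by rwa [abs_zero]⟩
    rw [abs_nonpos_iff.1 h]
    ring
  · refine ⟨v / N, by field_simp, ?_⟩
    rw [abs_div, abs_of_pos h0, div_le_iff₀ h0]
    linarith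

theorem ex_M {s P : ℝ} (hs : 0 ≤ s) :
    ∃ u, 0 ≤ u ∧ u ≤ 1 ∧ (s - P) * ((s + |P|) * ((1 + u) / 2)) = s ^ 2 - P * |P| := by
  rcases le_total 0 P with h | h
  · refine ⟨1, zero_le_one, le_rfl, ?_⟩
    rw [abs_of_nonneg h]
    ring
  · rw [abs_of_nonpos h]
    have h1 : 0 ≤ s - P := by linarith
    rcases h1.eq_or_lt with h0 | h0
    · refine ⟨0, le_rfl, zero_le_one, ?_⟩
      have e1 : s = 0 := by linarith
      have e2 : P = 0 := by linarith
      rw [e1, e2]
      ring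
    · refine ⟨2 * (s ^ 2 + P ^ 2) / (s - P) ^ 2 - 1, ?_, ?_, ?_⟩
      · rw [sub_nonneg, le_div_iff₀ (by positivity)]
        nlinarith [sq_nonneg (s + P)]
      · rw [sub_le_iff_le_add, div_le_iff₀ (by positivity)]
        nlinarith
      · field_simp
        ring

theorem ver_main {s P c f w q1 N δ M m1 m2 : ℝ} (hs : 0 ≤ s) (hc0 : 0 ≤ c) (hcs : c ≤ s)
    (hsf : s ≤ f) (hcf : c < f) (hN : 0 ≤ N) (hq : q1 = 3 / 16 * N)
    (hw : w * q1 = s ^ 2 - c ^ 2) (hP : s - P = N * δ)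
    (hM : (s - P) * M = s ^ 2 - P * |P|) (hc : c ≤ 1 / 2) (hP2 : |P| ≤ 1 / 2) :
    ∃ u e, 0 ≤ u ∧ u ≤ 1 ∧ |e| ≤ c * (|m1| / 12 + 5 / 8 * |m2|) * |δ * M - 3 / 16 * w| ∧
      c ^ 2 * GR m1 m2 c * ((f - s) / (f - c)) - P * |P| * GR m1 m2 |P| =
        N * (GR m1 m2 |P| * (δ * M - 3 / 16 * w - 3 / 16 * w * u * (c / 2 * (f - c)⁻¹)) + e) := by
  obtain ⟨v1, v2⟩ := ver_core hq hw hP hM
  have hfc : 0 < f - c := by linarith
  have hi := inv_mul_cancel₀ hfc.ne'
  set L := |m1| / 12 + 5 / 8 * |m2| with hL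
  have hL0 : 0 ≤ L := by positivity
  set d := δ * M - 3 / 16 * w with hd
  -- the difference of the coefficients
  obtain ⟨e, he1, he2⟩ : ∃ e, (GR m1 m2 c - GR m1 m2 |P|) * (c ^ 2 * ((f - s) / (f - c))) = N * e ∧
      |e| ≤ c * L * |d| := by
    refine ex_quo hN (by positivity) ?_
    have hθ : 0 ≤ (f - s) / (f - c) ∧ (f - s) / (f - c) ≤ 1 :=
      ⟨div_nonneg (by linarith) hfc.le, by rw [div_le_one hfc]; linarith⟩
    have g1 := GR_lip (m1 := m1) (m2 := m2) hc0 hc (abs_nonneg P) hP2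
    rw [← hL] at g1
    have g2 : c * abs (c - abs P) ≤ abs (c ^ 2 - P ^ 2) := by
      have e1 : c ^ 2 - P ^ 2 = (c - |P|) * (c + |P|) := by
        rw [← sq_abs P]
        ring
      rw [e1, abs_mul, abs_of_nonneg (show 0 ≤ c + |P| by positivity)]
      have := abs_nonneg (c - abs P)
      nlinarith [abs_nonneg P]
    have g3 : |c ^ 2 - P ^ 2| ≤ N * |d| := by
      refine v2.trans ?_
      rw [abs_mul, abs_of_nonneg hN]
    rw [abs_mul, abs_mul, abs_of_nonneg (sq_nonneg c), abs_of_nonneg hθ.1]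
    have g4 : abs (GR m1 m2 c - GR m1 m2 (abs P)) * (c ^ 2 * ((f - s) / (f - c))) ≤
        L * abs (c - abs P) * (c ^ 2 * 1) := by
      refine mul_le_mul g1 (mul_le_mul_of_nonneg_left hθ.2 (sq_nonneg c)) ?_ (by positivity)
      exact mul_nonneg (sq_nonneg c) hθ.1
    refine g4.trans ?_
    calc L * abs (c - abs P) * (c ^ 2 * 1) = L * c * (c * abs (c - abs P)) := by ring
      _ ≤ L * c * (N * |d|) := mul_le_mul_of_nonneg_left (g2.trans g3) (by positivity)
      _ = N * (c * L * |d|) := by ring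
  obtain ⟨u, u0, u1, hu⟩ : ∃ u, 0 ≤ u ∧ u ≤ 1 ∧ c ^ 2 * (s - c) = (s ^ 2 - c ^ 2) * (c / 2 * u) := by
    rcases (show 0 ≤ s + c by linarith).eq_or_lt with h0 | h0
    · refine ⟨0, le_rfl, zero_le_one, ?_⟩
      have e1 : s = 0 := by linarith
      have e2 : c = 0 := by linarith
      rw [e1, e2]
      ring
    · refine ⟨2 * c / (s + c), by positivity, ?_, ?_⟩
      · rw [div_le_one h0]
        linarith
      · field_simp
        ring
  refine ⟨u, e, u0, u1, he2, ?_⟩
  have k1 : (f - s) / (f - c) = 1 - (s - c) * (f - c)⁻¹ := by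
    field_simp
    ring
  rw [k1] at he1 ⊢
  have k2 : c ^ 2 * ((s - c) * (f - c)⁻¹) = N * (3 / 16 * w * u * (c / 2 * (f - c)⁻¹)) := by
    rw [hq] at hw
    linear_combination (f - c)⁻¹ * hu - (c / 2 * u) * (f - c)⁻¹ * hw
  linear_combination he1 + GR m1 m2 |P| * v1 - GR m1 m2 |P| * k2

/-- the part of the segment above the flat one -/
theorem ver_top {X Y yb N : ℝ} (hb0 : 0 ≤ yb) (hb : 1 ≤ 3 / 4 * yb ^ 2) (hY : 1 ≤ Y)
    (g : qqn X Y - 1 = 3 / 16 * N) (hq : 1 ≤ qqn X Y) :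
    max (Y - yb) 0 = N * (lamR (3 / 4 * (max Y yb ^ 2 - yb ^ 2)) (qqn X Y - 1) *
      (max Y yb + yb)⁻¹) / 4 := by
  have hp : 0 < max Y yb + yb := by
    have := le_max_left Y yb
    linarith
  have hi := inv_mul_cancel₀ hp.ne'
  have e : max (Y - yb) 0 = max Y yb - yb := by
    rw [← max_sub_sub_right, sub_self]
  have hl : lamR (3 / 4 * (max Y yb ^ 2 - yb ^ 2)) (qqn X Y - 1) * (qqn X Y - 1) =
      3 / 4 * (max Y yb ^ 2 - yb ^ 2) := by
    have h1 : 0 ≤ 3 / 4 * (max Y yb ^ 2 - yb ^ 2) ∧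
        3 / 4 * (max Y yb ^ 2 - yb ^ 2) ≤ qqn X Y - 1 := by
      rcases max_cases Y yb with ⟨m, hm⟩ | ⟨m, hm⟩
      · rw [m]
        unfold qqn
        constructor
        · nlinarith
        · nlinarith [sq_nonneg X]
      · rw [m]
        constructor
        · linarith
        · linarith
    refine lamR_mul (fun _ => h1) (fun h => ?_)
    have h2 : qqn X Y - 1 = 0 := le_antisymm h (by linarith)
    rw [h2] at h1 ⊢
    constructor <;> linarith [h1.1, h1.2]
  rw [e]
  rw [g] at hl ⊢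
  linear_combination 4 / 3 * (max Y yb + yb)⁻¹ * (-hl) - (max Y yb - yb) * hi

/-! ### Packed side -/

/-- the third side is anchored at the tight curve at the same height; `b` is the sign of the
abscissa, `fin` gets kernel value and level value, divided -/
noncomputable def canX (D : XDat) (U : Ty) (b : Bool) (S : Sg) (X Y τ px T dx dy h e3 e4 e5 x : ℕ)
    (fin : ℕ → ℕ → Bool) : Bool :=
  frc (sg b X) fun aX => frc (cuT U Y) fun c => frc (S.f.t Y) fun f =>
  band (pnn aX) (band (pnn (sl (uT U) (psub f aX) (psub aX f)))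
    (band (ppos (psub (pnc (nT U)) (t34 (psq Y)))) (band (ppos (padd aX c))
    (frc (sg (cond (uT U) b (!b)) (pscale 3 16 (pinv (padd aX c)))) fun xi =>
    frc (pnorm (axT U (pxT U dx dy) xi)) fun ex => frc (pnorm (ayT U (pyT U dx dy) xi)) fun ey =>
    frc (pnorm (pxT U (sg b c) Y)) fun cx => frc (pnorm (pyT U (sg b c) Y)) fun cy =>
    frc (pnorm (t0T h cx cy)) fun Tc => frc (pnorm (dtT h cx px ex ey)) fun dT =>
    band (pnn (psub Tc e4)) (band (pnn (psub (psub pone e4) Tc))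
    (fin (padd (pmul τ (pnorm (kqT D.KR D.sR h e5 Tc T dT x))) (pmul xi (S.SK.t Y x)))
      (padd (lvX D.LT U e3 Tc T dT x) (pmul xi (S.SX.t Y x)))))))))

/-- third side near the vertical direction; `q` is the square of the length -/
noncomputable def verX (V : VX) (S : Sg) (q X Y px py T dx h x : ℕ)
    (fin : ℕ → ℕ → Bool) : Bool :=
  frc (pabs X) fun aX => frc (pabs px) fun ap => frc (cuT .u2 Y) fun c => frc (S.f.t Y) fun f =>
  band (pnn (psub f aX)) (band (pnn (psub Y V.ya.t)) (band (pnn (psub V.yk.t Y))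
    (band (ppos (psub f c)) (band (pnn (psub T V.k5.t)) (band (pnn (psub (psub pone V.k5.t) T))
    (frc (rcT' h py) fun rc => frc (V.m1.t x) fun m1 => frc (V.m2.t x) fun m2 =>
    frc (pnorm (psub (pmul m2 (psq (padd h (pmul ap rc)))) (pmul m1 rc))) fun G =>
    frc (pscale 3 16 (plam (psq X) (psub q pone))) fun w0 =>
    frc (sel2 (pnn X) (sel2 (pnn (pneg X)) (pmul (psub (padd pu01 pu01) pone) w0) (pneg w0)) w0)
      fun w =>
    frc (padd aX ap) fun ss =>
    frc (sel2 (band (pnn X) (pnn px)) (sel2 (band (pnn (pneg X)) (pnn (pneg px)))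
      (pmul ss (phf (padd pone pu01))) ss) ss) fun M =>
    frc (pnorm (psub (pmul dx M) w)) fun d1 =>
    fin (pdc 0 0) (padd (psub (pmul G (psub d1 (pmul (pmul w pu01) (pmul (phf c)
        (pinv (psub f c)))))) (pmul (pmul h m1) dx))
      (padd (pmul (psub (padd pu01 pu01) pone) (pmul (pmul c (padd (pscale 1 12 (pabs m1))
          (pscale 5 8 (pabs m2)))) (pabs d1)))
        (pmul (pmul (V.s.t x) (phf (phf X))) ((fun yp => pmul (plam (t34 (psub (psq yp)
          (psq V.yb.t))) (psub q pone)) (pinv (padd yp V.yb.t))) (pmax Y V.yb.t)))))))))))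

/-- choice of the form for the third side; `i` is the hint -/
noncomputable def thiX (D : XDat) (U : Ty) (S : Sg) (V : VX) (i q X Y τ px py T dx dy h e3 e4 e5 x : ℕ)
    (fin : ℕ → ℕ → Bool) : Bool :=
  Bool.rec (motive := fun _ => Bool)
    (canX D U (bT U) S X Y τ px T dx dy h e3 e4 e5 x fin)
    (Nat.rec (motive := fun _ => Bool) (canX D U true S X Y τ px T dx dy h e3 e4 e5 x fin)
      (fun i _ => Nat.rec (motive := fun _ => Bool)
        (canX D U false S X Y τ px T dx dy h e3 e4 e5 x fin)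
        (fun _ _ => verX V S q X Y px py T dx h x fin) i) i)
    (Ty.rec (motive := fun _ => Bool) false true false false false false false U)

/-- the test with the forms of `x`, of the heights `A`, `B` and abscissae `X1`, `X2` of the nodes and
of the third side; `i` is the payload of the hint -/
noncomputable def stpX (D : XDat) (fam : Bool) (m n U : Ty) (cn : Con) (a b c : ℕ) (S : Sg)
    (V : VX) (i x A B X1 X2 X Y : ℕ) : Bool :=
  frc (psub (phf (psub (pmul X1 B) (pmul X2 A))) (phn 1)) fun ex =>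
  frc (pnorm (pxT m X1 A)) fun px => frc (pnorm (pyT m X1 A)) fun py =>
  frc ph0 fun h => frc (pmul h (psub pone x)) fun e1 => frc (pscale 167 50 e1) fun e3 =>
  frc (pscale 11 5 e1) fun e4 => frc (pscale 5 2 e1) fun e5 =>
  frc (pnorm (t0T h px py)) fun T =>
  band (ppos (padd pone ex)) (band (pnn (psub T e4)) (band (pnn (psub (psub pone e4) T))
    (frc (pinv (padd pone ex)) fun E1 =>
    frc (pnorm (sg (cond (uT U) fam (!fam)) (pmul (pscale 3 64 (padd B (iyT n px py))) E1)))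
      fun dx =>
    frc (pnorm (sg (cond (uT U) (!fam) fam) (pmul (pscale 1 16 (padd X2 (ixT n px py))) E1)))
      fun dy =>
    frc (qqT X Y) fun q =>
    frc (pnorm (pxT n X2 B)) fun nx => frc (pnorm (pyT n X2 B)) fun ny =>
    frc (pnorm (pxT n dx dy)) fun ex' => frc (pnorm (pyT n dx dy)) fun ey' =>
    frc (pnorm (t0T h nx ny)) fun Tn => frc (pnorm (dtT h nx px ex' ey')) fun dT =>
    band (pnn (psub Tn e4)) (band (pnn (psub (psub pone e4) Tn))
    (frc (pnorm (pmul (dj (jq (cond fam b c)) B) (pnorm (kqT D.KR D.sR h e5 Tn T dT x))))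
      fun rn =>
    frc (lvX D.LT n e3 Tn T dT x) fun ln =>
    frc (dj (jq (cond fam c b)) Y) fun τ =>
    thiX D U S V (Nat.land i 15) q X Y τ px py T
      dx dy h e3 e4 e5 x fun rU lU => frc (pnorm rU) fun rU => frc (pnorm (psub ln lU)) fun lU =>
      fiT D.kh fam cn a b c (Nat.shiftRight i 4) x A (sl fam B Y) (sl fam Y B) (esuT m n U q E1)
        rn (pmul (D.la.t x) lU) rU (pdc 0 0))))))

/-- the test with the nodes -/
noncomputable def strX (D : XDat) (fam s1 s2 : Bool) (m n U : Ty) (cn : Con) (a b c : ℕ) (S : Sg)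
    (V : VX) (n1 n2 : NodeX) (i P Q x : ℕ) : Bool :=
  (fun A B X1 X2 => frc (pnorm (th fam X1 X2)) fun X => frc (pnorm (th fam A B)) fun Y =>
    stpX D fam m n U cn a b c S V i x A B X1 X2 X Y)
  (n1.Y.t P) (n2.Y.t Q) (sg s1 (n1.X.t P x)) (sg s2 (n2.X.t Q x))

/-! ### What is known about nodes and the third side -/

/-- The values on a tight side, in the range of the variable of the direction. -/
def TgX (D : XDat) (t : Ty) (q : ℕ) (x X y K L : ℝ) : Prop :=
  e4R x ≤ t0R (t.px X y) (t.py X y) → t0R (t.px X y) (t.py X y) ≤ 1 - e4R x →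
    K = (y - jq q) * D.ka x (t0R (t.px X y) (t.py X y)) ∧
      L = D.la.v x * (X + D.z t x (t0R (t.px X y) (t.py X y)))

/-- What is known about a node of type `t` in the quarter `q`. -/
structure NHX (D : XDat) (t : Ty) (q : ℕ) (x X y K L : ℝ) : Prop where
  inq : t.inq q
  iny : InQ q y
  len : qqn X y = t.nq
  sgn : t ≠ .u2 → X = t.sx * |X|
  tg : TgX D t q x X y K L

theorem NHX.ge {D : XDat} {t : Ty} {q : ℕ} {x X y K L : ℝ} (h : NHX D t q x X y K L) :
    1 ≤ t.py X y ∧ qqn (t.px X y) (t.py X y) = 1 := by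
  have e := Ty.py_sg (y := y) h.sgn
  have hl : qqn |X| y = t.nq := by
    rw [← h.len]
    unfold qqn
    rw [sq_abs]
  refine ⟨?_, Ty.p_unit h.len⟩
  rw [e]
  exact Ty.py_ge h.inq h.iny (abs_nonneg X) hl

/-- What is known about the values `KU`, `LU` of kernel and level on the third side `(X, Y)` of type
`U` in the quarter `q`. -/
structure UHX (D : XDat) (U : Ty) (S : Sg) (V : VX) (q : ℕ) (x X Y KU LU : ℝ) : Prop where
  inq : U.inq q
  iny : InQ q Y
  can : ∀ b, (U ≠ .u2 → b = bT U) → 0 ≤ sgr b X →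
    (uT U = true → sgr b X ≤ S.f.v Y) → (uT U = false → S.f.v Y ≤ sgr b X) →
    0 < U.nq - 3 / 4 * Y ^ 2 → ∃ Kc Lc, TgX D U q x (sgr b (cuR U Y)) Y Kc Lc ∧
      KU = Kc + (X - sgr b (cuR U Y)) * S.SK.v Y x ∧
      LU = Lc + D.la.v x * ((X - sgr b (cuR U Y)) * (1 + S.SX.v Y x))
  ver : U = .u2 → ∀ b, 0 ≤ sgr b X → sgr b X ≤ S.f.v Y → V.ya.v ≤ Y → Y ≤ V.yk.v →
    c1n Y < S.f.v Y → KU = 0 ∧ LU = D.la.v x * (X - h0 * V.m1.v x * X + sgr b (c1n Y ^ 2 *
      GR (V.m1.v x) (V.m2.v x) (c1n Y) * ((S.f.v Y - sgr b X) / (S.f.v Y - c1n Y))) +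
      V.s.v x * max (Y - V.yb.v) 0 * X)
  mid : U = .u2 → ∀ v, |v| ≤ 1 / 2 - V.k5.v →
    D.z .u2 x (1 / 2 - v) = -(V.m1.v x * v) + V.m2.v x * (v * |v|)
  yb : U = .u2 → 0 ≤ V.yb.v ∧ 1 ≤ 3 / 4 * V.yb.v ^ 2
  k5 : U = .u2 → 1 / 5 ≤ V.k5.v

/-- The result of the analysis of the third side. -/
def ThRX (E : Pt) (D : XDat) (U : Ty) (q : ℕ) (x X Y t κb N KU LU : ℝ) (fin : ℕ → ℕ → Bool) :
    Prop :=
  ∃ R L r l, Enc E R r ∧ Enc E L l ∧ KU = (Y - jq q) * κb + N * r ∧
    LU = D.la.v x * (X + D.z U x t + N * l) ∧ fin R L = true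

section

variable {E : Pt} {D : XDat} {U : Ty} {S : Sg} {V : VX} {q : ℕ} {b : Bool} {x X Y KU LU px py
  dx dy N : ℝ} {x' X' Y' τ' T' px' py' dx' dy' h' e3' e4' e5' : ℕ} {fin : ℕ → ℕ → Bool}

theorem e4_lt (hD : D.Ok x) : 0 < e4R x ∧ e4R x < 1 := by
  refine ⟨hD.e4, ?_⟩
  have h1 := hD.x1
  have h2 := hD.x0
  have h3 := h0_pos
  have h4 := h0_lt'
  unfold e4R
  nlinarith

theorem canX_sound (hD : D.Ok x) (hx : Enc E x' x) (hX : Enc E X' X) (hY : Enc E Y' Y)
    (hτ : Enc E τ' (Y - jq q)) (h3 : Enc E px' px) (hT : Enc E T' (t0R px py))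
    (h5 : Enc E dx' dx) (h6 : Enc E dy' dy) (hh : Enc E h' h0) (g3e : Enc E e3' (e3R x))
    (g4e : Enc E e4' (e4R x)) (g5e : Enc E e5' (e5R x)) (H : UHX D U S V q x X Y KU LU)
    (hb : U ≠ .u2 → b = bT U) (hp : qqn px py = 1) (hp1 : 1 ≤ py)
    (hT0 : e4R x ≤ t0R px py) (hT1 : t0R px py ≤ 1 - e4R x)
    (g1 : U.px X Y = px + N * U.px dx dy) (g2 : U.py X Y = py + N * U.py dx dy)
    (g3 : qqn X Y - U.nq = 3 / 16 * sN U * N)
    (h : canX D U b S X' Y' τ' px' T' dx' dy' h' e3' e4' e5' x' fin = true) :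
    ThRX E D U q x X Y (t0R px py) (D.ka x (t0R px py)) N KU LU fin := by
  unfold canX at h
  simp only [frc_eq] at h
  obtain ⟨c1, h⟩ := band_true h
  obtain ⟨c2, h⟩ := band_true h
  obtain ⟨c3, h⟩ := band_true h
  obtain ⟨c4, h⟩ := band_true h
  obtain ⟨c5, h⟩ := band_true h
  obtain ⟨c6, h⟩ := band_true h
  have haX := enc_sg b hX
  have hc := enc_cuT U hY
  have hf := S.f.enc hY
  have a1 := pnn_sound haX c1
  have a3 := ppos_sound (enc_sub (enc_pnc E (nT U)) (enc_t34 (enc_sq hY))) c3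
  rw [nT_eq] at a3
  have a4 := ppos_sound (enc_add haX hc) c4
  have hcsq : cuR U Y ^ 2 = U.nq - 3 / 4 * Y ^ 2 := Real.sq_sqrt a3.le
  have hc0 : 0 ≤ cuR U Y := Real.sqrt_nonneg _
  have hfin := h
  set c := cuR U Y with hcdef
  -- the displacement along the abscissa
  have hxi : Enc E (sg (cond (uT U) b (!b)) (pscale 3 16 (pinv (padd (sg b X') (cuT U Y')))))
      (sgr b (sN U * (3 / 16 * (sgr b X + c)⁻¹))) := by
    have e := enc_sg (cond (uT U) b (!b)) (enc_scale 3 16 (enc_inv (enc_add haX hc)))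
    refine enc_cast e ?_
    rcases uT_iff U with ⟨e1, -, e2⟩ | ⟨e1, -, e2⟩ <;> rw [e1, e2] <;> cases b <;>
      simp [sgr]
  set ξ := sgr b (sN U * (3 / 16 * (sgr b X + c)⁻¹)) with hξ
  have hNξ : X - sgr b c = N * ξ := by
    have hi := inv_mul_cancel₀ a4.ne'
    have e1 : (sgr b X - c) * (sgr b X + c) = 3 / 16 * sN U * N := by
      have := sgu_sq b X
      unfold qqn at g3
      linear_combination this - hcsq + g3
    have e2 : sgr b X - c = N * (sN U * (3 / 16 * (sgr b X + c)⁻¹)) := by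
      linear_combination (sgr b X + c)⁻¹ * e1 - (sgr b X - c) * hi
    have e3 : X - sgr b c = sgr b (sgr b X - c) := sgr_sub_c b X c
    rw [e3, e2, hξ]
    exact sgu_mul b _ _
  obtain ⟨Kc, Lc, tg, eK, eL⟩ := H.can b hb a1 (fun hu => by
      have := pnn_sound (enc_sl (uT U) (enc_sub hf haX) (enc_sub haX hf)) c2
      rw [hu] at this
      simp only [cond_true] at this
      linarith) (fun hu => by
      have := pnn_sound (enc_sl (uT U) (enc_sub hf haX) (enc_sub haX hf)) c2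
      rw [hu] at this
      simp only [cond_false] at this
      linarith) a3
  rw [← hcdef] at tg eK eL
  -- the point on the curve
  have hq1 : qqn (sgr b c) Y = U.nq := by
    unfold qqn
    rw [sgu_sq, hcsq]
    ring
  have hq2 : qqn c Y = U.nq := by
    unfold qqn
    rw [hcsq]
    ring
  have habs : |sgr b c| = c := by rw [abs_sgr, abs_of_nonneg hc0]
  have hsx : U ≠ .u2 → sgr b c = U.sx * |sgr b c| := fun hu => by
    rw [habs, hb hu, sgr_bT]
  have hpy := Ty.py_sg (y := Y) hsx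
  rw [habs] at hpy
  have hge : 1 ≤ U.py (sgr b c) Y := by
    rw [hpy]
    exact Ty.py_ge H.inq H.iny hc0 hq2
  have hun := Ty.p_unit hq1
  have gx : U.px (sgr b c) Y - px = N * (U.px dx dy - U.px ξ 0) := by
    have e : U.px X Y = U.px (sgr b c) Y + N * U.px ξ 0 := by
      rw [← Ty.px_add, ← hNξ]
      congr 1 <;> ring
    rw [e] at g1
    linear_combination g1
  have gy : U.py (sgr b c) Y - py = N * (U.py dx dy - U.py ξ 0) := by
    have e : U.py X Y = U.py (sgr b c) Y + N * U.py ξ 0 := by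
      rw [← Ty.py_add, ← hNξ]
      congr 1 <;> ring
    rw [e] at g2
    linear_combination g2
  have h7 := enc_norm (enc_axT U (enc_pxT U h5 h6) hxi)
  have h8 := enc_norm (enc_ayT U (enc_pyT U h5 h6) hxi)
  have h9 := enc_norm (enc_pxT U (enc_sg b hc) hY)
  have h10 := enc_norm (enc_pyT U (enc_sg b hc) hY)
  have hTc := enc_norm (enc_t0T hh h9 h10)
  obtain ⟨dt, hdt, et⟩ := dtT_sound hh h9 h3 h7 h8 hun hge hp hp1 gx gy
  have hdt' := enc_norm hdt
  have a5 := pnn_sound (enc_sub hTc g4e) c5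
  have a6 := pnn_sound (enc_sub (enc_sub (enc_one E) g4e) hTc) c6
  obtain ⟨tK, tL⟩ := tg (by linarith) (by linarith)
  obtain ⟨p4, p5⟩ := e4_lt hD
  obtain ⟨p6, p7⟩ := hD.e5
  set T := t0R (U.px (sgr b c) Y) (U.py (sgr b c) Y) with hTd
  obtain ⟨dk, hdk, ek⟩ := kqT_sound (s := D.sR) hD.kr hD.kz p7 hx hh g5e hTc hT hdt'
    (by linarith) (by linarith) (by linarith) (by linarith) et
  obtain ⟨dl, hdl, el⟩ := lvX_sound hD hx g3e U hTc hT hdt' et
  refine ⟨_, _, _, _, enc_add (enc_mul hτ (enc_norm hdk)) (enc_mul hxi (S.SK.enc hY hx)),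
    enc_add hdl (enc_mul hxi (S.SX.enc hY hx)), ?_, ?_, hfin⟩
  · rw [eK, hNξ, tK]
    unfold XDat.ka
    linear_combination (Y - jq q) * ek
  · rw [eL, tL]
    linear_combination D.la.v x * el + D.la.v x * (1 + S.SX.v Y x) * hNξ - D.la.v x * hNξ

/-! ### Near the vertical direction -/

theorem c1n_le {X Y : ℝ} (k1 : 1 ≤ qqn X Y) : c1n Y ≤ |X| := by
  unfold c1n
  rw [show |X| = √(X ^ 2) from (Real.sqrt_sq_eq_abs X).symm]
  apply Real.sqrt_le_sqrt
  unfold qqn at k1
  linarith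

theorem lam_sq {X Y : ℝ} (k1 : 1 ≤ qqn X Y) :
    lamR (X ^ 2) (qqn X Y - 1) * (qqn X Y - 1) = X ^ 2 - c1n Y ^ 2 := by
  rcases le_total (3 / 4 * Y ^ 2) 1 with h | h
  · rw [c1n_sq h]
    have e : qqn X Y - 1 = X ^ 2 - (1 - 3 / 4 * Y ^ 2) := by unfold qqn; ring
    have hd : 0 ≤ X ^ 2 - (1 - 3 / 4 * Y ^ 2) := by rw [← e]; linarith
    rw [e]
    rcases hd.eq_or_lt with h0 | h0
    · rw [← h0, mul_zero]
    · have : lamR (X ^ 2) (X ^ 2 - (1 - 3 / 4 * Y ^ 2)) = 1 := by
        unfold lamR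
        rw [min_eq_right]
        refine le_max_of_le_left ?_
        rw [← div_eq_mul_inv, one_le_div h0]
        linarith
      rw [this, one_mul]
  · have hc : c1n Y = 0 := Real.sqrt_eq_zero_of_nonpos (by linarith)
    rw [hc]
    have h1 : 0 ≤ X ^ 2 ∧ X ^ 2 ≤ qqn X Y - 1 := ⟨sq_nonneg X, by unfold qqn; linarith⟩
    rw [lamR_mul (fun _ => h1) (fun h2 => ?_)]
    · ring
    · have h3 : qqn X Y - 1 = 0 := le_antisymm h2 (by linarith)
      rw [h3] at h1 ⊢
      constructor <;> linarith [h1.1, h1.2]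

theorem rcR_eq {a y : ℝ} (hp : qqn a y = 1) (hp1 : 1 ≤ y) : rcR y = rsR |a| := by
  have h1 := dir_sq hp
  have h2 := dir_b hp hp1
  have h3 := h0_pos
  unfold rcR rsR
  have : Real.sqrt (1 - |a| ^ 2) = h0 * y := by
    rw [sq_abs, h1, show 1 - (1 - h0 * y) * (1 + h0 * y) = (h0 * y) ^ 2 by ring]
    exact Real.sqrt_sq (by linarith)
  rw [this]

theorem sgr_mul_abs (b : Bool) (z : ℝ) : sgr b z * |sgr b z| = sgr b (z * |z|) := by
  rw [abs_sgr]
  cases b
  · show -z * |z| = -(z * |z|)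
    ring
  · rfl

theorem sgr_addX (b : Bool) (y z : ℝ) : sgr b (y + z) = sgr b y + sgr b z := by
  cases b
  · show -(y + z) = -y + -z
    ring
  · rfl

theorem sgr_subX (b : Bool) (y z : ℝ) : sgr b (y - z) = sgr b y - sgr b z := by
  cases b
  · show -(y - z) = -y - -z
    ring
  · rfl

theorem sgr_mulr (b : Bool) (y z : ℝ) : sgr b (y * z) = sgr b y * z := by
  cases b
  · show -(y * z) = -y * z
    ring
  · rfl

/-- the form of the mean of the lengths -/
theorem enc_M {ss X1 px1 : ℕ} {s P z p : ℝ} {b : Bool} (hz : s = sgr b z) (hP : P = sgr b p)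
    (hs : 0 ≤ s) (hX : Enc E X1 z) (hp : Enc E px1 p) (hss : Enc E ss (s + |P|)) :
    ∃ M, Enc E (sel2 (band (pnn X1) (pnn px1)) (sel2 (band (pnn (pneg X1)) (pnn (pneg px1)))
      (pmul ss (phf (padd pone pu01))) ss) ss) M ∧ (s - P) * M = s ^ 2 - P * |P| := by
  have key : 0 ≤ P ∨ s = 0 → (s - P) * (s + |P|) = s ^ 2 - P * |P| := by
    rintro (h | h)
    · rw [abs_of_nonneg h]
      ring
    · rw [h]
      ring
  refine sel2_case (P := fun Z => ∃ M, Enc E Z M ∧ (s - P) * M = s ^ 2 - P * |P|)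
    (sel2_case (P := fun Z => ∃ M, Enc E Z M ∧ (s - P) * M = s ^ 2 - P * |P|) ?_ ?_) ?_
  · obtain ⟨u, u0, u1, hu⟩ := ex_M (P := P) hs
    exact ⟨_, enc_mul hss (enc_half (enc_add (enc_one E) (enc_u01 E u0 u1))), hu⟩
  · intro hc
    obtain ⟨c1, c2⟩ := band_true hc
    have g1 := pnn_sound (enc_neg hX) c1
    have g2 := pnn_sound (enc_neg hp) c2
    refine ⟨_, hss, key ?_⟩
    cases b
    · left
      rw [hP]
      show 0 ≤ -p
      linarith
    · right
      rw [hz] at hs ⊢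
      have : 0 ≤ z := hs
      show z = 0
      linarith
  · intro hc
    obtain ⟨c1, c2⟩ := band_true hc
    have g1 := pnn_sound hX c1
    have g2 := pnn_sound hp c2
    refine ⟨_, hss, key ?_⟩
    cases b
    · right
      rw [hz] at hs ⊢
      have : 0 ≤ -z := hs
      show -z = 0
      linarith
    · left
      rw [hP]
      exact g2

/-- the form of the signed part -/
theorem enc_W {w0 X1 : ℕ} {w z : ℝ} {b : Bool} (hb : 0 ≤ sgr b z) (hw0 : 0 ≤ w)
    (hw : Enc E w0 w) (hX : Enc E X1 z) (hz : z = 0 → w = 0) :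
    Enc E (sel2 (pnn X1) (sel2 (pnn (pneg X1)) (pmul (psub (padd pu01 pu01) pone) w0) (pneg w0)) w0)
      (sgr b w) := by
  refine sel2_case (P := fun Z => Enc E Z (sgr b w))
    (sel2_case (P := fun Z => Enc E Z (sgr b w)) ?_ ?_) ?_
  · obtain ⟨u, u0, u1, hu⟩ := ex_sgn (e := sgr b w) (B := w) (by rw [abs_sgr, abs_of_nonneg hw0])
    have := enc_u01 E u0 u1
    exact enc_cast (enc_mul (enc_sub (enc_add this this) (enc_one E)) hw) (by rw [hu]; ring)
  · intro hc
    have g1 := pnn_sound (enc_neg hX) hc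
    cases b
    · exact enc_neg hw
    · have h1 : 0 ≤ z := hb
      have h2 : w = 0 := hz (by linarith)
      refine enc_cast (enc_neg hw) ?_
      show -w = w
      rw [h2]
      ring
  · intro hc
    have g1 := pnn_sound hX hc
    cases b
    · have h1 : 0 ≤ -z := hb
      have h2 : w = 0 := hz (by linarith)
      refine enc_cast hw ?_
      show w = -w
      rw [h2]
      ring
    · exact hw

theorem verX_sound (hD : D.Ok x) (hx : Enc E x' x) (hX : Enc E X' X) (hY : Enc E Y' Y) {q' : ℕ}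
    (hq : Enc E q' (qqn X Y)) (h3 : Enc E px' px) (h4 : Enc E py' py)
    (hT : Enc E T' (t0R px py)) (h5 : Enc E dx' dx) (hh : Enc E h' h0)
    (H : UHX D .u2 S V 2 x X Y KU LU) (hp : qqn px py = 1) (hp1 : 1 ≤ py)
    (k1 : 1 ≤ qqn X Y) (g1 : X = px + N * dx) (g3 : qqn X Y - 1 = 3 / 16 * N)
    (h : verX V S q' X' Y' px' py' T' dx' h' x' fin = true) :
    ThRX E D .u2 2 x X Y (t0R px py) (D.ka x (t0R px py)) N KU LU fin := by
  unfold verX at h
  simp only [frc_eq] at h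
  obtain ⟨c1, h⟩ := band_true h
  obtain ⟨c2, h⟩ := band_true h
  obtain ⟨c3, h⟩ := band_true h
  obtain ⟨c4, h⟩ := band_true h
  obtain ⟨c5, h⟩ := band_true h
  obtain ⟨c6, h⟩ := band_true h
  have haX := enc_abs hX
  have hap := enc_abs h3
  have hf := S.f.enc hY
  have hc : Enc E (cuT .u2 Y') (c1n Y) := by
    have := enc_cuT .u2 hY
    have e : cuR .u2 Y = c1n Y := by unfold cuR c1n; simp only [Ty.nq]
    rwa [e] at this
  have a1 := pnn_sound (enc_sub hf haX) c1
  have a2 := pnn_sound (enc_sub hY (V.ya.enc E)) c2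
  have a3 := pnn_sound (enc_sub (V.yk.enc E) hY) c3
  have a4 := ppos_sound (enc_sub hf hc) c4
  have a5 := pnn_sound (enc_sub hT (V.k5.enc E)) c5
  have a6 := pnn_sound (enc_sub (enc_sub (enc_one E) (V.k5.enc E)) hT) c6
  have hY1 : 1 ≤ Y := H.iny.1
  have k5 := H.k5 rfl
  obtain ⟨b0, b1⟩ := H.yb rfl
  obtain ⟨-, p7⟩ := hD.e5
  have hN : 0 ≤ N := by linarith
  have hκ : D.ka x (t0R px py) = 0 := kaR_zero hD.kz p7 (by linarith) (by linarith)
  obtain ⟨p0, -, -⟩ := unit_cT hp hp1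
  -- the sign
  obtain ⟨b, hb⟩ : ∃ b, 0 ≤ sgr b X := by
    rcases le_total 0 X with h0 | h0
    · exact ⟨true, h0⟩
    · exact ⟨false, show 0 ≤ -X by linarith⟩
  have hs : sgr b X = |X| := by rw [← abs_sgr b X, abs_of_nonneg hb]
  obtain ⟨eK, eL⟩ := H.ver rfl b hb (by rw [hs]; linarith) (by linarith) (by linarith)
    (by linarith)
  have hcX := c1n_le k1
  have hc0 := c1n_nn Y
  have hc12 : c1n Y ≤ 1 / 2 := by
    unfold c1n
    rw [Real.sqrt_le_left (by norm_num)]
    nlinarith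
  have hlam := lam_sq k1
  set w := lamR (X ^ 2) (qqn X Y - 1) with hwd
  obtain ⟨w0, w1⟩ := lamR_mem (X ^ 2) (qqn X Y - 1)
  rw [← hwd] at w0 w1
  -- mean
  have hss := enc_cast (enc_add haX hap) (show |X| + |px| = sgr b X + |sgr b px| by
    rw [abs_sgr, hs])
  obtain ⟨M, hM, eM⟩ := enc_M (b := b) rfl rfl hb hX h3 hss
  have hP : sgr b X - sgr b px = N * sgr b dx := by
    rw [← sgr_subX, g1, ← sgu_mul]
    congr 1
    ring
  have hw2 : w * (qqn X Y - 1) = sgr b X ^ 2 - c1n Y ^ 2 := by rw [sgu_sq]; exact hlam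
  obtain ⟨u, e, u0, u1, he, hmain⟩ := ver_main (m1 := V.m1.v x) (m2 := V.m2.v x) (f := S.f.v Y) hb
    hc0 (by rw [hs]; exact hcX) (by rw [hs]; linarith) (by linarith) hN g3 hw2 hP eM hc12
    (by rwa [abs_sgr])
  have hW := enc_W (b := b) (w := 3 / 16 * w) hb (by positivity)
    (enc_cast (enc_scale 3 16 (enc_lam (enc_sq hX) (enc_sub hq (enc_one E))))
      (show _ = 3 / 16 * w by push_cast; rfl)) hX (fun h0 => by
        have : w = 0 := by
          rw [hwd, h0]
          unfold lamR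
          simp
        rw [this, mul_zero])
  set ω := sgr b (3 / 16 * w) with hω
  have hd1 := enc_norm (enc_sub (enc_mul h5 hM) hW)
  -- the error
  have he' : |sgr b e| ≤ c1n Y * (|V.m1.v x| / 12 + 5 / 8 * |V.m2.v x|) * |dx * M - ω| := by
    rw [abs_sgr]
    refine he.trans (le_of_eq ?_)
    congr 1
    rw [← abs_sgr b (dx * M - ω), sgr_subX, sgr_mulr, hω, sgu_sgr]
  obtain ⟨v, v0, v1, hv⟩ := ex_sgn he'
  have hu := enc_u01 E u0 u1
  have hvE := enc_u01 E v0 v1
  have hrc := enc_rcT' hh h4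
  have er := rcR_eq hp hp1
  have hm1 := V.m1.enc hx
  have hm2 := V.m2.enc hx
  have hG := enc_norm (enc_sub (enc_mul hm2 (enc_sq (enc_add hh (enc_mul hap hrc))))
    (enc_mul hm1 hrc))
  have hyp := enc_max hY (V.yb.enc E)
  have hZ := enc_mul (enc_mul (V.s.enc hx) (enc_half (enc_half hX)))
    (enc_mul (enc_lam (enc_t34 (enc_sub (enc_sq hyp) (enc_sq (V.yb.enc E))))
      (enc_sub hq (enc_one E))) (enc_inv (enc_add hyp (V.yb.enc E))))
  have htop := ver_top b0 b1 hY1 g3 k1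
  have hER := enc_mul (enc_sub (enc_add hvE hvE) (enc_one E)) (enc_mul (enc_mul hc
    (enc_add (enc_scale 1 12 (enc_abs hm1)) (enc_scale 5 8 (enc_abs hm2)))) (enc_abs hd1))
  refine ⟨_, _, _, _, enc_dc00 E, enc_add (enc_sub (enc_mul hG (enc_sub hd1 (enc_mul
    (enc_mul hW hu) (enc_mul (enc_half hc) (enc_inv (enc_sub hf hc)))))) (enc_mul (enc_mul hh hm1)
    h5)) (enc_add hER hZ), ?_, ?_, h⟩
  · rw [eK, hκ]
    ring
  · -- the level
    have hmid := H.mid rfl (1 / 2 - t0R px py) (by rw [abs_le]; constructor <;> linarith)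
    have e1 : 1 / 2 - (1 / 2 - t0R px py) = t0R px py := by ring
    have e2 : 1 / 2 - t0R px py = px * (h0 + |px| * rcR py) := by unfold t0R; ring
    have hpos : 0 ≤ h0 + |px| * rcR py := by
      have := h0_pos
      have h8 := (dir_b hp hp1).1
      have : 0 ≤ rcR py := by
        unfold rcR
        have : 0 < 1 + h0 * py := by linarith
        positivity
      positivity
    have e3 : (1 / 2 - t0R px py) * |1 / 2 - t0R px py| = px * |px| * (h0 + |px| * rcR py) ^ 2 := by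
      rw [e2, abs_mul, abs_of_nonneg hpos]
      ring
    rw [e1, e3] at hmid
    rw [eL, hmid, e2]
    have e4 : sgr b (c1n Y ^ 2 * GR (V.m1.v x) (V.m2.v x) (c1n Y) *
        ((S.f.v Y - sgr b X) / (S.f.v Y - c1n Y))) =
        px * |px| * GR (V.m1.v x) (V.m2.v x) |px| + N * (GR (V.m1.v x) (V.m2.v x) |px| *
          (dx * M - ω - ω * u * (c1n Y / 2 * (S.f.v Y - c1n Y)⁻¹)) + sgr b e) := by
      have e5 := congrArg (sgr b) hmain
      rw [sgr_subX, sgr_mul_abs, sgr_mulr b (sgr b (px * |px|)), sgu_sgr, abs_sgr,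
        sgu_mul b N, sgr_addX] at e5
      have e6 : sgr b (GR (V.m1.v x) (V.m2.v x) |px| * (sgr b dx * M - 3 / 16 * w -
          3 / 16 * w * u * (c1n Y / 2 * (S.f.v Y - c1n Y)⁻¹))) =
          GR (V.m1.v x) (V.m2.v x) |px| *
          (dx * M - ω - ω * u * (c1n Y / 2 * (S.f.v Y - c1n Y)⁻¹)) := by
        rw [hω]
        cases b
        · show -(_ * (-dx * M - _ - _)) = _ * (dx * M - -_ - -_ * _ * _)
          ring
        · rfl
      rw [e6] at e5
      linear_combination e5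
    rw [e4, hv, htop, er]
    unfold GR lamR
    push_cast
    linear_combination D.la.v x * (-h0 * V.m1.v x) * g1

theorem thiX_sound (hD : D.Ok x) (hx : Enc E x' x) (hX : Enc E X' X) (hY : Enc E Y' Y) {q' : ℕ}
    (hq : Enc E q' (qqn X Y)) (hτ : Enc E τ' (Y - jq q)) (h3 : Enc E px' px)
    (h4 : Enc E py' py) (hT : Enc E T' (t0R px py))
    (h5 : Enc E dx' dx) (h6 : Enc E dy' dy) (hh : Enc E h' h0) (g3e : Enc E e3' (e3R x))
    (g4e : Enc E e4' (e4R x)) (g5e : Enc E e5' (e5R x)) (H : UHX D U S V q x X Y KU LU)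
    (hp : qqn px py = 1) (hp1 : 1 ≤ py) (k1 : 1 ≤ qqn X Y)
    (hT0 : e4R x ≤ t0R px py) (hT1 : t0R px py ≤ 1 - e4R x)
    (g1 : U.px X Y = px + N * U.px dx dy) (g2 : U.py X Y = py + N * U.py dx dy)
    (g3 : qqn X Y - U.nq = 3 / 16 * sN U * N) {i : ℕ}
    (ht : thiX D U S V i q' X' Y' τ' px' py' T' dx' dy' h' e3' e4' e5' x' fin = true) :
    ThRX E D U q x X Y (t0R px py) (D.ka x (t0R px py)) N KU LU fin := by
  by_cases hU : U = .u2
  · subst hU
    have hq2 : q = 2 := H.inq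
    subst hq2
    have e1 : X = px + N * dx := g1
    have e3 : qqn X Y - 1 = 3 / 16 * N := by
      have : sN .u2 = 1 := by simp only [sN, Ty.nq]; norm_num
      rw [this] at g3
      simpa [Ty.nq] using g3
    have can : ∀ b, canX D .u2 b S X' Y' τ' px' T' dx' dy' h' e3' e4' e5' x' fin = true →
        ThRX E D .u2 2 x X Y (t0R px py) (D.ka x (t0R px py)) N KU LU fin := fun b h' =>
      canX_sound hD hx hX hY hτ h3 hT h5 h6 hh g3e g4e g5e H (fun h => absurd rfl h) hp hp1 hT0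
        hT1 g1 g2 g3 h'
    match i, ht with
    | 0, ht => exact can true ht
    | 1, ht => exact can false ht
    | _ + 2, ht => exact verX_sound hD hx hX hY hq h3 h4 hT h5 hh H hp hp1 k1 e1 e3 ht
  · have e : canX D U (bT U) S X' Y' τ' px' T' dx' dy' h' e3' e4' e5' x' fin = true := by
      cases U
      · exact ht
      · exact absurd rfl hU
      all_goals exact ht
    exact canX_sound hD hx hX hY hτ h3 hT h5 h6 hh g3e g4e g5e H (fun _ => rfl) hp hp1 hT0 hT1 g1
      g2 g3 e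

end

/-! ### The step -/

section

variable {E : Pt} {D : XDat} {fam : Bool} {m n U : Ty} {S : Sg} {V : VX} {cn : Con}
  {a b c i x' A' B' X1' X2' X' Y' : ℕ} {x y1 y2 x1 x2 X Y Km Lm Kn Ln KU LU ex : ℝ}

theorem stpX_sound (hD : D.Ok x) (hI : okI fam m n U = true) (hc : con a b c = some cn)
    (hx : Enc E x' x) (hA : Enc E A' y1) (hB : Enc E B' y2) (hX1 : Enc E X1' x1)
    (hX2 : Enc E X2' x2) (hX : Enc E X' X) (hY : Enc E Y' Y) (eX : X = x2 + eps fam * x1)
    (eY : Y = y2 + eps fam * y1) (hex : ex = (x1 * y2 - x2 * y1) / 2 - 1 / 2)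
    (Hm : NHX D m a x x1 y1 Km Lm) (Hn : NHX D n (cond fam b c) x x2 y2 Kn Ln)
    (HU : UHX D U S V (cond fam c b) x X Y KU LU) (q1 : 1 ≤ qqn X Y) (q3 : qqn X Y ≤ 3)
    (h : stpX D fam m n U cn a b c S V i x' A' B' X1' X2' X' Y' = true) :
    ∃ γ, 0 ≤ slc cn (levF ex Lm (cond fam Ln LU) (cond fam LU Ln)) (D.kh.v x) x (y1 - jq a)
      (cond fam y2 Y - jq b) (y1 + cond fam y2 Y - jq c) Km (cond fam Kn KU) (cond fam KU Kn)
      γ := by
  unfold stpX at h
  simp only [frc_eq] at h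
  obtain ⟨c1, h⟩ := band_true h
  obtain ⟨c2, h⟩ := band_true h
  obtain ⟨c3, h⟩ := band_true h
  obtain ⟨c4, h⟩ := band_true h
  obtain ⟨c5, h⟩ := band_true h
  have hexE : Enc E (psub (phf (psub (pmul X1' B') (pmul X2' A'))) (phn 1)) ex := by
    refine enc_cast (enc_sub (enc_half (enc_sub (enc_mul hX1 hB) (enc_mul hX2 hA)))
      (enc_phn E 1)) ?_
    rw [hex]
    push_cast
    ring
  have hpx := enc_norm (enc_pxT m hX1 hA)
  have hpy := enc_norm (enc_pyT m hX1 hA)
  have hh := enc_ph0 E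
  have he1 := enc_mul hh (enc_sub (enc_one E) hx)
  have he3 : Enc E (pscale 167 50 (pmul ph0 (psub pone x'))) (e3R x) :=
    enc_cast (enc_scale 167 50 he1) (by unfold e3R; push_cast; ring)
  have he4 : Enc E (pscale 11 5 (pmul ph0 (psub pone x'))) (e4R x) :=
    enc_cast (enc_scale 11 5 he1) (by unfold e4R; push_cast; ring)
  have he5 : Enc E (pscale 5 2 (pmul ph0 (psub pone x'))) (e5R x) :=
    enc_cast (enc_scale 5 2 he1) (by unfold e5R; push_cast; ring)
  have hT := enc_norm (enc_t0T hh hpx hpy)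
  have a1 := ppos_sound (enc_add (enc_one E) hexE) c1
  have a2 := pnn_sound (enc_sub hT he4) c2
  have a3 := pnn_sound (enc_sub (enc_sub (enc_one E) he4) hT) c3
  obtain ⟨m1, m2⟩ := Hm.ge
  obtain ⟨n1, n2⟩ := Hn.ge
  obtain ⟨p4, p5⟩ := e4_lt hD
  obtain ⟨p6, p7⟩ := hD.e5
  have htm := Hm.tg
  have htn := Hn.tg
  unfold TgX at htm htn
  set px := m.px x1 y1 with hpxd
  set py := m.py x1 y1 with hpyd
  obtain ⟨tKm, tLm⟩ := htm (by linarith) (by linarith)
  have hE1 := enc_inv (enc_add (enc_one E) hexE)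
  have hn0x := enc_ixT n hpx hpy
  have hn0y := enc_iyT n hpx hpy
  obtain ⟨k1, k2⟩ := disp_strip (q := qqn X Y) (x0 := n.ix px py) (y0 := n.iy px py) hI Hm.len
    Hn.len hex a1.ne' (by rw [eX, eY]) rfl rfl
  set N := Nst U (qqn X Y) with hNd
  have hN0 : 0 ≤ N := Nst_nonneg q1 q3
  set dx := Dx fam U y2 (n.iy px py) (1 + ex)⁻¹ with hdxd
  set dy := Dy fam U x2 (n.ix px py) (1 + ex)⁻¹ with hdyd
  have h5 : Enc E (pnorm (sg (cond (uT U) fam (!fam)) (pmul (pscale 3 64 (padd B'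
      (iyT n (pnorm (pxT m X1' A')) (pnorm (pyT m X1' A'))))) (pinv (padd pone
      (psub (phf (psub (pmul X1' B') (pmul X2' A'))) (phn 1))))))) dx := by
    refine enc_norm (enc_cast (enc_sg _ (enc_mul (enc_scale 3 64 (enc_add hB hn0y)) hE1)) ?_)
    rw [hdxd]
    unfold Dx
    rcases uT_iff U with ⟨e1, -, e3⟩ | ⟨e1, -, e3⟩ <;> rw [e1, e3] <;> cases fam <;>
      simp [sgr, eps]
  have h6 : Enc E (pnorm (sg (cond (uT U) (!fam) fam) (pmul (pscale 1 16 (padd X2'
      (ixT n (pnorm (pxT m X1' A')) (pnorm (pyT m X1' A'))))) (pinv (padd pone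
      (psub (phf (psub (pmul X1' B') (pmul X2' A'))) (phn 1))))))) dy := by
    refine enc_norm (enc_cast (enc_sg _ (enc_mul (enc_scale 1 16 (enc_add hX2 hn0x)) hE1)) ?_)
    rw [hdyd]
    unfold Dy
    rcases uT_iff U with ⟨e1, -, e3⟩ | ⟨e1, -, e3⟩ <;> rw [e1, e3] <;> cases fam <;>
      simp [sgr, eps]
  have hq := enc_qqT hX hY
  -- the second node
  have u1 : n.px x2 y2 = px + N * n.px dx dy := by
    conv_lhs => rw [k1, k2]
    rw [Ty.px_add, Ty.px_ix]
  have u2 : n.py x2 y2 = py + N * n.py dx dy := by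
    conv_lhs => rw [k1, k2]
    rw [Ty.py_add, Ty.py_iy]
  have v1 : U.px X Y = px + N * U.px dx dy := by
    have e1 : X = U.ix px py + N * dx := by
      rw [eX, inst_x hI, k1, hpxd, hpyd, Ty.ix_px]
      ring
    have e2 : Y = U.iy px py + N * dy := by
      rw [eY, inst_y hI, k2, hpxd, hpyd, Ty.iy_py]
      ring
    rw [e1, e2, Ty.px_add, Ty.px_ix]
  have v2 : U.py X Y = py + N * U.py dx dy := by
    have e1 : X = U.ix px py + N * dx := by
      rw [eX, inst_x hI, k1, hpxd, hpyd, Ty.ix_px]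
      ring
    have e2 : Y = U.iy px py + N * dy := by
      rw [eY, inst_y hI, k2, hpxd, hpyd, Ty.iy_py]
      ring
    rw [e1, e2, Ty.py_add, Ty.py_iy]
  have v3 : qqn X Y - U.nq = 3 / 16 * sN U * N := by
    rw [hNd]
    unfold Nst
    linear_combination (-(qqn X Y - U.nq)) * sN_sq U
  have w1 := enc_norm (enc_pxT n hX2 hB)
  have w2 := enc_norm (enc_pyT n hX2 hB)
  have w3 := enc_norm (enc_pxT n h5 h6)
  have w4 := enc_norm (enc_pyT n h5 h6)
  have hnt : Enc E (dj (jq (cond fam b c)) B') (y2 - jq (cond fam b c)) := enc_dj _ hB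
  have ht : Enc E (dj (jq (cond fam c b)) Y') (Y - jq (cond fam c b)) := enc_dj _ hY
  have hTn := enc_norm (enc_t0T hh w1 w2)
  have a4 := pnn_sound (enc_sub hTn he4) c4
  have a5 := pnn_sound (enc_sub (enc_sub (enc_one E) he4) hTn) c5
  obtain ⟨dt, hdt, et⟩ := dtT_sound hh w1 hpx w3 w4 n2 n1 m2 m1 (N := N)
    (by rw [u1]; ring) (by rw [u2]; ring)
  have hdt' := enc_norm hdt
  obtain ⟨tKn, tLn⟩ := htn (by linarith) (by linarith)
  set Tn := t0R (n.px x2 y2) (n.py x2 y2) with hTnd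
  obtain ⟨dk, hdk, ek⟩ := kqT_sound (s := D.sR) hD.kr hD.kz p7 hx hh he5 hTn hT hdt'
    (by linarith) (by linarith) (by linarith) (by linarith) et
  obtain ⟨en, hen, eln⟩ := lvX_sound hD hx he3 n hTn hT hdt' et
  have hrn := enc_norm (enc_mul hnt (enc_norm hdk))
  obtain ⟨R, L, r, l, hR, hL, eR, eL, hf⟩ := thiX_sound hD hx hX hY hq ht hpx hpy hT h5 h6 hh he3
    he4 he5 HU m2 m1 q1 (by linarith) (by linarith) v1 v2 v3 h
  set T := t0R px py with hTd
  -- the rows
  have eKn : Kn = (y2 - jq (cond fam b c)) * D.ka x T + N * ((y2 - jq (cond fam b c)) * dk) := by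
    rw [tKn]
    unfold XDat.ka
    linear_combination (y2 - jq (cond fam b c)) * ek
  have eKm : Km = (y1 - jq a) * D.ka x T + N * 0 := by
    rw [tKm]
    ring
  have eLn : Ln = D.la.v x * (x2 + D.z n x T + N * en) := by
    rw [tLn]
    linear_combination D.la.v x * eln
  have eest := excess_strip (q := qqn X Y) hI Hm.len Hn.len hex a1.ne' (by rw [eX, eY])
  rw [← hNd] at eest
  have hest := enc_esuT hI hq hE1
  have hzz : Enc E (sl fam B' Y') (cond fam y2 Y) := enc_sl fam hB hY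
  have hlU := enc_mul (D.la.enc hx) (enc_norm (enc_sub hen hL))
  have hla := inst_la hI
  have hlb := inst_lb hI
  have hz : D.z U x T = D.z n x T + eps fam * D.z m x T := by
    unfold XDat.z
    rw [hla, hlb]
    ring
  cases fam
  · simp only [cond_false, eps] at *
    have eYt : y1 + Y = y2 := by rw [eY]; ring
    have htt : Enc E B' (y1 + Y) := enc_cast hB eYt.symm
    have hfi := fiT_sound hc hx hA hzz htt hest hrn hlU (enc_norm hR) (enc_dc00 E) hf
    simp only [cond_false, sub_zero] at hfi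
    refine ⟨_, far_strip hN0 (con_rel hc Hm.iny HU.iny (by rw [eYt]; exact Hn.iny)) eest eKm eR
      ?_ (L := -(D.la.v x * (en - l))) ?_ (by rw [abs_neg]; exact hfi)⟩
    · rw [eYt]
      exact eKn
    · rw [tLm, eL, eLn, hz, eX]
      ring
  · simp only [cond_true, eps] at *
    have eYt : y1 + y2 = Y := by rw [eY]; ring
    have htt : Enc E Y' (y1 + y2) := enc_cast hY eYt.symm
    have hfi := fiT_sound hc hx hA hzz htt hest hrn hlU (enc_norm hR) (enc_dc00 E) hf
    simp only [cond_true, sub_zero] at hfi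
    refine ⟨_, far_strip hN0 (con_rel hc Hm.iny Hn.iny (by rw [eYt]; exact HU.iny)) eest eKm eKn
      ?_ (L := D.la.v x * (en - l)) ?_ hfi⟩
    · rw [eYt]
      exact eR
    · rw [tLm, eL, eLn, hz, eX]
      ring

end

end Pool.Agent.Strip051.PB
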