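import Pool.Agent.Strip051.PB.StripXQ

/-! # Unit strips near `x = 1`, second form: kernel with two changes of the slope, vertices

The kernel function is a tree and two changes of the slope. If three points are not separated from
exactly one knot, the pair of the differences is between the pairs for three positions of the
knot. -/

namespace Pool.Agent.Strip051.PB

open Pool.Agent.StripNear Pool.Agent.StripSquare Pool.Agent.Strip051.Sweep
open Pool.Agent.Strip051.LC

attribute [local irreducible] padd psub pneg pmul psq pinv psqrt psqrtg pabs pps pmax pmin pphi plam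
  pcase phf pnat prat pscale pnorm pdc pnc pone ppos pnn Enc

/-- choice by a Boolean: `R` if it is true -/
noncomputable def bsel (b L R : Bool) : Bool := Bool.rec (motive := fun _ => Bool) L R b

theorem bsel_true {b L R : Bool} (h : bsel b L R = true) :
    (b = false ∧ L = true) ∨ (b = true ∧ R = true) := by
  cases b
  · exact Or.inl ⟨rfl, h⟩
  · exact Or.inr ⟨rfl, h⟩

/-! ### The kernel -/

/-- the kernel function: a tree and changes of the slope at `e` and `f` -/
noncomputable def ruY (T : DT) (s u e f x t : ℝ) : ℝ :=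
  T.kv t x + s * min (t - e) 0 + u * min (t - f) 0

/-- quotient of the part of a change of the slope -/
noncomputable def hgT (s e A B D : ℕ) : ℕ :=
  sel2 (band (pnn (psub A e)) (pnn (psub B e)))
    (sel2 (band (pnn (psub e A)) (pnn (psub e B)))
      (pmul s (pmul (thT A B (pmin A e) (pmin B e)) D)) (pmul s D)) (pdc 0 0)

noncomputable def rqY (T : DT) (s u e f A B D X : ℕ) : ℕ :=
  padd (kcd T A B D X) (padd (hgT s e A B D) (hgT u f A B D))

/-- quotient of `h0 R(t) / t` -/
noncomputable def kpY (T : DT) (s u h e f A B D X : ℕ) : ℕ :=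
  pmul h (pmul (pnorm (psub (pmul (pnorm (rqY T s u e f A B D X)) B)
    (pmul (pnorm (rqY T s u e f B (pscale 1 5 pone) (pnorm (psub B (pscale 1 5 pone))) X)) D)))
    (pinv (pmul A B)))

/-- quotient of `h0 R(t) / t` with slope `g` of `R` -/
noncomputable def kpS (T : DT) (s u h e f A B D X g : ℕ) : ℕ :=
  pmul h (pmul (pnorm (psub (pmul (pnorm (pmul g D)) B)
    (pmul (pnorm (rqY T s u e f B (pscale 1 5 pone) (pnorm (psub B (pscale 1 5 pone))) X)) D)))
    (pinv (pmul A B)))

/-- quotient of `κ` between two directions with the variables `A`, `B` -/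
noncomputable def kqY (T : DT) (s u h e f A B D X : ℕ) : ℕ :=
  sel2 (band (band (pnn (psub A (pscale 1 5 pone))) (pnn (psub (pscale 4 5 pone) A)))
      (band (pnn (psub B (pscale 1 5 pone))) (pnn (psub (pscale 4 5 pone) B))))
    (sel2 (band (pnn (psub (phn 1) A)) (pnn (psub (phn 1) B)))
      (sel2 (band (pnn (psub A (phn 1))) (pnn (psub B (phn 1)))) pbad
        (pneg (kpY T s u h e f (pnorm (psub pone A)) (pnorm (psub pone B)) (pneg D) X)))
      (kpY T s u h e f A B D X)) (pdc 0 0)

/-- the kernel in the direction with the variable `t` -/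
noncomputable def kaY (T : DT) (s u e f x t : ℝ) : ℝ :=
  if t ≤ 1 / 2 then h0 * ruY T s u e f x t / t else -(h0 * ruY T s u e f x (1 - t) / (1 - t))

/-- the quotient of `h0 R(t) / t` between `a` and `b`, `a - b = N d`, if `R` has the slope `g`
between them and the value `w` at `b` -/
noncomputable def kpR (g d a b w : ℝ) : ℝ := h0 * ((g * d * b - w * d) * (a * b)⁻¹)

section

variable {E : Pt} {T : DT} {s' u' h' e' f' A B D X : ℕ} {s u e f a b d x μ : ℝ}

theorem hgT_sound (hs : Enc E s' s) (he : Enc E e' e) (hA : Enc E A a) (hB : Enc E B b)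
    (hD : Enc E D d) (h : a - b = μ * d) :
    ∃ v, Enc E (hgT s' e' A B D) v ∧ s * min (a - e) 0 - s * min (b - e) 0 = μ * v := by
  have hm := lamR_min a b e
  have key : min (a - e) 0 - min (b - e) 0 = min a e - min b e := by
    have e1 : min (a - e) 0 = min a e - e := by
      rw [← min_sub_sub_right, sub_self]
    have e2 : min (b - e) 0 = min b e - e := by
      rw [← min_sub_sub_right, sub_self]
    rw [e1, e2]
    ring
  unfold hgT
  refine sel2_case (P := fun Z => ∃ v, Enc E Z v ∧ s * min (a - e) 0 - s * min (b - e) 0 = μ * v)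
    (sel2_case (P := fun Z => ∃ v, Enc E Z v ∧ s * min (a - e) 0 - s * min (b - e) 0 = μ * v)
      ?_ ?_) ?_
  · refine ⟨_, enc_mul hs (enc_mul (enc_thT hA hB (enc_min hA he) (enc_min hB he)) hD), ?_⟩
    linear_combination s * key - s * hm + s * lamR (min a e - min b e) (a - b) * h
  · intro hc
    obtain ⟨c1, c2⟩ := band_true hc
    have g1 := pnn_sound (enc_sub he hA) c1
    have g2 := pnn_sound (enc_sub he hB) c2
    refine ⟨_, enc_mul hs hD, ?_⟩
    rw [min_eq_left (by linarith), min_eq_left (by linarith)]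
    linear_combination s * h
  · intro hc
    obtain ⟨c1, c2⟩ := band_true hc
    have g1 := pnn_sound (enc_sub hA he) c1
    have g2 := pnn_sound (enc_sub hB he) c2
    refine ⟨_, enc_dc00 E, ?_⟩
    rw [min_eq_right g1, min_eq_right g2]
    ring

theorem rqY_sound (hT : T.KOk x) (hX : Enc E X x) (hs : Enc E s' s) (hu : Enc E u' u)
    (he : Enc E e' e) (hf : Enc E f' f) (hA : Enc E A a) (hB : Enc E B b) (hD : Enc E D d)
    (h : a - b = μ * d) :
    ∃ v, Enc E (rqY T s' u' e' f' A B D X) v ∧
      ruY T s u e f x a - ruY T s u e f x b = μ * v := by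
  obtain ⟨v, hv, ev⟩ := kcd_sound hX T hT hA hB hD h
  obtain ⟨v1, hv1, ev1⟩ := hgT_sound hs he hA hB hD h
  obtain ⟨v2, hv2, ev2⟩ := hgT_sound hu hf hA hB hD h
  refine ⟨_, enc_add hv (enc_add hv1 hv2), ?_⟩
  unfold ruY
  linear_combination ev + ev1 + ev2

theorem ruY_zero (hz : ∀ t, 1 / 5 ≤ t → T.kv t x = 0) (he5 : e ≤ 1 / 5) (hf5 : f ≤ 1 / 5) {t : ℝ}
    (ht : 1 / 5 ≤ t) : ruY T s u e f x t = 0 := by
  unfold ruY
  rw [hz t ht, min_eq_right (by linarith), min_eq_right (by linarith)]
  ring

/-- the value at a point -/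
theorem rvY_sound (hT : T.KOk x) (hz : ∀ t, 1 / 5 ≤ t → T.kv t x = 0) (he5 : e ≤ 1 / 5)
    (hf5 : f ≤ 1 / 5) (hX : Enc E X x) (hs : Enc E s' s) (hu : Enc E u' u)
    (he : Enc E e' e) (hf : Enc E f' f) (hB : Enc E B b) :
    Enc E (rqY T s' u' e' f' B (pscale 1 5 pone) (pnorm (psub B (pscale 1 5 pone))) X)
      (ruY T s u e f x b) := by
  obtain ⟨w, hw, ew⟩ := rqY_sound (s := s) (u := u) hT hX hs hu he hf hB (enc_c15 E)
    (enc_norm (enc_sub hB (enc_c15 E))) (μ := 1) (by ring)
  rw [ruY_zero hz he5 hf5 le_rfl] at ew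
  have e1 : ruY T s u e f x b = w := by linarith
  rw [e1]
  exact hw

theorem kpY_sound (hT : T.KOk x) (hz : ∀ t, 1 / 5 ≤ t → T.kv t x = 0) (he5 : e ≤ 1 / 5)
    (hf5 : f ≤ 1 / 5) (hX : Enc E X x) (hs : Enc E s' s) (hu : Enc E u' u)
    (hh : Enc E h' h0) (he : Enc E e' e) (hf : Enc E f' f) (hA : Enc E A a) (hB : Enc E B b)
    (hD : Enc E D d) (ha : 0 < a) (hb : 0 < b) (hab : a - b = μ * d) :
    ∃ v, Enc E (kpY T s' u' h' e' f' A B D X) v ∧
      h0 * ruY T s u e f x a / a - h0 * ruY T s u e f x b / b = μ * v := by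
  obtain ⟨v, hv, ev⟩ := rqY_sound (s := s) (u := u) hT hX hs hu he hf hA hB hD hab
  have hw := rvY_sound hT hz he5 hf5 hX hs hu he hf hB
  refine ⟨_, enc_mul hh (enc_mul (enc_norm (enc_sub (enc_mul (enc_norm hv) hB)
    (enc_mul (enc_norm hw) hD))) (enc_inv (enc_mul hA hB))), ?_⟩
  have ha' := ha.ne'
  have hb' := hb.ne'
  have e2 : ruY T s u e f x a = ruY T s u e f x b + μ * v := by linarith
  rw [e2]
  have e3 : a = b + μ * d := by linarith
  field_simp
  rw [e3]
  ring

theorem kpS_enc (hT : T.KOk x) (hz : ∀ t, 1 / 5 ≤ t → T.kv t x = 0) (he5 : e ≤ 1 / 5)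
    (hf5 : f ≤ 1 / 5) (hX : Enc E X x) (hs : Enc E s' s) (hu : Enc E u' u)
    (hh : Enc E h' h0) (he : Enc E e' e) (hf : Enc E f' f) (hA : Enc E A a) (hB : Enc E B b)
    (hD : Enc E D d) {G : ℕ} {g : ℝ} (hG : Enc E G g) :
    Enc E (kpS T s' u' h' e' f' A B D X G) (kpR g d a b (ruY T s u e f x b)) :=
  enc_mul hh (enc_mul (enc_norm (enc_sub (enc_mul (enc_norm (enc_mul hG hD)) hB)
    (enc_mul (enc_norm (rvY_sound hT hz he5 hf5 hX hs hu he hf hB)) hD)))
    (enc_inv (enc_mul hA hB)))

/-- the difference if the difference of `R` is given -/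
theorem kpR_eq {r w g N : ℝ} (ha : 0 < a) (hb : 0 < b) (hab : a - b = N * d)
    (hr : r - w = N * (g * d)) : h0 * r / a - h0 * w / b = N * kpR g d a b w := by
  have ha' := ha.ne'
  have hb' := hb.ne'
  have e2 : r = w + N * (g * d) := by linarith
  have e3 : a = b + N * d := by linarith
  unfold kpR
  rw [e2]
  field_simp
  rw [e3]
  ring

theorem kpR_comb (θ g g' w : ℝ) :
    kpR ((1 - θ) * g + θ * g') d a b w = (1 - θ) * kpR g d a b w + θ * kpR g' d a b w := by
  unfold kpR
  ring

theorem kaY_zero (hz : ∀ t, 1 / 5 ≤ t → T.kv t x = 0) (he5 : e ≤ 1 / 5) (hf5 : f ≤ 1 / 5)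
    (h1 : 1 / 5 ≤ a) (h2 : a ≤ 4 / 5) : kaY T s u e f x a = 0 := by
  unfold kaY
  split_ifs with h
  · rw [ruY_zero hz he5 hf5 h1]
    simp
  · rw [ruY_zero hz he5 hf5 (by linarith)]
    simp

theorem kaY_lo (h : a ≤ 1 / 2) : kaY T s u e f x a = h0 * ruY T s u e f x a / a := if_pos h

theorem kaY_hi (hz : ∀ t, 1 / 5 ≤ t → T.kv t x = 0) (he5 : e ≤ 1 / 5) (hf5 : f ≤ 1 / 5)
    (h : 1 / 2 ≤ a) :
    kaY T s u e f x a = -(h0 * ruY T s u e f x (1 - a) / (1 - a)) := by
  rcases h.eq_or_lt with h1 | h1
  · rw [kaY_zero hz he5 hf5 (by linarith) (by linarith), ruY_zero hz he5 hf5 (by linarith)]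
    simp
  · exact if_neg (not_le.2 h1)

theorem enc_ch (E : Pt) : Enc E (phn 1) (1 / 2 : ℝ) := enc_cast (enc_phn E 1) (by norm_num)

theorem kqY_sound (hT : T.KOk x) (hz : ∀ t, 1 / 5 ≤ t → T.kv t x = 0) (he5 : e ≤ 1 / 5)
    (hf5 : f ≤ 1 / 5) (hX : Enc E X x) (hs : Enc E s' s) (hu : Enc E u' u)
    (hh : Enc E h' h0) (he : Enc E e' e) (hf : Enc E f' f) (hA : Enc E A a) (hB : Enc E B b)
    (hD : Enc E D d) (ha : 0 < a) (hb : 0 < b) (ha1 : a < 1) (hb1 : b < 1)
    (hab : a - b = μ * d) :
    ∃ v, Enc E (kqY T s' u' h' e' f' A B D X) v ∧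
      kaY T s u e f x a - kaY T s u e f x b = μ * v := by
  have c5 := enc_c15 E
  have c4 := enc_c45 E
  have ch := enc_ch E
  unfold kqY
  refine sel2_case (P := fun Z => ∃ v, Enc E Z v ∧
      kaY T s u e f x a - kaY T s u e f x b = μ * v)
    (sel2_case (P := fun Z => ∃ v, Enc E Z v ∧ kaY T s u e f x a - kaY T s u e f x b = μ * v)
    (sel2_case (P := fun Z => ∃ v, Enc E Z v ∧ kaY T s u e f x a - kaY T s u e f x b = μ * v)
      ?_ ?_) ?_) ?_
  · by_cases hμ : μ = 0
    · refine ⟨0, enc_pbad E _, ?_⟩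
      have : a = b := by
        rw [hμ, zero_mul] at hab
        linarith
      rw [this, sub_self, mul_zero]
    · exact ⟨(kaY T s u e f x a - kaY T s u e f x b) / μ, enc_pbad E _, by field_simp⟩
  · intro hc
    obtain ⟨c1, c2⟩ := band_true hc
    have g1 := pnn_sound (enc_sub hA ch) c1
    have g2 := pnn_sound (enc_sub hB ch) c2
    obtain ⟨v, hv, ev⟩ := kpY_sound (s := s) (u := u) hT hz he5 hf5 hX hs hu hh he hf
      (enc_norm (enc_sub (enc_one E) hA))
      (enc_norm (enc_sub (enc_one E) hB)) (enc_neg hD) (μ := μ) (by linarith) (by linarith)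
      (by linear_combination -hab)
    refine ⟨_, enc_neg hv, ?_⟩
    rw [kaY_hi hz he5 hf5 (by linarith), kaY_hi hz he5 hf5 (by linarith)]
    linear_combination -ev
  · intro hc
    obtain ⟨c1, c2⟩ := band_true hc
    have g1 := pnn_sound (enc_sub ch hA) c1
    have g2 := pnn_sound (enc_sub ch hB) c2
    rw [kaY_lo (by linarith), kaY_lo (by linarith)]
    exact kpY_sound hT hz he5 hf5 hX hs hu hh he hf hA hB hD ha hb hab
  · intro hc
    obtain ⟨c1, c2⟩ := band_true hc
    obtain ⟨c3, c4'⟩ := band_true c1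
    obtain ⟨c5', c6⟩ := band_true c2
    have g1 := pnn_sound (enc_sub hA c5) c3
    have g2 := pnn_sound (enc_sub c4 hA) c4'
    have g3 := pnn_sound (enc_sub hB c5) c5'
    have g4 := pnn_sound (enc_sub c4 hB) c6
    refine ⟨0, enc_dc00 E, ?_⟩
    rw [kaY_zero hz he5 hf5 (by linarith) (by linarith),
      kaY_zero hz he5 hf5 (by linarith) (by linarith)]
    ring

end

/-! ### One knot -/

/-- one of three points -/
def in3 (a b c t : ℝ) : Prop := t = a ∨ t = b ∨ t = c

/-- On the points `P` the function has one knot `κ` with the slopes `L`, `R`. -/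
def Kink (g : ℝ → ℝ) (κ L R : ℝ) (P : ℝ → Prop) : Prop :=
  ∃ v, ∀ t, P t → g t = v + L * min (t - κ) 0 + R * max (t - κ) 0

/-- On the points `P` the function is affine with the slope `s`. -/
def AffOnY (g : ℝ → ℝ) (s : ℝ) (P : ℝ → Prop) : Prop := ∃ v, ∀ t, P t → g t = s * t + v

theorem min_max_add (t : ℝ) : min t 0 + max t 0 = t := by
  have := min_add_max t 0
  linarith

/-- two affine pieces -/
theorem Kink.of_pieces {g l r : ℝ → ℝ} {κ L R : ℝ} {P : ℝ → Prop}
    (hl : AffOnY l L fun t => P t ∨ t = κ) (hr : AffOnY r R fun t => P t ∨ t = κ)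
    (hk : l κ = r κ) (hg : ∀ t, g t = if t ≤ κ then l t else r t) : Kink g κ L R P := by
  obtain ⟨v, hv⟩ := hl
  obtain ⟨w, hw⟩ := hr
  have h1 := hv κ (Or.inr rfl)
  have h2 := hw κ (Or.inr rfl)
  refine ⟨L * κ + v, fun t ht => ?_⟩
  rw [hg]
  split_ifs with h
  · rw [hv t (Or.inl ht), min_eq_left (by linarith), max_eq_right (by linarith)]
    ring
  · rw [not_le] at h
    rw [hw t (Or.inl ht), min_eq_right (by linarith), max_eq_left (by linarith)]
    linear_combination h1 - h2 - hk

/-! ### Walks in the tree -/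

/-- the four points are above the knot -/
noncomputable def geK (k A B C : ℕ) : Bool :=
  band (pnn (psub A k)) (band (pnn (psub B k)) (pnn (psub C k)))

/-- the three points are below the knot -/
noncomputable def leK (k A B C : ℕ) : Bool :=
  band (pnn (psub k A)) (band (pnn (psub k B)) (pnn (psub k C)))

/-- the last slope of the tree, if all points are above its last knots -/
noncomputable def oneR (T : DT) (A B C K X : ℕ) (fin : ℕ → Bool) : Bool :=
  DT.rec (motive := fun _ => Bool) (fun s _ => fin (s.t X)) (fun _ _ _ => false) false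
    (fun k _ _ _ ir => band (geK k.t A B C) (band (pnn (psub K k.t)) ir)) T

/-- the first slope of the tree, if all points are below its first knots -/
noncomputable def oneL (T : DT) (A B C K X : ℕ) (fin : ℕ → Bool) : Bool :=
  DT.rec (motive := fun _ => Bool) (fun s _ => fin (s.t X)) (fun _ _ _ => false) false
    (fun k _ _ il _ => band (leK k.t A B C) (band (pnn (psub k.t K)) il)) T

/-- the knot of the tree which is not separated from the points, with the slopes -/
noncomputable def knT (T : DT) (A B C X : ℕ) (fin : ℕ → ℕ → ℕ → Bool) : Bool :=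
  DT.rec (motive := fun _ => Bool) (fun _ _ => false) (fun _ _ _ => false) false
    (fun k l r il ir => bsel (leK k.t A B C) (bsel (geK k.t A B C)
      (oneR l A B C k.t X fun L => oneL r A B C k.t X fun R => fin k.t L R) ir) il) T

section

variable {A B C K X : ℕ} {fin : ℕ → Bool} {fi3 : ℕ → ℕ → ℕ → Bool} {k : Cn} {l r : DT}

theorem oneR_node : oneR (.node k l r) A B C K X fin =
    band (geK k.t A B C) (band (pnn (psub K k.t)) (oneR r A B C K X fin)) := by
  delta oneR
  exact rfl

theorem oneL_node : oneL (.node k l r) A B C K X fin =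
    band (leK k.t A B C) (band (pnn (psub k.t K)) (oneL l A B C K X fin)) := by
  delta oneL
  exact rfl

theorem knT_node : knT (.node k l r) A B C X fi3 = bsel (leK k.t A B C)
    (bsel (geK k.t A B C) (oneR l A B C k.t X fun L => oneL r A B C k.t X fun R => fi3 k.t L R)
      (knT r A B C X fi3)) (knT l A B C X fi3) := by
  delta knT
  exact rfl

end

section

variable {E : Pt} {A B C K X : ℕ} {a b c κ x : ℝ}

theorem geK_sound {k' : ℕ} {k : ℝ} (hk : Enc E k' k) (hA : Enc E A a) (hB : Enc E B b)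
    (hC : Enc E C c) (h : geK k' A B C = true) {t : ℝ} (ht : in3 a b c t) : k ≤ t := by
  obtain ⟨h1, h2⟩ := band_true h
  obtain ⟨h2, h3⟩ := band_true h2
  have g1 := pnn_sound (enc_sub hA hk) h1
  have g2 := pnn_sound (enc_sub hB hk) h2
  have g3 := pnn_sound (enc_sub hC hk) h3
  rcases ht with rfl | rfl | rfl <;> linarith

theorem leK_sound {k' : ℕ} {k : ℝ} (hk : Enc E k' k) (hA : Enc E A a) (hB : Enc E B b)
    (hC : Enc E C c) (h : leK k' A B C = true) {t : ℝ} (ht : in3 a b c t) : t ≤ k := by
  obtain ⟨h1, h2⟩ := band_true h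
  obtain ⟨h2, h3⟩ := band_true h2
  have g1 := pnn_sound (enc_sub hk hA) h1
  have g2 := pnn_sound (enc_sub hk hB) h2
  have g3 := pnn_sound (enc_sub hk hC) h3
  rcases ht with rfl | rfl | rfl <;> linarith

theorem oneR_sound {fin : ℕ → Bool} (hX : Enc E X x) (hA : Enc E A a) (hB : Enc E B b)
    (hC : Enc E C c) (hK : Enc E K κ) : ∀ T : DT, T.KOk x → oneR T A B C K X fin = true →
    ∃ s' s, Enc E s' s ∧ AffOnY (fun t => T.kv t x) s (fun t => in3 a b c t ∨ t = κ) ∧
      fin s' = true := by
  intro T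
  induction T with
  | lin s v => exact fun _ h => ⟨_, _, s.enc hX, ⟨v.v x, fun t _ => rfl⟩, h⟩
  | quad w s v => exact fun _ h => absurd (show false = true from h) Bool.false_ne_true
  | clo => exact fun _ h => absurd (show false = true from h) Bool.false_ne_true
  | node k l r _ ir =>
    intro hT h
    rw [oneR_node] at h
    obtain ⟨h1, h2⟩ := band_true h
    obtain ⟨h2, h3⟩ := band_true h2
    obtain ⟨s', s, hs, ⟨v, hv⟩, hf⟩ := ir hT.2.2 h3
    have g := pnn_sound (enc_sub hK (k.enc E)) h2
    refine ⟨s', s, hs, ⟨v, fun t ht => ?_⟩, hf⟩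
    have h4 : k.v ≤ t := by
      rcases ht with ht | rfl
      · exact geK_sound (k.enc E) hA hB hC h1 ht
      · linarith
    have h5 := hv t ht
    simp only [DT.kv] at h5 ⊢
    split_ifs with h6
    · have : t = k.v := le_antisymm h6 h4
      rw [← h5, this]
      exact hT.1
    · exact h5

theorem oneL_sound {fin : ℕ → Bool} (hX : Enc E X x) (hA : Enc E A a) (hB : Enc E B b)
    (hC : Enc E C c) (hK : Enc E K κ) : ∀ T : DT, T.KOk x → oneL T A B C K X fin = true →
    ∃ s' s, Enc E s' s ∧ AffOnY (fun t => T.kv t x) s (fun t => in3 a b c t ∨ t = κ) ∧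
      fin s' = true := by
  intro T
  induction T with
  | lin s v => exact fun _ h => ⟨_, _, s.enc hX, ⟨v.v x, fun t _ => rfl⟩, h⟩
  | quad w s v => exact fun _ h => absurd (show false = true from h) Bool.false_ne_true
  | clo => exact fun _ h => absurd (show false = true from h) Bool.false_ne_true
  | node k l r il _ =>
    intro hT h
    rw [oneL_node] at h
    obtain ⟨h1, h2⟩ := band_true h
    obtain ⟨h2, h3⟩ := band_true h2
    obtain ⟨s', s, hs, ⟨v, hv⟩, hf⟩ := il hT.2.1 h3
    have g := pnn_sound (enc_sub (k.enc E) hK) h2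
    refine ⟨s', s, hs, ⟨v, fun t ht => ?_⟩, hf⟩
    have h4 : t ≤ k.v := by
      rcases ht with ht | rfl
      · exact leK_sound (k.enc E) hA hB hC h1 ht
      · linarith
    have h5 := hv t ht
    simp only [DT.kv] at h5 ⊢
    rw [if_pos h4]
    exact h5

theorem knT_sound {fin : ℕ → ℕ → ℕ → Bool} (hX : Enc E X x) (hA : Enc E A a) (hB : Enc E B b)
    (hC : Enc E C c) : ∀ T : DT, T.KOk x → knT T A B C X fin = true →
    ∃ k' L' R' k L R, Enc E k' k ∧ Enc E L' L ∧ Enc E R' R ∧
      Kink (fun t => T.kv t x) k L R (in3 a b c) ∧ fin k' L' R' = true := by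
  intro T
  induction T with
  | lin s v => exact fun _ h => absurd (show false = true from h) Bool.false_ne_true
  | quad w s v => exact fun _ h => absurd (show false = true from h) Bool.false_ne_true
  | clo => exact fun _ h => absurd (show false = true from h) Bool.false_ne_true
  | node k l r il ir =>
    intro hT h
    rw [knT_node] at h
    rcases bsel_true h with ⟨-, h⟩ | ⟨h1, h⟩
    · rcases bsel_true h with ⟨-, h⟩ | ⟨h1, h⟩
      · obtain ⟨L', L, hL, aL, h⟩ := oneR_sound hX hA hB hC (k.enc E) l hT.2.1 h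
        obtain ⟨R', R, hR, aR, h⟩ := oneL_sound hX hA hB hC (k.enc E) r hT.2.2 h
        exact ⟨_, _, _, _, _, _, k.enc E, hL, hR, Kink.of_pieces aL aR hT.1 (fun t => rfl), h⟩
      · obtain ⟨k', L', R', κ, L, R, e1, e2, e3, ⟨v, hv⟩, hf⟩ := ir hT.2.2 h
        refine ⟨k', L', R', κ, L, R, e1, e2, e3, ⟨v, fun t ht => ?_⟩, hf⟩
        have h4 := geK_sound (k.enc E) hA hB hC h1 ht
        have h5 := hv t ht
        simp only [DT.kv] at h5 ⊢
        split_ifs with h6
        · have : t = k.v := le_antisymm h6 h4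
          rw [← h5, this]
          exact hT.1
        · exact h5
    · obtain ⟨k', L', R', κ, L, R, e1, e2, e3, ⟨v, hv⟩, hf⟩ := il hT.2.1 h
      refine ⟨k', L', R', κ, L, R, e1, e2, e3, ⟨v, fun t ht => ?_⟩, hf⟩
      have h4 := leK_sound (k.enc E) hA hB hC h1 ht
      have h5 := hv t ht
      simp only [DT.kv] at h5 ⊢
      rw [if_pos h4]
      exact h5

end

/-- the knot of the kernel function which is not separated from the points, with the slopes;
`e` is above `f` -/
noncomputable def knH (T : DT) (s u e f A B C X : ℕ) (fin : ℕ → ℕ → ℕ → Bool) : Bool :=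
  bsel (geK e A B C) (bsel (geK f A B C)
      (band (leK e A B C) (oneL T A B C A X fun g => frc (pnorm (padd g s)) fun g =>
        fin f (pnorm (padd g u)) g))
      (oneL T A B C A X fun g => fin e (pnorm (padd g s)) g))
    (knT T A B C X fin)

section

variable {E : Pt} {T : DT} {A B C s' u' e' f' X : ℕ} {a b c s u e f x : ℝ}

theorem knH_sound {fin : ℕ → ℕ → ℕ → Bool} (hT : T.KOk x) (hef : f ≤ e) (hX : Enc E X x)
    (hs : Enc E s' s) (hu : Enc E u' u) (he : Enc E e' e) (hf : Enc E f' f) (hA : Enc E A a)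
    (hB : Enc E B b) (hC : Enc E C c) (h : knH T s' u' e' f' A B C X fin = true) :
    ∃ k' L' R' k L R, Enc E k' k ∧ Enc E L' L ∧ Enc E R' R ∧
      Kink (ruY T s u e f x) k L R (in3 a b c) ∧ fin k' L' R' = true := by
  unfold knH at h
  rcases bsel_true h with ⟨-, h⟩ | ⟨h1, h⟩
  · rcases bsel_true h with ⟨-, h⟩ | ⟨h1, h⟩
    · obtain ⟨h1, h⟩ := band_true h
      obtain ⟨g', g, hg, ⟨v, hv⟩, h⟩ := oneL_sound hX hA hB hC hA T hT h
      rw [frc_eq] at h
      have hgs := enc_norm (enc_add hg hs)
      refine ⟨_, _, _, _, _, _, hf, enc_norm (enc_add hgs hu), hgs, ⟨g * f + v + s * (f - e),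
        fun t ht => ?_⟩, h⟩
      have h2 := leK_sound he hA hB hC h1 ht
      have h3 := hv t (Or.inl ht)
      have h4 := min_max_add (t - f)
      simp only at h3
      unfold ruY
      rw [h3, min_eq_left (show t - e ≤ 0 by linarith)]
      linear_combination (-(g + s)) * h4
    · obtain ⟨g', g, hg, ⟨v, hv⟩, h⟩ := oneL_sound hX hA hB hC hA T hT h
      refine ⟨_, _, _, _, _, _, he, enc_norm (enc_add hg hs), hg, ⟨g * e + v, fun t ht => ?_⟩, h⟩
      have h2 := geK_sound hf hA hB hC h1 ht
      have h3 := hv t (Or.inl ht)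
      have h4 := min_max_add (t - e)
      simp only at h3
      unfold ruY
      rw [h3, min_eq_right (show 0 ≤ t - f by linarith)]
      linear_combination (-g) * h4
  · obtain ⟨k', L', R', κ, L, R, e1, e2, e3, ⟨v, hv⟩, hf'⟩ := knT_sound hX hA hB hC T hT h
    refine ⟨k', L', R', κ, L, R, e1, e2, e3, ⟨v, fun t ht => ?_⟩, hf'⟩
    have h2 := geK_sound he hA hB hC h1 ht
    have h3 := hv t ht
    simp only at h3
    unfold ruY
    rw [h3, min_eq_right (show 0 ≤ t - e by linarith), min_eq_right (show 0 ≤ t - f by linarith)]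
    ring

end

/-! ### Positions of one knot -/

/-- `p` is between the other two of the three points -/
def Med (p b n c : ℝ) : Prop :=
  ∃ p0 p2, p0 ≤ p ∧ p ≤ p2 ∧ ∀ t, in3 b n c t → t = p0 ∨ t = p ∨ t = p2

/-- difference of the function with the knot `κ` between `t` and `b` -/
noncomputable def dK (κ L R b t : ℝ) : ℝ := R * (t - b) + (L - R) * (min t κ - min b κ)

section

variable {g : ℝ → ℝ} {κ L R b n c p N dn dc : ℝ}

theorem Kink.diff (h : Kink g κ L R (in3 b n c)) {t : ℝ} (ht : in3 b n c t) :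
    g t - g b = dK κ L R b t := by
  obtain ⟨v, hv⟩ := h
  rw [hv t ht, hv b (Or.inl rfl)]
  have e1 : min (t - κ) 0 = min t κ - κ := by
    rw [← min_sub_sub_right, sub_self]
  have e2 : min (b - κ) 0 = min b κ - κ := by
    rw [← min_sub_sub_right, sub_self]
  have e3 := min_max_add (t - κ)
  have e4 := min_max_add (b - κ)
  unfold dK
  linear_combination R * e3 - R * e4 + (L - R) * e1 - (L - R) * e2

theorem dK_low (hm : Med p b n c) (hκ : κ ≤ p) :
    ∃ θ, 0 ≤ θ ∧ θ ≤ 1 ∧ ∀ t, in3 b n c t →
      dK κ L R b t = (1 - θ) * (R * (t - b)) + θ * dK p L R b t := by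
  obtain ⟨p0, p2, h0, h2, hp⟩ := hm
  obtain ⟨θ, r, t0, t1, hθ⟩ : ∃ θ r, 0 ≤ θ ∧ θ ≤ 1 ∧
      ∀ t, in3 b n c t → min t κ = θ * min t p + r := by
    rcases le_total κ p0 with h | h
    · refine ⟨0, κ, le_rfl, zero_le_one, fun t ht => ?_⟩
      rw [min_eq_right (by rcases hp t ht with rfl | rfl | rfl <;> linarith)]
      ring
    · rcases h0.eq_or_lt with h3 | h3
      · refine ⟨0, κ, le_rfl, zero_le_one, fun t ht => ?_⟩
        rw [min_eq_right (by rcases hp t ht with rfl | rfl | rfl <;> linarith)]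
        ring
      · have h4 : 0 < p - p0 := by linarith
        have h5 : (κ - p0) / (p - p0) * (p - p0) = κ - p0 := div_mul_cancel₀ _ h4.ne'
        refine ⟨(κ - p0) / (p - p0), κ - (κ - p0) / (p - p0) * p, div_nonneg (by linarith) h4.le,
          by rw [div_le_one h4]; linarith, fun t ht => ?_⟩
        rcases hp t ht with rfl | rfl | rfl
        · rw [min_eq_left h, min_eq_left h0]
          linear_combination h5
        · rw [min_eq_right hκ, min_self]
          ring
        · rw [min_eq_right (by linarith), min_eq_right h2]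
          ring
  refine ⟨θ, t0, t1, fun t ht => ?_⟩
  unfold dK
  rw [hθ t ht, hθ b (Or.inl rfl)]
  ring

theorem dK_high (hm : Med p b n c) (hκ : p ≤ κ) :
    ∃ θ, 0 ≤ θ ∧ θ ≤ 1 ∧ ∀ t, in3 b n c t →
      dK κ L R b t = (1 - θ) * dK p L R b t + θ * (L * (t - b)) := by
  obtain ⟨p0, p2, h0, h2, hp⟩ := hm
  obtain ⟨θ, t0, t1, hθ⟩ : ∃ θ, 0 ≤ θ ∧ θ ≤ 1 ∧
      ∀ t, in3 b n c t → min t κ = θ * t + (1 - θ) * min t p := by
    rcases le_total p2 κ with h | h
    · refine ⟨1, zero_le_one, le_rfl, fun t ht => ?_⟩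
      rw [min_eq_left (by rcases hp t ht with rfl | rfl | rfl <;> linarith)]
      ring
    · rcases h2.eq_or_lt with h3 | h3
      · refine ⟨1, zero_le_one, le_rfl, fun t ht => ?_⟩
        rw [min_eq_left (by rcases hp t ht with rfl | rfl | rfl <;> linarith)]
        ring
      · have h4 : 0 < p2 - p := by linarith
        have h5 : (κ - p) / (p2 - p) * (p2 - p) = κ - p := div_mul_cancel₀ _ h4.ne'
        refine ⟨(κ - p) / (p2 - p), div_nonneg (by linarith) h4.le,
          by rw [div_le_one h4]; linarith, fun t ht => ?_⟩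
        rcases hp t ht with rfl | rfl | rfl
        · rw [min_eq_left (by linarith), min_eq_left h0]
          ring
        · rw [min_eq_left hκ, min_self]
          ring
        · rw [min_eq_right h, min_eq_right h2]
          linear_combination -h5
  refine ⟨θ, t0, t1, fun t ht => ?_⟩
  unfold dK
  rw [hθ t ht, hθ b (Or.inl rfl)]
  ring

end

/-! ### The vertex in the middle -/

/-- `g + λ(a, b) (f - g)` -/
noncomputable def rhoY (a b f g : ℕ) : ℕ := pnorm (padd g (pmul (plam a b) (pnorm (psub f g))))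

/-- The slopes for the knot at the point in the middle; `dn`, `dc` are the quotients of the distances
of the points `N`, `C` from `B`. -/
noncomputable def vtx (L R B N C dn dc : ℕ) (fin : ℕ → ℕ → ℕ → Bool) : Bool :=
  frc (pneg dn) fun zn => frc (pneg dc) fun zc =>
  bsel (band (pnn dc) (pnn (psub dn dc)))
    (bsel (band (pnn dn) (pnn (psub dc dn)))
      (bsel (band (pnn zc) (pnn (psub zn zc)))
        (bsel (band (pnn zn) (pnn (psub zc zn)))
          (bsel (band (pnn dn) (pnn zc)) (band (band (pnn zn) (pnn dc)) (fin L R B))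
            (fin R L B))
          (fin R (rhoY zn zc R L) N))
        (fin (rhoY zc zn R L) R C))
      (fin L (rhoY dn dc L R) N))
    (fin (rhoY dc dn L R) L C)

section

variable {E : Pt} {L' R' B' N' C' dn' dc' : ℕ} {L R b n c N dn dc : ℝ}
  {fin : ℕ → ℕ → ℕ → Bool}

theorem enc_rhoY {a' b' f' g' : ℕ} {a b f g : ℝ} (ha : Enc E a' a) (hb : Enc E b' b)
    (hf : Enc E f' f) (hg : Enc E g' g) :
    Enc E (rhoY a' b' f' g') (g + lamR a b * (f - g)) :=
  enc_norm (enc_add hg (enc_mul (enc_lam ha hb) (enc_norm (enc_sub hf hg))))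

theorem lamR_le {a b : ℝ} (h0 : 0 ≤ a) (h : a ≤ b) : lamR a b * b = a :=
  lamR_mul (fun _ => ⟨h0, h⟩) fun h1 => ⟨by linarith, by linarith⟩

/-- the result of `vtx` -/
theorem vtx_sound (hN : 0 ≤ N) (e1 : n - b = N * dn) (e2 : c - b = N * dc) (hL : Enc E L' L)
    (hR : Enc E R' R) (hB : Enc E B' b) (hNn : Enc E N' n) (hC : Enc E C' c) (h1 : Enc E dn' dn)
    (h2 : Enc E dc' dc) (h : vtx L' R' B' N' C' dn' dc' fin = true) :
    ∃ sn' sc' p' sn sc p, Enc E sn' sn ∧ Enc E sc' sc ∧ Enc E p' p ∧ Med p b n c ∧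
      dK p L R b n = N * (sn * dn) ∧ dK p L R b c = N * (sc * dc) ∧ fin sn' sc' p' = true := by
  have z1 := enc_neg h1
  have z2 := enc_neg h2
  unfold vtx at h
  simp only [frc_eq] at h
  rcases bsel_true h with ⟨-, h⟩ | ⟨c1, h⟩
  · rcases bsel_true h with ⟨-, h⟩ | ⟨c1, h⟩
    · rcases bsel_true h with ⟨-, h⟩ | ⟨c1, h⟩
      · rcases bsel_true h with ⟨-, h⟩ | ⟨c1, h⟩
        · rcases bsel_true h with ⟨-, h⟩ | ⟨c1, h⟩
          · -- n ≤ b ≤ c
            obtain ⟨c1, h⟩ := band_true h
            obtain ⟨c1, c2⟩ := band_true c1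
            have g1 := pnn_sound z1 c1
            have g2 := pnn_sound h2 c2
            have k1 : 0 ≤ N * -dn := mul_nonneg hN g1
            have k2 : 0 ≤ N * dc := mul_nonneg hN g2
            refine ⟨_, _, _, _, _, _, hL, hR, hB, ⟨n, c, by linarith, by linarith, ?_⟩, ?_, ?_, h⟩
            · rintro t (rfl | rfl | rfl) <;> simp
            · unfold dK
              rw [min_eq_left (by linarith), min_self]
              linear_combination L * e1
            · unfold dK
              rw [min_eq_right (by linarith), min_self]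
              linear_combination R * e2
          · -- c ≤ b ≤ n
            obtain ⟨c1, c2⟩ := band_true c1
            have g1 := pnn_sound h1 c1
            have g2 := pnn_sound z2 c2
            have k1 : 0 ≤ N * dn := mul_nonneg hN g1
            have k2 : 0 ≤ N * -dc := mul_nonneg hN g2
            refine ⟨_, _, _, _, _, _, hR, hL, hB, ⟨c, n, by linarith, by linarith, ?_⟩, ?_, ?_, h⟩
            · rintro t (rfl | rfl | rfl) <;> simp
            · unfold dK
              rw [min_eq_right (by linarith), min_self]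
              linear_combination R * e1
            · unfold dK
              rw [min_eq_left (by linarith), min_self]
              linear_combination L * e2
        · -- c ≤ n ≤ b
          obtain ⟨c1, c2⟩ := band_true c1
          have g1 := pnn_sound z1 c1
          have g2 := pnn_sound (enc_sub z2 z1) c2
          have hl := lamR_le g1 (show -dn ≤ -dc by linarith)
          have k1 : 0 ≤ N * -dn := mul_nonneg hN g1
          have k2 : 0 ≤ N * (-dc - -dn) := mul_nonneg hN g2
          refine ⟨_, _, _, _, _, _, hR, enc_rhoY z1 z2 hR hL, hNn,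
            ⟨c, b, by linarith, by linarith, ?_⟩, ?_, ?_, h⟩
          · rintro t (rfl | rfl | rfl) <;> simp
          · unfold dK
            rw [min_self, min_eq_right (by linarith)]
            linear_combination R * e1
          · unfold dK
            rw [min_eq_left (by linarith), min_eq_right (by linarith)]
            linear_combination L * e2 + (R - L) * e1 + N * (R - L) * hl
      · -- n ≤ c ≤ b
        obtain ⟨c1, c2⟩ := band_true c1
        have g1 := pnn_sound z2 c1
        have g2 := pnn_sound (enc_sub z1 z2) c2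
        have hl := lamR_le g1 (show -dc ≤ -dn by linarith)
        have k1 : 0 ≤ N * -dc := mul_nonneg hN g1
        have k2 : 0 ≤ N * (-dn - -dc) := mul_nonneg hN g2
        refine ⟨_, _, _, _, _, _, enc_rhoY z2 z1 hR hL, hR, hC,
          ⟨n, b, by linarith, by linarith, ?_⟩, ?_, ?_, h⟩
        · rintro t (rfl | rfl | rfl) <;> simp
        · unfold dK
          rw [min_eq_left (by linarith), min_eq_right (by linarith)]
          linear_combination L * e1 + (R - L) * e2 + N * (R - L) * hl
        · unfold dK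
          rw [min_self, min_eq_right (by linarith)]
          linear_combination R * e2
    · -- b ≤ n ≤ c
      obtain ⟨c1, c2⟩ := band_true c1
      have g1 := pnn_sound h1 c1
      have g2 := pnn_sound (enc_sub h2 h1) c2
      have hl := lamR_le g1 (show dn ≤ dc by linarith)
      have k1 : 0 ≤ N * dn := mul_nonneg hN g1
      have k2 : 0 ≤ N * (dc - dn) := mul_nonneg hN g2
      refine ⟨_, _, _, _, _, _, hL, enc_rhoY h1 h2 hL hR, hNn,
        ⟨b, c, by linarith, by linarith, ?_⟩, ?_, ?_, h⟩
      · rintro t (rfl | rfl | rfl) <;> simp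
      · unfold dK
        rw [min_self, min_eq_left (by linarith)]
        linear_combination L * e1
      · unfold dK
        rw [min_eq_right (by linarith), min_eq_left (by linarith)]
        linear_combination R * e2 + (L - R) * e1 - N * (L - R) * hl
  · -- b ≤ c ≤ n
    obtain ⟨c1, c2⟩ := band_true c1
    have g1 := pnn_sound h2 c1
    have g2 := pnn_sound (enc_sub h1 h2) c2
    have hl := lamR_le g1 (show dc ≤ dn by linarith)
    have k1 : 0 ≤ N * dc := mul_nonneg hN g1
    have k2 : 0 ≤ N * (dn - dc) := mul_nonneg hN g2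
    refine ⟨_, _, _, _, _, _, enc_rhoY h2 h1 hL hR, hL, hC,
      ⟨b, n, by linarith, by linarith, ?_⟩, ?_, ?_, h⟩
    · rintro t (rfl | rfl | rfl) <;> simp
    · unfold dK
      rw [min_eq_right (by linarith), min_eq_left (by linarith)]
      linear_combination R * e1 + (L - R) * e2 - N * (L - R) * hl
    · unfold dK
      rw [min_self, min_eq_left (by linarith)]
      linear_combination L * e2

end

end Pool.Agent.Strip051.PB
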