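import Pool.Agent.Strip051.PB.StripY
import Pool.Agent.Strip051.LC.Line.Corn.Scale

/-! # Unit strips near `x = 1`: the slack is concave in the values on the sides -/

namespace Pool.Agent.Strip051.PB

open Pool.Agent.Strip051.LC.Line (phi_smul)
open Pool.Agent.Strip051.LC.Line.Corn (phi_add_le)

/-- The three arcs are nonnegative. -/
def Con.arc (c : Con) (u v w : ℝ) : Prop :=
  match c with
  | .pp => 0 ≤ u ∧ 0 ≤ v ∧ u + v ≤ 1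
  | .nn => 0 ≤ -v ∧ 0 ≤ -u ∧ -v + -u ≤ 1
  | .pnp => 0 ≤ w ∧ 0 ≤ -v ∧ w + -v ≤ 1
  | .pnn => 0 ≤ -w ∧ 0 ≤ u ∧ -w + u ≤ 1
  | .npp => 0 ≤ -u ∧ 0 ≤ w ∧ -u + w ≤ 1
  | .npn => 0 ≤ v ∧ 0 ≤ -w ∧ v + -w ≤ 1
  | .up => 0 ≤ u ∧ 0 ≤ v ∧ 0 ≤ -w
  | .dn => 0 ≤ w ∧ 0 ≤ -v ∧ 0 ≤ -u

theorem con_arc {a b c : ℕ} {cn : Con} (h : con a b c = some cn) {y z : ℝ} (hy : InQ a y)
    (hz : InQ b z) (hw : InQ c (y + z)) : cn.arc (y - jq a) (z - jq b) (y + z - jq c) := by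
  unfold con at h
  split at h
  all_goals first
    | (obtain rfl := Option.some.inj h
       obtain ⟨a1, a2⟩ := hy
       obtain ⟨b1, b2⟩ := hz
       obtain ⟨c1, c2⟩ := hw
       simp only [Con.arc, jq]
       push_cast
       refine ⟨?_, ?_, ?_⟩ <;> linarith)
    | exact absurd h (by simp)

theorem phi_comb {θ : ℝ} (t0 : 0 ≤ θ) (t1 : θ ≤ 1) (p q p' q' : ℝ) :
    LC.Line.phi ((1 - θ) * p + θ * p') ((1 - θ) * q + θ * q') ≤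
      (1 - θ) * LC.Line.phi p q + θ * LC.Line.phi p' q' := by
  have h := phi_add_le ((1 - θ) * p) ((1 - θ) * q) (θ * p') (θ * q')
  rwa [phi_smul (by linarith), phi_smul t0] at h

theorem stn_comb {θ ex k x l1 l2 l3 W1 W2 W3 V1 V2 V3 g : ℝ} (t0 : 0 ≤ θ) (t1 : θ ≤ 1)
    (hk : 0 ≤ k) (h1 : 0 ≤ l1) (h2 : 0 ≤ l2) (h3 : 0 ≤ l3) :
    (1 - θ) * stn ex k x l1 l2 l3 W1 W2 W3 g + θ * stn ex k x l1 l2 l3 V1 V2 V3 g ≤
      stn ex k x l1 l2 l3 ((1 - θ) * W1 + θ * V1) ((1 - θ) * W2 + θ * V2)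
        ((1 - θ) * W3 + θ * V3) g := by
  have e : ∀ a b : ℝ, (1 - θ) * a + θ * b - g = (1 - θ) * (a - g) + θ * (b - g) := fun a b => by
    ring
  have a1 := phi_comb t0 t1 (W1 - g) (W2 - g) (V1 - g) (V2 - g)
  have a2 := phi_comb t0 t1 (W2 - g) (W3 - g) (V2 - g) (V3 - g)
  have a3 := phi_comb t0 t1 (W3 - g) (W1 - g) (V3 - g) (V1 - g)
  unfold stn
  rw [e, e, e]
  have b1 := mul_le_mul_of_nonneg_left (mul_le_mul_of_nonneg_left a1 h1) hk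
  have b2 := mul_le_mul_of_nonneg_left (mul_le_mul_of_nonneg_left a2 h2) hk
  have b3 := mul_le_mul_of_nonneg_left (mul_le_mul_of_nonneg_left a3 h3) hk
  linarith

theorem slN_comb {θ ex k x l1 l2 A1 A2 A3 B1 B2 B3 g : ℝ} (t0 : 0 ≤ θ) (t1 : θ ≤ 1)
    (hk : 0 ≤ k) (h1 : 0 ≤ l1) (h2 : 0 ≤ l2) (h3 : l1 + l2 ≤ 1) :
    (1 - θ) * slN ex k x l1 l2 A1 A2 A3 g + θ * slN ex k x l1 l2 B1 B2 B3 g ≤
      slN ex k x l1 l2 ((1 - θ) * A1 + θ * B1) ((1 - θ) * A2 + θ * B2)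
        ((1 - θ) * A3 + θ * B3) g := by
  have e1 : pn1 l1 l2 ((1 - θ) * A1 + θ * B1) ((1 - θ) * A2 + θ * B2) ((1 - θ) * A3 + θ * B3) =
      (1 - θ) * pn1 l1 l2 A1 A2 A3 + θ * pn1 l1 l2 B1 B2 B3 := by unfold pn1; ring
  have e2 : pn2 l1 l2 ((1 - θ) * A1 + θ * B1) ((1 - θ) * A2 + θ * B2) ((1 - θ) * A3 + θ * B3) =
      (1 - θ) * pn2 l1 l2 A1 A2 A3 + θ * pn2 l1 l2 B1 B2 B3 := by unfold pn2; ring
  have e3 : pn3 l1 l2 ((1 - θ) * A1 + θ * B1) ((1 - θ) * A2 + θ * B2) ((1 - θ) * A3 + θ * B3) =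
      (1 - θ) * pn3 l1 l2 A1 A2 A3 + θ * pn3 l1 l2 B1 B2 B3 := by unfold pn3; ring
  unfold slN
  rw [e1, e2, e3]
  exact stn_comb t0 t1 hk h1 h2 (by linarith)

theorem slW_comb {θ ex k x l1 l2 l3 A1 A2 A3 B1 B2 B3 g : ℝ} (t0 : 0 ≤ θ) (t1 : θ ≤ 1)
    (hk : 0 ≤ k) (h1 : 0 ≤ l1) (h2 : 0 ≤ l2) (h3 : 0 ≤ l3) :
    (1 - θ) * slW ex k x l1 l2 l3 A1 A2 A3 g + θ * slW ex k x l1 l2 l3 B1 B2 B3 g ≤
      slW ex k x l1 l2 l3 ((1 - θ) * A1 + θ * B1) ((1 - θ) * A2 + θ * B2)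
        ((1 - θ) * A3 + θ * B3) g := by
  have e : ∀ a b c a' b' c' p q r : ℝ, pon ((1 - θ) * a + θ * a') ((1 - θ) * b + θ * b')
      ((1 - θ) * c + θ * c') p q r = (1 - θ) * pon a b c p q r + θ * pon a' b' c' p q r := by
    intro a b c a' b' c' p q r
    unfold pon
    ring
  unfold slW
  rw [e, e, e]
  exact stn_comb t0 t1 hk h1 h2 h3

/-- **The slack is concave in the values on the sides.** -/
theorem slc_comb {c : Con} {θ ex k x u v w R1 R2 R3 Q1 Q2 Q3 g : ℝ} (t0 : 0 ≤ θ) (t1 : θ ≤ 1)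
    (hk : 0 ≤ k) (h : c.arc u v w) :
    (1 - θ) * slc c ex k x u v w R1 R2 R3 g + θ * slc c ex k x u v w Q1 Q2 Q3 g ≤
      slc c ex k x u v w ((1 - θ) * R1 + θ * Q1) ((1 - θ) * R2 + θ * Q2)
        ((1 - θ) * R3 + θ * Q3) g := by
  have n : ∀ a b : ℝ, -((1 - θ) * a + θ * b) = (1 - θ) * -a + θ * -b := fun a b => by ring
  cases c
  · obtain ⟨h1, h2, h3⟩ := h
    simp only [slc, n]
    exact slN_comb t0 t1 hk h1 h2 h3
  · obtain ⟨h1, h2, h3⟩ := h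
    simp only [slc, n]
    exact slN_comb t0 t1 hk h1 h2 h3
  · obtain ⟨h1, h2, h3⟩ := h
    simp only [slc, n]
    exact slN_comb t0 t1 hk h1 h2 h3
  · obtain ⟨h1, h2, h3⟩ := h
    simp only [slc, n]
    exact slN_comb t0 t1 hk h1 h2 h3
  · obtain ⟨h1, h2, h3⟩ := h
    simp only [slc, n]
    exact slN_comb t0 t1 hk h1 h2 h3
  · obtain ⟨h1, h2, h3⟩ := h
    simp only [slc, n]
    exact slN_comb t0 t1 hk h1 h2 h3
  · obtain ⟨h1, h2, h3⟩ := h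
    simp only [slc, n]
    exact slW_comb t0 t1 hk h1 h2 h3
  · obtain ⟨h1, h2, h3⟩ := h
    simp only [slc, n]
    exact slW_comb t0 t1 hk h1 h2 h3

/-- values between two pairs of values -/
def Cv (P : ℝ → ℝ → Prop) (a b : ℝ) : Prop :=
  ∃ θ a1 b1 a2 b2, 0 ≤ θ ∧ θ ≤ 1 ∧ P a1 b1 ∧ P a2 b2 ∧ a = (1 - θ) * a1 + θ * a2 ∧
    b = (1 - θ) * b1 + θ * b2

theorem Cv.one {P : ℝ → ℝ → Prop} {a b : ℝ} (h : P a b) : Cv P a b :=
  ⟨0, a, b, a, b, le_rfl, zero_le_one, h, h, by ring, by ring⟩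

theorem Cv.map {P Q : ℝ → ℝ → Prop} {a b : ℝ} (p q p' q' : ℝ)
    (hPQ : ∀ a b, P a b → Q (p * a + q) (p' * b + q')) (h : Cv P a b) :
    Cv Q (p * a + q) (p' * b + q') := by
  obtain ⟨θ, a1, b1, a2, b2, t0, t1, h1, h2, rfl, rfl⟩ := h
  exact ⟨θ, _, _, _, _, t0, t1, hPQ _ _ h1, hPQ _ _ h2, by ring, by ring⟩

theorem Cv.imp {P Q : ℝ → ℝ → Prop} {a b : ℝ} (hPQ : ∀ a b, P a b → Q a b) (h : Cv P a b) :
    Cv Q a b := by
  obtain ⟨θ, a1, b1, a2, b2, t0, t1, h1, h2, e1, e2⟩ := h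
  exact ⟨θ, _, _, _, _, t0, t1, hPQ _ _ h1, hPQ _ _ h2, e1, e2⟩

/-- The slack at the values between two pairs, `f + N` times the slack being nonnegative there. -/
theorem Cv.slc {cn : Con} {fam : Bool} {f N ex k x u v w g a b : ℝ} (hN : 0 ≤ N) (hk : 0 ≤ k)
    (hc : cn.arc u v w)
    (h : Cv (fun a b => 0 ≤ f + N * slc cn ex k x u v w 0 (cond fam a b) (cond fam b a) g) a b) :
    0 ≤ f + N * slc cn ex k x u v w 0 (cond fam a b) (cond fam b a) g := by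
  obtain ⟨θ, a1, b1, a2, b2, t0, t1, h1, h2, rfl, rfl⟩ := h
  have h3 := slc_comb (ex := ex) (x := x) (R1 := 0) (R2 := cond fam a1 b1) (R3 := cond fam b1 a1)
    (Q1 := 0) (Q2 := cond fam a2 b2) (Q3 := cond fam b2 a2) (g := g) t0 t1 hk hc
  have e1 : (1 - θ) * (0 : ℝ) + θ * 0 = 0 := by ring
  have e2 : (1 - θ) * cond fam a1 b1 + θ * cond fam a2 b2 =
      cond fam ((1 - θ) * a1 + θ * a2) ((1 - θ) * b1 + θ * b2) := by cases fam <;> rfl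
  have e3 : (1 - θ) * cond fam b1 a1 + θ * cond fam b2 a2 =
      cond fam ((1 - θ) * b1 + θ * b2) ((1 - θ) * a1 + θ * a2) := by cases fam <;> rfl
  rw [e1, e2, e3] at h3
  have h4 := mul_le_mul_of_nonneg_left h3 hN
  have h5 := mul_nonneg (sub_nonneg.2 t1) h1
  have h6 := mul_nonneg t0 h2
  nlinarith

end Pool.Agent.Strip051.PB
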