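import Pool.Agent.Strip051.PB.StripYT
import Pool.Agent.Strip051.PB.StripXE

/-! # Unit strips near `x = 1`, second form: the final tests -/

namespace Pool.Agent.Strip051.PB

open Pool.Agent.StripNear Pool.Agent.StripSquare Pool.Agent.Strip051.Sweep
open Pool.Agent.Strip051.LC

attribute [local irreducible] padd psub pneg pmul psq pinv psqrt psqrtg pabs pps pmax pmin pphi plam
  pcase phf pnat prat pscale pnorm pdc pnc pone ppos pnn Enc

/-- the final test at the far vertex -/
noncomputable def fiF (D : YDat) (fam : Bool) (m n U : Ty) (cn : Con) (a b c g x A z t : ℕ)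
    (_T q E1 _e3 _ln lU : ℕ) (K : (ℕ → ℕ → Bool) → Bool) : Bool :=
  frc (phf (pmul (D.la.t x) lU)) fun L => frc (esuT m n U q E1) fun e =>
  frc (D.kh.t x) fun kh => frc (dj (jq a) A) fun u => frc (dj (jq b) z) fun v =>
  frc (dj (jq c) t) fun w => frc (pneg u) fun u' => frc (pneg v) fun v' => frc (pneg w) fun w' =>
  frc (pga g) fun g =>
  K fun rn rU => frc (psub e (rowPhi cn kh x u u' v v' w w' (pdc 0 0) (pdc 0 0) (sl fam rn rU)
    (pneg (sl fam rn rU)) (sl fam rU rn) (pneg (sl fam rU rn)) g)) fun F =>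
  band (ppos (psub F L)) (ppos (padd F L))

/-- `f + N G` is nonnegative -/
noncomputable def okN (f N G : ℕ) : Bool := bsel (pnn G) (ppos (padd f (pmul N G))) true

/-- the final test at the near vertex -/
noncomputable def fiN (D : YDat) (N0 : ℕ) (fam : Bool) (m n U : Ty) (cn : Con)
    (a b c g x A z t : ℕ) (T q E1 e3 ln lU : ℕ) (K : (ℕ → ℕ → Bool) → Bool) : Bool :=
  frc (muT N0 x) fun μ => frc (D.la.t x) fun la => frc (pnorm (pmul μ la)) fun ml =>
  frc (phf ml) fun hml =>
  frc (pmul hml (pnorm (psub (padd pone (pmul z (pnorm (zvT D.LT m e3 T x))))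
    (pmul A (pnorm (zvT D.LT (cond fam n U) e3 T x)))))) fun f0 =>
  frc (pscale 16 3 (sl (uT U) (psub q pone) (psub (pnc 3) q))) fun Nn =>
  frc (esuT m n U q E1) fun e =>
  frc (psub (padd e (pmul ml e)) (pmul hml (pnorm (pmul A (sl fam ln (pnorm (psub ln lU)))))))
    fun ee =>
  frc (pmul μ (pmul (pnorm (psub (padd (phn N0) (phf x)) (phf t))) (pnorm (pmul la lU)))) fun L =>
  frc (D.kh.t x) fun kh => frc (dj (jq a) A) fun u => frc (dj (jq b) z) fun v =>
  frc (dj (jq c) t) fun w => frc (pneg u) fun u' => frc (pneg v) fun v' => frc (pneg w) fun w' =>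
  frc (pga g) fun g =>
  band (ppos f0) (K fun rn rU => frc (psub ee (rowPhi cn kh x u u' v v' w w' (pdc 0 0) (pdc 0 0)
    (sl fam rn rU) (pneg (sl fam rn rU)) (sl fam rU rn) (pneg (sl fam rU rn)) g)) fun F =>
  band (okN f0 Nn (psub F L)) (okN f0 Nn (padd F L)))

section

variable {E : Pt} {D : YDat} {fam : Bool} {m n U : Ty} {cn : Con}
  {a b c g N0 x' A' z' t' T' q' E1' e3' ln' lU' : ℕ} {KK : (ℕ → ℕ → Bool) → Bool}
  {x y z q E1 T en lU rn rU : ℝ}

theorem okN_sound {f' N' G' : ℕ} {f N G : ℝ} (hf : Enc E f' f) (hN : Enc E N' N)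
    (hG : Enc E G' G) (f0 : 0 < f) (N0 : 0 ≤ N) (h : okN f' N' G' = true) : 0 ≤ f + N * G := by
  rcases bsel_true h with ⟨-, h⟩ | ⟨c1, -⟩
  · have := ppos_sound (enc_add hf (enc_mul hN hG)) h
    linarith
  · have := pnn_sound hG c1
    have := mul_nonneg N0 this
    linarith

/-- the forms of the slack -/
theorem enc_sF (hc : con a b c = some cn) (hx : Enc E x' x) (hA : Enc E A' y) (hz : Enc E z' z)
    (ht : Enc E t' (y + z)) {e' : ℕ} {e : ℝ} (he : Enc E e' e) {Rn RU : ℕ} (h1 : Enc E Rn rn)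
    (h2 : Enc E RU rU) :
    Enc E (psub e' (rowPhi cn (D.kh.t x') x' (dj (jq a) A') (pneg (dj (jq a) A')) (dj (jq b) z')
      (pneg (dj (jq b) z')) (dj (jq c) t') (pneg (dj (jq c) t')) (pdc 0 0) (pdc 0 0)
      (sl fam Rn RU) (pneg (sl fam Rn RU)) (sl fam RU Rn) (pneg (sl fam RU Rn)) (pga g)))
      (slc cn e (D.kh.v x) x (y - jq a) (z - jq b) (y + z - jq c) 0 (cond fam rn rU)
        (cond fam rU rn) (gar g)) := by
  have n0 : Enc E (pdc 0 0) (-0) := enc_cast (enc_dc0 E) neg_zero.symm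
  have hP := enc_rowPhi cn (D.kh.enc hx) hx (enc_dj (jq a) hA) (enc_neg (enc_dj (jq a) hA))
    (enc_dj (jq b) hz) (enc_neg (enc_dj (jq b) hz)) (enc_dj (jq c) ht)
    (enc_neg (enc_dj (jq c) ht)) (enc_dc0 E) n0 (enc_sl fam h1 h2)
    (enc_neg (enc_sl fam h1 h2)) (enc_sl fam h2 h1) (enc_neg (enc_sl fam h2 h1)) (enc_pga E g)
    (con_ok hc y z) e
  exact enc_cast (enc_sub he hP) (by ring)

end

/-- a strip with a constant part of the excess -/
theorem near_strip {c : Con} {N e f k x u v w K r1 r2 r3 R1 R2 R3 γ : ℝ} (hN : 0 ≤ N)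
    (hc : c.rel u v w) (h1 : R1 = u * K + N * r1) (h2 : R2 = v * K + N * r2)
    (h3 : R3 = w * K + N * r3) :
    slc c (N * e + f) k x u v w R1 R2 R3 (N * γ) = N * slc c e k x u v w r1 r2 r3 γ + f := by
  have e1 : R1 = N * r1 + u * K := by rw [h1]; ring
  have e2 : R2 = N * r2 + v * K := by rw [h2]; ring
  have e3 : R3 = N * r3 + w * K := by rw [h3]; ring
  rw [slc_add, e1, e2, e3, slc_gauge K hc, slc_smul hN]

section

variable {E : Pt} {D : YDat} {fam : Bool} {m n U : Ty} {S S2 : Sg} {V : VX} {cn : Con}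
  {a b c i g N0 x' A' B' X1' X2' X' Y' : ℕ}
  {x y1 y2 x1 x2 X Y Km Lm Kn Ln KU LU ex : ℝ}

theorem stpF_sound (hD : D.Ok x) (hk : 0 ≤ D.kh.v x) (hI : okI fam m n U = true)
    (hc : con a b c = some cn)
    (hx : Enc E x' x) (hA : Enc E A' y1) (hB : Enc E B' y2) (hX1 : Enc E X1' x1)
    (hX2 : Enc E X2' x2) (hX : Enc E X' X) (hY : Enc E Y' Y) (eX : X = x2 + eps fam * x1)
    (eY : Y = y2 + eps fam * y1) (hex : ex = (x1 * y2 - x2 * y1) / 2 - 1 / 2)
    (Hm : NHY D m a x x1 y1 Km Lm) (Hn : NHY D n (cond fam b c) x x2 y2 Kn Ln)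
    (HU : UHY D U S S2 V (cond fam c b) x X Y KU LU) (q1 : 1 ≤ qqn X Y) (q3 : qqn X Y ≤ 3)
    (h : stpY D fam m n U b c S S2 V i x' A' B' X1' X2' X' Y'
      (fiF D fam m n U cn a b c g x' A' (sl fam B' Y') (sl fam Y' B')) = true) :
    ∃ γ, 0 ≤ slc cn (levF ex Lm (cond fam Ln LU) (cond fam LU Ln)) (D.kh.v x) x (y1 - jq a)
      (cond fam y2 Y - jq b) (y1 + cond fam y2 Y - jq c) Km (cond fam Kn KU) (cond fam KU Kn)
      γ := by
  obtain ⟨T', q', E1', e3', ln', lU', KK, T, en, lU, hT, hq, hE1, he3, hln, hlU, a1, eKm, eLm, eLn,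
    eLU, hfi, hK⟩ := stpY_sound hD hI hx hA hB hX1 hX2 hX hY eX eY hex Hm Hn HU q1 q3 h
  set N := Nst U (qqn X Y) with hNd
  have hN0 : 0 ≤ N := Nst_nonneg q1 q3
  have eest := excess_strip (q := qqn X Y) hI Hm.len Hn.len hex a1.ne' (by rw [eX, eY])
  rw [← hNd] at eest
  have hest := enc_esuT hI hq hE1
  unfold fiF at hfi
  simp only [frc_eq] at hfi
  obtain ⟨rn, rU, eKn, eKU, hcv⟩ := hK _ hfi
  have hL := enc_half (enc_mul (D.la.enc hx) hlU)
  have hzz : Enc E (sl fam B' Y') (cond fam y2 Y) := enc_sl fam hB hY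
  have htt : Enc E (sl fam Y' B') (y1 + cond fam y2 Y) := by
    refine enc_cast (enc_sl fam hY hB) ?_
    cases fam
    · simp only [cond_false, eps] at *
      rw [eY]
      ring
    · simp only [cond_true, eps] at *
      rw [eY]
      ring
  have hInz : InQ b (cond fam y2 Y) := by
    cases fam
    · exact HU.iny
    · exact Hn.iny
  have hInt : InQ c (y1 + cond fam y2 Y) := by
    cases fam
    · have : y1 + Y = y2 := by
        simp only [eps, cond_false] at eY
        rw [eY]
        ring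
      simp only [cond_false, this]
      exact Hn.iny
    · have : y1 + y2 = Y := by
        simp only [eps, cond_true] at eY
        rw [eY]
        ring
      simp only [cond_true, this]
      exact HU.iny
  have hrel := con_rel hc Hm.iny hInz hInt
  have harc := con_arc hc Hm.iny hInz hInt
  set y' := cond fam y2 Y with hy'
  have key := Cv.slc (f := -(|D.la.v x * lU| / 2)) (N := 1)
    (ex := est m n U (qqn X Y) (1 + ex)⁻¹) (x := x) (g := gar g) (fam := fam) zero_le_one hk harc
    (hcv.imp (by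
      rintro α β ⟨A, B, h1, h2, hf⟩
      obtain ⟨c1, c2⟩ := band_true hf
      have hF := enc_sF (D := D) (fam := fam) (g := g) hc hx hA hzz htt hest h1 h2
      have k1 := ppos_sound (enc_sub hF hL) c1
      have k2 := ppos_sound (enc_add hF hL) c2
      rcases abs_cases (D.la.v x * lU) with ⟨e2, -⟩ | ⟨e2, -⟩ <;> rw [e2] <;> linarith))
  have hfi' : 0 ≤ slc cn (est m n U (qqn X Y) (1 + ex)⁻¹ - |D.la.v x * lU| / 2) (D.kh.v x) x
      (y1 - jq a) (y' - jq b) (y1 + y' - jq c) 0 (cond fam rn rU) (cond fam rU rn) (gar g) := by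
    have e1 : est m n U (qqn X Y) (1 + ex)⁻¹ - |D.la.v x * lU| / 2 =
      est m n U (qqn X Y) (1 + ex)⁻¹ + -(|D.la.v x * lU| / 2) := by ring
    rw [e1, slc_add]
    linarith
  have hla := inst_la hI
  have hlb := inst_lb hI
  have hz : D.z U x T = D.z n x T + eps fam * D.z m x T := by
    unfold YDat.z
    rw [hla, hlb]
    ring
  have eKm' : Km = (y1 - jq a) * D.ka x T + N * 0 := by
    rw [eKm]
    ring
  cases fam
  · simp only [cond_false, eps] at *
    have eYt : y1 + Y = y2 := by rw [eY]; ring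
    refine ⟨_, far_strip hN0 hrel eest eKm' eKU
      ?_ (L := -(D.la.v x * lU)) ?_ (by rw [abs_neg]; exact hfi')⟩
    · rw [hy', eYt]
      exact eKn
    · rw [eLm, eLU, eLn, hz, eX]
      ring
  · simp only [cond_true, eps] at *
    have eYt : y1 + y2 = Y := by rw [eY]; ring
    refine ⟨_, far_strip hN0 hrel eest eKm' eKn
      ?_ (L := D.la.v x * lU) ?_ hfi'⟩
    · rw [hy', eYt]
      exact eKU
    · rw [eLm, eLU, eLn, hz, eX]
      ring

/-- the level term at the near vertex -/
theorem levN_cases (N0 : ℕ) (x y y' ex l1 l2 l3 : ℝ) :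
    (levN N0 0 x y y' ex l1 l2 l3 = ex + mun N0 x * ((N0 / 2 + x / 2 - (y + y') / 2) *
        (l1 + l2 - l3) + (y' * l1 - y * l2) / 2)) ∨
      levN N0 0 x y y' ex l1 l2 l3 = ex + mun N0 x * (-((N0 / 2 + x / 2 - (y + y') / 2) *
        (l1 + l2 - l3)) + (y' * l1 - y * l2) / 2) := by
  unfold levN
  rcases min_choice (levn N0 0 x y y' l1 l2 l3) (levm N0 0 x y y' l1 l2 l3) with e | e <;> rw [e]
  · left
    unfold levn
    ring
  · right
    unfold levm
    ring

theorem stpN_sound (hD : D.Ok x) (hk : 0 ≤ D.kh.v x) (hI : okI fam m n U = true)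
    (hc : con a b c = some cn)
    (hx : Enc E x' x) (hA : Enc E A' y1) (hB : Enc E B' y2) (hX1 : Enc E X1' x1)
    (hX2 : Enc E X2' x2) (hX : Enc E X' X) (hY : Enc E Y' Y) (eX : X = x2 + eps fam * x1)
    (eY : Y = y2 + eps fam * y1) (hex : ex = (x1 * y2 - x2 * y1) / 2 - 1 / 2)
    (Hm : NHY D m a x x1 y1 Km Lm) (Hn : NHY D n (cond fam b c) x x2 y2 Kn Ln)
    (HU : UHY D U S S2 V (cond fam c b) x X Y KU LU) (q1 : 1 ≤ qqn X Y) (q3 : qqn X Y ≤ 3)
    (h : stpY D fam m n U b c S S2 V i x' A' B' X1' X2' X' Y'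
      (fiN D N0 fam m n U cn a b c g x' A' (sl fam B' Y') (sl fam Y' B')) = true) :
    ∃ γ, 0 ≤ slc cn (levN N0 0 x y1 (cond fam y2 Y) ex Lm (cond fam Ln LU) (cond fam LU Ln))
      (D.kh.v x) x (y1 - jq a)
      (cond fam y2 Y - jq b) (y1 + cond fam y2 Y - jq c) Km (cond fam Kn KU) (cond fam KU Kn)
      γ := by
  obtain ⟨T', q', E1', e3', ln', lU', KK, T, en, lU, hT, hq, hE1, he3, hln, hlU, a1, eKm, eLm, eLn,
    eLU, hfi, hK⟩ := stpY_sound hD hI hx hA hB hX1 hX2 hX hY eX eY hex Hm Hn HU q1 q3 h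
  set N := Nst U (qqn X Y) with hNd
  have hN0 : 0 ≤ N := Nst_nonneg q1 q3
  have eest := excess_strip (q := qqn X Y) hI Hm.len Hn.len hex a1.ne' (by rw [eX, eY])
  rw [← hNd] at eest
  have hest := enc_esuT hI hq hE1
  unfold fiN at hfi
  simp only [frc_eq] at hfi
  obtain ⟨c0, hfi⟩ := band_true hfi
  obtain ⟨rn, rU, eKn, eKU, hcv⟩ := hK _ hfi
  have hzz : Enc E (sl fam B' Y') (cond fam y2 Y) := enc_sl fam hB hY
  have htt : Enc E (sl fam Y' B') (y1 + cond fam y2 Y) := by
    refine enc_cast (enc_sl fam hY hB) ?_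
    cases fam
    · simp only [cond_false, eps] at *
      rw [eY]
      ring
    · simp only [cond_true, eps] at *
      rw [eY]
      ring
  have hInz : InQ b (cond fam y2 Y) := by
    cases fam
    · exact HU.iny
    · exact Hn.iny
  have hInt : InQ c (y1 + cond fam y2 Y) := by
    cases fam
    · have : y1 + Y = y2 := by
        simp only [eps, cond_false] at eY
        rw [eY]
        ring
      simp only [cond_false, this]
      exact Hn.iny
    · have : y1 + y2 = Y := by
        simp only [eps, cond_true] at eY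
        rw [eY]
        ring
      simp only [cond_true, this]
      exact HU.iny
  have hrel := con_rel hc Hm.iny hInz hInt
  have harc := con_arc hc Hm.iny hInz hInt
  -- the forms
  have hμ := enc_muT N0 hx
  have hla' := D.la.enc hx
  have hml := enc_norm (enc_mul hμ hla')
  have hhml := enc_half hml
  have hz1 := enc_zvT (D := D) hx he3 m hT
  have hz2 := enc_zvT (D := D) hx he3 (cond fam n U) hT
  have hf0 := enc_mul hhml (enc_norm (enc_sub (enc_add (enc_one E) (enc_mul hzz (enc_norm hz1)))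
    (enc_mul hA (enc_norm hz2))))
  have hNn : Enc E (pscale 16 3 (sl (uT U) (psub q' pone) (psub (pnc 3) q'))) N := by
    have h3 := enc_pnc E 3
    refine enc_cast (enc_scale 16 3 (enc_sl (uT U) (enc_sub hq (enc_one E)) (enc_sub h3 hq))) ?_
    rw [hNd]
    unfold Nst sN
    rcases uT_iff U with ⟨e1, e2, e3⟩ | ⟨e1, e2, e3⟩ <;> rw [e1, e2] <;>
      simp only [cond_true, cond_false] <;> push_cast <;> ring
  set y' := cond fam y2 Y with hy'
  set l2q := cond fam en (en - lU) with hl2q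
  have hl2 : Enc E (sl fam ln' (pnorm (psub ln' lU'))) l2q :=
    enc_sl fam hln (enc_norm (enc_sub hln hlU))
  have hee := enc_sub (enc_add hest (enc_mul hml hest))
    (enc_mul hhml (enc_norm (enc_mul hA hl2)))
  have hL := enc_mul hμ (enc_mul (enc_norm (enc_sub (enc_add (enc_phn E N0) (enc_half hx))
    (enc_half htt))) (enc_norm (enc_mul hla' hlU)))
  set e := est m n U (qqn X Y) (1 + ex)⁻¹ with hed
  set μ := mun N0 x with hμd
  set la := D.la.v x with hlad
  set ee := e + μ * la * e - μ * la / 2 * (y1 * l2q) with heed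
  set L := μ * ((((N0 : ℕ) : ℝ) / 2 + x / 2 - (y1 + y') / 2) * (la * lU)) with hLd
  set f0 := μ * la / 2 * (1 + y' * D.z m x T - y1 * D.z (cond fam n U) x T) with hf0d
  have p0 := ppos_sound hf0 c0
  have key1 := Cv.slc (f := f0 - N * L) (ex := ee) (x := x) (g := gar g) (fam := fam) hN0 hk harc
    (hcv.imp (by
      rintro α β ⟨A, B, h1, h2, hf⟩
      obtain ⟨c1, c2⟩ := band_true hf
      have hF := enc_sF (D := D) (fam := fam) (g := g) hc hx hA hzz htt hee h1 h2
      have k1 := okN_sound hf0 hNn (enc_sub hF hL) p0 hN0 c1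
      refine le_trans k1 (le_of_eq ?_)
      rw [hf0d]
      push_cast
      ring))
  have key2 := Cv.slc (f := f0 + N * L) (ex := ee) (x := x) (g := gar g) (fam := fam) hN0 hk harc
    (hcv.imp (by
      rintro α β ⟨A, B, h1, h2, hf⟩
      obtain ⟨c1, c2⟩ := band_true hf
      have hF := enc_sF (D := D) (fam := fam) (g := g) hc hx hA hzz htt hee h1 h2
      have k1 := okN_sound hf0 hNn (enc_add hF hL) p0 hN0 c2
      refine le_trans k1 (le_of_eq ?_)
      rw [hf0d]
      push_cast
      ring))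
  have hla := inst_la hI
  have hlb := inst_lb hI
  have hz : D.z U x T = D.z n x T + eps fam * D.z m x T := by
    unfold YDat.z
    rw [hla, hlb]
    ring
  have eKm' : Km = (y1 - jq a) * D.ka x T + N * 0 := by
    rw [eKm]
    ring
  clear_value e
  have hlev : levN N0 0 x y1 y' ex Lm (cond fam Ln LU) (cond fam LU Ln) = N * ee + (f0 - N * L) ∨
      levN N0 0 x y1 y' ex Lm (cond fam Ln LU) (cond fam LU Ln) = N * ee + (f0 + N * L) := by
    rcases levN_cases N0 x y1 y' ex Lm (cond fam Ln LU) (cond fam LU Ln) with hl | hl <;> rw [hl]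
    · cases fam
      · simp only [cond_false, eps] at *
        left
        rw [eLm, eLU, eLn, heed, hf0d, hLd, hl2q, hz, hy', eX, eY]
        linear_combination (1 + μ * la) * eest - μ * la * hex
      · simp only [cond_true, eps] at *
        right
        rw [eLm, eLU, eLn, heed, hf0d, hLd, hl2q, hz, hy', eX]
        linear_combination (1 + μ * la) * eest - μ * la * hex
    · cases fam
      · simp only [cond_false, eps] at *
        right
        rw [eLm, eLU, eLn, heed, hf0d, hLd, hl2q, hz, hy', eX, eY]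
        linear_combination (1 + μ * la) * eest - μ * la * hex
      · simp only [cond_true, eps] at *
        left
        rw [eLm, eLU, eLn, heed, hf0d, hLd, hl2q, hz, hy', eX]
        linear_combination (1 + μ * la) * eest - μ * la * hex
  have hst : ∀ f, slc cn (N * ee + f) (D.kh.v x) x (y1 - jq a) (y' - jq b) (y1 + y' - jq c) Km
      (cond fam Kn KU) (cond fam KU Kn) (N * gar g) =
      N * slc cn ee (D.kh.v x) x (y1 - jq a) (y' - jq b) (y1 + y' - jq c) 0 (cond fam rn rU)
        (cond fam rU rn) (gar g) + f := by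
    intro f
    cases fam
    · simp only [cond_false, eps] at *
      have eYt : y1 + Y = y2 := by rw [eY]; ring
      refine near_strip hN0 hrel eKm' eKU ?_
      rw [hy', eYt]
      exact eKn
    · simp only [cond_true, eps] at *
      have eYt : y1 + y2 = Y := by rw [eY]; ring
      refine near_strip hN0 hrel eKm' eKn ?_
      rw [hy', eYt]
      exact eKU
  rcases hlev with hl | hl
  · refine ⟨N * gar g, ?_⟩
    rw [hl, hst]
    linarith
  · refine ⟨N * gar g, ?_⟩
    rw [hl, hst]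
    linarith

end

end Pool.Agent.Strip051.PB
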