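import Pool.Agent.Strip051.PB.StripYX

/-! # Unit strips near `x = 1`, second form: the values on the tight curves -/

namespace Pool.Agent.Strip051.PB

open Pool.Agent.StripNear Pool.Agent.StripSquare Pool.Agent.Strip051.Sweep
open Pool.Agent.Strip051.LC

/-- The functions of the table in the variable of the direction. -/
structure RAB (D : YDat) (x : ℝ) (r al be : ℝ → ℝ) : Prop where
  r : ∀ y, e4Y x ≤ h0 * y → r y = ruY D.KR (D.sR.v x) (D.sQ.v x) (e5R x) (e4R x) x (h0 * y)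
  al : ∀ y, h0 * y ≤ 1 / 2 → al y = D.lv x (h0 * y) + 1
  be : ∀ y, h0 * y ≤ 1 / 2 → be y = D.lv x (1 - h0 * y) + 1 / 2

section

variable {D : YDat} {x : ℝ} {r al be : ℝ → ℝ}

theorem RAB.r0 (H : RAB D x r al be) (hD : D.Ok x) {y : ℝ} (h : 1 / 5 ≤ h0 * y) : r y = 0 := by
  obtain ⟨e5, e5', -⟩ := hD.e5
  have e45 : e4Y x ≤ 1 / 5 := by
    have h3 := hD.x1
    have h4 := hD.x0
    have h5 := h0_lt'
    unfold e4Y
    nlinarith
  rw [H.r y (by linarith), ruY_zero hD.kz e5 e5' h]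

theorem RAB.ka (H : RAB D x r al be) {y : ℝ} (h : e4Y x ≤ h0 * y)
    (h2 : h0 * y ≤ 1 / 2) : D.ka x (h0 * y) = h0 * r y / (h0 * y) := by
  unfold YDat.ka
  rw [kaY_lo h2, H.r y h]

theorem RAB.ka' (H : RAB D x r al be) (hD : D.Ok x) {y : ℝ} (h : e4Y x ≤ h0 * y)
    (h2 : h0 * y ≤ 1 / 2) : D.ka x (1 - h0 * y) = -(h0 * r y / (h0 * y)) := by
  obtain ⟨e5, e5', -⟩ := hD.e5
  unfold YDat.ka
  rw [kaY_hi hD.kz e5 e5' (by linarith), H.r y h]
  rw [show 1 - (1 - h0 * y) = h0 * y by ring]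

theorem YDat.ka_mid (hD : D.Ok x) {T : ℝ} (h1 : 1 / 5 ≤ T) (h2 : T ≤ 4 / 5) : D.ka x T = 0 := by
  obtain ⟨e5, e5', -⟩ := hD.e5
  unfold YDat.ka
  exact kaY_zero hD.kz e5 e5' h1 h2

theorem fac_neg {c h r w y F : ℝ} (hh : h ≠ 0) (hw : w ≠ 0) (e : c - y = w * F) :
    r * F = (y - c) * -(h * r / (h * w)) := by
  rw [show y - c = -(w * F) by linarith]
  field_simp

theorem fac_pos {h r w y F : ℝ} (hh : h ≠ 0) (hw : w ≠ 0) (e : y - 1 = w * F) :
    r * F = (y - 1) * (h * r / (h * w)) := by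
  rw [e]
  field_simp

theorem t0R_le (a b : ℝ) (ha : 0 ≤ a) (hb : 1 ≤ b) : t0R a b ≤ 1 / 2 := by
  have hg := h0_pos
  have h1 : 0 < rcR b := by
    unfold rcR
    have : 0 < 1 + h0 * b := by nlinarith
    positivity
  unfold t0R
  rw [abs_of_nonneg ha]
  have := mul_nonneg ha (add_nonneg hg.le (mul_nonneg ha h1.le))
  linarith

theorem t0R_ge (a b : ℝ) (ha : a ≤ 0) (hb : 1 ≤ b) : 1 / 2 ≤ t0R a b := by
  have hg := h0_pos
  have h1 : 0 < rcR b := by
    unfold rcR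
    have : 0 < 1 + h0 * b := by nlinarith
    positivity
  unfold t0R
  rw [abs_of_nonpos ha]
  have := mul_nonneg (neg_nonneg.2 ha) (add_nonneg hg.le (mul_nonneg (neg_nonneg.2 ha) h1.le))
  nlinarith

/-! ### The unit circle -/

theorem tgO0 (H : RAB D x r al be) (hD : D.Ok x) {y K L : ℝ} (hy : InQ 0 y)
    (h1 : h0 * y < 1) (hK : K = r y) (hL : L = D.la.v x * (c1n y + (al y - 1))) :
    TgY D .u0 0 x (c1n y) y K L := by
  obtain ⟨y0, y1⟩ := hy
  have hg := h0_pos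
  have sq := c1n_sq (on_sq y0 h1).le
  have hX := c1n_nn y
  set X := c1n y with hXd
  have hu : qqn (X / 2 - 3 / 4 * y) (X + y / 2) = 1 := by
    unfold qqn
    nlinarith
  have hb : 1 ≤ X + y / 2 := by nlinarith
  have ha : 0 ≤ X / 2 - 3 / 4 * y := by nlinarith
  have hT : t0R (X / 2 - 3 / 4 * y) (X + y / 2) = h0 * y := by
    rw [t0R_pos hu hb ha]
    ring
  have hl := t0R_le _ _ ha hb
  intro t1 t2
  simp only [Ty.px, Ty.py] at t1 t2 ⊢
  rw [hT] at t1 t2 hl ⊢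
  obtain ⟨p0, -⟩ := hD.e4
  have y0' : 0 < y := by
    by_contra hh
    rw [not_lt] at hh
    nlinarith
  constructor
  · rw [H.ka t1 hl, hK]
    have := hg.ne'
    have := y0'.ne'
    simp only [jq]
    field_simp
    push_cast
    ring
  · rw [hL, H.al y hl]
    unfold YDat.z
    simp only [Ty.la, Ty.lb]
    ring

theorem tgO1 (H : RAB D x r al be) (hD : D.Ok x) {y K L : ℝ} (hy : InQ 1 y) (h1 : h0 * y < 1)
    (hK : K = r (c1n y - y / 2) * (1 / 2 + 3 / 4 * (c1n y - y / 2) *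
      (1 + (c1n y / 2 + 3 / 4 * y))⁻¹))
    (hL : L = D.la.v x * (c1n y + if y ^ 2 - 1 / 3 ≤ 0 then al y - 1 else
      be (c1n y - y / 2) - 1 / 2)) :
    TgY D .u0 1 x (c1n y) y K L := by
  obtain ⟨y0, y1⟩ := hy
  have hg := h0_pos
  have sq := c1n_sq (on_sq (by linarith) h1).le
  have hX := c1n_nn y
  set X := c1n y with hXd
  have hX5 : 1 / 2 < X := by nlinarith
  have hu : qqn (X / 2 - 3 / 4 * y) (X + y / 2) = 1 := by
    unfold qqn
    nlinarith
  have hb : 1 ≤ X + y / 2 := by nlinarith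
  obtain ⟨p0, -⟩ := hD.e4
  intro t1 t2
  simp only [Ty.px, Ty.py] at t1 t2 ⊢
  have hD1 : 0 < 1 + (X / 2 + 3 / 4 * y) := by linarith
  have hi : (1 + (X / 2 + 3 / 4 * y)) * (1 + (X / 2 + 3 / 4 * y))⁻¹ = 1 := mul_inv_cancel₀ hD1.ne'
  by_cases hc : y ^ 2 - 1 / 3 ≤ 0
  · have ha : 0 ≤ X / 2 - 3 / 4 * y := by nlinarith
    have hT : t0R (X / 2 - 3 / 4 * y) (X + y / 2) = h0 * y := by
      rw [t0R_pos hu hb ha]
      ring
    have hl := t0R_le _ _ ha hb
    rw [hT] at t1 t2 hl ⊢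
    rw [if_pos hc] at hL
    constructor
    · rw [YDat.ka_mid hD (by nlinarith [h0_gt]) (by linarith), mul_zero, hK, H.r0 hD, zero_mul]
      have h5 : 1 / 2 ≤ h0 * (X - y / 2) := by
        have h6 : y ≤ 2 / 3 * X := by linarith
        have h7 : (1 / 2) ^ 2 ≤ (h0 * (X - y / 2)) ^ 2 := by
          rw [mul_pow, h0_sq]
          nlinarith
        have h8 : 0 ≤ h0 * (X - y / 2) := mul_nonneg hg.le (by linarith)
        nlinarith
      linarith
    · rw [hL, H.al y hl]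
      unfold YDat.z
      simp only [Ty.la, Ty.lb]
      ring
  · have ha : X / 2 - 3 / 4 * y ≤ 0 := by nlinarith
    have hT : t0R (X / 2 - 3 / 4 * y) (X + y / 2) = 1 - h0 * (X - y / 2) := by
      rw [t0R_neg hu hb ha]
      ring
    have hl := t0R_ge _ _ ha hb
    rw [hT] at t1 t2 hl ⊢
    rw [if_neg hc] at hL
    set w := X - y / 2 with hw
    have w0 : 0 < w := by
      by_contra hh
      rw [not_lt] at hh
      nlinarith
    constructor
    · rw [H.ka' hD (by linarith) (by linarith), hK]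
      rw [show ((jq 1 : ℕ) : ℝ) = 1 by norm_num [jq]]
      have key : (1 - y) = w * (1 / 2 + 3 / 4 * w * (1 + (X / 2 + 3 / 4 * y))⁻¹) := by
        have : (1 - y) * (1 + (X / 2 + 3 / 4 * y)) = w * ((1 + (X / 2 + 3 / 4 * y)) / 2 + 3 / 4 * w) := by
          rw [hw]
          linear_combination (-1) * sq
        have h9 : (1 - y) = (1 - y) * ((1 + (X / 2 + 3 / 4 * y)) * (1 + (X / 2 + 3 / 4 * y))⁻¹) := by
          rw [hi, mul_one]
        rw [h9, ← mul_assoc, this]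
        linear_combination (w / 2) * hi
      exact fac_neg hg.ne' w0.ne' key
    · rw [hL, H.be w (by linarith)]
      unfold YDat.z
      simp only [Ty.la, Ty.lb]
      ring

theorem tgO2 (H : RAB D x r al be) (hD : D.Ok x) {y K L : ℝ} (hy : InQ 2 y) (h1 : h0 * y < 1)
    (hK : K = r (y / 2 - c1n y) * (1 / 2 - 3 / 4 * (y / 2 - c1n y) *
      (1 + (c1n y / 2 + 3 / 4 * y))⁻¹))
    (hL : L = D.la.v x * (c1n y + (al (y / 2 - c1n y) - be (y / 2 - c1n y) - 1 / 2))) :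
    TgY D .u2 2 x (c1n y) y K L := by
  obtain ⟨y0, y1⟩ := hy
  have hg := h0_pos
  have sq := c1n_sq (on_sq (by linarith) h1).le
  have hX := c1n_nn y
  set X := c1n y with hXd
  have hu : qqn X y = 1 := by
    unfold qqn
    linarith
  have hT : t0R X y = h0 * (y / 2 - X) := by
    rw [t0R_pos hu y0 hX]
    ring
  have hl := t0R_le _ _ hX y0
  obtain ⟨p0, -⟩ := hD.e4
  intro t1 t2
  simp only [Ty.px, Ty.py] at t1 t2 ⊢
  have hD1 : 0 < 1 + (X / 2 + 3 / 4 * y) := by linarith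
  have hi : (1 + (X / 2 + 3 / 4 * y)) * (1 + (X / 2 + 3 / 4 * y))⁻¹ = 1 := mul_inv_cancel₀ hD1.ne'
  rw [hT] at t1 t2 hl ⊢
  set w := y / 2 - X with hw
  have w0 : 0 < w := by
    by_contra hh
    rw [not_lt] at hh
    nlinarith
  constructor
  · rw [H.ka t1 hl, hK]
    rw [show ((jq 2 : ℕ) : ℝ) = 1 by norm_num [jq]]
    have key : (y - 1) = w * (1 / 2 - 3 / 4 * w * (1 + (X / 2 + 3 / 4 * y))⁻¹) := by
      have : (y - 1) * (1 + (X / 2 + 3 / 4 * y)) = w * ((1 + (X / 2 + 3 / 4 * y)) / 2 - 3 / 4 * w) := by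
        rw [hw]
        linear_combination sq
      have h9 : (y - 1) = (y - 1) * ((1 + (X / 2 + 3 / 4 * y)) * (1 + (X / 2 + 3 / 4 * y))⁻¹) := by
        rw [hi, mul_one]
      rw [h9, ← mul_assoc, this]
      linear_combination (w / 2) * hi
    exact fac_pos hg.ne' w0.ne' key
  · rw [hL, H.al w hl, H.be w hl]
    unfold YDat.z
    simp only [Ty.la, Ty.lb]
    ring

/-! ### The circle of radius `√3` -/

theorem tgN0 (H : RAB D x r al be) (hD : D.Ok x) {y K L : ℝ} (hy : InQ 0 y) (hK : K = 0)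
    (hL : L = D.la.v x * (c3n y + (al (c3n y / 3 - y / 2) + be (c3n y / 3 - y / 2) - 3 / 2))) :
    TgY D .s0 0 x (c3n y) y K L := by
  obtain ⟨y0, y1⟩ := hy
  have hg := h0_pos
  have sq := c3n_pos y0 (by linarith)
  have hX := c3n_nn y
  set X := c3n y with hXd
  have hX1 : 167 / 100 ≤ X := by nlinarith
  have hu : qqn (-(y / 2)) (2 / 3 * X) = 1 := by
    unfold qqn
    nlinarith
  have hb : 1 ≤ 2 / 3 * X := by linarith
  have ha : -(y / 2) ≤ 0 := by linarith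
  have hT : t0R (-(y / 2)) (2 / 3 * X) = 1 - h0 * (X / 3 - y / 2) := by
    rw [t0R_neg hu hb ha]
    ring
  have hl := t0R_ge _ _ ha hb
  intro t1 t2
  simp only [Ty.px, Ty.py] at t1 t2 ⊢
  rw [hT] at t1 t2 hl ⊢
  set w := X / 3 - y / 2 with hw
  have h5 : 1 / 5 ≤ h0 * w := by
    have := h0_gt
    nlinarith
  constructor
  · rw [YDat.ka_mid hD (by linarith) (by linarith), mul_zero, hK]
  · rw [hL, H.al w (by linarith), H.be w (by linarith)]
    unfold YDat.z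
    rw [show 1 - (1 - h0 * w) = h0 * w by ring]
    simp only [Ty.la, Ty.lb]
    ring

theorem tgN1 (H : RAB D x r al be) (hD : D.Ok x) {y K L : ℝ} (hy : InQ 1 y)
    (hK : K = r (c3n y / 3 - y / 2) * (3 / 2 + 3 / 4 * (c3n y / 3 - y / 2) *
      (1 + (c3n y / 2 + 1 / 4 * y))⁻¹))
    (hL : L = D.la.v x * (c3n y + (al (c3n y / 3 - y / 2) + be (c3n y / 3 - y / 2) - 3 / 2))) :
    TgY D .s0 1 x (c3n y) y K L := by
  obtain ⟨y0, y1⟩ := hy
  have hg := h0_pos
  have sq := c3n_pos (y := y) (by linarith) (by linarith)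
  have hX := c3n_nn y
  set X := c3n y with hXd
  have hX1 : 3 / 2 ≤ X := by nlinarith
  have hu : qqn (-(y / 2)) (2 / 3 * X) = 1 := by
    unfold qqn
    nlinarith
  have hb : 1 ≤ 2 / 3 * X := by linarith
  have ha : -(y / 2) ≤ 0 := by linarith
  have hT : t0R (-(y / 2)) (2 / 3 * X) = 1 - h0 * (X / 3 - y / 2) := by
    rw [t0R_neg hu hb ha]
    ring
  have hl := t0R_ge _ _ ha hb
  obtain ⟨p0, -⟩ := hD.e4
  have hD1 : 0 < 1 + (X / 2 + 1 / 4 * y) := by linarith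
  have hi : (1 + (X / 2 + 1 / 4 * y)) * (1 + (X / 2 + 1 / 4 * y))⁻¹ = 1 := mul_inv_cancel₀ hD1.ne'
  intro t1 t2
  simp only [Ty.px, Ty.py] at t1 t2 ⊢
  rw [hT] at t1 t2 hl ⊢
  set w := X / 3 - y / 2 with hw
  have w0 : 0 < w := by
    by_contra hh
    rw [not_lt] at hh
    nlinarith
  constructor
  · rw [H.ka' hD (by linarith) (by linarith), hK]
    rw [show ((jq 1 : ℕ) : ℝ) = 1 by norm_num [jq]]
    have key : (1 - y) = w * (3 / 2 + 3 / 4 * w * (1 + (X / 2 + 1 / 4 * y))⁻¹) := by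
      have : (1 - y) * (1 + (X / 2 + 1 / 4 * y)) =
          w * (3 / 2 * (1 + (X / 2 + 1 / 4 * y)) + 3 / 4 * w) := by
        rw [hw]
        linear_combination (-1 / 3) * sq
      have h9 : (1 - y) = (1 - y) * ((1 + (X / 2 + 1 / 4 * y)) * (1 + (X / 2 + 1 / 4 * y))⁻¹) := by
        rw [hi, mul_one]
      rw [h9, ← mul_assoc, this]
      linear_combination (3 / 2 * w) * hi
    exact fac_neg hg.ne' w0.ne' key
  · rw [hL, H.al w (by linarith), H.be w (by linarith)]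
    unfold YDat.z
    rw [show 1 - (1 - h0 * w) = h0 * w by ring]
    simp only [Ty.la, Ty.lb]
    ring

theorem s2_py {X y : ℝ} (y0 : 1 ≤ y) (y2 : y ≤ 2) (hX : 0 ≤ X) (sq : X ^ 2 = 3 - 3 / 4 * y ^ 2) :
    qqn (X / 2 - y / 4) (X / 3 + y / 2) = 1 ∧ 1 ≤ X / 3 + y / 2 := by
  constructor
  · unfold qqn
    nlinarith
  · by_contra hh
    rw [not_le] at hh
    nlinarith

theorem tgN2 (H : RAB D x r al be) (hD : D.Ok x) {y K L : ℝ} (hy : InQ 2 y)
    (hK : K = r (y / 2 - c3n y / 3) * (3 / 2 - 3 / 4 * (y / 2 - c3n y / 3) *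
      (1 + (c3n y / 2 + 1 / 4 * y))⁻¹))
    (hL : L = D.la.v x * (c3n y + (2 * al (y / 2 - c3n y / 3) - be (y / 2 - c3n y / 3) -
      3 / 2))) :
    TgY D .s2 2 x (c3n y) y K L := by
  obtain ⟨y0, y1⟩ := hy
  have hg := h0_pos
  have sq := c3n_pos (y := y) (by linarith) (by linarith)
  have hX := c3n_nn y
  set X := c3n y with hXd
  obtain ⟨hu, hb⟩ := s2_py y0 (by linarith) hX sq
  have ha : 0 ≤ X / 2 - y / 4 := by nlinarith
  have hT : t0R (X / 2 - y / 4) (X / 3 + y / 2) = h0 * (y / 2 - X / 3) := by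
    rw [t0R_pos hu hb ha]
    ring
  have hl := t0R_le _ _ ha hb
  obtain ⟨p0, -⟩ := hD.e4
  have hD1 : 0 < 1 + (X / 2 + 1 / 4 * y) := by linarith
  have hi : (1 + (X / 2 + 1 / 4 * y)) * (1 + (X / 2 + 1 / 4 * y))⁻¹ = 1 := mul_inv_cancel₀ hD1.ne'
  intro t1 t2
  simp only [Ty.px, Ty.py] at t1 t2 ⊢
  rw [hT] at t1 t2 hl ⊢
  set w := y / 2 - X / 3 with hw
  have w0 : 0 < w := by
    by_contra hh
    rw [not_lt] at hh
    nlinarith
  constructor
  · rw [H.ka t1 hl, hK]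
    rw [show ((jq 2 : ℕ) : ℝ) = 1 by norm_num [jq]]
    have key : (y - 1) = w * (3 / 2 - 3 / 4 * w * (1 + (X / 2 + 1 / 4 * y))⁻¹) := by
      have : (y - 1) * (1 + (X / 2 + 1 / 4 * y)) =
          w * (3 / 2 * (1 + (X / 2 + 1 / 4 * y)) - 3 / 4 * w) := by
        rw [hw]
        linear_combination (1 / 3) * sq
      have h9 : (y - 1) = (y - 1) * ((1 + (X / 2 + 1 / 4 * y)) * (1 + (X / 2 + 1 / 4 * y))⁻¹) := by
        rw [hi, mul_one]
      rw [h9, ← mul_assoc, this]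
      linear_combination (3 / 2 * w) * hi
    exact fac_pos hg.ne' w0.ne' key
  · rw [hL, H.al w hl, H.be w hl]
    unfold YDat.z
    simp only [Ty.la, Ty.lb]
    ring

theorem tgN3 (H : RAB D x r al be) (hD : D.Ok x) {y K L : ℝ} (hy : InQ 3 y)
    (hK : K = r (2 / 3 * c3n y) * (c3n y * (1 + y / 2)⁻¹))
    (hL : L = D.la.v x * (c3n y + if y ^ 2 - 3 ≤ 0 then
      2 * al (y / 2 - c3n y / 3) - be (y / 2 - c3n y / 3) - 3 / 2 else
      2 * be (2 / 3 * c3n y) - al (2 / 3 * c3n y))) :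
    TgY D .s2 3 x (c3n y) y K L := by
  obtain ⟨y0, y1⟩ := hy
  have hg := h0_pos
  have hg' := h0_gt
  have sq := c3n_pos (y := y) (by linarith) (by linarith)
  have hX := c3n_nn y
  set X := c3n y with hXd
  obtain ⟨hu, hb⟩ := s2_py (by linarith) (by linarith) hX sq
  have hX2 : X ≤ 23 / 20 := by nlinarith
  obtain ⟨p0, -⟩ := hD.e4
  intro t1 t2
  simp only [Ty.px, Ty.py] at t1 t2 ⊢
  by_cases hc : y ^ 2 - 3 ≤ 0
  · have ha : 0 ≤ X / 2 - y / 4 := by nlinarith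
    have hT : t0R (X / 2 - y / 4) (X / 3 + y / 2) = h0 * (y / 2 - X / 3) := by
      rw [t0R_pos hu hb ha]
      ring
    have hl := t0R_le _ _ ha hb
    rw [hT] at t1 t2 hl ⊢
    rw [if_pos hc] at hL
    set w := y / 2 - X / 3 with hw
    have w0 : 1 / 3 ≤ w := by
      rw [hw]
      linarith
    constructor
    · rw [YDat.ka_mid hD (by nlinarith) (by linarith), mul_zero, hK, H.r0 hD, zero_mul]
      have h6 : 4 / 5 ≤ X := by nlinarith
      nlinarith
    · rw [hL, H.al w hl, H.be w hl]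
      unfold YDat.z
      simp only [Ty.la, Ty.lb]
      ring
  · have ha : X / 2 - y / 4 ≤ 0 := by nlinarith
    have hT : t0R (X / 2 - y / 4) (X / 3 + y / 2) = 1 - h0 * (2 / 3 * X) := by
      rw [t0R_neg hu hb ha]
      ring
    have hl := t0R_ge _ _ ha hb
    rw [hT] at t1 t2 hl ⊢
    rw [if_neg hc] at hL
    have w0 : 0 < 2 / 3 * X := by
      by_contra hh
      rw [not_lt] at hh
      nlinarith
    constructor
    · rw [H.ka' hD (by linarith) (by linarith), hK]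
      rw [show ((jq 3 : ℕ) : ℝ) = 2 by norm_num [jq]]
      have key : (2 - y) = 2 / 3 * X * (X * (1 + y / 2)⁻¹) := by
        have hi : (1 + y / 2) * (1 + y / 2)⁻¹ = 1 := mul_inv_cancel₀ (by linarith)
        linear_combination (2 / 3 * (-(1 + y / 2)⁻¹)) * sq - (2 - y) * hi
      exact fac_neg hg.ne' w0.ne' key
    · rw [hL, H.al _ (by linarith), H.be _ (by linarith)]
      unfold YDat.z
      rw [show 1 - (1 - h0 * (2 / 3 * X)) = h0 * (2 / 3 * X) by ring]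
      simp only [Ty.la, Ty.lb]
      ring

end

end Pool.Agent.Strip051.PB
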