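import Pool.Agent.Strip051.PB.StripYC

/-! # Unit strips near `x = 1`, second form: the step -/

namespace Pool.Agent.Strip051.PB

open Pool.Agent.StripNear Pool.Agent.StripSquare Pool.Agent.Strip051.Sweep
open Pool.Agent.Strip051.LC

attribute [local irreducible] padd psub pneg pmul psq pinv psqrt psqrtg pabs pps pmax pmin pphi plam
  pcase phf pnat prat pscale pnorm pdc pnc pone ppos pnn Enc

/-- kernel tree, changes of its slope, level tree, level factor, factor of the kernel -/
structure YDat where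
  KR : DT
  sR : Fn1
  sQ : Fn1
  LT : DT
  la : Fn1
  kh : Kh

/-- `8 / 5` of the rest times `h0` -/
noncomputable def e4Y (x : ℝ) : ℝ := 8 / 5 * (h0 * (1 - x))

noncomputable def YDat.ka (D : YDat) (x t : ℝ) : ℝ :=
  kaY D.KR (D.sR.v x) (D.sQ.v x) (e5R x) (e4R x) x t

noncomputable def YDat.lv (D : YDat) (x t : ℝ) : ℝ := D.LT.kv (clR (e3R x) t) x

noncomputable def YDat.z (D : YDat) (t : Ty) (x T : ℝ) : ℝ := t.la * D.lv x T + t.lb * D.lv x (1 - T)

structure YDat.Ok (D : YDat) (x : ℝ) : Prop where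
  kr : D.KR.KOk x
  kz : ∀ t, 1 / 5 ≤ t → D.KR.kv t x = 0
  lt : D.LT.KOk x
  x1 : x < 1
  x0 : 39 / 40 ≤ x

theorem YDat.Ok.e5 {D : YDat} {x : ℝ} (h : D.Ok x) :
    e5R x ≤ 1 / 5 ∧ e4R x ≤ 1 / 5 ∧ e4R x ≤ e5R x := by
  have h1 := h.x1
  have h2 := h.x0
  have h3 := h0_pos
  have h4 := h0_lt'
  have h5 : 0 < h0 * (1 - x) := mul_pos h3 (by linarith)
  have h6 : h0 * (1 - x) ≤ 2 / 25 := by nlinarith
  unfold e5R e4R
  refine ⟨by linarith, by linarith, by linarith⟩

theorem YDat.Ok.e4 {D : YDat} {x : ℝ} (h : D.Ok x) : 0 < e4Y x ∧ e4Y x < 1 := by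
  have h1 := h.x1
  have h2 := h.x0
  have h3 := h0_pos
  have h4 := h0_lt'
  have h5 : 0 < h0 * (1 - x) := mul_pos h3 (by linarith)
  unfold e4Y
  constructor
  · linarith
  · nlinarith

/-! ### Levels -/

/-- quotient of the level of a side -/
noncomputable def lvY (T : DT) (t : Ty) (e A B D X : ℕ) : ℕ :=
  (fun l r => Ty.rec (motive := fun _ => ℕ) l (psub l r) (pneg r) (padd l r)
    (psub (padd l l) r) (psub (pneg l) r) (psub l (padd r r)) t)
  (lqT T e A B D X) (lqT T e (pnorm (psub pone A)) (pnorm (psub pone B)) (pneg D) X)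

/-- value of a tree -/
noncomputable def kvT (T : DT) : ℕ → ℕ → ℕ :=
  DT.rec (motive := fun _ => ℕ → ℕ → ℕ) (fun s v A X => padd (pmul (s.t X) A) (v.t X))
    (fun w s v A X => padd (pmul (pnorm (padd (pmul (w.t X) A) (s.t X))) A) (v.t X))
    (fun _ _ => pdc 0 0) (fun k _ _ il ir A X => pcase (psub A k.t) (il A X) (ir A X)) T

/-- value of the level of a side -/
noncomputable def zvT (T : DT) (t : Ty) (e A X : ℕ) : ℕ :=
  (fun l r => Ty.rec (motive := fun _ => ℕ) l (psub l r) (pneg r) (padd l r)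
    (psub (padd l l) r) (psub (pneg l) r) (psub l (padd r r)) t)
  (kvT T (clT e A) X) (kvT T (clT e (pnorm (psub pone A))) X)

section

variable {E : Pt} {D : YDat} {x a b d N : ℝ} {X A B F e : ℕ}

theorem lvY_sound (hD : D.Ok x)
    (hX : Enc E X x) (he : Enc E e (e3R x)) (t : Ty) (hA : Enc E A a) (hB : Enc E B b)
    (hF : Enc E F d) (h : a - b = N * d) :
    ∃ v, Enc E (lvY D.LT t e A B F X) v ∧ D.z t x a - D.z t x b = N * v := by
  obtain ⟨l, hl, el⟩ := lqT_sound D.LT hD.lt hX he hA hB hF h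
  obtain ⟨r, hr, er⟩ := lqT_sound D.LT hD.lt hX he (enc_norm (enc_sub (enc_one E) hA))
    (enc_norm (enc_sub (enc_one E) hB)) (enc_neg hF) (μ := N) (by linear_combination -h)
  unfold YDat.z YDat.lv
  cases t <;> simp only [Ty.la, Ty.lb]
  · exact ⟨l, hl, by linear_combination el⟩
  · exact ⟨_, enc_sub hl hr, by linear_combination el - er⟩
  · exact ⟨_, enc_neg hr, by linear_combination -er⟩
  · exact ⟨_, enc_add hl hr, by linear_combination el + er⟩
  · exact ⟨_, enc_sub (enc_add hl hl) hr, by linear_combination 2 * el - er⟩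
  · exact ⟨_, enc_sub (enc_neg hl) hr, by linear_combination -el - er⟩
  · exact ⟨_, enc_sub hl (enc_add hr hr), by linear_combination el - 2 * er⟩

theorem enc_kvT (hX : Enc E X x) (T : DT) : ∀ {A : ℕ} {a : ℝ}, Enc E A a →
    Enc E (kvT T A X) (T.kv a x) := by
  induction T with
  | lin s v => exact fun hA => enc_add (enc_mul (s.enc hX) hA) (v.enc hX)
  | quad w s v =>
    intro A a hA
    refine enc_cast (enc_add (enc_mul (enc_norm (enc_add (enc_mul (w.enc hX) hA) (s.enc hX))) hA)
      (v.enc hX)) ?_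
    simp only [DT.kv]
    ring
  | clo => exact fun _ => enc_dc00 E
  | node k l r il ir =>
    intro A a hA
    have h := enc_case (enc_sub hA (k.enc E)) (il hA) (ir hA)
    refine enc_cast h ?_
    simp only [DT.kv, sub_nonpos]

theorem enc_zvT (hX : Enc E X x) (he : Enc E e (e3R x)) (t : Ty) (hA : Enc E A a) :
    Enc E (zvT D.LT t e A X) (D.z t x a) := by
  have l := enc_kvT hX D.LT (enc_clT he hA)
  have r := enc_kvT hX D.LT (enc_clT he (enc_norm (enc_sub (enc_one E) hA)))
  unfold YDat.z YDat.lv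
  cases t <;> simp only [Ty.la, Ty.lb]
  · exact enc_cast l (by ring)
  · exact enc_cast (enc_sub l r) (by ring)
  · exact enc_cast (enc_neg r) (by ring)
  · exact enc_cast (enc_add l r) (by ring)
  · exact enc_cast (enc_sub (enc_add l l) r) (by ring)
  · exact enc_cast (enc_sub (enc_neg l) r) (by ring)
  · exact enc_cast (enc_sub l (enc_add r r)) (by ring)

end

/-! ### Packed side -/

/-- part of the second segment -/
noncomputable def exS (θ A B : ℕ) : ℕ := padd A (pmul θ (pnorm (psub B A)))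

/-- the third side is anchored at the tight curve at the same height; `b` is the sign of the
abscissa, `fin` gets the variable of the direction of the anchor with its quotient and the quotients
of kernel and level along the segment -/
noncomputable def canY (U : Ty) (b : Bool) (S S2 : Sg) (V : VX) (X Y px dx dy h e4 x : ℕ)
    (fin : ℕ → ℕ → ℕ → ℕ → Bool) : Bool :=
  frc (sg b X) fun aX => frc (cuT U Y) fun c => frc (S.f.t Y) fun f =>
  band (pnn aX)
    (band (ppos (psub (pnc (nT U)) (t34 (psq Y)))) (band (ppos (padd aX c))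
    (frc (sg (cond (uT U) b (!b)) (pscale 3 16 (pinv (padd aX c)))) fun xi =>
    frc (pnorm (axT U (pxT U dx dy) xi)) fun ex => frc (pnorm (ayT U (pyT U dx dy) xi)) fun ey =>
    frc (pnorm (pxT U (sg b c) Y)) fun cx => frc (pnorm (pyT U (sg b c) Y)) fun cy =>
    frc (pnorm (t0T h cx cy)) fun Tc => frc (pnorm (dtT h cx px ex ey)) fun dT =>
    band (pnn (psub Tc e4)) (band (pnn (psub (psub pone e4) Tc))
    (bsel (pnn (sl (uT U) (psub f aX) (psub aX f)))
      (band (Ty.rec (motive := fun _ => Bool) false true false false false false false U)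
        (band (pnn (psub Y V.ya.t)) (band (pnn (psub (S2.f.t Y) aX)) (band (ppos (psub f c))
          (frc (plam (pps (psub aX f)) (psub aX c)) fun θ =>
            frc (pmul xi (exS θ (S.SK.t Y x) (S2.SK.t Y x))) fun K =>
            frc (pmul xi (exS θ (S.SX.t Y x) (S2.SX.t Y x))) fun L => fin Tc dT K L)))))
      (frc (pmul xi (S.SK.t Y x)) fun K => frc (pmul xi (S.SX.t Y x)) fun L => fin Tc dT K L))))))

/-- third side near the vertical direction; `q` is the square of the length -/
noncomputable def verY (S S2 : Sg) (V : VX) (q X Y px py T dx h x : ℕ)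
    (fin : ℕ → ℕ → Bool) : Bool :=
  frc (pabs X) fun aX => frc (pabs px) fun ap => frc (cuT .u2 Y) fun c => frc (S.f.t Y) fun f =>
  band (pnn (psub Y V.ya.t)) (band (pnn (psub V.yk.t Y))
    (band (ppos (psub f c)) (band (pnn (psub T V.k5.t)) (band (pnn (psub (psub pone V.k5.t) T))
    (frc (rcT' h py) fun rc => frc (V.m1.t x) fun m1 => frc (V.m2.t x) fun m2 =>
    frc (pnorm (psub (pmul m2 (psq (padd h (pmul ap rc)))) (pmul m1 rc))) fun G =>
    frc (pscale 3 16 (plam (psq X) (psub q pone))) fun w0 =>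
    frc (sel2 (pnn X) (sel2 (pnn (pneg X)) (pscale 3 16 (pnorm (psub (padd pu01 pu01) pone)))
      (pneg w0)) w0) fun w =>
    frc (padd aX ap) fun ss =>
    frc (sel2 (band (pnn X) (pnn px)) (sel2 (band (pnn (pneg X)) (pnn (pneg px)))
      (pmul ss (phf (padd pone pu01))) ss) ss) fun M =>
    frc (pnorm (psub (pmul dx M) w)) fun d1 =>
    frc (padd (psub (pmul G (psub d1 (pmul (pmul w pu01) (pmul (phf c)
        (pinv (psub f c)))))) (pmul (pmul h m1) dx))
      (padd (pmul (psub (padd pu01 pu01) pone) (pmul (pmul c (padd (pscale 1 12 (pabs m1))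
          (pscale 5 8 (pabs m2)))) (pabs d1)))
        (pmul (pmul (V.s.t x) (phf (phf X))) ((fun yp => pmul (plam (t34 (psub (psq yp)
          (psq V.yb.t))) (psub q pone)) (pinv (padd yp V.yb.t))) (pmax Y V.yb.t))))) fun l =>
    bsel (pnn (psub f aX))
      (band (pnn (psub (S2.f.t Y) aX)) (band (pnn (psub (psub (padd f f) c) aX))
        (band (ppos (psub q pone))
        (frc (pscale 3 16 (pmul (pps (psub aX f)) (pinv (psub q pone)))) fun g =>
          frc (pmul g (S2.SK.t Y x)) fun k =>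
          frc (pmul g (pnorm (psub (S2.SX.t Y x) (S.SX.t Y x)))) fun z =>
          bsel (pnn X) (band (pnn (pneg X)) (fin (pneg k) (psub l z))) (fin k (padd l z))))))
      (fin (pdc 0 0) l))))))

/-- choice of the form for the third side; `i` is the hint -/
noncomputable def thiY (U : Ty) (S S2 : Sg) (V : VX) (i q X Y px py T dx dy h e4 x : ℕ)
    (finC : ℕ → ℕ → ℕ → ℕ → Bool) (finV : ℕ → ℕ → Bool) : Bool :=
  Bool.rec (motive := fun _ => Bool)
    (canY U (bT U) S S2 V X Y px dx dy h e4 x finC)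
    (Nat.rec (motive := fun _ => Bool) (canY U true S S2 V X Y px dx dy h e4 x finC)
      (fun i _ => Nat.rec (motive := fun _ => Bool)
        (canY U false S S2 V X Y px dx dy h e4 x finC)
        (fun _ _ => verY S S2 V q X Y px py T dx h x finV) i) i)
    (Ty.rec (motive := fun _ => Bool) false true false false false false false U)

/-- the vertices `v` for the arguments `T`, `Tn`, `Tc` up to `1/2`; `fin` gets the quotients of
`h0 R(t) / t` of the second and the third point -/
noncomputable def vfY (D : YDat) (v h sR sQ e5 e6 T Tn Tc dn dc x : ℕ) (fin : ℕ → ℕ → Bool) :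
    Bool :=
  knH D.KR sR sQ e5 e6 T Tn Tc x fun κ L R => frc κ fun κ => frc L fun L => frc R fun R =>
  vtx L R T Tn Tc dn dc fun sn sc p => frc sn fun sn => frc sc fun sc =>
  Nat.rec (motive := fun _ => Bool)
    (band (fin (kpS D.KR sR sQ h e5 e6 Tn T dn x L) (kpS D.KR sR sQ h e5 e6 Tc T dc x L))
      (band (fin (kpS D.KR sR sQ h e5 e6 Tn T dn x sn) (kpS D.KR sR sQ h e5 e6 Tc T dc x sc))
        (fin (kpS D.KR sR sQ h e5 e6 Tn T dn x R) (kpS D.KR sR sQ h e5 e6 Tc T dc x R))))
    (fun v _ => Nat.rec (motive := fun _ => Bool)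
      (band (pnn (psub p κ))
        (band (fin (kpS D.KR sR sQ h e5 e6 Tn T dn x sn) (kpS D.KR sR sQ h e5 e6 Tc T dc x sc))
          (fin (kpS D.KR sR sQ h e5 e6 Tn T dn x R) (kpS D.KR sR sQ h e5 e6 Tc T dc x R))))
      (fun _ _ => band (pnn (psub κ p))
        (band (fin (kpS D.KR sR sQ h e5 e6 Tn T dn x L) (kpS D.KR sR sQ h e5 e6 Tc T dc x L))
          (fin (kpS D.KR sR sQ h e5 e6 Tn T dn x sn) (kpS D.KR sR sQ h e5 e6 Tc T dc x sc)))) v) v

/-- the vertices on both sides of `1/2` -/
noncomputable def vmY (D : YDat) (v h sR sQ e5 e6 T Tn Tc dn dc x : ℕ) (fin : ℕ → ℕ → Bool) :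
    Bool :=
  bsel (leK (phn 1) T Tn Tc)
    (band (geK (phn 1) T Tn Tc) (frc (pnorm (psub pone T)) fun T => frc (pnorm (psub pone Tn))
      fun Tn => frc (pnorm (psub pone Tc)) fun Tc => frc (pneg dn) fun dn => frc (pneg dc) fun dc =>
      vfY D v h sR sQ e5 e6 T Tn Tc dn dc x fun a b => fin (pneg a) (pneg b)))
    (vfY D v h sR sQ e5 e6 T Tn Tc dn dc x fin)

/-- the test with the forms of `x`, of the heights `A`, `B` and abscissae `X1`, `X2` of the nodes and
of the third side; `i` is the payload of the hint; `fi` is the final test -/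
noncomputable def stpY (D : YDat) (fam : Bool) (m n U : Ty) (b c : ℕ) (S S2 : Sg)
    (V : VX) (i x A B X1 X2 X Y : ℕ)
    (fi : ℕ → ℕ → ℕ → ℕ → ℕ → ℕ → ((ℕ → ℕ → Bool) → Bool) → Bool) : Bool :=
  frc (psub (phf (psub (pmul X1 B) (pmul X2 A))) (phn 1)) fun ex =>
  frc (pnorm (pxT m X1 A)) fun px => frc (pnorm (pyT m X1 A)) fun py =>
  frc ph0 fun h => frc (pmul h (psub pone x)) fun e1 => frc (pscale 167 50 e1) fun e3 =>
  frc (pscale 8 5 e1) fun e4 => frc (pscale 5 2 e1) fun e5 => frc (pscale 11 5 e1) fun e6 =>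
  frc (D.sR.t x) fun sR => frc (D.sQ.t x) fun sQ =>
  frc (pnorm (t0T h px py)) fun T =>
  band (ppos (padd pone ex)) (band (pnn (psub T e4)) (band (pnn (psub (psub pone e4) T))
    (frc (pinv (padd pone ex)) fun E1 =>
    frc (pnorm (sg (cond (uT U) fam (!fam)) (pmul (pscale 3 64 (padd B (iyT n px py))) E1)))
      fun dx =>
    frc (pnorm (sg (cond (uT U) (!fam) fam) (pmul (pscale 1 16 (padd X2 (ixT n px py))) E1)))
      fun dy =>
    frc (qqT X Y) fun q =>
    frc (pnorm (pxT n X2 B)) fun nx => frc (pnorm (pyT n X2 B)) fun ny =>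
    frc (pnorm (pxT n dx dy)) fun ex' => frc (pnorm (pyT n dx dy)) fun ey' =>
    frc (pnorm (t0T h nx ny)) fun Tn => frc (pnorm (dtT h nx px ex' ey')) fun dT =>
    band (pnn (psub Tn e4)) (band (pnn (psub (psub pone e4) Tn))
    (frc (dj (jq (cond fam b c)) B) fun τn => frc (dj (jq (cond fam c b)) Y) fun τ =>
    frc (lvY D.LT n e3 Tn T dT x) fun ln =>
    thiY U S S2 V (Nat.land i 3) q X Y px py T dx dy h e4 x
      (fun Tc dTc K L =>
        frc (pnorm (psub (th (!fam) (lvY D.LT m e3 Tc T dTc x)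
          (lvY D.LT n e3 Tn Tc (pnorm (psub dT dTc)) x)) L)) fun lU =>
        fi T q E1 e3 ln lU fun test =>
        Nat.rec (motive := fun _ => Bool)
          (frc (pnorm (pmul τn (pnorm (kqY D.KR sR sQ h e5 e6 Tn T dT x)))) fun rn =>
            frc (pnorm (padd (pmul τ (pnorm (kqY D.KR sR sQ h e5 e6 Tc T dTc x))) K)) fun rU =>
            test rn rU)
          (fun v _ => vmY D v h sR sQ e5 e6 T Tn Tc dT dTc x fun kn kc =>
            frc (pnorm (pmul τn (pnorm kn))) fun rn =>
            frc (pnorm (padd (pmul τ (pnorm kc)) K)) fun rU => test rn rU)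
          (Nat.shiftRight (Nat.land i 15) 2))
      (fun r l => frc (pnorm (psub ln l)) fun lU => frc (pnorm r) fun rU =>
        fi T q E1 e3 ln lU fun test =>
          frc (pnorm (pmul τn (pnorm (kqY D.KR sR sQ h e5 e6 Tn T dT x)))) fun rn =>
          test rn rU))))))

end Pool.Agent.Strip051.PB
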