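import Pool.Agent.Strip051.PB.StripYQ

/-! # Unit strips near `x = 1`, second form: soundness of the step -/

namespace Pool.Agent.Strip051.PB

open Pool.Agent.StripNear Pool.Agent.StripSquare Pool.Agent.Strip051.Sweep
open Pool.Agent.Strip051.LC

attribute [local irreducible] padd psub pneg pmul psq pinv psqrt psqrtg pabs pps pmax pmin pphi plam
  pcase phf pnat prat pscale pnorm pdc pnc pone ppos pnn Enc

/-! ### What is known about nodes and the third side -/

/-- The values on a tight side, in the range of the variable of the direction. -/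
def TgY (D : YDat) (t : Ty) (q : ℕ) (x X y K L : ℝ) : Prop :=
  e4Y x ≤ t0R (t.px X y) (t.py X y) → t0R (t.px X y) (t.py X y) ≤ 1 - e4Y x →
    K = (y - jq q) * D.ka x (t0R (t.px X y) (t.py X y)) ∧
      L = D.la.v x * (X + D.z t x (t0R (t.px X y) (t.py X y)))

/-- What is known about a node of type `t` in the quarter `q`. -/
structure NHY (D : YDat) (t : Ty) (q : ℕ) (x X y K L : ℝ) : Prop where
  inq : t.inq q
  iny : InQ q y
  len : qqn X y = t.nq
  sgn : t ≠ .u2 → X = t.sx * |X|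
  tg : TgY D t q x X y K L

theorem NHY.ge {D : YDat} {t : Ty} {q : ℕ} {x X y K L : ℝ} (h : NHY D t q x X y K L) :
    1 ≤ t.py X y ∧ qqn (t.px X y) (t.py X y) = 1 := by
  have e := Ty.py_sg (y := y) h.sgn
  have hl : qqn |X| y = t.nq := by
    rw [← h.len]
    unfold qqn
    rw [sq_abs]
  refine ⟨?_, Ty.p_unit h.len⟩
  rw [e]
  exact Ty.py_ge h.inq h.iny (abs_nonneg X) hl

/-- the level of the third side near the vertical direction, without the factor -/
noncomputable def vlR (V : VX) (x X Y c f : ℝ) (b : Bool) : ℝ :=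
  X - h0 * V.m1.v x * X + sgr b (c ^ 2 * GR (V.m1.v x) (V.m2.v x) c *
    ((f - sgr b X) / (f - c))) + V.s.v x * max (Y - V.yb.v) 0 * X

/-- What is known about the values `KU`, `LU` of kernel and level on the third side `(X, Y)` of type
`U` in the quarter `q`. -/
structure UHY (D : YDat) (U : Ty) (S S2 : Sg) (V : VX) (q : ℕ) (x X Y KU LU : ℝ) : Prop where
  inq : U.inq q
  iny : InQ q Y
  can : ∀ b, (U ≠ .u2 → b = bT U) → 0 ≤ sgr b X →
    (uT U = true → sgr b X ≤ S.f.v Y) → (uT U = false → S.f.v Y ≤ sgr b X) →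
    0 < U.nq - 3 / 4 * Y ^ 2 → ∃ Kc Lc, TgY D U q x (sgr b (cuR U Y)) Y Kc Lc ∧
      KU = Kc + (X - sgr b (cuR U Y)) * S.SK.v Y x ∧
      LU = Lc + D.la.v x * ((X - sgr b (cuR U Y)) * (1 + S.SX.v Y x))
  can2 : U = .u2 → ∀ b, 0 ≤ sgr b X → S.f.v Y ≤ sgr b X → sgr b X ≤ S2.f.v Y → V.ya.v ≤ Y →
    c1n Y < S.f.v Y → 0 < 1 - 3 / 4 * Y ^ 2 → ∃ Kc Lc, TgY D U q x (sgr b (c1n Y)) Y Kc Lc ∧
      KU = Kc + (X - sgr b (c1n Y)) * (S.SK.v Y x +
        lamR (sgr b X - S.f.v Y) (sgr b X - c1n Y) * (S2.SK.v Y x - S.SK.v Y x)) ∧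
      LU = Lc + D.la.v x * ((X - sgr b (c1n Y)) * (1 + (S.SX.v Y x +
        lamR (sgr b X - S.f.v Y) (sgr b X - c1n Y) * (S2.SX.v Y x - S.SX.v Y x))))
  ver : U = .u2 → ∀ b, 0 ≤ sgr b X → sgr b X ≤ S.f.v Y → V.ya.v ≤ Y → Y ≤ V.yk.v →
    c1n Y < S.f.v Y → KU = 0 ∧ LU = D.la.v x * vlR V x X Y (c1n Y) (S.f.v Y) b
  ver2 : U = .u2 → ∀ b, 0 ≤ sgr b X → S.f.v Y ≤ sgr b X → sgr b X ≤ S2.f.v Y → V.ya.v ≤ Y →
    Y ≤ V.yk.v → c1n Y < S.f.v Y → KU = sgr b ((sgr b X - S.f.v Y) * S2.SK.v Y x) ∧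
      LU = D.la.v x * (vlR V x X Y (c1n Y) (S.f.v Y) b +
        sgr b ((sgr b X - S.f.v Y) * (S2.SX.v Y x - S.SX.v Y x)))
  mid : U = .u2 → ∀ v, |v| ≤ 1 / 2 - V.k5.v →
    D.z .u2 x (1 / 2 - v) = -(V.m1.v x * v) + V.m2.v x * (v * |v|)
  yb : U = .u2 → 0 ≤ V.yb.v ∧ 1 ≤ 3 / 4 * V.yb.v ^ 2
  k5 : U = .u2 → 1 / 5 ≤ V.k5.v

theorem lamR_z (d : ℝ) : lamR 0 d = 0 := by
  unfold lamR
  simp

theorem ty_u2 {U : Ty} (h : Ty.rec (motive := fun _ => Bool) false true false false false false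
    false U = true) : U = .u2 := by
  cases U
  · exact absurd (show false = true from h) Bool.false_ne_true
  · rfl
  all_goals exact absurd (show false = true from h) Bool.false_ne_true

section

variable {E : Pt} {D : YDat} {U : Ty} {S S2 : Sg} {V : VX} {q : ℕ} {b : Bool} {x X Y KU LU px py
  dx dy N : ℝ} {x' X' Y' T' px' py' dx' dy' h' e4' : ℕ}

theorem canY_sound {fin : ℕ → ℕ → ℕ → ℕ → Bool} (hx : Enc E x' x) (hX : Enc E X' X)
    (hY : Enc E Y' Y) (h3 : Enc E px' px)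
    (h5 : Enc E dx' dx) (h6 : Enc E dy' dy) (hh : Enc E h' h0)
    (g4e : Enc E e4' (e4Y x)) (H : UHY D U S S2 V q x X Y KU LU)
    (hb : U ≠ .u2 → b = bT U) (hp : qqn px py = 1) (hp1 : 1 ≤ py)
    (g1 : U.px X Y = px + N * U.px dx dy) (g2 : U.py X Y = py + N * U.py dx dy)
    (g3 : qqn X Y - U.nq = 3 / 16 * sN U * N)
    (h : canY U b S S2 V X' Y' px' dx' dy' h' e4' x' fin = true) :
    ∃ Tc' dT' K' L' tc dt k l, Enc E Tc' tc ∧ Enc E dT' dt ∧ Enc E K' k ∧ Enc E L' l ∧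
      tc - t0R px py = N * dt ∧ e4Y x ≤ tc ∧ tc ≤ 1 - e4Y x ∧
      KU = (Y - jq q) * D.ka x tc + N * k ∧
      LU = D.la.v x * (X + D.z U x tc + N * l) ∧ fin Tc' dT' K' L' = true := by
  unfold canY at h
  simp only [frc_eq] at h
  obtain ⟨c1, h⟩ := band_true h
  obtain ⟨c3, h⟩ := band_true h
  obtain ⟨c4, h⟩ := band_true h
  obtain ⟨c5, h⟩ := band_true h
  obtain ⟨c6, h⟩ := band_true h
  have haX := enc_sg b hX
  have hc := enc_cuT U hY
  have hf := S.f.enc hY
  have a1 := pnn_sound haX c1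
  have a3 := ppos_sound (enc_sub (enc_pnc E (nT U)) (enc_t34 (enc_sq hY))) c3
  rw [nT_eq] at a3
  have a4 := ppos_sound (enc_add haX hc) c4
  have hcsq : cuR U Y ^ 2 = U.nq - 3 / 4 * Y ^ 2 := Real.sq_sqrt a3.le
  have hc0 : 0 ≤ cuR U Y := Real.sqrt_nonneg _
  -- the displacement along the abscissa
  have hxi : Enc E (sg (cond (uT U) b (!b)) (pscale 3 16 (pinv (padd (sg b X') (cuT U Y')))))
      (sgr b (sN U * (3 / 16 * (sgr b X + cuR U Y)⁻¹))) := by
    have e := enc_sg (cond (uT U) b (!b)) (enc_scale 3 16 (enc_inv (enc_add haX hc)))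
    refine enc_cast e ?_
    rcases uT_iff U with ⟨e1, -, e2⟩ | ⟨e1, -, e2⟩ <;> rw [e1, e2] <;> cases b <;>
      simp [sgr]
  have hNξ : X - sgr b (cuR U Y) = N * sgr b (sN U * (3 / 16 * (sgr b X + cuR U Y)⁻¹)) := by
    have hi := inv_mul_cancel₀ a4.ne'
    have e1 : (sgr b X - cuR U Y) * (sgr b X + cuR U Y) = 3 / 16 * sN U * N := by
      have := sgu_sq b X
      unfold qqn at g3
      linear_combination this - hcsq + g3
    have e2 : sgr b X - cuR U Y = N * (sN U * (3 / 16 * (sgr b X + cuR U Y)⁻¹)) := by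
      linear_combination (sgr b X + cuR U Y)⁻¹ * e1 - (sgr b X - cuR U Y) * hi
    have e3 : X - sgr b (cuR U Y) = sgr b (sgr b X - cuR U Y) := sgr_sub_c b X _
    rw [e3, e2]
    exact sgu_mul b _ _
  set ξ := sgr b (sN U * (3 / 16 * (sgr b X + cuR U Y)⁻¹)) with hξ
  -- kernel and level along the segment
  obtain ⟨Kc, Lc, sk, sx, K', L', tg, eK, eL, hK, hL, hfin⟩ : ∃ Kc Lc sk sx K' L',
      TgY D U q x (sgr b (cuR U Y)) Y Kc Lc ∧ KU = Kc + (X - sgr b (cuR U Y)) * sk ∧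
      LU = Lc + D.la.v x * ((X - sgr b (cuR U Y)) * (1 + sx)) ∧ Enc E K' (ξ * sk) ∧
      Enc E L' (ξ * sx) ∧ fin (pnorm (t0T h' (pnorm (pxT U (sg b (cuT U Y')) Y'))
        (pnorm (pyT U (sg b (cuT U Y')) Y')))) (pnorm (dtT h' (pnorm (pxT U (sg b (cuT U Y')) Y'))
          px' (pnorm (axT U (pxT U dx' dy') (sg (cond (uT U) b (!b)) (pscale 3 16 (pinv
            (padd (sg b X') (cuT U Y'))))))) (pnorm (ayT U (pyT U dx' dy')
            (sg (cond (uT U) b (!b)) (pscale 3 16 (pinv (padd (sg b X') (cuT U Y')))))))))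
          K' L' = true := by
    rcases bsel_true h with ⟨-, h⟩ | ⟨c2, h⟩
    · obtain ⟨cU, h⟩ := band_true h
      obtain ⟨d1, h⟩ := band_true h
      obtain ⟨d2, h⟩ := band_true h
      obtain ⟨d3, h⟩ := band_true h
      have hU := ty_u2 cU
      subst hU
      have hf2 := S2.f.enc hY
      have b1 := pnn_sound (enc_sub hY (V.ya.enc E)) d1
      have b2 := pnn_sound (enc_sub hf2 haX) d2
      have ec : cuR .u2 Y = c1n Y := by unfold cuR c1n; simp only [Ty.nq]
      have b3 := ppos_sound (enc_sub hf hc) d3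
      rw [ec] at b3
      have hθ : Enc E (plam (pps (psub (sg b X') (S.f.t Y'))) (psub (sg b X') (cuT .u2 Y')))
          (lamR (max (sgr b X - S.f.v Y) 0) (sgr b X - c1n Y)) := by
        have := enc_lam (enc_pos (enc_sub haX hf)) (enc_sub haX hc)
        rwa [ec] at this
      have hsk := enc_add (S.SK.enc hY hx) (enc_mul hθ (enc_norm (enc_sub (S2.SK.enc hY hx)
        (S.SK.enc hY hx))))
      have hsx := enc_add (S.SX.enc hY hx) (enc_mul hθ (enc_norm (enc_sub (S2.SX.enc hY hx)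
        (S.SX.enc hY hx))))
      rcases le_total (sgr b X) (S.f.v Y) with h0 | h0
      · obtain ⟨Kc, Lc, tg, eK, eL⟩ := H.can b hb a1 (fun _ => h0)
          (fun hu => absurd hu (by simp [uT])) a3
        have e0 : max (sgr b X - S.f.v Y) 0 = 0 := max_eq_right (by linarith)
        rw [e0, lamR_z] at hsk hsx
        refine ⟨Kc, Lc, _, _, _, _, tg, ?_, ?_, enc_mul hxi hsk, enc_mul hxi hsx, h⟩
        · rw [eK]
          ring
        · rw [eL]
          ring
      · obtain ⟨Kc, Lc, tg, eK, eL⟩ := H.can2 rfl b a1 h0 (by linarith) (by linarith)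
          (by linarith) (by simpa only [Ty.nq] using a3)
        have e0 : max (sgr b X - S.f.v Y) 0 = sgr b X - S.f.v Y := max_eq_left (by linarith)
        rw [e0] at hsk hsx
        rw [← ec] at tg eK eL
        rw [← ec] at hsk hsx
        exact ⟨Kc, Lc, _, _, _, _, tg, eK, eL, enc_mul hxi hsk, enc_mul hxi hsx, h⟩
    · obtain ⟨Kc, Lc, tg, eK, eL⟩ := H.can b hb a1 (fun hu => by
        have := pnn_sound (enc_sl (uT U) (enc_sub hf haX) (enc_sub haX hf)) c2
        rw [hu] at this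
        simp only [cond_true] at this
        linarith) (fun hu => by
        have := pnn_sound (enc_sl (uT U) (enc_sub hf haX) (enc_sub haX hf)) c2
        rw [hu] at this
        simp only [cond_false] at this
        linarith) a3
      exact ⟨Kc, Lc, _, _, _, _, tg, eK, eL, enc_mul hxi (S.SK.enc hY hx),
        enc_mul hxi (S.SX.enc hY hx), h⟩
  set c := cuR U Y with hcdef
  -- the point on the curve
  have hq1 : qqn (sgr b c) Y = U.nq := by
    unfold qqn
    rw [sgu_sq, hcsq]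
    ring
  have hq2 : qqn c Y = U.nq := by
    unfold qqn
    rw [hcsq]
    ring
  have habs : |sgr b c| = c := by rw [abs_sgr, abs_of_nonneg hc0]
  have hsx : U ≠ .u2 → sgr b c = U.sx * |sgr b c| := fun hu => by
    rw [habs, hb hu, sgr_bT]
  have hpy := Ty.py_sg (y := Y) hsx
  rw [habs] at hpy
  have hge : 1 ≤ U.py (sgr b c) Y := by
    rw [hpy]
    exact Ty.py_ge H.inq H.iny hc0 hq2
  have hun := Ty.p_unit hq1
  have gx : U.px (sgr b c) Y - px = N * (U.px dx dy - U.px ξ 0) := by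
    have e : U.px X Y = U.px (sgr b c) Y + N * U.px ξ 0 := by
      rw [← Ty.px_add, ← hNξ]
      congr 1 <;> ring
    rw [e] at g1
    linear_combination g1
  have gy : U.py (sgr b c) Y - py = N * (U.py dx dy - U.py ξ 0) := by
    have e : U.py X Y = U.py (sgr b c) Y + N * U.py ξ 0 := by
      rw [← Ty.py_add, ← hNξ]
      congr 1 <;> ring
    rw [e] at g2
    linear_combination g2
  have h7 := enc_norm (enc_axT U (enc_pxT U h5 h6) hxi)
  have h8 := enc_norm (enc_ayT U (enc_pyT U h5 h6) hxi)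
  have h9 := enc_norm (enc_pxT U (enc_sg b hc) hY)
  have h10 := enc_norm (enc_pyT U (enc_sg b hc) hY)
  have hTc := enc_norm (enc_t0T hh h9 h10)
  obtain ⟨dt, hdt, et⟩ := dtT_sound hh h9 h3 h7 h8 hun hge hp hp1 gx gy
  have hdt' := enc_norm hdt
  have a5 := pnn_sound (enc_sub hTc g4e) c5
  have a6 := pnn_sound (enc_sub (enc_sub (enc_one E) g4e) hTc) c6
  obtain ⟨tK, tL⟩ := tg (by linarith) (by linarith)
  refine ⟨_, _, _, _, _, _, _, _, hTc, hdt', hK, hL, et, by linarith, by linarith, ?_, ?_, hfin⟩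
  · rw [eK, hNξ, tK]
    ring
  · rw [eL, tL]
    linear_combination D.la.v x * (1 + sx) * hNξ - D.la.v x * hNξ

end

/-! ### Near the vertical direction -/

theorem ver_mainY {s P c f w q1 N δ M m1 m2 : ℝ} (hs : 0 ≤ s) (hc0 : 0 ≤ c) (hcs : c ≤ s)
    (hsf : s ≤ 2 * f - c) (hcf : c < f) (hN : 0 ≤ N) (hq : q1 = 3 / 16 * N)
    (hw : w * q1 = s ^ 2 - c ^ 2) (hP : s - P = N * δ)
    (hM : (s - P) * M = s ^ 2 - P * |P|) (hc : c ≤ 1 / 2) (hP2 : |P| ≤ 1 / 2) :
    ∃ u e, 0 ≤ u ∧ u ≤ 1 ∧ |e| ≤ c * (|m1| / 12 + 5 / 8 * |m2|) * |δ * M - 3 / 16 * w| ∧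
      c ^ 2 * GR m1 m2 c * ((f - s) / (f - c)) - P * |P| * GR m1 m2 |P| =
        N * (GR m1 m2 |P| * (δ * M - 3 / 16 * w - 3 / 16 * w * u * (c / 2 * (f - c)⁻¹)) + e) := by
  obtain ⟨v1, v2⟩ := ver_core hq hw hP hM
  have hfc : 0 < f - c := by linarith
  have hi := inv_mul_cancel₀ hfc.ne'
  set L := |m1| / 12 + 5 / 8 * |m2| with hL
  have hL0 : 0 ≤ L := by positivity
  set d := δ * M - 3 / 16 * w with hd
  -- the difference of the coefficients
  obtain ⟨e, he1, he2⟩ : ∃ e, (GR m1 m2 c - GR m1 m2 |P|) * (c ^ 2 * ((f - s) / (f - c))) = N * e ∧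
      |e| ≤ c * L * |d| := by
    refine ex_quo hN (by positivity) ?_
    have hθ : |(f - s) / (f - c)| ≤ 1 := by
      rw [abs_div, abs_of_pos hfc, div_le_one hfc, abs_le]
      constructor <;> linarith
    have g1 := GR_lip (m1 := m1) (m2 := m2) hc0 hc (abs_nonneg P) hP2
    rw [← hL] at g1
    have g2 : c * abs (c - abs P) ≤ abs (c ^ 2 - P ^ 2) := by
      have e1 : c ^ 2 - P ^ 2 = (c - |P|) * (c + |P|) := by
        rw [← sq_abs P]
        ring
      rw [e1, abs_mul, abs_of_nonneg (show 0 ≤ c + |P| by positivity)]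
      have := abs_nonneg (c - abs P)
      nlinarith [abs_nonneg P]
    have g3 : |c ^ 2 - P ^ 2| ≤ N * |d| := by
      refine v2.trans ?_
      rw [abs_mul, abs_of_nonneg hN]
    rw [abs_mul, abs_mul, abs_of_nonneg (sq_nonneg c)]
    have g4 : abs (GR m1 m2 c - GR m1 m2 (abs P)) * (c ^ 2 * |(f - s) / (f - c)|) ≤
        L * abs (c - abs P) * (c ^ 2 * 1) := by
      refine mul_le_mul g1 (mul_le_mul_of_nonneg_left hθ (sq_nonneg c)) ?_ (by positivity)
      exact mul_nonneg (sq_nonneg c) (abs_nonneg _)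
    refine g4.trans ?_
    calc L * abs (c - abs P) * (c ^ 2 * 1) = L * c * (c * abs (c - abs P)) := by ring
      _ ≤ L * c * (N * |d|) := mul_le_mul_of_nonneg_left (g2.trans g3) (by positivity)
      _ = N * (c * L * |d|) := by ring
  obtain ⟨u, u0, u1, hu⟩ : ∃ u, 0 ≤ u ∧ u ≤ 1 ∧ c ^ 2 * (s - c) = (s ^ 2 - c ^ 2) * (c / 2 * u) := by
    rcases (show 0 ≤ s + c by linarith).eq_or_lt with h0 | h0
    · refine ⟨0, le_rfl, zero_le_one, ?_⟩
      have e1 : s = 0 := by linarith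
      have e2 : c = 0 := by linarith
      rw [e1, e2]
      ring
    · refine ⟨2 * c / (s + c), by positivity, ?_, ?_⟩
      · rw [div_le_one h0]
        linarith
      · field_simp
        ring
  refine ⟨u, e, u0, u1, he2, ?_⟩
  have k1 : (f - s) / (f - c) = 1 - (s - c) * (f - c)⁻¹ := by
    field_simp
    ring
  rw [k1] at he1 ⊢
  have k2 : c ^ 2 * ((s - c) * (f - c)⁻¹) = N * (3 / 16 * w * u * (c / 2 * (f - c)⁻¹)) := by
    rw [hq] at hw
    linear_combination (f - c)⁻¹ * hu - (c / 2 * u) * (f - c)⁻¹ * hw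
  linear_combination he1 + GR m1 m2 |P| * v1 - GR m1 m2 |P| * k2

/-- the form of the signed part -/
theorem enc_WY {E : Pt} {w0 X1 : ℕ} {w z : ℝ} {b : Bool} (hb : 0 ≤ sgr b z) (hw0 : 0 ≤ w)
    (hw1 : w ≤ 1) (hw : Enc E w0 (3 / 16 * w)) (hX : Enc E X1 z) (hz : z = 0 → w = 0) :
    Enc E (sel2 (pnn X1) (sel2 (pnn (pneg X1)) (pscale 3 16 (pnorm (psub (padd pu01 pu01) pone)))
      (pneg w0)) w0) (sgr b (3 / 16 * w)) := by
  refine sel2_case (P := fun Z => Enc E Z (sgr b (3 / 16 * w)))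
    (sel2_case (P := fun Z => Enc E Z (sgr b (3 / 16 * w))) ?_ ?_) ?_
  · obtain ⟨u, u0, u1, hu⟩ := ex_sgn (e := sgr b w) (B := 1)
      (by rw [abs_sgr, abs_of_nonneg hw0]; exact hw1)
    have := enc_u01 E u0 u1
    refine enc_cast (enc_scale 3 16 (enc_norm (enc_sub (enc_add this this) (enc_one E)))) ?_
    have e : sgr b (3 / 16 * w) = 3 / 16 * sgr b w := by
      cases b
      · show -(3 / 16 * w) = 3 / 16 * -w
        ring
      · rfl
    rw [e, hu]
    push_cast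
    ring
  · intro hc
    have g1 := pnn_sound (enc_neg hX) hc
    cases b
    · exact enc_neg hw
    · have h1 : 0 ≤ z := hb
      have h2 : w = 0 := hz (by linarith)
      refine enc_cast (enc_neg hw) ?_
      show -(3 / 16 * w) = 3 / 16 * w
      rw [h2]
      ring
  · intro hc
    have g1 := pnn_sound hX hc
    cases b
    · have h1 : 0 ≤ -z := hb
      have h2 : w = 0 := hz (by linarith)
      refine enc_cast hw ?_
      show 3 / 16 * w = -(3 / 16 * w)
      rw [h2]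
      ring
    · exact hw

end Pool.Agent.Strip051.PB
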