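import Pool.Agent.Strip051.PB.StripYV
import Pool.Agent.Strip051.PB.StripE

/-! # Unit strips near `x = 1`, second form: the vertices and the step -/

namespace Pool.Agent.Strip051.PB

open Pool.Agent.StripNear Pool.Agent.StripSquare Pool.Agent.Strip051.Sweep
open Pool.Agent.Strip051.LC

attribute [local irreducible] padd psub pneg pmul psq pinv psqrt psqrtg pabs pps pmax pmin pphi plam
  pcase phf pnat prat pscale pnorm pdc pnc pone ppos pnn Enc

/-- the pair has forms for which the test is true -/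
def EPr (E : Pt) (fin : ℕ → ℕ → Bool) (a b : ℝ) : Prop :=
  ∃ A B, Enc E A a ∧ Enc E B b ∧ fin A B = true

section

variable {E : Pt} {D : YDat} {v : ℕ} {x t tn tc dn dc N : ℝ}
  {h' sR' sQ' e5' e6' T' Tn' Tc' dn' dc' x' : ℕ} {fin : ℕ → ℕ → Bool}

/-- two pairs of slopes -/
theorem vf_comb {g : ℝ → ℝ} {P : ℝ → ℝ → Prop} {θ s1 s2 u1 u2 : ℝ} (t0 : 0 ≤ θ) (t1 : θ ≤ 1)
    (p0 : 0 < t) (p1 : 0 < tn) (p2 : 0 < tc) (e1 : tn - t = N * dn) (e2 : tc - t = N * dc)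
    (hn : g tn - g t = (1 - θ) * (N * (s1 * dn)) + θ * (N * (s2 * dn)))
    (hc : g tc - g t = (1 - θ) * (N * (u1 * dc)) + θ * (N * (u2 * dc)))
    (h1 : P (kpR s1 dn tn t (g t)) (kpR u1 dc tc t (g t)))
    (h2 : P (kpR s2 dn tn t (g t)) (kpR u2 dc tc t (g t))) :
    ∃ Qn Qc, h0 * g tn / tn - h0 * g t / t = N * Qn ∧ h0 * g tc / tc - h0 * g t / t = N * Qc ∧
      Cv P Qn Qc := by
  refine ⟨_, _, kpR_eq (g := (1 - θ) * s1 + θ * s2) p1 p0 e1 (by rw [hn]; ring),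
    kpR_eq (g := (1 - θ) * u1 + θ * u2) p2 p0 e2 (by rw [hc]; ring), ?_⟩
  exact ⟨θ, _, _, _, _, t0, t1, h1, h2, kpR_comb _ _ _ _, kpR_comb _ _ _ _⟩

theorem vfY_sound (hD : D.Ok x) (hx : Enc E x' x) (hs : Enc E sR' (D.sR.v x))
    (hu : Enc E sQ' (D.sQ.v x)) (hh : Enc E h' h0) (g5 : Enc E e5' (e5R x))
    (g6 : Enc E e6' (e4R x)) (hN : 0 ≤ N) (hT : Enc E T' t) (hTn : Enc E Tn' tn)
    (hTc : Enc E Tc' tc) (h1 : Enc E dn' dn) (h2 : Enc E dc' dc) (e1 : tn - t = N * dn)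
    (e2 : tc - t = N * dc) (p0 : 0 < t) (p1 : 0 < tn) (p2 : 0 < tc)
    (h : vfY D v h' sR' sQ' e5' e6' T' Tn' Tc' dn' dc' x' fin = true) :
    ∃ Qn Qc, h0 * ruY D.KR (D.sR.v x) (D.sQ.v x) (e5R x) (e4R x) x tn / tn -
        h0 * ruY D.KR (D.sR.v x) (D.sQ.v x) (e5R x) (e4R x) x t / t = N * Qn ∧
      h0 * ruY D.KR (D.sR.v x) (D.sQ.v x) (e5R x) (e4R x) x tc / tc -
        h0 * ruY D.KR (D.sR.v x) (D.sQ.v x) (e5R x) (e4R x) x t / t = N * Qc ∧
      Cv (EPr E fin) Qn Qc := by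
  obtain ⟨q5, q6, q7⟩ := hD.e5
  unfold vfY at h
  simp only [frc_eq] at h
  obtain ⟨κ', L', R', κ, L, R, hκ, hL, hR, hk, h⟩ := knH_sound hD.kr q7 hx hs hu g5 g6 hT hTn hTc h
  obtain ⟨sn', sc', p', sn, sc, p, hsn, hsc, hp, hm, m1, m2, h⟩ :=
    vtx_sound hN e1 e2 hL hR hT hTn hTc h1 h2 h
  set g := ruY D.KR (D.sR.v x) (D.sQ.v x) (e5R x) (e4R x) x with hg
  have i1 : in3 t tn tc tn := Or.inr (Or.inl rfl)
  have i2 : in3 t tn tc tc := Or.inr (Or.inr rfl)
  have d1 := hk.diff i1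
  have d2 := hk.diff i2
  have en : ∀ {G : ℕ} {s : ℝ}, Enc E G s →
      Enc E (kpS D.KR sR' sQ' h' e5' e6' Tn' T' dn' x' G) (kpR s dn tn t (g t)) := fun hG =>
    kpS_enc hD.kr hD.kz q5 q6 hx hs hu hh g5 g6 hTn hT h1 hG
  have ec : ∀ {G : ℕ} {s : ℝ}, Enc E G s →
      Enc E (kpS D.KR sR' sQ' h' e5' e6' Tc' T' dc' x' G) (kpR s dc tc t (g t)) := fun hG =>
    kpS_enc hD.kr hD.kz q5 q6 hx hs hu hh g5 g6 hTc hT h2 hG
  have low : κ ≤ p → EPr E fin (kpR sn dn tn t (g t)) (kpR sc dc tc t (g t)) →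
      EPr E fin (kpR R dn tn t (g t)) (kpR R dc tc t (g t)) →
      ∃ Qn Qc, h0 * g tn / tn - h0 * g t / t = N * Qn ∧ h0 * g tc / tc - h0 * g t / t = N * Qc ∧
        Cv (EPr E fin) Qn Qc := by
    intro hκp f1 f2
    obtain ⟨θ, t0, t1, hθ⟩ := dK_low (L := L) (R := R) hm hκp
    refine vf_comb t0 t1 p0 p1 p2 e1 e2 ?_ ?_ f2 f1
    · rw [d1, hθ _ i1, m1, e1]
      ring
    · rw [d2, hθ _ i2, m2, e2]
      ring
  have high : p ≤ κ → EPr E fin (kpR sn dn tn t (g t)) (kpR sc dc tc t (g t)) →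
      EPr E fin (kpR L dn tn t (g t)) (kpR L dc tc t (g t)) →
      ∃ Qn Qc, h0 * g tn / tn - h0 * g t / t = N * Qn ∧ h0 * g tc / tc - h0 * g t / t = N * Qc ∧
        Cv (EPr E fin) Qn Qc := by
    intro hκp f1 f2
    obtain ⟨θ, t0, t1, hθ⟩ := dK_high (L := L) (R := R) hm hκp
    refine vf_comb t0 t1 p0 p1 p2 e1 e2 ?_ ?_ f1 f2
    · rw [d1, hθ _ i1, m1, e1]
      ring
    · rw [d2, hθ _ i2, m2, e2]
      ring
  match v, h with
  | 0, h =>
    obtain ⟨a1, h⟩ := band_true h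
    obtain ⟨a2, a3⟩ := band_true h
    rcases le_total κ p with hκp | hκp
    · exact low hκp ⟨_, _, en hsn, ec hsc, a2⟩ ⟨_, _, en hR, ec hR, a3⟩
    · exact high hκp ⟨_, _, en hsn, ec hsc, a2⟩ ⟨_, _, en hL, ec hL, a1⟩
  | 1, h =>
    obtain ⟨a1, h⟩ := band_true h
    obtain ⟨a2, a3⟩ := band_true h
    have := pnn_sound (enc_sub hp hκ) a1
    exact low (by linarith) ⟨_, _, en hsn, ec hsc, a2⟩ ⟨_, _, en hR, ec hR, a3⟩
  | v + 2, h =>
    obtain ⟨a1, h⟩ := band_true h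
    obtain ⟨a2, a3⟩ := band_true h
    have := pnn_sound (enc_sub hκ hp) a1
    exact high (by linarith) ⟨_, _, en hsn, ec hsc, a3⟩ ⟨_, _, en hL, ec hL, a2⟩

theorem vmY_sound (hD : D.Ok x) (hx : Enc E x' x) (hs : Enc E sR' (D.sR.v x))
    (hu : Enc E sQ' (D.sQ.v x)) (hh : Enc E h' h0) (g5 : Enc E e5' (e5R x))
    (g6 : Enc E e6' (e4R x)) (hN : 0 ≤ N) (hT : Enc E T' t) (hTn : Enc E Tn' tn)
    (hTc : Enc E Tc' tc) (h1 : Enc E dn' dn) (h2 : Enc E dc' dc) (e1 : tn - t = N * dn)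
    (e2 : tc - t = N * dc) (p0 : 0 < t) (p1 : 0 < tn) (p2 : 0 < tc) (r0 : t < 1) (r1 : tn < 1)
    (r2 : tc < 1)
    (h : vmY D v h' sR' sQ' e5' e6' T' Tn' Tc' dn' dc' x' fin = true) :
    ∃ Qn Qc, D.ka x tn - D.ka x t = N * Qn ∧ D.ka x tc - D.ka x t = N * Qc ∧
      Cv (EPr E fin) Qn Qc := by
  obtain ⟨q5, q6, q7⟩ := hD.e5
  unfold vmY at h
  rcases bsel_true h with ⟨-, h⟩ | ⟨c1, h⟩
  · obtain ⟨c1, h⟩ := band_true h
    simp only [frc_eq] at h
    have g := fun s hs => geK_sound (enc_ch E) hT hTn hTc c1 (t := s) hs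
    have g0 := g t (Or.inl rfl)
    have g1 := g tn (Or.inr (Or.inl rfl))
    have g2 := g tc (Or.inr (Or.inr rfl))
    obtain ⟨Qn, Qc, k1, k2, k3⟩ := vfY_sound hD hx hs hu hh g5 g6 hN
      (enc_norm (enc_sub (enc_one E) hT)) (enc_norm (enc_sub (enc_one E) hTn))
      (enc_norm (enc_sub (enc_one E) hTc)) (enc_neg h1) (enc_neg h2) (by linear_combination -e1)
      (by linear_combination -e2) (by linarith) (by linarith) (by linarith) h
    refine ⟨-1 * Qn + 0, -1 * Qc + 0, ?_, ?_, k3.map (-1) 0 (-1) 0 ?_⟩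
    · unfold YDat.ka
      rw [kaY_hi hD.kz q5 q6 g1, kaY_hi hD.kz q5 q6 g0]
      linear_combination -k1
    · unfold YDat.ka
      rw [kaY_hi hD.kz q5 q6 g2, kaY_hi hD.kz q5 q6 g0]
      linear_combination -k2
    · rintro a b ⟨A, B, hA, hB, hf⟩
      exact ⟨_, _, enc_cast (enc_neg hA) (by ring), enc_cast (enc_neg hB) (by ring), hf⟩
  · have g := fun s hs => leK_sound (enc_ch E) hT hTn hTc c1 (t := s) hs
    have g0 := g t (Or.inl rfl)
    have g1 := g tn (Or.inr (Or.inl rfl))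
    have g2 := g tc (Or.inr (Or.inr rfl))
    obtain ⟨Qn, Qc, k1, k2, k3⟩ := vfY_sound hD hx hs hu hh g5 g6 hN hT hTn hTc h1 h2 e1 e2 p0 p1
      p2 h
    refine ⟨Qn, Qc, ?_, ?_, k3⟩
    · unfold YDat.ka
      rw [kaY_lo g1, kaY_lo g0]
      exact k1
    · unfold YDat.ka
      rw [kaY_lo g2, kaY_lo g0]
      exact k2

end

/-! ### The step -/

section

variable {E : Pt} {D : YDat} {U : Ty} {S S2 : Sg} {V : VX} {q i : ℕ} {x X Y KU LU px py
  dx dy N : ℝ} {x' X' Y' T' px' py' dx' dy' h' e4' q' : ℕ}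
  {finC : ℕ → ℕ → ℕ → ℕ → Bool} {finV : ℕ → ℕ → Bool}

theorem thiY_sound (hD : D.Ok x) (hx : Enc E x' x) (hX : Enc E X' X)
    (hY : Enc E Y' Y) (hq : Enc E q' (qqn X Y)) (h3 : Enc E px' px) (h4 : Enc E py' py)
    (hT : Enc E T' (t0R px py))
    (h5 : Enc E dx' dx) (h6 : Enc E dy' dy) (hh : Enc E h' h0)
    (g4e : Enc E e4' (e4Y x)) (H : UHY D U S S2 V q x X Y KU LU)
    (hp : qqn px py = 1) (hp1 : 1 ≤ py) (k1 : 1 ≤ qqn X Y)
    (g1 : U.px X Y = px + N * U.px dx dy) (g2 : U.py X Y = py + N * U.py dx dy)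
    (g3 : qqn X Y - U.nq = 3 / 16 * sN U * N)
    (h : thiY U S S2 V i q' X' Y' px' py' T' dx' dy' h' e4' x' finC finV = true) :
    (∃ Tc' dT' K' L' tc dt k l, Enc E Tc' tc ∧ Enc E dT' dt ∧ Enc E K' k ∧ Enc E L' l ∧
      tc - t0R px py = N * dt ∧ e4Y x ≤ tc ∧ tc ≤ 1 - e4Y x ∧
      KU = (Y - jq q) * D.ka x tc + N * k ∧
      LU = D.la.v x * (X + D.z U x tc + N * l) ∧ finC Tc' dT' K' L' = true) ∨
    ∃ r' l' r l, Enc E r' r ∧ Enc E l' l ∧ KU = (Y - jq q) * D.ka x (t0R px py) + N * r ∧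
      LU = D.la.v x * (X + D.z U x (t0R px py) + N * l) ∧ finV r' l' = true := by
  by_cases hU : U = .u2
  · subst hU
    have hq2 : q = 2 := H.inq
    subst hq2
    have e1 : X = px + N * dx := g1
    have e3 : qqn X Y - 1 = 3 / 16 * N := by
      have : sN .u2 = 1 := by simp only [sN, Ty.nq]; norm_num
      rw [this] at g3
      simpa [Ty.nq] using g3
    match i, h with
    | 0, h => exact Or.inl (canY_sound hx hX hY h3 h5 h6 hh g4e H (fun h => absurd rfl h) hp hp1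
        g1 g2 g3 h)
    | 1, h => exact Or.inl (canY_sound hx hX hY h3 h5 h6 hh g4e H (fun h => absurd rfl h) hp hp1
        g1 g2 g3 h)
    | _ + 2, h => exact Or.inr (verY_sound hD hx hX hY hq h3 h4 hT h5 hh H hp hp1 k1 e1 e3 h)
  · have e : canY U (bT U) S S2 V X' Y' px' dx' dy' h' e4' x' finC = true := by
      cases U
      · exact h
      · exact absurd rfl hU
      all_goals exact h
    exact Or.inl (canY_sound hx hX hY h3 h5 h6 hh g4e H (fun _ => rfl) hp hp1 g1 g2 g3 e)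

end

section

variable {E : Pt} {D : YDat} {fam : Bool} {m n U : Ty} {S S2 : Sg} {V : VX}
  {a b c i x' A' B' X1' X2' X' Y' : ℕ} {x y1 y2 x1 x2 X Y Km Lm Kn Ln KU LU ex : ℝ}
  {fi : ℕ → ℕ → ℕ → ℕ → ℕ → ℕ → ((ℕ → ℕ → Bool) → Bool) → Bool}

theorem stpY_sound (hD : D.Ok x) (hI : okI fam m n U = true)
    (hx : Enc E x' x) (hA : Enc E A' y1) (hB : Enc E B' y2) (hX1 : Enc E X1' x1)
    (hX2 : Enc E X2' x2) (hX : Enc E X' X) (hY : Enc E Y' Y) (eX : X = x2 + eps fam * x1)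
    (eY : Y = y2 + eps fam * y1) (hex : ex = (x1 * y2 - x2 * y1) / 2 - 1 / 2)
    (Hm : NHY D m a x x1 y1 Km Lm) (Hn : NHY D n (cond fam b c) x x2 y2 Kn Ln)
    (HU : UHY D U S S2 V (cond fam c b) x X Y KU LU) (q1 : 1 ≤ qqn X Y) (q3 : qqn X Y ≤ 3)
    (h : stpY D fam m n U b c S S2 V i x' A' B' X1' X2' X' Y' fi = true) :
    ∃ T' q' E1' e3' ln' lU' KK T en lU, Enc E T' T ∧ Enc E q' (qqn X Y) ∧ Enc E E1' (1 + ex)⁻¹ ∧
      Enc E e3' (e3R x) ∧ Enc E ln' en ∧ Enc E lU' lU ∧ 0 < 1 + ex ∧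
      Km = (y1 - jq a) * D.ka x T ∧ Lm = D.la.v x * (x1 + D.z m x T) ∧
      Ln = D.la.v x * (x2 + D.z n x T + Nst U (qqn X Y) * en) ∧
      LU = D.la.v x * (X + D.z U x T + Nst U (qqn X Y) * (en - lU)) ∧
      fi T' q' E1' e3' ln' lU' KK = true ∧
      ∀ test, KK test = true → ∃ rn rU,
        Kn = (y2 - jq (cond fam b c)) * D.ka x T + Nst U (qqn X Y) * rn ∧
        KU = (Y - jq (cond fam c b)) * D.ka x T + Nst U (qqn X Y) * rU ∧
        Cv (EPr E test) rn rU := by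
  unfold stpY at h
  simp only [frc_eq] at h
  obtain ⟨c1, h⟩ := band_true h
  obtain ⟨c2, h⟩ := band_true h
  obtain ⟨c3, h⟩ := band_true h
  obtain ⟨c4, h⟩ := band_true h
  obtain ⟨c5, h⟩ := band_true h
  have hexE : Enc E (psub (phf (psub (pmul X1' B') (pmul X2' A'))) (phn 1)) ex := by
    refine enc_cast (enc_sub (enc_half (enc_sub (enc_mul hX1 hB) (enc_mul hX2 hA)))
      (enc_phn E 1)) ?_
    rw [hex]
    push_cast
    ring
  have hpx := enc_norm (enc_pxT m hX1 hA)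
  have hpy := enc_norm (enc_pyT m hX1 hA)
  have hh := enc_ph0 E
  have he1 := enc_mul hh (enc_sub (enc_one E) hx)
  have he3 : Enc E (pscale 167 50 (pmul ph0 (psub pone x'))) (e3R x) :=
    enc_cast (enc_scale 167 50 he1) (by unfold e3R; push_cast; ring)
  have he4 : Enc E (pscale 8 5 (pmul ph0 (psub pone x'))) (e4Y x) :=
    enc_cast (enc_scale 8 5 he1) (by unfold e4Y; push_cast; ring)
  have he5 : Enc E (pscale 5 2 (pmul ph0 (psub pone x'))) (e5R x) :=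
    enc_cast (enc_scale 5 2 he1) (by unfold e5R; push_cast; ring)
  have he6 : Enc E (pscale 11 5 (pmul ph0 (psub pone x'))) (e4R x) :=
    enc_cast (enc_scale 11 5 he1) (by unfold e4R; push_cast; ring)
  have hsR := D.sR.enc hx
  have hsQ := D.sQ.enc hx
  have hT := enc_norm (enc_t0T hh hpx hpy)
  have a1 := ppos_sound (enc_add (enc_one E) hexE) c1
  have a2 := pnn_sound (enc_sub hT he4) c2
  have a3 := pnn_sound (enc_sub (enc_sub (enc_one E) he4) hT) c3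
  obtain ⟨m1, m2⟩ := Hm.ge
  obtain ⟨n1, n2⟩ := Hn.ge
  obtain ⟨p4, p5⟩ := hD.e4
  obtain ⟨q5, q6, q7⟩ := hD.e5
  have htm := Hm.tg
  have htn := Hn.tg
  unfold TgY at htm htn
  set px := m.px x1 y1 with hpxd
  set py := m.py x1 y1 with hpyd
  obtain ⟨tKm, tLm⟩ := htm (by linarith) (by linarith)
  have hE1 := enc_inv (enc_add (enc_one E) hexE)
  have hn0x := enc_ixT n hpx hpy
  have hn0y := enc_iyT n hpx hpy
  obtain ⟨k1, k2⟩ := disp_strip (q := qqn X Y) (x0 := n.ix px py) (y0 := n.iy px py) hI Hm.len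
    Hn.len hex a1.ne' (by rw [eX, eY]) rfl rfl
  set N := Nst U (qqn X Y) with hNd
  have hN0 : 0 ≤ N := Nst_nonneg q1 q3
  set dx := Dx fam U y2 (n.iy px py) (1 + ex)⁻¹ with hdxd
  set dy := Dy fam U x2 (n.ix px py) (1 + ex)⁻¹ with hdyd
  have h5 : Enc E (pnorm (sg (cond (uT U) fam (!fam)) (pmul (pscale 3 64 (padd B'
      (iyT n (pnorm (pxT m X1' A')) (pnorm (pyT m X1' A'))))) (pinv (padd pone
      (psub (phf (psub (pmul X1' B') (pmul X2' A'))) (phn 1))))))) dx := by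
    refine enc_norm (enc_cast (enc_sg _ (enc_mul (enc_scale 3 64 (enc_add hB hn0y)) hE1)) ?_)
    rw [hdxd]
    unfold Dx
    rcases uT_iff U with ⟨e1, -, e3⟩ | ⟨e1, -, e3⟩ <;> rw [e1, e3] <;> cases fam <;>
      simp [sgr, eps]
  have h6 : Enc E (pnorm (sg (cond (uT U) (!fam) fam) (pmul (pscale 1 16 (padd X2'
      (ixT n (pnorm (pxT m X1' A')) (pnorm (pyT m X1' A'))))) (pinv (padd pone
      (psub (phf (psub (pmul X1' B') (pmul X2' A'))) (phn 1))))))) dy := by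
    refine enc_norm (enc_cast (enc_sg _ (enc_mul (enc_scale 1 16 (enc_add hX2 hn0x)) hE1)) ?_)
    rw [hdyd]
    unfold Dy
    rcases uT_iff U with ⟨e1, -, e3⟩ | ⟨e1, -, e3⟩ <;> rw [e1, e3] <;> cases fam <;>
      simp [sgr, eps]
  have hq := enc_qqT hX hY
  -- the second node
  have u1 : n.px x2 y2 = px + N * n.px dx dy := by
    conv_lhs => rw [k1, k2]
    rw [Ty.px_add, Ty.px_ix]
  have u2 : n.py x2 y2 = py + N * n.py dx dy := by
    conv_lhs => rw [k1, k2]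
    rw [Ty.py_add, Ty.py_iy]
  have v1 : U.px X Y = px + N * U.px dx dy := by
    have e1 : X = U.ix px py + N * dx := by
      rw [eX, inst_x hI, k1, hpxd, hpyd, Ty.ix_px]
      ring
    have e2 : Y = U.iy px py + N * dy := by
      rw [eY, inst_y hI, k2, hpxd, hpyd, Ty.iy_py]
      ring
    rw [e1, e2, Ty.px_add, Ty.px_ix]
  have v2 : U.py X Y = py + N * U.py dx dy := by
    have e1 : X = U.ix px py + N * dx := by
      rw [eX, inst_x hI, k1, hpxd, hpyd, Ty.ix_px]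
      ring
    have e2 : Y = U.iy px py + N * dy := by
      rw [eY, inst_y hI, k2, hpxd, hpyd, Ty.iy_py]
      ring
    rw [e1, e2, Ty.py_add, Ty.py_iy]
  have v3 : qqn X Y - U.nq = 3 / 16 * sN U * N := by
    rw [hNd]
    unfold Nst
    linear_combination (-(qqn X Y - U.nq)) * sN_sq U
  have w1 := enc_norm (enc_pxT n hX2 hB)
  have w2 := enc_norm (enc_pyT n hX2 hB)
  have w3 := enc_norm (enc_pxT n h5 h6)
  have w4 := enc_norm (enc_pyT n h5 h6)
  have hnt : Enc E (dj (jq (cond fam b c)) B') (y2 - jq (cond fam b c)) := enc_dj _ hB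
  have ht' : Enc E (dj (jq (cond fam c b)) Y') (Y - jq (cond fam c b)) := enc_dj _ hY
  have hTn := enc_norm (enc_t0T hh w1 w2)
  have a4 := pnn_sound (enc_sub hTn he4) c4
  have a5 := pnn_sound (enc_sub (enc_sub (enc_one E) he4) hTn) c5
  obtain ⟨dt, hdt, et⟩ := dtT_sound hh w1 hpx w3 w4 n2 n1 m2 m1 (N := N)
    (by rw [u1]; ring) (by rw [u2]; ring)
  have hdt' := enc_norm hdt
  obtain ⟨tKn, tLn⟩ := htn (by linarith) (by linarith)
  set Tn := t0R (n.px x2 y2) (n.py x2 y2) with hTnd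
  set T := t0R px py with hTd
  obtain ⟨dk, hdk, ek⟩ := kqY_sound hD.kr hD.kz q5 q6 hx hsR hsQ hh he5 he6 hTn hT hdt'
    (by linarith) (by linarith) (by linarith) (by linarith) et
  obtain ⟨en, hen, eln⟩ := lvY_sound hD hx he3 n hTn hT hdt' et
  have hrn := enc_norm (enc_mul hnt (enc_norm hdk))
  have eKn : Kn = (y2 - jq (cond fam b c)) * D.ka x T + N * ((y2 - jq (cond fam b c)) * dk) := by
    rw [tKn]
    unfold YDat.ka
    linear_combination (y2 - jq (cond fam b c)) * ek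
  have eLn : Ln = D.la.v x * (x2 + D.z n x T + N * en) := by
    rw [tLn]
    linear_combination D.la.v x * eln
  have hla := inst_la hI
  have hlb := inst_lb hI
  have hz : ∀ s, D.z U x s = D.z n x s + eps fam * D.z m x s := by
    intro s
    unfold YDat.z
    rw [hla, hlb]
    ring
  rcases thiY_sound hD hx hX hY hq hpx hpy hT h5 h6 hh he4 HU m2 m1 q1 v1 v2 v3 h with
    ⟨Tc', dT', K', L', tc, dtc, k, l, hTc, hdc, hK, hL, etc, t1, t2, eK, eL, h⟩ |
    ⟨r', l', r, l, hr, hl, eK, eL, h⟩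
  · -- anchor on the curve
    beta_reduce at h
    obtain ⟨z1, hz1, ez1⟩ := lvY_sound hD hx he3 n (N := N) hTn hTc
      (enc_norm (enc_sub hdt' hdc)) (by linear_combination et - etc)
    obtain ⟨z2, hz2, ez2⟩ := lvY_sound hD hx he3 m (N := N) hTc hT hdc etc
    have hlU := enc_norm (enc_sub (enc_thE (!fam) hz2 hz1) hL)
    obtain ⟨dk2, hdk2, ek2⟩ := kqY_sound hD.kr hD.kz q5 q6 hx hsR hsQ hh he5 he6 hTc hT hdc
      (by linarith) (by linarith) (by linarith) (by linarith) etc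
    refine ⟨_, _, _, _, _, _, _, T, en, _, hT, hq, hE1, he3, hen, hlU, a1, tKm, tLm, eLn, ?_, h,
      ?_⟩
    · rw [eL, hz, hz]
      cases fam
      · simp only [Bool.not_false, eps, cond_true, cond_false] at *
        linear_combination D.la.v x * (eln - ez1 - ez2)
      · simp only [Bool.not_true, eps, cond_true, cond_false] at *
        linear_combination D.la.v x * (eln - ez1 + ez2)
    · intro test ht
      beta_reduce at ht
      generalize Nat.shiftRight (Nat.land i 15) 2 = v at ht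
      match v, ht with
      | 0, ht =>
        refine ⟨_, (Y - jq (cond fam c b)) * dk2 + k, eKn, ?_, Cv.one ⟨_, _, hrn,
          enc_norm (enc_add (enc_mul ht' (enc_norm hdk2)) hK), ht⟩⟩
        rw [eK]
        unfold YDat.ka
        linear_combination (Y - jq (cond fam c b)) * ek2
      | v + 1, ht =>
        obtain ⟨Qn, Qc, g1, g2, g3⟩ := vmY_sound hD hx hsR hsQ hh he5 he6 hN0 hT hTn hTc hdt' hdc
          et etc (by linarith) (by linarith) (by linarith) (by linarith) (by linarith)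
          (by linarith) ht
        refine ⟨(y2 - jq (cond fam b c)) * Qn + 0, (Y - jq (cond fam c b)) * Qc + k, ?_, ?_,
          g3.map _ _ _ _ ?_⟩
        · rw [tKn]
          linear_combination (y2 - jq (cond fam b c)) * g1
        · rw [eK]
          linear_combination (Y - jq (cond fam c b)) * g2
        · rintro α β ⟨A, B, hA, hB, hf⟩
          exact ⟨_, _, enc_cast (enc_norm (enc_mul hnt (enc_norm hA))) (by ring),
            enc_norm (enc_add (enc_mul ht' (enc_norm hB)) hK), hf⟩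
  · -- the vertical direction
    beta_reduce at h
    have hlU := enc_norm (enc_sub hen hl)
    refine ⟨_, _, _, _, _, _, _, T, en, _, hT, hq, hE1, he3, hen, hlU, a1, tKm, tLm, eLn, ?_, h,
      ?_⟩
    · rw [eL]
      ring
    · intro test ht
      exact ⟨_, r, eKn, eK, Cv.one ⟨_, _, hrn, enc_norm hr, ht⟩⟩

end

end Pool.Agent.Strip051.PB
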