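import Pool.Agent.Strip051.PB.StripYS

/-! # Unit strips near `x = 1`, second form: the vertical direction, the vertices -/

namespace Pool.Agent.Strip051.PB

open Pool.Agent.StripNear Pool.Agent.StripSquare Pool.Agent.Strip051.Sweep
open Pool.Agent.Strip051.LC

attribute [local irreducible] padd psub pneg pmul psq pinv psqrt psqrtg pabs pps pmax pmin pphi plam
  pcase phf pnat prat pscale pnorm pdc pnc pone ppos pnn Enc

section

variable {E : Pt} {D : YDat} {S S2 : Sg} {V : VX} {x X Y KU LU px py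
  dx N : ℝ} {x' X' Y' T' px' py' dx' h' q' : ℕ}

theorem verY_sound {fin : ℕ → ℕ → Bool} (hD : D.Ok x) (hx : Enc E x' x) (hX : Enc E X' X)
    (hY : Enc E Y' Y)
    (hq : Enc E q' (qqn X Y)) (h3 : Enc E px' px) (h4 : Enc E py' py)
    (hT : Enc E T' (t0R px py)) (h5 : Enc E dx' dx) (hh : Enc E h' h0)
    (H : UHY D .u2 S S2 V 2 x X Y KU LU) (hp : qqn px py = 1) (hp1 : 1 ≤ py)
    (k1 : 1 ≤ qqn X Y) (g1 : X = px + N * dx) (g3 : qqn X Y - 1 = 3 / 16 * N)
    (h : verY S S2 V q' X' Y' px' py' T' dx' h' x' fin = true) :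
    ∃ r' l' r l, Enc E r' r ∧ Enc E l' l ∧ KU = (Y - jq 2) * D.ka x (t0R px py) + N * r ∧
      LU = D.la.v x * (X + D.z .u2 x (t0R px py) + N * l) ∧ fin r' l' = true := by
  unfold verY at h
  simp only [frc_eq] at h
  obtain ⟨c2, h⟩ := band_true h
  obtain ⟨c3, h⟩ := band_true h
  obtain ⟨c4, h⟩ := band_true h
  obtain ⟨c5, h⟩ := band_true h
  obtain ⟨c6, h⟩ := band_true h
  have haX := enc_abs hX
  have hap := enc_abs h3
  have hf := S.f.enc hY
  have hc : Enc E (cuT .u2 Y') (c1n Y) := by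
    have := enc_cuT .u2 hY
    have e : cuR .u2 Y = c1n Y := by unfold cuR c1n; simp only [Ty.nq]
    rwa [e] at this
  have a2 := pnn_sound (enc_sub hY (V.ya.enc E)) c2
  have a3 := pnn_sound (enc_sub (V.yk.enc E) hY) c3
  have a4 := ppos_sound (enc_sub hf hc) c4
  have a5 := pnn_sound (enc_sub hT (V.k5.enc E)) c5
  have a6 := pnn_sound (enc_sub (enc_sub (enc_one E) (V.k5.enc E)) hT) c6
  have hY1 : 1 ≤ Y := H.iny.1
  have k5 := H.k5 rfl
  obtain ⟨b0, b1⟩ := H.yb rfl
  obtain ⟨p7, p8, -⟩ := hD.e5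
  have hN : 0 ≤ N := by linarith
  have hκ : D.ka x (t0R px py) = 0 := kaY_zero hD.kz p7 p8 (by linarith) (by linarith)
  obtain ⟨p0, -, -⟩ := unit_cT hp hp1
  -- the sign
  obtain ⟨b, hb⟩ : ∃ b, 0 ≤ sgr b X := by
    rcases le_total 0 X with h0 | h0
    · exact ⟨true, h0⟩
    · exact ⟨false, show 0 ≤ -X by linarith⟩
  have hs : sgr b X = |X| := by rw [← abs_sgr b X, abs_of_nonneg hb]
  have hcX := c1n_le k1
  have hc0 := c1n_nn Y
  have hc12 : c1n Y ≤ 1 / 2 := by
    unfold c1n
    rw [Real.sqrt_le_left (by norm_num)]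
    nlinarith
  have hlam := lam_sq k1
  set w := lamR (X ^ 2) (qqn X Y - 1) with hwd
  obtain ⟨w0, w1⟩ := lamR_mem (X ^ 2) (qqn X Y - 1)
  rw [← hwd] at w0 w1
  -- mean
  have hss := enc_cast (enc_add haX hap) (show |X| + |px| = sgr b X + |sgr b px| by
    rw [abs_sgr, hs])
  obtain ⟨M, hM, eM⟩ := enc_M (b := b) rfl rfl hb hX h3 hss
  have hP : sgr b X - sgr b px = N * sgr b dx := by
    rw [← sgr_subX, g1, ← sgu_mul]
    congr 1
    ring
  have hw2 : w * (qqn X Y - 1) = sgr b X ^ 2 - c1n Y ^ 2 := by rw [sgu_sq]; exact hlam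
  have hs2 : sgr b X ≤ 2 * S.f.v Y - c1n Y := by
    rw [hs]
    rcases bsel_true h with ⟨-, h⟩ | ⟨c1, h⟩
    · obtain ⟨-, h⟩ := band_true h
      obtain ⟨d2, -⟩ := band_true h
      have := pnn_sound (enc_sub (enc_sub (enc_add hf hf) hc) haX) d2
      linarith
    · have := pnn_sound (enc_sub hf haX) c1
      linarith
  obtain ⟨u, e, u0, u1, he, hmain⟩ := ver_mainY (m1 := V.m1.v x) (m2 := V.m2.v x) (f := S.f.v Y) hb
    hc0 (by rw [hs]; exact hcX) hs2 (by linarith) hN g3 hw2 hP eM hc12
    (by rwa [abs_sgr])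
  have hW := enc_WY (b := b) (w := w) hb w0 w1
    (enc_cast (enc_scale 3 16 (enc_lam (enc_sq hX) (enc_sub hq (enc_one E))))
      (show _ = 3 / 16 * w by push_cast; rfl)) hX (fun h0 => by
        rw [hwd, h0]
        unfold lamR
        simp)
  set ω := sgr b (3 / 16 * w) with hω
  have hd1 := enc_norm (enc_sub (enc_mul h5 hM) hW)
  -- the error
  have he' : |sgr b e| ≤ c1n Y * (|V.m1.v x| / 12 + 5 / 8 * |V.m2.v x|) * |dx * M - ω| := by
    rw [abs_sgr]
    refine he.trans (le_of_eq ?_)
    congr 1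
    rw [← abs_sgr b (dx * M - ω), sgr_subX, sgr_mulr, hω, sgu_sgr]
  obtain ⟨v, v0, v1, hv⟩ := ex_sgn he'
  have hu := enc_u01 E u0 u1
  have hvE := enc_u01 E v0 v1
  have hrc := enc_rcT' hh h4
  have er := rcR_eq hp hp1
  have hm1 := V.m1.enc hx
  have hm2 := V.m2.enc hx
  have hG := enc_norm (enc_sub (enc_mul hm2 (enc_sq (enc_add hh (enc_mul hap hrc))))
    (enc_mul hm1 hrc))
  have hyp := enc_max hY (V.yb.enc E)
  have hZ := enc_mul (enc_mul (V.s.enc hx) (enc_half (enc_half hX)))
    (enc_mul (enc_lam (enc_t34 (enc_sub (enc_sq hyp) (enc_sq (V.yb.enc E))))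
      (enc_sub hq (enc_one E))) (enc_inv (enc_add hyp (V.yb.enc E))))
  have htop := ver_top b0 b1 hY1 g3 k1
  have hER := enc_mul (enc_sub (enc_add hvE hvE) (enc_one E)) (enc_mul (enc_mul hc
    (enc_add (enc_scale 1 12 (enc_abs hm1)) (enc_scale 5 8 (enc_abs hm2)))) (enc_abs hd1))
  have hl00 := enc_add (enc_sub (enc_mul hG (enc_sub hd1 (enc_mul
    (enc_mul hW hu) (enc_mul (enc_half hc) (enc_inv (enc_sub hf hc)))))) (enc_mul (enc_mul hh hm1)
    h5)) (enc_add hER hZ)
  obtain ⟨l0, hl0, hlev⟩ : ∃ l0, Enc E _ l0 ∧ vlR V x X Y (c1n Y) (S.f.v Y) b =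
      X + D.z .u2 x (t0R px py) + N * l0 := by
    refine ⟨_, hl00, ?_⟩
    have hmid := H.mid rfl (1 / 2 - t0R px py) (by rw [abs_le]; constructor <;> linarith)
    have e1 : 1 / 2 - (1 / 2 - t0R px py) = t0R px py := by ring
    have e2 : 1 / 2 - t0R px py = px * (h0 + |px| * rcR py) := by unfold t0R; ring
    have hpos : 0 ≤ h0 + |px| * rcR py := by
      have := h0_pos
      have h8 := (dir_b hp hp1).1
      have : 0 ≤ rcR py := by
        unfold rcR
        have : 0 < 1 + h0 * py := by linarith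
        positivity
      positivity
    have e3 : (1 / 2 - t0R px py) * |1 / 2 - t0R px py| = px * |px| * (h0 + |px| * rcR py) ^ 2 := by
      rw [e2, abs_mul, abs_of_nonneg hpos]
      ring
    rw [e1, e3] at hmid
    rw [hmid, e2]
    unfold vlR
    have e4 : sgr b (c1n Y ^ 2 * GR (V.m1.v x) (V.m2.v x) (c1n Y) *
        ((S.f.v Y - sgr b X) / (S.f.v Y - c1n Y))) =
        px * |px| * GR (V.m1.v x) (V.m2.v x) |px| + N * (GR (V.m1.v x) (V.m2.v x) |px| *
          (dx * M - ω - ω * u * (c1n Y / 2 * (S.f.v Y - c1n Y)⁻¹)) + sgr b e) := by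
      have e5 := congrArg (sgr b) hmain
      rw [sgr_subX, sgr_mul_abs, sgr_mulr b (sgr b (px * |px|)), sgu_sgr, abs_sgr,
        sgu_mul b N, sgr_addX] at e5
      have e6 : sgr b (GR (V.m1.v x) (V.m2.v x) |px| * (sgr b dx * M - 3 / 16 * w -
          3 / 16 * w * u * (c1n Y / 2 * (S.f.v Y - c1n Y)⁻¹))) =
          GR (V.m1.v x) (V.m2.v x) |px| *
          (dx * M - ω - ω * u * (c1n Y / 2 * (S.f.v Y - c1n Y)⁻¹)) := by
        rw [hω]
        cases b
        · show -(_ * (-dx * M - _ - _)) = _ * (dx * M - -_ - -_ * _ * _)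
          ring
        · rfl
      rw [e6] at e5
      linear_combination e5
    rw [e4, hv, htop, er]
    unfold GR lamR
    push_cast
    linear_combination (-h0 * V.m1.v x) * g1
  clear hl00
  -- the part beyond the curve
  rcases bsel_true h with ⟨-, h⟩ | ⟨c1, h⟩
  · obtain ⟨d1, h⟩ := band_true h
    obtain ⟨d2, h⟩ := band_true h
    obtain ⟨d3, h⟩ := band_true h
    have hf2 := S2.f.enc hY
    have b1' := pnn_sound (enc_sub hf2 haX) d1
    have b2' := pnn_sound (enc_sub (enc_sub (enc_add hf hf) hc) haX) d2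
    have b3' := ppos_sound (enc_sub hq (enc_one E)) d3
    have hg : Enc E (pscale 3 16 (pmul (pps (psub (pabs X') (S.f.t Y'))) (pinv
        (psub q' pone)))) (3 / 16 * (max (|X| - S.f.v Y) 0 * (qqn X Y - 1)⁻¹)) :=
      enc_cast (enc_scale 3 16 (enc_mul (enc_pos (enc_sub haX hf))
        (enc_inv (enc_sub hq (enc_one E))))) (by push_cast; ring)
    set g := 3 / 16 * (max (|X| - S.f.v Y) 0 * (qqn X Y - 1)⁻¹) with hgd
    have hNg : N * g = max (|X| - S.f.v Y) 0 := by
      have hi := inv_mul_cancel₀ b3'.ne'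
      rw [hgd]
      linear_combination max (|X| - S.f.v Y) 0 * hi -
        max (|X| - S.f.v Y) 0 * (qqn X Y - 1)⁻¹ * g3
    have hgK := enc_mul hg (S2.SK.enc hY hx)
    have hgX := enc_mul hg (enc_norm (enc_sub (S2.SX.enc hY hx) (S.SX.enc hY hx)))
    -- the facts
    have fact : KU = sgr b (N * g * S2.SK.v Y x) ∧
        LU = D.la.v x * ((X + D.z .u2 x (t0R px py) + N * l0) +
          sgr b (N * g * (S2.SX.v Y x - S.SX.v Y x))) := by
      rw [hNg]
      rcases le_total (sgr b X) (S.f.v Y) with h0 | h0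
      · have e0 : max (|X| - S.f.v Y) 0 = 0 := max_eq_right (by rw [← hs]; linarith)
        obtain ⟨e1, e2⟩ := H.ver rfl b hb h0 (by linarith) (by linarith) (by linarith)
        rw [e0, e1, e2, hlev]
        constructor
        · cases b <;> simp [sgr]
        · have : sgr b (0 * (S2.SX.v Y x - S.SX.v Y x)) = 0 := by cases b <;> simp [sgr]
          rw [this]
          ring
      · have e0 : max (|X| - S.f.v Y) 0 = sgr b X - S.f.v Y := by
          rw [← hs]
          exact max_eq_left (by linarith)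
        rw [e0, ← hlev]
        exact H.ver2 rfl b hb h0 (by rw [hs]; linarith) (by linarith) (by linarith) (by linarith)
    obtain ⟨fK, fL⟩ := fact
    rcases bsel_true h with ⟨-, h⟩ | ⟨c1, h⟩
    · obtain ⟨d4, h⟩ := band_true h
      have b4 := pnn_sound (enc_neg hX) d4
      -- negative abscissa
      rcases eq_or_lt_of_le b4 with h0 | h0
      · -- zero abscissa
        have hX0 : X = 0 := by linarith
        have e0 : g = 0 := by
          have h9 : c1n Y = 0 := le_antisymm (by rw [hX0, abs_zero] at hcX; exact hcX) hc0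
          have : max (|X| - S.f.v Y) 0 = 0 := by
            rw [hX0, abs_zero]
            exact max_eq_right (by linarith)
          rw [hgd, this]
          ring
        rw [e0] at hgK hgX fK fL
        refine ⟨_, _, _, _, enc_neg hgK, enc_sub hl0 hgX, ?_, ?_, h⟩
        · rw [fK, hκ]
          cases b <;> simp [sgr]
        · rw [fL]
          have : sgr b (N * 0 * (S2.SX.v Y x - S.SX.v Y x)) = 0 := by cases b <;> simp [sgr]
          rw [this]
          ring
      · have hbf : b = false := by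
          cases b
          · rfl
          · have : 0 ≤ X := hb
            linarith
        subst hbf
        refine ⟨_, _, _, _, enc_neg hgK, enc_sub hl0 hgX, ?_, ?_, h⟩
        · rw [fK, hκ]
          show -(N * g * S2.SK.v Y x) = _
          ring
        · rw [fL]
          show D.la.v x * (_ + -(N * g * (S2.SX.v Y x - S.SX.v Y x))) = _
          ring
    · have b4 := pnn_sound hX c1
      rcases eq_or_lt_of_le b4 with h0 | h0
      · have hX0 : X = 0 := h0.symm
        have e0 : g = 0 := by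
          have : max (|X| - S.f.v Y) 0 = 0 := by
            rw [hX0, abs_zero]
            exact max_eq_right (by linarith)
          rw [hgd, this]
          ring
        rw [e0] at hgK hgX fK fL
        refine ⟨_, _, _, _, hgK, enc_add hl0 hgX, ?_, ?_, h⟩
        · rw [fK, hκ]
          cases b <;> simp [sgr]
        · rw [fL]
          have : sgr b (N * 0 * (S2.SX.v Y x - S.SX.v Y x)) = 0 := by cases b <;> simp [sgr]
          rw [this]
          ring
      · have hbf : b = true := by
          cases b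
          · have : 0 ≤ -X := hb
            linarith
          · rfl
        subst hbf
        refine ⟨_, _, _, _, hgK, enc_add hl0 hgX, ?_, ?_, h⟩
        · rw [fK, hκ]
          show N * g * S2.SK.v Y x = _
          ring
        · rw [fL]
          show D.la.v x * (_ + N * g * (S2.SX.v Y x - S.SX.v Y x)) = _
          ring
  · have a1 := pnn_sound (enc_sub hf haX) c1
    obtain ⟨e1, e2⟩ := H.ver rfl b hb (by rw [hs]; linarith) (by linarith) (by linarith)
      (by linarith)
    refine ⟨_, _, _, _, enc_dc00 E, hl0, ?_, ?_, h⟩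
    · rw [e1, hκ]
      ring
    · rw [e2, hlev]

end

end Pool.Agent.Strip051.PB
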