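import Pool.Agent.Strip051.PB.StripYE

/-! # Unit strips near `x = 1`, second form: the alternatives of the rows -/

namespace Pool.Agent.Strip051.PB

open Pool.Agent.StripNear Pool.Agent.StripSquare Pool.Agent.Strip051.Sweep
open Pool.Agent.Strip051.LC

attribute [local irreducible] padd psub pneg pmul psq pinv psqrt psqrtg pabs pps pmax pmin pphi plam
  pcase phf pnat prat pscale pnorm pdc pnc pone ppos pnn Enc

/-- the test at the far vertex with the nodes -/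
noncomputable def strYF (D : YDat) (fam s1 s2 : Bool) (m n U : Ty) (cn : Con) (a b c : ℕ)
    (S S2 : Sg) (V : VX) (n1 n2 : NodeX) (i P Q x : ℕ) : Bool :=
  (fun A B X1 X2 => frc (pnorm (th fam X1 X2)) fun X => frc (pnorm (th fam A B)) fun Y =>
    stpY D fam m n U b c S S2 V i x A B X1 X2 X Y
      (fiF D fam m n U cn a b c (Nat.shiftRight i 4) x A (sl fam B Y) (sl fam Y B)))
  (n1.Y.t P) (n2.Y.t Q) (sg s1 (n1.X.t P x)) (sg s2 (n2.X.t Q x))

/-- the test at the near vertex with the nodes -/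
noncomputable def strYN (D : YDat) (N0 : ℕ) (fam s1 s2 : Bool) (m n U : Ty) (cn : Con)
    (a b c : ℕ) (S S2 : Sg) (V : VX) (n1 n2 : NodeX) (i P Q x : ℕ) : Bool :=
  (fun A B X1 X2 => frc (pnorm (th fam X1 X2)) fun X => frc (pnorm (th fam A B)) fun Y =>
    stpY D fam m n U b c S S2 V i x A B X1 X2 X Y
      (fiN D N0 fam m n U cn a b c (Nat.shiftRight i 4) x A (sl fam B Y) (sl fam Y B)))
  (n1.Y.t P) (n2.Y.t Q) (sg s1 (n1.X.t P x)) (sg s2 (n2.X.t Q x))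

/-- The statement of a strip test at a point, far vertex. -/
def StrPY (D : YDat) (fam s1 s2 : Bool) (m u U : Ty) (cn : Con) (a b c : ℕ) (S S2 : Sg) (V : VX)
    (n1 n2 : NodeX) (p q x : ℝ) : Prop :=
  ∀ Km Lm Kn Ln KU LU X Y, D.Ok x → 0 ≤ D.kh.v x →
    X = sgr s2 (n2.X.v q x) + eps fam * sgr s1 (n1.X.v p x) →
    Y = n2.Y.v q + eps fam * n1.Y.v p →
    NHY D m a x (sgr s1 (n1.X.v p x)) (n1.Y.v p) Km Lm →
    NHY D u (cond fam b c) x (sgr s2 (n2.X.v q x)) (n2.Y.v q) Kn Ln →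
    UHY D U S S2 V (cond fam c b) x X Y KU LU → 1 ≤ qqn X Y → qqn X Y ≤ 3 →
    ∃ γ, 0 ≤ slc cn (levF ((sgr s1 (n1.X.v p x) * n2.Y.v q - sgr s2 (n2.X.v q x) * n1.Y.v p) / 2 -
        1 / 2) Lm (cond fam Ln LU) (cond fam LU Ln)) (D.kh.v x) x (n1.Y.v p - jq a)
      (cond fam (n2.Y.v q) Y - jq b) (n1.Y.v p + cond fam (n2.Y.v q) Y - jq c) Km
      (cond fam Kn KU) (cond fam KU Kn) γ

/-- The statement of a strip test at a point, near vertex. -/
def StrPYN (D : YDat) (N0 : ℕ) (fam s1 s2 : Bool) (m u U : Ty) (cn : Con) (a b c : ℕ) (S S2 : Sg)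
    (V : VX) (n1 n2 : NodeX) (p q x : ℝ) : Prop :=
  ∀ Km Lm Kn Ln KU LU X Y, D.Ok x → 0 ≤ D.kh.v x →
    X = sgr s2 (n2.X.v q x) + eps fam * sgr s1 (n1.X.v p x) →
    Y = n2.Y.v q + eps fam * n1.Y.v p →
    NHY D m a x (sgr s1 (n1.X.v p x)) (n1.Y.v p) Km Lm →
    NHY D u (cond fam b c) x (sgr s2 (n2.X.v q x)) (n2.Y.v q) Kn Ln →
    UHY D U S S2 V (cond fam c b) x X Y KU LU → 1 ≤ qqn X Y → qqn X Y ≤ 3 →
    ∃ γ, 0 ≤ slc cn (levN N0 0 x (n1.Y.v p) (cond fam (n2.Y.v q) Y)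
        ((sgr s1 (n1.X.v p x) * n2.Y.v q - sgr s2 (n2.X.v q x) * n1.Y.v p) / 2 -
        1 / 2) Lm (cond fam Ln LU) (cond fam LU Ln)) (D.kh.v x) x (n1.Y.v p - jq a)
      (cond fam (n2.Y.v q) Y - jq b) (n1.Y.v p + cond fam (n2.Y.v q) Y - jq c) Km
      (cond fam Kn KU) (cond fam KU Kn) γ

theorem strYF_sound {E : Pt} {D : YDat} {fam s1 s2 : Bool} {m u U : Ty} {cn : Con} {a b c : ℕ}
    {S S2 : Sg} {V : VX} {n1 n2 : NodeX} (hI : okI fam m u U = true) (hc : con a b c = some cn)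
    {i A B C : ℕ} {p q x : ℝ} (hp : Enc E A p) (hq : Enc E B q) (hx : Enc E C x)
    (h : strYF D fam s1 s2 m u U cn a b c S S2 V n1 n2 i A B C = true) :
    StrPY D fam s1 s2 m u U cn a b c S S2 V n1 n2 p q x := by
  intro Km Lm Kn Ln KU LU X Y hD hk eX eY Hm Hn HU q1 q3
  unfold strYF at h
  simp only [frc_eq] at h
  have y1 := n1.Y.enc hp
  have y2 := n2.Y.enc hq
  have x1 := enc_sg s1 (n1.X.enc hp hx)
  have x2 := enc_sg s2 (n2.X.enc hq hx)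
  exact stpF_sound hD hk hI hc hx y1 y2 x1 x2 (enc_norm (enc_cast (enc_thE fam x1 x2) eX.symm))
    (enc_norm (enc_cast (enc_thE fam y1 y2) eY.symm)) eX eY rfl Hm Hn HU q1 q3 h

theorem strYN_sound {E : Pt} {D : YDat} {N0 : ℕ} {fam s1 s2 : Bool} {m u U : Ty} {cn : Con}
    {a b c : ℕ} {S S2 : Sg} {V : VX} {n1 n2 : NodeX} (hI : okI fam m u U = true)
    (hc : con a b c = some cn)
    {i A B C : ℕ} {p q x : ℝ} (hp : Enc E A p) (hq : Enc E B q) (hx : Enc E C x)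
    (h : strYN D N0 fam s1 s2 m u U cn a b c S S2 V n1 n2 i A B C = true) :
    StrPYN D N0 fam s1 s2 m u U cn a b c S S2 V n1 n2 p q x := by
  intro Km Lm Kn Ln KU LU X Y hD hk eX eY Hm Hn HU q1 q3
  unfold strYN at h
  simp only [frc_eq] at h
  have y1 := n1.Y.enc hp
  have y2 := n2.Y.enc hq
  have x1 := enc_sg s1 (n1.X.enc hp hx)
  have x2 := enc_sg s2 (n2.X.enc hq hx)
  exact stpN_sound hD hk hI hc hx y1 y2 x1 x2 (enc_norm (enc_cast (enc_thE fam x1 x2) eX.symm))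
    (enc_norm (enc_cast (enc_thE fam y1 y2) eY.symm)) eX eY rfl Hm Hn HU q1 q3 h

/-- **Strip tests**, far vertex, as a further alternative. -/
noncomputable def strExtY (D : YDat) (fam s1 s2 : Bool) (m u U : Ty) (cn : Con) (a b c : ℕ)
    (hI : okI fam m u U = true) (hc : con a b c = some cn) (S S2 : Sg) (V : VX)
    (n1 n2 : NodeX) : Ext where
  t i p q x := strYF D fam s1 s2 m u U cn a b c S S2 V n1 n2 i p q x
  P p q x := StrPY D fam s1 s2 m u U cn a b c S S2 V n1 n2 p q x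
  snd hp hq hx h := strYF_sound hI hc hp hq hx h

/-- **Strip tests**, near vertex, as a further alternative. -/
noncomputable def strExtYN (D : YDat) (N0 : ℕ) (fam s1 s2 : Bool) (m u U : Ty) (cn : Con)
    (a b c : ℕ) (hI : okI fam m u U = true) (hc : con a b c = some cn) (S S2 : Sg) (V : VX)
    (n1 n2 : NodeX) : Ext where
  t i p q x := strYN D N0 fam s1 s2 m u U cn a b c S S2 V n1 n2 i p q x
  P p q x := StrPYN D N0 fam s1 s2 m u U cn a b c S S2 V n1 n2 p q x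
  snd hp hq hx h := strYN_sound hI hc hp hq hx h

section

variable {n : ℕ} {T : STabY n} {D : PV n} {RK RL : Fin (n + 1) → ℕ → ℝ → ℝ → ℝ} {pc : ℕ → Piece}
  {x κ : ℝ} {a b c : ℕ} {cn : Con} {s1 s2 : Bool} {m u U : Ty} {n1 n2 : NodeX}
  {j k : Fin (n + 1)}

theorem STabY.Ok.node {P : Pos n} (h : T.Ok P RK RL x) {q : ℕ} {y : ℝ} {s : Bool} {t : Ty}
    (ht : NTy n j q s t) (hy : OnC j q y) :
    NHY T.D t q x (sgb s * crv P j q y) y (sgb s * RK j q y x) (sgb s * RL j q y x) := by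
  cases ht with
  | O =>
    rw [crv_O]
    exact (h.nh0 hy).sg h.ok s
  | N =>
    rw [crv_N]
    exact (h.nhn hy.1).sg h.ok s

theorem STabY.Ok.kh0 {P : Pos n} (h : T.Ok P RK RL x) (hκ : κ * h0 = kenE x) (κ0 : 0 ≤ κ) :
    0 ≤ T.D.kh.v x := by
  rw [h.kh, ← hκ]
  exact mul_nonneg κ0 h0_pos.le

/-- **Strips, family `A`, far vertex.** -/
theorem STabY.Ok.extA (h : T.Ok D.P RK RL x) (hs : SideV D RK RL pc x) (hκ : κ * h0 = kenE x)
    (κ0 : 0 ≤ κ) (hc : con a b c = some cn) (hI : okI true m u U = true) (hm : NTy n j a s1 m)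
    (hu : NTy n k b s2 u) (hU : U.inq c) :
    ExtVA (VFD κ) D RK RL pc (strExtY T.D true s1 s2 m u U cn a b c hI hc (T.S U c) T.S2 T.V
      n1 n2) n1 n2 a b c j k (sgb s1) (sgb s2) x := by
  intro y y' p p' F _ _ A1 A2 hP
  have e1 : sgr s1 (n1.X.v p x) = sgb s1 * crv D.P j a y := by rw [A1.X, sgr_eq]
  have e2 : sgr s2 (n2.X.v p' x) = sgb s2 * crv D.P k b y' := by rw [A2.X, sgr_eq]
  have H1 := h.node hm F.on1
  have H2 := h.node hu F.on2
  have H3 := h.uh hs.pinK.pins hs.pinL.pins hs.thK hs.thL hU F.q3 F.len1 F.len3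
  obtain ⟨γ, hγ⟩ := hP (sgb s1 * RK j a y x) (sgb s1 * RL j a y x) (sgb s2 * RK k b y' x)
    (sgb s2 * RL k b y' x) _ _ (sgb s1 * crv D.P j a y + sgb s2 * crv D.P k b y') (y + y') h.ok
    (h.kh0 hκ κ0)
    (by rw [e1, e2]; simp only [eps, cond_true]; ring) (by rw [A1.Y, A2.Y]; simp only [eps, cond_true]; ring)
    (by rw [e1, A1.Y]; exact H1) (by rw [e2, A2.Y]; exact H2) H3 F.len1 F.len3
  have x0 : 0 ≤ x := by linarith [h.ok.x0]
  refine VF.dir (F.ngv hc ⟨γ, ?_⟩) κ0 x0 h.ok.x1 F.y0 F.y0' F.y2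
  rw [hκ]
  rw [e1, e2, A1.Y, A2.Y, h.kh] at hγ
  simp only [cond_true] at hγ
  unfold slt lvF exA vlA exn'
  have e3 : (sgb s1 * crv D.P j a y * (y + y') -
      (sgb s1 * crv D.P j a y + sgb s2 * crv D.P k b y') * y) / 2
      - 1 / 2 = (sgb s1 * crv D.P j a y * y' - sgb s2 * crv D.P k b y' * y) / 2 - 1 / 2 := by ring
  rw [e3]
  exact hγ

/-- **Strips, family `B`, far vertex.** -/
theorem STabY.Ok.extB (h : T.Ok D.P RK RL x) (hs : SideV D RK RL pc x) (hκ : κ * h0 = kenE x)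
    (κ0 : 0 ≤ κ) (hc : con a b c = some cn) (hI : okI false m u U = true) (hm : NTy n j a s1 m)
    (hu : NTy n k c s2 u) (hU : U.inq b) :
    ExtVB (VFD κ) D RK RL pc (strExtY T.D false s1 s2 m u U cn a b c hI hc (T.S U b) T.S2 T.V
      n1 n2) n1 n2 a b c j k (sgb s1) (sgb s2) x := by
  intro y y' p p' F _ _ A1 A2 hP
  have e1 : sgr s1 (n1.X.v p x) = sgb s1 * crv D.P j a y := by rw [A1.X, sgr_eq]
  have e2 : sgr s2 (n2.X.v p' x) = sgb s2 * crv D.P k c (y + y') := by rw [A2.X, sgr_eq]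
  have H1 := h.node hm F.on1
  have H2 := h.node hu F.on3
  have H3 := h.uh hs.pinK.pins hs.pinL.pins hs.thK hs.thL hU F.q2 F.len1 F.len3
  obtain ⟨γ, hγ⟩ := hP (sgb s1 * RK j a y x) (sgb s1 * RL j a y x) (sgb s2 * RK k c (y + y') x)
    (sgb s2 * RL k c (y + y') x) _ _ (sgb s2 * crv D.P k c (y + y') - sgb s1 * crv D.P j a y) y'
    h.ok (h.kh0 hκ κ0)
    (by rw [e1, e2]; simp only [eps, cond_false]; ring) (by rw [A1.Y, A2.Y]; simp only [eps, cond_false]; ring)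
    (by rw [e1, A1.Y]; exact H1) (by rw [e2, A2.Y]; exact H2) H3 F.len1 F.len3
  have x0 : 0 ≤ x := by linarith [h.ok.x0]
  refine VF.dir (F.ngv hc ⟨γ, ?_⟩) κ0 x0 h.ok.x1 F.y0 F.y0' F.y2
  rw [hκ]
  rw [e1, e2, A1.Y, A2.Y, h.kh] at hγ
  simp only [cond_false] at hγ
  unfold slt lvF exB vlB exn'
  exact hγ

/-- **Strips, family `A`, near vertex.** -/
theorem STabY.Ok.extAN {N0 : ℕ} (h : T.Ok D.P RK RL x) (hs : SideV D RK RL pc x)
    (hκ : κ * h0 = kenE x)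
    (κ0 : 0 ≤ κ) (hc : con a b c = some cn) (hI : okI true m u U = true) (hm : NTy n j a s1 m)
    (hu : NTy n k b s2 u) (hU : U.inq c) :
    ExtVA (VND N0 κ) D RK RL pc (strExtYN T.D N0 true s1 s2 m u U cn a b c hI hc (T.S U c) T.S2
      T.V n1 n2) n1 n2 a b c j k (sgb s1) (sgb s2) x := by
  intro y y' p p' F _ _ A1 A2 hP
  have e1 : sgr s1 (n1.X.v p x) = sgb s1 * crv D.P j a y := by rw [A1.X, sgr_eq]
  have e2 : sgr s2 (n2.X.v p' x) = sgb s2 * crv D.P k b y' := by rw [A2.X, sgr_eq]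
  have H1 := h.node hm F.on1
  have H2 := h.node hu F.on2
  have H3 := h.uh hs.pinK.pins hs.pinL.pins hs.thK hs.thL hU F.q3 F.len1 F.len3
  obtain ⟨γ, hγ⟩ := hP (sgb s1 * RK j a y x) (sgb s1 * RL j a y x) (sgb s2 * RK k b y' x)
    (sgb s2 * RL k b y' x) _ _ (sgb s1 * crv D.P j a y + sgb s2 * crv D.P k b y') (y + y') h.ok
    (h.kh0 hκ κ0)
    (by rw [e1, e2]; simp only [eps, cond_true]; ring) (by rw [A1.Y, A2.Y]; simp only [eps, cond_true]; ring)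
    (by rw [e1, A1.Y]; exact H1) (by rw [e2, A2.Y]; exact H2) H3 F.len1 F.len3
  have x0 : 0 ≤ x := by linarith [h.ok.x0]
  refine VN.dir (F.ngv hc ⟨γ, ?_⟩) κ0 x0 h.ok.x1 F.y0 F.y0' F.y2
  rw [hκ]
  rw [e1, e2, A1.Y, A2.Y, h.kh] at hγ
  simp only [cond_true] at hγ
  unfold slt lvN exA vlA exn'
  have e3 : (sgb s1 * crv D.P j a y * (y + y') -
      (sgb s1 * crv D.P j a y + sgb s2 * crv D.P k b y') * y) / 2
      - 1 / 2 = (sgb s1 * crv D.P j a y * y' - sgb s2 * crv D.P k b y' * y) / 2 - 1 / 2 := by ring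
  rw [e3]
  exact hγ

/-- **Strips, family `B`, near vertex.** -/
theorem STabY.Ok.extBN {N0 : ℕ} (h : T.Ok D.P RK RL x) (hs : SideV D RK RL pc x)
    (hκ : κ * h0 = kenE x)
    (κ0 : 0 ≤ κ) (hc : con a b c = some cn) (hI : okI false m u U = true) (hm : NTy n j a s1 m)
    (hu : NTy n k c s2 u) (hU : U.inq b) :
    ExtVB (VND N0 κ) D RK RL pc (strExtYN T.D N0 false s1 s2 m u U cn a b c hI hc (T.S U b) T.S2
      T.V n1 n2) n1 n2 a b c j k (sgb s1) (sgb s2) x := by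
  intro y y' p p' F _ _ A1 A2 hP
  have e1 : sgr s1 (n1.X.v p x) = sgb s1 * crv D.P j a y := by rw [A1.X, sgr_eq]
  have e2 : sgr s2 (n2.X.v p' x) = sgb s2 * crv D.P k c (y + y') := by rw [A2.X, sgr_eq]
  have H1 := h.node hm F.on1
  have H2 := h.node hu F.on3
  have H3 := h.uh hs.pinK.pins hs.pinL.pins hs.thK hs.thL hU F.q2 F.len1 F.len3
  obtain ⟨γ, hγ⟩ := hP (sgb s1 * RK j a y x) (sgb s1 * RL j a y x) (sgb s2 * RK k c (y + y') x)
    (sgb s2 * RL k c (y + y') x) _ _ (sgb s2 * crv D.P k c (y + y') - sgb s1 * crv D.P j a y) y'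
    h.ok (h.kh0 hκ κ0)
    (by rw [e1, e2]; simp only [eps, cond_false]; ring) (by rw [A1.Y, A2.Y]; simp only [eps, cond_false]; ring)
    (by rw [e1, A1.Y]; exact H1) (by rw [e2, A2.Y]; exact H2) H3 F.len1 F.len3
  have x0 : 0 ≤ x := by linarith [h.ok.x0]
  refine VN.dir (F.ngv hc ⟨γ, ?_⟩) κ0 x0 h.ok.x1 F.y0 F.y0' F.y2
  rw [hκ]
  rw [e1, e2, A1.Y, A2.Y, h.kh] at hγ
  simp only [cond_false] at hγ
  unfold slt lvN exB vlB exn'
  exact hγ

/-! ### Alternatives from certificates, near vertex -/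

variable {P1 W1 P2 W2 P3 W3 : ℕ} {xt : Ext} {L : List (List Cc)} {d N0 : ℕ}

/-- **A strip as an alternative**, family `A`, near vertex. -/
theorem strip_altVAN (w : Bool) (hc : con a b c = some cn) (hκ : κ * h0 = kenE x) (κ0 : 0 ≤ κ)
    (h0x : 0 ≤ x) (h1x : x < 1)
    (b1 : CovX D.P RK RL n1 j a P1 W1 (fun _ => True) x)
    (b2 : CovX D.P RK RL n2 k b P2 W2 (fun _ => True) x)
    (x1 : (P3 : ℝ) / S ≤ x) (x2 : x ≤ ((P3 : ℝ) + W3) / S)
    (ht : CertNX P1 W1 P2 W2 P3 W3 N0 true s1 s2 cn a b c n1 n2 (pc c)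
      (Cut.of ([cc3 (!w) d] :: L)) xt)
    (H : CutVA (VND N0 κ) D RK RL pc (Cut.of L) a b c j k (sgb s1) (sgb s2) x)
    (hxt : ExtVA (VND N0 κ) D RK RL pc xt n1 n2 a b c j k (sgb s1) (sgb s2) x) :
    AltVA (VND N0 κ) D RK RL pc [cc3 w d] a b c j k (sgb s1) (sgb s2) x := by
  intro y y' F r1 r2 h
  obtain ⟨p, A1, g1, g2⟩ := b1 y F.on1 trivial
  obtain ⟨p', A2, g3, g4⟩ := b2 y' F.on2 trivial
  have h' := ht ⟨g1, g2⟩ ⟨g3, g4⟩ ⟨x1, x2⟩
  unfold NearX at h'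
  rw [valX_A A1 A2] at h'
  rcases h' with (h' | h') | h' | ⟨g, h'⟩
  · exact absurd h' (F.notOut rfl rfl rfl)
  · obtain ⟨l, hl, hP⟩ := h'
    rcases List.mem_cons.1 hl with rfl | hl
    · exact (cc3_not w (h _ List.mem_cons_self) (hP _ List.mem_cons_self)).elim
    · exact H y y' F r1 r2 ⟨l, hl, hP⟩
  · exact hxt y y' p p' F r1 r2 A1 A2 h'
  · refine VN.dir (F.ngv hc ⟨g, ?_⟩) κ0 h0x h1x F.y0 F.y0' F.y2
    rw [hκ]
    exact h'.le

/-- **A strip as an alternative**, family `B`, near vertex. -/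
theorem strip_altVBN (w : Bool) (hc : con a b c = some cn) (hκ : κ * h0 = kenE x) (κ0 : 0 ≤ κ)
    (h0x : 0 ≤ x) (h1x : x < 1)
    (b1 : CovX D.P RK RL n1 j a P1 W1 (fun _ => True) x)
    (b2 : CovX D.P RK RL n2 k c P2 W2 (fun _ => True) x)
    (x1 : (P3 : ℝ) / S ≤ x) (x2 : x ≤ ((P3 : ℝ) + W3) / S)
    (ht : CertNX P1 W1 P2 W2 P3 W3 N0 false s1 s2 cn a b c n1 n2 (pc b)
      (Cut.of ([cc3 (!w) d] :: L)) xt)
    (H : CutVB (VND N0 κ) D RK RL pc (Cut.of L) a b c j k (sgb s1) (sgb s2) x)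
    (hxt : ExtVB (VND N0 κ) D RK RL pc xt n1 n2 a b c j k (sgb s1) (sgb s2) x) :
    AltVB (VND N0 κ) D RK RL pc [cc3 w d] a b c j k (sgb s1) (sgb s2) x := by
  intro y y' F r1 r2 h
  obtain ⟨p, A1, g1, g2⟩ := b1 y F.on1 trivial
  obtain ⟨p', A2, g3, g4⟩ := b2 (y + y') F.on3 trivial
  have h' := ht ⟨g1, g2⟩ ⟨g3, g4⟩ ⟨x1, x2⟩
  unfold NearX at h'
  rw [valX_B A1 A2] at h'
  rcases h' with (h' | h') | h' | ⟨g, h'⟩
  · exact absurd h' (F.notOut rfl rfl rfl)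
  · obtain ⟨l, hl, hP⟩ := h'
    rcases List.mem_cons.1 hl with rfl | hl
    · exact (cc3_not w (h _ List.mem_cons_self) (hP _ List.mem_cons_self)).elim
    · exact H y y' F r1 r2 ⟨l, hl, hP⟩
  · exact hxt y y' p p' F r1 r2 A1 A2 h'
  · refine VN.dir (F.ngv hc ⟨g, ?_⟩) κ0 h0x h1x F.y0 F.y0' F.y2
    rw [hκ]
    exact h'.le

end

end Pool.Agent.Strip051.PB
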