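import Pool.Agent.Strip051.PB.Third

/-! # Tables by quarters -/

namespace Pool.Agent.Strip051.PB

open Pool.Agent.StripNear Pool.Agent.StripSquare Pool.Agent.Strip051.Sweep
open Pool.Agent.Strip051.LC

/-- The quarter of a height. -/
noncomputable def qr (y : ℝ) : ℕ :=
  if y < 1 / 2 then 0 else if y < 1 then 1 else if y < 3 / 2 then 2 else 3

theorem qr_eq {q : ℕ} {y : ℝ} (h : InQ q y) : qr y = q := by
  unfold qr
  match q, h with
  | 0, ⟨_, h2⟩ => rw [if_pos h2]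
  | 1, ⟨h1, h2⟩ => rw [if_neg (by linarith), if_pos h2]
  | 2, ⟨h1, h2⟩ => rw [if_neg (by linarith), if_neg (by linarith), if_pos h2]
  | 3, ⟨h1, h2⟩ => rw [if_neg (by linarith), if_neg (by linarith), if_neg (by linarith)]
  | _ + 4, h => exact h.elim

theorem inQ_qr {y : ℝ} (h : 0 ≤ y) (h' : y ≤ 2) : InQ (qr y) y := by
  rcases inQ_cases h h' with k | k | k | k <;> rw [qr_eq k] <;> exact k

theorem InQ.nonneg {q : ℕ} {y : ℝ} (h : InQ q y) : 0 ≤ y := by
  match q, h with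
  | 0, ⟨h1, h2⟩ => exact h1
  | 1, ⟨h1, h2⟩ => linarith
  | 2, ⟨h1, h2⟩ => linarith
  | 3, ⟨h1, h2⟩ => linarith
  | _ + 4, h => exact h.elim

theorem InQ.le_two {q : ℕ} {y : ℝ} (h : InQ q y) : y ≤ 2 := by
  match q, h with
  | 0, ⟨h1, h2⟩ => linarith
  | 1, ⟨h1, h2⟩ => linarith
  | 2, ⟨h1, h2⟩ => linarith
  | 3, ⟨h1, h2⟩ => exact h2
  | _ + 4, h => exact h.elim

theorem InQ.lt_four {q : ℕ} {y : ℝ} (h : InQ q y) : q < 4 := by
  match q, h with
  | 0, _ => norm_num
  | 1, _ => norm_num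
  | 2, _ => norm_num
  | 3, _ => norm_num
  | _ + 4, h => exact h.elim

/-- The table with the values `R i q y x` in the quarters. -/
noncomputable def tbl {ι : Type} (R : ι → ℕ → ℝ → ℝ → ℝ) (x T : ℝ) (i : ι) : ℝ :=
  if 0 ≤ T ∧ T ≤ 2 * h0 then R i (qr (T / h0)) (T / h0) x else 0

theorem tbl_eq {ι : Type} {R : ι → ℕ → ℝ → ℝ → ℝ} {x y : ℝ} {i : ι} {q : ℕ}
    (h : InQ q y) : tbl R x (h0 * y) i = R i q y x := by
  have hp := h0_pos
  have hne : h0 ≠ 0 := hp.ne'
  unfold tbl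
  rw [if_pos ⟨mul_nonneg hp.le h.nonneg, by nlinarith [h.le_two]⟩, mul_div_cancel_left₀ y hne,
    qr_eq h]

/-! ### The curves -/

theorem c1_n (y : ℝ) : c1 (h0 * y) = c1n y := by
  unfold c1 c1n
  rw [mul_pow, h0_sq]

theorem c3_n (y : ℝ) : c3 (h0 * y) = c3n y := by
  unfold c3 c3n
  rw [mul_pow, h0_sq]

theorem Wc_n {q : ℕ} {y : ℝ} (h : InQ q y) : Wc (h0 * y) = Wn (decide (2 ≤ q)) y := by
  have hp := h0_pos
  have e : (h0 * y - h0) ^ 2 = 3 / 4 * (y - 1) ^ 2 := by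
    rw [show h0 * y - h0 = h0 * (y - 1) by ring, mul_pow, h0_sq]
  unfold Wc Wn swn
  rw [e]
  match q, h with
  | 0, ⟨h1, h2⟩ =>
    rw [if_pos (by nlinarith)]
    rfl
  | 1, ⟨h1, h2⟩ =>
    rw [if_pos (by nlinarith)]
    rfl
  | 2, ⟨h1, h2⟩ =>
    rw [if_neg (by nlinarith)]
    have : decide (2 ≤ 2) = true := rfl
    rw [this, cond_true]
    ring
  | 3, ⟨h1, h2⟩ =>
    rw [if_neg (by nlinarith)]
    have : decide (2 ≤ 3) = true := rfl
    rw [this, cond_true]
    ring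
  | _ + 4, h => exact h.elim

/-- The curve at the position `ρ` in the quarter `q`. -/
theorem gam_n {q : ℕ} {y : ℝ} (ρ : ℝ) (h : InQ q y) :
    gam ρ (h0 * y) = gamn ρ (decide (2 ≤ q)) y := by
  unfold gam gamn
  rw [c1_n, c3_n, Wc_n h]

section

variable {n : ℕ} (P : Pos n)

/-- The curves in the quarters. -/
noncomputable def crv (j : Fin (n + 1)) (q : ℕ) (y : ℝ) : ℝ := gamn (P.ρ j) (decide (2 ≤ q)) y

theorem linkX : LinkX P.cur (crv P) := fun _ _ _ h => gam_n _ h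

/-- The conditions on the table in the quarters. -/
structure Pins (R : Fin (n + 1) → ℕ → ℝ → ℝ → ℝ) (x : ℝ) : Prop where
  one : ∀ q y, InQ q y → 1 ≤ h0 * y → R 0 q y x = 0
  zero : ∀ j, P.ρ j ≤ 1 → R j 0 0 x = R 0 0 0 x
  mid : ∀ j, P.ρ j ≤ 1 → R j 2 1 x = R 0 2 1 x
  top : ∀ j, R j 3 2 x = 0
  bdd : ∃ C, ∀ j q y, InQ q y → |R j q y x| ≤ C

variable {P}
variable {R : Fin (n + 1) → ℕ → ℝ → ℝ → ℝ} {x : ℝ}

theorem Pins.adm (h : Pins P R x) : P.Adm (tbl R x) := by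
  have hp := h0_pos
  have hq := h0_sq
  have hne : h0 ≠ 0 := hp.ne'
  refine ⟨?_, ?_, ?_, ?_⟩
  · intro T hT
    unfold tbl
    split_ifs with h2
    · have y0 : 0 ≤ T / h0 := div_nonneg h2.1 hp.le
      have y2 : T / h0 ≤ 2 := by
        rw [div_le_iff₀ hp]
        exact h2.2
      refine h.one _ _ (inQ_qr y0 y2) ?_
      rw [mul_div_cancel₀ T hne]
      exact hT
    · rfl
  · intro j hj
    have e : InQ 0 (0 : ℝ) := ⟨le_rfl, by norm_num⟩
    have k : ∀ i : Fin (n + 1), tbl R x 0 i = R i 0 0 x := fun i => by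
      have := tbl_eq (R := R) (x := x) (i := i) e
      rwa [mul_zero] at this
    rw [k, k]
    exact h.zero j hj
  · intro j hj
    have e : InQ 2 (1 : ℝ) := ⟨le_rfl, by norm_num⟩
    have k : ∀ i : Fin (n + 1), tbl R x h0 i = R i 2 1 x := fun i => by
      have := tbl_eq (R := R) (x := x) (i := i) e
      rwa [mul_one] at this
    rw [k, k]
    exact h.mid j hj
  · intro T j hT
    by_cases h2 : 0 ≤ T ∧ T ≤ 2 * h0
    · have e : T = h0 * 2 := by nlinarith [h2.1]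
      rw [e, tbl_eq (q := 3) ⟨by norm_num, le_rfl⟩]
      exact h.top j
    · unfold tbl
      rw [if_neg h2]

theorem Pins.abs (h : Pins P R x) :
    ∃ C, ∀ T i, 0 ≤ T → T ^ 2 ≤ 3 → |tbl R x T i| ≤ C := by
  have hp := h0_pos
  have hq := h0_sq
  have hne : h0 ≠ 0 := hp.ne'
  obtain ⟨C, hC⟩ := h.bdd
  refine ⟨C, fun T i hT h3 => ?_⟩
  have h2 : T ≤ 2 * h0 := by nlinarith
  have y0 : 0 ≤ T / h0 := div_nonneg hT hp.le
  have y2 : T / h0 ≤ 2 := by
    rw [div_le_iff₀ hp]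
    exact h2
  have e : T = h0 * (T / h0) := by field_simp
  rw [e, tbl_eq (inQ_qr y0 y2)]
  exact hC _ _ _ (inQ_qr y0 y2)

/-! ### The third side -/

variable (P R)

/-- The kernel on the third side: the interpolation between the curves, odd in `X`. -/
noncomputable def thd (q : ℕ) (X y x : ℝ) : ℝ :=
  oddx (itp1 (crv P 0 q y) (R 0 q y x)
    (List.ofFn fun i : Fin n => (crv P i.succ q y, R i.succ q y x))) X

/-- The second form. -/
noncomputable def thd2 (B : Fin (n + 1) → ℕ → ℝ → ℝ → ℝ) (q : ℕ) (X y x : ℝ) : ℝ :=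
  oddx (itp2 (crv P 0 q y) (R 0 q y x)
    (List.ofFn fun i : Fin n => (crv P i.succ q y, B i.succ q y x))) X

variable {P R}

theorem chain_ker {v : ℝ → Fin (n + 1) → ℝ} (hv : P.Adm v) {T : ℝ} (hT : 0 ≤ T)
    (h3 : T ^ 2 ≤ 3) : List.IsChain (SegF fun X => ker P.nodes v (fun _ _ => 0) X T)
      ((P.cv 0 T, v T 0) :: List.ofFn fun i : Fin n => (P.cv i.succ T, v T i.succ)) := by
  have e : (P.cv 0 T, v T 0) :: (List.ofFn fun i : Fin n => (P.cv i.succ T, v T i.succ)) =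
      List.ofFn fun i : Fin (n + 1) => (P.cv i T, v T i) := by
    rw [List.ofFn_succ]
  rw [e, List.isChain_ofFn]
  intro i hi
  exact segF_ker (K := P.cur) hv (⟨i, by omega⟩ : Fin n) hT h3

theorem last_ofFn {α : Type} (f : Fin (n + 1) → α) {p : α}
    (hn : n ≠ 0) (h : p ∈ (List.ofFn fun i : Fin n => f i.succ).getLast?) :
    p = f (Fin.last n) := by
  obtain ⟨m, rfl⟩ := Nat.exists_eq_succ_of_ne_zero hn
  rw [List.getLast?_eq_getElem?, List.length_ofFn] at h
  simp only [Nat.succ_eq_add_one, Nat.add_one_sub_one, Option.mem_def] at h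
  rw [List.getElem?_ofFn] at h
  simp only [Nat.lt_add_one, ↓reduceDIte, Option.some.injEq] at h
  rw [← h]
  rfl

theorem itp1_ker {v : ℝ → Fin (n + 1) → ℝ} (hv : P.Adm v) {X T : ℝ} (hT : 0 ≤ T) (hX : 0 ≤ X)
    (h1 : 1 ≤ X ^ 2 + T ^ 2) (h3 : X ^ 2 + T ^ 2 ≤ 3) : itp1 (P.cv 0 T) (v T 0)
      (List.ofFn fun i : Fin n => (P.cv i.succ T, v T i.succ)) X =
      ker P.nodes v (fun _ _ => 0) X T := by
  have hT3 : T ^ 2 ≤ 3 := by nlinarith [sq_nonneg X]
  have hn : n ≠ 0 := fun h => by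
    subst h
    exact P.last_ne rfl
  obtain ⟨g1, g2⟩ := range_ker hT hX h1 h3
  refine itp1_eq (f := fun X => ker P.nodes v (fun _ _ => 0) X T) _ _ _ ?_
    (chain_ker hv hT hT3) (by rwa [P.cv_zero]) ?_
  · intro h
    have := congrArg List.length h
    rw [List.length_ofFn] at this
    exact hn this
  · intro p hp
    rw [last_ofFn (fun i : Fin (n + 1) => (P.cv i T, v T i)) hn hp, P.cv_last]
    exact g2

theorem itp2_ker {v : ℝ → Fin (n + 1) → ℝ} (hv : P.Adm v) {X T : ℝ} (hT : 0 ≤ T) (hX : 0 ≤ X)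
    (h1 : 1 ≤ X ^ 2 + T ^ 2) (h3 : X ^ 2 + T ^ 2 ≤ 3) {B : Fin (n + 1) → ℝ}
    (hB : ∀ i : Fin n, v T i.succ = P.cv i.succ T * B i.succ) : itp2 (P.cv 0 T) (v T 0)
      (List.ofFn fun i : Fin n => (P.cv i.succ T, B i.succ)) X =
      ker P.nodes v (fun _ _ => 0) X T := by
  have hT3 : T ^ 2 ≤ 3 := by nlinarith [sq_nonneg X]
  have hn : n ≠ 0 := fun h => by
    subst h
    exact P.last_ne rfl
  obtain ⟨g1, g2⟩ := range_ker hT hX h1 h3
  refine itp2_eq (f := fun X => ker P.nodes v (fun _ _ => 0) X T) _ _ _ ?_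
    ?_ (by rwa [P.cv_zero]) ?_
  · intro h
    have := congrArg List.length h
    rw [List.length_ofFn] at this
    exact hn this
  · have := chain_ker hv hT hT3
    rw [List.map_ofFn]
    refine (congrArg (List.IsChain _) (congrArg _ ?_)).mp this
    congr 1
    funext i
    simp only [Function.comp_apply]
    rw [hB i]
  · intro p hp
    rw [last_ofFn (fun i : Fin (n + 1) => (P.cv i T, B i)) hn hp, P.cv_last]
    exact g2

theorem qq_T {X y : ℝ} : X ^ 2 + (h0 * y) ^ 2 = qqn X y := qqn_eq X y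

/-- **The real functions describe the kernel.** -/
theorem Pins.link (h : Pins P R x) : Link P.cur x (tbl R x) R (thd P R) where
  adm := h.adm
  node j q y hq _ := tbl_eq hq
  third q X y hq h1 h3 := by
    have hp := h0_pos
    have hT : 0 ≤ h0 * y := mul_nonneg hp.le hq.nonneg
    have e := qqn_eq X y
    refine (oddx_ker (K := P.cur) (T := h0 * y) ?_ (by rwa [e]) (by rwa [e])).symm
    intro Z hZ k1 k3
    rw [← show P.cv 0 (h0 * y) = crv P 0 q y from gam_n _ hq, ← tbl_eq (R := R) (x := x) hq]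
    have := itp1_ker h.adm hT hZ k1 k3
    rw [← show P.cur.nodes = P.nodes from rfl] at this
    rw [← this]
    congr 2
    funext i
    rw [← tbl_eq (R := R) (x := x) hq]
    exact congrArg (fun z => (z, _)) (gam_n _ hq).symm

/-- The second form: the tables are the multiples `X * B` of the abscissa. -/
theorem Pins.link2 (h : Pins P R x) {B : Fin (n + 1) → ℕ → ℝ → ℝ → ℝ}
    (hB : ∀ (i : Fin n) q y, InQ q y → R i.succ q y x = crv P i.succ q y * B i.succ q y x) :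
    Link P.cur x (tbl R x) R (thd2 P R B) where
  adm := h.adm
  node j q y hq _ := tbl_eq hq
  third q X y hq h1 h3 := by
    have hp := h0_pos
    have hT : 0 ≤ h0 * y := mul_nonneg hp.le hq.nonneg
    have e := qqn_eq X y
    refine (oddx_ker (K := P.cur) (T := h0 * y) ?_ (by rwa [e]) (by rwa [e])).symm
    intro Z hZ k1 k3
    rw [← show P.cv 0 (h0 * y) = crv P 0 q y from gam_n _ hq, ← tbl_eq (R := R) (x := x) hq]
    have := itp2_ker h.adm hT hZ k1 k3 (B := fun i => B i q y x) (fun i => by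
      rw [tbl_eq hq, hB i q y hq]
      exact congrArg (· * _) (gam_n _ hq).symm)
    rw [← show P.cur.nodes = P.nodes from rfl] at this
    rw [← this]
    congr 2
    funext i
    exact congrArg (fun z => (z, _)) (gam_n _ hq).symm

end

end Pool.Agent.Strip051.PB
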