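import Pool.Agent.Strip051.PB.CornU

/-! # Aligned corners: the identities at the tight triangles

On the unit circle and on the circle of radius `√3` kernel and level depend on the unit vector
`p` between the directions 60 and 120 degrees which generates the same lattice; `p` is linear in
the vector and it is the same for the three sides of a tight triangle. -/

namespace Pool.Agent.Strip051.PB

attribute [local irreducible] padd psub pneg pmul psq pinv psqrt psqrtg pabs pps pmax pmin pphi plam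
  pcase phf pnat prat pscale pnorm pdc pnc pone ppos pnn Enc pbad pzero

/-! ### The unit vector -/

/-- the first coordinate -/
noncomputable def pm1 : Bool → ℕ → Bool → ℝ → ℝ → ℝ
  | false, 2, _, X, _ => X
  | false, _, true, X, y => X / 2 - 3 / 4 * y
  | false, _, false, X, y => X / 2 + 3 / 4 * y
  | true, 2, true, X, y => X / 2 - y / 4
  | true, 2, false, X, y => X / 2 + y / 4
  | true, _, true, _, y => -(y / 2)
  | true, _, false, _, y => y / 2

/-- the second coordinate -/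
noncomputable def pm2 : Bool → ℕ → Bool → ℝ → ℝ → ℝ
  | false, 2, _, _, y => y
  | false, _, true, X, y => X + y / 2
  | false, _, false, X, y => -X + y / 2
  | true, 2, true, X, y => X / 3 + y / 2
  | true, 2, false, X, y => -(X / 3) + y / 2
  | true, _, true, X, _ => 2 / 3 * X
  | true, _, false, X, _ => -(2 / 3 * X)

/-- the coefficients of the level -/
def lva : Bool → ℕ → Bool → ℝ
  | false, 2, _ => 1
  | false, _, true => 1
  | false, _, false => 0
  | true, 2, true => 2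
  | true, 2, false => 1
  | true, _, true => 1
  | true, _, false => -1

def lvb : Bool → ℕ → Bool → ℝ
  | false, 2, _ => -1
  | false, _, true => 0
  | false, _, false => -1
  | true, 2, true => -1
  | true, 2, false => -2
  | true, _, true => 1
  | true, _, false => -1

/-- squared length -/
def r2 (t : Bool) : ℝ := cond t 3 1

/-- The closed forms of kernel and level on a circle in a quarter. -/
structure Prof (t : Bool) (q : ℕ) (KC : ℝ → ℝ) (TX : ℝ → ℝ → ℝ) (kv lv : ℝ → ℝ) : Prop where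
  K : ∀ X y, InQ q y → y ≤ 9 / 8 ∨ t = true → 0 ≤ X → X ^ 2 + 3 / 4 * y ^ 2 = r2 t →
    kv y * (pm2 t q true X y - 1) =
      (y - jq q) * (pm1 t q true X y + KC (-pm1 t q true X y) * (pm2 t q true X y - 1))
  L : ∀ X y, InQ q y → y ≤ 9 / 8 ∨ t = true → 0 ≤ X → X ^ 2 + 3 / 4 * y ^ 2 = r2 t →
    lv y = lva t q true * TX (-pm1 t q true X y) (3 / 4 * pm2 t q true X y + pm1 t q true X y / 2) +
      lvb t q true * TX (pm1 t q true X y) (3 / 4 * pm2 t q true X y - pm1 t q true X y / 2)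

/-- The same for a signed abscissa. -/
structure SProf (t : Bool) (q : ℕ) (s : Bool) (KC : ℝ → ℝ) (TX : ℝ → ℝ → ℝ) (X y K L : ℝ) :
    Prop where
  K : K * (pm2 t q s X y - 1) =
      (y - jq q) * (pm1 t q s X y + KC (-pm1 t q s X y) * (pm2 t q s X y - 1))
  L : L = lva t q s * TX (-pm1 t q s X y) (3 / 4 * pm2 t q s X y + pm1 t q s X y / 2) +
    lvb t q s * TX (pm1 t q s X y) (3 / 4 * pm2 t q s X y - pm1 t q s X y / 2)

theorem Prof.signed {t : Bool} {q : ℕ} (hq2 : q ≤ 2) {KC : ℝ → ℝ} {TX : ℝ → ℝ → ℝ}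
    {kv lv : ℝ → ℝ}
    (h : Prof t q KC TX kv lv) (hodd : ∀ z, KC (-z) = -KC z) (s : Bool) {X y : ℝ} (hq : InQ q y)
    (hy : y ≤ 9 / 8 ∨ t = true) (hX : 0 ≤ sgr s X) (hr : X ^ 2 + 3 / 4 * y ^ 2 = r2 t) :
    SProf t q s KC TX X y (sgr s (kv y)) (sgr s (lv y)) := by
  cases s
  · have hX' : 0 ≤ -X := hX
    have k := h.K (-X) y hq hy hX' (by rw [← hr]; ring)
    have l := h.L (-X) y hq hy hX' (by rw [← hr]; ring)
    have e1 : pm1 t q true (-X) y = -pm1 t q false X y := by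
      interval_cases q <;> cases t <;> simp only [pm1] <;> ring
    have e2 : pm2 t q true (-X) y = pm2 t q false X y := by
      interval_cases q <;> cases t <;> simp only [pm2] <;> ring
    have e3 : lva t q true = -lvb t q false := by
      interval_cases q <;> cases t <;> norm_num [lva, lvb]
    have e4 : lvb t q true = -lva t q false := by
      interval_cases q <;> cases t <;> norm_num [lva, lvb]
    rw [e1, e2, neg_neg] at k
    rw [e1, e2, neg_neg, e3, e4] at l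
    constructor
    · show -kv y * _ = _
      rw [hodd]
      linear_combination -k
    · show -lv y = _
      rw [l, show 3 / 4 * pm2 t q false X y + -pm1 t q false X y / 2 =
        3 / 4 * pm2 t q false X y - pm1 t q false X y / 2 by ring,
        show 3 / 4 * pm2 t q false X y - -pm1 t q false X y / 2 =
        3 / 4 * pm2 t q false X y + pm1 t q false X y / 2 by ring]
      ring
  · exact ⟨h.K X y hq hy hX hr, h.L X y hq hy hX hr⟩

/-- Three sides with the same unit vector. -/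
theorem tri_id {KC : ℝ → ℝ} {TX : ℝ → ℝ → ℝ} {t1 t2 t3 s1 s2 s3 : Bool} {q1 q2 q3 : ℕ}
    {X1 y1 X2 y2 X3 y3 K1 K2 K3 L1 L2 L3 : ℝ} (h1 : SProf t1 q1 s1 KC TX X1 y1 K1 L1)
    (h2 : SProf t2 q2 s2 KC TX X2 y2 K2 L2) (h3 : SProf t3 q3 s3 KC TX X3 y3 K3 L3)
    (e1 : pm1 t2 q2 s2 X2 y2 = pm1 t1 q1 s1 X1 y1) (e2 : pm2 t2 q2 s2 X2 y2 = pm2 t1 q1 s1 X1 y1)
    (f1 : pm1 t3 q3 s3 X3 y3 = pm1 t1 q1 s1 X1 y1) (f2 : pm2 t3 q3 s3 X3 y3 = pm2 t1 q1 s1 X1 y1)
    (a : lva t1 q1 s1 + lva t2 q2 s2 = lva t3 q3 s3)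
    (b : lvb t1 q1 s1 + lvb t2 q2 s2 = lvb t3 q3 s3)
    (hy : y1 - jq q1 + (y2 - jq q2) = y3 - jq q3) (hp : pm2 t1 q1 s1 X1 y1 ≠ 1) :
    (y2 - jq q2) * K1 = (y1 - jq q1) * K2 ∧ K3 = K1 + K2 ∧ L3 = L1 + L2 := by
  have k1 := h1.K
  have k2 := h2.K
  have k3 := h3.K
  have l1 := h1.L
  have l2 := h2.L
  have l3 := h3.L
  rw [e1, e2] at k2
  rw [f1, f2] at k3
  rw [e1, e2] at l2
  rw [f1, f2] at l3
  have hp' : pm2 t1 q1 s1 X1 y1 - 1 ≠ 0 := sub_ne_zero.2 hp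
  refine ⟨mul_right_cancel₀ hp' ?_, mul_right_cancel₀ hp' ?_, ?_⟩
  · linear_combination (y2 - jq q2) * k1 - (y1 - jq q1) * k2
  · rw [k3, add_mul, k1, k2, ← hy]
    ring
  · rw [l1, l2, l3, ← a, ← b]
    ring

/-! ### The six triangles -/

/-- The second and the third side of a tight triangle lie in the right quarters. -/
structure TriOk (t2 t3 s2 s3 : Bool) (q2 q3 : ℕ) (X1 y1 X2 y2 : ℝ) : Prop where
  i2 : InQ q2 y2
  o2 : y2 ≤ 9 / 8 ∨ t2 = true
  x2 : 0 ≤ sgr s2 X2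
  l2 : X2 ^ 2 + 3 / 4 * y2 ^ 2 = r2 t2
  i3 : InQ q3 (y1 + y2)
  o3 : y1 + y2 ≤ 9 / 8 ∨ t3 = true
  x3 : 0 ≤ sgr s3 (X1 + X2)
  l3 : (X1 + X2) ^ 2 + 3 / 4 * (y1 + y2) ^ 2 = r2 t3

section

variable {X y : ℝ}

/-- bounds near `(1, 0)` -/
theorem bd0 (h0 : 0 < y) (h1 : y ≤ 1 / 16) (hX : 0 ≤ X) (hr : X ^ 2 + 3 / 4 * y ^ 2 = 1) :
    1 - y / 16 ≤ X ∧ X ≤ 1 := by
  constructor
  · by_contra h
    push Not at h
    nlinarith
  · nlinarith [sq_nonneg y]

theorem tri1 (h0 : 0 < y) (h1 : y ≤ 1 / 16) (hX : 0 ≤ X) (hr : X ^ 2 + 3 / 4 * y ^ 2 = 1) :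
    TriOk false false false true 1 2 X y (-(1 / 2) * X - 1 * (3 / 4 * y))
      (-(1 / 2) * y + 1 * X) := by
  obtain ⟨b1, b2⟩ := bd0 h0 h1 hX hr
  refine ⟨⟨by linarith, by linarith⟩, Or.inl (by linarith), ?_, ?_, ⟨by linarith, by linarith⟩,
    Or.inl (by linarith), ?_, ?_⟩
  · show 0 ≤ -_
    linarith
  · show _ = (1 : ℝ)
    linear_combination hr
  · show 0 ≤ _ + _
    linarith
  · show _ = (1 : ℝ)
    linear_combination hr

theorem tri3 (h0 : 0 < y) (h1 : y ≤ 1 / 16) (hX : 0 ≤ X) (hr : X ^ 2 + 3 / 4 * y ^ 2 = 1) :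
    TriOk false true true true 2 2 X y (1 / 2 * X - 1 * (3 / 4 * y))
      (1 / 2 * y + 1 * X) := by
  obtain ⟨b1, b2⟩ := bd0 h0 h1 hX hr
  refine ⟨⟨by linarith, by linarith⟩, Or.inl (by linarith), ?_, ?_, ⟨by linarith, by linarith⟩,
    Or.inr rfl, ?_, ?_⟩
  · show 0 ≤ _ - _
    linarith
  · show _ = (1 : ℝ)
    linear_combination hr
  · show 0 ≤ _ + _
    linarith
  · show _ = (3 : ℝ)
    linear_combination 3 * hr

theorem tri5 (h0 : 0 < y) (h1 : y ≤ 1 / 16) (hX : 0 ≤ X) (hr : X ^ 2 + 3 / 4 * y ^ 2 = 1) :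
    TriOk true false false false 1 1 X y (-(3 / 2) * X - 1 * (3 / 4 * y))
      (-(3 / 2) * y + 1 * X) := by
  obtain ⟨b1, b2⟩ := bd0 h0 h1 hX hr
  refine ⟨⟨by linarith, by linarith⟩, Or.inr rfl, ?_, ?_, ⟨by linarith, by linarith⟩,
    Or.inl (by linarith), ?_, ?_⟩
  · show 0 ≤ -_
    linarith
  · show _ = (3 : ℝ)
    linear_combination 3 * hr
  · show 0 ≤ -_
    linarith
  · show _ = (1 : ℝ)
    linear_combination hr

theorem tri2 (h0 : y < 1) (h1 : 15 / 16 ≤ y) (hX : 0 ≤ X) (hr : X ^ 2 + 3 / 4 * y ^ 2 = 1) :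
    TriOk false false false false 0 2 X y (-(1 / 2) * X - 1 * (3 / 4 * y))
      (-(1 / 2) * y + 1 * X) := by
  have b1 : 3 / 2 - y ≤ X := by
    by_contra h
    push Not at h
    nlinarith
  have b2 : X ≤ 2 - 3 / 2 * y := by
    by_contra h
    push Not at h
    nlinarith
  refine ⟨⟨by linarith, by linarith⟩, Or.inl (by linarith), ?_, ?_, ⟨by linarith, by linarith⟩,
    Or.inl (by linarith), ?_, ?_⟩
  · show 0 ≤ -_
    linarith
  · show _ = (1 : ℝ)
    linear_combination hr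
  · show 0 ≤ -_
    linarith
  · show _ = (1 : ℝ)
    linear_combination hr

theorem tri4 (h0 : 1 ≤ y) (h1 : y ≤ 17 / 16) (hX : X ≤ 0) (hr : X ^ 2 + 3 / 4 * y ^ 2 = 1) :
    TriOk false true false false 0 2 X y (1 / 2 * X - 1 * (3 / 4 * y))
      (1 / 2 * y + 1 * X) := by
  have b1 : 5 / 2 - 2 * y ≤ -X := by
    by_contra h
    push Not at h
    nlinarith
  have b2 : -X ≤ 2 - 3 / 2 * y := by
    by_contra h
    push Not at h
    nlinarith
  refine ⟨⟨by linarith, by linarith⟩, Or.inl (by linarith), ?_, ?_, ⟨by linarith, by linarith⟩,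
    Or.inr rfl, ?_, ?_⟩
  · show 0 ≤ -_
    linarith
  · show _ = (1 : ℝ)
    linear_combination hr
  · show 0 ≤ -_
    linarith
  · show _ = (3 : ℝ)
    linear_combination 3 * hr

theorem tri6 (h0 : y < 1) (h1 : 15 / 16 ≤ y) (hX : 0 ≤ X) (hr : X ^ 2 + 3 / 4 * y ^ 2 = 3) :
    TriOk false false false true 0 1 X y (-(1 / 2) * X - 1 / 3 * (3 / 4 * y))
      (-(1 / 2) * y + 1 / 3 * X) := by
  have b1 : 7 / 4 - y / 4 ≤ X := by
    by_contra h
    push Not at h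
    nlinarith
  have b2 : X ≤ 2 - 1 / 2 * y := by
    by_contra h
    push Not at h
    nlinarith
  refine ⟨⟨by linarith, by linarith⟩, Or.inl (by linarith), ?_, ?_, ⟨by linarith, by linarith⟩,
    Or.inl (by linarith), ?_, ?_⟩
  · show 0 ≤ -_
    linarith
  · show _ = (1 : ℝ)
    linear_combination 1 / 3 * hr
  · show 0 ≤ _ + _
    linarith
  · show _ = (1 : ℝ)
    linear_combination 1 / 3 * hr

end

/-! ### The linear identities -/

/-- The three sides of a tight triangle have the same unit vector. -/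
structure CfgP (t1 t2 t3 s1 s2 s3 : Bool) (q1 q2 q3 : ℕ) (β γ : ℝ) : Prop where
  e1 : ∀ X y, pm1 t2 q2 s2 (β * X - γ * (3 / 4 * y)) (β * y + γ * X) = pm1 t1 q1 s1 X y
  e2 : ∀ X y, pm2 t2 q2 s2 (β * X - γ * (3 / 4 * y)) (β * y + γ * X) = pm2 t1 q1 s1 X y
  f1 : ∀ X y, pm1 t3 q3 s3 (X + (β * X - γ * (3 / 4 * y))) (y + (β * y + γ * X)) =
    pm1 t1 q1 s1 X y
  f2 : ∀ X y, pm2 t3 q3 s3 (X + (β * X - γ * (3 / 4 * y))) (y + (β * y + γ * X)) =
    pm2 t1 q1 s1 X y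
  a : lva t1 q1 s1 + lva t2 q2 s2 = lva t3 q3 s3
  b : lvb t1 q1 s1 + lvb t2 q2 s2 = lvb t3 q3 s3
  j : (jq q1 : ℝ) + jq q2 = jq q3

theorem cfg1 : CfgP false false false true false true 0 1 2 (-(1 / 2)) 1 := by
  constructor <;> (try intro X y) <;> simp only [pm1, pm2, lva, lvb, jq] <;> push_cast <;> ring

theorem cfg2 : CfgP false false false true false false 1 0 2 (-(1 / 2)) 1 := by
  constructor <;> (try intro X y) <;> simp only [pm1, pm2, lva, lvb, jq] <;> push_cast <;> ring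

theorem cfg3 : CfgP false false true true true true 0 2 2 (1 / 2) 1 := by
  constructor <;> (try intro X y) <;> simp only [pm1, pm2, lva, lvb, jq] <;> push_cast <;> ring

theorem cfg4 : CfgP false false true false false false 2 0 2 (1 / 2) 1 := by
  constructor <;> (try intro X y) <;> simp only [pm1, pm2, lva, lvb, jq] <;> push_cast <;> ring

theorem cfg5 : CfgP false true false true false false 0 1 1 (-(3 / 2)) 1 := by
  constructor <;> (try intro X y) <;> simp only [pm1, pm2, lva, lvb, jq] <;> push_cast <;> ring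

theorem cfg6 : CfgP true false false true false true 1 0 1 (-(1 / 2)) (1 / 3) := by
  constructor <;> (try intro X y) <;> simp only [pm1, pm2, lva, lvb, jq] <;> push_cast <;> ring

/-! ### The vector is not `(1/2, 1)` -/

theorem pne0 {X y : ℝ} (h0 : 0 < y) (h1 : y ≤ 1 / 16) (hr : X ^ 2 + 3 / 4 * y ^ 2 = 1) :
    pm2 false 0 true X y ≠ 1 := by
  intro h
  have h' : X + y / 2 = 1 := h
  have : X = 1 - y / 2 := by linarith
  rw [this] at hr
  have : y * (1 - y) = 0 := by linarith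
  rcases mul_eq_zero.1 this with h | h <;> linarith

theorem pne1 {X y : ℝ} (h0 : y < 1) (h1 : 15 / 16 ≤ y) (hr : X ^ 2 + 3 / 4 * y ^ 2 = 1) :
    pm2 false 1 true X y ≠ 1 := by
  intro h
  have h' : X + y / 2 = 1 := h
  have : X = 1 - y / 2 := by linarith
  rw [this] at hr
  have : y * (1 - y) = 0 := by linarith
  rcases mul_eq_zero.1 this with h | h <;> linarith

theorem pne2 {X y : ℝ} (h0 : y ≠ 1) : pm2 false 2 false X y ≠ 1 := h0

theorem pne3 {X y : ℝ} (h0 : y < 1) (h1 : 15 / 16 ≤ y) (hr : X ^ 2 + 3 / 4 * y ^ 2 = 3) :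
    pm2 true 1 true X y ≠ 1 := by
  intro h
  have h' : 2 / 3 * X = 1 := h
  have : X = 3 / 2 := by linarith
  rw [this] at hr
  have : (1 - y) * (1 + y) = 0 := by linarith
  rcases mul_eq_zero.1 this with h | h <;> linarith

/-! ### The identities for the charts -/

/-- A node curve on a circle. -/
structure GP (G : Gn) (t : Bool) (q : ℕ) (KC : ℝ → ℝ) (TX : ℝ → ℝ → ℝ) (x : ℝ) : Prop where
  q2 : q ≤ 2
  X : ∀ y, G.xv y = cond t (c3n y) (c1n y)
  P : Prof t q KC TX (fun y => G.kv y x) (fun y => G.lv y x)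

theorem GP.sq {G : Gn} {t : Bool} {q : ℕ} {KC : ℝ → ℝ} {TX : ℝ → ℝ → ℝ} {x : ℝ} (h : GP G t q KC TX x) {y : ℝ}
    (h0 : 0 ≤ y) (h1 : y ≤ 9 / 8) : G.xv y ^ 2 + 3 / 4 * y ^ 2 = r2 t ∧ 0 ≤ G.xv y := by
  rw [h.X]
  cases t
  · show c1n y ^ 2 + _ = (1 : ℝ) ∧ 0 ≤ c1n y
    unfold c1n
    rw [Real.sq_sqrt (by nlinarith)]
    exact ⟨by ring, Real.sqrt_nonneg _⟩
  · show c3n y ^ 2 + _ = (3 : ℝ) ∧ 0 ≤ c3n y
    unfold c3n
    rw [Real.sq_sqrt (by nlinarith)]
    exact ⟨by ring, Real.sqrt_nonneg _⟩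

theorem TgH_of {P : Cp} (hP : P.Ok) {T : Tp} {G1 G2 GT : Gn} {ρ a x c0 β : ℝ}
    {KC : ℝ → ℝ} {TX : ℝ → ℝ → ℝ} (hodd : ∀ z, KC (-z) = -KC z) {t1 tn tt : Bool} {q1 qn qt : ℕ}
    (g1 : GP G1 t1 q1 KC TX x) (g2 : GP G2 tn qn KC TX x) (gt : GP GT tt qt KC TX x)
    (h1 : G1.At P.m1 ((P.h1 : ℝ) / 2) c0 x) (h2 : G2.At P.mn ((P.hn : ℝ) / 2) c0 x)
    (ht : GT.At P.mt ((P.ht : ℝ) / 2) c0 x)
    (rm : (T.rm : ℝ) = r2 t1) (rn : (T.rn : ℝ) = r2 tn) (rU : T.rU = r2 tt)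
    (b1 : 0 ≤ P.y1 ρ a ∧ P.y1 ρ a ≤ 9 / 8) (bn : 0 ≤ P.yn ρ a ∧ P.yn ρ a ≤ 9 / 8)
    (bt : 0 ≤ P.yt ρ a ∧ P.yt ρ a ≤ 9 / 8)
    (m1 : (P.m1 : ℝ) = jq q1) (mn : (P.mn : ℝ) = jq qn) (_mt : (P.mt : ℝ) = jq qt)
    (hβ : β = cond P.fam T.α (T.α - 1)) (hc : T.α * P.m1 + T.γ * P.b1 = P.mn)
    (hC : CfgP t1 (cond P.fam tn tt) (cond P.fam tt tn) P.t1 (cond P.fam P.tn P.tt)
      (cond P.fam P.tt P.tn) q1 (cond P.fam qn qt) (cond P.fam qt qn) β T.γ)
    (H : P.y1 ρ a ≠ P.m1 → InQ q1 (P.y1 ρ a) ∧ pm2 t1 q1 P.t1 (P.X1 G1 ρ a) (P.y1 ρ a) ≠ 1 ∧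
      TriOk (cond P.fam tn tt) (cond P.fam tt tn) (cond P.fam P.tn P.tt) (cond P.fam P.tt P.tn)
        (cond P.fam qn qt) (cond P.fam qt qn) (P.X1 G1 ρ a) (P.y1 ρ a)
        (β * P.X1 G1 ρ a - T.γ * (3 / 4 * P.y1 ρ a)) (β * P.y1 ρ a + T.γ * P.X1 G1 ρ a)) :
    TgH P T G1 G2 GT ρ a x := by
  obtain ⟨s1, p1⟩ := g1.sq b1.1 b1.2
  obtain ⟨sn, pn⟩ := g2.sq bn.1 bn.2
  obtain ⟨st, pt⟩ := gt.sq bt.1 bt.2
  have key : (T.Y0 P G1 ρ a - P.mn) * sgr P.t1 (G1.kv (P.y1 ρ a) x) =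
      (P.y1 ρ a - P.m1) * sgr P.tn (G2.kv (T.Y0 P G1 ρ a) x) ∧
      sgr P.tt (GT.kv (T.Yt P G1 ρ a) x) =
      cond P.fam (sgr P.t1 (G1.kv (P.y1 ρ a) x) + sgr P.tn (G2.kv (T.Y0 P G1 ρ a) x))
        (sgr P.tn (G2.kv (T.Y0 P G1 ρ a) x) - sgr P.t1 (G1.kv (P.y1 ρ a) x)) ∧
      sgr P.tt (GT.lv (T.Yt P G1 ρ a) x) =
      cond P.fam (sgr P.t1 (G1.lv (P.y1 ρ a) x) + sgr P.tn (G2.lv (T.Y0 P G1 ρ a) x))
        (sgr P.tn (G2.lv (T.Y0 P G1 ρ a) x) - sgr P.t1 (G1.lv (P.y1 ρ a) x)) := by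
    by_cases hy : P.y1 ρ a = P.m1
    · -- the first vector is at the corner
      have e1 : T.Y0 P G1 ρ a = P.mn := by
        unfold Tp.Y0 Cp.X1
        rw [hy, h1.X]
        exact hc
      have e2 : T.Yt P G1 ρ a = P.mt := by
        unfold Tp.Yt
        rw [e1, hy]
        have := hP.m
        cases hf : P.fam
        · rw [hf] at this
          simp only [cond_false] at this ⊢
          linarith
        · rw [hf] at this
          exact this
      rw [e1, e2, hy, h1.K, h2.K, ht.K, h1.L, h2.L, ht.L]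
      have z0 : ∀ t : Bool, sgr t (0 : ℝ) = 0 := fun t => by
        cases t
        · show -(0 : ℝ) = 0
          ring
        · rfl
      refine ⟨by ring, ?_, ?_⟩
      · rw [sgr_mul, sgr_mul, sgr_mul]
        show c0 * P.bt = cond P.fam (c0 * P.b1 + c0 * P.bn) (c0 * P.bn - c0 * P.b1)
        have := hP.b
        cases hf : P.fam
        · rw [hf] at this
          simp only [cond_false] at this ⊢
          linear_combination c0 * this
        · rw [hf] at this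
          simp only [cond_true] at this ⊢
          linear_combination -c0 * this
      · rw [z0, z0, z0]
        cases P.fam <;> simp
    · obtain ⟨i1, ip, tri⟩ := H hy
      have q1' := g1.q2
      have X1s : 0 ≤ sgr P.t1 (P.X1 G1 ρ a) := by
        unfold Cp.X1
        rw [sgr_sgr]
        exact p1
      have X1q : P.X1 G1 ρ a ^ 2 + 3 / 4 * P.y1 ρ a ^ 2 = r2 t1 := by
        unfold Cp.X1
        rw [sgr_sq]
        exact s1
      have S1 := g1.P.signed g1.q2 hodd P.t1 i1 (Or.inl b1.2) X1s X1q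
      have hjj := hC.j
      cases hf : P.fam
      · rw [hf] at tri hβ hC hjj
        simp only [cond_false] at tri hβ hC hjj ⊢
        have S2 := gt.P.signed gt.q2 hodd P.tt tri.i2 tri.o2 tri.x2 tri.l2
        have S3 := g2.P.signed g2.q2 hodd P.tn tri.i3 tri.o3 tri.x3 tri.l3
        obtain ⟨k1, k2, k3⟩ := tri_id S1 S2 S3 (hC.e1 _ _) (hC.e2 _ _) (hC.f1 _ _) (hC.f2 _ _)
          hC.a hC.b (by linear_combination -hjj) ip
        have e1 : T.Y0 P G1 ρ a = P.y1 ρ a + (β * P.y1 ρ a + T.γ * P.X1 G1 ρ a) := by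
          unfold Tp.Y0
          rw [hβ]
          ring
        have e2 : T.Yt P G1 ρ a = β * P.y1 ρ a + T.γ * P.X1 G1 ρ a := by
          unfold Tp.Yt
          rw [hf, e1]
          simp only [cond_false]
          ring
        rw [e1, e2, m1, mn]
        refine ⟨?_, by rw [k2]; ring, by rw [k3]; ring⟩
        rw [k2]
        linear_combination k1 + (sgr P.t1 (G1.kv (P.y1 ρ a) x)) * hjj
      · rw [hf] at tri hβ hC hjj
        simp only [cond_true] at tri hβ hC hjj ⊢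
        have S2 := g2.P.signed g2.q2 hodd P.tn tri.i2 tri.o2 tri.x2 tri.l2
        have S3 := gt.P.signed gt.q2 hodd P.tt tri.i3 tri.o3 tri.x3 tri.l3
        obtain ⟨k1, k2, k3⟩ := tri_id S1 S2 S3 (hC.e1 _ _) (hC.e2 _ _) (hC.f1 _ _) (hC.f2 _ _)
          hC.a hC.b (by linear_combination -hjj) ip
        have e1 : T.Y0 P G1 ρ a = β * P.y1 ρ a + T.γ * P.X1 G1 ρ a := by
          unfold Tp.Y0
          rw [hβ]
        have e2 : T.Yt P G1 ρ a = P.y1 ρ a + (β * P.y1 ρ a + T.γ * P.X1 G1 ρ a) := by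
          unfold Tp.Yt
          rw [hf, e1]
          rfl
        rw [e1, e2, m1, mn]
        exact ⟨k1, k2, k3⟩
  exact ⟨by rw [s1, rm], by rw [sn, rn], by rw [st, rU], pt, key.1, key.2.1, key.2.2⟩

end Pool.Agent.Strip051.PB
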