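import Pool.Agent.Strip051.PB.Link
import Pool.Agent.Strip051.LC.Exact.FamR

/-! # The kernel on the third side, tables by quarters -/

namespace Pool.Agent.Strip051.PB

open Pool.Agent.StripNear Pool.Agent.StripSquare Pool.Agent.Strip051.Sweep
open Pool.Agent.Strip051.LC

/-- Linear interpolation between `(x0, v0)` and `(x1, v1)`. -/
noncomputable def seg1 (x0 x1 v0 v1 X : ℝ) : ℝ := v0 + lam (X - x0) (x1 - x0) * (v1 - v0)

/-- Linear interpolation between `(x0, v0)` and `(x1, x1 * B)`. -/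
noncomputable def seg2 (x0 x1 v0 B X : ℝ) : ℝ :=
  X * B + (1 - lam (X - x0) (x1 - x0)) * (v0 - x0 * B)

theorem lam_eq {n d : ℝ} (h0 : 0 ≤ n) (h1 : n ≤ d) : lam n d = n / d := by
  unfold lam
  rw [← div_eq_mul_inv, max_eq_left (div_nonneg h0 (h0.trans h1)), min_eq_left]
  rcases (h0.trans h1).eq_or_lt with h | h
  · rw [← h, div_zero]
    norm_num
  · rwa [div_le_one h]

theorem seg1_eq {x0 x1 v0 v1 X : ℝ} (h0 : x0 ≤ X) (h1 : X ≤ x1) :
    seg1 x0 x1 v0 v1 X = v0 + (v1 - v0) * ((X - x0) / (x1 - x0)) := by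
  unfold seg1
  rw [lam_eq (by linarith) (by linarith)]
  ring

theorem seg2_eq {x0 x1 v0 B X : ℝ} (h0 : x0 ≤ X) (h1 : X ≤ x1) :
    seg2 x0 x1 v0 B X = v0 + (x1 * B - v0) * ((X - x0) / (x1 - x0)) := by
  unfold seg2
  rw [lam_eq (by linarith) (by linarith)]
  rcases (h0.trans h1).eq_or_lt with h | h
  · have e : X = x0 := le_antisymm (h1.trans h.ge) h0
    rw [e, sub_self, zero_div]
    ring
  · have : x1 - x0 ≠ 0 := by linarith
    field_simp
    ring

/-- Interpolation through a list of nodes, first form. -/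
noncomputable def itp1 : ℝ → ℝ → List (ℝ × ℝ) → ℝ → ℝ
  | _, v0, [], _ => v0
  | x0, v0, [p], X => seg1 x0 p.1 v0 p.2 X
  | x0, v0, p :: q :: l, X =>
    if X ≤ p.1 then seg1 x0 p.1 v0 p.2 X else itp1 p.1 p.2 (q :: l) X

/-- Interpolation through a list of nodes `(x, B)` with the values `x * B`, second form. -/
noncomputable def itp2 : ℝ → ℝ → List (ℝ × ℝ) → ℝ → ℝ
  | _, v0, [], _ => v0
  | x0, v0, [p], X => seg2 x0 p.1 v0 p.2 X
  | x0, v0, p :: q :: l, X =>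
    if X ≤ p.1 then seg2 x0 p.1 v0 p.2 X else itp2 p.1 (p.1 * p.2) (q :: l) X

/-- The function `f` is the interpolation between consecutive nodes. -/
def SegF (f : ℝ → ℝ) (p q : ℝ × ℝ) : Prop :=
  ∀ X, p.1 ≤ X → X ≤ q.1 → f X = p.2 + (q.2 - p.2) * ((X - p.1) / (q.1 - p.1))

theorem itp1_eq {f : ℝ → ℝ} : ∀ (l : List (ℝ × ℝ)) (x0 v0 : ℝ) {X : ℝ}, l ≠ [] →
    List.IsChain (SegF f) ((x0, v0) :: l) → x0 ≤ X → (∀ p ∈ l.getLast?, X ≤ p.1) →
    itp1 x0 v0 l X = f X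
  | [], _, _, _, h, _, _, _ => absurd rfl h
  | [p], x0, v0, X, _, hc, h0, h1 => by
    simp only [itp1]
    have h2 : X ≤ p.1 := h1 p (by simp)
    rw [seg1_eq h0 h2]
    rw [List.isChain_cons_cons] at hc
    exact (hc.1 X h0 h2).symm
  | p :: q :: l, x0, v0, X, _, hc, h0, h1 => by
    simp only [itp1]
    rw [List.isChain_cons_cons] at hc
    split_ifs with h
    · rw [seg1_eq h0 h]
      exact (hc.1 X h0 h).symm
    · exact itp1_eq (q :: l) p.1 p.2 (by simp) hc.2 (not_le.1 h).le (by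
        simpa using h1)

theorem itp2_eq {f : ℝ → ℝ} : ∀ (l : List (ℝ × ℝ)) (x0 v0 : ℝ) {X : ℝ}, l ≠ [] →
    List.IsChain (SegF f) ((x0, v0) :: l.map (fun p => (p.1, p.1 * p.2))) → x0 ≤ X →
    (∀ p ∈ l.getLast?, X ≤ p.1) → itp2 x0 v0 l X = f X
  | [], _, _, _, h, _, _, _ => absurd rfl h
  | [p], x0, v0, X, _, hc, h0, h1 => by
    simp only [itp2]
    have h2 : X ≤ p.1 := h1 p (by simp)
    rw [seg2_eq h0 h2]
    simp only [List.map_cons, List.map_nil, List.isChain_cons_cons] at hc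
    exact (hc.1 X h0 h2).symm
  | p :: q :: l, x0, v0, X, _, hc, h0, h1 => by
    simp only [itp2]
    simp only [List.map_cons, List.isChain_cons_cons] at hc
    split_ifs with h
    · rw [seg2_eq h0 h]
      exact (hc.1 X h0 h).symm
    · exact itp2_eq (q :: l) p.1 (p.1 * p.2) (by simp) (by
        simp only [List.map_cons, List.isChain_cons_cons]
        exact hc.2) (not_le.1 h).le (by simpa using h1)

/-- odd extension -/
noncomputable def oddx (f : ℝ → ℝ) (X : ℝ) : ℝ := if X ≤ 0 then -f (-X) else f X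

section

variable {n : ℕ} {ι : Type} {K : Cur n ι} {v : ℝ → ι → ℝ}

theorem oddx_ker {f : ℝ → ℝ} {T : ℝ} (h : ∀ X, 0 ≤ X → 1 ≤ X ^ 2 + T ^ 2 → X ^ 2 + T ^ 2 ≤ 3 →
    f X = ker K.nodes v (fun _ _ => 0) X T) {X : ℝ} (h1 : 1 ≤ X ^ 2 + T ^ 2)
    (h3 : X ^ 2 + T ^ 2 ≤ 3) : oddx f X = ker K.nodes v (fun _ _ => 0) X T := by
  unfold oddx
  split_ifs with hX
  · rw [h (-X) (by linarith) (by rwa [neg_sq]) (by rwa [neg_sq]), K.ker_neg, neg_neg]
  · exact h X (not_le.1 hX).le h1 h3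

/-- The kernel is the interpolation between two consecutive curves. -/
theorem segF_ker (hv : K.adm v) (i : Fin n) {T : ℝ} (hT : 0 ≤ T) (h3 : T ^ 2 ≤ 3) :
    SegF (fun X => ker K.nodes v (fun _ _ => 0) X T)
      (K.cv i.castSucc T, v T (K.tg i.castSucc)) (K.cv i.succ T, v T (K.tg i.succ)) := by
  intro X h1 h2
  exact K.seg v hv i X T hT h3 h1 h2

theorem range_ker {X T : ℝ} (hT : 0 ≤ T) (hX : 0 ≤ X) (h1 : 1 ≤ X ^ 2 + T ^ 2)
    (h3 : X ^ 2 + T ^ 2 ≤ 3) : c1 T ≤ X ∧ X ≤ c3 T := by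
  have hT3 : T ^ 2 ≤ 3 := by nlinarith [sq_nonneg X]
  constructor
  · rcases le_or_gt T 1 with h | h
    · have := c1_sq hT h
      nlinarith [c1_nonneg T]
    · rw [c1_zero h.le]
      exact hX
  · have := c3_sq hT3
    nlinarith [c3_nonneg T]

/-- The list of the nodes `1, .., n` at the height `T`. -/
noncomputable def nlist (K : Cur n ι) (v : ℝ → ι → ℝ) (T : ℝ) : List (ℝ × ℝ) :=
  List.ofFn fun i : Fin n => (K.cv i.succ T, v T (K.tg i.succ))

end

end Pool.Agent.Strip051.PB
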