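import Pool.Agent.Strip051.PB.Seg

/-! # The third side with a fixed number of segments -/

namespace Pool.Agent.Strip051.PB

open Pool.Agent.StripNear Pool.Agent.StripSquare Pool.Agent.Strip051.Sweep
open Pool.Agent.Strip051.LC

/-- The third side with 2 segments. -/
theorem third2 {P : Pos 2} {R : Fin 3 → ℕ → ℝ → ℝ → ℝ} {x : ℝ} (h : Pins P R x) {q : ℕ}
    {y : ℝ} (hq : InQ q y) {x0 x1 x2 v0 v1 v2 : ℝ} {S0 S1 F : ℝ → ℝ}
    (e0 : crv P 0 q y = x0) (e1 : crv P 1 q y = x1) (e2 : crv P 2 q y = x2)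
    (w0 : R 0 q y x = v0) (w1 : R 1 q y x = v1) (w2 : R 2 q y x = v2)
    (hF : ∀ X, F X = if X - x1 ≤ 0 then S0 X else S1 X)
    (h0 : ∀ X, x0 ≤ X → X ≤ x1 → Lin x0 x1 v0 v1 X (S0 X))
    (h1 : ∀ X, x1 ≤ X → X ≤ x2 → Lin x1 x2 v1 v2 X (S1 X))
    {X : ℝ} (k1 : 1 ≤ qqn X y) (k3 : qqn X y ≤ 3) :
    thd P R q X y x = if X ≤ 0 then -F (-X) else F X := by
  have key := h.third_eq hq (Sg := fun X => ![S0 X, S1 X]) ?_ k1 k3
  · rw [key]
    have e : ∀ X, nst (List.ofFn fun i : Fin 2 => (crv P i.succ q y, (![S0 X, S1 X] : Fin 2 → ℝ) i)) X =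
        F X := by
      intro X
      rw [hF]
      have l : (List.ofFn fun i : Fin 2 => (crv P i.succ q y, (![S0 X, S1 X] : Fin 2 → ℝ) i)) =
          [(x1, S0 X), (x2, S1 X)] := by
        rw [← e1, ← e2]
        rfl
      rw [l]
      rfl
    unfold oddx
    simp only [e]
  · intro i X g1 g2 _ _ _
    fin_cases i
    · have a1 : x0 ≤ X := e0 ▸ g1
      have a2 : X ≤ x1 := e1 ▸ g2
      have := h0 X a1 a2
      rw [← e0, ← e1, ← w0, ← w1] at this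
      exact this
    · have a1 : x1 ≤ X := e1 ▸ g1
      have a2 : X ≤ x2 := e2 ▸ g2
      have := h1 X a1 a2
      rw [← e1, ← e2, ← w1, ← w2] at this
      exact this

/-- The third side with 3 segments. -/
theorem third3 {P : Pos 3} {R : Fin 4 → ℕ → ℝ → ℝ → ℝ} {x : ℝ} (h : Pins P R x) {q : ℕ}
    {y : ℝ} (hq : InQ q y) {x0 x1 x2 x3 v0 v1 v2 v3 : ℝ} {S0 S1 S2 F : ℝ → ℝ}
    (e0 : crv P 0 q y = x0) (e1 : crv P 1 q y = x1) (e2 : crv P 2 q y = x2) (e3 : crv P 3 q y = x3)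
    (w0 : R 0 q y x = v0) (w1 : R 1 q y x = v1) (w2 : R 2 q y x = v2) (w3 : R 3 q y x = v3)
    (hF : ∀ X, F X = if X - x1 ≤ 0 then S0 X else if X - x2 ≤ 0 then S1 X else S2 X)
    (h0 : ∀ X, x0 ≤ X → X ≤ x1 → Lin x0 x1 v0 v1 X (S0 X))
    (h1 : ∀ X, x1 ≤ X → X ≤ x2 → Lin x1 x2 v1 v2 X (S1 X))
    (h2 : ∀ X, x2 ≤ X → X ≤ x3 → Lin x2 x3 v2 v3 X (S2 X))
    {X : ℝ} (k1 : 1 ≤ qqn X y) (k3 : qqn X y ≤ 3) :
    thd P R q X y x = if X ≤ 0 then -F (-X) else F X := by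
  have key := h.third_eq hq (Sg := fun X => ![S0 X, S1 X, S2 X]) ?_ k1 k3
  · rw [key]
    have e : ∀ X, nst (List.ofFn fun i : Fin 3 => (crv P i.succ q y, (![S0 X, S1 X, S2 X] : Fin 3 → ℝ) i)) X =
        F X := by
      intro X
      rw [hF]
      have l : (List.ofFn fun i : Fin 3 => (crv P i.succ q y, (![S0 X, S1 X, S2 X] : Fin 3 → ℝ) i)) =
          [(x1, S0 X), (x2, S1 X), (x3, S2 X)] := by
        rw [← e1, ← e2, ← e3]
        rfl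
      rw [l]
      rfl
    unfold oddx
    simp only [e]
  · intro i X g1 g2 _ _ _
    fin_cases i
    · have a1 : x0 ≤ X := e0 ▸ g1
      have a2 : X ≤ x1 := e1 ▸ g2
      have := h0 X a1 a2
      rw [← e0, ← e1, ← w0, ← w1] at this
      exact this
    · have a1 : x1 ≤ X := e1 ▸ g1
      have a2 : X ≤ x2 := e2 ▸ g2
      have := h1 X a1 a2
      rw [← e1, ← e2, ← w1, ← w2] at this
      exact this
    · have a1 : x2 ≤ X := e2 ▸ g1
      have a2 : X ≤ x3 := e3 ▸ g2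
      have := h2 X a1 a2
      rw [← e2, ← e3, ← w2, ← w3] at this
      exact this

/-- The third side with 4 segments. -/
theorem third4 {P : Pos 4} {R : Fin 5 → ℕ → ℝ → ℝ → ℝ} {x : ℝ} (h : Pins P R x) {q : ℕ}
    {y : ℝ} (hq : InQ q y) {x0 x1 x2 x3 x4 v0 v1 v2 v3 v4 : ℝ} {S0 S1 S2 S3 F : ℝ → ℝ}
    (e0 : crv P 0 q y = x0) (e1 : crv P 1 q y = x1) (e2 : crv P 2 q y = x2) (e3 : crv P 3 q y = x3) (e4 : crv P 4 q y = x4)
    (w0 : R 0 q y x = v0) (w1 : R 1 q y x = v1) (w2 : R 2 q y x = v2) (w3 : R 3 q y x = v3) (w4 : R 4 q y x = v4)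
    (hF : ∀ X, F X = if X - x1 ≤ 0 then S0 X else if X - x2 ≤ 0 then S1 X else if X - x3 ≤ 0 then S2 X else S3 X)
    (h0 : ∀ X, x0 ≤ X → X ≤ x1 → Lin x0 x1 v0 v1 X (S0 X))
    (h1 : ∀ X, x1 ≤ X → X ≤ x2 → Lin x1 x2 v1 v2 X (S1 X))
    (h2 : ∀ X, x2 ≤ X → X ≤ x3 → Lin x2 x3 v2 v3 X (S2 X))
    (h3 : ∀ X, x3 ≤ X → X ≤ x4 → Lin x3 x4 v3 v4 X (S3 X))
    {X : ℝ} (k1 : 1 ≤ qqn X y) (k3 : qqn X y ≤ 3) :
    thd P R q X y x = if X ≤ 0 then -F (-X) else F X := by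
  have key := h.third_eq hq (Sg := fun X => ![S0 X, S1 X, S2 X, S3 X]) ?_ k1 k3
  · rw [key]
    have e : ∀ X, nst (List.ofFn fun i : Fin 4 => (crv P i.succ q y, (![S0 X, S1 X, S2 X, S3 X] : Fin 4 → ℝ) i)) X =
        F X := by
      intro X
      rw [hF]
      have l : (List.ofFn fun i : Fin 4 => (crv P i.succ q y, (![S0 X, S1 X, S2 X, S3 X] : Fin 4 → ℝ) i)) =
          [(x1, S0 X), (x2, S1 X), (x3, S2 X), (x4, S3 X)] := by
        rw [← e1, ← e2, ← e3, ← e4]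
        rfl
      rw [l]
      rfl
    unfold oddx
    simp only [e]
  · intro i X g1 g2 _ _ _
    fin_cases i
    · have a1 : x0 ≤ X := e0 ▸ g1
      have a2 : X ≤ x1 := e1 ▸ g2
      have := h0 X a1 a2
      rw [← e0, ← e1, ← w0, ← w1] at this
      exact this
    · have a1 : x1 ≤ X := e1 ▸ g1
      have a2 : X ≤ x2 := e2 ▸ g2
      have := h1 X a1 a2
      rw [← e1, ← e2, ← w1, ← w2] at this
      exact this
    · have a1 : x2 ≤ X := e2 ▸ g1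
      have a2 : X ≤ x3 := e3 ▸ g2
      have := h2 X a1 a2
      rw [← e2, ← e3, ← w2, ← w3] at this
      exact this
    · have a1 : x3 ≤ X := e3 ▸ g1
      have a2 : X ≤ x4 := e4 ▸ g2
      have := h3 X a1 a2
      rw [← e3, ← e4, ← w3, ← w4] at this
      exact this

/-- The third side with 5 segments. -/
theorem third5 {P : Pos 5} {R : Fin 6 → ℕ → ℝ → ℝ → ℝ} {x : ℝ} (h : Pins P R x) {q : ℕ}
    {y : ℝ} (hq : InQ q y) {x0 x1 x2 x3 x4 x5 v0 v1 v2 v3 v4 v5 : ℝ} {S0 S1 S2 S3 S4 F : ℝ → ℝ}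
    (e0 : crv P 0 q y = x0) (e1 : crv P 1 q y = x1) (e2 : crv P 2 q y = x2) (e3 : crv P 3 q y = x3) (e4 : crv P 4 q y = x4) (e5 : crv P 5 q y = x5)
    (w0 : R 0 q y x = v0) (w1 : R 1 q y x = v1) (w2 : R 2 q y x = v2) (w3 : R 3 q y x = v3) (w4 : R 4 q y x = v4) (w5 : R 5 q y x = v5)
    (hF : ∀ X, F X = if X - x1 ≤ 0 then S0 X else if X - x2 ≤ 0 then S1 X else if X - x3 ≤ 0 then S2 X else if X - x4 ≤ 0 then S3 X else S4 X)
    (h0 : ∀ X, x0 ≤ X → X ≤ x1 → Lin x0 x1 v0 v1 X (S0 X))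
    (h1 : ∀ X, x1 ≤ X → X ≤ x2 → Lin x1 x2 v1 v2 X (S1 X))
    (h2 : ∀ X, x2 ≤ X → X ≤ x3 → Lin x2 x3 v2 v3 X (S2 X))
    (h3 : ∀ X, x3 ≤ X → X ≤ x4 → Lin x3 x4 v3 v4 X (S3 X))
    (h4 : ∀ X, x4 ≤ X → X ≤ x5 → Lin x4 x5 v4 v5 X (S4 X))
    {X : ℝ} (k1 : 1 ≤ qqn X y) (k3 : qqn X y ≤ 3) :
    thd P R q X y x = if X ≤ 0 then -F (-X) else F X := by
  have key := h.third_eq hq (Sg := fun X => ![S0 X, S1 X, S2 X, S3 X, S4 X]) ?_ k1 k3
  · rw [key]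
    have e : ∀ X, nst (List.ofFn fun i : Fin 5 => (crv P i.succ q y, (![S0 X, S1 X, S2 X, S3 X, S4 X] : Fin 5 → ℝ) i)) X =
        F X := by
      intro X
      rw [hF]
      have l : (List.ofFn fun i : Fin 5 => (crv P i.succ q y, (![S0 X, S1 X, S2 X, S3 X, S4 X] : Fin 5 → ℝ) i)) =
          [(x1, S0 X), (x2, S1 X), (x3, S2 X), (x4, S3 X), (x5, S4 X)] := by
        rw [← e1, ← e2, ← e3, ← e4, ← e5]
        rfl
      rw [l]
      rfl
    unfold oddx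
    simp only [e]
  · intro i X g1 g2 _ _ _
    fin_cases i
    · have a1 : x0 ≤ X := e0 ▸ g1
      have a2 : X ≤ x1 := e1 ▸ g2
      have := h0 X a1 a2
      rw [← e0, ← e1, ← w0, ← w1] at this
      exact this
    · have a1 : x1 ≤ X := e1 ▸ g1
      have a2 : X ≤ x2 := e2 ▸ g2
      have := h1 X a1 a2
      rw [← e1, ← e2, ← w1, ← w2] at this
      exact this
    · have a1 : x2 ≤ X := e2 ▸ g1
      have a2 : X ≤ x3 := e3 ▸ g2
      have := h2 X a1 a2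
      rw [← e2, ← e3, ← w2, ← w3] at this
      exact this
    · have a1 : x3 ≤ X := e3 ▸ g1
      have a2 : X ≤ x4 := e4 ▸ g2
      have := h3 X a1 a2
      rw [← e3, ← e4, ← w3, ← w4] at this
      exact this
    · have a1 : x4 ≤ X := e4 ▸ g1
      have a2 : X ≤ x5 := e5 ▸ g2
      have := h4 X a1 a2
      rw [← e4, ← e5, ← w4, ← w5] at this
      exact this

/-- The third side with 6 segments. -/
theorem third6 {P : Pos 6} {R : Fin 7 → ℕ → ℝ → ℝ → ℝ} {x : ℝ} (h : Pins P R x) {q : ℕ}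
    {y : ℝ} (hq : InQ q y) {x0 x1 x2 x3 x4 x5 x6 v0 v1 v2 v3 v4 v5 v6 : ℝ} {S0 S1 S2 S3 S4 S5 F : ℝ → ℝ}
    (e0 : crv P 0 q y = x0) (e1 : crv P 1 q y = x1) (e2 : crv P 2 q y = x2) (e3 : crv P 3 q y = x3) (e4 : crv P 4 q y = x4) (e5 : crv P 5 q y = x5) (e6 : crv P 6 q y = x6)
    (w0 : R 0 q y x = v0) (w1 : R 1 q y x = v1) (w2 : R 2 q y x = v2) (w3 : R 3 q y x = v3) (w4 : R 4 q y x = v4) (w5 : R 5 q y x = v5) (w6 : R 6 q y x = v6)
    (hF : ∀ X, F X = if X - x1 ≤ 0 then S0 X else if X - x2 ≤ 0 then S1 X else if X - x3 ≤ 0 then S2 X else if X - x4 ≤ 0 then S3 X else if X - x5 ≤ 0 then S4 X else S5 X)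
    (h0 : ∀ X, x0 ≤ X → X ≤ x1 → Lin x0 x1 v0 v1 X (S0 X))
    (h1 : ∀ X, x1 ≤ X → X ≤ x2 → Lin x1 x2 v1 v2 X (S1 X))
    (h2 : ∀ X, x2 ≤ X → X ≤ x3 → Lin x2 x3 v2 v3 X (S2 X))
    (h3 : ∀ X, x3 ≤ X → X ≤ x4 → Lin x3 x4 v3 v4 X (S3 X))
    (h4 : ∀ X, x4 ≤ X → X ≤ x5 → Lin x4 x5 v4 v5 X (S4 X))
    (h5 : ∀ X, x5 ≤ X → X ≤ x6 → Lin x5 x6 v5 v6 X (S5 X))
    {X : ℝ} (k1 : 1 ≤ qqn X y) (k3 : qqn X y ≤ 3) :
    thd P R q X y x = if X ≤ 0 then -F (-X) else F X := by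
  have key := h.third_eq hq (Sg := fun X => ![S0 X, S1 X, S2 X, S3 X, S4 X, S5 X]) ?_ k1 k3
  · rw [key]
    have e : ∀ X, nst (List.ofFn fun i : Fin 6 => (crv P i.succ q y, (![S0 X, S1 X, S2 X, S3 X, S4 X, S5 X] : Fin 6 → ℝ) i)) X =
        F X := by
      intro X
      rw [hF]
      have l : (List.ofFn fun i : Fin 6 => (crv P i.succ q y, (![S0 X, S1 X, S2 X, S3 X, S4 X, S5 X] : Fin 6 → ℝ) i)) =
          [(x1, S0 X), (x2, S1 X), (x3, S2 X), (x4, S3 X), (x5, S4 X), (x6, S5 X)] := by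
        rw [← e1, ← e2, ← e3, ← e4, ← e5, ← e6]
        rfl
      rw [l]
      rfl
    unfold oddx
    simp only [e]
  · intro i X g1 g2 _ _ _
    fin_cases i
    · have a1 : x0 ≤ X := e0 ▸ g1
      have a2 : X ≤ x1 := e1 ▸ g2
      have := h0 X a1 a2
      rw [← e0, ← e1, ← w0, ← w1] at this
      exact this
    · have a1 : x1 ≤ X := e1 ▸ g1
      have a2 : X ≤ x2 := e2 ▸ g2
      have := h1 X a1 a2
      rw [← e1, ← e2, ← w1, ← w2] at this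
      exact this
    · have a1 : x2 ≤ X := e2 ▸ g1
      have a2 : X ≤ x3 := e3 ▸ g2
      have := h2 X a1 a2
      rw [← e2, ← e3, ← w2, ← w3] at this
      exact this
    · have a1 : x3 ≤ X := e3 ▸ g1
      have a2 : X ≤ x4 := e4 ▸ g2
      have := h3 X a1 a2
      rw [← e3, ← e4, ← w3, ← w4] at this
      exact this
    · have a1 : x4 ≤ X := e4 ▸ g1
      have a2 : X ≤ x5 := e5 ▸ g2
      have := h4 X a1 a2
      rw [← e4, ← e5, ← w4, ← w5] at this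
      exact this
    · have a1 : x5 ≤ X := e5 ▸ g1
      have a2 : X ≤ x6 := e6 ▸ g2
      have := h5 X a1 a2
      rw [← e5, ← e6, ← w5, ← w6] at this
      exact this

end Pool.Agent.Strip051.PB
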